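import Pool.Agent.Mg.F1c689d.Ge70af9

set_option linter.all false


set_option autoImplicit false

namespace Pool.Agent.MP_1c689d_ag

noncomputable section

/-- the unit interval -/
abbrev I : Type := unitInterval

variable {X Y Z : Type} [TopologicalSpace X] [TopologicalSpace Y] [TopologicalSpace Z]

/-- natural operator defined by a universal chain on `Sx n × I` -/
def opI {n m : ℕ} (u : Ch (Sx n × I) m) (X : Type) [TopologicalSpace X] :
    Ch X n →ₗ[ℚ] Ch (X × I) m :=
  ext1 (fun σ => push (σ.prodMap (ContinuousMap.id I)) u)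

theorem opI_sg {n m : ℕ} (u : Ch (Sx n × I) m) (σ : C(Sx n, X)) :
    opI u X (sg σ) = push (σ.prodMap (ContinuousMap.id I)) u := by
  simp [opI]

theorem opI_push {n m : ℕ} (u : Ch (Sx n × I) m) (f : C(X, Y)) (c : Ch X n) :
    opI u Y (push f c) = push (f.prodMap (ContinuousMap.id I)) (opI u X c) := by
  have : (opI u Y).comp (push f) = (push (f.prodMap (ContinuousMap.id I))).comp (opI u X) :=
    lin_ext (fun σ => by
      simp only [LinearMap.comp_apply, push_sg, opI_sg, push_push]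
      rfl)
  exact LinearMap.congr_fun this c

theorem opI_bd {n m : ℕ} (u : Ch (Sx n × I) (m + 1)) (c : Ch X n) :
    bd (opI u X c) = opI (bd u) X c := by
  have : bd.comp (opI u X) = opI (bd u) X :=
    lin_ext (fun σ => by simp only [LinearMap.comp_apply, opI_sg, bd_push])
  exact LinearMap.congr_fun this c

theorem opI_sub {n m : ℕ} (u v : Ch (Sx n × I) m) (c : Ch X n) :
    opI (u - v) X c = opI u X c - opI v X c := by
  have : opI (u - v) X = opI u X - opI v X :=
    lin_ext (fun σ => by simp only [LinearMap.sub_apply, opI_sg, map_sub])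
  exact LinearMap.congr_fun this c

/-- the fundamental simplex -/
abbrev idS (n : ℕ) : Ch (Sx n) n := sg (ContinuousMap.id (Sx n))

theorem opI_nat {n m : ℕ} (u : Ch (Sx n × I) m) (c : Ch X (n + 1)) :
    opI (opI u (Sx (n + 1)) (bd (idS (n + 1)))) X c = opI u X (bd c) := by
  have : opI (opI u (Sx (n + 1)) (bd (idS (n + 1)))) X = (opI u X).comp bd :=
    lin_ext (fun σ => by
      rw [opI_sg, ← opI_push, ← bd_push, push_sg]
      rfl)
  exact LinearMap.congr_fun this c

/-- affine structure on prisms -/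
def pAff (n : ℕ) : Aff (Sx n × I) := (sxAff n).prod iAff

theorem opI_bd_mem {n m : ℕ} {u : Ch (Sx n × I) m} (hu : u ∈ (pAff n).AS m) :
    opI u (Sx (n + 1)) (bd (idS (n + 1))) ∈ (pAff (n + 1)).AS m := by
  rw [bd_sg, map_sum]
  apply Submodule.sum_mem
  intro j _
  rw [map_smul, opI_sg]
  apply Submodule.smul_mem
  apply Aff.push_mem _ _ _ _ hu
  intro k v
  ext1 t
  apply Prod.ext
  · exact ContinuousMap.congr_fun (face_aff n j k (fun i => (v i).1)) t
  · rfl

/-- recursive construction of the chain homotopy -/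
def hty (a : ∀ n, Ch (Sx n × I) n) : ∀ n, Ch (Sx n × I) (n + 1)
  | 0 => (pAff 0).cone (vx 0, 0) 0 (a 0)
  | n + 1 => (pAff (n + 1)).cone (vx 0, 0) (n + 1)
      (a (n + 1) - opI (hty a n) (Sx (n + 1)) (bd (idS (n + 1))))

theorem hty_mem (a : ∀ n, Ch (Sx n × I) n) (n : ℕ) : hty a n ∈ (pAff n).AS (n + 1) := by
  cases n <;> exact Aff.cone_mem _ _ _ _

theorem hty_spec (a : ∀ n, Ch (Sx n × I) n) (haff : ∀ n, a n ∈ (pAff n).AS n)
    (hch : ∀ n, bd (a (n + 1)) = opI (a n) (Sx (n + 1)) (bd (idS (n + 1))))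
    (h0 : Aff.aug (a 0) = 0) (n : ℕ) :
    bd (hty a (n + 1)) = a (n + 1) - opI (hty a n) (Sx (n + 1)) (bd (idS (n + 1))) := by
  have step : ∀ n, bd (a (n + 1) - opI (hty a n) (Sx (n + 1)) (bd (idS (n + 1)))) = 0 →
      bd (hty a (n + 1)) = a (n + 1) - opI (hty a n) (Sx (n + 1)) (bd (idS (n + 1))) := by
    intro n h
    rw [hty, Aff.bd_cone _ _ _ (Submodule.sub_mem _ (haff _) (opI_bd_mem (hty_mem a n))), h]
    simp
  induction n with
  | zero =>
    apply step
    rw [map_sub, hch, opI_bd, hty, Aff.bd_cone0 _ _ (haff 0) h0, sub_self]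
  | succ n ih =>
    apply step
    rw [map_sub, hch, opI_bd, ih, opI_sub, opI_nat, bd_bd]
    simp

theorem null_hty (a : ∀ n, Ch (Sx n × I) n) (haff : ∀ n, a n ∈ (pAff n).AS n)
    (hch : ∀ n, bd (a (n + 1)) = opI (a n) (Sx (n + 1)) (bd (idS (n + 1))))
    (h0 : Aff.aug (a 0) = 0) (n : ℕ) (c : Ch X (n + 1)) (hc : bd c = 0) :
    bd (opI (hty a (n + 1)) X c) = opI (a (n + 1)) X c := by
  rw [opI_bd, hty_spec a haff hch h0, opI_sub, opI_nat, hc]
  simp

/-- the level inclusions -/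
def lev (X : Type) [TopologicalSpace X] (t : I) : C(X, X × I) :=
  (ContinuousMap.id X).prodMk (ContinuousMap.const X t)

theorem lev_aff (n : ℕ) (t : I) : (sxAff n).IsAffMap (pAff n) (lev (Sx n) t) := by
  intro k v
  ext1 s
  apply Prod.ext
  · rfl
  · apply Subtype.ext
    show (t : ℝ) = (caff (convex_Icc (0 : ℝ) 1) k (fun _ => t) s : ℝ)
    rw [caff_val, ← Finset.sum_smul, stdSimplex.sum_eq_one, one_smul]

theorem idS_mem (n : ℕ) : idS n ∈ (sxAff n).AS n := by
  rw [idS, id_eq_aff]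
  exact sg_mem ⟨_, rfl⟩

/-- natural operator defined by a universal chain on `Sx n` -/
def opS {n m : ℕ} (u : Ch (Sx n) m) (X : Type) [TopologicalSpace X] : Ch X n →ₗ[ℚ] Ch X m :=
  ext1 (fun σ => push σ u)

theorem opS_sg {n m : ℕ} (u : Ch (Sx n) m) (σ : C(Sx n, X)) : opS u X (sg σ) = push σ u := by
  simp [opS]

theorem opI_lev {n m : ℕ} (u : Ch (Sx n) m) (t : I) (c : Ch X n) :
    opI (push (lev (Sx n) t) u) X c = push (lev X t) (opS u X c) := by
  have : opI (push (lev (Sx n) t) u) X = (push (lev X t)).comp (opS u X) :=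
    lin_ext (fun σ => by
      simp only [LinearMap.comp_apply, opI_sg, opS_sg, push_push]
      rfl)
  exact LinearMap.congr_fun this c

theorem opS_id {n : ℕ} (c : Ch X n) : opS (idS n) X c = c := by
  have : opS (idS n) X = LinearMap.id := lin_ext (fun σ => by simp [opS_sg])
  exact LinearMap.congr_fun this c

theorem opS_push {n m : ℕ} (u : Ch (Sx n) m) (f : C(X, Y)) (c : Ch X n) :
    opS u Y (push f c) = push f (opS u X c) := by
  have : (opS u Y).comp (push f) = (push f).comp (opS u X) :=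
    lin_ext (fun σ => by simp only [LinearMap.comp_apply, push_sg, opS_sg, push_push])
  exact LinearMap.congr_fun this c

theorem aug_push (f : C(X, Y)) (c : Ch X 0) : Aff.aug (push f c) = Aff.aug c := by
  have : Aff.aug.comp (push f) = (Aff.aug : Ch X 0 →ₗ[ℚ] ℚ) :=
    lin_ext (fun σ => by simp [Aff.aug])
  exact LinearMap.congr_fun this c

/-- homotopy invariance: the prism over a cycle -/
theorem prism {n : ℕ} (c : Ch X (n + 1)) (hc : bd c = 0) :
    ∃ w : Ch (X × I) (n + 2), bd w = push (lev X 1) c - push (lev X 0) c := by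
  have := null_hty (fun n => push (lev (Sx n) 1) (idS n) - push (lev (Sx n) 0) (idS n))
    (fun n => Submodule.sub_mem _ (Aff.push_mem _ _ (lev_aff n 1) _ (idS_mem n))
      (Aff.push_mem _ _ (lev_aff n 0) _ (idS_mem n)))
    (fun n => by rw [opI_sub, opI_lev, opI_lev, opS_id, map_sub, bd_push, bd_push])
    (by rw [map_sub, aug_push, aug_push, sub_self]) n c hc
  refine ⟨_, this.trans ?_⟩
  rw [opI_sub, opI_lev, opI_lev, opS_id]

/-- barycentre -/
def bary (n : ℕ) : Sx n := stdSimplex.barycenter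

/-- universal barycentric subdivision -/
def sdU : ∀ n, Ch (Sx n) n
  | 0 => idS 0
  | n + 1 => (sxAff (n + 1)).cone (bary (n + 1)) n (opS (sdU n) (Sx (n + 1)) (bd (idS (n + 1))))

/-- barycentric subdivision -/
def Sd {n : ℕ} : Ch X n →ₗ[ℚ] Ch X n := opS (sdU n) X

theorem Sd_push {n : ℕ} (f : C(X, Y)) (c : Ch X n) : Sd (push f c) = push f (Sd c) :=
  opS_push _ f c

theorem sdU_mem (n : ℕ) : sdU n ∈ (sxAff n).AS n := by
  cases n
  · exact idS_mem 0
  · exact Aff.cone_mem _ _ _ _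

theorem Sd_bd_mem (n : ℕ) : Sd (bd (idS (n + 1))) ∈ (sxAff (n + 1)).AS n := by
  rw [bd_sg, map_sum]
  apply Submodule.sum_mem
  intro j _
  rw [map_smul, Sd, opS_sg]
  exact Submodule.smul_mem _ _ (Aff.push_mem _ _ (face_aff n j) _ (sdU_mem n))

theorem bd_Sd_of {n : ℕ} (h : bd (sdU (n + 1)) = Sd (bd (idS (n + 1)))) (c : Ch X (n + 1)) :
    bd (Sd c) = Sd (bd c) := by
  have : bd.comp (Sd : Ch X (n + 1) →ₗ[ℚ] _) = Sd.comp bd :=
    lin_ext (fun σ => by
      rw [LinearMap.comp_apply, LinearMap.comp_apply, Sd, opS_sg, bd_push, h, ← Sd_push,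
        ← bd_push, push_sg]
      rfl)
  exact LinearMap.congr_fun this c

theorem bd_sdU (n : ℕ) : bd (sdU (n + 1)) = Sd (bd (idS (n + 1))) := by
  induction n with
  | zero =>
    rw [sdU]
    apply Aff.bd_cone0 _ _ (Sd_bd_mem 0)
    rw [Sd, sdU, opS_id, Aff.aug_bd]
  | succ n ih =>
    rw [sdU]
    refine (Aff.bd_cone _ _ _ (Sd_bd_mem (n + 1))).trans ?_
    rw [bd_Sd_of ih, bd_bd]
    simp

theorem bd_Sd {n : ℕ} (c : Ch X (n + 1)) : bd (Sd c) = Sd (bd c) := bd_Sd_of (bd_sdU n) c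

theorem Sd_hom {n : ℕ} (c : Ch X (n + 1)) (hc : bd c = 0) :
    ∃ w : Ch X (n + 2), bd w = Sd c - c := by
  have := null_hty (fun n => push (lev (Sx n) 0) (sdU n) - push (lev (Sx n) 0) (idS n))
    (fun n => Submodule.sub_mem _ (Aff.push_mem _ _ (lev_aff n 0) _ (sdU_mem n))
      (Aff.push_mem _ _ (lev_aff n 0) _ (idS_mem n)))
    (fun n => by
      rw [opI_sub, opI_lev, opI_lev, opS_id, map_sub, bd_push, bd_push, bd_sdU]
      rfl)
    (by rw [sdU, sub_self, map_zero]) n c hc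
  obtain ⟨w, hw⟩ : ∃ w : Ch (X × I) (n + 2), bd w = _ := ⟨_, this⟩
  refine ⟨push (ContinuousMap.fst : C(X × I, X)) w, ?_⟩
  rw [bd_push, hw, opI_sub, opI_lev, opI_lev, opS_id, map_sub, push_push, push_push]
  have e : ContinuousMap.fst.comp (lev X 0) = ContinuousMap.id X := rfl
  have e2 : ∀ d : Ch X (n + 1), push (ContinuousMap.id X) d = d := by
    intro d
    have : push (ContinuousMap.id X) = (LinearMap.id : Ch X (n + 1) →ₗ[ℚ] _) :=
      lin_ext (fun σ => by simp)
    exact LinearMap.congr_fun this d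
  rw [e, e2, e2]
  rfl

/-- iterated subdivision -/
def SdN {n : ℕ} (N : ℕ) : Ch X n →ₗ[ℚ] Ch X n := Sd ^ N

theorem SdN_succ {n : ℕ} (N : ℕ) (c : Ch X n) : SdN (N + 1) c = Sd (SdN N c) := by
  rw [SdN, pow_succ']
  rfl

theorem SdN_push {n : ℕ} (N : ℕ) (f : C(X, Y)) (c : Ch X n) :
    SdN N (push f c) = push f (SdN N c) := by
  induction N with
  | zero => rfl
  | succ N ih => rw [SdN_succ, SdN_succ, ih, Sd_push]

theorem bd_SdN {n : ℕ} (N : ℕ) (c : Ch X (n + 1)) : bd (SdN N c) = SdN N (bd c) := by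
  induction N with
  | zero => rfl
  | succ N ih => rw [SdN_succ, SdN_succ, bd_Sd, ih]

theorem SdN_hom {n : ℕ} (N : ℕ) (c : Ch X (n + 1)) (hc : bd c = 0) :
    ∃ w : Ch X (n + 2), bd w = SdN N c - c := by
  induction N with
  | zero => exact ⟨0, by simp [SdN]⟩
  | succ N ih =>
    obtain ⟨w, hw⟩ := ih
    obtain ⟨w', hw'⟩ := Sd_hom (SdN N c) (by rw [bd_SdN, hc, map_zero])
    exact ⟨w + w', by rw [map_add, hw, hw', SdN_succ]; abel⟩

section small
variable {E : Type} [NormedAddCommGroup E] [NormedSpace ℝ E] {K : Set E}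

theorem bary_dist (hK : Convex ℝ K) (k : ℕ) (v : Fin (k + 1) → K) (D : ℝ)
    (h : ∀ i j, dist (v i : E) (v j) ≤ D) (j : Fin (k + 1)) :
    dist (v j : E) (caff hK k v (bary k) : E) ≤ (k / (k + 1) : ℝ) * D := by
  have hk : (0 : ℝ) < k + 1 := by positivity
  have e : (v j : E) - (caff hK k v (bary k) : E) =
      ∑ i, ((k + 1 : ℝ)⁻¹) • ((v j : E) - v i) := by
    rw [caff_val]
    have : ∀ i, bary k i = (k + 1 : ℝ)⁻¹ := by
      intro i
      show (Fintype.card (Fin (k + 1)) : ℝ)⁻¹ = _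
      simp
    simp only [this, smul_sub, Finset.sum_sub_distrib, Finset.sum_const, Finset.card_univ,
      Fintype.card_fin]
    rw [← Nat.cast_smul_eq_nsmul ℝ, smul_smul]
    push_cast
    rw [mul_inv_cancel₀ hk.ne', one_smul]
  rw [dist_eq_norm, e, Fin.sum_univ_succAbove _ j]
  simp only [sub_self, smul_zero, zero_add]
  refine (norm_sum_le _ _).trans ?_
  have : ∀ i : Fin k, ‖((k + 1 : ℝ)⁻¹) • ((v j : E) - v (j.succAbove i))‖ ≤ (k + 1 : ℝ)⁻¹ * D := by
    intro i
    rw [norm_smul, Real.norm_of_nonneg (by positivity), ← dist_eq_norm]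
    exact mul_le_mul_of_nonneg_left (h _ _) (by positivity)
  refine (Finset.sum_le_sum (fun i _ => this i)).trans ?_
  simp only [Finset.sum_const, Finset.card_univ, Fintype.card_fin, nsmul_eq_mul]
  rw [div_eq_mul_inv, mul_assoc]

theorem sd_small (hK : Convex ℝ K) (k : ℕ) : ∀ (v : Fin (k + 1) → K) (D : ℝ),
    (∀ i j, dist (v i : E) (v j) ≤ D) →
    Sd (sg (caff hK k v)) ∈ Sup {τ | ∃ w, τ = caff hK k w ∧
      (∀ (c : E) (ρ : ℝ), (∀ i, dist (v i : E) c ≤ ρ) → ∀ i, dist (w i : E) c ≤ ρ) ∧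
      ∀ i j, dist (w i : E) (w j) ≤ (k / (k + 1) : ℝ) * D} := by
  induction k with
  | zero =>
    intro v D _
    rw [Sd, sdU, opS_id]
    refine sg_mem ⟨v, rfl, fun _ _ h => h, fun i j => ?_⟩
    rw [Fin.fin_one_eq_zero i, Fin.fin_one_eq_zero j]
    simp
  | succ k ih =>
    intro v D h
    have hD : 0 ≤ D := le_trans dist_nonneg (h 0 0)
    have e : Sd (sg (caff hK (k + 1) v)) = (convAff hK).cone (caff hK (k + 1) v (bary (k + 1))) k
        (Sd (bd (sg (caff hK (k + 1) v)))) := by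
      rw [Sd, opS_sg, sdU]
      refine (Aff.push_cone _ _ (caff_aff hK (k + 1) v) _ _ (Sd_bd_mem k)).trans ?_
      rw [← Sd_push, ← bd_push, push_sg]
      rfl
    rw [e]
    have e2 := (convAff hK).bd_aff k v
    have e3 : (convAff hK).aff = caff hK := rfl
    rw [e3] at e2
    rw [e2, map_sum, map_sum]
    apply Submodule.sum_mem
    intro j _
    rw [map_smul, map_smul]
    apply Submodule.smul_mem
    apply Sup_map _ _ _ (ih (fun i => v (j.succAbove i)) D (fun a b => h _ _))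
    rintro _ ⟨w, rfl, h1, h2⟩
    have e4 := (convAff hK).cone_aff (caff hK (k + 1) v (bary (k + 1))) k w
    rw [e3] at e4
    rw [e4]
    have hb : ∀ i, dist (w i : E) (caff hK (k + 1) v (bary (k + 1)) : E) ≤
        ((k + 1 : ℕ) / ((k + 1 : ℕ) + 1) : ℝ) * D :=
      h1 _ _ (fun i => bary_dist hK (k + 1) v D h _)
    have hle : (k / (k + 1) : ℝ) * D ≤ ((k + 1 : ℕ) / ((k + 1 : ℕ) + 1) : ℝ) * D := by
      apply mul_le_mul_of_nonneg_right _ hD
      push_cast
      rw [div_le_div_iff₀ (by positivity) (by positivity)]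
      nlinarith
    refine sg_mem ⟨_, rfl, ?_, ?_⟩
    · intro c ρ hc i
      refine Fin.cases ?_ (fun i => ?_) i
      · exact caff_dist hK _ v c ρ hc _
      · exact h1 c ρ (fun i => hc _) i
    · intro a b
      refine Fin.cases ?_ (fun a => ?_) a <;> refine Fin.cases ?_ (fun b => ?_) b
      · simp only [Fin.cons_zero, dist_self]
        positivity
      · simp only [Fin.cons_zero, Fin.cons_succ]
        rw [dist_comm]
        exact hb b
      · simp only [Fin.cons_zero, Fin.cons_succ]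
        exact hb a
      · simp only [Fin.cons_succ]
        exact (h2 a b).trans hle

end small

theorem sdN_small (n N : ℕ) : SdN N (idS n) ∈ Sup {τ | ∃ w,
    τ = caff (convex_stdSimplex ℝ (Fin (n + 1))) n w ∧
      ∀ i j, dist (w i).1 (w j).1 ≤ (n / (n + 1) : ℝ) ^ N} := by
  induction N with
  | zero =>
    refine sg_mem ⟨vx, id_eq_aff n, fun i j => ?_⟩
    rw [pow_zero]
    exact (Metric.dist_le_diam_of_mem (bounded_stdSimplex _) (vx i).2 (vx j).2).trans
      diam_stdSimplex_le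
  | succ N ih =>
    rw [SdN_succ]
    apply Sup_map _ _ _ ih
    rintro _ ⟨w, rfl, h⟩
    refine Sup_mono ?_ (sd_small (convex_stdSimplex ℝ (Fin (n + 1))) n w _ h)
    rintro _ ⟨w', rfl, _, h2⟩
    exact ⟨w', rfl, fun i j => by rw [pow_succ']; exact h2 i j⟩

/-- small simplices -/
theorem small {n : ℕ} (𝒰 : Set (Set X)) (ho : ∀ V ∈ 𝒰, IsOpen V) (hc : ∀ x, ∃ V ∈ 𝒰, x ∈ V)
    (c : Ch X n) : ∃ N, SdN N c ∈ Sup {τ | ∃ V ∈ 𝒰, ∀ s, τ s ∈ V} := by
  have key : ∀ σ : C(Sx n, X), ∀ᶠ N in Filter.atTop,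
      SdN N (sg σ) ∈ Sup {τ | ∃ V ∈ 𝒰, ∀ s, τ s ∈ V} := by
    intro σ
    obtain ⟨δ, hδ, h⟩ := lebesgue_number_lemma_of_metric (s := (Set.univ : Set (Sx n)))
      (c := fun V : 𝒰 => σ ⁻¹' V) isCompact_univ
      (fun V => (ho V V.2).preimage σ.continuous) (by
        intro s _
        obtain ⟨V, hV, hs⟩ := hc (σ s)
        exact Set.mem_iUnion.mpr ⟨⟨V, hV⟩, hs⟩)
    have hlt : (n / (n + 1) : ℝ) < 1 := by
      rw [div_lt_one (by positivity)]
      linarith
    have ht := tendsto_pow_atTop_nhds_zero_of_lt_one (by positivity) hlt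
    filter_upwards [ht.eventually (gt_mem_nhds hδ)] with N hN
    have e : sg σ = push σ (idS n) := by simp
    rw [e, SdN_push]
    apply Sup_map _ _ _ (sdN_small n N)
    rintro _ ⟨w, rfl, hw⟩
    rw [push_sg]
    obtain ⟨V, hV⟩ := h (w 0) (Set.mem_univ _)
    refine sg_mem ⟨V, V.2, fun s => hV ?_⟩
    exact lt_of_le_of_lt (caff_dist _ n w (w 0).1 _ (fun i => hw i 0) s) hN
  have all := (Filter.eventually_all_finset c.support).mpr (fun σ _ => key σ)
  obtain ⟨N, hN⟩ := all.exists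
  exact ⟨N, Sup_map _ _ (fun σ hσ => hN σ hσ) (mem_Sup_support c)⟩

end

end Pool.Agent.MP_1c689d_ag
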