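import Pool.Agent.Mg.F1c689d.Gbeb1d0

set_option linter.all false


section

/-! Several complex variables. -/

set_option autoImplicit false

open Complex Filter Topology Set MeasureTheory
open scoped ComplexConjugate ContDiff ENNReal

namespace Pool.Agent.MP_1c689d_ag.K0

noncomputable section

variable {n m k : ℕ} {X Y : Type} [TopologicalSpace X] [TopologicalSpace Y] [Mf n X] [Mf m Y]

theorem SCVb_rot {W : Type} [NormedAddCommGroup W] [NormedSpace ℂ W] (f : E n → W) (z : E n)
    (r : ℝ) {c : ℂ} (hc : ‖c‖ = 1) :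
    ∫ w in Metric.closedBall (0 : E n) r, f (z + c • w) = ∫ w in Metric.closedBall z r, f w := by
  have h0 : c ≠ 0 := fun h => by simp [h] at hc
  have h1 : MeasurePreserving (fun w : E n => c • w) := volume_preserving_pi fun _ =>
    (rotation ⟨c, mem_sphere_zero_iff_norm.2 hc⟩).measurePreserving
  have h2 := ((measurePreserving_add_left volume z).comp h1).setIntegral_preimage_emb
    ((measurableEmbedding_addLeft z).comp (Homeomorph.smulOfNeZero c h0).measurableEmbedding) f
    (Metric.closedBall z r)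
  rw [← h2]
  congr 2
  ext w
  simp [norm_smul, hc]

theorem SCVb_mean {W : Type} [NormedAddCommGroup W] [NormedSpace ℂ W] [CompleteSpace W]
    {f : E n → W} {z : E n} {r : ℝ}
    (hf : ∀ w ∈ Metric.closedBall z r, DifferentiableAt ℂ f w) :
    ∫ w in Metric.closedBall z r, f w = (volume (Metric.closedBall z r)).toReal • f z := by
  have hm : ∀ c : ℂ, ‖c‖ ≤ 1 → ∀ w ∈ Metric.closedBall (0 : E n) r,
      z + c • w ∈ Metric.closedBall z r := fun c hc w hw => by
    rw [mem_closedBall_zero_iff] at hw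
    rw [mem_closedBall_iff_norm, add_sub_cancel_left, norm_smul]
    exact (mul_le_of_le_one_left (norm_nonneg _) hc).trans hw
  have hn : ∀ θ : ℝ, ‖circleMap 0 1 θ‖ = 1 := fun θ => by simp
  have hp : (2 * Real.pi) ≠ 0 := Real.two_pi_pos.ne'
  have h1 : ∀ w ∈ Metric.closedBall (0 : E n) r,
      ∫ θ in (0 : ℝ)..2 * Real.pi, f (z + circleMap 0 1 θ • w) = (2 * Real.pi) • f z :=
    fun w hw => by
    have hd : DifferentiableOn ℂ (fun c : ℂ => f (z + c • w)) (Metric.closedBall 0 |(1 : ℝ)|) :=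
      fun c hc => ((hf _ (hm c (by simpa using hc) w hw)).comp c
        (f := fun c : ℂ => z + c • w) (by fun_prop)).differentiableWithinAt
    have h2 := (hd.diffContOnCl_ball subset_rfl).circleAverage
    rw [Real.circleAverage_def, zero_smul, add_zero] at h2
    rw [← h2, smul_smul, mul_inv_cancel₀ hp, one_smul]
  have hi : Integrable (Function.uncurry fun (θ : ℝ) (w : E n) => f (z + circleMap 0 1 θ • w))
      ((volume.restrict (uIoc (0 : ℝ) (2 * Real.pi))).prod
        (volume.restrict (Metric.closedBall (0 : E n) r))) := by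
    rw [Measure.prod_restrict]
    refine IntegrableOn.mono_set (t := uIcc (0 : ℝ) (2 * Real.pi) ×ˢ Metric.closedBall 0 r)
      (ContinuousOn.integrableOn_compact (isCompact_uIcc.prod (isCompact_closedBall _ _)) ?_)
      (prod_mono uIoc_subset_uIcc subset_rfl)
    exact ContinuousOn.comp (g := f) (f := fun p : ℝ × E n => z + circleMap 0 1 p.1 • p.2)
      (fun w hw => (hf w hw).continuousAt.continuousWithinAt) (by fun_prop)
      fun p hp => hm _ (hn _).le _ hp.2
  have h3 := intervalIntegral_integral_swap hi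
  simp only [SCVb_rot f z r (hn _)] at h3
  rw [setIntegral_congr_fun Metric.isClosed_closedBall.measurableSet h1, setIntegral_const,
    intervalIntegral.integral_const, sub_zero, smul_comm, Measure.real,
    Measure.addHaar_closedBall_center] at h3
  rw [Measure.addHaar_closedBall_center]
  exact smul_right_injective W hp h3

/-- The mean value inequality on polydiscs (balls of the sup norm). -/
theorem mean_value_sq {W : Type} [NormedAddCommGroup W] [NormedSpace ℂ W] [CompleteSpace W]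
    {f : E n → W} {z : E n} {r : ℝ} (hr : 0 < r)
    (hf : ∀ w ∈ Metric.closedBall z r, DifferentiableAt ℂ f w) :
    ‖f z‖ₑ ^ 2 * volume (Metric.closedBall z r) ≤ ∫⁻ w in Metric.closedBall z r, ‖f w‖ₑ ^ 2 := by
  have hc : ContinuousOn f (Metric.closedBall z r) :=
    fun w hw => (hf w hw).continuousAt.continuousWithinAt
  have hK := isCompact_closedBall z r
  have i1 : IntegrableOn (fun w => ‖f w‖) (Metric.closedBall z r) :=
    hc.norm.integrableOn_compact hK
  have i2 : IntegrableOn (fun w => ‖f w‖ ^ 2) (Metric.closedBall z r) :=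
    (hc.norm.pow 2).integrableOn_compact hK
  have i3 : IntegrableOn (fun _ => ‖f z‖ ^ 2) (Metric.closedBall z r) :=
    continuousOn_const.integrableOn_compact hK
  have h1 := norm_integral_le_integral_norm (μ := volume.restrict (Metric.closedBall z r)) f
  rw [SCVb_mean hf, norm_smul, Real.norm_of_nonneg ENNReal.toReal_nonneg] at h1
  have h2 := integral_mono (i1.const_mul (2 * ‖f z‖)) (i3.add i2) fun w => by
    have := sq_nonneg (‖f z‖ - ‖f w‖)
    simp only [Pi.add_apply]
    linarith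
  rw [integral_const_mul, integral_add' i3 i2, setIntegral_const, smul_eq_mul, Measure.real] at h2
  have h3 : ‖f z‖ ^ 2 * (volume (Metric.closedBall z r)).toReal ≤
      ∫ w in Metric.closedBall z r, ‖f w‖ ^ 2 := by
    nlinarith [mul_le_mul_of_nonneg_left h1 (norm_nonneg (f z))]
  have h4 := ENNReal.ofReal_le_ofReal h3
  rw [ofReal_integral_eq_lintegral_ofReal i2 (ae_of_all _ fun w => sq_nonneg _),
    ENNReal.ofReal_mul (sq_nonneg _), ENNReal.ofReal_toReal hK.measure_lt_top.ne] at h4
  simpa only [ENNReal.ofReal_pow (norm_nonneg _), ofReal_norm] using h4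

section

variable {V W : Type} [NormedAddCommGroup V] [NormedSpace ℂ V] [NormedAddCommGroup W]
  [NormedSpace ℂ W]

theorem SCVb_cauchy {h : V → W} {x : V} {r M : ℝ} (hr : 0 < r)
    (hd : DifferentiableOn ℂ h (Metric.ball x r)) (hb : ∀ y ∈ Metric.ball x r, ‖h y‖ ≤ M) :
    ‖fderiv ℂ h x‖ ≤ 2 * M / r := by
  refine norm_fderiv_le_div_of_mapsTo_ball hd (fun y hy => ?_) hr
  rw [Metric.mem_closedBall, dist_eq_norm]
  have h1 := hb y hy
  have h2 := hb x (Metric.mem_ball_self hr)
  have h3 := norm_sub_le (h y) (h x)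
  linarith

theorem SCVb_close {g h : V → W} {x : V} {r ε : ℝ} (hr : 0 < r) (hε : 0 < ε)
    (hg : DifferentiableOn ℂ g (Metric.ball x r)) (hh : DifferentiableOn ℂ h (Metric.ball x r))
    (hb : ∀ y ∈ Metric.ball x r, dist (g y) (h y) < ε * r / 4) :
    dist (fderiv ℂ g x) (fderiv ℂ h x) < ε := by
  have h1 := SCVb_cauchy hr (hg.sub hh) fun y hy => (dist_eq_norm (g y) (h y) ▸ hb y hy).le
  rw [fderiv_sub (hg.differentiableAt (Metric.ball_mem_nhds x hr))
    (hh.differentiableAt (Metric.ball_mem_nhds x hr))] at h1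
  rw [dist_eq_norm]
  have h2 : 2 * (ε * r / 4) / r = ε / 2 := by field_simp; ring
  linarith

theorem SCVb_sub {c x : V} {r : ℝ} (hx : x ∈ Metric.ball c r) :
    Metric.ball x r ⊆ Metric.ball c (2 * r) := fun y hy => by
  rw [Metric.mem_ball] at *
  have := dist_triangle y x c
  linarith

theorem SCVb_ball {U : Set V} (hU : IsOpen U) {x : V} (hx : x ∈ U) :
    ∃ r : ℝ, 0 < r ∧ Metric.closedBall x (2 * r) ⊆ U := by
  obtain ⟨ε, h1, h2⟩ := Metric.isOpen_iff.1 hU x hx
  exact ⟨ε / 4, by positivity, (Metric.closedBall_subset_ball (by linarith)).trans h2⟩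

/-- Integrals of holomorphic families. -/
theorem SCVb_param [ProperSpace V] {F : V → ℝ → W} {U : Set V} (hU : IsOpen U)
    (hc : ContinuousOn (fun p : V × ℝ => F p.1 p.2) (U ×ˢ univ))
    (hd : ∀ t, DifferentiableOn ℂ (fun w => F w t) U) (a b : ℝ) {x : V} (hx : x ∈ U) :
    DifferentiableAt ℂ (fun w => ∫ t in a..b, F w t) x := by
  obtain ⟨r, hr, hs⟩ := SCVb_ball hU hx
  have hs' : Metric.ball x (2 * r) ⊆ U := Metric.ball_subset_closedBall.trans hs
  have hK : IsCompact (Metric.closedBall x (2 * r) ×ˢ uIcc a b) :=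
    (isCompact_closedBall _ _).prod isCompact_uIcc
  have hc' := hc.mono (prod_mono hs (subset_univ (uIcc a b)))
  obtain ⟨M, hM⟩ := hK.exists_bound_of_continuousOn hc'
  have c1 : ∀ w ∈ U, Continuous (F w) := fun w hw => continuousOn_univ.1
    (hc.comp (f := fun t => (w, t)) (by fun_prop) fun t _ => ⟨hw, trivial⟩)
  have c2 : ContinuousOn (fun t => fderiv ℂ (fun w => F w t) x) (uIcc a b) := by
    refine Metric.continuousOn_iff.2 fun t ht ε hε => ?_
    obtain ⟨δ, h1, h2⟩ := Metric.uniformContinuousOn_iff.1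
      (hK.uniformContinuousOn_of_continuous hc') (ε * (2 * r) / 4) (by positivity)
    refine ⟨δ, h1, fun t' ht' h3 => SCVb_close (by positivity) hε ((hd t').mono hs')
      ((hd t).mono hs') fun y hy => h2 (y, t') ⟨Metric.ball_subset_closedBall hy, ht'⟩ (y, t)
        ⟨Metric.ball_subset_closedBall hy, ht⟩ ?_⟩
    rw [Prod.dist_eq, dist_self]
    exact max_lt h1 h3
  refine (intervalIntegral.hasFDerivAt_integral_of_dominated_of_fderiv_le (𝕜 := ℂ) (μ := volume)
    (F' := fun w t => fderiv ℂ (fun w => F w t) w) (bound := fun _ => 2 * M / r)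
    (Metric.ball_mem_nhds x hr) ?_ ((c1 x hx).intervalIntegrable _ _)
    ((c2.mono uIoc_subset_uIcc).aestronglyMeasurable measurableSet_uIoc)
    (ae_of_all _ fun t ht w hw => ?_) intervalIntegrable_const
    (ae_of_all _ fun t _ w hw => ?_)).differentiableAt
  · filter_upwards [hU.mem_nhds hx] with w hw using (c1 w hw).aestronglyMeasurable
  · exact SCVb_cauchy hr ((hd t).mono ((SCVb_sub hw).trans hs')) fun y hy =>
      hM (y, t) ⟨Metric.ball_subset_closedBall (SCVb_sub hw hy), uIoc_subset_uIcc ht⟩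
  · exact ((hd t).differentiableAt (hU.mem_nhds
      (hs' (SCVb_sub hw (Metric.mem_ball_self hr))))).hasFDerivAt

end

/-- Division by the first coordinate. -/
theorem hol_div_coord {W : Type} [NormedAddCommGroup W] [NormedSpace ℂ W] [CompleteSpace W]
    {f : E (n + 1) → W} {z : E (n + 1)} (hz : z 0 = 0)
    (hf : ∀ᶠ w in 𝓝 z, DifferentiableAt ℂ f w) (h0 : ∀ᶠ w in 𝓝 z, w 0 = 0 → f w = 0) :
    ∃ g : E (n + 1) → W, (∀ᶠ w in 𝓝 z, DifferentiableAt ℂ g w) ∧ ∀ᶠ w in 𝓝 z, f w = w 0 • g w := by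
  obtain ⟨R, hR, hs⟩ := Metric.eventually_nhds_iff_ball.1 (hf.and h0)
  have hρ : 0 < R / 2 := half_pos hR
  let A : E (n + 1) → ℂ → E (n + 1) := fun w ζ => w + (ζ - w 0) • Pi.single 0 1
  have hA : ∀ w ∈ Metric.ball z (R / 2), ∀ ζ : ℂ, ‖ζ‖ ≤ R / 2 → A w ζ ∈ Metric.ball z R :=
    fun w hw ζ hζ => by
    refine (dist_pi_lt_iff hR).2 fun i => ?_
    by_cases e : i = 0
    · subst e
      simp only [A, Pi.add_apply, Pi.smul_apply, Pi.single_eq_same, smul_eq_mul, mul_one,
        add_sub_cancel, hz, dist_zero_right]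
      linarith
    · simp only [A, Pi.add_apply, Pi.smul_apply, Pi.single_eq_of_ne e, smul_zero, add_zero]
      exact (dist_le_pi_dist w z i).trans_lt ((Metric.mem_ball.1 hw).trans (half_lt_self hR))
  have hw0 : ∀ w ∈ Metric.ball z (R / 2), ‖w 0‖ < R / 2 := fun w hw => by
    have := (dist_le_pi_dist w z 0).trans_lt (Metric.mem_ball.1 hw)
    rwa [hz, dist_zero_right] at this
  have hn : ∀ θ : ℝ, ‖circleMap 0 (R / 2) θ‖ = R / 2 := fun θ => by
    rw [norm_circleMap_zero, abs_of_pos hρ]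
  have hne : ∀ w ∈ Metric.ball z (R / 2), ∀ θ : ℝ, circleMap 0 (R / 2) θ - w 0 ≠ 0 :=
    fun w hw θ e => (hw0 w hw).ne (by rw [← sub_eq_zero.1 e, hn])
  refine ⟨fun w => Real.circleAverage (fun ζ => (ζ - w 0)⁻¹ • f (A w ζ)) 0 (R / 2), ?_, ?_⟩
  · filter_upwards [Metric.ball_mem_nhds z hρ] with x hx
    refine DifferentiableAt.const_smul (SCVb_param (F := fun w θ =>
      (circleMap 0 (R / 2) θ - w 0)⁻¹ • f (A w (circleMap 0 (R / 2) θ))) Metric.isOpen_ball
      ?_ (fun θ w hw => DifferentiableAt.differentiableWithinAt ?_) 0 (2 * Real.pi) hx) _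
    · refine ContinuousOn.smul (ContinuousOn.inv₀ (by fun_prop) fun p hp => hne _ hp.1 _) ?_
      exact ContinuousOn.comp (g := f)
        (f := fun p : E (n + 1) × ℝ => A p.1 (circleMap 0 (R / 2) p.2))
        (fun w hw => (hs w hw).1.continuousAt.continuousWithinAt) (by fun_prop)
        fun p hp => hA _ hp.1 _ (hn _).le
    · exact DifferentiableAt.smul (DifferentiableAt.inv (by fun_prop) (hne w hw θ))
        ((hs _ (hA w hw _ (hn θ).le)).1.comp w
          (f := fun w => A w (circleMap 0 (R / 2) θ)) (by fun_prop))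
  · filter_upwards [Metric.ball_mem_nhds z hρ] with w hw
    have hd : DifferentiableOn ℂ (fun ζ => f (A w ζ)) (Metric.closedBall 0 |R / 2|) :=
      fun ζ hζ => ((hs _ (hA w hw ζ (by simpa [abs_of_pos hρ] using hζ))).1.comp ζ
        (f := A w) (by fun_prop)).differentiableWithinAt
    have h1 : f (A w 0) = 0 := (hs _ (hA w hw 0 (by simpa using hρ.le))).2 (by simp [A])
    have h2 := (((differentiableOn_dslope (Metric.closedBall_mem_nhds 0
      (abs_pos.2 hρ.ne'))).2 hd).diffContOnCl_ball subset_rfl).circleAverage_smul_div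
      (w := w 0) (by rw [mem_ball_zero_iff, abs_of_pos hρ]; exact hw0 w hw)
    have h3 : ∀ ζ : ℂ, ζ • dslope (fun ζ => f (A w ζ)) 0 ζ = f (A w ζ) := fun ζ => by
      have := sub_smul_dslope (fun ζ => f (A w ζ)) 0 ζ
      rwa [sub_zero, h1, sub_zero] at this
    have h4 : (fun ζ : ℂ => ((ζ - 0) / (ζ - w 0)) • dslope (fun ζ => f (A w ζ)) 0 ζ) =
        fun ζ => (ζ - w 0)⁻¹ • f (A w ζ) := by
      funext ζ
      rw [sub_zero, div_eq_inv_mul, mul_smul, h3]
    rw [h4] at h2
    rw [h2, h3]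
    simp [A]

end

end Pool.Agent.MP_1c689d_ag.K0

end

section

/-! Several complex variables. -/

set_option autoImplicit false

open Complex Filter Topology Set MeasureTheory
open scoped ComplexConjugate ContDiff ENNReal

namespace Pool.Agent.MP_1c689d_ag.K0

noncomputable section

variable {n m k : ℕ} {X Y : Type} [TopologicalSpace X] [TopologicalSpace Y] [Mf n X] [Mf m Y]

/-- A local section of a map with invertible derivative. -/
theorem SCV_section {A B : Type} [NormedAddCommGroup A] [NormedSpace ℂ A] [CompleteSpace A]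
    [NormedAddCommGroup B] [NormedSpace ℂ B] {Φ : A → B} {a : A} {L : A ≃L[ℂ] B}
    (h : ContDiffAt ℂ 1 Φ a) (hL : HasFDerivAt Φ (L : A →L[ℂ] B) a) :
    ∃ ψ : B → A, Tendsto ψ (𝓝 (Φ a)) (𝓝 a) ∧
      ∀ᶠ y in 𝓝 (Φ a), DifferentiableAt ℂ ψ y ∧ ∀ᶠ y' in 𝓝 y, Φ (ψ y') = y' := by
  have hs := h.hasStrictFDerivAt' hL one_ne_zero
  refine ⟨h.localInverse hL one_ne_zero, hs.localInverse_tendsto, ?_⟩
  refine Eventually.and ?_ hs.eventually_right_inverse.eventually_nhds
  filter_upwards [(h.to_localInverse hL one_ne_zero).eventually (by simp)] with y hy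
  exact hy.differentiableAt one_ne_zero

/-- A map with finite fibres has an injective derivative somewhere. -/
theorem SCV_inj {A B : Type} [NormedAddCommGroup A] [NormedSpace ℂ A] [FiniteDimensional ℂ A]
    [NormedAddCommGroup B] [NormedSpace ℂ B] [FiniteDimensional ℂ B] {f : A → B} {U : Set A}
    (hU : IsOpen U) (hne : U.Nonempty) (hf : ∀ z ∈ U, ContDiffAt ℂ 1 f z)
    (hfin : ∀ w, (U ∩ f ⁻¹' {w}).Finite) :
    ∃ z ∈ U, LinearMap.ker (fderiv ℂ f z : A →ₗ[ℂ] B) = ⊥ := by
  have := FiniteDimensional.complete ℂ A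
  obtain ⟨a, ha, hmin⟩ : ∃ a ∈ U, ∀ z ∈ U,
      Module.finrank ℂ (LinearMap.ker (fderiv ℂ f a : A →ₗ[ℂ] B)) ≤
        Module.finrank ℂ (LinearMap.ker (fderiv ℂ f z : A →ₗ[ℂ] B)) :=
    ⟨_, Function.argminOn_mem (fun z => Module.finrank ℂ
      (LinearMap.ker (fderiv ℂ f z : A →ₗ[ℂ] B))) U hne, fun z hz => Function.argminOn_le
        (fun z => Module.finrank ℂ (LinearMap.ker (fderiv ℂ f z : A →ₗ[ℂ] B))) U hz⟩
  refine ⟨a, ha, ?_⟩
  set D : A →ₗ[ℂ] B := (fderiv ℂ f a : A →ₗ[ℂ] B) with hD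
  by_contra hK
  obtain ⟨k, hk, hk0⟩ := (Submodule.ne_bot_iff _).1 hK
  obtain ⟨P, hP⟩ := (LinearMap.range D).subtype.exists_leftInverse_of_injective
    (Submodule.ker_subtype _)
  obtain ⟨π, hπ⟩ := (LinearMap.ker D).subtype.exists_leftInverse_of_injective
    (Submodule.ker_subtype _)
  have hrk := LinearMap.finrank_range_add_finrank_ker D
  have hinj : Function.Injective ((P ∘ₗ D).prod π) := by
    rw [injective_iff_map_eq_zero]
    intro x hx
    have h1 : P (D x) = 0 := congrArg Prod.fst hx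
    have h2 : π x = 0 := congrArg Prod.snd hx
    have h3 : P (D x) = ⟨D x, LinearMap.mem_range_self D x⟩ :=
      LinearMap.congr_fun hP ⟨D x, LinearMap.mem_range_self D x⟩
    have h4 : D x = 0 := congrArg Subtype.val (h3.symm.trans h1)
    have h5 : π x = ⟨x, h4⟩ := LinearMap.congr_fun hπ ⟨x, h4⟩
    exact congrArg Subtype.val (h5.symm.trans h2)
  let L := (LinearMap.linearEquivOfInjective _ hinj
    (by rw [Module.finrank_prod, hrk])).toContinuousLinearEquiv
  let P' := LinearMap.toContinuousLinearMap P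
  let π' := LinearMap.toContinuousLinearMap π
  let Φ : A → LinearMap.range D × LinearMap.ker D := fun z => (P' (f z), π' z)
  have hΦ : ∀ z ∈ U, HasFDerivAt Φ ((P'.comp (fderiv ℂ f z)).prod π') z := fun z hz =>
    (P'.hasFDerivAt.comp z ((hf z hz).differentiableAt one_ne_zero).hasFDerivAt).prodMk
      π'.hasFDerivAt
  obtain ⟨ψ, hψ, hev⟩ := SCV_section (Φ := Φ) (a := a) (L := L)
    ((P'.contDiff.contDiffAt.comp a (hf a ha)).prodMk π'.contDiff.contDiffAt) (hΦ a ha)
  let v : LinearMap.range D × LinearMap.ker D := (0, ⟨k, hk⟩)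
  have hv : v ≠ 0 := fun h => hk0 (congrArg (fun x => (x.2 : A)) h)
  have hc : Tendsto (fun t : ℂ => Φ a + t • v) (𝓝 0) (𝓝 (Φ a)) := by
    have : Continuous fun t : ℂ => Φ a + t • v := by fun_prop
    simpa using this.tendsto 0
  obtain ⟨r, hr, hb⟩ := Metric.eventually_nhds_iff_ball.1
    (hc.eventually (hev.and (hψ.eventually (hU.mem_nhds ha))))
  have hder : ∀ t ∈ Metric.ball (0 : ℂ) r, HasDerivAt (fun t : ℂ => f (ψ (Φ a + t • v))) 0 t := by
    intro t ht
    obtain ⟨⟨h1, h2⟩, h3⟩ := hb t ht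
    set y := Φ a + t • v
    have h4 : ((P'.comp (fderiv ℂ f (ψ y))).prod π').comp (fderiv ℂ ψ y) =
        ContinuousLinearMap.id ℂ _ :=
      ((hΦ _ h3).comp y h1.hasFDerivAt).unique ((hasFDerivAt_id y).congr_of_eventuallyEq h2)
    have h5 : ∀ u, P (fderiv ℂ f (ψ y) (fderiv ℂ ψ y u)) = u.1 := fun u =>
      congrArg Prod.fst (ContinuousLinearMap.ext_iff.1 h4 u)
    have h6 : LinearMap.range (P ∘ₗ (fderiv ℂ f (ψ y) : A →ₗ[ℂ] B)) = ⊤ :=
      LinearMap.range_eq_top.2 fun u => ⟨_, h5 (u, 0)⟩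
    have h7 := LinearMap.finrank_range_add_finrank_ker (P ∘ₗ (fderiv ℂ f (ψ y) : A →ₗ[ℂ] B))
    rw [h6, finrank_top] at h7
    have h8 : LinearMap.ker (fderiv ℂ f (ψ y) : A →ₗ[ℂ] B) =
        LinearMap.ker (P ∘ₗ (fderiv ℂ f (ψ y) : A →ₗ[ℂ] B)) :=
      Submodule.eq_of_le_of_finrank_le (LinearMap.ker_le_ker_comp _ _)
        (by have := hmin _ h3; omega)
    have h9 : fderiv ℂ f (ψ y) (fderiv ℂ ψ y v) = 0 := by
      have : fderiv ℂ ψ y v ∈ LinearMap.ker (fderiv ℂ f (ψ y) : A →ₗ[ℂ] B) := by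
        rw [h8]
        exact h5 v
      exact this
    have h10 : HasDerivAt (fun t : ℂ => Φ a + t • v) v t := by
      simpa using ((hasDerivAt_id t).smul_const v).const_add (Φ a)
    have h11 := ((((hf _ h3).differentiableAt one_ne_zero).hasFDerivAt.comp y
      h1.hasFDerivAt).comp_hasDerivAt t h10)
    rw [ContinuousLinearMap.comp_apply, h9] at h11
    exact h11
  have hconst : ∀ t ∈ Metric.ball (0 : ℂ) r, f (ψ (Φ a + t • v)) = f (ψ (Φ a + (0 : ℂ) • v)) :=
    fun t ht => Metric.isOpen_ball.is_const_of_deriv_eq_zero (convex_ball 0 r).isPreconnected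
      (fun s hs => (hder s hs).differentiableAt.differentiableWithinAt)
      (fun s hs => (hder s hs).deriv) ht (Metric.mem_ball_self hr)
  refine Set.infinite_of_injOn_mapsTo (f := fun t : ℂ => ψ (Φ a + t • v))
    (s := Metric.ball 0 r) (fun s hs t ht hst => ?_)
    (fun t ht => Set.mem_inter (hb t ht).2 (hconst t ht))
    (infinite_of_mem_nhds 0 (Metric.ball_mem_nhds 0 hr)) (hfin (f (ψ (Φ a + (0 : ℂ) • v))))
  have h1 := (hb s hs).1.2.self_of_nhds
  have h2 := (hb t ht).1.2.self_of_nhds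
  have h3 : Φ a + s • v = Φ a + t • v := h1.symm.trans ((congrArg Φ hst).trans h2)
  exact smul_left_injective ℂ hv (add_left_cancel h3)

/-- A holomorphic map whose Jacobian vanishes identically has infinite fibres. Take a point of
maximal rank `r < n`, complete `r` components to local coordinates by the inverse function theorem;
the map is constant along the last coordinate. -/
theorem exists_det_ne {f : E n → E n} {U : Set (E n)} (hU : IsOpen U) (hne : U.Nonempty)
    (hf : DifferentiableOn ℂ f U) (hfin : ∀ w, (U ∩ f ⁻¹' {w}).Finite) :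
    ∃ z ∈ U, (fderiv ℂ f z).det ≠ 0 := by
  obtain ⟨z, hz, h⟩ := SCV_inj hU hne (fun z hz =>
    ((DFbAux_osgood hU hf).contDiffAt (hU.mem_nhds hz)).of_le (by exact_mod_cast le_top)) hfin
  exact ⟨z, hz, fun h0 => LinearMap.det_eq_zero_iff_ker_ne_bot.1 h0 h⟩

/-- An entire function that is homogeneous of degree `i` is a form of degree `i`. -/
theorem poly_of_homog {f : E n → ℂ} (hf : Differentiable ℂ f) {i : ℤ}
    (h : ∀ (t : ℂ) (z : E n), t ≠ 0 → f (t • z) = t ^ i * f z) :
    ∃ g : MvPolynomial (Fin n) ℂ, (∀ z, f z = MvPolynomial.eval z g) ∧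
      (i < 0 → g = 0) ∧ g.IsHomogeneous i.toNat := by
  have hc : ∀ z : E n, Continuous fun t : ℂ => f (t • z) := fun z =>
    hf.continuous.comp (continuous_id.smul continuous_const)
  obtain ⟨d, rfl | rfl⟩ := Int.eq_nat_or_neg i
  · have hall : ∀ z : E n, (fun t : ℂ => f (t • z)) = fun t => t ^ d * f z := fun z =>
      Continuous.ext_on (dense_compl_singleton (0 : ℂ)) (hc z) (by fun_prop) fun t ht => by
        simpa only [zpow_natCast] using h t z ht
    have hs : ContDiff ℂ ∞ f := contDiffOn_univ.1 (DFbAux_osgood isOpen_univ hf.differentiableOn)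
    refine ⟨∑ r : Fin d → Fin n, MvPolynomial.C ((d.factorial : ℂ)⁻¹ *
      iteratedFDeriv ℂ d f 0 fun j => Pi.single (r j) 1) * ∏ j, MvPolynomial.X (r j),
      fun z => ?_, fun h0 => absurd h0 (by omega), ?_⟩
    · have h1 := (ContinuousLinearMap.toSpanSingleton ℂ z).iteratedFDeriv_comp_right hs 0
        (i := d) (by exact_mod_cast le_top)
      have h2 : iteratedDeriv d (fun t : ℂ => f (t • z)) 0 = iteratedFDeriv ℂ d f 0 fun _ => z := by
        rw [iteratedDeriv_eq_iteratedFDeriv]
        refine (congrArg (fun M => M fun _ => (1 : ℂ)) h1).trans ?_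
        simp
      rw [hall, iteratedDeriv_mul_const_field, iteratedDeriv_pow, Nat.sub_self, pow_zero, mul_one,
        Nat.descFactorial_self] at h2
      have h3 : (iteratedFDeriv ℂ d f 0 fun _ => z) = ∑ r : Fin d → Fin n,
          (∏ j, z (r j)) * iteratedFDeriv ℂ d f 0 fun j => Pi.single (r j) 1 := by
        conv_lhs => rw [pi_eq_sum_univ' z]
        rw [ContinuousMultilinearMap.map_sum]
        simp only [ContinuousMultilinearMap.map_smul_univ, smul_eq_mul]
      have h4 : (d.factorial : ℂ) ≠ 0 := Nat.cast_ne_zero.2 d.factorial_ne_zero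
      simp only [map_sum, map_mul, map_prod, MvPolynomial.eval_C, MvPolynomial.eval_X, mul_assoc,
        ← Finset.mul_sum]
      rw [eq_inv_mul_iff_mul_eq₀ h4, h2, h3]
      exact Finset.sum_congr rfl fun r _ => mul_comm _ _
    · refine MvPolynomial.IsHomogeneous.sum _ _ _ fun r _ => MvPolynomial.IsHomogeneous.C_mul ?_ _
      simpa using MvPolynomial.IsHomogeneous.prod Finset.univ
        (fun j : Fin d => (MvPolynomial.X (r j) : MvPolynomial (Fin n) ℂ)) (fun _ => 1)
        fun j _ => MvPolynomial.isHomogeneous_X ℂ (r j)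
  · have hall : ∀ z : E n, (fun t : ℂ => t ^ d * f (t • z)) = fun _ => f z := fun z =>
      Continuous.ext_on (dense_compl_singleton (0 : ℂ)) ((continuous_pow d).mul (hc z))
        continuous_const fun t ht => by
          have ht' : t ≠ 0 := ht
          simp only [h t z ht', zpow_neg, zpow_natCast]
          field_simp
    refine ⟨MvPolynomial.C ((0 : ℂ) ^ d * f 0), fun z => ?_, fun h0 => ?_, ?_⟩
    · simpa using (congrFun (hall z) 0).symm
    · rw [zero_pow (by omega), zero_mul, map_zero]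
    · rw [show (-(d : ℤ)).toNat = 0 by omega]
      exact MvPolynomial.isHomogeneous_C _ _

end

end Pool.Agent.MP_1c689d_ag.K0

end

section

/-! Extension across a point. -/

set_option autoImplicit false

open Complex Filter Topology Set MeasureTheory
open scoped ComplexConjugate ContDiff ENNReal

namespace Pool.Agent.MP_1c689d_ag.K0

noncomputable section

variable {n : ℕ}

theorem HART_two {W : Type} [NormedAddCommGroup W] [NormedSpace ℂ W] [CompleteSpace W]
    {i j : Fin n} (hij : j ≠ i) {f : E n → W} {a : E n} {R : ℝ} (hR : 0 < R)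
    (hs : ∀ w ∈ Metric.ball a R, w ≠ a → DifferentiableAt ℂ f w) :
    ∃ g : E n → W, (∀ w ∈ Metric.ball a (R / 2), DifferentiableAt ℂ g w) ∧
      ∀ w ∈ Metric.ball a (R / 2), w j ≠ a j → f w = g w := by
  have hρ : 0 < R / 2 := half_pos hR
  let A : E n → ℂ → E n := fun w ζ => w + (ζ - w i) • Pi.single i 1
  have hAi : ∀ w ζ, A w ζ i = ζ := fun w ζ => by simp [A]
  have hAj : ∀ w ζ, A w ζ j = w j := fun w ζ => by simp [A, Pi.single_eq_of_ne hij]
  have hA : ∀ w ∈ Metric.ball a (R / 2), ∀ ζ : ℂ, ‖ζ - a i‖ ≤ R / 2 →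
      A w ζ ∈ Metric.ball a R := fun w hw ζ hζ => by
    refine (dist_pi_lt_iff hR).2 fun l => ?_
    by_cases e : l = i
    · subst e
      rw [hAi, dist_eq_norm]
      linarith
    · simp only [A, Pi.add_apply, Pi.smul_apply, Pi.single_eq_of_ne e, smul_zero, add_zero]
      exact (dist_le_pi_dist w a l).trans_lt ((Metric.mem_ball.1 hw).trans (half_lt_self hR))
  have hw0 : ∀ w ∈ Metric.ball a (R / 2), ‖w i - a i‖ < R / 2 := fun w hw => by
    have := (dist_le_pi_dist w a i).trans_lt (Metric.mem_ball.1 hw)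
    rwa [dist_eq_norm] at this
  have hn : ∀ θ : ℝ, ‖circleMap (a i) (R / 2) θ - a i‖ = R / 2 := fun θ => by
    rw [circleMap_sub_center, norm_circleMap_zero, abs_of_pos hρ]
  have hne : ∀ w ∈ Metric.ball a (R / 2), ∀ θ : ℝ, circleMap (a i) (R / 2) θ - w i ≠ 0 :=
    fun w hw θ e => (hw0 w hw).ne (by rw [← sub_eq_zero.1 e, hn])
  have hd : ∀ w ∈ Metric.ball a (R / 2), ∀ θ : ℝ,
      DifferentiableAt ℂ f (A w (circleMap (a i) (R / 2) θ)) := fun w hw θ =>
    hs _ (hA w hw _ (hn θ).le) fun e => by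
      have h1 := hn θ
      rw [← hAi w (circleMap (a i) (R / 2) θ), e, sub_self, norm_zero] at h1
      exact hρ.ne h1
  refine ⟨fun w => Real.circleAverage
    (fun ζ => ((ζ - a i) / (ζ - w i)) • f (A w ζ)) (a i) (R / 2), fun x hx => ?_, fun w hw h => ?_⟩
  · refine DifferentiableAt.const_smul (SCVb_param (F := fun w θ =>
      ((circleMap (a i) (R / 2) θ - a i) / (circleMap (a i) (R / 2) θ - w i)) •
        f (A w (circleMap (a i) (R / 2) θ))) Metric.isOpen_ball
      ?_ (fun θ w hw => DifferentiableAt.differentiableWithinAt ?_) 0 (2 * Real.pi) hx) _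
    · refine ContinuousOn.smul (ContinuousOn.div (by fun_prop) (by fun_prop)
        fun p hp => hne _ hp.1 _) fun p hp => ?_
      exact (ContinuousAt.comp (g := f)
        (f := fun p : E n × ℝ => A p.1 (circleMap (a i) (R / 2) p.2))
        (hd _ hp.1 _).continuousAt (by fun_prop)).continuousWithinAt
    · have h1 : DifferentiableAt ℂ (fun w : E n => (circleMap (a i) (R / 2) θ - w i)⁻¹) w :=
        DifferentiableAt.inv (by fun_prop) (hne w hw θ)
      exact DifferentiableAt.smul (h1.const_mul (circleMap (a i) (R / 2) θ - a i))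
        ((hd w hw θ).comp w (f := fun w => A w (circleMap (a i) (R / 2) θ)) (by fun_prop))
  · have h1 : DifferentiableOn ℂ (fun ζ => f (A w ζ)) (Metric.closedBall (a i) |R / 2|) :=
      fun ζ hζ => ((hs _ (hA w hw ζ (by
        rwa [abs_of_pos hρ, mem_closedBall_iff_norm] at hζ)) fun e => h (by
        rw [← hAj w ζ, e])).comp ζ (f := A w) (by fun_prop)).differentiableWithinAt
    have h2 := (h1.diffContOnCl_ball subset_rfl).circleAverage_smul_div
      (w := w i) (by rw [mem_ball_iff_norm, abs_of_pos hρ]; exact hw0 w hw)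
    beta_reduce
    rw [h2]
    simp [A]

/-- Cauchy integral in the first variable over a fixed circle; it is holomorphic near the point,
agrees with `f` where the other coordinates differ from those of `a`, and the identity theorem
applies to the punctured polydisc. -/
theorem hartogs_point {W : Type} [NormedAddCommGroup W] [NormedSpace ℂ W] [CompleteSpace W]
    (hn : 2 ≤ n) {f : E n → W} {a : E n} (hf : ∀ᶠ z in 𝓝[≠] a, DifferentiableAt ℂ f z) :
    ∃ g : E n → W, (∀ᶠ z in 𝓝 a, DifferentiableAt ℂ g z) ∧ ∀ᶠ z in 𝓝[≠] a, f z = g z := by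
  obtain ⟨R, hR, hs⟩ := Metric.eventually_nhds_iff_ball.1 (eventually_nhdsWithin_iff.1 hf)
  let i : Fin n := ⟨0, by omega⟩
  let j : Fin n := ⟨1, by omega⟩
  have hij : j ≠ i := fun e => by simpa [i, j] using congrArg Fin.val e
  obtain ⟨g, h1, h2⟩ := HART_two hij hR hs
  have hB := Metric.ball_mem_nhds a (half_pos hR)
  refine ⟨g, mem_of_superset hB h1, ?_⟩
  filter_upwards [mem_nhdsWithin_of_mem_nhds hB, self_mem_nhdsWithin] with w hw hwa
  by_cases e : w j = a j
  · have h3 : Tendsto (fun t : ℂ => w + t • (Pi.single j 1 : E n)) (𝓝[≠] 0) (𝓝 w) :=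
      (Continuous.tendsto' (by fun_prop) 0 w (by simp)).mono_left nhdsWithin_le_nhds
    refine tendsto_nhds_unique_of_eventuallyEq
      ((hs w (Metric.ball_subset_ball (half_le_self hR.le) hw) hwa).continuousAt.tendsto.comp h3)
      ((h1 w hw).continuousAt.tendsto.comp h3) ?_
    filter_upwards [h3.eventually (Metric.isOpen_ball.mem_nhds hw), self_mem_nhdsWithin]
      with t h4 h5
    exact h2 _ h4 (by simpa [e] using h5)
  · exact h2 w hw e

theorem hartogs_finite {W : Type} [NormedAddCommGroup W] [NormedSpace ℂ W] [CompleteSpace W]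
    (hn : 2 ≤ n) {f : E n → W} {U : Set (E n)} (hU : IsOpen U) {Z : Set (E n)} (hZ : Z.Finite)
    (hf : DifferentiableOn ℂ f (U \ Z)) :
    ∃ g : E n → W, DifferentiableOn ℂ g U ∧ EqOn f g (U \ Z) := by
  classical
  have hO : IsOpen (U \ Z) := hU.sdiff hZ.isClosed
  have h1 : ∀ a ∈ U, ∀ᶠ z in 𝓝[≠] a, z ∈ U \ Z := fun a ha => by
    filter_upwards [mem_nhdsWithin_of_mem_nhds (hU.mem_nhds ha), self_mem_nhdsWithin,
      mem_nhdsWithin_of_mem_nhds ((hZ.subset (sdiff_subset (t := {a}))).isClosed.isOpen_compl.mem_nhds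
        (show a ∈ (Z \ {a})ᶜ from fun h => h.2 rfl))] with z h2 h3 h4
    exact ⟨h2, fun h => h4 ⟨h, h3⟩⟩
  have h2 : ∀ a ∈ U, ∃ g : E n → W, (∀ᶠ z in 𝓝 a, DifferentiableAt ℂ g z) ∧
      ∀ᶠ z in 𝓝[≠] a, f z = g z := fun a ha =>
    hartogs_point hn ((h1 a ha).mono fun z hz => hf.differentiableAt (hO.mem_nhds hz))
  choose! G h3 h4 using h2
  refine ⟨fun z => if z ∈ Z then G z z else f z, fun a ha => ?_, fun z hz => (if_neg hz.2).symm⟩
  refine DifferentiableAt.differentiableWithinAt ?_
  by_cases e : a ∈ Z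
  · refine (h3 a ha).self_of_nhds.congr_of_eventuallyEq ?_
    filter_upwards [eventually_nhdsWithin_iff.1 ((h1 a ha).and (h4 a ha))] with z hz
    by_cases e' : z = a
    · rw [e', if_pos e]
    · rw [if_neg (hz e').1.2, (hz e').2]
  · refine (hf.differentiableAt (hO.mem_nhds ⟨ha, e⟩)).congr_of_eventuallyEq ?_
    filter_upwards [hO.mem_nhds ⟨ha, e⟩] with z hz
    exact if_neg hz.2

end

end Pool.Agent.MP_1c689d_ag.K0

end
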