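import Pool.Agent.Mg.F1c689d.G9a22e1

set_option linter.all false


section

set_option autoImplicit false
set_option linter.unusedSimpArgs false

namespace Pool.Agent.MP_1c689d_ag.SX

open Pool.Agent.MP_1c689d_ag.FP

noncomputable section

open Polynomial

/-! Polynomial identities.  All of them follow by unfolding the definitions and `ring` (they were
checked numerically).  If one is slow, derive it from the smaller ones by `linear_combination`. -/

variable {R : Type} [CommRing R]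

section General
variable (a b c d f g p : V R)

theorem br_cyc : br a b c = br b c a := by
  simp only [ML, br, ev, cr]
  ring

theorem br_swap : br b a c = -br a b c := by
  simp only [ML, br, ev, cr]
  ring

theorem br_swap' : br a c b = -br a b c := by
  simp only [ML, br, ev, cr]
  ring

theorem br_self₁ : br a a b = 0 := by
  simp only [ML, br, ev, cr]
  ring

theorem br_self₂ : br a b a = 0 := by
  simp only [ML, br, ev, cr]
  ring

theorem ev_cr : ev c (cr a b) = br c a b := by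
  simp only [ML, br, ev, cr]
  ring

theorem cramer :
    br b c d * ev a p - br a c d * ev b p + br a b d * ev c p - br a b c * ev d p = 0 := by
  simp only [ML, br, ev, cr]
  ring

theorem ML_anti : ML c d a b p = -ML a b c d p := by
  simp only [ML, br, ev, cr]
  ring

theorem ML_swap : ML a b d c p = -ML a b c d p := by
  simp only [ML, br, ev, cr]
  ring

theorem ML_beta : ML a b c d p = br d a b * ev c p - br c a b * ev d p := by
  simp only [ML, br, ev, cr]
  ring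

theorem ML_three :
    ML a b d f p * ev c p + ML a b f c p * ev d p + ML a b c d p * ev f p = 0 := by
  simp only [ML, br, ev, cr]
  ring

/-- a vector killed by three independent forms vanishes -/
theorem br_mul_x : br a b c * p.x =
    ev a p * (cr b c).x + ev b p * (cr c a).x + ev c p * (cr a b).x := by
  simp only [ML, br, ev, cr]
  ring

theorem br_mul_y : br a b c * p.y =
    ev a p * (cr b c).y + ev b p * (cr c a).y + ev c p * (cr a b).y := by
  simp only [ML, br, ev, cr]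
  ring

theorem br_mul_z : br a b c * p.z =
    ev a p * (cr b c).z + ev b p * (cr c a).z + ev c p * (cr a b).z := by
  simp only [ML, br, ev, cr]
  ring

theorem Id1_ev (e : V R) : ev e (JV a b c d f g p) =
    JN a b c d f g p * ev e p + Jt a b c d f g p * br e a b := by
  simp only [JV, ev, cr, br]
  ring

theorem ev_JV : ev d (JV a b c d f g p) = ev c p * (ML a b d f p * ML a b d g p) ∧
    ev c (JV a b c d f g p) = ev d p * (ML a b c f p * ML a b c g p) ∧
    ev f (JV a b c d f g p) = -(ev g p * (ML a b c f p * ML a b d f p)) ∧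
    ev g (JV a b c d f g p) = -(ev f p * (ML a b c g p * ML a b d g p)) := by
  simp only [Id1_ev, ML_beta, JN, Jt]
  refine ⟨?_, ?_, ?_, ?_⟩ <;> ring

theorem ev_JV_a : ev a (JV a b c d f g p) = JN a b c d f g p * ev a p := by
  rw [Id1_ev, br_self₁, mul_zero, add_zero]

theorem ev_JV_b : ev b (JV a b c d f g p) = JN a b c d f g p * ev b p := by
  rw [Id1_ev, br_self₂, mul_zero, add_zero]

theorem ML_JV (i j : V R) : ML a b i j (JV a b c d f g p) = JN a b c d f g p * ML a b i j p := by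
  rw [ML, ev_JV_a, ev_JV_b, ML]
  ring

end General

variable (m : Fin 6 → V R) (p : V R)

theorem Q35_eq : Q35 m p = MM m p - w35 m * (ev (m 0) p * ev (m 1) p) := by
  simp only [Q35, Q36, MM, A5, A6, q0, d5, d6, w35, w36, w45, w46, wmu, kap, ML, br, ev]
  ring

theorem Q36_eq : Q36 m p = MM m p - w36 m * (ev (m 0) p * ev (m 1) p) := by
  simp only [Q35, Q36, MM, A5, A6, q0, d5, d6, w35, w36, w45, w46, wmu, kap, ML, br, ev]
  ring

theorem mu_eq : ML (m 0) (m 2) (m 1) (m 5) p * ML (m 0) (m 3) (m 1) (m 4) p =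
    MM m p - wmu m * (ev (m 0) p * ev (m 1) p) := by
  simp only [Q35, Q36, MM, A5, A6, q0, d5, d6, w35, w36, w45, w46, wmu, kap, ML, br, ev]
  ring

theorem AQ_eq : A5 m p * Q36 m p - A6 m p * Q35 m p = -(ev (m 1) p * ev (m 2) p * q0 m p) := by
  simp only [Q35, Q36, q0]
  ring

theorem Id1_q45 : MM m p - w45 m * (ev (m 0) p * ev (m 1) p) =
    br (m 0) (m 1) (m 2) * ev (m 4) p * ML (m 0) (m 3) (m 1) (m 5) p +
      br (m 0) (m 1) (m 5) * br (m 0) (m 2) (m 4) * (ev (m 1) p * ev (m 3) p) := by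
  simp only [MM, w45, ML, br, ev]
  ring

theorem Id1_q46 : MM m p - w46 m * (ev (m 0) p * ev (m 1) p) =
    br (m 0) (m 1) (m 2) * ev (m 5) p * ML (m 0) (m 3) (m 1) (m 4) p +
      br (m 0) (m 1) (m 4) * br (m 0) (m 2) (m 5) * (ev (m 1) p * ev (m 3) p) := by
  simp only [MM, w46, ML, br, ev]
  ring

theorem Id1_pl (a b c d f p : V R) : br a d f * ML a c b f p - br a c f * ML a d b f p =
    br a b f * br a d c * ev f p := by
  simp only [ML, br, ev]
  ring

theorem I4_eq :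
    (MM m p - w46 m * (ev (m 0) p * ev (m 1) p)) * ML (m 0) (m 3) (m 1) (m 5) p * ev (m 4) p -
      (MM m p - w45 m * (ev (m 0) p * ev (m 1) p)) * ML (m 0) (m 3) (m 1) (m 4) p * ev (m 5) p =
      -(ev (m 1) p * ev (m 3) p * q0 m p) := by
  rw [Id1_q45, Id1_q46]
  simp only [q0, d5, d6, A5, A6]
  linear_combination (ev (m 1) p * ev (m 3) p * br (m 0) (m 1) (m 5) * ev (m 5) p) *
      Id1_pl (m 0) (m 1) (m 2) (m 3) (m 4) p -
    (ev (m 1) p * ev (m 3) p * br (m 0) (m 1) (m 4) * ev (m 4) p) *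
      Id1_pl (m 0) (m 1) (m 2) (m 3) (m 5) p

/-- the relation behind `∑ xs = 0` -/
theorem w_sum : w45 m + w36 m + wmu m + kap m = w46 m + w35 m := by
  simp only [Q35, Q36, MM, A5, A6, q0, d5, d6, w35, w36, w45, w46, wmu, kap, ML, br, ev]
  ring

end

end Pool.Agent.MP_1c689d_ag.SX

end

section

set_option autoImplicit false

namespace Pool.Agent.MP_1c689d_ag.SX

open Pool.Agent.MP_1c689d_ag.FP

noncomputable section

open Polynomial

/-! The cubic identities behind the involutions attached to `g4` and `g5` (checked numerically).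
Rewrite the values of the six linear forms at `JV …` by `ev_JV`, `ev_JV_a`, `ev_JV_b`, `ML_JV`
first; what remains is an identity of degree three in the point, proved by unfolding and `ring`. -/

variable {R : Type} [CommRing R] (m : Fin 6 → V R) (p : V R)

/-! Straightening relations between brackets. -/

theorem Id2_r_b014_b023 :
    br (m 0) (m 1) (m 4) * br (m 0) (m 2) (m 3) - br (m 0) (m 1) (m 3) * br (m 0) (m 2) (m 4) +
    br (m 0) (m 1) (m 2) * br (m 0) (m 3) (m 4) = 0 := by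
  simp only [br]; ring

theorem Id2_r_b015_b024 :
    br (m 0) (m 1) (m 5) * br (m 0) (m 2) (m 4) - br (m 0) (m 1) (m 4) * br (m 0) (m 2) (m 5) +
    br (m 0) (m 1) (m 2) * br (m 0) (m 4) (m 5) = 0 := by
  simp only [br]; ring

theorem Id2_r_b015_b034 :
    br (m 0) (m 1) (m 5) * br (m 0) (m 3) (m 4) - br (m 0) (m 1) (m 4) * br (m 0) (m 3) (m 5) +
    br (m 0) (m 1) (m 3) * br (m 0) (m 4) (m 5) = 0 := by
  simp only [br]; ring

theorem Id2_r_b015_b124 :
    br (m 0) (m 1) (m 5) * br (m 1) (m 2) (m 4) - br (m 0) (m 1) (m 4) * br (m 1) (m 2) (m 5) +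
    br (m 0) (m 1) (m 2) * br (m 1) (m 4) (m 5) = 0 := by
  simp only [br]; ring

theorem Id2_r_b025_b034 :
    br (m 0) (m 2) (m 5) * br (m 0) (m 3) (m 4) - br (m 0) (m 2) (m 4) * br (m 0) (m 3) (m 5) +
    br (m 0) (m 2) (m 3) * br (m 0) (m 4) (m 5) = 0 := by
  simp only [br]; ring

theorem Id2_r_b025_b134 :
    br (m 0) (m 2) (m 5) * br (m 1) (m 3) (m 4) - br (m 0) (m 2) (m 4) * br (m 1) (m 3) (m 5) +
    br (m 0) (m 2) (m 3) * br (m 1) (m 4) (m 5) + br (m 0) (m 1) (m 2) * br (m 3) (m 4) (m 5) = 0 := by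
  simp only [br]; ring

theorem Id2_r_b034_b124 :
    br (m 0) (m 3) (m 4) * br (m 1) (m 2) (m 4) - br (m 0) (m 2) (m 4) * br (m 1) (m 3) (m 4) +
    br (m 0) (m 1) (m 4) * br (m 2) (m 3) (m 4) = 0 := by
  simp only [br]; ring

theorem Id2_r_b034_b125 :
    br (m 0) (m 3) (m 4) * br (m 1) (m 2) (m 5) - br (m 0) (m 2) (m 4) * br (m 1) (m 3) (m 5) +
    br (m 0) (m 2) (m 3) * br (m 1) (m 4) (m 5) + br (m 0) (m 1) (m 4) * br (m 2) (m 3) (m 5) -
    br (m 0) (m 1) (m 3) * br (m 2) (m 4) (m 5) + br (m 0) (m 1) (m 2) * br (m 3) (m 4) (m 5) = 0 := by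
  simp only [br]; ring

theorem Id2_r_b035_b124 :
    br (m 0) (m 3) (m 5) * br (m 1) (m 2) (m 4) - br (m 0) (m 2) (m 4) * br (m 1) (m 3) (m 5) +
    br (m 0) (m 1) (m 4) * br (m 2) (m 3) (m 5) + br (m 0) (m 1) (m 2) * br (m 3) (m 4) (m 5) = 0 := by
  simp only [br]; ring

theorem Id2_r_b035_b125 :
    br (m 0) (m 3) (m 5) * br (m 1) (m 2) (m 5) - br (m 0) (m 2) (m 5) * br (m 1) (m 3) (m 5) +
    br (m 0) (m 1) (m 5) * br (m 2) (m 3) (m 5) = 0 := by
  simp only [br]; ring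

theorem Id2_r_b035_b134 :
    br (m 0) (m 3) (m 5) * br (m 1) (m 3) (m 4) - br (m 0) (m 3) (m 4) * br (m 1) (m 3) (m 5) +
    br (m 0) (m 1) (m 3) * br (m 3) (m 4) (m 5) = 0 := by
  simp only [br]; ring

theorem Id2_r_b035_b234 :
    br (m 0) (m 3) (m 5) * br (m 2) (m 3) (m 4) - br (m 0) (m 3) (m 4) * br (m 2) (m 3) (m 5) +
    br (m 0) (m 2) (m 3) * br (m 3) (m 4) (m 5) = 0 := by
  simp only [br]; ring

theorem Id2_r_b045_b124 :
    br (m 0) (m 4) (m 5) * br (m 1) (m 2) (m 4) - br (m 0) (m 2) (m 4) * br (m 1) (m 4) (m 5) +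
    br (m 0) (m 1) (m 4) * br (m 2) (m 4) (m 5) = 0 := by
  simp only [br]; ring

theorem Id2_r_b045_b125 :
    br (m 0) (m 4) (m 5) * br (m 1) (m 2) (m 5) - br (m 0) (m 2) (m 5) * br (m 1) (m 4) (m 5) +
    br (m 0) (m 1) (m 5) * br (m 2) (m 4) (m 5) = 0 := by
  simp only [br]; ring

theorem Id2_r_b045_b134 :
    br (m 0) (m 4) (m 5) * br (m 1) (m 3) (m 4) - br (m 0) (m 3) (m 4) * br (m 1) (m 4) (m 5) +
    br (m 0) (m 1) (m 4) * br (m 3) (m 4) (m 5) = 0 := by
  simp only [br]; ring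

theorem Id2_r_b045_b234 :
    br (m 0) (m 4) (m 5) * br (m 2) (m 3) (m 4) - br (m 0) (m 3) (m 4) * br (m 2) (m 4) (m 5) +
    br (m 0) (m 2) (m 4) * br (m 3) (m 4) (m 5) = 0 := by
  simp only [br]; ring

theorem Id2_r_l0_b124 :
    ev (m 0) p * br (m 1) (m 2) (m 4) - br (m 0) (m 2) (m 4) * ev (m 1) p +
    br (m 0) (m 1) (m 4) * ev (m 2) p - br (m 0) (m 1) (m 2) * ev (m 4) p = 0 := by
  simp only [br, ev]; ring

theorem Id2_r_l0_b125 :
    ev (m 0) p * br (m 1) (m 2) (m 5) - br (m 0) (m 2) (m 5) * ev (m 1) p +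
    br (m 0) (m 1) (m 5) * ev (m 2) p - br (m 0) (m 1) (m 2) * ev (m 5) p = 0 := by
  simp only [br, ev]; ring

theorem Id2_r_l0_b134 :
    ev (m 0) p * br (m 1) (m 3) (m 4) - br (m 0) (m 3) (m 4) * ev (m 1) p +
    br (m 0) (m 1) (m 4) * ev (m 3) p - br (m 0) (m 1) (m 3) * ev (m 4) p = 0 := by
  simp only [br, ev]; ring

theorem Id2_r_l0_b135 :
    ev (m 0) p * br (m 1) (m 3) (m 5) - br (m 0) (m 3) (m 5) * ev (m 1) p +
    br (m 0) (m 1) (m 5) * ev (m 3) p - br (m 0) (m 1) (m 3) * ev (m 5) p = 0 := by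
  simp only [br, ev]; ring

theorem Id2_r_l0_b145 :
    ev (m 0) p * br (m 1) (m 4) (m 5) - br (m 0) (m 4) (m 5) * ev (m 1) p +
    br (m 0) (m 1) (m 5) * ev (m 4) p - br (m 0) (m 1) (m 4) * ev (m 5) p = 0 := by
  simp only [br, ev]; ring

theorem Id2_r_l0_b234 :
    ev (m 0) p * br (m 2) (m 3) (m 4) - br (m 0) (m 3) (m 4) * ev (m 2) p +
    br (m 0) (m 2) (m 4) * ev (m 3) p - br (m 0) (m 2) (m 3) * ev (m 4) p = 0 := by
  simp only [br, ev]; ring

theorem Id2_r_l0_b235 :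
    ev (m 0) p * br (m 2) (m 3) (m 5) - br (m 0) (m 3) (m 5) * ev (m 2) p +
    br (m 0) (m 2) (m 5) * ev (m 3) p - br (m 0) (m 2) (m 3) * ev (m 5) p = 0 := by
  simp only [br, ev]; ring

theorem Id2_r_l0_b245 :
    ev (m 0) p * br (m 2) (m 4) (m 5) - br (m 0) (m 4) (m 5) * ev (m 2) p +
    br (m 0) (m 2) (m 5) * ev (m 4) p - br (m 0) (m 2) (m 4) * ev (m 5) p = 0 := by
  simp only [br, ev]; ring

theorem Id2_r_l0_b345 :
    ev (m 0) p * br (m 3) (m 4) (m 5) - br (m 0) (m 4) (m 5) * ev (m 3) p +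
    br (m 0) (m 3) (m 5) * ev (m 4) p - br (m 0) (m 3) (m 4) * ev (m 5) p = 0 := by
  simp only [br, ev]; ring

theorem Id2_s041 : br (m 0) (m 4) (m 1) = -br (m 0) (m 1) (m 4) := by
  simp only [br]; ring

theorem Id2_s043 : br (m 0) (m 4) (m 3) = -br (m 0) (m 3) (m 4) := by
  simp only [br]; ring

theorem Id2_s051 : br (m 0) (m 5) (m 1) = -br (m 0) (m 1) (m 5) := by
  simp only [br]; ring

theorem Id2_s053 : br (m 0) (m 5) (m 3) = -br (m 0) (m 3) (m 5) := by
  simp only [br]; ring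

theorem Id2_s102 : br (m 1) (m 0) (m 2) = -br (m 0) (m 1) (m 2) := by
  simp only [br]; ring

theorem Id2_s213 : br (m 2) (m 1) (m 3) = -br (m 1) (m 2) (m 3) := by
  simp only [br]; ring

theorem Id2_s214 : br (m 2) (m 1) (m 4) = -br (m 1) (m 2) (m 4) := by
  simp only [br]; ring

theorem Id2_s215 : br (m 2) (m 1) (m 5) = -br (m 1) (m 2) (m 5) := by
  simp only [br]; ring

theorem Id2_s302 : br (m 3) (m 0) (m 2) = br (m 0) (m 2) (m 3) := by
  simp only [br]; ring

theorem Id2_s315 : br (m 3) (m 1) (m 5) = -br (m 1) (m 3) (m 5) := by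
  simp only [br]; ring

theorem Id2_s402 : br (m 4) (m 0) (m 2) = br (m 0) (m 2) (m 4) := by
  simp only [br]; ring

theorem Id2_s425 : br (m 4) (m 2) (m 5) = -br (m 2) (m 4) (m 5) := by
  simp only [br]; ring

theorem Id2_s502 : br (m 5) (m 0) (m 2) = br (m 0) (m 2) (m 5) := by
  simp only [br]; ring

theorem key4 : ML (m 0) (m 1) (m 3) (m 4) (JV (m 0) (m 2) (m 1) (m 3) (m 4) (m 5) p) =
    ML (m 0) (m 2) (m 3) (m 4) p * (MM m p - w46 m * (ev (m 0) p * ev (m 1) p)) := by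
  rw [ML, (ev_JV (m 0) (m 2) (m 1) (m 3) (m 4) (m 5) p).2.1, ev_JV_a]
  simp only [JN, MM, w46, ML,
    Id2_s102 m, Id2_s214 m, Id2_s215 m, Id2_s302 m, Id2_s315 m, Id2_s402 m, Id2_s502 m]
  linear_combination
    (br (m 0) (m 4) (m 5) * ev (m 1) p * ev (m 2) p * ev (m 3) p +
    br (m 0) (m 3) (m 4) * ev (m 1) p * ev (m 2) p * ev (m 5) p -
    br (m 0) (m 1) (m 4) * ev (m 2) p * ev (m 3) p * ev (m 5) p +
    br (m 0) (m 1) (m 3) * ev (m 2) p * ev (m 4) p * ev (m 5) p) * Id2_r_b014_b023 m +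
    (-ev (m 0) p * br (m 1) (m 3) (m 4) * ev (m 2) p * ev (m 3) p -
    br (m 0) (m 1) (m 4) * ev (m 2) p * ev (m 3) p * ev (m 3) p +
    br (m 0) (m 1) (m 3) * ev (m 2) p * ev (m 3) p * ev (m 4) p) * Id2_r_b015_b024 m +
    (br (m 0) (m 1) (m 4) * ev (m 2) p * ev (m 2) p * ev (m 3) p -
    br (m 0) (m 1) (m 2) * ev (m 2) p * ev (m 3) p * ev (m 4) p) * Id2_r_b015_b034 m +
    (ev (m 0) p * ev (m 0) p * br (m 2) (m 3) (m 4) * ev (m 3) p) * Id2_r_b015_b124 m +
    (-br (m 0) (m 1) (m 4) * ev (m 1) p * ev (m 2) p * ev (m 3) p) * Id2_r_b025_b034 m +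
    (-br (m 0) (m 1) (m 4) * ev (m 0) p * ev (m 2) p * ev (m 3) p) * Id2_r_b025_b134 m +
    (-ev (m 0) p * ev (m 0) p * br (m 1) (m 3) (m 5) * ev (m 2) p +
    ev (m 0) p * ev (m 0) p * br (m 1) (m 2) (m 5) * ev (m 3) p +
    br (m 0) (m 3) (m 5) * ev (m 0) p * ev (m 1) p * ev (m 2) p) * Id2_r_b034_b124 m +
    (br (m 0) (m 1) (m 4) * ev (m 0) p * ev (m 2) p * ev (m 3) p) * Id2_r_b034_b125 m +
    (-ev (m 0) p * ev (m 0) p * ev (m 1) p * br (m 2) (m 3) (m 4)) * Id2_r_b035_b124 m +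
    (br (m 0) (m 2) (m 4) * ev (m 0) p * ev (m 1) p * ev (m 2) p) * Id2_r_b035_b134 m +
    (br (m 0) (m 1) (m 2) * ev (m 0) p * ev (m 1) p * ev (m 4) p) * Id2_r_b035_b234 m +
    (br (m 0) (m 1) (m 2) * ev (m 0) p * ev (m 2) p * ev (m 3) p) * Id2_r_b045_b134 m +
    (-br (m 0) (m 1) (m 2) * ev (m 0) p * ev (m 1) p * ev (m 3) p) * Id2_r_b045_b234 m +
    (ev (m 0) p * ev (m 0) p * br (m 1) (m 3) (m 5) * br (m 2) (m 3) (m 4)) * Id2_r_l0_b124 m p +
    (br (m 0) (m 2) (m 4) * ev (m 0) p * br (m 1) (m 3) (m 4) * ev (m 3) p) * Id2_r_l0_b125 m p +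
    (-br (m 0) (m 2) (m 4) * ev (m 0) p * br (m 1) (m 3) (m 5) * ev (m 2) p +
    br (m 0) (m 1) (m 2) * br (m 0) (m 2) (m 4) * ev (m 3) p * ev (m 5) p -
    br (m 0) (m 1) (m 2) * br (m 0) (m 2) (m 3) * ev (m 4) p * ev (m 5) p) * Id2_r_l0_b134 m p +
    (br (m 0) (m 1) (m 4) * ev (m 0) p * br (m 2) (m 3) (m 4) * ev (m 2) p -
    br (m 0) (m 1) (m 4) * br (m 0) (m 3) (m 4) * ev (m 2) p * ev (m 2) p +
    br (m 0) (m 1) (m 4) * br (m 0) (m 2) (m 4) * ev (m 2) p * ev (m 3) p -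
    br (m 0) (m 1) (m 3) * br (m 0) (m 2) (m 4) * ev (m 2) p * ev (m 4) p +
    br (m 0) (m 1) (m 2) * ev (m 0) p * br (m 2) (m 3) (m 4) * ev (m 4) p) * Id2_r_l0_b135 m p +
    (-br (m 0) (m 1) (m 2) * ev (m 0) p * br (m 2) (m 3) (m 4) * ev (m 3) p +
    br (m 0) (m 1) (m 2) * br (m 0) (m 3) (m 4) * ev (m 2) p * ev (m 3) p) * Id2_r_l0_b145 m p +
    (br (m 0) (m 1) (m 3) * br (m 0) (m 1) (m 4) * ev (m 2) p * ev (m 5) p +
    br (m 0) (m 1) (m 2) * ev (m 0) p * ev (m 1) p * br (m 3) (m 4) (m 5) -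
    br (m 0) (m 1) (m 2) * br (m 0) (m 1) (m 4) * ev (m 3) p * ev (m 5) p +
    br (m 0) (m 1) (m 2) * br (m 0) (m 1) (m 3) * ev (m 4) p * ev (m 5) p) * Id2_r_l0_b234 m p +
    (br (m 0) (m 1) (m 4) * br (m 0) (m 3) (m 4) * ev (m 1) p * ev (m 2) p -
    br (m 0) (m 1) (m 4) * br (m 0) (m 1) (m 4) * ev (m 2) p * ev (m 3) p +
    br (m 0) (m 1) (m 2) * br (m 0) (m 3) (m 4) * ev (m 1) p * ev (m 4) p) * Id2_r_l0_b235 m p +
    (br (m 0) (m 1) (m 3) * br (m 0) (m 1) (m 4) * ev (m 2) p * ev (m 3) p -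
    br (m 0) (m 1) (m 2) * br (m 0) (m 3) (m 4) * ev (m 1) p * ev (m 3) p) * Id2_r_l0_b245 m p +
    (-br (m 0) (m 1) (m 3) * br (m 0) (m 2) (m 4) * ev (m 1) p * ev (m 2) p +
    br (m 0) (m 1) (m 2) * br (m 0) (m 3) (m 4) * ev (m 1) p * ev (m 2) p -
    br (m 0) (m 1) (m 2) * br (m 0) (m 1) (m 4) * ev (m 2) p * ev (m 3) p) * Id2_r_l0_b345 m p

theorem key5a : br (m 0) (m 4) (m 5) * ML (m 0) (m 2) (m 1) (m 3) p * A5 m p +
    d5 (m ∘ g5) * (ev (m 1) p * ev (m 2) p) * ML (m 0) (m 2) (m 4) (m 5) p = -Cb5 m p := by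
  simp only [A5, A6, d5, d6, Cb5, q0, kap, ML, Function.comp_apply, g5_0, g5_1, g5_2, g5_3, g5_4, g5_5,
    Id2_s043 m, Id2_s051 m, Id2_s213 m, Id2_s214 m, Id2_s215 m]
  linear_combination
    (br (m 0) (m 1) (m 5) * ev (m 2) p * ev (m 4) p * ev (m 5) p -
    br (m 0) (m 1) (m 4) * ev (m 2) p * ev (m 5) p * ev (m 5) p) * Id2_r_b014_b023 m +
    (-br (m 0) (m 1) (m 4) * ev (m 2) p * ev (m 3) p * ev (m 5) p +
    br (m 0) (m 1) (m 3) * ev (m 2) p * ev (m 4) p * ev (m 5) p) * Id2_r_b015_b024 m +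
    (-ev (m 0) p * ev (m 1) p * br (m 2) (m 4) (m 5) * ev (m 2) p +
    ev (m 0) p * br (m 1) (m 2) (m 4) * ev (m 2) p * ev (m 5) p +
    br (m 0) (m 4) (m 5) * ev (m 1) p * ev (m 2) p * ev (m 2) p +
    br (m 0) (m 1) (m 4) * ev (m 2) p * ev (m 2) p * ev (m 5) p -
    br (m 0) (m 1) (m 2) * ev (m 2) p * ev (m 4) p * ev (m 5) p) * Id2_r_b015_b034 m +
    (br (m 0) (m 1) (m 4) * ev (m 0) p * ev (m 2) p * ev (m 5) p) * Id2_r_b035_b124 m +
    (-br (m 0) (m 1) (m 4) * ev (m 0) p * ev (m 2) p * ev (m 4) p) * Id2_r_b035_b125 m +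
    (-br (m 0) (m 1) (m 3) * ev (m 0) p * ev (m 2) p * ev (m 5) p) * Id2_r_b045_b124 m +
    (br (m 0) (m 1) (m 3) * ev (m 0) p * ev (m 2) p * ev (m 4) p) * Id2_r_b045_b125 m +
    (-br (m 0) (m 1) (m 4) * br (m 0) (m 2) (m 5) * ev (m 2) p * ev (m 4) p +
    br (m 0) (m 1) (m 4) * br (m 0) (m 2) (m 4) * ev (m 2) p * ev (m 5) p) * Id2_r_l0_b135 m p +
    (br (m 0) (m 1) (m 3) * br (m 0) (m 2) (m 5) * ev (m 2) p * ev (m 4) p -
    br (m 0) (m 1) (m 3) * br (m 0) (m 2) (m 4) * ev (m 2) p * ev (m 5) p) * Id2_r_l0_b145 m p +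
    (br (m 0) (m 1) (m 4) * br (m 0) (m 1) (m 5) * ev (m 2) p * ev (m 4) p -
    br (m 0) (m 1) (m 4) * br (m 0) (m 1) (m 4) * ev (m 2) p * ev (m 5) p) * Id2_r_l0_b235 m p +
    (-br (m 0) (m 1) (m 4) * br (m 0) (m 3) (m 5) * ev (m 1) p * ev (m 2) p +
    br (m 0) (m 1) (m 3) * br (m 0) (m 4) (m 5) * ev (m 1) p * ev (m 2) p -
    br (m 0) (m 1) (m 3) * br (m 0) (m 1) (m 5) * ev (m 2) p * ev (m 4) p +
    br (m 0) (m 1) (m 3) * br (m 0) (m 1) (m 4) * ev (m 2) p * ev (m 5) p) * Id2_r_l0_b245 m p +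
    (-br (m 0) (m 1) (m 2) * br (m 0) (m 1) (m 4) * ev (m 2) p * ev (m 5) p) * Id2_r_l0_b345 m p

theorem key5b : br (m 0) (m 4) (m 5) * ML (m 0) (m 2) (m 1) (m 3) p * A6 m p +
    d6 (m ∘ g5) * (ev (m 1) p * ev (m 2) p) * ML (m 0) (m 2) (m 4) (m 5) p = -Cb6 m p := by
  simp only [A5, A6, d5, d6, Cb6, q0, kap, ML, Function.comp_apply, g5_0, g5_1, g5_2, g5_3, g5_4, g5_5,
    Id2_s041 m, Id2_s053 m, Id2_s213 m, Id2_s214 m, Id2_s215 m]
  linear_combination
    (br (m 0) (m 1) (m 5) * ev (m 2) p * ev (m 4) p * ev (m 5) p -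
    br (m 0) (m 1) (m 4) * ev (m 2) p * ev (m 5) p * ev (m 5) p) * Id2_r_b014_b023 m +
    (-br (m 0) (m 1) (m 4) * ev (m 2) p * ev (m 3) p * ev (m 5) p +
    br (m 0) (m 1) (m 3) * ev (m 2) p * ev (m 4) p * ev (m 5) p) * Id2_r_b015_b024 m +
    (ev (m 0) p * br (m 1) (m 2) (m 4) * ev (m 2) p * ev (m 5) p +
    br (m 0) (m 1) (m 4) * ev (m 2) p * ev (m 2) p * ev (m 5) p -
    br (m 0) (m 1) (m 2) * ev (m 2) p * ev (m 4) p * ev (m 5) p) * Id2_r_b015_b034 m +
    (br (m 0) (m 1) (m 4) * ev (m 0) p * ev (m 2) p * ev (m 5) p) * Id2_r_b035_b124 m +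
    (-br (m 0) (m 1) (m 4) * ev (m 0) p * ev (m 2) p * ev (m 4) p) * Id2_r_b035_b125 m +
    (-br (m 0) (m 1) (m 4) * br (m 0) (m 2) (m 5) * ev (m 2) p * ev (m 4) p +
    br (m 0) (m 1) (m 4) * br (m 0) (m 2) (m 4) * ev (m 2) p * ev (m 5) p) * Id2_r_l0_b135 m p +
    (br (m 0) (m 1) (m 4) * br (m 0) (m 1) (m 5) * ev (m 2) p * ev (m 4) p -
    br (m 0) (m 1) (m 4) * br (m 0) (m 1) (m 4) * ev (m 2) p * ev (m 5) p) * Id2_r_l0_b235 m p +
    (-br (m 0) (m 1) (m 4) * br (m 0) (m 3) (m 5) * ev (m 1) p * ev (m 2) p) * Id2_r_l0_b245 m p +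
    (-br (m 0) (m 1) (m 2) * br (m 0) (m 1) (m 4) * ev (m 2) p * ev (m 5) p) * Id2_r_l0_b345 m p

theorem key5c : d5 (m ∘ g5) * A6 m p - d6 (m ∘ g5) * A5 m p = q0 m p := by
  simp only [d5, d6, q0, Function.comp_apply, g5_0, g5_1, g5_2, g5_3, g5_4, g5_5,
    Id2_s043 m, Id2_s053 m, Id2_s041 m, Id2_s051 m]
  ring

theorem key5d : -(ev (m 2) p * q0 m p) - kap (m ∘ g5) * ev (m 0) p * A6 m p =
    ML (m 0) (m 2) (m 4) (m 5) p * Q36 m p := by
  simp only [A5, A6, d5, d6, Q36, q0, kap, ML, Function.comp_apply, g5_0, g5_1, g5_2, g5_3, g5_4, g5_5,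
    Id2_s214 m, Id2_s215 m, Id2_s425 m]
  linear_combination
    (-br (m 0) (m 1) (m 5) * ev (m 2) p * ev (m 4) p * ev (m 5) p +
    br (m 0) (m 1) (m 4) * ev (m 2) p * ev (m 5) p * ev (m 5) p) * Id2_r_b014_b023 m +
    (br (m 0) (m 1) (m 4) * ev (m 2) p * ev (m 3) p * ev (m 5) p -
    br (m 0) (m 1) (m 3) * ev (m 2) p * ev (m 4) p * ev (m 5) p) * Id2_r_b015_b024 m +
    (-ev (m 0) p * br (m 1) (m 2) (m 4) * ev (m 2) p * ev (m 5) p -
    br (m 0) (m 1) (m 4) * ev (m 2) p * ev (m 2) p * ev (m 5) p +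
    br (m 0) (m 1) (m 2) * ev (m 2) p * ev (m 4) p * ev (m 5) p) * Id2_r_b015_b034 m +
    (-br (m 0) (m 1) (m 4) * ev (m 0) p * ev (m 2) p * ev (m 5) p) * Id2_r_b035_b124 m +
    (br (m 0) (m 1) (m 4) * ev (m 0) p * ev (m 2) p * ev (m 4) p) * Id2_r_b035_b125 m +
    (br (m 0) (m 1) (m 4) * br (m 0) (m 2) (m 5) * ev (m 2) p * ev (m 4) p -
    br (m 0) (m 1) (m 4) * br (m 0) (m 2) (m 4) * ev (m 2) p * ev (m 5) p) * Id2_r_l0_b135 m p +
    (-br (m 0) (m 1) (m 4) * br (m 0) (m 1) (m 5) * ev (m 2) p * ev (m 4) p +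
    br (m 0) (m 1) (m 4) * br (m 0) (m 1) (m 4) * ev (m 2) p * ev (m 5) p) * Id2_r_l0_b235 m p +
    (br (m 0) (m 1) (m 4) * br (m 0) (m 3) (m 5) * ev (m 1) p * ev (m 2) p) * Id2_r_l0_b245 m p +
    (br (m 0) (m 1) (m 2) * br (m 0) (m 1) (m 4) * ev (m 2) p * ev (m 5) p) * Id2_r_l0_b345 m p

theorem J5_A5 : A5 (m ∘ g5) (JV (m 0) (m 2) (m 1) (m 4) (m 3) (m 5) p) =
    JN (m 0) (m 2) (m 1) (m 4) (m 3) (m 5) p * ML (m 0) (m 2) (m 1) (m 3) p *
      ML (m 0) (m 2) (m 4) (m 3) p * A5 m p := by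
  simp only [A5, Function.comp_apply, g5_0, g5_1, g5_2, g5_3, g5_4, g5_5]
  rw [(ev_JV (m 0) (m 2) (m 1) (m 4) (m 3) (m 5) p).2.1, ML_JV]
  ring

theorem J5_A6 : A6 (m ∘ g5) (JV (m 0) (m 2) (m 1) (m 4) (m 3) (m 5) p) =
    JN (m 0) (m 2) (m 1) (m 4) (m 3) (m 5) p * ML (m 0) (m 2) (m 1) (m 3) p *
      ML (m 0) (m 2) (m 4) (m 3) p * A6 m p := by
  simp only [A6, Function.comp_apply, g5_0, g5_1, g5_2, g5_3, g5_4, g5_5]
  rw [(ev_JV (m 0) (m 2) (m 1) (m 4) (m 3) (m 5) p).2.2.1, ML_JV,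
    ML_swap (m 0) (m 2) (m 1) (m 4) p]
  ring

theorem J5_q0 : q0 (m ∘ g5) (JV (m 0) (m 2) (m 1) (m 4) (m 3) (m 5) p) =
    JN (m 0) (m 2) (m 1) (m 4) (m 3) (m 5) p * ML (m 0) (m 2) (m 1) (m 3) p *
      ML (m 0) (m 2) (m 4) (m 3) p * q0 m p := by
  rw [q0, J5_A5, J5_A6, ← key5c m p]
  ring

theorem J5_Q35 : Q35 (m ∘ g5) (JV (m 0) (m 2) (m 1) (m 4) (m 3) (m 5) p) =
    -(JN (m 0) (m 2) (m 1) (m 4) (m 3) (m 5) p * ML (m 0) (m 2) (m 4) (m 3) p * Cb5 m p) := by
  rw [Q35, J5_A5]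
  simp only [Function.comp_apply, g5_0, g5_1, g5_2, g5_3, g5_4, g5_5]
  rw [(ev_JV (m 0) (m 2) (m 1) (m 4) (m 3) (m 5) p).1, ev_JV_b]
  linear_combination
    JN (m 0) (m 2) (m 1) (m 4) (m 3) (m 5) p * ML (m 0) (m 2) (m 4) (m 3) p * key5a m p

theorem J5_Q36 : Q36 (m ∘ g5) (JV (m 0) (m 2) (m 1) (m 4) (m 3) (m 5) p) =
    -(JN (m 0) (m 2) (m 1) (m 4) (m 3) (m 5) p * ML (m 0) (m 2) (m 4) (m 3) p * Cb6 m p) := by
  rw [Q36, J5_A6]
  simp only [Function.comp_apply, g5_0, g5_1, g5_2, g5_3, g5_4, g5_5]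
  rw [(ev_JV (m 0) (m 2) (m 1) (m 4) (m 3) (m 5) p).1, ev_JV_b]
  linear_combination
    JN (m 0) (m 2) (m 1) (m 4) (m 3) (m 5) p * ML (m 0) (m 2) (m 4) (m 3) p * key5b m p

end

end Pool.Agent.MP_1c689d_ag.SX

end

section

set_option autoImplicit false

namespace Pool.Agent.MP_1c689d_ag.SX

open Pool.Agent.MP_1c689d_ag.FP

noncomputable section

open Polynomial

variable {F : Type} [Field F] [Algebra ℂ F]

/-! Jacobian determinants. -/

section Aux
variable {M : Type} [AddCommGroup M] [Module F M] [Module ℂ M]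

theorem Jac_poly (d : Derivation ℂ F M) (W : Submodule F M) (K : IntermediateField ℂ F)
    (hK : ∀ y ∈ K, d y ∈ W) (x : F) (p : Polynomial K) :
    d (aeval x p) - aeval x (derivative p) • d x ∈ W := by
  induction p using Polynomial.induction_on' with
  | add p q hp hq =>
    have := W.add_mem hp hq
    simp only [map_add, add_smul]
    convert this using 1
    abel
  | monomial n a =>
    have h1 : x ^ n • d (a : F) ∈ W := W.smul_mem _ (hK _ a.2)
    have e : algebraMap K F a = (a : F) := rfl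
    simp only [aeval_monomial, Derivation.leibniz, Derivation.leibniz_pow, derivative_monomial,
      map_mul, map_natCast, e]
    have e2 : (a : F) • n • x ^ (n - 1) • d x = ((a : F) * (n : F) * x ^ (n - 1)) • d x := by
      rw [← Nat.cast_smul_eq_nsmul F, smul_smul, smul_smul]
    rw [e2, add_sub_cancel_left]
    exact h1

theorem Jac_adjoin (d : Derivation ℂ F M) (W : Submodule F M) (S : Set F)
    (hS : ∀ y ∈ S, d y ∈ W) {x : F} (hx : x ∈ IntermediateField.adjoin ℂ S) : d x ∈ W := by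
  induction hx using IntermediateField.adjoin_induction with
  | mem y hy => exact hS y hy
  | algebraMap c =>
    rw [Derivation.map_algebraMap]
    exact W.zero_mem
  | add y z _ _ hy hz =>
    rw [map_add]
    exact W.add_mem hy hz
  | inv y _ hy =>
    rw [Derivation.leibniz_inv]
    exact W.smul_mem _ hy
  | mul y z _ _ hy hz =>
    rw [Derivation.leibniz]
    exact W.add_mem (W.smul_mem _ hz) (W.smul_mem _ hy)

theorem Jac_acl (d : Derivation ℂ F M) (W : Submodule F M) (S : Set F)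
    (hS : ∀ y ∈ S, d y ∈ W) {x : F} (hx : x ∈ acl S) : d x ∈ W := by
  have hc : CharZero (IntermediateField.adjoin ℂ S) := cz _
  have hi : IsIntegral (IntermediateField.adjoin ℂ S) x := (mem_acl.1 hx).isIntegral
  have hsep : (minpoly (IntermediateField.adjoin ℂ S) x).Separable :=
    (minpoly.irreducible hi).separable
  have hne : aeval x (derivative (minpoly (IntermediateField.adjoin ℂ S) x)) ≠ 0 :=
    hsep.aeval_derivative_ne_zero (minpoly.aeval _ x)
  have h := Jac_poly d W (IntermediateField.adjoin ℂ S) (fun y hy => Jac_adjoin d W S hS hy) x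
    (minpoly (IntermediateField.adjoin ℂ S) x)
  rw [minpoly.aeval, map_zero, zero_sub, W.neg_mem_iff] at h
  exact (W.smul_mem_iff hne).1 h

end Aux

/-- the universal family of derivations -/
def Jac_univ : Derivation ℂ F (Derivation ℂ F F → F) :=
  Derivation.mk'
    { toFun := fun x D => D x
      map_add' := fun x y => funext fun D => map_add D x y
      map_smul' := fun c x => funext fun D => D.map_smul c x }
    fun a b => funext fun D => D.leibniz a b

/-- the columns of the Jacobian matrix -/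
def Jac_col (D : Fin 3 → Derivation ℂ F F) : Derivation ℂ F (Fin 3 → F) :=
  Derivation.mk'
    { toFun := fun x i => D i x
      map_add' := fun x y => funext fun i => map_add (D i) x y
      map_smul' := fun c x => funext fun i => (D i).map_smul c x }
    fun a b => funext fun i => (D i).leibniz a b

theorem jac_eq (D : Fin 3 → Derivation ℂ F F) (a b c : F) : jac D ![a, b, c] =
    D 0 a * (D 1 b * D 2 c - D 1 c * D 2 b) - D 0 b * (D 1 a * D 2 c - D 1 c * D 2 a) +
      D 0 c * (D 1 a * D 2 b - D 1 b * D 2 a) := by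
  unfold jac
  rw [Matrix.det_fin_three]
  simp only [Matrix.of_apply, Matrix.cons_val_zero, Matrix.cons_val_one, Matrix.cons_val_two,
    Matrix.head_cons, Matrix.tail_cons]
  ring

/-- Take a non-zero `p ∈ ℂ[S][Y]` of minimal degree with `p(s, x) = 0` (`mem_acl_iff_adjoin`; if
`s` is algebraic over `ℂ` then so is `x`, both are constants and `μ = 0`).  Its derivative in `Y`
does not vanish at `(s, x)` (characteristic zero; alternatively use the separable minimal
polynomial over `ℂ(s)` and the fact that `D y` is a multiple of `D s`, with a factor independent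
of `D`, for `y ∈ ℂ(s)` by `adjoin_induction`). -/
theorem der_acl {s x : F} (hx : x ∈ acl {s}) : ∃ μ : F, ∀ D : Derivation ℂ F F, D x = μ * D s := by
  have h := Jac_acl (Jac_univ (F := F)) (Submodule.span F {Jac_univ s}) {s}
    (by
      rintro y rfl
      exact Submodule.mem_span_singleton_self _) hx
  obtain ⟨μ, hμ⟩ := Submodule.mem_span_singleton.1 h
  exact ⟨μ, fun D => (congrFun hμ D).symm⟩

/-- `kd_basis`, and `(b.coord i).compDer (KaehlerDifferential.D ℂ F)` -/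
theorem exists_dual (z : Fin 3 → F) (hz : AlgebraicIndependent ℂ z)
    (ha : acl (Set.range z) = ⊤) :
    ∃ D : Fin 3 → Derivation ℂ F F, ∀ i j, D i (z j) = if i = j then 1 else 0 := by
  obtain ⟨b, hb⟩ := kd_basis z hz ha
  refine ⟨fun i => (b.coord i).compDer (KaehlerDifferential.D ℂ F), fun i j => ?_⟩
  change b.coord i (KaehlerDifferential.D ℂ F (z j)) = _
  rw [← hb, Module.Basis.coord_apply, Module.Basis.repr_self, Finsupp.single_apply]
  simp only [eq_comm]

/-- Take a non-zero relation `p(a) = 0` of minimal total degree.  It is not constant, so some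
`pderiv j p` is non-zero, of smaller degree, hence `(pderiv j p)(a) ≠ 0`.  The chain rule gives
`∑ j, (pderiv j p)(a) * D i (a j) = 0` for all `i`
(`Matrix.exists_mulVec_eq_zero_iff`). -/
theorem jac_dep (D : Fin 3 → Derivation ℂ F F) (a : Fin 3 → F)
    (h : ¬ AlgebraicIndependent ℂ a) : jac D a = 0 := by
  by_contra hne
  apply h
  have hli : LinearIndependent F (fun j => Jac_col D (a j)) := by
    have hu : IsUnit (Matrix.of fun i j => D i (a j)) :=
      (Matrix.isUnit_iff_isUnit_det _).2 (isUnit_iff_ne_zero.2 hne)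
    exact Matrix.linearIndependent_cols_of_isUnit hu
  refine algebraicIndependent_of_finite_type' (algebraMap ℂ F).injective fun t _ _ i hi halg => ?_
  have h1 : a i ∈ acl (a '' t) := mem_acl_iff_adjoin.2 halg
  have h2 := Jac_acl (Jac_col D) (Submodule.span F ((fun j => Jac_col D (a j)) '' t)) (a '' t)
    (by
      rintro _ ⟨j, hj, rfl⟩
      exact Submodule.subset_span ⟨j, hj, rfl⟩) h1
  exact hli.notMem_span_image hi h2

theorem jac_sub_const (D : Fin 3 → Derivation ℂ F F) (s a b : F) (τ : ℂ) :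
    jac D ![s - algebraMap ℂ F τ, a, b] = jac D ![s, a, b] := by
  rw [jac_eq, jac_eq]
  simp only [map_sub, Derivation.map_algebraMap, sub_zero]

/-- `der_acl` -/
theorem jac_sub_acl (D : Fin 3 → Derivation ℂ F F) {s γ : F} (hγ : γ ∈ acl {s}) (a b : F) :
    jac D ![s, a, b - γ] = jac D ![s, a, b] := by
  obtain ⟨μ, hμ⟩ := der_acl hγ
  rw [jac_eq, jac_eq]
  simp only [map_sub, hμ]
  ring

/-- By `der_acl`, `D (ev a p) = a.x * D u + a.y * D v + μ * D s`; use the quotient rule, `jac_eq`,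
`field_simp` and `br_mul_z` (or unfold and `ring` after generalising). -/
theorem jac_lines (D : Fin 3 → Derivation ℂ F F) {s u v : F} {a b c : V F} (ha : a.In (acl {s}))
    (hb : b.In (acl {s})) (hc : c.In (acl {s})) (h0 : ev c ⟨u, v, 1⟩ ≠ 0) :
    jac D ![s, ev a ⟨u, v, 1⟩ / ev c ⟨u, v, 1⟩, ev b ⟨u, v, 1⟩ / ev c ⟨u, v, 1⟩] *
      ev c ⟨u, v, 1⟩ ^ 3 = br a b c * jac D ![s, u, v] := by
  have key : ∀ e : V F, e.In (acl {s}) → ∃ μ : F, ∀ D : Derivation ℂ F F,
      D (ev e ⟨u, v, 1⟩) = e.x * D u + e.y * D v + μ * D s := by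
    intro e he
    obtain ⟨μ₁, h₁⟩ := der_acl he.1
    obtain ⟨μ₂, h₂⟩ := der_acl he.2.1
    obtain ⟨μ₃, h₃⟩ := der_acl he.2.2
    refine ⟨u * μ₁ + v * μ₂ + μ₃, fun D => ?_⟩
    simp only [ev, mul_one, map_add, Derivation.leibniz, smul_eq_mul, h₁, h₂, h₃]
    ring
  obtain ⟨μa, hA⟩ := key a ha
  obtain ⟨μb, hB⟩ := key b hb
  obtain ⟨μc, hC⟩ := key c hc
  rw [jac_eq, jac_eq]
  simp only [Derivation.leibniz_div, smul_eq_mul, hA, hB, hC]
  have hbr : br a b c = ev a ⟨u, v, 1⟩ * (b.x * c.y - b.y * c.x) +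
      ev b ⟨u, v, 1⟩ * (c.x * a.y - c.y * a.x) + ev c ⟨u, v, 1⟩ * (a.x * b.y - a.y * b.x) := by
    simp only [br, ev]
    ring
  rw [hbr]
  generalize ev a ⟨u, v, 1⟩ = A
  generalize ev b ⟨u, v, 1⟩ = B
  generalize ev c ⟨u, v, 1⟩ = C at h0 ⊢
  field_simp
  ring

theorem jac_map {N : Type} [Field N] [Algebra ℂ N] (ι : F →ₐ[ℂ] N) (D : Fin 3 → Derivation ℂ F F)
    (D' : Fin 3 → Derivation ℂ N N) (h : ∀ i x, D' i (ι x) = ι (D i x)) (a b c : F) :
    jac D' ![ι a, ι b, ι c] = ι (jac D ![a, b, c]) := by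
  rw [jac_eq, jac_eq]
  simp only [h, map_add, map_sub, map_mul]

end

end Pool.Agent.MP_1c689d_ag.SX

end

section

set_option autoImplicit false

namespace Pool.Agent.MP_1c689d_ag.SX

open Pool.Agent.MP_1c689d_ag.FP

noncomputable section

open Polynomial

variable {F : Type} [Field F] [Algebra ℂ F]
variable {O : Subalgebra ℂ F} {ord : F → ℤ}

/-! Logarithmic derivations along a discrete valuation. -/

theorem Dep_chain (D : Derivation ℂ F F) (a : Fin 3 → F) (p : MvPolynomial (Fin 3) ℂ) :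
    D (MvPolynomial.aeval a p) =
      ∑ l, MvPolynomial.aeval a (MvPolynomial.pderiv l p) * D (a l) := by
  induction p using MvPolynomial.induction_on with
  | C c => simp
  | add p q hp hq => simp only [map_add, hp, hq, add_mul, Finset.sum_add_distrib]
  | mul_X p j hp =>
    have e : ∀ l, MvPolynomial.aeval a (MvPolynomial.pderiv l (p * MvPolynomial.X j)) * D (a l) =
        a j * (MvPolynomial.aeval a (MvPolynomial.pderiv l p) * D (a l)) +
          if j = l then MvPolynomial.aeval a p * D (a l) else 0 := by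
      intro l
      rw [MvPolynomial.pderiv_mul, map_add, map_mul, map_mul, MvPolynomial.aeval_X]
      split_ifs with hl
      · rw [hl, MvPolynomial.pderiv_X_self, map_one]
        ring
      · rw [MvPolynomial.pderiv_X_of_ne hl, map_zero]
        ring
    rw [map_mul, MvPolynomial.aeval_X, Derivation.leibniz, hp, Finset.sum_congr rfl fun l _ => e l,
      Finset.sum_add_distrib, Finset.sum_ite_eq, if_pos (Finset.mem_univ j), ← Finset.mul_sum,
      smul_eq_mul, smul_eq_mul, add_comm]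

theorem Dep_deg (p : MvPolynomial (Fin 3) ℂ) (hd : p.totalDegree ≠ 0) :
    ∃ j, MvPolynomial.pderiv j p ≠ 0 ∧ (MvPolynomial.pderiv j p).totalDegree < p.totalDegree := by
  have hm : ∃ m ∈ p.support, ∃ j, m j ≠ 0 := by
    by_contra hno
    refine hd (Nat.eq_zero_of_le_zero (Finset.sup_le fun m hm => ?_))
    have : m = 0 := by
      ext j
      by_contra hj
      exact hno ⟨m, hm, j, hj⟩
    rw [this, Finsupp.sum_zero_index]
  obtain ⟨m, hm, j, hj⟩ := hm
  refine ⟨j, fun e => ?_, ?_⟩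
  · have h1 := MvPolynomial.coeff_pderiv (i := j) p (m - Finsupp.single j 1)
    have h2 : m - Finsupp.single j 1 + Finsupp.single j 1 = m :=
      tsub_add_cancel_of_le (Finsupp.single_le_iff.2 (Nat.one_le_iff_ne_zero.2 hj))
    rw [e, h2, MvPolynomial.coeff_zero] at h1
    exact mul_ne_zero (MvPolynomial.mem_support_iff.1 hm) (Nat.cast_add_one_ne_zero _) h1.symm
  · refine (Finset.sup_lt_iff (Nat.pos_of_ne_zero hd)).2 fun m' hm' => ?_
    have h1 := MvPolynomial.mem_support_iff.1 hm'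
    rw [MvPolynomial.coeff_pderiv] at h1
    have h2 := MvPolynomial.le_totalDegree
      (MvPolynomial.mem_support_iff.2 (left_ne_zero_of_mul h1))
    rw [Finsupp.sum_add_index' (fun _ => rfl) (fun _ _ _ => rfl),
      Finsupp.sum_single_index rfl] at h2
    exact h2

theorem Gt.add (h : IsOrd O ord) {n : ℤ} {x y : F} (hx : Gt ord n x) (hy : Gt ord n y) :
    Gt ord n (x + y) := by
  rcases hx with rfl | hx'
  · rwa [zero_add]
  rcases hy with rfl | hy'
  · rw [add_zero]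
    exact Or.inr hx'
  by_cases hx0 : x = 0
  · rw [hx0, zero_add]
    exact Or.inr hy'
  by_cases hy0 : y = 0
  · rw [hy0, add_zero]
    exact Or.inr hx'
  by_cases hxy : x + y = 0
  · exact Or.inl hxy
  · exact Or.inr (lt_of_lt_of_le (lt_min hx' hy') (h.add x y hx0 hy0 hxy))

theorem Gt.neg (h : IsOrd O ord) {n : ℤ} {x : F} (hx : Gt ord n x) : Gt ord n (-x) := by
  by_cases hx0 : x = 0
  · exact Or.inl (by rw [hx0, neg_zero])
  · exact Or.inr (by rw [h.neg hx0]; exact hx.resolve_left hx0)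

theorem Gt.mul_mem (h : IsOrd O ord) {n : ℤ} {x y : F} (hx : x ∈ O) (hy : Gt ord n y) :
    Gt ord n (x * y) := by
  by_cases hx0 : x = 0
  · exact Or.inl (by rw [hx0, zero_mul])
  by_cases hy0 : y = 0
  · exact Or.inl (by rw [hy0, mul_zero])
  have h1 := ((h.mem x).1 hx).resolve_left hx0
  have h2 := hy.resolve_left hy0
  refine Or.inr ?_
  rw [h.mul x y hx0 hy0]
  omega

theorem Gt.mem (h : IsOrd O ord) {x : F} (hx : Gt ord 0 x) : x ∈ O := by
  exact (h.mem x).2 (hx.imp_right le_of_lt)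

theorem Gt.sum (h : IsOrd O ord) {n : ℤ} {ι : Type} (s : Finset ι) (f : ι → F)
    (hf : ∀ i ∈ s, Gt ord n (f i)) : Gt ord n (∑ i ∈ s, f i) := by
  exact Finset.sum_induction f (Gt ord n) (fun _ _ => Gt.add h) (Or.inl rfl) hf

theorem Lg.mem (h : IsOrd O ord) {D : Derivation ℂ F F} (hD : Lg ord D) {x : F} (hx : x ∈ O) :
    D x ∈ O := by
  by_cases hx0 : x = 0
  · rw [hx0, map_zero]
    exact O.zero_mem
  · exact (h.mem _).2 ((hD x hx0).imp_right
      (le_trans (((h.mem x).1 hx).resolve_left hx0)))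

theorem Lg.gt {D : Derivation ℂ F F} (hD : Lg ord D) {n : ℤ} {x : F} (hx : Gt ord n x) :
    Gt ord n (D x) := by
  by_cases hx0 : x = 0
  · exact Or.inl (by rw [hx0, map_zero])
  · exact (hD x hx0).imp_right (lt_of_lt_of_le (hx.resolve_left hx0))

theorem Lg.div_mem (h : IsOrd O ord) {D : Derivation ℂ F F} (hD : Lg ord D) (x : F) :
    D x / x ∈ O := by
  by_cases hx0 : x = 0
  · rw [hx0, div_zero]
    exact O.zero_mem
  by_cases hd : D x = 0
  · rw [hd, zero_div]
    exact O.zero_mem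
  have h1 := (hD x hx0).resolve_left hd
  refine (h.mem _).2 (Or.inr ?_)
  rw [h.div hd hx0]
  omega

/-- `jac_eq`: every term is a product of logarithmic derivatives -/
theorem jac_log (h : IsOrd O ord) {D : Fin 3 → Derivation ℂ F F} (hD : ∀ i, Lg ord (D i))
    (a b c : F) : jac D ![a, b, c] / (a * b * c) ∈ O := by
  have e : jac D ![a, b, c] / (a * b * c) =
      D 0 a / a * (D 1 b / b * (D 2 c / c) - D 1 c / c * (D 2 b / b)) -
        D 0 b / b * (D 1 a / a * (D 2 c / c) - D 1 c / c * (D 2 a / a)) +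
        D 0 c / c * (D 1 a / a * (D 2 b / b) - D 1 b / b * (D 2 a / a)) := by
    rw [jac_eq]
    ring
  have m := fun i x => Lg.div_mem h (hD i) x
  rw [e]
  exact O.add_mem (O.sub_mem
    (O.mul_mem (m _ _) (O.sub_mem (O.mul_mem (m _ _) (m _ _)) (O.mul_mem (m _ _) (m _ _))))
    (O.mul_mem (m _ _) (O.sub_mem (O.mul_mem (m _ _) (m _ _)) (O.mul_mem (m _ _) (m _ _)))))
    (O.mul_mem (m _ _) (O.sub_mem (O.mul_mem (m _ _) (m _ _)) (O.mul_mem (m _ _) (m _ _))))

theorem jac_log' (h : IsOrd O ord) {D : Fin 3 → Derivation ℂ F F} (hD : ∀ i, Lg ord (D i))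
    {a : F} (ha : a ∈ O) (b c : F) : jac D ![a, b, c] / (b * c) ∈ O := by
  have e : jac D ![a, b, c] / (b * c) =
      D 0 a * (D 1 b / b * (D 2 c / c) - D 1 c / c * (D 2 b / b)) -
        D 0 b / b * (D 1 a * (D 2 c / c) - D 1 c / c * D 2 a) +
        D 0 c / c * (D 1 a * (D 2 b / b) - D 1 b / b * D 2 a) := by
    rw [jac_eq]
    ring
  have m := fun i x => Lg.div_mem h (hD i) x
  have k := fun i => Lg.mem h (hD i) ha
  rw [e]
  exact O.add_mem (O.sub_mem
    (O.mul_mem (k _) (O.sub_mem (O.mul_mem (m _ _) (m _ _)) (O.mul_mem (m _ _) (m _ _))))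
    (O.mul_mem (m _ _) (O.sub_mem (O.mul_mem (k _) (m _ _)) (O.mul_mem (m _ _) (k _)))))
    (O.mul_mem (m _ _) (O.sub_mem (O.mul_mem (k _) (m _ _)) (O.mul_mem (m _ _) (k _))))

/-- If all non-zero elements of the subalgebra `A` have order zero, the same holds for all
non-zero elements that are algebraic over `A`: in a relation `∑ aᵢ xⁱ = 0` the non-zero terms have
the pairwise different orders `i * ord x` unless `ord x = 0` (use the lowest or the highest term
and `Gt.sum`). -/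
theorem ord_alg (h : IsOrd O ord) (A : Subalgebra ℂ F) (hA : ∀ a ∈ A, a ≠ 0 → ord a = 0) {x : F}
    (hx : IsAlgebraic A x) (h0 : x ≠ 0) : ord x = 0 := by
  classical
  by_contra hne
  obtain ⟨p, hp, hpx⟩ := hx
  obtain ⟨k, hk, hmin⟩ := Finset.exists_min_image p.support (fun i : ℕ => (i : ℤ) * ord x)
    (Polynomial.support_nonempty.2 hp)
  have ht : ∀ i ∈ p.support, (p.coeff i : F) * x ^ i ≠ 0 ∧
      ord ((p.coeff i : F) * x ^ i) = i * ord x := by
    intro i hi
    have hc : (p.coeff i : F) ≠ 0 := fun e =>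
      Polynomial.mem_support_iff.1 hi (Subtype.ext e)
    refine ⟨mul_ne_zero hc (pow_ne_zero i h0), ?_⟩
    rw [h.mul _ _ hc (pow_ne_zero i h0), hA _ (p.coeff i).2 hc, h.pow h0, zero_add]
  have hs : ∑ i ∈ p.support, (p.coeff i : F) * x ^ i = 0 := by
    rw [Polynomial.aeval_def, Polynomial.eval₂_eq_sum, Polynomial.sum_def] at hpx
    exact hpx
  rw [← Finset.add_sum_erase _ _ hk] at hs
  have hg : Gt ord (k * ord x) (∑ i ∈ p.support.erase k, (p.coeff i : F) * x ^ i) := by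
    refine Gt.sum h _ _ fun i hi => Or.inr ?_
    obtain ⟨hik, hi'⟩ := Finset.mem_erase.1 hi
    rw [(ht i hi').2]
    refine lt_of_le_of_ne (hmin i hi') fun e => hik ?_
    exact_mod_cast (mul_right_cancel₀ hne e).symm
  have hg' := Gt.neg h hg
  rw [← eq_neg_of_add_eq_zero_left hs] at hg'
  have := hg'.resolve_left (ht k hk).1
  rw [(ht k hk).2] at this
  exact lt_irrefl _ this

theorem ord_acl (h : IsOrd O ord) {s : F} (hs : ∀ p : ℂ[X], p ≠ 0 → ord (aeval s p) = 0) {x : F}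
    (hx : x ∈ acl {s}) (h0 : x ≠ 0) : ord x = 0 := by
  refine ord_alg h (Algebra.adjoin ℂ {s}) ?_ (mem_acl_iff_adjoin.1 hx) h0
  intro a ha ha0
  rw [Algebra.adjoin_singleton_eq_range_aeval] at ha
  obtain ⟨p, rfl⟩ := ha
  refine hs p ?_
  rintro rfl
  exact ha0 (map_zero _)

theorem Dep_det (h : IsOrd O ord) (M : Matrix (Fin 3) (Fin 3) F) (j : Fin 3)
    (hM : ∀ i l, M i l ∈ O) (hj : ∀ i, Gt ord 0 (M i j)) : Gt ord 0 M.det := by
  rw [Matrix.det_apply']
  refine Gt.sum h _ _ fun σ _ => Gt.mul_mem h (intCast_mem O _) ?_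
  rw [← Finset.prod_erase_mul _ _ (Finset.mem_univ j)]
  exact Gt.mul_mem h (O.prod_mem fun i _ => hM _ _) (hj _)

/-- Three regular functions have a Jacobian of positive order.  First, there is a non-zero
`p ∈ ℂ[X₀, X₁, X₂]` with `Gt ord 0 (p(a))`: otherwise all non-zero polynomials in `a` are non-zero
of order zero, `a` is independent, `F` is algebraic over `ℂ[a]` (`acl_top_of_indep`), and `ord_alg`
contradicts `h.unif`.  Take such `p` of minimal total degree; it is not constant, so some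
`q = pderiv j p ≠ 0` has smaller degree and `q(a)` is a unit.  The vector
`D i (p(a)) = ∑ l, (pderiv l p)(a) * D i (a l)` has entries of positive order (`Lg.gt`); replacing
the column `j` of the Jacobian matrix by it multiplies the determinant by `q(a)`
(`Matrix.cramer`, `Matrix.det_updateCol_sum`, or `fin_cases j` and `jac_eq`). -/
theorem dep (h : IsOrd O ord) (h3 : Algebra.trdeg ℂ F = 3) {D : Fin 3 → Derivation ℂ F F}
    (hD : ∀ i, Lg ord (D i)) (a : Fin 3 → F) (ha : ∀ j, a j ∈ O) : Gt ord 0 (jac D a) := by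
  classical
  have hO : ∀ p : MvPolynomial (Fin 3) ℂ, MvPolynomial.aeval a p ∈ O := by
    intro p
    have h1 : Algebra.adjoin ℂ (Set.range a) ≤ O :=
      Algebra.adjoin_le (Set.range_subset_iff.2 ha)
    rw [Algebra.adjoin_range_eq_range_aeval] at h1
    exact h1 ⟨p, rfl⟩
  have hU : ∀ p : MvPolynomial (Fin 3) ℂ, ¬ Gt ord 0 (MvPolynomial.aeval a p) →
      MvPolynomial.aeval a p ≠ 0 ∧ ord (MvPolynomial.aeval a p) = 0 := by
    intro p hp
    have h1 : MvPolynomial.aeval a p ≠ 0 := fun e => hp (Or.inl e)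
    have h2 := ((h.mem _).1 (hO p)).resolve_left h1
    exact ⟨h1, le_antisymm (not_lt.1 fun e => hp (Or.inr e)) h2⟩
  have hex : ∃ n : ℕ, ∃ p : MvPolynomial (Fin 3) ℂ, p ≠ 0 ∧ Gt ord 0 (MvPolynomial.aeval a p) ∧
      p.totalDegree = n := by
    by_contra hno
    have hall : ∀ p : MvPolynomial (Fin 3) ℂ, p ≠ 0 → ¬ Gt ord 0 (MvPolynomial.aeval a p) :=
      fun p hp hg => hno ⟨_, p, hp, hg, rfl⟩
    have hind : AlgebraicIndependent ℂ a := algebraicIndependent_iff.2 fun p hp => by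
      by_contra hp0
      exact hall p hp0 (Or.inl hp)
    obtain ⟨π, hπ, hπ1⟩ := h.unif
    have hm : π ∈ acl (Set.range a) := by
      rw [acl_top_of_indep h3 a hind]
      exact IntermediateField.mem_top
    have h0 : ord π = 0 := by
      refine ord_alg h (Algebra.adjoin ℂ (Set.range a)) ?_ (mem_acl_iff_adjoin.1 hm) hπ
      intro b hb hb0
      rw [Algebra.adjoin_range_eq_range_aeval] at hb
      obtain ⟨p, rfl⟩ := hb
      refine (hU p (hall p ?_)).2
      rintro rfl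
      exact hb0 (map_zero _)
    omega
  obtain ⟨p, hp, hg, hn⟩ := Nat.find_spec hex
  have hd : p.totalDegree ≠ 0 := by
    intro e
    have e' := MvPolynomial.totalDegree_eq_zero_iff_eq_C.1 e
    have hc : p.coeff 0 ≠ 0 := fun e0 => hp (by rw [e', e0, map_zero])
    rw [e', MvPolynomial.aeval_C] at hg
    have := hg.resolve_left ((_root_.map_ne_zero _).2 hc)
    rw [h.const hc] at this
    exact lt_irrefl _ this
  obtain ⟨j, hj, hlt⟩ := Dep_deg p hd
  obtain ⟨hq0, hq⟩ := hU (MvPolynomial.pderiv j p) fun hg' =>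
    Nat.find_min hex (hn ▸ hlt) ⟨_, hj, hg', rfl⟩
  have hdet := Matrix.det_updateCol_sum (Matrix.of fun i l => D i (a l)) j
    (fun l => MvPolynomial.aeval a (MvPolynomial.pderiv l p))
  have hG : Gt ord 0 (MvPolynomial.aeval a (MvPolynomial.pderiv j p) * jac D a) := by
    rw [jac, ← smul_eq_mul, ← hdet]
    have hcol : ∀ i, Gt ord 0 (∑ l, MvPolynomial.aeval a (MvPolynomial.pderiv l p) •
        (Matrix.of fun i l => D i (a l)) i l) := by
      intro i
      have := Lg.gt (hD i) hg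
      rw [Dep_chain] at this
      exact this
    refine Dep_det h _ j (fun i l => ?_) fun i => ?_
    · rw [Matrix.updateCol_apply]
      split_ifs
      · exact Gt.mem h (hcol i)
      · exact Lg.mem h (hD i) (ha l)
    · rw [Matrix.updateCol_self]
      exact hcol i
  by_cases hJ : jac D a = 0
  · exact Or.inl hJ
  · have := hG.resolve_left (mul_ne_zero hq0 hJ)
    rw [h.mul _ _ hq0 hJ, hq, zero_add] at this
    exact Or.inr this

end

end Pool.Agent.MP_1c689d_ag.SX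

end

section

set_option autoImplicit false

namespace Pool.Agent.MP_1c689d_ag.SX

open Pool.Agent.MP_1c689d_ag.FP

noncomputable section

open Polynomial

variable {F : Type} [Field F] [Algebra ℂ F]

theorem Glob2_lg {O : Subalgebra ℂ F} {ord : F → ℤ} (h : IsOrd O ord) {π : F} (hπ : π ≠ 0)
    (h1 : ord π = 1) (D : Derivation ℂ F F) (hD : ∀ x ∈ O, D x ∈ O) (hDπ : D π / π ∈ O) :
    Lg ord D := by
  intro x hx
  obtain ⟨n, hn⟩ : ∃ n, n = ord x := ⟨_, rfl⟩
  have hz : π ^ n ≠ 0 := zpow_ne_zero n hπ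
  obtain ⟨u, hu⟩ : ∃ u, u = x / π ^ n := ⟨_, rfl⟩
  have hu0 : u ≠ 0 := hu ▸ div_ne_zero hx hz
  have hou : ord u = 0 := by
    rw [hu, h.div hx hz, Ord_zpow h hπ, h1, ← hn]
    ring
  have huO : u ∈ O := (h.mem u).2 (.inr hou.ge)
  have huO' : u⁻¹ ∈ O := (h.mem _).2 (.inr (by rw [h.inv hu0, hou]; rfl))
  have hxu : x = u * π ^ n := by rw [hu, div_mul_cancel₀ _ hz]
  have e : D x / x = n * (D π / π) + D u * u⁻¹ := by
    rw [hxu, Derivation.leibniz, Derivation.leibniz_zpow, zpow_sub_one₀ hπ]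
    simp only [smul_eq_mul, zsmul_eq_mul]
    field_simp
  have hm : D x / x ∈ O := by
    rw [e]
    exact O.add_mem (O.mul_mem (intCast_mem O n) hDπ) (O.mul_mem (hD u huO) huO')
  by_cases h0 : D x = 0
  · exact .inl h0
  · rcases (h.mem _).1 hm with h2 | h2
    · exact absurd h2 (div_ne_zero h0 hx)
    · rw [h.div h0 hx] at h2
      exact .inr (by omega)

theorem Glob2_min {O : Subalgebra ℂ F} {ord : F → ℤ} (h : IsOrd O ord) (v : Fin 3 → F) :
    ∃ (i₀ : Fin 3) (c : Fin 3 → F), (∀ j, c j ∈ O) ∧ ∀ j, v j = c j * v i₀ := by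
  classical
  by_cases h0 : ∀ j, v j = 0
  · exact ⟨0, fun _ => 0, fun _ => O.zero_mem, fun j => by rw [h0 j, zero_mul]⟩
  · push Not at h0
    obtain ⟨j₀, hj₀⟩ := h0
    obtain ⟨i₀, hi, hmin⟩ := (Finset.univ.filter fun j => v j ≠ 0).exists_min_image
      (fun j => ord (v j)) ⟨j₀, by simpa using hj₀⟩
    have hi0 : v i₀ ≠ 0 := by simpa using hi
    refine ⟨i₀, fun j => v j / v i₀, fun j => ?_, fun j => (div_mul_cancel₀ _ hi0).symm⟩
    by_cases hj : v j = 0
    · simp only [hj, zero_div]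
      exact O.zero_mem
    · refine (h.mem _).2 (.inr ?_)
      have := hmin j (by simpa using hj)
      rw [h.div hj hi0]
      omega

/-- Adapted logarithmic derivations.  Let `π` be a uniformiser.  Choose `i₀` such that
`δ j π = c j * δ i₀ π` with `c j ∈ O` for all `j` (if all `δ j π` vanish take any `i₀` and
`c = 0`; otherwise take `i₀` with `δ i₀ π ≠ 0` of minimal order).  Put `D i₀ = π • δ i₀` and
`D j = δ j - c j • δ i₀` for `j ≠ i₀`.  All `D j` preserve `O` and `D j π / π ∈ O`; write `x` as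
`π ^ n` times a unit to see that they are logarithmic.  Row operations give the determinant. -/
theorem exists_log {O : Subalgebra ℂ F} {ord : F → ℤ} (h : IsOrd O ord)
    (δ : Fin 3 → Derivation ℂ F F) (hδ : ∀ i, ∀ x ∈ O, δ i x ∈ O) :
    ∃ (D : Fin 3 → Derivation ℂ F F) (π : F), π ≠ 0 ∧ ord π = 1 ∧ (∀ i, Lg ord (D i)) ∧
      ∀ a, jac D a = π * jac δ a := by
  classical
  obtain ⟨π, hπ, h1⟩ := h.unif
  have hπO : π ∈ O := (h.mem π).2 (.inr (by omega))
  obtain ⟨i₀, c, hc, hv⟩ := Glob2_min h fun j => δ j π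
  refine ⟨fun j => if j = i₀ then π • δ i₀ else δ j - c j • δ i₀, π, hπ, h1, fun j => ?_,
    fun a => ?_⟩
  · by_cases hj : j = i₀
    · simp only [if_pos hj]
      refine Glob2_lg h hπ h1 _ (fun x hx => O.mul_mem hπO (hδ _ x hx)) ?_
      have e : (π • δ i₀) π / π = δ i₀ π := by
        rw [Derivation.smul_apply, smul_eq_mul, mul_div_cancel_left₀ _ hπ]
      rw [e]
      exact hδ _ π hπO
    · simp only [if_neg hj]
      refine Glob2_lg h hπ h1 _
        (fun x hx => O.sub_mem (hδ _ x hx) (O.mul_mem (hc j) (hδ _ x hx))) ?_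
      have e : (δ j - c j • δ i₀) π = 0 := by
        rw [Derivation.sub_apply, Derivation.smul_apply, smul_eq_mul]
        exact sub_eq_zero.2 (hv j)
      rw [e, zero_div]
      exact O.zero_mem
  · let M : Matrix (Fin 3) (Fin 3) F := Matrix.of fun i j => δ i (a j)
    let c' : Fin 3 → F := fun j => if j = i₀ then 0 else -c j
    let M' : Matrix (Fin 3) (Fin 3) F := Matrix.of fun i j => M i j + c' i * M i₀ j
    have e1 : M'.det = M.det :=
      Matrix.det_eq_of_forall_row_eq_smul_add_const c' i₀ (if_pos rfl) fun _ _ => rfl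
    have e2 : (Matrix.of fun i j => (if i = i₀ then π • δ i₀ else δ i - c i • δ i₀) (a j)) =
        M'.updateRow i₀ (π • M' i₀) := by
      ext i j
      by_cases hi : i = i₀
      · subst hi
        simp [M', M, c']
      · rw [Matrix.updateRow_ne hi]
        simp [M', M, c', hi, sub_eq_add_neg]
    unfold jac
    rw [e2, Matrix.det_updateRow_smul, Matrix.updateRow_eq_self, e1]

/-- Variant of `glob_local` (copy its proof).  With `b` the basis `D (t i)` and
`δ i = (b.coord i).compDer (KaehlerDifferential.D ℂ F)` one has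
`ιMulti (D ∘ a) = jac δ a • ιMulti b` (`top_form`, `Module.Basis.det_apply`; mind the transpose).
For `O = GlobL_loc S p` the `δ i` preserve `O`; `exists_ord`, `exists_log` and the hypothesis
give `φ * jac δ a ∈ O`. -/
theorem glob_local2 (S : Subalgebra ℂ F) [IsFractionRing S F] [IsIntegrallyClosed S]
    [IsNoetherianRing S] (t : Fin 3 → F) (ht : ∀ i, t i ∈ S) (hind : AlgebraicIndependent ℂ t)
    (ha : acl (Set.range t) = ⊤)
    (hD : ∀ a ∈ S, ∃ c : Fin 3 → F, (∀ i, c i ∈ S) ∧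
      KaehlerDifferential.D ℂ F a = ∑ i, c i • KaehlerDifferential.D ℂ F (t i))
    (φ : F) (a : Fin 3 → F)
    (h : ∀ O : Subalgebra ℂ F, IsDiscreteValuationRing O → IsFractionRing O F →
      ∀ ord, IsOrd O ord → ∀ D : Fin 3 → Derivation ℂ F F, (∀ i, Lg ord (D i)) →
        Gt ord 0 (φ * jac D a)) :
    φ • exteriorPower.ιMulti F 3 (fun k => KaehlerDifferential.D ℂ F (a k)) ∈ regOn S 3 := by
  obtain ⟨b, hb⟩ := kd_basis t hind ha
  let δ : Fin 3 → Derivation ℂ F F := fun i => (b.coord i).compDer (KaehlerDifferential.D ℂ F)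
  have hδ : ∀ i x, δ i x = b.repr (KaehlerDifferential.D ℂ F x) i := fun _ _ => rfl
  have hj : jac δ a = b.det fun k => KaehlerDifferential.D ℂ F (a k) := by
    rw [Module.Basis.det_apply]
    rfl
  have hS : ∀ a ∈ S, ∀ i, b.repr (KaehlerDifferential.D ℂ F a) i ∈ S := by
    intro a h1 i
    obtain ⟨c, hc, e⟩ := hD a h1
    simp only [← hb] at e
    rw [e, b.repr_sum_self]
    exact hc i
  have key : φ * jac δ a ∈ Set.range (algebraMap S F) := by
    refine hartogs S F _ fun p _ hp => ?_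
    have := GlobL_dvr S p hp
    have := GlobL_frac S _ (GlobL_le S p)
    obtain ⟨ord, ho⟩ := exists_ord (GlobL_loc S p)
    obtain ⟨D, π, hπ, h1, hL, hJ⟩ := exists_log ho δ (by
      intro i x h4
      obtain ⟨r, s, hs, e⟩ := GlobL_mem.mp h4
      have e1 : KaehlerDifferential.D ℂ F x = (s : F)⁻¹ • (KaehlerDifferential.D ℂ F (r : F) -
          x • KaehlerDifferential.D ℂ F (s : F)) := by
        rw [← e, Derivation.leibniz, add_sub_cancel_left, smul_smul,
          inv_mul_cancel₀ (GlobL_ne hs), one_smul]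
      rw [hδ, e1, map_smul, map_sub, map_smul, Finsupp.smul_apply, Finsupp.sub_apply,
        Finsupp.smul_apply, smul_eq_mul, smul_eq_mul]
      exact Subalgebra.mul_mem _ (GlobL_inv hs) (Subalgebra.sub_mem _ (GlobL_le S p (hS _ r.2 i))
        (Subalgebra.mul_mem _ h4 (GlobL_le S p (hS _ s.2 i)))))
    have h2 := h (GlobL_loc S p) ‹_› ‹_› ord ho D hL
    rw [hJ, mul_left_comm] at h2
    refine GlobL_mem.mp ((ho.mem _).2 ?_)
    by_cases h0 : φ * jac δ a = 0
    · exact .inl h0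
    · rcases h2 with h2 | h2
      · exact absurd h2 (mul_ne_zero hπ h0)
      · rw [ho.mul _ _ hπ h0] at h2
        exact .inr (by omega)
  obtain ⟨c, hc⟩ := key
  rw [(top_form b).2.1, smul_smul, ← hj, ← hc]
  refine GlobL_smul c.2 (Submodule.subset_span ⟨fun i => ⟨t i, ht i⟩, ?_⟩)
  exact congrArg (exteriorPower.ιMulti F 3) (funext fun i => (hb i).symm)

theorem Glob2_etale (A : Type) [CommRing A] [IsDomain A] [Algebra ℂ A] [Algebra A F]
    [IsScalarTower ℂ A F] [IsFractionRing A F] (n : ℕ) [Algebra (MvPolynomial (Fin n) ℂ) A]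
    [IsScalarTower ℂ (MvPolynomial (Fin n) ℂ) A] [Algebra.Etale (MvPolynomial (Fin n) ℂ) A]
    (h3 : Algebra.trdeg ℂ F = 3) (φ : F) (a : Fin 3 → F)
    (h : ∀ O : Subalgebra ℂ F, IsDiscreteValuationRing O → IsFractionRing O F →
      ∀ ord, IsOrd O ord → ∀ D : Fin 3 → Derivation ℂ F F, (∀ i, Lg ord (D i)) →
        Gt ord 0 (φ * jac D a)) :
    φ • exteriorPower.ιMulti F 3 (fun k => KaehlerDifferential.D ℂ F (a k)) ∈
      regOn (IsScalarTower.toAlgHom ℂ A F).range 3 := by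
  obtain ⟨hic, hno, hinj, halg, hD⟩ := norm_etale A n
  have hg : Function.Injective (IsScalarTower.toAlgHom ℂ A F) := IsFractionRing.injective A F
  have : FaithfulSMul (MvPolynomial (Fin n) ℂ) A :=
    (faithfulSMul_iff_algebraMap_injective _ _).2 hinj
  have : Algebra.IsAlgebraic A F := IsLocalization.isAlgebraic F (nonZeroDivisors A)
  have htb : IsTranscendenceBasis ℂ (algebraMap A F ∘ (algebraMap (MvPolynomial (Fin n) ℂ) A ∘
      MvPolynomial.X)) :=
    ((IsTranscendenceBasis.mvPolynomial (Fin n) ℂ).algebraMap_comp (A := A)).algebraMap_comp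
  have hn : n = 3 := by
    have h1 := htb.cardinalMk_eq_trdeg
    rw [h3, Cardinal.mk_fin] at h1
    exact_mod_cast h1
  subst hn
  let e := AlgEquiv.ofInjective (IsScalarTower.toAlgHom ℂ A F) hg
  have : IsFractionRing (IsScalarTower.toAlgHom ℂ A F).range F := by
    refine IsFractionRing.of_field _ _ fun z => ?_
    obtain ⟨x, y, -, rfl⟩ := IsFractionRing.div_surjective A z
    exact ⟨e x, e y, rfl⟩
  have : IsIntegrallyClosed (IsScalarTower.toAlgHom ℂ A F).range :=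
    IsIntegrallyClosed.of_equiv e.toRingEquiv
  have : IsNoetherianRing (IsScalarTower.toAlgHom ℂ A F).range :=
    isNoetherianRing_of_ringEquiv A e.toRingEquiv
  refine glob_local2 (IsScalarTower.toAlgHom ℂ A F).range _ (fun i => ?_) htb.1
    (acl_top_of_indep h3 _ htb.1) ?_ φ a h
  · exact ⟨_, rfl⟩
  rintro _ ⟨a, rfl⟩
  obtain ⟨c, hc⟩ := (Submodule.mem_span_range_iff_exists_fun A).1 (hD a)
  refine ⟨fun i => algebraMap A F (c i), fun i => ⟨c i, rfl⟩, ?_⟩
  have h1 := congrArg (KaehlerDifferential.map ℂ ℂ A F) hc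
  rw [map_sum, KaehlerDifferential.map_D] at h1
  refine h1.symm.trans (Finset.sum_congr rfl fun i _ => ?_)
  rw [map_smul, KaehlerDifferential.map_D, algebraMap_smul]
  rfl

/-- Variant of `glob` (copy the proofs of `glob_etale` and `glob` from `FP/Glob`). -/
theorem glob2 (R : Subalgebra ℂ F) [Algebra.Smooth ℂ R] [IsFractionRing R F]
    (h3 : Algebra.trdeg ℂ F = 3) (φ : F) (a : Fin 3 → F)
    (h : ∀ O : Subalgebra ℂ F, IsDiscreteValuationRing O → IsFractionRing O F →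
      ∀ ord, IsOrd O ord → ∀ D : Fin 3 → Derivation ℂ F F, (∀ i, Lg ord (D i)) →
        Gt ord 0 (φ * jac D a)) :
    φ • exteriorPower.ιMulti F 3 (fun k => KaehlerDifferential.D ℂ F (a k)) ∈ regOn R 3 := by
  obtain ⟨η, hη⟩ : ∃ η, η = φ • exteriorPower.ιMulti F 3
      (fun k => KaehlerDifferential.D ℂ F (a k)) := ⟨_, rfl⟩
  rw [← hη]
  have key : ∀ (p : Ideal R) [p.IsPrime], ∃ f ∉ p, ∃ m : ℕ, (f : F) ^ m • η ∈ regOn R 3 := by
    intro p _
    obtain ⟨f, hfp, n, _, _, _⟩ :=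
      Algebra.IsSmoothAt.exists_isStandardEtale_mvPolynomial (R := ℂ) (p := p)
    have hf0 : f ≠ 0 := fun e => hfp (e ▸ p.zero_mem)
    have hle : Submonoid.powers f ≤ nonZeroDivisors R :=
      powers_le_nonZeroDivisors_of_noZeroDivisors hf0
    have : IsDomain (Localization.Away f) := IsLocalization.isDomain_localization hle
    let _ : Algebra (Localization.Away f) F :=
      IsLocalization.localizationAlgebraOfSubmonoidLe _ _ _ _ hle
    have : IsScalarTower R (Localization.Away f) F :=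
      IsLocalization.localization_isScalarTower_of_submonoid_le _ _ _ _ hle
    have : IsScalarTower ℂ (Localization.Away f) F := IsScalarTower.of_algebraMap_eq fun c => by
      rw [IsScalarTower.algebraMap_apply ℂ R (Localization.Away f),
        ← IsScalarTower.algebraMap_apply R (Localization.Away f) F,
        ← IsScalarTower.algebraMap_apply ℂ R F]
    have : IsFractionRing (Localization.Away f) F :=
      IsFractionRing.isFractionRing_of_isDomain_of_isLocalization (Submonoid.powers f) _ _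
    have hc : ∀ r : R, algebraMap (Localization.Away f) F (algebraMap R _ r) = r := fun r =>
      (IsScalarTower.algebraMap_apply R (Localization.Away f) F r).symm
    refine ⟨f, hfp, regOn_away R _ f f.2 (fun e => hf0 (Subtype.ext e)) ?_ η
      (hη ▸ Glob2_etale (Localization.Away f) n h3 φ a h)⟩
    rintro _ ⟨a, rfl⟩
    obtain ⟨m, r, hr⟩ := IsLocalization.Away.surj f a
    refine ⟨m, ?_⟩
    have h1 := congrArg (algebraMap (Localization.Away f) F) hr
    rw [map_mul, map_pow, hc, hc, mul_comm] at h1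
    exact h1 ▸ r.2
  have hI : (regOn R 3).comap (LinearMap.toSpanSingleton R _ η) = ⊤ := by
    by_contra hne
    obtain ⟨p, hp, hle⟩ := Ideal.exists_le_maximal _ hne
    obtain ⟨f, hfp, m, hm⟩ := key p
    exact hfp (hp.isPrime.mem_of_pow_mem m (hle hm))
  have h1 : (1 : R) ∈ (regOn R 3).comap (LinearMap.toSpanSingleton R _ η) := by
    rw [hI]; trivial
  rwa [Submodule.mem_comap, LinearMap.toSpanSingleton_apply, one_smul] at h1

end

end Pool.Agent.MP_1c689d_ag.SX

end
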