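import Pool.Agent.Mg.F1c689d.G9a22e1

set_option linter.all false


section

set_option autoImplicit false

namespace Pool.Agent.MP_1c689d_ag.FP

noncomputable section

open Polynomial

end

end Pool.Agent.MP_1c689d_ag.FP

end

section

set_option autoImplicit false

namespace Pool.Agent.MP_1c689d_ag.FP

noncomputable section

open Polynomial

end

end Pool.Agent.MP_1c689d_ag.FP

end

section

set_option autoImplicit false

namespace Pool.Agent.MP_1c689d_ag.FP

noncomputable section

open Polynomial

variable {Ω : Type} [Field Ω] [Algebra ℂ Ω]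

end

end Pool.Agent.MP_1c689d_ag.FP

end

section

set_option autoImplicit false

namespace Pool.Agent.MP_1c689d_ag.FP

noncomputable section

open Polynomial

theorem lift2_quad {F K L : Type} [Field F] [Field K] [Field L] [Algebra F K] [Algebra F L]
    (W : K) (W' : L) (c : F) (h : W ^ 2 = algebraMap F K c) (h' : W' ^ 2 = algebraMap F L c)
    (hn : W ∉ (algebraMap F K).range) (ht : IntermediateField.adjoin F {W} = ⊤) :
    ∃ j : K →ₐ[F] L, j W = W' := by
  have hm : (X ^ 2 - C c : F[X]).Monic := monic_X_pow_sub_C c two_ne_zero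
  have h0 : aeval W (X ^ 2 - C c : F[X]) = 0 := by simp [h]
  have hi : IsIntegral F W := ⟨_, hm, h0⟩
  have he : X ^ 2 - C c = minpoly F W :=
    eq_of_monic_of_dvd_of_natDegree_le (minpoly.monic hi) hm (minpoly.dvd F W h0) (by
      rw [natDegree_X_pow_sub_C]
      exact (minpoly.two_le_natDegree_iff hi).2 hn)
  have h1 : aeval W' (minpoly F (IntermediateField.adjoin.powerBasis hi).gen) = 0 := by
    rw [IntermediateField.adjoin.powerBasis_gen, IntermediateField.minpoly_gen, ← he]
    simp [h']
  refine ⟨((IntermediateField.adjoin.powerBasis hi).lift W' h1).comp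
    ((IntermediateField.equivOfEq ht).trans IntermediateField.topEquiv).symm.toAlgHom, ?_⟩
  exact (IntermediateField.adjoin.powerBasis hi).lift_gen W' h1

/-- Embedding a quadratic extension of a purely transcendental field.  Let
`K₀ = adjoin ℂ (range z)`; independence gives `j₀ : K₀ → L` with `z ↦ z'`
(`AlgebraicIndependent.aevalEquivField`, `IsFractionRing.liftAlgHom`).  If `W ∈ K₀` then
`K₀ = ⊤`.  Otherwise the minimal polynomial of `W` over `K₀` is `X² - p(z)/q(z)`, and
`IntermediateField.adjoin.powerBasis` / `AdjoinRoot.liftAlgHom` extends `j₀` with `W ↦ W'`. -/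
theorem lift2 {K L : Type} [Field K] [Field L] [Algebra ℂ K] [Algebra ℂ L] (z : Fin 3 → K)
    (hz : AlgebraicIndependent ℂ z) (W : K) (p q : MvPolynomial (Fin 3) ℂ) (hq : q ≠ 0)
    (he : W ^ 2 * MvPolynomial.aeval z q = MvPolynomial.aeval z p)
    (hgen : IntermediateField.adjoin ℂ (insert W (Set.range z)) = ⊤) (z' : Fin 3 → L)
    (hz' : AlgebraicIndependent ℂ z') (W' : L)
    (he' : W' ^ 2 * MvPolynomial.aeval z' q = MvPolynomial.aeval z' p) :
    IntermediateField.adjoin ℂ (Set.range z) = ⊤ ∨
      ∃ j : K →ₐ[ℂ] L, (∀ i, j (z i) = z' i) ∧ j W = W' := by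
  by_cases hW : W ∈ IntermediateField.adjoin ℂ (Set.range z)
  · refine Or.inl (top_le_iff.1 ?_)
    rw [← hgen, IntermediateField.adjoin_le_iff]
    exact Set.insert_subset hW (IntermediateField.subset_adjoin _ _)
  right
  let K₀ := IntermediateField.adjoin ℂ (Set.range z)
  let a : MvPolynomial (Fin 3) ℂ → K₀ := fun r => hz.aevalEquivField (algebraMap _ _ r)
  have ha : ∀ r, algebraMap K₀ K (a r) = MvPolynomial.aeval z r :=
    hz.aevalEquivField_algebraMap_apply_coe
  let j₀ : K₀ →ₐ[ℂ] L := (IntermediateField.val _).comp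
    (hz.aevalEquivField.symm.trans hz'.aevalEquivField).toAlgHom
  have hj : ∀ r, j₀ (a r) = MvPolynomial.aeval z' r := fun r => by
    rw [← hz'.aevalEquivField_algebraMap_apply_coe]
    exact congrArg (fun x => (hz'.aevalEquivField x : L)) (hz.aevalEquivField.symm_apply_apply _)
  let _ : Algebra K₀ L := j₀.toRingHom.toAlgebra
  have hq1 : MvPolynomial.aeval z q ≠ 0 := fun h =>
    hq (algebraicIndependent_iff.1 hz q h)
  have hq2 : MvPolynomial.aeval z' q ≠ 0 := fun h =>
    hq (algebraicIndependent_iff.1 hz' q h)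
  obtain ⟨j, hj1⟩ := lift2_quad (F := K₀) W W' (a p / a q)
    (by rw [map_div₀, ha, ha, eq_div_iff hq1, he])
    (by
      rw [map_div₀]
      show _ = j₀ (a p) / j₀ (a q)
      rw [hj, hj, eq_div_iff hq2, he'])
    (by
      rintro ⟨x, rfl⟩
      exact hW x.2)
    (by
      rw [← IntermediateField.restrictScalars_eq_top_iff (K := ℂ),
        IntermediateField.adjoin_adjoin_left, Set.union_singleton, hgen])
  refine ⟨{ j.toRingHom with commutes' := fun r => ?_ }, fun i => ?_, hj1⟩
  · exact (j.commutes (algebraMap ℂ K₀ r)).trans (j₀.commutes r)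
  · have h1 := (j.commutes (a (MvPolynomial.X i))).trans (hj _)
    rw [ha, MvPolynomial.aeval_X, MvPolynomial.aeval_X] at h1
    exact h1

end

end Pool.Agent.MP_1c689d_ag.FP

end

section

set_option autoImplicit false

namespace Pool.Agent.MP_1c689d_ag.FP

noncomputable section

open Polynomial

variable {Ω E : Type} [Field Ω] [Field E] [Algebra ℂ Ω] [Algebra ℂ E] [Algebra Ω E]
  [IsScalarTower ℂ Ω E]
variable {K : Type} [Field K] [Algebra ℂ K]

end

end Pool.Agent.MP_1c689d_ag.FP

end
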