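import Pool.Agent.Mg.F1c689d.G9a22e1

set_option linter.all false


section

set_option autoImplicit false

namespace Pool.Agent.MP_1c689d_ag.FP

noncomputable section

open Polynomial

variable {F : Type} [Field F] [Algebra ℂ F] {N : ℕ}

theorem ytop_aeval_mul {σ A : Type} [CommRing A] [Algebra ℂ A] {f : MvPolynomial σ ℂ} {d : ℕ}
    (hf : f.IsHomogeneous d) (c : A) (x : σ → A) :
    MvPolynomial.aeval (fun i => c * x i) f = c ^ d * MvPolynomial.aeval x f := by
  classical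
  rw [MvPolynomial.aeval_eq_eval₂Hom, MvPolynomial.aeval_eq_eval₂Hom,
    MvPolynomial.coe_eval₂Hom, MvPolynomial.coe_eval₂Hom, MvPolynomial.eval₂_eq,
    MvPolynomial.eval₂_eq, Finset.mul_sum]
  refine Finset.sum_congr rfl fun s hs => ?_
  rw [hf.degree_eq_sum_deg_support hs]
  simp only [mul_pow, Finset.prod_mul_distrib, Finset.prod_pow_eq_pow_sum]
  ring

theorem ytop_eval_smul {σ : Type} {f : MvPolynomial σ ℂ} {d : ℕ}
    (hf : f.IsHomogeneous d) (c : ℂ) (x : σ → ℂ) :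
    MvPolynomial.eval (c • x) f = c ^ d * MvPolynomial.eval x f := by
  rw [← MvPolynomial.coe_aeval_eq_eval, ← MvPolynomial.coe_aeval_eq_eval]
  exact ytop_aeval_mul hf c x

/-- scaling on the cone -/
def ytop_sm (ξ : Fin (N + 1) → F) (c : ℂ) (hc : c ≠ 0) (x : Cn ξ) : Cn ξ :=
  ⟨c • x.1, smul_ne_zero hc x.2.1, fun d f hf h0 => by
    rw [ytop_eval_smul hf, x.2.2 d f hf h0, mul_zero]⟩

theorem ytop_sm_cont (ξ : Fin (N + 1) → F) (c : ℂ) (hc : c ≠ 0) : Continuous (ytop_sm ξ c hc) :=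
  Continuous.subtype_mk (continuous_subtype_val.const_smul c) _

/-- the sum of the squares of the absolute values of the coordinates -/
def ytop_S (x : Fin (N + 1) → ℂ) : ℂ := ∑ l, x l * (starRingEnd ℂ) (x l)

theorem ytop_S_ne {x : Fin (N + 1) → ℂ} (hx : x ≠ 0) : ytop_S x ≠ 0 := by
  intro h
  apply hx
  have h1 : ytop_S x = ((∑ l, Complex.normSq (x l) : ℝ) : ℂ) := by
    simp [ytop_S, Complex.mul_conj]
  rw [h1, Complex.ofReal_eq_zero,
    Finset.sum_eq_zero_iff_of_nonneg fun l _ => Complex.normSq_nonneg _] at h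
  funext l
  exact Complex.normSq_eq_zero.1 (h l (Finset.mem_univ l))

theorem ytop_S_smul (c : ℂ) (x : Fin (N + 1) → ℂ) :
    ytop_S (c • x) = c * (starRingEnd ℂ) c * ytop_S x := by
  simp only [ytop_S, Finset.mul_sum, Pi.smul_apply, smul_eq_mul, map_mul]
  exact Finset.sum_congr rfl fun l _ => by ring

theorem ytop_S_cont : Continuous (ytop_S : (Fin (N + 1) → ℂ) → ℂ) :=
  continuous_finsetSum _ fun l _ =>
    (continuous_apply l).mul (Complex.continuous_conj.comp (continuous_apply l))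

/-- the orthogonal projector onto the line spanned by `x` -/
def ytop_P (x : Fin (N + 1) → ℂ) (i j : Fin (N + 1)) : ℂ :=
  x i * (starRingEnd ℂ) (x j) / ytop_S x

theorem ytop_P_smul {c : ℂ} (hc : c ≠ 0) {x : Fin (N + 1) → ℂ} (hx : x ≠ 0) :
    ytop_P (c • x) = ytop_P x := by
  funext i j
  have h1 := ytop_S_ne hx
  have h2 : (starRingEnd ℂ) c ≠ 0 := by simpa using hc
  simp only [ytop_P, ytop_S_smul, Pi.smul_apply, smul_eq_mul, map_mul]
  field_simp

theorem ytop_P_inj {x y : Fin (N + 1) → ℂ} (hx : x ≠ 0) (hy : y ≠ 0)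
    (h : ytop_P x = ytop_P y) : ∃ c : ℂ, c ≠ 0 ∧ x = c • y := by
  have h1 := ytop_S_ne hx
  have h2 := ytop_S_ne hy
  obtain ⟨j, hj⟩ := Function.ne_iff.1 hx
  have hj' : (starRingEnd ℂ) (x j) ≠ 0 := by simpa using hj
  have h3 : x = ((starRingEnd ℂ) (y j) * ytop_S x / (ytop_S y * (starRingEnd ℂ) (x j))) • y := by
    funext i
    have h4 := congrFun (congrFun h i) j
    simp only [ytop_P] at h4
    rw [div_eq_div_iff h1 h2] at h4
    simp only [Pi.smul_apply, smul_eq_mul]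
    field_simp
    linear_combination h4
  refine ⟨_, fun h0 => hx ?_, h3⟩
  rw [h3, h0, zero_smul]

theorem mk_eq_iff (ξ : Fin (N + 1) → F) (x y : Cn ξ) :
    Quotient.mk (rl ξ) x = Quotient.mk (rl ξ) y ↔ ∃ c : ℂ, c ≠ 0 ∧ x.1 = c • y.1 := by
  rw [Quotient.eq]
  change Projectivization.mk ℂ x.1 x.2.1 = Projectivization.mk ℂ y.1 y.2.1 ↔ _
  rw [Projectivization.mk_eq_mk_iff']
  constructor
  · rintro ⟨c, hc⟩
    refine ⟨c, fun h0 => x.2.1 ?_, hc.symm⟩
    rw [← hc, h0, zero_smul]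
  · rintro ⟨c, -, hc⟩
    exact ⟨c, hc.symm⟩

theorem mk_isOpenQuotientMap (ξ : Fin (N + 1) → F) :
    IsOpenQuotientMap (Quotient.mk (rl ξ) : Cn ξ → Pt ξ) := by
  refine ⟨Quotient.mk_surjective, continuous_quot_mk, fun U hU => ?_⟩
  refine (isQuotientMap_quot_mk (r := rl ξ)).isOpen_preimage.1 ?_
  have e : Quotient.mk (rl ξ) ⁻¹' (Quotient.mk (rl ξ) '' U) =
      ⋃ c : {c : ℂ // c ≠ 0}, ytop_sm ξ c.1 c.2 ⁻¹' U := by
    ext x
    simp only [Set.mem_preimage, Set.mem_image, Set.mem_iUnion]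
    constructor
    · rintro ⟨y, hy, e⟩
      obtain ⟨c, hc, h⟩ := (mk_eq_iff ξ y x).1 e
      refine ⟨⟨c, hc⟩, ?_⟩
      have : ytop_sm ξ c hc x = y := Subtype.ext h.symm
      rw [this]
      exact hy
    · rintro ⟨c, hc⟩
      exact ⟨_, hc, (mk_eq_iff ξ _ x).2 ⟨c.1, c.2, rfl⟩⟩
  have h := isOpen_iUnion fun c : {c : ℂ // c ≠ 0} => hU.preimage (ytop_sm_cont ξ c.1 c.2)
  rw [← e] at h
  exact h

/-- `Y(ℂ)` is the image of the compact set of unit vectors of the cone. -/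
theorem pt_compact (ξ : Fin (N + 1) → F) : CompactSpace (Pt ξ) := by
  have hK : IsCompact {x : Cn ξ | ‖x.1‖ = 1} := by
    rw [Subtype.isCompact_iff]
    have e : Subtype.val '' {x : Cn ξ | ‖x.1‖ = 1} = Metric.sphere 0 1 ∩
        ⋂ p : {p : ℕ × MvPolynomial (Fin (N + 1)) ℂ //
          p.2.IsHomogeneous p.1 ∧ MvPolynomial.aeval ξ p.2 = 0},
          {v | MvPolynomial.eval v p.1.2 = 0} := by
      ext v
      simp only [Set.mem_image, Set.mem_inter_iff, Set.mem_iInter, mem_sphere_zero_iff_norm,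
        Set.mem_ofPred_eq]
      constructor
      · rintro ⟨x, hx, rfl⟩
        exact ⟨hx, fun p => x.2.2 _ _ p.2.1 p.2.2⟩
      · rintro ⟨h1, h2⟩
        refine ⟨⟨v, ?_, fun d f hf h0 => h2 ⟨(d, f), hf, h0⟩⟩, h1, rfl⟩
        rintro rfl
        simp at h1
    rw [e]
    exact (isCompact_sphere _ _).inter_right (isClosed_iInter fun p =>
      isClosed_eq (MvPolynomial.continuous_eval _) continuous_const)
  refine ⟨?_⟩
  have e : (Set.univ : Set (Pt ξ)) = Quotient.mk (rl ξ) '' {x : Cn ξ | ‖x.1‖ = 1} := by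
    refine (Set.eq_univ_of_forall fun y => ?_).symm
    obtain ⟨x, rfl⟩ := Quotient.exists_rep y
    have h0 : ‖x.1‖ ≠ 0 := norm_ne_zero_iff.2 x.2.1
    have hc : ((‖x.1‖⁻¹ : ℝ) : ℂ) ≠ 0 := by simpa using x.2.1
    refine ⟨ytop_sm ξ _ hc x, ?_, (mk_eq_iff ξ _ x).2 ⟨_, hc, rfl⟩⟩
    change ‖((‖x.1‖⁻¹ : ℝ) : ℂ) • x.1‖ = 1
    rw [norm_smul, Complex.norm_real, norm_inv, norm_norm, inv_mul_cancel₀ h0]
  rw [e]
  exact hK.image (mk_isOpenQuotientMap ξ).continuous

/-- `x ↦ (x i * conj (x j) / ∑ ‖x l‖²)` descends to a continuous injective map from the compact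
space `Pt ξ` to a metric space, hence an embedding (`Continuous.isClosedEmbedding`,
`Topology.IsEmbedding.metrizableSpace`). -/
theorem pt_metrizable (ξ : Fin (N + 1) → F) : TopologicalSpace.MetrizableSpace (Pt ξ) := by
  have := pt_compact ξ
  let Φ : Pt ξ → Fin (N + 1) → Fin (N + 1) → ℂ :=
    Quotient.lift (fun x : Cn ξ => ytop_P x.1) fun x y h => by
      obtain ⟨c, hc, e⟩ := (mk_eq_iff ξ x y).1 (Quotient.sound h)
      rw [e, ytop_P_smul hc y.2.1]
  have hc : Continuous Φ := by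
    rw [← (mk_isOpenQuotientMap ξ).continuous_comp_iff]
    refine continuous_pi fun i => continuous_pi fun j => ?_
    change Continuous fun x : Cn ξ => x.1 i * (starRingEnd ℂ) (x.1 j) / ytop_S x.1
    refine Continuous.div ?_ (ytop_S_cont.comp continuous_subtype_val) fun x => ytop_S_ne x.2.1
    exact ((continuous_apply i).comp continuous_subtype_val).mul
      (Complex.continuous_conj.comp ((continuous_apply j).comp continuous_subtype_val))
  have hi : Function.Injective Φ := by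
    intro a b h
    obtain ⟨x, rfl⟩ := Quotient.exists_rep a
    obtain ⟨y, rfl⟩ := Quotient.exists_rep b
    exact (mk_eq_iff ξ x y).2 (ytop_P_inj x.2.1 y.2.1 h)
  exact (hc.isClosedEmbedding hi).isEmbedding.metrizableSpace

theorem mem_Zop (ξ : Fin (N + 1) → F) {Q : MvPolynomial (Fin (N + 1)) ℂ} {d : ℕ}
    (hQ : Q.IsHomogeneous d) (x : Cn ξ) :
    Quotient.mk (rl ξ) x ∈ Zop ξ Q ↔ MvPolynomial.eval x.1 Q ≠ 0 := by
  constructor
  · rintro ⟨y, e, hy⟩ h0
    obtain ⟨c, -, h⟩ := (mk_eq_iff ξ y x).1 e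
    apply hy
    rw [h, ytop_eval_smul hQ, h0, mul_zero]
  · intro h
    exact ⟨x, rfl, h⟩

/-- homogenisation: `g = ∑ e ≤ d, X i ^ (d - e) * homogeneousComponent e f`, `d = totalDegree f` -/
theorem exists_homog (i : Fin (N + 1)) (f : MvPolynomial (Fin (N + 1)) ℂ) :
    ∃ (d : ℕ) (g : MvPolynomial (Fin (N + 1)) ℂ), g.IsHomogeneous d ∧
      ∀ (A : Type) [CommRing A] [Algebra ℂ A] (x : Fin (N + 1) → A), x i = 1 →
        MvPolynomial.aeval x g = MvPolynomial.aeval x f := by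
  refine ⟨f.totalDegree, ∑ e ∈ Finset.range (f.totalDegree + 1),
    MvPolynomial.X i ^ (f.totalDegree - e) * MvPolynomial.homogeneousComponent e f, ?_, ?_⟩
  · refine MvPolynomial.IsHomogeneous.sum _ _ _ fun e he => ?_
    have h1 := (MvPolynomial.isHomogeneous_X_pow (R := ℂ) i (f.totalDegree - e)).mul
      (MvPolynomial.homogeneousComponent_isHomogeneous e f)
    rwa [Nat.sub_add_cancel (Nat.lt_succ_iff.1 (Finset.mem_range.1 he))] at h1
  · intro A _ _ x hx
    conv_rhs => rw [← MvPolynomial.sum_homogeneousComponent f]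
    simp only [map_sum, map_mul, map_pow, MvPolynomial.aeval_X, hx, one_pow, one_mul]

/-- The affine chart.  The inverse sends the class of `y` with `y i ≠ 0` to the algebra map
`R → ℂ`, `x j ↦ y j / y i` (well defined by `exists_homog`: `R` is the range of `aeval x`, and a
polynomial that kills `x` kills `y / y i`); it is continuous by `Pts.continuous_of_adjoin` and
`mk_isOpenQuotientMap`.  Use `Topology.IsOpenEmbedding.of_continuous_injective_isOpenMap` or an
explicit homeomorphism onto the open set `Zop ξ (X i)`. -/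
theorem chart_embedding (ξ : Fin (N + 1) → F) {Ω : Type} [Field Ω] [Algebra ℂ Ω]
    (x : Fin (N + 1) → Ω) (i : Fin (N + 1)) (hi : x i = 1)
    (hx : ∀ (d : ℕ) (f : MvPolynomial (Fin (N + 1)) ℂ), f.IsHomogeneous d →
      MvPolynomial.aeval x f = 0 → MvPolynomial.aeval ξ f = 0)
    (hp : IsPt ξ x) (R : Subalgebra ℂ Ω) (hR : R = Algebra.adjoin ℂ (Set.range x))
    (hm : ∀ j, x j ∈ R) :
    Topology.IsOpenEmbedding (ev ξ R x hp hm) ∧
      Set.range (ev ξ R x hp hm) = Zop ξ (MvPolynomial.X i) := by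
  let x' : Fin (N + 1) → R := fun j => ⟨x j, hm j⟩
  have hval : ∀ f : MvPolynomial (Fin (N + 1)) ℂ,
      ((MvPolynomial.aeval x' f : R) : Ω) = MvPolynomial.aeval x f := fun f =>
    MvPolynomial.comp_aeval_apply (f := x') R.val f
  have hsurj : Function.Surjective (MvPolynomial.aeval x' : _ →ₐ[ℂ] R) := by
    intro r
    have hr : r.1 ∈ Algebra.adjoin ℂ (Set.range x) := hR ▸ r.2
    rw [Algebra.adjoin_range_eq_range_aeval] at hr
    obtain ⟨f, hf⟩ := hr
    exact ⟨f, Subtype.ext ((hval f).trans hf)⟩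
  have htop : Algebra.adjoin ℂ (Set.range x') = ⊤ := by
    rw [Algebra.adjoin_range_eq_range_aeval, AlgHom.range_eq_top]
    exact hsurj
  have hone : x' i = 1 := Subtype.ext hi
  have hex : ∀ y : {y : Cn ξ // y.1 i ≠ 0}, ∃ p : Pts R, ∀ j,
      p.h (x' j) = (y.1.1 i)⁻¹ * y.1.1 j := by
    intro y
    have hker : RingHom.ker (MvPolynomial.aeval x' : _ →ₐ[ℂ] R).toRingHom ≤
        RingHom.ker (MvPolynomial.aeval fun j => (y.1.1 i)⁻¹ * y.1.1 j :
          MvPolynomial (Fin (N + 1)) ℂ →ₐ[ℂ] ℂ).toRingHom := by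
      intro f hf
      have hf' : MvPolynomial.aeval x' f = 0 := hf
      have h1 : MvPolynomial.aeval x f = 0 := by rw [← hval, hf']; rfl
      obtain ⟨d, g, hg, hfg⟩ := exists_homog i f
      have h2 := y.1.2.2 d g hg (hx d g hg ((hfg Ω x hi).trans h1))
      change MvPolynomial.aeval (fun j => (y.1.1 i)⁻¹ * y.1.1 j) f = 0
      rw [← hfg ℂ _ (inv_mul_cancel₀ y.2), ytop_aeval_mul hg, MvPolynomial.aeval_eq_eval, h2,
        mul_zero]
    refine ⟨Pts.mk (AlgHom.liftOfSurjective _ hsurj _ hker), fun j => ?_⟩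
    have h3 := AlgHom.liftOfSurjective_apply _ hsurj _ hker (MvPolynomial.X j)
    simpa using h3
  choose g hg using hex
  have hgc : Continuous g := by
    refine Pts.continuous_of_adjoin g _ htop ?_
    rintro _ ⟨j, rfl⟩
    simp only [hg]
    have hc : ∀ k, Continuous fun y : {y : Cn ξ // y.1 i ≠ 0} => y.1.1 k := fun k =>
      (continuous_apply k).comp (continuous_subtype_val.comp continuous_subtype_val)
    exact ((hc i).inv₀ fun y => y.2).mul (hc j)
  have heg : ∀ y, ev ξ R x hp hm (g y) = Quotient.mk (rl ξ) y.1 := fun y =>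
    (mk_eq_iff ξ _ _).2 ⟨(y.1.1 i)⁻¹, inv_ne_zero y.2, funext fun j => hg y j⟩
  have hev1 : ∀ p : Pts R, (evC ξ R x hp hm p).1 i = 1 := fun p => by
    change p.h (x' i) = 1
    rw [hone, map_one]
  have hinj : Function.Injective (ev ξ R x hp hm) := by
    intro p q h
    obtain ⟨c, -, hc⟩ := (mk_eq_iff ξ _ _).1 h
    have h1 := congrFun hc i
    rw [Pi.smul_apply, hev1, hev1, smul_eq_mul, mul_one] at h1
    rw [← h1, one_smul] at hc
    have h2 : p.h = q.h := AlgHom.ext_of_adjoin_eq_top htop (by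
      rintro _ ⟨j, rfl⟩
      exact congrFun hc j)
    exact h2
  have hne : ∀ (p : Pts R) (y : Cn ξ), ev ξ R x hp hm p = Quotient.mk (rl ξ) y → y.1 i ≠ 0 := by
    intro p y h h0
    obtain ⟨c, -, hc⟩ := (mk_eq_iff ξ _ _).1 h
    have h1 := congrFun hc i
    rw [Pi.smul_apply, hev1, h0, smul_zero] at h1
    exact one_ne_zero h1
  have hopen : IsOpen {y : Cn ξ | y.1 i ≠ 0} :=
    isOpen_ne_fun ((continuous_apply i).comp continuous_subtype_val) continuous_const
  refine ⟨Topology.IsOpenEmbedding.of_continuous_injective_isOpenMap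
    (ev ξ R x hp hm).continuous hinj fun U hU => ?_, ?_⟩
  · rw [← (mk_isOpenQuotientMap ξ).isQuotientMap.isOpen_preimage]
    have e : Quotient.mk (rl ξ) ⁻¹' (ev ξ R x hp hm '' U) = Subtype.val '' (g ⁻¹' U) := by
      ext y
      constructor
      · rintro ⟨p, hpU, e⟩
        refine ⟨⟨y, hne p y e⟩, ?_, rfl⟩
        have : g ⟨y, hne p y e⟩ = p := hinj ((heg _).trans e.symm)
        rw [Set.mem_preimage, this]
        exact hpU
      · rintro ⟨z, hz, rfl⟩
        exact ⟨g z, hz, heg z⟩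
    rw [e]
    exact hopen.isOpenMap_subtype_val _ (hU.preimage hgc)
  · ext y
    obtain ⟨y, rfl⟩ := Quotient.exists_rep y
    rw [mem_Zop ξ (MvPolynomial.isHomogeneous_X ℂ i), MvPolynomial.eval_X]
    exact ⟨fun ⟨p, h⟩ => hne p y h, fun h => ⟨g ⟨y, h⟩, heg _⟩⟩

/-- the normalised generic point, moved by a field embedding, is a point with the same equations -/
theorem isPt_hom (ξ : Fin (N + 1) → F) {Ω : Type} [Field Ω] [Algebra ℂ Ω] (j : F →ₐ[ℂ] Ω)
    (i : Fin (N + 1)) (hi : ξ i ≠ 0) :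
    IsPt ξ (fun k => j (ξ k / ξ i)) ∧
      ∀ (d : ℕ) (f : MvPolynomial (Fin (N + 1)) ℂ), f.IsHomogeneous d →
        MvPolynomial.aeval (fun k => j (ξ k / ξ i)) f = 0 → MvPolynomial.aeval ξ f = 0 := by
  have key : ∀ (d : ℕ) (f : MvPolynomial (Fin (N + 1)) ℂ), f.IsHomogeneous d →
      MvPolynomial.aeval (fun k => j (ξ k / ξ i)) f =
        j ((ξ i)⁻¹ ^ d * MvPolynomial.aeval ξ f) := by
    intro d f hf
    rw [← ytop_aeval_mul hf, MvPolynomial.comp_aeval_apply]
    simp only [div_eq_inv_mul]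
  refine ⟨⟨⟨i, by simp only [div_self hi, map_one]⟩, fun d f hf h0 => ?_⟩, fun d f hf h0 => ?_⟩
  · rw [key d f hf, h0, mul_zero, map_zero]
  · rw [key d f hf, map_eq_zero] at h0
    exact (mul_eq_zero.1 h0).resolve_left (pow_ne_zero _ (inv_ne_zero hi))

theorem ev_res (ξ : Fin (N + 1) → F) {Ω : Type} [Field Ω] [Algebra ℂ Ω] {R R' : Subalgebra ℂ Ω}
    (h : R ≤ R') (x : Fin (N + 1) → Ω) (hx : IsPt ξ x) (hR : ∀ i, x i ∈ R) (hR' : ∀ i, x i ∈ R') :
    (ev ξ R x hx hR).comp (res (Subalgebra.inclusion h)) = ev ξ R' x hx hR' := by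
  ext p
  rfl

end

end Pool.Agent.MP_1c689d_ag.FP

end

section

set_option autoImplicit false

namespace Pool.Agent.MP_1c689d_ag.FP

noncomputable section

open Polynomial

variable {Ω E : Type} [Field Ω] [Field E] [Algebra ℂ Ω] [Algebra ℂ E] [Algebra Ω E]
  [IsScalarTower ℂ Ω E]
variable {F : Type} [Field F] [Algebra ℂ F] {N : ℕ}

/-- the valuation ring as a complex algebra -/
def NdO (P : Place Ω E) : Subalgebra ℂ E :=
  { P.O.toSubring with
    algebraMap_mem' := fun c => by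
      rw [IsScalarTower.algebraMap_apply ℂ Ω E]
      exact P.mem _ }

/-- the residue map as a map of complex algebras -/
def NdRho (P : Place Ω E) : NdO P →ₐ[ℂ] Ω where
  toFun x := P.ρ ⟨x.1, x.2⟩
  map_one' := P.ρ.map_one
  map_zero' := P.ρ.map_zero
  map_mul' x y := P.ρ.map_mul ⟨x.1, x.2⟩ ⟨y.1, y.2⟩
  map_add' x y := P.ρ.map_add ⟨x.1, x.2⟩ ⟨y.1, y.2⟩
  commutes' c := by
    rw [← P.ρ_alg (algebraMap ℂ Ω c)]
    congr 1
    apply Subtype.ext
    exact IsScalarTower.algebraMap_apply ℂ Ω E c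

theorem Nd_inv (P : Place Ω E) {x : E} (h : x ∈ P.O) (h0 : P.ρ ⟨x, h⟩ ≠ 0) :
    x ≠ 0 ∧ x⁻¹ ∈ P.O := by
  have hu : IsUnit (⟨x, h⟩ : P.O) := by
    by_contra hu
    exact h0 ((P.ker _).2 hu)
  obtain ⟨y, hy⟩ := hu.exists_right_inv
  have h1 : x * (y : E) = 1 := congrArg Subtype.val hy
  refine ⟨left_ne_zero_of_mul_eq_one h1, ?_⟩
  rw [← eq_inv_of_mul_eq_one_right h1]
  exact y.2

theorem Nd_scale {A : Type} [CommRing A] [Algebra ℂ A] {f : MvPolynomial (Fin (N + 1)) ℂ} {d : ℕ}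
    (hf : f.IsHomogeneous d) (e : A) (x : Fin (N + 1) → A) :
    MvPolynomial.aeval (fun i => e * x i) f = e ^ d * MvPolynomial.aeval x f := by
  rw [MvPolynomial.aeval_def, MvPolynomial.aeval_def, MvPolynomial.eval₂_eq, MvPolynomial.eval₂_eq,
    Finset.mul_sum]
  refine Finset.sum_congr rfl fun s hs => ?_
  rw [hf.degree_eq_sum_deg_support hs]
  simp only [mul_pow, Finset.prod_mul_distrib, Finset.prod_pow_eq_pow_sum]
  ring

theorem Nd_cons {n : ℕ} {w : Fin n → Ω} (hw : AlgebraicIndependent ℂ w) {c : Ω}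
    (hc : c ∉ acl (Set.range w)) : AlgebraicIndependent ℂ (Matrix.vecCons c w) := by
  rw [mem_acl_iff_adjoin] at hc
  have h1 := ((hw.option_iff_transcendental c).2 hc).comp (finSuccEquiv n) (finSuccEquiv n).injective
  convert h1 using 1
  funext i
  refine Fin.cases ?_ (fun i => ?_) i <;> simp

theorem Nd_ex (h3 : Algebra.trdeg ℂ Ω = 3) (a : Ω) : ∃ b, b ∉ acl ({a} : Set Ω) := by
  by_contra h
  have h1 : acl (Set.range fun _ : Fin 3 => a) = ⊤ := by
    rw [Set.range_const, eq_top_iff]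
    intro b _
    by_contra hb
    exact h ⟨b, hb⟩
  have h2 := (indep_of_acl_top h3 _ h1).injective (a₁ := 0) (a₂ := 1) rfl
  simp at h2

/-- divide by a coordinate of maximal valuation -/
theorem exists_spec (P : Place Ω E) (x : Fin (N + 1) → E) (hx : ∃ i, x i = 1) :
    ∃ z, P.Spec x z := by
  obtain ⟨l, -, hl⟩ := Finset.exists_max_image Finset.univ (fun k => P.O.valuation (x k))
    Finset.univ_nonempty
  obtain ⟨i, hi⟩ := hx
  have h0 : x l ≠ 0 := by
    intro h
    have := hl i (Finset.mem_univ i)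
    rw [hi, h, map_one, map_zero] at this
    exact absurd this (by simp)
  have hm : ∀ k, (x l)⁻¹ * x k ∈ P.O := fun k => by
    rw [← P.O.valuation_le_one_iff, map_mul, map_inv₀,
      inv_mul_le_one₀ (zero_lt_iff.2 ((_root_.map_ne_zero _).2 h0))]
    exact hl k (Finset.mem_univ k)
  refine ⟨fun k => P.ρ ⟨_, hm k⟩, ⟨l, ?_⟩, (x l)⁻¹, fun k => ⟨hm k, rfl⟩⟩
  exact (congrArg P.ρ (Subtype.ext (inv_mul_cancel₀ h0))).trans P.ρ.map_one

/-- `f (e • x) = e^d * f x = 0` holds in `P.O`, apply `P.ρ` (a `ℂ`-algebra map) -/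
theorem spec_isPt (P : Place Ω E) (ξ : Fin (N + 1) → F) {x : Fin (N + 1) → E}
    {z : Fin (N + 1) → Ω} (hx : IsPt ξ x) (h : P.Spec x z) : IsPt ξ z := by
  obtain ⟨h1, e, he⟩ := h
  refine ⟨h1, fun d f hf h0 => ?_⟩
  choose hm hz using he
  have h2 : MvPolynomial.aeval (fun i => (⟨e * x i, hm i⟩ : NdO P)) f = 0 := by
    apply Subtype.val_injective
    have := MvPolynomial.comp_aeval_apply (f := fun i => (⟨e * x i, hm i⟩ : NdO P)) (NdO P).val f
    simp only [Subalgebra.coe_val] at this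
    rw [this, Nd_scale hf, hx.2 d f hf h0, mul_zero]
    rfl
  have := MvPolynomial.comp_aeval_apply (f := fun i => (⟨e * x i, hm i⟩ : NdO P)) (NdRho P) f
  rw [h2, map_zero] at this
  rw [this]
  congr 2
  funext i
  exact (hz i).symm

/-- every element of `F` is a quotient of two elements of the chart -/
theorem chart_frac (ξ : Fin (N + 1) → F)
    (hF : IntermediateField.adjoin ℂ
      (Set.range fun p : Fin (N + 1) × Fin (N + 1) => ξ p.1 / ξ p.2) = ⊤)
    (i : Fin (N + 1)) (hi : ξ i ≠ 0) : IsFractionRing (chart ξ i) F := by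
  have h1 : IntermediateField.adjoin ℂ (Set.range fun j => ξ j / ξ i) = ⊤ := by
    rw [eq_top_iff, ← hF, IntermediateField.adjoin_le_iff]
    rintro _ ⟨p, rfl⟩
    have : ξ p.1 / ξ p.2 = (ξ p.1 / ξ i) / (ξ p.2 / ξ i) := by
      rw [div_div_div_cancel_right₀ hi]
    rw [SetLike.mem_coe]
    dsimp only
    rw [this]
    exact div_mem (IntermediateField.subset_adjoin _ _ ⟨p.1, rfl⟩)
      (IntermediateField.subset_adjoin _ _ ⟨p.2, rfl⟩)
  refine IsFractionRing.of_field _ _ fun x => ?_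
  obtain ⟨r, hr, s, hs, h⟩ := IntermediateField.mem_adjoin_iff_div.1
    (h1 ▸ IntermediateField.mem_top (x := x))
  exact ⟨⟨r, hr⟩, ⟨s, hs⟩, h⟩

/-- A set without three algebraically independent elements lies in the closure of an independent
pair (matroid argument, `AlgebraicIndependent.matroid`, or choose greedily with
`AlgebraicIndependent.option_iff` / `algebraicIndependent_iff…` and the fact that `Ω` has three
independent elements). -/
theorem exists_pair (h3 : Algebra.trdeg ℂ Ω = 3) (S : Set Ω)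
    (hS : ∀ w : Fin 3 → Ω, (∀ i, w i ∈ S) → ¬ AlgebraicIndependent ℂ w) :
    ∃ a b : Ω, AlgebraicIndependent ℂ ![a, b] ∧ ∀ x ∈ S, x ∈ acl {a, b} := by
  by_cases h2 : ∃ a ∈ S, ∃ b ∈ S, AlgebraicIndependent ℂ ![a, b]
  · obtain ⟨a, ha, b, hb, hab⟩ := h2
    refine ⟨a, b, hab, fun x hx => ?_⟩
    by_contra h
    refine hS ![x, a, b] (fun i => ?_) (Nd_cons hab (by simpa [Set.pair_comm] using h))
    fin_cases i <;> assumption
  · have h0 : AlgebraicIndependent ℂ (![] : Fin 0 → Ω) := algebraicIndependent_empty_type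
    obtain ⟨a, ha, hs⟩ : ∃ a : Ω, AlgebraicIndependent ℂ ![a] ∧ ∀ x ∈ S, x ∈ acl {a} := by
      by_cases h1 : ∃ a ∈ S, AlgebraicIndependent ℂ ![a]
      · obtain ⟨a, ha, h1⟩ := h1
        refine ⟨a, h1, fun x hx => ?_⟩
        by_contra h
        exact h2 ⟨x, hx, a, ha, Nd_cons h1 (by simpa using h)⟩
      · obtain ⟨a, ha⟩ := Nd_ex h3 0
        refine ⟨a, Nd_cons h0 fun h => ha (acl_mono (by simp) h), fun x hx => ?_⟩
        by_contra h
        exact h1 ⟨x, hx, Nd_cons h0 fun h' => h (acl_mono (by simp) h')⟩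
    obtain ⟨b, hb⟩ := Nd_ex h3 a
    exact ⟨b, a, Nd_cons ha (by simpa using hb), fun x hx => acl_mono (by simp) (hs x hx)⟩

/-- Non-dominant specialisations.  Let `z l = 1`; then `e * j (ξ l / ξ i)` is a unit of `O`, so
`ξ l ≠ 0` and `j (ξ k / ξ l) ∈ O` specialises to `z k`: we get `ψ : chart ξ l →ₐ Ω` with
`ψ (ξ k / ξ l) = z k`.  If three of the `z k` were independent, their preimages `w` would be
independent in `F`, hence a transcendence basis; every non-zero `r` in the chart satisfies a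
polynomial over `ℂ[w]` with non-zero constant term, so `ψ r ≠ 0` and `j r` is a unit of `O`; by
`chart_frac` all of `F` would be mapped into `O`.  Conclude with `exists_pair`. -/
theorem spec_nondom (P : Place Ω E) (h3 : Algebra.trdeg ℂ Ω = 3) (hF3 : Algebra.trdeg ℂ F = 3)
    (ξ : Fin (N + 1) → F)
    (hF : IntermediateField.adjoin ℂ
      (Set.range fun p : Fin (N + 1) × Fin (N + 1) => ξ p.1 / ξ p.2) = ⊤)
    (i : Fin (N + 1)) (j : F →ₐ[ℂ] E) (hj : ¬ ∀ x, j x ∈ P.O) {z : Fin (N + 1) → Ω}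
    (h : P.Spec (fun k => j (ξ k / ξ i)) z) :
    ∃ a b : Ω, AlgebraicIndependent ℂ ![a, b] ∧ ∀ k, z k ∈ acl {a, b} := by
  obtain ⟨⟨l, hl⟩, e, he⟩ := h
  choose hm hz using he
  dsimp only at hm hz
  obtain ⟨u0, u1⟩ := Nd_inv P (hm l) (by rw [hz, hl]; exact one_ne_zero)
  have h1 : ξ l / ξ i ≠ 0 := fun h => u0 (by rw [h, map_zero, mul_zero])
  have hl0 : ξ l ≠ 0 := (div_ne_zero_iff.1 h1).1
  have hi0 : ξ i ≠ 0 := (div_ne_zero_iff.1 h1).2
  have e1 : ∀ k, j (ξ k / ξ l) * (e * j (ξ l / ξ i)) = e * j (ξ k / ξ i) := fun k => by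
    rw [mul_left_comm, ← map_mul, div_mul_div_cancel₀ hl0]
  have m1 : ∀ k, j (ξ k / ξ l) ∈ P.O := fun k => by
    rw [(eq_mul_inv_iff_mul_eq₀ u0).2 (e1 k)]
    exact mul_mem (hm k) u1
  have z1 : ∀ k, P.ρ ⟨_, m1 k⟩ = z k := fun k => by
    rw [← hz k, ← mul_one (P.ρ ⟨_, m1 k⟩), ← hl, ← hz l, ← map_mul]
    congr 1
    exact Subtype.ext (e1 k)
  have hle : ∀ r : chart ξ l, (j.comp (chart ξ l).val) r ∈ NdO P := fun r => by
    have : chart ξ l ≤ (NdO P).comap j := Algebra.adjoin_le (by rintro _ ⟨k, rfl⟩; exact m1 k)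
    exact this r.2
  let ψ : chart ξ l →ₐ[ℂ] Ω := (NdRho P).comp ((j.comp (chart ξ l).val).codRestrict _ hle)
  refine (exists_pair h3 (Set.range z) (fun w hw hind => ?_)).imp fun a => Exists.imp fun b h =>
    ⟨h.1, fun k => h.2 _ ⟨k, rfl⟩⟩
  choose κ hκ using hw
  let v : Fin 3 → chart ξ l := fun m => ⟨ξ (κ m) / ξ l, Algebra.subset_adjoin ⟨κ m, rfl⟩⟩
  have hv : ψ ∘ v = w := funext fun m => (z1 (κ m)).trans (hκ m)
  have iv : AlgebraicIndependent ℂ v := AlgebraicIndependent.of_comp ψ (hv ▸ hind)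
  have iv' := iv.map' (f := (chart ξ l).val) Subtype.val_injective
  have top := acl_top_of_indep hF3 _ iv'
  have hA : Algebra.adjoin ℂ (Set.range ((chart ξ l).val ∘ v)) ≤ chart ξ l :=
    Algebra.adjoin_le (by rintro _ ⟨m, rfl⟩; exact (v m).2)
  have hψ : ∀ r : chart ξ l, r ≠ 0 → ψ r ≠ 0 := by
    intro r hr h0
    letI : Algebra (Algebra.adjoin ℂ (Set.range ((chart ξ l).val ∘ v))) (chart ξ l) :=
      (Subalgebra.inclusion hA).toAlgebra
    haveI : IsScalarTower (Algebra.adjoin ℂ (Set.range ((chart ξ l).val ∘ v))) (chart ξ l) F :=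
      IsScalarTower.of_algebraMap_eq fun _ => rfl
    have a1 : IsAlgebraic (Algebra.adjoin ℂ (Set.range ((chart ξ l).val ∘ v)))
        (algebraMap (chart ξ l) F r) := mem_acl_iff_adjoin.1 (top ▸ IntermediateField.mem_top)
    rw [isAlgebraic_algebraMap_iff Subtype.val_injective] at a1
    obtain ⟨⟨c, hc⟩, c0, t, ht⟩ := a1.exists_nonzero_dvd (mem_nonZeroDivisors_of_ne_zero hr)
    have hc' := hc
    rw [Algebra.adjoin_range_eq_range_aeval] at hc'
    obtain ⟨q, hq⟩ := hc'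
    have hq' : MvPolynomial.aeval ((chart ξ l).val ∘ v) q = c := hq
    have a2 : MvPolynomial.aeval v q = r * t := by
      rw [← ht]
      apply Subtype.val_injective
      exact (MvPolynomial.comp_aeval_apply (f := v) (chart ξ l).val q).trans hq'
    have a3 : MvPolynomial.aeval w q = 0 := by
      have := MvPolynomial.comp_aeval_apply (f := v) ψ q
      rw [a2, map_mul, h0, zero_mul] at this
      rw [← hv]
      exact this.symm
    have a4 : q = 0 := algebraicIndependent_iff.1 hind q a3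
    apply c0
    apply Subtype.ext
    rw [a4, map_zero] at hq'
    exact hq'.symm
  apply hj
  intro x
  haveI := chart_frac ξ hF l hl0
  obtain ⟨r, s, hs, rfl⟩ := IsFractionRing.div_surjective (A := chart ξ l) x
  rw [map_div₀, div_eq_mul_inv]
  exact mul_mem (hle r) (Nd_inv P (hle s) (hψ s (nonZeroDivisors.ne_zero hs))).2

end

end Pool.Agent.MP_1c689d_ag.FP

end

section

set_option autoImplicit false

namespace Pool.Agent.MP_1c689d_ag.FP

noncomputable section

open Polynomial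

variable {R S : Type} [CommRing R] [Algebra ℂ R] [CommRing S] [Algebra ℂ S]
  {Ω : Type} [Field Ω] [Algebra ℂ Ω]

/-- Points of a localisation away from `δ` form the open set `δ ≠ 0`.  (`S` is a localisation
of `R` away from `δ` via `f.toAlgebra`; the inverse map is `IsLocalization.Away.lift`, and
`q.h x = p.h r / p.h δ ^ n` shows continuity of the inverse.) -/
theorem loc_embedding (f : R →ₐ[ℂ] S) (δ : R) (hu : IsUnit (f δ))
    (hs : ∀ x : S, ∃ (n : ℕ) (r : R), x * f δ ^ n = f r)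
    (hk : ∀ r, f r = 0 → ∃ n : ℕ, δ ^ n * r = 0) :
    Topology.IsOpenEmbedding (res f) ∧ Set.range (res f) = {p | p.h δ ≠ 0} := by
  have hne : ∀ q : Pts S, q.h (f δ) ≠ 0 := fun q => (hu.map q.h).ne_zero
  have hval : ∀ x : S, ∃ (n : ℕ) (r : R), ∀ q : Pts S,
      q.h x = (res f q).h r / (res f q).h δ ^ n := fun x => by
    obtain ⟨n, r, h⟩ := hs x
    refine ⟨n, r, fun q => ?_⟩
    rw [res_h, res_h, eq_div_iff (pow_ne_zero n (hne q)), ← h, map_mul, map_pow]
  have hcont : ∀ (X : Type) [TopologicalSpace X] (g : X → Pts S),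
      Continuous (fun x => res f (g x)) → Continuous g := by
    intro X _ g hg
    refine (Pts.continuous_iff g).2 fun x => ?_
    obtain ⟨n, r, h⟩ := hval x
    simp only [h]
    exact ((Pts.cont r).comp hg).div (((Pts.cont δ).comp hg).pow n)
      fun y => pow_ne_zero n (hne (g y))
  have hrange : Set.range (res f) = {p | p.h δ ≠ 0} := by
    refine Set.ext fun p => ⟨?_, fun hp => ?_⟩
    · rintro ⟨q, rfl⟩
      exact hne q
    · let _ : Algebra R S := (f : R →+* S).toAlgebra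
      have : IsLocalization.Away δ S := IsLocalization.Away.mk δ hu hs fun a b hab => by
        obtain ⟨n, hn⟩ := hk (a - b) (by rw [map_sub, sub_eq_zero]; exact hab)
        exact ⟨n, by rwa [mul_sub, sub_eq_zero] at hn⟩
      have hp' : IsUnit ((p.h : R →+* ℂ) δ) := isUnit_iff_ne_zero.2 hp
      have hl : ∀ r, IsLocalization.Away.lift (S := S) δ hp' (f r) = p.h r :=
        fun r => IsLocalization.Away.lift_eq δ hp' r
      refine ⟨Pts.mk { IsLocalization.Away.lift (S := S) δ hp' with commutes' := fun c => ?_ },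
        Pts.ext hl⟩
      rw [← f.commutes c]
      exact (hl _).trans (p.h.commutes c)
  refine ⟨⟨⟨⟨le_antisymm (continuous_iff_le_induced.1 (res f).continuous) ?_⟩, ?_⟩, ?_⟩, hrange⟩
  · exact continuous_id_iff_le.1 (@hcont (Pts S) (TopologicalSpace.induced (res f) inferInstance)
      id continuous_induced_dom)
  · intro q q' h
    refine Pts.ext fun x => ?_
    obtain ⟨n, r, hx⟩ := hval x
    rw [hx q, hx q', h]
  · rw [hrange]
    exact isOpen_ne_fun (Pts.cont δ) continuous_const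

theorem loc_sub (R₀ R₁ : Subalgebra ℂ Ω) (δ : Ω) (hδ : δ ∈ R₀) (h0 : δ ≠ 0)
    (h1 : R₁ = Algebra.adjoin ℂ (insert δ⁻¹ (R₀ : Set Ω))) (hle : R₀ ≤ R₁) :
    Topology.IsOpenEmbedding (res (Subalgebra.inclusion hle)) ∧
      Set.range (res (Subalgebra.inclusion hle)) = {p | p.h ⟨δ, hδ⟩ ≠ 0} := by
  have hinv : δ⁻¹ ∈ R₁ := h1 ▸ Algebra.subset_adjoin (Set.mem_insert _ _)
  refine loc_embedding (Subalgebra.inclusion hle) ⟨δ, hδ⟩
    (IsUnit.of_mul_eq_one ⟨δ⁻¹, hinv⟩ (Subtype.ext (mul_inv_cancel₀ h0))) (fun x => ?_)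
    fun r hr => ⟨0, ?_⟩
  · have key : ∀ y ∈ Algebra.adjoin ℂ (insert δ⁻¹ (R₀ : Set Ω)), ∃ n : ℕ, y * δ ^ n ∈ R₀ := by
      intro y hy
      induction hy using Algebra.adjoin_induction with
      | mem y hy =>
        rcases hy with rfl | hy
        · exact ⟨1, by rw [pow_one, inv_mul_cancel₀ h0]; exact one_mem _⟩
        · exact ⟨0, by rwa [pow_zero, mul_one]⟩
      | algebraMap c => exact ⟨0, by rw [pow_zero, mul_one]; exact R₀.algebraMap_mem c⟩
      | add y z _ _ hy hz =>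
        obtain ⟨n, hn⟩ := hy
        obtain ⟨m, hm⟩ := hz
        refine ⟨n + m, ?_⟩
        rw [show (y + z) * δ ^ (n + m) = y * δ ^ n * δ ^ m + z * δ ^ m * δ ^ n by ring]
        exact add_mem (mul_mem hn (pow_mem hδ _)) (mul_mem hm (pow_mem hδ _))
      | mul y z _ _ hy hz =>
        obtain ⟨n, hn⟩ := hy
        obtain ⟨m, hm⟩ := hz
        refine ⟨n + m, ?_⟩
        rw [show y * z * δ ^ (n + m) = y * δ ^ n * (z * δ ^ m) by ring]
        exact mul_mem hn hm
    obtain ⟨n, hn⟩ := key x (h1 ▸ x.2)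
    exact ⟨n, ⟨_, hn⟩, Subtype.ext rfl⟩
  · rw [pow_zero, one_mul]
    exact Subalgebra.inclusion_injective hle (hr.trans (map_zero _).symm)

theorem res_homeo (e : R ≃ₐ[ℂ] S) : IsHomeomorph (res (e : R →ₐ[ℂ] S)) := by
  exact isHomeomorph_iff_exists_inverse.2 ⟨(res _).continuous, res (e.symm : S →ₐ[ℂ] R),
    fun p => Pts.ext fun x => congrArg p.h (e.apply_symm_apply x),
    fun p => Pts.ext fun x => congrArg p.h (e.symm_apply_apply x), (res _).continuous⟩

theorem pts_mvPolynomial (n : ℕ) :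
    IsHomeomorph (fun (p : Pts (MvPolynomial (Fin n) ℂ)) (i : Fin n) =>
      p.h (MvPolynomial.X i)) := by
  refine isHomeomorph_iff_exists_inverse.2 ⟨continuous_pi fun i => Pts.cont _,
    fun v => Pts.mk (MvPolynomial.aeval v), fun p => ?_, fun v => ?_, ?_⟩
  · exact MvPolynomial.algHom_ext fun i => MvPolynomial.aeval_X _ i
  · exact funext fun i => MvPolynomial.aeval_X v i
  · refine Pts.continuous_of_adjoin _ _ MvPolynomial.adjoin_range_X ?_
    rintro _ ⟨i, rfl⟩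
    simp only [Pts.mk_h, MvPolynomial.aeval_X]
    exact continuous_apply i

theorem pts_indep {n : ℕ} (z : Fin n → Ω) (hz : AlgebraicIndependent ℂ z) (R₀ : Subalgebra ℂ Ω)
    (hR : R₀ = Algebra.adjoin ℂ (Set.range z)) (hm : ∀ i, z i ∈ R₀) :
    IsHomeomorph (fun (p : Pts R₀) (i : Fin n) => p.h ⟨z i, hm i⟩) := by
  subst hR
  have h := (pts_mvPolynomial n).comp (res_homeo hz.aevalEquiv)
  have e : ∀ i, hz.aevalEquiv (MvPolynomial.X i) = ⟨z i, hm i⟩ := fun i =>
    Subtype.ext ((hz.algebraMap_aevalEquiv _).trans (MvPolynomial.aeval_X z i))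
  simp only [← e]
  exact h

theorem Loc_nonempty (A : Type) [CommRing A] [Nontrivial A] [Algebra ℂ A]
    [Algebra.FiniteType ℂ A] : Nonempty (A →ₐ[ℂ] ℂ) := by
  obtain ⟨m, hm⟩ := Ideal.exists_maximal A
  let _ := Ideal.Quotient.field m
  have : Module.Finite ℂ (A ⧸ m) := finite_of_finite_type_of_isJacobsonRing ℂ (A ⧸ m)
  exact ⟨(IsAlgClosed.lift : (A ⧸ m) →ₐ[ℂ] ℂ).comp (Ideal.Quotient.mkₐ ℂ m)⟩

/-- Nullstellensatz: the residue field at a maximal ideal is finite over `ℂ`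
(`finite_of_finite_type_of_isJacobsonRing`), hence `ℂ`. -/
theorem pts_nonempty (R₀ : Subalgebra ℂ Ω) (h : R₀.FG) : Nonempty (Pts R₀) := by
  have : Algebra.FiniteType ℂ R₀ := (Subalgebra.fg_iff_finiteType _).1 h
  obtain ⟨φ⟩ := Loc_nonempty R₀
  exact ⟨Pts.mk φ⟩

theorem fg_insert (R₀ : Subalgebra ℂ Ω) (h : R₀.FG) (x : Ω) :
    (Algebra.adjoin ℂ (insert x (R₀ : Set Ω))).FG := by
  classical
  obtain ⟨s, rfl⟩ := h
  exact ⟨insert x s, by rw [Finset.coe_insert, Algebra.adjoin_insert_adjoin]⟩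

theorem pv_res {R₀ R₁ : Subalgebra ℂ Ω} (hle : R₀ ≤ R₁) (p : Pts R₁) {x : Ω} (hx : x ∈ R₀) :
    pv (res (Subalgebra.inclusion hle) p) x = pv p x := by
  rw [pv_eq _ hx, pv_eq _ (hle hx)]
  rfl

end

end Pool.Agent.MP_1c689d_ag.FP

end

section

set_option autoImplicit false

namespace Pool.Agent.MP_1c689d_ag.FP

noncomputable section

open Polynomial

variable {Ω : Type} [Field Ω] [Algebra ℂ Ω]

theorem Gcov_mem (R₁ : Subalgebra ℂ Ω) (θ : Ω) (f : R₁[X]) :
    aeval θ f ∈ Algebra.adjoin ℂ (insert θ (R₁ : Set Ω)) := by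
  rw [aeval_eq_sum_range]
  refine Subalgebra.sum_mem _ fun i _ => ?_
  rw [Algebra.smul_def]
  exact Subalgebra.mul_mem _ (Algebra.subset_adjoin (Set.mem_insert_of_mem _ (f.coeff i).2))
    (Subalgebra.pow_mem _ (Algebra.subset_adjoin (Set.mem_insert _ _)) _)

theorem Gcov_surj (R₁ : Subalgebra ℂ Ω) (θ : Ω) {x : Ω}
    (hx : x ∈ Algebra.adjoin ℂ (insert θ (R₁ : Set Ω))) : ∃ f : R₁[X], aeval θ f = x := by
  induction hx using Algebra.adjoin_induction with
  | mem x hx =>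
    rcases hx with rfl | hx
    · exact ⟨X, by simp⟩
    · exact ⟨C ⟨x, hx⟩, by simp⟩
  | algebraMap c => exact ⟨C (algebraMap ℂ R₁ c), by simp⟩
  | add x y _ _ hx hy =>
    obtain ⟨f, rfl⟩ := hx
    obtain ⟨g, rfl⟩ := hy
    exact ⟨f + g, by simp⟩
  | mul x y _ _ hx hy =>
    obtain ⟨f, rfl⟩ := hx
    obtain ⟨g, rfl⟩ := hy
    exact ⟨f * g, by simp⟩

/-- common denominators -/
theorem Gcov_den (R : Subalgebra ℂ Ω) (T : Finset Ω)
    (hT : ∀ x ∈ T, x ∈ IntermediateField.adjoin ℂ (R : Set Ω)) :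
    ∃ δ ∈ R, δ ≠ 0 ∧ ∀ x ∈ T, δ * x ∈ R := by
  classical
  induction T using Finset.induction_on with
  | empty => exact ⟨1, R.one_mem, one_ne_zero, by simp⟩
  | insert a T _ ih =>
    obtain ⟨δ, h1, h2, h3⟩ := ih fun x hx => hT x (Finset.mem_insert_of_mem hx)
    obtain ⟨r, hr, s, hs, ha⟩ :=
      IntermediateField.mem_adjoin_iff_div.1 (hT a (Finset.mem_insert_self _ _))
    rw [Algebra.adjoin_eq] at hr hs
    by_cases hs0 : s = 0
    · refine ⟨δ, h1, h2, fun x hx => ?_⟩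
      rcases Finset.mem_insert.1 hx with rfl | hx
      · simp [ha, hs0]
      · exact h3 x hx
    · refine ⟨s * δ, R.mul_mem hs h1, mul_ne_zero hs0 h2, fun x hx => ?_⟩
      rcases Finset.mem_insert.1 hx with rfl | hx
      · have : s * δ * x = r * δ := by
          rw [ha]
          field_simp
        rw [this]
        exact R.mul_mem hr h1
      · rw [mul_assoc]
        exact R.mul_mem hs (h3 x hx)

/-- the inclusion of a subalgebra in a subfield -/
def Gcov_inc (R : Subalgebra ℂ Ω) (K : IntermediateField ℂ Ω) (h : ∀ x ∈ R, x ∈ K) : R →+* K :=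
  (R.val : R →+* Ω).codRestrict K fun x => h x.1 x.2

theorem Gcov_inc_inj (R : Subalgebra ℂ Ω) (K : IntermediateField ℂ Ω) (h : ∀ x ∈ R, x ∈ K) :
    Function.Injective (Gcov_inc R K h) := fun _ _ hxy =>
  Subtype.ext (congrArg (fun z : K => (z : Ω)) hxy)

theorem Gcov_aeval (R : Subalgebra ℂ Ω) (K : IntermediateField ℂ Ω) (h : ∀ x ∈ R, x ∈ K) (θ : Ω)
    (f : R[X]) : aeval θ (f.map (Gcov_inc R K h)) = aeval θ f := by
  rw [aeval_def, aeval_def, eval₂_map]
  rfl

theorem Gcov_lift (R : Subalgebra ℂ Ω) (K : IntermediateField ℂ Ω) (h : ∀ x ∈ R, x ∈ K)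
    (g : K[X]) (hg : ∀ i, (g.coeff i : Ω) ∈ R) : ∃ f : R[X], f.map (Gcov_inc R K h) = g :=
  (mem_lifts _).1 ((lifts_iff_coeff_lifts _).2 fun i => ⟨⟨_, hg i⟩, rfl⟩)

/-- Step 1: a monogenic étale extension is a finite covering on points.  `R₂ ≅ AdjoinRoot m`
(hypothesis `hmin`), so `Pts R₂` is homeomorphic to the root space of the family
`p ↦ m.map p.h`, which is separable because `u m + v m' = 1`; use `root_covering`. -/
theorem cov_monogenic (R₁ R₂ : Subalgebra ℂ Ω) (hle : R₁ ≤ R₂) (θ : Ω)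
    (h2 : R₂ = Algebra.adjoin ℂ (insert θ (R₁ : Set Ω))) (m : R₁[X]) (hm : m.Monic)
    (hsep : m.Separable) (h0 : aeval θ m = 0) (hmin : ∀ f : R₁[X], aeval θ f = 0 → m ∣ f) :
    IsCoveringMap (res (Subalgebra.inclusion hle)) ∧
      ∀ p, (res (Subalgebra.inclusion hle) ⁻¹' {p}).Finite ∧
        (res (Subalgebra.inclusion hle) ⁻¹' {p}).ncard = m.natDegree := by
  have hθ : θ ∈ R₂ := h2 ▸ Algebra.subset_adjoin (Set.mem_insert _ _)
  let φ : R₁[X] →ₐ[ℂ] R₂ := eval₂AlgHom (Subalgebra.inclusion hle) ⟨θ, hθ⟩ fun _ => Commute.all _ _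
  have hφ' : ∀ f, φ f = f.eval₂ (Subalgebra.inclusion hle : R₁ →+* R₂) ⟨θ, hθ⟩ := fun _ => rfl
  have hφ : ∀ f, (φ f : Ω) = aeval θ f := fun f => by
    rw [hφ', aeval_def]
    exact hom_eval₂ f (Subalgebra.inclusion hle : R₁ →+* R₂) (R₂.val : R₂ →+* Ω) ⟨θ, hθ⟩
  have hsurj : Function.Surjective φ := fun x => by
    obtain ⟨f, hf⟩ := Gcov_surj R₁ θ (h2.le x.2)
    exact ⟨f, Subtype.ext ((hφ f).trans hf)⟩
  have hev : ∀ (p : Pts R₂) (f : R₁[X]), p.h (φ f) =
      f.eval₂ ((res (Subalgebra.inclusion hle) p).h : R₁ →+* ℂ) (p.h ⟨θ, hθ⟩) := fun p f => by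
    rw [hφ']
    exact hom_eval₂ f (Subalgebra.inclusion hle : R₁ →+* R₂) (p.h : R₂ →+* ℂ) ⟨θ, hθ⟩
  let M : Pts R₁ → ℂ[X] := fun p => m.map (p.h : R₁ →+* ℂ)
  obtain ⟨hc, hf⟩ := root_covering m.natDegree M (fun p => ⟨hm.map _, hm.natDegree_map _⟩)
    (fun i => by
      simp only [M, coeff_map]
      exact Pts.cont _) (fun p => hsep.map)
  have hex : ∀ q : {q : Pts R₁ × ℂ // (M q.1).eval q.2 = 0}, ∃ p : Pts R₂,
      ∀ f, p.h (φ f) = f.eval₂ (q.1.1.h : R₁ →+* ℂ) q.1.2 := fun q => by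
    let ψ : R₁[X] →ₐ[ℂ] ℂ := eval₂AlgHom q.1.1.h q.1.2 fun _ => Commute.all _ _
    refine ⟨Pts.mk (AlgHom.liftOfSurjective φ hsurj ψ fun f hf => ?_), fun f =>
      AlgHom.liftOfSurjective_apply φ hsurj ψ _ f⟩
    have h1 : φ f = 0 := hf
    obtain ⟨g, rfl⟩ := hmin f (by rw [← hφ, h1]; rfl)
    have h2 : ψ m = 0 := by
      have := q.2
      rw [eval_map] at this
      exact this
    change ψ (m * g) = 0
    rw [map_mul, h2, zero_mul]
  choose g hg using hex
  have hm0 : φ m = 0 := Subtype.ext ((hφ m).trans h0)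
  let e : Pts R₂ ≃ₜ {q : Pts R₁ × ℂ // (M q.1).eval q.2 = 0} :=
    { toFun := fun p => ⟨(res (Subalgebra.inclusion hle) p, p.h ⟨θ, hθ⟩), by
        rw [eval_map, ← hev, hm0, map_zero]⟩
      invFun := g
      left_inv := fun p => Pts.ext fun r => by
        obtain ⟨f, rfl⟩ := hsurj r
        rw [hg, hev]
      right_inv := fun q => by
        refine Subtype.ext (Prod.ext (Pts.ext fun r => ?_) ?_)
        · have := hg q (C r)
          rw [hφ', eval₂_C, eval₂_C] at this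
          exact this
        · have := hg q X
          rw [hφ', eval₂_X, eval₂_X] at this
          exact this
      continuous_toFun := by
        apply Continuous.subtype_mk
        exact (res (Subalgebra.inclusion hle)).continuous.prodMk (Pts.cont _)
      continuous_invFun := (Pts.continuous_iff _).2 fun r => by
        obtain ⟨f, rfl⟩ := hsurj r
        simp only [hg, eval₂_eq_sum_range]
        refine continuous_finsetSum _ fun i _ => Continuous.mul ?_ (Continuous.pow ?_ _)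
        · exact (Pts.cont _).comp (continuous_fst.comp continuous_subtype_val)
        · exact continuous_snd.comp continuous_subtype_val }
  have he : (res (Subalgebra.inclusion hle) : Pts R₂ → Pts R₁) =
      (fun q : {q : Pts R₁ × ℂ // (M q.1).eval q.2 = 0} => q.1.1) ∘ e := rfl
  rw [he]
  refine ⟨hc.comp_homeomorph e, fun p => ?_⟩
  rw [Set.preimage_comp]
  refine ⟨(hf p).1.preimage e.injective.injOn, ?_⟩
  rw [← (hf p).2, ← Set.ncard_image_of_injective _ e.injective, Set.image_preimage_eq _ e.surjective]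

/-- Generic étale covering.  Let `K ⊆ Ω` be the subfield generated by `R` (every element is a
quotient of elements of `R`), `θ` a primitive element of `K(W)` over `K` (characteristic zero),
`m₀` its minimal polynomial, `u m₀ + v m₀' = 1`, `w = g_w(θ)`.  Let `δ ∈ R` be a common
denominator of the coefficients of `m₀, u, v, g_w`.  Over `R₁ = R[1/δ]` the monic polynomial `m`
lifting `m₀` divides every `f` with `f(θ) = 0` (divide with remainder, `modByMonic`, and use
minimality over `K`). -/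
theorem gcov (R : Subalgebra ℂ Ω) (W : Finset Ω) (hW : ∀ w ∈ W, IsAlgebraic R w) :
    ∃ (δ θ : Ω) (n : ℕ) (R₁ R₂ : Subalgebra ℂ Ω) (h12 : R₁ ≤ R₂), δ ∈ R ∧ δ ≠ 0 ∧
      R₁ = Algebra.adjoin ℂ (insert δ⁻¹ (R : Set Ω)) ∧
      R₂ = Algebra.adjoin ℂ (insert θ (R₁ : Set Ω)) ∧ (∀ w ∈ W, w ∈ R₂) ∧ 0 < n ∧
      IsCoveringMap (res (Subalgebra.inclusion h12)) ∧
      ∀ p, (res (Subalgebra.inclusion h12) ⁻¹' {p}).Finite ∧
        (res (Subalgebra.inclusion h12) ⁻¹' {p}).ncard = n := by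
  classical
  set K := IntermediateField.adjoin ℂ (R : Set Ω) with hK
  have hRK : ∀ x ∈ R, x ∈ K := fun x hx => IntermediateField.subset_adjoin ℂ _ hx
  have : CharZero K := charZero_of_injective_algebraMap (algebraMap ℂ K).injective
  have hWK : ∀ w ∈ (W : Set Ω), IsIntegral K w := fun w hw => by
    obtain ⟨f, hf0, hf⟩ := hW w hw
    refine IsAlgebraic.isIntegral ⟨f.map (Gcov_inc R K hRK), ?_, by rw [Gcov_aeval, hf]⟩
    exact (Polynomial.map_ne_zero_iff (Gcov_inc_inj R K hRK)).2 hf0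
  let L := IntermediateField.adjoin K (W : Set Ω)
  have : FiniteDimensional K L := IntermediateField.finiteDimensional_adjoin hWK
  obtain ⟨α, hα⟩ := Field.exists_primitive_element K L
  have hαi : IsIntegral K α := Algebra.IsIntegral.isIntegral α
  have hθ : IsIntegral K (α : Ω) := hαi.map L.val
  have hg : ∀ w : Ω, ∃ g : K[X], w ∈ W → aeval (α : Ω) g = w := fun w => by
    by_cases hw : w ∈ W
    · have h1 : (⟨w, IntermediateField.subset_adjoin K _ hw⟩ : L) ∈
          (IntermediateField.adjoin K {α}).toSubalgebra := by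
        rw [hα]
        trivial
      rw [IntermediateField.adjoin_simple_toSubalgebra_of_isAlgebraic hαi.isAlgebraic,
        Algebra.adjoin_singleton_eq_range_aeval] at h1
      obtain ⟨g, hg⟩ := h1
      refine ⟨g, fun _ => ?_⟩
      have h2 := aeval_algHom_apply L.val α g
      have h3 : aeval α g = _ := hg
      rw [h3] at h2
      exact h2
    · exact ⟨0, fun h => absurd h hw⟩
  choose g hg using hg
  obtain ⟨u, v, huv⟩ : (minpoly K (α : Ω)).Separable := (minpoly.irreducible hθ).separable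
  let P : Finset K[X] := insert (minpoly K (α : Ω)) (insert u (insert v (W.image g)))
  obtain ⟨δ, hδ, hδ0, hden⟩ := Gcov_den R ((P.biUnion fun f => f.coeffs).image fun x : K => (x : Ω))
    fun x hx => by
      obtain ⟨y, -, rfl⟩ := Finset.mem_image.1 hx
      exact y.2
  set R₁ := Algebra.adjoin ℂ (insert δ⁻¹ (R : Set Ω)) with hR₁
  have h1K : ∀ x ∈ R₁, x ∈ K := by
    have : R₁ ≤ K.toSubalgebra := Algebra.adjoin_le (by
      rintro x (rfl | hx)
      · exact K.inv_mem (hRK δ hδ)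
      · exact hRK x hx)
    exact fun x hx => this hx
  have hl : ∀ f ∈ P, ∃ f' : R₁[X], f'.map (Gcov_inc R₁ K h1K) = f := fun f hf =>
    Gcov_lift R₁ K h1K f fun i => by
      by_cases h0 : f.coeff i = 0
      · simp [h0]
      have h1 := hden _ (Finset.mem_image_of_mem _
        (Finset.mem_biUnion.2 ⟨f, hf, coeff_mem_coeffs h0⟩))
      have h2 : (f.coeff i : Ω) = δ⁻¹ * (δ * f.coeff i) := by field_simp
      rw [h2]
      exact R₁.mul_mem (Algebra.subset_adjoin (Set.mem_insert _ _))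
        (Algebra.subset_adjoin (Set.mem_insert_of_mem _ h1))
  obtain ⟨m, hm⟩ := hl (minpoly K (α : Ω)) (by simp [P])
  obtain ⟨u', hu'⟩ := hl u (by simp [P])
  obtain ⟨v', hv'⟩ := hl v (by simp [P])
  have hinj := Gcov_inc_inj R₁ K h1K
  have hmon : m.Monic := monic_of_injective hinj (hm ▸ minpoly.monic hθ)
  have hsep : m.Separable := ⟨u', v', Polynomial.map_injective _ hinj (by
    rw [Polynomial.map_add, Polynomial.map_mul, Polynomial.map_mul, ← derivative_map, hm, hu', hv',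
      huv, Polynomial.map_one])⟩
  have h12 : R₁ ≤ Algebra.adjoin ℂ (insert (α : Ω) (R₁ : Set Ω)) := fun x hx =>
    Algebra.subset_adjoin (Set.mem_insert_of_mem _ hx)
  have hc := cov_monogenic R₁ _ h12 (α : Ω) rfl m hmon hsep
    (by rw [← Gcov_aeval R₁ K h1K, hm, minpoly.aeval])
    fun f hf => (Polynomial.map_dvd_map _ hinj hmon).1 (by
      rw [hm]
      exact minpoly.dvd K _ (by rw [Gcov_aeval, hf]))
  refine ⟨δ, α, m.natDegree, R₁, _, h12, hδ, hδ0, rfl, rfl, fun w hw => ?_, ?_, hc⟩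
  · obtain ⟨f, hf⟩ := hl (g w) (Finset.mem_insert_of_mem (Finset.mem_insert_of_mem
      (Finset.mem_insert_of_mem (Finset.mem_image_of_mem _ hw))))
    rw [← hg w hw, ← hf, Gcov_aeval]
    exact Gcov_mem R₁ _ f
  · rw [← natDegree_map_eq_of_injective hinj, hm]
    exact minpoly.natDegree_pos hθ

/-- Extension of points (from `gcov` and `loc_sub`). -/
theorem gext (R : Subalgebra ℂ Ω) (W : Finset Ω) (hW : ∀ w ∈ W, IsAlgebraic R w) :
    ∃ (δ : Ω) (R₂ : Subalgebra ℂ Ω) (h2 : R ≤ R₂), δ ∈ R ∧ δ ≠ 0 ∧ (∀ w ∈ W, w ∈ R₂) ∧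
      ∀ p : Pts R, pv p δ ≠ 0 → ∃ q : Pts R₂, res (Subalgebra.inclusion h2) q = p := by
  obtain ⟨δ, θ, n, R₁, R₂, h12, hδ, hδ0, h1, -, hw, hn, -, hf⟩ := gcov R W hW
  have h01 : R ≤ R₁ := fun x hx => h1 ▸ Algebra.subset_adjoin (Set.mem_insert_of_mem _ hx)
  refine ⟨δ, R₂, h01.trans h12, hδ, hδ0, hw, fun p hp => ?_⟩
  rw [pv_eq p hδ] at hp
  obtain ⟨q₁, hq₁⟩ : p ∈ Set.range (res (Subalgebra.inclusion h01)) := by
    rw [(loc_sub R R₁ δ hδ hδ0 h1 h01).2]
    exact hp
  obtain ⟨q, hq⟩ : (res (Subalgebra.inclusion h12) ⁻¹' {q₁}).Nonempty :=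
    Set.nonempty_of_ncard_ne_zero (by rw [(hf q₁).2]; exact hn.ne')
  refine ⟨q, ?_⟩
  have hq' : res (Subalgebra.inclusion h12) q = q₁ := hq
  rw [← hq₁, ← hq']
  rfl

end

end Pool.Agent.MP_1c689d_ag.FP

end

section

set_option autoImplicit false

namespace Pool.Agent.MP_1c689d_ag.FP

noncomputable section

open Polynomial

variable {F : Type} [Field F] [Algebra ℂ F] {N : ℕ}

theorem Chow_coeff {A : Type} [CommRing A] (x : Fin (N + 1) → A) (i : Fin (N + 1)) :
    (lin x).coeff (Finsupp.single i 1) = x i := by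
  simp [lin, MvPolynomial.coeff_sum, MvPolynomial.coeff_X, Finsupp.single_left_inj]

theorem lin_ne_zero {A : Type} [CommRing A] {x : Fin (N + 1) → A} (hx : x ≠ 0) : lin x ≠ 0 := by
  intro h
  refine hx (funext fun i => ?_)
  rw [← Chow_coeff x i, h, MvPolynomial.coeff_zero, Pi.zero_apply]

theorem map_lin {A A' : Type} [CommRing A] [CommRing A'] (f : A →+* A') (x : Fin (N + 1) → A) :
    MvPolynomial.map f (lin x) = lin (fun i => f (x i)) := by
  simp [lin]

theorem Chow_smul (c : ℂ) (x : Fin (N + 1) → ℂ) : lin (c • x) = MvPolynomial.C c * lin x := by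
  simp [lin, Finset.mul_sum, mul_assoc]

theorem Chow_prime {x : Fin (N + 1) → ℂ} (hx : x ≠ 0) : Prime (lin x) := by
  have e : lin x = MvPolynomial.sumSMulX (Finsupp.equivFunOnFinite.symm x) := by
    rw [MvPolynomial.sumSMulX, Finsupp.linearCombination_apply, Finsupp.sum_fintype _ _ (by simp)]
    simp [lin, MvPolynomial.smul_eq_C_mul]
  obtain ⟨i, hi⟩ := Function.ne_iff.1 hx
  rw [e]
  refine (MvPolynomial.irreducible_sumSMulX _ ⟨i, by simpa using hi⟩ fun r hr => ?_).prime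
  refine IsUnit.mk0 r ?_
  rintro rfl
  exact hi (zero_dvd_iff.1 (hr i))

theorem Chow_assoc (ξ : Fin (N + 1) → F) (x y : Cn ξ) :
    Associates.mk (lin x.1) = Associates.mk (lin y.1) ↔
      Quotient.mk (rl ξ) x = Quotient.mk (rl ξ) y := by
  rw [Associates.mk_eq_mk_iff_associated, mk_eq_iff]
  constructor
  · intro h
    obtain ⟨u, hu⟩ := h.symm
    obtain ⟨c, hc, e⟩ := MvPolynomial.isUnit_iff_eq_C_of_isReduced.1 u.isUnit
    refine ⟨c, hc.ne_zero, funext fun i => ?_⟩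
    rw [← Chow_coeff x.1 i, ← hu, e, mul_comm, ← Chow_smul, Chow_coeff]
  · rintro ⟨c, hc, e⟩
    rw [e, Chow_smul]
    exact associated_unit_mul_left _ _ ((IsUnit.mk0 c hc).map MvPolynomial.C)

theorem Chow_perm {ι α : Type} [Fintype ι] {y y' : ι → α}
    (h : Finset.univ.val.map y = Finset.univ.val.map y') : ∃ π : Equiv.Perm ι, y' = y ∘ π := by
  classical
  have e : ∀ c, {a // y' a = c} ≃ {a // y a = c} := fun c => Fintype.equivOfCardEq (by
    have := congrArg (Multiset.count c) h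
    rw [Multiset.count_map, Multiset.count_map] at this
    simp only [Fintype.card_subtype, eq_comm (b := c)]
    exact this.symm)
  exact ⟨Equiv.ofFiberEquiv e, funext fun a => (Equiv.ofFiberEquiv_map e a).symm⟩

theorem Chow_cont {X ι : Type} [TopologicalSpace X] (s : Finset ι)
    (f : ι → X → MvPolynomial (Fin (N + 1)) ℂ) (hf : ∀ i m, Continuous fun x => (f i x).coeff m) :
    ∀ m, Continuous fun x => (∏ i ∈ s, f i x).coeff m := by
  classical
  induction s using Finset.induction_on with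
  | empty => exact fun m => by simpa using continuous_const
  | insert a s ha ih =>
    intro m
    simp only [Finset.prod_insert ha, MvPolynomial.coeff_mul]
    exact continuous_finsetSum _ fun p _ => (hf a _).mul (ih _)

/-- Pull the set back along the open quotient map `id × (mk, …, mk)` (`IsOpenQuotientMap.prodMap`,
`IsOpenQuotientMap.piMap`): the preimage is the set of `(b, x)` such that `g b` and the non-zero
polynomial `∏ lin (x l)` are proportional (scaling the `x l` scales the product), i.e. all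
`2 × 2` minors `coeff m (g b) * coeff m' P - coeff m' (g b) * coeff m P` vanish; coefficients of
the product are continuous in `x`. -/
theorem dec_closed (ξ : Fin (N + 1) → F) {B : Type} [TopologicalSpace B] {n : ℕ}
    (g : B → MvPolynomial (Fin (N + 1)) ℂ) (hg : ∀ m, Continuous fun b => (g b).coeff m)
    (h0 : ∀ b, g b ≠ 0) : IsClosed {q : B × (Fin n → Pt ξ) | Dec ξ (g q.1) q.2} := by
  have hq := (IsOpenQuotientMap.id (X := B)).prodMap
    (IsOpenQuotientMap.piMap fun _ : Fin n => mk_isOpenQuotientMap ξ)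
  rw [← hq.isQuotientMap.isClosed_preimage]
  have hP := Chow_cont Finset.univ (fun (l : Fin n) (q : B × (Fin n → Cn ξ)) => lin (q.2 l).1)
    fun l m => by
      simp only [lin, MvPolynomial.coeff_sum, MvPolynomial.coeff_C_mul]
      have h1 : Continuous fun q : B × (Fin n → Cn ξ) => (q.2 l).1 :=
        ((continuous_apply l).comp continuous_snd).subtype_val
      exact continuous_finsetSum _ fun i _ => ((continuous_apply i).comp h1).mul continuous_const
  have e : Prod.map id (Pi.map fun _ : Fin n => Quotient.mk (rl ξ)) ⁻¹'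
      {q : B × (Fin n → Pt ξ) | Dec ξ (g q.1) q.2} = ⋂ m, ⋂ m', {q : B × (Fin n → Cn ξ) |
        (g q.1).coeff m * (∏ l, lin (q.2 l).1).coeff m' =
          (g q.1).coeff m' * (∏ l, lin (q.2 l).1).coeff m} := by
    ext ⟨b, x⟩
    simp only [Set.mem_iInter, Set.mem_ofPred_eq]
    constructor
    · rintro ⟨x', e, -, h1, h2⟩ m m'
      choose c _ hc using fun l => (mk_eq_iff ξ _ _).1 (h1 l)
      replace h2 : g b = _ := h2
      simp only [hc, Chow_smul, Finset.prod_mul_distrib, ← map_prod, ← mul_assoc, ← map_mul] at h2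
      rw [h2, MvPolynomial.coeff_C_mul, MvPolynomial.coeff_C_mul]
      ring
    · intro h
      obtain ⟨m, hm⟩ := MvPolynomial.ne_zero_iff.1
        (Finset.prod_ne_zero_iff.2 fun l (_ : l ∈ Finset.univ) => lin_ne_zero (x l).2.1)
      have h1 : g b = MvPolynomial.C ((g b).coeff m / (∏ l, lin (x l).1).coeff m) *
          ∏ l, lin (x l).1 := by
        ext m'
        rw [MvPolynomial.coeff_C_mul, div_mul_eq_mul_div, h, mul_div_cancel_right₀ _ hm]
      exact ⟨x, _, fun e => h0 b (by rw [h1, e, map_zero, zero_mul]), fun _ => rfl, h1⟩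
  rw [e]
  exact isClosed_iInter fun m => isClosed_iInter fun m' => isClosed_eq
    (((hg m).comp continuous_fst).mul (hP m')) (((hg m').comp continuous_fst).mul (hP m))

/-- Unique factorisation: a non-zero linear form is prime (irreducible of total degree one in a
unique factorisation domain), associated linear forms are proportional.  Induction on `n`, or
`prime_factors_unique` / `Multiset.Rel` turned into a permutation. -/
theorem dec_orbit (ξ : Fin (N + 1) → F) {n : ℕ} {G : MvPolynomial (Fin (N + 1)) ℂ}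
    {y y' : Fin n → Pt ξ} (h : Dec ξ G y) (h' : Dec ξ G y') :
    ∃ π : Equiv.Perm (Fin n), y' = y ∘ π := by
  obtain ⟨x, e, he, h1, h2⟩ := h
  obtain ⟨x', e', he', h1', h2'⟩ := h'
  have h3 := prime_factors_unique (f := Finset.univ.val.map fun l => lin (x l).1)
    (g := Finset.univ.val.map fun l => lin (x' l).1)
    (Multiset.forall_mem_map_iff.2 fun l _ => Chow_prime (x l).2.1)
    (Multiset.forall_mem_map_iff.2 fun l _ => Chow_prime (x' l).2.1)
    ((associated_unit_mul_left _ _ ((IsUnit.mk0 e he).map MvPolynomial.C)).symm.trans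
      ((Associated.of_eq (h2.symm.trans h2')).trans
        (associated_unit_mul_left _ _ ((IsUnit.mk0 e' he').map MvPolynomial.C))))
  rw [Associates.rel_associated_iff_map_eq_map, Multiset.map_map, Multiset.map_map] at h3
  obtain ⟨π, hπ⟩ := Chow_perm h3
  exact ⟨π, funext fun l => (h1' l).symm.trans
    (((Chow_assoc ξ _ _).1 (congrFun hπ l)).trans (h1 (π l)))⟩

end

end Pool.Agent.MP_1c689d_ag.FP

end

section

set_option autoImplicit false

namespace Pool.Agent.MP_1c689d_ag.FP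

noncomputable section

open Polynomial

variable {Ω E : Type} [Field Ω] [Field E] [Algebra ℂ Ω] [Algebra ℂ E] [Algebra Ω E]
  [IsScalarTower ℂ Ω E]
variable {F : Type} [Field F] [Algebra ℂ F] {N : ℕ}

omit [Algebra ℂ Ω] [Algebra ℂ E] [IsScalarTower ℂ Ω E] in
theorem ReB_poly (Λ : Line Ω E) (w : E) : ∃ f : Polynomial (Polynomial Ω), f ≠ 0 ∧
    f.eval₂ (aeval Λ.κ : Polynomial Ω →ₐ[Ω] E).toRingHom w = 0 := by
  obtain ⟨g, hg, h0⟩ := IntermediateField.isAlgebraic_adjoin_iff.1 (Λ.alg w)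
  let φ : Polynomial Ω →+* Algebra.adjoin Ω {Λ.κ} :=
    (aeval Λ.κ : Polynomial Ω →ₐ[Ω] E).toRingHom.codRestrict _
      (fun f => aeval_mem_adjoin_singleton Ω Λ.κ)
  have hφ : Function.Surjective φ := by
    rintro ⟨z, hz⟩
    rw [Algebra.adjoin_singleton_eq_range_aeval] at hz
    obtain ⟨f, rfl⟩ := hz
    exact ⟨f, rfl⟩
  obtain ⟨f, rfl⟩ := map_surjective φ hφ g
  refine ⟨f, fun e => hg (by rw [e, Polynomial.map_zero]), ?_⟩
  rw [aeval_def, eval₂_map] at h0
  exact h0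

theorem ReB_fg (T : Finset (Polynomial Ω)) :
    ∃ R : Subalgebra ℂ Ω, R.FG ∧ ∀ f ∈ T, ∀ k, f.coeff k ∈ R := by
  classical
  refine ⟨Algebra.adjoin ℂ (T.biUnion coeffs : Finset Ω), Subalgebra.fg_adjoin_finset _,
    fun f hf k => ?_⟩
  by_cases h : f.coeff k = 0
  · rw [h]
    exact zero_mem _
  · exact Algebra.subset_adjoin (Finset.mem_coe.2
      (Finset.mem_biUnion.2 ⟨f, hf, coeff_mem_coeffs h⟩))

theorem ReB_lift (R : Subalgebra ℂ Ω) {f : Polynomial Ω} (h : ∀ k, f.coeff k ∈ R) :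
    ∃ g : Polynomial R, mapAlgHom R.val g = f :=
  (mem_lifts (f := (R.val : R →+* Ω)) f).1
    ((lifts_iff_coeff_lifts f).2 fun k => ⟨⟨_, h k⟩, rfl⟩)

theorem ReB_eval {R₀ R : Subalgebra ℂ Ω} (hle : R₀ ≤ R) (p : Pts R) (t : ℂ) (g : Polynomial R₀)
    {n : ℕ} (hn : g.natDegree ≤ n) :
    aeval t (mapAlgHom (res (Subalgebra.inclusion hle) p).h g) =
      ∑ k ∈ Finset.range (n + 1), pv p (g.coeff k : Ω) * t ^ k := by
  rw [coe_aeval_eq_eval, coe_mapAlgHom, eval_eq_sum_range' (n := n + 1)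
    (Nat.lt_succ_of_le (natDegree_map_le.trans hn))]
  refine Finset.sum_congr rfl fun k _ => ?_
  rw [pv_eq p (hle (g.coeff k).2), coeff_map]
  rfl

/-- Spreading out the decomposition of the Chow form.  Each of the finitely many elements
`x l i`, `e` of `E` is a root of a non-zero polynomial with coefficients in `Ω[κ]` (clear
denominators in `Λ.alg`); let `R ⊆ Ω` be generated by all coefficients of these and of `G`.
Let `B ⊆ E` be the image of `R[X]` under the injective map `X ↦ κ`; `gext` over `B` gives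
`δ = ∑ Δ k κ^k` with `Δ k ∈ R`, top coefficient `Δ D ≠ 0`, and `B₂ ∋ x l i, e`.  Replace `R` by
`R' = R[1/Δ D]` in the statement (restrict points with `res`, `pv_res`).  A pair `(p, t)` defines a
point of `B` (evaluate `R[X] → ℂ`), which extends to `q : Pts B₂` if `δ ↦ ≠ 0`; apply `q` to the
identity `hG` (which holds in `MvPolynomial _ B₂`), with `y l = evC ξ B₂ (x l) _ _ q`. -/
theorem re_generic (Λ : Line Ω E) (ξ : Fin (N + 1) → F) {n : ℕ} (x : Fin n → Fin (N + 1) → E)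
    (hx : ∀ l, IsPt ξ (x l)) (G : MvPolynomial (Fin (N + 1)) (Polynomial Ω)) (e : E) (d : ℕ)
    (hG : MvPolynomial.map (aeval Λ.κ : Polynomial Ω →ₐ[Ω] E).toRingHom G =
      MvPolynomial.C e * ∏ l, lin (x l))
    (hd : ∀ m, (G.coeff m).natDegree ≤ d) :
    ∃ (R : Subalgebra ℂ Ω) (D : ℕ) (Δ : ℕ → Ω), R.FG ∧ (∀ k, Δ k ∈ R) ∧ Δ D ≠ 0 ∧ (Δ D)⁻¹ ∈ R ∧
      (∀ m k, (G.coeff m).coeff k ∈ R) ∧
      ∀ (p : Pts R) (t : ℂ), ∑ k ∈ Finset.range (D + 1), pv p (Δ k) * t ^ k ≠ 0 →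
        ∃ (y : Fin n → Cn ξ) (e' : ℂ), ∀ m,
          ∑ k ∈ Finset.range (d + 1), pv p ((G.coeff m).coeff k) * t ^ k =
            e' * (∏ l, lin (y l).1).coeff m := by
  classical
  choose f hf0 hf using ReB_poly Λ
  let W : Finset E := insert e (Finset.univ.image fun z : Fin n × Fin (N + 1) => x z.1 z.2)
  obtain ⟨R₀, hR₀, hT⟩ := ReB_fg (W.biUnion (fun w => (f w).coeffs) ∪ G.coeffs)
  have hGc : ∀ m k, (G.coeff m).coeff k ∈ R₀ := by
    intro m k
    by_cases h : G.coeff m = 0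
    · rw [h, coeff_zero]
      exact zero_mem _
    · exact hT _ (Finset.mem_union_right _ (MvPolynomial.coeff_mem_coeffs m h)) k
  have hfc : ∀ w ∈ W, ∀ j k, ((f w).coeff j).coeff k ∈ R₀ := by
    intro w hw j k
    by_cases h : (f w).coeff j = 0
    · rw [h, coeff_zero]
      exact zero_mem _
    · exact hT _ (Finset.mem_union_left _
        (Finset.mem_biUnion.2 ⟨w, hw, coeff_mem_coeffs h⟩)) k
  let ι : Polynomial R₀ →ₐ[ℂ] Polynomial Ω := mapAlgHom R₀.val
  have hι : Function.Injective ι := map_injective _ Subtype.val_injective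
  let ψ : Polynomial R₀ →ₐ[ℂ] E :=
    ((aeval Λ.κ : Polynomial Ω →ₐ[Ω] E).restrictScalars ℂ).comp ι
  have hψ : Function.Injective ψ := (transcendental_iff_injective.1 Λ.tr).comp hι
  let eB : Polynomial R₀ ≃ₐ[ℂ] ψ.range := AlgEquiv.ofInjective ψ hψ
  have halg : ∀ w ∈ W, IsAlgebraic ψ.range w := by
    intro w hw
    obtain ⟨g, hg⟩ := (mem_lifts (f := (ι : Polynomial R₀ →+* Polynomial Ω)) (f w)).1
      ((lifts_iff_coeff_lifts (f w)).2 fun j => ReB_lift R₀ (hfc w hw j))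
    refine ⟨g.map (eB : Polynomial R₀ →+* ψ.range), fun h => hf0 w ?_, ?_⟩
    · rw [← hg, (Polynomial.map_eq_zero_iff (f := (eB : Polynomial R₀ →+* ψ.range))
        eB.injective).1 h, Polynomial.map_zero]
    · have h := hf w
      rw [← hg, eval₂_map] at h
      rw [aeval_def, eval₂_map]
      exact h
  obtain ⟨δ, B₂, h2, ⟨d', rfl⟩, hδ0, hW, hq⟩ := gext ψ.range W halg
  have hd' : d' ≠ 0 := fun h => hδ0 (by rw [h, map_zero])
  have hle : R₀ ≤ Algebra.adjoin ℂ (insert ((d'.coeff d'.natDegree : Ω))⁻¹ (R₀ : Set Ω)) :=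
    fun z hz => Algebra.subset_adjoin (Set.mem_insert_of_mem _ hz)
  refine ⟨_, d'.natDegree, fun k => (d'.coeff k : Ω), fg_insert R₀ hR₀ _,
    fun k => hle (d'.coeff k).2, fun h => leadingCoeff_ne_zero.2 hd' (Subtype.ext h),
    Algebra.subset_adjoin (Set.mem_insert _ _), fun m k => hle (hGc m k), fun p t ht => ?_⟩
  let ε : Polynomial R₀ →ₐ[ℂ] ℂ :=
    (aeval t).comp (mapAlgHom (res (Subalgebra.inclusion hle) p).h)
  let pB : Pts ψ.range := Pts.mk (ε.comp (eB.symm : ψ.range →ₐ[ℂ] Polynomial R₀))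
  have hpB : ∀ g, pB.h (eB g) = ε g := fun g => congrArg ε (eB.symm_apply_apply g)
  obtain ⟨q, hq'⟩ := hq pB (by
    rw [← ReB_eval hle p t d' le_rfl] at ht
    exact ((pv_eq pB (eB d').2).trans (hpB d')).trans_ne ht)
  have hxW : ∀ l i, x l i ∈ B₂ := fun l i => hW _ (Finset.mem_insert_of_mem
    (Finset.mem_image.2 ⟨(l, i), Finset.mem_univ _, rfl⟩))
  have heW : e ∈ B₂ := hW _ (Finset.mem_insert_self _ _)
  refine ⟨fun l => evC ξ B₂ (x l) (hx l) (hxW l) q, q.h ⟨e, heW⟩, fun m => ?_⟩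
  obtain ⟨g, hg⟩ := ReB_lift R₀ (hGc m)
  let P : MvPolynomial (Fin (N + 1)) B₂ := ∏ l, lin (fun i => (⟨x l i, hxW l i⟩ : B₂))
  have h3 : Subalgebra.inclusion h2 (eB g) = ⟨e, heW⟩ * P.coeff m := by
    apply Subtype.ext
    have k1 := congrArg (MvPolynomial.coeff m) hG
    rw [MvPolynomial.coeff_map, MvPolynomial.coeff_C_mul, ← hg] at k1
    have k2 : MvPolynomial.map (B₂.val : B₂ →+* E) P = ∏ l, lin (x l) := by
      rw [map_prod]
      exact Finset.prod_congr rfl fun l _ => map_lin _ _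
    rw [← k2, MvPolynomial.coeff_map] at k1
    exact k1
  have h4 : MvPolynomial.map (q.h : B₂ →+* ℂ) P =
      ∏ l, lin (evC ξ B₂ (x l) (hx l) (hxW l) q).1 := by
    rw [map_prod]
    exact Finset.prod_congr rfl fun l _ => map_lin _ _
  have h5 : g.natDegree ≤ d := by
    have := hd m
    rwa [← hg, coe_mapAlgHom, natDegree_map_eq_of_injective Subtype.val_injective] at this
  have h6 := congrArg q.h h3
  rw [← res_h, hq', hpB, map_mul] at h6
  rw [← h4, MvPolynomial.coeff_map]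
  refine Eq.trans ?_ h6
  refine Eq.trans ?_ (ReB_eval hle p t g h5).symm
  refine Finset.sum_congr rfl fun k _ => ?_
  rw [← hg, coe_mapAlgHom, coeff_map]
  rfl

end

end Pool.Agent.MP_1c689d_ag.FP

end

section

set_option autoImplicit false

namespace Pool.Agent.MP_1c689d_ag.FP

noncomputable section

open Polynomial

variable {Ω E : Type} [Field Ω] [Field E] [Algebra ℂ Ω] [Algebra ℂ E] [Algebra Ω E]
  [IsScalarTower ℂ Ω E]

theorem Re1a_clear {R A ι : Type} [CommRing R] [IsDomain R] [IsPrincipalIdealRing R] [Field A]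
    (f : R →+* A) (hf : Function.Injective f) (P : MvPolynomial ι A) (hP : P ≠ 0)
    (h : ∀ m, ∃ r s, f s ≠ 0 ∧ P.coeff m * f s = f r) :
    ∃ (G : MvPolynomial ι R) (e : A), e ≠ 0 ∧ MvPolynomial.map f G = MvPolynomial.C e * P ∧
      ∃ (s : Finset (ι →₀ ℕ)) (u : (ι →₀ ℕ) → R), ∑ m ∈ s, u m * G.coeff m = 1 := by
  classical
  choose r s hs hrs using h
  have hD : f (∏ m ∈ P.support, s m) ≠ 0 := by
    rw [map_prod]
    exact Finset.prod_ne_zero_iff.2 fun m _ => hs m
  have ha : ∀ m ∈ P.support, f (r m * ∏ m' ∈ P.support.erase m, s m') =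
      f (∏ m ∈ P.support, s m) * P.coeff m := by
    intro m hm
    rw [← Finset.mul_prod_erase _ s hm, map_mul, map_mul, ← hrs m]
    ring
  generalize (∏ m ∈ P.support, s m) = D at hD ha
  obtain ⟨a, ha⟩ : ∃ a : (ι →₀ ℕ) → R, ∀ m ∈ P.support, f (a m) = f D * P.coeff m := ⟨_, ha⟩
  obtain ⟨d, hd⟩ := (IsPrincipalIdealRing.principal
    (Ideal.span (a '' (P.support : Set (ι →₀ ℕ))))).principal
  have hb : ∀ m, ∃ b, m ∈ P.support → b * d = a m := by
    intro m
    by_cases hm : m ∈ P.support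
    · have h1 : a m ∈ Ideal.span (a '' (P.support : Set (ι →₀ ℕ))) :=
        Ideal.subset_span ⟨m, hm, rfl⟩
      rw [hd] at h1
      obtain ⟨b, hb⟩ := Ideal.mem_span_singleton'.1 h1
      exact ⟨b, fun _ => hb⟩
    · exact ⟨0, fun h => absurd h hm⟩
  choose b hb using hb
  have hd0 : d ≠ 0 := by
    rintro rfl
    obtain ⟨m, hm⟩ := MvPolynomial.support_nonempty.2 hP
    have h1 := ha m hm
    rw [← hb m hm, mul_zero, map_zero] at h1
    exact mul_ne_zero hD (MvPolynomial.mem_support_iff.1 hm) h1.symm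
  have hfd : f d ≠ 0 := (map_ne_zero_iff f hf).2 hd0
  have hu : d ∈ Submodule.span R (a '' (P.support : Set (ι →₀ ℕ))) := by
    have h1 : d ∈ Ideal.span (a '' (P.support : Set (ι →₀ ℕ))) := by
      rw [hd]; exact Submodule.mem_span_singleton_self d
    exact h1
  obtain ⟨u, hu⟩ := (Submodule.mem_span_image_finset_iff_exists_fun' R).1 hu
  have hG : ∀ m, (∑ m' ∈ P.support, MvPolynomial.monomial m' (b m')).coeff m =
      if m ∈ P.support then b m else 0 := by
    intro m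
    simp only [MvPolynomial.coeff_sum, MvPolynomial.coeff_monomial, Finset.sum_ite_eq']
  refine ⟨∑ m' ∈ P.support, MvPolynomial.monomial m' (b m'), f D / f d, div_ne_zero hD hfd, ?_,
    P.support, u, ?_⟩
  · ext m
    rw [MvPolynomial.coeff_map, hG, MvPolynomial.coeff_C_mul]
    split_ifs with hm
    · have h1 := ha m hm
      rw [← hb m hm, map_mul] at h1
      field_simp
      linear_combination h1
    · rw [MvPolynomial.notMem_support_iff.1 hm, map_zero, mul_zero]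
  · apply mul_right_cancel₀ hd0
    rw [one_mul, Finset.sum_mul]
    conv_rhs => rw [← hu]
    refine Finset.sum_congr rfl fun m hm => ?_
    rw [hG, if_pos hm, mul_assoc, hb m hm, smul_eq_mul]

omit [Algebra ℂ E] [IsScalarTower ℂ Ω E] in
theorem Re1a_fixed [IsAlgClosed E] (Λ : Line Ω E) (c : E)
    (hc : ∀ σ : E ≃ₐ[Ω] E, σ Λ.κ = Λ.κ → σ c = c) : c ∈ IntermediateField.adjoin Ω {Λ.κ} := by
  have : CharZero Ω := charZero_of_injective_algebraMap (algebraMap ℂ Ω).injective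
  have : Algebra.IsAlgebraic (IntermediateField.adjoin Ω {Λ.κ}) E := ⟨Λ.alg⟩
  have : IsAlgClosure (IntermediateField.adjoin Ω {Λ.κ}) E := ⟨inferInstance, inferInstance⟩
  have : IsGalois (IntermediateField.adjoin Ω {Λ.κ}) E := ⟨⟩
  obtain ⟨y, hy⟩ := (InfiniteGalois.mem_range_algebraMap_iff_fixed
    (k := IntermediateField.adjoin Ω {Λ.κ}) c).2 fun τ =>
      hc (τ.restrictScalars Ω)
        (τ.commutes ⟨Λ.κ, IntermediateField.mem_adjoin_simple_self Ω Λ.κ⟩)
  rw [← hy]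
  exact y.2

/-- Descent of the Chow form.  `E` is an algebraic closure of `K = Ω(κ)` in characteristic zero,
so `E / K` is Galois; the coefficients of `∏ lin (x l)` are fixed by all automorphisms over `K`
(`map_lin`, reindex the product), hence lie in `K` (`IsGalois.mem_bot_iff_fixed` or
`InfiniteGalois.mem_bot_iff_fixed`), i.e. are quotients `p(κ)/q(κ)`.  Clear denominators to get
`G₀` over `Ω[X]` (`aeval κ` is injective), `G₀ ≠ 0`; divide by a generator of the ideal spanned by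
the finitely many coefficients (principal ideal domain). -/
theorem chow_descent₀ [IsAlgClosed E] (Λ : Line Ω E) {N n : ℕ} (x : Fin n → Fin (N + 1) → E)
    (hx : ∀ l, ∃ i, x l i = 1)
    (hst : ∀ σ : E ≃ₐ[Ω] E, σ Λ.κ = Λ.κ →
      ∃ π : Equiv.Perm (Fin n), ∀ l i, σ (x l i) = x (π l) i) :
    ∃ (G : MvPolynomial (Fin (N + 1)) (Polynomial Ω)) (e : E), e ≠ 0 ∧
      MvPolynomial.map (aeval Λ.κ : Polynomial Ω →ₐ[Ω] E).toRingHom G =
        MvPolynomial.C e * ∏ l, lin (x l) ∧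
      ∃ (s : Finset (Fin (N + 1) →₀ ℕ)) (u : (Fin (N + 1) →₀ ℕ) → Polynomial Ω),
        ∑ m ∈ s, u m * G.coeff m = 1 := by
  have hinj : Function.Injective (aeval Λ.κ : Polynomial Ω →ₐ[Ω] E) :=
    transcendental_iff_injective.1 Λ.tr
  refine Re1a_clear (aeval Λ.κ : Polynomial Ω →ₐ[Ω] E).toRingHom hinj _ ?_ fun m => ?_
  · refine Finset.prod_ne_zero_iff.2 fun l _ => lin_ne_zero fun h0 => ?_
    obtain ⟨i, hi⟩ := hx l
    rw [h0] at hi
    exact zero_ne_one hi
  · have hm : (∏ l, lin (x l)).coeff m ∈ IntermediateField.adjoin Ω {Λ.κ} := by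
      refine Re1a_fixed Λ _ fun σ hσ => ?_
      obtain ⟨π, hπ⟩ := hst σ hσ
      have h1 : MvPolynomial.map (σ : E →+* E) (∏ l, lin (x l)) = ∏ l, lin (x l) := by
        rw [map_prod, ← Equiv.prod_comp π fun l => lin (x l)]
        refine Finset.prod_congr rfl fun l _ => ?_
        rw [map_lin]
        congr 1
        funext i
        exact hπ l i
      have h2 := congrArg (MvPolynomial.coeff m) h1
      rwa [MvPolynomial.coeff_map] at h2
    obtain ⟨r, s, hrs⟩ := (IntermediateField.mem_adjoin_simple_iff Ω _).1 hm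
    by_cases hs : aeval Λ.κ s = 0
    · refine ⟨0, 1, by simp, ?_⟩
      rw [hrs, hs, div_zero, zero_mul, map_zero]
    · refine ⟨r, s, hs, ?_⟩
      rw [hrs]
      exact div_mul_cancel₀ _ hs

end

end Pool.Agent.MP_1c689d_ag.FP

end

section

set_option autoImplicit false

namespace Pool.Agent.MP_1c689d_ag.FP

noncomputable section

open Polynomial

section aux
variable {Ω E : Type} [Field Ω] [Field E] [Algebra Ω E] {P : Place Ω E}

/-- `Place.Sp` without the complex structure -/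
def Re1b_S (P : Place Ω E) (x : E) (c : Ω) : Prop := ∃ h : x ∈ P.O, P.ρ ⟨x, h⟩ = c

theorem Re1b_uniq {x : E} {c c' : Ω} (h : Re1b_S P x c) (h' : Re1b_S P x c') : c = c' :=
  h.2.symm.trans h'.2

theorem Re1b_mul {x y : E} {c c' : Ω} (h : Re1b_S P x c) (h' : Re1b_S P y c') :
    Re1b_S P (x * y) (c * c') :=
  ⟨mul_mem h.1 h'.1, by rw [← h.2, ← h'.2, ← map_mul]; rfl⟩

theorem Re1b_add {x y : E} {c c' : Ω} (h : Re1b_S P x c) (h' : Re1b_S P y c') :
    Re1b_S P (x + y) (c + c') :=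
  ⟨add_mem h.1 h'.1, by rw [← h.2, ← h'.2, ← map_add]; rfl⟩

theorem Re1b_alg (c : Ω) : Re1b_S P (algebraMap Ω E c) c := ⟨P.mem c, P.ρ_alg c⟩

theorem Re1b_inv {x : E} {c : Ω} (h : Re1b_S P x c) (hc : c ≠ 0) : Re1b_S P x⁻¹ c⁻¹ := by
  obtain ⟨h1, h2⟩ := h
  have hu : IsUnit (⟨x, h1⟩ : P.O) := by
    by_contra hu
    exact hc (h2 ▸ (P.ker _).2 hu)
  obtain ⟨y, hy⟩ := hu.exists_right_inv
  have h3 : x⁻¹ = (y : E) := (eq_inv_of_mul_eq_one_right (congrArg Subtype.val hy)).symm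
  have h4 := congrArg P.ρ hy
  rw [map_mul, map_one, h2] at h4
  rw [h3]
  exact ⟨y.2, eq_inv_of_mul_eq_one_right h4⟩

theorem Re1b_aeval {x : E} {c : Ω} (h : Re1b_S P x c) (p : Polynomial Ω) :
    Re1b_S P (aeval x p) (p.eval c) := by
  induction p using Polynomial.induction_on with
  | C a => simpa using Re1b_alg a
  | add p q hp hq => simpa using Re1b_add hp hq
  | monomial n a ih =>
    have := Re1b_mul ih h
    simpa [pow_succ, mul_assoc] using this

theorem Re1b_out {x : E} (h : x ∉ P.O) : Re1b_S P x⁻¹ 0 := by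
  refine ⟨(P.O.mem_or_inv_mem x).resolve_left h, (P.ker _).2 fun hu => h ?_⟩
  obtain ⟨y, hy⟩ := hu.exists_right_inv
  have h3 : (y : E) = x⁻¹⁻¹ := eq_inv_of_mul_eq_one_right (congrArg Subtype.val hy)
  rw [inv_inv] at h3
  exact h3 ▸ y.2

theorem Re1b_top {x : E} (h : x ∉ P.O) (p : Polynomial Ω) {d : ℕ} (hd : p.natDegree ≤ d) :
    Re1b_S P (x⁻¹ ^ d * aeval x p) (p.coeff d) := by
  have h0 : x ≠ 0 := fun h0 => h (h0 ▸ zero_mem _)
  have := invertibleOfNonzero h0
  have h1 := eval₂_reflect_mul_pow (algebraMap Ω E) x d p hd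
  have h2 := Re1b_aeval (Re1b_out h) (reflect d p)
  rw [← coeff_zero_eq_eval_zero, coeff_reflect, revAt_zero] at h2
  rw [aeval_def, ← h1, invOf_eq_inv, mul_comm, mul_assoc, ← mul_pow, mul_inv_cancel₀ h0, one_pow,
    mul_one]
  exact h2

theorem Re1b_lin {A : Type} [CommRing A] {N : ℕ} (a : A) (x : Fin (N + 1) → A) :
    lin (fun i => a * x i) = MvPolynomial.C a * lin x := by
  simp [lin, Finset.mul_sum, mul_assoc]

end aux

variable {Ω E : Type} [Field Ω] [Field E] [Algebra ℂ Ω] [Algebra ℂ E] [Algebra Ω E]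
  [IsScalarTower ℂ Ω E]

/-- Gauss lemma at a place.  Let `e l` be the scalars of `Spec`; the product of the linear forms
`lin (e l * x l)` over `P.O` reduces to `∏ lin (z l) ≠ 0`, and equals `a • G` in `E` with
`a = (∏ e l) / e`.  Both `G` and `a • G` have integral coefficients, each with a unit coefficient,
so `a` and `a⁻¹` lie in `P.O`; take `e0 = ρ a⁻¹`. -/
theorem spec_form (P : Place Ω E) {N n : ℕ} (x : Fin n → Fin (N + 1) → E)
    (z : Fin n → Fin (N + 1) → Ω) (hz : ∀ l, P.Spec (x l) (z l))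
    (G : MvPolynomial (Fin (N + 1)) E) (e : E) (hG : G = MvPolynomial.C e * ∏ l, lin (x l))
    (g : (Fin (N + 1) →₀ ℕ) → Ω) (hg : ∀ m, P.Sp (G.coeff m) (g m)) (h0 : ∃ m, g m ≠ 0) :
    ∃ e0 : Ω, e0 ≠ 0 ∧ ∀ m, g m = e0 * (∏ l, lin (z l)).coeff m := by
  choose ε hε using fun l => (hz l).2
  have hZ : (∏ l, lin (z l)) ≠ 0 := by
    refine Finset.prod_ne_zero_iff.2 fun l _ => lin_ne_zero fun h1 => ?_
    obtain ⟨i, hi⟩ := (hz l).1
    rw [h1] at hi
    exact zero_ne_one hi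
  have hA : ∀ m, Re1b_S P ((∏ l, ε l) * (∏ l, lin (x l)).coeff m) ((∏ l, lin (z l)).coeff m) := by
    intro m
    let Q : MvPolynomial (Fin (N + 1)) P.O := ∏ l, lin fun i => (⟨ε l * x l i, (hε l i).1⟩ : P.O)
    have h1 : MvPolynomial.map P.ρ Q = ∏ l, lin (z l) := by
      rw [map_prod]
      refine Finset.prod_congr rfl fun l _ => ?_
      rw [map_lin]
      exact congrArg lin (funext fun i => (hε l i).2)
    have h2 : MvPolynomial.map P.O.subtype Q = MvPolynomial.C (∏ l, ε l) * ∏ l, lin (x l) := by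
      rw [map_prod, map_prod, ← Finset.prod_mul_distrib]
      refine Finset.prod_congr rfl fun l _ => ?_
      rw [map_lin, ← Re1b_lin]
      rfl
    rw [← h1, ← MvPolynomial.coeff_C_mul, ← h2, MvPolynomial.coeff_map, MvPolynomial.coeff_map]
    exact ⟨(Q.coeff m).2, rfl⟩
  have hg' : ∀ m, Re1b_S P (e * (∏ l, lin (x l)).coeff m) (g m) := fun m => by
    rw [← MvPolynomial.coeff_C_mul, ← hG]
    exact hg m
  obtain ⟨m1, hm1⟩ := MvPolynomial.ne_zero_iff.1 hZ
  have h1 : (∏ l, ε l) * (∏ l, lin (x l)).coeff m1 ≠ 0 := fun h1 => hm1 (by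
    have := Re1b_alg (P := P) 0
    rw [map_zero, ← h1] at this
    exact Re1b_uniq (hA m1) this)
  have h2 := Re1b_mul (hg' m1) (Re1b_inv (hA m1) hm1)
  have h3 : ∀ m, g m = g m1 * ((∏ l, lin (z l)).coeff m1)⁻¹ * (∏ l, lin (z l)).coeff m := fun m => by
    refine Re1b_uniq (hg' m) ?_
    have h4 := Re1b_mul h2 (hA m)
    have h5 := left_ne_zero_of_mul h1
    have h6 := right_ne_zero_of_mul h1
    have e1 : e * (∏ l, lin (x l)).coeff m1 * ((∏ l, ε l) * (∏ l, lin (x l)).coeff m1)⁻¹ *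
        ((∏ l, ε l) * (∏ l, lin (x l)).coeff m) = e * (∏ l, lin (x l)).coeff m := by
      field_simp
    rwa [e1] at h4
  refine ⟨_, fun h4 => ?_, h3⟩
  obtain ⟨m, hm⟩ := h0
  exact hm (by rw [h3 m, h4, zero_mul])

/-- Combine `chow_descent₀` and `spec_form`.  `d` is the maximal degree of a coefficient of `G`
(attained at a non-zero coefficient).  At `P0`: `p(κ)` specialises to `p.coeff 0`, and not all
`(G.coeff m).coeff 0` vanish by the Bezout relation.  At `P1`: `κ⁻¹ ∈ O` is a non-unit, so it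
specialises to `0` and `p(κ) / κ^d` specialises to `p.coeff d` if `natDegree p ≤ d`; apply
`spec_form` to `C (κ⁻¹ ^ d) * map G`. -/
theorem chow_descent [IsAlgClosed E] (Λ : Line Ω E) {N n : ℕ} (x : Fin n → Fin (N + 1) → E)
    (hx : ∀ l, ∃ i, x l i = 1)
    (hst : ∀ σ : E ≃ₐ[Ω] E, σ Λ.κ = Λ.κ →
      ∃ π : Equiv.Perm (Fin n), ∀ l i, σ (x l i) = x (π l) i)
    (z z' : Fin n → Fin (N + 1) → Ω) (hz : ∀ l, Λ.P0.Spec (x l) (z l))
    (hz' : ∀ l, Λ.P1.Spec (x l) (z' l)) :
    ∃ (G : MvPolynomial (Fin (N + 1)) (Polynomial Ω)) (e : E) (d : ℕ) (e0 e1 : Ω), e0 ≠ 0 ∧ e1 ≠ 0 ∧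
      MvPolynomial.map (aeval Λ.κ : Polynomial Ω →ₐ[Ω] E).toRingHom G =
        MvPolynomial.C e * ∏ l, lin (x l) ∧
      (∃ (s : Finset (Fin (N + 1) →₀ ℕ)) (u : (Fin (N + 1) →₀ ℕ) → Polynomial Ω),
        ∑ m ∈ s, u m * G.coeff m = 1) ∧
      (∀ m, (G.coeff m).natDegree ≤ d) ∧
      (∀ m, (G.coeff m).coeff 0 = e0 * (∏ l, lin (z l)).coeff m) ∧
      ∀ m, (G.coeff m).coeff d = e1 * (∏ l, lin (z' l)).coeff m := by
  obtain ⟨G, e, -, hG, s, u, hu⟩ := chow_descent₀ Λ x hx hst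
  have hG0 : G ≠ 0 := by
    rintro rfl
    simp at hu
  obtain ⟨m0, hm0, hmax⟩ := Finset.exists_max_image G.support (fun m => (G.coeff m).natDegree)
    (MvPolynomial.support_nonempty.2 hG0)
  have hd : ∀ m, (G.coeff m).natDegree ≤ (G.coeff m0).natDegree := fun m => by
    by_cases hm : m ∈ G.support
    · exact hmax m hm
    · rw [MvPolynomial.notMem_support_iff.1 hm, natDegree_zero]
      exact Nat.zero_le _
  obtain ⟨e0, h0, h0'⟩ := spec_form Λ.P0 x z hz _ e hG (fun m => (G.coeff m).coeff 0) (fun m => by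
    rw [MvPolynomial.coeff_map, coeff_zero_eq_eval_zero]
    exact Re1b_aeval ⟨Λ.mem0, Λ.h0⟩ _) (by
    by_contra h1
    push Not at h1
    have h2 := congrArg (fun p : Polynomial Ω => p.coeff 0) hu
    simp [finset_sum_coeff, mul_coeff_zero, h1] at h2)
  obtain ⟨e1, h1, h1'⟩ := spec_form Λ.P1 x z' hz'
    (MvPolynomial.C (Λ.κ⁻¹ ^ (G.coeff m0).natDegree) *
      MvPolynomial.map (aeval Λ.κ : Polynomial Ω →ₐ[Ω] E).toRingHom G)
    (Λ.κ⁻¹ ^ (G.coeff m0).natDegree * e) (by rw [hG, map_mul, mul_assoc])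
    (fun m => (G.coeff m).coeff (G.coeff m0).natDegree) (fun m => by
      rw [MvPolynomial.coeff_C_mul, MvPolynomial.coeff_map]
      exact Re1b_top Λ.h1 _ (hd m))
    ⟨m0, leadingCoeff_ne_zero.2 (MvPolynomial.mem_support_iff.1 hm0)⟩
  exact ⟨G, e, _, e0, e1, h0, h1, hG, ⟨s, u, hu⟩, hd, h0', h1'⟩

end

end Pool.Agent.MP_1c689d_ag.FP

end

section

set_option autoImplicit false

namespace Pool.Agent.MP_1c689d_ag.FP

noncomputable section

open Polynomial

/-! Elementary toolbox for chains supported in a subset.  Use `Sup`, `Sup_map`, `Sup_eq`,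
`mem_Sup_support`, `prism`, `const_cycle` from `Chains` and `Subdiv`. -/

variable {X Y : Type} [TopologicalSpace X] [TopologicalSpace Y]

theorem Sub_preconn (k : ℕ) : PreconnectedSpace (Sx k) :=
  isPreconnected_iff_preconnectedSpace.1 (convex_stdSimplex ℝ (Fin (k + 1))).isPreconnected

theorem mem_On {W : Set X} {k : ℕ} {c : Ch X k} :
    c ∈ On W k ↔ ∀ σ ∈ c.support, ∀ s, σ s ∈ W := by
  constructor
  · intro h
    have h2 : c ∈ Finsupp.supported ℚ ℚ {σ : C(Sx k, X) | ∀ s, σ s ∈ W} := by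
      have := Sup_map (S := {σ : C(Sx k, X) | ∀ s, σ s ∈ W}) LinearMap.id
        (Finsupp.supported ℚ ℚ {σ : C(Sx k, X) | ∀ s, σ s ∈ W})
        (fun σ hσ => Finsupp.single_mem_supported ℚ 1 hσ) h
      exact this
    intro σ hσ
    exact (Finsupp.mem_supported ℚ c).1 h2 hσ
  · intro h
    exact Sup_mono (fun σ hσ => h σ hσ) (mem_Sup_support c)

theorem sg_mem_On {W : Set X} {k : ℕ} {σ : C(Sx k, X)} (h : ∀ s, σ s ∈ W) : sg σ ∈ On W k := by
  exact sg_mem h

theorem On_mono {W W' : Set X} (h : W ⊆ W') (k : ℕ) : On W k ≤ On W' k := by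
  exact Sup_mono (fun σ hσ s => h (hσ s))

theorem mem_On_univ {k : ℕ} (c : Ch X k) : c ∈ On Set.univ k := by
  exact mem_On.2 (fun _ _ _ => Set.mem_univ _)

theorem bd_On {W : Set X} {k : ℕ} {c : Ch X (k + 1)} (hc : c ∈ On W (k + 1)) :
    bd c ∈ On W k := by
  refine Sup_map bd _ (fun σ hσ => ?_) hc
  rw [bd_sg]
  refine Submodule.sum_mem _ (fun j _ => Submodule.smul_mem _ _ (sg_mem_On fun s => hσ _))

theorem push_On (f : C(X, Y)) {W : Set X} {W' : Set Y} (h : Set.MapsTo f W W') {k : ℕ}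
    {c : Ch X k} (hc : c ∈ On W k) : push f c ∈ On W' k := by
  refine Sup_map (push f) _ (fun σ hσ => ?_) hc
  rw [push_sg]
  exact sg_mem_On fun s => h (hσ s)

theorem push_range (f : C(X, Y)) {k : ℕ} (c : Ch X k) : push f c ∈ On (Set.range f) k := by
  exact push_On f (fun x _ => Set.mem_range_self x) (mem_On_univ c)

/-- `push f` is `Finsupp.mapDomain` along an injective map. -/
theorem push_injective (f : C(X, Y)) (hf : Function.Injective f) (k : ℕ) :
    Function.Injective (push f : Ch X k →ₗ[ℚ] Ch Y k) := by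
  have e : (push f : Ch X k →ₗ[ℚ] Ch Y k) =
      Finsupp.lmapDomain ℚ ℚ (fun σ : C(Sx k, X) => f.comp σ) :=
    lin_ext (fun σ => by simp [Finsupp.mapDomain_single])
  rw [e]
  intro a b hab
  refine Finsupp.mapDomain_injective (f := fun σ : C(Sx k, X) => f.comp σ) ?_ hab
  intro σ τ h
  ext1 s
  exact hf (ContinuousMap.congr_fun h s)

theorem exists_lift_On {W : Set X} {k : ℕ} {c : Ch X k} (hc : c ∈ On W k) :
    ∃ c' : Ch W k, push (incl W) c' = c := by
  have := Sup_map (S := {σ : C(Sx k, X) | ∀ s, σ s ∈ W}) LinearMap.id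
    (LinearMap.range (push (incl W) : Ch W k →ₗ[ℚ] Ch X k))
    (fun σ hσ => ⟨sg ⟨fun s => ⟨σ s, hσ s⟩, σ.continuous.subtype_mk _⟩, by
      rw [push_sg]
      rfl⟩) hc
  exact this

/-- a cycle supported in `W` comes from a cycle of the subspace `W` -/
theorem exists_cycle_On {W : Set X} {k : ℕ} {c : Ch X (k + 1)} (hc : c ∈ On W (k + 1))
    (h0 : bd c = 0) : ∃ c' : Ch W (k + 1), bd c' = 0 ∧ push (incl W) c' = c := by
  obtain ⟨c', h⟩ := exists_lift_On hc
  refine ⟨c', push_injective (incl W) Subtype.val_injective k ?_, h⟩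
  rw [← bd_push, h, h0, map_zero]

/-- the union of the images of the simplices in the support is a compact carrier -/
theorem exists_compact {k : ℕ} (c : Ch X k) :
    ∃ K : Set X, IsCompact K ∧ c ∈ On K k ∧ ∀ W, c ∈ On W k → K ⊆ W := by
  refine ⟨⋃ σ ∈ c.support, Set.range σ,
    c.support.isCompact_biUnion (fun σ _ => isCompact_range σ.continuous), ?_, ?_⟩
  · exact mem_On.2 (fun σ hσ s => Set.mem_biUnion hσ (Set.mem_range_self s))
  · intro W hW x hx
    obtain ⟨σ, hσ, s, rfl⟩ := Set.mem_iUnion₂.1 hx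
    exact mem_On.1 hW σ hσ s

/-- homotopy invariance with control of the support (push the prism along `H`) -/
theorem hty_On (H : C(X × I, Y)) {k : ℕ} (c : Ch X (k + 1)) (hc : bd c = 0) :
    ∃ w ∈ On (Set.range H) (k + 2),
      bd w = push (H.comp (lev X 1)) c - push (H.comp (lev X 0)) c := by
  obtain ⟨w, hw⟩ := prism c hc
  exact ⟨push H w, push_range H w, by rw [bd_push, hw, map_sub, push_push, push_push]⟩

/-- a cycle supported at a point bounds at that point -/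
theorem pt_On (y : X) {k : ℕ} {c : Ch X (k + 1)} (hc : c ∈ On {y} (k + 1)) (h0 : bd c = 0) :
    ∃ w ∈ On {y} (k + 2), bd w = c := by
  obtain ⟨c', h1, h2⟩ := exists_cycle_On hc h0
  have hsub : (Set.univ : Set C(Sx (k + 1), ({y} : Set X))) ⊆
      {σ | ∃ z, σ = ContinuousMap.const _ z} := by
    intro σ _
    refine ⟨⟨y, rfl⟩, ?_⟩
    ext1 s
    exact Subtype.ext (σ s).2
  obtain ⟨v, hv⟩ := const_cycle (Sup_mono hsub (mem_Sup_univ c')) h1
  refine ⟨push (incl {y}) v, push_On _ (fun x _ => x.2) (mem_On_univ v), ?_⟩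
  rw [bd_push, hv, h2]

/-- simplices are connected, so all of them are constant in a discrete space -/
theorem acyc_discrete [DiscreteTopology X] (k : ℕ) : Acyc X k := by
  intro c hc
  have hsub : (Set.univ : Set C(Sx (k + 1), X)) ⊆ {σ | ∃ z, σ = ContinuousMap.const _ z} := by
    intro σ _
    refine ⟨σ (vx 0), ?_⟩
    ext1 s
    exact PreconnectedSpace.constant (Sub_preconn (k + 1)) σ.continuous
  exact const_cycle (Sup_mono hsub (mem_Sup_univ c)) hc

open Classical in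
/-- Splitting a chain along finitely many disjoint open sets: `P k i` keeps the simplices that
lie in `U i`.  A simplex in the union lies in exactly one `U i` (it is connected and non-empty),
and then so do its faces. -/
theorem split_On {ι : Type} [Fintype ι] (U : ι → Set X) (ho : ∀ i, IsOpen (U i))
    (hd : ∀ i j, i ≠ j → Disjoint (U i) (U j)) :
    ∃ P : ∀ k, ι → (Ch X k →ₗ[ℚ] Ch X k),
      (∀ k i c, P k i c ∈ On (U i) k) ∧
      (∀ k c, c ∈ On (⋃ i, U i) k → ∑ i, P k i c = c) ∧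
      (∀ k i (c : Ch X (k + 1)), c ∈ On (⋃ i, U i) (k + 1) → bd (P (k + 1) i c) = P k i (bd c)) ∧
      ∀ k i σ, P k i (sg σ) = if (∀ s, σ s ∈ U i) then sg σ else 0 := by
  have key : ∀ k (σ : C(Sx k, X)), (∀ s, σ s ∈ ⋃ i, U i) → ∃ i, ∀ s, σ s ∈ U i := by
    intro k σ hσ
    have := Sub_preconn k
    obtain ⟨i, hi⟩ := Set.mem_iUnion.1 (hσ (vx 0))
    refine ⟨i, fun s => ?_⟩
    have hcl : IsClopen (σ ⁻¹' U i) := by
      refine ⟨⟨?_⟩, (ho i).preimage σ.continuous⟩
      have : (σ ⁻¹' U i)ᶜ = σ ⁻¹' (⋃ j ∈ {j | j ≠ i}, U j) := by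
        ext t
        simp only [Set.mem_compl_iff, Set.mem_preimage, Set.mem_iUnion, Set.mem_ofPred_eq]
        constructor
        · intro ht
          obtain ⟨j, hj⟩ := Set.mem_iUnion.1 (hσ t)
          exact ⟨j, fun e => ht (e ▸ hj), hj⟩
        · rintro ⟨j, hj, ht⟩ ht'
          exact Set.disjoint_left.1 (hd j i hj) ht ht'
      rw [this]
      exact (isOpen_biUnion fun j _ => ho j).preimage σ.continuous
    have := hcl.eq_univ ⟨vx 0, hi⟩
    have hs : s ∈ σ ⁻¹' U i := by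
      rw [this]
      exact Set.mem_univ s
    exact hs
  have uniq : ∀ k (σ : C(Sx k, X)) i j, (∀ s, σ s ∈ U i) → (∀ s, σ s ∈ U j) → j = i := by
    intro k σ i j hi hj
    by_contra e
    exact Set.disjoint_left.1 (hd j i e) (hj (vx 0)) (hi (vx 0))
  refine ⟨fun k i => ext1 (fun σ => if (∀ s, σ s ∈ U i) then sg σ else 0), ?_, ?_, ?_, ?_⟩
  · intro k i c
    refine Sup_map _ _ (fun σ _ => ?_) (mem_Sup_univ c)
    rw [ext1_sg]
    split_ifs with h
    · exact sg_mem_On h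
    · exact Submodule.zero_mem _
  · intro k c hc
    have := Sup_eq (∑ i, ext1 (fun σ : C(Sx k, X) => if (∀ s, σ s ∈ U i) then sg σ else 0))
      LinearMap.id (fun σ hσ => by
        obtain ⟨i, hi⟩ := key k σ hσ
        rw [LinearMap.sum_apply, Finset.sum_eq_single i]
        · rw [ext1_sg, if_pos hi]
          rfl
        · intro j _ hj
          rw [ext1_sg, if_neg (fun h => hj (uniq k σ i j hi h))]
        · intro h
          exact absurd (Finset.mem_univ i) h) hc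
    rw [LinearMap.sum_apply] at this
    exact this
  · intro k i c hc
    refine Sup_eq (bd.comp (ext1 (fun σ : C(Sx (k + 1), X) =>
        if (∀ s, σ s ∈ U i) then sg σ else 0)))
      ((ext1 (fun σ : C(Sx k, X) => if (∀ s, σ s ∈ U i) then sg σ else 0)).comp bd)
      (fun σ hσ => ?_) hc
    obtain ⟨j, hj⟩ := key (k + 1) σ hσ
    rw [LinearMap.comp_apply, LinearMap.comp_apply, ext1_sg, bd_sg, map_sum]
    by_cases h : ∀ s, σ s ∈ U i
    · rw [if_pos h, bd_sg]
      refine Finset.sum_congr rfl (fun l _ => ?_)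
      have h' : ∀ s, (σ.comp (face k l)) s ∈ U i := fun s => h _
      rw [map_smul, ext1_sg, if_pos h']
    · rw [if_neg h, map_zero]
      refine (Finset.sum_eq_zero (fun l _ => ?_)).symm
      rw [map_smul, ext1_sg, if_neg, smul_zero]
      intro h'
      have := uniq k (σ.comp (face k l)) i j h' (fun s => hj _)
      exact h (this ▸ hj)
  · intro k i σ
    rw [ext1_sg]

end

end Pool.Agent.MP_1c689d_ag.FP

end

section

set_option autoImplicit false

namespace Pool.Agent.MP_1c689d_ag.FP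

noncomputable section

open Polynomial

theorem Ula_face0 (s : Sx 0) : (face 0 0 s).1 1 = 1 := by
  have h : s = stdSimplex.vertex 0 := Subsingleton.elim _ _
  subst h
  show (stdSimplex.map _ (stdSimplex.vertex _) : Sx 1).1 1 = 1
  rw [stdSimplex.map_vertex]
  simp

theorem Ula_face1 (s : Sx 0) : (face 0 1 s).1 1 = 0 := by
  have h : s = stdSimplex.vertex 0 := Subsingleton.elim _ _
  subst h
  show (stdSimplex.map _ (stdSimplex.vertex _) : Sx 1).1 1 = 0
  rw [stdSimplex.map_vertex]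
  simp

/-- the barycentric coordinate on the standard `1`-simplex -/
def Ula_co : C(Sx 1, I) :=
  ⟨fun t => ⟨t.1 1, mem_Icc_of_mem_stdSimplex t.2 1⟩,
    Continuous.subtype_mk ((continuous_apply 1).comp continuous_subtype_val) _⟩

theorem Ula_null {X : Type} [TopologicalSpace X] {V U : Set X} (hVU : V ⊆ U)
    (hn : (ContinuousMap.inclusion hVU).Nullhomotopic) :
    (∀ (k : ℕ) (c : Ch X (k + 1)), c ∈ On V (k + 1) → bd c = 0 →
        ∃ w ∈ On U (k + 2), bd w = c) ∧
      ∀ c : Ch X 0, c ∈ On V 0 → Aff.aug c = 0 → ∃ w ∈ On U 1, bd w = c := by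
  obtain ⟨y, ⟨G⟩⟩ := hn
  let H : C(V × I, X) := (incl U).comp (G.toContinuousMap.comp ⟨Prod.swap, continuous_swap⟩)
  have H0 : ∀ v, H (v, 0) = v.1 := fun v => congrArg Subtype.val (G.apply_zero v)
  have H1 : ∀ v, H (v, 1) = y.1 := fun v => congrArg Subtype.val (G.apply_one v)
  have HU : ∀ q, H q ∈ U := fun q => (G (q.2, q.1)).2
  constructor
  · intro k c hc h0
    obtain ⟨c', h1, rfl⟩ := exists_cycle_On hc h0
    obtain ⟨w, hw, hb⟩ := hty_On H c' h1
    have e0 : H.comp (lev V 0) = incl V := ContinuousMap.ext H0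
    have hm : push (H.comp (lev V 1)) c' ∈ On {y.1} (k + 1) :=
      push_On _ (fun v _ => H1 v) (mem_On_univ c')
    obtain ⟨w', hw', hb'⟩ := pt_On y.1 hm (by rw [bd_push, h1, map_zero])
    refine ⟨w' - w, Submodule.sub_mem _ (On_mono (Set.singleton_subset_iff.2 y.2) _ hw')
      (On_mono (Set.range_subset_iff.2 HU) _ hw), ?_⟩
    rw [map_sub, hb, hb', e0, sub_sub_cancel]
  · intro c hc h0
    have := Sup_map (LinearMap.id - (LinearMap.toSpanSingleton ℚ _
      (sg (ContinuousMap.const (Sx 0) y.1))).comp Aff.aug) ((On U 1).map bd) (by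
        intro σ hσ
        let v : V := ⟨σ (stdSimplex.vertex 0), hσ _⟩
        let τ : C(Sx 1, X) := H.comp ((ContinuousMap.const _ v).prodMk Ula_co)
        have t0 : τ.comp (face 0 0) = ContinuousMap.const _ y.1 := by
          ext s
          have : Ula_co (face 0 0 s) = 1 := Subtype.ext (Ula_face0 s)
          show H (v, Ula_co (face 0 0 s)) = y.1
          rw [this, H1]
        have t1 : τ.comp (face 0 1) = σ := by
          ext s
          have : Ula_co (face 0 1 s) = 0 := Subtype.ext (Ula_face1 s)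
          show H (v, Ula_co (face 0 1 s)) = σ s
          rw [this, H0, Subsingleton.elim s (stdSimplex.vertex 0)]
        refine ⟨-sg τ, Submodule.neg_mem _ (sg_mem_On fun s => HU _), ?_⟩
        rw [map_neg, bd_sg, Fin.sum_univ_two, t0, t1]
        simp [Aff.aug, sub_eq_add_neg]) hc
    obtain ⟨w, hw, hb⟩ := this
    refine ⟨w, hw, ?_⟩
    rw [hb]
    simp [h0]

/-- Uniform local acyclicity.  For each `y` choose a neighbourhood `V y ⊆ ball y (ε/2)` whose
inclusion is null-homotopic; let `δ` be a Lebesgue number of the cover by the interiors of the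
`V y` (`lebesgue_number_lemma_of_metric`).  If `ball x δ ⊆ V y` then `ball y (ε/2) ⊆ ball x ε`.
A cycle in `V y` lifts to the subspace (`exists_cycle_On`), `hty_On` moves it to a point, and
`pt_On` fills it.  For `0`-chains: every point of `V y` is joined to the centre of the
contraction by a path (a singular `1`-simplex `t ↦ H (x, t 1)`, where `t 1 ∈ [0,1]` is a
barycentric coordinate), so `sg σ - sg (const centre)` is a boundary, and `c = c - aug c • _`. -/
theorem ula {X : Type} [MetricSpace X] [CompactSpace X] (hX : LocallyContractibleSpace X)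
    (ε : ℝ) (hε : 0 < ε) : ∃ δ : ℝ, 0 < δ ∧ ∀ x : X,
      (∀ (k : ℕ) (c : Ch X (k + 1)), c ∈ On (Metric.ball x δ) (k + 1) → bd c = 0 →
        ∃ w ∈ On (Metric.ball x ε) (k + 2), bd w = c) ∧
      ∀ c : Ch X 0, c ∈ On (Metric.ball x δ) 0 → Aff.aug c = 0 →
        ∃ w ∈ On (Metric.ball x ε) 1, bd w = c := by
  choose V hVU hV hn using fun y : X => hX y (Metric.ball y (ε / 2))
    (Metric.ball_mem_nhds y (half_pos hε))
  obtain ⟨δ, hδ, hL⟩ := lebesgue_number_lemma_of_metric (s := Set.univ)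
    (c := fun y => interior (V y)) isCompact_univ (fun _ => isOpen_interior)
    (fun y _ => Set.mem_iUnion.2 ⟨y, mem_interior_iff_mem_nhds.2 (hV y)⟩)
  refine ⟨δ, hδ, fun x => ?_⟩
  obtain ⟨y, hy⟩ := hL x (Set.mem_univ x)
  have h1 : Metric.ball x δ ⊆ V y := hy.trans interior_subset
  have h2 : Metric.ball y (ε / 2) ⊆ Metric.ball x ε := by
    have hx : dist x y < ε / 2 := hVU y (h1 (Metric.mem_ball_self hδ))
    intro z hz
    have hz' : dist z y < ε / 2 := hz
    have := dist_triangle_right z x y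
    exact Metric.mem_ball.2 (by linarith)
  obtain ⟨a, b⟩ := Ula_null (hVU y) (hn y)
  constructor
  · intro k c hc h0
    obtain ⟨w, hw, hb⟩ := a k c (On_mono h1 _ hc) h0
    exact ⟨w, On_mono h2 _ hw, hb⟩
  · intro c hc h0
    obtain ⟨w, hw, hb⟩ := b c (On_mono h1 _ hc) h0
    exact ⟨w, On_mono h2 _ hw, hb⟩

end

end Pool.Agent.MP_1c689d_ag.FP

end

section

set_option autoImplicit false

namespace Pool.Agent.MP_1c689d_ag.FP

noncomputable section

open Polynomial

/-- the graph joining two centres at distance less than `r` -/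
def ulaNGraph {X : Type} [MetricSpace X] {n : ℕ} (y : Fin n → X) (r : ℝ) : SimpleGraph (Fin n) :=
  SimpleGraph.fromRel (fun l l' => dist (y l) (y l') < r)

theorem ulaN_walk {X : Type} [MetricSpace X] {n : ℕ} (y : Fin n → X) {r : ℝ}
    {l l' : Fin n} (p : (ulaNGraph y r).Walk l l') : dist (y l) (y l') ≤ r * p.length := by
  induction p with
  | nil => simp
  | @cons a b c h p ih =>
    have h1 : dist (y a) (y b) < r := by
      rw [ulaNGraph, SimpleGraph.fromRel_adj] at h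
      rcases h.2 with h2 | h2
      · exact h2
      · rwa [dist_comm]
    have h2 := dist_triangle (y a) (y b) (y c)
    rw [SimpleGraph.Walk.length_cons]
    push_cast
    linarith

theorem ulaN_reach {X : Type} [MetricSpace X] {n : ℕ} (y : Fin n → X) {r : ℝ} (hr : 0 ≤ r)
    {l l' : Fin n} (h : (ulaNGraph y r).Reachable l l') : dist (y l) (y l') ≤ r * n := by
  classical
  obtain ⟨p, hp⟩ := h.exists_isPath
  have h1 := hp.length_lt
  rw [Fintype.card_fin] at h1
  have h2 : (p.length : ℝ) ≤ n := by exact_mod_cast h1.le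
  exact (ulaN_walk y p).trans (mul_le_mul_of_nonneg_left h2 hr)

theorem ulaN_near {X : Type} [MetricSpace X] {n : ℕ} (y : Fin n → X) {r : ℝ}
    {l l' : Fin n} (h : dist (y l) (y l') < r) : (ulaNGraph y r).Reachable l l' := by
  by_cases e : l = l'
  · rw [e]
  · apply SimpleGraph.Adj.reachable
    rw [ulaNGraph, SimpleGraph.fromRel_adj]
    exact ⟨e, Or.inl h⟩

/-- Uniform local acyclicity for unions of `n` balls.  Take `δ` from `ula` and
`ρ = δ / (2 n + 2)`.  Let `∼` be the equivalence relation on `Fin n` generated by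
`dist (y l) (y l') < 2 ρ`; for a class `C` put `U C = ⋃ l ∈ C, ball (y l) ρ`.  These open sets are
pairwise disjoint and `U C ⊆ ball (y l₀) δ` for any `l₀ ∈ C` (two members of a class are joined by
a chain of at most `n` steps; alternatively: the set of `l` reachable from `l₀` in `≤ j` steps
grows strictly until it is stable).  Split the cycle with `split_On` and fill each part. -/
theorem ulaN {X : Type} [MetricSpace X] [CompactSpace X] (hX : LocallyContractibleSpace X)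
    (n : ℕ) (ε : ℝ) (hε : 0 < ε) : ∃ ρ : ℝ, 0 < ρ ∧ ∀ (y : Fin n → X) (k : ℕ) (c : Ch X (k + 1)),
      c ∈ On (⋃ l, Metric.ball (y l) ρ) (k + 1) → bd c = 0 →
        ∃ w ∈ On (⋃ l, Metric.ball (y l) ε) (k + 2), bd w = c := by
  classical
  obtain ⟨δ, hδ, hu⟩ := ula hX ε hε
  have hn : (0 : ℝ) < 2 * n + 2 := by positivity
  refine ⟨δ / (2 * n + 2), div_pos hδ hn, ?_⟩
  intro y k c hc h0
  set ρ : ℝ := δ / (2 * n + 2) with hρ
  have hρ0 : 0 < ρ := div_pos hδ hn
  have hρδ : ρ * (2 * n + 2) = δ := div_mul_cancel₀ δ hn.ne'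
  let G : SimpleGraph (Fin n) := ulaNGraph y (2 * ρ)
  let U : G.ConnectedComponent → Set X := fun C =>
    ⋃ l ∈ {l | G.connectedComponentMk l = C}, Metric.ball (y l) ρ
  have hUo : ∀ C, IsOpen (U C) := fun C =>
    isOpen_biUnion fun l _ => Metric.isOpen_ball
  have hUm : ∀ C x, x ∈ U C ↔ ∃ l, G.connectedComponentMk l = C ∧ dist x (y l) < ρ := by
    intro C x
    simp [U, Metric.mem_ball]
  have hUd : ∀ C C', C ≠ C' → Disjoint (U C) (U C') := by
    intro C C' hne
    rw [Set.disjoint_left]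
    intro x hx hx'
    obtain ⟨l, hl, h1⟩ := (hUm C x).1 hx
    obtain ⟨l', hl', h2⟩ := (hUm C' x).1 hx'
    apply hne
    rw [← hl, ← hl', SimpleGraph.ConnectedComponent.eq]
    apply ulaN_near
    have := dist_triangle_left (y l) (y l') x
    linarith
  have hUU : (⋃ l, Metric.ball (y l) ρ) ⊆ ⋃ C, U C := by
    intro x hx
    obtain ⟨l, hl⟩ := Set.mem_iUnion.1 hx
    exact Set.mem_iUnion.2 ⟨G.connectedComponentMk l, (hUm _ x).2 ⟨l, rfl, hl⟩⟩
  have : Fintype G.ConnectedComponent := Fintype.ofFinite _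
  obtain ⟨P, hP1, hP2, hP3, -⟩ := split_On U hUo hUd
  have hc' : c ∈ On (⋃ C, U C) (k + 1) := On_mono hUU _ hc
  have key : ∀ C, ∃ w ∈ On (⋃ l, Metric.ball (y l) ε) (k + 2), bd w = P (k + 1) C c := by
    intro C
    obtain ⟨l₀, hl₀⟩ := C.exists_rep
    have hsub : U C ⊆ Metric.ball (y l₀) δ := by
      intro x hx
      obtain ⟨l, hl, h1⟩ := (hUm C x).1 hx
      have hr : G.Reachable l l₀ := by
        rw [← SimpleGraph.ConnectedComponent.eq, hl]
        exact hl₀.symm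
      have h2 := ulaN_reach y (by positivity : (0 : ℝ) ≤ 2 * ρ) hr
      have h3 := dist_triangle x (y l) (y l₀)
      rw [Metric.mem_ball]
      nlinarith
    obtain ⟨w, hw, hb⟩ := (hu (y l₀)).1 k (P (k + 1) C c) (On_mono hsub _ (hP1 _ C c))
      (by rw [hP3 k C c hc', h0, map_zero])
    exact ⟨w, On_mono (Set.subset_iUnion (fun l => Metric.ball (y l) ε) l₀) _ hw, hb⟩
  choose w hw hb using key
  refine ⟨∑ C, w C, Submodule.sum_mem _ fun C _ => hw C, ?_⟩
  rw [map_sum, Finset.sum_congr rfl fun C _ => hb C]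
  exact hP2 _ c hc'

end

end Pool.Agent.MP_1c689d_ag.FP

end

section

set_option autoImplicit false

namespace Pool.Agent.MP_1c689d_ag.FP

noncomputable section

open Polynomial

/-- Step 1 (matching continuity).  The set `K` of tuples `y` such that no permutation of `y` is
`η`-close to `y₀` is closed, hence compact; the projection of `Γ ∩ (D × K)` to `D` is closed
(`isClosedMap_fst_of_compactSpace`) and misses `d₀`. -/
theorem mvh_match {X D : Type} [MetricSpace X] [CompactSpace X] [TopologicalSpace D] {n : ℕ}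
    (Γ : Set (D × (Fin n → X))) (hc : IsClosed Γ)
    (horb : ∀ d y y', (d, y) ∈ Γ → (d, y') ∈ Γ → ∃ π : Equiv.Perm (Fin n), y' = y ∘ π)
    (d₀ : D) (y₀ : Fin n → X) (h₀ : (d₀, y₀) ∈ Γ) (η : ℝ) (hη : 0 < η) :
    ∃ W : Set D, IsOpen W ∧ d₀ ∈ W ∧ ∀ d ∈ W, ∀ y, (d, y) ∈ Γ →
      ∃ π : Equiv.Perm (Fin n), ∀ l, dist (y (π l)) (y₀ l) < η := by
  have hK : IsClosed {y : Fin n → X | ∀ π : Equiv.Perm (Fin n), ∃ l, η ≤ dist (y (π l)) (y₀ l)} := by
    simp only [Set.ofPred_forall, Set.ofPred_exists]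
    exact isClosed_iInter fun π => isClosed_iUnion_of_finite fun l =>
      isClosed_le continuous_const ((continuous_apply _).dist continuous_const)
  refine ⟨(Prod.fst '' (Γ ∩ Prod.snd ⁻¹' _))ᶜ,
    (isClosedMap_fst_of_compactSpace _ (hc.inter (hK.preimage continuous_snd))).isOpen_compl,
    ?_, fun d hd y hy => ?_⟩
  · rintro ⟨⟨d, y⟩, ⟨h1, h2⟩, rfl⟩
    obtain ⟨π, rfl⟩ := horb _ _ _ h1 h₀
    obtain ⟨l, hl⟩ := h2 π
    simp only [Function.comp_apply, dist_self] at hl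
    exact absurd hη (not_lt.2 hl)
  · by_contra h
    push Not at h
    exact hd ⟨(d, y), ⟨hy, h⟩, rfl⟩

section Aux

variable {X B : Type} [MetricSpace X] [TopologicalSpace B] {n : ℕ}

/-- the set of all values over a simplex -/
def mvhA (Γ : Set ((B × I) × (Fin n → X))) {j : ℕ} (σ : C(Sx j, B × I)) : Set X :=
  {x | ∃ t y l, (σ t, y) ∈ Γ ∧ x = y l}

/-- all values over the simplex match a fixed tuple -/
def mvhM (Γ : Set ((B × I) × (Fin n → X))) (η : ℝ) (y₀ : Fin n → X) {j : ℕ}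
    (σ : C(Sx j, B × I)) : Prop :=
  ∀ t y, (σ t, y) ∈ Γ → ∃ π : Equiv.Perm (Fin n), ∀ l, dist (y (π l)) (y₀ l) < η

/-- good simplices -/
def mvhG (Γ : Set ((B × I) × (Fin n → X))) (η : ℝ) (j : ℕ) : Set C(Sx j, B × I) :=
  {σ | ∃ y₀, mvhM Γ η y₀ σ}

/-- the prescribed values on the levels in `T` -/
def mvhL (T : Set I) (J : I → Fin n → C(B, X)) {j : ℕ} (τ : C(Sx j, B × I) → Ch X j) : Prop :=
  ∀ t ∈ T, ∀ σ : C(Sx j, B), τ ((lev B t).comp σ) = ∑ l, sg ((J t l).comp σ)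

variable {Γ : Set ((B × I) × (Fin n → X))} {T : Set I} {J : I → Fin n → C(B, X)}

theorem mvh_mono {η η' : ℝ} (h : η ≤ η') {j : ℕ} : mvhG Γ η j ⊆ mvhG Γ η' j := by
  rintro σ ⟨y₀, hσ⟩
  refine ⟨y₀, fun t y hy => ?_⟩
  obtain ⟨π, hπ⟩ := hσ t y hy
  exact ⟨π, fun l => (hπ l).trans_le h⟩

theorem mvh_bd {η : ℝ} {j : ℕ} {σ : C(Sx (j + 1), B × I)} (h : σ ∈ mvhG Γ η (j + 1)) :
    bd (sg σ) ∈ Sup {σ' | σ' ∈ mvhG Γ η j ∧ mvhA Γ σ' ⊆ mvhA Γ σ} := by
  obtain ⟨y₀, hσ⟩ := h
  rw [bd_sg]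
  refine Submodule.sum_mem _ fun i _ => Submodule.smul_mem _ _ (sg_mem ⟨⟨y₀, fun t y hy =>
    hσ _ y hy⟩, ?_⟩)
  rintro _ ⟨t, y, l, hy, rfl⟩
  exact ⟨_, y, l, hy, rfl⟩

theorem mvh_in {η s : ℝ} {y₀ : Fin n → X} {j : ℕ} {σ : C(Sx j, B × I)} (h : mvhM Γ η y₀ σ) :
    Metric.thickening s (mvhA Γ σ) ⊆ ⋃ l, Metric.ball (y₀ l) (s + η) := by
  intro x hx
  obtain ⟨_, ⟨t, y, l, hy, rfl⟩, hx⟩ := Metric.mem_thickening_iff.1 hx
  obtain ⟨π, hπ⟩ := h t y hy
  have h1 := hπ (π.symm l)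
  rw [Equiv.apply_symm_apply] at h1
  exact Set.mem_iUnion.2 ⟨π.symm l, (dist_triangle _ _ _).trans_lt (add_lt_add hx h1)⟩

theorem mvh_out (hne : ∀ d, ∃ y, (d, y) ∈ Γ) {η s : ℝ} {y₀ : Fin n → X} {j : ℕ}
    {σ : C(Sx j, B × I)} (h : mvhM Γ η y₀ σ) (l : Fin n) :
    Metric.ball (y₀ l) s ⊆ Metric.thickening (s + η) (mvhA Γ σ) := by
  intro x hx
  obtain ⟨y, hy⟩ := hne (σ (stdSimplex.vertex 0))
  obtain ⟨π, hπ⟩ := h _ y hy
  exact Metric.mem_thickening_iff.2 ⟨_, ⟨_, y, π l, hy, rfl⟩,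
    (dist_triangle_right _ _ _).trans_lt (add_lt_add hx (hπ l))⟩

theorem mvh_lin {j : ℕ} {τ : C(Sx j, B × I) → Ch X j} (h : mvhL T J τ) {t : I} (ht : t ∈ T)
    (c : Ch B j) : ext1 τ (push (lev B t) c) = ∑ l, push (J t l) c := by
  have : (ext1 τ).comp (push (lev B t)) = ∑ l, push (J t l) :=
    lin_ext fun σ => by
      simp only [LinearMap.comp_apply, push_sg, ext1_sg, h t ht σ, LinearMap.sum_apply]
  rw [← LinearMap.sum_apply, ← this]
  rfl

theorem mvh_pick (hJ : ∀ t ∈ T, ∀ b, ((b, t), fun l => J t l b) ∈ Γ) {j : ℕ}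
    {τ : C(Sx j, B × I) → Ch X j} (h : mvhL T J τ) {ε η : ℝ} (hε : 0 < ε)
    (hf : ∀ σ ∈ mvhG Γ η (j + 1), ∃ w ∈ On (Metric.thickening ε (mvhA Γ σ)) (j + 1),
      bd w = ext1 τ (bd (sg σ))) :
    ∃ τ' : C(Sx (j + 1), B × I) → Ch X (j + 1), mvhL T J τ' ∧ ∀ σ ∈ mvhG Γ η (j + 1),
      τ' σ ∈ On (Metric.thickening ε (mvhA Γ σ)) (j + 1) ∧ bd (τ' σ) = ext1 τ (bd (sg σ)) := by
  have key : ∀ σ : C(Sx (j + 1), B × I), ∃ w : Ch X (j + 1),
      (∀ t ∈ T, ∀ σ' : C(Sx (j + 1), B), σ = (lev B t).comp σ' → w = ∑ l, sg ((J t l).comp σ')) ∧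
      (σ ∈ mvhG Γ η (j + 1) → w ∈ On (Metric.thickening ε (mvhA Γ σ)) (j + 1) ∧
        bd w = ext1 τ (bd (sg σ))) := by
    intro σ
    by_cases h1 : ∃ t ∈ T, ∃ σ' : C(Sx (j + 1), B), σ = (lev B t).comp σ'
    · obtain ⟨t, ht, σ', rfl⟩ := h1
      refine ⟨∑ l, sg ((J t l).comp σ'), fun t' _ σ'' e => ?_, fun _ => ⟨?_, ?_⟩⟩
      · have e1 : t = t' := congrArg Prod.snd (DFunLike.congr_fun e (stdSimplex.vertex 0))
        have e2 : σ' = σ'' := ContinuousMap.ext fun s => congrArg Prod.fst (DFunLike.congr_fun e s)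
        rw [e1, e2]
      · refine Submodule.sum_mem _ fun l _ => sg_mem_On fun s => ?_
        exact Metric.self_subset_thickening hε _ ⟨s, _, l, hJ t ht (σ' s), rfl⟩
      · rw [← push_sg, bd_push, mvh_lin h ht, map_sum]
        exact Finset.sum_congr rfl fun l _ => by rw [← push_sg, bd_push]
    · by_cases h2 : σ ∈ mvhG Γ η (j + 1)
      · obtain ⟨w, h3, h4⟩ := hf σ h2
        exact ⟨w, fun t ht σ' e => absurd ⟨t, ht, σ', e⟩ h1, fun _ => ⟨h3, h4⟩⟩
      · exact ⟨0, fun t ht σ' e => absurd ⟨t, ht, σ', e⟩ h1, fun h3 => absurd h3 h2⟩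
  choose τ' h1 h2 using key
  exact ⟨τ', fun t ht σ => h1 _ t ht σ rfl, h2⟩

theorem mvh_ind [CompactSpace X] (hX : LocallyContractibleSpace X)
    (hne : ∀ d, ∃ y, (d, y) ∈ Γ)
    (horb : ∀ d y y', (d, y) ∈ Γ → (d, y') ∈ Γ → ∃ π : Equiv.Perm (Fin n), y' = y ∘ π)
    (hJ : ∀ t ∈ T, ∀ b, ((b, t), fun l => J t l b) ∈ Γ) (j : ℕ) :
    ∀ ε : ℝ, 0 < ε → ∃ η : ℝ, 0 < η ∧ ∃ (τ : C(Sx j, B × I) → Ch X j)
      (τ' : C(Sx (j + 1), B × I) → Ch X (j + 1)), mvhL T J τ ∧ mvhL T J τ' ∧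
        ∀ σ ∈ mvhG Γ η (j + 1), τ' σ ∈ On (Metric.thickening ε (mvhA Γ σ)) (j + 1) ∧
          bd (τ' σ) = ext1 τ (bd (sg σ)) := by
  induction j with
  | zero =>
    intro ε hε
    obtain ⟨δ, hδ, hu⟩ := ula hX (ε / 2) (half_pos hε)
    choose Φ hΦ using id hne
    have hL : mvhL T J fun σ : C(Sx 0, B × I) =>
        ∑ l, sg (ContinuousMap.const (Sx 0) (Φ (σ (stdSimplex.vertex 0)) l)) := by
      intro t ht σ
      obtain ⟨π, hπ⟩ := horb _ _ _ (hΦ _) (hJ t ht (σ (stdSimplex.vertex 0)))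
      refine (Equiv.sum_comp π _).symm.trans (Finset.sum_congr rfl fun l _ => ?_)
      congr 1
      ext1 s
      rw [Subsingleton.elim s (stdSimplex.vertex 0)]
      exact (congrFun hπ l).symm
    obtain ⟨τ', h1, h2⟩ := mvh_pick (η := min δ (ε / 2)) hJ hL hε (by
      rintro σ ⟨y₀, hσ⟩
      obtain ⟨π, hπ⟩ := hσ (face 0 0 (stdSimplex.vertex 0)) _ (hΦ _)
      obtain ⟨π', hπ'⟩ := hσ (face 0 1 (stdSimplex.vertex 0)) _ (hΦ _)
      have hw := fun l => (hu (y₀ l)).2
        (sg (ContinuousMap.const (Sx 0) (Φ (σ (face 0 0 (stdSimplex.vertex 0))) (π l))) -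
          sg (ContinuousMap.const (Sx 0) (Φ (σ (face 0 1 (stdSimplex.vertex 0))) (π' l))))
        (Submodule.sub_mem _ (sg_mem_On fun _ => (hπ l).trans_le (min_le_left _ _))
          (sg_mem_On fun _ => (hπ' l).trans_le (min_le_left _ _)))
        (by simp [Aff.aug])
      choose w hw1 hw2 using hw
      refine ⟨∑ l, w l, Submodule.sum_mem _ fun l _ => On_mono ((mvh_out hne hσ l).trans
        (Metric.thickening_mono (by linarith [min_le_right δ (ε / 2)]) _)) _ (hw1 l), ?_⟩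
      rw [map_sum, Finset.sum_congr rfl fun l _ => hw2 l, Finset.sum_sub_distrib, bd_sg,
        Fin.sum_univ_two, map_add, map_smul, map_smul, ext1_sg, ext1_sg,
        Equiv.sum_comp π fun l => sg (ContinuousMap.const (Sx 0)
          (Φ (σ (face 0 0 (stdSimplex.vertex 0))) l)),
        Equiv.sum_comp π' fun l => sg (ContinuousMap.const (Sx 0)
          (Φ (σ (face 0 1 (stdSimplex.vertex 0))) l))]
      simp [sub_eq_add_neg])
    exact ⟨min δ (ε / 2), lt_min hδ (half_pos hε), _, τ', hL, h1, h2⟩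
  | succ j ih =>
    intro ε hε
    obtain ⟨ρ, hρ, hu⟩ := ulaN hX n (ε / 2) (half_pos hε)
    obtain ⟨η, hη, τ, τ', -, h1, h2⟩ := ih (ρ / 2) (half_pos hρ)
    refine ⟨min η (min (ρ / 2) (ε / 2)), lt_min hη (lt_min (half_pos hρ) (half_pos hε)), τ', ?_⟩
    obtain ⟨τ'', h3, h4⟩ := mvh_pick (η := min η (min (ρ / 2) (ε / 2))) hJ h1 hε (by
      intro σ hG
      have hb := mvh_bd (mvh_mono (min_le_left _ _) hG)
      obtain ⟨y₀, hσ⟩ := hG
      have e1 := (min_le_right η _).trans (min_le_left (ρ / 2) (ε / 2))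
      have e2 := (min_le_right η _).trans (min_le_right (ρ / 2) (ε / 2))
      obtain ⟨w, hw1, hw2⟩ := hu y₀ j (ext1 τ' (bd (sg σ)))
        (Sup_map _ _ (fun σ' hσ' => by
          rw [ext1_sg]
          refine On_mono (((Metric.thickening_subset_of_subset _ hσ'.2).trans
            (mvh_in hσ)).trans (Set.iUnion_mono fun l => Metric.ball_subset_ball ?_)) _
            (h2 σ' hσ'.1).1
          linarith) hb)
        (by
          have := Sup_eq (bd.comp (ext1 τ')) ((ext1 τ).comp bd) (fun σ' hσ' => by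
            rw [LinearMap.comp_apply, ext1_sg, (h2 σ' hσ'.1).2, LinearMap.comp_apply]) hb
          rwa [LinearMap.comp_apply, LinearMap.comp_apply, bd_bd, map_zero] at this)
      exact ⟨w, On_mono (Set.iUnion_subset fun l => (mvh_out hne hσ l).trans
        (Metric.thickening_mono (by linarith) _)) _ hw1, hw2⟩)
    exact ⟨τ'', h1, h3, h4⟩

end Aux

/-- Homotopy invariance for multivalued maps (a continuous map `B × I → Sym^n X`).
Fix a metric on `X`, put `D = B × I`, choose `Φ d` with the pair `d, Φ d` in `Γ`.  For a simplex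
`σ : C(Sx j, D)` let `A σ = {Φ (σ t) l}`.  Choose radii backwards: `r (k+2) = 1`; if `ρ j` is given
by `ulaN` (for `j = 1` by the second part of `ula`) for the radius `r j`, put `r (j-1) = ρ j / 2`;
and `η ≤ ρ j / 4` for all `1 ≤ j ≤ k + 2`.  Call `σ` good if its image lies in one of the open sets
`W d₀` of `mvh_match` (for `y₀ = Φ d₀` and this `η`); faces of good simplices are good and
`A (face) ⊆ A σ ⊆ ⋃ l, ball (Φ d₀ l) η`, and every `Φ d₀ l` is `η`-close to a point of `A σ`.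
Construct by induction on `j ≤ k + 2` maps `τ j : C(Sx j, D) → Ch X j` such that for good `σ`:
(a) `τ j σ ∈ On (Metric.thickening (r j + η) (A σ)) j`;
(b) if `σ` lies in `B × {0}` then `τ j σ = ∑ l, sg ((j0 l).comp (fst.comp σ))`, same for `1`;
(c) `bd (τ (j+1) σ) = ext1 (τ j) (bd (sg σ))`.
For `j = 0` take `∑ l, sg (const (Φ (σ vertex) l))` (this agrees with (b) by `horb`).  In the step,
simplices in `B × {0}` or `B × {1}` get the value of (b) (then (c) holds by (b) for the faces, (a)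
by `horb`); for the others `z = ext1 (τ j) (bd (sg σ))` is a cycle by (c) for the faces and
`bd_bd`, it lies in `⋃ l, ball (Φ d₀ l) (r j + 2 η)`, and `ulaN` fills it inside
`⋃ l, ball (Φ d₀ l) (r (j+1))`.  For `j + 1 = 1`, `z = ∑ l, (pt (Φ v₁ (π₁ l)) - pt (Φ v₀ (π₀ l)))`
is filled term by term with the second part of `ula`.
Finally let `w` be the `prism` of `c`, `SdN M w` good by `small`; then
`bd (ext1 τ (SdN M w)) = ∑ push (j1 l) (SdN M c) - ∑ push (j0 l) (SdN M c)` (use `bd_SdN`,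
`SdN_push`, `Sup_eq`), and `SdN_hom` finishes. -/
theorem mvh {X B : Type} [TopologicalSpace X] [CompactSpace X] [TopologicalSpace.MetrizableSpace X]
    (hX : LocallyContractibleSpace X) [TopologicalSpace B] {n : ℕ}
    (Γ : Set ((B × I) × (Fin n → X))) (hc : IsClosed Γ) (hne : ∀ d, ∃ y, (d, y) ∈ Γ)
    (horb : ∀ d y y', (d, y) ∈ Γ → (d, y') ∈ Γ → ∃ π : Equiv.Perm (Fin n), y' = y ∘ π)
    (j0 j1 : Fin n → C(B, X)) (h0 : ∀ b, ((b, 0), fun l => j0 l b) ∈ Γ)
    (h1 : ∀ b, ((b, 1), fun l => j1 l b) ∈ Γ) {k : ℕ} (c : Ch B (k + 1)) (hc0 : bd c = 0) :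
    ∃ w : Ch X (k + 2), bd w = ∑ l, push (j1 l) c - ∑ l, push (j0 l) c := by
  classical
  let _ : MetricSpace X := TopologicalSpace.metrizableSpaceMetric X
  obtain ⟨η, hη, τ, τ', hL, -, h2⟩ := mvh_ind (T := {0, 1})
    (J := fun t => if t = 0 then j0 else j1) hX hne horb (by
      rintro t (rfl | rfl) b
      · simpa using h0 b
      · simpa using h1 b) (k + 1) 1 one_pos
  obtain ⟨w, hw⟩ := prism c hc0
  obtain ⟨M, hM⟩ := small {W : Set (B × I) | IsOpen W ∧ ∃ y₀ : Fin n → X, ∀ d ∈ W, ∀ y,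
      (d, y) ∈ Γ → ∃ π : Equiv.Perm (Fin n), ∀ l, dist (y (π l)) (y₀ l) < η}
    (fun V hV => hV.1) (fun d => by
      obtain ⟨y₀, hy⟩ := hne d
      obtain ⟨W, w1, w2, w3⟩ := mvh_match Γ hc horb d y₀ hy η hη
      exact ⟨W, ⟨w1, y₀, w3⟩, w2⟩) w
  have h3 := Sup_eq (bd.comp (ext1 τ')) ((ext1 τ).comp bd) (by
    rintro σ ⟨V, ⟨-, y₀, hV⟩, hσ⟩
    rw [LinearMap.comp_apply, ext1_sg, (h2 σ ⟨y₀, fun t y hy => hV _ (hσ t) y hy⟩).2,
      LinearMap.comp_apply]) hM
  rw [LinearMap.comp_apply, LinearMap.comp_apply, bd_SdN, hw, map_sub, SdN_push, SdN_push, map_sub,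
    mvh_lin hL (Or.inr rfl), mvh_lin hL (Or.inl rfl), if_pos rfl, if_neg one_ne_zero] at h3
  obtain ⟨u, hu⟩ := SdN_hom M c hc0
  refine ⟨ext1 τ' (SdN M w) - ∑ l, push (j1 l) u + ∑ l, push (j0 l) u, ?_⟩
  simp only [map_add, map_sub, map_sum, h3, bd_push, hu, Finset.sum_sub_distrib]
  abel

end

end Pool.Agent.MP_1c689d_ag.FP

end

section

set_option autoImplicit false

namespace Pool.Agent.MP_1c689d_ag.FP

noncomputable section

open Polynomial

variable {F : Type} [Field F] [Algebra ℂ F] {N : ℕ} {Ω : Type} [Field Ω] [Algebra ℂ Ω]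

/-- enlarging the algebra (`ev_res`, `push_push`, `bd_push`) -/
theorem pu_res (ξ : Fin (N + 1) → F) {R R' : Subalgebra ℂ Ω} (h : R ≤ R') (x : Fin (N + 1) → Ω)
    (hR : ∀ i, x i ∈ R) (c : Ch (Pts R') 3) :
    pu ξ R' x c = pu ξ R x (push (res (Subalgebra.inclusion h)) c) := by
  by_cases hx : IsPt ξ x
  · rw [pu_eq ξ R' x hx (fun i => h (hR i)), pu_eq ξ R x hx hR, push_push, ev_res]
  · simp [pu, hx]

theorem NullS_up (ξ : Fin (N + 1) → F) {Z : (Fin (N + 1) → Ω) →₀ ℚ} {R R' : Subalgebra ℂ Ω}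
    (h : R ≤ R') (hs : ∀ x ∈ Z.support, ∀ i, x i ∈ R)
    (hw : ∀ c : Ch (Pts R) 3, bd c = 0 →
      ∃ w : Ch (Pt ξ) 4, bd w = Finsupp.linearCombination ℚ (fun x => pu ξ R x c) Z)
    (c : Ch (Pts R') 3) (hc : bd c = 0) :
    ∃ w : Ch (Pt ξ) 4, bd w = Finsupp.linearCombination ℚ (fun x => pu ξ R' x c) Z := by
  obtain ⟨w, e⟩ := hw (push (res (Subalgebra.inclusion h)) c) (by rw [bd_push, hc, map_zero])
  refine ⟨w, e.trans ?_⟩
  rw [Finsupp.linearCombination_apply, Finsupp.linearCombination_apply]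
  exact Finsupp.sum_congr fun x hx => by rw [pu_res ξ h x (hs x hx)]

theorem null_zero (ξ : Fin (N + 1) → F) : Null ξ (0 : (Fin (N + 1) → Ω) →₀ ℚ) := by
  exact ⟨⊥, Subalgebra.fg_bot, by simp, fun c _ => ⟨0, by simp⟩⟩

/-- use `R ⊔ R'` -/
theorem null_add (ξ : Fin (N + 1) → F) {Z Z' : (Fin (N + 1) → Ω) →₀ ℚ} (h : Null ξ Z)
    (h' : Null ξ Z') : Null ξ (Z + Z') := by
  classical
  obtain ⟨R, hR, hs, hw⟩ := h
  obtain ⟨R', hR', hs', hw'⟩ := h'
  refine ⟨R ⊔ R', hR.sup hR', fun x hx i => ?_, fun c hc => ?_⟩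
  · rcases Finset.mem_union.1 (Finsupp.support_add hx) with hx | hx
    · exact (le_sup_left : R ≤ R ⊔ R') (hs x hx i)
    · exact (le_sup_right : R' ≤ R ⊔ R') (hs' x hx i)
  · obtain ⟨w, e⟩ := NullS_up ξ (le_sup_left : R ≤ R ⊔ R') hs hw c hc
    obtain ⟨w', e'⟩ := NullS_up ξ (le_sup_right : R' ≤ R ⊔ R') hs' hw' c hc
    exact ⟨w + w', by rw [map_add, map_add, e, e']⟩

theorem null_smul (ξ : Fin (N + 1) → F) (q : ℚ) {Z : (Fin (N + 1) → Ω) →₀ ℚ} (h : Null ξ Z) :
    Null ξ (q • Z) := by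
  obtain ⟨R, hR, hs, hw⟩ := h
  refine ⟨R, hR, fun x hx i => hs x (Finsupp.support_smul hx) i, fun c hc => ?_⟩
  obtain ⟨w, e⟩ := hw c hc
  exact ⟨q • w, by rw [map_smul, map_smul, e]⟩

/-- duality for the submodule of null combinations -/
theorem null_of_forall (ξ : Fin (N + 1) → F) (Z : (Fin (N + 1) → Ω) →₀ ℚ)
    (h : ∀ lam : ((Fin (N + 1) → Ω) →₀ ℚ) →ₗ[ℚ] ℚ, (∀ W, Null ξ W → lam W = 0) → lam Z = 0) :
    Null ξ Z := by
  let M : Submodule ℚ ((Fin (N + 1) → Ω) →₀ ℚ) :=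
    { carrier := {W | Null ξ W}
      add_mem' := fun a b => null_add ξ a b
      zero_mem' := null_zero ξ
      smul_mem' := fun q _ a => null_smul ξ q a }
  have hM : Z ∈ M.dualAnnihilator.dualCoannihilator := by
    rw [Submodule.mem_dualCoannihilator]
    intro lam hl
    rw [Submodule.mem_dualAnnihilator] at hl
    exact h lam hl
  rwa [Subspace.dualAnnihilator_dualCoannihilator_eq] at hM

end

end Pool.Agent.MP_1c689d_ag.FP

end

section

set_option autoImplicit false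

namespace Pool.Agent.MP_1c689d_ag.FP

noncomputable section

open Polynomial

variable {Ω E : Type} [Field Ω] [Field E] [Algebra ℂ Ω] [Algebra ℂ E] [Algebra Ω E]
  [IsScalarTower ℂ Ω E]
variable {F : Type} [Field F] [Algebra ℂ F] {N : ℕ}

omit [Field E] [Algebra ℂ E] [Algebra Ω E] [IsScalarTower ℂ Ω E] in
theorem re_pv_cont (R : Subalgebra ℂ Ω) (x : Ω) : Continuous fun p : Pts R => pv p x := by
  by_cases h : x ∈ R
  · simp only [pv_eq _ h]
    exact Pts.cont _
  · have : (fun p : Pts R => pv p x) = fun _ => 0 := funext fun p => dif_neg h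
    rw [this]
    exact continuous_const

omit [Field E] [Algebra ℂ E] [Algebra Ω E] [IsScalarTower ℂ Ω E] in
theorem re_pv_val {R : Subalgebra ℂ Ω} (p : Pts R) (x : R) : pv p (x : Ω) = p.h x :=
  pv_eq p x.2

omit [Field E] [Algebra ℂ E] [Algebra Ω E] [IsScalarTower ℂ Ω E] in
theorem re_pv_zero {R : Subalgebra ℂ Ω} (p : Pts R) : pv p (0 : Ω) = 0 := by
  have := re_pv_val p 0
  simpa using this

omit [Field E] [Algebra ℂ E] [Algebra Ω E] [IsScalarTower ℂ Ω E] in
theorem re_pv_mul {R : Subalgebra ℂ Ω} (p : Pts R) {x y : Ω} (hx : x ∈ R) (hy : y ∈ R) :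
    pv p (x * y) = pv p x * pv p y := by
  rw [pv_eq p hx, pv_eq p hy, pv_eq p (R.mul_mem hx hy), ← map_mul]
  rfl

omit [Field E] [Algebra ℂ E] [Algebra Ω E] [IsScalarTower ℂ Ω E] in
theorem re_pv_ne {R : Subalgebra ℂ Ω} (p : Pts R) {x : Ω} (h0 : x ≠ 0) (hx : x ∈ R)
    (hy : x⁻¹ ∈ R) : pv p x ≠ 0 := by
  intro h
  have h1 := re_pv_mul p hx hy
  rw [mul_inv_cancel₀ h0, h, zero_mul] at h1
  have h2 := re_pv_val p 1
  simp only [OneMemClass.coe_one, map_one] at h2
  rw [h2] at h1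
  exact one_ne_zero h1

omit [Field E] [Algebra ℂ E] [Algebra Ω E] [IsScalarTower ℂ Ω E] in
theorem re_pv_lin {R : Subalgebra ℂ Ω} (p : Pts R) {n : ℕ} (z : Fin n → Fin (N + 1) → Ω)
    (hz : ∀ l i, z l i ∈ R) (m : Fin (N + 1) →₀ ℕ) :
    (∏ l, lin (z l)).coeff m ∈ R ∧ pv p ((∏ l, lin (z l)).coeff m) =
      (∏ l, lin (fun i => p.h ⟨z l i, hz l i⟩)).coeff m := by
  have h1 : ∏ l, lin (z l) = MvPolynomial.map (R.val : R →+* Ω)
      (∏ l, lin (fun i => (⟨z l i, hz l i⟩ : R))) := by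
    rw [map_prod]
    refine Finset.prod_congr rfl fun l _ => ?_
    rw [map_lin]
    rfl
  have h2 : ∏ l, lin (fun i => p.h ⟨z l i, hz l i⟩) = MvPolynomial.map (p.h : R →+* ℂ)
      (∏ l, lin (fun i => (⟨z l i, hz l i⟩ : R))) := by
    rw [map_prod]
    refine Finset.prod_congr rfl fun l _ => ?_
    rw [map_lin]
    rfl
  rw [h1, h2, MvPolynomial.coeff_map, MvPolynomial.coeff_map]
  exact ⟨Subtype.property _, re_pv_val p _⟩

omit [Field E] [Algebra ℂ E] [Algebra Ω E] [IsScalarTower ℂ Ω E] in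
theorem re_lift {R : Subalgebra ℂ Ω} (f : Polynomial Ω) (hf : ∀ k, f.coeff k ∈ R) :
    ∃ g : Polynomial R, g.map (R.val : R →+* Ω) = f := by
  rw [← Polynomial.mem_lifts, Polynomial.lifts_iff_coeff_lifts]
  intro k
  exact ⟨⟨_, hf k⟩, rfl⟩

omit [Field E] [Algebra ℂ E] [Algebra Ω E] [IsScalarTower ℂ Ω E] in
theorem re_eval {R : Subalgebra ℂ Ω} (p : Pts R) (t : ℂ) (g : Polynomial R) (d : ℕ)
    (hd : (g.map (R.val : R →+* Ω)).natDegree ≤ d) :
    ∑ k ∈ Finset.range (d + 1), pv p ((g.map (R.val : R →+* Ω)).coeff k) * t ^ k =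
      g.eval₂ (p.h : R →+* ℂ) t := by
  rw [Polynomial.natDegree_map_eq_of_injective Subtype.val_injective] at hd
  rw [Polynomial.eval₂_eq_sum_range' _ (Nat.lt_succ_of_le hd)]
  refine Finset.sum_congr rfl fun k _ => ?_
  rw [Polynomial.coeff_map]
  congr 1
  exact re_pv_val p _

omit [Field E] [Algebra ℂ E] [Algebra Ω E] [IsScalarTower ℂ Ω E] in
theorem re_bez {R : Subalgebra ℂ Ω} (p : Pts R) (t : ℂ) {ι : Type} (s : Finset ι)
    (u G : ι → Polynomial Ω) (hB : ∑ m ∈ s, u m * G m = 1) (hu : ∀ m ∈ s, ∀ k, (u m).coeff k ∈ R)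
    (hG : ∀ m k, (G m).coeff k ∈ R) (d : ℕ) (hd : ∀ m, (G m).natDegree ≤ d) :
    ∃ m, ∑ k ∈ Finset.range (d + 1), pv p ((G m).coeff k) * t ^ k ≠ 0 := by
  by_contra hne
  push Not at hne
  choose G' hG' using fun m => re_lift (G m) (hG m)
  have hu' : ∀ m, ∃ g : Polynomial R, m ∈ s → g.map (R.val : R →+* Ω) = u m := by
    intro m
    by_cases hm : m ∈ s
    · obtain ⟨g, hg⟩ := re_lift (u m) (hu m hm)
      exact ⟨g, fun _ => hg⟩
    · exact ⟨0, fun h => (hm h).elim⟩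
  choose u' hu' using hu'
  have h1 : ∑ m ∈ s, u' m * G' m = 1 := by
    apply Polynomial.map_injective (R.val : R →+* Ω) Subtype.val_injective
    rw [Polynomial.map_sum, Polynomial.map_one, ← hB]
    refine Finset.sum_congr rfl fun m hm => ?_
    rw [Polynomial.map_mul, hu' m hm, hG' m]
  have h2 := congrArg (Polynomial.eval₂RingHom (p.h : R →+* ℂ) t) h1
  rw [map_sum, map_one] at h2
  have h3 : ∀ m ∈ s, Polynomial.eval₂RingHom (p.h : R →+* ℂ) t (u' m * G' m) = 0 := by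
    intro m _
    have h4 := re_eval p t (G' m) d (by rw [hG']; exact hd m)
    rw [hG', hne m] at h4
    rw [map_mul, Polynomial.coe_eval₂RingHom, ← h4, mul_zero]
  rw [Finset.sum_eq_zero h3] at h2
  exact zero_ne_one h2

theorem re_hom (a : ℕ → ℂ) (d : ℕ) (τ : ℂ) (h : τ ≠ 1) :
    ∑ k ∈ Finset.range (d + 1), a k * τ ^ k * (1 - τ) ^ (d - k) =
      (1 - τ) ^ d * ∑ k ∈ Finset.range (d + 1), a k * (τ / (1 - τ)) ^ k := by
  have h1 : (1 - τ) ≠ 0 := sub_ne_zero.2 h.symm
  rw [Finset.mul_sum]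
  refine Finset.sum_congr rfl fun k hk => ?_
  have hk' : k ≤ d := Nat.lt_succ_iff.1 (Finset.mem_range.1 hk)
  obtain ⟨j, rfl⟩ := Nat.exists_eq_add_of_le hk'
  rw [Nat.add_sub_cancel_left, div_pow, pow_add]
  field_simp

theorem re_hom0 (a : ℕ → ℂ) (d : ℕ) :
    ∑ k ∈ Finset.range (d + 1), a k * (0 : ℂ) ^ k * (1 - 0) ^ (d - k) = a 0 := by
  rw [Finset.sum_range_succ']
  simp

theorem re_hom1 (a : ℕ → ℂ) (d : ℕ) :
    ∑ k ∈ Finset.range (d + 1), a k * (1 : ℂ) ^ k * (1 - 1) ^ (d - k) = a d := by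
  rw [Finset.sum_range_succ, Finset.sum_eq_zero]
  · simp
  · intro k hk
    have hk' : d - k ≠ 0 := by
      have := Finset.mem_range.1 hk
      omega
    simp [hk']

theorem re_dense (a : ℕ → ℂ) (D : ℕ) (ha : a D ≠ 0) (S : Set I) (hS : IsClosed S)
    (h : ∀ τ : I, ((τ : ℝ) : ℂ) ≠ 1 → ∑ k ∈ Finset.range (D + 1),
      a k * (((τ : ℝ) : ℂ) / (1 - ((τ : ℝ) : ℂ))) ^ k ≠ 0 → τ ∈ S) (τ : I) : τ ∈ S := by
  let Q : ℂ[X] := ∑ k ∈ Finset.range (D + 1), C (a k) * X ^ k * (1 - X) ^ (D - k)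
  have hQ : ∀ t : ℂ, Q.eval t = ∑ k ∈ Finset.range (D + 1), a k * t ^ k * (1 - t) ^ (D - k) := by
    intro t
    simp [Q, Polynomial.eval_finsetSum]
  have hQ0 : Q ≠ 0 := by
    intro h0
    have := hQ 1
    rw [re_hom1, h0, Polynomial.eval_zero] at this
    exact ha this.symm
  have hinj : Function.Injective fun τ : I => ((τ : ℝ) : ℂ) := fun x y hxy =>
    Subtype.ext (Complex.ofReal_injective hxy)
  have hfin : ((fun τ : I => ((τ : ℝ) : ℂ)) ⁻¹' (insert 1 {t | Q.IsRoot t})).Finite :=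
    ((Polynomial.finite_setOfPred_isRoot hQ0).insert 1).preimage hinj.injOn
  have hd := dense_univ.sdiff_finite hfin
  have hsub : Set.univ \ ((fun τ : I => ((τ : ℝ) : ℂ)) ⁻¹' (insert 1 {t | Q.IsRoot t})) ⊆ S := by
    rintro σ ⟨-, hσ⟩
    simp only [Set.mem_preimage, Set.mem_insert_iff, Set.mem_ofPred_eq, not_or] at hσ
    refine h σ hσ.1 fun h0 => hσ.2 ?_
    rw [Polynomial.IsRoot, hQ, re_hom _ _ _ hσ.1, h0, mul_zero]
  have := (hd.mono hsub).closure_eq
  rw [hS.closure_eq] at this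
  rw [this]
  exact Set.mem_univ _

omit [Field E] [Algebra ℂ E] [Algebra Ω E] [IsScalarTower ℂ Ω E] in
theorem re_enlarge (R : Subalgebra ℂ Ω) (hR : R.FG) (T : Set Ω) (hT : T.Finite) :
    ∃ R' : Subalgebra ℂ Ω, R'.FG ∧ R ≤ R' ∧ ∀ x ∈ T, x ∈ R' :=
  ⟨R ⊔ Algebra.adjoin ℂ T, hR.sup (Subalgebra.fg_def.2 ⟨T, hT, rfl⟩), le_sup_left,
    fun _ hx => (le_sup_right : Algebra.adjoin ℂ T ≤ R ⊔ Algebra.adjoin ℂ T)
      (Algebra.subset_adjoin hx)⟩

/-- the family of Chow forms -/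
def reG {R : Subalgebra ℂ Ω} (G : MvPolynomial (Fin (N + 1)) (Polynomial Ω)) (d : ℕ)
    (q : Pts R × I) : MvPolynomial (Fin (N + 1)) ℂ :=
  ∑ m ∈ G.support, MvPolynomial.monomial m (∑ k ∈ Finset.range (d + 1),
    pv q.1 ((G.coeff m).coeff k) * ((q.2 : ℝ) : ℂ) ^ k * (1 - ((q.2 : ℝ) : ℂ)) ^ (d - k))

omit [Field E] [Algebra ℂ E] [Algebra Ω E] [IsScalarTower ℂ Ω E] in
theorem reG_coeff {R : Subalgebra ℂ Ω} (G : MvPolynomial (Fin (N + 1)) (Polynomial Ω)) (d : ℕ)
    (q : Pts R × I) (m : Fin (N + 1) →₀ ℕ) :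
    (reG G d q).coeff m = ∑ k ∈ Finset.range (d + 1),
      pv q.1 ((G.coeff m).coeff k) * ((q.2 : ℝ) : ℂ) ^ k * (1 - ((q.2 : ℝ) : ℂ)) ^ (d - k) := by
  classical
  unfold reG
  rw [MvPolynomial.coeff_sum]
  simp only [MvPolynomial.coeff_monomial]
  rw [Finset.sum_ite_eq']
  split_ifs with h
  · rfl
  · rw [MvPolynomial.notMem_support_iff] at h
    simp [h, re_pv_zero]

omit [Field E] [Algebra ℂ E] [Algebra Ω E] [IsScalarTower ℂ Ω E] in
theorem reG_cont {R : Subalgebra ℂ Ω} (G : MvPolynomial (Fin (N + 1)) (Polynomial Ω)) (d : ℕ)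
    (m : Fin (N + 1) →₀ ℕ) : Continuous fun q : Pts R × I => (reG G d q).coeff m := by
  simp only [reG_coeff]
  have h1 : Continuous fun q : Pts R × I => ((q.2 : ℝ) : ℂ) :=
    Complex.continuous_ofReal.comp (continuous_subtype_val.comp continuous_snd)
  refine continuous_finsetSum _ fun k _ => ?_
  exact (((re_pv_cont R _).comp continuous_fst).mul (h1.pow k)).mul
    ((continuous_const.sub h1).pow _)

omit [Field E] [Algebra ℂ E] [Algebra Ω E] [IsScalarTower ℂ Ω E] in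
theorem re_dec (ξ : Fin (N + 1) → F) {R : Subalgebra ℂ Ω} (p : Pts R) {n : ℕ}
    (z : Fin n → Fin (N + 1) → Ω) (hp : ∀ l, IsPt ξ (z l)) (hz : ∀ l i, z l i ∈ R) (e0 : Ω)
    (he : e0 ≠ 0) (h1 : e0 ∈ R) (h2 : e0⁻¹ ∈ R) (g : MvPolynomial (Fin (N + 1)) ℂ)
    (hg : ∀ m, g.coeff m = pv p (e0 * (∏ l, lin (z l)).coeff m)) :
    Dec ξ g fun l => ev ξ R (z l) (hp l) (hz l) p := by
  refine ⟨fun l => evC ξ R (z l) (hp l) (hz l) p, pv p e0, re_pv_ne p he h1 h2,
    fun _ => rfl, ?_⟩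
  ext m
  rw [hg, MvPolynomial.coeff_C_mul, re_pv_mul p h1 (re_pv_lin p z hz m).1, (re_pv_lin p z hz m).2]
  rfl

/-- Rational equivalence acts trivially.  Take the data of `chow_descent` and `re_generic`, and
enlarge `R` to `R'` by the coordinates of `z, z'`, the coefficients of the Bezout cofactors and
`e0⁻¹, e1⁻¹, e0, e1`.  For a pair p, τ in `Pts R' × I` let `g (p, τ)` be the polynomial with coefficients
`∑ k ≤ d, pv p ((G.coeff m).coeff k) * τ^k * (1 - τ)^(d - k)` (sum of monomials over `G.support`).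
It is non-zero: for `τ < 1` it is the d-th power of `1 - τ` times the value at `t = τ/(1-τ)`, use the Bezout
relation; for `τ = 1` it is `pv p e1 * ∏ lin`.  `Γ = {Dec ξ (g q) y}` is closed (`dec_closed`), its
fibres are orbits (`dec_orbit`) and non-empty: for fixed `p` the set of `τ` with non-empty fibre is
closed (projection along the compact space `Fin n → Pt ξ`) and contains all `τ < 1` except the
finitely many where the non-zero polynomial `∑ pv p (Δ k) t^k` vanishes at `t = τ/(1-τ)`, a dense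
subset of `I`.  Apply `mvh` with `j0 l = ev ξ R' (z l)`, `j1 l = ev ξ R' (z' l)`, `pt_compact`,
`pt_metrizable`. -/
theorem re_null [IsAlgClosed E] (Λ : Line Ω E) (ξ : Fin (N + 1) → F)
    (hlc : LocallyContractibleSpace (Pt ξ)) {n : ℕ} (x : Fin n → Fin (N + 1) → E)
    (hx : ∀ l, IsPt ξ (x l))
    (hst : ∀ σ : E ≃ₐ[Ω] E, σ Λ.κ = Λ.κ →
      ∃ π : Equiv.Perm (Fin n), ∀ l i, σ (x l i) = x (π l) i)
    (z z' : Fin n → Fin (N + 1) → Ω) (hz : ∀ l, Λ.P0.Spec (x l) (z l))
    (hz' : ∀ l, Λ.P1.Spec (x l) (z' l)) (hp : ∀ l, IsPt ξ (z l)) (hp' : ∀ l, IsPt ξ (z' l)) :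
    Null ξ (∑ l, Finsupp.single (z' l) 1 - ∑ l, Finsupp.single (z l) 1) := by
  classical
  obtain ⟨G, e, d, e0, e1, he0, he1, hG, ⟨s, u, hB⟩, hd, h0, h1⟩ :=
    chow_descent Λ x (fun l => (hx l).1) hst z z' hz hz'
  obtain ⟨R, D, Δ, hfg, hΔ, hΔ0, hΔi, hGR, hgen⟩ := re_generic Λ ξ x hx G e d hG hd
  let T : Set Ω := (Set.range (fun q : Fin n × Fin (N + 1) => z q.1 q.2) ∪
    Set.range (fun q : Fin n × Fin (N + 1) => z' q.1 q.2)) ∪
    ((⋃ m ∈ s, ((u m).coeffs : Set Ω)) ∪ {e0, e0⁻¹, e1, e1⁻¹})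
  have hT : T.Finite := ((Set.finite_range _).union (Set.finite_range _)).union
    ((s.finite_toSet.biUnion fun m _ => (u m).coeffs.finite_toSet).union (Set.toFinite _))
  obtain ⟨R', hfg', hle, hTR⟩ := re_enlarge R hfg T hT
  have hzR : ∀ l i, z l i ∈ R' := fun l i => hTR _ (Or.inl (Or.inl ⟨(l, i), rfl⟩))
  have hzR' : ∀ l i, z' l i ∈ R' := fun l i => hTR _ (Or.inl (Or.inr ⟨(l, i), rfl⟩))
  have huR : ∀ m ∈ s, ∀ k, (u m).coeff k ∈ R' := by
    intro m hm k
    by_cases hk : (u m).coeff k = 0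
    · rw [hk]
      exact R'.zero_mem
    · refine hTR _ (Or.inr (Or.inl ?_))
      simp only [Set.mem_iUnion]
      exact ⟨m, hm, Polynomial.coeff_mem_coeffs hk⟩
  have hE0 : e0 ∈ R' := hTR _ (Or.inr (Or.inr (by simp)))
  have hE0' : e0⁻¹ ∈ R' := hTR _ (Or.inr (Or.inr (by simp)))
  have hE1 : e1 ∈ R' := hTR _ (Or.inr (Or.inr (by simp)))
  have hE1' : e1⁻¹ ∈ R' := hTR _ (Or.inr (Or.inr (by simp)))
  have hD0 : ∀ p : Pts R', Dec ξ (reG G d (p, 0)) fun l => ev ξ R' (z l) (hp l) (hzR l) p := by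
    intro p
    refine re_dec ξ p z hp hzR e0 he0 hE0 hE0' _ fun m => ?_
    rw [reG_coeff, ← h0]
    exact re_hom0 (fun k => pv p ((G.coeff m).coeff k)) d
  have hD1 : ∀ p : Pts R', Dec ξ (reG G d (p, 1)) fun l => ev ξ R' (z' l) (hp' l) (hzR' l) p := by
    intro p
    refine re_dec ξ p z' hp' hzR' e1 he1 hE1 hE1' _ fun m => ?_
    rw [reG_coeff, ← h1]
    exact re_hom1 (fun k => pv p ((G.coeff m).coeff k)) d
  have hne0 : ∀ q : Pts R' × I, reG G d q ≠ 0 := by
    rintro ⟨p, τ⟩ hq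
    by_cases hτ : ((τ : ℝ) : ℂ) = 1
    · have hτ1 : τ = 1 := Subtype.ext (by exact_mod_cast hτ)
      subst hτ1
      obtain ⟨y, e', he', -, hy⟩ := hD1 p
      rw [hq] at hy
      refine mul_ne_zero (MvPolynomial.C_ne_zero.2 he') ?_ hy.symm
      exact Finset.prod_ne_zero_iff.2 fun l _ => lin_ne_zero (y l).2.1
    · obtain ⟨m, hm⟩ := re_bez p (((τ : ℝ) : ℂ) / (1 - ((τ : ℝ) : ℂ))) s u (fun m => G.coeff m) hB
        huR (fun m k => hle (hGR m k)) d hd
      have h2 := reG_coeff G d (p, τ) m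
      rw [hq, MvPolynomial.coeff_zero,
        re_hom (fun k => pv p ((G.coeff m).coeff k)) d _ hτ] at h2
      exact mul_ne_zero (pow_ne_zero _ (sub_ne_zero.2 (Ne.symm hτ))) hm h2.symm
  have := pt_compact ξ
  have := pt_metrizable ξ
  have hcl := dec_closed ξ (n := n) (reG (R := R') G d) (reG_cont G d) hne0
  have hnon : ∀ q : Pts R' × I, ∃ y : Fin n → Pt ξ, Dec ξ (reG G d q) y := by
    rintro ⟨p, τ⟩
    have hc1 : IsClosed {q : I × (Fin n → Pt ξ) | Dec ξ (reG G d (p, q.1)) q.2} :=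
      dec_closed ξ (n := n) (fun τ : I => reG G d (p, τ))
        (fun m => (reG_cont G d m).comp (Continuous.prodMk_right p)) (fun τ => hne0 (p, τ))
    have hc2 := isClosedMap_fst_of_compactSpace _ hc1
    have hmem := re_dense (fun k => pv p (Δ k)) D
      (re_pv_ne p hΔ0 (hle (hΔ D)) (hle hΔi)) _ hc2 (by
        intro σ hσ hsum
        obtain ⟨y, e', hy⟩ := hgen (res (Subalgebra.inclusion hle) p)
          (((σ : ℝ) : ℂ) / (1 - ((σ : ℝ) : ℂ))) (by
            simpa only [pv_res hle p (hΔ _)] using hsum)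
        simp only [pv_res hle p (hGR _ _)] at hy
        have hg : reG G d (p, σ) =
            MvPolynomial.C ((1 - ((σ : ℝ) : ℂ)) ^ d * e') * ∏ l, lin (y l).1 := by
          ext m
          rw [reG_coeff, re_hom (fun k => pv p ((G.coeff m).coeff k)) d _ hσ, hy,
            MvPolynomial.coeff_C_mul, mul_assoc]
        refine ⟨(σ, fun l => Quotient.mk (rl ξ) (y l)), ⟨y, _, ?_, fun _ => rfl, hg⟩, rfl⟩
        intro h0'
        rw [h0', MvPolynomial.C_0, zero_mul] at hg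
        exact hne0 _ hg) τ
    obtain ⟨⟨σ, y⟩, hy, rfl⟩ := hmem
    exact ⟨y, hy⟩
  refine ⟨R', hfg', ?_, fun c hc => ?_⟩
  · intro w hw i
    by_contra hi
    rw [Finsupp.mem_support_iff] at hw
    apply hw
    rw [Finsupp.sub_apply, Finsupp.finsetSum_apply, Finsupp.finsetSum_apply,
      Finset.sum_eq_zero, Finset.sum_eq_zero, sub_zero]
    · intro l _
      refine Finsupp.single_eq_of_ne ?_
      rintro rfl
      exact hi (hzR l i)
    · intro l _
      refine Finsupp.single_eq_of_ne ?_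
      rintro rfl
      exact hi (hzR' l i)
  · obtain ⟨w, hw⟩ := mvh hlc {q : (Pts R' × I) × (Fin n → Pt ξ) | Dec ξ (reG G d q.1) q.2} hcl
      hnon (fun q y y' h h' => dec_orbit ξ h h') (fun l => ev ξ R' (z l) (hp l) (hzR l))
      (fun l => ev ξ R' (z' l) (hp' l) (hzR' l)) hD0 hD1 (k := 2) c hc
    refine ⟨w, ?_⟩
    rw [hw, map_sub, map_sum, map_sum]
    simp only [Finsupp.linearCombination_single, one_smul]
    congr 1
    · exact Finset.sum_congr rfl fun l _ => by rw [pu_eq ξ R' (z' l) (hp' l) (hzR' l)]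
    · exact Finset.sum_congr rfl fun l _ => by rw [pu_eq ξ R' (z l) (hp l) (hzR l)]

end

end Pool.Agent.MP_1c689d_ag.FP

end

section

set_option autoImplicit false

namespace Pool.Agent.MP_1c689d_ag.FP

noncomputable section

open Polynomial

/-- the plane without the rays starting at the points of `T` -/
def Mv2U (d : ℂ) (T : Finset ℂ) : Set ℂ :=
  {z | ∀ a ∈ T, ¬ ((d * z).re = (d * a).re ∧ (d * a).im ≤ (d * z).im)}

/-- the strips -/
def Mv2V (d : ℂ) (T : Finset ℂ) (s : T → Bool) : Set ℂ :=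
  {z | ∀ a : T, (s a = true → (d * a).re < (d * z).re) ∧ (s a = false → (d * z).re < (d * a).re)}

theorem Mv2U_open (d : ℂ) (T : Finset ℂ) : IsOpen (Mv2U d T) := by
  have : Mv2U d T = ⋂ a ∈ T, ({z | (d * z).re = (d * a).re} ∩ {z | (d * a).im ≤ (d * z).im})ᶜ := by
    ext z
    simp only [Mv2U, Set.mem_ofPred_eq, Set.mem_iInter, Set.mem_compl_iff, Set.mem_inter_iff]
  rw [this]
  refine isOpen_biInter_finset fun a _ => ?_
  exact ((isClosed_eq (by fun_prop) continuous_const).inter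
    (isClosed_le continuous_const (by fun_prop))).isOpen_compl

theorem Mv2V_open (d : ℂ) (T : Finset ℂ) (s : T → Bool) : IsOpen (Mv2V d T s) := by
  rw [Mv2V, Set.ofPred_forall]
  refine isOpen_iInter_of_finite fun a => ?_
  cases h : s a
  · simpa using isOpen_lt (f := fun z => (d * z).re) (g := fun _ => (d * a).re) (by fun_prop)
      continuous_const
  · simpa using isOpen_lt (g := fun z => (d * z).re) (f := fun _ => (d * a).re)
      continuous_const (by fun_prop)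

theorem Mv2V_sub (d : ℂ) (T : Finset ℂ) (s : T → Bool) :
    Mv2V d T s ⊆ Mv2U d T ∩ Mv2U (-d) T := by
  intro z hz
  have h : ∀ a ∈ T, (d * z).re ≠ (d * a).re := by
    intro a ha
    cases h : s ⟨a, ha⟩
    · exact ((hz ⟨a, ha⟩).2 h).ne
    · exact ((hz ⟨a, ha⟩).1 h).ne'
  refine ⟨fun a ha e => h a ha e.1, fun a ha e => h a ha ?_⟩
  simpa only [neg_mul, Complex.neg_re, neg_inj] using e.1

theorem Mv2V_sup (d : ℂ) (T : Finset ℂ) (z : ℂ) (h1 : z ∈ Mv2U d T) (h2 : z ∈ Mv2U (-d) T) :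
    ∃ s, z ∈ Mv2V d T s := by
  refine ⟨fun a => decide ((d * a).re < (d * z).re), fun a => ⟨fun h => of_decide_eq_true h,
    fun h => lt_of_le_of_ne (not_lt.1 (of_decide_eq_false h)) fun e => ?_⟩⟩
  rcases le_total (d * a).im (d * z).im with h3 | h3
  · exact h1 a a.2 ⟨e, h3⟩
  · refine h2 a a.2 ?_
    simp only [neg_mul, Complex.neg_re, Complex.neg_im, neg_inj, neg_le_neg_iff]
    exact ⟨e, h3⟩

theorem Mv2V_disj (d : ℂ) (T : Finset ℂ) (s s' : T → Bool) (h : s ≠ s') :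
    Disjoint (Mv2V d T s) (Mv2V d T s') := by
  obtain ⟨a, ha⟩ := Function.ne_iff.1 h
  refine Set.disjoint_left.2 fun z h1 h2 => ?_
  cases e : s a <;> cases e' : s' a
  · exact ha (e.trans e'.symm)
  · exact lt_asymm ((h1 a).2 e) ((h2 a).1 e')
  · exact lt_asymm ((h1 a).1 e) ((h2 a).2 e')
  · exact ha (e.trans e'.symm)

theorem Mv2U_notMem (d : ℂ) (T : Finset ℂ) (z : ℂ) (h : z ∈ Mv2U d T) : z ∉ T :=
  fun hz => h z hz ⟨rfl, le_rfl⟩

theorem Mv2U_cover {d : ℂ} (hd : d ≠ 0) {T : Finset ℂ}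
    (hT : ∀ a ∈ T, ∀ a' ∈ T, (d * a).re = (d * a').re → a = a') (z : ℂ) (hz : z ∉ T) :
    z ∈ Mv2U d T ∨ z ∈ Mv2U (-d) T := by
  by_contra h
  simp only [Mv2U, Set.mem_ofPred_eq, not_or, not_forall, not_not, neg_mul, Complex.neg_re,
    Complex.neg_im, neg_inj, neg_le_neg_iff] at h
  obtain ⟨⟨a, ha, h1, h2⟩, a', ha', h3, h4⟩ := h
  obtain rfl := hT a ha a' ha' (h1.symm.trans h3)
  have : z = a := mul_left_cancel₀ hd (Complex.ext h1 (le_antisymm h4 h2))
  exact hz (this ▸ ha)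

theorem Mv2_dir (T : Finset ℂ) :
    ∃ d : ℂ, d ≠ 0 ∧ ∀ a ∈ T, ∀ a' ∈ T, (d * a).re = (d * a').re → a = a' := by
  obtain ⟨t, ht⟩ := Infinite.exists_notMem_finset
    ((T ×ˢ T).image fun q : ℂ × ℂ => (q.1.re - q.2.re) / (q.1.im - q.2.im))
  refine ⟨⟨1, t⟩, fun e => one_ne_zero (congrArg Complex.re e), fun a ha a' ha' e => ?_⟩
  simp only [Complex.mul_re, one_mul] at e
  by_cases h : a.im - a'.im = 0
  · have h' : a.im = a'.im := sub_eq_zero.1 h
    exact Complex.ext (by rw [h'] at e; linarith) h'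
  · refine absurd (Finset.mem_image.2 ⟨(a, a'), Finset.mem_product.2 ⟨ha, ha'⟩, ?_⟩) ht
    rw [div_eq_iff h]
    linarith

theorem Mv2V_contr (d : ℂ) (T : Finset ℂ) (s : T → Bool) (K : Set ℂ) (hK : K ⊆ Mv2V d T s) :
    ∃ (H : C(ℂ × I, ℂ)) (b : ℂ),
      (∀ z ∈ K, ∀ t, H (z, t) ∈ Mv2V d T s) ∧ (∀ z, H (z, 0) = z) ∧ ∀ z ∈ K, H (z, 1) = b := by
  rcases K.eq_empty_or_nonempty with rfl | ⟨b, hb⟩
  · exact ⟨ContinuousMap.fst, 0, by simp, fun _ => rfl, by simp⟩
  refine ⟨⟨fun q => (1 - ((q.2 : ℝ) : ℂ)) * q.1 + ((q.2 : ℝ) : ℂ) * b, by fun_prop⟩, b,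
    fun z hz t a => ?_, by simp, by simp⟩
  have e : (d * ((1 - ((t : ℝ) : ℂ)) * z + ((t : ℝ) : ℂ) * b)).re =
      (1 - (t : ℝ)) * (d * z).re + (t : ℝ) * (d * b).re := by
    simp only [Complex.mul_re, Complex.add_re, Complex.add_im, Complex.mul_im, Complex.sub_re,
      Complex.sub_im, Complex.one_re, Complex.one_im, Complex.ofReal_re, Complex.ofReal_im]
    ring
  have t0 := t.2.1
  have t1 := t.2.2
  simp only [ContinuousMap.coe_mk, e]
  refine ⟨fun h => ?_, fun h => ?_⟩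
  · have h1 := (hK hz a).1 h
    have h2 := (hK hb a).1 h
    rcases le_total (d * z).re (d * b).re with h3 | h3 <;> nlinarith
  · have h1 := (hK hz a).2 h
    have h2 := (hK hb a).2 h
    rcases le_total (d * z).re (d * b).re with h3 | h3 <;> nlinarith

theorem Mv2U_contr {d : ℂ} (hd : d ≠ 0) (T : Finset ℂ) (K : Set ℂ) (hc : IsCompact K)
    (hK : K ⊆ Mv2U d T) : ∃ (H : C(ℂ × I, ℂ)) (b : ℂ),
      (∀ z ∈ K, ∀ t, H (z, t) ∈ Mv2U d T) ∧ (∀ z, H (z, 0) = z) ∧ ∀ z ∈ K, H (z, 1) = b := by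
  obtain ⟨m, hm⟩ := (hc.union T.finite_toSet.isCompact).bddBelow_image
    (f := fun z => (d * z).im) (by fun_prop)
  refine ⟨⟨fun q => d⁻¹ * ((((1 - max (2 * (q.2 : ℝ) - 1) 0) * (d * q.1).re : ℝ) : ℂ) +
      (((1 - min (2 * (q.2 : ℝ)) 1) * (d * q.1).im + min (2 * (q.2 : ℝ)) 1 * (m - 1) : ℝ) : ℂ) *
        Complex.I), by fun_prop⟩, d⁻¹ * (((m - 1 : ℝ) : ℂ) * Complex.I),
    fun z hz t a ha => ?_, fun z => ?_, fun z _ => ?_⟩
  · simp only [ContinuousMap.coe_mk, mul_inv_cancel_left₀ hd, Complex.add_re, Complex.add_im,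
      Complex.ofReal_re, Complex.ofReal_im, Complex.mul_I_re, Complex.mul_I_im, neg_zero, add_zero,
      zero_add]
    rintro ⟨h1, h2⟩
    have hz' : m ≤ (d * z).im := hm ⟨z, Or.inl hz, rfl⟩
    have ha' : m ≤ (d * a).im := hm ⟨a, Or.inr ha, rfl⟩
    have t0 := t.2.1
    rcases le_total (2 * (t : ℝ)) 1 with h | h
    · rw [max_eq_right (by linarith)] at h1
      rw [min_eq_left h] at h2
      exact hK hz a ha ⟨by linarith, by nlinarith⟩
    · rw [min_eq_right h] at h2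
      linarith
  · have e : max (2 * ((0 : I) : ℝ) - 1) 0 = 0 := by simp
    have e' : min (2 * ((0 : I) : ℝ)) 1 = 0 := by simp
    simp only [ContinuousMap.coe_mk, e, e', sub_zero, one_mul, zero_mul, add_zero,
      Complex.re_add_im, inv_mul_cancel_left₀ hd]
  · have e : max (2 * ((1 : I) : ℝ) - 1) 0 = 1 := by norm_num
    have e' : min (2 * ((1 : I) : ℝ)) 1 = 1 := by norm_num
    simp only [ContinuousMap.coe_mk, e, e', sub_self, one_mul, zero_mul, zero_add,
      Complex.ofReal_zero]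

/-- Step 1.  Let `W ⊆ ℂ ∖ T` contract inside itself on compact sets.  A cycle over `W` has a
compact carrier `K` (`exists_compact`, `exists_cycle_On`); lift the contraction of `p '' K` with
`CL`, `hty_On` moves the cycle (inside `p ⁻¹' W`) into one fibre, where it bounds. -/
theorem mv2_contr {S : Type} [TopologicalSpace S] (T : Finset ℂ) (p : C(S, ℂ)) (hcl : CL T p)
    (W : Set ℂ) (hW : ∀ z ∈ W, z ∉ T)
    (hc : ∀ K : Set ℂ, IsCompact K → K ⊆ W → ∃ (H : C(ℂ × I, ℂ)) (b : ℂ),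
      (∀ z ∈ K, ∀ t, H (z, t) ∈ W) ∧ (∀ z, H (z, 0) = z) ∧ ∀ z ∈ K, H (z, 1) = b)
    {k : ℕ} (h : ∀ a, Acyc {x // p x = a} k) (c : Ch S (k + 1)) (hcW : c ∈ On (p ⁻¹' W) (k + 1))
    (h0 : bd c = 0) : ∃ w ∈ On (p ⁻¹' W) (k + 2), bd w = c := by
  obtain ⟨K, hK, hcK, hKW⟩ := exists_compact c
  rcases K.eq_empty_or_nonempty with rfl | ⟨x, hx⟩
  · refine ⟨0, Submodule.zero_mem _, ?_⟩
    rw [map_zero, eq_comm, ← Finsupp.support_eq_empty, Finset.eq_empty_iff_forall_notMem]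
    exact fun σ hσ => mem_On.1 hcK σ hσ (bary _)
  obtain ⟨c', hc0, hc'⟩ := exists_cycle_On hcK h0
  obtain ⟨H, b, H1, H2, H3⟩ := hc (p '' K) (hK.image p.continuous)
    (Set.image_subset_iff.2 (hKW _ hcW))
  have : CompactSpace K := isCompact_iff_compactSpace.1 hK
  obtain ⟨G, G1, G2⟩ := hcl K (incl K)
    (H.comp ((p.comp (incl K)).prodMap (ContinuousMap.id I))) b
    (fun q => hW _ (H1 _ ⟨q.1, q.1.2, rfl⟩ _)) (fun y => H2 _) (fun y => H3 _ ⟨y, y.2, rfl⟩)
  obtain ⟨w, hw, hw'⟩ := hty_On G c' hc0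
  have e0 : G.comp (lev K 0) = incl K := ContinuousMap.ext G1
  have hb : b ∈ W := H3 _ ⟨x, hx, rfl⟩ ▸ H1 _ ⟨x, hx, rfl⟩ 1
  have h1 : push (G.comp (lev K 1)) c' ∈ On {y | p y = b} (k + 1) := by
    refine On_mono ?_ _ (push_range _ _)
    rintro _ ⟨y, rfl⟩
    exact (G2 (y, 1)).trans (H3 _ ⟨y, y.2, rfl⟩)
  obtain ⟨c2, h2, h3⟩ := exists_cycle_On h1 (by rw [bd_push, hc0, map_zero])
  obtain ⟨w', h4⟩ := h b c2 h2
  refine ⟨push (incl {y | p y = b}) w' - w, Submodule.sub_mem _ ?_ ?_, ?_⟩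
  · refine On_mono ?_ _ (push_range _ _)
    rintro _ ⟨y, rfl⟩
    have hy : p y = b := y.2
    exact show p y ∈ W by rwa [hy]
  · refine On_mono ?_ _ hw
    rintro _ ⟨q, rfl⟩
    exact show p (G q) ∈ W from G2 q ▸ H1 _ ⟨q.1, q.1.2, rfl⟩ _
  · have h5 : bd (push (incl {y | p y = b}) w') = push (G.comp (lev K 1)) c' := by
      rw [← h3]
      exact (bd_push _ _).trans (congrArg _ h4)
    rw [map_sub, h5, hw', e0, hc', sub_sub_cancel]

/-- Mayer-Vietoris over a punctured plane.  Choose `d ≠ 0` with `(d * a).re ≠ (d * a').re` for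
`a ≠ a'` in `T` (for instance `d = 1 + t * I` with `t` real outside a finite set).  Let `Up` be
the complement of the rays `{z | (d*z).re = (d*a).re ∧ (d*a).im ≤ (d*z).im}` and `Dn` the same with
the opposite inequality: open sets with union `ℂ ∖ T`, whose intersection is the disjoint union of
the convex open strips `V s = {z | ∀ a ∈ T, if a ∈ s then (d*a).re < (d*z).re else (d*z).re <
(d*a).re}` (`s` in the finite type `T.powerset` or `T → Prop`).  A compact subset of `Up` is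
contracted by first translating by `-M * I / d` (so that `(d*z).im` drops below all `(d*a).im`)
and then linearly inside that half plane: `H (z,t) = (1 - s₂) (z - s₁ M I/d) + s₂ b` with
`s₁ = min (2t) 1`, `s₂ = max (2t - 1) 0`.  Strips contract linearly (or are empty).
Given a `(k+2)`-cycle `c`, subdivide (`small`, `SdN_hom`) so that `c = c₁ + c₂` with `c₁` over
`Up`, `c₂` over `Dn`; `bd c₁ = - bd c₂` lies over the intersection (use `mem_On`), split it with
`split_On` and fill it there by `v` (`mv2_contr`); then `c₁ - v` and `c₂ + v` are cycles over `Up`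
and `Dn` and bound by `mv2_contr`. -/
theorem mv2 {S : Type} [TopologicalSpace S] (T : Finset ℂ) (p : C(S, ℂ)) (hp : ∀ x, p x ∉ T)
    (hcl : CL T p) (k : ℕ) (h1 : ∀ a, Acyc {x // p x = a} k)
    (h2 : ∀ a, Acyc {x // p x = a} (k + 1)) : Acyc S (k + 1) := by
  intro c hc
  obtain ⟨d, hd, hT⟩ := Mv2_dir T
  obtain ⟨N, hN⟩ := small {p ⁻¹' Mv2U d T, p ⁻¹' Mv2U (-d) T}
    (by
      rintro V (rfl | rfl)
      · exact (Mv2U_open _ _).preimage p.continuous
      · exact (Mv2U_open _ _).preimage p.continuous)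
    (fun x => by
      rcases Mv2U_cover hd hT (p x) (hp x) with h | h
      · exact ⟨_, Or.inl rfl, h⟩
      · exact ⟨_, Or.inr rfl, h⟩) c
  have h3 : SdN N c ∈ On (p ⁻¹' Mv2U d T) (k + 2) ⊔ On (p ⁻¹' Mv2U (-d) T) (k + 2) := by
    refine Sup_map LinearMap.id _ ?_ hN
    rintro σ ⟨V, rfl | rfl, hσ⟩
    · exact Submodule.mem_sup_left (sg_mem_On hσ)
    · exact Submodule.mem_sup_right (sg_mem_On hσ)
  obtain ⟨c1, m1, c2, m2, e⟩ := Submodule.mem_sup.1 h3
  have e1 : bd c1 = - bd c2 := by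
    rw [eq_neg_iff_add_eq_zero, ← map_add, e, bd_SdN, hc, map_zero]
  have m3 : bd c1 ∈ On (⋃ s, p ⁻¹' Mv2V d T s) (k + 1) := by
    have a1 := mem_On.1 (bd_On m1)
    have a2 := mem_On.1 (e1 ▸ Submodule.neg_mem _ (bd_On m2) : bd c1 ∈ _)
    refine mem_On.2 fun σ hσ s => Set.mem_iUnion.2 ?_
    exact Mv2V_sup d T _ (a1 σ hσ s) (a2 σ hσ s)
  obtain ⟨P, P1, P2, P3, -⟩ := split_On (fun s => p ⁻¹' Mv2V d T s)
    (fun s => (Mv2V_open d T s).preimage p.continuous)
    (fun s s' h => (Mv2V_disj d T s s' h).preimage p)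
  choose v hv hv' using fun s => mv2_contr T p hcl (Mv2V d T s)
    (fun z hz => Mv2U_notMem d T z (Mv2V_sub d T s hz).1)
    (fun K _ hK => Mv2V_contr d T s K hK) h1 (P (k + 1) s (bd c1)) (P1 _ _ _)
    (by rw [P3 k s _ m3, bd_bd, map_zero])
  have e2 : bd (∑ s, v s) = bd c1 := by
    rw [map_sum, Finset.sum_congr rfl fun s _ => hv' s, P2 _ _ m3]
  obtain ⟨w1, -, e3⟩ := mv2_contr T p hcl (Mv2U d T) (Mv2U_notMem d T) (Mv2U_contr hd T) h2
    (c1 - ∑ s, v s) (Submodule.sub_mem _ m1 (Submodule.sum_mem _ fun s _ =>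
      On_mono (Set.preimage_mono fun x hx => (Mv2V_sub d T s hx).1) _ (hv s)))
    (by rw [map_sub, e2, sub_self])
  obtain ⟨w2, -, e4⟩ := mv2_contr T p hcl (Mv2U (-d) T) (Mv2U_notMem _ T)
    (Mv2U_contr (neg_ne_zero.2 hd) T) h2
    (c2 + ∑ s, v s) (Submodule.add_mem _ m2 (Submodule.sum_mem _ fun s _ =>
      On_mono (Set.preimage_mono fun x hx => (Mv2V_sub d T s hx).2) _ (hv s)))
    (by rw [map_add, e2, e1, add_neg_cancel])
  obtain ⟨w0, e5⟩ := SdN_hom N c hc
  refine ⟨w1 + w2 - w0, ?_⟩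
  rw [map_sub, map_add, e3, e4, e5, ← e]
  abel

end

end Pool.Agent.MP_1c689d_ag.FP

end

section

set_option autoImplicit false

namespace Pool.Agent.MP_1c689d_ag.FP

noncomputable section

open Polynomial

/-- the tent move -/
def Tent_phi {n : ℕ} (μ : ℝ) (p p' : Fin n → ℂ) (z : ℂ) : ℂ :=
  z + ∑ i, (max (1 - ‖z - p i‖ / μ) 0 : ℝ) • (p' i - p i)

theorem Tent_self {n : ℕ} (μ : ℝ) (p : Fin n → ℂ) (z : ℂ) : Tent_phi μ p p z = z := by
  simp [Tent_phi]

theorem Tent_pt {n : ℕ} (μ : ℝ) (hμ : 0 < μ) (p p' : Fin n → ℂ)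
    (hp : ∀ i j, i ≠ j → μ ≤ ‖p i - p j‖) (hd : ∑ i, ‖p' i - p i‖ < μ) (z : ℂ)
    (hz : ∀ i, z ≠ p i) (i : Fin n) : Tent_phi μ p p' z ≠ p' i := by
  intro h
  have h1 : Tent_phi μ p p' (p i) = p' i := by
    unfold Tent_phi
    rw [Finset.sum_eq_single i]
    · simp
    · intro j _ hj
      have h2 : 1 ≤ ‖p i - p j‖ / μ := (one_le_div hμ).2 (hp i j (Ne.symm hj))
      rw [max_eq_right (by linarith), zero_smul]
    · intro h2
      exact absurd (Finset.mem_univ i) h2
  have h3 : z - p i = -∑ j, ((max (1 - ‖z - p j‖ / μ) 0 : ℝ) -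
      (max (1 - ‖p i - p j‖ / μ) 0 : ℝ)) • (p' j - p j) := by
    have h4 := h.trans h1.symm
    unfold Tent_phi at h4
    simp only [sub_smul, Finset.sum_sub_distrib]
    linear_combination h4
  have h5 : 0 < ‖z - p i‖ := norm_pos_iff.2 (sub_ne_zero.2 (hz i))
  have h6 : ‖z - p i‖ ≤ ∑ j, ‖z - p i‖ / μ * ‖p' j - p j‖ := by
    calc ‖z - p i‖ = ‖∑ j, ((max (1 - ‖z - p j‖ / μ) 0 : ℝ) -
          (max (1 - ‖p i - p j‖ / μ) 0 : ℝ)) • (p' j - p j)‖ := by
          conv_lhs => rw [h3, norm_neg]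
      _ ≤ ∑ j, ‖((max (1 - ‖z - p j‖ / μ) 0 : ℝ) -
          (max (1 - ‖p i - p j‖ / μ) 0 : ℝ)) • (p' j - p j)‖ := norm_sum_le _ _
      _ ≤ ∑ j, ‖z - p i‖ / μ * ‖p' j - p j‖ := by
          refine Finset.sum_le_sum fun j _ => ?_
          rw [norm_smul]
          refine mul_le_mul_of_nonneg_right ?_ (norm_nonneg _)
          rw [Real.norm_eq_abs]
          refine (abs_max_sub_max_le_abs _ _ _).trans ?_
          have h7 : (1 - ‖z - p j‖ / μ) - (1 - ‖p i - p j‖ / μ) =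
              (‖p i - p j‖ - ‖z - p j‖) / μ := by ring
          rw [h7, abs_div, abs_of_pos hμ]
          refine div_le_div_of_nonneg_right ?_ hμ.le
          refine (abs_norm_sub_norm_le _ _).trans ?_
          rw [sub_sub_sub_cancel_right, norm_sub_rev]
  rw [← Finset.mul_sum] at h6
  have h8 : ‖z - p i‖ / μ * ∑ j, ‖p' j - p j‖ < ‖z - p i‖ / μ * μ :=
    mul_lt_mul_of_pos_left hd (div_pos h5 hμ)
  rw [div_mul_cancel₀ _ hμ.ne'] at h8
  linarith

theorem Tent_cont {X : Type} [TopologicalSpace X] {n : ℕ} (μ : ℝ) (p p' : X → Fin n → ℂ)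
    (z : X → ℂ) (hp : ∀ i, Continuous fun x => p x i) (hp' : ∀ i, Continuous fun x => p' x i)
    (hz : Continuous z) : Continuous fun x => Tent_phi μ (p x) (p' x) (z x) := by
  unfold Tent_phi
  refine hz.add (continuous_finsetSum _ fun i _ => ?_)
  exact ((continuous_const.sub ((hz.sub (hp i)).norm.div_const μ)).max continuous_const).smul
    ((hp' i).sub (hp i))

theorem Tent_mu {X : Type} [TopologicalSpace X] [CompactSpace X] {n : ℕ} (ρ : Fin n → C(X, ℂ))
    (hρ : ∀ q i j, i ≠ j → ρ i q ≠ ρ j q) :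
    ∃ μ : ℝ, 0 < μ ∧ ∀ q i j, i ≠ j → μ ≤ ‖ρ i q - ρ j q‖ := by
  have h1 : ∀ ij : Fin n × Fin n, ∃ m : ℝ, 0 < m ∧
      (ij.1 ≠ ij.2 → ∀ q, m ≤ ‖ρ ij.1 q - ρ ij.2 q‖) := by
    intro ij
    by_cases h : ij.1 = ij.2
    · exact ⟨1, one_pos, fun h' => absurd h h'⟩
    · obtain ⟨m, hm, hm'⟩ := (isCompact_univ (X := X)).exists_forall_le'
        (f := fun q => ‖ρ ij.1 q - ρ ij.2 q‖)
        ((ρ ij.1).continuous.sub (ρ ij.2).continuous).norm.continuousOn (a := 0)
        (fun q _ => norm_pos_iff.2 (sub_ne_zero.2 (hρ q _ _ h)))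
      exact ⟨m, hm, fun _ q => hm' q (Set.mem_univ q)⟩
  choose m hm0 hm using h1
  obtain ⟨μ, hμ, hμ'⟩ := (Set.finite_range m).isCompact.exists_forall_le'
    (f := fun x : ℝ => x) continuousOn_id (a := 0) (by
      rintro _ ⟨ij, rfl⟩
      exact hm0 ij)
  exact ⟨μ, hμ, fun q i j hij => (hμ' _ ⟨(i, j), rfl⟩).trans (hm (i, j) hij q)⟩

theorem Tent_delta {K : Type} [TopologicalSpace K] [CompactSpace K] {n : ℕ}
    (ρ : Fin n → C(K × I, ℂ)) (μ : ℝ) (hμ : 0 < μ) :
    ∃ δ : ℝ, 0 < δ ∧ ∀ (k : K) (t t' : I), dist t' t < δ →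
      ∑ i, ‖ρ i (k, t') - ρ i (k, t)‖ < μ := by
  let F : C(I × K, Fin n → ℂ) :=
    ⟨fun x i => ρ i (x.2, x.1), continuous_pi fun i =>
      (ρ i).continuous.comp (continuous_snd.prodMk continuous_fst)⟩
  have hF : UniformContinuous F.curry :=
    CompactSpace.uniformContinuous_of_continuous F.curry.continuous
  have hn : (0 : ℝ) < n + 1 := by positivity
  obtain ⟨δ, hδ, h⟩ := Metric.uniformContinuous_iff.1 hF (μ / (n + 1)) (div_pos hμ hn)
  refine ⟨δ, hδ, fun k t t' ht => ?_⟩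
  have h1 := h ht
  have h2 : ∀ i, ‖ρ i (k, t') - ρ i (k, t)‖ ≤ μ / (n + 1) := by
    intro i
    rw [← dist_eq_norm]
    have h3 : dist (F.curry t' k i) (F.curry t k i) ≤ dist (F.curry t' k) (F.curry t k) :=
      dist_le_pi_dist _ _ i
    exact h3.trans ((ContinuousMap.dist_apply_le_dist k).trans h1.le)
  calc ∑ i, ‖ρ i (k, t') - ρ i (k, t)‖ ≤ ∑ _i : Fin n, μ / (n + 1) :=
        Finset.sum_le_sum fun i _ => h2 i
    _ = n * (μ / (n + 1)) := by simp
    _ < (n + 1) * (μ / (n + 1)) := mul_lt_mul_of_pos_right (by linarith) (div_pos hμ hn)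
    _ = μ := by field_simp

/-- A point can be moved along with finitely many moving disjoint punctures.  By compactness
there is `μ > 0` with `‖ρ i q - ρ j q‖ ≥ μ` for `i ≠ j`, and `M` with
`∑ i, ‖ρ i (k,t) - ρ i (k,t')‖ < μ` whenever `|t - t'| ≤ 1/M` (uniform continuity of
`t ↦ ρ i (·, t) ∈ C(K, ℂ)` on `I`).  Put
`φ k t t' z = z + ∑ i, max 0 (1 - ‖z - ρ i (k,t)‖ / μ) • (ρ i (k,t') - ρ i (k,t))`.
It maps `ρ i (k,t)` to `ρ i (k,t')`, and `z ↦ φ k t t' z - z` is Lipschitz with constant `< 1`, so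
`φ k t t'` is injective and maps non-punctures to non-punctures; `φ k t t z = z`.  With
`t_j = min t (j/M)` define `G 0 = b`, `G (j+1) (k,t) = φ k t_j t_(j+1) (G j (k,t))`; take `G M`. -/
theorem tent {K : Type} [TopologicalSpace K] [CompactSpace K] {n : ℕ} (ρ : Fin n → C(K × I, ℂ))
    (hρ : ∀ q i j, i ≠ j → ρ i q ≠ ρ j q) (b : C(K, ℂ)) (hb : ∀ k i, b k ≠ ρ i (k, 0)) :
    ∃ G : C(K × I, ℂ), (∀ k, G (k, 0) = b k) ∧ ∀ q i, G q ≠ ρ i q := by
  obtain ⟨μ, hμ, hμ'⟩ := Tent_mu ρ hρ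
  obtain ⟨δ, hδ, hδ'⟩ := Tent_delta ρ μ hμ
  obtain ⟨M, hM⟩ := exists_nat_one_div_lt hδ
  have hM0 : (0 : ℝ) < M + 1 := by positivity
  let τ : ℕ → I → I := fun j t => Set.projIcc 0 1 zero_le_one ((t : ℝ) * (j / (M + 1)))
  have hτc : ∀ j, Continuous (τ j) := fun j =>
    continuous_projIcc.comp (continuous_subtype_val.mul continuous_const)
  have hτ0 : ∀ j, τ j 0 = 0 := fun j => by simp [τ]
  have hτ0' : ∀ t, τ 0 t = 0 := fun t => by simp [τ]
  have hτ1 : ∀ t, τ (M + 1) t = t := fun t => by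
    have : ((M + 1 : ℕ) : ℝ) / (M + 1) = 1 := by
      push_cast
      exact div_self hM0.ne'
    simp only [τ, this, mul_one]
    exact Set.projIcc_val zero_le_one t
  have hτd : ∀ j t, dist (τ (j + 1) t) (τ j t) < δ := fun j t => by
    rw [Subtype.dist_eq, Real.dist_eq]
    refine (Set.abs_projIcc_sub_projIcc zero_le_one).trans_lt (lt_of_le_of_lt ?_ hM)
    have h1 : (t : ℝ) * (((j + 1 : ℕ) : ℝ) / (M + 1)) - t * (j / (M + 1)) = t * (1 / (M + 1)) := by
      push_cast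
      ring
    have h2 : (0 : ℝ) ≤ 1 / (M + 1) := by positivity
    rw [h1, abs_of_nonneg (mul_nonneg t.2.1 h2)]
    exact mul_le_of_le_one_left h2 t.2.2
  have key : ∀ j : ℕ, ∃ G : C(K × I, ℂ), (∀ k, G (k, 0) = b k) ∧
      ∀ q i, G q ≠ ρ i (q.1, τ j q.2) := by
    intro j
    induction j with
    | zero =>
      refine ⟨⟨fun q => b q.1, b.continuous.comp continuous_fst⟩, fun k => rfl, fun q i => ?_⟩
      rw [hτ0']
      exact hb q.1 i
    | succ j ih =>
      obtain ⟨G, h0, h1⟩ := ih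
      have hc : ∀ (l : ℕ) (i : Fin n), Continuous fun q : K × I => ρ i (q.1, τ l q.2) :=
        fun l i => (ρ i).continuous.comp (continuous_fst.prodMk ((hτc l).comp continuous_snd))
      refine ⟨⟨fun q => Tent_phi μ (fun i => ρ i (q.1, τ j q.2))
        (fun i => ρ i (q.1, τ (j + 1) q.2)) (G q),
        Tent_cont μ _ _ _ (hc j) (hc (j + 1)) G.continuous⟩, fun k => ?_, fun q i => ?_⟩
      · change Tent_phi μ (fun i => ρ i (k, τ j 0)) (fun i => ρ i (k, τ (j + 1) 0)) (G (k, 0)) = _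
        rw [hτ0, hτ0, Tent_self, h0]
      · exact Tent_pt μ hμ _ _ (hμ' _) (hδ' q.1 _ _ (hτd j q.2)) (G q) (h1 q) i
  obtain ⟨G, h0, h1⟩ := key (M + 1)
  refine ⟨G, h0, fun q i => ?_⟩
  have := h1 q i
  rwa [hτ1] at this

end

end Pool.Agent.MP_1c689d_ag.FP

end

section

set_option autoImplicit false

namespace Pool.Agent.MP_1c689d_ag.FP

noncomputable section

open Polynomial

theorem T2top_lift {E X K : Type} [TopologicalSpace E] [TopologicalSpace X] [TopologicalSpace K]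
    {π : E → X} (hπ : IsCoveringMap π) (H : C(K × I, X)) (f : C(K, E))
    (h0 : ∀ k, H (k, 0) = π (f k)) :
    ∃ G : C(K × I, E), (∀ k, G (k, 0) = f k) ∧ ∀ q, π (G q) = H q :=
  ⟨(hπ.liftHomotopy (H.comp ⟨Prod.swap, continuous_swap⟩) f h0).comp ⟨Prod.swap, continuous_swap⟩,
    fun k => hπ.liftHomotopy_zero _ f h0 k,
    fun q => congrFun (hπ.liftHomotopy_lifts (H.comp ⟨Prod.swap, continuous_swap⟩) f h0) q.swap⟩

/-- The sheets of a finite covering along a contraction. -/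
theorem T2top_sheets {E X K : Type} [TopologicalSpace E] [TopologicalSpace X] [TopologicalSpace K]
    {π : E → X} (hπ : IsCoveringMap π) {n : ℕ}
    (hn : ∀ x, (π ⁻¹' {x}).Finite ∧ (π ⁻¹' {x}).ncard = n) (H : C(K × I, X)) (b : X)
    (h1 : ∀ k, H (k, 1) = b) :
    ∃ G : Fin n → C(K × I, E), (∀ i q, π (G i q) = H q) ∧ (∀ q i j, G i q = G j q → i = j) ∧
      ∀ q e, π e = H q → ∃ i, G i q = e := by
  have := (hn b).1.to_subtype
  let e : π ⁻¹' {b} ≃ Fin n := Finite.equivFinOfCardEq ((Nat.card_coe_set_eq _).trans (hn b).2)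
  let r : C(K × I, K × I) := ⟨fun q => (q.1, unitInterval.symm q.2),
    continuous_fst.prodMk (unitInterval.continuous_symm.comp continuous_snd)⟩
  have hr : ∀ q, r (r q) = q := fun q => Prod.ext rfl (unitInterval.symm_symm q.2)
  have ex : ∀ i, ∃ G : C(K × I, E), (∀ k, G (k, 0) = (e.symm i).1) ∧ ∀ q, π (G q) = H (r q) :=
    fun i => T2top_lift hπ (H.comp r) (ContinuousMap.const K (e.symm i).1) fun k => by
      show H (k, unitInterval.symm 0) = π (e.symm i).1
      rw [unitInterval.symm_zero, h1]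
      exact (e.symm i).2.symm
  choose G g0 g1 using ex
  have a1 : ∀ i q, π (G i (r q)) = H q := fun i q => by rw [g1, hr]
  have a2 : ∀ q i j, G i q = G j q → i = j := by
    intro q i j h
    have := hπ.eq_of_comp_eq (g₁ := fun t : I => G i (q.1, t)) (g₂ := fun t : I => G j (q.1, t))
      ((G i).continuous.comp (Continuous.prodMk_right _))
      ((G j).continuous.comp (Continuous.prodMk_right _))
      (funext fun t => (g1 i _).trans (g1 j _).symm) q.2 h
    have h2 : G i (q.1, 0) = G j (q.1, 0) := congrFun this 0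
    rw [g0, g0] at h2
    exact e.symm.injective (Subtype.ext h2)
  refine ⟨fun i => (G i).comp r, a1, fun q => a2 (r q), fun q x hx => ?_⟩
  have := (hn (H q)).1.to_subtype
  have hb := Function.Injective.bijective_of_nat_card_le
    (f := fun i : Fin n => (⟨G i (r q), a1 i q⟩ : π ⁻¹' {H q}))
    (fun i j h => a2 (r q) i j (congrArg Subtype.val h))
    (by rw [Nat.card_coe_set_eq, (hn _).2, Nat.card_fin])
  obtain ⟨i, hi⟩ := hb.2 ⟨x, hx⟩
  exact ⟨i, congrArg Subtype.val hi⟩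

/-- Step 1: a covering space of a punctured plane has no homology in degrees `≥ 2`: `CL` holds by
`IsCoveringMap.liftHomotopy` (note the order `I × A` there), fibres are discrete
(`acyc_discrete`), apply `mv2`. -/
theorem acyc_cover_plane (T : Finset ℂ) {S : Type} [TopologicalSpace S]
    (π : S → {z : ℂ // z ∉ T}) (hπ : IsCoveringMap π) (k : ℕ) : Acyc S (k + 1) := by
  let p : C(S, ℂ) := ⟨fun x => (π x).1, continuous_subtype_val.comp hπ.continuous⟩
  have hd : ∀ a, DiscreteTopology {x // p x = a} := by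
    intro a
    by_cases ha : a ∈ T
    · have : IsEmpty {x // p x = a} := ⟨fun x => (π x.1).2 (x.2.symm ▸ ha : p x.1 ∈ T)⟩
      infer_instance
    · have := (hπ ⟨a, ha⟩).discreteTopology_fiber
      exact DiscreteTopology.of_continuous_injective
        (f := fun x : {x // p x = a} => (⟨x.1, Subtype.ext x.2⟩ : π ⁻¹' {⟨a, ha⟩}))
        (continuous_subtype_val.subtype_mk _) fun x y h => Subtype.ext (Subtype.mk.inj h)
  refine mv2 T p (fun x => (π x).2) ?_ k (fun a => acyc_discrete k) fun a => acyc_discrete (k + 1)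
  intro K _ _ f H b hH h0 _
  obtain ⟨G, g0, g1⟩ := T2top_lift hπ ⟨fun q => ⟨H q, hH q⟩, H.continuous.subtype_mk _⟩ f
    fun k => Subtype.ext (h0 k)
  exact ⟨G, g0, fun q => congrArg Subtype.val (g1 q)⟩

/-- A covering space of the complement of a plane curve that is fibred in punctured lines has no
third homology.  Apply `mv2` (with `k = 1`) to `p = (π ·).1.1`.  Fibres: over `a ∉ T` the fibre is
a covering of `ℂ` minus the roots of `m a` (restrict `π` to the preimage of the slice,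
`IsCoveringMapOn.isCoveringMap_restrictPreimage`, compose with a homeomorphism), so
`acyc_cover_plane` applies; over `a ∈ T` it is empty.  `CL`: given `f`, `H` with `H (k,1) = b`,
lift the reversed homotopy to the root covering of `root_covering` over `{a // a ∉ T}` starting
from each of the `n` distinct roots of `m b`: this gives `ρ i : C(K × I, ℂ)`, pairwise distinct
(uniqueness of lifts, `IsCoveringMap.eq_of_comp_eq`), hence all the roots of `m (H q)`.  `tent`
lifts `H` to the complement of the curve, then `IsCoveringMap.liftHomotopy` lifts to `S`.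
(If `K` is empty there is nothing to do; otherwise `b ∉ T`.) -/
theorem t2top (T : Finset ℂ) (n : ℕ) (m : ℂ → ℂ[X])
    (hm : ∀ a ∉ T, (m a).Monic ∧ (m a).natDegree = n ∧ (m a).Separable)
    (hc : ∀ i, ContinuousOn (fun a => (m a).coeff i) (↑T : Set ℂ)ᶜ) {S : Type} [TopologicalSpace S]
    (π : S → {q : ℂ × ℂ // q.1 ∉ T ∧ (m q.1).eval q.2 ≠ 0}) (hπ : IsCoveringMap π) :
    Acyc S 2 := by
  classical
  let p : C(S, ℂ) := ⟨fun x => (π x).1.1,
    continuous_fst.comp (continuous_subtype_val.comp hπ.continuous)⟩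
  have hf : ∀ a k, Acyc {x // p x = a} (k + 1) := by
    intro a k
    by_cases ha : a ∈ T
    · have : IsEmpty {x // p x = a} := ⟨fun x => (π x.1).2.1 (x.2.symm ▸ ha : p x.1 ∈ T)⟩
      exact acyc_discrete _
    have hr : ∀ z, z ∉ (m a).roots.toFinset ↔ (m a).eval z ≠ 0 := fun z => by
      rw [Multiset.mem_toFinset, mem_roots (hm a ha).1.ne_zero, IsRoot.def]
    let t : Set {q : ℂ × ℂ // q.1 ∉ T ∧ (m q.1).eval q.2 ≠ 0} := {q | q.1.1 = a}
    let g : t ≃ₜ {z : ℂ // z ∉ (m a).roots.toFinset} :=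
      { toFun := fun q => ⟨q.1.1.2, (hr _).2 (by
          have h : q.1.1.1 = a := q.2
          exact h ▸ q.1.2.2)⟩
        invFun := fun z => ⟨⟨(a, z.1), ha, (hr _).1 z.2⟩, rfl⟩
        left_inv := fun q => Subtype.ext (Subtype.ext (Prod.ext (Eq.symm q.2) rfl))
        right_inv := fun z => rfl
        continuous_toFun := by fun_prop
        continuous_invFun := by fun_prop }
    exact acyc_cover_plane _ _ ((hπ.restrictPreimage t).homeomorph_comp g) k
  refine mv2 T p (fun x => (π x).2.1) ?_ 1 (fun a => hf a 0) fun a => hf a 1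
  intro K _ _ f H b hH h0 h1
  rcases isEmpty_or_nonempty K with hK | ⟨⟨k0⟩⟩
  · exact ⟨f.comp ⟨Prod.fst, continuous_fst⟩, fun _ => rfl, fun q => isEmptyElim q.1⟩
  have hb : b ∉ T := h1 k0 ▸ hH (k0, 1)
  obtain ⟨c1, c2⟩ := root_covering n (fun a : {a : ℂ // a ∉ T} => m a.1)
    (fun a => ⟨(hm a.1 a.2).1, (hm a.1 a.2).2.1⟩)
    (fun i => (hc i).comp_continuous continuous_subtype_val fun a => a.2)
    fun a => (hm a.1 a.2).2.2
  obtain ⟨R, r1, r2, r3⟩ := T2top_sheets c1 c2 ⟨fun q => ⟨H q, hH q⟩, H.continuous.subtype_mk _⟩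
    ⟨b, hb⟩ fun k => Subtype.ext (h1 k)
  have r4 : ∀ i q, (m (H q)).eval (R i q).1.2 = 0 := fun i q => by
    have e : (R i q).1.1.1 = H q := congrArg Subtype.val (r1 i q)
    rw [← e]
    exact (R i q).2
  obtain ⟨G, g0, g1⟩ := tent (K := K)
    (fun i => ⟨fun q => (R i q).1.2,
      continuous_snd.comp (continuous_subtype_val.comp (R i).continuous)⟩)
    (fun q i j hij h => hij (r2 q i j (Subtype.ext (Prod.ext ((r1 i q).trans (r1 j q).symm) h))))
    ⟨fun k => (π (f k)).1.2,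
      continuous_snd.comp (continuous_subtype_val.comp (hπ.continuous.comp f.continuous))⟩
    (fun k i h => (π (f k)).2.2 (by
      have e : (π (f k)).1.2 = (R i (k, 0)).1.2 := h
      have := r4 i (k, 0)
      rw [h0, ← e] at this
      exact this))
  have g2 : ∀ q, (m (H q)).eval (G q) ≠ 0 := fun q h => by
    obtain ⟨i, hi⟩ := r3 q ⟨(⟨H q, hH q⟩, G q), h⟩ rfl
    exact g1 q i (congrArg (fun x => x.1.2) hi).symm
  obtain ⟨G', a0, a1⟩ := T2top_lift hπ ⟨fun q => ⟨(H q, G q), hH q, g2 q⟩,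
    (H.continuous.prodMk G.continuous).subtype_mk _⟩ f
    fun k => Subtype.ext (Prod.ext (h0 k) (g0 k))
  exact ⟨G', a0, fun q => congrArg (fun x => x.1.1) (a1 q)⟩

end

end Pool.Agent.MP_1c689d_ag.FP

end

section

set_option autoImplicit false

namespace Pool.Agent.MP_1c689d_ag.FP

noncomputable section

open Polynomial

/-- Evaluation at a point is a bijection from the lifts of a simplex to a fibre. -/
theorem Trf_eval {E X : Type} [TopologicalSpace E] [TopologicalSpace X] (p : C(E, X))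
    (hp : IsCoveringMap p) {m : ℕ} (σ : C(Sx m, X)) (v : Sx m) :
    Function.Bijective fun τ : {τ : C(Sx m, E) // p.comp τ = σ} =>
      (⟨τ.1 v, ContinuousMap.congr_fun τ.2 v⟩ : p ⁻¹' {σ v}) := by
  have := (convex_stdSimplex ℝ (Fin (m + 1))).contractibleSpace ⟨v.1, v.2⟩
  have := (convex_stdSimplex ℝ (Fin (m + 1))).locallyPathConnectedSpace
  refine (Function.bijective_iff_existsUnique _).2 fun e => ?_
  obtain ⟨F, ⟨h1, h2⟩, h3⟩ := hp.existsUnique_continuousMap_lifts σ v e.1 e.2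
  exact ⟨⟨F, ContinuousMap.ext (congrFun h2)⟩, Subtype.ext h1, fun τ hτ => Subtype.ext
    (h3 τ.1 ⟨congrArg Subtype.val hτ, funext (ContinuousMap.congr_fun τ.2)⟩)⟩

/-- Transfer for a finite covering.  A simplex is convex, hence simply connected and locally path
connected, so the lifts of `σ` correspond bijectively to the points over `σ v` for any point `v`
(`IsCoveringMap.existsUnique_continuousMap_lifts`).  Define `tr σ` as the sum of all lifts (a
finite set with `n` elements); restriction to a face is a bijection between the lifts of `σ` and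
the lifts of the face, so `tr` commutes with `bd` (see `transfer` in `Chains`). -/
theorem trf {E X : Type} [TopologicalSpace E] [TopologicalSpace X] (p : C(E, X))
    (hp : IsCoveringMap p) (n : ℕ) (hn : ∀ x, (p ⁻¹' {x}).Finite ∧ (p ⁻¹' {x}).ncard = n)
    {k : ℕ} (c : Ch X (k + 1)) (hc : bd c = 0) :
    ∃ c' : Ch E (k + 1), bd c' = 0 ∧ push p c' = (n : ℚ) • c := by
  have ex : ∀ (m : ℕ) (σ : C(Sx m, X)), Nonempty (Fin n ≃ {τ : C(Sx m, E) // p.comp τ = σ}) := by
    intro m σ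
    have := (hn (σ (vx 0))).1.to_subtype
    exact ⟨(Finite.equivFinOfCardEq (hn (σ (vx 0))).2).symm.trans
      (Equiv.ofBijective _ (Trf_eval p hp σ (vx 0))).symm⟩
  have L := fun m σ => (ex m σ).some
  refine ⟨ext1 (fun σ => ∑ i, sg (L _ σ i).1) c, ?_, ?_⟩
  · rw [transfer k Set.univ (fun σ i => (L _ σ i).1) (fun σ i => (L _ σ i).1) ?_ (mem_Sup_univ c),
      hc, map_zero]
    intro σ _ j
    have hb : Function.Bijective fun τ : {τ : C(Sx (k + 1), E) // p.comp τ = σ} =>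
        (⟨τ.1.comp (face k j), by rw [← ContinuousMap.comp_assoc, τ.2]⟩ :
          {τ : C(Sx k, E) // p.comp τ = σ.comp (face k j)}) :=
      (Function.Bijective.of_comp_iff' (Trf_eval p hp (σ.comp (face k j)) (vx 0)) _).1
        (Trf_eval p hp σ (face k j (vx 0)))
    exact ⟨((L _ σ).trans (Equiv.ofBijective _ hb)).trans (L _ _).symm, fun i => by simp⟩
  · exact LinearMap.congr_fun (f := (push p).comp (ext1 fun σ => ∑ i, sg (L _ σ i).1))
      (g := (n : ℚ) • LinearMap.id) (lin_ext fun σ => by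
        simp only [LinearMap.comp_apply, ext1_sg, map_sum, push_sg, (L _ σ _).2]
        simp [Nat.cast_smul_eq_nsmul]) c

end

end Pool.Agent.MP_1c689d_ag.FP

end
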