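import Pool.Agent.MP_1c689d_ag.FP.Defs
import Pool.Agent.Mg.F1c689d.G0153f2

set_option linter.all false


section

set_option autoImplicit false

namespace Pool.Agent.MP_1c689d_ag.FP

noncomputable section

open Polynomial

/-! ### Complex points of an algebra -/

/-- Complex points of a `ℂ`-algebra, with the topology of pointwise convergence (the analytic
topology if the algebra is finitely generated). -/
def Pts (R : Type) [CommRing R] [Algebra ℂ R] : Type := R →ₐ[ℂ] ℂ

section Pts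
variable {R S : Type} [CommRing R] [Algebra ℂ R] [CommRing S] [Algebra ℂ S]

/-- the underlying algebra map -/
def Pts.h (p : Pts R) : R →ₐ[ℂ] ℂ := p

/-- a point from an algebra map -/
def Pts.mk (p : R →ₐ[ℂ] ℂ) : Pts R := p

@[simp] theorem Pts.mk_h (p : R →ₐ[ℂ] ℂ) : (Pts.mk p).h = p := rfl

theorem Pts.ext {p q : Pts R} (h : ∀ r, p.h r = q.h r) : p = q := AlgHom.ext h

instance : TopologicalSpace (Pts R) :=
  TopologicalSpace.induced (fun p : Pts R => fun r : R => p.h r) inferInstance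

theorem Pts.isEmbedding : Topology.IsEmbedding (fun p : Pts R => fun r : R => p.h r) :=
  ⟨⟨rfl⟩, fun _ _ h => Pts.ext (congrFun h)⟩

theorem Pts.cont (r : R) : Continuous (fun p : Pts R => p.h r) :=
  (continuous_apply r).comp Pts.isEmbedding.continuous

theorem Pts.continuous_iff {X : Type} [TopologicalSpace X] (f : X → Pts R) :
    Continuous f ↔ ∀ r, Continuous (fun x => (f x).h r) := by
  rw [Pts.isEmbedding.continuous_iff, continuous_pi_iff]
  rfl

instance : T2Space (Pts R) := Pts.isEmbedding.t2Space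

/-- It suffices to test continuity on generators. -/
theorem Pts.continuous_of_adjoin {X : Type} [TopologicalSpace X] (f : X → Pts R) (G : Set R)
    (hG : Algebra.adjoin ℂ G = ⊤) (h : ∀ r ∈ G, Continuous (fun x => (f x).h r)) :
    Continuous f := by
  rw [Pts.continuous_iff]
  intro r
  have hr : r ∈ Algebra.adjoin ℂ G := hG ▸ Algebra.mem_top
  induction hr using Algebra.adjoin_induction with
  | mem x hx => exact h x hx
  | algebraMap c => simpa using continuous_const
  | add x y _ _ hx hy =>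
    simp only [map_add]
    exact hx.add hy
  | mul x y _ _ hx hy =>
    simp only [map_mul]
    exact hx.mul hy

/-- the map on points induced by an algebra map -/
def res (f : R →ₐ[ℂ] S) : C(Pts S, Pts R) :=
  ⟨fun p => Pts.mk (p.h.comp f), (Pts.continuous_iff _).2 fun r => Pts.cont (f r)⟩

@[simp] theorem res_h (f : R →ₐ[ℂ] S) (p : Pts S) (r : R) : (res f p).h r = p.h (f r) := rfl

end Pts

/-! ### Points of `Y` with values in a field, null combinations -/

section Null
variable {F : Type} [Field F] [Algebra ℂ F] {N : ℕ} {Ω : Type} [Field Ω] [Algebra ℂ Ω]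

/-- `x` is an `Ω`-point of `Y`, normalised so that some coordinate is `1`. -/
def IsPt (ξ : Fin (N + 1) → F) (x : Fin (N + 1) → Ω) : Prop :=
  (∃ i, x i = 1) ∧ ∀ (d : ℕ) (f : MvPolynomial (Fin (N + 1)) ℂ),
    f.IsHomogeneous d → MvPolynomial.aeval ξ f = 0 → MvPolynomial.aeval x f = 0

/-- the value of an `R`-valued point of the cone at a complex point of `R` -/
def evC (ξ : Fin (N + 1) → F) (R : Subalgebra ℂ Ω) (x : Fin (N + 1) → Ω) (hx : IsPt ξ x)
    (hR : ∀ i, x i ∈ R) (p : Pts R) : Cn ξ :=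
  ⟨fun i => p.h ⟨x i, hR i⟩, by
    obtain ⟨i, hi⟩ := hx.1
    intro h0
    have h1 : (⟨x i, hR i⟩ : R) = 1 := Subtype.ext hi
    have := congrFun h0 i
    simp [h1] at this, by
    intro d f hf h0
    have h1 : MvPolynomial.aeval (fun i => (⟨x i, hR i⟩ : R)) f = 0 := by
      apply Subtype.val_injective
      have := MvPolynomial.comp_aeval_apply (f := fun i => (⟨x i, hR i⟩ : R)) R.val f
      simpa [hx.2 d f hf h0] using this
    have := MvPolynomial.comp_aeval_apply (f := fun i => (⟨x i, hR i⟩ : R)) p.h f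
    rw [h1, map_zero] at this
    rw [← MvPolynomial.coe_aeval_eq_eval]
    exact this.symm⟩

/-- the continuous map `Spec R (ℂ) → Y(ℂ)` given by an `R`-valued point -/
def ev (ξ : Fin (N + 1) → F) (R : Subalgebra ℂ Ω) (x : Fin (N + 1) → Ω) (hx : IsPt ξ x)
    (hR : ∀ i, x i ∈ R) : C(Pts R, Pt ξ) :=
  ⟨fun p => Quotient.mk (rl ξ) (evC ξ R x hx hR p), continuous_quot_mk.comp
    (Continuous.subtype_mk (continuous_pi fun i => Pts.cont _) _)⟩

open Classical in
/-- push-forward of `3`-chains along `ev` (zero if `x` is not an `R`-valued point) -/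
def pu (ξ : Fin (N + 1) → F) (R : Subalgebra ℂ Ω) (x : Fin (N + 1) → Ω) :
    Ch (Pts R) 3 →ₗ[ℚ] Ch (Pt ξ) 3 :=
  if h : IsPt ξ x ∧ ∀ i, x i ∈ R then push (ev ξ R x h.1 h.2) else 0

theorem pu_eq (ξ : Fin (N + 1) → F) (R : Subalgebra ℂ Ω) (x : Fin (N + 1) → Ω) (hx : IsPt ξ x)
    (hR : ∀ i, x i ∈ R) : pu ξ R x = push (ev ξ R x hx hR) := dif_pos ⟨hx, hR⟩

/-- A formal combination of `Ω`-points acts by zero on `H₃` after spreading out. -/
def Null (ξ : Fin (N + 1) → F) (Z : (Fin (N + 1) → Ω) →₀ ℚ) : Prop :=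
  ∃ R : Subalgebra ℂ Ω, R.FG ∧ (∀ x ∈ Z.support, ∀ i, x i ∈ R) ∧
    ∀ c : Ch (Pts R) 3, bd c = 0 →
      ∃ w : Ch (Pt ξ) 4, bd w = Finsupp.linearCombination ℚ (fun x => pu ξ R x c) Z

/-- the linear form with coefficient vector `x` -/
def lin {A : Type} [CommRing A] (x : Fin (N + 1) → A) : MvPolynomial (Fin (N + 1)) A :=
  ∑ i, MvPolynomial.C (x i) * MvPolynomial.X i

/-- `G` is the Chow form of the zero-cycle `y₁ + … + yₙ` of `Y(ℂ)`. -/
def Dec (ξ : Fin (N + 1) → F) {n : ℕ} (G : MvPolynomial (Fin (N + 1)) ℂ) (y : Fin n → Pt ξ) :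
    Prop :=
  ∃ (x : Fin n → Cn ξ) (e : ℂ), e ≠ 0 ∧ (∀ l, Quotient.mk (rl ξ) (x l) = y l) ∧
    G = MvPolynomial.C e * ∏ l, lin (x l).1

end Null

/-! ### Places and admissible functions -/

/-- A place of `E` over `Ω` with values in `Ω`. -/
structure Place (Ω E : Type) [Field Ω] [Field E] [Algebra Ω E] where
  O : ValuationSubring E
  ρ : O →+* Ω
  mem : ∀ c : Ω, algebraMap Ω E c ∈ O
  ρ_alg : ∀ c : Ω, ρ ⟨algebraMap Ω E c, mem c⟩ = c
  ker : ∀ x : O, ρ x = 0 ↔ ¬ IsUnit x

/-- `E` is an algebraic extension of `Ω(κ)`, with a place over `κ = 0` and one over `κ = ∞`. -/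
structure Line (Ω E : Type) [Field Ω] [Field E] [Algebra Ω E] where
  κ : E
  tr : Transcendental Ω κ
  alg : ∀ x : E, IsAlgebraic (IntermediateField.adjoin Ω {κ}) x
  P0 : Place Ω E
  P1 : Place Ω E
  mem0 : κ ∈ P0.O
  h0 : P0.ρ ⟨κ, mem0⟩ = 0
  h1 : κ ∉ P1.O

section Adm
variable {Ω E : Type} [Field Ω] [Field E] [Algebra ℂ Ω] [Algebra ℂ E] [Algebra Ω E]
  [IsScalarTower ℂ Ω E]

/-- `x` is finite at the place `P` with value `c`. -/
def Place.Sp (P : Place Ω E) (x : E) (c : Ω) : Prop := ∃ h : x ∈ P.O, P.ρ ⟨x, h⟩ = c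

/-- `z` is the (normalised) specialisation of the projective point `x` at `P`. -/
def Place.Spec {N : ℕ} (P : Place Ω E) (x : Fin (N + 1) → E) (z : Fin (N + 1) → Ω) : Prop :=
  (∃ i, z i = 1) ∧ ∃ e : E, ∀ i, P.Sp (e * x i) (z i)

variable {L : Type} [Field L] [Algebra ℂ L]

/-- the specialisation of an embedding with values in the valuation ring -/
def Place.red (P : Place Ω E) (j : L →ₐ[ℂ] E) (h : ∀ x, j x ∈ P.O) : L →ₐ[ℂ] Ω :=
  { P.ρ.comp ((j : L →+* E).codRestrict P.O h) with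
    commutes' := fun c => by
      have : ((j : L →+* E).codRestrict P.O h) (algebraMap ℂ L c) =
          ⟨algebraMap Ω E (algebraMap ℂ Ω c), P.mem _⟩ := by
        apply Subtype.ext
        simp [← IsScalarTower.algebraMap_apply]
      simp only [RingHom.toMonoidHom_eq_coe, OneHom.toFun_eq_coe, MonoidHom.toOneHom_coe,
        MonoidHom.coe_coe, RingHom.coe_comp, Function.comp_apply, this, P.ρ_alg] }

open Classical in
/-- the value of `c` at the specialisation of `j`, zero if the specialisation is not dominant -/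
def Place.sp (P : Place Ω E) (c : (L →ₐ[ℂ] Ω) → ℚ) (j : L →ₐ[ℂ] E) : ℚ :=
  if h : ∀ x, j x ∈ P.O then c (P.red j h) else 0

/-- the multiset `J` of embeddings is stable under `Aut (E / Ω(κ))` -/
def Line.Stab (Λ : Line Ω E) (J : Multiset (L →ₐ[ℂ] E)) : Prop :=
  ∀ σ : E ≃ₐ[Ω] E, σ Λ.κ = Λ.κ →
    J.map (fun j => ((σ : E →ₐ[Ω] E).restrictScalars ℂ).comp j) = J

/-- `c` is invariant under rational equivalence modulo non-dominant points. -/
def Line.Adm (Λ : Line Ω E) (c : (L →ₐ[ℂ] Ω) → ℚ) : Prop :=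
  ∀ J : Multiset (L →ₐ[ℂ] E), Λ.Stab J → (J.map (Λ.P0.sp c)).sum = (J.map (Λ.P1.sp c)).sum

/-- all dominant points of the field `L` are rationally equivalent to non-dominant cycles -/
def Line.MZ (Λ : Line Ω E) (L : Type) [Field L] [Algebra ℂ L] : Prop :=
  ∀ c : (L →ₐ[ℂ] Ω) → ℚ, Λ.Adm c → ∀ φ, c φ = 0

end Adm

/-- the algebraic closure of `ℂ(S)` in `Ω` -/
def acl {Ω : Type} [Field Ω] [Algebra ℂ Ω] (S : Set Ω) : IntermediateField ℂ Ω :=
  (algebraicClosure (IntermediateField.adjoin ℂ S) Ω).restrictScalars ℂ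

theorem mem_acl {Ω : Type} [Field Ω] [Algebra ℂ Ω] {S : Set Ω} {x : Ω} :
    x ∈ acl S ↔ IsAlgebraic (IntermediateField.adjoin ℂ S) x := by
  simp [acl, mem_algebraicClosure_iff]

/-! ### Lifting of contractions -/

/-- Contractions in `ℂ ∖ Σ` of the images of compact families in `S` lift along `p`. -/
def CL {S : Type} [TopologicalSpace S] (T : Finset ℂ) (p : S → ℂ) : Prop :=
  ∀ (K : Type) [TopologicalSpace K] [CompactSpace K] (f : C(K, S)) (H : C(K × I, ℂ)) (b : ℂ),
    (∀ q, H q ∉ T) → (∀ k, H (k, 0) = p (f k)) → (∀ k, H (k, 1) = b) →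
      ∃ G : C(K × I, S), (∀ k, G (k, 0) = f k) ∧ ∀ q, p (G q) = H q

/-- chains all of whose simplices lie in `W` -/
def On {X : Type} [TopologicalSpace X] (W : Set X) (k : ℕ) : Submodule ℚ (Ch X k) :=
  Sup {σ | ∀ s, σ s ∈ W}

/-- the inclusion of a subspace -/
abbrev incl {X : Type} [TopologicalSpace X] (W : Set X) : C(W, X) :=
  ⟨Subtype.val, continuous_subtype_val⟩

/-- every `(k+1)`-cycle is a boundary -/
def Acyc (X : Type) [TopologicalSpace X] (k : ℕ) : Prop :=
  ∀ c : Ch X (k + 1), bd c = 0 → ∃ w : Ch X (k + 2), bd w = c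

open Classical in
/-- value at the complex point `p` of an element of `Ω` (zero if it is not in `R`) -/
def pv {Ω : Type} [Field Ω] [Algebra ℂ Ω] {R : Subalgebra ℂ Ω} (p : Pts R) (x : Ω) : ℂ :=
  if h : x ∈ R then p.h ⟨x, h⟩ else 0

theorem pv_eq {Ω : Type} [Field Ω] [Algebra ℂ Ω] {R : Subalgebra ℂ Ω} (p : Pts R) {x : Ω}
    (h : x ∈ R) : pv p x = p.h ⟨x, h⟩ := dif_pos h

/-! ### Orders of vanishing and the three-form -/

/-- `ord` is the normalised valuation of the discrete valuation ring `O ⊆ F` (on non-zero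
elements). -/
structure IsOrd {F : Type} [Field F] [Algebra ℂ F] (O : Subalgebra ℂ F) (ord : F → ℤ) : Prop where
  mul : ∀ x y, x ≠ 0 → y ≠ 0 → ord (x * y) = ord x + ord y
  add : ∀ x y, x ≠ 0 → y ≠ 0 → x + y ≠ 0 → min (ord x) (ord y) ≤ ord (x + y)
  mem : ∀ x, x ∈ O ↔ x = 0 ∨ 0 ≤ ord x
  unif : ∃ π, π ≠ 0 ∧ ord π = 1

/-! ### The cubic pencil on the Kummer surface and its Jacobian -/

section Geo
variable {k : Type} [Field k]

/-- `x³ + A x - (a³ + A a)`, the Weierstrass cubic with root `a` -/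
def cub (a A x : k) : k := x ^ 3 + A * x - (a ^ 3 + A * a)

/-- `cub a A (a + u) = u * gg a A u` -/
def gg (a A u : k) : k := u ^ 2 + 3 * a * u + (3 * a ^ 2 + A)

theorem cub_eq (a A x : k) : cub a A x = (x - a) * gg a A (x - a) := by
  unfold cub gg
  ring

/-- the three distinct roots `b, b', b''` of `x³ + B x - (b³ + B b)` -/
structure Rt (B b b' b'' : k) : Prop where
  sum : b + b' + b'' = 0
  e2 : B = b * b' + b * b'' + b' * b''
  d1 : b ≠ b'
  d2 : b ≠ b''
  d3 : b' ≠ b''

end Geo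

end

end Pool.Agent.MP_1c689d_ag.FP

end

section

set_option autoImplicit false

namespace Pool.Agent.MP_1c689d_ag.FP

noncomputable section

open Polynomial

/-! Toolbox for the relative algebraic closure `acl` and transcendence degree three. -/

variable {Ω : Type} [Field Ω] [Algebra ℂ Ω]

theorem TB_alg_mono {K L : IntermediateField ℂ Ω} (h : K ≤ L) {x : Ω} (hx : IsAlgebraic K x) :
    IsAlgebraic L x :=
  IsAlgebraic.tower_top_of_subalgebra_le (A := K.toSubalgebra) (B := L.toSubalgebra) h hx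

theorem TB_split (s x₁ x₂ : Ω) : AlgebraicIndependent ℂ ![s, x₁, x₂] ↔
    Transcendental ℂ s ∧ AlgebraicIndependent (Algebra.adjoin ℂ ({s} : Set Ω)) ![x₁, x₂] := by
  have h := AlgebraicIndependent.sumElim_iff (R := ℂ) (x := fun _ : Fin 1 => s) (y := ![x₁, x₂])
  rw [Set.range_const, algebraicIndependent_unique_type_iff (ι := Fin 1)] at h
  rw [← h]
  refine (algebraicIndependent_equiv'
    ((Equiv.sumComm (Fin 2) (Fin 1)).trans finSumFinEquiv) ?_).symm
  funext i
  rcases i with i | i <;> fin_cases i <;> rfl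

theorem subset_acl (S : Set Ω) : S ⊆ acl S := by
  intro x hx
  exact mem_acl.2 (isAlgebraic_algebraMap
    (⟨x, IntermediateField.subset_adjoin ℂ S hx⟩ : IntermediateField.adjoin ℂ S))

theorem adjoin_le_acl (S : Set Ω) : IntermediateField.adjoin ℂ S ≤ acl S := by
  exact IntermediateField.adjoin_le_iff.2 (subset_acl S)

theorem mem_acl_of_isAlgebraic {S : Set Ω} {x : Ω} (h : IsAlgebraic (acl S) x) : x ∈ acl S := by
  have h' : IsAlgebraic (algebraicClosure (IntermediateField.adjoin ℂ S) Ω) x := h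
  exact mem_acl.2 (h'.restrictScalars (IntermediateField.adjoin ℂ S))

theorem acl_le {S S' : Set Ω} (h : S ⊆ acl S') : acl S ≤ acl S' := by
  intro x hx
  exact mem_acl_of_isAlgebraic
    (TB_alg_mono (IntermediateField.adjoin_le_iff.2 h) (mem_acl.1 hx))

theorem acl_mono {S S' : Set Ω} (h : S ⊆ S') : acl S ≤ acl S' := by
  exact acl_le (h.trans (subset_acl S'))

theorem mem_acl_of_root {S : Set Ω} {x : Ω} (p : Polynomial Ω) (hp : p ≠ 0) (hc : ∀ i, p.coeff i ∈ acl S)
    (h : p.eval x = 0) : x ∈ acl S := by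
  obtain ⟨q, hq⟩ : p ∈ Polynomial.lifts (algebraMap (acl S) Ω) :=
    (Polynomial.lifts_iff_coeff_lifts p).2 fun n => ⟨⟨_, hc n⟩, rfl⟩
  rw [Polynomial.coe_mapRingHom] at hq
  refine mem_acl_of_isAlgebraic ⟨q, ?_, ?_⟩
  · rintro rfl
    exact hp (by rw [← hq, Polynomial.map_zero])
  · rw [← Polynomial.eval_map_algebraMap, hq, h]

theorem mem_acl_of_sq {S : Set Ω} {x : Ω} (h : x ^ 2 ∈ acl S) : x ∈ acl S := by
  exact mem_acl_of_isAlgebraic
    (IsAlgebraic.of_pow two_pos (isAlgebraic_algebraMap (⟨_, h⟩ : acl S)))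

theorem mem_acl_of_cubic {S : Set Ω} {x A B : Ω} (hA : A ∈ acl S) (hB : B ∈ acl S)
    (h : x ^ 3 + A * x + B = 0) : x ∈ acl S := by
  refine mem_acl_of_isAlgebraic
    ⟨X ^ 3 + C (⟨A, hA⟩ : acl S) * X + C (⟨B, hB⟩ : acl S), ?_, ?_⟩
  · intro h0
    have := congrArg (fun q => Polynomial.coeff q 3) h0
    simp at this
  · simpa using h

theorem aeval_mem (M : IntermediateField ℂ Ω) {s : Ω} (hs : s ∈ M) (p : ℂ[X]) : aeval s p ∈ M := by
  have : aeval s p = M.val (aeval (⟨s, hs⟩ : M) p) :=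
    Polynomial.aeval_algHom_apply M.val (⟨s, hs⟩ : M) p
  rw [this]
  exact Subtype.property _

theorem mem_acl_iff_adjoin {S : Set Ω} {x : Ω} :
    x ∈ acl S ↔ IsAlgebraic (Algebra.adjoin ℂ S) x := by
  rw [mem_acl, IntermediateField.isAlgebraic_adjoin_iff]

theorem mem_acl_field (M : IntermediateField ℂ Ω) {x : Ω} :
    x ∈ acl (M : Set Ω) ↔ IsAlgebraic M x := by
  rw [mem_acl, IntermediateField.adjoin_self]

theorem map_acl {Ω' : Type} [Field Ω'] [Algebra ℂ Ω'] (χ : Ω →ₐ[ℂ] Ω') {S : Set Ω} {x : Ω}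
    (h : x ∈ acl S) : χ x ∈ acl (χ '' S) := by
  have h1 := (mem_acl.1 h).ringHom_of_comp_eq
    (IntermediateField.equivMap (IntermediateField.adjoin ℂ S) χ) χ
    (AlgEquiv.injective _) (by ext y; rfl)
  rw [mem_acl, ← IntermediateField.adjoin_map]
  exact h1

theorem acl_top_of_indep (h3 : Algebra.trdeg ℂ Ω = 3) (z : Fin 3 → Ω)
    (hz : AlgebraicIndependent ℂ z) : acl (Set.range z) = ⊤ := by
  have hb := hz.isTranscendenceBasis_of_trdeg_le_of_finite (by rw [h3]; simp)
  have := hb.isAlgebraic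
  exact top_unique fun x _ => mem_acl_iff_adjoin.2 (Algebra.IsAlgebraic.isAlgebraic x)

theorem indep_of_acl_top (h3 : Algebra.trdeg ℂ Ω = 3) (w : Fin 3 → Ω)
    (h : acl (Set.range w) = ⊤) : AlgebraicIndependent ℂ w := by
  have : Algebra.IsAlgebraic (Algebra.adjoin ℂ (Set.range w)) Ω :=
    ⟨fun x => mem_acl_iff_adjoin.1 (h ▸ IntermediateField.mem_top)⟩
  exact (Algebra.IsAlgebraic.isTranscendenceBasis_of_le_trdeg_of_finite ℂ w
    (by rw [h3]; simp)).1

theorem trdeg_eq_three (z : Fin 3 → Ω) (hz : AlgebraicIndependent ℂ z)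
    (h : acl (Set.range z) = ⊤) : Algebra.trdeg ℂ Ω = 3 := by
  have : Algebra.IsAlgebraic (Algebra.adjoin ℂ (Set.range z)) Ω :=
    ⟨fun x => mem_acl_iff_adjoin.1 (h ▸ IntermediateField.mem_top)⟩
  have hb := (hz.isTranscendenceBasis_iff_isAlgebraic.2 this).cardinalMk_eq_trdeg
  rw [← hb]
  simp

theorem range_vec3 (a b c : Ω) : Set.range ![a, b, c] = {a, b, c} := by
  ext x
  simp only [Matrix.range_cons, Matrix.range_empty, Set.union_empty, Set.mem_union,
    Set.mem_singleton_iff, Set.mem_insert_iff]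

theorem indep_acl {s x₁ x₂ : Ω} (h : AlgebraicIndependent ℂ ![s, x₁, x₂]) :
    AlgebraicIndependent (acl {s}) ![x₁, x₂] := by
  have h1 := ((TB_split s x₁ x₂).1 h).2
  have h2 := IntermediateField.algebraicIndependent_adjoin_iff.2 h1
  exact h2.algebraicClosure

theorem transc_of_indep {a b t : Ω} (h : AlgebraicIndependent ℂ ![a, b, t]) :
    Transcendental (acl {a, b}) t ∧ Transcendental (acl {a}) b ∧ Transcendental ℂ a := by
  refine ⟨?_, (indep_acl h).transcendental 0, h.transcendental 0⟩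
  have h1 := h.transcendental_adjoin (s := {0, 1}) (i := 2) (by decide)
  rw [Set.image_pair] at h1
  exact fun h2 => h1 (mem_acl_iff_adjoin.1 (mem_acl_of_isAlgebraic h2))

theorem transc_of_acl_top (h3 : Algebra.trdeg ℂ Ω = 3) {w₀ w₁ t : Ω} (h : acl {w₀, w₁, t} = ⊤) :
    Transcendental (acl {w₀, w₁}) t := by
  exact (transc_of_indep (indep_of_acl_top h3 ![w₀, w₁, t] (by rw [range_vec3, h]))).1

/-- generators of `adjoin` inside the subfield itself -/
theorem adjoin_top_sub (S : Set Ω) :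
    IntermediateField.adjoin ℂ ((↑) ⁻¹' S : Set (IntermediateField.adjoin ℂ S)) = ⊤ := by
  apply IntermediateField.lift_injective
  rw [IntermediateField.lift_adjoin, IntermediateField.lift_top]
  congr 1
  exact Set.image_preimage_eq_of_subset fun x hx =>
    ⟨⟨x, IntermediateField.subset_adjoin ℂ S hx⟩, rfl⟩

/-- two embeddings that agree on generators agree -/
theorem hom_ext_adjoin {K : Type} [Field K] [Algebra ℂ K] {S : Set K}
    (hS : IntermediateField.adjoin ℂ S = ⊤) {φ ψ : K →ₐ[ℂ] Ω} (h : ∀ x ∈ S, φ x = ψ x) :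
    φ = ψ := by
  ext x
  have hx : x ∈ IntermediateField.adjoin ℂ S := hS ▸ IntermediateField.mem_top
  induction hx using IntermediateField.adjoin_induction with
  | mem y hy => exact h y hy
  | algebraMap c => rw [φ.commutes, ψ.commutes]
  | add y z _ _ hy hz => rw [map_add, map_add, hy, hz]
  | inv y _ hy => rw [map_inv₀, map_inv₀, hy]
  | mul y z _ _ hy hz => rw [map_mul, map_mul, hy, hz]

/-- the image of a field lies in any subfield containing the images of the generators -/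
theorem map_mem_of_adjoin {K : Type} [Field K] [Algebra ℂ K] {S : Set K}
    (hS : IntermediateField.adjoin ℂ S = ⊤) (φ : K →ₐ[ℂ] Ω) (M : IntermediateField ℂ Ω)
    (h : ∀ x ∈ S, φ x ∈ M) (x : K) : φ x ∈ M := by
  have h1 : IntermediateField.adjoin ℂ S ≤ M.comap φ := IntermediateField.adjoin_le_iff.2 h
  exact h1 (hS ▸ IntermediateField.mem_top)

end

end Pool.Agent.MP_1c689d_ag.FP

end

section

set_option autoImplicit false

namespace Pool.Agent.MP_1c689d_ag.SX

open Pool.Agent.MP_1c689d_ag.FP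

noncomputable section

/-! ### Six lines in the plane

Lines are numbered `1, …, 6` in the names and `0, …, 5` in the indices. -/

/-- a vector with three coordinates (a line, or a point, of the plane) -/
@[ext] structure V (R : Type) where
  x : R
  y : R
  z : R

/-- apply a map to the coordinates -/
def V.map {R S : Type} (f : R → S) (a : V R) : V S := ⟨f a.x, f a.y, f a.z⟩

/-- apply a map to six vectors -/
def mp {R S : Type} (f : R → S) (m : Fin 6 → V R) : Fin 6 → V S := fun i => (m i).map f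

/-- all coordinates lie in the subfield `M` -/
def V.In {Ω : Type} [Field Ω] [Algebra ℂ Ω] (M : IntermediateField ℂ Ω) (a : V Ω) : Prop :=
  a.x ∈ M ∧ a.y ∈ M ∧ a.z ∈ M

theorem cz (Ω : Type) [Field Ω] [Algebra ℂ Ω] : CharZero Ω :=
  charZero_of_injective_algebraMap (algebraMap ℂ Ω).injective

section Ring
variable {R : Type} [CommRing R]

/-- scalar multiple -/
def V.sm (l : R) (a : V R) : V R := ⟨l * a.x, l * a.y, l * a.z⟩

/-- the determinant of three vectors -/
def br (a b c : V R) : R :=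
  a.x * (b.y * c.z - b.z * c.y) - a.y * (b.x * c.z - b.z * c.x) + a.z * (b.x * c.y - b.y * c.x)

/-- the value of the linear form `a` at the point `p` -/
def ev (a p : V R) : R := a.x * p.x + a.y * p.y + a.z * p.z

/-- the cross product: `ev c (cr a b) = br c a b` -/
def cr (a b : V R) : V R :=
  ⟨a.y * b.z - a.z * b.y, a.z * b.x - a.x * b.z, a.x * b.y - a.y * b.x⟩

/-- the line through `a ∩ b` and `c ∩ d`, evaluated at `p` -/
def ML (a b c d p : V R) : R := br a c d * ev b p - br b c d * ev a p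

/-! The involution on the lines through `a ∩ b` that exchanges `c, d` and `f, g`. -/

def JN (a b c d f g p : V R) : R :=
  br f a b * br g a b * ev c p * ev d p - br c a b * br d a b * ev f p * ev g p
def Jt (a b c d f g p : V R) : R :=
  ev f p * ev g p * (br d a b * ev c p + br c a b * ev d p) -
    ev c p * ev d p * (br g a b * ev f p + br f a b * ev g p)
def JV (a b c d f g p : V R) : V R :=
  ⟨JN a b c d f g p * p.x + Jt a b c d f g p * (cr a b).x,
    JN a b c d f g p * p.y + Jt a b c d f g p * (cr a b).y,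
    JN a b c d f g p * p.z + Jt a b c d f g p * (cr a b).z⟩
def Jz (a b c d f g p : V R) : R :=
  JN a b c d f g p * ML a b c f p * ML a b c g p * ML a b d f p * ML a b d g p

variable (m : Fin 6 → V R) (p : V R)

/-- the product of the six linear forms -/
def prodL : R :=
  ev (m 0) p * ev (m 1) p * ev (m 2) p * ev (m 3) p * ev (m 4) p * ev (m 5) p

def kap : R := -(br (m 1) (m 2) (m 3) * br (m 0) (m 4) (m 5))
def w35 : R :=
  br (m 1) (m 3) (m 5) * br (m 0) (m 2) (m 4) - br (m 0) (m 1) (m 5) * br (m 2) (m 3) (m 4)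
def w46 : R :=
  br (m 0) (m 1) (m 4) * br (m 2) (m 3) (m 5) + br (m 1) (m 2) (m 4) * br (m 0) (m 3) (m 5)
def w36 : R := br (m 0) (m 3) (m 5) * br (m 1) (m 2) (m 4)
def w45 : R := br (m 0) (m 2) (m 4) * br (m 1) (m 3) (m 5)
def wmu : R := br (m 0) (m 2) (m 3) * br (m 1) (m 4) (m 5)
def d5 : R := br (m 0) (m 3) (m 4) * br (m 0) (m 1) (m 5)
def d6 : R := br (m 0) (m 3) (m 5) * br (m 0) (m 1) (m 4)
/-- numerator of the conic pencil through `p₁₃, p₁₄, p₂₅, p₂₆` -/
def MM : R := ML (m 0) (m 2) (m 1) (m 4) p * ML (m 0) (m 3) (m 1) (m 5) p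
def A5 : R := ev (m 4) p * ML (m 0) (m 2) (m 1) (m 5) p
def A6 : R := ev (m 5) p * ML (m 0) (m 2) (m 1) (m 4) p
def Q35 : R := br (m 0) (m 1) (m 3) * A5 m p + d5 m * (ev (m 1) p * ev (m 2) p)
def Q36 : R := br (m 0) (m 1) (m 3) * A6 m p + d6 m * (ev (m 1) p * ev (m 2) p)
def q0 : R := d5 m * A6 m p - d6 m * A5 m p
def Cb5 : R := ev (m 2) p * q0 m p + kap m * ev (m 0) p * A5 m p
def Cb6 : R := ev (m 2) p * q0 m p + kap m * ev (m 0) p * A6 m p

/-- no three of the lines are concurrent, except possibly `{2,3,4}` and `{1,5,6}` -/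
def H18 : Prop :=
  ∀ i j k : Fin 6, i < j → j < k → (i, j, k) ≠ (1, 2, 3) → (i, j, k) ≠ (0, 4, 5) →
    br (m i) (m j) (m k) ≠ 0

/-- `H18`, and general position if `full` holds -/
def Good (full : Prop) : Prop :=
  H18 m ∧ (full → br (m 1) (m 2) (m 3) ≠ 0 ∧ br (m 0) (m 4) (m 5) ≠ 0)

variable (x : Fin 6 → R)

def e2 : R :=
    x 0 * x 1 + x 0 * x 2 + x 0 * x 3 + x 0 * x 4 + x 0 * x 5 + x 1 * x 2 + x 1 * x 3 +
    x 1 * x 4 + x 1 * x 5 + x 2 * x 3 + x 2 * x 4 + x 2 * x 5 + x 3 * x 4 + x 3 * x 5 +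
    x 4 * x 5
def e3 : R :=
  -(
    x 0 * x 1 * x 2 + x 0 * x 1 * x 3 + x 0 * x 1 * x 4 + x 0 * x 1 * x 5 + x 0 * x 2 * x 3 +
    x 0 * x 2 * x 4 + x 0 * x 2 * x 5 + x 0 * x 3 * x 4 + x 0 * x 3 * x 5 + x 0 * x 4 * x 5 +
    x 1 * x 2 * x 3 + x 1 * x 2 * x 4 + x 1 * x 2 * x 5 + x 1 * x 3 * x 4 + x 1 * x 3 * x 5 +
    x 1 * x 4 * x 5 + x 2 * x 3 * x 4 + x 2 * x 3 * x 5 + x 2 * x 4 * x 5 + x 3 * x 4 * x 5)
def e4 : R :=
    x 0 * x 1 * x 2 * x 3 + x 0 * x 1 * x 2 * x 4 + x 0 * x 1 * x 2 * x 5 +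
    x 0 * x 1 * x 3 * x 4 + x 0 * x 1 * x 3 * x 5 + x 0 * x 1 * x 4 * x 5 +
    x 0 * x 2 * x 3 * x 4 + x 0 * x 2 * x 3 * x 5 + x 0 * x 2 * x 4 * x 5 +
    x 0 * x 3 * x 4 * x 5 + x 1 * x 2 * x 3 * x 4 + x 1 * x 2 * x 3 * x 5 +
    x 1 * x 2 * x 4 * x 5 + x 1 * x 3 * x 4 * x 5 + x 2 * x 3 * x 4 * x 5
def e5 : R :=
  -(
    x 0 * x 1 * x 2 * x 3 * x 4 + x 0 * x 1 * x 2 * x 3 * x 5 + x 0 * x 1 * x 2 * x 4 * x 5 +
    x 0 * x 1 * x 3 * x 4 * x 5 + x 0 * x 2 * x 3 * x 4 * x 5 + x 1 * x 2 * x 3 * x 4 * x 5)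
def e6 : R := x 0 * x 1 * x 2 * x 3 * x 4 * x 5

/-- the five invariants; `ee x k` has weight `k + 2` -/
def ee : Fin 5 → R := ![e2 x, e3 x, e4 x, e5 x, e6 x]

/-- The equation `X ζ² = c (X² - 2 a(t) X + P(t))` of the partner surface, where
`2 a = 2 t³ + e₂ t + e₃` and `P = t⁶ + e₂ t⁴ + e₃ t³ + e₄ t² + e₅ t + e₆`. -/
def Eqn (e : Fin 5 → R) (c t X ζ : R) : Prop :=
  X * ζ ^ 2 = c * (X ^ 2 - (2 * t ^ 3 + e 0 * t + e 1) * X +
    (t ^ 6 + e 0 * t ^ 4 + e 1 * t ^ 3 + e 2 * t ^ 2 + e 3 * t + e 4))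

/-- the normalised equation of the partner, as an expression -/
def Fw (e : Fin 5 → R) (t X ζ : R) : R :=
  X * ζ ^ 2 - (X ^ 2 - (2 * t ^ 3 + e 0 * t + e 1) * X +
    (t ^ 6 + e 0 * t ^ 4 + e 1 * t ^ 3 + e 2 * t ^ 2 + e 3 * t + e 4))

/-- the same with coefficients that are polynomials in `s` -/
def FW [Algebra ℂ R] (P : Fin 5 → Polynomial ℂ) (s t X ζ : R) : R :=
  Fw (fun k => Polynomial.aeval s (P k)) t X ζ

end Ring

section Field
variable {k : Type} [Field k] (m : Fin 6 → V k) (p : V k)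

def n6 : k := -(kap m + w46 m + w35 m) / 3

/-- the six roots of the Satake type sextic -/
def xs : Fin 6 → k :=
  ![w46 m + n6 m, w35 m + n6 m, n6 m, w45 m + n6 m + kap m, w36 m + n6 m + kap m,
    wmu m + n6 m + kap m]

def pP (t : k) : k := (t - xs m 0) * (t - xs m 1) * (t - xs m 2)
def qP (t : k) : k := (t - xs m 3) * (t - xs m 4) * (t - xs m 5)
def Wf : k := MM m p / (ev (m 0) p * ev (m 1) p) + n6 m
def rho : k := A5 m p * Q36 m p / (A6 m p * Q35 m p)
def tf : k := Wf m p + kap m / (1 - rho m p)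
def xf : k := pP m (tf m p) * rho m p
def zf (z : k) : k :=
  z * q0 m p / (ev (m 0) p ^ 2 * ev (m 1) p * ev (m 4) p * ev (m 5) p)

def psf (z : k) : k :=
  -(z * ML (m 0) (m 2) (m 1) (m 4) p * Q35 m p) /
    (ev (m 0) p ^ 2 * ev (m 1) p ^ 2 * ev (m 2) p * ev (m 4) p)
/-- the birational map to the partner -/
def Tf (z : k) : k × k × k := (tf m p, xf m p, zf m p z)

/-- the non-vanishing conditions satisfied by a generic point -/
structure Gen : Prop where
  L : ∀ i, ev (m i) p ≠ 0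
  M : ∀ i j : Fin 6, i ≠ 0 → i ≠ 2 → j ≠ 0 → j ≠ 2 → i ≠ j → ML (m 0) (m 2) (m i) (m j) p ≠ 0
  q35 : Q35 m p ≠ 0
  q36 : Q36 m p ≠ 0
  q : q0 m p ≠ 0

end Field

/-- the relabellings used as generators -/
def g56 : Fin 6 → Fin 6 := ![0, 1, 2, 3, 5, 4]
def g3 : Fin 6 → Fin 6 := ![1, 0, 4, 5, 2, 3]
def g4 : Fin 6 → Fin 6 := ![0, 3, 2, 1, 5, 4]
def g5 : Fin 6 → Fin 6 := ![0, 4, 2, 5, 1, 3]

@[simp] theorem g56_0 : g56 0 = 0 := rfl
@[simp] theorem g56_1 : g56 1 = 1 := rfl
@[simp] theorem g56_2 : g56 2 = 2 := rfl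
@[simp] theorem g56_3 : g56 3 = 3 := rfl
@[simp] theorem g56_4 : g56 4 = 5 := rfl
@[simp] theorem g56_5 : g56 5 = 4 := rfl
@[simp] theorem g3_0 : g3 0 = 1 := rfl
@[simp] theorem g3_1 : g3 1 = 0 := rfl
@[simp] theorem g3_2 : g3 2 = 4 := rfl
@[simp] theorem g3_3 : g3 3 = 5 := rfl
@[simp] theorem g3_4 : g3 4 = 2 := rfl
@[simp] theorem g3_5 : g3 5 = 3 := rfl
@[simp] theorem g4_0 : g4 0 = 0 := rfl
@[simp] theorem g4_1 : g4 1 = 3 := rfl
@[simp] theorem g4_2 : g4 2 = 2 := rfl
@[simp] theorem g4_3 : g4 3 = 1 := rfl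
@[simp] theorem g4_4 : g4 4 = 5 := rfl
@[simp] theorem g4_5 : g4 5 = 4 := rfl
@[simp] theorem g5_0 : g5 0 = 0 := rfl
@[simp] theorem g5_1 : g5 1 = 4 := rfl
@[simp] theorem g5_2 : g5 2 = 2 := rfl
@[simp] theorem g5_3 : g5 3 = 5 := rfl
@[simp] theorem g5_4 : g5 4 = 1 := rfl
@[simp] theorem g5_5 : g5 5 = 3 := rfl

/-- the partition `{1,5,6} | {2,3,4}` -/
def side : Fin 6 → Bool := ![false, true, true, true, false, false]

/-- the admissible relabellings -/
def Allowed (full : Prop) (σ : Fin 6 → Fin 6) : Prop :=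
  full ∨ ∀ i j, side i = side j ↔ side (σ i) = side (σ j)

/-! ### Logarithmic derivations -/

/-- `D` does not decrease the order -/
def Lg {F : Type} [Field F] [Algebra ℂ F] (ord : F → ℤ) (D : Derivation ℂ F F) : Prop :=
  ∀ x, x ≠ 0 → D x = 0 ∨ ord x ≤ ord (D x)

/-- the Jacobian determinant -/
def jac {F : Type} [Field F] [Algebra ℂ F] (D : Fin 3 → Derivation ℂ F F) (a : Fin 3 → F) : F :=
  Matrix.det (Matrix.of fun i j => D i (a j))

/-- zero or of order bigger than `n` -/
def Gt {F : Type} [Field F] (ord : F → ℤ) (n : ℤ) (x : F) : Prop := x = 0 ∨ n < ord x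

/-- A double plane `z² = c ℓ₁ ⋯ ℓ₆` over `ℂ(s)`, inside a field containing the coefficients of
the lines. -/
structure Six {N : Type} [Field N] [Algebra ℂ N] (full : Prop) (s u v z c : N)
    (m : Fin 6 → V N) : Prop where
  ind : AlgebraicIndependent ℂ ![s, u, v]
  alg : acl {s, u, v} = ⊤
  mem : ∀ i, (m i).In (acl {s})
  cmem : c ∈ IntermediateField.adjoin ℂ {s}
  c0 : c ≠ 0
  good : Good m full
  eq : z ^ 2 = c * prodL m ⟨u, v, 1⟩
  gal : ∀ (T : Type) [Field T] [Algebra ℂ T] (ψ ψ' : N →ₐ[ℂ] T), ψ s = ψ' s →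
    ∃ σ : Equiv.Perm (Fin 6), Allowed full σ ∧ mp ψ' m = mp ψ m ∘ σ

/-- the normalised invariants are the polynomials `P k` -/
structure Nrm {N : Type} [Field N] [Algebra ℂ N] (s c : N) (m : Fin 6 → V N) (G : N)
    (P : Fin 5 → Polynomial ℂ) : Prop where
  mem : G ∈ IntermediateField.adjoin ℂ {s}
  ne : G ≠ 0
  eq : ∀ k : Fin 5, c ^ (k.1 + 2) * ee (xs m) k =
    G ^ (2 * (k.1 + 2)) * Polynomial.aeval s (P k)

/-- the weighted degrees are at most `2 (k + 2)` -/
def SmallP (P : Fin 5 → Polynomial ℂ) : Prop := ∀ k : Fin 5, (P k).natDegree ≤ 2 * (k.1 + 2)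

/-- minimality at every finite point -/
def LoP (P : Fin 5 → Polynomial ℂ) : Prop :=
  ∀ τ : ℂ, ∃ k : Fin 5, P k ≠ 0 ∧ (P k).rootMultiplicity τ < 2 * (k.1 + 2)

/-- the function field of the partner threefold -/
structure Wr {K : Type} [Field K] [Algebra ℂ K] (P : Fin 5 → Polynomial ℂ) (s t x ζ : K) :
    Prop where
  ind : AlgebraicIndependent ℂ ![s, t, x]
  eq : FW P s t x ζ = 0
  gen : IntermediateField.adjoin ℂ {s, t, x, ζ} = ⊤

section Lab
variable {K Ω : Type} [Field K] [Algebra ℂ K] [Field Ω] [Algebra ℂ Ω]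

/-- the point of the plane below `ψ` -/
def pt (u v : K) (ψ : K →ₐ[ℂ] Ω) : V Ω := ⟨ψ u, ψ v, 1⟩

/-- A labelling of the six lines for the points `ψ : K → Ω` of the double plane
`K = ℂ(s, u, v, z)` that lie over `s₀`. -/
structure Lab (full : Prop) (s u v z : K) (s₀ c₀ : Ω) (m : Fin 6 → V Ω) : Prop where
  ind : AlgebraicIndependent ℂ ![s, u, v]
  gen : IntermediateField.adjoin ℂ {s, u, v, z} = ⊤
  mem : ∀ i, (m i).In (acl {s₀})
  cmem : c₀ ∈ acl {s₀}
  c0 : c₀ ≠ 0
  good : Good m full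
  eq : ∀ ψ : K →ₐ[ℂ] Ω, ψ s = s₀ → ψ z ^ 2 = c₀ * prodL m (pt u v ψ)

/-- the image of the point `ψ` on the partner -/
def TT (u v z : K) (m : Fin 6 → V Ω) (ψ : K →ₐ[ℂ] Ω) : Ω × Ω × Ω := Tf m (pt u v ψ) (ψ z)

/-- relabelling by `σ` is induced by an automorphism that preserves `c` -/
def Mv (full : Prop) (s u v z : K) (s₀ c₀ : Ω) (c : (K →ₐ[ℂ] Ω) → ℚ) (σ : Fin 6 → Fin 6) :
    Prop :=
  ∀ m, Lab full s u v z s₀ c₀ m → Lab full s u v z s₀ c₀ (m ∘ σ) ∧
    ∀ ψ : K →ₐ[ℂ] Ω, ψ s = s₀ →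
      ∃ ψ' : K →ₐ[ℂ] Ω, ψ' s = s₀ ∧ TT u v z (m ∘ σ) ψ' = TT u v z m ψ ∧ c ψ' = c ψ

end Lab

end

end Pool.Agent.MP_1c689d_ag.SX

end

section

set_option autoImplicit false

namespace Pool.Agent.MP_1c689d_ag.SX

open Pool.Agent.MP_1c689d_ag.FP

noncomputable section

open Polynomial

/-! Generation of the groups of permutations. -/

theorem Grp_ind {β : Type} (f : Fin 6 → β) (P : (Fin 6 → Fin 6) → Prop) (h1 : P id)
    (hc : ∀ σ τ, P σ → P τ → P (σ ∘ τ))
    (hs : ∀ i j : Fin 6, i < j → f i = f j → P (Equiv.swap i j)) :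
    ∀ (n : ℕ) (σ : Equiv.Perm (Fin 6)), σ.support.card ≤ n → (∀ i, f (σ i) = f i) → P σ := by
  have hs' : ∀ i j : Fin 6, i ≠ j → f i = f j → P (Equiv.swap i j) := by
    intro i j h e
    rcases lt_or_gt_of_ne h with h | h
    · exact hs i j h e
    · rw [Equiv.swap_comm]
      exact hs j i h e.symm
  intro n
  induction n with
  | zero =>
    intro σ h _
    rw [Nat.le_zero, Finset.card_eq_zero, Equiv.Perm.support_eq_empty_iff] at h
    subst h
    exact h1
  | succ n ih =>
    intro σ h hf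
    by_cases h0 : ∀ x, σ x = x
    · have e : (σ : Fin 6 → Fin 6) = id := funext h0
      rw [e]
      exact h1
    push Not at h0
    obtain ⟨x, hx⟩ := h0
    have h2 := Equiv.Perm.card_support_swap_mul hx
    have h3 := ih (Equiv.swap x (σ x) * σ) (by omega) (by
      intro i
      rw [Equiv.Perm.mul_apply, ← hf i]
      exact Equiv.apply_swap_eq_self (hf x).symm _)
    have h4 := hc _ _ (hs' x (σ x) hx.symm (hf x).symm) h3
    have e : (Equiv.swap x (σ x) : Fin 6 → Fin 6) ∘ (Equiv.swap x (σ x) * σ : Equiv.Perm (Fin 6)) =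
        σ := by
      funext i
      simp
    rwa [e] at h4

theorem Grp_cast {P : (Fin 6 → Fin 6) → Prop} {σ τ : Fin 6 → Fin 6} (h : P σ)
    (e : ∀ i, σ i = τ i) : P τ := by
  rwa [← funext e]

/-- Show `P` for all transpositions by explicit words in the generators (find them with a short
search outside the prover; check `swap i j = g ∘ g' ∘ …` by `decide`), then use
`Equiv.Perm.swap_induction_on`. -/
theorem gen_full (P : (Fin 6 → Fin 6) → Prop) (h1 : P id) (hc : ∀ σ τ, P σ → P τ → P (σ ∘ τ))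
    (h56 : P g56) (h3 : P g3) (h4 : P g4) (h5 : P g5) (σ : Equiv.Perm (Fin 6)) : P σ := by
  refine Grp_ind (fun _ => ()) P h1 hc ?_ _ σ le_rfl fun _ => rfl
  have s01 : P (Equiv.swap 0 1) :=
    Grp_cast (hc _ _ h4 (hc _ _ h5 (hc _ _ h3 (hc _ _ h56 (hc _ _ h4 (hc _ _ h3 (hc _ _ h4 h5)))))))
      (by decide)
  have s02 : P (Equiv.swap 0 2) :=
    Grp_cast (hc _ _ h3 (hc _ _ h4 (hc _ _ h3 (hc _ _ h4 (hc _ _ h3 (hc _ _ h4 h5))))))
      (by decide)
  have s03 : P (Equiv.swap 0 3) :=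
    Grp_cast (hc _ _ h5 (hc _ _ h3 (hc _ _ h56 (hc _ _ h4 (hc _ _ h3 h5)))))
      (by decide)
  have s04 : P (Equiv.swap 0 4) :=
    Grp_cast (hc _ _ h56 (hc _ _ h3 (hc _ _ h56 (hc _ _ h4 (hc _ _ h3 h56)))))
      (by decide)
  have s05 : P (Equiv.swap 0 5) :=
    Grp_cast (hc _ _ h3 (hc _ _ h56 (hc _ _ h4 h3)))
      (by decide)
  have s12 : P (Equiv.swap 1 2) :=
    Grp_cast (hc _ _ h4 (hc _ _ h3 (hc _ _ h56 (hc _ _ h3 h4))))
      (by decide)
  have s13 : P (Equiv.swap 1 3) :=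
    Grp_cast (hc _ _ h56 h4)
      (by decide)
  have s14 : P (Equiv.swap 1 4) :=
    Grp_cast (hc _ _ h3 (hc _ _ h4 (hc _ _ h5 (hc _ _ h3 (hc _ _ h4 (hc _ _ h3 h4))))))
      (by decide)
  have s15 : P (Equiv.swap 1 5) :=
    Grp_cast (hc _ _ h3 (hc _ _ h5 (hc _ _ h3 (hc _ _ h56 (hc _ _ h4 (hc _ _ h3 (hc _ _ h5 h3)))))))
      (by decide)
  have s23 : P (Equiv.swap 2 3) :=
    Grp_cast (hc _ _ h3 (hc _ _ h56 h3))
      (by decide)
  have s24 : P (Equiv.swap 2 4) :=
    Grp_cast (hc _ _ h56 (hc _ _ h5 (hc _ _ h3 (hc _ _ h56 (hc _ _ h3 (hc _ _ h5 h56))))))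
      (by decide)
  have s25 : P (Equiv.swap 2 5) :=
    Grp_cast (hc _ _ h5 (hc _ _ h3 (hc _ _ h56 (hc _ _ h3 h5))))
      (by decide)
  have s34 : P (Equiv.swap 3 4) :=
    Grp_cast (hc _ _ h3 (hc _ _ h5 (hc _ _ h3 (hc _ _ h56 (hc _ _ h3 (hc _ _ h5 h3))))))
      (by decide)
  have s35 : P (Equiv.swap 3 5) :=
    Grp_cast (hc _ _ h3 (hc _ _ h4 (hc _ _ h3 (hc _ _ h4 (hc _ _ h5 (hc _ _ h3 h4))))))
      (by decide)
  have s45 : P (Equiv.swap 4 5) :=
    Grp_cast h56
      (by decide)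
  intro i j h _
  fin_cases i <;> fin_cases j <;> first | assumption | exact absurd h (by decide)

/-- The group of order 72 that preserves the partition `side`.  After composing with `g3` if
necessary, `σ` preserves each side; then compose with transpositions inside the sides (each is a
word in the generators) to fix `0, 4` and `1, 2` one after the other.  Alternatively list words
for the 72 elements and check by `decide`. -/
theorem gen_wr (P : (Fin 6 → Fin 6) → Prop) (h1 : P id) (hc : ∀ σ τ, P σ → P τ → P (σ ∘ τ))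
    (h56 : P g56) (h3 : P g3) (h4 : P g4) (σ : Equiv.Perm (Fin 6))
    (hσ : ∀ i j, side i = side j ↔ side (σ i) = side (σ j)) : P σ := by
  have key : ∀ τ : Equiv.Perm (Fin 6), (∀ i, side (τ i) = side i) → P τ := by
    intro τ hτ
    refine Grp_ind side P h1 hc ?_ _ τ le_rfl hτ
    have s04 : P (Equiv.swap 0 4) :=
      Grp_cast (hc _ _ h56 (hc _ _ h3 (hc _ _ h56 (hc _ _ h4 (hc _ _ h3 h56)))))
        (by decide)
    have s05 : P (Equiv.swap 0 5) :=
      Grp_cast (hc _ _ h3 (hc _ _ h56 (hc _ _ h4 h3)))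
        (by decide)
    have s12 : P (Equiv.swap 1 2) :=
      Grp_cast (hc _ _ h4 (hc _ _ h3 (hc _ _ h56 (hc _ _ h3 h4))))
        (by decide)
    have s13 : P (Equiv.swap 1 3) :=
      Grp_cast (hc _ _ h56 h4)
        (by decide)
    have s23 : P (Equiv.swap 2 3) :=
      Grp_cast (hc _ _ h3 (hc _ _ h56 h3))
        (by decide)
    have s45 : P (Equiv.swap 4 5) :=
      Grp_cast h56
        (by decide)
    intro i j h e
    fin_cases i <;> fin_cases j <;>
      first | assumption | exact absurd h (by decide) | exact absurd e (by decide)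
  by_cases h0 : side (σ 0) = side 0
  · refine key σ fun i => ?_
    have h := hσ i 0
    rw [h0] at h
    revert h
    cases side i <;> cases side (σ i) <;> cases side 0 <;> simp
  · have e3 : ∀ i, g3 (g3 i) = i := by decide
    have e4 : ∀ i, side (g3 i) = !side i := by decide
    let γ : Equiv.Perm (Fin 6) := ⟨g3, g3, e3, e3⟩
    have h2 := key (γ * σ) fun i => by
      change side (g3 (σ i)) = side i
      have h := hσ i 0
      rw [e4]
      revert h h0
      cases side i <;> cases side (σ i) <;> cases side 0 <;> cases side (σ 0) <;> simp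
    exact Grp_cast (hc _ _ h3 h2) fun i => e3 (σ i)

theorem g56_inj : Function.Injective g56 := by
  decide

theorem g3_inj : Function.Injective g3 := by
  decide

theorem g4_inj : Function.Injective g4 := by
  decide

theorem g5_inj : Function.Injective g5 := by
  decide

theorem g56_all (full : Prop) : Allowed full g56 := by
  exact Or.inr (by decide)

theorem g3_all (full : Prop) : Allowed full g3 := by
  exact Or.inr (by decide)

theorem g4_all (full : Prop) : Allowed full g4 := by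
  exact Or.inr (by decide)

end

end Pool.Agent.MP_1c689d_ag.SX

end

section

set_option autoImplicit false

namespace Pool.Agent.MP_1c689d_ag.SX

open Pool.Agent.MP_1c689d_ag.FP

noncomputable section

open Polynomial

/-! Homogeneity in the point, and membership in subfields. -/

section Ring
variable {R : Type} [CommRing R] (l : R) (m : Fin 6 → V R) (p : V R)

theorem ev_sm (a : V R) : ev a (V.sm l p) = l * ev a p := by
  simp only [ev, V.sm]; ring

theorem ML_sm (a b c d : V R) : ML a b c d (V.sm l p) = l * ML a b c d p := by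
  simp only [ML, ev_sm]; ring

theorem prodL_sm : prodL m (V.sm l p) = l ^ 6 * prodL m p := by
  simp only [prodL, ev_sm]; ring

theorem MM_sm : MM m (V.sm l p) = l ^ 2 * MM m p := by
  simp only [MM, ML_sm]; ring

theorem A5_sm : A5 m (V.sm l p) = l ^ 2 * A5 m p := by
  simp only [A5, ML_sm, ev_sm]; ring

theorem A6_sm : A6 m (V.sm l p) = l ^ 2 * A6 m p := by
  simp only [A6, ML_sm, ev_sm]; ring

theorem Q35_sm : Q35 m (V.sm l p) = l ^ 2 * Q35 m p := by
  simp only [Q35, A5_sm, ev_sm]; ring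

theorem Q36_sm : Q36 m (V.sm l p) = l ^ 2 * Q36 m p := by
  simp only [Q36, A6_sm, ev_sm]; ring

theorem q0_sm : q0 m (V.sm l p) = l ^ 2 * q0 m p := by
  simp only [q0, A5_sm, A6_sm]; ring

end Ring

section Field
variable {k : Type} [Field k] {l : k} (hl : l ≠ 0) (m : Fin 6 → V k) (p : V k)
include hl

/-! cancel the powers of `l` with `mul_div_mul_left`; no other non-vanishing is needed -/

theorem Wf_sm : Wf m (V.sm l p) = Wf m p := by
  simp only [Wf, MM_sm, ev_sm]
  rw [show l * ev (m 0) p * (l * ev (m 1) p) = l ^ 2 * (ev (m 0) p * ev (m 1) p) by ring,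
    mul_div_mul_left _ _ (pow_ne_zero 2 hl)]

theorem rho_sm : rho m (V.sm l p) = rho m p := by
  simp only [rho, A5_sm, A6_sm, Q35_sm, Q36_sm]
  rw [show l ^ 2 * A5 m p * (l ^ 2 * Q36 m p) = l ^ 4 * (A5 m p * Q36 m p) by ring,
    show l ^ 2 * A6 m p * (l ^ 2 * Q35 m p) = l ^ 4 * (A6 m p * Q35 m p) by ring,
    mul_div_mul_left _ _ (pow_ne_zero 4 hl)]

theorem tf_sm : tf m (V.sm l p) = tf m p := by
  simp only [tf, Wf_sm hl, rho_sm hl]

theorem xf_sm : xf m (V.sm l p) = xf m p := by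
  simp only [xf, tf_sm hl, rho_sm hl]

theorem zf_sm (z : k) : zf m (V.sm l p) (l ^ 3 * z) = zf m p z := by
  simp only [zf, q0_sm, ev_sm]
  rw [show l ^ 3 * z * (l ^ 2 * q0 m p) = l ^ 5 * (z * q0 m p) by ring,
    show (l * ev (m 0) p) ^ 2 * (l * ev (m 1) p) * (l * ev (m 4) p) * (l * ev (m 5) p) =
      l ^ 5 * (ev (m 0) p ^ 2 * ev (m 1) p * ev (m 4) p * ev (m 5) p) by ring,
    mul_div_mul_left _ _ (pow_ne_zero 5 hl)]

theorem Tf_sm (z : k) : Tf m (V.sm l p) (l ^ 3 * z) = Tf m p z := by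
  simp only [Tf, tf_sm hl, xf_sm hl, zf_sm hl]

theorem Gen_sm : Gen m (V.sm l p) ↔ Gen m p := by
  have h2 : l ^ 2 ≠ 0 := pow_ne_zero 2 hl
  constructor
  · intro h
    refine ⟨fun i => ?_, fun i j a b c d e => ?_, ?_, ?_, ?_⟩
    · have := h.L i
      rw [ev_sm] at this
      exact right_ne_zero_of_mul this
    · have := h.M i j a b c d e
      rw [ML_sm] at this
      exact right_ne_zero_of_mul this
    · have := h.q35
      rw [Q35_sm] at this
      exact right_ne_zero_of_mul this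
    · have := h.q36
      rw [Q36_sm] at this
      exact right_ne_zero_of_mul this
    · have := h.q
      rw [q0_sm] at this
      exact right_ne_zero_of_mul this
  · intro h
    refine ⟨fun i => ?_, fun i j a b c d e => ?_, ?_, ?_, ?_⟩
    · rw [ev_sm]
      exact mul_ne_zero hl (h.L i)
    · rw [ML_sm]
      exact mul_ne_zero hl (h.M i j a b c d e)
    · rw [Q35_sm]
      exact mul_ne_zero h2 h.q35
    · rw [Q36_sm]
      exact mul_ne_zero h2 h.q36
    · rw [q0_sm]
      exact mul_ne_zero h2 h.q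

end Field

variable {Ω : Type} [Field Ω] [Algebra ℂ Ω] {M : IntermediateField ℂ Ω}

theorem V.In.mono {M' : IntermediateField ℂ Ω} (h : M ≤ M') {a : V Ω} (ha : a.In M) :
    a.In M' := by
  exact ⟨h ha.1, h ha.2.1, h ha.2.2⟩

theorem br_mem {a b c : V Ω} (ha : a.In M) (hb : b.In M) (hc : c.In M) : br a b c ∈ M := by
  obtain ⟨a1, a2, a3⟩ := ha
  obtain ⟨b1, b2, b3⟩ := hb
  obtain ⟨c1, c2, c3⟩ := hc
  exact add_mem (sub_mem (mul_mem a1 (sub_mem (mul_mem b2 c3) (mul_mem b3 c2)))
    (mul_mem a2 (sub_mem (mul_mem b1 c3) (mul_mem b3 c1))))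
    (mul_mem a3 (sub_mem (mul_mem b1 c2) (mul_mem b2 c1)))

theorem ev_mem {a p : V Ω} (ha : a.In M) (hp : p.In M) : ev a p ∈ M := by
  exact add_mem (add_mem (mul_mem ha.1 hp.1) (mul_mem ha.2.1 hp.2.1)) (mul_mem ha.2.2 hp.2.2)

theorem cr_in {a b : V Ω} (ha : a.In M) (hb : b.In M) : (cr a b).In M := by
  obtain ⟨a1, a2, a3⟩ := ha
  obtain ⟨b1, b2, b3⟩ := hb
  exact ⟨sub_mem (mul_mem a2 b3) (mul_mem a3 b2), sub_mem (mul_mem a3 b1) (mul_mem a1 b3),
    sub_mem (mul_mem a1 b2) (mul_mem a2 b1)⟩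

theorem sm_in {l : Ω} {a : V Ω} (hl : l ∈ M) (ha : a.In M) : (V.sm l a).In M := by
  exact ⟨mul_mem hl ha.1, mul_mem hl ha.2.1, mul_mem hl ha.2.2⟩

theorem ML_mem {a b c d p : V Ω} (ha : a.In M) (hb : b.In M) (hc : c.In M) (hd : d.In M)
    (hp : p.In M) : ML a b c d p ∈ M := by
  exact sub_mem (mul_mem (br_mem ha hc hd) (ev_mem hb hp))
    (mul_mem (br_mem hb hc hd) (ev_mem ha hp))

theorem ee_mem {x : Fin 6 → Ω} (hx : ∀ i, x i ∈ M) (k : Fin 5) : ee x k ∈ M := by
  have h0 := hx 0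
  have h1 := hx 1
  have h2 := hx 2
  have h3 := hx 3
  have h4 := hx 4
  have h5 := hx 5
  have a2 : e2 x ∈ M := by
    unfold e2
    repeat (first | assumption | apply add_mem | apply mul_mem)
  have a3 : e3 x ∈ M := by
    unfold e3
    apply neg_mem
    repeat (first | assumption | apply add_mem | apply mul_mem)
  have a4 : e4 x ∈ M := by
    unfold e4
    repeat (first | assumption | apply add_mem | apply mul_mem)
  have a5 : e5 x ∈ M := by
    unfold e5
    apply neg_mem
    repeat (first | assumption | apply add_mem | apply mul_mem)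
  have a6 : e6 x ∈ M := by
    unfold e6
    repeat (first | assumption | apply mul_mem)
  fin_cases k
  · exact a2
  · exact a3
  · exact a4
  · exact a5
  · exact a6

variable {m : Fin 6 → V Ω} (hm : ∀ i, (m i).In M)
include hm

theorem kap_mem : kap m ∈ M := by
  exact neg_mem (mul_mem (br_mem (hm _) (hm _) (hm _)) (br_mem (hm _) (hm _) (hm _)))

theorem w35_mem : w35 m ∈ M := by
  exact sub_mem (mul_mem (br_mem (hm _) (hm _) (hm _)) (br_mem (hm _) (hm _) (hm _)))
    (mul_mem (br_mem (hm _) (hm _) (hm _)) (br_mem (hm _) (hm _) (hm _)))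

theorem w46_mem : w46 m ∈ M := by
  exact add_mem (mul_mem (br_mem (hm _) (hm _) (hm _)) (br_mem (hm _) (hm _) (hm _)))
    (mul_mem (br_mem (hm _) (hm _) (hm _)) (br_mem (hm _) (hm _) (hm _)))

theorem w36_mem : w36 m ∈ M := by
  exact mul_mem (br_mem (hm _) (hm _) (hm _)) (br_mem (hm _) (hm _) (hm _))

theorem w45_mem : w45 m ∈ M := by
  exact mul_mem (br_mem (hm _) (hm _) (hm _)) (br_mem (hm _) (hm _) (hm _))

theorem wmu_mem : wmu m ∈ M := by
  exact mul_mem (br_mem (hm _) (hm _) (hm _)) (br_mem (hm _) (hm _) (hm _))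

theorem d5_mem : d5 m ∈ M := by
  exact mul_mem (br_mem (hm _) (hm _) (hm _)) (br_mem (hm _) (hm _) (hm _))

theorem d6_mem : d6 m ∈ M := by
  exact mul_mem (br_mem (hm _) (hm _) (hm _)) (br_mem (hm _) (hm _) (hm _))

theorem n6_mem : n6 m ∈ M := by
  exact div_mem (neg_mem (add_mem (add_mem (kap_mem hm) (w46_mem hm)) (w35_mem hm)))
    (ofNat_mem M 3)

theorem xs_mem (i : Fin 6) : xs m i ∈ M := by
  have hn := n6_mem hm
  have hk := kap_mem hm
  fin_cases i
  · exact add_mem (w46_mem hm) hn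
  · exact add_mem (w35_mem hm) hn
  · exact hn
  · exact add_mem (add_mem (w45_mem hm) hn) hk
  · exact add_mem (add_mem (w36_mem hm) hn) hk
  · exact add_mem (add_mem (wmu_mem hm) hn) hk

theorem pP_mem {t : Ω} (ht : t ∈ M) : pP m t ∈ M := by
  exact mul_mem (mul_mem (sub_mem ht (xs_mem hm 0)) (sub_mem ht (xs_mem hm 1)))
    (sub_mem ht (xs_mem hm 2))

theorem qP_mem {t : Ω} (ht : t ∈ M) : qP m t ∈ M := by
  exact mul_mem (mul_mem (sub_mem ht (xs_mem hm 3)) (sub_mem ht (xs_mem hm 4)))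
    (sub_mem ht (xs_mem hm 5))

variable {p : V Ω} (hp : p.In M)
include hp

theorem prodL_mem : prodL m p ∈ M := by
  exact mul_mem (mul_mem (mul_mem (mul_mem (mul_mem (ev_mem (hm _) hp) (ev_mem (hm _) hp))
    (ev_mem (hm _) hp)) (ev_mem (hm _) hp)) (ev_mem (hm _) hp)) (ev_mem (hm _) hp)

theorem A5_mem : A5 m p ∈ M := by
  exact mul_mem (ev_mem (hm _) hp) (ML_mem (hm _) (hm _) (hm _) (hm _) hp)

theorem A6_mem : A6 m p ∈ M := by
  exact mul_mem (ev_mem (hm _) hp) (ML_mem (hm _) (hm _) (hm _) (hm _) hp)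

theorem Q35_mem : Q35 m p ∈ M := by
  exact add_mem (mul_mem (br_mem (hm _) (hm _) (hm _)) (A5_mem hm hp))
    (mul_mem (d5_mem hm) (mul_mem (ev_mem (hm _) hp) (ev_mem (hm _) hp)))

theorem q0_mem : q0 m p ∈ M := by
  exact sub_mem (mul_mem (d5_mem hm) (A6_mem hm hp)) (mul_mem (d6_mem hm) (A5_mem hm hp))

end

end Pool.Agent.MP_1c689d_ag.SX

end

section

set_option autoImplicit false

namespace Pool.Agent.MP_1c689d_ag.SX

open Pool.Agent.MP_1c689d_ag.FP

noncomputable section

open Polynomial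

/-! Compatibility of all the expressions of `Base` with ring homomorphisms (unfold and
`simp only [map_add, map_sub, map_mul, map_neg, map_pow, map_div₀, map_ofNat, map_one]`). -/

section Ring
variable {R S F : Type} [CommRing R] [CommRing S] [FunLike F R S] [RingHomClass F R S] (f : F)

theorem map_br (a b c : V R) : f (br a b c) = br (a.map f) (b.map f) (c.map f) := by
  simp only [br, V.map, map_add, map_sub, map_mul, map_neg]

theorem map_ev (a p : V R) : f (ev a p) = ev (a.map f) (p.map f) := by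
  simp only [ev, V.map, map_add, map_sub, map_mul, map_neg]

theorem map_ML (a b c d p : V R) :
    f (ML a b c d p) = ML (a.map f) (b.map f) (c.map f) (d.map f) (p.map f) := by
  simp only [ML, map_br, map_ev, map_add, map_sub, map_mul, map_neg]

variable (m : Fin 6 → V R) (p : V R)

theorem map_kap : f (kap m) = kap (mp f m) := by
  simp only [kap, mp, map_br, map_add, map_sub, map_mul, map_neg]

theorem map_w35 : f (w35 m) = w35 (mp f m) := by
  simp only [w35, mp, map_br, map_add, map_sub, map_mul, map_neg]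

theorem map_w46 : f (w46 m) = w46 (mp f m) := by
  simp only [w46, mp, map_br, map_add, map_sub, map_mul, map_neg]

theorem map_w36 : f (w36 m) = w36 (mp f m) := by
  simp only [w36, mp, map_br, map_add, map_sub, map_mul, map_neg]

theorem map_w45 : f (w45 m) = w45 (mp f m) := by
  simp only [w45, mp, map_br, map_add, map_sub, map_mul, map_neg]

theorem map_wmu : f (wmu m) = wmu (mp f m) := by
  simp only [wmu, mp, map_br, map_add, map_sub, map_mul, map_neg]

theorem map_d5 : f (d5 m) = d5 (mp f m) := by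
  simp only [d5, mp, map_br, map_add, map_sub, map_mul, map_neg]

theorem map_d6 : f (d6 m) = d6 (mp f m) := by
  simp only [d6, mp, map_br, map_add, map_sub, map_mul, map_neg]

theorem map_prodL : f (prodL m p) = prodL (mp f m) (p.map f) := by
  simp only [prodL, mp, map_ev, map_add, map_sub, map_mul, map_neg]

theorem map_MM : f (MM m p) = MM (mp f m) (p.map f) := by
  simp only [MM, mp, map_ML, map_add, map_sub, map_mul, map_neg]

theorem map_A5 : f (A5 m p) = A5 (mp f m) (p.map f) := by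
  simp only [A5, mp, map_ML, map_ev, map_add, map_sub, map_mul, map_neg]

theorem map_A6 : f (A6 m p) = A6 (mp f m) (p.map f) := by
  simp only [A6, mp, map_ML, map_ev, map_add, map_sub, map_mul, map_neg]

theorem map_Q35 : f (Q35 m p) = Q35 (mp f m) (p.map f) := by
  simp only [Q35, mp, map_A5, map_d5, map_br, map_ev, map_add, map_sub, map_mul, map_neg]

theorem map_Q36 : f (Q36 m p) = Q36 (mp f m) (p.map f) := by
  simp only [Q36, mp, map_A6, map_d6, map_br, map_ev, map_add, map_sub, map_mul, map_neg]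

theorem map_q0 : f (q0 m p) = q0 (mp f m) (p.map f) := by
  simp only [q0, map_A5, map_A6, map_d5, map_d6, map_add, map_sub, map_mul, map_neg]

theorem map_ee (x : Fin 6 → R) (k : Fin 5) : f (ee x k) = ee (fun i => f (x i)) k := by
  have h0 : f (e2 x) = e2 fun i => f (x i) := by simp only [e2, map_add, map_sub, map_mul, map_neg]
  have h1 : f (e3 x) = e3 fun i => f (x i) := by simp only [e3, map_add, map_sub, map_mul, map_neg]
  have h2 : f (e4 x) = e4 fun i => f (x i) := by simp only [e4, map_add, map_sub, map_mul, map_neg]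
  have h3 : f (e5 x) = e5 fun i => f (x i) := by simp only [e5, map_add, map_sub, map_mul, map_neg]
  have h4 : f (e6 x) = e6 fun i => f (x i) := by simp only [e6, map_add, map_sub, map_mul, map_neg]
  fin_cases k
  exacts [h0, h1, h2, h3, h4]

theorem map_Fw (e : Fin 5 → R) (t X ζ : R) :
    f (Fw e t X ζ) = Fw (fun k => f (e k)) (f t) (f X) (f ζ) := by
  simp only [Fw, map_add, map_sub, map_mul, map_neg, map_pow, map_ofNat]

end Ring

theorem map_FW {R S : Type} [CommRing R] [CommRing S] [Algebra ℂ R] [Algebra ℂ S]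
    (f : R →ₐ[ℂ] S) (P : Fin 5 → ℂ[X]) (s t x ζ : R) :
    f (FW P s t x ζ) = FW P (f s) (f t) (f x) (f ζ) := by
  simp only [FW, map_Fw, Polynomial.aeval_algHom_apply]

section Field
variable {k l F : Type} [Field k] [Field l] [FunLike F k l] [RingHomClass F k l] (f : F)
  (m : Fin 6 → V k) (p : V k)

theorem map_n6 : f (n6 m) = n6 (mp f m) := by
  simp only [n6, map_kap, map_w46, map_w35, map_add, map_sub, map_mul, map_neg, map_div₀, map_ofNat]

theorem map_xs (i : Fin 6) : f (xs m i) = xs (mp f m) i := by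
  have h0 : f (w46 m + n6 m) = w46 (mp f m) + n6 (mp f m) := by
    rw [map_add, map_w46, map_n6]
  have h1 : f (w35 m + n6 m) = w35 (mp f m) + n6 (mp f m) := by
    rw [map_add, map_w35, map_n6]
  have h3 : f (w45 m + n6 m + kap m) = w45 (mp f m) + n6 (mp f m) + kap (mp f m) := by
    rw [map_add, map_add, map_w45, map_n6, map_kap]
  have h4 : f (w36 m + n6 m + kap m) = w36 (mp f m) + n6 (mp f m) + kap (mp f m) := by
    rw [map_add, map_add, map_w36, map_n6, map_kap]
  have h5 : f (wmu m + n6 m + kap m) = wmu (mp f m) + n6 (mp f m) + kap (mp f m) := by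
    rw [map_add, map_add, map_wmu, map_n6, map_kap]
  fin_cases i
  exacts [h0, h1, map_n6 f m, h3, h4, h5]

theorem map_pP (t : k) : f (pP m t) = pP (mp f m) (f t) := by
  simp only [pP, map_xs, map_add, map_sub, map_mul, map_neg]

theorem map_Wf : f (Wf m p) = Wf (mp f m) (p.map f) := by
  simp only [Wf, mp, map_MM, map_ev, map_n6, map_add, map_sub, map_mul, map_neg, map_div₀]

theorem map_rho : f (rho m p) = rho (mp f m) (p.map f) := by
  simp only [rho, map_A5, map_A6, map_Q35, map_Q36, map_add, map_sub, map_mul, map_neg, map_div₀]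

theorem map_tf : f (tf m p) = tf (mp f m) (p.map f) := by
  simp only [tf, map_Wf, map_kap, map_rho, map_add, map_sub, map_mul, map_neg, map_div₀, map_one]

theorem map_xf : f (xf m p) = xf (mp f m) (p.map f) := by
  simp only [xf, map_pP, map_tf, map_rho, map_add, map_sub, map_mul, map_neg]

theorem map_zf (z : k) : f (zf m p z) = zf (mp f m) (p.map f) (f z) := by
  simp only [zf, mp, map_q0, map_ev, map_add, map_sub, map_mul, map_neg, map_div₀, map_pow]

theorem map_psf (z : k) : f (psf m p z) = psf (mp f m) (p.map f) (f z) := by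
  simp only [psf, mp, map_ML, map_Q35, map_ev, map_add, map_sub, map_mul, map_neg, map_div₀, map_pow]

/-- field homomorphisms are injective -/
theorem H18.map (h : H18 m) : H18 (mp f m) := by
  intro i j k h1 h2 h3 h4
  have h5 := (map_ne_zero f).2 (h i j k h1 h2 h3 h4)
  rwa [map_br] at h5

theorem Good.map {full : Prop} (h : Good m full) : Good (mp f m) full := by
  refine ⟨h.1.map f m, fun hf => ⟨?_, ?_⟩⟩
  · have h5 := (map_ne_zero f).2 (h.2 hf).1
    rwa [map_br] at h5
  · have h5 := (map_ne_zero f).2 (h.2 hf).2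
    rwa [map_br] at h5

end Field

theorem mp_comp {R S T : Type} (g : S → T) (f : R → S) (m : Fin 6 → V R) :
    mp g (mp f m) = mp (fun x => g (f x)) m := by
  rfl

variable {Ω : Type} [Field Ω] [Algebra ℂ Ω]

theorem V.map_fix {M : IntermediateField ℂ Ω} {a : V Ω} (ha : a.In M) {χ : Ω → Ω}
    (h : ∀ x ∈ M, χ x = x) : a.map χ = a := by
  exact V.ext (h _ ha.1) (h _ ha.2.1) (h _ ha.2.2)

theorem mp_fix {M : IntermediateField ℂ Ω} {m : Fin 6 → V Ω} (hm : ∀ i, (m i).In M) {χ : Ω → Ω}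
    (h : ∀ x ∈ M, χ x = x) : mp χ m = m := by
  exact funext fun i => V.map_fix (hm i) h

/-- by `map_acl` -/
theorem V.In.map_acl {Ω' : Type} [Field Ω'] [Algebra ℂ Ω'] (χ : Ω →ₐ[ℂ] Ω') {s : Ω} {a : V Ω}
    (ha : a.In (acl {s})) : (a.map χ).In (acl {χ s}) := by
  rw [← Set.image_singleton]
  exact ⟨FP.map_acl χ ha.1, FP.map_acl χ ha.2.1, FP.map_acl χ ha.2.2⟩

end

end Pool.Agent.MP_1c689d_ag.SX

end

section

set_option autoImplicit false

namespace Pool.Agent.MP_1c689d_ag.FP

noncomputable section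

open Polynomial

variable {Ω E : Type} [Field Ω] [Field E] [Algebra ℂ Ω] [Algebra ℂ E] [Algebra Ω E]
  [IsScalarTower ℂ Ω E]
variable {K L : Type} [Field K] [Field L] [Algebra ℂ K] [Algebra ℂ L]

theorem M1_int (ι : K →ₐ[ℂ] L) (hι : acl (Set.range ι) = ⊤) (x : L) :
    ∃ p : K[X], p.Monic ∧ p.eval₂ (ι : K →+* L) x = 0 := by
  have h1 : x ∈ acl (ι.fieldRange : Set L) := by
    rw [AlgHom.coe_fieldRange, hι]; trivial
  rw [mem_acl, IntermediateField.adjoin_self] at h1
  have h2 : IsIntegral ι.fieldRange x := h1.isIntegral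
  obtain ⟨q, hq, hx⟩ := h2
  let e : K ≃ₐ[ℂ] ι.fieldRange := ι.equivFieldRange
  refine ⟨q.map (e.symm : ι.fieldRange →+* K), hq.map _, ?_⟩
  rw [eval₂_map]
  have h3 : (ι : K →+* L).comp (e.symm : ι.fieldRange →+* K) = algebraMap ι.fieldRange L := by
    ext y
    have h4 : ((e (e.symm y) : ι.fieldRange) : L) = ι (e.symm y) := rfl
    rw [e.apply_symm_apply] at h4
    exact h4.symm
  rw [h3, hx]

theorem M1_mem (O : ValuationSubring E) (ι : K →ₐ[ℂ] L) (hι : acl (Set.range ι) = ⊤)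
    (j : L →ₐ[ℂ] E) (h : ∀ y, (j.comp ι) y ∈ O) (x : L) : j x ∈ O := by
  obtain ⟨p, hp, hx⟩ := M1_int ι hι x
  let θ : K →+* O := ((j.comp ι : K →ₐ[ℂ] E) : K →+* E).codRestrict O h
  have h1 : IsIntegral O (j x) := by
    refine ⟨p.map θ, hp.map θ, ?_⟩
    rw [eval₂_map]
    have h2 : (algebraMap O E).comp θ = (j : L →+* E).comp (ι : K →+* L) := RingHom.ext fun _ => rfl
    rw [h2]
    have h3 := hom_eval₂ p (ι : K →+* L) (j : L →+* E) x
    rw [hx, map_zero] at h3
    exact h3.symm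
  obtain ⟨y, hy⟩ := IsIntegrallyClosed.isIntegral_iff.1 h1
  rw [← hy]
  exact y.2

theorem M1_sp (P : Place Ω E) (ι : K →ₐ[ℂ] L) (hι : acl (Set.range ι) = ⊤)
    (c : (K →ₐ[ℂ] Ω) → ℚ) (j : L →ₐ[ℂ] E) :
    P.sp (fun φ : L →ₐ[ℂ] Ω => c (φ.comp ι)) j = P.sp c (j.comp ι) := by
  unfold Place.sp
  by_cases h : ∀ y, (j.comp ι) y ∈ P.O
  · rw [dif_pos h, dif_pos (M1_mem P.O ι hι j h)]
    rfl
  · rw [dif_neg h, dif_neg (fun h' => h fun y => h' (ι y))]

/-- Push forward along an algebraic extension.  Restrict the family `J` to `K`; an embedding maps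
`L` into `O` iff it maps `K` into `O` (valuation rings are integrally closed in `E`). -/
theorem adm_comp (Λ : Line Ω E) (ι : K →ₐ[ℂ] L) (hι : acl (Set.range ι) = ⊤)
    (c : (K →ₐ[ℂ] Ω) → ℚ) (hc : Λ.Adm c) : Λ.Adm (fun φ : L →ₐ[ℂ] Ω => c (φ.comp ι)) := by
  intro J hJ
  have h1 := hc (J.map fun j => j.comp ι) (by
    intro σ hσ
    conv_rhs => rw [← hJ σ hσ]
    rw [Multiset.map_map, Multiset.map_map]
    rfl)
  rw [Multiset.map_map, Multiset.map_map] at h1
  have h2 : ∀ P : Place Ω E, P.sp (fun φ : L →ₐ[ℂ] Ω => c (φ.comp ι)) =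
      P.sp c ∘ fun j : L →ₐ[ℂ] E => j.comp ι := fun P => funext (M1_sp P ι hι c)
  rw [h2, h2, h1]

/-- embeddings extend along algebraic extensions (`IsAlgClosed.lift`) -/
theorem exists_ext {M : Type} [Field M] [Algebra ℂ M] [IsAlgClosed M] (ι : K →ₐ[ℂ] L)
    (hι : acl (Set.range ι) = ⊤) (φ : K →ₐ[ℂ] M) : ∃ ψ : L →ₐ[ℂ] M, ψ.comp ι = φ := by
  let _ : Algebra K L := (ι : K →+* L).toAlgebra
  let _ : Algebra K M := (φ : K →+* M).toAlgebra
  have : Algebra.IsIntegral K L := ⟨fun x => M1_int ι hι x⟩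
  let ψ : L →ₐ[K] M := IsAlgClosed.lift
  have h1 : ∀ y, ψ (ι y) = φ y := fun y => ψ.commutes y
  refine ⟨{ (ψ : L →+* M) with commutes' := fun c => ?_ }, AlgHom.ext h1⟩
  change ψ (algebraMap ℂ L c) = _
  rw [← ι.commutes, h1, φ.commutes]

theorem mz_hom [IsAlgClosed Ω] (Λ : Line Ω E) (ι : K →ₐ[ℂ] L) (hι : acl (Set.range ι) = ⊤)
    (h : Λ.MZ L) : Λ.MZ K := by
  intro c hc φ
  obtain ⟨ψ, rfl⟩ := exists_ext ι hι φ
  exact h _ (adm_comp Λ ι hι c hc) ψ

/-- Rational function fields.  Given `φ`, let `j : L → E` be `algebraMap ∘ φ` on `k` and send `t`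
to `algebraMap (φ t) + κ` (transcendental over the image of `Ω`; `L ≅ RatFunc k` or
`FractionRing k[X]`, `IsFractionRing.liftAlgHom`).  `J = {j}` is stable.  At `P0` every element
`f(t)/g(t)` is finite with value `φ (f(t)/g(t))`; at `P1` the element `j t` is not finite. -/
theorem mz_rat (Λ : Line Ω E) (k : IntermediateField ℂ L) (t : L) (ht : Transcendental k t)
    (hL : IntermediateField.adjoin ℂ (insert t (k : Set L)) = ⊤) : Λ.MZ L := by
  intro c hc φ
  let _ : Algebra k[X] L := (aeval t : k[X] →ₐ[k] L).toRingHom.toAlgebra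
  have ha : ∀ p : k[X], algebraMap k[X] L p = aeval t p := fun _ => rfl
  have hinj : Function.Injective (algebraMap k[X] L) := transcendental_iff_injective.1 ht
  have : FaithfulSMul k[X] L := (faithfulSMul_iff_algebraMap_injective _ _).2 hinj
  have htop : ∀ z : L, z ∈ IntermediateField.adjoin k {t} := by
    intro z
    have h1 : IntermediateField.adjoin ℂ (insert t (k : Set L)) ≤
        (IntermediateField.adjoin k {t}).restrictScalars ℂ := by
      rw [IntermediateField.adjoin_le_iff]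
      rintro y (rfl | hy)
      · exact IntermediateField.mem_adjoin_simple_self k y
      · exact (IntermediateField.adjoin k {t}).algebraMap_mem ⟨y, hy⟩
    exact h1 (hL ▸ IntermediateField.mem_top)
  have : IsFractionRing k[X] L := IsFractionRing.of_field _ _ fun z =>
    (IntermediateField.mem_adjoin_simple_iff k z).1 (htop z)
  let a : Ω →+* Λ.P0.O := (algebraMap Ω E).codRestrict Λ.P0.O Λ.P0.mem
  have haρ : ∀ y, Λ.P0.ρ (a y) = y := Λ.P0.ρ_alg
  let g : k[X] →+* Λ.P0.O := eval₂RingHom ((a.comp (φ : L →+* Ω)).comp (algebraMap k L))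
    (a (φ t) + ⟨Λ.κ, Λ.mem0⟩)
  have hgC : ∀ y : k, g (C y) = a (φ y) := fun y => by simp [g]
  have hgX : g X = a (φ t) + ⟨Λ.κ, Λ.mem0⟩ := by simp [g]
  have hg : Λ.P0.ρ.comp g = (φ : L →+* Ω).comp (algebraMap k[X] L) := by
    apply Polynomial.ringHom_ext
    · intro y
      simp [hgC, haρ, ha]
    · simp [hgX, haρ, ha, Λ.h0]
  have hu : ∀ p : nonZeroDivisors k[X], IsUnit (g p) := by
    intro p
    by_contra h0
    have h1 := (Λ.P0.ker _).2 h0
    have h2 := DFunLike.congr_fun hg (p : k[X])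
    simp only [RingHom.comp_apply] at h2
    rw [h1, eq_comm, map_eq_zero] at h2
    exact nonZeroDivisors.coe_ne_zero p (hinj (by rw [h2, map_zero]))
  let jO : L →+* Λ.P0.O := IsLocalization.lift (M := nonZeroDivisors k[X]) hu
  have hjO : ∀ p, jO (algebraMap k[X] L p) = g p := fun p => IsLocalization.lift_eq hu p
  have hk : ∀ y : k, jO y = a (φ y) := fun y => by
    rw [← hgC, ← hjO, ha, aeval_C]; rfl
  have hjt : jO t = a (φ t) + ⟨Λ.κ, Λ.mem0⟩ := by
    rw [← hgX, ← hjO, ha, aeval_X]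
  let j : L →ₐ[ℂ] E :=
    { Λ.P0.O.subtype.comp jO with
      commutes' := fun z => by
        change ((jO ((algebraMap ℂ k z : k) : L) : Λ.P0.O) : E) = _
        rw [hk]
        change algebraMap Ω E (φ (algebraMap ℂ L z)) = _
        rw [φ.commutes, ← IsScalarTower.algebraMap_apply] }
  have hj : ∀ z, j z = (jO z : E) := fun _ => rfl
  have hjt' : j t = algebraMap Ω E (φ t) + Λ.κ := by rw [hj, hjt]; rfl
  have hst : Λ.Stab {j} := by
    intro σ hσ
    rw [Multiset.map_singleton]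
    congr 1
    apply AlgHom.coe_ringHom_injective
    apply IsLocalization.ringHom_ext (nonZeroDivisors k[X])
    apply Polynomial.ringHom_ext
    · intro y
      have h1 : algebraMap k[X] L (C y) = y := by rw [ha, aeval_C]; rfl
      change σ (j (algebraMap k[X] L (C y))) = j (algebraMap k[X] L (C y))
      rw [h1, hj, hk]
      exact σ.commutes _
    · change σ (j (algebraMap k[X] L X)) = j (algebraMap k[X] L X)
      rw [ha, aeval_X, hjt', map_add, hσ, σ.commutes]
  have h0 : ∀ z, j z ∈ Λ.P0.O := fun z => (jO z).2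
  have h1 : ¬ ∀ z, j z ∈ Λ.P1.O := by
    intro h
    apply Λ.h1
    have h2 := Λ.P1.O.toSubring.sub_mem (h t) (Λ.P1.mem (φ t))
    rw [hjt', add_sub_cancel_left] at h2
    exact h2
  have h2 : Λ.P0.red j h0 = φ := by
    apply AlgHom.coe_ringHom_injective
    apply IsLocalization.ringHom_ext (nonZeroDivisors k[X])
    rw [← hg]
    refine RingHom.ext fun p => ?_
    change Λ.P0.ρ (jO (algebraMap k[X] L p)) = Λ.P0.ρ (g p)
    rw [hjO]
  have h3 := hc {j} hst
  rw [Multiset.map_singleton, Multiset.map_singleton, Multiset.sum_singleton,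
    Multiset.sum_singleton, Place.sp, Place.sp, dif_pos h0, dif_neg h1, h2] at h3
  exact h3

/-- `mz_rat` inside an ambient field -/
theorem mz_acl (Λ : Line Ω E) (k : IntermediateField ℂ L) (t : L) (ht : Transcendental k t) :
    Λ.MZ (IntermediateField.adjoin ℂ (insert t (k : Set L))) := by
  set M := IntermediateField.adjoin ℂ (insert t (k : Set L)) with hM
  have htM : t ∈ M := IntermediateField.subset_adjoin _ _ (Set.mem_insert _ _)
  refine mz_rat Λ (k.comap M.val) ⟨t, htM⟩ ?_ ?_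
  · intro h
    apply ht
    let f : k.comap M.val →+* k :=
      ((M.val : M →+* L).comp (algebraMap (k.comap M.val) M)).codRestrict k fun y => y.2
    exact h.ringHom_of_comp_eq f (M.val : M →+* L) f.injective (RingHom.ext fun _ => rfl)
  · rw [← adjoin_top_sub (insert t (k : Set L))]
    congr 1
    ext y
    simp only [Set.mem_insert_iff, Set.mem_preimage, Subtype.ext_iff]
    rfl

/-- `mz_hom` inside an ambient field -/
theorem mz_of_le [IsAlgClosed Ω] (Λ : Line Ω E) (φ : K →ₐ[ℂ] L) (hφ : acl (Set.range φ) = ⊤)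
    (M : IntermediateField ℂ L) (hM : Λ.MZ M) (hle : ∀ x, φ x ∈ M) : Λ.MZ K := by
  let φ' : K →ₐ[ℂ] M :=
    { (φ : K →+* L).codRestrict M hle with
      commutes' := fun z => Subtype.ext (φ.commutes z) }
  refine mz_hom Λ φ' ?_ hM
  rw [eq_top_iff]
  intro x _
  obtain ⟨p, hp, hx⟩ := M1_int φ hφ (x : L)
  refine mem_acl_of_root (p.map (φ' : K →+* M)) (hp.map _).ne_zero
    (fun i => subset_acl _ ⟨p.coeff i, by rw [coeff_map]; rfl⟩) ?_
  rw [eval_map]
  apply (M.val : M →+* L).injective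
  rw [hom_eval₂, map_zero]
  exact hx

end

end Pool.Agent.MP_1c689d_ag.FP

end

section

set_option autoImplicit false

namespace Pool.Agent.MP_1c689d_ag.FP

noncomputable section

open Polynomial

variable {Ω E : Type} [Field Ω] [Field E] [Algebra ℂ Ω] [Algebra ℂ E] [Algebra Ω E]
  [IsScalarTower ℂ Ω E]
variable {K L : Type} [Field K] [Field L] [Algebra ℂ K] [Algebra ℂ L]

omit [Algebra ℂ E] [Algebra ℂ K] [Algebra ℂ L] in
theorem M2_mem (O : ValuationSubring E) [Algebra K L] [FiniteDimensional K L] (j : L →+* E)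
    (h : ∀ x : K, j (algebraMap K L x) ∈ O) (x : L) : j x ∈ O := by
  obtain ⟨p, hp, h0⟩ := Algebra.IsIntegral.isIntegral (R := K) x
  let g : K →+* O := (j.comp (algebraMap K L)).codRestrict O h
  have h1 : IsIntegral O (j x) := by
    refine ⟨p.map g, hp.map g, ?_⟩
    rw [eval₂_map]
    have h2 := congrArg j h0
    rw [hom_eval₂, map_zero] at h2
    exact h2
  obtain ⟨y, hy⟩ := IsIntegrallyClosed.isIntegral_iff.1 h1
  rw [← hy]
  exact y.2

omit [Algebra ℂ L] in
theorem M2_inj {O T : Type} [CommRing O] [IsDomain O] [Field T] [Algebra K L]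
    [FiniteDimensional K L] (ρ : O →+* T) (a b : L →+* O)
    (h : a.comp (algebraMap K L) = b.comp (algebraMap K L)) (h' : ρ.comp a = ρ.comp b) :
    a = b := by
  classical
  have : CharZero K := Algebra.charZero_of_charZero ℂ K
  ext x
  by_contra hx
  have h1 : eval₂ (a.comp (algebraMap K L)) (b x) (minpoly K x) = 0 := by
    rw [h, ← hom_eval₂, ← aeval_def, minpoly.aeval, map_zero]
  have h2 := eval₂_minpolyDiv_of_eval₂_eq_zero a h1
  rw [if_neg hx] at h2
  have h3 := congrArg ρ h2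
  rw [hom_eval₂, map_zero, h', ← RingHom.comp_apply ρ b, eval₂_hom, eval_minpolyDiv_self,
    map_eq_zero] at h3
  exact (Algebra.IsSeparable.isSeparable K x).aeval_derivative_ne_zero (minpoly.aeval K x) h3

theorem M2_sp (P : Place Ω E) [Algebra K L] [IsScalarTower ℂ K L] [FiniteDimensional K L]
    (c : (L →ₐ[ℂ] Ω) → ℚ) (S : (K →ₐ[ℂ] Ω) → Finset (L →ₐ[ℂ] Ω))
    (hS : ∀ ε ψ, ψ ∈ S ε ↔ ψ.comp (IsScalarTower.toAlgHom ℂ K L) = ε)
    (j : K →ₐ[ℂ] E) (T : Finset (L →ₐ[ℂ] E))
    (hT : ∀ ψ, ψ ∈ T ↔ ψ.comp (IsScalarTower.toAlgHom ℂ K L) = j)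
    (hc : ∀ ε, (S ε).card = T.card) :
    P.sp (fun ε => ∑ ψ ∈ S ε, c ψ) j = ∑ ψ ∈ T, P.sp c ψ := by
  have hj : ∀ ψ ∈ T, ∀ x : K, ψ (algebraMap K L x) = j x := fun ψ hψ x =>
    DFunLike.congr_fun ((hT ψ).1 hψ) x
  by_cases h : ∀ x, j x ∈ P.O
  · have hf : ∀ ψ ∈ T, ∀ x, ψ x ∈ P.O := fun ψ hψ =>
      M2_mem (K := K) P.O (ψ : L →+* E) fun x => by
        change ψ _ ∈ _
        rw [hj ψ hψ]
        exact h x
    have hi : ∀ ψ (hψ : ψ ∈ T), P.red ψ (hf ψ hψ) ∈ S (P.red j h) := fun ψ hψ => by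
      rw [hS]
      ext x
      change P.ρ ⟨ψ (algebraMap K L x), _⟩ = P.ρ ⟨j x, _⟩
      congr 2
      exact hj ψ hψ x
    have hinj : ∀ a b (ha : a ∈ T) (hb : b ∈ T), P.red a (hf a ha) = P.red b (hf b hb) → a = b := by
      intro a b ha hb e
      have h1 := M2_inj (K := K) P.ρ ((a : L →+* E).codRestrict P.O (hf a ha))
        ((b : L →+* E).codRestrict P.O (hf b hb))
        (RingHom.ext fun x => Subtype.ext ((hj a ha x).trans (hj b hb x).symm))
        (RingHom.ext fun x => DFunLike.congr_fun e x)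
      exact AlgHom.ext fun x => congrArg Subtype.val (DFunLike.congr_fun h1 x)
    rw [Place.sp, dif_pos h]
    symm
    refine Finset.sum_bij (fun ψ hψ => P.red ψ (hf ψ hψ)) hi (fun a ha b hb => hinj a b ha hb)
      (fun b hb => ?_) fun ψ hψ => by rw [Place.sp, dif_pos (hf ψ hψ)]
    obtain ⟨a, ha, e⟩ := Finset.surj_on_of_inj_on_of_card_le (fun ψ hψ => P.red ψ (hf ψ hψ)) hi
      hinj (hc _).le b hb
    exact ⟨a, ha, e.symm⟩
  · rw [Place.sp, dif_neg h]
    symm
    refine Finset.sum_eq_zero fun ψ hψ => ?_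
    rw [Place.sp, dif_neg]
    intro h1
    exact h fun x => hj ψ hψ x ▸ h1 _

/-- the extensions of an embedding to a finite extension: exactly `finrank K L` of them
(`AlgHom.card` / `Field.finSepDegree`, after `let _ := ε.toRingHom.toAlgebra`) -/
theorem exists_ext_finset {M : Type} [Field M] [Algebra ℂ M] [IsAlgClosed M] [Algebra K L]
    [IsScalarTower ℂ K L] [FiniteDimensional K L] (ε : K →ₐ[ℂ] M) :
    ∃ S : Finset (L →ₐ[ℂ] M), (∀ ψ, ψ ∈ S ↔ ψ.comp (IsScalarTower.toAlgHom ℂ K L) = ε) ∧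
      S.card = Module.finrank K L := by
  classical
  let _ := ε.toRingHom.toAlgebra
  have : IsScalarTower ℂ K M := IsScalarTower.of_algebraMap_eq fun c => (ε.commutes c).symm
  have : CharZero K := Algebra.charZero_of_charZero ℂ K
  refine ⟨(Finset.univ : Finset (L →ₐ[K] M)).map
    ⟨AlgHom.restrictScalars ℂ, AlgHom.restrictScalars_injective ℂ⟩, fun ψ => ?_, ?_⟩
  · simp only [Finset.mem_map, Finset.mem_univ, true_and, Function.Embedding.coeFn_mk]
    constructor
    · rintro ⟨χ, rfl⟩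
      ext x
      exact χ.commutes x
    · intro h
      exact ⟨{ ψ.toRingHom with commutes' := fun x => DFunLike.congr_fun h x }, rfl⟩
  · rw [Finset.card_map, Finset.card_univ, AlgHom.card]

/-- Pull back along a finite extension.  Let `c' ε = ∑ ψ ∈ S ε, c ψ`.  For a stable family `J` on
`K` let `J' = J.bind (fun j => (S j).val)`; it is stable (`σ` induces a bijection
`S j → S (σ ∘ j)`).  For each place, `P.sp c' j = ∑ j' ∈ S j, P.sp c j'`: if `j` is not finite no
extension is; if `j` is finite all extensions are (integrality) and `P.red` maps `S j`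
injectively (a field inside `O` meets the maximal ideal in zero: if `j₁ θ ≠ j₂ θ` are roots of
the separable minimal polynomial `f` of `θ` over `K` with the same residue then the residue is
a double root of the separable polynomial `f.map (P.red j)`), hence bijectively, to
`S (P.red j)`.  So `c'` is admissible, and vanishes by `hK`. -/
theorem tr_zero [IsAlgClosed Ω] [IsAlgClosed E] (Λ : Line Ω E) [Algebra K L]
    [IsScalarTower ℂ K L] [FiniteDimensional K L] (hK : Λ.MZ K) (c : (L →ₐ[ℂ] Ω) → ℚ)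
    (hc : Λ.Adm c) (φ : L →ₐ[ℂ] Ω) :
    ∃ S : Finset (L →ₐ[ℂ] Ω),
      (∀ ψ, ψ ∈ S ↔ ∀ x : K, ψ (algebraMap K L x) = φ (algebraMap K L x)) ∧
      S.card = Module.finrank K L ∧ ∑ ψ ∈ S, c ψ = 0 := by
  classical
  choose S hS hS' using fun ε : K →ₐ[ℂ] Ω => exists_ext_finset (L := L) ε
  choose T hT hT' using fun ε : K →ₐ[ℂ] E => exists_ext_finset (L := L) ε
  have hadm : Λ.Adm fun ε => ∑ ψ ∈ S ε, c ψ := by
    intro J hJ
    have h1 : Λ.Stab (J.bind fun j => (T j).val) := by
      intro σ hσ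
      rw [Multiset.map_bind]
      conv_rhs => rw [← hJ σ hσ, Multiset.bind_map]
      refine Multiset.bind_congr fun j _ => ?_
      have h2 : Set.InjOn (fun ψ : L →ₐ[ℂ] E => ((σ : E →ₐ[Ω] E).restrictScalars ℂ).comp ψ)
          (T j) := fun a _ b _ e =>
        AlgHom.ext fun x => σ.injective (DFunLike.congr_fun e x)
      rw [← Finset.image_val_of_injOn h2]
      congr 1
      refine Finset.eq_of_subset_of_card_le (fun ψ hψ => ?_) ?_
      · obtain ⟨a, ha, rfl⟩ := Finset.mem_image.1 hψ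
        rw [hT, AlgHom.comp_assoc, (hT j a).1 ha]
      · rw [Finset.card_image_of_injOn h2, hT', hT']
    have h2 : ∀ P : Place Ω E, (J.map (P.sp fun ε => ∑ ψ ∈ S ε, c ψ)).sum =
        ((J.bind fun j => (T j).val).map (P.sp c)).sum := by
      intro P
      rw [Multiset.map_bind, Multiset.sum_bind]
      congr 1
      refine Multiset.map_congr rfl fun j _ => ?_
      exact M2_sp P c S hS j (T j) (hT j) fun ε => (hS' ε).trans (hT' j).symm
    rw [h2, h2]
    exact hc _ h1
  refine ⟨S (φ.comp (IsScalarTower.toAlgHom ℂ K L)), fun ψ => ?_, hS' _, hK _ hadm _⟩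
  rw [hS, AlgHom.ext_iff]
  rfl

end

end Pool.Agent.MP_1c689d_ag.FP

end

section

set_option autoImplicit false

namespace Pool.Agent.MP_1c689d_ag.FP

noncomputable section

open Polynomial

variable {Ω E : Type} [Field Ω] [Field E] [Algebra ℂ Ω] [Algebra ℂ E] [Algebra Ω E]
  [IsScalarTower ℂ Ω E]
variable {K : Type} [Field K] [Algebra ℂ K]

theorem Quad_comap {L : Type} [Field L] [Algebra ℂ L] (v : L →ₐ[ℂ] Ω) {S : Set L} {y : L}
    (h : v y ∈ acl (v '' S)) : y ∈ acl S := by
  rw [mem_acl_iff_adjoin] at h ⊢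
  rw [← AlgHom.map_adjoin] at h
  exact h.of_ringHom_of_comp_eq (v.subalgebraMap (Algebra.adjoin ℂ S) : _ →+* _) (v : L →+* Ω)
    (v.subalgebraMap_surjective _) v.injective (RingHom.ext fun _ => rfl)

theorem Quad_core [IsAlgClosed Ω] [IsAlgClosed E] (Λ : Line Ω E) (c : (K →ₐ[ℂ] Ω) → ℚ)
    (hc : Λ.Adm c) (φ : K →ₐ[ℂ] Ω) (hφ : acl (Set.range φ) = ⊤) (M : IntermediateField ℂ Ω)
    (hM : Λ.MZ M) (hMa : acl (M : Set Ω) = ⊤) (G : Set Ω) (hG : G.Finite)
    (hK : ∀ x, φ x ∈ IntermediateField.adjoin ℂ ((M : Set Ω) ∪ G)) :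
    ∃ (I : Type) (S : Finset I) (χ : I → Ω →ₐ[ℂ] Ω),
      S.card = Module.finrank M (IntermediateField.adjoin M G) ∧
      (∀ i ∈ S, ∀ x ∈ M, χ i x = x) ∧
      (∀ i ∈ S, ∀ j ∈ S, (∀ g ∈ G, χ i g = χ j g) → i = j) ∧
      (∃ i ∈ S, (∀ g ∈ G, χ i g = g) ∧ (χ i).comp φ = φ) ∧
      ∑ i ∈ S, c ((χ i).comp φ) = 0 := by
  have := hG.to_subtype
  have : FiniteDimensional M (IntermediateField.adjoin M G) :=
    IntermediateField.finiteDimensional_adjoin fun x _ =>
      ((mem_acl_field M).1 (hMa ▸ IntermediateField.mem_top)).isIntegral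
  have hK' : ∀ x, φ x ∈ IntermediateField.adjoin M G := fun x => by
    have := hK x
    rwa [← IntermediateField.restrictScalars_adjoin, IntermediateField.mem_restrictScalars] at this
  let v : IntermediateField.adjoin M G →ₐ[ℂ] Ω :=
    (IntermediateField.adjoin M G).val.restrictScalars ℂ
  let ι : K →ₐ[ℂ] IntermediateField.adjoin M G :=
    { toFun := fun x => ⟨φ x, hK' x⟩
      map_one' := Subtype.ext (map_one φ)
      map_mul' := fun x y => Subtype.ext (map_mul φ x y)
      map_zero' := Subtype.ext (map_zero φ)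
      map_add' := fun x y => Subtype.ext (map_add φ x y)
      commutes' := fun r => Subtype.ext (φ.commutes r) }
  have hvι : v.comp ι = φ := AlgHom.ext fun _ => rfl
  have hι : acl (Set.range ι) = ⊤ := by
    refine eq_top_iff.2 fun y _ => Quad_comap v ?_
    rw [← Set.range_comp]
    change v y ∈ acl (Set.range φ)
    rw [hφ]
    exact IntermediateField.mem_top
  have hv : acl (Set.range v) = ⊤ := by
    rw [eq_top_iff, ← hMa]
    exact acl_mono fun x hx => ⟨algebraMap M _ ⟨x, hx⟩, rfl⟩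
  choose χ hχ using exists_ext (M := Ω) v hv
  have hχ' : ∀ ψ y, χ ψ (v y) = ψ y := fun ψ y => AlgHom.congr_fun (hχ ψ) y
  obtain ⟨S, h1, h2, h3⟩ := tr_zero Λ (K := M) hM _ (adm_comp Λ ι hι c hc) v
  have hfix : ∀ ψ ∈ S, ∀ x ∈ M, χ ψ x = x := fun ψ hψ x hx =>
    (hχ' ψ (algebraMap M _ ⟨x, hx⟩)).trans ((h1 ψ).1 hψ ⟨x, hx⟩)
  refine ⟨_, S, χ, h2, hfix, fun i hi j hj hij => ?_, ⟨v, (h1 v).2 fun _ => rfl, fun g hg => ?_, ?_⟩,
    ?_⟩
  · ext ⟨y, hy⟩
    rw [← hχ' i, ← hχ' j]
    change χ i y = χ j y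
    induction hy using IntermediateField.adjoin_induction with
    | mem x hx => exact hij x hx
    | algebraMap x => exact (hfix i hi x x.2).trans (hfix j hj x x.2).symm
    | add x y _ _ a b => rw [map_add, map_add, a, b]
    | inv x _ a => rw [map_inv₀, map_inv₀, a]
    | mul x y _ _ a b => rw [map_mul, map_mul, a, b]
  · exact hχ' v ⟨g, IntermediateField.subset_adjoin _ _ hg⟩
  · rw [← hvι, ← AlgHom.comp_assoc, hχ]
  · rw [← h3]
    refine Finset.sum_congr rfl fun ψ _ => ?_
    rw [← hvι, ← AlgHom.comp_assoc, hχ]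

/-- Let `L = adjoin ℂ (M ∪ G)`, a finite extension of `M` (`G` is finite and algebraic over `M`;
make `L` an `M`-algebra by `IntermediateField.inclusion`, or use `adjoin M G` and
`restrictScalars`).  `φ` factors as `L.val.comp ι`; `fun ψ => c (ψ.comp ι)` is admissible
(`adm_comp`), `tr_zero` applies to `L.val`, and each `ψ` extends to `χ : Ω → Ω` (`exists_ext`).
So `finrank • c φ = 0`. -/
theorem trz [IsAlgClosed Ω] [IsAlgClosed E] (Λ : Line Ω E) (c : (K →ₐ[ℂ] Ω) → ℚ) (hc : Λ.Adm c)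
    (φ : K →ₐ[ℂ] Ω) (hφ : acl (Set.range φ) = ⊤) (M : IntermediateField ℂ Ω) (hM : Λ.MZ M)
    (hMa : acl (M : Set Ω) = ⊤) (G : Finset Ω)
    (hK : ∀ x, φ x ∈ IntermediateField.adjoin ℂ ((M : Set Ω) ∪ (G : Set Ω)))
    (h : ∀ χ : Ω →ₐ[ℂ] Ω, (∀ x ∈ M, χ x = x) → c (χ.comp φ) = c φ) : c φ = 0 := by
  obtain ⟨I, S, χ, -, h2, -, ⟨i, hi, -⟩, h5⟩ :=
    Quad_core Λ c hc φ hφ M hM hMa G G.finite_toSet hK
  rw [Finset.sum_congr rfl fun j hj => h (χ j) (h2 j hj), Finset.sum_const, nsmul_eq_mul] at h5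
  exact (mul_eq_zero.1 h5).resolve_left
    (Nat.cast_ne_zero.2 (Finset.card_pos.2 ⟨i, hi⟩).ne')

/-- Quadratic dichotomy.  `M = k(t)` with `k = acl {w₀, w₁}` satisfies `MZ` (`transc_of_acl_top`,
`mz_acl`; `acl {w₀, w₁, t} = ⊤` because it contains `θ` and the image of `φ`).  If `θ ∈ M` then
`mz_of_le` gives the first alternative.  Otherwise `L = M(θ)` has degree two, `tr_zero` gives a
set `S = {L.val, ψ}`; `ψ θ` is a root of the quadratic and differs from `θ` (else `ψ = L.val`);
extend `ψ` to `Ω` by `exists_ext`. -/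
theorem quad [IsAlgClosed Ω] [IsAlgClosed E] (Λ : Line Ω E) (h3 : Algebra.trdeg ℂ Ω = 3)
    (c : (K →ₐ[ℂ] Ω) → ℚ) (hc : Λ.Adm c) (φ : K →ₐ[ℂ] Ω) (hφ : acl (Set.range φ) = ⊤)
    (w₀ w₁ t θ c₀ c₁ : Ω)
    (hK : ∀ x, φ x ∈ IntermediateField.adjoin ℂ ((acl {w₀, w₁} : Set Ω) ∪ {t, θ}))
    (h0 : c₀ ∈ IntermediateField.adjoin ℂ (insert t (acl {w₀, w₁} : Set Ω)))
    (h1 : c₁ ∈ IntermediateField.adjoin ℂ (insert t (acl {w₀, w₁} : Set Ω)))
    (hθ : θ ^ 2 + c₁ * θ + c₀ = 0) :
    (∀ ψ, c ψ = 0) ∨ ∃ χ : Ω →ₐ[ℂ] Ω, (∀ x ∈ acl {w₀, w₁}, χ x = x) ∧ χ t = t ∧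
      χ θ = -c₁ - θ ∧ χ θ ≠ θ ∧ c (χ.comp φ) = -c φ := by
  classical
  have : CharZero Ω := charZero_of_injective_algebraMap (algebraMap ℂ Ω).injective
  generalize hMd : IntermediateField.adjoin ℂ (insert t (acl {w₀, w₁} : Set Ω)) = M at h0 h1
  have hsub : insert t (acl {w₀, w₁} : Set Ω) ⊆ M := hMd ▸ IntermediateField.subset_adjoin _ _
  have hkA : acl {w₀, w₁} ≤ acl ({w₀, w₁, t} : Set Ω) :=
    acl_mono (Set.insert_subset_insert (Set.singleton_subset_iff.2 (Set.mem_insert _ _)))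
  have htA : t ∈ acl ({w₀, w₁, t} : Set Ω) := subset_acl _ (by simp)
  have hMA : M ≤ acl ({w₀, w₁, t} : Set Ω) := by
    rw [← hMd, IntermediateField.adjoin_le_iff]
    exact Set.insert_subset htA hkA
  have hθA : θ ∈ acl ({w₀, w₁, t} : Set Ω) := by
    have e1 : (2 * θ + c₁) ^ 2 = c₁ ^ 2 - 4 * c₀ := by linear_combination 4 * hθ
    have e2 : 2 * θ + c₁ ∈ acl ({w₀, w₁, t} : Set Ω) := by
      refine mem_acl_of_sq ?_
      rw [e1]
      exact sub_mem (pow_mem (hMA h1) 2) (mul_mem (ofNat_mem _ 4) (hMA h0))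
    have e3 : θ = (2 * θ + c₁ - c₁) / 2 := by ring
    rw [e3]
    exact div_mem (sub_mem e2 (hMA h1)) (ofNat_mem _ 2)
  have hA : acl ({w₀, w₁, t} : Set Ω) = ⊤ := by
    rw [eq_top_iff, ← hφ]
    refine acl_le ?_
    rintro _ ⟨x, rfl⟩
    refine IntermediateField.adjoin_le_iff.2 ?_ (hK x)
    exact Set.union_subset hkA (Set.insert_subset htA (Set.singleton_subset_iff.2 hθA))
  have hM : Λ.MZ M := hMd ▸ mz_acl Λ _ t (transc_of_acl_top h3 hA)
  have hMa : acl (M : Set Ω) = ⊤ := by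
    rw [eq_top_iff, ← hA]
    refine acl_mono (Set.insert_subset ?_ (Set.insert_subset ?_ (Set.singleton_subset_iff.2 ?_)))
    · exact hsub (Or.inr (subset_acl _ (by simp)))
    · exact hsub (Or.inr (subset_acl _ (by simp)))
    · exact hsub (Or.inl rfl)
  have hK' : ∀ x, φ x ∈ IntermediateField.adjoin ℂ ((M : Set Ω) ∪ {θ}) := fun x => by
    refine IntermediateField.adjoin.mono _ _ _ ?_ (hK x)
    rintro y (hy | rfl | hy)
    · exact Or.inl (hsub (Or.inr hy))
    · exact Or.inl (hsub (Or.inl rfl))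
    · exact Or.inr hy
  by_cases hθM : θ ∈ M
  · refine Or.inl (mz_of_le Λ φ hφ M hM (fun x => ?_) c hc)
    exact IntermediateField.adjoin_le_iff.2
      (Set.union_subset subset_rfl (Set.singleton_subset_iff.2 hθM)) (hK' x)
  right
  obtain ⟨I, S, χ, g1, g2, g3, ⟨i, hi, g4, g5⟩, g6⟩ :=
    Quad_core Λ c hc φ hφ M hM hMa {θ} (Set.finite_singleton θ) hK'
  have hiθ : χ i θ = θ := g4 θ rfl
  have hne : ∀ j ∈ S, j ≠ i → χ j θ ≠ θ := fun j hj hji h =>
    hji (g3 j hj i hi fun g hg => by rw [show g = θ from hg, h, hiθ])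
  have hoth : ∀ j ∈ S, j ≠ i → χ j θ = -c₁ - θ := by
    intro j hj hji
    have e := congrArg (χ j) hθ
    rw [map_add, map_add, map_mul, map_pow, g2 j hj _ h0, g2 j hj _ h1, map_zero] at e
    refine mul_left_cancel₀ (sub_ne_zero.2 (hne j hj hji)) ?_
    linear_combination e - hθ
  obtain ⟨j, hj, hji⟩ : ∃ j ∈ S, j ≠ i := by
    by_contra hn
    have hS : S = {i} :=
      Finset.eq_singleton_iff_unique_mem.2 ⟨hi, fun j hj => by_contra fun h => hn ⟨j, hj, h⟩⟩
    rw [hS, Finset.card_singleton] at g1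
    obtain ⟨y, hy⟩ := IntermediateField.mem_bot.1
      (IntermediateField.finrank_adjoin_simple_eq_one_iff.1 g1.symm)
    exact hθM (hy ▸ y.2)
  have hS : S = {j, i} := by
    ext l
    rw [Finset.mem_insert, Finset.mem_singleton]
    refine ⟨fun hl => ?_, by rintro (rfl | rfl) <;> assumption⟩
    by_cases hli : l = i
    · exact Or.inr hli
    · exact Or.inl (g3 l hl j hj fun g hg => by
        rw [show g = θ from hg, hoth l hl hli, hoth j hj hji])
  rw [hS, Finset.sum_pair hji, g5] at g6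
  exact ⟨χ j, fun x hx => g2 j hj x (hsub (Or.inr hx)), g2 j hj t (hsub (Or.inl rfl)),
    hoth j hj hji, hne j hj hji, eq_neg_of_add_eq_zero_left g6⟩

end

end Pool.Agent.MP_1c689d_ag.FP

end

section

set_option autoImplicit false

namespace Pool.Agent.MP_1c689d_ag.FP

noncomputable section

open Polynomial

variable {F : Type} [Field F] [Algebra ℂ F]

/-- evaluation at a transcendence basis is formally étale -/
theorem kd_etale {n : ℕ} (z : Fin n → F) (hz : AlgebraicIndependent ℂ z)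
    (ha : acl (Set.range z) = ⊤) :
    (MvPolynomial.aeval z : MvPolynomial (Fin n) ℂ →ₐ[ℂ] F).toRingHom.FormallyEtale := by
  let K := IntermediateField.adjoin ℂ (Set.range z)
  have : Algebra.IsAlgebraic K F := ⟨fun x => mem_acl.1 (by rw [ha]; trivial)⟩
  have : CharZero K := charZero_of_injective_algebraMap (algebraMap ℂ K).injective
  have h3 : (algebraMap K F).FormallyEtale :=
    RingHom.formallyEtale_algebraMap.2 (Algebra.FormallyEtale.of_isSeparable K F)
  have h1 : (algebraMap (MvPolynomial (Fin n) ℂ)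
      (FractionRing (MvPolynomial (Fin n) ℂ))).FormallyEtale :=
    RingHom.formallyEtale_algebraMap.2
      (Algebra.FormallyEtale.of_isLocalization (nonZeroDivisors (MvPolynomial (Fin n) ℂ)))
  have h2 : (hz.aevalEquivField.toRingEquiv.toRingHom).FormallyEtale := by
    let : Algebra (FractionRing (MvPolynomial (Fin n) ℂ)) K :=
      (hz.aevalEquivField.toRingEquiv.toRingHom).toAlgebra
    exact Algebra.FormallyEtale.of_equiv
      (AlgEquiv.ofRingEquiv (R := FractionRing (MvPolynomial (Fin n) ℂ))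
        (f := hz.aevalEquivField.toRingEquiv) fun _ => rfl)
  have h := (h1.comp h2).comp h3
  have e : (algebraMap K F).comp ((hz.aevalEquivField.toRingEquiv.toRingHom).comp
      (algebraMap (MvPolynomial (Fin n) ℂ) (FractionRing (MvPolynomial (Fin n) ℂ)))) =
      (MvPolynomial.aeval z : MvPolynomial (Fin n) ℂ →ₐ[ℂ] F).toRingHom :=
    RingHom.ext fun a => hz.aevalEquivField_algebraMap_apply_coe a
  rw [← e]
  exact h

/-- Differentials of a transcendence basis form a basis.  `MvPolynomial (Fin n) ℂ → F` via `z` is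
formally étale (localisation followed by a separable algebraic extension,
`Algebra.FormallyEtale.of_isSeparable`), so `KaehlerDifferential.tensorKaehlerEquivOfFormallyEtale`
and `KaehlerDifferential.mvPolynomialBasis` give the basis. -/
theorem kd_basis {n : ℕ} (z : Fin n → F) (hz : AlgebraicIndependent ℂ z)
    (ha : acl (Set.range z) = ⊤) :
    ∃ b : Module.Basis (Fin n) F Ω[F⁄ℂ], ∀ i, b i = KaehlerDifferential.D ℂ F (z i) := by
  have he := kd_etale z hz ha
  let : Algebra (MvPolynomial (Fin n) ℂ) F :=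
    (MvPolynomial.aeval z : MvPolynomial (Fin n) ℂ →ₐ[ℂ] F).toRingHom.toAlgebra
  have : IsScalarTower ℂ (MvPolynomial (Fin n) ℂ) F :=
    IsScalarTower.of_algebraMap_eq fun c =>
      ((MvPolynomial.aeval z : MvPolynomial (Fin n) ℂ →ₐ[ℂ] F).commutes c).symm
  have : Algebra.FormallyEtale (MvPolynomial (Fin n) ℂ) F := he
  refine ⟨((KaehlerDifferential.mvPolynomialBasis ℂ (Fin n)).baseChange F).map
    (KaehlerDifferential.tensorKaehlerEquivOfFormallyEtale ℂ (MvPolynomial (Fin n) ℂ) F),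
    fun i => ?_⟩
  have hX : algebraMap (MvPolynomial (Fin n) ℂ) F (MvPolynomial.X i) = z i :=
    MvPolynomial.aeval_X z i
  rw [Module.Basis.map_apply, Module.Basis.baseChange_apply,
    KaehlerDifferential.mvPolynomialBasis_apply, ← hX,
    ← KaehlerDifferential.tensorKaehlerEquivOfFormallyEtale_symm_D_algebraMap ℂ
      (MvPolynomial (Fin n) ℂ) F, LinearEquiv.apply_symm_apply]

/-- the top exterior power is a line: `ι v = det • ι b` (`AlternatingMap.eq_smul_basis_det`,
`exteriorPower.ιMulti_span`), and `ι b ≠ 0` because `b.det` factors through it -/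
theorem top_form {V : Type} [AddCommGroup V] [Module F V] {n : ℕ} (b : Module.Basis (Fin n) F V) :
    exteriorPower.ιMulti F n b ≠ 0 ∧
      (∀ v : Fin n → V, exteriorPower.ιMulti F n v = b.det v • exteriorPower.ιMulti F n b) ∧
      ∀ η : ⋀[F]^n V, ∃ φ : F, η = φ • exteriorPower.ιMulti F n b := by
  have h2 : ∀ v : Fin n → V,
      exteriorPower.ιMulti F n v = b.det v • exteriorPower.ιMulti F n b := by
    have : exteriorPower.ιMulti F n (M := V) = b.det.smulRight (exteriorPower.ιMulti F n b) := by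
      refine Module.Basis.ext_alternating b fun i h => ?_
      let σ : Equiv.Perm (Fin n) := Equiv.ofBijective i (Finite.injective_iff_bijective.1 h)
      change exteriorPower.ιMulti F n (b ∘ σ) =
        (b.det.smulRight (exteriorPower.ιMulti F n b)) (b ∘ σ)
      rw [AlternatingMap.map_perm, AlternatingMap.map_perm]
      congr 1
      change _ = b.det b • exteriorPower.ιMulti F n b
      rw [Module.Basis.det_self, one_smul]
    intro v
    conv_lhs => rw [this]
    rfl
  refine ⟨fun h0 => ?_, h2, fun η => ?_⟩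
  · have := exteriorPower.alternatingMapLinearEquiv_apply_ιMulti (n := n) b.det b
    rw [h0, map_zero, Module.Basis.det_self] at this
    exact zero_ne_one this
  · have hη : η ∈ Submodule.span F (Set.range (exteriorPower.ιMulti F n (M := V))) := by
      rw [exteriorPower.ιMulti_span]; trivial
    have hle : Submodule.span F (Set.range (exteriorPower.ιMulti F n (M := V))) ≤
        Submodule.span F {exteriorPower.ιMulti F n b} := by
      rw [Submodule.span_le]
      rintro _ ⟨v, rfl⟩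
      rw [h2 v]
      exact Submodule.smul_mem _ _ (Submodule.mem_span_singleton_self _)
    obtain ⟨φ, hφ⟩ := Submodule.mem_span_singleton.1 (hle hη)
    exact ⟨φ, hφ.symm⟩

end

end Pool.Agent.MP_1c689d_ag.FP

end

section

set_option autoImplicit false

namespace Pool.Agent.MP_1c689d_ag.FP

noncomputable section

open Polynomial

variable {F : Type} [Field F] [Algebra ℂ F]

/-- write `x = unit * π ^ n` (`IsDiscreteValuationRing.addVal` on numerator and denominator, or
`- WithZero.log` of the adic valuation of the maximal ideal) -/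
theorem exists_ord (O : Subalgebra ℂ F) [IsDiscreteValuationRing O] [IsFractionRing O F] :
    ∃ ord : F → ℤ, IsOrd O ord := by
  let v := (IsDiscreteValuationRing.maximalIdeal O).valuation F
  have hv : ∀ x : F, x ≠ 0 → v x ≠ 0 := fun x hx => (Valuation.ne_zero_iff v).2 hx
  refine ⟨fun x => -WithZero.log (v x), ?_, ?_, ?_, ?_⟩
  · intro x y hx hy
    rw [map_mul, WithZero.log_mul (hv x hx) (hv y hy)]
    ring
  · intro x y hx hy hxy
    rcases v.map_add' x y with h | h
    · have := (WithZero.log_le_log (hv _ hxy) (hv x hx)).2 h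
      exact min_le_of_left_le (neg_le_neg this)
    · have := (WithZero.log_le_log (hv _ hxy) (hv y hy)).2 h
      exact min_le_of_right_le (neg_le_neg this)
  · intro x
    by_cases hx : x = 0
    · subst hx
      exact ⟨fun _ => Or.inl rfl, fun _ => O.zero_mem⟩
    · have h1 : (0 ≤ -WithZero.log (v x)) ↔ v x ≤ 1 := by
        rw [neg_nonneg, WithZero.log_le_iff_le_exp (hv x hx), WithZero.exp_zero]
      rw [h1]
      constructor
      · intro hO
        exact Or.inr ((IsDiscreteValuationRing.maximalIdeal O).valuation_le_one (K := F) ⟨x, hO⟩)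
      · rintro (h | h)
        · exact absurd h hx
        · obtain ⟨a, rfl⟩ := IsDiscreteValuationRing.exists_lift_of_le_one h
          exact a.2
  · obtain ⟨π, hπ⟩ := (IsDiscreteValuationRing.maximalIdeal O).valuation_exists_uniformizer F
    have hπ' : v π = WithZero.exp (-1 : ℤ) := hπ
    refine ⟨π, ?_, ?_⟩
    · rintro rfl
      rw [map_zero] at hπ'
      exact WithZero.exp_ne_zero hπ'.symm
    · rw [hπ', WithZero.log_exp, neg_neg]

variable {O : Subalgebra ℂ F} {ord : F → ℤ}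

theorem IsOrd.one (h : IsOrd O ord) : ord 1 = 0 := by
  have := h.mul 1 1 one_ne_zero one_ne_zero
  rw [mul_one] at this
  omega

theorem IsOrd.inv (h : IsOrd O ord) {x : F} (hx : x ≠ 0) : ord x⁻¹ = -ord x := by
  have := h.mul x x⁻¹ hx (inv_ne_zero hx)
  rw [mul_inv_cancel₀ hx, h.one] at this
  omega

theorem IsOrd.div (h : IsOrd O ord) {x y : F} (hx : x ≠ 0) (hy : y ≠ 0) :
    ord (x / y) = ord x - ord y := by
  rw [div_eq_mul_inv, h.mul x y⁻¹ hx (inv_ne_zero hy), h.inv hy, sub_eq_add_neg]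

theorem IsOrd.pow (h : IsOrd O ord) {x : F} (hx : x ≠ 0) (n : ℕ) : ord (x ^ n) = n * ord x := by
  induction n with
  | zero => simp [h.one]
  | succ n ih =>
    rw [pow_succ, h.mul _ _ (pow_ne_zero n hx) hx, ih]
    push_cast
    ring

/-- non-zero constants and their inverses lie in `O` -/
theorem IsOrd.const (h : IsOrd O ord) {c : ℂ} (hc : c ≠ 0) : ord (algebraMap ℂ F c) = 0 := by
  have h0 : algebraMap ℂ F c ≠ 0 := (_root_.map_ne_zero _).2 hc
  have h1 := ((h.mem _).1 (O.algebraMap_mem c)).resolve_left h0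
  have h2 := (h.mem _).1 (O.algebraMap_mem c⁻¹)
  rw [map_inv₀] at h2
  have h3 := h2.resolve_left (inv_ne_zero h0)
  rw [h.inv h0] at h3
  omega

theorem IsOrd.natCast (h : IsOrd O ord) {n : ℕ} (hn : n ≠ 0) : ord (n : F) = 0 := by
  rw [← map_natCast (algebraMap ℂ F) n]
  exact h.const (Nat.cast_ne_zero.2 hn)

theorem IsOrd.neg (h : IsOrd O ord) {x : F} (hx : x ≠ 0) : ord (-x) = ord x := by
  have h1 : ord (-1) = 0 := by
    have := h.const (c := -1) (by norm_num)
    rwa [map_neg, map_one] at this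
  rw [← neg_one_mul, h.mul _ _ (neg_ne_zero.2 one_ne_zero) hx, h1, zero_add]

theorem IsOrd.add_eq (h : IsOrd O ord) {x y : F} (hx : x ≠ 0) (hy : y ≠ 0) (hlt : ord x < ord y) :
    x + y ≠ 0 ∧ ord (x + y) = ord x := by
  have h0 : x + y ≠ 0 := by
    intro e
    have : x = -y := eq_neg_of_add_eq_zero_left e
    rw [this, h.neg hy] at hlt
    exact lt_irrefl _ hlt
  refine ⟨h0, ?_⟩
  have h1 := h.add x y hx hy h0
  have h2 := h.add (x + y) (-y) h0 (neg_ne_zero.2 hy) (by rwa [add_neg_cancel_right])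
  rw [add_neg_cancel_right, h.neg hy] at h2
  rw [min_eq_left hlt.le] at h1
  rcases min_le_iff.1 h2 with h3 | h3 <;> omega

theorem Ord_sub_ne (s : F) (hs : Transcendental ℂ s) (t : ℂ) : s - algebraMap ℂ F t ≠ 0 := by
  intro e
  apply hs
  rw [sub_eq_zero.1 e]
  exact isAlgebraic_algebraMap t

theorem Ord_prod (h : IsOrd O ord) (s : F) (hs : Transcendental ℂ s) (m : Multiset ℂ) :
    aeval s (m.map fun t => (X - C t : ℂ[X])).prod ≠ 0 ∧
      ord (aeval s (m.map fun t => (X - C t : ℂ[X])).prod) =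
        (m.map fun t => ord (s - algebraMap ℂ F t)).sum := by
  induction m using Multiset.induction_on with
  | empty => simp [h.one]
  | cons a m ih =>
    have e : aeval s (X - C a : ℂ[X]) = s - algebraMap ℂ F a := by simp
    rw [Multiset.map_cons, Multiset.prod_cons, map_mul, e, Multiset.map_cons, Multiset.sum_cons]
    refine ⟨mul_ne_zero (Ord_sub_ne s hs a) ih.1, ?_⟩
    rw [h.mul _ _ (Ord_sub_ne s hs a) ih.1, ih.2]

theorem Ord_aeval (h : IsOrd O ord) (s : F) (hs : Transcendental ℂ s) (p : ℂ[X]) (hp : p ≠ 0) :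
    ord (aeval s p) = (p.roots.map fun t => ord (s - algebraMap ℂ F t)).sum := by
  have e := Polynomial.C_leadingCoeff_mul_prod_multiset_X_sub_C
    (IsAlgClosed.card_roots_eq_natDegree (p := p))
  have hl : p.leadingCoeff ≠ 0 := leadingCoeff_ne_zero.2 hp
  obtain ⟨h1, h2⟩ := Ord_prod h s hs p.roots
  conv_lhs => rw [← e]
  rw [map_mul, aeval_C, h.mul _ _ ((_root_.map_ne_zero _).2 hl) h1, h.const hl, h2, zero_add]

theorem Ord_sum_single (φ : ℂ → ℤ) (t : ℂ) (hφ : ∀ u, u ≠ t → φ u = 0) (m : Multiset ℂ) :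
    (m.map φ).sum = φ t * m.count t := by
  induction m using Multiset.induction_on with
  | empty => simp
  | cons a m ih =>
    rw [Multiset.map_cons, Multiset.sum_cons, ih]
    by_cases ha : a = t
    · subst ha
      rw [Multiset.count_cons_self]
      push_cast
      ring
    · rw [hφ a ha, Multiset.count_cons_of_ne (Ne.symm ha), zero_add]

/-- The restriction of `ord` to `ℂ(s)`: factor `p` into linear factors (induction on the roots).
If `ord s < 0` all `s - t` have order `ord s`; otherwise at most one `s - t` has positive order. -/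
theorem IsOrd.tri (h : IsOrd O ord) (s : F) (hs : Transcendental ℂ s) :
    (∀ p : ℂ[X], p ≠ 0 → ord (aeval s p) = 0) ∨
      (∃ (t : ℂ) (e : ℤ), 0 < e ∧ ord (s - algebraMap ℂ F t) = e ∧
        ∀ p : ℂ[X], p ≠ 0 → ord (aeval s p) = e * p.rootMultiplicity t) ∨
      ∃ e : ℤ, 0 < e ∧ ord s = -e ∧ ∀ p : ℂ[X], p ≠ 0 → ord (aeval s p) = -e * p.natDegree := by
  have hne := Ord_sub_ne s hs
  by_cases hneg : ord s < 0
  · refine Or.inr (Or.inr ⟨-ord s, by omega, by omega, fun p hp => ?_⟩)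
    have hs0 : s ≠ 0 := by simpa using hne 0
    have hall : ∀ t : ℂ, ord (s - algebraMap ℂ F t) = ord s := by
      intro t
      by_cases ht : t = 0
      · rw [ht, map_zero, sub_zero]
      · rw [sub_eq_add_neg, ← map_neg]
        exact (h.add_eq hs0 ((_root_.map_ne_zero _).2 (neg_ne_zero.2 ht))
          (by rw [h.const (neg_ne_zero.2 ht)]; exact hneg)).2
    rw [Ord_aeval h s hs p hp]
    simp only [hall, Multiset.map_const', Multiset.sum_replicate, neg_neg]
    rw [IsAlgClosed.card_roots_eq_natDegree, nsmul_eq_mul, mul_comm]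
  · have hsO : s ∈ O := (h.mem s).2 (Or.inr (not_lt.1 hneg))
    have hge : ∀ t : ℂ, 0 ≤ ord (s - algebraMap ℂ F t) := fun t =>
      ((h.mem _).1 (O.sub_mem hsO (O.algebraMap_mem t))).resolve_left (hne t)
    by_cases hz : ∀ t : ℂ, ord (s - algebraMap ℂ F t) = 0
    · refine Or.inl fun p hp => ?_
      rw [Ord_aeval h s hs p hp]
      simp [hz]
    · obtain ⟨t, ht⟩ := not_forall.1 hz
      have hpos : 0 < ord (s - algebraMap ℂ F t) := lt_of_le_of_ne (hge t) (Ne.symm ht)
      refine Or.inr (Or.inl ⟨t, _, hpos, rfl, fun p hp => ?_⟩)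
      have hoth : ∀ u : ℂ, u ≠ t → ord (s - algebraMap ℂ F u) = 0 := by
        intro u hu
        have htu : t - u ≠ 0 := sub_ne_zero.2 hu.symm
        have e : s - algebraMap ℂ F u = algebraMap ℂ F (t - u) + (s - algebraMap ℂ F t) := by
          rw [map_sub]
          ring
        rw [e, (h.add_eq ((_root_.map_ne_zero _).2 htu) (hne t) (by rw [h.const htu]; exact hpos)).2,
          h.const htu]
      rw [Ord_aeval h s hs p hp, Ord_sum_single _ t hoth, Polynomial.count_roots]

theorem Ord_zpow (h : IsOrd O ord) {x : F} (hx : x ≠ 0) (n : ℤ) : ord (x ^ n) = n * ord x := by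
  obtain ⟨m, rfl | rfl⟩ := n.eq_nat_or_neg
  · rw [zpow_natCast, h.pow hx]
  · rw [zpow_neg, zpow_natCast, h.inv (pow_ne_zero m hx), h.pow hx, neg_mul]

section Expand
variable {M P : Type} [AddCommGroup M] [Module F M] [AddCommGroup P] [Module F P]
  (A : M [⋀^Fin 3]→ₗ[F] P)

end Expand

end

end Pool.Agent.MP_1c689d_ag.FP

end

section

set_option autoImplicit false

namespace Pool.Agent.MP_1c689d_ag.FP

noncomputable section

open Polynomial

theorem Hart_dvr {R : Type} [CommRing R] [IsDomain R] [IsNoetherianRing R] (P : Ideal R)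
    [P.IsPrime] (h0 : P ≠ ⊥) {t k : R} (ht : t ∈ P) (hk : k ∉ P) (h : ∀ r ∈ P, t ∣ r * k) :
    IsDiscreteValuationRing (Localization.AtPrime P) := by
  have hp : (IsLocalRing.maximalIdeal (Localization.AtPrime P)).IsPrincipal := by
    refine ⟨⟨algebraMap R _ t, ?_⟩⟩
    rw [← Localization.AtPrime.map_eq_maximalIdeal]
    refine le_antisymm (Ideal.map_le_iff_le_comap.2 fun r hr => ?_)
      ((Ideal.span_singleton_le_iff_mem _).2 (Ideal.mem_map_of_mem _ ht))
    have hu : IsUnit (algebraMap R (Localization.AtPrime P) k) :=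
      IsLocalization.map_units (M := P.primeCompl) _ ⟨k, hk⟩
    have h1 := map_dvd (algebraMap R (Localization.AtPrime P)) (h r hr)
    rw [map_mul, hu.dvd_mul_right] at h1
    exact Ideal.mem_span_singleton.2 h1
  exact ((IsDiscreteValuationRing.TFAE (Localization.AtPrime P)
    (IsLocalization.AtPrime.not_isField R h0 _)).out 0 4).2 hp

/-- Algebraic Hartogs lemma.  Suppose `φ = a/b ∉ R`.  Among the ideals `(b : c) = {r | b ∣ r c}`
with `c ∈ a R`, `b ∤ c`, choose a maximal one `p = (b : c)`, `c = a r₀` (Noetherian); it is prime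
(associated prime of `R/b`).  In `R_p` with maximal ideal `m` the element `ψ = c/b ∉ R_p`
satisfies `ψ m ⊆ R_p`; if `ψ m ⊆ m` then `ψ` is integral (`isIntegral_of_smul_mem_submodule`),
impossible as `R_p` is integrally closed; so `ψ t` is a unit for some `t ∈ m`, `m = (t)` is
principal and non-zero, and `R_p` is a discrete valuation ring
(`IsDiscreteValuationRing.TFAE`).  By hypothesis `φ ∈ R_p`, so `ψ = r₀ φ ∈ R_p`, contradiction. -/
theorem hartogs (R K : Type) [CommRing R] [IsDomain R] [IsNoetherianRing R] [IsIntegrallyClosed R]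
    [Field K] [Algebra R K] [IsFractionRing R K] (φ : K)
    (h : ∀ (p : Ideal R) [p.IsPrime], IsDiscreteValuationRing (Localization.AtPrime p) →
      ∃ a b : R, b ∉ p ∧ φ * algebraMap R K b = algebraMap R K a) :
    φ ∈ Set.range (algebraMap R K) := by
  obtain ⟨a, b, hb, rfl⟩ := IsFractionRing.div_surjective (A := R) φ
  have hb0 : b ≠ 0 := nonZeroDivisors.ne_zero hb
  have hbK : algebraMap R K b ≠ 0 := IsFractionRing.to_map_eq_zero_iff.not.2 hb0
  have col : ∀ c r : R, r ∈ (⊥ : Submodule R (R ⧸ Ideal.span {b})).colon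
      {Ideal.Quotient.mk (Ideal.span {b}) c} ↔ b ∣ r * c := by
    intro c r
    rw [Submodule.mem_colon_singleton, Submodule.mem_bot, ← Ideal.mem_span_singleton,
      ← Ideal.Quotient.eq_zero_iff_mem]
    rfl
  by_contra hφ
  have ha : Ideal.Quotient.mk (Ideal.span {b}) a ≠ 0 := by
    rw [Ne, Ideal.Quotient.eq_zero_iff_mem, Ideal.mem_span_singleton]
    rintro ⟨k, rfl⟩
    exact hφ ⟨k, by rw [map_mul, mul_div_cancel_left₀ _ hbK]⟩
  obtain ⟨P, hP, hle⟩ := exists_le_isAssociatedPrime_of_isNoetherianRing R _ ha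
  obtain ⟨hpr, c', hc⟩ := isAssociatedPrime_iff.1 hP
  obtain ⟨c, rfl⟩ := Ideal.Quotient.mk_surjective c'
  have mem : ∀ r, r ∈ P ↔ b ∣ r * c := fun r => by rw [hc, col]
  have hbP : b ∈ P := (mem b).2 (dvd_mul_right _ _)
  have h0 : P ≠ ⊥ := fun e => hb0 (by rwa [e, Ideal.mem_bot] at hbP)
  by_cases hx : ∃ t ∈ P, ∃ k ∉ P, t * c = b * k
  · obtain ⟨t, ht, k, hk, e⟩ := hx
    obtain ⟨a', b', h1, h2⟩ := h P (Hart_dvr P h0 ht hk fun r hr => by
      obtain ⟨l, hl⟩ := (mem r).1 hr
      exact ⟨l, mul_left_cancel₀ hb0 (by linear_combination t * hl - r * e)⟩)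
    refine h1 (hle ((col a b').2 ⟨a', IsFractionRing.injective R K ?_⟩))
    rw [map_mul, map_mul, ← h2]
    field_simp
  · have hi := isIntegral_of_smul_mem_submodule (Submodule.map (Algebra.linearMap R K) P)
      ((Submodule.ne_bot_iff _).2 ⟨_, ⟨b, hbP, rfl⟩, hbK⟩)
      (Submodule.FG.map _ (IsNoetherian.noetherian _)) (algebraMap R K c / algebraMap R K b) (by
        rintro _ ⟨r, hr, rfl⟩
        obtain ⟨l, hl⟩ := (mem r).1 hr
        refine ⟨l, by_contra fun k => hx ⟨r, hr, l, k, hl⟩, ?_⟩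
        rw [Algebra.linearMap_apply, Algebra.linearMap_apply, smul_eq_mul, div_mul_eq_mul_div,
          eq_div_iff hbK, ← map_mul, ← map_mul, mul_comm c r, hl, mul_comm])
    obtain ⟨y, hy⟩ := IsIntegrallyClosed.algebraMap_eq_of_integral hi
    refine hpr.ne_top ((Ideal.eq_top_iff_one _).2 ((mem 1).2 ⟨y, IsFractionRing.injective R K ?_⟩))
    rw [one_mul, map_mul, hy, mul_div_cancel₀ _ hbK]

end

end Pool.Agent.MP_1c689d_ag.FP

end

section

set_option autoImplicit false

namespace Pool.Agent.MP_1c689d_ag.FP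

noncomputable section

open Polynomial

variable {F : Type} [Field F] [Algebra ℂ F]

/-- The localisation of `S` at the prime `p` inside `F`. -/
def GlobL_loc (S : Subalgebra ℂ F) (p : Ideal S) [hp : p.IsPrime] : Subalgebra ℂ F where
  carrier := {x | ∃ a b : S, b ∉ p ∧ x * (b : F) = (a : F)}
  mul_mem' := by
    rintro x y ⟨a, b, hb, e⟩ ⟨a', b', hb', e'⟩
    refine ⟨a * a', b * b', fun h => (hp.mem_or_mem h).elim hb hb', ?_⟩
    push_cast
    rw [← e, ← e']
    ring
  add_mem' := by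
    rintro x y ⟨a, b, hb, e⟩ ⟨a', b', hb', e'⟩
    refine ⟨a * b' + a' * b, b * b', fun h => (hp.mem_or_mem h).elim hb hb', ?_⟩
    push_cast
    rw [← e, ← e']
    ring
  algebraMap_mem' c := ⟨algebraMap ℂ S c, 1, (Ideal.ne_top_iff_one p).mp hp.ne_top, by simp⟩

theorem GlobL_mem {S : Subalgebra ℂ F} {p : Ideal S} [p.IsPrime] {x : F} :
    x ∈ GlobL_loc S p ↔ ∃ a b : S, b ∉ p ∧ x * (b : F) = (a : F) := Iff.rfl

theorem GlobL_le (S : Subalgebra ℂ F) (p : Ideal S) [hp : p.IsPrime] : S ≤ GlobL_loc S p :=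
  fun x hx => ⟨⟨x, hx⟩, 1, (Ideal.ne_top_iff_one p).mp hp.ne_top, by simp⟩

theorem GlobL_ne {S : Subalgebra ℂ F} {p : Ideal S} {b : S} (hb : b ∉ p) : (b : F) ≠ 0 :=
  fun h => hb (by rw [show b = 0 from Subtype.ext h]; exact p.zero_mem)

theorem GlobL_inv {S : Subalgebra ℂ F} {p : Ideal S} [p.IsPrime] {b : S} (hb : b ∉ p) :
    (b : F)⁻¹ ∈ GlobL_loc S p :=
  ⟨1, b, hb, by rw [inv_mul_cancel₀ (GlobL_ne hb)]; rfl⟩

theorem GlobL_dvr (S : Subalgebra ℂ F) (p : Ideal S) [p.IsPrime]
    (h : IsDiscreteValuationRing (Localization.AtPrime p)) :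
    IsDiscreteValuationRing (GlobL_loc S p) := by
  let _ : Algebra S (GlobL_loc S p) := (Subalgebra.inclusion (GlobL_le S p)).toRingHom.toAlgebra
  have h1 : IsLocalization p.primeCompl (GlobL_loc S p) := by
    rw [isLocalization_iff]
    refine ⟨fun y => ?_, fun z => ?_, fun {x y} e => ⟨1, ?_⟩⟩
    · exact IsUnit.of_mul_eq_one ⟨_, GlobL_inv y.2⟩
        (Subtype.ext (mul_inv_cancel₀ (GlobL_ne (b := y.1) (p := p) y.2)))
    · obtain ⟨a, b, hb, e⟩ := z.2
      exact ⟨(a, ⟨b, hb⟩), Subtype.ext e⟩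
    · have e' : (x : F) = (y : F) := congrArg (fun z : GlobL_loc S p => (z : F)) e
      rw [Subtype.ext e']
  exact IsDiscreteValuationRing.RingEquivClass.isDiscreteValuationRing
    (IsLocalization.algEquiv p.primeCompl (Localization.AtPrime p) (GlobL_loc S p)).toRingEquiv

theorem GlobL_frac (S O : Subalgebra ℂ F) [IsFractionRing S F] (h : S ≤ O) :
    IsFractionRing O F := by
  refine IsFractionRing.of_field O F fun z => ?_
  obtain ⟨a, b, -, e⟩ := IsFractionRing.div_surjective (A := S) z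
  exact ⟨⟨a, h a.2⟩, ⟨b, h b.2⟩, e.symm⟩

theorem GlobL_smul {R : Subalgebra ℂ F} {c : F} (hc : c ∈ R) {η : ⋀[F]^3 Ω[F⁄ℂ]}
    (h : η ∈ regOn R 3) : c • η ∈ regOn R 3 := (regOn R 3).smul_mem ⟨c, hc⟩ h

theorem GlobL_pow (f a : F) (n : ℕ) : f ^ (n + 1) • KaehlerDifferential.D ℂ F a =
    f • KaehlerDifferential.D ℂ F (f ^ n * a) +
      (-(n * (f ^ n * a))) • KaehlerDifferential.D ℂ F f := by
  induction n with
  | zero => simp
  | succ n ih =>
    have e : f ^ (n + 1) * a = f * (f ^ n * a) := by ring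
    rw [pow_succ' f (n + 1), mul_smul, ih, e, Derivation.leibniz _ f, smul_add, smul_add,
      smul_smul, smul_smul, smul_smul, add_assoc, ← add_smul]
    congr 2
    push_cast
    ring

/-- Clearing denominators: if `S = R[1/f]` then a power of `f` moves `regOn S` into `regOn R`
(for `a = r / f^n`, `f^(n+1) • D a` is an `R`-combination of `D r` and `D f`; multilinearity). -/
theorem regOn_away (R S : Subalgebra ℂ F) (f : F) (hf : f ∈ R) (h0 : f ≠ 0)
    (hS : ∀ a ∈ S, ∃ n : ℕ, f ^ n * a ∈ R) (η : ⋀[F]^3 Ω[F⁄ℂ]) (h : η ∈ regOn S 3) :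
    ∃ n : ℕ, f ^ n • η ∈ regOn R 3 := by
  induction h using Submodule.span_induction with
  | mem x hx =>
    obtain ⟨a, rfl⟩ := hx
    choose n hn using fun k => hS _ (a k).2
    refine ⟨∑ k, (n k + 1), ?_⟩
    let c : Fin 3 → Fin 2 → R := fun k => ![⟨f, hf⟩, -(n k * ⟨_, hn k⟩)]
    let e : Fin 3 → Fin 2 → R := fun k => ![⟨_, hn k⟩, ⟨f, hf⟩]
    have e1 : (fun k => f ^ (n k + 1) • KaehlerDifferential.D ℂ F (a k : F)) =
        fun k => ∑ j, (c k j : F) • KaehlerDifferential.D ℂ F (e k j : F) := by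
      funext k
      rw [Fin.sum_univ_two, GlobL_pow]
      simp [c, e]
    rw [← Finset.prod_pow_eq_pow_sum, ← AlternatingMap.map_smul_univ, e1]
    have e2 := (exteriorPower.ιMulti F 3).toMultilinearMap.map_sum
      (fun k j => (c k j : F) • KaehlerDifferential.D ℂ F (e k j : F))
    simp only [AlternatingMap.coe_multilinearMap] at e2
    rw [e2]
    refine Submodule.sum_mem _ fun r _ => ?_
    rw [AlternatingMap.map_smul_univ]
    exact GlobL_smul (R.prod_mem fun k _ => (c k (r k)).2)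
      (Submodule.subset_span ⟨fun k => e k (r k), rfl⟩)
  | zero => exact ⟨0, by simp⟩
  | add x y _ _ hx hy =>
    obtain ⟨m, hm⟩ := hx
    obtain ⟨n, hn⟩ := hy
    refine ⟨m + n, ?_⟩
    rw [smul_add]
    refine Submodule.add_mem _ ?_ ?_
    · rw [pow_add, mul_comm, mul_smul]
      exact GlobL_smul (R.pow_mem hf n) hm
    · rw [pow_add, mul_smul]
      exact GlobL_smul (R.pow_mem hf m) hn
  | smul s x _ hx =>
    obtain ⟨n, hn⟩ := hx
    obtain ⟨m, hm⟩ := hS _ s.2
    refine ⟨m + n, ?_⟩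
    have e : f ^ (m + n) • s • x = (f ^ m * s) • f ^ n • x := by
      change f ^ (m + n) • (s : F) • x = _
      rw [smul_smul, smul_smul]
      congr 1
      ring
    rw [e]
    exact GlobL_smul hm hn

end

end Pool.Agent.MP_1c689d_ag.FP

end

section

set_option autoImplicit false

namespace Pool.Agent.MP_1c689d_ag.FP

noncomputable section

open Polynomial

open TensorProduct nonZeroDivisors in
theorem norm_inj (R S : Type) [CommRing R] [IsDomain R] [CommRing S] [IsDomain S] [Algebra R S]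
    [Module.Flat R S] : Function.Injective (algebraMap R S) := by
  rw [injective_iff_map_eq_zero]
  intro r hr
  by_contra h
  have := Module.Flat.isSMulRegular_of_nonZeroDivisors (M := S) (mem_nonZeroDivisors_of_ne_zero h)
  have h2 : r • (1 : S) = r • (0 : S) := by rw [Algebra.smul_def, hr, zero_mul, smul_zero]
  exact one_ne_zero (this h2)

open TensorProduct nonZeroDivisors in
theorem norm_alg (R S : Type) [CommRing R] [IsDomain R] [CommRing S] [IsDomain S] [Algebra R S]
    [Algebra.Etale R S] : Algebra.IsAlgebraic R S := by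
  have hi := norm_inj R S
  let K := FractionRing R
  have : Module.Finite K (K ⊗[R] S) := Algebra.FormallyUnramified.finite_of_free K _
  have hj : Function.Injective (Algebra.TensorProduct.includeRight : S →ₐ[R] K ⊗[R] S) :=
    Algebra.TensorProduct.includeRight_injective (IsFractionRing.injective R K)
  have : Nontrivial (K ⊗[R] S) := hj.nontrivial
  refine ⟨fun s => ?_⟩
  rw [← isAlgebraic_algHom_iff _ hj]
  have h1 : IsAlgebraic K (Algebra.TensorProduct.includeRight (R := R) (A := K) s) :=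
    (Algebra.IsIntegral.isIntegral _).isAlgebraic
  have : Algebra.IsAlgebraic R K := IsLocalization.isAlgebraic K R⁰
  exact h1.restrictScalars R

open TensorProduct nonZeroDivisors in
theorem norm_closed (R S : Type) [CommRing R] [IsDomain R] [IsIntegrallyClosed R] [CommRing S]
    [IsDomain S] [Algebra R S] [Algebra.Etale R S] : IsIntegrallyClosed S := by
  have hi := norm_inj R S
  have := norm_alg R S
  have : FaithfulSMul R S := (faithfulSMul_iff_algebraMap_injective R S).2 hi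
  let K := FractionRing R
  let e : (S ⊗[R] K) ≃ₐ[S] FractionRing S :=
    IsLocalization.algEquiv (Algebra.algebraMapSubmonoid S R⁰) _ _
  rw [isIntegrallyClosed_iff (FractionRing S)]
  intro x hx
  obtain ⟨z, hz⟩ := (TensorProduct.toIntegralClosure_bijective_of_smooth (R := R) (S := S)
    (B := K)).2 ⟨e.symm x, hx.map e.symm⟩
  have hz' : Algebra.TensorProduct.map (AlgHom.id S S) (integralClosure R K).val z = e.symm x :=
    congrArg Subtype.val hz
  have key : ∀ z : S ⊗[R] integralClosure R K, ∃ y : S, algebraMap S (S ⊗[R] K) y =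
      Algebra.TensorProduct.map (AlgHom.id S S) (integralClosure R K).val z := by
    intro z
    induction z with
    | zero => exact ⟨0, by simp⟩
    | add a b ha hb =>
      obtain ⟨a', ha⟩ := ha
      obtain ⟨b', hb⟩ := hb
      exact ⟨a' + b', by rw [map_add, map_add, ha, hb]⟩
    | tmul a b =>
      obtain ⟨r, hr⟩ := (isIntegrallyClosed_iff K).1 inferInstance b.2
      refine ⟨r • a, ?_⟩
      rw [Algebra.TensorProduct.map_tmul, Subalgebra.coe_val, ← hr, Algebra.algebraMap_eq_smul_one r,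
        tmul_smul, smul_tmul']
      rfl
  obtain ⟨y, hy⟩ := key z
  refine ⟨y, ?_⟩
  rw [← e.commutes, hy, hz', AlgEquiv.apply_symm_apply]

open TensorProduct in
theorem norm_span (S : Type) [CommRing S] [Algebra ℂ S] (n : ℕ)
    [Algebra (MvPolynomial (Fin n) ℂ) S] [IsScalarTower ℂ (MvPolynomial (Fin n) ℂ) S]
    [Algebra.Etale (MvPolynomial (Fin n) ℂ) S] (w : Ω[S⁄ℂ]) :
    w ∈ Submodule.span S (Set.range fun i : Fin n =>
      KaehlerDifferential.D ℂ S (algebraMap (MvPolynomial (Fin n) ℂ) S (MvPolynomial.X i))) := by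
  let b := ((KaehlerDifferential.mvPolynomialBasis ℂ (Fin n)).baseChange S).map
    (KaehlerDifferential.tensorKaehlerEquivOfFormallyEtale ℂ (MvPolynomial (Fin n) ℂ) S)
  have hb : (fun i : Fin n => KaehlerDifferential.D ℂ S
      (algebraMap (MvPolynomial (Fin n) ℂ) S (MvPolynomial.X i))) = b := by
    funext i
    simp [b]
  rw [hb, b.span_eq]
  trivial

/-- An étale domain over a polynomial ring `P`.  Flat and non-trivial, so `P → S` is injective.
With `B = FractionRing P`, `S ⊗ B` is a localisation of `S` at non-zero elements, a domain, and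
étale (finite) over the field `B`, hence a field, the fraction field of `S`; this gives
algebraicity.  `TensorProduct.toIntegralClosure_bijective_of_smooth` (with
`integralClosure P B = ⊥`) shows that `S` is integrally closed in it.  Differentials:
`KaehlerDifferential.tensorKaehlerEquivOfFormallyEtale` or the exact sequence
`KaehlerDifferential.exact_mapBaseChange_map` with `Ω[S⁄P] = 0`. -/
theorem norm_etale (S : Type) [CommRing S] [IsDomain S] [Algebra ℂ S] (n : ℕ)
    [Algebra (MvPolynomial (Fin n) ℂ) S] [IsScalarTower ℂ (MvPolynomial (Fin n) ℂ) S]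
    [Algebra.Etale (MvPolynomial (Fin n) ℂ) S] :
    IsIntegrallyClosed S ∧ IsNoetherianRing S ∧
      Function.Injective (algebraMap (MvPolynomial (Fin n) ℂ) S) ∧
      Algebra.IsAlgebraic (MvPolynomial (Fin n) ℂ) S ∧
      ∀ a : S, KaehlerDifferential.D ℂ S a ∈ Submodule.span S (Set.range fun i : Fin n =>
        KaehlerDifferential.D ℂ S (algebraMap (MvPolynomial (Fin n) ℂ) S (MvPolynomial.X i))) := by
  refine ⟨norm_closed (MvPolynomial (Fin n) ℂ) S,
    Algebra.FiniteType.isNoetherianRing (MvPolynomial (Fin n) ℂ) S, norm_inj _ S, norm_alg _ S,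
    fun a => norm_span S n _⟩

end

end Pool.Agent.MP_1c689d_ag.FP

end

section

set_option autoImplicit false

namespace Pool.Agent.MP_1c689d_ag.FP

noncomputable section

open Polynomial

variable {F : Type} [Field F] [Algebra ℂ F]

end

end Pool.Agent.MP_1c689d_ag.FP

end

section

set_option autoImplicit false

namespace Pool.Agent.MP_1c689d_ag.FP

noncomputable section

open Polynomial

variable {F : Type} [Field F] [Algebra ℂ F]
variable {O : Subalgebra ℂ F} {ord : F → ℤ}

end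

end Pool.Agent.MP_1c689d_ag.FP

end

section

set_option autoImplicit false

namespace Pool.Agent.MP_1c689d_ag.FP

noncomputable section

open Polynomial

variable {F : Type} [Field F] [Algebra ℂ F]

end

end Pool.Agent.MP_1c689d_ag.FP

end

section

set_option autoImplicit false

namespace Pool.Agent.MP_1c689d_ag.FP

noncomputable section

open Polynomial

/-- the universal polynomial -/
def RootG (n : ℕ) (p : (Fin (n + 1) → ℂ) × ℂ) : ℂ := ∑ i, p.1 i * p.2 ^ (i : ℕ)

/-- the derivative of the universal polynomial -/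
def RootD (n : ℕ) (p : (Fin (n + 1) → ℂ) × ℂ) : ℂ :=
  ∑ i, p.1 i * (((i : ℕ) : ℂ) * p.2 ^ ((i : ℕ) - 1))

theorem Root_smooth (n : ℕ) : ContDiff ℂ 1 (RootG n) := by
  unfold RootG
  fun_prop

theorem Root_contD (n : ℕ) : Continuous (RootD n) := by
  unfold RootD
  fun_prop

theorem Root_deriv (n : ℕ) (a : Fin (n + 1) → ℂ) (z : ℂ) :
    HasDerivAt (fun w => RootG n (a, w)) (RootD n (a, z)) z :=
  HasDerivAt.fun_sum fun i _ => (hasDerivAt_pow (i : ℕ) z).const_mul (a i)

theorem Root_evalG (n : ℕ) (P : ℂ[X]) (hP : P.natDegree = n) (z : ℂ) :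
    RootG n (fun i => P.coeff i, z) = P.eval z := by
  rw [eval_eq_sum_range, hP, Finset.sum_range]
  rfl

theorem Root_evalD (n : ℕ) (P : ℂ[X]) (hP : P.natDegree = n) (z : ℂ) :
    RootD n (fun i => P.coeff i, z) = (derivative P).eval z := by
  have h := Root_deriv n (fun i => P.coeff i) z
  simp only [Root_evalG n P hP] at h
  exact h.unique (P.hasDerivAt z)

theorem Root_chart (n : ℕ) (u : (Fin (n + 1) → ℂ) × ℂ) (hu : RootD n u ≠ 0) :
    ∃ e : OpenPartialHomeomorph ((Fin (n + 1) → ℂ) × ℂ) (ℂ × (Fin (n + 1) → ℂ)),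
      u ∈ e.source ∧ (∀ p, e p = (RootG n p, p.1)) ∧ ∀ p ∈ e.source, RootD n p ≠ 0 := by
  have h1 : HasStrictFDerivAt (RootG n) (fderiv ℂ (RootG n) u) u :=
    (Root_smooth n).contDiffAt.hasStrictFDerivAt one_ne_zero
  have h2 : HasFDerivAt (fun w => RootG n (u.1, w))
      ((fderiv ℂ (RootG n) u).comp (ContinuousLinearMap.inr ℂ _ ℂ)) u.2 :=
    HasFDerivAt.comp (g := RootG n) u.2 h1.hasFDerivAt (hasFDerivAt_prodMk_right u.1 u.2)
  have h3 := h2.unique (Root_deriv n u.1 u.2).hasFDerivAt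
  have h4 : ((fderiv ℂ (RootG n) u).comp (ContinuousLinearMap.inr ℂ _ ℂ)).IsInvertible := by
    rw [h3]
    refine ⟨ContinuousLinearEquiv.unitsEquivAut ℂ (Units.mk0 _ hu), ?_⟩
    ext
    simp
  refine ⟨(h1.implicitFunctionDataOfProdDomain h4).toOpenPartialHomeomorph.restrOpen
    {p | RootD n p ≠ 0} (isOpen_ne_fun (Root_contD n) continuous_const),
    ⟨(h1.implicitFunctionDataOfProdDomain h4).pt_mem_toOpenPartialHomeomorph_source, hu⟩,
    fun p => rfl, fun p hp => hp.2⟩

theorem Root_pull {X A : Type} [TopologicalSpace X] [TopologicalSpace A]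
    (e : OpenPartialHomeomorph (A × ℂ) (ℂ × A)) (he : ∀ p, (e p).2 = p.1) (a : X → A)
    (ha : Continuous a) (p : X × ℂ → Prop)
    (hp : ∀ q, (a q.1, q.2) ∈ e.source → (p q ↔ (e (a q.1, q.2)).1 = 0)) (q₀ : {q // p q})
    (h₀ : (a q₀.1.1, q₀.1.2) ∈ e.source) :
    ∃ e' : OpenPartialHomeomorph {q // p q} X, q₀ ∈ e'.source ∧
      Set.EqOn (fun q : {q // p q} => q.1.1) e' e'.source := by
  classical
  have k1 : ∀ x, ((0 : ℂ), a x) ∈ e.target → (a x, (e.symm (0, a x)).2) = e.symm (0, a x) := by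
    intro x hx
    have := he (e.symm (0, a x))
    rw [e.right_inv hx] at this
    exact Prod.ext this rfl
  have k2 : ∀ x, ((0 : ℂ), a x) ∈ e.target → p (x, (e.symm (0, a x)).2) := by
    intro x hx
    refine (hp (x, (e.symm (0, a x)).2) ?_).2 ?_
    · show (a x, (e.symm (0, a x)).2) ∈ e.source
      rw [k1 x hx]
      exact e.map_target hx
    · show (e (a x, (e.symm (0, a x)).2)).1 = 0
      rw [k1 x hx, e.right_inv hx]
  have k3 : ∀ q : {q // p q}, (a q.1.1, q.1.2) ∈ e.source → e (a q.1.1, q.1.2) = (0, a q.1.1) :=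
    fun q hq => Prod.ext ((hp q.1 hq).1 q.2) (he _)
  have c1 : Continuous fun q : {q // p q} => (a q.1.1, q.1.2) := by fun_prop
  have c2 : Continuous fun x : X => ((0 : ℂ), a x) := by fun_prop
  refine ⟨{ toFun := fun q => q.1.1
            invFun := fun x => if h : ((0 : ℂ), a x) ∈ e.target then
              ⟨(x, (e.symm (0, a x)).2), k2 x h⟩ else q₀
            source := {q | (a q.1.1, q.1.2) ∈ e.source}
            target := {x | ((0 : ℂ), a x) ∈ e.target}
            map_source' := fun q hq => ?_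
            map_target' := fun x hx => ?_
            left_inv' := fun q hq => ?_
            right_inv' := fun x hx => ?_
            open_source := e.open_source.preimage c1
            open_target := e.open_target.preimage c2
            continuousOn_toFun := by fun_prop
            continuousOn_invFun := ?_ }, h₀, fun _ _ => rfl⟩
  · show ((0 : ℂ), a q.1.1) ∈ e.target
    rw [← k3 q hq]
    exact e.map_source hq
  · have hx' : ((0 : ℂ), a x) ∈ e.target := hx
    rw [dif_pos hx']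
    show (a x, (e.symm (0, a x)).2) ∈ e.source
    rw [k1 x hx]
    exact e.map_target hx
  · have h1 : ((0 : ℂ), a q.1.1) ∈ e.target := by
      rw [← k3 q hq]
      exact e.map_source hq
    rw [dif_pos h1]
    refine Subtype.ext (Prod.ext rfl ?_)
    show (e.symm (0, a q.1.1)).2 = q.1.2
    rw [← k3 q hq, e.left_inv hq]
  · have hx' : ((0 : ℂ), a x) ∈ e.target := hx
    rw [dif_pos hx']
  · refine (Topology.IsInducing.subtypeVal (t := {q | p q})).continuousOn_iff.2 ?_
    have c3 : ContinuousOn (fun x => (x, (e.symm (0, a x)).2)) {x | ((0 : ℂ), a x) ∈ e.target} :=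
      continuousOn_id.prodMk (continuous_snd.comp_continuousOn
        (e.continuousOn_symm.comp c2.continuousOn fun _ h => h))
    refine c3.congr fun x hx => ?_
    have hx' : ((0 : ℂ), a x) ∈ e.target := hx
    simp only [Function.comp_apply, dif_pos hx']

theorem Root_local {X : Type} [TopologicalSpace X] (n : ℕ) (m : X → ℂ[X])
    (hm : ∀ x, (m x).natDegree = n) (hc : ∀ i, Continuous fun x => (m x).coeff i)
    (p : X × ℂ → Prop) (h1 : ∀ q, p q → (derivative (m q.1)).eval q.2 ≠ 0)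
    (h2 : ∀ q, (derivative (m q.1)).eval q.2 ≠ 0 → (p q ↔ (m q.1).eval q.2 = 0)) :
    IsLocalHomeomorph (fun q : {q // p q} => q.1.1) := by
  refine IsLocalHomeomorph.mk _ fun q₀ => ?_
  obtain ⟨e, he0, he1, he2⟩ := Root_chart n (fun i => (m q₀.1.1).coeff i, q₀.1.2)
    (by rw [Root_evalD n _ (hm _)]; exact h1 _ q₀.2)
  refine Root_pull e (fun p => by rw [he1]) (fun x i => (m x).coeff i)
    (continuous_pi fun i => hc i) p (fun q hq => ?_) q₀ he0
  have := he2 _ hq
  rw [Root_evalD n _ (hm _)] at this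
  rw [he1, h2 q this]
  show _ ↔ RootG n _ = 0
  rw [Root_evalG n _ (hm _)]

theorem Root_bound (n : ℕ) (P : ℂ[X]) (h : P.Monic) (hP : P.natDegree = n) (z : ℂ)
    (hz : P.eval z = 0) : ‖z‖ ≤ ∑ i ∈ Finset.range n, ‖P.coeff i‖ + 1 := by
  have h1 := IsRoot.norm_lt_cauchyBound h.ne_zero hz
  rw [cauchyBound, h.leadingCoeff, nnnorm_one, div_one, hP] at h1
  have h2 : (Finset.range n).sup (fun i => ‖P.coeff i‖₊) ≤ ∑ i ∈ Finset.range n, ‖P.coeff i‖₊ :=
    Finset.sup_le fun i hi => Finset.single_le_sum (f := fun i => ‖P.coeff i‖₊)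
      (fun _ _ => zero_le) hi
  have h3 : ‖z‖₊ ≤ ∑ i ∈ Finset.range n, ‖P.coeff i‖₊ + 1 := h1.le.trans (by gcongr)
  simpa using NNReal.coe_le_coe.2 h3

theorem Root_closed {X : Type} [TopologicalSpace X] (n : ℕ) (m : X → ℂ[X])
    (hm : ∀ x, (m x).Monic ∧ (m x).natDegree = n) (hc : ∀ i, Continuous fun x => (m x).coeff i) :
    IsClosedMap (fun q : {q : X × ℂ // (m q.1).eval q.2 = 0} => q.1.1) := by
  refine IsProperMap.isClosedMap (isProperMap_iff_ultrafilter.2 ⟨by fun_prop, fun U y hy => ?_⟩)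
  have cB : Continuous fun x => ∑ i ∈ Finset.range n, ‖(m x).coeff i‖ + 1 :=
    (continuous_finsetSum _ fun i _ => (hc i).norm).add continuous_const
  have h1 := (cB.continuousAt.tendsto.comp hy).eventually
    (gt_mem_nhds (lt_add_one (∑ i ∈ Finset.range n, ‖(m y).coeff i‖ + 1)))
  obtain ⟨z, -, hz⟩ := (isCompact_closedBall (0 : ℂ)
    (∑ i ∈ Finset.range n, ‖(m y).coeff i‖ + 1 + 1)).ultrafilter_le_nhds
    (U.map fun q => q.1.2) (by
      rw [Ultrafilter.coe_map, Filter.le_principal_iff, Filter.mem_map]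
      filter_upwards [h1] with q hq
      exact mem_closedBall_zero_iff.2
        ((Root_bound n _ (hm _).1 (hm _).2 _ q.2).trans hq.le))
  have h2 : Filter.Tendsto (fun q : {q : X × ℂ // (m q.1).eval q.2 = 0} => q.1) U (nhds (y, z)) :=
    hy.prodMk_nhds hz
  have cF : Continuous fun q : X × ℂ => (m q.1).eval q.2 := by
    have : Continuous fun q : X × ℂ => RootG n (fun i => (m q.1).coeff i, q.2) :=
      (Root_smooth n).continuous.comp
        ((continuous_pi fun i : Fin (n + 1) => (hc i).comp continuous_fst).prodMk continuous_snd)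
    simpa only [Root_evalG n _ (hm _).2] using this
  have h3 : (m y).eval z = 0 :=
    (isClosed_eq cF continuous_const).mem_of_tendsto h2 (Filter.Eventually.of_forall fun q => q.2)
  exact ⟨⟨(y, z), h3⟩, rfl, (tendsto_subtype_rng (f := id)).2 h2⟩

/-- Simple roots of a continuous family of monic polynomials depend continuously on the
parameter.  Universal case: the map `Ψ : (Fin n → ℂ) × ℂ → (Fin n → ℂ) × ℂ`,
`(a, z) ↦ (a, z^n + ∑ a i z^i)` has invertible strict derivative where the `z`-derivative is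
non-zero, so it is a local homeomorphism there (`HasStrictFDerivAt.toOpenPartialHomeomorph`, or
the implicit function theorem of Mathlib); pull back along `x ↦ (coefficients of m x, 0)`. -/
theorem root_localHomeo {X : Type} [TopologicalSpace X] (n : ℕ) (m : X → ℂ[X])
    (hm : ∀ x, (m x).Monic ∧ (m x).natDegree = n) (hc : ∀ i, Continuous fun x => (m x).coeff i) :
    IsLocalHomeomorph (fun q : {q : X × ℂ //
      (m q.1).eval q.2 = 0 ∧ (derivative (m q.1)).eval q.2 ≠ 0} => q.1.1) := by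
  exact Root_local n m (fun x => (hm x).2) hc _ (fun q h => h.2)
    fun q h => ⟨fun h' => h'.1, fun h' => ⟨h', h⟩⟩

/-- For separable polynomials the root space is a covering: all roots are simple, the projection
is closed (roots are bounded by the Cauchy bound `1 + ∑ ‖coeff‖`, locally uniformly) with finite
fibres; use `IsClosedMap.isCoveringMapOn_of_isLocalHomeomorphOn`. -/
theorem root_covering {X : Type} [TopologicalSpace X] [T2Space X] (n : ℕ) (m : X → ℂ[X])
    (hm : ∀ x, (m x).Monic ∧ (m x).natDegree = n) (hc : ∀ i, Continuous fun x => (m x).coeff i)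
    (hs : ∀ x, (m x).Separable) :
    IsCoveringMap (fun q : {q : X × ℂ // (m q.1).eval q.2 = 0} => q.1.1) ∧
      ∀ x, ((fun q : {q : X × ℂ // (m q.1).eval q.2 = 0} => q.1.1) ⁻¹' {x}).Finite ∧
        ((fun q : {q : X × ℂ // (m q.1).eval q.2 = 0} => q.1.1) ⁻¹' {x}).ncard = n := by
  classical
  have hfib : ∀ x, ((fun q : {q : X × ℂ // (m q.1).eval q.2 = 0} => q.1.1) ⁻¹' {x}).Finite ∧
      ((fun q : {q : X × ℂ // (m q.1).eval q.2 = 0} => q.1.1) ⁻¹' {x}).ncard = n := by
    intro x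
    have h1 : Set.InjOn (fun q : {q : X × ℂ // (m q.1).eval q.2 = 0} => q.1.2)
        ((fun q : {q : X × ℂ // (m q.1).eval q.2 = 0} => q.1.1) ⁻¹' {x}) :=
      fun q hq q' hq' h => Subtype.ext (Prod.ext (hq.trans hq'.symm) h)
    have h2 : (fun q : {q : X × ℂ // (m q.1).eval q.2 = 0} => q.1.2) ''
        ((fun q : {q : X × ℂ // (m q.1).eval q.2 = 0} => q.1.1) ⁻¹' {x}) =
        ((m x).roots.toFinset : Set ℂ) := by
      ext z
      rw [Finset.mem_coe, Multiset.mem_toFinset, mem_roots (hm x).1.ne_zero]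
      constructor
      · rintro ⟨q, rfl, rfl⟩
        exact q.2
      · exact fun h => ⟨⟨(x, z), h⟩, rfl, rfl⟩
    refine ⟨Set.Finite.of_finite_image (h2 ▸ Finset.finite_toSet _) h1, ?_⟩
    rw [← h1.ncard_image, h2, Set.ncard_coe_finset,
      Multiset.toFinset_card_of_nodup (nodup_roots (hs x)), IsAlgClosed.card_roots_eq_natDegree,
      (hm x).2]
  refine ⟨isCoveringMap_iff_isCoveringMapOn_univ.2
    ((Root_closed n m hm hc).isCoveringMapOn_of_isLocalHomeomorphOn (fun x _ => (hfib x).1)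
      (IsLocalHomeomorph.isLocalHomeomorphOn ?_)), hfib⟩
  exact Root_local n m (fun x => (hm x).2) hc _
    (fun q h => by simpa using (hs q.1).aeval_derivative_ne_zero (x := q.2) (by simpa using h))
    fun q _ => Iff.rfl

end

end Pool.Agent.MP_1c689d_ag.FP

end

section

set_option autoImplicit false

namespace Pool.Agent.MP_1c689d_ag.SX

open Pool.Agent.MP_1c689d_ag.FP

noncomputable section

open Polynomial

variable {N : Type} [Field N] [Algebra ℂ N]

theorem SixOf2_hom {k S : Type} [CommRing k] [CommRing S] (a : Fin 6 → V k)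
    (f : MvPolynomial (Fin 2) k →+* S) :
    f (prodL (mp MvPolynomial.C a) ⟨MvPolynomial.X 0, MvPolynomial.X 1, 1⟩) =
      prodL (mp (fun c => f (MvPolynomial.C c)) a)
        ⟨f (MvPolynomial.X 0), f (MvPolynomial.X 1), 1⟩ := by
  simp only [prodL, SX.ev, mp, V.map, map_mul, map_add, map_one]

theorem SixOf2_sub {k S : Type} [Field k] [Algebra ℂ k] [CommRing S] [Algebra ℂ S] (s : k)
    (f : MvPolynomial (Fin 2) k →ₐ[ℂ] S) (A : MvPolynomial (Fin 3) ℂ) :
    f (MvPolynomial.aeval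
        (![MvPolynomial.C s, MvPolynomial.X 0, MvPolynomial.X 1] :
          Fin 3 → MvPolynomial (Fin 2) k) A) =
      MvPolynomial.aeval
        ![f (MvPolynomial.C s), f (MvPolynomial.X 0), f (MvPolynomial.X 1)] A := by
  rw [MvPolynomial.comp_aeval_apply]
  congr 2
  funext i
  fin_cases i <;> rfl

theorem SixOf2_frac {s u v r : N} (hr : r ∈ IntermediateField.adjoin ℂ {s, u, v}) :
    ∃ A B : MvPolynomial (Fin 3) ℂ, MvPolynomial.aeval ![s, u, v] B ≠ 0 ∧
      r * MvPolynomial.aeval ![s, u, v] B = MvPolynomial.aeval ![s, u, v] A := by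
  rw [← range_vec3, IntermediateField.mem_adjoin_range_iff] at hr
  obtain ⟨A, B, h⟩ := hr
  by_cases hB : MvPolynomial.aeval ![s, u, v] B = 0
  · refine ⟨0, 1, by simp, ?_⟩
    rw [h, hB]
    simp
  · exact ⟨A, B, hB, by rw [h, div_mul_cancel₀ _ hB]⟩

/-- Write `prodL a ⟨u, v, 1⟩ * B(s, u, v) = A(s, u, v)` with `A, B ∈ ℂ[X₀, X₁, X₂]`, `B ≠ 0`
(`IntermediateField.mem_adjoin_iff` / `mem_adjoin_range_iff`; if the denominator vanishes the
quotient is zero, take `A = 0`, `B = 1`).  Let `k = acl {s}` and lift `a` to `k`; by `indep_acl`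
the relation holds in `MvPolynomial (Fin 2) k`.  Map it to `MvPolynomial (Fin 2) T` along `ψ` and
`ψ'`: the images of `A` and `B` agree, and the image of `B` is non-zero (the image in
`MvPolynomial (Fin 2) k` is non-zero since `B(s, u, v) ≠ 0`, and `MvPolynomial.map` along a field
homomorphism is injective).  Cancel and evaluate (`map_prodL`). -/
theorem rat_fun {s u v : N} (hind : AlgebraicIndependent ℂ ![s, u, v]) (a : Fin 6 → V N)
    (ha : ∀ i, (a i).In (acl {s}))
    (hr : prodL a ⟨u, v, 1⟩ ∈ IntermediateField.adjoin ℂ {s, u, v})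
    {T : Type} [Field T] [Algebra ℂ T] (ψ ψ' : N →ₐ[ℂ] T) (hs : ψ s = ψ' s) (x y : T) :
    prodL (mp ψ a) ⟨x, y, 1⟩ = prodL (mp ψ' a) ⟨x, y, 1⟩ := by
  obtain ⟨A, B, hB, hAB⟩ := SixOf2_frac hr
  have hs0 : s ∈ acl ({s} : Set N) := subset_acl _ rfl
  let s' : acl ({s} : Set N) := ⟨s, hs0⟩
  let a' : Fin 6 → V (acl ({s} : Set N)) := fun i =>
    ⟨⟨(a i).x, (ha i).1⟩, ⟨(a i).y, (ha i).2.1⟩, ⟨(a i).z, (ha i).2.2⟩⟩
  let w : Fin 3 → MvPolynomial (Fin 2) (acl ({s} : Set N)) :=
    ![MvPolynomial.C s', MvPolynomial.X 0, MvPolynomial.X 1]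
  let Pk : MvPolynomial (Fin 2) (acl ({s} : Set N)) :=
    prodL (mp MvPolynomial.C a') ⟨MvPolynomial.X 0, MvPolynomial.X 1, 1⟩
  let E : MvPolynomial (Fin 2) (acl ({s} : Set N)) →ₐ[ℂ] N :=
    (MvPolynomial.aeval (R := acl ({s} : Set N)) ![u, v]).restrictScalars ℂ
  have hE : Function.Injective E := indep_acl hind
  have hEC : ∀ c, E (MvPolynomial.C c) = (c : N) := fun c => by
    simp [E]
  have hE0 : E (MvPolynomial.X 0) = u := by simp [E]
  have hE1 : E (MvPolynomial.X 1) = v := by simp [E]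
  have hEw : ∀ C : MvPolynomial (Fin 3) ℂ,
      E (MvPolynomial.aeval w C) = MvPolynomial.aeval ![s, u, v] C := fun C => by
    rw [SixOf2_sub s' E C, hEC, hE0, hE1]
  have hEP : E Pk = prodL a ⟨u, v, 1⟩ := by
    have h := SixOf2_hom a' (E : MvPolynomial (Fin 2) (acl ({s} : Set N)) →+* N)
    simp only [RingHom.coe_coe, hEC, hE0, hE1] at h
    exact h
  have hrel : Pk * MvPolynomial.aeval w B = MvPolynomial.aeval w A := by
    apply hE
    rw [map_mul, hEP, hEw, hEw, hAB]
  have hB' : MvPolynomial.aeval w B ≠ 0 := fun h => hB (by rw [← hEw, h, map_zero])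
  let G : (N →ₐ[ℂ] T) → (MvPolynomial (Fin 2) (acl ({s} : Set N)) →ₐ[ℂ] MvPolynomial (Fin 2) T) :=
    fun χ => MvPolynomial.mapAlgHom (χ.comp (acl ({s} : Set N)).val)
  have hGC : ∀ χ c, G χ (MvPolynomial.C c) = MvPolynomial.C (χ (c : N)) := fun χ c => by
    simp [G]
  have hGX : ∀ χ i, G χ (MvPolynomial.X i) = MvPolynomial.X i := fun χ i => by
    simp [G]
  have hGw : ∀ χ (C : MvPolynomial (Fin 3) ℂ), G χ (MvPolynomial.aeval w C) =
      MvPolynomial.aeval (![MvPolynomial.C (χ s), MvPolynomial.X 0, MvPolynomial.X 1] :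
        Fin 3 → MvPolynomial (Fin 2) T) C := fun χ C => by
    rw [SixOf2_sub s' (G χ) C, hGC, hGX, hGX]
  have hGi : Function.Injective (G ψ) :=
    MvPolynomial.map_injective _ (ψ.comp (acl ({s} : Set N)).val).toRingHom.injective
  have hGB : G ψ (MvPolynomial.aeval w B) ≠ 0 := fun h =>
    hB' (hGi (by rw [h, map_zero]))
  have heq : G ψ Pk = G ψ' Pk := by
    apply mul_right_cancel₀ hGB
    have h1 := congrArg (G ψ) hrel
    have h2 := congrArg (G ψ') hrel
    rw [map_mul] at h1 h2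
    rw [h1, hGw ψ B, hs, ← hGw ψ' B, h2, hGw, hGw, hs]
  have hev : ∀ χ, MvPolynomial.eval ![x, y] (G χ Pk) = prodL (mp χ a) ⟨x, y, 1⟩ := fun χ => by
    have h := SixOf2_hom a' ((MvPolynomial.eval ![x, y]).comp
      (G χ : MvPolynomial (Fin 2) (acl ({s} : Set N)) →+* MvPolynomial (Fin 2) T))
    simp only [RingHom.comp_apply, RingHom.coe_coe, hGC, hGX, MvPolynomial.eval_C,
      MvPolynomial.eval_X, Matrix.cons_val_zero, Matrix.cons_val_one] at h
    exact h
  rw [← hev ψ, ← hev ψ', heq]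

end

end Pool.Agent.MP_1c689d_ag.SX

end
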