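import Pool.Agent.Mg.F1c689d.G23d2c9
import Pool.Agent.Mg.F1c689d.G9a22e1
import Pool.Agent.Mg.F1c689d.G526d43
import Pool.Agent.Mg.F1c689d.G7c9c5a

set_option linter.all false


section

set_option autoImplicit false

namespace Pool.Agent.MP_1c689d_ag.FP

noncomputable section

open Polynomial

variable {Ω : Type} [Field Ω] [Algebra ℂ Ω]

theorem Geo1_ne (k₀ : IntermediateField ℂ Ω) {x : Ω} (hx : Transcendental k₀ x) {a A : Ω}
    (ha : a ∈ k₀) (hA : A ∈ k₀) : x - a ≠ 0 ∧ gg a A (x - a) ≠ 0 := by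
  have key : ∀ P : Polynomial k₀, P.Monic → aeval x P ≠ 0 := fun P hP h0 =>
    hx ⟨P, hP.ne_zero, h0⟩
  constructor
  · have := key (X - C ⟨a, ha⟩) (monic_X_sub_C _)
    simpa using this
  · have := key (X ^ 2 + C (⟨a, ha⟩ : k₀) * X + C ((⟨a, ha⟩ : k₀) ^ 2 + ⟨A, hA⟩)) (by monicity!)
    intro h0
    apply this
    unfold gg at h0
    simp only [map_add, map_mul, map_pow, aeval_X, aeval_C]
    change x ^ 2 + a * x + (a ^ 2 + A) = 0
    linear_combination h0

theorem Rt.cub_eq {k : Type} [Field k] {B b b' b'' : k} (h : Rt B b b' b'') (x : k) :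
    cub b B x = (x - b) * (x - b') * (x - b'') := by
  have h1 : b'' = -b - b' := by linear_combination h.sum
  have h2 := h.e2
  subst h1
  subst h2
  unfold cub
  ring

/-- non-vanishing at a generic point (`x₁`, `x₂` are transcendental over `k₀`) -/
theorem gen_ne (k₀ : IntermediateField ℂ Ω) {x₁ x₂ : Ω} (hx : AlgebraicIndependent k₀ ![x₁, x₂])
    {a A : Ω} (ha : a ∈ k₀) (hA : A ∈ k₀) :
    x₁ - a ≠ 0 ∧ gg a A (x₁ - a) ≠ 0 ∧ cub a A x₁ ≠ 0 ∧ x₂ - a ≠ 0 ∧ gg a A (x₂ - a) ≠ 0 ∧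
      cub a A x₂ ≠ 0 := by
  have t1 : Transcendental k₀ x₁ := hx.transcendental 0
  have t2 : Transcendental k₀ x₂ := hx.transcendental 1
  obtain ⟨p1, p2⟩ := Geo1_ne k₀ t1 ha hA
  obtain ⟨q1, q2⟩ := Geo1_ne k₀ t2 ha hA
  refine ⟨p1, p2, ?_, q1, q2, ?_⟩
  · rw [cub_eq]
    exact mul_ne_zero p1 p2
  · rw [cub_eq]
    exact mul_ne_zero q1 q2

end

end Pool.Agent.MP_1c689d_ag.FP

end

section

set_option autoImplicit false

namespace Pool.Agent.MP_1c689d_ag.FP

noncomputable section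

open Polynomial

variable {k : Type} [Field k]

end

end Pool.Agent.MP_1c689d_ag.FP

end

section

set_option autoImplicit false

namespace Pool.Agent.MP_1c689d_ag.FP

noncomputable section

open Polynomial

variable {Ω : Type} [Field Ω] [Algebra ℂ Ω]

end

end Pool.Agent.MP_1c689d_ag.FP

end

section

set_option autoImplicit false

namespace Pool.Agent.MP_1c689d_ag.FP

noncomputable section

open Polynomial

variable {Ω E : Type} [Field Ω] [Field E] [Algebra ℂ Ω] [Algebra ℂ E] [Algebra Ω E]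
  [IsScalarTower ℂ Ω E]
variable {K : Type} [Field K] [Algebra ℂ K]

end

end Pool.Agent.MP_1c689d_ag.FP

end

section

set_option autoImplicit false

namespace Pool.Agent.MP_1c689d_ag.FP

noncomputable section

open Polynomial

variable {Ω E : Type} [Field Ω] [Field E] [Algebra ℂ Ω] [Algebra ℂ E] [Algebra Ω E]
  [IsScalarTower ℂ Ω E] {K : Type} [Field K] [Algebra ℂ K]

/-- the function field of the Kummer fibration -/
structure Km (A₁ B₁ A₂ B₂ : ℂ[X]) (s x₁ x₂ τ : K) : Prop where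
  h₁ : 4 * A₁ ^ 3 + 27 * B₁ ^ 2 ≠ 0
  h₂ : 4 * A₂ ^ 3 + 27 * B₂ ^ 2 ≠ 0
  ind : AlgebraicIndependent ℂ ![s, x₁, x₂]
  eq : τ ^ 2 * (x₁ ^ 3 + aeval s A₁ * x₁ + aeval s B₁) = x₂ ^ 3 + aeval s A₂ * x₂ + aeval s B₂
  gen : IntermediateField.adjoin ℂ {s, x₁, x₂, τ} = ⊤

theorem cub_root {A B a : Ω} (h : a ^ 3 + A * a + B = 0) (x : Ω) :
    cub a A x = x ^ 3 + A * x + B := by
  unfold cub
  linear_combination -h

variable {A₁ B₁ A₂ B₂ : ℂ[X]} {s x₁ x₂ τ : K}

theorem Km.indep (H : Km A₁ B₁ A₂ B₂ s x₁ x₂ τ) (φ : K →ₐ[ℂ] Ω) :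
    AlgebraicIndependent ℂ ![φ s, φ x₁, φ x₂] := by
  have := H.ind.map' (f := φ) φ.toRingHom.injective
  have e : (φ ∘ ![s, x₁, x₂]) = ![φ s, φ x₁, φ x₂] := by
    funext i
    fin_cases i <;> rfl
  rwa [e] at this

theorem Km.top (H : Km A₁ B₁ A₂ B₂ s x₁ x₂ τ) (h3 : Algebra.trdeg ℂ Ω = 3) (φ : K →ₐ[ℂ] Ω) :
    acl (Set.range φ) = ⊤ := by
  rw [eq_top_iff, ← acl_top_of_indep h3 _ (H.indep φ)]
  apply acl_mono
  rintro _ ⟨i, rfl⟩
  fin_cases i
  · exact ⟨s, rfl⟩
  · exact ⟨x₁, rfl⟩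
  · exact ⟨x₂, rfl⟩

theorem Km.eq' (H : Km A₁ B₁ A₂ B₂ s x₁ x₂ τ) (φ : K →ₐ[ℂ] Ω) :
    φ τ ^ 2 * (φ x₁ ^ 3 + aeval (φ s) A₁ * φ x₁ + aeval (φ s) B₁) =
      φ x₂ ^ 3 + aeval (φ s) A₂ * φ x₂ + aeval (φ s) B₂ := by
  have := congrArg φ H.eq
  simpa [aeval_algHom_apply] using this

theorem mem_acl_one (s₀ : Ω) : s₀ ∈ acl {s₀} := subset_acl _ rfl

theorem root_mem {s₀ a : Ω} {A B : ℂ[X]} (h : a ^ 3 + aeval s₀ A * a + aeval s₀ B = 0) :
    a ∈ acl {s₀} :=
  mem_acl_of_cubic (aeval_mem _ (mem_acl_one s₀) A) (aeval_mem _ (mem_acl_one s₀) B) h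

theorem Km.T (H : Km A₁ B₁ A₂ B₂ s x₁ x₂ τ) (φ : K →ₐ[ℂ] Ω) {a b : Ω}
    (ha : a ^ 3 + aeval (φ s) A₁ * a + aeval (φ s) B₁ = 0)
    (hb : b ^ 3 + aeval (φ s) A₂ * b + aeval (φ s) B₂ = 0) :
    cub a (aeval (φ s) A₁) (φ x₁) ≠ 0 ∧ cub b (aeval (φ s) A₂) (φ x₂) ≠ 0 ∧ φ τ ≠ 0 ∧
      cub b (aeval (φ s) A₂) (φ x₂) = φ τ ^ 2 * cub a (aeval (φ s) A₁) (φ x₁) := by
  have hx := indep_acl (H.indep φ)
  have h1 := (gen_ne _ hx (root_mem ha) (aeval_mem _ (mem_acl_one _) A₁)).2.2.1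
  have h2 := (gen_ne _ hx (root_mem hb) (aeval_mem _ (mem_acl_one _) A₂)).2.2.2.2.2
  have h3 : cub b (aeval (φ s) A₂) (φ x₂) = φ τ ^ 2 * cub a (aeval (φ s) A₁) (φ x₁) := by
    rw [cub_root ha, cub_root hb, H.eq' φ]
  refine ⟨h1, h2, ?_, h3⟩
  intro h0
  rw [h0] at h3
  exact h2 (by simpa using h3)

theorem Km.mem (H : Km A₁ B₁ A₂ B₂ s x₁ x₂ τ) (φ : K →ₐ[ℂ] Ω) (y : K) :
    φ y ∈ IntermediateField.adjoin ℂ ((acl {φ s, φ τ} : Set Ω) ∪ {φ x₁, φ x₂}) := by
  refine map_mem_of_adjoin H.gen φ _ ?_ y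
  rintro x (rfl | rfl | rfl | rfl) <;> apply IntermediateField.subset_adjoin
  · exact Or.inl (subset_acl _ (by simp))
  · exact Or.inr (by simp)
  · exact Or.inr (by simp)
  · exact Or.inl (subset_acl _ (by simp))

section
variable [IsAlgClosed Ω] [IsAlgClosed E] (Λ : Line Ω E) (h3 : Algebra.trdeg ℂ Ω = 3)
  (H : Km A₁ B₁ A₂ B₂ s x₁ x₂ τ) (c : (K →ₐ[ℂ] Ω) → ℚ) (hc : Λ.Adm c) (hne : ¬ ∀ ψ, c ψ = 0)

end

end

end Pool.Agent.MP_1c689d_ag.FP

end

section

set_option autoImplicit false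

namespace Pool.Agent.MP_1c689d_ag.FP

noncomputable section

open Polynomial

variable {Ω E : Type} [Field Ω] [Field E] [Algebra ℂ Ω] [Algebra ℂ E] [Algebra Ω E]
  [IsScalarTower ℂ Ω E] {K : Type} [Field K] [Algebra ℂ K]

/-- changing the sign of a square root changes the sign of the class -/
theorem sign_move [IsAlgClosed Ω] [IsAlgClosed E] (Λ : Line Ω E) (h3 : Algebra.trdeg ℂ Ω = 3)
    (c : (K →ₐ[ℂ] Ω) → ℚ) (hc : Λ.Adm c) (hne : ¬ ∀ ψ, c ψ = 0) (φ : K →ₐ[ℂ] Ω)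
    (hφ : acl (Set.range φ) = ⊤) (w₀ w₁ t θ : Ω)
    (hK : ∀ x, φ x ∈ IntermediateField.adjoin ℂ ((acl {w₀, w₁} : Set Ω) ∪ {t, θ}))
    (h0 : θ ^ 2 ∈ IntermediateField.adjoin ℂ (insert t (acl {w₀, w₁} : Set Ω))) :
    ∃ χ : Ω →ₐ[ℂ] Ω, (∀ x ∈ acl {w₀, w₁}, χ x = x) ∧ χ t = t ∧ χ θ = -θ ∧
      c (χ.comp φ) = -c φ := by
  obtain h | ⟨χ, h1, h2, h4, -, h5⟩ := quad Λ h3 c hc φ hφ w₀ w₁ t θ (-θ ^ 2) 0 hK (neg_mem h0)
    (zero_mem _) (by ring)
  · exact absurd h hne
  exact ⟨χ, h1, h2, by simpa using h4, h5⟩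

theorem mem_adj_insert {S : Set Ω} {t x : Ω} (h : x ∈ acl S) :
    x ∈ IntermediateField.adjoin ℂ (insert t (acl S : Set Ω)) :=
  IntermediateField.subset_adjoin _ _ (Or.inr h)

theorem mem_adj_self {S : Set Ω} {t : Ω} : t ∈ IntermediateField.adjoin ℂ (insert t S) :=
  IntermediateField.subset_adjoin _ _ (Or.inl rfl)

variable {A₁ B₁ A₂ B₂ : ℂ[X]} {s x₁ x₂ τ : K}

end

end Pool.Agent.MP_1c689d_ag.FP

end

section

set_option autoImplicit false

namespace Pool.Agent.MP_1c689d_ag.FP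

noncomputable section

open Polynomial

variable {Ω E : Type} [Field Ω] [Field E] [Algebra ℂ Ω] [Algebra ℂ E] [Algebra Ω E]
  [IsScalarTower ℂ Ω E] {K : Type} [Field K] [Algebra ℂ K]

end

end Pool.Agent.MP_1c689d_ag.FP

end

section

set_option autoImplicit false

namespace Pool.Agent.MP_1c689d_ag.FP

noncomputable section

open Polynomial

theorem Poly2_clear {R : Type} [CommRing R] [IsDomain R] (p : (FractionRing R)[X]) :
    ∃ (c : R) (q : R[X]), c ≠ 0 ∧
      q.map (algebraMap R (FractionRing R)) = C (algebraMap R (FractionRing R) c) * p := by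
  obtain ⟨b, hb, h⟩ := IsLocalization.integerNormalization_spec (nonZeroDivisors R) p
  refine ⟨b, _, nonZeroDivisors.ne_zero hb, h.trans ?_⟩
  rw [← smul_eq_C_mul, algebraMap_smul]

theorem Poly2_rad {R : Type} [CommRing R] [IsDomain R] [CharZero R] (δ : R[X]) (hδ : δ ≠ 0) :
    ∃ (μ u v w : R[X]) (σ₀ σ₁ : R) (e : ℕ), μ ≠ 0 ∧ σ₀ ≠ 0 ∧ σ₁ ≠ 0 ∧
      C σ₀ * μ ^ e = δ * w ∧ u * μ + v * derivative μ = C σ₁ := by
  have hι : Function.Injective (algebraMap R (FractionRing R)) := IsFractionRing.injective _ _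
  have hinj := map_injective _ hι
  have : CharZero (FractionRing R) := charZero_of_injective_algebraMap hι
  obtain ⟨ρ, e, hρ, -, hd⟩ := exists_squarefree_dvd_pow_of_ne_zero
    ((Polynomial.map_ne_zero_iff hι).2 hδ)
  obtain ⟨c, μ, hc, hμ⟩ := Poly2_clear ρ
  have hcu : IsUnit (C (algebraMap R (FractionRing R) c)) :=
    isUnit_C.2 ((map_ne_zero_iff _ hι).2 hc).isUnit
  have hsep : (μ.map (algebraMap R (FractionRing R))).Separable := by
    rw [hμ]
    exact Separable.unit_mul hcu (PerfectField.separable_iff_squarefree.2 hρ)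
  have hd' : δ.map (algebraMap R (FractionRing R)) ∣
      (μ.map (algebraMap R (FractionRing R))) ^ e := by
    rw [hμ, mul_pow]
    exact hd.mul_left _
  obtain ⟨w, hw⟩ := hd'
  obtain ⟨σ₀, w', h0, hw'⟩ := Poly2_clear w
  obtain ⟨u, v, huv⟩ := hsep
  obtain ⟨c₁, u', h1, hu'⟩ := Poly2_clear u
  obtain ⟨c₂, v', h2, hv'⟩ := Poly2_clear v
  refine ⟨μ, C c₂ * u', C c₁ * v', w', σ₀, c₁ * c₂, e, ?_, h0, mul_ne_zero h1 h2, hinj ?_, hinj ?_⟩
  · rintro rfl
    rw [Polynomial.map_zero] at hμ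
    exact mul_ne_zero hcu.ne_zero hρ.ne_zero hμ.symm
  · simp only [Polynomial.map_mul, Polynomial.map_pow, map_C, hw, hw']
    ring
  · simp only [Polynomial.map_mul, Polynomial.map_add, map_C, hu', hv', map_mul,
      ← derivative_map]
    linear_combination (C (algebraMap R (FractionRing R) c₁) *
      C (algebraMap R (FractionRing R) c₂)) * huv

/-- Normal form of the complement of a plane curve.  Regard `δ` over the field `RatFunc ℂ`; let
`μ ∈ ℂ[X][X]` be a multiple by a non-zero element of `ℂ[X]` of the radical of `δ` (squarefree,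
hence separable in characteristic zero), so that there are non-zero `σ₀ σ₁ : ℂ[X]`, `e : ℕ` with
`δ ∣ C σ₀ * μ ^ e` and `u * μ + v * derivative μ = C σ₁`.  Let `σ = σ₀ * σ₁ * μ.leadingCoeff`,
`T` its set of roots, `m a = C (lc a)⁻¹ * μ.map (evalRingHom a)`, `ε = C σ * μ`. -/
theorem poly2 (δ : ℂ[X][X]) (hδ : δ ≠ 0) :
    ∃ (T : Finset ℂ) (n : ℕ) (m : ℂ → ℂ[X]) (ε : ℂ[X][X]), ε ≠ 0 ∧
      (∀ a ∉ T, (m a).Monic ∧ (m a).natDegree = n ∧ (m a).Separable) ∧
      (∀ i, ContinuousOn (fun a => (m a).coeff i) (↑T : Set ℂ)ᶜ) ∧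
      (∀ a b, ε.evalEval a b ≠ 0 → a ∉ T ∧ (m a).eval b ≠ 0) ∧
      ∀ a b, a ∉ T → (m a).eval b ≠ 0 → δ.evalEval a b ≠ 0 := by
  classical
  obtain ⟨μ, u, v, w, σ₀, σ₁, e, hμ, h0, h1, hw, huv⟩ := Poly2_rad δ hδ
  have hσ : σ₀ * σ₁ * μ.leadingCoeff ≠ 0 :=
    mul_ne_zero (mul_ne_zero h0 h1) (leadingCoeff_ne_zero.2 hμ)
  have hT : ∀ a, a ∉ (σ₀ * σ₁ * μ.leadingCoeff).roots.toFinset ↔
      (σ₀.eval a ≠ 0 ∧ σ₁.eval a ≠ 0) ∧ μ.leadingCoeff.eval a ≠ 0 := by
    intro a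
    rw [Multiset.mem_toFinset, mem_roots hσ, IsRoot.def, eval_mul, eval_mul, ← ne_eq,
      mul_ne_zero_iff, mul_ne_zero_iff]
  refine ⟨(σ₀ * σ₁ * μ.leadingCoeff).roots.toFinset, μ.natDegree,
    fun a => C (μ.leadingCoeff.eval a)⁻¹ * μ.map (evalRingHom a),
    C (σ₀ * σ₁ * μ.leadingCoeff) * μ, mul_ne_zero (C_ne_zero.2 hσ) hμ, fun a ha => ?_,
    fun i => ?_, fun a b h => ?_, fun a b ha h => ?_⟩
  · obtain ⟨⟨-, ha1⟩, ha2⟩ := (hT a).1 ha
    have ha3 : evalRingHom a μ.leadingCoeff ≠ 0 := ha2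
    refine ⟨monic_C_mul_of_mul_leadingCoeff_eq_one ?_, ?_, ?_⟩
    · rw [leadingCoeff_map_of_leadingCoeff_ne_zero _ ha3]
      exact inv_mul_cancel₀ ha2
    · rw [natDegree_C_mul (inv_ne_zero ha2), natDegree_map_of_leadingCoeff_ne_zero _ ha3]
    · refine Separable.unit_mul (isUnit_C.2 (inv_ne_zero ha2).isUnit) ?_
      have h2 := congrArg (Polynomial.map (evalRingHom a)) huv
      simp only [Polynomial.map_mul, Polynomial.map_add, map_C, ← derivative_map,
        coe_evalRingHom] at h2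
      refine ⟨C (σ₁.eval a)⁻¹ * u.map (evalRingHom a), C (σ₁.eval a)⁻¹ * v.map (evalRingHom a), ?_⟩
      rw [mul_assoc, mul_assoc, ← mul_add, h2, ← C_mul, inv_mul_cancel₀ ha1, C_1]
  · simp only [coeff_C_mul, coeff_map, coe_evalRingHom]
    refine ContinuousOn.mul (ContinuousOn.inv₀ (Polynomial.continuous _).continuousOn
      fun a ha => ((hT a).1 ha).2) (Polynomial.continuous _).continuousOn
  · rw [evalEval_mul, evalEval_C, eval_mul, eval_mul, mul_ne_zero_iff, mul_ne_zero_iff,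
      mul_ne_zero_iff] at h
    refine ⟨(hT a).2 h.1, ?_⟩
    rw [eval_mul, eval_C, map_evalRingHom_eval]
    exact mul_ne_zero (inv_ne_zero h.1.2) h.2
  · rw [eval_mul, eval_C, map_evalRingHom_eval] at h
    have h2 := congrArg (evalEval a b) hw
    rw [evalEval_mul, evalEval_mul, evalEval_C, evalEval_pow] at h2
    intro h3
    rw [h3, zero_mul] at h2
    exact mul_ne_zero ((hT a).1 ha).1.1 (pow_ne_zero _ (right_ne_zero_of_mul h)) h2

end

end Pool.Agent.MP_1c689d_ag.FP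

end

section

set_option autoImplicit false

namespace Pool.Agent.MP_1c689d_ag.FP

noncomputable section

open Polynomial

variable {F : Type} [Field F] [Algebra ℂ F] {N : ℕ} {Ω : Type} [Field Ω] [Algebra ℂ Ω]

theorem T2_nat {A B : Type} [CommRing A] [Algebra ℂ A] [CommRing B] [Algebra ℂ B]
    (φ : A →ₐ[ℂ] B) (x y : A) (f : ℂ[X][X]) :
    φ (aevalAeval x y f) = aevalAeval (φ x) (φ y) f := by
  have : φ.comp (aevalAeval x y) = aevalAeval (φ x) (φ y) :=
    Polynomial.algHom_ext' (by ext; simp) (by simp)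
  exact DFunLike.congr_fun this f

theorem T2_ne {a b : Ω} (hab : AlgebraicIndependent ℂ ![a, b]) {f : ℂ[X][X]} (hf : f ≠ 0) :
    aevalAeval a b f ≠ 0 := by
  intro h
  apply hf
  apply (Polynomial.Bivariate.equivMvPolynomial ℂ).injective
  rw [map_zero]
  apply hab
  have := T2_nat (MvPolynomial.aeval ![a, b] : MvPolynomial (Fin 2) ℂ →ₐ[ℂ] Ω)
    (MvPolynomial.X 0) (MvPolynomial.X 1) f
  simp only [MvPolynomial.aeval_X, Matrix.cons_val_zero, Matrix.cons_val_one] at this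
  rw [map_zero, ← h, ← this]
  rfl

theorem T2_mem {R : Subalgebra ℂ Ω} {a b : Ω} (ha : a ∈ R) (hb : b ∈ R) (f : ℂ[X][X]) :
    aevalAeval a b f ∈ R := by
  have := T2_nat R.val ⟨a, ha⟩ ⟨b, hb⟩ f
  simp only [Subalgebra.coe_val] at this
  rw [← this]
  exact Subtype.property _

theorem T2_pv {R : Subalgebra ℂ Ω} {a b : Ω} (ha : a ∈ R) (hb : b ∈ R) (f : ℂ[X][X])
    (p : Pts R) : pv p (aevalAeval a b f) = f.evalEval (pv p a) (pv p b) := by
  rw [pv_eq p (T2_mem ha hb f), pv_eq p ha, pv_eq p hb, ← coe_aevalAeval_eq_evalEval,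
    ← T2_nat p.h]
  congr 1
  exact Subtype.ext (T2_nat R.val ⟨a, ha⟩ ⟨b, hb⟩ f).symm

theorem T2_cover {A B C : Type} [TopologicalSpace A] [TopologicalSpace B] [TopologicalSpace C]
    {π : A → B} (hπ : IsCoveringMap π) {e : B → C} (he : Topology.IsEmbedding e) (V : Set C)
    (hV : V ⊆ Set.range e) : IsCoveringMap (V.restrictPreimage (e ∘ π)) := by
  have hs : Function.Surjective (V.restrictPreimage e) := by
    rintro ⟨v, hv⟩
    obtain ⟨x, rfl⟩ := hV hv
    exact ⟨⟨x, hv⟩, rfl⟩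
  exact (hπ.restrictPreimage (e ⁻¹' V)).homeomorph_comp
    ((he.restrictPreimage V).toHomeomorphOfSurjective hs)

theorem T2_plane {a b : Ω} (hab : AlgebraicIndependent ℂ ![a, b]) :
    IsHomeomorph (fun p : Pts (Algebra.adjoin ℂ ({a, b} : Set Ω)) => (pv p a, pv p b)) := by
  have ha : a ∈ Algebra.adjoin ℂ ({a, b} : Set Ω) := Algebra.subset_adjoin (by simp)
  have hb : b ∈ Algebra.adjoin ℂ ({a, b} : Set Ω) := Algebra.subset_adjoin (by simp)
  have h1 := pts_indep ![a, b] hab (Algebra.adjoin ℂ ({a, b} : Set Ω))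
    (by congr 1; ext x; simp [or_comm]) (fun i => by fin_cases i <;> assumption)
  have h2 := (Homeomorph.finTwoArrow (X := ℂ)).isHomeomorph.comp h1
  convert h2 using 1
  funext p
  rw [pv_eq p ha, pv_eq p hb]
  rfl

/-- Step 1.  `R₀ = ℂ[a, b]`; `gcov` gives `δ, R₁, R₂`.  Write `δ = δ₀(a, b)` with
`δ₀ : ℂ[X][X]` (`Polynomial.aevalAeval`, which is injective by independence), take `T, m, ε`
from `poly2`, and `R₃ = R₂[1/ε(a,b)]`.  The map `e : Pts R₁ → ℂ × ℂ`, `p ↦ (p a, p b)` is an open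
embedding with image `δ₀ ≠ 0` (`loc_sub`, `pts_indep`), so `e ∘ res` is a covering map on that
image, which contains `V = {(a,b) | a ∉ T, m a b ≠ 0}`; its `restrictPreimage` to `V` is a covering
`π : S → V`, and `S` is acyclic in degree three by `t2top`.  `res : Pts R₃ → Pts R₂` factors through
`S`. -/
theorem surf_acyc (a b : Ω) (hab : AlgebraicIndependent ℂ ![a, b]) (W : Finset Ω)
    (hW : ∀ w ∈ W, w ∈ acl {a, b}) :
    ∃ (R₂ R₃ : Subalgebra ℂ Ω) (h : R₂ ≤ R₃), R₃.FG ∧ (∀ w ∈ W, w ∈ R₂) ∧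
      ∀ c : Ch (Pts R₃) 3, bd c = 0 →
        ∃ w : Ch (Pts R₂) 4, bd w = push (res (Subalgebra.inclusion h)) c := by
  have ha : a ∈ Algebra.adjoin ℂ ({a, b} : Set Ω) := Algebra.subset_adjoin (by simp)
  have hb : b ∈ Algebra.adjoin ℂ ({a, b} : Set Ω) := Algebra.subset_adjoin (by simp)
  have hfg : (Algebra.adjoin ℂ ({a, b} : Set Ω)).FG :=
    Subalgebra.fg_def.2 ⟨{a, b}, Set.toFinite _, rfl⟩
  have hrg : Algebra.adjoin ℂ ({a, b} : Set Ω) ≤ (aevalAeval a b : ℂ[X][X] →ₐ[ℂ] Ω).range := by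
    refine Algebra.adjoin_le ?_
    rintro x (rfl | rfl)
    · exact ⟨C X, aevalAeval_X _ _⟩
    · exact ⟨X, aevalAeval_Y _ _⟩
  have hpl := T2_plane hab
  obtain ⟨δ, θ, n, R₁, R₂, h12, hδ, hδ0, h1, h2, hW2, -, hcov, -⟩ :=
    gcov (Algebra.adjoin ℂ ({a, b} : Set Ω)) W fun w hw => mem_acl_iff_adjoin.1 (hW w hw)
  generalize Algebra.adjoin ℂ ({a, b} : Set Ω) = R₀ at ha hb hfg hrg hpl hδ h1
  obtain ⟨δ₀, rfl⟩ := hrg hδ
  have hδ₀ : δ₀ ≠ 0 := fun h => hδ0 (by rw [h]; exact map_zero _)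
  obtain ⟨T, k, m, ε, hε, hm, hc, hε1, hε2⟩ := poly2 δ₀ hδ₀
  have h01 : R₀ ≤ R₁ := fun x hx => h1 ▸ Algebra.subset_adjoin (Set.mem_insert_of_mem _ hx)
  obtain ⟨he1, he2⟩ := loc_sub R₀ R₁ _ hδ hδ0 h1 h01
  have he := hpl.isEmbedding.comp he1.isEmbedding
  let V : Set (ℂ × ℂ) := {q | q.1 ∉ T ∧ (m q.1).eval q.2 ≠ 0}
  have hV : V ⊆ Set.range ((fun p : Pts R₀ => (pv p a, pv p b)) ∘
      res (Subalgebra.inclusion h01)) := by
    intro q hq
    obtain ⟨p, rfl⟩ := hpl.surjective q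
    have : p ∈ Set.range (res (Subalgebra.inclusion h01)) := by
      rw [he2]
      have := hε2 _ _ hq.1 hq.2
      rw [← T2_pv ha hb, pv_eq p (T2_mem ha hb δ₀)] at this
      exact this
    obtain ⟨p', rfl⟩ := this
    exact ⟨p', rfl⟩
  have hA := t2top T k m hm hc _ (T2_cover hcov he V hV)
  have ha2 : a ∈ R₂ := h12 (h01 ha)
  have hb2 : b ∈ R₂ := h12 (h01 hb)
  have h23 : R₂ ≤ Algebra.adjoin ℂ (insert (aevalAeval a b ε)⁻¹ (R₂ : Set Ω)) :=
    fun x hx => Algebra.subset_adjoin (Set.mem_insert_of_mem _ hx)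
  refine ⟨R₂, _, h23, fg_insert _ (h2 ▸ fg_insert _ (h1 ▸ fg_insert _ hfg _) _) _, hW2,
    fun c hc0 => ?_⟩
  have hr := (loc_sub R₂ _ _ (T2_mem ha2 hb2 ε) (T2_ne hab hε) rfl h23).2
  have hmem : ∀ p, res (Subalgebra.inclusion h23) p ∈
      (((fun p : Pts R₀ => (pv p a, pv p b)) ∘ res (Subalgebra.inclusion h01)) ∘
        res (Subalgebra.inclusion h12)) ⁻¹' V := by
    intro p
    have k1 : res (Subalgebra.inclusion h23) p ∈ Set.range (res (Subalgebra.inclusion h23)) :=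
      ⟨p, rfl⟩
    rw [hr] at k1
    generalize res (Subalgebra.inclusion h23) p = q at k1
    have k2 : pv q (aevalAeval a b ε) ≠ 0 := by
      rw [pv_eq q (T2_mem ha2 hb2 ε)]
      exact k1
    rw [T2_pv ha2 hb2] at k2
    have k3 := hε1 _ _ k2
    simp only [Set.mem_preimage, Function.comp_apply, pv_res h01 _ ha, pv_res h01 _ hb,
      pv_res h12 _ (h01 ha), pv_res h12 _ (h01 hb)]
    exact k3
  let g : C(_, _) := ⟨Set.codRestrict _ _ hmem,
    (res (Subalgebra.inclusion h23)).continuous.codRestrict hmem⟩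
  obtain ⟨w, hw⟩ := hA (push g c) (by rw [bd_push, hc0, map_zero])
  refine ⟨push (incl _) w, ?_⟩
  rw [bd_push, hw, push_push]
  rfl

/-- Points defined over a field of transcendence degree two are null (push the filling chain of
`surf_acyc` along `ev ξ R₂ z`, `ev_res`; if `z` is not a point then `pu` is zero). -/
theorem null_nondom (ξ : Fin (N + 1) → F) (z : Fin (N + 1) → Ω) (a b : Ω)
    (hab : AlgebraicIndependent ℂ ![a, b]) (hz : ∀ i, z i ∈ acl {a, b}) :
    Null ξ (Finsupp.single z 1) := by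
  classical
  obtain ⟨R₂, R₃, h, hfg, hW, hA⟩ := surf_acyc a b hab (Finset.univ.image z) (fun w hw => by
    obtain ⟨i, -, rfl⟩ := Finset.mem_image.1 hw
    exact hz i)
  have h2 : ∀ i, z i ∈ R₂ := fun i => hW _ (Finset.mem_image_of_mem z (Finset.mem_univ i))
  have h3 : ∀ i, z i ∈ R₃ := fun i => h (h2 i)
  refine ⟨R₃, hfg, fun x hx i => ?_, fun c hc => ?_⟩
  · rw [Finset.mem_singleton.1 (Finsupp.support_single_subset hx)]
    exact h3 i
  · rw [Finsupp.linearCombination_single, one_smul]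
    by_cases hp : IsPt ξ z
    · obtain ⟨w, hw⟩ := hA c hc
      refine ⟨push (ev ξ R₂ z hp h2) w, ?_⟩
      rw [bd_push, hw, push_push, ev_res ξ h z hp h2 h3, pu_eq ξ R₃ z hp h3]
    · refine ⟨0, ?_⟩
      rw [map_zero, pu, dif_neg (fun k => hp k.1)]
      rfl

end

end Pool.Agent.MP_1c689d_ag.FP

end

section

set_option autoImplicit false

namespace Pool.Agent.MP_1c689d_ag.FP

noncomputable section

open Polynomial

variable {F : Type} [Field F] [Algebra ℂ F] {N : ℕ} {Ω : Type} [Field Ω] [Algebra ℂ Ω]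

theorem T3_mem (ξ : Fin (N + 1) → F) (x : Fin (N + 1) → Ω) (i : Fin (N + 1)) (hi : x i = 1)
    (hp : IsPt ξ x) (R : Subalgebra ℂ Ω) (hm : ∀ j, x j ∈ R) (f g : MvPolynomial (Fin (N + 1)) ℂ)
    {d : ℕ} (hg : g.IsHomogeneous d)
    (hfg : ∀ y : Fin (N + 1) → ℂ, y i = 1 → MvPolynomial.aeval y g = MvPolynomial.aeval y f)
    (hδ : MvPolynomial.aeval x f ∈ R) (p : Pts R) :
    ev ξ R x hp hm p ∈ Zop ξ (MvPolynomial.X i * g) ↔ p.h ⟨_, hδ⟩ ≠ 0 := by
  have h1 : ev ξ R x hp hm p = Quotient.mk (rl ξ) (evC ξ R x hp hm p) := rfl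
  rw [h1, mem_Zop ξ ((MvPolynomial.isHomogeneous_X ℂ i).mul hg)]
  have h2 : (evC ξ R x hp hm p).1 = fun j => p.h ⟨x j, hm j⟩ := rfl
  have h3 : p.h ⟨x i, hm i⟩ = 1 := by
    rw [show (⟨x i, hm i⟩ : R) = 1 from Subtype.ext hi, map_one]
  have h4 : (⟨_, hδ⟩ : R) = MvPolynomial.aeval (fun j => (⟨x j, hm j⟩ : R)) f := by
    apply Subtype.val_injective
    have := MvPolynomial.comp_aeval_apply (f := fun j => (⟨x j, hm j⟩ : R)) R.val f
    simpa using this.symm
  rw [h2, ← MvPolynomial.coe_aeval_eq_eval, h4, MvPolynomial.comp_aeval_apply]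
  change MvPolynomial.aeval _ _ ≠ 0 ↔ _
  rw [map_mul, MvPolynomial.aeval_X, h3, one_mul, hfg _ h3]

/-- If the generic point is null then `H³` dies on a dense Zariski open set.
Let `x k = φ (ξ k / ξ i)`, `R₀ = ℂ[x]`, `R` the algebra of `Null`, `W` a finite generating set of
`R`; `gcov` gives `δ, R₁, R₂ ≥ R`.  Write `δ = aeval x f`, let `g` be given by `exists_homog`, and
`Q = X i * g`.  The open embedding `ev ξ R₁ x = ev ξ R₀ x ∘ res` (`chart_embedding`, `loc_sub`,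
`ev_res`) has image `Zop ξ Q`; it is non-empty by `pts_nonempty`.  Let `γ : C(Zop ξ Q, Pts R₁)` be
its inverse.  For a `3`-cycle `c` of `Zop ξ Q`, `trf` gives a cycle `c'` of `Pts R₂` over
`n • push γ c`, and `Null` applied to `push res c'` shows that `n • push incl c` is a boundary;
conclude with `restrictionZero_of_cycles` and `ext1_bd_zero`. -/
theorem fin_of_null (ξ : Fin (N + 1) → F) (i : Fin (N + 1)) (hi : ξ i ≠ 0) (φ : F →ₐ[ℂ] Ω)
    (halg : acl (Set.range fun k => φ (ξ k / ξ i)) = ⊤)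
    (h : Null ξ (Finsupp.single (fun k => φ (ξ k / ξ i)) 1)) :
    ∃ (Q : MvPolynomial (Fin (N + 1)) ℂ) (d : ℕ), Q.IsHomogeneous d ∧
      MvPolynomial.aeval ξ Q ≠ 0 ∧ (Zop ξ Q).Nonempty ∧ RestrictionZero (Zop ξ Q) 2 := by
  obtain ⟨hp, hx⟩ := isPt_hom ξ φ i hi
  have hxi : φ (ξ i / ξ i) = 1 := by rw [div_self hi, map_one]
  generalize hxe : (fun k => φ (ξ k / ξ i)) = x at halg h hp hx
  replace hxi : x i = 1 := by rw [← hxe]; exact hxi
  obtain ⟨R, ⟨W, hW⟩, hRx, hN⟩ := h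
  obtain ⟨R₀, h0⟩ : ∃ R₀, R₀ = Algebra.adjoin ℂ (Set.range x) := ⟨_, rfl⟩
  have hm : ∀ j, x j ∈ R₀ := fun j => h0 ▸ Algebra.subset_adjoin ⟨j, rfl⟩
  have hfg0 : R₀.FG := by
    rw [h0, Subalgebra.fg_def]
    exact ⟨_, Set.finite_range x, rfl⟩
  obtain ⟨δ, θ, n, R₁, R₂, h12, hδ, hδ0, h1, h2, hW2, hn, hcov, hfib⟩ := gcov R₀ W (fun w _ => by
    rw [h0, ← mem_acl_iff_adjoin, halg]
    exact IntermediateField.mem_top)
  have h01 : R₀ ≤ R₁ := fun y hy => h1 ▸ Algebra.subset_adjoin (Set.mem_insert_of_mem _ hy)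
  have hR2 : R ≤ R₂ := by
    rw [← hW]
    exact Algebra.adjoin_le fun w hw => hW2 w hw
  obtain ⟨f, rfl⟩ : ∃ f, MvPolynomial.aeval x f = δ := by
    have := hδ
    rw [h0, Algebra.adjoin_range_eq_range_aeval] at this
    exact this
  obtain ⟨d, g, hg, hfg⟩ := exists_homog i f
  have hQ := (MvPolynomial.isHomogeneous_X ℂ i).mul hg
  obtain ⟨e1, e2⟩ := chart_embedding ξ x i hxi hx hp R₀ h0 hm
  obtain ⟨e3, e4⟩ := loc_sub R₀ R₁ _ hδ hδ0 h1 h01
  have hm1 : ∀ j, x j ∈ R₁ := fun j => h01 (hm j)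
  have e5 := ev_res ξ h01 x hp hm hm1
  have e6 : Topology.IsEmbedding (ev ξ R₁ x hp hm1) := by
    rw [← e5]
    exact e1.isEmbedding.comp e3.isEmbedding
  have e7 : Set.range (ev ξ R₁ x hp hm1) = Zop ξ (MvPolynomial.X i * g) := by
    rw [← e5]
    ext z
    constructor
    · rintro ⟨p, rfl⟩
      refine (T3_mem ξ x i hxi hp R₀ hm f g hg (hfg ℂ) hδ _).2 ?_
      have : res (Subalgebra.inclusion h01) p ∈ Set.range (res (Subalgebra.inclusion h01)) :=
        ⟨p, rfl⟩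
      rw [e4] at this
      exact this
    · intro hz
      have h3 : z ∈ Zop ξ (MvPolynomial.X i) := by
        obtain ⟨y, hy, h4⟩ := hz
        rw [map_mul] at h4
        exact ⟨y, hy, left_ne_zero_of_mul h4⟩
      rw [← e2] at h3
      obtain ⟨p, rfl⟩ := h3
      have h5 : p ∈ Set.range (res (Subalgebra.inclusion h01)) := by
        rw [e4]
        exact (T3_mem ξ x i hxi hp R₀ hm f g hg (hfg ℂ) hδ _).1 hz
      obtain ⟨q, rfl⟩ := h5
      exact ⟨q, rfl⟩
  refine ⟨MvPolynomial.X i * g, 1 + d, hQ, fun hq => hδ0 ?_, ?_, ?_⟩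
  · have := hp.2 _ _ hQ hq
    rwa [map_mul, MvPolynomial.aeval_X, hxi, one_mul, hfg Ω x hxi] at this
  · obtain ⟨p⟩ := pts_nonempty R₁ (h1 ▸ fg_insert R₀ hfg0 _)
    rw [← e7]
    exact ⟨_, p, rfl⟩
  · rw [← e7]
    refine restrictionZero_of_cycles _ _ fun ψ hψ c hc => ?_
    let γ : C(Set.range (ev ξ R₁ x hp hm1), Pts R₁) := ⟨_, e6.toHomeomorph.symm.continuous⟩
    have hγ : (ev ξ R₁ x hp hm1).comp γ = incl _ := by
      ext1 z
      exact congrArg Subtype.val (e6.toHomeomorph.apply_symm_apply z)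
    obtain ⟨c', hc', h6⟩ := trf _ hcov n hfib (push γ c) (by rw [bd_push, hc, map_zero])
    obtain ⟨w, hw⟩ := hN (push (res (Subalgebra.inclusion hR2)) c')
      (by rw [bd_push, hc', map_zero])
    have hxR : ∀ j, x j ∈ R := hRx x (by simp)
    rw [Finsupp.linearCombination_single, one_smul, pu_eq ξ R x hp hxR, push_push,
      ev_res ξ hR2 x hp hxR (fun j => hR2 (hxR j)),
      ← ev_res ξ h12 x hp hm1 (fun j => hR2 (hxR j)), ← push_push, h6, map_smul, push_push,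
      hγ] at hw
    have h7 := ext1_bd_zero ψ hψ w
    rw [hw, map_smul, smul_eq_mul, mul_eq_zero] at h7
    exact h7.resolve_left (by exact_mod_cast hn.ne')

end

end Pool.Agent.MP_1c689d_ag.FP

end

section

set_option autoImplicit false

namespace Pool.Agent.MP_1c689d_ag.FP

noncomputable section

open Polynomial

theorem Lcs_cover {X : Type} [TopologicalSpace X]
    (h : ∀ x : X, ∃ (Y : Type) (_ : TopologicalSpace Y) (e : Y → X),
      StronglyLocallyContractibleSpace Y ∧ Topology.IsOpenEmbedding e ∧ x ∈ Set.range e) :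
    StronglyLocallyContractibleSpace X := by
  refine ⟨fun x => Filter.hasBasis_self.2 fun t ht => ?_⟩
  obtain ⟨Y, _, e, _, he, y, rfl⟩ := h x
  obtain ⟨s, ⟨h1, h2⟩, h3⟩ := (contractible_basis y).mem_iff.1 (he.continuous.continuousAt ht)
  exact ⟨e '' s, he.isOpenMap.image_mem_nhds h1,
    (he.isEmbedding.homeomorphImage s).symm.contractibleSpace, Set.image_subset_iff.2 h3⟩

theorem Lcs_localHomeo {X Y : Type} [TopologicalSpace X] [TopologicalSpace Y] {f : X → Y}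
    (hf : IsLocalHomeomorph f) [StronglyLocallyContractibleSpace Y] :
    StronglyLocallyContractibleSpace X := by
  refine Lcs_cover fun x => ?_
  obtain ⟨e, hx, -⟩ := hf x
  exact ⟨e.source, inferInstance, Subtype.val,
    e.isOpenEmbedding_restrict.stronglyLocallyContractibleSpace,
    e.open_source.isOpenEmbedding_subtypeVal, ⟨x, hx⟩, rfl⟩

theorem Lcs_pi (n : ℕ) : StronglyLocallyContractibleSpace (Fin n → ℂ) :=
  .of_bases (fun _ => Metric.nhds_basis_ball) fun x r hr =>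
    (convex_ball x r).contractibleSpace ⟨x, Metric.mem_ball_self hr⟩

theorem Lcs_inducing {X Y : Type} [TopologicalSpace X] [TopologicalSpace Y] {φ : X → Y}
    (hc : Continuous φ) (h : ∀ (Z : Type) [TopologicalSpace Z] (k : Z → X),
      Continuous (φ ∘ k) → Continuous k) : Topology.IsInducing φ :=
  ⟨le_antisymm hc.le_induced (continuous_id_iff_le.1
    (@h X (TopologicalSpace.induced φ inferInstance) id continuous_induced_dom))⟩

theorem Lcs_cont {R : Type} [CommRing R] [Algebra ℂ R] (r : R[X]) :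
    Continuous fun q : Pts R × ℂ => r.eval₂ (q.1.h : R →+* ℂ) q.2 := by
  induction r using Polynomial.induction_on' with
  | add p q hp hq =>
    simp only [eval₂_add]
    exact hp.add hq
  | monomial n a =>
    simp only [eval₂_monomial]
    exact ((Pts.cont a).comp continuous_fst).mul (continuous_snd.pow n)

theorem Lcs_aeval {R S : Type} [CommRing R] [Algebra ℂ R] [CommRing S] [Algebra ℂ S]
    [Algebra R S] [IsScalarTower ℂ R S] (q : Pts S) (x : S) (r : R[X]) :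
    r.eval₂ ((res (IsScalarTower.toAlgHom ℂ R S) q).h : R →+* ℂ) (q.h x) = q.h (aeval x r) :=
  (hom_eval₂ r (algebraMap R S) (q.h : S →+* ℂ) x).symm

/-- A standard étale algebra is a local homeomorphism on points: with
`P : StandardEtalePresentation R S`, `Pts S` is homeomorphic to the open subset `g ≠ 0` of the
space of simple roots of the monic family `p ↦ P.f.map p.h` (`StandardEtalePair.homEquiv`,
`HasMap.isUnit_derivative_f`; `R` may be assumed non-trivial if it has a point), so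
`root_localHomeo` applies. -/
theorem etale_localHomeo {R S : Type} [CommRing R] [Algebra ℂ R] [CommRing S] [Algebra ℂ S]
    [Algebra R S] [IsScalarTower ℂ R S] [Algebra.IsStandardEtale R S] :
    IsLocalHomeomorph (res (IsScalarTower.toAlgHom ℂ R S)) := by
  obtain ⟨P⟩ : Nonempty (StandardEtalePresentation R S) := inferInstance
  have H := root_localHomeo P.f.natDegree (fun p : Pts R => P.f.map (p.h : R →+* ℂ))
    (fun p => ⟨P.monic_f.map _, P.monic_f.natDegree_map _⟩) fun i => by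
      simp only [coeff_map]
      exact Pts.cont _
  have hg : ∀ q : Pts S, q.h (aeval P.x P.g) ≠ 0 := fun q => (P.hasMap.2.map q.h).ne_zero
  let φ : Pts S → {q : Pts R × ℂ // (P.f.map (q.1.h : R →+* ℂ)).eval q.2 = 0 ∧
      (derivative (P.f.map (q.1.h : R →+* ℂ))).eval q.2 ≠ 0} := fun q =>
    ⟨(res (IsScalarTower.toAlgHom ℂ R S) q, q.h P.x), by
      rw [eval_map, Lcs_aeval, P.hasMap.1, map_zero], by
      rw [derivative_map, eval_map, Lcs_aeval]
      exact (P.hasMap.isUnit_derivative_f.map q.h).ne_zero⟩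
  have key : ∀ s : S, ∃ (r : R[X]) (n : ℕ), ∀ q : Pts S, q.h s =
      r.eval₂ ((φ q).1.1.h : R →+* ℂ) (φ q).1.2 /
        P.g.eval₂ ((φ q).1.1.h : R →+* ℂ) (φ q).1.2 ^ n := by
    intro s
    obtain ⟨r, n, h⟩ := P.exists_mul_aeval_x_g_pow_eq_aeval_x s
    refine ⟨r, n, fun q => ?_⟩
    simp only [φ, Lcs_aeval]
    rw [eq_div_iff (pow_ne_zero n (hg q)), ← map_pow, ← map_mul, h]
  have hφ : Topology.IsOpenEmbedding φ := by
    refine ⟨⟨Lcs_inducing (Continuous.subtype_mk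
      ((res _).continuous.prodMk (Pts.cont _)) _) fun Z _ k hk => ?_, fun q q' e => ?_⟩, ?_⟩
    · refine (Pts.continuous_iff k).2 fun s => ?_
      obtain ⟨r, n, h⟩ := key s
      simp only [h]
      have hk' := continuous_subtype_val.comp hk
      refine ((Lcs_cont r).comp hk').div (((Lcs_cont P.g).comp hk').pow n) fun z => ?_
      exact pow_ne_zero n ((Lcs_aeval (k z) P.x P.g).trans_ne (hg _))
    · refine Pts.ext fun s => ?_
      obtain ⟨r, n, h⟩ := key s
      rw [h, h, e]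
    · have : Set.range φ = {t | P.g.eval₂ (t.1.1.h : R →+* ℂ) t.1.2 ≠ 0} := by
        refine Set.Subset.antisymm ?_ ?_
        · rintro _ ⟨q, rfl⟩
          exact (Lcs_aeval q P.x P.g).trans_ne (hg _)
        · rintro ⟨⟨p, z⟩, h1, h2⟩ h3
          let _ : Algebra R ℂ := (p.h : R →+* ℂ).toAlgebra
          have h4 : P.HasMap z := ⟨(eval_map _ _).symm.trans h1, Ne.isUnit h3⟩
          let l : S →ₐ[R] ℂ := (P.lift z h4).comp P.equivRing.toAlgHom
          refine ⟨Pts.mk { (l : S →+* ℂ) with commutes' := fun c => ?_ },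
            Subtype.ext (Prod.ext (Pts.ext fun r => l.commutes r) ?_)⟩
          · show l _ = _
            rw [IsScalarTower.algebraMap_apply ℂ R S, l.commutes]
            exact p.h.commutes c
          · show P.lift z h4 (P.equivRing P.x) = z
            rw [P.equivRing_x, P.lift_X]
      rw [this]
      exact isOpen_ne_fun ((Lcs_cont P.g).comp continuous_subtype_val) continuous_const
  exact H.comp hφ.isLocalHomeomorph

/-- For `p : Pts R` apply `Algebra.IsSmoothAt.exists_isStandardEtale_mvPolynomial` to the prime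
`RingHom.ker p.h`; `loc_embedding`, `etale_localHomeo`, `pts_mvPolynomial` give an open
neighbourhood of `p` with an open embedding into `Fin n → ℂ`, where balls are convex, hence
contractible. -/
theorem pts_slc (R : Type) [CommRing R] [Algebra ℂ R] [Algebra.Smooth ℂ R] :
    StronglyLocallyContractibleSpace (Pts R) := by
  refine Lcs_cover fun p => ?_
  have : (RingHom.ker p.h).IsPrime := RingHom.ker_isPrime _
  obtain ⟨f, hf, n, _, _, _⟩ :=
    Algebra.IsSmoothAt.exists_isStandardEtale_mvPolynomial (R := ℂ) (p := RingHom.ker p.h)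
  have h1 := Lcs_pi n
  have h2 := (pts_mvPolynomial n).isOpenEmbedding.stronglyLocallyContractibleSpace
  obtain ⟨h3, h4⟩ := loc_embedding (IsScalarTower.toAlgHom ℂ R (Localization.Away f)) f
    (IsLocalization.Away.algebraMap_isUnit f) (IsLocalization.Away.surj f) fun r hr => by
      obtain ⟨⟨_, m, rfl⟩, h⟩ := (IsLocalization.map_eq_zero_iff (.powers f) _ r).1 hr
      exact ⟨m, h⟩
  exact ⟨_, inferInstance, _, Lcs_localHomeo
    (etale_localHomeo (R := MvPolynomial (Fin n) ℂ) (S := Localization.Away f)), h3, h4 ▸ hf⟩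

/-- Every point has a coordinate `y i ≠ 0`; then `ξ i ≠ 0` (otherwise `X i` is an equation), and
`chart_embedding` (with `isPt_hom` for the identity) gives an open embedding of `Pts (chart ξ i)`
whose image contains the point. -/
theorem pt_lc {F : Type} [Field F] [Algebra ℂ F] {N : ℕ} (ξ : Fin (N + 1) → F)
    (hsm : ∀ i, ξ i ≠ 0 → Algebra.Smooth ℂ (chart ξ i)) : LocallyContractibleSpace (Pt ξ) := by
  refine @StronglyLocallyContractibleSpace.locallyContractible _ _ (Lcs_cover fun y => ?_)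
  obtain ⟨x, rfl⟩ := Quotient.exists_rep y
  obtain ⟨i, hi⟩ := Function.ne_iff.1 x.2.1
  have h0 : ξ i ≠ 0 := fun e => hi (by
    simpa using x.2.2 1 (MvPolynomial.X i) (MvPolynomial.isHomogeneous_X ℂ i) (by simpa using e))
  have := hsm i h0
  obtain ⟨h1, h2⟩ := isPt_hom ξ (AlgHom.id ℂ F) i h0
  obtain ⟨h3, h4⟩ := chart_embedding ξ _ i (div_self h0) h2 h1 (chart ξ i) rfl
    fun j => Algebra.subset_adjoin ⟨j, rfl⟩
  exact ⟨_, inferInstance, _, pts_slc _, h3, h4 ▸ ⟨x, rfl, by simpa using hi⟩⟩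

end

end Pool.Agent.MP_1c689d_ag.FP

end

section

set_option autoImplicit false

namespace Pool.Agent.MP_1c689d_ag.FP

noncomputable section

open Polynomial

/-- Places exist: a local subring `A ∋ Ω` of `E` is dominated by a valuation subring `O`
(`LocalSubring.exists_le_valuationSubring`, or `Ideal.image_subset_nonunits_valuationSubring`:
for the subring `Ω[t]` and the proper ideal `(t)`).  If `E` is algebraic over `Ω(t)` and `t ≠ 0`
is a non-unit of `O` then the residue field is algebraic over `Ω` (normalise an algebraic relation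
of `x ∈ O` with coefficients in `Ω[t]` by the smallest power of `t`), hence equal to `Ω`
(`IsAlgClosed.algebraMap_bijective_of_isIntegral`); `ρ` is the residue map followed by the
inverse. -/
theorem exists_place {Ω E : Type} [Field Ω] [Field E] [Algebra Ω E] [IsAlgClosed Ω] (t : E)
    (ht : Transcendental Ω t) (alg : ∀ x : E, IsAlgebraic (IntermediateField.adjoin Ω {t}) x) :
    ∃ (P : Place Ω E) (h : t ∈ P.O), P.ρ ⟨t, h⟩ = 0 := by
  have ht0 : t ≠ 0 := by
    rintro rfl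
    exact ht isAlgebraic_zero
  let A : Subring E := (Algebra.adjoin Ω {t}).toSubring
  have htA : t ∈ A := Algebra.self_mem_adjoin_singleton Ω t
  have hI : Ideal.span {(⟨t, htA⟩ : A)} ≠ ⊤ := by
    rw [Ne, Ideal.span_singleton_eq_top, isUnit_iff_exists_inv]
    rintro ⟨⟨a, ha⟩, h⟩
    obtain ⟨f, rfl⟩ := Algebra.adjoin_mem_exists_aeval Ω t ha
    have h1 : t * aeval t f = 1 := congrArg Subtype.val h
    have h2 : X * f = 1 := transcendental_iff_injective.1 ht (by simpa using h1)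
    simpa using congrArg (eval 0) h2
  obtain ⟨O, hO, hn⟩ := Ideal.image_subset_nonunits_valuationSubring _ hI
  have htn : t ∈ O.nonunits := hn ⟨_, Ideal.subset_span rfl, rfl⟩
  have htO : t ∈ O := hO htA
  have hm : ∀ c : Ω, algebraMap Ω E c ∈ O := fun c => hO (Subalgebra.algebraMap_mem _ c)
  let φ : Ω →+* O := (algebraMap Ω E).codRestrict O hm
  have hev : ∀ (x : O) (f : Polynomial Ω), ((f.eval₂ φ x : O) : E) = aeval (x : E) f :=
    fun x f => hom_eval₂ f φ O.subtype x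
  have key : ∀ x : O, ∃ f : Polynomial Ω, f ≠ 0 ∧ f.eval₂ φ x ∈ IsLocalRing.maximalIdeal O := by
    intro x
    by_cases hx : IsAlgebraic Ω (x : E)
    · obtain ⟨f, h0, h1⟩ := hx
      refine ⟨f, h0, ?_⟩
      rw [show f.eval₂ φ x = 0 from Subtype.ext ((hev x f).trans h1)]
      exact Ideal.zero_mem _
    · have h1 : IsAlgebraic (Algebra.adjoin Ω {(x : E)}) (algebraMap E E t) :=
        IsAlgebraic.adjoin_singleton ht hx (IntermediateField.isAlgebraic_adjoin_iff.1 (alg x))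
      obtain ⟨s, hs, ⟨r, hr⟩, h0, h2⟩ :=
        h1.exists_nonzero_eq_adjoin_mul (mem_nonZeroDivisors_of_ne_zero ht0)
      have hsO : s ∈ O := by
        clear h2
        induction hs using Algebra.adjoin_induction with
        | mem y hy => exact hy ▸ htO
        | algebraMap c =>
          obtain ⟨g, hg⟩ := Algebra.adjoin_mem_exists_aeval Ω (x : E) c.2
          have := (g.eval₂ φ x).2
          rwa [hev, hg] at this
        | add y z _ _ hy hz => exact add_mem hy hz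
        | mul y z _ _ hy hz => exact mul_mem hy hz
      obtain ⟨f, rfl⟩ := Algebra.adjoin_mem_exists_aeval Ω (x : E) hr
      refine ⟨f, fun h => h0 (Subtype.ext (by simp [h])), ?_⟩
      rw [show f.eval₂ φ x = ⟨t, htO⟩ * ⟨s, hsO⟩ from Subtype.ext ((hev x f).trans h2.symm)]
      exact Ideal.mul_mem_right _ _ (ValuationSubring.coe_mem_nonunits_iff.1 htn)
  let ψ : Ω →+* IsLocalRing.ResidueField O := (IsLocalRing.residue O).comp φ
  have hψ : Function.Bijective ψ := by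
    refine IsAlgClosed.ringHom_bijective_of_isIntegral ψ fun y => ?_
    obtain ⟨x, rfl⟩ := IsLocalRing.residue_surjective y
    obtain ⟨f, h0, h1⟩ := key x
    let _ := ψ.toAlgebra
    have h2 : IsAlgebraic Ω (IsLocalRing.residue O x) :=
      ⟨f, h0, (hom_eval₂ f φ (IsLocalRing.residue O) x).symm.trans
        ((IsLocalRing.residue_eq_zero_iff _).2 h1)⟩
    exact h2.isIntegral
  let e := RingEquiv.ofBijective ψ hψ
  have hk : ∀ x : O, e.symm.toRingHom.comp (IsLocalRing.residue O) x = 0 ↔ ¬ IsUnit x := by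
    intro x
    rw [RingHom.comp_apply, map_eq_zero, IsLocalRing.residue_eq_zero_iff]
    rfl
  exact ⟨⟨O, e.symm.toRingHom.comp (IsLocalRing.residue O), hm, fun c => e.symm_apply_apply c,
    hk⟩, htO, (hk _).2 (ValuationSubring.coe_mem_nonunits_iff.1 htn)⟩

/-- Take `E = AlgebraicClosure (RatFunc Ω)`, `κ = X`, and `exists_place` for `κ` and `κ⁻¹`. -/
theorem exists_line (Ω : Type) [Field Ω] [IsAlgClosed Ω] :
    ∃ (E : Type) (_ : Field E) (_ : Algebra Ω E) (_ : IsAlgClosed E), Nonempty (Line Ω E) := by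
  let E := AlgebraicClosure (RatFunc Ω)
  let κ : E := algebraMap (RatFunc Ω) E RatFunc.X
  have tr : Transcendental Ω κ :=
    (transcendental_algebraMap_iff (algebraMap (RatFunc Ω) E).injective).2 RatFunc.transcendental_X
  have alg : ∀ x : E, IsAlgebraic (IntermediateField.adjoin Ω {κ}) x := by
    have h1 : Algebra.IsAlgebraic (IntermediateField.adjoin Ω {(RatFunc.X : RatFunc Ω)})
        (RatFunc Ω) := by
      rw [RatFunc.adjoin_X]
      exact ⟨fun x => isAlgebraic_algebraMap (⟨x, trivial⟩ : (⊤ : IntermediateField Ω (RatFunc Ω)))⟩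
    have h2 : Algebra.IsAlgebraic (IntermediateField.adjoin Ω {(RatFunc.X : RatFunc Ω)}) E :=
      Algebra.IsAlgebraic.trans _ (RatFunc Ω) _
    have h3 : Algebra.IsAlgebraic (IntermediateField.adjoin Ω {κ}) E :=
      .tower_top (K := IntermediateField.adjoin Ω {(RatFunc.X : RatFunc Ω)}) _
    exact h3.isAlgebraic
  have h0 : κ ≠ 0 := fun h => tr (h ▸ isAlgebraic_zero)
  have hinv : IntermediateField.adjoin Ω {κ⁻¹} = IntermediateField.adjoin Ω {κ} := by
    apply le_antisymm <;> rw [IntermediateField.adjoin_simple_le_iff]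
    · exact inv_mem (IntermediateField.mem_adjoin_simple_self Ω κ)
    · exact inv_mem_iff.1 (IntermediateField.mem_adjoin_simple_self Ω κ⁻¹)
  obtain ⟨P0, m0, e0⟩ := exists_place κ tr alg
  obtain ⟨P1, m1, e1⟩ := exists_place (Ω := Ω) κ⁻¹ (fun h => tr (IsAlgebraic.inv_iff.1 h))
    (hinv ▸ alg)
  refine ⟨E, inferInstance, inferInstance, inferInstance, ⟨⟨κ, tr, alg, P0, P1, m0, e0, ?_⟩⟩⟩
  intro h
  exact (P1.ker _).1 e1 (isUnit_iff_exists_inv.2 ⟨⟨κ, h⟩, Subtype.ext (inv_mul_cancel₀ h0)⟩)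

end

end Pool.Agent.MP_1c689d_ag.FP

end

section

set_option autoImplicit false

namespace Pool.Agent.MP_1c689d_ag.FP

noncomputable section

open Polynomial

theorem admTop_perm {α : Type} {n : ℕ} (f g : Fin n → α)
    (h : Finset.univ.val.map f = Finset.univ.val.map g) :
    ∃ π : Equiv.Perm (Fin n), ∀ l, f l = g (π l) := by
  classical
  have hc : ∀ a, Fintype.card {l // f l = a} = Fintype.card {l // g l = a} := by
    intro a
    have h1 := congrArg (Multiset.count a) h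
    rw [Multiset.count_map, Multiset.count_map] at h1
    rw [Fintype.card_subtype, Fintype.card_subtype]
    simp only [eq_comm (a := a)] at h1
    exact h1
  refine ⟨Equiv.ofFiberEquiv (fun a => Fintype.equivOfCardEq (hc a)), fun l => ?_⟩
  exact (Equiv.ofFiberEquiv_map _ l).symm

variable {Ω E : Type} [Field Ω] [Field E] [Algebra ℂ Ω] [Algebra ℂ E] [Algebra Ω E]
  [IsScalarTower ℂ Ω E] {F : Type} [Field F] [Algebra ℂ F] {N : ℕ}

theorem admTop_spec (P : Place Ω E) (h3 : Algebra.trdeg ℂ Ω = 3) (hF3 : Algebra.trdeg ℂ F = 3)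
    (ξ : Fin (N + 1) → F)
    (hF : IntermediateField.adjoin ℂ
      (Set.range fun p : Fin (N + 1) × Fin (N + 1) => ξ p.1 / ξ p.2) = ⊤)
    (i : Fin (N + 1)) (hi : ξ i ≠ 0) (lam : ((Fin (N + 1) → Ω) →₀ ℚ) →ₗ[ℚ] ℚ)
    (hl : ∀ W, Null ξ W → lam W = 0) (j : F →ₐ[ℂ] E) :
    ∃ z, P.Spec (fun k => j (ξ k / ξ i)) z ∧ lam (Finsupp.single z 1) =
      P.sp (fun φ : F →ₐ[ℂ] Ω => lam (Finsupp.single (fun k => φ (ξ k / ξ i)) 1)) j := by
  by_cases hj : ∀ x, j x ∈ P.O
  · refine ⟨fun k => P.red j hj (ξ k / ξ i), ⟨⟨i, by simp [hi]⟩, 1, fun k => ?_⟩, ?_⟩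
    · refine ⟨by rw [one_mul]; exact hj _, ?_⟩
      exact congrArg P.ρ (Subtype.ext (one_mul _))
    · rw [Place.sp, dif_pos hj]
  · obtain ⟨z, hz⟩ := exists_spec P (fun k => j (ξ k / ξ i)) ⟨i, by simp [hi]⟩
    obtain ⟨a, b, hab, h⟩ := spec_nondom P h3 hF3 ξ hF i j hj hz
    refine ⟨z, hz, ?_⟩
    rw [Place.sp, dif_neg hj]
    exact hl _ (null_nondom ξ z a b hab h)

theorem adm_top [IsAlgClosed E] (Λ : Line Ω E) (h3 : Algebra.trdeg ℂ Ω = 3)
    (hF3 : Algebra.trdeg ℂ F = 3) (ξ : Fin (N + 1) → F)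
    (hF : IntermediateField.adjoin ℂ
      (Set.range fun p : Fin (N + 1) × Fin (N + 1) => ξ p.1 / ξ p.2) = ⊤)
    (hlc : LocallyContractibleSpace (Pt ξ))
    (i : Fin (N + 1)) (hi : ξ i ≠ 0) (lam : ((Fin (N + 1) → Ω) →₀ ℚ) →ₗ[ℚ] ℚ)
    (hl : ∀ W, Null ξ W → lam W = 0) :
    Λ.Adm (fun φ : F →ₐ[ℂ] Ω => lam (Finsupp.single (fun k => φ (ξ k / ξ i)) 1)) := by
  intro J hJ
  obtain ⟨n, j, rfl⟩ : ∃ (n : ℕ) (j : Fin n → (F →ₐ[ℂ] E)), J = Finset.univ.val.map j := by
    obtain ⟨l, rfl⟩ := Quot.exists_rep J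
    refine ⟨l.length, l.get, ?_⟩
    rw [Fin.univ_val_map, List.ofFn_get]
    rfl
  choose z hz hz' using fun l => admTop_spec Λ.P0 h3 hF3 ξ hF i hi lam hl (j l)
  choose w hw hw' using fun l => admTop_spec Λ.P1 h3 hF3 ξ hF i hi lam hl (j l)
  have hx : ∀ l, IsPt ξ (fun k => j l (ξ k / ξ i)) := fun l => (isPt_hom ξ (j l) i hi).1
  have key := re_null Λ ξ hlc (fun l k => j l (ξ k / ξ i)) hx (by
      intro σ hσ
      have h1 := hJ σ hσ
      rw [Multiset.map_map] at h1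
      obtain ⟨π, hπ⟩ := admTop_perm _ _ h1
      exact ⟨π, fun l k => by rw [← hπ l]; rfl⟩)
    z w hz hw (fun l => spec_isPt _ ξ (hx l) (hz l)) (fun l => spec_isPt _ ξ (hx l) (hw l))
  have h0 := hl _ key
  rw [map_sub, map_sum, map_sum, sub_eq_zero] at h0
  rw [Multiset.map_map, Multiset.map_map]
  change ∑ l, _ = ∑ l, _
  simp only [Function.comp_apply, ← hz', ← hw']
  exact h0.symm

/-- If all dominant points of the function field are rationally equivalent to non-dominant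
cycles, then `H³` of a smooth projective model dies on a dense Zariski open set. -/
theorem coniveau_of_mz (ξ : Fin (N + 1) → F)
    (hF : IntermediateField.adjoin ℂ
      (Set.range fun p : Fin (N + 1) × Fin (N + 1) => ξ p.1 / ξ p.2) = ⊤)
    (hsm : ∀ i, ξ i ≠ 0 → Algebra.Smooth ℂ (chart ξ i)) (hF3 : Algebra.trdeg ℂ F = 3)
    (i : Fin (N + 1)) (hi : ξ i ≠ 0)
    (h : ∀ (Ω E : Type) [Field Ω] [Field E] [Algebra ℂ Ω] [Algebra ℂ E] [Algebra Ω E]
      [IsScalarTower ℂ Ω E] [IsAlgClosed Ω] [IsAlgClosed E] (Λ : Line Ω E),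
      Algebra.trdeg ℂ Ω = 3 → Λ.MZ F) :
    ∃ (Q : MvPolynomial (Fin (N + 1)) ℂ) (d : ℕ), Q.IsHomogeneous d ∧
      MvPolynomial.aeval ξ Q ≠ 0 ∧ (Zop ξ Q).Nonempty ∧ RestrictionZero (Zop ξ Q) 2 := by
  obtain ⟨E, _, _, _, ⟨Λ⟩⟩ := exists_line (AlgebraicClosure F)
  letI : Algebra ℂ E :=
    ((algebraMap (AlgebraicClosure F) E).comp (algebraMap ℂ (AlgebraicClosure F))).toAlgebra
  haveI : IsScalarTower ℂ (AlgebraicClosure F) E := IsScalarTower.of_algebraMap_eq' rfl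
  have h3 : Algebra.trdeg ℂ (AlgebraicClosure F) = 3 := by
    have := trdeg_add_eq ℂ F (A := AlgebraicClosure F)
    rw [← this, hF3, trdeg_eq_zero, add_zero]
  let φ : F →ₐ[ℂ] AlgebraicClosure F := IsScalarTower.toAlgHom ℂ F _
  refine fin_of_null ξ i hi φ ?_ ?_
  · have h1 : ∀ x : F, φ x ∈ acl (Set.range fun k => φ (ξ k / ξ i)) := by
      refine map_mem_of_adjoin hF φ _ ?_
      rintro _ ⟨⟨a, b⟩, rfl⟩
      have e : ξ a / ξ b = (ξ a / ξ i) / (ξ b / ξ i) := by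
        rw [div_div_div_cancel_right₀ hi]
      simp only
      rw [e, map_div₀]
      exact div_mem (subset_acl _ ⟨a, rfl⟩) (subset_acl _ ⟨b, rfl⟩)
    rw [eq_top_iff]
    intro x _
    obtain ⟨p, hp, hx⟩ := Algebra.IsAlgebraic.isAlgebraic (R := F) x
    refine mem_acl_of_root (p.map (algebraMap F _)) ((Polynomial.map_ne_zero_iff
      (algebraMap F _).injective).2 hp) (fun k => ?_) ?_
    · rw [coeff_map]
      exact h1 _
    · rwa [eval_map_algebraMap]
  · refine null_of_forall ξ _ fun lam hl => ?_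
    exact h (AlgebraicClosure F) E Λ h3 _ (adm_top Λ h3 hF3 ξ hF (pt_lc ξ hsm) i hi lam hl) φ

end

end Pool.Agent.MP_1c689d_ag.FP

end

section

set_option autoImplicit false

namespace Pool.Agent.MP_1c689d_ag.FP

noncomputable section

open Polynomial

end

end Pool.Agent.MP_1c689d_ag.FP

end

section

set_option autoImplicit false

namespace Pool.Agent.MP_1c689d_ag.FP

noncomputable section

open Polynomial

variable {F : Type} [Field F] [Algebra ℂ F] {N : ℕ}

theorem exists_ne_zero (ξ : Fin (N + 1) → F)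
    (hF : IntermediateField.adjoin ℂ
      (Set.range fun p : Fin (N + 1) × Fin (N + 1) => ξ p.1 / ξ p.2) = ⊤)
    {s : F} (hs : Transcendental ℂ s) : ∃ i, ξ i ≠ 0 := by
  by_contra h
  push Not at h
  have : (⊤ : IntermediateField ℂ F) ≤ ⊥ := by
    rw [← hF, IntermediateField.adjoin_le_iff]
    rintro _ ⟨p, rfl⟩
    simp [h]
  obtain ⟨c, hc⟩ := IntermediateField.mem_bot.1 (this (IntermediateField.mem_top (x := s)))
  exact hs (hc ▸ isAlgebraic_algebraMap c)

end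

end Pool.Agent.MP_1c689d_ag.FP

end
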