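import Pool.Agent.Mg.F1c689d.G83f676
import Pool.Agent.Mg.F1c689d.G9a22e1
import Pool.Agent.Mg.F1c689d.G75f1f8
import Pool.Agent.Mg.F1c689d.G3edd1a
import Pool.Agent.Mg.F1c689d.G7c9c5a
import Pool.Agent.Mg.F1c689d.G526d43
import Pool.Agent.MP_1c689d_ag.FP.Stmt
import Pool.Agent.MP_1c689d_ag.SX.Stmt

set_option linter.all false


section

set_option autoImplicit false

namespace Pool.Agent.MP_1c689d_ag.SX

open Pool.Agent.MP_1c689d_ag.FP

noncomputable section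

open Polynomial

/-! The elliptic fibration on the double plane.  Write `L i = ev (m i) p`. -/

variable {k : Type} [Field k] [CharZero k] {m : Fin 6 → V k} {p : V k}

omit [CharZero k] in
theorem Eqs_x0 (m : Fin 6 → V k) : xs m 0 = w46 m + n6 m := rfl
omit [CharZero k] in
theorem Eqs_x1 (m : Fin 6 → V k) : xs m 1 = w35 m + n6 m := rfl
omit [CharZero k] in
theorem Eqs_x2 (m : Fin 6 → V k) : xs m 2 = n6 m := rfl
omit [CharZero k] in
theorem Eqs_x3 (m : Fin 6 → V k) : xs m 3 = w45 m + n6 m + kap m := rfl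
omit [CharZero k] in
theorem Eqs_x4 (m : Fin 6 → V k) : xs m 4 = w36 m + n6 m + kap m := rfl
omit [CharZero k] in
theorem Eqs_x5 (m : Fin 6 → V k) : xs m 5 = wmu m + n6 m + kap m := rfl
omit [CharZero k] in
theorem Eqs_e0 (x : Fin 6 → k) : ee x 0 = e2 x := rfl
omit [CharZero k] in
theorem Eqs_e1 (x : Fin 6 → k) : ee x 1 = e3 x := rfl

omit [CharZero k] in
theorem Eqs_core {L0 L1 L2 L3 L4 L5 a b c4 c5 U U' Q Q' q z c : k} (h0 : L0 ≠ 0) (h1 : L1 ≠ 0)
    (h2 : L2 ≠ 0) (h4 : L4 ≠ 0) (h5 : L5 ≠ 0) (ha : a ≠ 0) (hQ : Q ≠ 0)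
    (hI : U * c5 * L4 - U' * c4 * L5 = -(L1 * L3 * q))
    (he : z ^ 2 = c * (L0 * L1 * L2 * L3 * L4 * L5)) :
    (-(z * a * Q) / (L0 ^ 2 * L1 ^ 2 * L2 * L4)) ^ 2 * (L4 * b * Q' / (L5 * a * Q)) *
        (-(L1 * L2 * q) / (L5 * a * Q)) -
      c * (U / (L0 * L1) * (Q / (L0 * L1)) * (a * c5 / (L0 * L1)) * (L4 * b * Q' / (L5 * a * Q)) -
        U' / (L0 * L1) * (Q' / (L0 * L1)) * (b * c4 / (L0 * L1))) = 0 := by
  have e1 : (-(z * a * Q) / (L0 ^ 2 * L1 ^ 2 * L2 * L4)) ^ 2 * (L4 * b * Q' / (L5 * a * Q)) *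
      (-(L1 * L2 * q) / (L5 * a * Q)) =
      -(z ^ 2 * b * Q' * q) / (L0 ^ 4 * L1 ^ 3 * L2 * L4 * L5 ^ 2) := by
    field_simp
  have e2 : U / (L0 * L1) * (Q / (L0 * L1)) * (a * c5 / (L0 * L1)) *
      (L4 * b * Q' / (L5 * a * Q)) - U' / (L0 * L1) * (Q' / (L0 * L1)) * (b * c4 / (L0 * L1)) =
      b * Q' * (U * c5 * L4 - U' * c4 * L5) / (L0 ^ 3 * L1 ^ 3 * L5) := by
    field_simp
  rw [e1, e2, hI, he]
  field_simp
  ring

theorem Gen.a5 (h : Gen m p) : A5 m p ≠ 0 := by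
  exact mul_ne_zero (h.L 4) (h.M 1 5 (by decide) (by decide) (by decide) (by decide) (by decide))

theorem Gen.a6 (h : Gen m p) : A6 m p ≠ 0 := by
  exact mul_ne_zero (h.L 5) (h.M 1 4 (by decide) (by decide) (by decide) (by decide) (by decide))

/-- `AQ_eq` -/
theorem Gen.rho_sub (h : Gen m p) :
    rho m p - 1 = -(ev (m 1) p * ev (m 2) p * q0 m p) / (A6 m p * Q35 m p) := by
  rw [← AQ_eq, rho, div_sub_one (mul_ne_zero h.a6 h.q35)]

theorem Gen.rho_ne_one (h : Gen m p) : rho m p ≠ 1 := by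
  rw [← sub_ne_zero, h.rho_sub]
  exact div_ne_zero (neg_ne_zero.2 (mul_ne_zero (mul_ne_zero (h.L 1) (h.L 2)) h.q))
    (mul_ne_zero h.a6 h.q35)

theorem Gen.rho_ne_zero (h : Gen m p) : rho m p ≠ 0 := by
  exact div_ne_zero (mul_ne_zero h.a5 h.q36) (mul_ne_zero h.a6 h.q35)

/-- `Q35_eq` -/
theorem Gen.W_x2 (h : Gen m p) : Wf m p - xs m 1 = Q35 m p / (ev (m 0) p * ev (m 1) p) := by
  rw [Q35_eq, Eqs_x1, Wf, sub_div, mul_div_cancel_right₀ _ (mul_ne_zero (h.L 0) (h.L 1))]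
  ring

/-- `Q36_eq` -/
theorem Gen.W_x5 (h : Gen m p) :
    Wf m p + kap m - xs m 4 = Q36 m p / (ev (m 0) p * ev (m 1) p) := by
  rw [Q36_eq, Eqs_x4, Wf, sub_div, mul_div_cancel_right₀ _ (mul_ne_zero (h.L 0) (h.L 1))]
  ring

theorem Gen.t_x2 (h : Gen m p) : tf m p - xs m 1 =
    Q35 m p * Cb6 m p / (ev (m 0) p * ev (m 1) p * ev (m 2) p * q0 m p) := by
  have e : tf m p - xs m 1 = (Wf m p - xs m 1) - kap m / (rho m p - 1) := by
    rw [tf, ← neg_sub (rho m p) 1, div_neg]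
    ring
  rw [e, h.W_x2, h.rho_sub, Cb6]
  have h0 := h.L 0
  have h1 := h.L 1
  have h2 := h.L 2
  have h3 := h.q
  have h4 := h.a6
  have h5 := h.q35
  field_simp
  ring

theorem Gen.t_x5 (h : Gen m p) : tf m p - xs m 4 =
    Q36 m p * Cb5 m p / (ev (m 0) p * ev (m 1) p * ev (m 2) p * q0 m p) := by
  have hr : rho m p - 1 ≠ 0 := sub_ne_zero.2 h.rho_ne_one
  have e : tf m p - xs m 4 =
      (Wf m p + kap m - xs m 4) - kap m * rho m p / (rho m p - 1) := by
    rw [tf, ← neg_sub (rho m p) 1, div_neg]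
    field_simp
    ring
  rw [e, h.W_x5, h.rho_sub, rho, Cb5]
  have h0 := h.L 0
  have h1 := h.L 1
  have h2 := h.L 2
  have h3 := h.q
  have h4 := h.a6
  have h5 := h.q35
  field_simp
  ring

theorem Gen.zf_eq (h : Gen m p) (z : k) : zf m p z = psf m p z * (rho m p - 1) := by
  rw [h.rho_sub, zf, psf, A6]
  have h0 := h.L 0
  have h1 := h.L 1
  have h2 := h.L 2
  have h4 := h.L 4
  have h5 := h.L 5
  have h6 := h.M 1 4 (by decide) (by decide) (by decide) (by decide) (by decide)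
  have h7 := h.q35
  field_simp

theorem Gen.psf_ne (h : Gen m p) {z : k} (hz : z ≠ 0) : psf m p z ≠ 0 := by
  exact div_ne_zero (neg_ne_zero.2 (mul_ne_zero (mul_ne_zero hz
    (h.M 1 4 (by decide) (by decide) (by decide) (by decide) (by decide))) h.q35))
    (mul_ne_zero (mul_ne_zero (mul_ne_zero (pow_ne_zero 2 (h.L 0)) (pow_ne_zero 2 (h.L 1)))
      (h.L 2)) (h.L 4))

theorem psf_neg (z : k) : psf m p (-z) = -psf m p z := by
  unfold psf
  ring

theorem zf_neg (z : k) : zf m p (-z) = -zf m p z := by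
  unfold zf
  ring

/-- With `D = L 0 * L 1`: `W - xs 0 = (MM - w46 D)/D`, `W - xs 1 = Q35/D`, `W - xs 2 = MM/D`,
`W + kap - xs 3 = (MM - w45 D)/D`, `W + kap - xs 4 = Q36/D`, `W + kap - xs 5 = (MM - wmu D)/D`
(`mu_eq`).  Hence by `I4_eq`
`pP W * rho - qP (W + kap) = - Q36 * ML 0 2 1 5 * L 1 * L 3 * q0 / (D ^ 3 * L 5)`, and the claim
reads `psf ^ 2 * rho * (rho - 1) = c * (pP W * rho - qP (W + kap))`.  Generalise all the factors
to variables before `field_simp`. -/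
theorem Gen.quad3 (h : Gen m p) {z c : k} (he : z ^ 2 = c * prodL m p) :
    psf m p z ^ 2 * rho m p ^ 2 - (psf m p z ^ 2 + c * pP m (Wf m p)) * rho m p +
      c * qP m (Wf m p + kap m) = 0 := by
  have hD := mul_ne_zero (h.L 0) (h.L 1)
  have e0 : Wf m p - xs m 0 =
      (MM m p - w46 m * (ev (m 0) p * ev (m 1) p)) / (ev (m 0) p * ev (m 1) p) := by
    rw [Eqs_x0, Wf, sub_div, mul_div_cancel_right₀ _ hD]
    ring
  have e2 : Wf m p - xs m 2 = ML (m 0) (m 2) (m 1) (m 4) p * ML (m 0) (m 3) (m 1) (m 5) p /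
      (ev (m 0) p * ev (m 1) p) := by
    rw [Eqs_x2, Wf, MM]
    ring
  have e3 : Wf m p + kap m - xs m 3 =
      (MM m p - w45 m * (ev (m 0) p * ev (m 1) p)) / (ev (m 0) p * ev (m 1) p) := by
    rw [Eqs_x3, Wf, sub_div, mul_div_cancel_right₀ _ hD]
    ring
  have e5 : Wf m p + kap m - xs m 5 =
      ML (m 0) (m 2) (m 1) (m 5) p * ML (m 0) (m 3) (m 1) (m 4) p /
        (ev (m 0) p * ev (m 1) p) := by
    rw [mu_eq, Eqs_x5, Wf, sub_div, mul_div_cancel_right₀ _ hD]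
    ring
  have e : psf m p z ^ 2 * rho m p ^ 2 - (psf m p z ^ 2 + c * pP m (Wf m p)) * rho m p +
      c * qP m (Wf m p + kap m) = psf m p z ^ 2 * rho m p * (rho m p - 1) -
        c * (pP m (Wf m p) * rho m p - qP m (Wf m p + kap m)) := by ring
  rw [e, h.rho_sub, pP, qP, e0, h.W_x2, e2, e3, h.W_x5, e5, rho, psf, A5, A6]
  exact Eqs_core (h.L 0) (h.L 1) (h.L 2) (h.L 4) (h.L 5)
    (h.M 1 4 (by decide) (by decide) (by decide) (by decide) (by decide)) h.q35 (I4_eq m p) he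

/-- An identity in the six roots: with `κ = -(x 0 + x 1 + x 2)`, `∑ x = 0`, `W = t - κ / (1 - ρ)`:
`(ρ - 1) (p(W) ρ - q(W + κ)) = p(t) ρ² - (2 t³ + e₂ t + e₃) ρ + q(t)`. -/
theorem Eqs_shift (x : Fin 6 → k) (h : x 0 + x 1 + x 2 + x 3 + x 4 + x 5 = 0) (κ W t ρ : k)
    (hκ : κ = -(x 0 + x 1 + x 2)) (hρ : ρ ≠ 1) (ht : t = W + κ / (1 - ρ)) :
    (ρ - 1) * ((W - x 0) * (W - x 1) * (W - x 2) * ρ -
        (W + κ - x 3) * (W + κ - x 4) * (W + κ - x 5)) =
      (t - x 0) * (t - x 1) * (t - x 2) * ρ ^ 2 - (2 * t ^ 3 + ee x 0 * t + ee x 1) * ρ +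
        (t - x 3) * (t - x 4) * (t - x 5) := by
  have h1 : 1 - ρ ≠ 0 := sub_ne_zero.2 hρ.symm
  obtain ⟨u, hu⟩ : ∃ u, u = κ / (1 - ρ) := ⟨_, rfl⟩
  have hk : κ = u * (1 - ρ) := by rw [hu, div_mul_cancel₀ _ h1]
  rw [← hu] at ht
  have h2 : x 2 = -(u * (1 - ρ)) - x 0 - x 1 := by linear_combination hκ - hk
  have h5 : x 5 = u * (1 - ρ) - x 3 - x 4 := by linear_combination h - h2
  rw [Eqs_e0, Eqs_e1, e2, e3, h2, h5, hk, ht]
  ring

theorem pq_eq (m : Fin 6 → V k) (t : k) : pP m t * qP m t =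
    t ^ 6 + ee (xs m) 0 * t ^ 4 + ee (xs m) 1 * t ^ 3 + ee (xs m) 2 * t ^ 2 + ee (xs m) 3 * t +
      ee (xs m) 4 := by
  exact prod_eq_ee (xs m) (xs_sum m) t

/-- multiply `quad3` by `pP t * (rho - 1)` and use `Eqs_shift`, `pq_eq`, `zf_eq` -/
theorem Gen.eqn (h : Gen m p) {z c : k} (he : z ^ 2 = c * prodL m p) :
    Eqn (ee (xs m)) c (tf m p) (xf m p) (zf m p z) := by
  have h1 := h.quad3 he
  have h2 := Eqs_shift (xs m) (xs_sum m) (kap m) (Wf m p) (tf m p) (rho m p) (kap_xs m)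
    h.rho_ne_one rfl
  have h3 := pq_eq m (tf m p)
  change (rho m p - 1) * (pP m (Wf m p) * rho m p - qP m (Wf m p + kap m)) =
    pP m (tf m p) * rho m p ^ 2 - (2 * tf m p ^ 3 + ee (xs m) 0 * tf m p + ee (xs m) 1) * rho m p +
      qP m (tf m p) at h2
  unfold Eqn
  rw [← h3, h.zf_eq, xf]
  linear_combination pP m (tf m p) * (rho m p - 1) * h1 + c * pP m (tf m p) * h2

/-- the image on the partner only depends on `W, rho, psf` -/
theorem Tf_of_W {m' : Fin 6 → V k} {p' : V k} {z z' : k} (h : Gen m p) (h' : Gen m' p')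
    (hk : kap m' = kap m) (hp : ∀ t, pP m' t = pP m t) (hW : Wf m' p' = Wf m p)
    (hr : rho m' p' = rho m p) (hs : psf m' p' z' = psf m p z) : Tf m' p' z' = Tf m p z := by
  have ht : tf m' p' = tf m p := by rw [tf, tf, hW, hk, hr]
  rw [Tf, Tf, xf, xf, h.zf_eq, h'.zf_eq, ht, hp, hr, hs]

/-- the normalised equation -/
theorem Fw_of_Eqn {e : Fin 5 → k} {c t X ζ G : k} {Q : Fin 5 → k} (h : Eqn e c t X ζ) (hG : G ≠ 0)
    (hQ : ∀ j : Fin 5, c ^ (j.1 + 2) * e j = G ^ (2 * (j.1 + 2)) * Q j) :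
    Fw Q (c * t / G ^ 2) (c ^ 3 * X / G ^ 6) (c * ζ / G ^ 3) = 0 := by
  have q0 : Q 0 = c ^ 2 * e 0 / G ^ 4 := by
    rw [eq_div_iff (pow_ne_zero _ hG), mul_comm]
    exact (hQ 0).symm
  have q1 : Q 1 = c ^ 3 * e 1 / G ^ 6 := by
    rw [eq_div_iff (pow_ne_zero _ hG), mul_comm]
    exact (hQ 1).symm
  have q2 : Q 2 = c ^ 4 * e 2 / G ^ 8 := by
    rw [eq_div_iff (pow_ne_zero _ hG), mul_comm]
    exact (hQ 2).symm
  have q3 : Q 3 = c ^ 5 * e 3 / G ^ 10 := by
    rw [eq_div_iff (pow_ne_zero _ hG), mul_comm]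
    exact (hQ 3).symm
  have q4 : Q 4 = c ^ 6 * e 4 / G ^ 12 := by
    rw [eq_div_iff (pow_ne_zero _ hG), mul_comm]
    exact (hQ 4).symm
  unfold Eqn at h
  unfold Fw
  rw [q0, q1, q2, q3, q4]
  field_simp
  linear_combination c ^ 5 * h

end

end Pool.Agent.MP_1c689d_ag.SX

end

section

set_option autoImplicit false

namespace Pool.Agent.MP_1c689d_ag.SX

open Pool.Agent.MP_1c689d_ag.FP

noncomputable section

open Polynomial

/-! The map to the partner is birational. -/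

section Field
variable {k : Type} [Field k] [CharZero k]

/-- the intersection point of the lines `a - U b` and `f - θ c` -/
def pen (a b c f : V k) (U θ : k) : V k :=
  cr ⟨a.x - U * b.x, a.y - U * b.y, a.z - U * b.z⟩ ⟨f.x - θ * c.x, f.y - θ * c.y, f.z - θ * c.z⟩

/-- `field_simp`, unfold, `ring` -/
theorem pen_eq (a b c f p : V k) (hb : ev b p ≠ 0) (hc : ev c p ≠ 0) :
    pen a b c f (ev a p / ev b p) (ev f p / ev c p) =
      V.sm (-ML a b c f p / (ev b p * ev c p)) p := by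
  ext
  all_goals
    simp only [pen, cr, V.sm, ML, br]
    field_simp
    simp only [ev]
    ring

theorem pen_inj (a b c f : V k) {p p' : V k} (h1 : p.z = 1) (h1' : p'.z = 1) (hb : ev b p ≠ 0)
    (hc : ev c p ≠ 0) (hM : ML a b c f p ≠ 0) (hb' : ev b p' ≠ 0) (hc' : ev c p' ≠ 0)
    (hU : ev a p' / ev b p' = ev a p / ev b p) (hθ : ev f p' / ev c p' = ev f p / ev c p) :
    p' = p := by
  have e1 := pen_eq a b c f p hb hc
  have e2 := pen_eq a b c f p' hb' hc'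
  rw [hU, hθ, e1] at e2
  have hl : -ML a b c f p / (ev b p * ev c p) ≠ 0 :=
    div_ne_zero (neg_ne_zero.2 hM) (mul_ne_zero hb hc)
  generalize -ML a b c f p / (ev b p * ev c p) = l at e2 hl
  generalize -ML a b c f p' / (ev b p' * ev c p') = l' at e2
  have ex : l * p.x = l' * p'.x := congrArg V.x e2
  have ey : l * p.y = l' * p'.y := congrArg V.y e2
  have ez : l * p.z = l' * p'.z := congrArg V.z e2
  rw [h1, h1', mul_one, mul_one] at ez
  subst ez
  ext
  · exact (mul_left_cancel₀ hl ex).symm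
  · exact (mul_left_cancel₀ hl ey).symm
  · rw [h1, h1']

variable {m : Fin 6 → V k} {p : V k}

/-- `L 0 / L 2 * (W - xs 1) - d5 = br 0 1 3 * A5 / (L 1 L 2)`, the same with `W + kap - xs 4`,
`d6`, `A6`, and `A5 / A6 = rho (W - xs 1) / (W + kap - xs 4)`. -/
theorem Gen.U_eq (h : Gen m p) : ev (m 0) p / ev (m 2) p =
    (d5 m - rho m p * (Wf m p - xs m 1) / (Wf m p + kap m - xs m 4) * d6 m) /
      ((Wf m p - xs m 1) * (1 - rho m p)) := by
  have hs : 1 - rho m p = ev (m 1) p * ev (m 2) p * q0 m p / (A6 m p * Q35 m p) := by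
    have := h.rho_sub
    rw [neg_div] at this
    linear_combination -this
  have hq : d5 m - A5 m p / A6 m p * d6 m = q0 m p / A6 m p := by
    have := h.a6
    unfold q0
    field_simp
  have hr : rho m p * (Wf m p - xs m 1) / (Wf m p + kap m - xs m 4) = A5 m p / A6 m p := by
    rw [h.W_x2, h.W_x5]
    have := h.a6
    have := h.q35
    have := h.q36
    have := h.L 0
    have := h.L 1
    unfold rho
    field_simp
  rw [hr, hq, hs, h.W_x2]
  have := h.a6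
  have := h.q35
  have := h.q
  have := h.L 0
  have := h.L 1
  have := h.L 2
  field_simp

/-- the second factor of the denominator is `ML 0 2 1 5 / L 2` -/
theorem Gen.theta_eq (h : Gen m p) (h18 : H18 m) : ev (m 4) p / ev (m 1) p =
    (ev (m 0) p / ev (m 2) p * (Wf m p - xs m 1) - d5 m) / (br (m 0) (m 1) (m 3) *
      (br (m 0) (m 1) (m 5) - br (m 2) (m 1) (m 5) * (ev (m 0) p / ev (m 2) p))) := by
  have h013 : br (m 0) (m 1) (m 3) ≠ 0 := h18 0 1 3 (by decide) (by decide) (by decide) (by decide)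
  have hML : ML (m 0) (m 2) (m 1) (m 5) p ≠ 0 :=
    h.M 1 5 (by decide) (by decide) (by decide) (by decide) (by decide)
  have h0 := h.L 0
  have h1 := h.L 1
  have h2 := h.L 2
  have hd : br (m 0) (m 1) (m 5) - br (m 2) (m 1) (m 5) * (ev (m 0) p / ev (m 2) p) =
      ML (m 0) (m 2) (m 1) (m 5) p / ev (m 2) p := by
    unfold ML
    field_simp
  have hn : ev (m 0) p / ev (m 2) p * (Wf m p - xs m 1) - d5 m =
      br (m 0) (m 1) (m 3) * (ev (m 4) p * ML (m 0) (m 2) (m 1) (m 5) p) /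
        (ev (m 1) p * ev (m 2) p) := by
    rw [h.W_x2]
    unfold Q35 A5
    field_simp
    ring
  rw [hd, hn]
  field_simp

theorem W_inj {p' : V k} (h : Gen m p) (h' : Gen m p') (h18 : H18 m) (h1 : p.z = 1)
    (h1' : p'.z = 1) (hW : Wf m p' = Wf m p) (hr : rho m p' = rho m p) : p' = p := by
  have hU : ev (m 0) p' / ev (m 2) p' = ev (m 0) p / ev (m 2) p := by
    rw [h.U_eq, h'.U_eq, hW, hr]
  have hθ : ev (m 4) p' / ev (m 1) p' = ev (m 4) p / ev (m 1) p := by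
    rw [h.theta_eq h18, h'.theta_eq h18, hW, hU]
  exact pen_inj (m 0) (m 2) (m 1) (m 4) h1 h1' (h.L 2) (h.L 1)
    (h.M 1 4 (by decide) (by decide) (by decide) (by decide) (by decide)) (h'.L 2) (h'.L 1) hU hθ

/-- `rho = xf / pP tf`, `W = tf - kap / (1 - rho)`, and `zf` is `z` times a non-zero factor -/
theorem Tf_inj {p' : V k} {z z' : k} (h : Gen m p) (h' : Gen m p') (h18 : H18 m) (h1 : p.z = 1)
    (h1' : p'.z = 1) (hp : pP m (tf m p) ≠ 0) (hT : Tf m p' z' = Tf m p z) : p' = p ∧ z' = z := by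
  have ht : tf m p' = tf m p := congrArg Prod.fst hT
  have hx : xf m p' = xf m p := congrArg (fun w => w.2.1) hT
  have hz : zf m p' z' = zf m p z := congrArg (fun w => w.2.2) hT
  have hr : rho m p' = rho m p := by
    unfold xf at hx
    rw [ht] at hx
    exact mul_left_cancel₀ hp hx
  have hW : Wf m p' = Wf m p := by
    unfold tf at ht
    rw [hr] at ht
    exact add_right_cancel ht
  have hpp : p' = p := W_inj h h' h18 h1 h1' hW hr
  refine ⟨hpp, ?_⟩
  subst hpp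
  unfold zf at hz
  have hD : ev (m 0) p' ^ 2 * ev (m 1) p' * ev (m 4) p' * ev (m 5) p' ≠ 0 :=
    mul_ne_zero (mul_ne_zero (mul_ne_zero (pow_ne_zero 2 (h.L 0)) (h.L 1)) (h.L 4)) (h.L 5)
  rw [div_left_inj' hD] at hz
  exact mul_right_cancel₀ h.q hz

end Field

variable {Ω : Type} [Field Ω] [Algebra ℂ Ω] {M : IntermediateField ℂ Ω}

theorem pen_mem {a b c f p : V Ω} (ha : a.In M) (hb : b.In M) (hc : c.In M) (hf : f.In M)
    (h1 : p.z = 1) (hb0 : ev b p ≠ 0) (hc0 : ev c p ≠ 0) (hM : ML a b c f p ≠ 0)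
    (hU : ev a p / ev b p ∈ M) (hθ : ev f p / ev c p ∈ M) : p.In M := by
  have := cz Ω
  have e1 := pen_eq a b c f p hb0 hc0
  have hl : -ML a b c f p / (ev b p * ev c p) ≠ 0 :=
    div_ne_zero (neg_ne_zero.2 hM) (mul_ne_zero hb0 hc0)
  have hin : (pen a b c f (ev a p / ev b p) (ev f p / ev c p)).In M := by
    unfold pen
    apply cr_in
    · exact ⟨sub_mem ha.1 (mul_mem hU hb.1), sub_mem ha.2.1 (mul_mem hU hb.2.1),
        sub_mem ha.2.2 (mul_mem hU hb.2.2)⟩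
    · exact ⟨sub_mem hf.1 (mul_mem hθ hc.1), sub_mem hf.2.1 (mul_mem hθ hc.2.1),
        sub_mem hf.2.2 (mul_mem hθ hc.2.2)⟩
  rw [e1] at hin
  generalize -ML a b c f p / (ev b p * ev c p) = l at hin hl
  obtain ⟨hx, hy, hz⟩ := hin
  change l * p.x ∈ M at hx
  change l * p.y ∈ M at hy
  change l * p.z ∈ M at hz
  rw [h1, mul_one] at hz
  refine ⟨?_, ?_, ?_⟩
  · have := div_mem hx hz
    rwa [mul_div_cancel_left₀ _ hl] at this
  · have := div_mem hy hz
    rwa [mul_div_cancel_left₀ _ hl] at this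
  · rw [h1]
    exact one_mem M

variable {m : Fin 6 → V Ω} {p : V Ω}

theorem W_mem (hm : ∀ i, (m i).In M) (h : Gen m p) (h18 : H18 m) (h1 : p.z = 1)
    (hW : Wf m p ∈ M) (hr : rho m p ∈ M) : p.In M := by
  have := cz Ω
  have hx1 := xs_mem hm 1
  have hx4 := xs_mem hm 4
  have hU : ev (m 0) p / ev (m 2) p ∈ M := by
    rw [h.U_eq]
    exact div_mem (sub_mem (d5_mem hm) (mul_mem (div_mem (mul_mem hr (sub_mem hW hx1))
      (sub_mem (add_mem hW (kap_mem hm)) hx4)) (d6_mem hm)))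
      (mul_mem (sub_mem hW hx1) (sub_mem (one_mem M) hr))
  have hθ : ev (m 4) p / ev (m 1) p ∈ M := by
    rw [h.theta_eq h18]
    exact div_mem (sub_mem (mul_mem hU (sub_mem hW hx1)) (d5_mem hm))
      (mul_mem (br_mem (hm 0) (hm 1) (hm 3)) (sub_mem (br_mem (hm 0) (hm 1) (hm 5))
        (mul_mem (br_mem (hm 2) (hm 1) (hm 5)) hU)))
  exact pen_mem (hm 0) (hm 2) (hm 1) (hm 4) h1 (h.L 2) (h.L 1)
    (h.M 1 4 (by decide) (by decide) (by decide) (by decide) (by decide)) hU hθ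

theorem z_mem_psf (hm : ∀ i, (m i).In M) (h : Gen m p) (hp : p.In M) {z : Ω}
    (hz : psf m p z ∈ M) : z ∈ M := by
  have hM : ML (m 0) (m 2) (m 1) (m 4) p ≠ 0 :=
    h.M 1 4 (by decide) (by decide) (by decide) (by decide) (by decide)
  have hq := h.q35
  have h0 := h.L 0
  have h1 := h.L 1
  have h2 := h.L 2
  have h4 := h.L 4
  have e : z = -(psf m p z * (ev (m 0) p ^ 2 * ev (m 1) p ^ 2 * ev (m 2) p * ev (m 4) p)) /
      (ML (m 0) (m 2) (m 1) (m 4) p * Q35 m p) := by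
    unfold psf
    field_simp
  rw [e]
  exact div_mem (neg_mem (mul_mem hz (mul_mem (mul_mem (mul_mem (pow_mem (ev_mem (hm 0) hp) 2)
    (pow_mem (ev_mem (hm 1) hp) 2)) (ev_mem (hm 2) hp)) (ev_mem (hm 4) hp))))
    (mul_mem (ML_mem (hm 0) (hm 2) (hm 1) (hm 4) hp) (Q35_mem hm hp))

theorem z_mem_zf (hm : ∀ i, (m i).In M) (h : Gen m p) (hp : p.In M) {z : Ω}
    (hz : zf m p z ∈ M) : z ∈ M := by
  have hq := h.q
  have h0 := h.L 0
  have h1 := h.L 1
  have h4 := h.L 4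
  have h5 := h.L 5
  have e : z = zf m p z * (ev (m 0) p ^ 2 * ev (m 1) p * ev (m 4) p * ev (m 5) p) / q0 m p := by
    unfold zf
    field_simp
  rw [e]
  exact div_mem (mul_mem hz (mul_mem (mul_mem (mul_mem (pow_mem (ev_mem (hm 0) hp) 2)
    (ev_mem (hm 1) hp)) (ev_mem (hm 4) hp)) (ev_mem (hm 5) hp))) (q0_mem hm hp)

theorem t_mem (hm : ∀ i, (m i).In M) (h : Gen m p) (h18 : H18 m) (h1 : p.z = 1)
    (ht : tf m p ∈ M) (hr : rho m p ∈ M) : p.In M := by
  have e : Wf m p = tf m p - kap m / (1 - rho m p) := by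
    unfold tf
    ring
  have hW : Wf m p ∈ M := by
    rw [e]
    exact sub_mem ht (div_mem (kap_mem hm) (sub_mem (one_mem M) hr))
  exact W_mem hm h h18 h1 hW hr

theorem T_mem (hm : ∀ i, (m i).In M) (h : Gen m p) (h18 : H18 m) (h1 : p.z = 1)
    (hp : pP m (tf m p) ≠ 0) (ht : tf m p ∈ M) (hx : xf m p ∈ M) : p.In M := by
  have e : rho m p = xf m p / pP m (tf m p) := by
    unfold xf
    rw [mul_div_cancel_left₀ _ hp]
  have hr : rho m p ∈ M := by
    rw [e]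
    exact div_mem hx (pP_mem hm ht)
  exact t_mem hm h h18 h1 ht hr

end

end Pool.Agent.MP_1c689d_ag.SX

end

section

set_option autoImplicit false

namespace Pool.Agent.MP_1c689d_ag.SX

open Pool.Agent.MP_1c689d_ag.FP

noncomputable section

open Polynomial

variable {Ω E : Type} [Field Ω] [Field E] [Algebra ℂ Ω] [Algebra ℂ E] [Algebra Ω E]
  [IsScalarTower ℂ Ω E] {K : Type} [Field K] [Algebra ℂ K]

variable {full : Prop} {s u v z : K} {s₀ c₀ : Ω} {m : Fin 6 → V Ω}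

/-! Basic facts about labellings.  `cz Ω` provides `CharZero Ω`. -/

theorem Lab.indep (H : Lab full s u v z s₀ c₀ m) (ψ : K →ₐ[ℂ] Ω) :
    AlgebraicIndependent ℂ ![ψ s, ψ u, ψ v] := by
  have h := H.ind.map' (f := ψ) ψ.injective
  have e : ψ ∘ ![s, u, v] = ![ψ s, ψ u, ψ v] := by
    funext i
    fin_cases i <;> rfl
  rwa [e] at h

theorem LabB_top (H : Lab full s u v z s₀ c₀ m) (h3 : Algebra.trdeg ℂ Ω = 3) {ψ : K →ₐ[ℂ] Ω}
    (hs : ψ s = s₀) {S : Set Ω} (h0 : s₀ ∈ acl S) (hp : (pt u v ψ).In (acl S)) : acl S = ⊤ := by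
  refine top_unique ?_
  rw [← acl_top_of_indep h3 _ (H.indep ψ), range_vec3, hs]
  refine acl_le ?_
  rintro x (rfl | rfl | rfl)
  exacts [h0, hp.1, hp.2.1]

theorem LabB_le {a : Ω} (S : Set Ω) : acl {a} ≤ acl (insert a S) :=
  acl_mono (Set.singleton_subset_iff.2 (Set.mem_insert _ _))

theorem LabB_not (H : Lab full s u v z s₀ c₀ m) (h3 : Algebra.trdeg ℂ Ω = 3) {ψ : K →ₐ[ℂ] Ω}
    (hs : ψ s = s₀) (r : Ω) : ¬ (pt u v ψ).In (acl {s₀, r}) := by
  intro hp
  have h1 := LabB_top H h3 hs (subset_acl _ (by simp)) hp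
  have h2 : ({s₀, r, r} : Set Ω) = {s₀, r} := by simp
  exact transc_of_acl_top h3 (h2 ▸ h1 : acl {s₀, r, r} = ⊤)
    (isAlgebraic_algebraMap (⟨r, subset_acl _ (by simp)⟩ : acl {s₀, r}))

theorem Lab.top (H : Lab full s u v z s₀ c₀ m) (h3 : Algebra.trdeg ℂ Ω = 3) (ψ : K →ₐ[ℂ] Ω) :
    acl (Set.range ψ) = ⊤ := by
  refine top_unique ?_
  rw [← acl_top_of_indep h3 _ (H.indep ψ), range_vec3]
  refine acl_mono ?_
  rintro x (rfl | rfl | rfl) <;> exact ⟨_, rfl⟩

/-- `gen_of_indep` with `indep_acl` -/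
theorem Lab.gp (H : Lab full s u v z s₀ c₀ m) {ψ : K →ₐ[ℂ] Ω} (hs : ψ s = s₀) :
    Gen m (pt u v ψ) := by
  have h := H.indep ψ
  rw [hs] at h
  exact gen_of_indep _ H.mem H.good.1 (indep_acl h)

theorem Lab.z_ne (H : Lab full s u v z s₀ c₀ m) {ψ : K →ₐ[ℂ] Ω} (hs : ψ s = s₀) : ψ z ≠ 0 := by
  intro h0
  have h := H.eq ψ hs
  rw [h0, prodL_eq, zero_pow two_ne_zero] at h
  exact mul_ne_zero H.c0 (Finset.prod_ne_zero_iff.2 fun i _ => (H.gp hs).L i) h.symm

/-- `map_mem_of_adjoin` -/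
theorem Lab.range_mem (H : Lab full s u v z s₀ c₀ m) {ψ : K →ₐ[ℂ] Ω} (hs : ψ s = s₀)
    (M : IntermediateField ℂ Ω) (h0 : s₀ ∈ M) (hp : (pt u v ψ).In M) (hz : ψ z ∈ M) (y : K) :
    ψ y ∈ M := by
  refine map_mem_of_adjoin H.gen ψ M ?_ y
  rintro x (rfl | rfl | rfl | rfl)
  exacts [hs ▸ h0, hp.1, hp.2.1, hz]

/-- `hom_ext_adjoin` -/
theorem Lab.ext (H : Lab full s u v z s₀ c₀ m) {ψ ψ' : K →ₐ[ℂ] Ω} (hs : ψ s = s₀)
    (hs' : ψ' s = s₀) (hp : pt u v ψ' = pt u v ψ) (hz : ψ' z = ψ z) : ψ' = ψ := by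
  refine hom_ext_adjoin H.gen ?_
  rintro x (rfl | rfl | rfl | rfl)
  exacts [hs'.trans hs.symm, congrArg V.x hp, congrArg V.y hp, hz]

/-- Otherwise `t_mem` with `M = acl {s₀, rho}` puts `ψ u, ψ v` into `M`, so
`acl {s₀, rho, rho} = ⊤` (`acl_top_of_indep`), contradicting `transc_of_acl_top`. -/
theorem Lab.t_not_mem (H : Lab full s u v z s₀ c₀ m) (h3 : Algebra.trdeg ℂ Ω = 3)
    {ψ : K →ₐ[ℂ] Ω} (hs : ψ s = s₀) : tf m (pt u v ψ) ∉ acl {s₀} := by
  intro h
  exact LabB_not H h3 hs (rho m (pt u v ψ)) (t_mem (fun i => (H.mem i).mono (LabB_le _))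
    (H.gp hs) H.good.1 rfl (LabB_le _ h) (subset_acl _ (by simp)))

theorem Lab.pP_ne (H : Lab full s u v z s₀ c₀ m) (h3 : Algebra.trdeg ℂ Ω = 3)
    {ψ : K →ₐ[ℂ] Ω} (hs : ψ s = s₀) :
    pP m (tf m (pt u v ψ)) ≠ 0 ∧ qP m (tf m (pt u v ψ)) ≠ 0 := by
  have h : ∀ i, tf m (pt u v ψ) - xs m i ≠ 0 := fun i e =>
    H.t_not_mem h3 hs (by rw [sub_eq_zero.1 e]; exact xs_mem H.mem i)
  exact ⟨mul_ne_zero (mul_ne_zero (h 0) (h 1)) (h 2), mul_ne_zero (mul_ne_zero (h 3) (h 4)) (h 5)⟩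

/-- `T_mem` with `M = acl {s₀, t, X}` -/
theorem Lab.acl_T (H : Lab full s u v z s₀ c₀ m) (h3 : Algebra.trdeg ℂ Ω = 3)
    {ψ : K →ₐ[ℂ] Ω} (hs : ψ s = s₀) :
    acl {s₀, tf m (pt u v ψ), xf m (pt u v ψ)} = ⊤ := by
  exact LabB_top H h3 hs (subset_acl _ (by simp))
    (T_mem (fun i => (H.mem i).mono (LabB_le _)) (H.gp hs) H.good.1 rfl (H.pP_ne h3 hs).1
      (subset_acl _ (by simp)) (subset_acl _ (by simp)))

/-- `Tf_inj` -/
theorem Lab.inj (H : Lab full s u v z s₀ c₀ m) (h3 : Algebra.trdeg ℂ Ω = 3)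
    {ψ ψ' : K →ₐ[ℂ] Ω} (hs : ψ s = s₀) (hs' : ψ' s = s₀)
    (h : TT u v z m ψ' = TT u v z m ψ) : ψ' = ψ := by
  have := cz Ω
  obtain ⟨h1, h2⟩ := Tf_inj (H.gp hs) (H.gp hs') H.good.1 rfl rfl (H.pP_ne h3 hs).1 h
  exact H.ext hs hs' h1 h2

theorem pt_comp (χ : Ω →ₐ[ℂ] Ω) (ψ : K →ₐ[ℂ] Ω) : pt u v (χ.comp ψ) = (pt u v ψ).map χ := by
  exact V.ext rfl rfl (map_one χ).symm

/-- `Good.perm`, `prodL_perm` -/
theorem Lab.perm (H : Lab full s u v z s₀ c₀ m) {σ : Fin 6 → Fin 6} (hi : Function.Injective σ)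
    (ha : Allowed full σ) : Lab full s u v z s₀ c₀ (m ∘ σ) := by
  exact ⟨H.ind, H.gen, fun i => H.mem (σ i), H.cmem, H.c0, H.good.perm hi ha,
    fun ψ hs => by rw [prodL_perm m _ hi]; exact H.eq ψ hs⟩

/-- `sign_move` with `w₀ = s₀`, `w₁ = ψ u`, `t = ψ v`, `θ = ψ z` -/
theorem Lab.sgn [IsAlgClosed Ω] [IsAlgClosed E] (H : Lab full s u v z s₀ c₀ m) (Λ : Line Ω E)
    (h3 : Algebra.trdeg ℂ Ω = 3) {c : (K →ₐ[ℂ] Ω) → ℚ} (hc : Λ.Adm c) (hne : ¬ ∀ ψ, c ψ = 0)
    {ψ : K →ₐ[ℂ] Ω} (hs : ψ s = s₀) :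
    ∃ ψ' : K →ₐ[ℂ] Ω, ψ' s = s₀ ∧ pt u v ψ' = pt u v ψ ∧ ψ' z = -ψ z ∧ c ψ' = -c ψ := by
  have m0 : s₀ ∈ acl {s₀, ψ u} := subset_acl _ (by simp)
  have m1 : ψ u ∈ acl {s₀, ψ u} := subset_acl _ (by simp)
  have hle : acl {s₀} ≤ IntermediateField.adjoin ℂ (insert (ψ v) (acl {s₀, ψ u} : Set Ω)) :=
    fun x hx => mem_adj_insert (LabB_le _ hx)
  obtain ⟨χ, g1, g2, g3, g4⟩ := sign_move Λ h3 c hc hne ψ (H.top h3 ψ) s₀ (ψ u) (ψ v) (ψ z)
    (H.range_mem hs _ (IntermediateField.subset_adjoin _ _ (Or.inl m0))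
      ⟨IntermediateField.subset_adjoin _ _ (Or.inl m1),
        IntermediateField.subset_adjoin _ _ (Or.inr (Or.inl rfl)), one_mem _⟩
      (IntermediateField.subset_adjoin _ _ (Or.inr (Or.inr rfl))))
    (by
      rw [H.eq ψ hs]
      exact mul_mem (hle H.cmem) (prodL_mem (fun i => (H.mem i).mono hle)
        ⟨mem_adj_insert m1, mem_adj_self, one_mem _⟩))
  exact ⟨χ.comp ψ, by rw [AlgHom.comp_apply, hs, g1 _ m0], V.ext (g1 _ m1) g2 rfl, g3, g4⟩

theorem Mv.id (c : (K →ₐ[ℂ] Ω) → ℚ) : Mv full s u v z s₀ c₀ c id := by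
  exact fun m H => ⟨H, fun ψ hs => ⟨ψ, hs, rfl, rfl⟩⟩

theorem Mv.comp {c : (K →ₐ[ℂ] Ω) → ℚ} {σ τ : Fin 6 → Fin 6} (h₁ : Mv full s u v z s₀ c₀ c σ)
    (h₂ : Mv full s u v z s₀ c₀ c τ) : Mv full s u v z s₀ c₀ c (σ ∘ τ) := by
  intro m H
  obtain ⟨H₁, k₁⟩ := h₁ m H
  obtain ⟨H₂, k₂⟩ := h₂ _ H₁
  refine ⟨H₂, fun ψ hs => ?_⟩
  obtain ⟨ψ₁, a₁, b₁, c₁⟩ := k₁ ψ hs
  obtain ⟨ψ₂, a₂, b₂, c₂⟩ := k₂ ψ₁ a₁
  exact ⟨ψ₂, a₂, b₂.trans b₁, c₂.trans c₁⟩

end

end Pool.Agent.MP_1c689d_ag.SX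

end

section

set_option autoImplicit false

namespace Pool.Agent.MP_1c689d_ag.SX

open Pool.Agent.MP_1c689d_ag.FP

noncomputable section

open Polynomial

variable {Ω E : Type} [Field Ω] [Field E] [Algebra ℂ Ω] [Algebra ℂ E] [Algebra Ω E]
  [IsScalarTower ℂ Ω E] {K : Type} [Field K] [Algebra ℂ K]

variable {full : Prop} {s u v z : K} {s₀ c₀ : Ω} {m : Fin 6 → V Ω}

theorem MvJ_zero {k : Type} [Field k] (a b c f p q : V k) (hcf : ML a b c f p ≠ 0)
    (hU : ev a q * ev b p = ev b q * ev a p) (hc : ev c q = 0) (hf : ev f q = 0) :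
    q.x = 0 ∧ q.y = 0 ∧ q.z = 0 := by
  have e0 : br ⟨ev b p * a.x - ev a p * b.x, ev b p * a.y - ev a p * b.y,
      ev b p * a.z - ev a p * b.z⟩ c f = ML a b c f p := by
    simp only [ML, br]
    ring
  have e1 : ev ⟨ev b p * a.x - ev a p * b.x, ev b p * a.y - ev a p * b.y,
      ev b p * a.z - ev a p * b.z⟩ q = 0 := by
    generalize ev b p = B at hU ⊢
    generalize ev a p = A at hU ⊢
    simp only [ev] at hU ⊢
    linear_combination hU
  have hx := br_mul_x ⟨ev b p * a.x - ev a p * b.x, ev b p * a.y - ev a p * b.y,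
      ev b p * a.z - ev a p * b.z⟩ c f q
  have hy := br_mul_y ⟨ev b p * a.x - ev a p * b.x, ev b p * a.y - ev a p * b.y,
      ev b p * a.z - ev a p * b.z⟩ c f q
  have hz := br_mul_z ⟨ev b p * a.x - ev a p * b.x, ev b p * a.y - ev a p * b.y,
      ev b p * a.z - ev a p * b.z⟩ c f q
  rw [e0, e1, hc, hf, zero_mul, zero_mul, zero_mul, add_zero, add_zero] at hx hy hz
  exact ⟨(mul_eq_zero.1 hx).resolve_left hcf, (mul_eq_zero.1 hy).resolve_left hcf,
    (mul_eq_zero.1 hz).resolve_left hcf⟩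

theorem MvJ_ev {k : Type} [Field k] (a p' J : V k) (l : k) :
    ev a ⟨p'.x - l * J.x, p'.y - l * J.y, p'.z - l * J.z⟩ = ev a p' - l * ev a J := by
  simp only [ev]
  ring

/-- the quadratic equation for `θ` -/
theorem MvJ_quad {k : Type} [Field k] {c₀ A B C D F G z cf cg cd df gf : k} (hc₀ : c₀ ≠ 0)
    (hA : A ≠ 0) (hB : B ≠ 0) (hC : C ≠ 0) (hD : D ≠ 0) (hcg : cg ≠ 0)
    (h1 : D * cf = df * C + cd * F) (h2 : G * cf = gf * C + cg * F)
    (hz : z ^ 2 = c₀ * (A * B * C * D * F * G)) :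
    (F / C) ^ 2 + (c₀ * (A / B) * (gf / B) - (z / (B * C * D)) ^ 2 * (cd / B)) /
      (c₀ * (A / B) * (cg / B)) * (F / C) +
      -((z / (B * C * D)) ^ 2 * (df / B)) / (c₀ * (A / B) * (cg / B)) = 0 := by
  have e1 : df = (D * cf - cd * F) / C := by
    rw [eq_div_iff hC]
    linear_combination -h1
  have e2 : gf = (G * cf - cg * F) / C := by
    rw [eq_div_iff hC]
    linear_combination -h2
  rw [div_pow z, hz, e1, e2]
  field_simp
  ring

/-- the second root -/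
theorem MvJ_root {k : Type} [Field k] {c₀ A B C D F G z cg df c₁ C' F' : k} (hc₀ : c₀ ≠ 0)
    (hA : A ≠ 0) (hB : B ≠ 0) (hC : C ≠ 0) (hD : D ≠ 0) (hF : F ≠ 0) (hcg : cg ≠ 0)
    (hC' : C' ≠ 0) (hz : z ^ 2 = c₀ * (A * B * C * D * F * G))
    (hq : (F / C) ^ 2 + c₁ * (F / C) +
      -((z / (B * C * D)) ^ 2 * (df / B)) / (c₀ * (A / B) * (cg / B)) = 0)
    (hr : F' / C' = -c₁ - F / C) : F' * (D * cg) = -(C' * (G * df)) := by
  have e1 : F' / C' * (F / C) =
      -((z / (B * C * D)) ^ 2 * (df / B)) / (c₀ * (A / B) * (cg / B)) := by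
    rw [hr]
    linear_combination -hq
  rw [div_pow z, hz] at e1
  field_simp at e1
  linear_combination e1

theorem MvJ_lam {k : Type} [Field k] (a b c d p : V k) (hb : ev b p ≠ 0) :
    ML a b c d p / ev b p = br a c d - br b c d * (ev a p / ev b p) := by
  rw [ML]
  field_simp

/-- Let `l = ev c p' / ev c (JV …)` and `q = p' - l • JV …`.  By `ev_JV` the forms `c` and `f`
vanish at `q`, and `ev a q * ev b p = ev b q * ev a p`; `cramer` or `br_mul_x` etc. show that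
`ML a b c f p` kills every coordinate of `q` (the form `ev b p • a - ev a p • b` has bracket
`ML a b c f p` with `c, f`). -/
theorem JV_uniq {k : Type} [Field k] (a b c d f g p p' : V k) (hd : ev d p ≠ 0)
    (hcf : ML a b c f p ≠ 0) (hcg : ML a b c g p ≠ 0) (hc' : ev c p' ≠ 0)
    (hU : ev a p' * ev b p = ev a p * ev b p')
    (hθ : ev f p' * (ev d p * ML a b c g p) = -(ev c p' * (ev g p * ML a b d f p))) :
    ∃ l, l ≠ 0 ∧ p' = V.sm l (JV a b c d f g p) := by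
  obtain ⟨-, e1, e2, -⟩ := ev_JV a b c d f g p
  have hJ : ev c (JV a b c d f g p) ≠ 0 := by
    rw [e1]
    exact mul_ne_zero hd (mul_ne_zero hcf hcg)
  refine ⟨ev c p' / ev c (JV a b c d f g p), div_ne_zero hc' hJ, ?_⟩
  obtain ⟨h1, h2, h3⟩ := MvJ_zero a b c f p
    ⟨p'.x - ev c p' / ev c (JV a b c d f g p) * (JV a b c d f g p).x,
      p'.y - ev c p' / ev c (JV a b c d f g p) * (JV a b c d f g p).y,
      p'.z - ev c p' / ev c (JV a b c d f g p) * (JV a b c d f g p).z⟩ hcf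
    (by
      rw [MvJ_ev, MvJ_ev, ev_JV_a, ev_JV_b]
      linear_combination hU)
    (by rw [MvJ_ev, div_mul_cancel₀ _ hJ, sub_self])
    (by
      rw [MvJ_ev, e1, e2]
      field_simp
      linear_combination hθ)
  exact V.ext (sub_eq_zero.1 h1) (sub_eq_zero.1 h2) (sub_eq_zero.1 h3)

/-- The involution along the pencil of lines through the point `m 0 ∩ m 2`.  Write `a = m 0`,
`b = m 2`, `p = pt u v ψ`, `U = ev a p / ev b p`, `θ = ev f p / ev c p`,
`y = ψ z / (ev b p * ev c p * ev d p)`, and `λ x x' = ML a b x x' p / ev b p = br a x x' - br b x x' * U`,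
an element of `acl {s₀, U}`.  By `ML_three`, `ev d p / ev c p = (λ d f + λ c d θ) / λ c f` and
`ev g p / ev c p = (λ g f + λ c g θ) / λ c f`, so the equation of the double plane gives
`c₀ U θ (λ g f + λ c g θ) = y² (λ d f + λ c d θ)`.  Apply `quad` with `w₀ = s₀`, `w₁ = U`, the
variable `y`, and `θ` (membership: `pen_mem`, `Lab.range_mem`).  The product of the roots is
`- y² λ d f / (c₀ U λ c g)`, so `χ θ = - (ev g p / ev d p) λ d f / λ c g`.  Apply `JV_uniq` to the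
point `p' = p.map χ` of `ψ' = χ.comp ψ`; `χ y = y` gives the formula for `ψ' z` (`ev_JV`). -/
theorem mvJ [IsAlgClosed Ω] [IsAlgClosed E] (Λ : Line Ω E) (h3 : Algebra.trdeg ℂ Ω = 3)
    {c : (K →ₐ[ℂ] Ω) → ℚ} (hc : Λ.Adm c) (hne : ¬ ∀ ψ, c ψ = 0)
    (H : Lab full s u v z s₀ c₀ m) (ic id jf jg : Fin 6)
    (hinj : Function.Injective ![0, 2, ic, id, jf, jg]) {ψ : K →ₐ[ℂ] Ω} (hs : ψ s = s₀) :
    ∃ (ψ' : K →ₐ[ℂ] Ω) (l : Ω), ψ' s = s₀ ∧ c ψ' = -c ψ ∧ l ≠ 0 ∧
      pt u v ψ' = V.sm l (JV (m 0) (m 2) (m ic) (m id) (m jf) (m jg) (pt u v ψ)) ∧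
      ψ' z = l ^ 3 * (ψ z * Jz (m 0) (m 2) (m ic) (m id) (m jf) (m jg) (pt u v ψ)) := by
  have := cz Ω
  have hG := H.gp hs
  have c0 : ic ≠ 0 := hinj.ne (show (2 : Fin 6) ≠ 0 by decide)
  have c2 : ic ≠ 2 := hinj.ne (show (2 : Fin 6) ≠ 1 by decide)
  have f0 : jf ≠ 0 := hinj.ne (show (4 : Fin 6) ≠ 0 by decide)
  have f2 : jf ≠ 2 := hinj.ne (show (4 : Fin 6) ≠ 1 by decide)
  have g0 : jg ≠ 0 := hinj.ne (show (5 : Fin 6) ≠ 0 by decide)
  have g2 : jg ≠ 2 := hinj.ne (show (5 : Fin 6) ≠ 1 by decide)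
  have cf : ic ≠ jf := hinj.ne (show (2 : Fin 6) ≠ 4 by decide)
  have cg : ic ≠ jg := hinj.ne (show (2 : Fin 6) ≠ 5 by decide)
  have hcf := hG.M ic jf c0 c2 f0 f2 cf
  have hcg := hG.M ic jg c0 c2 g0 g2 cg
  have hz : ψ z ^ 2 = c₀ * (ev (m 0) (pt u v ψ) * ev (m 2) (pt u v ψ) * ev (m ic) (pt u v ψ) *
      ev (m id) (pt u v ψ) * ev (m jf) (pt u v ψ) * ev (m jg) (pt u v ψ)) := by
    rw [H.eq ψ hs, ← prodL_perm m _ hinj]
    rfl
  have t1 := ML_three (m 0) (m 2) (m ic) (m id) (m jf) (pt u v ψ)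
  have t2 := ML_three (m 0) (m 2) (m ic) (m jg) (m jf) (pt u v ψ)
  rw [ML_swap (m 0) (m 2) (m ic) (m jf)] at t1 t2
  have hq := MvJ_quad (df := ML (m 0) (m 2) (m id) (m jf) (pt u v ψ))
    (cd := ML (m 0) (m 2) (m ic) (m id) (pt u v ψ))
    (gf := ML (m 0) (m 2) (m jg) (m jf) (pt u v ψ)) H.c0 (hG.L 0) (hG.L 2) (hG.L ic) (hG.L id)
    (cf := ML (m 0) (m 2) (m ic) (m jf) (pt u v ψ)) hcg (by linear_combination -t1)
    (by linear_combination -t2) hz
  have hk0 : acl {s₀} ≤ acl {s₀, ev (m 0) (pt u v ψ) / ev (m 2) (pt u v ψ)} :=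
    acl_mono (Set.singleton_subset_iff.2 (Set.mem_insert _ _))
  have hU : ev (m 0) (pt u v ψ) / ev (m 2) (pt u v ψ) ∈
      acl {s₀, ev (m 0) (pt u v ψ) / ev (m 2) (pt u v ψ)} := subset_acl _ (by simp)
  have hs0 : s₀ ∈ acl {s₀} := subset_acl _ rfl
  have hBCD : ev (m 2) (pt u v ψ) * ev (m ic) (pt u v ψ) * ev (m id) (pt u v ψ) ≠ 0 :=
    mul_ne_zero (mul_ne_zero (hG.L 2) (hG.L ic)) (hG.L id)
  have hK : ∀ x, ψ x ∈ IntermediateField.adjoin ℂ
      ((acl {s₀, ev (m 0) (pt u v ψ) / ev (m 2) (pt u v ψ)} : Set Ω) ∪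
      {ψ z / (ev (m 2) (pt u v ψ) * ev (m ic) (pt u v ψ) * ev (m id) (pt u v ψ)),
        ev (m jf) (pt u v ψ) / ev (m ic) (pt u v ψ)}) := by
    have hsub := IntermediateField.subset_adjoin ℂ
      ((acl {s₀, ev (m 0) (pt u v ψ) / ev (m 2) (pt u v ψ)} : Set Ω) ∪
      {ψ z / (ev (m 2) (pt u v ψ) * ev (m ic) (pt u v ψ) * ev (m id) (pt u v ψ)),
        ev (m jf) (pt u v ψ) / ev (m ic) (pt u v ψ)})
    have hm := fun i => (H.mem i).mono (M' := IntermediateField.adjoin ℂ _)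
      fun x hx => hsub (Or.inl (hk0 hx))
    have hp := pen_mem (hm 0) (hm 2) (hm ic) (hm jf) rfl (hG.L 2) (hG.L ic) hcf
      (hsub (Or.inl hU)) (hsub (Or.inr (by simp)))
    refine H.range_mem hs _ (hsub (Or.inl (hk0 hs0))) hp ?_
    have hy := mul_mem (hsub (Or.inr (Set.mem_insert _ _)))
      (mul_mem (mul_mem (ev_mem (hm 2) hp) (ev_mem (hm ic) hp)) (ev_mem (hm id) hp))
    rwa [div_mul_cancel₀ (ψ z) hBCD] at hy
  have hsub := IntermediateField.subset_adjoin ℂ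
    (insert (ψ z / (ev (m 2) (pt u v ψ) * ev (m ic) (pt u v ψ) * ev (m id) (pt u v ψ)))
      (acl {s₀, ev (m 0) (pt u v ψ) / ev (m 2) (pt u v ψ)} : Set Ω))
  have hm := fun i => (H.mem i).mono (M' := IntermediateField.adjoin ℂ _)
    fun x hx => hsub (Or.inr (hk0 hx))
  have a1 := hsub (Set.mem_insert _ _)
  have a2 := hsub (Or.inr hU)
  have a3 := hsub (Or.inr (hk0 H.cmem))
  have a4 : ∀ i j, ML (m 0) (m 2) (m i) (m j) (pt u v ψ) / ev (m 2) (pt u v ψ) ∈
      IntermediateField.adjoin ℂ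
      (insert (ψ z / (ev (m 2) (pt u v ψ) * ev (m ic) (pt u v ψ) * ev (m id) (pt u v ψ)))
      (acl {s₀, ev (m 0) (pt u v ψ) / ev (m 2) (pt u v ψ)} : Set Ω)) := fun i j => by
    rw [MvJ_lam _ _ _ _ _ (hG.L 2)]
    exact sub_mem (br_mem (hm 0) (hm i) (hm j)) (mul_mem (br_mem (hm 2) (hm i) (hm j)) a2)
  obtain h | ⟨χ, h1, h2, h4, -, h5⟩ := quad Λ h3 c hc ψ (H.top h3 ψ) s₀ _ _ _ _ _ hK
    (div_mem (neg_mem (mul_mem (pow_mem a1 2) (a4 id jf))) (mul_mem (mul_mem a3 a2) (a4 ic jg)))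
    (div_mem (sub_mem (mul_mem (mul_mem a3 a2) (a4 jg jf)) (mul_mem (pow_mem a1 2) (a4 ic id)))
      (mul_mem (mul_mem a3 a2) (a4 ic jg))) hq
  · exact absurd h hne
  have hs1 : (χ.comp ψ) s = s₀ := by
    rw [AlgHom.comp_apply, hs]
    exact h1 _ (hk0 hs0)
  have hev : ∀ i, χ (ev (m i) (pt u v ψ)) = ev (m i) (pt u v (χ.comp ψ)) := fun i => by
    rw [map_ev, pt_comp, V.map_fix (H.mem i) fun x hx => h1 x (hk0 hx)]
  have hG' := H.gp hs1
  have b1 := h1 _ hU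
  rw [map_div₀, hev, hev, div_eq_div_iff (hG'.L 2) (hG.L 2)] at b1
  rw [map_div₀, hev, hev] at h4
  obtain ⟨l, hl, hp⟩ := JV_uniq (m 0) (m 2) (m ic) (m id) (m jf) (m jg) (pt u v ψ)
    (pt u v (χ.comp ψ)) (hG.L id) hcf hcg (hG'.L ic) b1
    (MvJ_root H.c0 (hG.L 0) (hG.L 2) (hG.L ic) (hG.L id) (hG.L jf) hcg (hG'.L ic) hz hq h4)
  refine ⟨χ.comp ψ, l, hs1, h5, hl, hp, ?_⟩
  obtain ⟨e1, e2, -, -⟩ := ev_JV (m 0) (m 2) (m ic) (m id) (m jf) (m jg) (pt u v ψ)
  rw [map_div₀, map_mul, map_mul, hev, hev, hev,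
    div_eq_div_iff (mul_ne_zero (mul_ne_zero (hG'.L 2) (hG'.L ic)) (hG'.L id)) hBCD,
    hp, ev_sm, ev_sm, ev_sm, ev_JV_b, e1, e2] at h2
  refine mul_right_cancel₀ hBCD ?_
  rw [AlgHom.comp_apply, h2, Jz]
  ring

end

end Pool.Agent.MP_1c689d_ag.SX

end

section

set_option autoImplicit false

namespace Pool.Agent.MP_1c689d_ag.SX

open Pool.Agent.MP_1c689d_ag.FP

noncomputable section

open Polynomial

/-! The involutions attached to `g4` and `g5` intertwine the two fibrations.  Write `P` for the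
point `JV …`, `N` for `JN …`, `L i = ev (m i) p`, `Λ i j = ML (m 0) (m 2) (m i) (m j) p`.  Remove
the scalar `l` by `Tf_sm` and `Gen_sm` (`-(l^3 * y) = l^3 * (-y)`).  `N ≠ 0` because
`ev (m 0) P = N * L 0` does not vanish. -/

variable {k : Type} [Field k] [CharZero k] {m : Fin 6 → V k} {p p' : V k} {l : k}

/-- Use `Tf_of_W`, `kap_g4`, `pP_g4`.  `MM (m ∘ g4) P = N Λ 3 5 * ML 0 1 3 4 P` and `key4` give
`Wf (m ∘ g4) P = Wf m p` (`n6 (m ∘ g4) = w46 m + n6 m` by `xs_g4` at `2`).  `A5 / A6` is preserved,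
and `Q36 / Q35` is preserved by `Gen.W_x2`, `Gen.W_x5`, `xs_g4`; the same formulas give `psf`. -/
theorem J4 (h : Gen m p) (h' : Gen (m ∘ g4) p') (hl : l ≠ 0)
    (e : p' = V.sm l (JV (m 0) (m 2) (m 1) (m 3) (m 4) (m 5) p)) (z : k) :
    Tf (m ∘ g4) p' (-(l ^ 3 * (z * Jz (m 0) (m 2) (m 1) (m 3) (m 4) (m 5) p))) = Tf m p z := by
  subst e
  rw [Gen_sm hl] at h'
  rw [← mul_neg, Tf_sm hl]
  obtain ⟨e3, e1, e4, e5⟩ := ev_JV (m 0) (m 2) (m 1) (m 3) (m 4) (m 5) p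
  have e0 := ev_JV_a (m 0) (m 2) (m 1) (m 3) (m 4) (m 5) p
  have e2 := ev_JV_b (m 0) (m 2) (m 1) (m 3) (m 4) (m 5) p
  have eM := ML_JV (m 0) (m 2) (m 1) (m 3) (m 4) (m 5) p
  have k4 := key4 m p
  have hJ : Jz (m 0) (m 2) (m 1) (m 3) (m 4) (m 5) p =
      JN (m 0) (m 2) (m 1) (m 3) (m 4) (m 5) p * ML (m 0) (m 2) (m 1) (m 4) p *
        ML (m 0) (m 2) (m 1) (m 5) p * ML (m 0) (m 2) (m 3) (m 4) p *
        ML (m 0) (m 2) (m 3) (m 5) p := rfl
  rw [hJ]
  generalize JV (m 0) (m 2) (m 1) (m 3) (m 4) (m 5) p = P at *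
  generalize JN (m 0) (m 2) (m 1) (m 3) (m 4) (m 5) p = N at *
  have hN : N ≠ 0 := by
    have := h'.L 0
    simp only [Function.comp, g4_0] at this
    rw [e0] at this
    exact left_ne_zero_of_mul this
  have L0 := h.L 0
  have L1 := h.L 1
  have L2 := h.L 2
  have L4 := h.L 4
  have M34 := h.M 3 4 (by decide) (by decide) (by decide) (by decide) (by decide)
  have M35 := h.M 3 5 (by decide) (by decide) (by decide) (by decide) (by decide)
  have M15 := h.M 1 5 (by decide) (by decide) (by decide) (by decide) (by decide)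
  have hx := xs_g4 m
  have x1 : xs (m ∘ g4) 1 = xs m 1 := by rw [hx]; rfl
  have x2 : n6 (m ∘ g4) = w46 m + n6 m := congrFun hx 2
  have x4 : xs (m ∘ g4) 4 = xs m 4 := by rw [hx]; rfl
  have hW : Wf (m ∘ g4) P = Wf m p := by
    unfold Wf
    rw [x2]
    unfold MM at *
    simp only [Function.comp, g4_0, g4_1, g4_2, g4_3, g4_4, g4_5]
    rw [k4, eM, e0, e3]
    field_simp
    ring
  have hA5 : A5 (m ∘ g4) P =
      -(N * ML (m 0) (m 2) (m 3) (m 4) p * ML (m 0) (m 2) (m 3) (m 5) p) * A5 m p := by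
    unfold A5
    simp only [Function.comp, g4_0, g4_1, g4_2, g4_4, g4_5]
    rw [eM, e5]
    ring
  have hA6 : A6 (m ∘ g4) P =
      -(N * ML (m 0) (m 2) (m 3) (m 4) p * ML (m 0) (m 2) (m 3) (m 5) p) * A6 m p := by
    unfold A6
    simp only [Function.comp, g4_0, g4_1, g4_2, g4_4, g4_5]
    rw [eM, e4]
    ring
  have hQ5 : Q35 (m ∘ g4) P =
      N * ML (m 0) (m 2) (m 3) (m 4) p * ML (m 0) (m 2) (m 3) (m 5) p * Q35 m p := by
    have a := h'.W_x2
    rw [hW, x1, h.W_x2] at a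
    simp only [Function.comp, g4_0, g4_1] at a
    rw [e0, e3] at a
    field_simp at a
    linear_combination -a
  have hQ6 : Q36 (m ∘ g4) P =
      N * ML (m 0) (m 2) (m 3) (m 4) p * ML (m 0) (m 2) (m 3) (m 5) p * Q36 m p := by
    have a := h'.W_x5
    rw [hW, x4, kap_g4, h.W_x5] at a
    simp only [Function.comp, g4_0, g4_1] at a
    rw [e0, e3] at a
    field_simp at a
    linear_combination -a
  have a6 := h.a6
  have q5 := h.q35
  refine Tf_of_W h h' (kap_g4 m) (pP_g4 m) hW ?_ ?_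
  · unfold rho
    rw [hA5, hA6, hQ5, hQ6]
    field_simp
  · unfold psf
    rw [hQ5]
    simp only [Function.comp, g4_0, g4_1, g4_2, g4_4]
    rw [eM, e0, e2, e3, e5]
    field_simp

/-- `Cb5 m p ≠ 0` by `J5_Q35`.  By `Gen.W_x2` and `Gen.rho_sub` for `m ∘ g5` at `P`,
`tf (m ∘ g5) P - xs m 4 = Cb5 * (- L 2 * q0 - kap (m ∘ g5) * L 0 * A6) / (L 0 L 1 L 2 Λ 4 5 q0)`,
which is `tf m p - xs m 4` by `key5d` and `Gen.t_x5`.  `rho (m ∘ g5) P = A5 Cb6 / (A6 Cb5)`, and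
`(t - xs 4) Cb6 / Cb5 = (t - xs 1) Q36 / Q35` by `Gen.t_x2`, `Gen.t_x5`; use `xs_g5` for `pP`. -/
theorem J5 (h : Gen m p) (h' : Gen (m ∘ g5) p') (hl : l ≠ 0)
    (e : p' = V.sm l (JV (m 0) (m 2) (m 1) (m 4) (m 3) (m 5) p)) (z : k) :
    Tf (m ∘ g5) p' (-(l ^ 3 * (z * Jz (m 0) (m 2) (m 1) (m 4) (m 3) (m 5) p))) = Tf m p z := by
  subst e
  rw [Gen_sm hl] at h'
  rw [← mul_neg, Tf_sm hl]
  obtain ⟨e4, e1, e3, e5⟩ := ev_JV (m 0) (m 2) (m 1) (m 4) (m 3) (m 5) p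
  have e0 := ev_JV_a (m 0) (m 2) (m 1) (m 4) (m 3) (m 5) p
  have e2 := ev_JV_b (m 0) (m 2) (m 1) (m 4) (m 3) (m 5) p
  have hA5 := J5_A5 m p
  have hA6 := J5_A6 m p
  have hq := J5_q0 m p
  have hQ5 := J5_Q35 m p
  have hQ6 := J5_Q36 m p
  have kd := key5d m p
  have hJ : Jz (m 0) (m 2) (m 1) (m 4) (m 3) (m 5) p =
      JN (m 0) (m 2) (m 1) (m 4) (m 3) (m 5) p * ML (m 0) (m 2) (m 1) (m 3) p *
        ML (m 0) (m 2) (m 1) (m 5) p * ML (m 0) (m 2) (m 4) (m 3) p *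
        ML (m 0) (m 2) (m 4) (m 5) p := rfl
  rw [hJ]
  generalize JV (m 0) (m 2) (m 1) (m 4) (m 3) (m 5) p = P at *
  generalize JN (m 0) (m 2) (m 1) (m 4) (m 3) (m 5) p = N at *
  have hN : N ≠ 0 := by
    have := h'.L 0
    simp only [Function.comp, g5_0] at this
    rw [e0] at this
    exact left_ne_zero_of_mul this
  have L0 := h.L 0
  have L1 := h.L 1
  have L2 := h.L 2
  have L4 := h.L 4
  have L5 := h.L 5
  have M13 := h.M 1 3 (by decide) (by decide) (by decide) (by decide) (by decide)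
  have M15 := h.M 1 5 (by decide) (by decide) (by decide) (by decide) (by decide)
  have M43 := h.M 4 3 (by decide) (by decide) (by decide) (by decide) (by decide)
  have M45 := h.M 4 5 (by decide) (by decide) (by decide) (by decide) (by decide)
  have a6 := h.a6
  have q5 := h.q35
  have hq0 := h.q
  have c5 : Cb5 m p ≠ 0 := by
    have := h'.q35
    rw [hQ5] at this
    exact right_ne_zero_of_mul (neg_ne_zero.1 this)
  have hx := xs_g5 m
  have x0 : xs (m ∘ g5) 0 = xs m 0 := by rw [hx]; rfl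
  have x1 : xs (m ∘ g5) 1 = xs m 4 := by rw [hx]; rfl
  have x2 : xs (m ∘ g5) 2 = xs m 2 := by rw [hx]; rfl
  have hC : Cb6 (m ∘ g5) P = -(N ^ 2 * ML (m 0) (m 2) (m 1) (m 3) p *
      ML (m 0) (m 2) (m 4) (m 3) p * (ML (m 0) (m 2) (m 4) (m 5) p * Q36 m p)) := by
    rw [← kd]
    unfold Cb6
    rw [hq, hA6]
    simp only [Function.comp, g5_0, g5_2]
    rw [e0, e2]
    ring
  have ht : tf (m ∘ g5) P = tf m p := by
    have a := h'.t_x2
    rw [x1, hC, hQ5, hq] at a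
    simp only [Function.comp, g5_0, g5_1, g5_2] at a
    rw [e0, e2, e4] at a
    have b : tf (m ∘ g5) P - xs m 4 = tf m p - xs m 4 := by
      rw [h.t_x5]
      refine a.trans ?_
      field_simp
    linear_combination b
  have hxf : xf (m ∘ g5) P = xf m p := by
    unfold xf pP rho
    rw [ht, x0, x1, x2, h.t_x2, h.t_x5, hA5, hA6, hQ5, hQ6]
    field_simp
  have hz : zf (m ∘ g5) P (-(z * (N * ML (m 0) (m 2) (m 1) (m 3) p *
        ML (m 0) (m 2) (m 1) (m 5) p * ML (m 0) (m 2) (m 4) (m 3) p *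
        ML (m 0) (m 2) (m 4) (m 5) p))) = zf m p z := by
    unfold zf
    rw [hq]
    simp only [Function.comp, g5_0, g5_1, g5_4, g5_5]
    rw [e0, e4, e1, e3]
    field_simp
  unfold Tf
  rw [ht, hxf, hz]

end

end Pool.Agent.MP_1c689d_ag.SX

end

section

set_option autoImplicit false

namespace Pool.Agent.MP_1c689d_ag.SX

open Pool.Agent.MP_1c689d_ag.FP

noncomputable section

open Polynomial

/-! Relabelling at the same point. -/

variable {k : Type} [Field k] [CharZero k] {m : Fin 6 → V k} {p : V k}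

theorem Same_W56 (h : Gen m p) : Wf (m ∘ g56) p = Wf m p + kap m := by
  have h0 := h.L 0
  have h1 := h.L 1
  have e1 : MM (m ∘ g56) p = MM m p - wmu m * (ev (m 0) p * ev (m 1) p) := mu_eq m p
  have e2 : n6 (m ∘ g56) = wmu m + n6 m + kap m := congrFun (xs_g56 m) 2
  have e3 : Wf (m ∘ g56) p = MM (m ∘ g56) p / (ev (m 0) p * ev (m 1) p) + n6 (m ∘ g56) := rfl
  rw [e3, e1, e2, Wf]
  field_simp
  ring

omit [CharZero k] in
theorem Same_rho56 : rho (m ∘ g56) p = (rho m p)⁻¹ := by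
  have e : rho (m ∘ g56) p = A6 m p * Q35 m p / (A5 m p * Q36 m p) := rfl
  rw [e, rho, inv_div]

omit [CharZero k] in
theorem Same_MM3 : MM (m ∘ g3) p = MM m p := by
  have e : MM (m ∘ g3) p = ML (m 1) (m 4) (m 0) (m 2) p * ML (m 1) (m 5) (m 0) (m 3) p := rfl
  rw [e, ML_anti (m 0) (m 2), ML_anti (m 0) (m 3), neg_mul_neg, MM]

theorem Same_Q35 : Q35 (m ∘ g3) p = Q35 m p := by
  have e1 : n6 (m ∘ g3) = n6 m := congrFun (xs_g3 m) 2
  have e2 : w35 (m ∘ g3) + n6 (m ∘ g3) = w35 m + n6 m := congrFun (xs_g3 m) 1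
  rw [e1, add_left_inj] at e2
  rw [Q35_eq, Q35_eq, Same_MM3, e2, mul_comm (ev (m 0) p)]
  rfl

omit [CharZero k] in
theorem Same_Q36 : Q36 (m ∘ g3) p = MM m p - w45 m * (ev (m 0) p * ev (m 1) p) := by
  have e1 : w36 (m ∘ g3) = br (m 1) (m 5) (m 3) * br (m 0) (m 4) (m 2) := rfl
  rw [Q36_eq, Same_MM3, e1, br_swap' (m 1) (m 3), br_swap' (m 0) (m 2), neg_mul_neg, w45,
    mul_comm (ev (m 0) p), mul_comm (br (m 0) (m 2) (m 4))]
  rfl

/-- Under `g56`: `A5 ↔ A6`, `d5 ↔ d6`, `Q35 ↔ Q36`, `q0 ↦ -q0`, `kap ↦ -kap`, `rho ↦ rho⁻¹`,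
`MM ↦ MM - wmu L0 L1` (`mu_eq`), `n6 ↦ wmu + n6 + kap` (`xs_g56` at `2`), so `W ↦ W + kap`. -/
theorem same56 (h : Gen m p) (z : k) :
    tf (m ∘ g56) p = tf m p ∧ xf (m ∘ g56) p * xf m p = pP m (tf m p) * qP m (tf m p) ∧
      zf (m ∘ g56) p z = -zf m p z := by
  have h0 := h.rho_ne_zero
  have h1 := h.rho_ne_one
  have ht : tf (m ∘ g56) p = tf m p := by
    have h2 : 1 - rho m p ≠ 0 := sub_ne_zero.2 h1.symm
    have h3 : rho m p - 1 ≠ 0 := sub_ne_zero.2 h1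
    have e : 1 - (rho m p)⁻¹ = (rho m p - 1) / rho m p := by field_simp
    rw [tf, tf, Same_W56 h, Same_rho56, kap_g56, e]
    field_simp
    ring
  refine ⟨ht, ?_, ?_⟩
  · rw [xf, xf, ht, Same_rho56, pP_g56, mul_mul_mul_comm, inv_mul_cancel₀ h0, mul_one, mul_comm]
  · have e : zf (m ∘ g56) p z = z * (d6 m * A5 m p - d5 m * A6 m p) /
        (ev (m 0) p ^ 2 * ev (m 1) p * ev (m 5) p * ev (m 4) p) := rfl
    rw [e, zf, q0]
    ring

/-- Under `g3`: `MM` is unchanged (`ML_anti` twice), `n6` is unchanged (`xs_g3` at `2`),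
`Q35` is unchanged and `Q36 ↦ MM - w45 L0 L1` (`Q35_eq`, `Q36_eq`, `xs_g3` at `1` and `4`),
`A5 ↦ - L2 * ML 0 3 1 4`, `A6 ↦ - L3 * ML 0 2 1 4`.  For `qP (W + kap)` see the formulas in the
comment of `Gen.quad3`. -/
theorem same3 (h : Gen m p) {z c : k} (he : z ^ 2 = c * prodL m p) :
    Wf (m ∘ g3) p = Wf m p ∧ psf (m ∘ g3) p z = -psf m p z ∧
      rho (m ∘ g3) p * rho m p * psf m p z ^ 2 = c * qP m (Wf m p + kap m) := by
  have e0 : n6 (m ∘ g3) = n6 m := congrFun (xs_g3 m) 2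
  refine ⟨?_, ?_, ?_⟩
  · rw [Wf, Wf, Same_MM3, e0, mul_comm (ev (m 0) p)]
    rfl
  · have e : psf (m ∘ g3) p z = -(z * ML (m 1) (m 4) (m 0) (m 2) p * Q35 (m ∘ g3) p) /
        (ev (m 1) p ^ 2 * ev (m 0) p ^ 2 * ev (m 4) p * ev (m 2) p) := rfl
    rw [e, psf, Same_Q35, ML_anti (m 0) (m 2)]
    ring
  · have e1 : rho (m ∘ g3) p = ev (m 2) p * ML (m 1) (m 4) (m 0) (m 3) p * Q36 (m ∘ g3) p /
        (ev (m 3) p * ML (m 1) (m 4) (m 0) (m 2) p * Q35 (m ∘ g3) p) := rfl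
    have h0 := h.L 0
    have h1 := h.L 1
    have h2 := h.L 2
    have h3 := h.L 3
    have h4 := h.L 4
    have h5 := h.L 5
    have h6 := h.M 1 4 (by decide) (by decide) (by decide) (by decide) (by decide)
    have h7 := h.q35
    have e3 : Wf m p + kap m - xs m 3 = (MM m p - w45 m * (ev (m 0) p * ev (m 1) p)) /
        (ev (m 0) p * ev (m 1) p) := by
      have e : xs m 3 = w45 m + n6 m + kap m := rfl
      rw [e, Wf]
      field_simp
      ring
    have e5 : Wf m p + kap m - xs m 5 = ML (m 0) (m 2) (m 1) (m 5) p *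
        ML (m 0) (m 3) (m 1) (m 4) p / (ev (m 0) p * ev (m 1) p) := by
      have e : xs m 5 = wmu m + n6 m + kap m := rfl
      rw [e, Wf, mu_eq]
      field_simp
      ring
    rw [e1, qP, e3, e5, h.W_x5, Same_Q35, Same_Q36, ML_anti (m 0) (m 2), ML_anti (m 0) (m 3), rho,
      psf, A5, A6, div_pow, neg_sq, mul_pow, mul_pow, he, prodL]
    generalize MM m p - w45 m * (ev (m 0) p * ev (m 1) p) = N
    field_simp

end

end Pool.Agent.MP_1c689d_ag.SX

end

section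

set_option autoImplicit false

namespace Pool.Agent.MP_1c689d_ag.SX

open Pool.Agent.MP_1c689d_ag.FP

noncomputable section

open Polynomial

variable {Ω E : Type} [Field Ω] [Field E] [Algebra ℂ Ω] [Algebra ℂ E] [Algebra Ω E]
  [IsScalarTower ℂ Ω E] {K : Type} [Field K] [Algebra ℂ K]

variable {full : Prop} {s u v z : K} {s₀ c₀ : Ω} {m : Fin 6 → V Ω}

/-- Let `TT u v z m ψ = (t, X, ζ)`.  Apply `quad` with `w₀ = s₀`, `w₁ = t`, the variable `ζ`, and
`θ = X`: by `Gen.eqn` and `pq_eq`, `X² - (2t³ + e₀t + e₁ + ζ²/c₀) X + pP t * qP t = 0`;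
membership by `T_mem`, `z_mem_zf`, `Lab.range_mem`.  The other root is `pP t * qP t / X`
(`X ≠ 0` by `Lab.pP_ne`, `Gen.rho_ne_zero`).  With `ψ₁ = χ.comp ψ` one has
`TT u v z m ψ₁ = (χ t, χ X, χ ζ)` (`pt_comp`, `map_tf`, `map_xf`, `map_zf`, `mp_fix`).  Then apply
`Lab.sgn` to `ψ₁` and conclude with `same56`, `zf_neg`. -/
theorem mv56 [IsAlgClosed Ω] [IsAlgClosed E] (Λ : Line Ω E) (h3 : Algebra.trdeg ℂ Ω = 3)
    {c : (K →ₐ[ℂ] Ω) → ℚ} (hc : Λ.Adm c) (hne : ¬ ∀ ψ, c ψ = 0) : Mv full s u v z s₀ c₀ c g56 := by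
  have := cz Ω
  intro m H
  refine ⟨H.perm g56_inj (g56_all full), fun ψ hs => ?_⟩
  have hg := H.gp hs
  have hpq := H.pP_ne h3 hs
  have heq := hg.eqn (H.eq ψ hs)
  have hs0 : s₀ ∈ acl {s₀, tf m (pt u v ψ)} := subset_acl _ (Set.mem_insert _ _)
  have ht0 : tf m (pt u v ψ) ∈ acl {s₀, tf m (pt u v ψ)} :=
    subset_acl _ (Set.mem_insert_of_mem _ rfl)
  have hle : acl {s₀} ≤ acl {s₀, tf m (pt u v ψ)} :=
    acl_mono (Set.singleton_subset_iff.2 (Set.mem_insert _ _))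
  have hIn : ∀ M : IntermediateField ℂ Ω, acl {s₀, tf m (pt u v ψ)} ≤ M → ∀ i, (m i).In M :=
    fun M hM i => ⟨hM (hle (H.mem i).1), hM (hle (H.mem i).2.1), hM (hle (H.mem i).2.2)⟩
  have hθ : xf m (pt u v ψ) ^ 2 +
      -(2 * tf m (pt u v ψ) ^ 3 + ee (xs m) 0 * tf m (pt u v ψ) + ee (xs m) 1 +
        zf m (pt u v ψ) (ψ z) ^ 2 / c₀) * xf m (pt u v ψ) +
      pP m (tf m (pt u v ψ)) * qP m (tf m (pt u v ψ)) = 0 := by
    rw [pq_eq]
    unfold Eqn at heq
    have h0 := H.c0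
    field_simp
    linear_combination -heq
  have hK : ∀ x, ψ x ∈ IntermediateField.adjoin ℂ ((acl {s₀, tf m (pt u v ψ)} : Set Ω) ∪
      {zf m (pt u v ψ) (ψ z), xf m (pt u v ψ)}) := by
    generalize hMd : IntermediateField.adjoin ℂ ((acl {s₀, tf m (pt u v ψ)} : Set Ω) ∪
      {zf m (pt u v ψ) (ψ z), xf m (pt u v ψ)}) = M
    have hsub : (acl {s₀, tf m (pt u v ψ)} : Set Ω) ∪
        {zf m (pt u v ψ) (ψ z), xf m (pt u v ψ)} ⊆ M := hMd ▸ IntermediateField.subset_adjoin _ _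
    have hM : acl {s₀, tf m (pt u v ψ)} ≤ M := fun x hx => hsub (Or.inl hx)
    have hp : (pt u v ψ).In M := T_mem (hIn M hM) hg H.good.1 rfl hpq.1 (hM ht0)
      (hsub (Or.inr (Set.mem_insert_of_mem _ rfl)))
    exact H.range_mem hs M (hM hs0) hp
      (z_mem_zf (hIn M hM) hg hp (hsub (Or.inr (Set.mem_insert _ _))))
  have hN : ∃ M : IntermediateField ℂ Ω, IntermediateField.adjoin ℂ
      (insert (zf m (pt u v ψ) (ψ z)) (acl {s₀, tf m (pt u v ψ)} : Set Ω)) = M ∧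
      acl {s₀, tf m (pt u v ψ)} ≤ M ∧ zf m (pt u v ψ) (ψ z) ∈ M :=
    ⟨_, rfl, fun x hx => IntermediateField.subset_adjoin _ _ (Set.mem_insert_of_mem _ hx),
      IntermediateField.subset_adjoin _ _ (Set.mem_insert _ _)⟩
  obtain ⟨M, hMd, hM, hζ⟩ := hN
  have h0 : pP m (tf m (pt u v ψ)) * qP m (tf m (pt u v ψ)) ∈ M :=
    mul_mem (pP_mem (hIn M hM) (hM ht0)) (qP_mem (hIn M hM) (hM ht0))
  have h1 : -(2 * tf m (pt u v ψ) ^ 3 + ee (xs m) 0 * tf m (pt u v ψ) + ee (xs m) 1 +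
      zf m (pt u v ψ) (ψ z) ^ 2 / c₀) ∈ M :=
    neg_mem (add_mem (add_mem (add_mem (mul_mem (ofNat_mem M 2) (pow_mem (hM ht0) 3))
      (mul_mem (ee_mem (xs_mem (hIn M hM)) 0) (hM ht0))) (ee_mem (xs_mem (hIn M hM)) 1))
      (div_mem (pow_mem hζ 2) (hM (hle H.cmem))))
  rw [← hMd] at h0 h1
  rcases quad Λ h3 c hc ψ (H.top h3 ψ) s₀ _ _ _ _ _ hK h0 h1 hθ with h | ⟨χ, hχ, hz, hX, -, hcc⟩
  · exact absurd h hne
  have hs₁ : (χ.comp ψ) s = s₀ := by
    rw [AlgHom.comp_apply, hs]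
    exact hχ _ hs0
  have hmm : mp χ m = m := mp_fix (hIn _ le_rfl) hχ
  have e1 : tf m (pt u v (χ.comp ψ)) = tf m (pt u v ψ) := by
    have h := map_tf χ m (pt u v ψ)
    rw [hmm, hχ _ ht0] at h
    rw [pt_comp, ← h]
  have e2 : xf m (pt u v (χ.comp ψ)) = χ (xf m (pt u v ψ)) := by
    have h := map_xf χ m (pt u v ψ)
    rw [hmm] at h
    rw [pt_comp, ← h]
  have e3 : zf m (pt u v (χ.comp ψ)) ((χ.comp ψ) z) = zf m (pt u v ψ) (ψ z) := by
    have h := map_zf χ m (pt u v ψ) (ψ z)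
    rw [hmm, hz] at h
    rw [pt_comp, AlgHom.comp_apply, ← h]
  obtain ⟨ψ', h1', h2', h3', h4'⟩ := H.sgn Λ h3 hc hne hs₁
  refine ⟨ψ', h1', ?_, by rw [h4', hcc, neg_neg]⟩
  obtain ⟨a1, a2, a3⟩ := same56 (H.gp hs₁) (-(χ.comp ψ) z)
  rw [e1] at a1 a2
  rw [e2, hX] at a2
  rw [zf_neg (m := m), neg_neg, e3] at a3
  unfold TT Tf
  rw [h2', h3', a1, a3]
  refine Prod.ext rfl (Prod.ext ?_ rfl)
  have hne0 := mul_ne_zero hpq.1 hpq.2
  rw [← a2] at hne0
  exact mul_right_cancel₀ (right_ne_zero_of_mul hne0) (by linear_combination a2 + hθ)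

end

end Pool.Agent.MP_1c689d_ag.SX

end

section

set_option autoImplicit false

namespace Pool.Agent.MP_1c689d_ag.SX

open Pool.Agent.MP_1c689d_ag.FP

noncomputable section

open Polynomial

variable {Ω E : Type} [Field Ω] [Field E] [Algebra ℂ Ω] [Algebra ℂ E] [Algebra Ω E]
  [IsScalarTower ℂ Ω E] {K : Type} [Field K] [Algebra ℂ K]

variable {full : Prop} {s u v z : K} {s₀ c₀ : Ω} {m : Fin 6 → V Ω}

/-- Let `W, ρ, y` be the values of `Wf, rho, psf` at `ψ`.  Apply `quad` with `w₀ = s₀`, `w₁ = W`,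
the variable `y ≠ 0` (`Gen.psf_ne`), and `θ = ρ`: `Gen.quad3` divided by `y²`; membership by
`W_mem`, `z_mem_psf`, `Lab.range_mem`.  For `ψ₁ = χ.comp ψ` the values are `W`, `ρ₁ = χ ρ`, `y`
with `ρ₁ ρ y² = c₀ qP (W + kap)` (product of the roots).  Apply `Lab.sgn` to get `ψ₂`; `same3` at
the point of `ψ₂` shows that the values of `Wf, rho, psf` for `m ∘ g3` at `ψ₂` are `W, ρ, y`
(cancel `ρ₁ y² ≠ 0`; `psf_neg`).  Finish with `Tf_of_W`, `kap_g3`, `pP_g3`. -/
theorem mv3 [IsAlgClosed Ω] [IsAlgClosed E] (Λ : Line Ω E) (h3 : Algebra.trdeg ℂ Ω = 3)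
    {c : (K →ₐ[ℂ] Ω) → ℚ} (hc : Λ.Adm c) (hne : ¬ ∀ ψ, c ψ = 0) : Mv full s u v z s₀ c₀ c g3 := by
  have := cz Ω
  intro m H
  have H' := H.perm g3_inj (g3_all full)
  refine ⟨H', fun ψ hs => ?_⟩
  have hG := H.gp hs
  have hy := hG.psf_ne (H.z_ne hs)
  have hq := hG.quad3 (H.eq ψ hs)
  have hk0 : acl {s₀} ≤ acl {s₀, Wf m (pt u v ψ)} :=
    acl_mono (Set.singleton_subset_iff.2 (Set.mem_insert _ _))
  have hW : Wf m (pt u v ψ) ∈ acl {s₀, Wf m (pt u v ψ)} := subset_acl _ (by simp)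
  have hs0 : s₀ ∈ acl {s₀} := subset_acl _ rfl
  have hθ : rho m (pt u v ψ) ^ 2 + -((psf m (pt u v ψ) (ψ z) ^ 2 + c₀ * pP m (Wf m (pt u v ψ)))
      / psf m (pt u v ψ) (ψ z) ^ 2) * rho m (pt u v ψ)
      + c₀ * qP m (Wf m (pt u v ψ) + kap m) / psf m (pt u v ψ) (ψ z) ^ 2 = 0 := by
    field_simp
    linear_combination hq
  have hK : ∀ x, ψ x ∈ IntermediateField.adjoin ℂ ((acl {s₀, Wf m (pt u v ψ)} : Set Ω) ∪
      {psf m (pt u v ψ) (ψ z), rho m (pt u v ψ)}) := by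
    have hsub := IntermediateField.subset_adjoin ℂ ((acl {s₀, Wf m (pt u v ψ)} : Set Ω) ∪
      {psf m (pt u v ψ) (ψ z), rho m (pt u v ψ)})
    have hm := fun i => (H.mem i).mono (M' := IntermediateField.adjoin ℂ _)
      fun x hx => hsub (Or.inl (hk0 hx))
    have hp := W_mem hm hG H.good.1 rfl (hsub (Or.inl hW)) (hsub (Or.inr (by simp)))
    exact H.range_mem hs _ (hsub (Or.inl (hk0 hs0))) hp
      (z_mem_psf hm hG hp (hsub (Or.inr (by simp))))
  have hsub := IntermediateField.subset_adjoin ℂ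
    (insert (psf m (pt u v ψ) (ψ z)) (acl {s₀, Wf m (pt u v ψ)} : Set Ω))
  have hm := fun i => (H.mem i).mono (M' := IntermediateField.adjoin ℂ _)
    fun x hx => hsub (Or.inr (hk0 hx))
  have a1 := hsub (Set.mem_insert _ _)
  have a2 := hsub (Or.inr hW)
  have a3 := hsub (Or.inr (hk0 H.cmem))
  obtain h | ⟨χ, h1, h2, h4, -, h5⟩ := quad Λ h3 c hc ψ (H.top h3 ψ) s₀ _ _ _ _ _ hK
    (div_mem (mul_mem a3 (qP_mem hm (add_mem a2 (kap_mem hm)))) (pow_mem a1 2))
    (neg_mem (div_mem (add_mem (pow_mem a1 2) (mul_mem a3 (pP_mem hm a2))) (pow_mem a1 2))) hθ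
  · exact absurd h hne
  have hfix : mp χ m = m := mp_fix H.mem fun x hx => h1 x (hk0 hx)
  have hs1 : (χ.comp ψ) s = s₀ := by
    rw [AlgHom.comp_apply, hs]
    exact h1 _ (hk0 hs0)
  obtain ⟨ψ₂, b1, b2, b3, b4⟩ := H.sgn Λ h3 hc hne hs1
  rw [pt_comp] at b2
  have e1 : Wf m (pt u v ψ₂) = Wf m (pt u v ψ) := by
    rw [b2, ← h1 _ hW, map_Wf, hfix]
  have e2 : rho m (pt u v ψ₂) = χ (rho m (pt u v ψ)) := by
    rw [b2, map_rho, hfix]
  have e3 : psf m (pt u v ψ₂) (ψ₂ z) = -psf m (pt u v ψ) (ψ z) := by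
    rw [b2, b3, psf_neg, ← h2, map_psf, hfix, AlgHom.comp_apply]
  have hG2 := H.gp b1
  obtain ⟨c1, c2, c3⟩ := same3 hG2 (H.eq ψ₂ b1)
  have c4 : rho (m ∘ g3) (pt u v ψ₂) = rho m (pt u v ψ) := by
    have n1 := hG2.rho_ne_zero
    have e4 : rho m (pt u v ψ) * rho m (pt u v ψ₂) * psf m (pt u v ψ) (ψ z) ^ 2
        = c₀ * qP m (Wf m (pt u v ψ) + kap m) := by
      rw [e2, h4]
      field_simp
      linear_combination -hq
    rw [e1, e3, neg_sq, ← e4] at c3
    exact mul_right_cancel₀ n1 (mul_right_cancel₀ (pow_ne_zero 2 hy) c3)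
  refine ⟨ψ₂, b1, ?_, by rw [b4, h5, neg_neg]⟩
  exact Tf_of_W hG (H'.gp b1) (kap_g3 m) (pP_g3 m) (c1.trans e1) c4 (by rw [c2, e3, neg_neg])

end

end Pool.Agent.MP_1c689d_ag.SX

end

section

set_option autoImplicit false

namespace Pool.Agent.MP_1c689d_ag.SX

open Pool.Agent.MP_1c689d_ag.FP

noncomputable section

open Polynomial

variable {Ω E : Type} [Field Ω] [Field E] [Algebra ℂ Ω] [Algebra ℂ E] [Algebra Ω E]
  [IsScalarTower ℂ Ω E] {K : Type} [Field K] [Algebra ℂ K]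

variable {full : Prop} {s u v z : K} {s₀ c₀ : Ω} {m : Fin 6 → V Ω}

/-- `mvJ` with indices `1, 3, 4, 5`, then `Lab.sgn` and `J4` -/
theorem mv4 [IsAlgClosed Ω] [IsAlgClosed E] (Λ : Line Ω E) (h3 : Algebra.trdeg ℂ Ω = 3)
    {c : (K →ₐ[ℂ] Ω) → ℚ} (hc : Λ.Adm c) (hne : ¬ ∀ ψ, c ψ = 0) : Mv full s u v z s₀ c₀ c g4 := by
  intro m H
  have := cz Ω
  have H' := H.perm g4_inj (g4_all full)
  refine ⟨H', fun ψ hs => ?_⟩
  obtain ⟨ψ₁, l, hs₁, hc₁, hl, hp₁, hz₁⟩ := mvJ Λ h3 hc hne H 1 3 4 5 (by decide) hs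
  obtain ⟨ψ₂, hs₂, hp₂, hz₂, hc₂⟩ := H.sgn Λ h3 hc hne hs₁
  refine ⟨ψ₂, hs₂, ?_, by rw [hc₂, hc₁, neg_neg]⟩
  unfold TT
  rw [hz₂, hz₁, hp₂]
  exact J4 (H.gp hs) (H'.gp hs₁) hl hp₁ _

/-- `mvJ` with indices `1, 4, 3, 5`, then `Lab.sgn` and `J5` -/
theorem mv5 [IsAlgClosed Ω] [IsAlgClosed E] (Λ : Line Ω E) (h3 : Algebra.trdeg ℂ Ω = 3)
    {c : (K →ₐ[ℂ] Ω) → ℚ} (hc : Λ.Adm c) (hne : ¬ ∀ ψ, c ψ = 0) (hf : full) : Mv full s u v z s₀ c₀ c g5 := by
  intro m H
  have := cz Ω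
  have H' := H.perm g5_inj (Or.inl hf)
  refine ⟨H', fun ψ hs => ?_⟩
  obtain ⟨ψ₁, l, hs₁, hc₁, hl, hp₁, hz₁⟩ := mvJ Λ h3 hc hne H 1 4 3 5 (by decide) hs
  obtain ⟨ψ₂, hs₂, hp₂, hz₂, hc₂⟩ := H.sgn Λ h3 hc hne hs₁
  refine ⟨ψ₂, hs₂, ?_, by rw [hc₂, hc₁, neg_neg]⟩
  unfold TT
  rw [hz₂, hz₁, hp₂]
  exact J5 (H.gp hs) (H'.gp hs₁) hl hp₁ _

/-- `gen_full`, `gen_wr` -/
theorem mv_all [IsAlgClosed Ω] [IsAlgClosed E] (Λ : Line Ω E) (h3 : Algebra.trdeg ℂ Ω = 3)
    {c : (K →ₐ[ℂ] Ω) → ℚ} (hc : Λ.Adm c) (hne : ¬ ∀ ψ, c ψ = 0) (σ : Equiv.Perm (Fin 6)) (hσ : Allowed full σ) :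
    Mv full s u v z s₀ c₀ c σ := by
  rcases hσ with hf | hσ
  · exact gen_full (Mv full s u v z s₀ c₀ c) (Mv.id c) (fun _ _ h₁ h₂ => h₁.comp h₂)
      (mv56 Λ h3 hc hne) (mv3 Λ h3 hc hne) (mv4 Λ h3 hc hne) (mv5 Λ h3 hc hne hf) σ
  · exact gen_wr (Mv full s u v z s₀ c₀ c) (Mv.id c) (fun _ _ h₁ h₂ => h₁.comp h₂)
      (mv56 Λ h3 hc hne) (mv3 Λ h3 hc hne) (mv4 Λ h3 hc hne) σ hσ

end

end Pool.Agent.MP_1c689d_ag.SX

end

section

set_option autoImplicit false

namespace Pool.Agent.MP_1c689d_ag.SX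

open Pool.Agent.MP_1c689d_ag.FP

noncomputable section

open Polynomial

/-- the substitution that kills the variables in `S` -/
def Zero_kill (k : Type) [Field k] {ι : Type} [DecidableEq ι] (S : Finset ι) :
    MvPolynomial ι k →ₐ[k] MvPolynomial ι k :=
  MvPolynomial.aeval fun i => if i ∈ S then 0 else MvPolynomial.X i

theorem Zero_height (k : Type) [Field k] {ι : Type} [DecidableEq ι] (S : Finset ι) :
    (S.card : ℕ∞) ≤ (RingHom.ker (Zero_kill k S)).height := by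
  induction S using Finset.induction_on with
  | empty => simp
  | insert i S hi ih =>
    have : (RingHom.ker (Zero_kill k S)).IsPrime := RingHom.ker_isPrime _
    have : (RingHom.ker (Zero_kill k (insert i S))).IsPrime := RingHom.ker_isPrime _
    have hc : (Zero_kill k (insert i S)).comp (Zero_kill k S) = Zero_kill k (insert i S) := by
      apply MvPolynomial.algHom_ext
      intro j
      by_cases hj : j ∈ S
      · simp [Zero_kill, hj]
      · simp [Zero_kill, hj]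
    have hlt : RingHom.ker (Zero_kill k S) < RingHom.ker (Zero_kill k (insert i S)) := by
      refine lt_of_le_of_ne ?_ ?_
      · intro p hp
        rw [RingHom.mem_ker] at hp ⊢
        rw [← hc, AlgHom.comp_apply, hp, map_zero]
      · intro he
        have h1 : MvPolynomial.X i ∈ RingHom.ker (Zero_kill k (insert i S)) := by
          simp [RingHom.mem_ker, Zero_kill]
        rw [← he, RingHom.mem_ker] at h1
        simp [Zero_kill, hi] at h1
    rw [Finset.card_insert_of_notMem hi, Nat.cast_add, Nat.cast_one]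
    exact (add_le_add_left ih 1).trans (Ideal.height_add_one_le_of_lt_of_isPrime hlt)

/-- Fewer equations than unknowns.  Suppose `0` is the only common zero.  By the Nullstellensatz
(`MvPolynomial.vanishingIdeal_zeroLocus_eq_radical`) the radical of `I = span (range f)` is the
maximal ideal `𝔪` of the origin, so `𝔪` is a minimal prime of `I` and Krull's height theorem
(`Ideal.height_le_card_of_mem_minimalPrimes_span_finset` or a variant) bounds its height by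
`card κ`.  But the height of `𝔪` is at least `card ι`: the ideals generated by subsets of the
variables are prime (kernels of substitution maps) and form a chain of length `card ι` below `𝔪`;
alternatively use induction on the number of variables, or a Mathlib lemma on heights of maximal
ideals of polynomial rings. -/
theorem exists_common_zero {k : Type} [Field k] [IsAlgClosed k] {ι κ : Type} [Fintype ι]
    [Fintype κ] (h : Fintype.card κ < Fintype.card ι) (f : κ → MvPolynomial ι k)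
    (h0 : ∀ j, MvPolynomial.eval 0 (f j) = 0) :
    ∃ a : ι → k, a ≠ 0 ∧ ∀ j, MvPolynomial.eval a (f j) = 0 := by
  classical
  by_contra hne
  have hz : MvPolynomial.zeroLocus k (Ideal.span (Set.range f)) = {0} := by
    rw [MvPolynomial.zeroLocus_span]
    ext a
    constructor
    · intro ha
      by_contra h1
      exact hne ⟨a, h1, fun j => by
        rw [← MvPolynomial.coe_aeval_eq_eval]
        exact ha _ ⟨j, rfl⟩⟩
    · rintro rfl _ ⟨j, rfl⟩
      have := h0 j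
      rwa [← MvPolynomial.coe_aeval_eq_eval] at this
  have hr := MvPolynomial.vanishingIdeal_zeroLocus_eq_radical (K := k) (Ideal.span (Set.range f))
  rw [hz] at hr
  have hmin : MvPolynomial.vanishingIdeal k ({0} : Set (ι → k)) ∈
      (Ideal.span ((Finset.univ.image f : Finset _) : Set (MvPolynomial ι k))).minimalPrimes := by
    rw [Finset.coe_image, Finset.coe_univ, Set.image_univ, ← Ideal.radical_minimalPrimes, ← hr,
      Ideal.minimalPrimes_eq_subsingleton_self]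
    rfl
  have h1 := Ideal.height_le_card_of_mem_minimalPrimes_span_finset hmin
  have h2 : RingHom.ker (Zero_kill k (Finset.univ : Finset ι)) ≤
      MvPolynomial.vanishingIdeal k ({0} : Set (ι → k)) := by
    intro p hp
    rw [MvPolynomial.mem_vanishingIdeal_singleton_iff]
    have hc : (MvPolynomial.aeval (0 : ι → k)).comp (Zero_kill k Finset.univ) =
        MvPolynomial.aeval (0 : ι → k) := by
      apply MvPolynomial.algHom_ext
      intro j
      simp [Zero_kill]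
    rw [RingHom.mem_ker] at hp
    rw [← hc, AlgHom.comp_apply, hp, map_zero]
  have h3 := ((Zero_height k Finset.univ).trans (Ideal.height_mono h2)).trans h1
  have h4 : (Finset.univ : Finset ι).card ≤ (Finset.univ.image f).card := by exact_mod_cast h3
  have h5 := Finset.card_image_le (s := Finset.univ) (f := f)
  rw [Finset.card_univ] at h4 h5
  omega

end

end Pool.Agent.MP_1c689d_ag.SX

end

section

set_option autoImplicit false

namespace Pool.Agent.MP_1c689d_ag.SX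

open Pool.Agent.MP_1c689d_ag.FP

noncomputable section

open Polynomial

theorem WR1_aeval {R : Type} [CommRing R] [Algebra ℂ R] (p : ℂ[X]) {S : R[X]}
    (hS : S.natDegree ≤ 1) : (aeval S p).natDegree ≤ p.natDegree := by
  rw [aeval_eq_sum_range]
  refine natDegree_sum_le_of_forall_le _ _ fun i hi => (natDegree_smul_le _ _).trans ?_
  have := natDegree_pow_le_of_le i hS
  have := Finset.mem_range.1 hi
  omega

/-- a polynomial with given coefficients -/
def WR1pol {R : Type} [CommRing R] {n : ℕ} (c : R) (a : Fin n → R) : R[X] :=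
  C c + ∑ i, C (a i) * X ^ (i.1 + 1)

theorem WR1pol_deg {R : Type} [CommRing R] {n : ℕ} (c : R) (a : Fin n → R) :
    (WR1pol c a).natDegree ≤ n := by
  refine natDegree_add_le_of_degree_le (by simp) ?_
  exact natDegree_sum_le_of_forall_le _ _ fun i _ => (natDegree_C_mul_X_pow_le _ _).trans i.2

theorem WR1pol_zero {R : Type} [CommRing R] {n : ℕ} (c : R) (a : Fin n → R) :
    (WR1pol c a).coeff 0 = c := by
  simp [WR1pol]

theorem WR1pol_succ {R : Type} [CommRing R] {n : ℕ} (c : R) (a : Fin n → R) (i : Fin n) :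
    (WR1pol c a).coeff (i.1 + 1) = a i := by
  simp only [WR1pol, coeff_add, coeff_C_succ, zero_add, finsetSum_coeff, coeff_C_mul_X_pow]
  rw [Finset.sum_eq_single i (fun j _ hj => if_neg fun e => hj (Fin.ext (by omega)))
    (fun h => absurd (Finset.mem_univ i) h), if_pos rfl]

theorem WR1pol_pos {R : Type} [CommRing R] {n : ℕ} (c : R) {a : Fin n → R} {i : Fin n}
    (h : a i ≠ 0) : 0 < (WR1pol c a).natDegree :=
  lt_of_lt_of_le (Nat.succ_pos i.1) (le_natDegree_of_ne_zero (by rwa [WR1pol_succ]))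

theorem WR1pol_map {R S : Type} [CommRing R] [CommRing S] {n : ℕ} (f : R →+* S) (c : R)
    (a : Fin n → R) : (WR1pol c a).map f = WR1pol (f c) fun i => f (a i) := by
  simp [WR1pol, Polynomial.map_sum]

/-- the curve with given coefficients, inserted in the equation -/
def WR1eq {R : Type} [CommRing R] [Algebra ℂ R] (P : Fin 5 → ℂ[X]) (s t x ζ : R)
    (a : Fin 1 ⊕ Fin 2 ⊕ Fin 6 ⊕ Fin 3 → R) : R[X] :=
  FW P (WR1pol s fun i => a (.inl i)) (WR1pol t fun i => a (.inr (.inl i)))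
    (WR1pol x fun i => a (.inr (.inr (.inl i)))) (WR1pol ζ fun i => a (.inr (.inr (.inr i))))

theorem WR1eq_map {R S : Type} [CommRing R] [Algebra ℂ R] [CommRing S] [Algebra ℂ S]
    (f : R →ₐ[ℂ] S) (P : Fin 5 → ℂ[X]) (s t x ζ : R) (a : Fin 1 ⊕ Fin 2 ⊕ Fin 6 ⊕ Fin 3 → R)
    (j : ℕ) : f ((WR1eq P s t x ζ a).coeff j) =
      (WR1eq P (f s) (f t) (f x) (f ζ) fun i => f (a i)).coeff j := by
  have h := map_FW (mapAlgHom f) P (WR1pol s fun i => a (.inl i))
    (WR1pol t fun i => a (.inr (.inl i))) (WR1pol x fun i => a (.inr (.inr (.inl i))))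
    (WR1pol ζ fun i => a (.inr (.inr (.inr i))))
  simp only [coe_mapAlgHom, WR1pol_map] at h
  have h2 := congrArg (fun p => p.coeff j) h
  simp only [coeff_map] at h2
  exact h2

theorem WR1eq_const {R : Type} [CommRing R] [Algebra ℂ R] (P : Fin 5 → ℂ[X]) (s t x ζ : R) :
    WR1eq P s t x ζ (fun _ => 0) = C (FW P s t x ζ) := by
  have h := map_FW (CAlgHom : R →ₐ[ℂ] R[X]) P s t x ζ
  simp only [CAlgHom_apply] at h
  rw [h]
  simp [WR1eq, WR1pol]

theorem WR1eq_zero {R : Type} [CommRing R] [Algebra ℂ R] (P : Fin 5 → ℂ[X]) (s t x ζ : R)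
    (a : Fin 1 ⊕ Fin 2 ⊕ Fin 6 ⊕ Fin 3 → R) : (WR1eq P s t x ζ a).coeff 0 = FW P s t x ζ := by
  have e : ∀ p : R[X], ((aeval (0 : R)).restrictScalars ℂ : R[X] →ₐ[ℂ] R) p = p.coeff 0 :=
    fun p => by simp [coeff_zero_eq_eval_zero]
  rw [← e, WR1eq, map_FW]
  simp only [e, WR1pol_zero]

/-- Weighted degree count: `aeval S (P k)` has degree at most `2 (k + 2)` (write it as a sum over
the coefficients, or `Polynomial.natDegree_comp_le`), then `natDegree_add_le_of_degree_le`,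
`natDegree_mul_le_of_le`, `natDegree_pow_le_of_le`. -/
theorem FW_deg {R : Type} [CommRing R] [Algebra ℂ R] {P : Fin 5 → ℂ[X]} (hP : SmallP P)
    {S T Y Z : R[X]} (hS : S.natDegree ≤ 1) (hT : T.natDegree ≤ 2) (hY : Y.natDegree ≤ 6)
    (hZ : Z.natDegree ≤ 3) : (FW P S T Y Z).natDegree ≤ 12 := by
  have h : ∀ k : Fin 5, (aeval S (P k)).natDegree ≤ 2 * (k.1 + 2) := fun k =>
    (WR1_aeval _ hS).trans (hP k)
  have h0 : (aeval S (P 0)).natDegree ≤ 4 := h 0
  have h1 : (aeval S (P 1)).natDegree ≤ 6 := h 1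
  have h2 : (aeval S (P 2)).natDegree ≤ 8 := h 2
  have h3 : (aeval S (P 3)).natDegree ≤ 10 := h 3
  have h4 : (aeval S (P 4)).natDegree ≤ 12 := h 4
  have ht : (2 * T ^ 3).natDegree ≤ 6 := by
    rw [two_mul]
    exact natDegree_add_le_of_degree_le (natDegree_pow_le_of_le 3 hT) (natDegree_pow_le_of_le 3 hT)
  have ha : (2 * T ^ 3 + aeval S (P 0) * T + aeval S (P 1)).natDegree ≤ 6 :=
    natDegree_add_le_of_degree_le
      (natDegree_add_le_of_degree_le ht (natDegree_mul_le_of_le h0 hT)) h1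
  have sub : ∀ p q : R[X], p.natDegree ≤ 12 → q.natDegree ≤ 12 → (p - q).natDegree ≤ 12 :=
    fun p q hp hq => (natDegree_sub_le p q).trans (max_le hp hq)
  have add : ∀ p q : R[X], p.natDegree ≤ 12 → q.natDegree ≤ 12 → (p + q).natDegree ≤ 12 :=
    fun p q hp hq => natDegree_add_le_of_degree_le hp hq
  exact sub _ _ (natDegree_mul_le_of_le hY (natDegree_pow_le_of_le 2 hZ))
    (add _ _ (sub _ _ (natDegree_pow_le_of_le 2 hY) (natDegree_mul_le_of_le ha hY))
      (add _ _ (add _ _ (add _ _ (add _ _ (add _ _ (natDegree_pow_le_of_le 6 hT)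
        (natDegree_mul_le_of_le h0 (natDegree_pow_le_of_le 4 hT)))
        (natDegree_mul_le_of_le h1 (natDegree_pow_le_of_le 3 hT)))
        (natDegree_mul_le_of_le h2 (natDegree_pow_le_of_le 2 hT)))
        (natDegree_mul_le_of_le h3 hT)) h4))

/-- A polynomial curve of multidegree `(1, 2, 6, 3)` through the given point that meets the
hypersurface only there.  Let `A = MvPolynomial (Fin 12) Ω` and consider the universal curve over
`A`: `S = C (C s) + C (X 0) * X`, `T = C (C t) + C (X 1) * X + C (X 2) * X ^ 2`, and so on with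
`1 + 2 + 6 + 3 = 12` unknown coefficients.  Apply `exists_common_zero` to the coefficients
`1, …, 11` of `FW P S T Y Z : A[X]`; they vanish at `0` because the curve is then constant and
`FW P s t x ζ = 0` (`map_FW` for `Polynomial.mapAlgHom` of an evaluation and for `C`).  At a
non-zero solution the coefficients `0, …, 11` vanish and the degree is at most `12`. -/
theorem wr_curve {Ω : Type} [Field Ω] [Algebra ℂ Ω] [IsAlgClosed Ω] {P : Fin 5 → ℂ[X]}
    (hP : SmallP P) {s t x ζ : Ω} (h : FW P s t x ζ = 0) :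
    ∃ (S T Y Z : Polynomial Ω) (e : Ω), S.natDegree ≤ 1 ∧ T.natDegree ≤ 2 ∧ Y.natDegree ≤ 6 ∧
      Z.natDegree ≤ 3 ∧ S.coeff 0 = s ∧ T.coeff 0 = t ∧ Y.coeff 0 = x ∧ Z.coeff 0 = ζ ∧
      (0 < S.natDegree ∨ 0 < T.natDegree ∨ 0 < Y.natDegree ∨ 0 < Z.natDegree) ∧
      FW P S T Y Z = C e * X ^ 12 := by
  have key : ∀ (a : Fin 1 ⊕ Fin 2 ⊕ Fin 6 ⊕ Fin 3 → Ω) (j : ℕ), MvPolynomial.eval a
      ((WR1eq P (MvPolynomial.C s) (MvPolynomial.C t) (MvPolynomial.C x) (MvPolynomial.C ζ)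
        MvPolynomial.X).coeff j) = (WR1eq P s t x ζ a).coeff j := by
    intro a j
    have := WR1eq_map ((MvPolynomial.aeval a).restrictScalars ℂ) P (MvPolynomial.C s)
      (MvPolynomial.C t) (MvPolynomial.C x) (MvPolynomial.C ζ) MvPolynomial.X j
    simpa using this
  obtain ⟨a, ha, hz⟩ := exists_common_zero (k := Ω) (ι := Fin 1 ⊕ Fin 2 ⊕ Fin 6 ⊕ Fin 3)
    (κ := Fin 11) (by simp) (fun j => (WR1eq P (MvPolynomial.C s) (MvPolynomial.C t)
      (MvPolynomial.C x) (MvPolynomial.C ζ) MvPolynomial.X).coeff (j.1 + 1)) fun j => by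
    rw [key]
    change (WR1eq P s t x ζ fun _ => 0).coeff _ = 0
    rw [WR1eq_const, coeff_C_succ]
  refine ⟨WR1pol s fun i => a (.inl i), WR1pol t fun i => a (.inr (.inl i)),
    WR1pol x fun i => a (.inr (.inr (.inl i))), WR1pol ζ fun i => a (.inr (.inr (.inr i))),
    (WR1eq P s t x ζ a).coeff 12, WR1pol_deg _ _, WR1pol_deg _ _, WR1pol_deg _ _, WR1pol_deg _ _,
    WR1pol_zero _ _, WR1pol_zero _ _, WR1pol_zero _ _, WR1pol_zero _ _, ?_, ?_⟩
  · obtain ⟨i, hi⟩ := Function.ne_iff.1 ha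
    rcases i with i | i | i | i
    · exact Or.inl (WR1pol_pos _ (i := i) hi)
    · exact Or.inr (Or.inl (WR1pol_pos _ (i := i) hi))
    · exact Or.inr (Or.inr (Or.inl (WR1pol_pos _ (i := i) hi)))
    · exact Or.inr (Or.inr (Or.inr (WR1pol_pos _ (i := i) hi)))
  · change WR1eq P s t x ζ a = _
    have hd : (WR1eq P s t x ζ a).natDegree ≤ 12 :=
      FW_deg hP (WR1pol_deg _ _) (WR1pol_deg _ _) (WR1pol_deg _ _) (WR1pol_deg _ _)
    ext j
    rw [coeff_C_mul_X_pow]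
    split_ifs with hj
    · rw [hj]
    · rcases j with _ | j
      · rw [WR1eq_zero, h]
      · by_cases h11 : j < 11
        · exact (key a _).symm.trans (hz ⟨j, h11⟩)
        · exact coeff_eq_zero_of_natDegree_lt (by omega)

end

end Pool.Agent.MP_1c689d_ag.SX

end

section

set_option autoImplicit false

namespace Pool.Agent.MP_1c689d_ag.SX

open Pool.Agent.MP_1c689d_ag.FP

noncomputable section

open Polynomial

variable {Ω E : Type} [Field Ω] [Field E] [Algebra ℂ Ω] [Algebra ℂ E] [Algebra Ω E]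
  [IsScalarTower ℂ Ω E] {K : Type} [Field K] [Algebra ℂ K]

/-! Specialisation at a place.  `NdO`, `NdRho`, `Nd_inv` of `FP/Nd` may be useful. -/

theorem Sp_alg (Q : Place Ω E) (a : Ω) : Q.Sp (algebraMap Ω E a) a := by
  exact ⟨Q.mem a, Q.ρ_alg a⟩

theorem Sp_add {Q : Place Ω E} {x y : E} {a b : Ω} (hx : Q.Sp x a) (hy : Q.Sp y b) :
    Q.Sp (x + y) (a + b) := by
  obtain ⟨h1, rfl⟩ := hx
  obtain ⟨h2, rfl⟩ := hy
  exact ⟨add_mem h1 h2, Q.ρ.map_add ⟨x, h1⟩ ⟨y, h2⟩⟩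

theorem Sp_mul {Q : Place Ω E} {x y : E} {a b : Ω} (hx : Q.Sp x a) (hy : Q.Sp y b) :
    Q.Sp (x * y) (a * b) := by
  obtain ⟨h1, rfl⟩ := hx
  obtain ⟨h2, rfl⟩ := hy
  exact ⟨mul_mem h1 h2, Q.ρ.map_mul ⟨x, h1⟩ ⟨y, h2⟩⟩

theorem Sp_inv {Q : Place Ω E} {x : E} {a : Ω} (hx : Q.Sp x a) (ha : a ≠ 0) :
    Q.Sp x⁻¹ a⁻¹ := by
  obtain ⟨h1, rfl⟩ := hx
  obtain ⟨h0, h2⟩ := Nd_inv Q h1 ha
  refine ⟨h2, eq_inv_of_mul_eq_one_right ?_⟩
  rw [← map_mul, ← Q.ρ.map_one]
  exact congrArg Q.ρ (Subtype.ext (mul_inv_cancel₀ h0))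

theorem Sp_aeval {Q : Place Ω E} {x : E} {a : Ω} (hx : Q.Sp x a) (p : Polynomial Ω) :
    Q.Sp (aeval x p) (p.eval a) := by
  induction p using Polynomial.induction_on with
  | C c => rw [aeval_C, eval_C]; exact Sp_alg Q c
  | add p q hp hq => rw [map_add, eval_add]; exact Sp_add hp hq
  | monomial n c h =>
    rw [pow_succ, ← mul_assoc, map_mul, eval_mul, aeval_X, eval_X]
    exact Sp_mul h hx

/-- an element that is not finite at the place has an inverse with value zero -/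
theorem Sp_inv_zero {Q : Place Ω E} {x : E} (hx : x ∉ Q.O) : Q.Sp x⁻¹ 0 := by
  have h1 : x⁻¹ ∈ Q.O := (Q.O.mem_or_inv_mem x).resolve_left hx
  refine ⟨h1, ?_⟩
  by_contra h
  exact hx (inv_inv x ▸ (Nd_inv Q h1 h).2)

theorem not_mem_of_Sp_zero {Q : Place Ω E} {x : E} (hx : Q.Sp x 0) (h0 : x ≠ 0) :
    x⁻¹ ∉ Q.O := by
  intro h
  have e := Sp_mul hx (⟨h, rfl⟩ : Q.Sp x⁻¹ _)
  rw [mul_inv_cancel₀ h0, zero_mul] at e
  exact one_ne_zero (Q.ρ.map_one.symm.trans e.2)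

theorem WR2_root {Q : Place Ω E} (H : E[X]) (n : ℕ) (hn : H.natDegree ≤ n)
    (hc : ∀ i, H.coeff i ∈ Q.O) {a : Ω} (ha : a ≠ 0) (hl : Q.Sp (H.coeff n) a) {y : E}
    (hy : H.eval y = 0) : y ∈ Q.O := by
  by_contra h
  have h0 : y ≠ 0 := fun e => h (e ▸ zero_mem _)
  have hz := Sp_inv_zero h
  have hp : ∀ k : ℕ, y⁻¹ ^ k ∈ Q.O := fun k => pow_mem hz.1 k
  rw [eval_eq_sum_range' (Nat.lt_succ_of_le hn), Finset.sum_range_succ] at hy
  have e : H.coeff n = y⁻¹ * -∑ i ∈ Finset.range n, H.coeff i * y⁻¹ ^ (n - (i + 1)) := by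
    apply mul_right_cancel₀ (pow_ne_zero n h0)
    rw [eq_neg_of_add_eq_zero_right hy, mul_neg, neg_mul, Finset.mul_sum, Finset.sum_mul]
    congr 1
    refine Finset.sum_congr rfl fun i hi => ?_
    obtain ⟨k, rfl⟩ := Nat.exists_eq_add_of_le (Finset.mem_range.1 hi)
    rw [Nat.succ_eq_add_one, Nat.add_sub_cancel_left, inv_pow, pow_add, pow_add]
    field_simp
  have hm : -∑ i ∈ Finset.range n, H.coeff i * y⁻¹ ^ (n - (i + 1)) ∈ Q.O :=
    neg_mem (sum_mem fun i _ => mul_mem (hc i) (hp _))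
  have e2 := Sp_mul hz (⟨hm, rfl⟩ : Q.Sp _ _)
  rw [← e, zero_mul] at e2
  exact ha (hl.2.symm.trans e2.2)

/-- a non-constant polynomial in an element with a pole has a pole: `p(x) / x ^ d` has the
non-zero value `leadingCoeff p` -/
theorem aeval_not_mem {Q : Place Ω E} {x : E} (hx : x ∉ Q.O) (p : Polynomial Ω)
    (hp : 0 < p.natDegree) : aeval x p ∉ Q.O := by
  intro h
  refine hx (WR2_root (p.map (algebraMap Ω E) - C (aeval x p)) p.natDegree ?_ (fun i => ?_)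
    (a := p.leadingCoeff) (leadingCoeff_ne_zero.2 (ne_zero_of_natDegree_gt hp)) ?_ ?_)
  · rw [natDegree_sub_C]
    exact natDegree_map_le
  · rw [coeff_sub, coeff_map, coeff_C]
    refine sub_mem (Q.mem _) ?_
    split_ifs
    exacts [h, zero_mem _]
  · rw [coeff_sub, coeff_map, coeff_C, if_neg hp.ne', sub_zero]
    exact Sp_alg Q _
  · rw [eval_sub, eval_C, eval_map_algebraMap, sub_self]

/-- If a root `y` is not in `O` then `y⁻¹` has value zero; divide the equation by `y ^ n`. -/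
theorem root_mem_O {Q : Place Ω E} (H : E[X]) (n : ℕ) (hn : H.natDegree ≤ n)
    (hc : ∀ i, H.coeff i ∈ Q.O) {a : Ω} (ha : a ≠ 0) (hl : Q.Sp (H.coeff n) a) {y : E}
    (hy : H.eval y = 0) : y ∈ Q.O := by
  exact WR2_root H n hn hc ha hl hy

/-- `IntermediateField.adjoin_induction` for the statement `Q.Sp (j y) (φ y)` -/
theorem sp_of_gen (Q : Place Ω E) {S : Set K} (hS : IntermediateField.adjoin ℂ S = ⊤)
    (j : K →ₐ[ℂ] E) (φ : K →ₐ[ℂ] Ω) (h : ∀ y ∈ S, Q.Sp (j y) (φ y)) (c : (K →ₐ[ℂ] Ω) → ℚ) :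
    Q.sp c j = c φ := by
  have key : ∀ y, Q.Sp (j y) (φ y) := by
    intro y
    have hy : y ∈ IntermediateField.adjoin ℂ S := hS ▸ IntermediateField.mem_top
    induction hy using IntermediateField.adjoin_induction with
    | mem y hy => exact h y hy
    | algebraMap c =>
      rw [AlgHom.commutes, AlgHom.commutes, IsScalarTower.algebraMap_apply ℂ Ω E]
      exact Sp_alg Q _
    | add y z _ _ h1 h2 => rw [map_add, map_add]; exact Sp_add h1 h2
    | inv y _ h1 =>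
      by_cases h0 : y = 0
      · rw [h0, inv_zero, ← h0]
        exact h1
      · rw [map_inv₀, map_inv₀]
        exact Sp_inv h1 ((_root_.map_ne_zero φ).2 h0)
    | mul y z _ _ h1 h2 => rw [map_mul, map_mul]; exact Sp_mul h1 h2
  rw [Place.sp, dif_pos fun y => (key y).1]
  congr 1
  ext y
  exact (key y).2

theorem sp_zero (Q : Place Ω E) (j : K →ₐ[ℂ] E) (y : K) (h : j y ∉ Q.O)
    (c : (K →ₐ[ℂ] Ω) → ℚ) : Q.sp c j = 0 := by
  rw [Place.sp, dif_neg fun k => h (k y)]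

/-- a polynomial relation specialises -/
theorem indep_of_Sp (Q : Place Ω E) (z : Fin 3 → E) (w : Fin 3 → Ω) (h : ∀ i, Q.Sp (z i) (w i))
    (hw : AlgebraicIndependent ℂ w) : AlgebraicIndependent ℂ z := by
  have key : ∀ q : MvPolynomial (Fin 3) ℂ,
      Q.Sp (MvPolynomial.aeval z q) (MvPolynomial.aeval w q) := by
    intro q
    induction q using MvPolynomial.induction_on with
    | C c =>
      rw [MvPolynomial.aeval_C, MvPolynomial.aeval_C, IsScalarTower.algebraMap_apply ℂ Ω E]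
      exact Sp_alg Q _
    | add p q hp hq => rw [map_add, map_add]; exact Sp_add hp hq
    | mul_X p i hp =>
      rw [map_mul, map_mul, MvPolynomial.aeval_X, MvPolynomial.aeval_X]
      exact Sp_mul hp (h i)
  refine algebraicIndependent_iff.2 fun q hq => algebraicIndependent_iff.1 hw q ?_
  have e := key q
  rw [hq] at e
  exact e.2.symm.trans Q.ρ.map_zero

theorem WR2_eq {L : Type} [Field L] [Algebra ℂ L] {P : Fin 5 → ℂ[X]} {s t x ζ : L}
    (h : FW P s t x ζ = 0) :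
    ζ ^ 2 * MvPolynomial.aeval ![s, t, x] (MvPolynomial.X 2 : MvPolynomial (Fin 3) ℂ) =
      MvPolynomial.aeval ![s, t, x] (-FW P (MvPolynomial.X 0) (MvPolynomial.X 1)
        (MvPolynomial.X 2) (0 : MvPolynomial (Fin 3) ℂ)) := by
  rw [map_neg, map_FW, map_zero, MvPolynomial.aeval_X, MvPolynomial.aeval_X, MvPolynomial.aeval_X]
  change ζ ^ 2 * x = -FW P s t x 0
  unfold FW Fw at h ⊢
  linear_combination h

/-- `lift2` with `z = ![s, t, x]`, `W = ζ`, `q = X 2`, and `p = - FW P (X 0) (X 1) (X 2) 0`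
(use `map_FW`; note `FW P s t x ζ = x * ζ ^ 2 + FW P s t x 0`), then `sp_of_gen`. -/
theorem wr_emb {P : Fin 5 → ℂ[X]} {s t x ζ : K} (H : Wr P s t x ζ)
    (hn : IntermediateField.adjoin ℂ (Set.range ![s, t, x]) ≠ ⊤) (Q : Place Ω E)
    (φ : K →ₐ[ℂ] Ω) {s' t' x' ζ' : E} (he : FW P s' t' x' ζ' = 0) (h1 : Q.Sp s' (φ s))
    (h2 : Q.Sp t' (φ t)) (h3 : Q.Sp x' (φ x)) (h4 : Q.Sp ζ' (φ ζ)) :
    ∃ j : K →ₐ[ℂ] E, j s = s' ∧ j t = t' ∧ j x = x' ∧ j ζ = ζ' ∧
      ∀ c : (K →ₐ[ℂ] Ω) → ℚ, Q.sp c j = c φ := by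
  have hi : AlgebraicIndependent ℂ ![s', t', x'] := by
    refine indep_of_Sp Q _ (φ ∘ ![s, t, x]) (fun i => ?_) (H.ind.map' φ.injective)
    fin_cases i
    exacts [h1, h2, h3]
  have hS : ({s, t, x, ζ} : Set K) = insert ζ (Set.range ![s, t, x]) := by
    ext y
    simp only [Matrix.range_cons, Matrix.range_empty, Set.mem_insert_iff, Set.mem_singleton_iff,
      Set.mem_union, Set.mem_empty_iff_false]
    tauto
  obtain ⟨j, j1, j2⟩ := (lift2 ![s, t, x] H.ind ζ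
    (-FW P (MvPolynomial.X 0) (MvPolynomial.X 1) (MvPolynomial.X 2) 0) (MvPolynomial.X 2)
    (MvPolynomial.X_ne_zero 2) (WR2_eq H.eq) (hS ▸ H.gen) ![s', t', x'] hi ζ'
    (WR2_eq he)).resolve_left hn
  have e1 : j s = s' := j1 0
  have e2 : j t = t' := j1 1
  have e3 : j x = x' := j1 2
  refine ⟨j, e1, e2, e3, j2, sp_of_gen Q H.gen j φ ?_⟩
  rintro y (rfl | rfl | rfl | rfl)
  exacts [e1 ▸ h1, e2 ▸ h2, e3 ▸ h3, j2 ▸ h4]

end

end Pool.Agent.MP_1c689d_ag.SX

end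

section

set_option autoImplicit false

namespace Pool.Agent.MP_1c689d_ag.SX

open Pool.Agent.MP_1c689d_ag.FP

noncomputable section

open Polynomial

variable {Ω E : Type} [Field Ω] [Field E] [Algebra ℂ Ω] [Algebra ℂ E] [Algebra Ω E]
  [IsScalarTower ℂ Ω E] {K : Type} [Field K] [Algebra ℂ K]

/-- A rational curve through the point.  Evaluate the four polynomials at `κ` (`map_FW` for
`aeval Λ.κ` restricted to `ℂ`), take the embedding `j` of `wr_emb` for `Λ.P0`, and apply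
admissibility to `J = {j}` (stable by `hom_ext_adjoin`).  At `Λ.P1` use `aeval_not_mem` and
`sp_zero`. -/
theorem wr_zero (Λ : Line Ω E) {P : Fin 5 → ℂ[X]} {s t x ζ : K} (H : Wr P s t x ζ)
    (hn : IntermediateField.adjoin ℂ (Set.range ![s, t, x]) ≠ ⊤) {c : (K →ₐ[ℂ] Ω) → ℚ}
    (hc : Λ.Adm c) (φ : K →ₐ[ℂ] Ω) (S T Y Z : Polynomial Ω) (h1 : S.coeff 0 = φ s)
    (h2 : T.coeff 0 = φ t) (h3 : Y.coeff 0 = φ x) (h4 : Z.coeff 0 = φ ζ)
    (hd : 0 < S.natDegree ∨ 0 < T.natDegree ∨ 0 < Y.natDegree ∨ 0 < Z.natDegree)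
    (he : FW P S T Y Z = 0) : c φ = 0 := by
  have hk : Λ.P0.Sp Λ.κ 0 := ⟨Λ.mem0, Λ.h0⟩
  have hsp : ∀ (p : Polynomial Ω) (a : Ω), p.coeff 0 = a → Λ.P0.Sp (aeval Λ.κ p) a := by
    intro p a h
    rw [← h, coeff_zero_eq_eval_zero]
    exact Sp_aeval hk p
  have he' : FW P (aeval Λ.κ S) (aeval Λ.κ T) (aeval Λ.κ Y) (aeval Λ.κ Z) = 0 := by
    have := map_FW ((aeval Λ.κ : Polynomial Ω →ₐ[Ω] E).restrictScalars ℂ) P S T Y Z
    rw [he, map_zero] at this
    exact this.symm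
  obtain ⟨j, j1, j2, j3, j4, hj⟩ :=
    wr_emb H hn Λ.P0 φ he' (hsp S _ h1) (hsp T _ h2) (hsp Y _ h3) (hsp Z _ h4)
  have hst : Λ.Stab ({j} : Multiset (K →ₐ[ℂ] E)) := by
    intro σ hσ
    have hfix : ∀ p : Polynomial Ω, σ (aeval Λ.κ p) = aeval Λ.κ p := fun p => by
      rw [← aeval_algHom_apply, hσ]
    rw [Multiset.map_singleton, Multiset.singleton_inj]
    refine hom_ext_adjoin H.gen fun y hy => ?_
    change σ (j y) = j y
    rcases hy with rfl | rfl | rfl | rfl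
    · rw [j1, hfix]
    · rw [j2, hfix]
    · rw [j3, hfix]
    · rw [j4, hfix]
  have hA := hc _ hst
  rw [Multiset.map_singleton, Multiset.map_singleton, Multiset.sum_singleton,
    Multiset.sum_singleton, hj] at hA
  rw [hA]
  rcases hd with hd | hd | hd | hd
  · exact sp_zero _ j s (j1 ▸ aeval_not_mem Λ.h1 S hd) c
  · exact sp_zero _ j t (j2 ▸ aeval_not_mem Λ.h1 T hd) c
  · exact sp_zero _ j x (j3 ▸ aeval_not_mem Λ.h1 Y hd) c
  · exact sp_zero _ j ζ (j4 ▸ aeval_not_mem Λ.h1 Z hd) c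

/-- the moving curve `a • γ + b • (0, 0, X ^ 6, 0)` inserted into the equation -/
def Hc {R : Type} [CommRing R] [Algebra ℂ R] (P : Fin 5 → ℂ[X]) (S T Y Z : R[X]) (a b : R) :
    R[X] :=
  FW P (C a * S) (C a * T) (C a * Y + C b * X ^ 6) (C a * Z)

/-- `map_FW` for `Polynomial.mapAlgHom f` -/
theorem Hc_map {R R' : Type} [CommRing R] [Algebra ℂ R] [CommRing R'] [Algebra ℂ R']
    (f : R →ₐ[ℂ] R') (P : Fin 5 → ℂ[X]) (S T Y Z : R[X]) (a b : R) :
    (Hc P S T Y Z a b).map (f : R →+* R') = Hc P (S.map (f : R →+* R')) (T.map (f : R →+* R'))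
      (Y.map (f : R →+* R')) (Z.map (f : R →+* R')) (f a) (f b) := by
  have := map_FW (Polynomial.mapAlgHom f) P (C a * S) (C a * T) (C a * Y + C b * X ^ 6) (C a * Z)
  simp only [Polynomial.coe_mapAlgHom, Polynomial.map_mul, Polynomial.map_add,
    Polynomial.map_pow, Polynomial.map_C, Polynomial.map_X, RingHom.coe_coe] at this
  exact this

theorem Hc_deg {R : Type} [CommRing R] [Algebra ℂ R] {P : Fin 5 → ℂ[X]} (hP : SmallP P)
    {S T Y Z : R[X]} (hS : S.natDegree ≤ 1) (hT : T.natDegree ≤ 2) (hY : Y.natDegree ≤ 6)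
    (hZ : Z.natDegree ≤ 3) (a b : R) : (Hc P S T Y Z a b).natDegree ≤ 12 := by
  refine FW_deg hP ((natDegree_C_mul_le _ _).trans hS) ((natDegree_C_mul_le _ _).trans hT) ?_
    ((natDegree_C_mul_le _ _).trans hZ)
  exact natDegree_add_le_of_degree_le ((natDegree_C_mul_le _ _).trans hY)
    ((natDegree_C_mul_le _ _).trans (natDegree_X_pow_le 6))

theorem Hc_inf {R : Type} [CommRing R] [Algebra ℂ R] (P : Fin 5 → ℂ[X]) (S T Y Z : R[X]) :
    (Hc P S T Y Z 0 1).coeff 12 = -1 := by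
  have h0 : ∀ p : ℂ[X], aeval (0 : R[X]) p = C (algebraMap ℂ R (p.coeff 0)) := fun p => by
    rw [← coeff_zero_eq_aeval_zero']
    rfl
  have h1 : Hc P S T Y Z 0 1 = -(X ^ 12) + C (algebraMap ℂ R ((P 1).coeff 0)) * X ^ 6 -
      C (algebraMap ℂ R ((P 4).coeff 0)) := by
    simp only [Hc, FW, Fw, map_zero, map_one, zero_mul, one_mul, zero_add, h0]
    ring
  rw [h1, coeff_sub, coeff_add, coeff_neg, coeff_X_pow_self, coeff_C_mul_X_pow, coeff_C]
  simp

/-- The coefficients specialise: view `Hc` over the ring `NdO Q` (the images of the coefficients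
of `S, T, Y, Z` and `a, b` lie in it) and apply `Hc_map` to the inclusion and to `NdRho Q`. -/
theorem Hc_Sp (Q : Place Ω E) (P : Fin 5 → ℂ[X]) (S T Y Z : Polynomial Ω) {a b : E} {a₀ b₀ : Ω}
    (ha : Q.Sp a a₀) (hb : Q.Sp b b₀) (i : ℕ) :
    Q.Sp ((Hc P (S.map (algebraMap Ω E)) (T.map (algebraMap Ω E)) (Y.map (algebraMap Ω E))
      (Z.map (algebraMap Ω E)) a b).coeff i) ((Hc P S T Y Z a₀ b₀).coeff i) := by
  obtain ⟨ha, ha'⟩ := ha
  obtain ⟨hb, hb'⟩ := hb
  let g : Ω →+* NdO Q := (algebraMap Ω E).codRestrict (NdO Q) Q.mem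
  have g1 : ∀ p : Polynomial Ω,
      (p.map g).map ((NdO Q).val : NdO Q →+* E) = p.map (algebraMap Ω E) := fun p => by
    rw [Polynomial.map_map]
    rfl
  have g2 : ∀ p : Polynomial Ω, (p.map g).map (NdRho Q : NdO Q →+* Ω) = p := fun p => by
    ext n
    rw [coeff_map, coeff_map]
    exact Q.ρ_alg _
  have e1 := Hc_map (NdO Q).val P (S.map g) (T.map g) (Y.map g) (Z.map g) ⟨a, ha⟩ ⟨b, hb⟩
  have e2 := Hc_map (NdRho Q) P (S.map g) (T.map g) (Y.map g) (Z.map g) ⟨a, ha⟩ ⟨b, hb⟩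
  have a1 : NdRho Q ⟨a, ha⟩ = a₀ := ha'
  have b1 : NdRho Q ⟨b, hb⟩ = b₀ := hb'
  have a2 : (NdO Q).val ⟨a, ha⟩ = a := rfl
  have b2 : (NdO Q).val ⟨b, hb⟩ = b := rfl
  rw [g1, g1, g1, g1, a2, b2] at e1
  rw [g2, g2, g2, g2, a1, b1] at e2
  rw [← e1, ← e2, coeff_map, coeff_map]
  exact ⟨((Hc P (S.map g) (T.map g) (Y.map g) (Z.map g) ⟨a, ha⟩ ⟨b, hb⟩).coeff i).2, rfl⟩

end

end Pool.Agent.MP_1c689d_ag.SX

end

section

set_option autoImplicit false

namespace Pool.Agent.MP_1c689d_ag.SX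

open Pool.Agent.MP_1c689d_ag.FP

noncomputable section

open Polynomial

variable {Ω E : Type} [Field Ω] [Field E] [Algebra ℂ Ω] [Algebra ℂ E] [Algebra Ω E]
  [IsScalarTower ℂ Ω E] {K : Type} [Field K] [Algebra ℂ K]

omit [Algebra ℂ Ω] [Algebra ℂ E] [IsScalarTower ℂ Ω E] in
theorem WR4_zero {Q : Place Ω E} {a : Ω} (h : Q.Sp 0 a) : a = 0 := by
  obtain ⟨_, rfl⟩ := h
  exact Q.ρ.map_zero

theorem WR4_one (Q : Place Ω E) : Q.Sp 1 1 := by
  simpa using Sp_alg Q 1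

theorem WR4_pow {Q : Place Ω E} {y : E} {y₀ : Ω} (h : Q.Sp y y₀) (n : ℕ) :
    Q.Sp (y ^ n) (y₀ ^ n) := by
  simpa using Sp_aeval h (X ^ n)

theorem WR4_eval {Q : Place Ω E} {G : E[X]} {G₀ : Polynomial Ω}
    (hG : ∀ i, Q.Sp (G.coeff i) (G₀.coeff i)) {y : E} {y₀ : Ω} (h : Q.Sp y y₀) :
    Q.Sp (G.eval y) (G₀.eval y₀) := by
  rw [eval_eq_sum_range' (n := G.natDegree + G₀.natDegree + 1) (by omega),
    eval_eq_sum_range' (n := G.natDegree + G₀.natDegree + 1) (by omega)]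
  induction G.natDegree + G₀.natDegree + 1 with
  | zero => simpa using Sp_alg Q 0
  | succ n ih =>
    rw [Finset.sum_range_succ, Finset.sum_range_succ]
    exact Sp_add ih (Sp_mul (hG n) (WR4_pow h n))

omit [Algebra ℂ Ω] [IsScalarTower ℂ Ω E] in
theorem WR4_pt (P : Fin 5 → ℂ[X]) (S T Y Z : Polynomial Ω) (a b y : E) :
    (Hc P (S.map (algebraMap Ω E)) (T.map (algebraMap Ω E)) (Y.map (algebraMap Ω E))
      (Z.map (algebraMap Ω E)) a b).eval y =
      FW P (a * aeval y S) (a * aeval y T) (a * aeval y Y + b * y ^ 6) (a * aeval y Z) := by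
  have := map_FW ((aeval y : E[X] →ₐ[E] E).restrictScalars ℂ) P
    (C a * S.map (algebraMap Ω E)) (C a * T.map (algebraMap Ω E))
    (C a * Y.map (algebraMap Ω E) + C b * X ^ 6) (C a * Z.map (algebraMap Ω E))
  simpa [Hc] using this

theorem WR4_fix (P : Fin 5 → ℂ[X]) (S T Y Z : Polynomial Ω) {a b : E} (σ : E →ₐ[Ω] E)
    (ha : σ a = a) (hb : σ b = b) :
    (Hc P (S.map (algebraMap Ω E)) (T.map (algebraMap Ω E)) (Y.map (algebraMap Ω E))
      (Z.map (algebraMap Ω E)) a b).map (σ : E →+* E) =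
    Hc P (S.map (algebraMap Ω E)) (T.map (algebraMap Ω E)) (Y.map (algebraMap Ω E))
      (Z.map (algebraMap Ω E)) a b := by
  have h : ∀ p : Polynomial Ω, (p.map (algebraMap Ω E)).map
      ((σ.restrictScalars ℂ : E →ₐ[ℂ] E) : E →+* E) = p.map (algebraMap Ω E) := fun p => by
    rw [Polynomial.map_map]
    exact congrArg (fun f => p.map f) σ.comp_algebraMap
  have := Hc_map (σ.restrictScalars ℂ) P (S.map (algebraMap Ω E)) (T.map (algebraMap Ω E))
    (Y.map (algebraMap Ω E)) (Z.map (algebraMap Ω E)) a b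
  rw [h, h, h, h, AlgHom.restrictScalars_apply, AlgHom.restrictScalars_apply, ha, hb] at this
  exact this

/-- The curve meets the hypersurface in twelve times the point; move it to a curve all of whose
intersection points are non-dominant.  Let `a = (1 + κ)⁻¹`, `b = κ * a` (`1 + κ ≠ 0`); at `P0`
they have values `1, 0`, at `P1` values `0, 1` (`Sp_inv_zero`; `1 + κ ∉ O`, `b = 1 - a`).  Let
`G = Hc P S T Y Z a b : E[X]` (coefficients mapped to `E`).  By `Hc_Sp`, `Hc_deg`, `Hc_inf` its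
coefficients are finite at both places and the coefficient `12` has values `e` and `-1`; so `G`
has degree `12`, twelve roots with multiplicity, all finite at both places (`root_mem_O`).  At `P0`
a root `y` has a value `y₀` with `e * y₀ ^ 12 = 0` (specialise `∑ coeff i * y ^ i = 0`), so
`y₀ = 0`, and the point `a S(y), a T(y), a Y(y) + b y⁶, a Z(y)` specialises to `φ`.  Choose
`j y` by `wr_emb` (for roots `y`; use `Multiset.attach`, or a function defined by cases with the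
help of one root), `J = G.roots.map j`.  Stability: `σ` fixes `a, b`, so `G.map σ = G`, `σ`
permutes the roots (`Polynomial.roots_map` or `map_roots_le` and cardinality) and
`σ ∘ j y = j (σ y)` by `hom_ext_adjoin`.  At `P1` the element `j y s ≠ 0` has value `0`, so
`j y s⁻¹ ∉ O` and `sp_zero` applies.  Hence `12 • c φ = 0`. -/
theorem wr_ne [IsAlgClosed E] (Λ : Line Ω E) {P : Fin 5 → ℂ[X]} (hP : SmallP P) {s t x ζ : K}
    (H : Wr P s t x ζ) (hn : IntermediateField.adjoin ℂ (Set.range ![s, t, x]) ≠ ⊤)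
    {c : (K →ₐ[ℂ] Ω) → ℚ} (hc : Λ.Adm c) (φ : K →ₐ[ℂ] Ω) (S T Y Z : Polynomial Ω) (e : Ω)
    (hS : S.natDegree ≤ 1) (hT : T.natDegree ≤ 2) (hY : Y.natDegree ≤ 6) (hZ : Z.natDegree ≤ 3)
    (h1 : S.coeff 0 = φ s) (h2 : T.coeff 0 = φ t) (h3 : Y.coeff 0 = φ x) (h4 : Z.coeff 0 = φ ζ)
    (h0 : e ≠ 0) (he : FW P S T Y Z = C e * X ^ 12) : c φ = 0 := by
  have n1 : 1 + Λ.κ ∉ Λ.P1.O := fun h =>
    Λ.h1 (by simpa using Λ.P1.O.toSubring.sub_mem h Λ.P1.O.toSubring.one_mem)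
  have n0 : 1 + Λ.κ ≠ 0 := fun h => n1 (h ▸ Λ.P1.O.zero_mem)
  have k0 : Λ.P0.Sp Λ.κ 0 := ⟨Λ.mem0, Λ.h0⟩
  obtain ⟨a, ha⟩ : ∃ a, a = (1 + Λ.κ)⁻¹ := ⟨_, rfl⟩
  obtain ⟨b, hb⟩ : ∃ b, b = Λ.κ * a := ⟨_, rfl⟩
  have a0 : Λ.P0.Sp a 1 := by
    simpa [ha] using Sp_inv (Sp_add (WR4_one Λ.P0) k0) (by simp)
  have b0 : Λ.P0.Sp b 0 := by simpa [hb] using Sp_mul k0 a0
  have a1 : Λ.P1.Sp a 0 := ha ▸ Sp_inv_zero n1
  have b1 : Λ.P1.Sp b 1 := by
    have e1 : b = 1 + algebraMap Ω E (-1) * a := by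
      rw [hb, ha, map_neg, map_one]
      field_simp
      ring
    simpa [e1] using Sp_add (WR4_one Λ.P1) (Sp_mul (Sp_alg Λ.P1 (-1)) a1)
  have c0 := Hc_Sp Λ.P0 P S T Y Z a0 b0
  have c1 := Hc_Sp Λ.P1 P S T Y Z a1 b1
  have hpt := WR4_pt P S T Y Z a b
  have hfix := fun σ : E →ₐ[Ω] E => WR4_fix P S T Y Z (a := a) (b := b) σ
  have hm : ∀ p : Polynomial Ω, (p.map (algebraMap Ω E)).natDegree ≤ p.natDegree :=
    fun _ => natDegree_map_le
  have hdeg := Hc_deg hP ((hm S).trans hS) ((hm T).trans hT) ((hm Y).trans hY)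
    ((hm Z).trans hZ) a b
  generalize Hc P (S.map (algebraMap Ω E)) (T.map (algebraMap Ω E)) (Y.map (algebraMap Ω E))
    (Z.map (algebraMap Ω E)) a b = G at c0 c1 hpt hfix hdeg
  have e0 : Hc P S T Y Z 1 0 = C e * X ^ 12 := by simpa [Hc] using he
  rw [e0] at c0
  have l0 : Λ.P0.Sp (G.coeff 12) e := by simpa using c0 12
  have l1 : Λ.P1.Sp (G.coeff 12) (-1) := Hc_inf P S T Y Z ▸ c1 12
  have g12 : G.coeff 12 ≠ 0 := fun h => h0 (WR4_zero (h ▸ l0))
  have hcard : G.roots.card = 12 :=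
    IsAlgClosed.card_roots_eq_natDegree.trans (natDegree_eq_of_le_of_coeff_ne_zero hdeg g12)
  have r0 : ∀ y ∈ G.roots, Λ.P0.Sp y 0 := fun y hy => by
    have h5 : G.eval y = 0 := isRoot_of_mem_roots hy
    have hm := root_mem_O G 12 hdeg (fun i => (c0 i).1) h0 l0 h5
    have h6 := WR4_eval c0 ⟨hm, rfl⟩
    rw [h5] at h6
    have h7 := WR4_zero h6
    rw [eval_mul, eval_C, eval_pow, eval_X] at h7
    exact ⟨hm, pow_eq_zero_iff (by norm_num) |>.1 ((mul_eq_zero.1 h7).resolve_left h0)⟩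
  have : Nonempty (K →ₐ[ℂ] E) := ⟨(IsScalarTower.toAlgHom ℂ Ω E).comp φ⟩
  have ex : ∀ y ∈ G.roots, ∃ j : K →ₐ[ℂ] E, j s = a * aeval y S ∧ j t = a * aeval y T ∧
      j x = a * aeval y Y + b * y ^ 6 ∧ j ζ = a * aeval y Z ∧
      ∀ c : (K →ₐ[ℂ] Ω) → ℚ, Λ.P0.sp c j = c φ := fun y hy => by
    have k : ∀ p : Polynomial Ω, Λ.P0.Sp (a * aeval y p) (p.coeff 0) := fun p => by
      simpa [coeff_zero_eq_eval_zero] using Sp_mul a0 (Sp_aeval (r0 y hy) p)
    refine wr_emb H hn Λ.P0 φ ((hpt y).symm.trans (isRoot_of_mem_roots hy)) (h1 ▸ k S) (h2 ▸ k T)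
      ?_ (h4 ▸ k Z)
    simpa [h3] using Sp_add (k Y) (Sp_mul b0 (WR4_pow (r0 y hy) 6))
  choose! j j1 j2 j3 j4 j5 using ex
  have hst : Λ.Stab (G.roots.map j) := by
    intro σ hσ
    have sa : (σ : E →ₐ[Ω] E) a = a := by simp [ha, hσ]
    have sb : (σ : E →ₐ[Ω] E) b = b := by simp [hb, ha, hσ]
    have hr : G.roots.map ((σ : E →ₐ[Ω] E) : E →+* E) = G.roots := by
      rw [roots_map_of_injective_of_card_eq_natDegree (RingHom.injective _)
        IsAlgClosed.card_roots_eq_natDegree, hfix _ sa sb]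
    conv_rhs => rw [← hr]
    rw [Multiset.map_map, Multiset.map_map]
    refine Multiset.map_congr rfl fun y hy => ?_
    have hy' : (σ : E →ₐ[Ω] E) y ∈ G.roots := hr ▸ Multiset.mem_map_of_mem _ hy
    refine hom_ext_adjoin H.gen ?_
    rintro w (rfl | rfl | rfl | rfl)
    · change (σ : E →ₐ[Ω] E) (j y w) = j ((σ : E →ₐ[Ω] E) y) w
      rw [j1 y hy, j1 _ hy', map_mul, sa, aeval_algHom_apply]
    · change (σ : E →ₐ[Ω] E) (j y w) = j ((σ : E →ₐ[Ω] E) y) w
      rw [j2 y hy, j2 _ hy', map_mul, sa, aeval_algHom_apply]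
    · change (σ : E →ₐ[Ω] E) (j y w) = j ((σ : E →ₐ[Ω] E) y) w
      rw [j3 y hy, j3 _ hy', map_add, map_mul, map_mul, map_pow, sa, sb, aeval_algHom_apply]
    · change (σ : E →ₐ[Ω] E) (j y w) = j ((σ : E →ₐ[Ω] E) y) w
      rw [j4 y hy, j4 _ hy', map_mul, sa, aeval_algHom_apply]
  have s0 : s ≠ 0 := H.ind.ne_zero 0
  have key := hc _ hst
  rw [Multiset.map_map, Multiset.map_map,
    Multiset.map_congr (f := Λ.P0.sp c ∘ j) (g := fun _ => c φ) rfl fun y hy => j5 y hy c,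
    Multiset.map_congr (f := Λ.P1.sp c ∘ j) (g := fun _ => 0) rfl fun y hy => ?_] at key
  · rw [Multiset.map_const', Multiset.map_const', Multiset.sum_replicate, Multiset.sum_replicate,
      hcard, smul_zero] at key
    exact (smul_eq_zero.1 key).resolve_left (by norm_num)
  · have hm := root_mem_O G 12 hdeg (fun i => (c1 i).1) (by simp) l1 (isRoot_of_mem_roots hy)
    refine sp_zero Λ.P1 (j y) s⁻¹ ?_ c
    rw [map_inv₀]
    refine not_mem_of_Sp_zero ?_ ((_root_.map_ne_zero _).2 s0)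
    rw [j1 y hy]
    simpa using Sp_mul a1 (Sp_aeval ⟨hm, rfl⟩ S)

end

end Pool.Agent.MP_1c689d_ag.SX

end

section

set_option autoImplicit false

namespace Pool.Agent.MP_1c689d_ag.SX

open Pool.Agent.MP_1c689d_ag.FP

noncomputable section

open Polynomial

variable {Ω E : Type} [Field Ω] [Field E] [Algebra ℂ Ω] [Algebra ℂ E] [Algebra Ω E]
  [IsScalarTower ℂ Ω E] {K : Type} [Field K] [Algebra ℂ K]

/-- If `K = ℂ(s, t, x)` use `mz_rat` with `k = acl {s, t}` (as in `mz_in`); otherwise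
`wr_curve`, `wr_zero`, `wr_ne`. -/
theorem mz_wr [IsAlgClosed Ω] [IsAlgClosed E] (Λ : Line Ω E) {P : Fin 5 → ℂ[X]} (hP : SmallP P)
    {s t x ζ : K} (H : Wr P s t x ζ) : Λ.MZ K := by
  by_cases hn : IntermediateField.adjoin ℂ (Set.range ![s, t, x]) = ⊤
  · refine mz_rat Λ (acl {s, t}) x (transc_of_indep H.ind).1 ?_
    rw [eq_top_iff, ← hn, range_vec3, IntermediateField.adjoin_le_iff]
    rintro y (rfl | rfl | rfl)
    · exact IntermediateField.subset_adjoin _ _ (Or.inr (subset_acl _ (by simp)))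
    · exact IntermediateField.subset_adjoin _ _ (Or.inr (subset_acl _ (by simp)))
    · exact IntermediateField.subset_adjoin _ _ (Or.inl rfl)
  · intro c hc φ
    obtain ⟨S, T, Y, Z, e, hS, hT, hY, hZ, h1, h2, h3, h4, hd, he⟩ :=
      wr_curve hP (s := φ s) (t := φ t) (x := φ x) (ζ := φ ζ) (by rw [← map_FW, H.eq, map_zero])
    by_cases h0 : e = 0
    · exact wr_zero Λ H hn hc φ S T Y Z h1 h2 h3 h4 hd (by rw [he, h0, C_0, zero_mul])
    · exact wr_ne Λ hP H hn hc φ S T Y Z e hS hT hY hZ h1 h2 h3 h4 h0 he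

/-- the same for a subfield (compare `mz_km_sub` in `FP/MzA`) -/
theorem mz_wr_sub [IsAlgClosed Ω] [IsAlgClosed E] (Λ : Line Ω E) {P : Fin 5 → ℂ[X]}
    (hP : SmallP P) {s t x ζ : K} (hind : AlgebraicIndependent ℂ ![s, t, x])
    (he : FW P s t x ζ = 0) : Λ.MZ (IntermediateField.adjoin ℂ {s, t, x, ζ}) := by
  let M := IntermediateField.adjoin ℂ {s, t, x, ζ}
  let s' : M := ⟨s, IntermediateField.subset_adjoin _ _ (by simp)⟩
  let t' : M := ⟨t, IntermediateField.subset_adjoin _ _ (by simp)⟩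
  let x' : M := ⟨x, IntermediateField.subset_adjoin _ _ (by simp)⟩
  let ζ' : M := ⟨ζ, IntermediateField.subset_adjoin _ _ (by simp)⟩
  refine mz_wr Λ hP (s := s') (t := t') (x := x') (ζ := ζ') ⟨?_, ?_, ?_⟩
  · apply AlgebraicIndependent.of_comp M.val
    have e : (M.val ∘ ![s', t', x']) = ![s, t, x] := by
      funext i
      fin_cases i <;> rfl
    rwa [e]
  · apply M.val.toRingHom.injective
    change M.val _ = M.val _
    rw [map_FW, map_zero]
    exact he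
  · rw [← adjoin_top_sub ({s, t, x, ζ} : Set K)]
    congr 1
    ext y
    simp only [Set.mem_insert_iff, Set.mem_singleton_iff, Set.mem_preimage, Subtype.ext_iff]
    rfl

/-- transport along an embedding: `mz_hom` with the inverse of `IntermediateField.equivMap`
(`IntermediateField.adjoin_map`) -/
theorem mz_map [IsAlgClosed Ω] (Λ : Line Ω E) {L : Type} [Field L] [Algebra ℂ L] (ψ : K →ₐ[ℂ] L)
    (S : Set K) (h : Λ.MZ (IntermediateField.adjoin ℂ S)) :
    Λ.MZ (IntermediateField.adjoin ℂ (ψ '' S)) := by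
  rw [← IntermediateField.adjoin_map]
  refine mz_hom Λ (IntermediateField.equivMap (IntermediateField.adjoin ℂ S) ψ).symm.toAlgHom ?_ h
  exact top_unique fun y _ => subset_acl _ (AlgEquiv.surjective _ y)

end

end Pool.Agent.MP_1c689d_ag.SX

end

section

set_option autoImplicit false

namespace Pool.Agent.MP_1c689d_ag.SX

open Pool.Agent.MP_1c689d_ag.FP

noncomputable section

open Polynomial

variable {Ω E : Type} [Field Ω] [Field E] [Algebra ℂ Ω] [Algebra ℂ E] [Algebra Ω E]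
  [IsScalarTower ℂ Ω E] {K : Type} [Field K] [Algebra ℂ K]

variable {full : Prop} {s u v z c : K} {m : Fin 6 → V K}

theorem agree_adjoin {L : Type} [Field L] [Algebra ℂ L] {S : Set K} {φ ψ : K →ₐ[ℂ] L}
    (h : ∀ x ∈ S, φ x = ψ x) {x : K} (hx : x ∈ IntermediateField.adjoin ℂ S) : φ x = ψ x := by
  induction hx using IntermediateField.adjoin_induction with
  | mem y hy => exact h y hy
  | algebraMap c => rw [φ.commutes, ψ.commutes]
  | add y z _ _ hy hz => rw [map_add, map_add, hy, hz]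
  | inv y _ hy => rw [map_inv₀, map_inv₀, hy]
  | mul y z _ _ hy hz => rw [map_mul, map_mul, hy, hz]

theorem map_mem_adjoin_one {L : Type} [Field L] [Algebra ℂ L] (φ : K →ₐ[ℂ] L) {s x : K}
    (hx : x ∈ IntermediateField.adjoin ℂ {s}) (M : IntermediateField ℂ L) (hs : φ s ∈ M) :
    φ x ∈ M := by
  have h1 : IntermediateField.adjoin ℂ {s} ≤ M.comap φ :=
    IntermediateField.adjoin_le_iff.2 (Set.singleton_subset_iff.2 hs)
  exact h1 hx

theorem Six.val_top (H : Six full s u v z c m) :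
    acl (Set.range (IntermediateField.adjoin ℂ ({s, u, v, z} : Set K)).val) = ⊤ := by
  rw [eq_top_iff, ← H.alg]
  apply acl_mono
  rintro _ (rfl | rfl | rfl) <;>
    exact ⟨⟨_, IntermediateField.subset_adjoin _ _ (by simp)⟩, rfl⟩

/-- The labelling induced by an embedding `φ` of the big field. -/
theorem Six.lab [IsAlgClosed Ω] (H : Six full s u v z c m) (φ : K →ₐ[ℂ] Ω)
    (s' u' v' z' : IntermediateField.adjoin ℂ ({s, u, v, z} : Set K)) (hs : (s' : K) = s)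
    (hu : (u' : K) = u) (hv : (v' : K) = v) (hz : (z' : K) = z) :
    Lab full s' u' v' z' (φ s) (φ c) (mp φ m) := by
  refine ⟨?_, ?_, fun i => (H.mem i).map_acl φ, ?_, (map_ne_zero φ).2 H.c0, H.good.map φ _, ?_⟩
  · apply AlgebraicIndependent.of_comp (IntermediateField.adjoin ℂ ({s, u, v, z} : Set K)).val
    have e : ((IntermediateField.adjoin ℂ ({s, u, v, z} : Set K)).val ∘ ![s', u', v']) =
        ![s, u, v] := by
      funext i
      fin_cases i
      · exact hs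
      · exact hu
      · exact hv
    rw [e]
    exact H.ind
  · rw [← adjoin_top_sub ({s, u, v, z} : Set K)]
    congr 1
    ext x
    simp only [Set.mem_insert_iff, Set.mem_singleton_iff, Set.mem_preimage, Subtype.ext_iff,
      hs, hu, hv, hz]
  · exact map_mem_adjoin_one φ H.cmem _ (subset_acl _ rfl)
  · intro ψ hψ
    obtain ⟨ψ', e⟩ := exists_ext _ H.val_top ψ
    have e' : ∀ y : IntermediateField.adjoin ℂ ({s, u, v, z} : Set K), ψ' (y : K) = ψ y :=
      fun y => AlgHom.congr_fun e y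
    have h0 : φ s = ψ' s := by rw [← hψ, ← e', hs]
    obtain ⟨σ, -, hσ⟩ := H.gal Ω φ ψ' h0
    have h1 := congrArg ψ' H.eq
    rw [map_pow, map_mul, map_prodL, hσ, prodL_perm _ _ σ.injective,
      ← agree_adjoin (φ := φ) (ψ := ψ') (by rintro _ rfl; exact h0) H.cmem] at h1
    rw [← e', hz, h1]
    congr 2
    simp only [pt, V.map, ← e', hu, hv, map_one]

theorem mz_six [IsAlgClosed Ω] [IsAlgClosed E] (Λ : Line Ω E) (h3 : Algebra.trdeg ℂ Ω = 3)
    (H : Six full s u v z c m) {G : K} {P : Fin 5 → ℂ[X]} (hN : Nrm s c m G P) (hP : SmallP P) :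
    Λ.MZ (IntermediateField.adjoin ℂ ({s, u, v, z} : Set K)) := by
  classical
  haveI := cz Ω
  intro cc hc
  by_contra hne
  apply hne
  intro φ
  let s' : IntermediateField.adjoin ℂ ({s, u, v, z} : Set K) :=
    ⟨s, IntermediateField.subset_adjoin _ _ (by simp)⟩
  let u' : IntermediateField.adjoin ℂ ({s, u, v, z} : Set K) :=
    ⟨u, IntermediateField.subset_adjoin _ _ (by simp)⟩
  let v' : IntermediateField.adjoin ℂ ({s, u, v, z} : Set K) :=
    ⟨v, IntermediateField.subset_adjoin _ _ (by simp)⟩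
  let z' : IntermediateField.adjoin ℂ ({s, u, v, z} : Set K) :=
    ⟨z, IntermediateField.subset_adjoin _ _ (by simp)⟩
  obtain ⟨Φ, e⟩ := exists_ext _ H.val_top φ
  have hφ : φ s' = Φ s := (AlgHom.congr_fun e s').symm
  have L := H.lab Φ s' u' v' z' rfl rfl rfl rfl
  have hg := L.gp hφ
  have hG : Φ G ≠ 0 := (map_ne_zero Φ).2 hN.ne
  have hc0 : Φ c ≠ 0 := L.c0
  obtain ⟨t, ht⟩ : ∃ t, t = tf (mp Φ m) (pt u' v' φ) := ⟨_, rfl⟩
  obtain ⟨x, hx⟩ : ∃ x, x = xf (mp Φ m) (pt u' v' φ) := ⟨_, rfl⟩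
  obtain ⟨ζ, hζ⟩ : ∃ ζ, ζ = zf (mp Φ m) (pt u' v' φ) (φ z') := ⟨_, rfl⟩
  have hE : Eqn (ee (xs (mp Φ m))) (Φ c) t x ζ := by
    rw [ht, hx, hζ]
    exact hg.eqn (L.eq φ hφ)
  have hF : FW P (Φ s) (Φ c * t / Φ G ^ 2) (Φ c ^ 3 * x / Φ G ^ 6) (Φ c * ζ / Φ G ^ 3) = 0 := by
    refine Fw_of_Eqn hE hG fun j => ?_
    have h1 := congrArg Φ (hN.eq j)
    rw [map_mul, map_mul, map_pow, map_pow, map_ee, ← aeval_algHom_apply] at h1
    simp only [map_xs] at h1
    exact h1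
  have key : ∀ M : IntermediateField ℂ Ω, Φ s ∈ M → Φ c ∈ M ∧ Φ G ∈ M := fun M h =>
    ⟨map_mem_adjoin_one Φ H.cmem M h, map_mem_adjoin_one Φ hN.mem M h⟩
  have back : ∀ (M : IntermediateField ℂ Ω) (y : Ω) (a b : ℕ), Φ s ∈ M →
      Φ c ^ a * y / Φ G ^ b ∈ M → y ∈ M := by
    intro M y a b h hy
    have e1 : y = Φ c ^ a * y / Φ G ^ b * Φ G ^ b / Φ c ^ a := by field_simp
    rw [e1]
    exact div_mem (mul_mem hy (pow_mem (key M h).2 b)) (pow_mem (key M h).1 a)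
  have htop : ∀ S : Set Ω, Φ s ∈ S → Φ c * t / Φ G ^ 2 ∈ S → Φ c ^ 3 * x / Φ G ^ 6 ∈ S →
      acl S = ⊤ := by
    intro S m0 m1 m2
    rw [eq_top_iff, ← L.acl_T h3 hφ, ← ht, ← hx]
    apply acl_le
    rintro _ (rfl | rfl | rfl)
    · exact subset_acl _ m0
    · exact back _ _ 1 2 (subset_acl _ m0) (by rw [pow_one]; exact subset_acl _ m1)
    · exact back _ _ 3 6 (subset_acl _ m0) (subset_acl _ m2)
  have hind : AlgebraicIndependent ℂ ![Φ s, Φ c * t / Φ G ^ 2, Φ c ^ 3 * x / Φ G ^ 6] := by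
    refine indep_of_acl_top h3 _ ?_
    rw [range_vec3]
    exact htop _ (by simp) (by simp) (by simp)
  have hM := mz_wr_sub Λ hP hind hF
  generalize hMd : IntermediateField.adjoin ℂ
    ({Φ s, Φ c * t / Φ G ^ 2, Φ c ^ 3 * x / Φ G ^ 6, Φ c * ζ / Φ G ^ 3} : Set Ω) = M at hM
  have m0 : Φ s ∈ M := hMd ▸ IntermediateField.subset_adjoin _ _ (by simp)
  have m1 : Φ c * t / Φ G ^ 2 ∈ M := hMd ▸ IntermediateField.subset_adjoin _ _ (by simp)
  have m2 : Φ c ^ 3 * x / Φ G ^ 6 ∈ M := hMd ▸ IntermediateField.subset_adjoin _ _ (by simp)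
  have m3 : Φ c * ζ / Φ G ^ 3 ∈ M := hMd ▸ IntermediateField.subset_adjoin _ _ (by simp)
  have n1 : t ∈ M := back _ _ 1 2 m0 (by rwa [pow_one])
  have n2 : x ∈ M := back _ _ 3 6 m0 m2
  have n3 : ζ ∈ M := back _ _ 1 3 m0 (by rwa [pow_one])
  refine trz Λ cc hc φ (L.top h3 φ) M hM (htop _ m0 m1 m2) {φ s', φ u', φ v', φ z'} ?_ ?_
  · refine map_mem_of_adjoin L.gen φ _ ?_
    rintro _ (rfl | rfl | rfl | rfl) <;>
      exact IntermediateField.subset_adjoin _ _ (Or.inr (by simp))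
  intro χ hχ
  obtain ⟨σ, hσ, eσ⟩ := H.gal Ω Φ (χ.comp Φ) (hχ _ m0).symm
  obtain ⟨L', hmv⟩ := mv_all Λ h3 hc hne σ hσ _ L
  obtain ⟨ψ, g1, g2, g3⟩ := hmv φ hφ
  have hs' : (χ.comp φ) s' = Φ s := by
    change χ (φ s') = _
    rw [hφ, hχ _ m0]
  have e1 : mp χ (mp Φ m) = mp Φ m ∘ σ := by
    rw [← eσ, mp_comp]
    rfl
  have e2 : TT u' v' z' (mp Φ m ∘ σ) (χ.comp φ) = TT u' v' z' (mp Φ m) φ := by
    unfold TT Tf
    rw [pt_comp, ← e1, ← map_tf, ← map_xf, AlgHom.comp_apply, ← map_zf, ← ht, ← hx, ← hζ,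
      hχ _ n1, hχ _ n2, hχ _ n3]
  rw [← g3, L'.inj h3 hs' g1 (g2.trans e2.symm)]

end

end Pool.Agent.MP_1c689d_ag.SX

end

section

set_option autoImplicit false

namespace Pool.Agent.MP_1c689d_ag.SX

open Pool.Agent.MP_1c689d_ag.FP

noncomputable section

open Polynomial

variable {F : Type} [Field F] [Algebra ℂ F]
variable {O : Subalgebra ℂ F} {ord : F → ℤ}

theorem Split_ee_mul {R : Type} [CommRing R] (l : R) (x : Fin 6 → R) (k : Fin 5) :
    ee (fun i => l * x i) k = l ^ (k.1 + 2) * ee x k := by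
  fin_cases k <;> simp [ee, e2, e3, e4, e5, e6] <;> ring

theorem Split_ee_mem {y : Fin 6 → F} (hy : ∀ i, y i ∈ O) (k : Fin 5) : ee y k ∈ O := by
  have h2 : e2 y ∈ O := by unfold e2; apply_rules (maxDepth := 500) [add_mem, mul_mem]
  have h3 : e3 y ∈ O := by unfold e3; apply_rules (maxDepth := 500) [add_mem, mul_mem, neg_mem]
  have h4 : e4 y ∈ O := by unfold e4; apply_rules (maxDepth := 500) [add_mem, mul_mem]
  have h5 : e5 y ∈ O := by unfold e5; apply_rules (maxDepth := 500) [add_mem, mul_mem, neg_mem]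
  have h6 : e6 y ∈ O := by unfold e6; apply_rules (maxDepth := 500) [mul_mem]
  fin_cases k
  exacts [h2, h3, h4, h5, h6]

theorem Split_div_mem (h : IsOrd O ord) {c a : F} (hc : c ≠ 0) {n : ℤ} (hn : ord c = n)
    (ha : Gt ord (n - 1) a) : a / c ∈ O := by
  rw [h.mem]
  by_cases h0 : a = 0
  · exact Or.inl (by rw [h0, zero_div])
  · have h1 := ha.resolve_left h0
    rw [h.div h0 hc]
    exact Or.inr (by omega)

theorem Split_perm : ∀ a b : Fin 6, a ≠ b → ∃ σ ∈ ([![0, 1, 2, 3, 4, 5], ![1, 0, 4, 2, 3, 5],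
    ![0, 3, 5, 1, 2, 4]] : List (Fin 6 → Fin 6)), Function.Injective σ ∧
      ¬ (side (σ 0) = side (σ 1) ∧ side (σ 1) = side (σ 2)) ∧
      ¬ (side (σ 3) = side (σ 4) ∧ side (σ 4) = side (σ 5)) ∧
      (σ 1 ≠ a ∧ σ 1 ≠ b ∧ ¬ (side (σ 1) = side a ∧ side a = side b)) ∧
      (σ 2 ≠ a ∧ σ 2 ≠ b ∧ ¬ (side (σ 2) = side a ∧ side a = side b)) := by
  decide

theorem Split_perm' : ∀ a : Fin 6, ∃ σ ∈ ([![0, 1, 2, 3, 4, 5],
    ![3, 4, 5, 0, 1, 2]] : List (Fin 6 → Fin 6)), Function.Injective σ ∧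
      ¬ (side (σ 0) = side (σ 1) ∧ side (σ 1) = side (σ 2)) ∧
      ¬ (side (σ 3) = side (σ 4) ∧ side (σ 4) = side (σ 5)) ∧ σ 0 ≠ a ∧ σ 1 ≠ a ∧ σ 2 ≠ a := by
  decide

theorem Split_ne {R : Type} [CommRing R] {m : Fin 6 → V R} (h18 : H18 m) {σ : Fin 6 → Fin 6}
    (hσ : Function.Injective σ) {i j k : Fin 6} (hij : i ≠ j) (hik : i ≠ k) (hjk : j ≠ k)
    (hs : ¬ (side (σ i) = side (σ j) ∧ side (σ j) = side (σ k))) :
    br (m (σ i)) (m (σ j)) (m (σ k)) ≠ 0 :=
  h18.ne (hσ.ne hij) (hσ.ne hik) (hσ.ne hjk) hs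

/-- The differences `x i - x j` are sums and differences of the nine given sums
(`x 2 - x 5`, `x 1 - x 0`, `x 3 - x 5`, `x 1 - x 4`, `x 3 - x 4`, …), and `6 x i = ∑ j, (x i - x j)`.
So all `x i` are zero or of order `≥ n`, and `ee x k` is a sum of products of `k + 2` of them.
It is convenient to divide by `π ^ n` (`h.unif`, `Ord_zpow`) and argue with membership in `O`. -/
theorem ee_ord (h : IsOrd O ord) (x : Fin 6 → F) (hs : x 0 + x 1 + x 2 + x 3 + x 4 + x 5 = 0)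
    (n : ℤ) (h1 : Gt ord (n - 1) (x 1 + x 2 + x 3)) (h2 : Gt ord (n - 1) (x 1 + x 3 + x 5))
    (h3 : Gt ord (n - 1) (x 0 + x 3 + x 5)) (h4 : Gt ord (n - 1) (x 0 + x 2 + x 3))
    (h5 : Gt ord (n - 1) (x 0 + x 1 + x 5)) (h6 : Gt ord (n - 1) (x 0 + x 1 + x 3))
    (h7 : Gt ord (n - 1) (x 0 + x 3 + x 4)) (h8 : Gt ord (n - 1) (x 1 + x 3 + x 4))
    (h9 : Gt ord (n - 1) (x 0 + x 1 + x 4)) (k : Fin 5) :
    Gt ord ((k.1 + 2) * n - 1) (ee x k) := by
  have := cz F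
  obtain ⟨π, hπ, hπ1⟩ := h.unif
  have hc : π ^ n ≠ 0 := zpow_ne_zero n hπ
  have hn : ord (π ^ n) = n := by rw [Ord_zpow h hπ, hπ1, mul_one]
  generalize π ^ n = c at hc hn
  have b1 := Split_div_mem h hc hn h1
  have b2 := Split_div_mem h hc hn h2
  have b3 := Split_div_mem h hc hn h3
  have b5 := Split_div_mem h hc hn h5
  have b6 := Split_div_mem h hc hn h6
  have b7 := Split_div_mem h hc hn h7
  have b9 := Split_div_mem h hc hn h9
  have y5 : x 5 / c ∈ O := by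
    have h3 := O.mul_mem (O.algebraMap_mem (3 : ℂ)⁻¹) (O.sub_mem (O.add_mem (O.sub_mem
      (O.sub_mem (O.add_mem (O.add_mem b2 b5) b5) b6) b6) b7) b9)
    rw [map_inv₀, map_ofNat] at h3
    refine (congrArg (· ∈ O) ?_).mp h3
    field_simp
    ring
  have y2 : x 2 / c ∈ O :=
    (congrArg (· ∈ O) (by ring)).mp (O.add_mem y5 (O.sub_mem b1 b2))
  have y3 : x 3 / c ∈ O :=
    (congrArg (· ∈ O) (by ring)).mp (O.add_mem y5 (O.sub_mem b6 b5))
  have y4 : x 4 / c ∈ O :=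
    (congrArg (· ∈ O) (by ring)).mp (O.sub_mem y3 (O.sub_mem b6 b9))
  have y1 : x 1 / c ∈ O :=
    (congrArg (· ∈ O) (by ring)).mp (O.add_mem y4 (O.sub_mem b6 b7))
  have y0 : x 0 / c ∈ O :=
    (congrArg (· ∈ O) (by ring)).mp (O.sub_mem y1 (O.sub_mem b2 b3))
  have hy : ∀ i, x i / c ∈ O := fun i => by
    fin_cases i
    exacts [y0, y1, y2, y3, y4, y5]
  have hx : x = fun i => c * (x i / c) := funext fun i => (mul_div_cancel₀ _ hc).symm
  rw [hx, Split_ee_mul, mul_comm (c ^ _)]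
  refine Gt.mul_mem h (Split_ee_mem hy k) (Or.inr ?_)
  rw [h.pow hc, hn]
  push_cast
  exact sub_one_lt _

/-- Contrapositive of `ee_ord` for `x = fun i => l * xs m i` (`ee` is homogeneous of degree
`k + 2`), with `split_012`, …, `split_035`, `xs_sum` and `H18.ne`. -/
theorem split_small (h : IsOrd O ord) {m : Fin 6 → V F} (h18 : H18 m) (l : F) (n : ℤ) (k : Fin 5)
    (h0 : l ^ (k.1 + 2) * ee (xs m) k ≠ 0)
    (hk : ord (l ^ (k.1 + 2) * ee (xs m) k) < (k.1 + 2) * n) :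
    ∃ σ : Fin 6 → Fin 6, Function.Injective σ ∧ br (m (σ 0)) (m (σ 1)) (m (σ 2)) ≠ 0 ∧
      br (m (σ 3)) (m (σ 4)) (m (σ 5)) ≠ 0 ∧
      ord (l * (br (m (σ 0)) (m (σ 1)) (m (σ 2)) * br (m (σ 3)) (m (σ 4)) (m (σ 5)))) < n := by
  have := cz F
  by_contra hne
  have key : ∀ a b c d e f : Fin 6, Function.Injective ![a, b, c, d, e, f] →
      ¬ (side a = side b ∧ side b = side c) → ¬ (side d = side e ∧ side e = side f) →
      Gt ord (n - 1) (l * (br (m a) (m b) (m c) * br (m d) (m e) (m f))) := by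
    intro a b c d e f hi h1 h2
    refine Or.inr (Int.sub_one_lt_iff.2 (not_lt.1 fun hlt => hne ⟨![a, b, c, d, e, f], hi,
      Split_ne h18 hi (by decide) (by decide) (by decide) h1,
      Split_ne h18 hi (by decide) (by decide) (by decide) h2, hlt⟩))
  have h1 := key 0 1 2 3 4 5 (by decide) (by decide) (by decide)
  have h2 := key 0 1 3 2 4 5 (by decide) (by decide) (by decide)
  have h3 := key 0 1 4 2 3 5 (by decide) (by decide) (by decide)
  have h4 := key 0 1 5 2 3 4 (by decide) (by decide) (by decide)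
  have h5 := key 0 2 3 1 4 5 (by decide) (by decide) (by decide)
  have h6 := key 0 2 4 1 3 5 (by decide) (by decide) (by decide)
  have h7 := key 0 2 5 1 3 4 (by decide) (by decide) (by decide)
  have h8 := key 0 3 4 1 2 5 (by decide) (by decide) (by decide)
  have h9 := key 0 3 5 1 2 4 (by decide) (by decide) (by decide)
  rw [split_012, mul_add, mul_add] at h1
  rw [split_013, mul_add, mul_add] at h2
  rw [split_014, mul_add, mul_add] at h3
  rw [split_015, mul_add, mul_add] at h4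
  rw [split_023, mul_add, mul_add] at h5
  rw [split_024, mul_add, mul_add] at h6
  rw [split_025, mul_add, mul_add] at h7
  rw [split_034, mul_add, mul_add] at h8
  rw [split_035, mul_add, mul_add] at h9
  have h10 := ee_ord h (fun i => l * xs m i) (by linear_combination l * xs_sum m) n h1 h2 h3 h4 h5
    h6 h7 h8 h9 k
  rw [Split_ee_mul] at h10
  exact absurd (Int.sub_one_lt_iff.1 (h10.resolve_left h0)) (not_le.2 hk)

/-- The position of the centre of a horizontal valuation.  Let `n` be the minimum of the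
`ord (L i)`, `L i = ev (m i) p`, and `S = {i | n < ord (L i)}`.  All non-zero brackets have order
zero.  If `S` has at most one element, choose three indices outside `S` that are not on one
`side` (first alternative; the complementary triple is not on one side either).  Otherwise let
`a ≠ b` in `S`.  If `e` is such that `a, b, e` are distinct and not on one side then `e ∉ S`:
otherwise `cramer` writes every `br a b e * L i` as a combination of `L a, L b, L e` with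
coefficients in `O`, so all `L i` have order `> n`.  Choose two such indices `e ≠ f` and `d` such
that `d, f, e` are distinct and not on one side (a finite check by `decide`); put
`σ 0 = d`, `σ 1 = f`, `σ 2 = e`, `γ = br f a b / br e a b`; `cramer` gives
`br e a b * L f - br f a b * L e = br b e f * L a - br a e f * L b`. -/
theorem hor_cases (h : IsOrd O ord) (k : IntermediateField ℂ F)
    (hk : ∀ x ∈ k, x ≠ 0 → ord x = 0) {m : Fin 6 → V F} (hm : ∀ i, (m i).In k) (h18 : H18 m)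
    (p : V F) (hL : ∀ i, ev (m i) p ≠ 0) :
    ∃ σ : Fin 6 → Fin 6, Function.Injective σ ∧ br (m (σ 0)) (m (σ 1)) (m (σ 2)) ≠ 0 ∧
      br (m (σ 3)) (m (σ 4)) (m (σ 5)) ≠ 0 ∧ ord (ev (m (σ 1)) p) = ord (ev (m (σ 2)) p) ∧
      (ord (ev (m (σ 0)) p) = ord (ev (m (σ 2)) p) ∨
        ∃ γ ∈ k, Gt ord 0 (ev (m (σ 1)) p / ev (m (σ 2)) p - γ)) := by
  obtain ⟨i₀, hi₀⟩ := Finite.exists_min fun i => ord (ev (m i) p)
  have hb : ∀ a b c, br (m a) (m b) (m c) ∈ k := fun a b c => br_mem (hm a) (hm b) (hm c)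
  have hO : ∀ a b c, br (m a) (m b) (m c) ∈ O := fun a b c => by
    rw [h.mem]
    by_cases h0 : br (m a) (m b) (m c) = 0
    · exact Or.inl h0
    · exact Or.inr (hk _ (hb a b c) h0).ge
  have hord : ∀ a b c i, br (m a) (m b) (m c) ≠ 0 →
      ord (br (m a) (m b) (m c) * ev (m i) p) = ord (ev (m i) p) := fun a b c i h0 => by
    rw [h.mul _ _ h0 (hL i), hk _ (hb a b c) h0, zero_add]
  by_cases hS : ∃ a b, a ≠ b ∧ ord (ev (m i₀) p) < ord (ev (m a) p) ∧
      ord (ev (m i₀) p) < ord (ev (m b) p)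
  · obtain ⟨a, b, hab, ha, hb'⟩ := hS
    have h1 : ∀ e, e ≠ a → e ≠ b → ¬ (side e = side a ∧ side a = side b) →
        ord (ev (m e) p) = ord (ev (m i₀) p) := fun e h1 h2 h3 => by
      refine le_antisymm (not_lt.1 fun he => ?_) (hi₀ e)
      have h0 := h18.ne h1 h2 hab h3
      have h4 := Gt.add h (Gt.add h (Gt.mul_mem h (hO i₀ a b) (Or.inr he))
        (Gt.neg h (Gt.mul_mem h (hO i₀ e b) (Or.inr ha)))) (Gt.mul_mem h (hO i₀ e a) (Or.inr hb'))
      have h5 : br (m i₀) (m a) (m b) * ev (m e) p + -(br (m i₀) (m e) (m b) * ev (m a) p) +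
          br (m i₀) (m e) (m a) * ev (m b) p = br (m e) (m a) (m b) * ev (m i₀) p := by
        linear_combination -cramer (m i₀) (m e) (m a) (m b) p
      rw [h5] at h4
      have h6 := h4.resolve_left (mul_ne_zero h0 (hL i₀))
      rw [hord _ _ _ _ h0] at h6
      exact lt_irrefl _ h6
    obtain ⟨σ, -, hσ, s1, s2, ⟨f1, f2, f3⟩, e1, e2, e3⟩ := Split_perm a b hab
    have h2 := h1 _ e1 e2 e3
    have h0 := h18.ne e1 e2 hab e3
    refine ⟨σ, hσ, Split_ne h18 hσ (by decide) (by decide) (by decide) s1,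
      Split_ne h18 hσ (by decide) (by decide) (by decide) s2, (h1 _ f1 f2 f3).trans h2.symm,
      Or.inr ⟨br (m (σ 1)) (m a) (m b) / br (m (σ 2)) (m a) (m b),
        k.div_mem (hb _ _ _) (hb _ _ _), ?_⟩⟩
    have h4 := Gt.add h (Gt.mul_mem h (hO (σ 1) (σ 2) a) (Or.inr hb'))
      (Gt.neg h (Gt.mul_mem h (hO (σ 1) (σ 2) b) (Or.inr ha)))
    have h5 : ev (m (σ 1)) p / ev (m (σ 2)) p -
        br (m (σ 1)) (m a) (m b) / br (m (σ 2)) (m a) (m b) =
        (br (m (σ 1)) (m (σ 2)) (m a) * ev (m b) p + -(br (m (σ 1)) (m (σ 2)) (m b) * ev (m a) p)) /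
          (br (m (σ 2)) (m a) (m b) * ev (m (σ 2)) p) := by
      have h6 := hL (σ 2)
      rw [div_sub_div _ _ h6 h0, div_eq_div_iff (mul_ne_zero h6 h0) (mul_ne_zero h0 h6)]
      linear_combination (br (m (σ 2)) (m a) (m b) * ev (m (σ 2)) p) *
        cramer (m (σ 1)) (m (σ 2)) (m a) (m b) p
    rw [h5]
    generalize br (m (σ 1)) (m (σ 2)) (m a) * ev (m b) p +
      -(br (m (σ 1)) (m (σ 2)) (m b) * ev (m a) p) = N at h4 ⊢
    by_cases hN : N = 0
    · exact Or.inl (by rw [hN, zero_div])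
    · refine Or.inr ?_
      rw [h.div hN (mul_ne_zero h0 (hL _)), hord _ _ _ _ h0, h2]
      exact sub_pos.2 (h4.resolve_left hN)
  · obtain ⟨a, ha⟩ : ∃ a, ∀ i, i ≠ a → ord (ev (m i) p) = ord (ev (m i₀) p) := by
      by_cases h1 : ∃ a, ord (ev (m i₀) p) < ord (ev (m a) p)
      · obtain ⟨a, ha⟩ := h1
        exact ⟨a, fun i hi => le_antisymm (not_lt.1 fun h2 => hS ⟨i, a, hi, h2, ha⟩) (hi₀ i)⟩
      · exact ⟨0, fun i _ => le_antisymm (not_lt.1 fun h2 => h1 ⟨i, h2⟩) (hi₀ i)⟩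
    obtain ⟨σ, -, hσ, s1, s2, a0, a1, a2⟩ := Split_perm' a
    exact ⟨σ, hσ, Split_ne h18 hσ (by decide) (by decide) (by decide) s1,
      Split_ne h18 hσ (by decide) (by decide) (by decide) s2, (ha _ a1).trans (ha _ a2).symm,
      Or.inl ((ha _ a0).trans (ha _ a2).symm)⟩

end

end Pool.Agent.MP_1c689d_ag.SX

end

section

set_option autoImplicit false

namespace Pool.Agent.MP_1c689d_ag.SX

open Pool.Agent.MP_1c689d_ag.FP

noncomputable section

open Polynomial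

variable {F : Type} [Field F] [Algebra ℂ F]
variable {O : Subalgebra ℂ F} {ord : F → ℤ}

variable {full : Prop} {s u v z c : F} {m : Fin 6 → V F}

theorem SixDvr_ne (H : Six full s u v z c m) (i : Fin 6) : ev (m i) ⟨u, v, 1⟩ ≠ 0 :=
  (gen_of_indep (acl {s}) H.mem H.good.1 (indep_acl H.ind)).L i

theorem SixDvr_alg {k : Type} [Field k] {G J z c A B J₁ J₂ l₀ l₁ l₂ l₃ l₄ l₅ : k} (hc : c ≠ 0)
    (h₀ : l₀ ≠ 0) (h₁ : l₁ ≠ 0) (h₂ : l₂ ≠ 0) (h₃ : l₃ ≠ 0) (h₄ : l₄ ≠ 0) (h₅ : l₅ ≠ 0)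
    (hz : z ^ 2 = c * (l₀ * l₁ * l₂ * l₃ * l₄ * l₅)) (e₁ : J₁ * l₂ ^ 3 = A * J)
    (e₂ : J₂ * l₅ ^ 3 = B * J) :
    (G * J / z) ^ 2 * (c * (A * B)) =
      G ^ 2 * (J₁ / (l₀ / l₂ * (l₁ / l₂))) * (J₂ / (l₃ / l₅ * (l₄ / l₅))) := by
  have f₁ : J₁ = A * J / l₂ ^ 3 := eq_div_of_mul_eq (pow_ne_zero 3 h₂) e₁
  have f₂ : J₂ = B * J / l₅ ^ 3 := eq_div_of_mul_eq (pow_ne_zero 3 h₅) e₂
  rw [div_pow, hz, f₁, f₂]
  field_simp

theorem SixDvr_fin (h : IsOrd O ord) {w X Q₁ Q₂ : F} (e : w ^ 2 * X = Q₁ * Q₂) (hX : X ≠ 0)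
    {a b : ℤ} (h₁ : Gt ord a Q₁) (h₂ : Gt ord b Q₂) (hab : ord X < a + b + 2) : Gt ord 0 w := by
  by_cases hw : w = 0
  · exact Or.inl hw
  have hQ : Q₁ * Q₂ ≠ 0 := e ▸ mul_ne_zero (pow_ne_zero 2 hw) hX
  have n₁ : Q₁ ≠ 0 := left_ne_zero_of_mul hQ
  have n₂ : Q₂ ≠ 0 := right_ne_zero_of_mul hQ
  have o₁ := h₁.resolve_left n₁
  have o₂ := h₂.resolve_left n₂
  have e' := congrArg ord e
  rw [h.mul _ _ (pow_ne_zero 2 hw) hX, h.mul _ _ n₁ n₂, h.pow hw] at e'
  refine Or.inr ?_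
  push_cast at e'
  omega

theorem SixDvr_quo (h : IsOrd O ord) {D : Fin 3 → Derivation ℂ F F} (hD : ∀ i, Lg ord (D i))
    {s f : F} (hf : f ≠ 0) (a b : F) (e : jac D ![f, a, b] = jac D ![s, a, b]) :
    Gt ord (ord f - 1) (jac D ![s, a, b] / (a * b)) := by
  have e' : jac D ![s, a, b] / (a * b) = jac D ![f, a, b] / (f * a * b) * f := by
    rw [e, mul_assoc, div_mul_eq_mul_div, mul_comm f, mul_div_mul_right _ _ hf]
  rw [e']
  exact Gt.mul_mem h (jac_log h hD f a b) (Or.inr (by omega))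

/-- `jac_lines` twice, `prodL_perm`, `gen_of_indep` (for `L i ≠ 0`) -/
theorem six_core (H : Six full s u v z c m) (D : Fin 3 → Derivation ℂ F F) (G : F)
    {σ : Fin 6 → Fin 6} (hσ : Function.Injective σ) (L : Fin 6 → F)
    (hL : ∀ i, L i = ev (m (σ i)) ⟨u, v, 1⟩) :
    (G * jac D ![s, u, v] / z) ^ 2 *
        (c * (br (m (σ 0)) (m (σ 1)) (m (σ 2)) * br (m (σ 3)) (m (σ 4)) (m (σ 5)))) =
      G ^ 2 * (jac D ![s, L 0 / L 2, L 1 / L 2] / (L 0 / L 2 * (L 1 / L 2))) *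
        (jac D ![s, L 3 / L 5, L 4 / L 5] / (L 3 / L 5 * (L 4 / L 5))) := by
  have hne : ∀ i, L i ≠ 0 := fun i => by
    rw [hL i]
    exact SixDvr_ne H (σ i)
  have hz : z ^ 2 = c * (L 0 * L 1 * L 2 * L 3 * L 4 * L 5) := by
    rw [H.eq, ← prodL_perm m _ hσ]
    simp only [hL]
    rfl
  refine SixDvr_alg H.c0 (hne 0) (hne 1) (hne 2) (hne 3) (hne 4) (hne 5) hz ?_ ?_
  · simp only [hL]
    exact jac_lines D (H.mem _) (H.mem _) (H.mem _) (SixDvr_ne H _)
  · simp only [hL]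
    exact jac_lines D (H.mem _) (H.mem _) (H.mem _) (SixDvr_ne H _)

theorem SixDvr_core (H : Six full s u v z c m) (D : Fin 3 → Derivation ℂ F F) {G : F}
    (hG : G ≠ 0) {σ : Fin 6 → Fin 6} (hσ : Function.Injective σ) (L : Fin 6 → F)
    (hL : ∀ i, L i = ev (m (σ i)) ⟨u, v, 1⟩) :
    (G * jac D ![s, u, v] / z) ^ 2 *
        (c / G ^ 2 * (br (m (σ 0)) (m (σ 1)) (m (σ 2)) * br (m (σ 3)) (m (σ 4)) (m (σ 5)))) =
      (jac D ![s, L 0 / L 2, L 1 / L 2] / (L 0 / L 2 * (L 1 / L 2))) *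
        (jac D ![s, L 3 / L 5, L 4 / L 5] / (L 3 / L 5 * (L 4 / L 5))) := by
  have e := six_core H D G hσ L hL
  apply mul_left_cancel₀ (pow_ne_zero 2 hG)
  rw [← mul_assoc (G ^ 2) (_ / _), ← e, mul_left_comm, ← mul_assoc (G ^ 2),
    mul_div_cancel₀ _ (pow_ne_zero 2 hG)]

theorem SixDvr_vert (h : IsOrd O ord) (H : Six full s u v z c m) {G : F} {P : Fin 5 → ℂ[X]}
    (hN : Nrm s c m G P) {D : Fin 3 → Derivation ℂ F F} (hD : ∀ i, Lg ord (D i)) {f : F}
    (hf : f ≠ 0) (e : ∀ a b, jac D ![f, a, b] = jac D ![s, a, b]) (k : Fin 5)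
    (h0 : aeval s (P k) ≠ 0) (hk : ord (aeval s (P k)) < (k.1 + 2) * (2 * ord f)) :
    Gt ord 0 (G * jac D ![s, u, v] / z) := by
  have e₀ : (c / G ^ 2) ^ (k.1 + 2) * ee (xs m) k = aeval s (P k) := by
    rw [div_pow, ← pow_mul, div_mul_eq_mul_div, hN.eq k,
      mul_div_cancel_left₀ _ (pow_ne_zero _ hN.ne)]
  obtain ⟨σ, hσ, b₁, b₂, ho⟩ := split_small h H.good.1 (c / G ^ 2) (2 * ord f) k
    (by rw [e₀]; exact h0) (by rw [e₀]; exact hk)
  refine SixDvr_fin h (SixDvr_core H D hN.ne hσ _ fun _ => rfl)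
    (mul_ne_zero (div_ne_zero H.c0 (pow_ne_zero 2 hN.ne)) (mul_ne_zero b₁ b₂))
    (SixDvr_quo h hD hf _ _ (e _ _)) (SixDvr_quo h hD hf _ _ (e _ _)) ?_
  omega

theorem SixDvr_hor (h : IsOrd O ord) (H : Six full s u v z c m) {G : F} {P : Fin 5 → ℂ[X]}
    (hN : Nrm s c m G P) {D : Fin 3 → Derivation ℂ F F} (hD : ∀ i, Lg ord (D i))
    (h0 : ∀ p : ℂ[X], p ≠ 0 → ord (aeval s p) = 0) : Gt ord 0 (G * jac D ![s, u, v] / z) := by
  have hk : ∀ x ∈ acl ({s} : Set F), x ≠ 0 → ord x = 0 := fun x hx hx0 => ord_acl h h0 hx hx0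
  have hsO : s ∈ O := by
    refine (h.mem s).2 (Or.inr ?_)
    have := h0 X X_ne_zero
    rw [aeval_X] at this
    exact this.ge
  obtain ⟨σ, hσ, b₁, b₂, o₁, o₂⟩ := hor_cases h (acl {s}) hk H.mem H.good.1 ⟨u, v, 1⟩
    (SixDvr_ne H)
  have hX : c / G ^ 2 * (br (m (σ 0)) (m (σ 1)) (m (σ 2)) * br (m (σ 3)) (m (σ 4)) (m (σ 5))) ≠
      0 := mul_ne_zero (div_ne_zero H.c0 (pow_ne_zero 2 hN.ne)) (mul_ne_zero b₁ b₂)
  have hXo := hk _ (mul_mem (div_mem (adjoin_le_acl _ H.cmem)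
    (pow_mem (adjoin_le_acl _ hN.mem) 2)) (mul_mem (br_mem (H.mem _) (H.mem _) (H.mem _))
      (br_mem (H.mem _) (H.mem _) (H.mem _)))) hX
  refine SixDvr_fin h (SixDvr_core H D hN.ne hσ _ fun _ => rfl) hX (a := 0) (b := -1) ?_ ?_
    (by omega)
  · have n₀ := SixDvr_ne H (σ 0)
    have n₁ := SixDvr_ne H (σ 1)
    have n₂ := SixDvr_ne H (σ 2)
    generalize ev (m (σ 0)) ⟨u, v, 1⟩ = l₀ at *
    generalize ev (m (σ 1)) ⟨u, v, 1⟩ = l₁ at *
    generalize ev (m (σ 2)) ⟨u, v, 1⟩ = l₂ at *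
    have ha : l₀ / l₂ ≠ 0 := div_ne_zero n₀ n₂
    have hb : l₁ / l₂ ≠ 0 := div_ne_zero n₁ n₂
    have ob : ord (l₁ / l₂) = 0 := by rw [h.div n₁ n₂, o₁, sub_self]
    rcases o₂ with o₂ | ⟨γ, hγ, o₂⟩
    · have oa : ord (l₀ / l₂) = 0 := by rw [h.div n₀ n₂, o₂, sub_self]
      have h3 : Algebra.trdeg ℂ F = 3 := trdeg_eq_three _ H.ind (by rw [range_vec3, H.alg])
      have hj := dep h h3 hD ![s, l₀ / l₂, l₁ / l₂] (by
        intro j
        fin_cases j
        · exact hsO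
        · exact (h.mem _).2 (Or.inr oa.ge)
        · exact (h.mem _).2 (Or.inr ob.ge))
      rw [div_eq_mul_inv (jac _ _), mul_comm]
      refine Gt.mul_mem h ((h.mem _).2 (Or.inr ?_)) hj
      rw [h.inv (mul_ne_zero ha hb), h.mul _ _ ha hb, oa, ob]
      rfl
    · generalize l₀ / l₂ = a at *
      generalize l₁ / l₂ = b at *
      rw [← jac_sub_acl D hγ a b]
      by_cases hg : b - γ = 0
      · refine Or.inl ?_
        rw [hg, jac_eq]
        simp
      · have e : jac D ![s, a, b - γ] / (a * b) =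
            jac D ![s, a, b - γ] / (a * (b - γ)) * b⁻¹ * (b - γ) := by
          field_simp
        rw [e]
        refine Gt.mul_mem h (mul_mem (jac_log' h hD hsO _ _) ((h.mem _).2 (Or.inr ?_))) o₂
        rw [h.inv hb, ob]
        rfl
  · rcases (h.mem _).1 (jac_log' h hD hsO
      (ev (m (σ 3)) ⟨u, v, 1⟩ / ev (m (σ 5)) ⟨u, v, 1⟩)
      (ev (m (σ 4)) ⟨u, v, 1⟩ / ev (m (σ 5)) ⟨u, v, 1⟩)) with h1 | h1
    · exact Or.inl h1
    · exact Or.inr (by omega)

/-- The form `G ds ∧ du ∧ dv / z` is regular along every discrete valuation.  Use `IsOrd.tri`.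
Centre over `τ`: `hlo τ` and `hN.eq` give `k` with
`ord ((c / G²) ^ (k + 2) * ee (xs m) k) = ord (aeval s (P k)) < (k + 2) * (2 e)`; take `σ` from
`split_small` with `n = 2 e`; by `jac_sub_const` and `jac_log` both quotients on the right of
`six_core` are `s - τ` times an element of `O`, hence `2 * ord > 0`.  Centre at infinity: the same
with `hhi`, `n = -2 e`, and `s` in place of `s - τ`.  Horizontal case: `ord_acl` shows that `G`,
`c` and the brackets have order zero; take `σ` from `hor_cases`; the second quotient is in `O` by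
`jac_log'`, the first one has positive order by `dep` (first alternative) or by `jac_sub_acl` and
`jac_log'` (second alternative). -/
theorem six_dvr (h : IsOrd O ord) (H : Six full s u v z c m) {G : F} {P : Fin 5 → ℂ[X]}
    (hN : Nrm s c m G P) (hlo : LoP P) (hhi : ¬ SmallP P) {D : Fin 3 → Derivation ℂ F F}
    (hD : ∀ i, Lg ord (D i)) : Gt ord 0 (G * jac D ![s, u, v] / z) := by
  have hs : Transcendental ℂ s := (transc_of_indep H.ind).2.2
  have hne : ∀ p : ℂ[X], p ≠ 0 → aeval s p ≠ 0 := fun p hp e => hp (transcendental_iff.1 hs p e)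
  rcases h.tri s hs with h0 | ⟨t, e, he, hse, h0⟩ | ⟨e, he, hse, h0⟩
  · exact SixDvr_hor h H hN hD h0
  · obtain ⟨k, hk0, hk⟩ := hlo t
    refine SixDvr_vert h H hN hD (Ord_sub_ne s hs t) (fun a b => jac_sub_const D s a b t) k
      (hne _ hk0) ?_
    have hk' : ((P k).rootMultiplicity t : ℤ) < 2 * (k.1 + 2) := by exact_mod_cast hk
    rw [h0 _ hk0, hse]
    nlinarith
  · obtain ⟨k, hk⟩ := not_forall.1 hhi
    have hk1 : 2 * (k.1 + 2) < (P k).natDegree := not_le.1 hk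
    have hk0 : P k ≠ 0 := by
      intro e0
      rw [e0, natDegree_zero] at hk1
      omega
    refine SixDvr_vert h H hN hD (f := s) (by simpa using hne _ X_ne_zero) (fun _ _ => rfl) k
      (hne _ hk0) ?_
    have hk' : (2 * (k.1 + 2) : ℤ) < (P k).natDegree := by exact_mod_cast hk1
    rw [h0 _ hk0, hse]
    nlinarith

end

end Pool.Agent.MP_1c689d_ag.SX

end

section

set_option autoImplicit false

namespace Pool.Agent.MP_1c689d_ag.SX

open Pool.Agent.MP_1c689d_ag.FP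

noncomputable section

open Polynomial

variable {F N : Type} [Field F] [Algebra ℂ F] [Field N] [Algebra ℂ N] [Algebra F N]
  [IsScalarTower ℂ F N]

/-- `y` is an `O`-linear combination of the elements of `b` -/
def Sp (O : Subalgebra ℂ F) (b : Finset N) (y : N) : Prop :=
  ∃ a : N → F, (∀ i, a i ∈ O) ∧ y = ∑ i ∈ b, algebraMap F N (a i) * i

theorem DescA_unit {O : Subalgebra ℂ N} {ord : N → ℤ} (h : IsOrd O ord) {x : N} (h0 : x ≠ 0)
    (h1 : x ∈ O) (h2 : x⁻¹ ∈ O) : ord x = 0 := by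
  have h3 := ((h.mem _).1 h1).resolve_left h0
  have h4 := ((h.mem _).1 h2).resolve_left (inv_ne_zero h0)
  rw [h.inv h0] at h4
  omega

/-- Extension of a discrete valuation to a finite extension.  Let `B = integralClosure O N`; it is
a Dedekind domain, finite over `O` (`IsIntegralClosure.isDedekindDomain`,
`IsIntegralClosure.finite`; characteristic zero gives separability), with fraction field `N`.
Choose a maximal ideal `𝔭` of `B` over the maximal ideal of `O` (it is non-zero); view `B` as a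
`ℂ`-subalgebra `S` of `N` and take `O' = GlobL_loc S 𝔭` (`GlobL_dvr`, `GlobL_frac`,
`IsLocalization.AtPrime.isDiscreteValuationRing_of_dedekind_domain`), `exists_ord`.  Let
`e = ord' π` for a uniformiser `π` of `O` (`π ∈ 𝔭`); units of `O` are units of `O'`, and every
`x ≠ 0` is `π ^ ord x` times a unit (`Ord_zpow`).  `b` is a finite set of generators of the
`O`-module `B`. -/
theorem desc_ord [FiniteDimensional F N] (O : Subalgebra ℂ F) [IsDiscreteValuationRing O]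
    [IsFractionRing O F] {ord : F → ℤ} (h : IsOrd O ord) :
    ∃ (O' : Subalgebra ℂ N) (ord' : N → ℤ) (e : ℤ) (b : Finset N), IsOrd O' ord' ∧ 0 < e ∧
      (∀ x, x ≠ 0 → ord' (algebraMap F N x) = e * ord x) ∧ (∀ i ∈ b, i ∈ O') ∧
      ∀ y ∈ O', ∃ t, t ≠ 0 ∧ ord' t = 0 ∧ Sp O b t ∧ Sp O b (y * t) := by
  have := cz F
  let B := integralClosure O N
  let S : Subalgebra ℂ N := B.restrictScalars ℂ
  have hD : IsDedekindDomain B := IsIntegralClosure.isDedekindDomain O F N B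
  have hfin : Module.Finite O B := IsIntegralClosure.finite O F N B
  have hfr : IsFractionRing S N := IsIntegralClosure.isFractionRing_of_finite_extension O F N B
  have hinj : Function.Injective (algebraMap O B) := fun x y e =>
    Subtype.ext ((algebraMap F N).injective (congrArg Subtype.val e))
  obtain ⟨p, hp, hpc⟩ := Ideal.exists_ideal_over_maximal_of_isIntegral (S := B)
    (IsLocalRing.maximalIdeal O) (by rw [(RingHom.injective_iff_ker_eq_bot _).1 hinj]; exact bot_le)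
  obtain ⟨π, π0, π1⟩ := h.unif
  have πO : π ∈ O := (h.mem π).2 (Or.inr (by omega))
  have πp : algebraMap O B ⟨π, πO⟩ ∈ p := by
    rw [← Ideal.mem_comap, hpc, IsLocalRing.mem_maximalIdeal, mem_nonunits_iff]
    intro hu
    obtain ⟨y, hy⟩ := hu.exists_right_inv
    have e : π⁻¹ = y := inv_eq_of_mul_eq_one_right (congrArg Subtype.val hy)
    have := DescA_unit h π0 πO (e ▸ y.2)
    omega
  have π0' : algebraMap F N π ≠ 0 := (_root_.map_ne_zero _).2 π0
  have hp0 : p ≠ ⊥ := fun e => by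
    rw [e, Ideal.mem_bot] at πp
    exact π0' (congrArg Subtype.val πp)
  obtain ⟨q, hq⟩ : ∃ q : Ideal S, q = p := ⟨_, rfl⟩
  have hqp : q.IsPrime := hq ▸ hp.isPrime
  have hDS : IsDedekindDomain S := hD
  have hdvr : IsDiscreteValuationRing (GlobL_loc S q) := GlobL_dvr S q
    (IsLocalization.AtPrime.isDiscreteValuationRing_of_dedekind_domain S (P := q)
      (fun e => hp0 (hq.symm.trans e)) _)
  have hfr' : IsFractionRing (GlobL_loc S q) N := GlobL_frac S _ (GlobL_le S q)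
  obtain ⟨ord', h'⟩ := exists_ord (GlobL_loc S q)
  have hO : ∀ x ∈ O, algebraMap F N x ∈ GlobL_loc S q := fun x hx =>
    GlobL_le S q (algebraMap O B ⟨x, hx⟩).2
  obtain ⟨b, hb⟩ : (Subalgebra.toSubmodule B).FG := Module.Finite.iff_fg.1 hfin
  have hsp : ∀ y : S, Sp O b y := fun y => by
    have h1 : (y : N) ∈ Submodule.span O (b : Set N) := hb ▸ y.2
    obtain ⟨f, -, h2⟩ := Submodule.mem_span_finset.1 h1
    exact ⟨fun i => f i, fun i => (f i).2, by rw [← h2]; simp only [Algebra.smul_def]; rfl⟩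
  refine ⟨_, ord', ord' (algebraMap F N π), b, h', ?_, fun x hx => ?_, fun i hi => ?_,
    fun y hy => ?_⟩
  · refine lt_of_le_of_ne (((h'.mem _).1 (hO π πO)).resolve_left π0') fun e => ?_
    obtain ⟨a, c, hc, h1⟩ := (h'.mem (algebraMap F N π)⁻¹).2
      (Or.inr (by rw [h'.inv π0', ← e, neg_zero]))
    refine hc ?_
    have h2 : c = (show S from algebraMap O B ⟨π, πO⟩) * a :=
      Subtype.ext ((inv_mul_eq_iff_eq_mul₀ π0').1 h1)
    rw [h2]
    exact q.mul_mem_right _ (hq ▸ πp)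
  · have h1 : π ^ ord x ≠ 0 := zpow_ne_zero _ π0
    have h2 : x / π ^ ord x ≠ 0 := div_ne_zero hx h1
    have h3 : ord (x / π ^ ord x) = 0 := by
      rw [h.div hx h1, Ord_zpow h π0, π1, mul_one, sub_self]
    have h4 := DescA_unit h' ((_root_.map_ne_zero (algebraMap F N)).2 h2)
      (hO _ ((h.mem _).2 (Or.inr h3.ge))) (by
        rw [← map_inv₀]
        exact hO _ ((h.mem _).2 (Or.inr (by rw [h.inv h2, h3, neg_zero]))))
    rw [map_div₀, map_zpow₀, h'.div ((_root_.map_ne_zero _).2 hx) (zpow_ne_zero _ π0'),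
      Ord_zpow h' π0', sub_eq_zero] at h4
    rw [h4, mul_comm]
  · have h1 : i ∈ Subalgebra.toSubmodule B := hb ▸ Submodule.subset_span hi
    exact GlobL_le S q h1
  · obtain ⟨a, t, ht, e⟩ := hy
    exact ⟨t, GlobL_ne ht, DescA_unit h' (GlobL_ne ht) (GlobL_le S q t.2) (GlobL_inv ht), hsp t,
      e ▸ hsp a⟩

end

end Pool.Agent.MP_1c689d_ag.SX

end

section

set_option autoImplicit false

namespace Pool.Agent.MP_1c689d_ag.SX

open Pool.Agent.MP_1c689d_ag.FP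

noncomputable section

open Polynomial

variable {F N : Type} [Field F] [Algebra ℂ F] [Field N] [Algebra ℂ N] [Algebra F N]
  [IsScalarTower ℂ F N]

/-- Derivations extend to finite extensions in characteristic zero.  One way: `N` is formally
etale over `F` (`Algebra.FormallyEtale.of_isSeparable`), so `N ⊗[F] Ω[F⁄ℂ] ≃ Ω[N⁄ℂ]`
(`KaehlerDifferential.tensorKaehlerEquivOfFormallyEtale` or `isBaseChange_of_formallyEtale`); lift
the `F`-linear map `Ω[F⁄ℂ] → F → N` of `D` and compose with the universal derivation.  Another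
way: lift the ring map `F → N[ε]`, `x ↦ x + D x ε` (`TrivSqZeroExt`, `Derivation` correspondence),
or use `Differential.differentialFiniteDimensional`. -/
theorem desc_der [FiniteDimensional F N] (D : Derivation ℂ F F) :
    ∃ D' : Derivation ℂ N N, ∀ x, D' (algebraMap F N x) = algebraMap F N (D x) := by
  have := cz F
  have : Algebra.FormallyEtale F N := Algebra.FormallyEtale.of_isSeparable F N
  have hb := KaehlerDifferential.isBaseChange_of_formallyEtale ℂ F N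
  refine ⟨(hb.lift (Algebra.linearMap F N ∘ₗ D.liftKaehlerDifferential)).compDer
    (KaehlerDifferential.D ℂ N), fun x => ?_⟩
  change hb.lift _ (KaehlerDifferential.D ℂ N (algebraMap F N x)) = _
  rw [← KaehlerDifferential.map_D ℂ ℂ F N, hb.lift_eq]
  simp

/-- a finitely generated algebraic extension is finite
(`IntermediateField.finiteDimensional_adjoin` over `F`) -/
theorem finite_of_fg (S : Finset N) (hS : IntermediateField.adjoin ℂ (S : Set N) = ⊤)
    (ha : acl (Set.range (algebraMap F N)) = ⊤) : FiniteDimensional F N := by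
  have h1 : ∀ x : N, IsAlgebraic F x := fun x => by
    have h2 : x ∈ acl ((IsScalarTower.toAlgHom ℂ F N).fieldRange : Set N) := by
      have e : ((IsScalarTower.toAlgHom ℂ F N).fieldRange : Set N) = Set.range (algebraMap F N) :=
        rfl
      rw [e, ha]
      exact IntermediateField.mem_top
    exact ((mem_acl_field _).1 h2).ringHom_of_comp_eq
      (IsScalarTower.toAlgHom ℂ F N).equivFieldRange.symm (RingHom.id N) (AlgEquiv.injective _) (by
        ext y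
        exact congrArg Subtype.val
          ((IsScalarTower.toAlgHom ℂ F N).equivFieldRange.apply_symm_apply y))
  have h2 := IntermediateField.finiteDimensional_adjoin (K := F) (S := (S : Set N))
    fun x _ => (h1 x).isIntegral
  have h3 : IntermediateField.adjoin F (S : Set N) = ⊤ := top_unique fun x _ => by
    have h4 : IntermediateField.adjoin ℂ (S : Set N) ≤
        (IntermediateField.adjoin F (S : Set N)).restrictScalars ℂ :=
      IntermediateField.adjoin_le_iff.2 (IntermediateField.subset_adjoin F _)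
    exact h4 (hS ▸ IntermediateField.mem_top)
  rw [h3] at h2
  exact IntermediateField.topEquiv.toLinearEquiv.finiteDimensional

end

end Pool.Agent.MP_1c689d_ag.SX

end

section

set_option autoImplicit false

namespace Pool.Agent.MP_1c689d_ag.SX

open Pool.Agent.MP_1c689d_ag.FP

noncomputable section

open Polynomial

variable {F N : Type} [Field F] [Algebra ℂ F] [Field N] [Algebra ℂ N] [Algebra F N]
  [IsScalarTower ℂ F N]

variable {O : Subalgebra ℂ F} {ord : F → ℤ} {O' : Subalgebra ℂ N} {ord' : N → ℤ} {e : ℤ}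

theorem DescC_map_mem (h : IsOrd O ord) (h' : IsOrd O' ord') (he : 0 < e)
    (hc : ∀ x, x ≠ 0 → ord' (algebraMap F N x) = e * ord x) {x : F} (hx : x ∈ O) :
    algebraMap F N x ∈ O' := by
  by_cases h0 : x = 0
  · rw [h0, map_zero]
    exact O'.zero_mem
  · refine (h'.mem _).2 (Or.inr ?_)
    rw [hc x h0]
    exact mul_nonneg he.le (((h.mem x).1 hx).resolve_left h0)

theorem DescC_mono {n m : ℤ} {x : N} (hx : Gt ord' n x) (hm : m ≤ n) : Gt ord' m x :=
  hx.imp_right hm.trans_lt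

theorem DescC_mul (h' : IsOrd O' ord') {n : ℤ} {x t : N} (ht : t ≠ 0) (hx : Gt ord' n x) :
    Gt ord' (n + ord' t) (t * x) := by
  by_cases h0 : x = 0
  · exact Or.inl (by rw [h0, mul_zero])
  · have := hx.resolve_left h0
    refine Or.inr ?_
    rw [h'.mul _ _ ht h0]
    omega

theorem DescC_cancel (h' : IsOrd O' ord') {n : ℤ} {x t : N} (ht : t ≠ 0)
    (hx : Gt ord' n (t * x)) : Gt ord' (n - ord' t) x := by
  have := DescC_mul h' (inv_ne_zero ht) hx
  rwa [h'.inv ht, inv_mul_cancel_left₀ ht, ← sub_eq_add_neg] at this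

theorem DescC_div (h' : IsOrd O' ord') {n : ℤ} {x t : N} (ht : t ≠ 0) (hx : Gt ord' n x) :
    Gt ord' (n - ord' t) (x / t) :=
  DescC_cancel h' ht (by rwa [mul_div_cancel₀ x ht])

theorem DescC_sub (h' : IsOrd O' ord') {n : ℤ} {x y : N} (hx : Gt ord' n x) (hy : Gt ord' n y) :
    Gt ord' n (x - y) := by
  rw [sub_eq_add_neg]
  exact Gt.add h' hx (Gt.neg h' hy)

theorem DescC_lmul (E : Derivation ℂ N N) {x y : N} (hx : x ≠ 0) (hy : y ≠ 0) :
    E (x * y) / (x * y) = E x / x + E y / y := by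
  rw [Derivation.leibniz, smul_eq_mul, smul_eq_mul]
  field_simp
  ring

theorem DescC_lzpow (E : Derivation ℂ N N) {x : N} (hx : x ≠ 0) (n : ℤ) :
    E (x ^ n) / x ^ n = n * (E x / x) := by
  have h1 : x ^ n ≠ 0 := zpow_ne_zero n hx
  rw [Derivation.leibniz_zpow, smul_eq_mul, zsmul_eq_mul, zpow_sub_one₀ hx]
  field_simp

/-- logarithmic derivatives are controlled by a uniformiser and the units -/
theorem DescC_split (h' : IsOrd O' ord') (E : Derivation ℂ N N) {n : ℤ} {π : N} (hπ : π ≠ 0)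
    (hπ1 : ord' π = 1) (h1 : Gt ord' n (E π / π))
    (h2 : ∀ w, w ≠ 0 → ord' w = 0 → Gt ord' n (E w)) {y : N} (hy : y ≠ 0) :
    Gt ord' n (E y / y) := by
  have hp : π ^ ord' y ≠ 0 := zpow_ne_zero _ hπ
  obtain ⟨w, hw⟩ : ∃ w, w = y / π ^ ord' y := ⟨_, rfl⟩
  have hw0 : w ≠ 0 := hw ▸ div_ne_zero hy hp
  have how : ord' w = 0 := by
    rw [hw, h'.div hy hp, Ord_zpow h' hπ, hπ1]
    ring
  have e1 : E y / y = (ord' y : N) * (E π / π) + E w / w := by
    rw [← DescC_lzpow E hπ, ← DescC_lmul E hp hw0, hw, mul_div_cancel₀ y hp]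
  rw [e1]
  refine Gt.add h' (Gt.mul_mem h' (intCast_mem O' _) h1) ?_
  have := DescC_div h' hw0 (h2 w hw0 how)
  rwa [how, sub_zero] at this

theorem DescC_lg (h' : IsOrd O' ord') {E : Derivation ℂ N N}
    (hE : ∀ y, y ≠ 0 → Gt ord' (-1) (E y / y)) : Lg ord' E := fun y hy => by
  have := DescC_mul h' hy (hE y hy)
  rw [mul_div_cancel₀ _ hy] at this
  exact this.imp_right fun h => by omega

theorem DescC_aeval (E : Derivation ℂ N N) (y : N) (g : F[X]) :
    E (aeval y g) - aeval y (derivative g) * E y =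
      ∑ i ∈ g.support, y ^ i * E (algebraMap F N (g.coeff i)) := by
  conv_lhs => rw [g.as_sum_support]
  simp only [map_sum, Finset.sum_mul, ← Finset.sum_sub_distrib]
  refine Finset.sum_congr rfl fun i _ => ?_
  rw [derivative_monomial, aeval_monomial, aeval_monomial, Derivation.leibniz,
    Derivation.leibniz_pow, map_mul, map_natCast]
  simp only [smul_eq_mul, nsmul_eq_mul]
  ring

theorem DescC_ind (h : IsOrd O ord) (h' : IsOrd O' ord') (he : 0 < e)
    (hc : ∀ x, x ≠ 0 → ord' (algebraMap F N x) = e * ord x) {D'' : Derivation ℂ N N}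
    (hD : Lg ord' D'')
    (hF : ∀ x, x ≠ 0 → Gt ord' (ord' (algebraMap F N x)) (D'' (algebraMap F N x))) {y : N}
    (hy : y ∈ O') (n : ℕ) : ∀ g : F[X], g.natDegree = n → (∀ i, g.coeff i ∈ O) →
      (∃ i, g.coeff i ≠ 0 ∧ ord (g.coeff i) = 0) → Gt ord' 0 (aeval y g) →
      Gt ord' 0 (D'' y) := by
  have := cz F
  induction n using Nat.strong_induction_on with
  | _ n ih =>
    intro g hn h1 h2 h3
    by_cases hu : ∃ i, g.coeff (i + 1) ≠ 0 ∧ ord (g.coeff (i + 1)) = 0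
    · obtain ⟨i, u1, u2⟩ := hu
      have hd : ∀ j, (derivative g).coeff j ∈ O := fun j => by
        rw [coeff_derivative]
        exact O.mul_mem (h1 _) (O.add_mem (natCast_mem O j) O.one_mem)
      by_cases h4 : Gt ord' 0 (aeval y (derivative g))
      · have hi : ((i + 1 : ℕ) : F) ≠ 0 := Nat.cast_ne_zero.2 i.succ_ne_zero
        have hg : g.natDegree ≠ 0 := by
          have := le_natDegree_of_ne_zero u1
          omega
        refine ih _ (hn ▸ natDegree_derivative_lt hg) _ rfl hd ⟨i, ?_⟩ h4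
        rw [coeff_derivative, ← Nat.cast_succ]
        exact ⟨mul_ne_zero u1 hi, by rw [h.mul _ _ u1 hi, u2, h.natCast i.succ_ne_zero, add_zero]⟩
      · obtain ⟨h5, h6⟩ := not_or.1 h4
        have h7 : Gt ord' 0 (∑ i ∈ g.support, y ^ i * D'' (algebraMap F N (g.coeff i))) := by
          refine Gt.sum h' _ _ fun j hj => Gt.mul_mem h' (O'.pow_mem hy j) ?_
          have hj0 := mem_support_iff.1 hj
          refine DescC_mono (hF _ hj0) ?_
          rw [hc _ hj0]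
          exact mul_nonneg he.le (((h.mem _).1 (h1 j)).resolve_left hj0)
        have h8 := DescC_sub h' (Lg.gt hD h3) h7
        rw [← DescC_aeval, sub_sub_cancel] at h8
        exact DescC_mono (DescC_cancel h' h5 h8) (by omega)
    · exfalso
      obtain ⟨i, u1, u2⟩ := h2
      rcases i with _ | i
      · have h4 : Gt ord' 0 (∑ j ∈ Finset.range g.natDegree,
            y ^ (j + 1) * algebraMap F N (g.coeff (j + 1))) := by
          refine Gt.sum h' _ _ fun j _ => Gt.mul_mem h' (O'.pow_mem hy _) ?_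
          by_cases h0 : g.coeff (j + 1) = 0
          · exact Or.inl (by rw [h0, map_zero])
          · refine Or.inr ?_
            rw [hc _ h0]
            exact mul_pos he (lt_of_le_of_ne (((h.mem _).1 (h1 _)).resolve_left h0)
              fun e' => hu ⟨j, h0, e'.symm⟩)
        have h5 := DescC_sub h' h3 h4
        have e1 : aeval y g - ∑ j ∈ Finset.range g.natDegree,
            y ^ (j + 1) * algebraMap F N (g.coeff (j + 1)) = algebraMap F N (g.coeff 0) := by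
          rw [aeval_eq_sum_range, Finset.sum_range_succ']
          simp only [Algebra.smul_def, mul_comm (y ^ _)]
          ring
        rw [e1] at h5
        rcases h5 with h5 | h5
        · exact u1 ((_root_.map_eq_zero _).1 h5)
        · rw [hc _ u1, u2] at h5
          omega
      · exact hu ⟨i, u1, u2⟩

/-- Let `r` bound `- ord' (D' i)` for `i ∈ b`.  For `Sp O b y` the Leibniz rule and `Lg.mem` give
the bound for `D' y`; for `y ∈ O'` use `t * D' y = D' (y * t) - y * D' t`. -/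
theorem desc_bdd (h : IsOrd O ord) (h' : IsOrd O' ord') (he : 0 < e)
    (hc : ∀ x, x ≠ 0 → ord' (algebraMap F N x) = e * ord x) (b : Finset N) (hb : ∀ i ∈ b, i ∈ O')
    (hs : ∀ y ∈ O', ∃ t, t ≠ 0 ∧ ord' t = 0 ∧ Sp O b t ∧ Sp O b (y * t))
    {D : Derivation ℂ F F} (hD : Lg ord D) {D' : Derivation ℂ N N}
    (hD' : ∀ x, D' (algebraMap F N x) = algebraMap F N (D x)) :
    ∃ r : ℤ, ∀ y ∈ O', Gt ord' r (D' y) := by
  obtain ⟨M, hM⟩ := Finset.exists_le (b.image fun i => -ord' (D' i))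
  have key : ∀ y, Sp O b y → Gt ord' (-max M 0 - 1) (D' y) := by
    rintro _ ⟨a, ha, rfl⟩
    rw [map_sum]
    refine Gt.sum h' _ _ fun i hi => ?_
    rw [Derivation.leibniz, smul_eq_mul, smul_eq_mul, hD']
    refine Gt.add h' (Gt.mul_mem h' (DescC_map_mem h h' he hc (ha i)) (Or.inr ?_))
      (Gt.mul_mem h' (hb i hi) ?_)
    · have := hM _ (Finset.mem_image_of_mem _ hi)
      omega
    · exact ((h'.mem _).1 (DescC_map_mem h h' he hc (Lg.mem h hD (ha i)))).imp_right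
        fun h => by omega
  refine ⟨-max M 0 - 1, fun y hy => ?_⟩
  obtain ⟨t, t0, t1, t2, t3⟩ := hs y hy
  have h1 := DescC_sub h' (key _ t3) (Gt.mul_mem h' hy (key _ t2))
  rw [Derivation.leibniz, smul_eq_mul, smul_eq_mul, add_sub_cancel_left] at h1
  have h2 := DescC_cancel h' t0 h1
  rwa [t1, sub_zero] at h2

/-- A logarithmic derivation `D''` of `N` that raises the order of all elements of `F` raises the
order of units.  Among the polynomials `g ∈ F[X]` with all coefficients in `O`, some coefficient a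
unit, and `Gt ord' 0 (g(y))` (one exists: scale an algebraic relation of `y`) take one of minimal
degree.  If only the constant coefficient is a unit then `g(y)` is a unit, a contradiction; so the
derivative `g'` again has a unit coefficient and smaller degree, hence `g'(y)` is a unit.  Now
`D'' (g(y)) = ∑ D''(aᵢ) yⁱ + g'(y) D'' y`. -/
theorem desc_unit [FiniteDimensional F N] (h : IsOrd O ord) (h' : IsOrd O' ord') (he : 0 < e)
    (hc : ∀ x, x ≠ 0 → ord' (algebraMap F N x) = e * ord x) {D'' : Derivation ℂ N N}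
    (hD : Lg ord' D'')
    (hF : ∀ x, x ≠ 0 → Gt ord' (ord' (algebraMap F N x)) (D'' (algebraMap F N x))) {y : N}
    (h0 : y ≠ 0) (hy : ord' y = 0) : Gt ord' 0 (D'' y) := by
  obtain ⟨p, hp, hp0⟩ := Algebra.IsAlgebraic.isAlgebraic (R := F) y
  obtain ⟨i, hi, hm⟩ := p.support.exists_min_image (fun i => ord (p.coeff i))
    (support_nonempty.2 hp)
  have hi0 := mem_support_iff.1 hi
  refine DescC_ind h h' he hc hD hF ((h'.mem y).2 (Or.inr hy.ge)) _ (C (p.coeff i)⁻¹ * p) rfl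
    (fun j => ?_) ⟨i, ?_⟩ (Or.inl (by rw [map_mul, hp0, mul_zero]))
  · rw [coeff_C_mul]
    by_cases hj : p.coeff j = 0
    · rw [hj, mul_zero]
      exact O.zero_mem
    · refine (h.mem _).2 (Or.inr ?_)
      have := hm j (mem_support_iff.2 hj)
      rw [h.mul _ _ (inv_ne_zero hi0) hj, h.inv hi0]
      omega
  · rw [coeff_C_mul, inv_mul_cancel₀ hi0]
    exact ⟨one_ne_zero, h.one⟩

/-- Tame ramification.  Let `π'` be a uniformiser of `O'`.  Every `y ≠ 0` is `π' ^ n * w` with `w`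
a unit, and `D' y / y = n D' π' / π' + D' w / w`, so the orders of the non-zero `D' y / y` are
bounded below by `desc_bdd`.  If `D'` is not logarithmic let `-r < 0` be the minimal order
(`Int.exists_least_of_bdd`), attained at `y₀`, and `D'' = π' ^ r • D'`.  It is logarithmic and
satisfies the hypothesis of `desc_unit`.  Write `π' ^ e = w * π` with `π` a uniformiser of `O`
and `w` a unit: `e D'' π' / π' = D'' w / w + D'' π / π` has positive order, so `D'' y / y` has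
positive order for all `y`, contradicting the choice of `y₀`. -/
theorem desc_log [FiniteDimensional F N] (h : IsOrd O ord) (h' : IsOrd O' ord') (he : 0 < e)
    (hc : ∀ x, x ≠ 0 → ord' (algebraMap F N x) = e * ord x) {D : Derivation ℂ F F}
    (hD : Lg ord D) {D' : Derivation ℂ N N}
    (hD' : ∀ x, D' (algebraMap F N x) = algebraMap F N (D x))
    (hb : ∃ r : ℤ, ∀ y ∈ O', Gt ord' r (D' y)) : Lg ord' D' := by
  have := cz N
  obtain ⟨r, hr⟩ := hb
  obtain ⟨π, hπ, hπ1⟩ := h.unif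
  obtain ⟨π', hπ', hπ1'⟩ := h'.unif
  have key : ∀ k : ℕ, (∀ y, y ≠ 0 → Gt ord' (-k - 1) (D' y / y)) → Lg ord' D' := by
    intro k
    induction k with
    | zero => exact fun hk => DescC_lg h' (by simpa using hk)
    | succ k ih =>
      intro hk
      have hp : π' ^ (k + 1) ≠ 0 := pow_ne_zero _ hπ'
      have hop : ord' (π' ^ (k + 1)) = k + 1 := by
        rw [h'.pow hπ', hπ1']
        push_cast
        ring
      obtain ⟨E, hE⟩ : ∃ E : Derivation ℂ N N, ∀ y, E y = π' ^ (k + 1) * D' y :=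
        ⟨π' ^ (k + 1) • D', fun _ => rfl⟩
      have l1 : Lg ord' E := DescC_lg h' fun y hy => by
        rw [hE, mul_div_assoc]
        refine DescC_mono (DescC_mul h' hp (hk y hy)) ?_
        rw [hop]
        push_cast
        omega
      have l2 : ∀ x, x ≠ 0 → Gt ord' (ord' (algebraMap F N x)) (E (algebraMap F N x)) := by
        intro x hx
        rw [hE, hD']
        by_cases h0 : D x = 0
        · exact Or.inl (by rw [h0, map_zero, mul_zero])
        · refine Or.inr ?_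
          have := mul_le_mul_of_nonneg_left ((hD x hx).resolve_left h0) he.le
          rw [h'.mul _ _ hp ((_root_.map_ne_zero _).2 h0), hop, hc _ hx, hc _ h0]
          omega
      have l3 : ∀ w, w ≠ 0 → ord' w = 0 → Gt ord' 0 (E w) := fun w h0 h1 =>
        desc_unit h h' he hc l1 l2 h0 h1
      have a0 : algebraMap F N π ≠ 0 := (_root_.map_ne_zero _).2 hπ
      have hpe : π' ^ e ≠ 0 := zpow_ne_zero _ hπ'
      obtain ⟨w, hw⟩ : ∃ w, w = π' ^ e / algebraMap F N π := ⟨_, rfl⟩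
      have hw0 : w ≠ 0 := hw ▸ div_ne_zero hpe a0
      have how : ord' w = 0 := by
        rw [hw, h'.div hpe a0, Ord_zpow h' hπ', hπ1', hc _ hπ, hπ1, sub_self]
      have e1 : (e : N) * (E π' / π') = E (algebraMap F N π) / algebraMap F N π + E w / w := by
        rw [← DescC_lzpow E hπ', ← DescC_lmul E a0 hw0, hw, mul_div_cancel₀ _ a0]
      have e0 : (e : N) ≠ 0 := Int.cast_ne_zero.2 he.ne'
      have oe : ord' (e : N) = 0 := by
        rw [← map_intCast (algebraMap ℂ N) e]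
        exact h'.const (Int.cast_ne_zero.2 he.ne')
      have l4 : Gt ord' 0 (E π' / π') := by
        have : Gt ord' 0 ((e : N) * (E π' / π')) := by
          rw [e1]
          exact Gt.add h' (DescC_mono (DescC_div h' a0 (l2 π hπ)) (by omega))
            (DescC_mono (DescC_div h' hw0 (l3 w hw0 how)) (by omega))
        exact DescC_mono (DescC_cancel h' e0 this) (by omega)
      refine ih fun y hy => ?_
      have l5 := DescC_split h' E hπ' hπ1' l4 l3 hy
      rw [hE, mul_div_assoc] at l5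
      exact DescC_mono (DescC_cancel h' hp l5) (by omega)
  refine key (-r).toNat fun y hy => DescC_mono (DescC_split h' D' (n := r - 1) hπ' hπ1' ?_
    (fun w _ h1 => DescC_mono (hr w ((h'.mem w).2 (Or.inr h1.ge))) (by omega)) hy) (by omega)
  exact DescC_mono (DescC_div h' hπ' (hr π' ((h'.mem _).2 (Or.inr (by omega))))) (by omega)

theorem desc [FiniteDimensional F N] (O : Subalgebra ℂ F) [IsDiscreteValuationRing O]
    [IsFractionRing O F] {ord : F → ℤ} (h : IsOrd O ord) :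
    ∃ (O' : Subalgebra ℂ N) (ord' : N → ℤ) (e : ℤ), IsOrd O' ord' ∧ 0 < e ∧
      (∀ x, x ≠ 0 → ord' (algebraMap F N x) = e * ord x) ∧
      ∀ D : Derivation ℂ F F, Lg ord D → ∃ D' : Derivation ℂ N N, Lg ord' D' ∧
        ∀ x, D' (algebraMap F N x) = algebraMap F N (D x) := by
  obtain ⟨O', ord', e, b, h', he, hc, hb, hs⟩ := desc_ord (N := N) O h
  refine ⟨O', ord', e, h', he, hc, fun D hD => ?_⟩
  obtain ⟨D', hD'⟩ := desc_der (N := N) D
  exact ⟨D', desc_log h h' he hc hD hD' (desc_bdd h h' he hc b hb hs hD hD'), hD'⟩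

end

end Pool.Agent.MP_1c689d_ag.SX

end

section

set_option autoImplicit false

namespace Pool.Agent.MP_1c689d_ag.FP

noncomputable section

variable {F : Type} [Field F] [Algebra ℂ F] {N : ℕ}

theorem NoRegForm.regOn {ξ : Fin (N + 1) → F} {n : ℕ} (h : NoRegForm ξ n) :
    ∀ η, (∀ i, ξ i ≠ 0 → η ∈ regOn (chart ξ i) n) → η = 0 := by
  intro η hη
  apply Subtype.ext
  apply h
  intro i hi
  have key : ∀ ζ ∈ FP.regOn (chart ξ i) n, ∀ r ∈ chart ξ i,
      r • (ζ : ExteriorAlgebra F Ω[F⁄ℂ]) ∈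
        wedges (chart ξ i) (KaehlerDifferential.D ℂ F) n := by
    intro ζ hζ
    induction hζ using Submodule.span_induction with
    | mem x hx =>
      obtain ⟨a, rfl⟩ := hx
      intro r hr
      exact AddSubgroup.subset_closure ⟨r, hr, fun k => a k, fun k => (a k).2, by
        rw [exteriorPower.ιMulti_apply_coe]⟩
    | zero => intro r _; simp
    | add x y _ _ hx hy =>
      intro r hr
      rw [Submodule.coe_add, smul_add]
      exact add_mem (hx r hr) (hy r hr)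
    | smul a x _ hx =>
      intro r hr
      have : ((a • x : ⋀[F]^n Ω[F⁄ℂ]) : ExteriorAlgebra F Ω[F⁄ℂ]) =
          (a : F) • (x : ExteriorAlgebra F Ω[F⁄ℂ]) := rfl
      rw [this, smul_smul]
      exact hx _ (mul_mem hr a.2)
  simpa using key η (hη i hi) 1 (one_mem _)

end

end Pool.Agent.MP_1c689d_ag.FP

end

section

set_option autoImplicit false

namespace Pool.Agent.MP_1c689d_ag.SX

open Pool.Agent.MP_1c689d_ag.FP

noncomputable section

open Polynomial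

variable {F : Type} [Field F] [Algebra ℂ F] {n : ℕ} {N : Type} [Field N] [Algebra ℂ N]

theorem main_six (ξ : Fin (n + 1) → F) (hY : IsSmoothModel ξ) (hpg : NoRegForm ξ 3)
    (ι : F →ₐ[ℂ] N) (s a b φ : F) {full : Prop} {u v z c : N} {m : Fin 6 → V N}
    (H : Six full (ι s) u v z c m) (S : Finset N) (hS : IntermediateField.adjoin ℂ (S : Set N) = ⊤)
    (hjac : ∀ D : Fin 3 → Derivation ℂ N N,
      ι φ * z * jac D ![ι s, ι a, ι b] = jac D ![ι s, u, v])
    (M : IntermediateField ℂ N) (hle : ∀ x, ι x ∈ M)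
    (hmz : ∀ (Ω E : Type) [Field Ω] [Field E] [Algebra ℂ Ω] [Algebra ℂ E] [Algebra Ω E]
      [IsScalarTower ℂ Ω E] [IsAlgClosed Ω] [IsAlgClosed E] (Λ : Line Ω E),
      Algebra.trdeg ℂ Ω = 3 → Λ.MZ (IntermediateField.adjoin ℂ ({ι s, u, v, z} : Set N)) →
        Λ.MZ M) :
    ∃ (Q : MvPolynomial (Fin (n + 1)) ℂ) (d : ℕ), Q.IsHomogeneous d ∧
      MvPolynomial.aeval ξ Q ≠ 0 ∧ (Zop ξ Q).Nonempty ∧ RestrictionZero (Zop ξ Q) 2 := by
  letI : Algebra F N := ι.toRingHom.toAlgebra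
  haveI : IsScalarTower ℂ F N := IsScalarTower.of_algebraMap_eq fun x => (ι.commutes x).symm
  have hN3 : Algebra.trdeg ℂ N = 3 := trdeg_eq_three _ H.ind (by rw [range_vec3, H.alg])
  obtain ⟨D₀, hD₀⟩ := exists_dual _ H.ind (by rw [range_vec3, H.alg])
  have h1 : jac D₀ ![ι s, u, v] = 1 := by
    have e : (Matrix.of fun i j => D₀ i (![ι s, u, v] j)) = 1 := by
      ext i j
      rw [Matrix.of_apply, hD₀, Matrix.one_apply]
    rw [jac, e, Matrix.det_one]
  have h2 := hjac D₀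
  rw [h1] at h2
  have h3 : ι φ * z * jac D₀ ![ι s, ι a, ι b] ≠ 0 := h2 ▸ one_ne_zero
  have hφ : φ ≠ 0 := (map_ne_zero ι).1 (left_ne_zero_of_mul (left_ne_zero_of_mul h3))
  have hz : z ≠ 0 := right_ne_zero_of_mul (left_ne_zero_of_mul h3)
  have hi : AlgebraicIndependent ℂ ![ι s, ι a, ι b] := by
    by_contra h
    exact right_ne_zero_of_mul h3 (jac_dep _ _ h)
  have ht : acl ({ι s, ι a, ι b} : Set N) = ⊤ := by
    rw [← range_vec3]
    exact acl_top_of_indep hN3 _ hi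
  have htop : acl (Set.range ι) = ⊤ := by
    rw [eq_top_iff, ← ht]
    apply acl_mono
    rintro _ (rfl | rfl | rfl) <;> exact ⟨_, rfl⟩
  have hiF : AlgebraicIndependent ℂ ![s, a, b] := by
    apply AlgebraicIndependent.of_comp ι
    have e : (ι ∘ ![s, a, b]) = ![ι s, ι a, ι b] := by
      funext i
      fin_cases i <;> rfl
    rwa [e]
  have htF : acl (Set.range ![s, a, b]) = ⊤ := by
    rw [range_vec3]
    refine eq_top_iff.2 fun y _ => Quad_comap ι ?_
    rw [Set.image_insert_eq, Set.image_insert_eq, Set.image_singleton, ht]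
    trivial
  have hF3 : Algebra.trdeg ℂ F = 3 := trdeg_eq_three _ hiF htF
  haveI : FiniteDimensional F N := finite_of_fg S hS htop
  obtain ⟨G, P, hN, hlo⟩ := H.nrm
  obtain ⟨i, hi0⟩ := exists_ne_zero ξ hY.gen (transc_of_indep hiF).2.2
  have hP : SmallP P := by
    by_contra hhi
    have hG := hN.mem
    rw [← Set.image_singleton, ← IntermediateField.adjoin_map] at hG
    obtain ⟨g, -, hg⟩ := hG
    have hg' : ι g = G := hg
    have hg0 : g ≠ 0 := fun e => hN.ne (by rw [← hg', e, map_zero])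
    obtain ⟨bs, hbs⟩ := kd_basis _ hiF htF
    have hη := hpg.regOn ((g * φ) • exteriorPower.ιMulti F 3
      (fun k => KaehlerDifferential.D ℂ F (![s, a, b] k))) fun k hk => by
        haveI := hY.smooth k hk
        haveI := chart_frac ξ hY.gen k hk
        refine glob2 _ hF3 _ _ fun O _ _ ord h D hD => ?_
        obtain ⟨O', ord', e, h', he, hc, hd⟩ := desc (N := N) O h
        choose D' hD' hD'' using fun i => hd (D i) (hD i)
        have h4 := six_dvr h' H hN hlo hhi hD'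
        have h5 : G * jac D' ![ι s, u, v] / z = ι (g * φ * jac D ![s, a, b]) := by
          rw [← hjac D', jac_map ι D D' hD'', map_mul, map_mul, hg']
          field_simp
        rw [h5] at h4
        by_cases h0 : g * φ * jac D ![s, a, b] = 0
        · exact Or.inl h0
        rcases h4 with h4 | h4
        · exact absurd ((map_eq_zero ι).1 h4) h0
        · have h6 : ord' (ι _) = _ := hc _ h0
          rw [h6] at h4
          exact Or.inr ((mul_pos_iff_of_pos_left he).1 h4)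
    have e : (fun k => KaehlerDifferential.D ℂ F (![s, a, b] k)) = bs := funext fun k => (hbs k).symm
    rw [e] at hη
    exact (smul_ne_zero (mul_ne_zero hg0 hφ) (top_form bs).1) hη
  refine coniveau_of_mz ξ hY.gen hY.smooth hF3 i hi0 ?_
  intro Ω E _ _ _ _ _ _ _ _ Λ hΩ
  exact mz_of_le Λ ι htop M (hmz Ω E Λ hΩ (mz_six Λ hΩ H hN hP)) hle

end

end Pool.Agent.MP_1c689d_ag.SX

end

section

set_option autoImplicit false

namespace Pool.Agent.MP_1c689d_ag.SX

open Pool.Agent.MP_1c689d_ag.FP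

noncomputable section

open Polynomial

variable {Ω E : Type} [Field Ω] [Field E] [Algebra ℂ Ω] [Algebra ℂ E] [Algebra Ω E]
  [IsScalarTower ℂ Ω E] {K : Type} [Field K] [Algebra ℂ K]

theorem MzAb_map (ψ : K →ₐ[ℂ] Ω) {S : Set K} (M : IntermediateField ℂ Ω)
    (h : ∀ x ∈ S, ψ x ∈ M) {x : K} (hx : x ∈ IntermediateField.adjoin ℂ S) : ψ x ∈ M :=
  (IntermediateField.adjoin_le_iff.2 h : IntermediateField.adjoin ℂ S ≤ M.comap ψ) hx

theorem MzAb_ext (φ ψ : K →ₐ[ℂ] Ω) {S : Set K} (h : ∀ x ∈ S, φ x = ψ x) {x : K}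
    (hx : x ∈ IntermediateField.adjoin ℂ S) : φ x = ψ x := by
  induction hx using IntermediateField.adjoin_induction with
  | mem y hy => exact h y hy
  | algebraMap c => rw [φ.commutes, ψ.commutes]
  | add y z _ _ hy hz => rw [map_add, map_add, hy, hz]
  | inv y _ hy => rw [map_inv₀, map_inv₀, hy]
  | mul y z _ _ hy hz => rw [map_mul, map_mul, hy, hz]

theorem MzAb_move [IsAlgClosed Ω] [IsAlgClosed E] (Λ : Line Ω E) (h3 : Algebra.trdeg ℂ Ω = 3)
    (c : (K →ₐ[ℂ] Ω) → ℚ) (hc : Λ.Adm c) (hne : ¬ ∀ ψ, c ψ = 0) {s x₁ y₁ x₂ y₂ : K}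
    (hgen : IntermediateField.adjoin ℂ ((acl {s} : Set K) ∪ {x₁, y₁, x₂, y₂}) = ⊤)
    (e₁ : y₁ ^ 2 ∈ IntermediateField.adjoin ℂ (insert x₁ (acl {s} : Set K)))
    (e₂ : y₂ ^ 2 ∈ IntermediateField.adjoin ℂ (insert x₂ (acl {s} : Set K)))
    (φ : K →ₐ[ℂ] Ω) (htop : acl (Set.range φ) = ⊤) :
    ∃ ψ : K →ₐ[ℂ] Ω, (∀ x ∈ acl {s}, ψ x = φ x) ∧ ψ x₁ = φ x₁ ∧ ψ y₁ = -φ y₁ ∧
      ψ x₂ = φ x₂ ∧ ψ y₂ = φ y₂ ∧ c ψ = -c φ := by
  have m0 : ∀ x ∈ acl {s}, φ x ∈ acl {φ s, φ x₂} := fun x hx =>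
    acl_mono (by simp) (map_acl φ hx)
  have m1 : φ x₂ ∈ acl {φ s, φ x₂} := subset_acl _ (by simp)
  have m2 : φ y₂ ∈ acl {φ s, φ x₂} := by
    apply mem_acl_of_sq
    rw [← map_pow]
    refine MzAb_map φ _ ?_ e₂
    rintro x (rfl | hx)
    · exact m1
    · exact m0 x hx
  obtain ⟨χ, g1, g2, g3, g4⟩ := sign_move Λ h3 c hc hne φ htop (φ s) (φ x₂) (φ x₁) (φ y₁)
    (by
      refine map_mem_of_adjoin hgen φ _ ?_
      rintro x (hx | rfl | rfl | rfl | rfl) <;> apply IntermediateField.subset_adjoin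
      · exact Or.inl (m0 x hx)
      · exact Or.inr (by simp)
      · exact Or.inr (by simp)
      · exact Or.inl m1
      · exact Or.inl m2)
    (by
      rw [← map_pow]
      refine MzAb_map φ _ ?_ e₁
      rintro x (rfl | hx)
      · exact mem_adj_self
      · exact mem_adj_insert (m0 x hx))
  exact ⟨χ.comp φ, fun x hx => g1 _ (m0 x hx), g2, g3, g1 _ m1, g1 _ m2, g4⟩

/-- From the Kummer quotient to the abelian surface.  Let `K₂ = adjoin {s, u, v, w, z}`, `c`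
admissible on `K₂`, `c₁ ψ = c (ψ.comp K₂.val)` (admissible by `adm_comp`; `halg` gives the
algebraicity).  Every `φ : K₂ → Ω` extends to `ψ : K → Ω` (`exists_ext`), so we may assume that
`c₁` is not identically zero.  Two applications of `sign_move` (`w₀ = ψ s`, `w₁ = ψ x₂`,
`t = ψ x₁`, `θ = ψ y₁`, and then with the indices exchanged; `map_acl`) give `ψ''` that agrees with
`ψ` on `acl {s}`, `x₁`, `x₂`, changes the signs of `y₁, y₂`, and has `c₁ ψ'' = c₁ ψ`.  Apply `trz`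
to `c`, `φ`, `M = adjoin {ψ s, ψ u, ψ v, ψ z}` (`mz_map`) and `G = {ψ w}`: an endomorphism `χ`
fixing `M` sends `ψ w` to `± ψ w` (`hw2`), so `χ.comp φ` is `φ` or `ψ''.comp K₂.val`
(`hom_ext_adjoin`, `adjoin_top_sub`).  Compare `mz_prod` in `FP/MzA`. -/
theorem mz_ab [IsAlgClosed Ω] [IsAlgClosed E] (Λ : Line Ω E) (h3 : Algebra.trdeg ℂ Ω = 3)
    {s u v w z x₁ y₁ x₂ y₂ : K} (hind : AlgebraicIndependent ℂ ![s, u, v])
    (halg : acl {s, u, v} = ⊤)
    (hgen : IntermediateField.adjoin ℂ ((acl {s} : Set K) ∪ {x₁, y₁, x₂, y₂}) = ⊤)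
    (e₁ : y₁ ^ 2 ∈ IntermediateField.adjoin ℂ (insert x₁ (acl {s} : Set K)))
    (e₂ : y₂ ^ 2 ∈ IntermediateField.adjoin ℂ (insert x₂ (acl {s} : Set K)))
    (hu : u ∈ IntermediateField.adjoin ℂ ((acl {s} : Set K) ∪ {x₁, x₂}))
    (hv : v ∈ IntermediateField.adjoin ℂ ((acl {s} : Set K) ∪ {x₁, x₂}))
    (hw : w = y₁ + y₂) (hz : z = y₁ * y₂)
    (hw2 : w ^ 2 ∈ IntermediateField.adjoin ℂ {s, u, v, z})
    (hM : Λ.MZ (IntermediateField.adjoin ℂ {s, u, v, z})) :
    Λ.MZ (IntermediateField.adjoin ℂ {s, u, v, w, z}) := by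
  classical
  intro c hc φ
  have hm : ∀ x ∈ ({s, u, v} : Set K), x ∈ IntermediateField.adjoin ℂ {s, u, v, w, z} := by
    rintro x (rfl | rfl | rfl) <;> exact IntermediateField.subset_adjoin _ _ (by simp)
  have hι : acl (Set.range (IntermediateField.adjoin ℂ {s, u, v, w, z}).val) = ⊤ := by
    rw [eq_top_iff, ← halg]
    exact acl_mono fun x hx => ⟨⟨x, hm x hx⟩, rfl⟩
  obtain ⟨ψ, rfl⟩ := exists_ext _ hι φ
  have htop : ∀ (φ : K →ₐ[ℂ] Ω) (T : Set Ω), (∀ x ∈ ({s, u, v} : Set K), φ x ∈ T) →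
      acl T = ⊤ := by
    intro φ T hT
    have h1 := hind.map' (f := φ) φ.toRingHom.injective
    rw [eq_top_iff, ← acl_top_of_indep h3 _ h1, Set.range_comp, range_vec3]
    refine acl_mono ?_
    rintro _ ⟨x, hx, rfl⟩
    exact hT x hx
  by_contra hne
  have hc₁ := adm_comp Λ _ hι c hc
  obtain ⟨ψ₁, a1, a2, a3, a4, a5, a6⟩ := MzAb_move Λ h3 _ hc₁ (fun h => hne (h ψ)) hgen e₁ e₂ ψ
    (htop ψ _ fun x _ => ⟨x, rfl⟩)
  obtain ⟨ψ₂, b1, b2, b3, b4, b5, b6⟩ := MzAb_move Λ h3 _ hc₁ (fun h => hne (h ψ))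
    (x₁ := x₂) (y₁ := y₂) (x₂ := x₁) (y₂ := y₁) (by
      rw [← hgen]
      congr 2
      ext x
      simp only [Set.mem_insert_iff, Set.mem_singleton_iff]
      tauto) e₂ e₁ ψ₁ (htop ψ₁ _ fun x _ => ⟨x, rfl⟩)
  have hx : ∀ x ∈ IntermediateField.adjoin ℂ ((acl {s} : Set K) ∪ {x₁, x₂}), ψ₂ x = ψ x := by
    refine fun x => MzAb_ext ψ₂ ψ ?_
    rintro x (hx | rfl | rfl)
    · rw [b1 x hx, a1 x hx]
    · rw [b4, a2]
    · rw [b2, a4]
  have hs : ψ₂ s = ψ s := by rw [b1 s (subset_acl _ rfl), a1 s (subset_acl _ rfl)]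
  have hw' : ψ₂ w = -ψ w := by rw [hw, map_add, map_add, b5, b3, a3, a5, neg_add]
  have hz' : ψ₂ z = ψ z := by rw [hz, map_mul, map_mul, b5, b3, a3, a5, neg_mul_neg]
  have hS : ∀ x ∈ ({s, u, v, z} : Set K), ψ x ∈ IntermediateField.adjoin ℂ (ψ '' {s, u, v, z}) :=
    fun x hx => IntermediateField.subset_adjoin _ _ ⟨x, hx, rfl⟩
  refine hne (trz Λ c hc _ (htop ψ _ fun x hx => ⟨⟨x, hm x hx⟩, rfl⟩) _ (mz_map Λ ψ _ hM)
    (htop ψ _ ?_) {ψ w} (fun x => MzAb_map ψ _ ?_ x.2) fun χ hχ => ?_)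
  · rintro x (rfl | rfl | rfl) <;> exact hS _ (by simp)
  · rintro x (rfl | rfl | rfl | rfl | rfl) <;> apply IntermediateField.subset_adjoin
    · exact Or.inl (hS _ (by simp))
    · exact Or.inl (hS _ (by simp))
    · exact Or.inl (hS _ (by simp))
    · exact Or.inr (by simp)
    · exact Or.inl (hS _ (by simp))
  have c0 := hχ _ (hS s (by simp))
  have c1 := hχ _ (hS u (by simp))
  have c2 := hχ _ (hS v (by simp))
  have c3 := hχ _ (hS z (by simp))
  have c4 := hχ _ (MzAb_map ψ _ hS hw2)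
  rw [map_pow, map_pow, sq_eq_sq_iff_eq_or_eq_neg] at c4
  rcases c4 with c4 | c4
  · congr 1
    refine AlgHom.ext fun x => MzAb_ext (χ.comp ψ) ψ ?_ x.2
    rintro x (rfl | rfl | rfl | rfl | rfl) <;> assumption
  · rw [a6, neg_neg] at b6
    rw [← b6]
    congr 1
    refine AlgHom.ext fun x => MzAb_ext (χ.comp ψ) ψ₂ ?_ x.2
    rintro x (rfl | rfl | rfl | rfl | rfl)
    · exact c0.trans hs.symm
    · exact c1.trans (hx _ hu).symm
    · exact c2.trans (hx _ hv).symm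
    · exact c4.trans hw'.symm
    · exact c3.trans hz'.symm

end

end Pool.Agent.MP_1c689d_ag.SX

end

section

set_option autoImplicit false

namespace Pool.Agent.MP_1c689d_ag.SX

open Pool.Agent.MP_1c689d_ag.FP

noncomputable section

open Polynomial

variable {N : Type} [Field N] [Algebra ℂ N]

theorem SixOf3_bool : ∀ b₀ b₁ b₂ b₃ b₄ b₅ : Bool,
    b₀.toNat + b₁.toNat + b₂.toNat + b₃.toNat + b₄.toNat + b₅.toNat = 3 →
    ((b₁ = b₂ ∧ b₂ = b₃) ∨ (b₀ = b₄ ∧ b₄ = b₅)) →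
    ∀ i j : Fin 6, side i = side j ↔
      ![b₀, b₁, b₂, b₃, b₄, b₅] i = ![b₀, b₁, b₂, b₃, b₄, b₅] j := by
  decide

theorem SixOf3_side (σ : Equiv.Perm (Fin 6))
    (h : (side (σ 1) = side (σ 2) ∧ side (σ 2) = side (σ 3)) ∨
      (side (σ 0) = side (σ 4) ∧ side (σ 4) = side (σ 5))) (i j : Fin 6) :
    side i = side j ↔ side (σ i) = side (σ j) := by
  have hs : ∑ i, (side (σ i)).toNat = ∑ i, (side i).toNat :=
    Equiv.sum_comp σ (fun i => (side i).toNat)
  have h3 : ∑ i, (side i).toNat = 3 := by decide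
  rw [h3, Fin.sum_univ_six] at hs
  have e : ∀ k : Fin 6, ![side (σ 0), side (σ 1), side (σ 2), side (σ 3), side (σ 4),
      side (σ 5)] k = side (σ k) := by
    intro k
    fin_cases k <;> rfl
  have := SixOf3_bool _ _ _ _ _ _ hs h i j
  rwa [e, e] at this

/-- the reordering of the lines -/
def SixOf3_pi : Fin 6 → Fin 6 := ![3, 0, 1, 2, 4, 5]

theorem SixOf3_pi_inj : Function.Injective SixOf3_pi := by decide

/-- a sorted triple that is not one of the two special triples -/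
def SixOf3_ok (i j k : Fin 6) : Prop :=
  i < j ∧ j < k ∧ (i, j, k) ≠ (0, 1, 2) ∧ (i, j, k) ≠ (3, 4, 5)

instance SixOf3_dec (i j k : Fin 6) : Decidable (SixOf3_ok i j k) := by
  unfold SixOf3_ok
  infer_instance

theorem SixOf3_sort : ∀ i j k : Fin 6, i < j → j < k → (i, j, k) ≠ (1, 2, 3) →
    (i, j, k) ≠ (0, 4, 5) →
    SixOf3_ok (SixOf3_pi i) (SixOf3_pi j) (SixOf3_pi k) ∨
    SixOf3_ok (SixOf3_pi j) (SixOf3_pi k) (SixOf3_pi i) ∨
    SixOf3_ok (SixOf3_pi j) (SixOf3_pi i) (SixOf3_pi k) := by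
  decide

theorem SixOf3_H18 {R : Type} [CommRing R] (b : Fin 6 → V R)
    (hb : ∀ i j k : Fin 6, i < j → j < k → (i, j, k) ≠ (0, 1, 2) → (i, j, k) ≠ (3, 4, 5) →
      br (b i) (b j) (b k) ≠ 0) : H18 (b ∘ SixOf3_pi) := by
  intro i j k hij hjk h1 h2
  simp only [Function.comp_apply]
  rcases SixOf3_sort i j k hij hjk h1 h2 with h | h | h
  · exact hb _ _ _ h.1 h.2.1 h.2.2.1 h.2.2.2
  · rw [br_cyc]
    exact hb _ _ _ h.1 h.2.1 h.2.2.1 h.2.2.2
  · rw [br_swap, neg_ne_zero]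
    exact hb _ _ _ h.1 h.2.1 h.2.2.1 h.2.2.2

theorem SixOf3_ne {R : Type} [CommRing R] {a : Fin 6 → V R} (h : H18 a) (i : Fin 6) :
    a i ≠ ⟨0, 0, 0⟩ := by
  have hex : ∀ i : Fin 6, ∃ j k : Fin 6, i ≠ j ∧ i ≠ k ∧ j ≠ k ∧
      ¬ (side i = side j ∧ side j = side k) := by decide
  obtain ⟨j, k, h1, h2, h3, h4⟩ := hex i
  intro h0
  apply h.ne h1 h2 h3 h4
  rw [h0]
  simp [br]

theorem SixOf3_nz {T : Type} [Field T] {a : Fin 6 → V T} (h : H18 a) :
    H18 (fun i => nz (a i)) := by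
  intro i j k hij hjk h1 h2
  simp only [nz]
  rw [br_sm]
  exact mul_ne_zero (mul_ne_zero (mul_ne_zero (inv_ne_zero (lead_ne (SixOf3_ne h i)))
    (inv_ne_zero (lead_ne (SixOf3_ne h j)))) (inv_ne_zero (lead_ne (SixOf3_ne h k))))
    (h i j k hij hjk h1 h2)

theorem SixOf3_prod {T : Type} [Field T] {a : Fin 6 → V T} (h : H18 a) (p : V T) :
    prodL a p = (∏ i, lead (a i)) * prodL (fun i => nz (a i)) p := by
  rw [prodL_eq, prodL_eq, ← Finset.prod_mul_distrib]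
  refine Finset.prod_congr rfl fun i _ => ?_
  rw [← ev_sm_left, sm_nz (SixOf3_ne h i)]

theorem SixOf3_lead_mem {M : IntermediateField ℂ N} {a : V N} (ha : a.In M) : lead a ∈ M := by
  unfold lead
  split_ifs
  · exact ha.1
  · exact ha.2.1
  · exact ha.2.2

theorem SixOf3_mp {T : Type} [Field T] [Algebra ℂ T] (ψ : N →ₐ[ℂ] T) (a : Fin 6 → V N) :
    mp ψ (fun i => nz (a i)) = fun i => nz (mp ψ a i) := by
  funext i
  exact (nz_map ψ (a i)).symm

theorem SixOf3_prod_map {T : Type} [Field T] [Algebra ℂ T] (ψ : N →ₐ[ℂ] T) {a : Fin 6 → V N}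
    (h : H18 a) (p : V T) :
    prodL (mp ψ a) p = ψ (∏ i, lead (a i)) * prodL (mp ψ (fun i => nz (a i))) p := by
  rw [SixOf3_prod (H18.map ψ a h), SixOf3_mp, map_prod]
  congr 1
  exact Finset.prod_congr rfl fun i _ => lead_map ψ (a i)

theorem SixOf3_gal {s u v : N} (hind : AlgebraicIndependent ℂ ![s, u, v]) {a : Fin 6 → V N}
    (h : H18 a) (ha : ∀ i, (a i).In (acl {s}))
    (hr : prodL a ⟨u, v, 1⟩ ∈ IntermediateField.adjoin ℂ {s, u, v})
    {T : Type} [Field T] [Algebra ℂ T] (ψ ψ' : N →ₐ[ℂ] T) (hs : ψ s = ψ' s) :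
    ∃ σ : Equiv.Perm (Fin 6),
      mp ψ' (fun i => nz (a i)) = mp ψ (fun i => nz (a i)) ∘ σ := by
  have : CharZero T := cz T
  have : Infinite T := Infinite.of_injective _ (Nat.cast_injective (R := T))
  obtain ⟨σ, hσ⟩ := lin_perm (mp ψ a) (mp ψ' a) (SixOf3_ne (H18.map ψ a h))
    (SixOf3_ne (H18.map ψ' a h)) (rat_fun hind a ha hr ψ ψ' hs)
  refine ⟨σ, ?_⟩
  rw [SixOf3_mp, SixOf3_mp]
  funext i
  obtain ⟨l, hl, e⟩ := hσ i
  simp only [Function.comp_apply]
  rw [e, nz_sm hl]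

/-- A relabelling that maps vanishing brackets to vanishing brackets is allowed: if `full` fails
then one of the two special brackets vanishes, its image triple has vanishing bracket, so it lies
on one side (`H18.ne`); a permutation that maps one side onto a side preserves the partition
(finite check). -/
theorem allowed_of_zero {R : Type} [CommRing R] {m : Fin 6 → V R} (h : H18 m)
    (σ : Equiv.Perm (Fin 6))
    (hσ : ∀ i j k, br (m i) (m j) (m k) = 0 → br (m (σ i)) (m (σ j)) (m (σ k)) = 0) :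
    Allowed (br (m 1) (m 2) (m 3) ≠ 0 ∧ br (m 0) (m 4) (m 5) ≠ 0) σ := by
  by_cases hf : br (m 1) (m 2) (m 3) ≠ 0 ∧ br (m 0) (m 4) (m 5) ≠ 0
  · exact Or.inl hf
  · refine Or.inr (SixOf3_side σ ?_)
    rw [not_and_or, not_not, not_not] at hf
    rcases hf with hf | hf
    · left
      by_contra hn
      exact h.ne (σ.injective.ne (by decide)) (σ.injective.ne (by decide))
        (σ.injective.ne (by decide)) hn (hσ _ _ _ hf)
    · right
      by_contra hn
      exact h.ne (σ.injective.ne (by decide)) (σ.injective.ne (by decide))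
        (σ.injective.ne (by decide)) hn (hσ _ _ _ hf)

/-- Put `a i = ⟨ℓ (π i) 0, ℓ (π i) 1, ℓ (π i) 2⟩` with `π = ![3, 0, 1, 2, 4, 5]`; `H18 a` follows
from `H.det` (`Matrix.det_fin_three`; first extend `H.det` to unsorted triples, or check the 18
cases).  Let `m i = nz (a i)`, `c = ∏ i, lead (a i)`, and
`full = (br (m 1) (m 2) (m 3) ≠ 0 ∧ br (m 0) (m 4) (m 5) ≠ 0)`.  For `ψ s = ψ' s`, `rat_fun` and
`lin_perm` give `σ` with `mp ψ' m = mp ψ m ∘ σ` (`nz_map`, `nz_sm`), `allowed_of_zero` applies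
(`map_br`, injectivity), and `ψ c = ψ' c` (apply `rat_fun` at the point `(ψ u, ψ v)`, where
`prodL (mp ψ m)` is non-zero by `gen_of_indep`; `prodL_perm`).  So `c ∈ ℂ(s)` by `fixed_mem`. -/
theorem six_of_lines {s u v z : N} {ℓ : Fin 6 → Fin 3 → N} (H : SixLines s u v z ℓ)
    (halg : acl {s, u, v} = ⊤) : ∃ full c m, Six full s u v z c m := by
  obtain ⟨b, hb⟩ : ∃ b : Fin 6 → V N, ∀ i, b i = ⟨ℓ i 0, ℓ i 1, ℓ i 2⟩ := ⟨_, fun _ => rfl⟩
  have hbr : ∀ i j k : Fin 6, i < j → j < k → (i, j, k) ≠ (0, 1, 2) → (i, j, k) ≠ (3, 4, 5) →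
      br (b i) (b j) (b k) ≠ 0 := by
    intro i j k hij hjk h1 h2 h0
    apply H.det i j k hij hjk h1 h2
    rw [Matrix.det_fin_three, ← h0, hb, hb, hb]
    simp [br]
    ring
  obtain ⟨a, ha⟩ : ∃ a : Fin 6 → V N, a = b ∘ SixOf3_pi := ⟨_, rfl⟩
  have h18 : H18 a := ha ▸ SixOf3_H18 b hbr
  have hin : ∀ i, (a i).In (acl {s}) := by
    intro i
    rw [ha, Function.comp_apply, hb]
    exact ⟨mem_acl.2 (H.alg _ _), mem_acl.2 (H.alg _ _), mem_acl.2 (H.alg _ _)⟩
  have hz : z ^ 2 = prodL a ⟨u, v, 1⟩ := by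
    rw [ha, prodL_perm _ _ SixOf3_pi_inj, prodL_eq, H.eqn]
    refine Finset.prod_congr rfl fun i _ => ?_
    rw [hb]
    simp [ev]
  have hr : prodL a ⟨u, v, 1⟩ ∈ IntermediateField.adjoin ℂ {s, u, v} := hz ▸ H.rat
  have hm18 := SixOf3_nz h18
  have hmin : ∀ i, (nz (a i)).In (acl {s}) := fun i =>
    sm_in (inv_mem (SixOf3_lead_mem (hin i))) (hin i)
  have hgen : Gen (fun i => nz (a i)) ⟨u, v, 1⟩ :=
    gen_of_indep (acl {s}) hmin hm18 (indep_acl H.ind)
  have hP : prodL (fun i => nz (a i)) ⟨u, v, 1⟩ ≠ 0 := by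
    rw [prodL_eq]
    exact Finset.prod_ne_zero_iff.2 fun i _ => hgen.L i
  refine ⟨_, ∏ i, lead (a i), fun i => nz (a i), H.ind, halg, hmin, ?_, ?_, ⟨hm18, id⟩, ?_, ?_⟩
  · refine fixed_mem H.ind halg (prod_mem fun i _ => SixOf3_lead_mem (hin i)) ?_
    intro ψ ψ' hs
    obtain ⟨σ, hσ⟩ := SixOf3_gal H.ind h18 hin hr ψ ψ' hs
    have h1 := rat_fun H.ind a hin hr ψ ψ' hs (ψ u) (ψ v)
    rw [SixOf3_prod_map ψ h18, SixOf3_prod_map ψ' h18, hσ, prodL_perm _ _ σ.injective] at h1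
    refine mul_right_cancel₀ ?_ h1
    have h2 := map_prodL ψ (fun i => nz (a i)) ⟨u, v, 1⟩
    have h3 : (⟨u, v, 1⟩ : V N).map ψ = ⟨ψ u, ψ v, 1⟩ := by simp [V.map]
    rw [← h3, ← h2]
    exact (map_ne_zero ψ).2 hP
  · exact Finset.prod_ne_zero_iff.2 fun i _ => lead_ne (SixOf3_ne h18 i)
  · rw [hz, SixOf3_prod h18]
  · intro T _ _ ψ ψ' hs
    obtain ⟨σ, hσ⟩ := SixOf3_gal H.ind h18 hin hr ψ ψ' hs
    refine ⟨σ, allowed_of_zero hm18 σ ?_, hσ⟩
    intro i j k h0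
    have e : ∀ i, (nz (a (σ i))).map ψ = (nz (a i)).map ψ' := fun i => (congrFun hσ i).symm
    apply (map_eq_zero ψ).1
    rw [map_br, e, e, e, ← map_br, h0, map_zero]

end

end Pool.Agent.MP_1c689d_ag.SX

end

section

set_option autoImplicit false

namespace Pool.Agent.MP_1c689d_ag.SX

open Pool.Agent.MP_1c689d_ag.FP

noncomputable section

open Polynomial

/-- the data needed for `main_six` and `mz_ab` -/
structure Ab {N : Type} [Field N] [Algebra ℂ N] (s u v w z x₁ y₁ x₂ y₂ : N)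
    (ℓ : Fin 6 → Fin 3 → N) : Prop where
  six : SixLines s u v z ℓ
  alg : acl {s, u, v} = ⊤
  fg : ∃ S : Finset N, IntermediateField.adjoin ℂ (S : Set N) = ⊤
  gen : IntermediateField.adjoin ℂ ((acl {s} : Set N) ∪ {x₁, y₁, x₂, y₂}) = ⊤
  e₁ : y₁ ^ 2 ∈ IntermediateField.adjoin ℂ (insert x₁ (acl {s} : Set N))
  e₂ : y₂ ^ 2 ∈ IntermediateField.adjoin ℂ (insert x₂ (acl {s} : Set N))
  hu : u ∈ IntermediateField.adjoin ℂ ((acl {s} : Set N) ∪ {x₁, x₂})
  hv : v ∈ IntermediateField.adjoin ℂ ((acl {s} : Set N) ∪ {x₁, x₂})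
  hw : w = y₁ + y₂
  hz : z = y₁ * y₂
  hw2 : w ^ 2 ∈ IntermediateField.adjoin ℂ {s, u, v, z}

variable {L : Type} [Field L] [Algebra ℂ L]

theorem AbD_enum {N : Type} (S : Multiset N) (n : ℕ) (hn : Multiset.card S = n) :
    ∃ r : Fin n → N, (Finset.univ : Finset (Fin n)).val.map r = S := by
  induction S using Quotient.inductionOn with
  | _ l =>
    have hl : l.length = n := by simpa using hn
    subst hl
    refine ⟨l.get, ?_⟩
    rw [Fin.univ_val_map, List.ofFn_get]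
    rfl

theorem AbD_split {N : Type} [Field N] [Algebra ℂ N] [Algebra L N] [IsScalarTower ℂ L N]
    (s : L) (g : L[X]) (n : ℕ) (hn : g.natDegree = n) (h0 : g ≠ 0)
    (hc : ∀ i, g.coeff i ∈ acl {s}) (hsp : (g.map (algebraMap L N)).Splits)
    (hadj : Algebra.adjoin L (g.rootSet N) = ⊤) :
    ∃ r : Fin n → N,
      (∀ x : N, (g.map (algebraMap L N)).eval x =
        algebraMap L N g.leadingCoeff * ∏ i, (x - r i)) ∧
      (g.Separable → Function.Injective r) ∧ (∀ i, r i ∈ acl {algebraMap L N s}) ∧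
      ∀ M : IntermediateField ℂ N, (∀ x, algebraMap L N x ∈ M) → (∀ i, r i ∈ M) → M = ⊤ := by
  have hG0 : g.map (algebraMap L N) ≠ 0 := Polynomial.map_ne_zero h0
  have hcard : Multiset.card (g.map (algebraMap L N)).roots = n := by
    rw [← hsp.natDegree_eq_card_roots, Polynomial.natDegree_map, hn]
  obtain ⟨r, hr⟩ := AbD_enum _ n hcard
  have hmem : ∀ y, y ∈ (g.map (algebraMap L N)).roots ↔ ∃ i, r i = y := by
    intro y
    rw [← hr]
    simp
  refine ⟨r, ?_, ?_, ?_, ?_⟩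
  · intro x
    rw [hsp.eval_eq_prod_roots, Polynomial.leadingCoeff_map, ← hr, Multiset.map_map]
    rfl
  · intro hs
    have hnd : (g.map (algebraMap L N)).roots.Nodup := Polynomial.nodup_roots hs.map
    rw [← hr] at hnd
    intro i j hij
    exact Multiset.inj_on_of_nodup_map hnd i (Finset.mem_univ i) j (Finset.mem_univ j) hij
  · intro i
    refine mem_acl_of_root (g.map (algebraMap L N)) hG0 ?_ ?_
    · intro k
      rw [Polynomial.coeff_map]
      have := map_acl (IsScalarTower.toAlgHom ℂ L N) (hc k)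
      rw [Set.image_singleton] at this
      exact this
    · exact (Polynomial.mem_roots hG0).1 ((hmem _).2 ⟨i, rfl⟩)
  · intro M hM hrM
    refine top_unique fun x _ => ?_
    have hx : x ∈ Algebra.adjoin L (g.rootSet N) := hadj ▸ Algebra.mem_top
    induction hx using Algebra.adjoin_induction with
    | mem y hy =>
      have hy' : y ∈ (g.map (algebraMap L N)).roots := by
        rw [Polynomial.mem_roots hG0]
        have := (Polynomial.mem_rootSet.1 hy).2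
        rw [Polynomial.IsRoot.def, Polynomial.eval_map_algebraMap]
        exact this
      obtain ⟨i, rfl⟩ := (hmem y).1 hy'
      exact hrM i
    | algebraMap c => exact hM c
    | add y z _ _ hy hz => exact M.add_mem (hy trivial) (hz trivial)
    | mul y z _ _ hy hz => exact M.mul_mem (hy trivial) (hz trivial)

/-- Adjoining the roots of a polynomial whose coefficients are algebraic over `ℂ(s)`.  Take
`N = g.SplittingField`, enumerate the roots (with multiplicity) by `r`; `N` is generated over `L`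
by the roots (`Polynomial.SplittingField.adjoin_rootSet`); `mem_acl_of_root`, `map_acl`. -/
theorem exists_split (s : L) (g : L[X]) (n : ℕ) (hn : g.natDegree = n) (h0 : g ≠ 0)
    (hc : ∀ i, g.coeff i ∈ acl {s}) :
    ∃ (N : Type) (_ : Field N) (_ : Algebra ℂ N) (j : L →ₐ[ℂ] N) (r : Fin n → N),
      (∀ x : N, (g.map (j : L →+* N)).eval x = j g.leadingCoeff * ∏ i, (x - r i)) ∧
      (g.Separable → Function.Injective r) ∧ (∀ i, r i ∈ acl {j s}) ∧
      ∀ M : IntermediateField ℂ N, (∀ x, j x ∈ M) → (∀ i, r i ∈ M) → M = ⊤ := by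
  obtain ⟨r, hr⟩ := AbD_split (N := g.SplittingField) s g n hn h0 hc
    (Polynomial.SplittingField.splits g) (Polynomial.SplittingField.adjoin_rootSet g)
  exact ⟨g.SplittingField, inferInstance, inferInstance,
    IsScalarTower.toAlgHom ℂ L g.SplittingField, r, hr⟩

end

end Pool.Agent.MP_1c689d_ag.SX

end

section

set_option autoImplicit false

namespace Pool.Agent.MP_1c689d_ag.SX

open Pool.Agent.MP_1c689d_ag.FP

noncomputable section

open Polynomial

variable {L : Type} [Field L] [Algebra ℂ L]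

theorem AbJ_red (M : IntermediateField ℂ L) (g : L[X]) (hg : ∀ i, g.coeff i ∈ M) {x₁ x₂ : L}
    (hu : x₁ + x₂ ∈ M) (hv : x₁ * x₂ ∈ M) :
    ∃ α ∈ M, ∃ β ∈ M, g.eval x₁ = α * x₁ + β ∧ g.eval x₂ = α * x₂ + β := by
  have hp : ∀ n : ℕ, ∃ α ∈ M, ∃ β ∈ M, x₁ ^ n = α * x₁ + β ∧ x₂ ^ n = α * x₂ + β := fun n => by
    induction n with
    | zero => exact ⟨0, zero_mem _, 1, one_mem _, by simp, by simp⟩
    | succ n ih =>
      obtain ⟨α, hα, β, hβ, h1, h2⟩ := ih
      refine ⟨α * (x₁ + x₂) + β, add_mem (mul_mem hα hu) hβ, -(α * (x₁ * x₂)),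
        neg_mem (mul_mem hα hv), ?_, ?_⟩
      · rw [pow_succ, h1]; ring
      · rw [pow_succ, h2]; ring
  rw [eval_eq_sum_range, eval_eq_sum_range]
  induction Finset.range (g.natDegree + 1) using Finset.induction_on with
  | empty => exact ⟨0, zero_mem _, 0, zero_mem _, by simp, by simp⟩
  | insert n T hn ih =>
    obtain ⟨α, hα, β, hβ, h1, h2⟩ := ih
    obtain ⟨α', hα', β', hβ', h1', h2'⟩ := hp n
    refine ⟨g.coeff n * α' + α, add_mem (mul_mem (hg n) hα') hα, g.coeff n * β' + β,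
      add_mem (mul_mem (hg n) hβ') hβ, ?_, ?_⟩
    · rw [Finset.sum_insert hn, h1, h1']; ring
    · rw [Finset.sum_insert hn, h2, h2']; ring

/-- Reduction modulo `X² - u X + v`: there are `α, β ∈ M` with `g.eval xᵢ = α xᵢ + β` for both
roots (induction on `g`, or on monomials: `x ^ (n + 1) = x (α x + β) = (α u + β) x - α v`). -/
theorem eval_sym (M : IntermediateField ℂ L) (g : L[X]) (hg : ∀ i, g.coeff i ∈ M) {x₁ x₂ : L}
    (hu : x₁ + x₂ ∈ M) (hv : x₁ * x₂ ∈ M) :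
    g.eval x₁ + g.eval x₂ ∈ M ∧ g.eval x₁ * g.eval x₂ ∈ M := by
  obtain ⟨α, hα, β, hβ, h1, h2⟩ := AbJ_red M g hg hu hv
  constructor
  · have : g.eval x₁ + g.eval x₂ = α * (x₁ + x₂) + β + β := by rw [h1, h2]; ring
    rw [this]
    exact add_mem (add_mem (mul_mem hα hu) hβ) hβ
  · have : g.eval x₁ * g.eval x₂ = α * α * (x₁ * x₂) + α * β * (x₁ + x₂) + β * β := by
      rw [h1, h2]; ring
    rw [this]
    exact add_mem (add_mem (mul_mem (mul_mem hα hα) hv) (mul_mem (mul_mem hα hβ) hu))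
      (mul_mem hβ hβ)

theorem AbJ_eval (M : IntermediateField ℂ L) (g : L[X]) (hg : ∀ i, g.coeff i ∈ M) {x : L}
    (hx : x ∈ M) : g.eval x ∈ M := by
  rw [eval_eq_sum_range]
  exact sum_mem fun i _ => mul_mem (hg i) (pow_mem hx i)

theorem AbJ_root {S : Set L} {x y : L} (hu : x + y ∈ acl S) (hv : x * y ∈ acl S) : x ∈ acl S := by
  refine mem_acl_of_isAlgebraic
    ⟨X ^ 2 - C (⟨_, hu⟩ : acl S) * X + C (⟨_, hv⟩ : acl S), fun h0 => ?_, ?_⟩
  · have := congrArg (fun p => p.coeff 2) h0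
    simp at this
  · simp only [map_add, map_sub, map_mul, map_pow, aeval_X, aeval_C]
    change x ^ 2 - (x + y) * x + x * y = 0
    ring

theorem AbJ_core {s x₁ y₁ x₂ y₂ c : L} {g : L[X]} {r : Fin 6 → L}
    (hind : AlgebraicIndependent ℂ ![s, x₁ + x₂, x₁ * x₂])
    (hg : ∀ i, g.coeff i ∈ IntermediateField.adjoin ℂ {s}) (c0 : c ≠ 0) (hc : c ∈ acl {s})
    (hs : ∀ x, g.eval x = c * ∏ i, (x - r i)) (hr : Function.Injective r)
    (hm : ∀ i, r i ∈ acl {s}) (e₁ : y₁ ^ 2 = g.eval x₁) (e₂ : y₂ ^ 2 = g.eval x₂)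
    (gen : ∀ M : IntermediateField ℂ L, s ∈ M → x₁ ∈ M → y₁ ∈ M → x₂ ∈ M → y₂ ∈ M →
      (∀ i, r i ∈ M) → M = ⊤) :
    ∃ ℓ, Ab s (x₁ + x₂) (x₁ * x₂) (y₁ + y₂) (y₁ * y₂) x₁ y₁ x₂ y₂ ℓ := by
  classical
  obtain ⟨e, e0, em, ep⟩ : ∃ e : Fin 6 → L, (∀ i, e i ≠ 0) ∧ (∀ i, e i ∈ acl {s}) ∧
      ∏ i, e i = c ^ 2 := by
    refine ⟨fun i => if i = 0 then c ^ 2 else 1, fun i => ?_, fun i => ?_, by simp⟩
    · dsimp only
      split_ifs
      exacts [pow_ne_zero _ c0, one_ne_zero]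
    · dsimp only
      split_ifs
      exacts [pow_mem hc _, one_mem _]
  have hg' : ∀ M : IntermediateField ℂ L, s ∈ M → ∀ i, g.coeff i ∈ M := fun M h i =>
    IntermediateField.adjoin_simple_le_iff.2 h (hg i)
  have sa : s ∈ acl ({s} : Set L) := subset_acl _ rfl
  have ad : ∀ {S : Set L} {x : L}, x ∈ S → x ∈ IntermediateField.adjoin ℂ S := fun h =>
    IntermediateField.subset_adjoin ℂ _ h
  refine ⟨fun i => ![e i * -r i, e i, e i * r i ^ 2], ⟨hind, fun i j => mem_acl.1 ?_,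
    fun i j k h1 h2 _ _ => ?_, ?_, ?_⟩, ?_,
    ⟨insert s (insert x₁ (insert y₁ (insert x₂ (insert y₂ (Finset.univ.image r))))), ?_⟩, ?_, ?_,
    ?_, add_mem (ad (by simp)) (ad (by simp)), mul_mem (ad (by simp)) (ad (by simp)), rfl, rfl, ?_⟩
  · fin_cases j
    exacts [mul_mem (em i) (neg_mem (hm i)), em i, mul_mem (em i) (pow_mem (hm i) 2)]
  · have : Matrix.det (Matrix.of ![![e i * -r i, e i, e i * r i ^ 2],
        ![e j * -r j, e j, e j * r j ^ 2], ![e k * -r k, e k, e k * r k ^ 2]]) =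
        e i * e j * e k * ((r k - r j) * (r i - r j) * (r i - r k)) := by
      rw [Matrix.det_fin_three]
      simp
      ring
    rw [this]
    exact mul_ne_zero (mul_ne_zero (mul_ne_zero (e0 i) (e0 j)) (e0 k))
      (mul_ne_zero (mul_ne_zero (sub_ne_zero.2 (hr.ne h2.ne')) (sub_ne_zero.2 (hr.ne h1.ne)))
        (sub_ne_zero.2 (hr.ne (h1.trans h2).ne)))
  · have : ∀ i, e i * -r i * (x₁ + x₂) + e i * (x₁ * x₂) + e i * r i ^ 2 =
        e i * ((x₁ - r i) * (x₂ - r i)) := fun i => by ring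
    simp only [Matrix.cons_val_zero, Matrix.cons_val_one, Matrix.cons_val, this,
      Finset.prod_mul_distrib, ep]
    rw [mul_pow, e₁, e₂, hs, hs]
    ring
  · rw [mul_pow, e₁, e₂]
    exact (eval_sym _ g (hg' _ (ad (by simp))) (ad (by simp)) (ad (by simp))).2
  · have hu : x₁ + x₂ ∈ acl {s, x₁ + x₂, x₁ * x₂} := subset_acl _ (by simp)
    have hv : x₁ * x₂ ∈ acl {s, x₁ + x₂, x₁ * x₂} := subset_acl _ (by simp)
    have h0 : s ∈ acl {s, x₁ + x₂, x₁ * x₂} := subset_acl _ (by simp)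
    have h1 := AbJ_root hu hv
    have h2 : x₂ ∈ acl {s, x₁ + x₂, x₁ * x₂} :=
      AbJ_root (y := x₁) (by rwa [add_comm x₂]) (by rwa [mul_comm x₂])
    refine gen _ h0 h1 (mem_acl_of_sq ?_) h2 (mem_acl_of_sq ?_) fun i =>
      acl_mono (by simp) (hm i)
    · rw [e₁]
      exact AbJ_eval _ g (hg' _ h0) h1
    · rw [e₂]
      exact AbJ_eval _ g (hg' _ h0) h2
  · exact gen _ (ad (by simp)) (ad (by simp)) (ad (by simp)) (ad (by simp)) (ad (by simp))
      fun i => ad (by simp)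
  · exact gen _ (ad (.inl sa)) (ad (by simp)) (ad (by simp)) (ad (by simp)) (ad (by simp))
      fun i => ad (.inl (hm i))
  · rw [e₁]
    exact AbJ_eval _ g (hg' _ (ad (.inr sa))) (ad (.inl rfl))
  · rw [e₂]
    exact AbJ_eval _ g (hg' _ (ad (.inr sa))) (ad (.inl rfl))
  · have : (y₁ + y₂) ^ 2 = g.eval x₁ + g.eval x₂ + (y₁ * y₂ + y₁ * y₂) := by
      rw [← e₁, ← e₂]; ring
    rw [this]
    exact add_mem (eval_sym _ g (hg' _ (ad (by simp))) (ad (by simp)) (ad (by simp))).1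
      (add_mem (ad (by simp)) (ad (by simp)))

/-- Take `N, j, r` from `exists_split`; the lines are `(-r i, 1, r i ^ 2)`, the first one
multiplied by the square of the leading coefficient: `(x₁ - r) (x₂ - r) = v - r u + r²`.  The
determinants are Vandermonde determinants.  `x₁, x₂` are roots of `X² - u X + v`, so they lie in
`acl {s, u, v}` (`mem_acl_of_root`), and so do `y₁, y₂` (`mem_acl_of_sq`) and the `r i`.
`w² = y₁² + y₂² + 2 z`. -/
theorem ab_of_jac {s u v w z x₁ y₁ x₂ y₂ : L} {g : L[X]} (hind : AlgebraicIndependent ℂ ![s, u, v])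
    (H : JacData s u v w z x₁ y₁ x₂ y₂ g) :
    ∃ (N : Type) (_ : Field N) (_ : Algebra ℂ N) (j : L →ₐ[ℂ] N) (ℓ : Fin 6 → Fin 3 → N),
      Ab (j s) (j u) (j v) (j w) (j z) (j x₁) (j y₁) (j x₂) (j y₂) ℓ := by
  obtain ⟨hc, hd, hsep, e₁, e₂, rfl, rfl, rfl, rfl, gen⟩ := H
  have g0 : g ≠ 0 := fun h => by simp [h] at hd
  obtain ⟨N, _, _, j, r, h1, h2, h3, h4⟩ := exists_split s g 6 hd g0 fun i =>
    adjoin_le_acl _ (hc i)
  have hc' : ∀ i, j (g.coeff i) ∈ IntermediateField.adjoin ℂ {j s} := fun i =>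
    (IntermediateField.adjoin_simple_le_iff (K := (IntermediateField.adjoin ℂ {j s}).comap j)).2
      (IntermediateField.mem_adjoin_simple_self ℂ (j s)) (hc i)
  have ev : ∀ x, (g.map (j : L →+* N)).eval (j x) = j (g.eval x) := fun x =>
    eval_map_apply (j : L →+* N) x
  have hi : AlgebraicIndependent ℂ ![j s, j x₁ + j x₂, j x₁ * j x₂] := by
    have := hind.map' (f := j) j.injective
    have e : j ∘ ![s, x₁ + x₂, x₁ * x₂] = ![j s, j x₁ + j x₂, j x₁ * j x₂] := by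
      funext i
      fin_cases i <;> simp
    rwa [e] at this
  obtain ⟨ℓ, hℓ⟩ := AbJ_core (y₁ := j y₁) (y₂ := j y₂) (g := g.map (j : L →+* N)) hi
    (fun i => by rw [coeff_map]; exact hc' i)
    ((map_ne_zero j).2 (leadingCoeff_ne_zero.2 g0)) (adjoin_le_acl _ (hc' _)) h1 (h2 hsep) h3
    (by rw [ev, ← e₁, map_pow]) (by rw [ev, ← e₂, map_pow]) fun M m1 m2 m3 m4 m5 m6 =>
      h4 M (map_mem_of_adjoin gen j M (by rintro _ (rfl | rfl | rfl | rfl | rfl) <;> assumption)) m6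
  exact ⟨N, _, _, j, ℓ, by simpa only [map_add, map_mul] using hℓ⟩

end

end Pool.Agent.MP_1c689d_ag.SX

end

section

set_option autoImplicit false

namespace Pool.Agent.MP_1c689d_ag.SX

open Pool.Agent.MP_1c689d_ag.FP

noncomputable section

open Polynomial

variable {L : Type} [Field L] [Algebra ℂ L]

theorem AbW_sym {N : Type} [Field N] [Algebra ℂ N] {A B : N}
    (r : Fin 3 → N) (h : ∀ x, x ^ 3 + A * x + B = ∏ i, (x - r i)) :
    r 0 + r 1 + r 2 = 0 ∧ A = r 0 * r 1 + r 0 * r 2 + r 1 * r 2 ∧ B = -(r 0 * r 1 * r 2) := by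
  haveI := cz N
  have h0 := h 0
  have h1 := h 1
  have h2 := h (-1)
  simp only [Fin.prod_univ_three] at h0 h1 h2
  refine ⟨?_, ?_, ?_⟩
  · linear_combination (1 / 2 : N) * h1 + (1 / 2 : N) * h2 - h0
  · linear_combination (1 / 2 : N) * h1 - (1 / 2 : N) * h2
  · linear_combination h0

theorem AbW_split (s a b : L) (ha : a ∈ acl {s}) (hb : b ∈ acl {s}) :
    ∃ (N : Type) (_ : Field N) (_ : Algebra ℂ N) (j : L →ₐ[ℂ] N) (r : Fin 3 → N),
      (∀ x : N, x ^ 3 + j a * x + j b = ∏ i, (x - r i)) ∧ (∀ i, r i ∈ acl {j s}) ∧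
      ∀ M : IntermediateField ℂ N, (∀ x, j x ∈ M) → (∀ i, r i ∈ M) → M = ⊤ := by
  have hm : (X ^ 3 + C a * X + C b : L[X]).Monic := by monicity!
  have hn : (X ^ 3 + C a * X + C b : L[X]).natDegree = 3 := by compute_degree!
  obtain ⟨N, _, _, j, r, h1, -, h2, h3⟩ := exists_split s (X ^ 3 + C a * X + C b) 3 hn hm.ne_zero
    (fun i => by
      simp only [coeff_add, coeff_X_pow, coeff_C_mul, coeff_X, coeff_C]
      refine add_mem (add_mem ?_ (mul_mem ha ?_)) ?_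
      · split_ifs
        · exact one_mem _
        · exact zero_mem _
      · split_ifs
        · exact one_mem _
        · exact zero_mem _
      · split_ifs
        · exact hb
        · exact zero_mem _)
  refine ⟨N, inferInstance, inferInstance, j, r, fun x => ?_, h2, h3⟩
  have := h1 x
  rw [hm.leadingCoeff, map_one, one_mul] at this
  rw [← this]
  simp

theorem AbW_split2 (s a b a' b' : L) (ha : a ∈ acl {s}) (hb : b ∈ acl {s}) (ha' : a' ∈ acl {s})
    (hb' : b' ∈ acl {s}) :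
    ∃ (N : Type) (_ : Field N) (_ : Algebra ℂ N) (j : L →ₐ[ℂ] N) (r r' : Fin 3 → N),
      (∀ x : N, x ^ 3 + j a * x + j b = ∏ i, (x - r i)) ∧
      (∀ x : N, x ^ 3 + j a' * x + j b' = ∏ i, (x - r' i)) ∧ (∀ i, r i ∈ acl {j s}) ∧
      (∀ i, r' i ∈ acl {j s}) ∧
      ∀ M : IntermediateField ℂ N, (∀ x, j x ∈ M) → (∀ i, r i ∈ M) → (∀ i, r' i ∈ M) → M = ⊤ := by
  obtain ⟨N₁, _, _, j₁, r₁, h1, h2, h3⟩ := AbW_split s a b ha hb
  have ma : ∀ {x : L}, x ∈ acl {s} → j₁ x ∈ acl {j₁ s} := fun hx => by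
    simpa using map_acl j₁ hx
  obtain ⟨N₂, _, _, j₂, r₂, k1, k2, k3⟩ := AbW_split (j₁ s) (j₁ a') (j₁ b') (ma ha') (ma hb')
  refine ⟨N₂, inferInstance, inferInstance, j₂.comp j₁, fun i => j₂ (r₁ i), r₂, fun x => ?_,
    k1, fun i => ?_, k2, fun M m1 m2 m3 => ?_⟩
  · obtain ⟨e1, e2, e3⟩ := AbW_sym r₁ h1
    have f1 := congrArg j₂ e1
    have f2 := congrArg j₂ e2
    have f3 := congrArg j₂ e3
    simp only [map_add, map_mul, map_neg, map_zero] at f1 f2 f3
    simp only [AlgHom.comp_apply, Fin.prod_univ_three]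
    linear_combination x ^ 2 * f1 + x * f2 + f3
  · simpa using map_acl j₂ (h2 i)
  · have := h3 (M.comap j₂) m1 m2
    refine k3 M (fun x => ?_) m3
    have hx : x ∈ M.comap j₂ := this ▸ IntermediateField.mem_top
    exact hx

theorem AbW_det1 {N : Type} [Field N] [CharZero N] {δ : N} (hδ : δ ≠ 0) {a b : N} (c : N)
    (h : a ≠ b) :
    Matrix.det (Matrix.of ![![1 / 2, 1 / (2 * δ), -a], ![1 / 2, 1 / (2 * δ), -b],
      ![1 / 2, -1 / (2 * δ), -c]]) ≠ 0 := by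
  have : Matrix.det (Matrix.of ![![1 / 2, 1 / (2 * δ), -a], ![1 / 2, 1 / (2 * δ), -b],
      ![1 / 2, -1 / (2 * δ), -c]]) = (a - b) / (2 * δ) := by
    rw [Matrix.det_fin_three]
    simp
    field_simp
    ring
  rw [this]
  exact div_ne_zero (sub_ne_zero.2 h) (mul_ne_zero two_ne_zero hδ)

theorem AbW_det2 {N : Type} [Field N] [CharZero N] {δ : N} (hδ : δ ≠ 0) (a : N) {b c : N}
    (h : b ≠ c) :
    Matrix.det (Matrix.of ![![1 / 2, 1 / (2 * δ), -a], ![1 / 2, -1 / (2 * δ), -b],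
      ![1 / 2, -1 / (2 * δ), -c]]) ≠ 0 := by
  have : Matrix.det (Matrix.of ![![1 / 2, 1 / (2 * δ), -a], ![1 / 2, -1 / (2 * δ), -b],
      ![1 / 2, -1 / (2 * δ), -c]]) = (c - b) / (2 * δ) := by
    rw [Matrix.det_fin_three]
    simp
    field_simp
    ring
  rw [this]
  exact div_ne_zero (sub_ne_zero.2 h.symm) (mul_ne_zero two_ne_zero hδ)

theorem AbW_cases : ∀ i j k : Fin 6, i < j → j < k → (i, j, k) ≠ (0, 1, 2) →
    (i, j, k) ≠ (3, 4, 5) →
    (i.1 < 3 ∧ j.1 < 3 ∧ ¬ k.1 < 3) ∨ (i.1 < 3 ∧ ¬ j.1 < 3 ∧ ¬ k.1 < 3) := by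
  decide

theorem AbW_ne {N : Type} {r r' : Fin 3 → N} (ir : Function.Injective r)
    (ir' : Function.Injective r') (i j : Fin 6) (hij : i < j) (h : j.1 < 3 ∨ ¬ i.1 < 3) :
    ![r 0, r 1, r 2, r' 0, r' 1, r' 2] i ≠ ![r 0, r 1, r 2, r' 0, r' 1, r' 2] j := by
  have key : ∀ i j : Fin 6, i < j → (j.1 < 3 ∨ ¬ i.1 < 3) → (i = 0 ∧ j = 1) ∨ (i = 0 ∧ j = 2) ∨
      (i = 1 ∧ j = 2) ∨ (i = 3 ∧ j = 4) ∨ (i = 3 ∧ j = 5) ∨ (i = 4 ∧ j = 5) := by decide
  rcases key i j hij h with ⟨rfl, rfl⟩ | ⟨rfl, rfl⟩ | ⟨rfl, rfl⟩ | ⟨rfl, rfl⟩ | ⟨rfl, rfl⟩ |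
    ⟨rfl, rfl⟩
  · exact ir.ne (a₁ := 0) (a₂ := 1) (by decide)
  · exact ir.ne (a₁ := 0) (a₂ := 2) (by decide)
  · exact ir.ne (a₁ := 1) (a₂ := 2) (by decide)
  · exact ir'.ne (a₁ := 0) (a₂ := 1) (by decide)
  · exact ir'.ne (a₁ := 0) (a₂ := 2) (by decide)
  · exact ir'.ne (a₁ := 1) (a₂ := 2) (by decide)

/-- a Weierstrass cubic with non-zero discriminant has distinct roots: compare the values at
four points (or at `0, 1, -1`) to get the symmetric functions of the roots -/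
theorem cubic_inj {N : Type} [Field N] [Algebra ℂ N] {A B : N} (hd : 4 * A ^ 3 + 27 * B ^ 2 ≠ 0)
    (r : Fin 3 → N) (h : ∀ x, x ^ 3 + A * x + B = ∏ i, (x - r i)) : Function.Injective r := by
  obtain ⟨e1, e2, e3⟩ := AbW_sym r h
  have hd' : (r 0 - r 1) ^ 2 * (r 0 - r 2) ^ 2 * (r 1 - r 2) ^ 2 ≠ 0 := by
    intro h0
    apply hd
    have e4 : r 2 = -(r 0 + r 1) := by linear_combination e1
    rw [e2, e3]
    rw [e4] at h0 ⊢
    linear_combination -h0
  have h01 : r 0 ≠ r 1 := fun e => hd' (by rw [e]; ring)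
  have h02 : r 0 ≠ r 2 := fun e => hd' (by rw [e]; ring)
  have h12 : r 1 ≠ r 2 := fun e => hd' (by rw [e]; ring)
  intro i j hij
  fin_cases i <;> fin_cases j
  · rfl
  · exact absurd hij h01
  · exact absurd hij h02
  · exact absurd hij h01.symm
  · rfl
  · exact absurd hij h12
  · exact absurd hij h02.symm
  · exact absurd hij h12.symm
  · rfl

theorem AbW_core {N : Type} [Field N] [Algebra ℂ N] {s u v w z x₁ y₁ x₂ y₂ δ A A' B B' : N}
    (hind : AlgebraicIndependent ℂ ![s, u, v]) (ne : δ ≠ 0)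
    (md : δ ^ 2 ∈ IntermediateField.adjoin ℂ {s}) (mA : A ∈ IntermediateField.adjoin ℂ {s})
    (mA' : A' ∈ IntermediateField.adjoin ℂ {s}) (mB : B ∈ IntermediateField.adjoin ℂ {s})
    (mB' : B' ∈ IntermediateField.adjoin ℂ {s})
    (d₁ : 4 * (A + A' * δ) ^ 3 + 27 * (B + B' * δ) ^ 2 ≠ 0)
    (d₂ : 4 * (A - A' * δ) ^ 3 + 27 * (B - B' * δ) ^ 2 ≠ 0)
    (e₁ : y₁ ^ 2 = x₁ ^ 3 + (A + A' * δ) * x₁ + (B + B' * δ))
    (e₂ : y₂ ^ 2 = x₂ ^ 3 + (A - A' * δ) * x₂ + (B - B' * δ))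
    (hu : u = x₁ + x₂) (hv : v = δ * (x₁ - x₂)) (hw : w = y₁ + y₂) (hz : z = y₁ * y₂)
    (r r' : Fin 3 → N) (hr : ∀ x, x ^ 3 + (A + A' * δ) * x + (B + B' * δ) = ∏ i, (x - r i))
    (hr' : ∀ x, x ^ 3 + (A - A' * δ) * x + (B - B' * δ) = ∏ i, (x - r' i))
    (ar : ∀ i, r i ∈ acl {s}) (ar' : ∀ i, r' i ∈ acl {s})
    (gen : ∀ M : IntermediateField ℂ N, s ∈ M → δ ∈ M → x₁ ∈ M → y₁ ∈ M → x₂ ∈ M → y₂ ∈ M →
      (∀ i, r i ∈ M) → (∀ i, r' i ∈ M) → M = ⊤) :
    ∃ ℓ : Fin 6 → Fin 3 → N, Ab s u v w z x₁ y₁ x₂ y₂ ℓ := by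
  haveI := cz N
  have ir := cubic_inj d₁ r hr
  have ir' := cubic_inj d₂ r' hr'
  have aδ : δ ∈ acl {s} := mem_acl_of_sq (adjoin_le_acl _ md)
  have aA := adjoin_le_acl _ mA
  have aA' := adjoin_le_acl _ mA'
  have aB := adjoin_le_acl _ mB
  have aB' := adjoin_le_acl _ mB'
  have as : s ∈ acl {s} := subset_acl _ rfl
  have two : ∀ M : IntermediateField ℂ N, (2 : N) ∈ M := fun M => by
    simpa using natCast_mem M 2
  have three : ∀ M : IntermediateField ℂ N, (3 : N) ∈ M := fun M => by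
    simpa using natCast_mem M 3
  have hx₁ : 1 / 2 * u + 1 / (2 * δ) * v = x₁ := by
    rw [hu, hv]
    field_simp
    ring
  have hx₂ : 1 / 2 * u + -1 / (2 * δ) * v = x₂ := by
    rw [hu, hv]
    field_simp
    ring
  obtain ⟨α, β, mα, mβ, hy₁, hy₂⟩ : ∃ α β : N, α ∈ IntermediateField.adjoin ℂ {s, u, v} ∧
      β ∈ IntermediateField.adjoin ℂ {s, u, v} ∧ y₁ ^ 2 = α + β * δ ∧ y₂ ^ 2 = α - β * δ := by
    have le : IntermediateField.adjoin ℂ {s} ≤ IntermediateField.adjoin ℂ {s, u, v} :=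
      IntermediateField.adjoin.mono _ _ _ (by simp)
    have mu : u ∈ IntermediateField.adjoin ℂ {s, u, v} :=
      IntermediateField.subset_adjoin _ _ (by simp)
    have mv : v ∈ IntermediateField.adjoin ℂ {s, u, v} :=
      IntermediateField.subset_adjoin _ _ (by simp)
    obtain ⟨p, q, mp, mq, k₁, k₂⟩ : ∃ p q : N, p ∈ IntermediateField.adjoin ℂ {s, u, v} ∧
        q ∈ IntermediateField.adjoin ℂ {s, u, v} ∧ x₁ = p + q * δ ∧ x₂ = p - q * δ := by
      refine ⟨u / 2, v / (2 * δ ^ 2), div_mem mu (two _), div_mem mv (mul_mem (two _) (le md)),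
        ?_, ?_⟩
      · rw [hu, hv]
        field_simp
        ring
      · rw [hu, hv]
        field_simp
        ring
    refine ⟨p ^ 3 + 3 * p * q ^ 2 * δ ^ 2 + A * p + A' * q * δ ^ 2 + B,
      3 * p ^ 2 * q + q ^ 3 * δ ^ 2 + A * q + A' * p + B', ?_, ?_, ?_, ?_⟩
    · exact add_mem (add_mem (add_mem (add_mem (pow_mem mp _)
        (mul_mem (mul_mem (mul_mem (three _) mp) (pow_mem mq _)) (le md))) (mul_mem (le mA) mp))
        (mul_mem (mul_mem (le mA') mq) (le md))) (le mB)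
    · exact add_mem (add_mem (add_mem (add_mem (mul_mem (mul_mem (three _) (pow_mem mp _)) mq)
        (mul_mem (pow_mem mq _) (le md))) (mul_mem (le mA) mq)) (mul_mem (le mA') mp)) (le mB')
    · rw [e₁, k₁]
      ring
    · rw [e₂, k₂]
      ring
  have l1 : (1 / 2 : N) ∈ acl {s} := div_mem (one_mem _) (two _)
  have l2 : 1 / (2 * δ) ∈ acl {s} := div_mem (one_mem _) (mul_mem (two _) aδ)
  have l3 : -1 / (2 * δ) ∈ acl {s} := div_mem (neg_mem (one_mem _)) (mul_mem (two _) aδ)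
  refine ⟨fun i => ![1 / 2, (if i.1 < 3 then 1 else -1) / (2 * δ),
      -(![r 0, r 1, r 2, r' 0, r' 1, r' 2] i)],
    ⟨hind, fun i j => mem_acl.1 ?_, ?_, ?_, ?_⟩, ?_, ?_, ?_, ?_, ?_, ?_, ?_, hw, hz, ?_⟩
  · have m3 : ![r 0, r 1, r 2, r' 0, r' 1, r' 2] i ∈ acl {s} := by
      fin_cases i
      exacts [ar 0, ar 1, ar 2, ar' 0, ar' 1, ar' 2]
    have m2 : (if i.1 < 3 then 1 else -1) / (2 * δ) ∈ acl {s} := by
      split_ifs
      exacts [l2, l3]
    fin_cases j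
    exacts [l1, m2, neg_mem m3]
  · intro i j k hij hjk h1 h2
    rcases AbW_cases i j k hij hjk h1 h2 with ⟨a, b, c⟩ | ⟨a, b, c⟩
    · rw [if_pos a, if_pos b, if_neg c]
      exact AbW_det1 ne _ (AbW_ne ir ir' i j hij (Or.inl b))
    · rw [if_pos a, if_neg b, if_neg c]
      exact AbW_det2 ne _ (AbW_ne ir ir' j k hjk (Or.inr b))
  · have k₁ := hr x₁
    have k₂ := hr' x₂
    rw [Fin.prod_univ_three] at k₁ k₂
    rw [Fin.prod_univ_six]
    change z ^ 2 = (1 / 2 * u + 1 / (2 * δ) * v + -r 0) * (1 / 2 * u + 1 / (2 * δ) * v + -r 1) *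
      (1 / 2 * u + 1 / (2 * δ) * v + -r 2) * (1 / 2 * u + -1 / (2 * δ) * v + -r' 0) *
      (1 / 2 * u + -1 / (2 * δ) * v + -r' 1) * (1 / 2 * u + -1 / (2 * δ) * v + -r' 2)
    rw [hx₁, hx₂, hz, mul_pow, e₁, e₂, k₁, k₂]
    ring
  · have : z ^ 2 = α ^ 2 - β ^ 2 * δ ^ 2 := by
      rw [hz, mul_pow, hy₁, hy₂]
      ring
    rw [this]
    exact sub_mem (pow_mem mα _) (mul_mem (pow_mem mβ _)
      (IntermediateField.adjoin.mono _ _ _ (by simp) md))
  · have le : acl {s} ≤ acl ({s, u, v} : Set N) := acl_mono (by simp)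
    have mu : u ∈ acl ({s, u, v} : Set N) := subset_acl _ (by simp)
    have mv : v ∈ acl ({s, u, v} : Set N) := subset_acl _ (by simp)
    refine gen _ (le as) (le aδ) ?_ (mem_acl_of_sq ?_) ?_ (mem_acl_of_sq ?_)
      (fun i => le (ar i)) (fun i => le (ar' i))
    · rw [← hx₁]
      exact add_mem (mul_mem (le l1) mu) (mul_mem (le l2) mv)
    · rw [hy₁]
      exact add_mem (adjoin_le_acl _ mα) (mul_mem (adjoin_le_acl _ mβ) (le aδ))
    · rw [← hx₂]
      exact add_mem (mul_mem (le l1) mu) (mul_mem (le l3) mv)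
    · rw [hy₂]
      exact sub_mem (adjoin_le_acl _ mα) (mul_mem (adjoin_le_acl _ mβ) (le aδ))
  · have hf : (({s, δ, x₁, y₁, x₂, y₂} : Set N) ∪ Set.range r ∪ Set.range r').Finite :=
      ((Set.toFinite _).union (Set.finite_range r)).union (Set.finite_range r')
    refine ⟨hf.toFinset, ?_⟩
    rw [hf.coe_toFinset]
    refine gen _ ?_ ?_ ?_ ?_ ?_ ?_ (fun i => ?_) (fun i => ?_)
    all_goals exact IntermediateField.subset_adjoin _ _ (by simp)
  · refine gen _ ?_ ?_ ?_ ?_ ?_ ?_ (fun i => ?_) (fun i => ?_)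
    · exact IntermediateField.subset_adjoin _ _ (Or.inl as)
    · exact IntermediateField.subset_adjoin _ _ (Or.inl aδ)
    · exact IntermediateField.subset_adjoin _ _ (Or.inr (by simp))
    · exact IntermediateField.subset_adjoin _ _ (Or.inr (by simp))
    · exact IntermediateField.subset_adjoin _ _ (Or.inr (by simp))
    · exact IntermediateField.subset_adjoin _ _ (Or.inr (by simp))
    · exact IntermediateField.subset_adjoin _ _ (Or.inl (ar i))
    · exact IntermediateField.subset_adjoin _ _ (Or.inl (ar' i))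
  · have le : ∀ {x : N}, x ∈ acl {s} →
        x ∈ IntermediateField.adjoin ℂ (insert x₁ (acl {s} : Set N)) := fun hx =>
      IntermediateField.subset_adjoin _ _ (Or.inr hx)
    have m : x₁ ∈ IntermediateField.adjoin ℂ (insert x₁ (acl {s} : Set N)) :=
      IntermediateField.subset_adjoin _ _ (Or.inl rfl)
    rw [e₁]
    exact add_mem (add_mem (pow_mem m _) (mul_mem (le (add_mem aA (mul_mem aA' aδ))) m))
      (le (add_mem aB (mul_mem aB' aδ)))
  · have le : ∀ {x : N}, x ∈ acl {s} →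
        x ∈ IntermediateField.adjoin ℂ (insert x₂ (acl {s} : Set N)) := fun hx =>
      IntermediateField.subset_adjoin _ _ (Or.inr hx)
    have m : x₂ ∈ IntermediateField.adjoin ℂ (insert x₂ (acl {s} : Set N)) :=
      IntermediateField.subset_adjoin _ _ (Or.inl rfl)
    rw [e₂]
    exact add_mem (add_mem (pow_mem m _) (mul_mem (le (sub_mem aA (mul_mem aA' aδ))) m))
      (le (sub_mem aB (mul_mem aB' aδ)))
  · rw [hu]
    exact add_mem (IntermediateField.subset_adjoin _ _ (Or.inr (by simp)))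
      (IntermediateField.subset_adjoin _ _ (Or.inr (by simp)))
  · rw [hv]
    exact mul_mem (IntermediateField.subset_adjoin _ _ (Or.inl aδ))
      (sub_mem (IntermediateField.subset_adjoin _ _ (Or.inr (by simp)))
        (IntermediateField.subset_adjoin _ _ (Or.inr (by simp))))
  · have : w ^ 2 = 2 * α + 2 * z := by
      rw [hw, hz]
      linear_combination hy₁ + hy₂
    rw [this]
    exact add_mem (mul_mem (two _) (IntermediateField.adjoin.mono _ _ _
      (by intro x hx; simp only [Set.mem_insert_iff, Set.mem_singleton_iff] at hx ⊢; tauto) mα))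
      (mul_mem (two _) (IntermediateField.subset_adjoin _ _ (by simp)))

/-- Apply `exists_split` twice (first to one cubic, then to the image of the other one).  With
`x₁ = u / 2 + v / (2 δ)`, `x₂ = u / 2 - v / (2 δ)` the lines are `(1 / 2, 1 / (2 δ), - r i)` for
the roots of the first cubic (indices `0, 1, 2`) and `(1 / 2, - 1 / (2 δ), - r' i)` for the roots
of the second one (indices `3, 4, 5`); a determinant with two lines of one kind is a non-zero
multiple of a difference of roots.  With `d = δ²`, `x₁ = u / 2 + (v / (2 d)) δ`, so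
`y₁² = α + β δ`, `y₂² = α - β δ` with explicit `α, β ∈ ℂ(s, u, v)`; hence `z² = α² - β² d` and
`w² = 2 α + 2 z`.  `δ ∈ acl {s}` by `mem_acl_of_sq`. -/
theorem ab_of_weil {s u v w z x₁ y₁ x₂ y₂ δ A A' B B' : L}
    (hind : AlgebraicIndependent ℂ ![s, u, v]) (H : WeilData s u v w z x₁ y₁ x₂ y₂ δ A A' B B') :
    ∃ (N : Type) (_ : Field N) (_ : Algebra ℂ N) (j : L →ₐ[ℂ] N) (ℓ : Fin 6 → Fin 3 → N),
      Ab (j s) (j u) (j v) (j w) (j z) (j x₁) (j y₁) (j x₂) (j y₂) ℓ := by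
  have md := H.mem (δ ^ 2) (by simp)
  have mA := H.mem A (by simp)
  have mA' := H.mem A' (by simp)
  have mB := H.mem B (by simp)
  have mB' := H.mem B' (by simp)
  have aδ : δ ∈ acl {s} := mem_acl_of_sq (adjoin_le_acl _ md)
  have aA := adjoin_le_acl _ mA
  have aA' := adjoin_le_acl _ mA'
  have aB := adjoin_le_acl _ mB
  have aB' := adjoin_le_acl _ mB'
  obtain ⟨N, _, _, j, r, r', h1, h2, h3, h4, h5⟩ := AbW_split2 s (A + A' * δ) (B + B' * δ)
    (A - A' * δ) (B - B' * δ) (add_mem aA (mul_mem aA' aδ)) (add_mem aB (mul_mem aB' aδ))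
    (sub_mem aA (mul_mem aA' aδ)) (sub_mem aB (mul_mem aB' aδ))
  have mj : ∀ {x : L}, x ∈ IntermediateField.adjoin ℂ {s} →
      j x ∈ IntermediateField.adjoin ℂ {j s} := fun {x} hx => by
    have le : IntermediateField.adjoin ℂ {s} ≤ (IntermediateField.adjoin ℂ {j s}).comap j :=
      IntermediateField.adjoin_le_iff.2 (by
        rintro _ rfl
        exact IntermediateField.subset_adjoin ℂ {j _} rfl)
    exact le hx
  have hj : AlgebraicIndependent ℂ ![j s, j u, j v] := by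
    have := hind.map' (f := j) j.injective
    have e : j ∘ ![s, u, v] = ![j s, j u, j v] := by
      funext i
      fin_cases i <;> rfl
    rwa [e] at this
  have d₁ := (map_ne_zero j).2 H.d₁
  have d₂ := (map_ne_zero j).2 H.d₂
  have e₁ := congrArg j H.e₁
  have e₂ := congrArg j H.e₂
  have hu := congrArg j H.hu
  have hv := congrArg j H.hv
  have hw := congrArg j H.hw
  have hz := congrArg j H.hz
  have md' := mj md
  simp only [map_add, map_sub, map_mul, map_pow, map_ofNat] at d₁ d₂ e₁ e₂ hu hv hw hz md' h1 h2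
  obtain ⟨ℓ, hℓ⟩ := AbW_core hj ((map_ne_zero j).2 H.ne) md' (mj mA) (mj mA') (mj mB) (mj mB')
    d₁ d₂ e₁ e₂ hu hv hw hz r r' h1 h2 h3 h4 (fun M m1 m2 m3 m4 m5 m6 m7 m8 =>
      h5 M (map_mem_of_adjoin H.gen j M (by
        intro x hx
        simp only [Set.mem_insert_iff, Set.mem_singleton_iff] at hx
        rcases hx with rfl | rfl | rfl | rfl | rfl | rfl <;> assumption)) m7 m8)
  exact ⟨N, inferInstance, inferInstance, j, ℓ, hℓ⟩

end

end Pool.Agent.MP_1c689d_ag.SX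

end

section

set_option autoImplicit false

namespace Pool.Agent.MP_1c689d_ag.SX

open Pool.Agent.MP_1c689d_ag.FP

noncomputable section

open Polynomial

variable {L N : Type} [Field L] [Algebra ℂ L] [Field N] [Algebra ℂ N]

/-- the determinant of three vectors, as an alternating map over a smaller ring -/
def Pair_det (L N : Type) [CommRing L] [CommRing N] [Algebra L N] :
    (Fin 3 → N) [⋀^Fin 3]→ₗ[L] N where
  toMultilinearMap :=
    (Matrix.detRowAlternating (n := Fin 3) (R := N)).toMultilinearMap.restrictScalars L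
  map_eq_zero_of_eq' := fun v i j h hij =>
    (Matrix.detRowAlternating (n := Fin 3) (R := N)).map_eq_zero_of_eq v h hij

theorem Pair_det_apply (L N : Type) [CommRing L] [CommRing N] [Algebra L N]
    (v : Fin 3 → Fin 3 → N) : Pair_det L N v = Matrix.det (Matrix.of v) := rfl

theorem Pair_lift {L N M : Type} [Field L] [CommRing N] [Algebra L N] [AddCommGroup M]
    [Module L M] (ℓ : M →ₗ[L] (Fin 3 → N)) :
    ∃ T : ExteriorAlgebra L M →ₗ[L] N, ∀ (d : L → M) (a b c : L),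
      T (wedge3 d a b c) = Matrix.det (Matrix.of ![ℓ (d a), ℓ (d b), ℓ (d c)]) := by
  classical
  let f : ∀ i, M [⋀^Fin i]→ₗ[L] N :=
    Pi.single (M := fun i => M [⋀^Fin i]→ₗ[L] N) 3 ((Pair_det L N).compLinearMap ℓ)
  refine ⟨ExteriorAlgebra.liftAlternating f, fun d a b c => ?_⟩
  have h1 : wedge3 d a b c = ExteriorAlgebra.ιMulti L 3 ![d a, d b, d c] := by
    rw [ExteriorAlgebra.ιMulti_apply]
    simp [wedge3, List.ofFn_succ, mul_assoc]
  rw [h1, ExteriorAlgebra.liftAlternating_apply_ιMulti]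
  have h2 : f 3 = (Pair_det L N).compLinearMap ℓ := by simp [f]
  rw [h2, AlternatingMap.compLinearMap_apply, Pair_det_apply]
  congr 2
  funext i
  fin_cases i <;> rfl

/-- Make `N` an `L`-algebra through `j`.  Each `D i ∘ j` is a derivation `L → N`
(`Derivation.compAlgebraMap`), hence gives an `L`-linear map `ℓ i : Ω[L⁄ℂ] → N`
(`Derivation.liftKaehlerDifferential`).  The map `ω ↦ det (ℓ i (ω k))` is an alternating
`L`-trilinear map to `N`; extend it to the exterior algebra (`ExteriorAlgebra.liftAlternating`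
with `Pi.single 3`, `liftAlternating_apply_ιMulti`, and `wedge3 = ιMulti` by `ιMulti_apply`) and
apply it to the hypothesis.  Alternatively map everything to `ExteriorAlgebra N (Fin 3 → N)`. -/
theorem pair (j : L →ₐ[ℂ] N) {s φ a b u v z : L} (h : SameForm s φ a b u v z)
    (D : Fin 3 → Derivation ℂ N N) :
    j φ * j z * jac D ![j s, j a, j b] = jac D ![j s, j u, j v] := by
  letI : Algebra L N := j.toRingHom.toAlgebra
  have hj : ∀ x : L, algebraMap L N x = j x := fun _ => rfl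
  haveI : IsScalarTower ℂ L N := IsScalarTower.of_algebraMap_eq fun c => by
    rw [hj]; exact (j.commutes c).symm
  let ℓ : Ω[L⁄ℂ] →ₗ[L] (Fin 3 → N) :=
    LinearMap.pi fun i => ((D i).compAlgebraMap L).liftKaehlerDifferential
  have hℓ : ∀ x i, ℓ (KaehlerDifferential.D ℂ L x) i = D i (j x) := fun x i => by
    simp only [ℓ, LinearMap.pi_apply, Derivation.liftKaehlerDifferential_comp_D]
    rfl
  obtain ⟨T, hT⟩ := Pair_lift ℓ
  have key : ∀ x y w : L, T (wedge3 (KaehlerDifferential.D ℂ L) x y w) =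
      jac D ![j x, j y, j w] := fun x y w => by
    rw [hT, jac, ← Matrix.det_transpose]
    congr 1
    ext i k
    fin_cases k <;> simp [hℓ]
  have h2 := congrArg T h
  rw [map_smul, key, key, Algebra.smul_def, hj, map_mul] at h2
  exact h2

end

end Pool.Agent.MP_1c689d_ag.SX

end

section

set_option autoImplicit false

namespace Pool.Agent.MP_1c689d_ag.SX

open Pool.Agent.MP_1c689d_ag.FP

noncomputable section

open Polynomial

variable {F : Type} [Field F] [Algebra ℂ F] {n : ℕ} {L : Type} [Field L] [Algebra ℂ L]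

theorem final_six (ξ : Fin (n + 1) → F) (hY : IsSmoothModel ξ) (hpg : NoRegForm ξ 3)
    (ι : F →ₐ[ℂ] L) (s a b φ : F) (u v z : L) (ℓ : Fin 6 → Fin 3 → L)
    (H : SixLines (ι s) u v z ℓ)
    (hgen : IntermediateField.adjoin ℂ ({ι s, u, v, z} ∪ Set.range (Function.uncurry ℓ)) = ⊤)
    (hle : ∀ x, ι x ∈ IntermediateField.adjoin ℂ {ι s, u, v, z})
    (hform : SameForm (ι s) (ι φ) (ι a) (ι b) u v z) :
    ∃ (Q : MvPolynomial (Fin (n + 1)) ℂ) (d : ℕ), Q.IsHomogeneous d ∧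
      MvPolynomial.aeval ξ Q ≠ 0 ∧ (Zop ξ Q).Nonempty ∧ RestrictionZero (Zop ξ Q) 2 := by
  classical
  have halg : acl ({ι s, u, v} : Set L) = ⊤ := by
    rw [eq_top_iff, ← hgen, IntermediateField.adjoin_le_iff]
    rintro _ ((rfl | rfl | rfl | rfl) | ⟨p, rfl⟩)
    · exact subset_acl _ (by simp)
    · exact subset_acl _ (by simp)
    · exact subset_acl _ (by simp)
    · exact mem_acl_of_sq (adjoin_le_acl _ H.rat)
    · exact acl_mono (by simp) (mem_acl.2 (H.alg p.1 p.2))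
  obtain ⟨full, c, m, H6⟩ := six_of_lines H halg
  refine main_six ξ hY hpg ι s a b φ H6
    ({ι s, u, v, z} ∪ Finset.univ.image (Function.uncurry ℓ)) (by
      rw [← hgen, Finset.coe_union, Finset.coe_image, Finset.coe_univ, Set.image_univ]
      simp only [Finset.coe_insert, Finset.coe_singleton])
    (fun D => pair (AlgHom.id ℂ L) hform D) _ hle ?_
  intro Ω E _ _ _ _ _ _ _ _ Λ _ h
  exact h

theorem final_ab (ξ : Fin (n + 1) → F) (hY : IsSmoothModel ξ) (hpg : NoRegForm ξ 3)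
    (ι : F →ₐ[ℂ] L) (s a b φ : F) (u v w z : L) (H : PPAbelian (ι s) u v w z)
    (hle : ∀ x, ι x ∈ IntermediateField.adjoin ℂ {ι s, u, v, w, z})
    (hform : SameForm (ι s) (ι φ) (ι a) (ι b) u v z) :
    ∃ (Q : MvPolynomial (Fin (n + 1)) ℂ) (d : ℕ), Q.IsHomogeneous d ∧
      MvPolynomial.aeval ξ Q ≠ 0 ∧ (Zop ξ Q).Nonempty ∧ RestrictionZero (Zop ξ Q) 2 := by
  obtain ⟨hind, x₁, y₁, x₂, y₂, H⟩ := H
  obtain ⟨N, _, _, j, ℓ, A⟩ : ∃ (N : Type) (_ : Field N) (_ : Algebra ℂ N) (j : L →ₐ[ℂ] N)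
      (ℓ : Fin 6 → Fin 3 → N),
      Ab (j (ι s)) (j u) (j v) (j w) (j z) (j x₁) (j y₁) (j x₂) (j y₂) ℓ := by
    rcases H with ⟨g, H⟩ | ⟨δ, A, A', B, B', H⟩
    · exact ab_of_jac hind H
    · exact ab_of_weil hind H
  obtain ⟨full, c, m, H6⟩ := six_of_lines A.six A.alg
  obtain ⟨S, hS⟩ := A.fg
  refine main_six ξ hY hpg (j.comp ι) s a b φ H6 S hS (fun D => pair j hform D)
    (IntermediateField.adjoin ℂ {j (ι s), j u, j v, j w, j z}) (fun x => ?_) ?_
  · have h1 : IntermediateField.adjoin ℂ {ι s, u, v, w, z} ≤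
        (IntermediateField.adjoin ℂ {j (ι s), j u, j v, j w, j z}).comap j := by
      rw [IntermediateField.adjoin_le_iff]
      rintro _ (rfl | rfl | rfl | rfl | rfl) <;>
        exact IntermediateField.subset_adjoin ℂ _ (by simp)
    exact h1 (hle x)
  · intro Ω E _ _ _ _ _ _ _ _ Λ h3 h
    exact mz_ab Λ h3 A.six.ind A.alg A.gen A.e₁ A.e₂ A.hu A.hv A.hw A.hz A.hw2 h

end

end Pool.Agent.MP_1c689d_ag.SX

end
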