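import Pool.Agent.MP_1c689d_ag.K0.ADefs

set_option linter.all false


section

/-! Basic facts on graded free modules and on the dualising module. -/

set_option autoImplicit false

open MvPolynomial

namespace Pool.Agent.MP_1c689d_ag.K0

noncomputable section

theorem mem_hz_nat {k i : ℕ} {f : P k} : f ∈ hz k (i : ℤ) ↔ f.IsHomogeneous i := by
  simp [hz]

theorem hz_neg {k : ℕ} {j : ℤ} (h : j < 0) : hz k j = ⊥ := by
  simp [hz, not_le.2 h]

theorem AFB_cases {k : ℕ} {j : ℤ} {f : P k} (hf : f ∈ hz k j) :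
    f = 0 ∨ ∃ n : ℕ, j = n ∧ f.IsHomogeneous n := by
  rcases lt_or_ge j 0 with h | h
  · rw [hz_neg h] at hf
    exact Or.inl hf
  · obtain ⟨n, rfl⟩ := Int.eq_ofNat_of_zero_le h
    exact Or.inr ⟨n, rfl, mem_hz_nat.1 hf⟩

theorem hz_mul {k : ℕ} {i j : ℤ} {f g : P k} (hf : f ∈ hz k i) (hg : g ∈ hz k j) :
    f * g ∈ hz k (i + j) := by
  rcases AFB_cases hf with rfl | ⟨a, rfl, ha⟩
  · rw [zero_mul]; exact zero_mem _
  rcases AFB_cases hg with rfl | ⟨b, rfl, hb⟩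
  · rw [mul_zero]; exact zero_mem _
  rw [← Nat.cast_add]
  exact mem_hz_nat.2 (ha.mul hb)

theorem hz_rename {k m : ℕ} (y : Fin k → Fin m) {i : ℤ} {f : P k} (hf : f ∈ hz k i) :
    rename y f ∈ hz m i := by
  rcases AFB_cases hf with rfl | ⟨a, rfl, ha⟩
  · rw [map_zero]; exact zero_mem _
  exact mem_hz_nat.2 ha.rename_isHomogeneous

theorem hz_eval_smul {k : ℕ} {i : ℤ} {f : P k} (hf : f ∈ hz k i) (v : Fin k → ℂ) (t : ℂ) :
    eval (t • v) f = t ^ i * eval v f := by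
  rcases AFB_cases hf with rfl | ⟨a, rfl, ha⟩
  · simp
  rw [eval_eq', eval_eq', Finset.mul_sum]
  refine Finset.sum_congr rfl fun d hd => ?_
  have h1 : ∑ i, d i = a := by
    rw [← Finsupp.degree_eq_sum]
    by_contra h
    exact (mem_support_iff.1 hd) (ha.coeff_eq_zero h)
  simp only [Pi.smul_apply, smul_eq_mul, mul_pow, Finset.prod_mul_distrib,
    Finset.prod_pow_eq_pow_sum, h1, zpow_natCast]
  ring

instance hz_fin (k : ℕ) (j : ℤ) : FiniteDimensional ℂ (hz k j) := by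
  refine Module.Finite.iff_fg.2 ?_
  unfold hz
  split_ifs
  · exact homogeneousSubmodule_fg _ _ _
  · exact Submodule.fg_bot

theorem finrank_hz (k i : ℕ) : Module.finrank ℂ (hz (k + 1) (i : ℤ)) = (i + k).choose k := by
  classical
  have e : hz (k + 1) (i : ℤ) =
      restrictSupport ℂ (↑(Finset.finsuppAntidiag (Finset.univ : Finset (Fin (k + 1))) i) :
        Set (Fin (k + 1) →₀ ℕ)) := by
    have h1 : hz (k + 1) (i : ℤ) = homogeneousSubmodule (Fin (k + 1)) ℂ i := by simp [hz]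
    rw [h1, homogeneousSubmodule_eq_finsupp_supported, restrictSupport]
    congr 1
    ext d
    simp [Finsupp.degree_eq_sum]
  rw [e, Module.finrank_eq_card_basis (basisRestrictSupport ℂ _)]
  simp only [Finset.coe_sort_coe, Fintype.card_coe]
  rw [Finset.card_finsuppAntidiag_nat_eq_choose]
  simp only [Finset.card_univ, Fintype.card_fin]
  rw [show k + 1 + i - 1 = i + k by omega]
  exact Nat.choose_symm_add

/-- The homogeneous component of integer degree. -/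
def AFB_hc (k : ℕ) (j : ℤ) : P k →ₗ[ℂ] P k :=
  if 0 ≤ j then homogeneousComponent j.toNat else 0

theorem AFB_hc_nat {k : ℕ} (n : ℕ) (f : P k) : AFB_hc k n f = homogeneousComponent n f := by
  simp [AFB_hc]

theorem AFB_hc_neg {k : ℕ} {j : ℤ} (h : j < 0) (f : P k) : AFB_hc k j f = 0 := by
  simp [AFB_hc, not_le.2 h]

theorem AFB_hc_mem {k : ℕ} (j : ℤ) (f : P k) : AFB_hc k j f ∈ hz k j := by
  rcases lt_or_ge j 0 with h | h
  · rw [AFB_hc_neg h]; exact zero_mem _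
  · obtain ⟨n, rfl⟩ := Int.eq_ofNat_of_zero_le h
    rw [AFB_hc_nat]
    exact mem_hz_nat.2 (homogeneousComponent_isHomogeneous n f)

theorem AFB_hc_self {k : ℕ} {j : ℤ} {f : P k} (hf : f ∈ hz k j) : AFB_hc k j f = f := by
  rcases AFB_cases hf with rfl | ⟨a, rfl, ha⟩
  · exact map_zero _
  · rw [AFB_hc_nat, homogeneousComponent_eq_self ha]

theorem AFB_hc_ne {k : ℕ} {i j : ℤ} (hij : i ≠ j) {f : P k} (hf : f ∈ hz k j) :
    AFB_hc k i f = 0 := by
  rcases AFB_cases hf with rfl | ⟨a, rfl, ha⟩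
  · exact map_zero _
  rcases lt_or_ge i 0 with h | h
  · exact AFB_hc_neg h _
  · obtain ⟨n, rfl⟩ := Int.eq_ofNat_of_zero_le h
    rw [AFB_hc_nat, homogeneousComponent_of_mem ha, if_neg fun e => hij (by rw [e])]

theorem AFB_hc_big {k : ℕ} (f : P k) (d j : ℤ)
    (h : j ∉ (Finset.range (f.totalDegree + 1)).image fun n : ℕ => (n : ℤ) + d) :
    AFB_hc k (j - d) f = 0 := by
  rcases lt_or_ge (j - d) 0 with h1 | h1
  · exact AFB_hc_neg h1 _
  · obtain ⟨n, hn⟩ := Int.eq_ofNat_of_zero_le h1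
    rw [hn, AFB_hc_nat]
    refine homogeneousComponent_eq_zero _ _ ?_
    by_contra h2
    exact h (Finset.mem_image.2 ⟨n, Finset.mem_range.2 (by omega), by omega⟩)

theorem AFB_hc_sum {k : ℕ} (f : P k) (d : ℤ) {s : Finset ℤ}
    (hs : ((Finset.range (f.totalDegree + 1)).image fun n : ℕ => (n : ℤ) + d) ⊆ s) :
    ∑ j ∈ s, AFB_hc k (j - d) f = f := by
  rw [← Finset.sum_subset hs fun j _ h => AFB_hc_big f d j h,
    Finset.sum_image fun a _ b _ h => by simpa using h]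
  simp only [add_sub_cancel_right, AFB_hc_nat]
  exact sum_homogeneousComponent f

theorem AFB_ind {k : ℕ} {p : P k → Prop} (h0 : p 0) (ha : ∀ f g, p f → p g → p (f + g))
    (hh : ∀ (n : ℕ) f, f.IsHomogeneous n → p f) (f : P k) : p f := by
  rw [← sum_homogeneousComponent f]
  exact Finset.sum_induction _ p ha h0 fun n _ => hh n _ (homogeneousComponent_isHomogeneous n f)

section

variable {m k : ℕ} {yi : Fin k → Fin m} {N : Type} [AddCommGroup N] [Module ℂ N]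
  [Module (P m) N] [IsScalarTower ℂ (P m) N]

theorem AFB_smul_nat (b : FB yi N) (n : ℕ) : ∀ {h : P m}, h.IsHomogeneous n →
    ∀ {j : ℤ} {v : N}, v ∈ b.gr j → h • v ∈ b.gr (n + j) := by
  induction n with
  | zero =>
    intro h hh j v hv
    rw [totalDegree_eq_zero_iff_eq_C.1 ((totalDegree_zero_iff_isHomogeneous _).2 hh),
      ← MvPolynomial.algebraMap_eq, algebraMap_smul]
    simpa using Submodule.smul_mem _ _ hv
  | succ n ih =>
    intro h hh j v hv
    have h1 : ((n + 1 : ℕ) • h) • v ∈ b.gr ((n + 1 : ℕ) + j) := by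
      rw [← hh.sum_X_mul_pderiv, Finset.sum_smul]
      refine Submodule.sum_mem _ fun l _ => ?_
      rw [mul_smul]
      have h2 := b.co_X l _ _ (ih (hh.pderiv (i := l)) hv)
      intro i
      rw [show ((n + 1 : ℕ) : ℤ) + j - b.dg i = n + j + 1 - b.dg i by push_cast; ring]
      exact h2 i
    have h2 : h • v = ((n + 1 : ℕ) : ℂ)⁻¹ • (((n + 1 : ℕ) • h) • v) := by
      rw [smul_assoc, ← Nat.cast_smul_eq_nsmul ℂ, smul_smul,
        inv_mul_cancel₀ (Nat.cast_ne_zero.2 (Nat.succ_ne_zero n)), one_smul]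
    rw [h2]
    exact Submodule.smul_mem _ _ h1

theorem FB.smul_mem (b : FB yi N) {i j : ℤ} {h : P m} (hh : h ∈ hz m i) {v : N}
    (hv : v ∈ b.gr j) : h • v ∈ b.gr (i + j) := by
  rcases AFB_cases hh with rfl | ⟨a, rfl, ha⟩
  · rw [zero_smul]; exact zero_mem _
  · exact AFB_smul_nat b a ha hv

/-- The coordinates on a homogeneous part. -/
def AFB_grEquiv (b : FB yi N) (j : ℤ) : b.gr j ≃ₗ[ℂ] (∀ i, hz k (j - b.dg i)) where
  toFun v i := ⟨b.co v.1 i, v.2 i⟩
  invFun w := ⟨b.co.symm fun i => (w i).1, fun i => by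
    rw [LinearEquiv.apply_symm_apply]; exact (w i).2⟩
  map_add' v w := by ext i; simp
  map_smul' t v := by ext i; simp
  left_inv v := by ext; simp
  right_inv w := by ext i; simp

instance FB.gr_fin (b : FB yi N) (j : ℤ) : FiniteDimensional ℂ (b.gr j) := by
  exact (AFB_grEquiv b j).symm.finiteDimensional

theorem FB.finrank_gr (b : FB yi N) (j : ℤ) :
    Module.finrank ℂ (b.gr j) = ∑ i, Module.finrank ℂ (hz k (j - b.dg i)) := by
  rw [(AFB_grEquiv b j).finrank_eq, Module.finrank_pi_fintype]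

/-- The homogeneous components of an element. -/
def AFB_cmp (b : FB yi N) (j : ℤ) : N →ₗ[ℂ] N :=
  b.co.symm.toLinearMap ∘ₗ
    (LinearMap.pi fun i => AFB_hc k (j - b.dg i) ∘ₗ LinearMap.proj i) ∘ₗ b.co.toLinearMap

omit [IsScalarTower ℂ (P m) N] in
theorem AFB_co_cmp (b : FB yi N) (j : ℤ) (v : N) (i : b.ι) :
    b.co (AFB_cmp b j v) i = AFB_hc k (j - b.dg i) (b.co v i) := by
  simp [AFB_cmp]

omit [IsScalarTower ℂ (P m) N] in
theorem AFB_cmp_mem (b : FB yi N) (j : ℤ) (v : N) : AFB_cmp b j v ∈ b.gr j := fun i => by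
  rw [AFB_co_cmp]; exact AFB_hc_mem _ _

omit [IsScalarTower ℂ (P m) N] in
theorem AFB_cmp_self (b : FB yi N) {j : ℤ} {v : N} (hv : v ∈ b.gr j) : AFB_cmp b j v = v :=
  b.co.injective (funext fun i => by rw [AFB_co_cmp, AFB_hc_self (hv i)])

omit [IsScalarTower ℂ (P m) N] in
theorem AFB_cmp_ne (b : FB yi N) {i j : ℤ} (hij : i ≠ j) {v : N} (hv : v ∈ b.gr j) :
    AFB_cmp b i v = 0 :=
  b.co.injective (funext fun l => by
    rw [AFB_co_cmp, AFB_hc_ne (fun e => hij (by omega)) (hv l), map_zero, Pi.zero_apply])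

omit [IsScalarTower ℂ (P m) N] in
theorem AFB_cmp_sum (b : FB yi N) (v : N) :
    ∃ s : Finset ℤ, (∀ j ∉ s, AFB_cmp b j v = 0) ∧ v = ∑ j ∈ s, AFB_cmp b j v := by
  classical
  refine ⟨Finset.univ.biUnion fun i => (Finset.range ((b.co v i).totalDegree + 1)).image
    fun n : ℕ => (n : ℤ) + b.dg i, fun j hj => b.co.injective (funext fun i => ?_),
    b.co.injective (funext fun i => ?_)⟩
  · rw [AFB_co_cmp, map_zero, Pi.zero_apply]
    exact AFB_hc_big _ _ _ fun h => hj (Finset.mem_biUnion.2 ⟨i, Finset.mem_univ _, h⟩)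
  · rw [map_sum, Finset.sum_apply]
    simp only [AFB_co_cmp]
    exact (AFB_hc_sum _ _ (Finset.subset_biUnion_of_mem (fun i =>
      (Finset.range ((b.co v i).totalDegree + 1)).image fun n : ℕ => (n : ℤ) + b.dg i)
      (Finset.mem_univ i))).symm

omit [IsScalarTower ℂ (P m) N] in
theorem AFB_indN (b : FB yi N) {p : N → Prop} (h0 : p 0) (ha : ∀ v w, p v → p w → p (v + w))
    (hh : ∀ j, ∀ v ∈ b.gr j, p v) (v : N) : p v := by
  obtain ⟨s, -, hs⟩ := AFB_cmp_sum b v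
  rw [hs]
  exact Finset.sum_induction _ p ha h0 fun j _ => hh j _ (AFB_cmp_mem b j v)

theorem AFB_cmp_smul (b : FB yi N) {i : ℤ} (j : ℤ) {h : P m} (hh : h ∈ hz m i) (v : N) :
    AFB_cmp b (i + j) (h • v) = h • AFB_cmp b j v := by
  refine AFB_indN b (p := fun v => AFB_cmp b (i + j) (h • v) = h • AFB_cmp b j v) (by simp)
    (fun v w hv hw => by rw [smul_add, map_add, map_add, smul_add, hv, hw]) (fun l v hv => ?_) v
  by_cases e : j = l
  · subst e
    rw [AFB_cmp_self b hv, AFB_cmp_self b (b.smul_mem hh hv)]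
  · rw [AFB_cmp_ne b e hv, AFB_cmp_ne b (fun e' => e (by omega)) (b.smul_mem hh hv), smul_zero]

/-- The projections onto the homogeneous parts. -/
theorem FB.exists_cmp (b : FB yi N) : ∃ cmp : ℤ → N →ₗ[ℂ] N,
    (∀ j v, cmp j v ∈ b.gr j) ∧ (∀ j, ∀ v ∈ b.gr j, cmp j v = v) ∧
    (∀ i j, i ≠ j → ∀ v ∈ b.gr j, cmp i v = 0) ∧
    (∀ v, ∃ s : Finset ℤ, (∀ j ∉ s, cmp j v = 0) ∧ v = ∑ j ∈ s, cmp j v) ∧
    ∀ i j, ∀ h ∈ hz m i, ∀ v, cmp (i + j) (h • v) = h • cmp j v := by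
  exact ⟨AFB_cmp b, AFB_cmp_mem b, fun _ _ hv => AFB_cmp_self b hv,
    fun _ _ hij _ hv => AFB_cmp_ne b hij hv, AFB_cmp_sum b,
    fun _ j _ hh v => AFB_cmp_smul b j hh v⟩

omit [IsScalarTower ℂ (P m) N] in
theorem AFB_co_sum (b : FB yi N) [DecidableEq b.ι] (a : b.ι → P k) :
    b.co (∑ i, (rename yi (a i) : P m) • b.co.symm (Pi.single i 1)) = a := by
  funext l
  rw [map_sum, Finset.sum_apply]
  simp only [b.co_y, LinearEquiv.apply_symm_apply]
  rw [Finset.sum_eq_single l (fun i _ h => by rw [Pi.single_eq_of_ne h.symm, mul_zero])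
    (fun h => absurd (Finset.mem_univ l) h), Pi.single_eq_same, mul_one]

omit [IsScalarTower ℂ (P m) N] in
theorem AFB_basis (b : FB yi N) [DecidableEq b.ι] (v : N) :
    ∑ i, (rename yi (b.co v i) : P m) • b.co.symm (Pi.single i 1) = v :=
  b.co.injective (AFB_co_sum b _)

theorem FB.mem_smul_iff (b : FB yi N) (q : Ideal (P k)) (v : N) :
    v ∈ (q.map (rename yi : P k →ₐ[ℂ] P m)) • (⊤ : Submodule (P m) N) ↔ ∀ i, b.co v i ∈ q := by
  classical
  constructor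
  · intro hv
    refine Submodule.smul_induction_on (p := fun v => ∀ i, b.co v i ∈ q) hv
      (fun a ha w hw => ?_) fun v w hv hw i => ?_
    · clear hw
      induction ha using Submodule.span_induction generalizing w with
      | mem a ha =>
        obtain ⟨c, hc, rfl⟩ := ha
        intro i
        rw [b.co_y]
        exact q.mul_mem_right _ hc
      | zero => intro i; rw [zero_smul, map_zero]; exact q.zero_mem
      | add a c _ _ ha hc => intro i; rw [add_smul, map_add]; exact q.add_mem (ha w i) (hc w i)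
      | smul a c _ hc => rw [smul_eq_mul, mul_comm, mul_smul]; exact hc _
    · rw [map_add]; exact q.add_mem (hv i) (hw i)
  · intro hv
    rw [← AFB_basis b v]
    exact Submodule.sum_mem _ fun i _ =>
      Submodule.smul_mem_smul (Ideal.mem_map_of_mem _ (hv i)) Submodule.mem_top

/-- Transport along an isomorphism. -/
theorem FB.exists_equiv (b : FB yi N) {N' : Type} [AddCommGroup N'] [Module ℂ N']
    [Module (P m) N'] [IsScalarTower ℂ (P m) N'] (e : N ≃ₗ[P m] N') :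
    ∃ (b' : FB yi N') (u : b'.ι ≃ b.ι), (∀ i, b'.dg i = b.dg (u i)) ∧
      ∀ j v, e v ∈ b'.gr j ↔ v ∈ b.gr j := by
  refine ⟨{ ι := b.ι
            dg := b.dg
            co := (e.symm.restrictScalars ℂ) ≪≫ₗ b.co
            co_y := fun a v i => ?_
            co_X := fun l j v hv i => ?_ }, Equiv.refl _, fun _ => rfl, fun j v => ?_⟩
  · change b.co (e.symm _) i = a * b.co (e.symm v) i
    rw [map_smul, b.co_y]
  · change b.co (e.symm _) i ∈ _
    rw [map_smul]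
    exact b.co_X l j _ hv i
  · change (∀ i, b.co (e.symm (e v)) i ∈ _) ↔ _
    rw [e.symm_apply_apply]
    rfl

end

namespace PD

variable {m k c r : ℕ} (Q : PD m k c r)

theorem AFB_mk_smul (f g : P m) :
    Ideal.Quotient.mk Q.I (f * g) = f • Ideal.Quotient.mk Q.I g := rfl

theorem AFB_mk_mem {j : ℤ} {f : P m} (hf : f ∈ hz m j) :
    Ideal.Quotient.mk Q.I f ∈ Q.b.gr j := by
  have h := Q.b.smul_mem hf Q.one
  rw [add_zero] at h
  rw [← mul_one f, AFB_mk_smul]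
  exact h

theorem AFB_cmp_mk (j : ℤ) (f : P m) :
    AFB_cmp Q.b j (Ideal.Quotient.mk Q.I f) = Ideal.Quotient.mk Q.I (AFB_hc m j f) := by
  refine AFB_ind (p := fun f => AFB_cmp Q.b j (Ideal.Quotient.mk Q.I f) =
    Ideal.Quotient.mk Q.I (AFB_hc m j f)) (by simp)
    (fun f g hf hg => by rw [map_add, map_add, map_add, map_add, hf, hg]) (fun n f hf => ?_) f
  have hf' := mem_hz_nat.2 hf
  by_cases e : j = n
  · rw [e, AFB_cmp_self _ (Q.AFB_mk_mem hf'), AFB_hc_self hf']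
  · rw [AFB_cmp_ne _ e (Q.AFB_mk_mem hf'), AFB_hc_ne e hf', map_zero]

theorem mem_gr_iff (j : ℤ) (v : P m ⧸ Q.I) :
    v ∈ Q.b.gr j ↔ ∃ f ∈ hz m j, Ideal.Quotient.mk Q.I f = v := by
  constructor
  · intro hv
    obtain ⟨f, rfl⟩ := Ideal.Quotient.mk_surjective v
    exact ⟨_, AFB_hc_mem j f, by rw [← AFB_cmp_mk, AFB_cmp_self _ hv]⟩
  · rintro ⟨f, hf, rfl⟩
    exact Q.AFB_mk_mem hf

theorem exists_e (i : Q.b.ι) : ∃ f ∈ hz m (Q.b.dg i),
    Ideal.Quotient.mk Q.I f = Q.b.co.symm (by classical exact Pi.single i 1) := by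
  classical
  refine (Q.mem_gr_iff _ _).1 fun l => ?_
  rw [LinearEquiv.apply_symm_apply]
  by_cases h : l = i
  · subst h
    rw [Pi.single_eq_same, sub_self]
    exact mem_hz_nat.2 (isHomogeneous_one _ _)
  · rw [Pi.single_eq_of_ne h]
    exact zero_mem _

/-- Homogeneous lifts of the basis. -/
def e (i : Q.b.ι) : P m := (Q.exists_e i).choose

theorem e_mem (i : Q.b.ι) : Q.e i ∈ hz m (Q.b.dg i) := (Q.exists_e i).choose_spec.1

/-- The coordinates of a polynomial in the basis. -/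
def cd (f : P m) (i : Q.b.ι) : P k := Q.b.co (Ideal.Quotient.mk Q.I f) i

theorem AFB_co_mk_sum (a : Q.b.ι → P k) :
    Q.b.co (Ideal.Quotient.mk Q.I (∑ i, rename Q.yi (a i) * Q.e i)) = a := by
  classical
  have h (i : Q.b.ι) : Ideal.Quotient.mk Q.I (Q.e i) = Q.b.co.symm (Pi.single i 1) :=
    (Q.exists_e i).choose_spec.2
  rw [map_sum (Ideal.Quotient.mk Q.I)]
  simp only [AFB_mk_smul, h]
  exact AFB_co_sum Q.b a

theorem sub_sum_mem (f : P m) : f - ∑ i, rename Q.yi (Q.cd f i) * Q.e i ∈ Q.I := by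
  exact Ideal.Quotient.eq.1 (Q.b.co.injective (Q.AFB_co_mk_sum _).symm)

theorem cd_of_sum (a : Q.b.ι → P k) (f : P m) (h : f - ∑ i, rename Q.yi (a i) * Q.e i ∈ Q.I) :
    Q.cd f = a := by
  change Q.b.co (Ideal.Quotient.mk Q.I f) = a
  rw [Ideal.Quotient.eq.2 h, AFB_co_mk_sum]

theorem cd_mem {j : ℤ} {f : P m} (hf : f ∈ hz m j) (i : Q.b.ι) :
    Q.cd f i ∈ hz k (j - Q.b.dg i) := by
  exact Q.AFB_mk_mem hf i

theorem val_eq_sum (t : Q.Om) (f : P m) : Q.val t f = ∑ i, Q.cd f i * Q.val t (Q.e i) := by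
  have h := Q.val_I t (Q.sub_sum_mem f)
  rw [map_sub, sub_eq_zero, map_sum] at h
  simpa only [Q.val_y] using h

theorem AFB_cd_e [DecidableEq Q.b.ι] (i : Q.b.ι) : Q.cd (Q.e i) = Pi.single i 1 := by
  refine Q.cd_of_sum _ _ ?_
  rw [Finset.sum_eq_single i (fun l _ h => by rw [Pi.single_eq_of_ne h, map_zero, zero_mul])
    (fun h => absurd (Finset.mem_univ i) h), Pi.single_eq_same, map_one, one_mul, sub_self]
  exact zero_mem _

theorem exists_om (a : Q.b.ι → P k) : ∃ t : Q.Om, ∀ i, Q.val t (Q.e i) = a i := by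
  classical
  let L : P m →ₗ[ℂ] P k := ∑ i, LinearMap.mulRight ℂ (a i) ∘ₗ LinearMap.proj i ∘ₗ
    Q.b.co.toLinearMap ∘ₗ (Ideal.Quotient.mkₐ ℂ Q.I).toLinearMap
  have hL (f : P m) : L f = ∑ i, Q.cd f i * a i := by
    simp only [L, LinearMap.sum_apply]
    rfl
  refine ⟨(⟨L, fun f hf => ?_, fun x f => ?_⟩ : ↥Q.OmS), fun i => ?_⟩
  · rw [hL]
    refine Finset.sum_eq_zero fun i _ => ?_
    rw [cd, Ideal.Quotient.eq_zero_iff_mem.2 hf, map_zero, Pi.zero_apply, zero_mul]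
  · rw [hL, hL, Finset.mul_sum]
    refine Finset.sum_congr rfl fun i _ => ?_
    rw [cd, AFB_mk_smul, Q.b.co_y, mul_assoc, cd]
  · change L (Q.e i) = a i
    rw [hL, AFB_cd_e, Finset.sum_eq_single i (fun l _ h => by rw [Pi.single_eq_of_ne h, zero_mul])
      (fun h => absurd (Finset.mem_univ i) h), Pi.single_eq_same, one_mul]

theorem AFB_val_mem {i j : ℤ} {t : Q.Om} (ht : t ∈ Q.og j) {f : P m} (hf : f ∈ hz m i) :
    Q.val t f ∈ hz k (i + j - k) := by
  rcases AFB_cases hf with rfl | ⟨a, rfl, ha⟩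
  · rw [map_zero]; exact zero_mem _
  · exact ht a f ha

theorem mem_og_iff (j : ℤ) (t : Q.Om) :
    t ∈ Q.og j ↔ ∀ i, Q.val t (Q.e i) ∈ hz k (j - (k - Q.b.dg i)) := by
  constructor
  · intro ht i
    rw [show j - (k - Q.b.dg i) = Q.b.dg i + j - k by ring]
    exact Q.AFB_val_mem ht (Q.e_mem i)
  · intro ht n f hf
    rw [val_eq_sum]
    refine Submodule.sum_mem _ fun i _ => ?_
    rw [show (n : ℤ) + j - k = (n - Q.b.dg i) + (j - (k - Q.b.dg i)) by ring]
    exact hz_mul (Q.cd_mem (mem_hz_nat.2 hf) i) (ht i)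

theorem AFB_og_smul {i j : ℤ} {h : P m} (hh : h ∈ hz m i) {t : Q.Om} (ht : t ∈ Q.og j) :
    h • t ∈ Q.og (i + j) := by
  intro n f hf
  rw [val_smul, show (n : ℤ) + (i + j) - k = (i + n) + j - k by ring]
  exact Q.AFB_val_mem ht (hz_mul hh (mem_hz_nat.2 hf))

/-- The values on the basis. -/
def AFB_oco : Q.Om →ₗ[ℂ] (Q.b.ι → P k) where
  toFun t i := Q.val t (Q.e i)
  map_add' _ _ := rfl
  map_smul' _ _ := rfl

theorem AFB_oco_bij : Function.Bijective Q.AFB_oco := by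
  refine ⟨fun s t h => Q.ext' fun f => ?_, fun a => ?_⟩
  · rw [val_eq_sum, val_eq_sum]
    exact Finset.sum_congr rfl fun i _ => congrArg _ (congrFun h i)
  · obtain ⟨t, ht⟩ := Q.exists_om a
    exact ⟨t, funext ht⟩

/-- The dualising module is graded free. -/
theorem exists_ob : ∃ (b' : FB Q.yi Q.Om) (u : b'.ι ≃ Q.b.ι),
    (∀ i, b'.dg i = k - Q.b.dg (u i)) ∧ (∀ t i, b'.co t i = Q.val t (Q.e (u i))) ∧
    ∀ j, b'.gr j = Q.og j := by
  refine ⟨{ ι := Q.b.ι
            dg := fun i => k - Q.b.dg i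
            co := LinearEquiv.ofBijective Q.AFB_oco Q.AFB_oco_bij
            co_y := fun a v i => ?_
            co_X := fun l j v hv i => ?_ }, Equiv.refl _, fun _ => rfl, fun _ _ => rfl,
    fun j => Submodule.ext fun t => (Q.mem_og_iff j t).symm⟩
  · change Q.val (rename Q.yi a • v) (Q.e i) = a * Q.val v (Q.e i)
    rw [val_smul, val_y]
  · have h := Q.AFB_og_smul (mem_hz_nat.2 (isHomogeneous_X ℂ l)) ((Q.mem_og_iff j v).2 hv)
    rw [Nat.cast_one, add_comm] at h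
    exact (Q.mem_og_iff _ _).1 h i

instance og_fin (j : ℤ) : FiniteDimensional ℂ (Q.og j) := by
  obtain ⟨b, -, -, -, h⟩ := Q.exists_ob
  rw [← h]
  infer_instance

theorem finrank_og (j : ℤ) :
    Module.finrank ℂ (Q.og j) = ∑ i, Module.finrank ℂ (hz k (j - (k - Q.b.dg i))) := by
  obtain ⟨b, u, h1, -, h⟩ := Q.exists_ob
  rw [← h, b.finrank_gr]
  exact Fintype.sum_equiv u _ _ fun i => by rw [h1]

theorem og_smul {i j : ℤ} {h : P m} (hh : h ∈ hz m i) {t : Q.Om} (ht : t ∈ Q.og j) :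
    h • t ∈ Q.og (i + j) := by
  exact Q.AFB_og_smul hh ht

theorem I_smul {h : P m} (hh : h ∈ Q.I) (t : Q.Om) : h • t = 0 := by
  refine Q.ext' fun f => ?_
  rw [val_smul, Q.val_I t (Q.I.mul_mem_right f hh)]
  rfl

theorem AFB_eval_of_mem {v : Fin m → ℂ} (hv : Q.OnC v) {f : P m} (hf : f ∈ Q.I) :
    eval v f = 0 := by
  have h : Q.I ≤ RingHom.ker (eval v : P m →+* ℂ) := by
    refine Ideal.span_le.2 ?_
    rintro _ ⟨j, rfl⟩
    exact hv.2 j
  exact h hf

/-- A point of the punctured cone has a non-zero `y` coordinate (the `x` are integral over the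
`y`, with homogeneous equations). -/
theorem y_ne {v : Fin m → ℂ} (hv : Q.OnC v) : (fun i => v (Q.yi i)) ≠ 0 := by
  intro h0
  obtain ⟨l, hl⟩ := Function.ne_iff.1 hv.1
  obtain ⟨n, hn⟩ : ∃ n : ℕ, ∀ i, Q.b.dg i < n := by
    obtain ⟨M, hM⟩ := (Set.finite_range Q.b.dg).bddAbove
    exact ⟨M.toNat + 1, fun i => by have := hM (Set.mem_range_self i); omega⟩
  have h1 := Q.AFB_eval_of_mem hv (Q.sub_sum_mem (X l ^ n))
  rw [map_sub, map_sum, Finset.sum_eq_zero, sub_zero, map_pow, eval_X] at h1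
  · exact hl (pow_eq_zero_iff (n := n) (by rintro rfl; simp at h1) |>.1 h1)
  · intro i _
    have h2 := hz_eval_smul (Q.cd_mem (mem_hz_nat.2 (isHomogeneous_X_pow l n)) i) 0 0
    rw [zero_zpow _ (by have := hn i; omega), zero_mul, smul_zero] at h2
    rw [map_mul, eval_rename, show v ∘ Q.yi = 0 from h0, h2, zero_mul]

theorem eval_of_mem {v : Fin m → ℂ} (hv : Q.OnC v) {f : P m} (hf : f ∈ Q.I) : eval v f = 0 := by
  exact Q.AFB_eval_of_mem hv hf

theorem jd_mem (A : Fin c → Fin r) (w : Fin k → Fin m → P m) (s : Fin k → ℕ)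
    (hw : ∀ i l, (w i l).IsHomogeneous (s i)) :
    (Q.jd A w).IsHomogeneous (∑ a, (Q.dF (A a) - 1) + ∑ i, s i) := by
  rw [jd, ← Matrix.det_transpose, Matrix.det_apply]
  refine IsHomogeneous.sum _ _ _ fun σ _ => ?_
  have h : (∏ i, (Matrix.of fun i j : Fin c ⊕ Fin k =>
      Sum.elim (fun a => gd (Q.F (A a))) w i (Q.eqv j)).transpose (σ i) i).IsHomogeneous
      (∑ i : Fin c ⊕ Fin k, Sum.elim (fun a => Q.dF (A a) - 1) s i) := by
    refine IsHomogeneous.prod _ _ _ fun i _ => ?_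
    rcases i with a | i
    · exact (Q.Fh (A a)).pderiv
    · exact hw i _
  rw [Fintype.sum_sum_type] at h
  rcases Int.units_eq_one_or (Equiv.Perm.sign σ) with e | e
  · rw [e, one_smul]; exact h
  · rw [e, Units.neg_smul, one_smul]; exact h.neg

end PD

end

end Pool.Agent.MP_1c689d_ag.K0

end

section

/-! The fibres of the projection of the cone. -/

set_option autoImplicit false

open Complex Filter Topology Set MeasureTheory MvPolynomial

namespace Pool.Agent.MP_1c689d_ag.K0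

noncomputable section

variable {m k c r : ℕ} (Q : PD m k c r)

/-- The matrix of the multiplication by `f`. -/
def PD.pqM (f : P m) : Matrix Q.b.ι Q.b.ι (P k) := Matrix.of fun i j => Q.cd (f * Q.e j) i

/-- The fibre of the affine cone. -/
def PD.Fib (y : Fin k → ℂ) : Set (Fin m → ℂ) :=
  {v | (∀ j, eval v (Q.F j) = 0) ∧ (fun i => v (Q.yi i)) = y}

/-- The coordinates as an additive map. -/
def cdA_pqFib (i : Q.b.ι) : P m →+ P k where
  toFun f := Q.cd f i
  map_zero' := by simp only [PD.cd, map_zero, Pi.zero_apply]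
  map_add' f g := by simp only [PD.cd, map_add, Pi.add_apply]

theorem cd_y_pqFib (a : P k) (f : P m) (i : Q.b.ι) :
    Q.cd (rename Q.yi a * f) i = a * Q.cd f i := by
  rw [PD.cd, Q.AFB_mk_smul, Q.b.co_y, PD.cd]

theorem cd_I_pqFib {f : P m} (hf : f ∈ Q.I) (i : Q.b.ι) : Q.cd f i = 0 := by
  rw [PD.cd, Ideal.Quotient.eq_zero_iff_mem.2 hf, map_zero, Pi.zero_apply]

theorem cd_mul_pqFib (f g : P m) (i : Q.b.ι) :
    Q.cd (f * g) i = ∑ l, Q.cd (f * Q.e l) i * Q.cd g l := by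
  have h : cdA_pqFib Q i _ = 0 := cd_I_pqFib Q (Q.I.mul_mem_left f (Q.sub_sum_mem g)) i
  rw [mul_sub, map_sub, sub_eq_zero, Finset.mul_sum, map_sum] at h
  refine h.trans (Finset.sum_congr rfl fun l _ => ?_)
  rw [mul_left_comm, mul_comm (Q.cd (f * Q.e l) i)]
  exact cd_y_pqFib Q _ _ i

/-- The regular representation. -/
def mu_pqFib [DecidableEq Q.b.ι] : P m →+* Matrix Q.b.ι Q.b.ι (P k) where
  toFun := Q.pqM
  map_one' := Matrix.ext fun i j => by
    rw [PD.pqM, Matrix.of_apply, one_mul, Q.AFB_cd_e, Matrix.one_apply, Pi.single_apply]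
  map_mul' f g := Matrix.ext fun i j => by
    rw [PD.pqM, Matrix.of_apply, mul_assoc, cd_mul_pqFib, Matrix.mul_apply]
    rfl
  map_zero' := Matrix.ext fun i j => by
    rw [PD.pqM, Matrix.of_apply, zero_mul]
    exact cd_I_pqFib Q Q.I.zero_mem i
  map_add' f g := Matrix.ext fun i j => by
    rw [PD.pqM, Matrix.of_apply, add_mul]
    exact map_add (cdA_pqFib Q i) _ _

theorem mu_y_pqFib [DecidableEq Q.b.ι] (y : Fin k → ℂ) (a : P k) :
    (eval y).mapMatrix (mu_pqFib Q (rename Q.yi a)) = Matrix.scalar _ (eval y a) := by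
  refine Matrix.ext fun i j => ?_
  change eval y (Q.cd (rename Q.yi a * Q.e j) i) = _
  rw [cd_y_pqFib, Q.AFB_cd_e, Matrix.scalar_apply, Matrix.diagonal_apply, Pi.single_apply]
  split_ifs <;> simp

theorem ev_pqFib {y : Fin k → ℂ} {v : Fin m → ℂ} (hv : v ∈ Q.Fib y) (f : P m) :
    eval v f = ∑ i, eval v (Q.e i) * eval y (Q.cd f i) := by
  have h : Q.I ≤ RingHom.ker (eval v : P m →+* ℂ) := by
    refine Ideal.span_le.2 ?_
    rintro _ ⟨j, rfl⟩
    exact hv.1 j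
  have h1 : eval v _ = 0 := h (Q.sub_sum_mem f)
  rw [map_sub, sub_eq_zero, map_sum] at h1
  refine h1.trans (Finset.sum_congr rfl fun i _ => ?_)
  rw [map_mul, eval_rename, mul_comm, ← hv.2]
  rfl

theorem prod_pqFib {ε : ℝ} (hε : 0 ≤ ε) (s : Multiset ℂ) (h : ∀ t ∈ s, ε ≤ ‖t‖) :
    ε ^ s.card ≤ ‖s.prod‖ := by
  induction s using Multiset.induction_on with
  | empty => simp
  | cons a s ih =>
    rw [Multiset.card_cons, Multiset.prod_cons, norm_mul, pow_succ']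
    exact mul_le_mul (h a (Multiset.mem_cons_self _ _))
      (ih fun t ht => h t (Multiset.mem_cons_of_mem ht)) (pow_nonneg hε _) (norm_nonneg _)

theorem PD.pq_det_iff [DecidableEq Q.b.ι] (f : P m) (y : Fin k → ℂ) :
    eval y (Q.pqM f).det = 0 ↔ ∃ v ∈ Q.Fib y, eval v f = 0 := by
  rw [RingHom.map_det]
  constructor
  · intro h
    let μ := (eval y).mapMatrix.comp (mu_pqFib Q)
    have h1 : RingHom.ker μ ⊔ Ideal.span {f} ≠ ⊤ := fun h1 => by
      obtain ⟨a, ha, b, hb, h2⟩ := Submodule.mem_sup.1 ((Ideal.eq_top_iff_one _).1 h1)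
      obtain ⟨g, rfl⟩ := Ideal.mem_span_singleton'.1 hb
      have h3 := congrArg (fun x => (μ x).det) h2
      simp only [map_add, map_mul, map_one, RingHom.mem_ker.1 ha, zero_add, Matrix.det_mul,
        Matrix.det_one] at h3
      exact zero_ne_one (((congrArg _ h).trans (mul_zero _)).symm.trans h3)
    obtain ⟨M, hM, h2⟩ := Ideal.exists_le_maximal _ h1
    obtain ⟨v, rfl⟩ := isMaximal_iff_eq_vanishingIdeal_singleton.1 hM
    have h3 : ∀ g ∈ RingHom.ker μ ⊔ Ideal.span {f}, eval v g = 0 := fun g hg =>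
      (mem_vanishingIdeal_singleton_iff v g).1 (h2 hg)
    refine ⟨v, ⟨fun j => h3 _ (Ideal.mem_sup_left (Matrix.ext fun a b => ?_)),
      funext fun l => ?_⟩, h3 f (Ideal.mem_sup_right (Ideal.mem_span_singleton_self f))⟩
    · change eval y (Q.cd (Q.F j * Q.e b) a) = 0
      rw [cd_I_pqFib Q (Q.I.mul_mem_right _ (Ideal.subset_span ⟨j, rfl⟩)), map_zero]
    · have h4 := h3 (rename Q.yi (X l - C (y l)))
        (Ideal.mem_sup_left ((mu_y_pqFib Q y _).trans (by simp)))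
      simpa [sub_eq_zero] using h4
  · rintro ⟨v, hv, h⟩
    refine Matrix.exists_vecMul_eq_zero_iff.1 ⟨fun i => eval v (Q.e i), fun h0 => ?_,
      funext fun j => ?_⟩
    · have h1 := ev_pqFib Q hv 1
      simp [congrFun h0] at h1
    · have h1 := ev_pqFib Q hv (f * Q.e j)
      rw [map_mul, h, zero_mul] at h1
      exact h1.symm

theorem PD.pq_small [DecidableEq Q.b.ι] (f : P m) (y : Fin k → ℂ) {ε : ℝ} (hε : 0 < ε)
    (h : ‖eval y (Q.pqM f).det‖ < ε ^ Fintype.card Q.b.ι) : ∃ w ∈ Q.Fib y, ‖eval w f‖ < ε := by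
  by_contra h0
  refine h.not_ge ?_
  rw [RingHom.map_det, Matrix.det_eq_prod_roots_charpoly, ← Matrix.charpoly_natDegree_eq_dim
    ((eval y).mapMatrix (Q.pqM f)), (IsAlgClosed.splits _).natDegree_eq_card_roots]
  refine prod_pqFib hε.le _ fun t ht => ?_
  have h1 := Polynomial.isRoot_of_mem_roots ht
  rw [Polynomial.IsRoot.def, Matrix.eval_charpoly, ← eval_C (f := y) t, ← mu_y_pqFib] at h1
  obtain ⟨w, hw, h2⟩ := (Q.pq_det_iff (rename Q.yi (C t) - f) y).1 (by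
    rw [RingHom.map_det, ← h1, ← map_sub]
    exact congrArg (fun x => ((eval y).mapMatrix x).det) (map_sub (mu_pqFib Q) _ _))
  rw [map_sub, rename_C, eval_C, sub_eq_zero] at h2
  exact not_lt.1 fun h3 => h0 ⟨w, hw, h2 ▸ h3⟩

theorem PD.pq_encard (y : Fin k → ℂ) : (Q.Fib y).encard ≤ Fintype.card Q.b.ι := by
  have h1 : LinearIndependent ℂ fun v : Q.Fib y => fun f : P m => eval v.1 f :=
    (linearIndependent_monoidHom (P m) ℂ).comp (fun v : Q.Fib y => (eval v.1 : P m →+* ℂ))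
      fun v w h => Subtype.ext (funext fun l => by simpa using DFunLike.congr_fun h (X l))
  let T : (Q.b.ι → ℂ) →ₗ[ℂ] P m → ℂ := LinearMap.pi fun f =>
    ∑ i, eval y (Q.cd f i) • LinearMap.proj i
  have h4 : (fun v : Q.Fib y => fun f : P m => eval v.1 f) =
      T ∘ fun (v : Q.Fib y) i => eval v.1 (Q.e i) := by
    funext v f
    rw [ev_pqFib Q v.2 f]
    simp [T, mul_comm]
  have h2 := LinearIndependent.of_comp T (h4 ▸ h1)
  have h3 := LinearIndepOn.encard_le_toENat_rank (s := Q.Fib y)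
    (v := fun v i => eval v (Q.e i)) h2
  simpa using h3

theorem PD.pq_exists_pt (h : Nonempty Q.b.ι) {y : Fin k → ℂ} (hy : y ≠ 0) :
    ∃ v, Q.OnC v ∧ (fun i => v (Q.yi i)) = y := by
  classical
  obtain ⟨v, hv, -⟩ := (Q.pq_det_iff 0 y).1 (by
    rw [show Q.pqM 0 = 0 from map_zero (mu_pqFib Q), Matrix.det_zero, map_zero])
  refine ⟨v, ⟨fun h0 => hy ?_, hv.1⟩, hv.2⟩
  rw [← hv.2, h0]
  rfl

theorem PD.pq_card_fib (y : Fin k → ℂ) :
    {v | Q.OnC v ∧ (fun i => v (Q.yi i)) = y}.encard ≤ Fintype.card Q.b.ι := by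
  refine le_trans (encard_le_encard fun v hv => ?_) (Q.pq_encard y)
  exact ⟨hv.1.2, hv.2⟩

end

end Pool.Agent.MP_1c689d_ag.K0

end

section

/-! The projection of the cone is open. -/

set_option autoImplicit false

open Complex Filter Topology Set MeasureTheory MvPolynomial

namespace Pool.Agent.MP_1c689d_ag.K0

noncomputable section

variable {m k c r : ℕ} (Q : PD m k c r)

theorem closed_pqOpn : IsClosed {v : Fin m → ℂ | ∀ j, eval v (Q.F j) = 0} := by
  simp only [ofPred_forall]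
  exact isClosed_iInter fun j => isClosed_eq (MvPolynomial.continuous_eval _) continuous_const

theorem cont_pqOpn : Continuous fun (v : Fin m → ℂ) (i : Fin k) => v (Q.yi i) := by
  fun_prop

theorem PD.pq_proper : ∃ b : ℝ, 0 < b ∧ ∀ y, ∀ v ∈ Q.Fib y, b * ‖v‖ ≤ ‖y‖ := by
  have hK : IsCompact (Metric.sphere (0 : Fin m → ℂ) 1 ∩ {v | ∀ j, eval v (Q.F j) = 0}) :=
    (isCompact_sphere _ _).inter_right (closed_pqOpn Q)
  obtain ⟨b, hb, h⟩ := hK.exists_forall_le' (f := fun v => ‖fun i => v (Q.yi i)‖) (a := 0)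
    (cont_pqOpn Q).norm.continuousOn (by
      rintro v ⟨hv, hF⟩
      refine norm_pos_iff.2 (Q.y_ne ⟨?_, hF⟩)
      rintro rfl
      simp at hv)
  refine ⟨b, hb, fun y v hv => ?_⟩
  rcases eq_or_ne v 0 with rfl | h0
  · simp
  have hn : 0 < ‖v‖ := norm_pos_iff.2 h0
  have hnc : ‖((‖v‖ : ℂ))⁻¹‖ = ‖v‖⁻¹ := by simp
  have h1 := h (((‖v‖ : ℂ))⁻¹ • v) ⟨by
    rw [mem_sphere_zero_iff_norm, norm_smul, hnc, inv_mul_cancel₀ hn.ne'], fun j => by
    rw [hz_eval_smul (mem_hz_nat.2 (Q.Fh j)), hv.1 j, mul_zero]⟩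
  have e : (fun i => (((‖v‖ : ℂ))⁻¹ • v) (Q.yi i)) = ((‖v‖ : ℂ))⁻¹ • y := by
    rw [← hv.2]; rfl
  simp only [e, norm_smul, hnc] at h1
  rwa [inv_mul_eq_div, le_div_iff₀ hn] at h1

theorem PD.pq_upper (y₀ : Fin k → ℂ) {U : Set (Fin m → ℂ)} (hU : IsOpen U) (h : Q.Fib y₀ ⊆ U) :
    ∀ᶠ y in 𝓝 y₀, Q.Fib y ⊆ U := by
  obtain ⟨b, hb, hp⟩ := Q.pq_proper
  have hK : IsCompact ((Metric.closedBall (0 : Fin m → ℂ) ((‖y₀‖ + 1) / b) ∩
      {v | ∀ j, eval v (Q.F j) = 0}) ∩ Uᶜ) :=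
    ((isCompact_closedBall _ _).inter_right (closed_pqOpn Q)).inter_right hU.isClosed_compl
  have hc := (hK.image (cont_pqOpn Q)).isClosed
  have h1 : ∀ᶠ y in 𝓝 y₀, ‖y‖ < ‖y₀‖ + 1 :=
    continuous_norm.continuousAt.eventually (gt_mem_nhds (lt_add_one _))
  filter_upwards [h1, hc.isOpen_compl.mem_nhds (x := y₀) (by
    rintro ⟨v, ⟨⟨_, hF⟩, hv⟩, e⟩
    exact hv (h ⟨hF, e⟩))] with y hy hy' v hv
  by_contra hvU
  refine hy' ⟨v, ⟨⟨?_, hv.1⟩, hvU⟩, hv.2⟩
  rw [mem_closedBall_zero_iff, le_div_iff₀ hb]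
  linarith [hp y v hv, mul_comm b ‖v‖]

theorem sep_pqOpn (v : Fin m → ℂ) {S : Set (Fin m → ℂ)} (hS : S.Finite) :
    ∃ f : P m, eval v f = 0 ∧ ∀ u ∈ S, u ≠ v → eval u f = 1 := by
  classical
  have h : ∀ u : Fin m → ℂ, ∃ g : P m, eval v g = 1 ∧ (u ≠ v → eval u g = 0) := by
    intro u
    by_cases huv : u = v
    · exact ⟨1, map_one _, fun h => (h huv).elim⟩
    obtain ⟨l, hl⟩ := Function.ne_iff.1 huv
    refine ⟨C (v l - u l)⁻¹ * (X l - C (u l)), ?_, fun _ => by simp⟩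
    simp only [map_mul, eval_C, map_sub, eval_X]
    exact inv_mul_cancel₀ (sub_ne_zero.2 hl.symm)
  choose g hg using h
  refine ⟨1 - ∏ u ∈ hS.toFinset, g u, by simp [fun u => (hg u).1], fun u hu huv => ?_⟩
  rw [map_sub, map_one, map_prod, Finset.prod_eq_zero (hS.mem_toFinset.2 hu) ((hg u).2 huv),
    sub_zero]

theorem PD.pq_open_y {v : Fin m → ℂ} (hv : Q.OnC v) {W : Set (Fin m → ℂ)}
    (hW : W ∈ 𝓝 v) : ∀ᶠ y in 𝓝 fun i => v (Q.yi i),
      ∃ w ∈ W, Q.OnC w ∧ (fun i => w (Q.yi i)) = y := by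
  classical
  set y₀ : Fin k → ℂ := fun i => v (Q.yi i) with hy₀
  have hfin : (Q.Fib y₀).Finite := finite_of_encard_le_coe (Q.pq_encard y₀)
  obtain ⟨f, hf0, hf1⟩ := sep_pqOpn v hfin
  have hU : IsOpen (interior W ∪ {w : Fin m → ℂ | 1 / 2 < ‖eval w f‖}) :=
    isOpen_interior.union (isOpen_lt continuous_const (MvPolynomial.continuous_eval _).norm)
  have h1 := Q.pq_upper y₀ hU (fun u hu => by
    by_cases huv : u = v
    · exact Or.inl (huv ▸ mem_interior_iff_mem_nhds.2 hW)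
    · refine Or.inr ?_
      rw [mem_ofPred_eq, hf1 u hu huv, norm_one]
      norm_num)
  have h0 : eval y₀ (Q.pqM f).det = 0 := (Q.pq_det_iff f y₀).2 ⟨v, ⟨hv.2, rfl⟩, hf0⟩
  have h2 : ∀ᶠ y in 𝓝 y₀, ‖eval y (Q.pqM f).det‖ < (1 / 2 : ℝ) ^ Fintype.card Q.b.ι :=
    (MvPolynomial.continuous_eval _).norm.continuousAt.eventually (gt_mem_nhds (by
      simp only [h0, norm_zero]; positivity))
  filter_upwards [h1, h2, isOpen_ne.mem_nhds (Q.y_ne hv)] with y hy1 hy2 hy3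
  obtain ⟨w, hw, hwf⟩ := Q.pq_small f y (by norm_num) hy2
  refine ⟨w, ?_, ⟨?_, hw.1⟩, hw.2⟩
  · rcases hy1 hw with h | h
    · exact interior_subset h
    · exact absurd hwf (not_lt.2 (le_of_lt h))
  · rintro rfl
    exact hy3 hw.2.symm

end

end Pool.Agent.MP_1c689d_ag.K0

end

section

/-! The data of projective space. -/

set_option autoImplicit false

open Complex Filter Topology Set MeasureTheory MvPolynomial

namespace Pool.Agent.MP_1c689d_ag.K0

noncomputable section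

theorem bot_pqPn (k : ℕ) : Ideal.span (range (Fin.elim0 : Fin 0 → P k)) = ⊥ := by
  rw [range_eq_empty, Ideal.span_empty]

/-- The quotient by the zero ideal. -/
def co_pqPn (k : ℕ) :
    (P k ⧸ Ideal.span (range (Fin.elim0 : Fin 0 → P k))) ≃ₗ[P k] (Unit → P k) :=
  (Submodule.quotEquivOfEqBot _ (bot_pqPn k)).trans (LinearEquiv.funUnique Unit (P k) (P k)).symm

/-- The graded free structure. -/
def b_pqPn (k : ℕ) : FB (id : Fin k → Fin k) (P k ⧸ Ideal.span (range (Fin.elim0 : Fin 0 → P k))) where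
  ι := Unit
  dg := fun _ => 0
  co := (co_pqPn k).restrictScalars ℂ
  co_y := fun a v i => by
    rw [rename_id_apply]
    exact congrFun ((co_pqPn k).map_smul a v) i
  co_X := fun l j v h i => by
    have h1 := hz_mul (mem_hz_nat.2 (isHomogeneous_X ℂ l)) (h i)
    have e : ((1 : ℕ) : ℤ) + (j - 0) = j + 1 - 0 := by
      push_cast
      ring
    rw [e] at h1
    exact (congrFun ((co_pqPn k).map_smul (X l) v) i).symm ▸ h1

end

end Pool.Agent.MP_1c689d_ag.K0

end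

section

/-! Definitions for the algebraic non-degeneracy theorem. -/

set_option autoImplicit false

open MvPolynomial

namespace Pool.Agent.MP_1c689d_ag.K0.Al

noncomputable section

/-! ### Linear forms in the powers of the parameters -/

abbrev Vec : Type := Fin 4 → ℂ

/-- The unit vectors. -/
def ev (l : Fin 4) : Vec := Pi.single l 1

/-- The linear form with coefficients `a`. -/
def lin (a : Vec) : P 4 := ∑ l, C (a l) * X l

/-- The substitution `Y l ↦ y l ^ e`. -/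
def phi {m : ℕ} (yi : Fin 4 → Fin m) (e : ℕ) : P 4 →ₐ[ℂ] P m := aeval fun l => X (yi l) ^ e

/-- The form `∑ a l * y l ^ e`. -/
def Lv {m : ℕ} (yi : Fin 4 → Fin m) (e : ℕ) (a : Vec) : P m := phi yi e (lin a)

/-- General position. -/
def GP (G : Finset Vec) : Prop := ∀ S ⊆ G, S.card ≤ 4 → LinearIndepOn ℂ id (S : Set Vec)

/-- A frame: vectors in general position, the unit vectors among them. -/
structure Fr (m : ℕ) where
  yi : Fin 4 → Fin m
  e : ℕ
  G : Finset Vec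
  e2 : 2 ≤ e
  gp : GP G
  unit : ∀ l, ev l ∈ G

namespace Fr

variable {m : ℕ} (Φ : Fr m)

abbrev L (a : Vec) : P m := Lv Φ.yi Φ.e a

/-- The ideal generated by the forms of `S`. -/
def q (S : Finset Vec) : Ideal (P m) := Ideal.span (Φ.L '' (S : Set Vec))

/-- The submodule `q S • N`. -/
def M (N : Type) [AddCommGroup N] [Module (P m) N] (S : Finset Vec) : Submodule (P m) N :=
  Φ.q S • ⊤

/-- The product of the forms of `S`. -/
def pr (S : Finset Vec) : P m := ∏ a ∈ S, Φ.L a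

/-- Vectors of the frame other than the unit vectors. -/
def Ok (S : Finset Vec) : Prop := S ⊆ Φ.G ∧ ∀ l, ev l ∉ S

end Fr

/-- The bivector `g ∧ x`. -/
def wg {m : ℕ} {N : Type} [AddCommGroup N] [Module (P m) N] (g : Fin m → N) (a l : Fin m) : N :=
  (X l : P m) • g a - (X a : P m) • g l

/-- The trivector `x ∧ ψ`. -/
def cl3 {m : ℕ} {N : Type} [AddCommGroup N] [Module (P m) N] (ψ : Fin m → Fin m → N)
    (a k l : Fin m) : N :=
  (X a : P m) • ψ k l - (X k : P m) • ψ a l + (X l : P m) • ψ a k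

/-- The graded free structure of the dualising module. -/
def ob {m k c r : ℕ} (Q : PD m k c r) : FB Q.yi Q.Om := Q.exists_ob.choose

theorem ob_gr {m k c r : ℕ} (Q : PD m k c r) (j : ℤ) : (ob Q).gr j = Q.og j :=
  Q.exists_ob.choose_spec.choose_spec.2.2 j

/-! ### Counting -/

def hh (δ χ j : ℕ) : ℕ := δ * (j * (j + 1) / 2) + χ

open Classical in
/-- The filtration bound. -/
def fil {α : Type} (h : ℕ → ℕ) (Γ : α → α → Prop) : List α → ℕ
  | [] => 0
  | a :: l => h (l.countP fun b => decide (¬ Γ a b)) + fil h Γ l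

/-! ### Derivations of the complex numbers -/

abbrev Der : Type := Derivation ℤ ℂ ℂ

def Kills (S : Finset ℂ) (δ : Der) : Prop := ∀ s ∈ S, δ s = 0

/-- A compatible action of the derivations on a vector space. -/
structure DM (V : Type) [AddCommGroup V] [Module ℂ V] where
  act : Der →ₗ[ℂ] V →+ V
  smul : ∀ (δ : Der) (t : ℂ) (v : V), act δ (t • v) = δ t • v + t • act δ v
  fin : ∀ v, ∃ S : Finset ℂ, ∀ δ, Kills S δ → act δ v = 0

/-- The coefficientwise action on polynomials. -/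
def dP {k : ℕ} (δ : Der) (f : P k) : P k := ∑ s ∈ f.support, monomial s (δ (coeff s f))

/-- The coordinates of the vectors of `H` are independent over `S`. -/
def GenV (S : Finset ℂ) (H : Finset Vec) : Prop :=
  ∀ w : Vec → Vec, ∃ δ : Der, Kills S δ ∧ ∀ a ∈ H, ∀ l, δ (a l) = w a l

/-! ### The configuration -/

variable {m c r : ℕ}

/-- The position of the two families of forms. -/
structure Pos (Q : PD m 4 c r) (Pts : Finset Vec) (e : ℕ) (A B : Finset Vec) : Prop where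
  card : B.card = A.card
  disj : Disjoint A B
  gp : GP (A ∪ B ∪ Finset.univ.image ev)
  nu : ∀ l, ev l ∉ A ∪ B
  good : ∀ a ∈ A, Good Q Pts (Lv Q.yi e a) e
  tr2 : ∀ a ∈ A, ∀ b ∈ A, a ≠ b → ∀ v, Q.OnC v → eval v (Lv Q.yi e a) = 0 →
    eval v (Lv Q.yi e b) = 0 → ∃ (J : Fin c → Fin r) (k l : Fin m),
      eval v (Q.jd J ![gd (Lv Q.yi e a), gd (Lv Q.yi e b), ue k, ue l]) ≠ 0
  tr3 : ∀ a ∈ A, ∀ b ∈ A, ∀ s ∈ A ∪ B, a ≠ b → s ≠ a → s ≠ b → ∀ v, Q.OnC v →
    eval v (Lv Q.yi e a) = 0 → eval v (Lv Q.yi e b) = 0 → eval v (Lv Q.yi e s) = 0 →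
    ∃ (J : Fin c → Fin r) (l : Fin m),
      eval v (Q.jd J ![gd (Lv Q.yi e a), gd (Lv Q.yi e b), gd (Lv Q.yi e s), ue l]) ≠ 0
  goodt : ∀ k : ℕ, 0 < k →
    Good Q Pts (∏ a ∈ A, Lv Q.yi e a + C (k : ℂ)⁻¹ * ∏ a ∈ B, Lv Q.yi e a) (A.card * e)

/-- All the data. -/
structure Ctx (m c r : ℕ) where
  Q : PD m 4 c r
  Pts : Finset Vec
  T : DT Q
  z : Fin r → Q.Om
  e : ℕ
  A : Finset Vec
  B : Finset Vec
  num : Num Q
  sm : Q.Sm0 Pts
  h0 : Q.H0
  h2 : Q.H2
  h1 : Q1 Q Pts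
  zdeg : ∀ j, z j ∈ Q.og (Q.dF j)
  znz : ¬ ∃ γ : Fin m → Q.Om, (∀ l, γ l ∈ Q.og 1) ∧ ∀ j, dv γ (Q.F j) = z j
  e4 : 4 ≤ e
  eF : ∀ j, Q.dF j + 1 < e
  eι : ∀ J, ∃ s : ℤ, 8 + s < 3 * e ∧ ∀ j, ∀ t ∈ Q.og j, T.ι J t ∈ Q.b.gr (j + s)
  pos : Pos Q Pts e A B
  big : 2 * (Fintype.card Q.b.ι * e ^ 3) + 10 ≤ A.card

/-- The pairing `((a, t), b) ↦ (b a, t b)`. -/
def mm (Q : PD m 4 c r) : (Q.Om × ℂ) →ₗ[ℂ] P m →ₗ[ℂ] (Q.Om × P m) :=
  LinearMap.mk₂ ℂ (fun u b => (b • u.1, u.2 • b))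
    (fun u u' b => by simp [add_smul])
    (fun t u b => by simp [smul_comm t b, mul_smul])
    (fun u b b' => by simp [add_smul])
    (fun t u b => by simp [smul_comm t u.2])

theorem mm_apply (Q : PD m 4 c r) (u : Q.Om × ℂ) (b : P m) : mm Q u b = (b • u.1, u.2 • b) := rfl

namespace Ctx

variable (K : Ctx m c r)

abbrev fr : Fr m :=
  ⟨K.Q.yi, K.e, K.A ∪ K.B ∪ Finset.univ.image ev, le_trans (by norm_num) K.e4, K.pos.gp,
    fun l => Finset.mem_union_right _ (Finset.mem_image_of_mem _ (Finset.mem_univ l))⟩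

abbrev Om : Type := K.Q.Om

abbrev L (a : Vec) : P m := K.fr.L a

abbrev pr (S : Finset Vec) : P m := K.fr.pr S

/-- The submodule `q S • ω`. -/
abbrev M (S : Finset Vec) : Submodule (P m) K.Om := K.fr.M K.Om S

/-- The ideal `I + q S`. -/
abbrev p (S : Finset Vec) : Ideal (P m) := K.Q.I ⊔ K.fr.q S

/-- The degree of the surfaces. -/
abbrev ν : ℕ := K.A.card * K.e

abbrev s0 : P m := K.pr K.A

abbrev f : P m := K.pr K.B

def del : ℕ := Fintype.card K.Q.b.ι * K.e ^ 3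

def chi : ℕ := Module.finrank ℂ (K.Q.b.gr K.e) - 1

abbrev h : ℕ → ℕ := hh K.del K.chi

/-- The dimension of `I` in degree `ν`. -/
def dI : ℕ := Module.finrank ℂ ↥(hz m K.ν ⊓ K.Q.I.restrictScalars ℂ)

/-- The polynomials `D i` have no common zero on the punctured cone over the zeros of `S`. -/
def NoZ (S : Finset Vec) {α : Type} (D : α → P m) : Prop :=
  ∀ v, K.Q.OnC v → (∀ s ∈ S, eval v (K.L s) = 0) → ∃ i, eval v (D i) ≠ 0

abbrev D2 (J : Fin c → Fin r) (a b : Vec) (k l : Fin m) : P m :=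
  K.Q.jd J ![gd (K.L a), gd (K.L b), ue k, ue l]

abbrev D3 (J : Fin c → Fin r) (a b s : Vec) (l : Fin m) : P m :=
  K.Q.jd J ![gd (K.L a), gd (K.L b), gd (K.L s), ue l]

/-- The generator of the bivectors tangent to the cone over a curve. -/
def psi0 (a b : Vec) (k l : Fin m) : K.Om :=
  ∑ i, ∑ j, (pderiv i (K.L a) * pderiv j (K.L b) : P m) • K.T.κ ![i, j, k, l]

structure Kz (ξ : Fin m → K.Om) (ru : Fin r → K.Om) : Prop where
  deg : ∀ l, ξ l ∈ K.Q.og (K.ν + 1)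
  J : ∀ j, dv ξ (K.Q.F j) = K.s0 • ru j
  s : dv ξ K.s0 = 0

structure Sol (τ : K.Om) (b : P m) (g ξ : Fin m → K.Om) (ρ ru : Fin r → K.Om) : Prop where
  kz : K.Kz ξ ru
  deg : ∀ l, g l ∈ K.Q.og (K.ν + 1)
  J : ∀ j, dv g (K.Q.F j) = b • K.z j + K.s0 • ρ j + K.f • ru j
  out : τ = dv g K.s0 + dv ξ K.f

/-- The part of the limit space with `ξ = 0`. -/
def J0 (τ : K.Om) (b : P m) : Prop :=
  ∃ (g : Fin m → K.Om) (ρ : Fin r → K.Om), (∀ l, g l ∈ K.Q.og (K.ν + 1)) ∧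
    (∀ j, dv g (K.Q.F j) = b • K.z j + K.s0 • ρ j) ∧ τ = dv g K.s0

/-- The limit of the extended Jacobian spaces. -/
def Jp : Submodule ℂ (K.Om × P m) :=
  Submodule.span ℂ {y | ∃ g ξ ρ ru, K.Sol y.1 y.2 g ξ ρ ru}

def Ann (u : K.Om × ℂ) : Submodule ℂ (P m) := hz m K.ν ⊓ K.Jp.comap (mm K.Q u)

/-- A bivector on the curve of `j`, `k` with prescribed contractions. -/
structure Lift (i j k : Vec) (ζ : Fin r → K.Om) (α : Vec → K.Om) (ψ : Fin m → Fin m → K.Om) :
    Prop where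
  anti : ∀ a l, ψ a l + ψ l a ∈ K.M {j, k}
  clo : ∀ a b l, cl3 ψ a b l ∈ K.M {j, k}
  F : ∀ t l, dv (fun a => ψ a l) (K.Q.F t) - (X l : P m) • ζ t ∈ K.M {j, k}
  lj : ∀ l, dv (fun a => ψ a l) (K.L j) - (X l : P m) • α j ∈ K.M {j, k}
  lk : ∀ l, dv (fun a => ψ a l) (K.L k) - (X l : P m) • α k ∈ K.M {j, k}
  li : ∀ l, dv (fun a => ψ a l) (K.L i) - (X l : P m) • α i ∈ K.M {i, j, k}

/-- A lift exists in degree `d`. -/
def HasLift (d : ℤ) (i j k : Vec) (ζ : Fin r → K.Om) (α : Vec → K.Om) : Prop :=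
  ∃ ψ, (∀ a l, ψ a l ∈ K.Q.og d) ∧ K.Lift i j k ζ α ψ

/-- Three distinct vectors of the first family. -/
structure Tri (i j k : Vec) : Prop where
  hi : i ∈ K.A
  hj : j ∈ K.A
  hk : k ∈ K.A
  ij : i ≠ j
  ik : i ≠ k
  jk : j ≠ k

/-- A set of pairs, distinct as unordered pairs, that avoid `i`. -/
structure Prs (i : Vec) (Γ : Finset (Vec × Vec)) : Prop where
  tri : ∀ x ∈ Γ, K.Tri i x.1 x.2
  inj : ∀ x ∈ Γ, ∀ y ∈ Γ, ({x.1, x.2} : Finset Vec) = {y.1, y.2} → x = y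

/-- The derivations that fix all the data. -/
structure DD where
  D : DM K.Om
  S : Finset ℂ
  gr : ∀ δ j, ∀ v ∈ K.Q.og j, D.act δ v ∈ K.Q.og j
  leib : ∀ δ, Kills S δ → ∀ (h : P m) (v : K.Om), D.act δ (h • v) = dP δ h • v + h • D.act δ v
  kF : ∀ δ, Kills S δ → ∀ j, dP δ (K.Q.F j) = 0
  kL : ∀ δ, Kills S δ → ∀ a ∈ K.fr.G, dP δ (K.L a) = 0
  kz : ∀ δ, Kills S δ → ∀ j, D.act δ (K.z j) = 0

variable {K}

/-- The span of `u` and its derivatives. -/
def DD.Tan (D : K.DD) (u : K.Om × ℂ) : Submodule ℂ (K.Om × ℂ) :=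
  Submodule.span ℂ {y | ∃ δ, Kills D.S δ ∧ y = (D.D.act δ u.1, δ u.2)} ⊔ Submodule.span ℂ {u}

variable (K)

open Classical in
/-- The colour of a pair: `1` if `u.1` vanishes on the curve, otherwise `0` if the annihilator
vanishes on the curve, otherwise `2`. -/
def col (u : K.Om × ℂ) (a b : Vec) : Fin 3 :=
  if u.1 ∈ K.M {a, b} then 1 else if ∀ x ∈ K.Ann u, x ∈ K.p {a, b} then 0 else 2

/-- The number of ordered pairs of colour `2`. -/
def n3 (u : K.Om × ℂ) : ℕ := (K.A.offDiag.filter fun x => K.col u x.1 x.2 = 2).card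

end Ctx

end

end Pool.Agent.MP_1c689d_ag.K0.Al

end

section

/-! Linear forms and general position. -/

set_option autoImplicit false

open MvPolynomial

namespace Pool.Agent.MP_1c689d_ag.K0.Al

noncomputable section

variable {m : ℕ}

theorem lin_add (a b : Vec) : lin (a + b) = lin a + lin b := by
  simp only [lin, Pi.add_apply, map_add, add_mul, Finset.sum_add_distrib]

theorem lin_smul (t : ℂ) (a : Vec) : lin (t • a) = C t * lin a := by
  simp only [lin, Pi.smul_apply, smul_eq_mul, map_mul, Finset.mul_sum, mul_assoc]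

theorem lin_ev (l : Fin 4) : lin (ev l) = X l := by
  simp [lin, ev, Pi.single_apply, apply_ite C]

/-- The form of a vector, as a linear map. -/
def lm_Lin : Vec →ₗ[ℂ] P 4 where
  toFun := lin
  map_add' := lin_add
  map_smul' t a := by rw [lin_smul, smul_eq_C_mul, RingHom.id_apply]

theorem inj_Lin {a : Vec} (h : lin a = 0) : a = 0 := funext fun l => by
  simpa [lin, Pi.single_apply] using congrArg (eval (Pi.single l 1)) h

theorem mem_Lin {S : Set Vec} {a : Vec} (h : a ∈ Submodule.span ℂ S) :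
    lin a ∈ Ideal.span (lin '' S) := by
  induction h using Submodule.span_induction with
  | mem x hx => exact Ideal.subset_span ⟨x, hx, rfl⟩
  | zero => exact (show lin 0 = 0 from map_zero lm_Lin) ▸ zero_mem _
  | add x y _ _ h1 h2 => exact lin_add x y ▸ add_mem h1 h2
  | smul t x _ h1 => exact lin_smul t x ▸ Ideal.mul_mem_left _ _ h1

theorem ker_Lin (S : Set Vec) : ∃ ψ : P 4 →ₐ[ℂ] P 4, RingHom.ker ψ = Ideal.span (lin '' S) ∧
    ∀ a, ψ (lin a) = 0 → a ∈ Submodule.span ℂ S := by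
  obtain ⟨W, hW⟩ := (Submodule.span ℂ S).exists_isCompl
  obtain ⟨π, h1, h2⟩ : ∃ π : Vec →ₗ[ℂ] Vec, (∀ a, a - π a ∈ Submodule.span ℂ S) ∧
      ∀ a ∈ Submodule.span ℂ S, π a = 0 :=
    ⟨LinearMap.id - Submodule.projection _ _ hW, fun a => by
      rw [LinearMap.sub_apply, LinearMap.id_apply, sub_sub_cancel]
      exact Submodule.projection_apply_mem hW a, fun a ha => by
      rw [LinearMap.sub_apply, LinearMap.id_apply, Submodule.projection_apply_of_mem_left hW ha,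
        sub_self]⟩
  have e : ∀ a, aeval (fun l => lin (π (ev l))) (lin a) = lin (π a) := fun a => by
    have : a = ∑ l, a l • ev l := by
      funext j
      simp [ev, Pi.single_apply]
    conv_rhs => rw [this, map_sum, show lin = lm_Lin from rfl, map_sum]
    rw [lin, map_sum]
    refine Finset.sum_congr rfl fun l _ => ?_
    rw [map_mul, aeval_C, aeval_X, map_smul, map_smul, Algebra.smul_def]
    rfl
  have k : ∀ x : P 4, x - aeval (fun l => lin (π (ev l))) x ∈ Ideal.span (lin '' S) := fun x => by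
    induction x using MvPolynomial.induction_on with
    | C t => simp
    | add x y hx hy =>
      rw [map_add, add_sub_add_comm]
      exact add_mem hx hy
    | mul_X x l hx =>
      have := mem_Lin (h1 (ev l))
      rw [show lin (ev l - π (ev l)) = _ from map_sub lm_Lin _ _,
        show lm_Lin (ev l) = X l from lin_ev l] at this
      have := add_mem (Ideal.mul_mem_left _ x this) (Ideal.mul_mem_right (lin (π (ev l))) _ hx)
      rwa [mul_sub, sub_mul, show lm_Lin (π (ev l)) = lin (π (ev l)) from rfl, sub_add_sub_cancel,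
        ← aeval_X (R := ℂ) (fun l => lin (π (ev l))) l, ← map_mul] at this
  refine ⟨aeval fun l => lin (π (ev l)), le_antisymm (fun x hx => ?_) (Ideal.span_le.2 ?_), fun a ha => ?_⟩
  · have := k x
    rwa [RingHom.mem_ker.1 hx, sub_zero] at this
  · rintro _ ⟨a, ha, rfl⟩
    exact RingHom.mem_ker.2 ((e a).trans (by
      rw [h2 a (Submodule.subset_span ha)]
      exact map_zero lm_Lin))
  · have := h1 a
    rwa [inj_Lin ((e a).symm.trans ha), sub_zero] at this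

theorem lin_prime (S : Set Vec) : (Ideal.span (lin '' S)).IsPrime := by
  obtain ⟨ψ, h, -⟩ := ker_Lin S
  exact h ▸ RingHom.ker_isPrime ψ

theorem lin_mem_iff (S : Set Vec) (a : Vec) :
    lin a ∈ Ideal.span (lin '' S) ↔ a ∈ Submodule.span ℂ S := by
  obtain ⟨ψ, h, h2⟩ := ker_Lin S
  exact ⟨fun k => h2 a (RingHom.mem_ker.1 (h.ge k)), mem_Lin⟩

theorem Lv_eq (yi : Fin 4 → Fin m) (e : ℕ) (a : Vec) :
    Lv yi e a = ∑ l, C (a l) * X (yi l) ^ e := by
  simp [Lv, phi, lin]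

theorem Lv_zero (yi : Fin 4 → Fin m) (e : ℕ) : Lv yi e 0 = 0 := by
  simp [Lv_eq]

theorem Lv_add (yi : Fin 4 → Fin m) (e : ℕ) (a b : Vec) : Lv yi e (a + b) = Lv yi e a + Lv yi e b := by
  rw [Lv, lin_add, map_add, Lv, Lv]

theorem Lv_sub (yi : Fin 4 → Fin m) (e : ℕ) (a b : Vec) : Lv yi e (a - b) = Lv yi e a - Lv yi e b := by
  simp only [Lv_eq, Pi.sub_apply, map_sub, sub_mul, Finset.sum_sub_distrib]

theorem Lv_smul (yi : Fin 4 → Fin m) (e : ℕ) (t : ℂ) (a : Vec) :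
    Lv yi e (t • a) = C t * Lv yi e a := by
  simp only [Lv_eq, Pi.smul_apply, smul_eq_mul, map_mul, Finset.mul_sum, mul_assoc]

theorem Lv_ev (yi : Fin 4 → Fin m) (e : ℕ) (l : Fin 4) : Lv yi e (ev l) = X (yi l) ^ e := by
  rw [Lv, lin_ev, phi, aeval_X]

theorem Lv_hom (yi : Fin 4 → Fin m) (e : ℕ) (a : Vec) : (Lv yi e a).IsHomogeneous e := by
  rw [Lv_eq]
  exact IsHomogeneous.sum _ _ _ fun l _ => (isHomogeneous_X_pow _ _).C_mul _

theorem eval_Lv (yi : Fin 4 → Fin m) (e : ℕ) (a : Vec) (v : Fin m → ℂ) :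
    eval v (Lv yi e a) = ∑ l, a l * v (yi l) ^ e := by
  simp [Lv_eq]

theorem rename_Lv (yi : Fin 4 → Fin m) (e : ℕ) (a : Vec) : rename yi (Lv id e a) = Lv yi e a := by
  simp [Lv_eq]

theorem Fr.q_eq (Φ : Fr m) (S : Finset Vec) :
    Φ.q S = (Ideal.span (lin '' (S : Set Vec))).map (phi Φ.yi Φ.e) := by
  rw [Ideal.map_span, Set.image_image]
  rfl

theorem Fr.L_hz (Φ : Fr m) (a : Vec) : Φ.L a ∈ hz m Φ.e := by
  simpa [hz] using Lv_hom Φ.yi Φ.e a

theorem Fr.pr_hom (Φ : Fr m) (S : Finset Vec) : (Φ.pr S).IsHomogeneous (S.card * Φ.e) := by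
  simpa [Fr.pr] using IsHomogeneous.prod S Φ.L (fun _ => Φ.e) fun a _ => Lv_hom Φ.yi Φ.e a

theorem Fr.pr_hz (Φ : Fr m) (S : Finset Vec) : Φ.pr S ∈ hz m (S.card * Φ.e) := by
  rw [← Nat.cast_mul, hz, if_pos (Int.natCast_nonneg _), Int.toNat_natCast]
  exact Φ.pr_hom S

theorem GP.mono {G G' : Finset Vec} (h : GP G) (hG : G' ⊆ G) : GP G' :=
  fun S hS => h S (hS.trans hG)

theorem GP.notMem_span {G S : Finset Vec} (h : GP G) (hS : S ⊆ G) (hc : S.card ≤ 3) {a : Vec}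
    (ha : a ∈ G) (hn : a ∉ S) : a ∉ Submodule.span ℂ (S : Set Vec) := by
  classical
  have := h (insert a S) (Finset.insert_subset ha hS) (by rw [Finset.card_insert_of_notMem hn]; omega)
  rw [Finset.coe_insert] at this
  exact ((linearIndepOn_id_insert (by exact_mod_cast hn)).1 this).2

theorem GP.span_top {G S : Finset Vec} (h : GP G) (hS : S ⊆ G) (hc : S.card = 4) :
    Submodule.span ℂ (S : Set Vec) = ⊤ := by
  refine Submodule.eq_top_of_finrank_eq ?_
  rw [finrank_span_finset_eq_card (h S hS hc.le), hc]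
  simp

theorem GP.span_inter {G S T : Finset Vec} (h : GP G) (hS : S ⊆ G) (hT : T ⊆ G)
    (hc : (S ∪ T).card ≤ 4) {w : Vec} (h1 : w ∈ Submodule.span ℂ (S : Set Vec))
    (h2 : w ∈ Submodule.span ℂ (T : Set Vec)) : w ∈ Submodule.span ℂ ((S ∩ T : Finset Vec) : Set Vec) := by
  have k := h (S ∪ T) (Finset.union_subset hS hT) hc
  obtain ⟨f, f1, f2⟩ := Submodule.mem_span_finset.1 h1
  obtain ⟨g, g1, g2⟩ := Submodule.mem_span_finset.1 h2
  have e := linearIndepOn_finset_iffₛ.1 k f g (by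
    rw [← Finset.sum_subset Finset.subset_union_left fun a _ ha => by
        rw [Function.notMem_support.1 fun q => ha (f1 q), zero_smul],
      ← Finset.sum_subset Finset.subset_union_right fun a _ ha => by
        rw [Function.notMem_support.1 fun q => ha (g1 q), zero_smul]]
    exact f2.trans g2.symm)
  rw [← f2]
  refine Submodule.sum_mem _ fun a ha => ?_
  by_cases q : f a = 0
  · rw [q, zero_smul]
    exact zero_mem _
  · refine Submodule.smul_mem _ _ (Submodule.subset_span (Finset.mem_coe.2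
      (Finset.mem_inter.2 ⟨ha, g1 ?_⟩)))
    rwa [e a (Finset.mem_union_left _ ha)] at q

/-- Four forms in general position have no common zero. -/
theorem GP.eq_zero {G S : Finset Vec} (h : GP G) (hS : S ⊆ G) (hc : S.card = 4) {u : Vec}
    (hu : ∀ a ∈ S, ∑ l, a l * u l = 0) : u = 0 := by
  let φ : Vec →ₗ[ℂ] ℂ := Fintype.linearCombination ℂ u
  have k : Submodule.span ℂ (S : Set Vec) ≤ LinearMap.ker φ :=
    Submodule.span_le.2 fun a ha => hu a ha
  rw [h.span_top hS hc] at k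
  funext l
  simpa [φ] using k (Submodule.mem_top (x := Pi.single l 1))

theorem ev_inj : Function.Injective ev :=
  fun a b h => by
  by_contra k
  simpa [ev, Pi.single_apply, k] using congrFun h a

end

end Pool.Agent.MP_1c689d_ag.K0.Al

end

section

/-! Freeness over the ring of the powers. -/

set_option autoImplicit false

open MvPolynomial

namespace Pool.Agent.MP_1c689d_ag.K0.Al

noncomputable section

variable {m : ℕ} {yi : Fin 4 → Fin m} {N : Type} [AddCommGroup N] [Module ℂ N]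
  [Module (P m) N] [IsScalarTower ℂ (P m) N] {e : ℕ}

/-- The exponent given by a family of remainders. -/
def ex_Flat (a : Fin 4 → Fin e) : Fin 4 →₀ ℕ := Finsupp.equivFunOnFinite.symm fun i => (a i : ℕ)

/-- The assembling map. -/
def sg_Flat (e : ℕ) : ((Fin 4 → Fin e) → P 4) →ₗ[ℂ] P 4 :=
  ∑ a, LinearMap.mulRight ℂ (monomial (ex_Flat a) 1) ∘ₗ (expand e).toLinearMap ∘ₗ LinearMap.proj a

theorem sg_apply_Flat (y : (Fin 4 → Fin e) → P 4) :
    sg_Flat e y = ∑ a, expand e (y a) * monomial (ex_Flat a) 1 := by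
  simp only [sg_Flat, LinearMap.sum_apply]
  rfl

theorem single_Flat (a : Fin 4 → Fin e) (g : P 4) :
    sg_Flat e (Pi.single a g) = expand e g * monomial (ex_Flat a) 1 := by
  rw [sg_apply_Flat, Finset.sum_eq_single a
    (fun l _ h => by rw [Pi.single_eq_of_ne h, map_zero, zero_mul])
    (fun h => absurd (Finset.mem_univ a) h), Pi.single_eq_same]

theorem coeff_Flat (he : 0 < e) (y : (Fin 4 → Fin e) → P 4) (a : Fin 4 → Fin e)
    (s : Fin 4 →₀ ℕ) : coeff (e • s + ex_Flat a) (sg_Flat e y) = coeff s (y a) := by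
  rw [sg_apply_Flat, coeff_sum, Finset.sum_eq_single a (fun a' _ h => ?_)
    (fun h => absurd (Finset.mem_univ a) h), coeff_mul_monomial, mul_one,
    coeff_expand_smul _ he.ne']
  rw [coeff_mul_monomial']
  split_ifs with h1
  · obtain ⟨i, hi⟩ := Function.ne_iff.1 h
    rw [coeff_expand_of_not_dvd (i := i), zero_mul]
    intro hd
    have h2 : (a' i : ℕ) ≤ e * s i + a i := h1 i
    change e ∣ e * s i + a i - a' i at hd
    have h3 := (Nat.modEq_iff_dvd' h2).2 hd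
    rw [Nat.ModEq, Nat.mul_add_mod, Nat.mod_eq_of_lt (a' i).2, Nat.mod_eq_of_lt (a i).2] at h3
    exact hi (Fin.ext h3)
  · rfl

theorem inj_Flat (he : 0 < e) : Function.Injective (sg_Flat e) := fun y y' h =>
  funext fun a => MvPolynomial.ext _ _ fun s => by rw [← coeff_Flat he, h, coeff_Flat he]

theorem surj_Flat (he : 0 < e) : Function.Surjective (sg_Flat e) := by
  intro x
  induction x using MvPolynomial.induction_on' with
  | monomial s t =>
    refine ⟨Pi.single (fun i => ⟨s i % e, Nat.mod_lt _ he⟩)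
      (monomial (Finsupp.equivFunOnFinite.symm fun i => s i / e) t), ?_⟩
    rw [single_Flat, expand_monomial, monomial_mul, mul_one]
    congr 2
    ext i
    exact Nat.div_add_mod (s i) e
  | add p q hp hq =>
    obtain ⟨y, rfl⟩ := hp
    obtain ⟨y', rfl⟩ := hq
    exact ⟨y + y', map_add _ _ _⟩

/-- The polynomial ring is free over the subring of the powers, with basis the monomials with
exponents below `e`. -/
theorem exists_comp (he : 0 < e) : ∃ cp : P 4 ≃ₗ[ℂ] ((Fin 4 → Fin e) → P 4),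
    (∀ g x a, cp (phi id e g * x) a = g * cp x a) ∧
      ∀ t : ℂ, cp (C t) (fun _ => ⟨0, he⟩) = C t := by
  have hb : Function.Bijective (sg_Flat e) := ⟨inj_Flat he, surj_Flat he⟩
  refine ⟨(LinearEquiv.ofBijective _ hb).symm, fun g x a => ?_, fun t => ?_⟩
  · obtain ⟨y, rfl⟩ := hb.2 x
    have h1 : phi id e g * sg_Flat e y = sg_Flat e fun a => g * y a := by
      simp only [sg_apply_Flat, Finset.mul_sum, map_mul, mul_assoc]
      rfl
    rw [h1, LinearEquiv.ofBijective_symm_apply_apply, LinearEquiv.ofBijective_symm_apply_apply]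
  · have h1 : sg_Flat e (Pi.single (fun _ => ⟨0, he⟩) (C t)) = C t := by
      have h0 : ex_Flat (fun _ => (⟨0, he⟩ : Fin e)) = 0 := Finsupp.ext fun _ => rfl
      rw [single_Flat, expand_C, h0]
      exact mul_one (C t : P 4)
    conv_lhs => rw [← h1, LinearEquiv.ofBijective_symm_apply_apply, Pi.single_eq_same]

theorem rename_phi_Flat (g : P 4) : rename yi (phi id e g) = phi yi e g := by
  have : (rename yi).comp (phi id e) = phi yi e := by
    ext l
    simp [phi]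
  exact DFunLike.congr_fun this g

omit [IsScalarTower ℂ (P m) N] in
theorem mem_Flat {ι : Type} [Fintype ι] {φ : P 4 →ₐ[ℂ] P m} (co : N ≃ₗ[ℂ] (ι → P 4))
    (h : ∀ g w i, co (φ g • w) i = g * co w i) (q : Ideal (P 4)) (v : N) :
    v ∈ (q.map φ) • (⊤ : Submodule (P m) N) ↔ ∀ i, co v i ∈ q := by
  classical
  constructor
  · intro hv
    refine Submodule.smul_induction_on (p := fun v => ∀ i, co v i ∈ q) hv
      (fun a ha w hw => ?_) fun v w hv hw i => ?_
    · clear hw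
      induction ha using Submodule.span_induction generalizing w with
      | mem a ha =>
        obtain ⟨c, hc, rfl⟩ := ha
        intro i
        rw [h]
        exact q.mul_mem_right _ hc
      | zero => intro i; rw [zero_smul, map_zero]; exact q.zero_mem
      | add a c _ _ ha hc => intro i; rw [add_smul, map_add]; exact q.add_mem (ha w i) (hc w i)
      | smul a c _ hc => rw [smul_eq_mul, mul_comm, mul_smul]; exact hc _
    · rw [map_add]; exact q.add_mem (hv i) (hw i)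
  · intro hv
    have e : ∑ i, φ (co v i) • co.symm (Pi.single i 1) = v := by
      apply co.injective
      funext l
      rw [map_sum, Finset.sum_apply]
      simp only [h, LinearEquiv.apply_symm_apply]
      rw [Finset.sum_eq_single l (fun i _ h => by rw [Pi.single_eq_of_ne h.symm, mul_zero])
        (fun h => absurd (Finset.mem_univ l) h), Pi.single_eq_same, mul_one]
    rw [← e]
    exact Submodule.sum_mem _ fun i _ =>
      Submodule.smul_mem_smul (Ideal.mem_map_of_mem _ (hv i)) Submodule.mem_top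

theorem exists_co (b : FB yi N) (he : 0 < e) : ∃ co : N ≃ₗ[ℂ] (b.ι × (Fin 4 → Fin e) → P 4),
    (∀ g w i, co (phi yi e g • w) i = g * co w i) ∧
      (∀ (q : Ideal (P 4)) (w : N),
        w ∈ (q.map (phi yi e)) • (⊤ : Submodule (P m) N) ↔ ∀ i, co w i ∈ q) ∧
      ∀ w i (t : ℂ), b.co w i = C t → co w (i, fun _ => ⟨0, he⟩) = C t := by
  obtain ⟨cp, h1, h2⟩ := exists_comp he
  let co : N ≃ₗ[ℂ] (b.ι × (Fin 4 → Fin e) → P 4) := b.co ≪≫ₗ
    (LinearEquiv.piCongrRight fun _ => cp) ≪≫ₗ (LinearEquiv.curry ℂ (P 4) _ _).symm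
  have hco : ∀ w i, co w i = cp (b.co w i.1) i.2 := fun _ _ => rfl
  have h3 : ∀ g w i, co (phi yi e g • w) i = g * co w i := fun g w i => by
    rw [hco, hco, ← rename_phi_Flat, b.co_y, h1]
  exact ⟨co, h3, mem_Flat co h3, fun w i t h => by rw [hco, h, h2]⟩

theorem flat_colon (b : FB yi N) (he : 0 < e) (q : Ideal (P 4)) {g : P 4}
    (hg : ∀ x, g * x ∈ q → x ∈ q) {w : N}
    (h : phi yi e g • w ∈ (q.map (phi yi e)) • (⊤ : Submodule (P m) N)) :
    w ∈ (q.map (phi yi e)) • (⊤ : Submodule (P m) N) := by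
  obtain ⟨co, h1, h2, -⟩ := exists_co b he
  rw [h2] at h ⊢
  exact fun i => hg _ (h1 g w i ▸ h i)

theorem phi_comap {c r : ℕ} (Q : PD m 4 c r) (hN : Num Q) (he : 0 < e) (q : Ideal (P 4)) {g : P 4}
    (h : phi Q.yi e g ∈ Q.I ⊔ q.map (phi Q.yi e)) : g ∈ q := by
  obtain ⟨co, h1, h2, h3⟩ := exists_co Q.b he
  obtain ⟨f, hf, u, hu, hfu⟩ := Submodule.mem_sup.1 h
  have h4 : phi Q.yi e g • (1 : P m ⧸ Q.I) ∈
      (q.map (phi Q.yi e)) • (⊤ : Submodule (P m) (P m ⧸ Q.I)) := by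
    have h5 : f • (1 : P m ⧸ Q.I) = 0 :=
      Ideal.Quotient.eq_zero_iff_mem.2 (Q.I.mul_mem_right 1 hf)
    rw [← hfu, add_smul, h5, zero_add]
    exact Submodule.smul_mem_smul hu Submodule.mem_top
  have h5 : (1 : P m ⧸ Q.I) ≠ 0 := fun h0 =>
    hN.prime.ne_top (Ideal.Quotient.zero_eq_one_iff.1 h0.symm)
  obtain ⟨i, hi⟩ := Function.ne_iff.1 ((Q.b.co.map_ne_zero_iff).2 h5)
  rcases AFB_cases (Q.one i) with h0 | ⟨n, hn, hh⟩
  · exact absurd h0 hi
  have hn0 : n = 0 := by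
    have := hN.ge i
    omega
  subst hn0
  have h6 := totalDegree_eq_zero_iff_eq_C.1 (hh.totalDegree hi)
  have h7 := (h2 q _).1 h4 (i, fun _ => ⟨0, he⟩)
  rw [h1, h3 _ i _ h6] at h7
  refine (Ideal.mul_unit_mem_iff_mem q ((isUnit_iff_ne_zero.2 fun h0 => hi ?_).map C)).1 h7
  rw [h6, h0, map_zero]
  rfl

theorem exists_monic {c r : ℕ} (Q : PD m 4 c r) (he : 0 < e) (h : P m) :
    ∃ G : Polynomial (P 4), G.Monic ∧ G.eval₂ (phi Q.yi e).toRingHom h ∈ Q.I := by
  obtain ⟨co, h1, -, -⟩ := exists_co Q.b he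
  let ψ : P 4 →+* P m ⧸ Q.I := (Ideal.Quotient.mk Q.I).comp (phi Q.yi e).toRingHom
  have hf : ψ.Finite := by
    let _ := ψ.toAlgebra
    let co' : (P m ⧸ Q.I) ≃ₗ[P 4] (Q.b.ι × (Fin 4 → Fin e) → P 4) :=
      { co.toAddEquiv with
        map_smul' := fun g w => funext fun i => by
          have h2 : g • w = phi Q.yi e g • w := by
            obtain ⟨w, rfl⟩ := Ideal.Quotient.mk_surjective w
            rw [Algebra.smul_def, ← Q.AFB_mk_smul, map_mul]
            rfl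
          rw [h2]
          exact h1 g w i }
    exact Module.Finite.equiv co'.symm
  obtain ⟨G, hG, h2⟩ := hf.to_isIntegral (Ideal.Quotient.mk Q.I h)
  exact ⟨G, hG, Ideal.Quotient.eq_zero_iff_mem.1 ((Polynomial.hom_eval₂ _ _ _ _).trans h2)⟩

end

end Pool.Agent.MP_1c689d_ag.K0.Al

end

section

/-! Regular sequences of forms in general position. -/

set_option autoImplicit false

open MvPolynomial

namespace Pool.Agent.MP_1c689d_ag.K0.Al

noncomputable section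

variable {m : ℕ} {Φ : Fr m} {N : Type} [AddCommGroup N] [Module ℂ N] [Module (P m) N]
  [IsScalarTower ℂ (P m) N]

theorem Fr.M_empty (Φ : Fr m) : Φ.M N ∅ = ⊥ := by
  simp [Fr.M, Fr.q]

theorem Fr.q_mono (Φ : Fr m) {S T : Finset Vec} (h : S ⊆ T) : Φ.q S ≤ Φ.q T := by
  exact Ideal.span_mono (Set.image_mono (Finset.coe_subset.2 h))

theorem Fr.M_mono (Φ : Fr m) {S T : Finset Vec} (h : S ⊆ T) : Φ.M N S ≤ Φ.M N T := by
  exact Submodule.smul_mono_left (Φ.q_mono h)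

theorem Fr.mem_q (Φ : Fr m) {S : Finset Vec} {a : Vec} (h : a ∈ S) : Φ.L a ∈ Φ.q S := by
  exact Ideal.subset_span ⟨a, h, rfl⟩

theorem Fr.pr_mem_q (Φ : Fr m) {S T : Finset Vec} {a : Vec} (h : a ∈ S) (h' : a ∈ T) :
    Φ.pr T ∈ Φ.q S := by
  exact Ideal.mem_of_dvd _ (Finset.dvd_prod_of_mem _ h') (Φ.mem_q h)

theorem Fr.smul_mem_M (Φ : Fr m) {S : Finset Vec} {h : P m} (hh : h ∈ Φ.q S) (w : N) :
    h • w ∈ Φ.M N S := by
  exact Submodule.smul_mem_smul hh Submodule.mem_top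

theorem Fr.mem_M (Φ : Fr m) {S : Finset Vec} {w : N} :
    w ∈ Φ.M N S ↔ ∃ u : Vec → N, w = ∑ s ∈ S, Φ.L s • u s := by
  constructor
  · intro h
    refine Submodule.smul_induction_on h (fun r hr n _ => ?_) ?_
    · obtain ⟨c, rfl⟩ := (Submodule.mem_span_image_finset_iff_exists_fun' _).1 hr
      refine ⟨fun s => c s • n, ?_⟩
      rw [Finset.sum_smul]
      exact Finset.sum_congr rfl fun s _ => by rw [smul_eq_mul, mul_comm, mul_smul]
    · rintro _ _ ⟨u, rfl⟩ ⟨v, rfl⟩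
      exact ⟨u + v, by simp only [Pi.add_apply, smul_add, Finset.sum_add_distrib]⟩
  · rintro ⟨u, rfl⟩
    exact sum_mem fun s hs => Φ.smul_mem_M (Φ.mem_q hs) _

theorem Fr.mem_M_insert (Φ : Fr m) {S : Finset Vec} {a : Vec} {w : N} :
    w ∈ Φ.M N (insert a S) ↔ ∃ u, w - Φ.L a • u ∈ Φ.M N S := by
  constructor
  · intro h
    refine Submodule.smul_induction_on h (fun r hr n _ => ?_) ?_
    · rw [Fr.q, Finset.coe_insert, Set.image_insert_eq, Ideal.mem_span_insert] at hr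
      obtain ⟨c, z, hz, rfl⟩ := hr
      refine ⟨c • n, ?_⟩
      rw [add_smul, mul_comm, mul_smul, add_sub_cancel_left]
      exact Φ.smul_mem_M hz n
    · rintro _ _ ⟨u, hu⟩ ⟨v, hv⟩
      refine ⟨u + v, ?_⟩
      rw [smul_add, add_sub_add_comm]
      exact add_mem hu hv
  · rintro ⟨u, hu⟩
    have h := add_mem (Φ.M_mono (Finset.subset_insert a S) hu)
      (Φ.smul_mem_M (Φ.mem_q (Finset.mem_insert_self a S)) u)
    rwa [sub_add_cancel] at h

theorem Fr.mem_M_singleton (Φ : Fr m) {a : Vec} {w : N} : w ∈ Φ.M N {a} ↔ ∃ u, w = Φ.L a • u := by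
  simp only [Φ.mem_M, Finset.sum_singleton]
  exact ⟨fun ⟨u, h⟩ => ⟨_, h⟩, fun ⟨u, h⟩ => ⟨fun _ => u, h⟩⟩

theorem Fr.mk_mem_M (Φ : Fr m) (I : Ideal (P m)) {S : Finset Vec} {f : P m} :
    Ideal.Quotient.mk I f ∈ Φ.M (P m ⧸ I) S ↔ f ∈ I ⊔ Φ.q S := by
  rw [Fr.M, Ideal.smul_top_eq_map, Submodule.restrictScalars_mem, sup_comm]
  exact Ideal.mem_quotient_iff_mem_sup

theorem Fr.map_M (Φ : Fr m) {N' : Type} [AddCommGroup N'] [Module (P m) N'] (φ : N →ₗ[P m] N')
    {S : Finset Vec} {w : N} (h : w ∈ Φ.M N S) : φ w ∈ Φ.M N' S := by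
  obtain ⟨u, rfl⟩ := Φ.mem_M.1 h
  rw [map_sum]
  refine sum_mem fun s hs => ?_
  rw [map_smul]
  exact Submodule.smul_mem_smul (Φ.mem_q hs) Submodule.mem_top

theorem Fr.pr_erase (Φ : Fr m) {S : Finset Vec} {a : Vec} (h : a ∈ S) :
    Φ.pr S = Φ.L a * Φ.pr (S.erase a) := by
  exact (Finset.mul_prod_erase S _ h).symm

theorem Fr.Ok.mono {S T : Finset Vec} (h : Φ.Ok T) (hS : S ⊆ T) : Φ.Ok S := by
  exact ⟨hS.trans h.1, fun l hl => h.2 l (hS hl)⟩

theorem reg (b : FB Φ.yi N) {S : Finset Vec} {a : Vec} (ha : a ∉ Submodule.span ℂ (S : Set Vec))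
    {w : N} (h : Φ.L a • w ∈ Φ.M N S) : w ∈ Φ.M N S := by
  rw [Fr.M, Φ.q_eq] at h ⊢
  exact flat_colon b (by linarith [Φ.e2]) _ (fun x hx =>
    ((lin_prime _).mem_or_mem hx).resolve_left fun k => ha ((lin_mem_iff _ _).1 k)) h

theorem reg_pr (b : FB Φ.yi N) {S T : Finset Vec} (hS : S ⊆ Φ.G) (hc : S.card ≤ 3) (hT : T ⊆ Φ.G)
    (hd : Disjoint S T) {w : N} (h : Φ.pr T • w ∈ Φ.M N S) : w ∈ Φ.M N S := by
  induction T using Finset.induction_on with
  | empty => simpa [Fr.pr] using h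
  | insert t T ht ih =>
    rw [Finset.insert_subset_iff] at hT
    rw [Finset.disjoint_insert_right] at hd
    rw [Fr.pr, Finset.prod_insert ht, mul_smul] at h
    exact ih hT.2 hd.2 (reg b (Φ.gp.notMem_span hS hc hT.1 hd.1) h)

theorem inter_pr (b : FB Φ.yi N) {S T : Finset Vec} (hS : S ⊆ Φ.G) (hc : S.card ≤ 2)
    (hT : T ⊆ Φ.G) (hd : Disjoint S T) {w : N} (h : ∀ t ∈ T, w ∈ Φ.M N (insert t S)) :
    ∃ u, w - Φ.pr T • u ∈ Φ.M N S := by
  induction T using Finset.induction_on with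
  | empty => exact ⟨w, by simp [Fr.pr]⟩
  | insert t T ht ih =>
    rw [Finset.insert_subset_iff] at hT
    rw [Finset.disjoint_insert_right] at hd
    obtain ⟨u, hu⟩ := ih hT.2 hd.2 fun s hs => h s (Finset.mem_insert_of_mem hs)
    have h1 := sub_mem (h t (Finset.mem_insert_self t T)) (Φ.M_mono (Finset.subset_insert t S) hu)
    rw [sub_sub_cancel] at h1
    obtain ⟨v, hv⟩ := Φ.mem_M_insert.1 (reg_pr b (Finset.insert_subset hT.1 hS)
      ((Finset.card_insert_le _ _).trans (by omega)) hT.2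
      (Finset.disjoint_insert_left.2 ⟨ht, hd.2⟩) h1)
    refine ⟨v, ?_⟩
    have h2 := add_mem hu (Submodule.smul_mem _ (Φ.pr T) hv)
    rw [smul_sub, sub_add_sub_cancel, ← mul_smul, mul_comm] at h2
    rw [Fr.pr, Finset.prod_insert ht]
    exact h2

theorem split (b : FB Φ.yi N) {S T : Finset Vec} (hS : S ⊆ Φ.G) (hc : S.card ≤ 2) (hT : T ⊆ Φ.G)
    (hd : Disjoint S T) {w : Vec → N} (h : ∑ t ∈ T, Φ.pr (T.erase t) • w t ∈ Φ.M N S) :
    ∀ t ∈ T, w t ∈ Φ.M N (insert t S) := by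
  intro t ht
  have h1 := sub_mem (Φ.M_mono (Finset.subset_insert t S) h)
    (sum_mem (t := T.erase t) fun s hs => Φ.smul_mem_M (Φ.pr_mem_q (Finset.mem_insert_self t S)
      (Finset.mem_erase.2 ⟨(Finset.ne_of_mem_erase hs).symm, ht⟩)) (w s))
  rw [← Finset.add_sum_erase T _ ht, add_sub_cancel_right] at h1
  exact reg_pr b (Finset.insert_subset (hT ht) hS) ((Finset.card_insert_le _ _).trans (by omega))
    ((Finset.erase_subset t T).trans hT) (Finset.disjoint_insert_left.2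
      ⟨Finset.notMem_erase t T, hd.mono_right (Finset.erase_subset t T)⟩) h1

theorem y_reg (b : FB Φ.yi N) {S : Finset Vec} (hS : S ⊆ Φ.G) (hc : S.card ≤ 3) {l : Fin 4}
    (hl : ev l ∉ S) (K : ℕ) {w : N} (h : (X (Φ.yi l) : P m) ^ K • w ∈ Φ.M N S) : w ∈ Φ.M N S := by
  induction K with
  | zero => simpa using h
  | succ K ih =>
    refine ih (reg b (Φ.gp.notMem_span hS hc (Φ.unit l) hl) ?_)
    have h1 := Submodule.smul_mem _ ((X (Φ.yi l) : P m) ^ (Φ.e - 1)) h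
    rw [pow_succ', mul_smul, ← mul_smul, ← pow_succ,
      Nat.sub_add_cancel (by linarith [Φ.e2])] at h1
    rw [Fr.L, Lv_ev]
    exact h1

theorem one_Reg (b : FB Φ.yi N) {S : Finset Vec} (hS : Φ.Ok S) (hc : S.card ≤ 2) {w w' : N}
    (h : (X (Φ.yi 0) : P m) • w - (X (Φ.yi 1) : P m) • w' ∈ Φ.M N S) :
    ∃ u, w - (X (Φ.yi 1) : P m) • u ∈ Φ.M N S := by
  have e : Φ.L (ev 1) = X (Φ.yi 1) ^ (Φ.e - 1) * X (Φ.yi 1) := by
    rw [Fr.L, Lv_ev, ← pow_succ, Nat.sub_add_cancel (by linarith [Φ.e2])]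
  have h1 : (X (Φ.yi 0) : P m) ^ 1 • (X (Φ.yi 1) : P m) ^ (Φ.e - 1) • w ∈
      Φ.M N (insert (ev 1) S) := by
    refine Φ.mem_M_insert.2 ⟨w', ?_⟩
    rw [e, mul_smul, pow_one, smul_comm, ← smul_sub]
    exact Submodule.smul_mem _ _ h
  obtain ⟨u, hu⟩ := Φ.mem_M_insert.1 (y_reg b (Finset.insert_subset (Φ.unit 1) hS.1)
    ((Finset.card_insert_le _ _).trans (by omega))
    (fun k => (Finset.mem_insert.1 k).elim (fun k => absurd (ev_inj k) (by decide)) (hS.2 0)) 1 h1)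
  rw [e, mul_smul, ← smul_sub] at hu
  exact ⟨u, y_reg b hS.1 (by omega) (hS.2 1) _ hu⟩

theorem pow_Reg (b : FB Φ.yi N) {S : Finset Vec} (hS : Φ.Ok S) (hc : S.card ≤ 2) (K : ℕ)
    {w w' : N} (h : (X (Φ.yi 0) : P m) • w - (X (Φ.yi 1) : P m) ^ K • w' ∈ Φ.M N S) :
    ∃ u, w - (X (Φ.yi 1) : P m) ^ K • u ∈ Φ.M N S := by
  induction K generalizing w with
  | zero => exact ⟨w, by simp⟩
  | succ K ih =>
    rw [pow_succ', mul_smul] at h
    obtain ⟨u, hu⟩ := one_Reg b hS hc h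
    obtain ⟨v, hv⟩ := ih (w := u) (y_reg b hS.1 (by omega) (hS.2 1) 1 (by
      have h1 := sub_mem h (Submodule.smul_mem _ (X (Φ.yi 0) : P m) hu)
      rwa [smul_sub, sub_sub_sub_cancel_left, smul_comm, ← smul_sub,
        ← pow_one (X (Φ.yi 1) : P m), ← pow_mul, one_mul] at h1))
    refine ⟨v, ?_⟩
    have h2 := add_mem hu (Submodule.smul_mem _ (X (Φ.yi 1) : P m) hv)
    rwa [smul_sub, sub_add_sub_cancel, ← mul_smul, ← pow_succ'] at h2

theorem y_reg2 (b : FB Φ.yi N) {S : Finset Vec} (hS : Φ.Ok S) (hc : S.card ≤ 2) (K K' : ℕ)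
    {w w' : N} (h : (X (Φ.yi 0) : P m) ^ K • w - (X (Φ.yi 1) : P m) ^ K' • w' ∈ Φ.M N S) :
    ∃ u, w - (X (Φ.yi 1) : P m) ^ K' • u ∈ Φ.M N S ∧ w' - (X (Φ.yi 0) : P m) ^ K • u ∈ Φ.M N S := by
  have key : ∀ (K : ℕ) (w : N), (X (Φ.yi 0) : P m) ^ K • w - (X (Φ.yi 1) : P m) ^ K' • w' ∈
      Φ.M N S → ∃ u, w - (X (Φ.yi 1) : P m) ^ K' • u ∈ Φ.M N S := by
    intro K
    induction K with
    | zero => exact fun w h => ⟨w', by simpa using h⟩
    | succ K ih =>
      intro w h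
      rw [pow_succ, mul_smul] at h
      obtain ⟨u, hu⟩ := ih _ h
      exact pow_Reg b hS hc K' hu
  obtain ⟨u, hu⟩ := key K w h
  refine ⟨u, hu, y_reg b hS.1 (by omega) (hS.2 1) K' ?_⟩
  have h1 := sub_mem (Submodule.smul_mem _ ((X (Φ.yi 0) : P m) ^ K) hu) h
  rwa [smul_sub, sub_sub_sub_cancel_left, smul_comm ((X (Φ.yi 0) : P m) ^ K), ← smul_sub] at h1

end

end Pool.Agent.MP_1c689d_ag.K0.Al

end

section

/-! A criterion for a localisation to be a domain. -/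

set_option autoImplicit false

open MvPolynomial

namespace Pool.Agent.MP_1c689d_ag.K0.Al

noncomputable section

theorem fac_Loc {O : Type} [CommRing O] [IsNoetherianRing O] [IsLocalRing O] {g x : O}
    (hg : ¬ IsUnit g) (hx : x ≠ 0) : ∃ (n : ℕ) (y : O), x = g ^ n * y ∧ ¬ g ∣ y := by
  classical
  have h0 := Ideal.iInf_pow_eq_bot_of_isLocalRing (I := Ideal.span {g})
    (fun h => hg (Ideal.span_singleton_eq_top.1 h))
  have h1 : ∃ n, ¬ g ^ (n + 1) ∣ x := by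
    by_contra hn
    push Not at hn
    refine hx (Ideal.mem_bot.1 (h0 ▸ Ideal.mem_iInf.2 fun n => ?_))
    rw [Ideal.span_singleton_pow, Ideal.mem_span_singleton]
    exact (pow_dvd_pow g n.le_succ).trans (hn n)
  have h2 : g ^ Nat.find h1 ∣ x := by
    rcases h : Nat.find h1 with _ | k
    · simp
    · by_contra hk
      exact Nat.find_min h1 (h ▸ k.lt_succ_self) hk
  obtain ⟨y, hy⟩ := h2
  refine ⟨_, y, hy, fun hd => Nat.find_spec h1 ?_⟩
  rw [pow_succ]
  conv_rhs => rw [hy]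
  exact mul_dvd_mul_left _ hd

theorem dom_Loc {O : Type} [CommRing O] [IsNoetherianRing O] [IsLocalRing O] {g : O}
    (hg : ¬ IsUnit g) (hr : ∀ x, g * x = 0 → x = 0) (hp : ∀ x y, g ∣ x * y → g ∣ x ∨ g ∣ y)
    {x y : O} (h : x * y = 0) : x = 0 ∨ y = 0 := by
  by_contra hn
  push Not at hn
  obtain ⟨n, x1, rfl, hx⟩ := fac_Loc hg hn.1
  obtain ⟨k, y1, rfl, hy⟩ := fac_Loc hg hn.2
  have h1 : ∀ (i : ℕ) (z : O), g ^ i * z = 0 → z = 0 := fun i => by
    induction i with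
    | zero => simp
    | succ i ih => exact fun z hz => ih z (hr _ (by rw [← hz]; ring))
  have h2 : x1 * y1 = 0 := h1 (n + k) _ (by rw [← h]; ring)
  exact (hp x1 y1 (h2 ▸ dvd_zero g)).elim hx hy

theorem loc_Loc {O : Type} [CommRing O] [IsNoetherianRing O] [IsLocalRing O] {g1 g2 π : O}
    (h1 : ¬ IsUnit g1) (h2 : ¬ IsUnit g2) (hπ : ¬ IsUnit π) (r1 : ∀ x, g1 * x = 0 → x = 0)
    (r2 : ∀ x, g1 ∣ g2 * x → g1 ∣ x) (hm : ∀ x, ¬ IsUnit x → x ∈ Ideal.span {g1, π})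
    {x y : O} (h : x * y = 0) : x = 0 ∨ y = 0 := by
  refine dom_Loc h1 r1 (fun a b hab => ?_) h
  have hI : Ideal.span {g1} ≠ ⊤ := fun h => h1 (Ideal.span_singleton_eq_top.1 h)
  have : Nontrivial (O ⧸ Ideal.span {g1}) := Ideal.Quotient.nontrivial_iff.2 hI
  have : IsLocalRing (O ⧸ Ideal.span {g1}) :=
    IsLocalRing.of_surjective' (Ideal.Quotient.mk _) Ideal.Quotient.mk_surjective
  have hz : ∀ z : O, Ideal.Quotient.mk (Ideal.span {g1}) z = 0 ↔ g1 ∣ z := fun z => by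
    rw [Ideal.Quotient.eq_zero_iff_mem, Ideal.mem_span_singleton]
  have hd : ∀ z : O, ¬ IsUnit z → Ideal.Quotient.mk (Ideal.span {g1}) π ∣
      Ideal.Quotient.mk (Ideal.span {g1}) z := fun z hu => by
    obtain ⟨u, w, rfl⟩ := Ideal.mem_span_pair.1 (hm z hu)
    rw [map_add, map_mul, map_mul, (hz g1).2 dvd_rfl, mul_zero, zero_add]
    exact dvd_mul_left _ _
  rw [← hz, ← hz]
  refine dom_Loc (g := Ideal.Quotient.mk _ π) (fun hu => ?_) (fun z h0 => ?_) (fun z w h0 => ?_)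
    (by rw [← map_mul, hz]; exact hab)
  · obtain ⟨w, hw⟩ := hu.exists_right_inv
    obtain ⟨w, rfl⟩ := Ideal.Quotient.mk_surjective w
    rw [← map_mul, ← map_one (Ideal.Quotient.mk _), Ideal.Quotient.eq,
      Ideal.mem_span_singleton] at hw
    obtain ⟨t, ht⟩ := hw
    have e : (1 : O) = π * w - g1 * t := by rw [← ht]; ring
    refine (IsLocalRing.maximalIdeal.isMaximal O).ne_top ((Ideal.eq_top_iff_one _).2 ?_)
    rw [e]
    exact sub_mem (Ideal.mul_mem_right _ _ hπ) (Ideal.mul_mem_right _ _ h1)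
  · obtain ⟨z, rfl⟩ := Ideal.Quotient.mk_surjective z
    obtain ⟨w, hw⟩ := hd g2 h2
    rw [hz]
    refine r2 z ((hz _).1 ?_)
    rw [map_mul, hw, mul_right_comm, h0, zero_mul]
  · obtain ⟨z, rfl⟩ := Ideal.Quotient.mk_surjective z
    by_cases hu : IsUnit z
    · exact Or.inr ((hu.map (Ideal.Quotient.mk _)).dvd_mul_left.1 h0)
    · exact Or.inl (hd z hu)

theorem local_domain {B : Type} [CommRing B] [IsNoetherianRing B] (𝔪 : Ideal B) [𝔪.IsMaximal]
    {g1 g2 π : B} (h1 : g1 ∈ 𝔪) (h2 : g2 ∈ 𝔪) (hπ : π ∈ 𝔪) (r1 : ∀ x, g1 * x = 0 → x = 0)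
    (r2 : ∀ x, g2 * x ∈ Ideal.span {g1} → x ∈ Ideal.span {g1})
    (hm : 𝔪 ≤ Ideal.span {g1, π} ⊔ 𝔪 ^ 2) {f g : B} (h : f * g = 0) :
    (∃ s ∉ 𝔪, s * f = 0) ∨ ∃ s ∉ 𝔪, s * g = 0 := by
  have hu : ∀ x ∈ 𝔪, ¬ IsUnit (algebraMap B (Localization.AtPrime 𝔪) x) := fun x hx h =>
    (IsLocalization.AtPrime.isUnit_to_map_iff (Localization.AtPrime 𝔪) 𝔪 x).1 h hx
  have hz : ∀ x, algebraMap B (Localization.AtPrime 𝔪) x = 0 → ∃ s ∉ 𝔪, s * x = 0 := fun x hx => by
    obtain ⟨s, hs⟩ := (IsLocalization.map_eq_zero_iff 𝔪.primeCompl _ x).1 hx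
    exact ⟨s, s.2, hs⟩
  refine (loc_Loc (hu _ h1) (hu _ h2) (hu _ hπ) (fun x hx => ?_) (fun x hx => ?_) (fun x hx => ?_)
    (by rw [← map_mul, h, map_zero])).imp (hz f) (hz g)
  · obtain ⟨⟨a, s⟩, rfl⟩ := IsLocalization.mk'_surjective 𝔪.primeCompl x
    simp only [IsLocalization.mul_mk'_eq_mk'_of_mul, IsLocalization.mk'_eq_zero_iff] at hx ⊢
    obtain ⟨t, ht⟩ := hx
    exact ⟨t, r1 _ (by rw [← ht]; ring)⟩
  · obtain ⟨⟨a, s⟩, rfl⟩ := IsLocalization.mk'_surjective 𝔪.primeCompl x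
    have e : Ideal.span {algebraMap B (Localization.AtPrime 𝔪) g1} =
        (Ideal.span {g1}).map (algebraMap B (Localization.AtPrime 𝔪)) := by
      rw [Ideal.map_span, Set.image_singleton]
    simp only [IsLocalization.mul_mk'_eq_mk'_of_mul, ← Ideal.mem_span_singleton, e,
      IsLocalization.mk'_mem_map_algebraMap_iff] at hx ⊢
    obtain ⟨t, ht, ht'⟩ := hx
    exact ⟨t, ht, r2 _ (by rwa [mul_left_comm])⟩
  · refine Submodule.le_of_le_smul_of_le_jacobson_bot (IsNoetherian.noetherian _)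
      (IsLocalRing.maximalIdeal_le_jacobson _) ?_ (show x ∈ IsLocalRing.maximalIdeal _ from hx)
    have := Ideal.map_mono (f := algebraMap B (Localization.AtPrime 𝔪)) hm
    rwa [Ideal.map_sup, Ideal.map_pow, Localization.AtPrime.map_eq_maximalIdeal, Ideal.map_span,
      Set.image_pair, sq] at this

theorem taylor_Loc {m : ℕ} (v : Fin m → ℂ) (h : P m) :
    h - C (eval v h) - ∑ l, C (eval v (pderiv l h)) * (X l - C (v l)) ∈
      RingHom.ker (eval v : P m →+* ℂ) ^ 2 := by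
  classical
  have hy : ∀ l, (X l - C (v l) : P m) ∈ RingHom.ker (eval v : P m →+* ℂ) := fun l => by
    simp [RingHom.mem_ker]
  induction h using MvPolynomial.induction_on with
  | C a => simp
  | add p q hp hq =>
    have := add_mem hp hq
    simp only [map_add, add_mul, Finset.sum_add_distrib]
    refine (congrArg (· ∈ _) ?_).mp this
    ring
  | mul_X p n hp =>
    have h1 : (∑ l, C (eval v (pderiv l p)) * (X l - C (v l)) : P m) * (X n - C (v n)) ∈
        RingHom.ker (eval v : P m →+* ℂ) ^ 2 := by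
      rw [sq]
      exact Ideal.mul_mem_mul (Ideal.sum_mem _ fun l _ => Ideal.mul_mem_left _ _ (hy l)) (hy n)
    have h2 : (∑ l, C (eval v (pderiv l (p * X n))) * (X l - C (v l)) : P m) =
        C (v n) * ∑ l, C (eval v (pderiv l p)) * (X l - C (v l)) +
          C (eval v p) * (X n - C (v n)) := by
      have : ∀ l, (C (eval v (pderiv l (p * X n))) * (X l - C (v l)) : P m) =
          C (v n) * (C (eval v (pderiv l p)) * (X l - C (v l))) +
            if n = l then C (eval v p) * (X l - C (v l)) else 0 := fun l => by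
        rw [pderiv_mul, pderiv_X, Pi.single_apply]
        split_ifs <;> simp <;> ring
      simp only [this, Finset.sum_add_distrib, Finset.sum_ite_eq, Finset.mem_univ, if_true,
        Finset.mul_sum]
    have := add_mem (Ideal.mul_mem_right (X n) _ hp) h1
    rw [h2, map_mul, eval_X, map_mul]
    refine (congrArg (· ∈ _) ?_).mp this
    ring

theorem cot_Loc {m : ℕ} {ι : Type} [Fintype ι] [DecidableEq ι] (e : ι ≃ Fin m) (v : Fin m → ℂ)
    (f : ι → P m) (N : Ideal (P m)) (hf : ∀ i, f i ∈ N) (hv : ∀ i, eval v (f i) = 0)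
    (hd : (Matrix.of fun i j => eval v (pderiv (e j) (f i))).det ≠ 0) :
    RingHom.ker (eval v : P m →+* ℂ) ≤ N ⊔ RingHom.ker (eval v : P m →+* ℂ) ^ 2 := by
  set M : Matrix ι ι ℂ := Matrix.of fun i j => eval v (pderiv (e j) (f i)) with hM
  have h1 : ∀ i, (∑ j, C (M i j) * (X (e j) - C (v (e j))) : P m) ∈
      N ⊔ RingHom.ker (eval v : P m →+* ℂ) ^ 2 := fun i => by
    have := sub_mem (Ideal.mem_sup_left (hf i)) (Ideal.mem_sup_right (taylor_Loc v (f i)))
    rwa [hv, map_zero, sub_zero, sub_sub_cancel, ← e.sum_comp] at this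
  have h2 : ∀ a, (X a - C (v a) : P m) ∈ N ⊔ RingHom.ker (eval v : P m →+* ℂ) ^ 2 := fun a => by
    obtain ⟨a, rfl⟩ := e.surjective a
    have h3 : (∑ i, C (M⁻¹ a i) * ∑ j, C (M i j) * (X (e j) - C (v (e j))) : P m) =
        X (e a) - C (v (e a)) := by
      simp only [Finset.mul_sum, ← mul_assoc, ← map_mul]
      rw [Finset.sum_comm]
      simp only [← Finset.sum_mul, ← map_sum, ← Matrix.mul_apply,
        Matrix.nonsing_inv_mul M (Ne.isUnit hd), Matrix.one_apply]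
      rw [Finset.sum_eq_single a (fun b _ hb => by simp [hb.symm]) (by simp)]
      simp
    rw [← h3]
    exact Ideal.sum_mem _ fun i _ => Ideal.mul_mem_left _ _ (h1 i)
  intro h hh
  have := add_mem (Ideal.mem_sup_right (taylor_Loc v h)) (Ideal.sum_mem _ (t := Finset.univ)
    fun l _ => Ideal.mul_mem_left _ (C (eval v (pderiv l h))) (h2 l))
  rwa [RingHom.mem_ker.1 hh, map_zero, sub_zero, sub_add_cancel] at this

/-- If the Jacobian determinant does not vanish at `v`, the functions generate the maximal ideal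
modulo its square. -/
theorem cotangent {m c r : ℕ} (Q : PD m 4 c r) (J : Fin c → Fin r) {v : Fin m → ℂ}
    (hv : ∀ j, eval v (Q.F j) = 0) {u1 u2 : P m} (h1 : eval v u1 = 0) (h2 : eval v u2 = 0)
    {k l : Fin m} (h : eval v (Q.jd J ![gd u1, gd u2, ue k, ue l]) ≠ 0) :
    RingHom.ker (eval v : P m →+* ℂ) ≤ Q.I ⊔ Ideal.span {u1, u2} ⊔
      Ideal.span {X k - C (v k), X l - C (v l)} ⊔ RingHom.ker (eval v : P m →+* ℂ) ^ 2 := by
  refine cot_Loc Q.eqv v (Sum.elim (fun a => Q.F (J a)) ![u1, u2, X k - C (v k), X l - C (v l)])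
    _ ?_ ?_ ?_
  · rintro (a | i)
    · exact Ideal.mem_sup_left (Ideal.mem_sup_left (Ideal.subset_span ⟨_, rfl⟩))
    · fin_cases i
      · exact Ideal.mem_sup_left (Ideal.mem_sup_right (Ideal.subset_span (by simp)))
      · exact Ideal.mem_sup_left (Ideal.mem_sup_right (Ideal.subset_span (by simp)))
      · exact Ideal.mem_sup_right (Ideal.subset_span (by simp))
      · exact Ideal.mem_sup_right (Ideal.subset_span (by simp))
  · rintro (a | i)
    · exact hv _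
    · fin_cases i <;> simp [h1, h2]
  · rw [PD.jd, RingHom.map_det] at h
    refine (congrArg (fun M => Matrix.det M ≠ 0) ?_).mp h
    ext i j
    rcases i with a | i
    · rfl
    · fin_cases i <;> simp [gd, ue, pderiv_X, Pi.single_apply, eq_comm]

end

end Pool.Agent.MP_1c689d_ag.K0.Al

end

section

/-! Dimension counts. -/

set_option autoImplicit false

open MvPolynomial

namespace Pool.Agent.MP_1c689d_ag.K0.Al

noncomputable section

theorem rank_La {U V : Type} [AddCommGroup U] [Module ℂ U] [AddCommGroup V] [Module ℂ V]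
    (T : Submodule ℂ U) [FiniteDimensional ℂ T] (f : U →ₗ[ℂ] V) :
    Module.finrank ℂ (T.map f) + Module.finrank ℂ ↥(T ⊓ LinearMap.ker f) = Module.finrank ℂ T := by
  rw [← LinearMap.finrank_range_add_finrank_ker (f.domRestrict T), LinearMap.range_domRestrict,
    LinearMap.ker_domRestrict, ← Submodule.map_comap_subtype, Submodule.finrank_map_subtype_eq]

theorem prod_La {W : Type} [AddCommGroup W] [Module ℂ W] (Y : Submodule ℂ W)
    [FiniteDimensional ℂ Y] :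
    FiniteDimensional ℂ (Y.prod (⊤ : Submodule ℂ ℂ)) ∧
      Module.finrank ℂ (Y.prod (⊤ : Submodule ℂ ℂ)) = Module.finrank ℂ Y + 1 := by
  have e : LinearMap.range (Y.subtype.prodMap (LinearMap.id : ℂ →ₗ[ℂ] ℂ)) =
      Y.prod (⊤ : Submodule ℂ ℂ) := by
    refine le_antisymm ?_ fun u hu => ⟨(⟨u.1, hu.1⟩, u.2), rfl⟩
    rintro _ ⟨u, rfl⟩
    exact ⟨u.1.2, trivial⟩
  have hinj : Function.Injective (Y.subtype.prodMap (LinearMap.id : ℂ →ₗ[ℂ] ℂ)) :=
    Y.injective_subtype.prodMap Function.injective_id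
  rw [← e, LinearMap.finrank_range_of_inj hinj, Module.finrank_prod, Module.finrank_self]
  exact ⟨inferInstance, rfl⟩

theorem la1 {S W Z : Type} [AddCommGroup S] [Module ℂ S] [AddCommGroup W] [Module ℂ W]
    [AddCommGroup Z] [Module ℂ Z] (π : S →ₗ[ℂ] W) (β : S →ₗ[ℂ] Z) (W0 : Submodule ℂ W)
    (Z0 : Submodule ℂ Z) [FiniteDimensional ℂ W0] [FiniteDimensional ℂ Z0] (h1 : ∀ s, β s ∈ Z0)
    (h2 : ∀ s, β s = 0 → π s ∈ W0) : FiniteDimensional ℂ (LinearMap.range π) ∧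
      Module.finrank ℂ (LinearMap.range π) ≤ Module.finrank ℂ W0 + Module.finrank ℂ Z0 := by
  obtain ⟨g, hg⟩ := β.rangeRestrict.exists_rightInverse_of_surjective β.range_rangeRestrict
  have hle : LinearMap.range β ≤ Z0 := by
    rintro _ ⟨s, rfl⟩
    exact h1 s
  have := Submodule.finiteDimensional_of_le hle
  have key : LinearMap.range π ≤ W0 ⊔ LinearMap.range (π ∘ₗ g) := by
    rintro _ ⟨s, rfl⟩
    have e : β (g (β.rangeRestrict s)) = β s :=
      congrArg Subtype.val (LinearMap.congr_fun hg (β.rangeRestrict s))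
    refine Submodule.mem_sup.2 ⟨π (s - g (β.rangeRestrict s)), h2 _ ?_,
      π (g (β.rangeRestrict s)), ⟨_, rfl⟩, ?_⟩
    · rw [map_sub, e, sub_self]
    · rw [map_sub, sub_add_cancel]
  refine ⟨Submodule.finiteDimensional_of_le key, (Submodule.finrank_mono key).trans
    ((Submodule.finrank_add_le_finrank_add_finrank _ _).trans (Nat.add_le_add_left ?_ _))⟩
  exact (LinearMap.finrank_range_le _).trans (Submodule.finrank_mono hle)

/-- Finitely many conditions, each of which costs one dimension. -/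
theorem la2 {S W Z ι : Type} [AddCommGroup S] [Module ℂ S] [AddCommGroup W] [Module ℂ W]
    [AddCommGroup Z] [Module ℂ Z] (π : S →ₗ[ℂ] W) (E : Finset ι) (β : S →ₗ[ℂ] Z) (z : ι → Z)
    (M : ι → Submodule ℂ Z) (W0 : Submodule ℂ W) [FiniteDimensional ℂ W0]
    (h1 : ∀ s, ∀ x ∈ E, ∃ t : ℂ, β s - t • z x ∈ M x)
    (h2 : ∀ s, (∀ x ∈ E, β s ∈ M x) → π s ∈ W0) : FiniteDimensional ℂ (LinearMap.range π) ∧
      Module.finrank ℂ (LinearMap.range π) ≤ Module.finrank ℂ W0 + E.card := by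
  classical
  let β' : S →ₗ[ℂ] ∀ x : E, Z ⧸ M x := LinearMap.pi fun x => (M x).mkQ ∘ₗ β
  let γ : (E → ℂ) →ₗ[ℂ] ∀ x : E, Z ⧸ M x :=
    LinearMap.pi fun x => (LinearMap.proj x).smulRight ((M x).mkQ (z x))
  obtain ⟨k1, k2⟩ := la1 π β' W0 (LinearMap.range γ) (fun s => by
      choose t ht using fun x : E => h1 s x x.2
      refine ⟨t, funext fun x => ?_⟩
      have e := LinearMap.mem_ker.1 ((M x).ker_mkQ.ge (ht x))
      rw [map_sub, map_smul, sub_eq_zero] at e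
      exact e.symm)
    fun s hs => h2 s fun x hx => (M x).ker_mkQ.le (congrFun hs ⟨x, hx⟩)
  refine ⟨k1, k2.trans (Nat.add_le_add_left ((LinearMap.finrank_range_le γ).trans ?_) _)⟩
  rw [Module.finrank_fintype_fun_eq_card, Fintype.card_coe]

theorem la3 {U W V : Type} [AddCommGroup U] [Module ℂ U] [AddCommGroup W] [Module ℂ W]
    [AddCommGroup V] [Module ℂ V] (μ : U →ₗ[ℂ] V) (μ' : W →ₗ[ℂ] V) (J : Submodule ℂ V)
    (T U0 : Submodule ℂ U) (A A0 : Submodule ℂ W) [FiniteDimensional ℂ U0]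
    [FiniteDimensional ℂ A0] (hT : T ≤ U0) (hA : A ≤ A0) (h1 : ∀ a ∈ A, μ' a ∈ J)
    (h2 : ∀ u ∈ T, ∃ a ∈ A0, μ u + μ' a ∈ J) :
    Module.finrank ℂ T + Module.finrank ℂ A ≤
      Module.finrank ℂ ↥(U0 ⊓ J.comap μ) + Module.finrank ℂ A0 := by
  have := Submodule.finiteDimensional_of_le hT
  have := Submodule.finiteDimensional_of_le (inf_le_left : U0 ⊓ J.comap μ ≤ U0)
  have := Submodule.finiteDimensional_of_le (inf_le_left : A0 ⊓ LinearMap.ker (J.mkQ ∘ₗ μ') ≤ A0)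
  have e1 := rank_La T (J.mkQ ∘ₗ μ)
  have e2 := rank_La A0 (J.mkQ ∘ₗ μ')
  have k1 : T.map (J.mkQ ∘ₗ μ) ≤ A0.map (J.mkQ ∘ₗ μ') := by
    rintro _ ⟨u, hu, rfl⟩
    obtain ⟨a, ha, h⟩ := h2 u hu
    refine ⟨-a, A0.neg_mem ha, ?_⟩
    have e := LinearMap.mem_ker.1 (J.ker_mkQ.ge h)
    rw [map_add] at e
    rw [map_neg]
    exact (eq_neg_of_add_eq_zero_left e).symm
  have k2 : T ⊓ LinearMap.ker (J.mkQ ∘ₗ μ) ≤ U0 ⊓ J.comap μ := fun u hu =>
    ⟨hT hu.1, J.ker_mkQ.le hu.2⟩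
  have k3 : A ≤ A0 ⊓ LinearMap.ker (J.mkQ ∘ₗ μ') := fun a ha => ⟨hA ha, J.ker_mkQ.ge (h1 a ha)⟩
  have l1 := Submodule.finrank_mono k1
  have l2 := Submodule.finrank_mono k2
  have l3 := Submodule.finrank_mono k3
  omega

theorem la4 {W ι : Type} [AddCommGroup W] [Module ℂ W] (W0 Y : Submodule ℂ W)
    [FiniteDimensional ℂ W0] (hY : Y ≤ W0) (Γ : Finset ι) (y : ι → W) (hy : ∀ x ∈ Γ, y x ∈ W0)
    (h : ∀ t : ι → ℂ, ∑ x ∈ Γ, t x • y x ∈ Y → ∀ x ∈ Γ, t x = 0) :
    Module.finrank ℂ Y + Γ.card ≤ Module.finrank ℂ W0 := by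
  classical
  let f : (Γ → ℂ) →ₗ[ℂ] W := Fintype.linearCombination ℂ fun x : Γ => y x
  have key : ∀ t, f t ∈ Y → t = 0 := fun t ht => by
    have e : ∑ x ∈ Γ, (if hx : x ∈ Γ then t ⟨x, hx⟩ else 0) • y x = f t := by
      rw [← Finset.sum_coe_sort Γ]
      exact Finset.sum_congr rfl fun x _ => by rw [dif_pos x.2]
    funext x
    have := h (fun x => if hx : x ∈ Γ then t ⟨x, hx⟩ else 0) (e ▸ ht) x x.2
    rwa [dif_pos x.2] at this
  have hinj : Function.Injective f :=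
    (injective_iff_map_eq_zero f).2 fun t ht => key t (ht ▸ Y.zero_mem)
  have h0 : Y ⊓ LinearMap.range f = ⊥ := by
    refine eq_bot_iff.2 ?_
    rintro _ ⟨h1, t, rfl⟩
    rw [key t h1, map_zero]
    exact Submodule.zero_mem _
  have hle : Y ⊔ LinearMap.range f ≤ W0 := by
    refine sup_le hY ?_
    rintro _ ⟨t, rfl⟩
    exact W0.sum_mem fun x _ => W0.smul_mem _ (hy x x.2)
  have := Submodule.finiteDimensional_of_le hY
  have e := Submodule.finrank_sup_add_finrank_inf_eq Y (LinearMap.range f)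
  rw [h0, finrank_bot, add_zero, LinearMap.finrank_range_of_inj hinj,
    Module.finrank_fintype_fun_eq_card, Fintype.card_coe] at e
  rw [← e]
  exact Submodule.finrank_mono hle

theorem la5 {W ι : Type} [AddCommGroup W] [Module ℂ W] (Y : Submodule ℂ W) (E : Finset ι)
    (M : ι → Submodule ℂ W) (h : ∀ x ∈ E, ∃ y ∈ Y, y ∉ M x) : ∃ y ∈ Y, ∀ x ∈ E, y ∉ M x := by
  obtain ⟨y, hy⟩ := Submodule.exists_forall_notMem_of_forall_ne_top
    (fun x : E => (M x).comap Y.subtype) fun x e => by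
      obtain ⟨y, h1, h2⟩ := h x x.2
      exact h2 (e.ge (Submodule.mem_top (x := ⟨y, h1⟩)))
  exact ⟨y, y.2, fun x hx => hy ⟨x, hx⟩⟩

theorem la6 {W : Type} [AddCommGroup W] [Module ℂ W] (T : Submodule ℂ (W × ℂ))
    (Y : Submodule ℂ W) [FiniteDimensional ℂ Y] (h : ∀ u ∈ T, u.1 ∈ Y) :
    FiniteDimensional ℂ T ∧ Module.finrank ℂ T ≤ Module.finrank ℂ Y + 1 := by
  obtain ⟨k1, k2⟩ := prod_La Y
  have hle : T ≤ Y.prod (⊤ : Submodule ℂ ℂ) := fun u hu => ⟨h u hu, trivial⟩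
  exact ⟨Submodule.finiteDimensional_of_le hle, k2 ▸ Submodule.finrank_mono hle⟩

theorem finrank_prod_top {W : Type} [AddCommGroup W] [Module ℂ W] (Y : Submodule ℂ W)
    [FiniteDimensional ℂ Y] :
    FiniteDimensional ℂ (Y.prod (⊤ : Submodule ℂ ℂ)) ∧
      Module.finrank ℂ (Y.prod (⊤ : Submodule ℂ ℂ)) = Module.finrank ℂ Y + 1 := by
  exact prod_La Y

/-- Injectivity persists in a pencil, outside finitely many values. -/
theorem la7 {S Y : Type} [AddCommGroup S] [Module ℂ S] [FiniteDimensional ℂ S] [AddCommGroup Y]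
    [Module ℂ Y] (Θ0 Θ1 : S →ₗ[ℂ] Y) (h : Function.Injective Θ0) :
    ∃ E : Finset ℂ, ∀ t ∉ E, Function.Injective (Θ0 + t • Θ1) := by
  classical
  obtain ⟨G, hG⟩ := Θ0.exists_leftInverse_of_injective (LinearMap.ker_eq_bot.2 h)
  refine ⟨(Module.End.finite_hasEigenvalue (G ∘ₗ Θ1)).toFinset.image fun a => -a⁻¹,
    fun t ht => (injective_iff_map_eq_zero _).2 fun s hs => ?_⟩
  by_contra h0
  have e : s + t • G (Θ1 s) = 0 := by
    have := congrArg G hs
    rwa [LinearMap.add_apply, LinearMap.smul_apply, map_add, map_smul, map_zero,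
      show G (Θ0 s) = s from LinearMap.congr_fun hG s] at this
  have ht0 : t ≠ 0 := by
    rintro rfl
    rw [zero_smul, add_zero] at e
    exact h0 e
  refine ht (Finset.mem_image.2 ⟨-t⁻¹, (Set.Finite.mem_toFinset _).2 ?_, by
    rw [inv_neg, inv_inv, neg_neg]⟩)
  refine Module.End.hasEigenvalue_of_hasEigenvector (x := s)
    ⟨Module.End.mem_eigenspace_iff.2 ?_, h0⟩
  have e' := congrArg (fun v => (-t⁻¹) • v) (eq_neg_of_add_eq_zero_left e)
  simp only [neg_smul, smul_neg, neg_neg, inv_smul_smul₀ ht0] at e'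
  rw [neg_smul, e']
  rfl

end

end Pool.Agent.MP_1c689d_ag.K0.Al

end

section

/-! Counting lemmas. -/

set_option autoImplicit false

open MvPolynomial

namespace Pool.Agent.MP_1c689d_ag.K0.Al

noncomputable section

theorem tri_Cnt (j : ℕ) : 2 * (j * (j + 1) / 2) = j * (j + 1) :=
  Nat.mul_div_cancel' (Nat.even_mul_succ_self j).two_dvd

theorem step_Cnt {δ χ : ℕ} (h6 : 6 ≤ δ) (a b c : ℕ) :
    6 * c + hh δ χ a + hh δ χ b ≤ hh δ χ (a + b + c) + χ := by
  have h : a * (a + 1) / 2 + b * (b + 1) / 2 + c ≤ (a + b + c) * (a + b + c + 1) / 2 := by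
    nlinarith [tri_Cnt a, tri_Cnt b, tri_Cnt (a + b + c), Nat.le_mul_self c]
  unfold hh
  nlinarith [Nat.mul_le_mul_left δ h, Nat.mul_le_mul_right c h6]

theorem first_Cnt {δ χ : ℕ} (h6 : 6 ≤ δ) (a b c : ℕ) (h0 : 0 < c ∨ 0 < a ∧ 0 < b) :
    6 * c + hh δ χ a + hh δ χ b + δ * (a + b + c) ≤ hh δ χ (a + b + c) + χ + δ := by
  have h : a * (a + 1) / 2 + b * (b + 1) / 2 + c + (a + b + c) ≤
      (a + b + c) * (a + b + c + 1) / 2 + 1 := by
    have h1 := tri_Cnt a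
    have h2 := tri_Cnt b
    have h3 := tri_Cnt (a + b + c)
    generalize a * (a + 1) / 2 = x at *
    generalize b * (b + 1) / 2 = y at *
    generalize (a + b + c) * (a + b + c + 1) / 2 = z at *
    rcases h0 with h0 | ⟨h0, h0'⟩
    · obtain ⟨k, rfl⟩ := Nat.exists_eq_add_of_lt h0
      nlinarith [Nat.le_mul_self k]
    · obtain ⟨k, rfl⟩ := Nat.exists_eq_add_of_lt h0
      obtain ⟨l, rfl⟩ := Nat.exists_eq_add_of_lt h0'
      nlinarith
  unfold hh
  nlinarith [Nat.mul_le_mul_left δ h, Nat.mul_le_mul_right c h6]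

theorem len_Cnt {α : Type} (u : α → Fin 3) (l : List α) :
    (l.countP fun b => decide (u b = 1)) + (l.countP fun b => decide (u b = 0)) +
      (l.countP fun b => decide (u b = 2)) = l.length := by
  induction l with
  | nil => rfl
  | cons b l ih =>
    simp only [List.countP_cons, List.length_cons, ← ih]
    generalize u b = v
    fin_cases v <;> simp <;> omega

theorem fil_Cnt {α : Type} (h : ℕ → ℕ) (col : α → α → Fin 3) (v : Fin 3) (a : α) (l : List α) :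
    fil h (fun a b => col a b ≠ v) (a :: l) =
      h (l.countP fun b => decide (col a b = v)) + fil h (fun a b => col a b ≠ v) l := by
  rw [fil, List.countP_congr (q := fun b => decide (col a b = v)) fun b _ => by simp]

theorem two_Cnt {α : Type} [DecidableEq α] (col : α → α → Fin 3) (hs : ∀ a b, col a b = col b a)
    (a : α) (l : List α) :
    ((a :: l).toFinset.offDiag.filter fun x => col x.1 x.2 = 2).card ≤
      (l.toFinset.offDiag.filter fun x => col x.1 x.2 = 2).card +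
        2 * l.countP fun b => decide (col a b = 2) := by
  set F := (l.filter fun b => decide (col a b = 2)).toFinset with hF
  have h1 : F.card ≤ l.countP fun b => decide (col a b = 2) := by
    rw [List.countP_eq_length_filter]
    exact List.toFinset_card_le _
  have h2 : ((a :: l).toFinset.offDiag.filter fun x => col x.1 x.2 = 2) ⊆
      (l.toFinset.offDiag.filter fun x => col x.1 x.2 = 2) ∪
        (F.image (fun b => (a, b)) ∪ F.image fun b => (b, a)) := by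
    rintro ⟨x, y⟩ hx
    simp only [Finset.mem_filter, Finset.mem_offDiag, List.mem_toFinset, List.mem_cons] at hx
    obtain ⟨⟨h | h, h' | h', hne⟩, hc⟩ := hx
    · exact (hne (h.trans h'.symm)).elim
    · subst h
      simp [hF, h', hc]
    · subst h'
      simp [hF, h, hs y x, hc]
    · simp [h, h', hne, hc]
  have h3 := (Finset.card_le_card h2).trans ((Finset.card_union_le _ _).trans
    (Nat.add_le_add_left ((Finset.card_union_le _ _).trans
      (Nat.add_le_add Finset.card_image_le Finset.card_image_le)) _))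
  omega

theorem all_Cnt {α : Type} [DecidableEq α] {δ χ : ℕ} (h6 : 6 ≤ δ) (col : α → α → Fin 3)
    (hs : ∀ a b, col a b = col b a) (l : List α) :
    3 * (l.toFinset.offDiag.filter fun x => col x.1 x.2 = 2).card +
      fil (hh δ χ) (fun a b => col a b ≠ 1) l + fil (hh δ χ) (fun a b => col a b ≠ 0) l ≤
        ∑ j ∈ Finset.range l.length, hh δ χ j + l.length * χ := by
  induction l with
  | nil => simp [fil]
  | cons a l ih =>
    have h1 := two_Cnt col hs a l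
    rw [fil_Cnt, fil_Cnt, List.length_cons, Finset.sum_range_succ]
    have h2 := len_Cnt (col a) l
    have h3 := step_Cnt (χ := χ) h6 (l.countP fun b => decide (col a b = 1))
      (l.countP fun b => decide (col a b = 0)) (l.countP fun b => decide (col a b = 2))
    rw [h2] at h3
    rw [add_mul]
    omega

theorem cnt1 {α : Type} [DecidableEq α] {δ χ : ℕ} (hχ : χ < δ) (h6 : 6 ≤ δ) (A : Finset α)
    (hA : 2 * δ + 10 ≤ A.card) (col : α → α → Fin 3) (hs : ∀ a b, col a b = col b a)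
    (h0 : ∃ a ∈ A, ∃ b ∈ A, a ≠ b ∧ col a b ≠ 0) (h1 : ∃ a ∈ A, ∃ b ∈ A, a ≠ b ∧ col a b ≠ 1) :
    ∃ l : List α, l.Nodup ∧ l.toFinset = A ∧
      1 + 3 * (A.offDiag.filter fun x => col x.1 x.2 = 2).card +
        fil (hh δ χ) (fun a b => col a b ≠ 1) l + fil (hh δ χ) (fun a b => col a b ≠ 0) l ≤
          ∑ j ∈ Finset.range A.card, hh δ χ j := by
  have hv : ∃ a ∈ A, (∃ b ∈ A.erase a, col a b = 2) ∨
      (∃ b ∈ A.erase a, col a b = 1) ∧ ∃ b ∈ A.erase a, col a b = 0 := by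
    obtain ⟨a, ha, b, hb, hab, e⟩ := h0
    obtain ⟨c, hc, d, hd, hcd, e'⟩ := h1
    have h3 : ∀ v : Fin 3, v = 0 ∨ v = 1 ∨ v = 2 := by decide
    have hb' : b ∈ A.erase a := Finset.mem_erase.2 ⟨hab.symm, hb⟩
    have hd' : d ∈ A.erase c := Finset.mem_erase.2 ⟨hcd.symm, hd⟩
    rcases h3 (col a b) with u | u | u
    · exact (e u).elim
    · rcases h3 (col c d) with u' | u' | u'
      · by_cases hac : a = c
        · subst hac
          exact ⟨a, ha, Or.inr ⟨⟨b, hb', u⟩, d, hd', u'⟩⟩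
        have hc' : c ∈ A.erase a := Finset.mem_erase.2 ⟨Ne.symm hac, hc⟩
        rcases h3 (col a c) with w | w | w
        · exact ⟨a, ha, Or.inr ⟨⟨b, hb', u⟩, c, hc', w⟩⟩
        · exact ⟨c, hc, Or.inr ⟨⟨a, Finset.mem_erase.2 ⟨hac, ha⟩, (hs c a).trans w⟩, d, hd', u'⟩⟩
        · exact ⟨a, ha, Or.inl ⟨c, hc', w⟩⟩
      · exact (e' u').elim
      · exact ⟨c, hc, Or.inl ⟨d, hd', u'⟩⟩
    · exact ⟨a, ha, Or.inl ⟨b, hb', u⟩⟩
  obtain ⟨a, ha, hv⟩ := hv
  set l := (A.erase a).toList with hl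
  have hm : ∀ b, b ∈ l ↔ b ∈ A.erase a := fun b => Finset.mem_toList
  have hlen : l.length + 1 = A.card := by
    rw [hl, Finset.length_toList, Finset.card_erase_add_one ha]
  have hA' : (a :: l).toFinset = A := by
    rw [List.toFinset_cons, hl, Finset.toList_toFinset, Finset.insert_erase ha]
  refine ⟨a :: l, List.nodup_cons.2 ⟨fun h => Finset.notMem_erase a A ((hm a).1 h),
    Finset.nodup_toList _⟩, hA', ?_⟩
  have h1 := two_Cnt col hs a l
  have ih := all_Cnt (χ := χ) h6 col hs l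
  rw [hA'] at h1
  rw [fil_Cnt, fil_Cnt, ← hlen, Finset.sum_range_succ]
  have h2 := len_Cnt (col a) l
  have h3 := first_Cnt (χ := χ) h6 (l.countP fun b => decide (col a b = 1))
    (l.countP fun b => decide (col a b = 0)) (l.countP fun b => decide (col a b = 2)) (by
      rcases hv with ⟨b, hb, e⟩ | ⟨⟨b, hb, e⟩, c, hc, e'⟩
      · exact Or.inl (List.countP_pos_iff.2 ⟨b, (hm b).2 hb, by simp [e]⟩)
      · exact Or.inr ⟨List.countP_pos_iff.2 ⟨b, (hm b).2 hb, by simp [e]⟩,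
          List.countP_pos_iff.2 ⟨c, (hm c).2 hc, by simp [e']⟩⟩)
  rw [h2] at h3
  have h4 : l.length * χ + χ + δ + 1 ≤ δ * l.length := by
    have := Nat.mul_le_mul_left l.length (Nat.succ_le_of_lt hχ)
    rw [Nat.mul_succ, mul_comm _ δ] at this
    omega
  omega

theorem cnt2 {α : Type} [DecidableEq α] {δ χ : ℕ} (hχ : χ < δ) (A : Finset α)
    (hA : 2 * δ + 10 ≤ A.card) {i : α} (hi : i ∈ A) (bad : α → α → Prop)
    (hb : ∀ j ∈ A.erase i, ∀ k ∈ A.erase i, ∀ k' ∈ A.erase i, ∀ j' ∈ A.erase i, ∀ n ∈ A.erase i,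
      ∀ n' ∈ A.erase i, k ≠ j → k' ≠ j → k ≠ k' → n ≠ j' → n' ≠ j' → n ≠ n' → bad j k →
        bad j k' → bad j' n → bad j' n' → j = j') :
    ∃ Γ : Finset (α × α), A.card * χ + 1 ≤ Γ.card ∧
      (∀ x ∈ Γ, x.1 ∈ A.erase i ∧ x.2 ∈ A.erase i ∧ x.1 ≠ x.2 ∧ ¬ bad x.1 x.2) ∧
      ∀ x ∈ Γ, ∀ y ∈ Γ, ({x.1, x.2} : Finset α) = {y.1, y.2} → x = y := by
  classical
  have hm : (A.erase i).card + 1 = A.card := Finset.card_erase_add_one hi
  generalize A.erase i = B at hb hm ⊢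
  obtain ⟨f, hf⟩ := Set.countable_iff_exists_injOn.1 B.countable_toSet
  set P := B.offDiag.filter fun x => f x.1 < f x.2 with hP
  set D := B.offDiag.filter fun x => bad x.1 x.2 with hD
  set J := B.filter fun j => ∃ k ∈ B, ∃ k' ∈ B, k ≠ j ∧ k' ≠ j ∧ k ≠ k' ∧ bad j k ∧ bad j k'
    with hJ
  have h1 : B.offDiag ⊆ P ∪ P.image Prod.swap := by
    rintro ⟨x, y⟩ hx
    obtain ⟨a, b, c⟩ := Finset.mem_offDiag.1 hx
    rcases lt_trichotomy (f x) (f y) with h | h | h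
    · exact Finset.mem_union_left _ (Finset.mem_filter.2 ⟨hx, h⟩)
    · exact (c (hf a b h)).elim
    · exact Finset.mem_union_right _ (Finset.mem_image.2 ⟨(y, x),
        Finset.mem_filter.2 ⟨Finset.mem_offDiag.2 ⟨b, a, Ne.symm c⟩, h⟩, rfl⟩)
  have h2 := (Finset.card_le_card h1).trans ((Finset.card_union_le _ _).trans
    (Nat.add_le_add_left Finset.card_image_le _))
  rw [Finset.offDiag_card] at h2
  have h3 : J.card ≤ 1 := by
    refine Finset.card_le_one.2 fun j hj j' hj' => ?_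
    obtain ⟨a, k, a1, k', a2, a3, a4, a5, a6, a7⟩ := Finset.mem_filter.1 hj
    obtain ⟨b, n, b1, n', b2, b3, b4, b5, b6, b7⟩ := Finset.mem_filter.1 hj'
    exact hb j a k a1 k' a2 j' b n b1 n' b2 a3 a4 a5 b3 b4 b5 a6 a7 b6 b7
  have h4 : (D.filter fun x => x.1 ∉ J).card ≤ B.card := by
    refine Finset.card_le_card_of_injOn Prod.fst (fun x hx => ?_) fun x hx y hy e => ?_
    · exact (Finset.mem_offDiag.1 (Finset.mem_filter.1 (Finset.mem_filter.1 hx).1).1).1
    · obtain ⟨a, a'⟩ := Finset.mem_filter.1 hx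
      obtain ⟨a, a0⟩ := Finset.mem_filter.1 a
      obtain ⟨a1, a2, a3⟩ := Finset.mem_offDiag.1 a
      obtain ⟨b, b0⟩ := Finset.mem_filter.1 (Finset.mem_filter.1 hy).1
      obtain ⟨b1, b2, b3⟩ := Finset.mem_offDiag.1 b
      refine Prod.ext e (by_contra fun hne => a' (Finset.mem_filter.2 ⟨a1, x.2, a2, y.2, b2,
        Ne.symm a3, fun h => b3 (e ▸ h.symm), hne, a0, e ▸ b0⟩))
  have h5 : (D.filter fun x => x.1 ∈ J).card ≤ B.card := by
    have : (D.filter fun x => x.1 ∈ J) ⊆ J ×ˢ B := fun x hx => Finset.mem_product.2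
      ⟨(Finset.mem_filter.1 hx).2,
        (Finset.mem_offDiag.1 (Finset.mem_filter.1 (Finset.mem_filter.1 hx).1).1).2.1⟩
    refine (Finset.card_le_card this).trans ?_
    rw [Finset.card_product]
    exact (Nat.mul_le_mul_right _ h3).trans (one_mul _).le
  have h6 := Finset.card_filter_add_card_filter_not (s := D) fun x => x.1 ∈ J
  have h7 := Finset.le_card_sdiff D P
  refine ⟨P \ D, ?_, fun x hx => ?_, fun x hx y hy e => ?_⟩
  · rw [← hm] at hA ⊢
    have h8 : B.card * (2 * δ + 9) ≤ B.card * B.card := Nat.mul_le_mul_left _ (by omega)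
    have h9 := Nat.mul_le_mul_left B.card (Nat.succ_le_of_lt hχ)
    rw [Nat.mul_succ] at h9
    rw [mul_add, mul_left_comm] at h8
    rw [add_mul]
    omega
  · obtain ⟨a, b⟩ := Finset.mem_sdiff.1 hx
    have a' := (Finset.mem_filter.1 a).1
    obtain ⟨a1, a2, a3⟩ := Finset.mem_offDiag.1 a'
    exact ⟨a1, a2, a3, fun h => b (Finset.mem_filter.2 ⟨a', h⟩)⟩
  · have a := (Finset.mem_filter.1 (Finset.mem_sdiff.1 hx).1).2
    have b := (Finset.mem_filter.1 (Finset.mem_sdiff.1 hy).1).2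
    have c1 : x.1 ∈ ({y.1, y.2} : Finset α) := e ▸ Finset.mem_insert_self _ _
    have c2 : x.2 ∈ ({y.1, y.2} : Finset α) :=
      e ▸ Finset.mem_insert_of_mem (Finset.mem_singleton_self _)
    rw [Finset.mem_insert, Finset.mem_singleton] at c1 c2
    rcases c1 with c1 | c1 <;> rcases c2 with c2 | c2
    · rw [c1, c2] at a
      omega
    · exact Prod.ext c1 c2
    · rw [c1, c2] at a
      omega
    · rw [c1, c2] at a
      omega

end

end Pool.Agent.MP_1c689d_ag.K0.Al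

end

section

/-! The socle of a complete intersection of powers. -/

set_option autoImplicit false

open MvPolynomial

namespace Pool.Agent.MP_1c689d_ag.K0.Al

noncomputable section

/-- An exponent vector. -/
def ex_Soc (i j a b : ℕ) : Fin 4 →₀ ℕ := Finsupp.equivFunOnFinite.symm ![i, j, a, b]

/-- A monomial. -/
def mo_Soc (i j a b : ℕ) : P 4 := X 0 ^ i * X 1 ^ j * X 2 ^ a * X 3 ^ b

theorem mono_Soc (s : Fin 4 →₀ ℕ) : monomial s (1 : ℂ) = mo_Soc (s 0) (s 1) (s 2) (s 3) := by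
  rw [monomial_eq, C_1, one_mul, Finsupp.prod_fintype _ _ fun _ => pow_zero _, Fin.prod_univ_four,
    mo_Soc]

theorem mo_eq_Soc (i j a b : ℕ) : mo_Soc i j a b = monomial (ex_Soc i j a b) 1 :=
  (mono_Soc (ex_Soc i j a b)).symm

theorem mo_mul_Soc (i j a b i' j' a' b' : ℕ) :
    mo_Soc i j a b * mo_Soc i' j' a' b' = mo_Soc (i + i') (j + j') (a + a') (b + b') := by
  simp only [mo_Soc]
  ring

theorem mo_hom_Soc (i j a b : ℕ) : (mo_Soc i j a b).IsHomogeneous (i + j + a + b) :=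
  (((isHomogeneous_X_pow 0 i).mul (isHomogeneous_X_pow 1 j)).mul (isHomogeneous_X_pow 2 a)).mul
    (isHomogeneous_X_pow 3 b)

/-- The coefficient of the top basis element. -/
def th_Soc (e : ℕ) (u w : P 4) : P 4 →ₗ[ℂ] P 4 :=
  (basisMonomials (Fin 4) ℂ).constr ℂ fun s => if s 2 % e = e - 1 ∧ s 3 % e = e - 1 then
    X 0 ^ s 0 * X 1 ^ s 1 * u ^ (s 2 / e) * w ^ (s 3 / e) else 0

variable {e N : ℕ} {u w : P 4}

theorem th_mo_Soc (i j a b : ℕ) : th_Soc e u w (mo_Soc i j a b) =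
    if a % e = e - 1 ∧ b % e = e - 1 then X 0 ^ i * X 1 ^ j * u ^ (a / e) * w ^ (b / e) else 0 := by
  rw [mo_eq_Soc]
  exact (basisMonomials (Fin 4) ℂ).constr_basis ℂ _ (ex_Soc i j a b)

theorem th_ext_Soc {y z : P 4} (h : ∀ i j a b, th_Soc e u w (y * mo_Soc i j a b) =
    z * th_Soc e u w (mo_Soc i j a b)) (x : P 4) : th_Soc e u w (y * x) = z * th_Soc e u w x :=
  LinearMap.congr_fun ((basisMonomials (Fin 4) ℂ).ext
    (f₁ := th_Soc e u w ∘ₗ LinearMap.mulLeft ℂ y) (f₂ := LinearMap.mulLeft ℂ z ∘ₗ th_Soc e u w)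
    fun s => by
      have := h (s 0) (s 1) (s 2) (s 3)
      rw [← mono_Soc] at this
      exact this) x

theorem th0_Soc (k : ℕ) (x : P 4) : th_Soc e u w (X 0 ^ k * x) = X 0 ^ k * th_Soc e u w x := by
  refine th_ext_Soc (fun i j a b => ?_) x
  rw [show X 0 ^ k * mo_Soc i j a b = mo_Soc (i + k) j a b by simp only [mo_Soc]; ring,
    th_mo_Soc, th_mo_Soc]
  split_ifs
  · ring
  · rw [mul_zero]

theorem th1_Soc (k : ℕ) (x : P 4) : th_Soc e u w (X 1 ^ k * x) = X 1 ^ k * th_Soc e u w x := by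
  refine th_ext_Soc (fun i j a b => ?_) x
  rw [show X 1 ^ k * mo_Soc i j a b = mo_Soc i (j + k) a b by simp only [mo_Soc]; ring,
    th_mo_Soc, th_mo_Soc]
  split_ifs
  · ring
  · rw [mul_zero]

theorem th2_Soc (he : 0 < e) (x : P 4) : th_Soc e u w (X 2 ^ e * x) = u * th_Soc e u w x := by
  refine th_ext_Soc (fun i j a b => ?_) x
  rw [show X 2 ^ e * mo_Soc i j a b = mo_Soc i j (a + e) b by simp only [mo_Soc]; ring,
    th_mo_Soc, th_mo_Soc, Nat.add_mod_right, Nat.add_div_right a he]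
  split_ifs
  · ring
  · rw [mul_zero]

theorem th3_Soc (he : 0 < e) (x : P 4) : th_Soc e u w (X 3 ^ e * x) = w * th_Soc e u w x := by
  refine th_ext_Soc (fun i j a b => ?_) x
  rw [show X 3 ^ e * mo_Soc i j a b = mo_Soc i j a (b + e) by simp only [mo_Soc]; ring,
    th_mo_Soc, th_mo_Soc, Nat.add_mod_right, Nat.add_div_right b he]
  split_ifs
  · ring
  · rw [mul_zero]

theorem thv_Soc {v : P 4} (hv : v ∈ Submodule.span ℂ ({X 0 ^ e, X 1 ^ e} : Set (P 4))) (x : P 4) :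
    th_Soc e u w (v * x) = v * th_Soc e u w x := by
  obtain ⟨c, c', rfl⟩ := Submodule.mem_span_pair.1 hv
  simp only [add_mul, smul_mul_assoc, map_add, map_smul, th0_Soc, th1_Soc]

theorem kill_Soc (he : 0 < e) (hN : 0 < N)
    (hu : u ∈ Submodule.span ℂ ({X 0 ^ e, X 1 ^ e} : Set (P 4)))
    (hw : w ∈ Submodule.span ℂ ({X 0 ^ e, X 1 ^ e} : Set (P 4))) {x : P 4}
    (hx : x ∈ Ideal.span ({X 2 ^ e - u, X 3 ^ e - w, X 0 ^ N, X 1 ^ N} : Set (P 4))) :
    coeff (ex_Soc (N - 1) (N - 1) 0 0) (th_Soc e u w x) = 0 := by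
  obtain ⟨a1, _, h1, rfl⟩ := Ideal.mem_span_insert.1 hx
  obtain ⟨a2, _, h2, rfl⟩ := Ideal.mem_span_insert.1 h1
  obtain ⟨a3, _, h3, rfl⟩ := Ideal.mem_span_insert.1 h2
  obtain ⟨a4, rfl⟩ := Ideal.mem_span_singleton'.1 h3
  have k : ∀ (l : Fin 4) (p : P 4), ex_Soc (N - 1) (N - 1) 0 0 l = N - 1 →
      coeff (ex_Soc (N - 1) (N - 1) 0 0) (X l ^ N * p) = 0 := fun l p hl => by
    rw [X_pow_eq_monomial, coeff_monomial_mul', if_neg]
    intro h
    have := h l
    rw [hl, Finsupp.single_eq_same] at this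
    omega
  rw [mul_comm a1, mul_comm a2, mul_comm a3, mul_comm a4, sub_mul, sub_mul]
  simp only [map_add, map_sub, th0_Soc, th1_Soc, th2_Soc he, th3_Soc he, thv_Soc hu, thv_Soc hw,
    sub_self, zero_add, coeff_add]
  rw [k 0 _ rfl, k 1 _ rfl, add_zero]

theorem mod_Soc {a a' : ℕ} (ha : a < e) (ha' : a' < e) (h : (e - 1 - a + a') % e = e - 1) :
    a' = a := by
  rcases lt_or_ge (e - 1 - a + a') e with h1 | h1
  · rw [Nat.mod_eq_of_lt h1] at h
    omega
  · rw [Nat.mod_eq_sub_mod h1, Nat.mod_eq_of_lt (by omega)] at h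
    omega

theorem pair_Soc {i j a b i' j' a' b' : ℕ} (hi : i < N) (hj : j < N) (ha : a < e) (hb : b < e)
    (ha' : a' < e) (hb' : b' < e) :
    coeff (ex_Soc (N - 1) (N - 1) 0 0) (th_Soc e u w
      (mo_Soc (N - 1 - i) (N - 1 - j) (e - 1 - a) (e - 1 - b) * mo_Soc i' j' a' b')) =
      if (i, j, a, b) = (i', j', a', b') then 1 else 0 := by
  rw [mo_mul_Soc, th_mo_Soc]
  by_cases h : (e - 1 - a + a') % e = e - 1 ∧ (e - 1 - b + b') % e = e - 1
  · obtain rfl := mod_Soc ha ha' h.1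
    obtain rfl := mod_Soc hb hb' h.2
    rw [if_pos h, Nat.div_eq_of_lt (by omega), Nat.div_eq_of_lt (by omega),
      show X 0 ^ (N - 1 - i + i') * X 1 ^ (N - 1 - j + j') * u ^ 0 * w ^ 0 =
        mo_Soc (N - 1 - i + i') (N - 1 - j + j') 0 0 by simp only [mo_Soc, pow_zero],
      mo_eq_Soc, coeff_monomial]
    refine if_congr ⟨fun k => ?_, fun k => ?_⟩ rfl rfl
    · have k0 : N - 1 - i + i' = N - 1 := DFunLike.congr_fun k 0
      have k1 : N - 1 - j + j' = N - 1 := DFunLike.congr_fun k 1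
      rw [show i = i' by omega, show j = j' by omega]
    · simp only [Prod.mk.injEq] at k
      rw [show N - 1 - i + i' = N - 1 by omega, show N - 1 - j + j' = N - 1 by omega]
  · rw [if_neg h, coeff_zero, if_neg]
    intro k
    simp only [Prod.mk.injEq] at k
    obtain ⟨-, -, rfl, rfl⟩ := k
    refine h ⟨?_, ?_⟩
    · rw [show e - 1 - a + a = e - 1 by omega, Nat.mod_eq_of_lt (by omega)]
    · rw [show e - 1 - b + b = e - 1 by omega, Nat.mod_eq_of_lt (by omega)]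

/-- The standard monomials of small degree. -/
def std_Soc (e N : ℕ) : Finset (ℕ × ℕ × ℕ × ℕ) :=
  (Finset.range N ×ˢ Finset.range N ×ˢ Finset.range e ×ˢ Finset.range e).filter
    fun s => s.1 + s.2.1 + s.2.2.1 + s.2.2.2 ≤ N

theorem mem_std_Soc {i j a b : ℕ} :
    (i, j, a, b) ∈ std_Soc e N ↔ (i < N ∧ j < N ∧ a < e ∧ b < e) ∧ i + j + a + b ≤ N := by
  simp only [std_Soc, Finset.mem_filter, Finset.mem_product, Finset.mem_range]

/-- The normal form. -/
def nf_Soc (e N : ℕ) (u w : P 4) : P 4 →ₗ[ℂ] P 4 :=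
  ∑ s ∈ std_Soc e N, (lcoeff ℂ (ex_Soc (N - 1) (N - 1) 0 0) ∘ₗ th_Soc e u w ∘ₗ
    LinearMap.mulLeft ℂ (mo_Soc (N - 1 - s.1) (N - 1 - s.2.1) (e - 1 - s.2.2.1)
      (e - 1 - s.2.2.2))).smulRight (mo_Soc s.1 s.2.1 s.2.2.1 s.2.2.2)

theorem nf_apply_Soc (x : P 4) : nf_Soc e N u w x = ∑ s ∈ std_Soc e N,
    coeff (ex_Soc (N - 1) (N - 1) 0 0) (th_Soc e u w (mo_Soc (N - 1 - s.1) (N - 1 - s.2.1)
      (e - 1 - s.2.2.1) (e - 1 - s.2.2.2) * x)) • mo_Soc s.1 s.2.1 s.2.2.1 s.2.2.2 := by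
  rw [nf_Soc, LinearMap.sum_apply]
  rfl

theorem nf_std_Soc {i j a b : ℕ} (h : (i, j, a, b) ∈ std_Soc e N) :
    nf_Soc e N u w (mo_Soc i j a b) = mo_Soc i j a b := by
  obtain ⟨⟨-, -, h3, h4⟩, -⟩ := mem_std_Soc.1 h
  rw [nf_apply_Soc, Finset.sum_eq_single_of_mem _ h]
  · obtain ⟨⟨k1, k2, -, -⟩, -⟩ := mem_std_Soc.1 h
    rw [pair_Soc k1 k2 h3 h4 h3 h4, if_pos rfl, one_smul]
  · rintro ⟨i', j', a', b'⟩ hs hne
    obtain ⟨⟨k1, k2, k3, k4⟩, -⟩ := mem_std_Soc.1 hs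
    rw [pair_Soc k1 k2 k3 k4 h3 h4, if_neg hne, zero_smul]

theorem soc0 {e N : ℕ} (he : 2 ≤ e) {u w : P 4}
    (hu : u ∈ Submodule.span ℂ ({X 0 ^ e, X 1 ^ e} : Set (P 4)))
    (hw : w ∈ Submodule.span ℂ ({X 0 ^ e, X 1 ^ e} : Set (P 4))) {d : ℤ} (hd : d ≤ N) {β : P 4}
    (hβ : β ∈ hz 4 d) (h : ∀ x ∈ hz 4 N,
      x * β ∈ Ideal.span ({X 2 ^ e - u, X 3 ^ e - w, X 0 ^ N, X 1 ^ N} : Set (P 4))) :
    β ∈ Ideal.span ({X 2 ^ e - u, X 3 ^ e - w, X 0 ^ N, X 1 ^ N} : Set (P 4)) := by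
  rcases Nat.eq_zero_or_pos N with rfl | hN
  · simpa using h 1 (mem_hz_nat.2 (isHomogeneous_one _ _))
  have kill := fun x => kill_Soc (x := x) (by omega) hN hu hw
  obtain ⟨J, hJ⟩ : ∃ J, J = Ideal.span ({X 2 ^ e - u, X 3 ^ e - w, X 0 ^ N, X 1 ^ N} : Set (P 4)) :=
    ⟨_, rfl⟩
  have g2 : X 2 ^ e - u ∈ J := hJ ▸ Ideal.subset_span (by simp)
  have g3 : X 3 ^ e - w ∈ J := hJ ▸ Ideal.subset_span (by simp)
  have g0 : X 0 ^ N ∈ J := hJ ▸ Ideal.subset_span (by simp)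
  have g1 : X 1 ^ N ∈ J := hJ ▸ Ideal.subset_span (by simp)
  rw [← hJ] at h kill ⊢
  obtain ⟨Z, hZ⟩ : ∃ Z : Submodule ℂ (P 4), ∀ x, x ∈ Z ↔ x - nf_Soc e N u w x ∈ J :=
    ⟨(J.restrictScalars ℂ).comap (LinearMap.id - nf_Soc e N u w), fun x => Iff.rfl⟩
  have hJZ : ∀ x ∈ J, x ∈ Z := fun x hx => by
    rw [hZ, nf_apply_Soc, Finset.sum_eq_zero, sub_zero]
    · exact hx
    · intro s _
      rw [kill _ (J.mul_mem_left _ hx), zero_smul]
  have red : ∀ k i j a b, a + b = k → i + j + a + b ≤ N → mo_Soc i j a b ∈ Z := by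
    intro k
    induction k using Nat.strong_induction_on with
    | _ k ih =>
      intro i j a b hk hle
      by_cases ha : e ≤ a
      · obtain ⟨a, rfl⟩ := Nat.exists_eq_add_of_le ha
        obtain ⟨c, c', hc⟩ := Submodule.mem_span_pair.1 hu
        have : mo_Soc i j (e + a) b = mo_Soc i j a b * (X 2 ^ e - u) +
            (c • mo_Soc (i + e) j a b + c' • mo_Soc i (j + e) a b) := by
          simp only [← hc, mo_Soc, smul_eq_C_mul]
          ring
        rw [this]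
        exact add_mem (hJZ _ (J.mul_mem_left _ g2)) (add_mem
          (Z.smul_mem _ (ih (a + b) (by omega) _ _ _ _ rfl (by omega)))
          (Z.smul_mem _ (ih (a + b) (by omega) _ _ _ _ rfl (by omega))))
      by_cases hb : e ≤ b
      · obtain ⟨b, rfl⟩ := Nat.exists_eq_add_of_le hb
        obtain ⟨c, c', hc⟩ := Submodule.mem_span_pair.1 hw
        have : mo_Soc i j a (e + b) = mo_Soc i j a b * (X 3 ^ e - w) +
            (c • mo_Soc (i + e) j a b + c' • mo_Soc i (j + e) a b) := by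
          simp only [← hc, mo_Soc, smul_eq_C_mul]
          ring
        rw [this]
        exact add_mem (hJZ _ (J.mul_mem_left _ g3)) (add_mem
          (Z.smul_mem _ (ih (a + b) (by omega) _ _ _ _ rfl (by omega)))
          (Z.smul_mem _ (ih (a + b) (by omega) _ _ _ _ rfl (by omega))))
      by_cases hi : N ≤ i
      · obtain ⟨i, rfl⟩ := Nat.exists_eq_add_of_le hi
        rw [show mo_Soc (N + i) j a b = mo_Soc i j a b * X 0 ^ N by simp only [mo_Soc]; ring]
        exact hJZ _ (J.mul_mem_left _ g0)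
      by_cases hj : N ≤ j
      · obtain ⟨j, rfl⟩ := Nat.exists_eq_add_of_le hj
        rw [show mo_Soc i (N + j) a b = mo_Soc i j a b * X 1 ^ N by simp only [mo_Soc]; ring]
        exact hJZ _ (J.mul_mem_left _ g1)
      rw [hZ, nf_std_Soc (mem_std_Soc.2 ⟨by omega, hle⟩), sub_self]
      exact J.zero_mem
  have hβZ : β ∈ Z := by
    rcases AFB_cases hβ with rfl | ⟨n, rfl, hn⟩
    · exact Z.zero_mem
    rw [β.as_sum]
    refine sum_mem fun s hs => ?_
    have k : s.degree = n := by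
      by_contra k
      exact mem_support_iff.1 hs (hn.coeff_eq_zero k)
    rw [Finsupp.degree_eq_sum, Fin.sum_univ_four] at k
    rw [← mul_one (coeff s β), ← smul_eq_mul, ← smul_monomial, mono_Soc]
    exact Z.smul_mem _ (red _ _ _ _ _ rfl (by omega))
  rw [hZ, nf_apply_Soc, Finset.sum_eq_zero, sub_zero] at hβZ
  · exact hβZ
  rintro ⟨i, j, a, b⟩ hs
  obtain ⟨⟨k1, k2, k3, k4⟩, k5⟩ := mem_std_Soc.1 hs
  obtain ⟨i1, j1, a1, b1, i2, j2, a2, b2, e1, e2, e3, e4, e5⟩ : ∃ i1 j1 a1 b1 i2 j2 a2 b2,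
      N - 1 - i = i1 + i2 ∧ N - 1 - j = j1 + j2 ∧ e - 1 - a = a1 + a2 ∧ e - 1 - b = b1 + b2 ∧
      i2 + j2 + a2 + b2 = N :=
    ⟨0, N - 1 - j - min (N - 1 - j) (i + 1), e - 1 - a - min (e - 1 - a) (i + 1 - (N - 1 - j)),
      e - 1 - b - (i + 1 - (N - 1 - j) - (e - 1 - a)), N - 1 - i, min (N - 1 - j) (i + 1),
      min (e - 1 - a) (i + 1 - (N - 1 - j)), i + 1 - (N - 1 - j) - (e - 1 - a), by omega⟩
  rw [kill, zero_smul]
  dsimp only
  rw [e1, e2, e3, e4, ← mo_mul_Soc, mul_assoc]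
  exact J.mul_mem_left _ (h _ (mem_hz_nat.2 (e5 ▸ mo_hom_Soc i2 j2 a2 b2)))

theorem soc {e N : ℕ} (he : 2 ≤ e) {a b : Vec}
    (hab : Submodule.span ℂ ({a, b, ev 0, ev 1} : Set Vec) = ⊤) {d : ℤ} (hd : d ≤ N) {β : P 4}
    (hβ : β ∈ hz 4 d) (h : ∀ x ∈ hz 4 N,
      x * β ∈ Ideal.span ({Lv id e a, Lv id e b, X 0 ^ N, X 1 ^ N} : Set (P 4))) :
    β ∈ Ideal.span ({Lv id e a, Lv id e b, X 0 ^ N, X 1 ^ N} : Set (P 4)) := by
  have k : ∀ v : Vec, ∃ p q : ℂ, v 2 = p * a 2 + q * b 2 ∧ v 3 = p * a 3 + q * b 3 := fun v => by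
    have hv : v ∈ Submodule.span ℂ ({a, b, ev 0, ev 1} : Set Vec) := hab ▸ Submodule.mem_top
    obtain ⟨p, _, h1, rfl⟩ := Submodule.mem_span_insert.1 hv
    obtain ⟨q, _, h2, rfl⟩ := Submodule.mem_span_insert.1 h1
    obtain ⟨r, s, rfl⟩ := Submodule.mem_span_pair.1 h2
    exact ⟨p, q, by simp [ev], by simp [ev]⟩
  obtain ⟨p1, q1, h1, h2⟩ := k (ev 2)
  obtain ⟨p2, q2, h3, h4⟩ := k (ev 3)
  have ht : (p1 * q2 - p2 * q1) * (a 2 * b 3 - a 3 * b 2) = 1 := by
    simp [ev] at h1 h2 h3 h4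
    linear_combination (-(p2 * a 3 + q2 * b 3)) * h1 - h4 + (p2 * a 2 + q2 * b 2) * h2
  obtain ⟨t, ht⟩ : ∃ t, t * (a 2 * b 3 - a 3 * b 2) = 1 := ⟨_, ht⟩
  have hC : (C t : P 4) * (C (a 2) * C (b 3) - C (a 3) * C (b 2)) = 1 := by
    rw [← C_mul, ← C_mul, ← C_sub, ← C_mul, ht, C_1]
  have ha := Lv_eq id e a
  have hb := Lv_eq id e b
  simp only [Fin.sum_univ_four, id] at ha hb
  obtain ⟨u, hu⟩ : ∃ u : P 4, u = (t * (a 3 * b 0 - b 3 * a 0)) • X 0 ^ e +
    (t * (a 3 * b 1 - b 3 * a 1)) • X 1 ^ e := ⟨_, rfl⟩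
  obtain ⟨w, hw⟩ : ∃ w : P 4, w = (t * (b 2 * a 0 - a 2 * b 0)) • X 0 ^ e +
    (t * (b 2 * a 1 - a 2 * b 1)) • X 1 ^ e := ⟨_, rfl⟩
  have hu' := Submodule.mem_span_pair.2 ⟨_, _, hu.symm⟩
  have hw' := Submodule.mem_span_pair.2 ⟨_, _, hw.symm⟩
  simp only [smul_eq_C_mul, C_mul, C_sub] at hu hw
  have e1 : X 2 ^ e - u = C t * C (b 3) * Lv id e a + -(C t * C (a 3)) * Lv id e b := by
    rw [ha, hb, hu]
    linear_combination (-X 2 ^ e) * hC
  have e2 : X 3 ^ e - w = -(C t * C (b 2)) * Lv id e a + C t * C (a 2) * Lv id e b := by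
    rw [ha, hb, hw]
    linear_combination (-X 3 ^ e) * hC
  have e3 : Lv id e a = C (a 2) * (X 2 ^ e - u) + C (a 3) * (X 3 ^ e - w) := by
    rw [e1, e2]
    linear_combination (-Lv id e a) * hC
  have e4 : Lv id e b = C (b 2) * (X 2 ^ e - u) + C (b 3) * (X 3 ^ e - w) := by
    rw [e1, e2]
    linear_combination (-Lv id e b) * hC
  have le : ∀ {x y x' y' c1 c2 c3 c4 : P 4} (S : Set (P 4)), x = c1 * x' + c2 * y' →
      y = c3 * x' + c4 * y' →
      Ideal.span (insert x (insert y S)) ≤ Ideal.span (insert x' (insert y' S)) := by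
    intro x y x' y' c1 c2 c3 c4 S hx hy
    have m1 : x' ∈ Ideal.span (insert x' (insert y' S)) := Ideal.subset_span (by simp)
    have m2 : y' ∈ Ideal.span (insert x' (insert y' S)) := Ideal.subset_span (by simp)
    rw [Ideal.span_le, Set.insert_subset_iff, Set.insert_subset_iff, hx, hy]
    exact ⟨add_mem (Ideal.mul_mem_left _ _ m1) (Ideal.mul_mem_left _ _ m2),
      add_mem (Ideal.mul_mem_left _ _ m1) (Ideal.mul_mem_left _ _ m2),
      fun z hz => Ideal.subset_span (Or.inr (Or.inr hz))⟩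
  exact le _ e1 e2 (soc0 he hu' hw' hd hβ fun x hx => le _ e3 e4 (h x hx))

end

end Pool.Agent.MP_1c689d_ag.K0.Al

end

section

/-! Generic complex numbers. -/

set_option autoImplicit false

open MvPolynomial

namespace Pool.Agent.MP_1c689d_ag.K0.Al

noncomputable section

theorem fs_Gen (K : Type) [Field K] [CharZero K] [Algebra K ℂ] : Algebra.FormallySmooth K ℂ := by
  obtain ⟨s, hs⟩ := exists_isTranscendenceBasis K ℂ
  have := hs.isAlgebraic_field
  exact .of_algebraicIndependent_of_isSeparable hs.1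

theorem der_Gen (k : Type) [Field k] [CharZero k] [Algebra k ℂ] {t : ℂ} (ht : Transcendental k t) :
    ∃ δ : Der, (∀ s : k, δ (algebraMap k ℂ s) = 0) ∧ δ t = 1 := by
  let : Algebra (Polynomial k) ℂ := (Polynomial.aeval t).toRingHom.toAlgebra
  let : Algebra (Polynomial k) (TrivSqZeroExt ℂ ℂ) :=
    (Polynomial.aeval (TrivSqZeroExt.inl t + TrivSqZeroExt.inr 1 :
      TrivSqZeroExt ℂ ℂ)).toRingHom.toAlgebra
  have : FaithfulSMul (Polynomial k) ℂ :=
    (faithfulSMul_iff_algebraMap_injective _ _).2 (transcendental_iff_injective.1 ht)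
  let : Algebra (FractionRing (Polynomial k)) ℂ := FractionRing.liftAlgebra _ _
  have := fs_Gen (FractionRing (Polynomial k))
  have : Algebra.FormallySmooth (Polynomial k) (FractionRing (Polynomial k)) :=
    .of_isLocalization (nonZeroDivisors _)
  have : Algebra.FormallySmooth (Polynomial k) ℂ := .comp _ (FractionRing (Polynomial k)) _
  let g : TrivSqZeroExt ℂ ℂ →ₐ[Polynomial k] ℂ :=
    { (TrivSqZeroExt.fstHom k ℂ ℂ).toRingHom with
      commutes' := fun f => by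
        change TrivSqZeroExt.fstHom k ℂ ℂ (Polynomial.aeval _ f) = Polynomial.aeval t f
        rw [← Polynomial.aeval_algHom_apply]
        simp }
  have hg : Function.Surjective g := fun z => ⟨TrivSqZeroExt.inl z, rfl⟩
  have hn : IsNilpotent (RingHom.ker g) := ⟨2, TrivSqZeroExt.kerIdeal_sq ℂ ℂ⟩
  let φ := Algebra.FormallySmooth.liftOfSurjective (AlgHom.id (Polynomial k) ℂ) g hg hn
  have h1 : ∀ z, (φ z).fst = z := Algebra.FormallySmooth.liftOfSurjective_apply _ g hg hn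
  have h2 : ∀ f : Polynomial k, φ (Polynomial.aeval t f) =
      Polynomial.aeval (TrivSqZeroExt.inl t + TrivSqZeroExt.inr 1 : TrivSqZeroExt ℂ ℂ) f :=
    φ.commutes
  refine ⟨Derivation.mk' (AddMonoidHom.mk' (fun z => (φ z).snd) fun a b => by
    rw [map_add, TrivSqZeroExt.snd_add]).toIntLinearMap fun a b => ?_, fun s => ?_, ?_⟩
  · change (φ (a * b)).snd = a • (φ b).snd + b • (φ a).snd
    rw [map_mul, TrivSqZeroExt.snd_mul, h1, h1]
    simp [mul_comm]
  · change (φ _).snd = 0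
    have := h2 (Polynomial.C s)
    rw [Polynomial.aeval_C, Polynomial.aeval_C] at this
    rw [this, TrivSqZeroExt.algebraMap_eq_inl', TrivSqZeroExt.snd_inl]
  · change (φ _).snd = 1
    have := h2 Polynomial.X
    rw [Polynomial.aeval_X, Polynomial.aeval_X] at this
    rw [this]
    simp

theorem one_Gen (S : Finset ℂ) : ∃ (t : ℂ) (δ : Der), Kills S δ ∧ δ t = 1 := by
  have h : ¬ Algebra.IsAlgebraic (IntermediateField.adjoin ℚ (S : Set ℂ)) ℂ := fun h => by
    have h1 := Algebra.IsAlgebraic.cardinalMk_le_max (IntermediateField.adjoin ℚ (S : Set ℂ)) ℂ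
    have h2 := (IntermediateField.cardinalMk_adjoin_le ℚ (S : Set ℂ)).trans
      (sup_le (sup_le Cardinal.mk_le_aleph0 Cardinal.mk_le_aleph0) le_rfl)
    rw [Cardinal.mk_complex] at h1
    exact absurd (h1.trans (max_le h2 le_rfl)) Cardinal.aleph0_lt_continuum.not_ge
  obtain ⟨t, ht⟩ := (Algebra.transcendental_iff_not_isAlgebraic.2 h).transcendental
  obtain ⟨δ, h1, h2⟩ := der_Gen _ ht
  exact ⟨t, δ, fun s hs => h1 ⟨s, IntermediateField.subset_adjoin _ _ hs⟩, h2⟩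

theorem fin_Gen (S : Finset ℂ) (n : ℕ) :
    ∃ t : Fin n → ℂ, ∀ v : Fin n → ℂ, ∃ δ : Der, Kills S δ ∧ ∀ i, δ (t i) = v i := by
  classical
  induction n with
  | zero => exact ⟨Fin.elim0, fun _ => ⟨0, fun _ _ => rfl, fun i => i.elim0⟩⟩
  | succ n ih =>
    obtain ⟨t, ht⟩ := ih
    obtain ⟨a, ε, e1, e2⟩ := one_Gen (S ∪ Finset.univ.image t)
    refine ⟨Fin.cons a t, fun v => ?_⟩
    obtain ⟨δ, d1, d2⟩ := ht fun i => v i.succ
    refine ⟨δ + (v 0 - δ a) • ε, fun s hs => ?_, fun i => ?_⟩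
    · simp [d1 s hs, e1 s (Finset.mem_union_left _ hs)]
    · refine Fin.cases ?_ (fun j => ?_) i
      · simp [e2]
      · simp [d2, e1 (t j) (Finset.mem_union_right _ (Finset.mem_image_of_mem _ (Finset.mem_univ j)))]

theorem gen (S : Finset ℂ) (ι : Type) [Fintype ι] :
    ∃ t : ι → ℂ, ∀ v : ι → ℂ, ∃ δ : Der, Kills S δ ∧ ∀ i, δ (t i) = v i := by
  obtain ⟨t, ht⟩ := fin_Gen S (Fintype.card ι)
  refine ⟨fun i => t (Fintype.equivFin ι i), fun v => ?_⟩
  obtain ⟨δ, d1, d2⟩ := ht fun j => v ((Fintype.equivFin ι).symm j)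
  exact ⟨δ, d1, fun i => by rw [d2, Equiv.symm_apply_apply]⟩

theorem exists_genV (S : Finset ℂ) (n : ℕ) : ∃ H : Finset Vec, H.card = n ∧ GenV S H := by
  classical
  obtain ⟨t, ht⟩ := gen S (Fin n × Fin 4)
  refine ⟨Finset.univ.image fun i l => t (i, l), ?_, fun w => ?_⟩
  · rw [Finset.card_image_of_injective _ fun i j h => ?_, Finset.card_univ, Fintype.card_fin]
    obtain ⟨δ, -, d⟩ := ht fun x => if x.1 = i then 1 else 0
    by_contra c
    have := d (j, 0)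
    rw [← show t (i, 0) = t (j, 0) from congrFun h 0, d, if_pos rfl, if_neg (Ne.symm c)] at this
    exact one_ne_zero this
  · obtain ⟨δ, d1, d2⟩ := ht fun x => w (fun l => t (x.1, l)) x.2
    refine ⟨δ, d1, fun a ha l => ?_⟩
    obtain ⟨i, -, rfl⟩ := Finset.mem_image.1 ha
    exact d2 (i, l)

theorem ev_Gen (δ : Der) (j l : Fin 4) : δ (ev j l) = 0 := by
  by_cases h : l = j
  · simp [ev, h]
  · simp [ev, h]

theorem GenV.nu {S : Finset ℂ} {H : Finset Vec} (h : GenV S H) (l : Fin 4) : ev l ∉ H := by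
  intro c
  obtain ⟨δ, -, d⟩ := h fun _ _ => 1
  exact zero_ne_one ((ev_Gen δ l l).symm.trans (d _ c l))

theorem span_Gen {S : Finset ℂ} {H U : Finset Vec} (h : GenV S H) {a : Vec} (ha : a ∈ H)
    (hU : U ⊆ H ∪ Finset.univ.image ev) (hn : a ∉ U) (hc : U.card ≤ 3) :
    a ∉ Submodule.span ℂ (U : Set Vec) := by
  classical
  intro c
  obtain ⟨f, -, hf⟩ := Submodule.mem_span_finset.1 c
  have ht : Submodule.span ℂ (U : Set Vec) = ⊤ := by
    refine eq_top_iff.2 fun w _ => ?_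
    obtain ⟨δ, -, d⟩ := h fun s => if s = a then w else 0
    have e : w = ∑ s ∈ U, δ (f s) • s := by
      funext l
      have k := d a ha l
      rw [if_pos rfl] at k
      rw [← k, ← hf, Finset.sum_apply, Finset.sum_apply, map_sum]
      refine Finset.sum_congr rfl fun s hs => ?_
      have z : δ (s l) = 0 := by
        rcases Finset.mem_union.1 (hU hs) with b | b
        · rw [d s b l, if_neg fun e : s = a => hn (e ▸ hs)]
          rfl
        · obtain ⟨j, -, rfl⟩ := Finset.mem_image.1 b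
          exact ev_Gen δ j l
      simp [z, mul_comm]
    rw [e]
    exact Submodule.sum_mem _ fun s hs => Submodule.smul_mem _ _ (Submodule.subset_span hs)
  have := finrank_span_finset_le_card (R := ℂ) U
  rw [Set.finrank, ht, finrank_top, Module.finrank_fin_fun] at this
  omega

theorem GenV.gp {S : Finset ℂ} {H : Finset Vec} (h : GenV S H) : GP (H ∪ Finset.univ.image ev) := by
  intro T
  induction T using Finset.strongInduction with
  | H T ih =>
    intro hT hc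
    by_cases c : ∃ a ∈ T, a ∈ H
    · obtain ⟨a, a1, a2⟩ := c
      have s := (Finset.erase_subset a T).trans hT
      have k := Finset.card_erase_of_mem a1
      rw [← Finset.insert_erase a1, Finset.coe_insert]
      exact (ih _ (Finset.erase_ssubset a1) s (by omega)).id_insert
        (span_Gen h a2 s (Finset.notMem_erase a T) (by omega))
    · refine (Pi.basisFun ℂ (Fin 4)).linearIndependent.linearIndepOn_id.mono fun a ha => ?_
      obtain ⟨j, -, rfl⟩ := Finset.mem_image.1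
        ((Finset.mem_union.1 (hT ha)).resolve_left fun b => c ⟨a, ha, b⟩)
      exact ⟨j, Pi.basisFun_apply _ _ j⟩

theorem der_natCast_inv (δ : Der) (k : ℕ) : δ (k : ℂ)⁻¹ = 0 := by
  rw [δ.leibniz_inv, δ.map_natCast, smul_zero]

end

end Pool.Agent.MP_1c689d_ag.K0.Al

end

section

/-! The limit of a pencil of linear conditions. -/

set_option autoImplicit false

open MvPolynomial

namespace Pool.Agent.MP_1c689d_ag.K0.Al

noncomputable section

theorem lim_abs {S Z V U W : Type} [AddCommGroup S] [Module ℂ S] [FiniteDimensional ℂ S]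
    [AddCommGroup Z] [Module ℂ Z] [AddCommGroup V] [Module ℂ V] [AddCommGroup U] [Module ℂ U]
    [FiniteDimensional ℂ U] [AddCommGroup W] [Module ℂ W] [FiniteDimensional ℂ W]
    (C0 C1 : S →ₗ[ℂ] Z) (O0 O1 : S →ₗ[ℂ] V) (μ : U →ₗ[ℂ] W →ₗ[ℂ] V)
    (H : ∀ w w', C0 w = 0 → O0 w = 0 → C0 w' = C1 w → O0 w' = O1 w → w = 0) (φ : V →ₗ[ℂ] ℂ)
    (hφ : ∀ w w', C0 w = 0 → O0 w = 0 → C0 w' + C1 w = 0 → φ (O0 w' + O1 w) = 0)
    (nd : ∀ u, (∀ b, φ (μ u b) = 0) → u = 0) :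
    ∃ E : Finset ℂ, ∀ t ∉ E, ∃ ψ : V →ₗ[ℂ] ℂ,
      (∀ w, C0 w + t • C1 w = 0 → ψ (O0 w + t • O1 w) = 0) ∧ ∀ u, (∀ b, ψ (μ u b) = 0) → u = 0 := by
  set Φ0 : S →ₗ[ℂ] Z × V := C0.prod O0 with hΦ0
  set Φ1 : S →ₗ[ℂ] Z × V := C1.prod O1 with hΦ1
  obtain ⟨π, hπ1, hπ2⟩ : ∃ π : S →ₗ[ℂ] S, (∀ v, Φ0 (π v) = 0) ∧ ∀ v, Φ0 v = 0 → π v = v := by
    obtain ⟨g, hg⟩ := (LinearMap.ker Φ0).subtype.exists_leftInverse_of_injective
      (Submodule.ker_subtype _)
    refine ⟨(LinearMap.ker Φ0).subtype ∘ₗ g, fun v => (g v).2, fun v hv => ?_⟩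
    exact congrArg Subtype.val (LinearMap.congr_fun hg ⟨v, hv⟩)
  have hC : ∀ v, C0 (π v) = 0 := fun v => congrArg Prod.fst (hπ1 v)
  have hO : ∀ v, O0 (π v) = 0 := fun v => congrArg Prod.snd (hπ1 v)
  have hππ : ∀ v, π (π v) = π v := fun v => hπ2 _ (hπ1 v)
  set Ψ0 : S →ₗ[ℂ] Z × V := Φ0 + Φ1 ∘ₗ π with hΨ0
  set Ψ1 : S →ₗ[ℂ] Z × V := Φ1 - Φ1 ∘ₗ π with hΨ1
  have hinj : LinearMap.ker Ψ0 = ⊥ := by
    refine LinearMap.ker_eq_bot'.2 fun v hv => ?_
    have h1 : Φ0 (-v) = Φ1 (π v) := by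
      rw [map_neg]
      exact neg_eq_of_add_eq_zero_right hv
    have h2 := H (π v) (-v) (hC v) (hO v) (congrArg Prod.fst h1) (congrArg Prod.snd h1)
    rw [h2, map_zero, map_neg, neg_eq_zero] at h1
    rw [← hπ2 v h1, h2]
  obtain ⟨G, hG⟩ := Ψ0.exists_leftInverse_of_injective hinj
  have hG' : ∀ v, G (Ψ0 v) = v := fun v => LinearMap.congr_fun hG v
  obtain ⟨θ, hθ1, hθ2⟩ : ∃ θ : Z × V →ₗ[ℂ] ℂ, (∀ v, θ (Ψ0 v) = 0) ∧ ∀ y, θ (0, y) = φ y := by
    have hm : φ ∘ₗ LinearMap.snd ℂ S V ∈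
        LinearMap.range (Ψ0.coprod (LinearMap.inr ℂ Z V)).dualMap := by
      rw [LinearMap.range_dualMap_eq_dualAnnihilator_ker, Submodule.mem_dualAnnihilator]
      rintro ⟨s, y⟩ hs
      have h1 : C0 s + C1 (π s) + 0 = 0 := congrArg Prod.fst (LinearMap.mem_ker.1 hs)
      have h2 : O0 s + O1 (π s) + y = 0 := congrArg Prod.snd (LinearMap.mem_ker.1 hs)
      have h3 := hφ (π s) s (hC s) (hO s) (by rwa [add_zero] at h1)
      have h4 := congrArg φ h2
      rw [map_add, h3, zero_add, map_zero] at h4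
      exact h4
    obtain ⟨θ, hθ⟩ := hm
    refine ⟨θ, fun v => ?_, fun y => ?_⟩
    · simpa [Prod.mk_zero_zero] using LinearMap.congr_fun hθ (v, 0)
    · simpa using LinearMap.congr_fun hθ (0, y)
  obtain ⟨E1, hE1⟩ := la7 (LinearMap.id : S →ₗ[ℂ] S) (G ∘ₗ Ψ1) Function.injective_id
  set Θ0 : U × (W →ₗ[ℂ] S) →ₗ[ℂ] (W →ₗ[ℂ] S) × (W →ₗ[ℂ] ℂ) :=
    LinearMap.prod (LinearMap.snd ℂ U (W →ₗ[ℂ] S) -
        LinearMap.llcomp ℂ W V S (G ∘ₗ LinearMap.inr ℂ Z V) ∘ₗ μ ∘ₗ LinearMap.fst ℂ U (W →ₗ[ℂ] S))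
      (LinearMap.llcomp ℂ W V ℂ φ ∘ₗ μ ∘ₗ LinearMap.fst ℂ U (W →ₗ[ℂ] S)) with hΘ0
  set Θ1 : U × (W →ₗ[ℂ] S) →ₗ[ℂ] (W →ₗ[ℂ] S) × (W →ₗ[ℂ] ℂ) :=
    LinearMap.prod (LinearMap.llcomp ℂ W S S (G ∘ₗ Ψ1) ∘ₗ LinearMap.snd ℂ U (W →ₗ[ℂ] S))
      (-(LinearMap.llcomp ℂ W S ℂ (θ ∘ₗ Ψ1) ∘ₗ LinearMap.snd ℂ U (W →ₗ[ℂ] S))) with hΘ1
  have hΘ : Function.Injective Θ0 := by
    refine (injective_iff_map_eq_zero Θ0).2 fun x hx => ?_
    have h1 : x.1 = 0 := nd x.1 fun b => LinearMap.congr_fun (congrArg Prod.snd hx) b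
    have h2 : ∀ b, x.2 b - G (0, μ x.1 b) = 0 := fun b =>
      LinearMap.congr_fun (congrArg Prod.fst hx) b
    refine Prod.ext h1 (LinearMap.ext fun b => ?_)
    have h3 := h2 b
    rw [h1, map_zero, LinearMap.zero_apply, Prod.mk_zero_zero, map_zero, sub_zero] at h3
    exact h3
  obtain ⟨E2, hE2⟩ := la7 Θ0 Θ1 hΘ
  classical
  refine ⟨E1 ∪ E2, fun t ht => ?_⟩
  have ht1 := hE1 t fun h => ht (Finset.mem_union_left _ h)
  have ht2 := hE2 t fun h => ht (Finset.mem_union_right _ h)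
  set e : S ≃ₗ[ℂ] S := LinearEquiv.ofBijective _
    ⟨ht1, LinearMap.injective_iff_surjective.1 ht1⟩ with he
  have he' : ∀ v, e v = v + t • G (Ψ1 v) := fun v => rfl
  refine ⟨φ - t • (θ ∘ₗ Ψ1 ∘ₗ e.symm.toLinearMap ∘ₗ G ∘ₗ LinearMap.inr ℂ Z V), fun w hw => ?_,
    fun u hu => ?_⟩
  · have h1 : ((0 : Z), O0 w + t • O1 w) =
        Ψ0 (t • π w + (w - π w)) + t • Ψ1 (t • π w + (w - π w)) := by
      have h2 : Ψ0 (t • π w + (w - π w)) = Φ0 w + t • Φ1 (π w) := by
        simp [hΨ0, hπ1, hππ]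
      have h3 : Ψ1 (t • π w + (w - π w)) = Φ1 w - Φ1 (π w) := by
        simp [hΨ1, hππ]
      rw [h2, h3, smul_sub, add_add_sub_cancel, ← hw]
      rfl
    change φ (O0 w + t • O1 w) - t • θ (Ψ1 (e.symm (G (0, O0 w + t • O1 w)))) = 0
    rw [← hθ2, h1, map_add, map_add G, hθ1, hG', map_smul G, ← he', e.symm_apply_apply, map_smul,
      zero_add, sub_self]
  · have h1 : (Θ0 + t • Θ1)
        (u, e.symm.toLinearMap ∘ₗ G ∘ₗ LinearMap.inr ℂ Z V ∘ₗ μ u) = (Θ0 + t • Θ1) 0 := by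
      rw [map_zero]
      refine Prod.ext (LinearMap.ext fun b => ?_) (LinearMap.ext fun b => ?_)
      · change e.symm (G (0, μ u b)) - G (0, μ u b) + t • G (Ψ1 (e.symm (G (0, μ u b)))) = 0
        rw [sub_add_eq_add_sub, ← he', e.apply_symm_apply, sub_self]
      · change φ (μ u b) + t • -θ (Ψ1 (e.symm (G (0, μ u b)))) = 0
        rw [smul_neg, ← sub_eq_add_neg]
        exact hu b
    exact congrArg Prod.fst (ht2 h1)

end

end Pool.Agent.MP_1c689d_ag.K0.Al

end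

section

/-! Linear algebra for the Noether-Lefschetz locus. -/

set_option autoImplicit false

open MvPolynomial

namespace Pool.Agent.MP_1c689d_ag.K0

noncomputable section

variable {m c r : ℕ} {Q : PD m 4 c r} {ν : ℕ}

theorem NLLin_abs {Y H F : Type} [AddCommGroup Y] [Module ℂ Y] [AddCommGroup H] [Module ℂ H]
    [AddCommGroup F] [Module ℂ F] [FiniteDimensional ℂ Y] [FiniteDimensional ℂ F] {s : ℕ}
    (e : Fin s → Module.Dual ℂ Y) (V : Submodule ℝ (Fin s → ℝ)) (ψ : Module.Dual ℂ Y)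
    (hψ : ∀ y, (∀ a ∈ V, (∑ i, (a i : ℂ) • e i) y = 0) → ψ y = 0)
    (Φ : Module.Dual ℂ Y →ₗ[ℂ] H →ₗ[ℂ] F) (hs : Function.Surjective (Φ ψ)) :
    ∃ a ∈ V, Function.Surjective (Φ (∑ i, (a i : ℂ) • e i)) := by
  set φ : (Fin s → ℝ) → Module.Dual ℂ Y := fun a => ∑ i, (a i : ℂ) • e i with hφ
  have hadd : ∀ a b, φ (a + b) = φ a + φ b := fun a b => by
    simp only [hφ, Pi.add_apply, Complex.ofReal_add, add_smul, Finset.sum_add_distrib]
  have hsm : ∀ (t : ℝ) a, φ (t • a) = (t : ℂ) • φ a := fun t a => by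
    simp only [hφ, Pi.smul_apply, smul_eq_mul, Complex.ofReal_mul, mul_smul, Finset.smul_sum]
  have h0 : φ 0 = 0 := by simp [hφ]
  have h1 : ψ ∈ Submodule.span ℂ (φ '' V) := by
    rw [← Subspace.dualCoannihilator_dualAnnihilator_eq (W := Submodule.span ℂ (φ '' V)),
      Submodule.mem_dualAnnihilator]
    exact fun y hy => hψ y fun a ha =>
      (Submodule.mem_dualCoannihilator _).1 hy _ (Submodule.subset_span ⟨a, ha, rfl⟩)
  have h2 : ∀ x ∈ Submodule.span ℂ (φ '' V), ∃ u ∈ V, ∃ v ∈ V, x = φ u + Complex.I • φ v := by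
    intro x hx
    induction hx using Submodule.span_induction with
    | mem x hx =>
      obtain ⟨a, ha, rfl⟩ := hx
      exact ⟨a, ha, 0, zero_mem _, by rw [h0, smul_zero, add_zero]⟩
    | zero => exact ⟨0, zero_mem _, 0, zero_mem _, by rw [h0, smul_zero, add_zero]⟩
    | add x y _ _ hx hy =>
      obtain ⟨u, hu, v, hv, rfl⟩ := hx
      obtain ⟨u', hu', v', hv', rfl⟩ := hy
      exact ⟨u + u', add_mem hu hu', v + v', add_mem hv hv', by rw [hadd, hadd]; module⟩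
    | smul t x _ hx =>
      obtain ⟨u, hu, v, hv, rfl⟩ := hx
      refine ⟨t.re • u + (-t.im) • v, add_mem (V.smul_mem _ hu) (V.smul_mem _ hv),
        t.im • u + t.re • v, add_mem (V.smul_mem _ hu) (V.smul_mem _ hv), ?_⟩
      rw [hadd, hadd, hsm, hsm, hsm, hsm]
      have h3 := Complex.re_add_im t
      push_cast
      match_scalars
      · linear_combination -h3
      · linear_combination -Complex.I * h3 + (t.im : ℂ) * Complex.I_mul_I
  obtain ⟨u, hu, v, hv, rfl⟩ := h2 ψ h1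
  obtain ⟨S, hS⟩ := (Φ (φ u + Complex.I • φ v)).exists_rightInverse_of_surjective
    (LinearMap.range_eq_top.2 hs)
  have hz : ∀ z : ℝ, (z : ℂ) - Complex.I ≠ 0 := fun z h => by
    simpa using congrArg Complex.im h
  have hg : Function.Injective fun z : ℝ => -((z : ℂ) - Complex.I)⁻¹ := fun z z' h => by
    simpa using h
  obtain ⟨z, h4⟩ := ((Module.End.finite_spectrum (K := ℂ) (V := F) (Φ (φ v) ∘ₗ S)).preimage
    hg.injOn).exists_notMem
  have h5 := ((Module.End.isUnit_iff _).1 (spectrum.notMem_iff.1 h4)).2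
  refine ⟨u + z • v, add_mem hu (V.smul_mem _ hv), fun y => ?_⟩
  obtain ⟨x, hx⟩ := h5 (-((z : ℂ) - Complex.I)⁻¹ • y)
  refine ⟨S x, ?_⟩
  have h6 := LinearMap.congr_fun hS x
  simp only [map_add, map_smul, LinearMap.comp_apply, LinearMap.add_apply, LinearMap.smul_apply,
    LinearMap.id_apply, LinearMap.sub_apply, Module.algebraMap_end_apply] at h6 hx
  change Φ (φ (u + z • v)) (S x) = y
  rw [hadd, hsm]
  simp only [map_add, map_smul, LinearMap.add_apply, LinearMap.smul_apply]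
  have h7 := congrArg (fun q => -((z : ℂ) - Complex.I) • q) hx
  simp only [smul_sub, smul_smul, neg_mul_neg, mul_inv_cancel₀ (hz z), one_smul] at h7
  rw [← h7, eq_sub_of_add_eq h6]
  module

theorem NLLin_hc {d : ℤ} {F : P m} (hF : F ∈ hz m d) (j : ℤ) (h : P m) :
    AFB_hc m j (h * F) = AFB_hc m (j - d) h * F := by
  induction h using AFB_ind with
  | h0 => simp
  | ha f g hf hg => rw [add_mul, map_add, map_add, add_mul, hf, hg]
  | hh n f hf =>
    have h1 := mem_hz_nat.2 hf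
    by_cases e : j = n + d
    · rw [e, AFB_hc_self (hz_mul h1 hF), add_sub_cancel_right, AFB_hc_self h1]
    · rw [AFB_hc_ne e (hz_mul h1 hF), AFB_hc_ne (fun e' => e (by omega)) h1, zero_mul]

theorem nl_lin {z : Fin r → Q.Om} {σ : P m} {lam : Q.Om →ₗ[ℂ] ℂ} {mu : P m →ₗ[ℂ] ℂ}
    (h : NDeg Q z σ ν lam mu) {s k : ℕ} (re la : Fin s → Q.Om →ₗ[ℂ] ℂ)
    (mi : Fin s → P m →ₗ[ℂ] ℂ) {w : Fin k → Q.Om} (hw : ∀ j, w j ∈ Q.og ν)
    (hi : LinearIndependent ℂ w)
    (en : ∀ τ ∈ Q.og (2 * ν), ∀ b : P m, b.IsHomogeneous ν →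
      (∀ a : Fin s → ℝ, (∀ τ' ∈ Q.og ν, ∑ i, (a i : ℂ) * re i τ' = 0) →
        ∑ i, (a i : ℂ) * la i τ + ∑ i, (a i : ℂ) * mi i b = 0) → JExt Q z σ ν τ b) :
    ∃ (a : Fin s → ℝ) (b : Fin (k + 1) → P m), (∀ τ' ∈ Q.og ν, ∑ i, (a i : ℂ) * re i τ' = 0) ∧
      (∀ l, (b l).IsHomogeneous ν) ∧
      (∀ l j, ∑ i, (a i : ℂ) * la i (b l • w j) = if l = j.succ then 1 else 0) ∧
      ∀ l, ∑ i, (a i : ℂ) * mi i (b l) = if l = 0 then 1 else 0 := by
  have hm : ∀ j (b : hz m ν), b.1 • w j ∈ Q.og (2 * ν) := fun j b => by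
    rw [two_mul]
    exact Q.og_smul b.2 (hw j)
  let T : Fin (k + 1) → hz m ν →ₗ[ℂ] Q.og (2 * ν) × hz m ν :=
    Fin.cons (LinearMap.inr ℂ _ _) fun j => LinearMap.inl ℂ _ _ ∘ₗ LinearMap.codRestrict _
      ((LinearMap.toSpanSingleton (P m) Q.Om (w j)).restrictScalars ℂ ∘ₗ (hz m ν).subtype) (hm j)
  let Φ : Module.Dual ℂ (Q.og (2 * ν) × hz m ν) →ₗ[ℂ] hz m ν →ₗ[ℂ] Fin (k + 1) → ℂ :=
    { toFun := fun ψ => LinearMap.pi fun l => ψ ∘ₗ T l
      map_add' := fun _ _ => rfl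
      map_smul' := fun _ _ => rfl }
  let D : (Q.Om →ₗ[ℂ] ℂ) → (P m →ₗ[ℂ] ℂ) → Module.Dual ℂ (Q.og (2 * ν) × hz m ν) := fun x y =>
    (x ∘ₗ (Q.og (2 * ν)).subtype).coprod (y ∘ₗ (hz m ν).subtype)
  have hD : ∀ x y q, D x y q = x q.1.1 + y q.2.1 := fun _ _ _ => rfl
  have h0 : ∀ ψ b, Φ ψ b 0 = ψ (0, b) := fun _ _ => rfl
  have h1 : ∀ ψ b (j : Fin k), Φ ψ b j.succ = ψ (⟨b.1 • w j, hm j b⟩, 0) := fun _ _ _ => rfl
  let V : Submodule ℝ (Fin s → ℝ) :=
    { carrier := {a | ∀ τ' ∈ Q.og ν, ∑ i, (a i : ℂ) * re i τ' = 0}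
      add_mem' := fun {a b} ha hb τ hτ => by
        simp only [Pi.add_apply, Complex.ofReal_add, add_mul, Finset.sum_add_distrib, ha τ hτ,
          hb τ hτ, add_zero]
      zero_mem' := fun τ _ => by simp
      smul_mem' := fun t a ha τ hτ => by
        simp only [Pi.smul_apply, smul_eq_mul, Complex.ofReal_mul, mul_assoc, ← Finset.mul_sum,
          ha τ hτ, mul_zero] }
  obtain ⟨a, ha, hs⟩ := NLLin_abs (fun i => D (la i) (mi i)) V (D lam mu) (fun y hy => by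
    refine h.kill y.1.1 y.2.1 (mem_hz_nat.1 y.2.2)
      (en _ y.1.2 _ (mem_hz_nat.1 y.2.2) fun a ha => ?_)
    have := hy a ha
    simpa only [LinearMap.sum_apply, LinearMap.smul_apply, hD, smul_eq_mul, mul_add,
      Finset.sum_add_distrib] using this) Φ (by
    rw [← LinearMap.range_eq_top]
    by_contra hne
    obtain ⟨f, f0, f1⟩ := Submodule.exists_le_ker_of_lt_top _ (lt_top_iff_ne_top.2 hne)
    set t : Fin (k + 1) → ℂ := fun l => f fun j => if l = j then 1 else 0 with ht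
    have hf : ∀ x, f x = ∑ l, x l * t l := fun x => LinearMap.pi_apply_eq_sum_univ f x
    obtain ⟨h2, h3⟩ := h.nd (∑ j, t j.succ • w j)
      (Submodule.sum_mem _ fun j _ => Submodule.smul_mem _ _ (hw j)) (t 0) fun b hb => by
        have h4 : f (Φ (D lam mu) ⟨b, mem_hz_nat.2 hb⟩) = 0 := f1 ⟨_, rfl⟩
        rw [hf, Fin.sum_univ_succ] at h4
        simp only [h0, h1, hD, ZeroMemClass.coe_zero, map_zero, zero_add, add_zero] at h4
        rw [← h4, Finset.smul_sum, map_sum, add_comm, mul_comm]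
        congr 1
        refine Finset.sum_congr rfl fun j _ => ?_
        rw [smul_comm, map_smul, smul_eq_mul, mul_comm]
    have h5 := Fintype.linearIndependent_iff.1 hi _ h2
    refine f0 (LinearMap.ext fun x => ?_)
    rw [hf, Fin.sum_univ_succ]
    simp [h3, h5])
  choose b hb using fun l => hs (Pi.single l 1)
  refine ⟨a, fun l => (b l).1, ha, fun l => mem_hz_nat.1 (b l).2, fun l j => ?_, fun l => ?_⟩
  · have := congrFun (hb l) j.succ
    rw [h1, Pi.single_apply] at this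
    simpa only [LinearMap.sum_apply, LinearMap.smul_apply, hD, smul_eq_mul, ZeroMemClass.coe_zero,
      map_zero, add_zero, eq_comm (a := j.succ)] using this
  · have := congrFun (hb l) 0
    rw [h0, Pi.single_apply] at this
    simpa only [LinearMap.sum_apply, LinearMap.smul_apply, hD, smul_eq_mul, ZeroMemClass.coe_zero,
      map_zero, zero_add, eq_comm (a := (0 : Fin (k + 1)))] using this

theorem nl_basis (Q : PD m 4 c r) (j : ℤ) : ∃ w : Fin (Module.finrank ℂ (Q.og j)) → Q.Om,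
    (∀ i, w i ∈ Q.og j) ∧ LinearIndependent ℂ w ∧
      ∀ τ ∈ Q.og j, ∃ u : Fin (Module.finrank ℂ (Q.og j)) → ℂ, τ = ∑ i, u i • w i := by
  refine ⟨fun i => (Module.finBasis ℂ (Q.og j) i).1, fun i => (Module.finBasis ℂ (Q.og j) i).2,
    (Module.finBasis ℂ (Q.og j)).linearIndependent.map' (Q.og j).subtype (Q.og j).ker_subtype,
    fun τ hτ => ⟨(Module.finBasis ℂ (Q.og j)).repr ⟨τ, hτ⟩, ?_⟩⟩
  have := congrArg Subtype.val ((Module.finBasis ℂ (Q.og j)).sum_repr ⟨τ, hτ⟩)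
  rw [Submodule.coe_sum] at this
  exact this.symm

theorem nl_span {k : ℕ} (hd : Module.finrank ℂ (Q.b.gr ν) = k + 2) {σ : P m}
    (hσ : σ.IsHomogeneous ν) {b : Fin (k + 1) → P m} (hb : ∀ i, (b i).IsHomogeneous ν)
    (hi : ∀ (t0 : ℂ) (t : Fin (k + 1) → ℂ), C t0 * σ + ∑ i, C (t i) * b i ∈ Q.I → t0 = 0 ∧ t = 0)
    {f : P m} (hf : f.IsHomogeneous ν) :
    ∃ (t0 : ℂ) (t : Fin (k + 1) → ℂ), C t0 * σ + ∑ i, C (t i) * b i - f ∈ Q.I := by
  let v : Fin (k + 2) → Q.b.gr ν := Fin.cons ⟨_, Q.AFB_mk_mem (mem_hz_nat.2 hσ)⟩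
    fun i => ⟨_, Q.AFB_mk_mem (mem_hz_nat.2 (hb i))⟩
  have h1 : ∀ g : Fin (k + 2) → ℂ, (∑ i, g i • v i).1 =
      Ideal.Quotient.mk Q.I (C (g 0) * σ + ∑ i, C (g i.succ) * b i) := fun g => by
    rw [Fin.sum_univ_succ, Submodule.coe_add, Submodule.coe_sum, map_add, map_sum]
    simp only [← smul_eq_C_mul]
    rfl
  have h2 : LinearIndependent ℂ v := Fintype.linearIndependent_iff.2 fun g hg => by
    obtain ⟨h3, h4⟩ := hi (g 0) (fun i => g i.succ) (Ideal.Quotient.eq_zero_iff_mem.1 (by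
      rw [← h1, hg]
      rfl))
    exact Fin.cases h3 (congrFun h4)
  have h3 := h2.span_eq_top_of_card_eq_finrank (by rw [hd, Fintype.card_fin])
  obtain ⟨g, hg⟩ := (Submodule.mem_span_range_iff_exists_fun ℂ).1
    (h3 ▸ Submodule.mem_top (x := (⟨_, Q.AFB_mk_mem (mem_hz_nat.2 hf)⟩ : Q.b.gr ν)))
  exact ⟨g 0, fun i => g i.succ, Ideal.Quotient.eq.1 (by rw [← h1, hg])⟩

theorem nl_ideal {j : ℤ} {f : P m} (hf : f ∈ hz m j) (hI : f ∈ Q.I) :
    ∃ h : Fin r → P m, (∀ i, h i ∈ hz m (j - Q.dF i)) ∧ f = ∑ i, h i * Q.F i := by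
  obtain ⟨h, rfl⟩ := Ideal.mem_span_range_iff_exists_fun.1 hI
  refine ⟨fun i => AFB_hc m (j - Q.dF i) (h i), fun i => AFB_hc_mem _ _, ?_⟩
  rw [← AFB_hc_self hf, map_sum]
  exact Finset.sum_congr rfl fun i _ => NLLin_hc (mem_hz_nat.2 (Q.Fh i)) j (h i)

end

end Pool.Agent.MP_1c689d_ag.K0

end
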