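import Mathlib

set_option linter.all false


section

/-! Complex differentiable maps on open sets are smooth. -/

set_option autoImplicit false

open Set Filter Topology Complex Metric
open scoped ContDiff

namespace Pool.Agent.MP_1c689d_ag.K0

section Aux

variable {E F : Type} [NormedAddCommGroup E] [NormedSpace ℂ E]
  [NormedAddCommGroup F] [NormedSpace ℂ F]

/-- Cauchy estimate -/
theorem DFbAux_cauchy {h : E → F} {x : E} {r M : ℝ} (hr : 0 < r)
    (hd : DifferentiableOn ℂ h (ball x r)) (hb : ∀ y ∈ ball x r, ‖h y‖ ≤ M) :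
    ‖fderiv ℂ h x‖ ≤ 2 * M / r := by
  refine norm_fderiv_le_div_of_mapsTo_ball hd (fun y hy => ?_) hr
  rw [mem_closedBall, dist_eq_norm]
  have h1 := hb y hy
  have h2 := hb x (mem_ball_self hr)
  have h3 := norm_sub_le (h y) (h x)
  linarith

/-- Weierstrass: uniform limits of complex differentiable maps are differentiable -/
theorem DFbAux_weierstrass [CompleteSpace F] {g : ℕ → E → F} {G : E → F} {c : E} {r : ℝ}
    (hr : 0 < r) (hd : ∀ n, DifferentiableOn ℂ (g n) (ball c (2 * r)))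
    (hu : TendstoUniformlyOn g G atTop (ball c (2 * r))) : DifferentiableAt ℂ G c := by
  have hsub : ∀ x ∈ ball c r, ball x r ⊆ ball c (2 * r) := by
    intro x hx y hy
    rw [mem_ball] at *
    have := dist_triangle y x c
    linarith
  have hat : ∀ n, ∀ x ∈ ball c r, DifferentiableAt ℂ (g n) x := fun n x hx =>
    (hd n).differentiableAt (isOpen_ball.mem_nhds (hsub x hx (mem_ball_self hr)))
  have hC : UniformCauchySeqOn (fun n x => fderiv ℂ (g n) x) atTop (ball c r) := by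
    rw [Metric.uniformCauchySeqOn_iff]
    intro ε hε
    obtain ⟨N, hN⟩ := Metric.uniformCauchySeqOn_iff.1 hu.uniformCauchySeqOn (ε * r / 4)
      (by positivity)
    refine ⟨N, fun m hm n hn x hx => ?_⟩
    have h1 : ‖fderiv ℂ (g m - g n) x‖ ≤ 2 * (ε * r / 4) / r := by
      refine DFbAux_cauchy hr (((hd m).sub (hd n)).mono (hsub x hx)) fun y hy => ?_
      have := hN m hm n hn y (hsub x hx hy)
      rw [dist_eq_norm] at this
      exact this.le
    rw [fderiv_sub (hat m x hx) (hat n x hx)] at h1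
    rw [dist_eq_norm]
    have h2 : 2 * (ε * r / 4) / r = ε / 2 := by field_simp; ring
    linarith
  have hlim : ∀ x ∈ ball c r, ∃ L, Tendsto (fun n => fderiv ℂ (g n) x) atTop (𝓝 L) :=
    fun x hx => cauchySeq_tendsto_of_complete (hC.cauchySeq hx)
  choose! G' hG' using hlim
  have hT := hC.tendstoUniformlyOn_of_tendsto hG'
  exact (hasFDerivAt_of_tendstoUniformlyOn isOpen_ball hT
    (fun n x hx => (hat n x hx).hasFDerivAt)
    (fun x hx => hu.tendsto_at (hsub x hx (mem_ball_self hr))) (mem_ball_self hr)).differentiableAt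

/-- uniform second order Taylor estimate -/
theorem DFbAux_taylor {h : E → F} {x : E} {r M : ℝ} (hr : 0 < r)
    (hd : DifferentiableOn ℂ h (ball x r)) (hb : ∀ y ∈ ball x r, ‖h y‖ ≤ M) {y : E}
    (hy : y ∈ ball x r) :
    ‖h y - h x - fderiv ℂ h x (y - x)‖ ≤ 4 * M * (‖y - x‖ / r) ^ 2 := by
  have hx : DifferentiableAt ℂ h x := hd.differentiableAt (ball_mem_nhds x hr)
  have hc := DFbAux_cauchy hr hd hb
  set L := fderiv ℂ h x with hL
  have key := dist_le_mul_div_pow_of_mapsTo_ball_of_isLittleO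
    (f := fun w => h w - L (w - x)) (c := x) (z := y) (R₁ := r) (R₂ := 4 * M) (n := 1)
    (hd.sub (by fun_prop)) ?_ ?_ hy
  · rw [dist_eq_norm, dist_eq_norm] at key
    simp only [sub_self, map_zero, sub_zero] at key
    have e : h y - h x - L (y - x) = h y - L (y - x) - h x := by abel
    rw [e]
    exact key
  · intro w hw
    simp only [sub_self, map_zero, sub_zero, mem_closedBall, dist_eq_norm]
    have h1 := hb w hw
    have h2 := hb x (mem_ball_self hr)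
    have h3 : ‖L (w - x)‖ ≤ 2 * M := by
      have h4 : ‖w - x‖ ≤ r := by
        rw [mem_ball, dist_eq_norm] at hw
        exact hw.le
      calc ‖L (w - x)‖ ≤ ‖L‖ * ‖w - x‖ := L.le_opNorm _
        _ ≤ (2 * M / r) * r := by
          refine mul_le_mul hc h4 (norm_nonneg _) ((norm_nonneg _).trans hc)
        _ = 2 * M := by field_simp
    have h5 := norm_sub_le (h w - L (w - x)) (h x)
    have h6 := norm_sub_le (h w) (L (w - x))
    linarith
  · have h1 := hx.hasFDerivAt.isLittleO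
    simp only [sub_self, map_zero, sub_zero, pow_one]
    rw [Asymptotics.isLittleO_norm_right]
    refine h1.congr_left fun w => ?_
    rw [hL]
    abel

/-- directional derivatives of complex differentiable maps are differentiable -/
theorem DFbAux_dir [CompleteSpace F] {f : E → F} {s : Set E} (hs : IsOpen s)
    (hf : DifferentiableOn ℂ f s) (v : E) : DifferentiableOn ℂ (fun x => fderiv ℂ f x v) s := by
  intro c hc
  refine DifferentiableAt.differentiableWithinAt ?_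
  have hcont : ContinuousAt f c := (hf.differentiableAt (hs.mem_nhds hc)).continuousAt
  have hev : ∀ᶠ y in 𝓝 c, y ∈ s ∧ ‖f y‖ ≤ ‖f c‖ + 1 := by
    refine (hs.eventually_mem hc).and ?_
    exact (hcont.norm.eventually (Iic_mem_nhds (lt_add_one ‖f c‖)))
  obtain ⟨ρ, hρ, hball⟩ := Metric.eventually_nhds_iff_ball.1 hev
  set M := ‖f c‖ + 1 with hM
  have hM0 : 0 < M := by positivity
  set r := ρ / 3 with hr
  have hr0 : 0 < r := by positivity
  have hsub : ∀ x ∈ ball c (2 * r), ball x r ⊆ ball c ρ := by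
    intro x hx y hy
    rw [mem_ball] at *
    have := dist_triangle y x c
    linarith
  set a : ℝ := r / (‖v‖ + 1) with ha
  have ha0 : 0 < a := by positivity
  have hav : a * ‖v‖ < r := by
    rw [ha, div_mul_eq_mul_div, div_lt_iff₀ (by positivity)]
    nlinarith
  set t : ℕ → ℝ := fun n => a / ((n : ℝ) + 1) with ht
  have ht0 : ∀ n, 0 < t n := fun n => by positivity
  have hta : ∀ n, t n ≤ a := fun n => div_le_self ha0.le (by simp)
  have hnorm : ∀ n, ‖(t n : ℂ) • v‖ = t n * ‖v‖ := fun n => by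
    rw [norm_smul, Complex.norm_real, Real.norm_of_nonneg (ht0 n).le]
  have hmem : ∀ n x, x + (t n : ℂ) • v ∈ ball x r := fun n x => by
    rw [mem_ball, dist_eq_norm, add_sub_cancel_left, hnorm]
    exact lt_of_le_of_lt (mul_le_mul_of_nonneg_right (hta n) (norm_nonneg _)) hav
  have hlim : Tendsto t atTop (𝓝 0) := by
    have := tendsto_one_div_add_atTop_nhds_zero_nat (𝕜 := ℝ) |>.const_mul a
    simpa [ht, div_eq_mul_inv] using this
  refine DFbAux_weierstrass (g := fun n x => ((t n : ℂ))⁻¹ • (f (x + (t n : ℂ) • v) - f x)) hr0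
    (fun n x hx => ?_) ?_
  · refine DifferentiableAt.differentiableWithinAt ?_
    have h1 : DifferentiableAt ℂ f x :=
      hf.differentiableAt (hs.mem_nhds (hball _ (hsub x hx (mem_ball_self hr0))).1)
    have h2 : DifferentiableAt ℂ f (x + (t n : ℂ) • v) :=
      hf.differentiableAt (hs.mem_nhds (hball _ (hsub x hx (hmem n x))).1)
    have h3 : DifferentiableAt ℂ (fun x => f (x + (t n : ℂ) • v)) x :=
      h2.comp x (by fun_prop)
    exact (h3.sub h1).const_smul _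
  · rw [Metric.tendstoUniformlyOn_iff]
    intro ε hε
    have h0 : Tendsto (fun n => t n * (4 * M * (‖v‖ / r) ^ 2)) atTop (𝓝 0) := by
      simpa using hlim.mul_const (4 * M * (‖v‖ / r) ^ 2)
    filter_upwards [h0.eventually (Iio_mem_nhds hε)] with n hn x hx
    have h1 := DFbAux_taylor hr0 (hf.mono fun y hy => (hball _ (hsub x hx hy)).1)
      (fun y hy => (hball _ (hsub x hx hy)).2) (hmem n x)
    rw [add_sub_cancel_left, hnorm] at h1
    have hne : (t n : ℂ) ≠ 0 := by exact_mod_cast (ht0 n).ne'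
    have e : ((t n : ℂ))⁻¹ • (f (x + (t n : ℂ) • v) - f x) - fderiv ℂ f x v =
        ((t n : ℂ))⁻¹ • (f (x + (t n : ℂ) • v) - f x - fderiv ℂ f x ((t n : ℂ) • v)) := by
      rw [map_smul, smul_sub ((t n : ℂ))⁻¹ _ ((t n : ℂ) • _), inv_smul_smul₀ hne]
    rw [dist_comm, dist_eq_norm, e, norm_smul, norm_inv, Complex.norm_real,
      Real.norm_of_nonneg (ht0 n).le]
    refine lt_of_le_of_lt ?_ hn
    have h2 := ht0 n
    calc (t n)⁻¹ * ‖f (x + (t n : ℂ) • v) - f x - fderiv ℂ f x ((t n : ℂ) • v)‖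
        ≤ (t n)⁻¹ * (4 * M * (t n * ‖v‖ / r) ^ 2) :=
          mul_le_mul_of_nonneg_left h1 (by positivity)
      _ = t n * (4 * M * (‖v‖ / r) ^ 2) := by field_simp

/-- a family of continuous linear maps is differentiable if all its applications are -/
theorem DFbAux_clm [FiniteDimensional ℂ E] {f : E → E →L[ℂ] F} {s : Set E}
    (h : ∀ y, DifferentiableOn ℂ (fun x => f x y) s) : DifferentiableOn ℂ f s := by
  let d := Module.finrank ℂ E
  have hd : d = Module.finrank ℂ (Fin d → ℂ) := (Module.finrank_fin_fun ℂ).symm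
  let e₁ := ContinuousLinearEquiv.ofFinrankEq hd
  let e₂ := (e₁.arrowCongr (1 : F ≃L[ℂ] F)).trans (ContinuousLinearEquiv.piRing (Fin d))
  rw [← e₂.comp_differentiableOn_iff]
  exact differentiableOn_pi.mpr fun i => h _

end Aux

/-- Osgood: complex differentiable maps on open subsets of finite-dimensional spaces are
smooth. -/
theorem DFbAux_osgood {E F : Type} [NormedAddCommGroup E] [NormedSpace ℂ E] [FiniteDimensional ℂ E]
    [NormedAddCommGroup F] [NormedSpace ℂ F] [CompleteSpace F] {f : E → F} {s : Set E}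
    (hs : IsOpen s) (hf : DifferentiableOn ℂ f s) : ContDiffOn ℂ ∞ f s := by
  rw [contDiffOn_infty]
  intro n
  induction n generalizing F with
  | zero => simpa using hf.continuousOn
  | succ n ih =>
    have h1 : DifferentiableOn ℂ (fderiv ℂ f) s :=
      DFbAux_clm fun v => DFbAux_dir hs hf v
    rw [Nat.cast_succ, contDiffOn_succ_iff_fderiv_of_isOpen hs]
    exact ⟨hf, fun h => absurd h (by simp), ih h1⟩

end Pool.Agent.MP_1c689d_ag.K0

end

section

/-! Complexes of global sections with supports: the comparison of fine resolutions. -/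

set_option autoImplicit false

open Filter Topology Set

namespace Pool.Agent.MP_1c689d_ag.K0

noncomputable section

/-- A graded complex; `N a` is the open set of the points near which `a` vanishes. -/
structure ZC (X : Type) [TopologicalSpace X] (A : Type) [AddCommGroup A] where
  G : ℕ → AddSubgroup A
  d : A →+ A
  N : A → Set X
  op : ∀ a, IsOpen (N a)
  N0 : N 0 = univ
  Nsub : ∀ a b, N a ∩ N b ⊆ N (a - b)
  Nd : ∀ a, N a ⊆ N (d a)
  dd : ∀ a, d (d a) = 0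
  dG : ∀ q, ∀ a ∈ G q, d a ∈ G (q + 1)

variable {X Y : Type} [TopologicalSpace X] [TopologicalSpace Y] {A B : Type} [AddCommGroup A]
  [AddCommGroup B]

/-- The shift of a grading. -/
def zsh (G : ℕ → AddSubgroup A) : ℕ → AddSubgroup A
  | 0 => ⊥
  | q + 1 => G q

namespace ZC

/-- Cut-offs exist. -/
def Fine (P : ZC X A) : Prop :=
  ∀ q, ∀ a ∈ P.G q, ∀ K K' : Set X, IsCompact K → IsCompact K' → Disjoint K K' →
    ∃ b ∈ P.G q, K ⊆ P.N (b - a) ∧ K' ⊆ P.N b ∧ P.N a ⊆ P.N b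

/-- The complex is a resolution of the constants `u c`. -/
structure Res (P : ZC X A) (u : ℂ → A) : Prop where
  u0 : u 0 = 0
  uG : ∀ c, u c ∈ P.G 0
  du : ∀ c, P.d (u c) = 0
  ne : ∀ c, ∀ x ∈ P.N (u c), c = 0
  ex0 : ∀ a ∈ P.G 0, ∀ x ∈ P.N (P.d a), ∃ c, x ∈ P.N (u c - a)
  ex : ∀ q, ∀ a ∈ P.G (q + 1), ∀ x ∈ P.N (P.d a), ∃ b ∈ P.G q, x ∈ P.N (P.d b - a)

/-- A local map of complexes. -/
structure Hom (P : ZC X A) (Q : ZC X B) (φ : A →+ B) : Prop where
  G : ∀ q, ∀ a ∈ P.G q, φ a ∈ Q.G q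
  d : ∀ a, φ (P.d a) = Q.d (φ a)
  N : ∀ a, P.N a ⊆ Q.N (φ a)

variable {P : ZC X A} {Q : ZC X B} {x : X} {a b : A}

theorem N_zero (P : ZC X A) (x : X) : x ∈ P.N 0 := P.N0 ▸ mem_univ x

theorem N_sub (h : x ∈ P.N a) (h' : x ∈ P.N b) : x ∈ P.N (a - b) := P.Nsub a b ⟨h, h'⟩

theorem N_neg (h : x ∈ P.N a) : x ∈ P.N (-a) := zero_sub a ▸ N_sub (P.N_zero x) h

theorem N_add (h : x ∈ P.N a) (h' : x ∈ P.N b) : x ∈ P.N (a + b) :=
  sub_neg_eq_add a b ▸ N_sub h (N_neg h')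

theorem N_of_eq (h : x ∈ P.N a) (e : b = a) : x ∈ P.N b := e ▸ h

/-- The elements that vanish near `x`. -/
def Z (P : ZC X A) (x : X) : AddSubgroup A where
  carrier := {a | x ∈ P.N a}
  zero_mem' := P.N_zero x
  add_mem' := N_add
  neg_mem' := N_neg

theorem N_zsmul (h : x ∈ P.N a) (k : ℤ) : x ∈ P.N (k • a) := (P.Z x).zsmul_mem h k

/-- The restriction along a continuous map. -/
def comap (P : ZC Y A) (f : X → Y) (hf : Continuous f) : ZC X A where
  G := P.G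
  d := P.d
  N a := f ⁻¹' P.N a
  op a := (P.op a).preimage hf
  N0 := by rw [P.N0, preimage_univ]
  Nsub a b _ h := P.Nsub a b h
  Nd a _ h := P.Nd a h
  dd := P.dd
  dG := P.dG

theorem Fine.comap {P : ZC Y A} (h : P.Fine) {f : X → Y} (hf : Continuous f)
    (hi : Function.Injective f) : (P.comap f hf).Fine := by
  intro q a ha K K' hK hK' hd
  obtain ⟨b, hb, h1, h2, h3⟩ := h q a ha _ _ (hK.image hf) (hK'.image hf)
    ((disjoint_image_iff hi).2 hd)
  exact ⟨b, hb, image_subset_iff.1 h1, image_subset_iff.1 h2, preimage_mono h3⟩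

theorem Res.comap {P : ZC Y A} {u : ℂ → A} (h : P.Res u) {f : X → Y} (hf : Continuous f) :
    (P.comap f hf).Res u :=
  ⟨h.u0, h.uG, h.du, fun c x hx => h.ne c (f x) hx, fun a ha x hx => h.ex0 a ha (f x) hx,
    fun q a ha x hx => h.ex q a ha (f x) hx⟩

/-- The mapping cone. -/
def cone (P : ZC X A) (Q : ZC X B) {φ : A →+ B} (h : Hom P Q φ) : ZC X (A × B) where
  G q := (zsh P.G q).prod (zsh (zsh Q.G) q)
  d := ((-P.d).comp (AddMonoidHom.fst A B)).prod
    (φ.comp (AddMonoidHom.fst A B) + Q.d.comp (AddMonoidHom.snd A B))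
  N z := P.N z.1 ∩ Q.N z.2
  op z := (P.op _).inter (Q.op _)
  N0 := eq_univ_of_forall fun x => ⟨P.N_zero x, Q.N_zero x⟩
  Nsub _ _ _ hx := ⟨N_sub hx.1.1 hx.2.1, N_sub hx.1.2 hx.2.2⟩
  Nd z _ hx := ⟨N_neg (P.Nd _ hx.1), N_add (h.N _ hx.1) (Q.Nd _ hx.2)⟩
  dd z := by
    refine Prod.ext ?_ ?_
    · change -P.d (-P.d z.1) = 0
      rw [map_neg, P.dd, neg_zero, neg_zero]
    · change φ (-P.d z.1) + Q.d (φ z.1 + Q.d z.2) = 0
      rw [map_neg, map_add, Q.dd, h.d, add_zero, neg_add_cancel]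
  dG q z hz := by
    obtain ⟨h1, h2⟩ := hz
    refine ⟨?_, ?_⟩
    · change -P.d z.1 ∈ P.G q
      rcases q with _ | q
      · rw [show z.1 = 0 from h1, map_zero, neg_zero]
        exact zero_mem _
      · exact neg_mem (P.dG q _ h1)
    · change φ z.1 + Q.d z.2 ∈ zsh Q.G q
      rcases q with _ | _ | q
      · rw [show z.1 = 0 from h1, show z.2 = 0 from h2, map_zero, map_zero, add_zero]
        exact zero_mem _
      · rw [show z.2 = 0 from h2, map_zero, add_zero]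
        exact h.G 0 _ h1
      · exact add_mem (h.G _ _ h1) (Q.dG q _ h2)

theorem Fine.zsh (h : P.Fine) (q : ℕ) : ∀ a ∈ zsh P.G q, ∀ K K' : Set X, IsCompact K →
    IsCompact K' → Disjoint K K' →
    ∃ b ∈ zsh P.G q, K ⊆ P.N (b - a) ∧ K' ⊆ P.N b ∧ P.N a ⊆ P.N b := by
  rcases q with _ | q
  · rintro a rfl K K' _ _ _
    exact ⟨0, zero_mem _, fun x _ => N_of_eq (P.N_zero x) (sub_zero 0), fun x _ => P.N_zero x,
      Subset.rfl⟩
  · exact h q

theorem Fine.cone {φ : A →+ B} (h : Hom P Q φ) (hP : P.Fine) (hQ : Q.Fine) :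
    (cone P Q h).Fine := by
  rintro q ⟨a, b⟩ ⟨h1, h2⟩ K K' hK hK' hd
  obtain ⟨a', a0, a1, a2, a3⟩ := hP.zsh q a h1 K K' hK hK' hd
  obtain ⟨b', b0, b1, b2, b3⟩ : ∃ b' ∈ K0.zsh (K0.zsh Q.G) q,
      K ⊆ Q.N (b' - b) ∧ K' ⊆ Q.N b' ∧ Q.N b ⊆ Q.N b' := by
    rcases q with _ | q
    · obtain rfl : b = 0 := h2
      exact ⟨0, zero_mem _, fun x _ => N_of_eq (Q.N_zero x) (sub_zero 0),
        fun x _ => Q.N_zero x, Subset.rfl⟩
    · exact hQ.zsh q b h2 K K' hK hK' hd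
  exact ⟨(a', b'), ⟨a0, b0⟩, subset_inter a1 b1, subset_inter a2 b2, inter_subset_inter a3 b3⟩

theorem cone_ex {φ : A →+ B} (h : Hom P Q φ) {u : ℂ → A} (hP : P.Res u) (hQ : Q.Res (φ ∘ u))
    (q : ℕ) : ∀ z ∈ (cone P Q h).G (q + 1), ∀ x ∈ (cone P Q h).N ((cone P Q h).d z),
      ∃ w ∈ (cone P Q h).G q, x ∈ (cone P Q h).N ((cone P Q h).d w - z) := by
  rintro ⟨a, b⟩ ⟨h1, h2⟩ x ⟨h3, h4⟩
  replace h3 : x ∈ P.N (P.d a) := N_of_eq (N_neg h3) (neg_neg _).symm
  change x ∈ Q.N (φ a + Q.d b) at h4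
  rcases q with _ | q
  · obtain rfl : b = 0 := h2
    obtain ⟨c, hc⟩ := hP.ex0 a h1 x h3
    obtain rfl : c = 0 := hQ.ne c x (N_of_eq (N_add (h.N _ hc) h4) (by simp))
    refine ⟨0, zero_mem _, N_of_eq hc ?_, N_of_eq (Q.N_zero x) ?_⟩
    · rw [map_zero, hP.u0]
      rfl
    · rw [map_zero]
      exact sub_zero 0
  obtain ⟨a', ha', h5⟩ := hP.ex q a h1 x h3
  have h6 : x ∈ Q.N (Q.d (φ a' + b)) :=
    N_of_eq (N_add (h.N _ h5) h4) (by rw [map_add, map_sub, h.d]; abel)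
  rcases q with _ | q
  · obtain ⟨c, hc⟩ := hQ.ex0 _ (add_mem (h.G 0 _ ha') h2) x h6
    refine ⟨(u c - a', 0), ⟨(P.G 0).sub_mem (hP.uG c) ha', zero_mem _⟩, N_of_eq h5 ?_, N_of_eq hc ?_⟩
    · change -P.d (u c - a') - a = _
      rw [map_sub, hP.du, zero_sub, neg_neg]
    · change φ (u c - a') + Q.d 0 - b = φ (u c) - _
      rw [map_sub, map_zero]
      abel
  · obtain ⟨b', hb', hc⟩ := hQ.ex q _ (add_mem (h.G _ _ ha') h2) x h6
    refine ⟨(-a', b'), ⟨(P.G _).neg_mem ha', hb'⟩, N_of_eq h5 ?_, N_of_eq hc ?_⟩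
    · change -P.d (-a') - a = _
      rw [map_neg, neg_neg]
    · change φ (-a') + Q.d b' - b = _
      rw [map_neg]
      abel

variable [T2Space X] [LocallyCompactSpace X]

/-- The Mayer-Vietoris argument. -/
theorem glue (hP : P.Fine) (h0 : ∀ a ∈ P.G 0, a = 0)
    (hx : ∀ q, ∀ a ∈ P.G (q + 1), ∀ x ∈ P.N (P.d a), ∃ b ∈ P.G q, x ∈ P.N (P.d b - a)) (q : ℕ) :
    ∀ K : Set X, IsCompact K → ∀ a ∈ P.G (q + 1), K ⊆ P.N (P.d a) →
      ∃ b ∈ P.G q, K ⊆ P.N (P.d b - a) := by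
  induction q with
  | zero =>
    intro K _ a ha h
    refine ⟨0, zero_mem _, fun x hxK => ?_⟩
    obtain ⟨b, hb, h1⟩ := hx 0 a ha x (h hxK)
    rwa [h0 b hb] at h1
  | succ q ih =>
    intro K hK a ha h
    suffices H : ∃ L, IsCompact L ∧ K ⊆ L ∧ ∃ b ∈ P.G (q + 1), L ⊆ P.N (P.d b - a) by
      obtain ⟨L, -, h1, b, hb, h2⟩ := H
      exact ⟨b, hb, h1.trans h2⟩
    refine hK.induction_on (p := fun s => ∃ L, IsCompact L ∧ s ⊆ L ∧
      ∃ b ∈ P.G (q + 1), L ⊆ P.N (P.d b - a)) ?_ ?_ ?_ ?_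
    · exact ⟨∅, isCompact_empty, Subset.rfl, 0, zero_mem _, empty_subset _⟩
    · rintro s t hst ⟨L, h1, h2, h3⟩
      exact ⟨L, h1, hst.trans h2, h3⟩
    · rintro s t ⟨L, l1, l2, b, hb, l3⟩ ⟨M, m1, m2, c, hc, m3⟩
      obtain ⟨v, hv, h1⟩ := ih (L ∩ M) (l1.inter m1) (b - c) (sub_mem hb hc) fun x hx =>
        N_of_eq (N_sub (l3 hx.1) (m3 hx.2)) (by rw [map_sub]; abel)
      obtain ⟨w, hw, w1, w2, w3⟩ := hP (q + 1) (P.d v - (b - c))
        (sub_mem (P.dG q v hv) (sub_mem hb hc)) _ _ (l1.diff (P.op (P.d v - (b - c))))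
        (m1.diff (P.op (P.d v - (b - c))))
        (disjoint_left.2 fun x h2 h3 => h2.2 (h1 ⟨h2.1, h3.1⟩))
      refine ⟨L ∪ M, l1.union m1, union_subset_union l2 m2, c - w, sub_mem hc hw, ?_⟩
      rintro x (hx | hx)
      · have h2 : x ∈ P.N (w - (P.d v - (b - c))) := by
          by_cases e : x ∈ P.N (P.d v - (b - c))
          · exact N_sub (w3 e) e
          · exact w1 ⟨hx, e⟩
        refine N_of_eq (N_sub (l3 hx) (P.Nd _ h2)) ?_
        simp only [map_sub, P.dd]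
        abel
      · have h2 : x ∈ P.N w := by
          by_cases e : x ∈ P.N (P.d v - (b - c))
          · exact w3 e
          · exact w2 ⟨hx, e⟩
        refine N_of_eq (N_sub (m3 hx) (P.Nd _ h2)) ?_
        rw [map_sub]
        abel
    · intro x hxK
      obtain ⟨b, hb, h1⟩ := hx _ a ha x (h hxK)
      obtain ⟨L, l1, l2, l3⟩ := local_compact_nhds ((P.op _).mem_nhds h1)
      exact ⟨L, mem_nhdsWithin_of_mem_nhds l1, L, l3, Subset.rfl, b, hb, l2⟩

variable {φ : A →+ B} {u : ℂ → A}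

theorem cone_glue (h : Hom P Q φ) (hP : P.Fine) (hQ : Q.Fine) (rP : P.Res u)
    (rQ : Q.Res (φ ∘ u)) (q : ℕ) {K : Set X} (hK : IsCompact K) {a : A} {b : B}
    (ha : a ∈ P.G (q + 1)) (hb : b ∈ Q.G q) (h1 : K ⊆ P.N (P.d a))
    (h2 : K ⊆ Q.N (φ a + Q.d b)) : ∃ a' ∈ P.G q, ∃ b' ∈ zsh Q.G q,
      K ⊆ P.N (-P.d a' - a) ∧ K ⊆ Q.N (φ a' + Q.d b' - b) := by
  obtain ⟨⟨a', b'⟩, ⟨h3, h4⟩, h5⟩ := glue (Fine.cone h hP hQ) (fun z hz => Prod.ext hz.1 hz.2)
    (cone_ex h rP rQ) (q + 1) K hK (a, b) ⟨ha, hb⟩ fun x hx => ⟨N_neg (h1 hx), h2 hx⟩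
  exact ⟨a', h3, b', h4, fun x hx => (h5 hx).1, fun x hx => (h5 hx).2⟩

/-- Injectivity on the cohomology of germs. -/
theorem inj (h : Hom P Q φ) (hP : P.Fine) (hQ : Q.Fine) (rP : P.Res u)
    (rQ : Q.Res (φ ∘ u)) {q : ℕ} {K : Set X} (hK : IsCompact K) {a : A} {t : B}
    (ha : a ∈ P.G (q + 1)) (ht : t ∈ Q.G q) (h1 : K ⊆ P.N (P.d a))
    (h2 : K ⊆ Q.N (Q.d t - φ a)) : ∃ b ∈ P.G q, K ⊆ P.N (P.d b - a) := by
  obtain ⟨a', h3, -, -, h4, -⟩ := cone_glue h hP hQ rP rQ q hK ha (neg_mem ht) h1 fun x hx =>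
    N_of_eq (N_neg (h2 hx)) (by rw [map_neg]; abel)
  exact ⟨-a', neg_mem h3, by rwa [map_neg]⟩

/-- Surjectivity on the cohomology of germs. -/
theorem surj (h : Hom P Q φ) (hP : P.Fine) (hQ : Q.Fine) (rP : P.Res u)
    (rQ : Q.Res (φ ∘ u)) {q : ℕ} {K : Set X} (hK : IsCompact K) {b : B}
    (hb : b ∈ Q.G q) (h1 : K ⊆ Q.N (Q.d b)) : ∃ a ∈ P.G q, ∃ t ∈ zsh Q.G q,
      K ⊆ P.N (P.d a) ∧ K ⊆ Q.N (φ a + Q.d t - b) := by
  obtain ⟨a, h3, t, h4, h5, h6⟩ := cone_glue h hP hQ rP rQ q hK (zero_mem _) hb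
    (fun x _ => N_of_eq (P.N_zero x) (map_zero _)) (by rwa [map_zero, zero_add])
  exact ⟨a, h3, t, h4, fun x hx => N_of_eq (N_neg (h5 hx)) (by rw [sub_zero, neg_neg]), h6⟩

end ZC

end

end Pool.Agent.MP_1c689d_ag.K0

end

section

/-! Linear algebra for the duality. -/

set_option autoImplicit false

namespace Pool.Agent.MP_1c689d_ag.K0

variable {V W : Type} [AddCommGroup V] [Module ℂ V] [AddCommGroup W] [Module ℂ W]

/-- A functional that kills the kernel of `f` on `p` factors through `f` on `p`. -/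
theorem zz_fac (p : Submodule ℂ V) (f : V →ₗ[ℂ] W) (T : V →ₗ[ℂ] ℂ)
    (h : ∀ v ∈ p, f v = 0 → T v = 0) : ∃ S : W →ₗ[ℂ] ℂ, ∀ v ∈ p, S (f v) = T v := by
  have hm : T.comp p.subtype ∈ (LinearMap.ker (f.comp p.subtype)).dualAnnihilator := by
    rw [Submodule.mem_dualAnnihilator]
    exact fun v hv => h v v.2 hv
  rw [← LinearMap.range_dualMap_eq_dualAnnihilator_ker] at hm
  obtain ⟨S, hS⟩ := hm
  exact ⟨S, fun v hv => LinearMap.congr_fun hS ⟨v, hv⟩⟩

theorem zz_fin1 (f : W →ₗ[ℂ] Module.Dual ℂ V) (g : V →ₗ[ℂ] Module.Dual ℂ W)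
    (hf : Function.Surjective f) (hg : Function.Surjective g) : Module.Finite ℂ V := by
  by_contra hV
  have h1 : Cardinal.aleph0 ≤ Module.rank ℂ V :=
    not_lt.1 fun h => hV (Module.rank_lt_aleph0_iff.1 h)
  have h2 := (rank_lt_rank_dual h1).trans_le (f.rank_le_of_surjective hf)
  have h3 := (rank_lt_rank_dual (h1.trans h2.le)).trans_le (g.rank_le_of_surjective hg)
  exact lt_asymm h2 h3

theorem zz_surj (B Z : Submodule ℂ V) (B' Z' : Submodule ℂ W) (b : W →ₗ[ℂ] V →ₗ[ℂ] ℂ)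
    (h1 : ∀ v ∈ B, ∀ w ∈ Z', b w v = 0) (h2 : ∀ v ∈ Z, ∀ w ∈ B', b w v = 0)
    (h : ∀ L : V →ₗ[ℂ] ℂ, (∀ v ∈ B, L v = 0) → ∃ w ∈ Z', ∀ v ∈ Z, L v = b w v) :
    ∃ f : (Z' ⧸ B'.submoduleOf Z') →ₗ[ℂ] Module.Dual ℂ (Z ⧸ B.submoduleOf Z),
      Function.Surjective f := by
  refine ⟨(b.domRestrict₁₂ Z' Z).liftQ₂ _ _ (fun w hw => LinearMap.ext fun v => h2 v v.2 w hw)
    (fun v hv => LinearMap.ext fun w => h1 v hv w w.2), fun L => ?_⟩
  obtain ⟨S, hS⟩ := zz_fac ⊤ (B.mkQ.comp Z.subtype) (L.comp (B.submoduleOf Z).mkQ)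
    fun v _ hv => by
      rw [LinearMap.comp_apply, Submodule.mkQ_apply, (Submodule.Quotient.mk_eq_zero
        (B.submoduleOf Z)).2 ((Submodule.Quotient.mk_eq_zero B).1 hv), map_zero]
  obtain ⟨w, hw, e⟩ := h (S.comp B.mkQ) fun v hv => by
    rw [LinearMap.comp_apply, Submodule.mkQ_apply, (Submodule.Quotient.mk_eq_zero _).2 hv,
      map_zero]
  refine ⟨Submodule.Quotient.mk ⟨w, hw⟩, Submodule.linearMap_qext _ (LinearMap.ext fun v => ?_)⟩
  exact ((e v v.2).symm.trans (hS v trivial))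

/-- Two subquotients that are dual to each other have finite dimension. -/
theorem zz_fin2 (B Z : Submodule ℂ V) (B' Z' : Submodule ℂ W) (b : W →ₗ[ℂ] V →ₗ[ℂ] ℂ)
    (h1 : ∀ v ∈ B, ∀ w ∈ Z', b w v = 0) (h2 : ∀ v ∈ Z, ∀ w ∈ B', b w v = 0)
    (h : ∀ L : V →ₗ[ℂ] ℂ, (∀ v ∈ B, L v = 0) → ∃ w ∈ Z', ∀ v ∈ Z, L v = b w v)
    (h' : ∀ L : W →ₗ[ℂ] ℂ, (∀ w ∈ B', L w = 0) → ∃ v ∈ Z, ∀ w ∈ Z', L w = b w v) :
    ∃ (s : ℕ) (v : Fin s → V), (∀ i, v i ∈ Z) ∧
      ∀ x ∈ Z, ∃ c : Fin s → ℂ, x - ∑ i, c i • v i ∈ B := by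
  obtain ⟨f, hf⟩ := zz_surj B Z B' Z' b h1 h2 h
  obtain ⟨g, hg⟩ := zz_surj B' Z' B Z b.flip (fun w hw v hv => h2 v hv w hw)
    (fun w hw v hv => h1 v hv w hw) h'
  have := zz_fin1 f g hf hg
  obtain ⟨s, e, he⟩ := Module.Finite.exists_fin (R := ℂ) (M := Z ⧸ B.submoduleOf Z)
  choose v hv using fun i => Submodule.Quotient.mk_surjective _ (e i)
  refine ⟨s, fun i => v i, fun i => (v i).2, fun x hx => ?_⟩
  have h3 : (B.submoduleOf Z).mkQ ⟨x, hx⟩ ∈ Submodule.span ℂ (Set.range e) := he ▸ trivial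
  obtain ⟨c, hc⟩ := (Submodule.mem_span_range_iff_exists_fun ℂ).1 h3
  refine ⟨c, ?_⟩
  have h4 : (B.submoduleOf Z).mkQ (⟨x, hx⟩ - ∑ i, c i • v i) = 0 := by
    rw [map_sub, map_sum, ← hc, sub_eq_zero]
    exact Finset.sum_congr rfl fun i _ => by rw [map_smul, Submodule.mkQ_apply, hv]
  have h5 : ((⟨x, hx⟩ - ∑ i, c i • v i : Z) : V) ∈ B :=
    (Submodule.Quotient.mk_eq_zero (B.submoduleOf Z)).1 h4
  simpa using h5

end Pool.Agent.MP_1c689d_ag.K0

end

section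

/-! Integrals that depend on parameters. -/

set_option autoImplicit false

open Filter Topology Set MeasureTheory

namespace Pool.Agent.MP_1c689d_ag.K0

variable {X : Type} [MeasurableSpace X] {μ : Measure X} {k : ℕ} {u : Fin k → X → ℂ} {f : X → ℂ}
  {M : ℝ}

omit [MeasurableSpace X] in
theorem NLInt_ball (hb : ∀ p, f p ≠ 0 → ∀ i, ‖u i p‖ ≤ M) : ∃ r : ℝ, 0 < r ∧
    ∀ t ∈ Metric.ball (0 : Fin k → ℂ) r, ∀ p, f p ≠ 0 → 2⁻¹ ≤ ‖1 + ∑ i, t i * u i p‖ := by
  have h0 : (0 : ℝ) < k * |M| + 1 := by positivity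
  refine ⟨(2 * (k * |M| + 1))⁻¹, by positivity, fun t ht p hp => ?_⟩
  rw [mem_ball_zero_iff] at ht
  have h1 : ‖∑ i, t i * u i p‖ ≤ k * ((2 * (k * |M| + 1))⁻¹ * |M|) := by
    refine (norm_sum_le _ _).trans ((Finset.sum_le_card_nsmul _ _ _ fun i _ => ?_).trans_eq
      (by rw [Finset.card_univ, Fintype.card_fin, nsmul_eq_mul]))
    rw [norm_mul]
    exact mul_le_mul ((norm_le_pi_norm t i).trans ht.le) ((hb p hp i).trans (le_abs_self M))
      (norm_nonneg _) (by positivity)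
  have h2 : (k : ℝ) * ((2 * (k * |M| + 1))⁻¹ * |M|) ≤ 2⁻¹ := by
    rw [mul_left_comm, ← div_eq_inv_mul, div_le_iff₀ (by positivity)]
    linarith
  have h3 := norm_sub_le (1 + ∑ i, t i * u i p) (∑ i, t i * u i p)
  rw [add_sub_cancel_right, norm_one] at h3
  linarith

theorem NLInt_le {z w : ℂ} (h : w ≠ 0 → 2⁻¹ ≤ ‖z‖) (n : ℕ) : ‖(z ^ n)⁻¹ * w‖ ≤ 2 ^ n * ‖w‖ := by
  by_cases hw : w = 0
  · simp [hw]
  · rw [norm_mul, norm_inv, norm_pow, ← inv_pow]
    refine mul_le_mul_of_nonneg_right (pow_le_pow_left₀ (by positivity) ?_ n) (norm_nonneg _)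
    exact inv_le_of_inv_le₀ two_pos (h hw)

theorem NLInt_meas (hu : ∀ i, Measurable (u i)) (hf : Integrable f μ) (n : ℕ) (t : Fin k → ℂ) :
    AEStronglyMeasurable (fun p => ((1 + ∑ i, t i * u i p) ^ n)⁻¹ * f p) μ := by
  refine AEStronglyMeasurable.mul (Measurable.aestronglyMeasurable ?_) hf.1
  fun_prop

theorem NLInt_mul (hu : ∀ i, Measurable (u i)) (hf : Integrable f μ)
    (hb : ∀ p, f p ≠ 0 → ∀ i, ‖u i p‖ ≤ M) (i : Fin k) :
    Integrable (fun p => u i p * f p) μ := by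
  refine (hf.norm.const_mul M).mono' ((hu i).aestronglyMeasurable.mul hf.1)
    (ae_of_all _ fun p => ?_)
  by_cases h : f p = 0
  · simp [h]
  · rw [norm_mul]
    exact mul_le_mul_of_nonneg_right (hb p h i) (norm_nonneg _)

theorem nl_cont (hu : ∀ i, Measurable (u i)) (hf : Integrable f μ)
    (hb : ∀ p, f p ≠ 0 → ∀ i, ‖u i p‖ ≤ M) (n : ℕ) :
    ContinuousAt (fun t : Fin k → ℂ => ∫ p, ((1 + ∑ i, t i * u i p) ^ n)⁻¹ * f p ∂μ) 0 := by
  obtain ⟨r, hr, h⟩ := NLInt_ball hb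
  refine continuousAt_of_dominated (bound := fun p => 2 ^ n * ‖f p‖)
    (Eventually.of_forall (NLInt_meas hu hf n)) ?_ (hf.norm.const_mul _) (ae_of_all _ fun p => ?_)
  · filter_upwards [Metric.ball_mem_nhds 0 hr] with t ht
    exact ae_of_all _ fun p => NLInt_le (h t ht p) n
  · refine ContinuousAt.mul (ContinuousAt.inv₀ (Continuous.continuousAt (by fun_prop)) (by simp))
      continuousAt_const

theorem NLInt_der (a : Fin k → ℂ) (w : ℂ) (t : Fin k → ℂ) (h : w ≠ 0 → 2⁻¹ ≤ ‖1 + ∑ i, t i * a i‖) :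
    HasFDerivAt (fun t : Fin k → ℂ => (1 + ∑ i, t i * a i)⁻¹ * w)
      (-∑ i, (((1 + ∑ i, t i * a i) ^ 2)⁻¹ * (a i * w)) •
        ContinuousLinearMap.proj (R := ℂ) (φ := fun _ : Fin k => ℂ) i) t := by
  by_cases hw : w = 0
  · subst hw
    simp only [mul_zero]
    refine (hasFDerivAt_const _ _).congr_fderiv ?_
    ext1 v
    simp
  have h0 : 1 + ∑ i, t i * a i ≠ 0 := norm_pos_iff.1 (lt_of_lt_of_le (by norm_num) (h hw))
  have h1 : HasFDerivAt (fun t : Fin k → ℂ => 1 + ∑ i, t i * a i)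
      (∑ i, a i • ContinuousLinearMap.proj (R := ℂ) (φ := fun _ : Fin k => ℂ) i) t :=
    (HasFDerivAt.fun_sum fun i _ => (hasFDerivAt_apply (𝕜 := ℂ) i t).mul_const (a i)).const_add 1
  refine (((hasDerivAt_inv h0).comp_hasFDerivAt t h1).mul_const w).congr_fderiv ?_
  ext1 v
  simp only [smul_apply, sum_apply, neg_apply, smul_eq_mul, Finset.mul_sum,
    ← Finset.sum_neg_distrib]
  exact Finset.sum_congr rfl fun i _ => by ring

theorem nl_strict (hu : ∀ i, Measurable (u i)) (hf : Integrable f μ)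
    (hb : ∀ p, f p ≠ 0 → ∀ i, ‖u i p‖ ≤ M) :
    ∃ D : (Fin k → ℂ) →L[ℂ] ℂ, (∀ h, D h = -∑ i, h i * ∫ p, u i p * f p ∂μ) ∧
      HasStrictFDerivAt (fun t : Fin k → ℂ => ∫ p, (1 + ∑ i, t i * u i p)⁻¹ * f p ∂μ) D 0 := by
  obtain ⟨r, hr, h⟩ := NLInt_ball hb
  have hm := NLInt_mul hu hf hb
  have hb' : ∀ i p, u i p * f p ≠ 0 → f p ≠ 0 := fun i p e => right_ne_zero_of_mul e
  let π : Fin k → (Fin k → ℂ) →L[ℂ] ℂ := fun i => ContinuousLinearMap.proj i
  let D : (Fin k → ℂ) → (Fin k → ℂ) →L[ℂ] ℂ := fun t =>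
    -∑ i, (∫ p, ((1 + ∑ i, t i * u i p) ^ 2)⁻¹ * (u i p * f p) ∂μ) • π i
  have hi : ∀ {g : X → ℂ}, Integrable g μ → (∀ p, g p ≠ 0 → f p ≠ 0) → ∀ (n : ℕ),
      ∀ t ∈ Metric.ball (0 : Fin k → ℂ) r,
      Integrable (fun p => ((1 + ∑ i, t i * u i p) ^ n)⁻¹ * g p) μ := fun hg e n t ht =>
    (hg.norm.const_mul (2 ^ n)).mono' (NLInt_meas hu hg n t)
      (ae_of_all _ fun p => NLInt_le (fun e' => h t ht p (e p e')) n)
  refine ⟨D 0, fun v => ?_, hasStrictFDerivAt_of_hasFDerivAt_of_continuousAt ?_ ?_⟩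
  · simp [D, π, mul_comm]
  · filter_upwards [Metric.ball_mem_nhds 0 hr] with t ht
    have h1 : ∀ i, Integrable
        (fun p => (((1 + ∑ i, t i * u i p) ^ 2)⁻¹ * (u i p * f p)) • π i) μ := fun i =>
      (hi (hm i) (hb' i) 2 t ht).smul_const _
    have h2 := hasFDerivAt_integral_of_dominated_of_fderiv_le (𝕜 := ℂ) (μ := μ)
      (F := fun (t : Fin k → ℂ) p => (1 + ∑ i, t i * u i p)⁻¹ * f p)
      (F' := fun t p => -∑ i, (((1 + ∑ i, t i * u i p) ^ 2)⁻¹ * (u i p * f p)) • π i)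
      (bound := fun p => ∑ i, 2 ^ 2 * ‖u i p * f p‖ * ‖π i‖) (Metric.isOpen_ball.mem_nhds ht)
      (Eventually.of_forall fun t => by simpa only [pow_one] using NLInt_meas hu hf 1 t)
      (by simpa only [pow_one] using hi hf (fun _ e => e) 1 t ht)
      (integrable_finsetSum _ fun i _ => h1 i).neg.1
      (ae_of_all _ fun p s hs => by
        rw [norm_neg]
        refine (norm_sum_le _ _).trans (Finset.sum_le_sum fun i _ => ?_)
        rw [norm_smul]
        exact mul_le_mul_of_nonneg_right (NLInt_le (fun e => h s hs p (hb' i p e)) 2)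
          (norm_nonneg _))
      (integrable_finsetSum _ fun i _ => ((hm i).norm.const_mul _).mul_const _)
      (ae_of_all _ fun p s hs => NLInt_der (fun i => u i p) (f p) s (h s hs p))
    rw [integral_neg, integral_finsetSum _ fun i _ => h1 i] at h2
    simpa only [integral_smul_const] using h2
  · exact (tendsto_finsetSum _ fun i _ =>
      (nl_cont hu (hm i) (fun p e => hb p (hb' i p e)) 2).smul continuousAt_const).neg

end Pool.Agent.MP_1c689d_ag.K0

end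

section

/-! Field theory for spreading out. -/

set_option autoImplicit false

open Polynomial

namespace Pool.Agent.MP_1c689d_ag.K0

noncomputable section

theorem den_SPPrim {R F : Type} [CommRing R] [IsDomain R] [Field F] [Algebra R F]
    [IsFractionRing R F] [Algebra R ℂ] [Algebra F ℂ] [IsScalarTower R F ℂ] {w x : ℂ}
    (hw : IsAlgebraic F w) (hx : x ∈ IntermediateField.adjoin F {w}) :
    ∃ (H : R[X]) (d : R), d ≠ 0 ∧ aeval w H = algebraMap R ℂ d * x := by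
  have h1 : x ∈ Algebra.adjoin F {w} := by
    rw [← IntermediateField.adjoin_simple_toSubalgebra_of_isAlgebraic hw]
    exact hx
  rw [Algebra.adjoin_singleton_eq_range_aeval] at h1
  obtain ⟨p, rfl⟩ := h1
  obtain ⟨b, hb, h2⟩ := IsLocalization.integerNormalization_spec (nonZeroDivisors R) p
  refine ⟨IsLocalization.integerNormalization (nonZeroDivisors R) p, b,
    nonZeroDivisors.ne_zero hb, ?_⟩
  rw [← aeval_map_algebraMap F, h2, ← algebraMap_smul F b p, map_smul, Algebra.smul_def,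
    ← IsScalarTower.algebraMap_apply]
  rfl

theorem gen_SPPrim {R F : Type} [CommRing R] [IsDomain R] [Field F] [Algebra R F]
    [IsFractionRing R F] [Algebra R ℂ] [Algebra F ℂ] [IsScalarTower R F ℂ] (S : Finset ℂ)
    (hS : ∀ x ∈ S, IsAlgebraic R x) :
    ∃ w : ℂ, IsIntegral R w ∧ ∀ x ∈ S, x ∈ IntermediateField.adjoin F {w} := by
  have : CharZero F := (algebraMap F ℂ).charZero
  have : FiniteDimensional F (IntermediateField.adjoin F (S : Set ℂ)) :=
    IntermediateField.finiteDimensional_adjoin fun x hx =>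
      ((IsFractionRing.isAlgebraic_iff R F ℂ).1 (hS x hx)).isIntegral
  obtain ⟨α, hα⟩ := Field.exists_primitive_element F (IntermediateField.adjoin F (S : Set ℂ))
  have h1 : IntermediateField.adjoin F {(α : ℂ)} = IntermediateField.adjoin F (S : Set ℂ) := by
    rw [← IntermediateField.lift_adjoin_simple, hα, IntermediateField.lift_top]
  have h2 : IsAlgebraic F (α : ℂ) :=
    (Algebra.IsAlgebraic.isAlgebraic (R := F) α).algHom (IntermediateField.val _)
  obtain ⟨r, hr, h3⟩ := ((IsFractionRing.isAlgebraic_iff R F ℂ).2 h2).exists_integral_multiple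
  refine ⟨r • (α : ℂ), h3, fun x hx => ?_⟩
  have h4 : x ∈ IntermediateField.adjoin F {(α : ℂ)} :=
    h1.ge (IntermediateField.subset_adjoin F (S : Set ℂ) hx)
  refine (IntermediateField.adjoin_simple_le_iff.2 ?_ :
    IntermediateField.adjoin F {(α : ℂ)} ≤ _) h4
  have h5 : algebraMap R F r ≠ 0 :=
    (map_ne_zero_iff _ (IsFractionRing.injective R F)).2 hr
  have h6 := (IntermediateField.adjoin F {r • (α : ℂ)}).smul_mem (x := (algebraMap R F r)⁻¹)
    (IntermediateField.mem_adjoin_simple_self F _)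
  rwa [← algebraMap_smul F r (α : ℂ), inv_smul_smul₀ h5, algebraMap_smul] at h6

/-- A primitive integral element with a common denominator. -/
theorem SP_prim (R : Type) [CommRing R] [IsDomain R] [IsIntegrallyClosed R] [Algebra R ℂ]
    [FaithfulSMul R ℂ] (S : Finset ℂ) (hS : ∀ x ∈ S, IsAlgebraic R x) :
    ∃ (w : ℂ) (G : R[X]) (Δ : R), G.Monic ∧ Δ ≠ 0 ∧ (∀ H : R[X], aeval w H = 0 ↔ G ∣ H) ∧
      (∃ U V : R[X], U * G + V * derivative G = C Δ) ∧
      ∀ x ∈ S, ∃ H : R[X], aeval w H = algebraMap R ℂ Δ * x := by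
  let _ := FractionRing.liftAlgebra R ℂ
  have := FractionRing.isScalarTower_liftAlgebra R ℂ
  have : CharZero R := (algebraMap R ℂ).charZero
  obtain ⟨w, hw, hx⟩ := gen_SPPrim (F := FractionRing R) S hS
  have hwF : IsAlgebraic (FractionRing R) w :=
    (IsFractionRing.isAlgebraic_iff R _ ℂ).1 hw.isAlgebraic
  have hG := minpoly.isIntegrallyClosed_dvd_iff hw
  have hpos := (minpoly.natDegree_pos hw).ne'
  have hne : aeval w (derivative (minpoly R w)) ≠ 0 := fun h => hpos (derivative_eq_zero.1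
    (eq_zero_of_dvd_of_natDegree_lt ((hG _).1 h) (natDegree_derivative_lt hpos)))
  have hm : aeval w (derivative (minpoly R w)) ∈ IntermediateField.adjoin (FractionRing R) {w} := by
    rw [← aeval_map_algebraMap (FractionRing R)]
    exact IntermediateField.algebra_adjoin_le_adjoin _ _ (aeval_mem_adjoin_singleton _ _)
  obtain ⟨V, d, hd, hV⟩ := den_SPPrim (R := R) hwF (inv_mem hm)
  choose H e he hH using fun x : S => den_SPPrim (R := R) hwF (hx x.1 x.2)
  obtain ⟨U, hU⟩ := (hG (V * derivative (minpoly R w) - C d)).1 (by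
    rw [map_sub, map_mul, hV, aeval_C, mul_assoc, inv_mul_cancel₀ hne, mul_one, sub_self])
  refine ⟨w, minpoly R w, d * ∏ x, e x, minpoly.monic hw,
    mul_ne_zero hd (Finset.prod_ne_zero_iff.2 fun x _ => he x), hG,
    ⟨-U * C (∏ x, e x), V * C (∏ x, e x), ?_⟩, fun x hxS => ?_⟩
  · rw [C_mul]
    linear_combination C (∏ x, e x) * hU
  · obtain ⟨c, hc⟩ := Finset.dvd_prod_of_mem e (Finset.mem_univ ⟨x, hxS⟩)
    refine ⟨C (d * c) * H ⟨x, hxS⟩, ?_⟩
    rw [map_mul, aeval_C, hH, hc, map_mul, map_mul, map_mul]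
    ring

/-- Outside a countable set, the complex numbers are algebraic over `K[s]`. -/
theorem SP_field (S₀ : Finset ℂ) : ∃ Z : Set ℂ, Z.Countable ∧ ∀ s ∉ Z, ∃ K : Subfield ℂ,
    (∀ x ∈ S₀, x ∈ K) ∧ Transcendental K s ∧
      ∀ x : ℂ, ∃ p : K[X][X], p ≠ 0 ∧ eval₂ (aeval s : K[X] →ₐ[K] ℂ).toRingHom x p = 0 := by
  let K₀ := IntermediateField.adjoin ℚ (S₀ : Set ℂ)
  have : Countable K₀ := by
    rw [← Cardinal.mk_le_aleph0_iff]
    refine (IntermediateField.cardinalMk_adjoin_le ℚ _).trans ?_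
    exact max_le (max_le Cardinal.mk_le_aleph0 Cardinal.mk_le_aleph0) le_rfl
  refine ⟨_, Algebraic.countable K₀ ℂ, fun s hs => ?_⟩
  have h1 : AlgebraicIndepOn K₀ id ({s} : Set ℂ) := algebraicIndependent_unique_type_iff.2 hs
  obtain ⟨t, hst, ht⟩ := exists_isTranscendenceBasis_superset h1
  have hs' : s ∈ t := hst rfl
  let T : Set ℂ := Subtype.val '' ({⟨s, hs'⟩}ᶜ : Set t)
  let K := IntermediateField.adjoin K₀ T
  have h2 : Transcendental K s := IntermediateField.transcendental_adjoin_iff.2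
    (ht.1.transcendental_adjoin (i := ⟨s, hs'⟩) (Set.notMem_compl_iff.2 rfl))
  refine ⟨K.toSubfield, fun x hx =>
    K.algebraMap_mem ⟨x, IntermediateField.subset_adjoin ℚ _ hx⟩, h2, fun x => ?_⟩
  obtain ⟨q, hq, hqx⟩ := ht.isAlgebraic.isAlgebraic x
  have h3 : ∀ a ∈ Algebra.adjoin K₀ (Set.range (Subtype.val : t → ℂ)),
      a ∈ (aeval s : K.toSubfield[X] →ₐ[K.toSubfield] ℂ).range := by
    intro a ha
    induction ha using Algebra.adjoin_induction with
    | mem a ha =>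
      obtain ⟨a, rfl⟩ := ha
      by_cases h : a = ⟨s, hs'⟩
      · exact ⟨X, by rw [h]; exact aeval_X s⟩
      · exact Subalgebra.algebraMap_mem _
          (⟨a.1, IntermediateField.subset_adjoin K₀ T ⟨a, h, rfl⟩⟩ : K.toSubfield)
    | algebraMap r =>
      exact Subalgebra.algebraMap_mem _ (⟨_, K.algebraMap_mem r⟩ : K.toSubfield)
    | add a b _ _ ha hb => exact add_mem ha hb
    | mul a b _ _ ha hb => exact mul_mem ha hb
  obtain ⟨p, hp⟩ := (mem_lifts (f := (aeval s : K.toSubfield[X] →ₐ[K.toSubfield] ℂ).toRingHom)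
    (q.map (algebraMap _ ℂ))).1 ((lifts_iff_coeff_lifts _).2 fun n => by
      rw [coeff_map]
      exact h3 _ (q.coeff n).2)
  refine ⟨p, fun h0 => hq ?_, ?_⟩
  · rw [h0, Polynomial.map_zero] at hp
    exact (Polynomial.map_eq_zero_iff Subtype.val_injective).1 hp.symm
  · rw [← eval_map, hp, eval_map_algebraMap, hqx]

end

end Pool.Agent.MP_1c689d_ag.K0

end

section

/-! The algebraic part of spreading out. -/

set_option autoImplicit false

open Polynomial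
open scoped Polynomial.Bivariate

namespace Pool.Agent.MP_1c689d_ag.K0

noncomputable section

/-- The graph of a specialisation. -/
def gr_SPAlg {A : Type} [CommRing A] (e e' : A →+* ℂ) (δ : A) : Subring (ℂ × ℂ) where
  carrier := {z | ∃ (d : ℕ) (H : A), z.1 * e δ ^ d = e H ∧ z.2 * e' δ ^ d = e' H}
  mul_mem' := by
    rintro x y ⟨d, H, h1, h2⟩ ⟨d', H', h3, h4⟩
    refine ⟨d + d', H * H', ?_, ?_⟩
    · rw [map_mul, ← h1, ← h3, Prod.fst_mul]
      ring
    · rw [map_mul, ← h2, ← h4, Prod.snd_mul]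
      ring
  one_mem' := ⟨0, 1, by simp, by simp⟩
  add_mem' := by
    rintro x y ⟨d, H, h1, h2⟩ ⟨d', H', h3, h4⟩
    refine ⟨d + d', H * δ ^ d' + H' * δ ^ d, ?_, ?_⟩
    · simp only [map_add, map_mul, map_pow, ← h1, ← h3, Prod.fst_add]
      ring
    · simp only [map_add, map_mul, map_pow, ← h2, ← h4, Prod.snd_add]
      ring
  zero_mem' := ⟨0, 0, by simp, by simp⟩
  neg_mem' := by
    rintro x ⟨d, H, h1, h2⟩
    refine ⟨d, -H, ?_, ?_⟩
    · rw [map_neg, ← h1, Prod.fst_neg, neg_mul]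
    · rw [map_neg, ← h2, Prod.snd_neg, neg_mul]

/-- Evaluation at a point of the plane. -/
def ev_SPAlg (K : Subfield ℂ) (s w : ℂ) : K[X][X] →+* ℂ :=
  eval₂RingHom (aeval s : K[X] →ₐ[K] ℂ).toRingHom w

theorem ev_C_SPAlg (K : Subfield ℂ) (s w : ℂ) (a : K[X]) :
    ev_SPAlg K s w (C a) = (a.map K.subtype).eval s := by
  rw [ev_SPAlg, coe_eval₂RingHom, eval₂_C, eval_map]
  rfl

theorem ev_map_SPAlg (K : Subfield ℂ) (s w : ℂ) (H : K[X][X]) :
    (H.map (mapRingHom K.subtype)).evalEval s w = ev_SPAlg K s w H := by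
  induction H using Polynomial.induction_on' with
  | add p q hp hq => rw [Polynomial.map_add, evalEval_add, hp, hq, map_add]
  | monomial n a =>
    rw [← C_mul_X_pow_eq_monomial, map_mul, map_pow, ev_C_SPAlg, Polynomial.map_mul,
      Polynomial.map_pow, map_C, map_X, evalEval_mul, evalEval_pow, evalEval_C, evalEval_X,
      ev_SPAlg, coe_eval₂RingHom, eval₂_X, coe_mapRingHom]

/-- Take `K` from `SP_field`, apply `SP_prim` to `R = K[X]` acting on `ℂ` through `aeval s0`.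
`M` and `Δ` are the images of the polynomials of `SP_prim`, `G` is a prime factor of `M` that vanishes
at `(s0, w0)` (`UniqueFactorizationMonoid.exists_prime_factors`), and `Γ s w` is the set of all
`(x, x')` with `x * Δ(s0) ^ d = H(s0, w0)` and `x' * Δ(s) ^ d = H(s, w)` for some `d : ℕ` and
`H : K[X][Y]`. -/
theorem SP_alg (S₀ : Finset ℂ) : ∃ Z : Set ℂ, Z.Countable ∧ ∀ s0 ∉ Z, ∀ S : Finset ℂ,
    ∃ (w0 : ℂ) (G M : ℂ[X][Y]) (Δ : ℂ[X]) (Γ : ℂ → ℂ → Subring (ℂ × ℂ)),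
      Prime G ∧ M.Monic ∧ G ∣ M ∧ G.evalEval s0 w0 = 0 ∧ Δ.eval s0 ≠ 0 ∧
      (∀ s w, G.evalEval s w = 0 → Δ.eval s ≠ 0 → (derivative G).evalEval s w ≠ 0 ∧
        (∀ x, (0, x) ∈ Γ s w → x = 0) ∧ (∀ k ∈ S₀, (k, k) ∈ Γ s w) ∧ (s0, s) ∈ Γ s w) ∧
      ∀ x ∈ S, ∃ H : ℂ[X][Y], H.evalEval s0 w0 / Δ.eval s0 = x ∧
        ∀ s w, Δ.eval s ≠ 0 → (x, H.evalEval s w / Δ.eval s) ∈ Γ s w := by
  obtain ⟨Z, hZ, h⟩ := SP_field S₀
  refine ⟨Z, hZ, fun s0 hs0 S => ?_⟩
  obtain ⟨K, hK, htr, halg⟩ := h s0 hs0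
  let _ : Algebra K[X] ℂ := (aeval s0 : K[X] →ₐ[K] ℂ).toRingHom.toAlgebra
  have hinj : Function.Injective (aeval s0 : K[X] →ₐ[K] ℂ) := transcendental_iff_injective.1 htr
  have : FaithfulSMul K[X] ℂ := (faithfulSMul_iff_algebraMap_injective K[X] ℂ).2 hinj
  obtain ⟨w0, G₀, Δ₀, hmon, hΔ, hdvd, ⟨U, V, hUV⟩, hS⟩ := SP_prim K[X] S fun x _ => halg x
  have hae : ∀ H : K[X][X], aeval w0 H = ev_SPAlg K s0 w0 H := fun H => rfl
  have hΔ0 : algebraMap K[X] ℂ Δ₀ = (Δ₀.map K.subtype).eval s0 := by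
    rw [eval_map]
    rfl
  have hΔ1 : (Δ₀.map K.subtype).eval s0 ≠ 0 := by
    rw [← hΔ0]
    exact fun h0 => hΔ (hinj (h0.trans (map_zero _).symm))
  have hM : (G₀.map (mapRingHom K.subtype)).Monic := hmon.map _
  obtain ⟨f, hf, hfM⟩ := UniqueFactorizationMonoid.exists_prime_factors _ hM.ne_zero
  have h0 : evalEvalRingHom s0 w0 f.prod = 0 := by
    obtain ⟨N, hN⟩ := hfM.symm.dvd
    rw [hN, map_mul, coe_evalEvalRingHom, ev_map_SPAlg, ← hae, (hdvd G₀).2 dvd_rfl, zero_mul]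
  rw [map_multiset_prod, Multiset.prod_eq_zero_iff, Multiset.mem_map] at h0
  obtain ⟨G, hGf, hG0⟩ := h0
  obtain ⟨N, hN⟩ := (Multiset.dvd_prod hGf).trans hfM.dvd
  refine ⟨w0, G, G₀.map (mapRingHom K.subtype), Δ₀.map K.subtype,
    fun s w => gr_SPAlg (ev_SPAlg K s0 w0) (ev_SPAlg K s w) (C Δ₀), hf G hGf, hM, ⟨N, hN⟩, hG0,
    hΔ1, fun s w hG hs => ?_, fun x hx => ?_⟩
  · have h1 : ev_SPAlg K s w G₀ = 0 := by
      rw [← ev_map_SPAlg, hN, evalEval_mul, hG, zero_mul]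
    refine ⟨fun h2 => hs ?_, ?_, fun k hk => ⟨0, C (C ⟨k, hK k hk⟩), ?_, ?_⟩, ⟨0, C X, ?_, ?_⟩⟩
    · have h3 : ev_SPAlg K s w (derivative G₀) = 0 := by
        rw [← ev_map_SPAlg, ← derivative_map, hN, derivative_mul, evalEval_add, evalEval_mul,
          evalEval_mul, h2, hG, zero_mul, zero_mul, add_zero]
      rw [← ev_C_SPAlg K s w, ← hUV, map_add, map_mul, map_mul, h1, h3, mul_zero, mul_zero,
        add_zero]
    · rintro x ⟨d, H, h2, h3⟩
      obtain ⟨H', rfl⟩ := (hdvd H).1 (by rw [hae, ← h2, zero_mul])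
      rw [map_mul, h1, zero_mul, ev_C_SPAlg] at h3
      exact (mul_eq_zero.1 h3).resolve_right (pow_ne_zero d hs)
    · simp [ev_C_SPAlg]
    · simp [ev_C_SPAlg]
    · simp [ev_C_SPAlg]
    · simp [ev_C_SPAlg]
  · obtain ⟨H, hH⟩ := hS x hx
    rw [hae, hΔ0] at hH
    refine ⟨H.map (mapRingHom K.subtype), ?_, fun s w hs => ⟨1, H, ?_, ?_⟩⟩
    · rw [ev_map_SPAlg, hH, mul_div_cancel_left₀ _ hΔ1]
    · rw [pow_one, ev_C_SPAlg, hH, mul_comm]
    · rw [pow_one, ev_C_SPAlg, ev_map_SPAlg]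
      exact div_mul_cancel₀ _ hs

end

end Pool.Agent.MP_1c689d_ag.K0

end

section

/-! Approximate Riesz representation for a positive semidefinite form. -/

set_option autoImplicit false

open Complex Filter Topology Set MeasureTheory
open scoped ComplexConjugate ContDiff ENNReal NNReal

namespace Pool.Agent.MP_1c689d_ag.K0.L2

noncomputable section

variable {A : Type} [AddCommGroup A] [Module ℂ A]

/-- A positive semidefinite hermitian form on the subspace `W`. -/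
structure Psd (W : Submodule ℂ A) (B : A → A → ℂ) : Prop where
  add : ∀ u ∈ W, ∀ v ∈ W, ∀ w ∈ W, B (u + v) w = B u w + B v w
  smul : ∀ (c : ℂ), ∀ u ∈ W, ∀ w ∈ W, B (c • u) w = c * B u w
  sym : ∀ u ∈ W, ∀ w ∈ W, conj (B u w) = B w u
  pos : ∀ u ∈ W, 0 ≤ (B u u).re

variable {W : Submodule ℂ A} {B : A → A → ℂ}

theorem RZ_disc {ε a : ℝ} {z : ℂ} (ha : 0 ≤ a)
    (h : ∀ c : ℂ, 0 ≤ ε + 2 * (c * z).re + normSq c * a) : ‖z‖ ^ 2 ≤ ε * a := by
  have h0 : 0 ≤ ε := by simpa using h 0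
  have h1 := discrim_le_zero (a := normSq z * a) (b := 2 * normSq z) (c := ε) fun t => by
    have h2 := h (t * conj z)
    rw [mul_assoc, conj_mul', re_ofReal_mul, map_mul, normSq_conj, normSq_ofReal, ← ofReal_pow,
      ofReal_re, ← normSq_eq_norm_sq] at h2
    linarith
  rw [discrim] at h1
  rw [← normSq_eq_norm_sq]
  rcases (normSq_nonneg z).eq_or_lt with h2 | h2
  · rw [← h2]
    positivity
  · refine le_of_mul_le_mul_left ?_ h2
    linarith

theorem RZ_exp (h : Psd W B) {u w : A} (hu : u ∈ W) (hw : w ∈ W) (c : ℂ) :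
    (B (w + c • u) (w + c • u)).re =
      (B w w).re + 2 * (c * B u w).re + normSq c * (B u u).re := by
  have h1 := W.smul_mem c hu
  have h2 := W.add_mem hw h1
  rw [h.add _ hw _ h1 _ h2, h.smul _ _ hu _ h2, ← h.sym _ h2 _ hw, ← h.sym _ h2 _ hu,
    h.add _ hw _ h1 _ hw, h.add _ hw _ h1 _ hu, h.smul _ _ hu _ hw, h.smul _ _ hu _ hu,
    map_add _ (B w u), h.sym _ hw _ hu, map_mul, h.sym _ hu _ hu, mul_add, ← mul_assoc, mul_conj]
  simp only [add_re, conj_re, re_ofReal_mul]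
  ring

theorem Psd.cs (h : Psd W B) {u w : A} (hu : u ∈ W) (hw : w ∈ W) :
    ‖B u w‖ ^ 2 ≤ (B u u).re * (B w w).re :=
  (RZ_disc (h.pos u hu) fun c => by
    rw [← RZ_exp h hu hw]
    exact h.pos _ (W.add_mem hw (W.smul_mem c hu))).trans_eq (mul_comm _ _)

/-- Minimise the energy `e v = re (B v v) - 2 re (l v)`, which is bounded below by `-M`; choose
`v k` with `e (v k) ≤ min 0 (inf + 1 / (k + 1))`; the parallelogram identity gives the Cauchy
property, and `e (v k + c • u) ≥ inf` gives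
`‖B u (v k) - l u‖ ^ 2 ≤ (e (v k) - inf) * re (B u u)`. (Or use the completion of the
seminormed space given by `PreInnerProductSpace.Core`.) -/
theorem Psd.riesz (h : Psd W B) {l : A → ℂ} (ha : ∀ u ∈ W, ∀ v ∈ W, l (u + v) = l u + l v)
    (hs : ∀ (c : ℂ), ∀ u ∈ W, l (c • u) = c * l u) {M : ℝ} (hM : 0 ≤ M)
    (hl : ∀ u ∈ W, ‖l u‖ ^ 2 ≤ M * (B u u).re) :
    ∃ v : ℕ → A, (∀ k, v k ∈ W) ∧ (∀ k, (B (v k) (v k)).re ≤ 4 * M) ∧
      Tendsto (fun k : ℕ × ℕ => (B (v k.1 - v k.2) (v k.1 - v k.2)).re) atTop (𝓝 0) ∧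
      ∀ u ∈ W, Tendsto (fun k => B u (v k)) atTop (𝓝 (l u)) := by
  let e : A → ℝ := fun v => (B v v).re - 2 * (l v).re
  have he : ∀ u ∈ W, ∀ w ∈ W, ∀ c : ℂ, e (w + c • u) =
      e w + 2 * (c * (B u w - l u)).re + normSq c * (B u u).re := fun u hu w hw c => by
    simp only [e]
    rw [RZ_exp h hu hw, ha _ hw _ (W.smul_mem c hu), hs _ _ hu, mul_sub c, add_re, sub_re]
    ring
  have hb : BddBelow (e '' W) := ⟨-M, by
    rintro _ ⟨v, hv, rfl⟩
    have h1 : 2 * ‖l v‖ ≤ (B v v).re + M := by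
      refine le_of_sq_le_sq ?_ (add_nonneg (h.pos v hv) hM)
      nlinarith [hl v hv, sq_nonneg ((B v v).re - M)]
    have h2 := re_le_norm (l v)
    simp only [e]
    linarith⟩
  have hm : ∀ v ∈ W, sInf (e '' W) ≤ e v := fun v hv => csInf_le hb ⟨v, hv, rfl⟩
  have h0 : e 0 = 0 := by
    have h1 := h.smul 0 0 W.zero_mem 0 W.zero_mem
    have h2 := hs 0 0 W.zero_mem
    rw [zero_smul, zero_mul] at h1 h2
    simp only [e, h1, h2, zero_re, mul_zero, sub_zero]
  have hv : ∀ k : ℕ, ∃ v ∈ W, e v ≤ 0 ∧ e v - sInf (e '' W) ≤ 1 / ((k : ℝ) + 1) := fun k => by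
    obtain ⟨_, ⟨v, hv, rfl⟩, h1⟩ := exists_lt_of_csInf_lt ⟨e 0, mem_image_of_mem e W.zero_mem⟩
      (lt_add_of_pos_right (sInf (e '' W)) (Nat.one_div_pos_of_nat (α := ℝ) (n := k)))
    rcases le_total (e v) 0 with h2 | h2
    · exact ⟨v, hv, h2, by linarith⟩
    · exact ⟨0, W.zero_mem, h0.le, by linarith⟩
  choose v hv h1 h2 using hv
  have ht : Tendsto (fun k : ℕ => 1 / ((k : ℝ) + 1)) atTop (𝓝 0) :=
    tendsto_one_div_add_atTop_nhds_zero_nat
  refine ⟨v, hv, fun k => ?_, ?_, fun u hu => ?_⟩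
  · have h3 := h1 k
    have h4 := re_le_norm (l (v k))
    have h5 := hl _ (hv k)
    have h6 := h.pos _ (hv k)
    simp only [e] at h3
    by_contra h7
    have h8 : (B (v k) (v k)).re ^ 2 ≤ (2 * ‖l (v k)‖) ^ 2 :=
      pow_le_pow_left₀ h6 (by linarith) 2
    nlinarith
  · have h3 : Tendsto (fun k : ℕ × ℕ => 2 * (1 / ((k.1 : ℝ) + 1)) + 2 * (1 / ((k.2 : ℝ) + 1)))
        atTop (𝓝 (2 * 0 + 2 * 0)) := by
      rw [← prod_atTop_atTop_eq]
      exact ((ht.comp tendsto_fst).const_mul 2).add ((ht.comp tendsto_snd).const_mul 2)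
    rw [mul_zero, add_zero] at h3
    refine squeeze_zero (fun k => h.pos _ (W.sub_mem (hv _) (hv _))) (fun k => ?_) h3
    have hu := W.sub_mem (hv k.1) (hv k.2)
    have h4 := he _ hu _ (hv k.2) 1
    have h5 := hm _ (W.add_mem (hv k.2) (W.smul_mem ((1 / 2 : ℝ) : ℂ) hu))
    rw [he _ hu _ (hv k.2), re_ofReal_mul, normSq_ofReal] at h5
    rw [one_smul, add_sub_cancel, one_mul, map_one] at h4
    linarith [h2 k.1, h2 k.2]
  · rw [tendsto_iff_norm_sub_tendsto_zero]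
    have h3 := (ht.mul_const (B u u).re).sqrt
    rw [zero_mul, Real.sqrt_zero] at h3
    refine squeeze_zero (fun k => norm_nonneg _) (fun k => Real.le_sqrt_of_sq_le ?_) h3
    refine (RZ_disc (ε := e (v k) - sInf (e '' W)) (h.pos u hu) fun c => ?_).trans
      (mul_le_mul_of_nonneg_right (h2 k) (h.pos u hu))
    have h4 := hm _ (W.add_mem (hv k) (W.smul_mem c hu))
    rw [he _ hu _ (hv k)] at h4
    linarith

end

end Pool.Agent.MP_1c689d_ag.K0.L2

end

section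

/-! Weak equals strong: the abstract argument. -/

set_option autoImplicit false

open Complex Filter Topology Set MeasureTheory
open scoped ComplexConjugate ContDiff ENNReal NNReal

namespace Pool.Agent.MP_1c689d_ag.K0.L2

noncomputable section

theorem WA_le {a b c C D : ℝ} (h1 : a ≤ C * b) (hb : 0 ≤ b) (h2 : b ≤ D * c) :
    a ≤ |C| * D * c :=
  calc a ≤ |C| * b := h1.trans (mul_le_mul_of_nonneg_right (le_abs_self C) hb)
    _ ≤ |C| * (D * c) := mul_le_mul_of_nonneg_left h2 (abs_nonneg C)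
    _ = |C| * D * c := (mul_assoc _ _ _).symm

theorem WA_unif {M : Type} [SeminormedAddCommGroup M] (R : ℕ → M → M)
    (hs : ∀ j V W, R j (V - W) = R j V - R j W) {C : ℝ} (hC : ∀ j V, ‖R j V‖ ≤ C * ‖V‖)
    (h0 : ∀ V, Tendsto (fun j => ‖R j V‖) atTop (𝓝 0)) {U : ℕ → M}
    (hU : Tendsto (fun k : ℕ × ℕ => ‖U k.1 - U k.2‖) atTop (𝓝 0)) :
    Tendsto (fun p : ℕ × ℕ => ‖R p.1 (U p.2)‖) atTop (𝓝 0) := by
  refine tendsto_order.2 ⟨fun a ha => .of_forall fun p => ha.trans_le (norm_nonneg _),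
    fun η hη => ?_⟩
  have h1 : Tendsto (fun k : ℕ × ℕ => C * ‖U k.1 - U k.2‖) atTop (𝓝 0) := by
    simpa only [mul_zero] using hU.const_mul C
  obtain ⟨⟨a, b⟩, hab⟩ := eventually_atTop.1 ((tendsto_order.1 h1).2 (η / 2) (half_pos hη))
  obtain ⟨j, hj⟩ := eventually_atTop.1 ((tendsto_order.1 (h0 (U b))).2 (η / 2) (half_pos hη))
  refine eventually_atTop.2 ⟨(j, a), fun p hp => ?_⟩
  have e : R p.1 (U p.2) = R p.1 (U p.2 - U b) + R p.1 (U b) := by rw [hs, sub_add_cancel]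
  have h2 := hab (p.2, b) ⟨hp.2, le_rfl⟩
  have h3 := hj p.1 hp.1
  have h4 := hC p.1 (U p.2 - U b)
  have h5 := norm_add_le (R p.1 (U p.2 - U b)) (R p.1 (U b))
  rw [e]
  dsimp only at h2
  linarith

/-- Put `T j V = ∑ i, S i j (ρ i V)`, `σ i V = P (ρ i V) - ρ i (P V)` (so `∑ σ i V = 0`,
`σ i V ∈ L i`). Then `P (T j U) - F = ∑ [P, S i j] (ρ i U) + ∑ S i j (ρ i (P U - F)) +
∑ (S i j (ρ i F) - ρ i F) + ∑ S i j (σ i U)`. Given `η`, fix `m` with `‖U k - U m‖` small for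
`k ≥ m`; split `U k = U m + (U k - U m)` in the first and the last sum and in `T j (U k) - U k`;
choose `j` large (`hc` for `ρ i (U m)`, `σ i (U m)`, `ρ i F`), then `k` large (`he`; the sequence is
Cauchy by `hf`, `hb`, as `ρ i (P V) = P (ρ i V) - σ i V`). So for every `η > 0` and `N` there are
`k ≥ N`, `j` with `‖T j (U k) - U k‖ ≤ η` and `‖P (T j (U k)) - F‖ ≤ η`. -/
theorem weak_strong_abs {M : Type} [SeminormedAddCommGroup M] {ι : Type} [Fintype ι]
    (P : M →+ M) (ρ : ι → M →+ M) (L : ι → AddSubgroup M) (S : ι → ℕ → M → M)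
    (hsum : ∀ V, ∑ i, ρ i V = V) (hL : ∀ i V, ρ i V ∈ L i) (hP : ∀ i, ∀ V ∈ L i, P V ∈ L i)
    (hρ : ∀ i, ∃ C : ℝ, ∀ V, ‖ρ i V‖ ≤ C * ‖V‖ ∧ ‖P (ρ i V) - ρ i (P V)‖ ≤ C * ‖V‖)
    (hsub : ∀ i j, ∀ V ∈ L i, ∀ W ∈ L i, S i j (V - W) = S i j V - S i j W)
    (hb : ∀ i, ∃ C : ℝ, ∀ j, ∀ V ∈ L i,
      ‖S i j V‖ ≤ C * ‖V‖ ∧ ‖P (S i j V) - S i j (P V)‖ ≤ C * ‖V‖)
    (hc : ∀ i, ∀ V ∈ L i, Tendsto (fun j => ‖S i j V - V‖) atTop (𝓝 0) ∧
      Tendsto (fun j => ‖P (S i j V) - S i j (P V)‖) atTop (𝓝 0))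
    (hf : ∀ i j, ∃ C : ℝ, ∀ V ∈ L i, ‖S i j (P V)‖ ≤ C * ‖V‖)
    (U : ℕ → M) (hU : Tendsto (fun k : ℕ × ℕ => ‖U k.1 - U k.2‖) atTop (𝓝 0)) (F : M)
    (he : ∀ i j, Tendsto (fun k : ℕ × ℕ => ‖S i j (ρ i (P (U k.1) - F)) -
        S i j (ρ i (P (U k.2) - F))‖) atTop (𝓝 0) →
      Tendsto (fun k => ‖S i j (ρ i (P (U k) - F))‖) atTop (𝓝 0)) :
    ∃ V : ℕ → M, Tendsto (fun k : ℕ × ℕ => ‖V k.1 - U k.2‖) atTop (𝓝 0) ∧
      Tendsto (fun k => ‖P (V k) - F‖) atTop (𝓝 0) := by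
  choose Cρ hρ using hρ
  choose Cb hb using hb
  choose Cf hf using hf
  obtain ⟨σ, hσ⟩ : ∃ σ : ι → M →+ M, ∀ i V, σ i V = P (ρ i V) - ρ i (P V) :=
    ⟨fun i => P.comp (ρ i) - (ρ i).comp P, fun _ _ => rfl⟩
  have hσL : ∀ i V, σ i V ∈ L i := fun i V => by
    rw [hσ]
    exact (L i).sub_mem (hP i _ (hL i V)) (hL i _)
  have hσb : ∀ i V, ‖σ i V‖ ≤ Cρ i * ‖V‖ := fun i V => by
    rw [hσ]
    exact (hρ i V).2
  have hσs : ∀ V, ∑ i, σ i V = 0 := fun V => by
    simp only [hσ]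
    rw [Finset.sum_sub_distrib, ← map_sum, hsum, hsum, sub_self]
  have key : ∀ i (f : M →+ M), (∀ V, f V ∈ L i) → (∀ V, ‖f V‖ ≤ Cρ i * ‖V‖) →
      Tendsto (fun p : ℕ × ℕ => ‖S i p.1 (f (U p.2)) - f (U p.2)‖) atTop (𝓝 0) := by
    intro i f h1 h2
    refine WA_unif (fun j V => S i j (f V) - f V) (fun j V W => ?_)
      (C := |Cb i| * Cρ i + Cρ i) (fun j V => ?_) (fun V => (hc i _ (h1 V)).1) hU
    · rw [map_sub, hsub i j _ (h1 V) _ (h1 W)]
      abel
    · have a1 := WA_le (hb i j _ (h1 V)).1 (norm_nonneg _) (h2 V)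
      have a2 := norm_sub_le (S i j (f V)) (f V)
      have a3 := h2 V
      rw [add_mul]
      linarith
  have t1 := fun i => key i (ρ i) (hL i) fun V => (hρ i V).1
  have t2 := fun i => key i (σ i) (hσL i) (hσb i)
  have t3 : ∀ i, Tendsto (fun p : ℕ × ℕ =>
      ‖P (S i p.1 (ρ i (U p.2))) - S i p.1 (P (ρ i (U p.2)))‖) atTop (𝓝 0) := by
    intro i
    refine WA_unif (fun j V => P (S i j (ρ i V)) - S i j (P (ρ i V))) (fun j V W => ?_)
      (C := |Cb i| * Cρ i) (fun j V => WA_le (hb i j _ (hL i V)).2 (norm_nonneg _) (hρ i V).1)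
      (fun V => (hc i _ (hL i V)).2) hU
    rw [map_sub, hsub i j _ (hL i V) _ (hL i W), map_sub, map_sub,
      hsub i j _ (hP i _ (hL i V)) _ (hP i _ (hL i W))]
    abel
  have t4 : ∀ i j, Tendsto (fun k => ‖S i j (ρ i (P (U k) - F))‖) atTop (𝓝 0) := by
    intro i j
    refine he i j (squeeze_zero (fun _ => norm_nonneg _) (fun k => ?_)
      (g := fun k : ℕ × ℕ => (|Cf i j| * Cρ i + |Cb i| * Cρ i) * ‖U k.1 - U k.2‖) ?_)
    · have e : ρ i (P (U k.1) - F) - ρ i (P (U k.2) - F) =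
          P (ρ i (U k.1 - U k.2)) - σ i (U k.1 - U k.2) := by
        rw [hσ, sub_sub_cancel, ← map_sub, map_sub P, sub_sub_sub_cancel_right]
      rw [← hsub i j _ (hL i _) _ (hL i _), e, hsub i j _ (hP i _ (hL i _)) _ (hσL i _), add_mul]
      exact (norm_sub_le _ _).trans (add_le_add
        (WA_le (hf i j _ (hL i _)) (norm_nonneg _) (hρ i _).1)
        (WA_le (hb i j _ (hσL i _)).1 (norm_nonneg _) (hσb i _)))
    · simpa only [mul_zero] using hU.const_mul (|Cf i j| * Cρ i + |Cb i| * Cρ i)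
  have t5 : ∀ j : ℕ, ∃ k, j ≤ k ∧ ∀ i, ‖S i j (ρ i (P (U k) - F))‖ < 1 / ((j : ℝ) + 1) := by
    intro j
    exact ((eventually_ge_atTop j).and (eventually_all.2 fun i =>
      (tendsto_order.1 (t4 i j)).2 _ Nat.one_div_pos_of_nat)).exists
  choose k hk1 hk2 using t5
  have tk : Tendsto k atTop atTop := tendsto_atTop_mono hk1 tendsto_id
  have tp : Tendsto (fun j => (j, k j)) atTop (atTop : Filter (ℕ × ℕ)) := by
    rw [← prod_atTop_atTop_eq]
    exact tendsto_id.prodMk tk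
  have t6 : ∀ i, Tendsto (fun j => ‖S i j (ρ i (P (U (k j)) - F))‖) atTop (𝓝 0) := fun i =>
    squeeze_zero (fun _ => norm_nonneg _) (fun j => (hk2 j i).le)
      tendsto_one_div_add_atTop_nhds_zero_nat
  refine ⟨fun j => ∑ i, S i j (ρ i (U (k j))), ?_, ?_⟩
  · have f1 : Tendsto (fun p : ℕ × ℕ => p.1) atTop atTop := by
      rw [← prod_atTop_atTop_eq]
      exact tendsto_fst
    have f2 : Tendsto (fun p : ℕ × ℕ => (k p.1, p.2)) atTop (atTop : Filter (ℕ × ℕ)) := by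
      rw [← prod_atTop_atTop_eq]
      exact (tk.comp tendsto_fst).prodMk tendsto_snd
    have f3 := (tendsto_finsetSum Finset.univ fun i _ => ((t1 i).comp tp).comp f1).add
      (hU.comp f2)
    rw [Finset.sum_const_zero, add_zero] at f3
    refine squeeze_zero (fun _ => norm_nonneg _) (fun p => ?_) f3
    have e : ∑ i, S i p.1 (ρ i (U (k p.1))) - U p.2 =
        ∑ i, (S i p.1 (ρ i (U (k p.1))) - ρ i (U (k p.1))) + (U (k p.1) - U p.2) := by
      rw [Finset.sum_sub_distrib, hsum, sub_add_sub_cancel]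
    rw [e]
    exact (norm_add_le _ _).trans (add_le_add (norm_sum_le _ _) le_rfl)
  · have f3 := tendsto_finsetSum Finset.univ fun i _ =>
      ((((t3 i).comp tp).add ((t2 i).comp tp)).add (t6 i)).add (hc i _ (hL i F)).1
    simp only [add_zero, Finset.sum_const_zero] at f3
    refine squeeze_zero (fun _ => norm_nonneg _) (fun j => ?_) f3
    have e1 : ∀ i, S i j (P (ρ i (U (k j)))) = S i j (σ i (U (k j))) +
        S i j (ρ i (P (U (k j)) - F)) + S i j (ρ i F) := fun i => by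
      rw [hσ, map_sub (ρ i), hsub i j _ (hP i _ (hL i _)) _ (hL i _),
        hsub i j _ (hL i _) _ (hL i _)]
      abel
    have e : P (∑ i, S i j (ρ i (U (k j)))) - F =
        ∑ i, (P (S i j (ρ i (U (k j)))) - S i j (P (ρ i (U (k j)))) +
          (S i j (σ i (U (k j))) - σ i (U (k j))) + S i j (ρ i (P (U (k j)) - F)) +
          (S i j (ρ i F) - ρ i F)) := by
      have e2 : ∀ i, P (S i j (ρ i (U (k j)))) - S i j (P (ρ i (U (k j)))) +
          (S i j (σ i (U (k j))) - σ i (U (k j))) + S i j (ρ i (P (U (k j)) - F)) +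
          (S i j (ρ i F) - ρ i F) = P (S i j (ρ i (U (k j)))) - σ i (U (k j)) - ρ i F := fun i => by
        rw [e1]
        abel
      simp only [e2]
      rw [Finset.sum_sub_distrib, Finset.sum_sub_distrib, hσs, hsum, sub_zero, map_sum]
    rw [e]
    refine (norm_sum_le _ _).trans (Finset.sum_le_sum fun i _ => ?_)
    exact (norm_add_le _ _).trans (add_le_add ((norm_add_le _ _).trans
      (add_le_add (norm_add_le _ _) le_rfl)) le_rfl)

end

end Pool.Agent.MP_1c689d_ag.K0.L2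

end

section

/-! Hodge decomposition: two facts of linear algebra. -/

set_option autoImplicit false

namespace Pool.Agent.MP_1c689d_ag.K0

theorem HD_mem_of_ann {V : Type} [AddCommGroup V] [Module ℂ V] [FiniteDimensional ℂ V]
    (Y : Submodule ℂ (Module.Dual ℂ V)) (u : Module.Dual ℂ V)
    (h : ∀ v, (∀ y ∈ Y, y v = 0) → u v = 0) : u ∈ Y := by
  rw [← Subspace.dualCoannihilator_dualAnnihilator_eq (W := Y)]
  exact (Submodule.mem_dualAnnihilator _).2 fun v hv =>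
    h v ((Submodule.mem_dualCoannihilator _).1 hv)

theorem HD_eq_top {C : Type} [AddCommGroup C] [Module ℂ C] (E S : Submodule ℂ C) (hES : E ≤ S)
    {s : ℕ} (v : Fin s → C) (hv : ∀ a, ∃ c : Fin s → ℂ, a - ∑ i, c i • v i ∈ E)
    (B : C →ₗ[ℂ] C →ₗ[ℂ] ℂ) (h1 : ∀ e ∈ E, ∀ a, B e a = 0 ∧ B a e = 0)
    (h : ∀ a, (∀ b ∈ S, B a b = 0) → a ∈ E) : S = ⊤ := by
  have : FiniteDimensional ℂ (C ⧸ E) := by
    refine Module.Finite.of_surjective (E.mkQ ∘ₗ Fintype.linearCombination ℂ v) fun a => ?_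
    obtain ⟨a, rfl⟩ := E.mkQ_surjective a
    obtain ⟨c, hc⟩ := hv a
    exact ⟨c, ((Submodule.Quotient.eq E).2 hc).symm⟩
  let B' := B.liftQ₂ E E (fun e he => LinearMap.ext fun a => (h1 e he a).1)
    (fun e he => LinearMap.ext fun a => (h1 e he a).2)
  have hinj : Function.Injective ((S.map E.mkQ).dualRestrict ∘ₗ B') := by
    rw [injective_iff_map_eq_zero]
    intro a ha
    obtain ⟨a, rfl⟩ := E.mkQ_surjective a
    refine (Submodule.Quotient.mk_eq_zero E).2 (h a fun b hb => ?_)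
    exact LinearMap.congr_fun ha ⟨E.mkQ b, Submodule.mem_map_of_mem hb⟩
  have hle := LinearMap.finrank_le_finrank_of_injective hinj
  rw [Subspace.dual_finrank_eq] at hle
  have htop : S.map E.mkQ = ⊤ :=
    Submodule.eq_top_of_finrank_eq (le_antisymm (Submodule.finrank_le _) hle)
  rwa [Submodule.map_mkQ_eq_top, sup_eq_right.2 hES] at htop

end Pool.Agent.MP_1c689d_ag.K0

end
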