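import Pool.Agent.Mg.F1c689d.G932365
import Pool.Agent.Mg.F1c689d.Ga42b27

set_option linter.all false


section

/-! The lemma of Poincaré on convex sets. -/

set_option autoImplicit false

open Complex Filter Topology Set MeasureTheory
open scoped ComplexConjugate ContDiff ENNReal

namespace Pool.Agent.MP_1c689d_ag.K0

noncomputable section

variable {n : ℕ}

section Param

variable {P : Type} [NormedAddCommGroup P] [NormedSpace ℝ P]

theorem PO_slice {W : Type} [NormedAddCommGroup W] [NormedSpace ℝ W] {F : P × ℝ → W} {U : Set P}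
    (h : ∀ x ∈ U, ∀ t ∈ uIcc (0 : ℝ) 1, ContDiffAt ℝ ∞ F (x, t)) {x : P} (hx : x ∈ U) :
    ContinuousOn (fun t => F (x, t)) (uIcc 0 1) := fun t ht =>
  ((h x hx t ht).continuousAt.comp (f := fun t => (x, t)) (by fun_prop)).continuousWithinAt

theorem PO_der {W : Type} [NormedAddCommGroup W] [NormedSpace ℝ W] {F : P × ℝ → W} {U : Set P}
    (h : ∀ x ∈ U, ∀ t ∈ uIcc (0 : ℝ) 1, ContDiffAt ℝ ∞ F (x, t)) :
    ∀ x ∈ U, ∀ t ∈ uIcc (0 : ℝ) 1,
      ContDiffAt ℝ ∞ (fun p => (fderiv ℝ F p).comp (ContinuousLinearMap.inl ℝ P ℝ)) (x, t) :=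
  fun x hx t ht => ((h x hx t ht).fderiv_right (m := ∞) le_rfl).clm_comp contDiffAt_const

theorem PO_one {W : Type} [NormedAddCommGroup W] [NormedSpace ℝ W] {F : P × ℝ → W} {x : P} {t : ℝ}
    (h : ContDiffAt ℝ ∞ F (x, t)) : HasFDerivAt (fun x => F (x, t))
      ((fderiv ℝ F (x, t)).comp (ContinuousLinearMap.inl ℝ P ℝ)) x :=
  (h.differentiableAt (by simp)).hasFDerivAt.comp x (hasFDerivAt_prodMk_left x t)

variable [ProperSpace P]

theorem PO_has {W : Type} [NormedAddCommGroup W] [NormedSpace ℝ W] {F : P × ℝ → W} {U : Set P}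
    (hU : IsOpen U) (h : ∀ x ∈ U, ∀ t ∈ uIcc (0 : ℝ) 1, ContDiffAt ℝ ∞ F (x, t)) {x : P}
    (hx : x ∈ U) : HasFDerivAt (fun x => ∫ t in (0 : ℝ)..1, F (x, t))
      (∫ t in (0 : ℝ)..1, (fderiv ℝ F (x, t)).comp (ContinuousLinearMap.inl ℝ P ℝ)) x := by
  obtain ⟨r, hr, hs⟩ := Metric.nhds_basis_closedBall.mem_iff.1 (hU.mem_nhds hx)
  have hK : IsCompact (Metric.closedBall x r ×ˢ uIcc (0 : ℝ) 1) :=
    (isCompact_closedBall _ _).prod isCompact_uIcc
  obtain ⟨M, hM⟩ := hK.exists_bound_of_continuousOn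
    (f := fun p => (fderiv ℝ F p).comp (ContinuousLinearMap.inl ℝ P ℝ))
    fun p hp => (PO_der h p.1 (hs hp.1) p.2 hp.2).continuousAt.continuousWithinAt
  refine intervalIntegral.hasFDerivAt_integral_of_dominated_of_fderiv_le (𝕜 := ℝ) (μ := volume)
    (F := fun x t => F (x, t))
    (F' := fun x t => (fderiv ℝ F (x, t)).comp (ContinuousLinearMap.inl ℝ P ℝ))
    (bound := fun _ => M) (Metric.closedBall_mem_nhds x hr) ?_
    (PO_slice h hx).intervalIntegrable
    (((PO_slice (PO_der h) hx).mono uIoc_subset_uIcc).aestronglyMeasurable measurableSet_uIoc)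
    (ae_of_all _ fun t ht w hw => hM (w, t) ⟨hw, uIoc_subset_uIcc ht⟩) intervalIntegrable_const
    (ae_of_all _ fun t ht w hw => PO_one (h w (hs hw) t (uIoc_subset_uIcc ht)))
  filter_upwards [hU.mem_nhds hx] with w hw
  exact ((PO_slice h hw).mono uIoc_subset_uIcc).aestronglyMeasurable measurableSet_uIoc

theorem PO_cd {U : Set P} (hU : IsOpen U) (N : ℕ) : ∀ {W : Type} [NormedAddCommGroup W]
    [NormedSpace ℝ W] {F : P × ℝ → W}, (∀ x ∈ U, ∀ t ∈ uIcc (0 : ℝ) 1, ContDiffAt ℝ ∞ F (x, t)) →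
    ContDiffOn ℝ N (fun x => ∫ t in (0 : ℝ)..1, F (x, t)) U := by
  induction N with
  | zero =>
    intro W _ _ F h
    exact contDiffOn_zero.2 fun x hx => (PO_has hU h hx).continuousAt.continuousWithinAt
  | succ N ih =>
    intro W _ _ F h
    rw [Nat.cast_succ, contDiffOn_succ_iff_fderiv_of_isOpen hU]
    exact ⟨fun x hx => (PO_has hU h hx).differentiableAt.differentiableWithinAt,
      fun e => absurd e (by simp), (ih (PO_der h)).congr fun x hx => (PO_has hU h hx).fderiv⟩

omit [ProperSpace P] in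
theorem PO_d1 {W : Type} [NormedAddCommGroup W] [NormedSpace ℝ W] (c : P →L[ℝ] W →L[ℝ] W) (k : ℕ)
    {α : P → W} {L : P →L[ℝ] W} {a z : P} {t : ℝ} (h : HasFDerivAt α L (a + t • (z - a))) :
    HasFDerivAt (fun w => t ^ k • c (w - a) (α (a + t • (w - a))))
      (t ^ k • (t • (c (z - a)).comp L + c.flip (α (a + t • (z - a))))) z := by
  have d1 : HasFDerivAt (fun w : P => a + t • (w - a)) (t • ContinuousLinearMap.id ℝ P) z :=
    (((hasFDerivAt_id z).sub_const a).const_smul t).const_add a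
  have d2 : HasFDerivAt (fun w : P => c (w - a)) c z :=
    c.hasFDerivAt.comp z ((hasFDerivAt_id z).sub_const a)
  have d3 : HasFDerivAt (fun w : P => α (a + t • (w - a))) (t • L) z :=
    (HasFDerivAt.comp (g := α) z h d1).congr_fderiv (by ext; simp)
  refine ((d2.clm_apply d3).const_smul (t ^ k)).congr_fderiv ?_
  rw [ContinuousLinearMap.comp_smul]

omit [ProperSpace P] in
theorem PO_d2 {W : Type} [NormedAddCommGroup W] [NormedSpace ℝ W] (k : ℕ)
    {α : P → W} {L : P →L[ℝ] W} {a z : P} {t : ℝ} (h : HasFDerivAt α L (a + t • (z - a))) :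
    HasDerivAt (fun t : ℝ => t ^ (k + 1) • α (a + t • (z - a)))
      (t ^ (k + 1) • L (z - a) + (((k + 1 : ℕ) : ℝ) * t ^ k) • α (a + t • (z - a))) t := by
  have d4 : HasDerivAt (fun t : ℝ => a + t • (z - a)) (z - a) t :=
    (((hasDerivAt_id t).smul_const (z - a)).const_add a).congr_deriv (one_smul _ _)
  exact (hasDerivAt_pow (k + 1) t).smul (HasFDerivAt.comp_hasDerivAt (l := α) t h d4)

end Param

/-- The evaluation at a vector. -/
def PO_ev (w : E n) : V n →ₗ[ℂ] ℂ where
  toFun v := v w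
  map_add' _ _ := rfl
  map_smul' _ _ := rfl

theorem PO_ctr_add (u u' : V n →ₗ[ℂ] ℂ) (a : Λ n) : ctr (u + u') a = ctr u a + ctr u' a :=
  DFunLike.congr_fun
    (map_add (CliffordAlgebra.contractLeft (Q := (0 : QuadraticForm ℂ (V n)))) u u') a

theorem PO_ctr_smul (c : ℂ) (u : V n →ₗ[ℂ] ℂ) (a : Λ n) : ctr (c • u) a = c • ctr u a :=
  DFunLike.congr_fun
    (map_smul (CliffordAlgebra.contractLeft (Q := (0 : QuadraticForm ℂ (V n)))) c u) a

/-- The contraction with a vector. -/
def PO_c (n : ℕ) : E n →L[ℝ] Λ n →L[ℝ] Λ n :=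
  (LinearMap.mk₂ ℝ (fun w a => ctr (PO_ev w) a)
    (fun w w' a => by
      rw [← PO_ctr_add]
      exact congrArg (fun u => ctr u a) (LinearMap.ext fun v => map_add v w w'))
    (fun t w a => by
      rw [← Complex.coe_smul t (ctr _ a), ← PO_ctr_smul]
      exact congrArg (fun u => ctr u a) (LinearMap.ext fun v => map_smul v t w))
    (fun w a a' => map_add _ a a')
    (fun t w a => by
      rw [← Complex.coe_smul, map_smul, Complex.coe_smul])).toContinuousBilinearMap

theorem PO_c_apply (w : E n) (a : Λ n) : PO_c n w a = ctr (PO_ev w) a := rfl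

theorem PO_c_io (w : E n) (v : V n) (a : Λ n) :
    PO_c n w (io v * a) = v w • a - io v * PO_c n w a := ctr_io_mul _ v a

theorem PO_c_cj (w : E n) (a : Λ n) : cj (PO_c n w a) = PO_c n w (cj a) := by
  refine ext_ind (C := fun a => cj (PO_c n w a) = PO_c n w (cj a)) (fun c => ?_) (fun v => ?_)
    (fun a b ha hb => ?_) (fun a b ha hb => ?_) a
  · rw [cj_algebraMap, PO_c_apply, PO_c_apply, ctr_algebraMap, ctr_algebraMap, map_zero]
  · have h : ∀ v : V n, PO_c n w (io v) = v w • (1 : Λ n) := fun v => by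
      have h1 := PO_c_io w v 1
      rwa [mul_one, ← map_one (algebraMap ℂ (Λ n)), PO_c_apply w (algebraMap ℂ (Λ n) 1),
        ctr_algebraMap, mul_zero, sub_zero, map_one] at h1
    rw [cj_io, h, h, cj_smul, map_one, vc_apply]
  · simp only [PO_c_apply] at ha hb ⊢
    rw [map_mul cj, ctr_mul, ctr_mul, map_add, map_mul, map_mul, ha, hb, cj_gi]
  · rw [map_add, map_add, map_add, map_add, ha, hb]

theorem PO_T : ∃ T : (E n →L[ℝ] Λ n) →L[ℝ] Λ n, (∀ α z, dE α z = T (fderiv ℝ α z)) ∧
    (∀ w L, PO_c n w (T L) = L w - T ((PO_c n w).comp L)) ∧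
    ∀ k, ∀ a ∈ Dg n k, T ((PO_c n).flip a) = (k : ℂ) • a := by
  have hc : Fintype.card (Fin (Module.finrank ℝ (E n))) = Fintype.card (Ix n) := by
    rw [Fintype.card_fin, Module.finrank_pi_fintype, EA2_card]
    simp [mul_comm]
  let b := (Module.finBasis ℝ (E n)).reindex (Fintype.equivOfCardEq hc)
  let v : Ix n → V n := fun i => ofRealCLM.comp (LinearMap.toContinuousLinearMap (b.coord i))
  have hv : ∀ i (w : E n), v i w = (b.repr w i : ℝ) := fun _ _ => rfl
  let T : (E n →L[ℝ] Λ n) →L[ℝ] Λ n := ∑ i,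
    (ContinuousLinearMap.mul ℝ (Λ n) (io (v i))).comp (ContinuousLinearMap.apply ℝ (Λ n) (b i))
  have hT : ∀ L, T L = ∑ i, io (v i) * L (b i) := fun L => by
    simp only [T, sum_apply]
    rfl
  refine ⟨T, fun α z => by rw [hT, dE_eq b v hv], fun w L => ?_, fun k a ha => ?_⟩
  · rw [hT, hT, map_sum]
    simp only [PO_c_io, Finset.sum_sub_distrib, ContinuousLinearMap.comp_apply]
    congr 1
    conv_rhs => rw [← b.sum_repr w, map_sum]
    simp only [hv, map_smul, coe_smul]
  · rw [hT]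
    simp only [ContinuousLinearMap.flip_apply]
    refine EA2a_Dg_ind (C := fun k a => ∑ i, io (v i) * PO_c n (b i) a = (k : ℂ) • a)
      (fun c => ?_) (fun k => ?_) (fun k x y hx hy => ?_) (fun k c x hx => ?_)
      (fun k u x hx => ?_) ha
    · simp only [PO_c_apply, ctr_algebraMap, mul_zero, Finset.sum_const_zero, Nat.cast_zero,
        zero_smul]
    · simp
    · simp only [map_add, mul_add, Finset.sum_add_distrib, hx, hy, smul_add]
    · simp only [PO_c_apply] at hx ⊢
      simp only [map_smul, mul_smul_comm, ← Finset.smul_sum, hx]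
      rw [smul_comm]
    · have h1 : ∀ i, io (v i) * (io u * PO_c n (b i) x) = -(io u * (io (v i) * PO_c n (b i) x)) :=
        fun i => by
          rw [← mul_assoc, eq_neg_of_add_eq_zero_left (io_add_swap _ _), neg_mul, mul_assoc]
      have h2 : ∑ i, u (b i) • v i = u := by
        ext1 w
        conv_rhs => rw [← b.sum_repr w, map_sum]
        simp only [sum_apply, smul_apply, hv, map_smul,
          smul_eq_mul, real_smul, mul_comm]
      have h3 : ∑ i, io (v i) * u (b i) • x = io u * x := by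
        conv_rhs => rw [← h2, map_sum, Finset.sum_mul]
        simp only [map_smul, mul_smul_comm, smul_mul_assoc]
      simp only [PO_c_io, mul_sub, h1, sub_neg_eq_add, Finset.sum_add_distrib, ← Finset.mul_sum,
        hx, h3]
      rw [mul_smul_comm, Nat.cast_succ, add_smul, one_smul, add_comm]

theorem PO_mem (S : Submodule ℂ (Λ n)) {f : ℝ → Λ n} (hf : ContinuousOn f (uIcc 0 1))
    (h : ∀ t ∈ uIcc (0 : ℝ) 1, f t ∈ S) : ∫ t in (0 : ℝ)..1, f t ∈ S := by
  obtain ⟨M, hM⟩ := S.subtype.exists_leftInverse_of_injective S.ker_subtype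
  have e : ∫ t in (0 : ℝ)..1, f t =
      ∫ t in (0 : ℝ)..1, LinearMap.toContinuousLinearMap (S.subtype ∘ₗ M) (f t) :=
    intervalIntegral.integral_congr fun t ht =>
      (congrArg Subtype.val (DFunLike.congr_fun hM ⟨_, h t ht⟩)).symm
  rw [e, ContinuousLinearMap.intervalIntegral_comp_comm _ hf.intervalIntegrable]
  exact Subtype.property _

/-- The homotopy operator `β z = ∫ t in 0..1, t ^ k • ctr (z - a) (α (a + t (z - a)))`, where
`ctr (z - a)` contracts with the evaluation at `z - a`. Alternatively pull back along the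
homotheties `h t` and use `d/dt (h t)^* α = d (i α) + i (d α)`. -/
theorem poincare {U : Set (E n)} (hU : IsOpen U) (hc : Convex ℝ U) {k : ℕ} {α : E n → Λ n}
    (hα : ContDiffOn ℝ ∞ α U) (ht : ∀ z ∈ U, α z ∈ Dg n (k + 1)) (h0 : ∀ z ∈ U, dE α z = 0) :
    ∃ β : E n → Λ n, ContDiffOn ℝ ∞ β U ∧ (∀ z, β z ∈ Dg n k) ∧ (∀ z ∈ U, dE β z = α z) ∧
      ((∀ z ∈ U, cj (α z) = α z) → ∀ z, cj (β z) = β z) := by
  classical
  rcases U.eq_empty_or_nonempty with rfl | ⟨a, ha⟩
  · exact ⟨0, contDiffOn_empty, fun _ => zero_mem _, fun _ h => h.elim, fun _ _ => map_zero _⟩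
  obtain ⟨T, T1, T2, T3⟩ := PO_T (n := n)
  have hm : ∀ z ∈ U, ∀ t ∈ uIcc (0 : ℝ) 1, a + t • (z - a) ∈ U := fun z hz t h =>
    hc.add_smul_sub_mem ha hz (by rwa [uIcc_of_le zero_le_one] at h)
  have hα' : ∀ z ∈ U, ContDiffAt ℝ ∞ α z := fun z hz => hα.contDiffAt (hU.mem_nhds hz)
  let F : E n × ℝ → Λ n := fun p => p.2 ^ k • PO_c n (p.1 - a) (α (a + p.2 • (p.1 - a)))
  have hF : ∀ z ∈ U, ∀ t ∈ uIcc (0 : ℝ) 1, ContDiffAt ℝ ∞ F (z, t) := fun z hz t h => by
    have h1 : ContDiffAt ℝ ∞ (fun p : E n × ℝ => α (a + p.2 • (p.1 - a))) (z, t) :=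
      ContDiffAt.comp (g := α) (z, t) (hα' _ (hm z hz t h)) (by fun_prop)
    exact (contDiffAt_snd.pow k).smul
      (((PO_c n).contDiff.contDiffAt.comp (z, t) (by fun_prop)).clm_apply h1)
  let B : E n → Λ n := fun z => ∫ t in (0 : ℝ)..1, F (z, t)
  have hB : ∀ z ∈ U, U.indicator B z = B z := fun z hz => indicator_of_mem hz B
  refine ⟨U.indicator B, (contDiffOn_infty.2 fun N => PO_cd hU N hF).congr hB, fun z => ?_,
    fun z hz => ?_, fun hr z => ?_⟩
  · by_cases hz : z ∈ U
    · rw [hB z hz]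
      refine PO_mem _ (PO_slice hF hz) fun t h => ?_
      have h1 := (Dg n k).smul_mem ((t ^ k : ℝ) : ℂ) (ctr_Dg (PO_ev (z - a)) (ht _ (hm z hz t h)))
      rwa [coe_smul] at h1
    · rw [indicator_of_notMem hz]
      exact zero_mem _
  · have e1 : U.indicator B =ᶠ[𝓝 z] B := by
      filter_upwards [hU.mem_nhds hz] with w hw using hB w hw
    have hd : ∀ t ∈ uIcc (0 : ℝ) 1, HasDerivAt (fun t : ℝ => t ^ (k + 1) • α (a + t • (z - a)))
        (T ((fderiv ℝ F (z, t)).comp (ContinuousLinearMap.inl ℝ (E n) ℝ))) t := fun t h => by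
      have d0 := ((hα' _ (hm z hz t h)).differentiableAt (by simp)).hasFDerivAt
      have e2 := T2 (z - a) (fderiv ℝ α (a + t • (z - a)))
      rw [← T1, h0 _ (hm z hz t h), map_zero, eq_comm, sub_eq_zero] at e2
      have e3 := T3 _ _ (ht _ (hm z hz t h))
      rw [Nat.cast_smul_eq_nsmul, ← Nat.cast_smul_eq_nsmul ℝ] at e3
      rw [(PO_one (hF z hz t h)).unique (PO_d1 (PO_c n) k d0), map_smul, map_add, map_smul, ← e2,
        e3, smul_add, smul_smul, smul_smul, ← pow_succ, mul_comm (t ^ k)]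
      exact PO_d2 k d0
    rw [T1, e1.fderiv_eq, (PO_has hU hF hz).fderiv,
      ← T.intervalIntegral_comp_comm (PO_slice (PO_der hF) hz).intervalIntegrable,
      intervalIntegral.integral_eq_sub_of_hasDerivAt hd
        (T.continuous.comp_continuousOn (PO_slice (PO_der hF) hz)).intervalIntegrable]
    simp
  · by_cases hz : z ∈ U
    · obtain ⟨J, hJ⟩ := exists_cjL (n := n)
      rw [hB z hz, ← hJ]
      refine ((J : Λ n →L[ℝ] Λ n).intervalIntegral_comp_comm
        (PO_slice hF hz).intervalIntegrable).symm.trans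
        (intervalIntegral.integral_congr fun t h => ?_)
      change J (t ^ k • PO_c n (z - a) (α (a + t • (z - a)))) = _
      rw [map_smul, hJ, PO_c_cj, hr _ (hm z hz t h)]
    · rw [indicator_of_notMem hz, map_zero]

theorem poincare_zero {U : Set (E n)} (hU : IsOpen U) (hc : Convex ℝ U) {α : E n → Λ n}
    (hα : ContDiffOn ℝ ∞ α U) (ht : ∀ z ∈ U, α z ∈ Dg n 0) (h0 : ∀ z ∈ U, dE α z = 0) :
    ∃ c : ℂ, ∀ z ∈ U, α z = algebraMap ℂ (Λ n) c := by
  rcases U.eq_empty_or_nonempty with rfl | ⟨a, ha⟩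
  · exact ⟨0, fun _ h => h.elim⟩
  obtain ⟨T, T1, T2, -⟩ := PO_T (n := n)
  have h1 : U.EqOn (fderiv ℝ α) 0 := fun z hz => by
    ext1 w
    have e1 : (PO_c n w).comp (fderiv ℝ α z) = 0 := by
      ext1 u
      have e2 : fderiv ℝ α z u ∈ Dg n 0 :=
        DFb_mem (f := α) (by filter_upwards [hU.mem_nhds hz] using ht) u
      obtain ⟨c, e3⟩ := mem_Tp00.1 (Dg_zero (n := n) ▸ e2)
      rw [ContinuousLinearMap.comp_apply, e3, PO_c_apply, ctr_algebraMap]
      rfl
    have e2 := T2 w (fderiv ℝ α z)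
    rw [← T1, h0 z hz, e1, map_zero, map_zero, sub_zero] at e2
    exact e2.symm
  obtain ⟨x, hx⟩ := hU.exists_is_const_of_fderiv_eq_zero hc.isPreconnected
    (hα.differentiableOn (by simp)) h1
  obtain ⟨c, e⟩ := mem_Tp00.1 (Dg_zero (n := n) ▸ ht a ha)
  exact ⟨c, fun z hz => by rw [hx z hz, ← hx a ha, e]⟩

end

end Pool.Agent.MP_1c689d_ag.K0

end

section

/-! The de Rham complex as a fine resolution. -/

set_option autoImplicit false

open Complex Filter Topology Set MeasureTheory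
open scoped ComplexConjugate ContDiff ENNReal

namespace Pool.Agent.MP_1c689d_ag.K0

noncomputable section

variable {n m : ℕ} {X Y : Type} [TopologicalSpace X] [TopologicalSpace Y] [Mf n X] [Mf m Y]

/-- Smooth forms. -/
def ZF (n : ℕ) (X : Type) [TopologicalSpace X] [Mf n X] : Submodule ℂ (Fm n X) where
  carrier := {α | Sm 1 α univ}
  zero_mem' := fun _ _ => smAt_zero
  add_mem' := fun h h' p hp => (h p hp).add (h' p hp)
  smul_mem' := fun c _ h p hp => (h p hp).smul c

/-- The de Rham complex. -/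
def zfc (n : ℕ) (X : Type) [TopologicalSpace X] [Mf n X] : ZC X (ZF n X) where
  G q :=
    { carrier := {α | Dgr q α.1}
      zero_mem' := fun _ => zero_mem _
      add_mem' := fun h h' y => add_mem (h y) (h' y)
      neg_mem' := fun h y => neg_mem (h y) }
  d := AddMonoidHom.mk' (fun α => ⟨dd α.1, fun p hp => (α.2 p hp).dd⟩) fun α β =>
    Subtype.ext (funext fun p => dd_add (α.2 p trivial) (β.2 p trivial))
  N α := {x | ∀ᶠ y in 𝓝 x, α.1 y = 0}
  op _ := isOpen_setOfPred_eventually_nhds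
  N0 := eq_univ_of_forall fun _ => Eventually.of_forall fun _ => rfl
  Nsub α β x h := by
    filter_upwards [h.1, h.2] with y h1 h2
    change α.1 y - β.1 y = 0
    rw [h1, h2, sub_zero]
  Nd α x h := by
    filter_upwards [eventually_eventually_nhds.2 h] with y hy
    exact (dd_congr (β := 0) hy).trans (congrFun dd_zero y)
  dd α := Subtype.ext (funext fun p => dd_dd (α.2 p trivial))
  dG _ _ h := Dgr.dd h

theorem zfc_N {α : ZF n X} {x : X} : x ∈ (zfc n X).N α ↔ ∀ᶠ y in 𝓝 x, α.1 y = 0 := Iff.rfl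

theorem zfc_sub {α : ZF n X} {K : Set X} : K ⊆ (zfc n X).N α ↔ ∀ᶠ y in 𝓝ˢ K, α.1 y = 0 :=
  eventually_nhdsSet_iff_forall.symm

/-- The constants. -/
def zfu (n : ℕ) (X : Type) [TopologicalSpace X] [Mf n X] : ℂ →+ ZF n X :=
  AddMonoidHom.mk' (fun c => ⟨fn n fun _ => c, fun _ _ => smAt_const c⟩) fun c c' =>
    Subtype.ext (funext fun _ => map_add (algebraMap ℂ (Λ n)) c c')

theorem zfu_val (c : ℂ) : (zfu n X c).1 = fn n fun _ => c := rfl

/-- The pull-back. -/
def zpb {f : X → Y} (hf : ∀ p, HMap f p) : ZF m Y →+ ZF n X :=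
  AddMonoidHom.mk' (fun α => ⟨pb f α.1, fun p _ => MF2b_pb (hf p) (α.2 _ trivial)⟩) fun α β =>
    Subtype.ext (pb_add α.1 β.1)

theorem zpb_u {f : X → Y} (hf : ∀ p, HMap f p) : zpb hf ∘ zfu m Y = zfu n X :=
  funext fun c => Subtype.ext (pb_fn (f := f) fun _ => c)

theorem zpb_hom {f : X → Y} (hf : ∀ p, HMap f p) (hc : Continuous f) :
    ZC.Hom ((zfc m Y).comap f hc) (zfc n X) (zpb hf) where
  G _ _ h y := pb_Dg (h (f y))
  d α := Subtype.ext (funext fun p => pb_dd (hf p) (α.2 _ trivial))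
  N α x h := by
    filter_upwards [hc.continuousAt.eventually (zfc_N.1 h)] with y hy
    change lm _ (α.1 (f y)) = 0
    rw [hy, map_zero]

/-- A form that is smooth near a compact set agrees near it with a global form. -/
theorem zf_global {α : Fm n X} {K : Set X} (hK : IsCompact K) {q : ℕ} (hq : Dgr q α)
    (hα : ∀ p ∈ K, SmAt 1 α p) :
    ∃ β ∈ (zfc n X).G q, ∀ᶠ y in 𝓝ˢ K, β.1 =ᶠ[𝓝 y] α := by
  obtain ⟨χ, -, -, h1, -, -, h2⟩ := exists_global (G := 1) (α := α) hK
    (U := {p | SmAt 1 α p}) (isOpen_iff_mem_nhds.2 fun p hp => MF2b_ev hp) hα fun _ h => h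
  exact ⟨⟨χ • α, h1⟩, fun y => Submodule.smul_mem _ _ (hq y),
    eventually_nhdsSet_iff_forall.2 fun x hx => eventually_eventually_nhds.2
      (eventually_nhdsSet_iff_forall.1 h2 x hx)⟩

theorem zfc_fine : (zfc n X).Fine := by
  intro q α hα K K' hK hK' hd
  obtain ⟨χ, h1, h2, h3⟩ := exists_cutoff (n := n) hK hK'.isClosed.isOpen_compl
    (subset_compl_iff_disjoint_right.2 hd)
  refine ⟨⟨χ • α.1, fun p hp => (h1.sm p hp).fsmul_one (α.2 p hp)⟩,
    fun y => Submodule.smul_mem _ _ (hα y), zfc_sub.2 ?_, fun x hx => ?_, fun x hx => ?_⟩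
  · filter_upwards [h3] with y hy
    change χ y • α.1 y - α.1 y = 0
    rw [hy, one_smul, sub_self]
  · filter_upwards [notMem_tsupport_iff_eventuallyEq.1 fun h => h2 h hx] with y hy
    change χ y • α.1 y = 0
    rw [hy, Pi.zero_apply, zero_smul]
  · filter_upwards [zfc_N.1 hx] with y hy
    change χ y • α.1 y = 0
    rw [hy, smul_zero]

/-- The local Poincaré lemma. -/
theorem zf_loc {α : Fm n X} {x : X} {q : ℕ} (hq : Dgr (q + 1) α) (hα : SmAt 1 α x)
    (h0 : ∀ᶠ y in 𝓝 x, dd α y = 0) :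
    ∃ κ : Fm n X, Dgr q κ ∧ SmAt 1 κ x ∧ ∀ᶠ y in 𝓝 x, dd κ y = α y := by
  have he := isCh_ch (n := n) x
  have hx : x ∈ (ch n x).source := mem_chart_source _ x
  obtain ⟨r, hr, hb⟩ := Metric.eventually_nhds_iff_ball.1
    ((MF3b_ev ((MF2b_ev hα).and h0)).and ((MF3b_sm.1 hα).and MF3b_tg))
  obtain ⟨β, b1, b2, b3, -⟩ := poincare (k := q) (α := rep x α) Metric.isOpen_ball
    (convex_ball _ r) (fun z hz => (hb z hz).2.1.contDiffWithinAt)
    (fun z _ => pb_Dg (hq _)) fun z hz => by
      rw [← dd_E, rep, ← pb_dd (he.2 z (hb z hz).2.2) (hb z hz).1.1]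
      change lm _ (dd α _) = 0
      rw [(hb z hz).1.2, map_zero]
  have hs : ∀ z ∈ Metric.ball (ch n x x) r, SmAt 1 (β : Fm n (E n)) z := fun z hz =>
    smAt_E.2 ((Metric.isOpen_ball.eventually_mem hz).mono fun w hw =>
      b1.contDiffAt (Metric.isOpen_ball.mem_nhds hw))
  refine ⟨pb (ch n x) β, fun y => pb_Dg (b2 _),
    MF2b_pb (he.1 x hx) (hs _ (Metric.mem_ball_self hr)), ?_⟩
  filter_upwards [(ch n x).open_source.mem_nhds hx,
    ((ch n x).continuousAt hx).eventually (Metric.ball_mem_nhds _ hr)] with y h1 h2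
  rw [← pb_dd (he.1 y h1) (hs _ h2), ← pb_chart he h1 α, dd_E]
  exact pb_congr (EventuallyEq.refl _ _) (b3 _ h2)

theorem zfc_res : (zfc n X).Res (zfu n X) where
  u0 := map_zero _
  uG c _ := Dg_zero (n := n) ▸ algebraMap_mem_Tp c
  du c := Subtype.ext (dd_const c)
  ne c x h := algebraMap_inj ((zfc_N.1 h).self_of_nhds.trans (map_zero _).symm)
  ex0 α hα x h := by
    obtain ⟨s, hs⟩ := Ty.exists_fn (α := α.1) fun y => Dg_zero (n := n) ▸ hα y
    have h1 := eventually_const_of_dd (hs ▸ α.2 x trivial) (hs ▸ zfc_N.1 h)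
    refine ⟨s x, h1.mono fun y hy => ?_⟩
    change algebraMap ℂ (Λ n) (s x) - α.1 y = 0
    rw [hs, ← hy]
    exact sub_self _
  ex q α hα x h := by
    obtain ⟨κ, h1, h2, h3⟩ := zf_loc hα (α.2 x trivial) (zfc_N.1 h)
    obtain ⟨β, h4, h5⟩ := zf_global isCompact_singleton h1 fun p hp => hp ▸ h2
    rw [nhdsSet_singleton] at h5
    refine ⟨β, h4, ?_⟩
    filter_upwards [h3, h5] with y e1 e2
    change dd β.1 y - α.1 y = 0
    rw [dd_congr e2, e1, sub_self]

end

end Pool.Agent.MP_1c689d_ag.K0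

end

section

/-! The complex of the linear functionals on compactly supported forms. -/

set_option autoImplicit false

open Complex Filter Topology Set MeasureTheory
open scoped ComplexConjugate ContDiff ENNReal

namespace Pool.Agent.MP_1c689d_ag.K0

noncomputable section

variable {n : ℕ} {X : Type} [TopologicalSpace X] [Mf n X]

theorem zz_ts_smul (χ : X → ℂ) (β : Fm n X) : tsupport (χ • β) ⊆ tsupport β :=
  tsupport_smul_subset_right χ β

/-- Test forms. -/
def ZS (n : ℕ) (X : Type) [TopologicalSpace X] [Mf n X] (j : ℕ) : Submodule ℂ (Fm n X) where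
  carrier := {β | Sm 1 β univ ∧ HasCompactSupport β ∧ Dgr j β}
  zero_mem' := ⟨fun _ _ => smAt_zero, HasCompactSupport.zero, fun _ => zero_mem _⟩
  add_mem' := fun h h' => ⟨fun p hp => (h.1 p hp).add (h'.1 p hp), h.2.1.add h'.2.1,
    fun y => add_mem (h.2.2 y) (h'.2.2 y)⟩
  smul_mem' := fun c β h => ⟨fun p hp => (h.1 p hp).smul c,
    h.2.1.mono' ((subset_tsupport _).trans (zz_ts_smul (fun _ => c) β)),
    fun y => Submodule.smul_mem _ c (h.2.2 y)⟩

theorem zz_ts_dd (β : Fm n X) : tsupport (dd β) ⊆ tsupport β := by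
  borelize X
  exact tsupport_dd

/-- The exterior derivative of test forms. -/
def zdl (n : ℕ) (X : Type) [TopologicalSpace X] [Mf n X] (j : ℕ) :
    ZS n X j →ₗ[ℂ] ZS n X (j + 1) where
  toFun β := ⟨dd β.1, fun p hp => (β.2.1 p hp).dd,
    β.2.2.1.mono' ((subset_tsupport _).trans (zz_ts_dd _)), β.2.2.2.dd⟩
  map_add' β γ := Subtype.ext (funext fun p => dd_add (β.2.1 p trivial) (γ.2.1 p trivial))
  map_smul' c _ := Subtype.ext (dd_smul c)

/-- Multiplication by a smooth function. -/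
def zmul {χ : X → ℂ} (h : Bump n χ) (j : ℕ) : ZS n X j →ₗ[ℂ] ZS n X j where
  toFun β := ⟨χ • β.1, fun p hp => (h.sm p hp).fsmul_one (β.2.1 p hp),
    β.2.2.1.mono' ((subset_tsupport _).trans (zz_ts_smul _ _)),
    fun y => Submodule.smul_mem _ _ (β.2.2.2 y)⟩
  map_add' _ _ := Subtype.ext (smul_add _ _ _)
  map_smul' c β := Subtype.ext (funext fun y => smul_comm (χ y) c (β.1 y))

/-- Test forms with support in `W`. -/
def ZSW (j : ℕ) (W : Set X) : Submodule ℂ (ZS n X j) where
  carrier := {β | tsupport β.1 ⊆ W}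
  zero_mem' := tsupport_zero.subset.trans (empty_subset _)
  add_mem' := fun h h' => (tsupport_add _ _).trans (union_subset h h')
  smul_mem' := fun c β h => (zz_ts_smul (fun _ => c) β.1).trans h

/-- Families of functionals. -/
abbrev ZU (n : ℕ) (X : Type) [TopologicalSpace X] [Mf n X] : Type := ∀ j, ZS n X j →ₗ[ℂ] ℂ

/-- The transposed derivative. -/
def zud (T : ZU n X) : ZU n X := fun j => (-1 : ℂ) ^ (j + 1) • (T (j + 1)).comp (zdl n X j)

theorem zud_apply (T : ZU n X) (j : ℕ) (β : ZS n X j) :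
    zud T j β = (-1) ^ (j + 1) * T (j + 1) (zdl n X j β) := rfl

/-- The dual complex. -/
def zuc (n : ℕ) (X : Type) [TopologicalSpace X] [Mf n X] : ZC X (ZU n X) where
  G q :=
    { carrier := {T | ∀ j, j + q ≠ 2 * n → T j = 0}
      zero_mem' := fun _ _ => rfl
      add_mem' := fun {a b} h h' j e => by rw [Pi.add_apply, h j e, h' j e, add_zero]
      neg_mem' := fun {a} h j e => by rw [Pi.neg_apply, h j e, neg_zero] }
  d := AddMonoidHom.mk' zud fun T T' => funext fun j => LinearMap.ext fun β => mul_add _ _ _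
  N T := {x | ∃ W ∈ 𝓝 x, ∀ j (β : ZS n X j), tsupport β.1 ⊆ W → T j β = 0}
  op _ := isOpen_iff_mem_nhds.2 fun _ ⟨W, h1, h2⟩ =>
    (eventually_mem_nhds_iff.2 h1).mono fun _ hy => ⟨W, hy, h2⟩
  N0 := eq_univ_of_forall fun _ => ⟨univ, univ_mem, fun _ _ _ => rfl⟩
  Nsub _ _ _ := fun ⟨⟨W, h1, h2⟩, W', h3, h4⟩ => ⟨W ∩ W', inter_mem h1 h3, fun j β h =>
    sub_eq_zero.2 ((h2 j β (h.trans inter_subset_left)).trans
      (h4 j β (h.trans inter_subset_right)).symm)⟩
  Nd T _ := fun ⟨W, h1, h2⟩ => ⟨W, h1, fun j β h =>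
    mul_eq_zero_of_right _ (h2 (j + 1) (zdl n X j β) ((zz_ts_dd _).trans h))⟩
  dd T := funext fun j => LinearMap.ext fun β => by
    change zud (zud T) j β = 0
    rw [zud_apply, zud_apply, show zdl n X (j + 1) (zdl n X j β) = 0 from
      Subtype.ext (funext fun p => dd_dd (β.2.1 p trivial)), map_zero, mul_zero, mul_zero]
  dG q T h j e := LinearMap.ext fun β => by
    change zud T j β = 0
    rw [zud_apply, h (j + 1) (by omega), LinearMap.zero_apply, mul_zero]

theorem zuc_d (T : ZU n X) (j : ℕ) (β : ZS n X j) :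
    (zuc n X).d T j β = (-1) ^ (j + 1) * T (j + 1) (zdl n X j β) := rfl

theorem zuc_single {j q : ℕ} (e : j + q = 2 * n) (L : ZS n X j →ₗ[ℂ] ℂ) :
    Pi.single j L ∈ (zuc n X).G q := fun i hi => Pi.single_eq_of_ne (by omega) _

theorem zuc_fine : (zuc n X).Fine := by
  intro q T hT K K' hK hK' hd
  obtain ⟨χ, h1, h2, h3⟩ := exists_cutoff (n := n) hK hK'.isClosed.isOpen_compl
    (subset_compl_iff_disjoint_right.2 hd)
  refine ⟨fun j => (T j).comp (zmul h1 j),
    fun j e => by simp only [hT j e, LinearMap.zero_comp],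
    fun x hx => ⟨_, eventually_nhdsSet_iff_forall.1 h3 x hx, fun j β h => ?_⟩,
    fun x hx => ⟨_, notMem_tsupport_iff_eventuallyEq.1 fun h => h2 h hx, fun j β h => ?_⟩,
    fun x ⟨W, w1, w2⟩ => ⟨W, w1, fun j β h => w2 j _ ((zz_ts_smul _ _).trans h)⟩⟩
  · refine sub_eq_zero.2 (congrArg (T j) (Subtype.ext (funext fun y => ?_)))
    change χ y • β.1 y = β.1 y
    by_cases e : β.1 y = 0
    · rw [e, smul_zero]
    · rw [show χ y = 1 from h (subset_tsupport _ e), one_smul]
  · refine (congrArg (T j) (Subtype.ext (funext fun y => ?_))).trans (map_zero _)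
    change χ y • β.1 y = 0
    by_cases e : β.1 y = 0
    · rw [e, smul_zero]
    · rw [show χ y = 0 from h (subset_tsupport _ e), zero_smul]

/-- A functional vanishes on the forms with support in its zero set. -/
theorem zuc_loc {T : ZU n X} {j : ℕ} (β : ZS n X j) (h : tsupport β.1 ⊆ (zuc n X).N T) :
    T j β = 0 := by
  choose W h1 h2 using fun x : tsupport β.1 => h x.2
  obtain ⟨S, ρ, r1, r2, -, -, r3⟩ := exists_pou (n := n) β.2.2.1 (fun x => interior (W x))
    (fun _ => isOpen_interior) fun x hx =>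
      mem_iUnion.2 ⟨⟨x, hx⟩, mem_interior_iff_mem_nhds.2 (h1 ⟨x, hx⟩)⟩
  have e : β = ∑ i ∈ S, zmul (r1 i) j β := by
    refine Subtype.ext (funext fun y => ?_)
    rw [AddSubmonoidClass.coe_finsetSum, Finset.sum_apply]
    change _ = ∑ i ∈ S, ρ i y • β.1 y
    by_cases e : β.1 y = 0
    · simp only [e, smul_zero, Finset.sum_const_zero]
    · rw [← Finset.sum_smul, r3.self_of_nhdsSet y (subset_tsupport _ e), one_smul]
  rw [e, map_sum]
  exact Finset.sum_eq_zero fun i _ => h2 i j _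
    ((tsupport_smul_subset_left _ _).trans ((r2 i).trans interior_subset))

/-- A functional that kills the closed forms with support in `W` is exact on `W`. -/
theorem zuc_prim {T : ZU n X} {q j : ℕ} (hT : T ∈ (zuc n X).G (q + 1))
    (e : j + (q + 1) = 2 * n) {W : Set X}
    (h : ∀ β : ZS n X j, tsupport β.1 ⊆ W → dd β.1 = 0 → T j β = 0) :
    ∃ S ∈ (zuc n X).G q, ∀ x, W ∈ 𝓝 x → x ∈ (zuc n X).N ((zuc n X).d S - T) := by
  obtain ⟨S, hS⟩ := zz_fac (ZSW j W) (zdl n X j) (T j) fun β h1 h2 =>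
    h β h1 (congrArg Subtype.val h2)
  refine ⟨Pi.single (j + 1) ((-1 : ℂ) ^ (j + 1) • S), zuc_single (by omega) _,
    fun x hx => ⟨W, hx, fun i β hβ => sub_eq_zero.2 ?_⟩⟩
  rw [zuc_d]
  by_cases hi : i = j
  · subst hi
    rw [Pi.single_eq_same, LinearMap.smul_apply, smul_eq_mul, ← mul_assoc, ← mul_pow, hS β hβ]
    simp
  · rw [Pi.single_eq_of_ne (by omega), hT i (by omega), LinearMap.zero_apply, mul_zero,
      LinearMap.zero_apply]

variable [MeasurableSpace X] [BorelSpace X]

theorem zz_intg {j : ℕ} (β : ZS n X j) (α : ZF n X) : Intg (β.1 * α.1) :=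
  intg_of_sm (fun p hp => (β.2.1 p hp).mul_left (α.2 p hp)) β.2.2.1.mul_right

/-- Forms as functionals. -/
def zint (n : ℕ) (X : Type) [TopologicalSpace X] [Mf n X] [MeasurableSpace X] [BorelSpace X] :
    ZF n X →+ ZU n X :=
  AddMonoidHom.mk' (fun α _ =>
    { toFun := fun β => itg (β.1 * α.1)
      map_add' := fun β γ => by
        rw [Submodule.coe_add, add_mul, itg_add (zz_intg β α) (zz_intg γ α)]
      map_smul' := fun c β => by
        rw [Submodule.coe_smul, smul_mul_assoc, itg_smul]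
        rfl })
    fun α α' => funext fun j => LinearMap.ext fun β => by
      change itg (β.1 * (α.1 + α'.1)) = itg _ + itg _
      rw [mul_add, itg_add (zz_intg β α) (zz_intg β α')]

theorem zint_apply (α : ZF n X) (j : ℕ) (β : ZS n X j) : zint n X α j β = itg (β.1 * α.1) := rfl

theorem zint_u (c : ℂ) (j : ℕ) (β : ZS n X j) : zint n X (zfu n X c) j β = c * itg β.1 := by
  rw [zint_apply, zfu_val, mul_fn, ← itg_smul]
  rfl

theorem zint_hom : ZC.Hom (zfc n X) (zuc n X) (zint n X) where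
  G q α h j e := LinearMap.ext fun β => itg_of_top_zero fun y =>
    top_of_Dg (Dg_mul (β.2.2.2 y) (h y)) e
  d α := funext fun j => LinearMap.ext fun β => by
    have h := ibp_dd β.2.2.1 isOpen_univ (subset_univ _) β.2.1 α.2 Subset.rfl
    have e : (fun y => gi (β.1 y)) = (-1 : ℂ) ^ j • β.1 := funext fun y => gi_of_Dg (β.2.2.2 y)
    rw [e, smul_mul_assoc, itg_smul] at h
    have h1 : (-1 : ℂ) ^ j * (-1) ^ j = 1 := by
      rw [← mul_pow]
      simp
    change itg (β.1 * dd α.1) = (-1) ^ (j + 1) * itg (dd β.1 * α.1)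
    linear_combination (-1) ^ j * h - itg (β.1 * dd α.1) * h1
  N α x h := ⟨_, zfc_N.1 h, fun j β hβ => itg_of_top_zero fun y => by
    change top (β.1 y * α.1 y) = 0
    by_cases e : β.1 y = 0
    · rw [e, zero_mul, map_zero]
    · rw [show α.1 y = 0 from hβ (subset_tsupport _ e), mul_zero, map_zero]⟩

end

end Pool.Agent.MP_1c689d_ag.K0

end

section

/-! Integrals along lines of compactly supported functions. -/

set_option autoImplicit false

open Complex Filter Topology Set MeasureTheory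
open scoped ComplexConjugate ContDiff ENNReal

namespace Pool.Agent.MP_1c689d_ag.K0

noncomputable section

variable {n : ℕ} {W : Type} [NormedAddCommGroup W] [NormedSpace ℝ W] {g : E n → W} {v : E n}

theorem ZZPI_emb (hv : v ≠ 0) (z : E n) : IsClosedEmbedding fun s : ℝ => z + s • v :=
  (Homeomorph.addLeft z).isClosedEmbedding.comp (isClosedEmbedding_smul_left hv)

theorem ZZPI_der (hg : ContDiff ℝ ∞ g) (v z : E n) (s : ℝ) :
    HasDerivAt (fun s : ℝ => g (z + s • v)) (fderiv ℝ g (z + s • v) v) s :=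
  (hg.differentiable (by simp) (z + s • v)).hasFDerivAt.comp_hasDerivAt s
    ((((hasDerivAt_id s).smul_const v).const_add z).congr_deriv (one_smul _ _))

/-- The map `s ↦ z + s • v` is a closed embedding (`isClosedEmbedding_smul_left`), use
`HasCompactSupport.comp_isClosedEmbedding`. -/
theorem zz_line_cs (hc : HasCompactSupport g) (hv : v ≠ 0) (z : E n) :
    HasCompactSupport fun s : ℝ => g (z + s • v) := by
  exact hc.comp_isClosedEmbedding (ZZPI_emb hv z)

theorem zz_line_int (hg : Continuous g) (hc : HasCompactSupport g) (hv : v ≠ 0) (z : E n) :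
    Integrable fun s : ℝ => g (z + s • v) := by
  exact (hg.comp (ZZPI_emb hv z).continuous).integrable_of_hasCompactSupport (zz_line_cs hc hv z)

/-- `hasFDerivAt_integral_of_dominated_of_fderiv_le` on the unit ball around `z`: the derivative
is bounded by a constant and vanishes for `|s| > R`. -/
theorem zz_line_der (hg : ContDiff ℝ ∞ g) (hc : HasCompactSupport g) (hv : v ≠ 0) (A : Set ℝ)
    (z : E n) : HasFDerivAt (fun z => ∫ s in A, g (z + s • v))
      (∫ s in A, fderiv ℝ g (z + s • v)) z := by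
  have hd : Continuous (fderiv ℝ g) := hg.continuous_fderiv (by simp)
  have hc' : HasCompactSupport (fderiv ℝ g) := hc.fderiv ℝ
  obtain ⟨C, hC⟩ := hd.bounded_above_of_compact_support hc'
  have hK : IsCompact ((fun s : ℝ => z + s • v) ⁻¹' Metric.cthickening 1 (tsupport (fderiv ℝ g))) :=
    (ZZPI_emb hv z).isCompact_preimage hc'.isCompact.cthickening
  refine hasFDerivAt_integral_of_dominated_of_fderiv_le (s := Metric.ball z 1)
    (F' := fun x s => fderiv ℝ g (x + s • v))
    (bound := ((fun s : ℝ => z + s • v) ⁻¹'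
      Metric.cthickening 1 (tsupport (fderiv ℝ g))).indicator fun _ => C)
    (Metric.ball_mem_nhds z one_pos)
    (Eventually.of_forall fun x => (zz_line_int hg.continuous hc hv x).1.restrict)
    (zz_line_int hg.continuous hc hv z).integrableOn (zz_line_int hd hc' hv z).1.restrict
    (Eventually.of_forall fun s x hx => ?_) ?_ (Eventually.of_forall fun s x _ => ?_)
  · by_cases h : x + s • v ∈ tsupport (fderiv ℝ g)
    · rw [indicator_of_mem]
      · exact hC _
      · refine Metric.mem_cthickening_of_dist_le _ _ _ _ h ?_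
        rw [dist_add_right, dist_comm]
        exact (Metric.mem_ball.1 hx).le
    · rw [image_eq_zero_of_notMem_tsupport h, norm_zero]
      exact indicator_nonneg (fun _ _ => (norm_nonneg _).trans (hC 0)) _
  · exact ((integrable_indicator_iff hK.measurableSet).2
      (integrableOn_const hK.measure_lt_top.ne)).integrableOn
  · exact (HasFDerivAt.comp (g := g) x (hg.differentiable (by simp) (x + s • v)).hasFDerivAt
      ((hasFDerivAt_id x).add_const (s • v))).congr_fderiv (ContinuousLinearMap.comp_id _)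

/-- Induction on the order of differentiability, generalising `W` and `g` (see `PO_cd`). -/
theorem zz_line_cd (hg : ContDiff ℝ ∞ g) (hc : HasCompactSupport g) (hv : v ≠ 0) (A : Set ℝ) :
    ContDiff ℝ ∞ fun z => ∫ s in A, g (z + s • v) := by
  have key : ∀ (N : ℕ) {W : Type} [NormedAddCommGroup W] [NormedSpace ℝ W] {g : E n → W},
      ContDiff ℝ ∞ g → HasCompactSupport g → ContDiff ℝ N fun z => ∫ s in A, g (z + s • v) := by
    intro N
    induction N with
    | zero =>
      intro W _ _ g hg hc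
      exact contDiff_zero.2 (continuous_iff_continuousAt.2 fun z =>
        (zz_line_der hg hc hv A z).continuousAt)
    | succ N ih =>
      intro W _ _ g hg hc
      rw [Nat.cast_succ, contDiff_succ_iff_fderiv]
      refine ⟨fun z => (zz_line_der hg hc hv A z).differentiableAt, fun e => absurd e (by simp), ?_⟩
      rw [funext fun z => (zz_line_der hg hc hv A z).fderiv]
      exact ih (contDiff_infty_iff_fderiv.1 hg).2 (hc.fderiv ℝ)
  exact contDiff_infty.2 fun N => key N hg hc

/-- `HasCompactSupport.integral_Iic_deriv_eq`. -/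
theorem zz_line_Iic [CompleteSpace W] (hg : ContDiff ℝ ∞ g) (hc : HasCompactSupport g)
    (hv : v ≠ 0) (z : E n) : ∫ s in Iic (0 : ℝ), fderiv ℝ g (z + s • v) v = g z := by
  have h1 : ContDiff ℝ 1 fun s : ℝ => g (z + s • v) :=
    (hg.of_le (by simp)).comp (contDiff_const.add (contDiff_id.smul contDiff_const))
  have := (zz_line_cs hc hv z).integral_Iic_deriv_eq h1 0
  rw [funext fun s => (ZZPI_der hg v z s).deriv] at this
  simpa using this

/-- `integral_eq_zero_of_hasDerivAt_of_integrable`. -/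
theorem zz_line_univ [CompleteSpace W] (hg : ContDiff ℝ ∞ g) (hc : HasCompactSupport g)
    (hv : v ≠ 0) (z : E n) : ∫ s in (univ : Set ℝ), fderiv ℝ g (z + s • v) v = 0 := by
  rw [Measure.restrict_univ]
  exact integral_eq_zero_of_hasDerivAt_of_integrable (ZZPI_der hg v z)
    (zz_line_int (g := fun y => fderiv ℝ g y v)
      ((hg.continuous_fderiv (by simp)).clm_apply continuous_const) (hc.fderiv_apply ℝ v) hv z)
    (zz_line_int hg.continuous hc hv z)

/-- Take `a t = ∫ s in lo..t, ρ s` with `ρ` a normed `ContDiffBump` centred at `c`. -/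
theorem zz_step_fn {lo c hi : ℝ} (h1 : lo < c) (h2 : c < hi) : ∃ a : ℝ → ℝ, ContDiff ℝ ∞ a ∧
    (∀ t ≤ lo, a t = 0) ∧ (∀ t, hi ≤ t → a t = 1) ∧ (∀ t, 0 ≤ deriv a t) ∧ 0 < deriv a c := by
  have h0 : 0 < min (c - lo) (hi - c) := lt_min (sub_pos.2 h1) (sub_pos.2 h2)
  let φ : ContDiffBump c := ⟨min (c - lo) (hi - c) / 2, min (c - lo) (hi - c), half_pos h0,
    half_lt_self h0⟩
  have hs : Function.support (φ.normed volume) = Metric.ball c (min (c - lo) (hi - c)) :=
    φ.support_normed_eq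
  have hsub : Function.support (φ.normed volume) ⊆ Ioo lo hi := by
    rw [hs, Real.ball_eq_Ioo]
    exact Ioo_subset_Ioo (by linarith [min_le_left (c - lo) (hi - c)])
      (by linarith [min_le_right (c - lo) (hi - c)])
  have hco : Continuous (φ.normed volume) := φ.continuous_normed
  have hd : deriv (fun t => ∫ s in lo..t, φ.normed volume s) = φ.normed volume :=
    funext fun t => hco.deriv_integral _ lo t
  refine ⟨fun t => ∫ s in lo..t, φ.normed volume s, ?_, fun t ht => ?_, fun t ht => ?_,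
    fun t => ?_, ?_⟩
  · refine contDiff_infty_iff_deriv.2
      ⟨fun t => (hco.integral_hasStrictDerivAt lo t).hasDerivAt.differentiableAt, ?_⟩
    rw [hd]
    exact φ.contDiff_normed
  · have : ∫ s in lo..t, φ.normed volume s = ∫ _s in lo..t, (0 : ℝ) := by
      refine intervalIntegral.integral_congr fun s hs' => ?_
      rw [uIcc_of_ge ht] at hs'
      by_contra h
      exact (hsub h).1.not_ge hs'.2
    simpa using this
  · have := intervalIntegral.integral_eq_integral_of_support_subset (μ := volume)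
      (hsub.trans (Ioo_subset_Ioc_self.trans (Ioc_subset_Ioc_right ht)))
    exact this.trans φ.integral_normed
  · rw [hd]
    exact φ.nonneg_normed t
  · rw [hd]
    refine (φ.nonneg_normed c).lt_of_ne' ?_
    change c ∈ Function.support (φ.normed volume)
    rw [hs]
    exact Metric.mem_ball_self h0

end

end Pool.Agent.MP_1c689d_ag.K0

end

section

/-! The homotopy operator in one direction for compactly supported forms. -/

set_option autoImplicit false

open Complex Filter Topology Set MeasureTheory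
open scoped ComplexConjugate ContDiff ENNReal

namespace Pool.Agent.MP_1c689d_ag.K0

noncomputable section

variable {n : ℕ} {v : E n} {l : E n →L[ℝ] ℝ} {β : E n → Λ n} {a : ℝ → ℝ}

/-- The degree below `j`. -/
def zzD (n : ℕ) : ℕ → Submodule ℂ (Λ n)
  | 0 => ⊥
  | j + 1 => Dg n j

/-- A real covector as a one-form. -/
def zzl (l : E n →L[ℝ] ℝ) : Λ n := io (ofRealCLM.comp l)

/-- The integral of the contraction along a line. -/
def zzI (A : Set ℝ) (v : E n) (β : E n → Λ n) (z : E n) : Λ n :=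
  ∫ s in A, PO_c n v (β (z + s • v))

/-- The projection. -/
def zzP (ρ : ℝ → ℝ) (l : E n →L[ℝ] ℝ) (v : E n) (β : E n → Λ n) (z : E n) : Λ n :=
  ρ (l z) • (zzl l * zzI univ v β z)

/-- The homotopy. -/
def zzK (a : ℝ → ℝ) (l : E n →L[ℝ] ℝ) (v : E n) (β : E n → Λ n) (z : E n) : Λ n :=
  zzI (Iic 0) v β z - a (l z) • zzI univ v β z

theorem ZZCP1_cs (hc : HasCompactSupport β) (v : E n) :
    HasCompactSupport fun z => PO_c n v (β z) :=
  hc.comp_left (g := PO_c n v) (map_zero _)

theorem ZZCP1_cd (hβ : ContDiff ℝ ∞ β) (v : E n) : ContDiff ℝ ∞ fun z => PO_c n v (β z) :=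
  (PO_c n v).contDiff.comp hβ

/-- `ctr_Dg`, `Dg_zero`, `mem_Tp00`, `ctr_algebraMap`. -/
theorem zzD_ctr {j : ℕ} {x : Λ n} (h : x ∈ Dg n j) (v : E n) : PO_c n v x ∈ zzD n j := by
  rw [PO_c_apply]
  rcases j with _ | j
  · rw [Dg_zero, mem_Tp00] at h
    obtain ⟨c, rfl⟩ := h
    rw [ctr_algebraMap]
    exact zero_mem _
  · exact ctr_Dg _ h

theorem zzD_mul {j : ℕ} {x : Λ n} (h : x ∈ zzD n j) (l : E n →L[ℝ] ℝ) : zzl l * x ∈ Dg n j := by
  rcases j with _ | j
  · rw [show x = 0 from h, mul_zero]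
    exact zero_mem _
  · rw [add_comm]
    exact Dg_mul (io_mem _) h

theorem zzI_cd (hβ : ContDiff ℝ ∞ β) (hc : HasCompactSupport β) (hv : v ≠ 0) (A : Set ℝ) :
    ContDiff ℝ ∞ (zzI A v β) := by
  exact zz_line_cd (ZZCP1_cd hβ v) (ZZCP1_cs hc v) hv A

/-- A finite dimensional subspace is closed; see `PO_mem`, or apply the quotient map, which is a
continuous real linear map, under the integral. -/
theorem zzI_mem (hβ : Continuous β) (hc : HasCompactSupport β) (hv : v ≠ 0) (A : Set ℝ)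
    {S : Submodule ℂ (Λ n)} (h : ∀ z, PO_c n v (β z) ∈ S) (z : E n) : zzI A v β z ∈ S := by
  obtain ⟨M, hM⟩ := S.subtype.exists_leftInverse_of_injective S.ker_subtype
  have e : zzI A v β z = ∫ s in A,
      LinearMap.toContinuousLinearMap (S.subtype ∘ₗ M) (PO_c n v (β (z + s • v))) :=
    integral_congr_ae (Eventually.of_forall fun s =>
      (congrArg Subtype.val (DFunLike.congr_fun hM ⟨_, h (z + s • v)⟩)).symm)
  rw [e, ContinuousLinearMap.integral_comp_comm _
    (zz_line_int (g := fun z => PO_c n v (β z)) ((PO_c n v).continuous.comp hβ) (ZZCP1_cs hc v)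
      hv z).integrableOn]
  exact Subtype.property _

/-- With `T` from `PO_T`: `dE (zzI A v β) z = T (∫ fderiv …) = ∫ T ((PO_c n v).comp (fderiv β))`,
and `T ((PO_c n v).comp L) = L v - PO_c n v (T L) = L v` as `β` is closed. -/
theorem zzI_d (hβ : ContDiff ℝ ∞ β) (hc : HasCompactSupport β) (hv : v ≠ 0) (A : Set ℝ)
    (h0 : ∀ z, dE β z = 0) (z : E n) :
    dE (zzI A v β) z = ∫ s in A, fderiv ℝ β (z + s • v) v := by
  obtain ⟨T, h1, h2, -⟩ := PO_T (n := n)
  have h3 := zz_line_der (ZZCP1_cd hβ v) (ZZCP1_cs hc v) hv A z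
  have h4 := (zz_line_int ((ZZCP1_cd hβ v).continuous_fderiv (by simp))
    ((ZZCP1_cs hc v).fderiv (𝕜 := ℝ)) hv z).integrableOn (s := A)
  rw [h1, show fderiv ℝ (zzI A v β) z = _ from h3.fderiv, ← T.integral_comp_comm h4]
  congr 1
  funext s
  have h5 := h2 v (fderiv ℝ β (z + s • v))
  rw [← h1, h0, map_zero] at h5
  rw [show fderiv ℝ (fun z => PO_c n v (β z)) (z + s • v) = _ from
    ((PO_c n v).hasFDerivAt.comp _ (hβ.differentiable (by simp) _).hasFDerivAt).fderiv]
  exact (sub_eq_zero.1 h5.symm).symm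

/-- `integral_add_right_eq_self`. -/
theorem zzI_shift (z : E n) (t : ℝ) : zzI univ v β (z + t • v) = zzI univ v β z := by
  simp only [zzI, Measure.restrict_univ]
  rw [← integral_add_left_eq_self (fun s : ℝ => PO_c n v (β (z + s • v))) t]
  simp only [add_smul, add_assoc]

theorem zzP_cd (hβ : ContDiff ℝ ∞ β) (hc : HasCompactSupport β) (hv : v ≠ 0) {ρ : ℝ → ℝ}
    (hρ : ContDiff ℝ ∞ ρ) : ContDiff ℝ ∞ (zzP ρ l v β) := by
  exact (hρ.comp l.contDiff).smul (contDiff_const.mul (zzI_cd hβ hc hv univ))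

theorem zzK_cd (hβ : ContDiff ℝ ∞ β) (hc : HasCompactSupport β) (hv : v ≠ 0)
    (ha : ContDiff ℝ ∞ a) : ContDiff ℝ ∞ (zzK a l v β) := by
  exact (zzI_cd hβ hc hv _).sub ((ha.comp l.contDiff).smul (zzI_cd hβ hc hv univ))

/-- Write `a (l z) • x` as `algebraMap ℂ _ (a (l z)) * x`; use `DF_d_mul`, `dE_fn`, `zzI_d`,
`zz_line_Iic`, `zz_line_univ`. -/
theorem zzK_d (hβ : ContDiff ℝ ∞ β) (hc : HasCompactSupport β) (hv : v ≠ 0)
    (ha : ContDiff ℝ ∞ a) (h0 : ∀ z, dE β z = 0) (z : E n) :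
    dE (zzK a l v β) z = β z - zzP (deriv a) l v β z := by
  have h1 : HasFDerivAt (fun w => -((a (l w) : ℝ) : ℂ))
      ((-((deriv a (l z) : ℝ) : ℂ)) • ofRealCLM.comp l) z := by
    have := (ofRealCLM.hasFDerivAt.comp z
      ((ha.differentiable (by simp) (l z)).hasDerivAt.comp_hasFDerivAt z l.hasFDerivAt)).neg
    refine this.congr_fderiv ?_
    ext1 w
    simp
  have e : zzK a l v β = fun w => zzI (Iic 0) v β w +
      algebraMap ℂ (Λ n) (-((a (l w) : ℝ) : ℂ)) * zzI univ v β w := by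
    funext w
    rw [zzK, ← Algebra.smul_def, neg_smul, Complex.coe_smul, sub_eq_add_neg]
  have h2 : ∀ A, DifferentiableAt ℝ (zzI A v β) z := fun A =>
    (zzI_cd hβ hc hv A).differentiable (by simp) z
  rw [e, DF_d_add (h2 _) ((DF_alg h1.differentiableAt).fun_mul (h2 _)),
    DF_d_mul (DF_alg h1.differentiableAt) (h2 _), dE_fn, h1.fderiv, zzI_d hβ hc hv _ h0,
    zzI_d hβ hc hv _ h0, zz_line_Iic hβ hc hv, zz_line_univ hβ hc hv, mul_zero, add_zero, map_smul,
    smul_mul_assoc, neg_smul, Complex.coe_smul, ← sub_eq_add_neg]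
  rfl

/-- Let `z ∉ Q`. If `l z ∈ Icc lo hi` the line through `z` misses `Q`. If `l z < lo`, then `a` is
zero near `l z` and the half line misses `Q`. If `hi < l z`, then `a` is one near `l z` and the
other half line misses `Q` (`setIntegral_eq_of_subset_of_forall_diff_eq_zero`). -/
theorem zzK_zero {Q : Set (E n)} {lo hi : ℝ} (hl : l v = 1) (hQ : ∀ z ∈ Q, l z ∈ Icc lo hi)
    (hQ' : ∀ (z : E n) (s : ℝ), z + s • v ∈ Q → l z ∈ Icc lo hi → z ∈ Q)
    (h1 : ∀ t ≤ lo, a t = 0) (h2 : ∀ t, hi ≤ t → a t = 1) (hβ : ∀ z ∉ Q, β z = 0) :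
    ∀ z ∉ Q, zzK a l v β z = 0 ∧ zzP (deriv a) l v β z = 0 := by
  intro z hz
  have h3 : ∀ s : ℝ, l z + s ∉ Icc lo hi → PO_c n v (β (z + s • v)) = 0 := fun s hs => by
    rw [hβ _ fun h => hs (by simpa [hl] using hQ _ h), map_zero]
  by_cases h : l z ∈ Icc lo hi
  · have : ∀ A, zzI A v β z = 0 := fun A => by
      simp only [zzI, hβ _ fun h' => hz (hQ' z _ h' h), map_zero, integral_zero]
    simp only [zzK, zzP, this, smul_zero, mul_zero, sub_zero, and_self]
  rcases lt_or_ge (l z) lo with h4 | h4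
  · have e : a =ᶠ[𝓝 (l z)] fun _ => 0 := (gt_mem_nhds h4).mono fun t ht => h1 t ht.le
    rw [zzK, zzP, e.deriv_eq, deriv_const, h1 _ h4.le, zero_smul, zero_smul, sub_zero]
    exact ⟨setIntegral_eq_zero_of_forall_eq_zero fun s hs => h3 s fun h5 => by
      linarith [h5.1, mem_Iic.1 hs], rfl⟩
  · have h5 : hi < l z := not_le.1 fun h5 => h ⟨h4, h5⟩
    have e : a =ᶠ[𝓝 (l z)] fun _ => 1 := (lt_mem_nhds h5).mono fun t ht => h2 t ht.le
    rw [zzK, zzP, e.deriv_eq, deriv_const, h2 _ h5.le, one_smul, zero_smul, zzI, zzI,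
      Measure.restrict_univ, setIntegral_eq_integral_of_forall_compl_eq_zero fun s hs =>
        h3 s fun h6 => by linarith [h6.2, not_le.1 (mt mem_Iic.2 hs)], sub_self]
    exact ⟨rfl, rfl⟩

end

end Pool.Agent.MP_1c689d_ag.K0

end

section

/-! The normal form of the projected forms. -/

set_option autoImplicit false

open Complex Filter Topology Set MeasureTheory
open scoped ComplexConjugate ContDiff ENNReal

namespace Pool.Agent.MP_1c689d_ag.K0

noncomputable section

variable {n : ℕ} {v v' : E n} {l l' : E n →L[ℝ] ℝ} {β : E n → Λ n} {ρ ρ' : ℝ → ℝ}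

/-- `β` is `ρ (l z) dl` times a form that does not depend on the direction `v`. -/
def zzR (ρ : ℝ → ℝ) (l : E n →L[ℝ] ℝ) (v : E n) (β : E n → Λ n) : Prop :=
  (∀ (z : E n) (t : ℝ), ρ (l z) • β (z + t • v) = ρ (l z + t) • β z) ∧ ∀ z, zzl l * β z = 0

/-- `zzI_shift`, `io_sq`. -/
theorem zzR_self (hl : l v = 1) : zzR ρ l v (zzP ρ l v β) := by
  refine ⟨fun z t => ?_, fun z => ?_⟩
  · rw [zzP, zzP, zzI_shift, map_add, map_smul, hl, smul_eq_mul, mul_one, smul_comm]
  · rw [zzP, mul_smul_comm, ← mul_assoc, zzl, io_sq, zero_mul, smul_zero]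

/-- First part: move the scalars under the integral (`integral_smul`, `map_smul`) and use the
hypothesis at `z + s • v`. Second part: `PO_c_io` gives `zzl l' * PO_c n v (β z) = 0`; left
multiplication is a continuous linear map (`ContinuousLinearMap.mul`), `io_add_swap`. -/
theorem zzR_other (hβ : Continuous β) (hc : HasCompactSupport β) (hv : v ≠ 0) (h1 : l' v = 0)
    (h2 : l v' = 0) (h : zzR ρ' l' v' β) : zzR ρ' l' v' (zzP ρ l v β) := by
  refine ⟨fun z t => ?_, fun z => ?_⟩
  · have e : ρ' (l' z) • zzI univ v β (z + t • v') = ρ' (l' z + t) • zzI univ v β z := by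
      rw [zzI, zzI, ← integral_smul, ← integral_smul]
      refine integral_congr_ae (.of_forall fun s => ?_)
      have h3 := h.1 (z + s • v) t
      rw [map_add, map_smul, h1, smul_zero, add_zero, add_right_comm] at h3
      beta_reduce
      rw [← map_smul, ← map_smul, h3]
    rw [zzP, zzP, map_add, map_smul, h2, smul_zero, add_zero, smul_comm, ← mul_smul_comm, e,
      mul_smul_comm, smul_comm]
  · have hi : Integrable fun s : ℝ => PO_c n v (β (z + s • v)) :=
      zz_line_int (g := fun z => PO_c n v (β z)) ((PO_c n v).continuous.comp hβ)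
        (hc.comp_left (map_zero (PO_c n v))) hv z
    have e : zzl l' * zzI univ v β z = 0 := by
      have h3 := (ContinuousLinearMap.mul ℂ (Λ n) (zzl l')).integral_comp_comm
        (hi.integrableOn (s := univ))
      rw [ContinuousLinearMap.mul_apply'] at h3
      rw [zzI, ← h3]
      refine (integral_congr_ae (.of_forall fun s => ?_)).trans (integral_zero _ _)
      have h4 := PO_c_io v (ofRealCLM.comp l') (β (z + s • v))
      have h5 : io (ofRealCLM.comp l') * β (z + s • v) = 0 := h.2 _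
      rw [h5, map_zero, ContinuousLinearMap.comp_apply, h1, map_zero, zero_smul, zero_sub,
        eq_comm, neg_eq_zero] at h4
      exact h4
    have e2 : zzl l' * zzl l = -(zzl l * zzl l') := eq_neg_of_add_eq_zero_left (io_add_swap _ _)
    rw [zzP, mul_smul_comm, ← mul_assoc, e2, neg_mul, mul_assoc, e, mul_zero, neg_zero, smul_zero]

/-- Every `w : V n` is `∑ i, w (v i) • ofRealCLM.comp (x i)`, so `io w * y = 0` for all `w`; then
`top (b * y) = 0` for all `b` by `ext_ind` (show `∃ c, b * y = c • y`), and `top_nondeg'`. -/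
theorem zz_alg {ι : Type} [Fintype ι] {v : ι → E n} {x : ι → E n →L[ℝ] ℝ}
    (hs : ∀ z, z = ∑ i, x i z • v i) {y : Λ n} (h : ∀ i, zzl (x i) * y = 0) (h0 : top y = 0) :
    y = 0 := by
  have h1 : ∀ w : V n, io w * y = 0 := fun w => by
    have e : w = ∑ i, w (v i) • ofRealCLM.comp (x i) := by
      ext1 z
      conv_lhs => rw [hs z]
      simp [mul_comm]
    rw [e, map_sum, Finset.sum_mul]
    refine Finset.sum_eq_zero fun i _ => ?_
    rw [map_smul, smul_mul_assoc]
    exact (congrArg _ (h i)).trans (smul_zero _)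
  refine top_nondeg' fun b => ?_
  obtain ⟨c, hc⟩ : ∃ c : ℂ, b * y = c • y := by
    refine ext_ind (C := fun b => ∃ c : ℂ, b * y = c • y) (fun c => ⟨c, (Algebra.smul_def _ _).symm⟩)
      (fun w => ⟨0, by rw [h1, zero_smul]⟩) ?_ ?_ b
    · rintro a b ⟨c, hc⟩ ⟨d, hd⟩
      exact ⟨d * c, by rw [mul_assoc, hd, mul_smul_comm, hc, mul_smul]⟩
    · rintro a b ⟨c, hc⟩ ⟨d, hd⟩
      exact ⟨c + d, by rw [add_mul, hc, hd, add_smul]⟩
  rw [hc, map_smul, h0, smul_zero]

/-- Induction over a finite set `S` of directions for the point `c + ∑ i ∈ S, t i • v i`. -/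
theorem zz_prod {ι : Type} [Fintype ι] [DecidableEq ι] {v : ι → E n} {x : ι → E n →L[ℝ] ℝ}
    (hx : ∀ i k, x i (v k) = if i = k then 1 else 0) (hs : ∀ z, z = ∑ i, x i z • v i)
    {ρ : ι → ℝ → ℝ} (h : ∀ i, zzR (ρ i) (x i) (v i) β) (c z : E n) :
    (∏ i, ρ i (x i c)) • β z = (∏ i, ρ i (x i z)) • β c := by
  have key : ∀ (t : ι → ℝ) (S : Finset ι), (∏ i ∈ S, ρ i (x i c)) • β (c + ∑ i ∈ S, t i • v i) =
      (∏ i ∈ S, ρ i (x i c + t i)) • β c := by
    intro t S
    induction S using Finset.induction_on with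
    | empty => simp
    | insert j S hj ih =>
      have e : x j (c + ∑ i ∈ S, t i • v i) = x j c := by
        rw [map_add, map_sum, Finset.sum_eq_zero, add_zero]
        intro i hi
        rw [map_smul, hx, if_neg (fun e : j = i => hj (e ▸ hi)), smul_zero]
      have h3 := (h j).1 (c + ∑ i ∈ S, t i • v i) (t j)
      rw [e] at h3
      rw [Finset.prod_insert hj, Finset.prod_insert hj, Finset.sum_insert hj, add_comm (t j • v j),
        ← add_assoc, mul_comm, mul_smul, h3, smul_comm, ih, mul_smul]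
  have h1 := key (fun i => x i (z - c)) Finset.univ
  rw [← hs (z - c), add_sub_cancel] at h1
  simpa using h1

/-- By `zz_prod`, `top (β z) = F z * top (β c)` with `F ≥ 0` continuous and `F c = 1`. If
`top (β c) ≠ 0` then `F` has compact support and a positive integral
(`Continuous.integral_pos_of_hasCompactSupport_nonneg_nonzero`). Conclude with `zz_alg`. -/
theorem zz_fin {ι : Type} [Fintype ι] [DecidableEq ι] {v : ι → E n} {x : ι → E n →L[ℝ] ℝ}
    (hx : ∀ i k, x i (v k) = if i = k then 1 else 0) (hs : ∀ z, z = ∑ i, x i z • v i)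
    {ρ : ι → ℝ → ℝ} (h : ∀ i, zzR (ρ i) (x i) (v i) β) {c : E n} (hρ : ∀ i, Continuous (ρ i))
    (h1 : ∀ i t, 0 ≤ ρ i t) (h2 : ∀ i, 0 < ρ i (x i c)) (hc : HasCompactSupport β)
    (h0 : ∫ z, top (β z) = 0) (z : E n) : β z = 0 := by
  have hP : 0 < ∏ i, ρ i (x i c) := Finset.prod_pos fun i _ => h2 i
  have e := zz_prod hx hs h c
  have e1 : ∀ z, (∏ i, ρ i (x i c)) • top (β z) = (∏ i, ρ i (x i z)) • top (β c) := fun z => by
    have := congrArg top (e z)
    rwa [LinearMap.map_smul_of_tower, LinearMap.map_smul_of_tower] at this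
  have ht : top (β c) = 0 := by
    by_contra hne
    have hF : Continuous fun z : E n => ∏ i, ρ i (x i z) :=
      continuous_finsetProd _ fun i _ => (hρ i).comp (x i).continuous
    have hs' : HasCompactSupport fun z : E n => ∏ i, ρ i (x i z) := by
      refine hc.mono fun z hz hb => hz ?_
      have := e1 z
      rw [hb, map_zero, smul_zero, eq_comm, smul_eq_zero] at this
      exact this.resolve_right hne
    have hpos := hF.integral_pos_of_hasCompactSupport_nonneg_nonzero (μ := volume) hs'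
      (fun z => Finset.prod_nonneg fun i _ => h1 i _) (x := c) hP.ne'
    have h3 : ∫ z, (∏ i, ρ i (x i c)) • top (β z) = ∫ z, (∏ i, ρ i (x i z)) • top (β c) :=
      integral_congr_ae (.of_forall e1)
    rw [integral_smul, h0, smul_zero, integral_smul_const, eq_comm, smul_eq_zero] at h3
    exact hpos.ne' (h3.resolve_right hne)
  have h4 := e z
  rw [zz_alg hs (fun i => (h i).2 c) ht, smul_zero, smul_eq_zero] at h4
  exact h4.resolve_left hP.ne'

end

end Pool.Agent.MP_1c689d_ag.K0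

end

section

/-! The Poincaré lemma with compact supports on the model space. -/

set_option autoImplicit false

open Complex Filter Topology Set MeasureTheory
open scoped ComplexConjugate ContDiff ENNReal

namespace Pool.Agent.MP_1c689d_ag.K0

noncomputable section

variable {n : ℕ}

/-- Real coordinates (`Module.finBasis ℝ (E n)`, `LinearMap.toContinuousLinearMap`) and small
closed boxes: `z ↦ fun i => x i z` is a continuous linear equivalence `b.equivFunL` that maps the
box onto a closed ball for the sup norm. -/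
theorem zz_box {c : E n} {O : Set (E n)} (hO : O ∈ 𝓝 c) :
    ∃ (m : ℕ) (v : Fin m → E n) (x : Fin m → E n →L[ℝ] ℝ) (r : ℝ), 0 < r ∧
      (∀ i k, x i (v k) = if i = k then 1 else 0) ∧ (∀ z, z = ∑ i, x i z • v i) ∧
      {z | ∀ i, x i z ∈ Icc (x i c - r) (x i c + r)} ∈ 𝓝 c ∧
      {z | ∀ i, x i z ∈ Icc (x i c - r) (x i c + r)} ⊆ O ∧
      IsCompact {z | ∀ i, x i z ∈ Icc (x i c - r) (x i c + r)} := by
  let b := Module.finBasis ℝ (E n)
  obtain ⟨r, hr, h⟩ := Metric.nhds_basis_closedBall.mem_iff.1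
    (b.equivFunL.symm.continuous.continuousAt.preimage_mem_nhds (x := b.equivFunL c)
      (by rwa [b.equivFunL.symm_apply_apply]))
  have e : {z | ∀ i, b.equivFunL z i ∈ Icc (b.equivFunL c i - r) (b.equivFunL c i + r)} =
      b.equivFunL ⁻¹' Metric.closedBall (b.equivFunL c) r := by
    ext z
    simp only [mem_ofPred_eq, mem_preimage, closedBall_pi _ hr.le, Set.mem_pi, mem_univ,
      true_imp_iff, Real.closedBall_eq_Icc]
  have e1 := b.equivFunL.continuous.continuousAt.preimage_mem_nhds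
    (Metric.closedBall_mem_nhds (b.equivFunL c) hr)
  have e2 : b.equivFunL ⁻¹' Metric.closedBall (b.equivFunL c) r ⊆ O := fun z hz => by
    simpa using h hz
  have e3 : IsCompact (b.equivFunL ⁻¹' Metric.closedBall (b.equivFunL c) r) :=
    b.equivFunL.toHomeomorph.isCompact_preimage.2 (isCompact_closedBall _ _)
  rw [← e] at e1 e2 e3
  exact ⟨_, b, fun i => (ContinuousLinearMap.proj (R := ℝ) (φ := fun _ => ℝ) i).comp
    b.equivFunL.toContinuousLinearMap, r, hr, fun i k => by simp [Finsupp.single_apply, eq_comm],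
    fun z => (b.sum_equivFun z).symm, e1, e2, e3⟩

/-- Induction over a finite set `S` of directions: there are smooth `γ`, `β'` that vanish outside
the box, `γ z ∈ zzD n j`, `β' z ∈ Dg n j`, `dE γ = β - β'`, `dE β' = 0` and `zzR` holds for `β'`
in the directions of `S` (step: `γ + zzK … β'` and `zzP … β'`; `DF_dd`, `DF_d_add`). For
`S = univ` use `stokesE_dp`, `stokesE_db` and `zz_fin`. -/
theorem zz_cp {c : E n} {O : Set (E n)} (hO : O ∈ 𝓝 c) :
    ∃ Q ∈ 𝓝 c, Q ⊆ O ∧ IsCompact Q ∧ ∀ (j : ℕ) (β : E n → Λ n), ContDiff ℝ ∞ β →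
      (∀ z ∉ Q, β z = 0) → (∀ z, β z ∈ Dg n j) → (∀ z, dE β z = 0) → ∫ z, top (β z) = 0 →
      ∃ γ : E n → Λ n, ContDiff ℝ ∞ γ ∧ (∀ z ∉ Q, γ z = 0) ∧ (∀ z, γ z ∈ zzD n j) ∧
        ∀ z, dE γ z = β z := by
  obtain ⟨m, v, x, r, hr, hx, hs, q1, q2, q3⟩ := zz_box hO
  obtain ⟨Q, hQ⟩ : ∃ Q, Q = {z | ∀ i, x i z ∈ Icc (x i c - r) (x i c + r)} := ⟨_, rfl⟩
  rw [← hQ] at q1 q2 q3
  refine ⟨Q, q1, q2, q3, fun j β b1 b2 b3 b4 b5 => ?_⟩
  choose a a1 a2 a3 a4 a5 using fun i =>
    zz_step_fn (sub_lt_self (x i c) hr) (lt_add_of_pos_right (x i c) hr)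
  have a6 : ∀ i, ContDiff ℝ ∞ (deriv (a i)) := fun i => (contDiff_infty_iff_deriv.1 (a1 i)).2
  have x1 : ∀ i, x i (v i) = 1 := fun i => (hx i i).trans (if_pos rfl)
  have v0 : ∀ i, v i ≠ 0 := fun i h => by simpa [h] using x1 i
  have df : ∀ {γ : E n → Λ n}, ContDiff ℝ ∞ γ → ∀ z, DifferentiableAt ℝ γ z :=
    fun h z => h.differentiable (by simp) z
  have key : ∀ S : Finset (Fin m), ∃ γ β' : E n → Λ n, ContDiff ℝ ∞ γ ∧ ContDiff ℝ ∞ β' ∧
      (∀ z ∉ Q, γ z = 0) ∧ (∀ z ∉ Q, β' z = 0) ∧ (∀ z, γ z ∈ zzD n j) ∧ (∀ z, β' z ∈ Dg n j) ∧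
      (∀ z, dE γ z + β' z = β z) ∧ (∀ z, dE β' z = 0) ∧
      ∀ i ∈ S, zzR (deriv (a i)) (x i) (v i) β' := fun S => by
    induction S using Finset.induction_on with
    | empty => exact ⟨fun _ => 0, β, contDiff_const, b1, fun _ _ => rfl, b2, fun _ => zero_mem _,
        b3, fun z => by simp [dE, dpE_const, dbE_const], b4, by simp⟩
    | insert i S hi ih =>
      obtain ⟨γ, β', c1, c2, c3, c4, c5, c6, c7, c8, c9⟩ := ih
      have cs := HasCompactSupport.intro q3 c4
      have k1 := zzK_cd (l := x i) c2 cs (v0 i) (a1 i)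
      have k2 := zzP_cd (l := x i) c2 cs (v0 i) (a6 i)
      have k3 := zzK_zero (Q := Q) (x1 i) (fun z hz => (hQ ▸ hz) i) (fun z s h1 h2 => by
        rw [hQ] at h1 ⊢
        intro k
        by_cases e : k = i
        · rwa [e]
        · simpa [hx, e] using h1 k) (a2 i) (a3 i) c4
      have k4 := fun A => zzI_mem c2.continuous cs (v0 i) A fun z => zzD_ctr (c6 z) (v i)
      have k5 := zzK_d (l := x i) c2 cs (v0 i) (a1 i) c8
      refine ⟨fun z => γ z + zzK (a i) (x i) (v i) β' z, zzP (deriv (a i)) (x i) (v i) β',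
        c1.add k1, k2, fun z hz => by simp only [c3 z hz, (k3 z hz).1, add_zero], fun z hz => (k3 z hz).2,
        fun z => add_mem (c5 z) (sub_mem (k4 _ z) (Submodule.smul_of_tower_mem _ _ (k4 _ z))),
        fun z => Submodule.smul_of_tower_mem _ _ (zzD_mul (k4 _ z) _), fun z => ?_, fun z => ?_,
        fun k hk => ?_⟩
      · rw [DF_d_add (df c1 z) (df k1 z), k5, add_assoc, sub_add_cancel, c7]
      · have := DF_d_add (df (show ContDiff ℝ ∞ (dE (zzK (a i) (x i) (v i) β')) by
          rw [funext k5]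
          exact c2.sub k2) z) (df k2 z)
        simp only [DF_dd (k1.contDiffAt.of_le (by norm_cast)), zero_add] at this
        simp only [k5, sub_add_cancel] at this
        exact this.symm.trans (c8 z)
      · rcases Finset.mem_insert.1 hk with rfl | hk
        · exact zzR_self (x1 _)
        · have e : k ≠ i := fun e => hi (e ▸ hk)
          exact zzR_other c2.continuous cs (v0 i) ((hx k i).trans (if_neg e))
            ((hx i k).trans (if_neg e.symm)) (c9 k hk)
  obtain ⟨γ, β', c1, c2, c3, c4, c5, -, c7, -, c9⟩ := key Finset.univ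
  have cs := HasCompactSupport.intro q3 c4
  have cγ := HasCompactSupport.intro q3 c3
  have it : ∀ {δ : E n → Λ n}, Continuous δ → HasCompactSupport δ →
      Integrable fun z => top (δ z) := fun h1 h2 => Continuous.integrable_of_hasCompactSupport
    ((LinearMap.continuous_of_finiteDimensional top).comp h1) (h2.comp_left (map_zero top))
  have i1 := it (continuous_iff_continuousAt.2 fun z =>
    (contDiffAt_dpE (c1.contDiffAt (x := z))).continuousAt) (cγ.mono' fun z hz => by
      by_contra k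
      exact hz ((dpE_congr (notMem_tsupport_iff_eventuallyEq.1 k)).trans (dpE_const 0)))
  have i2 := it (continuous_iff_continuousAt.2 fun z =>
    (contDiffAt_dbE (c1.contDiffAt (x := z))).continuousAt) (cγ.mono' fun z hz => by
      by_contra k
      exact hz ((dbE_congr (notMem_tsupport_iff_eventuallyEq.1 k)).trans (dbE_const 0)))
  simp only [← c7, dE, map_add] at b5
  rw [integral_add (f := fun z => top (dpE γ z) + top (dbE γ z)) (i1.add i2) (it c2.continuous cs),
    integral_add i1 i2, stokesE_dp c1 cγ, stokesE_db c1 cγ, zero_add, zero_add] at b5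
  refine ⟨γ, c1, c3, c5, fun z => ?_⟩
  rw [← c7, zz_fin hx hs (fun i => c9 i (Finset.mem_univ i)) (fun i => (a6 i).continuous) a4 a5 cs
    b5 z, add_zero]

end

end Pool.Agent.MP_1c689d_ag.K0

end

section

/-! The Poincaré lemma with compact supports on a manifold. -/

set_option autoImplicit false

open Complex Filter Topology Set MeasureTheory
open scoped ComplexConjugate ContDiff ENNReal

namespace Pool.Agent.MP_1c689d_ag.K0

noncomputable section

variable {n : ℕ} {X : Type} [TopologicalSpace X] [Mf n X]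

open Classical in
/-- Extension by zero of a form on the model space with compact support in a chart: take
`fun y => if y ∈ e.source then pb e γ y else 0`; its support lies in the compact set
`e.symm '' Q`; `smAt_chart`, `pb_chart'`, `pb_dd`, `dd_E`, `dd_congr`. -/
theorem zz_ext {e : OpenPartialHomeomorph X (E n)} (he : IsCh e) {Q : Set (E n)}
    (hQ : IsCompact Q) (hs : Q ⊆ e.target) {γ : E n → Λ n} (hγ : ContDiff ℝ ∞ γ)
    (h0 : ∀ z ∉ Q, γ z = 0) : ∃ κ : Fm n X, Sm 1 κ univ ∧ HasCompactSupport κ ∧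
      tsupport κ ⊆ e.symm '' Q ∧ (∀ y ∈ e.source, κ y = pb e γ y ∧ dd κ y = pb e (dE γ) y) ∧
      ∀ y ∉ e.source, κ y = 0 ∧ dd κ y = 0 := by
  have hK : IsCompact (e.symm '' Q) := hQ.image_of_continuousOn (e.continuousOn_symm.mono hs)
  obtain ⟨κ, hκ⟩ : ∃ κ : Fm n X, κ = fun y => if y ∈ e.source then pb e γ y else 0 := ⟨_, rfl⟩
  have h1 : ∀ y ∈ e.source, κ =ᶠ[𝓝 y] pb e γ := fun y hy => by
    filter_upwards [e.open_source.mem_nhds hy] with w hw
    rw [hκ]
    exact if_pos hw
  have h2 : ∀ y ∉ e.symm '' Q, κ y = 0 := fun y hy => by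
    by_cases h : y ∈ e.source
    · have h3 : γ (e y) = 0 := h0 _ fun hq => hy ⟨_, hq, e.left_inv h⟩
      rw [(h1 y h).self_of_nhds]
      simp only [pb, h3, map_zero]
    · rw [hκ]
      exact if_neg h
  have h3 : ∀ y ∉ e.source, κ =ᶠ[𝓝 y] 0 := fun y hy => by
    have : y ∈ (e.symm '' Q)ᶜ := by
      rintro ⟨z, hz, rfl⟩
      exact hy (e.map_target (hs hz))
    filter_upwards [hK.isClosed.isOpen_compl.mem_nhds this] with w hw
    exact h2 w hw
  have h4 : ∀ z, SmAt 1 (γ : Fm n (E n)) z := fun z =>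
    smAt_E.2 (Eventually.of_forall fun w => hγ.contDiffAt)
  refine ⟨κ, fun y _ => ?_, HasCompactSupport.intro hK h2,
    closure_minimal (Function.support_subset_iff'.2 h2) hK.isClosed,
    fun y hy => ⟨(h1 y hy).self_of_nhds, ?_⟩, fun y hy => ⟨(h3 y hy).self_of_nhds, ?_⟩⟩
  · by_cases hy : y ∈ e.source
    · exact (MF2a_sm_pb (he.1 y hy) (h4 _)).congr (h1 y hy).symm
    · exact smAt_of_eventually_zero (h3 y hy)
  · rw [dd_congr (h1 y hy), ← pb_dd (he.1 y hy) (h4 _), dd_E]
  · rw [dd_congr (h3 y hy), dd_zero]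
    rfl

theorem ZZCPX_lm {j : ℕ} (A : E n →L[ℝ] E n) {a : Λ n} (h : a ∈ zzD n j) : lm A a ∈ zzD n j := by
  cases j with
  | zero =>
    rw [(Submodule.mem_bot ℂ).1 h, map_zero]
    exact zero_mem _
  | succ j => exact lm_Dg A h

variable [MeasurableSpace X] [BorelSpace X]

/-- Use the chart `e = ch n x`, `zz_cp` with `O = e.target ∩ e.symm ⁻¹' W`, `W' = e.symm '' Q`,
`INT2_ext`, `itg_chart`, `zz_ext`, `pb_chart`. -/
theorem zz_cpx {x : X} {W : Set X} (hW : W ∈ 𝓝 x) : ∃ W' ∈ 𝓝 x, W' ⊆ W ∧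
    ∀ (j : ℕ) (β : Fm n X), Sm 1 β univ → HasCompactSupport β → Dgr j β → tsupport β ⊆ W' →
      dd β = 0 → itg β = 0 → ∃ γ : Fm n X, Sm 1 γ univ ∧ HasCompactSupport γ ∧
        (∀ y, γ y ∈ zzD n j) ∧ tsupport γ ⊆ W ∧ dd γ = β := by
  obtain ⟨e, he, hx⟩ : ∃ e : OpenPartialHomeomorph X (E n), IsCh e ∧ x ∈ e.source :=
    ⟨ch n x, isCh_ch x, mem_chart_source _ x⟩
  have hO : e.target ∩ e.symm ⁻¹' W ∈ 𝓝 (e x) :=
    inter_mem (e.open_target.mem_nhds (e.map_source hx))
      ((e.continuousAt_symm (e.map_source hx)).preimage_mem_nhds (by rwa [e.left_inv hx]))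
  obtain ⟨Q, hQ, hs, hc, H⟩ := zz_cp hO
  have ht : Q ⊆ e.target := fun z hz => (hs hz).1
  have hw : e.symm '' Q ⊆ W := by
    rintro _ ⟨z, hz, rfl⟩
    exact (hs hz).2
  have hw' : e.symm '' Q ⊆ e.source := by
    rintro _ ⟨z, hz, rfl⟩
    exact e.map_target (ht hz)
  refine ⟨e.symm '' Q, ?_, hw, fun j β h1 h2 h3 h4 h5 h6 => ?_⟩
  · filter_upwards [e.open_source.mem_nhds hx, (e.continuousAt hx).preimage_mem_nhds hQ]
      with y hy hy'
    exact ⟨_, hy', e.left_inv hy⟩
  obtain ⟨γ, g1, -, g3, g4⟩ := INT2_ext he h1 h2 (h4.trans hw')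
  have hz : ∀ y ∉ e.source, β y = 0 := fun y hy =>
    image_eq_zero_of_notMem_tsupport fun h => hy (hw' (h4 h))
  refine (H j γ g1 (fun z hz => ?_) (fun z => ?_) (fun z => ?_) ?_).elim fun δ hδ => ?_
  rotate_right
  · obtain ⟨d1, d2, d3, d4⟩ := hδ
    obtain ⟨κ, k1, k2, k3, k4, k5⟩ := zz_ext he hc ht d1 d2
    refine ⟨κ, k1, k2, fun y => ?_, k3.trans hw, funext fun y => ?_⟩
    · by_cases hy : y ∈ e.source
      · rw [(k4 y hy).1]
        exact ZZCPX_lm _ (d3 _)
      · rw [(k5 y hy).1]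
        exact zero_mem _
    · by_cases hy : y ∈ e.source
      · rw [(k4 y hy).2, ← pb_chart he hy β]
        exact pb_congr EventuallyEq.rfl ((d4 _).trans (g3 _ (e.map_source hy)).self_of_nhds)
      · rw [(k5 y hy).2, hz y hy]
  · by_cases h : z ∈ e.target
    · have h7 : β (e.symm z) = 0 := image_eq_zero_of_notMem_tsupport fun h' => by
        obtain ⟨q, hq, e1⟩ := h4 h'
        exact hz (e.symm.injOn (ht hq) h e1 ▸ hq)
      rw [(g3 z h).self_of_nhds]
      simp only [pb, h7, map_zero]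
    · exact (g4 z h).self_of_nhds
  · by_cases h : z ∈ e.target
    · rw [(g3 z h).self_of_nhds]
      exact pb_Dg (h3 _)
    · rw [(g4 z h).self_of_nhds]
      exact zero_mem _
  · rw [← dd_E]
    by_cases h : z ∈ e.target
    · rw [dd_congr (g3 z h), ← pb_dd (he.2 z h) (h1 _ (mem_univ _)), h5, pb_zero]
      rfl
    · rw [dd_congr (g4 z h), dd_zero]
      rfl
  · rw [← h6, itg_chart he hz, ← setIntegral_eq_integral_of_forall_compl_eq_zero (s := e.target)
      fun z h => by rw [(g4 z h).self_of_nhds]; exact map_zero _]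
    refine setIntegral_congr_fun e.open_target.measurableSet fun z h => ?_
    exact congrArg top (g3 z h).self_of_nhds

/-- Apply `top_zero_of_test` to `pb e fun _ => vol n` on `interior W ∩ e.source`; at `x` its `top`
is a non-zero determinant (`top_lm`, `IsCh.df_bij`, or `pb_chart'`). -/
theorem zz_top {x : X} {W : Set X} (hW : W ∈ 𝓝 x) : ∃ β : Fm n X, Sm 1 β univ ∧
    HasCompactSupport β ∧ Dgr (2 * n) β ∧ tsupport β ⊆ W ∧ itg β ≠ 0 := by
  obtain ⟨e, he, hx⟩ : ∃ e : OpenPartialHomeomorph X (E n), IsCh e ∧ x ∈ e.source :=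
    ⟨ch n x, isCh_ch x, mem_chart_source _ x⟩
  by_contra H
  have hα : Sm 1 (pb e fun _ => vol n) (interior W ∩ e.source) := fun y hy =>
    MF2a_sm_pb (he.1 y hy.2) (smAt_E.2 (Eventually.of_forall fun w => contDiffAt_const))
  have h1 := top_zero_of_test (isOpen_interior.inter e.open_source) hα (fun φ hφ hs => ?_) x
    ⟨mem_interior_iff_mem_nhds.2 hW, hx⟩
  · have h2 := congrArg top (pb_chart' he (e.map_source hx) fun _ => vol n)
    rw [top_vol, pb, top_lm, e.left_inv hx, h1, mul_zero] at h2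
    exact zero_ne_one h2
  · by_contra h
    refine H ⟨_, fun y hy => SmAt.of_tsupport hα (hφ.sm y hy) hs, hφ.cs.smul_right, fun y => ?_,
      (tsupport_smul_subset_left _ _).trans fun y hy => interior_subset (hs hy).1, h⟩
    refine Submodule.smul_mem _ _ (pb_Dg ?_)
    rw [Dg_top]
    exact vol_mem

end

end Pool.Agent.MP_1c689d_ag.K0

end
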