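import Pool.Agent.Mg.F1c689d.G74563b
import Pool.Agent.Mg.F1c689d.G71e32b
import Pool.Agent.Mg.F1c689d.Gf5c905

set_option linter.all false


section

/-! Definitions: circle equivariant forms on shells in the model space. -/

set_option autoImplicit false

open Complex Filter Topology Set MeasureTheory MvPolynomial
open scoped ComplexConjugate ContDiff ENNReal

namespace Pool.Agent.MP_1c689d_ag.K0.Fd

noncomputable section

variable {N n : ℕ}

/-- `γ` has weight `w` at `z` for the action of the circle. -/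
def Wt {W : Type} [SMul ℂ W] (w : ℤ) (γ : E N → W) (z : E N) : Prop :=
  ∀ t : ℂ, ‖t‖ = 1 → γ (t • z) = t ^ w • γ z

/-- A smooth form of type `(0, q)` with values in `O(j)`. -/
structure Gd (j : ℤ) (q : ℕ) (γ : E N → Λ N) (z : E N) : Prop where
  sm : ContDiffAt ℝ ∞ γ z
  ty : γ z ∈ Tp N 0 q
  wt : Wt (j + q) γ z

/-- A smooth closed form of type `(0, q)`. -/
structure Cz (q : ℕ) (γ : E N → Λ N) (z : E N) : Prop where
  sm : ContDiffAt ℝ ∞ γ z
  ty : γ z ∈ Tp N 0 q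
  cl : dbE γ z = 0

/-- Sets that are invariant under the circle. -/
def Iv (T : Set (E N)) : Prop := ∀ z ∈ T, ∀ t : ℂ, ‖t‖ = 1 → t • z ∈ T

/-- A shell for the sup norm. -/
def Sh (N : ℕ) (a b : ℝ) : Set (E N) := {z | a ≤ ‖z‖ ∧ ‖z‖ ≤ b}

/-- The parametrisation of the circle. -/
def ci (θ : ℝ) : ℂ := exp (2 * Real.pi * I * θ)

/-- The component of weight `w`. -/
def av {W : Type} [NormedAddCommGroup W] [NormedSpace ℂ W] (w : ℤ) (γ : E N → W) (z : E N) : W :=
  ∫ θ in (0 : ℝ)..1, ci θ ^ (-w) • γ (ci θ • z)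

/-- The pull-back along a linear map. -/
def tl (L : E N →L[ℂ] E N) (γ : E N → Λ N) (z : E N) : Λ N :=
  lm (L.restrictScalars ℝ) (γ (L z))

/-- The line through `z₀`. -/
def Ry (z₀ : E N) : Set (E N) := {z | ∃ t : ℂ, z = t • z₀}

/-- A conical neighbourhood of the line through `c`. -/
def Ho (c : E N) (k : Fin N) (ε : ℝ) : Set (E N) := {z | ‖z - z k • c‖ < ε * ‖z k‖}

/-- A finite system of lines with disjoint conical neighbourhoods. -/
structure HS (N : ℕ) where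
  S : Finset (E N × Fin N)
  nrm : ∀ s ∈ S, s.1 s.2 = 1 ∧ ‖s.1‖ ≤ 1
  e0 : ℝ
  pos : 0 < e0
  le : e0 ≤ 1
  dis : ∀ s ∈ S, ∀ s' ∈ S, s ≠ s' → Disjoint (Ho s.1 s.2 e0) (Ho s'.1 s'.2 e0)

/-- The complement of the holes. -/
def HS.U (H : HS N) (ε : ℝ) : Set (E N) := {z | ∀ s ∈ H.S, z ∉ Ho s.1 s.2 ε}

/-- A shell with holes. -/
def HS.T (H : HS N) (ε a b : ℝ) : Set (E N) := Sh N a b ∩ H.U ε

/-- The orthogonal projection onto the line through `z`. -/
def pm (z : E N) : Fin N → Fin N → ℂ := fun a b => z a * conj (z b) / ∑ l, z l * conj (z l)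

/-- The point is not on one of the lines through the points `Pts`. -/
def OffY (Pts : Finset (E N)) (z : E N) : Prop := ∀ u ∈ Pts, ∀ t : ℂ, z ≠ t • u

/-- Open cones. -/
def Cn (U : Set (E N)) : Prop := IsOpen U ∧ ∀ z ∈ U, ∀ t : ℂ, t ≠ 0 → t • z ∈ U

/-- Holomorphic functions that are homogeneous of degree `j`. -/
def Hm (j : ℤ) (U : Set (E N)) (b : E N → ℂ) : Prop :=
  DifferentiableOn ℂ b U ∧ ∀ z ∈ U, ∀ t : ℂ, t ≠ 0 → b (t • z) = t ^ j * b z

/-- The affine chart `z k = 1`. -/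
def ins (k : Fin (n + 1)) (w : E n) : E (n + 1) := k.insertNth 1 w

/-- The affine coordinates. -/
def aff (k : Fin (n + 1)) (z : E (n + 1)) : E n := fun i => z (k.succAbove i) / z k

/-- The holomorphic volume form. -/
abbrev pdz (n : ℕ) : Λ n := (List.ofFn (dz : Fin n → Λ n)).prod

/-- The formal properties of a complex of fine sheaves: `ok q c y` says that `c` is a cochain of
degree `q` near `y`, and `zr c y` says that `c` vanishes near `y`. -/
structure MVA {Y C : Type} [TopologicalSpace Y] [AddCommGroup C] (ok : ℕ → C → Y → Prop)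
    (zr : C → Y → Prop) (D : C → C) (S : Set Y) : Prop where
  ok_ev : ∀ q c y, ok q c y → ∀ᶠ y' in 𝓝 y, ok q c y'
  zr_ev : ∀ c y, zr c y → ∀ᶠ y' in 𝓝 y, zr c y'
  zr_zero : ∀ y, zr 0 y
  zr_sub : ∀ c c' y, zr c y → zr c' y → zr (c - c') y
  ok_zero : ∀ q y, ok q 0 y
  ok_sub : ∀ q c c' y, ok q c y → ok q c' y → ok q (c - c') y
  ok_congr : ∀ q c c' y, ok q c y → zr (c - c') y → ok q c' y
  ok_D : ∀ q c, ∀ y ∈ S, ok q c y → ok (q + 1) (D c) y
  D_sub : ∀ q c c', ∀ y ∈ S, ok q c y → ok q c' y → zr (D (c - c') - (D c - D c')) y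
  D_congr : ∀ c c' y, zr (c - c') y → zr (D c - D c') y
  D_D : ∀ q c, ∀ y ∈ S, ok q c y → zr (D (D c)) y
  cut : ∀ K U : Set Y, IsCompact K → IsOpen U → K ⊆ U → ∃ M : C → C,
    (∀ q c y, ok q c y → ok q (M c) y) ∧ (∀ c y, zr c y → zr (M c) y) ∧
    (∀ c, ∀ y ∈ K, zr (M c - c) y) ∧ ∀ c, ∀ y ∉ U, zr (M c) y

/-- The complex is exact at the points of `S`. -/
structure MVL {Y C : Type} [AddCommGroup C] (ok : ℕ → C → Y → Prop)
    (zr : C → Y → Prop) (D : C → C) (S : Set Y) : Prop where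
  loc0 : ∀ c, ∀ y ∈ S, ok 0 c y → zr (D c) y → zr c y
  loc : ∀ q c, ∀ y ∈ S, ok (q + 1) c y → zr (D c) y → ∃ w, ok q w y ∧ zr (D w - c) y

end

end Pool.Agent.MP_1c689d_ag.K0.Fd

end

section

/-! Elementary facts on shells, lines, cones and projections. -/

set_option autoImplicit false

open Complex Filter Topology Set MeasureTheory MvPolynomial
open scoped ComplexConjugate ContDiff ENNReal

namespace Pool.Agent.MP_1c689d_ag.K0.Fd

noncomputable section

variable {N n : ℕ}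

theorem BAS_aff (k : Fin (n + 1)) (w : E n) : aff k (ins k w) = w := by
  funext i
  simp [aff, ins]

theorem BAS_smul (k : Fin (n + 1)) (z : E (n + 1)) {t : ℂ} (ht : t ≠ 0) :
    aff k (t • z) = aff k z :=
  funext fun _ => mul_div_mul_left _ _ ht

theorem BAS_ne {z : E N} (hz : z ≠ 0) : ∑ l, z l * conj (z l) ≠ 0 := by
  obtain ⟨b, hb⟩ := Function.ne_iff.1 hz
  have h : 0 < ∑ l, normSq (z l) :=
    Finset.sum_pos' (fun l _ => normSq_nonneg _) ⟨b, Finset.mem_univ b, normSq_pos.2 hb⟩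
  simp only [mul_conj]
  exact_mod_cast h.ne'

/-- The set of `z` whose whole orbit lies in an open set is open (tube lemma, the circle is
compact: `IsCompact.eventually_forall_of_forall_eventually`). -/
theorem iv_ev {T : Set (E N)} (hT : Iv T) {p : E N → Prop} (h : ∀ᶠ z in 𝓝ˢ T, p z) :
    ∃ U, IsOpen U ∧ Iv U ∧ T ⊆ U ∧ ∀ z ∈ U, p z := by
  obtain ⟨V, hV, hTV, hp⟩ := eventually_nhdsSet_iff_exists.1 h
  refine ⟨{z | ∀ t ∈ Metric.sphere (0 : ℂ) 1, t • z ∈ V}, isOpen_iff_mem_nhds.2 fun z hz => ?_,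
    fun z hz s hs t ht => ?_, fun z hz t ht => hTV (hT z hz t (by simpa using ht)),
    fun z hz => hp z (by simpa using hz 1 (by simp))⟩
  · refine (isCompact_sphere (0 : ℂ) 1).eventually_forall_of_forall_eventually
      (P := fun (z : E N) (t : ℂ) => t • z ∈ V) fun t ht => ?_
    exact (continuous_snd.smul continuous_fst).continuousAt.eventually (hV.mem_nhds (hz t ht))
  · rw [smul_smul]
    refine hz _ ?_
    rw [mem_sphere_zero_iff_norm] at ht ⊢
    rw [norm_mul, ht, hs, mul_one]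

theorem iv_sh (a b : ℝ) : Iv (Sh N a b) := by
  intro z hz t ht
  simpa only [Sh, mem_ofPred_eq, norm_smul, ht, one_mul] using hz

theorem iv_ry (z₀ : E N) : Iv (Ry z₀) := by
  rintro z ⟨s, rfl⟩ t _
  exact ⟨t * s, smul_smul _ _ _⟩

theorem Iv.inter {S T : Set (E N)} (hS : Iv S) (hT : Iv T) : Iv (S ∩ T) := by
  exact fun z hz t ht => ⟨hS z hz.1 t ht, hT z hz.2 t ht⟩

theorem Cn.inter {U U' : Set (E N)} (h : Cn U) (h' : Cn U') : Cn (U ∩ U') := by
  exact ⟨h.1.inter h'.1, fun z hz t ht => ⟨h.2 z hz.1 t ht, h'.2 z hz.2 t ht⟩⟩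

theorem isCompact_sh (a b : ℝ) : IsCompact (Sh N a b) := by
  refine (isCompact_closedBall (0 : E N) b).of_isClosed_subset
    ((isClosed_le continuous_const continuous_norm).inter
      (isClosed_le continuous_norm continuous_const)) fun z hz => ?_
  exact mem_closedBall_zero_iff.2 hz.2

theorem Sh.ne_zero {a b : ℝ} (ha : 0 < a) {z : E N} (hz : z ∈ Sh N a b) : z ≠ 0 := by
  exact norm_pos_iff.1 (ha.trans_le hz.1)

theorem isClosed_ry (z₀ : E N) : IsClosed (Ry z₀) := by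
  have e : Ry z₀ = (Submodule.span ℂ {z₀} : Submodule ℂ (E N)) := by
    ext z
    simp only [Ry, mem_ofPred_eq, SetLike.mem_coe, Submodule.mem_span_singleton, eq_comm]
  rw [e]
  exact Submodule.closed_of_finiteDimensional _

theorem mem_ry_self (z : E N) : z ∈ Ry z := by
  exact ⟨1, (one_smul _ _).symm⟩

theorem ry_symm {z z' : E N} (hz : z ≠ 0) (h : z ∈ Ry z') : z' ∈ Ry z := by
  obtain ⟨t, rfl⟩ := h
  have ht : t ≠ 0 := left_ne_zero_of_smul hz
  exact ⟨t⁻¹, (inv_smul_smul₀ ht _).symm⟩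

theorem ry_eq {z z' : E N} (hz : z ≠ 0) (h : z ∈ Ry z') : Ry z = Ry z' := by
  obtain ⟨s, hs⟩ := ry_symm hz h
  obtain ⟨t, ht⟩ := h
  ext w
  constructor
  · rintro ⟨a, rfl⟩
    exact ⟨a * t, by rw [ht, smul_smul]⟩
  · rintro ⟨a, rfl⟩
    exact ⟨a * s, by rw [← smul_smul, ← hs]⟩

theorem offY_smul {Pts : Finset (E N)} {z : E N} {t : ℂ} (ht : t ≠ 0) :
    OffY Pts (t • z) ↔ OffY Pts z := by
  constructor
  · intro h u hu s e
    exact h u hu (t * s) (by rw [e, smul_smul])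
  · intro h u hu s e
    exact h u hu (t⁻¹ * s) (by rw [← smul_smul, ← e, inv_smul_smul₀ ht])

theorem cn_offY (Pts : Finset (E N)) : Cn {z | z ≠ 0 ∧ OffY Pts z} := by
  have e : {z | OffY Pts z} = ⋂ u ∈ Pts, (Ry u)ᶜ := by
    ext z
    simp [OffY, Ry]
  have o : IsOpen {z | OffY Pts z} := by
    rw [e]
    exact isOpen_biInter_finset fun u _ => (isClosed_ry u).isOpen_compl
  exact ⟨IsOpen.inter isOpen_ne o,
    fun z hz t ht => ⟨smul_ne_zero ht hz.1, (offY_smul ht).2 hz.2⟩⟩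

theorem offY_fin (Pts : Finset (E (n + 1))) (k : Fin (n + 1)) :
    {w : E n | ¬ OffY Pts (ins k w)}.Finite := by
  refine (Pts.finite_toSet.image (aff k)).subset fun w hw => ?_
  simp only [OffY, mem_ofPred_eq, not_forall, not_not] at hw
  obtain ⟨u, hu, t, e⟩ := hw
  have ht : t ≠ 0 := by
    rintro rfl
    simpa [ins] using congrFun e k
  refine ⟨u, hu, ?_⟩
  rw [← BAS_smul k u ht, ← e, BAS_aff]

theorem ins_self (k : Fin (n + 1)) (w : E n) : ins k w k = 1 := by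
  simp [ins]

theorem aff_ins (k : Fin (n + 1)) (w : E n) : aff k (ins k w) = w := by
  exact BAS_aff k w

theorem aff_smul (k : Fin (n + 1)) (z : E (n + 1)) {t : ℂ} (ht : t ≠ 0) :
    aff k (t • z) = aff k z := by
  exact BAS_smul k z ht

theorem smul_ins_aff {k : Fin (n + 1)} {z : E (n + 1)} (h : z k ≠ 0) :
    z k • ins k (aff k z) = z := by
  funext i
  refine k.succAboveCases ?_ (fun i => ?_) i
  · simp [ins]
  · simp only [ins, aff, Pi.smul_apply, Fin.insertNth_apply_succAbove, smul_eq_mul]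
    exact mul_div_cancel₀ _ h

theorem differentiable_ins (k : Fin (n + 1)) : Differentiable ℂ (ins k : E n → E (n + 1)) := by
  refine differentiable_pi.2 fun i => ?_
  refine k.succAboveCases ?_ (fun i => ?_) i
  · simp [ins]
  · simp only [ins, Fin.insertNth_apply_succAbove]
    exact differentiable_apply i

theorem differentiableAt_aff {k : Fin (n + 1)} {z : E (n + 1)} (h : z k ≠ 0) :
    DifferentiableAt ℂ (aff k : E (n + 1) → E n) z := by
  refine differentiableAt_pi.2 fun i => ?_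
  simp only [aff]
  fun_prop (disch := exact h)

theorem cn_aff (k : Fin (n + 1)) {W : Set (E n)} (hW : IsOpen W) :
    Cn {z : E (n + 1) | z k ≠ 0 ∧ aff k z ∈ W} := by
  refine ⟨isOpen_iff_mem_nhds.2 fun z hz => ?_, fun z hz t ht =>
    ⟨mul_ne_zero ht hz.1, by rw [aff_smul k z ht]; exact hz.2⟩⟩
  exact ((continuous_apply k).continuousAt.eventually_ne hz.1).and
    ((differentiableAt_aff hz.1).continuousAt.eventually (hW.mem_nhds hz.2))

theorem hm_aff (k : Fin (n + 1)) {W : Set (E n)} (hW : IsOpen W) {g : E n → ℂ}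
    (hg : DifferentiableOn ℂ g W) (j : ℤ) :
    Hm j {z : E (n + 1) | z k ≠ 0 ∧ aff k z ∈ W} fun z => z k ^ j * g (aff k z) := by
  refine ⟨fun z hz => DifferentiableAt.differentiableWithinAt ?_, fun z _ t ht => ?_⟩
  · exact ((differentiableAt_apply (𝕜 := ℂ) k z).zpow (Or.inl hz.1)).mul
      ((hg.differentiableAt (hW.mem_nhds hz.2)).comp z (differentiableAt_aff hz.1))
  · simp only [aff_smul k z ht, Pi.smul_apply, smul_eq_mul, mul_zpow, mul_assoc]

theorem hm_eval {j : ℤ} {f : P N} (hf : f ∈ hz N j) (U : Set (E N)) :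
    Hm j U fun z => eval z f := by
  exact ⟨(AnalyticOnNhd.eval_mvPolynomial f).differentiableOn.mono (subset_univ U),
    fun z _ t _ => hz_eval_smul hf z t⟩

theorem Hm.mono {j : ℤ} {U U' : Set (E N)} {b : E N → ℂ} (h : Hm j U b) (hU : U' ⊆ U) :
    Hm j U' b := by
  exact ⟨h.1.mono hU, fun z hz => h.2 z (hU hz)⟩

theorem Hm.sub {j : ℤ} {U : Set (E N)} {b b' : E N → ℂ} (h : Hm j U b) (h' : Hm j U b') :
    Hm j U fun z => b z - b' z := by
  exact ⟨h.1.sub h'.1, fun z hz t ht => by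
    simp only [h.2 z hz t ht, h'.2 z hz t ht, mul_sub]⟩

theorem pm_smul (z : E N) {t : ℂ} (ht : t ≠ 0) : pm (t • z) = pm z := by
  funext a b
  have h1 : t * conj t ≠ 0 := mul_ne_zero ht ((map_ne_zero _).2 ht)
  simp only [pm, Pi.smul_apply, smul_eq_mul, map_mul, mul_mul_mul_comm t _ (conj t),
    ← Finset.mul_sum]
  exact mul_div_mul_left _ _ h1

theorem pm_eq_iff {z z' : E N} (hz : z ≠ 0) (hz' : z' ≠ 0) : pm z = pm z' ↔ z ∈ Ry z' := by
  constructor
  · intro h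
    obtain ⟨b, hb⟩ := Function.ne_iff.1 hz
    have hb' : conj (z b) ≠ 0 := (map_ne_zero _).2 hb
    have h1 := BAS_ne hz
    have h2 := BAS_ne hz'
    refine ⟨conj (z' b) * (∑ l, z l * conj (z l)) / ((∑ l, z' l * conj (z' l)) * conj (z b)),
      funext fun a => ?_⟩
    have h3 := (div_eq_div_iff h1 h2).1 (congrFun (congrFun h a) b)
    rw [Pi.smul_apply, smul_eq_mul, div_mul_eq_mul_div, eq_div_iff (mul_ne_zero h2 hb')]
    linear_combination h3
  · rintro ⟨t, rfl⟩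
    exact pm_smul _ (left_ne_zero_of_smul hz)

theorem contDiffAt_pm {z : E N} (hz : z ≠ 0) : ContDiffAt ℝ ∞ (pm : E N → _) z := by
  have h1 : ∀ a b, ContDiff ℝ ∞ fun z : E N => z a * conj (z b) := fun a b =>
    (contDiff_apply ℝ ℂ a).mul (conjCLE.contDiff.comp (contDiff_apply ℝ ℂ b))
  refine contDiffAt_pi.2 fun a => contDiffAt_pi.2 fun b => ?_
  simp only [pm, div_eq_mul_inv]
  exact (h1 a b).contDiffAt.mul ((ContDiff.sum fun l _ => h1 l l).contDiffAt.inv (BAS_ne hz))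

/-- The image of the compact set of bad points is closed. -/
theorem tube {Z Y : Type} [TopologicalSpace Z] [TopologicalSpace Y] [T2Space Y] {K : Set Z}
    (hK : IsCompact K) {f : Z → Y} (hf : ContinuousOn f K) {p : Z → Prop} {y : Y}
    (h : ∀ z ∈ K, f z = y → ∀ᶠ z' in 𝓝 z, p z') :
    ∀ᶠ y' in 𝓝 y, ∀ z ∈ K, f z = y' → ∀ᶠ z' in 𝓝 z, p z' := by
  have h1 : IsCompact (K ∩ {z | ∀ᶠ z' in 𝓝 z, p z'}ᶜ) :=
    hK.inter_right isOpen_setOfPred_eventually_nhds.isClosed_compl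
  have h2 := (h1.image_of_continuousOn (hf.mono inter_subset_left)).isClosed.isOpen_compl
  have h3 : y ∈ (f '' (K ∩ {z | ∀ᶠ z' in 𝓝 z, p z'}ᶜ))ᶜ := by
    rintro ⟨z, hz, e⟩
    exact hz.2 (h z hz.1 e)
  filter_upwards [h2.mem_nhds h3] with y' hy z hz e
  by_contra h4
  exact hy ⟨z, ⟨hz, h4⟩, e⟩

end

end Pool.Agent.MP_1c689d_ag.K0.Fd

end

section

/-! Elementary facts on forms of pure weight. -/

set_option autoImplicit false

open Complex Filter Topology Set MeasureTheory MvPolynomial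
open scoped ComplexConjugate ContDiff ENNReal

namespace Pool.Agent.MP_1c689d_ag.K0.Fd

noncomputable section

variable {N : ℕ}

theorem BG_tend (s : ℂ) (w : E N) : Tendsto (fun u : E N => s • u) (𝓝 w) (𝓝 (s • w)) :=
  (continuous_const_smul s).tendsto w

theorem BG_ne {t : ℂ} (ht : ‖t‖ = 1) : t ≠ 0 := by
  rintro rfl
  simp at ht

theorem BG_lin {W : Type} [NormedAddCommGroup W] [NormedSpace ℂ W] (B : E N →L[ℝ] W) (s : ℂ)
    (e : E N) : B (s • e) = (s.re : ℂ) • B e + (s.im : ℂ) • B (I • e) := by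
  have : s • e = s.re • e + s.im • (I • e) := by
    conv_lhs => rw [← re_add_im s]
    rw [add_smul, mul_smul, Complex.coe_smul, Complex.coe_smul]
  rw [this, map_add, map_smul, map_smul, Complex.coe_smul, Complex.coe_smul]

theorem BG_bar {W : Type} [NormedAddCommGroup W] [NormedSpace ℂ W] (B : E N →L[ℝ] W) (s : ℂ)
    (e : E N) : B (s • e) + I • B (s • I • e) = conj s • (B e + I • B (I • e)) := by
  have h1 : (I : ℂ) • (I : ℂ) • e = -e := by rw [smul_smul, I_mul_I, neg_one_smul]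
  have h2 : conj s = (s.re : ℂ) - s.im * I := by
    apply Complex.ext <;> simp
  rw [BG_lin B s e, BG_lin B s (I • e), h1, map_neg, h2]
  have h3 : (I : ℂ) * I = -1 := I_mul_I
  match_scalars
  · ring
  · linear_combination (s.im : ℂ) * h3

theorem BG_exp (B : E N →L[ℝ] ℂ) (v : E N) :
    B v = ∑ l, ((v l).re * B (Pi.single l 1) + (v l).im * B (Pi.single l I)) := by
  conv_lhs => rw [← Finset.univ_sum_single v]
  rw [map_sum]
  refine Finset.sum_congr rfl fun l _ => ?_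
  have : (Pi.single l (v l) : E N) = v l • Pi.single l 1 := by
    rw [← Pi.single_smul, smul_eq_mul, mul_one]
  rw [this, BG_lin, DFb_single, smul_eq_mul, smul_eq_mul]

/-- Near `t • z` one has `γ w = t ^ (j + q) • γ (t⁻¹ • w)`. -/
theorem gd_rot {j : ℤ} {q : ℕ} {γ : E N → Λ N} {z : E N} (h : ∀ᶠ w in 𝓝 z, Gd j q γ w) {t : ℂ}
    (ht : ‖t‖ = 1) : ∀ᶠ w in 𝓝 (t • z), Gd j q γ w := by
  have h0 := BG_ne ht
  have h1 : ∀ᶠ w in 𝓝 (t • z), ∀ᶠ u in 𝓝 (t⁻¹ • w), Gd j q γ u := by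
    have := BG_tend t⁻¹ (t • z)
    rw [inv_smul_smul₀ h0] at this
    exact this.eventually h.eventually_nhds
  filter_upwards [h1] with w hw
  have hs := hw.self_of_nhds
  have e : ∀ u : E N, Gd j q γ (t⁻¹ • u) → γ u = t ^ (j + q) • γ (t⁻¹ • u) := fun u hu => by
    rw [← hu.wt t ht, smul_inv_smul₀ h0]
  refine ⟨?_, ?_, fun s hs' => ?_⟩
  · have h2 : γ =ᶠ[𝓝 w] fun u => t ^ (j + q) • γ (t⁻¹ • u) :=
      ((BG_tend t⁻¹ w).eventually hw).mono e
    refine ContDiffAt.congr_of_eventuallyEq ?_ h2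
    exact (hs.sm.comp w (contDiffAt_id.const_smul t⁻¹)).const_smul _
  · rw [e w hs]
    exact Submodule.smul_mem _ _ hs.ty
  · have h3 := hs.wt (s * t) (by rw [norm_mul, hs', ht, mul_one])
    rw [mul_smul, smul_inv_smul₀ h0] at h3
    rw [h3, e w hs, mul_zpow, mul_smul]

/-- Differentiate `γ (t • w) = t ^ (j + q) • γ w` at `w`: the derivative of the left side in the
direction `v` is `fderiv ℝ γ (t • w) (t • v)`, so `pzb l` of it is `conj t • pzb l γ (t • w)`. -/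
theorem gd_dbE {j : ℤ} {q : ℕ} {γ : E N → Λ N} {z : E N} (h : ∀ᶠ w in 𝓝 z, Gd j q γ w) :
    ∀ᶠ w in 𝓝 z, Gd j (q + 1) (dbE γ) w := by
  filter_upwards [h.eventually_nhds] with w hw
  have hs := hw.self_of_nhds
  refine ⟨contDiffAt_dbE hs.sm, dbE_Tp (hw.mono fun u hu => hu.ty), fun t ht => ?_⟩
  have h0 := BG_ne ht
  have hd : DifferentiableAt ℝ γ w := hs.sm.differentiableAt (by simp)
  have hd' : DifferentiableAt ℝ γ (t • w) :=
    (gd_rot hw ht).self_of_nhds.sm.differentiableAt (by simp)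
  have h1 : (fun u => γ (t • u)) =ᶠ[𝓝 w] fun u => t ^ (j + q) • γ u :=
    hw.mono fun u hu => hu.wt t ht
  have h2 : HasFDerivAt (fun u => γ (t • u))
      ((fderiv ℝ γ (t • w)).comp (t • ContinuousLinearMap.id ℝ (E N))) w :=
    hd'.hasFDerivAt.comp w ((hasFDerivAt_id w).const_smul t)
  have h3 := (h2.congr_of_eventuallyEq h1.symm).unique (hd.hasFDerivAt.const_smul (t ^ (j + q)))
  have h4 : ∀ v, fderiv ℝ γ (t • w) v = t ^ (j + q) • fderiv ℝ γ w (t⁻¹ • v) := fun v => by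
    have := congrArg (fun L : E N →L[ℝ] Λ N => L (t⁻¹ • v)) h3
    simpa [smul_inv_smul₀ h0] using this
  have h5 : conj t⁻¹ = t := by
    rw [inv_eq_conj ht, conj_conj]
  have h6 : t ^ (j + ((q + 1 : ℕ) : ℤ)) = t ^ (j + q) * t := by
    rw [Nat.cast_succ, ← add_assoc, zpow_add_one₀ h0]
  rw [dbE, dbE, Finset.smul_sum]
  refine Finset.sum_congr rfl fun l _ => ?_
  rw [← mul_smul_comm]
  congr 1
  rw [pzb, pzb, h4, h4, DFb_single, smul_comm I, ← smul_add, BG_bar, h5, h6, mul_smul,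
    smul_comm (1 / 2 : ℂ), smul_comm (1 / 2 : ℂ) t]

theorem Gd.sub {j : ℤ} {q : ℕ} {γ γ' : E N → Λ N} {z : E N} (h : Gd j q γ z) (h' : Gd j q γ' z) :
    Gd j q (γ - γ') z := by
  refine ⟨h.sm.sub h'.sm, sub_mem h.ty h'.ty, fun t ht => ?_⟩
  rw [Pi.sub_apply, Pi.sub_apply, h.wt t ht, h'.wt t ht, smul_sub]

theorem Gd.add {j : ℤ} {q : ℕ} {γ γ' : E N → Λ N} {z : E N} (h : Gd j q γ z) (h' : Gd j q γ' z) :
    Gd j q (γ + γ') z := by
  refine ⟨h.sm.add h'.sm, add_mem h.ty h'.ty, fun t ht => ?_⟩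
  rw [Pi.add_apply, Pi.add_apply, h.wt t ht, h'.wt t ht, smul_add]

theorem gd_zero (j : ℤ) (q : ℕ) (z : E N) : Gd j q (0 : E N → Λ N) z := by
  exact ⟨contDiffAt_const, zero_mem _, fun t _ => by simp⟩

theorem gd_of_hm {j : ℤ} {U : Set (E N)} {g : E N → ℂ} (hU : Cn U) (hg : Hm j U g) {z : E N}
    (hz : z ∈ U) : Gd j 0 (fun w => algebraMap ℂ (Λ N) (g w)) z ∧
      dbE (fun w => algebraMap ℂ (Λ N) (g w)) z = 0 := by
  have ha : ∀ᶠ w in 𝓝 z, DifferentiableAt ℂ g w :=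
    (hU.1.eventually_mem hz).mono fun w hw => hg.1.differentiableAt (hU.1.mem_nhds hw)
  refine ⟨⟨?_, algebraMap_mem_Tp _, fun t ht => ?_⟩, ?_⟩
  · have : ContDiffAt ℝ ∞ g z := contDiffAt_of_hol ha
    simp only [Algebra.algebraMap_eq_smul_one]
    exact this.smul (g := fun _ => (1 : Λ N)) contDiffAt_const
  · simp only [hg.2 z hz t (BG_ne ht), Nat.cast_zero, add_zero]
    rw [map_mul, Algebra.smul_def]
  · rw [dbE_fn]
    exact Finset.sum_eq_zero fun l _ => by
      rw [pzb_of_differentiableAt ha.self_of_nhds, zero_smul]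

/-- Differentiate `g (exp (θ i) • z) = exp (θ i) ^ j • g z` at `θ = 0`. -/
theorem euler_wt {j : ℤ} {g : E N → ℂ} {z : E N} (hg : DifferentiableAt ℝ g z) (h : Wt j g z) :
    ∑ l, z l * pz l g z - ∑ l, conj (z l) * pzb l g z = j * g z := by
  have h1 : HasDerivAt (fun θ : ℝ => exp (θ * I)) I 0 := by
    have := ((hasDerivAt_id (0 : ℝ)).ofReal_comp.mul_const I).cexp
    simpa using this
  have h2 : HasDerivAt (fun θ : ℝ => g (exp (θ * I) • z)) (fderiv ℝ g z (I • z)) 0 := by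
    have h3 : HasFDerivAt g (fderiv ℝ g z) (exp (((0 : ℝ) : ℂ) * I) • z) := by
      simpa using hg.hasFDerivAt
    exact h3.comp_hasDerivAt (0 : ℝ) (h1.smul_const z)
  have h4 : HasDerivAt (fun θ : ℝ => g (exp (θ * I) • z)) (j * I * g z) 0 := by
    have h5 : (fun θ : ℝ => g (exp (θ * I) • z)) = fun θ : ℝ => exp (j * (θ * I)) * g z := by
      funext θ
      rw [h _ (norm_exp_ofReal_mul_I θ), smul_eq_mul, exp_int_mul]
    rw [h5]
    have := ((((hasDerivAt_id (0 : ℝ)).ofReal_comp.mul_const I).const_mul (j : ℂ)).cexp).mul_const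
      (g z)
    simpa using this
  have h6 := h2.unique h4
  rw [BG_exp] at h6
  apply mul_left_cancel₀ I_ne_zero
  rw [← Finset.sum_sub_distrib, Finset.mul_sum, ← mul_assoc, mul_comm I (j : ℂ), ← h6]
  refine Finset.sum_congr rfl fun l _ => ?_
  have h7 : conj (z l) = ((z l).re : ℂ) - (z l).im * I := by
    apply Complex.ext <;> simp
  have h8 : (I : ℂ) * I = -1 := I_mul_I
  rw [pz, pzb, h7]
  simp only [Pi.smul_apply, smul_eq_mul, mul_re, mul_im, I_re, I_im, zero_mul, one_mul, zero_sub,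
    zero_add, ofReal_neg]
  have h9 := re_add_im (z l)
  generalize fderiv ℝ g z (Pi.single l 1) = A at *
  generalize fderiv ℝ g z (Pi.single l I) = B at *
  generalize ((z l).re : ℂ) = a at *
  generalize ((z l).im : ℂ) = b at *
  rw [← h9]
  linear_combination (b * A - a * B) * h8

end

end Pool.Agent.MP_1c689d_ag.K0.Fd

end

section

/-! Linear changes of coordinates. -/

set_option autoImplicit false

open Complex Filter Topology Set MeasureTheory MvPolynomial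
open scoped ComplexConjugate ContDiff ENNReal

namespace Pool.Agent.MP_1c689d_ag.K0.Fd

noncomputable section

variable {N : ℕ}

theorem exists_L {c : E N} {k : Fin N} (hc : c k = 1) : ∃ L : E N ≃L[ℂ] E N, ∀ z,
    L z = z + z k • (c - Pi.single k 1) ∧ L.symm z = z - z k • (c - Pi.single k 1) := by
  have h : (c - Pi.single k 1 : E N) k = 0 := by simp [hc]
  generalize (c - Pi.single k 1 : E N) = v at h
  let T : E N →L[ℂ] E N := (ContinuousLinearMap.proj k : E N →L[ℂ] ℂ).smulRight v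
  exact ⟨ContinuousLinearEquiv.equivOfInverse (.id ℂ _ + T) (.id ℂ _ - T)
    (fun z => by simp [T, h]) (fun z => by simp [T, h]), fun z => ⟨rfl, rfl⟩⟩

theorem tl_sm (L : E N →L[ℂ] E N) {γ : E N → Λ N} {z : E N} (h : ContDiffAt ℝ ∞ γ (L z)) :
    ContDiffAt ℝ ∞ (tl L γ) z := by
  exact ((lm (L.restrictScalars ℝ)).toLinearMap.toContinuousLinearMap.restrictScalars
    ℝ).contDiff.contDiffAt.comp z (h.comp z (L.restrictScalars ℝ).contDiff.contDiffAt)

theorem tl_Tp (L : E N →L[ℂ] E N) {γ : E N → Λ N} {z : E N} {p q : ℕ} (h : γ (L z) ∈ Tp N p q) :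
    tl L γ z ∈ Tp N p q := by
  exact lm_Tp L h

/-- `dbE_pb`. -/
theorem dbE_tl (L : E N →L[ℂ] E N) {γ : E N → Λ N} {z : E N} (h : DifferentiableAt ℝ γ (L z)) :
    dbE (tl L γ) z = tl L (dbE γ) z := by
  have h1 := dbE_pb (Eventually.of_forall fun _ => L.differentiableAt) h
  have h2 : ∀ w, fderiv ℝ L w = L.restrictScalars ℝ := fun _ => (L.restrictScalars ℝ).fderiv
  simp only [h2] at h1
  exact h1

theorem cz_tl (L : E N →L[ℂ] E N) {q : ℕ} {γ : E N → Λ N} {z : E N} (h : Cz q γ (L z)) :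
    Cz q (tl L γ) z := by
  exact ⟨tl_sm L h.sm, tl_Tp L h.ty, by
    rw [dbE_tl L (h.sm.differentiableAt (by simp)), tl, h.cl, map_zero]⟩

theorem tl_symm (L : E N ≃L[ℂ] E N) (γ : E N → Λ N) :
    tl (L.symm : E N →L[ℂ] E N) (tl (L : E N →L[ℂ] E N) γ) = γ := by
  funext z
  rw [tl, tl, lm_comp, show ((L : E N →L[ℂ] E N).restrictScalars ℝ).comp
    ((L.symm : E N →L[ℂ] E N).restrictScalars ℝ) = ContinuousLinearMap.id ℝ (E N) from
    ContinuousLinearMap.ext fun z => L.apply_symm_apply z, lm_id]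
  exact congrArg γ (L.apply_symm_apply z)

theorem tl_congr (L : E N →L[ℂ] E N) {γ γ' : E N → Λ N} {z : E N} (h : γ (L z) = γ' (L z)) :
    tl L γ z = tl L γ' z := by
  rw [tl, tl, h]

end

end Pool.Agent.MP_1c689d_ag.K0.Fd

end

section

/-! Systems of holes. -/

set_option autoImplicit false

open Complex Filter Topology Set MeasureTheory MvPolynomial
open scoped ComplexConjugate ContDiff ENNReal

namespace Pool.Agent.MP_1c689d_ag.K0.Fd

noncomputable section

variable {N : ℕ}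

theorem LH_smul (c : E N) (k : Fin N) (z : E N) (t : ℂ) :
    ‖t • z - (t • z) k • c‖ = ‖t‖ * ‖z - z k • c‖ := by
  rw [Pi.smul_apply, smul_assoc, ← smul_sub, norm_smul]

theorem LH_ry {c z : E N} {k : Fin N} (h : c k = 1) : z ∈ Ry c ↔ z = z k • c :=
  ⟨fun ⟨t, ht⟩ => by rw [ht, Pi.smul_apply, h, smul_eq_mul, mul_one], fun h => ⟨_, h⟩⟩

theorem LH_trans {a b c : E N} (h : a ∈ Ry b) (h' : b ∈ Ry c) : a ∈ Ry c := by
  obtain ⟨t, rfl⟩ := h
  obtain ⟨s, rfl⟩ := h'
  exact ⟨t * s, smul_smul _ _ _⟩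

theorem LH_symm {a b : E N} (h : a ∈ Ry b) (h0 : a ≠ 0) : b ∈ Ry a := by
  obtain ⟨t, rfl⟩ := h
  exact ⟨t⁻¹, (inv_smul_smul₀ (left_ne_zero_of_smul h0) b).symm⟩

theorem exists_nrm {z₀ : E N} (h : z₀ ≠ 0) :
    ∃ (c : E N) (k : Fin N) (τ : ℂ), c k = 1 ∧ ‖c‖ ≤ 1 ∧ τ ≠ 0 ∧ z₀ = τ • c := by
  have : Nonempty (Fin N) := (Function.ne_iff.1 h).nonempty
  obtain ⟨k, hk⟩ := Finite.exists_max fun i => ‖z₀ i‖
  have h0 : z₀ k ≠ 0 := fun h0 => h (funext fun i => by simpa [h0] using hk i)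
  refine ⟨(z₀ k)⁻¹ • z₀, k, z₀ k, inv_mul_cancel₀ h0, ?_, h0, (smul_inv_smul₀ h0 _).symm⟩
  rw [norm_smul, norm_inv, inv_mul_le_iff₀ (norm_pos_iff.2 h0), mul_one]
  exact (pi_norm_le_iff_of_nonneg (norm_nonneg _)).2 hk

theorem isOpen_ho (c : E N) (k : Fin N) (ε : ℝ) : IsOpen (Ho c k ε) :=
  isOpen_lt (by fun_prop) (by fun_prop)

theorem ho_mono (c : E N) (k : Fin N) {ε ε' : ℝ} (h : ε ≤ ε') : Ho c k ε ⊆ Ho c k ε' :=
  fun _ hz => lt_of_lt_of_le hz (mul_le_mul_of_nonneg_right h (norm_nonneg _))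

theorem ho_smul {c : E N} {k : Fin N} {ε : ℝ} {z : E N} {t : ℂ} (ht : t ≠ 0) :
    t • z ∈ Ho c k ε ↔ z ∈ Ho c k ε := by
  simp only [Ho, mem_ofPred_eq, LH_smul]
  rw [Pi.smul_apply, norm_smul, mul_left_comm, mul_lt_mul_iff_right₀ (norm_pos_iff.2 ht)]

/-- If `z` lies in both sets, normalise `z k = 1`; then `c` is at distance at most `3 ε` from the
closed set of the multiples of `c'`. -/
theorem ho_disj {c c' : E N} {k k' : Fin N} (hc : ‖c‖ ≤ 1) (h : c ∉ Ry c') :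
    ∃ ε : ℝ, 0 < ε ∧ ε ≤ 1 ∧ Disjoint (Ho c k ε) (Ho c' k' ε) := by
  have h1 : IsClosed (Ry c') := by
    have : Ry c' = (Submodule.span ℂ {c'} : Submodule ℂ (E N)) := by
      ext z
      simp only [Ry, mem_ofPred_eq, SetLike.mem_coe, Submodule.mem_span_singleton, eq_comm]
    rw [this]
    exact Submodule.closed_of_finiteDimensional _
  obtain ⟨δ, hδ, h2⟩ := Metric.isOpen_iff.1 h1.isOpen_compl c h
  refine ⟨min 1 (δ / 3), by positivity, min_le_left _ _, disjoint_left.2 fun z hz hz' => ?_⟩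
  have h3 : ‖z - z k • c‖ < 1 * ‖z k‖ := ho_mono c k (min_le_left _ _) hz
  have h4 : ‖z - z k • c‖ < δ / 3 * ‖z k‖ := ho_mono c k (min_le_right _ _) hz
  have h5 : ‖z - z k' • c'‖ < δ / 3 * ‖z k'‖ := ho_mono c' k' (min_le_right _ _) hz'
  have h6 : 0 < ‖z k‖ := by linarith [norm_nonneg (z - z k • c)]
  have h7 := norm_sub_norm_le z (z k • c)
  rw [norm_smul] at h7
  have h8 : ‖z k'‖ ≤ 2 * ‖z k‖ := by
    linarith [norm_le_pi_norm z k', mul_le_mul_of_nonneg_left hc h6.le]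
  refine h2 (a := ((z k)⁻¹ * z k') • c') ?_ ⟨_, rfl⟩
  have h9 : ((z k)⁻¹ * z k') • c' - c = (z k)⁻¹ • (z - z k • c - (z - z k' • c')) := by
    rw [sub_sub_sub_cancel_left, smul_sub, smul_smul, inv_smul_smul₀ (norm_pos_iff.1 h6)]
  rw [mem_ball_iff_norm, h9, norm_smul, norm_inv, inv_mul_lt_iff₀ h6]
  linarith [norm_sub_le (z - z k • c) (z - z k' • c'), mul_le_mul_of_nonneg_left h8 hδ.le]

theorem LH_fin (Pts : Finset (E N)) : ∃ S : Finset (E N × Fin N),
    (∀ s ∈ S, s.1 s.2 = 1 ∧ ‖s.1‖ ≤ 1) ∧ (∀ s ∈ S, ∀ s' ∈ S, s ≠ s' → s.1 ∉ Ry s'.1) ∧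
    ∀ z, z ≠ 0 → ((∀ u ∈ Pts, z ∉ Ry u) ↔ ∀ s ∈ S, z ∉ Ry s.1) := by
  classical
  induction Pts using Finset.induction_on with
  | empty => exact ⟨∅, by simp, by simp, by simp⟩
  | insert u Pts _ ih =>
    obtain ⟨S, h1, h2, h3⟩ := ih
    simp only [Finset.forall_mem_insert]
    by_cases h0 : u = 0
    · refine ⟨S, h1, h2, fun z hz => (and_iff_right ?_).trans (h3 z hz)⟩
      rintro ⟨t, ht⟩
      exact hz (by rw [ht, h0, smul_zero])
    by_cases h : ∃ s ∈ S, u ∈ Ry s.1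
    · obtain ⟨s, hs, h⟩ := h
      refine ⟨S, h1, h2, fun z hz => ?_⟩
      rw [h3 z hz]
      exact and_iff_right_of_imp fun h4 h5 => h4 s hs (LH_trans h5 h)
    obtain ⟨c, k, τ, c1, c2, -, c3⟩ := exists_nrm h0
    have c4 : u ∈ Ry c := ⟨τ, c3⟩
    refine ⟨insert (c, k) S, Finset.forall_mem_insert _ _ _ |>.2 ⟨⟨c1, c2⟩, h1⟩, ?_,
      fun z hz => ?_⟩
    · simp only [Finset.forall_mem_insert]
      refine ⟨⟨fun h => (h rfl).elim, fun s hs _ h4 => h ⟨s, hs, LH_trans c4 h4⟩⟩,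
        fun s hs => ⟨fun _ h4 => h ⟨s, hs, LH_trans c4 (LH_symm h4 fun h5 => ?_)⟩, h2 s hs⟩⟩
      simpa [h5] using (h1 s hs).1
    · rw [Finset.forall_mem_insert, h3 z hz]
      exact and_congr_left' (not_congr ⟨fun h4 => LH_trans h4 c4,
        fun h4 => LH_trans h4 (LH_symm c4 h0)⟩)

/-- Induction on `Pts`, first for the finite set `S` with the property that `s.1 ∉ Ry s'.1` for
`s ≠ s'`: a new point is added only if it is not zero and not on one of the lines. -/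
theorem exists_hs (Pts : Finset (E N)) :
    ∃ H : HS N, ∀ z, z ≠ 0 → (OffY Pts z ↔ ∀ s ∈ H.S, z ≠ z s.2 • s.1) := by
  obtain ⟨S, h1, h2, h3⟩ := LH_fin Pts
  have h4 : ∀ᶠ ε in 𝓝[>] (0 : ℝ), ∀ s ∈ S, ∀ s' ∈ S, s ≠ s' →
      Disjoint (Ho s.1 s.2 ε) (Ho s'.1 s'.2 ε) := by
    simp only [eventually_all_finset, eventually_imp_distrib_left]
    intro s hs s' hs' h
    obtain ⟨ε, hε, -, h5⟩ := ho_disj (k := s.2) (k' := s'.2) (h1 s hs).2 (h2 s hs s' hs' h)
    filter_upwards [Ioc_mem_nhdsGT hε] with e he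
    exact h5.mono (ho_mono _ _ he.2) (ho_mono _ _ he.2)
  obtain ⟨ε, h5, h6⟩ := (h4.and (Ioc_mem_nhdsGT one_pos)).exists
  refine ⟨⟨S, h1, ε, h6.1, h6.2, h5⟩, fun z hz => ?_⟩
  exact (forall₂_congr fun _ _ => not_exists.symm).trans
    ((h3 z hz).trans (forall₂_congr fun s hs => not_congr (LH_ry (h1 s hs).1)))

theorem HS.U_mono (H : HS N) {ε ε' : ℝ} (h : ε ≤ ε') : H.U ε' ⊆ H.U ε :=
  fun _ hz s hs h1 => hz s hs (ho_mono _ _ h h1)

theorem HS.U_smul (H : HS N) {ε : ℝ} {z : E N} (hz : z ∈ H.U ε) {t : ℂ} (ht : t ≠ 0) :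
    t • z ∈ H.U ε :=
  fun s hs h1 => hz s hs ((ho_smul ht).1 h1)

theorem HS.isClosed_U (H : HS N) (ε : ℝ) : IsClosed (H.U ε) := by
  simp only [HS.U, ofPred_forall]
  exact isClosed_iInter fun s => isClosed_iInter fun _ => (isOpen_ho _ _ _).isClosed_compl

theorem HS.off (H : HS N) {ε : ℝ} (hε : 0 < ε) {z : E N} (h0 : z ≠ 0) (hz : z ∈ H.U ε) :
    ∀ s ∈ H.S, z ≠ z s.2 • s.1 := by
  intro s hs h
  refine hz s hs ?_
  have h1 : z s.2 ≠ 0 := fun h1 => h0 (by rw [h, h1, zero_smul])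
  rw [Ho, mem_ofPred_eq, ← h, sub_self, norm_zero]
  exact mul_pos hε (norm_pos_iff.2 h1)

/-- The cone where `ε * ‖w k‖ < ‖w - w k • c‖` for all lines. -/
theorem HS.exh (H : HS N) {z : E N} (hz : ∀ s ∈ H.S, z ≠ z s.2 • s.1) :
    ∃ (ε : ℝ) (U : Set (E N)), 0 < ε ∧ Cn U ∧ z ∈ U ∧ U ⊆ H.U ε := by
  have h1 : ∀ᶠ ε in 𝓝[>] (0 : ℝ), ∀ s ∈ H.S, ε * ‖z s.2‖ < ‖z - z s.2 • s.1‖ := by
    refine nhdsWithin_le_nhds ((eventually_all_finset _).2 fun s hs => ?_)
    refine ContinuousAt.eventually_lt (by fun_prop) continuousAt_const ?_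
    rw [zero_mul]
    exact norm_pos_iff.2 (sub_ne_zero.2 (hz s hs))
  obtain ⟨ε, h2, h3⟩ := (h1.and self_mem_nhdsWithin).exists
  refine ⟨ε, {w | ∀ s ∈ H.S, ε * ‖w s.2‖ < ‖w - w s.2 • s.1‖}, h3, ⟨?_, fun w hw t ht s hs => ?_⟩,
    h2, fun w hw s hs => (hw s hs).not_gt⟩
  · simp only [ofPred_forall]
    exact isOpen_biInter_finset fun s _ => isOpen_lt (by fun_prop) (by fun_prop)
  · rw [LH_smul, Pi.smul_apply, norm_smul, mul_left_comm]
    exact mul_lt_mul_of_pos_left (hw s hs) (norm_pos_iff.2 ht)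

end

end Pool.Agent.MP_1c689d_ag.K0.Fd

end

section

/-! Averaging over the circle. -/

set_option autoImplicit false
set_option linter.unusedSectionVars false

open Complex Filter Topology Set MeasureTheory MvPolynomial
open scoped ComplexConjugate ContDiff ENNReal

namespace Pool.Agent.MP_1c689d_ag.K0.Fd

noncomputable section

variable {N : ℕ} {W : Type} [NormedAddCommGroup W] [NormedSpace ℂ W] [CompleteSpace W]

theorem AV_ne (θ : ℝ) : ci θ ≠ 0 := exp_ne_zero _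

theorem AV_add (a b : ℝ) : ci (a + b) = ci a * ci b := by
  rw [ci, ci, ci, ← Complex.exp_add, ofReal_add, mul_add]

theorem AV_per (a : ℝ) : ci (a + 1) = ci a := by
  rw [AV_add, ci.eq_def 1, ofReal_one, mul_one, exp_two_pi_mul_I, mul_one]

theorem AV_sm (k : ℤ) : ContDiff ℝ ∞ fun θ : ℝ => ci θ ^ k := by
  have e : (fun θ : ℝ => ci θ ^ k) = fun θ : ℝ => exp (k * (2 * Real.pi * I * ofRealCLM θ)) :=
    funext fun θ => (exp_int_mul _ k).symm
  rw [e]
  exact (contDiff_const.mul (contDiff_const.mul ofRealCLM.contDiff)).cexp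

theorem AV_sm1 : ContDiff ℝ ∞ ci := by simpa using AV_sm 1

theorem AV_ex {t : ℂ} (ht : ‖t‖ = 1) : ∃ θ : ℝ, ci θ = t := by
  refine ⟨arg t / (2 * Real.pi), ?_⟩
  have h1 := norm_mul_exp_arg_mul_I t
  have h2 : (Real.pi : ℂ) ≠ 0 := ofReal_ne_zero.2 Real.pi_ne_zero
  rw [ht, ofReal_one, one_mul] at h1
  rw [ci, ← h1, h1]
  refine Eq.trans (congrArg exp ?_) h1
  push_cast
  field_simp

theorem norm_ci (θ : ℝ) : ‖ci θ‖ = 1 := by
  rw [ci, show (2 * Real.pi * I * θ : ℂ) = ((2 * Real.pi * θ : ℝ) : ℂ) * I by push_cast; ring,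
    norm_exp_ofReal_mul_I]

omit [CompleteSpace W] in
theorem AV_F (w : ℤ) {γ : E N → W} {U : Set (E N)} (hI : Iv U)
    (h : ∀ z ∈ U, ContDiffAt ℝ ∞ γ z) : ∀ x ∈ U, ∀ t ∈ uIcc (0 : ℝ) 1,
      ContDiffAt ℝ ∞ (fun p : E N × ℝ => ci p.2 ^ (-w) • γ (ci p.2 • p.1)) (x, t) :=
  fun x hx t _ => ((AV_sm (-w)).comp contDiff_snd).contDiffAt.smul
    (ContDiffAt.comp (g := γ) (x, t) (h _ (hI x hx _ (norm_ci t)))
      ((AV_sm1.comp contDiff_snd).smul contDiff_fst).contDiffAt)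

omit [CompleteSpace W] in
theorem AV_cont (w : ℤ) {γ : E N → W} {z : E N} (h : ∀ t : ℂ, ‖t‖ = 1 → ContinuousAt γ (t • z)) :
    Continuous fun θ => ci θ ^ (-w) • γ (ci θ • z) :=
  (AV_sm (-w)).continuous.smul (continuous_iff_continuousAt.2 fun θ => ContinuousAt.comp (g := γ)
    (h _ (norm_ci θ)) (AV_sm1.continuous.smul continuous_const).continuousAt)

omit [CompleteSpace W] in
theorem AV_rot (L : E N →L[ℝ] W) (t : ℂ) (l : Fin N) :
    L (t • Pi.single l 1) + I • L (t • Pi.single l I) =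
      conj t • (L (Pi.single l 1) + I • L (Pi.single l I)) := by
  have e : ∀ c : ℂ, L (t • Pi.single l c) =
      ((t * c).re : ℂ) • L (Pi.single l 1) + ((t * c).im : ℂ) • L (Pi.single l I) := fun c => by
    rw [Complex.coe_smul, Complex.coe_smul, ← map_smul, ← map_smul, ← map_add, ← Pi.single_smul',
      ← Pi.single_smul', ← Pi.single_smul', ← Pi.single_add, smul_eq_mul, real_smul, real_smul,
      mul_one, re_add_im]
  have e2 : conj t = t.re - t.im * I := by apply Complex.ext <;> simp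
  rw [e, e, e2]
  simp only [mul_one, mul_I_re, mul_I_im, ofReal_neg]
  match_scalars
  · ring
  · linear_combination (t.im : ℂ) * I_mul_I

omit [CompleteSpace W] in
theorem AV_pzb {γ : E N → W} {z : E N} (h : ContDiffAt ℝ ∞ γ z) (l : Fin N) :
    ContinuousAt (pzb l γ) z := by
  have h1 := (h.fderiv_right (m := 0) (by simp)).continuousAt
  exact ((h1.clm_apply continuousAt_const).add
    ((h1.clm_apply continuousAt_const).const_smul I)).const_smul _

/-- `PO_cd`. -/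
theorem contDiffAt_av (w : ℤ) {γ : E N → W} {U : Set (E N)} (hU : IsOpen U) (hI : Iv U)
    (h : ∀ z ∈ U, ContDiffAt ℝ ∞ γ z) {z : E N} (hz : z ∈ U) : ContDiffAt ℝ ∞ (av w γ) z := by
  refine ContDiffOn.contDiffAt (s := U) (contDiffOn_infty.2 fun k => ?_) (hU.mem_nhds hz)
  exact PO_cd hU k (AV_F w hI h)

omit [CompleteSpace W] in
/-- Write `t = ci θ₀`; the integrand is periodic (`Function.Periodic.intervalIntegral_add_eq`). -/
theorem wt_av (w : ℤ) (γ : E N → W) (z : E N) : Wt w (av w γ) z := by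
  intro t ht
  obtain ⟨a, rfl⟩ := AV_ex ht
  have hp : Function.Periodic (fun θ => ci θ ^ (-w) • γ (ci θ • z)) 1 := fun θ => by
    simp only [AV_per]
  have h1 := hp.intervalIntegral_add_eq a 0
  rw [zero_add] at h1
  have h2 := intervalIntegral.integral_comp_add_right (a := 0) (b := 1)
    (fun θ => ci θ ^ (-w) • γ (ci θ • z)) a
  rw [zero_add, add_comm 1 a] at h2
  rw [av, av, ← h1, ← h2, ← intervalIntegral.integral_smul]
  refine intervalIntegral.integral_congr fun θ _ => ?_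
  simp only [AV_add, smul_smul, mul_zpow]
  rw [mul_left_comm, ← zpow_add₀ (AV_ne a), add_neg_cancel, zpow_zero, mul_one]

theorem av_of_wt {w : ℤ} {γ : E N → W} {z : E N} (h : Wt w γ z) : av w γ z = γ z := by
  have e : ∀ θ : ℝ, ci θ ^ (-w) • γ (ci θ • z) = γ z := fun θ => by
    rw [h _ (norm_ci θ), smul_smul, ← zpow_add₀ (AV_ne θ), neg_add_cancel, zpow_zero, one_smul]
  simp only [av, e, intervalIntegral.integral_const, sub_zero, one_smul]

omit [CompleteSpace W] in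
theorem av_congr (w : ℤ) {γ γ' : E N → W} {z : E N}
    (h : ∀ t : ℂ, ‖t‖ = 1 → γ (t • z) = γ' (t • z)) : av w γ z = av w γ' z := by
  simp only [av, h _ (norm_ci _)]

theorem av_mem (w : ℤ) (S : Submodule ℂ (Λ N)) {γ : E N → Λ N} {z : E N}
    (h : ∀ t : ℂ, ‖t‖ = 1 → ContinuousAt γ (t • z) ∧ γ (t • z) ∈ S) : av w γ z ∈ S := by
  exact PO_mem S (AV_cont w fun t ht => (h t ht).1).continuousOn
    fun θ _ => S.smul_mem _ (h _ (norm_ci θ)).2

theorem av_map {W' : Type} [NormedAddCommGroup W'] [NormedSpace ℂ W'] [CompleteSpace W']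
    (L : W →L[ℂ] W') (w : ℤ) {γ : E N → W} {z : E N}
    (h : ∀ t : ℂ, ‖t‖ = 1 → ContinuousAt γ (t • z)) :
    L (av w γ z) = av w (fun y => L (γ y)) z := by
  rw [av, ← L.intervalIntegral_comp_comm ((AV_cont w h).intervalIntegrable _ _)]
  simp only [av, map_smul]

/-- `PO_has`; the derivative of `y ↦ γ (t • y)` in the direction `v` is
`fderiv ℝ γ (t • z) (t • v)`, so `pzb l` of it is `conj t • pzb l γ (t • z)` and `conj t = t⁻¹`. -/
theorem pzb_av (w : ℤ) {γ : E N → W} {U : Set (E N)} (hU : IsOpen U) (hI : Iv U)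
    (h : ∀ z ∈ U, ContDiffAt ℝ ∞ γ z) {z : E N} (hz : z ∈ U) (l : Fin N) :
    pzb l (av w γ) z = av (w + 1) (pzb l γ) z := by
  have h1 := (PO_has hU (AV_F w hI h) hz).fderiv
  have h2 := (PO_slice (PO_der (AV_F w hI h)) hz).intervalIntegrable (μ := volume)
  have h3 : ∀ θ ∈ uIcc (0 : ℝ) 1, ∀ v, ((fderiv ℝ
      (fun p : E N × ℝ => ci p.2 ^ (-w) • γ (ci p.2 • p.1)) (z, θ)).comp
        (ContinuousLinearMap.inl ℝ (E N) ℝ)) v =
      ci θ ^ (-w) • fderiv ℝ γ (ci θ • z) (ci θ • v) := fun θ hθ v => by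
    have d1 := ((h _ (hI z hz _ (norm_ci θ))).differentiableAt (by simp)).hasFDerivAt
    have d2 := (HasFDerivAt.comp (g := γ) z d1
      ((hasFDerivAt_id z).const_smul (ci θ))).const_smul (ci θ ^ (-w))
    rw [(PO_one (AV_F w hI h z hz θ hθ)).unique d2]
    rfl
  let T : (E N →L[ℝ] W) →L[ℝ] W := (1 / 2 : ℂ) • (ContinuousLinearMap.apply ℝ W (Pi.single l 1) +
    I • ContinuousLinearMap.apply ℝ W (Pi.single l I))
  have hT : ∀ L, T L = (1 / 2 : ℂ) • (L (Pi.single l 1) + I • L (Pi.single l I)) := fun _ => rfl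
  change T (fderiv ℝ (av w γ) z) = _
  rw [show fderiv ℝ (av w γ) z = _ from h1, ← T.intervalIntegral_comp_comm h2]
  refine intervalIntegral.integral_congr fun θ hθ => ?_
  simp only [hT, h3 θ hθ, pzb]
  rw [smul_comm I, ← smul_add, AV_rot _ _ l, neg_add, zpow_add₀ (AV_ne θ), zpow_neg_one,
    inv_eq_conj (norm_ci θ), smul_smul, smul_smul, smul_smul]
  congr 1
  ring

theorem dbE_av (w : ℤ) {γ : E N → Λ N} {U : Set (E N)} (hU : IsOpen U) (hI : Iv U)
    (h : ∀ z ∈ U, ContDiffAt ℝ ∞ γ z) {z : E N} (hz : z ∈ U) :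
    dbE (av w γ) z = av (w + 1) (dbE γ) z := by
  have hc : ∀ j, Continuous fun θ => ci θ ^ (-(w + 1)) • (dzb j * pzb j γ (ci θ • z)) :=
    fun j => AV_cont (γ := fun y => dzb j * pzb j γ y) (w + 1)
      fun t ht => continuousAt_const.mul (AV_pzb (h _ (hI z hz t ht)) j)
  simp only [dbE, av, Finset.smul_sum]
  rw [intervalIntegral.integral_finsetSum fun j _ => (hc j).intervalIntegrable _ _]
  refine Finset.sum_congr rfl fun j _ => ?_
  exact (congrArg (dzb j * ·) (pzb_av w hU hI h hz j)).trans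
    (av_map (ContinuousLinearMap.mul ℂ (Λ N) (dzb j)) (w + 1)
      fun t ht => AV_pzb (h _ (hI z hz t ht)) j)

theorem differentiableAt_av (w : ℤ) {γ : E N → W} {U : Set (E N)} (hU : IsOpen U) (hI : Iv U)
    (h : ∀ z ∈ U, DifferentiableAt ℂ γ z) {z : E N} (hz : z ∈ U) :
    DifferentiableAt ℂ (av w γ) z := by
  refine SCVb_param (F := fun y θ => ci θ ^ (-w) • γ (ci θ • y)) hU (fun p hp => ?_)
    (fun θ y hy => ?_) 0 1 hz
  · refine ContinuousAt.continuousWithinAt (((AV_sm (-w)).continuous.comp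
      continuous_snd).continuousAt.smul (ContinuousAt.comp (g := γ)
        (h _ (hI _ hp.1 _ (norm_ci _))).continuousAt ?_))
    exact ((AV_sm1.continuous.comp continuous_snd).smul continuous_fst).continuousAt
  · exact ((DifferentiableAt.comp (g := γ) (f := fun y => ci θ • y) y
      (h _ (hI y hy _ (norm_ci θ))) (by fun_prop)).const_smul _).differentiableWithinAt

theorem av_exact {j : ℤ} {q : ℕ} {γ β : E N → Λ N} {U : Set (E N)} (hU : IsOpen U) (hI : Iv U)
    (h : ∀ z ∈ U, Wt (j + (q + 1 : ℕ)) γ z ∧ ContDiffAt ℝ ∞ β z ∧ β z ∈ Tp N 0 q ∧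
      dbE β z = γ z) {z : E N} (hz : z ∈ U) :
    Gd j q (av (j + q) β) z ∧ dbE (av (j + q) β) z = γ z := by
  have hs : ∀ y ∈ U, ContDiffAt ℝ ∞ β y := fun y hy => (h y hy).2.1
  refine ⟨⟨contDiffAt_av _ hU hI hs hz, av_mem _ _ fun t ht =>
    ⟨(hs _ (hI z hz t ht)).continuousAt, (h _ (hI z hz t ht)).2.2.1⟩, wt_av _ _ _⟩, ?_⟩
  rw [dbE_av _ hU hI hs hz, av_congr _ fun t ht => (h _ (hI z hz t ht)).2.2.2]
  refine av_of_wt ?_
  have := (h z hz).1
  rwa [Nat.cast_succ, ← add_assoc] at this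

/-- Average a smooth function that is zero on one closed set and one on the other. -/
theorem exists_ivcut {r r' : ℝ} (h : r < r') : ∃ χ : E N → ℂ, ContDiff ℝ ∞ χ ∧
    (∀ z, Wt 0 χ z) ∧ (∀ z, ‖z‖ ≤ r → χ z = 0) ∧ ∀ z, r' ≤ ‖z‖ → χ z = 1 := by
  obtain ⟨f, h0, h1, -⟩ := exists_contMDiffMap_zero_one_of_isClosed (n := ⊤)
    (modelWithCornersSelf ℝ (E N)) (isClosed_le continuous_norm continuous_const :
      IsClosed {z : E N | ‖z‖ ≤ r}) (isClosed_le continuous_const continuous_norm :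
      IsClosed {z : E N | r' ≤ ‖z‖})
    (disjoint_left.2 fun z h1 h2 => absurd (le_trans h2 h1) h.not_ge)
  have hf : ContDiff ℝ ∞ fun z => (f z : ℂ) := ofRealCLM.contDiff.comp f.contMDiff.contDiff
  have hc : ∀ (c : ℂ) (z : E N), av 0 (fun _ => c) z = c :=
    fun c z => av_of_wt fun t _ => by rw [zpow_zero, one_smul]
  refine ⟨av 0 fun z => (f z : ℂ), contDiff_iff_contDiffAt.2 fun z => contDiffAt_av 0 isOpen_univ
    (fun _ _ _ _ => mem_univ _) (fun _ _ => hf.contDiffAt) (mem_univ z), wt_av _ _,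
    fun z hz => (av_congr 0 fun t ht => ?_).trans (hc 0 z),
    fun z hz => (av_congr 0 fun t ht => ?_).trans (hc 1 z)⟩
  · rw [h0 (show ‖t • z‖ ≤ r by rwa [norm_smul, ht, one_mul])]
    rfl
  · rw [h1 (show r' ≤ ‖t • z‖ by rwa [norm_smul, ht, one_mul])]
    rfl

end

end Pool.Agent.MP_1c689d_ag.K0.Fd

end

section

/-! Local exactness near a line. -/

set_option autoImplicit false

open Complex Filter Topology Set MeasureTheory MvPolynomial
open scoped ComplexConjugate ContDiff ENNReal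

namespace Pool.Agent.MP_1c689d_ag.K0.Fd

noncomputable section

variable {N : ℕ}

/-- Write `z₀ = τ • c`, take `L` from `exists_L`. The preimage of `Ry z₀ ∩ Sh N a b` under `L` is the
product of the annulus `a ≤ ‖t‖ ≤ b` (coordinate `k`) and the points `0`, so `dolbeault` applies to
`tl L γ`; transport back with `tl L.symm`, then `iv_ev` and `av_exact`. -/
theorem orb {j : ℤ} {q : ℕ} {γ : E N → Λ N} {z₀ : E N} (h0 : z₀ ≠ 0) {a b : ℝ}
    (h : ∀ᶠ z in 𝓝ˢ (Ry z₀ ∩ Sh N a b), Gd j (q + 1) γ z ∧ dbE γ z = 0) :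
    ∃ β : E N → Λ N, ∀ᶠ z in 𝓝ˢ (Ry z₀ ∩ Sh N a b), Gd j q β z ∧ dbE β z = γ z := by
  obtain ⟨c, k, τ, hk, hc, hτ, rfl⟩ := exists_nrm h0
  obtain ⟨L, hL⟩ := exists_L hk
  have hn : ‖c‖ = 1 := hc.antisymm (by simpa only [hk, norm_one] using norm_le_pi_norm c k)
  let K : Fin N → Set ℂ := fun l => if l = k then {t | a ≤ ‖t‖ ∧ ‖t‖ ≤ b} else {0}
  have hK : ∀ l, IsCompact (K l) := fun l => by
    simp only [K]
    split_ifs
    · refine (isCompact_closedBall (0 : ℂ) b).of_isClosed_subset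
        ((isClosed_le continuous_const continuous_norm).inter
          (isClosed_le continuous_norm continuous_const)) fun t ht => ?_
      exact mem_closedBall_zero_iff.2 ht.2
    · exact isCompact_singleton
  have m1 : MapsTo L (Set.pi univ K) (Ry (τ • c) ∩ Sh N a b) := fun w hw => by
    have e : L w = w k • c := by
      rw [(hL w).1]
      funext l
      by_cases hl : l = k
      · simp [hl, hk]
      · have : w l = 0 := by simpa only [K, if_neg hl, mem_singleton_iff] using hw l trivial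
        simp [hl, this]
    have e' : a ≤ ‖w k‖ ∧ ‖w k‖ ≤ b := by simpa only [K, if_true, mem_setOf_eq] using hw k trivial
    rw [e]
    refine ⟨⟨w k / τ, by rw [smul_smul, div_mul_cancel₀ _ hτ]⟩, ?_⟩
    change a ≤ ‖w k • c‖ ∧ ‖w k • c‖ ≤ b
    rwa [norm_smul, hn, mul_one]
  have m2 : MapsTo L.symm (Ry (τ • c) ∩ Sh N a b) (Set.pi univ K) := by
    rintro z ⟨⟨t, rfl⟩, hz⟩ l -
    change a ≤ ‖t • τ • c‖ ∧ ‖t • τ • c‖ ≤ b at hz
    rw [smul_smul, norm_smul, hn, mul_one] at hz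
    rw [(hL _).2, smul_smul]
    by_cases hl : l = k
    · simpa [K, hl, hk] using hz
    · simp [K, hl, hk]
  obtain ⟨β, b1, b2, b3⟩ := dolbeault hK (p := 0) (q := q) (α := tl (L : E N →L[ℂ] E N) γ) (by
    filter_upwards [(L.continuous.tendsto_nhdsSet m1).eventually h] with w hw
    have := cz_tl (L : E N →L[ℂ] E N) (z := w) ⟨hw.1.sm, hw.1.ty, hw.2⟩
    exact ⟨this.sm, this.ty, this.cl⟩)
  obtain ⟨U, hU, hI, hT, hp⟩ := iv_ev ((iv_ry (τ • c)).inter (iv_sh a b))
    (p := fun z => Wt (j + (q + 1 : ℕ)) γ z ∧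
      ContDiffAt ℝ ∞ (tl (L.symm : E N →L[ℂ] E N) β) z ∧
      tl (L.symm : E N →L[ℂ] E N) β z ∈ Tp N 0 q ∧
      dbE (tl (L.symm : E N →L[ℂ] E N) β) z = γ z) (by
    filter_upwards [h, (L.symm.continuous.tendsto_nhdsSet m2).eventually b3] with z h1 h2
    refine ⟨h1.1.wt, tl_sm _ b1.contDiffAt, tl_Tp _ (b2 _), ?_⟩
    rw [dbE_tl _ (b1.differentiable (by simp) _), tl_congr _ h2, tl_symm])
  exact ⟨_, Filter.eventually_of_mem (hU.mem_nhdsSet.2 hT) fun z hz => av_exact hU hI hp hz⟩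

end

end Pool.Agent.MP_1c689d_ag.K0.Fd

end

section

/-! Two general lemmas on the Dolbeault complex of a manifold. -/

set_option autoImplicit false

open Complex Filter Topology Set MeasureTheory MvPolynomial
open scoped ComplexConjugate ContDiff ENNReal

namespace Pool.Agent.MP_1c689d_ag.K0.Fd

noncomputable section

variable {n : ℕ} {X : Type} [TopologicalSpace X] [Mf n X] {G : Ga X} {a q : ℕ} {α : Fm n X}

/-- `dolbeault_at` at each point and disjoint open neighbourhoods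
(`Set.Finite.t2_separation`). -/
theorem dolb_fin {S : Set X} (hS : S.Finite) (hG : ∀ p ∈ S, GOk G p)
    (hα : ∀ p ∈ S, SmAt G α p ∧ ∀ᶠ y in 𝓝 p, α y ∈ Tp n a (q + 1) ∧ dbar G α y = 0) :
    ∃ β : Fm n X, Ty a q β ∧ ∀ p ∈ S, SmAt G β p ∧ ∀ᶠ y in 𝓝 p, dbar G β y = α y := by
  classical
  obtain ⟨U, hU, hd⟩ := hS.t2_separation
  choose! b b1 b2 b3 using fun p (hp : p ∈ S) => dolbeault_at (hG p hp) (hα p hp).1
    ((hα p hp).2.mono fun _ h => h.1) ((hα p hp).2.mono fun _ h => h.2)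
  obtain ⟨β, hβ⟩ : ∃ β : Fm n X,
      β = fun y => if h : ∃ p ∈ S, y ∈ U p then b h.choose y else 0 := ⟨_, rfl⟩
  have e : ∀ p ∈ S, b p =ᶠ[𝓝 p] β := by
    intro p hp
    filter_upwards [(hU p).2.mem_nhds (hU p).1] with y hy
    have h : ∃ p ∈ S, y ∈ U p := ⟨p, hp, hy⟩
    have h1 : h.choose = p := hd.elim_set h.choose_spec.1 hp y h.choose_spec.2 hy
    simp only [hβ, dif_pos h, h1]
  refine ⟨β, fun y => ?_, fun p hp => ⟨(b1 p hp).congr (e p hp), ?_⟩⟩
  · by_cases h : ∃ p ∈ S, y ∈ U p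
    · simp only [hβ, dif_pos h]
      exact b2 _ h.choose_spec.1 y
    · simp only [hβ, dif_neg h]
      exact zero_mem _
  · filter_upwards [(e p hp).eventually_nhds, b3 p hp] with y h1 h2
    rw [← dbar_congr h1, h2]

/-- Choose `β ν` by `h1`; `β (ν + 1) - β ν` is holomorphic at the points of `K ν`, so it agrees with
some `δ ν` on `K' ν`. The forms `β' ν = β ν - ∑ μ ∈ range ν, δ μ` satisfy `β' (ν + 1) = β' ν` on `K' ν`.
Put `β p = β' ν p` for the least `ν` with `p ∈ K' ν` (zero if there is none); then `β = β' ν` on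
`K' ν`. -/
theorem exh (hG : ∀ p, GOk G p) {O : Set X} {K K' : ℕ → Set X} (hK : Monotone K)
    (hK' : Monotone K') (hs : ∀ ν, K' ν ⊆ K ν) (hO : ∀ ν, K ν ⊆ O)
    (hc : ∀ p ∈ O, ∃ ν, K' ν ∈ 𝓝 p)
    (h1 : ∀ ν, ∃ β : Fm n X, ∀ p ∈ K ν, SmAt G β p ∧
      ∀ᶠ y in 𝓝 p, β y ∈ Tp n a 0 ∧ dbar G β y = α y)
    (h0 : ∀ ν, ∀ β : Fm n X, (∀ p ∈ K ν, HFm G β p ∧ ∀ᶠ y in 𝓝 p, β y ∈ Tp n a 0) →
      ∃ δ : Fm n X, Ty a 0 δ ∧ (∀ p ∈ O, HFm G δ p) ∧ ∀ p ∈ K' ν, β p = δ p) :
    ∃ β : Fm n X, Sm G β O ∧ Ty a 0 β ∧ ∀ p ∈ O, dbar G β p = α p := by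
  classical
  choose b hb using h1
  have k0 : ∀ ν, ∀ p ∈ K ν, HFm G (b (ν + 1) - b ν) p ∧
      ∀ᶠ y in 𝓝 p, (b (ν + 1) - b ν) y ∈ Tp n a 0 := by
    intro ν p hp
    obtain ⟨a1, a2⟩ := hb ν p hp
    obtain ⟨a3, a4⟩ := hb (ν + 1) p (hK (Nat.le_succ ν) hp)
    refine ⟨⟨a3.sub a1, ?_⟩, ?_⟩
    · filter_upwards [a1.eventually (hG p), a3.eventually (hG p), a2, a4] with y c1 c2 c3 c4
      rw [dbar_sub c2 c1, c3.2, c4.2, sub_self]
    · filter_upwards [a2, a4] with y c3 c4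
      exact sub_mem c4.1 c3.1
  choose δ d1 d2 d3 using fun ν => h0 ν _ (k0 ν)
  obtain ⟨c, hcd⟩ : ∃ c : ℕ → Fm n X, c = fun ν => b ν - ∑ μ ∈ Finset.range ν, δ μ := ⟨_, rfl⟩
  have c1 : ∀ ν, ∀ p ∈ K' ν, c (ν + 1) p = c ν p := by
    intro ν p hp
    have h := d3 ν p hp
    simp only [hcd, Finset.sum_range_succ, Pi.sub_apply, Pi.add_apply] at h ⊢
    rw [← h]
    abel
  have c2 : ∀ ν μ, ν ≤ μ → ∀ p ∈ K' ν, c μ p = c ν p := by
    intro ν μ h p hp
    induction μ, h using Nat.le_induction with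
    | base => rfl
    | succ μ h ih => rw [c1 μ p (hK' h hp), ih]
  obtain ⟨β, hβ⟩ : ∃ β : Fm n X,
      β = fun p => if h : ∃ ν, p ∈ K' ν then c (Nat.find h) p else 0 := ⟨_, rfl⟩
  have e : ∀ ν, ∀ p ∈ K' ν, c ν p = β p := by
    intro ν p hp
    have h : ∃ ν, p ∈ K' ν := ⟨ν, hp⟩
    simp only [hβ, dif_pos h]
    exact c2 _ _ (Nat.find_min' h hp) p (Nat.find_spec h)
  have c3 : ∀ ν, ∀ p ∈ K' ν, SmAt G (c ν) p ∧ c ν p ∈ Tp n a 0 ∧ dbar G (c ν) p = α p := by
    intro ν p hp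
    obtain ⟨a1, a2⟩ := hb ν p (hs ν hp)
    have hp' := hO ν (hs ν hp)
    have a3 : ∀ μ ∈ Finset.range ν, SmAt G (δ μ) p := fun μ _ => (d2 μ p hp').1
    simp only [hcd]
    refine ⟨a1.sub (SmAt.sum a3), ?_, ?_⟩
    · rw [Pi.sub_apply, Finset.sum_apply]
      exact sub_mem a2.self_of_nhds.1 (sum_mem fun μ _ => d1 μ p)
    · rw [dbar_sub a1 (SmAt.sum a3), dbar_sum a3, a2.self_of_nhds.2,
        Finset.sum_eq_zero fun μ _ => (d2 μ p hp').2.self_of_nhds, sub_zero]
  have c4 : ∀ p ∈ O, ∃ ν, p ∈ K' ν ∧ c ν =ᶠ[𝓝 p] β := by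
    intro p hp
    obtain ⟨ν, hν⟩ := hc p hp
    exact ⟨ν, mem_of_mem_nhds hν, mem_of_superset hν (e ν)⟩
  refine ⟨β, fun p hp => ?_, fun p => ?_, fun p hp => ?_⟩
  · obtain ⟨ν, k1, k2⟩ := c4 p hp
    exact (c3 ν p k1).1.congr k2
  · by_cases h : ∃ ν, p ∈ K' ν
    · obtain ⟨ν, hν⟩ := h
      rw [← e ν p hν]
      exact (c3 ν p hν).2.1
    · simp only [hβ, dif_neg h]
      exact zero_mem _
  · obtain ⟨ν, k1, k2⟩ := c4 p hp
    rw [← dbar_congr k2, (c3 ν p k1).2.2]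

end

end Pool.Agent.MP_1c689d_ag.K0.Fd

end

section

/-! The equation with compact support in the directions `J`. -/

set_option autoImplicit false

open Complex Filter Topology Set MeasureTheory MvPolynomial
open scoped ComplexConjugate ContDiff ENNReal

namespace Pool.Agent.MP_1c689d_ag.K0.Fd

noncomputable section

variable {N : ℕ}

/-- A smooth function of one coordinate. -/
theorem exists_cut1 {r r' : ℝ} (h : r < r') : ∃ ψ : ℂ → ℂ, ContDiff ℝ ∞ ψ ∧
    (∀ t, ‖t‖ ≤ r → ψ t = 1) ∧ ∀ t, r' ≤ ‖t‖ → ψ t = 0 := by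
  rcases lt_or_ge r 0 with h0 | h0
  · exact ⟨fun _ => 0, contDiff_const, fun t ht => absurd (h0.trans_le (norm_nonneg t))
      (not_lt.2 ht), fun _ _ => rfl⟩
  let b : ContDiffBump (0 : ℂ) := ⟨(r + r') / 2, r', by linarith, by linarith⟩
  refine ⟨fun t => (b t : ℂ), ofRealCLM.contDiff.comp b.contDiff, fun t ht => ?_, fun t ht => ?_⟩
  · show ((b t : ℝ) : ℂ) = 1
    rw [b.one_of_mem_closedBall (mem_closedBall_zero_iff.2 (show ‖t‖ ≤ (r + r') / 2 by linarith)),
      ofReal_one]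
  · show ((b t : ℝ) : ℂ) = 0
    rw [b.zero_of_le_dist (by rwa [dist_zero_right]), ofReal_zero]

/-- `CSD_pzb`, `CSD_line`. -/
theorem csp_zero {l : Fin N} {U : Set (E N)} (hJ : ∀ z ∈ U, ∀ t : ℂ, z + Pi.single l t ∈ U)
    {r : ℝ} {p : ℕ} {f : E N → Λ N} (hf : ContDiff ℝ ∞ f) (ht : ∀ z, f z ∈ Tp N p 0)
    (h0 : ∀ z ∈ U, dbE f z = 0) (hs : ∀ z, r < ‖z l‖ → f z = 0) : ∀ z ∈ U, f z = 0 := by
  refine fun z hz => CSD_line l (hf.differentiable (by simp)) (c := 0) (R := r) (fun t => ?_)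
    fun t h1 => hs _ (by simpa using h1)
  rw [CSD_pzb l (hf.differentiable (by simp) _) ht, h0 _ (hJ z hz t), map_zero]

theorem CSP_cs {l : Fin N} {g : E N → Λ N} {R : ℝ} (hg : ∀ z k, k ≠ l → R < ‖z k‖ → g z = 0)
    {ψ : ℂ → ℂ} {s : ℝ} (hψ : ∀ t, s ≤ ‖t‖ → ψ t = 0) :
    HasCompactSupport fun z => ψ (z l) • g z := by
  refine HasCompactSupport.intro (isCompact_closedBall 0 (max (max R s) 0)) fun z hz => ?_
  rw [mem_closedBall_zero_iff, pi_norm_le_iff_of_nonneg (le_max_right _ _), not_forall] at hz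
  obtain ⟨k, hk⟩ := hz
  have h1 := (le_max_left _ _).trans_lt (not_le.1 hk)
  by_cases h : k = l
  · rw [hψ _ (h ▸ ((le_max_right _ _).trans h1.le)), zero_smul]
  · rw [hg z k h ((le_max_left _ _).trans_lt h1), smul_zero]

theorem CSP_lt (l : Fin N) {s : ℝ} {z : E N} (h : s < ‖z l‖) : ∀ᶠ y in 𝓝 z, s < ‖y l‖ :=
  (isOpen_lt continuous_const (by fun_prop) : IsOpen {y : E N | s < ‖y l‖}).mem_nhds h

theorem CSP_gt (l : Fin N) {s : ℝ} {z : E N} (h : ‖z l‖ < s) : ∀ᶠ y in 𝓝 z, ‖y l‖ < s :=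
  (isOpen_lt (by fun_prop) continuous_const : IsOpen {y : E N | ‖y l‖ < s}).mem_nhds h

theorem CSP_step {q : ℕ} {J : Finset (Fin N)} {l : Fin N} (hl : l ∈ J) {U : Set (E N)}
    (hU : IsOpen U) (hJ : ∀ z ∈ U, ∀ l ∈ J, ∀ t : ℂ, z + Pi.single l t ∈ U) {r r' : ℝ}
    (hr : r < r') {p : ℕ} {f : E N → Λ N} (hf : ContDiff ℝ ∞ f) (hc : HasCompactSupport f)
    (ht : ∀ z, f z ∈ Tp N p (q + 1)) (h0 : ∀ z ∈ U, dbE f z = 0)
    (hs : ∀ z, ∀ l ∈ J, r < ‖z l‖ → f z = 0)
    (ih : ∀ (V : Set (E N)) (a : E N → Λ N), IsOpen V →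
      (∀ z ∈ V, ∀ k ∈ J.erase l, ∀ t : ℂ, z + Pi.single k t ∈ V) → ContDiff ℝ ∞ a →
      HasCompactSupport a → (∀ z, a z ∈ Tp N p q) → (∀ z ∈ V, dbE a z = 0) →
      (∀ z, ∀ k ∈ J.erase l, r < ‖z k‖ → a z = 0) →
      ∃ b : E N → Λ N, ContDiff ℝ ∞ b ∧ HasCompactSupport b ∧ (∀ z, b z ∈ Tp N p q) ∧
        (∀ z, dbE b z = 0) ∧ (∀ z ∈ V, b z = a z) ∧ ∀ z, ∀ k ∈ J.erase l, r' < ‖z k‖ → b z = 0) :
    ∃ g : E N → Λ N, ContDiff ℝ ∞ g ∧ HasCompactSupport g ∧ (∀ z, g z ∈ Tp N p q) ∧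
      (∀ z ∈ U, dbE g z = f z) ∧ ∀ z, ∀ l ∈ J, r' < ‖z l‖ → g z = 0 := by
  obtain ⟨R, hR⟩ := hc.isCompact.isBounded.subset_closedBall 0
  obtain ⟨γ, hγ, hγT, hγd, hγz⟩ : ∃ γ : E N → Λ N, ContDiff ℝ ∞ γ ∧ (∀ z, γ z ∈ Tp N p q) ∧
      (∀ z ∈ U, dbE γ z = f z) ∧ ∀ z, (∀ t, f (z + Pi.single l t) = 0) → γ z = 0 := by
    refine ⟨_, contDiff_cT l (CSD_sm (CSD_c l) hf) (CSD_cs (CSD_c l) hc),
      CSD_Tp l (CSD_sm (CSD_c l) hf).continuous (CSD_cs (CSD_c l) hc)
        fun w => ctr_Tp_right l (ht w), fun z hz => ?_, fun z h =>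
      cT_eq_zero l fun t => by rw [h, map_zero]⟩
    have h := CSD_hom l hf hc z
    rwa [cT_eq_zero l fun w => by rw [h0 _ (hJ z hz l hl w), map_zero], add_zero] at h
  have hγR : ∀ z k, k ≠ l → R < ‖z k‖ → γ z = 0 := fun z k hk h =>
    hγz z fun t => CSD_out hR k (by rw [CSD_ne hk]; simpa using h)
  have hγr : ∀ z, ∀ k ∈ J.erase l, r < ‖z k‖ → γ z = 0 := fun z k hk h =>
    hγz z fun t => hs _ k (Finset.mem_of_mem_erase hk)
      (by rwa [CSD_ne (Finset.ne_of_mem_erase hk)])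
  obtain ⟨φ, hφ, hφ1, hφ0⟩ := exists_cut1 (lt_add_one (r' + 1))
  obtain ⟨ψ, hψ, hψ1, hψ0⟩ := exists_cut1 (show (r + r') / 2 < r' by linarith)
  have hV : ∀ z ∈ U ∩ {z | r < ‖z l‖ ∧ ‖z l‖ < r' + 1},
      ∀ᶠ y in 𝓝 z, y ∈ U ∩ {z | r < ‖z l‖ ∧ ‖z l‖ < r' + 1} := fun z hz =>
    (hU.eventually_mem hz.1).and ((CSP_lt l hz.2.1).and (CSP_gt l hz.2.2))
  obtain ⟨b, hb, hbc, hbT, hbd, hbe, hbz⟩ := ih (U ∩ {z | r < ‖z l‖ ∧ ‖z l‖ < r' + 1})
    (fun z => φ (z l) • γ z) (isOpen_iff_mem_nhds.2 hV)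
    (fun z hz k hk t => ⟨hJ z hz.1 k (Finset.mem_of_mem_erase hk) t, by
      have := hz.2
      rwa [mem_ofPred_eq, ← CSD_ne (Finset.ne_of_mem_erase hk).symm z t] at this⟩)
    ((hφ.comp (contDiff_apply ℝ ℂ l)).smul hγ) (CSP_cs hγR hφ0)
    (fun z => Submodule.smul_mem _ _ (hγT z))
    (fun z hz => by
      rw [dbE_congr (β := γ) ((hV z hz).mono fun y hy => by
        simp only [hφ1 _ hy.2.2.le, one_smul]), hγd z hz.1, hs z l hl hz.2.1])
    fun z k hk h => by rw [hγr z k hk h, smul_zero]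
  obtain ⟨R', hR'⟩ := hbc.isCompact.isBounded.subset_closedBall 0
  refine ⟨fun z => ψ (z l) • (γ z - b z), (hψ.comp (contDiff_apply ℝ ℂ l)).smul (hγ.sub hb),
    CSP_cs (R := max R R') (fun z k hk h => ?_) hψ0,
    fun z => Submodule.smul_mem _ _ (sub_mem (hγT z) (hbT z)), fun z hz => ?_, fun z k hk h => ?_⟩
  · rw [hγR z k hk ((le_max_left _ _).trans_lt h),
      CSD_out hR' k (by simpa using (le_max_right _ _).trans_lt h), sub_zero]
  · rcases lt_or_ge r ‖z l‖ with h1 | h1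
    · rw [hs z l hl h1]
      rcases lt_or_ge r' ‖z l‖ with h2 | h2
      · exact CSD_db_zero ((CSP_lt l h2).mono fun y hy => by rw [hψ0 _ hy.le, zero_smul])
      · exact CSD_db_zero ((hV z ⟨hz, h1, by linarith⟩).mono fun y hy => by
          rw [hbe y hy, hφ1 _ hy.2.2.le, one_smul, sub_self, smul_zero])
    · rw [dbE_congr (β := γ + (-1 : ℂ) • b) ((CSP_gt l (show ‖z l‖ < (r + r') / 2 by linarith)).mono
        fun y hy => by simp [hψ1 _ hy.le, sub_eq_add_neg]),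
        dbE_add (hγ.differentiable (by simp) z) ((hb.differentiable (by simp) z).const_smul _),
        dbE_smul, hbd, smul_zero, add_zero, hγd z hz]
  · beta_reduce
    by_cases h1 : k = l
    · rw [hψ0 _ (h1 ▸ h.le), zero_smul]
    · have h2 := Finset.mem_erase.2 ⟨h1, hk⟩
      rw [hγr z k h2 (hr.trans h), hbz z k h2 h, sub_zero, smul_zero]

/-- Induction on `q` (for all `J`, `U`, `r`, `r'`, `f`). Take `l ∈ J` and `g₀ = cT l (CSD_c l ∘ f)`;
`dbE g₀ = f` on `U` by `CSD_hom` and `cT_eq_zero`, and `g₀` vanishes if `r < ‖z l'‖` for some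
`l' ∈ J.erase l`. Choose `r < r₁ < r₂ < r₃ < r₄ < r'`, `R > r'` and put
`U' = U ∩ {r < ‖z l‖ < R}`, on which `g₀` is closed. If `q = 0` then `g₀ = 0` on `U'` by `csp_zero`,
put `h = 0`; otherwise apply the induction hypothesis to `ω (z l) • g₀ z` (`ω = 1` for `‖t‖ ≤ R`,
compact support), `J.erase l` and `U'`, and get `h`. Let `χ = 0` for `‖t‖ ≤ r₁`, `χ = 1` for
`r₂ ≤ ‖t‖`, `ψ = 1` for `‖t‖ ≤ r₃`, `ψ = 0` for `r₄ ≤ ‖t‖`. Then `g₁ = g₀ - dbE (χ (z l) • h)`
vanishes on `U ∩ {r₂ < ‖z l‖ < R}`, and `g = ψ (z l) • g₁` works. -/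
theorem csp {q : ℕ} {J : Finset (Fin N)} (hq : q + 1 < J.card) {U : Set (E N)} (hU : IsOpen U)
    (hJ : ∀ z ∈ U, ∀ l ∈ J, ∀ t : ℂ, z + Pi.single l t ∈ U) {r r' : ℝ} (hr : r < r') {p : ℕ}
    {f : E N → Λ N} (hf : ContDiff ℝ ∞ f) (hc : HasCompactSupport f)
    (ht : ∀ z, f z ∈ Tp N p (q + 1)) (h0 : ∀ z ∈ U, dbE f z = 0)
    (hs : ∀ z, ∀ l ∈ J, r < ‖z l‖ → f z = 0) :
    ∃ g : E N → Λ N, ContDiff ℝ ∞ g ∧ HasCompactSupport g ∧ (∀ z, g z ∈ Tp N p q) ∧
      (∀ z ∈ U, dbE g z = f z) ∧ ∀ z, ∀ l ∈ J, r' < ‖z l‖ → g z = 0 := by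
  induction q generalizing J U f with
  | zero =>
    obtain ⟨l, hl, k, hk, hlk⟩ := Finset.one_lt_card.1 hq
    have h2 := Finset.mem_erase.2 ⟨hlk.symm, hk⟩
    exact CSP_step hl hU hJ hr hf hc ht h0 hs fun V a _ h1 ha _ haT had haz =>
      ⟨fun _ => 0, contDiff_const, HasCompactSupport.zero, fun _ => zero_mem _,
        fun _ => dbE_const 0, fun z hz => (csp_zero (fun z hz => h1 z hz k h2) ha haT had
          (fun z => haz z k h2) z hz).symm, fun _ _ _ _ => rfl⟩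
  | succ q ih =>
    obtain ⟨l, hl⟩ := Finset.card_pos.1 (show 0 < J.card by omega)
    refine CSP_step hl hU hJ hr hf hc ht h0 hs fun V a hV h1 ha hac haT had haz => ?_
    obtain ⟨h, a1, a2, a3, a4, a5⟩ := ih (J := J.erase l)
      (by rw [Finset.card_erase_of_mem hl]; omega) hV h1 ha hac haT had haz
    exact ⟨dbE h, CSD_db_sm a1, CSD_db_cs a2, fun _ => dbE_Tp (Eventually.of_forall a3),
      fun _ => dbE_dbE (a1.contDiffAt.of_le (WithTop.coe_le_coe.2 le_top)), a4,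
      fun z k hk hz => CSD_db_zero ((CSP_lt k hz).mono fun y hy => a5 y k hk hy)⟩

end

end Pool.Agent.MP_1c689d_ag.K0.Fd

end

section

/-! The adjoint of the Cauchy transform. -/

set_option autoImplicit false

open Complex Filter Topology Set MeasureTheory MvPolynomial
open scoped ComplexConjugate ContDiff ENNReal

namespace Pool.Agent.MP_1c689d_ag.K0.Fd

noncomputable section

variable {N : ℕ} {W : Type} [NormedAddCommGroup W] [NormedSpace ℂ W] [CompleteSpace W]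

theorem TP1_li : LocallyIntegrable (fun p : E N × ℂ => p.2⁻¹) (volume.prod volume) := by
  rw [locallyIntegrable_iff]
  intro K hK
  have h1 := hK.image continuous_fst
  have h2 := hK.image continuous_snd
  refine IntegrableOn.mono_set (t := (Prod.fst '' K) ×ˢ (Prod.snd '' K)) ?_
    fun p hp => ⟨mem_image_of_mem _ hp, mem_image_of_mem _ hp⟩
  rw [IntegrableOn, ← Measure.prod_restrict]
  have : IsFiniteMeasure ((volume : Measure (E N)).restrict (Prod.fst '' K)) :=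
    isFiniteMeasure_restrict.2 h1.measure_lt_top.ne
  exact Integrable.comp_snd (locallyIntegrable_inv.integrableOn_isCompact h2) _

theorem TP1_cs {X Y Z : Type} [Zero X] [Zero Y] [Zero Z] (l : Fin N) {a : E N → X} {b : E N → Y}
    (hac : HasCompactSupport a) (hbc : HasCompactSupport b) {G : E N × ℂ → Z}
    (h : ∀ p, G p ≠ 0 → a p.1 ≠ 0 ∧ b (p.1 + Pi.single l p.2) ≠ 0) : HasCompactSupport G := by
  refine HasCompactSupport.intro ((hac.isCompact.prod hbc.isCompact).image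
    (f := fun q : E N × E N => (q.1, q.2 l - q.1 l)) (by fun_prop)) fun p hp => ?_
  by_contra h0
  exact hp ⟨(p.1, p.1 + (Pi.single l p.2 : E N)),
    ⟨subset_tsupport _ (h p h0).1, subset_tsupport _ (h p h0).2⟩, by simp⟩

/-- Fubini on `E N × ℂ` (the kernel `w⁻¹` is integrable on discs), translation invariance of the
volume, and `w ↦ -w`. -/
theorem cT_adj (l : Fin N) {a : E N → ℂ} {b : E N → W} (ha : Continuous a)
    (hac : HasCompactSupport a) (hb : Continuous b) (hbc : HasCompactSupport b) :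
    ∫ z, a z • cT l b z = -∫ z, cT l a z • b z := by
  have hs : Continuous fun p : E N × ℂ => p.1 + Pi.single l p.2 :=
    continuous_fst.add ((continuous_single l).comp continuous_snd)
  have i1 : Integrable (Function.uncurry fun (z : E N) (w : ℂ) =>
      w⁻¹ • a z • b (z + Pi.single l w)) (volume.prod volume) :=
    TP1_li.integrable_smul_right_of_hasCompactSupport ((ha.comp continuous_fst).smul (hb.comp hs))
      (TP1_cs l hac hbc fun p hp => smul_ne_zero_iff.1 hp)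
  have i2 : Integrable (Function.uncurry fun (z : E N) (w : ℂ) =>
      w⁻¹ • a (z + Pi.single l w) • b z) (volume.prod volume) :=
    TP1_li.integrable_smul_right_of_hasCompactSupport ((ha.comp hs).smul (hb.comp continuous_fst))
      (TP1_cs l hbc hac fun p hp => (smul_ne_zero_iff.1 hp).symm)
  have e1 : ∀ z, a z • cT l b z =
      (-(Real.pi : ℂ)⁻¹) • ∫ w : ℂ, w⁻¹ • a z • b (z + Pi.single l w) := fun z => by
    rw [cT, smul_comm, ← integral_smul]
    simp only [smul_comm (a z)]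
  have e2 : ∀ z, cT l a z • b z =
      (-(Real.pi : ℂ)⁻¹) • ∫ w : ℂ, w⁻¹ • a (z + Pi.single l w) • b z := fun z => by
    rw [cT, smul_assoc, ← integral_smul_const]
    simp only [smul_assoc]
  simp only [e1, e2, integral_smul]
  rw [integral_integral_swap i1, integral_integral_swap i2, ← smul_neg, ← integral_neg,
    ← integral_neg_eq_self]
  congr 2
  funext w
  rw [← integral_neg, ← integral_add_right_eq_self _ (Pi.single l w)]
  simp only [Pi.single_neg, add_neg_cancel_right, inv_neg, neg_smul]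

end

end Pool.Agent.MP_1c689d_ag.K0.Fd

end

section

/-! The equation with compact support in top degree. -/

set_option autoImplicit false

open Complex Filter Topology Set MeasureTheory MvPolynomial
open scoped ComplexConjugate ContDiff ENNReal

namespace Pool.Agent.MP_1c689d_ag.K0.Fd

noncomputable section

variable {N : ℕ}

section Aux

variable {W : Type} [NormedAddCommGroup W] [NormedSpace ℂ W]

theorem TP2_smul (l : Fin N) {a : E N → ℂ} {b : E N → W} {z : E N} (ha : DifferentiableAt ℝ a z)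
    (hb : DifferentiableAt ℝ b z) :
    pzb l (fun w => a w • b w) z = a z • pzb l b z + pzb l a z • b z := by
  simp only [pzb, fderiv_fun_smul ha hb, ContinuousLinearMap.add_apply,
    ContinuousLinearMap.smul_apply, ContinuousLinearMap.smulRight_apply, smul_eq_mul]
  module

theorem TP2_add (l : Fin N) {a b : E N → W} {z : E N} (ha : DifferentiableAt ℝ a z)
    (hb : DifferentiableAt ℝ b z) :
    pzb l (fun w => a w + b w) z = pzb l a z + pzb l b z := by
  simp only [pzb, fderiv_fun_add ha hb, ContinuousLinearMap.add_apply]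
  module

theorem TP2_cs {a : E N → W} {R : ℝ} (h : ∀ z l, R < ‖z l‖ → a z = 0) : HasCompactSupport a := by
  refine HasCompactSupport.intro (isCompact_closedBall (0 : E N) |R|) fun z hz => ?_
  by_contra h0
  refine hz (mem_closedBall_zero_iff.2 ((pi_norm_le_iff_of_nonneg (abs_nonneg R)).2 fun l => ?_))
  exact (not_lt.1 fun h1 => h0 (h z l h1)).trans (le_abs_self R)

theorem TP2_bd {a : E N → W} (h : HasCompactSupport a) : ∃ R : ℝ, ∀ z l, R < ‖z l‖ → a z = 0 := by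
  obtain ⟨R, hR⟩ := h.isCompact.isBounded.subset_closedBall 0
  refine ⟨R, fun z l hz => image_eq_zero_of_notMem_tsupport fun h1 => ?_⟩
  exact not_le.2 hz ((norm_le_pi_norm z l).trans (mem_closedBall_zero_iff.1 (hR h1)))

end Aux

/-- The derivative of a function of one coordinate. -/
theorem TP2_cut {r r' : ℝ} (h : r < r') : ∃ ψ χ : ℂ → ℂ, ContDiff ℝ ∞ ψ ∧ ContDiff ℝ ∞ χ ∧
    (∀ t, ‖t‖ < r → ψ t = 1 ∧ χ t = 0) ∧ (∀ t, r' < ‖t‖ → ψ t = 0 ∧ χ t = 0) ∧
    ∀ (l : Fin N) (z : E N), pzb l (fun w : E N => ψ (w l)) z = χ (z l) := by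
  obtain ⟨ψ, hψ, h1, h0⟩ := exists_cut1 h
  have hd : ContDiff ℝ ∞ (fderiv ℝ ψ) := hψ.fderiv_right (m := ∞) (by simp)
  refine ⟨ψ, fun t => (1 / 2 : ℂ) * (fderiv ℝ ψ t 1 + I * fderiv ℝ ψ t I), hψ,
    contDiff_const.mul ((hd.clm_apply contDiff_const).add
      (contDiff_const.mul (hd.clm_apply contDiff_const))), fun t ht => ⟨h1 t ht.le, ?_⟩,
    fun t ht => ⟨h0 t ht.le, ?_⟩, fun l z => ?_⟩
  · have e : ψ =ᶠ[𝓝 t] fun _ => 1 :=
      ((isOpen_lt continuous_norm continuous_const).eventually_mem ht).mono fun s hs => h1 s hs.le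
    simp [e.fderiv_eq]
  · have e : ψ =ᶠ[𝓝 t] fun _ => 0 :=
      ((isOpen_lt continuous_const continuous_norm).eventually_mem ht).mono fun s hs => h0 s hs.le
    simp [e.fderiv_eq]
  · have a : fderiv ℝ (fun w : E N => ψ (w l)) z = _ :=
      ((hψ.differentiable (by simp) (z l)).hasFDerivAt.comp z
        (hasFDerivAt_apply (𝕜 := ℝ) l z)).fderiv
    simp [pzb, a]

/-- The state of the induction. -/
structure TP2_St (r r₁ r' : ℝ) (p q : ℕ) (f : E N → Λ N) (A : Finset (Fin N))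
    (G : Fin N → E N → Λ N) (F : E N → Λ N) : Prop where
  smG : ∀ l, ContDiff ℝ ∞ (G l)
  smF : ContDiff ℝ ∞ F
  tyG : ∀ l z, G l z ∈ Tp N p q
  tyF : ∀ z, F z ∈ Tp N p q
  zG : ∀ l z l', r' < ‖z l'‖ → G l z = 0
  zF : ∀ z l', r' < ‖z l'‖ → F z = 0
  eq : ∀ z, f z = ∑ l, pzb l (G l) z + F z
  out : ∀ z, ∀ l ∉ A, r < ‖z l‖ → F z = 0
  orth : ∀ h : E N → ℂ, ContDiff ℝ ∞ h → HasCompactSupport h →
    (∀ z, ∀ l ∉ A, ‖z l‖ < r₁ → pzb l h z = 0) → ∫ z, h z • F z = 0

theorem TP2_step {r r₁ r' : ℝ} (h1 : r < r₁) (h2 : r₁ < r') {p q : ℕ} {f : E N → Λ N}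
    {A : Finset (Fin N)} {G : Fin N → E N → Λ N} {F : E N → Λ N} (H : TP2_St r r₁ r' p q f A G F)
    {l : Fin N} (hl : l ∉ A) : ∃ G' F', TP2_St r r₁ r' p q f (insert l A) G' F' := by
  classical
  obtain ⟨ψ, χ, hψ, hχ, hi, ho, hd⟩ := TP2_cut (N := N) h2
  have hc : HasCompactSupport F := TP2_cs H.zF
  have hu : ContDiff ℝ ∞ (cT l F) := contDiff_cT l H.smF hc
  have cl : ContDiff ℝ ∞ fun w : E N => w l := contDiff_apply ℝ ℂ l
  have sψ : ContDiff ℝ ∞ fun w : E N => ψ (w l) := hψ.comp cl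
  have sχ : ContDiff ℝ ∞ fun w : E N => χ (w l) := hχ.comp cl
  have su : ContDiff ℝ ∞ fun w : E N => ψ (w l) • cT l F w := sψ.smul hu
  have uT : ∀ z, cT l F z ∈ Tp N p q := CSD_Tp l H.smF.continuous hc H.tyF
  have uz : ∀ z l', l' ≠ l → r' < ‖z l'‖ → cT l F z = 0 := fun z l' hl' hz =>
    cT_eq_zero l fun t => H.zF _ l' (by rwa [CSD_ne hl'])
  have hF : ∀ z, ψ (z l) • F z = F z := fun z => by
    rcases lt_or_ge r ‖z l‖ with h | h
    · rw [H.out z l hl h, smul_zero]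
    · rw [(hi _ (h.trans_lt h1)).1, one_smul]
  refine ⟨fun l' w => G l' w + if l' = l then ψ (w l) • cT l F w else 0,
    fun w => -(χ (w l) • cT l F w), fun l' => ?_, (sχ.smul hu).neg, fun l' z => ?_, fun z => ?_,
    fun l' z k hk => ?_, fun z k hk => ?_, fun z => ?_, fun z k hk hz => ?_, fun h hh hhc h0 => ?_⟩
  · split_ifs
    · exact (H.smG l').add su
    · exact (H.smG l').add contDiff_const
  · split_ifs
    · exact add_mem (H.tyG l' z) (Submodule.smul_mem _ _ (uT z))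
    · exact add_mem (H.tyG l' z) (zero_mem _)
  · exact neg_mem (Submodule.smul_mem _ _ (uT z))
  · rw [H.zG l' z k hk, zero_add]
    split_ifs
    · by_cases e : k = l
      · rw [(ho _ (e ▸ hk)).1, zero_smul]
      · rw [uz z k e hk, smul_zero]
    · rfl
  · by_cases e : k = l
    · rw [(ho _ (e ▸ hk)).2, zero_smul, neg_zero]
    · rw [uz z k e hk, smul_zero, neg_zero]
  · have e : ∀ l', pzb l' (fun w => G l' w + if l' = l then ψ (w l) • cT l F w else 0) z =
        pzb l' (G l') z + if l' = l then F z + χ (z l) • cT l F z else 0 := fun l' => by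
      split_ifs with e
      · subst e
        rw [TP2_add l' ((H.smG l').differentiable (by simp) z) (su.differentiable (by simp) z),
          TP2_smul l' (sψ.differentiable (by simp) z) (hu.differentiable (by simp) z), hd,
          pzb_cT l' l' H.smF hc, cT_pzb l' H.smF hc, hF]
      · simp only [add_zero]
    simp only [e, Finset.sum_add_distrib, Finset.sum_ite_eq', Finset.mem_univ, if_true, H.eq z]
    abel
  · rw [Finset.mem_insert, not_or] at hk
    rw [cT_eq_zero l fun t => H.out _ k hk.2 (by rwa [CSD_ne hk.1]), smul_zero, neg_zero]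
  · have sa : ContDiff ℝ ∞ fun w : E N => χ (w l) • h w := sχ.smul hh
    have ca : HasCompactSupport fun w : E N => χ (w l) • h w :=
      hhc.smul_left (f := fun w : E N => χ (w l))
    have sb := contDiff_cT l sa ca
    obtain ⟨R, hR⟩ := TP2_bd hhc
    have e1 := cT_adj l sa.continuous ca H.smF.continuous hc
    have e2 := H.orth (fun w => ψ (w l) • cT l (fun w : E N => χ (w l) • h w) w) (sψ.smul sb)
      (TP2_cs (R := max R r') fun z k hk => by
        by_cases e : k = l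
        · rw [(ho _ ((le_max_right R r').trans_lt (e ▸ hk))).1, zero_smul]
        · rw [cT_eq_zero l fun t => by
            rw [hR _ k (by rw [CSD_ne e]; exact (le_max_left R r').trans_lt hk), smul_zero],
            smul_zero])
      (fun z k hk hz => by
        rw [TP2_smul k (sψ.differentiable (by simp) z) (sb.differentiable (by simp) z),
          pzb_cT l k sa ca]
        by_cases e : k = l
        · subst e
          rw [cT_pzb k sa ca, hd]
          simp [(hi _ hz).2]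
        · rw [CSD_pzb_coord (hψ.differentiable (by simp)) (Ne.symm e), cT_eq_zero l fun t => ?_]
          · simp
          rw [TP2_smul k (sχ.differentiable (by simp) _) (hh.differentiable (by simp) _),
            CSD_pzb_coord (hχ.differentiable (by simp)) (Ne.symm e),
            h0 _ k (by simp [e, hk]) (by rwa [CSD_ne e])]
          simp)
    have e3 : ∀ z, (ψ (z l) • cT l (fun w : E N => χ (w l) • h w) z) • F z =
        cT l (fun w : E N => χ (w l) • h w) z • F z := fun z => by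
      rw [smul_eq_mul, mul_comm, mul_smul, hF]
    simp only [e3] at e2
    rw [e2, neg_zero] at e1
    have e4 : ∀ z, h z • -(χ (z l) • cT l F z) = -((χ (z l) • h z) • cT l F z) := fun z => by
      rw [smul_neg, smul_smul, smul_eq_mul, mul_comm]
    simp only [e4]
    rw [integral_neg, e1, neg_zero]

/-- Fix `r < r₁ < r₂ < r'` and `ψ` with `ψ = 1` for `‖t‖ ≤ r₁`, `ψ = 0` for `r₂ ≤ ‖t‖`
(`exists_cut1`). For a finite set `A` of indices show by induction: there are smooth `G l` and `F` with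
values in `Tp N p q`, vanishing if some `r₂ < ‖z l‖`, such that `f = ∑ l, pzb l (G l) + F`, `F z = 0` if
`r < ‖z l‖` for some `l ∉ A`, and `∫ h • F = 0` for all smooth `h` with compact support such that
`pzb l h z = 0` whenever `l ∉ A` and `‖z l‖ < r₁`. Step for `l ∉ A`: add `ψ (z l) • cT l F z` to `G l`
and replace `F` by `-(pzb l (ψ (z l))) • cT l F z` (`pzb_cT`, `cT_pzb`); by `cT_adj` the pairing with
`h` is the pairing of `F` with `ψ (z l) * cT l (h * pzb l (ψ (z l)))`. For `A = univ` we get `F = 0`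
(`ae_eq_zero_of_integral_contDiff_smul_eq_zero`). -/
theorem top_fn {r r' : ℝ} (hr : r < r') {p q : ℕ} {f : E N → Λ N} (hf : ContDiff ℝ ∞ f)
    (ht : ∀ z, f z ∈ Tp N p q) (hs : ∀ z l, r < ‖z l‖ → f z = 0)
    (h0 : ∀ h : E N → ℂ, ContDiff ℝ ∞ h → (∀ z, (∀ l, ‖z l‖ ≤ r) →
      ∀ᶠ w in 𝓝 z, DifferentiableAt ℂ h w) → ∫ z, h z • f z = 0) :
    ∃ G : Fin N → E N → Λ N, (∀ l, ContDiff ℝ ∞ (G l)) ∧ (∀ l z, G l z ∈ Tp N p q) ∧
      (∀ l z l', r' < ‖z l'‖ → G l z = 0) ∧ ∀ z, f z = ∑ l, pzb l (G l) z := by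
  classical
  have h1 : r < (r + r') / 2 := by linarith
  have h2 : (r + r') / 2 < r' := by linarith
  have key : ∀ A : Finset (Fin N), ∃ G F, TP2_St r ((r + r') / 2) r' p q f A G F := fun A => by
    induction A using Finset.induction_on with
    | empty =>
      refine ⟨fun _ _ => 0, f, fun _ => contDiff_const, hf, fun _ _ => zero_mem _, ht,
        fun _ _ _ _ => rfl, fun z l hz => hs z l (hr.trans hz), fun z => by simp [pzb],
        fun z l _ hz => hs z l hz, fun h hh _ hz => h0 h hh fun z hz' => ?_⟩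
      have : ∀ᶠ w in 𝓝 z, ∀ l, ‖w l‖ < (r + r') / 2 := eventually_all.2 fun l =>
        (isOpen_lt (continuous_apply l).norm continuous_const).eventually_mem
          ((hz' l).trans_lt h1)
      exact this.mono fun w hw => differentiableAt_of_pzb (hh.differentiable (by simp) w)
        fun l => hz w l (Finset.notMem_empty l) (hw l)
    | insert l A hl ih =>
      obtain ⟨G, F, H⟩ := ih
      exact TP2_step h1 h2 H hl
  obtain ⟨G, F, H⟩ := key Finset.univ
  have hF : F = 0 := by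
    refine (Continuous.ae_eq_iff_eq volume H.smF.continuous continuous_zero).1 ?_
    refine ae_eq_zero_of_integral_contDiff_smul_eq_zero H.smF.continuous.locallyIntegrable
      fun g hg hgc => ?_
    have := H.orth (fun z => (g z : ℂ)) (ofRealCLM.contDiff.comp hg)
      (hgc.comp_left (g := fun t : ℝ => (t : ℂ)) ofReal_zero)
      fun z l hl => (hl (Finset.mem_univ l)).elim
    simpa only [Complex.coe_smul] using this
  refine ⟨G, H.smG, H.tyG, H.zG, fun z => ?_⟩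
  rw [H.eq z, hF, Pi.zero_apply, add_zero]

/-- `g = ∑ l, CSD_c l (G l z)`; use `CSD_c_db` and `Tp N p (N + 1) = ⊥`. -/
theorem top_ex {q : ℕ} (hq : q + 1 = N) {r r' : ℝ} (hr : r < r') {p : ℕ} {f : E N → Λ N}
    (hf : ContDiff ℝ ∞ f) (ht : ∀ z, f z ∈ Tp N p (q + 1)) (hs : ∀ z l, r < ‖z l‖ → f z = 0)
    (h0 : ∀ h : E N → ℂ, ContDiff ℝ ∞ h → (∀ z, (∀ l, ‖z l‖ ≤ r) →
      ∀ᶠ w in 𝓝 z, DifferentiableAt ℂ h w) → ∫ z, h z • f z = 0) :
    ∃ g : E N → Λ N, ContDiff ℝ ∞ g ∧ (∀ z, g z ∈ Tp N p q) ∧ (∀ z, dbE g z = f z) ∧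
      ∀ z l, r' < ‖z l‖ → g z = 0 := by
  obtain ⟨G, h1, h2, h3, h4⟩ := top_fn hr hf ht hs h0
  refine ⟨fun z => ∑ l, CSD_c l (G l z), ContDiff.sum fun l _ => CSD_sm _ (h1 l),
    fun z => sum_mem fun l _ => ctr_Tp_right l (h2 l z), fun z => ?_, fun z l hz => ?_⟩
  · have e : ∀ s : Finset (Fin N), dbE (fun z => ∑ l ∈ s, CSD_c l (G l z)) z =
        ∑ l ∈ s, dbE (fun z => CSD_c l (G l z)) z := fun s => by
      classical
      induction s using Finset.induction_on with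
      | empty => simp only [Finset.sum_empty, dbE_const]
      | insert l s hl ih =>
        simp only [Finset.sum_insert hl]
        rw [← ih]
        exact dbE_add ((CSD_sm _ (h1 l)).differentiable (by simp) z)
          ((ContDiff.sum fun l _ => CSD_sm (CSD_c l) (h1 l)).differentiable (by simp) z)
    rw [e, h4]
    refine Finset.sum_congr rfl fun l _ => ?_
    have h5 := dbE_Tp (z := z) (Eventually.of_forall (h2 l))
    rw [Tp_eq_bot (Or.inr (by omega)), Submodule.mem_bot] at h5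
    rw [← CSD_c_db l ((h1 l).differentiable (by simp) z), h5, map_zero, add_zero]
  · simp only [h3 _ z l hz, map_zero, Finset.sum_const_zero]

end

end Pool.Agent.MP_1c689d_ag.K0.Fd

end

section

/-! Averaging and integration. -/

set_option autoImplicit false

open Complex Filter Topology Set MeasureTheory MvPolynomial
open scoped ComplexConjugate ContDiff ENNReal

namespace Pool.Agent.MP_1c689d_ag.K0.Fd

noncomputable section

variable {N : ℕ} {W : Type} [NormedAddCommGroup W] [NormedSpace ℂ W] [CompleteSpace W]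

/-- Fubini and the invariance of the volume under `z ↦ t • z` (compare `SCVb_rot`). -/
theorem av_pair {w : ℤ} {η : E N → W} (hη : Continuous η) (hc : HasCompactSupport η)
    (hw : ∀ z, Wt w η z) {h : E N → ℂ} (hh : Continuous h) :
    ∫ z, h z • η z = ∫ z, av (-w) h z • η z := by
  have hn : ∀ θ, ‖ci θ‖ = 1 := fun θ => by simp [ci, norm_exp]
  have h0 : ∀ θ, ci θ ≠ 0 := fun θ => exp_ne_zero _
  have hi : Continuous ci := by unfold ci; fun_prop
  have h1 : ∀ θ, ∫ z, (ci θ ^ (- -w) • h (ci θ • z)) • η z = ∫ z, h z • η z := fun θ => by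
    have hm : MeasurePreserving (fun z : E N => ci θ • z) := volume_preserving_pi fun _ =>
      (rotation ⟨ci θ, mem_sphere_zero_iff_norm.2 (hn θ)⟩).measurePreserving
    rw [← hm.integral_comp (Homeomorph.smulOfNeZero _ (h0 θ)).measurableEmbedding
      fun z => h z • η z]
    simp only [hw _ _ (hn θ), neg_neg, smul_smul, smul_eq_mul, mul_comm]
  have h2 : Continuous fun p : ℝ × E N => (ci p.1 ^ (- -w) • h (ci p.1 • p.2)) • η p.2 :=
    (((hi.comp continuous_fst).zpow₀ _ fun p => Or.inl (h0 _)).smul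
      (hh.comp ((hi.comp continuous_fst).smul continuous_snd))).smul (hη.comp continuous_snd)
  have h3 := intervalIntegral_integral_swap (μ := volume) (a := 0) (b := 1)
    (f := fun θ z => (ci θ ^ (- -w) • h (ci θ • z)) • η z) (by
      rw [Measure.restrict_prod_eq_prod_univ]
      exact (h2.continuousOn.integrableOn_compact (isCompact_uIcc.prod hc)).of_forall_sdiff_eq_zero
        (measurableSet_uIoc.prod .univ) fun p hp => smul_eq_zero_of_right _
          (image_eq_zero_of_notMem_tsupport fun k => hp.2 ⟨uIoc_subset_uIcc hp.1.1, k⟩))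
  simpa only [h1, intervalIntegral.integral_smul_const, intervalIntegral.integral_const, sub_zero,
    one_smul, av] using h3

end

end Pool.Agent.MP_1c689d_ag.K0.Fd

end

section

/-! Filling one hole. -/

set_option autoImplicit false

open Complex Filter Topology Set MeasureTheory MvPolynomial
open scoped ComplexConjugate ContDiff ENNReal

namespace Pool.Agent.MP_1c689d_ag.K0.Fd

noncomputable section

variable {N : ℕ}

theorem HO1_congr {q : ℕ} {γ γ' : E N → Λ N} {z : E N} (h : Cz q γ z) (e : γ' =ᶠ[𝓝 z] γ) :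
    Cz q γ' z :=
  ⟨h.sm.congr_of_eventuallyEq e, e.self_of_nhds ▸ h.ty, (dbE_congr e).trans h.cl⟩

theorem HO1_le (k : Fin N) (z : E N) {l : Fin N} (hl : l ≠ k) :
    ‖z l‖ ≤ ‖z - z k • Pi.single k 1‖ := by
  refine le_of_eq_of_le ?_ (norm_le_pi_norm (z - z k • Pi.single k 1) l)
  simp [hl]

theorem HO1_lt (k : Fin N) {z : E N} {r : ℝ} (hr : 0 ≤ r)
    (h : r < ‖z - z k • Pi.single k 1‖) : ∃ l ∈ Finset.univ.erase k, r < ‖z l‖ := by
  by_contra hn
  push Not at hn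
  refine h.not_ge ((pi_norm_le_iff_of_nonneg hr).2 fun l => ?_)
  by_cases hl : l = k
  · simpa [hl] using hr
  · simpa [hl] using hn l (by simp [hl])

theorem HO1_norm {c : E N} (hc : ‖c‖ ≤ 1) (k : Fin N) (z : E N) :
    ‖z‖ ≤ ‖z - z k • c‖ + ‖z k‖ := by
  have h1 := norm_add_le (z - z k • c) (z k • c)
  rw [sub_add_cancel, norm_smul] at h1
  have h2 := mul_le_mul_of_nonneg_left hc (norm_nonneg (z k))
  linarith

theorem HO1_cont (c : E N) (k : Fin N) : Continuous fun z : E N => ‖z - z k • c‖ := by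
  fun_prop

/-- The model case: the hole is around the axis `k`. Let `ρ z` be the norm of
`z - z k • Pi.single k 1`. Take `χ` a smooth function of the coordinates `l ≠ k` with `χ = 0` for
`ρ ≤ 5 δ / 2` and `χ = 1` for `3 δ ≤ ρ` (for instance `1 - ∏ l ∈ univ.erase k, ψ (z l)` with
`exists_cut1`), `ω` a function of `z k` that is one for `a / 3 ≤ ‖z k‖ ≤ 3 b / 2` and zero near the
points with `‖z k‖ ≤ a / 4` or `2 b ≤ ‖z k‖`, and
`f = ω • indicator {ρ < 7 δ / 2} (dbE (χ • γ))`. Apply `csp` with `J = univ.erase k`,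
`U = {a / 3 < ‖z k‖ < 3 b / 2}`, `r = 3 δ`, `r' = 7 δ / 2` and put `γ₁ = χ • γ - g`. -/
theorem hole_model {q : ℕ} (hq : q + 2 < N) (k : Fin N) {a b δ : ℝ} (ha : 0 < a) (hab : a ≤ b)
    (hδ : 0 < δ) {γ : E N → Λ N}
    (h : ∀ z, a / 4 < ‖z k‖ → ‖z k‖ < 2 * b → 2 * δ < ‖z - z k • Pi.single k 1‖ →
      ‖z - z k • Pi.single k 1‖ < 4 * δ → Cz q γ z) :
    ∃ γ₁ : E N → Λ N, ∀ z, a / 3 < ‖z k‖ → ‖z k‖ < 3 * b / 2 →
      ‖z - z k • Pi.single k 1‖ < 4 * δ →
      Cz q γ₁ z ∧ (7 * δ / 2 < ‖z - z k • Pi.single k 1‖ → γ₁ z = γ z) := by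
  classical
  obtain ⟨ψ, hψ, ψ1, ψ0⟩ := exists_cut1 (r := 5 * δ / 2) (r' := 3 * δ) (by linarith)
  obtain ⟨φ, hφ, φ1, φ0⟩ := exists_cut1 (r := 7 * a / 24) (r' := a / 3) (by linarith)
  obtain ⟨θ, hθ, θ1, θ0⟩ := exists_cut1 (r := 3 * b / 2) (r' := 7 * b / 4) (by linarith)
  set ρ : E N → ℝ := fun z => ‖z - z k • Pi.single k 1‖ with hρ
  have cρ : Continuous ρ := HO1_cont _ k
  have ck : Continuous fun z : E N => ‖z k‖ := by fun_prop
  have sk : ∀ l, ContDiff ℝ ∞ fun z : E N => z l := fun l => contDiff_apply ℝ ℂ l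
  let χ : E N → ℂ := fun z => 1 - ∏ l ∈ Finset.univ.erase k, ψ (z l)
  have hχ : ContDiff ℝ ∞ χ := contDiff_const.sub (contDiff_prod fun l _ => hψ.comp (sk l))
  have χ0 : ∀ z, ρ z ≤ 5 * δ / 2 → χ z = 0 := fun z hz => sub_eq_zero.2
    (Finset.prod_eq_one fun l hl => ψ1 _ ((HO1_le k z (Finset.ne_of_mem_erase hl)).trans hz)).symm
  have χ1 : ∀ z, 3 * δ < ρ z → χ z = 1 := fun z hz => by
    obtain ⟨l, hl, h1⟩ := HO1_lt k (by linarith) hz
    simp only [χ, Finset.prod_eq_zero (f := fun l => ψ (z l)) hl (ψ0 _ h1.le), sub_zero]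
  let β : E N → Λ N := fun z => χ z • γ z
  let R : Set (E N) := {z | a / 4 < ‖z k‖} ∩ {z | ‖z k‖ < 2 * b} ∩ {z | ρ z < 4 * δ}
  have oR : IsOpen R := ((isOpen_lt continuous_const ck).inter
    (isOpen_lt ck continuous_const)).inter (isOpen_lt cρ continuous_const)
  have sβ : ∀ z ∈ R, ContDiffAt ℝ ∞ β z := fun z hz => by
    rcases lt_or_ge (2 * δ) (ρ z) with h1 | h1
    · exact hχ.contDiffAt.smul (h z hz.1.1 hz.1.2 h1 hz.2).sm
    · refine (contDiffAt_const (c := 0)).congr_of_eventuallyEq ?_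
      filter_upwards [(isOpen_lt cρ continuous_const).mem_nhds
        (show ρ z < 5 * δ / 2 by linarith)] with w hw
      simp only [β, χ0 w (le_of_lt hw), zero_smul]
  have tβ : ∀ z ∈ R, β z ∈ Tp N 0 q := fun z hz => by
    rcases lt_or_ge (2 * δ) (ρ z) with h1 | h1
    · exact Submodule.smul_mem _ _ (h z hz.1.1 hz.1.2 h1 hz.2).ty
    · simp only [β, χ0 z (by linarith), zero_smul, zero_mem]
  have dβ : ∀ z ∈ R, 3 * δ < ρ z → dbE β z = 0 := fun z hz h1 => by
    refine (dbE_congr ?_).trans (h z hz.1.1 hz.1.2 (by linarith) hz.2).cl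
    filter_upwards [(isOpen_lt continuous_const cρ).mem_nhds h1] with w hw
    simp only [β, χ1 w hw, one_smul]
  let f : E N → Λ N := fun z => if z ∈ R then (θ (z k) * (1 - φ (z k))) • dbE β z else 0
  have f0 : ∀ z, ‖z k‖ < 7 * a / 24 ∨ 7 * b / 4 < ‖z k‖ ∨ 3 * δ < ρ z → f z = 0 := fun z hz => by
    by_cases hR : z ∈ R
    · rcases hz with h1 | h1 | h1
      · simp only [f, φ1 _ h1.le, sub_self, mul_zero, zero_smul, ite_self]
      · simp only [f, θ0 _ h1.le, zero_mul, zero_smul, ite_self]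
      · simp only [f, dβ z hR h1, smul_zero, ite_self]
    · exact if_neg hR
  have fz : ∀ z, ‖z k‖ < 7 * a / 24 ∨ 7 * b / 4 < ‖z k‖ ∨ 3 * δ < ρ z →
      f =ᶠ[𝓝 z] fun _ => 0 := fun z hz =>
    mem_of_superset (((isOpen_lt ck continuous_const).union ((isOpen_lt continuous_const ck).union
      (isOpen_lt continuous_const cρ))).mem_nhds hz) f0
  let U : Set (E N) := {z | a / 3 < ‖z k‖} ∩ {z | ‖z k‖ < 3 * b / 2}
  have oU : IsOpen U := (isOpen_lt continuous_const ck).inter (isOpen_lt ck continuous_const)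
  have f1 : ∀ z ∈ U, z ∈ R → f z = dbE β z := fun z hz hR => by
    simp only [f, if_pos hR, θ1 _ (le_of_lt hz.2), φ0 _ (le_of_lt hz.1), sub_zero, mul_one,
      one_smul]
  have UR : ∀ z ∈ U, ρ z < 4 * δ → z ∈ R := fun z hz h1 =>
    ⟨⟨lt_trans (b := a / 3) (by linarith) hz.1,
      lt_trans (b := 3 * b / 2) hz.2 (by linarith)⟩, h1⟩
  obtain ⟨g, sg, -, tg, dg, g0⟩ := csp (q := q) (J := Finset.univ.erase k) (U := U) (f := f)
    (r := 3 * δ) (r' := 7 * δ / 2) (p := 0) (by simp; omega) oU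
    (fun z hz l hl t => by
      simpa only [U, mem_inter_iff, mem_ofPred_eq, Pi.add_apply,
        Pi.single_eq_of_ne' (Finset.ne_of_mem_erase hl), add_zero] using hz)
    (by linarith)
    (contDiff_iff_contDiffAt.2 fun z => by
      by_cases hR : z ∈ R
      · refine (((hθ.comp (sk k)).mul ((contDiff_const (c := 1)).sub
          (hφ.comp (sk k)))).contDiffAt.smul
          (contDiffAt_dbE (sβ z hR))).congr_of_eventuallyEq ?_
        filter_upwards [oR.mem_nhds hR] with w hw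
        exact if_pos hw
      · refine contDiffAt_const.congr_of_eventuallyEq (fz z ?_)
        by_contra hn
        push Not at hn
        exact hR ⟨⟨lt_of_lt_of_le (by linarith) hn.1, lt_of_le_of_lt hn.2.1 (by linarith)⟩,
          lt_of_le_of_lt hn.2.2 (by linarith)⟩)
    (HasCompactSupport.intro (isCompact_closedBall 0 (3 * δ + 7 * b / 4)) fun z hz => f0 z (by
      by_contra hn
      push Not at hn
      have h1 := HO1_norm (c := Pi.single k 1) (by simp [Pi.norm_single]) k z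
      exact hz (mem_closedBall_zero_iff.2 (h1.trans (add_le_add hn.2.2 hn.2.1)))))
    (fun z => by
      by_cases hR : z ∈ R
      · simp only [f, if_pos hR]
        exact Submodule.smul_mem _ _ (dbE_Tp (mem_of_superset (oR.mem_nhds hR) tβ))
      · simp only [f, if_neg hR, zero_mem])
    (fun z hz => by
      rcases lt_or_ge (ρ z) (4 * δ) with h1 | h1
      · have hR := UR z hz h1
        refine (dbE_congr ?_).trans (dbE_dbE ((sβ z hR).of_le
          (WithTop.coe_le_coe.2 (le_top (a := (2 : ℕ∞))))))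
        filter_upwards [oU.mem_nhds hz, oR.mem_nhds hR] with w h2 h3
        exact f1 w h2 h3
      · exact (dbE_congr (fz z (Or.inr (Or.inr (by linarith))))).trans (dbE_const 0))
    (fun z l hl h1 => f0 z (Or.inr (Or.inr
      (h1.trans_le (HO1_le k z (Finset.ne_of_mem_erase hl))))))
  refine ⟨β + (-1 : ℂ) • g, fun z h1 h2 h3 => ⟨⟨?_, ?_, ?_⟩, fun h4 => ?_⟩⟩
  · exact (sβ z (UR z ⟨h1, h2⟩ h3)).add (sg.contDiffAt.const_smul (-1 : ℂ))
  · exact add_mem (tβ z (UR z ⟨h1, h2⟩ h3)) (Submodule.smul_mem _ _ (tg z))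
  · rw [dbE_add ((sβ z (UR z ⟨h1, h2⟩ h3)).differentiableAt (by simp))
      ((sg.contDiffAt.differentiableAt (by simp)).const_smul _), dbE_smul, dg z ⟨h1, h2⟩,
      f1 z ⟨h1, h2⟩ (UR z ⟨h1, h2⟩ h3), neg_one_smul, add_neg_cancel]
  · obtain ⟨l, hl, h5⟩ := HO1_lt k (by linarith) h4
    simp only [Pi.add_apply, Pi.smul_apply, g0 z l hl h5, smul_zero, add_zero, β,
      χ1 z (lt_trans (by linarith) h4), one_smul]

/-- Take `L` from `exists_L`; `(L z) k = z k` and `L z - z k • c = z - z k • Pi.single k 1`. Apply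
`hole_model` to `tl L γ` with `δ = b * ε` and transport `γ₁` back. Let `B` be the open set
`{a / 3 < ‖z k‖ < 3 b / 2, ‖z - z k • c‖ < 4 b ε}`, put `γ' = γ₁` on `B` and `γ' = γ` outside. Near a
point with `7 b ε / 2 < ‖z - z k • c‖` or `‖z k‖ < a / 3` one has `γ' = γ`; this applies to the points of
`Sh N a b` outside `Ho c k (16 * b / a * ε)`. A point of `Sh N a b` in this hole has
`a / 2 ≤ ‖z k‖ ≤ b`. -/
theorem hole_one {q : ℕ} (hq : q + 2 < N) {c : E N} {k : Fin N} (hc : c k = 1) (hc' : ‖c‖ ≤ 1)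
    {a b ε : ℝ} (ha : 0 < a) (hab : a ≤ b) (hε : 0 < ε) (h1 : 16 * b / a * ε ≤ 1) {Z : Set (E N)}
    (hZ : Disjoint Z (Ho c k (16 * b / a * ε))) {γ : E N → Λ N}
    (h : ∀ᶠ z in 𝓝ˢ ((Sh N (a / 4) (4 * b) \ Z) \ Ho c k ε), Cz q γ z) :
    ∃ γ' : E N → Λ N, (∀ᶠ z in 𝓝ˢ (Sh N a b \ Z), Cz q γ' z) ∧
      ∀ z ∈ Sh N a b \ Ho c k (16 * b / a * ε), γ' =ᶠ[𝓝 z] γ := by
  classical
  obtain ⟨L, hL⟩ := exists_L hc
  have hb : 0 < b := ha.trans_le hab
  have hδ : 0 < b * ε := mul_pos hb hε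
  have e1 : 16 * b / a * ε = 16 * (b * ε) / a := by ring
  have h2 : 16 * (b * ε) ≤ a := by rwa [e1, div_le_one ha] at h1
  have Lk : ∀ z, L z k = z k := fun z => by simp [(hL z).1, hc]
  have Lc : ∀ z, L z - z k • c = z - z k • Pi.single k 1 := fun z => by
    rw [(hL z).1, smul_sub]
    abel
  have key : ∀ z, a / 4 < ‖z k‖ → ‖z - z k • c‖ < 4 * (b * ε) → z ∉ Z := fun z h3 h4 hz => by
    refine disjoint_left.1 hZ hz (h4.trans_le ?_)
    rw [e1, div_mul_eq_mul_div, le_div_iff₀ ha]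
    nlinarith
  obtain ⟨γ₁, hγ⟩ := hole_model hq k ha hab hδ (γ := tl (L : E N →L[ℂ] E N) γ)
    fun z h3 h4 h5 h6 => cz_tl _ (h.self_of_nhdsSet (L z) (by
      have h7 := HO1_norm hc' k (L z)
      have h8 := norm_le_pi_norm (L z) k
      rw [Lk, Lc] at h7
      rw [Lk] at h8
      refine ⟨⟨⟨by linarith, by linarith⟩, key _ (by rwa [Lk]) (by rwa [Lk, Lc])⟩, ?_⟩
      simp only [Ho, mem_ofPred_eq, Lk, Lc, not_lt]
      nlinarith))
  have Sk : ∀ w, L.symm w k = w k := fun w => by rw [← Lk (L.symm w), L.apply_symm_apply]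
  have Sc : ∀ w, L.symm w - L.symm w k • Pi.single k 1 = w - w k • c := fun w => by
    rw [← Lc, L.apply_symm_apply, Sk]
  have ck : Continuous fun z : E N => ‖z k‖ := by fun_prop
  let B : Set (E N) :=
    {z | a / 3 < ‖z k‖} ∩ {z | ‖z k‖ < 3 * b / 2} ∩ {z | ‖z - z k • c‖ < 4 * (b * ε)}
  have oB : IsOpen B := ((isOpen_lt continuous_const ck).inter
    (isOpen_lt ck continuous_const)).inter (isOpen_lt (HO1_cont c k) continuous_const)
  have hB := fun w (hw : w ∈ B) =>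
    hγ (L.symm w) (by rw [Sk]; exact hw.1.1) (by rw [Sk]; exact hw.1.2) (by rw [Sc]; exact hw.2)
  let γ' : E N → Λ N := fun z => if z ∈ B then tl (L.symm : E N →L[ℂ] E N) γ₁ z else γ z
  have e2 : ∀ z, 7 * (b * ε) / 2 < ‖z - z k • c‖ → γ' =ᶠ[𝓝 z] γ := fun z hz => by
    filter_upwards [(isOpen_lt continuous_const (HO1_cont c k)).mem_nhds hz] with w hw
    by_cases hw' : w ∈ B
    · refine (if_pos hw').trans ((tl_congr _ ((hB w hw').2 ?_)).trans (congrFun (tl_symm L γ) w))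
      rw [Sc]
      exact hw
    · exact if_neg hw'
  have small : ∀ z ∈ Sh N a b, ‖z k‖ ≤ a / 3 → 4 * (b * ε) ≤ ‖z - z k • c‖ := fun z hz h3 => by
    have := HO1_norm hc' k z
    linarith [hz.1]
  refine ⟨γ', eventually_nhdsSet_iff_forall.2 fun z hz => ?_, fun z hz => e2 z ?_⟩
  · by_cases hz' : z ∈ B
    · filter_upwards [oB.mem_nhds hz'] with w hw
      refine HO1_congr (cz_tl (L.symm : E N →L[ℂ] E N) (hB w hw).1) ?_
      filter_upwards [oB.mem_nhds hw] with v hv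
      exact if_pos hv
    · have h3 := (norm_le_pi_norm z k).trans hz.1.2
      have h4 : 4 * (b * ε) ≤ ‖z - z k • c‖ := by
        by_contra hn
        exact hz' ⟨⟨not_le.1 fun h5 => hn (small z hz.1 h5), lt_of_le_of_lt h3 (by linarith)⟩,
          not_le.1 hn⟩
      filter_upwards [(e2 z (by linarith)).eventually_nhds, eventually_nhdsSet_iff_forall.1 h z
        ⟨⟨⟨by linarith [hz.1.1], by linarith [hz.1.2]⟩, hz.2⟩, by
          simp only [Ho, mem_ofPred_eq, not_lt]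
          nlinarith⟩] with w h5 h6
      exact HO1_congr h6 h5
  · rcases le_or_gt ‖z k‖ (a / 3) with h3 | h3
    · linarith [small z hz.1 h3]
    · refine lt_of_lt_of_le ?_ (not_lt.1 hz.2)
      rw [e1, div_mul_eq_mul_div, lt_div_iff₀ ha]
      nlinarith

end

end Pool.Agent.MP_1c689d_ag.K0.Fd

end

section

/-! Homogeneous holomorphic functions off finitely many lines. -/

set_option autoImplicit false

open Complex Filter Topology Set MeasureTheory MvPolynomial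
open scoped ComplexConjugate ContDiff ENNReal

namespace Pool.Agent.MP_1c689d_ag.K0.Fd

noncomputable section

variable {n : ℕ}

/-- For each `k` the function `w ↦ b (ins k w)` extends to an entire function `g k`
(`hartogs_finite`, `offY_fin`). The functions `z k ^ j * g k (aff k z)` agree with `b` where both are
defined, hence with each other by continuity (the complement of finitely many lines is dense), and
give a homogeneous holomorphic function off the origin; `hartogs_point`, `poly_of_homog`. -/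
theorem hm_poly (hn : 2 ≤ n) (Pts : Finset (E (n + 1))) {j : ℤ} {b : E (n + 1) → ℂ}
    (hb : Hm j {z | z ≠ 0 ∧ OffY Pts z} b) :
    ∃ f ∈ hz (n + 1) j, ∀ z, z ≠ 0 → OffY Pts z → b z = eval z f := by
  classical
  have : Nonempty (Fin n) := ⟨⟨0, by omega⟩⟩
  have h0 : ∀ (k : Fin (n + 1)) (w : E n), ins k w ≠ 0 := fun k w e =>
    one_ne_zero ((ins_self k w).symm.trans (congrFun e k))
  have h1 : ∀ k : Fin (n + 1), ∃ g : E n → ℂ, DifferentiableOn ℂ g univ ∧
      EqOn (fun w => b (ins k w)) g (univ \ {w | ¬ OffY Pts (ins k w)}) := fun k =>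
    hartogs_finite hn isOpen_univ (offY_fin Pts k)
      (hb.1.comp (differentiable_ins k).differentiableOn fun w hw => ⟨h0 k w, not_not.1 hw.2⟩)
  choose g g1 g2 using h1
  have h2 : ∀ k z, z k ≠ 0 → OffY Pts z → z k ^ j * g k (aff k z) = b z := fun k z hk hz => by
    have h3 : OffY Pts (ins k (aff k z)) := (offY_smul hk).1 ((smul_ins_aff hk).symm ▸ hz)
    rw [← g2 k ⟨trivial, not_not.2 h3⟩, ← hb.2 _ ⟨h0 k _, h3⟩ _ hk, smul_ins_aff hk]
  have h3 : ∀ k (z : E (n + 1)), z k ≠ 0 →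
      DifferentiableAt ℂ (fun z : E (n + 1) => z k ^ j * g k (aff k z)) z := fun k z hk =>
    (hm_aff k isOpen_univ (g1 k) j).1.differentiableAt
      ((cn_aff k isOpen_univ).1.mem_nhds ⟨hk, trivial⟩)
  have h4 : ∀ k l (z : E (n + 1)), z k ≠ 0 → z l ≠ 0 →
      z k ^ j * g k (aff k z) = z l ^ j * g l (aff l z) := fun k l z hk hl => by
    have c1 : Tendsto (fun w => z k • ins k w) (𝓝 (aff k z)) (𝓝 z) := by
      have := ((differentiable_ins k).continuous.const_smul (z k)).tendsto (aff k z)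
      rwa [Pi.smul_apply, smul_ins_aff hk] at this
    refine tendsto_nhds_unique_of_frequently_eq ((h3 k z hk).continuousAt.tendsto.comp c1)
      ((h3 l z hl).continuousAt.tendsto.comp c1) ?_
    refine ((mem_closure_iff_frequently.1 (dense_univ.sdiff_finite (offY_fin Pts k) _)).and_eventually
      (c1.eventually ((((continuous_apply k).tendsto z).eventually_ne hk).and
        (((continuous_apply l).tendsto z).eventually_ne hl)))).mono fun w hw => ?_
    have h5 := (offY_smul hk).2 (not_not.1 hw.1.2)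
    exact (h2 k _ hw.2.1 h5).trans (h2 l _ hw.2.2 h5).symm
  let F : E (n + 1) → ℂ := fun z =>
    if h : ∃ k, z k ≠ 0 then z h.choose ^ j * g h.choose (aff h.choose z) else 0
  have h5 : ∀ k z, z k ≠ 0 → F z = z k ^ j * g k (aff k z) := fun k z hk =>
    (dif_pos ⟨k, hk⟩).trans (h4 _ k z (Exists.choose_spec (p := fun k => z k ≠ 0) _) hk)
  obtain ⟨G, G1, G2⟩ := hartogs_finite (f := F) (by omega) isOpen_univ (finite_singleton 0)
    fun z hz => by
      obtain ⟨k, hk⟩ := Function.ne_iff.1 hz.2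
      exact ((h3 k z hk).congr_of_eventuallyEq
        ((((continuous_apply k).tendsto z).eventually_ne hk).mono (h5 k))).differentiableWithinAt
  rw [differentiableOn_univ] at G1
  obtain ⟨f, f1, f2, f3⟩ := poly_of_homog G1 (i := j) fun t z ht => by
    refine congrFun (Continuous.ext_on (dense_compl_singleton 0)
      (G1.continuous.comp (continuous_const_smul t)) (G1.continuous.const_mul _) fun z hz => ?_) z
    obtain ⟨k, hk⟩ := Function.ne_iff.1 hz
    rw [Function.comp, ← G2 ⟨trivial, smul_ne_zero ht hz⟩, ← G2 ⟨trivial, hz⟩, h5 k z hk,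
      h5 k _ (mul_ne_zero ht hk), aff_smul k z ht, Pi.smul_apply, smul_eq_mul, mul_zpow, mul_assoc]
  refine ⟨f, ?_, fun z hz ho => ?_⟩
  · rw [K0.hz]
    split_ifs with h
    · exact f3
    · exact f2 (not_le.1 h)
  · obtain ⟨k, hk⟩ := Function.ne_iff.1 hz
    rw [← f1, ← G2 ⟨trivial, hz⟩, h5 k z hk, h2 k z hk ho]

end

end Pool.Agent.MP_1c689d_ag.K0.Fd

end
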