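import Pool.Agent.Mg.F1c689d.Gbeb1d0

set_option linter.all false


section

/-! Pointwise Kähler linear algebra in dimensions two and three. -/

set_option autoImplicit false

open Complex Filter Topology Set MeasureTheory
open scoped ComplexConjugate ContDiff ENNReal

namespace Pool.Agent.MP_1c689d_ag.K0

noncomputable section

variable {n m : ℕ}

/-- A positive `(1,1)`-form. -/
def Kah (u : Λ n) : Prop :=
  ∃ B : E n ≃L[ℂ] E n, lm ((B : E n →L[ℂ] E n).restrictScalars ℝ) u = I • ∑ j, dz j * dzb j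

/-- The standard form. -/
def EA3_om (n : ℕ) : Λ n := I • ∑ j, dz j * dzb j

theorem EA3_sw (v w : V n) : io v * io w = -(io w * io v) :=
  eq_neg_of_add_eq_zero_left (io_add_swap v w)

theorem EA3_sw' (v w : V n) (y : Λ n) : io v * (io w * y) = -(io w * (io v * y)) := by
  rw [← mul_assoc, EA3_sw, neg_mul, mul_assoc]

theorem EA3_zz (i : Fin n) : dz i * dz i = 0 := io_sq _

theorem EA3_bb (i : Fin n) : dzb i * dzb i = 0 := io_sq _

theorem EA3_zz' (i : Fin n) (y : Λ n) : dz i * (dz i * y) = 0 := by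
  rw [← mul_assoc, EA3_zz, zero_mul]

theorem EA3_bb' (i : Fin n) (y : Λ n) : dzb i * (dzb i * y) = 0 := by
  rw [← mul_assoc, EA3_bb, zero_mul]

theorem EA3_zs (i j : Fin n) (_h : j < i) : dz i * dz j = -(dz j * dz i) := EA3_sw _ _

theorem EA3_zs' (i j : Fin n) (_h : j < i) (y : Λ n) :
    dz i * (dz j * y) = -(dz j * (dz i * y)) := EA3_sw' _ _ _

theorem EA3_bs (i j : Fin n) (_h : j < i) : dzb i * dzb j = -(dzb j * dzb i) := EA3_sw _ _

theorem EA3_bs' (i j : Fin n) (_h : j < i) (y : Λ n) :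
    dzb i * (dzb j * y) = -(dzb j * (dzb i * y)) := EA3_sw' _ _ _

theorem EA3_bz (i j : Fin n) : dzb i * dz j = -(dz j * dzb i) := EA3_sw _ _

theorem EA3_bz' (i j : Fin n) (y : Λ n) :
    dzb i * (dz j * y) = -(dz j * (dzb i * y)) := EA3_sw' _ _ _

theorem EA3_left {p q : ℕ} {a : Λ n} (h : a ∈ Tp n (p + 1) q) :
    ∃ c : Fin n → Λ n, (∀ j, c j ∈ Tp n p q) ∧ a = ∑ j, dz j * c j := by
  have hp : ((p + 1 : ℕ) : ℂ) ≠ 0 := Nat.cast_ne_zero.2 (Nat.succ_ne_zero p)
  refine ⟨fun j => ((p + 1 : ℕ) : ℂ)⁻¹ • ctr ((bV n).coord (toLex (Sum.inl j))) a,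
    fun j => Submodule.smul_mem _ _ (ctr_Tp_left j h), ?_⟩
  simp only [mul_smul_comm]
  rw [← Finset.smul_sum, sum_dz_ctr h, smul_smul, inv_mul_cancel₀ hp, one_smul]

theorem EA3_right {p q : ℕ} {a : Λ n} (h : a ∈ Tp n p (q + 1)) :
    ∃ c : Fin n → Λ n, (∀ j, c j ∈ Tp n p q) ∧ a = ∑ j, dzb j * c j := by
  have hp : ((q + 1 : ℕ) : ℂ) ≠ 0 := Nat.cast_ne_zero.2 (Nat.succ_ne_zero q)
  refine ⟨fun j => ((q + 1 : ℕ) : ℂ)⁻¹ • ctr ((bV n).coord (toLex (Sum.inr j))) a,
    fun j => Submodule.smul_mem _ _ (ctr_Tp_right j h), ?_⟩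
  simp only [mul_smul_comm]
  rw [← Finset.smul_sum, sum_dzb_ctr h, smul_smul, inv_mul_cancel₀ hp, one_smul]

theorem EA3_lm_dz (B : E n →L[ℂ] E n) (j : Fin n) :
    lm (B.restrictScalars ℝ) (dz j) = ∑ a, B (Pi.single a 1) j • dz a := by
  rw [dz, lm_io]
  simp only [dz, ← map_smul, ← map_sum]
  congr 1
  ext1 z
  have hz : z = ∑ a, z a • (Pi.single a 1 : E n) := by
    funext l
    simp [Finset.sum_apply, Pi.single_apply]
  simp only [ContinuousLinearMap.comp_apply, vz_apply, ContinuousLinearMap.coe_restrictScalars',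
    sum_apply, smul_apply, smul_eq_mul]
  conv_lhs => rw [hz]
  simp only [map_sum, map_smul, Finset.sum_apply, Pi.smul_apply, smul_eq_mul, mul_comm]

open scoped MatrixOrder ComplexOrder Matrix in
theorem EA3_mat (W : Matrix (Fin m) (Fin n) ℂ) (A : Matrix (Fin n) (Fin m) ℂ) (h : A * W = 1) :
    ∃ B : Matrix (Fin n) (Fin n) ℂ, IsUnit B ∧ (W * B)ᴴ * (W * B) = 1 := by
  have hi : Function.Injective W.mulVec := fun x y hxy => by
    have := congrArg A.mulVec hxy
    simpa only [Matrix.mulVec_mulVec, h, Matrix.one_mulVec] using this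
  obtain ⟨D, hD, hE⟩ := CStarAlgebra.isStrictlyPositive_iff_eq_star_mul_self.mp
    (Matrix.PosDef.conjTranspose_mul_self W hi).isStrictlyPositive
  obtain ⟨D, rfl⟩ := hD
  refine ⟨((D⁻¹ : (Matrix (Fin n) (Fin n) ℂ)ˣ) : Matrix (Fin n) (Fin n) ℂ), Units.isUnit _, ?_⟩
  rw [Matrix.conjTranspose_mul, Matrix.mul_assoc, ← Matrix.mul_assoc Wᴴ, hE,
    Matrix.star_eq_conjTranspose, Matrix.mul_assoc, Units.mul_inv, Matrix.mul_one,
    ← Matrix.conjTranspose_mul, Units.mul_inv, Matrix.conjTranspose_one]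

/-- Normal form: the hermitian matrix `∑ w l (w l)^*` is positive definite; write it as `C C^*`. -/
theorem kah_of_span (w : Fin m → Λ n) (hw : ∀ l, w l ∈ Tp n 1 0)
    (hs : ∀ γ ∈ Tp n 1 0, ∃ a : Fin m → ℂ, γ = ∑ l, a l • w l) :
    Kah (I • ∑ l, w l * cj (w l)) := by
  choose W hW using fun l => mem_Tp10.1 (hw l)
  choose A hA using fun j => hs (dz j) (dz_mem j)
  have hAW : Matrix.of A * Matrix.of W = 1 := by
    ext j k
    have h1 : ∑ k, ((Matrix.of A * Matrix.of W) j k - (1 : Matrix (Fin n) (Fin n) ℂ) j k) • dz k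
        = (0 : Λ n) := by
      simp only [sub_smul, Finset.sum_sub_distrib, Matrix.one_apply, ite_smul, one_smul, zero_smul,
        Finset.sum_ite_eq, Finset.mem_univ, if_true, Matrix.mul_apply, Matrix.of_apply,
        Finset.sum_smul]
      rw [Finset.sum_comm, sub_eq_zero]
      conv_rhs => rw [hA j]
      refine Finset.sum_congr rfl fun l _ => ?_
      rw [hW l, Finset.smul_sum]
      simp only [smul_smul]
    exact sub_eq_zero.1 (Fintype.linearIndependent_iff.1 dz_li _ h1 k)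
  obtain ⟨B, hB, hP⟩ := EA3_mat (Matrix.of W) (Matrix.of A) hAW
  obtain ⟨iB⟩ := hB.nonempty_invertible
  refine ⟨(B.toLinearEquiv' iB).toContinuousLinearEquiv, ?_⟩
  set T : E n →L[ℂ] E n := ((B.toLinearEquiv' iB).toContinuousLinearEquiv : E n →L[ℂ] E n) with hT
  have hTa : ∀ a j, T (Pi.single a 1) j = B j a := fun a j => by
    change (Matrix.toLin' B (Pi.single a 1)) j = B j a
    simp
  have hl : ∀ l, lm (T.restrictScalars ℝ) (w l) = ∑ a, (Matrix.of W * B) l a • dz a := fun l => by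
    rw [hW l, map_sum]
    simp only [map_smul, EA3_lm_dz, hTa, Finset.smul_sum, smul_smul, Matrix.mul_apply,
      Matrix.of_apply, Finset.sum_smul]
    exact Finset.sum_comm
  rw [map_smul, map_sum]
  congr 1
  simp only [map_mul, lm_cj, hl, map_sum, cj_smul, cj_dz, Finset.sum_mul, Finset.mul_sum,
    smul_mul_assoc, mul_smul_comm, Finset.smul_sum, smul_smul]
  rw [Finset.sum_comm]
  refine Finset.sum_congr rfl fun a _ => ?_
  rw [Finset.sum_comm]
  have h2 : ∀ b, ∑ l, (conj ((Matrix.of W * B) l a) * (Matrix.of W * B) l b) =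
      if a = b then 1 else 0 := fun b => by
    have := congrFun (congrFun hP a) b
    rw [Matrix.mul_apply, Matrix.one_apply] at this
    exact this
  simp only [← Finset.sum_smul, h2, ite_smul, one_smul, zero_smul, Finset.sum_ite_eq,
    Finset.mem_univ, if_true]

theorem EA3_ex {u : Λ n} (h : Kah u) : ∃ (Φ Ψ : Λ n →ₐ[ℂ] Λ n) (c : ℝ), 0 < c ∧
    Φ u = EA3_om n ∧ (∀ a, Ψ (Φ a) = a) ∧ (∀ a, Φ (Ψ a) = a) ∧
    (∀ p q a, a ∈ Tp n p q → Φ a ∈ Tp n p q) ∧ (∀ p q a, a ∈ Tp n p q → Ψ a ∈ Tp n p q) ∧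
    (∀ a, Φ (cj a) = cj (Φ a)) ∧ ∀ a, top a = c * top (Φ a) := by
  obtain ⟨B, hB⟩ := h
  have h1 : ∀ a, lm ((B.symm : E n →L[ℂ] E n).restrictScalars ℝ)
      (lm ((B : E n →L[ℂ] E n).restrictScalars ℝ) a) = a := fun a => by
    rw [lm_comp]
    have : ((B : E n →L[ℂ] E n).restrictScalars ℝ).comp
        ((B.symm : E n →L[ℂ] E n).restrictScalars ℝ) = ContinuousLinearMap.id ℝ (E n) := by
      ext1 z; simp
    rw [this, lm_id]
  have h2 : ∀ a, lm ((B : E n →L[ℂ] E n).restrictScalars ℝ)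
      (lm ((B.symm : E n →L[ℂ] E n).restrictScalars ℝ) a) = a := fun a => by
    rw [lm_comp]
    have : ((B.symm : E n →L[ℂ] E n).restrictScalars ℝ).comp
        ((B : E n →L[ℂ] E n).restrictScalars ℝ) = ContinuousLinearMap.id ℝ (E n) := by
      ext1 z; simp
    rw [this, lm_id]
  have h3 : ∀ a, top a = (normSq (B.symm : E n →L[ℂ] E n).det : ℝ) *
      top (lm ((B : E n →L[ℂ] E n).restrictScalars ℝ) a) := fun a => by
    rw [← det_restrict, ← top_lm, h1]
  refine ⟨_, _, normSq (B.symm : E n →L[ℂ] E n).det, ?_, hB, h1, h2, fun p q a ha => lm_Tp _ ha,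
    fun p q a ha => lm_Tp _ ha, fun a => lm_cj _ a, h3⟩
  refine lt_of_le_of_ne (normSq_nonneg _) fun h0 => ?_
  have := h3 (vol n)
  rw [← h0, top_vol] at this
  simp at this

theorem EA3_mul {a b : Λ n} {p q p' q' : ℕ} (r s : ℕ) (ha : a ∈ Tp n p q) (hb : b ∈ Tp n p' q')
    (hr : p + p' = r) (hs : q + q' = s) : a * b ∈ Tp n r s :=
  hr ▸ hs ▸ Tp_mul ha hb

theorem EA3_om_mem : EA3_om n ∈ Tp n 1 1 :=
  Submodule.smul_mem _ _ (Submodule.sum_mem _ fun j _ => EA3_mul 1 1 (dz_mem j) (dzb_mem j) rfl rfl)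

theorem EA3_cj_om : cj (EA3_om n) = EA3_om n := by
  simp only [EA3_om, cj_smul, map_sum, map_mul, cj_dz, cj_dzb, EA3_bz, conj_I,
    Finset.sum_neg_distrib, smul_neg, neg_smul, neg_neg]

theorem EA3_pow_aux {R : Type} [Ring R] (x s : R) (hc : x * s = s * x) (h0 : x * x = 0) (k : ℕ) :
    (x + s) ^ (k + 1) = s ^ (k + 1) + (k + 1) • (x * s ^ k) := by
  induction k with
  | zero => simp [add_comm]
  | succ k ih =>
    rw [pow_succ', ih, add_mul, mul_add, mul_add, mul_smul_comm, mul_smul_comm, ← mul_assoc x x, h0,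
      zero_mul, smul_zero, add_zero, ← mul_assoc s x, ← hc, mul_assoc, ← pow_succ', ← pow_succ',
      succ_nsmul (x * s ^ (k + 1)) (k + 1)]
    abel

theorem EA3_pow_list {R : Type} [Ring R] (L : List R)
    (h : ∀ x ∈ L, (∀ b, x * b = b * x) ∧ x * x = 0) :
    L.sum ^ L.length = L.length.factorial • L.prod ∧ L.sum ^ (L.length + 1) = 0 := by
  induction L with
  | nil => simp
  | cons x L ih =>
    obtain ⟨h1, h2⟩ := ih fun y hy => h y (List.mem_cons_of_mem _ hy)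
    obtain ⟨h3, h4⟩ := h x List.mem_cons_self
    simp only [List.sum_cons, List.length_cons, List.prod_cons]
    constructor
    · rw [EA3_pow_aux x _ (h3 _) h4, h1, h2, zero_add, mul_smul_comm, smul_smul,
        Nat.factorial_succ]
    · rw [EA3_pow_aux x _ (h3 _) h4, h2, pow_succ, h2]
      simp

theorem EA3_om_pow : EA3_om n ^ n = ((2 ^ n * n.factorial : ℕ) : ℂ) • vol n := by
  have h1 : EA3_om n = (2 : ℂ) • (List.ofFn fun j : Fin n => (I / 2) • (dz j * dzb j)).sum := by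
    rw [List.sum_ofFn, ← Finset.smul_sum, smul_smul, EA3_om]
    congr 1
    ring
  have h2 := (EA3_pow_list (List.ofFn fun j : Fin n => (I / 2) • (dz j * dzb j)) (by
    intro x hx
    obtain ⟨j, rfl⟩ := List.mem_ofFn.1 hx
    refine ⟨fun b => comm_even (k := 1) (Submodule.smul_mem _ _
      (Tp_le_Dg (p := 1) (q := 1) (EA3_mul 1 1 (dz_mem j) (dzb_mem j) rfl rfl))) b, ?_⟩
    simp only [smul_mul_assoc, mul_smul_comm, mul_assoc, EA3_bz', mul_neg, EA3_zz', neg_zero,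
      smul_zero])).1
  rw [List.length_ofFn] at h2
  rw [h1, smul_pow, h2, ← Nat.cast_smul_eq_nsmul ℂ, smul_smul, vol]
  push_cast
  rfl

theorem Kah.mem {u : Λ n} (h : Kah u) : u ∈ Tp n 1 1 := by
  obtain ⟨Φ, Ψ, c, hc, hu, h1, h2, h3, h4, h5, h6⟩ := EA3_ex h
  rw [← h1 u, hu]
  exact h4 _ _ _ EA3_om_mem

theorem Kah.cj {u : Λ n} (h : Kah u) : cj u = u := by
  obtain ⟨Φ, Ψ, c, hc, hu, h1, h2, h3, h4, h5, h6⟩ := EA3_ex h
  rw [← h1 (K0.cj u), h5, hu, EA3_cj_om, ← hu, h1]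

theorem Kah.pos_pow {u : Λ n} (h : Kah u) : ∃ t : ℝ, 0 < t ∧ top (u ^ n) = t := by
  obtain ⟨Φ, Ψ, c, hc, hu, h1, h2, h3, h4, h5, h6⟩ := EA3_ex h
  refine ⟨c * ((2 ^ n * n.factorial : ℕ) : ℝ), mul_pos hc (Nat.cast_pos.2 (by positivity)), ?_⟩
  rw [h6, map_pow, hu, EA3_om_pow, map_smul, top_vol]
  push_cast
  simp

theorem EA3_N (n : ℕ) : (∀ i : Fin n, dz i * dz i = 0) ∧ (∀ i : Fin n, dzb i * dzb i = 0) ∧
    (∀ (i : Fin n) y, dz i * (dz i * y) = 0) ∧ (∀ (i : Fin n) y, dzb i * (dzb i * y) = 0) ∧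
    (∀ i j : Fin n, j < i → dz i * dz j = -(dz j * dz i)) ∧
    (∀ i j : Fin n, j < i → ∀ y, dz i * (dz j * y) = -(dz j * (dz i * y))) ∧
    (∀ i j : Fin n, j < i → dzb i * dzb j = -(dzb j * dzb i)) ∧
    (∀ i j : Fin n, j < i → ∀ y, dzb i * (dzb j * y) = -(dzb j * (dzb i * y))) ∧
    (∀ i j : Fin n, dzb i * dz j = -(dz j * dzb i)) ∧
    (∀ (i j : Fin n) y, dzb i * (dz j * y) = -(dz j * (dzb i * y))) ∧
    (∀ a b c : Λ n, a * b * c = a * (b * c)) ∧ (∀ a b c : Λ n, a * (b + c) = a * b + a * c) ∧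
    (∀ a b c : Λ n, (a + b) * c = a * c + b * c) ∧
    (∀ (t : ℂ) (a b : Λ n), t • a * b = t • (a * b)) ∧
    (∀ (t : ℂ) (a b : Λ n), a * t • b = t • (a * b)) ∧
    (∀ a b : Λ n, -a * b = -(a * b)) ∧ (∀ a b : Λ n, a * -b = -(a * b)) ∧
    (∀ a : Λ n, a * 0 = 0) ∧ (∀ a : Λ n, 0 * a = 0) ∧ (∀ a : Λ n, - -a = a) ∧
    (∀ a : Λ n, a + 0 = a) ∧ (∀ a : Λ n, 0 + a = a) ∧ (-(0 : Λ n) = 0) ∧
    (∀ t : ℂ, t • (0 : Λ n) = 0) ∧ (∀ a : Λ n, a * 1 = a) ∧
    (∀ a b : Λ n, cj (a + b) = cj a + cj b) ∧ (∀ a b : Λ n, cj (a * b) = cj a * cj b) ∧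
    (∀ (t : ℂ) (a : Λ n), cj (t • a) = conj t • cj a) ∧ (∀ a : Λ n, cj (-a) = -cj a) ∧
    (∀ j : Fin n, cj (dz j) = dzb j) ∧
    (∀ j : Fin n, cj (dzb j) = dz j) ∧ (∀ a b : Λ n, top (a + b) = top a + top b) ∧
    (∀ a : Λ n, top (-a) = -top a) ∧ (∀ (t : ℂ) (a : Λ n), top (t • a) = t * top a) ∧
    top (0 : Λ n) = 0 ∧ (0 : Fin 2) < 1 ∧ (0 : Fin 3) < 1 ∧ (0 : Fin 3) < 2 ∧ (1 : Fin 3) < 2 :=
  ⟨EA3_zz, EA3_bb, EA3_zz', EA3_bb', EA3_zs, EA3_zs', EA3_bs, EA3_bs', EA3_bz, EA3_bz', mul_assoc,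
    mul_add, add_mul, smul_mul_assoc, fun t a b => mul_smul_comm t a b, neg_mul, mul_neg, mul_zero,
    zero_mul, neg_neg, add_zero, zero_add, neg_zero, smul_zero, mul_one, map_add _, map_mul _,
    cj_smul, map_neg _, cj_dz, cj_dzb, map_add _, map_neg _, map_smul _, map_zero _, by decide,
    by decide, by decide, by decide⟩

theorem EA3_om2 : EA3_om 2 = I • (dz 0 * dzb 0 + dz 1 * dzb 1) := by
  rw [EA3_om, Fin.sum_univ_two]

theorem EA3_om3 : EA3_om 3 = I • (dz 0 * dzb 0 + dz 1 * dzb 1 + dz 2 * dzb 2) := by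
  rw [EA3_om, Fin.sum_univ_three]

theorem EA3_P3 : (List.ofFn (dz : Fin 3 → Λ 3)).prod = dz 0 * (dz 1 * dz 2) := by
  simp [List.ofFn_succ]

theorem EA3_top2 : top (dz 0 * (dz 1 * (dzb 0 * dzb 1)) : Λ 2) = 4 := by
  have h : vol 2 = (I / 2) • (dz 0 * dzb 0) * (I / 2) • (dz 1 * dzb 1) := by
    simp [vol, List.ofFn_succ]
  have h1 := top_vol (n := 2)
  rw [h] at h1
  simp only [EA3_N 2] at h1
  linear_combination 4 * h1 + top (dz 0 * (dz 1 * (dzb 0 * dzb 1)) : Λ 2) * I_mul_I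

theorem EA3_top3 :
    top (dz 0 * (dz 1 * (dz 2 * (dzb 0 * (dzb 1 * dzb 2)))) : Λ 3) = -8 * I := by
  have h : vol 3 =
      (I / 2) • (dz 0 * dzb 0) * ((I / 2) • (dz 1 * dzb 1) * (I / 2) • (dz 2 * dzb 2)) := by
    simp [vol, List.ofFn_succ]
  have h1 := top_vol (n := 3)
  rw [h] at h1
  simp only [EA3_N 3] at h1
  linear_combination (-8 * I) * h1 + (1 - I * I) *
    top (dz 0 * (dz 1 * (dz 2 * (dzb 0 * (dzb 1 * dzb 2)))) : Λ 3) * I_mul_I

theorem EA3_20 {β : Λ 3} (h : β ∈ Tp 3 2 0) :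
    ∃ a b c : ℂ, β = a • (dz 1 * dz 2) + b • (dz 2 * dz 0) + c • (dz 0 * dz 1) := by
  obtain ⟨c, hc, rfl⟩ := EA3_left (p := 1) h
  choose M hM using fun j => mem_Tp10.1 (hc j)
  refine ⟨M 1 2 - M 2 1, M 2 0 - M 0 2, M 0 1 - M 1 0, ?_⟩
  simp only [Fin.sum_univ_three, hM, EA3_N 3]
  module

theorem EA3_pos10 {γ : Λ 2} (hγ : γ ∈ Tp 2 1 0) (h0 : γ ≠ 0) :
    ∃ t : ℝ, 0 < t ∧ I * top (EA3_om 2 * (γ * cj γ)) = t := by
  obtain ⟨c, rfl⟩ := mem_Tp10.1 hγ
  rw [Fin.sum_univ_two] at h0 ⊢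
  refine ⟨4 * (normSq (c 0) + normSq (c 1)), ?_, ?_⟩
  · by_contra hn
    have a0 := normSq_nonneg (c 0)
    have a1 := normSq_nonneg (c 1)
    apply h0
    rw [normSq_eq_zero.1 (by linarith : normSq (c 0) = 0),
      normSq_eq_zero.1 (by linarith : normSq (c 1) = 0)]
    simp
  · push_cast
    simp only [EA3_om2, EA3_N 2, EA3_top2, normSq_eq_conj_mul_self]
    linear_combination (-4 * (conj (c 0) * c 0 + conj (c 1) * c 1)) * I_mul_I

theorem EA3_neg11 {β : Λ 2} (hβ : β ∈ Tp 2 1 1) (h0 : EA3_om 2 * β = 0) :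
    ∃ t : ℝ, t ≤ 0 ∧ top (β * cj β) = t := by
  obtain ⟨c, hc, rfl⟩ := EA3_left (p := 0) hβ
  choose M hM using fun j => mem_Tp01.1 (hc j)
  have h1 := congrArg top h0
  simp only [Fin.sum_univ_two, hM, EA3_om2, EA3_N 2, EA3_top2] at h1 ⊢
  have h2 : M 1 1 = -M 0 0 := by
    linear_combination (I / 4) * h1 + (M 0 0 + M 1 1) * I_mul_I
  refine ⟨-4 * (2 * normSq (M 0 0) + normSq (M 0 1) + normSq (M 1 0)), ?_, ?_⟩
  · have a0 := normSq_nonneg (M 0 0)
    have a1 := normSq_nonneg (M 0 1)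
    have a2 := normSq_nonneg (M 1 0)
    linarith
  · push_cast
    simp only [h2, map_neg, normSq_eq_conj_mul_self]
    ring

theorem EA3_pos20 {β : Λ 3} (hβ : β ∈ Tp 3 2 0) (h0 : β ≠ 0) :
    ∃ t : ℝ, 0 < t ∧ top (EA3_om 3 * (β * cj β)) = t := by
  obtain ⟨a, b, c, rfl⟩ := EA3_20 hβ
  refine ⟨8 * (normSq a + normSq b + normSq c), ?_, ?_⟩
  · by_contra hn
    have a0 := normSq_nonneg a
    have a1 := normSq_nonneg b
    have a2 := normSq_nonneg c
    apply h0
    rw [normSq_eq_zero.1 (by linarith : normSq a = 0), normSq_eq_zero.1 (by linarith : normSq b = 0),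
      normSq_eq_zero.1 (by linarith : normSq c = 0)]
    simp
  · push_cast
    simp only [EA3_om3, EA3_N 3, EA3_top3, normSq_eq_conj_mul_self]
    linear_combination (-8 * (conj a * a + conj b * b + conj c * c)) * I_mul_I

theorem EA3_pos21 {ξ : Λ 3} (hξ : ξ ∈ Tp 3 2 1) (h1 : EA3_om 3 * ξ = 0) (h0 : ξ ≠ 0) :
    ∃ t : ℝ, 0 < t ∧ -I * top (ξ * cj ξ) = t := by
  obtain ⟨d, hd, rfl⟩ := EA3_right (q := 0) hξ
  choose a b c hM using fun j => EA3_20 (hd j)
  have h2 := congrArg (fun x => top (x * dzb 0)) h1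
  have h3 := congrArg (fun x => top (x * dzb 1)) h1
  have h4 := congrArg (fun x => top (x * dzb 2)) h1
  simp only [Fin.sum_univ_three, hM] at h0
  simp only [Fin.sum_univ_three, hM, EA3_om3, EA3_N 3, EA3_top3] at h2 h3 h4 ⊢
  have e0 : c 1 = b 2 := by
    linear_combination (-1 / 8) * h2 + (c 1 - b 2) * I_mul_I
  have e1 : c 0 = a 2 := by
    linear_combination (1 / 8) * h3 + (c 0 - a 2) * I_mul_I
  have e2 : b 0 = a 1 := by
    linear_combination (-1 / 8) * h4 + (b 0 - a 1) * I_mul_I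
  refine ⟨8 * (normSq (a 0) + normSq (b 1) + normSq (c 2) + 2 * normSq (a 1) + 2 * normSq (a 2) +
    2 * normSq (b 2)), ?_, ?_⟩
  · by_contra hn
    have a0 := normSq_nonneg (a 0)
    have a1 := normSq_nonneg (b 1)
    have a2 := normSq_nonneg (c 2)
    have a3 := normSq_nonneg (a 1)
    have a4 := normSq_nonneg (a 2)
    have a5 := normSq_nonneg (b 2)
    apply h0
    rw [e0, e1, e2, normSq_eq_zero.1 (by linarith : normSq (a 0) = 0),
      normSq_eq_zero.1 (by linarith : normSq (b 1) = 0),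
      normSq_eq_zero.1 (by linarith : normSq (c 2) = 0),
      normSq_eq_zero.1 (by linarith : normSq (a 1) = 0),
      normSq_eq_zero.1 (by linarith : normSq (a 2) = 0),
      normSq_eq_zero.1 (by linarith : normSq (b 2) = 0)]
    simp
  · push_cast
    simp only [e0, e1, e2, normSq_eq_conj_mul_self]
    linear_combination (-8 * (conj (a 0) * a 0 + conj (b 1) * b 1 + conj (c 2) * c 2 +
      2 * (conj (a 1) * a 1) + 2 * (conj (a 2) * a 2) + 2 * (conj (b 2) * b 2))) * I_mul_I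

theorem EA3_om_mul (y : Λ n) : EA3_om n * (-I) • y = (∑ j, dz j * dzb j) * y := by
  rw [EA3_om, smul_mul_assoc, mul_smul_comm, smul_smul, mul_neg, I_mul_I, neg_neg, one_smul]

theorem EA3_surj20 : SurjOn (fun a => EA3_om 3 * a) (Tp 3 2 0) (Tp 3 3 1) := by
  intro x hx
  obtain ⟨y, hy, rfl⟩ := prod_dz_bij.surjOn hx
  obtain ⟨c, rfl⟩ := mem_Tp01.1 hy
  have hz : ∀ (t : ℂ) (i j : Fin 3), t • (dz i * dz j) ∈ Tp 3 2 0 := fun t i j =>
    Submodule.smul_mem _ _ (EA3_mul 2 0 (dz_mem i) (dz_mem j) rfl rfl)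
  refine ⟨(-I) • (c 0 • (dz 1 * dz 2) + c 1 • (dz 2 * dz 0) + c 2 • (dz 0 * dz 1)),
    Submodule.smul_mem _ _ (Submodule.add_mem _ (Submodule.add_mem _ (hz _ _ _) (hz _ _ _))
      (hz _ _ _)), ?_⟩
  simp only [EA3_om_mul]
  simp only [EA3_P3, Fin.sum_univ_three, EA3_N 3]

theorem EA3_inj (u : Λ n) (S : Submodule ℂ (Λ n)) (h : ∀ a ∈ S, u * a = 0 → a = 0) :
    InjOn (fun a => u * a) S := fun a ha b hb e =>
  sub_eq_zero.1 (h _ (S.sub_mem ha hb) (by rw [mul_sub]; exact sub_eq_zero.2 e))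

theorem EA3_surj {u : Λ n} {p q p' q' : ℕ} (Φ Ψ : Λ n →ₐ[ℂ] Λ n) (h1 : ∀ a, Ψ (Φ a) = a)
    (h3 : ∀ p q a, a ∈ Tp n p q → Φ a ∈ Tp n p q) (h4 : ∀ p q a, a ∈ Tp n p q → Ψ a ∈ Tp n p q)
    (h : SurjOn (fun a => Φ u * a) (Tp n p q) (Tp n p' q')) :
    SurjOn (fun a => u * a) (Tp n p q) (Tp n p' q') := by
  intro x hx
  obtain ⟨y, hy, e⟩ := h (h3 _ _ x hx)
  refine ⟨Ψ y, h4 _ _ y hy, ?_⟩
  have := congrArg Ψ e
  simpa only [map_mul, h1] using this

theorem Kah.pos10 {u γ : Λ 2} (h : Kah u) (hγ : γ ∈ Tp 2 1 0) (h0 : γ ≠ 0) :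
    ∃ t : ℝ, 0 < t ∧ I * top (u * (γ * K0.cj γ)) = t := by
  obtain ⟨Φ, Ψ, c, hc, hu, h1, h2, h3, h4, h5, h6⟩ := EA3_ex h
  obtain ⟨t, ht, e⟩ := EA3_pos10 (h3 _ _ _ hγ) fun e => h0 (by rw [← h1 γ, e, map_zero])
  refine ⟨c * t, mul_pos hc ht, ?_⟩
  rw [h6, map_mul Φ, map_mul Φ, h5, hu, ofReal_mul, ← e]
  ring

theorem Kah.neg11 {u β : Λ 2} (h : Kah u) (hβ : β ∈ Tp 2 1 1) (h0 : u * β = 0) :
    ∃ t : ℝ, t ≤ 0 ∧ top (β * K0.cj β) = t := by
  obtain ⟨Φ, Ψ, c, hc, hu, h1, h2, h3, h4, h5, h6⟩ := EA3_ex h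
  obtain ⟨t, ht, e⟩ := EA3_neg11 (h3 _ _ _ hβ) (by rw [← hu, ← map_mul, h0, map_zero])
  refine ⟨c * t, mul_nonpos_of_nonneg_of_nonpos hc.le ht, ?_⟩
  rw [h6, map_mul, h5, ofReal_mul, ← e]

theorem Kah.pos20 {u β : Λ 3} (h : Kah u) (hβ : β ∈ Tp 3 2 0) (h0 : β ≠ 0) :
    ∃ t : ℝ, 0 < t ∧ top (u * (β * K0.cj β)) = t := by
  obtain ⟨Φ, Ψ, c, hc, hu, h1, h2, h3, h4, h5, h6⟩ := EA3_ex h
  obtain ⟨t, ht, e⟩ := EA3_pos20 (h3 _ _ _ hβ) fun e => h0 (by rw [← h1 β, e, map_zero])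
  refine ⟨c * t, mul_pos hc ht, ?_⟩
  rw [h6, map_mul Φ, map_mul Φ, h5, hu, ofReal_mul, ← e]

theorem Kah.bij20 {u : Λ 3} (h : Kah u) : BijOn (fun a => u * a) (Tp 3 2 0) (Tp 3 3 1) := by
  refine ⟨fun a ha => EA3_mul 3 1 h.mem ha rfl rfl, EA3_inj u _ fun a ha e => ?_, ?_⟩
  · by_contra h0
    obtain ⟨t, ht, e'⟩ := h.pos20 ha h0
    rw [← mul_assoc, e, zero_mul, map_zero] at e'
    exact ht.ne' (ofReal_eq_zero.1 e'.symm)
  · obtain ⟨Φ, Ψ, c, hc, hu, h1, h2, h3, h4, h5, h6⟩ := EA3_ex h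
    refine EA3_surj Φ Ψ h1 h3 h4 ?_
    rw [hu]
    exact EA3_surj20

/-- The Hodge-Riemann relation for primitive `(2,1)`-forms. -/
theorem Kah.pos21 {u ξ : Λ 3} (h : Kah u) (hξ : ξ ∈ Tp 3 2 1) (h1 : u * ξ = 0) (h0 : ξ ≠ 0) :
    ∃ t : ℝ, 0 < t ∧ -I * top (ξ * K0.cj ξ) = t := by
  obtain ⟨Φ, Ψ, c, hc, hu, h1', h2, h3, h4, h5, h6⟩ := EA3_ex h
  obtain ⟨t, ht, e⟩ := EA3_pos21 (h3 _ _ _ hξ) (by rw [← hu, ← map_mul, h1, map_zero])
    fun e => h0 (by rw [← h1' ξ, e, map_zero])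
  refine ⟨c * t, mul_pos hc ht, ?_⟩
  rw [h6, map_mul, h5, ofReal_mul, ← e]
  ring

/-- The product of three `(1,0)`-forms against the conjugate of another such product. -/
theorem cs30 {a b : Λ 3} (ha : a ∈ Tp 3 3 0) (hb : b ∈ Tp 3 3 0) :
    ‖top (a * cj b)‖ ^ 2 = ‖top (a * cj a)‖ * ‖top (b * cj b)‖ := by
  obtain ⟨c, rfl⟩ := mem_Tp_n0.1 ha
  obtain ⟨d, rfl⟩ := mem_Tp_n0.1 hb
  simp only [cj_smul, smul_mul_assoc, mul_smul_comm, map_smul, smul_eq_mul, norm_mul,
    RCLike.norm_conj]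
  ring

end

end Pool.Agent.MP_1c689d_ag.K0

end

section

/-! Curvature and projective maps. -/

set_option autoImplicit false

open Complex Filter Topology Set MeasureTheory
open scoped ComplexConjugate ContDiff ENNReal

namespace Pool.Agent.MP_1c689d_ag.K0

noncomputable section

variable {n m k : ℕ} {X Y Z : Type} [TopologicalSpace X] [TopologicalSpace Y]
  [TopologicalSpace Z] [Mf n X] [Mf m Y] [Mf k Z]

variable {G G' : Ga X} {p : X} {s : X → ℂ} {N : ℕ} {x x' : X → Fin N → ℂ}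

theorem MF4a_congr {α β : Fm n X} (e : α =ᶠ[𝓝 p] β) :
    dbar 1 (dp 1 α) p = dbar 1 (dp 1 β) p :=
  dbar_congr (e.eventually_nhds.mono fun _ h => dp_congr h)

theorem MF4a_add {α β : Fm n X} (h : SmAt 1 α p) (h' : SmAt 1 β p) :
    dbar 1 (dp 1 (α + β)) p = dbar 1 (dp 1 α) p + dbar 1 (dp 1 β) p := by
  rw [← dbar_add (h.dp gok_one) (h'.dp gok_one)]
  refine dbar_congr ?_
  filter_upwards [h.eventually gok_one, h'.eventually gok_one] with y h1 h2
  exact dp_add gok_one h1 h2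

theorem MF4a_sm (h : SmAt 1 (fn n fun y => (normSq (s y) : ℂ)) p) (h0 : s p ≠ 0) :
    SmAt 1 (fn n fun y => (Real.log (normSq (s y)) : ℂ)) p := by
  refine h.comp_fn (u := fun w => (Real.log w.re : ℂ)) ?_
  have h1 : ∀ᶠ w : ℂ in 𝓝 (normSq (s p) : ℂ), w.re ≠ 0 :=
    continuous_re.continuousAt.eventually_ne (normSq_pos.2 h0).ne'
  filter_upwards [h1] with w hw
  exact ofRealCLM.contDiff.contDiffAt.comp w (reCLM.contDiff.contDiffAt.log hw)

omit [Mf n X] in
theorem MF4a_log {u v : X → ℂ} (hu : ∀ᶠ y in 𝓝 p, u y ≠ 0) (hv : ∀ᶠ y in 𝓝 p, v y ≠ 0)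
    (e : ∀ᶠ y in 𝓝 p, s y = u y * v y) :
    (fn n fun y => (Real.log (normSq (s y)) : ℂ)) =ᶠ[𝓝 p]
      (fn n fun y => (Real.log (normSq (u y)) : ℂ)) +
        fn n fun y => (Real.log (normSq (v y)) : ℂ) := by
  filter_upwards [hu, hv, e] with y h1 h2 h3
  simp only [fn, Pi.add_apply]
  rw [h3, map_mul, Real.log_mul (normSq_pos.2 h1).ne' (normSq_pos.2 h2).ne', ofReal_add, map_add]

theorem MF4a_prj (c : X → ℂ) : prj 1 0 (dd (fn n c) p) = dp 1 (fn n c) p := by
  rw [dd_eq, Pi.add_apply, map_add, prj_of_mem ((fn_Ty c).dp p),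
    prj_of_ne ((fn_Ty c).dbar p) (by decide), add_zero]

theorem MF4a_exp (h : SmAt 1 (fn n s) p) :
    dp 1 (fn n (exp ∘ s)) p = exp (s p) • dp 1 (fn n s) p := by
  have h1 : HasFDerivAt exp (exp (s p) • (1 : ℂ →L[ℝ] ℂ)) (s p) :=
    (hasDerivAt_exp (s p)).complexToReal_fderiv
  have h2 := dd_comp_fn h h1.differentiableAt
  rw [h1.fderiv] at h2
  simp only [smul_apply, one_apply_eq_self, smul_eq_mul] at h2
  rw [show (exp (s p) * 1 - I * (exp (s p) * I)) / 2 = exp (s p) by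
      linear_combination (-exp (s p) / 2) * I_mul_I,
    show (exp (s p) * 1 + I * (exp (s p) * I)) / 2 = 0 by
      linear_combination (exp (s p) / 2) * I_mul_I, zero_smul, add_zero] at h2
  rw [← MF4a_prj, h2, map_smul, MF4a_prj]

theorem MF4a_dp_log (h : SmAt 1 (fn n fun y => (normSq (s y) : ℂ)) p) (h0 : s p ≠ 0) :
    dp 1 (fn n fun y => (normSq (s y) : ℂ)) p =
      (normSq (s p) : ℂ) • dp 1 (fn n fun y => (Real.log (normSq (s y)) : ℂ)) p := by
  have h1 := MF4a_exp (MF4a_sm h h0)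
  rw [← ofReal_exp, Real.exp_log (normSq_pos.2 h0)] at h1
  rw [← h1]
  refine dp_congr ?_
  filter_upwards [h.fn_ne gok_one (ofReal_ne_zero.2 (normSq_pos.2 h0).ne')] with y hy
  have h2 : 0 < normSq (s y) := (normSq_nonneg _).lt_of_ne' (ofReal_ne_zero.1 hy)
  simp only [fn, Function.comp_apply]
  rw [← ofReal_exp, Real.exp_log h2]

theorem MF4a_one : (cur (1 : Ga X) : Fm n X) = 0 := by
  funext p
  have h : (fn n fun y => (Real.log (normSq ((1 : Ga X) p y)) : ℂ)) = 0 := by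
    funext y
    simp [fn]
  rw [cur, h, dp_zero, dbar_zero]

theorem MF4a_anti {α : Fm n X} (h : SmAt 1 α p) :
    dbar 1 (dp 1 α) p = -dp 1 (dbar 1 α) p := by
  have h1 := dbar_dp gok_one h
  rw [MF4a_one, Pi.zero_apply, zero_mul] at h1
  exact eq_neg_of_add_eq_zero_left h1

theorem MF4a_dp_sec (hG : GOk G p) (h : HolAt G s p) (h0 : s p ≠ 0) :
    dp G (fn n s) p = s p • dp 1 (fn n fun y => (Real.log (normSq (s y)) : ℂ)) p := by
  have hg := hG.self_ne
  have h1 : HolAt 1 (fun y => (G p y)⁻¹ * s y) p := holAt_iff_one.1 h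
  have h2 : SmAt 1 (fun y => conj (G p y) • fn n s y) p := by
    refine (hG.sm.mul_left h1.smAt).congr ?_
    filter_upwards [hG.ne] with y hy
    simp only [fn, Pi.mul_apply, Algebra.smul_def, ← map_mul, normSq_eq_conj_mul_self]
    congr 1
    field_simp
  have h3 : dp 1 (cf (fn n fun y => (G p y)⁻¹ * s y)) p = 0 := by
    have := congrFun (dp_cf (G := 1) (α := fn n fun y => (G p y)⁻¹ * s y)) p
    rw [inv_one] at this
    rw [this, cf, h1.dbar, map_zero]
  have h4 := dp_mul gok_one gok_one h2 h1.smAt.cf_one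
  rw [mul_one, h3, mul_zero, add_zero, cf_fn, dp_congr (β := fn n fun y => (normSq (s y) : ℂ)) (by
    filter_upwards [hG.ne] with y hy
    have hy' : conj (G p y) ≠ 0 := (map_ne_zero _).2 hy
    simp only [fn, Pi.mul_apply, Algebra.smul_def, ← map_mul (algebraMap ℂ (Λ n)),
      normSq_eq_conj_mul_self]
    congr 1
    rw [map_mul, map_inv₀]
    field_simp), MF4a_dp_log (h.smAt.normSq hG) h0, fn, ← Algebra.commutes,
    ← Algebra.smul_def] at h4
  have h5 : conj (s p) ≠ 0 := (map_ne_zero _).2 h0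
  have h6 : conj (G p p) ≠ 0 := (map_ne_zero _).2 hg
  rw [dp_eq_one]
  refine smul_right_injective _ h5 ?_
  beta_reduce
  rw [smul_smul, smul_smul, ← normSq_eq_conj_mul_self, h4, map_mul, map_inv₀, mul_comm]

theorem MF4a_dbar_dp (hG : GOk G p) (h : HolAt G s p) :
    dbar G (dp G (fn n s)) p = s p • cur G p := by
  have h1 := dbar_dp hG h.smAt
  rw [dp_congr (β := 0) ((h.eventually hG).mono fun y hy => hy.dbar), dp_zero, Pi.zero_apply,
    add_zero] at h1
  rw [h1, fn, ← Algebra.commutes, ← Algebra.smul_def]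

theorem MF4a_hol (h : HolAt 1 s p) (h0 : s p ≠ 0) :
    dbar 1 (dp 1 (fn n fun y => (Real.log (normSq (s y)) : ℂ))) p = 0 := by
  have h1 : HolAt 1 (fun y => (s y)⁻¹) p := by
    have := h.inv gok_one h0
    rwa [inv_one] at this
  have h2 := dbar_mul gok_one gok_one h1.smAt (h.smAt.dp gok_one)
  rw [mul_one, h1.dbar, MF4a_dbar_dp gok_one h, MF4a_one, Pi.zero_apply, smul_zero, mul_zero,
    zero_mul, add_zero] at h2
  rw [← h2]
  refine dbar_congr ?_
  filter_upwards [h.eventually gok_one, h.smAt.fn_ne gok_one h0] with y k1 k2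
  rw [fn_mul, Pi.smul_apply', MF4a_dp_sec gok_one k1 k2, inv_smul_smul₀ k2]

theorem MF4a_cur_sec (hG : GOk G p) (h : HolAt G s p) (h0 : s p ≠ 0) :
    cur G p = dbar 1 (dp 1 (fn n fun y => (Real.log (normSq (s y)) : ℂ))) p := by
  have h1 : HolAt 1 (fun y => (G p y)⁻¹ * s y) p := holAt_iff_one.1 h
  have h2 : (G p p)⁻¹ * s p ≠ 0 := mul_ne_zero (inv_ne_zero hG.self_ne) h0
  rw [MF4a_congr (MF4a_log hG.ne (h1.smAt.fn_ne gok_one h2)
      (hG.ne.mono fun y hy => (mul_inv_cancel_left₀ hy _).symm)),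
    MF4a_add (MF4a_sm hG.sm hG.self_ne) (MF4a_sm (h1.smAt.normSq gok_one) h2), MF4a_hol h1 h2,
    add_zero, cur]

theorem cur_Ty : Ty 1 1 (cur G : Fm n X) := by
  exact fun y => (fn_Ty _).dp.dbar y

theorem cur_frame (hG : GOk G p) : ∀ᶠ y in 𝓝 p, cur G y =
    dbar 1 (dp 1 (fn n fun y' => (Real.log (normSq (G p y')) : ℂ))) y := by
  filter_upwards [hG.eventually, hG.frame, hG.ne] with y h1 h2 h3
  exact MF4a_cur_sec h1 h2 h3

theorem cur_sm (hG : GOk G p) : SmAt 1 (cur G : Fm n X) p := by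
  exact (((MF4a_sm hG.sm hG.self_ne).dp gok_one).dbar gok_one).congr
    ((cur_frame hG).mono fun y h => h.symm)

theorem dd_cur (hG : GOk G p) : dd (cur G : Fm n X) p = 0 := by
  have h := MF4a_sm hG.sm hG.self_ne
  rw [dd_congr (cur_frame hG), dd_eq, Pi.add_apply, dbar_dbar gok_one (h.dp gok_one), add_zero,
    dp_congr (β := -dp 1 (dbar 1 (fn n fun y => (Real.log (normSq (G p y)) : ℂ))))
      ((h.eventually gok_one).mono fun y hy => MF4a_anti hy), dp_neg, Pi.neg_apply,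
    dp_dp gok_one (h.dbar gok_one), neg_zero]

theorem cj_cur (hG : GOk G p) : cj (cur G p : Λ n) = -cur G p := by
  have h1 : ∀ α : Fm n X, dp 1 (cf α) = cf (dbar 1 α) := fun α => by
    have := dp_cf (G := 1) (α := α)
    rwa [inv_one] at this
  have h2 : ∀ α : Fm n X, dbar 1 (cf α) = cf (dp 1 α) := fun α => by
    have := dbar_cf (G := 1) (α := α)
    rwa [inv_one] at this
  have h3 := congrFun (h1 (dp 1 (fn n fun y => (Real.log (normSq (G p y)) : ℂ)))) p
  rw [← h2, cf_fn] at h3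
  simp only [conj_ofReal] at h3
  rw [cf] at h3
  rw [cur, ← h3, MF4a_anti (MF4a_sm hG.sm hG.self_ne), neg_neg]

theorem cur_one : (cur (1 : Ga X) : Fm n X) = 0 := by
  exact MF4a_one

theorem cur_mul (hG : GOk G p) (hG' : GOk G' p) :
    (cur (G * G') p : Λ n) = cur G p + cur G' p := by
  rw [cur, MF4a_congr (MF4a_log (s := (G * G') p) hG.ne hG'.ne
      (Eventually.of_forall fun y => rfl)),
    MF4a_add (MF4a_sm hG.sm hG.self_ne) (MF4a_sm hG'.sm hG'.self_ne), cur, cur]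

theorem cur_zpow (hG : GOk G p) (i : ℤ) : (cur (G ^ i) p : Λ n) = (i : ℂ) • cur G p := by
  have h : (fn n fun y => (Real.log (normSq ((G ^ i) p y)) : ℂ)) =
      (i : ℂ) • fn n fun y => (Real.log (normSq (G p y)) : ℂ) := by
    funext y
    simp only [fn, Pi.smul_apply, Pi.pow_apply, map_zpow₀, Real.log_zpow, ofReal_mul,
      ofReal_intCast, map_mul, Algebra.smul_def]
  rw [cur, h, dp_smul, dbar_smul, Pi.smul_apply, cur]

theorem cur_pb {f : Y → X} {y : Y} (hf : HMap f y) (hG : GOk G (f y)) :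
    pb f (cur G) y = cur (gpb f G) y := by
  have h := MF4a_sm hG.sm hG.self_ne
  have h1 := pb_dbar hf (h.dp gok_one)
  have e : ((fun z => (Real.log (normSq (G (f y) z)) : ℂ)) ∘ f) =
      fun z => (Real.log (normSq (gpb f G y z)) : ℂ) := rfl
  rw [gpb_one] at h1
  rw [cur, ← e, ← pb_fn, pb_congr (g := f) (β := dbar 1 (dp 1
    (fn n fun z => (Real.log (normSq (G (f y) z)) : ℂ)))) EventuallyEq.rfl (by rw [cur]), h1]
  refine dbar_congr ?_
  filter_upwards [hf.eventually, hf.continuousAt.eventually (h.eventually gok_one)] with z h2 h3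
  rw [pb_dp h2 gok_one h3, gpb_one]

theorem cur_of_sec (hG : GOk G p) (h : HolAt G s p) (h0 : s p ≠ 0) :
    cur G p = dbar 1 (dp 1 (fn n fun y => (Real.log (normSq (s y)) : ℂ))) p := by
  exact MF4a_cur_sec hG h h0

theorem dp_of_sec (hG : GOk G p) (h : HolAt G s p) (h0 : s p ≠ 0) :
    dp G (fn n s) p = s p • dp 1 (fn n fun y => (Real.log (normSq (s y)) : ℂ)) p := by
  exact MF4a_dp_sec hG h h0

theorem dbar_dp_sec (hG : GOk G p) (h : HolAt G s p) :
    dbar G (dp G (fn n s)) p = s p • cur G p := by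
  exact MF4a_dbar_dp hG h

end

end Pool.Agent.MP_1c689d_ag.K0

end

section

/-! Curvature and projective maps. -/

set_option autoImplicit false

open Complex Filter Topology Set MeasureTheory
open scoped ComplexConjugate ContDiff ENNReal

namespace Pool.Agent.MP_1c689d_ag.K0

noncomputable section

variable {n m k : ℕ} {X Y Z : Type} [TopologicalSpace X] [TopologicalSpace Y]
  [TopologicalSpace Z] [Mf n X] [Mf m Y] [Mf k Z]

variable {G G' : Ga X} {p : X} {s : X → ℂ} {N : ℕ} {x x' : X → Fin N → ℂ}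

theorem MF4b_ex (h : PMAt x p) : ∃ l, x p l ≠ 0 := by
  by_contra h0
  have h1 := h.unit.self_of_nhds
  have h2 : ∀ l, x p l = 0 := fun l => by_contra fun hl => h0 ⟨l, hl⟩
  simp [h2] at h1

theorem MF4b_gx (h : ∃ l, x p l ≠ 0) (y : X) : gx x p y = x y h.choose := dif_pos h

theorem MF4b_dp_const (c : ℂ) : dp 1 (fn n fun _ : X => c) p = 0 :=
  ((dd_eq_zero_iff (Eventually.of_forall (fn_Ty (n := n) fun _ : X => c))).1
    (congrFun (dd_const c) p)).1

theorem MF4b_unit (h : PMAt x p) : ∀ᶠ y in 𝓝 p, ∑ l, x y l * conj (x y l) = 1 := by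
  filter_upwards [h.unit] with y hy
  simp only [mul_conj]
  exact_mod_cast hy

theorem PMAt.eventually (h : PMAt x p) : ∀ᶠ y in 𝓝 p, PMAt x y := by
  obtain ⟨l0, hl0⟩ := MF4b_ex h
  have h1 : ∀ᶠ y in 𝓝 p, ∀ a, HolAt 1 (fun y => x y a / x y l0) y :=
    eventually_all.2 fun a => (h.hol l0 a hl0).eventually gok_one
  filter_upwards [h1, h.unit.eventually_nhds, (h.ne l0 hl0).eventually_nhds] with y h1 h2 h3
  have h4 : ∀ l, x y l ≠ 0 → x y l / x y l0 ≠ 0 := fun l hl => div_ne_zero hl h3.self_of_nhds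
  refine ⟨h2, fun l hl => ?_, fun l a hl => ?_⟩
  · filter_upwards [(h1 l).smAt.fn_ne gok_one (h4 l hl)] with z hz
    exact (div_ne_zero_iff.1 hz).1
  · refine ((h1 a).div (h1 l) gok_one (h4 l hl)).congr ?_
    filter_upwards [h3] with z hz
    exact div_div_div_cancel_right₀ hz _ _

theorem PMAt.ne_zero (h : PMAt x p) : x p ≠ 0 := by
  obtain ⟨l, hl⟩ := MF4b_ex h
  exact fun h0 => hl (congrFun h0 l)

theorem PMAt.gok (h : PMAt x p) : GOk (gx x) p := by
  have hp := MF4b_ex h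
  have hl0 := hp.choose_spec
  have hne := h.ne _ hl0
  refine ⟨?_, ?_, ?_, ?_⟩
  · simpa only [MF4b_gx hp] using hne
  · filter_upwards [h.eventually] with y hy
    rw [MF4b_gx (MF4b_ex hy)]
    exact (MF4b_ex hy).choose_spec
  · have h1 : SmAt 1 (∑ a ∈ Finset.univ,
        fn n fun y => (normSq (x y a / x y hp.choose) : ℂ)) p :=
      SmAt.sum fun a _ => (h.hol _ a hl0).smAt.normSq gok_one
    have h2 : ∀ᶠ y in 𝓝 p, ∑ a, (normSq (x y a / x y hp.choose) : ℂ) =
        ((normSq (x y hp.choose) : ℂ))⁻¹ := by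
      filter_upwards [h.unit] with y hy
      simp only [map_div₀, div_eq_mul_inv, map_mul, map_inv₀, ofReal_mul, ofReal_inv]
      rw [← Finset.sum_mul, ← ofReal_sum, hy, ofReal_one, one_mul]
    have h3 : SmAt 1 (fn n fun y => ((normSq (x y hp.choose) : ℂ))⁻¹) p := by
      refine h1.congr ?_
      filter_upwards [h2] with y hy
      rw [Finset.sum_apply]
      simp only [fn]
      rw [← map_sum, hy]
    have h4 := h3.fn_inv gok_one
      (inv_ne_zero (ofReal_ne_zero.2 (normSq_eq_zero.not.2 hl0)))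
    simpa only [inv_one, inv_inv, MF4b_gx hp] using h4
  · filter_upwards [h.eventually, hne] with y hy hy'
    simpa only [MF4b_gx hp, MF4b_gx (MF4b_ex hy)] using hy.hol _ (MF4b_ex hy).choose hy'

theorem PMAt.holAt (h : PMAt x p) (l : Fin N) : HolAt (gx x) (fun y => x y l) p := by
  have hp := MF4b_ex h
  rw [holAt_iff_one]
  simpa only [MF4b_gx hp, div_eq_inv_mul] using h.hol _ l hp.choose_spec

theorem PMAt.comp {f : Y → X} {y : Y} (hf : HMap f y) (h : PMAt x (f y)) : PMAt (x ∘ f) y := by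
  refine ⟨hf.continuousAt.eventually h.unit, fun l hl => hf.continuousAt.eventually (h.ne l hl),
    fun l a hl => ?_⟩
  have h1 := (h.hol l a hl).comp hf
  rw [gpb_one] at h1
  exact h1

theorem gx_comp (f : Y → X) : gx (x ∘ f) = gpb f (gx x) := by
  rfl

theorem Dx_Ty (l : Fin N) : Ty 1 0 (Dx x l : Fm n X) := by
  exact (fn_Ty _).dp

theorem PMAt.Dx_sm (h : PMAt x p) (l : Fin N) : SmAt (gx x) (Dx x l : Fm n X) p := by
  exact (h.holAt l).smAt.dp h.gok

theorem PMAt.dbar_Dx (h : PMAt x p) (l : Fin N) :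
    dbar (gx x) (Dx x l : Fm n X) p = x p l • Th x p := by
  exact dbar_dp_sec h.gok (h.holAt l)

theorem PMAt.dp_Dx (h : PMAt x p) (l : Fin N) : dp (gx x) (Dx x l : Fm n X) p = 0 := by
  exact dp_dp h.gok (h.holAt l).smAt

theorem PMAt.sum_conj_Dx (h : PMAt x p) : ∑ l, conj (x p l) • (Dx x l p : Λ n) = 0 := by
  have hs : ∀ l, SmAt (gx x) (fn n fun y => x y l) p := fun l => (h.holAt l).smAt
  have h1 : (∑ l ∈ Finset.univ, (fn n fun y => x y l) * cf (fn n fun y => x y l)) =ᶠ[𝓝 p]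
      fn n fun _ : X => 1 := by
    filter_upwards [MF4b_unit h] with y hy
    rw [Finset.sum_apply]
    simp only [Pi.mul_apply, cf, fn, cj_algebraMap, ← map_mul]
    rw [← map_sum, hy]
  have h2 := dp_congr (G := 1) h1
  rw [MF4b_dp_const, dp_sum gok_one fun l _ => (hs l).mul_cf (hs l) h.gok] at h2
  rw [← h2]
  refine Finset.sum_congr rfl fun l _ => ?_
  rw [dp_mul' h.gok.mul_inv h.gok h.gok.inv (hs l) ((hs l).cf h.gok), dp_cf]
  simp only [cf, (h.holAt l).dbar, map_zero, mul_zero, add_zero, fn, cj_algebraMap]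
  rw [← Algebra.commutes, ← Algebra.smul_def]
  rfl

theorem PMAt.Th_eq (h : PMAt x p) : (Th x p : Λ n) = ∑ l, Dx x l p * cj (Dx x l p) := by
  have hs : ∀ l, SmAt (gx x) (fn n fun y => x y l) p := fun l => (h.holAt l).smAt
  have h1 : (∑ l ∈ Finset.univ, (Dx x l : Fm n X) * cf (fn n fun y => x y l)) =ᶠ[𝓝 p] 0 := by
    filter_upwards [h.eventually] with y hy
    rw [Finset.sum_apply, Pi.zero_apply, ← hy.sum_conj_Dx]
    refine Finset.sum_congr rfl fun l _ => ?_
    simp only [Pi.mul_apply, cf, fn, cj_algebraMap]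
    rw [← Algebra.commutes, ← Algebra.smul_def]
  have h2 := dbar_congr (G := 1) h1
  rw [dbar_zero, dbar_sum fun l _ => (h.Dx_sm l).mul_cf (hs l) h.gok] at h2
  have h3 : ∀ l, dbar 1 ((Dx x l : Fm n X) * cf (fn n fun y => x y l)) p =
      (x p l * conj (x p l)) • Th x p - Dx x l p * cj (Dx x l p) := by
    intro l
    rw [dbar_mul' h.gok.mul_inv h.gok h.gok.inv (h.Dx_sm l) ((hs l).cf h.gok), dbar_cf,
      h.dbar_Dx, gi_of_Tp (Dx_Ty l p)]
    simp only [cf, fn, cj_algebraMap]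
    rw [← Algebra.commutes, ← Algebra.smul_def, smul_smul, mul_comm (conj (x p l))]
    simp only [add_zero, pow_one, neg_smul, one_smul, neg_mul, sub_eq_add_neg]
    rfl
  simp only [h3, Finset.sum_sub_distrib, ← Finset.sum_smul, (MF4b_unit h).self_of_nhds, one_smul,
    Pi.zero_apply] at h2
  exact sub_eq_zero.1 h2

theorem PMAt.kah (h : PMAt x p) (hi : Imm x p) : Kah (Om x p : Λ n) := by
  have h1 := kah_of_span (fun l => (Dx x l p : Λ n)) (fun l => Dx_Ty l p) hi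
  rw [← h.Th_eq] at h1
  exact h1

theorem Th_Ty : Ty 1 1 (Th x : Fm n X) := by
  exact cur_Ty

theorem Om_Ty : Ty 1 1 (Om x : Fm n X) := by
  exact fun y => Submodule.smul_mem _ _ (Th_Ty y)

theorem PMAt.Th_sm (h : PMAt x p) : SmAt 1 (Th x : Fm n X) p := by
  exact cur_sm h.gok

theorem PMAt.Om_sm (h : PMAt x p) : SmAt 1 (Om x : Fm n X) p := by
  exact h.Th_sm.smul I

theorem PMAt.dd_Th (h : PMAt x p) : dd (Th x : Fm n X) p = 0 := by
  exact dd_cur h.gok

theorem PMAt.dd_Om (h : PMAt x p) : dd (Om x : Fm n X) p = 0 := by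
  have h1 := congrFun (dd_smul (α := (Th x : Fm n X)) I) p
  rw [Pi.smul_apply, h.dd_Th, smul_zero] at h1
  exact h1

theorem PMAt.cj_Om (h : PMAt x p) : cj (Om x p : Λ n) = Om x p := by
  have h1 : cj (Th x p : Λ n) = -Th x p := cj_cur h.gok
  rw [Om, cj_smul, h1, conj_I, neg_smul_neg]

theorem PMAt.pb_Dx {f : Y → X} {y : Y} (hf : HMap f y) (h : PMAt x (f y)) (l : Fin N) :
    pb f (Dx x l) y = Dx (x ∘ f) l y := by
  rw [Dx, pb_dp hf h.gok (h.holAt l).smAt, pb_fn]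
  rfl

theorem PMAt.pb_Th {f : Y → X} {y : Y} (hf : HMap f y) (h : PMAt x (f y)) :
    pb f (Th x) y = Th (x ∘ f) y := by
  exact cur_pb hf h.gok

end

end Pool.Agent.MP_1c689d_ag.K0

end

section

/-! Curvature and projective maps. -/

set_option autoImplicit false

open Complex Filter Topology Set MeasureTheory
open scoped ComplexConjugate ContDiff ENNReal

namespace Pool.Agent.MP_1c689d_ag.K0

noncomputable section

variable {n m k : ℕ} {X Y Z : Type} [TopologicalSpace X] [TopologicalSpace Y]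
  [TopologicalSpace Z] [Mf n X] [Mf m Y] [Mf k Z]

variable {G G' : Ga X} {p : X} {s : X → ℂ} {N : ℕ} {x x' : X → Fin N → ℂ}

theorem MF4c_log (h : PMAt x p) {l : Fin N} (h0 : x p l ≠ 0) :
    Th x p = dbar 1 (dp 1 (fn n fun y => (Real.log (normSq (x y l)) : ℂ))) p :=
  cur_of_sec h.gok (h.holAt l) h0

theorem MF4c_ddc_congr {α β : Fm n X} (e : α =ᶠ[𝓝 p] β) :
    dbar 1 (dp 1 α) p = dbar 1 (dp 1 β) p := by
  refine dbar_congr ?_
  filter_upwards [e.eventuallyEq_nhds] with y hy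
  exact dp_congr hy

theorem MF4c_norm_one {v w : Fin N → ℂ} {t : ℂ} (hv : ∑ l, normSq (v l) = 1)
    (hw : ∑ l, normSq (w l) = 1) (e : w = t • v) : normSq t = 1 := by
  subst e
  simp only [Pi.smul_apply, smul_eq_mul, map_mul, ← Finset.mul_sum, hv, mul_one] at hw
  exact hw

/-- The curvature only depends on the map to projective space. -/
theorem PMAt.Th_congr (h : PMAt x p) (h' : PMAt x' p)
    (e : ∀ᶠ y in 𝓝 p, ∃ t : ℂ, x' y = t • x y) : (Th x' p : Λ n) = Th x p := by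
  obtain ⟨l, hl⟩ := Function.ne_iff.1 h'.ne_zero
  have hl' : x' p l ≠ 0 := hl
  have hl2 : x p l ≠ 0 := by
    obtain ⟨t, ht⟩ := e.self_of_nhds
    intro h0
    apply hl'
    rw [ht, Pi.smul_apply, h0, smul_zero]
  rw [MF4c_log h hl2, MF4c_log h' hl']
  refine MF4c_ddc_congr ?_
  filter_upwards [e, h.unit, h'.unit] with y hy h1 h2
  obtain ⟨t, ht⟩ := hy
  have h3 := MF4c_norm_one h1 h2 ht
  simp only [fn]
  rw [ht, Pi.smul_apply, smul_eq_mul, map_mul, h3, one_mul]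

theorem PMAt.Th_log (h : PMAt x p) {l : Fin N} (h0 : x p l ≠ 0) :
    Th x p = dbar 1 (dp 1 (fn n fun y => (Real.log (normSq (x y l)) : ℂ))) p :=
  MF4c_log h h0

theorem MF4c_ratio (h : PMAt x p) {i : Fin N} (h0 : x p i ≠ 0) (l : Fin N) :
    dd (fn n fun y => x y l / x y i) p =
      (x p i)⁻¹ • Dx x l p - (x p l / x p i ^ 2) • Dx x i p := by
  rw [dd_of_hol (h.hol i l h0)]
  have e1 : (fn n fun y => x y l / x y i) =
      (fn n fun y => x y l) * (fn n fun y => (x y i)⁻¹) := by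
    funext y
    simp only [fn, Pi.mul_apply, ← map_mul, div_eq_mul_inv]
  have hi : SmAt (gx x) (fn n fun y => x y i) p := (h.holAt i).smAt
  rw [e1, dp_mul' h.gok.mul_inv h.gok h.gok.inv (h.holAt l).smAt (hi.fn_inv h.gok h0),
    dp_fn_inv h.gok hi h0]
  simp only [fn, AlgHom.commutes, Dx]
  rw [← Algebra.commutes, ← Algebra.smul_def, ← Algebra.smul_def, smul_smul, sub_eq_add_neg,
    ← neg_smul]
  congr 2
  rw [div_eq_mul_inv, mul_neg]

/-- The covariant derivatives in the affine coordinates `x j / x i`. -/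
theorem PMAt.Dx_affine (h : PMAt x p) {i : Fin N} (h0 : x p i ≠ 0) (l : Fin N) :
    (Dx x l p : Λ n) = ∑ j, (x p i * ((if l = j then 1 else 0) - x p l * conj (x p j))) •
      dd (fn n fun y => x y j / x y i) p := by
  have hu : ∑ j, x p j * conj (x p j) = 1 := by
    have := h.unit.self_of_nhds
    simp only [mul_conj]
    exact_mod_cast this
  have hs := h.sum_conj_Dx (n := n)
  have e : ∀ j, (x p i * ((if l = j then 1 else 0) - x p l * conj (x p j))) •
      dd (fn n fun y => x y j / x y i) p =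
      ((if l = j then 1 else 0 : ℂ) • (Dx x j p : Λ n) - x p l • (conj (x p j) • Dx x j p)) -
        ((if l = j then x p j / x p i else 0) - x p l / x p i * (x p j * conj (x p j))) •
          Dx x i p := by
    intro j
    rw [MF4c_ratio h h0 j, smul_sub, smul_smul, smul_smul, smul_smul, ← sub_smul]
    congr 2
    · field_simp
    · split_ifs <;> field_simp
      all_goals ring
  simp only [e]
  rw [Finset.sum_sub_distrib, Finset.sum_sub_distrib, ← Finset.smul_sum, hs, ← Finset.sum_smul,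
    Finset.sum_sub_distrib, ← Finset.mul_sum, hu]
  simp

theorem PMAt.dd_ratio (h : PMAt x p) {i : Fin N} (h0 : x p i ≠ 0) (l : Fin N) :
    dd (fn n fun y => x y l / x y i) p =
      (x p i)⁻¹ • Dx x l p - (x p l / x p i ^ 2) • Dx x i p :=
  MF4c_ratio h h0 l

/-- The unit vector in the direction of `v`. -/
def nrm (v : Fin N → ℂ) : Fin N → ℂ := ((Real.sqrt (∑ l, normSq (v l)) : ℂ))⁻¹ • v

theorem MF4c_pos {v : Fin N → ℂ} {l : Fin N} (h : v l ≠ 0) : 0 < ∑ j, normSq (v j) :=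
  lt_of_lt_of_le (normSq_pos.2 h)
    (Finset.single_le_sum (f := fun j => normSq (v j)) (fun _ _ => normSq_nonneg _)
      (Finset.mem_univ l))

theorem MF4c_normSq_nrm {v : Fin N → ℂ} (l : Fin N) :
    normSq (nrm v l) = normSq (v l) / ∑ j, normSq (v j) := by
  have h0 : 0 ≤ ∑ j, normSq (v j) := Finset.sum_nonneg fun j _ => normSq_nonneg _
  simp only [nrm, Pi.smul_apply, smul_eq_mul, map_mul, map_inv₀, normSq_ofReal,
    Real.mul_self_sqrt h0]
  rw [div_eq_inv_mul]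

theorem MF4c_sqrt_ne {v : Fin N → ℂ} {l : Fin N} (h : v l ≠ 0) :
    ((Real.sqrt (∑ j, normSq (v j)) : ℂ))⁻¹ ≠ 0 := by
  refine inv_ne_zero ?_
  exact_mod_cast (Real.sqrt_pos.2 (MF4c_pos h)).ne'

theorem MF4c_log_sm {r : X → ℝ} (h : SmAt 1 (fn n fun y => (r y : ℂ)) p) (h0 : 0 < r p) :
    SmAt 1 (fn n fun y => (Real.log (r y) : ℂ)) p := by
  have := h.comp_fn (u := fun w => (Real.log w.re : ℂ)) (by
    have ho : IsOpen {w : ℂ | 0 < w.re} := isOpen_lt continuous_const continuous_re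
    have hm : ((r p : ℝ) : ℂ) ∈ {w : ℂ | 0 < w.re} := by simpa using h0
    filter_upwards [ho.mem_nhds hm] with w hw
    exact ofRealCLM.contDiff.contDiffAt.comp w
      ((reCLM.contDiff.contDiffAt (x := w)).log (ne_of_gt hw)))
  simpa [Function.comp_def] using this

/-- The projective map given by sections without common zero. -/
theorem pmAt_of_sec {v : X → Fin N → ℂ} (hG : GOk G p) (h : ∀ l, HolAt G (fun y => v y l) p)
    (h0 : v p ≠ 0) : PMAt (fun y => nrm (v y)) p ∧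
      SmAt 1 (fn n fun y => (Real.log (∑ l, normSq (v y l)) : ℂ)) p ∧
      Th (fun y => nrm (v y)) p = cur G p -
        dbar 1 (dp 1 (fn n fun y => (Real.log (∑ l, normSq (v y l)) : ℂ))) p := by
  obtain ⟨i, hi⟩ := Function.ne_iff.1 h0
  have hi' : v p i ≠ 0 := hi
  have hne : ∀ l, v p l ≠ 0 → ∀ᶠ y in 𝓝 p, v y l ≠ 0 := fun l hl =>
    (h l).smAt.fn_ne hG hl
  have hv : ∀ l, nrm (v p) l ≠ 0 → v p l ≠ 0 := fun l hl h1 => hl (by simp [nrm, h1])
  have hP : PMAt (fun y => nrm (v y)) p := by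
    refine ⟨?_, fun l hl => ?_, fun l a hl => ?_⟩
    · filter_upwards [hne i hi'] with y hy
      simp only [MF4c_normSq_nrm]
      rw [← Finset.sum_div, div_self (MF4c_pos hy).ne']
    · filter_upwards [hne l (hv l hl)] with y hy
      exact mul_ne_zero (MF4c_sqrt_ne hy) hy
    · refine ((h a).div (h l) hG (hv l hl)).congr ?_
      filter_upwards [hne l (hv l hl)] with y hy
      exact (mul_div_mul_left _ _ (MF4c_sqrt_ne hy)).symm
  have hS : SmAt 1 (fn n fun y => ((∑ l, normSq (v y l) : ℝ) : ℂ)) p := by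
    have := SmAt.sum (S := Finset.univ) (G := 1) (p := p)
      (α := fun l => fn n fun y => (normSq (v y l) : ℂ)) fun l _ => (h l).smAt.normSq hG
    refine this.congr (Eventually.of_forall fun y => ?_)
    simp only [fn, Finset.sum_apply, ← map_sum, ofReal_sum]
  have hL := MF4c_log_sm hS (MF4c_pos hi')
  have hL1 := MF4c_log_sm ((h i).smAt.normSq hG) (normSq_pos.2 hi')
  refine ⟨hP, hL, ?_⟩
  rw [MF4c_log hP (l := i) (mul_ne_zero (MF4c_sqrt_ne hi') hi'), cur_of_sec hG (h i) hi',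
    ← dbar_sub (hL1.dp gok_one) (hL.dp gok_one)]
  have e : (fn n fun y => (Real.log (normSq (nrm (v y) i)) : ℂ)) =ᶠ[𝓝 p]
      (fn n fun y => (Real.log (normSq (v y i)) : ℂ)) -
        (fn n fun y => (Real.log (∑ l, normSq (v y l)) : ℂ)) := by
    filter_upwards [hne i hi'] with y hy
    simp only [fn, Pi.sub_apply, ← map_sub]
    rw [MF4c_normSq_nrm, Real.log_div (normSq_pos.2 hy).ne' (MF4c_pos hy).ne', ofReal_sub]
  rw [MF4c_ddc_congr e]
  refine dbar_congr ?_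
  filter_upwards [hL1.eventually gok_one, hL.eventually gok_one] with y h1 h2
  exact dp_sub gok_one h1 h2

/-- A unit vector field that is locally proportional to a projective map is one. -/
theorem PMAt.of_prop (h : PMAt x p) (hu : ∀ᶠ y in 𝓝 p, ∑ l, normSq (x' y l) = 1)
    (e : ∀ᶠ y in 𝓝 p, ∃ t : ℂ, x' y = t • x y) : PMAt x' p := by
  have e' : ∀ᶠ y in 𝓝 p, ∃ t : ℂ, t ≠ 0 ∧ x' y = t • x y := by
    filter_upwards [e, h.unit, hu] with y hy h1 h2
    obtain ⟨t, ht⟩ := hy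
    refine ⟨t, fun h0 => ?_, ht⟩
    have h3 := MF4c_norm_one h1 h2 ht
    rw [h0, map_zero] at h3
    exact zero_ne_one h3
  have hv : ∀ l, x' p l ≠ 0 → x p l ≠ 0 := fun l hl h0 => by
    obtain ⟨t, ht⟩ := e.self_of_nhds
    apply hl
    rw [ht, Pi.smul_apply, h0, smul_zero]
  refine ⟨hu, fun l hl => ?_, fun l a hl => ?_⟩
  · filter_upwards [e', h.ne l (hv l hl)] with y hy h1
    obtain ⟨t, ht0, ht⟩ := hy
    rw [ht]
    exact mul_ne_zero ht0 h1
  · refine (h.hol l a (hv l hl)).congr ?_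
    filter_upwards [e'] with y hy
    obtain ⟨t, ht0, ht⟩ := hy
    rw [ht]
    exact (mul_div_mul_left _ _ ht0).symm

theorem PMAt.continuousAt_mul_conj (h : PMAt x p) (a b : Fin N) :
    ContinuousAt (fun y => x y a * conj (x y b)) p := by
  have h1 := SmAt.mul_cf (h.holAt a).smAt (h.holAt b).smAt h.gok
  rw [cf_fn] at h1
  refine SmAt.continuousAt (n := n) (h1.congr (Eventually.of_forall fun y => ?_))
  simp only [fn, Pi.mul_apply, ← map_mul]

theorem MF4c_df {u : X → E m} {y : X} (hy : y ∈ (ch n p).source) (hu : HMap u y) :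
    Function.Injective (df u y) ↔
      Function.Injective (fderiv ℝ (u ∘ (ch n p).symm) (ch n p y)) := by
  have he := isCh_ch (n := n) p
  have h1 : HMap (u ∘ (ch n p).symm) (ch n p y) := by
    refine HMap.comp ?_ (he.2 _ ((ch n p).map_source hy))
    rw [(ch n p).left_inv hy]
    exact hu
  have h2 : u =ᶠ[𝓝 y] (u ∘ (ch n p).symm) ∘ ch n p := by
    filter_upwards [(ch n p).open_source.mem_nhds hy] with z hz
    simp only [Function.comp_apply, (ch n p).left_inv hz]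
  rw [df_congr h2, df_comp h1 (he.1 y hy), df_E, ContinuousLinearMap.coe_comp]
  exact Function.Injective.of_comp_iff' _ (he.df_bij hy)

theorem MF4c_inj {u : X → E m} (hu : HMap u p) (hi : Function.Injective (df u p)) :
    ∀ᶠ y in 𝓝 p, Function.Injective (df u y) := by
  have he := isCh_ch (n := n) p
  have hp : p ∈ (ch n p).source := mem_chart_source (E n) p
  have h1 : HMap (u ∘ (ch n p).symm) (ch n p p) := by
    refine HMap.comp ?_ (he.2 _ ((ch n p).map_source hp))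
    rw [(ch n p).left_inv hp]
    exact hu
  have h2 : ContDiffAt ℝ ∞ (u ∘ (ch n p).symm) (ch n p p) := contDiffAt_of_hol (hmap_E.1 h1)
  have h3 : ContinuousAt (fderiv ℝ (u ∘ (ch n p).symm)) (ch n p p) :=
    h2.continuousAt_fderiv (by simp)
  have h4 : ContinuousAt (fun y => fderiv ℝ (u ∘ (ch n p).symm) (ch n p y)) p :=
    h3.comp ((ch n p).continuousAt hp)
  have h5 := h4.eventually (ContinuousLinearMap.isOpen_injective.mem_nhds ((MF4c_df hp hu).1 hi))
  filter_upwards [h5, (ch n p).open_source.mem_nhds hp, hu.eventually] with y a b c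
  exact (MF4c_df b c).2 a

theorem MF4c_imm (h : PMAt x p) {i : Fin N} (h0 : x p i ≠ 0) :
    Imm (n := n) x p ↔ Function.Injective (df (fun y j => x y j / x y i : X → E N) p) := by
  have hu : HMap (fun y j => x y j / x y i : X → E N) p :=
    hmap_iff_holAt.2 fun j => h.hol i j h0
  have hd : ∀ j, dd (fn n fun y => x y j / x y i) p =
      io ((vz j).comp (df (fun y j => x y j / x y i : X → E N) p)) := fun j => by
    rw [← lm_io]
    exact dd_coord hu j
  constructor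
  · intro hi
    rw [injective_iff_map_eq_zero]
    intro w hw
    funext k
    obtain ⟨a, ha⟩ := hi (dz k) (dz_mem k)
    simp only [h.Dx_affine (n := n) h0, hd, ← map_smul, ← map_sum, dz] at ha
    have h1 := congrArg (fun v : V n => v w) (io_inj ha)
    simpa [sum_apply, hw] using h1
  · intro hi γ hγ
    obtain ⟨B, hB⟩ := hu.df_complex
    rw [hB] at hi hd
    obtain ⟨C, hC⟩ := (B : E n →ₗ[ℂ] E N).exists_leftInverse_of_injective
      (LinearMap.ker_eq_bot.2 hi)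
    have hz : ∀ k : Fin n, vz k =
        ∑ j, C (Pi.single j 1) k • (vz j).comp (B.restrictScalars ℝ) := fun k => by
      ext1 w
      have h1 : C (B w) = w := LinearMap.congr_fun hC w
      have h2 : B w = ∑ j, B w j • (Pi.single j 1 : E N) := by
        funext l
        simp [Finset.sum_apply, Pi.single_apply]
      rw [vz_apply]
      conv_lhs => rw [← h1, h2]
      simp [mul_comm]
    have hm : γ ∈ Submodule.span ℂ (range fun l => (Dx x l p : Λ n)) := by
      obtain ⟨c, rfl⟩ := mem_Tp10.1 hγ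
      refine Submodule.sum_mem _ fun k _ => Submodule.smul_mem _ _ ?_
      rw [dz, hz k, map_sum]
      refine Submodule.sum_mem _ fun j _ => ?_
      rw [map_smul, ← hd j, h.dd_ratio h0 j]
      exact Submodule.smul_mem _ _ (Submodule.sub_mem _
        (Submodule.smul_mem _ _ (Submodule.subset_span ⟨j, rfl⟩))
        (Submodule.smul_mem _ _ (Submodule.subset_span ⟨i, rfl⟩)))
    obtain ⟨a, ha⟩ := (Submodule.mem_span_range_iff_exists_fun ℂ).1 hm
    exact ⟨a, ha.symm⟩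

theorem Imm.eventually (hi : Imm (n := n) x p) (h : PMAt x p) : ∀ᶠ y in 𝓝 p, Imm (n := n) x y := by
  obtain ⟨i, h0⟩ := Function.ne_iff.1 h.ne_zero
  have h0' : x p i ≠ 0 := h0
  have hu : HMap (fun y j => x y j / x y i : X → E N) p :=
    hmap_iff_holAt.2 fun j => h.hol i j h0'
  filter_upwards [MF4c_inj hu ((MF4c_imm h h0').1 hi), h.eventually, h.ne i h0'] with y a b c
  exact (MF4c_imm b c).2 a

end

end Pool.Agent.MP_1c689d_ag.K0

end

section

/-! Curvature and projective maps. -/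

set_option autoImplicit false

open Complex Filter Topology Set MeasureTheory
open scoped ComplexConjugate ContDiff ENNReal

namespace Pool.Agent.MP_1c689d_ag.K0

noncomputable section

variable {n m k : ℕ} {X Y Z : Type} [TopologicalSpace X] [TopologicalSpace Y]
  [TopologicalSpace Z] [Mf n X] [Mf m Y] [Mf k Z]

variable {G G' : Ga X} {p : X} {s : X → ℂ} {N : ℕ} {x x' : X → Fin N → ℂ}

/-- The algebraic form of `Wk`. -/
def MF4_W {d : ℕ} (a : Fin (d + 1) → ℂ) (β : Fin (d + 1) → Λ n) : Λ n :=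
  ∑ j : Fin (d + 1), ((-1) ^ (j : ℕ) * a j) • (List.ofFn fun i : Fin d => β (j.succAbove i)).prod

theorem MF4_W_succ {d : ℕ} (a : Fin (d + 2) → ℂ) (β : Fin (d + 2) → Λ n) :
    MF4_W a β = a 0 • (List.ofFn fun i : Fin (d + 1) => β i.succ).prod -
      β 0 * MF4_W (fun i => a i.succ) (fun i => β i.succ) := by
  rw [MF4_W, MF4_W, Fin.sum_univ_succ, Finset.mul_sum, sub_eq_add_neg, ← Finset.sum_neg_distrib]
  congr 1
  · simp
  · refine Finset.sum_congr rfl fun j _ => ?_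
    rw [List.ofFn_succ, List.prod_cons, mul_smul_comm, ← neg_smul, Fin.val_succ, pow_succ,
      Fin.succ_succAbove_zero]
    simp only [Fin.succ_succAbove_succ]
    congr 1
    ring

theorem MF4_shift {θ : Λ n} (hθ : θ ∈ Dg n 1) (d : ℕ) (a : Fin (d + 1) → ℂ)
    (β : Fin (d + 1) → Λ n) (h : ∀ j, β j ∈ Dg n 1) :
    (List.ofFn fun j => β j + a j • θ).prod = (List.ofFn β).prod + θ * MF4_W a β ∧
      MF4_W a (fun j => β j + a j • θ) = MF4_W a β := by
  induction d with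
  | zero => simp [MF4_W]
  | succ d ih =>
    obtain ⟨h1, h2⟩ := ih (fun i => a i.succ) (fun i => β i.succ) fun i => h _
    have h3 : β 0 * θ = -(θ * β 0) := by
      rw [comm_Dg (h 0) hθ]
      simp
    rw [MF4_W_succ, MF4_W_succ, List.ofFn_succ, List.ofFn_succ (f := β), List.prod_cons,
      List.prod_cons, h1, h2]
    constructor
    · simp only [mul_add, add_mul, mul_sub, smul_mul_assoc, mul_smul_comm, ← mul_assoc, h3,
        sq_one hθ, zero_mul, smul_zero, neg_mul]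
      abel
    · simp only [add_mul, smul_add, smul_mul_assoc]
      abel

theorem MF4_prod_smul {d : ℕ} (c : ℂ) (β : Fin d → Λ n) :
    (List.ofFn fun j => c • β j).prod = c ^ d • (List.ofFn β).prod := by
  have h := (MultilinearMap.mkPiAlgebraFin ℂ d (Λ n)).map_smul_univ (fun _ => c) β
  rwa [MultilinearMap.mkPiAlgebraFin_apply, MultilinearMap.mkPiAlgebraFin_apply,
    Fin.prod_const] at h

theorem MF4_prod_Tp (d : ℕ) (β : Fin d → Λ n) (h : ∀ j, β j ∈ Tp n 1 0) :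
    (List.ofFn β).prod ∈ Tp n d 0 := by
  induction d with
  | zero => simpa using algebraMap_mem_Tp (n := n) 1
  | succ d ih =>
    have h1 := Tp_mul (h 0) (ih _ fun j => h j.succ)
    rw [add_comm 1 d] at h1
    rw [List.ofFn_succ, List.prod_cons]
    exact h1

/-- `Wk` in affine coordinates. -/
theorem MF4_Wk_eq (h : PMAt x p) (l : Fin (n + 1) → Fin N) {i : Fin N} (h0 : x p i ≠ 0) :
    (Wk x l p : Λ n) = x p i ^ (n + 1) • MF4_W (fun j => x p (l j) / x p i)
      fun j => dd (fn n fun y => x y (l j) / x y i) p := by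
  have t : ∀ a, (Dx x a p : Λ n) ∈ Dg n 1 := fun a => Tp_le_Dg (p := 1) (q := 0) (Dx_Ty a p)
  have e : ∀ j, (Dx x (l j) p : Λ n) = x p i • dd (fn n fun y => x y (l j) / x y i) p +
      x p (l j) • ((x p i)⁻¹ • Dx x i p) := fun j => by
    rw [h.dd_ratio h0, smul_sub, smul_smul, smul_smul, smul_smul, mul_inv_cancel₀ h0, one_smul,
      show x p i * (x p (l j) / x p i ^ 2) = x p (l j) * (x p i)⁻¹ by field_simp, sub_add_cancel]
  have h1 := (MF4_shift (Submodule.smul_mem _ (x p i)⁻¹ (t i)) n (fun j => x p (l j))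
    (fun j => x p i • dd (fn n fun y => x y (l j) / x y i) p) fun j => by
      rw [h.dd_ratio h0]
      exact Submodule.smul_mem _ _ (Submodule.sub_mem _ (Submodule.smul_mem _ _ (t _))
        (Submodule.smul_mem _ _ (t _)))).2
  simp only [← e] at h1
  refine Eq.trans h1 ?_
  rw [MF4_W, MF4_W, Finset.smul_sum]
  refine Finset.sum_congr rfl fun j _ => ?_
  rw [MF4_prod_smul, smul_smul, smul_smul]
  congr 1
  field_simp
  ring

theorem MF4_congr {α β : Fm n X} (h : HFm G α p) (e : α =ᶠ[𝓝 p] β) : HFm G β p :=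
  ⟨h.1.congr e, (h.2.and e.eventuallyEq_nhds).mono fun _ hy => (dbar_congr hy.2).symm.trans hy.1⟩

theorem MF4_mul {α β : Fm n X} (h : HFm 1 α p) (h' : HFm 1 β p) : HFm 1 (α * β) p := by
  simpa only [mul_one] using h.mul h' gok_one gok_one

theorem MF4_sum {d : ℕ} {α : Fin d → Fm n X} (h : ∀ i, HFm 1 (α i) p) : HFm 1 (∑ i, α i) p := by
  refine ⟨SmAt.sum fun i _ => (h i).1, ?_⟩
  filter_upwards [eventually_all.2 fun i => (h i).2,
    eventually_all.2 fun i => (h i).1.eventually gok_one] with y h1 h2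
  rw [dbar_sum fun i _ => h2 i]
  exact Finset.sum_eq_zero fun i _ => h1 i

theorem MF4_prod (d : ℕ) (α : Fin d → Fm n X) (h : ∀ i, HFm 1 (α i) p) :
    HFm 1 (fun y => (List.ofFn fun i => α i y).prod) p := by
  induction d with
  | zero =>
    refine MF4_congr ((holAt_const 1).hfm gok_one) (Eventually.of_forall fun y => ?_)
    simp [fn]
  | succ d ih =>
    refine MF4_congr (MF4_mul (h 0) (ih _ fun i => h i.succ)) (Eventually.of_forall fun y => ?_)
    beta_reduce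
    rw [List.ofFn_succ, List.prod_cons]
    rfl

theorem MF4_dd (h : HolAt 1 s p) : HFm 1 (dd (fn n s)) p := by
  refine ⟨h.smAt.dd, ?_⟩
  filter_upwards [h.eventually gok_one] with y hy
  rw [dbar_congr ((hy.eventually gok_one).mono fun z hz => dd_of_hol hz),
    dbar_dp_sec gok_one hy, cur_one]
  exact smul_zero _

theorem Wk_Ty (l : Fin (n + 1) → Fin N) : Ty n 0 (Wk x l : Fm n X) := by
  intro y
  exact Submodule.sum_mem _ fun j _ => Submodule.smul_mem _ _
    (MF4_prod_Tp n _ fun i => Dx_Ty _ y)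

/-- Near `p`, `Wk x l` is `v ^ (n + 1)` times the same expression in the holomorphic functions
`x a / v` and their differentials (the terms with `∂ log |v|²` cancel). -/
theorem PMAt.Wk_hfm (h : PMAt x p) (l : Fin (n + 1) → Fin N) :
    HFm (gx x ^ ((n + 1 : ℕ) : ℤ)) (Wk x l : Fm n X) p := by
  obtain ⟨i, h0⟩ := Function.ne_iff.1 h.ne_zero
  have h1 : HFm 1 (∑ j : Fin (n + 1), fn n (((-1) ^ (j : ℕ) : ℂ) • fun y => x y (l j) / x y i) *
      fun y => (List.ofFn fun a : Fin n =>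
        dd (fn n fun y => x y (l (j.succAbove a)) / x y i) y).prod) p :=
    MF4_sum fun j => MF4_mul (((h.hol i (l j) h0).smul _).hfm gok_one)
      (MF4_prod n _ fun a => MF4_dd (h.hol i _ h0))
  have h2 := (((h.holAt i).zpow h.gok h0 ((n + 1 : ℕ) : ℤ)).hfm (h.gok.zpow _)).mul h1
    (h.gok.zpow _) gok_one
  rw [mul_one, fn_mul] at h2
  refine MF4_congr h2 ?_
  filter_upwards [h.eventually, h.ne i h0] with y hy hy0
  rw [MF4_Wk_eq hy l hy0, Pi.smul_apply', zpow_natCast, Finset.sum_apply, MF4_W]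
  simp only [fn_mul]
  rfl

theorem PMAt.Wk_affine (h : PMAt x p) (l : Fin (n + 1) → Fin N) (j : Fin (n + 1))
    (h0 : x p (l j) ≠ 0) : (Wk x l p : Λ n) = ((-1) ^ (j : ℕ) * x p (l j) ^ (n + 1)) •
      (List.ofFn fun i : Fin n => dd (fn n fun y => x y (l (j.succAbove i)) / x y (l j)) p).prod := by
  rw [MF4_Wk_eq h l h0, MF4_W, Finset.sum_eq_single j (fun j' _ hj => ?_)
    fun hj => absurd (Finset.mem_univ j) hj, smul_smul, div_self h0, mul_one, mul_comm]
  obtain ⟨a, ha⟩ := Fin.exists_succAbove_eq hj.symm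
  rw [List.prod_eq_zero, smul_zero]
  refine List.mem_ofFn.2 ⟨a, ?_⟩
  rw [ha, h.dd_ratio h0, show x p (l j) / x p (l j) ^ 2 = (x p (l j))⁻¹ by field_simp, sub_self]

theorem PMAt.exists_Wk (h : PMAt x p) (hi : Imm (n := n) x p) :
    ∃ l : Fin (n + 1) → Fin N, (Wk x l p : Λ n) ≠ 0 := by
  obtain ⟨i, h0⟩ := Function.ne_iff.1 h.ne_zero
  have h1 : ∀ a : Fin n, ∃ c : Fin N → ℂ,
      dz a = ∑ j, c j • dd (fn n fun y => x y j / x y i) p := fun a => by
    obtain ⟨c, hc⟩ := hi _ (dz_mem a)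
    refine ⟨fun j => ∑ l, c l * (x p i * ((if l = j then 1 else 0) - x p l * conj (x p j))), ?_⟩
    simp only [hc, h.Dx_affine h0, Finset.smul_sum, smul_smul, Finset.sum_smul]
    exact Finset.sum_comm
  choose c hc using h1
  by_contra hn
  push Not at hn
  refine prod_dz_ne (n := n) ?_
  rw [← MultilinearMap.mkPiAlgebraFin_apply (R := ℂ), show dz = _ from funext hc,
    MultilinearMap.map_sum]
  refine Finset.sum_eq_zero fun r _ => ?_
  have h2 := h.Wk_affine (Fin.cons i r) 0 h0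
  rw [hn, eq_comm, smul_eq_zero] at h2
  rw [MultilinearMap.map_smul_univ, MultilinearMap.mkPiAlgebraFin_apply]
  refine smul_eq_zero_of_right _ (h2.resolve_left ?_)
  exact mul_ne_zero (pow_ne_zero _ (neg_ne_zero.2 one_ne_zero)) (pow_ne_zero _ h0)

end

end Pool.Agent.MP_1c689d_ag.K0

end
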