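import Mathlib

set_option linter.all false


section

/-! The exterior algebra of complex valued real covectors on `ℂⁿ`. -/

set_option autoImplicit false

open Complex
open scoped ComplexConjugate

namespace Pool.Agent.MP_1c689d_ag.K0

noncomputable section

/-- The model space. -/
abbrev E (n : ℕ) : Type := Fin n → ℂ

/-- Complex valued real covectors. -/
abbrev V (n : ℕ) : Type := E n →L[ℝ] ℂ

/-- The index set of the generators: `inl j` is `dz j`, `inr j` is its conjugate. -/
abbrev Ix (n : ℕ) : Type := Fin n ⊕ₗ Fin n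

variable {n m k : ℕ}

/-- The covector `z ↦ z j`. -/
def vz (j : Fin n) : V n := (ContinuousLinearMap.proj (R := ℂ) (φ := fun _ => ℂ) j).restrictScalars ℝ

/-- The conjugate of a covector. -/
def vc (v : V n) : V n := (conjCLE : ℂ →L[ℝ] ℂ).comp v

@[simp] theorem vz_apply (j : Fin n) (z : E n) : vz j z = z j := rfl

@[simp] theorem vc_apply (v : V n) (z : E n) : vc v z = conj (v z) := rfl

/-- The generators. -/
def vg (i : Ix n) : V n := Sum.elim vz (fun j => vc (vz j)) (ofLex i)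

/-- The coordinates of a covector. -/
def vco (v : V n) (i : Ix n) : ℂ :=
  Sum.elim (fun j => (v (Pi.single j 1) - I * v (Pi.single j I)) / 2)
    (fun j => (v (Pi.single j 1) + I * v (Pi.single j I)) / 2) (ofLex i)

theorem sum_ix {M : Type} [AddCommMonoid M] (f : Ix n → M) :
    ∑ i, f i = ∑ j, f (toLex (Sum.inl j)) + ∑ j, f (toLex (Sum.inr j)) :=
  Fintype.sum_sum_type (fun i : Fin n ⊕ Fin n => f (toLex i))

theorem v_eq_sum (v : V n) : ∑ i, vco v i • vg i = v := by
  ext1 z
  have hz : z = ∑ j, ((z j).re • (Pi.single j 1 : E n) + (z j).im • (Pi.single j I : E n)) := by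
    funext l
    simp only [Finset.sum_apply, Pi.add_apply, Pi.smul_apply, Pi.single_apply, smul_ite, smul_zero,
      Finset.sum_add_distrib, Finset.sum_ite_eq, Finset.mem_univ, if_true]
    simp
  conv_rhs => rw [hz]
  rw [sum_ix, map_sum, ContinuousLinearMap.add_apply, ContinuousLinearMap.sum_apply,
    ContinuousLinearMap.sum_apply, ← Finset.sum_add_distrib]
  refine Finset.sum_congr rfl fun j _ => ?_
  simp only [vco, vg, ofLex_toLex, Sum.elim_inl, Sum.elim_inr, ContinuousLinearMap.smul_apply,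
    vz_apply, vc_apply, smul_eq_mul, map_add, map_smul, real_smul]
  have h1 : z j = (z j).re + (z j).im * I := (re_add_im _).symm
  have h2 : conj (z j) = (z j).re - (z j).im * I := by
    apply Complex.ext <;> simp
  rw [h2]
  generalize ((z j).re : ℂ) = a at h1 ⊢
  generalize ((z j).im : ℂ) = b at h1 ⊢
  rw [h1]
  linear_combination (-b * v (Pi.single j I)) * I_mul_I

theorem vco_sum (a : Ix n → ℂ) : vco (∑ i, a i • vg i) = a := by
  funext i
  rw [sum_ix]
  obtain ⟨j | j, rfl⟩ := toLex.surjective i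
  · simp only [vco, vg, ofLex_toLex, Sum.elim_inl, Sum.elim_inr, ContinuousLinearMap.add_apply,
      ContinuousLinearMap.sum_apply, ContinuousLinearMap.smul_apply, vz_apply, vc_apply,
      smul_eq_mul, Pi.single_apply, apply_ite conj, map_one, map_zero, mul_ite, mul_one, mul_zero,
      Finset.sum_ite_eq', Finset.mem_univ, if_true, conj_I]
    linear_combination (-a (toLex (Sum.inl j)) / 2 + a (toLex (Sum.inr j)) / 2) * I_mul_I
  · simp only [vco, vg, ofLex_toLex, Sum.elim_inl, Sum.elim_inr, ContinuousLinearMap.add_apply,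
      ContinuousLinearMap.sum_apply, ContinuousLinearMap.smul_apply, vz_apply, vc_apply,
      smul_eq_mul, Pi.single_apply, apply_ite conj, map_one, map_zero, mul_ite, mul_one, mul_zero,
      Finset.sum_ite_eq', Finset.mem_univ, if_true, conj_I]
    linear_combination (a (toLex (Sum.inl j)) / 2 - a (toLex (Sum.inr j)) / 2) * I_mul_I

/-- The coordinates as a linear equivalence. -/
def vEq (n : ℕ) : V n ≃ₗ[ℂ] (Ix n → ℂ) :=
  (LinearEquiv.ofBijective (Fintype.linearCombination ℂ (vg (n := n)))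
    ⟨fun a b h => by
      rw [← vco_sum a, ← vco_sum b]
      exact congrArg vco h,
    fun v => ⟨vco v, v_eq_sum v⟩⟩).symm

/-- The basis `dz j`, `conj dz j` of the covectors. -/
def bV (n : ℕ) : Module.Basis (Ix n) ℂ (V n) := Module.Basis.ofEquivFun (vEq n)

theorem bV_apply (i : Ix n) : bV n i = vg i := by
  classical
  simp [bV, vEq, Module.Basis.coe_ofEquivFun]

/-- The exterior algebra. -/
def Λ (n : ℕ) : Type := ExteriorAlgebra ℂ (V n)

instance : Ring (Λ n) := inferInstanceAs (Ring (ExteriorAlgebra ℂ (V n)))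

instance : Algebra ℂ (Λ n) := inferInstanceAs (Algebra ℂ (ExteriorAlgebra ℂ (V n)))

/-- The standard basis: ordered products of generators. -/
def bL (n : ℕ) : Module.Basis (Finset (Ix n)) ℂ (Λ n) := (bV n).ExteriorAlgebra

attribute [local instance] Matrix.linftyOpNormedRing Matrix.linftyOpNormedAlgebra in
instance : NormedRing (Λ n) :=
  NormedRing.induced (Λ n) (Matrix (Finset (Ix n)) (Finset (Ix n)) ℂ)
    (Algebra.leftMulMatrix (bL n)) (Algebra.leftMulMatrix_injective (bL n))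

attribute [local instance] Matrix.linftyOpNormedRing Matrix.linftyOpNormedAlgebra in
instance : NormedAlgebra ℂ (Λ n) :=
  NormedAlgebra.induced ℂ (Λ n) (Matrix (Finset (Ix n)) (Finset (Ix n)) ℂ)
    (Algebra.leftMulMatrix (bL n))

instance : FiniteDimensional ℂ (Λ n) := Module.Finite.of_basis (bL n)

instance : CompleteSpace (Λ n) := FiniteDimensional.complete ℂ (Λ n)

/-- Covectors as one-forms. -/
def io : V n →ₗ[ℂ] Λ n := ExteriorAlgebra.ι ℂ

/-- `dz j`. -/
def dz (j : Fin n) : Λ n := io (vz j)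

/-- The conjugate of `dz j`. -/
def dzb (j : Fin n) : Λ n := io (vc (vz j))

/-- The bidegree of a basis element. -/
def bideg (S : Finset (Ix n)) : ℕ × ℕ :=
  ((S.filter fun i => (ofLex i).isLeft).card, (S.filter fun i => (ofLex i).isRight).card)

/-- The elements of type `(p, q)`. -/
def Tp (n p q : ℕ) : Submodule ℂ (Λ n) := Submodule.span ℂ (bL n '' {S | bideg S = (p, q)})

/-- The elements of degree `k`. -/
def Dg (n k : ℕ) : Submodule ℂ (Λ n) := Submodule.span ℂ (bL n '' {S | S.card = k})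

/-- The projection onto type `(p, q)`. -/
def prj (p q : ℕ) : Λ n →ₗ[ℂ] Λ n :=
  (bL n).constr ℂ fun S => if bideg S = (p, q) then bL n S else 0

/-- The Euclidean volume form. -/
def vol (n : ℕ) : Λ n := (List.ofFn fun j : Fin n => (I / 2) • (dz j * dzb j)).prod

/-- The coefficient of the volume form. -/
def top : Λ n →ₗ[ℂ] ℂ := ((bL n).coord Finset.univ (vol n))⁻¹ • (bL n).coord Finset.univ

/-- Composition with a real linear map. -/
def vm (A : E n →L[ℝ] E m) : V m →ₗ[ℂ] V n where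
  toFun v := v.comp A
  map_add' _ _ := rfl
  map_smul' _ _ := rfl

/-- The pull-back along a real linear map. -/
def lm (A : E n →L[ℝ] E m) : Λ m →ₐ[ℂ] Λ n := ExteriorAlgebra.map (vm A)

/-- The grade involution. -/
def gi : Λ n →ₐ[ℂ] Λ n := lm (-ContinuousLinearMap.id ℝ (E n))

/-- The contraction with a linear form on the covectors. -/
def ctr (u : V n →ₗ[ℂ] ℂ) : Λ n →ₗ[ℂ] Λ n :=
  CliffordAlgebra.contractLeft (Q := (0 : QuadraticForm ℂ (V n))) u

/-- The exterior algebra with the conjugate complex structure. -/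
def Cj (n : ℕ) : Type := Λ n

instance : Ring (Cj n) := inferInstanceAs (Ring (Λ n))

instance : Algebra ℂ (Cj n) :=
  RingHom.toAlgebra' (R := ℂ) (S := Cj n) ((algebraMap ℂ (Λ n)).comp (starRingEnd ℂ))
    fun c x => Algebra.commutes (R := ℂ) (A := Λ n) (conj c) x

/-- The conjugation on generators. -/
def cjV : V n →ₗ[ℂ] Cj n where
  toFun v := (io (vc v) : Λ n)
  map_add' v w := by
    have : vc (v + w) = vc v + vc w := by ext1 z; simp
    rw [this, map_add]; rfl
  map_smul' c v := by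
    have : vc (c • v) = conj c • vc v := by ext1 z; simp
    rw [this, map_smul]
    exact Algebra.smul_def (R := ℂ) (A := Λ n) (conj c) (io (vc v))

/-- The complex conjugation. -/
def cj : Λ n →+* Λ n :=
  (ExteriorAlgebra.lift ℂ (A := Cj n)
    ⟨cjV, fun v => ExteriorAlgebra.ι_sq_zero (R := ℂ) (vc v)⟩).toRingHom

theorem cj_io (v : V n) : cj (io v) = io (vc v) :=
  ExteriorAlgebra.lift_ι_apply (R := ℂ) (A := Cj n) cjV _ v

theorem cj_algebraMap (c : ℂ) : cj (algebraMap ℂ (Λ n) c) = algebraMap ℂ (Λ n) (conj c) :=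
  (ExteriorAlgebra.lift ℂ (A := Cj n)
    ⟨cjV, fun v => ExteriorAlgebra.ι_sq_zero (R := ℂ) (vc v)⟩).commutes c

theorem cj_smul (c : ℂ) (a : Λ n) : cj (c • a) = conj c • cj a := by
  rw [Algebra.smul_def, map_mul, cj_algebraMap, ← Algebra.smul_def]

theorem lm_io (A : E n →L[ℝ] E m) (v : V m) : lm A (io v) = io (v.comp A) :=
  ExteriorAlgebra.map_apply_ι (vm A) v

theorem io_sq (v : V n) : io v * io v = 0 := ExteriorAlgebra.ι_sq_zero (R := ℂ) v

theorem io_add_swap (v w : V n) : io v * io w + io w * io v = 0 :=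
  ExteriorAlgebra.ι_add_mul_swap (R := ℂ) v w

/-- Induction over the exterior algebra. -/
theorem ext_ind {C : Λ n → Prop} (h0 : ∀ c, C (algebraMap ℂ (Λ n) c)) (h1 : ∀ v, C (io v))
    (hm : ∀ a b, C a → C b → C (a * b)) (ha : ∀ a b, C a → C b → C (a + b)) (a : Λ n) : C a :=
  ExteriorAlgebra.induction (R := ℂ) (M := V n) (C := C) h0 h1 hm ha a

section Calc

variable {W : Type} [NormedAddCommGroup W] [NormedSpace ℂ W]

/-- `∂ / ∂ z_j`. -/
def pz (j : Fin n) (f : E n → W) (z : E n) : W :=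
  (1 / 2 : ℂ) • (fderiv ℝ f z (Pi.single j 1) - I • fderiv ℝ f z (Pi.single j I))

/-- `∂ / ∂ conj z_j`. -/
def pzb (j : Fin n) (f : E n → W) (z : E n) : W :=
  (1 / 2 : ℂ) • (fderiv ℝ f z (Pi.single j 1) + I • fderiv ℝ f z (Pi.single j I))

/-- The operator `∂` on the model space. -/
def dpE (α : E n → Λ n) (z : E n) : Λ n := ∑ j, dz j * pz j α z

/-- The operator `∂ bar` on the model space. -/
def dbE (α : E n → Λ n) (z : E n) : Λ n := ∑ j, dzb j * pzb j α z

/-- The exterior derivative on the model space. -/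
def dE (α : E n → Λ n) (z : E n) : Λ n := dpE α z + dbE α z

end Calc

end

end Pool.Agent.MP_1c689d_ag.K0

end

section

/-! Types and degrees in the exterior algebra. -/

set_option autoImplicit false

open Complex Filter Topology Set MeasureTheory
open scoped ComplexConjugate ContDiff ENNReal

namespace Pool.Agent.MP_1c689d_ag.K0

noncomputable section

variable {n m k p q p' q' : ℕ}

theorem EA1a_mul_nd {S T : Finset (Ix n)} (h : ¬Disjoint S T) : bL n S * bL n T = 0 :=
  ExteriorAlgebra.basis_mul_of_not_disjoint (bV n) (powersetCard.ofCard (s := S) rfl)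
    (powersetCard.ofCard (s := T) rfl) h

theorem EA1a_mul_d {S T : Finset (Ix n)} (h : Disjoint S T) :
    ∃ c : ℂ, c * c = 1 ∧ bL n S * bL n T = c • bL n (S ∪ T) := by
  have e := ExteriorAlgebra.basis_mul_of_disjoint (bV n) (powersetCard.ofCard (s := S) rfl)
    (powersetCard.ofCard (s := T) rfl) h
  have e2 : S.disjUnion T h = S ∪ T := Finset.disjUnion_eq_union S T h
  rcases Int.units_eq_one_or (powersetCard.permOfDisjoint
    (s := powersetCard.ofCard (s := S) rfl) (t := powersetCard.ofCard (s := T) rfl) h).sign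
    with h1 | h1
  · rw [h1, one_smul] at e
    exact ⟨1, one_mul 1, by rw [one_smul, ← e2]; exact e⟩
  · rw [h1, Units.neg_smul, one_smul] at e
    exact ⟨-1, by ring, by rw [neg_smul, one_smul, ← e2]; exact e⟩

theorem EA1a_empty : bL n ∅ = 1 :=
  (ExteriorAlgebra.basis_apply_ofCard (bV n) (s := ∅) (n := 0) rfl).trans
    (ExteriorAlgebra.ιMulti_zero_apply _)

theorem EA1a_single (i : Ix n) : bL n {i} = io (vg i) := by
  have e := ExteriorAlgebra.basis_apply_ofCard (bV n) (s := {i}) (n := 1) rfl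
  have h : powersetCard.ofFinEmbEquiv.symm (powersetCard.ofCard (s := {i}) (n := 1) rfl) 0 = i :=
    Finset.mem_singleton.1 ((powersetCard.mem_range_ofFinEmbEquiv_symm_iff_mem
      (powersetCard.ofCard (s := {i}) (n := 1) rfl) _).1 ⟨0, rfl⟩)
  rw [ExteriorAlgebra.ιMulti_family, ExteriorAlgebra.ιMulti_apply, List.ofFn_succ, List.ofFn_zero,
    List.prod_cons, List.prod_nil, mul_one, Function.comp_apply, h, bV_apply] at e
  exact e

theorem EA1a_insert {S : Finset (Ix n)} {i : Ix n} (h : i ∉ S) :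
    ∃ c : ℂ, bL n (insert i S) = c • (io (vg i) * bL n S) := by
  obtain ⟨c, h1, h2⟩ := EA1a_mul_d (Finset.disjoint_singleton_left.2 h)
  refine ⟨c, ?_⟩
  rw [← EA1a_single, h2, smul_smul, h1, one_smul, Finset.insert_eq]

theorem EA1a_bideg_union {S T : Finset (Ix n)} (h : Disjoint S T) :
    bideg (S ∪ T) = bideg S + bideg T := by
  simp only [bideg, Finset.filter_union, Prod.mk_add_mk]
  rw [Finset.card_union_of_disjoint (Finset.disjoint_filter_filter h),
    Finset.card_union_of_disjoint (Finset.disjoint_filter_filter h)]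

theorem EA1a_card (S : Finset (Ix n)) : S.card = (bideg S).1 + (bideg S).2 := by
  rw [← Finset.card_filter_add_card_filter_not (fun i : Ix n => (ofLex i).isLeft = true)]
  simp only [bideg, Bool.not_eq_true, Sum.isLeft_eq_false]

theorem EA1a_bideg_inl (j : Fin n) : bideg ({toLex (Sum.inl j)} : Finset (Ix n)) = (1, 0) := by
  simp [bideg, Finset.filter_singleton]

theorem EA1a_bideg_inr (j : Fin n) : bideg ({toLex (Sum.inr j)} : Finset (Ix n)) = (0, 1) := by
  simp [bideg, Finset.filter_singleton]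

theorem EA1a_bideg_univ : bideg (Finset.univ : Finset (Ix n)) = (n, n) := by
  simp only [bideg, Finset.card_filter, sum_ix]
  simp

theorem EA1a_card_univ : (Finset.univ : Finset (Ix n)).card = 2 * n := by
  rw [EA1a_card, EA1a_bideg_univ, two_mul]

theorem EA1a_dz (j : Fin n) : dz j = bL n {toLex (Sum.inl j)} :=
  (EA1a_single (toLex (Sum.inl j))).symm

theorem EA1a_dzb (j : Fin n) : dzb j = bL n {toLex (Sum.inr j)} :=
  (EA1a_single (toLex (Sum.inr j))).symm

theorem EA1a_span_mul {P Q R : Set (Finset (Ix n))}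
    (h : ∀ S ∈ P, ∀ T ∈ Q, Disjoint S T → S ∪ T ∈ R) {a b : Λ n}
    (ha : a ∈ Submodule.span ℂ (bL n '' P)) (hb : b ∈ Submodule.span ℂ (bL n '' Q)) :
    a * b ∈ Submodule.span ℂ (bL n '' R) := by
  have h1 := Submodule.mul_mem_mul ha hb
  rw [Submodule.span_mul_span] at h1
  refine Submodule.span_le.2 ?_ h1
  rintro _ ⟨_, ⟨S, hS, rfl⟩, _, ⟨T, hT, rfl⟩, rfl⟩
  by_cases hd : Disjoint S T
  · obtain ⟨c, -, h2⟩ := EA1a_mul_d hd
    change bL n S * bL n T ∈ Submodule.span ℂ (bL n '' R)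
    rw [h2]
    exact Submodule.smul_mem _ _ (Submodule.subset_span ⟨_, h S hS T hT hd, rfl⟩)
  · change bL n S * bL n T ∈ Submodule.span ℂ (bL n '' R)
    rw [EA1a_mul_nd hd]
    exact Submodule.zero_mem _

theorem EA1a_gi_io (v : V n) : gi (io v) = -io v := by
  rw [gi, lm_io, ← map_neg]
  congr 1
  ext1 z
  simp

theorem EA1a_gi_bL (S : Finset (Ix n)) : gi (bL n S) = (-1 : ℂ) ^ S.card • bL n S := by
  induction S using Finset.induction_on with
  | empty => simp [EA1a_empty]
  | insert i S hi ih =>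
    obtain ⟨c, hc⟩ := EA1a_insert hi
    rw [hc, map_smul, map_mul, ih, EA1a_gi_io, Finset.card_insert_of_notMem hi, pow_succ,
      smul_comm _ c, mul_smul_comm, neg_mul, mul_smul, neg_smul, one_smul]

theorem EA1a_Dg1 {a : Λ n} (h : a ∈ Dg n 1) : ∃ v, a = io v := by
  have : Dg n 1 ≤ LinearMap.range (io : V n →ₗ[ℂ] Λ n) := by
    refine Submodule.span_le.2 ?_
    rintro _ ⟨S, hS, rfl⟩
    obtain ⟨i, rfl⟩ := Finset.card_eq_one.1 hS
    exact ⟨vg i, (EA1a_single i).symm⟩
  obtain ⟨v, hv⟩ := this h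
  exact ⟨v, hv.symm⟩

theorem EA1a_im10 : bL n '' {S | bideg S = (1, 0)} = range dz := by
  ext x
  constructor
  · rintro ⟨S, hS, rfl⟩
    have hS' : bideg S = (1, 0) := hS
    obtain ⟨i, rfl⟩ := Finset.card_eq_one.1 (show S.card = 1 by rw [EA1a_card, hS']; rfl)
    obtain ⟨j | j, rfl⟩ := toLex.surjective i
    · exact ⟨j, EA1a_dz j⟩
    · rw [EA1a_bideg_inr] at hS'
      simp at hS'
  · rintro ⟨j, rfl⟩
    exact ⟨_, EA1a_bideg_inl j, (EA1a_dz j).symm⟩

theorem EA1a_im01 : bL n '' {S | bideg S = (0, 1)} = range dzb := by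
  ext x
  constructor
  · rintro ⟨S, hS, rfl⟩
    have hS' : bideg S = (0, 1) := hS
    obtain ⟨i, rfl⟩ := Finset.card_eq_one.1 (show S.card = 1 by rw [EA1a_card, hS']; rfl)
    obtain ⟨j | j, rfl⟩ := toLex.surjective i
    · rw [EA1a_bideg_inl] at hS'
      simp at hS'
    · exact ⟨j, EA1a_dzb j⟩
  · rintro ⟨j, rfl⟩
    exact ⟨_, EA1a_bideg_inr j, (EA1a_dzb j).symm⟩

theorem EA1a_set00 : {S : Finset (Ix n) | bideg S = (0, 0)} = {∅} := by
  ext S
  constructor
  · intro hS
    have hS' : bideg S = (0, 0) := hS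
    exact Finset.card_eq_zero.1 (by rw [EA1a_card, hS']; rfl)
  · rintro rfl
    rfl

theorem EA1a_erase {S : Finset (Ix n)} {i : Ix n} (h : i ∈ S) :
    bideg S = bideg {i} + bideg (S.erase i) ∧
      ∃ c : ℂ, bL n S = c • (io (vg i) * bL n (S.erase i)) := by
  have h1 : i ∉ S.erase i := Finset.notMem_erase i S
  constructor
  · rw [← EA1a_bideg_union (Finset.disjoint_singleton_left.2 h1), ← Finset.insert_eq,
      Finset.insert_erase h]
  · have := EA1a_insert h1
    rwa [Finset.insert_erase h] at this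

theorem io_mul_eq (v : V n) (a : Λ n) : io v * a = gi a * io v := by
  induction a using ext_ind with
  | h0 c => rw [AlgHom.commutes, Algebra.commutes]
  | h1 w => rw [EA1a_gi_io, neg_mul, eq_neg_iff_add_eq_zero, io_add_swap]
  | hm a b ha hb => rw [← mul_assoc, ha, mul_assoc, hb, map_mul, mul_assoc]
  | ha a b ha hb => rw [mul_add, ha, hb, map_add, add_mul]

theorem gi_io (v : V n) : gi (io v) = -io v := by
  exact EA1a_gi_io v

theorem gi_gi (a : Λ n) : gi (gi a) = a := by
  induction a using ext_ind with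
  | h0 c => rw [AlgHom.commutes, AlgHom.commutes]
  | h1 w => rw [gi_io, map_neg, gi_io, neg_neg]
  | hm a b ha hb => rw [map_mul, map_mul, ha, hb]
  | ha a b ha hb => rw [map_add, map_add, ha, hb]

theorem gi_of_Dg {a : Λ n} (h : a ∈ Dg n k) : gi a = (-1 : ℂ) ^ k • a := by
  induction h using Submodule.span_induction with
  | mem x hx =>
    obtain ⟨S, hS, rfl⟩ := hx
    rw [EA1a_gi_bL, show S.card = k from hS]
  | zero => simp
  | add x y _ _ hx hy => rw [map_add, hx, hy, smul_add]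
  | smul c x _ hx => rw [map_smul, hx, smul_comm]

theorem Tp_le_Dg : Tp n p q ≤ Dg n (p + q) := by
  refine Submodule.span_mono (image_mono fun S hS => ?_)
  have hS' : bideg S = (p, q) := hS
  change S.card = p + q
  rw [EA1a_card, hS']

theorem gi_of_Tp {a : Λ n} (h : a ∈ Tp n p q) : gi a = (-1 : ℂ) ^ (p + q) • a := by
  exact gi_of_Dg (Tp_le_Dg h)

theorem Tp_mul {a b : Λ n} (ha : a ∈ Tp n p q) (hb : b ∈ Tp n p' q') :
    a * b ∈ Tp n (p + p') (q + q') := by
  refine EA1a_span_mul (fun S hS T hT hd => ?_) ha hb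
  change bideg (S ∪ T) = _
  rw [EA1a_bideg_union hd, show bideg S = (p, q) from hS, show bideg T = (p', q') from hT]
  rfl

theorem Dg_mul {a b : Λ n} {l : ℕ} (ha : a ∈ Dg n k) (hb : b ∈ Dg n l) :
    a * b ∈ Dg n (k + l) := by
  refine EA1a_span_mul (fun S hS T hT hd => ?_) ha hb
  change (S ∪ T).card = _
  rw [Finset.card_union_of_disjoint hd, show S.card = k from hS, show T.card = l from hT]

theorem comm_Dg {a b : Λ n} {l : ℕ} (ha : a ∈ Dg n k) (hb : b ∈ Dg n l) :
    a * b = (-1 : ℂ) ^ (k * l) • (b * a) := by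
  have key : ∀ S : Finset (Ix n), bL n S * b = (-1 : ℂ) ^ (S.card * l) • (b * bL n S) := by
    intro S
    induction S using Finset.induction_on with
    | empty => simp [EA1a_empty]
    | insert i S hi ih =>
      obtain ⟨c, hc⟩ := EA1a_insert hi
      rw [hc, smul_mul_assoc, mul_assoc, ih, mul_smul_comm, ← mul_assoc, io_mul_eq, gi_of_Dg hb,
        Finset.card_insert_of_notMem hi, add_mul, one_mul, pow_add, mul_smul_comm,
        smul_mul_assoc, smul_mul_assoc, mul_assoc, smul_comm _ c, mul_smul]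
  induction ha using Submodule.span_induction with
  | mem x hx =>
    obtain ⟨S, hS, rfl⟩ := hx
    rw [key, show S.card = k from hS]
  | zero => simp
  | add x y _ _ hx hy => rw [add_mul, hx, hy, mul_add, smul_add]
  | smul c x _ hx => rw [smul_mul_assoc, hx, mul_smul_comm, smul_comm]

theorem comm_even {a : Λ n} (ha : a ∈ Dg n (2 * k)) (b : Λ n) : a * b = b * a := by
  induction b using ext_ind with
  | h0 c => rw [Algebra.commutes]
  | h1 w => rw [io_mul_eq, gi_of_Dg ha, pow_mul, neg_one_sq, one_pow, one_smul]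
  | hm x y hx hy => rw [← mul_assoc, hx, mul_assoc, hy, mul_assoc]
  | ha x y hx hy => rw [mul_add, hx, hy, add_mul]

theorem comm_one {a : Λ n} (ha : a ∈ Dg n 1) (b : Λ n) : a * b = gi b * a := by
  obtain ⟨v, rfl⟩ := EA1a_Dg1 ha
  exact io_mul_eq v b

theorem sq_one {a : Λ n} (ha : a ∈ Dg n 1) : a * a = 0 := by
  obtain ⟨v, rfl⟩ := EA1a_Dg1 ha
  exact io_sq v

theorem algebraMap_mem_Tp (c : ℂ) : algebraMap ℂ (Λ n) c ∈ Tp n 0 0 := by
  rw [Algebra.algebraMap_eq_smul_one, ← EA1a_empty]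
  exact Submodule.smul_mem _ _ (Submodule.subset_span ⟨∅, rfl, rfl⟩)

theorem mem_Tp00 {a : Λ n} : a ∈ Tp n 0 0 ↔ ∃ c : ℂ, a = algebraMap ℂ (Λ n) c := by
  rw [Tp, EA1a_set00, image_singleton, EA1a_empty, Submodule.mem_span_singleton]
  simp only [Algebra.algebraMap_eq_smul_one, eq_comm]

theorem Dg_zero : Dg n 0 = Tp n 0 0 := by
  rw [Tp, EA1a_set00, Dg]
  simp only [Finset.card_eq_zero, ofPred_eq_eq_singleton]

theorem algebraMap_inj : Function.Injective (algebraMap ℂ (Λ n)) := by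
  exact fun x y h => (ExteriorAlgebra.algebraMap_inj (V n) x y).1 h

theorem io_inj : Function.Injective (io : V n → Λ n) := by
  exact fun x y h => (ExteriorAlgebra.ι_inj ℂ x y).1 h

theorem dz_mem (j : Fin n) : dz j ∈ Tp n 1 0 := by
  exact Submodule.subset_span ⟨_, EA1a_bideg_inl j, (EA1a_dz j).symm⟩

theorem dzb_mem (j : Fin n) : dzb j ∈ Tp n 0 1 := by
  exact Submodule.subset_span ⟨_, EA1a_bideg_inr j, (EA1a_dzb j).symm⟩

theorem io_mem (v : V n) : io v ∈ Dg n 1 := by
  rw [← v_eq_sum v, map_sum]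
  refine Submodule.sum_mem _ fun i _ => ?_
  rw [map_smul]
  exact Submodule.smul_mem _ _
    (Submodule.subset_span ⟨{i}, Finset.card_singleton i, EA1a_single i⟩)

theorem mem_Dg1 {a : Λ n} : a ∈ Dg n 1 ↔ ∃ v, a = io v := by
  refine ⟨EA1a_Dg1, ?_⟩
  rintro ⟨v, rfl⟩
  exact io_mem v

theorem mem_Tp10 {a : Λ n} : a ∈ Tp n 1 0 ↔ ∃ c : Fin n → ℂ, a = ∑ j, c j • dz j := by
  rw [Tp, EA1a_im10, Submodule.mem_span_range_iff_exists_fun]
  simp only [eq_comm]

theorem mem_Tp01 {a : Λ n} : a ∈ Tp n 0 1 ↔ ∃ c : Fin n → ℂ, a = ∑ j, c j • dzb j := by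
  rw [Tp, EA1a_im01, Submodule.mem_span_range_iff_exists_fun]
  simp only [eq_comm]

theorem io_mem_Tp10 {v : V n} :
    io v ∈ Tp n 1 0 ↔ ∃ u : E n →L[ℂ] ℂ, v = u.restrictScalars ℝ := by
  have e : ∀ c : Fin n → ℂ, ∑ j, c j • dz j = io (∑ j, c j • vz j) := fun c => by
    simp only [map_sum, map_smul, dz]
  rw [mem_Tp10]
  constructor
  · rintro ⟨c, hc⟩
    rw [e] at hc
    refine ⟨∑ j, c j • ContinuousLinearMap.proj (R := ℂ) (φ := fun _ => ℂ) j, ?_⟩
    rw [io_inj hc]
    ext1 z
    simp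
  · rintro ⟨u, rfl⟩
    refine ⟨fun j => u (Pi.single j 1), ?_⟩
    rw [e]
    congr 1
    ext1 z
    have hz : z = ∑ j, z j • (Pi.single j 1 : E n) := pi_eq_sum_univ' z
    change u z = _
    conv_lhs => rw [hz]
    simp [mul_comm]

theorem dz_li : LinearIndependent ℂ (dz : Fin n → Λ n) := by
  have e : (dz : Fin n → Λ n) = bL n ∘ fun j => {toLex (Sum.inl j)} := funext EA1a_dz
  rw [e]
  refine (bL n).linearIndependent.comp _ fun i j h => ?_
  simpa using h

theorem Tp_eq_bot (h : n < p ∨ n < q) : Tp n p q = ⊥ := by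
  have : {S : Finset (Ix n) | bideg S = (p, q)} = ∅ := by
    refine eq_empty_of_forall_notMem fun S hS => ?_
    have hS' : bideg S = (p, q) := hS
    have h1 := EA1a_bideg_union (disjoint_compl_right (a := S))
    rw [Finset.union_compl, EA1a_bideg_univ, hS', Prod.ext_iff] at h1
    simp only [Prod.fst_add, Prod.snd_add] at h1
    omega
  rw [Tp, this, image_empty, Submodule.span_empty]

theorem Dg_eq_bot (h : 2 * n < k) : Dg n k = ⊥ := by
  have : {S : Finset (Ix n) | S.card = k} = ∅ := by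
    refine eq_empty_of_forall_notMem fun S hS => ?_
    have hS' : S.card = k := hS
    have h1 := Finset.card_le_card (Finset.subset_univ S)
    rw [EA1a_card_univ] at h1
    omega
  rw [Dg, this, image_empty, Submodule.span_empty]

theorem Dg_top : Dg n (2 * n) = Tp n n n := by
  have : {S : Finset (Ix n) | S.card = 2 * n} = {S | bideg S = (n, n)} := by
    ext S
    constructor
    · intro hS
      have hS' : S.card = 2 * n := hS
      rw [Finset.eq_of_subset_of_card_le (Finset.subset_univ S) (by rw [EA1a_card_univ, hS'])]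
      exact EA1a_bideg_univ
    · intro hS
      have hS' : bideg S = (n, n) := hS
      change S.card = 2 * n
      rw [EA1a_card, hS', two_mul]
  rw [Dg, this, Tp]

theorem Tp_succ_left : Tp n (p + 1) q =
    Submodule.span ℂ {x | ∃ j, ∃ a ∈ Tp n p q, x = dz j * a} := by
  refine le_antisymm (Submodule.span_le.2 ?_) (Submodule.span_le.2 ?_)
  · rintro _ ⟨S, hS, rfl⟩
    have hS' : bideg S = (p + 1, q) := hS
    obtain ⟨i, hi⟩ := Finset.card_pos.1
      (show 0 < (bideg S).1 by rw [hS']; exact Nat.succ_pos p)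
    obtain ⟨hi1, hi2⟩ := Finset.mem_filter.1 hi
    obtain ⟨j | j, rfl⟩ := toLex.surjective i
    · obtain ⟨h1, c, h2⟩ := EA1a_erase hi1
      rw [hS', EA1a_bideg_inl, Prod.ext_iff] at h1
      simp only [Prod.fst_add, Prod.snd_add] at h1
      rw [h2]
      exact Submodule.smul_mem _ _ (Submodule.subset_span ⟨j, _, Submodule.subset_span
        ⟨_, Prod.ext (by omega) (by omega), rfl⟩, rfl⟩)
    · simp at hi2
  · rintro _ ⟨j, a, ha, rfl⟩
    have := Tp_mul (dz_mem j) ha
    rwa [add_comm 1, zero_add] at this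

theorem Tp_succ_right : Tp n p (q + 1) =
    Submodule.span ℂ {x | ∃ j, ∃ a ∈ Tp n p q, x = dzb j * a} := by
  refine le_antisymm (Submodule.span_le.2 ?_) (Submodule.span_le.2 ?_)
  · rintro _ ⟨S, hS, rfl⟩
    have hS' : bideg S = (p, q + 1) := hS
    obtain ⟨i, hi⟩ := Finset.card_pos.1
      (show 0 < (bideg S).2 by rw [hS']; exact Nat.succ_pos q)
    obtain ⟨hi1, hi2⟩ := Finset.mem_filter.1 hi
    obtain ⟨j | j, rfl⟩ := toLex.surjective i
    · simp at hi2
    · obtain ⟨h1, c, h2⟩ := EA1a_erase hi1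
      rw [hS', EA1a_bideg_inr, Prod.ext_iff] at h1
      simp only [Prod.fst_add, Prod.snd_add] at h1
      rw [h2]
      exact Submodule.smul_mem _ _ (Submodule.subset_span ⟨j, _, Submodule.subset_span
        ⟨_, Prod.ext (by omega) (by omega), rfl⟩, rfl⟩)
  · rintro _ ⟨j, a, ha, rfl⟩
    have := Tp_mul (dzb_mem j) ha
    rwa [add_comm 1, zero_add] at this

theorem Dg_succ : Dg n (k + 1) = Submodule.span ℂ {x | ∃ v, ∃ a ∈ Dg n k, x = io v * a} := by
  refine le_antisymm (Submodule.span_le.2 ?_) (Submodule.span_le.2 ?_)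
  · rintro _ ⟨S, hS, rfl⟩
    have hS' : S.card = k + 1 := hS
    obtain ⟨i, hi⟩ := Finset.card_pos.1 (show 0 < S.card by omega)
    obtain ⟨-, c, h2⟩ := EA1a_erase hi
    have h1 : (S.erase i).card = k := by rw [Finset.card_erase_of_mem hi, hS', Nat.add_sub_cancel]
    rw [h2]
    exact Submodule.smul_mem _ _ (Submodule.subset_span ⟨_, _, Submodule.subset_span
      ⟨_, h1, rfl⟩, rfl⟩)
  · rintro _ ⟨v, a, ha, rfl⟩
    have := Dg_mul (io_mem v) ha
    rwa [add_comm 1] at this

end

end Pool.Agent.MP_1c689d_ag.K0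

end

section

/-! Types and degrees in the exterior algebra. -/

set_option autoImplicit false

open Complex Filter Topology Set MeasureTheory
open scoped ComplexConjugate ContDiff ENNReal

namespace Pool.Agent.MP_1c689d_ag.K0

noncomputable section

variable {n m k p q p' q' : ℕ}

theorem EA1b_prj_bL (S : Finset (Ix n)) :
    prj p q (bL n S) = if bideg S = (p, q) then bL n S else 0 :=
  (bL n).constr_basis ℂ _ S

theorem EA1b_mem (S : Finset (Ix n)) : bL n S ∈ Tp n (bideg S).1 (bideg S).2 :=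
  Submodule.subset_span ⟨S, rfl, rfl⟩

theorem EA1b_card (S : Finset (Ix n)) : (bideg S).1 + (bideg S).2 = S.card := by
  rw [← Finset.card_filter_add_card_filter_not (s := S) fun i => (ofLex i).isLeft]
  simp only [bideg, Sum.not_isLeft]

theorem EA1b_le (S : Finset (Ix n)) : (bideg S).1 ≤ n ∧ (bideg S).2 ≤ n := by
  by_contra h
  have h1 := EA1b_mem S
  rw [Tp_eq_bot (by omega), Submodule.mem_bot] at h1
  exact (bL n).ne_zero S h1

theorem EA1b_ext {f g : Λ n →ₗ[ℂ] Λ n} {P : Finset (Ix n) → Prop}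
    (h : ∀ S, P S → f (bL n S) = g (bL n S)) {a : Λ n}
    (ha : a ∈ Submodule.span ℂ (bL n '' {S | P S})) : f a = g a :=
  LinearMap.eqOn_span (by
    rintro _ ⟨S, hS, rfl⟩
    exact h S hS) ha

theorem prj_mem (a : Λ n) : prj p q a ∈ Tp n p q := by
  have h : Submodule.span ℂ (range (bL n)) ≤ (Tp n p q).comap (prj p q) := by
    rw [Submodule.span_le]
    rintro _ ⟨S, rfl⟩
    change prj p q (bL n S) ∈ Tp n p q
    rw [EA1b_prj_bL]
    split_ifs with hS
    · exact Submodule.subset_span ⟨S, hS, rfl⟩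
    · exact zero_mem _
  exact h ((bL n).mem_span a)

theorem prj_of_mem {a : Λ n} (h : a ∈ Tp n p q) : prj p q a = a := by
  exact EA1b_ext (g := LinearMap.id) (fun S hS => by rw [EA1b_prj_bL, if_pos hS]; rfl) h

theorem prj_of_ne {a : Λ n} (h : a ∈ Tp n p q) (hne : (p', q') ≠ (p, q)) : prj p' q' a = 0 := by
  exact EA1b_ext (g := 0)
    (fun S hS => by rw [EA1b_prj_bL, if_neg fun h' => hne (h'.symm.trans hS)]; rfl) h

theorem prj_of_Dg {a : Λ n} (h : a ∈ Dg n k) (hne : p + q ≠ k) : prj p q a = 0 := by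
  refine EA1b_ext (g := 0) (fun S hS => ?_) h
  rw [EA1b_prj_bL, if_neg]
  · rfl
  · intro h'
    have h1 := EA1b_card S
    rw [h'] at h1
    exact hne (h1.trans hS)

theorem sum_prj {a : Λ n} (h : a ∈ Dg n k) :
    ∑ i ∈ Finset.range (k + 1), prj i (k - i) a = a := by
  rw [← LinearMap.sum_apply]
  refine EA1b_ext (g := LinearMap.id) (fun S hS => ?_) h
  have h1 := EA1b_card S
  rw [LinearMap.sum_apply, Finset.sum_eq_single_of_mem (bideg S).1
    (Finset.mem_range.2 (by omega)), EA1b_prj_bL, if_pos]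
  · rfl
  · exact Prod.ext rfl (by omega)
  · intro i _ hi
    rw [EA1b_prj_bL, if_neg fun h' => hi (congrArg Prod.fst h').symm]

theorem sum_prj_all (a : Λ n) :
    ∑ x ∈ Finset.range (n + 1) ×ˢ Finset.range (n + 1), prj x.1 x.2 a = a := by
  have h : ∑ x ∈ Finset.range (n + 1) ×ˢ Finset.range (n + 1), prj (n := n) x.1 x.2 =
      LinearMap.id := by
    refine (bL n).ext fun S => ?_
    have h1 := EA1b_le S
    rw [LinearMap.sum_apply, Finset.sum_eq_single_of_mem (bideg S)
      (Finset.mem_product.2 ⟨Finset.mem_range.2 (by omega), Finset.mem_range.2 (by omega)⟩),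
      EA1b_prj_bL, if_pos rfl]
    · rfl
    · intro x _ hx
      rw [EA1b_prj_bL, if_neg fun h' => hx h'.symm]
  rw [← LinearMap.sum_apply, h]
  rfl

theorem prj_mul_left {a : Λ n} (h : a ∈ Tp n p q) (b : Λ n) :
    prj (p + p') (q + q') (a * b) = a * prj p' q' b := by
  have h1 : prj (p + p') (q + q') ∘ₗ LinearMap.mulLeft ℂ a =
      LinearMap.mulLeft ℂ a ∘ₗ prj p' q' := by
    refine (bL n).ext fun S => ?_
    have h2 := Tp_mul h (EA1b_mem S)
    change prj (p + p') (q + q') (a * bL n S) = a * prj p' q' (bL n S)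
    rw [EA1b_prj_bL]
    split_ifs with hS
    · rw [hS] at h2
      exact prj_of_mem h2
    · rw [mul_zero]
      refine prj_of_ne h2 fun h' => hS ?_
      rw [Prod.mk.injEq] at h'
      exact Prod.ext (by omega) (by omega)
  exact LinearMap.congr_fun h1 b

theorem prj_mul_lt {a : Λ n} (h : a ∈ Tp n p q) (b : Λ n) (hlt : p' < p ∨ q' < q) :
    prj p' q' (a * b) = 0 := by
  have h1 : prj p' q' ∘ₗ LinearMap.mulLeft ℂ a = 0 := by
    refine (bL n).ext fun S => ?_
    change prj p' q' (a * bL n S) = 0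
    refine prj_of_ne (Tp_mul h (EA1b_mem S)) fun h' => ?_
    rw [Prod.mk.injEq] at h'
    omega
  exact LinearMap.congr_fun h1 b

/-- The holomorphic indices. -/
def EA1b_S (n : ℕ) : Finset (Ix n) := Finset.univ.filter fun i => (ofLex i).isLeft

theorem EA1b_S_mem {i : Ix n} : i ∈ EA1b_S n ↔ (ofLex i).isLeft := by simp [EA1b_S]

theorem EA1b_S_card : (EA1b_S n).card = n := by
  have h : EA1b_S n = Finset.univ.map
      ⟨fun j : Fin n => (toLex (Sum.inl j) : Ix n), toLex.injective.comp Sum.inl_injective⟩ := by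
    ext i
    obtain ⟨j | j, rfl⟩ := toLex.surjective i <;> simp [EA1b_S_mem]
  rw [h, Finset.card_map, Finset.card_fin]

theorem EA1b_prod : (List.ofFn (dz : Fin n → Λ n)).prod = bL n (EA1b_S n) := by
  have h1 := ExteriorAlgebra.basis_apply_ofCard (bV n) (EA1b_S_card (n := n))
  have h2 := Finset.orderEmbOfFin_unique (EA1b_S_card (n := n))
    (f := fun j : Fin n => (toLex (Sum.inl j) : Ix n)) (fun j => EA1b_S_mem.2 rfl)
    Sum.Lex.inl_strictMono
  refine Eq.trans ?_ h1.symm
  have h3 : (dz : Fin n → Λ n) = fun j =>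
      io (bV n ((EA1b_S n).orderEmbOfFin EA1b_S_card j)) := by
    funext j
    rw [← congrFun h2 j, bV_apply]
    rfl
  rw [h3]
  rfl

theorem EA1b_mul {S T : Finset (Ix n)} (h : Disjoint S T) :
    ∃ c : ℂ, c ≠ 0 ∧ bL n S * bL n T = c • bL n (S ∪ T) := by
  have h1 := ExteriorAlgebra.basis_mul_of_disjoint (bV n) (m := S.card) (n := T.card)
    ⟨S, rfl⟩ ⟨T, rfl⟩ h
  rw [Set.powersetCard.coe_disjUnion, Finset.disjUnion_eq_union, Units.smul_def,
    ← Int.cast_smul_eq_zsmul ℂ] at h1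
  exact ⟨_, by exact_mod_cast Units.ne_zero _, h1⟩

theorem EA1b_sub {S : Finset (Ix n)} (h : bideg S = (n, q)) : EA1b_S n ⊆ S := by
  have h1 : (S.filter fun i => (ofLex i).isLeft) = EA1b_S n :=
    Finset.eq_of_subset_of_card_le (fun i hi => EA1b_S_mem.2 (Finset.mem_filter.1 hi).2)
      (EA1b_S_card.trans (congrArg Prod.fst h).symm).le
  rw [← h1]
  exact Finset.filter_subset _ _

theorem EA1b_disj {S : Finset (Ix n)} (h : bideg S = (0, q)) : Disjoint (EA1b_S n) S :=
  Finset.disjoint_left.2 fun _ hi hS =>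
    Finset.filter_eq_empty_iff.1 (Finset.card_eq_zero.1 (congrArg Prod.fst h)) hS (EA1b_S_mem.1 hi)

theorem EA1b_bideg_S : bideg (EA1b_S n) = (n, 0) := by
  have h1 : (bideg (EA1b_S n)).1 = n := by
    rw [bideg, Finset.filter_true_of_mem fun i hi => EA1b_S_mem.1 hi]
    exact EA1b_S_card
  have h2 := EA1b_card (EA1b_S n)
  rw [EA1b_S_card] at h2
  exact Prod.ext h1 (by omega)

theorem EA1b_sdiff {S : Finset (Ix n)} (h : bideg S = (n, q)) : bideg (S \ EA1b_S n) = (0, q) := by
  have h1 : (bideg (S \ EA1b_S n)).1 = 0 :=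
    Finset.card_eq_zero.2 (Finset.filter_eq_empty_iff.2 fun i hi h' =>
      (Finset.mem_sdiff.1 hi).2 (EA1b_S_mem.2 h'))
  have h2 := EA1b_card (S \ EA1b_S n)
  have h3 := EA1b_card S
  have h4 := Finset.card_sdiff_add_card_eq_card (EA1b_sub h)
  rw [EA1b_S_card] at h4
  rw [h] at h3
  exact Prod.ext h1 (by omega)

/-- The top holomorphic part is one dimensional. -/
theorem mem_Tp_n0 {a : Λ n} :
    a ∈ Tp n n 0 ↔ ∃ c : ℂ, a = c • (List.ofFn (dz : Fin n → Λ n)).prod := by
  have h : {S : Finset (Ix n) | bideg S = (n, 0)} = {EA1b_S n} := by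
    refine eq_singleton_iff_unique_mem.2 ⟨EA1b_bideg_S, fun S hS => ?_⟩
    have h1 := EA1b_card S
    rw [show bideg S = (n, 0) from hS] at h1
    exact (Finset.eq_of_subset_of_card_le (EA1b_sub hS)
      (by rw [EA1b_S_card]; omega)).symm
  rw [Tp, h, image_singleton, Submodule.mem_span_singleton, EA1b_prod]
  exact exists_congr fun c => eq_comm

theorem prod_dz_ne : (List.ofFn (dz : Fin n → Λ n)).prod ≠ 0 := by
  rw [EA1b_prod]
  exact (bL n).ne_zero _

/-- Multiplication by `dz_1 … dz_n` identifies `(0, q)` with `(n, q)`. -/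
theorem prod_dz_bij : BijOn (fun a => (List.ofFn (dz : Fin n → Λ n)).prod * a)
    (Tp n 0 q) (Tp n n q) := by
  rw [EA1b_prod]
  choose! c hc using fun T : Finset (Ix n) => EA1b_mul (S := EA1b_S n) (T := T)
  refine ⟨fun a ha => ?_, ?_, ?_⟩
  · have h1 := EA1b_mem (EA1b_S n)
    rw [EA1b_bideg_S] at h1
    have h2 := Tp_mul h1 ha
    rwa [add_zero, zero_add] at h2
  · refine LeftInvOn.injOn (f₁' := (bL n).constr ℂ fun S =>
      (c (S \ EA1b_S n))⁻¹ • bL n (S \ EA1b_S n)) fun a ha => ?_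
    refine EA1b_ext (f := ((bL n).constr ℂ fun S => (c (S \ EA1b_S n))⁻¹ • bL n (S \ EA1b_S n)) ∘ₗ
      LinearMap.mulLeft ℂ (bL n (EA1b_S n))) (g := LinearMap.id) (fun T hT => ?_) ha
    have hd := EA1b_disj hT
    rw [LinearMap.comp_apply, LinearMap.mulLeft_apply, (hc T hd).2, map_smul,
      Module.Basis.constr_basis, Finset.union_sdiff_cancel_left hd, smul_smul,
      mul_inv_cancel₀ (hc T hd).1, one_smul]
    rfl
  · have h1 : Tp n n q ≤ (Tp n 0 q).map (LinearMap.mulLeft ℂ (bL n (EA1b_S n))) := by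
      refine Submodule.span_le.2 ?_
      rintro _ ⟨S, hS, rfl⟩
      have hd : Disjoint (EA1b_S n) (S \ EA1b_S n) := Finset.disjoint_sdiff
      refine ⟨(c (S \ EA1b_S n))⁻¹ • bL n (S \ EA1b_S n),
        Submodule.smul_mem _ _ (Submodule.subset_span ⟨_, EA1b_sdiff hS, rfl⟩), ?_⟩
      rw [map_smul, LinearMap.mulLeft_apply, (hc _ hd).2, smul_smul, inv_mul_cancel₀ (hc _ hd).1,
        one_smul, Finset.union_sdiff_of_subset (EA1b_sub hS)]
    exact fun a ha => h1 ha

end

end Pool.Agent.MP_1c689d_ag.K0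

end

section

/-! Types and degrees in the exterior algebra. -/

set_option autoImplicit false

open Complex Filter Topology Set MeasureTheory
open scoped ComplexConjugate ContDiff ENNReal

namespace Pool.Agent.MP_1c689d_ag.K0

noncomputable section

variable {n m k p q p' q' : ℕ}

theorem ctr_io_mul (u : V n →ₗ[ℂ] ℂ) (v : V n) (a : Λ n) :
    ctr u (io v * a) = u v • a - io v * ctr u a := by
  exact CliffordAlgebra.contractLeft_ι_mul (Q := (0 : QuadraticForm ℂ (V n))) u v a

theorem ctr_algebraMap (u : V n →ₗ[ℂ] ℂ) (c : ℂ) : ctr u (algebraMap ℂ (Λ n) c) = 0 := by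
  exact CliffordAlgebra.contractLeft_algebraMap (0 : QuadraticForm ℂ (V n)) u c

theorem ctr_mul (u : V n →ₗ[ℂ] ℂ) (a b : Λ n) :
    ctr u (a * b) = ctr u a * b + gi a * ctr u b := by
  induction a using ext_ind generalizing b with
  | h0 c =>
    rw [ctr_algebraMap, zero_mul, zero_add, AlgHom.commutes, ← Algebra.smul_def, ← Algebra.smul_def,
      map_smul]
  | h1 v =>
    have h1 : ctr u (1 : Λ n) = 0 := by simpa using ctr_algebraMap u 1
    have h2 := ctr_io_mul u v 1
    rw [mul_one, h1, mul_zero, sub_zero] at h2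
    rw [ctr_io_mul, h2, gi_io, smul_mul_assoc, one_mul, neg_mul, sub_eq_add_neg]
  | hm a a' ha ha' =>
    rw [mul_assoc, ha, ha', ha a', map_mul]
    noncomm_ring
  | ha a a' ha ha' =>
    rw [add_mul, map_add, ha, ha', map_add, map_add]
    noncomm_ring

theorem EA1_coord (i i' : Ix n) : (bV n).coord i (vg i') = if i' = i then 1 else 0 := by
  rw [← bV_apply, Module.Basis.coord_apply, Module.Basis.repr_self, Finsupp.single_apply]

theorem EA1_ll (j l : Fin n) (a : Λ n) : ctr ((bV n).coord (toLex (Sum.inl j))) (dz l * a) =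
    (if l = j then a else 0) - dz l * ctr ((bV n).coord (toLex (Sum.inl j))) a := by
  have := EA1_coord (toLex (Sum.inl j)) (toLex (Sum.inl l))
  rw [dz, ctr_io_mul]
  congr 1
  refine (congrArg (· • a) this).trans ?_
  simp

theorem EA1_rr (j l : Fin n) (a : Λ n) : ctr ((bV n).coord (toLex (Sum.inr j))) (dzb l * a) =
    (if l = j then a else 0) - dzb l * ctr ((bV n).coord (toLex (Sum.inr j))) a := by
  have := EA1_coord (toLex (Sum.inr j)) (toLex (Sum.inr l))
  rw [dzb, ctr_io_mul]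
  congr 1
  refine (congrArg (· • a) this).trans ?_
  simp

theorem EA1_lr (j l : Fin n) (a : Λ n) : ctr ((bV n).coord (toLex (Sum.inl j))) (dzb l * a) =
    -(dzb l * ctr ((bV n).coord (toLex (Sum.inl j))) a) := by
  have := EA1_coord (toLex (Sum.inl j)) (toLex (Sum.inr l))
  rw [dzb, ctr_io_mul, ← zero_sub]
  congr 1
  refine (congrArg (· • a) this).trans ?_
  simp

theorem EA1_rl (j l : Fin n) (a : Λ n) : ctr ((bV n).coord (toLex (Sum.inr j))) (dz l * a) =
    -(dz l * ctr ((bV n).coord (toLex (Sum.inr j))) a) := by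
  have := EA1_coord (toLex (Sum.inr j)) (toLex (Sum.inl l))
  rw [dz, ctr_io_mul, ← zero_sub]
  congr 1
  refine (congrArg (· • a) this).trans ?_
  simp

theorem EA1_span {S : Set (Λ n)} {f : Λ n →ₗ[ℂ] Λ n} {N : Submodule ℂ (Λ n)}
    (h : ∀ x ∈ S, f x ∈ N) {a : Λ n} (ha : a ∈ Submodule.span ℂ S) : f a ∈ N :=
  (Submodule.span_le (p := N.comap f)).2 h ha

theorem EA1_left_zero (j : Fin n) {a : Λ n} (h : a ∈ Tp n 0 q) :
    ctr ((bV n).coord (toLex (Sum.inl j))) a = 0 := by
  induction q generalizing a with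
  | zero =>
    obtain ⟨c, rfl⟩ := mem_Tp00.1 h
    exact ctr_algebraMap _ c
  | succ q ih =>
    rw [Tp_succ_right] at h
    refine EA1_span (N := ⊥) ?_ h
    rintro _ ⟨l, b, hb, rfl⟩
    rw [EA1_lr, ih hb, mul_zero, neg_zero]
    exact zero_mem _

theorem EA1_right_zero (j : Fin n) {a : Λ n} (h : a ∈ Tp n p 0) :
    ctr ((bV n).coord (toLex (Sum.inr j))) a = 0 := by
  induction p generalizing a with
  | zero =>
    obtain ⟨c, rfl⟩ := mem_Tp00.1 h
    exact ctr_algebraMap _ c
  | succ p ih =>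
    rw [Tp_succ_left] at h
    refine EA1_span (N := ⊥) ?_ h
    rintro _ ⟨l, b, hb, rfl⟩
    rw [EA1_rl, ih hb, mul_zero, neg_zero]
    exact zero_mem _

theorem EA1_euler {g : Fin n → Λ n} {c : Fin n → Λ n →ₗ[ℂ] Λ n}
    (hg : ∀ j l, g j * g l = -(g l * g j))
    (hc : ∀ j l a, c j (g l * a) = (if l = j then a else 0) - g l * c j a) {T : Submodule ℂ (Λ n)}
    (hT : ∀ a ∈ T, ∑ j, g j * c j a = (p : ℂ) • a) {a : Λ n}
    (ha : a ∈ Submodule.span ℂ {x | ∃ j, ∃ a ∈ T, x = g j * a}) :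
    ∑ j, g j * c j a = ((p + 1 : ℕ) : ℂ) • a := by
  induction ha using Submodule.span_induction with
  | mem x hx =>
    obtain ⟨l, b, hb, rfl⟩ := hx
    have h1 : ∀ j, g j * (g l * c j b) = -(g l * (g j * c j b)) := fun j => by
      rw [← mul_assoc, hg, neg_mul, mul_assoc]
    simp only [hc, mul_sub, h1, sub_neg_eq_add, Finset.sum_add_distrib, ← Finset.mul_sum, hT b hb,
      mul_ite, mul_zero, Finset.sum_ite_eq, Finset.mem_univ, if_true, mul_smul_comm]
    rw [Nat.cast_succ, add_smul, one_smul, add_comm]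
  | zero => simp
  | add x y _ _ hx hy => simp only [map_add, mul_add, Finset.sum_add_distrib, hx, hy, smul_add]
  | smul t x _ hx =>
    simp only [map_smul, mul_smul_comm, ← Finset.smul_sum, hx]
    rw [smul_comm]

theorem ctr_Tp_left (j : Fin n) {a : Λ n} (h : a ∈ Tp n (p + 1) q) :
    ctr ((bV n).coord (toLex (Sum.inl j))) a ∈ Tp n p q := by
  induction p generalizing a with
  | zero =>
    rw [Tp_succ_left] at h
    refine EA1_span ?_ h
    rintro _ ⟨l, b, hb, rfl⟩
    rw [EA1_ll, EA1_left_zero j hb, mul_zero, sub_zero]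
    split_ifs
    exacts [hb, zero_mem _]
  | succ p ih =>
    rw [Tp_succ_left] at h
    refine EA1_span ?_ h
    rintro _ ⟨l, b, hb, rfl⟩
    rw [EA1_ll]
    refine sub_mem ?_ ?_
    · split_ifs
      exacts [hb, zero_mem _]
    · rw [Tp_succ_left]
      exact Submodule.subset_span ⟨l, _, ih hb, rfl⟩

theorem ctr_Tp_right (j : Fin n) {a : Λ n} (h : a ∈ Tp n p (q + 1)) :
    ctr ((bV n).coord (toLex (Sum.inr j))) a ∈ Tp n p q := by
  induction q generalizing a with
  | zero =>
    rw [Tp_succ_right] at h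
    refine EA1_span ?_ h
    rintro _ ⟨l, b, hb, rfl⟩
    rw [EA1_rr, EA1_right_zero j hb, mul_zero, sub_zero]
    split_ifs
    exacts [hb, zero_mem _]
  | succ q ih =>
    rw [Tp_succ_right] at h
    refine EA1_span ?_ h
    rintro _ ⟨l, b, hb, rfl⟩
    rw [EA1_rr]
    refine sub_mem ?_ ?_
    · split_ifs
      exacts [hb, zero_mem _]
    · rw [Tp_succ_right]
      exact Submodule.subset_span ⟨l, _, ih hb, rfl⟩

theorem ctr_Tp_right_zero (j : Fin n) {a : Λ n} (h : a ∈ Tp n p 0) :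
    ctr ((bV n).coord (toLex (Sum.inr j))) a = 0 := by
  exact EA1_right_zero j h

theorem ctr_Dg (u : V n →ₗ[ℂ] ℂ) {a : Λ n} (h : a ∈ Dg n (k + 1)) : ctr u a ∈ Dg n k := by
  induction k generalizing a with
  | zero =>
    rw [Dg_succ] at h
    refine EA1_span ?_ h
    rintro _ ⟨v, b, hb, rfl⟩
    obtain ⟨c, hc⟩ := mem_Tp00.1 (Dg_zero (n := n) ▸ hb)
    rw [ctr_io_mul]
    refine sub_mem (Submodule.smul_mem _ _ hb) ?_
    rw [hc, ctr_algebraMap, mul_zero]
    exact zero_mem _
  | succ k ih =>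
    rw [Dg_succ] at h
    refine EA1_span ?_ h
    rintro _ ⟨v, b, hb, rfl⟩
    rw [ctr_io_mul]
    refine sub_mem (Submodule.smul_mem _ _ hb) ?_
    rw [Dg_succ]
    exact Submodule.subset_span ⟨v, _, ih hb, rfl⟩

/-- Euler identities. -/
theorem sum_dz_ctr {a : Λ n} (h : a ∈ Tp n p q) :
    ∑ j, dz j * ctr ((bV n).coord (toLex (Sum.inl j))) a = (p : ℂ) • a := by
  induction p generalizing a with
  | zero => simp only [EA1_left_zero _ h, mul_zero, Finset.sum_const_zero, Nat.cast_zero, zero_smul]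
  | succ p ih =>
    rw [Tp_succ_left] at h
    exact EA1_euler (c := fun j => ctr ((bV n).coord (toLex (Sum.inl j))))
      (fun _ _ => eq_neg_of_add_eq_zero_left (io_add_swap _ _)) EA1_ll (fun _ => ih) h

theorem sum_dzb_ctr {a : Λ n} (h : a ∈ Tp n p q) :
    ∑ j, dzb j * ctr ((bV n).coord (toLex (Sum.inr j))) a = (q : ℂ) • a := by
  induction q generalizing a with
  | zero =>
    simp only [EA1_right_zero _ h, mul_zero, Finset.sum_const_zero, Nat.cast_zero, zero_smul]
  | succ q ih =>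
    rw [Tp_succ_right] at h
    exact EA1_euler (c := fun j => ctr ((bV n).coord (toLex (Sum.inr j))))
      (fun _ _ => eq_neg_of_add_eq_zero_left (io_add_swap _ _)) EA1_rr (fun _ => ih) h

/-- Division by a non-zero one-form. -/
theorem exists_div {γ a : Λ n} (hγ : γ ∈ Dg n 1) (h0 : γ ≠ 0) (h : γ * a = 0) :
    ∃ b, a = γ * b := by
  obtain ⟨v, rfl⟩ := mem_Dg1.1 hγ
  have hv : v ≠ 0 := fun e => h0 (by rw [e, map_zero])
  obtain ⟨u, hu⟩ : ∃ u : V n →ₗ[ℂ] ℂ, u v ≠ 0 := by
    by_contra hn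
    exact hv ((Module.forall_dual_apply_eq_zero_iff ℂ v).1 fun u =>
      not_not.1 fun e => hn ⟨u, e⟩)
  have h1 := ctr_io_mul u v a
  rw [h, map_zero, eq_comm, sub_eq_zero] at h1
  refine ⟨(u v)⁻¹ • ctr u a, ?_⟩
  rw [mul_smul_comm, ← h1, inv_smul_smul₀ hu]

/-- A form of holomorphic degree less than `n` that is killed by all `dz j` is zero. -/
theorem eq_zero_of_dz {a : Λ n} (ha : a ∈ Tp n p q) (hp : p < n) (h : ∀ j, dz j * a = 0) :
    a = 0 := by
  have h1 : ∀ j, dz j * ctr ((bV n).coord (toLex (Sum.inl j))) a = a := fun j => by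
    have := EA1_ll j j a
    rw [h, map_zero, if_pos rfl, eq_comm, sub_eq_zero] at this
    exact this.symm
  have h2 := sum_dz_ctr ha
  simp only [h1, Finset.sum_const, Finset.card_univ, Fintype.card_fin] at h2
  rw [← Nat.cast_smul_eq_nsmul ℂ, ← sub_eq_zero, ← sub_smul, smul_eq_zero, sub_eq_zero,
    Nat.cast_inj] at h2
  exact h2.resolve_left hp.ne'

end

end Pool.Agent.MP_1c689d_ag.K0

end

section

/-! Pull-back, conjugation and the top coefficient. -/

set_option autoImplicit false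

open Complex Filter Topology Set MeasureTheory
open scoped ComplexConjugate ContDiff ENNReal

namespace Pool.Agent.MP_1c689d_ag.K0

noncomputable section

variable {n m k p q : ℕ}

theorem EA2a_Tp_ind {C : ℕ → ℕ → Λ n → Prop} (h0 : ∀ c, C 0 0 (algebraMap ℂ (Λ n) c))
    (hz : ∀ p q, C p q 0) (ha : ∀ p q a b, C p q a → C p q b → C p q (a + b))
    (hs : ∀ p q (c : ℂ) a, C p q a → C p q (c • a))
    (hl : ∀ p q j a, C p q a → C (p + 1) q (dz j * a))
    (hr : ∀ p q j a, C p q a → C p (q + 1) (dzb j * a)) {a : Λ n} (h : a ∈ Tp n p q) :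
    C p q a := by
  induction p generalizing a with
  | zero =>
    induction q generalizing a with
    | zero =>
      obtain ⟨c, rfl⟩ := mem_Tp00.1 h
      exact h0 c
    | succ q ih =>
      rw [Tp_succ_right] at h
      refine Submodule.span_induction (p := fun x _ => C 0 (q + 1) x) ?_ (hz _ _)
        (fun x y _ _ => ha _ _ x y) (fun c x _ => hs _ _ c x) h
      rintro _ ⟨j, b, hb, rfl⟩
      exact hr _ _ j b (ih hb)
  | succ p ih =>
    rw [Tp_succ_left] at h
    refine Submodule.span_induction (p := fun x _ => C (p + 1) q x) ?_ (hz _ _)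
      (fun x y _ _ => ha _ _ x y) (fun c x _ => hs _ _ c x) h
    rintro _ ⟨j, b, hb, rfl⟩
    exact hl _ _ j b (ih hb)

theorem EA2a_Dg_ind {C : ℕ → Λ n → Prop} (h0 : ∀ c, C 0 (algebraMap ℂ (Λ n) c))
    (hz : ∀ k, C k 0) (ha : ∀ k a b, C k a → C k b → C k (a + b))
    (hs : ∀ k (c : ℂ) a, C k a → C k (c • a))
    (hl : ∀ k v a, C k a → C (k + 1) (io v * a)) {a : Λ n} (h : a ∈ Dg n k) : C k a := by
  induction k generalizing a with
  | zero =>
    rw [Dg_zero] at h
    obtain ⟨c, rfl⟩ := mem_Tp00.1 h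
    exact h0 c
  | succ k ih =>
    rw [Dg_succ] at h
    refine Submodule.span_induction (p := fun x _ => C (k + 1) x) ?_ (hz _)
      (fun x y _ _ => ha _ x y) (fun c x _ => hs _ c x) h
    rintro _ ⟨v, b, hb, rfl⟩
    exact hl _ v b (ih hb)

theorem EA2a_all_ind {C : Λ n → Prop} (h : ∀ p q a, a ∈ Tp n p q → C a)
    (ha : ∀ a b, C a → C b → C (a + b)) (a : Λ n) : C a := by
  rw [← sum_prj_all a]
  exact Finset.sum_induction _ C ha (h 0 0 0 (zero_mem _)) fun x _ => h _ _ _ (prj_mem a)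

theorem EA2a_vc_vc (v : V n) : vc (vc v) = v := by
  ext1 z
  simp

theorem EA2a_mul10 {a b : Λ n} (ha : a ∈ Tp n 1 0) (hb : b ∈ Tp n p q) :
    a * b ∈ Tp n (p + 1) q := by
  have h := Tp_mul ha hb
  rwa [zero_add, add_comm] at h

theorem EA2a_mul01 {a b : Λ n} (ha : a ∈ Tp n 0 1) (hb : b ∈ Tp n p q) :
    a * b ∈ Tp n p (q + 1) := by
  have h := Tp_mul ha hb
  rwa [zero_add, add_comm] at h

theorem EA2a_cj_Tp {a : Λ n} (h : a ∈ Tp n p q) : cj a ∈ Tp n q p := by
  refine EA2a_Tp_ind (C := fun p q a => cj a ∈ Tp n q p) (fun c => ?_) (fun p q => ?_)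
    (fun p q a b ha hb => ?_) (fun p q c a ha => ?_) (fun p q j a ha => ?_)
    (fun p q j a ha => ?_) h
  · rw [cj_algebraMap]
    exact algebraMap_mem_Tp _
  · rw [map_zero]
    exact zero_mem _
  · rw [map_add]
    exact add_mem ha hb
  · rw [cj_smul]
    exact Submodule.smul_mem _ _ ha
  · rw [map_mul, dz, cj_io]
    exact EA2a_mul01 (dzb_mem j) ha
  · rw [map_mul, dzb, cj_io, EA2a_vc_vc]
    exact EA2a_mul10 (dz_mem j) ha

theorem EA2a_lm_dz (B : E n →L[ℂ] E m) (j : Fin m) :
    io ((vz j).comp (B.restrictScalars ℝ)) ∈ Tp n 1 0 :=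
  io_mem_Tp10.2 ⟨(ContinuousLinearMap.proj (R := ℂ) (φ := fun _ => ℂ) j).comp B, rfl⟩

theorem EA2a_contDiff_lm (a : Λ m) : ContDiff ℝ ∞ fun A : E n →L[ℝ] E m => lm A a := by
  have : FiniteDimensional ℂ (V n) := Module.Finite.of_basis (bV n)
  refine ext_ind (C := fun a => ContDiff ℝ ∞ fun A : E n →L[ℝ] E m => lm A a) (fun c => ?_)
    (fun v => ?_) (fun a b ha hb => ?_) (fun a b ha hb => ?_) a
  · simp only [AlgHom.commutes]
    exact contDiff_const
  · simp only [lm_io]
    exact ((LinearMap.toContinuousLinearMap (io (n := n))).contDiff.restrict_scalars ℝ).comp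
      (contDiff_const.clm_comp contDiff_id)
  · simp only [map_mul]
    exact ha.mul hb
  · simp only [map_add]
    exact ha.add hb

theorem lm_comp (A : E n →L[ℝ] E m) (B : E m →L[ℝ] E k) (a : Λ k) :
    lm A (lm B a) = lm (B.comp A) a := by
  refine ext_ind (C := fun a => lm A (lm B a) = lm (B.comp A) a) (fun c => ?_) (fun v => ?_)
    (fun a b ha hb => ?_) (fun a b ha hb => ?_) a
  · simp only [AlgHom.commutes]
  · rw [lm_io, lm_io, lm_io]
    rfl
  · simp only [map_mul, ha, hb]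
  · simp only [map_add, ha, hb]

theorem lm_id (a : Λ n) : lm (ContinuousLinearMap.id ℝ (E n)) a = a := by
  refine ext_ind (C := fun a => lm (ContinuousLinearMap.id ℝ (E n)) a = a) (fun c => ?_)
    (fun v => ?_) (fun a b ha hb => ?_) (fun a b ha hb => ?_) a
  · simp only [AlgHom.commutes]
  · rw [lm_io]
    rfl
  · simp only [map_mul, ha, hb]
  · simp only [map_add, ha, hb]

theorem lm_Dg (A : E n →L[ℝ] E m) {a : Λ m} (h : a ∈ Dg m k) : lm A a ∈ Dg n k := by
  refine EA2a_Dg_ind (C := fun k a => lm A a ∈ Dg n k) (fun c => ?_) (fun k => ?_)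
    (fun k a b ha hb => ?_) (fun k c a ha => ?_) (fun k v a ha => ?_) h
  · rw [AlgHom.commutes, Dg_zero]
    exact algebraMap_mem_Tp _
  · rw [map_zero]
    exact zero_mem _
  · rw [map_add]
    exact add_mem ha hb
  · rw [map_smul]
    exact Submodule.smul_mem _ _ ha
  · rw [map_mul, lm_io, add_comm]
    exact Dg_mul (io_mem _) ha

theorem lm_Tp (B : E n →L[ℂ] E m) {a : Λ m} (h : a ∈ Tp m p q) :
    lm (B.restrictScalars ℝ) a ∈ Tp n p q := by
  refine EA2a_Tp_ind (C := fun p q a => lm (B.restrictScalars ℝ) a ∈ Tp n p q) (fun c => ?_)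
    (fun p q => ?_) (fun p q a b ha hb => ?_) (fun p q c a ha => ?_) (fun p q j a ha => ?_)
    (fun p q j a ha => ?_) h
  · rw [AlgHom.commutes]
    exact algebraMap_mem_Tp _
  · rw [map_zero]
    exact zero_mem _
  · rw [map_add]
    exact add_mem ha hb
  · rw [map_smul]
    exact Submodule.smul_mem _ _ ha
  · rw [map_mul, dz, lm_io]
    exact EA2a_mul10 (EA2a_lm_dz B j) ha
  · rw [map_mul, dzb, lm_io]
    have h1 := EA2a_cj_Tp (EA2a_lm_dz B j)
    rw [cj_io] at h1
    exact EA2a_mul01 h1 ha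

theorem lm_prj (B : E n →L[ℂ] E m) (a : Λ m) :
    lm (B.restrictScalars ℝ) (prj p q a) = prj p q (lm (B.restrictScalars ℝ) a) := by
  refine EA2a_all_ind (C := fun a => lm (B.restrictScalars ℝ) (prj p q a) =
    prj p q (lm (B.restrictScalars ℝ) a)) (fun p' q' a ha => ?_) (fun a b ha hb => ?_) a
  · by_cases h : (p, q) = (p', q')
    · obtain ⟨rfl, rfl⟩ := Prod.ext_iff.1 h
      rw [prj_of_mem ha, prj_of_mem (lm_Tp B ha)]
    · rw [prj_of_ne ha h, prj_of_ne (lm_Tp B ha) h, map_zero]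
  · simp only [map_add, ha, hb]

theorem lm_cj (A : E n →L[ℝ] E m) (a : Λ m) : lm A (cj a) = cj (lm A a) := by
  refine ext_ind (C := fun a => lm A (cj a) = cj (lm A a)) (fun c => ?_) (fun v => ?_)
    (fun a b ha hb => ?_) (fun a b ha hb => ?_) a
  · simp only [AlgHom.commutes, cj_algebraMap]
  · rw [cj_io, lm_io, lm_io, cj_io]
    rfl
  · simp only [map_mul, ha, hb]
  · simp only [map_add, ha, hb]

theorem lm_gi (A : E n →L[ℝ] E m) (a : Λ m) : lm A (gi a) = gi (lm A a) := by
  rw [gi, gi, lm_comp, lm_comp, ContinuousLinearMap.neg_comp, ContinuousLinearMap.comp_neg,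
    ContinuousLinearMap.id_comp, ContinuousLinearMap.comp_id]

/-- Write `a` in the basis `bL`; each basis element is a product of generators. -/
theorem contDiff_lm : ContDiff ℝ ∞ fun x : (E n →L[ℝ] E m) × Λ m => lm x.1 x.2 := by
  have h : (fun x : (E n →L[ℝ] E m) × Λ m => lm x.1 x.2) =
      fun x => ∑ S, (bL m).coord S x.2 • lm x.1 (bL m S) := by
    funext x
    conv_lhs => rw [← (bL m).sum_repr x.2]
    simp only [map_sum, map_smul, Module.Basis.coord_apply]
  rw [h]
  refine ContDiff.sum fun S _ => ?_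
  have h1 : ContDiff ℝ ∞ fun x : (E n →L[ℝ] E m) × Λ m => (bL m).coord S x.2 :=
    ((LinearMap.toContinuousLinearMap ((bL m).coord S)).contDiff.restrict_scalars ℝ).comp
      contDiff_snd
  have h2 : ContDiff ℝ ∞ fun x : (E n →L[ℝ] E m) × Λ m => lm x.1 (bL m S) :=
    (EA2a_contDiff_lm (bL m S)).comp contDiff_fst
  exact h1.smul h2

theorem lm_inj_of_surj (A : E n →L[ℝ] E m) (h : Function.Surjective A) :
    Function.Injective (lm A) := by
  obtain ⟨B, hB⟩ := (A : E n →ₗ[ℝ] E m).exists_rightInverse_of_surjective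
    (LinearMap.range_eq_top.2 h)
  have h1 : A.comp (LinearMap.toContinuousLinearMap B) = ContinuousLinearMap.id ℝ (E m) :=
    ContinuousLinearMap.ext fun x => LinearMap.congr_fun hB x
  refine Function.LeftInverse.injective (g := lm (LinearMap.toContinuousLinearMap B)) fun a => ?_
  rw [lm_comp, h1, lm_id]

theorem lm_surj_of_inj (A : E n →L[ℝ] E m) (h : Function.Injective A) :
    Function.Surjective (lm A) := by
  obtain ⟨B, hB⟩ := (A : E n →ₗ[ℝ] E m).exists_leftInverse_of_injective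
    (LinearMap.ker_eq_bot.2 h)
  have h1 : (LinearMap.toContinuousLinearMap B).comp A = ContinuousLinearMap.id ℝ (E n) :=
    ContinuousLinearMap.ext fun x => LinearMap.congr_fun hB x
  refine fun a => ⟨lm (LinearMap.toContinuousLinearMap B) a, ?_⟩
  rw [lm_comp, h1, lm_id]

/-- The kernel of the restriction to a complex hyperplane on forms of type `(p, 0)`. -/
theorem mul_eq_zero_of_lm (B : E n →L[ℂ] E (n + 1)) (hB : Function.Injective B) {γ a : Λ (n + 1)}
    (hγ : γ ∈ Tp (n + 1) 1 0) (h0 : γ ≠ 0) (h1 : lm (B.restrictScalars ℝ) γ = 0)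
    (ha : a ∈ Tp (n + 1) p 0) (h2 : lm (B.restrictScalars ℝ) a = 0) : γ * a = 0 := by
  have hγ1 : γ ∈ Dg (n + 1) (1 + 0) := (Tp_le_Dg : Tp (n + 1) 1 0 ≤ Dg (n + 1) (1 + 0)) hγ
  rw [add_zero] at hγ1
  obtain ⟨v, rfl⟩ := mem_Dg1.1 hγ1
  obtain ⟨u, rfl⟩ := io_mem_Tp10.1 hγ
  rw [lm_io, ← map_zero io] at h1
  have h1' := io_inj h1
  have huB : ∀ x, u (B x) = 0 := fun x => congrArg (fun w : V n => w x) h1'
  have hu : (u : E (n + 1) →ₗ[ℂ] ℂ) ≠ 0 := fun h => h0 (by
    rw [show u.restrictScalars ℝ = 0 from ContinuousLinearMap.ext fun x => LinearMap.congr_fun h x,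
      map_zero])
  have hs := LinearMap.surjective hu
  obtain ⟨e, he⟩ := hs 1
  have hker : LinearMap.range (B : E n →ₗ[ℂ] E (n + 1)) = LinearMap.ker (u : E (n + 1) →ₗ[ℂ] ℂ) := by
    refine Submodule.eq_of_le_of_finrank_le ?_ ?_
    · rintro _ ⟨x, rfl⟩
      exact huB x
    · have k := LinearMap.finrank_range_add_finrank_ker (u : E (n + 1) →ₗ[ℂ] ℂ)
      rw [LinearMap.range_eq_top.2 hs, finrank_top, Module.finrank_self, Module.finrank_fin_fun] at k
      rw [LinearMap.finrank_range_of_inj hB, Module.finrank_fin_fun]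
      omega
  obtain ⟨C, hC⟩ := (B : E n →ₗ[ℂ] E (n + 1)).exists_leftInverse_of_injective
    (LinearMap.ker_eq_bot.2 hB)
  set Q : E (n + 1) →L[ℂ] E (n + 1) := ContinuousLinearMap.id ℂ _ - u.smulRight e with hQ
  have hBQ : (B.restrictScalars ℝ).comp
      (((LinearMap.toContinuousLinearMap C).comp Q).restrictScalars ℝ) = Q.restrictScalars ℝ := by
    ext1 x
    have k : Q x ∈ LinearMap.range (B : E n →ₗ[ℂ] E (n + 1)) := by
      rw [hker, LinearMap.mem_ker]
      change u (x - u x • e) = 0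
      rw [map_sub, map_smul, show u e = 1 from he, smul_eq_mul, mul_one, sub_self]
    obtain ⟨y, hy⟩ := k
    change B (C (Q x)) = Q x
    rw [← hy, show C ((B : E n →ₗ[ℂ] E (n + 1)) y) = y from LinearMap.congr_fun hC y]
    rfl
  have h3 : lm (Q.restrictScalars ℝ) a = 0 := by rw [← hBQ, ← lm_comp, h2, map_zero]
  have h4 := EA2a_Tp_ind (C := fun _ q a => q = 0 → io (u.restrictScalars ℝ) *
    lm (Q.restrictScalars ℝ) a = io (u.restrictScalars ℝ) * a) (fun c _ => ?_) (fun _ _ _ => ?_)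
    (fun _ _ a b ha hb h => ?_) (fun _ _ c a ha h => ?_) (fun _ _ j a ha h => ?_)
    (fun _ _ _ _ _ h => absurd h (Nat.succ_ne_zero _)) ha rfl
  · rw [← h4, h3, mul_zero]
  · rw [AlgHom.commutes]
  · rw [map_zero]
  · rw [map_add, mul_add, mul_add, ha h, hb h]
  · rw [map_smul, mul_smul_comm, mul_smul_comm, ha h]
  · have k : (vz j).comp (Q.restrictScalars ℝ) = vz j - e j • u.restrictScalars ℝ := by
      ext1 x
      change x j - u x * e j = x j - e j * u x
      rw [mul_comm]
    have k2 := eq_neg_of_add_eq_zero_left (io_add_swap (u.restrictScalars ℝ) (vz j))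
    rw [map_mul, dz, lm_io, k, map_sub, map_smul, ← mul_assoc, ← mul_assoc, mul_sub,
      mul_smul_comm, io_sq, smul_zero, sub_zero, k2, neg_mul, neg_mul, mul_assoc, mul_assoc, ha h]

theorem cj_cj (a : Λ n) : cj (cj a) = a := by
  refine ext_ind (C := fun a => cj (cj a) = a) (fun c => ?_) (fun v => ?_)
    (fun a b ha hb => ?_) (fun a b ha hb => ?_) a
  · rw [cj_algebraMap, cj_algebraMap, conj_conj]
  · rw [cj_io, cj_io, EA2a_vc_vc]
  · simp only [map_mul, ha, hb]
  · simp only [map_add, ha, hb]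

theorem cj_dz (j : Fin n) : cj (dz j) = dzb j := by
  rw [dz, cj_io, dzb]

theorem cj_dzb (j : Fin n) : cj (dzb j) = dz j := by
  rw [dzb, cj_io, EA2a_vc_vc, dz]

theorem cj_Tp {a : Λ n} (h : a ∈ Tp n p q) : cj a ∈ Tp n q p := by
  exact EA2a_cj_Tp h

theorem cj_Dg {a : Λ n} (h : a ∈ Dg n k) : cj a ∈ Dg n k := by
  refine EA2a_Dg_ind (C := fun k a => cj a ∈ Dg n k) (fun c => ?_) (fun k => ?_)
    (fun k a b ha hb => ?_) (fun k c a ha => ?_) (fun k v a ha => ?_) h
  · rw [cj_algebraMap, Dg_zero]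
    exact algebraMap_mem_Tp _
  · rw [map_zero]
    exact zero_mem _
  · rw [map_add]
    exact add_mem ha hb
  · rw [cj_smul]
    exact Submodule.smul_mem _ _ ha
  · rw [map_mul, cj_io, add_comm]
    exact Dg_mul (io_mem _) ha

theorem cj_prj (a : Λ n) : cj (prj p q a) = prj q p (cj a) := by
  refine EA2a_all_ind (C := fun a => cj (prj p q a) = prj q p (cj a)) (fun p' q' a ha => ?_)
    (fun a b ha hb => ?_) a
  · by_cases h : (p, q) = (p', q')
    · obtain ⟨rfl, rfl⟩ := Prod.ext_iff.1 h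
      rw [prj_of_mem ha, prj_of_mem (cj_Tp ha)]
    · rw [prj_of_ne ha h, prj_of_ne (cj_Tp ha) fun h' => h (congrArg Prod.swap h'), map_zero]
  · simp only [map_add, ha, hb]

theorem cj_gi (a : Λ n) : cj (gi a) = gi (cj a) := by
  exact (lm_cj _ a).symm

theorem exists_cjL : ∃ T : Λ n ≃L[ℝ] Λ n, ∀ a, T a = cj a := by
  let T : Λ n ≃ₗ[ℝ] Λ n :=
    { toFun := cj
      invFun := cj
      map_add' := map_add cj
      map_smul' := fun r a => by
        rw [RingHom.id_apply, ← Complex.coe_smul, cj_smul, conj_ofReal, Complex.coe_smul]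
      left_inv := cj_cj
      right_inv := cj_cj }
  exact ⟨T.toContinuousLinearEquiv, fun _ => rfl⟩

end

end Pool.Agent.MP_1c689d_ag.K0

end
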