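import Pool.Agent.Mg.F1c689d.Gbeb1d0

set_option linter.all false


section

/-! Partitions of unity. -/

set_option autoImplicit false

open Complex Filter Topology Set MeasureTheory
open scoped ComplexConjugate ContDiff ENNReal

namespace Pool.Agent.MP_1c689d_ag.K0

noncomputable section

variable {n m k : ℕ} {X Y : Type} [TopologicalSpace X] [TopologicalSpace Y] [Mf n X] [Mf m Y]

/-- A real smooth function with compact support. -/
structure Bump (n : ℕ) [Mf n X] (ρ : X → ℂ) : Prop where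
  sm : Sm 1 (fn n ρ) univ
  cs : HasCompactSupport ρ
  mem : ∀ y, ∃ t : ℝ, 0 ≤ t ∧ t ≤ 1 ∧ ρ y = t

theorem POU_bump {h : X → ℝ} {L : Set X} (hL : IsCompact L)
    (hs : ContMDiff (modelWithCornersSelf ℝ (E n)) (modelWithCornersSelf ℝ ℝ) ∞ h)
    (h0 : ∀ y ∉ L, h y = 0) (h1 : ∀ y, 0 ≤ h y ∧ h y ≤ 1) : Bump n fun y => (h y : ℂ) where
  sm := fun _ _ => smAt_fn_iff.2 (Eventually.of_forall fun y =>
    (Complex.ofRealCLM.contMDiff.comp hs).contMDiffAt)
  cs := HasCompactSupport.intro hL fun y hy => by rw [h0 y hy, ofReal_zero]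
  mem := fun y => ⟨h y, (h1 y).1, (h1 y).2, rfl⟩

/-- Use `SmoothPartitionOfUnity.exists_isSubordinate` (or bump functions) and `mf_isManifold`. -/
theorem exists_pou {ι : Type} {K : Set X} (hK : IsCompact K) (U : ι → Set X)
    (hU : ∀ i, IsOpen (U i)) (hc : K ⊆ ⋃ i, U i) :
    ∃ (S : Finset ι) (ρ : ι → X → ℂ), (∀ i, Bump n (ρ i)) ∧ (∀ i, tsupport (ρ i) ⊆ U i) ∧
      (∀ i ∉ S, ρ i = 0) ∧ Bump n (∑ i ∈ S, ρ i) ∧ ∀ᶠ y in 𝓝ˢ K, ∑ i ∈ S, ρ i y = 1 := by
  classical
  obtain ⟨K1, hK1, h1, h1U⟩ := exists_compact_between hK (isOpen_iUnion hU) hc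
  obtain ⟨K2, hK2, h2⟩ := exists_compact_superset hK1
  obtain ⟨f, hf⟩ := SmoothPartitionOfUnity.exists_isSubordinate (modelWithCornersSelf ℝ (E n))
    hK1.isClosed U hU h1U
  obtain ⟨g, hg0, hg1, hg⟩ := exists_contMDiffMap_zero_one_of_isClosed
    (modelWithCornersSelf ℝ (E n)) (n := ⊤) (s := (interior K2)ᶜ) (t := K1)
    isOpen_interior.isClosed_compl hK1.isClosed (disjoint_compl_left_iff_subset.2 h2)
  have hgz : ∀ y ∉ K2, g y = 0 := fun y hy => hg0 fun hy' => hy (interior_subset hy')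
  have hfin := f.locallyFinite.finite_nonempty_inter_compact hK2
  have hz : ∀ i ∉ hfin.toFinset, ∀ y ∈ K2, f i y = 0 := fun i hi y hy => by
    by_contra hne
    exact hi (hfin.mem_toFinset.2 ⟨y, hne, hy⟩)
  have hsum : ∀ y, ∑ i ∈ hfin.toFinset, g y * f i y = g y * ∑ᶠ i, f i y := fun y => by
    by_cases hy : y ∈ K2
    · rw [← Finset.mul_sum, finsum_eq_sum_of_support_subset]
      intro i hi
      by_contra hi'
      exact hi (hz i hi' y hy)
    · simp [hgz y hy]
  have hsumC : (∑ i ∈ hfin.toFinset, fun y => ((g y * f i y : ℝ) : ℂ)) =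
      fun y => ((g y * ∑ᶠ i, f i y : ℝ) : ℂ) := by
    funext y
    rw [Finset.sum_apply, ← hsum y, ofReal_sum]
  refine ⟨hfin.toFinset, fun i y => ((g y * f i y : ℝ) : ℂ), fun i => ?_, fun i => ?_,
    fun i hi => ?_, ?_, ?_⟩
  · exact POU_bump hK2 (g.contMDiff.mul (f i).contMDiff) (fun y hy => by rw [hgz y hy, zero_mul])
      fun y => ⟨mul_nonneg (hg y).1 (f.nonneg i y),
        mul_le_one₀ (hg y).2 (f.nonneg i y) (f.le_one i y)⟩
  · refine (closure_mono fun y hy => ?_).trans (hf i)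
    intro h0
    exact hy (by simp [h0])
  · funext y
    by_cases hy : y ∈ K2
    · simp [hz i hi y hy]
    · simp [hgz y hy]
  · rw [hsumC]
    exact POU_bump hK2 (g.contMDiff.mul f.contMDiff_sum) (fun y hy => by rw [hgz y hy, zero_mul])
      fun y => ⟨mul_nonneg (hg y).1 (f.sum_nonneg y),
        mul_le_one₀ (hg y).2 (f.sum_nonneg y) (f.sum_le_one y)⟩
  · filter_upwards [subset_interior_iff_mem_nhdsSet.1 h1] with y hy
    rw [← ofReal_sum, hsum y, f.sum_eq_one hy, hg1 hy]
    simp

theorem exists_cutoff {K U : Set X} (hK : IsCompact K) (hU : IsOpen U) (h : K ⊆ U) :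
    ∃ χ : X → ℂ, Bump n χ ∧ tsupport χ ⊆ U ∧ ∀ᶠ y in 𝓝ˢ K, χ y = 1 := by
  obtain ⟨S, ρ, h1, h2, h3, -, h5⟩ := exists_pou (n := n) hK (fun _ : Unit => U) (fun _ => hU)
    (h.trans (subset_iUnion (fun _ : Unit => U) ()))
  refine ⟨ρ (), h1 (), h2 (), h5.mono fun y hy => ?_⟩
  rw [Finset.sum_subset S.subset_univ fun i _ hi => by rw [h3 i hi]; rfl] at hy
  simpa using hy

/-- A form that is smooth near a compact set agrees near it with a globally smooth form. -/
theorem exists_global {G : Ga X} {α : Fm n X} {K U : Set X} (hK : IsCompact K) (hU : IsOpen U)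
    (h : K ⊆ U) (hα : Sm G α U) : ∃ χ : X → ℂ, Bump n χ ∧ tsupport χ ⊆ U ∧
      Sm G (χ • α) univ ∧ HasCompactSupport (χ • α) ∧ tsupport (χ • α) ⊆ U ∧
      ∀ᶠ y in 𝓝ˢ K, (χ • α) y = α y := by
  obtain ⟨χ, h1, h2, h3⟩ := exists_cutoff (n := n) hK hU h
  refine ⟨χ, h1, h2, fun p hp => SmAt.of_tsupport hα (h1.sm p hp) h2, h1.cs.smul_right,
    (tsupport_smul_subset_left χ α).trans h2, h3.mono fun y hy => ?_⟩
  rw [Pi.smul_apply', hy, one_smul]

/-- Gluing of local solutions of a pointwise linear system. -/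
theorem glue_solve {ι κ : Type} [Fintype ι] {K : Set X} (hK : IsCompact K) (G : ι → Ga X)
    (T : ι → Submodule ℂ (Λ n)) (A : X → (ι → Λ n) →ₗ[ℂ] (κ → Λ n)) (F : X → κ → Λ n)
    (h : ∀ p ∈ K, ∃ β : ι → Fm n X, (∀ i, ∀ᶠ y in 𝓝 p, SmAt (G i) (β i) y) ∧
      (∀ i y, β i y ∈ T i) ∧ ∀ᶠ y in 𝓝 p, A y (fun i => β i y) = F y) :
    ∃ β : ι → Fm n X, (∀ i, Sm (G i) (β i) univ) ∧ (∀ i y, β i y ∈ T i) ∧
      ∀ᶠ y in 𝓝ˢ K, A y (fun i => β i y) = F y := by
  have h' : ∀ p : K, ∃ (β : ι → Fm n X) (O : Set X), IsOpen O ∧ p.1 ∈ O ∧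
      (∀ i, Sm (G i) (β i) O) ∧ (∀ i y, β i y ∈ T i) ∧
      ∀ y ∈ O, A y (fun i => β i y) = F y := fun p => by
    obtain ⟨β, h1, h2, h3⟩ := h p.1 p.2
    obtain ⟨O, hO, hO1, hO2⟩ := eventually_nhds_iff.1 ((eventually_all.2 h1).and h3)
    exact ⟨β, O, hO1, hO2, fun i y hy => (hO y hy).1 i, h2, fun y hy => (hO y hy).2⟩
  choose β O hO hpO hs hT hA using h'
  obtain ⟨S, ρ, h1, h2, -, -, h5⟩ := exists_pou (n := n) hK O hO
    fun p hp => mem_iUnion.2 ⟨⟨p, hp⟩, hpO ⟨p, hp⟩⟩
  refine ⟨fun i => ∑ p ∈ S, ρ p • β p i, fun i y hy => SmAt.sum fun p _ =>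
    SmAt.of_tsupport (hs p i) ((h1 p).sm y hy) (h2 p), fun i y => ?_, h5.mono fun y hy => ?_⟩
  · beta_reduce
    rw [Finset.sum_apply]
    exact (T i).sum_mem fun p _ => (T i).smul_mem _ (hT p i y)
  · have e : (fun i => (∑ p ∈ S, ρ p • β p i) y) = ∑ p ∈ S, ρ p y • fun i => β p i y := by
      funext i
      rw [Finset.sum_apply, Finset.sum_apply]
      rfl
    rw [e, map_sum]
    calc ∑ p ∈ S, A y (ρ p y • fun i => β p i y) = ∑ p ∈ S, ρ p y • F y := by
          refine Finset.sum_congr rfl fun p _ => ?_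
          rw [map_smul]
          by_cases h0 : ρ p y = 0
          · rw [h0, zero_smul, zero_smul]
          · rw [hA p y (h2 p (subset_tsupport _ h0))]
      _ = F y := by rw [← Finset.sum_smul, hy, one_smul]

end

end Pool.Agent.MP_1c689d_ag.K0

end

section

/-! Integration of forms: charts. -/

set_option autoImplicit false

open Complex Filter Topology Set MeasureTheory
open scoped ComplexConjugate ContDiff ENNReal

namespace Pool.Agent.MP_1c689d_ag.K0

noncomputable section

variable {n m k : ℕ} {X Y : Type} [TopologicalSpace X] [TopologicalSpace Y] [Mf n X] [Mf m Y]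
  [MeasurableSpace X] [BorelSpace X]

variable {α β : Fm n X}

section Aux

omit [MeasurableSpace X] [BorelSpace X]

theorem INT1a_ix (y : X) : y ∈ (ch n (ix n y)).source := (exists_ix n X).choose_spec.1 y

theorem INT1a_count : Countable (range (ix n : X → X)) :=
  (exists_ix n X).choose_spec.2.1.to_subtype

theorem INT1a_sub (x : X) : {y | ix n y = x} ⊆ (ch n x).source := by
  rintro y rfl
  exact INT1a_ix y

theorem INT1a_det_nonneg {Z : Type} [TopologicalSpace Z] [Mf n Z] {f : X → Z} {p : X}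
    (h : HMap f p) : 0 ≤ (df f p).det := by
  obtain ⟨B, hB⟩ := h.df_complex
  rw [hB, det_restrict]
  exact normSq_nonneg _

theorem INT1a_det_ne {Z : Type} [TopologicalSpace Z] [Mf n Z] {f : X → Z} {u : Z → X} {p : X}
    (hu : HMap u (f p)) (hf : HMap f p) (h : u ∘ f =ᶠ[𝓝 p] id) :
    (df u (f p)).det ≠ 0 ∧ (df f p).det ≠ 0 := by
  have h1 : (df u (f p)).comp (df f p) = ContinuousLinearMap.id ℝ (E n) := by
    rw [← df_comp hu hf, df_congr h, df_id]
  have h2 : (df u (f p)).det * (df f p).det = 1 := by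
    have h3 := congrArg ContinuousLinearMap.det h1
    exact (LinearMap.det_comp _ _).symm.trans (h3.trans LinearMap.det_id)
  exact ⟨left_ne_zero_of_mul_eq_one h2, right_ne_zero_of_mul_eq_one h2⟩

theorem INT1a_hmap {e : OpenPartialHomeomorph X (E n)} (he : IsCh e) {x : X} {w : E n}
    (hw : w ∈ e.target) (hx : e.symm w ∈ (ch n x).source) : HMap (ch n x ∘ e.symm) w :=
  ((isCh_ch x).1 _ hx).comp (he.2 w hw)

theorem INT1a_ev {e : OpenPartialHomeomorph X (E n)} {x : X} {w : E n}
    (hw : w ∈ e.target) (hx : e.symm w ∈ (ch n x).source) :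
    (ch n x).symm ∘ (ch n x ∘ e.symm) =ᶠ[𝓝 w] e.symm :=
  (e.continuousAt_symm hw).eventually ((ch n x).eventually_left_inverse hx)

/-- The density of the reference measure in the chart `e`. -/
def INT1aJ (e : OpenPartialHomeomorph X (E n)) (w : E n) : NNReal :=
  Real.toNNReal |(fderiv ℝ (ch n (ix n (e.symm w)) ∘ e.symm) w).det|

theorem INT1a_J_ne {e : OpenPartialHomeomorph X (E n)} (he : IsCh e) {w : E n}
    (hw : w ∈ e.target) : INT1aJ e w ≠ 0 := by
  have hx := INT1a_ix (n := n) (e.symm w)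
  set x := ix n (e.symm w) with hxd
  have hτ := INT1a_hmap he hw hx
  have hu : HMap (e ∘ (ch n x).symm) ((ch n x ∘ e.symm) w) := by
    refine HMap.comp ?_ ((isCh_ch x).2 _ ((ch n x).map_source hx))
    rw [Function.comp_apply, (ch n x).left_inv hx]
    exact he.1 _ (e.map_target hw)
  have hid : (e ∘ (ch n x).symm) ∘ (ch n x ∘ e.symm) =ᶠ[𝓝 w] id := by
    filter_upwards [INT1a_ev hw hx, e.eventually_right_inverse hw] with z h1 h2
    simp only [Function.comp_apply, id] at h1 ⊢
    rw [h1, h2]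
  have h := (INT1a_det_ne hu hτ hid).2
  rw [df_E] at h
  rw [INT1aJ, ← hxd, Ne, Real.toNNReal_eq_zero, not_le]
  exact abs_pos.2 h

theorem INT1a_J_dens {e : OpenPartialHomeomorph X (E n)} (he : IsCh e) (α : Fm n X) {w : E n}
    (hw : w ∈ e.target) : INT1aJ e w • dens α (e.symm w) = top (pb e.symm α w) := by
  have hx := INT1a_ix (n := n) (e.symm w)
  set x := ix n (e.symm w) with hxd
  have hτ := INT1a_hmap he hw hx
  have h1 : pb e.symm α w = pb (ch n x ∘ e.symm) (pb (ch n x).symm α) w := by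
    rw [pb_comp (f := ch n x ∘ e.symm) ((isCh_ch x).2 _ ((ch n x).map_source hx)) hτ]
    refine pb_congr (INT1a_ev hw hx).symm rfl
  have h2 := INT1a_det_nonneg hτ
  rw [h1]
  conv_rhs => rw [pb, top_lm]
  rw [df_E] at h2 ⊢
  rw [INT1aJ, ← hxd, NNReal.smul_def, Real.coe_toNNReal _ (abs_nonneg _), abs_of_nonneg h2,
    real_smul]
  rfl

theorem INT1a_pre {e : OpenPartialHomeomorph X (E n)} {A : Set X} (hs : A ⊆ e.source) :
    e.target.domRestrict e.symm ⁻¹' A = Subtype.val ⁻¹' (e '' A) := by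
  rw [e.image_eq_target_inter_inv_preimage hs]
  ext w
  exact ⟨fun h => ⟨w.2, h⟩, fun h => h.2⟩

end Aux

theorem INT1a_P (x : X) : MeasurableSet {y | ix n y = x} := by
  have h : MeasurableSet[borel X] {y | ix n y = x} := (exists_ix n X).choose_spec.2.2 x
  rwa [← BorelSpace.measurable_eq (α := X)] at h

theorem INT1a_emb (e : OpenPartialHomeomorph X (E n)) :
    MeasurableEmbedding (e.target.domRestrict e.symm) :=
  e.symm.isOpenEmbedding_restrict.measurableEmbedding

theorem INT1a_meas {e : OpenPartialHomeomorph X (E n)} {A : Set X} (hA : MeasurableSet A)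
    (hs : A ⊆ e.source) : MeasurableSet (e '' A) := by
  have h := (MeasurableEmbedding.subtype_coe e.open_target.measurableSet).measurableSet_image'
    ((INT1a_emb e).measurable hA)
  rwa [INT1a_pre hs, Subtype.image_preimage_coe,
    inter_eq_self_of_subset_right (e.image_source_eq_target ▸ image_mono hs)] at h

theorem INT1a_mu {A : Set X} (hA : MeasurableSet A) :
    mu n X A = ∑' x : range (ix n : X → X), volume (ch n x.1 '' ({y | ix n y = x.1} ∩ A)) := by
  rw [mu, Measure.sum_apply _ hA]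
  refine tsum_congr fun x => ?_
  have hm : MeasurableSet (ch n x.1 '' {y | ix n y = x.1}) := INT1a_meas (INT1a_P _) (INT1a_sub _)
  have ht : ch n x.1 '' {y | ix n y = x.1} ⊆ (ch n x.1).target :=
    (ch n x.1).image_source_eq_target ▸ image_mono (INT1a_sub _)
  rw [Measure.map_apply_of_aemeasurable
    (((ch n x.1).continuousOn_symm.mono ht).aemeasurable hm) hA, Measure.restrict_apply' hm]
  congr 1
  ext z
  constructor
  · rintro ⟨h1, y, hy, rfl⟩
    rw [mem_preimage, (ch n x.1).left_inv (INT1a_sub _ hy)] at h1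
    exact ⟨y, ⟨hy, h1⟩, rfl⟩
  · rintro ⟨y, ⟨hy, h1⟩, rfl⟩
    refine ⟨?_, y, hy, rfl⟩
    rwa [mem_preimage, (ch n x.1).left_inv (INT1a_sub _ hy)]

omit [MeasurableSpace X] [BorelSpace X] in
theorem INT1a_union (e : OpenPartialHomeomorph X (E n)) (A : Set X) :
    e '' A = ⋃ x : range (ix n : X → X), e '' ({y | ix n y = x.1} ∩ A) := by
  ext z
  simp only [mem_iUnion]
  constructor
  · rintro ⟨y, hy, rfl⟩
    exact ⟨⟨ix n y, y, rfl⟩, y, ⟨rfl, hy⟩, rfl⟩
  · rintro ⟨x, y, hy, rfl⟩
    exact ⟨y, hy.2, rfl⟩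

omit [MeasurableSpace X] [BorelSpace X] in
theorem INT1a_J_eq {e : OpenPartialHomeomorph X (E n)} {A : Set X} (hs : A ⊆ e.source) (x : X) :
    EqOn (INT1aJ e) (fun w => Real.toNNReal |(fderiv ℝ (ch n x ∘ e.symm) w).det|)
      (e '' ({y | ix n y = x} ∩ A)) := by
  rintro _ ⟨y, ⟨hy, hA⟩, rfl⟩
  have h : ix n (e.symm (e y)) = x := by rw [e.left_inv (hs hA)]; exact hy
  simp only [INT1aJ, h]

theorem INT1a_J_aem {e : OpenPartialHomeomorph X (E n)} {A : Set X} (hA : MeasurableSet A)
    (hs : A ⊆ e.source) : AEMeasurable (INT1aJ e) (volume.restrict (e '' A)) := by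
  have := INT1a_count (n := n) (X := X)
  rw [INT1a_union, aemeasurable_iUnion_iff]
  intro x
  have hm : Measurable fun w => Real.toNNReal |(fderiv ℝ (ch n x.1 ∘ e.symm) w).det| :=
    (ContinuousLinearMap.continuous_det.measurable.comp
      (measurable_fderiv ℝ _)).abs.real_toNNReal
  refine hm.aemeasurable.congr ?_
  exact ae_restrict_of_forall_mem
    (INT1a_meas ((INT1a_P _).inter hA) (inter_subset_right.trans hs))
    fun w hw => (INT1a_J_eq hs x.1 hw).symm

theorem INT1a_key {e : OpenPartialHomeomorph X (E n)} (he : IsCh e) {A : Set X}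
    (hA : MeasurableSet A) (hs : A ⊆ e.source) :
    mu n X A = ∫⁻ w in e '' A, (INT1aJ e w : ℝ≥0∞) := by
  have := INT1a_count (n := n) (X := X)
  have hm : ∀ x : range (ix n : X → X), MeasurableSet (e '' ({y | ix n y = x.1} ∩ A)) :=
    fun x => INT1a_meas ((INT1a_P _).inter hA) (inter_subset_right.trans hs)
  rw [INT1a_mu hA, INT1a_union e A, lintegral_iUnion hm]
  · refine tsum_congr fun x => ?_
    have himg : ch n x.1 '' ({y | ix n y = x.1} ∩ A) =
        (ch n x.1 ∘ e.symm) '' (e '' ({y | ix n y = x.1} ∩ A)) := by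
      rw [image_image]
      refine image_congr fun y hy => ?_
      rw [Function.comp_apply, e.left_inv (hs hy.2)]
    rw [himg, ← lintegral_abs_det_fderiv_eq_addHaar_image volume (hm x)
      (f' := fderiv ℝ (ch n x.1 ∘ e.symm))]
    · refine setLIntegral_congr_fun (hm x) fun w hw => ?_
      rw [INT1a_J_eq hs x.1 hw]
      rfl
    · rintro _ ⟨y, ⟨hy, hyA⟩, rfl⟩
      have h := INT1a_hmap he (x := x.1) (e.map_source (hs hyA))
        (by rw [e.left_inv (hs hyA)]; exact INT1a_sub _ hy)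
      exact ((hmap_E.1 h).self_of_nhds.restrictScalars ℝ).hasFDerivAt.hasFDerivWithinAt
    · rintro _ ⟨y, ⟨hy, hyA⟩, rfl⟩ _ ⟨y', ⟨hy', hyA'⟩, rfl⟩ h
      simp only [Function.comp_apply, e.left_inv (hs hyA), e.left_inv (hs hyA')] at h
      rw [(ch n x.1).injOn (INT1a_sub _ hy) (INT1a_sub _ hy') h]
  · intro x x' hne
    refine disjoint_left.2 ?_
    rintro _ ⟨y, ⟨hy, hyA⟩, rfl⟩ ⟨y', ⟨hy', hyA'⟩, h⟩
    rw [e.injOn (hs hyA') (hs hyA) h] at hy'
    exact hne (Subtype.ext (hy.symm.trans hy'))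

theorem INT1a_tr {e : OpenPartialHomeomorph X (E n)} (he : IsCh e) {A : Set X}
    (hA : MeasurableSet A) (hs : A ⊆ e.source) : ∃ ρ : Measure e.target,
      (mu n X).restrict A = ρ.map (e.target.domRestrict e.symm) ∧
      ((volume.restrict (e '' A)).withDensity fun w => (INT1aJ e w : ℝ≥0∞)) =
        ρ.map Subtype.val := by
  have hT := e.open_target.measurableSet
  have hv := MeasurableEmbedding.subtype_coe hT
  have hAT : e '' A ⊆ e.target := e.image_source_eq_target ▸ image_mono hs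
  have hmA := INT1a_meas hA hs
  have h2 : ((volume.restrict (e '' A)).withDensity fun w => (INT1aJ e w : ℝ≥0∞)) =
      (Measure.comap (Subtype.val : e.target → E n)
        ((volume.restrict (e '' A)).withDensity fun w => (INT1aJ e w : ℝ≥0∞))).map
        Subtype.val := by
    rw [map_comap_subtype_coe hT, restrict_withDensity hT, Measure.restrict_restrict hT,
      inter_eq_self_of_subset_right hAT]
  refine ⟨_, ?_, h2⟩
  ext B hB
  have hBA : B ∩ A ⊆ e.source := inter_subset_right.trans hs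
  have hB' : MeasurableSet (Subtype.val '' (e.target.domRestrict e.symm ⁻¹' B)) :=
    hv.measurableSet_image' ((INT1a_emb e).measurable hB)
  rw [Measure.restrict_apply hB, (INT1a_emb e).map_apply, hv.comap_apply, withDensity_apply _ hB',
    Measure.restrict_restrict hB', INT1a_key he (hB.inter hA) hBA]
  congr 2
  ext z
  constructor
  · rintro ⟨y, hy, rfl⟩
    refine ⟨⟨⟨e y, e.map_source (hBA hy)⟩, ?_, rfl⟩, y, hy.2, rfl⟩
    show e.symm (e y) ∈ B
    rw [e.left_inv (hBA hy)]
    exact hy.1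
  · rintro ⟨⟨w, hw, rfl⟩, y, hy, h⟩
    refine ⟨y, ⟨?_, hy⟩, h⟩
    have h1 : e.symm w.1 ∈ B := hw
    rwa [← h, e.left_inv (hs hy)] at h1

theorem exists_jac (n : ℕ) (X : Type) [TopologicalSpace X] [Mf n X] :
    ∃ jac : X → ℝ, (∀ y, 0 < jac y) ∧ ∀ (α : Fm n X) y, dens α y = jac y * top (α y) := by
  refine ⟨fun y => (df (ch n (ix n y)).symm (ch n (ix n y) y)).det, fun y => ?_, fun α y => ?_⟩
  · have hy := INT1a_ix (n := n) y
    have hu := (isCh_ch (n := n) (ix n y)).2 _ ((ch n (ix n y)).map_source hy)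
    exact lt_of_le_of_ne (INT1a_det_nonneg hu) (INT1a_det_ne hu ((isCh_ch (ix n y)).1 y hy)
      ((ch n (ix n y)).eventually_left_inverse hy)).1.symm
  · rw [dens, rep, pb, top_lm, (ch n (ix n y)).left_inv (INT1a_ix y)]

theorem dens_add (α β : Fm n X) : dens (α + β) = dens α + dens β := by
  obtain ⟨jac, -, h⟩ := exists_jac n X
  funext y
  simp only [h, Pi.add_apply, map_add, mul_add]

theorem dens_fsmul (c : X → ℂ) (α : Fm n X) : dens (c • α) = c * dens α := by
  obtain ⟨jac, -, h⟩ := exists_jac n X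
  funext y
  simp only [h, Pi.mul_apply, Pi.smul_apply', map_smul, smul_eq_mul]
  ring

theorem dens_cf (α : Fm n X) (y : X) : dens (cf α) y = conj (dens α y) := by
  obtain ⟨jac, -, h⟩ := exists_jac n X
  simp only [h, cf, top_cj, map_mul, conj_ofReal]

instance mu_sigmaFinite : SigmaFinite (mu n X) := by
  have := INT1a_count (n := n) (X := X)
  refine Measure.sigmaFinite_of_countable (countable_range fun i : range (ix n : X → X) × ℕ =>
    {y | ix n y = i.1.1} ∩ ((ch n i.1.1).source ∩ ch n i.1.1 ⁻¹' Metric.ball 0 i.2)) ?_ ?_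
  · rintro _ ⟨⟨x, j⟩, rfl⟩
    have hm : MeasurableSet ({y | ix n y = x.1} ∩
        ((ch n x.1).source ∩ ch n x.1 ⁻¹' Metric.ball 0 j)) :=
      (INT1a_P _).inter ((ch n x.1).isOpen_inter_preimage Metric.isOpen_ball).measurableSet
    rw [INT1a_mu hm, tsum_eq_single x]
    · refine lt_of_le_of_lt (measure_mono ?_) (measure_ball_lt_top (x := (0 : E n)) (r := j))
      rintro _ ⟨y, hy, rfl⟩
      exact hy.2.2.2
    · intro x' hne
      rw [eq_empty_of_forall_notMem (s := {y | ix n y = x'.1} ∩ _)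
        fun y hy => hne (Subtype.ext (hy.1.symm.trans hy.2.1)), image_empty, measure_empty]
  · refine eq_univ_of_forall fun y => ?_
    obtain ⟨j, hj⟩ := exists_nat_gt ‖ch n (ix n y) y‖
    exact ⟨_, ⟨⟨⟨ix n y, y, rfl⟩, j⟩, rfl⟩, rfl, INT1a_ix y, mem_ball_zero_iff.2 hj⟩

/-- Change of variables on each piece (`lintegral_image_eq_lintegral_abs_det_fderiv_mul`,
`top_lm`). The hypothesis on `g` only asks for measurability of the integrand in the chart. -/
theorem lintegral_chart {e : OpenPartialHomeomorph X (E n)} (he : IsCh e) {A : Set X}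
    (hA : MeasurableSet A) (hs : A ⊆ e.source) (α : Fm n X) :
    ∫⁻ y in A, ‖dens α y‖ₑ ∂mu n X = ∫⁻ z in e '' A, ‖top (pb e.symm α z)‖ₑ := by
  obtain ⟨ρ, h1, h2⟩ := INT1a_tr he hA hs
  have hv := MeasurableEmbedding.subtype_coe e.open_target.measurableSet
  have h3 := hv.lintegral_map (μ := ρ) fun w => ‖dens α (e.symm w)‖ₑ
  rw [h1, (INT1a_emb e).lintegral_map]
  refine h3.symm.trans ?_
  rw [← h2, lintegral_withDensity_eq_lintegral_mul_non_measurable₀ _
    (INT1a_J_aem hA hs).coe_nnreal_ennreal (Eventually.of_forall fun w => ENNReal.coe_lt_top)]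
  refine setLIntegral_congr_fun (INT1a_meas hA hs) ?_
  rintro _ ⟨y, hy, rfl⟩
  simp only [← INT1a_J_dens he α (e.map_source (hs hy)), Pi.mul_apply, NNReal.smul_def,
    enorm_smul, NNReal.enorm_eq]

theorem null_chart {e : OpenPartialHomeomorph X (E n)} (he : IsCh e) {A : Set X}
    (hs : A ⊆ e.source) : mu n X A = 0 ↔ volume (e '' A) = 0 := by
  have hS := e.open_source.measurableSet
  obtain ⟨ρ, h1, h2⟩ := INT1a_tr he hS Subset.rfl
  have hv := MeasurableEmbedding.subtype_coe e.open_target.measurableSet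
  have hAT : e '' A ⊆ e '' e.source := image_mono hs
  rw [← Measure.restrict_eq_self _ hs, h1, (INT1a_emb e).map_apply, INT1a_pre hs, ← hv.map_apply,
    ← h2, withDensity_apply_eq_zero' (INT1a_J_aem hS Subset.rfl).coe_nnreal_ennreal,
    inter_eq_self_of_subset_right, Measure.restrict_eq_self _ hAT]
  rintro _ ⟨y, hy, rfl⟩
  exact ENNReal.coe_ne_zero.2 (INT1a_J_ne he (e.map_source (hs hy)))

theorem integrableOn_chart {e : OpenPartialHomeomorph X (E n)} (he : IsCh e) {A : Set X}
    (hA : MeasurableSet A) (hs : A ⊆ e.source) (α : Fm n X) :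
    IntegrableOn (dens α) A (mu n X) ↔
      IntegrableOn (fun z => top (pb e.symm α z)) (e '' A) volume := by
  obtain ⟨ρ, h1, h2⟩ := INT1a_tr he hA hs
  have hv := MeasurableEmbedding.subtype_coe e.open_target.measurableSet
  have h3 := hv.integrable_map_iff (μ := ρ) (g := fun w => dens α (e.symm w))
  rw [IntegrableOn, h1, (INT1a_emb e).integrable_map_iff]
  refine h3.symm.trans ?_
  rw [← h2, integrable_withDensity_iff_integrable_smul₀ (INT1a_J_aem hA hs)]
  refine integrableOn_congr_fun ?_ (INT1a_meas hA hs)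
  rintro _ ⟨y, hy, rfl⟩
  exact INT1a_J_dens he α (e.map_source (hs hy))

theorem integral_chart {e : OpenPartialHomeomorph X (E n)} (he : IsCh e) {A : Set X}
    (hA : MeasurableSet A) (hs : A ⊆ e.source) (α : Fm n X) :
    ∫ y in A, dens α y ∂mu n X = ∫ z in e '' A, top (pb e.symm α z) := by
  obtain ⟨ρ, h1, h2⟩ := INT1a_tr he hA hs
  have hv := MeasurableEmbedding.subtype_coe e.open_target.measurableSet
  have h3 := hv.integral_map (μ := ρ) fun w => dens α (e.symm w)
  rw [h1, (INT1a_emb e).integral_map]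
  refine h3.symm.trans ?_
  rw [← h2, integral_withDensity_eq_integral_smul₀ (INT1a_J_aem hA hs)]
  refine setIntegral_congr_fun (INT1a_meas hA hs) ?_
  rintro _ ⟨y, hy, rfl⟩
  exact INT1a_J_dens he α (e.map_source (hs hy))

theorem itg_chart {e : OpenPartialHomeomorph X (E n)} (he : IsCh e)
    (hs : ∀ y ∉ e.source, α y = 0) : itg α = ∫ z in e.target, top (pb e.symm α z) := by
  obtain ⟨jac, -, h⟩ := exists_jac n X
  rw [← e.image_source_eq_target, ← integral_chart he e.open_source.measurableSet Subset.rfl, itg]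
  refine (setIntegral_eq_integral_of_forall_compl_eq_zero fun y hy => ?_).symm
  rw [h, hs y hy, map_zero, mul_zero]

instance mu_openPos : (mu n X).IsOpenPosMeasure := by
  refine ⟨fun U hU ⟨y, hy⟩ h0 => ?_⟩
  have h1 : mu n X (U ∩ (ch n y).source) = 0 := measure_mono_null inter_subset_left h0
  rw [null_chart (isCh_ch y) inter_subset_right] at h1
  refine ((ch n y).isOpen_image_of_subset_source (hU.inter (ch n y).open_source)
    inter_subset_right).measure_ne_zero volume ?_ h1
  exact ⟨_, y, ⟨hy, mem_chart_source (E n) y⟩, rfl⟩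

end

end Pool.Agent.MP_1c689d_ag.K0

end

section

/-! Integration of forms: charts. -/

set_option autoImplicit false

open Complex Filter Topology Set MeasureTheory
open scoped ComplexConjugate ContDiff ENNReal

namespace Pool.Agent.MP_1c689d_ag.K0

noncomputable section

variable {n m k : ℕ} {X Y : Type} [TopologicalSpace X] [TopologicalSpace Y] [Mf n X] [Mf m Y]
  [MeasurableSpace X] [BorelSpace X]

variable {α β : Fm n X}

theorem INT1_top_cont : Continuous (top : Λ n → ℂ) :=
  LinearMap.continuous_of_finiteDimensional (top : Λ n →ₗ[ℂ] ℂ)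

theorem INT1_loc {p : X} (h : SmAt 1 α p) : IntegrableAtFilter (dens α) (𝓝 p) (mu n X) := by
  have hp : p ∈ (ch n p).source := mem_chart_source (E n) p
  have h1 := (smAt_chart (isCh_ch p) hp).1 h
  obtain ⟨K, hK, hKs, hKc⟩ := local_compact_nhds h1
  have ho : IsOpen ((ch n p).source ∩ ch n p ⁻¹' interior K) :=
    (ch n p).isOpen_inter_preimage isOpen_interior
  refine ⟨_, ho.mem_nhds ⟨hp, mem_interior_iff_mem_nhds.2 hK⟩, ?_⟩
  rw [integrableOn_chart (isCh_ch p) ho.measurableSet inter_subset_left]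
  have hc : ContinuousOn (fun z => top (pb (ch n p).symm α z)) K := fun z hz =>
    (INT1_top_cont.continuousAt.comp
      (show ContDiffAt ℝ ∞ (pb (ch n p).symm α) z from hKs hz).continuousAt).continuousWithinAt
  refine (hc.integrableOn_compact hKc).mono_set ?_
  rintro _ ⟨y, hy, rfl⟩
  exact interior_subset hy.2

theorem INT1_locOn {O : Set X} (hα : Sm 1 α O) : LocallyIntegrableOn (dens α) O (mu n X) :=
  fun p hp => (INT1_loc (hα p hp)).filter_mono nhdsWithin_le_nhds

theorem INT1_dens_smul (c : ℂ) (α : Fm n X) : dens (c • α) = c • dens α := by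
  obtain ⟨jac, -, hj⟩ := exists_jac n X
  funext y
  simp only [hj, Pi.smul_apply, map_smul, smul_eq_mul]
  ring

theorem INT1_dens_neg (α : Fm n X) : dens (-α) = -dens α := by
  obtain ⟨jac, -, hj⟩ := exists_jac n X
  funext y
  simp only [hj, Pi.neg_apply, map_neg, mul_neg]

theorem INT1_dens_zero : dens (0 : Fm n X) = 0 := by
  obtain ⟨jac, -, hj⟩ := exists_jac n X
  funext y
  simp only [hj, Pi.zero_apply, map_zero, mul_zero]

theorem INT1_dens_sum {ι : Type} (S : Finset ι) (α : ι → Fm n X) :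
    dens (∑ i ∈ S, α i) = fun y => ∑ i ∈ S, dens (α i) y := by
  obtain ⟨jac, -, hj⟩ := exists_jac n X
  funext y
  simp only [hj, Finset.sum_apply, map_sum, Finset.mul_sum]

theorem INT1_pos {p : X} (h : SmAt 1 α p) (h0 : 0 < (top (α p)).re) :
    ∀ᶠ y in 𝓝 p, 0 < (top (α y)).re := by
  have hp : p ∈ (ch n p).source := mem_chart_source (E n) p
  have h1 := ((smAt_chart (isCh_ch p) hp).1 h).self_of_nhds.continuousAt
  have h2 : ContinuousAt (fun z => (top (pb (ch n p).symm α z)).re) (ch n p p) :=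
    Complex.continuous_re.continuousAt.comp (INT1_top_cont.continuousAt.comp h1)
  have h3 : 0 < (top (pb (ch n p).symm α (ch n p p))).re := by
    have := rep_self (p := p) α
    unfold rep at this
    rwa [this]
  have h4 := ((ch n p).continuousAt hp).eventually (h2.eventually (lt_mem_nhds h3))
  filter_upwards [h4, (ch n p).open_source.mem_nhds hp] with y hy hs
  obtain ⟨B, hB⟩ := ((isCh_ch p).2 _ ((ch n p).map_source hs)).df_complex
  unfold pb at hy
  rw [top_lm, hB, det_restrict, (ch n p).left_inv hs, Complex.re_ofReal_mul] at hy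
  exact (pos_iff_pos_of_mul_pos hy).1
    (lt_of_le_of_ne (normSq_nonneg _) fun e => by rw [← e, zero_mul] at hy; exact lt_irrefl _ hy)

theorem INT1_freq (ha : Intg α) (h : ∀ y, 0 ≤ (top (α y)).re) (h0 : (itg α).re = 0) (p : X) :
    ∃ᶠ y in 𝓝 p, (top (α y)).re = 0 := by
  obtain ⟨jac, hpos, hj⟩ := exists_jac n X
  have h1 : ∫ y, (dens α y).re ∂mu n X = 0 := by
    rw [← h0]
    exact integral_re (𝕜 := ℂ) ha
  have h2 : (0 : X → ℝ) ≤ fun y => (dens α y).re := fun y => by
    simp only [hj, Complex.re_ofReal_mul, Pi.zero_apply]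
    exact mul_nonneg (hpos y).le (h y)
  have h3 := (integral_eq_zero_iff_of_nonneg h2 (Integrable.re (𝕜 := ℂ) ha)).1 h1
  have h4 : ∀ᵐ y ∂mu n X, (top (α y)).re = 0 := by
    filter_upwards [h3] with y hy
    simp only [hj, Complex.re_ofReal_mul, Pi.zero_apply] at hy
    exact (mul_eq_zero.1 hy).resolve_left (hpos y).ne'
  exact mem_closure_iff_frequently.1 (Measure.dense_of_ae h4 p)

theorem aesm_dens {O : Set X} (hO : IsOpen O) (hα : Sm 1 α O) :
    AEStronglyMeasurable (dens α) ((mu n X).restrict O) := by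
  exact (INT1_locOn hα).aestronglyMeasurable

theorem integrableOn_compact {K : Set X} (hK : IsCompact K) (hα : Sm 1 α K) :
    IntegrableOn (dens α) K (mu n X) := by
  exact (INT1_locOn hα).integrableOn_isCompact hK

theorem intg_of_sm (hα : Sm 1 α univ) (hc : HasCompactSupport α) : Intg α := by
  obtain ⟨jac, -, hj⟩ := exists_jac n X
  refine (integrableOn_iff_integrable_of_support_subset (s := tsupport α) fun y hy => ?_).1
    (integrableOn_compact hc fun p _ => hα p (mem_univ p))
  refine subset_tsupport α fun h0 => hy ?_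
  rw [hj, h0, map_zero, mul_zero]

theorem intg_of_compact [CompactSpace X] (hα : Sm 1 α univ) : Intg α := by
  exact integrableOn_univ.1 (integrableOn_compact isCompact_univ hα)

theorem itg_add (ha : Intg α) (hb : Intg β) : itg (α + β) = itg α + itg β := by
  unfold itg
  rw [dens_add]
  exact integral_add ha hb

theorem itg_sub (ha : Intg α) (hb : Intg β) : itg (α - β) = itg α - itg β := by
  unfold itg
  rw [sub_eq_add_neg, dens_add, INT1_dens_neg, ← sub_eq_add_neg]
  exact integral_sub ha hb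

theorem itg_neg : itg (-α) = -itg α := by
  unfold itg
  rw [INT1_dens_neg]
  exact integral_neg _

theorem itg_smul (c : ℂ) : itg (c • α) = c * itg α := by
  unfold itg
  rw [INT1_dens_smul]
  exact integral_const_mul c _

theorem itg_zero : itg (0 : Fm n X) = 0 := by
  unfold itg
  rw [INT1_dens_zero]
  exact integral_zero _ _

theorem itg_sum {ι : Type} {S : Finset ι} {α : ι → Fm n X} (h : ∀ i ∈ S, Intg (α i)) :
    itg (∑ i ∈ S, α i) = ∑ i ∈ S, itg (α i) := by
  unfold itg
  rw [INT1_dens_sum]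
  exact integral_finsetSum S h

theorem Intg.add (ha : Intg α) (hb : Intg β) : Intg (α + β) := by
  unfold Intg
  rw [dens_add]
  exact Integrable.add ha hb

theorem Intg.smul (ha : Intg α) (c : ℂ) : Intg (c • α) := by
  unfold Intg
  rw [INT1_dens_smul]
  exact Integrable.smul c ha

theorem itg_cf : itg (cf α) = conj (itg α) := by
  unfold itg
  simp only [dens_cf]
  exact integral_conj

theorem itg_congr_top (h : ∀ y, top (α y) = top (β y)) : itg α = itg β := by
  obtain ⟨jac, -, hj⟩ := exists_jac n X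
  unfold itg
  simp only [hj, h]

theorem itg_of_top_zero (h : ∀ y, top (α y) = 0) : itg α = 0 := by
  rw [← itg_zero (n := n) (X := X)]
  exact itg_congr_top fun y => by rw [h, Pi.zero_apply, map_zero]

theorem itg_nonneg (h : ∀ y, ∃ t : ℝ, 0 ≤ t ∧ top (α y) = t) : ∃ t : ℝ, 0 ≤ t ∧ itg α = t := by
  obtain ⟨jac, hpos, hj⟩ := exists_jac n X
  choose t ht0 ht using h
  refine ⟨∫ y, jac y * t y ∂mu n X, integral_nonneg fun y => mul_nonneg (hpos y).le (ht0 y), ?_⟩
  unfold itg
  rw [← integral_complex_ofReal]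
  simp only [hj, ht, Complex.ofReal_mul]

theorem itg_re_mono (ha : Intg α) (hb : Intg β) (h : ∀ y, (top (α y)).re ≤ (top (β y)).re) :
    (itg α).re ≤ (itg β).re := by
  obtain ⟨jac, hpos, hj⟩ := exists_jac n X
  have h1 : ∫ y, (dens α y).re ∂mu n X = (itg α).re := integral_re (𝕜 := ℂ) ha
  have h2 : ∫ y, (dens β y).re ∂mu n X = (itg β).re := integral_re (𝕜 := ℂ) hb
  rw [← h1, ← h2]
  refine integral_mono (Integrable.re (𝕜 := ℂ) ha) (Integrable.re (𝕜 := ℂ) hb) fun y => ?_
  simp only [hj, Complex.re_ofReal_mul]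
  exact mul_le_mul_of_nonneg_left (h y) (hpos y).le

theorem top_zero_of_itg (hα : Sm 1 α univ) (ha : Intg α)
    (h : ∀ y, ∃ t : ℝ, 0 ≤ t ∧ top (α y) = t) (h0 : itg α = 0) (y : X) : top (α y) = 0 := by
  by_contra hne
  have h1 : ∀ y, 0 ≤ (top (α y)).re := fun y => by
    obtain ⟨t, ht0, ht⟩ := h y
    rwa [ht, Complex.ofReal_re]
  have h2 : 0 < (top (α y)).re := by
    obtain ⟨t, ht0, ht⟩ := h y
    rw [ht] at hne ⊢
    rw [Complex.ofReal_re]
    exact lt_of_le_of_ne ht0 fun e => hne (by rw [← e, Complex.ofReal_zero])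
  obtain ⟨z, hz1, hz2⟩ := ((INT1_freq ha h1 (by rw [h0, Complex.zero_re]) y).and_eventually
    (INT1_pos (hα y (mem_univ y)) h2)).exists
  exact hz2.ne' hz1

/-- The fundamental lemma of the calculus of variations. -/
theorem top_zero_of_test {O : Set X} (hO : IsOpen O) (hα : Sm 1 α O)
    (h : ∀ φ : X → ℂ, Bump n φ → tsupport φ ⊆ O → itg (φ • α) = 0) :
    ∀ y ∈ O, top (α y) = 0 := by
  intro p hp
  by_contra hne
  set c : ℂ := (top (α p))⁻¹ with hc
  have h1 : ∀ᶠ y in 𝓝 p, 0 < (top ((c • α) y)).re := by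
    refine INT1_pos ((hα p hp).smul c) ?_
    rw [Pi.smul_apply, map_smul, smul_eq_mul, hc, inv_mul_cancel₀ hne, Complex.one_re]
    exact one_pos
  obtain ⟨U, hU, hUo, hpU⟩ := eventually_nhds_iff.1 h1
  obtain ⟨χ, hχ, hs, h2⟩ := exists_cutoff (n := n) (isCompact_singleton (x := p)) (hUo.inter hO)
    (singleton_subset_iff.2 ⟨hpU, hp⟩)
  rw [nhdsSet_singleton] at h2
  have hsO : tsupport χ ⊆ O := hs.trans inter_subset_right
  have h3 : Intg (c • χ • α) := by
    refine Intg.smul (intg_of_sm (fun y _ => SmAt.of_tsupport hα (hχ.sm y (mem_univ y)) hsO) ?_) c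
    exact hχ.cs.smul_right
  have h4 : ∀ y, top ((c • χ • α) y) = χ y * top ((c • α) y) := fun y => by
    simp only [Pi.smul_apply, Pi.smul_apply', map_smul, smul_eq_mul]
    ring
  have h5 : ∀ y, 0 ≤ (top ((c • χ • α) y)).re := fun y => by
    rw [h4]
    by_cases hy : χ y = 0
    · rw [hy, zero_mul, Complex.zero_re]
    · obtain ⟨t, ht0, -, ht⟩ := hχ.mem y
      rw [ht, Complex.re_ofReal_mul]
      exact mul_nonneg ht0 (hU y (hs (subset_tsupport χ hy)).1).le
  obtain ⟨z, hz1, hz2, hz3⟩ := ((INT1_freq h3 h5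
    (by rw [itg_smul, h χ hχ hsO, mul_zero, Complex.zero_re]) p).and_eventually (h1.and h2)).exists
  rw [h4, hz3, one_mul] at hz1
  exact hz2.ne' hz1

end

end Pool.Agent.MP_1c689d_ag.K0

end

section

/-! Stokes formula. -/

set_option autoImplicit false

open Complex Filter Topology Set MeasureTheory
open scoped ComplexConjugate ContDiff ENNReal

namespace Pool.Agent.MP_1c689d_ag.K0

noncomputable section

variable {n m k : ℕ} {X Y : Type} [TopologicalSpace X] [TopologicalSpace Y] [Mf n X] [Mf m Y]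
  [MeasurableSpace X] [BorelSpace X]

variable {α β : Fm n X} {G : Ga X}

theorem INT2_fd {α : E n → Λ n} (hα : ContDiff ℝ ∞ α) (hc : HasCompactSupport α) (v : E n) :
    Integrable (fun z => fderiv ℝ α z v) ∧ ∫ z, fderiv ℝ α z v = 0 := by
  have hi : Integrable (fun z => fderiv ℝ α z v) :=
    ((hα.continuous_fderiv (by simp)).clm_apply continuous_const).integrable_of_hasCompactSupport
      (hc.fderiv_apply ℝ v)
  refine ⟨hi, ?_⟩
  have := integral_smul_fderiv_eq_neg_fderiv_smul_of_integrable (μ := volume) (𝕜 := ℝ)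
    (f := fun _ : E n => (1 : ℝ)) (g := α) (v := v) (by simp) (by simpa using hi)
    (by simpa using hα.continuous.integrable_of_hasCompactSupport hc)
    (fun _ _ => differentiableAt_const _) (fun x _ => hα.differentiable (by simp) x)
  simpa using this

theorem INT2_lin {α : E n → Λ n} (hα : ContDiff ℝ ∞ α) (hc : HasCompactSupport α) (a : Λ n)
    (v : E n) : Integrable (fun z => top (a * fderiv ℝ α z v)) ∧
      ∫ z, top (a * fderiv ℝ α z v) = 0 := by
  obtain ⟨h1, h2⟩ := INT2_fd hα hc v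
  let L : Λ n →L[ℂ] ℂ := LinearMap.toContinuousLinearMap (top ∘ₗ LinearMap.mulLeft ℂ a)
  refine ⟨L.integrable_comp h1, ?_⟩
  have := L.integral_comp_comm h1
  rw [h2, map_zero] at this
  exact this

theorem INT2_gen {α : E n → Λ n} (hα : ContDiff ℝ ∞ α) (hc : HasCompactSupport α)
    (a : Fin n → Λ n) (c : ℂ) :
    ∫ z, top (∑ j, a j * ((1 / 2 : ℂ) •
      (fderiv ℝ α z (Pi.single j 1) + c • fderiv ℝ α z (Pi.single j I)))) = 0 := by
  have e : ∀ z, top (∑ j, a j * ((1 / 2 : ℂ) •
      (fderiv ℝ α z (Pi.single j 1) + c • fderiv ℝ α z (Pi.single j I)))) =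
      ∑ j, ((1 / 2 : ℂ) * top (a j * fderiv ℝ α z (Pi.single j 1)) +
        (1 / 2 * c) * top (a j * fderiv ℝ α z (Pi.single j I))) := by
    intro z
    rw [map_sum]
    refine Finset.sum_congr rfl fun j _ => ?_
    rw [mul_smul_comm, mul_add, mul_smul_comm, map_smul, map_add, map_smul]
    simp only [smul_eq_mul]
    ring
  simp_rw [e]
  rw [integral_finsetSum]
  · refine Finset.sum_eq_zero fun j _ => ?_
    rw [integral_add ((INT2_lin hα hc _ _).1.const_mul _) ((INT2_lin hα hc _ _).1.const_mul _),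
      integral_const_mul, integral_const_mul, (INT2_lin hα hc _ _).2, (INT2_lin hα hc _ _).2]
    simp
  · exact fun j _ => ((INT2_lin hα hc _ _).1.const_mul _).add ((INT2_lin hα hc _ _).1.const_mul _)

/-- On the model space each term is the integral of a directional derivative of a compactly
supported function (`integral_fderiv_eq_zero` type lemmas, e.g.
`integral_bilinear_hasLineDerivAt_right_eq_neg_left_of_integrable`). -/
theorem stokesE_dp {α : E n → Λ n} (hα : ContDiff ℝ ∞ α) (hc : HasCompactSupport α) :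
    ∫ z, top (dpE α z) = 0 := by
  have := INT2_gen hα hc dz (-I)
  simpa only [dpE, pz, neg_smul, ← sub_eq_add_neg] using this

theorem stokesE_db {α : E n → Λ n} (hα : ContDiff ℝ ∞ α) (hc : HasCompactSupport α) :
    ∫ z, top (dbE α z) = 0 := by
  exact INT2_gen hα hc dzb I

theorem INT2_ts {D : Fm n X → Fm n X} (h0 : D 0 = 0)
    (hD : ∀ (α β : Fm n X) p, α =ᶠ[𝓝 p] β → D α p = D β p) (α : Fm n X) :
    tsupport (D α) ⊆ tsupport α := by
  refine closure_minimal (fun y hy => ?_) (isClosed_tsupport α)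
  by_contra h
  apply hy
  rw [hD α 0 y (notMem_tsupport_iff_eventuallyEq.1 h), h0]
  rfl

theorem tsupport_dbar : tsupport (dbar G α) ⊆ tsupport α := by
  exact INT2_ts dbar_zero (fun _ _ _ => dbar_congr) α

theorem tsupport_dp : tsupport (dp G α) ⊆ tsupport α := by
  exact INT2_ts dp_zero (fun _ _ _ => dp_congr) α

theorem tsupport_dd : tsupport (dd α) ⊆ tsupport α := by
  exact INT2_ts dd_zero (fun _ _ _ => dd_congr) α

theorem INT2_ext {e : OpenPartialHomeomorph X (E n)} (he : IsCh e) (hα : Sm 1 α univ)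
    (hc : HasCompactSupport α) (hs : tsupport α ⊆ e.source) :
    ∃ γ : E n → Λ n, ContDiff ℝ ∞ γ ∧ HasCompactSupport γ ∧
      (∀ z ∈ e.target, γ =ᶠ[𝓝 z] pb e.symm α) ∧ ∀ z ∉ e.target, γ =ᶠ[𝓝 z] 0 := by
  classical
  have hK : IsCompact (e '' tsupport α) :=
    IsCompact.image_of_continuousOn hc (e.continuousOn.mono hs)
  have h0 : ∀ z ∉ e '' tsupport α, e.target.indicator (pb e.symm α) z = 0 := by
    intro z hz
    by_cases ht : z ∈ e.target
    · rw [indicator_of_mem ht]
      have : α (e.symm z) = 0 :=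
        image_eq_zero_of_notMem_tsupport fun h => hz ⟨_, h, e.right_inv ht⟩
      simp only [pb, this, map_zero]
    · exact indicator_of_notMem ht _
  have h1 : ∀ z ∈ e.target, e.target.indicator (pb e.symm α) =ᶠ[𝓝 z] pb e.symm α := by
    intro z hz
    filter_upwards [e.open_target.mem_nhds hz] with w hw
    exact indicator_of_mem hw _
  have h2 : ∀ z ∉ e.target, e.target.indicator (pb e.symm α) =ᶠ[𝓝 z] 0 := by
    intro z hz
    have : z ∈ (e '' tsupport α)ᶜ := by
      rintro ⟨y, hy, rfl⟩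
      exact hz (e.map_source (hs hy))
    filter_upwards [hK.isClosed.isOpen_compl.mem_nhds this] with w hw
    exact h0 w hw
  refine ⟨_, contDiff_iff_contDiffAt.2 fun z => ?_, HasCompactSupport.intro hK h0, h1, h2⟩
  by_cases hz : z ∈ e.target
  · have := ((smAt_chart he (e.map_target hz)).1 (hα _ (mem_univ _))).self_of_nhds
    rw [e.right_inv hz] at this
    exact this.congr_of_eventuallyEq (h1 z hz)
  · exact (contDiffAt_const (c := (0 : Λ n))).congr_of_eventuallyEq (h2 z hz)

theorem INT2_loc {e : OpenPartialHomeomorph X (E n)} (he : IsCh e) (hα : Sm 1 α univ)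
    (hc : HasCompactSupport α) (hs : tsupport α ⊆ e.source) : itg (dp 1 α) = 0 := by
  obtain ⟨γ, h1, h2, h3, h4⟩ := INT2_ext he hα hc hs
  rw [itg_chart he fun y hy =>
    image_eq_zero_of_notMem_tsupport fun h => hy (hs (tsupport_dp h))]
  have h5 : ∫ z in e.target, top (dpE γ z) = ∫ z, top (dpE γ z) := by
    refine setIntegral_eq_integral_of_forall_compl_eq_zero fun z hz => ?_
    rw [← dp_E, dp_congr (h4 z hz), dp_zero]
    exact map_zero _
  rw [← stokesE_dp h1 h2, ← h5]
  refine setIntegral_congr_fun e.open_target.measurableSet fun z hz => ?_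
  change top (pb e.symm (dp 1 α) z) = _
  rw [pb_dp (he.2 z hz) gok_one (hα _ (mem_univ _)), gpb_one, ← dp_congr (h3 z hz), dp_E]

theorem INT2_intg {O K : Set X} (hK : IsCompact K) (hKO : K ⊆ O) (hα : Sm 1 α O)
    (hs : tsupport α ⊆ K) : Intg α :=
  intg_of_sm (fun _ _ => SmAt.of_tsupport' hα (hs.trans hKO))
    (hK.of_isClosed_subset (isClosed_tsupport _) hs)

theorem stokes_dp (hα : Sm 1 α univ) (hc : HasCompactSupport α) : itg (dp 1 α) = 0 := by
  obtain ⟨S, ρ, h1, h2, -, -, h5⟩ := exists_pou (n := n) hc (fun p : X => (ch n p).source)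
    (fun p => (ch n p).open_source)
    (fun y _ => mem_iUnion.2 ⟨y, mem_chart_source (E n) y⟩)
  have hs : ∀ i, Sm 1 (ρ i • α) univ := fun i y hy => ((h1 i).sm y hy).fsmul_one (hα y hy)
  have ht : ∀ i, tsupport (ρ i • α) ⊆ tsupport (ρ i) := fun i =>
    tsupport_smul_subset_left (ρ i) α
  have hk : ∀ i, HasCompactSupport (ρ i • α) := fun i =>
    IsCompact.of_isClosed_subset (h1 i).cs (isClosed_tsupport _) (ht i)
  have e : α = ∑ i ∈ S, ρ i • α := by
    funext y
    rw [Finset.sum_apply]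
    simp only [Pi.smul_apply']
    rw [← Finset.sum_smul]
    by_cases hy : y ∈ tsupport α
    · rw [h5.self_of_nhdsSet y hy, one_smul]
    · rw [image_eq_zero_of_notMem_tsupport hy, smul_zero]
  have e2 : dp 1 α = ∑ i ∈ S, dp 1 (ρ i • α) := by
    funext y
    rw [Finset.sum_apply, ← dp_sum gok_one fun i _ => hs i y (mem_univ _), ← e]
  rw [e2, itg_sum]
  · exact Finset.sum_eq_zero fun i _ => INT2_loc (isCh_ch i) (hs i) (hk i) ((ht i).trans (h2 i))
  · exact fun i _ => INT2_intg (hk i) (subset_univ _) (fun y hy => (hs i y hy).dp gok_one)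
      tsupport_dp

theorem stokes_dbar (hα : Sm 1 α univ) (hc : HasCompactSupport α) : itg (dbar 1 α) = 0 := by
  have h := stokes_dp (α := cf α) (fun y hy => (hα y hy).cf_one)
    (hc.comp_left (g := cj) (map_zero _))
  have e := dp_cf (G := (1 : Ga X)) (α := α)
  rw [inv_one] at e
  rw [e, itg_cf] at h
  simpa using h

theorem stokes (hα : Sm 1 α univ) (hc : HasCompactSupport α) : itg (dd α) = 0 := by
  rw [dd_eq, itg_add, stokes_dp hα hc, stokes_dbar hα hc, add_zero]
  · exact INT2_intg hc (subset_univ _) (fun y hy => (hα y hy).dp gok_one) tsupport_dp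
  · exact INT2_intg hc (subset_univ _) (fun y hy => (hα y hy).dbar gok_one) tsupport_dbar

/-- Integration by parts for forms that are smooth on an open set containing the compact support
of the product. -/
theorem ibp_dd {O K : Set X} (hK : IsCompact K) (hO : IsOpen O) (hKO : K ⊆ O) (hα : Sm 1 α O)
    (hβ : Sm 1 β O) (hs : tsupport α ⊆ K) :
    itg (dd α * β) + itg ((fun y => gi (α y)) * dd β) = 0 := by
  have t1 : tsupport (α * β) ⊆ tsupport α := tsupport_mul_subset_left
  have t2 : tsupport (dd α * β) ⊆ tsupport α := Subset.trans tsupport_mul_subset_left tsupport_dd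
  have t3 : tsupport ((fun y => gi (α y)) * dd β) ⊆ tsupport α := by
    refine closure_mono fun y hy h0 => hy ?_
    simp only [Pi.mul_apply, h0, map_zero, zero_mul]
  have s1 : Sm 1 (α * β) O := fun y hy => (hα y hy).mul_left (hβ y hy)
  have e : dd (α * β) = dd α * β + (fun y => gi (α y)) * dd β := by
    funext y
    by_cases hy : y ∈ O
    · exact dd_mul (hα y hy) (hβ y hy)
    · have h0 : y ∉ tsupport α := fun h => hy (hKO (hs h))
      rw [Pi.add_apply, image_eq_zero_of_notMem_tsupport fun h => h0 (t1 (tsupport_dd h)),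
        image_eq_zero_of_notMem_tsupport fun h => h0 (t2 h),
        image_eq_zero_of_notMem_tsupport fun h => h0 (t3 h), add_zero]
  rw [← itg_add, ← e]
  · exact stokes (fun _ _ => SmAt.of_tsupport' s1 ((t1.trans hs).trans hKO))
      (hK.of_isClosed_subset (isClosed_tsupport _) (t1.trans hs))
  · exact INT2_intg hK hKO (fun y hy => (hα y hy).dd.mul_left (hβ y hy)) (t2.trans hs)
  · exact INT2_intg hK hKO (fun y hy => (hα y hy).gi.mul_left (hβ y hy).dd) (t3.trans hs)

theorem ibp_dbar [CompactSpace X] (hG : ∀ p, GOk G p) (hα : Sm G α univ) (hβ : Sm G⁻¹ β univ) :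
    itg (dbar G α * β) + itg ((fun y => gi (α y)) * dbar G⁻¹ β) = 0 := by
  have e : dbar 1 (α * β) = dbar G α * β + (fun y => gi (α y)) * dbar G⁻¹ β := by
    funext y
    exact dbar_mul' (hG y).mul_inv (hG y) (hG y).inv (hα y (mem_univ _)) (hβ y (mem_univ _))
  rw [← itg_add, ← e]
  · exact stokes_dbar (fun y hy => (hα y hy).mul_dual (hβ y hy) (hG y))
      (HasCompactSupport.of_compactSpace _)
  · exact intg_of_compact fun y hy => ((hα y hy).dbar (hG y)).mul_dual (hβ y hy) (hG y)
  · exact intg_of_compact fun y hy => (hα y hy).gi.mul_dual ((hβ y hy).dbar (hG y).inv) (hG y)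

theorem ibp_dp [CompactSpace X] (hG : ∀ p, GOk G p) (hα : Sm G α univ) (hβ : Sm G⁻¹ β univ) :
    itg (dp G α * β) + itg ((fun y => gi (α y)) * dp G⁻¹ β) = 0 := by
  have e : dp 1 (α * β) = dp G α * β + (fun y => gi (α y)) * dp G⁻¹ β := by
    funext y
    exact dp_mul' (hG y).mul_inv (hG y) (hG y).inv (hα y (mem_univ _)) (hβ y (mem_univ _))
  rw [← itg_add, ← e]
  · exact stokes_dp (fun y hy => (hα y hy).mul_dual (hβ y hy) (hG y))
      (HasCompactSupport.of_compactSpace _)
  · exact intg_of_compact fun y hy => ((hα y hy).dp (hG y)).mul_dual (hβ y hy) (hG y)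
  · exact intg_of_compact fun y hy => (hα y hy).gi.mul_dual ((hβ y hy).dp (hG y).inv) (hG y)

theorem itg_exact_mul_closed [CompactSpace X] (hα : Sm 1 α univ) (hβ : Sm 1 β univ)
    (h : dd β = 0) : itg (dd α * β) = 0 ∧ itg (β * dd α) = 0 := by
  have e1 : dd (α * β) = dd α * β := by
    funext y
    rw [dd_mul (hα y (mem_univ _)) (hβ y (mem_univ _)), h]
    simp
  have e2 : dd ((fun y => gi (β y)) * α) = β * dd α := by
    funext y
    have h0 : dd (fun y => gi (β y)) y = 0 := by
      have h1 := congrFun h y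
      rw [dd_eq, Pi.add_apply] at h1
      rw [dd_eq, Pi.add_apply, dp_gi, dbar_gi, ← neg_add, ← map_add, h1]
      simp
    rw [dd_mul (hβ y (mem_univ _)).gi (hα y (mem_univ _)), h0, gi_gi]
    simp
  rw [← e1, ← e2]
  exact ⟨stokes (fun y hy => (hα y hy).mul_left (hβ y hy)) (HasCompactSupport.of_compactSpace _),
    stokes (fun y hy => (hβ y hy).gi.mul_left (hα y hy)) (HasCompactSupport.of_compactSpace _)⟩

theorem itg_comm {a b : ℕ} (hα : Dgr a α) (hβ : Dgr b β) :
    itg (α * β) = (-1) ^ (a * b) * itg (β * α) := by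
  rw [← itg_smul]
  congr 1
  funext y
  exact comm_Dg (hα y) (hβ y)

end

end Pool.Agent.MP_1c689d_ag.K0

end
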