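import Pool.Agent.Mg.F1c689d.G07f42f
import Pool.Agent.Mg.F1c689d.G932365
import Pool.Agent.Mg.F1c689d.G860bc7
import Pool.Agent.Mg.F1c689d.G8d4c98

set_option linter.all false


section

/-! The lemma of Weyl for the Cauchy-Riemann system. -/

set_option autoImplicit false

open Complex Filter Topology Set MeasureTheory
open scoped ComplexConjugate ContDiff ENNReal

namespace Pool.Agent.MP_1c689d_ag.K0

noncomputable section

variable {n : ℕ}

/-- The convolution of two functions. -/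
abbrev WEYL_cv (F ρ : E n → ℂ) : E n → ℂ :=
  convolution F ρ (ContinuousLinearMap.mul ℝ ℂ) volume

theorem WEYL_glue {f : E n → ℂ} {U : Set (E n)} (hU : IsOpen U)
    (h : ∀ a ∈ U, ∃ (O : Set (E n)) (g : E n → ℂ), IsOpen O ∧ a ∈ O ∧ DifferentiableOn ℂ g O ∧
      ∀ᵐ z, z ∈ O → f z = g z) :
    ∃ g : E n → ℂ, DifferentiableOn ℂ g U ∧ ∀ᵐ z, z ∈ U → f z = g z := by
  choose! O g h1 h2 h3 h4 using h
  have key : ∀ a ∈ U, ∀ z ∈ U, z ∈ O a → g z z = g a z := fun a ha z hz k => by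
    have ho := (h1 z hz).inter (h1 a ha)
    refine Measure.eqOn_open_of_ae_eq (μ := volume) ((ae_restrict_iff' ho.measurableSet).2 ?_) ho
      ((h3 z hz).continuousOn.mono inter_subset_left)
      ((h3 a ha).continuousOn.mono inter_subset_right) ⟨h2 z hz, k⟩
    filter_upwards [h4 z hz, h4 a ha] with w k1 k2 hw
    rw [← k1 hw.1, k2 hw.2]
  refine ⟨fun z => g z z, fun a ha => ?_, measure_null_of_locally_null _ fun a ha => ?_⟩
  · have hO := (h1 a ha).mem_nhds (h2 a ha)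
    refine (((h3 a ha).differentiableAt hO).congr_of_eventuallyEq ?_).differentiableWithinAt
    filter_upwards [hO, hU.mem_nhds ha] with z k1 k2 using key a ha z k2 k1
  · have ha' : a ∈ U := (Classical.not_imp.1 ha).1
    refine ⟨_, inter_mem_nhdsWithin _ ((h1 a ha').mem_nhds (h2 a ha')),
      measure_mono_null ?_ (ae_iff.1 (h4 a ha'))⟩
    refine fun z hz k => hz.1 fun hz' => ?_
    exact (k hz.2).trans (key a ha' z hz' hz.2).symm

theorem WEYL_hol {F ρ : E n → ℂ} {W : Set (E n)} (hF : LocallyIntegrable F)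
    (h : ∀ φ : E n → ℂ, ContDiff ℝ ∞ φ → HasCompactSupport φ → tsupport φ ⊆ W →
      ∀ j, ∫ z, F z * pzb j φ z = 0) (h1 : ContDiff ℝ ∞ ρ) (h2 : HasCompactSupport ρ) {x : E n}
    (hx : ∀ z, x - z ∈ tsupport ρ → z ∈ W) : DifferentiableAt ℂ (WEYL_cv F ρ) x := by
  have hD := h2.hasFDerivAt_convolution_right (μ := volume) (ContinuousLinearMap.mul ℝ ℂ) hF
    (h1.of_le (by simp)) x
  have hc : Continuous (fderiv ℝ ρ) := h1.continuous_fderiv (by simp)
  have hi : ∀ v, Integrable fun z => F z * fderiv ℝ ρ (x - z) v := fun v =>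
    (h2.fderiv_apply ℝ v).convolutionExists_right (ContinuousLinearMap.mul ℝ ℂ) hF
      (hc.clm_apply continuous_const) x
  have hv : ∀ v, fderiv ℝ (WEYL_cv F ρ) x v = ∫ z, F z * fderiv ℝ ρ (x - z) v := fun v => by
    rw [hD.fderiv, convolution_precompR_apply _ hF (h2.fderiv ℝ) hc]
    rfl
  refine differentiableAt_of_pzb hD.differentiableAt fun j => ?_
  have h3 := h (ρ ∘ fun z => x - z) (h1.comp (contDiff_const.sub contDiff_id))
    (h2.comp_homeomorph (Homeomorph.subLeft x))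
    ((tsupport_comp_subset_preimage ρ (by fun_prop)).trans hx) j
  have h4 : ∀ z v, fderiv ℝ (ρ ∘ fun z => x - z) z v = -fderiv ℝ ρ (x - z) v := fun z v => by
    rw [((h1.differentiable (by simp) (x - z)).hasFDerivAt.comp z
      ((hasFDerivAt_id z).const_sub x)).fderiv]
    simp
  rw [pzb, hv, hv, smul_eq_mul I, ← integral_const_mul,
    ← integral_add (hi _) ((hi _).const_mul I), ← integral_smul, ← neg_eq_zero, ← integral_neg,
    ← h3]
  refine integral_congr_ae (ae_of_all _ fun z => ?_)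
  simp only [pzb, h4, smul_eq_mul]
  ring

theorem WEYL_mean {H ψ : E n → ℂ} {r : ℝ}
    (hH : ∀ w ∈ Metric.closedBall (0 : E n) r, DifferentiableAt ℂ H w) (h1 : Continuous ψ)
    (h2 : ∀ w, w ∉ Metric.closedBall (0 : E n) r → ψ w = 0)
    (h3 : ∀ (c : ℂ) w, ‖c‖ = 1 → ψ (c • w) = ψ w) : ∫ w, H w * ψ w = H 0 * ∫ w, ψ w := by
  have hm : ∀ c : ℂ, ‖c‖ ≤ 1 → ∀ w ∈ Metric.closedBall (0 : E n) r,
      c • w ∈ Metric.closedBall (0 : E n) r := fun c hc w hw => by
    rw [mem_closedBall_zero_iff] at hw ⊢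
    rw [norm_smul]
    exact (mul_le_of_le_one_left (norm_nonneg _) hc).trans hw
  have hn : ∀ θ : ℝ, ‖circleMap 0 1 θ‖ = 1 := fun θ => by simp
  have hp : (2 * Real.pi) ≠ 0 := Real.two_pi_pos.ne'
  have e1 : ∀ w ∈ Metric.closedBall (0 : E n) r,
      ∫ θ in (0 : ℝ)..2 * Real.pi, H (circleMap 0 1 θ • w) * ψ w =
        (2 * Real.pi) • (H 0 * ψ w) := fun w hw => by
    have hd : DifferentiableOn ℂ (fun c : ℂ => H (c • w)) (Metric.closedBall 0 |(1 : ℝ)|) :=
      fun c hc => ((hH _ (hm c (by simpa using hc) w hw)).comp c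
        (f := fun c : ℂ => c • w) (by fun_prop)).differentiableWithinAt
    have e2 := (hd.diffContOnCl_ball subset_rfl).circleAverage
    rw [Real.circleAverage_def, zero_smul] at e2
    rw [intervalIntegral.integral_mul_const, ← e2, ← smul_mul_assoc, smul_smul, mul_inv_cancel₀ hp,
      one_smul]
  have hi : Integrable (Function.uncurry fun (θ : ℝ) (w : E n) => H (circleMap 0 1 θ • w) * ψ w)
      ((volume.restrict (uIoc (0 : ℝ) (2 * Real.pi))).prod
        (volume.restrict (Metric.closedBall (0 : E n) r))) := by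
    rw [Measure.prod_restrict]
    refine IntegrableOn.mono_set (t := uIcc (0 : ℝ) (2 * Real.pi) ×ˢ Metric.closedBall 0 r)
      (ContinuousOn.integrableOn_compact (isCompact_uIcc.prod (isCompact_closedBall _ _)) ?_)
      (prod_mono uIoc_subset_uIcc subset_rfl)
    exact (ContinuousOn.comp (g := H) (f := fun p : ℝ × E n => circleMap 0 1 p.1 • p.2)
      (fun w hw => (hH w hw).continuousAt.continuousWithinAt) (by fun_prop)
      fun p hp => hm _ (hn _).le _ hp.2).mul (h1.comp continuous_snd).continuousOn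
  have e3 : ∀ θ : ℝ, ∫ w in Metric.closedBall (0 : E n) r, H (circleMap 0 1 θ • w) * ψ w =
      ∫ w in Metric.closedBall (0 : E n) r, H w * ψ w := fun θ => by
    rw [← SCVb_rot (fun w => H w * ψ w) 0 r (hn θ)]
    simp only [zero_add, h3 _ _ (hn θ)]
  have e4 := intervalIntegral_integral_swap hi
  simp only [e3] at e4
  rw [setIntegral_congr_fun Metric.isClosed_closedBall.measurableSet e1, integral_smul,
    intervalIntegral.integral_const, sub_zero, integral_const_mul,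
    setIntegral_eq_integral_of_forall_compl_eq_zero h2,
    setIntegral_eq_integral_of_forall_compl_eq_zero fun w hw => by rw [h2 w hw, mul_zero]] at e4
  exact smul_right_injective ℂ hp e4

theorem WEYL_psi {r : ℝ} (hr : 0 < r) : ∃ ψ : E n → ℂ, ContDiff ℝ ∞ ψ ∧
    (∀ w, w ∉ Metric.closedBall (0 : E n) r → ψ w = 0) ∧
    (∀ (c : ℂ) w, ‖c‖ = 1 → ψ (c • w) = ψ w) ∧ ∫ w, ψ w ≠ 0 := by
  have h1 : ContDiff ℝ ∞ fun w : E n => expNegInvGlue (r ^ 2 - ∑ j, ‖w j‖ ^ 2) :=
    expNegInvGlue.contDiff.comp (contDiff_const.sub (ContDiff.sum fun j _ =>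
      (contDiff_apply ℝ ℂ j).norm_sq ℂ))
  have h2 : ∀ w, w ∉ Metric.closedBall (0 : E n) r →
      expNegInvGlue (r ^ 2 - ∑ j, ‖w j‖ ^ 2) = 0 := fun w hw => by
    rw [mem_closedBall_zero_iff, pi_norm_le_iff_of_nonneg hr.le, not_forall] at hw
    obtain ⟨j, hj⟩ := hw
    refine expNegInvGlue.zero_of_nonpos (sub_nonpos.2 ((pow_le_pow_left₀ hr.le (not_le.1 hj).le
      2).trans ?_))
    exact Finset.single_le_sum (f := fun j => ‖w j‖ ^ 2) (fun _ _ => sq_nonneg _)
      (Finset.mem_univ j)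
  refine ⟨fun w => (expNegInvGlue (r ^ 2 - ∑ j, ‖w j‖ ^ 2) : ℝ), ofRealCLM.contDiff.comp h1,
    fun w hw => ofReal_eq_zero.2 (h2 w hw), fun c w hc => by simp [hc], ?_⟩
  refine integral_complex_ofReal.trans_ne (ofReal_ne_zero.2 ?_)
  refine (h1.continuous.integral_pos_of_hasCompactSupport_nonneg_nonzero
    (x := 0) (HasCompactSupport.intro (isCompact_closedBall 0 r) h2)
    (fun w => expNegInvGlue.nonneg _) (expNegInvGlue.pos_of_pos ?_).ne').ne'
  simpa using pow_pos hr 2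

theorem WEYL_assoc {F φ ψ : E n → ℂ} (hF : LocallyIntegrable F) (h1 : Continuous φ)
    (h2 : HasCompactSupport φ) (h3 : Continuous ψ) (h4 : HasCompactSupport ψ) (x : E n) :
    WEYL_cv (WEYL_cv F φ) ψ x = WEYL_cv F (WEYL_cv φ ψ) x :=
  convolution_assoc _ _ _ _ (fun a b c => mul_assoc a b c) hF.aestronglyMeasurable
    h1.aestronglyMeasurable h3.aestronglyMeasurable
    (ae_of_all _ (h2.convolutionExists_right _ hF h1))
    (ae_of_all _ (h4.norm.convolutionExists_right _ h1.norm.locallyIntegrable h3.norm))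
    ((h2.norm.convolution _ h4.norm).convolutionExists_right _ (fun y => (hF y).norm)
      (h4.norm.continuous_convolution_right _ h1.norm.locallyIntegrable h3.norm) x)

theorem WEYL_comm (φ ψ : E n → ℂ) : WEYL_cv φ ψ = WEYL_cv ψ φ := by
  rw [WEYL_cv, ← convolution_flip, ContinuousLinearMap.flip_mul]

theorem WEYL_loc {F : E n → ℂ} (hF : LocallyIntegrable F) {a : E n} {r : ℝ} (hr : 0 < r)
    (h : ∀ φ : E n → ℂ, ContDiff ℝ ∞ φ → HasCompactSupport φ →
      tsupport φ ⊆ Metric.closedBall a (2 * r) → ∀ j, ∫ z, F z * pzb j φ z = 0) :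
    ∃ g : E n → ℂ, DifferentiableOn ℂ g (Metric.ball a r) ∧
      ∀ᵐ z, z ∈ Metric.ball a r → F z = g z := by
  obtain ⟨ψ, p1, p2, p3, p4⟩ := WEYL_psi (n := n) hr
  have p5 : HasCompactSupport ψ := HasCompactSupport.intro (isCompact_closedBall 0 r) p2
  have p6 : tsupport ψ ⊆ Metric.closedBall 0 r :=
    closure_minimal (fun w hw => by_contra fun k => hw (p2 w k)) Metric.isClosed_closedBall
  have hc : Continuous (WEYL_cv F ψ) := p5.continuous_convolution_right _ hF p1.continuous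
  refine ⟨fun z => (∫ w, ψ w)⁻¹ * WEYL_cv F ψ z, fun x hx => ((WEYL_hol hF h p1 p5
    fun z hz => ?_).const_mul _).differentiableWithinAt, ?_⟩
  · have k := p6 hz
    rw [mem_closedBall_zero_iff, ← dist_eq_norm, dist_comm] at k
    rw [Metric.mem_ball] at hx
    rw [Metric.mem_closedBall]
    linarith [dist_triangle z x a]
  have hg : LocallyIntegrable fun z => (∫ w, ψ w)⁻¹ * WEYL_cv F ψ z :=
    (continuous_const.mul hc).locallyIntegrable
  refine (Metric.isOpen_ball.ae_eq_zero_of_integral_contDiff_smul_eq_zero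
    ((hF.sub hg).locallyIntegrableOn _) fun φ q1 q2 q3 => ?_).mono
    fun z k hz => sub_eq_zero.1 (k hz)
  have q4 : ContDiff ℝ ∞ ((fun t => (φ t : ℂ)) ∘ fun t : E n => -t) :=
    (ofRealCLM.contDiff.comp q1).comp contDiff_neg
  have q5 : HasCompactSupport ((fun t => (φ t : ℂ)) ∘ fun t : E n => -t) :=
    (q2.comp_left ofReal_zero).comp_homeomorph (Homeomorph.neg _)
  have q6 := WEYL_mean (H := WEYL_cv F ((fun t => (φ t : ℂ)) ∘ fun t : E n => -t))
    (fun x hx => WEYL_hol hF h q4 q5 fun z hz => by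
      have k := q3 (tsupport_comp_subset ofReal_zero φ
        (tsupport_comp_subset_preimage _ continuous_neg hz))
      rw [mem_ball_iff_norm] at k
      rw [mem_closedBall_zero_iff] at hx
      rw [mem_closedBall_iff_norm, show z - a = -(x - z) - a + x by abel]
      linarith [norm_add_le (-(x - z) - a) x]) p1.continuous p2 p3
  have q7 := WEYL_assoc hF q4.continuous q5 p1.continuous p5 0
  rw [WEYL_comm (_ ∘ _) ψ] at q7
  have q8 := q7.trans (WEYL_assoc hF p1.continuous p5 q4.continuous q5 0).symm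
  have q9 : ∀ t, ψ (-t) = ψ t := fun t => by rw [← p3 (-1) t (by simp), neg_one_smul]
  have i1 : ∀ G : E n → ℂ, LocallyIntegrable G → Integrable fun t => φ t • G t := fun G hG =>
    hG.integrable_smul_left_of_hasCompactSupport q1.continuous q2
  simp only [convolution_def (x := (0 : E n)), ContinuousLinearMap.mul_apply', zero_sub, q9,
    Function.comp_apply, neg_neg] at q6 q8
  simp only [Pi.sub_apply, smul_sub]
  rw [integral_sub (i1 _ hF) (i1 _ hg)]
  simp only [real_smul, mul_left_comm _ (∫ w, ψ w)⁻¹, mul_comm (φ _ : ℂ)]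
  rw [integral_const_mul, ← q8, q6, mul_comm _ (∫ w, ψ w), inv_mul_cancel_left₀ p4, sub_self]

/-- Mollify (`ContDiffBump.normed`, convolution): the mollifications are holomorphic on smaller
sets, converge in `L¹` locally, hence locally uniformly by `mean_value`; `hol_of_tendsto`. -/
theorem weyl {f : E n → ℂ} {U : Set (E n)} (hU : IsOpen U) (hf : LocallyIntegrableOn f U)
    (h : ∀ φ : E n → ℂ, ContDiff ℝ ∞ φ → HasCompactSupport φ → tsupport φ ⊆ U →
      ∀ j, ∫ z, f z * pzb j φ z = 0) :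
    ∃ g : E n → ℂ, DifferentiableOn ℂ g U ∧ ∀ᵐ z, z ∈ U → f z = g z := by
  refine WEYL_glue hU fun a ha => ?_
  obtain ⟨r, hr, hs⟩ := SCVb_ball hU ha
  have hF : Integrable ((Metric.closedBall a (2 * r)).indicator f) :=
    (hf.integrableOn_compact_subset hs (isCompact_closedBall _ _)).integrable_indicator
      Metric.isClosed_closedBall.measurableSet
  obtain ⟨g, h1, h2⟩ := WEYL_loc hF.locallyIntegrable (a := a) hr fun φ p1 p2 p3 j => by
    rw [← h φ p1 p2 (p3.trans hs) j]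
    refine integral_congr_ae (ae_of_all _ fun z => ?_)
    by_cases c : z ∈ Metric.closedBall a (2 * r)
    · simp only [indicator_of_mem c]
    · simp [pzb, fderiv_of_notMem_tsupport ℝ fun k => c (p3 k)]
  refine ⟨_, g, Metric.isOpen_ball, Metric.mem_ball_self hr, h1, h2.mono fun z k hz => ?_⟩
  rw [← k hz, indicator_of_mem (Metric.ball_subset_closedBall
    (Metric.ball_subset_ball (by linarith) hz))]

end

end Pool.Agent.MP_1c689d_ag.K0

end

section

/-! Mollifiers on the model space: definitions. -/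

set_option autoImplicit false

open Complex Filter Topology Set MeasureTheory
open scoped ComplexConjugate ContDiff ENNReal NNReal

namespace Pool.Agent.MP_1c689d_ag.K0.L2

noncomputable section

variable {n : ℕ} {W W' : Type} [NormedAddCommGroup W] [NormedSpace ℝ W] [NormedAddCommGroup W']
  [NormedSpace ℝ W']

/-- The square of the `L²` norm on the model space. -/
def q2 (v : E n → W) : ℝ≥0∞ := ∫⁻ z, ‖v z‖ₑ ^ 2

/-- The convolution with a real kernel. -/
def Jm (φ : E n → ℝ) (v : E n → W) (x : E n) : W := ∫ t, φ t • v (x - t)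

/-- A sequence of mollifiers. -/
structure Mol (φ : ℕ → E n → ℝ) (δ : ℝ) : Prop where
  pos : 0 < δ
  sm : ∀ j, ContDiff ℝ ∞ (φ j)
  nonneg : ∀ j t, 0 ≤ φ j t
  supp : ∀ (j : ℕ) t, φ j t ≠ 0 → ‖t‖ ≤ δ / (j + 1)
  int : ∀ j, ∫ t, φ j t = 1
  bd : ∃ C : ℝ, ∀ j, ∫ t, ‖t‖ * ‖fderiv ℝ (φ j) t‖ ≤ C

/-- The real coordinate directions. -/
def dir : Fin n ⊕ Fin n → E n := Sum.elim (fun j => Pi.single j 1) fun j => Pi.single j I

/-- A first order operator on the model space. -/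
def Qm (A : Fin n ⊕ Fin n → E n → W →L[ℝ] W') (C : E n → W →L[ℝ] W') (v : E n → W) (z : E n) :
    W' :=
  ∑ i, A i z (fderiv ℝ v z (dir i)) + C z (v z)

/-- Smooth functions with compact support. -/
structure Sc (v : E n → W) : Prop where
  sm : ContDiff ℝ ∞ v
  cs : HasCompactSupport v

end

end Pool.Agent.MP_1c689d_ag.K0.L2

end

section

/-! The `L²` norm on a compact manifold: definitions. -/

set_option autoImplicit false

open Complex Filter Topology Set MeasureTheory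
open scoped ComplexConjugate ContDiff ENNReal NNReal

namespace Pool.Agent.MP_1c689d_ag.K0.L2

noncomputable section

/-- A finite partition into measurable pieces that are relatively compact in charts. -/
structure Cov (n : ℕ) (X : Type) [TopologicalSpace X] [Mf n X] [MeasurableSpace X] where
  r : ℕ
  c : Fin r → X
  L : Fin r → Set X
  A : Fin r → Set X
  cpt : ∀ i, IsCompact (L i)
  sub : ∀ i, L i ⊆ (ch n (c i)).source
  ms : ∀ i, MeasurableSet (A i)
  AL : ∀ i, A i ⊆ L i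
  dis : Pairwise (Function.onFun Disjoint A)
  un : ⋃ i, A i = univ

theorem exists_cov (n : ℕ) (X : Type) [TopologicalSpace X] [Mf n X] [MeasurableSpace X]
    [BorelSpace X] [CompactSpace X] : Nonempty (Cov n X) := by
  have h : ∀ p : X, ∃ K, K ∈ 𝓝 p ∧ K ⊆ (ch n p).source ∧ IsCompact K := fun p =>
    local_compact_nhds (chart_source_mem_nhds (E n) p)
  choose K h1 h2 h3 using h
  obtain ⟨s, -, hs⟩ := isCompact_univ.elim_nhds_subcover K fun p _ => h1 p
  let c : Fin s.card → X := fun i => s.equivFin.symm i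
  refine ⟨⟨s.card, c, fun i => K (c i), disjointed fun i => K (c i), fun i => h3 _, fun i => h2 _,
    fun i => disjointedRec (fun _ _ ht => ht.diff (h3 _).measurableSet) (h3 _).measurableSet,
    disjointed_subset _, disjoint_disjointed _, ?_⟩⟩
  rw [iUnion_disjointed]
  refine eq_univ_of_forall fun y => ?_
  obtain ⟨p, hp, hy⟩ := mem_iUnion₂.1 (hs (mem_univ y))
  exact mem_iUnion.2 ⟨s.equivFin ⟨p, hp⟩, by simpa [c] using hy⟩

/-- The chosen partition. -/
def cov (n : ℕ) (X : Type) [TopologicalSpace X] [Mf n X] [MeasurableSpace X] [BorelSpace X]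
    [CompactSpace X] : Cov n X := Classical.choice (exists_cov n X)

variable {n : ℕ} {X : Type} [TopologicalSpace X] [Mf n X]

/-- The pointwise norm is continuous in every preferred chart. -/
def Cn (α : Fm n X) : Prop := ∀ p, ContinuousOn (fun z => ‖rep p α z‖) (ch n p).target

/-- The first order operators that are used. -/
def Po (G : Ga X) (a b : Fm n X) (s t : ℕ × ℕ) (U : Fm n X) : Fm n X :=
  a * dbar G (pf s.1 s.2 U) + b * dp G (pf t.1 t.2 U)

/-- Smooth forms with support in `L`. -/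
structure SmS (G : Ga X) (L : Set X) (V : Fm n X) : Prop where
  sm : Sm G V univ
  supp : tsupport V ⊆ L

/-- The smooth forms with values in `G`. -/
def SmF (n : ℕ) [Mf n X] (G : Ga X) : Submodule ℂ (Fm n X) where
  carrier := {α | Sm G α univ}
  add_mem' := fun ha hb p hp => (ha p hp).add (hb p hp)
  zero_mem' := fun _ _ => smAt_zero
  smul_mem' := fun c _ ha p hp => (ha p hp).smul c

/-- The smooth forms of type `(a, b)` with values in `G`. -/
def SmT (n : ℕ) [Mf n X] (G : Ga X) (a b : ℕ) : Submodule ℂ (Fm n X) where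
  carrier := {α | Sm G α univ ∧ Ty a b α}
  add_mem' := fun ha hb => ⟨fun p hp => (ha.1 p hp).add (hb.1 p hp),
    fun y => add_mem (ha.2 y) (hb.2 y)⟩
  zero_mem' := ⟨fun _ _ => smAt_zero, fun _ => zero_mem _⟩
  smul_mem' := fun c _ ha => ⟨fun p hp => (ha.1 p hp).smul c,
    fun y => Submodule.smul_mem _ c (ha.2 y)⟩

section Om

variable {N : ℕ} {x : X → Fin N → ℂ} {p : X} {G : Ga X} {α : Fm n X}

theorem om_dbar (h : PMAt x p) : dbar 1 (Om x : Fm n X) p = 0 :=
  ((dd_eq_zero_iff (Eventually.of_forall Om_Ty)).1 h.dd_Om).2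

theorem om_gi : gi (Om x p : Λ n) = Om x p := by
  rw [gi_of_Tp (Om_Ty p)]; simp

theorem om_comm (a : Λ n) : Om x p * a = a * Om x p :=
  comm_even (k := 1) (Tp_le_Dg (p := 1) (q := 1) (Om_Ty p)) a

theorem dbar_om_mul (h : PMAt x p) (hG : GOk G p) (hα : SmAt G α p) :
    dbar G (Om x * α) p = Om x p * dbar G α p := by
  rw [dbar_mul' (by rw [one_mul]) gok_one hG h.Om_sm hα, om_dbar h, zero_mul, zero_add, om_gi]

/-- The trace of a `(1,1)`-form on a surface. -/
def tw {S : Type} [TopologicalSpace S] [Mf 2 S] (x : S → Fin N → ℂ) (β : Fm 2 S) : S → ℂ :=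
  fun y => top (Om x y * β y) / top (Om x y * Om x y : Λ 2)

end Om

/-- A chart with a holomorphic frame. -/
structure Loc (n : ℕ) [Mf n X] (G : Ga X) where
  e : OpenPartialHomeomorph X (E n)
  he : IsCh e
  σ : X → ℂ
  hol : ∀ y ∈ e.source, HolAt G σ y
  ne : ∀ y ∈ e.source, σ y ≠ 0

namespace Loc

variable {G : Ga X} (D : Loc n G)

/-- From the model to the manifold. -/
def up (v : E n → Λ n) : Fm n X := indicator D.e.source (D.σ • pb D.e v)

/-- From the manifold to the model. -/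
def dn (V : Fm n X) : E n → Λ n :=
  indicator D.e.target (pb D.e.symm ((fun y => (D.σ y)⁻¹) • V))

/-- The dual frame. -/
def inv (hG : ∀ p, GOk G p) : Loc n G⁻¹ where
  e := D.e
  he := D.he
  σ := fun y => (D.σ y)⁻¹
  hol := fun y hy => (D.hol y hy).inv (hG y) (D.ne y hy)
  ne := fun y hy => inv_ne_zero (D.ne y hy)

/-- The smoothing operator. -/
def S (φ : E n → ℝ) (V : Fm n X) : Fm n X := D.up (Jm φ (D.dn V))

end Loc

variable [MeasurableSpace X] [BorelSpace X] [CompactSpace X]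

/-- The pieces in their charts. -/
def Pc (i : Fin (cov n X).r) : Set (E n) := ch n ((cov n X).c i) '' (cov n X).A i

/-- The compact sets that contain the pieces. -/
def Kc (i : Fin (cov n X).r) : Set (E n) := ch n ((cov n X).c i) '' (cov n X).L i

/-- A form in the chart of a piece. -/
def rp (i : Fin (cov n X).r) (α : Fm n X) : E n → Λ n := rep ((cov n X).c i) α

/-- The square of the `L²` norm. -/
def nq (α : Fm n X) : ℝ≥0∞ := ∑ i : Fin (cov n X).r, ∫⁻ z in Pc i, ‖rp i α z‖ₑ ^ 2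

/-- The `L²` norm. -/
def nr (α : Fm n X) : ℝ := Real.sqrt (nq α).toReal

/-- Cauchy sequences. -/
def Cau (U : ℕ → Fm n X) : Prop :=
  Tendsto (fun k : ℕ × ℕ => nr (U k.1 - U k.2)) atTop (𝓝 0)

/-- Weak null sequences. -/
def Wk0 (G : Ga X) (U : ℕ → Fm n X) : Prop :=
  ∀ φ : Fm n X, Sm G⁻¹ φ univ → Tendsto (fun k => itg (U k * φ)) atTop (𝓝 0)

/-- Smoothing operators for forms with support in `L`: the algebraic properties. -/
structure SOa (G : Ga X) (L : Set X) (S : ℕ → Fm n X → Fm n X) : Prop where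
  sm : ∀ j V, SmS G L V → Sm G (S j V) univ
  sub : ∀ j V W, SmS G L V → SmS G L W → S j (V - W) = S j V - S j W
  pt : ∀ j (W : ℕ → Fm n X), (∀ k, SmS G L (W k)) → Wk0 G W →
    ∀ y, Tendsto (fun k => S j (W k) y) atTop (𝓝 0)

/-- Smoothing operators for forms with support in `L`: the estimates. -/
structure SOb (G : Ga X) (P : Fm n X → Fm n X) (L : Set X) (S : ℕ → Fm n X → Fm n X) : Prop where
  bd : ∃ C : ℝ, ∀ j V, SmS G L V →
    nr (S j V) ≤ C * nr V ∧ nr (P (S j V) - S j (P V)) ≤ C * nr V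
  lim : ∀ V, SmS G L V → Tendsto (fun j => nr (S j V - V)) atTop (𝓝 0) ∧
    Tendsto (fun j => nr (P (S j V) - S j (P V))) atTop (𝓝 0)
  fix : ∀ j, ∃ C : ℝ, ∀ V, SmS G L V → nr (S j (P V)) ≤ C * nr V

/-- The curvature of `G` is positive on `(1,0)`-forms, with constant `C`. -/
def CPos (n : ℕ) [Mf n X] (G : Ga X) (C : ℝ) : Prop :=
  ∀ γ : Fm n X, Sm G γ univ → Ty 1 0 γ → nr γ ^ 2 ≤ C * (-itg (cur G * (γ * cf γ))).re

/-- Smooth `(n,0)`-forms are close to holomorphic ones, with constant `C`. -/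
def HSol (n : ℕ) [Mf n X] (G : Ga X) (C : ℝ) : Prop :=
  ∀ g : Fm n X, Sm G g univ → Ty n 0 g → ∃ s : Fm n X, Ty n 0 s ∧ (∀ y, HFm G s y) ∧
    nr (g - s) ≤ C * nr (dbar G g)

end

end Pool.Agent.MP_1c689d_ag.K0.L2

end

section

/-! The `L²` norm: the pieces. -/

set_option autoImplicit false

open Complex Filter Topology Set MeasureTheory
open scoped ComplexConjugate ContDiff ENNReal NNReal

namespace Pool.Agent.MP_1c689d_ag.K0.L2

noncomputable section

variable {n : ℕ} {X : Type} [TopologicalSpace X] [Mf n X] [MeasurableSpace X] [BorelSpace X]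
  [CompactSpace X]

variable {G : Ga X} {α β : Fm n X}

omit [MeasurableSpace X] [BorelSpace X] [CompactSpace X] in
/-- At `z = ch p y` write `α = G y • α'` near `y` with `α'` smooth (`smAt_iff_one`,
`smAt_chart`); `‖G y ·‖` is continuous (`GOk.sm`). -/
theorem cn_of_sm (hG : ∀ p, GOk G p) (hα : Sm G α univ) : Cn α := by
  intro p z hz
  have hy : (ch n p).symm z ∈ (ch n p).source := (ch n p).map_target hz
  have hc : ContinuousAt (ch n p).symm z := (ch n p).continuousAt_symm hz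
  have h1 := (smAt_chart (isCh_ch p) hy).1 (smAt_iff_one.1 (hα _ (mem_univ _)))
  rw [(ch n p).right_inv hz] at h1
  have h2 := h1.self_of_nhds.continuousAt.norm
  have h3 := ContinuousAt.comp (f := (ch n p).symm) (hG ((ch n p).symm z)).sm.continuousAt hc
  have h4 := ((continuous_re.continuousAt.comp h3).sqrt.mul h2)
  refine (h4.congr ?_).continuousWithinAt
  filter_upwards [hc.tendsto.eventually (hG ((ch n p).symm z)).ne] with w hw
  simp only [Pi.mul_apply, Function.comp_apply, ofReal_re, rep, pb, map_smul, norm_smul, norm_inv]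
  rw [normSq_eq_norm_sq, Real.sqrt_sq (norm_nonneg _), ← mul_assoc,
    mul_inv_cancel₀ (norm_ne_zero_iff.2 hw), one_mul]

theorem Pc_sub (i : Fin (cov n X).r) : Pc i ⊆ Kc i := by
  exact image_mono ((cov n X).AL i)

theorem Kc_cpt (i : Fin (cov n X).r) : IsCompact (Kc i) := by
  exact ((cov n X).cpt i).image_of_continuousOn
    ((ch n ((cov n X).c i)).continuousOn.mono ((cov n X).sub i))

theorem Kc_sub (i : Fin (cov n X).r) : Kc i ⊆ (ch n ((cov n X).c i)).target := by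
  rintro _ ⟨y, hy, rfl⟩
  exact (ch n ((cov n X).c i)).map_source ((cov n X).sub i hy)

theorem Pc_ms (i : Fin (cov n X).r) : MeasurableSet (Pc i) := by
  exact INT1a_meas ((cov n X).ms i) (((cov n X).AL i).trans ((cov n X).sub i))

theorem rp_cont (h : Sm 1 α univ) (i : Fin (cov n X).r) : ContinuousOn (rp i α) (Kc i) := by
  rintro _ ⟨y, hy, rfl⟩
  exact ((smAt_chart (isCh_ch _) ((cov n X).sub i hy)).1
    (h y (mem_univ _))).self_of_nhds.continuousAt.continuousWithinAt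

/-- The value in the chart is the image under a complex linear isomorphism. -/
theorem rp_iso (i : Fin (cov n X).r) {z : E n} (hz : z ∈ Kc i) : ∃ (y : X) (B : E n ≃L[ℂ] E n),
    ∀ α : Fm n X, rp i α z = lm ((B : E n →L[ℂ] E n).restrictScalars ℝ) (α y) := by
  have hz' := Kc_sub i hz
  have he := isCh_ch (n := n) ((cov n X).c i)
  have h2 := he.2 z hz'
  have h1 := he.1 _ ((ch n ((cov n X).c i)).map_target hz')
  obtain ⟨B, hB⟩ := h2.df_complex
  have e := df_comp h1 h2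
  rw [df_congr (f := ch n ((cov n X).c i) ∘ (ch n ((cov n X).c i)).symm) (g := id)
    ((ch n ((cov n X).c i)).eventually_right_inverse hz'), df_id, hB] at e
  have hi : Function.Injective (B : E n →ₗ[ℂ] E n) :=
    Function.LeftInverse.injective fun v => (DFunLike.congr_fun e v).symm
  refine ⟨(ch n ((cov n X).c i)).symm z,
    (LinearEquiv.ofInjectiveEndo _ hi).toContinuousLinearEquiv, fun α => ?_⟩
  simp only [rp, rep, pb, hB]
  rfl

theorem NA0_int (h : Cn α) (i : Fin (cov n X).r) :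
    IntegrableOn (fun z => ‖rp i α z‖ ^ 2) (Pc i) :=
  ((((h _).mono (Kc_sub i)).pow 2).integrableOn_compact (Kc_cpt i)).mono_set (Pc_sub i)

theorem NA0_eq (h : Cn α) (i : Fin (cov n X).r) :
    ∫⁻ z in Pc i, ‖rp i α z‖ₑ ^ 2 = ENNReal.ofReal (∫ z in Pc i, ‖rp i α z‖ ^ 2) := by
  rw [ofReal_integral_eq_lintegral_ofReal (NA0_int h i)
    (Eventually.of_forall fun _ => sq_nonneg _)]
  refine lintegral_congr fun z => ?_
  rw [ENNReal.ofReal_pow (norm_nonneg _), ofReal_norm]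

theorem nq_ne_top (h : Cn α) : nq α ≠ ⊤ := by
  refine ENNReal.sum_ne_top.2 fun i _ => ?_
  rw [NA0_eq h i]
  exact ENNReal.ofReal_ne_top

theorem nr_sq (h : Cn α) : (∀ i, IntegrableOn (fun z => ‖rp i α z‖ ^ 2) (Pc i)) ∧
    nr α ^ 2 = ∑ i : Fin (cov n X).r, ∫ z in Pc i, ‖rp i α z‖ ^ 2 := by
  refine ⟨NA0_int h, ?_⟩
  rw [nr, Real.sq_sqrt ENNReal.toReal_nonneg, nq,
    ENNReal.toReal_sum fun i _ => by rw [NA0_eq h i]; exact ENNReal.ofReal_ne_top]
  refine Finset.sum_congr rfl fun i _ => ?_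
  rw [NA0_eq h i, ENNReal.toReal_ofReal (integral_nonneg fun _ => sq_nonneg _)]

/-- `integral_chart`, `integrableOn_chart`, `integral_iUnion_fintype`. -/
theorem itg_pieces (h : Sm 1 β univ) : (∀ i, IntegrableOn (fun z => top (rp i β z)) (Pc i)) ∧
    itg β = ∑ i : Fin (cov n X).r, ∫ z in Pc i, top (rp i β z) := by
  have hi : Integrable (dens β) (mu n X) := intg_of_compact h
  have hs : ∀ i, (cov n X).A i ⊆ (ch n ((cov n X).c i)).source := fun i =>
    ((cov n X).AL i).trans ((cov n X).sub i)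
  refine ⟨fun i => (integrableOn_chart (isCh_ch _) ((cov n X).ms i) (hs i) β).1 hi.integrableOn,
    ?_⟩
  rw [itg, ← setIntegral_univ, ← (cov n X).un,
    integral_iUnion_fintype (cov n X).ms (cov n X).dis fun _ => hi.integrableOn]
  exact Finset.sum_congr rfl fun i _ => integral_chart (isCh_ch _) ((cov n X).ms i) (hs i) β

end

end Pool.Agent.MP_1c689d_ag.K0.L2

end

section

/-! The `L²` norm is a seminorm. -/

set_option autoImplicit false

open Complex Filter Topology Set MeasureTheory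
open scoped ComplexConjugate ContDiff ENNReal NNReal

namespace Pool.Agent.MP_1c689d_ag.K0.L2

noncomputable section

variable {n : ℕ} {X : Type} [TopologicalSpace X] [Mf n X] [MeasurableSpace X] [BorelSpace X]
  [CompactSpace X]

variable {G : Ga X} {α β γ : Fm n X}

theorem NA_aem (h : Cn α) (i : Fin (cov n X).r) :
    AEMeasurable (fun z => ‖rp i α z‖ₑ ^ 2) (volume.restrict (Pc i)) := by
  have := ((h _).mono ((Pc_sub i).trans (Kc_sub i))).aemeasurable (μ := volume) (Pc_ms i)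
  simp only [← ofReal_norm]
  exact this.ennreal_ofReal.pow_const 2

theorem NA_nq (h : Cn α) : nq α = ENNReal.ofReal (nr α ^ 2) := by
  rw [nr, Real.sq_sqrt ENNReal.toReal_nonneg, ENNReal.ofReal_toReal (nq_ne_top h)]

theorem NA_le {t : ℝ} (ht : 0 ≤ t) (h : nq α ≤ ENNReal.ofReal (t ^ 2)) : nr α ≤ t :=
  Real.sqrt_le_iff.2 ⟨ht, ENNReal.toReal_le_of_le_ofReal (sq_nonneg t) h⟩

theorem NA_sq {W : Type} [NormedAddCommGroup W] (a : W) :
    ‖a‖ₑ ^ 2 = ENNReal.ofReal (‖a‖ ^ 2) := by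
  rw [← ofReal_norm, ENNReal.ofReal_pow (norm_nonneg a)]

theorem NA_add (hα : Cn α) {t : ℝ} (ht : 0 < t) :
    nq (α + β) ≤ ENNReal.ofReal (1 + t) * nq α + ENNReal.ofReal (1 + t⁻¹) * nq β := by
  simp only [nq, Finset.mul_sum, ← Finset.sum_add_distrib]
  refine Finset.sum_le_sum fun i _ => ?_
  rw [← lintegral_const_mul' _ _ ENNReal.ofReal_ne_top,
    ← lintegral_const_mul' _ _ ENNReal.ofReal_ne_top,
    ← lintegral_add_left' ((NA_aem hα i).const_mul _)]
  refine lintegral_mono fun z => ?_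
  have e : rp i (α + β) z = rp i α z + rp i β z := map_add _ _ _
  have h1 : 0 ≤ 1 + t := by positivity
  have h2 : 0 ≤ 1 + t⁻¹ := by positivity
  simp only [NA_sq, e]
  rw [← ENNReal.ofReal_mul h1, ← ENNReal.ofReal_mul h2,
    ← ENNReal.ofReal_add (by positivity) (by positivity)]
  refine ENNReal.ofReal_le_ofReal ?_
  have h3 := pow_le_pow_left₀ (norm_nonneg _) (norm_add_le (rp i α z) (rp i β z)) 2
  generalize ‖rp i α z‖ = a at h3 ⊢
  generalize ‖rp i β z‖ = b at h3 ⊢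
  have h4 : (1 + t) * a ^ 2 + (1 + t⁻¹) * b ^ 2 = (a + b) ^ 2 + t⁻¹ * (t * a - b) ^ 2 := by
    field_simp
    ring
  rw [h4]
  exact h3.trans (le_add_of_nonneg_right (by positivity))

theorem NA_opt {a b c : ℝ} (ha : 0 ≤ a) (hb : 0 ≤ b)
    (h : ∀ t, 0 < t → c ^ 2 ≤ (1 + t) * a ^ 2 + (1 + t⁻¹) * b ^ 2) : c ≤ a + b := by
  refine le_of_forall_pos_le_add fun ε hε => ?_
  have ht : 0 < (b + ε / 2) / (a + ε / 2) := by positivity
  refine le_of_sq_le_sq ((h _ ht).trans ?_) (by positivity)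
  have e : (a + b + ε) ^ 2 = (1 + (b + ε / 2) / (a + ε / 2)) * (a + ε / 2) ^ 2 +
      (1 + ((b + ε / 2) / (a + ε / 2))⁻¹) * (b + ε / 2) ^ 2 := by
    field_simp
    ring
  rw [e]
  gcongr <;> linarith

theorem NA_one (h : Cn α) :
    AEMeasurable (fun z => ∑ i : Fin (cov n X).r, (Pc i).indicator (fun z => ‖rp i α z‖ₑ ^ 2) z) ∧
      nq α = ∫⁻ z, ∑ i : Fin (cov n X).r, (Pc i).indicator (fun z => ‖rp i α z‖ₑ ^ 2) z := by
  have h1 : ∀ i : Fin (cov n X).r, AEMeasurable ((Pc i).indicator fun z => ‖rp i α z‖ₑ ^ 2) :=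
    fun i => (aemeasurable_indicator_iff (Pc_ms i)).2 (NA_aem h i)
  refine ⟨Finset.aemeasurable_fun_sum _ fun i _ => h1 i, ?_⟩
  rw [lintegral_finsetSum' _ fun i _ => h1 i]
  simp only [lintegral_indicator (Pc_ms _), nq]

theorem nr_nonneg (α : Fm n X) : 0 ≤ nr α := by
  exact Real.sqrt_nonneg _

theorem nr_zero : nr (0 : Fm n X) = 0 := by
  have e : ∀ (i : Fin (cov n X).r) z, rp i (0 : Fm n X) z = 0 := fun i z => map_zero _
  simp [nr, nq, e]

theorem nr_smul (c : ℂ) (α : Fm n X) : nr (c • α) = ‖c‖ * nr α := by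
  have e : ∀ (i : Fin (cov n X).r) z, rp i (c • α) z = c • rp i α z :=
    fun i z => congrFun (pb_smul c α) z
  have h : nq (c • α) = ‖c‖ₑ ^ 2 * nq α := by
    simp only [nq, e, enorm_smul, mul_pow, Finset.mul_sum]
    exact Finset.sum_congr rfl fun i _ =>
      lintegral_const_mul' _ _ (ENNReal.pow_ne_top enorm_ne_top)
  rw [nr, h, ENNReal.toReal_mul, ENNReal.toReal_pow, toReal_enorm, Real.sqrt_mul (sq_nonneg _),
    Real.sqrt_sq (norm_nonneg c), nr]

theorem nr_neg (α : Fm n X) : nr (-α) = nr α := by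
  rw [← neg_one_smul ℂ α, nr_smul, norm_neg, norm_one, one_mul]

theorem nr_sub_comm (α β : Fm n X) : nr (α - β) = nr (β - α) := by
  rw [← nr_neg, neg_sub]

theorem nr_le_of_nq {C : ℝ≥0} (hβ : Cn β) (h : nq α ≤ C * nq β) :
    nr α ≤ Real.sqrt C * nr β := by
  rw [nr, nr, ← Real.sqrt_mul C.coe_nonneg]
  refine Real.sqrt_le_sqrt ?_
  have := ENNReal.toReal_mono (ENNReal.mul_ne_top ENNReal.coe_ne_top (nq_ne_top hβ)) h
  rwa [ENNReal.toReal_mul] at this

theorem nr_mono (hβ : Cn β) {M : ℝ} (hM : 0 ≤ M)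
    (h : ∀ i : Fin (cov n X).r, ∀ z ∈ Kc i, ‖rp i α z‖ ≤ M * ‖rp i β z‖) : nr α ≤ M * nr β := by
  refine NA_le (mul_nonneg hM (nr_nonneg β)) ?_
  rw [mul_pow, ENNReal.ofReal_mul (sq_nonneg M), ← NA_nq hβ, nq, nq, Finset.mul_sum]
  refine Finset.sum_le_sum fun i _ => ?_
  rw [← lintegral_const_mul' _ _ ENNReal.ofReal_ne_top]
  refine setLIntegral_mono' (Pc_ms i) fun z hz => ?_
  rw [NA_sq, NA_sq, ← ENNReal.ofReal_mul (sq_nonneg M), ← mul_pow]
  exact ENNReal.ofReal_le_ofReal (pow_le_pow_left₀ (norm_nonneg _) (h i z (Pc_sub i hz)) 2)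

/-- Integrate `(a + b) ^ 2 ≤ (1 + t) a ^ 2 + (1 + 1 / t) b ^ 2` and optimise `t`. -/
theorem nr_add_le (hα : Cn α) (hβ : Cn β) : nr (α + β) ≤ nr α + nr β := by
  refine NA_opt (nr_nonneg α) (nr_nonneg β) fun t ht => ?_
  have h := NA_add (β := β) hα ht
  have h1 : 0 ≤ 1 + t := by positivity
  have h2 : 0 ≤ 1 + t⁻¹ := by positivity
  have h3 := mul_nonneg h1 (sq_nonneg (nr α))
  have h4 := mul_nonneg h2 (sq_nonneg (nr β))
  rw [NA_nq hα, NA_nq hβ, ← ENNReal.ofReal_mul h1, ← ENNReal.ofReal_mul h2,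
    ← ENNReal.ofReal_add h3 h4] at h
  rw [nr, Real.sq_sqrt ENNReal.toReal_nonneg]
  exact ENNReal.toReal_le_of_le_ofReal (add_nonneg h3 h4) h

theorem nr_add_sm (hG : ∀ p, GOk G p) (hα : Sm G α univ) (hβ : Sm G β univ) :
    nr (α + β) ≤ nr α + nr β := by
  exact nr_add_le (cn_of_sm hG hα) (cn_of_sm hG hβ)

theorem nr_sub_sm (hG : ∀ p, GOk G p) (hα : Sm G α univ) (hβ : Sm G β univ) :
    nr (α - β) ≤ nr α + nr β := by
  rw [sub_eq_add_neg, ← nr_neg β]
  exact nr_add_sm hG hα fun p hp => (hβ p hp).neg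

theorem nr_tri (hG : ∀ p, GOk G p) (hα : Sm G α univ) (hβ : Sm G β univ) (hγ : Sm G γ univ) :
    nr (α - γ) ≤ nr (α - β) + nr (β - γ) := by
  rw [← sub_add_sub_cancel α β γ]
  exact nr_add_sm hG (fun p hp => (hα p hp).sub (hβ p hp)) fun p hp => (hβ p hp).sub (hγ p hp)

theorem nr_fsmul_le (hα : Cn α) {s : X → ℂ} {M : ℝ} (hM : 0 ≤ M)
    (h : ∀ y, α y ≠ 0 → ‖s y‖ ≤ M) : nr (s • α) ≤ M * nr α := by
  refine nr_mono hα hM fun i z _ => ?_
  have e : rp i (s • α) z = s ((ch n ((cov n X).c i)).symm z) • rp i α z :=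
    congrFun (pb_fsmul s α) z
  rw [e, norm_smul]
  by_cases h0 : α ((ch n ((cov n X).c i)).symm z) = 0
  · have e0 : rp i α z = 0 := by rw [rp, rep, pb, h0, map_zero]
    simp [e0]
  · exact mul_le_mul_of_nonneg_right (h _ h0) (norm_nonneg _)

theorem tendsto_nr_of_nq {ι : Type} {l : Filter ι} {α : ι → Fm n X}
    (h : Tendsto (fun i => nq (α i)) l (𝓝 0)) : Tendsto (fun i => nr (α i)) l (𝓝 0) := by
  have := (Real.continuous_sqrt.tendsto _).comp
    ((ENNReal.tendsto_toReal ENNReal.zero_ne_top).comp h)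
  rw [ENNReal.toReal_zero, Real.sqrt_zero] at this
  exact this

theorem tendsto_nq_of_nr {ι : Type} {l : Filter ι} {α : ι → Fm n X} (hα : ∀ i, Cn (α i))
    (h : Tendsto (fun i => nr (α i)) l (𝓝 0)) : Tendsto (fun i => nq (α i)) l (𝓝 0) := by
  simp only [fun i => NA_nq (hα i)]
  simpa using ENNReal.tendsto_ofReal (h.pow 2)

/-- The lemma of Fatou (`lintegral_liminf_le'`): `nq (α k) ≤ liminf_l nq (α k - α l)`. -/
theorem nr_fatou (hG : ∀ p, GOk G p) {α : ℕ → Fm n X} (hα : ∀ k, Sm G (α k) univ) (hc : Cau α)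
    (h : ∀ y, Tendsto (fun k => α k y) atTop (𝓝 0)) :
    Tendsto (fun k => nr (α k)) atTop (𝓝 0) := by
  refine tendsto_order.2 ⟨fun a ha => Eventually.of_forall fun k => ha.trans_le (nr_nonneg _),
    fun ε hε => ?_⟩
  obtain ⟨N, hN⟩ := eventually_atTop.1 (hc.eventually (gt_mem_nhds (half_pos hε)))
  filter_upwards [eventually_ge_atTop N.1] with k hk
  refine lt_of_le_of_lt (NA_le (half_pos hε).le ?_) (half_lt_self hε)
  have hs : ∀ l, Cn (α k - α l) := fun l => cn_of_sm hG fun p hp => (hα k p hp).sub (hα l p hp)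
  have h1 : ∀ z, Tendsto (fun l => ∑ i : Fin (cov n X).r,
      (Pc i).indicator (fun z => ‖rp i (α k - α l) z‖ₑ ^ 2) z) atTop
      (𝓝 (∑ i : Fin (cov n X).r, (Pc i).indicator (fun z => ‖rp i (α k) z‖ₑ ^ 2) z)) := by
    intro z
    refine tendsto_finsetSum _ fun i _ => ?_
    by_cases hz : z ∈ Pc i
    · simp only [indicator_of_mem hz]
      have h2 := ((lm (df (ch n ((cov n X).c i)).symm z)).toLinearMap.continuous_of_finiteDimensional
        |>.tendsto _).comp ((h ((ch n ((cov n X).c i)).symm z)).const_sub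
          (α k ((ch n ((cov n X).c i)).symm z)))
      rw [sub_zero] at h2
      exact ENNReal.Tendsto.pow h2.enorm
    · simp only [indicator_of_notMem hz]
      exact tendsto_const_nhds
  rw [(NA_one (cn_of_sm hG (hα k))).2, ← lintegral_congr fun z => (h1 z).liminf_eq]
  refine (lintegral_liminf_le' fun l => (NA_one (hs l)).1).trans
    (liminf_le_of_frequently_le' (Eventually.frequently ?_))
  filter_upwards [eventually_ge_atTop N.2] with l hl
  rw [← (NA_one (hs l)).2, NA_nq (hs l)]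
  exact ENNReal.ofReal_le_ofReal (pow_le_pow_left₀ (nr_nonneg _) (hN (k, l) ⟨hk, hl⟩).le 2)

end

end Pool.Agent.MP_1c689d_ag.K0.L2

end

section

/-! Bounded operators and the inequality of Cauchy and Schwarz. -/

set_option autoImplicit false

open Complex Filter Topology Set MeasureTheory
open scoped ComplexConjugate ContDiff ENNReal NNReal

namespace Pool.Agent.MP_1c689d_ag.K0.L2

noncomputable section

variable {n : ℕ} {X : Type} [TopologicalSpace X] [Mf n X] [MeasurableSpace X] [BorelSpace X]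
  [CompactSpace X]

theorem NB_opt {x K A B : ℝ} (hK : 0 ≤ K) (hA : 0 ≤ A) (hB : 0 ≤ B)
    (h : ∀ t : ℝ, 0 < t → x ≤ K / 2 * (t * A ^ 2 + t⁻¹ * B ^ 2)) : x ≤ K * A * B := by
  have h1 : Tendsto (fun ε : ℝ => K * (A + ε) * (B + ε)) (𝓝[>] 0) (𝓝 (K * (A + 0) * (B + 0))) :=
    (Continuous.tendsto (by fun_prop) 0).mono_left nhdsWithin_le_nhds
  rw [add_zero, add_zero] at h1
  refine ge_of_tendsto h1 (eventually_mem_nhdsWithin.mono fun ε hε => ?_)
  have hε : 0 < ε := hε
  refine (h ((B + ε) / (A + ε)) (by positivity)).trans ?_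
  calc K / 2 * ((B + ε) / (A + ε) * A ^ 2 + ((B + ε) / (A + ε))⁻¹ * B ^ 2)
      ≤ K / 2 * ((B + ε) / (A + ε) * (A + ε) ^ 2 + ((B + ε) / (A + ε))⁻¹ * (B + ε) ^ 2) := by
        gcongr <;> linarith
    _ = _ := by field_simp; ring

/-- `nr_mono`, `rp_iso`, `lm_prj`; `prj a b` is a bounded linear map. -/
theorem nr_pf_le (a b : ℕ) : ∃ C : ℝ, 0 < C ∧ ∀ α : Fm n X, Cn α → nr (pf a b α) ≤ C * nr α := by
  refine ⟨‖LinearMap.toContinuousLinearMap (prj (n := n) a b)‖ + 1, by positivity, fun α hα =>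
    nr_mono hα (by positivity) fun i z hz => ?_⟩
  obtain ⟨y, B, h⟩ := rp_iso i hz
  rw [h, pf, lm_prj, ← h]
  exact ((LinearMap.toContinuousLinearMap (prj a b)).le_opNorm _).trans (by gcongr; linarith)

theorem nr_cf_le : ∃ C : ℝ, 0 < C ∧ ∀ α : Fm n X, Cn α → nr (cf α) ≤ C * nr α := by
  obtain ⟨T, hT⟩ := exists_cjL (n := n)
  refine ⟨‖(T : Λ n →L[ℝ] Λ n)‖ + 1, by positivity, fun α hα =>
    nr_mono hα (by positivity) fun i z _ => ?_⟩
  rw [show rp i (cf α) z = cj (rp i α z) from congrFun (pb_cf α) z, ← hT]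
  exact ((T : Λ n →L[ℝ] Λ n).le_opNorm _).trans (by gcongr; linarith)

theorem nr_mul_le {c : Fm n X} (hc : Sm 1 c univ) :
    ∃ C : ℝ, 0 < C ∧ ∀ α : Fm n X, Cn α → nr (c * α) ≤ C * nr α := by
  choose M hM using fun i => (Kc_cpt i).exists_bound_of_continuousOn (rp_cont hc i)
  refine ⟨∑ i, |M i| + 1, by positivity, fun α hα =>
    nr_mono hα (by positivity) fun i z hz => ?_⟩
  rw [show rp i (c * α) z = rp i c z * rp i α z from congrFun (pb_mul c α) z]
  refine (norm_mul_le _ _).trans ?_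
  gcongr
  have := Finset.single_le_sum (f := fun i => |M i|) (fun j _ => abs_nonneg _) (Finset.mem_univ i)
  linarith [hM i z hz, le_abs_self (M i)]

/-- `itg_pieces`, `nr_sq`, `‖top (a * b)‖ ≤ C (t ‖a‖ ^ 2 + ‖b‖ ^ 2 / t) / 2`, optimise `t`. -/
theorem itg_mul_cn : ∃ C : ℝ, 0 < C ∧ ∀ α β : Fm n X, Cn α → Cn β → Sm 1 (α * β) univ →
    ‖itg (α * β)‖ ≤ C * nr α * nr β := by
  set K := ‖LinearMap.toContinuousLinearMap (top (n := n))‖ + 1 with hK
  have hK0 : 0 < K := by positivity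
  refine ⟨K, hK0, fun α β hα hβ h => NB_opt hK0.le (nr_nonneg α) (nr_nonneg β) fun t ht => ?_⟩
  obtain ⟨a1, a2⟩ := nr_sq hα
  obtain ⟨b1, b2⟩ := nr_sq hβ
  rw [(itg_pieces h).2, a2, b2, Finset.mul_sum, Finset.mul_sum, ← Finset.sum_add_distrib,
    Finset.mul_sum]
  refine (norm_sum_le _ _).trans (Finset.sum_le_sum fun i _ => ?_)
  rw [← integral_const_mul, ← integral_const_mul,
    ← integral_add ((a1 i).const_mul t) ((b1 i).const_mul t⁻¹), ← integral_const_mul]
  refine norm_integral_le_of_norm_le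
    ((((a1 i).const_mul t).add ((b1 i).const_mul t⁻¹)).const_mul _)
    (Eventually.of_forall fun z => ?_)
  rw [show rp i (α * β) z = rp i α z * rp i β z from congrFun (pb_mul α β) z]
  have h1 : ‖top (rp i α z * rp i β z)‖ ≤ K * (‖rp i α z‖ * ‖rp i β z‖) :=
    ((LinearMap.toContinuousLinearMap top).le_opNorm _).trans
      (mul_le_mul (by linarith) (norm_mul_le _ _) (norm_nonneg _) hK0.le)
  have h2 : 0 ≤ t⁻¹ * (t * ‖rp i α z‖ - ‖rp i β z‖) ^ 2 := by positivity
  have h3 : t⁻¹ * (t * ‖rp i α z‖ - ‖rp i β z‖) ^ 2 =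
      t * ‖rp i α z‖ ^ 2 + t⁻¹ * ‖rp i β z‖ ^ 2 - 2 * (‖rp i α z‖ * ‖rp i β z‖) := by
    field_simp
    ring
  nlinarith

theorem itg_mul_le : ∃ C : ℝ, 0 < C ∧ ∀ G : Ga X, (∀ p, GOk G p) → ∀ α β : Fm n X,
    Sm G α univ → Sm G⁻¹ β univ → ‖itg (α * β)‖ ≤ C * nr α * nr β := by
  obtain ⟨C, hC, h⟩ := itg_mul_cn (n := n) (X := X)
  exact ⟨C, hC, fun G hG α β hα hβ => h α β (cn_of_sm hG hα) (cn_of_sm (fun p => (hG p).inv) hβ)
    fun p hp => (hα p hp).mul_dual (hβ p hp) (hG p)⟩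

theorem itg_cf_le {c : Fm n X} (hc : Sm 1 c univ) : ∃ C : ℝ, 0 < C ∧ ∀ G : Ga X,
    (∀ p, GOk G p) → ∀ α β : Fm n X, Sm G α univ → Sm G β univ →
      ‖itg (c * (α * cf β))‖ ≤ C * nr α * nr β := by
  obtain ⟨C1, p1, h1⟩ := itg_mul_le (n := n) (X := X)
  obtain ⟨C2, p2, h2⟩ := nr_mul_le hc
  obtain ⟨C3, p3, h3⟩ := nr_cf_le (n := n) (X := X)
  refine ⟨C1 * C2 * C3, by positivity, fun G hG α β hα hβ => ?_⟩
  rw [← mul_assoc c]
  refine (h1 G hG _ _ (fun p hp => (hc p hp).mul_left (hα p hp))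
    fun p hp => (hβ p hp).cf (hG p)).trans ?_
  have a1 := mul_le_mul (h2 α (cn_of_sm hG hα)) (h3 β (cn_of_sm hG hβ)) (nr_nonneg _)
    (mul_nonneg p2.le (nr_nonneg α))
  have a2 := mul_le_mul_of_nonneg_left a1 p1.le
  linarith

theorem itg_cf_le_one : ∃ C : ℝ, 0 < C ∧ ∀ G : Ga X, (∀ p, GOk G p) → ∀ α β : Fm n X,
    Sm G α univ → Sm G β univ → ‖itg (α * cf β)‖ ≤ C * nr α * nr β := by
  obtain ⟨C, hC, h⟩ := itg_cf_le (n := n) (X := X) (c := 1) fun _ _ => smAt_one
  exact ⟨C, hC, fun G hG α β hα hβ => by simpa only [one_mul] using h G hG α β hα hβ⟩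

/-- The commutator of `Po` with a function has order zero (`dbar_mul'`, `dp_mul'`, `fn_mul`). -/
theorem po_comm {G : Ga X} (hG : ∀ p, GOk G p) {a b : Fm n X} (ha : Sm 1 a univ)
    (hb : Sm 1 b univ) (s t : ℕ × ℕ) {ρ : X → ℂ} (hρ : Sm 1 (fn n ρ) univ) : ∃ C : ℝ,
    ∀ V : Fm n X, Sm G V univ → nr (Po G a b s t (ρ • V) - ρ • Po G a b s t V) ≤ C * nr V := by
  have s1 : Sm 1 (a * dbar 1 (fn n ρ)) univ := fun p hp =>
    (ha p hp).mul_left ((hρ p hp).dbar gok_one)
  have s2 : Sm 1 (b * dp 1 (fn n ρ)) univ := fun p hp =>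
    (hb p hp).mul_left ((hρ p hp).dp gok_one)
  obtain ⟨C1, p1, h1⟩ := nr_mul_le s1
  obtain ⟨C2, p2, h2⟩ := nr_mul_le s2
  obtain ⟨C3, -, h3⟩ := nr_pf_le (n := n) (X := X) s.1 s.2
  obtain ⟨C4, -, h4⟩ := nr_pf_le (n := n) (X := X) t.1 t.2
  refine ⟨C1 * C3 + C2 * C4, fun V hV => ?_⟩
  have hp : ∀ i j, Sm G (pf i j V) univ := fun i j p hp => (hV p hp).pf i j
  have e1 : ∀ i j, pf i j (ρ • V) = fn n ρ * pf i j V := fun i j => by
    rw [fn_mul]
    exact funext fun y => map_smul (prj i j) (ρ y) (V y)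
  have e : Po G a b s t (ρ • V) - ρ • Po G a b s t V =
      a * dbar 1 (fn n ρ) * pf s.1 s.2 V + b * dp 1 (fn n ρ) * pf t.1 t.2 V := by
    funext y
    have e0 : (1 * G) y =ᶠ[𝓝 y] G y := by rw [one_mul]
    simp only [Po, e1, Pi.sub_apply, Pi.add_apply, Pi.smul_apply']
    rw [Pi.mul_apply a, Pi.mul_apply b,
      dbar_mul' e0 gok_one (hG y) (hρ y trivial) (hp _ _ y trivial),
      dp_mul' e0 gok_one (hG y) (hρ y trivial) (hp _ _ y trivial)]
    simp only [fn, AlgHom.commutes, ← Algebra.smul_def, Pi.mul_apply, mul_add, mul_smul_comm,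
      smul_add, mul_assoc]
    abel
  rw [e]
  refine (nr_add_sm hG (fun p h => (s1 p h).mul_left (hp _ _ p h))
    fun p h => (s2 p h).mul_left (hp _ _ p h)).trans ?_
  have a1 := (h1 _ (cn_of_sm hG (hp s.1 s.2))).trans
    (mul_le_mul_of_nonneg_left (h3 V (cn_of_sm hG hV)) p1.le)
  have a2 := (h2 _ (cn_of_sm hG (hp t.1 t.2))).trans
    (mul_le_mul_of_nonneg_left (h4 V (cn_of_sm hG hV)) p2.le)
  linarith

end

end Pool.Agent.MP_1c689d_ag.K0.L2

end

section

/-! Coercivity. -/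

set_option autoImplicit false

open Complex Filter Topology Set MeasureTheory
open scoped ComplexConjugate ContDiff ENNReal NNReal

namespace Pool.Agent.MP_1c689d_ag.K0.L2

noncomputable section

variable {n : ℕ} {X : Type} [TopologicalSpace X] [Mf n X] [MeasurableSpace X] [BorelSpace X]
  [CompactSpace X]

theorem FIN_cpt {Y : Type} [TopologicalSpace Y] [T2Space Y] {K : Set Y} (hK : IsCompact K)
    {q r : Y → ℝ} (hq : ContinuousOn q K) (hr : ContinuousOn r K) (h0 : ∀ x ∈ K, 0 ≤ r x)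
    (h : ∀ x ∈ K, r x = 0 → 0 < q x) :
    ∃ ε m : ℝ, 0 < ε ∧ 0 ≤ m ∧ ∀ x ∈ K, ε ≤ q x + m * r x := by
  have h1 : IsCompact (K ∩ q ⁻¹' Iic 0) := hK.of_isClosed_subset
    (hq.preimage_isClosed_of_isClosed hK.isClosed isClosed_Iic) inter_subset_left
  obtain ⟨r0, a1, a2⟩ := h1.exists_forall_le' (a := 0) (hr.mono inter_subset_left) fun x hx =>
    (h0 x hx.1).lt_of_ne' fun e => not_lt.2 hx.2 (h x hx.1 e)
  obtain ⟨M, hM⟩ := hK.exists_bound_of_continuousOn hq
  have hm : 0 ≤ (|M| + 1) / r0 := by positivity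
  obtain ⟨ε, b1, b2⟩ := hK.exists_forall_le' (a := 0) (f := fun x => q x + (|M| + 1) / r0 * r x)
    (hq.add (continuousOn_const.mul hr)) fun x hx => by
      rcases lt_or_ge 0 (q x) with k | k
      · exact add_pos_of_pos_of_nonneg k (mul_nonneg hm (h0 x hx))
      · have k1 := mul_le_mul_of_nonneg_left (a2 x ⟨hx, k⟩) hm
        rw [div_mul_cancel₀ _ a1.ne'] at k1
        have k2 := (abs_le.1 ((hM x hx).trans (le_abs_self M))).1
        linarith
  exact ⟨ε, _, b1, hm, b2⟩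

theorem FIN_rp (i : Fin (cov n X).r) (c α : Fm n X) (z : E n) :
    rp i (c * α) z = rp i c z * rp i α z := map_mul (lm _) _ _

theorem FIN_rp_cf (i : Fin (cov n X).r) (α : Fm n X) (z : E n) :
    rp i (cf α) z = cj (rp i α z) := lm_cj _ _

theorem FIN_inv (B : E n ≃L[ℂ] E n) (v : Λ n) : lm ((B : E n →L[ℂ] E n).restrictScalars ℝ)
    (lm ((B.symm : E n →L[ℂ] E n).restrictScalars ℝ) v) = v := by
  rw [lm_comp, show ((B.symm : E n →L[ℂ] E n).restrictScalars ℝ).comp
    ((B : E n →L[ℂ] E n).restrictScalars ℝ) = ContinuousLinearMap.id ℝ (E n) from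
    ContinuousLinearMap.ext fun z => B.symm_apply_apply z, lm_id]

/-- The lemma of Finsler with parameters. The open sets `{q + m ‖D v‖ ^ 2 > 0}` increase and cover
the compact set `Z ×ˢ (sphere ∩ T)`; then take the minimum and use homogeneity. -/
theorem finsler_pt {Z : Set (E n)} (hZ : IsCompact Z) {c d : E n → Λ n} (hc : ContinuousOn c Z)
    (hd : ContinuousOn d Z) (T : Submodule ℂ (Λ n))
    (h : ∀ z ∈ Z, ∀ v ∈ T, d z * v = 0 → v ≠ 0 → 0 < (top (c z * (v * cj v))).re) :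
    ∃ ε m : ℝ, 0 < ε ∧ 0 ≤ m ∧ ∀ z ∈ Z, ∀ v ∈ T,
      ε * ‖v‖ ^ 2 ≤ (top (c z * (v * cj v))).re + m * ‖d z * v‖ ^ 2 := by
  have : ProperSpace (Λ n) := FiniteDimensional.proper ℂ (Λ n)
  obtain ⟨J, hJ⟩ := exists_cjL (n := n)
  have hj : Continuous (cj : Λ n → Λ n) := (funext hJ : (J : Λ n → Λ n) = cj) ▸ J.continuous
  have ht : Continuous (top : Λ n → ℂ) := top.continuous_of_finiteDimensional
  have h1 : ∀ {f : E n → Λ n}, ContinuousOn f Z → ContinuousOn (fun x : E n × Λ n => f x.1)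
      (Z ×ˢ (Metric.sphere 0 1 ∩ T)) := fun hf =>
    hf.comp continuous_fst.continuousOn fun x hx => hx.1
  obtain ⟨ε, m, a1, a2, a3⟩ := FIN_cpt (hZ.prod ((isCompact_sphere (0 : Λ n) 1).inter_right
    T.closed_of_finiteDimensional)) (q := fun x => (top (c x.1 * (x.2 * cj x.2))).re)
    (r := fun x => ‖d x.1 * x.2‖ ^ 2)
    ((continuous_re.comp ht).comp_continuousOn ((h1 hc).mul
      (continuous_snd.mul (hj.comp continuous_snd)).continuousOn))
    (((h1 hd).mul continuous_snd.continuousOn).norm.pow 2) (fun _ _ => sq_nonneg _)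
    fun x hx e => h x.1 hx.1 x.2 hx.2.2 (norm_eq_zero.1 (pow_eq_zero_iff two_ne_zero |>.1 e))
      (Metric.ne_of_mem_sphere hx.2.1 one_ne_zero)
  refine ⟨ε, m, a1, a2, fun z hz v hv => ?_⟩
  by_cases h0 : v = 0
  · simp [h0]
  have hn : ‖v‖ ≠ 0 := norm_ne_zero_iff.2 h0
  obtain ⟨u, u1, u2, u3⟩ : ∃ u : Λ n, ‖u‖ = 1 ∧ u ∈ T ∧ ((‖v‖ : ℝ) : ℂ) • u = v :=
    ⟨((‖v‖ : ℝ) : ℂ)⁻¹ • v, by rw [norm_smul, norm_inv, norm_real, norm_norm, inv_mul_cancel₀ hn],
      T.smul_mem _ hv, smul_inv_smul₀ (ofReal_ne_zero.2 hn) v⟩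
  have k := mul_le_mul_of_nonneg_left (a3 (z, u) ⟨hz, mem_sphere_zero_iff_norm.2 u1, u2⟩)
    (sq_nonneg ‖v‖)
  generalize ‖v‖ = t at u3 k ⊢
  subst u3
  simp only [cj_smul, conj_ofReal, mul_smul_comm, smul_mul_assoc, map_smul, smul_eq_mul,
    re_ofReal_mul, norm_smul, norm_real, Real.norm_eq_abs, mul_pow, sq_abs]
  linarith

/-- `finsler_pt` on each `Kc i` (the hypothesis is transported by `rp_iso`, `lm_Tp` for the inverse,
`lm_cj`, `top_lm`, `det_restrict`), the same `ε`, `m` for all pieces, `nr_sq`, `itg_pieces`. -/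
theorem finsler {c d : Fm n X} (hc : Sm 1 c univ) (hd : Sm 1 d univ) (a b : ℕ)
    (h : ∀ y, ∀ v ∈ Tp n a b, d y * v = 0 → v ≠ 0 → 0 < (top (c y * (v * cj v))).re) :
    ∃ ε m : ℝ, 0 < ε ∧ 0 ≤ m ∧ ∀ G : Ga X, (∀ p, GOk G p) → ∀ α : Fm n X, Sm G α univ →
      Ty a b α → ε * nr α ^ 2 ≤ (itg (c * (α * cf α))).re + m * nr (d * α) ^ 2 := by
  have key : ∀ i : Fin (cov n X).r, ∃ ε m : ℝ, 0 < ε ∧ 0 ≤ m ∧ ∀ z ∈ Kc i, ∀ v ∈ Tp n a b,
      ε * ‖v‖ ^ 2 ≤ (top (rp i c z * (v * cj v))).re + m * ‖rp i d z * v‖ ^ 2 := fun i => by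
    refine finsler_pt (Kc_cpt i) (rp_cont hc i) (rp_cont hd i) _ fun z hz v hv h1 h2 => ?_
    obtain ⟨y, B, hB⟩ := rp_iso i hz
    have e := FIN_inv B v
    have h3 := lm_Tp (B.symm : E n →L[ℂ] E n) hv
    generalize lm ((B.symm : E n →L[ℂ] E n).restrictScalars ℝ) v = u at e h3
    subst e
    rw [hB, ← map_mul] at h1
    have h4 := FIN_inv B.symm (d y * u)
    rw [B.symm_symm, h1, map_zero] at h4
    rw [hB, ← lm_cj, ← map_mul, ← map_mul, top_lm, re_ofReal_mul, det_restrict]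
    exact mul_pos (normSq_pos.2 B.toLinearEquiv.isUnit_det'.ne_zero)
      (h y u h3 h4.symm fun k => h2 (by rw [k, map_zero]))
  choose ε m h1 h2 h3 using key
  obtain ⟨δ, d1, d2⟩ := ((eventually_all.2 fun i => Ioc_mem_nhdsGT (h1 i)).and
    self_mem_nhdsWithin).exists
  refine ⟨δ, ∑ i, m i, d2, Finset.sum_nonneg fun i _ => h2 i, fun G hG α hα ht => ?_⟩
  obtain ⟨a1, a2⟩ := nr_sq (cn_of_sm hG hα)
  obtain ⟨b1, b2⟩ := nr_sq (cn_of_sm hG (α := d * α) fun p hp => (hd p hp).mul_left (hα p hp))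
  obtain ⟨c1, c2⟩ := itg_pieces (β := c * (α * cf α)) fun p hp =>
    (hc p hp).mul_left ((hα p hp).mul_cf (hα p hp) (hG p))
  generalize hM : ∑ i, m i = M
  rw [a2, b2, c2, re_sum, Finset.mul_sum, Finset.mul_sum, ← Finset.sum_add_distrib]
  refine Finset.sum_le_sum fun i _ => ?_
  have hi : m i ≤ M := hM ▸ Finset.single_le_sum (fun i _ => h2 i) (Finset.mem_univ i)
  have e1 : (∫ z in Pc i, top (rp i (c * (α * cf α)) z)).re =
      ∫ z in Pc i, (top (rp i (c * (α * cf α)) z)).re := (integral_re (c1 i)).symm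
  have i1 : IntegrableOn (fun z => (top (rp i (c * (α * cf α)) z)).re) (Pc i) := (c1 i).re
  rw [e1, ← integral_const_mul, ← integral_const_mul, ← integral_add i1 ((b1 i).const_mul M)]
  refine setIntegral_mono_on ((a1 i).const_mul δ) (i1.add ((b1 i).const_mul M)) (Pc_ms i)
    fun z hz => ?_
  obtain ⟨y, B, hB⟩ := rp_iso i (Pc_sub i hz)
  have k1 := h3 i z (Pc_sub i hz) (rp i α z) (hB α ▸ lm_Tp _ (ht y))
  have k2 := mul_le_mul_of_nonneg_right (d1 i).2 (sq_nonneg ‖rp i α z‖)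
  have k3 := mul_le_mul_of_nonneg_right hi (sq_nonneg ‖rp i d z * rp i α z‖)
  rw [FIN_rp, FIN_rp, FIN_rp, FIN_rp_cf]
  linarith

theorem coercive {c : Fm n X} (hc : Sm 1 c univ) (a b : ℕ)
    (h : ∀ y, ∀ v ∈ Tp n a b, v ≠ 0 → 0 < (top (c y * (v * cj v))).re) :
    ∃ C : ℝ, 0 < C ∧ ∀ G : Ga X, (∀ p, GOk G p) → ∀ α : Fm n X, Sm G α univ →
      Ty a b α → nr α ^ 2 ≤ C * (itg (c * (α * cf α))).re := by
  obtain ⟨ε, m, h1, -, h2⟩ := finsler (d := 0) hc (fun _ _ => smAt_zero) a b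
    fun y v hv _ => h y v hv
  refine ⟨ε⁻¹, inv_pos.2 h1, fun G hG α hα ht => ?_⟩
  have := h2 G hG α hα ht
  rw [zero_mul, nr_zero, zero_pow two_ne_zero, mul_zero, add_zero] at this
  exact (le_inv_mul_iff₀ h1).2 this

end

end Pool.Agent.MP_1c689d_ag.K0.L2

end

section

/-! The canonical bundle as a gauge. -/

set_option autoImplicit false

open Complex Filter Topology Set MeasureTheory
open scoped ComplexConjugate ContDiff ENNReal NNReal

namespace Pool.Agent.MP_1c689d_ag.K0.L2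

noncomputable section

variable {n N : ℕ} {X : Type} [TopologicalSpace X] [Mf n X] {G K : Ga X} {κ : Fm n X} {p : X}

theorem KG_top {a : Λ n} (ha : a ∈ Tp n n 0) (h0 : a ≠ 0) : top (a * cj a) ≠ 0 := by
  obtain ⟨t, ht, e⟩ := pos_n0' ha h0
  intro h
  rw [h, mul_zero] at e
  exact ht.ne' (by exact_mod_cast e.symm)

theorem KG_inj {q : ℕ} {a b : Λ n} (ha : a ∈ Tp n 0 q) (hb : b ∈ Tp n n 0) (h0 : b ≠ 0)
    (h : a * b = 0) : a = 0 := by
  have h1 : b * a = 0 := by rw [comm_Dg (Tp_le_Dg hb) (Tp_le_Dg ha), h, smul_zero]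
  obtain ⟨c, rfl⟩ := mem_Tp_n0.1 hb
  rw [smul_mul_assoc, smul_eq_zero] at h1
  exact prod_dz_bij.injOn ha (zero_mem _)
    ((h1.resolve_left (left_ne_zero_of_smul h0)).trans (mul_zero _).symm)

theorem KG_pow {α : Fm n X} (h : SmAt 1 α p) (k : ℕ) : SmAt 1 (α ^ k) p := by
  induction k with
  | zero => rw [pow_zero]; exact smAt_one
  | succ k ih => rw [pow_succ]; exact ih.mul_left h

theorem KG_chart {a : Λ n} {y : X} (hy : y ∈ (ch n p).source) :
    HFm 1 (pb (ch n p) fun _ => a) y := by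
  have h : HFm (1 : Ga (E n)) (fun _ => a) (ch n p y) :=
    ⟨smAt_E.2 (Eventually.of_forall fun _ => contDiffAt_const),
      Eventually.of_forall fun w => by rw [dbar_E, dbE_const]⟩
  have h1 := h.pb ((isCh_ch p).1 y hy) gok_one
  rwa [gpb_one] at h1

/-- `s = top (s • κ * cf κ) / top (κ * cf κ)` is smooth near `p` (`SmAt.top_div`, `pos_n0'`,
`SmAt.ne`); `dbar (fn s * κ) = dbar (fn s) * κ` vanishes near `p`, and multiplication by a non-zero
`(n,0)`-form is injective on `(0,1)`-forms (`mem_Tp_n0`, `prod_dz_bij`, `comm_Dg`);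
`HFm.holAt`. -/
theorem holAt_div_top (hG : GOk G p) (hK : GOk K p) (hκ : HFm K κ p)
    (ht : ∀ᶠ y in 𝓝 p, κ y ∈ Tp n n 0) (h0 : κ p ≠ 0) {s : X → ℂ} (h : HFm (G * K) (s • κ) p) :
    HolAt G s p := by
  have hne := hκ.1.ne hK h0
  have h1 : SmAt G (s • κ * cf κ) p := by
    refine (h.1.mul (hκ.1.cf hK)).gauge ?_
    filter_upwards [hK.ne] with y hy
    exact mul_inv_cancel_right₀ hy _
  have h2 : SmAt G (fn n s) p := by
    refine (h1.top_div (hκ.1.mul_cf hκ.1 hK) (KG_top ht.self_of_nhds h0)).congr ?_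
    filter_upwards [hne, ht] with y hy hy'
    refine congrArg (algebraMap ℂ (Λ n)) ?_
    change top (s y • κ y * cj (κ y)) / top (κ y * cj (κ y)) = s y
    rw [smul_mul_assoc, map_smul, smul_eq_mul, mul_div_cancel_right₀ _ (KG_top hy' hy)]
  refine HFm.holAt ⟨h2, ?_⟩ hG
  filter_upwards [hne, ht, hG.eventually, hK.eventually, h2.eventually hG, hκ.1.eventually hK,
    hκ.2, h.2] with y a1 a2 a3 a4 a5 a6 a7 a8
  rw [← fn_mul, dbar_mul a3 a4 a5 a6, a7, mul_zero, add_zero] at a8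
  exact KG_inj ((fn_Ty s).dbar y) a2 a1 a8

/-- `κ y = c y • ∏ dz`, `c y = √ (re (top (Om x y ^ n)))` (`Kah.pos_pow`);
`D p = pb (ch n p) (fun _ => ∏ dz)` is holomorphic on the source of the chart and
`D p y = d p y • ∏ dz` with `d p y ≠ 0` there (`mem_Tp_n0`, `IsCh.df_bij`, `lm_inj_of_surj`),
`d y y = 1`; `K p y = c y / d p y`. `normSq (K p y)` is a constant times
`top (Om ^ n) / top (D p * cf (D p))` (`pos_n0`, `SmAt.top_div`); `K y y' / K p y' = d p y' / d y y'`
is holomorphic by `holAt_div_top` with trivial gauges. -/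
theorem exists_kg {x : X → Fin N → ℂ} (hx : ∀ p, PMAt x p) (hi : ∀ p, Imm x p) :
    ∃ (K : Ga X) (κ : Fm n X), (∀ p, GOk K p) ∧ Ty n 0 κ ∧ (∀ p, κ p ≠ 0) ∧
      ∀ p, HFm K κ p := by
  choose t ht ht' using fun y => ((hx y).kah (hi y)).pos_pow
  let P : Λ n := (List.ofFn (dz : Fin n → Λ n)).prod
  have hP : P ∈ Tp n n 0 := EA2_prod_dz_mem
  have hP0 : P ≠ 0 := prod_dz_ne
  let D : X → Fm n X := fun p => pb (ch n p) fun _ => P
  have hD : ∀ p, ∀ y ∈ (ch n p).source, D p y ∈ Tp n n 0 := fun p y hy =>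
    pb_Tp ((isCh_ch p).1 y hy) hP
  have hD0 : ∀ p, ∀ y ∈ (ch n p).source, D p y ≠ 0 := fun p y hy e =>
    hP0 (lm_inj_of_surj _ ((isCh_ch p).df_bij hy).2 (e.trans (map_zero _).symm))
  have hex : ∀ p y, ∃ d : ℂ, y ∈ (ch n p).source → D p y = d • P := fun p y => by
    by_cases hy : y ∈ (ch n p).source
    · obtain ⟨d, hd⟩ := mem_Tp_n0.1 (hD p y hy)
      exact ⟨d, fun _ => hd⟩
    · exact ⟨0, fun h => (hy h).elim⟩
  choose d hd using hex
  have hd0 : ∀ p, ∀ y ∈ (ch n p).source, d p y ≠ 0 := fun p y hy =>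
    left_ne_zero_of_smul (hd p y hy ▸ hD0 p y hy)
  have hc : ∀ y, (Real.sqrt (t y) : ℂ) ≠ 0 := fun y =>
    ofReal_ne_zero.2 (Real.sqrt_pos.2 (ht y)).ne'
  have hs : ∀ p : X, ∀ᶠ y in 𝓝 p, y ∈ (ch n p).source := fun p => chart_source_mem_nhds (E n) p
  have hfr : ∀ p : X, D p =ᶠ[𝓝 p]
      fun y => ((Real.sqrt (t y) : ℂ) / d p y)⁻¹ • (Real.sqrt (t y) : ℂ) • P := fun p => by
    filter_upwards [hs p] with y hy
    rw [hd p y hy, smul_smul, inv_div, div_mul_cancel₀ _ (hc y)]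
  refine ⟨fun p y => (Real.sqrt (t y) : ℂ) / d p y, fun y => (Real.sqrt (t y) : ℂ) • P,
    fun p => ⟨?_, ?_, ?_, ?_⟩, fun y => Submodule.smul_mem _ _ hP,
    fun y => smul_ne_zero (hc y) hP0, fun p => ⟨?_, Eventually.of_forall fun y => ?_⟩⟩
  · filter_upwards [hs p] with y hy using div_ne_zero (hc y) (hd0 p y hy)
  · exact Eventually.of_forall fun y => div_ne_zero (hc y) (hd0 y y MF2_src)
  · have h1 : SmAt 1 (D p) p := (KG_chart MF2_src).1
    refine (((KG_pow (hx p).Om_sm n).smul (top (P * cj P))).top_div (h1.mul_cf h1 gok_one)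
      (KG_top (hD p p MF2_src) (hD0 p p MF2_src))).congr ?_
    filter_upwards [hs p] with y hy
    refine congrArg (algebraMap ℂ (Λ n)) ?_
    change top (top (P * cj P) • Om x y ^ n) / top (D p y * cj (D p y)) =
      (normSq ((Real.sqrt (t y) : ℂ) / d p y) : ℂ)
    rw [hd p y hy, cj_smul, smul_mul_smul_comm, map_smul, map_smul, ht', smul_eq_mul, smul_eq_mul,
      mul_conj, mul_comm (top _), mul_div_mul_right _ _ (KG_top hP hP0), map_div₀, normSq_ofReal,
      Real.mul_self_sqrt (ht y).le, ofReal_div]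
  · filter_upwards [hs p] with y hy
    have h1 : HolAt 1 (fun y' => d p y' / d y y') y := by
      refine holAt_div_top gok_one gok_one (KG_chart (a := P) MF2_src)
        ((hs y).mono (hD y)) (hD0 y y MF2_src) ?_
      rw [mul_one]
      refine MF4_congr (KG_chart (a := P) hy) ?_
      filter_upwards [hs y, (ch n p).open_source.mem_nhds hy] with w a1 a2
      change D p w = (d p w / d y w) • D y w
      rw [hd p w a2, hd y w a1, smul_smul, div_mul_cancel₀ _ (hd0 y w a1)]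
    refine h1.congr (Eventually.of_forall fun w => ?_)
    exact (div_div_div_cancel_left' _ _ (hc w)).symm
  · exact smAt_iff_one.2 ((KG_chart MF2_src).1.congr (hfr p))
  · rw [dbar_eq_one, ← dbar_congr (hfr y), (KG_chart MF2_src).2.self_of_nhds, smul_zero]

end

end Pool.Agent.MP_1c689d_ag.K0.L2

end

section

/-! The adjoint of the extended system. -/

set_option autoImplicit false

open Complex Filter Topology Set MeasureTheory
open scoped ComplexConjugate ContDiff ENNReal NNReal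

namespace Pool.Agent.MP_1c689d_ag.K0.L2

noncomputable section

variable {N : ℕ} {S : Type} [TopologicalSpace S] [Mf 2 S] [MeasurableSpace S] [BorelSpace S]
  [CompactSpace S] {x : S → Fin N → ℂ}

omit [MeasurableSpace S] [BorelSpace S] [CompactSpace S] in
theorem HSb_om (hx : ∀ p, PMAt x p) (γ β : Fm 2 S) :
    γ * cf (Om x * β) = Om x * (γ * cf β) := by
  funext y
  simp only [Pi.mul_apply, cf, map_mul, (hx y).cj_Om]
  rw [← mul_assoc, ← om_comm, mul_assoc]

theorem HSb_sq {a b : ℝ} (hb : 0 ≤ b) (h : a ^ 2 ≤ b * a) : a ≤ b := by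
  by_contra hn
  nlinarith [not_le.1 hn]

/-- The adjoint: `ibp_dp` for `(γ, cf u)`, `ibp_dbar` for `(Om * γ, cf w)`, `dbar_om_mul`. -/
theorem hs_adj (hx : ∀ p, PMAt x p) {G : Ga S} (hG : ∀ p, GOk G p) {γ u w : Fm 2 S}
    (hγ : Sm G γ univ) (ht : Ty 1 0 γ) (hu : Sm G u univ) (hw : Sm G w univ) :
    itg (dp G γ * cf u) = itg (γ * cf (dbar G u)) ∧
      itg (Om x * dbar G γ * cf w) = itg (γ * cf (Om x * dp G w)) := by
  have h1 := ibp_dp hG hγ fun p hp => (hu p hp).cf (hG p)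
  have h2 := ibp_dbar hG (α := Om x * γ) (fun p hp => (hx p).Om_sm.mul_left (hγ p hp))
    fun p hp => (hw p hp).cf (hG p)
  have e1 : (fun y => gi (γ y)) = -γ := funext fun y => by
    rw [gi_of_Tp (ht y)]; simp
  have e2 : (fun y => gi ((Om x * γ) y)) = -(Om x * γ) := funext fun y => by
    rw [Pi.mul_apply, map_mul, om_gi, congrFun e1 y]; simp
  have e3 : dbar G (Om x * γ) = Om x * dbar G γ :=
    funext fun y => dbar_om_mul (hx y) (hG y) (hγ y trivial)
  rw [dp_cf, e1, neg_mul, itg_neg, add_neg_eq_zero] at h1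
  rw [dbar_cf, e2, e3, neg_mul, itg_neg, add_neg_eq_zero] at h2
  exact ⟨h1, by rw [h2, HSb_om hx, mul_assoc]⟩

/-- With `u = pf 2 0 V`, `w = pf 0 0 V`, `γ = dp w`, `r = dbar u + Om * γ - dbar g`:
`itg (γ * cf r) = itg (Om * (γ * cf γ))` by `hs_adj` and `dp_dp`; `coercive` with `c = I • Om`
gives `nr γ ≤ C * nr r`; `nr_mul_le`. -/
theorem hs_b (hx : ∀ p, PMAt x p) (hi : ∀ p, Imm x p) : ∃ C : ℝ, 0 < C ∧
    ∀ G : Ga S, (∀ p, GOk G p) → ∀ V g : Fm 2 S, Sm G V univ → Sm G g univ → Ty 2 0 g →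
      nr (dbar G (pf 2 0 V) - dbar G g) ≤
        C * nr (Po G 1 (Om x) (2, 0) (0, 0) V - dbar G g) := by
  have so : Sm 1 (Om x : Fm 2 S) univ := fun p _ => (hx p).Om_sm
  obtain ⟨C1, p1, h1⟩ := coercive (c := I • (Om x : Fm 2 S)) (fun p hp => (so p hp).smul I) 1 0
    fun y v hv h0 => by
      obtain ⟨t, h, h'⟩ := ((hx y).kah (hi y)).pos10 hv h0
      rw [Pi.smul_apply, smul_mul_assoc, map_smul, smul_eq_mul, h']
      exact h
  obtain ⟨C2, p2, h2⟩ := itg_cf_le_one (n := 2) (X := S)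
  obtain ⟨C3, p3, h3⟩ := nr_mul_le so
  refine ⟨1 + C3 * (C1 * C2), by positivity, fun G hG V g hV hg _ => ?_⟩
  have su : Sm G (pf 2 0 V - g) univ := fun p hp => ((hV p hp).pf 2 0).sub (hg p hp)
  have sw : Sm G (pf 0 0 V) univ := fun p hp => (hV p hp).pf 0 0
  have sγ : Sm G (dp G (pf 0 0 V)) univ := fun p hp => (sw p hp).dp (hG p)
  have tγ : Ty 1 0 (dp G (pf 0 0 V)) := Ty.dp (a := 0) fun y => prj_mem _
  have h0 : dp G (dp G (pf 0 0 V)) = 0 := funext fun p => dp_dp (hG p) (sw p trivial)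
  have e1 : dbar G (pf 2 0 V) - dbar G g = dbar G (pf 2 0 V - g) :=
    funext fun p => (dbar_sub ((hV p trivial).pf 2 0) (hg p trivial)).symm
  have e2 : Po G 1 (Om x) (2, 0) (0, 0) V - dbar G g =
      dbar G (pf 2 0 V - g) + Om x * dp G (pf 0 0 V) := by
    rw [Po, one_mul, add_sub_right_comm, e1]
  rw [e1, e2]
  generalize dp G (pf 0 0 V) = γ at sγ tγ h0
  generalize pf 2 0 V - g = u at su
  have sd : Sm G (dbar G u) univ := fun p hp => (su p hp).dbar (hG p)
  have sm : Sm G (Om x * γ) univ := fun p hp => (so p hp).mul_left (sγ p hp)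
  have sr : Sm G (dbar G u + Om x * γ) univ := fun p hp => (sd p hp).add (sm p hp)
  have e3 : itg (γ * cf (dbar G u + Om x * γ)) = itg (Om x * (γ * cf γ)) := by
    rw [show cf (dbar G u + Om x * γ) = cf (dbar G u) + cf (Om x * γ) from
        funext fun y => map_add cj _ _, mul_add,
      itg_add (intg_of_compact fun p hp => (sγ p hp).mul_cf (sd p hp) (hG p))
        (intg_of_compact fun p hp => (sγ p hp).mul_cf (sm p hp) (hG p)),
      ← (hs_adj hx hG sγ tγ su su).1, h0, zero_mul, itg_zero, zero_add, HSb_om hx]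
  have a1 := h1 G hG γ sγ tγ
  have a2 := h2 G hG _ _ sγ sr
  have a3 := h3 γ (cn_of_sm hG sγ)
  have a4 := nr_sub_sm hG sr sm
  rw [add_sub_cancel_right] at a4
  rw [smul_mul_assoc, itg_smul, ← e3] at a1
  have a5 := (re_le_norm (I * itg (γ * cf (dbar G u + Om x * γ)))).trans_eq
    (by rw [norm_mul, norm_I, one_mul])
  have b2 := nr_nonneg (dbar G u + Om x * γ)
  generalize nr (dbar G u + Om x * γ) = R at a2 a4 b2 ⊢
  have a6 : nr γ ≤ C1 * C2 * R := by
    refine HSb_sq (by positivity) ?_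
    have := mul_le_mul_of_nonneg_left (a5.trans a2) p1.le
    linarith
  have := mul_le_mul_of_nonneg_left a6 p3.le
  linarith

end

end Pool.Agent.MP_1c689d_ag.K0.L2

end

section

/-! `L²` limits of almost holomorphic forms on the model space. -/

set_option autoImplicit false

open Complex Filter Topology Set MeasureTheory
open scoped ComplexConjugate ContDiff ENNReal NNReal

namespace Pool.Agent.MP_1c689d_ag.K0.L2

noncomputable section

variable {n : ℕ}

theorem WLa_sq (μ : Measure (E n)) (u : E n → ℂ) :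
    ∫⁻ z, ‖u z‖ₑ ^ 2 ∂μ = eLpNorm u 2 μ ^ (2 : ℝ) := by
  have h := eLpNorm_nnreal_pow_eq_lintegral (f := u) (μ := μ) (p := 2) two_ne_zero
  simp only [NNReal.coe_ofNat, ENNReal.coe_ofNat, ENNReal.rpow_ofNat] at h ⊢
  exact h.symm

theorem WLa_iff {ι : Type} {l : Filter ι} (μ : Measure (E n)) (u : ι → E n → ℂ) :
    Tendsto (fun i => ∫⁻ z, ‖u i z‖ₑ ^ 2 ∂μ) l (𝓝 0) ↔
      Tendsto (fun i => eLpNorm (u i) 2 μ) l (𝓝 0) := by
  simp only [WLa_sq]
  constructor
  · intro h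
    have h1 := ((ENNReal.continuous_rpow_const (y := (2 : ℝ)⁻¹)).tendsto 0).comp h
    rw [ENNReal.zero_rpow_of_pos (by norm_num)] at h1
    refine h1.congr fun i => ?_
    rw [Function.comp_apply, ENNReal.rpow_rpow_inv two_ne_zero]
  · intro h
    have h1 := ((ENNReal.continuous_rpow_const (y := (2 : ℝ))).tendsto 0).comp h
    rwa [ENNReal.zero_rpow_of_pos (by norm_num)] at h1

theorem WLa_lim {μ : Measure (E n)} {u : ℕ → E n → ℂ} {ψ : E n → ℂ}
    (hu : ∀ k, AEStronglyMeasurable (u k) μ)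
    (h : Tendsto (fun k => eLpNorm (u k) 2 μ) atTop (𝓝 0)) (hψ : MemLp ψ 2 μ) :
    Tendsto (fun k => ∫ z, u k z * ψ z ∂μ) atTop (𝓝 0) := by
  have h1 := ENNReal.Tendsto.mul_const h (Or.inr hψ.2.ne)
  rw [zero_mul] at h1
  have h2 : ∀ k, ‖∫ z, u k z * ψ z ∂μ‖ₑ ≤ eLpNorm (u k) 2 μ * eLpNorm ψ 2 μ := fun k => by
    have h3 : eLpNorm (u k • ψ) 1 μ ≤ eLpNorm (u k) 2 μ * eLpNorm ψ 2 μ :=
      eLpNorm_smul_le_mul_eLpNorm (p := 2) (q := 2) (r := 1) hψ.1 (hu k)
    rw [eLpNorm_one_eq_lintegral_enorm] at h3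
    exact (enorm_integral_le_lintegral_enorm _).trans h3
  rw [tendsto_zero_iff_enorm_tendsto_zero]
  exact tendsto_of_tendsto_of_tendsto_of_le_of_le tendsto_const_nhds h1 (fun _ => zero_le) h2

theorem WLa_fd {g : E n → ℂ} (hg : ContDiff ℝ ∞ g) (hc : HasCompactSupport g) (v : E n) :
    Integrable (fun z => fderiv ℝ g z v) ∧ ∫ z, fderiv ℝ g z v = 0 := by
  have hi : Integrable (fun z => fderiv ℝ g z v) :=
    ((hg.continuous_fderiv (by simp)).clm_apply
      continuous_const).integrable_of_hasCompactSupport (hc.fderiv_apply ℝ v)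
  refine ⟨hi, ?_⟩
  have := integral_smul_fderiv_eq_neg_fderiv_smul_of_integrable (μ := volume) (𝕜 := ℝ)
    (f := fun _ : E n => (1 : ℝ)) (g := g) (v := v) (by simp) (by simpa using hi)
    (by simpa using hg.continuous.integrable_of_hasCompactSupport hc)
    (fun _ _ => differentiableAt_const _) (fun x _ => hg.differentiable (by simp) x)
  simpa using this

theorem WLa_int {g : E n → ℂ} (hg : ContDiff ℝ ∞ g) (hc : HasCompactSupport g) (j : Fin n) :
    Integrable (pzb j g) ∧ ∫ z, pzb j g z = 0 := by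
  obtain ⟨h1, h2⟩ := WLa_fd hg hc (Pi.single j 1)
  obtain ⟨h3, h4⟩ := WLa_fd hg hc (Pi.single j I)
  have h5 : Integrable fun z => I • fderiv ℝ g z (Pi.single j I) := h3.smul I
  refine ⟨(h1.add h5).smul (1 / 2 : ℂ), ?_⟩
  unfold pzb
  rw [integral_smul, integral_add h1 h5, integral_smul, h2, h4]
  simp

theorem WLa_zero {g : E n → ℂ} {z : E n} (h : z ∉ tsupport g) (j : Fin n) : pzb j g z = 0 := by
  rw [pzb, fderiv_of_notMem_tsupport ℝ h]
  simp

theorem WLa_mul {f g : E n → ℂ} {z : E n} (hf : DifferentiableAt ℝ f z)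
    (hg : DifferentiableAt ℝ g z) (j : Fin n) :
    pzb j (f * g) z = f z * pzb j g z + pzb j f z * g z := by
  simp only [pzb, fderiv_mul hf hg, ContinuousLinearMap.add_apply, ContinuousLinearMap.smul_apply,
    smul_eq_mul]
  ring

theorem WLa_meas (f : E n → ℂ) (j : Fin n) : Measurable (pzb j f) :=
  ((measurable_fderiv_apply_const ℝ f _).add
    ((measurable_fderiv_apply_const ℝ f _).const_smul I)).const_smul (1 / 2 : ℂ)

theorem WLa_mem {φ : E n → ℂ} (h1 : ContDiff ℝ ∞ φ) (h2 : HasCompactSupport φ) (j : Fin n) :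
    MemLp (pzb j φ) 2 := by
  have hc : Continuous (fderiv ℝ φ) := h1.continuous_fderiv (by simp)
  have h3 : Continuous (pzb j φ) :=
    ((hc.clm_apply continuous_const).add
      ((hc.clm_apply continuous_const).const_smul I)).const_smul (1 / 2 : ℂ)
  exact h3.memLp_of_hasCompactSupport (HasCompactSupport.intro h2 fun z hz => WLa_zero hz j)

theorem WLa_ibp {f φ : E n → ℂ} {B : Set (E n)} (hB : IsOpen B)
    (hf : ∀ z ∈ B, ContDiffAt ℝ ∞ f z) (hm : MemLp f 2 (volume.restrict B))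
    (h1 : ContDiff ℝ ∞ φ) (h2 : HasCompactSupport φ) (h3 : tsupport φ ⊆ B) (j : Fin n) :
    ∫ z in B, f z * pzb j φ z = -∫ z in B, pzb j f z * φ z := by
  have hs : tsupport (f * φ) ⊆ tsupport φ := tsupport_mul_subset_right
  have h4 : ContDiff ℝ ∞ (f * φ) := contDiff_iff_contDiffAt.2 fun z => by
    by_cases hz : z ∈ B
    · exact (hf z hz).mul h1.contDiffAt
    · exact contDiffAt_const.congr_of_eventuallyEq
        (notMem_tsupport_iff_eventuallyEq.1 fun h => hz (h3 (hs h)))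
  obtain ⟨h5, h6⟩ := WLa_int h4 h2.mul_left j
  have h7 : ∫ z in B, pzb j (f * φ) z = 0 := by
    rw [setIntegral_eq_integral_of_forall_compl_eq_zero fun z hz =>
      WLa_zero (fun h => hz (h3 (hs h))) j, h6]
  have h8 : ∫ z in B, pzb j f z * φ z = ∫ z in B, (pzb j (f * φ) z - f z * pzb j φ z) :=
    setIntegral_congr_fun hB.measurableSet fun z hz => by
      simp only [WLa_mul ((hf z hz).differentiableAt (by simp)) (h1.differentiable (by simp) z),
        add_sub_cancel_left]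
  have h9 : Integrable (fun z => f z * pzb j φ z) (volume.restrict B) :=
    hm.integrable_mul ((WLa_mem h1 h2 j).restrict B)
  rw [h8, integral_sub h5.integrableOn h9, h7, zero_sub, neg_neg]

/-- The classes in `Lp ℂ 2 (volume.restrict B)` form a Cauchy sequence (`MemLp.toLp`); the limit
`g` (extended by zero) is integrable on `B`; `∫ f k * pzb j φ = - ∫ pzb j (f k) * φ` for test
functions (the product `f k * φ` is smooth with compact support, compare `WEYL_hol`, `PLa_fd`,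
`INT2_fd`) and Cauchy-Schwarz give the hypothesis of `weyl`. -/
theorem wl_fun {f : ℕ → E n → ℂ} {B : Set (E n)} (hB : IsOpen B) (hv : volume B ≠ ⊤)
    (hf : ∀ k, ∀ z ∈ B, ContDiffAt ℝ ∞ (f k) z) (hfin : ∀ k, ∫⁻ z in B, ‖f k z‖ₑ ^ 2 ≠ ⊤)
    (hc : Tendsto (fun k : ℕ × ℕ => ∫⁻ z in B, ‖f k.1 z - f k.2 z‖ₑ ^ 2) atTop (𝓝 0))
    (hd : ∀ j, Tendsto (fun k => ∫⁻ z in B, ‖pzb j (f k) z‖ₑ ^ 2) atTop (𝓝 0)) :
    ∃ h : E n → ℂ, DifferentiableOn ℂ h B ∧
      Tendsto (fun k => ∫⁻ z in B, ‖f k z - h z‖ₑ ^ 2) atTop (𝓝 0) := by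
  haveI : IsFiniteMeasure (volume.restrict B) := isFiniteMeasure_restrict.2 hv
  have hm : ∀ k, MemLp (f k) 2 (volume.restrict B) := fun k => by
    refine ⟨ContinuousOn.aestronglyMeasurable (fun z hz => (hf k z hz).continuousAt.continuousWithinAt)
      hB.measurableSet, ?_⟩
    have h1 := hfin k
    rw [WLa_sq] at h1
    by_contra h2
    exact h1 (by rw [not_lt_top_iff.1 h2, ENNReal.top_rpow_of_pos (by norm_num)])
  have hC : CauchySeq fun k => (hm k).toLp (f k) := by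
    rw [Lp.cauchySeq_Lp_iff_cauchySeq_eLpNorm]
    refine ((WLa_iff _ fun k : ℕ × ℕ => f k.1 - f k.2).1 hc).congr fun k => eLpNorm_congr_ae ?_
    exact ((hm k.1).coeFn_toLp.sub (hm k.2).coeFn_toLp).symm
  obtain ⟨g, hg⟩ := cauchySeq_tendsto_of_complete hC
  have hl : Tendsto (fun k => eLpNorm (f k - ⇑g) 2 (volume.restrict B)) atTop (𝓝 0) :=
    ((Lp.tendsto_Lp_iff_tendsto_eLpNorm' _ _).1 hg).congr fun k =>
      eLpNorm_congr_ae ((hm k).coeFn_toLp.sub EventuallyEq.rfl)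
  have hi : IntegrableOn g B := (Lp.memLp g).integrable one_le_two
  obtain ⟨h, h1, h2⟩ := weyl hB hi.locallyIntegrableOn fun φ p1 p2 p3 j => by
    have q1 : MemLp (pzb j φ) 2 (volume.restrict B) := (WLa_mem p1 p2 j).restrict B
    have q2 : MemLp φ 2 (volume.restrict B) :=
      (p1.continuous.memLp_of_hasCompactSupport p2).restrict B
    have q3 := WLa_lim (fun k => (WLa_meas (f k) j).aestronglyMeasurable)
      ((WLa_iff _ _).1 (hd j)) q2
    have q4 := WLa_lim (fun k => (hm k).1.sub (Lp.aestronglyMeasurable g)) hl q1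
    have q5 := q3.neg.sub q4
    rw [neg_zero, sub_zero] at q5
    rw [← setIntegral_eq_integral_of_forall_compl_eq_zero (s := B) fun z hz => by
      rw [WLa_zero (fun h => hz (p3 h)) j, mul_zero]]
    refine tendsto_nhds_unique tendsto_const_nhds (q5.congr fun k => ?_)
    have q6 : Integrable (fun z => f k z * pzb j φ z) (volume.restrict B) :=
      (hm k).integrable_mul q1
    have q7 : Integrable (fun z => (f k - ⇑g) z * pzb j φ z) (volume.restrict B) :=
      ((hm k).sub (Lp.memLp g)).integrable_mul q1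
    rw [← WLa_ibp hB (hf k) (hm k) p1 p2 p3 j, ← integral_sub q6 q7]
    refine integral_congr_ae (Eventually.of_forall fun z => ?_)
    simp only [Pi.sub_apply]
    ring
  refine ⟨h, h1, (WLa_iff _ fun k => f k - h).2 (hl.congr fun k => eLpNorm_congr_ae ?_)⟩
  exact EventuallyEq.rfl.sub ((ae_restrict_iff' hB.measurableSet).2 h2)

end

end Pool.Agent.MP_1c689d_ag.K0.L2

end
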