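import Pool.Agent.Mg.F1c689d.G932365
import Pool.Agent.Mg.F1c689d.G07f42f
import Pool.Agent.Mg.F1c689d.G8d4c98

set_option linter.all false


section

/-! The area formula. -/

set_option autoImplicit false

open Complex Filter Topology Set MeasureTheory
open scoped ComplexConjugate ContDiff ENNReal

namespace Pool.Agent.MP_1c689d_ag.K0

noncomputable section

variable {n m k : ℕ} {X Y : Type} [TopologicalSpace X] [TopologicalSpace Y] [Mf n X] [Mf m Y]
  [MeasurableSpace X] [BorelSpace X]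

/-- The points where `u` is unramified. -/
def Unr (u : X → E n) : Set X := {p | Function.Injective (df u p)}

/-- A countable disjoint cover of the unramified part by pieces of charts given by `u`. -/
theorem AREAa_cover {u : X → E n} {O : Set X} (hO : IsOpen O) (hu : ∀ p ∈ O, HMap u p) :
    ∃ (ι : Type) (_ : Countable ι) (e : ι → OpenPartialHomeomorph X (E n)) (P : ι → Set X),
      (∀ i, IsCh (e i)) ∧ (∀ i, (e i : X → E n) = u) ∧ (∀ i, MeasurableSet (P i)) ∧
      (∀ i, P i ⊆ (e i).source) ∧ Pairwise (Function.onFun Disjoint P) ∧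
      ⋃ i, P i = O ∩ Unr u := by
  choose e h1 h2 h3 using fun p : ↥(O ∩ Unr u) => exists_chart_of_bij (hu p p.2.1) p.2.2
  have ho : ∀ p, IsOpen (O ∩ (e p).source) := fun p => hO.inter (e p).open_source
  obtain ⟨T, hT, hU⟩ := TopologicalSpace.isOpen_iUnion_countable _ ho
  have : Countable T := hT.to_subtype
  obtain ⟨f, hf⟩ := exists_injective_nat T
  refine ⟨T, inferInstance, fun i => e i, fun i => (O ∩ (e i).source) \
    ⋃ j ∈ {j | f j < f i}, O ∩ (e j).source, fun i => h1 i, fun i => h3 i, fun i => ?_,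
    fun i => sdiff_subset.trans inter_subset_right, fun i j hij => ?_, ?_⟩
  · exact (ho i).measurableSet.diff (isOpen_biUnion fun (j : T) _ => ho j).measurableSet
  · refine Set.disjoint_left.2 fun y hi hj => ?_
    rcases lt_or_gt_of_ne (hf.ne hij) with h | h
    · exact hj.2 (mem_biUnion (s := {l | f l < f j}) h hi.1)
    · exact hi.2 (mem_biUnion (s := {l | f l < f i}) h hj.1)
  · refine Subset.antisymm (iUnion_subset fun i y hy => ⟨hy.1.1, ?_⟩) fun y hy => ?_
    · have := ((h1 i).df_bij hy.1.2).1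
      rwa [h3] at this
    · have : y ∈ ⋃ p ∈ T, O ∩ (e p).source := hU ▸ mem_iUnion.2 ⟨⟨y, hy⟩, hy.1, h2 _⟩
      obtain ⟨p, hp, hp'⟩ := mem_iUnion₂.1 this
      obtain ⟨i, hi, hm⟩ := (InvImage.wf f wellFounded_lt).has_min
        {i : T | y ∈ O ∩ (e i).source} ⟨⟨p, hp⟩, hp'⟩
      refine mem_iUnion.2 ⟨i, hi, fun h => ?_⟩
      obtain ⟨j, hj, hj'⟩ := mem_iUnion₂.1 h
      exact hm j hj' hj

omit [Mf n X] in
theorem AREAa_meas (e : OpenPartialHomeomorph X (E n)) {B : Set X} (hB : MeasurableSet B)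
    (hs : B ⊆ e.source) : MeasurableSet (e '' B) := by
  classical
  have h := (e.symm.continuousOn.measurable_piecewise (g := fun _ => e.symm 0) continuousOn_const
    e.open_target.measurableSet) hB
  have : e '' B = e.target ∩ (e.target.piecewise e.symm fun _ => e.symm 0) ⁻¹' B := by
    rw [e.image_eq_target_inter_inv_preimage hs]
    ext z
    refine and_congr_right fun hz => ?_
    rw [mem_preimage, mem_preimage, piecewise_eq_of_mem _ _ _ hz]
  rw [this]
  exact e.open_target.measurableSet.inter h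

omit [MeasurableSpace X] [BorelSpace X] in
theorem AREAa_top {e : OpenPartialHomeomorph X (E n)} (he : IsCh e) {z : E n}
    (hz : z ∈ e.target) : top (pb e.symm (pb e fun _ => vol n) z) = 1 := by
  rw [pb_chart' he hz, top_vol]

omit [Mf n X] [MeasurableSpace X] [BorelSpace X] in
theorem AREAa_sub (e : OpenPartialHomeomorph X (E n)) {B : Set X} (hs : B ⊆ e.source) :
    e '' B ⊆ e.target := by
  rintro _ ⟨y, hy, rfl⟩
  exact e.map_source (hs hy)

omit [Mf n X] in
theorem AREAa_aem (e : OpenPartialHomeomorph X (E n)) {B : Set X} (hB : MeasurableSet B)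
    (hs : B ⊆ e.source) : AEMeasurable e.symm (volume.restrict (e '' B)) :=
  (e.symm.continuousOn.mono (AREAa_sub e hs)).aemeasurable (AREAa_meas e hB hs)

/-- The change of variables in one chart. -/
theorem AREAa_piece {e : OpenPartialHomeomorph X (E n)} (he : IsCh e) {B : Set X}
    (hB : MeasurableSet B) (hs : B ⊆ e.source) {g : X → ℝ≥0∞} (hg : Measurable g) :
    ∫⁻ y in B, g y * ‖dens (pb e fun _ => vol n) y‖ₑ ∂mu n X = ∫⁻ z in e '' B, g (e.symm z) := by
  have hsm : Sm 1 (pb e fun _ => vol n) e.source := fun p hp => by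
    have := SmAt.pb (he.1 p hp) (G := 1) (α := fun _ => vol n)
      (smAt_E.2 (Eventually.of_forall fun _ => contDiffAt_const))
    rwa [gpb_one] at this
  have hm : AEMeasurable (fun y => ‖dens (pb e fun _ => vol n) y‖ₑ) ((mu n X).restrict B) :=
    ((aesm_dens e.open_source hsm).mono_measure (Measure.restrict_mono hs le_rfl)).enorm
  have key : ((mu n X).restrict B).withDensity (fun y => ‖dens (pb e fun _ => vol n) y‖ₑ) =
      (volume.restrict (e '' B)).map e.symm := by
    ext s hs'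
    have h2 : s ∩ B ⊆ e.source := inter_subset_right.trans hs
    rw [withDensity_apply _ hs', Measure.restrict_restrict hs',
      lintegral_chart he (hs'.inter hB) h2,
      Measure.map_apply_of_aemeasurable (AREAa_aem e hB hs) hs',
      Measure.restrict_apply' (AREAa_meas e hB hs),
      setLIntegral_congr_fun (g := fun _ => 1) (AREAa_meas e (hs'.inter hB) h2) fun z hz => by
        simp only [AREAa_top he (AREAa_sub e h2 hz), enorm_one],
      setLIntegral_one, e.image_eq_target_inter_inv_preimage h2,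
      e.image_eq_target_inter_inv_preimage hs, preimage_inter, inter_left_comm]
  rw [← lintegral_map' (by rw [← key]; exact hg.aemeasurable) (AREAa_aem e hB hs), ← key,
    lintegral_withDensity_eq_lintegral_mul₀ hm hg.aemeasurable]
  exact lintegral_congr fun y => mul_comm _ _

omit [MeasurableSpace X] [BorelSpace X] in
theorem AREAa_ram {u : X → E n} {y : X} (hy : y ∉ Unr u) :
    top (pb u (fun _ => vol n) y) = 0 := by
  have : (df u y).det = 0 :=
    LinearMap.det_eq_zero_iff_ker_ne_bot.2 fun h => hy (LinearMap.ker_eq_bot.1 h)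
  rw [pb, top_lm, this]
  simp

omit [Mf n X] [MeasurableSpace X] [BorelSpace X] in
theorem AREAa_fib (e : OpenPartialHomeomorph X (E n)) {B : Set X} (hs : B ⊆ e.source)
    (g : X → ℝ≥0∞) (w : E n) :
    ∑' y : ↥(B ∩ e ⁻¹' {w}), g y = (e '' B).indicator (fun z => g (e.symm z)) w := by
  by_cases hw : w ∈ e '' B
  · obtain ⟨y, hy, rfl⟩ := hw
    have : B ∩ e ⁻¹' {e y} = {y} := by
      refine Subset.antisymm (fun x hx => e.injOn (hs hx.1) (hs hy) hx.2) ?_
      rintro _ rfl
      exact ⟨hy, rfl⟩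
    rw [indicator_of_mem (mem_image_of_mem _ hy), e.left_inv (hs hy), tsum_congr_set_coe g this,
      tsum_singleton]
  · have : B ∩ e ⁻¹' {w} = ∅ := eq_empty_of_forall_notMem fun x hx => hw ⟨x, hx.1, hx.2⟩
    rw [indicator_of_notMem hw, tsum_congr_set_coe g this, tsum_empty]

/-- Cover `O ∩ Unr u` by countably many charts given by `u` (`exists_chart_of_bij`), make the cover
disjoint and use `lintegral_chart`; on the complement the pull-back of the volume form vanishes. -/
theorem area_formula {u : X → E n} {O : Set X} (hO : IsOpen O) (hu : ∀ p ∈ O, HMap u p)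
    {A : Set X} (hA : MeasurableSet A) (hAO : A ⊆ O) {g : X → ℝ≥0∞} (hg : Measurable g) :
    ∫⁻ y in A, g y * ‖dens (pb u fun _ => vol n) y‖ₑ ∂mu n X =
      ∫⁻ w, ∑' y : ↥(A ∩ Unr u ∩ u ⁻¹' {w}), g y := by
  obtain ⟨ι, _, e, P, h1, h2, h3, h4, h5, h6⟩ := AREAa_cover hO hu
  obtain ⟨jac, -, hj⟩ := exists_jac n X
  have hU : A ∩ Unr u = ⋃ i, A ∩ P i := by
    rw [← inter_iUnion, h6, ← inter_assoc, inter_eq_left.2 hAO]
  have hm : ∀ i, MeasurableSet (A ∩ P i) := fun i => hA.inter (h3 i)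
  have hs : ∀ i, A ∩ P i ⊆ (e i).source := fun i => inter_subset_right.trans (h4 i)
  have hd : Pairwise (Function.onFun Disjoint fun i => A ∩ P i) := fun i j hij =>
    (h5 hij).mono inter_subset_right inter_subset_right
  have hM : MeasurableSet (A ∩ Unr u) := hU ▸ MeasurableSet.iUnion hm
  have e1 : ∫⁻ y in A, g y * ‖dens (pb u fun _ => vol n) y‖ₑ ∂mu n X =
      ∫⁻ y in A ∩ Unr u, g y * ‖dens (pb u fun _ => vol n) y‖ₑ ∂mu n X := by
    rw [← lintegral_indicator hA, ← lintegral_indicator hM]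
    refine lintegral_congr fun y => ?_
    by_cases hy : y ∈ Unr u
    · by_cases hy' : y ∈ A
      · rw [indicator_of_mem hy', indicator_of_mem (mem_inter hy' hy)]
      · rw [indicator_of_notMem hy', indicator_of_notMem fun h => hy' h.1]
    · rw [indicator_of_notMem (s := A ∩ Unr u) fun h => hy h.2, indicator_apply_eq_zero]
      intro _
      rw [hj, AREAa_ram hy]
      simp
  have e2 : ∀ w, ∑' y : ↥(A ∩ Unr u ∩ u ⁻¹' {w}), g y =
      ∑' i, (e i '' (A ∩ P i)).indicator (fun z => g ((e i).symm z)) w := fun w => by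
    rw [tsum_congr_set_coe g (show A ∩ Unr u ∩ u ⁻¹' {w} = ⋃ i, A ∩ P i ∩ u ⁻¹' {w} by
      rw [hU, iUnion_inter]), ENNReal.tsum_biUnion fun i _ j _ hij =>
        (hd hij).mono inter_subset_left inter_subset_left]
    refine tsum_congr fun i => ?_
    rw [← AREAa_fib (e i) (hs i), h2]
  rw [e1, hU, lintegral_iUnion hm hd, ← hU, lintegral_congr e2, lintegral_tsum fun i =>
    (aemeasurable_indicator_iff (f := fun z => g ((e i).symm z)) (AREAa_meas _ (hm i) (hs i))).2
      (hg.comp_aemeasurable (AREAa_aem _ (hm i) (hs i)))]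
  refine tsum_congr fun i => ?_
  rw [lintegral_indicator (AREAa_meas _ (hm i) (hs i)), ← AREAa_piece (h1 i) (hm i) (hs i) hg, h2]

theorem area_le {u : X → E n} {O : Set X} (hO : IsOpen O) (hu : ∀ p ∈ O, HMap u p)
    {A : Set X} (hA : MeasurableSet A) (hAO : A ⊆ O) {N : ℕ}
    (hN : ∀ᵐ w, (A ∩ u ⁻¹' {w}).encard ≤ N) {g : E n → ℝ≥0∞} (hg : Measurable g) :
    ∫⁻ y in A, g (u y) * ‖dens (pb u fun _ => vol n) y‖ₑ ∂mu n X ≤ N * ∫⁻ w in u '' A, g w := by
  classical
  have hc : ContinuousOn u O := fun p hp => (hu p hp).continuousAt.continuousWithinAt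
  have hm : Measurable (O.piecewise u fun _ => 0) :=
    hc.measurable_piecewise continuousOn_const hO.measurableSet
  have h := area_formula hO hu hA hAO (hg.comp hm)
  rw [setLIntegral_congr_fun (g := fun y => (g ∘ O.piecewise u fun _ => 0) y *
    ‖dens (pb u fun _ => vol n) y‖ₑ) hA fun y hy => by
      simp only [Function.comp_apply, piecewise_eq_of_mem _ _ _ (hAO hy)], h]
  refine le_trans ?_ (mul_le_mul_right (lintegral_indicator_le g (u '' A)) _)
  rw [← lintegral_const_mul' _ _ (ENNReal.natCast_ne_top N)]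
  refine lintegral_mono_ae (hN.mono fun w hw => ?_)
  by_cases hw' : w ∈ u '' A
  · rw [indicator_of_mem hw', tsum_congr (g := fun _ => g w) fun y => by
      rw [Function.comp_apply, piecewise_eq_of_mem _ _ _ (hAO y.2.1.1), show u y = w from y.2.2],
      ENNReal.tsum_set_const]
    refine mul_le_mul_left ?_ _
    have : (A ∩ Unr u ∩ u ⁻¹' {w}).encard ≤ N :=
      (encard_le_encard (inter_subset_inter_left _ inter_subset_left)).trans hw
    exact_mod_cast this
  · have : A ∩ Unr u ∩ u ⁻¹' {w} = ∅ :=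
      eq_empty_of_forall_notMem fun x hx => hw' ⟨x, hx.1.1, hx.2⟩
    rw [tsum_congr_set_coe _ this, tsum_empty]
    exact zero_le

omit [MeasurableSpace X] [BorelSpace X] in
theorem AREAa_div {e : OpenPartialHomeomorph X (E n)} (he : IsCh e) {z : E n}
    (hz : z ∈ e.target) (α : Fm n X) :
    top (pb e.symm α z) = top (α (e.symm z)) / top (pb e (fun _ => vol n) (e.symm z)) := by
  have h := AREAa_top he hz
  rw [pb, top_lm] at h
  rw [pb, top_lm, eq_div_iff (right_ne_zero_of_mul_eq_one h)]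
  linear_combination top (α (e.symm z)) * h

omit [Mf n X] [MeasurableSpace X] [BorelSpace X] in
theorem AREAa_sum {ι : Type} {u : X → E n} {e : ι → OpenPartialHomeomorph X (E n)}
    {P : ι → Set X} (h2 : ∀ i, (e i : X → E n) = u) (h4 : ∀ i, P i ⊆ (e i).source)
    (h5 : Pairwise (Function.onFun Disjoint P)) (c : X → ℂ) {w : E n}
    (hf : ((⋃ i, P i) ∩ u ⁻¹' {w}).Finite) :
    ∑ᶠ y ∈ (⋃ i, P i) ∩ u ⁻¹' {w}, c y =
      ∑' i, (e i '' P i).indicator (fun z => c ((e i).symm z)) w := by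
  classical
  have a1 : ∀ i, (e i '' P i).indicator (fun z => c ((e i).symm z)) w =
      ∑ y ∈ hf.toFinset, (P i).indicator c y := fun i => by
    by_cases hw : w ∈ e i '' P i
    · obtain ⟨y, hy, rfl⟩ := hw
      rw [indicator_of_mem (mem_image_of_mem _ hy), (e i).left_inv (h4 i hy),
        Finset.sum_eq_single y, indicator_of_mem hy]
      · intro x hx hne
        refine indicator_of_notMem (fun h => hne ((e i).injOn (h4 i h) (h4 i hy) ?_)) _
        rw [← h2 i] at hf
        have := (hf.mem_toFinset.1 (by simpa only [h2 i] using hx)).2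
        exact this
      · intro h
        exact absurd (hf.mem_toFinset.2 ⟨mem_iUnion.2 ⟨i, hy⟩, by rw [← h2 i]; rfl⟩) h
    · rw [indicator_of_notMem hw, Finset.sum_eq_zero]
      intro y hy
      refine indicator_of_notMem (fun h => hw ⟨y, h, ?_⟩) _
      rw [h2]
      exact (hf.mem_toFinset.1 hy).2
  rw [finsum_mem_eq_finite_toFinset_sum _ hf, tsum_congr a1]
  refine (hasSum_sum fun y hy => ?_).tsum_eq.symm
  obtain ⟨i, hi⟩ := mem_iUnion.1 (hf.mem_toFinset.1 hy).1
  have := hasSum_single (f := fun j => (P j).indicator c y) i fun j hj =>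
    indicator_of_notMem (fun h => Set.disjoint_left.1 (h5 hj) h hi) _
  rwa [indicator_of_mem hi] at this

/-- The signed version: a form `α = c • u^* vol` off the ramification. -/
theorem area_integral {u : X → E n} {O : Set X} (hO : IsOpen O) (hu : ∀ p ∈ O, HMap u p)
    (hn : mu n X (O \ Unr u) = 0) (hfin : ∀ w, (O ∩ u ⁻¹' {w}).Finite) {α : Fm n X}
    (ha : IntegrableOn (dens α) O (mu n X)) :
    Integrable (fun w => ∑ᶠ y ∈ O ∩ Unr u ∩ u ⁻¹' {w},
      top (α y) / top (pb u (fun _ => vol n) y)) ∧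
    ∫ y in O, dens α y ∂mu n X = ∫ w, ∑ᶠ y ∈ O ∩ Unr u ∩ u ⁻¹' {w},
      top (α y) / top (pb u (fun _ => vol n) y) := by
  obtain ⟨ι, _, e, P, h1, h2, h3, h4, h5, h6⟩ := AREAa_cover hO hu
  have hM := fun i => AREAa_meas (e i) (h3 i) (h4 i)
  have hPO : ∀ i, P i ⊆ O := fun i => (subset_iUnion P i).trans (h6 ▸ inter_subset_left)
  obtain ⟨F, hF⟩ : ∃ F : ι → E n → ℂ,
      ∀ i, F i = (e i '' P i).indicator fun z => top (pb (e i).symm α z) := ⟨_, fun _ => rfl⟩
  have e1 : (fun w => ∑ᶠ y ∈ O ∩ Unr u ∩ u ⁻¹' {w},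
      top (α y) / top (pb u (fun _ => vol n) y)) = fun w => ∑' i, F i w := by
    funext w
    rw [← h6, AREAa_sum h2 h4 h5 _ ((hfin w).subset
      (inter_subset_inter_left _ (iUnion_subset hPO)))]
    refine tsum_congr fun i => ?_
    rw [hF]
    refine congrFun (indicator_congr fun z hz => ?_) w
    rw [AREAa_div (h1 i) (AREAa_sub _ (h4 i) hz), h2]
  have hI : ∀ i, Integrable (F i) := fun i => by
    rw [hF, integrable_indicator_iff (hM i)]
    exact (integrableOn_chart (h1 i) (h3 i) (h4 i) α).1 (ha.mono_set (hPO i))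
  have hL : ∑' i, ∫⁻ w, ‖F i w‖ₑ < ⊤ := by
    have : ∀ i, ∫⁻ w, ‖F i w‖ₑ = ∫⁻ y in P i, ‖dens α y‖ₑ ∂mu n X := fun i => by
      rw [lintegral_chart (h1 i) (h3 i) (h4 i), ← lintegral_indicator (hM i), hF]
      exact lintegral_congr fun w => enorm_indicator_eq_indicator_enorm _ _
    rw [tsum_congr this, ← lintegral_iUnion h3 h5]
    exact (ha.mono_set (iUnion_subset hPO)).2
  rw [e1]
  refine ⟨⟨(AEMeasurable.tsum fun i => (hI i).1.aemeasurable).aestronglyMeasurable, ?_⟩, ?_⟩
  · refine lt_of_le_of_lt (lintegral_mono fun w => enorm_tsum_le_tsum_enorm) ?_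
    rwa [lintegral_tsum fun i => (hI i).1.enorm]
  · have : O =ᵐ[mu n X] (⋃ i, P i : Set X) := by
      rw [h6, ae_eq_set]
      refine ⟨by rwa [sdiff_self_inter], ?_⟩
      rw [Set.sdiff_eq_empty.2 inter_subset_left, measure_empty]
    rw [integral_tsum (fun i => (hI i).1) hL.ne, setIntegral_congr_set this,
      integral_iUnion h3 h5 (ha.mono_set (iUnion_subset hPO))]
    refine tsum_congr fun i => ?_
    rw [hF, integral_indicator (hM i), integral_chart (h1 i) (h3 i) (h4 i)]

end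

end Pool.Agent.MP_1c689d_ag.K0

end

section

/-! The area formula. -/

set_option autoImplicit false

open Complex Filter Topology Set MeasureTheory
open scoped ComplexConjugate ContDiff ENNReal

namespace Pool.Agent.MP_1c689d_ag.K0

noncomputable section

variable {n m k : ℕ} {X Y : Type} [TopologicalSpace X] [TopologicalSpace Y] [Mf n X] [Mf m Y]
  [MeasurableSpace X] [BorelSpace X]

theorem AREA_inj_iff (B : E n →L[ℂ] E n) :
    Function.Injective (B.restrictScalars ℝ) ↔ B.det ≠ 0 := by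
  rw [ContinuousLinearMap.det, Ne, LinearMap.det_eq_zero_iff_ker_ne_bot, not_not,
    LinearMap.ker_eq_bot]
  rfl

/-- The derivative of a holomorphic map in a fixed direction is holomorphic. -/
theorem AREA_hol_fderiv {F : E n → E m} {z : E n} (h : ∀ᶠ w in 𝓝 z, DifferentiableAt ℂ F w)
    (v : E n) : DifferentiableAt ℂ (fun w => fderiv ℂ F w v) z := by
  have h1 := contDiffAt_of_hol h
  have h2 : DifferentiableAt ℝ (fderiv ℝ F) z :=
    (h1.fderiv_right (m := 1) (by norm_cast)).differentiableAt one_ne_zero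
  have h3 : ∀ a : E n, HasFDerivAt (fun w => fderiv ℝ F w a)
      ((fderiv ℝ (fderiv ℝ F) z).flip a) z := fun a =>
    ((ContinuousLinearMap.apply ℝ (E m) a).hasFDerivAt.comp z h2.hasFDerivAt).congr_fderiv
      (by ext1 b; rfl)
  have h4 : ∀ a : E n, (fun w => fderiv ℝ F w a) =ᶠ[𝓝 z] fun w => fderiv ℂ F w a := fun a => by
    filter_upwards [h] with w hw
    rw [hw.fderiv_restrictScalars ℝ]
    rfl
  have h5 : ∀ a b : E n, fderiv ℝ (fderiv ℝ F) z b (I • a) = I • fderiv ℝ (fderiv ℝ F) z b a := by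
    intro a b
    have e : (fun w => fderiv ℝ F w (I • a)) =ᶠ[𝓝 z] fun w => I • fderiv ℝ F w a := by
      filter_upwards [h4 (I • a), h4 a] with w e1 e2
      rw [e1, e2, map_smul]
    exact congrArg (fun T : E n →L[ℝ] E m => T b)
      (((h3 (I • a)).congr_of_eventuallyEq e.symm).unique ((h3 a).const_smul I))
  have h6 := h1.isSymmSndFDerivAt (by simp only [minSmoothness_of_isRCLikeNormedField]; norm_cast)
  refine (differentiableAt_of_pzb (h3 v).differentiableAt fun j => ?_).congr_of_eventuallyEq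
    (h4 v).symm
  have e : (Pi.single j I : E n) = I • (Pi.single j 1 : E n) := by
    rw [← Pi.single_smul, smul_eq_mul, mul_one]
  rw [pzb, (h3 v).fderiv, ContinuousLinearMap.flip_apply, ContinuousLinearMap.flip_apply, e,
    h6.eq (I • _) v, h5, h6.eq v, smul_smul, I_mul_I, neg_one_smul, add_neg_cancel, smul_zero]

theorem AREA_hol_det {F : E n → E n} {z : E n} (h : ∀ᶠ w in 𝓝 z, DifferentiableAt ℂ F w) :
    DifferentiableAt ℂ (fun w => (fderiv ℂ F w).det) z := by
  have e : (fun w => (fderiv ℂ F w).det) = fun w => ∑ σ : Equiv.Perm (Fin n),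
      ((Equiv.Perm.sign σ : ℤ) : ℂ) * ∏ i, fderiv ℂ F w (Pi.single i 1) (σ i) := by
    funext w
    rw [ContinuousLinearMap.det, ← LinearMap.det_toMatrix', Matrix.det_apply']
    rfl
  rw [e]
  exact DifferentiableAt.fun_sum fun σ _ => (HasFDerivAt.finsetProd fun i _ =>
    (differentiableAt_pi.1 (AREA_hol_fderiv h _) (σ i)).hasFDerivAt).differentiableAt.const_mul _

omit [MeasurableSpace X] [BorelSpace X] in
/-- Ramification in a chart. -/
theorem AREA_chart {u : X → E n} {e : OpenPartialHomeomorph X (E n)} (he : IsCh e) {y : X}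
    (hy : y ∈ e.source) (hu : HMap u y) :
    (∀ᶠ w in 𝓝 (e y), DifferentiableAt ℂ (u ∘ e.symm) w) ∧
      (y ∈ Unr u ↔ (fderiv ℂ (u ∘ e.symm) (e y)).det ≠ 0) := by
  have h1 : HMap (u ∘ e.symm) (e y) :=
    HMap.comp (by rw [e.left_inv hy]; exact hu) (he.2 _ (e.map_source hy))
  have h2 := hmap_E.1 h1
  refine ⟨h2, ?_⟩
  have h3 : u =ᶠ[𝓝 y] (u ∘ e.symm) ∘ e := by
    filter_upwards [e.open_source.mem_nhds hy] with x hx
    simp only [Function.comp_apply, e.left_inv hx]
  rw [← AREA_inj_iff, ← h2.self_of_nhds.fderiv_restrictScalars ℝ, ← df_E,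
    ← Function.Injective.of_comp_iff' _ (he.df_bij hy), Unr, mem_ofPred_eq, df_congr h3,
    df_comp h1 (he.1 y hy)]
  rfl

theorem mem_unr_iff {u : X → E n} {p : X} (hu : HMap u p) :
    p ∈ Unr u ↔ pb u (fun _ => (List.ofFn (dz : Fin n → Λ n)).prod) p ≠ 0 := by
  obtain ⟨B, hB⟩ := hu.df_complex
  rw [Unr, mem_ofPred_eq, pb, hB, lm_prod_dz, AREA_inj_iff, smul_ne_zero_iff]
  exact (and_iff_left prod_dz_ne).symm

/-- Sard. -/
theorem null_critical {u : X → E n} {O : Set X} (hO : IsOpen O) (hu : ∀ p ∈ O, HMap u p) :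
    volume (u '' (O \ Unr u)) = 0 := by
  obtain ⟨ix, h1, h2, -⟩ := exists_ix n X
  have h3 : u '' (O \ Unr u) ⊆ ⋃ x ∈ range ix,
      (u ∘ (ch n x).symm) '' (ch n x '' ((O \ Unr u) ∩ (ch n x).source)) := by
    rintro _ ⟨y, hy, rfl⟩
    refine mem_iUnion₂.2 ⟨ix y, mem_range_self y, _, ⟨y, ⟨hy, h1 y⟩, rfl⟩, ?_⟩
    simp only [Function.comp_apply, (ch n (ix y)).left_inv (h1 y)]
  refine measure_mono_null h3 ((measure_biUnion_null_iff h2).2 fun x _ => ?_)
  refine addHaar_image_eq_zero_of_det_fderivWithin_eq_zero volume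
    (f' := fun z => (fderiv ℂ (u ∘ (ch n x).symm) z).restrictScalars ℝ) ?_ ?_
  · rintro _ ⟨y, hy, rfl⟩
    exact ((AREA_chart (isCh_ch x) hy.2
      (hu y hy.1.1)).1.self_of_nhds.hasFDerivAt.restrictScalars ℝ).hasFDerivWithinAt
  · rintro _ ⟨y, hy, rfl⟩
    have h4 := (AREA_chart (isCh_ch x) hy.2 (hu y hy.1.1)).2
    rw [det_restrict, not_not.1 fun h => hy.1.2 (h4.2 h), map_zero]

/-- A map with finite fibres is unramified almost everywhere (`exists_det_ne`,
`null_zero_of_hol` on balls in charts). -/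
theorem null_ram {u : X → E n} {O : Set X} (hO : IsOpen O) (hu : ∀ p ∈ O, HMap u p)
    (hfin : ∀ w, (O ∩ u ⁻¹' {w}).Finite) : mu n X (O \ Unr u) = 0 := by
  refine measure_null_of_locally_null _ fun p hp => ?_
  have he := isCh_ch (n := n) p
  have hs : p ∈ (ch n p).source := mem_chart_source _ p
  generalize ch n p = e at he hs
  have h1 : e.target ∩ e.symm ⁻¹' O ∈ 𝓝 (e p) :=
    (e.isOpen_inter_preimage_symm hO).mem_nhds
      ⟨e.map_source hs, by rw [mem_preimage, e.left_inv hs]; exact hp.1⟩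
  obtain ⟨r, hr, hb⟩ := Metric.mem_nhds_iff.1 h1
  have h2 : ∀ z ∈ Metric.ball (e p) r, ∀ᶠ w in 𝓝 z, DifferentiableAt ℂ (u ∘ e.symm) w := by
    intro z hz
    have := (AREA_chart he (e.map_target (hb hz).1) (hu _ (hb hz).2)).1
    rwa [e.right_inv (hb hz).1] at this
  obtain ⟨z, hz, h0⟩ := exists_det_ne (f := u ∘ e.symm) Metric.isOpen_ball
    ⟨_, Metric.mem_ball_self hr⟩ (fun z hz => (h2 z hz).self_of_nhds.differentiableWithinAt)
    fun w => ((hfin w).image e).subset fun z hz =>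
      ⟨e.symm z, ⟨(hb hz.1).2, hz.2⟩, e.right_inv (hb hz.1).1⟩
  have h3 := null_zero_of_hol Metric.isOpen_ball (convex_ball (e p) r).isPreconnected
    (fun z hz => (AREA_hol_det (h2 z hz)).differentiableWithinAt) hz h0
  refine ⟨(O \ Unr u) ∩ (e.source ∩ e ⁻¹' Metric.ball (e p) r), inter_mem_nhdsWithin _
    ((e.isOpen_inter_preimage Metric.isOpen_ball).mem_nhds ⟨hs, Metric.mem_ball_self hr⟩), ?_⟩
  refine (null_chart he fun y hy => hy.2.1).2 (measure_mono_null ?_ h3)
  rintro _ ⟨y, hy, rfl⟩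
  exact ⟨hy.2.2, not_not.1 fun h => hy.1.2 ((AREA_chart he hy.2.1 (hu y hy.1.1)).2.2 h)⟩

theorem null_preimage {u : X → E n} {O : Set X} (hO : IsOpen O) (hu : ∀ p ∈ O, HMap u p)
    (hfin : ∀ w, (O ∩ u ⁻¹' {w}).Finite) {B : Set (E n)} (hB : volume B = 0) :
    mu n X (O ∩ u ⁻¹' B) = 0 := by
  have h1 : mu n X (O ∩ Unr u ∩ u ⁻¹' B) = 0 := by
    refine measure_null_of_locally_null _ fun p hp => ?_
    obtain ⟨e, he, hs, rfl⟩ := exists_chart_of_bij (hu p hp.1.1) hp.1.2
    refine ⟨_, inter_mem_nhdsWithin _ (e.open_source.mem_nhds hs), ?_⟩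
    refine (null_chart he fun y hy => hy.2).2 (measure_mono_null ?_ hB)
    rintro _ ⟨y, hy, rfl⟩
    exact hy.1.2
  refine measure_mono_null (fun y hy => ?_) (measure_union_null (null_ram hO hu hfin) h1)
  by_cases h : y ∈ Unr u
  · exact Or.inr ⟨⟨hy.1, h⟩, hy.2⟩
  · exact Or.inl ⟨hy.1, h⟩

end

end Pool.Agent.MP_1c689d_ag.K0

end

section

/-! Adapted charts and the manifold structure of a smooth hypersurface. -/

set_option autoImplicit false

open Complex Filter Topology Set MeasureTheory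
open scoped ComplexConjugate ContDiff ENNReal

namespace Pool.Agent.MP_1c689d_ag.K0

noncomputable section

variable {n m : ℕ} {X Y : Type} [TopologicalSpace X] [TopologicalSpace Y]

theorem HYPa_tr [Mf n X] {e e' : OpenPartialHomeomorph X (E n)} (he : e ∈ atlas (E n) X)
    (he' : e' ∈ atlas (E n) X) {y : X} (h1 : y ∈ e.source) (h2 : y ∈ e'.source) :
    DifferentiableAt ℂ (e' ∘ e.symm) (e y) :=
  (Mf.hol _ he _ he').differentiableAt
    ((OpenPartialHomeomorph.open_source _).mem_nhds ⟨e.map_source h1, by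
      show e.symm (e y) ∈ e'.source
      rwa [e.left_inv h1]⟩)

theorem HYPa_isCh [Mf n X] {e : OpenPartialHomeomorph X (E n)} (he : e ∈ atlas (E n) X) :
    IsCh e := by
  refine ⟨fun y hy => MF1a_iff.2 ?_, fun z hz => MF1a_iff.2 ?_⟩
  · filter_upwards [e.open_source.mem_nhds hy] with w hw
    exact ⟨e.continuousAt hw, HYPa_tr (chart_mem_atlas _ w) he (mem_chart_source _ w) hw⟩
  · filter_upwards [e.open_target.mem_nhds hz] with w hw
    have := HYPa_tr he (chart_mem_atlas (E n) (e.symm w)) (e.map_target hw)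
      (mem_chart_source (E n) (e.symm w))
    rw [e.right_inv hw] at this
    exact ⟨e.continuousAt_symm hw, this⟩

theorem HYPa_inj (L : E (n + 1) →L[ℂ] ℂ) (j : Fin (n + 1)) (hj : L (Pi.single j 1) ≠ 0)
    (w : E (n + 1)) (h1 : L w = 0) (h2 : ∀ i, w (j.succAbove i) = 0) : w = 0 := by
  have e : w = w j • (Pi.single j 1 : E (n + 1)) := by
    funext i
    refine Fin.succAboveCases j ?_ (fun i => ?_) i
    · simp
    · simp [h2]
  rw [e, map_smul, smul_eq_mul, mul_eq_zero] at h1
  rw [e, h1.resolve_right hj, zero_smul]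

theorem HYPa_cons : Differentiable ℂ fun z : E n => (Fin.cons 0 z : E (n + 1)) :=
  differentiable_pi.2 fun i => Fin.cases (differentiable_const (0 : ℂ))
    (fun i => differentiable_apply i) i

theorem HYPa_tail : Differentiable ℂ fun z : E (n + 1) => (Fin.tail z : E n) :=
  differentiable_pi.2 fun i => differentiable_apply i.succ

/-- Complete `u` to local coordinates with all but one of the coordinates of `ch n p`, then use
`exists_chart_of_bij`. -/
theorem exists_chart_first [Mf (n + 1) X] {u : X → ℂ} {p : X} (hu : HolAt 1 u p)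
    (h0 : dd (fn (n + 1) u) p ≠ 0) :
    ∃ e : OpenPartialHomeomorph X (E (n + 1)), IsCh e ∧ p ∈ e.source ∧ ∀ y, e y 0 = u y := by
  have hs := mem_chart_source (E (n + 1)) p
  have hd : DifferentiableAt ℂ (u ∘ (ch (n + 1) p).symm) (ch (n + 1) p p) :=
    (MF2a_hol_iff.1 hu).self_of_nhds
  have hR := hd.fderiv_restrictScalars ℝ
  generalize hL : fderiv ℂ (u ∘ (ch (n + 1) p).symm) (ch (n + 1) p p) = L at hR
  obtain ⟨j, hj⟩ : ∃ j, L (Pi.single j 1) ≠ 0 := by
    by_contra hc
    apply h0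
    have h1 : L = 0 := by
      refine ContinuousLinearMap.ext fun w => ?_
      rw [pi_eq_sum_univ' w, map_sum]
      refine Finset.sum_eq_zero fun i _ => ?_
      rw [map_smul, not_not.1 (not_exists.1 hc i), smul_zero]
    rw [MF3_dd_fn, hR, h1]
    exact map_zero io
  let U : X → E (n + 1) := fun y => Fin.cons (u y) fun i => ch (n + 1) p y (j.succAbove i)
  have hU : HMap U p := hmap_iff_holAt.2 fun i => Fin.cases hu
    (fun i => hmap_iff_holAt.1 ((isCh_ch p).1 p hs) (j.succAbove i)) i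
  have hD : HasFDerivAt (lc U p) (df U p) (ch (n + 1) p p) :=
    (hU.self_of_nhds.2.restrictScalars ℝ).hasFDerivAt
  have h1 : (ContinuousLinearMap.proj (0 : Fin (n + 1))).comp (df U p) = L.restrictScalars ℝ := by
    rw [← hR]
    exact (hasFDerivAt_pi'.1 hD 0).fderiv.symm
  have h2 (i : Fin n) : (ContinuousLinearMap.proj i.succ).comp (df U p) =
      ContinuousLinearMap.proj (j.succAbove i) := by
    refine (hasFDerivAt_pi'.1 hD i.succ).unique
      ((hasFDerivAt_apply (j.succAbove i) (ch (n + 1) p p)).congr_of_eventuallyEq ?_)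
    filter_upwards [(ch (n + 1) p).eventually_right_inverse' hs] with z hz
    exact congrFun hz (j.succAbove i)
  have hi : Function.Injective (df U p) := (injective_iff_map_eq_zero _).2 fun w hw => by
    refine HYPa_inj L j hj w ?_ fun i => ?_
    · have := DFunLike.congr_fun h1 w
      rw [ContinuousLinearMap.comp_apply, hw] at this
      exact this.symm
    · have := DFunLike.congr_fun (h2 i) w
      rw [ContinuousLinearMap.comp_apply, hw] at this
      exact this.symm
  obtain ⟨e, h3, h4, h5⟩ := exists_chart_of_bij hU hi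
  exact ⟨e, h3, h4, fun y => by rw [h5]; rfl⟩

/-- A chart can be shrunk so that its target is a ball (a polydisc). -/
theorem IsCh.exists_ball [Mf n X] {e : OpenPartialHomeomorph X (E n)} (he : IsCh e) {p : X}
    (hp : p ∈ e.source) {W : Set X} (hW : W ∈ 𝓝 p) :
    ∃ (e' : OpenPartialHomeomorph X (E n)) (r : ℝ), 0 < r ∧ IsCh e' ∧ p ∈ e'.source ∧
      e'.source ⊆ W ∩ e.source ∧ (e' : X → E n) = e ∧ (e'.symm : E n → X) = e.symm ∧
      e'.target = Metric.ball (e p) r := by
  have h1 : e.target ∩ e.symm ⁻¹' W ∈ 𝓝 (e p) :=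
    inter_mem (e.open_target.mem_nhds (e.map_source hp)) (e.tendsto_symm hp hW)
  obtain ⟨r, hr, hb⟩ := Metric.mem_nhds_iff.1 h1
  have ho : IsOpen (e.source ∩ e ⁻¹' Metric.ball (e p) r) :=
    e.isOpen_inter_preimage Metric.isOpen_ball
  refine ⟨e.restrOpen _ ho, r, hr, he.restrOpen _ ho, ⟨hp, hp, Metric.mem_ball_self hr⟩,
    fun y hy => ⟨?_, hy.1⟩, rfl, rfl, Set.ext fun z => ⟨fun hz => ?_, fun hz => ?_⟩⟩
  · have := (hb hy.2.2).2
    rwa [mem_preimage, e.left_inv hy.1] at this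
  · have h2 : e (e.symm z) ∈ Metric.ball (e p) r := hz.2.2
    rwa [e.right_inv hz.1] at h2
  · have h2 := (hb hz).1
    refine ⟨h2, e.map_target h2, ?_⟩
    show e (e.symm z) ∈ Metric.ball (e p) r
    rwa [e.right_inv h2]

namespace Div

variable [Mf (n + 1) X] (H : Div n X)

theorem val_mem (p : H.T) : H.val p ∈ H.O ∧ H.σ (H.val p) = 0 := by
  exact p.2

theorem range_val : range H.val = H.S := by
  exact Subtype.range_val

theorem isEmbedding_val : IsEmbedding H.val := by
  exact IsEmbedding.subtypeVal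

theorem D_Ty : Ty 1 0 H.D := by
  exact (fn_Ty _).dp

theorem D_sm {y : X} (hy : y ∈ H.O) : SmAt H.G H.D y := by
  exact (H.hol y hy).smAt.dp (H.ok y hy)

theorem D_ne (p : H.T) : H.D (H.val p) ≠ 0 := by
  exact H.nz _ (H.val_mem p).1 (H.val_mem p).2

theorem dbar_D {y : X} (hy : y ∈ H.O) : dbar H.G H.D y = H.σ y • cur H.G y := by
  exact dbar_dp_sec (H.ok y hy) (H.hol y hy)

theorem exists_adp (p : H.T) : ∃ e, H.Adp e ∧ H.val p ∈ e.source ∧
    ∀ y, e y 0 = (H.G (H.val p) y)⁻¹ * H.σ y := by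
  obtain ⟨hO, hσ⟩ := H.val_mem p
  have hD := H.D_ne p
  generalize H.val p = q at hO hσ hD ⊢
  have hG := H.ok q hO
  have h1 : HolAt 1 (fun y => (H.G q y)⁻¹ * H.σ y) q := holAt_iff_one.1 (H.hol q hO)
  have h2 : dd (fn (n + 1) fun y => (H.G q y)⁻¹ * H.σ y) q ≠ 0 := fun h => hD (by
    have h3 := dp_mul gok_one gok_one hG.sm h1.smAt
    rw [← dd_of_hol h1, h, mul_zero, add_zero, mul_one] at h3
    rw [Div.D, dp_eq_one, dp_congr (β := (fn (n + 1) fun y => (normSq (H.G q y) : ℂ)) *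
      fn (n + 1) fun y => (H.G q y)⁻¹ * H.σ y) (by
        filter_upwards [hG.ne] with y hy
        simp only [fn, Pi.mul_apply, Algebra.smul_def, ← map_mul, normSq_eq_conj_mul_self]
        congr 1
        field_simp), h3]
    simp only [fn, hσ, mul_zero, map_zero, smul_zero])
  obtain ⟨e, he, hq, hu⟩ := exists_chart_first h1 h2
  obtain ⟨e', r, -, he', hq', hs, hc, -, -⟩ :=
    he.exists_ball hq (inter_mem (H.op.mem_nhds hO) hG.ne)
  refine ⟨e', ⟨he', fun y hy => (hs hy).1.1, fun y hy => ?_⟩, hq', fun y => ?_⟩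
  · rw [hc, hu, mul_eq_zero, or_iff_right (inv_ne_zero (hs hy).1.2)]
  · rw [hc, hu]

theorem HYPa_mem {H : Div n X} {e : OpenPartialHomeomorph X (E (n + 1))} (h : H.Adp e) {z : E n}
    (hz : (Fin.cons 0 z : E (n + 1)) ∈ e.target) : e.symm (Fin.cons 0 z) ∈ H.S :=
  ⟨h.2.1 (e.map_target hz), (h.2.2 _ (e.map_target hz)).2 (by rw [e.right_inv hz]; rfl)⟩

theorem HYPa_cons_tail {H : Div n X} {e : OpenPartialHomeomorph X (E (n + 1))} (h : H.Adp e)
    {q : H.T} (hq : H.val q ∈ e.source) :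
    (Fin.cons 0 (Fin.tail (e (H.val q))) : E (n + 1)) = e (H.val q) := by
  rw [← (h.2.2 _ hq).1 (H.val_mem q).2, Fin.cons_self_tail]

open Classical in
/-- The inverse of the chart of the hypersurface. -/
def HYPa_inv {H : Div n X} (q : H.T) {e : OpenPartialHomeomorph X (E (n + 1))} (h : H.Adp e)
    (z : E n) : H.T :=
  if hz : (Fin.cons 0 z : E (n + 1)) ∈ e.target then
    (⟨e.symm (Fin.cons 0 z), HYPa_mem h hz⟩ : ↥H.S) else q

theorem HYPa_inv_val {H : Div n X} (q : H.T) {e : OpenPartialHomeomorph X (E (n + 1))}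
    (h : H.Adp e) {z : E n} (hz : (Fin.cons 0 z : E (n + 1)) ∈ e.target) :
    H.val (HYPa_inv q h z) = e.symm (Fin.cons 0 z) := by
  exact congrArg H.val (dif_pos hz)

/-- The chart of the hypersurface given by an adapted chart. -/
def HYPa_ch {H : Div n X} (q : H.T) {e : OpenPartialHomeomorph X (E (n + 1))} (h : H.Adp e) :
    OpenPartialHomeomorph H.T (E n) where
  toFun := fun y => Fin.tail (e (H.val y))
  invFun := HYPa_inv q h
  source := H.val ⁻¹' e.source
  target := {z | (Fin.cons 0 z : E (n + 1)) ∈ e.target}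
  map_source' := fun y hy => by
    show (Fin.cons 0 (Fin.tail (e (H.val y))) : E (n + 1)) ∈ e.target
    rw [HYPa_cons_tail h hy]
    exact e.map_source hy
  map_target' := fun z hz => by
    show H.val (HYPa_inv q h z) ∈ e.source
    rw [HYPa_inv_val q h hz]
    exact e.map_target hz
  left_inv' := fun y hy => H.isEmbedding_val.injective (by
    have h1 := HYPa_cons_tail h hy
    rw [HYPa_inv_val q h (by rw [h1]; exact e.map_source hy), h1, e.left_inv hy])
  right_inv' := fun z hz => by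
    rw [HYPa_inv_val q h hz, e.right_inv hz, Fin.tail_cons]
  open_source := e.open_source.preimage H.isEmbedding_val.continuous
  open_target := e.open_target.preimage HYPa_cons.continuous
  continuousOn_toFun := HYPa_tail.continuous.comp_continuousOn
    (e.continuousOn.comp H.isEmbedding_val.continuous.continuousOn fun _ hy => hy)
  continuousOn_invFun := H.isEmbedding_val.continuousOn_iff.2
    ((e.continuousOn_symm.comp HYPa_cons.continuous.continuousOn fun _ hz => hz).congr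
      fun _ hz => HYPa_inv_val q h hz)

theorem HYPa_hol {H : Div n X} (q q' : H.T) {e e' : OpenPartialHomeomorph X (E (n + 1))}
    (h : H.Adp e) (h' : H.Adp e') :
    DifferentiableOn ℂ ((HYPa_ch q h).symm.trans (HYPa_ch q' h'))
      ((HYPa_ch q h).symm.trans (HYPa_ch q' h')).source := by
  intro z hz
  have h1 : (Fin.cons 0 z : E (n + 1)) ∈ e.target := hz.1
  have h2 : H.val (HYPa_inv q h z) ∈ e'.source := hz.2
  rw [HYPa_inv_val q h h1] at h2
  have h3 := (hmap_E.1 ((h'.1.1 _ h2).comp (h.1.2 _ h1))).self_of_nhds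
  have h4 := (HYPa_tail _).comp z (h3.comp z (HYPa_cons z))
  refine h4.differentiableWithinAt.congr (fun w hw => ?_) ?_
  · exact congrArg (fun y => (Fin.tail (e' y) : E n)) (HYPa_inv_val q h hw.1)
  · exact congrArg (fun y => (Fin.tail (e' y) : E n)) (HYPa_inv_val q h h1)

/-- The atlas consists of the maps `q ↦ Fin.tail (e (val q))` for adapted charts `e`. -/
theorem exists_mf : ∃ M : Mf n H.T, ∀ (_ : H.T) e, H.Adp e →
    ∃ e' : OpenPartialHomeomorph H.T (E n), @IsCh n H.T _ M e' ∧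
      e'.source = H.val ⁻¹' e.source ∧ (∀ q, e' q = Fin.tail (e (H.val q))) ∧
      e'.target = {z | (Fin.cons 0 z : E (n + 1)) ∈ e.target} ∧
      ∀ z ∈ e'.target, H.val (e'.symm z) = e.symm (Fin.cons 0 z) := by
  choose a h1 h2 h3 using H.exists_adp
  let M : Mf n H.T :=
    { atlas := {e' | ∃ (q : H.T) (e : OpenPartialHomeomorph X (E (n + 1))) (h : H.Adp e),
        e' = HYPa_ch q h}
      chartAt := fun p => HYPa_ch p (h1 p)
      mem_chart_source := fun p => h2 p
      chart_mem_atlas := fun p => ⟨p, a p, h1 p, rfl⟩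
      hol := by
        rintro _ ⟨q, e, h, rfl⟩ _ ⟨q', e', h', rfl⟩
        exact HYPa_hol q q' h h'
      t2 := inferInstanceAs (T2Space ↥H.S)
      sc := inferInstanceAs (SecondCountableTopology ↥H.S) }
  exact ⟨M, fun q e h => ⟨HYPa_ch q h, HYPa_isCh ⟨q, e, h, rfl⟩, rfl, fun _ => rfl, rfl,
    fun z hz => HYPa_inv_val q h hz⟩⟩

end Div

end

end Pool.Agent.MP_1c689d_ag.K0

end

section

/-! Smooth hypersurfaces and embeddings. -/

set_option autoImplicit false

open Complex Filter Topology Set MeasureTheory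
open scoped ComplexConjugate ContDiff ENNReal

namespace Pool.Agent.MP_1c689d_ag.K0

noncomputable section

variable {n m : ℕ} {X Y : Type} [TopologicalSpace X] [TopologicalSpace Y]

instance Div.mf [Mf (n + 1) X] (H : Div n X) : Mf n H.T := H.exists_mf.choose

/-- A holomorphic embedding. -/
structure Emb [Mf n X] [Mf m Y] (f : Y → X) : Prop where
  hm : ∀ p, HMap f p
  inj : ∀ p, Function.Injective (df f p)
  emb : IsEmbedding f

theorem HYP_cons (z : E n) : HMap (fun w : E n => (Fin.cons 0 w : E (n + 1))) z := by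
  refine hmap_E.2 (Eventually.of_forall fun w => differentiableAt_pi.2 fun i => ?_)
  refine Fin.cases ?_ (fun j => ?_) i
  · simp only [Fin.cons_zero]
    exact differentiableAt_const _
  · simp only [Fin.cons_succ]
    exact differentiableAt_apply j w

theorem HYP_tail (z : E (n + 1)) : HMap (fun w : E (n + 1) => (Fin.tail w : E n)) z :=
  hmap_E.2 (Eventually.of_forall fun w => differentiableAt_pi.2 fun i =>
    differentiableAt_apply (𝕜 := ℂ) (F' := fun _ : Fin (n + 1) => ℂ) i.succ w)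

namespace Div

variable [Mf (n + 1) X] (H : Div n X)

theorem chart (p : H.T) {e : OpenPartialHomeomorph X (E (n + 1))} (he : H.Adp e) :
    ∃ e' : OpenPartialHomeomorph H.T (E n), IsCh e' ∧
      e'.source = H.val ⁻¹' e.source ∧ (∀ q, e' q = Fin.tail (e (H.val q))) ∧
      e'.target = {z | (Fin.cons 0 z : E (n + 1)) ∈ e.target} ∧
      ∀ z ∈ e'.target, H.val (e'.symm z) = e.symm (Fin.cons 0 z) :=
  H.exists_mf.choose_spec p e he

theorem HYP_hm (p : H.T) : HMap H.val p := by
  obtain ⟨e, he, hp, -⟩ := H.exists_adp p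
  obtain ⟨e', he', h1, -, h3, h4⟩ := H.chart p he
  have hp' : p ∈ e'.source := h1 ▸ hp
  have ht : (Fin.cons 0 (e' p) : E (n + 1)) ∈ e.target := by
    have h5 := e'.map_source hp'
    rwa [h3] at h5
  have h6 : HMap (e.symm ∘ (fun w : E n => (Fin.cons 0 w : E (n + 1))) ∘ e') p :=
    HMap.comp (he.1.2 _ ht) (HMap.comp (HYP_cons _) (he'.1 p hp'))
  refine h6.congr ?_
  filter_upwards [e'.open_source.mem_nhds hp'] with q hq
  have h7 := h4 _ (e'.map_source hq)
  rw [e'.left_inv hq] at h7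
  exact h7.symm

theorem emb : Emb H.val := by
  refine ⟨H.HYP_hm, fun p => ?_, H.isEmbedding_val⟩
  obtain ⟨e, he, hp, -⟩ := H.exists_adp p
  obtain ⟨e', he', h1, h2, -⟩ := H.chart p he
  have hp' : p ∈ e'.source := h1 ▸ hp
  have h3 : HMap ((fun w : E (n + 1) => (Fin.tail w : E n)) ∘ e) (H.val p) :=
    HMap.comp (HYP_tail _) (he.1.1 _ hp)
  have h4 := df_comp h3 (H.HYP_hm p)
  have h5 : ((fun w : E (n + 1) => (Fin.tail w : E n)) ∘ e) ∘ H.val = e' :=
    funext fun q => (h2 q).symm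
  have h6 := (he'.df_bij hp').1
  rw [← h5, h4, ContinuousLinearMap.coe_comp'] at h6
  exact h6.of_comp

theorem hmap_lift [Mf m Y] {f : Y → H.T} {y : Y} (h : HMap (H.val ∘ f) y) : HMap f y := by
  obtain ⟨e, he, hp, -⟩ := H.exists_adp (f y)
  obtain ⟨e', he', h1, h2, -⟩ := H.chart (f y) he
  have hp' : f y ∈ e'.source := h1 ▸ hp
  have h3 : HMap ((fun w : E (n + 1) => (Fin.tail w : E n)) ∘ e ∘ H.val ∘ f) y :=
    HMap.comp (HYP_tail _) (HMap.comp (he.1.1 _ hp) h)
  have h4 : HMap (e'.symm ∘ (fun w : E (n + 1) => (Fin.tail w : E n)) ∘ e ∘ H.val ∘ f) y := by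
    refine HMap.comp (he'.2 _ ?_) h3
    have h5 := e'.map_source hp'
    rwa [h2] at h5
  refine h4.congr ?_
  filter_upwards [h.continuousAt.eventually (e.open_source.mem_nhds hp)] with q hq
  have hq' : f q ∈ e'.source := h1 ▸ hq
  have h6 := e'.left_inv hq'
  rwa [h2] at h6

theorem pb_D (p : H.T) : pb H.val H.D p = 0 := by
  have hp := (H.val_mem p).1
  have h1 : fn n (H.σ ∘ H.val) = (0 : Fm n H.T) := by
    funext q
    simp only [fn, Function.comp_apply, (H.val_mem q).2, map_zero, Pi.zero_apply]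
  rw [D, pb_dp (H.HYP_hm p) (H.ok _ hp) (H.hol _ hp).smAt, pb_fn, h1, dp_zero, Pi.zero_apply]

theorem lm_of_mul (p : H.T) {a : Λ (n + 1)} (h : H.D (H.val p) * a = 0) :
    lm (df H.val p) a = 0 := by
  have h0 : H.D (H.val p) ∈ Dg (n + 1) 1 := Tp_le_Dg (p := 1) (q := 0) (H.D_Ty _)
  obtain ⟨b, rfl⟩ := exists_div h0 (H.D_ne p) h
  have h1 : lm (df H.val p) (H.D (H.val p)) = 0 := H.pb_D p
  rw [map_mul, h1, zero_mul]

theorem mul_of_lm (p : H.T) {a : Λ (n + 1)} {k : ℕ} (ha : a ∈ Tp (n + 1) k 0)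
    (h : lm (df H.val p) a = 0) : H.D (H.val p) * a = 0 := by
  have h1 : lm (df H.val p) (H.D (H.val p)) = 0 := H.pb_D p
  have h2 := H.emb.inj p
  obtain ⟨B, hB⟩ := (H.HYP_hm p).df_complex
  rw [hB] at h h1 h2
  have h3 : Function.Injective B := fun u v huv => h2 huv
  exact mul_eq_zero_of_lm B h3 (H.D_Ty _) (H.D_ne p) h1 ha h

theorem compactSpace (h : IsCompact H.S) : CompactSpace H.T := by
  exact isCompact_iff_compactSpace.1 h

theorem null [MeasurableSpace X] [BorelSpace X] : mu (n + 1) X H.S = 0 := by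
  refine measure_null_of_locally_null _ fun y hy => ?_
  obtain ⟨e, he, hp, -⟩ := H.exists_adp ⟨y, hy⟩
  refine ⟨H.S ∩ e.source, inter_mem_nhdsWithin _ (e.open_source.mem_nhds hp), ?_⟩
  rw [null_chart he.1 inter_subset_right]
  refine measure_mono_null (t := {z : E (n + 1) | z 0 = 0}) ?_ (Measure.pi_hyperplane _ _ _)
  rintro _ ⟨q, hq, rfl⟩
  exact (he.2.2 q hq.2).1 hq.1.2

theorem isClosed_compl : IsOpen (H.O \ H.S) := by
  refine isOpen_iff_mem_nhds.2 fun y hy => ?_
  have h0 : H.σ y ≠ 0 := fun h => hy.2 ⟨hy.1, h⟩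
  filter_upwards [H.op.mem_nhds hy.1, (H.hol _ hy.1).smAt.fn_ne (H.ok _ hy.1) h0] with q h1 h2
  exact ⟨h1, fun h => h2 h.2⟩

/-- Every point of the open set is a limit of points off the hypersurface. -/
theorem frequently_ne {y : X} (hy : y ∈ H.O) : ∃ᶠ y' in 𝓝 y, H.σ y' ≠ 0 := by
  intro h
  simp only [ne_eq, not_not] at h
  refine H.nz y hy h.self_of_nhds ?_
  have h1 : fn (n + 1) H.σ =ᶠ[𝓝 y] 0 := by
    filter_upwards [h] with q hq
    simp only [fn, hq, map_zero, Pi.zero_apply]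
  rw [dp_congr h1, dp_zero, Pi.zero_apply]

/-- The residue of `A / σ`. -/
def IsRes (A : Fm (n + 1) X) (γ : Fm n H.T) : Prop :=
  ∀ p : H.T, ∃ b : Λ (n + 1), A (H.val p) = H.D (H.val p) * b ∧ lm (df H.val p) b = γ p

theorem IsRes.unique {H : Div n X} {A : Fm (n + 1) X} {γ γ' : Fm n H.T} (h : H.IsRes A γ)
    (h' : H.IsRes A γ') : γ = γ' := by
  funext p
  obtain ⟨b, h1, h2⟩ := h p
  obtain ⟨b', h3, h4⟩ := h' p
  have h5 := H.lm_of_mul p (a := b - b') (by rw [mul_sub, ← h1, ← h3, sub_self])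
  rwa [map_sub, h2, h4, sub_eq_zero] at h5

theorem isRes_of_eq {A β : Fm (n + 1) X} (h : ∀ y ∈ H.S, A y = H.D y * β y) :
    H.IsRes A (pb H.val β) := by
  exact fun p => ⟨β (H.val p), h _ (H.val_mem p), rfl⟩

theorem IsRes.eq_zero_iff {H : Div n X} {A : Fm (n + 1) X} {γ : Fm n H.T} (h : H.IsRes A γ)
    (hA : Ty (n + 1) 0 A) (p : H.T) : γ p = 0 ↔ A (H.val p) = 0 := by
  obtain ⟨b, h1, h2⟩ := h p
  refine ⟨fun h0 => ?_, fun h0 => h2 ▸ H.lm_of_mul p (h1 ▸ h0)⟩
  have h3 : A (H.val p) = H.D (H.val p) * prj n 0 b := by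
    rw [← prj_mul_left (H.D_Ty _), ← h1, add_comm 1 n, prj_of_mem (hA _)]
  rw [h3]
  refine H.mul_of_lm p (prj_mem b) ?_
  obtain ⟨B, hB⟩ := (H.HYP_hm p).df_complex
  rw [hB] at h2 ⊢
  rw [lm_prj, h2, h0, map_zero]

end Div

end

end Pool.Agent.MP_1c689d_ag.K0

end

section

/-! The product of a curve and a manifold. -/

set_option autoImplicit false

open Complex Filter Topology Set MeasureTheory
open scoped ComplexConjugate ContDiff ENNReal

namespace Pool.Agent.MP_1c689d_ag.K0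

noncomputable section

variable {n m : ℕ} {B X Y : Type} [TopologicalSpace B] [TopologicalSpace X] [TopologicalSpace Y]

/-- The identification of the model spaces. -/
def PRDa_L (n : ℕ) : E 1 × E n ≃ₜ E (n + 1) where
  toFun p := Fin.cons (p.1 0) p.2
  invFun w := (fun _ => w 0, fun i => w i.succ)
  left_inv p := Prod.ext (funext fun j => congrArg p.1 (Subsingleton.elim _ _)) rfl
  right_inv w := Fin.cons_self_tail w
  continuous_toFun := by
    refine continuous_pi fun i => ?_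
    refine Fin.cases ?_ (fun j => ?_) i
    · exact (continuous_apply (0 : Fin 1)).comp continuous_fst
    · exact (continuous_apply j).comp continuous_snd
  continuous_invFun := (continuous_pi fun _ => continuous_apply 0).prodMk
    (continuous_pi fun i => continuous_apply i.succ)

/-- The product of two charts. -/
def PRDa_ch (e1 : OpenPartialHomeomorph B (E 1)) (e2 : OpenPartialHomeomorph X (E n)) :
    OpenPartialHomeomorph (PX B X) (E (n + 1)) :=
  (e1.prod e2).transHomeomorph (PRDa_L n)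

theorem PRDa_tr [Mf n X] {e e' : OpenPartialHomeomorph X (E n)} (h : IsCh e) (h' : IsCh e')
    {w : E n} (hw : w ∈ e.target) (hw' : e.symm w ∈ e'.source) :
    DifferentiableAt ℂ (e' ∘ e.symm) w := by
  have h1 := ((hmap_iff_chart (f := id) h h' (e.map_target hw) hw'
    (Eventually.of_forall fun _ => continuousAt_id)).1 hmap_id).self_of_nhds
  rwa [e.right_inv hw] at h1

theorem PRDa_tr2 [Mf 1 B] [Mf n X] {e1 e1' : OpenPartialHomeomorph B (E 1)}
    {e2 e2' : OpenPartialHomeomorph X (E n)} (h1 : IsCh e1) (h1' : IsCh e1') (h2 : IsCh e2)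
    (h2' : IsCh e2') {w : E (n + 1)} (hw : w ∈ (PRDa_ch e1 e2).target)
    (hw' : (PRDa_ch e1 e2).symm w ∈ (PRDa_ch e1' e2').source) :
    DifferentiableAt ℂ (PRDa_ch e1' e2' ∘ (PRDa_ch e1 e2).symm) w := by
  have a1 : DifferentiableAt ℂ (fun w : E (n + 1) => (fun _ => w 0 : E 1)) w :=
    differentiableAt_pi.2 fun _ => differentiableAt_apply 0 w
  have a2 : DifferentiableAt ℂ (fun w : E (n + 1) => (fun i => w i.succ : E n)) w :=
    differentiableAt_pi.2 fun i => differentiableAt_apply i.succ w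
  have b0 := (PRDa_tr (w := fun _ => w 0) h1 h1' hw.1 hw'.1).comp w a1
  have b1 := differentiableAt_pi.1 b0 (0 : Fin 1)
  have b2 := (PRDa_tr (w := fun i => w i.succ) h2 h2' hw.2 hw'.2).comp w a2
  refine differentiableAt_pi.2 fun i => ?_
  refine Fin.cases ?_ (fun j => ?_) i
  · exact b1
  · exact differentiableAt_pi.1 b2 j

theorem PRDa_atlas [Mf n X] {e : OpenPartialHomeomorph X (E n)} (he : e ∈ atlas (E n) X) :
    IsCh e := by
  refine ⟨fun y hy => MF1a_iff.2 ?_, fun z hz => MF1a_iff.2 ?_⟩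
  · filter_upwards [e.open_source.mem_nhds hy] with w hw
    refine ⟨e.continuousAt hw, (Mf.hol _ (chart_mem_atlas (E n) w) _ he).differentiableAt
      ((OpenPartialHomeomorph.open_source _).mem_nhds ⟨mem_chart_target _ w, ?_⟩)⟩
    change (ch n w).symm (ch n w w) ∈ e.source
    rwa [(ch n w).left_inv (mem_chart_source _ w)]
  · filter_upwards [e.open_target.mem_nhds hz] with w hw
    exact ⟨e.continuousAt_symm hw,
      (Mf.hol _ he _ (chart_mem_atlas (E n) (e.symm w))).differentiableAt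
        ((OpenPartialHomeomorph.open_source _).mem_nhds ⟨hw, mem_chart_source _ _⟩)⟩

/-- The manifold structure of the product. -/
@[reducible] def PRDa_mf (n : ℕ) (B X : Type) [TopologicalSpace B] [TopologicalSpace X] [Mf 1 B]
    [Mf n X] : Mf (n + 1) (PX B X) where
  atlas := {e | ∃ e1 e2, IsCh e1 ∧ IsCh e2 ∧ e = PRDa_ch e1 e2}
  chartAt z := PRDa_ch (ch 1 z.fst) (ch n z.snd)
  mem_chart_source z := ⟨mem_chart_source _ z.fst, mem_chart_source _ z.snd⟩
  chart_mem_atlas z := ⟨_, _, isCh_ch _, isCh_ch _, rfl⟩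
  hol := by
    rintro _ ⟨e1, e2, h1, h2, rfl⟩ _ ⟨e1', e2', h1', h2', rfl⟩ w hw
    exact (PRDa_tr2 h1 h1' h2 h2' hw.1 hw.2).differentiableWithinAt
  t2 := inferInstanceAs (T2Space (B × X))
  sc := inferInstanceAs (SecondCountableTopology (B × X))

theorem PX.exists_mf (n : ℕ) (B X : Type) [TopologicalSpace B] [TopologicalSpace X] [Mf 1 B]
    [Mf n X] : ∃ M : Mf (n + 1) (PX B X), ∀ (e1 : OpenPartialHomeomorph B (E 1))
    (e2 : OpenPartialHomeomorph X (E n)), IsCh e1 → IsCh e2 →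
    ∃ e : OpenPartialHomeomorph (PX B X) (E (n + 1)), @IsCh (n + 1) (PX B X) _ M e ∧
      e.source = {z | z.fst ∈ e1.source ∧ z.snd ∈ e2.source} ∧
      (∀ z, e z = Fin.cons (e1 z.fst 0) (e2 z.snd)) ∧
      e.target = {w | (fun _ => w 0) ∈ e1.target ∧ (fun i => w i.succ) ∈ e2.target} ∧
      ∀ w, e.symm w = PX.mk (e1.symm fun _ => w 0) (e2.symm fun i => w i.succ) := by
  refine ⟨PRDa_mf n B X, fun e1 e2 h1 h2 => ⟨PRDa_ch e1 e2, ?_, rfl, fun _ => rfl, rfl,
    fun _ => rfl⟩⟩
  exact @PRDa_atlas (n + 1) (PX B X) _ (PRDa_mf n B X) _ ⟨e1, e2, h1, h2, rfl⟩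

instance PX.mf [Mf 1 B] [Mf n X] : Mf (n + 1) (PX B X) := (PX.exists_mf n B X).choose

variable [Mf 1 B] [Mf n X] [Mf m Y]

theorem PX.chart {e1 : OpenPartialHomeomorph B (E 1)} {e2 : OpenPartialHomeomorph X (E n)}
    (h1 : IsCh e1) (h2 : IsCh e2) :
    ∃ e : OpenPartialHomeomorph (PX B X) (E (n + 1)), IsCh e ∧
      e.source = {z | z.fst ∈ e1.source ∧ z.snd ∈ e2.source} ∧
      (∀ z, e z = Fin.cons (e1 z.fst 0) (e2 z.snd)) ∧
      e.target = {w | (fun _ => w 0) ∈ e1.target ∧ (fun i => w i.succ) ∈ e2.target} ∧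
      ∀ w, e.symm w = PX.mk (e1.symm fun _ => w 0) (e2.symm fun i => w i.succ) :=
  (PX.exists_mf n B X).choose_spec e1 e2 h1 h2

end

end Pool.Agent.MP_1c689d_ag.K0

end

section

/-! The product of a curve and a manifold. -/

set_option autoImplicit false

open Complex Filter Topology Set MeasureTheory
open scoped ComplexConjugate ContDiff ENNReal

namespace Pool.Agent.MP_1c689d_ag.K0

noncomputable section

variable {n m : ℕ} {B X Y : Type} [TopologicalSpace B] [TopologicalSpace X] [TopologicalSpace Y]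

/-- The first coordinate. -/
def PRD_p (n : ℕ) : E (n + 1) →L[ℝ] E 1 :=
  ContinuousLinearMap.pi fun _ => ContinuousLinearMap.proj (R := ℝ) (φ := fun _ => ℂ) 0

/-- The other coordinates. -/
def PRD_q (n : ℕ) : E (n + 1) →L[ℝ] E n :=
  ContinuousLinearMap.pi fun i => ContinuousLinearMap.proj (R := ℝ) (φ := fun _ => ℂ) i.succ

/-- The inclusion of the hyperplane. -/
def PRD_j (n : ℕ) : E n →L[ℝ] E (n + 1) :=
  ContinuousLinearMap.pi
    (Fin.cons 0 fun i => ContinuousLinearMap.proj (R := ℝ) (φ := fun _ => ℂ) i)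

theorem PRD_j_apply (v : E n) : PRD_j n v = Fin.cons 0 v := by
  funext i
  refine Fin.cases ?_ (fun i => ?_) i <;> simp [PRD_j]

theorem PRD_top (a : Λ (n + 1)) :
    top (lm (PRD_p n) (vol 1) * a) = top (lm (PRD_j n) a) := by
  obtain ⟨c, -, hc⟩ := top_cons (n := n)
  have h1 : lm (PRD_p n) (vol 1) = (I / 2) • (dz 0 * dzb 0) := by
    simp only [vol, List.ofFn_succ, List.ofFn_zero, List.prod_cons, List.prod_nil, mul_one,
      map_smul, map_mul, dz, dzb, lm_io]
    rfl
  have h2 : vol (n + 1) = (I / 2) • (dz 0 * dzb 0) * lm (PRD_q n) (vol n) := by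
    simp only [vol, List.ofFn_succ, List.prod_cons, map_list_prod, List.map_ofFn]
    congr 3
    funext j
    simp only [Function.comp, map_smul, map_mul, dz, dzb, lm_io]
    rfl
  have h3 : (PRD_q n).comp (PRD_j n) = ContinuousLinearMap.id ℝ (E n) := by
    ext1 v
    funext i
    simp [PRD_q, PRD_j_apply]
  have h4 := top_vol (n := n + 1)
  rw [h2, smul_mul_assoc, map_smul, hc _ PRD_j_apply, lm_comp, h3, lm_id, top_vol, mul_one,
    smul_eq_mul] at h4
  rw [h1, smul_mul_assoc, map_smul, hc _ PRD_j_apply, smul_eq_mul, ← mul_assoc, h4, one_mul]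

theorem PRD_lm_zero {k : ℕ} {a : Λ m} (h : a ∈ Dg m (k + 1)) : lm (0 : E n →L[ℝ] E m) a = 0 := by
  rw [Dg_succ] at h
  induction h using Submodule.span_induction with
  | mem x hx =>
    obtain ⟨v, a, -, rfl⟩ := hx
    rw [map_mul, lm_io, ContinuousLinearMap.comp_zero, map_zero, zero_mul]
  | zero => exact map_zero _
  | add x y _ _ hx hy => rw [map_add, hx, hy, add_zero]
  | smul c x _ hx => rw [map_smul, hx, smul_zero]

theorem PRD_df_ch [Mf n X] (x : X) : df (ch n x) x = ContinuousLinearMap.id ℝ (E n) := by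
  have h : lc (ch n x) x =ᶠ[𝓝 (ch n x x)] id := by
    filter_upwards [MF2b_target (n := n) (p := x)] with w hw
    exact (ch n x).right_inv hw
  rw [df, h.fderiv_eq, fderiv_id]

variable [Mf 1 B] [Mf n X] [Mf m Y]

omit [Mf 1 B] [Mf n X] in
theorem PX.continuous_fst : Continuous (PX.fst : PX B X → B) := by
  exact _root_.continuous_fst

omit [Mf 1 B] [Mf n X] in
theorem PX.continuous_snd : Continuous (PX.snd : PX B X → X) := by
  exact _root_.continuous_snd

omit [Mf 1 B] [Mf n X] in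
theorem PX.isCompact_fst [CompactSpace X] {K : Set B} (hK : IsCompact K) :
    IsCompact ((PX.fst : PX B X → B) ⁻¹' K) := by
  have h : IsCompact (K ×ˢ (univ : Set X)) := hK.prod isCompact_univ
  rw [prod_univ] at h
  exact h

theorem PX.hmap_fst (z : PX B X) : HMap (PX.fst : PX B X → B) z := by
  obtain ⟨e, he, h1, -, h3, h4⟩ := PX.chart (isCh_ch (n := 1) z.fst) (isCh_ch (n := n) z.snd)
  have hz : z ∈ e.source := by
    rw [h1]
    exact ⟨MF2_src, MF2_src⟩
  refine (hmap_iff_chart he (isCh_ch z.fst) hz MF2_src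
    (Eventually.of_forall fun y => PX.continuous_fst.continuousAt)).2 ?_
  filter_upwards [e.open_target.mem_nhds (e.map_source hz)] with w hw
  refine DifferentiableAt.congr_of_eventuallyEq (f := fun (w : E (n + 1)) (_ : Fin 1) => w 0)
    (differentiableAt_pi.2 fun _ => differentiableAt_apply 0 w) ?_
  filter_upwards [e.open_target.mem_nhds hw] with v hv
  rw [h3] at hv
  simp only [Function.comp, h4]
  exact (ch 1 z.fst).right_inv hv.1

theorem PX.hmap_snd (z : PX B X) : HMap (PX.snd : PX B X → X) z := by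
  obtain ⟨e, he, h1, -, h3, h4⟩ := PX.chart (isCh_ch (n := 1) z.fst) (isCh_ch (n := n) z.snd)
  have hz : z ∈ e.source := by
    rw [h1]
    exact ⟨MF2_src, MF2_src⟩
  refine (hmap_iff_chart he (isCh_ch z.snd) hz MF2_src
    (Eventually.of_forall fun y => PX.continuous_snd.continuousAt)).2 ?_
  filter_upwards [e.open_target.mem_nhds (e.map_source hz)] with w hw
  refine DifferentiableAt.congr_of_eventuallyEq
    (f := fun (w : E (n + 1)) (i : Fin n) => w i.succ)
    (differentiableAt_pi.2 fun i => differentiableAt_apply i.succ w) ?_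
  filter_upwards [e.open_target.mem_nhds hw] with v hv
  rw [h3] at hv
  simp only [Function.comp, h4]
  exact (ch n z.snd).right_inv hv.2

theorem PX.hmap_mk {f : Y → B} {g : Y → X} {y : Y} (hf : HMap f y) (hg : HMap g y) :
    HMap (fun y => PX.mk (f y) (g y)) y := by
  obtain ⟨e, he, h1, h2, -, -⟩ := PX.chart (isCh_ch (n := 1) (f y)) (isCh_ch (n := n) (g y))
  have hz : PX.mk (f y) (g y) ∈ e.source := by
    rw [h1]
    exact ⟨MF2_src, MF2_src⟩
  have c1 : ∀ᶠ y in 𝓝 y, ContinuousAt f y := hf.mono fun _ h => h.1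
  have c2 : ∀ᶠ y in 𝓝 y, ContinuousAt g y := hg.mono fun _ h => h.1
  refine (hmap_iff_chart (f := fun y => PX.mk (f y) (g y)) (isCh_ch y) he MF2_src hz
    ((c1.and c2).mono fun _ h => h.1.prodMk h.2)).2 ?_
  filter_upwards [(hmap_iff_chart (isCh_ch y) (isCh_ch (f y)) MF2_src MF2_src c1).1 hf,
    (hmap_iff_chart (isCh_ch y) (isCh_ch (g y)) MF2_src MF2_src c2).1 hg] with w a1 a2
  refine differentiableAt_pi.2 fun i => ?_
  simp only [Function.comp, h2]
  refine Fin.cases ?_ (fun i => ?_) i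
  · exact differentiableAt_pi.1 a1 0
  · exact differentiableAt_pi.1 a2 i

theorem PX.hmap_slice (b : B) (x : X) : HMap (PX.mk b : X → PX B X) x := by
  exact PX.hmap_mk (hmap_const b) hmap_id

theorem PX.pb_slice_snd (b : B) (α : Fm n X) :
    pb (PX.mk b : X → PX B X) (pb PX.snd α) = α := by
  funext x
  rw [pb_comp (PX.hmap_snd _) (PX.hmap_slice b x)]
  exact congrFun (pb_id α) x

theorem PX.pb_slice_fst (b : B) {β : Fm 1 B} {k : ℕ} (h : Dgr (k + 1) β) :
    pb (PX.mk b : X → PX B X) (pb PX.fst β) = 0 := by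
  funext x
  rw [pb_comp (PX.hmap_fst _) (PX.hmap_slice b x)]
  have h1 : df (PX.fst ∘ (PX.mk b : X → PX B X)) x = 0 :=
    fderiv_const_apply (ch 1 b b)
  rw [pb, h1]
  exact PRD_lm_zero (h _)

theorem PRD_df (z : PX B X) : ∃ C : E (n + 1) →L[ℝ] E (n + 1), 0 < C.det ∧
    Function.Surjective (lm C) ∧ df (PX.fst : PX B X → B) z = (PRD_p n).comp C ∧
    C.comp (df (PX.mk z.fst : X → PX B X) z.snd) = PRD_j n := by
  obtain ⟨e, he, h1, h2, -, -⟩ := PX.chart (isCh_ch (n := 1) z.fst) (isCh_ch (n := n) z.snd)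
  have hz : z ∈ e.source := by
    rw [h1]
    exact ⟨MF2_src, MF2_src⟩
  have hs := lm_surj_of_inj _ (he.df_bij hz).1
  refine ⟨df e z, ?_, hs, ?_, ?_⟩
  · obtain ⟨a, ha⟩ := hs (vol (n + 1))
    have h3 := top_lm (df e z) a
    rw [ha, top_vol] at h3
    obtain ⟨L, hL⟩ := (he.1 z hz).df_complex
    refine lt_of_le_of_ne ?_ fun h => ?_
    · rw [hL, det_restrict]
      exact normSq_nonneg _
    · rw [← h] at h3
      simp at h3
  · have a1 := df_comp ((isCh_ch (n := 1) z.fst).1 _ MF2_src) (PX.hmap_fst z)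
    have a2 : HMap (PRD_p n) (e z) := hmap_E.2 (Eventually.of_forall fun w =>
      differentiableAt_pi.2 fun _ => differentiableAt_apply 0 w)
    have a3 := df_comp a2 (he.1 z hz)
    have a4 : ch 1 z.fst ∘ (PX.fst : PX B X → B) = PRD_p n ∘ e := by
      funext y i
      rw [Subsingleton.elim i 0]
      simp [PRD_p, h2]
    rw [a4, a3, df_E, ContinuousLinearMap.fderiv, PRD_df_ch, ContinuousLinearMap.id_comp] at a1
    exact a1.symm
  · have a1 := df_comp (f := (PX.mk z.fst : X → PX B X)) (p := z.snd) (he.1 z hz)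
      (PX.hmap_slice z.fst z.snd)
    have a2 : HMap (fun v : E n => e z - PRD_j n (ch n z.snd z.snd) + PRD_j n v)
        (ch n z.snd z.snd) := hmap_E.2 (Eventually.of_forall fun w => by
      refine DifferentiableAt.const_add _ (differentiableAt_pi.2 fun i => ?_)
      simp only [PRD_j_apply]
      refine Fin.cases ?_ (fun i => ?_) i
      · exact differentiableAt_const _
      · exact differentiableAt_apply i w)
    have a3 := df_comp a2 ((isCh_ch (n := n) z.snd).1 _ MF2_src)
    have a4 : e ∘ (PX.mk z.fst : X → PX B X) =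
        (fun v : E n => e z - PRD_j n (ch n z.snd z.snd) + PRD_j n v) ∘ ch n z.snd := by
      funext y i
      simp only [Function.comp, h2, PRD_j_apply]
      refine Fin.cases ?_ (fun i => ?_) i <;> simp [PX.mk, PX.fst, PX.snd]
    rw [a4, a3, df_E, fderiv_const_add, ContinuousLinearMap.fderiv, PRD_df_ch,
      ContinuousLinearMap.comp_id] at a1
    exact a1.symm

theorem PRD_two {β : Fm 1 B} (h : Dgr 2 β) (z : PX B X) : ∃ t : ℝ, 0 < t ∧ ∀ a : Λ (n + 1),
    top (pb PX.fst β z * a) =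
      t * (top (β z.fst) * top (lm (df (PX.mk z.fst : X → PX B X) z.snd) a)) := by
  obtain ⟨C, c1, c2, c3, c4⟩ := PRD_df (n := n) z
  refine ⟨C.det, c1, fun a => ?_⟩
  obtain ⟨a, rfl⟩ := c2 a
  have h1 : β z.fst ∈ Tp 1 1 1 := Dg_top (n := 1) ▸ h z.fst
  rw [lm_comp, c4, pb, c3, ← lm_comp, ← map_mul, top_lm]
  conv_lhs => rw [eq_top_smul h1]
  rw [map_smul, smul_mul_assoc, map_smul, PRD_top, smul_eq_mul]

theorem PX.top_mul (β : Fm 1 B) (h : Dgr 2 β) (γ : Fm (n + 1) (PX B X)) (z : PX B X) :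
    ∃ t : ℝ, 0 < t ∧ top (pb PX.fst β z * γ z) =
      t * (top (β z.fst) * top (pb (PX.mk z.fst) γ z.snd)) := by
  obtain ⟨t, h1, ht⟩ := PRD_two (n := n) h z
  exact ⟨t, h1, ht _⟩

end

end Pool.Agent.MP_1c689d_ag.K0

end

section

/-! The normal form of an embedding of codimension one and extension of forms. -/

set_option autoImplicit false

open Complex Filter Topology Set MeasureTheory
open scoped ComplexConjugate ContDiff ENNReal

namespace Pool.Agent.MP_1c689d_ag.K0

noncomputable section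

variable {n m : ℕ} {X S : Type} [TopologicalSpace X] [TopologicalSpace S] [Mf (n + 1) X] [Mf n S]
  {f : S → X}

theorem Emb.imm (hf : Emb f) {N : ℕ} {x : X → Fin N → ℂ} {p : S} (hx : PMAt x (f p))
    (hi : Imm x (f p)) : Imm (x ∘ f) p := by
  intro γ hγ
  obtain ⟨γ', rfl⟩ := lm_surj_of_inj _ (hf.inj p) γ
  obtain ⟨B, hB⟩ := (hf.hm p).df_complex
  obtain ⟨a, ha⟩ := hi _ (prj_mem (p := 1) (q := 0) γ')
  refine ⟨a, ?_⟩
  rw [← prj_of_mem hγ, hB, ← lm_prj, ← hB, ha, map_sum]
  refine Finset.sum_congr rfl fun l _ => ?_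
  rw [map_smul, ← hx.pb_Dx (hf.hm p) l]
  rfl

theorem Emb.comp_of {Z : Type} [TopologicalSpace Z] [Mf m Z] {g : X → Z} (hf : ∀ p, HMap f p)
    (hg : ∀ y, HMap g y) (h : Emb (g ∘ f)) : Emb f := by
  refine ⟨hf, fun p => ?_, IsEmbedding.of_comp
    (continuous_iff_continuousAt.2 fun p => (hf p).continuousAt)
    (continuous_iff_continuousAt.2 fun y => (hg y).continuousAt) h.emb⟩
  have := h.inj p
  rw [df_comp (hg _) (hf p)] at this
  exact Function.Injective.of_comp (f := df g (f p)) this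

end

end Pool.Agent.MP_1c689d_ag.K0

end

section

/-! The theorems of Fubini and Tonelli on the product. -/

set_option autoImplicit false

open Complex Filter Topology Set MeasureTheory
open scoped ComplexConjugate ContDiff ENNReal

namespace Pool.Agent.MP_1c689d_ag.K0

noncomputable section

variable {n : ℕ} {B X : Type} [TopologicalSpace B] [TopologicalSpace X] [Mf 1 B] [Mf n X]
  [MeasurableSpace B] [BorelSpace B] [MeasurableSpace X] [BorelSpace X]

/-- The first coordinate. -/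
def FUB_P (n : ℕ) : E (n + 1) →L[ℂ] E 1 :=
  ContinuousLinearMap.pi fun _ => ContinuousLinearMap.proj 0

/-- The inclusion of the first coordinate hyperplane. -/
def FUB_A (n : ℕ) : E n →L[ℂ] E (n + 1) :=
  ContinuousLinearMap.pi fun i => Fin.cases 0 (fun j => ContinuousLinearMap.proj j) i

theorem FUB_A_apply (z : E n) : FUB_A n z = Fin.cons 0 z := by
  funext i
  refine Fin.cases ?_ (fun j => ?_) i <;> simp [FUB_A]

theorem FUB_cons (c : ℂ) : (fun u : E n => (Fin.cons c u : E (n + 1))) =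
    fun u => Fin.cons c 0 + FUB_A n u := by
  funext u i
  rw [FUB_A_apply]
  refine Fin.cases ?_ (fun j => ?_) i <;> simp

theorem FUB_top {b : Λ 1} (hb : b ∈ Dg 1 2) (a : Λ (n + 1)) :
    top (lm ((FUB_P n).restrictScalars ℝ) b * a) =
      top b * top (lm ((FUB_A n).restrictScalars ℝ) a) := by
  obtain ⟨c, -, hc⟩ := top_cons (n := n)
  have hA : ∀ z, (FUB_A n).restrictScalars ℝ z = Fin.cons 0 z := FUB_A_apply
  have h1 : I / 2 * c = 1 := by
    have h4 := top_vol (n := n + 1)
    have e : (EA2R n).comp ((FUB_A n).restrictScalars ℝ) = ContinuousLinearMap.id ℝ (E n) := by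
      ext1 z
      funext j
      rw [ContinuousLinearMap.comp_apply, EA2R_apply, hA]
      rfl
    rwa [EA2_vol_succ, map_smul, smul_eq_mul, hc _ hA, lm_comp, e, lm_id, top_vol, mul_one] at h4
  have hb' : b ∈ Tp 1 1 1 := by
    rw [← Dg_top]
    exact hb
  have h2 : lm ((FUB_P n).restrictScalars ℝ) (vol 1) = (I / 2) • (dz 0 * dzb 0) := by
    have e1 : lm ((FUB_P n).restrictScalars ℝ) (dz 0) = dz 0 := lm_io _ _
    have e2 : lm ((FUB_P n).restrictScalars ℝ) (dzb 0) = dzb 0 := lm_io _ _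
    rw [vol, List.ofFn_succ, List.ofFn_zero, List.prod_cons, List.prod_nil, mul_one, map_smul,
      map_mul, e1, e2]
  conv_lhs => rw [eq_top_smul hb']
  rw [map_smul, h2, smul_mul_assoc, smul_mul_assoc, map_smul, map_smul, hc _ hA, smul_eq_mul,
    smul_eq_mul, ← mul_assoc (I / 2), h1, one_mul]

theorem FUB_vol (S : Set (E 1)) (T : Set (E n)) :
    volume {w : E (n + 1) | (fun _ => w 0) ∈ S ∧ (fun i => w i.succ) ∈ T} =
      volume S * volume T := by
  have h1 := (volume_preserving_piFinSuccAbove (fun _ : Fin (n + 1) => ℂ) 0).measure_preimage_equiv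
    (((MeasurableEquiv.funUnique (Fin 1) ℂ).symm ⁻¹' S) ×ˢ T)
  rw [Measure.volume_eq_prod, Measure.prod_prod,
    (volume_preserving_funUnique (Fin 1) ℂ).symm.measure_preimage_equiv] at h1
  exact h1

theorem FUB_meas {α β ι : Type} [MeasurableSpace α] [MeasurableSpace β] [Countable ι]
    {f : α → β} (s : ι → Set α) (g : ι → α → β) (hs : ∀ i, MeasurableSet (s i))
    (hg : ∀ i, Measurable (g i)) (hc : ∀ x, ∃ i, x ∈ s i) (he : ∀ i, ∀ x ∈ s i, f x = g i x) :
    Measurable f := by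
  intro U hU
  have : f ⁻¹' U = ⋃ i, s i ∩ g i ⁻¹' U := by
    ext x
    simp only [mem_iUnion, mem_inter_iff, mem_preimage]
    constructor
    · intro h
      obtain ⟨i, hi⟩ := hc x
      exact ⟨i, hi, he i x hi ▸ h⟩
    · rintro ⟨i, hi, h⟩
      rwa [he i x hi]
  rw [this]
  exact MeasurableSet.iUnion fun i => (hs i).inter (hg i hU)

/-- The product of two preferred charts. -/
def FUB_e (n : ℕ) [Mf n X] (a : B) (b : X) : OpenPartialHomeomorph (PX B X) (E (n + 1)) :=
  (PX.chart (isCh_ch (n := 1) a) (isCh_ch (n := n) b)).choose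

section Aux

omit [MeasurableSpace B] [BorelSpace B] [MeasurableSpace X] [BorelSpace X]

theorem FUB_spec (a : B) (b : X) : IsCh (FUB_e n a b) ∧
    (FUB_e n a b).source = {z | z.fst ∈ (ch 1 a).source ∧ z.snd ∈ (ch n b).source} ∧
    (∀ z, FUB_e n a b z = Fin.cons (ch 1 a z.fst 0) (ch n b z.snd)) ∧
    (FUB_e n a b).target =
      {w | (fun _ => w 0) ∈ (ch 1 a).target ∧ (fun i => w i.succ) ∈ (ch n b).target} ∧
    ∀ w, (FUB_e n a b).symm w =
      PX.mk ((ch 1 a).symm fun _ => w 0) ((ch n b).symm fun i => w i.succ) :=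
  (PX.chart (isCh_ch (n := 1) a) (isCh_ch (n := n) b)).choose_spec

theorem FUB_one (u : E 1) : (fun _ => u 0) = u := funext fun i => by rw [Subsingleton.elim i 0]

theorem FUB_src (z : PX B X) : z ∈ (FUB_e n (ix 1 z.fst) (ix n z.snd)).source := by
  rw [(FUB_spec _ _).2.1]
  exact ⟨INT1a_ix _, INT1a_ix _⟩

/-- The density. -/
def FUB_J (n : ℕ) [Mf n X] (z : PX B X) : NNReal :=
  (INT1aJ (FUB_e n (ix 1 z.fst) (ix n z.snd)) (FUB_e n (ix 1 z.fst) (ix n z.snd) z))⁻¹

theorem FUB_J_dens (α : Fm (n + 1) (PX B X)) (z : PX B X) :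
    dens α z = FUB_J n z • top (pb (FUB_e n (ix 1 z.fst) (ix n z.snd)).symm α
      (FUB_e n (ix 1 z.fst) (ix n z.snd) z)) := by
  have hz := FUB_src (n := n) z
  have hw := (FUB_e n _ _).map_source hz
  rw [← INT1a_J_dens (FUB_spec _ _).1 α hw, (FUB_e n _ _).left_inv hz, FUB_J,
    inv_smul_smul₀ (INT1a_J_ne (FUB_spec _ _).1 hw)]

theorem FUB_loc {a : B} {b : X} {z : PX B X} (h1 : z.fst ∈ (ch 1 a).source)
    (h2 : z.snd ∈ (ch n b).source) {β : Fm 1 B} (hβ : Dgr 2 β) (γ : Fm (n + 1) (PX B X)) :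
    top (pb (FUB_e n a b).symm (pb PX.fst β * γ) (FUB_e n a b z)) =
      top (rep a β (ch 1 a z.fst)) * top (rep b (pb (PX.mk z.fst) γ) (ch n b z.snd)) := by
  obtain ⟨he, hs, hv, -, hi⟩ := FUB_spec (n := n) a b
  generalize FUB_e n a b = e at he hs hv hi ⊢
  have hz : z ∈ e.source := by rw [hs]; exact ⟨h1, h2⟩
  have hw := e.map_source hz
  have hP : FUB_P n (e z) = ch 1 a z.fst := by
    rw [hv, ← FUB_one (ch 1 a z.fst)]
    rfl
  have hPm : HMap (FUB_P n) (e z) := hmap_E.2 (.of_forall fun _ => (FUB_P n).differentiableAt)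
  have e1 : pb e.symm (pb PX.fst β) (e z) =
      lm ((FUB_P n).restrictScalars ℝ) (rep a β (ch 1 a z.fst)) := by
    have hc : PX.fst ∘ e.symm = (ch 1 a).symm ∘ FUB_P n := funext fun w => by
      rw [Function.comp_apply, hi]; rfl
    rw [pb_comp (PX.hmap_fst _) (he.2 _ hw), hc,
      ← pb_comp ((isCh_ch a).2 _ (by rw [hP]; exact (ch 1 a).map_source h1)) hPm, pb, df_E, hP,
      ((FUB_P n).restrictScalars ℝ).fderiv.symm]
    rfl
  have e2 : rep b (pb (PX.mk z.fst) γ) (ch n b z.snd) =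
      lm ((FUB_A n).restrictScalars ℝ) (pb e.symm γ (e z)) := by
    have hc : PX.mk z.fst ∘ (ch n b).symm =
        e.symm ∘ fun u : E n => (Fin.cons (ch 1 a z.fst 0) u : E (n + 1)) := funext fun u => by
      rw [Function.comp_apply, Function.comp_apply, hi]
      simp only [Fin.cons_zero, Fin.cons_succ]
      rw [FUB_one, (ch 1 a).left_inv h1]
    have hd : ∀ u, HasFDerivAt (fun u : E n => (Fin.cons (ch 1 a z.fst 0) u : E (n + 1)))
        (FUB_A n) u := fun u => by
      rw [FUB_cons]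
      exact (FUB_A n).hasFDerivAt.const_add _
    have hm : HMap (fun u : E n => (Fin.cons (ch 1 a z.fst 0) u : E (n + 1))) (ch n b z.snd) :=
      hmap_E.2 (.of_forall fun u => (hd u).differentiableAt)
    rw [rep, pb_comp (PX.hmap_slice _ _) ((isCh_ch b).2 _ ((ch n b).map_source h2)), hc,
      ← pb_comp (he.2 _ (by rw [← hv]; exact hw)) hm, pb, df_E, ← hv,
      ((hd _).restrictScalars ℝ).fderiv]
  rw [pb_mul, Pi.mul_apply, e1, e2]
  exact FUB_top (pb_Dg (hβ _)) _

theorem FUB_dens {β : Fm 1 B} (hβ : Dgr 2 β) (γ : Fm (n + 1) (PX B X)) (z : PX B X) :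
    dens (pb PX.fst β * γ) z =
      FUB_J n z • (dens β z.fst * dens (pb (PX.mk z.fst) γ) z.snd) := by
  rw [FUB_J_dens, FUB_loc (INT1a_ix _) (INT1a_ix _) hβ]
  rfl

theorem FUB_img (a : B) (b : X) (s : Set B) (t : Set X) :
    FUB_e n a b '' {z | z.fst ∈ s ∧ z.snd ∈ t} =
      {w | (fun _ => w 0) ∈ ch 1 a '' s ∧ (fun i => w i.succ) ∈ ch n b '' t} := by
  have hv := (FUB_spec (n := n) a b).2.2.1
  ext w
  constructor
  · rintro ⟨z, hz, rfl⟩
    rw [hv]
    exact ⟨⟨_, hz.1, (FUB_one _).symm⟩, ⟨_, hz.2, rfl⟩⟩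
  · rintro ⟨⟨x, hx, h1⟩, y, hy, h2⟩
    refine ⟨PX.mk x y, ⟨hx, hy⟩, ?_⟩
    rw [hv]
    funext i
    refine Fin.cases ?_ (fun j => ?_) i
    · exact congrFun h1 0
    · exact congrFun h2 j

end Aux

omit [Mf 1 B] [Mf n X] in
theorem FUB_rect {s : Set B} {t : Set X} (hs : MeasurableSet s) (ht : MeasurableSet t) :
    MeasurableSet {z : PX B X | z.fst ∈ s ∧ z.snd ∈ t} :=
  (PX.continuous_fst.measurable hs).inter (PX.continuous_snd.measurable ht)

theorem FUB_J_meas : Measurable (FUB_J n : PX B X → NNReal) := by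
  classical
  have := INT1a_count (n := 1) (X := B)
  have := INT1a_count (n := n) (X := X)
  have := INT1a_count (n := n + 1) (X := PX B X)
  refine FUB_meas (ι := range (ix 1 : B → B) × range (ix n : X → X) ×
      range (ix (n + 1) : PX B X → PX B X))
    (fun i => {z | z.fst ∈ {y | ix 1 y = i.1.1} ∧ z.snd ∈ {y | ix n y = i.2.1.1}} ∩
      {z | ix (n + 1) z = i.2.2.1})
    (fun i z => (Real.toNNReal |(fderiv ℝ (ch (n + 1) i.2.2.1 ∘ (FUB_e n i.1.1 i.2.1.1).symm)
      ((FUB_e n i.1.1 i.2.1.1).source.piecewise (FUB_e n i.1.1 i.2.1.1) 0 z)).det|)⁻¹)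
    (fun i => (FUB_rect (INT1a_P _) (INT1a_P _)).inter (INT1a_P _)) (fun i => ?_)
    (fun z => ⟨⟨⟨_, z.fst, rfl⟩, ⟨_, z.snd, rfl⟩, ⟨_, z, rfl⟩⟩, ⟨rfl, rfl⟩, rfl⟩) ?_
  · exact ((ContinuousLinearMap.continuous_det.measurable.comp ((measurable_fderiv ℝ _).comp
      ((FUB_e n i.1.1 i.2.1.1).continuousOn.measurable_piecewise continuousOn_const
        (FUB_e n i.1.1 i.2.1.1).open_source.measurableSet))).abs.real_toNNReal).inv
  · rintro ⟨⟨a, _⟩, ⟨b, _⟩, ⟨c, _⟩⟩ z ⟨⟨rfl, rfl⟩, rfl⟩
    simp only [FUB_J, INT1aJ, piecewise_eq_of_mem _ _ _ (FUB_src z),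
      (FUB_e n _ _).left_inv (FUB_src z)]

theorem FUB_piece (a : B) (b : X) {s : Set B} {t : Set X} (hs : MeasurableSet s)
    (ht : MeasurableSet t) :
    ∫⁻ z in {z : PX B X | z.fst ∈ {y | ix 1 y = a} ∩ s ∧ z.snd ∈ {y | ix n y = b} ∩ t},
      (FUB_J n z : ℝ≥0∞) ∂mu (n + 1) (PX B X) =
      volume (ch 1 a '' ({y | ix 1 y = a} ∩ s)) * volume (ch n b '' ({y | ix n y = b} ∩ t)) := by
  have h1 : {y | ix 1 y = a} ∩ s ⊆ (ch 1 a).source := inter_subset_left.trans (INT1a_sub _)
  have h2 : {y | ix n y = b} ∩ t ⊆ (ch n b).source := inter_subset_left.trans (INT1a_sub _)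
  have hm := FUB_rect ((INT1a_P (n := 1) a).inter hs) ((INT1a_P (n := n) b).inter ht)
  have he := (FUB_spec (n := n) a b).1
  have hsub : {z : PX B X | z.fst ∈ {y | ix 1 y = a} ∩ s ∧ z.snd ∈ {y | ix n y = b} ∩ t} ⊆
      (FUB_e n a b).source := by
    rw [(FUB_spec _ _).2.1]
    exact fun z hz => ⟨h1 hz.1, h2 hz.2⟩
  have hone : ∀ w ∈ (FUB_e n a b).target,
      top (pb (FUB_e n a b).symm (pb (FUB_e n a b) fun _ => vol (n + 1)) w) = 1 := fun w hw => by
    rw [pb_chart' he hw, top_vol]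
  have key := lintegral_chart he hm hsub (pb (FUB_e n a b) fun _ => vol (n + 1))
  rw [← FUB_vol, ← FUB_img, ← setLIntegral_one]
  refine (setLIntegral_congr_fun hm fun z hz => ?_).trans (key.trans
    (setLIntegral_congr_fun (INT1a_meas hm hsub) ?_))
  · have ha : ix 1 z.fst = a := hz.1.1
    have hb : ix n z.snd = b := hz.2.1
    rw [FUB_J_dens, ha, hb, hone _ ((FUB_e n a b).map_source (hsub hz))]
    simp [NNReal.smul_def, enorm_eq_nnnorm]
  · rintro _ ⟨z, hz, rfl⟩
    beta_reduce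
    rw [hone _ ((FUB_e n a b).map_source (hsub hz))]
    simp

/-- The identification of the measurable spaces. -/
def FUB_psi : B × X ≃ᵐ PX B X :=
  Homeomorph.toMeasurableEquiv (γ := B × X) (γ₂ := PX B X) (Homeomorph.refl (B × X))

theorem FUB_prod : (mu 1 B).prod (mu n X) =
    ((mu (n + 1) (PX B X)).withDensity fun z => (FUB_J n z : ℝ≥0∞)).map FUB_psi.symm := by
  have := INT1a_count (n := 1) (X := B)
  have := INT1a_count (n := n) (X := X)
  refine Measure.prod_eq fun s t hs ht => ?_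
  have e : (FUB_psi (B := B) (X := X)).symm ⁻¹' (s ×ˢ t) =
      ⋃ i : range (ix 1 : B → B) × range (ix n : X → X), {z : PX B X |
        z.fst ∈ {y | ix 1 y = i.1.1} ∩ s ∧ z.snd ∈ {y | ix n y = i.2.1} ∩ t} := by
    ext z
    simp only [mem_iUnion]
    exact ⟨fun h => ⟨⟨⟨_, z.fst, rfl⟩, ⟨_, z.snd, rfl⟩⟩, ⟨rfl, h.1⟩, rfl, h.2⟩,
      fun ⟨_, h⟩ => ⟨h.1.2, h.2.2⟩⟩
  rw [MeasurableEquiv.map_apply,
    withDensity_apply _ (FUB_psi.symm.measurable (hs.prod ht)), e, lintegral_iUnion,
    INT1a_mu hs, INT1a_mu ht, ENNReal.tsum_prod', ← ENNReal.tsum_mul_right]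
  · refine tsum_congr fun a => ?_
    rw [← ENNReal.tsum_mul_left]
    exact tsum_congr fun b => FUB_piece _ _ hs ht
  · exact fun i => FUB_rect ((INT1a_P _).inter hs) ((INT1a_P _).inter ht)
  · intro i j hne
    refine disjoint_left.2 fun z h1 h2 => hne ?_
    exact Prod.ext (Subtype.ext (h1.1.1.symm.trans h2.1.1)) (Subtype.ext (h1.2.1.symm.trans h2.2.1))

theorem FUB_mp : MeasurePreserving FUB_psi ((mu 1 B).prod (mu n X))
    ((mu (n + 1) (PX B X)).withDensity fun z => (FUB_J n z : ℝ≥0∞)) :=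
  MeasurePreserving.symm (FUB_psi (B := B) (X := X)).symm
    ⟨(FUB_psi (B := B) (X := X)).symm.measurable, FUB_prod.symm⟩

theorem PX.fubini {β : Fm 1 B} {γ : Fm (n + 1) (PX B X)} (hβ : Dgr 2 β)
    (h : Intg (pb PX.fst β * γ)) :
    Intg ((fun b => itg (pb (PX.mk b) γ)) • β) ∧
      itg (pb PX.fst β * γ) = itg ((fun b => itg (pb (PX.mk b) γ)) • β) := by
  have e1 : dens (pb PX.fst β * γ) = fun z =>
      FUB_J n z • (dens β z.fst * dens (pb (PX.mk z.fst) γ) z.snd) := funext (FUB_dens hβ γ)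
  have e2 : dens ((fun b => itg (pb (PX.mk b) γ)) • β) =
      fun b => ∫ x, dens β b * dens (pb (PX.mk b) γ) x ∂mu n X := by
    funext b
    rw [dens_fsmul, integral_const_mul, Pi.mul_apply, mul_comm, itg]
  rw [Intg, e1, ← integrable_withDensity_iff_integrable_smul FUB_J_meas,
    ← FUB_mp.integrable_comp_emb FUB_psi.measurableEmbedding] at h
  refine ⟨by rw [Intg, e2]; exact h.integral_prod_left, ?_⟩
  rw [itg, itg, e1, e2, ← integral_withDensity_eq_integral_smul FUB_J_meas,
    ← FUB_mp.integral_comp']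
  exact integral_prod _ h

end

end Pool.Agent.MP_1c689d_ag.K0

end
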