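import Pool.Agent.Mg.F1c689d.G932365
import Pool.Agent.Mg.F1c689d.G07f42f

set_option linter.all false


section

/-! The formula of Cauchy and Pompeiu with parameters. -/

set_option autoImplicit false

open Complex Filter Topology Set MeasureTheory
open scoped ComplexConjugate ContDiff ENNReal

namespace Pool.Agent.MP_1c689d_ag.K0

noncomputable section

variable {n : ℕ}

theorem PLa_lin (D : ℂ →L[ℝ] ℂ) (w : ℂ) : D w = w.re * D 1 + w.im * D I := by
  have h : w = w.re • (1 : ℂ) + w.im • I := by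
    apply Complex.ext <;> simp
  conv_lhs => rw [h]
  rw [map_add, map_smul, map_smul, real_smul, real_smul]

theorem PLa_alg (D : ℂ →L[ℝ] ℂ) {e : ℂ} (h : ‖e‖ = 1) :
    D 1 + I * D I = e * (D e + I * D (e * I)) := by
  have h1 : (e.re : ℂ) * e.re + e.im * e.im = 1 := by
    have := Complex.normSq_eq_norm_sq e
    rw [h, normSq_apply, one_pow] at this
    exact_mod_cast this
  have h2 : e = e.re + e.im * I := (re_add_im e).symm
  rw [PLa_lin D e, PLa_lin D (e * I), mul_I_re, mul_I_im, ofReal_neg]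
  generalize (e.re : ℂ) = a at h1 h2
  generalize (e.im : ℂ) = b at h1 h2
  rw [h2]
  linear_combination (-D 1 - I * D I) * h1 + (b * b * D 1 - a * b * D I) * I_mul_I

theorem PLa_norm (θ : ℝ) : ‖circleMap 0 1 θ‖ = 1 := by
  simp

theorem PLa_int {F : ℝ × ℝ → ℂ} (hF : Continuous F) {R : ℝ} (h : ∀ p : ℝ × ℝ, R < p.1 → F p = 0) :
    Integrable F ((volume.restrict (Ioi 0)).prod (volume.restrict (Ioo (-Real.pi) Real.pi))) := by
  rw [Measure.prod_restrict]
  have h1 : IntegrableOn F (Icc 0 R ×ˢ Icc (-Real.pi) Real.pi) (volume.prod volume) :=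
    hF.continuousOn.integrableOn_compact (isCompact_Icc.prod isCompact_Icc)
  refine h1.of_forall_sdiff_eq_zero (measurableSet_Ioi.prod measurableSet_Ioo) fun p hp => h p ?_
  by_contra k
  exact hp.2 ⟨⟨le_of_lt hp.1.1, not_lt.1 k⟩, Ioo_subset_Icc_self hp.1.2⟩

theorem PLa_rad {f : ℂ → ℂ} (hf : ContDiff ℝ 1 f) (hc : HasCompactSupport f) {e : ℂ}
    (he : ‖e‖ = 1) : ∫ r in Ioi (0 : ℝ), fderiv ℝ f (r * e) e = -f 0 := by
  obtain ⟨R, -, hR⟩ := hc.exists_pos_le_norm
  have h1 : ContDiff ℝ 1 fun r : ℝ => f (r * e) :=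
    hf.comp (ofRealCLM.contDiff.mul contDiff_const)
  have h2 : HasCompactSupport fun r : ℝ => f (r * e) := by
    refine HasCompactSupport.intro (isCompact_closedBall (0 : ℝ) R) fun r hr => hR _ ?_
    rw [mem_closedBall_zero_iff, not_le] at hr
    rw [norm_mul, he, mul_one, norm_real]
    exact hr.le
  have h3 := h2.integral_Ioi_deriv_eq h1 0
  rw [ofReal_zero, zero_mul] at h3
  rw [← h3]
  refine integral_congr_ae (Eventually.of_forall fun r => ?_)
  have h4 : HasDerivAt (fun r : ℝ => (r : ℂ) * e) e r := by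
    simpa using (ofRealCLM.hasDerivAt (x := r)).mul_const e
  exact ((hf.differentiable one_ne_zero _).hasFDerivAt.comp_hasDerivAt r h4).deriv.symm

theorem PLa_ang {f : ℂ → ℂ} (hf : ContDiff ℝ 1 f) {r : ℝ} (hr : r ≠ 0) :
    ∫ θ in Ioo (-Real.pi) Real.pi, fderiv ℝ f (r * circleMap 0 1 θ) (circleMap 0 1 θ * I) = 0 := by
  have h1 : ∀ θ, HasDerivAt (fun θ => r⁻¹ • f (r * circleMap 0 1 θ))
      (fderiv ℝ f (r * circleMap 0 1 θ) (circleMap 0 1 θ * I)) θ := by
    intro θ
    have h2 := ((hf.differentiable one_ne_zero _).hasFDerivAt.comp_hasDerivAt θ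
      ((hasDerivAt_circleMap 0 1 θ).const_mul (r : ℂ))).const_smul r⁻¹
    rw [← real_smul (z := circleMap 0 1 θ * I), map_smul, inv_smul_smul₀ hr] at h2
    exact h2
  have h3 : Continuous fun θ => fderiv ℝ f (r * circleMap 0 1 θ) (circleMap 0 1 θ * I) :=
    ((hf.continuous_fderiv one_ne_zero).comp
      (continuous_const.mul (continuous_circleMap 0 1))).clm_apply
      ((continuous_circleMap 0 1).mul continuous_const)
  rw [← integral_Ioc_eq_integral_Ioo, ← intervalIntegral.integral_of_le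
    (by linarith [Real.pi_pos]), intervalIntegral.integral_eq_sub_of_hasDerivAt
    (fun θ _ => h1 θ) (h3.intervalIntegrable _ _), ← periodic_circleMap 0 1 (-Real.pi),
    show -Real.pi + 2 * Real.pi = Real.pi by ring, sub_self]

/-- Polar coordinates (`Complex.integral_comp_polarCoord_symm`) or a regularisation of `1 / z`. -/
theorem cauchy_pompeiu {f : ℂ → ℂ} (hf : ContDiff ℝ 1 f) (hc : HasCompactSupport f) :
    ∫ z, z⁻¹ * ((fderiv ℝ f z 1 + I * fderiv ℝ f z I) / 2) = -Real.pi * f 0 := by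
  obtain ⟨R, -, hR⟩ := (hc.fderiv ℝ).exists_pos_le_norm
  have hD : Continuous fun p : ℝ × ℝ => fderiv ℝ f (p.1 * circleMap 0 1 p.2) :=
    (hf.continuous_fderiv one_ne_zero).comp ((continuous_ofReal.comp continuous_fst).mul
      ((continuous_circleMap 0 1).comp continuous_snd))
  have hz : ∀ p : ℝ × ℝ, R < p.1 → fderiv ℝ f (p.1 * circleMap 0 1 p.2) = 0 := by
    intro p hp
    refine hR _ ?_
    rw [norm_mul, PLa_norm, mul_one, norm_real]
    exact hp.le.trans (le_abs_self _)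
  have i1 := PLa_int (F := fun p => fderiv ℝ f (p.1 * circleMap 0 1 p.2) (circleMap 0 1 p.2))
    (hD.clm_apply ((continuous_circleMap 0 1).comp continuous_snd)) (R := R) fun p hp => by
      simp only [hz p hp, zero_apply]
  have i2 := PLa_int (F := fun p => fderiv ℝ f (p.1 * circleMap 0 1 p.2) (circleMap 0 1 p.2 * I))
    (hD.clm_apply (((continuous_circleMap 0 1).comp continuous_snd).mul continuous_const))
    (R := R) fun p hp => by simp only [hz p hp, zero_apply]
  have e : ∀ p ∈ Ioi (0 : ℝ) ×ˢ Ioo (-Real.pi) Real.pi,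
      p.1 • ((Complex.polarCoord.symm p)⁻¹ * ((fderiv ℝ f (Complex.polarCoord.symm p) 1 +
        I * fderiv ℝ f (Complex.polarCoord.symm p) I) / 2)) =
      (fderiv ℝ f (p.1 * circleMap 0 1 p.2) (circleMap 0 1 p.2) +
        I * fderiv ℝ f (p.1 * circleMap 0 1 p.2) (circleMap 0 1 p.2 * I)) / 2 := by
    intro p hp
    have e1 : Complex.polarCoord.symm p = p.1 * circleMap 0 1 p.2 := by
      rw [Complex.polarCoord_symm_apply, circleMap, exp_mul_I]
      simp
    have h1 : (p.1 : ℂ) ≠ 0 := ofReal_ne_zero.2 (ne_of_gt hp.1)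
    have h2 : circleMap 0 1 p.2 ≠ 0 := circleMap_ne_center one_ne_zero
    rw [e1, PLa_alg _ (PLa_norm p.2), real_smul]
    field_simp
  have j1 : ∫ p, fderiv ℝ f (p.1 * circleMap 0 1 p.2) (circleMap 0 1 p.2)
      ∂((volume.restrict (Ioi (0 : ℝ))).prod (volume.restrict (Ioo (-Real.pi) Real.pi))) =
      -(2 * Real.pi * f 0) := by
    rw [integral_prod_symm _ i1]
    simp only [PLa_rad hf hc (PLa_norm _)]
    rw [setIntegral_const, Real.volume_real_Ioo_of_le (by linarith [Real.pi_pos]), real_smul]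
    push_cast
    ring
  have j2 : ∫ p, fderiv ℝ f (p.1 * circleMap 0 1 p.2) (circleMap 0 1 p.2 * I)
      ∂((volume.restrict (Ioi (0 : ℝ))).prod (volume.restrict (Ioo (-Real.pi) Real.pi))) = 0 := by
    rw [integral_prod _ i2]
    exact setIntegral_eq_zero_of_forall_eq_zero fun r hr => PLa_ang hf (ne_of_gt hr)
  rw [← Complex.integral_comp_polarCoord_symm, polarCoord_target,
    setIntegral_congr_fun (measurableSet_Ioi.prod measurableSet_Ioo) e, Measure.volume_eq_prod,
    ← Measure.prod_restrict, integral_div, integral_add i1 (i2.const_mul I), integral_const_mul,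
    j1, j2]
  ring

theorem locallyIntegrable_inv : LocallyIntegrable (fun z : ℂ => z⁻¹) volume := by
  refine locallyIntegrable_of_norm_le_rpow (C := 1) (α := 1) (by simp) (by simp)
    (Eventually.of_forall fun z => ?_) measurable_inv.aestronglyMeasurable
  rw [norm_inv, one_mul, Real.rpow_neg_one]

theorem PLa_mp : MeasurePreserving (fun p : ℂ × E n => (Fin.cons p.1 p.2 : E (n + 1)))
    (volume.prod volume) volume ∧
    MeasurableEmbedding fun p : ℂ × E n => (Fin.cons p.1 p.2 : E (n + 1)) := by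
  have e : (fun p : ℂ × E n => (Fin.cons p.1 p.2 : E (n + 1))) =
      (MeasurableEquiv.piFinSuccAbove (fun _ : Fin (n + 1) => ℂ) 0).symm := by
    funext p
    exact (Fin.insertNth_zero' p.1 p.2).symm
  rw [e]
  exact ⟨(volume_preserving_piFinSuccAbove (fun _ : Fin (n + 1) => ℂ) 0).symm _,
    MeasurableEquiv.measurableEmbedding _⟩

theorem PLa_fub {F : E (n + 1) → ℂ} (h : Integrable F) :
    ∫ z, F z = ∫ t : ℂ, ∫ w : E n, F (Fin.cons t w) ∧
      ∫ z, F z = ∫ w : E n, ∫ t : ℂ, F (Fin.cons t w) := by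
  have h1 := (PLa_mp.1.integrable_comp_emb PLa_mp.2).2 h
  rw [← PLa_mp.1.integral_comp PLa_mp.2]
  exact ⟨integral_prod _ h1, integral_prod_symm _ h1⟩

theorem PLa_n1 (t : ℂ) (w : E n) : ‖t‖ ≤ ‖(Fin.cons t w : E (n + 1))‖ :=
  norm_le_pi_norm (Fin.cons t w : E (n + 1)) 0

theorem PLa_n2 (t : ℂ) (w : E n) : ‖w‖ ≤ ‖(Fin.cons t w : E (n + 1))‖ :=
  (pi_norm_le_iff_of_nonneg (norm_nonneg _)).2 fun i =>
    norm_le_pi_norm (Fin.cons t w : E (n + 1)) i.succ

theorem integrable_inv_coord {g : E (n + 1) → ℂ} (hg : Continuous g) (hc : HasCompactSupport g) :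
    Integrable fun z => (z 0)⁻¹ * g z := by
  obtain ⟨R, -, hR⟩ := hc.exists_pos_le_norm
  obtain ⟨C, hC⟩ := hg.bounded_above_of_compact_support hc
  have h1 : Integrable ((Metric.closedBall (0 : ℂ) R).indicator fun t => ‖t⁻¹‖) :=
    (integrable_indicator_iff Metric.isClosed_closedBall.measurableSet).2
      (locallyIntegrable_inv.integrableOn_isCompact (isCompact_closedBall 0 R)).norm
  have h2 : Integrable ((Metric.closedBall (0 : E n) R).indicator fun _ => C) :=
    (integrable_indicator_iff Metric.isClosed_closedBall.measurableSet).2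
      (continuousOn_const.integrableOn_compact (isCompact_closedBall 0 R))
  have hm : AEStronglyMeasurable (fun z : E (n + 1) => (z 0)⁻¹ * g z) volume :=
    ((measurable_pi_apply 0).inv.mul hg.measurable).aestronglyMeasurable
  refine (PLa_mp.1.integrable_comp_emb PLa_mp.2).1 ((h1.mul_prod h2).mono'
    (hm.comp_measurePreserving PLa_mp.1) (Eventually.of_forall fun p => ?_))
  show ‖p.1⁻¹ * g (Fin.cons p.1 p.2)‖ ≤ _
  by_cases h : R ≤ ‖(Fin.cons p.1 p.2 : E (n + 1))‖
  · rw [hR _ h, mul_zero, norm_zero]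
    exact mul_nonneg (indicator_nonneg (fun _ _ => norm_nonneg _) _)
      (indicator_nonneg (fun _ _ => (norm_nonneg _).trans (hC 0)) _)
  · rw [indicator_of_mem (mem_closedBall_zero_iff.2 ((PLa_n1 _ _).trans (not_le.1 h).le)),
      indicator_of_mem (mem_closedBall_zero_iff.2 ((PLa_n2 _ _).trans (not_le.1 h).le)), norm_mul]
    exact mul_le_mul_of_nonneg_left (hC _) (norm_nonneg _)

theorem PLa_fd {g : E n → ℂ} (hg : ContDiff ℝ 1 g) (hc : HasCompactSupport g) (v : E n) :
    ∫ z, fderiv ℝ g z v = 0 := by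
  have hi : Integrable (fun z => fderiv ℝ g z v) :=
    ((hg.continuous_fderiv one_ne_zero).clm_apply
      continuous_const).integrable_of_hasCompactSupport (hc.fderiv_apply ℝ v)
  have := integral_smul_fderiv_eq_neg_fderiv_smul_of_integrable (μ := volume) (𝕜 := ℝ)
    (f := fun _ : E n => (1 : ℝ)) (g := g) (v := v) (by simp) (by simpa using hi)
    (by simpa using hg.continuous.integrable_of_hasCompactSupport hc)
    (fun _ _ => differentiableAt_const _) (fun x _ => hg.differentiable one_ne_zero x)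
  simpa using this

theorem PLa_i {g : E (n + 1) → ℂ} (hg : ContDiff ℝ 1 g) (hc : HasCompactSupport g)
    (v : E (n + 1)) : Integrable fun z => (z 0)⁻¹ * fderiv ℝ g z v :=
  integrable_inv_coord ((hg.continuous_fderiv one_ne_zero).clm_apply continuous_const)
    (hc.fderiv_apply ℝ v)

theorem PLa_cons {A : E n →L[ℝ] E (n + 1)} (hA : ∀ z, A z = Fin.cons 0 z) (t : ℂ) (w : E n) :
    (Fin.cons t w : E (n + 1)) = Pi.single 0 t + A w := by
  rw [hA]
  funext i
  refine Fin.cases ?_ (fun i => ?_) i <;> simp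

theorem PLa_tan {A : E n →L[ℝ] E (n + 1)} (hA : ∀ z, A z = Fin.cons 0 z) {g : E (n + 1) → ℂ}
    (hg : ContDiff ℝ 1 g) (hc : HasCompactSupport g) (i : Fin n) (c : ℂ) :
    ∫ z, (z 0)⁻¹ * fderiv ℝ g z (Pi.single i.succ c) = 0 := by
  obtain ⟨R, -, hR⟩ := hc.exists_pos_le_norm
  have e : (Pi.single i.succ c : E (n + 1)) = A (Pi.single i c) := by
    rw [hA]
    funext j
    refine Fin.cases ?_ (fun j => ?_) j <;> simp [Pi.single_apply]
  rw [(PLa_fub (PLa_i hg hc _)).1]
  refine integral_eq_zero_of_ae (Eventually.of_forall fun t => ?_)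
  show ∫ w : E n, t⁻¹ * fderiv ℝ g (Fin.cons t w) (Pi.single i.succ c) = 0
  have h1 : ContDiff ℝ 1 fun w : E n => g (Pi.single 0 t + A w) :=
    hg.comp (contDiff_const.add A.contDiff)
  have h2 : HasCompactSupport fun w : E n => g (Pi.single 0 t + A w) := by
    refine HasCompactSupport.intro (isCompact_closedBall 0 R) fun w hw => hR _ ?_
    rw [mem_closedBall_zero_iff, not_le] at hw
    rw [← PLa_cons hA]
    exact hw.le.trans (PLa_n2 t w)
  rw [integral_const_mul, ← mul_zero t⁻¹, ← PLa_fd h1 h2 (Pi.single i c)]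
  refine congrArg (t⁻¹ * ·) (integral_congr_ae (Eventually.of_forall fun w => ?_))
  have h3 : HasFDerivAt (fun w : E n => g (Pi.single 0 t + A w))
      ((fderiv ℝ g (Pi.single 0 t + A w)).comp A) w :=
    (hg.differentiable one_ne_zero _).hasFDerivAt.comp w (A.hasFDerivAt.const_add _)
  simp only [h3.fderiv, PLa_cons hA, e, ContinuousLinearMap.comp_apply]

theorem PLa_nor {A : E n →L[ℝ] E (n + 1)} (hA : ∀ z, A z = Fin.cons 0 z) {g : E (n + 1) → ℂ}
    (hg : ContDiff ℝ 1 g) (hc : HasCompactSupport g)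
    (hi : Integrable fun z => (z 0)⁻¹ * pzb 0 g z) :
    ∫ z, (z 0)⁻¹ * pzb 0 g z = -Real.pi * ∫ w : E n, g (Fin.cons 0 w) := by
  obtain ⟨R, -, hR⟩ := hc.exists_pos_le_norm
  rw [(PLa_fub hi).2, ← integral_const_mul]
  refine integral_congr_ae (Eventually.of_forall fun w => ?_)
  show ∫ t : ℂ, t⁻¹ * pzb 0 g (Fin.cons t w) = -Real.pi * g (Fin.cons 0 w)
  let B : ℂ →L[ℝ] E (n + 1) := ContinuousLinearMap.single ℝ (fun _ => ℂ) 0
  have hB : ∀ t, (Fin.cons t w : E (n + 1)) = B t + A w := fun t => PLa_cons hA t w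
  have h1 : ContDiff ℝ 1 fun t : ℂ => g (B t + A w) := hg.comp (B.contDiff.add contDiff_const)
  have h2 : HasCompactSupport fun t : ℂ => g (B t + A w) := by
    refine HasCompactSupport.intro (isCompact_closedBall 0 R) fun t ht => hR _ ?_
    rw [mem_closedBall_zero_iff, not_le] at ht
    rw [← hB]
    exact ht.le.trans (PLa_n1 t w)
  rw [hB 0, ← cauchy_pompeiu h1 h2]
  refine integral_congr_ae (Eventually.of_forall fun t => ?_)
  have h3 : HasFDerivAt (fun t : ℂ => g (B t + A w)) ((fderiv ℝ g (B t + A w)).comp B) t :=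
    (hg.differentiable one_ne_zero _).hasFDerivAt.comp t (B.hasFDerivAt.add_const _)
  simp only [h3.fderiv, hB, pzb, ContinuousLinearMap.comp_apply, smul_eq_mul]
  rw [one_div, div_eq_inv_mul _ (2 : ℂ)]
  rfl

theorem PLa_comb {g : E (n + 1) → ℂ} (hg : ContDiff ℝ 1 g) (hc : HasCompactSupport g)
    (j : Fin (n + 1)) :
    (Integrable fun z => (z 0)⁻¹ * pz j g z) ∧ (Integrable fun z => (z 0)⁻¹ * pzb j g z) ∧
      ((∀ c, ∫ z, (z 0)⁻¹ * fderiv ℝ g z (Pi.single j c) = 0) →
        ∫ z, (z 0)⁻¹ * pz j g z = 0 ∧ ∫ z, (z 0)⁻¹ * pzb j g z = 0) := by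
  have e1 : (fun z => (z 0)⁻¹ * pz j g z) = fun z =>
      1 / 2 * ((z 0)⁻¹ * fderiv ℝ g z (Pi.single j 1) -
        I * ((z 0)⁻¹ * fderiv ℝ g z (Pi.single j I))) := by
    funext z
    simp only [pz, smul_eq_mul]
    ring
  have e2 : (fun z => (z 0)⁻¹ * pzb j g z) = fun z =>
      1 / 2 * ((z 0)⁻¹ * fderiv ℝ g z (Pi.single j 1) +
        I * ((z 0)⁻¹ * fderiv ℝ g z (Pi.single j I))) := by
    funext z
    simp only [pzb, smul_eq_mul]
    ring
  have i1 := PLa_i hg hc (Pi.single j 1)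
  have i2 := (PLa_i hg hc (Pi.single j I)).const_mul I
  rw [e1, e2]
  refine ⟨(i1.sub i2).const_mul _, (i1.add i2).const_mul _, fun h => ?_⟩
  rw [integral_const_mul, integral_const_mul, integral_sub i1 i2, integral_add i1 i2,
    integral_const_mul, h, h]
  simp

theorem PLa_sc {ψ : E n → Λ n} (hψ : ContDiff ℝ ∞ ψ) (hc : HasCompactSupport ψ) (a : Λ n) :
    ContDiff ℝ 1 (fun z => top (a * ψ z)) ∧ HasCompactSupport (fun z => top (a * ψ z)) ∧
      (∀ j z, top (a * pz j ψ z) = pz j (fun z => top (a * ψ z)) z) ∧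
      ∀ j z, top (a * pzb j ψ z) = pzb j (fun z => top (a * ψ z)) z := by
  let L : Λ n →ₗ[ℂ] ℂ := top ∘ₗ LinearMap.mulLeft ℂ a
  refine ⟨((LinearMap.toContinuousLinearMap L).restrictScalars ℝ).contDiff.comp
    (hψ.of_le (by simp)), hc.comp_left (g := L) (map_zero L), fun j z => ?_, fun j z => ?_⟩
  · exact (DFb_pz L (Or.inl (hψ.differentiable (by simp) z)) j).symm
  · exact (DFb_pzb L (Or.inl (hψ.differentiable (by simp) z)) j).symm

/-- Write `top (dz 0 * dE ψ)` as a sum of directional derivatives of the coefficients of `ψ`; use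
Fubini (`MeasurableEquiv.piFinSuccAbove`): the terms with a derivative in the other variables
vanish, the term `dz 0 * dzb 0 * pzb 0 ψ` is given by `cauchy_pompeiu` and `top_cons`. -/
theorem pl_model : ∃ κ : ℂ, κ ≠ 0 ∧ ∀ (A : E n →L[ℝ] E (n + 1)), (∀ z, A z = Fin.cons 0 z) →
    ∀ ψ : E (n + 1) → Λ (n + 1), ContDiff ℝ ∞ ψ → HasCompactSupport ψ →
      ∫ z, (z 0)⁻¹ * top (dz 0 * dE ψ z) = κ * ∫ w, top (lm A (ψ (Fin.cons 0 w))) := by
  obtain ⟨c, hc0, hc⟩ := top_cons (n := n)
  refine ⟨-Real.pi * c, mul_ne_zero (neg_ne_zero.2 (ofReal_ne_zero.2 Real.pi_ne_zero)) hc0,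
    fun A hA ψ hψ hs => ?_⟩
  have S := PLa_sc hψ hs
  have C := fun a => PLa_comb (S a).1 (S a).2.1
  have T := fun a (i : Fin n) => (C a i.succ).2.2 (PLa_tan hA (S a).1 (S a).2.1 i)
  have e : ∀ z, (z 0)⁻¹ * top (dz 0 * dE ψ z) =
      (z 0)⁻¹ * pzb 0 (fun z => top (dz 0 * dzb 0 * ψ z)) z +
        ∑ i : Fin n, ((z 0)⁻¹ * pz i.succ (fun z => top (dz 0 * dz i.succ * ψ z)) z +
          (z 0)⁻¹ * pzb i.succ (fun z => top (dz 0 * dzb i.succ * ψ z)) z) := by
    intro z
    have h0 : (dz 0 * dz 0 : Λ (n + 1)) = 0 := io_sq _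
    simp only [dE, dpE, dbE, Fin.sum_univ_succ, mul_add, Finset.mul_sum, ← mul_assoc, h0,
      zero_mul, zero_add, map_add, map_sum, (S _).2.2.1, (S _).2.2.2, Finset.sum_add_distrib]
    ring
  have i1 : ∀ i ∈ (Finset.univ : Finset (Fin n)), Integrable fun z : E (n + 1) =>
      (z 0)⁻¹ * pz i.succ (fun z => top (dz 0 * dz i.succ * ψ z)) z +
        (z 0)⁻¹ * pzb i.succ (fun z => top (dz 0 * dzb i.succ * ψ z)) z :=
    fun i _ => (C _ _).1.add (C _ _).2.1
  simp only [e]
  rw [integral_add (C _ 0).2.1 (integrable_finsetSum _ i1), integral_finsetSum _ i1,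
    Finset.sum_eq_zero fun i _ => by
      rw [integral_add (C _ _).1 (C _ _).2.1, (T _ i).1, (T _ i).2, add_zero],
    PLa_nor hA (S _).1 (S _).2.1 (C _ 0).2.1]
  simp only [hc A hA]
  rw [integral_const_mul]
  ring

end

end Pool.Agent.MP_1c689d_ag.K0

end

section

/-! The Cauchy transform in one of the variables. -/

set_option autoImplicit false

open Complex Filter Topology Set MeasureTheory
open scoped ComplexConjugate ContDiff ENNReal

namespace Pool.Agent.MP_1c689d_ag.K0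

noncomputable section

variable {n : ℕ} {W : Type} [NormedAddCommGroup W] [NormedSpace ℂ W] [CompleteSpace W]

/-- The Cauchy transform in the variable `j`. -/
def cT (j : Fin n) (f : E n → W) (z : E n) : W :=
  (-(Real.pi : ℂ)⁻¹) • ∫ w : ℂ, w⁻¹ • f (z + Pi.single j w)

theorem CT_iso (j : Fin n) (z : E n) : Isometry fun w : ℂ => z + (Pi.single j w : E n) := by
  refine Isometry.of_dist_eq fun a b => ?_
  rw [dist_add_left, dist_eq_norm, ← Pi.single_sub, Pi.norm_single, dist_eq_norm]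

theorem CT_int (j : Fin n) {f : E n → W} (hf : Continuous f) (hc : HasCompactSupport f)
    (z : E n) : Integrable fun w : ℂ => w⁻¹ • f (z + Pi.single j w) :=
  locallyIntegrable_inv.integrable_smul_right_of_hasCompactSupport
    (hf.comp (CT_iso j z).continuous)
    (hc.comp_isClosedEmbedding (CT_iso j z).isClosedEmbedding)

/-- The coordinate injection as a real linear map. -/
def CT_s (j : Fin n) : ℂ →L[ℝ] E n := ContinuousLinearMap.single ℝ (fun _ : Fin n => ℂ) j

/-- The linear map `(p, x) ↦ p - single j x`. -/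
def CT_m (j : Fin n) : E n × ℂ →L[ℝ] E n :=
  ContinuousLinearMap.fst ℝ (E n) ℂ - (CT_s j).comp (ContinuousLinearMap.snd ℝ (E n) ℂ)

theorem CT_m_apply (j : Fin n) (p : E n) (x : ℂ) : CT_m j (p, x) = p - Pi.single j x := rfl

theorem CT_m_neg (j : Fin n) (p : E n) (x : ℂ) : CT_m j (p, 0 - x) = p + Pi.single j x := by
  rw [CT_m_apply, zero_sub, Pi.single_neg, sub_neg_eq_add]

omit [NormedSpace ℂ W] [CompleteSpace W] in
theorem CT_supp (j : Fin n) {f : E n → W} (hc : HasCompactSupport f) (z : E n) :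
    ∃ k : Set ℂ, IsCompact k ∧ ∀ (p : E n) (x : ℂ), p ∈ Metric.ball z 1 → x ∉ k →
      f (CT_m j (p, x)) = 0 := by
  obtain ⟨R, hR⟩ := hc.isCompact.isBounded.subset_closedBall z
  refine ⟨Metric.closedBall 0 (R + 1), isCompact_closedBall _ _, fun p x hp hx => ?_⟩
  refine image_eq_zero_of_notMem_tsupport fun h => hx ?_
  have h1 := hR h
  rw [CT_m_apply, mem_closedBall_iff_norm] at h1
  rw [mem_ball_iff_norm] at hp
  rw [mem_closedBall_zero_iff, ← Pi.norm_single (G := fun _ : Fin n => ℂ) (i := j) x]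
  have h2 : (Pi.single j x : E n) = (p - z) - (p - Pi.single j x - z) := by abel
  rw [h2]
  exact (norm_sub_le _ _).trans (by linarith)

omit [CompleteSpace W] in
theorem CT_conv (j : Fin n) (f : E n → W) : cT j f = fun p => (-(Real.pi : ℂ)⁻¹) •
    (MeasureTheory.convolution (fun w : ℂ => w⁻¹) (fun x => f (CT_m j (p, x)))
      (ContinuousLinearMap.lsmul ℝ ℂ) volume 0) := by
  funext p
  simp only [cT, convolution_def, CT_m_neg, ContinuousLinearMap.lsmul_apply]

/-- Differentiation under the integral sign; this is a convolution with a locally integrable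
kernel (compare `HasCompactSupport.contDiff_convolution_right`, `contDiffOn_convolution_right_with_param`). -/
theorem contDiff_cT (j : Fin n) {f : E n → W} (hf : ContDiff ℝ ∞ f) (hc : HasCompactSupport f) :
    ContDiff ℝ ∞ (cT j f) := by
  refine contDiff_iff_contDiffAt.2 fun z => ?_
  obtain ⟨k, hk, hgs⟩ := CT_supp j hc z
  have h1 := contDiffOn_convolution_right_with_param (𝕜 := ℝ) (n := (⊤ : ℕ∞)) (μ := volume)
    (ContinuousLinearMap.lsmul ℝ ℂ : ℂ →L[ℝ] W →L[ℝ] W)
    (g := fun (p : E n) (x : ℂ) => f (CT_m j (p, x))) Metric.isOpen_ball hk hgs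
    locallyIntegrable_inv (hf.comp (CT_m j).contDiff).contDiffOn
  have h2 := (h1.contDiffAt (x := (z, 0)) ((Metric.isOpen_ball.prod isOpen_univ).mem_nhds
    ⟨Metric.mem_ball_self one_pos, mem_univ _⟩)).comp z
    (f := fun p : E n => (p, (0 : ℂ))) (by fun_prop)
  rw [CT_conv]
  exact h2.const_smul _

theorem fderiv_cT (j : Fin n) {f : E n → W} (hf : ContDiff ℝ ∞ f) (hc : HasCompactSupport f)
    (z v : E n) : fderiv ℝ (cT j f) z v = cT j (fun w => fderiv ℝ f w v) z := by
  obtain ⟨k, hk, hgs⟩ := CT_supp j hc z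
  have h1 := hasFDerivAt_convolution_right_with_param (𝕜 := ℝ) (μ := volume)
    (ContinuousLinearMap.lsmul ℝ ℂ : ℂ →L[ℝ] W →L[ℝ] W)
    (g := fun (p : E n) (x : ℂ) => f (CT_m j (p, x))) Metric.isOpen_ball hk hgs
    locallyIntegrable_inv ((hf.of_le (by simp)).comp (CT_m j).contDiff).contDiffOn (z, 0)
    (Metric.mem_ball_self one_pos)
  have h2 := (h1.comp z (f := fun p : E n => (p, (0 : ℂ))) (hasFDerivAt_prodMk_left z 0)).const_smul
    (-(Real.pi : ℂ)⁻¹)
  have hd : ∀ q : E n × ℂ, fderiv ℝ (fun q : E n × ℂ => f (CT_m j q)) q =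
      (fderiv ℝ f (CT_m j q)).comp (CT_m j) := fun q =>
    (((hf.differentiable (by simp)) _).hasFDerivAt.comp q (CT_m j).hasFDerivAt).fderiv
  have h3 : (MeasureTheory.convolution (fun w : ℂ => w⁻¹)
      (fun x : ℂ => fderiv ℝ (fun q : E n × ℂ => f (CT_m j q)) (z, x))
      ((ContinuousLinearMap.lsmul ℝ ℂ : ℂ →L[ℝ] W →L[ℝ] W).precompR (E n × ℂ)) volume 0) =
      ∫ w : ℂ, w⁻¹ • (fun y => (fderiv ℝ f y).comp (CT_m j)) (z + Pi.single j w) := by
    rw [convolution_def]
    refine integral_congr_ae (Eventually.of_forall fun w => ?_)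
    simp only [hd, CT_m_neg]
    rfl
  have hi := CT_int j (f := fun y => (fderiv ℝ f y).comp (CT_m j))
    ((hf.continuous_fderiv (by simp)).clm_comp continuous_const)
    ((hc.fderiv ℝ).comp_left (g := fun A : E n →L[ℝ] W => A.comp (CT_m j))
      (ContinuousLinearMap.zero_comp _)) z
  rw [CT_conv j f]
  refine (congrArg (fun A : E n →L[ℝ] W => A v) h2.fderiv).trans ?_
  simp only [ContinuousLinearMap.smul_apply, ContinuousLinearMap.comp_apply, cT]
  congr 1
  refine (congrArg (fun A : E n × ℂ →L[ℝ] W => A (ContinuousLinearMap.inl ℝ (E n) ℂ v)) h3).trans ?_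
  simp only
  rw [ContinuousLinearMap.integral_apply hi]
  refine integral_congr_ae (Eventually.of_forall fun w => ?_)
  simp only [ContinuousLinearMap.smul_apply, ContinuousLinearMap.comp_apply,
    ContinuousLinearMap.inl_apply, CT_m_apply, Pi.single_zero, sub_zero]

theorem pzb_cT (j l : Fin n) {f : E n → W} (hf : ContDiff ℝ ∞ f) (hc : HasCompactSupport f) :
    pzb l (cT j f) = cT j (pzb l f) := by
  funext z
  have hi : ∀ v : E n, Integrable fun w : ℂ => w⁻¹ • fderiv ℝ f (z + Pi.single j w) v := fun v =>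
    CT_int j (f := fun y => fderiv ℝ f y v)
      ((hf.continuous_fderiv (by simp)).clm_apply continuous_const) (hc.fderiv_apply ℝ v) z
  rw [pzb, fderiv_cT j hf hc, fderiv_cT j hf hc]
  simp only [cT, pzb]
  have hi2 : Integrable fun w : ℂ => I • w⁻¹ • fderiv ℝ f (z + Pi.single j w) (Pi.single l I) :=
    (hi _).smul I
  rw [smul_comm I, ← smul_add, smul_comm, ← integral_smul,
    ← integral_add (hi _) hi2, ← integral_smul]
  congr 2
  funext w
  rw [smul_comm I, ← smul_add, smul_comm]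

theorem CT_map {W' : Type} [NormedAddCommGroup W'] [NormedSpace ℂ W'] [CompleteSpace W']
    (T : W →L[ℂ] W') (j : Fin n) {f : E n → W} (hf : Continuous f) (hc : HasCompactSupport f)
    (z : E n) : T (cT j f z) = cT j (fun w => T (f w)) z := by
  simp only [cT]
  rw [map_smul, ← T.integral_comp_comm (CT_int j hf hc z)]
  simp only [map_smul]

omit [CompleteSpace W] in
theorem CT_pzb_cont (j : Fin n) {f : E n → W} (hf : ContDiff ℝ ∞ f) : Continuous (pzb j f) := by
  have c1 : ∀ v : E n, Continuous fun y => fderiv ℝ f y v := fun v =>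
    (hf.continuous_fderiv (by simp)).clm_apply continuous_const
  unfold pzb
  exact ((c1 _).add ((c1 _).const_smul I)).const_smul (1 / 2 : ℂ)

omit [CompleteSpace W] in
theorem CT_pzb_supp (j : Fin n) {f : E n → W} (hc : HasCompactSupport f) :
    HasCompactSupport (pzb j f) := by
  refine (hc.fderiv ℝ).mono fun y hy h => hy ?_
  rw [pzb, h]
  simp

omit [CompleteSpace W] in
theorem CT_slice (T : W →L[ℂ] ℂ) (j : Fin n) {f : E n → W} (hf : ContDiff ℝ ∞ f) (z : E n)
    (w v : ℂ) : fderiv ℝ (fun w : ℂ => T (f (z + Pi.single j w))) w v =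
      T (fderiv ℝ f (z + Pi.single j w) (Pi.single j v)) := by
  have hl : HasFDerivAt (fun w : ℂ => z + (Pi.single j w : E n)) (CT_s j) w :=
    (CT_s j).hasFDerivAt.const_add z
  have h1 : HasFDerivAt (fun w : ℂ => f (z + Pi.single j w))
      ((fderiv ℝ f (z + Pi.single j w)).comp (CT_s j)) w :=
    HasFDerivAt.comp w (g := f) ((hf.differentiable (by simp)) _).hasFDerivAt hl
  have h2 : HasFDerivAt (fun w : ℂ => T (f (z + Pi.single j w)))
      ((T.restrictScalars ℝ).comp ((fderiv ℝ f (z + Pi.single j w)).comp (CT_s j))) w :=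
    HasFDerivAt.comp w (g := T.restrictScalars ℝ) (T.restrictScalars ℝ).hasFDerivAt h1
  rw [h2.fderiv]
  rfl

omit [CompleteSpace W] in
theorem CT_slice_c1 (T : W →L[ℂ] ℂ) (j : Fin n) {f : E n → W} (hf : ContDiff ℝ ∞ f) (z : E n) :
    ContDiff ℝ 1 fun w : ℂ => T (f (z + Pi.single j w)) := by
  have h0 : ContDiff ℝ 1 fun w : ℂ => z + (Pi.single j w : E n) :=
    contDiff_const.add (CT_s j).contDiff
  have h1 : ContDiff ℝ 1 fun w : ℂ => f (z + Pi.single j w) :=
    ContDiff.comp (g := f) (hf.of_le (by simp)) h0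
  exact ContDiff.comp (g := T.restrictScalars ℝ) (T.restrictScalars ℝ).contDiff h1

theorem cT_pzb (j : Fin n) {f : E n → W} (hf : ContDiff ℝ ∞ f) (hc : HasCompactSupport f) :
    cT j (pzb j f) = f := by
  funext z
  refine (SeparatingDual.eq_iff_forall_dual_eq (R := ℂ)).2 fun T => ?_
  have h0 : HasCompactSupport fun w : ℂ => f (z + Pi.single j w) :=
    hc.comp_isClosedEmbedding (CT_iso j z).isClosedEmbedding
  have h4 : HasCompactSupport fun w : ℂ => T (f (z + Pi.single j w)) :=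
    h0.mono fun y hy h => hy (by simp only [h, map_zero])
  have h1 := cauchy_pompeiu (CT_slice_c1 T j hf z) h4
  rw [CT_map T j (CT_pzb_cont j hf) (CT_pzb_supp j hc), cT]
  have h2 : (fun w : ℂ => w⁻¹ • T (pzb j f (z + Pi.single j w))) = fun w : ℂ => w⁻¹ *
      ((fderiv ℝ (fun w : ℂ => T (f (z + Pi.single j w))) w 1 +
        I * fderiv ℝ (fun w : ℂ => T (f (z + Pi.single j w))) w I) / 2) := by
    funext w
    rw [CT_slice T j hf, CT_slice T j hf, pzb, map_smul, map_add, map_smul]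
    simp only [smul_eq_mul]
    ring
  have h3 : (Real.pi : ℂ) ≠ 0 := ofReal_ne_zero.2 Real.pi_ne_zero
  rw [h2, h1, Pi.single_zero, add_zero, smul_eq_mul]
  field_simp

theorem cT_map {W' : Type} [NormedAddCommGroup W'] [NormedSpace ℂ W'] [CompleteSpace W']
    (T : W →L[ℂ] W') (j : Fin n) {f : E n → W} (hf : Continuous f) (hc : HasCompactSupport f)
    (z : E n) : T (cT j f z) = cT j (fun w => T (f w)) z :=
  CT_map T j hf hc z

theorem cT_eq_zero (j : Fin n) {f : E n → W} {z : E n}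
    (h : ∀ w : ℂ, f (z + Pi.single j w) = 0) : cT j f z = 0 := by
  simp only [cT, h, smul_zero, integral_zero]

end

end Pool.Agent.MP_1c689d_ag.K0

end

section

/-! The lemma of Dolbeault and Grothendieck near products of compact sets. -/

set_option autoImplicit false

open Complex Filter Topology Set MeasureTheory
open scoped ComplexConjugate ContDiff ENNReal

namespace Pool.Agent.MP_1c689d_ag.K0

noncomputable section

variable {n : ℕ}

/-- The contraction with the coordinate of `dzb j`. -/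
abbrev DG_c (j : Fin n) : Λ n →ₗ[ℂ] Λ n := ctr ((bV n).coord (toLex (Sum.inr j)))

theorem DG_cc (j k : Fin n) {a : Λ n} (h : j = k ∨ DG_c j a = 0) : DG_c j (DG_c k a) = 0 := by
  rcases h with rfl | h
  · exact CliffordAlgebra.contractLeft_contractLeft (Q := (0 : QuadraticForm ℂ (V n))) _ a
  · refine (CliffordAlgebra.contractLeft_comm (Q := (0 : QuadraticForm ℂ (V n))) _ _ a).trans ?_
    exact neg_eq_zero.2 ((congrArg (DG_c k) h).trans (map_zero _))

theorem DG_pzb_zero {W : Type} [NormedAddCommGroup W] [NormedSpace ℂ W] {f : E n → W} {z : E n}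
    (h : ∀ᶠ w in 𝓝 z, f w = 0) (j : Fin n) : pzb j f z = 0 := by
  rw [pzb, EventuallyEq.fderiv_eq (f := fun _ => 0) h]
  simp

theorem DG_ctr {α : E n → Λ n} {z : E n} {j : Fin n} (h : DifferentiableAt ℝ α z)
    (h0 : ∀ᶠ w in 𝓝 z, DG_c j (α w) = 0) : DG_c j (dbE α z) = pzb j α z := by
  have k : ∀ l, DG_c j (pzb l α z) = 0 := fun l =>
    (DFb_pzb (DG_c j) (Or.inl h) l).symm.trans (DG_pzb_zero h0 l)
  simp only [dbE, map_sum, EA1_rr, k, mul_zero, sub_zero, Finset.sum_ite_eq', Finset.mem_univ,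
    if_true]

theorem DG_line {W : Type} [NormedAddCommGroup W] [NormedSpace ℂ W] {F G : E n → W} {z : E n}
    {l : Fin n} (hF : DifferentiableAt ℝ F z) (hG : DifferentiableAt ℝ G z)
    (h : ∀ᶠ t in 𝓝 (0 : ℂ), F (z + Pi.single l t) = G (z + Pi.single l t)) :
    pzb l F z = pzb l G z := by
  have k : ∀ v : ℂ, fderiv ℝ F z (Pi.single l v) = fderiv ℝ G z (Pi.single l v) := fun v => by
    rw [← hF.lineDeriv_eq_fderiv, ← hG.lineDeriv_eq_fderiv]
    refine EventuallyEq.deriv_eq ?_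
    have k1 : Tendsto (fun t : ℝ => t • v) (𝓝 0) (𝓝 0) :=
      (continuous_id.smul continuous_const).tendsto' 0 0 (zero_smul ℝ v)
    filter_upwards [k1.eventually h] with t ht
    rwa [Pi.single_smul'] at ht
  rw [pzb, pzb, k, k]

theorem DG_smul {F G : E n → Λ n} {z : E n} {l : Fin n} {c : ℂ} (hF : DifferentiableAt ℝ F z)
    (hG : DifferentiableAt ℝ G z) (h0 : pzb l G z = 0)
    (h : ∀ᶠ t in 𝓝 (0 : ℂ), F (z + Pi.single l t) = c • G (z + Pi.single l t)) :
    pzb l F z = 0 := by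
  have k := DFb_pzb (LinearMap.lsmul ℂ (Λ n) c) (Or.inl hG) l
  rw [h0, map_zero] at k
  exact (DG_line hF (DF_lin _ hG) h).trans k

theorem DG_cut {K : Fin n → Set ℂ} (hK : ∀ j, IsCompact (K j)) {U : Set (E n)} (hU : IsOpen U)
    (h : Set.pi univ K ⊆ U) : ∃ (χ : E n → ℂ) (L O : Set (E n)), ContDiff ℝ ∞ χ ∧ IsCompact L ∧
      L ⊆ U ∧ (∀ z ∉ L, χ z = 0) ∧ IsOpen O ∧ Set.pi univ K ⊆ O ∧ (∀ z ∈ O, χ z = 1) ∧
      ∀ z ∈ O, ∀ k l : Fin n, k ≠ l → ∀ w : ℂ, ∀ᶠ t in 𝓝 (0 : ℂ),
        χ (z + Pi.single k w + Pi.single l t) = χ (z + Pi.single k w) := by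
  obtain ⟨δ, h0, h1⟩ := (isCompact_univ_pi hK).exists_thickening_subset_open hU h
  have k := fun j => exists_contMDiffMap_one_nhds_of_subset_interior (modelWithCornersSelf ℝ ℂ)
    (n := ⊤) (hK j).isClosed ((Metric.self_subset_thickening (half_pos h0) _).trans
      (Metric.thickening_subset_interior_cthickening _ _))
  choose f f1 f2 _ using k
  choose O O1 O2 O3 using fun j => eventually_nhdsSet_iff_exists.1 (f1 j)
  refine ⟨fun z => ∏ j, (f j (z j) : ℂ), Set.pi univ fun j => Metric.cthickening (δ / 2) (K j),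
    Set.pi univ O, contDiff_prod fun j _ => ofRealCLM.contDiff.comp
      ((f j).contMDiff.contDiff.comp (contDiff_apply ℝ ℂ j)),
    isCompact_univ_pi fun j => (hK j).cthickening, fun z hz => h1 ?_, fun z hz => ?_,
    isOpen_set_pi finite_univ fun j _ => O1 j, Set.pi_mono fun j _ => O2 j, fun z hz => ?_,
    fun z hz k l hkl w => ?_⟩
  · choose y y1 y2 using fun j => Metric.mem_thickening_iff.1
      (Metric.cthickening_subset_thickening' h0 (half_lt_self h0) _ (hz j (mem_univ j)))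
    exact Metric.mem_thickening_iff.2 ⟨y, fun j _ => y1 j, (dist_pi_lt_iff h0).2 y2⟩
  · obtain ⟨j, hj⟩ := not_forall.1 fun e => hz (Set.mem_univ_pi.2 e)
    exact Finset.prod_eq_zero (Finset.mem_univ j) (by rw [f2 j _ hj, ofReal_zero])
  · exact Finset.prod_eq_one fun j _ => by rw [O3 j _ (hz j (mem_univ j)), ofReal_one]
  · have k1 : Tendsto (fun t : ℂ => z l + t) (𝓝 0) (𝓝 (z l)) :=
      (continuous_const.add continuous_id).tendsto' 0 _ (add_zero _)
    filter_upwards [k1.eventually ((O1 l).eventually_mem (hz l (mem_univ l)))] with t ht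
    refine Finset.prod_congr rfl fun j _ => ?_
    rcases eq_or_ne j l with rfl | e
    · rw [Pi.add_apply, Pi.add_apply, Pi.single_eq_same, Pi.single_eq_of_ne hkl.symm, add_zero,
        O3 j _ ht, O3 j _ (hz j (mem_univ j))]
    · rw [Pi.add_apply, Pi.single_eq_of_ne e, add_zero]

theorem DG_step {K : Fin n → Set ℂ} (hK : ∀ j, IsCompact (K j)) {p q : ℕ} {α : E n → Λ n}
    (k : Fin n)
    (hα : ∀ᶠ z in 𝓝ˢ (Set.pi univ K), ContDiffAt ℝ ∞ α z ∧ α z ∈ Tp n p (q + 1) ∧ dbE α z = 0)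
    (hc : ∀ᶠ z in 𝓝ˢ (Set.pi univ K), ∀ j, k < j → DG_c j (α z) = 0) :
    ∃ β : E n → Λ n, ContDiff ℝ ∞ β ∧ (∀ z, β z ∈ Tp n p q) ∧
      ∀ᶠ z in 𝓝ˢ (Set.pi univ K), ∀ j, k ≤ j → DG_c j (α z - dbE β z) = 0 := by
  obtain ⟨U, U1, U2, U3⟩ := eventually_nhdsSet_iff_exists.1 (hα.and hc)
  obtain ⟨χ, L, O, c1, c2, c3, c4, c5, c6, c7, c8⟩ := DG_cut hK U1 U2
  have cd : ∀ (T : Λ n →ₗ[ℂ] Λ n) (F : E n → Λ n), Continuous F → HasCompactSupport F → ∀ z,
      T (cT k F z) = cT k (fun w => T (F w)) z := fun T F h1 h2 z =>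
    cT_map (LinearMap.toContinuousLinearMap T) k h1 h2 z
  have g1 : ∀ z ∈ U, ContDiffAt ℝ ∞ (fun w => DG_c k (α w)) z := fun z hz =>
    (MF2b_lin (DG_c k)).contDiffAt.comp z (U3 z hz).1.1
  have g2 : ∀ z ∈ U, ∀ l, k < l → pzb l (fun w => DG_c k (α w)) z = 0 := fun z hz l hl => by
    have d := (U3 z hz).1.1.differentiableAt (by simp)
    rw [DFb_pzb _ (Or.inl d), ← DG_ctr d ((U1.eventually_mem hz).mono fun w hw => (U3 w hw).2 l hl),
      (U3 z hz).1.2.2, map_zero, map_zero]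
  obtain ⟨f, hf⟩ : ∃ f : E n → Λ n, f = fun z => χ z • DG_c k (α z) := ⟨_, rfl⟩
  have fz : ∀ z, f z = χ z • DG_c k (α z) := congrFun hf
  have f0 : ∀ z ∉ L, f z = 0 := fun z hz => by rw [fz, c4 z hz, zero_smul]
  have f0' : ∀ z ∉ L, ∀ᶠ w in 𝓝 z, f w = 0 := fun z hz =>
    (c2.isClosed.isOpen_compl.eventually_mem hz).mono f0
  have f1 : ContDiff ℝ ∞ f := contDiff_iff_contDiffAt.2 fun z => by
    by_cases hz : z ∈ L
    · exact hf ▸ c1.contDiffAt.smul (g1 z (c3 hz))
    · exact contDiffAt_const.congr_of_eventuallyEq (f0' z hz)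
  have f2 : HasCompactSupport f := HasCompactSupport.intro c2 f0
  have f3 : ∀ S : Submodule ℂ (Λ n), (∀ z ∈ U, DG_c k (α z) ∈ S) → ∀ z, f z ∈ S := fun S h z => by
    by_cases hz : z ∈ L
    · exact fz z ▸ S.smul_mem _ (h z (c3 hz))
    · exact f0 z hz ▸ S.zero_mem
  have b1 := contDiff_cT k f1 f2
  refine ⟨cT k f, b1, fun z => ?_, eventually_nhdsSet_iff_exists.2
    ⟨U ∩ O, U1.inter c5, subset_inter U2 c6, fun z hz j hj => ?_⟩⟩
  · have e : (fun w => prj p q (f w)) = f :=
      funext fun w => prj_of_mem (f3 _ (fun z hz => ctr_Tp_right k (U3 z hz).1.2.1) w)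
    rw [← e, ← cd _ f f1.continuous f2]
    exact prj_mem _
  have e : ∀ w, DG_c j (cT k f w) = 0 := fun w => by
    rw [cd _ f f1.continuous f2]
    exact cT_eq_zero k fun _ => f3 (LinearMap.ker (DG_c j))
      (fun z hz => DG_cc j k (hj.eq_or_lt.imp Eq.symm ((U3 z hz).2 j))) _
  rw [map_sub, DG_ctr (b1.differentiable (by simp) z) (Eventually.of_forall e), pzb_cT k j f1 f2,
    sub_eq_zero]
  rcases hj.eq_or_lt with rfl | hj
  · rw [cT_pzb k f1 f2, fz, c7 z hz.2, one_smul]
  · rw [(U3 z hz.1).2 j hj, cT_eq_zero k fun w => ?_]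
    by_cases hw : z + Pi.single k w ∈ L
    · exact DG_smul (f1.differentiable (by simp) _) ((g1 _ (c3 hw)).differentiableAt (by simp))
        (g2 _ (c3 hw) j hj) ((c8 z hz.2 k j hj.ne w).mono fun t ht => by rw [fz, ht])
    · exact DG_pzb_zero (f0' _ hw) j

theorem DG_ind {K : Fin n → Set ℂ} (hK : ∀ j, IsCompact (K j)) {p q : ℕ} (k : ℕ) {α : E n → Λ n}
    (hα : ∀ᶠ z in 𝓝ˢ (Set.pi univ K), ContDiffAt ℝ ∞ α z ∧ α z ∈ Tp n p (q + 1) ∧ dbE α z = 0)
    (hc : ∀ᶠ z in 𝓝ˢ (Set.pi univ K), ∀ j : Fin n, k ≤ j → DG_c j (α z) = 0) :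
    ∃ β : E n → Λ n, ContDiff ℝ ∞ β ∧ (∀ z, β z ∈ Tp n p q) ∧
      ∀ᶠ z in 𝓝ˢ (Set.pi univ K), dbE β z = α z := by
  induction k generalizing α with
  | zero =>
    refine ⟨fun _ => 0, contDiff_const, fun _ => zero_mem _, ?_⟩
    filter_upwards [hα, hc] with z h1 h2
    have h3 := sum_dzb_ctr h1.2.1
    rw [Finset.sum_eq_zero fun j _ => by rw [h2 j (Nat.zero_le _), mul_zero], eq_comm,
      smul_eq_zero] at h3
    rw [dbE_const, h3.resolve_left (Nat.cast_ne_zero.2 q.succ_ne_zero)]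
  | succ k ih =>
    by_cases hk : k < n
    swap
    · exact ih hα (Eventually.of_forall fun z j hj => absurd (hj.trans_lt j.2) hk)
    obtain ⟨β, b1, b2, b3⟩ := DG_step hK ⟨k, hk⟩ hα hc
    obtain ⟨γ, c1, c2, c3⟩ := ih (α := α + (-1 : ℂ) • dbE β) (hα.mono fun z h => by
      have d := contDiffAt_dbE (b1.contDiffAt (x := z))
      refine ⟨h.1.add (d.const_smul (-1 : ℂ)), add_mem h.2.1
        (Submodule.smul_mem _ _ (dbE_Tp (Eventually.of_forall b2))), ?_⟩
      rw [dbE_add (h.1.differentiableAt (by simp)) ((d.differentiableAt (by simp)).const_smul _),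
        dbE_smul, h.2.2, dbE_dbE (b1.contDiffAt.of_le (by norm_cast)), smul_zero, add_zero])
      (b3.mono fun z h j hj => by
        rw [neg_one_smul, ← sub_eq_add_neg]
        exact h j hj)
    refine ⟨β + γ, b1.add c1, fun z => add_mem (b2 z) (c2 z), c3.mono fun z h => ?_⟩
    rw [dbE_add (b1.differentiable (by simp) z) (c1.differentiable (by simp) z), h, neg_one_smul,
      Pi.add_apply, Pi.neg_apply, add_comm, neg_add_cancel_right]

/-- Induction on the largest `k` such that `dzb k` occurs in `α` (that is, `ctr` with the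
coordinate `inr k` does not kill `α`). If only `dzb j`, `j ≤ k`, occur, write `α = dzb k * g + h`;
`g` is holomorphic in the variables `l > k`; multiply by a product of cut-offs `χ j (z j)` that are
one near `K j`, apply `cT k`, and subtract `∂ bar` of the result. -/
theorem dolbeault {K : Fin n → Set ℂ} (hK : ∀ j, IsCompact (K j)) {p q : ℕ} {α : E n → Λ n}
    (hα : ∀ᶠ z in 𝓝ˢ (Set.pi univ K), ContDiffAt ℝ ∞ α z ∧ α z ∈ Tp n p (q + 1) ∧ dbE α z = 0) :
    ∃ β : E n → Λ n, ContDiff ℝ ∞ β ∧ (∀ z, β z ∈ Tp n p q) ∧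
      ∀ᶠ z in 𝓝ˢ (Set.pi univ K), dbE β z = α z := by
  exact DG_ind hK n hα (Eventually.of_forall fun z j hj => absurd j.2 hj.not_gt)

/-- The local version on a manifold. -/
theorem dolbeault_at {X : Type} [TopologicalSpace X] [Mf n X] {G : Ga X} {x : X} (hG : GOk G x)
    {p q : ℕ} {α : Fm n X} (hα : SmAt G α x) (ht : ∀ᶠ y in 𝓝 x, α y ∈ Tp n p (q + 1))
    (h0 : ∀ᶠ y in 𝓝 x, dbar G α y = 0) :
    ∃ β : Fm n X, SmAt G β x ∧ Ty p q β ∧ ∀ᶠ y in 𝓝 x, dbar G β y = α y := by
  obtain ⟨a, ha⟩ : ∃ a : Fm n X, a = fun y => (G x y)⁻¹ • α y := ⟨_, rfl⟩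
  have a1 : SmAt 1 a x := ha ▸ smAt_iff_one.1 hα
  have a2 : dbar 1 a =ᶠ[𝓝 x] 0 := by
    filter_upwards [dbar_frame hG hα, h0, hG.ne] with y k1 k2 k3
    rw [k2, eq_comm, smul_eq_zero, ← ha] at k1
    exact k1.resolve_left k3
  obtain ⟨γ, c1, c2, c3⟩ := dolbeault (K := fun j => {ch n x x j}) (fun _ => isCompact_singleton)
    (p := p) (q := q) (α := rep x a) (by
      rw [univ_pi_singleton, nhdsSet_singleton]
      filter_upwards [MF3b_sm.1 a1, MF3b_Tp (c := fun y => (G x y)⁻¹) ht, MF3b_rdb a1,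
        MF3a_rep_congr a2] with z k1 k2 k3 k4
      exact ⟨k1, ha ▸ k2, by rw [← k3, k4, rep, pb_zero, Pi.zero_apply]⟩)
  rw [univ_pi_singleton, nhdsSet_singleton] at c3
  have s1 : ∀ᶠ y in 𝓝 x, y ∈ (ch n x).source := (ch n x).open_source.eventually_mem MF2_src
  have s2 : ∀ z, SmAt 1 γ z := fun z => smAt_E.2 (Eventually.of_forall fun _ => c1.contDiffAt)
  have e : (fun y => (G x y)⁻¹ • prj p q (G x y • pb (ch n x) γ y)) =ᶠ[𝓝 x] pb (ch n x) γ := by
    filter_upwards [s1, hG.ne] with y k1 k2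
    rw [map_smul, inv_smul_smul₀ k2, prj_of_mem (pb_Tp ((isCh_ch x).1 y k1) (c2 _))]
  have b1 : SmAt G (fun y => prj p q (G x y • pb (ch n x) γ y)) x :=
    smAt_iff_one.2 (SmAt.congr (gpb_one (ch n x) ▸ (s2 _).pb ((isCh_ch x).1 x MF2_src)) e.symm)
  refine ⟨_, b1, fun _ => prj_mem _, ?_⟩
  filter_upwards [dbar_frame hG b1, e.eventuallyEq_nhds, s1, hG.ne,
    ((ch n x).continuousAt MF2_src).eventually c3] with y k1 k2 k3 k4 k5
  rw [k1, dbar_congr k2, ← gpb_one (ch n x), ← pb_dbar ((isCh_ch x).1 y k3) (s2 _), dbar_E,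
    pb_congr EventuallyEq.rfl k5, rep, pb_chart (isCh_ch x) k3, ha, smul_inv_smul₀ k4]

end

end Pool.Agent.MP_1c689d_ag.K0

end

section

/-! The equation `∂ bar u = f` with compact support. -/

set_option autoImplicit false

open Complex Filter Topology Set MeasureTheory
open scoped ComplexConjugate ContDiff ENNReal

namespace Pool.Agent.MP_1c689d_ag.K0

noncomputable section

variable {n : ℕ}

/-- The contraction with the dual of `dzb j`. -/
abbrev CSD_c (j : Fin n) : Λ n →ₗ[ℂ] Λ n := ctr ((bV n).coord (toLex (Sum.inr j)))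

theorem CSD_sm (L : Λ n →ₗ[ℂ] Λ n) {f : E n → Λ n} (hf : ContDiff ℝ ∞ f) :
    ContDiff ℝ ∞ fun w => L (f w) :=
  ((LinearMap.toContinuousLinearMap L).restrictScalars ℝ).contDiff.comp hf

theorem CSD_cs (L : Λ n →ₗ[ℂ] Λ n) {f : E n → Λ n} (hf : HasCompactSupport f) :
    HasCompactSupport fun w => L (f w) :=
  hf.comp_left (g := L) (map_zero L)

theorem CSD_db_sm {f : E n → Λ n} (hf : ContDiff ℝ ∞ f) : ContDiff ℝ ∞ (dbE f) :=
  contDiff_iff_contDiffAt.2 fun _ => contDiffAt_dbE hf.contDiffAt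

theorem CSD_db_zero {f : E n → Λ n} {z : E n} (h : ∀ᶠ w in 𝓝 z, f w = 0) : dbE f z = 0 := by
  rw [dbE_congr (β := fun _ => 0) h, dbE_const]

theorem CSD_db_cs {f : E n → Λ n} (hc : HasCompactSupport f) : HasCompactSupport (dbE f) :=
  HasCompactSupport.intro hc fun _ hz => CSD_db_zero (notMem_tsupport_iff_eventuallyEq.1 hz)

theorem CSD_pzb_cont (l : Fin n) {f : E n → Λ n} (hf : ContDiff ℝ ∞ f) : Continuous (pzb l f) := by
  have h := hf.continuous_fderiv (by simp)
  exact ((h.clm_apply continuous_const).add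
    ((h.clm_apply continuous_const).const_smul I)).const_smul (1 / 2 : ℂ)

theorem CSD_add (j : Fin n) {f g : E n → Λ n} (hf : Continuous f) (hfc : HasCompactSupport f)
    (hg : Continuous g) (hgc : HasCompactSupport g) (z : E n) :
    cT j (fun w => f w + g w) z = cT j f z + cT j g z := by
  have hF : Continuous fun w => (f w, g w) := hf.prodMk hg
  have hFc : HasCompactSupport fun w => (f w, g w) :=
    HasCompactSupport.intro (hfc.union hgc) fun w hw => by
      rw [mem_union, not_or] at hw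
      rw [image_eq_zero_of_notMem_tsupport hw.1, image_eq_zero_of_notMem_tsupport hw.2]
      rfl
  have h1 := cT_map (ContinuousLinearMap.fst ℂ (Λ n) (Λ n)) j hF hFc z
  have h2 := cT_map (ContinuousLinearMap.snd ℂ (Λ n) (Λ n)) j hF hFc z
  have h3 := cT_map (ContinuousLinearMap.fst ℂ (Λ n) (Λ n) + ContinuousLinearMap.snd ℂ (Λ n) (Λ n))
    j hF hFc z
  exact h3.symm.trans (congrArg₂ (· + ·) h1 h2)

theorem CSD_lin (L : Λ n →ₗ[ℂ] Λ n) (j : Fin n) {f : E n → Λ n} (hf : Continuous f)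
    (hc : HasCompactSupport f) (z : E n) : L (cT j f z) = cT j (fun w => L (f w)) z :=
  cT_map (LinearMap.toContinuousLinearMap L) j hf hc z

theorem CSD_Tp (j : Fin n) {f : E n → Λ n} (hf : Continuous f) (hc : HasCompactSupport f)
    {p q : ℕ} (ht : ∀ w, f w ∈ Tp n p q) (z : E n) : cT j f z ∈ Tp n p q := by
  have h := CSD_lin (prj p q) j hf hc z
  simp only [prj_of_mem (ht _)] at h
  have h' : prj p q (cT j f z) = cT j f z := h
  rw [← h']
  exact prj_mem _

theorem CSD_db_cT (j : Fin n) {g : E n → Λ n} (hg : ContDiff ℝ ∞ g) (hc : HasCompactSupport g)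
    (z : E n) : dbE (cT j g) z = cT j (dbE g) z := by
  have hF : Continuous fun w => (fun l => pzb l g w : Fin n → Λ n) :=
    continuous_pi fun l => CSD_pzb_cont l hg
  have hFc : HasCompactSupport fun w => (fun l => pzb l g w : Fin n → Λ n) :=
    HasCompactSupport.intro hc fun z hz => by
      have h : g =ᶠ[𝓝 z] fun _ => 0 := notMem_tsupport_iff_eventuallyEq.1 hz
      funext l
      simp [pzb, h.fderiv_eq]
  have h1 := fun l => cT_map (ContinuousLinearMap.proj (R := ℂ) (φ := fun _ : Fin n => Λ n) l)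
    j hF hFc z
  have h2 := cT_map (∑ l : Fin n, (ContinuousLinearMap.mul ℂ (Λ n) (dzb l)).comp
    (ContinuousLinearMap.proj (R := ℂ) (φ := fun _ : Fin n => Λ n) l)) j hF hFc z
  simp only [sum_apply, ContinuousLinearMap.comp_apply, ContinuousLinearMap.mul_apply',
    ContinuousLinearMap.proj_apply] at h1 h2
  simp only [h1] at h2
  unfold dbE
  simp only [pzb_cT j _ hg hc]
  exact h2

theorem CSD_c_db (j : Fin n) {f : E n → Λ n} {z : E n} (hf : DifferentiableAt ℝ f z) :
    dbE (fun w => CSD_c j (f w)) z + CSD_c j (dbE f z) = pzb j f z := by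
  unfold dbE
  simp only [DFb_pzb (CSD_c j) (Or.inl hf), map_sum, EA1_rr, Finset.sum_sub_distrib,
    Finset.sum_ite_eq', Finset.mem_univ, if_true]
  abel

/-- The homotopy formula. -/
theorem CSD_hom (j : Fin n) {f : E n → Λ n} (hf : ContDiff ℝ ∞ f) (hc : HasCompactSupport f)
    (z : E n) : dbE (cT j fun w => CSD_c j (f w)) z + cT j (fun w => CSD_c j (dbE f w)) z = f z := by
  rw [CSD_db_cT j (CSD_sm _ hf) (CSD_cs _ hc), ← CSD_add j (CSD_db_sm (CSD_sm _ hf)).continuous
    (CSD_db_cs (CSD_cs _ hc)) (CSD_sm _ (CSD_db_sm hf)).continuous (CSD_cs _ (CSD_db_cs hc))]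
  simp only [CSD_c_db j (hf.differentiable (by simp) _)]
  exact congrFun (cT_pzb j hf hc) z

theorem CSD_pzb (j : Fin n) {f : E n → Λ n} {z : E n} (hf : DifferentiableAt ℝ f z) {p : ℕ}
    (ht : ∀ w, f w ∈ Tp n p 0) : pzb j f z = CSD_c j (dbE f z) := by
  rw [← CSD_c_db j hf]
  simp only [ctr_Tp_right_zero j (ht _), dbE_const, zero_add]

/-- The identity theorem along a coordinate line. -/
theorem CSD_line (k : Fin n) {f : E n → Λ n} (hf : Differentiable ℝ f) {z : E n} {c : ℂ} {R : ℝ}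
    (h1 : ∀ t : ℂ, pzb k f (z + Pi.single k t) = 0)
    (h2 : ∀ t : ℂ, R < dist (z k + t) c → f (z + Pi.single k t) = 0) : f z = 0 := by
  have hd : Differentiable ℂ fun t : ℂ => f (z + Pi.single k t) := by
    intro t
    have a1 : HasFDerivAt (fun t : ℂ => z + Pi.single k t)
        (ContinuousLinearMap.single ℝ (fun _ : Fin n => ℂ) k) t :=
      (ContinuousLinearMap.single ℝ (fun _ : Fin n => ℂ) k).hasFDerivAt.const_add z
    have a2 := (hf (z + Pi.single k t)).hasFDerivAt.comp t a1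
    refine differentiableAt_complex_iff_differentiableAt_real.2 ⟨a2.differentiableAt, ?_⟩
    have a3 : fderiv ℝ (fun t : ℂ => f (z + Pi.single k t)) t = _ := a2.fderiv
    rw [a3]
    have a4 := eq_neg_of_add_eq_zero_left ((smul_eq_zero.1 (h1 t)).resolve_left (by norm_num))
    simp only [ContinuousLinearMap.comp_apply, ContinuousLinearMap.single_apply]
    rw [a4, smul_neg, smul_smul, I_mul_I, neg_one_smul, neg_neg]
  have ho : IsOpen {t : ℂ | R < dist (z k + t) c} := isOpen_lt continuous_const (by fun_prop)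
  have hm : (c - z k + ((|R| + 1 : ℝ) : ℂ)) ∈ {t : ℂ | R < dist (z k + t) c} := by
    have : z k + (c - z k + ((|R| + 1 : ℝ) : ℂ)) - c = ((|R| + 1 : ℝ) : ℂ) := by ring
    rw [mem_ofPred_eq, dist_eq_norm, this, norm_real, Real.norm_eq_abs]
    linarith [le_abs_self R, le_abs_self (|R| + 1)]
  have ha := hd.differentiableOn.analyticOnNhd isOpen_univ
  have h3 := ha.eqOn_zero_of_preconnected_of_eventuallyEq_zero isPreconnected_univ
    (mem_univ _) ((ho.eventually_mem hm).mono fun t ht => h2 t ht)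
  simpa using h3 (mem_univ 0)

theorem CSD_out {α : E n → Λ n} {a : E n} {r : ℝ} (hs : tsupport α ⊆ Metric.closedBall a r)
    {w : E n} (k : Fin n) (h : r < dist (w k) (a k)) : α w = 0 :=
  image_eq_zero_of_notMem_tsupport fun hw =>
    not_le.2 h ((dist_le_pi_dist w a k).trans (hs hw))

theorem CSD_ne {j k : Fin n} (h : k ≠ j) (z : E n) (t : ℂ) :
    (z + Pi.single j t : E n) k = z k := by
  simp [Pi.single_eq_of_ne h]

theorem CSD_pzb_coord {φ : ℂ → ℂ} (hφ : Differentiable ℝ φ) {i j : Fin n} (h : i ≠ j) (z : E n) :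
    pzb j (fun w : E n => φ (w i)) z = 0 := by
  have a : fderiv ℝ (fun w : E n => φ (w i)) z = _ :=
    ((hφ (z i)).hasFDerivAt.comp z (hasFDerivAt_apply (𝕜 := ℝ) i z)).fderiv
  simp [pzb, a, Pi.single_eq_of_ne h]

end

end Pool.Agent.MP_1c689d_ag.K0

end
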