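import Pool.Agent.Mg.F1c689d.G932365
import Pool.Agent.Mg.F1c689d.G8d4c98
import Pool.Agent.Mg.F1c689d.G250ab3
import Pool.Agent.Mg.F1c689d.G74563b

set_option linter.all false


section

/-! Smoothness of the solutions of pointwise linear systems. -/

set_option autoImplicit false

open Complex Filter Topology Set MeasureTheory
open scoped ComplexConjugate ContDiff ENNReal

namespace Pool.Agent.MP_1c689d_ag.K0

noncomputable section

variable {n : ℕ} {X : Type} [TopologicalSpace X] [Mf n X]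

section Abstract

variable {Z U W : Type} [NormedAddCommGroup Z] [NormedSpace ℝ Z] [NormedAddCommGroup U]
  [NormedSpace ℝ U] [FiniteDimensional ℝ U] [NormedAddCommGroup W] [NormedSpace ℝ W]
  [FiniteDimensional ℝ W] {z₀ : Z}

theorem SMI_core {M : Z → U →L[ℝ] U} {g : Z → U} (hM : ∀ᶠ z in 𝓝 z₀, ContDiffAt ℝ ∞ M z)
    (h1 : M z₀ = 1) (hg : ∀ᶠ z in 𝓝 z₀, ContDiffAt ℝ ∞ g z) :
    ∃ u : Z → U, (∀ᶠ z in 𝓝 z₀, ContDiffAt ℝ ∞ u z) ∧
      ∀ᶠ z in 𝓝 z₀, ∀ v, M z v = g z ↔ v = u z := by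
  have : CompleteSpace U := FiniteDimensional.complete ℝ U
  have h0 : M z₀ ∈ {x : U →L[ℝ] U | IsUnit x} := by
    rw [h1]
    exact isUnit_one
  have hu : ∀ᶠ z in 𝓝 z₀, IsUnit (M z) :=
    hM.self_of_nhds.continuousAt.eventually (Units.isOpen.mem_nhds h0)
  refine ⟨fun z => Ring.inverse (M z) (g z), ?_, ?_⟩
  · filter_upwards [hM, hg, hu] with z a b c
    obtain ⟨w, hw⟩ := c
    have h2 := contDiffAt_ringInverse ℝ (n := ∞) w
    rw [hw] at h2
    exact (h2.comp z a).clm_apply b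
  · filter_upwards [hu] with z c v
    constructor
    · intro h
      rw [← h, ← mul_apply_eq_comp, Ring.inverse_mul_cancel _ c]
      rfl
    · intro h
      rw [h, ← mul_apply_eq_comp, Ring.mul_inverse_cancel _ c]
      rfl

theorem SMI_left {A : Z → U →L[ℝ] W} (π : U →L[ℝ] U) {β : Z → U} {F : Z → W}
    (hA : ∀ᶠ z in 𝓝 z₀, ContDiffAt ℝ ∞ A z) (hF : ∀ᶠ z in 𝓝 z₀, ContDiffAt ℝ ∞ F z)
    (h : ∀ᶠ z in 𝓝 z₀, π (β z) = β z ∧ A z (β z) = F z)
    (inj : ∀ v, π v = v → A z₀ v = 0 → v = 0) : ∀ᶠ z in 𝓝 z₀, ContDiffAt ℝ ∞ β z := by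
  obtain ⟨g, hg⟩ := ((A z₀).prod (1 - π)).toLinearMap.exists_leftInverse_of_injective
    (LinearMap.ker_eq_bot'.2 fun v hv => by
      have h1 : A z₀ v = 0 := congrArg Prod.fst hv
      have h2 : v - π v = 0 := congrArg Prod.snd hv
      exact inj v (sub_eq_zero.1 h2).symm h1)
  let g' : (W × U) →L[ℝ] U := LinearMap.toContinuousLinearMap g
  obtain ⟨u, hu, hu'⟩ := SMI_core (z₀ := z₀)
    (M := fun z => (g'.comp (ContinuousLinearMap.inl ℝ W U)).comp (A z) +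
      (g'.comp (ContinuousLinearMap.inr ℝ W U)).comp (1 - π))
    (g := fun z => (g'.comp (ContinuousLinearMap.inl ℝ W U)) (F z))
    (hA.mono fun z hz => (contDiffAt_const.clm_comp hz).add contDiffAt_const)
    (by
      ext1 v
      have h1 : g (A z₀ v, v - π v) = v := LinearMap.congr_fun hg v
      have h2 : g (A z₀ v, 0) + g (0, v - π v) = v := by
        rw [← map_add, Prod.mk_add_mk, add_zero, zero_add, h1]
      exact h2)
    (hF.mono fun z hz => contDiffAt_const.clm_apply hz)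
  have e : β =ᶠ[𝓝 z₀] u := by
    filter_upwards [h, hu'] with z h1 h2
    refine (h2 _).1 ?_
    have h3 : g (A z (β z), 0) + g (0, β z - π (β z)) = g (F z, 0) := by
      rw [h1.1, h1.2, sub_self, Prod.mk_zero_zero, map_zero, add_zero]
    exact h3
  filter_upwards [hu, e.eventuallyEq_nhds] with z h1 h2 using h1.congr_of_eventuallyEq h2

omit [FiniteDimensional ℝ U] in
theorem SMI_right {A : Z → U →L[ℝ] W} (π : W →L[ℝ] W) {F : Z → W}
    (hA : ∀ᶠ z in 𝓝 z₀, ContDiffAt ℝ ∞ A z) (hF : ∀ᶠ z in 𝓝 z₀, ContDiffAt ℝ ∞ F z)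
    (hπ : ∀ w, π (π w) = π w) (h : ∀ᶠ z in 𝓝 z₀, π (F z) = F z ∧ ∀ v, π (A z v) = A z v)
    (surj : ∀ w, ∃ v, A z₀ v = π w) :
    ∃ b : Z → U, (∀ᶠ z in 𝓝 z₀, ContDiffAt ℝ ∞ b z) ∧ ∀ᶠ z in 𝓝 z₀, A z (b z) = F z := by
  obtain ⟨r, hr⟩ := ((A z₀).coprod (1 - π)).toLinearMap.exists_rightInverse_of_surjective
    (LinearMap.range_eq_top.2 fun w => by
      obtain ⟨v, hv⟩ := surj w
      refine ⟨(v, w), ?_⟩
      have h1 : A z₀ v + (w - π w) = w := by rw [hv, add_sub_cancel]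
      exact h1)
  let r' : W →L[ℝ] (U × W) := LinearMap.toContinuousLinearMap r
  obtain ⟨u, hu, hu'⟩ := SMI_core (z₀ := z₀)
    (M := fun z => (A z).comp ((ContinuousLinearMap.fst ℝ U W).comp r') +
      (1 - π).comp ((ContinuousLinearMap.snd ℝ U W).comp r'))
    (g := F) (hA.mono fun z hz => (hz.clm_comp contDiffAt_const).add contDiffAt_const)
    (by
      ext1 w
      exact LinearMap.congr_fun hr w) hF
  refine ⟨fun z => ((ContinuousLinearMap.fst ℝ U W).comp r') (u z),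
    hu.mono fun z hz => contDiffAt_const.clm_apply hz, ?_⟩
  filter_upwards [h, hu'] with z h1 h2
  have h3 : A z (r (u z)).1 + ((r (u z)).2 - π (r (u z)).2) = F z := (h2 _).2 rfl
  have h4 := congrArg π h3
  rw [map_add, map_sub, hπ, sub_self, add_zero, h1.1, h1.2] at h4
  exact h4

end Abstract

theorem SMI_B (n : ℕ) (ι κ : Type) [Fintype ι] [Fintype κ] :
    ∃ B : (κ → ι → Λ n) → (ι → Λ n) →L[ℝ] (κ → Λ n), ContDiff ℝ ∞ B ∧
      ∀ c b k, B c b k = ∑ i, c k i * b i := by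
  let L : (κ → ι → Λ n) →ₗ[ℝ] (ι → Λ n) →ₗ[ℝ] (κ → Λ n) :=
    LinearMap.mk₂ ℝ (fun c b k => ∑ i, c k i * b i)
      (fun c c' b => funext fun k => by
        simp only [Pi.add_apply, add_mul, Finset.sum_add_distrib])
      (fun x c b => funext fun k => by
        simp only [Pi.smul_apply, smul_mul_assoc, Finset.smul_sum])
      (fun c b b' => funext fun k => by
        simp only [Pi.add_apply, mul_add, Finset.sum_add_distrib])
      (fun x c b => funext fun k => by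
        simp only [Pi.smul_apply, mul_smul_comm, Finset.smul_sum])
  exact ⟨_, ContinuousLinearMap.contDiff (𝕜 := ℝ) (E := κ → ι → Λ n)
    (F := (ι → Λ n) →L[ℝ] (κ → Λ n)) (LinearMap.toContinuousLinearMap
    ((LinearMap.toContinuousLinearMap (𝕜 := ℝ) (E := ι → Λ n) (F' := κ → Λ n)).toLinearMap ∘ₗ L)),
    fun c b k => rfl⟩

theorem SMI_P (n : ℕ) {ι : Type} [Fintype ι] (t : ι → ℕ × ℕ) :
    ∃ π : (ι → Λ n) →L[ℝ] (ι → Λ n), ∀ b i, π b i = prj (t i).1 (t i).2 (b i) :=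
  ⟨ContinuousLinearMap.pi fun i =>
    ((LinearMap.toContinuousLinearMap (prj (t i).1 (t i).2 : Λ n →ₗ[ℂ] Λ n)).restrictScalars ℝ).comp
      (ContinuousLinearMap.proj i), fun _ _ => rfl⟩

theorem SMI_A {ι κ : Type} [Fintype ι] [Fintype κ] {p : X} {a : κ → ι → Fm n X}
    (ha : ∀ k i, SmAt 1 (a k i) p) :
    ∀ᶠ z in 𝓝 (ch n p p), ContDiffAt ℝ ∞ (fun z k i => pb (ch n p).symm (a k i) z) z := by
  filter_upwards [eventually_all.2 fun k => eventually_all.2 fun i => MF2b_iff.1 (ha k i)]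
    with z hz
  exact contDiffAt_pi.2 fun k => contDiffAt_pi.2 fun i => hz k i

theorem SMI_F {κ : Type} [Fintype κ] {p : X} {F : κ → Fm n X} (hF : ∀ k, SmAt 1 (F k) p) :
    ∀ᶠ z in 𝓝 (ch n p p), ContDiffAt ℝ ∞ (fun z k => pb (ch n p).symm (F k) z) z := by
  filter_upwards [eventually_all.2 fun k => MF2b_iff.1 (hF k)] with z hz
  exact contDiffAt_pi.2 fun k => hz k

theorem SMI_L1 {ι κ : Type} [Fintype ι] [Fintype κ] {p : X} (t : ι → ℕ × ℕ) (a : κ → ι → Fm n X)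
    (ha : ∀ k i, SmAt 1 (a k i) p) (β : ι → Fm n X)
    (hβ : ∀ i, ∀ᶠ y in 𝓝 p, β i y ∈ Tp n (t i).1 (t i).2) (F : κ → Fm n X)
    (hF : ∀ k, SmAt 1 (F k) p) (h : ∀ k, ∀ᶠ y in 𝓝 p, ∑ i, a k i y * β i y = F k y)
    (inj : ∀ b : ι → Λ n, (∀ i, b i ∈ Tp n (t i).1 (t i).2) → (∀ k, ∑ i, a k i p * b i = 0) →
      b = 0) (i : ι) : SmAt 1 (β i) p := by
  obtain ⟨B, hB0, hB⟩ := SMI_B n ι κ
  obtain ⟨π, hπ⟩ := SMI_P n t
  have h1 := SMI_left (z₀ := ch n p p) (A := fun z => B fun k i => pb (ch n p).symm (a k i) z) π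
    (β := fun z i => pb (ch n p).symm (β i) z) (F := fun z k => pb (ch n p).symm (F k) z)
    ((SMI_A ha).mono fun z hz => hB0.contDiffAt.comp z hz) (SMI_F hF) ?_ ?_
  · exact MF2b_iff.2 (h1.mono fun z hz => contDiffAt_pi.1 hz i)
  · filter_upwards [MF2b_target (p := p), MF2_ev.2 (eventually_all.2 hβ),
      MF2_ev.2 (eventually_all.2 h)] with z h1 h2 h3
    refine ⟨funext fun i => ?_, funext fun k => ?_⟩
    · rw [hπ]
      exact prj_of_mem (pb_Tp ((isCh_ch p).2 z h1) (h2 i))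
    · rw [hB]
      simp only [pb, ← h3 k, map_sum, map_mul]
  · intro v h1 h2
    refine inj v (fun i => ?_) fun k => ?_
    · rw [← h1, hπ]
      exact prj_mem _
    · have h3 := congrFun h2 k
      rw [hB] at h3
      refine Eq.trans (Finset.sum_congr rfl fun i _ => ?_) h3
      rw [← rep_self (a k i)]
      rfl

theorem SMI_R1 {ι κ : Type} [Fintype ι] [Fintype κ] {p : X} (t : ι → ℕ × ℕ) (s : κ → ℕ × ℕ)
    (a : κ → ι → Fm n X) (ha : ∀ k i, SmAt 1 (a k i) p)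
    (hat : ∀ k i, ∀ᶠ y in 𝓝 p, ∀ b ∈ Tp n (t i).1 (t i).2, a k i y * b ∈ Tp n (s k).1 (s k).2)
    (F : κ → Fm n X) (hF : ∀ k, SmAt 1 (F k) p)
    (hFt : ∀ k, ∀ᶠ y in 𝓝 p, F k y ∈ Tp n (s k).1 (s k).2)
    (surj : ∀ f : κ → Λ n, (∀ k, f k ∈ Tp n (s k).1 (s k).2) →
      ∃ b : ι → Λ n, (∀ i, b i ∈ Tp n (t i).1 (t i).2) ∧ ∀ k, ∑ i, a k i p * b i = f k) :
    ∃ β : ι → Fm n X, (∀ i, SmAt 1 (β i) p) ∧ (∀ i, Ty (t i).1 (t i).2 (β i)) ∧
      ∀ᶠ y in 𝓝 p, ∀ k, ∑ i, a k i y * β i y = F k y := by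
  obtain ⟨B, hB0, hB⟩ := SMI_B n ι κ
  obtain ⟨π, hπ⟩ := SMI_P n t
  obtain ⟨π', hπ'⟩ := SMI_P n s
  obtain ⟨b, hb, hb'⟩ := SMI_right (z₀ := ch n p p)
    (A := fun z => (B fun k i => pb (ch n p).symm (a k i) z).comp π) π'
    (F := fun z k => pb (ch n p).symm (F k) z)
    ((SMI_A ha).mono fun z hz => (hB0.contDiffAt.comp z hz).clm_comp contDiffAt_const)
    (SMI_F hF) (fun w => funext fun k => by rw [hπ', hπ', prj_of_mem (prj_mem _)])
    (by
      filter_upwards [MF2b_target (p := p), MF2_ev.2 (eventually_all.2 hFt),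
        MF2_ev.2 (eventually_all.2 fun k => eventually_all.2 (hat k))] with z h1 h2 h3
      refine ⟨funext fun k => ?_, fun v => funext fun k => ?_⟩
      · rw [hπ']
        exact prj_of_mem (pb_Tp ((isCh_ch p).2 z h1) (h2 k))
      · rw [hπ', ContinuousLinearMap.comp_apply, hB]
        refine prj_of_mem (Submodule.sum_mem _ fun i _ => ?_)
        have h4 : pb (ch n p) (fun _ => π v i) ((ch n p).symm z) ∈ Tp n (t i).1 (t i).2 :=
          pb_Tp ((isCh_ch p).1 _ ((ch n p).map_target h1)) (by rw [hπ]; exact prj_mem _)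
        have h5 := pb_Tp (α := a k i * pb (ch n p) fun _ => π v i) ((isCh_ch p).2 z h1)
          (h3 k i _ h4)
        rwa [pb_mul, Pi.mul_apply, pb_chart' (isCh_ch p) h1] at h5)
    (fun w => by
      obtain ⟨v, h1, h2⟩ := surj (π' w) fun k => by rw [hπ']; exact prj_mem _
      refine ⟨v, funext fun k => ?_⟩
      rw [ContinuousLinearMap.comp_apply, hB, ← h2 k]
      refine Finset.sum_congr rfl fun i _ => ?_
      rw [hπ, prj_of_mem (h1 i), ← rep_self (a k i)]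
      rfl)
  refine ⟨fun i => pf (t i).1 (t i).2 (pb (ch n p) fun z => b z i), fun i => ?_,
    fun i y => prj_mem _, ?_⟩
  · exact (MF2b_pb ((isCh_ch p).1 p MF2_src)
      (smAt_E.2 (hb.mono fun z hz => contDiffAt_pi.1 hz i))).pf _ _
  · filter_upwards [chart_source_mem_nhds (E n) p,
      ((ch n p).continuousAt MF2_src).eventually hb'] with y h1 h2 k
    have h3 := congrArg (lm (df (ch n p) y)) (congrFun h2 k)
    rw [ContinuousLinearMap.comp_apply, hB, map_sum] at h3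
    refine Eq.trans (Finset.sum_congr rfl fun i _ => ?_) (h3.trans (pb_chart (isCh_ch p) h1 _))
    rw [map_mul, hπ, ← pb_pf ((isCh_ch p).1 y h1), ← pb_chart (isCh_ch p) h1 (a k i)]
    rfl

/-- In the chart and the frames at `p` the system is a smooth family of linear maps `A y` from
`∏ T i`; compose with a left inverse `L` of `A p`; `L ∘ A y` is invertible near `p` and inversion is
smooth (`contDiffAt_ringInverse`). The subspaces `Tp` are preserved by holomorphic charts. -/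
theorem smAt_of_solve {ι κ : Type} [Fintype ι] [Fintype κ] {p : X} (G : ι → Ga X)
    (G' : κ → Ga X) (H : κ → ι → Ga X) (hG : ∀ i, GOk (G i) p) (hH : ∀ k i, GOk (H k i) p)
    (e : ∀ k i, (H k i * G i) p =ᶠ[𝓝 p] G' k p) (t : ι → ℕ × ℕ) (a : κ → ι → Fm n X)
    (ha : ∀ k i, SmAt (H k i) (a k i) p) (β : ι → Fm n X)
    (hβ : ∀ i, ∀ᶠ y in 𝓝 p, β i y ∈ Tp n (t i).1 (t i).2) (F : κ → Fm n X)
    (hF : ∀ k, SmAt (G' k) (F k) p) (h : ∀ k, ∀ᶠ y in 𝓝 p, ∑ i, a k i y * β i y = F k y)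
    (inj : ∀ b : ι → Λ n, (∀ i, b i ∈ Tp n (t i).1 (t i).2) → (∀ k, ∑ i, a k i p * b i = 0) →
      b = 0) (i : ι) : SmAt (G i) (β i) p := by
  refine smAt_iff_one.2 (SMI_L1 t (fun k i y => (H k i p y)⁻¹ • a k i y)
    (fun k i => smAt_iff_one.1 (ha k i)) (fun i y => (G i p y)⁻¹ • β i y)
    (fun i => (hβ i).mono fun y hy => Submodule.smul_mem _ _ hy)
    (fun k y => (G' k p y)⁻¹ • F k y) (fun k => smAt_iff_one.1 (hF k)) (fun k => ?_)
    (fun b h1 h2 => ?_) i)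
  · filter_upwards [h k, eventually_all.2 (e k)] with y h1 h2
    rw [← h1, Finset.smul_sum]
    refine Finset.sum_congr rfl fun i _ => ?_
    rw [smul_mul_smul_comm, ← mul_inv, ← h2 i]
    rfl
  · have h3 := inj (fun i => G i p p • b i) (fun i => Submodule.smul_mem _ _ (h1 i)) fun k => by
      have h4 := congrArg (G' k p p • ·) (h2 k)
      simp only [smul_zero, Finset.smul_sum] at h4
      refine Eq.trans (Finset.sum_congr rfl fun i _ => ?_) h4
      have h5 : H k i p p * G i p p = G' k p p := (e k i).eq_of_nhds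
      rw [← h5, mul_smul_comm, smul_mul_assoc, smul_smul, mul_right_comm,
        mul_inv_cancel₀ (hH k i).self_ne, one_mul]
    funext i
    exact (smul_eq_zero.1 (congrFun h3 i)).resolve_left (hG i).self_ne

/-- The surjective version: choose a right inverse at `p`. -/
theorem exists_solve {ι κ : Type} [Fintype ι] [Fintype κ] {p : X} (G : ι → Ga X)
    (G' : κ → Ga X) (H : κ → ι → Ga X) (hG : ∀ i, GOk (G i) p) (hH : ∀ k i, GOk (H k i) p)
    (e : ∀ k i, (H k i * G i) p =ᶠ[𝓝 p] G' k p) (t : ι → ℕ × ℕ) (s : κ → ℕ × ℕ)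
    (a : κ → ι → Fm n X) (ha : ∀ k i, SmAt (H k i) (a k i) p)
    (hat : ∀ k i, ∀ᶠ y in 𝓝 p, ∀ b ∈ Tp n (t i).1 (t i).2, a k i y * b ∈ Tp n (s k).1 (s k).2)
    (F : κ → Fm n X) (hF : ∀ k, SmAt (G' k) (F k) p)
    (hFt : ∀ k, ∀ᶠ y in 𝓝 p, F k y ∈ Tp n (s k).1 (s k).2)
    (surj : ∀ f : κ → Λ n, (∀ k, f k ∈ Tp n (s k).1 (s k).2) →
      ∃ b : ι → Λ n, (∀ i, b i ∈ Tp n (t i).1 (t i).2) ∧ ∀ k, ∑ i, a k i p * b i = f k) :
    ∃ β : ι → Fm n X, (∀ i, SmAt (G i) (β i) p) ∧ (∀ i, Ty (t i).1 (t i).2 (β i)) ∧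
      ∀ᶠ y in 𝓝 p, ∀ k, ∑ i, a k i y * β i y = F k y := by
  obtain ⟨β, h1, h2, h3⟩ := SMI_R1 t s (fun k i y => (H k i p y)⁻¹ • a k i y)
    (fun k i => smAt_iff_one.1 (ha k i))
    (fun k i => (hat k i).mono fun y hy b hb => by
      rw [smul_mul_assoc]
      exact Submodule.smul_mem _ _ (hy b hb))
    (fun k y => (G' k p y)⁻¹ • F k y) (fun k => smAt_iff_one.1 (hF k))
    (fun k => (hFt k).mono fun y hy => Submodule.smul_mem _ _ hy)
    (fun f hf => by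
      cases isEmpty_or_nonempty ι with
      | inl h0 =>
        obtain ⟨b, h1, h2⟩ := surj f hf
        exact ⟨b, h1, fun k => by simpa only [Finset.univ_eq_empty, Finset.sum_empty] using h2 k⟩
      | inr h0 =>
        obtain ⟨b, h1, h2⟩ := surj (fun k => G' k p p • f k) fun k => Submodule.smul_mem _ _ (hf k)
        refine ⟨fun i => (G i p p)⁻¹ • b i, fun i => Submodule.smul_mem _ _ (h1 i), fun k => ?_⟩
        obtain ⟨j⟩ := h0
        have h3 : G' k p p ≠ 0 := by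
          rw [← (e k j).eq_of_nhds]
          exact mul_ne_zero (hH k j).self_ne (hG j).self_ne
        rw [← inv_smul_smul₀ h3 (f k), ← h2 k, Finset.smul_sum]
        refine Finset.sum_congr rfl fun i _ => ?_
        rw [smul_mul_smul_comm, ← mul_inv, ← (e k i).eq_of_nhds]
        rfl)
  refine ⟨fun i y => G i p y • β i y, fun i => smAt_iff_one.2 (MF2b_congr (h1 i) ?_),
    fun i y => Submodule.smul_mem _ _ (h2 i y), ?_⟩
  · filter_upwards [(hG i).ne] with y hy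
    rw [inv_smul_smul₀ hy]
  · cases isEmpty_or_nonempty ι with
    | inl h0 =>
      filter_upwards [eventually_all.2 hFt] with y hy k
      obtain ⟨b, -, h4⟩ := surj (fun k => F k y) hy
      simpa only [Finset.univ_eq_empty, Finset.sum_empty] using h4 k
    | inr h0 =>
      obtain ⟨j⟩ := h0
      filter_upwards [h3, eventually_all.2 fun k => eventually_all.2 (e k),
        eventually_all.2 fun k => eventually_all.2 fun i => (hH k i).ne, (hG j).ne]
        with y h4 h5 h6 h7 k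
      have h8 : ∀ i, H k i p y * G i p y = G' k p y := h5 k
      have h9 : G' k p y ≠ 0 := by
        rw [← h8 j]
        exact mul_ne_zero (h6 k j) h7
      rw [← smul_inv_smul₀ h9 (F k y), ← h4 k, Finset.smul_sum]
      refine Finset.sum_congr rfl fun i _ => ?_
      rw [← h8 i, mul_smul_comm, smul_mul_assoc, smul_smul, mul_right_comm,
        mul_inv_cancel₀ (h6 k i), one_mul]

end

end Pool.Agent.MP_1c689d_ag.K0

end

section

/-! Division of forms. -/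

set_option autoImplicit false

open Complex Filter Topology Set MeasureTheory
open scoped ComplexConjugate ContDiff ENNReal

namespace Pool.Agent.MP_1c689d_ag.K0

noncomputable section

variable {n : ℕ} {X : Type} [TopologicalSpace X]

/-- The contraction with a constant vector field of the chart `e`. -/
def DIV_C [Mf n X] (e : OpenPartialHomeomorph X (E n)) (u : V n →ₗ[ℂ] ℂ) (α : Fm n X) :
    Fm n X :=
  pb e fun z => ctr u (pb e.symm α z)

theorem DIV_C_smul [Mf n X] {e : OpenPartialHomeomorph X (E n)} (u : V n →ₗ[ℂ] ℂ)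
    (c : X → ℂ) (α : Fm n X) {y : X} (hy : y ∈ e.source) :
    DIV_C e u (fun y => c y • α y) y = c y • DIV_C e u α y := by
  simp only [DIV_C, pb, e.left_inv hy, map_smul]

theorem DIV_C_sm [Mf n X] {e : OpenPartialHomeomorph X (E n)} (he : IsCh e)
    (u : V n →ₗ[ℂ] ℂ) {G : Ga X} {α : Fm n X} {p : X} (hp : p ∈ e.source) (h : SmAt G α p) :
    SmAt G (DIV_C e u α) p := by
  have h1 := (smAt_chart he hp).1 (smAt_iff_one.1 h)
  have h2 : SmAt 1 (DIV_C e u fun y => (G p y)⁻¹ • α y) p :=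
    MF2b_pb (he.1 p hp) (smAt_E.2 (h1.mono fun z hz => (MF2b_lin (ctr u)).contDiffAt.comp z hz))
  refine smAt_iff_one.2 (MF2b_congr h2 ?_)
  filter_upwards [e.open_source.mem_nhds hp] with y hy
  exact DIV_C_smul u (fun y => (G p y)⁻¹) α hy

theorem DIV_C_Tp [Mf n X] {e : OpenPartialHomeomorph X (E n)} (he : IsCh e) (j : Fin n)
    {α : Fm n X} {a q : ℕ} (h : Ty (a + 1) q α) {y : X} (hy : y ∈ e.source) :
    DIV_C e ((bV n).coord (toLex (Sum.inl j))) α y ∈ Tp n a q :=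
  pb_Tp (he.1 y hy) (ctr_Tp_left j (pb_Tp (he.2 _ (e.map_source hy)) (h _)))

theorem DIV_C_mul [Mf n X] {e : OpenPartialHomeomorph X (E n)} (he : IsCh e)
    (u : V n →ₗ[ℂ] ℂ) {γ A : Fm n X} {y : X} (hy : y ∈ e.source) (hγ : γ y ∈ Tp n 1 0)
    (h : γ y * A y = 0) : DIV_C e u γ y * A y = γ y * DIV_C e u A y := by
  have h1 : pb e.symm γ (e y) * pb e.symm A (e y) = 0 := by
    simp only [pb, e.left_inv hy, ← map_mul, h, map_zero]
  have h2 := ctr_mul u (pb e.symm γ (e y)) (pb e.symm A (e y))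
  rw [h1, map_zero] at h2
  have h3 := congrArg (lm (df e y)) h2
  have h4 : lm (df e y) (pb e.symm γ (e y)) = γ y := pb_chart he hy γ
  have h5 : lm (df e y) (pb e.symm A (e y)) = A y := pb_chart he hy A
  rw [map_zero, map_add, map_mul, map_mul, lm_gi, h4, h5, gi_of_Tp hγ] at h3
  have h6 : (0 : Λ n) = DIV_C e u γ y * A y + ((-1 : ℂ) ^ (1 + 0) • γ y) * DIV_C e u A y := h3
  rw [add_zero, pow_one, neg_smul, one_smul, neg_mul, ← sub_eq_add_neg] at h6
  exact sub_eq_zero.1 h6.symm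

theorem DIV_ne {γ : Λ n} (hγ : γ ∈ Tp n 1 0) (h0 : γ ≠ 0) :
    ∃ j, ctr ((bV n).coord (toLex (Sum.inl j))) γ ≠ 0 := by
  by_contra h
  push Not at h
  have h1 := sum_dz_ctr hγ
  simp only [h, mul_zero, Finset.sum_const_zero, Nat.cast_one, one_smul] at h1
  exact h0 h1.symm

theorem DIV_loc [Mf n X] {G G' G'' : Ga X} {p : X} (hG : GOk G p)
    (e : (G * G') p =ᶠ[𝓝 p] G'' p) {γ A : Fm n X} (hγ : SmAt G γ p) (hγt : Ty 1 0 γ)
    (hγ0 : γ p ≠ 0) (hA : SmAt G'' A p) {a q : ℕ} (hAt : Ty (a + 1) q A)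
    (h : ∀ᶠ y in 𝓝 p, γ y * A y = 0) :
    ∃ β : Fm n X, SmAt G' β p ∧ Ty a q β ∧ ∀ᶠ y in 𝓝 p, A y = γ y * β y := by
  have he := isCh_ch (n := n) p
  have hp : p ∈ (ch n p).source := MF2_src
  obtain ⟨j, hj⟩ := DIV_ne (hγt p) hγ0
  set u : V n →ₗ[ℂ] ℂ := (bV n).coord (toLex (Sum.inl j)) with hu
  have hT : Ty 0 0 (pf 0 0 (DIV_C (ch n p) u γ)) := fun y => prj_mem _
  obtain ⟨c, hc⟩ := hT.exists_fn
  have hc1 : ∀ y ∈ (ch n p).source, DIV_C (ch n p) u γ y = algebraMap ℂ (Λ n) (c y) := by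
    intro y hy
    have h1 := congrFun hc y
    rw [← prj_of_mem (DIV_C_Tp he j (a := 0) hγt hy)]
    exact h1
  have hc2 : SmAt G (fn n c) p := hc ▸ (DIV_C_sm he u hp hγ).pf 0 0
  have hc3 : c p ≠ 0 := by
    intro h0
    have h1 := hc1 p hp
    rw [h0, map_zero] at h1
    have h2 : pb (ch n p).symm γ (ch n p p) = γ p := rep_self γ
    have h3 : lm (df (ch n p) p) (ctr u (γ p)) = 0 := by
      rw [← h2]
      exact h1
    exact hj (lm_inj_of_surj _ (he.df_bij hp).2 (h3.trans (map_zero _).symm))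
  have hs : SmAt G' ((fun y => (c y)⁻¹) • DIV_C (ch n p) u A) p := by
    refine ((hc2.fn_inv hG hc3).fsmul (DIV_C_sm he u hp hA)).gauge ?_
    filter_upwards [e, hG.ne] with y h1 h2
    have h3 : G p y * G' p y = G'' p y := h1
    show (G p y)⁻¹ * G'' p y = G' p y
    rw [← h3, inv_mul_cancel_left₀ h2]
  refine ⟨pf a q ((fun y => (c y)⁻¹) • DIV_C (ch n p) u A), hs.pf a q, fun y => prj_mem _, ?_⟩
  filter_upwards [h, (ch n p).open_source.mem_nhds hp, hc2.fn_ne hG hc3] with y h1 hy h2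
  have h3 := DIV_C_mul he u hy (hγt y) h1
  have h4 : pf a q ((fun y => (c y)⁻¹) • DIV_C (ch n p) u A) y =
      (c y)⁻¹ • DIV_C (ch n p) u A y :=
    prj_of_mem (Submodule.smul_mem _ _ (DIV_C_Tp he j hAt hy))
  rw [h4, mul_smul_comm, ← h3, hc1 y hy, ← Algebra.smul_def, smul_smul, inv_mul_cancel₀ h2,
    one_smul]

theorem DIV_hfm [Mf n X] {G : Ga X} {α : Fm n X} {p : X} (hG : GOk G p) :
    HFm G α p ↔ HFm 1 (fun y => (G p y)⁻¹ • α y) p := by
  constructor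
  · rintro ⟨h1, h2⟩
    refine ⟨smAt_iff_one.1 h1, ?_⟩
    filter_upwards [h2, dbar_frame hG h1, hG.ne] with y a1 a2 a3
    rw [a1] at a2
    exact (smul_eq_zero.1 a2.symm).resolve_left a3
  · rintro ⟨h1, h2⟩
    refine ⟨smAt_iff_one.2 h1, ?_⟩
    filter_upwards [h2, dbar_frame hG (smAt_iff_one.2 h1)] with y a1 a2
    rw [a2, a1, smul_zero]

theorem DIV_hloc [Mf (n + 1) X] (H : Div n X) {G' G'' : Ga X} (hG' : ∀ p ∈ H.O, GOk G' p)
    (e : ∀ p ∈ H.O, (H.G * G') p =ᶠ[𝓝 p] G'' p) (hG'' : ∀ p ∈ H.O, GOk G'' p)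
    {A : Fm (n + 1) X} {a : ℕ} (hAt : Ty a 0 A) (hA : ∀ p ∈ H.O, HFm G'' A p)
    (h0 : ∀ p ∈ H.S, A p = 0) {p : X} (hp : p ∈ H.O) :
    ∃ B : Fm (n + 1) X, B p ∈ Tp (n + 1) a 0 ∧ HFm G' B p ∧
      ∀ᶠ y in 𝓝 p, A y = H.σ y • B y := by
  have hG := H.ok p hp
  by_cases hσ : H.σ p = 0
  · obtain ⟨c, ⟨hc, hcO, hcz⟩, hpc, hc0⟩ := H.exists_adp ⟨p, hp, hσ⟩
    replace hpc : p ∈ c.source := hpc
    replace hc0 : ∀ y, c y 0 = (H.G p y)⁻¹ * H.σ y := hc0
    have hT : ∀ y, (G'' p y)⁻¹ • A y ∈ Tp (n + 1) a 0 := fun y => Submodule.smul_mem _ _ (hAt y)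
    have h1 := (hfm_chart hc hpc (.of_forall hT)).1 ((DIV_hfm (hG'' p hp)).1 (hA p hp))
    have ht : ∀ᶠ w in 𝓝 (c p), w ∈ c.target := c.open_target.mem_nhds (c.map_source hpc)
    have h2 : ∀ᶠ w in 𝓝 (c p), w 0 = 0 →
        pb c.symm (fun y => (G'' p y)⁻¹ • A y) w = 0 := by
      filter_upwards [ht] with w hw hw0
      have a1 : c.symm w ∈ c.source := c.map_target hw
      have a2 : A (c.symm w) = 0 :=
        h0 _ ⟨hcO a1, (hcz _ a1).2 (by rw [c.right_inv hw]; exact hw0)⟩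
      simp only [pb, a2, smul_zero, map_zero]
    obtain ⟨g, hg, hg'⟩ := hol_div_coord ((hcz p hpc).1 hσ) h1 h2
    have hs : ∀ᶠ y in 𝓝 p, y ∈ c.source := c.open_source.mem_nhds hpc
    have hT' : ∀ y ∈ c.source, pb c (fun w => prj a 0 (g w)) y ∈ Tp (n + 1) a 0 :=
      fun y hy => pb_Tp (hc.1 y hy) (prj_mem _)
    have h3 : HFm 1 (pb c fun w => prj a 0 (g w)) p := by
      refine (hfm_chart hc hpc (hs.mono hT')).2 ?_
      filter_upwards [hg, ht.eventually_nhds] with w a1 a2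
      have a3 : DifferentiableAt ℂ (fun w => prj a 0 (g w)) w :=
        (LinearMap.toContinuousLinearMap (prj (n := n + 1) a 0)).differentiableAt.comp w a1
      exact a3.congr_of_eventuallyEq (a2.mono fun z hz => pb_chart' hc hz _)
    refine ⟨fun y => G' p y • pb c (fun w => prj a 0 (g w)) y,
      Submodule.smul_mem _ _ (hT' p hpc), (DIV_hfm (hG' p hp)).2 (MF4_congr h3 ?_), ?_⟩
    · filter_upwards [(hG' p hp).ne] with y a1
      rw [smul_smul, inv_mul_cancel₀ a1, one_smul]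
    · filter_upwards [hs, (c.continuousAt hpc).eventually hg', e p hp, hG.ne, (hG'' p hp).ne]
        with y a1 a2 a3 a4 a5
      have a6 : H.G p y * G' p y = G'' p y := a3
      have a7 : pb c.symm (fun y => (G'' p y)⁻¹ • A y) (c y) = c y 0 • prj a 0 (g (c y)) := by
        rw [← map_smul, ← a2]
        exact (prj_of_mem (pb_Tp (hc.2 _ (c.map_source a1)) (hT _))).symm
      have a8 : lm (df c y) (pb c.symm (fun y => (G'' p y)⁻¹ • A y) (c y)) =
          (G'' p y)⁻¹ • A y := pb_chart hc a1 fun y => (G'' p y)⁻¹ • A y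
      rw [a7, map_smul, hc0] at a8
      have a9 : A y = G'' p y • (G'' p y)⁻¹ • A y := by
        rw [smul_smul, mul_inv_cancel₀ a5, one_smul]
      rw [a9, ← a8, ← a6, smul_smul, smul_smul]
      congr 1
      field_simp
  · have h1 := (H.hol p hp).inv hG hσ
    have h2 := (h1.hfm hG.inv).mul (hA p hp) hG.inv (hG'' p hp)
    rw [fn_mul] at h2
    refine ⟨(fun y => (H.σ y)⁻¹) • A, Submodule.smul_mem _ _ (hAt p),
      h2.gauge (hG.inv.mul (hG'' p hp)) ?_, ?_⟩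
    · filter_upwards [H.op.mem_nhds hp] with y hy
      filter_upwards [e y hy, (H.ok y hy).ne] with z a1 a2
      have a3 : H.G y z * G' y z = G'' y z := a1
      show (H.G y z)⁻¹ * G'' y z = G' y z
      rw [← a3, inv_mul_cancel_left₀ a2]
    · filter_upwards [(H.hol p hp).smAt.fn_ne hG hσ] with y a1
      show A y = H.σ y • (H.σ y)⁻¹ • A y
      rw [smul_smul, mul_inv_cancel₀ a1, one_smul]

/-- Locally contract with a coordinate vector field on which `γ` is not zero (`ctr_mul`), then glue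
(`glue_solve`). -/
theorem exists_div_form [Mf n X] {G G' G'' : Ga X} {K : Set X} (hK : IsCompact K)
    (hG : ∀ p ∈ K, GOk G p) (hG' : ∀ p ∈ K, GOk G' p)
    (e : ∀ p ∈ K, (G * G') p =ᶠ[𝓝 p] G'' p) {γ A : Fm n X} (hγ : Sm G γ K) (hγt : Ty 1 0 γ)
    (hγ0 : ∀ p ∈ K, γ p ≠ 0) (hA : Sm G'' A K) {a q : ℕ} (hAt : Ty (a + 1) q A)
    (h : ∀ᶠ y in 𝓝ˢ K, γ y * A y = 0) :
    ∃ β : Fm n X, Sm G' β univ ∧ Ty a q β ∧ ∀ᶠ y in 𝓝ˢ K, A y = γ y * β y := by
  obtain ⟨β, h1, h2, h3⟩ := glue_solve (ι := Unit) (κ := Unit) hK (fun _ => G')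
    (fun _ => Tp n a q)
    (fun y => LinearMap.pi fun _ => (LinearMap.mulLeft ℂ (γ y)).comp (LinearMap.proj ()))
    (fun y _ => A y) fun p hp => by
      obtain ⟨β, h1, h2, h3⟩ := DIV_loc (hG p hp) (e p hp) (hγ p hp) hγt (hγ0 p hp) (hA p hp) hAt
        (h.filter_mono (nhds_le_nhdsSet hp))
      exact ⟨fun _ => β, fun _ => h1.eventually (hG' p hp), fun _ => h2,
        h3.mono fun y hy => funext fun _ => hy.symm⟩
  exact ⟨β (), h1 (), h2 (), h3.mono fun y hy => (congrFun hy ()).symm⟩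

/-- The same for forms of top holomorphic degree. -/
theorem exists_div_top [Mf (n + 1) X] {G G' G'' : Ga X} {K : Set X} (hK : IsCompact K)
    (hG : ∀ p ∈ K, GOk G p) (hG' : ∀ p ∈ K, GOk G' p)
    (e : ∀ p ∈ K, (G * G') p =ᶠ[𝓝 p] G'' p) {γ A : Fm (n + 1) X} (hγ : Sm G γ K)
    (hγt : Ty 1 0 γ) (hγ0 : ∀ p ∈ K, γ p ≠ 0) (hA : Sm G'' A K) {q : ℕ} (hAt : Ty (n + 1) q A) :
    ∃ β : Fm (n + 1) X, Sm G' β univ ∧ Ty n q β ∧ ∀ᶠ y in 𝓝ˢ K, A y = γ y * β y := by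
  refine exists_div_form hK hG hG' e hγ hγt hγ0 hA hAt (.of_forall fun y => ?_)
  have h := Tp_mul (hγt y) (hAt y)
  rwa [Tp_eq_bot (Or.inl (by omega)), Submodule.mem_bot] at h

/-- A holomorphic form that vanishes along the hypersurface is divisible by the equation
(`hol_div_coord` in an adapted chart; the quotient is unique by `frequently_ne`). -/
theorem Div.hol_div [Mf (n + 1) X] (H : Div n X) {G' G'' : Ga X} (hG' : ∀ p ∈ H.O, GOk G' p)
    (e : ∀ p ∈ H.O, (H.G * G') p =ᶠ[𝓝 p] G'' p) (hG'' : ∀ p ∈ H.O, GOk G'' p)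
    {A : Fm (n + 1) X} {a : ℕ} (hAt : Ty a 0 A) (hA : ∀ p ∈ H.O, HFm G'' A p)
    (h0 : ∀ p ∈ H.S, A p = 0) :
    ∃ B : Fm (n + 1) X, Ty a 0 B ∧ ∀ p ∈ H.O, HFm G' B p ∧ A p = H.σ p • B p := by
  classical
  choose B h1 h2 h3 using fun p (hp : p ∈ H.O) => DIV_hloc H hG' e hG'' hAt hA h0 hp
  refine ⟨fun p => if hp : p ∈ H.O then B p hp p else 0, fun p => ?_, fun p hp => ⟨?_, ?_⟩⟩
  · by_cases hp : p ∈ H.O
    · simp only [dif_pos hp]
      exact h1 p hp
    · simp only [dif_neg hp]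
      exact Submodule.zero_mem _
  · refine MF4_congr (h2 p hp) ?_
    filter_upwards [H.op.mem_nhds hp, (h2 p hp).1.eventually (hG' p hp),
      (h3 p hp).eventually_nhds] with y hy a1 a2
    have hy' : y ∈ H.O := hy
    rw [dif_pos hy']
    refine sub_eq_zero.1 ((a1.sub (h2 y hy').1).eq_zero_of_frequently (hG' y hy') ?_)
    refine ((H.frequently_ne hy').and_eventually (a2.and (h3 y hy'))).mono ?_
    rintro z ⟨b1, b2, b3⟩
    have b4 : H.σ z • (B p hp z - B y hy' z) = 0 := by rw [smul_sub, ← b2, ← b3, sub_self]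
    exact (smul_eq_zero.1 b4).resolve_left b1
  · simp only [dif_pos hp]
    exact (h3 p hp).self_of_nhds

/-- The residue of a holomorphic top form is holomorphic. If `A = D * β` near the hypersurface,
apply `∂ bar`: `0 = σ Θ β - D * ∂ bar β`. -/
theorem Div.exists_res [Mf (n + 1) X] (H : Div n X) (hS : IsCompact H.S) {G' G'' : Ga X}
    (hG' : ∀ p ∈ H.O, GOk G' p) (e : ∀ p ∈ H.O, (H.G * G') p =ᶠ[𝓝 p] G'' p)
    (hG'' : ∀ p ∈ H.O, GOk G'' p) {A : Fm (n + 1) X} (hAt : Ty (n + 1) 0 A)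
    (hA : ∀ p ∈ H.S, HFm G'' A p) :
    ∃ β : Fm (n + 1) X, Sm G' β univ ∧ Ty n 0 β ∧ (∀ᶠ y in 𝓝ˢ H.S, A y = H.D y * β y) ∧
      H.IsRes A (pb H.val β) ∧ ∀ p, HFm (gpb H.val G') (pb H.val β) p := by
  obtain ⟨β, h1, h2, h3⟩ := exists_div_top hS (fun p hp => H.ok p hp.1)
    (fun p hp => hG' p hp.1) (fun p hp => e p hp.1) (fun p hp => H.D_sm hp.1) H.D_Ty
    (fun p hp => H.D_ne ⟨p, hp⟩) (fun p hp => (hA p hp).1) hAt
  refine ⟨β, h1, h2, h3, H.isRes_of_eq h3.self_of_nhdsSet, fun p =>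
    ⟨(h1 _ (mem_univ _)).pb (H.emb.hm p), .of_forall fun q => ?_⟩⟩
  obtain ⟨hq, hq0⟩ := H.val_mem q
  have hqS : H.val q ∈ H.S := ⟨hq, hq0⟩
  have a1 : A =ᶠ[𝓝 (H.val q)] H.D * β := h3.filter_mono (nhds_le_nhdsSet hqS)
  have a2 := dbar_mul' (e _ hq) (H.ok _ hq) (hG' _ hq) (H.D_sm hq) (h1 _ (mem_univ _))
  rw [← dbar_congr a1, (hA _ hqS).2.self_of_nhds, H.dbar_D hq, hq0, zero_smul, zero_mul, zero_add,
    gi_of_Tp (H.D_Ty _), add_zero, pow_one, neg_smul, one_smul, neg_mul] at a2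
  rw [← pb_dbar (H.emb.hm q) (h1 _ (mem_univ _))]
  exact H.lm_of_mul q (neg_eq_zero.1 a2.symm)

end

end Pool.Agent.MP_1c689d_ag.K0

end

section

/-! The formula of Poincaré and Lelong and the residue formula. -/

set_option autoImplicit false

open Complex Filter Topology Set MeasureTheory
open scoped ComplexConjugate ContDiff ENNReal

namespace Pool.Agent.MP_1c689d_ag.K0

noncomputable section

variable {n : ℕ} {X : Type} [TopologicalSpace X] [Mf (n + 1) X] [MeasurableSpace X] [BorelSpace X]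

theorem PL_ae {α β : Fm (n + 1) X} (h : ∀ᵐ y ∂mu (n + 1) X, α y = β y) :
    dens α =ᵐ[mu (n + 1) X] dens β := by
  obtain ⟨jac, -, hj⟩ := exists_jac (n + 1) X
  filter_upwards [h] with y hy
  rw [hj, hj, hy]

theorem PL_cs {α ψ : Fm (n + 1) X} (hc : HasCompactSupport ψ) (h : tsupport α ⊆ tsupport ψ) :
    HasCompactSupport α :=
  IsCompact.of_isClosed_subset hc (isClosed_tsupport _) h

theorem PL_intg {θ ψ : Fm (n + 1) X} {U : Set X} (hθ : Sm 1 θ U) (hψ : Sm 1 ψ univ)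
    (hc : HasCompactSupport ψ) (hs : tsupport ψ ⊆ U) : Intg (θ * ψ) :=
  INT2_intg hc hs (fun y hy => (hθ y hy).mul_left (hψ y (mem_univ _))) tsupport_mul_subset_right

/-- Stokes for a smooth one-form against a test form. -/
theorem PL_st {θ c ψ : Fm (n + 1) X} {U : Set X} (hθ : Sm 1 θ U) (ht : Ty 1 0 θ)
    (hd : ∀ y ∈ U, dd θ y = c y) (hψ : Sm 1 ψ univ) (hc : HasCompactSupport ψ)
    (hs : tsupport ψ ⊆ U) : itg (θ * dd ψ) = itg (c * ψ) := by
  have t1 : tsupport (θ * ψ) ⊆ tsupport ψ := tsupport_mul_subset_right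
  have e0 : c * ψ = dd θ * ψ := by
    funext y
    by_cases hy : y ∈ U
    · rw [Pi.mul_apply, Pi.mul_apply, hd y hy]
    · rw [Pi.mul_apply, Pi.mul_apply, image_eq_zero_of_notMem_tsupport fun h => hy (hs h),
        mul_zero, mul_zero]
  have e : dd (θ * ψ) = dd θ * ψ - θ * dd ψ := by
    funext y
    by_cases hy : y ∈ U
    · rw [dd_mul (hθ y hy) (hψ y (mem_univ _)), gi_of_Tp (ht y), Pi.sub_apply, Pi.mul_apply,
        Pi.mul_apply]
      simp [sub_eq_add_neg]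
    · have h0 : y ∉ tsupport ψ := fun h => hy (hs h)
      rw [Pi.sub_apply, Pi.mul_apply, Pi.mul_apply,
        image_eq_zero_of_notMem_tsupport fun h => h0 (t1 (tsupport_dd h)),
        image_eq_zero_of_notMem_tsupport h0,
        image_eq_zero_of_notMem_tsupport (f := dd ψ) fun h => h0 (tsupport_dd h)]
      simp
  have h := stokes (α := θ * ψ) (fun _ _ => SmAt.of_tsupport'
    (fun y hy => (hθ y hy).mul_left (hψ y (mem_univ _))) (t1.trans hs)) (PL_cs hc t1)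
  rw [e, itg_sub (PL_intg (fun y hy => (hθ y hy).dd) hψ hc hs)
    (PL_intg hθ (fun y hy => (hψ y hy).dd) (PL_cs hc tsupport_dd) (tsupport_dd.trans hs))] at h
  rw [e0]
  exact (sub_eq_zero.1 h).symm

/-- The form `dz 0 / z 0` of a chart. -/
def PLeta (e : OpenPartialHomeomorph X (E (n + 1))) : Fm (n + 1) X :=
  fun y => (e y 0)⁻¹ • pb e (fun _ => dz 0) y

theorem PL_top {e : OpenPartialHomeomorph X (E (n + 1))} (he : IsCh e) (ψ : Fm (n + 1) X)
    {z : E (n + 1)} (hz : z ∈ e.target) :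
    top (pb e.symm (PLeta e * ψ) z) = (z 0)⁻¹ * top (dz 0 * pb e.symm ψ z) := by
  have h : pb e.symm (PLeta e) z = (z 0)⁻¹ • dz 0 := by
    have h1 := pb_chart' he hz (fun _ => dz 0)
    have h2 : pb e.symm (PLeta e) z =
        (e (e.symm z) 0)⁻¹ • pb e.symm (pb e fun _ => dz 0) z := map_smul _ _ _
    rw [h2, h1, e.right_inv hz]
  rw [pb_mul, Pi.mul_apply, h, smul_mul_assoc, map_smul, smul_eq_mul]

theorem PL_eta_intg {e : OpenPartialHomeomorph X (E (n + 1))} (he : IsCh e) {ψ : Fm (n + 1) X}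
    (hψ : Sm 1 ψ univ) (hc : HasCompactSupport ψ) (hs : tsupport ψ ⊆ e.source) :
    Intg (PLeta e * ψ) := by
  obtain ⟨γ, h1, h2, h3, -⟩ := INT2_ext he hψ hc hs
  obtain ⟨jac, -, hj⟩ := exists_jac (n + 1) X
  have h4 : Integrable fun z : E (n + 1) => (z 0)⁻¹ * top (dz 0 * γ z) :=
    integrable_inv_coord (INT1_top_cont.comp (continuous_const.mul h1.continuous))
      (h2.comp_left (g := fun a => top (dz 0 * a)) (by simp))
  have h5 : IntegrableOn (dens (PLeta e * ψ)) e.source (mu (n + 1) X) := by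
    rw [integrableOn_chart he e.open_source.measurableSet subset_rfl, e.image_source_eq_target]
    refine h4.integrableOn.congr_fun (fun z hz => ?_) e.open_target.measurableSet
    rw [PL_top he ψ hz, ← (h3 z hz).self_of_nhds]
  refine h5.integrable_of_forall_notMem_eq_zero fun y hy => ?_
  rw [hj, Pi.mul_apply, image_eq_zero_of_notMem_tsupport (f := ψ) fun h => hy (hs h)]
  simp

/-- The inclusion of the first coordinate hyperplane. -/
def PLA (n : ℕ) : E n →L[ℂ] E (n + 1) :=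
  ContinuousLinearMap.pi fun j => Fin.cases 0 (fun i => ContinuousLinearMap.proj i) j

theorem PLA_apply (z : E n) : PLA n z = Fin.cons 0 z := by
  funext j
  refine Fin.cases ?_ (fun i => ?_) j <;> rfl

namespace Div

variable (H : Div n X)

theorem PL_pb_intg {ψ : Fm (n + 1) X} (hψ : Sm 1 ψ univ) (hc : HasCompactSupport ψ)
    (hs : tsupport ψ ⊆ H.O) : Intg (pb H.val ψ) := by
  refine intg_of_sm (fun q _ => MF2b_pb (H.emb.hm q) (hψ _ (mem_univ _))) ?_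
  have hK : IsCompact (tsupport ψ \ (H.O \ H.S)) := IsCompact.diff hc H.isClosed_compl
  have hr : tsupport ψ \ (H.O \ H.S) ⊆ range H.val := by
    rw [H.range_val]
    intro y hy
    by_contra h
    exact hy.2 ⟨hs hy.1, h⟩
  refine HasCompactSupport.intro (H.emb.emb.isInducing.isCompact_preimage' hK hr) fun q hq => ?_
  have h0 : ψ (H.val q) = 0 :=
    image_eq_zero_of_notMem_tsupport fun h => hq ⟨h, fun h' => h'.2 (H.val_mem q)⟩
  simp only [pb, h0, map_zero]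

/-- The model formula in an adapted chart. -/
theorem PL_chart : ∃ κ : ℂ, κ ≠ 0 ∧ ∀ (_ : H.T) e, H.Adp e → ∀ ψ : Fm (n + 1) X, Sm 1 ψ univ →
    HasCompactSupport ψ → tsupport ψ ⊆ e.source →
      itg (PLeta e * dd ψ) = κ * itg (pb H.val ψ) := by
  obtain ⟨κ, hκ, hm⟩ := pl_model (n := n)
  refine ⟨κ, hκ, fun p e he ψ hψ hc hs => ?_⟩
  obtain ⟨γ, h1, h2, h3, h4⟩ := INT2_ext he.1 hψ hc hs
  obtain ⟨e', he', s1, -, s3, s4⟩ := H.chart p he
  have hA : ∀ w, HMap (PLA n) w := fun w =>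
    hmap_E.2 (Eventually.of_forall fun _ => (PLA n).differentiableAt)
  have k1 : itg (PLeta e * dd ψ) = ∫ z, (z 0)⁻¹ * top (dz 0 * dE γ z) := by
    rw [itg_chart he.1 fun y hy => by
      rw [Pi.mul_apply, image_eq_zero_of_notMem_tsupport (f := dd ψ)
        fun h => hy (hs (tsupport_dd h)), mul_zero]]
    refine (setIntegral_congr_fun e.open_target.measurableSet fun z hz => ?_).trans
      (setIntegral_eq_integral_of_forall_compl_eq_zero fun z hz => ?_)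
    · rw [PL_top he.1 _ hz, pb_dd (he.1.2 z hz) (hψ _ (mem_univ _)), ← dd_congr (h3 z hz), dd_E]
    · rw [← dd_E, dd_congr (h4 z hz), dd_zero]
      simp
  have k2 : itg (pb H.val ψ) =
      ∫ w, top (lm ((PLA n).restrictScalars ℝ) (γ (Fin.cons 0 w))) := by
    rw [itg_chart he' fun q hq => by
      have h0 : ψ (H.val q) = 0 :=
        image_eq_zero_of_notMem_tsupport fun h => hq (by rw [s1]; exact hs h)
      simp only [pb, h0, map_zero]]
    refine (setIntegral_congr_fun e'.open_target.measurableSet fun w hw => ?_).trans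
      (setIntegral_eq_integral_of_forall_compl_eq_zero fun w hw => ?_)
    · have hw' : PLA n w ∈ e.target := by
        rw [s3] at hw
        rw [PLA_apply]
        exact hw
      have ev : H.val ∘ e'.symm =ᶠ[𝓝 w] e.symm ∘ PLA n := by
        filter_upwards [e'.open_target.mem_nhds hw] with z hz
        rw [Function.comp_apply, Function.comp_apply, s4 z hz, PLA_apply]
      have hd : df (PLA n) w = (PLA n).restrictScalars ℝ :=
        (df_E _ _).trans ((PLA n).restrictScalars ℝ).fderiv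
      change top (pb e'.symm (pb H.val ψ) w) = _
      rw [pb_comp (H.emb.hm _) (he'.2 w hw), pb_congr (β := ψ) ev rfl,
        ← pb_comp (he.1.2 _ hw') (hA w), ← PLA_apply, (h3 _ hw').self_of_nhds, ← hd]
      rfl
    · rw [s3] at hw
      rw [(h4 _ hw).self_of_nhds]
      simp
  rw [k1, k2]
  exact hm _ PLA_apply γ h1 h2

/-- The logarithmic form. -/
def L : Fm (n + 1) X := fun y => (H.σ y)⁻¹ • H.D y

theorem PL_Ty : Ty 1 0 H.L := fun y => Submodule.smul_mem _ _ (H.D_Ty y)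

theorem PL_eq {y : X} (hy : y ∈ H.O) (h0 : H.σ y ≠ 0) :
    H.L y = dp 1 (fn (n + 1) fun y => (Real.log (normSq (H.σ y)) : ℂ)) y := by
  change (H.σ y)⁻¹ • dp H.G (fn (n + 1) H.σ) y = _
  rw [dp_of_sec (H.ok y hy) (H.hol y hy) h0, inv_smul_smul₀ h0]

theorem PL_ev {y : X} (hy : y ∈ H.O) (h0 : H.σ y ≠ 0) :
    H.L =ᶠ[𝓝 y] dp 1 (fn (n + 1) fun y => (Real.log (normSq (H.σ y)) : ℂ)) := by
  filter_upwards [H.op.mem_nhds hy, (H.hol y hy).smAt.fn_ne (H.ok y hy) h0] with y' h1 h2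
  exact H.PL_eq h1 h2

theorem PL_log {y : X} (hy : y ∈ H.O) (h0 : H.σ y ≠ 0) :
    SmAt 1 (fn (n + 1) fun y => (Real.log (normSq (H.σ y)) : ℂ)) y :=
  MF4a_sm ((H.hol y hy).smAt.normSq (H.ok y hy)) h0

theorem L_sm {y : X} (hy : y ∈ H.O) (h0 : H.σ y ≠ 0) : SmAt 1 H.L y := by
  exact ((H.PL_log hy h0).dp gok_one).congr (H.PL_ev hy h0).symm

theorem dd_L {y : X} (hy : y ∈ H.O) (h0 : H.σ y ≠ 0) : dd H.L y = cur H.G y := by
  rw [dd_congr (H.PL_ev hy h0), dd_eq, Pi.add_apply, dp_dp gok_one (H.PL_log hy h0), zero_add,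
    cur_of_sec (H.ok y hy) (H.hol y hy) h0]

/-- The local form of the two statements. -/
def PLLoc (κ : ℂ) (U : Set X) : Prop :=
  ∀ ψ : Fm (n + 1) X, Sm 1 ψ univ → HasCompactSupport ψ → tsupport ψ ⊆ U → Intg (H.L * ψ) ∧
    itg (H.L * dd ψ) = κ * itg (pb H.val ψ) + itg (cur H.G * ψ)

theorem PL_off (κ : ℂ) : H.PLLoc κ (H.O \ H.S) := by
  intro ψ hψ hc hs
  have h1 : Sm 1 H.L (H.O \ H.S) := fun y hy => H.L_sm hy.1 fun h => hy.2 ⟨hy.1, h⟩
  have h2 : pb H.val ψ = 0 := by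
    funext q
    have h0 : ψ (H.val q) = 0 :=
      image_eq_zero_of_notMem_tsupport fun h => (hs h).2 (H.val_mem q)
    simp only [pb, h0, map_zero, Pi.zero_apply]
  refine ⟨PL_intg h1 hψ hc hs, ?_⟩
  rw [h2, itg_zero, mul_zero, zero_add]
  exact PL_st h1 H.PL_Ty (fun y hy => H.dd_L hy.1 fun h => hy.2 ⟨hy.1, h⟩) hψ hc hs

/-- The splitting of the logarithmic form near a point of the hypersurface. -/
theorem PL_split (p : H.T) : ∃ (e : OpenPartialHomeomorph X (E (n + 1))) (U : Set X)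
    (θ : Fm (n + 1) X), H.Adp e ∧ IsOpen U ∧ H.val p ∈ U ∧ U ⊆ e.source ∧ Sm 1 θ U ∧ Ty 1 0 θ ∧
      (∀ y ∈ U, dd θ y = cur H.G y) ∧ ∀ y ∈ U, H.σ y ≠ 0 → H.L y = PLeta e y + θ y := by
  obtain ⟨e, he, hp, hu⟩ := H.exists_adp p
  have hG := H.ok _ (H.val_mem p).1
  have hev := (((hG.ne.and ((MF3b_log hG).eventually gok_one)).and (cur_frame hG)).and
    (e.open_source.mem_nhds hp))
  obtain ⟨U, hU, hUo, hpU⟩ := eventually_nhds_iff.1 hev
  refine ⟨e, U, dp 1 (fn (n + 1) fun y => (Real.log (normSq (H.G (H.val p) y)) : ℂ)), he, hUo, hpU,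
    fun y hy => (hU y hy).2, fun y hy => (hU y hy).1.1.2.dp gok_one, (fn_Ty _).dp,
    fun y hy => ?_, fun y hy h0 => ?_⟩
  · rw [dd_eq, Pi.add_apply, dp_dp gok_one (hU y hy).1.1.2, zero_add, (hU y hy).1.2]
  · have hy' := (hU y hy).2
    have hm : HMap e y := he.1.1 y hy'
    have hh : HolAt 1 (fun y => e y 0) y := hmap_iff_holAt.1 hm 0
    have h1 : e y 0 ≠ 0 := fun h => h0 ((he.2.2 y hy').2 h)
    have g1 : ∀ᶠ y' in 𝓝 y, H.G (H.val p) y' ≠ 0 := by
      filter_upwards [hUo.mem_nhds hy] with y' h using (hU y' h).1.1.1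
    have g2 : ∀ᶠ y' in 𝓝 y, H.σ y' = e y' 0 * H.G (H.val p) y' := by
      filter_upwards [g1] with y' h
      rw [hu, mul_right_comm, inv_mul_cancel₀ h, one_mul]
    have g3 := MF4a_log (n := n + 1) (hh.smAt.fn_ne gok_one h1) g1 g2
    rw [H.PL_eq (he.2.1 hy') h0, dp_congr g3,
      dp_add gok_one (MF4a_sm (hh.smAt.normSq gok_one) h1) (hU y hy).1.1.2]
    congr 1
    change _ = (e y 0)⁻¹ • pb e (fun _ => dz 0) y
    rw [← dd_coord hm 0, dd_of_hol hh, dp_of_sec gok_one hh h1, inv_smul_smul₀ h1]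

theorem PL_cover : ∃ κ : ℂ, κ ≠ 0 ∧ ∀ p : H.O, ∃ U, IsOpen U ∧ p.1 ∈ U ∧ H.PLLoc κ U := by
  obtain ⟨κ, hκ, hm⟩ := H.PL_chart
  refine ⟨κ, hκ, fun p => ?_⟩
  by_cases hp : p.1 ∈ H.S
  · obtain ⟨e, U, θ, he, hU, hpU, hUe, h1, h2, h3, h4⟩ := H.PL_split ⟨p.1, hp⟩
    have k : ∀ ψ : Fm (n + 1) X, tsupport ψ ⊆ U →
        dens (H.L * ψ) =ᵐ[mu (n + 1) X] dens (PLeta e * ψ + θ * ψ) := by
      intro ψ hs
      refine PL_ae ?_
      filter_upwards [compl_mem_ae_iff.2 H.null] with y hy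
      rw [← add_mul, Pi.mul_apply, Pi.mul_apply]
      by_cases h : y ∈ U
      · rw [h4 y h fun h0 => hy ⟨he.2.1 (hUe h), h0⟩, Pi.add_apply]
      · rw [image_eq_zero_of_notMem_tsupport (f := ψ) fun h' => h (hs h'), mul_zero, mul_zero]
    refine ⟨U, hU, hpU, fun ψ hψ hc hs => ⟨?_, ?_⟩⟩
    · exact ((PL_eta_intg he.1 hψ hc (hs.trans hUe)).add (PL_intg h1 hψ hc hs)).congr (k ψ hs).symm
    · have d1 : Sm 1 (dd ψ) univ := fun y hy => (hψ y hy).dd
      have d2 : HasCompactSupport (dd ψ) := PL_cs hc tsupport_dd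
      have d3 : tsupport (dd ψ) ⊆ U := tsupport_dd.trans hs
      rw [← hm ⟨p.1, hp⟩ e he ψ hψ hc (hs.trans hUe), ← PL_st h1 h2 h3 hψ hc hs,
        ← itg_add (PL_eta_intg he.1 d1 d2 (d3.trans hUe)) (PL_intg h1 d1 d2 d3)]
      exact integral_congr_ae (k _ d3)
  · exact ⟨_, H.isClosed_compl, ⟨p.2, hp⟩, H.PL_off κ⟩

theorem PL_all : ∃ κ : ℂ, κ ≠ 0 ∧ H.PLLoc κ H.O := by
  obtain ⟨κ, hκ, hm⟩ := H.PL_cover
  choose U hU hpU hL using hm
  refine ⟨κ, hκ, fun ψ hψ hc hs => ?_⟩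
  obtain ⟨S, ρ, h1, h2, -, -, h5⟩ := exists_pou (n := n + 1) hc U hU
    fun y hy => mem_iUnion.2 ⟨⟨y, hs hy⟩, hpU _⟩
  have a1 : ∀ i, Sm 1 (ρ i • ψ) univ := fun i y hy => ((h1 i).sm y hy).fsmul_one (hψ y hy)
  have a2 : ∀ i, tsupport (ρ i • ψ) ⊆ U i := fun i =>
    (tsupport_smul_subset_left (ρ i) ψ).trans (h2 i)
  have a3 : ∀ i, tsupport (ρ i • ψ) ⊆ tsupport ψ := fun i => tsupport_smul_subset_right (ρ i) ψ
  have a4 : ∀ i, HasCompactSupport (ρ i • ψ) := fun i => PL_cs hc (a3 i)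
  have e : ψ = ∑ i ∈ S, ρ i • ψ := by
    funext y
    rw [Finset.sum_apply]
    simp only [Pi.smul_apply']
    rw [← Finset.sum_smul]
    by_cases hy : y ∈ tsupport ψ
    · rw [h5.self_of_nhdsSet y hy, one_smul]
    · rw [image_eq_zero_of_notMem_tsupport hy, smul_zero]
  have e2 : dd ψ = ∑ i ∈ S, dd (ρ i • ψ) := by
    funext y
    rw [Finset.sum_apply, ← dd_sum fun i _ => a1 i y (mem_univ _), ← e]
  have e3 : ∀ α : Fm (n + 1) X, α * ψ = ∑ i ∈ S, α * (ρ i • ψ) := fun α => by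
    rw [← Finset.mul_sum, ← e]
  have e4 : pb H.val ψ = ∑ i ∈ S, pb H.val (ρ i • ψ) := by rw [← pb_sum, ← e]
  constructor
  · rw [e3, Intg, INT1_dens_sum]
    exact integrable_finsetSum _ fun i _ => (hL i _ (a1 i) (a4 i) (a2 i)).1
  · rw [e2, Finset.mul_sum, e3 (cur H.G), e4, itg_sum, itg_sum, itg_sum, Finset.mul_sum,
      ← Finset.sum_add_distrib]
    · exact Finset.sum_congr rfl fun i _ => (hL i _ (a1 i) (a4 i) (a2 i)).2
    · exact fun i _ => PL_intg (fun y hy => cur_sm (H.ok y hy)) (a1 i) (a4 i) ((a3 i).trans hs)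
    · exact fun i _ => H.PL_pb_intg (a1 i) (a4 i) ((a3 i).trans hs)
    · exact fun i _ => (hL i _ (fun y hy => (a1 i y hy).dd) (PL_cs (a4 i) tsupport_dd)
        (tsupport_dd.trans (a2 i))).1

/-- In an adapted chart with first coordinate `σ / G p` one has
`L = dz 0 / z 0 + ∂ log |G p|²`. -/
theorem intg_L {ψ : Fm (n + 1) X} (hψ : Sm 1 ψ univ) (hc : HasCompactSupport ψ)
    (hs : tsupport ψ ⊆ H.O) : Intg (H.L * ψ) := by
  obtain ⟨κ, -, h⟩ := H.PL_all
  exact (h ψ hψ hc hs).1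

/-- Partition of unity; off the hypersurface this is Stokes, in adapted charts `pl_model`. -/
theorem exists_pl : ∃ κ : ℂ, κ ≠ 0 ∧ ∀ ψ : Fm (n + 1) X, Sm 1 ψ univ → HasCompactSupport ψ →
    tsupport ψ ⊆ H.O → itg (H.L * dd ψ) = κ * itg (pb H.val ψ) + itg (cur H.G * ψ) := by
  obtain ⟨κ, hκ, h⟩ := H.PL_all
  exact ⟨κ, hκ, fun ψ hψ hc hs => (h ψ hψ hc hs).2⟩

end Div

end

end Pool.Agent.MP_1c689d_ag.K0

end

section

/-! The residue formula. -/

set_option autoImplicit false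

open Complex Filter Topology Set MeasureTheory
open scoped ComplexConjugate ContDiff ENNReal

namespace Pool.Agent.MP_1c689d_ag.K0

noncomputable section

variable {n : ℕ} {X : Type} [TopologicalSpace X] [Mf (n + 1) X] [MeasurableSpace X] [BorelSpace X]

section

variable {m : ℕ} {Y : Type} [TopologicalSpace Y] [Mf m Y] {α β : Fm m Y} {p : Y} {K : Set Y}

theorem RESF_ts (hK : IsCompact K) (h : ∀ y ∉ K, α y = 0) : tsupport α ⊆ K :=
  closure_minimal (fun y hy => by_contra fun hy' => hy (h y hy')) hK.isClosed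

theorem RESF_ev (hK : IsCompact K) (h : ∀ y ∉ K, α y = 0) (hp : p ∉ K) : ∀ᶠ y in 𝓝 p, α y = 0 :=
  eventually_of_mem (hK.isClosed.isOpen_compl.mem_nhds hp) h

theorem RESF_dd0 (h : ∀ᶠ y in 𝓝 p, α y = 0) : dd α p = 0 :=
  (dd_congr (β := 0) h).trans (congrFun dd_zero p)

theorem RESF_one {χ : Y → ℂ} (h : ∀ᶠ y in 𝓝 p, χ y = 1) : ∀ᶠ y in 𝓝 p, dd (fn m χ) y = 0 := by
  filter_upwards [h.eventually_nhds] with y hy
  refine (dd_congr (β := fn m fun _ => 1) ?_).trans (congrFun (dd_const 1) y)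
  filter_upwards [hy] with z hz
  simp only [fn, hz]

theorem RESF_gi (χ : Y → ℂ) (p : Y) : gi (dd (fn m χ) p) = -dd (fn m χ) p := by
  rw [MF3_dd_fn, gi_io]

theorem RESF_leib (h : SmAt 1 α p) (h' : DifferentiableAt ℝ (rep p β) (ch m p p)) :
    dd (α * β) p = dd α p * β p + gi (α p) * dd β p := by
  have e : rep p (α * β) = rep p α * rep p β := pb_mul _ _
  simp only [dd, dE]
  rw [e, dpE_mul (MF3_diff h) h', dbE_mul (MF3_diff h) h', rep_self, rep_self, add_mul, mul_add]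
  abel

theorem RESF_nd (h : ¬ DifferentiableAt ℝ (rep p β) (ch m p p)) : dd β p = 0 := by
  simp only [dd, dE, DFa_dp, DFa_db, fderiv_zero_of_not_differentiableAt h, DFa_zero, add_zero]

theorem RESF_fs {χ : Y → ℂ} (h : SmAt 1 (fn m χ) p) (h' : SmAt 1 α p) :
    dd (χ • α) p = dd (fn m χ) p * α p + χ p • dd α p := by
  rw [← fn_mul, dd_mul h h', fn, AlgHom.commutes, Algebra.smul_def]

theorem RESF_ae [MeasurableSpace Y] [BorelSpace Y] {S : Set Y} (hS : mu m Y S = 0)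
    (h : ∀ y ∉ S, α y = β y) : itg α = itg β := by
  obtain ⟨jac, -, hj⟩ := exists_jac m Y
  refine integral_congr_ae ?_
  filter_upwards [measure_eq_zero_iff_ae_notMem.1 hS] with y hy
  rw [hj, hj, h y hy]

theorem RESF_sm {U Z : Set Y} (hK : IsCompact K) (hKU : K ⊆ U) {χ : Y → ℂ}
    (hχ : Sm 1 (fn m χ) univ) {Γ : Fm m Y} (hΓ : Sm 1 Γ (U \ Z))
    (h1 : ∀ y ∈ Z ∩ K, ∀ᶠ y' in 𝓝 y, χ y' = 1) (h0 : ∀ y ∉ K, (dd (fn m χ) * Γ) y = 0) :
    Sm 1 (dd (fn m χ) * Γ) univ := by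
  intro y hy
  by_cases hyK : y ∈ K
  · by_cases hyZ : y ∈ Z
    · refine smAt_of_eventually_zero ((RESF_one (m := m) (h1 y ⟨hyZ, hyK⟩)).mono fun z hz => ?_)
      rw [Pi.mul_apply, hz, zero_mul]
    · exact (hχ y hy).dd.mul_left (hΓ y ⟨hKU hyK, hyZ⟩)
  · exact smAt_of_eventually_zero (RESF_ev hK h0 hyK)

end

/-- `∫ dχ L ψ = -∫ L (d (χ ψ) - χ dψ)`, `∫ dχ c = -∫ χ dc`, and `Θ ψ - L dψ + dc = 0` off the null
set `S`. -/
theorem Div.exists_resf (H : Div n X) : ∃ κ : ℂ, κ ≠ 0 ∧ ∀ (U K : Set X) (χ : X → ℂ)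
    (ψ c Ω : Fm (n + 1) X), IsOpen U → U ⊆ H.O → IsCompact K → K ⊆ U →
    Sm 1 (fn (n + 1) χ) univ → Sm 1 ψ U → Sm 1 c U →
    (∀ y ∉ K, χ y • ψ y = 0 ∧ χ y • c y = 0 ∧ (dd (fn (n + 1) χ) * Ω) y = 0) →
    (∀ y ∈ U, H.σ y ≠ 0 → Ω y = (H.L * ψ + c) y ∧ dd Ω y = 0) →
    itg (dd (fn (n + 1) χ) * Ω) = κ * itg (pb H.val (χ • ψ)) := by
  obtain ⟨κ, hκ, hpl⟩ := H.exists_pl
  refine ⟨-κ, neg_ne_zero.2 hκ, fun U K χ ψ c Ω hU hUO hK hKU hχ hψ hc h0 h1 => ?_⟩
  have hKO := hKU.trans hUO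
  have t1 : tsupport (χ • ψ) ⊆ K := RESF_ts hK fun y hy => (h0 y hy).1
  have t2 : tsupport (χ • c) ⊆ K := RESF_ts hK fun y hy => (h0 y hy).2.1
  have s1 : Sm 1 (χ • ψ) univ := fun _ _ => SmAt.of_tsupport'
    (fun y hy => (hχ y (mem_univ y)).fsmul_one (hψ y hy)) (t1.trans hKU)
  have s2 : Sm 1 (χ • c) univ := fun _ _ => SmAt.of_tsupport'
    (fun y hy => (hχ y (mem_univ y)).fsmul_one (hc y hy)) (t2.trans hKU)
  have c1 : HasCompactSupport (χ • ψ) := hK.of_isClosed_subset (isClosed_tsupport _) t1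
  have c2 : HasCompactSupport (χ • c) := hK.of_isClosed_subset (isClosed_tsupport _) t2
  have i1 : Intg (H.L * dd (χ • ψ)) := H.intg_L (fun y hy => (s1 y hy).dd)
    (hK.of_isClosed_subset (isClosed_tsupport _) (tsupport_dd.trans t1))
    ((tsupport_dd.trans t1).trans hKO)
  have i2 : Intg (cur H.G * (χ • ψ)) := INT2_intg hK hKO
    (fun y hy => (cur_sm (H.ok y hy)).mul_left (s1 y (mem_univ y)))
    (Subset.trans tsupport_mul_subset_right t1)
  have i3 : Intg (dd (χ • c)) :=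
    INT2_intg hK (subset_univ K) (fun y hy => (s2 y hy).dd) (tsupport_dd.trans t2)
  have e : itg (dd (fn (n + 1) χ) * Ω) =
      itg ((cur H.G * (χ • ψ) + dd (χ • c)) - H.L * dd (χ • ψ)) := by
    refine RESF_ae H.null fun y hy => ?_
    by_cases hyU : y ∈ U
    · have hyO := hUO hyU
      have hσ : H.σ y ≠ 0 := fun h => hy ⟨hyO, h⟩
      have hL := H.L_sm hyO hσ
      have hD1 : H.D y ∈ Dg (n + 1) (1 + 0) := Tp_le_Dg (p := 1) (q := 0) (H.D_Ty y)
      have hL1 : H.L y ∈ Dg (n + 1) 1 := (Dg (n + 1) 1).smul_mem (H.σ y)⁻¹ hD1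
      have hg : gi (H.L y) = -H.L y := by rw [gi_of_Dg hL1, pow_one, neg_one_smul]
      have hΩ : Ω =ᶠ[𝓝 y] H.L * ψ + c := by
        filter_upwards [hU.mem_nhds hyU, H.isClosed_compl.mem_nhds ⟨hyO, hy⟩] with z h2 h3
        exact (h1 z h2 fun h => h3.2 ⟨h3.1, h⟩).1
      have h4 := (h1 y hyU hσ).2
      rw [dd_congr hΩ, dd_add (hL.mul_left (hψ y hyU)) (hc y hyU), dd_mul hL (hψ y hyU),
        H.dd_L hyO hσ, hg] at h4
      have h5 : H.L y * dd (fn (n + 1) χ) y = -(dd (fn (n + 1) χ) y * H.L y) := by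
        rw [comm_one hL1, RESF_gi, neg_mul]
      have h6 : χ y • dd c y = χ y • (H.L y * dd ψ y - cur H.G y * ψ y) := by
        refine congrArg _ ?_
        rw [← sub_eq_zero, ← h4, neg_mul]
        abel
      simp only [Pi.mul_apply, Pi.sub_apply, Pi.add_apply, Pi.smul_apply']
      rw [(h1 y hyU hσ).1, RESF_fs (hχ y (mem_univ y)) (hψ y hyU),
        RESF_fs (hχ y (mem_univ y)) (hc y hyU), h6, Pi.add_apply, Pi.mul_apply, mul_add, mul_add,
        ← mul_assoc (H.L y), h5, mul_smul_comm, mul_smul_comm, smul_sub, neg_mul, mul_assoc]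
      abel
    · have hyK : y ∉ K := fun h => hyU (hKU h)
      rw [(h0 y hyK).2.2, Pi.sub_apply, Pi.add_apply, Pi.mul_apply, Pi.mul_apply,
        RESF_dd0 (RESF_ev (α := χ • ψ) hK (fun y hy => (h0 y hy).1) hyK),
        RESF_dd0 (RESF_ev (α := χ • c) hK (fun y hy => (h0 y hy).2.1) hyK),
        Pi.smul_apply', (h0 y hyK).1, mul_zero, mul_zero, add_zero, sub_zero]
  rw [e, itg_sub (i2.add i3) i1, itg_add i2 i3, stokes s2 c2, hpl _ s1 c1 (t1.trans hKO)]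
  ring

/-- If `χ` is locally constant near the singularities of `Γ`, then `dχ ∧ Γ` is smooth. At points
outside `K` where `rep Γ` is not differentiable `dd Γ` is zero by convention; otherwise the Leibniz
rule `dpE_mul` applies. -/
theorem itg_dchi_exact {U K Z : Set X} (hU : IsOpen U) (hK : IsCompact K) (hKU : K ⊆ U)
    (hZ : IsClosed Z) {χ : X → ℂ} (hχ : Sm 1 (fn (n + 1) χ) univ) {Γ : Fm (n + 1) X}
    (hΓ : Sm 1 Γ (U \ Z)) (h1 : ∀ y ∈ Z ∩ K, ∀ᶠ y' in 𝓝 y, χ y' = 1)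
    (h0 : ∀ y ∉ K, (dd (fn (n + 1) χ) * Γ) y = 0) :
    itg (dd (fn (n + 1) χ) * dd Γ) = 0 := by
  have hs := RESF_sm hK hKU hχ hΓ h1 h0
  have e : dd (fn (n + 1) χ) * dd Γ = -dd (dd (fn (n + 1) χ) * Γ) := by
    funext y
    have hy := hχ y (mem_univ y)
    rw [Pi.neg_apply, Pi.mul_apply]
    by_cases hd : DifferentiableAt ℝ (rep y Γ) (ch (n + 1) y y)
    · rw [RESF_leib hy.dd hd, dd_dd hy, zero_mul, zero_add, RESF_gi, neg_mul, neg_neg]
    · rw [RESF_nd hd, mul_zero, RESF_dd0, neg_zero]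
      by_cases hyK : y ∈ K
      · by_cases hyZ : y ∈ Z
        · refine (RESF_one (m := n + 1) (h1 y ⟨hyZ, hyK⟩)).mono fun z hz => ?_
          rw [Pi.mul_apply, hz, zero_mul]
        · exact absurd (MF3_diff (hΓ y ⟨hKU hyK, hyZ⟩)) hd
      · exact RESF_ev hK h0 hyK
  rw [e, itg_neg, stokes hs (HasCompactSupport.intro hK h0), neg_zero]

theorem sm_dchi_mul {U K Z : Set X} (hU : IsOpen U) (hK : IsCompact K) (hKU : K ⊆ U)
    (hZ : IsClosed Z) {χ : X → ℂ} (hχ : Sm 1 (fn (n + 1) χ) univ) {Γ : Fm (n + 1) X}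
    (hΓ : Sm 1 Γ (U \ Z)) (h1 : ∀ y ∈ Z ∩ K, ∀ᶠ y' in 𝓝 y, χ y' = 1)
    (h0 : ∀ y ∉ K, (dd (fn (n + 1) χ) * Γ) y = 0) :
    Sm 1 (dd (fn (n + 1) χ) * Γ) univ ∧ Intg (dd (fn (n + 1) χ) * Γ) := by
  have hs := RESF_sm hK hKU hχ hΓ h1 h0
  exact ⟨hs, intg_of_sm hs (HasCompactSupport.intro hK h0)⟩

end

end Pool.Agent.MP_1c689d_ag.K0

end

section

/-! Logarithmic forms. -/

set_option autoImplicit false

open Complex Filter Topology Set MeasureTheory MvPolynomial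
open scoped ComplexConjugate ContDiff ENNReal

namespace Pool.Agent.MP_1c689d_ag.K0

noncomputable section

variable {n : ℕ} {Y : Type} [TopologicalSpace Y] [Mf (n + 1) Y] (H : Div n Y)

/-- `Div.isClosed_compl`. -/
theorem WF_ne_ev {y : Y} (hy : y ∈ H.O) (h0 : H.σ y ≠ 0) :
    ∀ᶠ y' in 𝓝 y, y' ∈ H.O ∧ H.σ y' ≠ 0 := by
  filter_upwards [H.isClosed_compl.mem_nhds ⟨hy, fun h => h0 h.2⟩] with y' h
  exact ⟨h.1, fun e => h.2 ⟨h.1, e⟩⟩

/-- The set is `K \ (O \ S)` intersected with `C`. -/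
theorem WF_cpt {C K : Set Y} (hC : IsClosed C) (hK : IsCompact K) (hKO : K ⊆ H.O)
    (h : H.S ∩ C ⊆ K) : IsCompact (H.S ∩ C) ∧ IsCompact (H.val ⁻¹' C) := by
  have h1 : H.S ∩ C = (K \ (H.O \ H.S)) ∩ C := by
    ext y
    exact ⟨fun hy => ⟨⟨h hy, fun e => e.2 hy.1⟩, hy.2⟩,
      fun hy => ⟨by_contra fun e => hy.1.2 ⟨hKO hy.1.1, e⟩, hy.2⟩⟩
  have h2 : IsCompact (H.S ∩ C) := h1 ▸ (hK.diff H.isClosed_compl).inter_right hC
  refine ⟨h2, H.isEmbedding_val.isCompact_iff.2 ?_⟩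
  rwa [image_preimage_eq_inter_range, H.range_val, inter_comm]

/-- Write the form as `fn (σ⁻¹) * A` (`fn_mul`); `dd_eq`, `dp_mul'`, `dbar_mul'` with the gauges
`G⁻¹`, `G`, `1`, `dp_fn_inv`, `dbar_fn_inv`, `HolAt.dbar`, `SmAt.fn_inv`. -/
theorem WF_dd_div {A : Fm (n + 1) Y} {y : Y} (hy : y ∈ H.O) (h0 : H.σ y ≠ 0)
    (hA : SmAt H.G A y) : SmAt 1 (fun y => (H.σ y)⁻¹ • A y) y ∧
      dd (fun y => (H.σ y)⁻¹ • A y) y =
        (H.σ y)⁻¹ • (dp H.G A y + dbar H.G A y) - (H.σ y ^ 2)⁻¹ • (H.D y * A y) := by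
  have hG := H.ok y hy
  have hσ := (H.hol y hy).smAt
  have hi := hσ.fn_inv hG h0
  have e : (H.G⁻¹ * H.G) y =ᶠ[𝓝 y] (1 : Ga Y) y := by
    rw [mul_comm]
    exact hG.mul_inv
  have h1 : (fun y => (H.σ y)⁻¹ • A y) = fn (n + 1) (fun y => (H.σ y)⁻¹) * A :=
    (fn_mul (fun y => (H.σ y)⁻¹) A).symm
  rw [h1]
  refine ⟨(hi.mul hA).gauge e, ?_⟩
  rw [dd_eq, Pi.add_apply, dp_mul' e hG.inv hG hi hA, dbar_mul' e hG.inv hG hi hA,
    dp_fn_inv hG hσ h0, dbar_fn_inv hG hσ h0, (H.hol y hy).dbar]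
  simp only [fn, AlgHom.commutes, ← Algebra.smul_def, smul_zero, zero_mul, zero_add, Div.D,
    smul_mul_assoc, smul_add, neg_smul, neg_mul]
  abel

/-- `exists_div_top` on `K = S ∩ C` gives `A = D * R` near `K`; `E = u • R` and
`c = u • σ⁻¹ • (A - D * R)`, which vanishes near the points of `S`. -/
theorem WF_divs {C : Set Y} (hC : IsClosed C) (hK : IsCompact (H.S ∩ C)) {A : Fm (n + 1) Y}
    {q : ℕ} (hA : Sm H.G A H.O) (ht : Ty (n + 1) q A) {u : Y → ℂ}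
    (hu : Sm 1 (fn (n + 1) u) univ) (hs : ∀ y ∉ C, u y = 0) :
    ∃ E c : Fm (n + 1) Y, Sm 1 E univ ∧ Ty n q E ∧ Sm 1 c H.O ∧ (∀ y ∉ C, E y = 0 ∧ c y = 0) ∧
      ∀ y ∈ H.O, H.σ y ≠ 0 → u y • (H.σ y)⁻¹ • A y = H.L y * E y + c y := by
  obtain ⟨R, r1, r2, r3⟩ := exists_div_top (G := H.G) (G' := 1) (G'' := H.G) hK
    (fun p hp => H.ok p hp.1.1) (fun _ _ => gok_one) (fun p _ => by rw [mul_one])
    (fun p hp => H.D_sm hp.1.1) H.D_Ty (fun p hp => H.nz p hp.1.1 hp.1.2)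
    (fun p hp => hA p hp.1.1) ht
  refine ⟨u • R, u • fun y => (H.σ y)⁻¹ • (A - H.D * R) y,
    fun y _ => (hu y (mem_univ y)).fsmul_one (r1 y (mem_univ y)),
    fun y => Submodule.smul_mem _ _ (r2 y), fun y hy => ?_, fun y hy => ?_, fun y _ _ => ?_⟩
  · by_cases h0 : H.σ y = 0
    · refine smAt_of_eventually_zero ?_
      by_cases hc : y ∈ C
      · filter_upwards [r3.filter_mono (nhds_le_nhdsSet (s := H.S ∩ C) ⟨⟨hy, h0⟩, hc⟩)] with z hz
        rw [Pi.smul_apply', Pi.sub_apply, Pi.mul_apply, hz, sub_self, smul_zero, smul_zero]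
      · filter_upwards [hC.isOpen_compl.mem_nhds hc] with z hz
        rw [Pi.smul_apply', hs z hz, zero_smul]
    · exact (hu y (mem_univ y)).fsmul_one (WF_dd_div H hy h0
        ((hA y hy).sub ((H.D_sm hy).mul_right (r1 y (mem_univ y))))).1
  · simp only [Pi.smul_apply', hs y hy, zero_smul, and_self]
  · simp only [Pi.smul_apply', Pi.sub_apply, Pi.mul_apply, Div.L, smul_mul_assoc, mul_smul_comm,
      smul_sub]
    abel

variable [MeasurableSpace Y] [BorelSpace Y]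

/-- The residue of a closed logarithmic form is closed. Off `S` one has
`cur G * E - L * dd E + dd c = 0` (`Div.dd_L`, `dd_mul`); the form
`σ • (cur G * E + dd c) - D * dd E` is smooth with values in `G` and vanishes off `S`, so it
vanishes on `S` (`Div.frequently_ne`, `SmAt.eq_zero_of_frequently`); `Div.lm_of_mul`, `pb_dd`. -/
theorem WF_res_closed {U : Set Y} (hU : IsOpen U) (hUO : U ⊆ H.O) {E c Ω : Fm (n + 1) Y}
    (hE : Sm 1 E U) (hc : Sm 1 c U)
    (h : ∀ y ∈ U, H.σ y ≠ 0 → Ω y = H.L y * E y + c y ∧ dd Ω y = 0) (p : H.T)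
    (hp : H.val p ∈ U) : dd (pb H.val E) p = 0 := by
  have hy := hUO hp
  have hG := H.ok _ hy
  have h1 : SmAt H.G (H.σ • (cur H.G * E + dd c) - H.D * dd E) (H.val p) := by
    have := (H.hol _ hy).smAt.fsmul (((cur_sm hG).mul_left (hE _ hp)).add (hc _ hp).dd)
    rw [mul_one] at this
    exact this.sub ((H.D_sm hy).mul_right (hE _ hp).dd)
  have h2 := h1.eq_zero_of_frequently hG (((H.frequently_ne hy).and_eventually
    (hU.mem_nhds hp)).mono fun y ⟨h0, hy'⟩ => by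
      have hL := H.L_sm (hUO hy') h0
      have h3 : Ω =ᶠ[𝓝 y] H.L * E + c := by
        filter_upwards [WF_ne_ev H (hUO hy') h0, hU.mem_nhds hy'] with z a b
        exact (h z b a.2).1
      have h4 := (h y hy' h0).2
      have h5 : gi (H.L y) = -H.L y := by
        rw [gi_of_Tp (p := 1) (q := 0) (a := H.L y) (Submodule.smul_mem _ _ (H.D_Ty y))]
        simp
      rw [dd_congr h3, dd_add (hL.mul_left (hE y hy')) (hc y hy'), dd_mul hL (hE y hy'),
        H.dd_L (hUO hy') h0, h5] at h4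
      have h6 : cur H.G y * E y + dd c y = H.L y * dd E y := by
        rw [← sub_eq_zero, ← h4, neg_mul]
        abel
      rw [Pi.sub_apply, Pi.smul_apply', Pi.add_apply, Pi.mul_apply, Pi.mul_apply, h6, Div.L,
        smul_mul_assoc, smul_inv_smul₀ h0, sub_self])
  rw [Pi.sub_apply, Pi.smul_apply', (H.val_mem p).2, zero_smul, zero_sub, neg_eq_zero] at h2
  rw [← pb_dd (H.emb.hm p) (hE _ hp)]
  exact H.lm_of_mul p h2

end

end Pool.Agent.MP_1c689d_ag.K0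

end
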