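import Pool.Agent.Mg.F1c689d.G860bc7
import Pool.Agent.Mg.F1c689d.Ga42b27

set_option linter.all false


section

/-! Complex manifolds, raw forms, gauges, integration. -/

set_option autoImplicit false

open Complex Filter Topology Set MeasureTheory
open scoped ComplexConjugate ContDiff ENNReal

namespace Pool.Agent.MP_1c689d_ag.K0

noncomputable section

/-- A complex manifold of dimension `n`. -/
class Mf (n : outParam ℕ) (X : Type) [TopologicalSpace X] extends ChartedSpace (E n) X where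
  hol : ∀ e ∈ atlas, ∀ e' ∈ atlas,
    DifferentiableOn ℂ (e.symm.trans e') (e.symm.trans e').source
  t2 : T2Space X
  sc : SecondCountableTopology X

instance Mf.t2' {n : ℕ} {X : Type} [TopologicalSpace X] [h : Mf n X] : T2Space X := h.t2

instance Mf.sc' {n : ℕ} {X : Type} [TopologicalSpace X] [h : Mf n X] :
    SecondCountableTopology X := h.sc

instance mfE (n : ℕ) : Mf n (E n) where
  toChartedSpace := chartedSpaceSelf (E n)
  hol := by
    intro e he e' he'
    rw [chartedSpaceSelf_atlas] at he he'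
    subst he he'
    exact differentiableOn_id
  t2 := inferInstance
  sc := inferInstance

variable {n m k : ℕ} {X Y : Type} [TopologicalSpace X] [TopologicalSpace Y]

/-- The preferred chart. -/
abbrev ch (n : ℕ) [Mf n X] (p : X) : OpenPartialHomeomorph X (E n) := chartAt (E n) p

/-- Raw forms: the value at `p` is written in the preferred chart at `p`. -/
abbrev Fm (n : ℕ) (X : Type) : Type := X → Λ n

/-- Gauges: `G p` is the value, in the raw trivialisation, of a holomorphic frame near `p`. -/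
abbrev Ga (X : Type) : Type := X → X → ℂ

section

variable [Mf n X] [Mf m Y]

/-- A map in the preferred charts. -/
def lc (f : X → Y) (p : X) : E n → E m := ch m (f p) ∘ f ∘ (ch n p).symm

/-- The differential in the preferred charts. -/
def df (f : X → Y) (p : X) : E n →L[ℝ] E m := fderiv ℝ (lc f p) (ch n p p)

/-- The pull-back of a raw form. -/
def pb (f : X → Y) (α : Fm m Y) : Fm n X := fun p => lm (df f p) (α (f p))

/-- A raw form written in the preferred chart at `p`. -/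
def rep (p : X) (α : Fm n X) : E n → Λ n := pb (ch n p).symm α

/-- `f` is holomorphic near `p`. -/
def HMap (f : X → Y) (p : X) : Prop :=
  ∀ᶠ y in 𝓝 p, ContinuousAt f y ∧ DifferentiableAt ℂ (lc f p) (ch n p y)

/-- A holomorphic chart. -/
def IsCh (e : OpenPartialHomeomorph X (E n)) : Prop :=
  (∀ p ∈ e.source, HMap e p) ∧ ∀ z ∈ e.target, HMap e.symm z

/-- `α` is a smooth form with values in `G` near `p`. -/
def SmAt (G : Ga X) (α : Fm n X) (p : X) : Prop :=
  ∀ᶠ y in 𝓝 p, ContDiffAt ℝ ∞ (rep p fun y => (G p y)⁻¹ • α y) (ch n p y)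

/-- `α` is a smooth form with values in `G` on `O`. -/
def Sm (G : Ga X) (α : Fm n X) (O : Set X) : Prop := ∀ p ∈ O, SmAt G α p

/-- The operator `∂ bar` on forms with values in `G`. -/
def dbar (G : Ga X) (α : Fm n X) : Fm n X := fun p =>
  G p p • dbE (rep p fun y => (G p y)⁻¹ • α y) (ch n p p)

/-- The `(1,0)` part of the Chern connection. -/
def dp (G : Ga X) (α : Fm n X) : Fm n X := fun p =>
  (conj (G p p))⁻¹ • dpE (rep p fun y => conj (G p y) • α y) (ch n p p)

/-- The exterior derivative. -/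
def dd (α : Fm n X) : Fm n X := fun p => dE (rep p α) (ch n p p)

/-- A function as a form of degree zero. -/
def fn (n : ℕ) (f : X → ℂ) : Fm n X := fun y => algebraMap ℂ (Λ n) (f y)

/-- The conjugate form. -/
def cf (α : Fm n X) : Fm n X := fun y => cj (α y)

/-- The component of type `(p, q)`. -/
def pf (p q : ℕ) (α : Fm n X) : Fm n X := fun y => prj p q (α y)

/-- The form has type `(p, q)`. -/
def Ty (p q : ℕ) (α : Fm n X) : Prop := ∀ y, α y ∈ Tp n p q

/-- The form has degree `k`. -/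
def Dgr (k : ℕ) (α : Fm n X) : Prop := ∀ y, α y ∈ Dg n k

/-- `f` is a holomorphic section of `G` near `p`. -/
def HolAt (G : Ga X) (f : X → ℂ) (p : X) : Prop :=
  ∀ᶠ y in 𝓝 p, DifferentiableAt ℂ
    (fun z => (G p ((ch n p).symm z))⁻¹ * f ((ch n p).symm z)) (ch n p y)

/-- `α` is a holomorphic form with values in `G` near `p`. -/
def HFm (G : Ga X) (α : Fm n X) (p : X) : Prop := SmAt G α p ∧ ∀ᶠ y in 𝓝 p, dbar G α y = 0

/-- `G` is a hermitian holomorphic line bundle near `p`. -/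
structure GOk (G : Ga X) (p : X) : Prop where
  ne : ∀ᶠ y in 𝓝 p, G p y ≠ 0
  self : ∀ᶠ y in 𝓝 p, G y y ≠ 0
  sm : SmAt 1 (fn n fun y => (normSq (G p y) : ℂ)) p
  hol : ∀ᶠ y in 𝓝 p, HolAt 1 (fun y' => G y y' / G p y') y

/-- The curvature form. -/
def cur (G : Ga X) : Fm n X := fun p =>
  dbar 1 (dp 1 (fn n fun y => (Real.log (normSq (G p y)) : ℂ))) p

/-- The pull-back of a gauge. -/
def gpb (f : X → Y) (G : Ga Y) : Ga X := fun p y => G (f p) (f y)

/-- `x` is a unit lift of a holomorphic map to projective space near `p`. -/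
structure PMAt (x : X → Fin k → ℂ) (p : X) : Prop where
  unit : ∀ᶠ y in 𝓝 p, ∑ l, normSq (x y l) = 1
  ne : ∀ l, x p l ≠ 0 → ∀ᶠ y in 𝓝 p, x y l ≠ 0
  hol : ∀ l a, x p l ≠ 0 → HolAt 1 (fun y => x y a / x y l) p

open Classical in
/-- The gauge `O(1)` of a projective map. -/
def gx (x : X → Fin k → ℂ) : Ga X := fun p y => if h : ∃ l, x p l ≠ 0 then x y h.choose else 1

/-- The covariant derivatives of the coordinates. -/
def Dx (x : X → Fin k → ℂ) (l : Fin k) : Fm n X := dp (gx x) (fn n fun y => x y l)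

/-- The curvature of `O(1)`. -/
def Th (x : X → Fin k → ℂ) : Fm n X := cur (gx x)

/-- The Fubini-Study form. -/
def Om (x : X → Fin k → ℂ) : Fm n X := fun p => I • Th x p

/-- The projective map is an immersion at `p`. -/
def Imm (x : X → Fin k → ℂ) (p : X) : Prop :=
  ∀ γ ∈ Tp n 1 0, ∃ a : Fin k → ℂ, γ = ∑ l, a l • Dx x l p

/-- The form `∑ ± x_j Dx_0 ∧ … ∧ Dx_n` (`j` omitted) for `n + 1` of the coordinates. -/
def Wk (x : X → Fin k → ℂ) (l : Fin (n + 1) → Fin k) : Fm n X := fun p =>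
  ∑ j : Fin (n + 1), ((-1) ^ (j : ℕ) * x p (l j)) •
    (List.ofFn fun i : Fin n => Dx x (l (j.succAbove i)) p).prod

theorem exists_ix (n : ℕ) (X : Type) [TopologicalSpace X] [Mf n X] :
    ∃ ix : X → X, (∀ y, y ∈ (ch n (ix y)).source) ∧ (range ix).Countable ∧
      ∀ x, MeasurableSet[borel X] {y | ix y = x} := by
  classical
  obtain ⟨s, hs, hc⟩ := TopologicalSpace.countable_cover_nhds
    (f := fun x : X => (ch n x).source) fun x => chart_source_mem_nhds (E n) x
  obtain ⟨f, hf⟩ := Set.countable_iff_exists_injOn.1 hs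
  have h : ∀ y, ∃ i, ∃ x ∈ s, f x = i ∧ y ∈ (ch n x).source := fun y => by
    have : y ∈ ⋃ x ∈ s, (ch n x).source := hc ▸ mem_univ y
    obtain ⟨x, hx, hy⟩ := mem_iUnion₂.1 this
    exact ⟨_, x, hx, rfl, hy⟩
  choose ix h1 h2 h3 using fun y => Nat.find_spec (h y)
  refine ⟨ix, h3, hs.mono (range_subset_iff.2 h1), fun x => ?_⟩
  borelize X
  by_cases hx : x ∈ s
  · have : {y | ix y = x} = (ch n x).source \
        ⋃ x' ∈ {x' ∈ s | f x' < f x}, (ch n x').source := by
      ext y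
      simp only [mem_setOf_eq, mem_diff, mem_iUnion, not_exists]
      constructor
      · rintro rfl
        refine ⟨h3 y, fun x' hx' hy => ?_⟩
        exact Nat.find_min (h y) (h2 y ▸ hx'.2) ⟨x', hx'.1, rfl, hy⟩
      · rintro ⟨a, b⟩
        refine hf (h1 y) hx (le_antisymm ?_ ?_)
        · rw [h2 y]
          exact Nat.find_min' (h y) ⟨x, hx, rfl, a⟩
        · by_contra hlt
          exact b (ix y) ⟨h1 y, not_le.1 hlt⟩ (h3 y)
    rw [this]
    exact (ch n x).open_source.measurableSet.diff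
      (isOpen_biUnion fun x' _ => (ch n x').open_source).measurableSet
  · have : {y | ix y = x} = ∅ := eq_empty_of_forall_notMem fun y hy => hx (hy ▸ h1 y)
    rw [this]
    exact MeasurableSet.empty

/-- The chart used to integrate near `y`. -/
def ix (n : ℕ) [Mf n X] : X → X := (exists_ix n X).choose

/-- The density of a form. -/
def dens (α : Fm n X) (y : X) : ℂ := top (rep (ix n y) α (ch n (ix n y) y))

/-- The reference measure. -/
def mu (n : ℕ) (X : Type) [TopologicalSpace X] [Mf n X] [MeasurableSpace X] : Measure X :=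
  Measure.sum fun x : range (ix n : X → X) =>
    (volume.restrict (ch n x.1 '' {y | ix n y = x.1})).map (ch n x.1).symm

/-- The integral of a form. -/
def itg [MeasurableSpace X] (α : Fm n X) : ℂ := ∫ y, dens α y ∂mu n X

/-- Integrable forms. -/
def Intg [MeasurableSpace X] (α : Fm n X) : Prop := Integrable (dens α) (mu n X)

end

/-- A smooth hypersurface: the zero set in the open set `O` of a holomorphic section. -/
structure Div (n : ℕ) (X : Type) [TopologicalSpace X] [Mf (n + 1) X] where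
  G : Ga X
  σ : X → ℂ
  O : Set X
  op : IsOpen O
  ok : ∀ p ∈ O, GOk G p
  hol : ∀ p ∈ O, HolAt G σ p
  nz : ∀ p ∈ O, σ p = 0 → dp G (fn (n + 1) σ) p ≠ 0

namespace Div

variable [Mf (n + 1) X] (H : Div n X)

/-- The zero set. -/
def S : Set X := {p | p ∈ H.O ∧ H.σ p = 0}

/-- The hypersurface as a type. -/
def T : Type := ↥H.S

instance : TopologicalSpace H.T := inferInstanceAs (TopologicalSpace ↥H.S)

instance : MeasurableSpace H.T := borel _

instance : BorelSpace H.T := ⟨rfl⟩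

/-- The inclusion. -/
def val : H.T → X := Subtype.val (p := fun p => p ∈ H.S)

/-- The covariant derivative of the equation. -/
def D : Fm (n + 1) X := dp H.G (fn (n + 1) H.σ)

/-- A chart in which the hypersurface is the first coordinate hyperplane. -/
def Adp (e : OpenPartialHomeomorph X (E (n + 1))) : Prop :=
  IsCh e ∧ e.source ⊆ H.O ∧ ∀ y ∈ e.source, (H.σ y = 0 ↔ e y 0 = 0)

end Div

/-- The product of a curve and a manifold. -/
def PX (B X : Type) : Type := B × X

instance (B X : Type) [TopologicalSpace B] [TopologicalSpace X] : TopologicalSpace (PX B X) :=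
  inferInstanceAs (TopologicalSpace (B × X))

instance (B X : Type) [TopologicalSpace B] [TopologicalSpace X] : MeasurableSpace (PX B X) :=
  borel _

instance (B X : Type) [TopologicalSpace B] [TopologicalSpace X] : BorelSpace (PX B X) := ⟨rfl⟩

/-- The first projection. -/
def PX.fst {B X : Type} : PX B X → B := Prod.fst

/-- The second projection. -/
def PX.snd {B X : Type} : PX B X → X := Prod.snd

/-- A point of the product. -/
def PX.mk {B X : Type} (b : B) (x : X) : PX B X := (b, x)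

end

end Pool.Agent.MP_1c689d_ag.K0

end

section

/-! Pull-back, conjugation and the top coefficient. -/

set_option autoImplicit false

open Complex Filter Topology Set MeasureTheory
open scoped ComplexConjugate ContDiff ENNReal

namespace Pool.Agent.MP_1c689d_ag.K0

noncomputable section

variable {n m k p q : ℕ}

theorem EA2_prod_mem {f : Fin k → Λ n} (h : ∀ j, f j ∈ Tp n p q) :
    (List.ofFn f).prod ∈ Tp n (k * p) (k * q) := by
  induction k with
  | zero => simpa using algebraMap_mem_Tp (n := n) 1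
  | succ k ih =>
    rw [List.ofFn_succ, List.prod_cons, Nat.succ_mul, Nat.succ_mul, add_comm (k * p),
      add_comm (k * q)]
    exact Tp_mul (h 0) (ih fun j => h j.succ)

theorem EA2_prod_pair (c : ℂ) {f g : Fin k → Λ n} (hf : ∀ j, f j ∈ Tp n 1 0)
    (hg : ∀ j, g j ∈ Tp n 0 1) : (List.ofFn fun j => c • (f j * g j)).prod =
      (c ^ k * (-1) ^ k.choose 2) • ((List.ofFn f).prod * (List.ofFn g).prod) := by
  induction k with
  | zero => simp
  | succ k ih =>
    have h1 : (List.ofFn fun j : Fin k => f j.succ).prod ∈ Dg n k := by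
      simpa using Tp_le_Dg (EA2_prod_mem fun j : Fin k => hf j.succ)
    have h2 := comm_Dg (Tp_le_Dg (hg 0)) h1
    have h3 : (k + 1).choose 2 = k + k.choose 2 := by
      rw [Nat.choose_succ_succ, Nat.choose_one_right]
    rw [List.ofFn_succ, List.ofFn_succ, List.ofFn_succ, List.prod_cons, List.prod_cons,
      List.prod_cons, ih (fun j => hf j.succ) fun j => hg j.succ, smul_mul_smul_comm, mul_assoc (f 0),
      ← mul_assoc (g 0), h2, smul_mul_assoc, mul_smul_comm, smul_smul, h3, mul_assoc (f 0),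
      mul_assoc _ (g 0)]
    congr 1
    ring

theorem EA2_cj_prod : cj (List.ofFn (dz : Fin n → Λ n)).prod = (List.ofFn dzb).prod := by
  rw [map_list_prod, List.map_ofFn]
  exact congrArg (fun f => (List.ofFn f).prod) (funext cj_dz)

theorem EA2_vol : vol n = ((I / 2) ^ n * (-1) ^ n.choose 2) •
    ((List.ofFn (dz : Fin n → Λ n)).prod * cj (List.ofFn (dz : Fin n → Λ n)).prod) := by
  rw [EA2_cj_prod]
  exact EA2_prod_pair _ dz_mem dzb_mem

theorem EA2_prod_dz_mem : (List.ofFn (dz : Fin n → Λ n)).prod ∈ Tp n n 0 :=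
  mem_Tp_n0.2 ⟨1, (one_smul _ _).symm⟩

theorem EA2_vol_ne : vol n ≠ 0 := by
  rw [EA2_vol]
  refine smul_ne_zero (by simp) fun h => prod_dz_ne (n := n) ?_
  have h1 := (prod_dz_bij (q := n)).injOn (cj_Tp EA2_prod_dz_mem) (Submodule.zero_mem _)
    (h.trans (mul_zero _).symm)
  rw [← cj_cj (List.ofFn dz).prod, h1, map_zero]

theorem EA2_card : Fintype.card (Ix n) = 2 * n := by
  simp [two_mul]

theorem EA2_bL_mem (S : Finset (Ix n)) : bL n S ∈ Dg n S.card :=
  Submodule.subset_span ⟨S, rfl, rfl⟩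

theorem EA2_coord {S T : Finset (Ix n)} (h : S ≠ T) : (bL n).coord T (bL n S) = 0 := by
  simp [h]

theorem EA2_lin (f : Λ n →ₗ[ℂ] ℂ) (hf : ∀ k, ∀ a ∈ Dg n k, k ≠ 2 * n → f a = 0) (a : Λ n) :
    f a = (bL n).coord Finset.univ a * f (bL n Finset.univ) := by
  have : f = f (bL n Finset.univ) • (bL n).coord Finset.univ := by
    refine (bL n).ext fun S => ?_
    by_cases h : S = Finset.univ
    · simp [h]
    · rw [LinearMap.smul_apply, EA2_coord h, smul_zero]
      exact hf _ _ (EA2_bL_mem S) fun e => h (Finset.eq_univ_of_card S (e.trans EA2_card.symm))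
  conv_lhs => rw [this]
  rw [LinearMap.smul_apply, smul_eq_mul, mul_comm]

theorem EA2_coord_Dg {a : Λ n} (h : a ∈ Dg n k) {T : Finset (Ix n)} (hne : k ≠ T.card) :
    (bL n).coord T a = 0 := by
  refine (Submodule.span_le (p := LinearMap.ker ((bL n).coord T))).2 ?_ h
  rintro _ ⟨S, hS, rfl⟩
  exact EA2_coord fun e => hne (e ▸ hS.symm)

theorem EA2_eq_smul {a : Λ n} (h : a ∈ Tp n n n) :
    a = (bL n).coord Finset.univ a • bL n Finset.univ := by
  refine (bL n).ext_elem fun S => ?_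
  by_cases e : S = Finset.univ
  · simp [e]
  · rw [map_smul, Finsupp.smul_apply, ← Module.Basis.coord_apply, ← Module.Basis.coord_apply,
      EA2_coord (Ne.symm e), smul_zero]
    rw [← Dg_top] at h
    exact EA2_coord_Dg h fun e' => e (Finset.eq_univ_of_card S (e'.symm.trans EA2_card.symm))

theorem vol_mem : vol n ∈ Tp n n n := by
  simpa [vol] using EA2_prod_mem (f := fun j : Fin n => (I / 2) • (dz j * dzb j))
    fun j => Submodule.smul_mem _ _ (Tp_mul (dz_mem j) (dzb_mem j))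

theorem EA2_coord_vol : (bL n).coord Finset.univ (vol n) ≠ 0 := fun h =>
  EA2_vol_ne (n := n) (by rw [EA2_eq_smul vol_mem, h, zero_smul])

theorem cj_vol : cj (vol n) = vol n := by
  rw [vol, map_list_prod, List.map_ofFn]
  refine congrArg (fun f => (List.ofFn f).prod) (funext fun j => ?_)
  have h : dzb j * dz j = -(dz j * dzb j) := eq_neg_of_add_eq_zero_right (io_add_swap _ _)
  rw [Function.comp_apply, cj_smul, map_mul, cj_dz, cj_dzb, h, smul_neg, ← neg_smul]
  congr 1
  rw [map_div₀, conj_I, map_ofNat, neg_div, neg_neg]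

theorem top_vol : top (vol n) = 1 := by
  exact inv_mul_cancel₀ EA2_coord_vol

theorem eq_top_smul {a : Λ n} (h : a ∈ Tp n n n) : a = top a • vol n := by
  have e : top a * (bL n).coord Finset.univ (vol n) = (bL n).coord Finset.univ a := by
    rw [top, LinearMap.smul_apply, smul_eq_mul, mul_right_comm, inv_mul_cancel₀ EA2_coord_vol,
      one_mul]
  rw [EA2_eq_smul (vol_mem (n := n)), smul_smul, e]
  exact EA2_eq_smul h

theorem EA2_top_Dg {a : Λ n} (h : a ∈ Dg n k) (hne : k ≠ 2 * n) : top a = 0 := by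
  rw [top, LinearMap.smul_apply, EA2_coord_Dg h (by rwa [Finset.card_univ, EA2_card]), smul_zero]

theorem EA2_lin' (f : Λ n →ₗ[ℂ] ℂ) (hf : ∀ k, ∀ a ∈ Dg n k, k ≠ 2 * n → f a = 0) (a : Λ n) :
    f a = f (vol n) * top a := by
  rw [EA2_lin f hf a, EA2_lin f hf (vol n), top, LinearMap.smul_apply, smul_eq_mul]
  have := EA2_coord_vol (n := n)
  field_simp

theorem top_prj (a : Λ n) : top (prj n n a) = top a := by
  have := EA2_lin' (top ∘ₗ prj n n) (fun k b hb hk => by
    rw [LinearMap.comp_apply, prj_of_Dg hb (by omega), map_zero]) a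
  rwa [LinearMap.comp_apply, LinearMap.comp_apply, prj_of_mem vol_mem, top_vol, one_mul] at this

theorem top_of_Tp {a : Λ n} (h : a ∈ Tp n p q) (hne : (p, q) ≠ (n, n)) : top a = 0 := by
  rw [← top_prj, prj_of_ne h hne.symm, map_zero]

theorem top_of_Dg {a : Λ n} (h : a ∈ Dg n k) (hne : k ≠ 2 * n) : top a = 0 := by
  exact EA2_top_Dg h hne

theorem top_cj (a : Λ n) : top (cj a) = conj (top a) := by
  rw [← top_prj, ← cj_prj, eq_top_smul (prj_mem a), cj_smul, cj_vol, map_smul, top_vol, top_prj,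
    smul_eq_mul, mul_one]

theorem EA2_det_vm (A : E n →L[ℝ] E n) : LinearMap.det (vm A) = ((A.det : ℝ) : ℂ) := by
  let e := Module.finBasis ℝ (E n)
  let ev : V n →ₗ[ℂ] (Fin (Module.finrank ℝ (E n)) → ℂ) :=
    { toFun := fun v i => v (e i), map_add' := fun _ _ => rfl, map_smul' := fun _ _ => rfl }
  have hb : Function.Bijective ev := by
    refine ⟨fun v w h => ?_, fun c => ⟨LinearMap.toContinuousLinearMap (e.constr ℝ c), ?_⟩⟩
    · exact ContinuousLinearMap.coe_injective (e.ext fun i => congrFun h i)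
    · exact funext fun i => e.constr_basis ℝ c i
  let M := LinearMap.toMatrix e e (A : E n →ₗ[ℝ] E n)
  have h1 : (LinearEquiv.ofBijective ev hb : V n →ₗ[ℂ] _) ∘ₗ vm A ∘ₗ
      ((LinearEquiv.ofBijective ev hb).symm : _ →ₗ[ℂ] V n) =
      Matrix.toLin' (ofRealHom.mapMatrix M).transpose := by
    refine LinearMap.ext fun c => ?_
    obtain ⟨v, rfl⟩ := (LinearEquiv.ofBijective ev hb).surjective c
    simp only [LinearMap.comp_apply, LinearEquiv.coe_coe, LinearEquiv.symm_apply_apply]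
    funext i
    change v (A (e i)) = ∑ j, (M j i : ℂ) * v (e j)
    conv_lhs => rw [← e.sum_repr (A (e i)), map_sum]
    refine Finset.sum_congr rfl fun j _ => ?_
    rw [map_smul, real_smul]
    exact congrArg (fun t : ℝ => (t : ℂ) * v (e j)) (LinearMap.toMatrix_apply e e _ j i).symm
  rw [← LinearMap.det_conj _ (LinearEquiv.ofBijective ev hb), h1, LinearMap.det_toLin',
    Matrix.det_transpose, ← RingHom.map_det, LinearMap.det_toMatrix]
  rfl

/-- The map `v ↦ top (lm A (∏ io (v i)))` is alternating on `V n`, which has dimension `2 n`, so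
`top ∘ lm A = det (vm A) • top`; `vm A` is the complexified transpose of `A`. -/
theorem top_lm (A : E n →L[ℝ] E n) (a : Λ n) : top (lm A a) = (A.det : ℝ) * top a := by
  let s : Set.powersetCard (Ix n) (2 * n) :=
    Set.powersetCard.ofCard (s := Finset.univ) (by rw [Finset.card_univ, EA2_card])
  let e : Fin (2 * n) ≃ Ix n := Equiv.ofBijective (Set.powersetCard.ofFinEmbEquiv.symm s)
    ((Fintype.bijective_iff_injective_and_card _).2
      ⟨(Set.powersetCard.ofFinEmbEquiv.symm s).injective, by rw [EA2_card, Fintype.card_fin]⟩)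
  let b := (bV n).reindex e.symm
  have h1 : bL n Finset.univ = ExteriorAlgebra.ιMulti ℂ (2 * n) b := by
    rw [Module.Basis.coe_reindex]
    exact ExteriorAlgebra.basis_apply_powersetCard (bV n) s
  let f : V n [⋀^Fin (2 * n)]→ₗ[ℂ] ℂ :=
    (top : Λ n →ₗ[ℂ] ℂ).compAlternatingMap (ExteriorAlgebra.ιMulti ℂ (2 * n))
  have h2 : top (lm A (bL n Finset.univ)) = f (vm A ∘ b) := by
    rw [h1]
    exact congrArg top (ExteriorAlgebra.map_apply_ιMulti (vm A) b)
  have h3 : f b = top (bL n Finset.univ) := by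
    rw [h1]
    rfl
  rw [f.eq_smul_basis_det b, AlternatingMap.smul_apply, b.det_comp, b.det_self, h3, EA2_det_vm,
    smul_eq_mul] at h2
  have h4 := EA2_lin (top ∘ₗ (lm A).toLinearMap)
    (fun k b hb hk => top_of_Dg (lm_Dg A hb) hk) a
  have h5 := EA2_lin top (fun k b hb hk => top_of_Dg hb hk) a
  change top (lm A a) = _ * top (lm A _) at h4
  rw [h4, h5, h2]
  ring

theorem det_restrict (B : E n →L[ℂ] E n) : (B.restrictScalars ℝ).det = normSq B.det := by
  rw [← Algebra.norm_complex_apply]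
  exact LinearMap.det_restrictScalars (R := ℝ) (S := ℂ) (f := (B : E n →ₗ[ℂ] E n))

theorem lm_prod_dz (B : E n →L[ℂ] E n) :
    lm (B.restrictScalars ℝ) (List.ofFn (dz : Fin n → Λ n)).prod =
      B.det • (List.ofFn (dz : Fin n → Λ n)).prod := by
  let L : (Fin n → ℂ) →ₗ[ℂ] V n := Fintype.linearCombination ℂ vz
  let M : Fin n → Fin n → ℂ := fun i j => LinearMap.toMatrix' (B : E n →ₗ[ℂ] E n) i j
  have h1 : ∀ j, (vz j).comp (B.restrictScalars ℝ) = L (M j) := fun j => by
    ext1 z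
    have : B z j = ∑ i, M j i * z i :=
      congrFun (LinearMap.toMatrix'_mulVec (B : E n →ₗ[ℂ] E n) z).symm j
    simp [L, Fintype.linearCombination_apply, this]
  have h2 : ∀ j, L (Pi.basisFun ℂ (Fin n) j) = vz j := fun j => by
    simp [L]
  let g : (Fin n → ℂ) [⋀^Fin n]→ₗ[ℂ] Λ n := (ExteriorAlgebra.ιMulti ℂ n).compLinearMap L
  have h3 : ∀ w, g w = (List.ofFn fun j => io (L (w j))).prod := fun w =>
    ExteriorAlgebra.ιMulti_apply _
  have h4 : lm (B.restrictScalars ℝ) (List.ofFn (dz : Fin n → Λ n)).prod = g M := by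
    rw [h3, map_list_prod, List.map_ofFn]
    exact congrArg (fun f => (List.ofFn f).prod) (funext fun j => by
      rw [Function.comp_apply, dz, lm_io, h1])
  have h5 : (List.ofFn (dz : Fin n → Λ n)).prod = g (Pi.basisFun ℂ (Fin n)) := by
    rw [h3]
    exact congrArg (fun f => (List.ofFn f).prod) (funext fun j => by rw [h2, dz])
  rw [h4, h5]
  refine (bL n).ext_elem fun S => ?_
  have h6 := congrArg (fun f : (Fin n → ℂ) [⋀^Fin n]→ₗ[ℂ] ℂ => f M)
    ((((bL n).coord S).compAlternatingMap g).eq_smul_basis_det (Pi.basisFun ℂ (Fin n)))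
  simp only [AlternatingMap.smul_apply, LinearMap.compAlternatingMap_apply, Pi.basisFun_det_apply,
    Module.Basis.coord_apply, smul_eq_mul] at h6
  rw [h6, map_smul, Finsupp.smul_apply, smul_eq_mul, mul_comm]
  congr 1
  exact LinearMap.det_toMatrix' _

theorem EA2_mul_not {S T : Finset (Ix n)} (h : ¬Disjoint S T) : bL n S * bL n T = 0 :=
  ExteriorAlgebra.basis_mul_of_not_disjoint (bV n) (Set.powersetCard.ofCard rfl)
    (Set.powersetCard.ofCard rfl) h

theorem EA2_mul_dis {S T : Finset (Ix n)} (h : Disjoint S T) :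
    ∃ ε : ℤˣ, bL n S * bL n T = ε • bL n (S.disjUnion T h) :=
  ⟨_, ExteriorAlgebra.basis_mul_of_disjoint (bV n) (Set.powersetCard.ofCard rfl)
    (Set.powersetCard.ofCard rfl) h⟩

theorem EA2_pair (S T : Finset (Ix n)) : top (bL n S * bL n T) ≠ 0 ↔ T = Sᶜ := by
  by_cases h : Disjoint S T
  · obtain ⟨ε, e⟩ := EA2_mul_dis h
    have h1 : top (bL n S * bL n T) ≠ 0 ↔ (bL n).coord Finset.univ (bL n (S.disjUnion T h)) ≠ 0 := by
      have := EA2_coord_vol (n := n)
      rw [e, Units.smul_def, map_zsmul, top, LinearMap.smul_apply, smul_ne_zero_iff,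
        smul_ne_zero_iff, and_iff_right ε.ne_zero, and_iff_right (inv_ne_zero this)]
    rw [h1]
    refine ⟨fun h2 => ?_, fun h2 => ?_⟩
    · have h3 : S.disjUnion T h = Finset.univ := by_contra fun h3 => h2 (EA2_coord h3)
      rw [Finset.disjUnion_eq_union] at h3
      exact (IsCompl.compl_eq ⟨h, codisjoint_iff.2 h3⟩).symm
    · rw [Finset.disjUnion_eq_union, h2, Finset.union_compl]
      simp
  · rw [EA2_mul_not h, map_zero]
    exact iff_of_false (fun e => e rfl) fun e => h (e ▸ disjoint_compl_right)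

theorem EA2_nondeg (F : Finset (Ix n) → Λ n →ₗ[ℂ] ℂ) (hF : ∀ S T, F S (bL n T) ≠ 0 ↔ T = S)
    {a : Λ n} (h : ∀ S, F S a = 0) : a = 0 := by
  refine (bL n).ext_elem fun S => ?_
  have h1 := h S
  rw [← (bL n).sum_repr a, map_sum, Finset.sum_eq_single S (fun T _ hT => by
    rw [map_smul, not_not.1 (mt (hF S T).1 hT), smul_zero]) (by simp), map_smul] at h1
  simpa using (smul_eq_zero.1 h1).resolve_right ((hF S S).2 rfl)

theorem top_nondeg {a : Λ n} (h : ∀ b, top (a * b) = 0) : a = 0 := by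
  exact EA2_nondeg (fun S => top ∘ₗ LinearMap.mulRight ℂ (bL n Sᶜ))
    (fun S T => (EA2_pair T Sᶜ).trans (compl_inj_iff.trans eq_comm)) fun S => h _

theorem top_nondeg' {a : Λ n} (h : ∀ b, top (b * a) = 0) : a = 0 := by
  exact EA2_nondeg (fun S => top ∘ₗ LinearMap.mulLeft ℂ (bL n Sᶜ))
    (fun S T => (EA2_pair Sᶜ T).trans (by rw [compl_compl])) fun S => h _

/-- Positivity on `(n, 0)`. -/
theorem pos_n0 : ∃ t : ℝ, 0 < t ∧ I ^ (n ^ 2) * top ((List.ofFn (dz : Fin n → Λ n)).prod *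
    cj (List.ofFn (dz : Fin n → Λ n)).prod) = t := by
  refine ⟨2 ^ n, by positivity, ?_⟩
  have h1 := top_vol (n := n)
  have h2 : n ^ 2 = n + 2 * n.choose 2 := by
    induction n with
    | zero => rfl
    | succ n ih => rw [Nat.choose_succ_succ, Nat.choose_one_right]; nlinarith [ih top_vol]
  rw [EA2_vol, map_smul, smul_eq_mul, div_pow] at h1
  rw [h2, pow_add, pow_mul, I_sq]
  push_cast
  field_simp at h1
  linear_combination h1

theorem pos_n0' {a : Λ n} (ha : a ∈ Tp n n 0) (h0 : a ≠ 0) :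
    ∃ t : ℝ, 0 < t ∧ I ^ (n ^ 2) * top (a * cj a) = t := by
  obtain ⟨c, rfl⟩ := mem_Tp_n0.1 ha
  obtain ⟨t, ht, e⟩ := pos_n0 (n := n)
  have hc : c ≠ 0 := left_ne_zero_of_smul h0
  refine ⟨normSq c * t, mul_pos (normSq_pos.2 hc) ht, ?_⟩
  rw [cj_smul, smul_mul_smul_comm, map_smul, smul_eq_mul, mul_conj, mul_left_comm, e, ofReal_mul]

/-- Forgetting the first coordinate. -/
def EA2R (n : ℕ) : E (n + 1) →L[ℝ] E n :=
  ContinuousLinearMap.pi fun j => ContinuousLinearMap.proj (R := ℝ) (φ := fun _ => ℂ) j.succ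

theorem EA2R_apply (z : E (n + 1)) (j : Fin n) : EA2R n z j = z j.succ := rfl

theorem EA2_D : (dz 0 * dzb 0 : Λ (n + 1)) ∈ Dg (n + 1) (2 * 1) :=
  Dg_mul (k := 1) (l := 1) (io_mem _) (io_mem _)

theorem EA2_gen {A : E n →L[ℝ] E (n + 1)} (hA : ∀ z, A z = Fin.cons 0 z) (i : Ix (n + 1)) :
    dz 0 * dzb 0 * io (vg i) = dz 0 * dzb 0 * io (((vg i).comp A).comp (EA2R n)) := by
  obtain ⟨j | j, rfl⟩ := toLex.surjective i <;> refine Fin.cases ?_ (fun j => ?_) j
  · have e : ((vg (toLex (Sum.inl 0))).comp A).comp (EA2R n) = 0 := by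
      ext1 z; simp [vg, hA]
    have e1 : (dz 0 * dz 0 : Λ (n + 1)) = 0 := io_sq _
    have e2 : io (vg (toLex (Sum.inl 0))) = (dz 0 : Λ (n + 1)) := rfl
    rw [e, map_zero, mul_zero, comm_even EA2_D, ← mul_assoc, e2, e1, zero_mul]
  · have e : ((vg (toLex (Sum.inl j.succ))).comp A).comp (EA2R n) = vg (toLex (Sum.inl j.succ)) := by
      ext1 z; simp [vg, hA, EA2R_apply]
    rw [e]
  · have e : ((vg (toLex (Sum.inr 0))).comp A).comp (EA2R n) = 0 := by
      ext1 z; simp [vg, hA]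
    have e1 : (dzb 0 * dzb 0 : Λ (n + 1)) = 0 := io_sq _
    have e2 : io (vg (toLex (Sum.inr 0))) = (dzb 0 : Λ (n + 1)) := rfl
    rw [e, map_zero, mul_zero, mul_assoc, e2, e1, mul_zero]
  · have e : ((vg (toLex (Sum.inr j.succ))).comp A).comp (EA2R n) = vg (toLex (Sum.inr j.succ)) := by
      ext1 z; simp [vg, hA, EA2R_apply]
    rw [e]

theorem EA2_red {A : E n →L[ℝ] E (n + 1)} (hA : ∀ z, A z = Fin.cons 0 z) (a : Λ (n + 1)) :
    dz 0 * dzb 0 * a = dz 0 * dzb 0 * lm (EA2R n) (lm A a) := by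
  have hD := EA2_D (n := n)
  have h0 := EA2_gen hA
  generalize (dz 0 * dzb 0 : Λ (n + 1)) = D at hD h0 ⊢
  refine ext_ind (C := fun a => D * a = D * lm (EA2R n) (lm A a))
    (fun c => by rw [AlgHom.commutes, AlgHom.commutes]) (fun v => ?_) (fun a b ha hb => ?_)
    (fun a b ha hb => by rw [map_add, map_add, mul_add, mul_add, ha, hb]) a
  · rw [← v_eq_sum v, map_sum, map_sum, map_sum, Finset.mul_sum, Finset.mul_sum]
    refine Finset.sum_congr rfl fun i _ => ?_
    rw [map_smul, map_smul, map_smul, mul_smul_comm, mul_smul_comm, h0, lm_io, lm_io]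
  · rw [map_mul, map_mul, ← mul_assoc, ha, comm_even hD, mul_assoc, hb, ← mul_assoc,
      ← comm_even hD, mul_assoc]

theorem EA2_vol_succ : vol (n + 1) = (I / 2) • (dz 0 * dzb 0 * lm (EA2R n) (vol n)) := by
  have e1 : ∀ j : Fin n, lm (EA2R n) (dz j) = dz j.succ := fun j => lm_io _ _
  have e2 : ∀ j : Fin n, lm (EA2R n) (dzb j) = dzb j.succ := fun j => lm_io _ _
  rw [vol, vol, List.ofFn_succ, List.prod_cons, map_list_prod, List.map_ofFn, smul_mul_assoc]
  refine congrArg (fun f => (I / 2) • (dz 0 * dzb 0 * (List.ofFn f).prod)) (funext fun j => ?_)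
  rw [Function.comp_apply, map_smul, map_mul, e1, e2]

/-- The volume form of a product. -/
theorem top_cons : ∃ c : ℂ, c ≠ 0 ∧ ∀ (A : E n →L[ℝ] E (n + 1)), (∀ z, A z = Fin.cons 0 z) →
    ∀ a : Λ (n + 1), top (dz 0 * dzb 0 * a) = c * top (lm A a) := by
  refine ⟨(I / 2)⁻¹, by simp, fun A hA a => ?_⟩
  have h3 := EA2_lin' (top ∘ₗ LinearMap.mulLeft ℂ (dz 0 * dzb 0) ∘ₗ (lm (EA2R n)).toLinearMap)
    (fun k b hb hk => top_of_Dg (Dg_mul EA2_D (lm_Dg _ hb)) (by omega)) (lm A a)
  have h4 := top_vol (n := n + 1)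
  rw [EA2_vol_succ, map_smul, smul_eq_mul] at h4
  rw [EA2_red hA, ← eq_inv_of_mul_eq_one_right h4]
  exact h3

end

end Pool.Agent.MP_1c689d_ag.K0

end

section

/-! The operators on the model space. -/

set_option autoImplicit false

open Complex Filter Topology Set MeasureTheory
open scoped ComplexConjugate ContDiff ENNReal

namespace Pool.Agent.MP_1c689d_ag.K0

noncomputable section

variable {n m p q k : ℕ} {α β : E n → Λ n} {z : E n}

/-- The algebraic part of a first order operator. -/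
def DFa_T (v : Fin n → V n) (s : ℂ) (L : E n →L[ℝ] Λ n) : Λ n :=
  ∑ j, io (v j) * ((1 / 2 : ℂ) • (L (Pi.single j 1) + s • L (Pi.single j I)))

theorem DFa_dp (α : E n → Λ n) : dpE α = fun z => DFa_T vz (-I) (fderiv ℝ α z) := by
  funext z
  simp only [dpE, DFa_T, dz, pz, neg_smul, sub_eq_add_neg]

theorem DFa_db (α : E n → Λ n) :
    dbE α = fun z => DFa_T (fun j => vc (vz j)) I (fderiv ℝ α z) := rfl

theorem DFa_add (v : Fin n → V n) (s : ℂ) (L L' : E n →L[ℝ] Λ n) :
    DFa_T v s (L + L') = DFa_T v s L + DFa_T v s L' := by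
  simp only [DFa_T, ← Finset.sum_add_distrib, add_apply]
  refine Finset.sum_congr rfl fun j _ => ?_
  rw [← mul_add]
  congr 1
  module

theorem DFa_smul (v : Fin n → V n) (s c : ℂ) (L : E n →L[ℝ] Λ n) :
    DFa_T v s (c • L) = c • DFa_T v s L := by
  simp only [DFa_T, Finset.smul_sum, smul_apply]
  refine Finset.sum_congr rfl fun j _ => ?_
  rw [← mul_smul_comm]
  congr 1
  module

theorem DFa_zero (v : Fin n → V n) (s : ℂ) : DFa_T v s (0 : E n →L[ℝ] Λ n) = 0 := by
  simp [DFa_T]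

theorem DFa_clm (v : Fin n → V n) (s : ℂ) :
    ∃ T : (E n →L[ℝ] Λ n) →L[ℝ] Λ n, ∀ L, T L = DFa_T v s L := by
  refine ⟨⟨⟨⟨DFa_T v s, DFa_add v s⟩, fun c L => ?_⟩, ?_⟩, fun _ => rfl⟩
  · have h : c • L = (c : ℂ) • L := by
      ext1 w
      simp
    simp only [RingHom.id_apply]
    rw [h, DFa_smul]
    simp
  · show Continuous (DFa_T v s)
    unfold DFa_T
    fun_prop

theorem DFa_mul (v : Fin n → V n) (s : ℂ) (ha : DifferentiableAt ℝ α z)
    (hb : DifferentiableAt ℝ β z) : DFa_T v s (fderiv ℝ (α * β) z)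
      = DFa_T v s (fderiv ℝ α z) * β z + gi (α z) * DFa_T v s (fderiv ℝ β z) := by
  have h : ∀ w, fderiv ℝ (α * β) z w = fderiv ℝ α z w * β z + α z * fderiv ℝ β z w := by
    intro w
    rw [fderiv_mul' ha hb]
    simp [add_comm]
  simp only [DFa_T, h, Finset.sum_mul, Finset.mul_sum, ← Finset.sum_add_distrib]
  refine Finset.sum_congr rfl fun j _ => ?_
  rw [← mul_assoc (gi (α z)), ← io_mul_eq]
  simp only [mul_assoc, ← mul_add]
  congr 1
  simp only [mul_smul_comm, smul_mul_assoc, mul_add, add_mul]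
  module

theorem DFa_contDiffAt (v : Fin n → V n) (s : ℂ) (h : ContDiffAt ℝ ∞ α z) :
    ContDiffAt ℝ ∞ (fun y => DFa_T v s (fderiv ℝ α y)) z := by
  obtain ⟨T, hT⟩ := DFa_clm v s
  simp only [← hT]
  exact T.contDiff.contDiffAt.comp z (h.fderiv_right (m := ∞) (by simp))

theorem DFa_two (v v' : Fin n → V n) (s s' : ℂ) (h : ContDiffAt ℝ 2 α z) :
    DFa_T v s (fderiv ℝ (fun y => DFa_T v' s' (fderiv ℝ α y)) z)
      + DFa_T v' s' (fderiv ℝ (fun y => DFa_T v s (fderiv ℝ α y)) z) = 0 := by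
  have hd : DifferentiableAt ℝ (fderiv ℝ α) z :=
    (h.fderiv_right (m := 1) (by norm_num)).differentiableAt (by norm_num)
  have key : ∀ (u : Fin n → V n) (t : ℂ) (w : E n),
      fderiv ℝ (fun y => DFa_T u t (fderiv ℝ α y)) z w
        = DFa_T u t (fderiv ℝ (fderiv ℝ α) z w) := by
    intro u t w
    obtain ⟨T, hT⟩ := DFa_clm u t
    simp only [← hT]
    have := (T.hasFDerivAt.comp z hd.hasFDerivAt).fderiv
    rw [show (fun y => T (fderiv ℝ α y)) = T ∘ fderiv ℝ α from rfl, this]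
    rfl
  have hs : ∀ a b, fderiv ℝ (fderiv ℝ α) z a b = fderiv ℝ (fderiv ℝ α) z b a :=
    fun a b => (h.isSymmSndFDerivAt (by simp)).eq a b
  rw [DFa_T, DFa_T]
  simp only [key]
  generalize fderiv ℝ (fderiv ℝ α) z = F at hs
  have sw : ∀ f g : Fin n → Fin n → Λ n, (∀ j l, f j l + g l j = 0) →
      ∑ j, ∑ l, (f j l + g j l) = 0 := by
    intro f g hfg
    simp only [Finset.sum_add_distrib]
    rw [Finset.sum_comm (f := g), ← Finset.sum_add_distrib]
    refine Finset.sum_eq_zero fun j _ => ?_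
    rw [← Finset.sum_add_distrib]
    exact Finset.sum_eq_zero fun l _ => hfg j l
  simp only [DFa_T, Finset.smul_sum, Finset.mul_sum, ← Finset.sum_add_distrib]
  refine sw _ _ fun j l => ?_
  have e : io (v' l) * io (v j) = -(io (v j) * io (v' l)) :=
    eq_neg_of_add_eq_zero_right (io_add_swap _ _)
  simp only [mul_smul_comm, mul_add, smul_add, ← mul_assoc, e, neg_mul,
    hs (Pi.single l _) (Pi.single j _)]
  module

theorem DFa_half {a : Λ n} (h : a + a = 0) : a = 0 := by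
  have : a = (1 / 2 : ℂ) • (a + a) := by module
  rw [this, h, smul_zero]

theorem dpE_congr (h : α =ᶠ[𝓝 z] β) : dpE α z = dpE β z := by
  simp only [DFa_dp, h.fderiv_eq]

theorem dbE_congr (h : α =ᶠ[𝓝 z] β) : dbE α z = dbE β z := by
  simp only [DFa_db, h.fderiv_eq]

theorem dpE_add (ha : DifferentiableAt ℝ α z) (hb : DifferentiableAt ℝ β z) :
    dpE (α + β) z = dpE α z + dpE β z := by
  simp only [DFa_dp, fderiv_add ha hb, DFa_add]

theorem dbE_add (ha : DifferentiableAt ℝ α z) (hb : DifferentiableAt ℝ β z) :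
    dbE (α + β) z = dbE α z + dbE β z := by
  simp only [DFa_db, fderiv_add ha hb, DFa_add]

theorem dpE_smul (c : ℂ) : dpE (c • α) z = c • dpE α z := by
  simp only [DFa_dp, fderiv_const_smul_field, Pi.smul_apply, DFa_smul]

theorem dbE_smul (c : ℂ) : dbE (c • α) z = c • dbE α z := by
  simp only [DFa_db, fderiv_const_smul_field, Pi.smul_apply, DFa_smul]

theorem dpE_const (a : Λ n) : dpE (fun _ => a) z = 0 := by
  simp only [DFa_dp, fderiv_fun_const, Pi.zero_apply, DFa_zero]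

theorem dbE_const (a : Λ n) : dbE (fun _ => a) z = 0 := by
  simp only [DFa_db, fderiv_fun_const, Pi.zero_apply, DFa_zero]

theorem dpE_mul (ha : DifferentiableAt ℝ α z) (hb : DifferentiableAt ℝ β z) :
    dpE (α * β) z = dpE α z * β z + gi (α z) * dpE β z := by
  simp only [DFa_dp, DFa_mul _ _ ha hb]

theorem dbE_mul (ha : DifferentiableAt ℝ α z) (hb : DifferentiableAt ℝ β z) :
    dbE (α * β) z = dbE α z * β z + gi (α z) * dbE β z := by
  simp only [DFa_db, DFa_mul _ _ ha hb]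

theorem contDiffAt_dpE (h : ContDiffAt ℝ ∞ α z) : ContDiffAt ℝ ∞ (dpE α) z := by
  rw [DFa_dp]
  exact DFa_contDiffAt _ _ h

theorem contDiffAt_dbE (h : ContDiffAt ℝ ∞ α z) : ContDiffAt ℝ ∞ (dbE α) z := by
  rw [DFa_db]
  exact DFa_contDiffAt _ _ h

theorem dpE_dpE (h : ContDiffAt ℝ 2 α z) : dpE (dpE α) z = 0 := by
  simp only [DFa_dp]
  exact DFa_half (DFa_two _ _ _ _ h)

theorem dbE_dbE (h : ContDiffAt ℝ 2 α z) : dbE (dbE α) z = 0 := by
  simp only [DFa_db]
  exact DFa_half (DFa_two _ _ _ _ h)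

theorem dbE_dpE (h : ContDiffAt ℝ 2 α z) : dbE (dpE α) z + dpE (dbE α) z = 0 := by
  simp only [DFa_db, DFa_dp]
  exact DFa_two _ _ _ _ h

end

end Pool.Agent.MP_1c689d_ag.K0

end

section

/-! The operators on the model space. -/

set_option autoImplicit false

open Complex Filter Topology Set MeasureTheory
open scoped ComplexConjugate ContDiff ENNReal

namespace Pool.Agent.MP_1c689d_ag.K0

noncomputable section

variable {n m p q k : ℕ} {α β : E n → Λ n} {z : E n}

section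

variable {W W' : Type} [NormedAddCommGroup W] [NormedSpace ℂ W] [NormedAddCommGroup W']
  [NormedSpace ℂ W'] {f : E n → W}

theorem DFb_fderiv (L : W →L[ℝ] W') (h : DifferentiableAt ℝ f z) (v : E n) :
    fderiv ℝ (fun w => L (f w)) z v = L (fderiv ℝ f z v) :=
  DFunLike.congr_fun (L.hasFDerivAt.comp z h.hasFDerivAt).fderiv v

theorem DFb_fderiv' (L : W →L[ℝ] W') (M : W' →L[ℝ] W) (hM : ∀ x, M (L x) = x) (v : E n) :
    fderiv ℝ (fun w => L (f w)) z v = L (fderiv ℝ f z v) := by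
  by_cases h : DifferentiableAt ℝ f z
  · exact DFb_fderiv L h v
  · rw [fderiv_zero_of_not_differentiableAt h, fderiv_zero_of_not_differentiableAt fun k =>
      h (by simpa only [Function.comp_def, hM] using M.differentiableAt.comp z k)]
    simp

theorem DFb_single (j : Fin n) : (Pi.single j I : E n) = I • Pi.single j 1 := by
  rw [← Pi.single_smul, smul_eq_mul, mul_one]

variable [FiniteDimensional ℂ W] [FiniteDimensional ℂ W']

theorem DFb_lin (L : W →ₗ[ℂ] W') (h : DifferentiableAt ℝ f z ∨ Function.Injective L) (v : E n) :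
    fderiv ℝ (fun w => L (f w)) z v = L (fderiv ℝ f z v) := by
  rcases h with h | h
  · exact DFb_fderiv ((LinearMap.toContinuousLinearMap L).restrictScalars ℝ) h v
  · obtain ⟨M, hM⟩ := L.exists_leftInverse_of_injective (LinearMap.ker_eq_bot.2 h)
    exact DFb_fderiv' ((LinearMap.toContinuousLinearMap L).restrictScalars ℝ)
      ((LinearMap.toContinuousLinearMap M).restrictScalars ℝ) (DFunLike.congr_fun hM) v

theorem DFb_pz (L : W →ₗ[ℂ] W') (h : DifferentiableAt ℝ f z ∨ Function.Injective L) (j : Fin n) :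
    pz j (fun w => L (f w)) z = L (pz j f z) := by
  simp only [pz, DFb_lin L h, map_smul, map_sub]

theorem DFb_pzb (L : W →ₗ[ℂ] W') (h : DifferentiableAt ℝ f z ∨ Function.Injective L) (j : Fin n) :
    pzb j (fun w => L (f w)) z = L (pzb j f z) := by
  simp only [pzb, DFb_lin L h, map_smul, map_add]

theorem DFb_mem {S : Submodule ℂ W} (h : ∀ᶠ w in 𝓝 z, f w ∈ S) (v : E n) :
    fderiv ℝ f z v ∈ S := by
  by_cases k : DifferentiableAt ℝ f z
  · obtain ⟨M, hM⟩ := S.subtype.exists_leftInverse_of_injective S.ker_subtype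
    have e : f =ᶠ[𝓝 z] fun w => (S.subtype ∘ₗ M) (f w) :=
      h.mono fun w hw => (congrArg Subtype.val (DFunLike.congr_fun hM ⟨_, hw⟩)).symm
    rw [e.fderiv_eq, DFb_lin _ (Or.inl k)]
    exact Subtype.property _
  · rw [fderiv_zero_of_not_differentiableAt k]
    exact zero_mem _

theorem DFb_pz_mem {S : Submodule ℂ W} (h : ∀ᶠ w in 𝓝 z, f w ∈ S) (j : Fin n) : pz j f z ∈ S :=
  S.smul_mem _ (sub_mem (DFb_mem h _) (S.smul_mem _ (DFb_mem h _)))

theorem DFb_pzb_mem {S : Submodule ℂ W} (h : ∀ᶠ w in 𝓝 z, f w ∈ S) (j : Fin n) : pzb j f z ∈ S :=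
  S.smul_mem _ (add_mem (DFb_mem h _) (S.smul_mem _ (DFb_mem h _)))

end

theorem DFb_cj (v : E n) : fderiv ℝ (fun w => cj (α w)) z v = cj (fderiv ℝ α z v) := by
  obtain ⟨T, hT⟩ := exists_cjL (n := n)
  simp only [← hT]
  exact DFb_fderiv' (T : Λ n →L[ℝ] Λ n) T.symm T.symm_apply_apply v

theorem DFb_gi : Function.Injective (gi : Λ n →ₐ[ℂ] Λ n).toLinearMap :=
  Function.LeftInverse.injective gi_gi

theorem DFb_io (v : V n) : io v = ∑ j, vco v (toLex (Sum.inl j)) • dz j +
    ∑ j, vco v (toLex (Sum.inr j)) • dzb j := by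
  conv_lhs => rw [← v_eq_sum v, map_sum, sum_ix]
  simp only [map_smul]
  rfl

theorem dpE_Tp (h : ∀ᶠ w in 𝓝 z, α w ∈ Tp n p q) : dpE α z ∈ Tp n (p + 1) q := by
  refine sum_mem fun j _ => ?_
  have := Tp_mul (dz_mem j) (DFb_pz_mem h j)
  rwa [add_comm 1, zero_add] at this

theorem dbE_Tp (h : ∀ᶠ w in 𝓝 z, α w ∈ Tp n p q) : dbE α z ∈ Tp n p (q + 1) := by
  refine sum_mem fun j _ => ?_
  have := Tp_mul (dzb_mem j) (DFb_pzb_mem h j)
  rwa [add_comm 1, zero_add] at this

theorem dpE_Dg (h : ∀ᶠ w in 𝓝 z, α w ∈ Dg n k) : dpE α z ∈ Dg n (k + 1) := by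
  exact sum_mem fun j _ => add_comm 1 k ▸ Dg_mul (io_mem _) (DFb_pz_mem h j)

theorem dbE_Dg (h : ∀ᶠ w in 𝓝 z, α w ∈ Dg n k) : dbE α z ∈ Dg n (k + 1) := by
  exact sum_mem fun j _ => add_comm 1 k ▸ Dg_mul (io_mem _) (DFb_pzb_mem h j)

theorem prj_dpE (h : DifferentiableAt ℝ α z) :
    prj (p + 1) q (dpE α z) = dpE (fun w => prj p q (α w)) z := by
  rw [dpE, dpE, map_sum]
  refine Finset.sum_congr rfl fun j _ => ?_
  rw [DFb_pz _ (Or.inl h), ← prj_mul_left (dz_mem j), add_comm 1, zero_add]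

theorem prj_dbE (h : DifferentiableAt ℝ α z) :
    prj p (q + 1) (dbE α z) = dbE (fun w => prj p q (α w)) z := by
  rw [dbE, dbE, map_sum]
  refine Finset.sum_congr rfl fun j _ => ?_
  rw [DFb_pzb _ (Or.inl h), ← prj_mul_left (dzb_mem j), add_comm 1, zero_add]

theorem prj_zero_dpE : prj 0 q (dpE α z) = 0 := by
  rw [dpE, map_sum]
  exact Finset.sum_eq_zero fun j _ => prj_mul_lt (dz_mem j) _ (Or.inl zero_lt_one)

theorem cj_dpE : cj (dpE α z) = dbE (fun w => cj (α w)) z := by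
  simp [dpE, dbE, pz, pzb, map_sum, cj_dz, cj_smul, DFb_cj, map_ofNat, mul_add]

theorem cj_dbE : cj (dbE α z) = dpE (fun w => cj (α w)) z := by
  simp [dpE, dbE, pz, pzb, map_sum, cj_dzb, cj_smul, DFb_cj, map_ofNat, sub_eq_add_neg]

theorem dpE_gi : dpE (fun w => gi (α w)) z = -gi (dpE α z) := by
  rw [dpE, dpE, map_sum, ← Finset.sum_neg_distrib]
  refine Finset.sum_congr rfl fun j _ => ?_
  rw [map_mul, dz, gi_io, neg_mul, neg_neg]
  exact congrArg _ (DFb_pz _ (Or.inr DFb_gi) j)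

theorem dbE_gi : dbE (fun w => gi (α w)) z = -gi (dbE α z) := by
  rw [dbE, dbE, map_sum, ← Finset.sum_neg_distrib]
  refine Finset.sum_congr rfl fun j _ => ?_
  rw [map_mul, dzb, gi_io, neg_mul, neg_neg]
  exact congrArg _ (DFb_pzb _ (Or.inr DFb_gi) j)

theorem dpE_fn (f : E n → ℂ) :
    dpE (fun w => algebraMap ℂ (Λ n) (f w)) z = ∑ j, pz j f z • dz j := by
  refine Finset.sum_congr rfl fun j _ => ?_
  rw [Algebra.smul_def, Algebra.commutes]
  exact congrArg _ (DFb_pz (Algebra.linearMap ℂ (Λ n)) (Or.inr algebraMap_inj) j)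

theorem dbE_fn (f : E n → ℂ) :
    dbE (fun w => algebraMap ℂ (Λ n) (f w)) z = ∑ j, pzb j f z • dzb j := by
  refine Finset.sum_congr rfl fun j _ => ?_
  rw [Algebra.smul_def, Algebra.commutes]
  exact congrArg _ (DFb_pzb (Algebra.linearMap ℂ (Λ n)) (Or.inr algebraMap_inj) j)

theorem dE_fn (f : E n → ℂ) : dE (fun w => algebraMap ℂ (Λ n) (f w)) z = io (fderiv ℝ f z) := by
  rw [dE, dpE_fn, dbE_fn, DFb_io]
  simp only [pz, pzb, vco, ofLex_toLex, Sum.elim_inl, Sum.elim_inr, smul_eq_mul, mul_one,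
    div_eq_inv_mul]

/-- The exterior derivative in the real coordinates. -/
theorem dE_eq (b : Module.Basis (Ix n) ℝ (E n)) (v : Ix n → V n)
    (hv : ∀ i (w : E n), v i w = (b.repr w i : ℝ)) :
    dE α z = ∑ i, io (v i) * fderiv ℝ α z (b i) := by
  have hD : ∀ w, fderiv ℝ α z w = ∑ i, v i w • fderiv ℝ α z (b i) := fun w => by
    conv_lhs => rw [← b.sum_repr w, map_sum]
    simp only [hv, map_smul, coe_smul]
  simp only [DFb_io (v _), add_mul, Finset.sum_mul, Finset.sum_add_distrib]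
  rw [dE, dpE, dbE, Finset.sum_comm, Finset.sum_comm (f := fun i j => _ • dzb j * _)]
  congr 1 <;> refine Finset.sum_congr rfl fun j _ => ?_
  · rw [pz, hD (Pi.single j 1), hD (Pi.single j I), Finset.smul_sum, ← Finset.sum_sub_distrib,
      Finset.smul_sum, Finset.mul_sum]
    refine Finset.sum_congr rfl fun i _ => ?_
    rw [smul_smul, ← sub_smul, smul_smul, mul_smul_comm, smul_mul_assoc, one_div,
      ← div_eq_inv_mul]
    rfl
  · rw [pzb, hD (Pi.single j 1), hD (Pi.single j I), Finset.smul_sum, ← Finset.sum_add_distrib,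
      Finset.smul_sum, Finset.mul_sum]
    refine Finset.sum_congr rfl fun i _ => ?_
    rw [smul_smul, ← add_smul, smul_smul, mul_smul_comm, smul_mul_assoc, one_div,
      ← div_eq_inv_mul]
    rfl

theorem differentiableAt_of_pzb {W : Type} [NormedAddCommGroup W] [NormedSpace ℂ W]
    {f : E n → W} (h : DifferentiableAt ℝ f z) (h0 : ∀ j, pzb j f z = 0) :
    DifferentiableAt ℂ f z := by
  have h1 : ∀ j, fderiv ℝ f z (Pi.single j I) = I • fderiv ℝ f z (Pi.single j 1) := fun j => by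
    rw [eq_neg_of_add_eq_zero_left ((smul_eq_zero.1 (h0 j)).resolve_left (by norm_num)), smul_neg,
      smul_smul, I_mul_I, neg_smul, neg_neg, one_smul]
  refine (differentiableAt_iff_restrictScalars ℝ h).2 ⟨∑ j, (ContinuousLinearMap.proj
    (R := ℂ) (φ := fun _ => ℂ) j).smulRight (fderiv ℝ f z (Pi.single j 1)), ?_⟩
  ext1 w
  have hz : w = ∑ j, ((w j).re • (Pi.single j 1 : E n) + (w j).im • (Pi.single j I : E n)) := by
    funext l
    simp only [Finset.sum_apply, Pi.add_apply, Pi.smul_apply, Pi.single_apply, smul_ite, smul_zero,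
      Finset.sum_add_distrib, Finset.sum_ite_eq, Finset.mem_univ, if_true]
    simp
  conv_rhs => rw [hz, map_sum]
  rw [ContinuousLinearMap.coe_restrictScalars', sum_apply]
  refine Finset.sum_congr rfl fun j _ => ?_
  rw [map_add, map_smul, map_smul, h1, ← coe_smul, ← coe_smul, smul_smul, ← add_smul, re_add_im]
  rfl

theorem pzb_of_differentiableAt {W : Type} [NormedAddCommGroup W] [NormedSpace ℂ W]
    {f : E n → W} (h : DifferentiableAt ℂ f z) (j : Fin n) : pzb j f z = 0 := by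
  rw [pzb, h.fderiv_restrictScalars ℝ, ContinuousLinearMap.coe_restrictScalars', DFb_single,
    map_smul, smul_smul, I_mul_I, neg_one_smul, add_neg_cancel, smul_zero]

theorem pz_of_differentiableAt {W : Type} [NormedAddCommGroup W] [NormedSpace ℂ W]
    {f : E n → W} (h : DifferentiableAt ℂ f z) (j : Fin n) :
    pz j f z = fderiv ℂ f z (Pi.single j 1) := by
  rw [pz, h.fderiv_restrictScalars ℝ, ContinuousLinearMap.coe_restrictScalars', DFb_single,
    map_smul, smul_smul, I_mul_I, neg_one_smul, sub_neg_eq_add, ← two_smul ℂ, smul_smul]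
  norm_num

/-- For a form of type `(p, 0)`, `∂ bar α = 0` means that the coefficients are holomorphic. -/
theorem dbE_eq_zero_iff (h : ∀ᶠ w in 𝓝 z, α w ∈ Tp n p 0) :
    dbE α z = 0 ↔ ∀ j, pzb j α z = 0 := by
  refine ⟨fun h0 j => ?_, fun h0 => Finset.sum_eq_zero fun j _ => by rw [h0, mul_zero]⟩
  have h1 := congrArg (ctr ((bV n).coord (toLex (Sum.inr j)))) h0
  have h2 : ∀ i, vc (vz i) = bV n (toLex (Sum.inr i)) := fun i =>
    (bV_apply (toLex (Sum.inr i))).symm
  simp only [dbE, dzb, map_sum, ctr_io_mul, ctr_Tp_right_zero j (DFb_pzb_mem h _), h2] at h1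
  simpa [Finsupp.single_apply] using h1

/-- See `osgood` in `Pool/Agent/MP_e62289_ag/Cx1a.lean` on main (copy it into an Aux file). -/
theorem contDiffAt_of_hol {W : Type} [NormedAddCommGroup W] [NormedSpace ℂ W] [CompleteSpace W]
    {f : E n → W} (h : ∀ᶠ w in 𝓝 z, DifferentiableAt ℂ f w) : ContDiffAt ℝ ∞ f z := by
  obtain ⟨s, h1, h2, h3⟩ := eventually_nhds_iff.1 h
  exact ((DFbAux_osgood h2 fun w hw => (h1 w hw).differentiableWithinAt).contDiffAt
    (h2.mem_nhds h3)).restrict_scalars ℝ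

end

end Pool.Agent.MP_1c689d_ag.K0

end

section

/-! The operators on the model space. -/

set_option autoImplicit false

open Complex Filter Topology Set MeasureTheory
open scoped ComplexConjugate ContDiff ENNReal

namespace Pool.Agent.MP_1c689d_ag.K0

noncomputable section

variable {n m p q k : ℕ} {α β : E n → Λ n} {z : E n}

theorem DF_dp_sum {ι : Type} (s : Finset ι) (a : ι → E n → Λ n)
    (h : ∀ i ∈ s, DifferentiableAt ℝ (a i) z) :
    dpE (fun w => ∑ i ∈ s, a i w) z = ∑ i ∈ s, dpE (a i) z := by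
  classical
  induction s using Finset.induction_on with
  | empty => simpa using dpE_const (0 : Λ n)
  | insert i s hi ih =>
    have h2 : ∀ j ∈ s, DifferentiableAt ℝ (a j) z := fun j hj => h j (Finset.mem_insert_of_mem hj)
    simp only [Finset.sum_insert hi]
    rw [← ih h2]
    exact dpE_add (h i (Finset.mem_insert_self _ _)) (DifferentiableAt.fun_sum h2)

theorem DF_db_sum {ι : Type} (s : Finset ι) (a : ι → E n → Λ n)
    (h : ∀ i ∈ s, DifferentiableAt ℝ (a i) z) :
    dbE (fun w => ∑ i ∈ s, a i w) z = ∑ i ∈ s, dbE (a i) z := by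
  classical
  induction s using Finset.induction_on with
  | empty => simpa using dbE_const (0 : Λ n)
  | insert i s hi ih =>
    have h2 : ∀ j ∈ s, DifferentiableAt ℝ (a j) z := fun j hj => h j (Finset.mem_insert_of_mem hj)
    simp only [Finset.sum_insert hi]
    rw [← ih h2]
    exact dbE_add (h i (Finset.mem_insert_self _ _)) (DifferentiableAt.fun_sum h2)

theorem DF_d_sum {ι : Type} (s : Finset ι) (a : ι → E n → Λ n)
    (h : ∀ i ∈ s, DifferentiableAt ℝ (a i) z) :
    dE (fun w => ∑ i ∈ s, a i w) z = ∑ i ∈ s, dE (a i) z := by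
  simp only [dE, DF_dp_sum s a h, DF_db_sum s a h, Finset.sum_add_distrib]

theorem DF_d_mul (ha : DifferentiableAt ℝ α z) (hb : DifferentiableAt ℝ β z) :
    dE (fun w => α w * β w) z = dE α z * β z + gi (α z) * dE β z := by
  have h1 := dpE_mul ha hb
  have h2 := dbE_mul ha hb
  change dpE (α * β) z + dbE (α * β) z = _
  rw [h1, h2, dE, dE, add_mul, mul_add]
  abel

theorem DF_d_add (ha : DifferentiableAt ℝ α z) (hb : DifferentiableAt ℝ β z) :
    dE (fun w => α w + β w) z = dE α z + dE β z := by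
  have h1 := dpE_add ha hb
  have h2 := dbE_add ha hb
  change dpE (α + β) z + dbE (α + β) z = _
  rw [h1, h2, dE, dE]
  abel

theorem DF_lin {W : Type} [NormedAddCommGroup W] [NormedSpace ℂ W] (T : Λ m →ₗ[ℂ] W)
    {γ : E n → Λ m} (h : DifferentiableAt ℝ γ z) : DifferentiableAt ℝ (fun w => T (γ w)) z :=
  ((LinearMap.toContinuousLinearMap T).restrictScalars ℝ).differentiableAt.comp z h

theorem DF_alg {c : E n → ℂ} (h : DifferentiableAt ℝ c z) :
    DifferentiableAt ℝ (fun w => algebraMap ℂ (Λ m) (c w)) z :=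
  ((LinearMap.toContinuousLinearMap (Algebra.linearMap ℂ (Λ m))).restrictScalars
    ℝ).differentiableAt.comp z h

theorem DF_lm {F : E n → E n →L[ℝ] E m} {g : E n → Λ m} (hF : DifferentiableAt ℝ F z)
    (hg : DifferentiableAt ℝ g z) : DifferentiableAt ℝ (fun w => lm (F w) (g w)) z := by
  have h1 : DifferentiableAt ℝ (fun x : (E n →L[ℝ] E m) × Λ m => lm x.1 x.2) (F z, g z) :=
    ((contDiff_lm (n := n) (m := m)).differentiable (by simp)).differentiableAt
  have h2 : DifferentiableAt ℝ (fun w => (F w, g w)) z := hF.prodMk hg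
  exact DifferentiableAt.comp (g := fun x : (E n →L[ℝ] E m) × Λ m => lm x.1 x.2)
    (f := fun w => (F w, g w)) z h1 h2

theorem DF_dd (h : ContDiffAt ℝ 2 α z) : dE (dE α) z = 0 := by
  have h1 : DifferentiableAt ℝ (fderiv ℝ α) z :=
    (h.fderiv_right (m := 1) (by norm_num)).differentiableAt one_ne_zero
  have h2 : ∀ u : E n, DifferentiableAt ℝ (fun w => fderiv ℝ α w u) z := fun u =>
    h1.clm_apply (differentiableAt_const u)
  have hp : DifferentiableAt ℝ (dpE α) z := by
    refine DifferentiableAt.fun_sum (A := fun j w => dz j * pz j α w) fun j _ => ?_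
    exact (((h2 _).sub ((h2 _).const_smul I)).const_smul (1 / 2 : ℂ)).const_mul _
  have hb : DifferentiableAt ℝ (dbE α) z := by
    refine DifferentiableAt.fun_sum (A := fun j w => dzb j * pzb j α w) fun j _ => ?_
    exact (((h2 _).add ((h2 _).const_smul I)).const_smul (1 / 2 : ℂ)).const_mul _
  have h3 := DF_d_add hp hb
  change dE (fun w => dpE α w + dbE α w) z = 0
  rw [h3, dE, dE, dpE_dpE h, dbE_dbE h, zero_add, add_zero, dbE_dpE h]

theorem DF_closed {f : E n → E m} (hf : ContDiffAt ℝ 2 f z) (a : Λ m) :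
    dE (fun w => lm (fderiv ℝ f w) a) z = 0 := by
  have h1 : DifferentiableAt ℝ (fderiv ℝ f) z :=
    (hf.fderiv_right (m := 1) (by norm_num)).differentiableAt one_ne_zero
  have h2 : ∀ a : Λ m, DifferentiableAt ℝ (fun w => lm (fderiv ℝ f w) a) z := fun a =>
    DF_lm h1 (differentiableAt_const a)
  refine ext_ind (C := fun a => dE (fun w => lm (fderiv ℝ f w) a) z = 0) ?_ ?_ ?_ ?_ a
  · intro c
    simp only [AlgHom.commutes, dE, dpE_const, dbE_const, add_zero]
  · intro v
    have h3 : ContDiffAt ℝ 2 (fun w => algebraMap ℂ (Λ n) (v (f w))) z :=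
      ((LinearMap.toContinuousLinearMap (Algebra.linearMap ℂ (Λ n))).restrictScalars
        ℝ).contDiff.contDiffAt.comp z (v.contDiff.contDiffAt.comp z hf)
    have h4 : (fun w => lm (fderiv ℝ f w) (io v)) =ᶠ[𝓝 z]
        dE (fun w => algebraMap ℂ (Λ n) (v (f w))) := by
      filter_upwards [hf.eventually (by simp)] with w hw
      rw [dE_fn (fun w => v (f w)), lm_io]
      congr 1
      exact (v.hasFDerivAt.comp w (hw.differentiableAt two_ne_zero).hasFDerivAt).fderiv.symm
    rw [dE, dpE_congr h4, dbE_congr h4]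
    exact DF_dd h3
  · intro a b ha hb
    simp only [map_mul]
    rw [DF_d_mul (h2 a) (h2 b), ha, hb, zero_mul, mul_zero, add_zero]
  · intro a b ha hb
    simp only [map_add]
    rw [DF_d_add (h2 a) (h2 b), ha, hb, add_zero]

theorem DF_exp (a : Λ m) : a = ∑ S, algebraMap ℂ (Λ m) ((bL m).coord S a) * bL m S := by
  conv_lhs => rw [← (bL m).sum_repr a]
  simp only [Module.Basis.coord_apply, Algebra.smul_def]

/-- Naturality of `d`. Write `γ` in the basis `bL`; the pull-back of a generator is `d` of a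
component of `f`, which is closed by the symmetry of second derivatives. -/
theorem dE_pb {f : E n → E m} {γ : E m → Λ m} (hf : ContDiffAt ℝ 2 f z)
    (hγ : DifferentiableAt ℝ γ (f z)) :
    dE (fun w => lm (fderiv ℝ f w) (γ (f w))) z = lm (fderiv ℝ f z) (dE γ (f z)) := by
  have h1 : DifferentiableAt ℝ (fderiv ℝ f) z :=
    (hf.fderiv_right (m := 1) (by norm_num)).differentiableAt one_ne_zero
  have hf1 : DifferentiableAt ℝ f z := hf.differentiableAt two_ne_zero
  have hc : ∀ S, DifferentiableAt ℝ (fun x => (bL m).coord S (γ x)) (f z) := fun S =>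
    DF_lin _ hγ
  have e1 : (fun w => lm (fderiv ℝ f w) (γ (f w))) = fun w => ∑ S,
      algebraMap ℂ (Λ n) ((bL m).coord S (γ (f w))) * lm (fderiv ℝ f w) (bL m S) := by
    funext w
    conv_lhs => rw [DF_exp (γ (f w))]
    simp only [map_sum, map_mul, AlgHom.commutes]
  have e2 : γ = fun x => ∑ S, algebraMap ℂ (Λ m) ((bL m).coord S (γ x)) * bL m S :=
    funext fun x => DF_exp (γ x)
  have e3 : dE γ (f z) = ∑ S, io (fderiv ℝ (fun x => (bL m).coord S (γ x)) (f z)) * bL m S := by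
    conv_lhs => rw [e2]
    rw [DF_d_sum _ _ fun S _ => (DF_alg (hc S)).mul_const _]
    refine Finset.sum_congr rfl fun S _ => ?_
    rw [DF_d_mul (DF_alg (hc S)) (differentiableAt_const _), dE_fn]
    simp only [dE, dpE_const, dbE_const, add_zero, mul_zero]
  have h2 : ∀ S, DifferentiableAt ℝ
      (fun w => algebraMap ℂ (Λ n) ((bL m).coord S (γ (f w)))) z := fun S =>
    DF_alg ((hc S).comp z hf1)
  have h3 : ∀ a : Λ m, DifferentiableAt ℝ (fun w => lm (fderiv ℝ f w) a) z := fun a =>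
    DF_lm h1 (differentiableAt_const a)
  rw [e1, e3, DF_d_sum _ _ fun S _ => (h2 S).fun_mul (h3 _), map_sum]
  refine Finset.sum_congr rfl fun S _ => ?_
  rw [DF_d_mul (h2 S) (h3 _), DF_closed hf, mul_zero, add_zero,
    dE_fn (fun w => (bL m).coord S (γ (f w))), map_mul, lm_io]
  congr 2
  exact fderiv_comp z (hc S) hf1

theorem dpE_pb {f : E n → E m} {γ : E m → Λ m} (hf : ∀ᶠ w in 𝓝 z, DifferentiableAt ℂ f w)
    (hγ : DifferentiableAt ℝ γ (f z)) :
    dpE (fun w => lm (fderiv ℝ f w) (γ (f w))) z = lm (fderiv ℝ f z) (dpE γ (f z)) := by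
  have hs : ContDiffAt ℝ 2 f z := (contDiffAt_of_hol hf).of_le (WithTop.coe_le_coe.2 (le_top (a := (2 : ℕ∞))))
  have h1 : DifferentiableAt ℝ (fderiv ℝ f) z :=
    (hs.fderiv_right (m := 1) (by norm_num)).differentiableAt one_ne_zero
  have hf1 : DifferentiableAt ℝ f z := hs.differentiableAt two_ne_zero
  have hc : ∀ p q, DifferentiableAt ℝ (fun x => prj p q (γ x)) (f z) := fun p q => DF_lin _ hγ
  have key : ∀ p q, dpE (fun w => lm (fderiv ℝ f w) (prj p q (γ (f w)))) z =
      lm (fderiv ℝ f z) (dpE (fun x => prj p q (γ x)) (f z)) := by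
    intro p q
    have h2 := congrArg (prj (p + 1) q) (dE_pb hs (hc p q))
    have h3 : ∀ᶠ w in 𝓝 z, lm (fderiv ℝ f w) (prj p q (γ (f w))) ∈ Tp n p q := by
      filter_upwards [hf] with w hw
      rw [hw.fderiv_restrictScalars ℝ]
      exact lm_Tp _ (prj_mem _)
    have h4 : ∀ᶠ x in 𝓝 (f z), prj p q (γ x) ∈ Tp m p q := Eventually.of_forall fun x => prj_mem _
    have hne : (p + 1, q) ≠ (p, q + 1) := by simp
    rw [dE, map_add, prj_of_mem (dpE_Tp h3), prj_of_ne (dbE_Tp h3) hne, add_zero,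
      hf.self_of_nhds.fderiv_restrictScalars ℝ, ← lm_prj, dE, map_add, prj_of_mem (dpE_Tp h4),
      prj_of_ne (dbE_Tp h4) hne, add_zero, ← hf.self_of_nhds.fderiv_restrictScalars ℝ] at h2
    exact h2
  have e1 : (fun w => lm (fderiv ℝ f w) (γ (f w))) = fun w =>
      ∑ x ∈ Finset.range (m + 1) ×ˢ Finset.range (m + 1),
        lm (fderiv ℝ f w) (prj x.1 x.2 (γ (f w))) := by
    funext w
    rw [← map_sum, sum_prj_all]
  have e2 : γ = fun y => ∑ x ∈ Finset.range (m + 1) ×ˢ Finset.range (m + 1),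
      prj x.1 x.2 (γ y) := funext fun y => (sum_prj_all _).symm
  have e3 : dpE γ (f z) = ∑ x ∈ Finset.range (m + 1) ×ˢ Finset.range (m + 1),
      dpE (fun y => prj x.1 x.2 (γ y)) (f z) := by
    conv_lhs => rw [e2]
    exact DF_dp_sum _ _ fun x _ => hc x.1 x.2
  rw [e1, e3, DF_dp_sum _ _ fun x _ => DF_lm h1 ((hc x.1 x.2).comp z hf1), map_sum]
  exact Finset.sum_congr rfl fun x _ => key x.1 x.2

theorem dbE_pb {f : E n → E m} {γ : E m → Λ m} (hf : ∀ᶠ w in 𝓝 z, DifferentiableAt ℂ f w)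
    (hγ : DifferentiableAt ℝ γ (f z)) :
    dbE (fun w => lm (fderiv ℝ f w) (γ (f w))) z = lm (fderiv ℝ f z) (dbE γ (f z)) := by
  have hs : ContDiffAt ℝ 2 f z := (contDiffAt_of_hol hf).of_le (WithTop.coe_le_coe.2 (le_top (a := (2 : ℕ∞))))
  have h1 := dE_pb hs hγ
  rw [dE, dE, map_add, dpE_pb hf hγ] at h1
  exact add_left_cancel h1

end

end Pool.Agent.MP_1c689d_ag.K0

end

section

/-! Holomorphic maps, charts and pull-backs. -/

set_option autoImplicit false

open Complex Filter Topology Set MeasureTheory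
open scoped ComplexConjugate ContDiff ENNReal

namespace Pool.Agent.MP_1c689d_ag.K0

noncomputable section

variable {n m k : ℕ} {X Y Z : Type} [TopologicalSpace X] [TopologicalSpace Y]
  [TopologicalSpace Z] [Mf n X] [Mf m Y] [Mf k Z]

variable {f g : X → Y} {p : X}

theorem MF1a_tr {q y : X} (h1 : y ∈ (ch n p).source) (h2 : y ∈ (ch n q).source) :
    DifferentiableAt ℂ (ch n q ∘ (ch n p).symm) (ch n p y) :=
  (Mf.hol _ (chart_mem_atlas (E n) p) _ (chart_mem_atlas (E n) q)).differentiableAt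
    ((OpenPartialHomeomorph.open_source _).mem_nhds ⟨(ch n p).map_source h1, by
      show (ch n p).symm (ch n p y) ∈ (ch n q).source
      rwa [(ch n p).left_inv h1]⟩)

theorem MF1a_ev {W : Type} {a : OpenPartialHomeomorph X (E n)} {b : OpenPartialHomeomorph Y (E m)}
    (ha : p ∈ a.source) (hb : f p ∈ b.source) (hc : ContinuousAt f p) (u : Y → W) :
    u ∘ f ∘ a.symm =ᶠ[𝓝 (a p)] (u ∘ b.symm) ∘ b ∘ f ∘ a.symm :=
  ((a.tendsto_symm ha).eventually (hc.eventually (b.open_source.mem_nhds hb))).mono fun _ hz =>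
    congrArg u (b.left_inv hz).symm

theorem MF1a_cmp {a : OpenPartialHomeomorph X (E n)} {b : OpenPartialHomeomorph Y (E m)}
    (ha : p ∈ a.source) (hb : f p ∈ b.source) (hc : ContinuousAt f p) {u : Y → E k}
    (h1 : DifferentiableAt ℂ (u ∘ b.symm) (b (f p)))
    (h2 : DifferentiableAt ℂ (b ∘ f ∘ a.symm) (a p)) :
    DifferentiableAt ℂ (u ∘ f ∘ a.symm) (a p) := by
  refine (DifferentiableAt.comp _ ?_ h2).congr_of_eventuallyEq (MF1a_ev ha hb hc u)
  show DifferentiableAt ℂ _ (b (f (a.symm (a p))))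
  rwa [a.left_inv ha]

theorem MF1a_chg {a a' : X} {b b' : Y} (ha : p ∈ (ch n a).source) (ha' : p ∈ (ch n a').source)
    (hb : f p ∈ (ch m b).source) (hb' : f p ∈ (ch m b').source) (hc : ContinuousAt f p)
    (h : DifferentiableAt ℂ (ch m b ∘ f ∘ (ch n a).symm) (ch n a p)) :
    DifferentiableAt ℂ (ch m b' ∘ f ∘ (ch n a').symm) (ch n a' p) :=
  MF1a_cmp (f := id) (u := ch m b' ∘ f) ha' ha continuousAt_id
    (MF1a_cmp ha hb hc (MF1a_tr hb hb') h) (MF1a_tr ha' ha)

theorem MF1a_iff :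
    HMap f p ↔ ∀ᶠ y in 𝓝 p, ContinuousAt f y ∧ DifferentiableAt ℂ (lc f y) (ch n y y) := by
  constructor <;> intro h <;>
    filter_upwards [h, chart_source_mem_nhds (E n) p,
      h.self_of_nhds.1.eventually (chart_source_mem_nhds (E m) (f p))] with y h1 h2 h3
  · exact ⟨h1.1, MF1a_chg h2 (mem_chart_source _ y) h3 (mem_chart_source _ _) h1.1 h1.2⟩
  · exact ⟨h1.1, MF1a_chg (mem_chart_source _ y) h2 (mem_chart_source _ _) h3 h1.1 h1.2⟩

theorem MF1a_lc (e : f =ᶠ[𝓝 p] g) : lc f p =ᶠ[𝓝 (ch n p p)] lc g p :=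
  (((ch n p).tendsto_symm (mem_chart_source _ p)).eventually e).mono fun z hz => by
    simp only [lc, Function.comp_apply, hz, e.self_of_nhds]

instance mf_isManifold : IsManifold (modelWithCornersSelf ℝ (E n)) ∞ X :=
  isManifold_of_contDiffOn _ _ _ fun e e' he he' _ hz =>
    (contDiffAt_of_hol ((Mf.hol e he e' he').eventually_differentiableAt
      ((OpenPartialHomeomorph.open_source _).mem_nhds hz.1))).contDiffWithinAt

instance mf_lc {d : ℕ} {W : Type} [TopologicalSpace W] [Mf d W] : LocallyCompactSpace W :=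
  ChartedSpace.locallyCompactSpace (E d) W

instance mf_sigma {d : ℕ} {W : Type} [TopologicalSpace W] [Mf d W] : SigmaCompactSpace W :=
  sigmaCompactSpace_of_locallyCompact_secondCountable

theorem mf_metrizable (d : ℕ) (W : Type) [TopologicalSpace W] [Mf d W] :
    TopologicalSpace.MetrizableSpace W :=
  TopologicalSpace.metrizableSpace_of_t3_secondCountable W

theorem ch_E (z : E n) : ch n z = OpenPartialHomeomorph.refl (E n) :=
  rfl

theorem HMap.eventually (h : HMap f p) : ∀ᶠ y in 𝓝 p, HMap f y :=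
  (MF1a_iff.1 h).eventually_nhds.mono fun _ => MF1a_iff.2

theorem HMap.continuousAt (h : HMap f p) : ContinuousAt f p :=
  h.self_of_nhds.1

theorem HMap.congr (h : HMap f p) (e : f =ᶠ[𝓝 p] g) : HMap g p :=
  MF1a_iff.2 (((MF1a_iff.1 h).and e.eventually_nhds).mono fun _ hy =>
    ⟨hy.1.1.congr hy.2, hy.1.2.congr_of_eventuallyEq (MF1a_lc hy.2).symm⟩)

theorem hmap_id : HMap (id : X → X) p :=
  Filter.mem_of_superset (chart_source_mem_nhds (E n) p) fun _ hy =>
    ⟨continuousAt_id, MF1a_tr hy hy⟩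

theorem hmap_const (y : Y) : HMap (fun _ : X => y) p :=
  Eventually.of_forall fun _ => ⟨continuousAt_const, differentiableAt_const (ch m y y)⟩

theorem HMap.comp {u : Y → Z} (hu : HMap u (f p)) (hf : HMap f p) : HMap (u ∘ f) p :=
  MF1a_iff.2 (((MF1a_iff.1 hf).and (hf.continuousAt.eventually (MF1a_iff.1 hu))).mono
    fun y hy => ⟨hy.2.1.comp hy.1.1, MF1a_cmp (u := ch k (u (f y)) ∘ u) (mem_chart_source _ y)
      (mem_chart_source _ (f y)) hy.1.1 hy.2.2 hy.1.2⟩)

theorem isCh_ch (p : X) : IsCh (ch n p) := by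
  refine ⟨fun y hy => MF1a_iff.2 ?_, fun z hz => MF1a_iff.2 ?_⟩
  · filter_upwards [(ch n p).open_source.mem_nhds hy] with w hw
    exact ⟨(ch n p).continuousAt hw, MF1a_tr (mem_chart_source _ w) hw⟩
  · filter_upwards [(ch n p).open_target.mem_nhds hz] with w hw
    have := MF1a_tr ((ch n p).map_target hw) (mem_chart_source (E n) ((ch n p).symm w))
    rw [(ch n p).right_inv hw] at this
    exact ⟨(ch n p).continuousAt_symm hw, this⟩

theorem isCh_refl : IsCh (OpenPartialHomeomorph.refl (E n)) :=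
  isCh_ch (0 : E n)

theorem IsCh.restrOpen {e : OpenPartialHomeomorph X (E n)} (h : IsCh e) (s : Set X)
    (hs : IsOpen s) : IsCh (e.restrOpen s hs) :=
  ⟨fun p hp => h.1 p hp.1, fun z hz => h.2 z hz.1⟩

theorem hmap_E {u : E n → E m} {z : E n} :
    HMap u z ↔ ∀ᶠ w in 𝓝 z, DifferentiableAt ℂ u w :=
  ⟨fun h => h.mono fun _ hw => hw.2, fun h => h.mono fun _ hw => ⟨hw.continuousAt, hw⟩⟩

theorem df_E (u : E n → E m) (z : E n) : df u z = fderiv ℝ u z :=
  rfl

theorem rep_E (z : E n) (α : Fm n (E n)) : rep z α = α :=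
  funext fun w => by
    show lm (fderiv ℝ id w) (α w) = α w
    rw [fderiv_id, lm_id]

theorem hmap_iff_holAt {u : X → E m} : HMap u p ↔ ∀ j, HolAt 1 (fun y => u y j) p := by
  simp only [HolAt, Pi.one_apply, inv_one, one_mul]
  refine ⟨fun h j => h.mono fun y hy => differentiableAt_pi.1 hy.2 j, fun h => ?_⟩
  filter_upwards [eventually_all.2 h, chart_source_mem_nhds (E n) p] with y h1 h2
  have h3 : DifferentiableAt ℂ (u ∘ (ch n p).symm) (ch n p y) := differentiableAt_pi.2 h1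
  exact ⟨(h3.continuousAt.comp ((ch n p).continuousAt h2)).congr
    (((ch n p).eventually_left_inverse h2).mono fun w hw => congrArg u hw), h3⟩

/-- Holomorphy can be tested in arbitrary holomorphic charts. -/
theorem hmap_iff_chart {e : OpenPartialHomeomorph X (E n)} {e' : OpenPartialHomeomorph Y (E m)}
    (he : IsCh e) (he' : IsCh e') (hp : p ∈ e.source) (hp' : f p ∈ e'.source)
    (hc : ∀ᶠ y in 𝓝 p, ContinuousAt f y) :
    HMap f p ↔ ∀ᶠ z in 𝓝 (e p), DifferentiableAt ℂ (e' ∘ f ∘ e.symm) z := by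
  rw [← hmap_E]
  refine ⟨fun h => ?_, fun h => ?_⟩
  · have h1 := he'.1 _ hp'
    rw [← e.left_inv hp] at h h1
    exact h1.comp (f := f ∘ e.symm) (h.comp (he.2 _ (e.map_source hp)))
  · have h1 := he'.2 _ (e'.map_source hp')
    rw [← e.left_inv hp] at h1
    refine (h1.comp (f := (e' ∘ f ∘ e.symm) ∘ e) (h.comp (he.1 p hp))).congr ?_
    filter_upwards [e.open_source.mem_nhds hp,
      hc.self_of_nhds.eventually (e'.open_source.mem_nhds hp')] with y h2 h3
    simp only [Function.comp_apply, e.left_inv h2, e'.left_inv h3]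

theorem HMap.df_complex (h : HMap f p) : ∃ B : E n →L[ℂ] E m, df f p = B.restrictScalars ℝ :=
  ⟨_, h.self_of_nhds.2.fderiv_restrictScalars ℝ⟩

theorem df_congr (e : f =ᶠ[𝓝 p] g) : df f p = df g p :=
  (MF1a_lc e).fderiv_eq

theorem df_id : df (id : X → X) p = ContinuousLinearMap.id ℝ (E n) :=
  (EventuallyEq.fderiv_eq (f := id)
    ((ch n p).eventually_right_inverse' (mem_chart_source _ p))).trans fderiv_id

theorem df_comp {u : Y → Z} (hu : HMap u (f p)) (hf : HMap f p) :
    df (u ∘ f) p = (df u (f p)).comp (df f p) := by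
  have e : lc f p (ch n p p) = ch m (f p) (f p) := by
    simp only [lc, Function.comp_apply, (ch n p).left_inv (mem_chart_source _ p)]
  have h1 := hu.self_of_nhds.2.restrictScalars ℝ
  rw [df, df, df, ← e] at *
  exact (MF1a_ev (mem_chart_source _ p) (mem_chart_source _ (f p)) hf.continuousAt
    (ch k (u (f p)) ∘ u)).fderiv_eq.trans
    (fderiv_comp _ h1 (hf.self_of_nhds.2.restrictScalars ℝ))

theorem IsCh.df_bij {e : OpenPartialHomeomorph X (E n)} (h : IsCh e) (hp : p ∈ e.source) :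
    Function.Bijective (df e p) := by
  have h1 := h.1 p hp
  have h2 := h.2 _ (e.map_source hp)
  have e1 := df_comp h2 h1
  rw [df_congr (f := e.symm ∘ e) (g := id) (e.eventually_left_inverse hp), df_id] at e1
  rw [← e.left_inv hp] at h1
  have e2 := df_comp h1 h2
  rw [df_congr (f := e ∘ e.symm) (g := id) (e.eventually_right_inverse' hp), df_id,
    e.left_inv hp] at e2
  exact Function.bijective_iff_has_inverse.2 ⟨df e.symm (e p),
    fun v => (DFunLike.congr_fun e1 v).symm, fun v => (DFunLike.congr_fun e2 v).symm⟩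

end

end Pool.Agent.MP_1c689d_ag.K0

end

section

/-! Holomorphic maps, charts and pull-backs. -/

set_option autoImplicit false

open Complex Filter Topology Set MeasureTheory
open scoped ComplexConjugate ContDiff ENNReal

namespace Pool.Agent.MP_1c689d_ag.K0

noncomputable section

variable {n m k : ℕ} {X Y Z : Type} [TopologicalSpace X] [TopologicalSpace Y]
  [TopologicalSpace Z] [Mf n X] [Mf m Y] [Mf k Z]

variable {f g : X → Y} {p : X}

/-- The inverse of a homeomorphism of the model space with injective complex differential. -/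
theorem MF1_inv (φ : OpenPartialHomeomorph (E n) (E n)) {w : E n} (hw : w ∈ φ.target)
    (hd : DifferentiableAt ℂ φ (φ.symm w))
    (hi : Function.Injective (fderiv ℝ φ (φ.symm w))) : DifferentiableAt ℂ φ.symm w := by
  have h1 : fderiv ℝ φ (φ.symm w) = (fderiv ℂ φ (φ.symm w)).restrictScalars ℝ :=
    hd.fderiv_restrictScalars ℝ
  have h2 : Function.Injective (fderiv ℂ φ (φ.symm w)) := by
    intro a b hab
    apply hi
    rw [h1]
    exact hab
  let L : E n ≃L[ℂ] E n :=
    (LinearEquiv.ofInjectiveEndo (fderiv ℂ φ (φ.symm w)).toLinearMap h2).toContinuousLinearEquiv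
  have h3 : (L : E n →L[ℂ] E n) = fderiv ℂ φ (φ.symm w) := by
    ext1 z
    rfl
  have h4 : HasFDerivAt φ (L : E n →L[ℂ] E n) (φ.symm w) := h3 ▸ hd.hasFDerivAt
  exact (φ.hasFDerivAt_symm hw h4).differentiableAt

/-- A map to the model space read in the preferred chart. -/
theorem MF1_df {u : X → E m} {y : X} (hy : y ∈ (ch n p).source) (hu : HMap u y) :
    HMap (u ∘ (ch n p).symm) (ch n p y) ∧
      df u y = (fderiv ℝ (u ∘ (ch n p).symm) (ch n p y)).comp (df (ch n p) y) := by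
  have h1 : HMap (ch n p).symm (ch n p y) := (isCh_ch p).2 _ ((ch n p).map_source hy)
  have h2 : HMap u ((ch n p).symm (ch n p y)) := by rwa [(ch n p).left_inv hy]
  have h3 : HMap (u ∘ (ch n p).symm) (ch n p y) := h2.comp h1
  refine ⟨h3, ?_⟩
  rw [← df_E, ← df_comp h3 ((isCh_ch p).1 y hy)]
  apply df_congr
  filter_upwards [(ch n p).open_source.mem_nhds hy] with x hx
  simp only [Function.comp_apply, (ch n p).left_inv hx]

/-- An unramified holomorphic homeomorphism onto an open set is a chart. -/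
theorem MF1_isCh (e : OpenPartialHomeomorph X (E n)) (hu : ∀ y ∈ e.source, HMap e y)
    (hb : ∀ y ∈ e.source, Function.Injective (df e y)) : IsCh e := by
  refine ⟨hu, fun z hz => ?_⟩
  set p := e.symm z with hp
  have hc : ∀ᶠ w in 𝓝 z, ContinuousAt e.symm w := by
    filter_upwards [e.open_target.mem_nhds hz] with w hw using e.continuousAt_symm hw
  have hps : e.symm z ∈ (ch n p).source := mem_chart_source _ _
  rw [hmap_iff_chart (e := OpenPartialHomeomorph.refl (E n)) (e' := ch n p) isCh_refl (isCh_ch p)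
    (mem_univ z) hps hc]
  have h0 : ∀ᶠ w in 𝓝 z, e.symm w ∈ (ch n p).source :=
    (e.continuousAt_symm hz).preimage_mem_nhds ((ch n p).open_source.mem_nhds hps)
  filter_upwards [e.open_target.mem_nhds hz, h0] with w hw hw'
  let φ : OpenPartialHomeomorph (E n) (E n) := (ch n p).symm.trans e
  have hwt : w ∈ φ.target := ⟨hw, hw'⟩
  have hy : e.symm w ∈ e.source := e.map_target hw
  obtain ⟨h1, h2⟩ := MF1_df (p := p) hw' (hu _ hy)
  have h3 : Function.Injective (fderiv ℝ (e ∘ (ch n p).symm) (ch n p (e.symm w))) := by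
    intro a b hab
    obtain ⟨a, rfl⟩ := ((isCh_ch p).df_bij hw').2 a
    obtain ⟨b, rfl⟩ := ((isCh_ch p).df_bij hw').2 b
    have : df e (e.symm w) a = df e (e.symm w) b := by
      rw [h2]
      exact hab
    rw [hb _ hy this]
  exact MF1_inv φ hwt (hmap_E.1 h1).self_of_nhds h3

/-- Being unramified is an open condition. -/
theorem MF1_ev {u : X → E n} (hu : HMap u p) (hb : Function.Injective (df u p)) :
    ∀ᶠ y in 𝓝 p, Function.Injective (df u y) := by
  have hp : p ∈ (ch n p).source := mem_chart_source _ _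
  obtain ⟨h1, h2⟩ := MF1_df (p := p) hp hu
  have h3 : Function.Injective (fderiv ℝ (u ∘ (ch n p).symm) (ch n p p)) := by
    intro a b hab
    obtain ⟨a, rfl⟩ := ((isCh_ch p).df_bij hp).2 a
    obtain ⟨b, rfl⟩ := ((isCh_ch p).df_bij hp).2 b
    have : df u p a = df u p b := by
      rw [h2]
      exact hab
    rw [hb this]
  have h4 : ContDiffAt ℝ ∞ (u ∘ (ch n p).symm) (ch n p p) := contDiffAt_of_hol (hmap_E.1 h1)
  have h5 : ContinuousAt (fderiv ℝ (u ∘ (ch n p).symm)) (ch n p p) :=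
    h4.continuousAt_fderiv (by simp)
  have h6 : ∀ᶠ z in 𝓝 (ch n p p), Function.Injective (fderiv ℝ (u ∘ (ch n p).symm) z) :=
    h5.preimage_mem_nhds (ContinuousLinearMap.isOpen_injective.mem_nhds h3)
  filter_upwards [((ch n p).continuousAt hp).eventually h6, hu.eventually,
    (ch n p).open_source.mem_nhds hp] with y a b c
  rw [(MF1_df c b).2]
  exact a.comp ((isCh_ch p).df_bij c).1

/-- The topological inverse function theorem. -/
theorem MF1_loc {u : X → E n} (hu : HMap u p) (hb : Function.Injective (df u p)) :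
    ∃ e : OpenPartialHomeomorph X (E n), p ∈ e.source ∧ (e : X → E n) = u := by
  have hp : p ∈ (ch n p).source := mem_chart_source _ _
  obtain ⟨h1, h2⟩ := MF1_df (p := p) hp hu
  have h3 : Function.Injective (fderiv ℝ (u ∘ (ch n p).symm) (ch n p p)) := by
    intro a b hab
    obtain ⟨a, rfl⟩ := ((isCh_ch p).df_bij hp).2 a
    obtain ⟨b, rfl⟩ := ((isCh_ch p).df_bij hp).2 b
    have : df u p a = df u p b := by
      rw [h2]
      exact hab
    rw [hb this]
  have h4 : ContDiffAt ℝ ∞ (u ∘ (ch n p).symm) (ch n p p) := contDiffAt_of_hol (hmap_E.1 h1)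
  let L : E n ≃L[ℝ] E n :=
    (LinearEquiv.ofInjectiveEndo (fderiv ℝ (u ∘ (ch n p).symm) (ch n p p)).toLinearMap
      h3).toContinuousLinearEquiv
  have h5 : (L : E n →L[ℝ] E n) = fderiv ℝ (u ∘ (ch n p).symm) (ch n p p) := by
    ext1 z
    rfl
  have h6 : HasFDerivAt (u ∘ (ch n p).symm) (L : E n →L[ℝ] E n) (ch n p p) :=
    h5 ▸ (h4.differentiableAt (by simp)).hasFDerivAt
  let φ := h4.toOpenPartialHomeomorph (u ∘ (ch n p).symm) h6 (by simp)
  have hφ : (φ : E n → E n) = u ∘ (ch n p).symm := rfl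
  have hφp : ch n p p ∈ φ.source := h4.mem_toOpenPartialHomeomorph_source h6 (by simp)
  let e1 := (ch n p).trans φ
  have he : ∀ y ∈ e1.source, u y = e1 y := fun y hy => by
    show u y = φ (ch n p y)
    rw [hφ, Function.comp_apply, (ch n p).left_inv hy.1]
  refine ⟨{ toFun := u
            invFun := e1.symm
            source := e1.source
            target := e1.target
            map_source' := fun y hy => he y hy ▸ e1.map_source hy
            map_target' := fun z hz => e1.map_target hz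
            left_inv' := fun y hy => he y hy ▸ e1.left_inv hy
            right_inv' := fun z hz => (he _ (e1.map_target hz)).trans (e1.right_inv hz)
            open_source := e1.open_source
            open_target := e1.open_target
            continuousOn_toFun := e1.continuousOn.congr he
            continuousOn_invFun := e1.continuousOn_symm }, ⟨hp, hφp⟩, rfl⟩

theorem pb_comp {u : Y → Z} (hu : HMap u (f p)) (hf : HMap f p) (α : Fm k Z) :
    pb f (pb u α) p = pb (u ∘ f) α p := by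
  simp only [pb, lm_comp, df_comp hu hf, Function.comp_apply]

theorem pb_id (α : Fm n X) : pb id α = α := by
  funext y
  simp only [pb, df_id, lm_id, id]

theorem pb_congr {α β : Fm m Y} (e : f =ᶠ[𝓝 p] g) (h : α (f p) = β (f p)) :
    pb f α p = pb g β p := by
  simp only [pb, df_congr e, h, ← e.eq_of_nhds]

theorem rep_self (α : Fm n X) : rep p α (ch n p p) = α p := by
  have hp : p ∈ (ch n p).source := mem_chart_source _ _
  have h1 : df (ch n p).symm (ch n p p) = ContinuousLinearMap.id ℝ (E n) := by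
    unfold df lc
    rw [ch_E, (ch n p).left_inv hp]
    have : (ch n p ∘ (ch n p).symm ∘ (OpenPartialHomeomorph.refl (E n)).symm) =ᶠ[𝓝 (ch n p p)]
        id := (ch n p).eventually_right_inverse' hp
    exact this.fderiv_eq.trans fderiv_id
  simp only [rep, pb, h1, lm_id, (ch n p).left_inv hp]

theorem pb_chart {e : OpenPartialHomeomorph X (E n)} (h : IsCh e) (hp : p ∈ e.source)
    (α : Fm n X) : pb e (pb e.symm α) p = α p := by
  rw [pb_comp (h.2 _ (e.map_source hp)) (h.1 p hp),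
    pb_congr (f := e.symm ∘ e) (g := id) (β := α) (e.eventually_left_inverse hp) rfl, pb_id]

theorem pb_chart' {e : OpenPartialHomeomorph X (E n)} (h : IsCh e) {z : E n} (hz : z ∈ e.target)
    (α : Fm n (E n)) : pb e.symm (pb e α) z = α z := by
  rw [pb_comp (h.1 _ (e.map_target hz)) (h.2 z hz),
    pb_congr (f := e ∘ e.symm) (g := id) (β := α) (e.eventually_right_inverse hz) rfl, pb_id]

theorem pb_add (α β : Fm m Y) : pb f (α + β) = pb f α + pb f β := by
  funext y
  exact map_add _ _ _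

theorem pb_sub (α β : Fm m Y) : pb f (α - β) = pb f α - pb f β := by
  funext y
  exact map_sub (lm (df f y)) _ _

theorem pb_neg (α : Fm m Y) : pb f (-α) = -pb f α := by
  funext y
  exact map_neg (lm (df f y)) _

theorem pb_zero : pb f (0 : Fm m Y) = 0 := by
  funext y
  exact map_zero (lm (df f y))

theorem pb_mul (α β : Fm m Y) : pb f (α * β) = pb f α * pb f β := by
  funext y
  exact map_mul (lm (df f y)) _ _

theorem pb_smul (c : ℂ) (α : Fm m Y) : pb f (c • α) = c • pb f α := by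
  funext y
  exact map_smul (lm (df f y)) _ _

theorem pb_fsmul (c : Y → ℂ) (α : Fm m Y) : pb f (c • α) = (c ∘ f) • pb f α := by
  funext y
  exact map_smul (lm (df f y)) _ _

theorem pb_sum {ι : Type} (s : Finset ι) (α : ι → Fm m Y) :
    pb f (∑ i ∈ s, α i) = ∑ i ∈ s, pb f (α i) := by
  funext y
  simp only [pb, Finset.sum_apply, map_sum]

theorem pb_fn (c : Y → ℂ) : pb f (fn m c) = fn n (c ∘ f) := by
  funext y
  exact (lm (df f y)).commutes _

theorem pb_cf (α : Fm m Y) : pb f (cf α) = cf (pb f α) := by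
  funext y
  exact lm_cj _ _

theorem pb_pf (h : HMap f p) (a b : ℕ) (α : Fm m Y) : pb f (pf a b α) p = pf a b (pb f α) p := by
  obtain ⟨B, hB⟩ := h.df_complex
  simp only [pb, pf, hB, lm_prj]

theorem pb_Tp (h : HMap f p) {a b : ℕ} {α : Fm m Y} (hα : α (f p) ∈ Tp m a b) :
    pb f α p ∈ Tp n a b := by
  obtain ⟨B, hB⟩ := h.df_complex
  simp only [pb, hB]
  exact lm_Tp B hα

theorem pb_Dg {a : ℕ} {α : Fm m Y} (hα : α (f p) ∈ Dg m a) : pb f α p ∈ Dg n a := by
  exact lm_Dg _ hα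

theorem fn_mul (c : X → ℂ) (α : Fm n X) : fn n c * α = c • α := by
  funext y
  exact (Algebra.smul_def (c y) (α y)).symm

theorem mul_fn (c : X → ℂ) (α : Fm n X) : α * fn n c = c • α := by
  funext y
  exact (Algebra.commutes (c y) (α y)).symm.trans (Algebra.smul_def (c y) (α y)).symm

theorem fn_Ty (c : X → ℂ) : Ty 0 0 (fn n c) := by
  exact fun y => algebraMap_mem_Tp (c y)

theorem cf_fn (c : X → ℂ) : cf (fn n c) = fn n fun y => conj (c y) := by
  funext y
  exact cj_algebraMap (c y)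

theorem Ty.exists_fn {α : Fm n X} (h : Ty 0 0 α) : ∃ c, α = fn n c := by
  choose c hc using fun y => mem_Tp00.1 (h y)
  exact ⟨c, funext hc⟩

/-- The holomorphic inverse function theorem. -/
theorem exists_chart_of_bij {u : X → E n} (hu : HMap u p) (hb : Function.Injective (df u p)) :
    ∃ e : OpenPartialHomeomorph X (E n), IsCh e ∧ p ∈ e.source ∧ (e : X → E n) = u := by
  obtain ⟨e, hp, rfl⟩ := MF1_loc hu hb
  obtain ⟨s, hs, ho, hps⟩ := eventually_nhds_iff.1 (hu.eventually.and (MF1_ev hu hb))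
  exact ⟨e.restrOpen s ho, MF1_isCh _ (fun y hy => (hs y hy.2).1) (fun y hy => (hs y hy.2).2),
    ⟨hp, hps⟩, rfl⟩

end

end Pool.Agent.MP_1c689d_ag.K0

end

section

/-! Smooth forms, holomorphic sections and gauges. -/

set_option autoImplicit false

open Complex Filter Topology Set MeasureTheory
open scoped ComplexConjugate ContDiff ENNReal

namespace Pool.Agent.MP_1c689d_ag.K0

noncomputable section

variable {n m k : ℕ} {X Y Z : Type} [TopologicalSpace X] [TopologicalSpace Y]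
  [TopologicalSpace Z] [Mf n X] [Mf m Y] [Mf k Z]

variable {G G' : Ga X} {α β : Fm n X} {p : X} {s t : X → ℂ}

theorem MF2a_sm_iff : SmAt 1 α p ↔ ∀ᶠ z in 𝓝 (ch n p p), ContDiffAt ℝ ∞ (rep p α) z := by
  rw [(ch n p).eventually_nhds _ (mem_chart_source _ p)]
  simp only [SmAt, Pi.one_apply, inv_one, one_smul]

theorem MF2a_hol_iff :
    HolAt 1 s p ↔ ∀ᶠ z in 𝓝 (ch n p p), DifferentiableAt ℂ (s ∘ (ch n p).symm) z := by
  rw [(ch n p).eventually_nhds _ (mem_chart_source _ p)]
  simp only [HolAt, Pi.one_apply, inv_one, one_mul]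
  rfl

theorem MF2a_hol_hmap : HolAt 1 s p ↔ HMap (fun y (_ : Fin 1) => s y) p :=
  ⟨fun h => hmap_iff_holAt.2 fun _ => h, fun h => hmap_iff_holAt.1 h 0⟩

theorem MF2a_hol_ev (h : HolAt 1 s p) : ∀ᶠ y in 𝓝 p, HolAt 1 s y :=
  (MF2a_hol_hmap.1 h).eventually.mono fun _ hy => MF2a_hol_hmap.2 hy

theorem MF2a_hol_congr (h : HolAt 1 s p) (e : s =ᶠ[𝓝 p] t) : HolAt 1 t p :=
  MF2a_hol_hmap.2 ((MF2a_hol_hmap.1 h).congr (e.mono fun _ hy => funext fun _ => hy))

theorem MF2a_hol_cont (h : HolAt 1 s p) : ContinuousAt s p :=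
  continuousAt_pi.1 (MF2a_hol_hmap.1 h).continuousAt 0

theorem MF2a_hol_comp {f : Y → X} {y : Y} (hf : HMap f y) (h : HolAt 1 s (f y)) :
    HolAt 1 (s ∘ f) y :=
  MF2a_hol_hmap.2 ((MF2a_hol_hmap.1 h).comp hf)

theorem MF2a_hol_mul (h : HolAt 1 s p) (h' : HolAt 1 t p) : HolAt 1 (fun y => s y * t y) p :=
  MF2a_hol_iff.2 (((MF2a_hol_iff.1 h).and (MF2a_hol_iff.1 h')).mono fun _ hz => hz.1.mul hz.2)

theorem MF2a_ev_chart {P : X → Prop} (h : ∀ᶠ y in 𝓝 p, P y) :
    ∀ᶠ z in 𝓝 (ch n p p), P ((ch n p).symm z) :=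
  ((ch n p).tendsto_symm (mem_chart_source _ p)).eventually h

theorem MF2a_hol_inv (h : HolAt 1 s p) (h0 : s p ≠ 0) : HolAt 1 (fun y => (s y)⁻¹) p :=
  MF2a_hol_iff.2 (((MF2a_hol_iff.1 h).and
    (MF2a_ev_chart ((MF2a_hol_cont h).eventually_ne h0))).mono fun _ hz => hz.1.inv hz.2)

theorem MF2a_sm_congr (h : SmAt 1 α p) (e : α =ᶠ[𝓝 p] β) : SmAt 1 β p := by
  have h1 : rep p β =ᶠ[𝓝 (ch n p p)] rep p α :=
    (MF2a_ev_chart e).mono fun z hz => congrArg (lm (df (ch n p).symm z)) hz.symm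
  exact MF2a_sm_iff.2 (((MF2a_sm_iff.1 h).and h1.eventuallyEq_nhds).mono fun _ hz =>
    hz.1.congr_of_eventuallyEq hz.2)

theorem MF2a_pb_E {u : E m → E n} {γ : Fm n (E n)} {z : E m} (hu : HMap u z)
    (h : ContDiffAt ℝ ∞ γ (u z)) : ContDiffAt ℝ ∞ (pb u γ) z := by
  have h1 : ContDiffAt ℝ ∞ u z := contDiffAt_of_hol (hmap_E.1 hu)
  have h2 : ContDiffAt ℝ ∞ (fderiv ℝ u) z := h1.fderiv_right le_rfl
  have e : pb u γ = (fun x : (E m →L[ℝ] E n) × Λ n => lm x.1 x.2) ∘
      fun w => (fderiv ℝ u w, γ (u w)) := funext fun w => by rw [pb, df_E]; rfl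
  rw [e]
  exact contDiff_lm.contDiffAt.comp z (h2.prodMk (h.comp z h1))

theorem MF2a_sm_pb {f : Y → X} {y : Y} (hf : HMap f y) (h : SmAt 1 α (f y)) :
    SmAt 1 (pb f α) y := by
  have hy := mem_chart_source (E m) y
  have hy' := mem_chart_source (E n) (f y)
  have h1 : Tendsto (lc f y) (𝓝 (ch m y y)) (𝓝 (ch n (f y) (f y))) :=
    ((ch n (f y)).continuousAt hy').tendsto.comp
      (hf.continuousAt.tendsto.comp ((ch m y).tendsto_symm hy))
  have h2 : ∀ᶠ w in 𝓝 (ch m y y), f ((ch m y).symm w) ∈ (ch n (f y)).source :=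
    MF2a_ev_chart (hf.continuousAt.eventually_mem ((ch n (f y)).open_source.mem_nhds hy'))
  have h3 : ∀ᶠ w in 𝓝 (ch m y y), HMap (lc f y) w ∧
      rep y (pb f α) w = pb (lc f y) (rep (f y) α) w := by
    filter_upwards [h2.eventually_nhds, MF2a_ev_chart hf.eventually,
      (ch m y).open_target.mem_nhds ((ch m y).map_source hy)] with w a1 a2 a3
    have b1 := (isCh_ch y).2 w a3
    have b2 : HMap (lc f y) w :=
      HMap.comp ((isCh_ch (f y)).1 _ a1.self_of_nhds) (a2.comp b1)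
    refine ⟨b2, ?_⟩
    rw [rep, rep, pb_comp a2 b1,
      pb_comp (f := lc f y) ((isCh_ch (f y)).2 _ ((ch n (f y)).map_source a1.self_of_nhds)) b2]
    exact pb_congr (a1.mono fun w' hw' => ((ch n (f y)).left_inv hw').symm) rfl
  refine MF2a_sm_iff.2 ?_
  filter_upwards [h3.eventually_nhds, h1.eventually (MF2a_sm_iff.1 h)] with w a1 a2
  exact (MF2a_pb_E a1.self_of_nhds.1 a2).congr_of_eventuallyEq (a1.mono fun _ h => h.2)

theorem MF2a_fn_iff {g : E m → ℂ} {z : E m} :
    ContDiffAt ℝ ∞ (fn n g) z ↔ ContDiffAt ℝ ∞ g z := by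
  constructor
  · intro h
    obtain ⟨L, hL⟩ := (Algebra.linearMap ℂ (Λ n)).exists_leftInverse_of_injective
      (LinearMap.ker_eq_bot.2 algebraMap_inj)
    have e : g = (L.toContinuousLinearMap.restrictScalars ℝ) ∘ fn n g :=
      funext fun w => (LinearMap.congr_fun hL (g w)).symm
    rw [e]
    exact (L.toContinuousLinearMap.restrictScalars ℝ).contDiff.contDiffAt.comp z h
  · intro h
    exact ((algebraMapCLM ℂ (Λ n)).restrictScalars ℝ).contDiff.contDiffAt.comp z h

theorem MF2a_smf_iff :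
    SmAt 1 (fn n s) p ↔ ∀ᶠ z in 𝓝 (ch n p p), ContDiffAt ℝ ∞ (s ∘ (ch n p).symm) z := by
  simp only [MF2a_sm_iff, rep, pb_fn, MF2a_fn_iff]

theorem MF2a_smf_mul (h : SmAt 1 (fn n s) p) (h' : SmAt 1 (fn n t) p) :
    SmAt 1 (fn n fun y => s y * t y) p :=
  MF2a_smf_iff.2 (((MF2a_smf_iff.1 h).and (MF2a_smf_iff.1 h')).mono fun _ hz => hz.1.mul hz.2)

theorem MF2a_smf_inv (h : SmAt 1 (fn n s) p) (h0 : ∀ᶠ y in 𝓝 p, s y ≠ 0) :
    SmAt 1 (fn n fun y => (s y)⁻¹) p :=
  MF2a_smf_iff.2 (((MF2a_smf_iff.1 h).and (MF2a_ev_chart h0)).mono fun _ hz => hz.1.inv hz.2)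

theorem MF2a_smf_normSq (h : HolAt 1 s p) : SmAt 1 (fn n fun y => (normSq (s y) : ℂ)) p := by
  simp only [← mul_conj]
  refine MF2a_smf_iff.2 ((MF2a_hol_iff.1 h).eventually_nhds.mono fun z hz => ?_)
  have h1 := contDiffAt_of_hol hz
  exact h1.mul (conjCLE.contDiff.contDiffAt.comp z h1)

theorem MF2a_smf_congr (h : SmAt 1 (fn n s) p) (e : s =ᶠ[𝓝 p] t) : SmAt 1 (fn n t) p :=
  MF2a_sm_congr h (e.mono fun _ hy => congrArg (algebraMap ℂ (Λ n)) hy)

theorem smAt_E {α : Fm n (E n)} {z : E n} :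
    SmAt 1 α z ↔ ∀ᶠ w in 𝓝 z, ContDiffAt ℝ ∞ α w := by
  rw [MF2a_sm_iff, rep_E, ch_E]
  rfl

theorem holAt_E {s : E n → ℂ} {z : E n} :
    HolAt 1 s z ↔ ∀ᶠ w in 𝓝 z, DifferentiableAt ℂ s w := by
  rw [MF2a_hol_iff, ch_E]
  rfl

theorem smAt_iff_one : SmAt G α p ↔ SmAt 1 (fun y => (G p y)⁻¹ • α y) p := by
  simp only [SmAt, Pi.one_apply, inv_one, one_smul]

theorem holAt_iff_one : HolAt G s p ↔ HolAt 1 (fun y => (G p y)⁻¹ * s y) p := by
  simp only [HolAt, Pi.one_apply, inv_one, one_mul]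

theorem smAt_chart {e : OpenPartialHomeomorph X (E n)} (he : IsCh e) (hp : p ∈ e.source) :
    SmAt 1 α p ↔ ∀ᶠ z in 𝓝 (e p), ContDiffAt ℝ ∞ (pb e.symm α) z := by
  rw [← smAt_E]
  constructor
  · intro h
    exact MF2a_sm_pb (he.2 _ (e.map_source hp)) (by rwa [e.left_inv hp])
  · intro h
    refine MF2a_sm_congr (MF2a_sm_pb (he.1 p hp) h) ?_
    filter_upwards [e.open_source.mem_nhds hp] with y hy using pb_chart he hy α

theorem holAt_chart {e : OpenPartialHomeomorph X (E n)} (he : IsCh e) (hp : p ∈ e.source) :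
    HolAt 1 s p ↔ ∀ᶠ z in 𝓝 (e p), DifferentiableAt ℂ (s ∘ e.symm) z := by
  rw [← holAt_E]
  constructor
  · intro h
    exact MF2a_hol_comp (he.2 _ (e.map_source hp)) (by rwa [e.left_inv hp])
  · intro h
    refine MF2a_hol_congr (MF2a_hol_comp (he.1 p hp) h) ?_
    filter_upwards [e.open_source.mem_nhds hp] with y hy using congrArg s (e.left_inv hy)

theorem smAt_fn_iff : SmAt 1 (fn n s) p ↔
    ∀ᶠ y in 𝓝 p, ContMDiffAt (modelWithCornersSelf ℝ (E n)) (modelWithCornersSelf ℝ ℂ) ∞ s y := by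
  rw [MF2a_smf_iff, (ch n p).eventually_nhds _ (mem_chart_source _ p)]
  refine eventually_congr ?_
  filter_upwards [chart_source_mem_nhds (E n) p] with y hy
  rw [contMDiffAt_iff_source_of_mem_source hy, modelWithCornersSelf_coe, range_id,
    contMDiffWithinAt_univ, contMDiffAt_iff_contDiffAt]
  rfl

theorem smAt_fn_chart {e : OpenPartialHomeomorph X (E n)} (he : IsCh e) (hp : p ∈ e.source) :
    SmAt 1 (fn n s) p ↔ ∀ᶠ z in 𝓝 (e p), ContDiffAt ℝ ∞ (s ∘ e.symm) z := by
  simp only [smAt_chart he hp, pb_fn, MF2a_fn_iff]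

theorem gok_one : GOk (1 : Ga X) p := by
  refine ⟨.of_forall fun _ => one_ne_zero, .of_forall fun _ => one_ne_zero,
    MF2a_smf_iff.2 (.of_forall fun _ => contDiffAt_const (c := (normSq (1 : ℂ) : ℂ))),
    .of_forall fun _ => MF2a_hol_iff.2 (.of_forall fun _ => differentiableAt_const (1 / 1 : ℂ))⟩

theorem GOk.eventually (h : GOk G p) : ∀ᶠ y in 𝓝 p, GOk G y := by
  filter_upwards [h.ne.eventually_nhds, h.self.eventually_nhds,
    (smAt_fn_iff.1 h.sm).eventually_nhds, h.hol.eventually_nhds] with y a1 a2 a3 a4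
  have b1 := a4.self_of_nhds
  have b2 := (MF2a_hol_cont b1).eventually_ne (div_ne_zero a2.self_of_nhds a1.self_of_nhds)
  refine ⟨b2.mono fun _ hy => (div_ne_zero_iff.1 hy).1, a2, ?_, ?_⟩
  · refine MF2a_smf_congr (MF2a_smf_mul (MF2a_smf_normSq b1) (smAt_fn_iff.2 a3)) ?_
    filter_upwards [a1] with y' hy'
    rw [← ofReal_mul, ← map_mul, div_mul_cancel₀ _ hy']
  · filter_upwards [a1.eventually_nhds, a4, MF2a_hol_ev b1, b2] with y' c1 c2 c3 c4
    refine MF2a_hol_congr (MF2a_hol_mul c2 (MF2a_hol_inv c3 c4)) ?_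
    filter_upwards [c1] with w hw
    rw [← div_eq_mul_inv, div_div_div_cancel_right₀ hw]

theorem GOk.self_ne (h : GOk G p) : G p p ≠ 0 := by
  exact h.ne.self_of_nhds

theorem GOk.mul (h : GOk G p) (h' : GOk G' p) : GOk (G * G') p := by
  refine ⟨(h.ne.and h'.ne).mono fun _ hy => mul_ne_zero hy.1 hy.2,
    (h.self.and h'.self).mono fun _ hy => mul_ne_zero hy.1 hy.2, ?_,
    (h.hol.and h'.hol).mono fun _ hy => ?_⟩
  · simpa only [Pi.mul_apply, map_mul, ofReal_mul] using MF2a_smf_mul h.sm h'.sm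
  · simpa only [Pi.mul_apply, mul_div_mul_comm] using MF2a_hol_mul hy.1 hy.2

theorem GOk.inv (h : GOk G p) : GOk G⁻¹ p := by
  refine ⟨h.ne.mono fun _ hy => inv_ne_zero hy, h.self.mono fun _ hy => inv_ne_zero hy, ?_, ?_⟩
  · simpa only [Pi.inv_apply, map_inv₀, ofReal_inv] using
      MF2a_smf_inv h.sm (h.ne.mono fun _ hy => ofReal_ne_zero.2 (normSq_pos.2 hy).ne')
  · filter_upwards [h.ne, h.self, h.hol] with y a1 a2 a3
    simpa only [Pi.inv_apply, inv_div_inv, inv_div] using MF2a_hol_inv a3 (div_ne_zero a2 a1)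

theorem GOk.zpow (h : GOk G p) (i : ℤ) : GOk (G ^ i) p := by
  have h1 : ∀ j : ℕ, GOk (G ^ j) p := fun j => by
    induction j with
    | zero => rw [pow_zero]; exact gok_one
    | succ j ih => rw [pow_succ]; exact ih.mul h
  cases i with
  | ofNat j => rw [Int.ofNat_eq_natCast, zpow_natCast]; exact h1 j
  | negSucc j => rw [zpow_negSucc]; exact (h1 _).inv

theorem GOk.gpb {f : Y → X} {y : Y} (hf : HMap f y) (h : GOk G (f y)) : GOk (gpb f G) y := by
  have hc := hf.continuousAt.tendsto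
  refine ⟨hc.eventually h.ne, hc.eventually h.self, ?_,
    (hf.eventually.and (hc.eventually h.hol)).mono fun _ hy => MF2a_hol_comp hy.1 hy.2⟩
  have h1 := MF2a_sm_pb hf h.sm
  rwa [pb_fn] at h1

theorem GOk.frame (h : GOk G p) : ∀ᶠ y in 𝓝 p, HolAt G (G p) y := by
  filter_upwards [h.ne, h.self, h.hol] with y a1 a2 a3
  simpa only [holAt_iff_one (G := G), inv_div, div_eq_inv_mul, mul_inv, inv_inv, mul_comm] using
    MF2a_hol_inv a3 (div_ne_zero a2 a1)

theorem gpb_one (f : Y → X) : gpb f (1 : Ga X) = 1 := by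
  rfl

theorem gpb_zpow (f : Y → X) (i : ℤ) : gpb f (G ^ i) = gpb f G ^ i := by
  rfl

theorem GOk.zpow_add (h : GOk G p) (i j : ℤ) : (G ^ i * G ^ j) p =ᶠ[𝓝 p] (G ^ (i + j)) p := by
  exact h.ne.mono fun _ hy => (zpow_add₀ hy i j).symm

theorem GOk.mul_inv (h : GOk G p) : (G * G⁻¹) p =ᶠ[𝓝 p] (1 : Ga X) p := by
  exact h.ne.mono fun _ hy => mul_inv_cancel₀ hy

end

end Pool.Agent.MP_1c689d_ag.K0

end

section

/-! Smooth forms, holomorphic sections and gauges. -/

set_option autoImplicit false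

open Complex Filter Topology Set MeasureTheory
open scoped ComplexConjugate ContDiff ENNReal

namespace Pool.Agent.MP_1c689d_ag.K0

noncomputable section

variable {n m k : ℕ} {X Y Z : Type} [TopologicalSpace X] [TopologicalSpace Y]
  [TopologicalSpace Z] [Mf n X] [Mf m Y] [Mf k Z]

variable {G G' : Ga X} {α β : Fm n X} {p : X} {s t : X → ℂ}

theorem MF2b_iff : SmAt 1 α p ↔ ∀ᶠ z in 𝓝 (ch n p p), ContDiffAt ℝ ∞ (pb (ch n p).symm α) z :=
  smAt_chart (isCh_ch p) (mem_chart_source _ p)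

theorem MF2b_fn : SmAt 1 (fn n s) p ↔
    ∀ᶠ z in 𝓝 (ch n p p), ContDiffAt ℝ ∞ (s ∘ (ch n p).symm) z :=
  smAt_fn_chart (isCh_ch p) (mem_chart_source _ p)

theorem MF2b_symm : Tendsto (ch n p).symm (𝓝 (ch n p p)) (𝓝 p) :=
  (ch n p).tendsto_symm (mem_chart_source _ p)

theorem MF2b_target : ∀ᶠ z in 𝓝 (ch n p p), z ∈ (ch n p).target :=
  chart_target_mem_nhds (E n) p

theorem MF2b_tr {d : ℕ} {a b : E d → Λ d} {z : E d} (h : ∀ᶠ w in 𝓝 z, ContDiffAt ℝ ∞ a w)
    (e : b =ᶠ[𝓝 z] a) : ∀ᶠ w in 𝓝 z, ContDiffAt ℝ ∞ b w := by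
  filter_upwards [h, e.eventuallyEq_nhds] with w h1 h2 using h1.congr_of_eventuallyEq h2

theorem MF2b_congr (h : SmAt 1 α p) (e : ∀ᶠ y in 𝓝 p, α y = β y) : SmAt 1 β p := by
  rw [MF2b_iff] at h ⊢
  refine MF2b_tr h ?_
  filter_upwards [MF2b_symm.eventually e] with z hz
  exact congrArg (lm _) hz.symm

theorem MF2b_ev (h : SmAt 1 α p) : ∀ᶠ y in 𝓝 p, SmAt 1 α y := by
  rw [MF2b_iff] at h
  filter_upwards [((ch n p).continuousAt (mem_chart_source _ p)).eventually
    h.eventually_nhds, chart_source_mem_nhds (E n) p] with y h1 h2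
  exact (smAt_chart (isCh_ch p) h2).2 h1

theorem MF2b_add (h : SmAt 1 α p) (h' : SmAt 1 β p) : SmAt 1 (α + β) p := by
  rw [MF2b_iff] at h h' ⊢
  rw [pb_add]
  filter_upwards [h, h'] with z h1 h2 using h1.add h2

theorem MF2b_mul (h : SmAt 1 α p) (h' : SmAt 1 β p) : SmAt 1 (α * β) p := by
  rw [MF2b_iff] at h h' ⊢
  rw [pb_mul]
  filter_upwards [h, h'] with z h1 h2 using h1.mul h2

theorem MF2b_fsmul (h : SmAt 1 (fn n s) p) (h' : SmAt 1 β p) :
    SmAt 1 (fun y => s y • β y) p := by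
  have := MF2b_mul h h'
  rwa [fn_mul] at this

theorem MF2b_hol (h : HolAt 1 s p) : SmAt 1 (fn n s) p :=
  MF2b_fn.2 (((holAt_chart (isCh_ch p) (mem_chart_source _ p)).1 h).eventually_nhds.mono
    fun _ hz => contDiffAt_of_hol hz)

theorem MF2b_inv (h : SmAt 1 (fn n s) p) (h0 : s p ≠ 0) :
    SmAt 1 (fn n fun y => (s y)⁻¹) p := by
  rw [MF2b_fn] at h ⊢
  have h1 : (s ∘ (ch n p).symm) (ch n p p) ≠ 0 := by
    rwa [Function.comp_apply, (ch n p).left_inv (mem_chart_source _ p)]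
  filter_upwards [h, h.self_of_nhds.continuousAt.eventually_ne h1] with z h2 h3 using h2.inv h3

theorem MF2b_post {T : Λ n → Λ n} (hT : ContDiff ℝ ∞ T) (h : SmAt 1 α p)
    (e : ∀ (B : E n →L[ℂ] E n) (a : Λ n),
      lm (B.restrictScalars ℝ) (T a) = T (lm (B.restrictScalars ℝ) a)) :
    SmAt 1 (fun y => T (α y)) p := by
  rw [MF2b_iff] at h ⊢
  refine MF2b_tr (h.mono fun z hz => hT.contDiffAt.comp z hz) ?_
  filter_upwards [MF2b_target (p := p)] with z hz
  obtain ⟨B, hB⟩ := ((isCh_ch p).2 z hz).df_complex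
  simp only [pb, Function.comp_apply, hB, e]

theorem MF2b_lin (T : Λ n →ₗ[ℂ] Λ n) : ContDiff ℝ ∞ T :=
  ((LinearMap.toContinuousLinearMap T).restrictScalars ℝ).contDiff

theorem MF2b_model {u : E m → E n} {γ : E n → Λ n} {z : E m} (hu : ContDiffAt ℝ ∞ u z)
    (hγ : ContDiffAt ℝ ∞ γ (u z)) :
    ContDiffAt ℝ ∞ (fun w => lm (fderiv ℝ u w) (γ (u w))) z := by
  have h1 : ContDiffAt ℝ ∞ (fun w => (fderiv ℝ u w, γ (u w))) z :=
    (hu.fderiv_right (m := ∞) le_rfl).prodMk (hγ.comp z hu)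
  have h2 := (contDiff_lm (n := m) (m := n)).contDiffAt.comp z h1
  exact h2

theorem MF2b_pb {f : Y → X} {y : Y} (hf : HMap f y) (h : SmAt 1 α (f y)) : SmAt 1 (pb f α) y := by
  rw [MF2b_iff] at h ⊢
  have hs := mem_chart_source (E n) (f y)
  have hu : ∀ᶠ z in 𝓝 (ch m y y), DifferentiableAt ℂ (ch n (f y) ∘ f ∘ (ch m y).symm) z :=
    (hmap_iff_chart (isCh_ch y) (isCh_ch (f y)) (mem_chart_source _ y) hs
      (hf.mono fun _ k => k.1)).1 hf
  have ht : Tendsto (f ∘ (ch m y).symm) (𝓝 (ch m y y)) (𝓝 (f y)) :=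
    hf.continuousAt.tendsto.comp MF2b_symm
  refine MF2b_tr (a := fun z => lm (fderiv ℝ (ch n (f y) ∘ f ∘ (ch m y).symm) z)
    (pb (ch n (f y)).symm α ((ch n (f y) ∘ f ∘ (ch m y).symm) z))) ?_ ?_
  · filter_upwards [hu.eventually_nhds,
      (((ch n (f y)).continuousAt hs).tendsto.comp ht).eventually h] with z h1 h2
    exact MF2b_model (contDiffAt_of_hol h1) h2
  · filter_upwards [MF2b_target (p := y), MF2b_symm.eventually hf.eventually,
      ht.eventually (chart_source_mem_nhds (E n) (f y))] with z h1 h2 h3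
    have h4 := (isCh_ch y).2 z h1
    rw [pb_comp h2 h4, ← df_E]
    refine Eq.trans ?_ (pb_comp ((isCh_ch (f y)).1 _ h3) (h2.comp h4) _)
    exact congrArg (lm _) (pb_chart (isCh_ch (f y)) h3 α).symm

theorem SmAt.eventually (h : SmAt G α p) (hG : GOk G p) : ∀ᶠ y in 𝓝 p, SmAt G α y := by
  filter_upwards [MF2b_ev (smAt_iff_one.1 h), hG.ne.eventually_nhds, hG.self, hG.hol]
    with y h1 h2 h3 h4
  refine smAt_iff_one.2 (MF2b_congr
    (MF2b_fsmul (MF2b_inv (MF2b_hol h4) (div_ne_zero h3 h2.self_of_nhds)) h1) ?_)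
  filter_upwards [h2] with y' h5
  rw [smul_smul, inv_div, mul_comm, ← mul_div_assoc, inv_mul_cancel₀ h5, one_div]

theorem SmAt.congr (h : SmAt G α p) (e : α =ᶠ[𝓝 p] β) : SmAt G β p := by
  exact smAt_iff_one.2 (MF2b_congr (smAt_iff_one.1 h) (e.mono fun y hy => by rw [hy]))

theorem SmAt.gauge (h : SmAt G α p) (e : G p =ᶠ[𝓝 p] G' p) : SmAt G' α p := by
  exact smAt_iff_one.2 (MF2b_congr (smAt_iff_one.1 h) (e.mono fun y hy => by rw [hy]))

theorem smAt_zero : SmAt G (0 : Fm n X) p := by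
  have h : SmAt 1 (fn n fun _ : X => 0) p := MF2b_fn.2 (.of_forall fun _ => contDiffAt_const)
  exact smAt_iff_one.2 (MF2b_congr h (.of_forall fun y => by simp [fn]))

theorem smAt_of_eventually_zero (h : ∀ᶠ y in 𝓝 p, α y = 0) : SmAt G α p := by
  exact smAt_zero.congr (h.mono fun y hy => hy.symm)

theorem smAt_const (c : ℂ) : SmAt 1 (fn n fun _ : X => c) p := by
  exact MF2b_fn.2 (.of_forall fun _ => contDiffAt_const)

theorem smAt_one : SmAt 1 (1 : Fm n X) p := by
  exact (smAt_const 1).congr (.of_forall fun y => by simp [fn])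

theorem SmAt.add (h : SmAt G α p) (h' : SmAt G β p) : SmAt G (α + β) p := by
  exact smAt_iff_one.2 (MF2b_congr (MF2b_add (smAt_iff_one.1 h) (smAt_iff_one.1 h'))
    (.of_forall fun y => (smul_add _ _ _).symm))

theorem SmAt.neg (h : SmAt G α p) : SmAt G (-α) p := by
  exact smAt_iff_one.2 (MF2b_congr (MF2b_fsmul (smAt_const (-1)) (smAt_iff_one.1 h))
    (.of_forall fun y => by simp))

theorem SmAt.sub (h : SmAt G α p) (h' : SmAt G β p) : SmAt G (α - β) p := by
  rw [sub_eq_add_neg]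
  exact h.add h'.neg

theorem SmAt.smul (h : SmAt G α p) (c : ℂ) : SmAt G (c • α) p := by
  exact smAt_iff_one.2 (MF2b_congr (MF2b_fsmul (smAt_const c) (smAt_iff_one.1 h))
    (.of_forall fun y => smul_comm _ _ _))

theorem SmAt.sum {ι : Type} {S : Finset ι} {α : ι → Fm n X} (h : ∀ i ∈ S, SmAt G (α i) p) :
    SmAt G (∑ i ∈ S, α i) p := by
  exact Finset.sum_induction α (fun a => SmAt G a p) (fun _ _ => SmAt.add) smAt_zero h

theorem SmAt.mul (h : SmAt G α p) (h' : SmAt G' β p) : SmAt (G * G') (α * β) p := by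
  refine smAt_iff_one.2 (MF2b_congr (MF2b_mul (smAt_iff_one.1 h) (smAt_iff_one.1 h'))
    (.of_forall fun y => ?_))
  simp only [Pi.mul_apply, mul_inv, smul_mul_smul_comm]

theorem SmAt.mul_left (h : SmAt 1 α p) (h' : SmAt G β p) : SmAt G (α * β) p := by
  simpa only [one_mul] using h.mul h'

theorem SmAt.mul_right (h : SmAt G α p) (h' : SmAt 1 β p) : SmAt G (α * β) p := by
  simpa only [mul_one] using h.mul h'

theorem SmAt.fsmul (h : SmAt G (fn n s) p) (h' : SmAt G' β p) : SmAt (G * G') (s • β) p := by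
  rw [← fn_mul]
  exact h.mul h'

theorem SmAt.fsmul_one (h : SmAt 1 (fn n s) p) (h' : SmAt G β p) : SmAt G (s • β) p := by
  rw [← fn_mul]
  exact h.mul_left h'

theorem SmAt.mul_zpow {i j l : ℤ} (hG : GOk G p) (h : SmAt (G ^ i) α p) (h' : SmAt (G ^ j) β p)
    (hl : i + j = l) : SmAt (G ^ l) (α * β) p := by
  subst hl
  exact (h.mul h').gauge (hG.zpow_add i j)

theorem SmAt.cf (h : SmAt G α p) (hG : GOk G p) : SmAt G⁻¹ (cf α) p := by
  obtain ⟨T, hT⟩ := exists_cjL (n := n)
  have h1 : ContDiff ℝ ∞ (cj : Λ n → Λ n) := by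
    rw [← funext hT]
    exact T.contDiff
  refine smAt_iff_one.2 (MF2b_congr (MF2b_fsmul hG.sm
    (MF2b_post h1 (smAt_iff_one.1 h) fun B a => lm_cj _ a)) (hG.ne.mono fun y hy => ?_))
  rw [cj_smul, smul_smul, ← mul_conj, map_inv₀, mul_inv_cancel_right₀ ((map_ne_zero _).2 hy)]
  simp only [Pi.inv_apply, inv_inv, K0.cf]

theorem SmAt.cf_one (h : SmAt 1 α p) : SmAt 1 (K0.cf α) p := by
  simpa only [inv_one] using h.cf gok_one

theorem SmAt.mul_cf (h : SmAt G α p) (h' : SmAt G β p) (hG : GOk G p) :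
    SmAt 1 (α * K0.cf β) p := by
  exact (h.mul (h'.cf hG)).gauge hG.mul_inv

theorem SmAt.mul_dual (h : SmAt G α p) (h' : SmAt G⁻¹ β p) (hG : GOk G p) :
    SmAt 1 (α * β) p := by
  exact (h.mul h').gauge hG.mul_inv

theorem SmAt.pf (h : SmAt G α p) (a b : ℕ) : SmAt G (pf a b α) p := by
  exact smAt_iff_one.2 (MF2b_congr (MF2b_post (MF2b_lin (prj a b)) (smAt_iff_one.1 h) lm_prj)
    (.of_forall fun y => map_smul _ _ _))

theorem SmAt.gi (h : SmAt G α p) : SmAt G (fun y => gi (α y)) p := by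
  exact smAt_iff_one.2 (MF2b_congr (MF2b_post (MF2b_lin K0.gi.toLinearMap) (smAt_iff_one.1 h)
    fun B a => lm_gi _ a) (.of_forall fun y => map_smul _ _ _))

theorem SmAt.pb {f : Y → X} {y : Y} (hf : HMap f y) (h : SmAt G α (f y)) :
    SmAt (gpb f G) (pb f α) y := by
  exact smAt_iff_one.2 (MF2b_congr (MF2b_pb hf (smAt_iff_one.1 h))
    (.of_forall fun y => map_smul _ _ _))

end

end Pool.Agent.MP_1c689d_ag.K0

end

section

/-! Smooth forms, holomorphic sections and gauges. -/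

set_option autoImplicit false

open Complex Filter Topology Set MeasureTheory
open scoped ComplexConjugate ContDiff ENNReal

namespace Pool.Agent.MP_1c689d_ag.K0

noncomputable section

variable {n m k : ℕ} {X Y Z : Type} [TopologicalSpace X] [TopologicalSpace Y]
  [TopologicalSpace Z] [Mf n X] [Mf m Y] [Mf k Z]

variable {G G' : Ga X} {α β : Fm n X} {p : X} {s t : X → ℂ}

theorem MF2_src : p ∈ (ch n p).source := mem_chart_source (E n) p

theorem MF2_ev {P : X → Prop} :
    (∀ᶠ z in 𝓝 (ch n p p), P ((ch n p).symm z)) ↔ ∀ᶠ y in 𝓝 p, P y :=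
  (ch n p).eventually_nhds' P MF2_src

theorem MF2_symm : (ch n p).symm (ch n p p) = p := (ch n p).left_inv MF2_src

theorem MF2_sm : SmAt G α p ↔
    ∀ᶠ z in 𝓝 (ch n p p), ContDiffAt ℝ ∞ (rep p fun y => (G p y)⁻¹ • α y) z :=
  ((ch n p).eventually_nhds _ MF2_src).symm

theorem MF2_hol : HolAt G s p ↔ ∀ᶠ z in 𝓝 (ch n p p), DifferentiableAt ℂ
    (fun z => (G p ((ch n p).symm z))⁻¹ * s ((ch n p).symm z)) z :=
  ((ch n p).eventually_nhds _ MF2_src).symm

theorem MF2_hol1 : HolAt 1 s p ↔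
    ∀ᶠ z in 𝓝 (ch n p p), DifferentiableAt ℂ (fun z => s ((ch n p).symm z)) z :=
  holAt_chart (isCh_ch p) MF2_src

theorem MF2_fn1 : SmAt 1 (fn n s) p ↔
    ∀ᶠ z in 𝓝 (ch n p p), ContDiffAt ℝ ∞ (fun z => s ((ch n p).symm z)) z :=
  smAt_fn_chart (isCh_ch p) MF2_src

theorem MF2_fn : SmAt G (fn n s) p ↔ ∀ᶠ z in 𝓝 (ch n p p), ContDiffAt ℝ ∞
    (fun z => (G p ((ch n p).symm z))⁻¹ * s ((ch n p).symm z)) z := by
  have e : (fun y => (G p y)⁻¹ • fn n s y) = fn n fun y => (G p y)⁻¹ * s y := by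
    funext y
    simp only [fn, map_mul, Algebra.smul_def]
  rw [smAt_iff_one, e, MF2_fn1]

theorem MF2_ne (h : ContinuousAt
    (fun z => (G p ((ch n p).symm z))⁻¹ * s ((ch n p).symm z)) (ch n p p)) (hG : GOk G p)
    (h0 : s p ≠ 0) :
    ∀ᶠ z in 𝓝 (ch n p p), (G p ((ch n p).symm z))⁻¹ * s ((ch n p).symm z) ≠ 0 :=
  h.eventually_ne (by rw [MF2_symm]; exact mul_ne_zero (inv_ne_zero hG.self_ne) h0)

theorem MF2_congr {f g : E n → ℂ} {z : E n} (h : ∀ᶠ w in 𝓝 z, DifferentiableAt ℂ f w)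
    (e : ∀ᶠ w in 𝓝 z, f w = g w) : ∀ᶠ w in 𝓝 z, DifferentiableAt ℂ g w := by
  filter_upwards [h, e.eventually_nhds] with w h1 h2
  exact h1.congr_of_eventuallyEq (EventuallyEq.symm h2)

theorem MF2_top {z : E n} {γ : E n → Λ n} (h : ContDiffAt ℝ ∞ γ z) :
    ContDiffAt ℝ ∞ (fun w => top (γ w)) z :=
  ((LinearMap.toContinuousLinearMap (top : Λ n →ₗ[ℂ] ℂ)).restrictScalars ℝ).contDiff.contDiffAt.comp
    z h

theorem SmAt.fn_inv (h : SmAt G (fn n s) p) (hG : GOk G p) (h0 : s p ≠ 0) :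
    SmAt G⁻¹ (fn n fun y => (s y)⁻¹) p := by
  rw [MF2_fn] at h ⊢
  filter_upwards [h, MF2_ne h.self_of_nhds.continuousAt hG h0] with z h1 h2
  simp only [Pi.inv_apply, ← mul_inv]
  exact h1.inv h2

theorem SmAt.fn_ne (h : SmAt G (fn n s) p) (hG : GOk G p) (h0 : s p ≠ 0) :
    ∀ᶠ y in 𝓝 p, s y ≠ 0 := by
  rw [MF2_fn] at h
  exact MF2_ev.1 ((MF2_ne h.self_of_nhds.continuousAt hG h0).mono fun z hz =>
    right_ne_zero_of_mul hz)

theorem SmAt.ne (h : SmAt G α p) (hG : GOk G p) (h0 : α p ≠ 0) : ∀ᶠ y in 𝓝 p, α y ≠ 0 := by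
  rw [MF2_sm] at h
  have h1 := h.self_of_nhds.continuousAt.eventually_ne (y := 0)
    (by rw [rep_self]; exact smul_ne_zero (inv_ne_zero hG.self_ne) h0)
  refine MF2_ev.1 (h1.mono fun z hz h2 => hz ?_)
  simp only [rep, K0.pb, h2, smul_zero, map_zero]

/-- A smooth form that vanishes at points arbitrarily close to `p` vanishes at `p`. -/
theorem SmAt.eq_zero_of_frequently (h : SmAt G α p) (hG : GOk G p)
    (h0 : ∃ᶠ y in 𝓝 p, α y = 0) : α p = 0 := by
  by_contra h1
  exact h0 (h.ne hG h1)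

theorem SmAt.continuousAt (h : SmAt 1 (fn n s) p) : ContinuousAt s p := by
  exact (smAt_fn_iff.1 h).self_of_nhds.continuousAt

theorem SmAt.normSq (h : SmAt G (fn n s) p) (hG : GOk G p) :
    SmAt 1 (fn n fun y => (Complex.normSq (s y) : ℂ)) p := by
  refine (h.mul_cf h hG).congr (Eventually.of_forall fun y => ?_)
  simp only [Pi.mul_apply, K0.cf, fn, cj_algebraMap, ← map_mul, Complex.mul_conj]

theorem SmAt.comp_fn (h : SmAt 1 (fn n s) p) {u : ℂ → ℂ}
    (hu : ∀ᶠ w in 𝓝 (s p), ContDiffAt ℝ ∞ u w) : SmAt 1 (fn n (u ∘ s)) p := by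
  have h1 := MF2_ev.2 (h.continuousAt.eventually hu)
  rw [MF2_fn1] at h ⊢
  filter_upwards [h, h1] with z h2 h3
  exact h3.comp z h2

theorem SmAt.fn_conj (h : SmAt 1 (fn n s) p) : SmAt 1 (fn n fun y => conj (s y)) p := by
  exact h.comp_fn (u := fun w => conj w) (Eventually.of_forall fun w =>
    conjCLE.contDiff.contDiffAt)

theorem SmAt.of_tsupport {O : Set X} (hα : Sm G α O) (hs : SmAt 1 (fn n s) p)
    (h : tsupport s ⊆ O) : SmAt G (s • α) p := by
  by_cases hp : p ∈ O
  · exact hs.fsmul_one (hα p hp)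
  · refine smAt_of_eventually_zero ?_
    filter_upwards [notMem_tsupport_iff_eventuallyEq.1 fun h1 => hp (h h1)] with y hy
    rw [Pi.smul_apply', hy, Pi.zero_apply, zero_smul]

theorem SmAt.of_tsupport' {O : Set X} (hα : Sm G α O) (h : tsupport α ⊆ O) : SmAt G α p := by
  by_cases hp : p ∈ O
  · exact hα p hp
  · exact smAt_of_eventually_zero (notMem_tsupport_iff_eventuallyEq.1 fun h1 => hp (h h1))

/-- The scalar part and the top part of a smooth form. -/
theorem SmAt.top_div (h : SmAt G α p) (h' : SmAt 1 β p) (h0 : top (β p) ≠ 0) :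
    SmAt G (fn n fun y => top (α y) / top (β y)) p := by
  rw [MF2_sm] at h h'
  rw [MF2_fn]
  have h1 := (MF2_top h'.self_of_nhds).continuousAt.eventually_ne (y := 0)
    (by rw [rep_self]; simpa only [Pi.one_apply, inv_one, one_smul] using h0)
  filter_upwards [h, h', h1, h1.eventually_nhds] with z h2 h3 h4 h5
  refine ((MF2_top h2).mul ((MF2_top h3).inv h4)).congr_of_eventuallyEq ?_
  filter_upwards [h5] with w hw
  simp only [rep, K0.pb, top_lm, Pi.one_apply, inv_one, one_smul, map_smul, smul_eq_mul,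
    Pi.inv_apply] at hw ⊢
  rw [mul_assoc, ← div_eq_mul_inv, mul_div_mul_left _ _ (left_ne_zero_of_mul hw)]

theorem HolAt.smAt (h : HolAt G s p) : SmAt G (fn n s) p := by
  rw [MF2_hol] at h
  rw [MF2_fn]
  exact h.eventually_nhds.mono fun z hz => contDiffAt_of_hol hz

theorem HolAt.eventually (h : HolAt G s p) (hG : GOk G p) : ∀ᶠ y in 𝓝 p, HolAt G s y := by
  have h1 := ((ch n p).eventually_nhds _ MF2_src).1 (MF2_hol.1 h).eventually_nhds
  filter_upwards [h1, chart_source_mem_nhds (E n) p, hG.hol, hG.self, hG.ne.eventually_nhds]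
    with y h2 h3 h4 h5 h6
  have h7 : HolAt 1 (fun y' => (G p y')⁻¹ * s y') y := (holAt_chart (isCh_ch p) h3).2 h2
  rw [MF2_hol1] at h4 h7
  have h8 := h4.self_of_nhds.continuousAt.eventually_ne (y := 0)
    (by rw [MF2_symm]; exact div_ne_zero h5 h6.self_of_nhds)
  rw [MF2_hol]
  refine MF2_congr (f := fun z => (G y ((ch n y).symm z) / G p ((ch n y).symm z))⁻¹ *
    ((G p ((ch n y).symm z))⁻¹ * s ((ch n y).symm z))) ?_ ?_
  · filter_upwards [h4, h7, h8] with z a b c
    exact (a.inv c).mul b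
  · filter_upwards [MF2_ev.2 h6] with z hz
    rw [inv_div, ← mul_assoc, div_eq_mul_inv, mul_right_comm (G p _), mul_inv_cancel₀ hz, one_mul]

theorem HolAt.congr (h : HolAt G s p) (e : s =ᶠ[𝓝 p] t) : HolAt G t p := by
  rw [MF2_hol] at h ⊢
  refine MF2_congr h ?_
  filter_upwards [MF2_ev.2 e] with z hz
  rw [hz]

theorem HolAt.gauge (h : HolAt G s p) (e : G p =ᶠ[𝓝 p] G' p) : HolAt G' s p := by
  rw [MF2_hol] at h ⊢
  refine MF2_congr h ?_
  filter_upwards [MF2_ev.2 e] with z hz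
  rw [hz]

theorem holAt_const (c : ℂ) : HolAt 1 (fun _ : X => c) p := by
  exact MF2_hol1.2 (Eventually.of_forall fun z => differentiableAt_const c)

theorem holAt_zero : HolAt G (fun _ : X => 0) p := by
  rw [MF2_hol]
  simp only [mul_zero]
  exact Eventually.of_forall fun z => differentiableAt_const 0

theorem HolAt.add (h : HolAt G s p) (h' : HolAt G t p) : HolAt G (s + t) p := by
  rw [MF2_hol] at h h' ⊢
  filter_upwards [h, h'] with z h1 h2
  simpa only [Pi.add_apply, mul_add] using h1.fun_add h2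

theorem HolAt.sub (h : HolAt G s p) (h' : HolAt G t p) : HolAt G (s - t) p := by
  rw [MF2_hol] at h h' ⊢
  filter_upwards [h, h'] with z h1 h2
  simpa only [Pi.sub_apply, mul_sub] using h1.fun_sub h2

theorem HolAt.smul (h : HolAt G s p) (c : ℂ) : HolAt G (c • s) p := by
  rw [MF2_hol] at h ⊢
  filter_upwards [h] with z h1
  simpa only [Pi.smul_apply, smul_eq_mul, mul_left_comm] using h1.const_mul c

theorem HolAt.sum {ι : Type} {S : Finset ι} {s : ι → X → ℂ} (h : ∀ i ∈ S, HolAt G (s i) p) :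
    HolAt G (∑ i ∈ S, s i) p := by
  classical
  induction S using Finset.induction_on with
  | empty => exact holAt_zero
  | insert a S ha ih =>
    rw [Finset.sum_insert ha]
    exact (h a (Finset.mem_insert_self a S)).add
      (ih fun i hi => h i (Finset.mem_insert_of_mem hi))

theorem HolAt.mul (h : HolAt G s p) (h' : HolAt G' t p) : HolAt (G * G') (s * t) p := by
  rw [MF2_hol] at h h' ⊢
  filter_upwards [h, h'] with z h1 h2
  simpa only [Pi.mul_apply, mul_inv, mul_mul_mul_comm] using h1.fun_mul h2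

theorem HolAt.inv (h : HolAt G s p) (hG : GOk G p) (h0 : s p ≠ 0) :
    HolAt G⁻¹ (fun y => (s y)⁻¹) p := by
  rw [MF2_hol] at h ⊢
  filter_upwards [h, MF2_ne h.self_of_nhds.continuousAt hG h0] with z h1 h2
  simpa only [Pi.inv_apply, mul_inv] using h1.fun_inv h2

theorem HolAt.zpow (h : HolAt G s p) (hG : GOk G p) (h0 : s p ≠ 0) (i : ℤ) :
    HolAt (G ^ i) (fun y => s y ^ i) p := by
  rw [MF2_hol] at h ⊢
  filter_upwards [h, MF2_ne h.self_of_nhds.continuousAt hG h0] with z h1 h2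
  simpa only [Pi.pow_apply, mul_zpow, inv_zpow] using h1.zpow (m := i) (Or.inl h2)

theorem HolAt.div (h : HolAt G s p) (h' : HolAt G t p) (hG : GOk G p) (h0 : t p ≠ 0) :
    HolAt 1 (fun y => s y / t y) p := by
  exact ((h.mul (h'.inv hG h0)).gauge hG.mul_inv).congr
    (Eventually.of_forall fun y => (div_eq_mul_inv _ _).symm)

theorem HolAt.comp {f : Y → X} {y : Y} (hf : HMap f y) (h : HolAt G s (f y)) :
    HolAt (gpb f G) (s ∘ f) y := by
  rw [holAt_iff_one] at h ⊢
  have h1 : HMap (fun x : X => (fun _ => (G (f y) x)⁻¹ * s x : E 1)) (f y) :=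
    hmap_iff_holAt.2 fun _ => h
  exact hmap_iff_holAt.1 (h1.comp hf) 0

theorem HolAt.comp_fn (h : HolAt 1 s p) {u : ℂ → ℂ}
    (hu : ∀ᶠ w in 𝓝 (s p), DifferentiableAt ℂ u w) : HolAt 1 (u ∘ s) p := by
  have h1 := MF2_ev.2 (h.smAt.continuousAt.eventually hu)
  rw [MF2_hol1] at h ⊢
  filter_upwards [h, h1] with z h2 h3
  exact h3.comp z h2

end

end Pool.Agent.MP_1c689d_ag.K0

end

section

/-! The operators on a manifold. -/

set_option autoImplicit false

open Complex Filter Topology Set MeasureTheory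
open scoped ComplexConjugate ContDiff ENNReal

namespace Pool.Agent.MP_1c689d_ag.K0

noncomputable section

variable {n m k : ℕ} {X Y Z : Type} [TopologicalSpace X] [TopologicalSpace Y]
  [TopologicalSpace Z] [Mf n X] [Mf m Y] [Mf k Z]

variable {G G' : Ga X} {α β : Fm n X} {p : X} {s t : X → ℂ} {a b : ℕ}

theorem MF3a_rep_congr (e : α =ᶠ[𝓝 p] β) : rep p α =ᶠ[𝓝 (ch n p p)] rep p β :=
  (((ch n p).tendsto_symm (mem_chart_source (E n) p)).eventually e).mono fun z hz =>
    congrArg (lm (df (ch n p).symm z)) hz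

theorem MF3a_rep_add : rep p (α + β) = rep p α + rep p β := funext fun _ => map_add _ _ _

theorem MF3a_rep_smul (c : ℂ) : rep p (c • α) = c • rep p α :=
  funext fun z => map_smul (lm (df (ch n p).symm z)) c _

theorem MF3a_rep_fsmul (u : X → ℂ) :
    rep p (fun y => u y • α y) = fun z => u ((ch n p).symm z) • rep p α z :=
  funext fun _ => map_smul _ _ _

theorem MF3a_dbar_one : dbar 1 α p = dbE (rep p α) (ch n p p) := by
  simp only [dbar, Pi.one_apply, inv_one, one_smul]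

theorem MF3a_dp_one : dp 1 α p = dpE (rep p α) (ch n p p) := by
  simp only [dp, Pi.one_apply, map_one, inv_one, one_smul]

theorem MF3a_diff (h : SmAt G α p) :
    DifferentiableAt ℝ (rep p fun y => (G p y)⁻¹ • α y) (ch n p p) :=
  h.self_of_nhds.differentiableAt (by simp)

theorem MF3a_diff_one (h : SmAt 1 α p) : DifferentiableAt ℝ (rep p α) (ch n p p) := by
  simpa only [Pi.one_apply, inv_one, one_smul] using MF3a_diff h

theorem MF3a_sm_conj (hG : GOk G p) (h : SmAt G α p) :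
    SmAt 1 (fun y => conj (G p y) • α y) p := by
  refine (hG.sm.fsmul_one (smAt_iff_one.1 h)).congr (hG.ne.mono fun y hy => ?_)
  change (normSq (G p y) : ℂ) • (G p y)⁻¹ • α y = conj (G p y) • α y
  rw [smul_smul, normSq_eq_conj_mul_self, mul_inv_cancel_right₀ hy]

theorem MF3a_diff_alg {f : E n → ℂ} {z : E n} (hf : DifferentiableAt ℝ f z) :
    DifferentiableAt ℝ (fun w => algebraMap ℂ (Λ n) (f w)) z := by
  simp only [Algebra.algebraMap_eq_smul_one]
  exact hf.smul_const _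

theorem MF3a_dbE_alg {f : E n → ℂ} {z : E n} (hf : DifferentiableAt ℂ f z) :
    dbE (fun w => algebraMap ℂ (Λ n) (f w)) z = 0 := by
  rw [dbE_fn]
  exact Finset.sum_eq_zero fun j _ => by rw [pzb_of_differentiableAt hf, zero_smul]

theorem MF3a_dbE_hol {f : E n → ℂ} {γ : E n → Λ n} {z : E n} (hf : DifferentiableAt ℂ f z)
    (hγ : DifferentiableAt ℝ γ z) : dbE (fun w => f w • γ w) z = f z • dbE γ z := by
  have e : (fun w => f w • γ w) = (fun w => algebraMap ℂ (Λ n) (f w)) * γ :=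
    funext fun w => Algebra.smul_def _ _
  rw [e, dbE_mul (MF3a_diff_alg (hf.restrictScalars ℝ)) hγ, MF3a_dbE_alg hf, zero_mul, zero_add,
    AlgHom.commutes, Algebra.smul_def]

theorem MF3a_dpE_hol {f : E n → ℂ} {γ : E n → Λ n} {z : E n} (hf : DifferentiableAt ℂ f z)
    (hγ : DifferentiableAt ℝ γ z) :
    dpE (fun w => conj (f w) • γ w) z = conj (f z) • dpE γ z := by
  have e : (fun w => conj (f w) • γ w) = (fun w => algebraMap ℂ (Λ n) (conj (f w))) * γ :=
    funext fun w => Algebra.smul_def _ _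
  have h0 : dpE (fun w => algebraMap ℂ (Λ n) (conj (f w))) z = 0 := by
    have h1 := cj_dbE (α := fun w => algebraMap ℂ (Λ n) (f w)) (z := z)
    simp only [MF3a_dbE_alg hf, map_zero, cj_algebraMap] at h1
    exact h1.symm
  have hd : DifferentiableAt ℝ (fun w => conj (f w)) z :=
    conjCLE.differentiableAt.comp z (hf.restrictScalars ℝ)
  rw [e, dpE_mul (MF3a_diff_alg hd) hγ, h0, zero_mul, zero_add, AlgHom.commutes,
    Algebra.smul_def]

theorem MF3a_hol {u : X → ℂ} (h : HolAt 1 u p) :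
    DifferentiableAt ℂ (fun z => u ((ch n p).symm z)) (ch n p p) := by
  simpa only [Pi.one_apply, inv_one, one_mul] using h.self_of_nhds

theorem MF3a_symm (p : X) : (ch n p).symm (ch n p p) = p :=
  (ch n p).left_inv (mem_chart_source (E n) p)

theorem dbar_E (α : Fm n (E n)) : dbar 1 α = dbE α := by
  funext z
  rw [MF3a_dbar_one, rep_E, ch_E]
  rfl

theorem dp_E (α : Fm n (E n)) : dp 1 α = dpE α := by
  funext z
  rw [MF3a_dp_one, rep_E, ch_E]
  rfl

theorem dd_E (α : Fm n (E n)) : dd α = dE α := by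
  funext z
  rw [dd, rep_E, ch_E]
  rfl

theorem dd_eq (α : Fm n X) : dd α = dp 1 α + dbar 1 α := by
  funext p
  rw [Pi.add_apply, MF3a_dp_one, MF3a_dbar_one]
  rfl

theorem dbar_eq_one : dbar G α p = G p p • dbar 1 (fun y => (G p y)⁻¹ • α y) p := by
  rw [MF3a_dbar_one]
  rfl

theorem dp_eq_one : dp G α p = (conj (G p p))⁻¹ • dp 1 (fun y => conj (G p y) • α y) p := by
  rw [MF3a_dp_one]
  rfl

theorem dbar_congr (e : α =ᶠ[𝓝 p] β) : dbar G α p = dbar G β p := by
  refine congrArg (G p p • ·) (dbE_congr (MF3a_rep_congr (e.mono fun y hy => ?_)))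
  exact congrArg ((G p y)⁻¹ • ·) hy

theorem dp_congr (e : α =ᶠ[𝓝 p] β) : dp G α p = dp G β p := by
  refine congrArg ((conj (G p p))⁻¹ • ·) (dpE_congr (MF3a_rep_congr (e.mono fun y hy => ?_)))
  exact congrArg (conj (G p y) • ·) hy

theorem dd_congr (e : α =ᶠ[𝓝 p] β) : dd α p = dd β p := by
  rw [dd_eq, dd_eq, Pi.add_apply, Pi.add_apply, dp_congr e, dbar_congr e]

theorem dbar_gauge (e : G p =ᶠ[𝓝 p] G' p) : dbar G α p = dbar G' α p := by
  rw [dbar, dbar, e.self_of_nhds]
  refine congrArg (G' p p • ·) (dbE_congr (MF3a_rep_congr (e.mono fun y hy => ?_)))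
  exact congrArg (·⁻¹ • α y) hy

theorem dp_gauge (e : G p =ᶠ[𝓝 p] G' p) : dp G α p = dp G' α p := by
  rw [dp, dp, e.self_of_nhds]
  refine congrArg ((conj (G' p p))⁻¹ • ·) (dpE_congr (MF3a_rep_congr (e.mono fun y hy => ?_)))
  exact congrArg (conj · • α y) hy

/-- The operators near `p` can be computed with the frame at `p`. -/
theorem dbar_frame (hG : GOk G p) (h : SmAt G α p) :
    ∀ᶠ y in 𝓝 p, dbar G α y = G p y • dbar 1 (fun y' => (G p y')⁻¹ • α y') y := by
  filter_upwards [hG.ne.eventually_nhds, hG.self, hG.hol,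
    (smAt_iff_one.1 h).eventually gok_one] with y h1 h2 h3 h4
  have h5 := h1.self_of_nhds
  have e : (fun y' => (G y y')⁻¹ • α y') =ᶠ[𝓝 y]
      fun y' => (G y y' / G p y')⁻¹ • (G p y')⁻¹ • α y' := h1.mono fun y' hy => by
    change _ = (G y y' / G p y')⁻¹ • (G p y')⁻¹ • α y'
    rw [smul_smul, ← mul_inv, div_mul_cancel₀ _ hy]
  have hd := (MF3a_hol h3).inv (by rw [MF3a_symm]; exact div_ne_zero h2 h5)
  rw [dbar, dbE_congr (MF3a_rep_congr e), MF3a_rep_fsmul, MF3a_dbar_one]
  refine (congrArg (G y y • ·) (MF3a_dbE_hol hd (MF3a_diff_one h4))).trans ?_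
  simp only [Pi.inv_apply, MF3a_symm]
  rw [smul_smul, inv_div, mul_div_cancel₀ _ h2]

theorem dp_frame (hG : GOk G p) (h : SmAt G α p) :
    ∀ᶠ y in 𝓝 p, dp G α y = (conj (G p y))⁻¹ • dp 1 (fun y' => conj (G p y') • α y') y := by
  filter_upwards [hG.ne.eventually_nhds, hG.self, hG.hol,
    (MF3a_sm_conj hG h).eventually gok_one] with y h1 h2 h3 h4
  have e : (fun y' => conj (G y y') • α y') =ᶠ[𝓝 y]
      fun y' => conj (G y y' / G p y') • conj (G p y') • α y' := h1.mono fun y' hy => by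
    change _ = conj (G y y' / G p y') • conj (G p y') • α y'
    rw [smul_smul, ← map_mul, div_mul_cancel₀ _ hy]
  rw [dp, dpE_congr (MF3a_rep_congr e), MF3a_rep_fsmul, MF3a_dp_one,
    MF3a_dpE_hol (MF3a_hol h3) (MF3a_diff_one h4), MF3a_symm, smul_smul, map_div₀,
    div_eq_mul_inv, inv_mul_cancel_left₀ ((map_ne_zero _).2 h2)]

theorem dbar_zero : dbar G (0 : Fm n X) = 0 := by
  funext p
  have e : (rep p fun y => (G p y)⁻¹ • (0 : Fm n X) y) = fun _ => 0 := funext fun _ => by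
    simp only [rep, pb, Pi.zero_apply, smul_zero, map_zero]
  rw [dbar, e, dbE_const, smul_zero, Pi.zero_apply]

theorem dp_zero : dp G (0 : Fm n X) = 0 := by
  funext p
  have e : (rep p fun y => conj (G p y) • (0 : Fm n X) y) = fun _ => 0 := funext fun _ => by
    simp only [rep, pb, Pi.zero_apply, smul_zero, map_zero]
  rw [dp, e, dpE_const, smul_zero, Pi.zero_apply]

theorem dd_zero : dd (0 : Fm n X) = 0 := by
  rw [dd_eq, dp_zero, dbar_zero, add_zero]

theorem dd_const (c : ℂ) : dd (fn n fun _ : X => c) = 0 := by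
  funext p
  have e : rep p (fn n fun _ : X => c) = fun _ => algebraMap ℂ (Λ n) c := funext fun _ =>
    AlgHom.commutes _ c
  rw [dd, e, dE, dpE_const, dbE_const, add_zero, Pi.zero_apply]

theorem dbar_smul (c : ℂ) : dbar G (c • α) = c • dbar G α := by
  funext p
  have e : (fun y => (G p y)⁻¹ • (c • α) y) = c • fun y => (G p y)⁻¹ • α y :=
    funext fun y => smul_comm _ c (α y)
  rw [dbar, e, MF3a_rep_smul, dbE_smul, smul_comm]
  rfl

theorem dp_smul (c : ℂ) : dp G (c • α) = c • dp G α := by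
  funext p
  have e : (fun y => conj (G p y) • (c • α) y) = c • fun y => conj (G p y) • α y :=
    funext fun y => smul_comm _ c (α y)
  rw [dp, e, MF3a_rep_smul, dpE_smul, smul_comm]
  rfl

theorem dd_smul (c : ℂ) : dd (c • α) = c • dd α := by
  rw [dd_eq, dd_eq, dp_smul, dbar_smul, smul_add]

theorem dbar_neg : dbar G (-α) = -dbar G α := by
  rw [← neg_one_smul ℂ α, dbar_smul, neg_one_smul]

theorem dp_neg : dp G (-α) = -dp G α := by
  rw [← neg_one_smul ℂ α, dp_smul, neg_one_smul]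

theorem dd_neg : dd (-α) = -dd α := by
  rw [← neg_one_smul ℂ α, dd_smul, neg_one_smul]

theorem dbar_add (h : SmAt G α p) (h' : SmAt G β p) :
    dbar G (α + β) p = dbar G α p + dbar G β p := by
  have e : (fun y => (G p y)⁻¹ • (α + β) y) =
      (fun y => (G p y)⁻¹ • α y) + fun y => (G p y)⁻¹ • β y := funext fun y => smul_add _ _ _
  rw [dbar, e, MF3a_rep_add, dbE_add (MF3a_diff h) (MF3a_diff h'), smul_add]
  rfl

theorem dp_add (hG : GOk G p) (h : SmAt G α p) (h' : SmAt G β p) :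
    dp G (α + β) p = dp G α p + dp G β p := by
  have e : (fun y => conj (G p y) • (α + β) y) =
      (fun y => conj (G p y) • α y) + fun y => conj (G p y) • β y :=
    funext fun y => smul_add _ _ _
  rw [dp, e, MF3a_rep_add, dpE_add (MF3a_diff_one (MF3a_sm_conj hG h))
    (MF3a_diff_one (MF3a_sm_conj hG h')), smul_add]
  rfl

theorem dd_add (h : SmAt 1 α p) (h' : SmAt 1 β p) : dd (α + β) p = dd α p + dd β p := by
  rw [dd_eq, dd_eq, dd_eq, Pi.add_apply, Pi.add_apply, Pi.add_apply, dp_add gok_one h h',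
    dbar_add h h', add_add_add_comm]

theorem dbar_sub (h : SmAt G α p) (h' : SmAt G β p) :
    dbar G (α - β) p = dbar G α p - dbar G β p := by
  rw [sub_eq_add_neg, dbar_add h h'.neg, dbar_neg, sub_eq_add_neg, Pi.neg_apply]

theorem dp_sub (hG : GOk G p) (h : SmAt G α p) (h' : SmAt G β p) :
    dp G (α - β) p = dp G α p - dp G β p := by
  rw [sub_eq_add_neg, dp_add hG h h'.neg, dp_neg, sub_eq_add_neg, Pi.neg_apply]

theorem dd_sub (h : SmAt 1 α p) (h' : SmAt 1 β p) : dd (α - β) p = dd α p - dd β p := by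
  rw [sub_eq_add_neg, dd_add h h'.neg, dd_neg, sub_eq_add_neg, Pi.neg_apply]

theorem dbar_sum {ι : Type} {S : Finset ι} {α : ι → Fm n X} (h : ∀ i ∈ S, SmAt G (α i) p) :
    dbar G (∑ i ∈ S, α i) p = ∑ i ∈ S, dbar G (α i) p := by
  classical
  induction S using Finset.induction_on with
  | empty => rw [Finset.sum_empty, Finset.sum_empty, dbar_zero, Pi.zero_apply]
  | insert i S hi ih =>
    have h' := fun j hj => h j (Finset.mem_insert_of_mem hj)
    rw [Finset.sum_insert hi, Finset.sum_insert hi,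
      dbar_add (h i (Finset.mem_insert_self i S)) (SmAt.sum h'), ih h']

theorem dp_sum {ι : Type} {S : Finset ι} {α : ι → Fm n X} (hG : GOk G p)
    (h : ∀ i ∈ S, SmAt G (α i) p) : dp G (∑ i ∈ S, α i) p = ∑ i ∈ S, dp G (α i) p := by
  classical
  induction S using Finset.induction_on with
  | empty => rw [Finset.sum_empty, Finset.sum_empty, dp_zero, Pi.zero_apply]
  | insert i S hi ih =>
    have h' := fun j hj => h j (Finset.mem_insert_of_mem hj)
    rw [Finset.sum_insert hi, Finset.sum_insert hi,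
      dp_add hG (h i (Finset.mem_insert_self i S)) (SmAt.sum h'), ih h']

theorem dd_sum {ι : Type} {S : Finset ι} {α : ι → Fm n X} (h : ∀ i ∈ S, SmAt 1 (α i) p) :
    dd (∑ i ∈ S, α i) p = ∑ i ∈ S, dd (α i) p := by
  classical
  induction S using Finset.induction_on with
  | empty => rw [Finset.sum_empty, Finset.sum_empty, dd_zero, Pi.zero_apply]
  | insert i S hi ih =>
    have h' := fun j hj => h j (Finset.mem_insert_of_mem hj)
    rw [Finset.sum_insert hi, Finset.sum_insert hi,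
      dd_add (h i (Finset.mem_insert_self i S)) (SmAt.sum h'), ih h']

end

end Pool.Agent.MP_1c689d_ag.K0

end

section

/-! The operators on a manifold. -/

set_option autoImplicit false

open Complex Filter Topology Set MeasureTheory
open scoped ComplexConjugate ContDiff ENNReal

namespace Pool.Agent.MP_1c689d_ag.K0

noncomputable section

variable {n m k : ℕ} {X Y Z : Type} [TopologicalSpace X] [TopologicalSpace Y]
  [TopologicalSpace Z] [Mf n X] [Mf m Y] [Mf k Z]

variable {G G' : Ga X} {α β : Fm n X} {p : X} {s t : X → ℂ} {a b : ℕ}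

theorem MF3b_ev {P : X → Prop} (h : ∀ᶠ y in 𝓝 p, P y) :
    ∀ᶠ z in 𝓝 (ch n p p), P ((ch n p).symm z) :=
  ((ch n p).tendsto_symm (mem_chart_source (E n) p)).eventually h

theorem MF3b_tg : ∀ᶠ z in 𝓝 (ch n p p), z ∈ (ch n p).target :=
  (ch n p).open_target.mem_nhds (mem_chart_target (E n) p)

theorem MF3b_hm : ∀ᶠ z in 𝓝 (ch n p p), HMap (ch n p).symm z :=
  MF3b_tg.mono fun z hz => (isCh_ch p).2 z hz

theorem MF3b_sm : SmAt 1 α p ↔ ∀ᶠ z in 𝓝 (ch n p p), ContDiffAt ℝ ∞ (rep p α) z :=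
  smAt_chart (isCh_ch p) (mem_chart_source (E n) p)

theorem MF3b_cd (h : SmAt 1 α p) : ContDiffAt ℝ ∞ (rep p α) (ch n p p) :=
  (MF3b_sm.1 h).self_of_nhds

theorem MF3b_c2 (h : SmAt 1 α p) : ContDiffAt ℝ 2 (rep p α) (ch n p p) :=
  (MF3b_cd h).of_le (ENat.LEInfty.out)

theorem MF3b_df (h : SmAt 1 α p) : DifferentiableAt ℝ (rep p α) (ch n p p) :=
  (MF3b_cd h).differentiableAt (by simp)

theorem MF3b_dbar1 (α : Fm n X) : dbar 1 α = fun y => dbE (rep y α) (ch n y y) := by
  funext y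
  simp [dbar]

theorem MF3b_dp1 (α : Fm n X) : dp 1 α = fun y => dpE (rep y α) (ch n y y) := by
  funext y
  simp [dp]

theorem MF3b_nat (D : (E n → Λ n) → E n → Λ n)
    (hD : ∀ (f : E n → E n) (γ : E n → Λ n) (z : E n), (∀ᶠ w in 𝓝 z, DifferentiableAt ℂ f w) →
      DifferentiableAt ℝ γ (f z) →
      D (fun w => lm (fderiv ℝ f w) (γ (f w))) z = lm (fderiv ℝ f z) (D γ (f z)))
    (hc : ∀ (γ γ' : E n → Λ n) (z : E n), γ =ᶠ[𝓝 z] γ' → D γ z = D γ' z) (h : SmAt 1 α p) :
    rep p (fun y => D (rep y α) (ch n y y)) =ᶠ[𝓝 (ch n p p)] D (rep p α) := by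
  filter_upwards [MF3b_tg (p := p), MF3b_ev (h.eventually gok_one)] with z hz hs
  set e := ch n p with he
  set y := e.symm z with hy
  have h1 : HMap e.symm z := (isCh_ch p).2 z hz
  have h2 : HMap (ch n y ∘ e.symm) z :=
    HMap.comp ((isCh_ch y).1 y (mem_chart_source (E n) y)) h1
  have h3 : df e.symm z = fderiv ℝ (ch n y ∘ e.symm) z := by
    simp [df, lc, hy]
  have h4 : ∀ᶠ w in 𝓝 z, e.symm w ∈ (ch n y).source :=
    h1.continuousAt.eventually (chart_source_mem_nhds (E n) y)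
  have h5 : (fun w => lm (fderiv ℝ (ch n y ∘ e.symm) w) (rep y α ((ch n y ∘ e.symm) w))) =ᶠ[𝓝 z]
      rep p α := by
    filter_upwards [h2.eventually, h4.eventually_nhds] with w a b
    have c : (ch n y).symm ∘ ch n y ∘ e.symm =ᶠ[𝓝 w] e.symm :=
      b.mono fun v hv => (ch n y).left_inv hv
    have d := pb_comp (f := ch n y ∘ e.symm)
      ((isCh_ch y).2 _ ((ch n y).map_source b.self_of_nhds)) a α
    rw [pb_congr (β := α) c rfl] at d
    rw [← df_E]
    exact d
  rw [← hc _ _ z h5, hD _ _ z (hmap_E.1 h2) (MF3b_df hs), ← h3]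
  rfl

theorem MF3b_rdb (h : SmAt 1 α p) : rep p (dbar 1 α) =ᶠ[𝓝 (ch n p p)] dbE (rep p α) := by
  rw [MF3b_dbar1]
  exact MF3b_nat dbE (fun _ _ _ => dbE_pb) (fun _ _ _ => dbE_congr) h

theorem MF3b_rdp (h : SmAt 1 α p) : rep p (dp 1 α) =ᶠ[𝓝 (ch n p p)] dpE (rep p α) := by
  rw [MF3b_dp1]
  exact MF3b_nat dpE (fun _ _ _ => dpE_pb) (fun _ _ _ => dpE_congr) h

theorem MF3b_sdb (h : SmAt 1 α p) : SmAt 1 (dbar 1 α) p := by
  rw [MF3b_sm]
  filter_upwards [MF3b_sm.1 h, (MF3b_rdb h).eventually_nhds] with z a b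
  exact (contDiffAt_dbE a).congr_of_eventuallyEq b

theorem MF3b_sdp (h : SmAt 1 α p) : SmAt 1 (dp 1 α) p := by
  rw [MF3b_sm]
  filter_upwards [MF3b_sm.1 h, (MF3b_rdp h).eventually_nhds] with z a b
  exact (contDiffAt_dpE a).congr_of_eventuallyEq b

theorem MF3b_bb (h : SmAt 1 α p) : dbar 1 (dbar 1 α) p = 0 := by
  rw [MF3b_dbar1 (dbar 1 α)]
  exact (dbE_congr (MF3b_rdb h)).trans (dbE_dbE (MF3b_c2 h))

theorem MF3b_pp (h : SmAt 1 α p) : dp 1 (dp 1 α) p = 0 := by
  rw [MF3b_dp1 (dp 1 α)]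
  exact (dpE_congr (MF3b_rdp h)).trans (dpE_dpE (MF3b_c2 h))

theorem MF3b_bp (h : SmAt 1 α p) : dbar 1 (dp 1 α) p + dp 1 (dbar 1 α) p = 0 := by
  rw [MF3b_dbar1 (dp 1 α), MF3b_dp1 (dbar 1 α)]
  show dbE _ _ + dpE _ _ = 0
  rw [dbE_congr (MF3b_rdp h), dpE_congr (MF3b_rdb h)]
  exact dbE_dpE (MF3b_c2 h)

theorem MF3b_bmul (h : SmAt 1 α p) (h' : SmAt 1 β p) :
    dbar 1 (α * β) p = dbar 1 α p * β p + gi (α p) * dbar 1 β p := by
  simp only [MF3b_dbar1]
  rw [show rep p (α * β) = rep p α * rep p β from pb_mul α β, dbE_mul (MF3b_df h) (MF3b_df h'),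
    rep_self, rep_self]

theorem MF3b_pmul (h : SmAt 1 α p) (h' : SmAt 1 β p) :
    dp 1 (α * β) p = dp 1 α p * β p + gi (α p) * dp 1 β p := by
  simp only [MF3b_dp1]
  rw [show rep p (α * β) = rep p α * rep p β from pb_mul α β, dpE_mul (MF3b_df h) (MF3b_df h'),
    rep_self, rep_self]

theorem MF3b_alg {u v : ℂ} (hu : u ≠ 0) (hv : v ≠ 0) (A B C D : Λ n) :
    (u * v) • (A * (v⁻¹ • B) + gi (u⁻¹ • C) * D) = (u • A) * B + gi C * (v • D) := by
  rw [map_smul, smul_add, mul_smul_comm, smul_mul_assoc, smul_smul, smul_smul, smul_mul_assoc,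
    mul_smul_comm]
  congr 2 <;> field_simp

theorem MF3b_ns (c : ℂ) (hc : c ≠ 0) (A : Λ n) : conj c • A = (normSq c : ℂ) • c⁻¹ • A := by
  rw [smul_smul, normSq_eq_conj_mul_self, mul_assoc, mul_inv_cancel₀ hc, mul_one]

theorem MF3b_scj (hG : GOk G p) (h : SmAt G α p) : SmAt 1 (fun y => conj (G p y) • α y) p := by
  refine (hG.sm.fsmul_one (smAt_iff_one.1 h)).congr ?_
  filter_upwards [hG.ne] with y hy
  exact (MF3b_ns _ hy _).symm

theorem MF3b_exp (h : SmAt 1 (fn n s) p) :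
    dp 1 (fn n fun y => cexp (s y)) p = cexp (s p) • dp 1 (fn n s) p := by
  have h1 : DifferentiableAt ℝ (s ∘ (ch n p).symm) (ch n p p) :=
    ((smAt_fn_chart (isCh_ch p) (mem_chart_source (E n) p)).1 h).self_of_nhds.differentiableAt
      (by simp)
  have h2 : fderiv ℝ ((fun y => cexp (s y)) ∘ (ch n p).symm) (ch n p p) =
      cexp (s p) • fderiv ℝ (s ∘ (ch n p).symm) (ch n p p) := by
    have := h1.hasFDerivAt.cexp.fderiv
    rw [Function.comp_apply, (ch n p).left_inv (mem_chart_source (E n) p)] at this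
    exact this
  simp only [MF3b_dp1]
  rw [show rep p (fn n fun y => cexp (s y)) = _ from pb_fn _, show rep p (fn n s) = _ from pb_fn _]
  unfold fn
  rw [dpE_fn, dpE_fn, Finset.smul_sum]
  refine Finset.sum_congr rfl fun j _ => ?_
  rw [smul_smul, pz, pz, h2]
  congr 1
  simp only [smul_apply, smul_eq_mul]
  ring

theorem MF3b_exp_mul (h : SmAt 1 (fn n s) p) (h' : SmAt 1 α p) :
    dp 1 (fun y => cexp (s y) • α y) p = cexp (s p) • (dp 1 (fn n s) p * α p + dp 1 α p) := by
  have h1 : SmAt 1 (fn n fun y => cexp (s y)) p :=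
    h.comp_fn (u := cexp) (Eventually.of_forall fun _ => Complex.contDiff_exp.contDiffAt)
  have h2 := MF3b_pmul h1 h'
  rw [fn_mul, MF3b_exp h] at h2
  refine h2.trans ?_
  rw [fn, AlgHom.commutes, ← Algebra.smul_def, smul_add, smul_mul_assoc]

theorem MF3b_log (hG : GOk G p) :
    SmAt 1 (fn n fun y => (Real.log (normSq (G p y)) : ℂ)) p := by
  refine hG.sm.comp_fn (u := fun w => (Real.log w.re : ℂ)) ?_
  have h0 : ((normSq (G p p) : ℂ)).re ≠ 0 := by simpa using hG.self_ne
  filter_upwards [continuous_re.continuousAt.eventually_ne h0] with w hw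
  exact ofRealCLM.contDiff.contDiffAt.comp w
    ((Real.contDiffAt_log.2 hw).comp w reCLM.contDiff.contDiffAt)

theorem MF3b_explog {c : ℂ} (hc : c ≠ 0) : cexp (Real.log (normSq c) : ℂ) = normSq c := by
  rw [← ofReal_exp, Real.exp_log (normSq_pos.2 hc)]

theorem MF3b_Tp {c : X → ℂ} (h : ∀ᶠ y in 𝓝 p, α y ∈ Tp n a b) :
    ∀ᶠ z in 𝓝 (ch n p p), rep p (fun y => c y • α y) z ∈ Tp n a b := by
  filter_upwards [MF3b_hm (p := p), MF3b_ev h] with z h1 h2
  exact pb_Tp h1 (Submodule.smul_mem _ _ h2)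

theorem MF3b_pf (c : X → ℂ) : rep p (fun y => c y • pf a b α y) =ᶠ[𝓝 (ch n p p)]
    fun z => prj a b (rep p (fun y => c y • α y) z) := by
  filter_upwards [MF3b_hm (p := p)] with z h1
  rw [show (fun y => c y • pf a b α y) = pf a b fun y => c y • α y from
    funext fun y => (map_smul _ _ _).symm]
  exact pb_pf h1 a b _

theorem MF3b_cf (c : X → ℂ) : rep p (fun y => conj (c y) • cf α y) =
    fun z => cj (rep p (fun y => c y • α y) z) := by
  rw [show (fun y => conj (c y) • cf α y) = cf fun y => c y • α y from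
    funext fun y => (cj_smul _ _).symm]
  exact pb_cf _

theorem MF3b_gi (c : X → ℂ) : rep p (fun y => c y • gi (α y)) =
    fun z => gi (rep p (fun y => c y • α y) z) := by
  funext z
  simp only [rep, pb, map_smul, lm_gi]

theorem dbar_mul (hG : GOk G p) (hG' : GOk G' p) (h : SmAt G α p) (h' : SmAt G' β p) :
    dbar (G * G') (α * β) p = dbar G α p * β p + gi (α p) * dbar G' β p := by
  have e : (fun y => ((G * G') p y)⁻¹ • (α * β) y) =
      (fun y => (G p y)⁻¹ • α y) * fun y => (G' p y)⁻¹ • β y := by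
    funext y
    simp only [Pi.mul_apply, mul_inv, smul_mul_smul_comm]
  rw [dbar_eq_one, e, MF3b_bmul (smAt_iff_one.1 h) (smAt_iff_one.1 h'), dbar_eq_one (G := G),
    dbar_eq_one (G := G')]
  exact MF3b_alg hG.self_ne hG'.self_ne _ _ _ _

theorem dp_mul (hG : GOk G p) (hG' : GOk G' p) (h : SmAt G α p) (h' : SmAt G' β p) :
    dp (G * G') (α * β) p = dp G α p * β p + gi (α p) * dp G' β p := by
  have e : (fun y => conj ((G * G') p y) • (α * β) y) =
      (fun y => conj (G p y) • α y) * fun y => conj (G' p y) • β y := by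
    funext y
    simp only [Pi.mul_apply, map_mul, smul_mul_smul_comm]
  rw [dp_eq_one, e, MF3b_pmul (MF3b_scj hG h) (MF3b_scj hG' h'), dp_eq_one (G := G),
    dp_eq_one (G := G'), ← MF3b_alg (inv_ne_zero ((map_ne_zero _).2 hG.self_ne))
      (inv_ne_zero ((map_ne_zero _).2 hG'.self_ne))]
  simp only [Pi.mul_apply, map_mul, mul_inv, inv_inv]

/-- The Leibniz rules with a target gauge that agrees with the product near `p`. -/
theorem dbar_mul' {G'' : Ga X} (e : (G * G') p =ᶠ[𝓝 p] G'' p) (hG : GOk G p) (hG' : GOk G' p)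
    (h : SmAt G α p) (h' : SmAt G' β p) :
    dbar G'' (α * β) p = dbar G α p * β p + gi (α p) * dbar G' β p := by
  rw [← dbar_gauge e]
  exact dbar_mul hG hG' h h'

theorem dp_mul' {G'' : Ga X} (e : (G * G') p =ᶠ[𝓝 p] G'' p) (hG : GOk G p) (hG' : GOk G' p)
    (h : SmAt G α p) (h' : SmAt G' β p) :
    dp G'' (α * β) p = dp G α p * β p + gi (α p) * dp G' β p := by
  rw [← dp_gauge e]
  exact dp_mul hG hG' h h'

theorem dd_mul (h : SmAt 1 α p) (h' : SmAt 1 β p) :
    dd (α * β) p = dd α p * β p + gi (α p) * dd β p := by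
  simp only [dd_eq, Pi.add_apply]
  rw [MF3b_pmul h h', MF3b_bmul h h']
  noncomm_ring

theorem SmAt.dbar (h : SmAt G α p) (hG : GOk G p) : SmAt G (dbar G α) p := by
  refine smAt_iff_one.2 ((MF3b_sdb (smAt_iff_one.1 h)).congr ?_)
  filter_upwards [hG.ne, dbar_frame hG h] with y h1 h2
  rw [h2, inv_smul_smul₀ h1]

theorem SmAt.dp (h : SmAt G α p) (hG : GOk G p) : SmAt G (dp G α) p := by
  have h0 := hG.sm.fn_inv gok_one (by simpa using hG.self_ne)
  rw [inv_one] at h0
  refine smAt_iff_one.2 ((h0.fsmul_one (MF3b_sdp (MF3b_scj hG h))).congr ?_)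
  filter_upwards [dp_frame hG h] with y h2
  rw [h2, smul_smul, ← mul_inv, mul_conj]
  rfl

theorem SmAt.dd (h : SmAt 1 α p) : SmAt 1 (dd α) p := by
  rw [dd_eq]
  exact (MF3b_sdp h).add (MF3b_sdb h)

theorem dbar_dbar (hG : GOk G p) (h : SmAt G α p) : dbar G (dbar G α) p = 0 := by
  have e : (fun y => (G p y)⁻¹ • dbar G α y) =ᶠ[𝓝 p] dbar 1 fun y => (G p y)⁻¹ • α y := by
    filter_upwards [hG.ne, dbar_frame hG h] with y h1 h2
    rw [h2, inv_smul_smul₀ h1]
  rw [dbar_eq_one, dbar_congr e, MF3b_bb (smAt_iff_one.1 h), smul_zero]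

theorem dp_dp (hG : GOk G p) (h : SmAt G α p) : dp G (dp G α) p = 0 := by
  have e : (fun y => conj (G p y) • dp G α y) =ᶠ[𝓝 p] dp 1 fun y => conj (G p y) • α y := by
    filter_upwards [hG.ne, dp_frame hG h] with y h1 h2
    rw [h2, smul_inv_smul₀ ((map_ne_zero _).2 h1)]
  rw [dp_eq_one, dp_congr e, MF3b_pp (MF3b_scj hG h), smul_zero]

theorem dd_dd (h : SmAt 1 α p) : dd (dd α) p = 0 := by
  rw [dd_eq α, dd_add (MF3b_sdp h) (MF3b_sdb h)]
  simp only [dd_eq, Pi.add_apply]
  rw [MF3b_pp h, MF3b_bb h, zero_add, add_zero, MF3b_bp h]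

theorem dbar_dp (hG : GOk G p) (h : SmAt G α p) :
    dbar G (dp G α) p + dp G (dbar G α) p = cur G p * α p := by
  have hL := MF3b_log hG
  have hγ := smAt_iff_one.1 h
  set L : X → ℂ := fun y => (Real.log (normSq (G p y)) : ℂ) with hLd
  set γ : Fm n X := fun y => (G p y)⁻¹ • α y with hγd
  have hne := hG.self_ne
  have e0 : (fun y => conj (G p y) • α y) =ᶠ[𝓝 p] fun y => cexp (L y) • γ y := by
    filter_upwards [hG.ne] with y h1
    rw [MF3b_explog h1]
    exact MF3b_ns _ h1 _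
  have e1 : (fun y => (G p y)⁻¹ • dp G α y) =ᶠ[𝓝 p] dp 1 (fn n L) * γ + dp 1 γ := by
    filter_upwards [hG.ne, dp_frame hG h, e0.eventually_nhds, hL.eventually gok_one,
      hγ.eventually gok_one] with y h1 h2 h3 h4 h5
    rw [h2, dp_congr h3, MF3b_exp_mul h4 h5, MF3b_explog h1, smul_smul, smul_smul, ← mul_inv,
      mul_conj, inv_mul_cancel₀ (by simpa using h1), one_smul]
    rfl
  have e2 : (fun y => conj (G p y) • dbar G α y) =ᶠ[𝓝 p] fun y => cexp (L y) • dbar 1 γ y := by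
    filter_upwards [hG.ne, dbar_frame hG h] with y h1 h2
    rw [h2, MF3b_explog h1, smul_smul, normSq_eq_conj_mul_self]
  have hθ : gi (dp 1 (fn n L) p) = -dp 1 (fn n L) p := by
    rw [gi_of_Tp (p := 0 + 1) (q := 0)]
    · simp
    · rw [MF3b_dp1]
      have := MF3b_Tp (c := 1) (p := p) (Eventually.of_forall (fn_Ty (n := n) L))
      simp only [Pi.one_apply, one_smul] at this
      exact dpE_Tp this
  have hα : α p = G p p • γ p := (smul_inv_smul₀ hne _).symm
  have hbp := eq_neg_of_add_eq_zero_left (MF3b_bp hγ)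
  rw [dbar_eq_one, dp_eq_one, dbar_congr e1, dp_congr e2, MF3b_exp_mul hL (MF3b_sdb hγ),
    dbar_add ((MF3b_sdp hL).mul_left hγ) (MF3b_sdp hγ), MF3b_bmul (MF3b_sdp hL) hγ, hθ,
    MF3b_explog hne, smul_smul, normSq_eq_conj_mul_self,
    inv_mul_cancel_left₀ ((map_ne_zero _).2 hne), ← smul_add, hα, hbp,
    show cur G p = dbar 1 (dp 1 (fn n L)) p from rfl]
  generalize γ p = A
  rw [mul_smul_comm]
  congr 1
  noncomm_ring

theorem dbar_Tp (h : ∀ᶠ y in 𝓝 p, α y ∈ Tp n a b) : dbar G α p ∈ Tp n a (b + 1) := by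
  exact Submodule.smul_mem _ _ (dbE_Tp (MF3b_Tp h))

theorem dp_Tp (h : ∀ᶠ y in 𝓝 p, α y ∈ Tp n a b) : dp G α p ∈ Tp n (a + 1) b := by
  exact Submodule.smul_mem _ _ (dpE_Tp (MF3b_Tp h))

theorem dd_Dg (h : ∀ᶠ y in 𝓝 p, α y ∈ Dg n a) : dd α p ∈ Dg n (a + 1) := by
  have h1 : ∀ᶠ z in 𝓝 (ch n p p), rep p α z ∈ Dg n a := (MF3b_ev h).mono fun z hz => pb_Dg hz
  exact add_mem (dpE_Dg h1) (dbE_Dg h1)

theorem Ty.dbar (h : Ty a b α) : Ty a (b + 1) (dbar G α) := by
  exact fun _ => dbar_Tp (Eventually.of_forall h)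

theorem Ty.dp (h : Ty a b α) : Ty (a + 1) b (dp G α) := by
  exact fun _ => dp_Tp (Eventually.of_forall h)

theorem Dgr.dd (h : Dgr a α) : Dgr (a + 1) (dd α) := by
  exact fun _ => dd_Dg (Eventually.of_forall h)

theorem pf_dbar (h : SmAt G α p) : pf a (b + 1) (dbar G α) p = dbar G (pf a b α) p := by
  rw [pf, dbar, dbar, map_smul, prj_dbE (MF3b_df (smAt_iff_one.1 h)), dbE_congr (MF3b_pf _)]

theorem pf_dp (hG : GOk G p) (h : SmAt G α p) : pf (a + 1) b (dp G α) p = dp G (pf a b α) p := by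
  rw [pf, dp, dp, map_smul, prj_dpE (MF3b_df (MF3b_scj hG h)), dpE_congr (MF3b_pf _)]

theorem pf_zero_dp : pf 0 b (dp G α) p = 0 := by
  rw [pf, dp, map_smul, prj_zero_dpE, smul_zero]

/-- A closed form of pure type is closed for both operators. -/
theorem dd_eq_zero_iff (h : ∀ᶠ y in 𝓝 p, α y ∈ Tp n a b) :
    dd α p = 0 ↔ dp 1 α p = 0 ∧ dbar 1 α p = 0 := by
  have h1 := dp_Tp (G := 1) h
  have h2 := dbar_Tp (G := 1) h
  rw [dd_eq, Pi.add_apply]
  refine ⟨fun h0 => ?_, fun h0 => by rw [h0.1, h0.2, add_zero]⟩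
  have h3 := congrArg (prj (a + 1) b) h0
  rw [map_add, prj_of_mem h1, prj_of_ne h2 (by simp), add_zero, map_zero] at h3
  rw [h3, zero_add] at h0
  exact ⟨h3, h0⟩

theorem dbar_cf : dbar G⁻¹ (cf α) = cf (dp G α) := by
  funext p
  rw [cf, dp, cj_smul, cj_dpE, ← MF3b_cf, dbar]
  simp only [Pi.inv_apply, inv_inv, map_inv₀, conj_conj]

theorem dp_cf : dp G⁻¹ (cf α) = cf (dbar G α) := by
  funext p
  rw [cf, dbar, cj_smul, cj_dbE, ← MF3b_cf, dp]
  simp only [Pi.inv_apply, inv_inv, map_inv₀]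

theorem dd_cf : dd (cf α) = cf (dd α) := by
  have h1 := dbar_cf (G := 1) (α := α)
  have h2 := dp_cf (G := 1) (α := α)
  rw [inv_one] at h1 h2
  rw [dd_eq, dd_eq, h1, h2]
  funext p
  simp only [cf, Pi.add_apply, map_add, add_comm]

theorem dbar_gi : dbar G (fun y => gi (α y)) p = -gi (dbar G α p) := by
  rw [dbar, dbar, MF3b_gi, dbE_gi, map_smul, smul_neg]

theorem dp_gi : dp G (fun y => gi (α y)) p = -gi (dp G α p) := by
  rw [dp, dp, MF3b_gi, dpE_gi, map_smul, smul_neg]

end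

end Pool.Agent.MP_1c689d_ag.K0

end

section

/-! The operators on a manifold. -/

set_option autoImplicit false

open Complex Filter Topology Set MeasureTheory
open scoped ComplexConjugate ContDiff ENNReal

namespace Pool.Agent.MP_1c689d_ag.K0

noncomputable section

variable {n m k : ℕ} {X Y Z : Type} [TopologicalSpace X] [TopologicalSpace Y]
  [TopologicalSpace Z] [Mf n X] [Mf m Y] [Mf k Z]

variable {G G' : Ga X} {α β : Fm n X} {p : X} {s t : X → ℂ} {a b : ℕ}

theorem MF3_rep {f : Y → X} {y : Y} (hf : HMap f y) (γ : Fm n X) :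
    rep y (pb f γ) =ᶠ[𝓝 (ch m y y)]
      fun w => lm (fderiv ℝ (lc f y) w) (rep (f y) γ (lc f y w)) := by
  have hy := mem_chart_source (E m) y
  have h1 : ∀ᶠ w in 𝓝 (ch m y y), f ((ch m y).symm w) ∈ (ch n (f y)).source :=
    ((ch m y).tendsto_symm hy).eventually
      (hf.continuousAt.eventually (chart_source_mem_nhds (E n) (f y)))
  filter_upwards [(ch m y).open_target.mem_nhds ((ch m y).map_source hy),
    ((ch m y).tendsto_symm hy).eventually hf.eventually, h1.eventually_nhds] with w a1 a2 a3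
  have b1 : HMap (ch m y).symm w := (isCh_ch y).2 w a1
  have b2 : HMap (lc f y) w :=
    HMap.comp (f := f ∘ (ch m y).symm) ((isCh_ch (f y)).1 _ a3.self_of_nhds) (a2.comp b1)
  have b3 : HMap (ch n (f y)).symm (lc f y w) :=
    (isCh_ch (f y)).2 _ ((ch n (f y)).map_source a3.self_of_nhds)
  have b4 := pb_comp b3 b2 γ
  rw [← df_E]
  refine (pb_comp a2 b1 γ).trans (Eq.trans ?_ b4.symm)
  refine pb_congr (a3.mono fun w' hw' => ((ch n (f y)).left_inv hw').symm) rfl

theorem MF3_lc (f : Y → X) (y : Y) : lc f y (ch m y y) = ch n (f y) (f y) := by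
  simp only [lc, Function.comp_apply, (ch m y).left_inv (mem_chart_source (E m) y)]

theorem MF3_hol {f : Y → X} {y : Y} (hf : HMap f y) :
    ∀ᶠ w in 𝓝 (ch m y y), DifferentiableAt ℂ (lc f y) w :=
  ((ch m y).eventually_nhds _ (mem_chart_source (E m) y)).2 (hf.mono fun _ h => h.2)

theorem MF3_dbE {f : Y → X} {y : Y} (hf : HMap f y) {γ : Fm n X}
    (h : DifferentiableAt ℝ (rep (f y) γ) (ch n (f y) (f y))) :
    dbE (rep y (pb f γ)) (ch m y y) = lm (df f y) (dbE (rep (f y) γ) (ch n (f y) (f y))) := by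
  rw [dbE_congr (MF3_rep hf γ), dbE_pb (MF3_hol hf) (by rwa [MF3_lc]), MF3_lc]
  rfl

theorem MF3_dpE {f : Y → X} {y : Y} (hf : HMap f y) {γ : Fm n X}
    (h : DifferentiableAt ℝ (rep (f y) γ) (ch n (f y) (f y))) :
    dpE (rep y (pb f γ)) (ch m y y) = lm (df f y) (dpE (rep (f y) γ) (ch n (f y) (f y))) := by
  rw [dpE_congr (MF3_rep hf γ), dpE_pb (MF3_hol hf) (by rwa [MF3_lc]), MF3_lc]
  rfl

theorem MF3_diff (h : SmAt 1 α p) : DifferentiableAt ℝ (rep p α) (ch n p p) := by
  have := h.self_of_nhds.differentiableAt (by simp)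
  simpa only [Pi.one_apply, inv_one, one_smul] using this

theorem MF3_dd_fn (s : X → ℂ) (p : X) :
    dd (fn n s) p = io (fderiv ℝ (s ∘ (ch n p).symm) (ch n p p)) := by
  rw [← dE_fn, dd, rep, pb_fn]
  rfl

theorem MF3_inv {c : ℂ} (hc : c ≠ 0) {D D' : Λ n}
    (h : 0 = D * algebraMap ℂ (Λ n) c⁻¹ + gi (algebraMap ℂ (Λ n) c) * D') :
    D' = -(c ^ 2)⁻¹ • D := by
  rw [AlgHom.commutes, ← Algebra.commutes, ← Algebra.smul_def, ← Algebra.smul_def] at h
  have h2 := congrArg (fun x => c⁻¹ • x) (eq_neg_of_add_eq_zero_right h.symm)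
  simp only [smul_smul, inv_mul_cancel₀ hc, one_smul, smul_neg] at h2
  rw [h2, neg_smul, sq, mul_inv]

theorem MF3_one (h : ∀ᶠ y in 𝓝 p, s y ≠ 0) :
    (fn n s * fn n fun y => (s y)⁻¹) =ᶠ[𝓝 p] fn n fun _ => 1 := by
  filter_upwards [h] with y hy
  simp only [Pi.mul_apply, fn, ← map_mul, mul_inv_cancel₀ hy]

theorem pb_dbar {f : Y → X} {y : Y} (hf : HMap f y) (h : SmAt G α (f y)) :
    pb f (dbar G α) y = dbar (gpb f G) (pb f α) y := by
  have e : (fun y' => (gpb f G y y')⁻¹ • pb f α y') = pb f fun x => (G (f y) x)⁻¹ • α x :=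
    funext fun y' => (map_smul (lm (df f y')) _ _).symm
  rw [dbar, e, MF3_dbE hf (h.self_of_nhds.differentiableAt (by simp))]
  exact map_smul (lm (df f y)) _ _

theorem pb_dp {f : Y → X} {y : Y} (hf : HMap f y) (hG : GOk G (f y)) (h : SmAt G α (f y)) :
    pb f (dp G α) y = dp (gpb f G) (pb f α) y := by
  have e : (fun y' => conj (gpb f G y y') • pb f α y') = pb f fun x => conj (G (f y) x) • α x :=
    funext fun y' => (map_smul (lm (df f y')) _ _).symm
  have h1 := hG.sm.fsmul_one (smAt_iff_one.1 h)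
  have e2 : ((fun x => (normSq (G (f y) x) : ℂ)) • fun x => (G (f y) x)⁻¹ • α x) =
      fun x => conj (G (f y) x) • α x := by
    funext x
    rw [Pi.smul_apply', smul_smul, normSq_eq_conj_mul_self, mul_assoc]
    by_cases h0 : G (f y) x = 0
    · simp [h0]
    · rw [mul_inv_cancel₀ h0, mul_one]
  rw [e2] at h1
  rw [dp, e, MF3_dpE hf (MF3_diff h1)]
  exact map_smul (lm (df f y)) _ _

theorem pb_dd {f : Y → X} {y : Y} (hf : HMap f y) (h : SmAt 1 α (f y)) :
    pb f (dd α) y = dd (pb f α) y := by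
  rw [dd, dE, MF3_dpE hf (MF3_diff h), MF3_dbE hf (MF3_diff h)]
  exact map_add (lm (df f y)) _ _

theorem MF3_dbar (h : HolAt G s p) : dbar G (fn n s) p = 0 := by
  have e : (fun y => (G p y)⁻¹ • fn n s y) = fn n fun y => (G p y)⁻¹ * s y := by
    funext y
    rw [fn, fn, map_mul, Algebra.smul_def]
  rw [dbar, e, rep, pb_fn]
  refine smul_eq_zero_of_right _ ((dbE_fn _).trans (Finset.sum_eq_zero fun j _ => ?_))
  exact smul_eq_zero_of_left (pzb_of_differentiableAt h.self_of_nhds j) _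

theorem MF3_chart {e : OpenPartialHomeomorph X (E n)} (he : IsCh e) (hp : p ∈ e.source)
    (h : ∀ᶠ y in 𝓝 p, α y ∈ Tp n a 0) :
    HFm 1 α p ↔ ∀ᶠ z in 𝓝 (e p), DifferentiableAt ℂ (pb e.symm α) z := by
  have ht : ∀ᶠ z in 𝓝 (e p), z ∈ e.target := e.open_target.mem_nhds (e.map_source hp)
  constructor
  · intro h1
    have h2 : ∀ᶠ z in 𝓝 (e p), pb e.symm α z ∈ Tp n a 0 := by
      filter_upwards [ht, (e.tendsto_symm hp).eventually h] with z a1 a2
      exact pb_Tp (he.2 z a1) a2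
    filter_upwards [ht, h2.eventually_nhds, (smAt_chart he hp).1 h1.1,
      (e.tendsto_symm hp).eventually (h1.1.eventually gok_one),
      (e.tendsto_symm hp).eventually h1.2] with z a1 a2 a3 a4 a5
    refine differentiableAt_of_pzb (a3.differentiableAt (by simp)) ((dbE_eq_zero_iff a2).1 ?_)
    rw [← dbar_E, ← gpb_one (e.symm : E n → X), ← pb_dbar (he.2 z a1) a4, pb, a5, map_zero]
  · intro h1
    have h2 := h1.eventually_nhds.mono fun _ => contDiffAt_of_hol
    refine ⟨(smAt_chart he hp).2 h2, ?_⟩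
    filter_upwards [e.open_source.mem_nhds hp, (e.continuousAt hp).eventually h1,
      (e.continuousAt hp).eventually h2.eventually_nhds] with y a1 a2 a3
    have b1 : α =ᶠ[𝓝 y] pb e (pb e.symm α) := by
      filter_upwards [e.open_source.mem_nhds a1] with y' b
      exact (pb_chart he b α).symm
    rw [dbar_congr b1, ← gpb_one (e : X → E n), ← pb_dbar (he.1 y a1) (smAt_E.2 a3), pb, dbar_E,
      dbE, Finset.sum_eq_zero fun j _ => by rw [pzb_of_differentiableAt a2 j, mul_zero], map_zero]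

theorem HolAt.hfm (h : HolAt G s p) (hG : GOk G p) : HFm G (fn n s) p := by
  exact ⟨h.smAt, (h.eventually hG).mono fun _ => MF3_dbar⟩

theorem HolAt.dbar (h : HolAt G s p) : dbar G (fn n s) p = 0 := by
  exact MF3_dbar h

theorem HFm.holAt (h : HFm G (fn n s) p) (hG : GOk G p) : HolAt G s p := by
  have e : (fun y => (G p y)⁻¹ • fn n s y) = fn n fun y => (G p y)⁻¹ * s y := by
    funext y
    rw [fn, fn, map_mul, Algebra.smul_def]
  have h1 : HFm 1 (fn n fun y => (G p y)⁻¹ * s y) p := by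
    rw [← e]
    refine ⟨smAt_iff_one.1 h.1, ?_⟩
    filter_upwards [dbar_frame hG h.1, h.2, hG.ne] with y a1 a2 a3
    exact (smul_eq_zero_iff_right a3).1 (a1.symm.trans a2)
  have hp := mem_chart_source (E n) p
  have h2 := (MF3_chart (isCh_ch p) hp (Eventually.of_forall (fn_Ty _))).1 h1
  rw [pb_fn] at h2
  obtain ⟨L, hL⟩ := (Algebra.linearMap ℂ (Λ n)).exists_leftInverse_of_injective
    (LinearMap.ker_eq_bot.2 algebraMap_inj)
  refine holAt_iff_one.2 ((holAt_chart (isCh_ch p) hp).2 (h2.mono fun z hz => ?_))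
  have h3 := (LinearMap.toContinuousLinearMap L).differentiableAt.comp z hz
  have e2 : ∀ t : E n → ℂ, (LinearMap.toContinuousLinearMap L) ∘ fn n t = t := fun t =>
    funext fun w => LinearMap.congr_fun hL (t w)
  rwa [e2] at h3

theorem HFm.eventually (h : HFm G α p) (hG : GOk G p) : ∀ᶠ y in 𝓝 p, HFm G α y := by
  exact (h.1.eventually hG).and h.2.eventually_nhds

theorem HFm.gauge (h : HFm G α p) (hG : GOk G p) (e : ∀ᶠ y in 𝓝 p, G y =ᶠ[𝓝 y] G' y) :
    HFm G' α p := by
  refine ⟨h.1.gauge e.self_of_nhds, ?_⟩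
  filter_upwards [h.2, e] with y a1 a2
  rw [← dbar_gauge a2, a1]

theorem HFm.mul (h : HFm G α p) (h' : HFm G' β p) (hG : GOk G p) (hG' : GOk G' p) :
    HFm (G * G') (α * β) p := by
  refine ⟨h.1.mul h'.1, ?_⟩
  filter_upwards [h.2, h'.2, hG.eventually, hG'.eventually, h.1.eventually hG,
    h'.1.eventually hG'] with y a1 a2 a3 a4 a5 a6
  rw [dbar_mul a3 a4 a5 a6, a1, a2, zero_mul, mul_zero, add_zero]

theorem HFm.pb {f : Y → X} {y : Y} (hf : HMap f y) (hG : GOk G (f y)) (h : HFm G α (f y)) :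
    HFm (gpb f G) (pb f α) y := by
  refine ⟨h.1.pb hf, ?_⟩
  filter_upwards [hf.eventually, hf.continuousAt.eventually (h.1.eventually hG),
    hf.continuousAt.eventually h.2] with y' a1 a2 a3
  rw [← pb_dbar a1 a2, K0.pb, a3, map_zero]

/-- Forms of type `(a, 0)` are holomorphic iff their coefficients are. -/
theorem hfm_chart {e : OpenPartialHomeomorph X (E n)} (he : IsCh e) (hp : p ∈ e.source)
    (h : ∀ᶠ y in 𝓝 p, α y ∈ Tp n a 0) :
    HFm 1 α p ↔ ∀ᶠ z in 𝓝 (e p), DifferentiableAt ℂ (pb e.symm α) z := by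
  exact MF3_chart he hp h

theorem dd_coord {u : X → E m} (hu : HMap u p) (j : Fin m) :
    dd (fn n fun y => u y j) p = pb u (fun _ => dz j) p := by
  have h1 : HolAt 1 (fun z : E m => z j) (u p) :=
    holAt_E.2 (Eventually.of_forall fun w => differentiableAt_apply j w)
  have h2 := pb_dd hu h1.smAt
  rw [pb_fn] at h2
  refine h2.symm.trans (pb_congr EventuallyEq.rfl ?_)
  rw [dd_E]
  exact (dE_fn _).trans (congrArg io (vz j).fderiv)

theorem dd_of_hol (h : HolAt 1 s p) : dd (fn n s) p = dp 1 (fn n s) p := by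
  rw [dd_eq, Pi.add_apply, h.dbar, add_zero]

/-- The chain rule. -/
theorem dd_comp_fn (h : SmAt 1 (fn n s) p) {u : ℂ → ℂ} (hu : DifferentiableAt ℝ u (s p)) :
    dd (fn n (u ∘ s)) p =
      ((fderiv ℝ u (s p) 1 - I * fderiv ℝ u (s p) I) / 2) • dd (fn n s) p +
      ((fderiv ℝ u (s p) 1 + I * fderiv ℝ u (s p) I) / 2) • cj (dd (fn n s) p) := by
  have hp := mem_chart_source (E n) p
  have h1 := ((smAt_fn_chart (isCh_ch p) hp).1 h).self_of_nhds.differentiableAt (by simp)
  have e : (s ∘ (ch n p).symm) (ch n p p) = s p := congrArg s ((ch n p).left_inv hp)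
  rw [MF3_dd_fn, MF3_dd_fn, Function.comp_assoc, fderiv_comp _ (by rwa [e]) h1, e, cj_io,
    ← map_smul, ← map_smul, ← map_add]
  congr 1
  ext1 z
  simp only [ContinuousLinearMap.comp_apply, ContinuousLinearMap.add_apply,
    ContinuousLinearMap.smul_apply, vc_apply, smul_eq_mul]
  generalize fderiv ℝ (s ∘ (ch n p).symm) (ch n p p) z = w
  have h2 : w = w.re • (1 : ℂ) + w.im • I := by simp
  have h3 : conj w = w.re - w.im * I := by
    apply Complex.ext <;> simp
  have h4 : w = w.re + w.im * I := (re_add_im _).symm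
  conv_lhs => rw [h2]
  rw [map_add, map_smul, map_smul, h3, real_smul, real_smul]
  generalize (w.re : ℂ) = a at h4 ⊢
  generalize (w.im : ℂ) = b at h4 ⊢
  rw [h4]
  linear_combination (b * fderiv ℝ u (s p) I) * I_mul_I

theorem dp_fn_inv (hG : GOk G p) (h : SmAt G (fn n s) p) (h0 : s p ≠ 0) :
    dp G⁻¹ (fn n fun y => (s y)⁻¹) p = -((s p) ^ 2)⁻¹ • dp G (fn n s) p := by
  have h1 := dp_mul' hG.mul_inv hG hG.inv h (h.fn_inv hG h0)
  rw [dp_congr (MF3_one (h.fn_ne hG h0)), ← dd_of_hol (holAt_const 1), dd_const] at h1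
  exact MF3_inv h0 h1

theorem dbar_fn_inv (hG : GOk G p) (h : SmAt G (fn n s) p) (h0 : s p ≠ 0) :
    dbar G⁻¹ (fn n fun y => (s y)⁻¹) p = -((s p) ^ 2)⁻¹ • dbar G (fn n s) p := by
  have h1 := dbar_mul' hG.mul_inv hG hG.inv h (h.fn_inv hG h0)
  rw [dbar_congr (MF3_one (h.fn_ne hG h0)), (holAt_const 1).dbar] at h1
  exact MF3_inv h0 h1

/-- A function with vanishing differential is locally constant. -/
theorem eventually_const_of_dd (h : SmAt 1 (fn n s) p) (h0 : ∀ᶠ y in 𝓝 p, dd (fn n s) y = 0) :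
    ∀ᶠ y in 𝓝 p, s y = s p := by
  have hp := mem_chart_source (E n) p
  have h1 : ∀ᶠ z in 𝓝 (ch n p p), DifferentiableAt ℝ (s ∘ (ch n p).symm) z ∧
      fderiv ℝ (s ∘ (ch n p).symm) z = 0 := by
    filter_upwards [(ch n p).open_target.mem_nhds ((ch n p).map_source hp),
      (smAt_fn_chart (isCh_ch p) hp).1 h,
      ((ch n p).tendsto_symm hp).eventually (h.eventually gok_one),
      ((ch n p).tendsto_symm hp).eventually h0] with z a1 a2 a3 a4
    refine ⟨a2.differentiableAt (by simp), io_inj ?_⟩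
    have b1 := pb_dd ((isCh_ch p).2 z a1) a3
    rw [pb, a4, map_zero, pb_fn, dd_E] at b1
    rw [map_zero]
    exact (dE_fn _).symm.trans b1.symm
  obtain ⟨ε, hε, h2⟩ := Metric.eventually_nhds_iff_ball.1 h1
  filter_upwards [chart_source_mem_nhds (E n) p,
    ((ch n p).continuousAt hp).eventually (Metric.ball_mem_nhds _ hε)] with y a1 a2
  have := Metric.isOpen_ball.is_const_of_fderiv_eq_zero (convex_ball _ _).isPreconnected
    (fun z hz => (h2 z hz).1.differentiableWithinAt) (fun z hz => (h2 z hz).2) a2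
    (Metric.mem_ball_self hε)
  simpa only [Function.comp_apply, (ch n p).left_inv a1, (ch n p).left_inv hp] using this

end

end Pool.Agent.MP_1c689d_ag.K0

end

section

/-! Several complex variables. -/

set_option autoImplicit false

open Complex Filter Topology Set MeasureTheory
open scoped ComplexConjugate ContDiff ENNReal

namespace Pool.Agent.MP_1c689d_ag.K0

noncomputable section

variable {n m k : ℕ} {X Y : Type} [TopologicalSpace X] [TopologicalSpace Y] [Mf n X] [Mf m Y]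

theorem SCVa_line {W : Type} [NormedAddCommGroup W] [NormedSpace ℂ W] [CompleteSpace W]
    {f : E n → W} {B : Set (E n)} (hB : IsOpen B) (hf : DifferentiableOn ℂ f B) (z v : E n) :
    AnalyticOnNhd ℝ (fun t : ℝ => f (z + t • v)) {t : ℝ | z + t • v ∈ B} := by
  intro t ht
  have h1 : Differentiable ℂ fun s : ℂ => z + s • v := by fun_prop
  have h2 : DifferentiableOn ℂ (fun s : ℂ => f (z + s • v)) {s : ℂ | z + s • v ∈ B} :=
    hf.comp h1.differentiableOn fun s hs => hs
  have h3 : AnalyticAt ℂ (fun s : ℂ => f (z + s • v)) (ofRealCLM t) :=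
    h2.analyticAt ((hB.preimage h1.continuous).mem_nhds ht)
  exact h3.restrictScalars.comp (ofRealCLM.analyticAt t)

theorem SCVa_conv {B : Set (E n)} (hB : Convex ℝ B) (z v : E n) :
    IsPreconnected {t : ℝ | z + t • v ∈ B} :=
  ((hB.translate_preimage_right z).linear_preimage
    (LinearMap.toSpanSingleton ℝ (E n) v)).isPreconnected

theorem SCVa_ball {W : Type} [NormedAddCommGroup W] [NormedSpace ℂ W] [CompleteSpace W]
    {f : E n → W} {B : Set (E n)} (hB : IsOpen B) (hc : Convex ℝ B)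
    (hf : DifferentiableOn ℂ f B) {z : E n} (hz : z ∈ B) (h0 : ∀ᶠ w in 𝓝 z, f w = 0) :
    EqOn f 0 B := by
  intro w hw
  have h1 : Tendsto (fun t : ℝ => z + t • (w - z)) (𝓝 0) (𝓝 z) :=
    Continuous.tendsto' (by fun_prop) _ _ (by simp)
  have h2 := (SCVa_line hB hf z (w - z)).eqOn_zero_of_preconnected_of_eventuallyEq_zero
    (SCVa_conv hc z (w - z)) (z₀ := 0) (by simpa using hz) (h1.eventually h0)
    (show (1 : ℝ) ∈ _ by simpa using hw)
  simpa using h2

theorem SCVa_null {f : E n → ℂ} {B : Set (E n)} (hB : IsOpen B) (hc : Convex ℝ B)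
    (hf : DifferentiableOn ℂ f B) {z : E n} (hz : z ∈ B) (h0 : f z ≠ 0) :
    volume {w ∈ B | f w = 0} = 0 := by
  have hm : MeasurableSet {w ∈ B | f w = 0} := by
    have h1 : {w ∈ B | f w = 0} = B \ (B ∩ f ⁻¹' {0}ᶜ) := by
      ext w
      simp only [mem_ofPred_eq, Set.mem_sdiff, mem_inter_iff, mem_preimage,
        mem_compl_iff, mem_singleton_iff]
      tauto
    rw [h1]
    exact hB.measurableSet.diff
      (hf.continuousOn.isOpen_inter_preimage hB isOpen_compl_singleton).measurableSet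
  have h1 : ∀ v : E n, ∀ᵐ t : ℝ, z + t • v ∉ {w ∈ B | f w = 0} := fun v => by
    have h2 : MeasurableSet {t : ℝ | z + t • v ∈ B} :=
      (hB.preimage (by fun_prop : Continuous fun t : ℝ => z + t • v)).measurableSet
    rcases (SCVa_line hB hf z v).eqOn_zero_or_eventually_ne_zero_of_preconnected
      (SCVa_conv hc z v) with h3 | h3
    · exact absurd (by simpa using h3 (show (0 : ℝ) ∈ _ by simpa using hz)) h0
    · filter_upwards [(ae_restrict_iff' h2).1 (ae_restrict_le_codiscreteWithin h2 h3)] with t ht h4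
      exact ht h4.1 h4.2
  have h2 := (Measure.ae_ae_comm (μ := (volume : Measure ℝ)) (ν := (volume : Measure (E n)))
    (p := fun t v => z + t • v ∉ {w ∈ B | f w = 0})
    (hm.compl.preimage (by fun_prop : Continuous fun q : ℝ × E n => z + q.1 • q.2).measurable)).2
    (Eventually.of_forall h1)
  obtain ⟨t, h3, h4⟩ := (h2.and ((countable_singleton (0 : ℝ)).ae_notMem volume)).exists
  have h5 : volume ((t • ·) ⁻¹' ((z + ·) ⁻¹' {w ∈ B | f w = 0})) = 0 := compl_mem_ae_iff.1 h3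
  rw [Measure.addHaar_preimage_smul _ h4, measure_preimage_add, mul_eq_zero] at h5
  refine h5.resolve_left (ENNReal.ofReal_pos.2 ?_).ne'
  exact abs_pos.2 (inv_ne_zero (pow_ne_zero _ h4))

/-- Identity theorem: restrict to complex lines. -/
theorem eqOn_zero_of_hol {W : Type} [NormedAddCommGroup W] [NormedSpace ℂ W] [CompleteSpace W]
    {f : E n → W} {U : Set (E n)} (hU : IsOpen U) (hc : IsPreconnected U)
    (hf : DifferentiableOn ℂ f U) {z : E n} (hz : z ∈ U) (h0 : ∀ᶠ w in 𝓝 z, f w = 0) :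
    EqOn f 0 U := by
  have h1 : U ⊆ {z | ∀ᶠ w in 𝓝 z, f w = 0} := by
    refine hc.subset_of_closure_inter_subset isOpen_setOfPred_eventually_nhds ⟨z, hz, h0⟩ ?_
    rintro q ⟨h2, h3⟩
    obtain ⟨r, hr, h4⟩ := Metric.isOpen_iff.1 hU q h3
    obtain ⟨y, h5, h6⟩ := mem_closure_iff_nhds.1 h2 _ (Metric.ball_mem_nhds q hr)
    exact mem_of_superset (Metric.ball_mem_nhds q hr)
      (SCVa_ball Metric.isOpen_ball (convex_ball q r) (hf.mono h4) h5 h6)
  exact fun w hw => (h1 hw).self_of_nhds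

/-- The zero set of a holomorphic function that is not zero is a null set (induction on `n` and
Fubini on polydiscs, or slices by lines in a fixed good direction). -/
theorem null_zero_of_hol {f : E n → ℂ} {U : Set (E n)} (hU : IsOpen U) (hc : IsPreconnected U)
    (hf : DifferentiableOn ℂ f U) {z : E n} (hz : z ∈ U) (h0 : f z ≠ 0) :
    volume {w ∈ U | f w = 0} = 0 := by
  refine measure_null_of_locally_null _ fun q hq => ?_
  obtain ⟨r, hr, h4⟩ := Metric.isOpen_iff.1 hU q hq.1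
  obtain ⟨y, h5, h6⟩ : ∃ y ∈ Metric.ball q r, f y ≠ 0 := by
    by_contra h
    push Not at h
    exact h0 (eqOn_zero_of_hol hU hc hf hq.1 (mem_of_superset (Metric.ball_mem_nhds q hr) h) hz)
  refine ⟨_, ?_, SCVa_null Metric.isOpen_ball (convex_ball q r) (hf.mono h4) h5 h6⟩
  filter_upwards [self_mem_nhdsWithin, mem_nhdsWithin_of_mem_nhds (Metric.ball_mem_nhds q hr)]
    with w h7 h8
  exact ⟨h8, h7.2⟩

theorem null_zero_poly {f : MvPolynomial (Fin n) ℂ} (hf : f ≠ 0) :
    volume {w : E n | MvPolynomial.eval w f = 0} = 0 := by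
  obtain ⟨z, hz⟩ : ∃ z : E n, MvPolynomial.eval z f ≠ 0 := by
    by_contra h
    push Not at h
    exact hf (MvPolynomial.funext fun x => by rw [h, map_zero])
  simpa using SCVa_null isOpen_univ convex_univ
    (AnalyticOnNhd.eval_mvPolynomial f).differentiableOn (mem_univ z) hz

/-- The identity theorem on a manifold. -/
theorem hfm_zero_clopen {G : Ga X} {α : Fm n X} {a : ℕ} {O : Set X} (hc : IsPreconnected O)
    (hG : ∀ p ∈ O, GOk G p) (hα : ∀ p ∈ O, HFm G α p) (ht : Ty a 0 α) {p : X} (hp : p ∈ O)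
    (h0 : ∀ᶠ y in 𝓝 p, α y = 0) : ∀ y ∈ O, α y = 0 := by
  have h1 : O ⊆ {z | ∀ᶠ w in 𝓝 z, α w = 0} := by
    refine hc.subset_of_closure_inter_subset isOpen_setOfPred_eventually_nhds ⟨p, hp, h0⟩ ?_
    rintro q ⟨h2, h3⟩
    have hβ : HFm 1 (fun y => (G q y)⁻¹ • α y) q := by
      refine ⟨smAt_iff_one.1 (hα q h3).1, ?_⟩
      filter_upwards [dbar_frame (hG q h3) (hα q h3).1, (hG q h3).ne, (hα q h3).2] with y a1 a2 a3
      exact (smul_eq_zero.1 (a1.symm.trans a3)).resolve_left a2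
    have hq : q ∈ (ch n q).source := mem_chart_source _ q
    obtain ⟨r, hr, h4⟩ := Metric.eventually_nhds_iff_ball.1 ((hfm_chart (isCh_ch q) hq
      (Eventually.of_forall fun y => Submodule.smul_mem _ _ (ht y))).1 hβ)
    have hN : ∀ᶠ y in 𝓝 q, y ∈ (ch n q).source ∧ ch n q y ∈ Metric.ball (ch n q q) r :=
      Eventually.and (chart_source_mem_nhds _ q)
        (((ch n q).continuousAt hq).eventually_mem (Metric.ball_mem_nhds _ hr))
    obtain ⟨y, h5, h6⟩ := mem_closure_iff_nhds.1 h2 _ hN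
    have h7 := SCVa_ball Metric.isOpen_ball (convex_ball _ r)
      (fun z hz => (h4 z hz).differentiableWithinAt) h5.2 (by
        filter_upwards [((ch n q).tendsto_symm h5.1).eventually h6] with z hz
        simp only [pb, hz, smul_zero, map_zero])
    filter_upwards [hN, (hG q h3).ne] with w a1 a2
    have a3 := pb_chart (isCh_ch q) a1.1 fun y => (G q y)⁻¹ • α y
    rw [pb, h7 a1.2, Pi.zero_apply, map_zero] at a3
    exact (smul_eq_zero.1 a3.symm).resolve_left (inv_ne_zero a2)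
  exact fun w hw => (h1 hw).self_of_nhds

end

end Pool.Agent.MP_1c689d_ag.K0

end
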