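import Pool.Agent.Mg.F1c689d.G250ab3
import Pool.Agent.Mg.F1c689d.G71e32b
import Pool.Agent.Mg.F1c689d.G99c6f5
import Pool.Agent.Mg.F1c689d.Gbeb1d0
import Pool.Agent.MP_1c689d_ag.K0.Stmt
import Pool.Agent.Mg.F1c689d.G8d4c98
import Pool.Agent.Mg.F1c689d.G398e35
import Pool.Agent.Mg.F1c689d.G8ed24b
import Pool.Agent.Mg.F1c689d.Gf5c905
import Mathlib

set_option linter.all false


section

/-! Polynomials in the coordinates of a projective map. -/

set_option autoImplicit false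

open Complex Filter Topology Set MeasureTheory MvPolynomial
open scoped ComplexConjugate ContDiff ENNReal

namespace Pool.Agent.MP_1c689d_ag.K0

noncomputable section

variable {n N : ℕ} {X : Type} [TopologicalSpace X] [Mf n X] {x : X → Fin N → ℂ} {p : X}

/-- The value of a polynomial at the unit lift. -/
def ev (x : X → Fin N → ℂ) (f : P N) : X → ℂ := fun y => eval (x y) f

/-- The derivation with values `g`, applied to `h`. -/
def gv (x : X → Fin N → ℂ) (g : Fin N → Fm n X) (h : P N) : Fm n X :=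
  fun y => ∑ l, eval (x y) (pderiv l h) • g l y

theorem PMPa_gi (c : ℂ) (a : Λ n) : gi (algebraMap ℂ (Λ n) c) * a = c • a := by
  rw [AlgHom.commutes, ← Algebra.smul_def]

theorem PMPa_mul (c : ℂ) (a : Λ n) : a * algebraMap ℂ (Λ n) c = c • a := by
  rw [← Algebra.commutes, ← Algebra.smul_def]

theorem PMPa_nat (h : PMAt x p) (i : ℕ) : ∀ f : P N, f.IsHomogeneous i →
    HolAt (gx x ^ (i : ℤ)) (ev x f) p ∧
      dp (gx x ^ (i : ℤ)) (fn n (ev x f)) p = gv x (Dx x) f p := by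
  induction i with
  | zero =>
    intro f hf
    obtain ⟨t, rfl⟩ : ∃ t, f = C t :=
      ⟨_, totalDegree_eq_zero_iff_eq_C.1 ((totalDegree_zero_iff_isHomogeneous _).2 hf)⟩
    have e : ev x (C t) = fun _ => t := funext fun y => eval_C t
    rw [e, Nat.cast_zero, zpow_zero]
    refine ⟨holAt_const t, ?_⟩
    rw [← dd_of_hol (holAt_const t), dd_const]
    simp [gv]
  | succ i ih =>
    intro f hf
    have hG := h.gok
    have hc : ((i + 1 : ℕ) : ℂ) ≠ 0 := Nat.cast_ne_zero.2 i.succ_ne_zero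
    obtain ⟨g, hg, rfl⟩ : ∃ g : Fin N → P N, (∀ l, (g l).IsHomogeneous i) ∧
        f = ∑ l, MvPolynomial.X l * g l := by
      refine ⟨fun l => C ((i + 1 : ℕ) : ℂ)⁻¹ * pderiv l f, fun l => ?_, ?_⟩
      · simpa using (hf.pderiv (i := l)).C_mul _
      · simp only [mul_left_comm _ (C _), ← Finset.mul_sum, hf.sum_X_mul_pderiv]
        rw [nsmul_eq_mul, ← map_natCast (C : ℂ →+* P N), ← mul_assoc, ← map_mul,
          inv_mul_cancel₀ hc, map_one, one_mul]
    have eg : (gx x * gx x ^ (i : ℤ)) p =ᶠ[𝓝 p] (gx x ^ ((i + 1 : ℕ) : ℤ)) p := by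
      have := hG.zpow_add 1 i
      rwa [zpow_one, add_comm, ← Nat.cast_succ] at this
    have h1 : ∀ l, HolAt (gx x ^ ((i + 1 : ℕ) : ℤ)) ((fun y => x y l) * ev x (g l)) p :=
      fun l => ((h.holAt l).mul (ih _ (hg l)).1).gauge eg
    have e1 : ev x (∑ l, MvPolynomial.X l * g l) = ∑ l, (fun y => x y l) * ev x (g l) := by
      funext y
      simp [ev]
    have e2 : ∀ l, fn n ((fun y => x y l) * ev x (g l)) = fn n (fun y => x y l) * fn n (ev x (g l)) :=
      fun l => funext fun y => map_mul _ _ _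
    have e3 : fn n (∑ l, (fun y => x y l) * ev x (g l))
        = ∑ l, fn n ((fun y => x y l) * ev x (g l)) := by
      funext y
      simp [fn]
    rw [e1]
    refine ⟨HolAt.sum fun l _ => h1 l, ?_⟩
    rw [e3, dp_sum (hG.zpow _) fun l _ => (h1 l).smAt]
    have e4 : ∀ l, dp (gx x ^ ((i + 1 : ℕ) : ℤ)) (fn n ((fun y => x y l) * ev x (g l))) p
        = eval (x p) (g l) • Dx x l p + x p l • gv x (Dx x) (g l) p := by
      intro l
      rw [e2, dp_mul' eg hG (hG.zpow _) (h.holAt l).smAt (ih _ (hg l)).1.smAt, (ih _ (hg l)).2]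
      exact congrArg₂ _ (PMPa_mul _ _) (PMPa_gi _ _)
    simp only [e4, gv, map_sum, Derivation.leibniz, smul_eq_mul, map_add, map_mul, eval_X,
      Finset.sum_smul, add_smul, Finset.smul_sum, Finset.sum_add_distrib, mul_smul]
    rw [add_comm, Finset.sum_comm]
    congr 1
    rw [Finset.sum_comm]
    refine Finset.sum_congr rfl fun l _ => ?_
    rw [← Finset.smul_sum]
    congr 1
    simp [pderiv_X, Pi.single_apply, apply_ite (eval (x p))]

theorem PMPa_int (h : PMAt x p) {f : P N} {i : ℤ} (hf : f ∈ hz N i) :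
    HolAt (gx x ^ i) (ev x f) p ∧ dp (gx x ^ i) (fn n (ev x f)) p = gv x (Dx x) f p := by
  rcases AFB_cases hf with rfl | ⟨k, rfl, hk⟩
  · have e : ev x (0 : P N) = fun _ => 0 := funext fun y => map_zero _
    have e' : fn n (fun _ : X => (0 : ℂ)) = 0 := funext fun y => map_zero _
    rw [e, e', dp_zero]
    exact ⟨holAt_zero, by simp [gv]⟩
  · exact PMPa_nat h k f hk

theorem PMAt.gok_zpow (h : PMAt x p) (i : ℤ) : GOk (gx x ^ i) p := by
  exact h.gok.zpow i

theorem PMAt.gz_add (h : PMAt x p) {i j l : ℤ} (e : i + j = l) :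
    (gx x ^ i * gx x ^ j) p =ᶠ[𝓝 p] (gx x ^ l) p := by
  subst e
  exact h.gok.zpow_add i j

theorem PMAt.gz_neg (h : PMAt x p) (i : ℤ) : (gx x ^ i)⁻¹ = gx x ^ (-i) := by
  exact (zpow_neg _ _).symm

theorem PMAt.cur_zpow (h : PMAt x p) (i : ℤ) :
    (cur (gx x ^ i) p : Λ n) = (i : ℂ) • Th x p := by
  exact K0.cur_zpow h.gok i

theorem PMAt.holAt_ev (h : PMAt x p) {f : P N} {i : ℤ} (hf : f ∈ hz N i) :
    HolAt (gx x ^ i) (ev x f) p := by
  exact (PMPa_int h hf).1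

theorem PMAt.holAt_ev' (h : PMAt x p) {f : P N} {i : ℕ} (hf : f.IsHomogeneous i) :
    HolAt (gx x ^ (i : ℤ)) (ev x f) p := by
  exact (PMPa_nat h i f hf).1

theorem pderiv_hz {f : P N} {i : ℤ} (hf : f ∈ hz N i) (l : Fin N) :
    pderiv l f ∈ hz N (i - 1) := by
  rcases AFB_cases hf with rfl | ⟨k, rfl, hk⟩
  · rw [map_zero]
    exact zero_mem _
  · rcases k with _ | k
    · obtain ⟨t, rfl⟩ : ∃ t, f = C t :=
        ⟨_, totalDegree_eq_zero_iff_eq_C.1 ((totalDegree_zero_iff_isHomogeneous _).2 hk)⟩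
      rw [pderiv_C]
      exact zero_mem _
    · rw [Nat.cast_succ, add_sub_cancel_right, mem_hz_nat]
      simpa using hk.pderiv (i := l)

theorem euler_eval {f : P N} {i : ℕ} (hf : f.IsHomogeneous i) (v : Fin N → ℂ) :
    ∑ l, eval v (pderiv l f) * v l = i * eval v f := by
  have := congrArg (eval v) hf.sum_X_mul_pderiv
  simpa [mul_comm] using this

/-- The chain rule. -/
theorem PMAt.dp_ev (h : PMAt x p) {f : P N} {i : ℤ} (hf : f ∈ hz N i) :
    dp (gx x ^ i) (fn n (ev x f)) p = gv x (Dx x) f p := by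
  exact (PMPa_int h hf).2

theorem PMAt.gv_Dx_zero (h : PMAt x p) {f : P N} {i : ℤ} (hf : f ∈ hz N i)
    (h0 : ∀ᶠ y in 𝓝 p, eval (x y) f = 0) : (gv x (Dx x) f p : Λ n) = 0 := by
  rw [← h.dp_ev hf, dp_congr (β := 0) (h0.mono fun y hy => ?_), dp_zero]
  · rfl
  · exact (congrArg (algebraMap ℂ (Λ n)) hy).trans (map_zero _)

end

end Pool.Agent.MP_1c689d_ag.K0

end

section

/-! Polynomials in the coordinates of a projective map. -/

set_option autoImplicit false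

open Complex Filter Topology Set MeasureTheory MvPolynomial
open scoped ComplexConjugate ContDiff ENNReal

namespace Pool.Agent.MP_1c689d_ag.K0

noncomputable section

variable {n N : ℕ} {X : Type} [TopologicalSpace X] [Mf n X] {x : X → Fin N → ℂ} {p : X}

theorem PMPb_gv (g : Fin N → Fm n X) (f : P N) : gv x g f = ∑ a, ev x (pderiv a f) • g a := by
  funext y
  rw [Finset.sum_apply]
  rfl

theorem PMPb_gi (c : ℂ) (A : Λ n) : gi (algebraMap ℂ (Λ n) c) * A = c • A := by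
  rw [AlgHomClass.commutes, Algebra.smul_def]

theorem PMPb_sm (h : PMAt x p) {f : P N} {i j l : ℤ} (hf : f ∈ hz N i) {α : Fm n X}
    (hα : SmAt (gx x ^ j) α p) (e : i + j = l) : SmAt (gx x ^ l) (ev x f • α) p :=
  ((h.holAt_ev hf).smAt.fsmul hα).gauge (h.gz_add e)

theorem PMPb_dbar (h : PMAt x p) {f : P N} {i j l : ℤ} (hf : f ∈ hz N i) {α : Fm n X}
    (hα : SmAt (gx x ^ j) α p) (e : i + j = l) :
    dbar (gx x ^ l) (ev x f • α) p = ev x f p • dbar (gx x ^ j) α p := by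
  rw [← fn_mul, dbar_mul' (h.gz_add e) (h.gok_zpow i) (h.gok_zpow j) (h.holAt_ev hf).smAt hα,
    (h.holAt_ev hf).dbar, zero_mul, zero_add]
  exact PMPb_gi _ _

theorem PMAt.gv_sm (h : PMAt x p) {f : P N} {i j l : ℤ} (hf : f ∈ hz N i) {g : Fin N → Fm n X}
    (hg : ∀ a, SmAt (gx x ^ j) (g a) p) (e : i - 1 + j = l) : SmAt (gx x ^ l) (gv x g f) p := by
  rw [PMPb_gv]
  exact SmAt.sum fun a _ => PMPb_sm h (pderiv_hz hf a) (hg a) e

theorem PMAt.dbar_gv (h : PMAt x p) {f : P N} {i j l : ℤ} (hf : f ∈ hz N i) {g : Fin N → Fm n X}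
    (hg : ∀ a, SmAt (gx x ^ j) (g a) p) (e : i - 1 + j = l) :
    dbar (gx x ^ l) (gv x g f) p = gv x (fun a => dbar (gx x ^ j) (g a)) f p := by
  rw [PMPb_gv, dbar_sum fun a _ => PMPb_sm h (pderiv_hz hf a) (hg a) e]
  exact Finset.sum_congr rfl fun a _ => PMPb_dbar h (pderiv_hz hf a) (hg a) e

theorem PMAt.ev_smul_sm (h : PMAt x p) {f : P N} {i j l : ℤ} (hf : f ∈ hz N i) {α : Fm n X}
    (hα : SmAt (gx x ^ j) α p) (e : i + j = l) : SmAt (gx x ^ l) (ev x f • α) p :=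
  PMPb_sm h hf hα e

theorem PMAt.dbar_ev_smul (h : PMAt x p) {f : P N} {i j l : ℤ} (hf : f ∈ hz N i) {α : Fm n X}
    (hα : SmAt (gx x ^ j) α p) (e : i + j = l) :
    dbar (gx x ^ l) (ev x f • α) p = ev x f p • dbar (gx x ^ j) α p :=
  PMPb_dbar h hf hα e

theorem PMAt.dp_ev_smul (h : PMAt x p) {f : P N} {i j l : ℤ} (hf : f ∈ hz N i) {α : Fm n X}
    (hα : SmAt (gx x ^ j) α p) (e : i + j = l) : dp (gx x ^ l) (ev x f • α) p =
      gv x (Dx x) f p * α p + ev x f p • dp (gx x ^ j) α p := by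
  rw [← fn_mul, dp_mul' (h.gz_add e) (h.gok_zpow i) (h.gok_zpow j) (h.holAt_ev hf).smAt hα,
    h.dp_ev hf]
  exact congrArg _ (PMPb_gi _ _)

end

end Pool.Agent.MP_1c689d_ag.K0

end

section

/-! Polynomials in the coordinates of a projective map. -/

set_option autoImplicit false

open Complex Filter Topology Set MeasureTheory MvPolynomial
open scoped ComplexConjugate ContDiff ENNReal

namespace Pool.Agent.MP_1c689d_ag.K0

noncomputable section

variable {n N : ℕ} {X : Type} [TopologicalSpace X] [Mf n X] {x : X → Fin N → ℂ} {p : X}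

/-- The exponents of degree `i`. -/
abbrev PMP_S (N i : ℕ) : Finset (Fin N →₀ ℕ) := Finset.finsuppAntidiag Finset.univ i

theorem PMP_mem {i : ℕ} {a : Fin N →₀ ℕ} : a ∈ PMP_S N i ↔ a.degree = i := by
  simp [Finsupp.degree_eq_sum]

theorem PMP_hom {i : ℕ} {a : Fin N →₀ ℕ} (h : a ∈ PMP_S N i) :
    (monomial a 1 : P N).IsHomogeneous i :=
  isHomogeneous_monomial 1 (PMP_mem.1 h)

theorem PMP_sum {i : ℕ} {f : P N} (hf : ∀ a, a ∉ PMP_S N i → coeff a f = 0) :
    f = ∑ a ∈ PMP_S N i, coeff a f • monomial a 1 := by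
  conv_lhs => rw [f.as_sum]
  simp only [smul_monomial, smul_eq_mul, mul_one]
  exact Finset.sum_subset (fun a ha => by_contra fun e => mem_support_iff.1 ha (hf a e))
    fun a _ ha => by rw [notMem_support_iff.1 ha, monomial_zero]

theorem PMP_zero {i : ℕ} {f : P N} (hf : f.IsHomogeneous i) (a : Fin N →₀ ℕ)
    (h : a ∉ PMP_S N i) : coeff a f = 0 :=
  hf.coeff_eq_zero fun e => h (PMP_mem.2 e)

theorem PMP_eval {i : ℕ} {f : P N} (hf : ∀ a, a ∉ PMP_S N i → coeff a f = 0) (v : Fin N → ℂ) :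
    eval v f = ∑ a ∈ PMP_S N i, coeff a f * eval v (monomial a 1) := by
  conv_lhs => rw [PMP_sum hf, map_sum]
  simp only [smul_eval]

omit [TopologicalSpace X] [Mf n X] in
theorem PMP_gv {i : ℕ} {f : P N} (hf : f.IsHomogeneous i) (g : Fin N → Fm n X) :
    gv x g f p = ∑ a ∈ PMP_S N i, coeff a f • gv x g (monomial a 1) p := by
  conv_lhs => rw [PMP_sum (PMP_zero hf)]
  simp only [gv, map_sum, Derivation.map_smul, smul_eval, Finset.sum_smul, Finset.smul_sum,
    mul_smul]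
  exact Finset.sum_comm

theorem PMP_cont (h : ∀ p, PMAt (n := n) x p) {f : P N} {i : ℕ} (hf : f.IsHomogeneous i) :
    Continuous fun p => ‖ev x f p‖ :=
  continuous_iff_continuousAt.2 fun p => (continuous_re.continuousAt.comp
    (((h p).holAt_ev' hf).smAt.normSq ((h p).gok_zpow i)).continuousAt).sqrt

theorem isClosed_ev (h : ∀ p, PMAt (n := n) x p) {f : P N} {i : ℕ} (hf : f.IsHomogeneous i) :
    IsClosed {p | ev x f p = 0} := by
  simpa using isClosed_eq (PMP_cont h hf) (continuous_const (y := 0))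

theorem continuous_norm_ev (h : ∀ p, PMAt (n := n) x p) {f : P N} {i : ℕ}
    (hf : f.IsHomogeneous i) : Continuous fun p => ‖ev x f p‖ := by
  exact PMP_cont h hf

theorem isOpen_off {k c r : ℕ} (Q : PD N k c r) (Pts : Finset (Fin k → ℂ))
    (h : ∀ p, PMAt (n := n) x p) (hc : ∀ p, Q.OnC (x p)) : IsOpen {p | Q.Off Pts (x p)} := by
  have e : {p | Q.Off Pts (x p)} = ⋂ u ∈ Pts, {p | ∃ t : ℂ, (fun i => x p (Q.yi i)) = t • u}ᶜ := by
    ext p
    simp [PD.Off]
  rw [e]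
  refine isOpen_biInter_finset fun u _ => IsClosed.isOpen_compl (self := ?_)
  by_cases hu : u = 0
  · have := isClosed_iInter fun i => isClosed_ev h (isHomogeneous_X ℂ (Q.yi i))
    refine (congrArg IsClosed ?_).mpr this
    ext p
    simp [hu, ev, funext_iff]
  · obtain ⟨j, hj⟩ := Function.ne_iff.1 hu
    have := isClosed_iInter fun i => isClosed_ev h
      ((isHomogeneous_C_mul_X (u j) (Q.yi i)).sub (isHomogeneous_C_mul_X (u i) (Q.yi j)))
    refine (congrArg IsClosed ?_).mpr this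
    ext p
    simp only [ev, funext_iff, mem_ofPred_eq, mem_iInter, map_sub, map_mul, eval_C, eval_X,
      Pi.smul_apply, smul_eq_mul]
    refine ⟨fun ⟨t, ht⟩ i => by rw [ht, ht]; ring, fun k => ⟨x p (Q.yi j) / u j, fun i => ?_⟩⟩
    rw [div_mul_eq_mul_div, eq_div_iff hj]
    linear_combination k i

/-- Families of polynomials with holomorphic coefficients. -/
theorem PMAt.holAt_fam (h : PMAt x p) {σ : X → P N} {i : ℕ} (hσ : ∀ y, (σ y).IsHomogeneous i)
    (hc : ∀ a, HolAt 1 (fun y => coeff a (σ y)) p) :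
    HolAt (gx x ^ (i : ℤ)) (fun y => eval (x y) (σ y)) p := by
  refine (HolAt.sum (S := PMP_S N i) fun a ha => one_mul (gx x ^ (i : ℤ)) ▸
    (hc a).mul (h.holAt_ev' (PMP_hom ha))).congr (Eventually.of_forall fun y => ?_)
  simp only [Finset.sum_apply, Pi.mul_apply, ev, PMP_eval (PMP_zero (hσ y))]

theorem PMAt.dp_fam (h : PMAt x p) {σ : X → P N} {i : ℕ} (hσ : ∀ y, (σ y).IsHomogeneous i)
    (hc : ∀ a, HolAt 1 (fun y => coeff a (σ y)) p) {β : P N} {ϑ : Λ n}
    (hβ : ∀ a, dd (fn n fun y => coeff a (σ y)) p = coeff a β • ϑ) :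
    dp (gx x ^ (i : ℤ)) (fn n fun y => eval (x y) (σ y)) p =
      gv x (Dx x) (σ p) p + eval (x p) β • ϑ := by
  have hG := h.gok_zpow i
  have h1 : ∀ a ∈ PMP_S N i, SmAt (gx x ^ (i : ℤ)) (fn n (ev x (monomial a 1))) p :=
    fun a ha => (h.holAt_ev' (PMP_hom ha)).smAt
  have e : (fn n fun y => eval (x y) (σ y)) = ∑ a ∈ PMP_S N i,
      (fn n fun y => coeff a (σ y)) * fn n (ev x (monomial a 1)) := by
    funext y
    simp only [Finset.sum_apply, Pi.mul_apply, ev, fn, PMP_eval (PMP_zero (hσ y)), map_sum, map_mul]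
  have e2 : eval (x p) β • ϑ = ∑ a ∈ PMP_S N i, (coeff a β * eval (x p) (monomial a 1)) • ϑ := by
    by_cases h0 : ϑ = 0
    · simp [h0]
    rw [← Finset.sum_smul, ← PMP_eval fun a ha => (smul_eq_zero.1 ?_).resolve_right h0]
    rw [← hβ, funext fun y => PMP_zero (hσ y) a ha, dd_const, Pi.zero_apply]
  rw [e, dp_sum hG fun a ha => (hc a).smAt.mul_left (h1 a ha), PMP_gv (hσ p), e2,
    ← Finset.sum_add_distrib]
  refine Finset.sum_congr rfl fun a ha => ?_
  rw [dp_mul' (by rw [one_mul]) gok_one hG (hc a).smAt (h1 a ha), ← dd_of_hol (hc a), hβ,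
    h.dp_ev (mem_hz_nat.2 (PMP_hom ha)), fn, fn, AlgHom.commutes, ← Algebra.commutes,
    ← Algebra.smul_def, ← Algebra.smul_def, add_comm, smul_smul, mul_comm, ev]

end

end Pool.Agent.MP_1c689d_ag.K0

end

section

/-! The tangent space of the cone: pointwise linear algebra. -/

set_option autoImplicit false

open Complex Filter Topology Set MeasureTheory MvPolynomial
open scoped ComplexConjugate ContDiff ENNReal

namespace Pool.Agent.MP_1c689d_ag.K0

noncomputable section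

variable {n m c r : ℕ} {X : Type} [TopologicalSpace X] [Mf n X]

/-- The compact manifold `X` is mapped by `x` to the projective variety of `Q`, isomorphically off
the fibres over `Pts`. -/
structure FD (Q : PD m (n + 1) c r) (Pts : Finset (Fin (n + 1) → ℂ)) (x : X → Fin m → ℂ) :
    Prop where
  cpt : CompactSpace X
  pm : ∀ p, PMAt x p
  onc : ∀ p, Q.OnC (x p)
  sm0 : Q.Sm0 Pts
  imm : ∀ p, Q.Off Pts (x p) → Imm x p
  inj : ∀ p p', Q.Off Pts (x p) → (∃ t : ℂ, x p' = t • x p) → p' = p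
  surj : ∀ v, Q.OnC v → Q.Off Pts v → ∃ p, ∃ t : ℂ, x p = t • v

/-- The open set where `x` is an isomorphism. -/
def PD.O {k : ℕ} (Q : PD m k c r) (Pts : Finset (Fin k → ℂ)) (x : X → Fin m → ℂ) : Set X :=
  {p | Q.Off Pts (x p)}

variable {Q : PD m (n + 1) c r} {Pts : Finset (Fin (n + 1) → ℂ)} {x : X → Fin m → ℂ}

theorem FD.isOpen_O (h : FD Q Pts x) : IsOpen (Q.O Pts x) := by
  exact isOpen_off Q Pts h.pm h.onc

omit [TopologicalSpace X] [Mf n X] in
theorem PD.O_empty : Q.O ∅ x = univ := by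
  exact eq_univ_of_forall fun p u hu => absurd hu (Finset.notMem_empty u)

theorem FD.gv_F (h : FD Q Pts x) (j : Fin r) (p : X) : (gv x (Dx x) (Q.F j) p : Λ n) = 0 := by
  exact (h.pm p).gv_Dx_zero (mem_hz_nat.2 (Q.Fh j)) (Eventually.of_forall fun y => (h.onc y).2 j)

theorem TD_det {k : ℕ} (Q : PD m k c r) (v : Fin m → ℂ) (A : Fin c → Fin r)
    (w : Fin k → Fin m → P m) : eval v (Q.jd A w) = 0 ↔ ∃ u : Fin m → ℂ, u ≠ 0 ∧
      (∀ a, ∑ l, eval v (pderiv l (Q.F (A a))) * u l = 0) ∧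
      ∀ i, ∑ l, eval v (w i l) * u l = 0 := by
  rw [PD.jd, RingHom.map_det, ← Matrix.exists_mulVec_eq_zero_iff]
  constructor
  · rintro ⟨u, h0, h⟩
    refine ⟨u ∘ Q.eqv.symm, fun e => h0 (funext fun j => ?_), fun a => ?_, fun i => ?_⟩
    · simpa using congrFun e (Q.eqv j)
    · rw [← Q.eqv.sum_comp]
      simpa [Matrix.mulVec, dotProduct, gd] using congrFun h (Sum.inl a)
    · rw [← Q.eqv.sum_comp]
      simpa [Matrix.mulVec, dotProduct] using congrFun h (Sum.inr i)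
  · rintro ⟨u, h0, h1, h2⟩
    refine ⟨u ∘ Q.eqv, fun e => h0 (funext fun j => ?_), funext fun i => ?_⟩
    · simpa using congrFun e (Q.eqv.symm j)
    · rcases i with a | i
      · have := h1 a
        rw [← Q.eqv.sum_comp] at this
        simpa [Matrix.mulVec, dotProduct, gd] using this
      · have := h2 i
        rw [← Q.eqv.sum_comp] at this
        simpa [Matrix.mulVec, dotProduct] using this

theorem TD_ue (v u : Fin m → ℂ) (a : Fin m) : ∑ l, eval v (ue a l) * u l = u a := by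
  simp [ue, Pi.single_apply, apply_ite (eval v)]

/-- The coefficient of `dz k`. -/
def TD_co (k : Fin n) : Λ n →ₗ[ℂ] ℂ := (bL n).coord {toLex (Sum.inl k)}

theorem TD_co_dz (k j : Fin n) : TD_co k (dz j) = if j = k then 1 else 0 := by
  simp [TD_co, EA1a_dz, Finsupp.single_apply]

theorem TD_exp {a : Λ n} (h : a ∈ Tp n 1 0) : a = ∑ k, TD_co k a • dz k := by
  obtain ⟨b, rfl⟩ := mem_Tp10.1 h
  simp [TD_co_dz]

theorem TD_lin (u : Λ n →ₗ[ℂ] ℂ) (t : ℂ) (D : Fin m → Λ n) (v w : Fin m → ℂ) :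
    ∑ l, w l * (u (D l) + t * v l) = u (∑ l, w l • D l) + t * ∑ l, w l * v l := by
  simp only [map_sum, map_smul, smul_eq_mul, Finset.mul_sum, ← Finset.sum_add_distrib]
  exact Finset.sum_congr rfl fun l _ => by ring

theorem TD_unit {p : X} (h : PMAt x p) : ∑ l, conj (x p l) * x p l = 1 := by
  simpa only [mul_comm] using (MF4b_unit h).self_of_nhds

theorem TD_J (h : FD Q Pts x) (p : X) (u : Λ n →ₗ[ℂ] ℂ) (t : ℂ) (j : Fin r) :
    ∑ l, eval (x p) (pderiv l (Q.F j)) * (u (Dx x l p) + t * x p l) = 0 := by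
  have h1 : ∑ l, eval (x p) (pderiv l (Q.F j)) • (Dx x l p : Λ n) = 0 := h.gv_F j p
  rw [TD_lin, h1, euler_eval (Q.Fh j), (h.onc p).2 j]
  simp

theorem TD_surj (h : FD Q Pts x) {p : X} (hp : p ∈ Q.O Pts x) {A : Fin c → Fin r}
    {w : Fin (n + 1) → Fin m → P m} (hA : eval (x p) (Q.jd A w) ≠ 0) (y : Fin (n + 1) → ℂ) :
    ∃ (u : Λ n →ₗ[ℂ] ℂ) (t : ℂ),
      ∀ i, ∑ l, eval (x p) (w i l) * (u (Dx x l p) + t * x p l) = y i := by
  let T : Matrix (Fin m) (Fin (n + 1)) ℂ :=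
    Matrix.of fun l => Fin.cons (x p l) fun k => TD_co k (Dx x l p)
  let W : Matrix (Fin (n + 1)) (Fin m) ℂ := Matrix.of fun i l => eval (x p) (w i l)
  have hT : ∀ t l, T.mulVec t l = (∑ k, t k.succ • TD_co k) (Dx x l p) + t 0 * x p l := by
    intro t l
    simp [T, Matrix.mulVec, dotProduct, Fin.sum_univ_succ, mul_comm, add_comm]
  have hW : ∀ t i, (W.mulVecLin ∘ₗ T.mulVecLin) t i = ∑ l, eval (x p) (w i l) *
      ((∑ k, t k.succ • TD_co k) (Dx x l p) + t 0 * x p l) := by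
    intro t i
    simp only [← hT]
    rfl
  have hi : Function.Injective (W.mulVecLin ∘ₗ T.mulVecLin) := by
    refine (injective_iff_map_eq_zero _).2 fun t ht => ?_
    have h0 : ∀ l, (∑ k, t k.succ • TD_co k) (Dx x l p) + t 0 * x p l = 0 := by
      by_contra hn
      refine hA ((TD_det Q _ A w).2 ⟨_, fun e => hn (congrFun e), fun a => TD_J h p _ _ _,
        fun i => ?_⟩)
      rw [← hW, ht]
      rfl
    have h1 := TD_lin (∑ k, t k.succ • TD_co k) (t 0) (fun l => Dx x l p) (x p)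
      fun l => conj (x p l)
    simp only [h0, (h.pm p).sum_conj_Dx, TD_unit (h.pm p), mul_zero, Finset.sum_const_zero,
      map_zero, zero_add, mul_one] at h1
    funext i
    refine Fin.cases h1.symm (fun k => ?_) i
    obtain ⟨a, ha⟩ := h.imm p hp _ (dz_mem k)
    have h2 := TD_lin (∑ k, t k.succ • TD_co k) (t 0) (fun l => Dx x l p) (x p) a
    simp only [h0, mul_zero, Finset.sum_const_zero] at h2
    rw [← ha, ← h1] at h2
    simpa [TD_co_dz] using h2.symm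
  obtain ⟨t, ht⟩ := LinearMap.injective_iff_surjective.1 hi y
  exact ⟨_, _, fun i => by rw [← hW, ht]⟩

/-- The kernel of the Jacobian matrix has dimension at most `n + 1` (a minor of size `c` is not
zero, `m = c + n + 1`); it contains `x p` and the `n` vectors of the coefficients of `dz j` in the
`Dx x l p`, which are independent (`Imm`, `sum_conj_Dx`). -/
theorem FD.ker_jac (h : FD Q Pts x) {p : X} (hp : p ∈ Q.O Pts x) {v : Fin m → ℂ}
    (hv : ∀ j, ∑ l, eval (x p) (pderiv l (Q.F j)) * v l = 0) :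
    ∃ (u : Λ n →ₗ[ℂ] ℂ) (t : ℂ), ∀ l, v l = u (Dx x l p) + t * x p l := by
  obtain ⟨A, l0, hA⟩ := h.sm0 _ (h.onc p) hp
  obtain ⟨u, t, hu⟩ := TD_surj h hp hA fun i => v (l0 i)
  refine ⟨u, t, ?_⟩
  by_contra hn
  refine hA ((TD_det Q _ A _).2 ⟨fun l => v l - (u (Dx x l p) + t * x p l),
    fun e => hn fun l => sub_eq_zero.1 (congrFun e l), fun a => ?_, fun i => ?_⟩)
  · simp only [mul_sub, Finset.sum_sub_distrib, hv, TD_J h p, sub_zero]
  · simp only [mul_sub, Finset.sum_sub_distrib, hu, TD_ue, sub_self]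

theorem td_one {p : X} (h : PMAt x p) (hi : Imm x p) {a q : ℕ} (ha : a < n) {β θ : Λ n}
    (hβ : β ∈ Tp n a q) (e : ∀ l, Dx x l p * β + x p l • θ = 0) : β = 0 ∧ θ = 0 := by
  have h1 : θ = 0 := by
    have h2 : ∑ l, conj (x p l) • (Dx x l p * β + x p l • θ) = 0 := by simp [e]
    simp only [smul_add, Finset.sum_add_distrib, ← smul_mul_assoc, ← Finset.sum_mul, smul_smul,
      ← Finset.sum_smul, h.sum_conj_Dx, TD_unit h] at h2
    simpa using h2
  refine ⟨eq_zero_of_dz hβ ha fun j => ?_, h1⟩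
  obtain ⟨b, hb⟩ := hi _ (dz_mem j)
  simp only [h1, smul_zero, add_zero] at e
  simp [hb, Finset.sum_mul, e]

theorem TD_beta {a q : ℕ} (ha : a + 1 = n) {γ : Fin n → Λ n} (hγ : ∀ k, γ k ∈ Tp n n q) :
    ∃ β ∈ Tp n a q, ∀ k, dz k * β = γ k := by
  refine ⟨∑ j, ctr ((bV n).coord (toLex (Sum.inl j))) (γ j),
    Submodule.sum_mem _ fun j _ => ctr_Tp_left j (by rw [ha]; exact hγ j), fun k => ?_⟩
  have h : ∀ j, dz k * ctr ((bV n).coord (toLex (Sum.inl j))) (γ j) =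
      if k = j then γ j else 0 := by
    intro j
    have h1 := EA2a_mul10 (dz_mem k) (hγ j)
    rw [Tp_eq_bot (Or.inl (Nat.lt_succ_self n)), Submodule.mem_bot] at h1
    have h2 := EA1_ll j k (γ j)
    rw [h1, map_zero] at h2
    exact (sub_eq_zero.1 h2.symm).symm
  simp [Finset.mul_sum, h]

theorem FD.td_two_pt (h : FD Q Pts x) {p : X} (hp : p ∈ Q.O Pts x) {a q : ℕ} (ha : a + 1 = n)
    {g : Fin m → Λ n} (hg : ∀ l, g l ∈ Tp n n q)
    (e : ∀ j, ∑ l, eval (x p) (pderiv l (Q.F j)) • g l = 0) :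
    ∃ β ∈ Tp n a q, ∃ θ ∈ Tp n n q, ∀ l, g l = Dx x l p * β + x p l • θ := by
  choose b hb using fun k => h.imm p hp _ (dz_mem k)
  have hθ : ∑ l, conj (x p l) • g l ∈ Tp n n q :=
    Submodule.sum_mem _ fun l _ => Submodule.smul_mem _ _ (hg l)
  obtain ⟨β, h1, h2⟩ := TD_beta ha
    (γ := fun k => ∑ l, b k l • g l - (∑ l, b k l * x p l) • ∑ l, conj (x p l) • g l) fun k =>
      sub_mem (Submodule.sum_mem _ fun l _ => Submodule.smul_mem _ _ (hg l))
        (Submodule.smul_mem _ _ hθ)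
  refine ⟨β, h1, _, hθ, fun l => ?_⟩
  have key : ∀ φ : Λ n →ₗ[ℂ] ℂ,
      φ (g l) = φ (Dx x l p * β + x p l • ∑ l, conj (x p l) • g l) := by
    intro φ
    obtain ⟨u, t, hu⟩ := h.ker_jac hp (v := fun l => φ (g l)) fun j => by
      simpa using congrArg φ (e j)
    have e1 : φ (∑ l, conj (x p l) • g l) = t := by
      simp only [map_sum, map_smul, smul_eq_mul, hu]
      rw [TD_lin, (h.pm p).sum_conj_Dx, TD_unit (h.pm p)]
      simp
    have e2 : ∀ k, φ (dz k * β) = u (dz k) := by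
      intro k
      rw [h2, map_sub, map_smul, e1]
      simp only [map_sum, map_smul, smul_eq_mul, hu]
      rw [TD_lin, ← hb]
      ring
    rw [hu, map_add, map_smul, e1, TD_exp (Dx_Ty (x := x) l p)]
    simp only [Finset.sum_mul, smul_mul_assoc, map_sum, map_smul, e2, smul_eq_mul, mul_comm t]
  exact (bL n).ext_elem fun S => key ((bL n).coord S)

/-- Pointwise existence, uniqueness and `smAt_of_solve`. -/
theorem FD.td_two (h : FD Q Pts x) {a q : ℕ} (ha : a + 1 = n) {k : ℤ} {W : Set X} (hW : IsOpen W)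
    (hO : W ⊆ Q.O Pts x) {g : Fin m → Fm n X} (hg : ∀ l, Sm (gx x ^ (k + 1)) (g l) W)
    (ht : ∀ l, Ty n q (g l)) (e : ∀ j, ∀ p ∈ W, gv x g (Q.F j) p = 0) :
    ∃ β θ : Fm n X, Sm (gx x ^ k) β W ∧ Sm (gx x ^ k) θ W ∧ Ty a q β ∧ Ty n q θ ∧
      ∀ l, ∀ p ∈ W, g l p = Dx x l p * β p + x p l • θ p := by
  have hex : ∀ p, ∃ β ∈ Tp n a q, ∃ θ ∈ Tp n n q,
      p ∈ W → ∀ l, g l p = Dx x l p * β + x p l • θ := by
    intro p
    by_cases hp : p ∈ W
    · obtain ⟨β, h1, θ, h2, h3⟩ := h.td_two_pt (hO hp) ha (fun l => ht l p) fun j => e j p hp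
      exact ⟨β, h1, θ, h2, fun _ => h3⟩
    · exact ⟨0, zero_mem _, 0, zero_mem _, fun h => absurd h hp⟩
  choose β h1 θ h2 h3 using hex
  have key : ∀ p ∈ W, ∀ i : Fin 2, SmAt (gx x ^ k) (![β, θ] i) p := by
    intro p hp
    refine smAt_of_solve (fun _ => gx x ^ k) (fun _ => gx x ^ (k + 1))
      (fun _ _ => gx x ^ (1 : ℤ)) (fun _ => (h.pm p).gok_zpow k) (fun _ _ => (h.pm p).gok_zpow 1)
      (fun _ _ => (h.pm p).gz_add (add_comm _ _)) ![(a, q), (n, q)]
      (fun l => ![Dx x l, fn n fun y => x y l]) (fun l i => ?_) ![β, θ] (fun i => ?_) g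
      (fun l => hg l p hp) (fun l => ?_) fun b hb hs => ?_
    · rw [zpow_one]
      fin_cases i
      · exact (h.pm p).Dx_sm l
      · exact ((h.pm p).holAt l).smAt
    · fin_cases i
      · exact Eventually.of_forall h1
      · exact Eventually.of_forall h2
    · filter_upwards [hW.mem_nhds hp] with y hy
      rw [h3 y hy l, Fin.sum_univ_two, Algebra.smul_def]
      rfl
    · have := td_one (h.pm p) (h.imm p (hO hp)) (by omega : a < n) (hb 0) (θ := b 1) fun l => by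
        rw [← hs l, Fin.sum_univ_two, Algebra.smul_def]
        rfl
      funext i
      fin_cases i
      · exact this.1
      · exact this.2
  exact ⟨β, θ, fun p hp => key p hp 0, fun p hp => key p hp 1, h1, h2, fun l p hp => h3 p hp l⟩

/-- If `∑ ∂_l σ Dx_l = 0` and `σ (x p) = 0`, the gradient of `σ` is a combination of the gradients
of the equations (`im_jac`, Euler); these have rank exactly `c`, so it is a combination of the rows
`A`, or the rows `A` are dependent. -/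
theorem FD.gv_ne (h : FD Q Pts x) {p : X} (hp : p ∈ Q.O Pts x) {σ : P m} {ν : ℕ}
    (hσ : σ.IsHomogeneous ν) (h0 : eval (x p) σ = 0) {A : Fin c → Fin r} {l : Fin n → Fin m}
    (hA : eval (x p) (Q.jd A (Fin.cons (gd σ) fun i => ue (l i))) ≠ 0) :
    (gv x (Dx x) σ p : Λ n) ≠ 0 := by
  intro h1
  obtain ⟨u, t, hu⟩ := TD_surj h hp hA 1
  have h2 : ∑ l, eval (x p) (pderiv l σ) * (u (Dx x l p) + t * x p l) = 1 := hu 0
  have h3 : ∑ l, eval (x p) (pderiv l σ) • (Dx x l p : Λ n) = 0 := h1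
  rw [TD_lin, h3, euler_eval hσ, h0] at h2
  simp at h2

end

end Pool.Agent.MP_1c689d_ag.K0

end

section

/-! The definitions of the analytic part. -/

set_option autoImplicit false

open Complex Filter Topology Set MeasureTheory MvPolynomial
open scoped ComplexConjugate ContDiff ENNReal

namespace Pool.Agent.MP_1c689d_ag.K0

noncomputable section

section Gen

variable {n m c r : ℕ} {X : Type} [TopologicalSpace X] [Mf n X]

/-- Smooth closed forms of degree `k` on `U`. -/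
structure Cl (k : ℕ) (α : Fm n X) (U : Set X) : Prop where
  sm : Sm 1 α U
  dg : Dgr k α
  cl : ∀ p ∈ U, dd α p = 0

/-- `α` is `d` of a smooth form of degree `k` near `K`. -/
def ExN (k : ℕ) (α : Fm n X) (K : Set X) : Prop :=
  ∃ κ : Fm n X, Dgr k κ ∧ ∀ᶠ y in 𝓝ˢ K, SmAt 1 κ y ∧ dd κ y = α y

/-- `α` is `d` of a smooth form of degree `k`. -/
def Ex (k : ℕ) (α : Fm n X) : Prop := ∃ κ : Fm n X, Sm 1 κ univ ∧ Dgr k κ ∧ dd κ = α

/-- The Dolbeault group `H^{a, q+1}` with values in `G` vanishes. -/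
def DbV (n : ℕ) [Mf n X] (G : Ga X) (a q : ℕ) : Prop :=
  ∀ α : Fm n X, Sm G α univ → Ty a (q + 1) α → dbar G α = 0 →
    ∃ β : Fm n X, Sm G β univ ∧ Ty a q β ∧ dbar G β = α

/-- `θ` is the curvature of a unitary connection on a smooth line bundle over `W`, up to the factor
`2 π i`: `a p` is a real primitive near `p` and `u p` is a unitary frame near `p`. -/
def IntF (θ : Fm n X) (W : Set X) : Prop :=
  ∃ (a : X → Fm n X) (u : Ga X), ∀ p ∈ W, SmAt 1 (a p) p ∧ Dgr 1 (a p) ∧ cf (a p) = a p ∧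
    (∀ᶠ y in 𝓝 p, dd (a p) y = θ y) ∧ (∀ᶠ y in 𝓝 p, ‖u p y‖ = 1) ∧
    ∀ᶠ y in 𝓝 p, SmAt 1 (fn n fun y' => u y y' / u p y') y ∧
      ∀ᶠ y' in 𝓝 y, dd (fn n fun y' => u y y' / u p y') y' =
        (2 * Real.pi * I * (u y y' / u p y')) • (a y y' - a p y')

/-- The dualising module as the module of twisted holomorphic top forms. -/
structure RL (Q : PD m (n + 1) c r) (Pts : Finset (Fin (n + 1) → ℂ)) (x : X → Fin m → ℂ) where
  rl : Q.Om →ₗ[ℂ] Fm n X
  ty : ∀ t, Ty n 0 (rl t)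
  smul : ∀ h t, rl (h • t) = ev x h • rl t
  hol : ∀ (j : ℤ), ∀ t ∈ Q.og j, ∀ p ∈ Q.O Pts x, HFm (gx x ^ j) (rl t) p
  inj : ∀ (j : ℤ), ∀ t ∈ Q.og j, (∀ p ∈ Q.O Pts x, rl t p = 0) → t = 0
  surj : ∀ (j : ℤ) (α : Fm n X), Ty n 0 α → (∀ p ∈ Q.O Pts x, HFm (gx x ^ j) α p) →
    ∃ t ∈ Q.og j, ∀ p ∈ Q.O Pts x, rl t p = α p

/-- The direction of a non-zero column of a matrix. -/
def col {a b : ℕ} (M : Fin a → Fin b → ℂ) : Fin a → ℂ :=
  open Classical in
  if h : ∃ k, (fun j => M j k) ≠ 0 then nrm fun j => M j h.choose else 0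

/-- A matrix of forms of degree `2 μ` that has rank one at all points of the cone over the
hypersurface section `σ = 0`. -/
structure Rk1 {k a b : ℕ} (Q : PD m k c r) (σ : P m) (μ : ℕ) (f : Fin a → Fin b → P m) : Prop where
  hom : ∀ j l, (f j l).IsHomogeneous (2 * μ)
  rk : ∀ v, Q.OnC v → eval v σ = 0 → ∀ j j' l l',
    eval v (f j l) * eval v (f j' l') = eval v (f j l') * eval v (f j' l)
  ne : ∀ v, Q.OnC v → eval v σ = 0 → ∃ j l, eval v (f j l) ≠ 0

/-- The curvature of the line bundle defined by the matrix `f`. -/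
def Tt {a b : ℕ} (x : X → Fin m → ℂ) (μ : ℕ) (f : X → Fin a → Fin b → P m) : Fm n X :=
  Th (fun p => col fun j l => eval (x p) (f p j l)) - (μ : ℂ) • Th x

/-- A cut-off function that is one near `S`. -/
structure Tb (n : ℕ) [Mf n X] (U : Set X) (χ : X → ℂ) (S : Set X) : Prop where
  op : IsOpen U
  bump : Bump n χ
  supp : tsupport χ ⊆ U
  one : ∀ᶠ y in 𝓝ˢ S, χ y = 1

end Gen

section Three

variable {N c' r' m c r : ℕ} {X : Type} [TopologicalSpace X] [Mf 3 X]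

/-- Closed smooth forms of type `(2,1)`. -/
structure F21 (η : Fm 3 X) : Prop where
  sm : Sm 1 η univ
  ty : Ty 2 1 η
  cl : dd η = 0

/-- The setting: `ξ` embeds `X`, and `x` maps it to the model with trivial canonical class. -/
structure St (Q' : PD N 4 c' r') (ξ : X → Fin N → ℂ) (Q : PD m 4 c r)
    (Pts : Finset (Fin 4 → ℂ)) (x : X → Fin m → ℂ) : Prop where
  fd' : FD Q' ∅ ξ
  le' : ∀ i, Q'.b.dg i ≤ 3
  fd : FD Q Pts x
  num : Num Q
  alg : ∃ (k : ℕ) (d : Fin k → ℕ) (q : Fin k → Fin N → P m), (∀ i a, (q i a).IsHomogeneous (d i)) ∧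
    (∀ p ∈ Q.O Pts x, ∃ i, (fun a => eval (x p) (q i a)) ≠ 0) ∧
    ∀ i, ∀ p ∈ Q.O Pts x, ∃ t : ℂ, (fun a => eval (x p) (q i a)) = t • ξ p

variable {Q : PD m 4 c r} {Pts : Finset (Fin 4 → ℂ)} {x : X → Fin m → ℂ}

/-- The surface cut out by a good form. -/
def dvs (hF : FD Q Pts x) {σ : P m} {ν : ℕ} (hg : Good Q Pts σ ν) : Div 2 X where
  G := gx x ^ (ν : ℤ)
  σ := ev x σ
  O := Q.O Pts x
  op := hF.isOpen_O
  ok := fun p _ => (hF.pm p).gok_zpow ν
  hol := fun p _ => (hF.pm p).holAt_ev' hg.hom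
  nz := fun p hp h0 => by
    obtain ⟨A, l, hA⟩ := hg.sm (x p) (hF.onc p) h0
    rw [(hF.pm p).dp_ev (mem_hz_nat.2 hg.hom)]
    exact hF.gv_ne hp hg.hom h0 hA

/-- The data of section 3 of the proof. -/
structure ZD (R : RL Q Pts x) (η θ : Fm 3 X) (g : Fin m → Fm 3 X) (z : Fin r → Q.Om) : Prop where
  f21 : F21 η
  θ_sm : Sm 1 θ univ
  θ_ty : Ty 3 1 θ
  θ_eq : dbar 1 θ = -(Th x * η)
  g_sm : ∀ l, Sm (gx x ^ (1 : ℤ)) (g l) (Q.O Pts x)
  g_ty : ∀ l, Ty 3 0 (g l)
  g_eq : ∀ l, ∀ p ∈ Q.O Pts x, dbar (gx x ^ (1 : ℤ)) (g l) p = Dx x l p * η p + x p l • θ p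
  z_dg : ∀ j, z j ∈ Q.og (Q.dF j)
  z_eq : ∀ j, ∀ p ∈ Q.O Pts x, R.rl (z j) p = gv x g (Q.F j) p

/-- The class `z` is trivial. -/
def ZT (Q : PD m 4 c r) (z : Fin r → Q.Om) : Prop :=
  ∃ γ : Fin m → Q.Om, (∀ l, γ l ∈ Q.og 1) ∧ ∀ j, dv γ (Q.F j) = z j

/-- The closed form `g(b) / σ - b g(σ) / σ² - (b / σ) η`. -/
def vp (x : X → Fin m → ℂ) (g : Fin m → Fm 3 X) (η : Fm 3 X) (σ b : P m) : Fm 3 X := fun p =>
  (ev x σ p)⁻¹ • gv x g b p - (ev x b p / ev x σ p ^ 2) • gv x g σ p - (ev x b p / ev x σ p) • η p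

variable [MeasurableSpace X]

/-- The pairing with the tube over `θ`. -/
def pr (χ : X → ℂ) (θ ϖ : Fm 3 X) : ℂ := itg (dd (fn 3 χ) * (θ * ϖ))

/-- `I (τ / σ)`. -/
def resI (R : RL Q Pts x) (χ : X → ℂ) (θ : Fm 3 X) (σ : P m) (τ : Q.Om) : ℂ :=
  pr χ θ fun p => (ev x σ p)⁻¹ • R.rl τ p

/-- `I (τ / σ²)`. -/
def lamI (R : RL Q Pts x) (χ : X → ℂ) (θ : Fm 3 X) (σ : P m) (τ : Q.Om) : ℂ :=
  pr χ θ fun p => (ev x σ p ^ 2)⁻¹ • R.rl τ p

/-- `I (ϖ_b)`. -/
def muI (x : X → Fin m → ℂ) (g : Fin m → Fm 3 X) (η : Fm 3 X) (χ : X → ℂ) (θ : Fm 3 X)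
    (σ b : P m) : ℂ :=
  pr χ θ (vp x g η σ b)

/-- A non-degenerate Noether-Lefschetz point. -/
structure NLP (R : RL Q Pts x) (η : Fm 3 X) (g : Fin m → Fm 3 X) (U : Set X) (χ : X → ℂ)
    (θ : Fm 3 X) (σ : P m) (ν : ℕ) : Prop where
  good : Good Q Pts σ ν
  sub : U ⊆ Q.O Pts x
  tb : Tb 3 U χ {p | ev x σ p = 0}
  cl : Cl 2 θ U
  res : ∀ τ ∈ Q.og ν, resI R χ θ σ τ = 0
  nd : ∀ b : P m, b.IsHomogeneous ν → (∀ a ∈ Q.og ν, lamI R χ θ σ (b • a) = 0) →
    muI x g η χ θ σ b = 0 → ∃ t : ℂ, b - C t * σ ∈ Q.I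

end Three

section Fam

variable {m c r : ℕ} {B X : Type} [TopologicalSpace B] [Mf 1 B] [TopologicalSpace X] [Mf 3 X]

/-- An affine curve with its ring of regular functions, unramified over the `s`-line. -/
structure Crv (B : Type) [TopologicalSpace B] [Mf 1 B] where
  s : B → ℂ
  A : Subalgebra ℂ (B → ℂ)
  hol : ∀ a ∈ A, ∀ b, HolAt 1 a b
  s_mem : s ∈ A
  ds : ∀ b, dd (fn 1 s) b ≠ 0
  dom : ∀ a ∈ A, ∀ a' ∈ A, a * a' = 0 → a = 0 ∨ a' = 0
  alg : ∀ a ∈ A, ∃ p : P 2, p ≠ 0 ∧ ∀ b, eval ![s b, a b] p = 0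
  sep : ∃ w ∈ A, ∀ b b', s b = s b' → w b = w b' → b = b'
  prop : ∃ Z : Finset ℂ, (∀ b, s b ∉ Z) ∧
    ∀ K : Set ℂ, IsCompact K → Disjoint K Z → IsCompact (s ⁻¹' K)

/-- A family of polynomials with regular coefficients. -/
def Crv.Reg (C : Crv B) (σ : B → P m) : Prop := ∀ a, (fun b => coeff a (σ b)) ∈ C.A

/-- A family of good surfaces with line bundles. -/
structure Fam (Q : PD m 4 c r) (Pts : Finset (Fin 4 → ℂ)) (C : Crv B) (ν μ : ℕ) {a a' : ℕ}
    (σ : B → P m) (f : B → Fin a → Fin a' → P m) : Prop where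
  good : ∀ b, Good Q Pts (σ b) ν
  reg : C.Reg σ
  rk1 : ∀ b, Rk1 Q (σ b) μ (f b)
  freg : ∀ j l, C.Reg fun b => f b j l

variable {Q : PD m 4 c r} {Pts : Finset (Fin 4 → ℂ)} {x : X → Fin m → ℂ} {C : Crv B} {ν μ a a' : ℕ}
  {σ : B → P m} {f : B → Fin a → Fin a' → P m}

theorem Fam.pm (hF : FD Q Pts x) (z : PX B X) : PMAt (x ∘ (PX.snd : PX B X → X)) z :=
  (hF.pm z.snd).comp (PX.hmap_snd z)

theorem Fam.hc (hA : Fam Q Pts C ν μ σ f) (z : PX B X) (i : Fin m →₀ ℕ) :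
    HolAt 1 (fun y : PX B X => coeff i (σ y.fst)) z := by
  have := (C.hol _ (hA.reg i) z.fst).comp (PX.hmap_fst z)
  rwa [gpb_one] at this

/-- The total space of the family. -/
def Fam.dv (hF : FD Q Pts x) (hA : Fam Q Pts C ν μ σ f) : Div 3 (PX B X) where
  G := gx (x ∘ PX.snd) ^ (ν : ℤ)
  σ := fun z => eval (x z.snd) (σ z.fst)
  O := PX.snd ⁻¹' Q.O Pts x
  op := hF.isOpen_O.preimage PX.continuous_snd
  ok := fun z _ => (Fam.pm hF z).gok_zpow ν
  hol := fun z _ => (Fam.pm hF z).holAt_fam (σ := fun y => σ y.fst)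
    (fun y => (hA.good y.fst).hom) (hA.hc z)
  nz := fun z hz h0 h => by
    have h1 := (dvs hF (hA.good z.fst)).nz z.snd hz h0
    apply h1
    have hh : HolAt (gx (x ∘ (PX.snd : PX B X → X)) ^ (ν : ℤ))
        (fun y : PX B X => eval (x y.snd) (σ y.fst)) z :=
      (Fam.pm hF z).holAt_fam (σ := fun y => σ y.fst) (fun y => (hA.good y.fst).hom) (hA.hc z)
    have h2 := pb_dp (f := (PX.mk z.fst : X → PX B X)) (y := z.snd) (PX.hmap_slice z.fst z.snd)
      ((Fam.pm hF z).gok_zpow ν) hh.smAt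
    rw [pb_fn, gpb_zpow, ← gx_comp] at h2
    refine h2.symm.trans ?_
    change lm _ (dp _ _ z) = 0
    rw [h, map_zero]

/-- The projection of the total space to the base. -/
def Fam.pB (hF : FD Q Pts x) (hA : Fam Q Pts C ν μ σ f) : (hA.dv hF).T → B :=
  PX.fst ∘ (hA.dv hF).val

/-- The projection of the total space to the threefold. -/
def Fam.pX (hF : FD Q Pts x) (hA : Fam Q Pts C ν μ σ f) : (hA.dv hF).T → X :=
  PX.snd ∘ (hA.dv hF).val

/-- The curvature form on the total space. -/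
def Fam.Θ (hF : FD Q Pts x) (hA : Fam Q Pts C ν μ σ f) : Fm 3 (hA.dv hF).T :=
  Tt (x ∘ hA.pX hF) μ (f ∘ hA.pB hF)

/-- The action of the family on `(2,1)`-forms, tested against `φ`. -/
def Fam.L (hF : FD Q Pts x) (hA : Fam Q Pts C ν μ σ f) (φ : B → ℂ) (η : Fm 3 X) : ℂ :=
  itg ((φ ∘ hA.pB hF) • (pb (hA.pX hF) η * hA.Θ hF * pb (hA.pB hF) (cf (dd (fn 1 C.s)))))

/-- Test functions on the base. -/
def Tst (φ : B → ℂ) : Prop := Sm 1 (fn 1 φ) univ ∧ HasCompactSupport φ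

end Fam

end

end Pool.Agent.MP_1c689d_ag.K0

end

section

/-! The cone is a graph near a smooth point. -/

set_option autoImplicit false

open Complex Filter Topology Set MeasureTheory MvPolynomial

namespace Pool.Agent.MP_1c689d_ag.K0

noncomputable section

variable {n m k c r : ℕ}

theorem an_pqLoc (f : P m) (v : E m) : AnalyticAt ℂ (fun w : E m => eval w f) v :=
  AnalyticOnNhd.eval_mvPolynomial f v (mem_univ v)

theorem fderiv_pqLoc (f : P m) (v u : E m) :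
    fderiv ℂ (fun w : E m => eval w f) v u = ∑ l, eval v (pderiv l f) * u l := by
  induction f using MvPolynomial.induction_on with
  | C a => simp
  | add p q hp hq =>
    simp only [map_add, add_mul, Finset.sum_add_distrib]
    rw [fderiv_fun_add (an_pqLoc p v).differentiableAt (an_pqLoc q v).differentiableAt,
      add_apply, hp, hq]
  | mul_X p a hp =>
    simp only [map_mul, eval_X, Derivation.leibniz, smul_eq_mul, map_add, add_mul,
      Finset.sum_add_distrib, mul_assoc, ← Finset.mul_sum]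
    rw [fderiv_fun_mul (an_pqLoc p v).differentiableAt (differentiableAt_apply a v),
      add_apply, smul_apply,
      smul_apply, hp, (hasFDerivAt_apply a v).fderiv]
    simp [pderiv_X, Pi.single_apply, apply_ite (eval v)]

theorem inv_pqLoc (Q : PD m k c r) {v : E m} {A : Fin c → Fin r}
    {l : Fin k → Fin m} (h : eval v (Q.jd A fun i => ue (l i)) ≠ 0) :
    ∃ e : OpenPartialHomeomorph (E m) (Fin c ⊕ Fin k → ℂ), v ∈ e.source ∧
      (∀ w, e w = Sum.elim (fun a => eval w (Q.F (A a))) fun i => w (l i)) ∧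
      ∀ᶠ y in 𝓝 (e v), DifferentiableAt ℂ e.symm y := by
  let p : Fin c ⊕ Fin k → P m := Sum.elim (fun a => Q.F (A a)) fun i => X (l i)
  let Φ : E m → Fin c ⊕ Fin k → ℂ := fun w i => eval w (p i)
  have h1 : ContDiffAt ℂ 1 Φ v := contDiffAt_pi.2 fun i => (an_pqLoc (p i) v).contDiffAt
  have h2 : Function.Injective (fderiv ℂ Φ v : E m →ₗ[ℂ] Fin c ⊕ Fin k → ℂ) := by
    rw [injective_iff_map_eq_zero]
    intro u hu
    rw [PD.jd, RingHom.map_det] at h
    have h3 := Matrix.eq_zero_of_mulVec_eq_zero h (v := fun j => u (Q.eqv j)) (funext fun i => by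
      have h4 := congrFun hu i
      rw [ContinuousLinearMap.coe_coe, fderiv_pi fun i => (an_pqLoc (p i) v).differentiableAt,
        ContinuousLinearMap.pi_apply, fderiv_pqLoc, ← Q.eqv.sum_comp] at h4
      refine Eq.trans ?_ h4
      rw [Matrix.mulVec, dotProduct]
      refine Finset.sum_congr rfl fun j _ => ?_
      rcases i with a | i
      · rfl
      · simp [p, ue, pderiv_X, Pi.single_apply, eq_comm])
    funext j
    simpa using congrFun h3 (Q.eqv.symm j)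
  let L := (LinearMap.linearEquivOfInjective _ h2 (by
    simpa using (Fintype.card_congr Q.eqv).symm)).toContinuousLinearEquiv
  have h3 : HasFDerivAt Φ (L : E m →L[ℂ] Fin c ⊕ Fin k → ℂ) v :=
    (h1.differentiableAt one_ne_zero).hasFDerivAt
  refine ⟨h1.toOpenPartialHomeomorph Φ h3 one_ne_zero,
    h1.mem_toOpenPartialHomeomorph_source h3 one_ne_zero, fun w => funext fun i => ?_, ?_⟩
  · rcases i with a | i
    · rfl
    · exact eval_X _
  · filter_upwards [(h1.to_localInverse h3 one_ne_zero).eventually (by simp)] with y hy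
    exact hy.differentiableAt one_ne_zero

theorem PD.pq_graph (Q : PD m k c r) {v : E m} (hv : Q.OnC v) {A : Fin c → Fin r}
    {l : Fin k → Fin m} (h : eval v (Q.jd A fun i => ue (l i)) ≠ 0) :
    ∃ (g : E k → E m) (W : Set (E m)) (B : Set (E k)), IsOpen W ∧ v ∈ W ∧ IsOpen B ∧
      DifferentiableOn ℂ g B ∧
      (∀ w ∈ W, (∀ j, eval w (Q.F j) = 0) → (fun i => w (l i)) ∈ B ∧ g (fun i => w (l i)) = w) ∧
      ∀ s ∈ B, g s ∈ W ∧ (∀ j, eval (g s) (Q.F j) = 0) ∧ (fun i => g s (l i)) = s := by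
  obtain ⟨e, h1, h2, h3⟩ := inv_pqLoc Q h
  let j₀ : E k → Fin c ⊕ Fin k → ℂ := fun s => Sum.elim 0 s
  have h4 : Differentiable ℂ j₀ := differentiable_pi.2 fun i => by
    rcases i with a | i
    · exact differentiable_const (0 : ℂ)
    · exact differentiable_apply i
  have h5 : ∀ w, (∀ j, eval w (Q.F j) = 0) → e w = j₀ fun i => w (l i) := fun w hw => by
    rw [h2]
    exact congrArg (Sum.elim · _) (funext fun a => hw _)
  have h6 : ∀ᶠ s in 𝓝 fun i => v (l i), j₀ s ∈ e.target ∧ DifferentiableAt ℂ e.symm (j₀ s) := by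
    refine (h4.continuous.tendsto _).eventually (p := fun y => y ∈ e.target ∧
      DifferentiableAt ℂ e.symm y) ?_
    rw [← h5 v hv.2]
    exact (e.open_target.eventually_mem (e.map_source h1)).and h3
  obtain ⟨ρ, hρ, h7⟩ := Metric.eventually_nhds_iff_ball.1 h6
  set B : Set (E k) := Metric.ball (fun i => v (l i)) ρ with hB
  have h8 : IsOpen (e.source ∩ {w : E m | (fun i => w (l i)) ∈ B}) :=
    e.open_source.inter (Metric.isOpen_ball.preimage (by fun_prop))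
  have h9 : DifferentiableOn ℂ (e.symm ∘ j₀) B := fun s hs =>
    ((h7 s hs).2.comp s (h4 s)).differentiableWithinAt
  have h10 : ∀ w ∈ e.source, (∀ j, eval w (Q.F j) = 0) →
      (e.symm ∘ j₀) (fun i => w (l i)) = w := fun w hw hF => by
    rw [Function.comp_apply, ← h5 w hF, e.left_inv hw]
  have h11 : ∀ s ∈ B, (fun i => (e.symm ∘ j₀) s (l i)) = s := fun s hs => funext fun i => by
    have h12 := congrFun (e.right_inv (h7 s hs).1) (Sum.inr i)
    rwa [h2] at h12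
  refine ⟨e.symm ∘ j₀, _, B, h8, ⟨h1, Metric.mem_ball_self hρ⟩, Metric.isOpen_ball, h9,
    fun w hw hF => ⟨hw.2, h10 w hw.1 hF⟩, fun s hs => ⟨⟨e.map_target (h7 s hs).1, ?_⟩,
      fun j => by_contra fun h0 => ?_, h11 s hs⟩⟩
  · rw [mem_ofPred_eq, h11 s hs]
    exact hs
  · have h12 := null_zero_of_hol (f := fun s => eval ((e.symm ∘ j₀) s) (Q.F j)) Metric.isOpen_ball
      (convex_ball _ ρ).isPreconnected (fun s hs =>
        (an_pqLoc (Q.F j) _).differentiableAt.comp_differentiableWithinAt s (h9 s hs)) hs h0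
    have h13 : DifferentiableOn ℂ (fun s i => (e.symm ∘ j₀) s (Q.yi i)) B :=
      differentiableOn_pi.2 fun i => differentiableOn_pi.1 h9 _
    have h14 := addHaar_image_eq_zero_of_differentiableOn_of_addHaar_eq_zero volume
      ((h13.restrictScalars ℝ).mono fun s hs => hs.1) h12
    refine (Measure.measure_pos_of_mem_nhds volume (mem_of_superset
      (Q.pq_open_y hv (h8.mem_nhds ⟨h1, Metric.mem_ball_self hρ⟩)) ?_)).ne' h14
    rintro y ⟨w, hw, h15, rfl⟩
    refine ⟨fun i => w (l i), ⟨hw.2, ?_⟩, ?_⟩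
    · rw [h10 w hw.1 h15.2]
      exact h15.2 j
    · simp only [h10 w hw.1 h15.2]

theorem PD.pq_cd (Q : PD m (n + 1) c r) (hS : Q.Sm0 ∅) {v : E m} (hv : Q.OnC v) :
    ∃ (l₀ : Fin m) (l : Fin n → Fin m) (G : E n → E m) (W : Set (E m)) (T : Set (E n)),
      v l₀ ≠ 0 ∧ IsOpen W ∧ (fun a => v a / v l₀) ∈ W ∧ IsOpen T ∧ DifferentiableOn ℂ G T ∧
      (∀ w ∈ W, Q.OnC w → w l₀ = 1 → (fun j => w (l j)) ∈ T ∧ G (fun j => w (l j)) = w) ∧
      ∀ z ∈ T, G z ∈ W ∧ Q.OnC (G z) ∧ G z l₀ = 1 ∧ (fun j => G z (l j)) = z := by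
  obtain ⟨A, l, h⟩ := hS v hv fun u hu => absurd hu (Finset.notMem_empty u)
  obtain ⟨g, W, B, h1, h2, h3, h4, h5, h6⟩ := Q.pq_graph hv h
  have hs : ∀ (t : ℂ) (w : E m), (∀ j, eval w (Q.F j) = 0) → ∀ j, eval (t • w) (Q.F j) = 0 :=
    fun t w hw j => by rw [hz_eval_smul (mem_hz_nat.2 (Q.Fh j)), hw, mul_zero]
  obtain ⟨i, hi⟩ : ∃ i, v (l i) ≠ 0 := by
    by_contra h0
    have h7 : ∀ i, v (l i) = 0 := fun i => by_contra fun h8 => h0 ⟨i, h8⟩
    have h8 : ∀ᶠ t : ℂ in 𝓝 1, t • v ∈ W :=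
      ((continuous_id.smul continuous_const).tendsto' 1 v (one_smul _ _)).eventually
        (h1.mem_nhds h2)
    obtain ⟨t, h9, h10⟩ := ((h8.filter_mono nhdsWithin_le_nhds).and
      (self_mem_nhdsWithin (s := {1}ᶜ))).exists
    have h11 := (h5 _ h9 (hs t v hv.2)).2
    have h12 := (h5 _ h2 hv.2).2
    simp only [Pi.smul_apply, h7, smul_zero] at h11 h12
    have h13 : (t - 1) • v = 0 := by rw [sub_smul, one_smul, ← h11, ← h12, sub_self]
    exact hv.1 ((smul_eq_zero.1 h13).resolve_left (sub_ne_zero.2 h10))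
  let u : E n → E (n + 1) := fun z => v (l i) • i.insertNth 1 z
  have h7 : Differentiable ℂ u := by
    refine differentiable_pi.2 fun a => ?_
    refine Fin.succAboveCases i ?_ (fun j => ?_) a
    · simp only [u, Pi.smul_apply, Fin.insertNth_apply_same]
      exact differentiable_const _
    · simp only [u, Pi.smul_apply, Fin.insertNth_apply_succAbove]
      exact (differentiable_apply j).const_smul (v (l i))
  refine ⟨l i, fun j => l (i.succAbove j), fun z => (v (l i))⁻¹ • g (u z),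
    {w | v (l i) • w ∈ W}, u ⁻¹' B, hi, h1.preimage (continuous_const_smul _), ?_,
    h3.preimage h7.continuous, 
    (h4.comp h7.differentiableOn (mapsTo_preimage u B)).const_smul (v (l i))⁻¹,
    fun w hw h8 h9 => ?_, fun z hz => ?_⟩
  · have h8 : (v (l i) • fun a => v a / v (l i)) = v := funext fun a => mul_div_cancel₀ _ hi
    rwa [mem_ofPred_eq, h8]
  · have h10 : (u fun j => w (l (i.succAbove j))) = fun a => (v (l i) • w) (l a) :=
      funext fun a => by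
        refine Fin.succAboveCases i ?_ (fun j => ?_) a <;> simp [u, h9]
    obtain ⟨h11, h12⟩ := h5 _ hw (hs _ w h8.2)
    refine ⟨by rwa [mem_preimage, h10], ?_⟩
    dsimp only
    rw [h10, h12, smul_smul, inv_mul_cancel₀ hi, one_smul]
  · obtain ⟨h8, h9, h10⟩ := h6 _ hz
    have h11 : ((v (l i))⁻¹ • g (u z)) (l i) = 1 := by
      rw [Pi.smul_apply, congrFun h10 i]
      simp [u, hi]
    refine ⟨?_, ⟨fun h12 => ?_, hs _ _ h9⟩, h11, funext fun j => ?_⟩
    · rwa [mem_ofPred_eq, smul_smul, mul_inv_cancel₀ hi, one_smul]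
    · exact zero_ne_one ((congrFun h12 (l i)).symm.trans h11)
    · dsimp only
      rw [Pi.smul_apply, congrFun h10 (i.succAbove j)]
      simp [u, hi]

end

end Pool.Agent.MP_1c689d_ag.K0

end

section

/-! The topology of the space of complex points. -/

set_option autoImplicit false

open Complex Filter Topology Set MeasureTheory MvPolynomial

namespace Pool.Agent.MP_1c689d_ag.K0

noncomputable section

variable {m k c r : ℕ} (Q : PD m k c r)

theorem PD.pq_smul {v : Fin m → ℂ} (hv : Q.OnC v) {t : ℂ} (ht : t ≠ 0) : Q.OnC (t • v) := by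
  refine ⟨smul_ne_zero ht hv.1, fun j => ?_⟩
  rw [hz_eval_smul (mem_hz_nat.2 (Q.Fh j)) v t, hv.2 j, mul_zero]

theorem PD.pq_mk_eq (v w : Q.Cn) :
    Quotient.mk Q.rel v = Quotient.mk Q.rel w ↔ ∃ t : ℂ, t ≠ 0 ∧ v.1 = t • w.1 := by
  rw [Quotient.eq]
  change Projectivization.mk ℂ v.1 v.2.1 = Projectivization.mk ℂ w.1 w.2.1 ↔ _
  rw [Projectivization.mk_eq_mk_iff']
  constructor
  · rintro ⟨t, ht⟩
    refine ⟨t, fun h0 => v.2.1 ?_, ht.symm⟩
    rw [← ht, h0, zero_smul]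
  · rintro ⟨t, -, ht⟩
    exact ⟨t, ht.symm⟩

/-- Scaling on the cone. -/
def PD.sm_pqTop (t : ℂ) (ht : t ≠ 0) (x : Q.Cn) : Q.Cn := ⟨t • x.1, Q.pq_smul x.2 ht⟩

theorem PD.sm_cont_pqTop (t : ℂ) (ht : t ≠ 0) : Continuous (Q.sm_pqTop t ht) :=
  Continuous.subtype_mk (continuous_subtype_val.const_smul t) _

theorem PD.pq_open : IsOpenQuotientMap (Quotient.mk Q.rel : Q.Cn → Q.Pt) := by
  refine ⟨Quotient.mk_surjective, continuous_quot_mk, fun U hU => ?_⟩
  refine (isQuotientMap_quot_mk (r := Q.rel)).isOpen_preimage.1 ?_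
  have e : Quotient.mk Q.rel ⁻¹' (Quotient.mk Q.rel '' U) =
      ⋃ t : {t : ℂ // t ≠ 0}, Q.sm_pqTop t.1 t.2 ⁻¹' U := by
    ext x
    simp only [Set.mem_preimage, Set.mem_image, Set.mem_iUnion]
    constructor
    · rintro ⟨y, hy, e⟩
      obtain ⟨t, ht, h⟩ := (Q.pq_mk_eq y x).1 e
      refine ⟨⟨t, ht⟩, ?_⟩
      have : Q.sm_pqTop t ht x = y := Subtype.ext h.symm
      rw [this]
      exact hy
    · rintro ⟨t, ht⟩
      exact ⟨_, ht, (Q.pq_mk_eq _ x).2 ⟨t.1, t.2, rfl⟩⟩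
  have h := isOpen_iUnion fun t : {t : ℂ // t ≠ 0} => hU.preimage (Q.sm_cont_pqTop t.1 t.2)
  rw [← e] at h
  exact h

theorem PD.pq_compact : CompactSpace Q.Pt := by
  have hK : IsCompact {x : Q.Cn | ‖x.1‖ = 1} := by
    rw [Subtype.isCompact_iff]
    have e : Subtype.val '' {x : Q.Cn | ‖x.1‖ = 1} = Metric.sphere 0 1 ∩
        ⋂ j : Fin r, {v | eval v (Q.F j) = 0} := by
      ext v
      simp only [Set.mem_image, Set.mem_inter_iff, Set.mem_iInter, mem_sphere_zero_iff_norm,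
        Set.mem_ofPred_eq]
      constructor
      · rintro ⟨x, hx, rfl⟩
        exact ⟨hx, fun j => x.2.2 j⟩
      · rintro ⟨h1, h2⟩
        refine ⟨⟨v, ?_, h2⟩, h1, rfl⟩
        rintro rfl
        simp at h1
    rw [e]
    exact (isCompact_sphere _ _).inter_right (isClosed_iInter fun j =>
      isClosed_eq (MvPolynomial.continuous_eval _) continuous_const)
  refine ⟨?_⟩
  have e : (Set.univ : Set Q.Pt) = Quotient.mk Q.rel '' {x : Q.Cn | ‖x.1‖ = 1} := by
    refine (Set.eq_univ_of_forall fun y => ?_).symm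
    obtain ⟨x, rfl⟩ := Quotient.exists_rep y
    have h0 : ‖x.1‖ ≠ 0 := norm_ne_zero_iff.2 x.2.1
    have hc : ((‖x.1‖⁻¹ : ℝ) : ℂ) ≠ 0 := by simpa using x.2.1
    refine ⟨Q.sm_pqTop _ hc x, ?_, (Q.pq_mk_eq _ x).2 ⟨_, hc, rfl⟩⟩
    change ‖((‖x.1‖⁻¹ : ℝ) : ℂ) • x.1‖ = 1
    rw [norm_smul, Complex.norm_real, norm_inv, norm_norm, inv_mul_cancel₀ h0]
  rw [e]
  exact hK.image Q.pq_open.continuous

theorem PD.pq_t2 : T2Space Q.Pt := by
  rw [t2Space_iff_of_isOpenQuotientMap Q.pq_open]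
  have e : {q : Q.Cn × Q.Cn | Quotient.mk Q.rel q.1 = Quotient.mk Q.rel q.2} =
      ⋂ a : Fin m, ⋂ b : Fin m, {q : Q.Cn × Q.Cn | q.1.1 a * q.2.1 b = q.1.1 b * q.2.1 a} := by
    ext q
    simp only [Set.mem_iInter, Set.mem_ofPred_eq]
    rw [Q.pq_mk_eq]
    constructor
    · rintro ⟨t, -, h⟩ a b
      rw [h]
      simp only [Pi.smul_apply, smul_eq_mul]
      ring
    · intro h
      obtain ⟨b, hb⟩ := Function.ne_iff.1 q.2.2.1
      have hb' : q.2.1 b ≠ 0 := hb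
      have h3 : q.1.1 = (q.1.1 b / q.2.1 b) • q.2.1 := by
        funext a
        simp only [Pi.smul_apply, smul_eq_mul]
        rw [div_mul_eq_mul_div, eq_div_iff hb']
        exact h a b
      refine ⟨_, fun h0 => q.1.2.1 ?_, h3⟩
      rw [h3, h0, zero_smul]
  rw [e]
  have h1 : ∀ a : Fin m, Continuous fun q : Q.Cn × Q.Cn => q.1.1 a := fun a =>
    (continuous_apply a).comp (continuous_subtype_val.comp continuous_fst)
  have h2 : ∀ a : Fin m, Continuous fun q : Q.Cn × Q.Cn => q.2.1 a := fun a =>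
    (continuous_apply a).comp (continuous_subtype_val.comp continuous_snd)
  exact isClosed_iInter fun a => isClosed_iInter fun b =>
    isClosed_eq ((h1 a).mul (h2 b)) ((h1 b).mul (h2 a))

theorem PD.pq_sc : SecondCountableTopology Q.Pt := by
  exact Q.pq_open.isQuotientMap.secondCountableTopology Q.pq_open.isOpenMap

/-- A representative. -/
def PD.pqR (p : Q.Pt) : Fin m → ℂ := (Quotient.out p : Q.Cn).1

/-- The affine coordinates. -/
def PD.pqN (l : Fin m) (p : Q.Pt) : Fin m → ℂ := fun a => Q.pqR p a / Q.pqR p l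

/-- The affine chart. -/
def PD.pqU (l : Fin m) : Set Q.Pt := {p | Q.pqR p l ≠ 0}

theorem PD.pqR_onc (p : Q.Pt) : Q.OnC (Q.pqR p) := by
  exact (Quotient.out p : Q.Cn).2

theorem PD.pqR_mk (v : Q.Cn) : ∃ t : ℂ, t ≠ 0 ∧ Q.pqR (Quotient.mk Q.rel v) = t • v.1 := by
  exact (Q.pq_mk_eq _ v).1 (Quotient.out_eq _)

theorem PD.pqR_inj {p p' : Q.Pt} {t : ℂ} (h : Q.pqR p' = t • Q.pqR p) : p' = p := by
  have ht : t ≠ 0 := fun h0 => (Q.pqR_onc p').1 (by rw [h, h0, zero_smul])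
  have h1 := (Q.pq_mk_eq (Quotient.out p') (Quotient.out p)).2 ⟨t, ht, h⟩
  rwa [Quotient.out_eq, Quotient.out_eq] at h1

theorem PD.pqN_mk (l : Fin m) (v : Q.Cn) :
    Q.pqN l (Quotient.mk Q.rel v) = fun a => v.1 a / v.1 l := by
  obtain ⟨t, ht, h⟩ := Q.pqR_mk v
  funext a
  simp only [PD.pqN, h, Pi.smul_apply, smul_eq_mul]
  exact mul_div_mul_left _ _ ht

theorem PD.mk_mem_pqU (l : Fin m) (v : Q.Cn) : Quotient.mk Q.rel v ∈ Q.pqU l ↔ v.1 l ≠ 0 := by
  obtain ⟨t, ht, h⟩ := Q.pqR_mk v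
  change Q.pqR (Quotient.mk Q.rel v) l ≠ 0 ↔ _
  rw [h, Pi.smul_apply, smul_eq_mul, mul_ne_zero_iff_left ht]

theorem PD.isOpen_pqU (l : Fin m) : IsOpen (Q.pqU l) := by
  rw [← Q.pq_open.isQuotientMap.isOpen_preimage]
  have e : Quotient.mk Q.rel ⁻¹' Q.pqU l = {v : Q.Cn | v.1 l ≠ 0} :=
    Set.ext fun v => Q.mk_mem_pqU l v
  rw [e]
  exact isOpen_ne_fun ((continuous_apply l).comp continuous_subtype_val) continuous_const

theorem PD.continuousOn_pqN (l : Fin m) : ContinuousOn (Q.pqN l) (Q.pqU l) := by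
  intro p hp
  obtain ⟨v, rfl⟩ := Quotient.exists_rep p
  have hv : v.1 l ≠ 0 := (Q.mk_mem_pqU l v).1 hp
  refine ContinuousAt.continuousWithinAt ?_
  rw [← Q.pq_open.continuousAt_comp_iff]
  have e : Q.pqN l ∘ Quotient.mk Q.rel = fun v : Q.Cn => fun a => v.1 a / v.1 l :=
    funext fun v => Q.pqN_mk l v
  rw [e]
  have h1 : ∀ a : Fin m, Continuous fun v : Q.Cn => v.1 a := fun a =>
    (continuous_apply a).comp continuous_subtype_val
  exact continuousAt_pi.2 fun a => (h1 a).continuousAt.div (h1 l).continuousAt hv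

theorem PD.pqN_onc {l : Fin m} {p : Q.Pt} (hp : p ∈ Q.pqU l) :
    Q.pqN l p l = 1 ∧ ∃ h : Q.OnC (Q.pqN l p), Quotient.mk Q.rel ⟨_, h⟩ = p := by
  have hl : Q.pqR p l ≠ 0 := hp
  have e : Q.pqN l p = (Q.pqR p l)⁻¹ • Q.pqR p := by
    funext a
    simp only [PD.pqN, Pi.smul_apply, smul_eq_mul, div_eq_inv_mul]
  have h : Q.OnC (Q.pqN l p) := by
    rw [e]
    exact Q.pq_smul (Q.pqR_onc p) (inv_ne_zero hl)
  refine ⟨div_self hl, h, ?_⟩
  have h1 := (Q.pq_mk_eq ⟨_, h⟩ (Quotient.out p)).2 ⟨_, inv_ne_zero hl, e⟩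
  rwa [Quotient.out_eq] at h1

end

end Pool.Agent.MP_1c689d_ag.K0

end

section

/-! The complex structure of a smooth projective variety. -/

set_option autoImplicit false

open Complex Filter Topology Set MeasureTheory MvPolynomial

namespace Pool.Agent.MP_1c689d_ag.K0

noncomputable section

variable {n m c r : ℕ} (Q : PD m (n + 1) c r)

/-- Charts given by ratios of coordinates, with a holomorphic lift of the inverse. -/
structure PD.pqGood (e : OpenPartialHomeomorph Q.Pt (E n)) (l₀ : Fin m) (l : Fin n → Fin m)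
    (G : E n → E m) : Prop where
  app : ∀ p, e p = fun j => Q.pqN l₀ p (l j)
  src : e.source ⊆ Q.pqU l₀
  hol : DifferentiableOn ℂ G e.target
  inv : ∀ z ∈ e.target, ∃ h : Q.OnC (G z), e.symm z = Quotient.mk Q.rel ⟨_, h⟩

theorem PD.pq_chart (hS : Q.Sm0 ∅) (p : Q.Pt) :
    ∃ e l₀ l G, Q.pqGood e l₀ l G ∧ p ∈ e.source := by
  classical
  obtain ⟨l₀, l, G, W, T, h1, h2, h3, h4, h5, h6, h7⟩ := Q.pq_cd hS (Q.pqR_onc p)
  let ψ : E n → Q.Pt := fun z => if h : Q.OnC (G z) then Quotient.mk Q.rel ⟨_, h⟩ else p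
  have h8 : ∀ z (h : Q.OnC (G z)), ψ z = Quotient.mk Q.rel ⟨_, h⟩ := fun z h => dif_pos h
  have h9 : ∀ z ∈ T, ψ z ∈ Q.pqU l₀ ∧ Q.pqN l₀ (ψ z) = G z := fun z hz => by
    obtain ⟨-, a2, a3, -⟩ := h7 z hz
    rw [h8 z a2, Q.mk_mem_pqU, Q.pqN_mk]
    simp only [a3, div_one]
    exact ⟨one_ne_zero, trivial⟩
  let e : OpenPartialHomeomorph Q.Pt (E n) :=
    { toFun := fun y j => Q.pqN l₀ y (l j)
      invFun := ψ
      source := Q.pqU l₀ ∩ Q.pqN l₀ ⁻¹' W
      target := T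
      map_source' := fun y hy => by
        obtain ⟨a1, a2, -⟩ := Q.pqN_onc hy.1
        exact (h6 _ hy.2 a2 a1).1
      map_target' := fun z hz => ⟨(h9 z hz).1, by
        rw [mem_preimage, (h9 z hz).2]
        exact (h7 z hz).1⟩
      left_inv' := fun y hy => by
        obtain ⟨a1, a2, a3⟩ := Q.pqN_onc hy.1
        have a4 := (h6 _ hy.2 a2 a1).2
        rw [h8 _ (a4.symm ▸ a2)]
        exact (congrArg _ (Subtype.ext a4)).trans a3
      right_inv' := fun z hz => by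
        rw [(h9 z hz).2]
        exact (h7 z hz).2.2.2
      open_source := (Q.continuousOn_pqN l₀).isOpen_inter_preimage (Q.isOpen_pqU l₀) h2
      open_target := h4
      continuousOn_toFun := continuousOn_pi.2 fun j =>
        (continuousOn_pi.1 (Q.continuousOn_pqN l₀) (l j)).mono inter_subset_left
      continuousOn_invFun := by
        rw [continuousOn_iff_continuous_domRestrict]
        exact (Q.pq_open.continuous.comp (h5.continuousOn.domRestrict.subtype_mk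
          fun z => (h7 z z.2).2.1)).congr fun z => (h8 z _).symm }
  exact ⟨e, l₀, l, G, ⟨fun _ => rfl, inter_subset_left, h5, fun z hz => ⟨_, h8 z (h7 z hz).2.1⟩⟩,
    h1, h3⟩

variable {Q} in
theorem PD.pqGood.ratio {e : OpenPartialHomeomorph Q.Pt (E n)} {l₀ : Fin m} {l : Fin n → Fin m}
    {G : E n → E m} (h : Q.pqGood e l₀ l G) {z : E n} (hz : z ∈ e.target) {b : Fin m}
    (hb : e.symm z ∈ Q.pqU b) (a : Fin m) :
    DifferentiableAt ℂ (fun w => Q.pqN b (e.symm w) a) z := by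
  have h1 := differentiableAt_pi.1 (h.hol.differentiableAt (e.open_target.mem_nhds hz))
  obtain ⟨h2, h3⟩ := h.inv z hz
  rw [h3, Q.mk_mem_pqU] at hb
  refine ((h1 a).mul ((h1 b).inv hb)).congr_of_eventuallyEq ?_
  filter_upwards [e.open_target.mem_nhds hz] with w hw
  obtain ⟨h4, h5⟩ := h.inv w hw
  rw [h5, Q.pqN_mk]
  exact div_eq_mul_inv _ _

theorem pq_nrm {v : Fin m → ℂ} (hv : v ≠ 0) :
    (∃ t : ℂ, t ≠ 0 ∧ nrm v = t • v) ∧ ∑ l, normSq (nrm v l) = 1 := by
  obtain ⟨l, hl⟩ := Function.ne_iff.1 hv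
  refine ⟨⟨_, MF4c_sqrt_ne hl, rfl⟩, ?_⟩
  simp only [MF4c_normSq_nrm]
  rw [← Finset.sum_div, div_self (MF4c_pos hl).ne']

theorem PD.pq_mf (hS : Q.Sm0 ∅) : ∃ (M : Mf n Q.Pt) (x : Q.Pt → Fin m → ℂ),
    (∀ p, @PMAt n m Q.Pt _ M x p) ∧ (∀ p, @Imm n m Q.Pt _ M x p) ∧
      ∀ p, ∃ t : ℂ, t ≠ 0 ∧ x p = t • Q.pqR p := by
  choose e l₀ l G h1 h2 using Q.pq_chart hS
  let M : Mf n Q.Pt :=
    { atlas := {e | ∃ l₀ l G, Q.pqGood e l₀ l G}
      chartAt := e
      mem_chart_source := h2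
      chart_mem_atlas := fun p => ⟨_, _, _, h1 p⟩
      hol := by
        rintro e ⟨a₀, a, H, h⟩ e' ⟨b₀, b, H', h'⟩ z hz
        refine DifferentiableAt.differentiableWithinAt ?_
        rw [OpenPartialHomeomorph.coe_trans, funext h'.app]
        exact differentiableAt_pi.2 fun j => h.ratio hz.1 (h'.src hz.2) _
      t2 := Q.pq_t2
      sc := Q.pq_sc }
  choose t h3 h4 using fun p => (pq_nrm (Q.pqR_onc p).1).1
  have h5 : ∀ y a, nrm (Q.pqR y) a ≠ 0 ↔ y ∈ Q.pqU a := fun y a => by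
    rw [h4, Pi.smul_apply, smul_eq_mul, mul_ne_zero_iff_left (h3 y)]
    rfl
  have h6 : ∀ y a b, nrm (Q.pqR y) a / nrm (Q.pqR y) b = Q.pqN b y a := fun y a b => by
    rw [h4]
    exact mul_div_mul_left _ _ (h3 y)
  have h7 : ∀ p, PMAt (fun y => nrm (Q.pqR y)) p := fun p =>
    { unit := Eventually.of_forall fun y => (pq_nrm (Q.pqR_onc y).1).2
      ne := fun a ha => by
        simp only [h5] at ha ⊢
        exact (Q.isOpen_pqU a).mem_nhds ha
      hol := fun b a hb => by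
        simp only [h6]
        rw [MF2_hol1]
        filter_upwards [MF2b_target (p := p),
          MF2a_ev_chart ((Q.isOpen_pqU b).mem_nhds ((h5 _ _).1 hb))] with z h8 h9
        exact (h1 p).ratio h8 h9 a }
  refine ⟨M, fun y => nrm (Q.pqR y), h7, fun p => ?_, fun p => ⟨_, h3 p, h4 p⟩⟩
  have h8 := (h5 _ _).2 ((h1 p).src (h2 p))
  rw [MF4c_imm (h7 p) h8]
  have h9 := ((isCh_ch p).df_bij (h2 p)).1
  have h10 : (ch n p : Q.Pt → E n) = (fun (w : E m) j => w (l p j)) ∘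
      fun y j => nrm (Q.pqR y) j / nrm (Q.pqR y) (l₀ p) := funext fun y => by
    simp only [h6]
    exact (h1 p).app y
  rw [h10, df_comp (hmap_E.2 (Eventually.of_forall fun w => by fun_prop))
    (hmap_iff_holAt.2 fun j => (h7 p).hol _ j h8)] at h9
  exact Function.Injective.of_comp h9

end

end Pool.Agent.MP_1c689d_ag.K0

end

section

/-! Interface: smooth projective varieties as complex manifolds. -/

set_option autoImplicit false

open Complex Filter Topology Set MeasureTheory MvPolynomial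
open scoped ComplexConjugate ContDiff ENNReal

namespace Pool.Agent.MP_1c689d_ag.K0

noncomputable section

variable {n m k c r : ℕ}

/-- The cone is finite and onto over the space of the `y`. -/
theorem PD.exists_pt (Q : PD m k c r) (h : Nonempty Q.b.ι) {y : Fin k → ℂ} (hy : y ≠ 0) :
    ∃ v, Q.OnC v ∧ (fun i => v (Q.yi i)) = y := by
  exact Q.pq_exists_pt h hy

theorem PD.card_fib (Q : PD m k c r) (y : Fin k → ℂ) :
    {v | Q.OnC v ∧ (fun i => v (Q.yi i)) = y}.encard ≤ Fintype.card Q.b.ι := by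
  exact Q.pq_card_fib y

theorem PD.exists_mf (Q : PD m (n + 1) c r) (hS : Q.Sm0 ∅) :
    ∃ (M : Mf n Q.Pt) (x : Q.Pt → Fin m → ℂ), @FD n m c r Q.Pt _ M Q ∅ x ∧
      ∀ v : Q.Cn, ∃ t : ℂ, x (Quotient.mk Q.rel v) = t • v.1 := by
  obtain ⟨M, x, h1, h2, h3⟩ := Q.pq_mf hS
  choose t h4 h5 using h3
  have h6 : ∀ v : Q.Cn, ∃ s : ℂ, x (Quotient.mk Q.rel v) = s • v.1 := fun v => by
    obtain ⟨s, -, hs⟩ := Q.pqR_mk v
    exact ⟨_, by rw [h5, hs, smul_smul]⟩
  refine ⟨M, x, ⟨Q.pq_compact, h1, fun p => ?_, hS, fun p _ => h2 p, fun p p' _ ⟨s, hs⟩ => ?_,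
    fun v hv _ => ⟨_, h6 ⟨v, hv⟩⟩⟩, h6⟩
  · rw [h5]
    exact Q.pq_smul (Q.pqR_onc p) (h4 p)
  · refine Q.pqR_inj (t := (t p')⁻¹ * (s * t p)) ?_
    rw [mul_smul, mul_smul, ← h5, ← hs, h5, smul_smul, inv_mul_cancel₀ (h4 p'), one_smul]

/-- Projective space. -/
structure IsPN {Y : Type} [TopologicalSpace Y] [Mf n Y] (y : Y → Fin (n + 1) → ℂ) : Prop where
  cpt : CompactSpace Y
  pm : ∀ p, PMAt y p
  imm : ∀ p, Imm y p
  inj : ∀ p p', (∃ t : ℂ, y p' = t • y p) → p' = p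
  surj : ∀ v, v ≠ 0 → ∃ p, ∃ t : ℂ, y p = t • v

end

end Pool.Agent.MP_1c689d_ag.K0

end

section

/-! Interface: the setting attached to a birational morphism. -/

set_option autoImplicit false

open Complex Filter Topology Set MeasureTheory MvPolynomial
open scoped ComplexConjugate ContDiff ENNReal

namespace Pool.Agent.MP_1c689d_ag.K0

noncomputable section

variable {n N c' r' m c r : ℕ}

/-- Proportional vectors. -/
def IBIR_pr (a b : Fin m → ℂ) : Prop := ∃ t : ℂ, a = t • b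

theorem IBIR_ne {a b : Fin m → ℂ} {t : ℂ} (h : a = t • b) (ha : a ≠ 0) : t ≠ 0 := by
  rintro rfl
  exact ha (h.trans (zero_smul _ _))

theorem IBIR_symm {a b : Fin m → ℂ} (h : IBIR_pr a b) (ha : a ≠ 0) : IBIR_pr b a := by
  obtain ⟨t, h⟩ := h
  exact ⟨t⁻¹, by rw [h, inv_smul_smul₀ (IBIR_ne h ha)]⟩

theorem IBIR_trans {a b d : Fin m → ℂ} (h : IBIR_pr a b) (h' : IBIR_pr b d) : IBIR_pr a d := by
  obtain ⟨t, rfl⟩ := h
  obtain ⟨s, rfl⟩ := h'
  exact ⟨t * s, smul_smul _ _ _⟩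

theorem IBIR_nrm (a : Fin m → ℂ) : IBIR_pr (nrm a) a := ⟨_, rfl⟩

theorem IBIR_unit {a : Fin m → ℂ} (ha : a ≠ 0) : ∑ l, normSq (nrm a l) = 1 := by
  obtain ⟨l, hl⟩ := Function.ne_iff.1 ha
  simp only [MF4c_normSq_nrm, ← Finset.sum_div]
  exact div_self (MF4c_pos hl).ne'

theorem IBIR_nrm_ne {a : Fin m → ℂ} (ha : a ≠ 0) : nrm a ≠ 0 := fun h => by
  have := IBIR_unit ha
  simp [h] at this

theorem IBIR_eval {f : P m} {d : ℕ} (hf : f.IsHomogeneous d) (v : Fin m → ℂ) (t : ℂ) :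
    eval (t • v) f = t ^ d * eval v f := by
  rw [hz_eval_smul (mem_hz_nat.2 hf), zpow_natCast]

theorem IBIR_onc {k : ℕ} {Q : PD m k c r} {a b : Fin m → ℂ} (h : IBIR_pr a b) (ha : a ≠ 0)
    (hb : Q.OnC b) : Q.OnC a := by
  obtain ⟨t, rfl⟩ := h
  exact ⟨ha, fun j => by rw [IBIR_eval (Q.Fh j), hb.2 j, mul_zero]⟩

theorem IBIR_off {k : ℕ} {Q : PD m k c r} {Pts : Finset (Fin k → ℂ)} {a b : Fin m → ℂ}
    (h : IBIR_pr a b) (ha : Q.Off Pts a) : Q.Off Pts b := by
  obtain ⟨t, rfl⟩ := h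
  intro u hu s e
  refine ha u hu (t * s) ?_
  rw [← smul_smul, ← e]
  rfl

theorem IBIR_rg {k : ℕ} {Q : PD m k c r} {W : (Fin m → ℂ) → Prop} {π : (Fin m → ℂ) → Fin N → ℂ}
    (h : Q.Rg W π) {a b : Fin m → ℂ} (e : IBIR_pr b a) (ha : Q.OnC a) (ha' : W a) (hb : Q.OnC b)
    (hb' : W b) : IBIR_pr (π a) (π b) := by
  obtain ⟨d, q, h1, h2, h3⟩ := h a ha ha'
  refine IBIR_trans (IBIR_symm (h3 a ha ha') h2) (IBIR_trans ?_ (h3 b hb hb'))
  obtain ⟨t, ht⟩ := IBIR_symm e hb.1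
  exact ⟨t ^ d, funext fun l => by rw [ht, IBIR_eval (h1 l), Pi.smul_apply, smul_eq_mul]⟩

theorem IBIR_ratio {a b : Fin m → ℂ} (h : IBIR_pr a b) (ha : a ≠ 0) (i j : Fin m) :
    a j / a i = b j / b i := by
  obtain ⟨t, h⟩ := h
  have := IBIR_ne h ha
  rw [h]
  exact mul_div_mul_left _ _ this

theorem IBIR_hm {X : Type} [TopologicalSpace X] [Mf n X] {x : X → Fin m → ℂ} {p : X}
    (h : PMAt x p) {i : Fin m} (h0 : x p i ≠ 0) : HMap (fun y j => x y j / x y i : X → E m) p :=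
  hmap_iff_holAt.2 fun j => h.hol i j h0

theorem IBIR_open {X : Type} [TopologicalSpace X] [Mf n X] {x : X → Fin m → ℂ} {p : X}
    (h : PMAt x p) {k : ℕ} {Q : PD m k c r} {Pts : Finset (Fin k → ℂ)} (ho : Q.Off Pts (x p)) :
    ∀ᶠ y in 𝓝 p, Q.Off Pts (x y) := by
  obtain ⟨i, hi⟩ := Function.ne_iff.1 h.ne_zero
  refine (Finset.eventually_all Pts).2 fun u hu => ?_
  have h1 : ContinuousAt (fun y j => x y (Q.yi j) * conj (x y i)) p :=
    continuousAt_pi.2 fun j => h.continuousAt_mul_conj _ _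
  have h2 : (fun j => x p (Q.yi j) * conj (x p i)) ∈ ((ℂ ∙ u : Submodule ℂ _) : Set _)ᶜ := by
    intro e
    obtain ⟨t, ht⟩ := Submodule.mem_span_singleton.1 e
    have h3 : conj (x p i) ≠ 0 := (map_ne_zero _).2 hi
    refine ho u hu ((conj (x p i))⁻¹ * t) (funext fun j => ?_)
    rw [← smul_smul, ht, Pi.smul_apply, smul_eq_mul]
    field_simp
  filter_upwards [h1.preimage_mem_nhds
    ((Submodule.closed_of_finiteDimensional _).isOpen_compl.mem_nhds h2)] with y hy t e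
  refine hy (Submodule.mem_span_singleton.2 ⟨conj (x y i) * t, funext fun j => ?_⟩)
  have := congrFun e j
  simp only [Pi.smul_apply, smul_eq_mul] at this ⊢
  rw [this]
  ring

theorem IBIR_div {u v : E m → ℂ} {z : E m} (hu : DifferentiableAt ℂ u z)
    (hv : DifferentiableAt ℂ v z) (h : v z ≠ 0) : DifferentiableAt ℂ (fun w => u w / v w) z := by
  simp only [div_eq_mul_inv]
  exact hu.mul (hv.inv h)

/-- If an immersion is given by forms in `x`, then `x` is an immersion. -/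
theorem IBIR_imm {X : Type} [TopologicalSpace X] [Mf n X] {x : X → Fin m → ℂ} {ξ : X → Fin N → ℂ}
    {p : X} (hx : PMAt x p) (hξ : PMAt ξ p) (hi : Imm ξ p) {d : ℕ} {q : Fin N → P m}
    (hq : ∀ a, (q a).IsHomogeneous d) (h0 : (fun a => eval (x p) (q a)) ≠ 0)
    (e : ∀ᶠ y in 𝓝 p, IBIR_pr (fun a => eval (x y) (q a)) (ξ y)) : Imm x p := by
  obtain ⟨i, h1⟩ := Function.ne_iff.1 hx.ne_zero
  obtain ⟨a, h2⟩ := Function.ne_iff.1 h0
  have h3 : ξ p a ≠ 0 := fun h => by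
    obtain ⟨t, ht⟩ := e.self_of_nhds
    exact h2 ((congrFun ht a).trans (by rw [Pi.smul_apply, h, smul_zero]; rfl))
  have hu := IBIR_hm hx h1
  have hev : ∀ y b, eval (fun j => x y j / x y i) (q b) = (x y i)⁻¹ ^ d * eval (x y) (q b) := by
    intro y b
    rw [← IBIR_eval (hq b)]
    exact congrArg (fun v => eval v (q b)) (funext fun j => div_eq_inv_mul _ _)
  have hd : ∀ b, Differentiable ℂ fun z : E m => eval z (q b) := fun b z =>
    (AnalyticOnNhd.eval_mvPolynomial (q b) z (mem_univ z)).differentiableAt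
  have h4 : ∀ᶠ z in 𝓝 (fun j => x p j / x p i : E m), eval z (q a) ≠ 0 :=
    (hd a).continuous.continuousAt.eventually_ne (by
      rw [hev]
      exact mul_ne_zero (pow_ne_zero _ (inv_ne_zero h1)) h2)
  have hR : HMap (fun (z : E m) b => eval z (q b) / eval z (q a) : E m → E N)
      (fun j => x p j / x p i) :=
    hmap_E.2 (h4.mono fun z hz => differentiableAt_pi.2 fun b =>
      IBIR_div (u := fun z => eval z (q b)) (v := fun z => eval z (q a)) (hd b z) (hd a z) hz)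
  have h5 : (fun y b => ξ y b / ξ y a : X → E N) =ᶠ[𝓝 p]
      (fun (z : E m) b => eval z (q b) / eval z (q a) : E m → E N) ∘
        (fun y j => x y j / x y i : X → E m) := by
    filter_upwards [e, hu.continuousAt.eventually h4] with y h6 h7
    rw [hev] at h7
    funext b
    rw [Function.comp_apply, hev, hev, mul_div_mul_left _ _ (left_ne_zero_of_mul h7)]
    exact (IBIR_ratio h6 (Function.ne_iff.2 ⟨a, right_ne_zero_of_mul h7⟩) a b).symm
  have h8 := (MF4c_imm hξ h3).1 hi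
  rw [df_congr h5, df_comp (f := (fun y j => x y j / x y i : X → E m)) hR hu,
    ContinuousLinearMap.coe_comp] at h8
  exact (MF4c_imm hx h1).2 h8.of_comp

/-- Finitely many tuples suffice. -/
theorem IBIR_fin (T : Set (ℕ × (Fin N → P m))) : ∃ (k : ℕ) (τ : Fin k → ℕ × (Fin N → P m)),
    (∀ i, τ i ∈ T) ∧ ∀ v : Fin m → ℂ, (∃ t ∈ T, (fun a => eval v (t.2 a)) ≠ 0) →
      ∃ i, (fun a => eval v ((τ i).2 a)) ≠ 0 := by
  obtain ⟨s, h1, h2⟩ := (Submodule.fg_span_iff_fg_span_finset_subset (R := P m)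
    {f : P m | ∃ t ∈ T, ∃ a, t.2 a = f}).1 (IsNoetherian.noetherian _)
  choose τ h3 a h4 using fun f : s => h1 f.2
  refine ⟨s.card, fun i => τ (s.equivFin.symm i), fun i => h3 _, ?_⟩
  rintro v ⟨t, ht, h0⟩
  by_contra h
  push Not at h
  refine h0 (funext fun b => ?_)
  have h5 : Submodule.span (P m) (s : Set (P m)) ≤ RingHom.ker (eval v) := by
    refine Submodule.span_le.2 fun f hf => ?_
    have := congrFun (h (s.equivFin ⟨f, hf⟩)) (a ⟨f, hf⟩)
    simp only [Equiv.symm_apply_apply, h4] at this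
    exact this
  exact h5 (h2 ▸ Submodule.subset_span ⟨t, ht, b, rfl⟩)

/-- Put `x p = nrm (π (ξ p))`. It is a projective map by `pmAt_of_sec` and `PMAt.of_prop`; it is an
immersion on the open set since `ξ` is locally proportional to `q (x)` (`Dx_affine`, `dd_ratio`,
`dp_ev`). Finitely many tuples suffice: the ideals generated by their entries are finitely
generated. -/
theorem exists_st {X : Type} [TopologicalSpace X] [Mf 3 X] {Q' : PD N 4 c' r'} {Q : PD m 4 c r}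
    {Pts : Finset (Fin 4 → ℂ)} {π : (Fin N → ℂ) → Fin m → ℂ} {ϱ : (Fin m → ℂ) → Fin N → ℂ}
    {ξ : X → Fin N → ℂ} (hF : FD Q' ∅ ξ) (hd : ∀ i, Q'.b.dg i ≤ 3) (hN : Num Q) (hS : Q.Sm0 Pts)
    (hB : Bir Q' Q Pts π ϱ) :
    ∃ x : X → Fin m → ℂ, St Q' ξ Q Pts x ∧ ∀ p, ∃ t : ℂ, x p = t • π (ξ p) := by
  have o1 : ∀ p, Q.OnC (π (ξ p)) := fun p => hB.onc _ (hF.onc p)
  have o2 : ∀ p, Q.OnC (nrm (π (ξ p))) := fun p =>
    IBIR_onc (IBIR_nrm _) (IBIR_nrm_ne (o1 p).1) (o1 p)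
  have o3 : ∀ v, Q'.Off ∅ v := fun v u hu => (Finset.notMem_empty u hu).elim
  have pm : ∀ p, PMAt (fun y => nrm (π (ξ y))) p := fun p => by
    obtain ⟨d, q, h1, h2, h3⟩ := hB.reg _ (hF.onc p) trivial
    have h4 := (pmAt_of_sec (v := fun y l => eval (ξ y) (q l)) ((hF.pm p).gok_zpow d)
      (fun l => (hF.pm p).holAt_ev' (h1 l)) h2).1
    refine h4.of_prop (Eventually.of_forall fun y => IBIR_unit (o1 y).1) ?_
    filter_upwards [h4.eventually] with y hy
    exact IBIR_trans (IBIR_nrm _)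
      (IBIR_symm (IBIR_trans (IBIR_nrm _) (h3 _ (hF.onc y) trivial)) hy.ne_zero)
  have key : ∀ p, Q.Off Pts (nrm (π (ξ p))) → IBIR_pr (ϱ (nrm (π (ξ p)))) (ξ p) := fun p h => by
    have h1 := IBIR_off (IBIR_nrm _) h
    exact IBIR_trans (IBIR_rg hB.reg' (IBIR_symm (IBIR_nrm _) (o2 p).1) (o2 p) h (o1 p) h1)
      (hB.left _ (hF.onc p) h1)
  refine ⟨fun y => nrm (π (ξ y)), ⟨hF, hd, ⟨hF.cpt, pm, o2, hS, fun p h => ?_,
    fun p p' h e => ?_, fun v hv h => ?_⟩, hN, ?_⟩, fun p => IBIR_nrm _⟩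
  · obtain ⟨d, q, h1, h2, h3⟩ := hB.reg' _ (o2 p) h
    refine IBIR_imm (pm p) (hF.pm p) (hF.imm p (o3 _)) h1 h2 ?_
    filter_upwards [IBIR_open (pm p) h] with y hy
    exact IBIR_trans (h3 _ (o2 y) hy) (key y hy)
  · have e' := IBIR_symm e (o2 p').1
    have h' := IBIR_off e' h
    exact hF.inj p p' (o3 _) (IBIR_trans (IBIR_symm (key p' h') (hB.onc' _ (o2 p') h').1)
      (IBIR_trans (IBIR_rg hB.reg' e' (o2 p') h' (o2 p) h) (key p h)))
  · have h1 := hB.onc' v hv h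
    obtain ⟨p, hp⟩ := hF.surj _ h1 (o3 _)
    exact ⟨p, IBIR_trans (IBIR_nrm _) (IBIR_trans (IBIR_rg hB.reg (IBIR_symm hp (hF.onc p).1)
      (hF.onc p) trivial h1 trivial) (hB.right v hv h))⟩
  · obtain ⟨k, τ, h1, h2⟩ := IBIR_fin {t : ℕ × (Fin N → P m) | (∀ a, (t.2 a).IsHomogeneous t.1) ∧
      ∀ w, Q.OnC w → Q.Off Pts w → IBIR_pr (fun a => eval w (t.2 a)) (ϱ w)}
    refine ⟨k, fun i => (τ i).1, fun i => (τ i).2, fun i => (h1 i).1, fun p hp => ?_,
      fun i p hp => IBIR_trans ((h1 i).2 _ (o2 p) hp) (key p hp)⟩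
    obtain ⟨d, q, h3, h4, h5⟩ := hB.reg' _ (o2 p) hp
    exact h2 _ ⟨(d, q), ⟨h3, h5⟩, h4⟩

end

end Pool.Agent.MP_1c689d_ag.K0

end

section

/-! Definitions: the trace formula, frames, descent of equivariant forms. -/

set_option autoImplicit false

open Complex Filter Topology Set MeasureTheory MvPolynomial
open scoped ComplexConjugate ContDiff ENNReal

namespace Pool.Agent.MP_1c689d_ag.K0.Fd

noncomputable section

section Alg

variable {m k c r : ℕ} (Q : PD m k c r)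

/-- The `y` coordinates of a point. -/
def yv (v : Fin m → ℂ) : Fin k → ℂ := fun i => v (Q.yi i)

/-- The Jacobian determinant of the projection. -/
def Dl (A : Fin c → Fin r) : P m := Q.jd A fun i => ue (Q.yi i)

/-- Its degree. -/
def dA (A : Fin c → Fin r) : ℕ := ∑ a, (Q.dF (A a) - 1)

/-- The ideal of the fibre over `z`. -/
def Jv (z : Fin k → ℂ) : Ideal (P m) :=
  Q.I ⊔ Ideal.span (range fun i => (X (Q.yi i) : P m) - C (z i))

open Classical in
/-- The dual basis. -/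
def du (i : Q.b.ι) : Q.Om := (Q.exists_om (Pi.single i 1)).choose

open Classical in
theorem val_du (i j : Q.b.ι) : Q.val (du Q i) (Q.e j) = if j = i then 1 else 0 := by
  rw [du, (Q.exists_om (Pi.single i 1)).choose_spec j, Pi.single_apply]

theorem du_mem (i : Q.b.ι) : du Q i ∈ Q.og (k - Q.b.dg i) := by
  classical
  refine (Q.mem_og_iff _ _).2 fun j => ?_
  rw [val_du]
  split_ifs with h
  · subst h
    rw [sub_self]
    exact (mem_hz_nat (i := 0)).2 (isHomogeneous_one _ _)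
  · exact zero_mem _

theorem val_du_cd (i : Q.b.ι) (f : P m) : Q.val (du Q i) f = Q.cd f i := by
  classical
  rw [Q.val_eq_sum]
  simp [val_du]

theorem eq_sum_du (t : Q.Om) :
    t = ∑ i, (rename Q.yi (Q.val t (Q.e i)) : P m) • du Q i := by
  classical
  refine Q.AFB_oco_bij.1 (funext fun j => ?_)
  rw [map_sum, Finset.sum_apply]
  change Q.val t (Q.e j) =
    ∑ i, Q.val ((rename Q.yi (Q.val t (Q.e i)) : P m) • du Q i) (Q.e j)
  simp [Q.val_y, val_du]

/-- The maps given by the determinant of divided differences. -/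
structure Tate0 (ι : (Fin c → Fin r) → Q.Om →ₗ[ℂ] P m) : Prop where
  lin : ∀ A (f : P m) t, ι A (f • t) - f * ι A t ∈ Q.I
  deg : ∀ A j, ∀ t ∈ Q.og j, ι A t ∈ hz m (dA Q A + j - k)
  eps : ∀ A v, Q.OnC v → ∃ ε : P m, eval v ε = eval v (Dl Q A) ∧
    (∀ f : P m, ε * (f - C (eval v f)) ∈ Jv Q (yv Q v)) ∧
    ∀ t, eval v (ι A t) = eval (yv Q v) (Q.val t ε)

open Classical in
/-- The trace formula. -/
structure Tate (ι : (Fin c → Fin r) → Q.Om →ₗ[ℂ] P m) : Prop where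
  lin : ∀ A (f : P m) t, ι A (f • t) - f * ι A t ∈ Q.I
  deg : ∀ A j, ∀ t ∈ Q.og j, ι A t ∈ hz m (dA Q A + j - k)
  sym : ∀ A A' t v, Q.OnC v →
    eval v (ι A t) * eval v (Dl Q A') = eval v (ι A' t) * eval v (Dl Q A)
  one : ∀ A v v', Q.OnC v → Q.OnC v' → yv Q v' = yv Q v →
    ∑ i, eval v (ι A (du Q i)) * eval v' (Q.e i) = if v' = v then eval v (Dl Q A) else 0
  two : ∀ z, z ≠ 0 → ∀ S : Finset (Fin m → ℂ), (∀ v, v ∈ S ↔ Q.OnC v ∧ yv Q v = z) →
    ∀ t (g : (Fin m → ℂ) → ℂ),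
    (∀ v ∈ S, ∃ A, eval v (Dl Q A) ≠ 0 ∧ eval v (ι A t) = g v * eval v (Dl Q A)) →
    ∀ f : P m, eval z (Q.val t f) = ∑ v ∈ S, eval v f * g v

end Alg

variable {n m c r N : ℕ} {X : Type} [TopologicalSpace X] [Mf n X]

/-- The coordinates `y` of the unit lift. -/
def Yv (x : X → Fin m → ℂ) (y : Fin N → Fin m) (p : X) : E N := fun i => x p (y i)

theorem cov_of_Tp {a : Λ n} (h : a ∈ Tp n 1 0) :
    ∃ u : E n →L[ℂ] ℂ, io (u.restrictScalars ℝ) = a := by
  obtain ⟨v, rfl⟩ := mem_Dg1.1 (Tp_le_Dg (p := 1) (q := 0) h)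
  obtain ⟨u, rfl⟩ := io_mem_Tp10.1 h
  exact ⟨u, rfl⟩

theorem exists_cov (x : X → Fin m → ℂ) (l : Fin m) (p : X) :
    ∃ u : E n →L[ℂ] ℂ, io (u.restrictScalars ℝ) = (Dx x l : Fm n X) p :=
  cov_of_Tp (Dx_Ty l p)

/-- The covariant derivative of `Yv`. -/
def Hl (x : X → Fin m → ℂ) (y : Fin N → Fin m) (p : X) : E n →L[ℂ] E N :=
  ContinuousLinearMap.pi fun i => (exists_cov x (y i) p).choose

/-- The descent of an equivariant form. -/
def Ds (x : X → Fin m → ℂ) (y : Fin N → Fin m) (γ : E N → Λ N) : Fm n X := fun p =>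
  lm ((Hl x y p).restrictScalars ℝ) (γ (Yv x y p))

/-- The affine coordinates of the projection. -/
def ua (x : X → Fin m → ℂ) (y : Fin (n + 1) → Fin m) (k : Fin (n + 1)) (p : X) : E n :=
  aff k (Yv x y p)

/-- The projection of the cone has finite fibres. -/
structure FE (Q : PD m (n + 1) c r) (Pts : Finset (Fin (n + 1) → ℂ)) (x : X → Fin m → ℂ) :
    Prop where
  fd : FD Q Pts x
  fin : ∀ z, {v | Q.OnC v ∧ yv Q v = z}.Finite

/-- Points over which the projection is unramified. -/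
structure Gz (Q : PD m (n + 1) c r) (Pts : Finset (Fin (n + 1) → ℂ)) (x : X → Fin m → ℂ)
    (z : E (n + 1)) : Prop where
  ne : z ≠ 0
  off : OffY Pts z
  unr : ∀ p, Yv x Q.yi p ∈ Ry z → (Wk x Q.yi p : Λ n) ≠ 0

/-- The realisation of the dualising module by forms. -/
structure RX (Q : PD m (n + 1) c r) (Pts : Finset (Fin (n + 1) → ℂ)) (x : X → Fin m → ℂ) where
  ι : (Fin c → Fin r) → Q.Om →ₗ[ℂ] P m
  tate : Tate Q ι
  rl : Q.Om →ₗ[ℂ] Fm n X
  ty : ∀ t, Ty n 0 (rl t)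
  smul : ∀ h t, rl (h • t) = ev x h • rl t
  hol : ∀ (j : ℤ), ∀ t ∈ Q.og j, ∀ p ∈ Q.O Pts x, HFm (gx x ^ j) (rl t) p
  key : ∀ (j : ℤ), ∀ t ∈ Q.og j, ∀ p ∈ Q.O Pts x, ∀ A (l : Fin (n + 1) → Fin m),
    eval (x p) (ι A t) • (Wk x l p : Λ n) = eval (x p) (Q.jd A fun i => ue (l i)) • rl t p

open Classical in
/-- A pair of families that are dual for the trace. -/
structure DP (Q : PD m (n + 1) c r) (Pts : Finset (Fin (n + 1) → ℂ)) (x : X → Fin m → ℂ)
    (a a' : ℕ) (e : Q.b.ι → ℤ) (ρ σ : Q.b.ι → Fm n X) : Prop where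
  add : a + a' = n
  ty : ∀ i, Ty a 0 (ρ i)
  ty' : ∀ i, Ty a' 0 (σ i)
  hol : ∀ i, ∀ p ∈ Q.O Pts x, HFm (gx x ^ e i) (ρ i) p
  hol' : ∀ i, ∀ p ∈ Q.O Pts x, HFm (gx x ^ ((n + 1 : ℕ) - e i)) (σ i) p
  one : ∀ p ∈ Q.O Pts x, ∀ p' ∈ Q.O Pts x, (Wk x Q.yi p' : Λ n) ≠ 0 → ∀ τ : ℂ,
    Yv x Q.yi p' = τ • Yv x Q.yi p → ∀ μ ∈ Tp n a 0, ∀ s : Q.b.ι → ℂ,
    (∀ i, μ * σ i p' = s i • Wk x Q.yi p') →
    ∑ i, (s i * τ ^ e i) • ρ i p = if p' = p then μ else 0
  two : ∀ z, Gz Q Pts x z → ∀ (S : Finset X) (τ : X → ℂ), (∀ p, p ∈ S ↔ Yv x Q.yi p ∈ Ry z) →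
    (∀ p ∈ S, z = τ p • Yv x Q.yi p) → ∀ i i' (s : X → ℂ),
    (∀ p ∈ S, ρ i p * σ i' p = s p • Wk x Q.yi p) →
    ∑ p ∈ S, τ p ^ (e i - e i') * s p = if i = i' then 1 else 0

/-- A frame of the direct image of the sheaf of holomorphic `a`-forms. -/
structure Fr (Q : PD m (n + 1) c r) (Pts : Finset (Fin (n + 1) → ℂ)) (x : X → Fin m → ℂ)
    (a : ℕ) (e : Q.b.ι → ℤ) (ρ : Q.b.ι → Fm n X) : Prop where
  ty : ∀ i, Ty a 0 (ρ i)
  hol : ∀ i, ∀ p ∈ Q.O Pts x, HFm (gx x ^ e i) (ρ i) p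
  inj : ∀ (k : ℤ) (U : Set (E (n + 1))) (b : Q.b.ι → E (n + 1) → ℂ), Cn U →
    (∀ i, Hm (k - e i) U (b i)) →
    (∀ p ∈ Q.O Pts x, Yv x Q.yi p ∈ U → ∑ i, b i (Yv x Q.yi p) • ρ i p = 0) →
    ∀ i, ∀ z ∈ U, b i z = 0
  surj : ∀ (k : ℤ) (z₀ : E (n + 1)), z₀ ≠ 0 → OffY Pts z₀ → ∀ α : Fm n X,
    (∀ p, Yv x Q.yi p ∈ Ry z₀ → HFm (gx x ^ k) α p ∧ ∀ᶠ y in 𝓝 p, α y ∈ Tp n a 0) →
    ∃ (U : Set (E (n + 1))) (b : Q.b.ι → E (n + 1) → ℂ), Cn U ∧ z₀ ∈ U ∧
      (∀ i, Hm (k - e i) U (b i)) ∧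
      ∀ p, Yv x Q.yi p ∈ U → α p = ∑ i, b i (Yv x Q.yi p) • ρ i p

/-- The comparison map. -/
def uu (Q : PD m (n + 1) c r) (x : X → Fin m → ℂ) (ρ : Q.b.ι → Fm n X)
    (b : Q.b.ι → E (n + 1) → Λ (n + 1)) : Fm n X :=
  ∑ i, Ds x Q.yi (b i) * ρ i

/-- Every closed form is cohomologous to one that comes from projective space. -/
def LFP (Q : PD m (n + 1) c r) (Pts : Finset (Fin (n + 1) → ℂ)) (x : X → Fin m → ℂ)
    (a : ℕ) (e : Q.b.ι → ℤ) (ρ : Q.b.ι → Fm n X) : Prop :=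
  ∀ (k : ℤ) (q : ℕ) (s₁ s₂ : ℝ) (T : Set (E (n + 1))), 0 < s₁ →
    (∀ p, Yv x Q.yi p ∈ Sh (n + 1) s₁ s₂) → IsCompact T → T ⊆ Sh (n + 1) s₁ s₂ →
    (∀ z ∈ T, Ry z ∩ Sh (n + 1) s₁ s₂ ⊆ T) → (∀ z ∈ T, OffY Pts z) → ∀ α : Fm n X,
    (∀ p, Yv x Q.yi p ∈ T → SmAt (gx x ^ k) α p ∧
      ∀ᶠ y in 𝓝 p, α y ∈ Tp n a (q + 1) ∧ dbar (gx x ^ k) α y = 0) →
    ∃ (b : Q.b.ι → E (n + 1) → Λ (n + 1)) (β : Fm n X),
      (∀ i, ∀ᶠ z in 𝓝ˢ T, Gd (k - e i) (q + 1) (b i) z ∧ dbE (b i) z = 0) ∧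
      ∀ p, Yv x Q.yi p ∈ T → SmAt (gx x ^ k) β p ∧
        ∀ᶠ y in 𝓝 p, β y ∈ Tp n a q ∧ α y = uu Q x ρ b y + dbar (gx x ^ k) β y

/-- The Dolbeault group `H^{a, q+1}` has dimension at most `d`. -/
def TB (n : ℕ) [Mf n X] (G : Ga X) (a q d : ℕ) : Prop :=
  ∀ (σ : Type) [Fintype σ] (α : σ → Fm n X), d < Fintype.card σ →
    (∀ s, Sm G (α s) univ ∧ Ty a (q + 1) (α s)) →
    ∃ (w : σ → ℂ) (β : Fm n X), w ≠ 0 ∧ Sm G β univ ∧ Ty a q β ∧ dbar G β = ∑ s, w s • α s

/-- The cochains of the mapping cone. -/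
abbrev Ck (Q : PD m (n + 1) c r) (X : Type) : Type :=
  (Q.b.ι → E (n + 1) → Λ (n + 1)) × Fm n X

/-- The type of the second component. -/
def Tq (n a : ℕ) : ℕ → Submodule ℂ (Λ n)
  | 0 => ⊥
  | q + 1 => Tp n a q

/-- Cochains of degree `q` near the fibre. -/
def cok (Q : PD m (n + 1) c r) (x : X → Fin m → ℂ) (a : ℕ) (e : Q.b.ι → ℤ) (k : ℤ) (s₁ s₂ : ℝ)
    (q : ℕ) (w : Ck Q X) (y : Fin (n + 1) → Fin (n + 1) → ℂ) : Prop :=
  (∀ z ∈ Sh (n + 1) s₁ s₂, pm z = y → ∀ᶠ z' in 𝓝 z, ∀ i, Gd (k - e i) q (w.1 i) z') ∧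
    ∀ p, pm (Yv x Q.yi p) = y → SmAt (gx x ^ k) w.2 p ∧ ∀ᶠ p' in 𝓝 p, w.2 p' ∈ Tq n a q

/-- Cochains that vanish near the fibre. -/
def czr (Q : PD m (n + 1) c r) (x : X → Fin m → ℂ) (s₁ s₂ : ℝ) (w : Ck Q X)
    (y : Fin (n + 1) → Fin (n + 1) → ℂ) : Prop :=
  (∀ z ∈ Sh (n + 1) s₁ s₂, pm z = y → ∀ᶠ z' in 𝓝 z, ∀ i, w.1 i z' = 0) ∧
    ∀ p, pm (Yv x Q.yi p) = y → ∀ᶠ p' in 𝓝 p, w.2 p' = 0

/-- The differential of the mapping cone. -/
def cD (Q : PD m (n + 1) c r) (x : X → Fin m → ℂ) (ρ : Q.b.ι → Fm n X) (k : ℤ) (w : Ck Q X) :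
    Ck Q X :=
  (fun i => dbE (w.1 i), uu Q x ρ w.1 - dbar (gx x ^ k) w.2)

/-- The good projections. -/
def cS (Pts : Finset (E N)) : Set (Fin N → Fin N → ℂ) :=
  {y | ∀ z, z ≠ 0 → pm z = y → OffY Pts z}

variable {Q : PD m (n + 1) c r} {Pts : Finset (Fin (n + 1) → ℂ)} {x : X → Fin m → ℂ}

omit [TopologicalSpace X] [Mf n X] in
theorem mem_O {p : X} : p ∈ Q.O Pts x ↔ OffY Pts (Yv x Q.yi p) := Iff.rfl

theorem Yv_ne (h : FD Q Pts x) (p : X) : Yv x Q.yi p ≠ 0 := Q.y_ne (h.onc p)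

theorem hl_dz (y : Fin N → Fin m) (p : X) (i : Fin N) :
    lm ((Hl x y p).restrictScalars ℝ) (dz i) = (Dx x (y i) p : Λ n) := by
  rw [dz, lm_io, ← (exists_cov x (y i) p).choose_spec]
  rfl

theorem hl_dzb (y : Fin N → Fin m) (p : X) (i : Fin N) :
    lm ((Hl x y p).restrictScalars ℝ) (dzb i) = cj (Dx x (y i) p : Λ n) := by
  rw [← cj_dz, lm_cj, hl_dz]

theorem ds_Tp {y : Fin N → Fin m} {γ : E N → Λ N} {p : X} {a q : ℕ}
    (h : γ (Yv x y p) ∈ Tp N a q) : (Ds x y γ p : Λ n) ∈ Tp n a q :=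
  lm_Tp _ h

end

end Pool.Agent.MP_1c689d_ag.K0.Fd

end

section

/-! Divided differences. -/

set_option autoImplicit false

open Complex Filter Topology Set MeasureTheory MvPolynomial
open scoped ComplexConjugate ContDiff ENNReal

namespace Pool.Agent.MP_1c689d_ag.K0.Fd

noncomputable section

variable {m k c r : ℕ}

theorem TA0_dd (d : ℕ) : ∀ f : P m, f.IsHomogeneous d →
    ∃ H : Fin m → MvPolynomial (Fin m ⊕ Fin m) ℂ,
      (∀ l, (H l).IsHomogeneous (d - 1) ∧ ∀ j, (X j * H l).IsHomogeneous d) ∧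
      rename Sum.inl f - rename Sum.inr f = ∑ l, H l * (X (Sum.inl l) - X (Sum.inr l)) ∧
      ∀ l (v : Fin m → ℂ), eval (Sum.elim v v) (H l) = eval v (pderiv l f) := by
  induction d with
  | zero =>
    intro f hf
    rw [totalDegree_eq_zero_iff_eq_C.1 ((totalDegree_zero_iff_isHomogeneous _).2 hf)]
    refine ⟨0, fun l => ⟨isHomogeneous_zero _ _ _, fun j => ?_⟩, ?_, fun l v => ?_⟩
    · rw [Pi.zero_apply, mul_zero]
      exact isHomogeneous_zero _ _ _
    · simp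
    · simp
  | succ d ih =>
    intro f hf
    obtain ⟨g, hg, e⟩ : ∃ g : Fin m → P m, (∀ l, (g l).IsHomogeneous d) ∧
        f = ∑ l, X l * g l := by
      refine ⟨fun l => C (((d + 1 : ℕ) : ℂ)⁻¹) * pderiv l f, fun l => ?_, ?_⟩
      · exact (hf.pderiv (i := l)).C_mul _
      · have h1 : ((d + 1 : ℕ) : ℂ) ≠ 0 := Nat.cast_ne_zero.2 (Nat.succ_ne_zero d)
        simp only [mul_left_comm _ (C _)]
        rw [← Finset.mul_sum, hf.sum_X_mul_pderiv, nsmul_eq_mul, ← mul_assoc, ← map_natCast C,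
          ← C_mul, inv_mul_cancel₀ h1, C_1, one_mul]
    choose H h1 h2 h3 using fun l => ih (g l) (hg l)
    have hH : ∀ l, (rename Sum.inl (g l) + ∑ l', X (Sum.inr l') * H l' l :
        MvPolynomial (Fin m ⊕ Fin m) ℂ).IsHomogeneous d := fun l =>
      (hg l).rename_isHomogeneous.add (IsHomogeneous.sum _ _ _ fun l' _ => (h1 l' l).2 _)
    refine ⟨fun l => rename Sum.inl (g l) + ∑ l', X (Sum.inr l') * H l' l,
      fun l => ⟨hH l, fun j => ?_⟩, ?_, fun l v => ?_⟩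
    · rw [add_comm d 1]
      exact (isHomogeneous_X ℂ j).mul (hH l)
    · simp only [add_mul, Finset.sum_add_distrib, Finset.sum_mul]
      rw [Finset.sum_comm, e, map_sum, map_sum, ← Finset.sum_sub_distrib, ← Finset.sum_add_distrib]
      refine Finset.sum_congr rfl fun l _ => ?_
      simp only [mul_assoc]
      rw [← Finset.mul_sum, ← h2 l, map_mul, map_mul, rename_X, rename_X]
      ring
    · have e1 : pderiv l f = g l + ∑ l', X l' * pderiv l (g l') := by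
        rw [e, map_sum]
        simp only [pderiv_mul, Finset.sum_add_distrib, pderiv_X, Pi.single_apply, ite_mul, one_mul,
          zero_mul, Finset.sum_ite_eq', Finset.mem_univ, if_true]
      rw [e1, map_add, map_add, map_sum, map_sum, eval_rename, Sum.elim_comp_inl]
      congr 1
      refine Finset.sum_congr rfl fun l' _ => ?_
      rw [map_mul, map_mul, eval_X, eval_X, Sum.elim_inr, h3]

/-- Induction over homogeneous polynomials (`IsHomogeneous` induction or monomials): for `X l * g`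
use `X l g - X' l g' = (X l - X' l) g + X' l (g - g')`. -/
theorem exists_dd {d : ℕ} {f : P m} (hf : f.IsHomogeneous d) :
    ∃ H : Fin m → MvPolynomial (Fin m ⊕ Fin m) ℂ, (∀ l, (H l).IsHomogeneous (d - 1)) ∧
      rename Sum.inl f - rename Sum.inr f = ∑ l, H l * (X (Sum.inl l) - X (Sum.inr l)) ∧
      ∀ l (v : Fin m → ℂ), eval (Sum.elim v v) (H l) = eval v (pderiv l f) := by
  obtain ⟨H, h1, h2, h3⟩ := TA0_dd d f hf
  exact ⟨H, fun l => (h1 l).1, h2, h3⟩

/-- `D` is the determinant of the matrix `M` with rows `H (A a)` and the unit vectors `yi i`, columns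
indexed through `Q.eqv` as in `PD.jd`; use `Matrix.adjugate_mul` on the vector `X - X'`, and compare
the proof of `PD.jd_mem` for the degree. -/
theorem exists_det (Q : PD m k c r) (A : Fin c → Fin r) :
    ∃ D : MvPolynomial (Fin m ⊕ Fin m) ℂ, D.IsHomogeneous (dA Q A) ∧
      (∀ v : Fin m → ℂ, eval (Sum.elim v v) D = eval v (Dl Q A)) ∧
      ∀ l, ∃ (u : Fin c → MvPolynomial (Fin m ⊕ Fin m) ℂ)
        (w : Fin k → MvPolynomial (Fin m ⊕ Fin m) ℂ), D * (X (Sum.inl l) - X (Sum.inr l)) =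
        ∑ a, u a * (rename Sum.inl (Q.F (A a)) - rename Sum.inr (Q.F (A a))) +
          ∑ i, w i * (X (Sum.inl (Q.yi i)) - X (Sum.inr (Q.yi i))) := by
  choose H h1 h2 h3 using fun a : Fin c => exists_dd (Q.Fh (A a))
  obtain ⟨M, hM⟩ : ∃ M : Matrix (Fin c ⊕ Fin k) (Fin c ⊕ Fin k) (MvPolynomial (Fin m ⊕ Fin m) ℂ),
      M = Matrix.of fun i j => Sum.elim H (fun i => Pi.single (Q.yi i) 1) i (Q.eqv j) := ⟨_, rfl⟩
  refine ⟨M.det, ?_, fun v => ?_, fun l => ?_⟩
  · rw [← Matrix.det_transpose, Matrix.det_apply]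
    refine IsHomogeneous.sum _ _ _ fun σ _ => ?_
    have h : (∏ i, M.transpose (σ i) i).IsHomogeneous
        (∑ i : Fin c ⊕ Fin k, Sum.elim (fun a => Q.dF (A a) - 1) (fun _ => 0) i) := by
      refine IsHomogeneous.prod _ _ _ fun i _ => ?_
      rw [hM, Matrix.transpose_apply, Matrix.of_apply]
      rcases i with a | i
      · exact h1 a _
      · rw [Sum.elim_inr, Sum.elim_inr, Pi.single_apply]
        split_ifs
        · exact isHomogeneous_one _ _
        · exact isHomogeneous_zero _ _ _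
    rw [Fintype.sum_sum_type] at h
    simp only [Sum.elim_inl, Sum.elim_inr, Finset.sum_const_zero, add_zero] at h
    rcases Int.units_eq_one_or (Equiv.Perm.sign σ) with e | e
    · rw [e, one_smul]; exact h
    · rw [e, Units.neg_smul, one_smul]; exact h.neg
  · rw [Dl, PD.jd, RingHom.map_det, RingHom.map_det]
    congr 1
    ext i j
    rw [hM]
    rcases i with a | i
    · exact h3 a _ v
    · simp [ue, Pi.single_apply, apply_ite]
  · obtain ⟨x, hx⟩ : ∃ x : Fin c ⊕ Fin k → MvPolynomial (Fin m ⊕ Fin m) ℂ,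
        x = fun j => X (Sum.inl (Q.eqv j)) - X (Sum.inr (Q.eqv j)) := ⟨_, rfl⟩
    have e1 : M.adjugate.mulVec (M.mulVec x) = M.det • x := by
      rw [Matrix.mulVec_mulVec, Matrix.adjugate_mul, Matrix.smul_mulVec, Matrix.one_mulVec]
    have e2 : ∀ i, M.mulVec x i = ∑ l, Sum.elim H (fun i => Pi.single (Q.yi i) 1) i l *
        (X (Sum.inl l) - X (Sum.inr l)) := fun i => by
      rw [← Q.eqv.sum_comp, hM, hx]
      rfl
    have e3 := congrFun e1 (Q.eqv.symm l)
    have e4 : x (Q.eqv.symm l) = X (Sum.inl l) - X (Sum.inr l) := by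
      simp only [hx, Equiv.apply_symm_apply]
    rw [Pi.smul_apply, smul_eq_mul, e4] at e3
    refine ⟨fun a => M.adjugate (Q.eqv.symm l) (Sum.inl a),
      fun i => M.adjugate (Q.eqv.symm l) (Sum.inr i), ?_⟩
    rw [← e3, Matrix.mulVec, dotProduct, Fintype.sum_sum_type]
    refine congrArg₂ (· + ·) ?_ ?_
    · exact Finset.sum_congr rfl fun a _ => by rw [e2, Sum.elim_inl, h2]
    · refine Finset.sum_congr rfl fun i _ => ?_
      rw [e2, Sum.elim_inr]
      simp only [Pi.single_apply, ite_mul, one_mul, zero_mul, Finset.sum_ite_eq', Finset.mem_univ,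
        if_true]

end

end Pool.Agent.MP_1c689d_ag.K0.Fd

end

section

/-! The maps of Tate. -/

set_option autoImplicit false

open Complex Filter Topology Set MeasureTheory MvPolynomial
open scoped ComplexConjugate ContDiff ENNReal

namespace Pool.Agent.MP_1c689d_ag.K0.Fd

noncomputable section

variable {m k c r : ℕ}

theorem TA1_tens (g h : P m) :
    tensorEquivSum ℂ (Fin m) (Fin m) ℂ (g ⊗ₜ h) = rename Sum.inl g * rename Sum.inr h := by
  have h1 : (tensorEquivSum ℂ (Fin m) (Fin m) ℂ).toAlgHom.comp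
      Algebra.TensorProduct.includeLeft = rename Sum.inl := by
    ext i
    simp
  have h2 : (tensorEquivSum ℂ (Fin m) (Fin m) ℂ).toAlgHom.comp
      Algebra.TensorProduct.includeRight = rename Sum.inr := by
    ext i
    simp
  rw [← h1, ← h2]
  change _ = tensorEquivSum ℂ (Fin m) (Fin m) ℂ (g ⊗ₜ 1) *
    tensorEquivSum ℂ (Fin m) (Fin m) ℂ (1 ⊗ₜ h)
  rw [← map_mul, Algebra.TensorProduct.tmul_mul_tmul, mul_one, one_mul]

theorem TA1_ind {p : MvPolynomial (Fin m ⊕ Fin m) ℂ → Prop}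
    (h1 : ∀ g h : P m, p (rename Sum.inl g * rename Sum.inr h))
    (h2 : ∀ x y, p x → p y → p (x + y)) (u : MvPolynomial (Fin m ⊕ Fin m) ℂ) : p u := by
  obtain ⟨u, rfl⟩ := (tensorEquivSum ℂ (Fin m) (Fin m) ℂ).surjective u
  induction u with
  | zero => simpa using h1 0 0
  | tmul g h => rw [TA1_tens]; exact h1 g h
  | add x y hx hy => rw [map_add]; exact h2 _ _ hx hy

theorem TA1_ext {W : Type} [AddCommGroup W] [Module ℂ W]
    {f f' : MvPolynomial (Fin m ⊕ Fin m) ℂ →ₗ[ℂ] W}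
    (h : ∀ g h : P m, f (rename Sum.inl g * rename Sum.inr h) =
      f' (rename Sum.inl g * rename Sum.inr h)) : f = f' :=
  LinearMap.ext (TA1_ind h fun x y hx hy => by rw [map_add, map_add, hx, hy])

theorem TA1_mem {D : MvPolynomial (Fin m ⊕ Fin m) ℂ} {K : Ideal (MvPolynomial (Fin m ⊕ Fin m) ℂ)}
    (h : ∀ l, D * (X (Sum.inl l) - X (Sum.inr l)) ∈ K) (f : P m) :
    D * (rename Sum.inl f - rename Sum.inr f) ∈ K := by
  induction f using MvPolynomial.induction_on with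
  | C a => simp
  | add p q hp hq =>
    convert K.add_mem hp hq using 1
    simp only [map_add]
    ring
  | mul_X p l hp =>
    convert K.add_mem (K.mul_mem_left (rename Sum.inl p) (h l))
      (K.mul_mem_left (X (Sum.inr l)) hp) using 1
    simp only [map_mul, rename_X]
    ring

theorem TA1_mono (s : Fin m ⊕ Fin m →₀ ℕ) (a : ℂ) : ∃ (g h : P m) (i j : ℕ),
    g.IsHomogeneous i ∧ h.IsHomogeneous j ∧ i + j = s.degree ∧
      monomial s a = rename Sum.inl g * rename Sum.inr h := by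
  obtain ⟨⟨s1, s2⟩, rfl⟩ := Finsupp.sumFinsuppEquivProdFinsupp.symm.surjective s
  have e : Finsupp.sumFinsuppEquivProdFinsupp.symm (s1, s2) =
      s1.mapDomain Sum.inl + s2.mapDomain Sum.inr := Finsupp.sumElim_eq_add s1 s2
  refine ⟨monomial s1 a, monomial s2 1, _, _, isHomogeneous_monomial _ rfl,
    isHomogeneous_monomial _ rfl, ?_, ?_⟩
  · rw [e, map_add, Finsupp.degree_mapDomain, Finsupp.degree_mapDomain]
  · rw [e, rename_monomial, rename_monomial, monomial_mul, mul_one]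

/-- Define `Φ t` on the monomial basis (`MvPolynomial.basisMonomials`, `Module.Basis.constr`), or
through `tensorEquivSum` and `TensorProduct.lift`. -/
theorem exists_phi (Q : PD m k c r) :
    ∃ Φ : Q.Om →ₗ[ℂ] MvPolynomial (Fin m ⊕ Fin m) ℂ →ₗ[ℂ] P m, ∀ t (g h : P m),
      Φ t (rename Sum.inl g * rename Sum.inr h) = g * rename Q.yi (Q.val t h) := by
  let φ : Q.Om → MvPolynomial (Fin m ⊕ Fin m) ℂ →ₗ[ℂ] P m := fun t =>
    TensorProduct.lift ((LinearMap.mul ℂ (P m)).compl₂ ((rename Q.yi).toLinearMap ∘ₗ Q.val t)) ∘ₗ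
      (tensorEquivSum ℂ (Fin m) (Fin m) ℂ).symm.toLinearMap
  have hφ : ∀ t (g h : P m),
      φ t (rename Sum.inl g * rename Sum.inr h) = g * rename Q.yi (Q.val t h) := by
    intro t g h
    simp [φ, ← TA1_tens]
  refine ⟨⟨⟨φ, fun s t => TA1_ext fun g h => ?_⟩, fun a t => TA1_ext fun g h => ?_⟩, hφ⟩
  · simp [hφ, mul_add]
  · simp [hφ]

/-- `ι A t = Φ t (D A)`. Every element of the polynomial ring in two sets of variables is a sum of
products `rename inl g * rename inr h`. Hence `Φ t (rename inl f * u) = f * Φ t u`,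
`Φ (f • t) u = Φ t (u * rename inr f)`, and `Φ t` maps the ideal `K` generated by `rename inl (F j)`,
`rename inr (F j)` and `X (inl (yi i)) - X (inr (yi i))` into `Q.I`; and
`D * (rename inl f - rename inr f) ∈ K` for all `f`. For `deg` expand `D` in monomials. For `eps` take
`ε = aeval (Sum.elim (fun l => C (v l)) X) D`; this substitution maps `K` into `Jv Q (yv Q v)`. -/
theorem exists_tate0 (Q : PD m k c r) : ∃ ι, Tate0 Q ι := by
  obtain ⟨Φ, hΦ⟩ := exists_phi Q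
  choose D hD hDv hDl using exists_det Q
  have hK : ∀ A (K : Ideal (MvPolynomial (Fin m ⊕ Fin m) ℂ)),
      (∀ j, rename Sum.inl (Q.F j) ∈ K) → (∀ j, rename Sum.inr (Q.F j) ∈ K) →
      (∀ i, X (Sum.inl (Q.yi i)) - X (Sum.inr (Q.yi i)) ∈ K) →
      ∀ f : P m, D A * (rename Sum.inl f - rename Sum.inr f) ∈ K := by
    intro A K h1 h2 h3
    refine TA1_mem fun l => ?_
    obtain ⟨u, w, h⟩ := hDl A l
    rw [h]
    exact K.add_mem (K.sum_mem fun a _ => K.mul_mem_left _ (K.sub_mem (h1 _) (h2 _)))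
      (K.sum_mem fun i _ => K.mul_mem_left _ (h3 i))
  have hL : ∀ t (f : P m) u, Φ t (u * rename Sum.inl f) = f * Φ t u := by
    intro t f u
    induction u using TA1_ind with
    | h1 g h => rw [mul_right_comm, ← map_mul, hΦ, hΦ]; ring
    | h2 x y hx hy => rw [add_mul, map_add, map_add, hx, hy, mul_add]
  have hR : ∀ t (f : P m) u, Φ t (u * rename Sum.inr f) = Φ (f • t) u := by
    intro t f u
    induction u using TA1_ind with
    | h1 g h => rw [mul_assoc, ← map_mul, hΦ, hΦ, Q.val_smul, mul_comm f]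
    | h2 x y hx hy => rw [add_mul, map_add, map_add, hx, hy]
  have hY : ∀ t i u, Φ ((X (Q.yi i) : P m) • t) u = X (Q.yi i) * Φ t u := by
    intro t i u
    induction u using TA1_ind with
    | h1 g h =>
      rw [hΦ, hΦ, Q.val_smul, ← rename_X Q.yi, Q.val_y, map_mul]
      ring
    | h2 x y hx hy => rw [map_add, map_add, hx, hy, mul_add]
  refine ⟨fun A => Φ.flip (D A), fun A f t => ?_, fun A j t ht => ?_, fun A v hv => ?_⟩
  · let K : Ideal (MvPolynomial (Fin m ⊕ Fin m) ℂ) :=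
      { carrier := {u | ∀ w, Φ t (w * u) ∈ Q.I}
        add_mem' := fun {a b} ha hb w => by
          rw [mul_add, map_add]; exact Q.I.add_mem (ha w) (hb w)
        zero_mem' := fun w => by rw [mul_zero, map_zero]; exact Q.I.zero_mem
        smul_mem' := fun a u hu w => by
          rw [smul_eq_mul, ← mul_assoc]; exact hu _ }
    have h := hK A K (fun j w => ?_) (fun j w => ?_) (fun i w => ?_) f 1
    · rw [one_mul, mul_sub, map_sub, hL, hR] at h
      simpa using Q.I.neg_mem h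
    · rw [hL]
      exact Q.I.mul_mem_right _ (Ideal.subset_span ⟨j, rfl⟩)
    · have h0 : Q.F j • t = 0 := Q.ext' fun g => by
        rw [Q.val_smul, Q.val_I t (Q.I.mul_mem_right _ (Ideal.subset_span ⟨j, rfl⟩))]
        rfl
      rw [hR, h0, map_zero]
      exact Q.I.zero_mem
    · rw [mul_sub, map_sub, ← rename_X Sum.inl, ← rename_X Sum.inr, hL, hR, hY, sub_self]
      exact Q.I.zero_mem
  · rw [LinearMap.flip_apply, (D A).as_sum, map_sum]
    refine Submodule.sum_mem _ fun s hs => ?_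
    have hd : s.degree = dA Q A := by
      by_contra h
      exact (mem_support_iff.1 hs) ((hD A).coeff_eq_zero h)
    obtain ⟨g, h, i, i', hg, hh, hi, e⟩ := TA1_mono s (coeff s (D A))
    rw [e, hΦ, ← hd, ← hi, show ((i + i' : ℕ) : ℤ) + j - k = i + (i' + j - k) by push_cast; ring]
    exact hz_mul (mem_hz_nat.2 hg) (hz_rename _ (ht i' h hh))
  · let θ : MvPolynomial (Fin m ⊕ Fin m) ℂ →ₐ[ℂ] P m := aeval (Sum.elim (fun l => C (v l)) X)
    have h1 : ∀ f : P m, θ (rename Sum.inl f) = C (eval v f) := by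
      intro f
      induction f using MvPolynomial.induction_on with
      | C a => simp [θ]
      | add p q hp hq => simp only [map_add, hp, hq]
      | mul_X p l hp => simp only [map_mul, hp]; simp [θ]
    have h2 : ∀ f : P m, θ (rename Sum.inr f) = f := by
      intro f
      induction f using MvPolynomial.induction_on with
      | C a => simp [θ]
      | add p q hp hq => simp only [map_add, hp, hq]
      | mul_X p l hp => simp only [map_mul, hp]; simp [θ]
    have h3 : ∀ u, eval v (θ u) = eval (Sum.elim v v) u := by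
      intro u
      induction u using TA1_ind with
      | h1 g h => simp [h1, h2, eval_rename]
      | h2 x y hx hy => simp only [map_add, hx, hy]
    refine ⟨θ (D A), (h3 _).trans (hDv A v), fun f => ?_, fun t => ?_⟩
    · have h := hK A ((Jv Q (yv Q v)).comap θ) (fun j => ?_) (fun j => ?_) (fun i => ?_) f
      · rw [Ideal.mem_comap, map_mul, map_sub, h1, h2] at h
        convert (Jv Q (yv Q v)).neg_mem h using 1
        ring
      · rw [Ideal.mem_comap, h1, hv.2 j, map_zero]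
        exact zero_mem _
      · rw [Ideal.mem_comap, h2]
        exact Ideal.mem_sup_left (Ideal.subset_span ⟨j, rfl⟩)
      · rw [Ideal.mem_comap, ← neg_mem_iff]
        refine Ideal.mem_sup_right (Ideal.subset_span ⟨i, ?_⟩)
        simp [θ, yv]
    · rw [LinearMap.flip_apply]
      induction D A using TA1_ind with
      | h1 g h =>
        rw [hΦ, map_mul, map_mul, h1, h2, C_mul', map_smul, smul_eval, eval_rename]
        rfl
      | h2 x y hx hy => simp only [map_add, hx, hy]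

end

end Pool.Agent.MP_1c689d_ag.K0.Fd

end

section

/-! The trace formula. -/

set_option autoImplicit false

open Complex Filter Topology Set MeasureTheory MvPolynomial
open scoped ComplexConjugate ContDiff ENNReal

namespace Pool.Agent.MP_1c689d_ag.K0.Fd

noncomputable section

variable {m k c r : ℕ} {Q : PD m k c r}

theorem eval_val_Jv (t : Q.Om) {z : Fin k → ℂ} {f : P m} (hf : f ∈ Jv Q z) :
    eval z (Q.val t f) = 0 := by
  obtain ⟨a, ha, b, hb, rfl⟩ := Submodule.mem_sup.1 hf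
  obtain ⟨w, rfl⟩ := Ideal.mem_span_range_iff_exists_fun.1 hb
  rw [map_add, Q.val_I t ha, zero_add, map_sum, map_sum]
  refine Finset.sum_eq_zero fun i _ => ?_
  have e : w i * ((X (Q.yi i) : P m) - C (z i)) = rename Q.yi (X i - C (z i)) * w i := by
    rw [map_sub, rename_X, rename_C, mul_comm]
  rw [e, Q.val_y, map_mul, map_sub, eval_X, eval_C, sub_self, zero_mul]

theorem eval_Jv {v : Fin m → ℂ} (hv : Q.OnC v) {f : P m} (hf : f ∈ Jv Q (yv Q v)) :
    eval v f = 0 := by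
  obtain ⟨a, ha, b, hb, rfl⟩ := Submodule.mem_sup.1 hf
  obtain ⟨w, rfl⟩ := Ideal.mem_span_range_iff_exists_fun.1 hb
  rw [map_add, Q.eval_of_mem hv ha, zero_add, map_sum]
  refine Finset.sum_eq_zero fun i _ => ?_
  rw [map_mul, map_sub, eval_X, eval_C, yv, sub_self, mul_zero]

theorem TA2_C (t : Q.Om) (z : Fin k → ℂ) (a : ℂ) (f : P m) :
    eval z (Q.val t (C a * f)) = a * eval z (Q.val t f) := by
  rw [C_mul', map_smul, smul_eval]

theorem TA2_ne {v v' : Fin m → ℂ} (hv' : Q.OnC v') (hne : v' ≠ v) {ε : P m}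
    (h : ∀ f : P m, ε * (f - C (eval v f)) ∈ Jv Q (yv Q v')) : eval v' ε = 0 := by
  obtain ⟨l, hl⟩ := Function.ne_iff.1 hne
  have := eval_Jv hv' (h (X l))
  rw [map_mul, map_sub, eval_X, eval_X, eval_C] at this
  exact (mul_eq_zero.1 this).resolve_right (sub_ne_zero.2 hl)

theorem TA2_rad {z : Fin k → ℂ} (hz : z ≠ 0) {u : P m}
    (h : ∀ v, Q.OnC v → yv Q v = z → eval v u = 0) : ∃ n : ℕ, u ^ n ∈ Jv Q z := by
  have : u ∈ (Jv Q z).radical := by
    rw [← vanishingIdeal_zeroLocus_eq_radical (K := ℂ), mem_vanishingIdeal_iff]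
    intro w hw
    have hw' : ∀ p ∈ Jv Q z, eval w p = 0 := fun p hp => by
      rw [← coe_aeval_eq_eval]
      exact hw p hp
    have hy : yv Q w = z := funext fun i => by
      have := hw' _ (Submodule.mem_sup_right (Ideal.subset_span ⟨i, rfl⟩))
      rw [map_sub, eval_X, eval_C] at this
      exact sub_eq_zero.1 this
    have h0 : w ≠ 0 := by
      rintro rfl
      exact hz (hy.symm.trans rfl)
    have := h w ⟨h0, fun j => hw' _ (Submodule.mem_sup_left (Ideal.subset_span ⟨j, rfl⟩))⟩ hy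
    rw [← coe_aeval_eq_eval] at this
    exact this
  exact this

theorem TA2_two {z : Fin k → ℂ} (hz : z ≠ 0) {S : Finset (Fin m → ℂ)}
    (hS : ∀ v, v ∈ S ↔ Q.OnC v ∧ yv Q v = z) {η : (Fin m → ℂ) → P m}
    (h1 : ∀ v ∈ S, eval v (η v) = 1) (h2 : ∀ v ∈ S, ∀ f : P m, η v * (f - C (eval v f)) ∈ Jv Q z)
    (f : P m) : f - ∑ v ∈ S, C (eval v f) * η v ∈ Jv Q z := by
  have hu : ∀ v ∈ S, eval v (1 - ∑ v' ∈ S, η v') = 0 := by
    intro v hv
    rw [map_sub, map_one, map_sum, Finset.sum_eq_single_of_mem v hv, h1 v hv, sub_self]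
    intro v' hv' hne
    refine TA2_ne ((hS v).1 hv).1 hne.symm ?_
    rw [((hS v).1 hv).2]
    exact h2 v' hv'
  obtain ⟨n, hn⟩ := TA2_rad (Q := Q) hz fun v hv hy => hu v ((hS v).2 ⟨hv, hy⟩)
  have h3 : (1 - (1 - ∑ v' ∈ S, η v')) * (1 - ∑ v' ∈ S, η v') ∈ Jv Q z := by
    rw [sub_sub_cancel, Finset.sum_mul]
    refine Ideal.sum_mem _ fun v hv => ?_
    have := h2 v hv (1 - ∑ v' ∈ S, η v')
    rwa [hu v hv, C_0, sub_zero] at this
  have h4 : 1 - ∑ v' ∈ S, η v' ∈ Jv Q z := by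
    generalize 1 - ∑ v' ∈ S, η v' = u at hn h3
    obtain ⟨G, hG⟩ := one_sub_dvd_one_sub_pow u n
    have e : u = G * ((1 - u) * u) + u * u ^ n := by linear_combination u * hG
    rw [e]
    exact add_mem (Ideal.mul_mem_left _ _ h3) (Ideal.mul_mem_left _ _ hn)
  have e : f - ∑ v ∈ S, C (eval v f) * η v =
      f * (1 - ∑ v' ∈ S, η v') + ∑ v ∈ S, η v * (f - C (eval v f)) := by
    rw [mul_sub, mul_one, Finset.mul_sum, sub_add, ← Finset.sum_sub_distrib]
    congr 1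
    exact Finset.sum_congr rfl fun v _ => by ring
  rw [e]
  exact add_mem (Ideal.mul_mem_left _ _ h4) (Ideal.sum_mem _ fun v hv => h2 v hv f)

/-- `sym`: modulo `Jv` one has `ε ε' = ε'(v) ε = ε(v) ε'`. `one`: `ε - ∑ i, cd ε i * e i ∈ Q.I`
(`sub_sum_mem`, `val_du_cd`), and `ε (v') (f (v') - f (v)) = 0` for `f = X l`. `two`: the elements
`η v = ε v / Dl (A v) (v)` are orthogonal idempotents modulo `Jv`; `1 - ∑ η v` is idempotent and vanishes
at all common zeros of `Jv` (they lie in `S` since `z ≠ 0`), so a power of it lies in `Jv`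
(`MvPolynomial.vanishingIdeal_zeroLocus_eq_radical`), so it lies in `Jv`. -/
theorem Tate0.tate {ι : (Fin c → Fin r) → Q.Om →ₗ[ℂ] P m} (h : Tate0 Q ι) : Tate Q ι := by
  refine ⟨h.lin, h.deg, fun A A' t v hv => ?_, fun A v v' hv hv' hy => ?_,
    fun z hz S hS t g hg f => ?_⟩
  · obtain ⟨ε, e1, e2, e3⟩ := h.eps A v hv
    obtain ⟨ε', e1', e2', e3'⟩ := h.eps A' v hv
    have hm : C (eval v ε) * ε' - C (eval v ε') * ε ∈ Jv Q (yv Q v) := by
      have := sub_mem (e2 ε') (e2' ε)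
      convert this using 1
      ring
    have := eval_val_Jv t hm
    rw [map_sub, map_sub, TA2_C, TA2_C, ← e3, ← e3', e1, e1'] at this
    linear_combination -this
  · obtain ⟨ε, e1, e2, e3⟩ := h.eps A v hv
    have hs : ∑ i, eval v (ι A (du Q i)) * eval v' (Q.e i) = eval v' ε := by
      have := Q.eval_of_mem hv' (Q.sub_sum_mem ε)
      rw [map_sub, sub_eq_zero, map_sum] at this
      rw [this]
      refine Finset.sum_congr rfl fun i _ => ?_
      rw [e3, val_du_cd, map_mul, eval_rename, ← hy]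
      rfl
    rw [hs]
    split_ifs with hvv
    · rw [hvv, e1]
    · exact TA2_ne hv' hvv (by rw [hy]; exact e2)
  · have hη : ∀ v ∈ S, ∃ η : P m, eval v η = 1 ∧
        (∀ f : P m, η * (f - C (eval v f)) ∈ Jv Q z) ∧ eval z (Q.val t η) = g v := by
      intro v hv
      obtain ⟨A, hA, hA'⟩ := hg v hv
      obtain ⟨hv1, rfl⟩ := (hS v).1 hv
      obtain ⟨ε, e1, e2, e3⟩ := h.eps A v hv1
      refine ⟨C (eval v (Dl Q A))⁻¹ * ε, ?_, fun f => ?_, ?_⟩
      · rw [map_mul, eval_C, e1, inv_mul_cancel₀ hA]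
      · rw [mul_assoc]
        exact Ideal.mul_mem_left _ _ (e2 f)
      · rw [TA2_C, ← e3, hA', mul_comm, mul_inv_cancel_right₀ hA]
    choose! η h1 h2 h3 using hη
    have := eval_val_Jv t (TA2_two hz hS h1 h2 f)
    rw [map_sub, map_sub, sub_eq_zero, map_sum, map_sum] at this
    rw [this]
    exact Finset.sum_congr rfl fun v hv => by rw [TA2_C, h3 v hv]

end

end Pool.Agent.MP_1c689d_ag.K0.Fd

end

section

/-! Jacobian minors and the forms `Wk`. -/

set_option autoImplicit false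

open Complex Filter Topology Set MeasureTheory MvPolynomial
open scoped ComplexConjugate ContDiff ENNReal

namespace Pool.Agent.MP_1c689d_ag.K0.Fd

noncomputable section

variable {n m c r : ℕ} {X : Type} [TopologicalSpace X] [Mf n X] {Q : PD m (n + 1) c r}
  {Pts : Finset (Fin (n + 1) → ℂ)} {x : X → Fin m → ℂ}
  {p : X}

theorem JW_prod (M : Matrix (Fin n) (Fin n) ℂ) :
    (List.ofFn fun i => ∑ j, M i j • (dz j : Λ n)).prod = M.det • pdz n := by
  have h := lm_prod_dz (LinearMap.toContinuousLinearMap (Matrix.toLin' M))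
  rw [map_list_prod, List.map_ofFn, LinearMap.det_toContinuousLinearMap, LinearMap.det_toLin'] at h
  rw [← h]
  refine congrArg (fun f => (List.ofFn f).prod) (funext fun i => ?_)
  rw [Function.comp_apply, EA3_lm_dz]
  simp

theorem JW_compl {k : ℕ} (eqv : Fin c ⊕ Fin k ≃ Fin m) {v : Fin k → Fin m → ℂ}
    (hv : LinearIndependent ℂ v) :
    ∃ w : Fin c → Fin m → ℂ, LinearIndependent ℂ (Sum.elim w v) := by
  obtain ⟨W, hW⟩ := (Submodule.span ℂ (range v)).exists_isCompl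
  have h1 := Submodule.finrank_add_eq_of_isCompl hW
  have h2 := Fintype.card_congr eqv
  rw [finrank_span_eq_card hv, Module.finrank_fin_fun, Fintype.card_fin] at h1
  rw [Fintype.card_sum, Fintype.card_fin, Fintype.card_fin, Fintype.card_fin] at h2
  let b := Module.finBasisOfFinrankEq ℂ W (n := c) (by omega)
  refine ⟨W.subtype ∘ b, (b.linearIndependent.map' _ W.ker_subtype).sum_type hv
    (hW.symm.disjoint.mono_left (Submodule.span_le.2 ?_))⟩
  rintro _ ⟨i, rfl⟩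
  exact (b i).2

theorem JW_kill (h : FD Q Pts x) {u : Fin m → Fin n → ℂ}
    (hu : ∀ l, (Dx x l p : Λ n) = ∑ j, u l j • dz j) (a : Fin r) (j : Fin (n + 1)) :
    ∑ l, eval (x p) (pderiv l (Q.F a)) * (Fin.cons (x p l) (u l) : Fin (n + 1) → ℂ) j = 0 := by
  refine Fin.cases ?_ (fun j => ?_) j
  · simp only [Fin.cons_zero]
    rw [euler_eval (Q.Fh a), (h.onc p).2, mul_zero]
  · have h1 := h.gv_F a p
    simp only [gv, hu, Finset.smul_sum, smul_smul] at h1
    rw [Finset.sum_comm] at h1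
    simp only [← Finset.sum_smul] at h1
    exact Fintype.linearIndependent_iff.1 dz_li _ h1 j

/-- Expansion along the first column (`Matrix.det_succ_column_zero`); the product of the
`∑ j, u j • dz j` is the determinant times `pdz n` (`lm_prod_dz`). -/
theorem wk_det {u : Fin m → Fin n → ℂ} (hu : ∀ l, (Dx x l p : Λ n) = ∑ j, u l j • dz j)
    (l : Fin (n + 1) → Fin m) : (Wk x l p : Λ n) =
      (Matrix.of fun i : Fin (n + 1) =>
        (Fin.cons (x p (l i)) (u (l i)) : Fin (n + 1) → ℂ)).det • pdz n := by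
  rw [Matrix.det_succ_column_zero, Finset.sum_smul]
  refine Finset.sum_congr rfl fun j _ => ?_
  simp only [hu]
  exact (congrArg (((-1) ^ (j : ℕ) * x p (l j)) • ·)
    (JW_prod (Matrix.of fun i => u (l (j.succAbove i))))).trans (smul_smul _ _ _)

/-- Complete the columns of `B` to a basis, `M = [C | B]`; the product of the matrix with `M` is block
triangular (`Matrix.det_fromBlocks_zero₁₂`). -/
theorem det_block {k : ℕ} (eqv : Fin c ⊕ Fin k ≃ Fin m) {B : Fin m → Fin k → ℂ}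
    (hB : LinearIndependent ℂ fun j l => B l j) :
    ∃ κ : (Fin c → Fin m → ℂ) → ℂ, ∀ g : Fin c → Fin m → ℂ, (∀ a j, ∑ l, g a l * B l j = 0) →
      ∀ l : Fin k → Fin m, (Matrix.of fun i j : Fin c ⊕ Fin k =>
        Sum.elim g (fun i => (Pi.single (l i) 1 : Fin m → ℂ)) i (eqv j)).det =
        κ g * (Matrix.of fun i => B (l i)).det := by
  obtain ⟨w, hw⟩ := JW_compl eqv hB
  let M : Matrix (Fin c ⊕ Fin k) (Fin c ⊕ Fin k) ℂ :=
    Matrix.of fun i j => Sum.elim w (fun j l => B l j) j (eqv i)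
  have hM : M.det ≠ 0 := by
    rw [← isUnit_iff_ne_zero, ← Matrix.isUnit_iff_isUnit_det,
      ← Matrix.linearIndependent_cols_iff_isUnit]
    exact hw.map' (LinearEquiv.funCongrLeft ℂ ℂ eqv).toLinearMap (LinearEquiv.ker _)
  refine ⟨fun g => (Matrix.of fun a a' => ∑ l, g a l * w a' l).det / M.det, fun g hg l => ?_⟩
  rw [div_mul_eq_mul_div, eq_div_iff hM, ← Matrix.det_mul,
    ← Matrix.det_fromBlocks_zero₁₂ _ (Matrix.of fun i a => w a (l i))]
  congr 1
  ext i j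
  rw [Matrix.mul_apply]
  refine (eqv.sum_comp fun t => Sum.elim g (fun i => (Pi.single (l i) 1 : Fin m → ℂ)) i t *
    Sum.elim w (fun j l => B l j) j t).trans ?_
  rcases i with i | i <;> rcases j with j | j <;> simp [hg, Pi.single_apply]

/-- The columns `x p`, `u · j` are independent (`Imm`, `sum_conj_Dx`, or `PMAt.exists_Wk` and
`wk_det`) and are killed by the gradients (`euler_eval`, `FD.gv_F`, `dz_li`). -/
theorem jw (h : FD Q Pts x) (hp : p ∈ Q.O Pts x) :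
    ∃ (κ : (Fin c → Fin r) → ℂ) (d : (Fin (n + 1) → Fin m) → ℂ),
      (∀ A l, eval (x p) (Q.jd A fun i => ue (l i)) = κ A * d l) ∧
      ∀ l, (Wk x l p : Λ n) = d l • pdz n := by
  choose u hu using fun l => mem_Tp10.1 (Dx_Ty (n := n) (x := x) l p)
  obtain ⟨l0, h0⟩ := (h.pm p).exists_Wk (h.imm p hp)
  rw [wk_det hu] at h0
  have h1 := Matrix.linearIndependent_cols_iff_isUnit.2 ((Matrix.isUnit_iff_isUnit_det _).2
    (isUnit_iff_ne_zero.2 (left_ne_zero_of_smul h0)))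
  obtain ⟨κ, hκ⟩ := det_block Q.eqv (B := fun l => Fin.cons (x p l) (u l))
    (LinearIndependent.of_comp (LinearMap.funLeft ℂ ℂ l0) h1)
  refine ⟨fun A => κ fun a l => eval (x p) (pderiv l (Q.F (A a))), _, fun A l => ?_, wk_det hu⟩
  rw [← hκ _ (fun a => JW_kill h hu (A a)) l, PD.jd, RingHom.map_det]
  congr 1
  ext (i | i) j
  · rfl
  · simp [ue, Pi.single_apply, apply_ite]

theorem jw_swap (h : FD Q Pts x) (hp : p ∈ Q.O Pts x) (A : Fin c → Fin r)
    (l l' : Fin (n + 1) → Fin m) : eval (x p) (Q.jd A fun i => ue (l i)) • (Wk x l' p : Λ n) =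
      eval (x p) (Q.jd A fun i => ue (l' i)) • Wk x l p := by
  obtain ⟨κ, d, h1, h2⟩ := jw h hp
  rw [h1, h1, h2, h2, smul_smul, smul_smul, mul_right_comm]

theorem exists_jd (h : FD Q Pts x) (hp : p ∈ Q.O Pts x) {l : Fin (n + 1) → Fin m}
    (h0 : (Wk x l p : Λ n) ≠ 0) : ∃ A, eval (x p) (Q.jd A fun i => ue (l i)) ≠ 0 := by
  obtain ⟨κ, d, h1, h2⟩ := jw h hp
  obtain ⟨A, l', hA⟩ := h.sm0 _ (h.onc p) hp
  rw [h1] at hA
  rw [h2] at h0
  exact ⟨A, by
    rw [h1]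
    exact mul_ne_zero (left_ne_zero_of_mul hA) (left_ne_zero_of_smul h0)⟩

/-- With `wk_det`: the determinant is linear in the first row. -/
theorem wk_F (h : FD Q Pts x) (j : Fin r) (l : Fin n → Fin m) (p : X) :
    ∑ a, eval (x p) (pderiv a (Q.F j)) • (Wk x (Fin.cons a l) p : Λ n) = 0 := by
  choose u hu using fun l => mem_Tp10.1 (Dx_Ty (n := n) (x := x) l p)
  have h1 : ∀ a, (Wk x (Fin.cons a l) p : Λ n) =
      (∑ i : Fin (n + 1), (Fin.cons (x p a) (u a) : Fin (n + 1) → ℂ) i * ((-1) ^ (i : ℕ) *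
        (Matrix.of fun s t => (Fin.cons (x p (l s)) (u (l s)) : Fin (n + 1) → ℂ)
          (i.succAbove t)).det)) • pdz n := fun a => by
    rw [wk_det hu, Matrix.det_succ_row_zero]
    congr 1
    refine Finset.sum_congr rfl fun i _ => ?_
    rw [mul_left_comm, mul_assoc]
    rfl
  simp only [h1, smul_smul, ← Finset.sum_smul, Finset.mul_sum, ← mul_assoc]
  rw [Finset.sum_comm]
  simp only [← Finset.sum_mul, JW_kill h hu, zero_mul, Finset.sum_const_zero, zero_smul]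

theorem jd_hz (A : Fin c → Fin r) (l : Fin (n + 1) → Fin m) :
    (Q.jd A fun i => ue (l i)) ∈ hz m (dA Q A) := by
  have h := Q.jd_mem A (fun i => ue (l i)) (fun _ => 0) fun i t => by
    rw [ue, Pi.single_apply]
    split_ifs
    · exact isHomogeneous_one _ _
    · exact isHomogeneous_zero _ _ _
  rw [Finset.sum_const_zero, add_zero] at h
  exact mem_hz_nat.2 h

end

end Pool.Agent.MP_1c689d_ag.K0.Fd

end

section

/-! The projection in affine charts. -/

set_option autoImplicit false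

open Complex Filter Topology Set MeasureTheory MvPolynomial
open scoped ComplexConjugate ContDiff ENNReal

namespace Pool.Agent.MP_1c689d_ag.K0.Fd

noncomputable section

variable {n m c r : ℕ} {X : Type} [TopologicalSpace X] [Mf n X] {Q : PD m (n + 1) c r}
  {Pts : Finset (Fin (n + 1) → ℂ)} {x : X → Fin m → ℂ}
  {p : X} {y : Fin (n + 1) → Fin m} {k : Fin (n + 1)}

theorem CH_cont (h : FD Q Pts x) (l : Fin m) : Continuous fun p => ‖x p l‖ := by
  simpa only [ev, eval_X] using continuous_norm_ev h.pm (isHomogeneous_X ℂ l)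

omit [TopologicalSpace X] [Mf n X] in
theorem CH_eq (hk : x p (y k) ≠ 0) : x p (y k) • ins k (ua x y k p) = Yv x y p :=
  smul_ins_aff (z := Yv x y p) hk

/-- `continuous_norm_ev` for the variables, compactness, `Yv_ne`. -/
theorem exists_sh (h : FD Q Pts x) :
    ∃ a b : ℝ, 0 < a ∧ a ≤ b ∧ ∀ p, Yv x Q.yi p ∈ Sh (n + 1) a b := by
  have := h.cpt
  have hc : Continuous fun p => ‖Yv x Q.yi p‖ := by
    refine (continuous_pi fun i => CH_cont h (Q.yi i)).norm.congr fun p => ?_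
    simp only [Pi.norm_def, nnnorm_norm, Yv]
  obtain ⟨a, ha, h1⟩ := isCompact_univ.exists_forall_le' hc.continuousOn (a := 0)
    fun p _ => norm_pos_iff.2 (Yv_ne h p)
  obtain ⟨b, hb⟩ := (isCompact_range hc).bddAbove
  exact ⟨a, max a b, ha, le_max_left _ _, fun p =>
    ⟨h1 p trivial, le_max_of_le_right (hb ⟨p, rfl⟩)⟩⟩

theorem isOpen_k (h : FD Q Pts x) (l : Fin m) : IsOpen {p | x p l ≠ 0} := by
  exact isOpen_iff_eventually.2 fun p hp => (h.pm p).ne l hp

theorem ua_hmap (h : PMAt x p) (hk : x p (y k) ≠ 0) : HMap (ua x y k) p := by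
  exact hmap_iff_holAt.2 fun i => h.hol (y k) (y (k.succAbove i)) hk

omit [TopologicalSpace X] [Mf n X] in
theorem ua_eq_iff (hk : x p (y k) ≠ 0) {w : E n} :
    ua x y k p = w ↔ Yv x y p ∈ Ry (ins k w) := by
  refine ⟨fun e => ⟨_, e ▸ (CH_eq hk).symm⟩, fun ⟨t, e⟩ => ?_⟩
  have ht : t ≠ 0 := fun h0 => hk (by simpa [h0, Yv] using congrFun e k)
  rw [ua, e, aff_smul k _ ht, aff_ins]

omit [TopologicalSpace X] [Mf n X] in
theorem onC_smul {v : Fin m → ℂ} (hv : Q.OnC v) {t : ℂ} (ht : t ≠ 0) : Q.OnC (t • v) := by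
  exact ⟨smul_ne_zero ht hv.1, fun j => by
    rw [hz_eval_smul (mem_hz_nat.2 (Q.Fh j)), hv.2 j, mul_zero]⟩

/-- The map `p ↦ τ p • x p` to the fibre of the cone is injective (`FD.inj`). -/
theorem fib_fin (h : FE Q Pts x) {z : E (n + 1)} (hz : z ≠ 0) (ho : OffY Pts z) :
    {p | Yv x Q.yi p ∈ Ry z}.Finite := by
  have h1 : ∀ p, ∃ t : ℂ, Yv x Q.yi p ∈ Ry z → t ≠ 0 ∧ Yv x Q.yi p = t • z := fun p => by
    by_cases hp : Yv x Q.yi p ∈ Ry z
    · obtain ⟨t, e⟩ := hp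
      exact ⟨t, fun _ => ⟨fun h0 => Yv_ne h.fd p (by rw [e, h0, zero_smul]), e⟩⟩
    · exact ⟨0, fun h => absurd h hp⟩
  choose t ht using h1
  refine Finite.of_injOn (f := fun p => (t p)⁻¹ • x p) (fun p hp => ?_) (fun p hp p' hp' e => ?_)
    (h.fin z)
  · refine ⟨onC_smul (h.fd.onc p) (inv_ne_zero (ht p hp).1), ?_⟩
    change (t p)⁻¹ • Yv x Q.yi p = z
    rw [(ht p hp).2, inv_smul_smul₀ (ht p hp).1]
  · refine (h.fd.inj p p' (mem_O.2 ?_) ⟨t p' * (t p)⁻¹, ?_⟩).symm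
    · rw [(ht p hp).2]
      exact (offY_smul (ht p hp).1).2 ho
    · rw [mul_smul, show (t p)⁻¹ • x p = (t p')⁻¹ • x p' from e, smul_inv_smul₀ (ht p' hp').1]

theorem ua_fin (h : FE Q Pts x) (k : Fin (n + 1)) (w : E n) :
    ((Q.O Pts x ∩ {p | x p (Q.yi k) ≠ 0}) ∩ ua x Q.yi k ⁻¹' {w}).Finite := by
  rcases eq_empty_or_nonempty
    ((Q.O Pts x ∩ {p | x p (Q.yi k) ≠ 0}) ∩ ua x Q.yi k ⁻¹' {w}) with e | ⟨p, ⟨h1, h2⟩, h3⟩
  · rw [e]
    exact finite_empty
  refine (fib_fin h (z := ins k w) (fun h0 => ?_) ?_).subset fun p hp => (ua_eq_iff hp.1.2).1 hp.2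
  · exact one_ne_zero ((ins_self k w).symm.trans (congrFun h0 k))
  · rw [mem_O, ← CH_eq h2, offY_smul h2] at h1
    exact h3 ▸ h1

/-- `PMAt.Wk_affine`, `dd_coord`, `map_list_prod`. -/
theorem wk_ua (h : PMAt x p) (hk : x p (y k) ≠ 0) : (Wk x y p : Λ n) =
    ((-1) ^ (k : ℕ) * x p (y k) ^ (n + 1)) • pb (ua x y k) (fun _ => pdz n) p := by
  rw [h.Wk_affine y k hk, pb, map_list_prod, List.map_ofFn]
  exact congrArg (fun f => _ • (List.ofFn f).prod) (funext fun i => dd_coord (ua_hmap h hk) i)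

theorem unr_iff (h : PMAt x p) (hk : x p (y k) ≠ 0) :
    p ∈ Unr (ua x y k) ↔ (Wk x y p : Λ n) ≠ 0 := by
  borelize X
  rw [mem_unr_iff (ua_hmap h hk), wk_ua h hk, smul_ne_zero_iff, and_iff_right]
  exact mul_ne_zero (pow_ne_zero _ (neg_ne_zero.2 one_ne_zero)) (pow_ne_zero _ hk)

theorem exists_wk_mul (h : (Wk x y p : Λ n) ≠ 0) {μ : Λ n} (hμ : μ ∈ Tp n n 0) :
    ∃ s : ℂ, μ = s • Wk x y p := by
  obtain ⟨c, e⟩ := mem_Tp_n0.1 (Wk_Ty (x := x) y p)
  obtain ⟨d, rfl⟩ := mem_Tp_n0.1 hμ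
  rw [e] at h ⊢
  exact ⟨d / c, by rw [smul_smul, div_mul_cancel₀ _ (left_ne_zero_of_smul h)]⟩

/-- On the set `‖x p (yi k)‖` is bounded below (`exists_sh`, `smul_ins_aff`), so the set is closed in
the compact space `X`. -/
theorem ua_prop (h : FD Q Pts x) (k : Fin (n + 1)) {K : Set (E n)} (hK : IsCompact K) :
    IsCompact ({p | x p (Q.yi k) ≠ 0} ∩ ua x Q.yi k ⁻¹' K) := by
  have := h.cpt
  obtain ⟨a, b, ha, -, hs⟩ := exists_sh h
  obtain ⟨C, hC, h1⟩ := (hK.image (differentiable_ins k).continuous).isBounded.exists_pos_norm_le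
  have h2 : ∀ p, a / C ≤ ‖x p (Q.yi k)‖ → x p (Q.yi k) ≠ 0 := fun p hp =>
    norm_pos_iff.1 ((div_pos ha hC).trans_le hp)
  have e : {p | x p (Q.yi k) ≠ 0} ∩ ua x Q.yi k ⁻¹' K =
      {p | a / C ≤ ‖x p (Q.yi k)‖} ∩ ua x Q.yi k ⁻¹' K := by
    refine Subset.antisymm (fun p hp => ⟨(div_le_iff₀ hC).2 ((hs p).1.trans ?_), hp.2⟩)
      fun p hp => ⟨h2 p hp.1, hp.2⟩
    rw [← CH_eq hp.1, norm_smul]
    exact mul_le_mul_of_nonneg_left (h1 _ ⟨_, hp.2, rfl⟩) (norm_nonneg _)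
  rw [e]
  exact (ContinuousOn.preimage_isClosed_of_isClosed
    (fun p hp => (ua_hmap (h.pm p) (h2 p hp)).continuousAt.continuousWithinAt)
    (isClosed_le continuous_const (CH_cont h _)) hK.isClosed).isCompact

theorem CH_ev (h : PMAt x p) (hk : x p (y k) ≠ 0) {U : Set (E (n + 1))} (hU : Cn U)
    (hp : Yv x y p ∈ U) : ∀ᶠ p' in 𝓝 p, x p' (y k) ≠ 0 ∧ ins k (ua x y k p') ∈ U := by
  refine (h.ne _ hk).and (((differentiable_ins k).continuous.continuousAt.comp
    (ua_hmap h hk).continuousAt).eventually (hU.1.mem_nhds ?_))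
  have := hU.2 _ hp _ (inv_ne_zero hk)
  rwa [← CH_eq hk, inv_smul_smul₀ hk] at this

/-- Take `k` with `x p (y k) ≠ 0`; near `p` the function is
`x (y k) ^ j * b (ins k (ua x y k ·))`. -/
theorem holAt_hm (h : PMAt x p) (h0 : Yv x y p ≠ 0) {j : ℤ} {U : Set (E (n + 1))}
    {b : E (n + 1) → ℂ} (hU : Cn U) (hb : Hm j U b) (hp : Yv x y p ∈ U) :
    HolAt (gx x ^ j) (fun p' => b (Yv x y p')) p := by
  obtain ⟨k, hk⟩ := Function.ne_iff.1 h0
  have h1 := CH_ev h hk hU hp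
  have h2 : HolAt 1 (b ∘ ins k) (ua x y k p) := holAt_E.2 <| by
    filter_upwards [(differentiable_ins k).continuous.continuousAt.eventually
      (hU.1.mem_nhds h1.self_of_nhds.2)] with w hw
    exact (hb.1.differentiableAt (hU.1.mem_nhds hw)).comp w (differentiable_ins k w)
  have h4 : HolAt 1 ((b ∘ ins k) ∘ ua x y k) p := by
    have := HolAt.comp (ua_hmap h hk) h2
    exact this
  have h3 := ((h.holAt (y k)).zpow h.gok hk j).mul h4
  rw [mul_one] at h3
  refine h3.congr (h1.mono fun p' hp' => ?_)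
  beta_reduce
  rw [← CH_eq hp'.1, hb.2 _ hp'.2 _ hp'.1]
  rfl

theorem cn_ev (h : PMAt x p) (h0 : Yv x y p ≠ 0) {U : Set (E (n + 1))} (hU : Cn U)
    (hp : Yv x y p ∈ U) : ∀ᶠ p' in 𝓝 p, Yv x y p' ∈ U := by
  obtain ⟨k, hk⟩ := Function.ne_iff.1 h0
  exact (CH_ev h hk hU hp).mono fun p' hp' => CH_eq hp'.1 ▸ hU.2 _ hp'.2 _ hp'.1

end

end Pool.Agent.MP_1c689d_ag.K0.Fd

end

section

/-! The projection is unramified over a dense set. -/

set_option autoImplicit false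

open Complex Filter Topology Set MeasureTheory MvPolynomial
open scoped ComplexConjugate ContDiff ENNReal

namespace Pool.Agent.MP_1c689d_ag.K0.Fd

noncomputable section

variable {n m c r : ℕ} {X : Type} [TopologicalSpace X] [Mf n X] {Q : PD m (n + 1) c r}
  {Pts : Finset (Fin (n + 1) → ℂ)} {x : X → Fin m → ℂ}
  {p : X}

theorem Gz.smul {z : E (n + 1)} (h : Gz Q Pts x z) {t : ℂ} (ht : t ≠ 0) : Gz Q Pts x (t • z) := by
  exact ⟨smul_ne_zero ht h.ne, (offY_smul ht).2 h.off,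
    fun p hp => h.unr p (ry_eq (smul_ne_zero ht h.ne) ⟨t, rfl⟩ ▸ hp)⟩

/-- `borelize X`, `null_preimage` on `Q.O Pts x ∩ {x (yi k) ≠ 0}`, `mu_openPos`. -/
theorem freq_of_ae (h : FE Q Pts x) (hp : p ∈ Q.O Pts x) {k : Fin (n + 1)}
    (hk : x p (Q.yi k) ≠ 0) {s : E n → Prop} (hs : ∀ᵐ w, s w) :
    ∃ᶠ y in 𝓝 p, s (ua x Q.yi k y) := by
  borelize X
  intro e
  have ho := h.fd.isOpen_O.inter (isOpen_k h.fd (Q.yi k))
  exact (Measure.measure_pos_of_mem_nhds (mu n X) (inter_mem (ho.mem_nhds ⟨hp, hk⟩) e)).ne'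
    (null_preimage ho (fun y hy => ua_hmap (h.fd.pm y) hy.2) (ua_fin h k) (ae_iff.1 hs))

/-- `offY_fin` (finite sets are null since `1 ≤ n`), `null_critical`, `unr_iff`. -/
theorem gz_ae (h : FD Q Pts x) (hn : 1 ≤ n) (k : Fin (n + 1)) :
    ∀ᵐ w : E n, Gz Q Pts x (ins k w) := by
  borelize X
  have : Nonempty (Fin n) := ⟨⟨0, hn⟩⟩
  filter_upwards [ae_iff.2 ((offY_fin Pts k).measure_zero volume), compl_mem_ae_iff.2
    (null_critical (isOpen_k h (Q.yi k)) fun y hy => ua_hmap (h.pm y) hy)] with w h1 h2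
  refine ⟨fun e => one_ne_zero ((ins_self k w).symm.trans (congrFun e k)), h1, fun p hp => ?_⟩
  have hk : x p (Q.yi k) ≠ 0 := fun e => by
    obtain ⟨t, ht⟩ := hp
    have e' := e.symm.trans (congrFun ht k)
    rw [Pi.smul_apply, ins_self, smul_eq_mul, mul_one] at e'
    exact Yv_ne h p (by rw [ht, ← e', zero_smul])
  exact (unr_iff (h.pm p) hk).1 (not_not.1 fun e => h2 ⟨p, ⟨hk, e⟩, (ua_eq_iff hk).2 hp⟩)

theorem gz_dense (h : FD Q Pts x) (hn : 1 ≤ n) : Dense {z | Gz Q Pts x z} := by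
  refine dense_closure.1 ((dense_compl_singleton 0).mono fun z hz => ?_)
  obtain ⟨k, hk⟩ := Function.ne_iff.1 hz
  rw [← smul_ins_aff hk]
  exact map_mem_closure (f := fun w => z k • ins k w)
    ((differentiable_ins k).continuous.const_smul (z k))
    (Measure.dense_of_ae (gz_ae h hn k) _) fun w hw => Gz.smul hw hk

theorem gz_freq (h : FE Q Pts x) (hn : 1 ≤ n) (hp : p ∈ Q.O Pts x) :
    ∃ᶠ y in 𝓝 p, Gz Q Pts x (Yv x Q.yi y) := by
  obtain ⟨k, hk⟩ := Function.ne_iff.1 (Yv_ne h.fd p)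
  refine ((freq_of_ae h hp hk (gz_ae h.fd hn k)).and_eventually ((h.fd.pm p).ne _ hk)).mono
    fun y hy => ?_
  rw [← smul_ins_aff (k := k) (z := Yv x Q.yi y) hy.2]
  exact hy.1.smul hy.2

theorem wk_freq (h : FE Q Pts x) (hn : 1 ≤ n) (hp : p ∈ Q.O Pts x) :
    ∃ᶠ y in 𝓝 p, (Wk x Q.yi y : Λ n) ≠ 0 := by
  exact (gz_freq h hn hp).mono fun y hy => hy.unr y (mem_ry_self _)

end

end Pool.Agent.MP_1c689d_ag.K0.Fd

end

section

/-! The forms attached to the dualising module. -/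

set_option autoImplicit false

open Complex Filter Topology Set MeasureTheory MvPolynomial
open scoped ComplexConjugate ContDiff ENNReal

namespace Pool.Agent.MP_1c689d_ag.K0.Fd

noncomputable section

variable {n m c r : ℕ} {X : Type} [TopologicalSpace X] [Mf n X] {Q : PD m (n + 1) c r}
  {Pts : Finset (Fin (n + 1) → ℂ)} {x : X → Fin m → ℂ}

theorem RXm_pt (h : FD Q Pts x) {ι : (Fin c → Fin r) → Q.Om →ₗ[ℂ] P m} (hT : Tate Q ι) (t : Q.Om)
    {p : X} (hp : p ∈ Q.O Pts x) (h0 : (Wk x Q.yi p : Λ n) ≠ 0) (A A' : Fin c → Fin r)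
    (l : Fin (n + 1) → Fin m) :
    eval (x p) (ι A t) * eval (x p) (Q.jd A' fun i => ue (l i)) =
      eval (x p) (ι A' t) * eval (x p) (Q.jd A fun i => ue (l i)) := by
  obtain ⟨κ, d, h1, h2⟩ := jw h hp
  have h3 : d Q.yi ≠ 0 := fun e => h0 (by rw [h2, e, zero_smul])
  have h4 := hT.sym A A' t (x p) (h.onc p)
  rw [Dl, Dl, h1, h1, ← mul_assoc, ← mul_assoc] at h4
  rw [h1, h1, ← mul_assoc, ← mul_assoc, mul_right_cancel₀ h3 h4]

theorem RXm_ex (h : FD Q Pts x) {ι : (Fin c → Fin r) → Q.Om →ₗ[ℂ] P m} (hT : Tate Q ι) (p : X) :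
    ∃ L : Q.Om →ₗ[ℂ] Λ n, (∀ t, L t ∈ Tp n n 0) ∧
      (∀ (f : P m) t, L (f • t) = eval (x p) f • L t) ∧
      (p ∈ Q.O Pts x → ∃ (A : Fin c → Fin r) (l : Fin (n + 1) → Fin m),
        eval (x p) (Q.jd A fun i => ue (l i)) ≠ 0 ∧ ∀ t, eval (x p) (ι A t) • (Wk x l p : Λ n) =
          eval (x p) (Q.jd A fun i => ue (l i)) • L t) := by
  by_cases hp : p ∈ Q.O Pts x
  · obtain ⟨A, l, h0⟩ := h.sm0 (x p) (h.onc p) hp
    refine ⟨⟨⟨fun t => eval (x p) (ι A t) •
      (eval (x p) (Q.jd A fun i => ue (l i)))⁻¹ • (Wk x l p : Λ n), fun s t => ?_⟩,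
      fun a t => ?_⟩, fun t => ?_, fun f t => ?_, fun _ => ⟨A, l, h0, fun t => ?_⟩⟩
    · rw [map_add, map_add, add_smul]
    · dsimp only
      rw [map_smul, smul_eval, mul_smul, RingHom.id_apply]
    · exact Submodule.smul_mem _ _ (Submodule.smul_mem _ _ (Wk_Ty l p))
    · have h1 := Q.eval_of_mem (h.onc p) (hT.lin A f t)
      rw [map_sub, map_mul, sub_eq_zero] at h1
      exact (congrArg (· • _) h1).trans (mul_smul _ _ _)
    · exact ((smul_comm _ _ _).trans (congrArg _ (smul_inv_smul₀ h0 _))).symm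
  · exact ⟨0, fun _ => zero_mem _, fun _ _ => (smul_zero _).symm, fun e => absurd e hp⟩

/-- With `jw` and `Tate.sym` this holds where `Wk x Q.yi p ≠ 0`; these points are dense in the open
set (`wk_freq`) and the zero set of the homogeneous difference is closed (`isClosed_ev`,
`AFB_cases`). -/
theorem rx_sym (h : FE Q Pts x) (hn : 1 ≤ n) {ι : (Fin c → Fin r) → Q.Om →ₗ[ℂ] P m}
    (hT : Tate Q ι) {j : ℤ} {t : Q.Om} (ht : t ∈ Q.og j) {p : X} (hp : p ∈ Q.O Pts x)
    (A A' : Fin c → Fin r) (l : Fin (n + 1) → Fin m) :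
    eval (x p) (ι A t) * eval (x p) (Q.jd A' fun i => ue (l i)) =
      eval (x p) (ι A' t) * eval (x p) (Q.jd A fun i => ue (l i)) := by
  have h1 := hz_mul (hT.deg A j t ht) (jd_hz (Q := Q) A' l)
  have h2 := hz_mul (hT.deg A' j t ht) (jd_hz (Q := Q) A l)
  rw [show (dA Q A' : ℤ) + j - (n + 1 : ℕ) + dA Q A = dA Q A + j - (n + 1 : ℕ) + dA Q A' by ring]
    at h2
  by_contra h0
  have h3 := ((h.fd.pm p).holAt_ev (sub_mem h1 h2)).smAt.fn_ne ((h.fd.pm p).gok_zpow _)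
    (by rwa [ev, map_sub, map_mul, map_mul, sub_ne_zero])
  obtain ⟨y, a1, a2, a3⟩ := ((wk_freq h hn hp).and_eventually
    (h3.and (h.fd.isOpen_O.mem_nhds hp))).exists
  rw [ev, map_sub, map_mul, map_mul, sub_ne_zero] at a2
  exact a2 (RXm_pt h.fd hT t a3 a1 A A' l)

/-- `rl t p = (ι A t / jd A l) (x p) • Wk x l p` for a pair `(A, l)` with `jd A l (x p) ≠ 0` that only
depends on `p`, and zero if there is none. `key` follows from `rx_sym`, `jw_swap`; `hol` from `key`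
near `p` (`FD.sm0`, `HolAt.inv`, `PMAt.Wk_hfm`, `HFm.mul`, `HFm.gauge`). -/
theorem exists_rx (h : FE Q Pts x) (hn : 1 ≤ n) {ι : (Fin c → Fin r) → Q.Om →ₗ[ℂ] P m}
    (hT : Tate Q ι) : Nonempty (RX Q Pts x) := by
  choose L h1 h2 h3 using RXm_ex h.fd hT
  have key : ∀ (j : ℤ), ∀ t ∈ Q.og j, ∀ p ∈ Q.O Pts x, ∀ A (l : Fin (n + 1) → Fin m),
      eval (x p) (ι A t) • (Wk x l p : Λ n) = eval (x p) (Q.jd A fun i => ue (l i)) • L p t := by
    intro j t ht p hp A l
    obtain ⟨A', l', h0, e⟩ := h3 p hp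
    refine smul_right_injective _ h0 ?_
    beta_reduce
    rw [smul_comm, jw_swap h.fd hp A' l' l, smul_smul, rx_sym h hn hT ht hp A A' l, mul_comm,
      mul_smul, e, smul_comm]
  refine ⟨⟨ι, hT, LinearMap.pi L, fun t p => h1 p t, fun f t => funext fun p => h2 p f t,
    fun j t ht p hp => ?_, key⟩⟩
  obtain ⟨A, l, h0, -⟩ := h3 p hp
  have hx := h.fd.pm p
  have a1 := hx.holAt_ev (jd_hz (Q := Q) A l)
  have a2 := a1.inv (hx.gok_zpow _) h0
  rw [hx.gz_neg] at a2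
  have a3 := ((a2.mul (hx.holAt_ev (hT.deg A j t ht))).gauge
    (hx.gz_add (l := j - (n + 1 : ℕ)) (by ring))).hfm (hx.gok_zpow _)
  have a4 := (a3.mul (hx.Wk_hfm l) (hx.gok_zpow _) (hx.gok_zpow _)).gauge
    ((hx.gok_zpow _).mul (hx.gok_zpow _))
    (Eventually.of_forall fun y => (h.fd.pm y).gz_add (l := j) (by ring))
  rw [fn_mul] at a4
  refine MF4_congr a4 ?_
  filter_upwards [a1.smAt.fn_ne (hx.gok_zpow _) h0, h.fd.isOpen_O.mem_nhds hp] with y b1 b2
  exact (mul_smul _ _ _).trans ((congrArg _ (key j t ht y b2 A l)).trans (inv_smul_smul₀ b1 _))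

end

end Pool.Agent.MP_1c689d_ag.K0.Fd

end

section

/-! The two dual pairs. -/

set_option autoImplicit false

open Complex Filter Topology Set MeasureTheory MvPolynomial
open scoped ComplexConjugate ContDiff ENNReal

namespace Pool.Agent.MP_1c689d_ag.K0.Fd

noncomputable section

variable {n m c r : ℕ} {X : Type} [TopologicalSpace X] [Mf n X] {Q : PD m (n + 1) c r}
  {Pts : Finset (Fin (n + 1) → ℂ)} {x : X → Fin m → ℂ}

theorem DPs_ne {N : ℕ} {a b : E N} {t : ℂ} (ha : a ≠ 0) (h : a = t • b) : t ≠ 0 := by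
  rintro rfl
  exact ha (h.trans (zero_smul _ _))

theorem DPs_one {N : ℕ} {a : E N} {t : ℂ} (ha : a ≠ 0) (h : a = t • a) : t = 1 :=
  smul_left_injective ℂ ha (h.symm.trans (one_smul ℂ a).symm)

theorem DPs_left (c : ℂ) (a : Λ n) : algebraMap ℂ (Λ n) c * a = c • a :=
  (Algebra.smul_def c a).symm

theorem DPs_right (c : ℂ) (a : Λ n) : a * algebraMap ℂ (Λ n) c = c • a :=
  (Algebra.commutes c a).symm.trans (Algebra.smul_def c a).symm

theorem rx_ratio (h : FD Q Pts x) (R : RX Q Pts x) {j : ℤ} {t : Q.Om} (ht : t ∈ Q.og j) {p : X}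
    (hp : p ∈ Q.O Pts x) {A : Fin c → Fin r} (hA : eval (x p) (Dl Q A) ≠ 0) :
    R.rl t p = (eval (x p) (R.ι A t) / eval (x p) (Dl Q A)) • Wk x Q.yi p := by
  rw [div_eq_inv_mul, mul_smul, R.key j t ht p hp A Q.yi]
  exact (inv_smul_smul₀ hA _).symm

open Classical in
/-- `Tate.one` for `v = x p'`, `v' = τ • x p`. -/
theorem one_X (h : FD Q Pts x) (R : RX Q Pts x) {p p' : X} (hp : p ∈ Q.O Pts x) {τ : ℂ}
    (hτ : Yv x Q.yi p' = τ • Yv x Q.yi p) (A : Fin c → Fin r) :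
    ∑ i, eval (x p') (R.ι A (du Q i)) * (τ ^ Q.b.dg i * eval (x p) (Q.e i)) =
      if p' = p then eval (x p') (Dl Q A) else 0 := by
  have h0 := DPs_ne (Yv_ne h p') hτ
  have := R.tate.one A (x p') (τ • x p) (h.onc p') (onC_smul (h.onc p) h0) hτ.symm
  simp only [hz_eval_smul (Q.e_mem _)] at this
  rw [this]
  refine if_congr ⟨fun e => h.inj p p' hp ⟨τ, e.symm⟩, ?_⟩ rfl rfl
  rintro rfl
  rw [DPs_one (Yv_ne h p') hτ, one_smul]

/-- `Tate.two` for the image of `S` under the injective map `p ↦ τ p • x p`, which is the fibre of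
the cone (`FD.surj`, `FD.inj`); `exists_jd`, `rx_ratio`, `hz_eval_smul`. -/
theorem two_X (h : FD Q Pts x) (R : RX Q Pts x) {z : E (n + 1)} (hz' : Gz Q Pts x z)
    {S : Finset X} {τ : X → ℂ} (hS : ∀ p, p ∈ S ↔ Yv x Q.yi p ∈ Ry z)
    (hτ : ∀ p ∈ S, z = τ p • Yv x Q.yi p) {i j : ℤ} {t : Q.Om} (ht : t ∈ Q.og j) {f : P m}
    (hf : f ∈ hz m i) {s : X → ℂ}
    (hs : ∀ p ∈ S, eval (x p) f • R.rl t p = s p • Wk x Q.yi p) :
    ∑ p ∈ S, τ p ^ (i + j - (n + 1 : ℕ)) * s p = eval z (Q.val t f) := by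
  classical
  have h0 : ∀ p ∈ S, τ p ≠ 0 := fun p hp => DPs_ne hz'.ne (hτ p hp)
  have hO : ∀ p ∈ S, p ∈ Q.O Pts x := fun p hp =>
    mem_O.2 ((offY_smul (h0 p hp)).1 (hτ p hp ▸ hz'.off))
  have hW : ∀ p ∈ S, (Wk x Q.yi p : Λ n) ≠ 0 := fun p hp => hz'.unr p ((hS p).1 hp)
  obtain ⟨g, hg⟩ : ∃ g : (Fin m → ℂ) → ℂ, ∀ v, (∃ A, eval v (Dl Q A) ≠ 0) →
      ∃ A, eval v (Dl Q A) ≠ 0 ∧ eval v (R.ι A t) = g v * eval v (Dl Q A) :=
    ⟨fun v => if h : ∃ A, eval v (Dl Q A) ≠ 0 then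
      eval v (R.ι h.choose t) / eval v (Dl Q h.choose) else 0, fun v h =>
        ⟨h.choose, h.choose_spec, by
          beta_reduce
          rw [dif_pos h, div_mul_cancel₀ _ h.choose_spec]⟩⟩
  have hD : ∀ A v (u : ℂ), eval (u • v) (Dl Q A) = u ^ (dA Q A : ℤ) * eval v (Dl Q A) :=
    fun A v u => hz_eval_smul (jd_hz A Q.yi) v u
  have hg' : ∀ p ∈ S, ∃ A, eval (τ p • x p) (Dl Q A) ≠ 0 ∧
      eval (τ p • x p) (R.ι A t) = g (τ p • x p) * eval (τ p • x p) (Dl Q A) := fun p hp => by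
    obtain ⟨A, hA⟩ := exists_jd h (hO p hp) (hW p hp)
    exact hg _ ⟨A, by
      rw [hD]
      exact mul_ne_zero (zpow_ne_zero _ (h0 p hp)) hA⟩
  rw [R.tate.two z hz'.ne (S.image fun p => τ p • x p) (fun v => ?_) t g (fun v hv => ?_) f,
    Finset.sum_image fun p hp p' hp' e => ?_]
  · refine Finset.sum_congr rfl fun p hp => ?_
    obtain ⟨A, a1, a2⟩ := hg' p hp
    rw [hD] at a1 a2
    rw [hz_eval_smul (R.tate.deg A j t ht)] at a2
    have a3 := right_ne_zero_of_mul a1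
    have a4 := hs p hp
    rw [rx_ratio h R ht (hO p hp) a3, smul_smul] at a4
    have a5 := smul_left_injective ℂ (hW p hp) a4
    have a6 := h0 p hp
    rw [hz_eval_smul hf, ← a5, add_sub_assoc, zpow_add₀ a6]
    rw [add_sub_assoc, zpow_add₀ a6, mul_assoc, mul_left_comm (g _)] at a2
    have a7 := mul_left_cancel₀ (zpow_ne_zero _ a6) a2
    field_simp
    linear_combination eval (x p) f * a7
  · exact (h.inj p p' (hO p hp) ⟨(τ p')⁻¹ * τ p, by
      rw [mul_smul, e, inv_smul_smul₀ (h0 p' hp')]⟩).symm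
  · rw [Finset.mem_image]
    constructor
    · rintro ⟨p, hp, rfl⟩
      exact ⟨onC_smul (h.onc p) (h0 p hp), (hτ p hp).symm⟩
    · rintro ⟨hv, rfl⟩
      obtain ⟨p, u, e⟩ := h.surj v hv hz'.off
      have e' : Yv x Q.yi p = u • yv Q v := by
        unfold Yv
        rw [e]
        rfl
      have hp := (hS p).2 ⟨u, e'⟩
      have e1 := hτ p hp
      rw [e', smul_smul] at e1
      exact ⟨p, hp, by rw [e, smul_smul, DPs_one hz'.ne e1, one_smul]⟩
  · obtain ⟨p, hp, rfl⟩ := Finset.mem_image.1 hv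
    exact hg' p hp

theorem dp_fun (h : FD Q Pts x) (R : RX Q Pts x) :
    DP Q Pts x 0 n Q.b.dg (fun i => fn n (ev x (Q.e i))) fun i => R.rl (du Q i) := by
  refine ⟨zero_add n, fun i => fn_Ty _, fun i => R.ty _,
    fun i p _ => ((h.pm p).holAt_ev (Q.e_mem i)).hfm ((h.pm p).gok_zpow _),
    fun i => R.hol _ _ (du_mem Q i), fun p hp p' hp' hW τ hτ μ hμ s hs => ?_,
    fun z hz S τ hS hτ i i' s hs => ?_⟩
  · obtain ⟨u, rfl⟩ := mem_Tp00.1 hμ
    obtain ⟨A, hA⟩ := exists_jd h hp' hW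
    have h1 : ∀ i, u * (eval (x p') (R.ι A (du Q i)) / eval (x p') (Dl Q A)) = s i := fun i => by
      have := hs i
      rw [DPs_left, rx_ratio h R (du_mem Q i) hp' hA, smul_smul] at this
      exact smul_left_injective ℂ hW this
    have h2 := one_X h R hp hτ A
    have h3 : ∑ i, s i * τ ^ Q.b.dg i * eval (x p) (Q.e i) = u / eval (x p') (Dl Q A) *
        ∑ i, eval (x p') (R.ι A (du Q i)) * (τ ^ Q.b.dg i * eval (x p) (Q.e i)) := by
      rw [Finset.mul_sum]
      refine Finset.sum_congr rfl fun i _ => ?_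
      rw [← h1]
      ring
    simp only [fn, ev, Algebra.algebraMap_eq_smul_one, smul_smul, ← Finset.sum_smul]
    rw [h3, h2]
    split_ifs
    · rw [div_mul_cancel₀ _ (show eval (x p') (Dl Q A) ≠ 0 from hA)]
    · rw [mul_zero, zero_smul]
  · have := two_X h R hz hS hτ (du_mem Q i') (Q.e_mem i) fun p hp =>
      (DPs_left _ _).symm.trans (hs p hp)
    rw [val_du, apply_ite (eval z), map_one, map_zero, add_sub_assoc, sub_sub_cancel_left,
      ← sub_eq_add_neg] at this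
    exact this

/-- For `one` write `μ = μ₀ • Wk x Q.yi p'`, take `(A, l)` with `jd A l (x p) ≠ 0` (`FD.sm0`), use `key`
at `p`, `one_X` with the points exchanged and `τ⁻¹`, and `jw_swap`. -/
theorem dp_form (h : FD Q Pts x) (R : RX Q Pts x) :
    DP Q Pts x n 0 (fun i => (n + 1 : ℕ) - Q.b.dg i) (fun i => R.rl (du Q i))
      fun i => fn n (ev x (Q.e i)) := by
  refine ⟨add_zero n, fun i => R.ty _, fun i => fn_Ty _, fun i => R.hol _ _ (du_mem Q i),
    fun i p _ => ?_, fun p hp p' hp' hW τ hτ μ hμ s hs => ?_, fun z hz S τ hS hτ i i' s hs => ?_⟩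
  · rw [sub_sub_cancel]
    exact ((h.pm p).holAt_ev (Q.e_mem i)).hfm ((h.pm p).gok_zpow _)
  · obtain ⟨u, rfl⟩ := exists_wk_mul hW hμ
    obtain ⟨A, l, hA⟩ := h.sm0 (x p) (h.onc p) hp
    have h0 := DPs_ne (Yv_ne h p') hτ
    have h1 : ∀ i, eval (x p') (Q.e i) * u = s i := fun i => by
      have := hs i
      rw [fn, DPs_right, smul_smul] at this
      exact smul_left_injective ℂ hW this
    have h2 := one_X h R hp' (τ := τ⁻¹) (p' := p) (by rw [hτ, inv_smul_smul₀ h0]) A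
    have h3 : ∑ i, s i * τ ^ (((n + 1 : ℕ) : ℤ) - Q.b.dg i) * eval (x p) (R.ι A (du Q i)) =
        u * τ ^ ((n + 1 : ℕ) : ℤ) *
          ∑ i, eval (x p) (R.ι A (du Q i)) * (τ⁻¹ ^ Q.b.dg i * eval (x p') (Q.e i)) := by
      rw [Finset.mul_sum]
      refine Finset.sum_congr rfl fun i _ => ?_
      rw [← h1, zpow_sub₀ h0, inv_zpow]
      ring
    refine smul_right_injective _ hA ?_
    simp only [Finset.smul_sum, smul_comm (eval (x p) _) (_ * _ : ℂ),
      ← R.key _ _ (du_mem Q _) p hp A l, smul_smul, ← Finset.sum_smul]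
    rw [h3, h2]
    by_cases e : p' = p
    · subst e
      rw [if_pos rfl, if_pos rfl, DPs_one (Yv_ne h p') hτ, one_zpow, mul_one, mul_smul, smul_comm _ u,
        jw_swap h hp A l Q.yi]
      rfl
    · rw [if_neg e, if_neg (Ne.symm e), mul_zero, zero_smul, smul_zero]
  · have := two_X h R hz hS hτ (du_mem Q i) (Q.e_mem i') fun p hp =>
      (DPs_right _ _).symm.trans (hs p hp)
    rw [val_du, apply_ite (eval z), map_one, map_zero] at this
    rw [add_sub_assoc, sub_sub_cancel_left, ← sub_eq_add_neg] at this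
    rw [sub_sub_sub_cancel_left, this]
    by_cases e : i = i'
    · rw [if_pos e, if_pos e.symm]
    · rw [if_neg e, if_neg (Ne.symm e)]

end

end Pool.Agent.MP_1c689d_ag.K0.Fd

end

section

/-! Dual pairs are independent. -/

set_option autoImplicit false

open Complex Filter Topology Set MeasureTheory MvPolynomial
open scoped ComplexConjugate ContDiff ENNReal

namespace Pool.Agent.MP_1c689d_ag.K0.Fd

noncomputable section

variable {n m c r : ℕ} {X : Type} [TopologicalSpace X] [Mf n X] {Q : PD m (n + 1) c r}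
  {Pts : Finset (Fin (n + 1) → ℂ)} {x : X → Fin m → ℂ}
  {a : ℕ} {e : Q.b.ι → ℤ} {ρ : Q.b.ι → Fm n X}
  {a' : ℕ} {σ : Q.b.ι → Fm n X}

/-- At a point `z ∈ U` with `Gz` multiply the relation at `p` by `σ i' p` and
`τ p ^ (k - e i')`, sum over the fibre (`fib_fin`, `exists_wk_mul`) and use `DP.two`; then
`gz_dense` and continuity. -/
theorem DP.inj (h : FE Q Pts x) (hn : 1 ≤ n) (hD : DP Q Pts x a a' e ρ σ) (k : ℤ)
    (U : Set (E (n + 1))) (b : Q.b.ι → E (n + 1) → ℂ) (hU : Cn U)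
    (hb : ∀ i, Hm (k - e i) U (b i))
    (h0 : ∀ p ∈ Q.O Pts x, Yv x Q.yi p ∈ U → ∑ i, b i (Yv x Q.yi p) • ρ i p = 0) :
    ∀ i, ∀ z ∈ U, b i z = 0 := by
  intro i'
  refine EqOn.of_subset_closure (f := b i') (g := fun _ => 0) ?_ (hb i').1.continuousOn
    continuousOn_const inter_subset_left
    ((gz_dense h.fd hn).open_subset_closure_inter hU.1)
  rintro z ⟨hz, hg⟩
  have hf := fib_fin h hg.ne hg.off
  have h1 : ∀ p, ∃ (τ : ℂ) (s : Q.b.ι → ℂ), p ∈ hf.toFinset → z = τ • Yv x Q.yi p ∧ τ ≠ 0 ∧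
      (∀ i, ρ i p * σ i' p = s i • Wk x Q.yi p) ∧
      ∑ i, b i z * (τ ^ (e i - e i') * s i) = 0 := fun p => by
    by_cases hp : p ∈ hf.toFinset
    swap
    · exact ⟨0, 0, fun h => (hp h).elim⟩
    rw [Finite.mem_toFinset] at hp
    have hw := hg.unr p hp
    obtain ⟨t, ht⟩ := hp
    have t0 : t ≠ 0 := left_ne_zero_of_smul (ht ▸ Yv_ne h.fd p)
    have h2 : z = t⁻¹ • Yv x Q.yi p := by rw [ht, inv_smul_smul₀ t0]
    have hY : Yv x Q.yi p ∈ U := ht ▸ hU.2 z hz t t0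
    choose s hs using fun i => exists_wk_mul hw (μ := ρ i p * σ i' p)
      (by simpa only [hD.add] using Tp_mul (hD.ty i p) (hD.ty' i' p))
    refine ⟨t⁻¹, s, fun _ => ⟨h2, inv_ne_zero t0, hs, ?_⟩⟩
    have h3 := congrArg (· * σ i' p) (h0 p (fun u hu t' h3 =>
      hg.off u hu (t⁻¹ * t') (by rw [h2, mul_smul]; exact congrArg _ h3)) hY)
    simp only [Finset.sum_mul, smul_mul_assoc, hs, smul_smul, ← Finset.sum_smul, zero_mul] at h3
    rw [← mul_zero (t⁻¹ ^ (k - e i')), ← (smul_eq_zero.1 h3).resolve_right hw, Finset.mul_sum]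
    refine Finset.sum_congr rfl fun i _ => ?_
    rw [h2, (hb i).2 _ hY _ (inv_ne_zero t0), show k - e i' = k - e i + (e i - e i') by ring,
      zpow_add₀ (inv_ne_zero t0)]
    ring
  choose τ s h1 using h1
  have h2 := fun i => hD.two z hg hf.toFinset τ (fun p => hf.mem_toFinset)
    (fun p hp => (h1 p hp).1) i i' (fun p => s p i) fun p hp => (h1 p hp).2.2.1 i
  have h3 := Finset.sum_eq_zero fun p hp => (h1 p hp).2.2.2
  rw [Finset.sum_comm] at h3
  simp only [← Finset.mul_sum, h2] at h3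
  rwa [Finset.sum_eq_single_of_mem i' (Finset.mem_univ _) fun i _ hi => by rw [if_neg hi, mul_zero],
    if_pos rfl, mul_one] at h3

end

end Pool.Agent.MP_1c689d_ag.K0.Fd

end

section

/-! The trace of a holomorphic top form is holomorphic. -/

set_option autoImplicit false

open Complex Filter Topology Set MeasureTheory MvPolynomial
open scoped ComplexConjugate ContDiff ENNReal

namespace Pool.Agent.MP_1c689d_ag.K0.Fd

noncomputable section

variable {n : ℕ} {X : Type} [TopologicalSpace X] [Mf n X] [MeasurableSpace X] [BorelSpace X]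

theorem TRG_om : cj (pdz n) ∈ Tp n 0 n := cj_Tp EA2_prod_dz_mem

theorem TRG_kap : ∃ κ : ℂ, κ ≠ 0 ∧ cj (pdz n) * pdz n = κ • vol n := by
  have h : cj (pdz n) * pdz n ∈ Tp n n n := by
    simpa using Tp_mul (TRG_om (n := n)) EA2_prod_dz_mem
  refine ⟨_, fun h0 => EA2_vol_ne (n := n) ?_, eq_top_smul h⟩
  have h1 := eq_top_smul h
  rw [h0, zero_smul] at h1
  rw [EA2_vol, comm_Dg (Tp_le_Dg EA2_prod_dz_mem) (Tp_le_Dg TRG_om), h1, smul_zero, smul_zero]

theorem TRG_db {φ : E n → ℂ} (hφ : ContDiff ℝ ∞ φ) (j : Fin n) :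
    dbE (fun w => φ w • CSD_c j (cj (pdz n))) = fun z => pzb j φ z • cj (pdz n) := by
  funext z
  have h1 : ∀ l : Fin n, dzb l * CSD_c j (cj (pdz n)) = if l = j then cj (pdz n) else 0 :=
    fun l => by
      have h0 : dzb l * cj (pdz n) = 0 := by
        have := Tp_mul (dzb_mem l) (TRG_om (n := n))
        rwa [Tp_eq_bot (Or.inr (by omega)), Submodule.mem_bot] at this
      have := EA1_rr j l (cj (pdz n))
      rw [h0, map_zero] at this
      exact (sub_eq_zero.1 this.symm).symm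
  have h2 : ∀ l : Fin n, pzb l (fun w => φ w • CSD_c j (cj (pdz n))) z =
      pzb l φ z • CSD_c j (cj (pdz n)) := fun l =>
    DFb_pzb (LinearMap.toSpanSingleton ℂ (Λ n) (CSD_c j (cj (pdz n))))
      (Or.inl (hφ.differentiable (by simp) z)) l
  simp only [dbE, h2, mul_smul_comm, h1, smul_ite, smul_zero, Finset.sum_ite_eq', Finset.mem_univ,
    if_true]

theorem TRG_sm {u : X → E n} {O : Set X} (hO : IsOpen O) (hu : ∀ p ∈ O, HMap u p) {α : Fm n X}
    (hα : ∀ p ∈ O, HFm 1 α p) {γ : E n → Λ n} (hγ : ContDiff ℝ ∞ γ)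
    (hc : IsCompact (O ∩ u ⁻¹' tsupport γ)) :
    Sm 1 (indicator O (pb u γ * α)) univ ∧ HasCompactSupport (indicator O (pb u γ * α)) ∧
      dbar 1 (indicator O (pb u γ * α)) = indicator O (pb u (dbE γ) * α) := by
  have h0 : ∀ y ∉ O ∩ u ⁻¹' tsupport γ, indicator O (pb u γ * α) y = 0 := fun y hy => by
    by_cases h : y ∈ O
    · rw [indicator_of_mem h, Pi.mul_apply, pb,
        image_eq_zero_of_notMem_tsupport fun h' => hy ⟨h, h'⟩, map_zero, zero_mul]
    · exact indicator_of_notMem h _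
  have ht : tsupport (indicator O (pb u γ * α)) ⊆ O ∩ u ⁻¹' tsupport γ :=
    closure_minimal (fun y hy => by_contra fun h => hy (h0 y h)) hc.isClosed
  have he : ∀ y ∈ O, indicator O (pb u γ * α) =ᶠ[𝓝 y] pb u γ * α := fun y hy =>
    (hO.eventually_mem hy).mono fun _ h => indicator_of_mem h _
  have hg : ∀ z, SmAt 1 (γ : Fm n (E n)) z := fun z =>
    smAt_E.2 (Eventually.of_forall fun _ => hγ.contDiffAt)
  have hs : ∀ y ∈ O, SmAt 1 (pb u γ) y := fun y hy => MF2b_pb (hu y hy) (hg _)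
  refine ⟨fun y _ => SmAt.of_tsupport' (fun y hy => ((hs y hy).mul_left (hα y hy).1).congr
    (he y hy).symm) (ht.trans inter_subset_left), hc.of_isClosed_subset (isClosed_tsupport _) ht,
    funext fun y => ?_⟩
  by_cases hy : y ∈ O
  · rw [dbar_congr (he y hy), MF3b_bmul (hs y hy) (hα y hy).1, (hα y hy).2.self_of_nhds, mul_zero,
      add_zero, indicator_of_mem hy, Pi.mul_apply, ← dbar_E, pb_dbar (hu y hy) (hg _), gpb_one]
  · rw [indicator_of_notMem hy]
    exact image_eq_zero_of_notMem_tsupport fun h => hy (ht (tsupport_dbar h)).1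

theorem TRG_int {u : X → E n} {O : Set X} (hO : IsOpen O) (hu : ∀ p ∈ O, HMap u p)
    (hfin : ∀ w, (O ∩ u ⁻¹' {w}).Finite) {α : Fm n X} (hα : ∀ p ∈ O, HFm 1 α p) {s : X → ℂ}
    (hs : ∀ p ∈ O ∩ Unr u, α p = s p • pb u (fun _ => pdz n) p) {ψ : E n → ℂ}
    (hγ : ContDiff ℝ ∞ fun z => ψ z • cj (pdz n))
    (hc : IsCompact (O ∩ u ⁻¹' tsupport fun z => ψ z • cj (pdz n))) :
    Integrable (fun w => (∑ᶠ p ∈ O ∩ Unr u ∩ u ⁻¹' {w}, s p) * ψ w) ∧
      (itg (indicator O (pb u (fun z => ψ z • cj (pdz n)) * α)) = 0 →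
        ∫ w, (∑ᶠ p ∈ O ∩ Unr u ∩ u ⁻¹' {w}, s p) * ψ w = 0) := by
  obtain ⟨κ, hκ, eκ⟩ := TRG_kap (n := n)
  obtain ⟨h1, h2, -⟩ := TRG_sm hO hu hα hγ hc
  obtain ⟨h3, h4⟩ := area_integral hO hu (null_ram hO hu hfin) hfin
    (intg_of_sm h1 h2).integrableOn
  have e : ∀ w, ∑ᶠ y ∈ O ∩ Unr u ∩ u ⁻¹' {w},
      top (indicator O (pb u (fun z => ψ z • cj (pdz n)) * α) y) /
        top (pb u (fun _ => vol n) y) =
      κ * ((∑ᶠ p ∈ O ∩ Unr u ∩ u ⁻¹' {w}, s p) * ψ w) := fun w => by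
    rw [mul_comm _ (ψ w), ← mul_assoc, mul_finsum_mem]
    refine finsum_mem_congr rfl fun y hy => ?_
    have hd : top (lm (df u y) (vol n)) ≠ 0 := by
      rw [top_lm, top_vol, mul_one, ofReal_ne_zero]
      exact fun h => (LinearMap.det_eq_zero_iff_ker_ne_bot.1 h) (LinearMap.ker_eq_bot.2 hy.1.2)
    have hw : u y = w := hy.2
    rw [indicator_of_mem hy.1.1, Pi.mul_apply, hs y hy.1]
    simp only [pb]
    rw [map_smul, smul_mul_smul_comm, ← map_mul, eκ, map_smul, map_smul, map_smul, hw, smul_eq_mul,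
      smul_eq_mul]
    field_simp
  simp only [e] at h3 h4
  refine ⟨(integrable_const_mul_iff (Ne.isUnit hκ) _).1 h3, fun h0 => ?_⟩
  rw [setIntegral_eq_integral_of_forall_compl_eq_zero fun y hy => ?_, integral_const_mul] at h4
  · exact (mul_eq_zero.1 (h4.symm.trans h0)).resolve_left hκ
  · obtain ⟨jac, -, hj⟩ := exists_jac n X
    rw [hj, indicator_of_notMem hy, map_zero, mul_zero]

/-- Let `f w` be the sum, `ω = cj (pdz n)` and `C = top (pdz n * ω) ≠ 0` (`pos_n0`). For `φ` smooth with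
compact support `K ⊆ W` let `η φ = indicator O (α * pb u (φ • ω))`, a smooth form supported in the
compact `O ∩ u ⁻¹' K`. By `area_integral` (`null_ram`; on `Unr u` the quotient is a constant multiple of
`s p * φ (u p)`, see `EA2_vol`) `f * φ` is integrable and `∫ f * φ` is a multiple of `itg (η φ)`. With
`ω j = CSD_c j ω` one has `dzb l * ω j = if l = j then ω else 0` (`EA1_rr` applied to
`dzb l * ω = 0`), so `dbE (φ • ω j) = pzb j φ • ω`, and
`stokes_dbar` for `indicator O (α * pb u (φ • ω j))` gives `∫ f * pzb j φ = 0`. Apply `weyl`. -/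
theorem trace_hol {u : X → E n} {O : Set X} (hO : IsOpen O) (hu : ∀ p ∈ O, HMap u p)
    (hfin : ∀ w, (O ∩ u ⁻¹' {w}).Finite) {W : Set (E n)} (hW : IsOpen W)
    (hp : ∀ K ⊆ W, IsCompact K → IsCompact (O ∩ u ⁻¹' K)) {α : Fm n X}
    (hα : ∀ p ∈ O, HFm 1 α p) {s : X → ℂ}
    (hs : ∀ p ∈ O ∩ Unr u, α p = s p • pb u (fun _ => pdz n) p) :
    ∃ g : E n → ℂ, DifferentiableOn ℂ g W ∧
      ∀ᵐ w, w ∈ W → g w = ∑ᶠ p ∈ O ∩ Unr u ∩ u ⁻¹' {w}, s p := by
  have hts : ∀ (φ : E n → ℂ) (a : Λ n), (tsupport fun z => φ z • a) ⊆ tsupport φ := fun φ a =>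
    tsupport_smul_subset_left φ fun _ => a
  have hcp : ∀ (φ : E n → ℂ) (γ : E n → Λ n), HasCompactSupport φ → tsupport φ ⊆ W →
      tsupport γ ⊆ tsupport φ → IsCompact (O ∩ u ⁻¹' tsupport γ) := fun φ γ h1 h2 h3 =>
    hp _ (h3.trans h2) (h1.of_isClosed_subset (isClosed_tsupport _) h3)
  refine (weyl (f := fun w => ∑ᶠ p ∈ O ∩ Unr u ∩ u ⁻¹' {w}, s p) hW ?_ ?_).imp
    fun g h => ⟨h.1, h.2.mono fun _ h hw => (h hw).symm⟩
  · intro x hx
    obtain ⟨r, hr, hb⟩ := Metric.nhds_basis_closedBall.mem_iff.1 (hW.mem_nhds hx)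
    let b : ContDiffBump x := ⟨r / 2, r, by positivity, by linarith⟩
    have c1 : ContDiff ℝ ∞ fun z => ((b z : ℝ) : ℂ) := ofRealCLM.contDiff.comp b.contDiff
    have c2 : (tsupport fun z => ((b z : ℝ) : ℂ)) ⊆ Metric.closedBall x r := by
      refine closure_minimal (fun z hz => ?_) Metric.isClosed_closedBall
      refine Metric.ball_subset_closedBall (b.support_eq ▸ fun h => hz ?_)
      simp [h]
    have c3 := (TRG_int hO hu hfin hα hs (ψ := fun z => ((b z : ℝ) : ℂ)) (c1.smul contDiff_const)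
      (hcp _ _ ((isCompact_closedBall x r).of_isClosed_subset (isClosed_tsupport _) c2)
        (c2.trans hb) (hts _ _))).1
    refine ⟨Metric.closedBall x (r / 2),
      mem_nhdsWithin_of_mem_nhds (Metric.closedBall_mem_nhds x (by positivity)), ?_⟩
    refine c3.integrableOn.congr_fun (fun z hz => ?_) Metric.isClosed_closedBall.measurableSet
    simp [b.one_of_mem_closedBall hz]
  · intro φ h1 h2 h3 j
    have c1 : ContDiff ℝ ∞ fun w => φ w • CSD_c j (cj (pdz n)) := h1.smul contDiff_const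
    obtain ⟨a1, a2, a3⟩ := TRG_sm hO hu hα c1 (hcp φ _ h2 h3 (hts _ _))
    have c2 := CSD_db_sm c1
    have c3 : tsupport (dbE fun w => φ w • CSD_c j (cj (pdz n))) ⊆ tsupport φ := by
      rw [← dbar_E]
      exact tsupport_dbar.trans (hts _ _)
    have c4 := stokes_dbar a1 a2
    rw [a3] at c4
    rw [TRG_db h1] at c2 c3 c4
    exact (TRG_int hO hu hfin hα hs c2 (hcp φ _ h2 h3 c3)).2 c4

end

end Pool.Agent.MP_1c689d_ag.K0.Fd

end

section

/-! Dual pairs generate. -/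

set_option autoImplicit false

open Complex Filter Topology Set MeasureTheory MvPolynomial
open scoped ComplexConjugate ContDiff ENNReal

namespace Pool.Agent.MP_1c689d_ag.K0.Fd

noncomputable section

variable {n m c r : ℕ} {X : Type} [TopologicalSpace X] [Mf n X] {Q : PD m (n + 1) c r}
  {Pts : Finset (Fin (n + 1) → ℂ)} {x : X → Fin m → ℂ}
  {a : ℕ} {e : Q.b.ι → ℤ} {ρ : Q.b.ι → Fm n X}
  {a' : ℕ} {σ : Q.b.ι → Fm n X}

theorem FRs_mul {p : X} (h : PMAt x p) {i j l : ℤ} {α β : Fm n X} (hα : HFm (gx x ^ i) α p)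
    (hβ : HFm (gx x ^ j) β p) (e : i + j = l) : HFm (gx x ^ l) (α * β) p :=
  (hα.mul hβ (h.gok_zpow i) (h.gok_zpow j)).gauge ((h.gok_zpow i).mul (h.gok_zpow j))
    (h.eventually.mono fun _ hy => hy.gz_add e)

omit [TopologicalSpace X] [Mf n X] in
theorem FRs_Yv {y : Fin (n + 1) → Fin m} {l : Fin (n + 1)} {p : X} (hl : x p (y l) ≠ 0) :
    Yv x y p = x p (y l) • ins l (ua x y l p) :=
  (smul_ins_aff (k := l) (z := Yv x y p) hl).symm

omit [TopologicalSpace X] [Mf n X] in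
theorem FRs_O {l : Fin (n + 1)} {p : X} (hl : x p (Q.yi l) ≠ 0)
    (ho : OffY Pts (ins l (ua x Q.yi l p))) : p ∈ Q.O Pts x := by
  rw [mem_O, FRs_Yv hl, offY_smul hl]
  exact ho

theorem FRs_alg {u v t : ℂ} (hu : u ≠ 0) (hv : v ≠ 0) (k j : ℤ) (l : ℕ) :
    (v / u) ^ (-k) * ((-1) ^ l * (v ^ (k - j) * t) * (v / u) ^ j) =
      (-1) ^ l * (u ^ (k - j) * t) := by
  rw [zpow_neg, div_zpow, div_zpow, zpow_sub₀ hv, zpow_sub₀ hu]
  have := zpow_ne_zero k hu
  have := zpow_ne_zero k hv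
  have := zpow_ne_zero j hu
  have := zpow_ne_zero j hv
  field_simp

theorem FRs_alg2 {v : ℂ} (hv : v ≠ 0) (t : ℂ) (k j : ℤ) (l N : ℕ) :
    v ^ (-(k + ((N : ℕ) - j))) * ((-1) ^ l * (v ^ (k - j) * t) * ((-1) ^ l * v ^ N)) = t := by
  have h1 : ((-1 : ℂ) ^ l) * (-1) ^ l = 1 := by
    rw [← mul_pow]
    simp
  have h2 : v ^ (-(k + ((N : ℕ) - j))) * (v ^ (k - j) * v ^ (N : ℤ)) = 1 := by
    rw [← zpow_add₀ hv, ← zpow_add₀ hv, show -(k + ((N : ℕ) - j)) + (k - j + (N : ℤ)) = 0 by ring,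
      zpow_zero]
  rw [zpow_natCast] at h2
  linear_combination t * ((-1) ^ l * (-1) ^ l) * h2 + t * h1

/-- The image under `ua` of the compact set
`({x (yi l) ≠ 0} ∩ ua ⁻¹' closedBall w₀ 1) \ B` is closed and does not contain `w₀`. -/
theorem exists_W (h : FD Q Pts x) (l : Fin (n + 1)) {w₀ : E n} (ho : OffY Pts (ins l w₀))
    {B : Set X} (hB : IsOpen B) (hs : ∀ p, Yv x Q.yi p ∈ Ry (ins l w₀) → p ∈ B) :
    ∃ W : Set (E n), IsOpen W ∧ w₀ ∈ W ∧ (∀ w ∈ W, OffY Pts (ins l w)) ∧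
      ∀ p, x p (Q.yi l) ≠ 0 → ua x Q.yi l p ∈ W → p ∈ B := by
  have hK := (ua_prop h l (isCompact_closedBall w₀ 1)).diff hB
  have hc := (hK.image_of_continuousOn (f := ua x Q.yi l) fun p hp =>
    (ua_hmap (h.pm p) hp.1.1).continuousAt.continuousWithinAt).isClosed
  refine ⟨(Metric.ball w₀ 1 ∩ (ua x Q.yi l '' _)ᶜ) ∩ ins l ⁻¹' {z | z ≠ 0 ∧ OffY Pts z},
    (Metric.isOpen_ball.inter hc.isOpen_compl).inter
      ((cn_offY Pts).1.preimage (differentiable_ins l).continuous),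
    ⟨⟨Metric.mem_ball_self one_pos, ?_⟩, fun h0 => ?_, ho⟩, fun w hw => hw.2.2,
    fun p hp hw => ?_⟩
  · rintro ⟨p, hp, e⟩
    exact hp.2 (hs p ((ua_eq_iff hp.1.1).1 e))
  · have := ins_self l w₀
    rw [h0] at this
    exact zero_ne_one this
  · by_contra hn
    exact hw.1.2 ⟨p, ⟨⟨hp, Metric.ball_subset_closedBall hw.1.1⟩, hn⟩, rfl⟩

/-- The fibre of `w = ua p` consists of points `p'` with `Yv p' = τ • Yv p`,
`τ = x p' (yi l) / x p (yi l)`; use `wk_ua`, `DP.one` with `μ = α p'`, multiply by `τ ^ (-k)` and sum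
over `p'`. -/
theorem DP.sum_eq (h : FE Q Pts x) (hD : DP Q Pts x a a' e ρ σ) {k : ℤ} {l : Fin (n + 1)} {p : X}
    (hl : x p (Q.yi l) ≠ 0) (hg : Gz Q Pts x (ins l (ua x Q.yi l p))) {α : Fm n X}
    {s : Q.b.ι → X → ℂ} {S : Finset X}
    (hS : ∀ p', p' ∈ S ↔ x p' (Q.yi l) ≠ 0 ∧ ua x Q.yi l p' = ua x Q.yi l p)
    (ht : ∀ p' ∈ S, α p' ∈ Tp n a 0)
    (hs : ∀ i, ∀ p' ∈ S, x p' (Q.yi l) ^ (-(k + ((n + 1 : ℕ) - e i))) • (α p' * σ i p') =
      s i p' • pb (ua x Q.yi l) (fun _ => pdz n) p') :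
    α p = ∑ i, ((-1) ^ (l : ℕ) * (x p (Q.yi l) ^ (k - e i) * ∑ p' ∈ S, s i p')) • ρ i p := by
  classical
  have key : ∀ p' ∈ S, ∑ i, ((-1) ^ (l : ℕ) * (x p (Q.yi l) ^ (k - e i) * s i p')) • ρ i p =
      if p' = p then α p else 0 := by
    intro p' hp'
    obtain ⟨hl', he⟩ := (hS p').1 hp'
    have h1 := hD.one p (FRs_O hl hg.off) p' (FRs_O hl' (he ▸ hg.off))
      (hg.unr p' ((ua_eq_iff hl').1 he)) (x p' (Q.yi l) / x p (Q.yi l))
      (by rw [FRs_Yv hl', FRs_Yv hl, he, smul_smul, div_mul_cancel₀ _ hl]) (α p') (ht p' hp')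
      (fun i => (-1) ^ (l : ℕ) * (x p' (Q.yi l) ^ (k - e i) * s i p')) fun i => by
        refine smul_right_injective _ (zpow_ne_zero (-(k + ((n + 1 : ℕ) - e i))) hl') ?_
        dsimp only
        rw [hs i p' hp', wk_ua (h.fd.pm p') hl', smul_smul, smul_smul, mul_assoc, FRs_alg2 hl']
    have h2 := congrArg ((x p' (Q.yi l) / x p (Q.yi l)) ^ (-k) • ·) h1
    simp only [Finset.smul_sum, smul_smul, FRs_alg hl hl'] at h2
    rw [h2]
    split_ifs with h3
    · rw [h3, div_self hl, one_zpow, one_smul]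
    · rw [smul_zero]
  have h4 := Finset.sum_congr rfl key
  rw [Finset.sum_ite_eq', if_pos ((hS p).2 ⟨hl, rfl⟩), Finset.sum_comm] at h4
  rw [← h4]
  refine Finset.sum_congr rfl fun i _ => ?_
  rw [← Finset.sum_smul, Finset.mul_sum, Finset.mul_sum]

/-- Take `l` with `z₀ l ≠ 0`, `w₀ = aff l z₀`, `B` the open set where `α` is holomorphic and of type
`(a, 0)`, `W` from `exists_W`, `O' = {x (yi l) ≠ 0} ∩ ua ⁻¹' W`. The forms
`x (yi l) ^ (-(k + (n + 1 - e i))) • (α * σ i)` are holomorphic on `O'` for the trivial gauge; let `g i`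
be their traces (`borelize X`, `trace_hol`, `ua_prop`, `ua_fin`) and
`b i z = (-1) ^ l * (z l ^ (k - e i) * g i (aff l z))` on `U = {z l ≠ 0, aff l z ∈ W}` (`cn_aff`,
`hm_aff`). By `DP.sum_eq`, `gz_ae` and `freq_of_ae` the identity holds frequently near each point of
`O'`; both sides are smooth (`holAt_hm`), so `SmAt.eq_zero_of_frequently` applies. -/
theorem DP.surj (h : FE Q Pts x) (hn : 1 ≤ n) (hD : DP Q Pts x a a' e ρ σ) (k : ℤ)
    (z₀ : E (n + 1)) (h0 : z₀ ≠ 0) (ho : OffY Pts z₀) (α : Fm n X)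
    (hα : ∀ p, Yv x Q.yi p ∈ Ry z₀ → HFm (gx x ^ k) α p ∧ ∀ᶠ y in 𝓝 p, α y ∈ Tp n a 0) :
    ∃ (U : Set (E (n + 1))) (b : Q.b.ι → E (n + 1) → ℂ), Cn U ∧ z₀ ∈ U ∧
      (∀ i, Hm (k - e i) U (b i)) ∧
      ∀ p, Yv x Q.yi p ∈ U → α p = ∑ i, b i (Yv x Q.yi p) • ρ i p := by
  borelize X
  obtain ⟨l, hl⟩ := Function.ne_iff.1 h0
  have hl : z₀ l ≠ 0 := hl
  have e0 := smul_ins_aff hl
  have hB : IsOpen {p | HFm (gx x ^ k) α p ∧ ∀ᶠ y in 𝓝 p, α y ∈ Tp n a 0} :=
    isOpen_iff_mem_nhds.2 fun p hp =>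
      (hp.1.eventually ((h.fd.pm p).gok_zpow k)).and hp.2.eventually_nhds
  obtain ⟨W, hW, hw, hWo, hWB⟩ := exists_W h.fd l (w₀ := aff l z₀)
    ((offY_smul hl).1 (e0.symm ▸ ho)) hB fun p hp => hα p (by
      rw [ry_eq h0 (z' := ins l (aff l z₀)) ⟨_, e0.symm⟩]
      exact hp)
  set u := ua x Q.yi l with hu
  set O : Set X := {p | x p (Q.yi l) ≠ 0} ∩ u ⁻¹' W with hO
  have hO1 : IsOpen O := ContinuousOn.isOpen_inter_preimage
    (fun p hp => (ua_hmap (h.fd.pm p) hp).continuousAt.continuousWithinAt) (isOpen_k h.fd _) hW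
  have hO2 : ∀ p ∈ O, p ∈ Q.O Pts x := fun p hp => FRs_O hp.1 (hWo _ hp.2)
  have hfin : ∀ w, (O ∩ u ⁻¹' {w}).Finite := fun w =>
    (ua_fin h l w).subset fun p hp => ⟨⟨hO2 p hp.1, hp.1.1⟩, hp.2⟩
  have hs : ∀ i p, ∃ t : ℂ, p ∈ O ∩ Unr u →
      x p (Q.yi l) ^ (-(k + ((n + 1 : ℕ) - e i))) • (α p * σ i p) =
        t • pb u (fun _ => pdz n) p := by
    intro i p
    by_cases hp : p ∈ O ∩ Unr u
    · have h1 := Tp_mul (hWB p hp.1.1 hp.1.2).2.self_of_nhds (hD.ty' i p)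
      rw [hD.add] at h1
      obtain ⟨t, ht⟩ := exists_wk_mul ((unr_iff (h.fd.pm p) hp.1.1).1 hp.2) h1
      exact ⟨_, fun _ => by rw [ht, wk_ua (h.fd.pm p) hp.1.1, smul_smul, smul_smul]⟩
    · exact ⟨0, fun h1 => absurd h1 hp⟩
  choose s hs using hs
  have hg : ∀ i, ∃ g : E n → ℂ, DifferentiableOn ℂ g W ∧
      ∀ᵐ w, w ∈ W → g w = ∑ᶠ p ∈ O ∩ Unr u ∩ u ⁻¹' {w}, s i p := fun i => by
    refine trace_hol hO1 (fun p hp => ua_hmap (h.fd.pm p) hp.1) hfin hW (fun K hK hc => ?_)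
      (α := fn n (fun p => x p (Q.yi l) ^ (-(k + ((n + 1 : ℕ) - e i)))) * (α * σ i))
      (fun p hp => ?_) fun p hp => ?_
    · have : O ∩ u ⁻¹' K = {p | x p (Q.yi l) ≠ 0} ∩ u ⁻¹' K :=
        Subset.antisymm (fun p hp => ⟨hp.1.1, hp.2⟩) fun p hp => ⟨⟨hp.1, hK hp.2⟩, hp.2⟩
      rw [this]
      exact ua_prop h.fd l hc
    · have hx := h.fd.pm p
      have := FRs_mul hx ((((hx.holAt (Q.yi l)).zpow hx.gok hp.1
        (-(k + ((n + 1 : ℕ) - e i)))).hfm (hx.gok_zpow _)))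
        (FRs_mul hx (hWB p hp.1 hp.2).1 (hD.hol' i p (hO2 p hp)) rfl) (neg_add_cancel _)
      rwa [zpow_zero] at this
    · rw [fn_mul]
      exact hs i p hp
  choose g hg hg' using hg
  have hb := fun i => hm_aff l hW ((hg i).const_mul ((-1) ^ (l : ℕ))) (k - e i)
  refine ⟨_, _, cn_aff l hW, ⟨hl, hw⟩, hb, fun p hp => ?_⟩
  have hpO : p ∈ O := hp
  have hx := h.fd.pm p
  have hsm := (hWB p hp.1 hp.2).1.1.sub (SmAt.sum (S := Finset.univ) fun i _ =>
    (holAt_hm hx (Yv_ne h.fd p) (cn_aff l hW) (hb i) hp).smAt.mul_zpow hx.gok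
      (hD.hol i p (hO2 p hpO)).1 (sub_add_cancel k (e i)))
  have key : ∀ y, (α - ∑ i, fn n (fun p' => Yv x Q.yi p' l ^ (k - e i) *
      ((-1) ^ (l : ℕ) * g i (aff l (Yv x Q.yi p')))) * ρ i) y = 0 ↔
      α y = ∑ i, (Yv x Q.yi y l ^ (k - e i) *
        ((-1) ^ (l : ℕ) * g i (aff l (Yv x Q.yi y)))) • ρ i y := fun y => by
    simp only [fn_mul, Pi.sub_apply, Finset.sum_apply, Pi.smul_apply', sub_eq_zero]
  refine (key p).1 (hsm.eq_zero_of_frequently (hx.gok_zpow k) ?_)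
  refine ((freq_of_ae h (hO2 p hpO) hp.1 ((gz_ae h.fd hn l).and (ae_all_iff.2 hg'))).and_eventually
    (hO1.mem_nhds hpO)).mono fun y ⟨⟨h1, h2⟩, hy⟩ => (key y).2 ?_
  have hf : (O ∩ Unr u ∩ u ⁻¹' {u y}).Finite :=
    (hfin (u y)).subset fun p' hp' => ⟨hp'.1.1, hp'.2⟩
  rw [hD.sum_eq h (k := k) hy.1 h1 (s := s) (S := hf.toFinset) (fun p' => ?_)
    (fun p' hp' => ?_) fun i p' hp' => hs i p' (hf.mem_toFinset.1 hp').1]
  · refine Finset.sum_congr rfl fun i _ => ?_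
    rw [← finsum_mem_eq_finite_toFinset_sum _ hf, ← h2 i hy.2, mul_left_comm]
    rfl
  · rw [hf.mem_toFinset]
    refine ⟨fun h3 => ⟨h3.1.1.1, h3.2⟩, fun h3 => ⟨⟨⟨h3.1, ?_⟩, ?_⟩, h3.2⟩⟩
    · rw [mem_preimage, hu, h3.2]
      exact hy.2
    · exact (unr_iff (h.fd.pm p') h3.1).2 (h1.unr p' ((ua_eq_iff h3.1).1 h3.2))
  · have h3 := (hf.mem_toFinset.1 hp').1.1
    exact (hWB p' h3.1 h3.2).2.self_of_nhds

end

end Pool.Agent.MP_1c689d_ag.K0.Fd

end

section

/-! Descent of functions. -/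

set_option autoImplicit false

open Complex Filter Topology Set MeasureTheory MvPolynomial
open scoped ComplexConjugate ContDiff ENNReal

namespace Pool.Agent.MP_1c689d_ag.K0.Fd

noncomputable section

variable {n m N : ℕ} {X : Type} [TopologicalSpace X] [Mf n X] {x : X → Fin m → ℂ}
  {y : Fin N → Fin m} {p : X}

theorem DS1_cov (F : E N → ℂ) (z : E N) (L : E n →L[ℝ] E N) :
    (fderiv ℝ F z).comp L =
      ∑ i, pz i F z • (vz i).comp L + ∑ i, pzb i F z • vc ((vz i).comp L) := by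
  conv_lhs => rw [← v_eq_sum (fderiv ℝ F z), sum_ix]
  ext1 w
  simp only [ContinuousLinearMap.comp_apply, add_apply, sum_apply, smul_apply,
    vco, vg, ofLex_toLex,
    Sum.elim_inl, Sum.elim_inr, vc_apply, vz_apply, pz, pzb, smul_eq_mul]
  congr 1 <;> refine Finset.sum_congr rfl fun i _ => ?_ <;> ring

theorem DS1_chain {f : X → E N} (hf : ∀ i, SmAt 1 (fn n fun y => f y i) p) {F : E N → ℂ}
    (hF : ∀ᶠ z in 𝓝 (f p), ContDiffAt ℝ ∞ F z) :
    SmAt 1 (fn n fun y => F (f y)) p ∧ dd (fn n fun y => F (f y)) p =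
      ∑ i, pz i F (f p) • dd (fn n fun y => f y i) p +
        ∑ i, pzb i F (f p) • cj (dd (fn n fun y => f y i) p) := by
  have h1 : ∀ᶠ z in 𝓝 (ch n p p), ContDiffAt ℝ ∞ (fun z => f ((ch n p).symm z)) z := by
    filter_upwards [eventually_all.2 fun i => MF2_fn1.1 (hf i)] with z hz
    exact contDiffAt_pi.2 hz
  have h2 : f ((ch n p).symm (ch n p p)) = f p := by rw [MF2_symm]
  have h3 : Tendsto (fun z => f ((ch n p).symm z)) (𝓝 (ch n p p)) (𝓝 (f p)) :=
    h2 ▸ h1.self_of_nhds.continuousAt.tendsto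
  refine ⟨MF2_fn1.2 ?_, ?_⟩
  · filter_upwards [h1, h3.eventually hF] with z hz hz'
    exact hz'.comp z hz
  · have d1 := h1.self_of_nhds.differentiableAt (by simp)
    have d2 : DifferentiableAt ℝ F (f ((ch n p).symm (ch n p p))) :=
      h2 ▸ hF.self_of_nhds.differentiableAt (by simp)
    have e : ∀ i, dd (fn n fun y => f y i) p =
        io ((vz i).comp (fderiv ℝ (fun z => f ((ch n p).symm z)) (ch n p p))) := fun i => by
      rw [MF3_dd_fn]
      exact congrArg io ((vz i).hasFDerivAt.comp _ d1.hasFDerivAt).fderiv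
    rw [MF3_dd_fn]
    have := (HasFDerivAt.comp (f := fun z => f ((ch n p).symm z)) (ch n p p) d2.hasFDerivAt
      d1.hasFDerivAt).fderiv
    rw [h2, DS1_cov] at this
    refine (congrArg io this).trans ?_
    simp only [map_add, map_sum, map_smul, e, cj_io]

theorem DS1_hol {s : X → ℂ} (h : SmAt 1 (fn n s) p) {u : ℂ → ℂ} {u' : ℂ}
    (hu : HasDerivAt u u' (s p)) : dd (fn n (u ∘ s)) p = u' • dd (fn n s) p := by
  have h1 := (hu.hasFDerivAt.restrictScalars ℝ)
  rw [dd_comp_fn h h1.differentiableAt, h1.fderiv]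
  simp only [ContinuousLinearMap.coe_restrictScalars', ContinuousLinearMap.toSpanSingleton_apply,
    smul_eq_mul]
  have e1 : (1 * u' - I * (I * u')) / 2 = u' := by linear_combination (-u' / 2) * I_mul_I
  have e2 : (1 * u' + I * (I * u')) / 2 = 0 := by linear_combination (u' / 2) * I_mul_I
  rw [e1, e2, zero_smul, add_zero]

theorem DS1_mul {s t : X → ℂ} (h : SmAt 1 (fn n s) p) (h' : SmAt 1 (fn n t) p) :
    dd (fn n fun y => s y * t y) p = t p • dd (fn n s) p + s p • dd (fn n t) p := by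
  have e : (fn n fun y => s y * t y) = fn n s * fn n t := funext fun y => map_mul _ _ _
  rw [e, dd_mul h h']
  exact congrArg₂ _ (PMPa_mul _ _) (PMPa_gi _ _)

theorem DS1_prj (s : X → ℂ) : prj 0 1 (dd (fn n s) p) = dbar 1 (fn n s) p := by
  rw [dd_eq, Pi.add_apply, map_add, prj_of_ne ((fn_Ty s).dp p) (by simp),
    prj_of_mem ((fn_Ty s).dbar p), zero_add]

/-- A smooth local lift. -/
theorem DS1_lift (h : PMAt x p) : ∃ (l : Fin m) (c : X → ℂ) (θ : Λ n), x p l ≠ 0 ∧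
    (∀ y, gx x p y = x y l) ∧ c p = x p l ∧ (∀ y, c y ≠ 0) ∧
    (∀ᶠ y in 𝓝 p, ‖x y l / c y‖ = 1) ∧ θ ∈ Tp n 1 0 ∧ (Dx x l p : Λ n) = x p l • θ ∧
    ∀ j : ℤ, SmAt 1 (fn n fun y => c y ^ j) p ∧
      dd (fn n fun y => c y ^ j) p = (j / 2 * c p ^ j) • (θ + cj θ) := by
  have hex := MF4b_ex h
  have h0 : x p hex.choose ≠ 0 := hex.choose_spec
  set l := hex.choose
  have hg : ∀ y, gx x p y = x y l := MF4b_gx hex
  set μ : X → ℂ := fun y => (Real.log (normSq (x y l)) : ℂ) with hμ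
  have hs : SmAt 1 (fn n μ) p := by
    have := MF3b_log (n := n) h.gok
    simpa only [hg] using this
  have hn : ∀ y, x y l ≠ 0 → exp (μ y / 2) = ‖x y l‖ := fun y hy => by
    have : μ y / 2 = (Real.log ‖x y l‖ : ℝ) := by
      rw [hμ]
      simp only [normSq_eq_norm_sq, Real.log_pow]
      push_cast
      ring
    rw [this, ← ofReal_exp, Real.exp_log (norm_pos_iff.2 hy)]
  have hp0 : ((‖x p l‖ : ℝ) : ℂ) ≠ 0 := by simpa using h0
  set φ : ℂ := x p l / ‖x p l‖ with hφ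
  have hφ0 : φ ≠ 0 := div_ne_zero h0 hp0
  have hφ1 : ‖φ‖ = 1 := by
    rw [hφ, norm_div, norm_real, norm_norm, div_self (norm_ne_zero_iff.2 h0)]
  have hd : dd (fn n μ) p = dp 1 (fn n μ) p + cj (dp 1 (fn n μ) p) := by
    have e : cf (fn n μ) = fn n μ := by
      rw [cf_fn]
      simp only [hμ, conj_ofReal]
    have := congrFun (dbar_cf (G := 1) (α := fn n μ)) p
    rw [e, inv_one] at this
    rw [dd_eq, Pi.add_apply, this]
    rfl
  refine ⟨l, fun y => φ * exp (μ y / 2), dp 1 (fn n μ) p, h0, hg, ?_,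
    fun y => mul_ne_zero hφ0 (exp_ne_zero _), ?_, (fn_Ty μ).dp p,
    dp_of_sec h.gok (h.holAt l) h0, fun j => ?_⟩
  · simp only [hn p h0, hφ]
    exact div_mul_cancel₀ _ hp0
  · filter_upwards [h.ne l h0] with y hy
    rw [hn y hy, norm_div, norm_mul, hφ1, one_mul, norm_real, norm_norm,
      div_self (norm_ne_zero_iff.2 hy)]
  · have hu : ∀ w : ℂ, HasDerivAt (fun w => φ ^ j * exp (j / 2 * w))
        (j / 2 * (φ ^ j * exp (j / 2 * w))) w := fun w => by
      exact ((((hasDerivAt_id' w).const_mul ((j : ℂ) / 2)).cexp).const_mul (φ ^ j)).congr_deriv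
        (by ring)
    have e : (fun y => (φ * exp (μ y / 2)) ^ j) = (fun w => φ ^ j * exp (j / 2 * w)) ∘ μ := by
      funext y
      rw [mul_zpow, ← exp_int_mul]
      simp only [Function.comp]
      congr 2
      ring
    have e' := congrFun e p
    refine ⟨e ▸ hs.comp_fn (Eventually.of_forall fun w => ?_), ?_⟩
    · exact (contDiff_const.mul
        ((contDiff_exp (𝕜 := ℝ)).comp (contDiff_const.mul contDiff_id))).contDiffAt
    · rw [e, DS1_hol hs (hu _), hd]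
      simp only [e', Function.comp]

theorem DS1_ex (h : PMAt x p) (y : Fin N → Fin m) : ∃ (f : X → E N) (t : X → ℂ),
    ContinuousAt f p ∧ f p = Yv x y p ∧ ∀ᶠ p' in 𝓝 p, ‖t p'‖ = 1 ∧ Yv x y p' = t p' • f p' := by
  obtain ⟨l, c, θ, h0, -, h1, h2, h3, -, -, h4⟩ := DS1_lift (n := n) h
  refine ⟨fun p' i => c p' * (x p' (y i) / x p' l), fun p' => x p' l / c p', ?_, ?_, ?_⟩
  · refine continuousAt_pi.2 fun i => ContinuousAt.mul ?_ (MF2a_hol_cont (h.hol l (y i) h0))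
    simpa using (h4 1).1.continuousAt
  · funext i
    simp only [h1, Yv]
    exact mul_div_cancel₀ _ h0
  · filter_upwards [h3, h.ne l h0] with p' h5 h6
    refine ⟨h5, funext fun i => ?_⟩
    have := h2 p'
    simp only [Yv, Pi.smul_apply, smul_eq_mul]
    field_simp

theorem tend (h : PMAt x p) {T : Set (E N)} (hT : Iv T) (hp : Yv x y p ∈ T) :
    Tendsto (Yv x y) (𝓝 p) (𝓝ˢ T) := by
  intro B hB
  obtain ⟨U, h1, h2, h3, h4⟩ := iv_ev (p := fun z => z ∈ B) hT hB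
  obtain ⟨f, t, h5, h6, h7⟩ := DS1_ex h y
  have h8 : ∀ᶠ p' in 𝓝 p, f p' ∈ U := h5 (h1.mem_nhds (h6 ▸ h3 hp))
  exact (h7.and h8).mono fun p' h9 => h4 _ (h9.1.2 ▸ h2 _ h9.2 _ h9.1.1)

theorem gd_tend (h : PMAt x p) {j : ℤ} {q : ℕ} {γ : E N → Λ N}
    (hγ : ∀ᶠ z in 𝓝 (Yv x y p), Gd j q γ z) :
    ∀ᶠ p' in 𝓝 p, ∀ᶠ z in 𝓝 (Yv x y p'), Gd j q γ z :=
  (tend h (T := {z | ∀ᶠ w in 𝓝 z, Gd j q γ w}) (fun _ hz _ ht => gd_rot hz ht) hγ).eventually
    (eventually_nhdsSet_iff_forall.2 fun _ hz => eventually_eventually_nhds.2 hz)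

theorem ds_fn (h : PMAt x p) {j : ℤ} {g : E N → ℂ}
    (hg : ∀ᶠ z in 𝓝 (Yv x y p), ContDiffAt ℝ ∞ g z ∧ Wt j g z) :
    SmAt (gx x ^ j) (fn n fun p' => g (Yv x y p')) p ∧
      dbar (gx x ^ j) (fn n fun p' => g (Yv x y p')) p =
        ∑ i, pzb i g (Yv x y p) • cj (Dx x (y i) p : Λ n) := by
  obtain ⟨l, c, θ, h0, hG, h1, h2, h3, hθ, hD, h4⟩ := DS1_lift (n := n) h
  set f : X → E N := fun p' i => c p' * (x p' (y i) / x p' l) with hf
  have hc : SmAt 1 (fn n c) p := by simpa using (h4 1).1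
  have hdc : dd (fn n c) p = (1 / 2 * x p l) • (θ + cj θ) := by simpa [h1] using (h4 1).2
  have ha : ∀ i, HolAt 1 (fun p' => x p' (y i) / x p' l) p := fun i => h.hol l (y i) h0
  have hs : ∀ i, SmAt 1 (fn n fun p' => f p' i) p := fun i => MF2a_smf_mul hc (ha i).smAt
  have hfp : f p = Yv x y p := by
    funext i
    simp only [hf, h1, Yv]
    exact mul_div_cancel₀ _ h0
  have hcf : ContinuousAt f p := continuousAt_pi.2 fun i => (hs i).continuousAt
  obtain ⟨k1, k2⟩ := DS1_chain hs (F := g) (hfp ▸ hg.mono fun _ hz => hz.1)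
  have e : (fun p' => ((gx x ^ j) p p')⁻¹ • fn n (fun p' => g (Yv x y p')) p') =ᶠ[𝓝 p]
      fn n fun p' => c p' ^ (-j) * g (f p') := by
    have h5 : ∀ᶠ p' in 𝓝 p, Wt j g (f p') := hcf.eventually (hfp ▸ hg.mono fun _ hz => hz.2)
    filter_upwards [h3, h.ne l h0, h5] with p' h6 h7 h8
    have h9 := h2 p'
    have e1 : Yv x y p' = (x p' l / c p') • f p' := by
      funext i
      simp only [hf, Yv, Pi.smul_apply, smul_eq_mul]
      field_simp
    have h10 : x p' l ^ j ≠ 0 := zpow_ne_zero _ h7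
    simp only [fn, Pi.pow_apply, hG, e1, h8 _ h6, smul_eq_mul, Algebra.algebraMap_eq_smul_one,
      smul_smul, div_zpow, zpow_neg]
    congr 1
    field_simp
  have k3 : SmAt 1 (fn n fun p' => c p' ^ (-j) * g (f p')) p := MF2a_smf_mul (h4 _).1 k1
  refine ⟨smAt_iff_one.2 (k3.congr e.symm), ?_⟩
  have hB : ∀ i, dd (fn n fun p' => x p' (y i) / x p' l) p ∈ Tp n 1 0 := fun i => by
    rw [dd_of_hol (ha i)]
    exact (fn_Ty _).dp p
  have hx : ∀ i, (Dx x (y i) p : Λ n) =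
      x p l • dd (fn n fun p' => x p' (y i) / x p' l) p + x p (y i) • θ := fun i => by
    rw [h.dd_ratio h0, hD, smul_sub, smul_smul, smul_smul, smul_smul, mul_inv_cancel₀ h0, one_smul]
    have : x p l * (x p (y i) / x p l ^ 2) * x p l = x p (y i) := by field_simp
    rw [this, sub_add_cancel]
  have hdf : ∀ i, dd (fn n fun p' => f p' i) p = (x p (y i) / 2) • (θ + cj θ) +
      x p l • dd (fn n fun p' => x p' (y i) / x p' l) p := fun i => by
    rw [hf, DS1_mul hc (ha i).smAt, hdc, smul_smul, h1]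
    congr 2
    field_simp
  have p1 : prj 0 1 θ = 0 := prj_of_ne hθ (by simp)
  have p2 : prj 0 1 (cj θ) = cj θ := prj_of_mem (cj_Tp hθ)
  have p3 : ∀ i, prj 0 1 (dd (fn n fun p' => x p' (y i) / x p' l) p) = 0 := fun i =>
    prj_of_ne (hB i) (by simp)
  have p4 : ∀ i, prj 0 1 (cj (dd (fn n fun p' => x p' (y i) / x p' l) p)) = _ := fun i =>
    prj_of_mem (cj_Tp (hB i))
  have eu := euler_wt (hg.self_of_nhds.1.differentiableAt (by simp)) hg.self_of_nhds.2
  have h10 : x p l ^ j ≠ 0 := zpow_ne_zero _ h0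
  rw [dbar_eq_one, dbar_congr e, ← DS1_prj, DS1_mul (h4 _).1 k1, (h4 _).2, k2, hfp]
  simp only [hdf, hx, map_add, map_smul, map_sum, cj_smul, cj_cj, p1, p2, p3, p4, zero_add,
    add_zero, smul_zero, smul_add, Finset.sum_add_distrib, smul_smul, ← Finset.sum_smul,
    Pi.pow_apply, hG, h1, zpow_neg, map_div₀, map_ofNat, mul_inv_cancel_left₀ h10,
    Finset.smul_sum, Finset.sum_const_zero]
  rw [← add_assoc, ← add_assoc, ← add_smul, ← add_smul, add_comm]
  congr 2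
  have e1 : ∑ i, pz i g (Yv x y p) * (x p (y i) / 2) =
      (∑ i, Yv x y p i * pz i g (Yv x y p)) / 2 := by
    rw [Finset.sum_div]
    exact Finset.sum_congr rfl fun i _ => by simp only [Yv]; ring
  have e2 : ∑ i, pzb i g (Yv x y p) * (conj (x p (y i)) / 2) =
      (∑ i, conj (Yv x y p i) * pzb i g (Yv x y p)) / 2 := by
    rw [Finset.sum_div]
    exact Finset.sum_congr rfl fun i _ => by simp only [Yv]; ring
  have e3 : ∑ i, pzb i g (Yv x y p) * conj (x p (y i)) =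
      ∑ i, conj (Yv x y p i) * pzb i g (Yv x y p) :=
    Finset.sum_congr rfl fun i _ => mul_comm _ _
  have e4 : x p l ^ j * (g (Yv x y p) * (((-j : ℤ) : ℂ) / 2 * (x p l ^ j)⁻¹)) =
      -(j * g (Yv x y p)) / 2 := by
    push_cast
    field_simp
  rw [e1, e2, e3, e4]
  linear_combination eu / 2

end

end Pool.Agent.MP_1c689d_ag.K0.Fd

end

section

/-! Descent of forms. -/

set_option autoImplicit false

open Complex Filter Topology Set MeasureTheory MvPolynomial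
open scoped ComplexConjugate ContDiff ENNReal

namespace Pool.Agent.MP_1c689d_ag.K0.Fd

noncomputable section

variable {n m N : ℕ} {X : Type} [TopologicalSpace X] [Mf n X] {x : X → Fin m → ℂ}
  {y : Fin N → Fin m} {p : X}

theorem DS2_lin {W : Type} [NormedAddCommGroup W] [NormedSpace ℂ W] (T : Λ N →ₗ[ℂ] W)
    {γ : E N → Λ N} {z : E N} (h : ContDiffAt ℝ ∞ γ z) : ContDiffAt ℝ ∞ (fun w => T (γ w)) z :=
  ((LinearMap.toContinuousLinearMap T).restrictScalars ℝ).contDiff.contDiffAt.comp z h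

theorem DS2_zero {a : Λ N} (h : a ∈ Tp N 0 0) : a = algebraMap ℂ (Λ N) ((bL N).coord ∅ a) := by
  obtain ⟨c, rfl⟩ := mem_Tp00.1 h
  rw [Algebra.algebraMap_eq_smul_one c, ← EA1a_empty, map_smul, Module.Basis.coord_apply,
    Module.Basis.repr_self, Finsupp.single_eq_same, smul_eq_mul, mul_one,
    Algebra.algebraMap_eq_smul_one, EA1a_empty]

theorem DS2_ctr {j : ℤ} {q : ℕ} {γ : E N → Λ N} {z : E N} (h : Gd j (q + 1) γ z) (i : Fin N) :
    Gd (j + 1) q (fun w => CSD_c i (γ w)) z := by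
  refine ⟨DS2_lin _ h.sm, ctr_Tp_right i h.ty, fun t ht => ?_⟩
  have e : j + 1 + (q : ℤ) = j + ((q + 1 : ℕ) : ℤ) := by
    push_cast
    ring
  rw [e]
  change CSD_c i (γ (t • z)) = _
  rw [h.wt t ht, map_smul]

theorem DS2_exp {q : ℕ} {a : Λ N} (h : a ∈ Tp N 0 (q + 1)) :
    a = (((q + 1 : ℕ) : ℂ))⁻¹ • ∑ i, dzb i * CSD_c i a := by
  rw [sum_dzb_ctr h, smul_smul, inv_mul_cancel₀ (Nat.cast_ne_zero.2 q.succ_ne_zero), one_smul]

theorem DS2_base (h : PMAt x p) {j : ℤ} {γ : E N → Λ N}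
    (hγ : ∀ᶠ z in 𝓝 (Yv x y p), Gd j 0 γ z) :
    SmAt (gx x ^ j) (Ds x y γ : Fm n X) p ∧
      dbar (gx x ^ j) (Ds x y γ : Fm n X) p = Ds x y (dbE γ) p := by
  obtain ⟨h1, h2⟩ := ds_fn (n := n) h (j := j) (g := fun z => (bL N).coord ∅ (γ z))
    (hγ.mono fun z hz => ⟨DS2_lin _ hz.sm, fun t ht => by
      change (bL N).coord ∅ (γ (t • z)) = _
      rw [hz.wt t ht, map_smul, Nat.cast_zero, add_zero]⟩)
  have e : (fn n fun p' => (bL N).coord ∅ (γ (Yv x y p'))) =ᶠ[𝓝 p] (Ds x y γ : Fm n X) := by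
    filter_upwards [gd_tend h hγ] with p' hp'
    rw [Ds, DS2_zero hp'.self_of_nhds.ty, AlgHom.commutes]
    rfl
  refine ⟨h1.congr e, ?_⟩
  rw [← dbar_congr e, h2, Ds, dbE_congr (hγ.mono fun z hz => DS2_zero hz.ty), dbE_fn, map_sum]
  exact Finset.sum_congr rfl fun i _ => by rw [map_smul, hl_dzb]

/-- Induction on `q` for all `j`, `γ`. For `q = 0` let `g z` be the coefficient of `bL N ∅` in `γ z`;
by `gd_tend`, `Ds x y γ` agrees near `p` with `fn n (g ∘ Yv x y)`; use `ds_fn`, `dbE_fn`, `hl_dzb`. For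
`q + 1` write `γ = (q + 1)⁻¹ • ∑ i, dzb i * CSD_c i γ` (`sum_dzb_ctr`); `CSD_c i ∘ γ` is
`Gd (j + 1) q`, and `Ds` of `dzb i * γ'` is `cf (Dx x (y i)) * Ds γ'`, where
`dbar (gx x)⁻¹ (cf (Dx ..)) = cf (dp ..) = 0` (`dbar_cf`, `PMAt.dp_Dx`, `dbar_mul'`, `dbE_mul`). -/
theorem ds_main (h : PMAt x p) {j : ℤ} {q : ℕ} {γ : E N → Λ N}
    (hγ : ∀ᶠ z in 𝓝 (Yv x y p), Gd j q γ z) :
    SmAt (gx x ^ j) (Ds x y γ : Fm n X) p ∧
      dbar (gx x ^ j) (Ds x y γ : Fm n X) p = Ds x y (dbE γ) p := by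
  induction q generalizing j γ with
  | zero => exact DS2_base h hγ
  | succ q ih =>
    have ih' := fun i => ih (hγ.mono fun z hz => DS2_ctr hz i)
    have hg : ((gx x)⁻¹ * gx x ^ (j + 1)) p =ᶠ[𝓝 p] (gx x ^ j) p := by
      rw [← zpow_neg_one]
      exact h.gz_add (by ring)
    have hD : ∀ i, SmAt (gx x)⁻¹ (cf (Dx x (y i)) : Fm n X) p := fun i => (h.Dx_sm (y i)).cf h.gok
    have hs : ∀ i, SmAt (gx x ^ j)
        (cf (Dx x (y i)) * Ds x y (fun w => CSD_c i (γ w)) : Fm n X) p := fun i =>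
      ((hD i).mul (ih' i).1).gauge hg
    have e : ((((q + 1 : ℕ) : ℂ))⁻¹ • ∑ i, cf (Dx x (y i)) * Ds x y (fun w => CSD_c i (γ w)) :
        Fm n X) =ᶠ[𝓝 p] Ds x y γ := by
      filter_upwards [gd_tend h hγ] with p' hp'
      rw [Ds, DS2_exp hp'.self_of_nhds.ty, map_smul, map_sum, Pi.smul_apply, Finset.sum_apply]
      refine congrArg _ (Finset.sum_congr rfl fun i _ => ?_)
      rw [map_mul, hl_dzb]
      rfl
    refine ⟨((SmAt.sum fun i _ => hs i).smul _).congr e, ?_⟩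
    have e' : γ =ᶠ[𝓝 (Yv x y p)] (((q + 1 : ℕ) : ℂ))⁻¹ • fun w => ∑ i, dzb i * CSD_c i (γ w) :=
      hγ.mono fun z hz => DS2_exp hz.ty
    have hd : ∀ i, DifferentiableAt ℝ (fun w => CSD_c i (γ w)) (Yv x y p) := fun i =>
      (DS2_ctr hγ.self_of_nhds i).sm.differentiableAt (by simp)
    rw [← dbar_congr e, dbar_smul, Pi.smul_apply, dbar_sum fun i _ => hs i, Ds, dbE_congr e',
      dbE_smul, DF_db_sum _ _ fun i _ => (hd i).const_mul (dzb i), map_smul, map_sum]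
    refine congrArg _ (Finset.sum_congr rfl fun i _ => ?_)
    have e1 : dbE (fun w => dzb i * CSD_c i (γ w)) (Yv x y p) = _ :=
      dbE_mul (differentiableAt_const (dzb i)) (hd i)
    rw [dbE_const, zero_mul, zero_add] at e1
    have e0 : (cf (dp (gx x) (Dx x (y i))) : Fm n X) p = 0 := by
      rw [cf, h.dp_Dx, map_zero]
    have e2 : gi (cj (Dx x (y i) p : Λ n)) = -cj (Dx x (y i) p : Λ n) := by
      rw [← hl_dzb, dzb, lm_io, gi_io]
    have e3 : gi (dzb i : Λ N) = -dzb i := gi_io _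
    rw [dbar_mul' hg h.gok.inv (h.gok_zpow _) (hD i) (ih' i).1, dbar_cf, (ih' i).2, e0, zero_mul,
      zero_add, e1, e3, map_mul, map_neg, hl_dzb, cf, e2, Ds]

/-- `ds_fn` with `j = 0`, `pm_smul`, `contDiffAt_pm`. -/
theorem pm_sm (h : PMAt x p) (h0 : Yv x y p ≠ 0) {χ : (Fin N → Fin N → ℂ) → ℂ}
    (hχ : ContDiff ℝ ∞ χ) : SmAt 1 (fn n fun p' => χ (pm (Yv x y p'))) p := by
  have h1 := (ds_fn (n := n) h (j := 0) (g := fun z => χ (pm z))
    ((eventually_ne_nhds h0).mono fun z hz =>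
      ⟨hχ.contDiffAt.comp z (contDiffAt_pm hz), fun t ht => by
        change χ (pm (t • z)) = _
        rw [pm_smul z (BG_ne ht), zpow_zero, one_smul]⟩)).1
  rwa [zpow_zero] at h1

theorem pm_cont (h : PMAt x p) (h0 : Yv x y p ≠ 0) :
    ContinuousAt (fun p' => pm (Yv x y p')) p :=
  continuousAt_pi.2 fun a => continuousAt_pi.2 fun b =>
    (pm_sm h h0 (χ := fun M => M a b) (contDiff_apply_apply ℝ ℂ a b)).continuousAt

end

end Pool.Agent.MP_1c689d_ag.K0.Fd

end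

section

/-! The comparison map is a map of complexes. -/

set_option autoImplicit false

open Complex Filter Topology Set MeasureTheory MvPolynomial
open scoped ComplexConjugate ContDiff ENNReal

namespace Pool.Agent.MP_1c689d_ag.K0.Fd

noncomputable section

variable {n m c r : ℕ} {X : Type} [TopologicalSpace X] [Mf n X] {Q : PD m (n + 1) c r}
  {Pts : Finset (Fin (n + 1) → ℂ)} {x : X → Fin m → ℂ}
  {a : ℕ} {e : Q.b.ι → ℤ} {ρ : Q.b.ι → Fm n X}
  {p : X} {k : ℤ} {q : ℕ} {b b' : Q.b.ι → E (n + 1) → Λ (n + 1)}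

theorem LFa_app (b : Q.b.ι → E (n + 1) → Λ (n + 1)) (p : X) : uu Q x ρ b p =
    ∑ i, lm ((Hl x Q.yi p).restrictScalars ℝ) (b i (Yv x Q.yi p)) * ρ i p := by
  rw [uu, Finset.sum_apply]
  rfl

theorem uu_congr (hb : ∀ i, b i (Yv x Q.yi p) = b' i (Yv x Q.yi p)) :
    uu Q x ρ b p = uu Q x ρ b' p := by
  simp only [LFa_app, hb]

theorem uu_add : uu Q x ρ (b + b') = uu Q x ρ b + uu Q x ρ b' := by
  funext p
  simp only [Pi.add_apply, LFa_app, map_add, add_mul, Finset.sum_add_distrib]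

theorem uu_sub : uu Q x ρ (b - b') = uu Q x ρ b - uu Q x ρ b' := by
  funext p
  simp only [Pi.sub_apply, LFa_app, map_sub, sub_mul, Finset.sum_sub_distrib]

theorem uu_zero : uu Q x ρ 0 = 0 := by
  funext p
  simp only [Pi.zero_apply, LFa_app, map_zero, zero_mul, Finset.sum_const_zero]

theorem uu_sum {σ : Type} [Fintype σ] (w : σ → ℂ) (b : σ → Q.b.ι → E (n + 1) → Λ (n + 1)) :
    uu Q x ρ (∑ s, w s • b s) = ∑ s, w s • uu Q x ρ (b s) := by
  funext p
  simp only [Finset.sum_apply, Pi.smul_apply, LFa_app, map_sum, map_smul, Finset.sum_mul,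
    smul_mul_assoc, Finset.smul_sum]
  exact Finset.sum_comm

theorem uu_fn (g : Q.b.ι → E (n + 1) → ℂ) :
    uu Q x ρ (fun i z => algebraMap ℂ (Λ (n + 1)) (g i z)) p =
      ∑ i, g i (Yv x Q.yi p) • ρ i p := by
  simp only [LFa_app, AlgHom.commutes, Algebra.smul_def]

theorem uu_Tp (hF : Fr Q Pts x a e ρ) (hb : ∀ i, b i (Yv x Q.yi p) ∈ Tp (n + 1) 0 q) :
    uu Q x ρ b p ∈ Tp n a q := by
  rw [uu, Finset.sum_apply]
  refine Submodule.sum_mem _ fun i _ => ?_
  have := Tp_mul (ds_Tp (n := n) (hb i)) (hF.ty i p)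
  rwa [zero_add, add_zero] at this

/-- `ds_main`, `dbar_mul'`, `PMAt.gz_add`. -/
theorem uu_sm (h : FD Q Pts x) (hF : Fr Q Pts x a e ρ) (hp : p ∈ Q.O Pts x)
    (hb : ∀ i, ∀ᶠ z in 𝓝 (Yv x Q.yi p), Gd (k - e i) q (b i) z) :
    SmAt (gx x ^ k) (uu Q x ρ b) p ∧
      dbar (gx x ^ k) (uu Q x ρ b) p = uu Q x ρ (fun i => dbE (b i)) p := by
  have hx := h.pm p
  have h1 : ∀ i, SmAt (gx x ^ k) (Ds x Q.yi (b i) * ρ i) p := fun i =>
    SmAt.mul_zpow hx.gok (ds_main hx (hb i)).1 (hF.hol i p hp).1 (sub_add_cancel _ _)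
  refine ⟨SmAt.sum fun i _ => h1 i, ?_⟩
  rw [uu, dbar_sum fun i _ => h1 i, uu, Finset.sum_apply]
  refine Finset.sum_congr rfl fun i _ => ?_
  rw [dbar_mul' (hx.gz_add (sub_add_cancel k (e i))) (hx.gok_zpow _) (hx.gok_zpow _)
    (ds_main hx (hb i)).1 (hF.hol i p hp).1, (ds_main hx (hb i)).2,
    (hF.hol i p hp).2.self_of_nhds, mul_zero, add_zero, Pi.mul_apply]

/-- `gd_tend`, `FD.isOpen_O`. -/
theorem uu_ev (h : FD Q Pts x) (hF : Fr Q Pts x a e ρ) (hp : p ∈ Q.O Pts x)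
    (hb : ∀ i, ∀ᶠ z in 𝓝 (Yv x Q.yi p), Gd (k - e i) q (b i) z) :
    ∀ᶠ y in 𝓝 p, uu Q x ρ b y ∈ Tp n a q ∧
      dbar (gx x ^ k) (uu Q x ρ b) y = uu Q x ρ (fun i => dbE (b i)) y := by
  filter_upwards [h.isOpen_O.mem_nhds hp, eventually_all.2 fun i => gd_tend (h.pm p) (hb i)]
    with y hy h1
  exact ⟨uu_Tp hF fun i => (h1 i).self_of_nhds.ty, (uu_sm h hF hy h1).2⟩

/-- `tend`, `uu_ev`, `uu_congr`. -/
theorem uu_exact (h : FD Q Pts x) (hF : Fr Q Pts x a e ρ) (hO : p ∈ Q.O Pts x)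
    {T : Set (E (n + 1))} (hT : Iv T) (hp : Yv x Q.yi p ∈ T)
    (hb : ∀ i, ∀ᶠ z in 𝓝ˢ T, Gd (k - e i) q (b' i) z ∧ dbE (b' i) z = b i z) :
    SmAt (gx x ^ k) (uu Q x ρ b') p ∧ ∀ᶠ y in 𝓝 p, uu Q x ρ b' y ∈ Tp n a q ∧
      dbar (gx x ^ k) (uu Q x ρ b') y = uu Q x ρ b y := by
  have h1 : ∀ i, ∀ᶠ z in 𝓝 (Yv x Q.yi p), Gd (k - e i) q (b' i) z := fun i =>
    ((hb i).filter_mono (nhds_le_nhdsSet hp)).mono fun _ hz => hz.1
  refine ⟨(uu_sm h hF hO h1).1, ?_⟩
  filter_upwards [uu_ev h hF hO h1, eventually_all.2 fun i => (tend (h.pm p) hT hp).eventually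
    (hb i)] with y h2 h3
  exact ⟨h2.1, h2.2.trans (uu_congr fun i => (h3 i).2)⟩

end

end Pool.Agent.MP_1c689d_ag.K0.Fd

end

section

/-! The differential of the mapping cone. -/

set_option autoImplicit false

open Complex Filter Topology Set MeasureTheory MvPolynomial
open scoped ComplexConjugate ContDiff ENNReal

namespace Pool.Agent.MP_1c689d_ag.K0.Fd

noncomputable section

variable {n m c r : ℕ} {X : Type} [TopologicalSpace X] [Mf n X] {Q : PD m (n + 1) c r}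
  {Pts : Finset (Fin (n + 1) → ℂ)} {x : X → Fin m → ℂ}
  {a : ℕ} {e : Q.b.ι → ℤ} {ρ : Q.b.ι → Fm n X}
  {k : ℤ} {s₁ s₂ : ℝ} {q : ℕ} {w w' : Ck Q X} {y : Fin (n + 1) → Fin (n + 1) → ℂ}

theorem LFd_Tq {G : Ga X} {α : Fm n X} {p : X} (h : ∀ᶠ p' in 𝓝 p, α p' ∈ Tq n a q) :
    dbar G α p ∈ Tp n a q := by
  cases q with
  | zero =>
    have h0 : α =ᶠ[𝓝 p] 0 := h.mono fun p' hp' => (Submodule.mem_bot ℂ).1 hp'
    rw [dbar_congr h0, dbar_zero]
    exact zero_mem _
  | succ q => exact dbar_Tp h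

theorem LFd_sub {N : ℕ} {α β : E N → Λ N} {z : E N} (ha : ContDiffAt ℝ ∞ α z)
    (hb : ContDiffAt ℝ ∞ β z) : dbE (α - β) z = dbE α z - dbE β z := by
  have h1 : DifferentiableAt ℝ α z := ha.differentiableAt (by simp)
  have h2 : DifferentiableAt ℝ β z := hb.differentiableAt (by simp)
  have h3 := dbE_add (h1.sub h2) h2
  rw [sub_add_cancel] at h3
  exact eq_sub_of_add_eq h3.symm

/-- `gd_dbE`, `uu_sm`, `uu_ev`; a point `p` with `pm (Yv p) = y ∈ cS Pts` lies in the open set. -/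
theorem cok_D (h : FD Q Pts x) (hF : Fr Q Pts x a e ρ)
    (hY : ∀ p, Yv x Q.yi p ∈ Sh (n + 1) s₁ s₂) (hy : y ∈ cS Pts)
    (hw : cok Q x a e k s₁ s₂ q w y) : cok Q x a e k s₁ s₂ (q + 1) (cD Q x ρ k w) y := by
  refine ⟨fun z hz e => eventually_all.2 fun i => gd_dbE ((hw.1 z hz e).mono fun _ h => h i),
    fun p hp => ?_⟩
  have hO : p ∈ Q.O Pts x := mem_O.2 (hy _ (Yv_ne h p) hp)
  have hb := eventually_all.1 (hw.1 _ (hY p) hp)
  refine ⟨(uu_sm h hF hO hb).1.sub ((hw.2 p hp).1.dbar ((h.pm p).gok_zpow k)), ?_⟩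
  filter_upwards [uu_ev h hF hO hb, (hw.2 p hp).2.eventually_nhds] with p' h1 h2
  exact sub_mem h1.1 (LFd_Tq h2)

theorem cD_sub (h : FD Q Pts x) (hw : cok Q x a e k s₁ s₂ q w y)
    (hw' : cok Q x a e k s₁ s₂ q w' y) :
    czr Q x s₁ s₂ (cD Q x ρ k (w - w') - (cD Q x ρ k w - cD Q x ρ k w')) y := by
  refine ⟨fun z hz e => ?_, fun p hp => ?_⟩
  · filter_upwards [hw.1 z hz e, hw'.1 z hz e] with z' h1 h2 i
    exact sub_eq_zero.2 (LFd_sub (h1 i).sm (h2 i).sm)
  · filter_upwards [(hw.2 p hp).1.eventually ((h.pm p).gok_zpow k),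
      (hw'.2 p hp).1.eventually ((h.pm p).gok_zpow k)] with p' h1 h2
    change uu Q x ρ (w.1 - w'.1) p' - dbar (gx x ^ k) (w.2 - w'.2) p' -
      (uu Q x ρ w.1 p' - dbar (gx x ^ k) w.2 p' -
        (uu Q x ρ w'.1 p' - dbar (gx x ^ k) w'.2 p')) = 0
    rw [uu_sub, dbar_sub h1 h2, Pi.sub_apply]
    abel

/-- `tend` for the invariant set `{z ∈ Sh | pm z = y}`, `uu_congr`. -/
theorem cD_congr (h : FD Q Pts x) (hY : ∀ p, Yv x Q.yi p ∈ Sh (n + 1) s₁ s₂)
    (hz : czr Q x s₁ s₂ (w - w') y) : czr Q x s₁ s₂ (cD Q x ρ k w - cD Q x ρ k w') y := by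
  refine ⟨fun z hs e => ?_, fun p hp => ?_⟩
  · filter_upwards [(hz.1 z hs e).eventually_nhds] with z' h1 i
    exact sub_eq_zero.2 (dbE_congr (h1.mono fun _ h2 => sub_eq_zero.1 (h2 i)))
  · have hT : Iv {z | z ∈ Sh (n + 1) s₁ s₂ ∧ pm z = y} := fun z hs t ht =>
      ⟨iv_sh _ _ z hs.1 t ht, (pm_smul z (norm_ne_zero_iff.1 (ht ▸ one_ne_zero))).trans hs.2⟩
    filter_upwards [(tend (h.pm p) hT ⟨hY p, hp⟩).eventually
      (eventually_nhdsSet_iff_forall.2 fun z hs => hz.1 z hs.1 hs.2),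
      (hz.2 p hp).eventually_nhds] with p' h1 h2
    have h3 : w.2 =ᶠ[𝓝 p'] w'.2 := h2.mono fun _ h3 => sub_eq_zero.1 h3
    change uu Q x ρ w.1 p' - dbar (gx x ^ k) w.2 p' -
      (uu Q x ρ w'.1 p' - dbar (gx x ^ k) w'.2 p') = 0
    rw [uu_congr (b' := w'.1) fun i => sub_eq_zero.1 (h1 i), dbar_congr h3, sub_self]

theorem cD_D (h : FD Q Pts x) (hF : Fr Q Pts x a e ρ)
    (hY : ∀ p, Yv x Q.yi p ∈ Sh (n + 1) s₁ s₂) (hy : y ∈ cS Pts)
    (hw : cok Q x a e k s₁ s₂ q w y) : czr Q x s₁ s₂ (cD Q x ρ k (cD Q x ρ k w)) y := by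
  refine ⟨fun z hz e => ?_, fun p hp => ?_⟩
  · filter_upwards [hw.1 z hz e] with z' h1 i
    exact dbE_dbE ((h1 i).sm.of_le (WithTop.coe_le_coe.2 le_top))
  have hO : p ∈ Q.O Pts x := mem_O.2 (hy _ (Yv_ne h p) hp)
  have hb := eventually_all.1 (hw.1 _ (hY p) hp)
  filter_upwards [uu_ev h hF hO hb, (uu_sm h hF hO hb).1.eventually ((h.pm p).gok_zpow k),
    (hw.2 p hp).1.eventually ((h.pm p).gok_zpow k)] with p' h1 h2 h3
  change uu Q x ρ (fun i => dbE (w.1 i)) p' -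
    dbar (gx x ^ k) (uu Q x ρ w.1 - dbar (gx x ^ k) w.2) p' = 0
  rw [dbar_sub h2 (h3.dbar ((h.pm p').gok_zpow k)), h1.2, dbar_dbar ((h.pm p').gok_zpow k) h3,
    sub_zero, sub_self]

end

end Pool.Agent.MP_1c689d_ag.K0.Fd

end

section

/-! A locally exact complex of fine sheaves is exact near compact sets. -/

set_option autoImplicit false

open Complex Filter Topology Set MeasureTheory MvPolynomial
open scoped ComplexConjugate ContDiff ENNReal

namespace Pool.Agent.MP_1c689d_ag.K0.Fd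

noncomputable section

section Aux

variable {Y C : Type} [TopologicalSpace Y] [AddCommGroup C]
  {ok : ℕ → C → Y → Prop} {zr : C → Y → Prop} {D : C → C} {S : Set Y}

theorem MV_zr_neg (hA : MVA ok zr D S) {c : C} {y : Y} (h : zr c y) : zr (-c) y := by
  have h1 := hA.zr_sub _ _ y (hA.zr_zero y) h
  rwa [zero_sub] at h1

theorem MV_zr_add (hA : MVA ok zr D S) {c c' : C} {y : Y} (h : zr c y) (h' : zr c' y) :
    zr (c + c') y := by
  have h1 := hA.zr_sub _ _ y h (MV_zr_neg hA h')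
  rwa [sub_neg_eq_add] at h1

theorem MV_ok_of_zr (hA : MVA ok zr D S) (q : ℕ) {c : C} {y : Y} (h : zr c y) : ok q c y :=
  hA.ok_congr q 0 c y (hA.ok_zero q y) (hA.zr_sub _ _ y (hA.zr_zero y) h)

theorem MV_congr (hA : MVA ok zr D S) {q : ℕ} {c w w' : C} {y : Y}
    (h : ok q w y ∧ zr (D w - c) y) (h' : zr (w' - w) y) : ok q w' y ∧ zr (D w' - c) y := by
  refine ⟨hA.ok_congr q w w' y h.1 ?_, ?_⟩
  · have h1 := MV_zr_neg hA h'
    rwa [neg_sub] at h1
  · have h1 := MV_zr_add hA (hA.D_congr _ _ y h') h.2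
    rwa [sub_add_sub_cancel] at h1

/-- Closed cochains near compact sets extend. -/
def MV_G (ok : ℕ → C → Y → Prop) (zr : C → Y → Prop) (D : C → C) (S : Set Y) (q : ℕ) : Prop :=
  ∀ K : Set Y, IsCompact K → K ⊆ S → ∀ u, (∀ y ∈ K, ok q u y ∧ zr (D u) y) →
    ∃ v, (∀ y ∈ S, ok q v y ∧ zr (D v) y) ∧ ∀ y ∈ K, zr (u - v) y

/-- Closed cochains near compact sets have primitives. -/
def MV_P (ok : ℕ → C → Y → Prop) (zr : C → Y → Prop) (D : C → C) (S : Set Y) (q : ℕ) : Prop :=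
  ∀ K : Set Y, IsCompact K → K ⊆ S → ∀ c, (∀ y ∈ K, ok (q + 1) c y ∧ zr (D c) y) →
    ∃ w, ∀ y ∈ K, ok q w y ∧ zr (D w - c) y

theorem MV_G_zero (hA : MVA ok zr D S) (hL : MVL ok zr D S) : MV_G ok zr D S 0 := by
  intro K _ hS u hu
  refine ⟨0, fun y hy => ⟨hA.ok_zero 0 y, ?_⟩, fun y hy => ?_⟩
  · have h1 := hA.D_sub 0 0 0 y hy (hA.ok_zero 0 y) (hA.ok_zero 0 y)
    rwa [sub_self, sub_self, sub_zero] at h1
  · rw [sub_zero]
    exact hL.loc0 u y (hS hy) (hu y hy).1 (hu y hy).2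

theorem MV_G_succ (hA : MVA ok zr D S) {q : ℕ} (hP : MV_P ok zr D S q) :
    MV_G ok zr D S (q + 1) := by
  intro K hK hS u hu
  obtain ⟨v, hv⟩ := hP K hK hS u hu
  obtain ⟨M, m1, -, m3, m4⟩ := hA.cut K {y | ok q v y} hK
    (isOpen_iff_mem_nhds.2 fun y hy => hA.ok_ev q v y hy) fun y hy => (hv y hy).1
  have hM : ∀ y, ok q (M v) y := fun y => by
    by_cases hy : ok q v y
    · exact m1 q v y hy
    · exact MV_ok_of_zr hA q (m4 v y hy)
  refine ⟨D (M v), fun y hy => ⟨hA.ok_D q _ y hy (hM y), hA.D_D q _ y hy (hM y)⟩, fun y hy => ?_⟩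
  have h1 := MV_zr_neg hA (MV_congr hA (hv y hy) (m3 v y hy)).2
  rwa [neg_sub] at h1

theorem MV_union [T2Space Y] (hA : MVA ok zr D S) {q : ℕ} (hG : MV_G ok zr D S q) {c : C}
    {K₁ K₂ : Set Y} (hK₁ : IsCompact K₁) (hK₂ : IsCompact K₂) (hS₁ : K₁ ⊆ S) {w₁ w₂ : C}
    (h₁ : ∀ y ∈ K₁, ok q w₁ y ∧ zr (D w₁ - c) y) (h₂ : ∀ y ∈ K₂, ok q w₂ y ∧ zr (D w₂ - c) y) :
    ∃ w, ∀ y ∈ K₁ ∪ K₂, ok q w y ∧ zr (D w - c) y := by
  obtain ⟨v, hv, hv'⟩ := hG (K₁ ∩ K₂) (hK₁.inter hK₂) (fun y hy => hS₁ hy.1) (w₁ - w₂)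
    fun y hy => by
      refine ⟨hA.ok_sub q _ _ y (h₁ y hy.1).1 (h₂ y hy.2).1, ?_⟩
      have k := MV_zr_add hA (hA.D_sub q _ _ y (hS₁ hy.1) (h₁ y hy.1).1 (h₂ y hy.2).1)
        (hA.zr_sub _ _ y (h₁ y hy.1).2 (h₂ y hy.2).2)
      rwa [sub_sub_sub_cancel_right, sub_add_cancel] at k
  have h₁' : ∀ y ∈ K₁, ok q (w₁ - v) y ∧ zr (D (w₁ - v) - c) y := fun y hy => by
    refine ⟨hA.ok_sub q _ _ y (h₁ y hy).1 (hv y (hS₁ hy)).1, ?_⟩
    have k := MV_zr_add hA (hA.D_sub q _ _ y (hS₁ hy) (h₁ y hy).1 (hv y (hS₁ hy)).1)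
      (hA.zr_sub _ _ y (h₁ y hy).2 (hv y (hS₁ hy)).2)
    have e : D (w₁ - v) - (D w₁ - D v) + (D w₁ - c - D v) = D (w₁ - v) - c := by abel
    rwa [e] at k
  obtain ⟨d, hd⟩ : ∃ d, d = w₁ - v - w₂ := ⟨_, rfl⟩
  have hU : IsOpen {y | zr d y} := isOpen_iff_mem_nhds.2 fun y hy => hA.zr_ev d y hy
  have hdU : ∀ y ∈ K₁, y ∈ K₂ → zr d y := fun y hy hy' => by
    rw [hd, sub_right_comm]
    exact hv' y ⟨hy, hy'⟩
  obtain ⟨M, -, m2, m3, m4⟩ := hA.cut (K₁ \ {y | zr d y}) (K₂ \ {y | zr d y})ᶜ (hK₁.diff hU)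
    (hK₂.diff hU).isClosed.isOpen_compl fun y hy hy' => hy.2 (hdU y hy.1 hy'.1)
  refine ⟨w₂ + M d, ?_⟩
  rintro y (hy | hy)
  · refine MV_congr hA (h₁' y hy) ?_
    have e : w₂ + M d - (w₁ - v) = M d - d := by
      rw [hd]
      abel
    rw [e]
    by_cases hz : zr d y
    · exact hA.zr_sub _ _ y (m2 d y hz) hz
    · exact m3 d y ⟨hy, hz⟩
  · refine MV_congr hA (h₂ y hy) ?_
    rw [add_sub_cancel_left]
    by_cases hz : zr d y
    · exact m2 d y hz
    · exact m4 d y fun h => h ⟨hy, hz⟩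

theorem MV_P_of_G [T3Space Y] (hA : MVA ok zr D S) (hL : MVL ok zr D S) {q : ℕ}
    (hG : MV_G ok zr D S q) : MV_P ok zr D S q := by
  intro K hK hS c hc
  have key : ∃ w, ∀ y ∈ closure K ∩ K, ok q w y ∧ zr (D w - c) y := by
    refine hK.induction_on (p := fun s => ∃ w, ∀ y ∈ closure s ∩ K, ok q w y ∧ zr (D w - c) y)
      ⟨0, fun y hy => by simp at hy⟩ ?_ ?_ ?_
    · rintro s t hst ⟨w, hw⟩
      exact ⟨w, fun y hy => hw y ⟨closure_mono hst hy.1, hy.2⟩⟩
    · rintro s t ⟨w₁, h₁⟩ ⟨w₂, h₂⟩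
      rw [closure_union, union_inter_distrib_right]
      exact MV_union hA hG (hK.inter_left isClosed_closure) (hK.inter_left isClosed_closure)
        (fun y hy => hS hy.2) h₁ h₂
    · intro x hx
      obtain ⟨w, hw, hw'⟩ := hL.loc q c x (hS hx) (hc x hx).1 (hc x hx).2
      obtain ⟨t, ht, htc, hts⟩ := exists_mem_nhds_isClosed_subset
        ((hA.ok_ev q w x hw).and (hA.zr_ev _ x hw'))
      exact ⟨t, mem_nhdsWithin_of_mem_nhds ht, w, fun y hy => hts (htc.closure_eq ▸ hy.1)⟩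
  obtain ⟨w, hw⟩ := key
  exact ⟨w, fun y hy => hw y ⟨subset_closure hy, hy⟩⟩

theorem MV_P_all [T3Space Y] (hA : MVA ok zr D S) (hL : MVL ok zr D S) (q : ℕ) :
    MV_P ok zr D S q := by
  induction q with
  | zero => exact MV_P_of_G hA hL (MV_G_zero hA hL)
  | succ q ih => exact MV_P_of_G hA hL (MV_G_succ hA ih)

end Aux

/-- Induction on the degree; the statement `P q` is: for all compact `K ⊆ S` and `c` with
`ok q c y` and `zr (D c) y` on `K`, either `q = 0` and `zr c y` on `K`, or `q = q' + 1` and there is a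
primitive `w`. For fixed degree use `IsCompact.induction_on` with the property of a set `s` that there
is a primitive at all points of `closure s ∩ K` (closed neighbourhoods are a basis). Union of compact
`K₁`, `K₂` with primitives `w₁`, `w₂`: `w₁ - w₂` is closed on `K₁ ∩ K₂`. By `P` for the lower degree
it vanishes there, or it is `D v`; then cut `v` off (`cut` with `U` the interior of the set where `v`
works; `M v` is a cochain at all points) and replace `w₁` by `w₁' = w₁ - D (M v)`. Now `w₁' - w₂`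
vanishes on an open `U' ⊇ K₁ ∩ K₂`. Take `M'` for the compact `K₁ \ U'` in the open `(K₂ \ U')ᶜ` and
`w = w₂ + M' (w₁' - w₂)`; it agrees with `w₁'` near `K₁` and with `w₂` near `K₂`. -/
theorem mv {Y C : Type} [TopologicalSpace Y] [T3Space Y] [AddCommGroup C]
    {ok : ℕ → C → Y → Prop} {zr : C → Y → Prop} {D : C → C} {S : Set Y} (hA : MVA ok zr D S)
    (hL : MVL ok zr D S) {K : Set Y} (hK : IsCompact K) (hS : K ⊆ S) {q : ℕ} {c : C}
    (hc : ∀ y ∈ K, ok (q + 1) c y ∧ zr (D c) y) :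
    ∃ w, ∀ y ∈ K, ok q w y ∧ zr (D w - c) y :=
  MV_P_all hA hL q K hK hS c hc

end

end Pool.Agent.MP_1c689d_ag.K0.Fd

end

section

/-! Exactness of the mapping cone near compact sets. -/

set_option autoImplicit false

open Complex Filter Topology Set MeasureTheory MvPolynomial
open scoped ComplexConjugate ContDiff ENNReal

namespace Pool.Agent.MP_1c689d_ag.K0.Fd

noncomputable section

variable {n m c r : ℕ} {X : Type} [TopologicalSpace X] [Mf n X] {Q : PD m (n + 1) c r}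
  {Pts : Finset (Fin (n + 1) → ℂ)} {x : X → Fin m → ℂ}
  {a : ℕ} {e : Q.b.ι → ℤ} {ρ : Q.b.ι → Fm n X}

/-- Apply `mv` to `K = pm '' T` and the cochain `(0, α)` of degree `q + 2`; the fibres of the points
of `K` lie in `T` (`pm_eq_iff`). If `w` is the primitive take `b = w.1`, `β = -w.2`. -/
theorem lfp_of (hM : ∀ (k : ℤ) (s₁ s₂ : ℝ), 0 < s₁ → (∀ p, Yv x Q.yi p ∈ Sh (n + 1) s₁ s₂) →
      MVA (cok Q x a e k s₁ s₂) (czr Q x s₁ s₂) (cD Q x ρ k) (cS Pts) ∧
      MVL (cok Q x a e k s₁ s₂) (czr Q x s₁ s₂) (cD Q x ρ k) (cS Pts)) :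
    LFP Q Pts x a e ρ := by
  intro k q s₁ s₂ T h0 hY hT hS hR hO α hα
  obtain ⟨hA, hL⟩ := hM k s₁ s₂ h0 hY
  have hne : ∀ z ∈ T, z ≠ 0 := fun z hz => Sh.ne_zero h0 (hS hz)
  have hu : ∀ p, uu Q x ρ 0 p = 0 := fun p => by
    simp only [uu, Finset.sum_apply, Pi.mul_apply, Ds, Pi.zero_apply, map_zero, zero_mul,
      Finset.sum_const_zero]
  obtain ⟨w, hw⟩ := mv hA hL (hT.image_of_continuousOn (f := pm) fun z hz =>
    (contDiffAt_pm (hne z hz)).continuousAt.continuousWithinAt) (by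
      rintro _ ⟨z, hz, rfl⟩ z' h1 h2
      obtain ⟨t, rfl⟩ := (pm_eq_iff h1 (hne z hz)).1 h2
      exact (offY_smul (left_ne_zero_of_smul h1)).2 (hO z hz)) (q := q + 1) (c := (0, α)) (by
      rintro _ ⟨z, hz, rfl⟩
      have k1 : ∀ p, pm (Yv x Q.yi p) = pm z → Yv x Q.yi p ∈ T := fun p h =>
        hR z hz ⟨(pm_eq_iff (Sh.ne_zero h0 (hY p)) (hne z hz)).1 h, hY p⟩
      refine ⟨⟨fun _ _ _ => .of_forall fun _ _ => ⟨contDiffAt_const, zero_mem _,
        fun _ _ => (smul_zero _).symm⟩, fun p h => ⟨(hα p (k1 p h)).1,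
          (hα p (k1 p h)).2.mono fun _ h => h.1⟩⟩,
        fun _ _ _ => .of_forall fun _ _ => dbE_const 0,
        fun p h => (hα p (k1 p h)).2.mono fun y h => ?_⟩
      exact sub_eq_zero.2 ((hu y).trans h.2.symm))
  refine ⟨w.1, -w.2, fun i => eventually_nhdsSet_iff_forall.2 fun z hz => ?_, fun p hp => ?_⟩
  · obtain ⟨k1, k2⟩ := hw _ ⟨z, hz, rfl⟩
    filter_upwards [k1.1 z (hS hz) rfl, k2.1 z (hS hz) rfl] with y a1 a2
    exact ⟨a1 i, sub_eq_zero.1 (a2 i)⟩
  · obtain ⟨k1, k2⟩ := hw _ ⟨_, hp, rfl⟩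
    refine ⟨(k1.2 p rfl).1.neg, ?_⟩
    filter_upwards [(k1.2 p rfl).2, k2.2 p rfl] with y a1 a2
    refine ⟨neg_mem a1, ?_⟩
    rw [dbar_neg, Pi.neg_apply, ← sub_eq_add_neg]
    exact (sub_eq_zero.1 a2).symm

end

end Pool.Agent.MP_1c689d_ag.K0.Fd

end

section

/-! The data of Dedekind and Tate. -/

set_option autoImplicit false

open Complex Filter Topology Set MeasureTheory MvPolynomial
open scoped ComplexConjugate ContDiff ENNReal

namespace Pool.Agent.MP_1c689d_ag.K0.Fd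

noncomputable section

variable {n m c r : ℕ} {X : Type} [TopologicalSpace X] [Mf n X] {Q : PD m (n + 1) c r}
  {Pts : Finset (Fin (n + 1) → ℂ)} {x : X → Fin m → ℂ}

theorem DTm_lin {M : Type} [AddCommGroup M] [Module ℂ M] {W u v : M} {J J' a b a' b' : ℂ}
    (h0 : J' ≠ 0) (h1 : b' • W = J' • v) (h2 : a' • W = J' • u) (h3 : a • W = J • u)
    (h4 : b • W = J • v) : a • v = b • u := by
  refine smul_right_injective M (mul_ne_zero h0 h0) ?_
  change (J' * J') • (a • v) = (J' * J') • (b • u)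
  linear_combination (norm := module) (-(J' * a)) • h1 + (J' * b') • h3 - (J * b') • h2 +
    (J' * b) • h2 - (J' * a') • h4 + (J * a') • h1

/-- The classes of the values of `R.ι`. -/
def DTm_io (R : RX Q Pts x) (A : Fin c → Fin r) : Q.Om →ₗ[P m] (P m ⧸ Q.I) where
  toFun t := Ideal.Quotient.mk Q.I (R.ι A t)
  map_add' s t := by rw [map_add, map_add]
  map_smul' f t := by
    rw [RingHom.id_apply, ← Q.AFB_mk_smul]
    exact Ideal.Quotient.eq.2 (R.tate.lin A f t)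

theorem DTm_sym (h : FD Q Pts x) (R : RX Q Pts x) (R' : RL Q Pts x) (e : R'.rl = R.rl)
    (A : Fin c → Fin r) (s t : Q.Om) : R.ι A s • t = R.ι A t • s := by
  obtain ⟨b, u, -, -, hb⟩ := Q.exists_ob
  refine AFB_indN b (p := fun s => R.ι A s • t = R.ι A t • s) ?_ (fun v w hv hw => ?_)
    (fun i s hs => ?_) s
  · rw [map_zero, zero_smul, smul_zero]
  · rw [map_add, add_smul, smul_add, hv, hw]
  refine AFB_indN b (p := fun t => R.ι A s • t = R.ι A t • s) ?_ (fun v w hv hw => ?_)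
    (fun j t ht => ?_) t
  · rw [map_zero, zero_smul, smul_zero]
  · rw [map_add, add_smul, smul_add, hv, hw]
  rw [hb] at hs ht
  have h1 := Q.og_smul (R.tate.deg A i s hs) ht
  have h2 := Q.og_smul (R.tate.deg A j t ht) hs
  have e1 : (dA Q A : ℤ) + j - (n + 1 : ℕ) + i = dA Q A + i - (n + 1 : ℕ) + j := by ring
  rw [e1] at h2
  refine sub_eq_zero.1 (R'.inj _ _ (sub_mem h1 h2) fun p hp => ?_)
  obtain ⟨A', l, h0⟩ := h.sm0 (x p) (h.onc p) hp
  rw [e, map_sub, R.smul, R.smul, Pi.sub_apply, sub_eq_zero]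
  exact DTm_lin h0 (R.key j t ht p hp A' l) (R.key i s hs p hp A' l) (R.key i s hs p hp A l)
    (R.key j t ht p hp A l)

/-- `ι A t` is the class of `R.ι A t`; `κ l` is given by `RL.surj` for `Wk x l` (`PMAt.Wk_hfm`).
`ι_κ`: `key` and `jw_swap` show that the homogeneous difference vanishes on the open set
(`PMAt.exists_Wk`). `ι_sym`: `I_smul` reduces to `R.ι A s • t = R.ι A t • s`, which is additive in `s`
and `t`, so let them be homogeneous (`exists_ob`, `AFB_indN`) and use `RL.inj`: at `p` take `(A', l)`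
with `jd A' l (x p) ≠ 0` and use `key` for `A` and `A'`. `κ_F`: `RL.inj`, `wk_F`, `pderiv_hz`. -/
theorem dt_of (h : FD Q Pts x) (R : RX Q Pts x) (R' : RL Q Pts x) (e : R'.rl = R.rl)
    (hv : ∀ (j : ℤ), ∀ f ∈ hz m j, (∀ p ∈ Q.O Pts x, eval (x p) f = 0) → f ∈ Q.I) :
    Nonempty (DT Q) := by
  choose κ hκ hκe using fun l : Fin (n + 1) → Fin m =>
    R'.surj (n + 1 : ℕ) (Wk x l) (Wk_Ty l) fun p _ => (h.pm p).Wk_hfm l
  refine ⟨⟨DTm_io R, κ, fun A l => ?_, fun A s t f g hf hg => ?_,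
    fun A => ⟨dA Q A - (n + 1 : ℕ), fun j t ht => ?_⟩, hκ, fun j l => ?_⟩⟩
  · have h1 := R.tate.deg A _ _ (hκ l)
    rw [add_sub_cancel_right] at h1
    refine Ideal.Quotient.eq.2 (hv _ _ (sub_mem h1 (jd_hz A l)) fun p hp => ?_)
    obtain ⟨l', hl'⟩ := (h.pm p).exists_Wk (h.imm p hp)
    have h2 := R.key _ _ (hκ l) p hp A l'
    rw [← e, hκe l p hp, jw_swap h hp A l' l, ← sub_eq_zero, ← sub_smul] at h2
    rw [map_sub]
    exact (smul_eq_zero.1 h2).resolve_right hl'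
  · have h1 := Q.I_smul (Ideal.Quotient.eq.1 hf) t
    have h2 := Q.I_smul (Ideal.Quotient.eq.1 hg) s
    rw [sub_smul, sub_eq_zero] at h1 h2
    rw [h1, h2]
    exact DTm_sym h R R' e A s t
  · have h1 := Q.AFB_mk_mem (R.tate.deg A j t ht)
    rw [add_comm (dA Q A : ℤ), add_sub_assoc] at h1
    exact h1
  · refine R'.inj _ _ (sum_mem fun a _ =>
      Q.og_smul (pderiv_hz (mem_hz_nat.2 (Q.Fh j)) a) (hκ _)) fun p hp => ?_
    rw [map_sum, Finset.sum_apply, ← wk_F h j l p]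
    refine Finset.sum_congr rfl fun a _ => ?_
    rw [R'.smul, ← hκe _ p hp]
    rfl

end

end Pool.Agent.MP_1c689d_ag.K0.Fd

end

section

/-! Duality in top degree. -/

set_option autoImplicit false

open Complex Filter Topology Set MeasureTheory MvPolynomial
open scoped ComplexConjugate ContDiff ENNReal

namespace Pool.Agent.MP_1c689d_ag.K0.Fd

noncomputable section

variable {n m c r : ℕ} {X : Type} [TopologicalSpace X] [Mf n X] {Q : PD m (n + 1) c r}
  {x : X → Fin m → ℂ}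

theorem DU_zero [MeasurableSpace X] [BorelSpace X] [CompactSpace X] {G : Ga X}
    (hG : ∀ p, GOk G p) {α β ψ : Fm n X} {w : ℂ} (hα : ∀ p, HFm G α p) (ht : Ty n 0 α)
    (hβ : Sm G⁻¹ β univ) (hψ : Sm G⁻¹ ψ univ) (h0 : itg (α * ψ) = 0)
    (e : dbar G⁻¹ β = w • ψ + cf α) : α = 0 := by
  have hs : Sm G α univ := fun p _ => (hα p).1
  have h1 := ibp_dbar hG hs hβ
  have h2 : dbar G α = 0 := funext fun p => (hα p).2.self_of_nhds
  have h3 : (fun y => gi (α y)) = (-1 : ℂ) ^ (n + 0) • α := funext fun y => gi_of_Tp (ht y)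
  have s1 : Sm 1 (α * ψ) univ := fun p hp => (hs p hp).mul_dual (hψ p hp) (hG p)
  have s2 : Sm 1 (α * cf α) univ := fun p hp => (hs p hp).mul_cf (hs p hp) (hG p)
  rw [h2, zero_mul, itg_zero, zero_add, h3, smul_mul_assoc, itg_smul, e, mul_add, mul_smul_comm,
    itg_add ((intg_of_compact s1).smul w) (intg_of_compact s2), itg_smul, h0, mul_zero,
    zero_add] at h1
  have h4 : itg (α * cf α) = 0 :=
    (mul_eq_zero.1 h1).resolve_left (pow_ne_zero _ (neg_ne_zero.2 one_ne_zero))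
  have h5 := top_zero_of_itg (α := I ^ (n ^ 2) • (α * cf α)) (fun p hp => (s2 p hp).smul _)
    ((intg_of_compact s2).smul _) (fun y => by
      by_cases hy : α y = 0
      · exact ⟨0, le_rfl, by simp [hy]⟩
      · obtain ⟨t, ht0, e⟩ := pos_n0' (ht y) hy
        exact ⟨t, ht0.le, by rw [Pi.smul_apply, map_smul]; exact e⟩)
    (by rw [itg_smul, h4, mul_zero])
  funext y
  by_contra hy
  obtain ⟨t, ht0, e⟩ := pos_n0' (ht y) hy
  have h6 := h5 y
  rw [Pi.smul_apply, map_smul] at h6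
  exact ht0.ne' (ofReal_eq_zero.1 (e.symm.trans h6))

/-- Let `t a` be a basis of `Q.og k` and apply `TB` to the family `ψ`, `cf (R.rl (t a))` indexed by an
`Option` type. If `w₀ • ψ + cf α = dbar β` with `α = R.rl (∑ a, conj (w a) • t a)`, then
`itg (α * cf α) = 0` (`ibp_dbar`), so `α = 0` (`pos_n0'`, `top_zero_of_itg`), so `w a = 0` (`RL.inj`) and
`w₀ ≠ 0`. -/
theorem dual_of [MeasurableSpace X] [BorelSpace X] (h : FD Q ∅ x) (R : RL Q ∅ x) (k : ℤ) {q : ℕ}
    (hq : q + 1 = n) (hT : TB n (gx x ^ (-k)) 0 q (Module.finrank ℂ (Q.og k))) {ψ : Fm n X}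
    (hψ : Sm (gx x ^ (-k)) ψ univ) (ht : Ty 0 (q + 1) ψ)
    (h0 : ∀ α : Fm n X, Ty n 0 α → (∀ p, HFm (gx x ^ k) α p) → itg (α * ψ) = 0) :
    ∃ β : Fm n X, Sm (gx x ^ (-k)) β univ ∧ Ty 0 q β ∧ dbar (gx x ^ (-k)) β = ψ := by
  have := h.cpt
  have hG : ∀ p, GOk (gx x ^ k) p := fun p => (h.pm p).gok_zpow k
  have hO : ∀ p, p ∈ Q.O ∅ x := fun p => by rw [PD.O_empty]; exact mem_univ p
  rw [TB, zpow_neg] at hT
  rw [zpow_neg] at hψ ⊢
  obtain ⟨b⟩ : Nonempty (Module.Basis (Fin (Module.finrank ℂ (Q.og k))) ℂ (Q.og k)) :=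
    ⟨Module.finBasis ℂ _⟩
  obtain ⟨w, β, hw, s1, t1, e⟩ := hT (Option (Fin (Module.finrank ℂ (Q.og k))))
    (fun o => o.elim ψ fun a => cf (R.rl (b a))) (by simp) (by
      rintro (_ | a)
      · exact ⟨hψ, ht⟩
      · refine ⟨fun p _ => (R.hol k _ (b a).2 p (hO p)).1.cf (hG p), fun y => ?_⟩
        rw [hq]
        exact cj_Tp (R.ty _ y))
  obtain ⟨t, htd⟩ : ∃ t : Q.og k, t = ∑ a, conj (w (some a)) • b a := ⟨_, rfl⟩
  have e1 : cf (R.rl t) = ∑ a, w (some a) • cf (R.rl (b a)) := by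
    funext y
    simp only [htd, cf, Submodule.coe_sum, Submodule.coe_smul, map_sum, map_smul,
      Finset.sum_apply, Pi.smul_apply, cj_smul, conj_conj]
  have hh : ∀ p, HFm (gx x ^ k) (R.rl t) p := fun p => R.hol k _ t.2 p (hO p)
  have e2 : dbar (gx x ^ k)⁻¹ β = w none • ψ + cf (R.rl t) := by
    rw [e, Fintype.sum_option, e1]
    rfl
  have h1 := DU_zero hG hh (R.ty _) s1 hψ (h0 _ (R.ty _) hh) e2
  have h2 : t = 0 := Subtype.ext (R.inj k _ t.2 fun p _ => congrFun h1 p)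
  have h3 := Fintype.linearIndependent_iff.1 b.linearIndependent _ (htd.symm.trans h2)
  have h4 : w none ≠ 0 := fun h5 => hw (funext fun o => by
    rcases o with _ | a
    · exact h5
    · exact (map_eq_zero _).1 (h3 a))
  refine ⟨(w none)⁻¹ • β, fun p hp => (s1 p hp).smul _,
    fun y => Submodule.smul_mem _ _ (t1 y), ?_⟩
  have h5 : cf (0 : Fm n X) = 0 := funext fun y => map_zero cj
  rw [dbar_smul, e2, h1, h5, add_zero, inv_smul_smul₀ h4]

end

end Pool.Agent.MP_1c689d_ag.K0.Fd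

end

section

/-! Tautness. -/

set_option autoImplicit false

open Complex Filter Topology Set MeasureTheory
open scoped ComplexConjugate ContDiff ENNReal

namespace Pool.Agent.MP_1c689d_ag.K0

noncomputable section

variable {n m : ℕ} {X : Type} [TopologicalSpace X] [Mf n X]

theorem zz_exN {k : ℕ} {α : Fm n X} {K : Set X} {a b : ZF n X} (hb : b ∈ (zfc n X).G k)
    (h : K ⊆ (zfc n X).N ((zfc n X).d b - a)) (e : ∀ᶠ y in 𝓝ˢ K, a.1 =ᶠ[𝓝 y] α) :
    ExN k α K := by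
  refine ⟨b.1, hb, ?_⟩
  filter_upwards [zfc_sub.1 h, e] with y h1 h2
  exact ⟨b.2 y trivial, (sub_eq_zero.1 h1).trans h2.self_of_nhds⟩

theorem zz_of_exN {k : ℕ} {K : Set X} (hK : IsCompact K) {a : ZF n X} (h : ExN k a.1 K) :
    ∃ b ∈ (zfc n X).G k, K ⊆ (zfc n X).N ((zfc n X).d b - a) := by
  obtain ⟨κ, h1, h2⟩ := h
  obtain ⟨b, hb, h3⟩ := zf_global hK h1 fun p hp => (h2.self_of_nhdsSet p hp).1
  refine ⟨b, hb, zfc_sub.2 ?_⟩
  filter_upwards [h2, h3] with y e1 e2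
  exact sub_eq_zero.2 ((dd_congr e2).trans e1.2)

theorem zz_cl_global {k : ℕ} {α : Fm n X} {U K : Set X} (hU : IsOpen U) (hK : IsCompact K)
    (hKU : K ⊆ U) (hα : Cl k α U) : ∃ a ∈ (zfc n X).G k, K ⊆ (zfc n X).N ((zfc n X).d a) ∧
      ∀ᶠ y in 𝓝ˢ K, a.1 =ᶠ[𝓝 y] α := by
  obtain ⟨a, ha, h⟩ := zf_global hK hα.dg fun p hp => hα.sm p (hKU hp)
  refine ⟨a, ha, zfc_sub.2 ?_, h⟩
  filter_upwards [h, hU.mem_nhdsSet.2 hKU] with y e1 e2
  exact (dd_congr e1).trans (hα.cl y e2)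

variable {S Y : Type} [TopologicalSpace S] [Mf n S] [CompactSpace S] [TopologicalSpace Y]
  [Mf m Y] {f : S → Y}

theorem zz_taut_one (hf : Emb f) {k : ℕ} {θ : Fm n S} (hθ : Cl (k + 1) θ univ) :
    ∃ (U : Set Y) (θ' : Fm m Y), IsOpen U ∧ range f ⊆ U ∧ Cl (k + 1) θ' U ∧
      Ex k (pb f θ' - θ) := by
  have hc := hf.emb.continuous
  obtain ⟨a, ha, t, ht, h1, h2⟩ := ZC.surj (zpb_hom hf.hm hc)
    (zfc_fine.comap hc hf.emb.injective) zfc_fine (zfc_res.comap hc) (zpb_u hf.hm ▸ zfc_res)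
    isCompact_univ (b := ⟨θ, hθ.sm⟩) hθ.dg fun x _ =>
      Eventually.of_forall fun y => hθ.cl y trivial
  refine ⟨(zfc m Y).N ((zfc m Y).d a), a.1, ZC.op _ _, range_subset_iff.2 fun x => h1 trivial,
    ⟨fun p _ => a.2 p trivial, ha, fun p hp => (zfc_N.1 hp).self_of_nhds⟩, (-t).1, (-t).2,
    neg_mem ht, funext fun y => ?_⟩
  have h3 : pb f a.1 y + dd t.1 y - θ y = 0 := (zfc_N.1 (h2 (mem_univ y))).self_of_nhds
  change dd (-t.1) y = pb f a.1 y - θ y
  rw [dd_neg, Pi.neg_apply, neg_eq_iff_add_eq_zero, ← h3]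
  abel

theorem zz_taut_two (hf : Emb f) {k : ℕ} {U : Set Y} (hU : IsOpen U) (hfU : range f ⊆ U)
    {θ : Fm m Y} (hθ : Cl (k + 1) θ U) (h : Ex k (pb f θ)) : ExN k θ (range f) := by
  have hc := hf.emb.continuous
  obtain ⟨a, ha, h1, h2⟩ := zz_cl_global hU (isCompact_range hc) hfU hθ
  obtain ⟨κ, k1, k2, k3⟩ := h
  obtain ⟨b, hb, h3⟩ := ZC.inj (zpb_hom hf.hm hc)
    (zfc_fine.comap hc hf.emb.injective) zfc_fine (zfc_res.comap hc) (zpb_u hf.hm ▸ zfc_res)
    isCompact_univ (t := ⟨κ, k1⟩) ha k2 (fun x _ => h1 (mem_range_self x)) fun x _ =>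
      Eventually.of_forall fun y => sub_eq_zero.2 ((congrFun k3 y).trans (pb_congr
        (EventuallyEq.refl _ _) (h2.self_of_nhdsSet _ (mem_range_self y)).self_of_nhds.symm))
  exact zz_exN hb (range_subset_iff.2 fun x => h3 (mem_univ x)) h2

end

end Pool.Agent.MP_1c689d_ag.K0

end

section

/-! Poincaré duality. -/

set_option autoImplicit false

open Complex Filter Topology Set MeasureTheory
open scoped ComplexConjugate ContDiff ENNReal

namespace Pool.Agent.MP_1c689d_ag.K0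

noncomputable section

variable {n : ℕ} {X : Type} [TopologicalSpace X] [Mf n X]

section

variable [MeasurableSpace X] [BorelSpace X]

theorem zuc_kill {T : ZU n X} {x : X} (hx : x ∈ (zuc n X).N ((zuc n X).d T)) :
    ∃ W ∈ 𝓝 x, ∀ j (β : ZS n X j), tsupport β.1 ⊆ W → dd β.1 = 0 → itg β.1 = 0 → T j β = 0 := by
  obtain ⟨W, h1, h2⟩ := hx
  obtain ⟨W', h3, -, h4⟩ := zz_cpx (n := n) h1
  refine ⟨W', h3, fun j β b1 b2 b3 => ?_⟩
  obtain ⟨γ, c1, c2, c3, c4, c5⟩ := h4 j β.1 β.2.1 β.2.2.1 β.2.2.2 b1 b2 b3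
  rcases j with _ | j
  · rw [show γ = 0 from funext c3, dd_zero] at c5
    rw [show β = 0 from Subtype.ext c5.symm, map_zero]
  · have := h2 j ⟨γ, c1, c2, c3⟩ c4
    rw [zuc_d, show zdl n X j ⟨γ, c1, c2, c3⟩ = β from Subtype.ext c5] at this
    exact (mul_eq_zero.1 this).resolve_left (pow_ne_zero _ (neg_ne_zero.2 one_ne_zero))

theorem zuc_res : (zuc n X).Res (zint n X ∘ zfu n X) where
  u0 := by rw [Function.comp, map_zero, map_zero]
  uG c := zint_hom.G 0 _ (zfc_res.uG c)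
  du c := by rw [Function.comp, ← zint_hom.d, zfc_res.du, map_zero]
  ne c x := fun ⟨W, h1, h2⟩ => by
    obtain ⟨β, b1, b2, b3, b4, b5⟩ := zz_top (n := n) h1
    exact (mul_eq_zero.1 ((zint_u c _ _).symm.trans (h2 _ ⟨β, b1, b2, b3⟩ b4))).resolve_right b5
  ex0 T hT x hx := by
    obtain ⟨W, h1, h2⟩ := zuc_kill hx
    obtain ⟨β, b1, b2, b3, b4, b5⟩ := zz_top (n := n) h1
    let β' : ZS n X (2 * n) := ⟨β, b1, b2, b3⟩
    refine ⟨T _ β' / itg β, W, h1, fun j γ hγ => sub_eq_zero.2 ?_⟩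
    by_cases e : j = 2 * n
    · subst e
      have h3 := h2 _ (γ - (itg γ.1 / itg β) • β')
        ((ZSW _ W).sub_mem hγ ((ZSW _ W).smul_mem _ b4))
        (funext fun y => (Submodule.eq_bot_iff _).1 (Dg_eq_bot (Nat.lt_succ_self _)) _
          ((γ - (itg γ.1 / itg β) • β').2.2.2.dd y)) (by
          change itg (γ.1 - (itg γ.1 / itg β) • β) = 0
          rw [itg_sub (intg_of_sm γ.2.1 γ.2.2.1) ((intg_of_sm b1 b2).smul _), itg_smul,
            div_mul_cancel₀ _ b5, sub_self])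
      rw [map_sub, map_smul, sub_eq_zero] at h3
      rw [Function.comp, zint_u, h3, smul_eq_mul]
      ring
    · rw [hT j e, Function.comp, zint_u,
        itg_of_top_zero fun y => top_of_Dg (γ.2.2.2 y) e, mul_zero, LinearMap.zero_apply]
  ex q T hT x hx := by
    by_cases e : q + 1 ≤ 2 * n
    · obtain ⟨W, h1, h2⟩ := zuc_kill hx
      obtain ⟨S, h3, h4⟩ := zuc_prim hT (Nat.sub_add_cancel e) (W := W) fun β b1 b2 =>
        h2 _ β b1 b2 (itg_of_top_zero fun y => top_of_Dg (β.2.2.2 y) (by omega))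
      exact ⟨S, h3, h4 x h1⟩
    · refine ⟨0, zero_mem _, ZC.N_of_eq (ZC.N_zero _ x) ?_⟩
      rw [map_zero, show T = 0 from funext fun j => hT j (by omega), sub_zero]

theorem zz_pd_germ {U K : Set X} (hU : IsOpen U)
    (hK : IsCompact K) (hKU : K ⊆ U) {k k' : ℕ} (hk : k + 1 + k' = 2 * n) {α : Fm n X}
    (hα : Cl (k + 1) α U) (h : ∀ β : Fm n X, Cl k' β univ → HasCompactSupport β →
      tsupport β ⊆ U → itg (α * β) = 0) : ExN k α K := by
  obtain ⟨a, ha, h1, h2⟩ := zz_cl_global hU hK hKU hα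
  obtain ⟨t, ht, h3⟩ := zuc_prim (zint_hom.G _ a ha) (j := k') (by omega)
    (W := U ∩ {y | a.1 =ᶠ[𝓝 y] α}) fun β b1 b2 => by
      have e : β.1 * a.1 = β.1 * α := funext fun y => by
        change β.1 y * a.1 y = β.1 y * α y
        by_cases e : β.1 y = 0
        · rw [e, zero_mul, zero_mul]
        · rw [(b1 (subset_tsupport _ e)).2.self_of_nhds]
      rw [zint_apply, e, itg_comm β.2.2.2 hα.dg, h β.1 ⟨β.2.1, β.2.2.2, fun p _ => congrFun b2 p⟩
        β.2.2.1 (b1.trans inter_subset_left), mul_zero]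
  obtain ⟨b, hb, h4⟩ := ZC.inj zint_hom zfc_fine zuc_fine zfc_res zuc_res hK ha ht h1 fun x hx =>
    h3 x (inter_mem (hU.mem_nhds (hKU hx)) (eventually_nhdsSet_iff_forall.1 h2 x hx))
  exact zz_exN hb h4 h2

theorem zz_pd_compact [CompactSpace X] {k k' : ℕ}
    (hk : k + 1 + k' = 2 * n) {α : Fm n X} (hα : Cl (k + 1) α univ)
    (h : ∀ β : Fm n X, Cl k' β univ → itg (α * β) = 0) : Ex k α := by
  obtain ⟨κ, h1, h2⟩ := zz_pd_germ isOpen_univ isCompact_univ Subset.rfl hk hα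
    fun β hβ _ _ => h β hβ
  exact ⟨κ, fun p hp => (h2.self_of_nhdsSet p hp).1, h1,
    funext fun p => (h2.self_of_nhdsSet p trivial).2⟩

end

/-- Exact forms. -/
def ZB (n : ℕ) (X : Type) [TopologicalSpace X] [Mf n X] : ∀ j, Submodule ℂ (ZS n X j)
  | 0 => ⊥
  | j + 1 => LinearMap.range (zdl n X j)

section

variable [MeasurableSpace X] [BorelSpace X] [CompactSpace X]

theorem zz_rep {j q : ℕ} (e : j + q = 2 * n) (L : ZS n X j →ₗ[ℂ] ℂ)
    (h : ∀ β ∈ ZB n X j, L β = 0) : ∃ α ∈ LinearMap.ker (zdl n X q),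
      ∀ β ∈ LinearMap.ker (zdl n X j), L β = itg (β.1 * α.1) := by
  obtain ⟨a, ha, t, -, h1, h2⟩ := ZC.surj zint_hom zfc_fine zuc_fine zfc_res zuc_res
    isCompact_univ (zuc_single e L) fun x _ => ZC.N_of_eq (ZC.N_zero _ x)
      (funext fun i => LinearMap.ext fun β => by
        rw [zuc_d]
        by_cases hi : i + 1 = j
        · subst hi
          rw [Pi.single_eq_same, h _ ⟨β, rfl⟩, mul_zero]
          rfl
        · rw [Pi.single_eq_of_ne hi, LinearMap.zero_apply, mul_zero]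
          rfl)
  refine ⟨⟨a.1, a.2, HasCompactSupport.of_compactSpace _, ha⟩,
    Subtype.ext (funext fun y => (zfc_N.1 (h1 (mem_univ y))).self_of_nhds), fun β hβ => ?_⟩
  have h3 := zuc_loc β ((subset_univ _).trans h2)
  rw [Pi.sub_apply, Pi.add_apply, Pi.single_eq_same, LinearMap.sub_apply, LinearMap.add_apply,
    zuc_d, LinearMap.mem_ker.1 hβ, map_zero, mul_zero, add_zero, sub_eq_zero] at h3
  exact h3.symm

/-- The pairing. -/
def zpair (j q : ℕ) : ZS n X q →ₗ[ℂ] ZS n X j →ₗ[ℂ] ℂ where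
  toFun α := zint n X ⟨α.1, α.2.1⟩ j
  map_add' α α' := LinearMap.ext fun β => by
    rw [LinearMap.add_apply, zint_apply, zint_apply, zint_apply, Submodule.coe_add, mul_add,
      itg_add (zz_intg β ⟨α.1, α.2.1⟩) (zz_intg β ⟨α'.1, α'.2.1⟩)]
  map_smul' c α := LinearMap.ext fun β => by
    rw [LinearMap.smul_apply, zint_apply, zint_apply, Submodule.coe_smul, mul_smul_comm, itg_smul]
    rfl

theorem zz_orth {j q : ℕ} {β : ZS n X j} (hβ : β ∈ ZB n X j) {α : ZS n X q}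
    (hα : α ∈ LinearMap.ker (zdl n X q)) : itg (β.1 * α.1) = 0 ∧ itg (α.1 * β.1) = 0 := by
  rcases j with _ | j
  · rw [show β = 0 from hβ, Submodule.coe_zero, zero_mul, mul_zero]
    exact ⟨itg_zero, itg_zero⟩
  · obtain ⟨γ, rfl⟩ := hβ
    exact itg_exact_mul_closed γ.2.1 α.2.1 (congrArg Subtype.val hα)

end

theorem zz_fin_h [CompactSpace X] (k : ℕ) : ∃ (s : ℕ) (α : Fin s → Fm n X),
    (∀ i, Cl (k + 1) (α i) univ) ∧ ∀ β : Fm n X, Cl (k + 1) β univ →
      ∃ c : Fin s → ℂ, Ex k (β - ∑ i, c i • α i) := by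
  by_cases e : k + 1 ≤ 2 * n
  swap
  · refine ⟨0, Fin.elim0, fun i => i.elim0, fun β hβ => ⟨Fin.elim0, 0, fun _ _ => smAt_zero,
      fun _ => zero_mem _, ?_⟩⟩
    rw [dd_zero, Finset.univ_eq_empty, Finset.sum_empty, sub_zero]
    exact funext fun y =>
      ((Submodule.eq_bot_iff _).1 (Dg_eq_bot (not_le.1 e)) _ (hβ.dg y)).symm
  borelize X
  obtain ⟨q, e⟩ := Nat.exists_eq_add_of_le e
  obtain ⟨s, v, h1, h2⟩ := zz_fin2 (ZB n X (k + 1)) (LinearMap.ker (zdl n X (k + 1))) (ZB n X q)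
    (LinearMap.ker (zdl n X q)) (zpair (k + 1) q) (fun _ hv _ hw => (zz_orth hv hw).1)
    (fun _ hv _ hw => (zz_orth hw hv).2) (zz_rep e.symm) fun L hL => by
      obtain ⟨α, a1, a2⟩ := zz_rep (j := q) (q := k + 1) (by omega) L hL
      refine ⟨(-1 : ℂ) ^ (q * (k + 1)) • α, Submodule.smul_mem _ _ a1, fun β hβ => ?_⟩
      rw [a2 β hβ, map_smul, itg_comm β.2.2.2 α.2.2.2]
      rfl
  refine ⟨s, fun i => (v i).1, fun i => ⟨(v i).2.1, (v i).2.2.2,
    fun p _ => congrFun (congrArg Subtype.val (h1 i)) p⟩, fun β hβ => ?_⟩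
  obtain ⟨c, γ, hγ⟩ := h2 ⟨β, hβ.sm, HasCompactSupport.of_compactSpace _, hβ.dg⟩
    (Subtype.ext (funext fun p => hβ.cl p trivial))
  refine ⟨c, γ.1, γ.2.1, γ.2.2.2, (congrArg Subtype.val hγ).trans ?_⟩
  rw [Submodule.coe_sub, AddSubmonoidClass.coe_finsetSum]
  rfl

end

end Pool.Agent.MP_1c689d_ag.K0

end

section

/-! Real cocycles are combinations of integer cocycles. -/

set_option autoImplicit false

namespace Pool.Agent.MP_1c689d_ag.K0

noncomputable section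

/-- Cocycles of degree two on the nerve `N`. -/
def LatCo {ι R : Type} [AddCommGroup R] (N : ι → ι → ι → ι → Prop) (c : ι → ι → ι → R) : Prop :=
  ∀ i j k l, N i j k l → c j k l - c i k l + c i j l - c i j k = 0

/-- The integer cocycles. -/
def latM {ι : Type} (N : ι → ι → ι → ι → Prop) : Submodule ℤ (ι → ι → ι → ℤ) where
  carrier := {c | LatCo N c}
  add_mem' := fun {a b} ha hb i j k l h => by
    have h1 := ha i j k l h
    have h2 := hb i j k l h
    simp only [Pi.add_apply]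
    linarith
  zero_mem' := fun i j k l _ => by simp
  smul_mem' := fun z a ha i j k l h => by
    have h1 := ha i j k l h
    simp only [Pi.smul_apply, smul_eq_mul]
    linear_combination z * h1

theorem lat_lin {ι : Type} [Fintype ι] (N : ι → ι → ι → ι → Prop) :
    ∃ (s : ℕ) (v : Fin s → ι → ι → ι → ℤ), (∀ t, LatCo N (v t)) ∧
      ∀ c : ι → ι → ι → ℝ, LatCo N c →
        ∃ a : Fin s → ℝ, ∀ i j k, c i j k = ∑ t, a t * v t i j k := by
  obtain ⟨s, v, hv⟩ := Submodule.fg_iff_exists_fin_generating_family.1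
    (IsNoetherian.noetherian (latM N))
  refine ⟨s, v, fun t => ?_, fun c hc => ?_⟩
  · have : v t ∈ latM N := hv ▸ Submodule.subset_span ⟨t, rfl⟩
    exact this
  set L : Submodule ℤ ℝ := Submodule.span ℤ (Set.range fun x : ι × ι × ι => c x.1 x.2.1 x.2.2)
  have hL : ∀ i j k, c i j k ∈ L := fun i j k => Submodule.subset_span ⟨(i, j, k), rfl⟩
  have : Module.Finite ℤ L := Module.Finite.span_of_finite ℤ (Set.finite_range _)
  let b := Module.finBasis ℤ L
  have hw : ∀ u, (fun i j k => b.repr ⟨c i j k, hL i j k⟩ u) ∈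
      Submodule.span ℤ (Set.range v) := fun u => by
    rw [hv]
    intro i j k l h
    have h1 : (⟨c j k l, hL j k l⟩ : L) - ⟨c i k l, hL i k l⟩ + ⟨c i j l, hL i j l⟩ -
        ⟨c i j k, hL i j k⟩ = 0 := Subtype.ext (hc i j k l h)
    have h2 := congrArg (fun x => b.repr x u) h1
    simpa using h2
  choose z hz using fun u => (Submodule.mem_span_range_iff_exists_fun ℤ).1 (hw u)
  refine ⟨fun t => ∑ u, (z u t : ℝ) * (b u : ℝ), fun i j k => ?_⟩
  have h1 := congrArg (fun x : L => (x : ℝ)) (b.sum_repr ⟨c i j k, hL i j k⟩)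
  simp only [Submodule.coe_sum, Submodule.coe_smul_of_tower, zsmul_eq_mul] at h1
  rw [← h1]
  simp only [Finset.sum_mul]
  rw [Finset.sum_comm]
  refine Finset.sum_congr rfl fun u _ => ?_
  have h2 := congrFun (congrFun (congrFun (hz u) i) j) k
  simp only [Finset.sum_apply, Pi.smul_apply, smul_eq_mul] at h2
  rw [← h2]
  push_cast
  rw [Finset.sum_mul]
  exact Finset.sum_congr rfl fun t _ => by ring

end

end Pool.Agent.MP_1c689d_ag.K0

end

section

/-! Whitney forms: definitions and first properties. -/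

set_option autoImplicit false

open Complex Filter Topology Set MeasureTheory
open scoped ComplexConjugate ContDiff ENNReal

namespace Pool.Agent.MP_1c689d_ag.K0

noncomputable section

variable {n m : ℕ} {X Y ι : Type} [TopologicalSpace X] [Mf n X] [TopologicalSpace Y] [Mf m Y]

/-- An open set on which the Poincaré lemma holds. -/
structure LatCv (n : ℕ) [Mf n X] (C : Set X) : Prop where
  op : IsOpen C
  succ : ∀ (k : ℕ) (α : Fm n X), Cl (k + 1) α C → cf α = α →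
    ∃ β : Fm n X, Sm 1 β C ∧ Dgr k β ∧ cf β = β ∧ ∀ y ∈ C, dd β y = α y
  zero : ∀ s : X → ℂ, Sm 1 (fn n s) C → (∀ y ∈ C, dd (fn n s) y = 0) → ∃ c, ∀ y ∈ C, s y = c

/-- The Whitney form of a cochain. -/
def latW [Fintype ι] (n : ℕ) [Mf n X] (ρ : ι → X → ℂ) (c : ι → ι → ι → ℝ) : Fm n X :=
  ∑ i, ∑ j, ∑ k, (c i j k : ℂ) • (ρ i • (dd (fn n (ρ j)) * dd (fn n (ρ k))))

/-- A partition of unity on `U` whose nerve is contained in `N`. -/
structure LatP [Fintype ι] (n : ℕ) [Mf n X] (ρ : ι → X → ℂ) (N : ι → ι → ι → ι → Prop)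
    (U : Set X) : Prop where
  op : IsOpen U
  sm : ∀ i, Sm 1 (fn n (ρ i)) univ
  re : ∀ i y, conj (ρ i y) = ρ i y
  one : ∀ y ∈ U, ∑ i, ρ i y = 1
  nerve : ∀ i j k l, ∀ y ∈ U, y ∈ tsupport (ρ i) → y ∈ tsupport (ρ j) → y ∈ tsupport (ρ k) →
    y ∈ tsupport (ρ l) → N i j k l

theorem lat_fn_dg (s : X → ℂ) : Dgr 0 (fn n s) := fun y => Tp_le_Dg (p := 0) (q := 0) (fn_Ty s y)

theorem lat_d_dg (s : X → ℂ) : Dgr 1 (dd (fn n s)) := (lat_fn_dg s).dd

theorem lat_d_zero {s : X → ℂ} {y : X} (h : y ∉ tsupport s) : dd (fn n s) y = 0 := by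
  have h1 : fn n s =ᶠ[𝓝 y] 0 := (notMem_tsupport_iff_eventuallyEq.1 h).mono fun z hz => by
    simp only [fn, hz, Pi.zero_apply, map_zero]
  rw [dd_congr h1, dd_zero, Pi.zero_apply]

theorem lat_dd_fsmul {s : X → ℂ} {α : Fm n X} {y : X} (h : SmAt 1 (fn n s) y)
    (h' : SmAt 1 α y) : dd (s • α) y = dd (fn n s) y * α y + s y • dd α y := by
  rw [← fn_mul, dd_mul h h', gi_of_Dg (lat_fn_dg s y), pow_zero, one_smul, fn, ← Algebra.smul_def]

theorem lat_cj_d {s : X → ℂ} (h : ∀ y, conj (s y) = s y) (y : X) :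
    cj (dd (fn n s) y) = dd (fn n s) y := by
  have h1 : cf (fn n s) = fn n s := by
    rw [cf_fn]
    simp only [h]
  have h2 := congrFun (dd_cf (α := fn n s)) y
  rw [h1] at h2
  exact h2.symm

variable [Fintype ι] {ρ : ι → X → ℂ} {N : ι → ι → ι → ι → Prop} {U : Set X}

theorem LatP.sum_d (h : LatP n ρ N U) {y : X} (hy : y ∈ U) : ∑ i, dd (fn n (ρ i)) y = 0 := by
  rw [← dd_sum fun i _ => h.sm i y trivial]
  have h1 : (∑ i, fn n (ρ i)) =ᶠ[𝓝 y] fn n fun _ => 1 := by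
    filter_upwards [h.op.mem_nhds hy] with z hz
    simp only [Finset.sum_apply, fn, ← map_sum, h.one z hz]
  rw [dd_congr h1, dd_const, Pi.zero_apply]

theorem latW_apply (c : ι → ι → ι → ℝ) (y : X) : latW n ρ c y = ∑ i, ∑ j, ∑ k,
    (c i j k : ℂ) • (ρ i y • (dd (fn n (ρ j)) y * dd (fn n (ρ k)) y)) := by
  simp only [latW, Finset.sum_apply, Pi.smul_apply, Pi.smul_apply', Pi.mul_apply]

theorem latW_sm (h : ∀ i, Sm 1 (fn n (ρ i)) univ) (c : ι → ι → ι → ℝ) (y : X) :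
    SmAt 1 (latW n ρ c) y :=
  SmAt.sum fun i _ => SmAt.sum fun j _ => SmAt.sum fun k _ => ((h i y trivial).fsmul_one
    ((h j y trivial).dd.mul_left (h k y trivial).dd)).smul _

theorem latW_dg (c : ι → ι → ι → ℝ) : Dgr 2 (latW n ρ c) := fun y => by
  rw [latW_apply]
  exact Submodule.sum_mem _ fun i _ => Submodule.sum_mem _ fun j _ =>
    Submodule.sum_mem _ fun k _ => Submodule.smul_mem _ _ (Submodule.smul_mem _ _
      (Dg_mul (k := 1) (l := 1) (lat_d_dg (ρ j) y) (lat_d_dg (ρ k) y)))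

theorem latW_cf (h : ∀ i y, conj (ρ i y) = ρ i y) (c : ι → ι → ι → ℝ) :
    cf (latW n ρ c) = latW n ρ c := by
  funext y
  simp only [cf, latW_apply, map_sum, cj_smul, map_mul, lat_cj_d (h _), h, conj_ofReal]

theorem latW_sum {s : ℕ} (a : Fin s → ℝ) (v : Fin s → ι → ι → ι → ℝ) :
    ∑ t, (a t : ℂ) • latW n ρ (v t) = latW n ρ fun i j k => ∑ t, a t * v t i j k := by
  simp only [latW, Finset.smul_sum, smul_smul, ofReal_sum, ofReal_mul, Finset.sum_smul]
  rw [Finset.sum_comm]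
  refine Finset.sum_congr rfl fun i _ => ?_
  rw [Finset.sum_comm]
  refine Finset.sum_congr rfl fun j _ => ?_
  rw [Finset.sum_comm]

theorem latW_pb {f : Y → X} (hf : ∀ p, HMap f p) (h : ∀ i, Sm 1 (fn n (ρ i)) univ)
    (c : ι → ι → ι → ℝ) : pb f (latW n ρ c) = latW m (fun i => ρ i ∘ f) c := by
  have h1 : ∀ i, pb f (dd (fn n (ρ i))) = dd (fn m (ρ i ∘ f)) := fun i => funext fun y => by
    rw [pb_dd (hf y) (h i _ trivial), pb_fn]
  simp only [latW, pb_sum, pb_smul, pb_fsmul, pb_mul, h1]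

end

end Pool.Agent.MP_1c689d_ag.K0

end

section

/-! Nested covers by sets on which the Poincaré lemma holds. -/

set_option autoImplicit false

open Complex Filter Topology Set MeasureTheory
open scoped ComplexConjugate ContDiff ENNReal

namespace Pool.Agent.MP_1c689d_ag.K0

noncomputable section

variable {n : ℕ} {S : Type} [TopologicalSpace S] [Mf n S]

theorem LATCv_pb {e : OpenPartialHomeomorph S (E n)} (he : IsCh e) {α : Fm n S}
    (hα : Sm 1 α e.source) (h0 : ∀ y ∈ e.source, dd α y = 0) :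
    ContDiffOn ℝ ∞ (pb e.symm α) e.target ∧ ∀ z ∈ e.target, dE (pb e.symm α) z = 0 := by
  refine ⟨fun z hz => ?_, fun z hz => ?_⟩
  · have := ((smAt_chart he (e.map_target hz)).1 (hα _ (e.map_target hz))).self_of_nhds
    rw [e.right_inv hz] at this
    exact this.contDiffWithinAt
  · rw [← dd_E, ← pb_dd (he.2 z hz) (hα _ (e.map_target hz)), pb, h0 _ (e.map_target hz), map_zero]

/-- The domain of a chart with convex image. -/
theorem LATCv_ch {e : OpenPartialHomeomorph S (E n)} (he : IsCh e) (hc : Convex ℝ e.target) :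
    LatCv n e.source := by
  refine ⟨e.open_source, fun k α hα hr => ?_, fun s hs h0 => ?_⟩
  · obtain ⟨h1, h2⟩ := LATCv_pb he hα.sm hα.cl
    obtain ⟨β, b1, b2, b3, b4⟩ := poincare e.open_target hc (k := k) h1
      (fun z _ => pb_Dg (hα.dg _)) h2
    have hs : ∀ y ∈ e.source, SmAt 1 β (e y) := fun y hy => smAt_E.2 (by
      filter_upwards [e.open_target.mem_nhds (e.map_source hy)] with w hw
      exact b1.contDiffAt (e.open_target.mem_nhds hw))
    have hj : cf β = β := funext (b4 fun z _ => by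
      have := congrFun (pb_cf (f := e.symm) α) z
      rw [hr] at this
      exact this.symm)
    refine ⟨pb e β, fun y hy => MF2b_pb (he.1 y hy) (hs y hy), fun y => pb_Dg (b2 _),
      by rw [← pb_cf, hj], fun y hy => ?_⟩
    rw [← pb_dd (he.1 y hy) (hs y hy), dd_E,
      pb_congr (β := pb e.symm α) EventuallyEq.rfl (b3 _ (e.map_source hy)), pb_chart he hy]
  · obtain ⟨h1, h2⟩ := LATCv_pb he hs h0
    obtain ⟨c, hc'⟩ := poincare_zero e.open_target hc h1 (fun z _ => pb_Dg (lat_fn_dg s _)) h2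
    refine ⟨c, fun y hy => ?_⟩
    have := hc' _ (e.map_source hy)
    rw [pb_fn, fn, Function.comp_apply, e.left_inv hy] at this
    exact algebraMap_inj this

/-- The preimage of a small ball in the chart at `p`. -/
theorem lat_nhds (p : S) {W : Set S} (hW : W ∈ 𝓝 p) : ∃ C, LatCv n C ∧ p ∈ C ∧ C ⊆ W := by
  obtain ⟨e, r, -, he, hp, hs, -, -, ht⟩ :=
    (isCh_ch (n := n) p).exists_ball (mem_chart_source (E n) p) hW
  exact ⟨e.source, LATCv_ch he (ht ▸ convex_ball _ _), hp, hs.trans inter_subset_left⟩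

theorem LATCv_leb {S : Type} [MetricSpace S] [Mf n S] [CompactSpace S] {ε : ℝ} (hε : 0 < ε) :
    ∃ δ > 0, ∃ C : S → Set S, ∀ p, LatCv n (C p) ∧ Metric.ball p δ ⊆ C p ∧
      C p ⊆ Metric.ball p ε := by
  choose C h1 h2 h3 using fun x : S => lat_nhds (n := n) x (Metric.ball_mem_nhds x (half_pos hε))
  obtain ⟨δ, hδ, h⟩ := lebesgue_number_lemma_of_metric isCompact_univ (fun x => (h1 x).op)
    fun x _ => mem_iUnion.2 ⟨x, h2 x⟩
  choose i hi using fun p => h p (mem_univ p)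
  refine ⟨δ, hδ, fun p => C (i p), fun p => ⟨h1 _, hi p, fun y hy => ?_⟩⟩
  have a := Metric.mem_ball.1 (h3 _ hy)
  have b := Metric.mem_ball.1 (h3 _ (hi p (Metric.mem_ball_self hδ)))
  have := dist_triangle_right y p (i p)
  rw [Metric.mem_ball]
  linarith

theorem lat_cover [CompactSpace S] : ∃ V B D : S → Set S, (∀ p, LatCv n (V p)) ∧
    (∀ p, LatCv n (B p)) ∧ (∀ p, LatCv n (D p)) ∧ (∀ p, p ∈ V p) ∧
    ∀ p q, (V p ∩ V q).Nonempty → V p ⊆ B q ∧ B p ⊆ D q := by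
  have := mf_metrizable n S
  let _ := TopologicalSpace.metrizableSpaceMetric S
  obtain ⟨δ0, h0, D, hD⟩ := LATCv_leb (n := n) (S := S) one_pos
  obtain ⟨δ1, h1, B, hB⟩ := LATCv_leb (n := n) (S := S) (half_pos h0)
  obtain ⟨δ2, h2, V, hV⟩ := LATCv_leb (n := n) (S := S) (ε := min δ1 δ0 / 4)
    (div_pos (lt_min h1 h0) four_pos)
  refine ⟨V, B, D, fun p => (hV p).1, fun p => (hB p).1, fun p => (hD p).1,
    fun p => (hV p).2.1 (Metric.mem_ball_self h2), ?_⟩
  rintro p q ⟨w, hp, hq⟩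
  have a := Metric.mem_ball.1 ((hV p).2.2 hp)
  have b := Metric.mem_ball.1 ((hV q).2.2 hq)
  have c := dist_triangle_left p q w
  have m1 := min_le_left δ1 δ0
  have m2 := min_le_right δ1 δ0
  refine ⟨fun y hy => (hB q).2.1 ?_, fun y hy => (hD q).2.1 ?_⟩
  · have d := Metric.mem_ball.1 ((hV p).2.2 hy)
    have := dist_triangle y p q
    rw [Metric.mem_ball]
    linarith
  · have d := Metric.mem_ball.1 ((hB p).2.2 hy)
    have := dist_triangle y p q
    rw [Metric.mem_ball]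
    linarith

end

end Pool.Agent.MP_1c689d_ag.K0

end

section

/-! Every closed real form of degree two is a Whitney form up to an exact form. -/

set_option autoImplicit false

open Complex Filter Topology Set MeasureTheory
open scoped ComplexConjugate ContDiff ENNReal

namespace Pool.Agent.MP_1c689d_ag.K0

noncomputable section

variable {n : ℕ} {S ι : Type} [TopologicalSpace S] [Mf n S] [Fintype ι]

theorem LATZig_alg1 {r : ι → ℂ} {e a : ι → Λ n} (hr : ∑ i, r i = 1) (he : ∑ i, e i = 0)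
    (hc : ∀ i, e i * a i = -(a i * e i)) (F : ι → ι → ℂ) (θ : Λ n) :
    ∑ i, (e i * a i + r i • θ) + ∑ i, ∑ j, (F i j • (e i * e j) + r i • ((a j - a i) * e j)) =
      θ + ∑ i, ∑ j, F i j • (e i * e j) := by
  have h1 : ∀ i, ∑ j, r i • ((a j - a i) * e j) = r i • ∑ j, a j * e j := fun i => by
    simp only [← Finset.smul_sum, sub_mul, Finset.sum_sub_distrib, ← Finset.mul_sum, he, mul_zero,
      sub_zero]
  simp only [Finset.sum_add_distrib, h1, ← Finset.sum_smul, hr, one_smul, hc,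
    Finset.sum_neg_distrib]
  abel

theorem LATZig_alg2 {r : ι → ℂ} {e : ι → Λ n} (hr : ∑ i, r i = 1) (he : ∑ i, e i = 0)
    (F : ι → ι → ℂ) : ∑ i, ∑ j, ∑ k, (F j k - F i k + F i j) • (r i • (e j * e k)) =
      ∑ j, ∑ k, F j k • (e j * e k) := by
  have h1 : ∀ i, ∑ j, ∑ k, F i k • (r i • (e j * e k)) = 0 := fun i => by
    rw [Finset.sum_comm]
    simp only [← Finset.smul_sum, ← Finset.sum_mul, he, zero_mul, smul_zero,
      Finset.sum_const_zero]
  have h2 : ∀ i j, ∑ k, F i j • (r i • (e j * e k)) = 0 := fun i j => by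
    simp only [← Finset.smul_sum, ← Finset.mul_sum, he, mul_zero, smul_zero]
  have h3 : ∀ i, ∑ j, ∑ k, F j k • (r i • (e j * e k)) = r i • ∑ j, ∑ k, F j k • (e j * e k) :=
    fun i => by simp only [Finset.smul_sum, smul_comm (r i)]
  simp only [add_smul, sub_smul, Finset.sum_add_distrib, Finset.sum_sub_distrib, h1, h2, h3,
    sub_zero, add_zero, ← Finset.sum_smul, hr, one_smul]

theorem LATZig_dd {s : S → ℂ} {α : Fm n S} {O : Set S} {y : S} (hs : SmAt 1 (fn n s) y)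
    (hα : Sm 1 α O) (h : tsupport s ⊆ O) :
    dd (s • α) y = dd (fn n s) y * α y + s y • dd α y := by
  by_cases hy : y ∈ tsupport s
  · exact lat_dd_fsmul hs (hα y (h hy))
  · have h1 : s • α =ᶠ[𝓝 y] 0 := (notMem_tsupport_iff_eventuallyEq.1 hy).mono fun z hz => by
      simp only [Pi.smul_apply', hz, Pi.zero_apply, zero_smul]
    rw [dd_congr h1, dd_zero, Pi.zero_apply, lat_d_zero hy, image_eq_zero_of_notMem_tsupport hy,
      zero_mul, zero_smul, add_zero]

theorem LATZig_fn {C : Set S} (hC : LatCv n C) {a b θ : Fm n S} (ha : Sm 1 a C) (hb : Sm 1 b C)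
    (ha1 : Dgr 1 a) (hb1 : Dgr 1 b) (har : cf a = a) (hbr : cf b = b)
    (had : ∀ y ∈ C, dd a y = θ y) (hbd : ∀ y ∈ C, dd b y = θ y) :
    ∃ f : S → ℂ, (∀ y, conj (f y) = f y) ∧ Sm 1 (fn n f) C ∧
      ∀ y ∈ C, dd (fn n f) y = a y - b y := by
  obtain ⟨β, h1, h2, h3, h4⟩ := hC.succ 0 (a - b)
    ⟨fun y hy => (ha y hy).sub (hb y hy), fun y => Submodule.sub_mem _ (ha1 y) (hb1 y),
      fun y hy => by rw [dd_sub (ha y hy) (hb y hy), had y hy, hbd y hy, sub_self]⟩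
    (funext fun y => by
      change cj (a y - b y) = a y - b y
      rw [map_sub]
      exact congrArg₂ (· - ·) (congrFun har y) (congrFun hbr y))
  obtain ⟨f, rfl⟩ := Ty.exists_fn (α := β) fun y => Dg_zero (n := n) ▸ h2 y
  rw [cf_fn] at h3
  exact ⟨f, fun y => algebraMap_inj (congrFun h3 y), h1, h4⟩

theorem LATZig_const {C : Set S} (hC : LatCv n C) {f g h : S → ℂ} (hf : Sm 1 (fn n f) C)
    (hg : Sm 1 (fn n g) C) (hh : Sm 1 (fn n h) C) (rf : ∀ y, conj (f y) = f y)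
    (rg : ∀ y, conj (g y) = g y) (rh : ∀ y, conj (h y) = h y)
    (h0 : ∀ y ∈ C, dd (fn n f) y - dd (fn n g) y + dd (fn n h) y = 0) :
    ∃ c : ℝ, ∀ y ∈ C, (c : ℂ) = -(f y - g y + h y) := by
  have e : fn n (fun y => f y - g y + h y) = fn n f - fn n g + fn n h := funext fun y => by
    simp only [fn, map_add, map_sub, Pi.add_apply, Pi.sub_apply]
  obtain ⟨c, hc⟩ := hC.zero (fun y => f y - g y + h y)
    (fun y hy => e ▸ ((hf y hy).sub (hg y hy)).add (hh y hy)) fun y hy => by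
      rw [e, dd_add ((hf y hy).sub (hg y hy)) (hh y hy), dd_sub (hf y hy) (hg y hy), h0 y hy]
  refine ⟨-c.re, fun y hy => ?_⟩
  have h1 : conj (f y - g y + h y) = f y - g y + h y := by rw [map_add, map_sub, rf, rg, rh]
  rw [ofReal_neg, ← hc y hy, conj_eq_iff_re.1 h1]

theorem lat_zig {V B D : ι → Set S} (hV : ∀ i, LatCv n (V i)) (hB : ∀ i, LatCv n (B i))
    (hD : ∀ i, LatCv n (D i)) (hs : ∀ i j, (V i ∩ V j).Nonempty → V i ⊆ B j ∧ B i ⊆ D j)
    {ρ : ι → S → ℂ} (hρ : ∀ i, Sm 1 (fn n (ρ i)) univ) (h1 : ∀ y, ∑ i, ρ i y = 1)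
    (ht : ∀ i, tsupport (ρ i) ⊆ V i) {θ : Fm n S} (hθ : Cl 2 θ univ) (hr : cf θ = θ) :
    ∃ c : ι → ι → ι → ℝ, LatCo (fun i j k l => (V i ∩ V j ∩ V k ∩ V l).Nonempty) c ∧
      Ex 1 (θ - latW n ρ c) := by
  choose a a1 a2 a3 a4 using fun j => (hD j).succ 1 θ
    ⟨fun y _ => hθ.sm y trivial, hθ.dg, fun y _ => hθ.cl y trivial⟩ hr
  have hVD : ∀ i, V i ⊆ D i := fun i y hy => (hs i i ⟨y, hy, hy⟩).2 ((hs i i ⟨y, hy, hy⟩).1 hy)
  have hf : ∀ i j, ∃ f : S → ℂ, (∀ y, conj (f y) = f y) ∧ Sm 1 (fn n f) (V i) ∧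
      ((V i ∩ V j).Nonempty → Sm 1 (fn n f) (B i) ∧ ∀ y ∈ B i, dd (fn n f) y = a j y - a i y) := by
    intro i j
    by_cases h : (V i ∩ V j).Nonempty
    · have h' : (V i ∩ V i).Nonempty := h.mono fun y hy => ⟨hy.1, hy.1⟩
      obtain ⟨f, h1, h2, h3⟩ := LATZig_fn (hB i) (fun y hy => a1 j y ((hs i j h).2 hy))
        (fun y hy => a1 i y ((hs i i h').2 hy)) (a2 j) (a2 i) (a3 j) (a3 i)
        (fun y hy => a4 j y ((hs i j h).2 hy)) fun y hy => a4 i y ((hs i i h').2 hy)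
      exact ⟨f, h1, fun y hy => h2 y ((hs i i h').1 hy), fun _ => ⟨h2, h3⟩⟩
    · exact ⟨fun _ => 0, fun _ => map_zero _, fun y _ => smAt_const 0, fun h' => absurd h' h⟩
  choose f f1 f2 f3 using hf
  have hc : ∀ i j k, ∃ c : ℝ, ∀ y ∈ V i, y ∈ V j → y ∈ V k →
      (c : ℂ) = -(f j k y - f i k y + f i j y) := by
    intro i j k
    by_cases h : ∃ y ∈ V i, y ∈ V j ∧ y ∈ V k
    · obtain ⟨z, zi, zj, zk⟩ := h
      have ij := (hs i j ⟨z, zi, zj⟩).1
      have ii := (hs i i ⟨z, zi, zi⟩).1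
      obtain ⟨c, hc⟩ := LATZig_const (hV i) (fun y hy => (f3 j k ⟨z, zj, zk⟩).1 y (ij hy))
        (f2 i k) (f2 i j) (f1 j k) (f1 i k) (f1 i j) fun y hy => by
          rw [(f3 j k ⟨z, zj, zk⟩).2 y (ij hy), (f3 i k ⟨z, zi, zk⟩).2 y (ii hy),
            (f3 i j ⟨z, zi, zj⟩).2 y (ii hy)]
          abel
      exact ⟨c, fun y hy _ _ => hc y hy⟩
    · exact ⟨0, fun y yi yj yk => absurd ⟨y, yi, yj, yk⟩ h⟩
  choose c hc using hc
  have sa : ∀ i, Sm 1 (a i) (V i) := fun i y hy => a1 i y (hVD i hy)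
  have sf : ∀ i j, Sm 1 (f i j • dd (fn n (ρ j))) (V i) := fun i j y hy =>
    (f2 i j y hy).fsmul_one (hρ j y trivial).dd
  have s1 : ∀ y i, SmAt 1 (ρ i • a i) y := fun y i =>
    SmAt.of_tsupport (sa i) (hρ i y trivial) (ht i)
  have s2 : ∀ y i j, SmAt 1 (ρ i • (f i j • dd (fn n (ρ j)))) y := fun y i j =>
    SmAt.of_tsupport (sf i j) (hρ i y trivial) (ht i)
  refine ⟨c, ?_, ∑ i, ρ i • a i + ∑ i, ∑ j, ρ i • (f i j • dd (fn n (ρ j))), fun y _ =>
    (SmAt.sum fun i _ => s1 y i).add (SmAt.sum fun i _ => SmAt.sum fun j _ => s2 y i j),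
    fun y => ?_, funext fun y => ?_⟩
  · rintro i j k l ⟨y, ⟨⟨yi, yj⟩, yk⟩, yl⟩
    refine ofReal_injective ?_
    rw [ofReal_sub, ofReal_add, ofReal_sub, hc j k l y yj yk yl, hc i k l y yi yk yl,
      hc i j l y yi yj yl, hc i j k y yi yj yk, ofReal_zero]
    ring
  · simp only [Pi.add_apply, Finset.sum_apply, Pi.smul_apply']
    exact Submodule.add_mem _ (Submodule.sum_mem _ fun i _ => Submodule.smul_mem _ _ (a2 i y))
      (Submodule.sum_mem _ fun i _ => Submodule.sum_mem _ fun j _ =>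
        Submodule.smul_mem _ _ (Submodule.smul_mem _ _ (lat_d_dg (ρ j) y)))
  have hr0 : ∀ i, y ∉ V i → ρ i y = 0 := fun i h =>
    image_eq_zero_of_notMem_tsupport fun h' => h (ht i h')
  have he0 : ∀ i, y ∉ V i → dd (fn n (ρ i)) y = 0 := fun i h => lat_d_zero fun h' => h (ht i h')
  have he : ∑ i, dd (fn n (ρ i)) y = 0 := by
    have e : ∑ i, fn n (ρ i) = fn n fun _ : S => 1 := funext fun z => by
      simp only [Finset.sum_apply, fn, ← map_sum, h1 z]
    rw [← dd_sum fun i _ => hρ i y trivial, e, dd_const, Pi.zero_apply]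
  have d1 : ∀ i, dd (ρ i • a i) y = dd (fn n (ρ i)) y * a i y + ρ i y • θ y := fun i => by
    rw [LATZig_dd (hρ i y trivial) (sa i) (ht i)]
    by_cases h : y ∈ V i
    · rw [a4 i y (hVD i h)]
    · rw [hr0 i h, zero_smul, zero_smul]
  have d2 : ∀ i j, dd (ρ i • (f i j • dd (fn n (ρ j)))) y =
      f i j y • (dd (fn n (ρ i)) y * dd (fn n (ρ j)) y) +
        ρ i y • ((a j y - a i y) * dd (fn n (ρ j)) y) := fun i j => by
    rw [LATZig_dd (hρ i y trivial) (sf i j) (ht i), Pi.smul_apply', mul_smul_comm]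
    by_cases h : y ∈ V i
    · rw [lat_dd_fsmul (f2 i j y h) (hρ j y trivial).dd, dd_dd (hρ j y trivial), smul_zero,
        add_zero]
      by_cases h' : y ∈ V j
      · rw [(f3 i j ⟨y, h, h'⟩).2 y ((hs i i ⟨y, h, h⟩).1 h)]
      · rw [he0 j h', mul_zero, mul_zero, mul_zero]
    · rw [hr0 i h, zero_smul, zero_smul]
  have d3 : ∀ i j k, (c i j k : ℂ) • (ρ i y • (dd (fn n (ρ j)) y * dd (fn n (ρ k)) y)) =
      -((f j k y - f i k y + f i j y) • (ρ i y • (dd (fn n (ρ j)) y * dd (fn n (ρ k)) y))) := by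
    intro i j k
    by_cases hi : y ∈ V i
    · by_cases hj : y ∈ V j
      · by_cases hk : y ∈ V k
        · rw [hc i j k y hi hj hk, neg_smul]
        · simp only [he0 k hk, mul_zero, smul_zero, neg_zero]
      · simp only [he0 j hj, zero_mul, smul_zero, neg_zero]
    · simp only [hr0 i hi, zero_smul, smul_zero, neg_zero]
  rw [dd_add (SmAt.sum fun i _ => s1 y i) (SmAt.sum fun i _ => SmAt.sum fun j _ => s2 y i j),
    dd_sum fun i _ => s1 y i, dd_sum fun i _ => SmAt.sum fun j _ => s2 y i j, Pi.sub_apply,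
    latW_apply]
  simp only [dd_sum fun j _ => s2 y _ j, d1, d2, d3, Finset.sum_neg_distrib, sub_neg_eq_add]
  rw [LATZig_alg2 (h1 y) he fun i j => f i j y]
  refine LATZig_alg1 (a := fun i => a i y) (h1 y) he (fun i => ?_) (fun i j => f i j y) (θ y)
  rw [comm_Dg (k := 1) (l := 1) (lat_d_dg (ρ i) y) (a2 i y), mul_one, pow_one, neg_one_smul]

end

end Pool.Agent.MP_1c689d_ag.K0

end

section

/-! The Whitney form of a cocycle is closed, and integral for an integer cocycle. -/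

set_option autoImplicit false

open Complex Filter Topology Set MeasureTheory
open scoped ComplexConjugate ContDiff ENNReal

namespace Pool.Agent.MP_1c689d_ag.K0

noncomputable section

section Alg

variable {ι M : Type} [Fintype ι] [Ring M] [Algebra ℂ M] {T : ι → Prop} {r : ι → ℂ} {e : ι → M}
  {c : ι → ι → ι → ℂ}

theorem LATWh_a1 (hr : ∀ i, ¬ T i → r i = 0) (he : ∀ i, ¬ T i → e i = 0) (h1 : ∑ i, r i = 1)
    (h0 : ∑ i, e i = 0) {i : ι}
    (hc : ∀ l j k, T l → T j → T k → c l j k - c i j k + c i l k - c i l j = 0) :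
    ∑ l, ∑ j, ∑ k, c l j k • (r l • (e j * e k)) = ∑ j, ∑ k, c i j k • (e j * e k) := by
  have h2 : ∀ l j k, c l j k • (r l • (e j * e k)) = r l • (c i j k • (e j * e k)) -
      r l • (e j * c i l k • e k) + r l • (c i l j • e j * e k) := fun l j k => by
    by_cases hl : T l
    · by_cases hj : T j
      · by_cases hk : T k
        · have h3 : c l j k = c i j k - c i l k + c i l j := by
            linear_combination hc l j k hl hj hk
          rw [h3, mul_smul_comm, smul_mul_assoc]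
          module
        · simp [he k hk]
      · simp [he j hj]
    · simp [hr l hl]
  simp only [h2, Finset.sum_add_distrib, Finset.sum_sub_distrib, ← Finset.smul_sum,
    ← Finset.mul_sum, ← Finset.sum_mul, h0, mul_zero, zero_mul, smul_zero,
    ← Finset.sum_smul, h1, one_smul, sub_zero, add_zero]

theorem LATWh_a2 (hr : ∀ i, ¬ T i → r i = 0) (he : ∀ i, ¬ T i → e i = 0) (h1 : ∑ i, r i = 1)
    (h0 : ∑ i, e i = 0) {i j : ι}
    (hc : ∀ k l, T k → T l → c j k l - c i k l + c i j l - c i j k = 0) :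
    ∑ k, ∑ l, c j k l • (r k • e l) - ∑ k, ∑ l, c i k l • (r k • e l) = -∑ l, c i j l • e l := by
  have h2 : ∀ k l, c j k l • (r k • e l) - c i k l • (r k • e l) = (r k * c i j k) • e l -
      r k • (c i j l • e l) := fun k l => by
    by_cases hk : T k
    · by_cases hl : T l
      · have h3 : c j k l = c i k l - c i j l + c i j k := by
          linear_combination hc k l hk hl
        rw [h3]
        module
      · simp [he l hl]
    · simp [hr k hk]
  simp only [← Finset.sum_sub_distrib, h2]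
  simp only [Finset.sum_sub_distrib, ← Finset.smul_sum, h0, smul_zero, zero_sub,
    Finset.sum_neg_distrib, ← Finset.sum_smul, h1, one_smul]

theorem LATWh_a3 (hr : ∀ i, ¬ T i → r i = 0) (h1 : ∑ i, r i = 1) {k i j : ι}
    (hc : ∀ l, T l → c i j l - c k j l + c k i l - c k i j = 0) :
    ∑ l, c k j l * r l = ∑ l, c k i l * r l + ∑ l, c i j l * r l - c k i j := by
  have h2 : ∀ l, c k j l * r l = c k i l * r l + c i j l * r l - c k i j * r l := fun l => by
    by_cases hl : T l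
    · linear_combination -r l * hc l hl
    · simp [hr l hl]
  simp only [h2, Finset.sum_add_distrib, Finset.sum_sub_distrib, ← Finset.mul_sum, h1, mul_one]

end Alg

variable {n : ℕ} {X ι : Type} [TopologicalSpace X] [Mf n X] [Fintype ι] {ρ : ι → X → ℂ}
  {N : ι → ι → ι → ι → Prop} {U : Set X}

/-- The local primitives. -/
def latA (n : ℕ) [Mf n X] (ρ : ι → X → ℂ) (c : ι → ι → ι → ℝ) (i : ι) : Fm n X :=
  ∑ j, ∑ k, (c i j k : ℂ) • (ρ j • dd (fn n (ρ k)))

/-- The logarithms of the transition functions. -/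
def latF (ρ : ι → X → ℂ) (c : ι → ι → ι → ℝ) (i j : ι) (y : X) : ℂ := ∑ l, (c i j l : ℂ) * ρ l y

theorem latA_apply (c : ι → ι → ι → ℝ) (i : ι) (y : X) :
    latA n ρ c i y = ∑ j, ∑ k, (c i j k : ℂ) • (ρ j y • dd (fn n (ρ k)) y) := by
  simp only [latA, Finset.sum_apply, Pi.smul_apply, Pi.smul_apply']

omit [TopologicalSpace X] [Mf n X] in
theorem latF_fn (c : ι → ι → ι → ℝ) (i j : ι) :
    fn n (latF ρ c i j) = ∑ l, (c i j l : ℂ) • fn n (ρ l) := by
  funext y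
  simp only [fn, latF, Finset.sum_apply, Pi.smul_apply, map_sum, map_mul, ← Algebra.smul_def]

variable (h : LatP n ρ N U) {c : ι → ι → ι → ℝ}
include h

theorem LatP.A_sm (i : ι) (y : X) : SmAt 1 (latA n ρ c i) y :=
  SmAt.sum fun j _ => SmAt.sum fun k _ =>
    ((h.sm j y trivial).fsmul_one (h.sm k y trivial).dd).smul _

theorem LatP.F_sm (i j : ι) (y : X) : SmAt 1 (fn n (latF ρ c i j)) y := by
  rw [latF_fn]
  exact SmAt.sum fun l _ => (h.sm l y trivial).smul _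

theorem LatP.near {y : X} (hy : y ∈ U) {i : ι} (hi : ρ i y ≠ 0) :
    ∀ᶠ z in 𝓝 y, z ∈ U ∧ ρ i z ≠ 0 :=
  (h.op.eventually_mem hy).and ((h.sm i y trivial).continuousAt.eventually_ne hi)

theorem LatP.ex {y : X} (hy : y ∈ U) : ∃ i, ρ i y ≠ 0 := by
  by_contra h1
  push Not at h1
  have h2 := h.one y hy
  simp [h1] at h2

theorem LatP.co (hc : LatCo N c) {y : X} (hy : y ∈ U) {i j k l : ι} (hi : y ∈ tsupport (ρ i))
    (hj : y ∈ tsupport (ρ j)) (hk : y ∈ tsupport (ρ k)) (hl : y ∈ tsupport (ρ l)) :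
    (c j k l : ℂ) - c i k l + c i j l - c i j k = 0 := by
  exact_mod_cast hc i j k l (h.nerve i j k l y hy hi hj hk hl)

theorem LatP.dA (hc : LatCo N c) {y : X} (hy : y ∈ U) {i : ι} (hi : ρ i y ≠ 0) :
    dd (latA n ρ c i) y = latW n ρ c y := by
  have h1 : ∀ j k, SmAt 1 ((c i j k : ℂ) • (ρ j • dd (fn n (ρ k)))) y := fun j k =>
    ((h.sm j y trivial).fsmul_one (h.sm k y trivial).dd).smul _
  rw [latW_apply, LATWh_a1 (T := fun i => y ∈ tsupport (ρ i)) (c := fun i j k => (c i j k : ℂ))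
    (fun _ => image_eq_zero_of_notMem_tsupport) (fun _ => lat_d_zero) (h.one y hy) (h.sum_d hy)
    fun l j k => h.co hc hy (subset_tsupport _ hi), latA,
    dd_sum fun j _ => SmAt.sum fun k _ => h1 j k]
  refine Finset.sum_congr rfl fun j _ => ?_
  rw [dd_sum fun k _ => h1 j k]
  refine Finset.sum_congr rfl fun k _ => ?_
  rw [dd_smul, Pi.smul_apply, lat_dd_fsmul (h.sm j y trivial) (h.sm k y trivial).dd,
    dd_dd (h.sm k y trivial), smul_zero, add_zero]

theorem LatP.dF (hc : LatCo N c) {y : X} (hy : y ∈ U) {i j : ι} (hi : ρ i y ≠ 0)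
    (hj : ρ j y ≠ 0) : latA n ρ c j y - latA n ρ c i y = -dd (fn n (latF ρ c i j)) y := by
  rw [latA_apply, latA_apply, LATWh_a2 (T := fun i => y ∈ tsupport (ρ i))
    (c := fun i j k => (c i j k : ℂ)) (fun _ => image_eq_zero_of_notMem_tsupport)
    (fun _ => lat_d_zero) (h.one y hy) (h.sum_d hy)
    fun k l => h.co hc hy (subset_tsupport _ hi) (subset_tsupport _ hj), latF_fn,
    dd_sum fun l _ => (h.sm l y trivial).smul _]
  simp only [dd_smul, Pi.smul_apply]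

theorem LatP.cl (hc : LatCo N c) : Cl 2 (latW n ρ c) U := by
  refine ⟨fun y _ => latW_sm h.sm c y, latW_dg c, fun y hy => ?_⟩
  obtain ⟨i, hi⟩ := h.ex hy
  rw [← dd_congr ((h.near hy hi).mono fun z hz => h.dA hc hz.1 hz.2), dd_dd (h.A_sm i y)]

omit h in
theorem lat_dd_exp {s : X → ℂ} {p : X} (h : SmAt 1 (fn n s) p) (a : ℂ) :
    SmAt 1 (fn n fun y => exp (a * s y)) p ∧
      dd (fn n fun y => exp (a * s y)) p = (a * exp (a * s p)) • dd (fn n s) p := by
  refine ⟨h.comp_fn (u := fun w => exp (a * w)) (Eventually.of_forall fun w => by fun_prop), ?_⟩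
  have h1 : HasFDerivAt (fun w => exp (a * w)) ((exp (a * s p) * (a * 1)) • (1 : ℂ →L[ℝ] ℂ))
      (s p) := ((hasDerivAt_id (s p)).const_mul a).cexp.complexToReal_fderiv
  have h2 := dd_comp_fn h h1.differentiableAt
  rw [h1.fderiv] at h2
  refine h2.trans ?_
  have e1 : ∀ t : ℂ, ((t • (1 : ℂ →L[ℝ] ℂ)) 1 - I * (t • (1 : ℂ →L[ℝ] ℂ)) I) / 2 = t := fun t => by
    simp only [smul_apply, one_apply_eq_self, smul_eq_mul]
    linear_combination (-t / 2) * I_mul_I
  have e2 : ∀ t : ℂ, ((t • (1 : ℂ →L[ℝ] ℂ)) 1 + I * (t • (1 : ℂ →L[ℝ] ℂ)) I) / 2 = 0 := fun t => by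
    simp only [smul_apply, one_apply_eq_self, smul_eq_mul]
    linear_combination (t / 2) * I_mul_I
  rw [e1, e2, zero_smul, add_zero, mul_one, mul_comm]

theorem LatP.intF {c : ι → ι → ι → ℤ} (hc : LatCo N c) :
    IntF (latW n ρ fun i j k => c i j k) U := by
  have hc' : LatCo N fun i j k => (c i j k : ℝ) := fun i j k l hN => by
    beta_reduce
    exact_mod_cast hc i j k l hN
  generalize hd : (fun i j k => (c i j k : ℝ)) = d at hc'
  rcases U.eq_empty_or_nonempty with rfl | ⟨y0, hy0⟩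
  · exact ⟨0, 0, fun p hp => hp.elim⟩
  obtain ⟨i0, -⟩ := h.ex hy0
  have hx : ∀ y, ∃ i, y ∈ U → ρ i y ≠ 0 := fun y => by
    by_cases hy : y ∈ U
    · exact (h.ex hy).imp fun i hi _ => hi
    · exact ⟨i0, fun h1 => (hy h1).elim⟩
  choose x hx using hx
  refine ⟨fun p => latA n ρ d (x p),
    fun p y => exp (-(2 * Real.pi * I) * latF ρ d (x y) (x p) y), fun p hp => ⟨h.A_sm _ _,
      fun y => ?_, funext fun y => ?_, (h.near hp (hx p hp)).mono fun z hz => h.dA hc' hz.1 hz.2,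
      Eventually.of_forall fun y => ?_, ?_⟩⟩
  · beta_reduce
    rw [latA_apply]
    exact Submodule.sum_mem _ fun j _ => Submodule.sum_mem _ fun k _ =>
      Submodule.smul_mem _ _ (Submodule.smul_mem _ _ (lat_d_dg (ρ k) y))
  · simp only [cf, latA_apply, map_sum, cj_smul, lat_cj_d (h.re _), h.re, conj_ofReal]
  · have h1 : conj (latF ρ d (x y) (x p) y) = latF ρ d (x y) (x p) y := by
      simp only [latF, map_sum, map_mul, conj_ofReal, h.re]
    beta_reduce
    rw [← conj_eq_iff_re.1 h1, ← norm_exp_ofReal_mul_I (-(2 * Real.pi) *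
      (latF ρ d (x y) (x p) y).re)]
    congr 2
    push_cast
    ring
  filter_upwards [h.near hp (hx p hp)] with y hy
  have h1 := (h.near hy.1 hy.2).and (h.near hy.1 (hx y hy.1))
  have h2 : (fn n fun z => exp (-(2 * Real.pi * I) * latF ρ d (x p) (x y) z)) =ᶠ[𝓝 y]
      fn n fun z => exp (-(2 * Real.pi * I) * latF ρ d (x z) (x y) z) /
        exp (-(2 * Real.pi * I) * latF ρ d (x z) (x p) z) := h1.mono fun z hz => by
    have h3 := LATWh_a3 (T := fun i => z ∈ tsupport (ρ i)) (c := fun i j k => (d i j k : ℂ))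
      (fun _ => image_eq_zero_of_notMem_tsupport) (h.one z hz.1.1)
      fun l => h.co hc' hz.1.1 (subset_tsupport _ (hx z hz.1.1)) (subset_tsupport _ hz.1.2)
        (subset_tsupport _ hz.2.2)
    have h4 : (d (x z) (x p) (x y) : ℂ) = c (x z) (x p) (x y) := by
      rw [← hd, ofReal_intCast]
    refine congrArg (algebraMap ℂ (Λ n)) ?_
    beta_reduce
    rw [← exp_sub, exp_eq_exp_iff_exists_int]
    refine ⟨-c (x z) (x p) (x y), ?_⟩
    simp only [latF]
    rw [h3, h4]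
    push_cast
    ring
  refine ⟨(lat_dd_exp (h.F_sm _ _ y) _).1.congr h2, ?_⟩
  filter_upwards [h1, h2.eventually_nhds] with z hz h3
  have h4 := algebraMap_inj h3.self_of_nhds
  beta_reduce at h4
  rw [← dd_congr h3, (lat_dd_exp (h.F_sm _ _ z) _).2, h.dF hc' hz.1.1 hz.1.2 hz.2.2,
    ← h4, smul_neg, neg_mul (2 * Real.pi * I) (exp _), neg_smul]

end

end Pool.Agent.MP_1c689d_ag.K0

end

section

/-! Definitions for the vanishing theorem. -/

set_option autoImplicit false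

open Complex Filter Topology Set MeasureTheory MvPolynomial
open scoped ComplexConjugate ContDiff ENNReal

namespace Pool.Agent.MP_1c689d_ag.K0

noncomputable section

/-- The functions that are algebraic over `S` at all points with values in a field. -/
def VAl {W : Type} (S : Set (W → ℂ)) : Subalgebra ℂ (W → ℂ) where
  carrier := {g | ∀ (K : Type) [Field K] [Algebra ℂ K] (χ : (W → ℂ) →ₐ[ℂ] K),
    IsAlgebraic (Algebra.adjoin ℂ (χ '' S)) (χ g)}
  mul_mem' := fun ha hb K _ _ χ => by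
    rw [map_mul]
    exact (ha K χ).mul (hb K χ)
  add_mem' := fun ha hb K _ _ χ => by
    rw [map_add]
    exact (ha K χ).add (hb K χ)
  algebraMap_mem' := fun c K _ _ χ => by
    rw [AlgHom.commutes, IsScalarTower.algebraMap_apply ℂ (Algebra.adjoin ℂ (χ '' S)) K]
    exact isAlgebraic_algebraMap _

/-- The functions `u` satisfy a polynomial relation on `O`. -/
def VDep {W : Type} {k : ℕ} (u : Fin k → W → ℂ) (O : Set W) : Prop :=
  ∃ p : P k, p ≠ 0 ∧ ∀ w ∈ O, eval (fun i => u i w) p = 0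

/-- Almost all fibres of `u` on `O` have at most `N` points. -/
def VFb {W : Type} {n : ℕ} (u : W → E n) (O : Set W) : Prop :=
  ∃ N : ℕ, ∀ᵐ w, (O ∩ u ⁻¹' {w}).encard ≤ N

/-- A piecewise rational function of degree zero. -/
def VRat {B W : Type} [TopologicalSpace B] [Mf 1 B] {m : ℕ} (D : Crv B) (β : W → B)
    (v : W → Fin m → ℂ) (g : W → ℂ) : Prop :=
  ∃ (k : ℕ) (e : Fin k → ℕ) (n d : Fin k → B → P m), (∀ i, D.Reg (n i) ∧ D.Reg (d i) ∧
    ∀ b, (n i b).IsHomogeneous (e i) ∧ (d i b).IsHomogeneous (e i)) ∧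
    ∀ w, ∃ i, g w = eval (v w) (n i (β w)) / eval (v w) (d i (β w))

/-- `h` is the fibre integral of `γ`, tested on the forms with support in `K`. -/
def VFi {B T : Type} [TopologicalSpace B] [Mf 1 B] [TopologicalSpace T] [Mf 3 T]
    [MeasurableSpace B] [MeasurableSpace T] (p : T → B) (γ : Fm 3 T) (h : B → ℂ) (K : Set B) :
    Prop :=
  Sm 1 (fn 1 h) univ ∧ ∀ θ : Fm 1 B, Sm 1 θ univ → Dgr 2 θ → HasCompactSupport θ →
    tsupport θ ⊆ K → itg (γ * pb p θ) = itg (h • θ)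

/-- Three functions as a map to the model space. -/
def VM {T : Type} (g0 g1 g2 : T → ℂ) : T → E 3 := fun y => ![g0 y, g1 y, g2 y]

/-- The Jacobian density. -/
def VJ {T : Type} [TopologicalSpace T] [Mf 3 T] (u : T → E 3) (y : T) : ℝ≥0∞ :=
  ‖dens (pb u fun _ => vol 3) y‖ₑ

/-- The affine coordinates. -/
def vr {T : Type} {N : ℕ} (x : T → Fin N → ℂ) (a i : Fin N) : T → ℂ := fun y => x y i / x y a

/-- The value of `η` at `y` is a combination with coefficients bounded by `C`. -/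
def VBd {T : Type} [TopologicalSpace T] {n N : ℕ} [Mf n T] (ξ : T → Fin N → ℂ) (η : Fm n T)
    (C : ℝ) (y : T) : Prop :=
  ∃ c : Fin N → Fin N → Fin N → ℂ, (∀ i j k, ‖c i j k‖ ≤ C) ∧
    η y = ∑ i, ∑ j, ∑ k, c i j k • (Dx ξ i y * Dx ξ j y * cj (Dx ξ k y))

end

end Pool.Agent.MP_1c689d_ag.K0

end

section

/-! Polynomial relations and fibres. -/

set_option autoImplicit false

open Complex Filter Topology Set MeasureTheory MvPolynomial
open scoped ComplexConjugate ContDiff ENNReal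

namespace Pool.Agent.MP_1c689d_ag.K0

noncomputable section

variable {W : Type} {k : ℕ}

theorem vanAl3_cons (τ : W → ℂ) (u : Fin k → W → ℂ) (w : W) (p : P (k + 1)) :
    eval (fun i => (Fin.cons τ u : Fin (k + 1) → W → ℂ) i w) p =
      ((finSuccEquiv ℂ k p).map (eval fun i => u i w)).eval (τ w) := by
  rw [← eval_eq_eval_mv_eval']
  congr 2
  funext i
  refine Fin.cases rfl (fun _ => rfl) i

/-- Take a relation `p` on `O` and divide by `X 0` as long as possible (induction on the degree in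
`X 0`, or `finSuccEquiv` and `Polynomial.divX`); the quotient vanishes on the dense set `τ ≠ 0`,
hence on `O` by continuity. Then put `X 0 = 0`. -/
theorem van_cut [TopologicalSpace W] {τ : W → ℂ} {u : Fin k → W → ℂ} {O S : Set W}
    (hO : IsOpen O) (hS : S ⊆ O) (h : VDep (Fin.cons τ u : Fin (k + 1) → W → ℂ) O)
    (hτ : ContinuousOn τ O) (hu : ∀ i, ContinuousOn (u i) O) (h0 : ∀ w ∈ S, τ w = 0)
    (hd : ∀ w ∈ O, ∃ᶠ w' in 𝓝 w, τ w' ≠ 0) : VDep u S := by
  obtain ⟨p, hp, h⟩ := h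
  obtain ⟨r, e, hr⟩ := Polynomial.exists_eq_pow_rootMultiplicity_mul_and_not_dvd
    (finSuccEquiv ℂ k p) (by simpa using hp) 0
  have hc : ContinuousOn (fun w => eval (fun i => (Fin.cons τ u : Fin (k + 1) → W → ℂ) i w)
      ((finSuccEquiv ℂ k).symm r)) O :=
    (MvPolynomial.continuous_eval _).comp_continuousOn
      (continuousOn_pi.2 fun i => Fin.cases hτ hu i)
  refine ⟨r.eval 0, fun h1 => hr (Polynomial.dvd_iff_isRoot.2 h1), fun w hw => ?_⟩
  have h1 := tendsto_nhds_unique_of_frequently_eq (hc.continuousAt (hO.mem_nhds (hS hw)))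
    (tendsto_const_nhds (x := (0 : ℂ))) (((hd w (hS hw)).and_eventually (hO.mem_nhds (hS hw))).mono
      fun y hy => by
        have h2 := h y hy.2
        rw [vanAl3_cons, e] at h2
        rw [vanAl3_cons, AlgEquiv.apply_symm_apply]
        simpa [hy.1] using h2)
  beta_reduce at h1
  rw [vanAl3_cons, AlgEquiv.apply_symm_apply, h0 w hw, ← Polynomial.coeff_zero_eq_eval_zero,
    Polynomial.coeff_map, Polynomial.coeff_zero_eq_eval_zero] at h1
  exact h1

/-- Take a homogeneous component that is not zero: `t ↦ eval (t • y) p` is the polynomial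
`∑ j, t ^ j * eval y (homogeneousComponent j p)` (`hz_eval_smul`), with infinitely many roots. -/
theorem van_hom {Y : Set (Fin k → ℂ)} (hY : ∀ y ∈ Y, ∀ t : ℂ, t ≠ 0 → t • y ∈ Y) {p : P k}
    (hp : p ≠ 0) (h : ∀ y ∈ Y, eval y p = 0) :
    ∃ (q : P k) (d : ℕ), q.IsHomogeneous d ∧ q ≠ 0 ∧ ∀ y ∈ Y, eval y q = 0 := by
  have e := sum_homogeneousComponent p
  obtain ⟨j, hj, h0⟩ := Finset.exists_ne_zero_of_sum_ne_zero (e.trans_ne hp)
  refine ⟨_, j, homogeneousComponent_isHomogeneous j p, h0, fun y hy => ?_⟩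
  have h1 := Polynomial.eq_zero_of_infinite_isRoot (∑ i ∈ Finset.range (p.totalDegree + 1),
    Polynomial.monomial i (eval y (homogeneousComponent i p)))
    (((finite_singleton (0 : ℂ)).infinite_compl).mono fun t ht => by
      have h2 := h _ (hY y hy t ht)
      rw [← e, map_sum] at h2
      rw [mem_ofPred_eq, Polynomial.IsRoot, Polynomial.eval_finsetSum, ← h2]
      refine Finset.sum_congr rfl fun i _ => ?_
      rw [hz_eval_smul (mem_hz_nat.2 (homogeneousComponent_isHomogeneous i p)),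
        Polynomial.eval_monomial, zpow_natCast, mul_comm])
  have h2 := congrArg (Polynomial.coeff · j) h1
  simpa [Polynomial.coeff_monomial, Finset.mem_range.1 hj] using h2

theorem VFb.mono {u : W → E k} {O O' : Set W} (h : VFb u O) (hO : O' ⊆ O) : VFb u O' := by
  obtain ⟨N, h⟩ := h
  exact ⟨N, h.mono fun w hw => (encard_le_encard (inter_subset_inter_left _ hO)).trans hw⟩

theorem VFb.union {ι : Type} [Finite ι] {u : W → E k} {O : ι → Set W} (h : ∀ i, VFb u (O i)) :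
    VFb u (⋃ i, O i) := by
  cases nonempty_fintype ι
  choose N h using h
  refine ⟨∑ i, N i, (ae_all_iff.2 h).mono fun w hw => ?_⟩
  rw [iUnion_inter, Nat.cast_sum]
  exact (encard_iUnion_le_of_fintype _).trans (Finset.sum_le_sum fun i _ => hw i)

/-- Write the relation `p i` as a polynomial in `X 0` (`finSuccEquiv`, `eval_eq_eval_mv_eval'`); for
almost all `w` all leading coefficients are non-zero at `w` (`null_zero_poly`); then the fibre
embeds in the product of the sets of roots. -/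
theorem van_fb0 {ι : Type} [Finite ι] {u : W → E k} {O : Set W} (z : ι → W → ℂ)
    (hz : InjOn (fun w i => z i w) O)
    (h : ∀ i, VDep (Fin.cons (z i) fun j w => u w j : Fin (k + 1) → W → ℂ) O) : VFb u O := by
  classical
  cases nonempty_fintype ι
  choose p hp h using h
  have h1 : ∀ i, ∀ᵐ w : E k, eval w (finSuccEquiv ℂ k (p i)).leadingCoeff ≠ 0 := fun i =>
    compl_mem_ae_iff.2 (null_zero_poly (by simpa using hp i))
  refine ⟨∏ i, (finSuccEquiv ℂ k (p i)).natDegree, (ae_all_iff.2 h1).mono fun w hw => ?_⟩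
  refine (encard_le_encard_of_injOn (t := Set.pi univ fun i =>
    (((finSuccEquiv ℂ k (p i)).map (eval w)).roots.toFinset : Set ℂ)) (fun y hy i _ => ?_)
    (hz.mono inter_subset_left)).trans ?_
  · have h2 := h i y hy.1
    have e : (fun j => u y j) = w := hy.2
    rw [vanAl3_cons, e] at h2
    refine Finset.mem_coe.2 (Multiset.mem_toFinset.2 ((Polynomial.mem_roots fun h3 => ?_).2 h2))
    exact hw i (by simpa using congrArg (Polynomial.coeff · (finSuccEquiv ℂ k (p i)).natDegree) h3)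
  · rw [encard_pi_eq_prod_encard, Nat.cast_prod]
    refine Finset.prod_le_prod' fun i _ => ?_
    rw [encard_coe_eq_coe_finsetCard, Nat.cast_le]
    exact (Multiset.toFinset_card_le _).trans (Polynomial.card_roots_map_le_natDegree _)

end

end Pool.Agent.MP_1c689d_ag.K0

end

section

/-! Functions that are algebraic over a set of functions. -/

set_option autoImplicit false

open Complex Filter Topology Set MeasureTheory MvPolynomial
open scoped ComplexConjugate ContDiff ENNReal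

namespace Pool.Agent.MP_1c689d_ag.K0

noncomputable section

variable {W : Type} {S : Set (W → ℂ)} {g g' : W → ℂ}

theorem van_mem (h : g ∈ S) : g ∈ VAl S := by
  intro K _ _ χ
  exact isAlgebraic_algebraMap (⟨χ g, Algebra.subset_adjoin ⟨g, h, rfl⟩⟩ : Algebra.adjoin ℂ (χ '' S))

theorem van_const (c : ℂ) : (fun _ : W => c) ∈ VAl S := by
  exact (VAl S).algebraMap_mem c

/-- With `g' = fun w => (g w)⁻¹` one has `g * g' * g = g` and `g' * g * g' = g'`, so
`χ g' = (χ g)⁻¹`. -/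
theorem van_inv (h : g ∈ VAl S) : (fun w => (g w)⁻¹) ∈ VAl S := by
  intro K _ _ χ
  have h1 : χ g * χ (fun w => (g w)⁻¹) * χ g = χ g := by
    rw [← map_mul, ← map_mul]
    exact congrArg χ (funext fun w => mul_inv_mul_cancel (g w))
  have h2 : χ (fun w => (g w)⁻¹) * χ g * χ (fun w => (g w)⁻¹) = χ fun w => (g w)⁻¹ := by
    rw [← map_mul, ← map_mul]
    exact congrArg χ (funext fun w => by simpa using mul_inv_mul_cancel (g w)⁻¹)
  by_cases e : χ g = 0
  · rw [← h2, e, mul_zero, zero_mul]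
    exact isAlgebraic_zero
  · rw [eq_inv_of_mul_eq_one_right (mul_right_cancel₀ e (h1.trans (one_mul _).symm))]
    exact (h K χ).inv

theorem van_div (h : g ∈ VAl S) (h' : g' ∈ VAl S) : (fun w => g w / g' w) ∈ VAl S := by
  simp only [div_eq_mul_inv]
  exact (VAl S).mul_mem h (van_inv h')

/-- Functions without common zero generate the unit ideal of the ring of all functions: choose
`i w` with `e (i w) w ≠ 0` and put `d j w = if j = i w then (e j w)⁻¹ else 0`. -/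
theorem van_ne {ι K : Type} [Fintype ι] [Field K] [Algebra ℂ K] (χ : (W → ℂ) →ₐ[ℂ] K)
    {e : ι → W → ℂ} (h0 : ∀ w, ∃ i, e i w ≠ 0) : ∃ i, χ (e i) ≠ 0 := by
  classical
  choose i hi using h0
  by_contra! h
  have k : ∑ j, e j * (fun w => if j = i w then (e j w)⁻¹ else 0) = 1 := funext fun w => by
    simp [Finset.sum_apply, hi w]
  simpa [h] using congrArg χ k

/-- Work over `L = Subalgebra.algebraicClosure (Algebra.adjoin ℂ (χ '' S)) K`; the polynomial
`∑ i, monomial i ⟨χ (c i), _⟩` is not zero; `IsAlgebraic.restrictScalars`. -/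
theorem van_root {n : ℕ} (c : Fin n → W → ℂ) (hc : ∀ i, c i ∈ VAl S) (h0 : ∀ w, ∃ i, c i w ≠ 0)
    (e : ∀ w, ∑ i, c i w * g w ^ (i : ℕ) = 0) : g ∈ VAl S := by
  intro K _ _ χ
  let L := Subalgebra.algebraicClosure (Algebra.adjoin ℂ (χ '' S)) K
  obtain ⟨i, hi⟩ := van_ne χ h0
  refine IsAlgebraic.restrictScalars _ (S := L)
    ⟨∑ j : Fin n, Polynomial.monomial (j : ℕ) (⟨χ (c j), hc j K χ⟩ : L), fun k => hi ?_, ?_⟩
  · have k := congrArg (Polynomial.coeff · i) k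
    simp only [Polynomial.finsetSum_coeff, Polynomial.coeff_monomial, Fin.val_inj,
      Finset.sum_ite_eq', Finset.mem_univ, if_true, Polynomial.coeff_zero] at k
    exact congrArg Subtype.val k
  · have k : ∑ j, c j * g ^ (j : ℕ) = 0 := funext fun w => by simpa using e w
    simpa [Polynomial.aeval_monomial] using congrArg χ k

/-- `χ g` is an eigenvalue of a matrix over `L`, so a root of its characteristic polynomial
(`Matrix.exists_mulVec_eq_zero_iff`, `Matrix.charpoly_map`, `Matrix.eval_charpoly`), which is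
monic. -/
theorem van_stable {ι : Type} [Fintype ι] (e : ι → W → ℂ) (c : ι → ι → W → ℂ)
    (hc : ∀ i j, c i j ∈ VAl S) (h0 : ∀ w, ∃ i, e i w ≠ 0)
    (h : ∀ i w, g w * e i w = ∑ j, c i j w * e j w) : g ∈ VAl S := by
  classical
  intro K _ _ χ
  let L := Subalgebra.algebraicClosure (Algebra.adjoin ℂ (χ '' S)) K
  let M : Matrix ι ι L := Matrix.of fun i j => ⟨χ (c i j), hc i j K χ⟩
  obtain ⟨i, hi⟩ := van_ne χ h0
  refine IsAlgebraic.restrictScalars _ (S := L) ⟨M.charpoly, M.charpoly_monic.ne_zero, ?_⟩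
  rw [Polynomial.aeval_def, Polynomial.eval₂_eq_eval_map, ← Matrix.charpoly_map,
    Matrix.eval_charpoly, ← Matrix.exists_mulVec_eq_zero_iff]
  refine ⟨fun j => χ (e j), fun k => hi (congrFun k i), funext fun j => ?_⟩
  have k : g * e j = ∑ l, c j l * e l := funext fun w => by simpa using h j w
  have k := congrArg χ k
  rw [map_mul, map_sum] at k
  rw [Matrix.sub_mulVec, Matrix.scalar_apply, Pi.sub_apply, Matrix.mulVec_diagonal, k]
  exact sub_eq_zero.2 (Finset.sum_congr rfl fun l _ => map_mul χ _ _)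

/-- `PMP_eval`, `PMP_zero`, `eval_monomial`. -/
theorem van_eval {k d : ℕ} {p : W → P k} {v : W → Fin k → ℂ} (hd : ∀ w, (p w).IsHomogeneous d)
    (hp : ∀ a, (fun w => coeff a (p w)) ∈ VAl S) (hv : ∀ l, (fun w => v w l) ∈ VAl S) :
    (fun w => eval (v w) (p w)) ∈ VAl S := by
  have k : (fun w => eval (v w) (p w)) = ∑ a ∈ PMP_S k d,
      (fun w => coeff a (p w)) * ∏ l, (fun w => v w l) ^ a l := funext fun w => by
    simp [PMP_eval (PMP_zero (hd w)), eval_monomial, Finsupp.prod_fintype]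
  rw [k]
  exact sum_mem fun a _ => mul_mem (hp a) (prod_mem fun l _ => pow_mem (hv l) _)

/-- Compose `χ` with the algebra map `g ↦ g ∘ e`. -/
theorem van_comp {W' : Type} (e : W' → W) (h : g ∈ VAl S) :
    (fun w => g (e w)) ∈ VAl ((fun s w => s (e w)) '' S) := by
  intro K _ _ χ
  rw [image_image]
  exact h K (χ.comp (AlgHom.pi fun w => Pi.evalAlgHom ℂ _ (e w)))

/-- Some indicator function of `O i` has `χ ≠ 0` (`van_ne`), so `χ = 1` (idempotent); compose `χ`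
with the extension by zero, which is then an algebra map. -/
theorem van_cover {ι : Type} [Finite ι] (O : ι → Set W) (hO : ∀ w, ∃ i, w ∈ O i)
    (h : ∀ i, (fun w : O i => g w) ∈ VAl ((fun s (w : O i) => s w) '' S)) : g ∈ VAl S := by
  classical
  intro K _ _ χ
  have := Fintype.ofFinite ι
  let x : ∀ i, (O i → ℂ) →ₗ[ℂ] W → ℂ := fun i =>
    { toFun := fun s w => if k : w ∈ O i then s ⟨w, k⟩ else 0
      map_add' := fun s t => funext fun w => by by_cases k : w ∈ O i <;> simp [k]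
      map_smul' := fun s t => funext fun w => by by_cases k : w ∈ O i <;> simp [k] }
  have hm : ∀ i s t, χ (x i (s * t)) = χ (x i s) * χ (x i t) := fun i s t => by
    rw [← map_mul]
    exact congrArg χ (funext fun w => by by_cases k : w ∈ O i <;> simp [x, k])
  obtain ⟨i, hi⟩ := van_ne χ (e := fun i => x i 1) fun w => (hO w).imp fun i k => by simp [x, k]
  have h1 : χ (x i 1) = 1 := mul_right_cancel₀ hi (by rw [← hm, one_mul, one_mul])
  have h2 : ∀ s : W → ℂ, χ (x i fun w => s w) = χ s := fun s => by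
    rw [← one_mul (χ s), ← h1, ← map_mul]
    exact congrArg χ (funext fun w => by by_cases k : w ∈ O i <;> simp [x, k])
  have k := h i K (AlgHom.ofLinearMap (χ.toLinearMap ∘ₗ x i) h1 (hm i))
  rw [image_image] at k
  have e : ∀ s : W → ℂ, AlgHom.ofLinearMap (χ.toLinearMap ∘ₗ x i) h1 (hm i)
    (fun w : O i => s w) = χ s := h2
  rwa [funext e, e] at k

end

end Pool.Agent.MP_1c689d_ag.K0

end

section

/-! Regular functions on the base curve. -/

set_option autoImplicit false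

open Complex Filter Topology Set MeasureTheory MvPolynomial
open scoped ComplexConjugate ContDiff ENNReal

namespace Pool.Agent.MP_1c689d_ag.K0

noncomputable section

variable {B : Type} [TopologicalSpace B] [Mf 1 B]

theorem vanCrv_poly {W : Type} (T : Subalgebra ℂ (W → ℂ)) {g : W → ℂ} (hg : g ∈ T)
    (q : Polynomial ℂ) : (fun w => q.eval (g w)) ∈ T := by
  have h := (Algebra.adjoin_le (S := T) (singleton_subset_iff.2 hg))
    (Polynomial.aeval_mem_adjoin_singleton ℂ g (p := q))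
  refine (congrArg (· ∈ T) (funext fun w => ?_)).mp h
  exact (Polynomial.aeval_fn_apply q g w).trans (congrFun (Polynomial.coe_aeval_eq_eval _) q)

theorem vanCrv_sum (p : Polynomial (Polynomial ℂ)) (x y : ℂ) : p.evalEval x y =
    ∑ i : Fin (p.natDegree + 1), (p.coeff i).eval x * y ^ (i : ℕ) := by
  rw [← Polynomial.eval₂_evalRingHom, Polynomial.eval₂_eq_sum_range, Finset.sum_range]
  rfl

theorem vanCrv_mem {W : Type} (T : Subalgebra ℂ (W → ℂ)) {g a : W → ℂ} (hg : g ∈ T) (ha : a ∈ T)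
    (p : Polynomial (Polynomial ℂ)) : (fun w => p.evalEval (g w) (a w)) ∈ T := by
  have h := T.sum_mem (t := Finset.univ) fun (i : Fin (p.natDegree + 1)) _ =>
    T.mul_mem (vanCrv_poly T hg (p.coeff i)) (T.pow_mem ha i)
  refine (congrArg (· ∈ T) (funext fun w => ?_)).mp h
  rw [vanCrv_sum, Finset.sum_apply]
  rfl

theorem vanCrv_conv (p : P 2) (x y : ℂ) :
    ((Polynomial.Bivariate.equivMvPolynomial ℂ).symm p).evalEval x y = eval ![x, y] p := by
  have h : (Polynomial.aevalAeval x y).comp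
      ((Polynomial.Bivariate.equivMvPolynomial ℂ).symm : P 2 →ₐ[ℂ] _) = aeval ![x, y] :=
    MvPolynomial.algHom_ext fun i => by fin_cases i <;> simp
  rw [← Polynomial.coe_aevalAeval_eq_evalEval, ← MvPolynomial.coe_aeval_eq_eval]
  exact DFunLike.congr_fun h p

theorem van_s_ne (D : Crv B) [Nonempty B] (c : ℂ) : D.s ≠ fun _ => c := by
  intro h
  refine D.ds (Classical.arbitrary B) ?_
  rw [h, dd_const, Pi.zero_apply]

/-- If `B` is empty take `p = 1`. Otherwise convert the relation `D.alg` to a polynomial in two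
variables and take a non-zero relation for which `natDegree p + ∑ i ∈ support, natDegree (coeff i)`
(or any similar measure) is minimal. If `p.map (evalRingHom s0) = 0` then `p = C (X - C s0) * p1`;
if `p.coeff 0 = 0` then `p = X * p1`; in both cases `D.dom` shows that `p1` is a relation too. -/
theorem van_crv_rel (D : Crv B) {a : B → ℂ} (ha : a ∈ D.A) :
    ∃ p : Polynomial (Polynomial ℂ), (∀ b, p.evalEval (D.s b) (a b) = 0) ∧
      (∀ s0 : ℂ, p.map (Polynomial.evalRingHom s0) ≠ 0) ∧ (a ≠ 0 → p.coeff 0 ≠ 0) := by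
  rcases isEmpty_or_nonempty B with hB | hB
  · exact ⟨1, fun b => hB.elim b, fun s0 => by simp, fun _ => by simp⟩
  obtain ⟨p₀, h1, h2⟩ := D.alg a ha
  obtain ⟨p, ⟨h3, h4⟩, h5⟩ := (wellFounded_dvdNotUnit (α := Polynomial (Polynomial ℂ))).has_min
    {p | p ≠ 0 ∧ ∀ b, p.evalEval (D.s b) (a b) = 0}
    ⟨(Polynomial.Bivariate.equivMvPolynomial ℂ).symm p₀, by simpa using h1,
      fun b => (vanCrv_conv _ _ _).trans (h2 b)⟩
  have h6 : ∀ u, u ∣ p → ¬IsUnit u → (fun b => u.evalEval (D.s b) (a b)) = 0 := by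
    rintro u ⟨q, rfl⟩ hu
    refine (D.dom _ (vanCrv_mem D.A D.s_mem ha u) _ (vanCrv_mem D.A D.s_mem ha q)
      (funext fun b => (Polynomial.evalEval_mul _ _ _ _).symm.trans (h4 b))).resolve_right
      fun h7 => h5 q ⟨right_ne_zero_of_mul h3, congrFun h7⟩
        ⟨right_ne_zero_of_mul h3, u, hu, mul_comm _ _⟩
  refine ⟨p, h4, fun s0 h7 => van_s_ne D s0 (funext fun b => ?_), fun h0 h7 => h0 ?_⟩
  · have h8 := congrFun (h6 (Polynomial.C (Polynomial.X - Polynomial.C s0))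
      ((Polynomial.C_dvd_iff_dvd_coeff _ _).2 fun i => Polynomial.dvd_iff_isRoot.2 (by
        simpa using congrArg (Polynomial.coeff · i) h7))
      fun h => Polynomial.not_isUnit_X_sub_C s0 (Polynomial.isUnit_C.1 h)) b
    simpa [Polynomial.evalEval_C, sub_eq_zero] using h8
  · simpa using h6 Polynomial.X (Polynomial.X_dvd_iff.2 h7) Polynomial.not_isUnit_X

/-- `van_root` with the coefficients `(p.coeff i).eval (D.s (β w))`. -/
theorem van_crv (D : Crv B) {W : Type} (β : W → B) {S : Set (W → ℂ)}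
    (hs : (fun w => D.s (β w)) ∈ VAl S) {a : B → ℂ} (ha : a ∈ D.A) :
    (fun w => a (β w)) ∈ VAl S := by
  obtain ⟨p, h1, h2, -⟩ := van_crv_rel D ha
  refine van_root (fun (i : Fin (p.natDegree + 1)) w => (p.coeff i).eval (D.s (β w)))
    (fun i => vanCrv_poly _ hs _) (fun w => ?_) fun w => (vanCrv_sum _ _ _).symm.trans (h1 _)
  obtain ⟨i, hi⟩ : ∃ i, (p.coeff i).eval (D.s (β w)) ≠ 0 := by
    by_contra h
    exact h2 (D.s (β w)) (Polynomial.ext fun i => by simpa using not_exists.1 h i)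
  exact ⟨⟨i, Nat.lt_succ_of_le (Polynomial.le_natDegree_of_ne_zero fun h => hi (by simp [h]))⟩,
    hi⟩

/-- `D.sep` and the relation for `w`. -/
theorem van_fib_fin (D : Crv B) (s0 : ℂ) : {b | D.s b = s0}.Finite := by
  obtain ⟨w, hw, h⟩ := D.sep
  obtain ⟨p, h1, h2, -⟩ := van_crv_rel D hw
  refine Finite.of_finite_image (f := w) ((Polynomial.finite_setOfPred_isRoot (h2 s0)).subset ?_)
    fun b hb b' hb' => h b b' (hb.trans hb'.symm)
  rintro _ ⟨b, rfl, rfl⟩
  exact (Polynomial.map_evalRingHom_eval _ _ _).trans (h1 b)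

theorem van_crv_fin (D : Crv B) {a : B → ℂ} (ha : a ∈ D.A) (h0 : a ≠ 0) :
    {b | a b = 0}.Finite := by
  obtain ⟨p, h1, -, h2⟩ := van_crv_rel D ha
  refine ((Polynomial.finite_setOfPred_isRoot (h2 h0)).biUnion fun s0 _ => van_fib_fin D s0).subset
    fun b hb => mem_biUnion (x := D.s b) ?_ rfl
  have h3 := h1 b
  rw [show a b = 0 from hb, Polynomial.evalEval, map_zero, ← Polynomial.coeff_zero_eq_eval_zero]
    at h3
  exact h3

theorem van_reg_const (D : Crv B) {m : ℕ} (q : P m) : D.Reg fun _ => q := by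
  exact fun a => D.A.algebraMap_mem (coeff a q)

theorem van_rat_A (D : Crv B) {W : Type} {m : ℕ} (β : W → B) (v : W → Fin m → ℂ) {a : B → ℂ}
    (ha : a ∈ D.A) : VRat D β v fun w => a (β w) := by
  refine ⟨1, fun _ => 0, fun _ b => C (a b), fun _ _ => 1, fun _ => ⟨fun i => ?_,
    van_reg_const D 1, fun b => ⟨isHomogeneous_C _ _, isHomogeneous_one _ _⟩⟩,
    fun w => ⟨0, by simp⟩⟩
  simp only [coeff_C]
  split_ifs
  · exact ha
  · exact D.A.zero_mem

theorem van_rat_x (D : Crv B) {W : Type} {m : ℕ} (β : W → B) (v : W → Fin m → ℂ) (a i : Fin m) :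
    VRat D β v (vr v a i) := by
  exact ⟨1, fun _ => 1, fun _ _ => X i, fun _ _ => X a, fun _ => ⟨van_reg_const D _,
    van_reg_const D _, fun b => ⟨isHomogeneous_X _ _, isHomogeneous_X _ _⟩⟩,
    fun w => ⟨0, by simp [vr]⟩⟩

end

end Pool.Agent.MP_1c689d_ag.K0

end

section

/-! Homogeneous ideals and determinants. -/

set_option autoImplicit false

open Complex Filter Topology Set MeasureTheory MvPolynomial
open scoped ComplexConjugate ContDiff ENNReal

namespace Pool.Agent.MP_1c689d_ag.K0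

noncomputable section

variable {m k : ℕ}

theorem vanNs_hc {g : P m} {i : ℕ} (hg : g.IsHomogeneous i) (K : ℤ) (f : P m) :
    AFB_hc m K (f * g) = AFB_hc m (K - i) f * g := by
  refine AFB_ind (p := fun f => AFB_hc m K (f * g) = AFB_hc m (K - i) f * g) (by simp)
    (fun f f' h h' => by rw [add_mul, map_add, map_add, add_mul, h, h']) (fun l f hf => ?_) f
  have h1 := mem_hz_nat.2 hf
  have h2 := hz_mul h1 (mem_hz_nat.2 hg)
  by_cases e : K = l + i
  · subst e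
    rw [AFB_hc_self h2, add_sub_cancel_right, AFB_hc_self h1]
  · rw [AFB_hc_ne e h2, AFB_hc_ne (fun e' => e (by omega)) h1, zero_mul]

/-- Take the components `AFB_hc m (K - e i)` of the coefficients. -/
theorem van_hcomb {ι : Type} [Fintype ι] {G : ι → P m} {e : ι → ℕ}
    (hG : ∀ i, (G i).IsHomogeneous (e i)) {M : P m} {K : ℕ} (hM : M.IsHomogeneous K)
    (h : M ∈ Ideal.span (range G)) :
    ∃ a : ι → P m, (∀ i, a i ∈ hz m ((K : ℤ) - e i)) ∧ M = ∑ i, a i * G i := by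
  obtain ⟨a, ha⟩ := Ideal.mem_span_range_iff_exists_fun.1 h
  refine ⟨fun i => AFB_hc m ((K : ℤ) - e i) (a i), fun i => AFB_hc_mem _ _, ?_⟩
  rw [← AFB_hc_self (mem_hz_nat.2 hM), ← ha, map_sum]
  exact Finset.sum_congr rfl fun i _ => vanNs_hc (hG i) K (a i)

/-- Nullstellensatz (`vanishingIdeal_zeroLocus_eq_radical`, compare `Cut_pow`): `X l ^ K0` lies in
the ideal; a monomial of degree more than `m * K0` is divisible by one of these powers. -/
theorem van_null {ι : Type} [Fintype ι] {G : ι → P m}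
    (h : ∀ v : Fin m → ℂ, (∀ i, eval v (G i) = 0) → v = 0) :
    ∃ K : ℕ, ∀ M : P m, M.IsHomogeneous (K + 1) → M ∈ Ideal.span (range G) := by
  have h1 : idealOfVars (Fin m) ℂ ≤ (Ideal.span (range G)).radical := by
    refine Ideal.span_le.2 ?_
    rintro _ ⟨l, rfl⟩
    rw [SetLike.mem_coe, ← vanishingIdeal_zeroLocus_eq_radical (K := ℂ), mem_vanishingIdeal_iff]
    intro v hv
    rw [mem_zeroLocus_iff] at hv
    rw [aeval_X, h v fun i => hv _ (Ideal.subset_span ⟨i, rfl⟩)]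
    rfl
  obtain ⟨K, hK⟩ := Ideal.exists_pow_le_of_le_radical_of_fg h1 (IsNoetherian.noetherian _)
  refine ⟨K, fun M hM => hK ((mem_pow_idealOfVars_iff K M).2 fun x hx => ?_)⟩
  have := hM (mem_support_iff.1 hx)
  rw [Finsupp.degree_eq_weight_one]
  exact le_of_le_of_eq K.le_succ this.symm

theorem van_det {B κ : Type} [Fintype κ] [DecidableEq κ] (A : Subalgebra ℂ (B → ℂ))
    (G : κ → κ → B → ℂ) (hG : ∀ i j, G i j ∈ A) :
    (fun b => (Matrix.of fun i j => G i j b).det) ∈ A := by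
  have e : (fun b => (Matrix.of fun i j => G i j b).det) = (Matrix.of G).det := by
    funext b
    exact ((Pi.evalRingHom (fun _ => ℂ) b).map_det (Matrix.of G)).symm
  rw [e, Matrix.det_apply']
  exact sum_mem fun σ _ => mul_mem (intCast_mem _ _) (prod_mem fun i _ => hG _ _)

/-- Cramer: the entries of the adjugate are determinants (`Matrix.adjugate_apply`). -/
theorem van_cramer {W κ : Type} [Fintype κ] [DecidableEq κ] {S : Set (W → ℂ)}
    (G : κ → κ → W → ℂ) (hG : ∀ i j, G i j ∈ VAl S)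
    (h0 : ∀ w, (Matrix.of fun i j => G i j w).det ≠ 0) :
    ∃ H : κ → κ → W → ℂ, (∀ i j, H i j ∈ VAl S) ∧ ∀ w (z r : κ → ℂ),
      (∀ i, ∑ j, G i j w * z j = r i) → ∀ j, z j = ∑ i, H j i w * r i := by
  refine ⟨fun i j w => (Matrix.of fun i j => G i j w)⁻¹ i j, fun i j => ?_, fun w z r h j => ?_⟩
  · have h1 := van_det (VAl S) (fun a b w => if a = j then (if b = i then 1 else 0) else G a b w)
      fun a b => by
        by_cases ha : a = j
        · simpa only [ha, if_true] using van_const _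
        · simpa only [ha, if_false] using hG a b
    have h2 := mul_mem (van_inv (van_det (VAl S) G hG)) h1
    refine (congrArg (· ∈ VAl S) (funext fun w => ?_)).mp h2
    simp only [Matrix.inv_def, Ring.inverse_eq_inv', Matrix.smul_apply, Matrix.adjugate_apply,
      smul_eq_mul, Pi.mul_apply]
    congr 2
    ext a b
    rw [Matrix.updateRow_apply, Matrix.of_apply, Matrix.of_apply, Pi.single_apply]
  · have e : (Matrix.of fun i j => G i j w).mulVec z = r := funext h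
    have := congrFun (congrArg (Matrix.of fun i j => G i j w)⁻¹.mulVec e) j
    rwa [Matrix.mulVec_mulVec, Matrix.nonsing_inv_mul _ (Ne.isUnit (h0 w)), Matrix.one_mulVec]
      at this

end

end Pool.Agent.MP_1c689d_ag.K0

end

section

/-! A generic form of the lemma of Nakayama. -/

set_option autoImplicit false

open Complex Filter Topology Set MeasureTheory MvPolynomial
open scoped ComplexConjugate ContDiff ENNReal

namespace Pool.Agent.MP_1c689d_ag.K0

noncomputable section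

variable {m k : ℕ}

/-- `van_null` and `van_hcomb` at `b1` write each monomial `M` of degree `K + 1` (index set
`PMP_S m (K + 1)`) as `∑ a M i * g i b1 + ∑ a' M j * l j`. Let `G M M' b` be the coefficient of `M'`
in `∑ a M i * g i b + ∑ a' M j * l j` (`coeff_mul`); `G b1 = 1`; `Δ = det G`. By `van_cramer` the
values of the monomials of degree `K + 1` are combinations of the values of the monomials of degree
`K` (`a' M j` has degree `K`), so the latter are stable under multiplication by `v w i`; they have no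
common zero as `v w ≠ 0`; `van_stable`. -/
theorem van_nk {B ι : Type} [Fintype ι] (A : Subalgebra ℂ (B → ℂ)) {g : ι → B → P m} {e : ι → ℕ}
    (hg : ∀ i b, (g i b).IsHomogeneous (e i)) (hA : ∀ i a, (fun b => coeff a (g i b)) ∈ A)
    {l : Fin k → P m} (hl : ∀ j, (l j).IsHomogeneous 1) {b1 : B}
    (h1 : ∀ v : Fin m → ℂ, (∀ i, eval v (g i b1) = 0) → (∀ j, eval v (l j) = 0) → v = 0) :
    ∃ Δ ∈ A, Δ b1 ≠ 0 ∧ ∀ (W : Type) (β : W → B) (v : W → Fin m → ℂ) (S : Set (W → ℂ)),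
      (∀ w, Δ (β w) ≠ 0) → (∀ w, v w ≠ 0) → (∀ w i, eval (v w) (g i (β w)) = 0) →
      (∀ a ∈ A, (fun w => a (β w)) ∈ VAl S) → (∀ j, (fun w => eval (v w) (l j)) ∈ VAl S) →
      ∀ i, (fun w => v w i) ∈ VAl S := by
  classical
  have hG : ∀ i, (Sum.elim (fun i => g i b1) l i).IsHomogeneous (Sum.elim e (fun _ => 1) i) := by
    rintro (i | j)
    exacts [hg i b1, hl j]
  obtain ⟨K, hK⟩ := van_null (G := Sum.elim (fun i => g i b1) l) fun v hv =>
    h1 v (fun i => hv (.inl i)) fun j => hv (.inr j)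
  choose a ha he using fun M : PMP_S m (K + 1) =>
    van_hcomb hG (PMP_hom M.2) (hK _ (PMP_hom M.2))
  have ha' : ∀ M j, (a M (.inr j)).IsHomogeneous K := fun M j => mem_hz_nat.1 (by
    simpa using ha M (.inr j))
  let F : PMP_S m (K + 1) → B → P m := fun M b =>
    ∑ i, a M (.inl i) * g i b + ∑ j, a M (.inr j) * l j
  have hF : ∀ M b, (F M b).IsHomogeneous (K + 1) := fun M b =>
    (IsHomogeneous.sum _ _ _ fun i _ => mem_hz_nat.1 (by
      simpa using hz_mul (ha M (.inl i)) (mem_hz_nat.2 (hg i b)))).add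
      (IsHomogeneous.sum _ _ _ fun j _ => (ha' M j).mul (hl j))
  have hFA : ∀ M M' : PMP_S m (K + 1), (fun b => coeff M'.1 (F M b)) ∈ A := fun M M' => by
    have : (fun b => coeff M'.1 (F M b)) = ∑ i, ∑ x ∈ Finset.HasAntidiagonal.antidiagonal M'.1,
        coeff x.1 (a M (.inl i)) • (fun b => coeff x.2 (g i b)) +
        algebraMap ℂ (B → ℂ) (coeff M'.1 (∑ j, a M (.inr j) * l j)) := by
      funext b
      simp only [F, coeff_add, coeff_sum, coeff_mul, Pi.add_apply,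
        Finset.sum_apply, Pi.smul_apply, smul_eq_mul, Pi.algebraMap_apply,
        Algebra.algebraMap_self, RingHom.id_apply]
    rw [this]
    exact add_mem (sum_mem fun i _ => sum_mem fun x _ => A.smul_mem (hA _ _) _)
      (A.algebraMap_mem _)
  refine ⟨_, van_det A _ hFA, ?_, fun W β v S hΔ hv h0 hS hlS i => ?_⟩
  · have : (Matrix.of fun M M' : PMP_S m (K + 1) => coeff M'.1 (F M b1)) = 1 := by
      ext M M'
      have e1 : F M b1 = monomial M.1 1 := by
        rw [he M, Fintype.sum_sum_type]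
        rfl
      rw [Matrix.of_apply, e1, coeff_monomial, Matrix.one_apply]
      exact if_congr Subtype.ext_iff.symm rfl rfl
    simp [this]
  obtain ⟨H, hH, hz⟩ := van_cramer (S := S)
    (fun (M M' : PMP_S m (K + 1)) w => coeff M'.1 (F M (β w))) (fun M M' => hS _ (hFA M M')) hΔ
  have hT : ∀ T : PMP_S m K, T.1 + Finsupp.single i 1 ∈ PMP_S m (K + 1) := fun T => by
    rw [PMP_mem, map_add, PMP_mem.1 T.2, Finsupp.degree_single]
  refine van_stable (fun (T : PMP_S m K) w => eval (v w) (monomial T.1 1))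
    (fun T T' => ∑ M, H ⟨_, hT T⟩ M * ∑ j, coeff T'.1 (a M (.inr j)) • fun w => eval (v w) (l j))
    (fun T T' => sum_mem fun M _ => mul_mem (hH _ _)
      (sum_mem fun j _ => (VAl S).smul_mem (hlS j) _)) (fun w => ?_) fun T w => ?_
  · obtain ⟨j, hj⟩ := Function.ne_iff.1 (hv w)
    refine ⟨⟨Finsupp.single j K, by rw [PMP_mem, Finsupp.degree_single]⟩, ?_⟩
    rw [← X_pow_eq_monomial, map_pow, eval_X]
    exact pow_ne_zero _ hj
  have e1 := hz w (fun M => eval (v w) (monomial M.1 1)) (fun M => eval (v w) (F M (β w)))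
    (fun M => by rw [PMP_eval (PMP_zero (hF M _)), ← Finset.sum_coe_sort (PMP_S _ _)]) ⟨_, hT T⟩
  have e2 : ∀ M, eval (v w) (F M (β w)) = ∑ j, (∑ T' : PMP_S m K, coeff T'.1 (a M (.inr j)) *
      eval (v w) (monomial T'.1 1)) * eval (v w) (l j) := fun M => by
    simp only [F, map_add, map_sum, map_mul, h0, mul_zero, Finset.sum_const_zero, zero_add]
    refine Finset.sum_congr rfl fun j _ => ?_
    rw [PMP_eval (PMP_zero (ha' M j)), ← Finset.sum_coe_sort]
  simp only [monomial_add_single, pow_one, map_mul, eval_X, e2] at e1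
  rw [mul_comm, e1]
  simp only [Finset.sum_apply, Pi.mul_apply, Pi.smul_apply, smul_eq_mul, Finset.sum_mul,
    Finset.mul_sum]
  rw [Finset.sum_comm (s := Finset.univ (α := PMP_S m K))]
  refine Finset.sum_congr rfl fun M _ => ?_
  rw [Finset.sum_comm]
  exact Finset.sum_congr rfl fun _ _ => Finset.sum_congr rfl fun _ _ => by ring

end

end Pool.Agent.MP_1c689d_ag.K0

end

section

/-! Cut-off functions of bounded energy. -/

set_option autoImplicit false

open Complex Filter Topology Set MeasureTheory MvPolynomial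
open scoped ComplexConjugate ContDiff ENNReal

namespace Pool.Agent.MP_1c689d_ag.K0

noncomputable section

/-- The energy of a function on the plane. -/
def VEn (ρ : ℂ → ℝ) : ℝ≥0∞ := ∫⁻ w, ‖fderiv ℝ ρ w‖ₑ ^ 2

theorem vanCut_meas (ρ : ℂ → ℝ) : Measurable fun w => ‖fderiv ℝ ρ w‖ₑ ^ 2 :=
  (measurable_fderiv ℝ ρ).enorm.pow_const 2

/-- The energy is invariant under scaling and translation (chain rule; `lintegral_sub_right_eq_self`,
`Measure.map_addHaar_smul` or `lintegral_image_eq_lintegral_abs_det_fderiv_mul`; the real dimension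
of `ℂ` is two). -/
theorem van_en_scale {ρ : ℂ → ℝ} (h : ContDiff ℝ ∞ ρ) {t : ℝ} (ht : t ≠ 0) (z : ℂ) :
    VEn (fun w => ρ (t • (w - z))) = VEn ρ := by
  have h1 : ∀ w, ‖fderiv ℝ (fun w => ρ (t • (w - z))) w‖ₑ ^ 2 =
      ‖t‖ₑ ^ 2 * ‖fderiv ℝ ρ (t • (w - z))‖ₑ ^ 2 := fun w => by
    rw [fderiv_comp_sub (f := fun w => ρ (t • w)), fderiv_comp_smul, enorm_smul, mul_pow]
  simp only [VEn, h1]
  rw [lintegral_const_mul' _ _ (by simp),
    lintegral_sub_right_eq_self (fun w => ‖fderiv ℝ ρ (t • w)‖ₑ ^ 2) z,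
    ← lintegral_map (vanCut_meas ρ) (measurable_const_smul t), Measure.map_addHaar_smul _ ht,
    lintegral_smul_measure, finrank_real_complex, smul_eq_mul, ← mul_assoc, ← ofReal_norm,
    ← ENNReal.ofReal_pow (norm_nonneg t), ← ENNReal.ofReal_mul (sq_nonneg _), Real.norm_eq_abs,
    sq_abs, abs_of_nonneg (inv_nonneg.2 (sq_nonneg t)), mul_inv_cancel₀ (pow_ne_zero 2 ht),
    ENNReal.ofReal_one, one_mul]

theorem van_en_fin {ρ : ℂ → ℝ} (h : ContDiff ℝ ∞ ρ) (hc : HasCompactSupport ρ) : VEn ρ ≠ ⊤ := by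
  have c1 : Continuous fun w => ‖fderiv ℝ ρ w‖ ^ 2 := (h.continuous_fderiv (by simp)).norm.pow 2
  have c2 : HasCompactSupport fun w => ‖fderiv ℝ ρ w‖ ^ 2 :=
    (hc.fderiv ℝ).mono fun w hw e => hw (by simp [e])
  have h2 := (c1.integrable_of_hasCompactSupport (μ := volume) c2).2.ne
  simpa only [VEn, enorm_pow, enorm_norm] using h2

theorem van_en_sub {ρ : ℂ → ℝ} : VEn (fun w => 1 - ρ w) = VEn ρ := by
  simp only [VEn, fderiv_const_sub, enorm_neg]

theorem van_en_mul {ρ τ : ℂ → ℝ} (h : ContDiff ℝ ∞ ρ) (h' : ContDiff ℝ ∞ τ)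
    (b : ∀ w, 0 ≤ ρ w ∧ ρ w ≤ 1) (b' : ∀ w, 0 ≤ τ w ∧ τ w ≤ 1) :
    VEn (fun w => ρ w * τ w) ≤ 2 * VEn ρ + 2 * VEn τ := by
  have h1 : ∀ w, ‖fderiv ℝ (fun w => ρ w * τ w) w‖ₑ ^ 2 ≤
      2 * ‖fderiv ℝ ρ w‖ₑ ^ 2 + 2 * ‖fderiv ℝ τ w‖ₑ ^ 2 := fun w => by
    have h2 : ‖fderiv ℝ (fun w => ρ w * τ w) w‖ ≤ ‖fderiv ℝ τ w‖ + ‖fderiv ℝ ρ w‖ := by
      rw [fderiv_fun_mul (h.differentiable (by simp) w) (h'.differentiable (by simp) w)]
      refine (norm_add_le _ _).trans (add_le_add ?_ ?_)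
      · rw [norm_smul, Real.norm_of_nonneg (b w).1]
        exact mul_le_of_le_one_left (norm_nonneg _) (b w).2
      · rw [norm_smul, Real.norm_of_nonneg (b' w).1]
        exact mul_le_of_le_one_left (norm_nonneg _) (b' w).2
    have h3 : ‖fderiv ℝ (fun w => ρ w * τ w) w‖ ^ 2 ≤
        2 * ‖fderiv ℝ ρ w‖ ^ 2 + 2 * ‖fderiv ℝ τ w‖ ^ 2 := by
      have := pow_le_pow_left₀ (norm_nonneg _) h2 2
      nlinarith [sq_nonneg (‖fderiv ℝ τ w‖ - ‖fderiv ℝ ρ w‖)]
    have h4 := ENNReal.ofReal_le_ofReal h3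
    rw [ENNReal.ofReal_add (by positivity) (by positivity), ENNReal.ofReal_mul zero_le_two,
      ENNReal.ofReal_mul zero_le_two] at h4
    simpa only [ENNReal.ofReal_pow (norm_nonneg _), ofReal_norm, ENNReal.ofReal_ofNat] using h4
  refine (lintegral_mono h1).trans_eq ?_
  rw [lintegral_add_left ((vanCut_meas ρ).const_mul 2), lintegral_const_mul _ (vanCut_meas ρ),
    lintegral_const_mul _ (vanCut_meas τ), VEn, VEn]

/-- Let `ρ0` be a `ContDiffBump (0 : ℂ)` with radii `1 < 2`. Induction on `Z`: start with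
`ρ0 ((n + 1)⁻¹ • w)` and multiply by `1 - ρ0 ((n + 1) • (w - z))`. -/
theorem van_cutoff (Z : Finset ℂ) : ∃ (ρ : ℕ → ℂ → ℝ) (C : ℝ≥0∞), C ≠ ⊤ ∧
    (∀ n, ContDiff ℝ ∞ (ρ n)) ∧ (∀ n, HasCompactSupport (ρ n)) ∧
    (∀ n, Disjoint (tsupport (ρ n)) Z) ∧ (∀ n w, 0 ≤ ρ n w ∧ ρ n w ≤ 1) ∧
    (∀ w ∉ Z, ∃ U ∈ 𝓝 w, ∀ᶠ n in atTop, ∀ w' ∈ U, ρ n w' = 1) ∧ ∀ n, VEn (ρ n) ≤ C := by
  classical
  let b : ContDiffBump (0 : ℂ) := ⟨1, 2, one_pos, one_lt_two⟩
  have hb : ContDiff ℝ ∞ b := b.contDiff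
  have hE := van_en_fin hb b.hasCompactSupport
  have hn : ∀ n : ℕ, (0 : ℝ) < n + 1 := fun n => Nat.cast_add_one_pos n
  have ht : Tendsto (fun n : ℕ => (n : ℝ) + 1) atTop atTop :=
    tendsto_atTop_add_const_right _ _ tendsto_natCast_atTop_atTop
  induction Z using Finset.induction_on with
  | empty =>
    refine ⟨fun n w => b (((n : ℝ) + 1)⁻¹ • w), VEn b, hE, fun n => hb.comp (by fun_prop),
      fun n => b.hasCompactSupport.comp_smul (inv_ne_zero (hn n).ne'), fun n => by simp,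
      fun n w => ⟨b.nonneg, b.le_one⟩, fun w _ => ⟨_, Metric.ball_mem_nhds w one_pos, ?_⟩,
      fun n => ?_⟩
    · filter_upwards [ht.eventually_ge_atTop (‖w‖ + 1)] with n h1 w' hw'
      refine b.one_of_mem_closedBall (mem_closedBall_zero_iff.2 ?_)
      rw [norm_smul, Real.norm_of_nonneg (inv_nonneg.2 (hn n).le)]
      exact inv_mul_le_one_of_le₀ ((norm_le_of_mem_closedBall
        (Metric.ball_subset_closedBall hw')).trans h1) (hn n).le
    · simpa only [sub_zero] using (van_en_scale hb (inv_ne_zero (hn n).ne') 0).le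
  | insert z Z _ ih =>
    obtain ⟨ρ, C, h1, h2, h3, h4, h5, h6, h7⟩ := ih
    have hs : ∀ n : ℕ, ContDiff ℝ ∞ fun w => 1 - b (((n : ℝ) + 1) • (w - z)) := fun n =>
      contDiff_const.sub (hb.comp (by fun_prop))
    have hb' : ∀ v, 0 ≤ 1 - b v ∧ 1 - b v ≤ 1 := fun v =>
      ⟨sub_nonneg.2 b.le_one, sub_le_self _ b.nonneg⟩
    refine ⟨fun n w => ρ n w * (1 - b (((n : ℝ) + 1) • (w - z))), 2 * C + 2 * VEn b,
      ENNReal.add_ne_top.2 ⟨ENNReal.mul_ne_top (by simp) h1, ENNReal.mul_ne_top (by simp) hE⟩,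
      fun n => (h2 n).mul (hs n), fun n => (h3 n).mul_right, fun n => ?_,
      fun n w => ⟨mul_nonneg (h5 n w).1 (hb' _).1, mul_le_one₀ (h5 n w).2 (hb' _).1 (hb' _).2⟩,
      fun w hw => ?_, fun n => ?_⟩
    · rw [Finset.coe_insert, disjoint_insert_right]
      refine ⟨notMem_tsupport_iff_eventuallyEq.2 ?_, (h4 n).mono_left tsupport_mul_subset_left⟩
      have h8 : Tendsto (fun w => ((n : ℝ) + 1) • (w - z)) (𝓝 z) (𝓝 0) :=
        Continuous.tendsto' (by fun_prop) _ _ (by simp)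
      filter_upwards [h8.eventually b.eventuallyEq_one] with w hw
      rw [hw, Pi.one_apply, sub_self, mul_zero, Pi.zero_apply]
    · rw [Finset.mem_insert, not_or] at hw
      obtain ⟨U, hU, h8⟩ := h6 w hw.2
      have hδ : 0 < ‖w - z‖ / 2 := half_pos (norm_sub_pos_iff.2 hw.1)
      refine ⟨U ∩ {w' | ‖w - z‖ / 2 < ‖w' - z‖}, inter_mem hU
        ((isOpen_lt continuous_const (by fun_prop)).mem_nhds
          (half_lt_self (norm_sub_pos_iff.2 hw.1))), ?_⟩
      filter_upwards [h8, (ht.atTop_mul_const hδ).eventually_ge_atTop 2] with n h9 h10 w' hw'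
      rw [h9 w' hw'.1, b.zero_of_le_dist, sub_zero, mul_one]
      rw [dist_zero_right, norm_smul, Real.norm_of_nonneg (hn n).le]
      exact h10.trans (mul_le_mul_of_nonneg_left (le_of_lt hw'.2) (hn n).le)
    · refine (van_en_mul (h2 n) (hs n) (h5 n) fun _ => hb' _).trans ?_
      rw [van_en_sub, van_en_scale hb (hn n).ne']
      gcongr
      exact h7 n

end

end Pool.Agent.MP_1c689d_ag.K0

end

section

/-! Cut-off functions on the base curve. -/

set_option autoImplicit false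

open Complex Filter Topology Set MeasureTheory MvPolynomial
open scoped ComplexConjugate ContDiff ENNReal

namespace Pool.Agent.MP_1c689d_ag.K0

noncomputable section

/-- `dd_comp_fn`, `dd_eq`, and the component of type `(0,1)` (`dd_of_hol`, `dp_Tp`, `dbar_Tp`,
`prj_of_mem`, `prj_of_ne`). -/
theorem van_dbar_comp {n : ℕ} {X : Type} [TopologicalSpace X] [Mf n X] {s : X → ℂ} {p : X}
    (hs : HolAt 1 s p) {u : ℂ → ℂ} (hu : ContDiff ℝ ∞ u) :
    dbar 1 (fn n (u ∘ s)) p =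
      ((fderiv ℝ u (s p) 1 + I * fderiv ℝ u (s p) I) / 2) • cj (dd (fn n s) p) := by
  have h1 := dd_comp_fn hs.smAt (hu.differentiable (by simp) (s p))
  have h2 : dd (fn n s) p ∈ Tp n 1 0 := by
    rw [dd_of_hol hs]
    exact (fn_Ty s).dp p
  have h4 : dp 1 (fn n (u ∘ s)) p ∈ Tp n 1 0 := (fn_Ty _).dp p
  have h5 : dbar 1 (fn n (u ∘ s)) p ∈ Tp n 0 1 := (fn_Ty _).dbar p
  have h6 : ((0, 1) : ℕ × ℕ) ≠ (1, 0) := by decide
  have h3 := congrArg (prj 0 1) h1
  rwa [dd_eq (fn n (u ∘ s)), Pi.add_apply, map_add, map_add, map_smul, map_smul, prj_of_ne h4 h6,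
    prj_of_mem h5, prj_of_ne h2 h6, prj_of_mem (cj_Tp h2), smul_zero, zero_add, zero_add] at h3

/-- Take `χ n = (fun w => (ρ n w : ℂ)) ∘ D.s` (compact support by `D.prop`; `SmAt.comp_fn`) and
`g n w = (fderiv ℝ (ρ n) w 1 + I * fderiv ℝ (ρ n) w I) / 2`, whose norm is at most the norm of
`fderiv ℝ (ρ n) w`. -/
theorem van_cutB {B : Type} [TopologicalSpace B] [Mf 1 B] (D : Crv B) :
    ∃ (χ : ℕ → B → ℂ) (g : ℕ → ℂ → ℂ) (C : ℝ≥0∞), C ≠ ⊤ ∧ (∀ n, Bump 1 (χ n)) ∧
      (∀ b, ∃ U ∈ 𝓝 b, ∀ᶠ n in atTop, ∀ y ∈ U, χ n y = 1) ∧ (∀ n, Measurable (g n)) ∧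
      (∀ n, ∫⁻ w, ‖g n w‖ₑ ^ 2 ≤ C) ∧ (∀ b, ∀ᶠ n in atTop, g n (D.s b) = 0) ∧
      ∀ n b, dbar 1 (fn 1 (χ n)) b = g n (D.s b) • cj (dd (fn 1 D.s) b) := by
  obtain ⟨Z, hZ, hp⟩ := D.prop
  obtain ⟨ρ, C, hC, h1, h2, h3, h4, h5, h6⟩ := van_cutoff Z
  have hu (n : ℕ) : ContDiff ℝ ∞ fun w => (ρ n w : ℂ) := ofRealCLM.contDiff.comp (h1 n)
  have hs (b : B) := D.hol _ D.s_mem b
  refine ⟨fun n => (fun w => (ρ n w : ℂ)) ∘ D.s, fun n w => (fderiv ℝ (fun w => (ρ n w : ℂ)) w 1 +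
    I * fderiv ℝ (fun w => (ρ n w : ℂ)) w I) / 2, C, hC, fun n => ⟨fun b _ => ?_, ?_,
    fun y => ⟨_, (h4 n _).1, (h4 n _).2, rfl⟩⟩, fun b => ?_, fun n => ?_,
    fun n => le_trans (lintegral_mono fun w => ?_) (h6 n), fun b => ?_,
    fun n b => van_dbar_comp (hs b) (hu n)⟩
  · exact (hs b).smAt.comp_fn (.of_forall fun w => (hu n).contDiffAt)
  · exact HasCompactSupport.intro (hp _ (h2 n) (h3 n)) fun b hb =>
      congrArg ofReal (image_eq_zero_of_notMem_tsupport (f := ρ n) hb)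
  · obtain ⟨U, hU, h⟩ := h5 _ (hZ b)
    exact ⟨D.s ⁻¹' U, (hs b).smAt.continuousAt hU, h.mono fun n hn y hy =>
      congrArg ofReal (hn _ hy)⟩
  · have := (hu n).continuous_fderiv (by simp)
    exact (((this.clm_apply continuous_const).add
      (continuous_const.mul (this.clm_apply continuous_const))).div_const 2).measurable
  · have e : fderiv ℝ (fun w => (ρ n w : ℂ)) w = ofRealCLM.comp (fderiv ℝ (ρ n) w) :=
      (ofRealCLM.hasFDerivAt.comp w ((h1 n).differentiable (by simp) w).hasFDerivAt).fderiv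
    have e1 (v : ℂ) (hv : ‖v‖ = 1) :
        ‖fderiv ℝ (fun w => (ρ n w : ℂ)) w v‖ ≤ ‖fderiv ℝ (ρ n) w‖ := by
      rw [e, ContinuousLinearMap.comp_apply, ofRealCLM_apply, norm_real]
      exact (fderiv ℝ (ρ n) w).unit_le_opNorm v hv.le
    refine pow_le_pow_left' (enorm_le_iff_norm_le.2 ?_) 2
    rw [norm_div, Complex.norm_two, div_le_iff₀ two_pos]
    refine (norm_add_le _ _).trans ?_
    rw [norm_mul, norm_I, one_mul, mul_two]
    exact add_le_add (e1 1 norm_one) (e1 I norm_I)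
  · obtain ⟨U, hU, h⟩ := h5 _ (hZ b)
    refine h.mono fun n hn => ?_
    have e : (fun w => (ρ n w : ℂ)) =ᶠ[𝓝 (D.s b)] fun _ => 1 :=
      mem_of_superset hU fun w hw => congrArg ofReal (hn w hw)
    simp [e.fderiv_eq]

end

end Pool.Agent.MP_1c689d_ag.K0

end

section

/-! Harmonic functions on a parabolic curve. -/

set_option autoImplicit false

open Complex Filter Topology Set MeasureTheory MvPolynomial
open scoped ComplexConjugate ContDiff ENNReal

namespace Pool.Agent.MP_1c689d_ag.K0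

noncomputable section

/-- For instance `u w = (1 + exp (-w))⁻¹`. -/
theorem van_sigm : ∃ u u' : ℂ → ℂ, ∀ t : ℝ, (∀ᶠ w in 𝓝 (t : ℂ), HasDerivAt u (u' w) w) ∧
    (∀ᶠ w in 𝓝 (t : ℂ), ContDiffAt ℝ ∞ u w ∧ ContDiffAt ℝ ∞ u' w) ∧ ‖u t‖ ≤ 1 ∧
    ∃ c : ℝ, 0 < c ∧ u' t = c := by
  refine ⟨fun w => (1 + exp (-w))⁻¹, fun w => exp (-w) / (1 + exp (-w)) ^ 2, fun t => ?_⟩
  have e : 1 + exp (-(t : ℂ)) = ((1 + Real.exp (-t) : ℝ) : ℂ) := by push_cast; rfl
  have hp : 0 < Real.exp (-t) := Real.exp_pos _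
  have h0 : 1 + exp (-(t : ℂ)) ≠ 0 := by
    rw [e]
    exact ofReal_ne_zero.2 (by positivity)
  have hc : ContDiff ℝ ∞ fun w : ℂ => exp (-w) := contDiff_exp.comp contDiff_neg
  have h1 : ∀ᶠ w in 𝓝 (t : ℂ), 1 + exp (-w) ≠ 0 :=
    (continuous_const.add hc.continuous).continuousAt.eventually_ne h0
  refine ⟨h1.mono fun w hw => ?_, h1.mono fun w hw => ⟨(contDiffAt_const.add hc.contDiffAt).inv hw,
    ?_⟩, ?_, Real.exp (-t) / (1 + Real.exp (-t)) ^ 2, by positivity, by push_cast; rfl⟩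
  · exact ((((hasDerivAt_neg w).cexp).const_add 1).inv hw).congr_deriv (by simp)
  · simp only [div_eq_mul_inv]
    exact hc.contDiffAt.mul (((contDiffAt_const.add hc.contDiffAt).pow 2).inv (pow_ne_zero 2 hw))
  · beta_reduce
    rw [e, norm_inv, norm_real, Real.norm_of_nonneg (by positivity)]
    exact inv_le_one_of_one_le₀ (by linarith)

variable {B : Type} [TopologicalSpace B] [Mf 1 B] {h : B → ℂ}

/-- `dd_comp_fn`, `dd_eq` and the component of type `(0,1)`. -/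
theorem van_dbar_hol {n : ℕ} {X : Type} [TopologicalSpace X] [Mf n X] {s : X → ℂ} {p : X}
    (hs : SmAt 1 (fn n s) p) {u : ℂ → ℂ} {c : ℂ} (hu : HasDerivAt u c (s p))
    (hu' : ∀ᶠ w in 𝓝 (s p), ContDiffAt ℝ ∞ u w) :
    dbar 1 (fn n (u ∘ s)) p = c • dbar 1 (fn n s) p := by
  have h1 := dd_comp_fn hs (hu.differentiableAt.restrictScalars ℝ)
  have h2 : ∀ v, fderiv ℝ u (s p) v = c * v := fun v => by
    rw [(hu.hasFDerivAt.restrictScalars ℝ).fderiv]
    simp [mul_comm]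
  have h3 : ∀ t : X → ℂ, prj 0 1 (dd (fn n t) p) = dbar 1 (fn n t) p := fun t => by
    rw [dd_eq, Pi.add_apply, map_add, prj_of_ne ((fn_Ty t).dp p) (by decide),
      prj_of_mem ((fn_Ty t).dbar p), zero_add]
  rw [h2, h2, show (c * 1 - I * (c * I)) / 2 = c by linear_combination (-c / 2) * I_mul_I,
    show (c * 1 + I * (c * I)) / 2 = 0 by linear_combination (c / 2) * I_mul_I, zero_smul,
    add_zero] at h1
  rw [← h3, h1, map_smul, h3]

/-- `dbar h = cj (dp h)` (`dbar_cf`, `cf_fn`), `sq_one`, and `pos_n0'` with `n = 1`. -/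
theorem van_pos (hr : ∀ b, conj (h b) = h b) (b : B) : ∃ t : ℝ, 0 ≤ t ∧
    I * top (dd (fn 1 h) b * dbar 1 (fn 1 h) b) = t ∧ (t = 0 → dp 1 (fn 1 h) b = 0) := by
  have e : dbar 1 (fn 1 h) b = cj (dp 1 (fn 1 h) b) := by
    have := congrFun (dbar_cf (G := 1) (α := fn 1 h)) b
    rwa [inv_one, cf_fn, funext hr] at this
  have t1 : dp 1 (fn 1 h) b ∈ Tp 1 1 0 := (fn_Ty h).dp b
  have t2 : dbar 1 (fn 1 h) b ∈ Dg 1 1 := Tp_le_Dg (p := 0) (q := 1) ((fn_Ty h).dbar b)
  rw [dd_eq, Pi.add_apply, add_mul, sq_one t2, add_zero, e]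
  by_cases h0 : dp 1 (fn 1 h) b = 0
  · exact ⟨0, le_rfl, by simp [h0], fun _ => h0⟩
  · obtain ⟨t, ht, e'⟩ := pos_n0' t1 h0
    exact ⟨t, ht.le, by simpa using e', fun h => absurd h ht.ne'⟩

variable [MeasurableSpace B] [BorelSpace B]

/-- Test with `φ = χ n * (u ∘ h)`: `dbar φ = (χ n * u' ∘ h) • dbar h + (u ∘ h) • dbar (χ n)`
(`dbar_mul'` or `MF3b_bmul`). So the integrals of the forms
`χ n • A`, `A = (I * u' ∘ h) • (dd h * dbar h)`, tend to zero, and `top A ≥ 0`. Take a bump `ρ` with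
`ρ b = 1` and support in `U` (`exists_cutoff`): `0 ≤ itg (ρ • A) ≤ itg (χ n • A)` for large `n`
(`itg_re_mono`, `itg_nonneg`); `top_zero_of_itg`. -/
theorem van_curve (hh : Sm 1 (fn 1 h) univ) (hr : ∀ b, conj (h b) = h b)
    (h0 : ∀ φ, Tst φ → itg (dd (fn 1 h) * dbar 1 (fn 1 φ)) = 0) {χ : ℕ → B → ℂ}
    (hχ : ∀ n, Bump 1 (χ n)) (h1 : ∀ b, ∃ U ∈ 𝓝 b, ∀ᶠ n in atTop, ∀ y ∈ U, χ n y = 1)
    (hd : ∀ ψ : B → ℂ, Sm 1 (fn 1 ψ) univ → (∀ b, ‖ψ b‖ ≤ 1) →
      Tendsto (fun n => itg (dd (fn 1 h) * (ψ • dbar 1 (fn 1 (χ n))))) atTop (𝓝 0)) (b : B) :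
    dp 1 (fn 1 h) b = 0 := by
  obtain ⟨u, u', hu⟩ := van_sigm
  have re : ∀ y, h y = ((h y).re : ℂ) := fun y => (conj_eq_iff_re.1 (hr y)).symm
  have su : ∀ y, SmAt 1 (fn 1 (u ∘ h)) y := fun y => (hh y trivial).comp_fn (by
    rw [re y]; exact (hu _).2.1.mono fun _ a => a.1)
  have su' : ∀ y, SmAt 1 (fn 1 (u' ∘ h)) y := fun y => (hh y trivial).comp_fn (by
    rw [re y]; exact (hu _).2.1.mono fun _ a => a.2)
  have sd : ∀ y, SmAt 1 (dd (fn 1 h)) y := fun y => (hh y trivial).dd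
  set A : Fm 1 B := I • ((u' ∘ h) • (dd (fn 1 h) * dbar 1 (fn 1 h))) with hA
  have sA : ∀ y, SmAt 1 A y := fun y =>
    ((su' y).fsmul_one ((sd y).mul_left ((hh y trivial).dbar gok_one))).smul I
  have pA : ∀ y, ∃ t : ℝ, 0 ≤ t ∧ top (A y) = t ∧ (t = 0 → dp 1 (fn 1 h) y = 0) := fun y => by
    obtain ⟨t, t0, t1, t2⟩ := van_pos hr y
    obtain ⟨c, c0, c1⟩ := (hu (h y).re).2.2.2
    rw [← re y] at c1
    refine ⟨c * t, by positivity, ?_, fun e => t2 ((mul_eq_zero.1 e).resolve_left c0.ne')⟩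
    simp only [hA, Pi.smul_apply, Pi.smul_apply', Pi.mul_apply, map_smul, smul_eq_mul,
      Function.comp_apply, c1]
    push_cast
    rw [← t1]
    ring
  have iA : ∀ ρ, Bump 1 ρ → Intg (ρ • A) := fun ρ hρ =>
    intg_of_sm (fun y _ => (hρ.sm y trivial).fsmul_one (sA y)) (hρ.cs.mono fun y hy e =>
      hy (by rw [Pi.smul_apply', e, zero_smul]))
  have lim : Tendsto (fun n => itg (χ n • A)) atTop (𝓝 0) := by
    have h2 := (hd (u ∘ h) (fun y _ => su y) fun y => by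
      rw [Function.comp_apply, re y]; exact (hu _).2.2.1).const_mul (-I)
    rw [mul_zero] at h2
    refine h2.congr fun n => ?_
    have s1 : ∀ y, SmAt 1 (fn 1 (χ n) * fn 1 (u ∘ h)) y :=
      fun y => ((hχ n).sm y trivial).mul_left (su y)
    have e0 : fn 1 (χ n * (u ∘ h)) = fn 1 (χ n) * fn 1 (u ∘ h) := funext fun y => map_mul _ _ _
    have h3 := h0 (χ n * (u ∘ h)) ⟨fun y _ => e0 ▸ s1 y, (hχ n).cs.mul_right⟩
    have e1 : I • (dd (fn 1 h) * dbar 1 (fn 1 (χ n * (u ∘ h)))) =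
        I • (dd (fn 1 h) * ((u ∘ h) • dbar 1 (fn 1 (χ n)))) + χ n • A := by
      funext y
      have d1 : dbar 1 (fn 1 (u ∘ h)) y = u' (h y) • dbar 1 (fn 1 h) y :=
        van_dbar_hol (hh y trivial) (by rw [re y]; exact (hu _).1.self_of_nhds)
          (by rw [re y]; exact (hu _).2.1.mono fun _ a => a.1)
      simp only [hA, Pi.smul_apply, Pi.smul_apply', Pi.mul_apply, Pi.add_apply,
        Function.comp_apply]
      rw [e0, MF3b_bmul ((hχ n).sm y trivial) (su y), d1]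
      simp only [fn, PMPa_gi, PMPa_mul, mul_add, mul_smul_comm, smul_add, Function.comp_apply]
      rw [smul_comm (χ n y) I, smul_comm (χ n y)]
    have i1 : Intg (I • (dd (fn 1 h) * ((u ∘ h) • dbar 1 (fn 1 (χ n))))) := by
      refine (intg_of_sm (fun y _ => (sd y).mul_left ((su y).fsmul_one
        (((hχ n).sm y trivial).dbar gok_one))) ?_).smul I
      refine HasCompactSupport.intro (hχ n).cs fun y hy => ?_
      have : dbar 1 (fn 1 (χ n)) y = 0 := by
        rw [dbar_congr (β := 0), dbar_zero, Pi.zero_apply]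
        filter_upwards [notMem_tsupport_iff_eventuallyEq.1 hy] with z hz
        simp [fn, hz]
      simp [this]
    have h4 := congrArg itg e1
    rw [itg_add i1 (iA _ (hχ n)), itg_smul, itg_smul, h3] at h4
    linear_combination h4
  obtain ⟨U, hU, hU1⟩ := h1 b
  obtain ⟨ρ, r1, r2, r3⟩ := exists_cutoff (n := 1) (isCompact_singleton (x := b)) isOpen_interior
    (singleton_subset_iff.2 (mem_interior_iff_mem_nhds.2 hU))
  have pos : ∀ y, ∃ t : ℝ, 0 ≤ t ∧ top ((ρ • A) y) = t := fun y => by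
    obtain ⟨t, t0, t1, -⟩ := pA y
    obtain ⟨c, c0, -, c1⟩ := r1.mem y
    exact ⟨c * t, by positivity, by rw [Pi.smul_apply', map_smul, t1, c1, smul_eq_mul, ofReal_mul]⟩
  obtain ⟨t, t0, t1⟩ := itg_nonneg pos
  have le : t ≤ 0 := by
    refine ge_of_tendsto ((continuous_re.tendsto 0).comp lim) (hU1.mono fun n hn => ?_)
    have := itg_re_mono (iA _ r1) (iA _ (hχ n)) fun y => ?_
    · rwa [t1] at this
    obtain ⟨t, t0, t1, -⟩ := pA y
    obtain ⟨c, c0, c1, c2⟩ := r1.mem y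
    obtain ⟨d, d0, -, d2⟩ := (hχ n).mem y
    simp only [Pi.smul_apply', map_smul, t1, c2, d2, smul_eq_mul, ← ofReal_mul, ofReal_re]
    refine mul_le_mul_of_nonneg_right ?_ t0
    by_cases hy : y ∈ U
    · rw [hn y hy] at d2
      exact (ofReal_eq_one.1 d2.symm) ▸ c1
    · rw [image_eq_zero_of_notMem_tsupport fun a => hy (interior_subset (r2 a))] at c2
      exact (ofReal_eq_zero.1 c2.symm) ▸ d0
  have z := top_zero_of_itg (fun y _ => (r1.sm y trivial).fsmul_one (sA y)) (iA _ r1) pos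
    (by rw [t1, le_antisymm le t0, ofReal_zero]) b
  obtain ⟨t, -, t1, t2⟩ := pA b
  rw [Pi.smul_apply', r3.self_of_nhdsSet b rfl, one_smul, t1] at z
  exact t2 (ofReal_eq_zero.1 z)

end

end Pool.Agent.MP_1c689d_ag.K0

end

section

/-! Fibre integration: the model statement. -/

set_option autoImplicit false

open Complex Filter Topology Set MeasureTheory MvPolynomial
open scoped ComplexConjugate ContDiff ENNReal

namespace Pool.Agent.MP_1c689d_ag.K0

noncomputable section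

theorem vanFi0_fub {F : E 3 → ℂ} (h : Integrable F) :
    ∫ z, F z = ∫ w : E 1, ∫ u : E 2, F (Fin.cons (w 0) u) := by
  have e : (fun p : ℂ × E 2 => (Fin.cons p.1 p.2 : E 3)) =
      (MeasurableEquiv.piFinSuccAbove (fun _ : Fin 3 => ℂ) 0).symm := by
    funext p
    exact (Fin.insertNth_zero' p.1 p.2).symm
  have h1 : MeasurePreserving (fun p : ℂ × E 2 => (Fin.cons p.1 p.2 : E 3))
      (volume.prod volume) volume := by
    rw [e]
    exact (volume_preserving_piFinSuccAbove (fun _ : Fin 3 => ℂ) 0).symm _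
  have h2 : MeasurableEmbedding fun p : ℂ × E 2 => (Fin.cons p.1 p.2 : E 3) := by
    rw [e]
    exact MeasurableEquiv.measurableEmbedding _
  rw [← h1.integral_comp h2]
  refine (integral_prod _ ((h1.integrable_comp_emb h2).2 h)).trans ?_
  exact ((volume_preserving_funUnique (Fin 1) ℂ).integral_comp'
    fun t => ∫ u : E 2, F (Fin.cons t u)).symm

/-- `G w = ∫ u : E 2, g (Fin.cons (w 0) u)`. It is smooth by
`contDiffOn_convolution_right_with_param` (convolution of `1` with `fun u => g (cons (w 0) (-u))`,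
evaluated at `0`), or by differentiation under the integral sign. Fubini with the measure
preserving map `MeasurableEquiv.piFinSuccAbove (fun _ => ℂ) 0` (`volume_preserving_piFinSuccAbove`,
`volume_preserving_funUnique`). -/
theorem van_fi_model {g : E 3 → ℂ} (hg : ContDiff ℝ ∞ g) (hc : HasCompactSupport g) :
    ∃ G : E 1 → ℂ, ContDiff ℝ ∞ G ∧ (∀ w, G w ≠ 0 → ∃ z, g z ≠ 0 ∧ (fun _ => z 0) = w) ∧
      ∀ φ : E 1 → ℂ, Integrable (fun z : E 3 => φ (fun _ => z 0) * g z) →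
        ∫ z : E 3, φ (fun _ => z 0) * g z = ∫ w, φ w * G w := by
  refine ⟨fun w => ∫ u : E 2, g (Fin.cons (w 0) u), ?_, fun w hw => ?_, fun φ hφ => ?_⟩
  · have hk : IsCompact ((fun z : E 3 => (fun i => -z i.succ : E 2)) '' tsupport g) :=
      IsCompact.image hc (by fun_prop)
    have h1 : ContDiff ℝ ∞ fun q : E 1 × E 2 => (Fin.cons (q.1 0) (-q.2) : E 3) := by
      refine contDiff_pi.2 fun i => Fin.cases ?_ (fun j => ?_) i
      · simp only [Fin.cons_zero]
        fun_prop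
      · simp only [Fin.cons_succ, Pi.neg_apply]
        fun_prop
    have := contDiffOn_convolution_right_with_param_comp (μ := volume) (n := ⊤)
      (ContinuousLinearMap.lsmul ℝ ℝ) (s := (univ : Set (E 1))) (v := fun _ => (0 : E 2))
      contDiffOn_const (f := fun _ => (1 : ℝ)) (g := fun w u => g (Fin.cons (w 0) (-u)))
      isOpen_univ hk (fun w u _ hu => image_eq_zero_of_notMem_tsupport fun h =>
        hu ⟨_, h, funext fun i => by simp⟩) (locallyIntegrable_const 1) (hg.comp h1).contDiffOn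
    rw [contDiffOn_univ] at this
    simpa [convolution_def] using this
  · by_contra hn
    refine hw (integral_eq_zero_of_ae (Eventually.of_forall fun u => ?_))
    by_contra h0
    exact hn ⟨_, h0, FUB_one w⟩
  · rw [vanFi0_fub hφ]
    refine integral_congr_ae (Eventually.of_forall fun w => ?_)
    simp only [Fin.cons_zero, FUB_one]
    exact integral_const_mul _ _

end

end Pool.Agent.MP_1c689d_ag.K0

end

section

/-! Fibre integration: the local statement. -/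

set_option autoImplicit false

open Complex Filter Topology Set MeasureTheory MvPolynomial
open scoped ComplexConjugate ContDiff ENNReal

namespace Pool.Agent.MP_1c689d_ag.K0

noncomputable section

variable {B T : Type} [TopologicalSpace B] [Mf 1 B] [TopologicalSpace T] [Mf 3 T] {p : T → B}
  {e : OpenPartialHomeomorph T (E 3)} {v : OpenPartialHomeomorph B (E 1)}

/-- Near `z` the map `p ∘ e.symm` is `v.symm ∘ PRD_p 2` (`pb_comp`, `pb_congr`, `df_E`); a form of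
degree two on `E 1` is a multiple of `vol 1` (`Dg_top`, `eq_top_smul`). -/
theorem van_fi_top (hp : ∀ y, HMap p y) (he : IsCh e) (hv : IsCh v)
    (hs : ∀ y ∈ e.source, p y ∈ v.source ∧ v (p y) = fun _ => e y 0) (γ : Fm 3 T) {θ : Fm 1 B}
    (hθ : Dgr 2 θ) {z : E 3} (hz : z ∈ e.target) :
    top (pb e.symm (γ * pb p θ) z) =
      top (pb v.symm θ fun _ => z 0) * top (pb e.symm γ z * lm (PRD_p 2) (vol 1)) := by
  have h1 : ∀ w ∈ e.target, PRD_p 2 w ∈ v.target ∧ p (e.symm w) = v.symm (PRD_p 2 w) := by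
    intro w hw
    obtain ⟨a, b⟩ := hs _ (e.map_target hw)
    rw [e.right_inv hw] at b
    change v (p (e.symm w)) = PRD_p 2 w at b
    rw [← b]
    exact ⟨v.map_source a, (v.left_inv a).symm⟩
  have h2 : p ∘ e.symm =ᶠ[𝓝 z] v.symm ∘ PRD_p 2 := by
    filter_upwards [e.open_target.mem_nhds hz] with w hw
    exact (h1 w hw).2
  have h3 : HMap (PRD_p 2) z := hmap_E.2 (Eventually.of_forall fun w => by
    change DifferentiableAt ℂ (fun (w : E 3) (_ : Fin 1) => w 0) w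
    fun_prop)
  have h4 : pb v.symm θ (PRD_p 2 z) ∈ Tp 1 1 1 := Dg_top (n := 1) ▸ pb_Dg (hθ _)
  have h5 : pb e.symm (pb p θ) z = lm (PRD_p 2) (pb v.symm θ (PRD_p 2 z)) := by
    rw [pb_comp (hp _) (he.2 z hz), pb_congr h2 rfl, ← pb_comp (hv.2 _ (h1 z hz).1) h3, pb, df_E,
      ContinuousLinearMap.fderiv]
  rw [pb_mul, Pi.mul_apply, h5, eq_top_smul h4, map_smul, mul_smul_comm, map_smul]
  rfl

variable [MeasurableSpace B] [BorelSpace B] [MeasurableSpace T] [BorelSpace T]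

/-- Extend `pb e.symm γ` by zero to `Γ` (`INT2_ext`; it vanishes off the compact set
`L = e '' tsupport γ`), let `g z = top (Γ z * lm (PRD_p 2) (vol 1))` and
`h = v.source.indicator (G ∘ v)`; `h` vanishes off the compact set `p '' tsupport γ ⊆ v.source`.
`itg_chart` on both sides, with `φ = v.target.indicator fun w => top (pb v.symm θ w)`;
integrability from `integrableOn_chart` and `intg_of_sm`. -/
theorem van_fi_loc (hp : ∀ y, HMap p y) (he : IsCh e) (hv : IsCh v)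
    (hs : ∀ y ∈ e.source, p y ∈ v.source ∧ v (p y) = fun _ => e y 0) {γ : Fm 3 T}
    (hγ : Sm 1 γ univ) (hc : HasCompactSupport γ) (hsupp : tsupport γ ⊆ e.source) :
    ∃ h, VFi p γ h univ := by
  classical
  obtain ⟨Γ, c1, c2, c3, c4⟩ := INT2_ext he hγ hc hsupp
  obtain ⟨G, g1, g2, g3⟩ := van_fi_model (g := fun z => top (Γ z * lm (PRD_p 2) (vol 1)))
    (contDiff_iff_contDiffAt.2 fun z => MF2_top (c1.mul contDiff_const).contDiffAt)
    (c2.comp_left (g := fun a => top (a * lm (PRD_p 2) (vol 1))) (by rw [zero_mul, map_zero]))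
  have z0 : ∀ z ∉ e.target, top (Γ z * lm (PRD_p 2) (vol 1)) = 0 := fun z hz => by
    rw [(c4 z hz).self_of_nhds, Pi.zero_apply, zero_mul, map_zero]
  have hG : ∀ w, G w ≠ 0 → ∃ y ∈ tsupport γ, v (p y) = w := fun w hw => by
    obtain ⟨z, h1, rfl⟩ := g2 w hw
    have hz : z ∈ e.target := by_contra fun h => h1 (z0 z h)
    refine ⟨e.symm z, by_contra fun h => h1 ?_, ?_⟩
    · rw [(c3 z hz).self_of_nhds, pb, image_eq_zero_of_notMem_tsupport h, map_zero, zero_mul,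
        map_zero]
    · rw [(hs _ (e.map_target hz)).2, e.right_inv hz]
  have hL : IsCompact (p '' tsupport γ) :=
    IsCompact.image hc (continuous_iff_continuousAt.2 fun y => (hp y).continuousAt)
  have hv1 : ∀ w ∈ v.target, v.source.indicator (G ∘ v) (v.symm w) = G w := fun w hw => by
    rw [indicator_of_mem (v.map_target hw), Function.comp_apply, v.right_inv hw]
  refine ⟨v.source.indicator (G ∘ v), fun b _ => ?_, fun θ t1 t2 _ _ => ?_⟩
  · by_cases hb : b ∈ v.source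
    · refine (smAt_fn_chart hv hb).2 ?_
      filter_upwards [v.open_target.mem_nhds (v.map_source hb)] with w hw
      refine g1.contDiffAt.congr_of_eventuallyEq ?_
      filter_upwards [v.open_target.mem_nhds hw] with w' hw'
      exact hv1 w' hw'
    · have h1 : b ∈ (p '' tsupport γ)ᶜ := by
        rintro ⟨y, hy, rfl⟩
        exact hb (hs y (hsupp hy)).1
      refine smAt_of_eventually_zero ?_
      filter_upwards [hL.isClosed.isOpen_compl.mem_nhds h1] with b' hb'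
      have h2 : v.source.indicator (G ∘ v) b' = 0 := by
        refine indicator_apply_eq_zero.2 fun h => by_contra fun h0 => ?_
        obtain ⟨y, hy, h3⟩ := hG _ h0
        exact hb' ⟨y, hy, v.injOn (hs y (hsupp hy)).1 h h3⟩
      rw [fn, h2, map_zero]
  · have e1 : EqOn (fun z => top (pb e.symm (γ * pb p θ) z)) (fun z : E 3 =>
        top (pb v.symm θ fun _ => z 0) * top (Γ z * lm (PRD_p 2) (vol 1))) e.target :=
      fun z hz => by
        beta_reduce
        rw [van_fi_top hp he hv hs γ t2 hz, (c3 z hz).self_of_nhds]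
    have e2 : ∀ z ∉ e.target,
        top (pb v.symm θ fun _ => z 0) * top (Γ z * lm (PRD_p 2) (vol 1)) = 0 := fun z hz => by
      rw [z0 z hz, mul_zero]
    have i1 : Intg (γ * pb p θ) := intg_of_sm (fun y hy => (hγ y hy).mul_left
      (MF2b_pb (hp y) (t1 _ (mem_univ _)))) hc.mul_right
    have i2 := (integrableOn_chart he e.open_source.measurableSet Subset.rfl _).1 i1.integrableOn
    rw [e.image_source_eq_target] at i2
    have i3 := (i2.congr_fun e1 e.open_target.measurableSet).integrable_of_forall_notMem_eq_zero e2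
    rw [itg_chart he fun y hy => ?_, itg_chart hv fun b hb => ?_,
      setIntegral_congr_fun e.open_target.measurableSet e1,
      setIntegral_eq_integral_of_forall_compl_eq_zero e2,
      g3 (fun w => top (pb v.symm θ w)) i3,
      ← setIntegral_eq_integral_of_forall_compl_eq_zero (s := v.target) fun w hw => ?_]
    · refine setIntegral_congr_fun v.open_target.measurableSet fun w hw => ?_
      rw [pb_fsmul, Pi.smul_apply', Function.comp_apply, hv1 w hw, map_smul, smul_eq_mul, mul_comm]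
    · refine mul_eq_zero_of_right _ (by_contra fun h0 => hw ?_)
      obtain ⟨y, hy, rfl⟩ := hG _ h0
      exact v.map_source (hs y (hsupp hy)).1
    · rw [Pi.smul_apply', indicator_of_notMem hb, zero_smul]
    · rw [Pi.mul_apply, image_eq_zero_of_notMem_tsupport fun h => hy (hsupp h), zero_mul]

end

end Pool.Agent.MP_1c689d_ag.K0

end

section

/-! Fibre integration along a proper submersion. -/

set_option autoImplicit false

open Complex Filter Topology Set MeasureTheory MvPolynomial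
open scoped ComplexConjugate ContDiff ENNReal

namespace Pool.Agent.MP_1c689d_ag.K0

noncomputable section

variable {B T : Type} [TopologicalSpace B] [Mf 1 B] [TopologicalSpace T] [Mf 3 T] {p : T → B}
  {s : B → ℂ} {γ : Fm 3 T}

theorem vanFi2_intg [MeasurableSpace B] [BorelSpace B] {h : B → ℂ} {θ : Fm 1 B}
    (hh : Sm 1 (fn 1 h) univ) (hθ : Sm 1 θ univ) (hc : HasCompactSupport θ) : Intg (h • θ) :=
  INT2_intg hc (subset_univ _) (fun y hy => (hh y hy).fsmul_one (hθ y hy))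
    (tsupport_smul_subset_right h θ)

/-- `exists_chart_first` on `B` (`n = 0`) and on `T` (`n = 2`, for `s ∘ p`; `pb_dd`, `pb_fn`),
then `IsCh.restrOpen` with the open set `p ⁻¹' v.source`. -/
theorem van_fi_charts (hp : ∀ y, HMap p y) (hs : ∀ b, HolAt 1 s b)
    (h1 : ∀ b, dd (fn 1 s) b ≠ 0) (h2 : ∀ y, pb p (dd (fn 1 s)) y ≠ 0) (y : T) :
    ∃ (e : OpenPartialHomeomorph T (E 3)) (v : OpenPartialHomeomorph B (E 1)), IsCh e ∧ IsCh v ∧
      y ∈ e.source ∧ ∀ y' ∈ e.source, p y' ∈ v.source ∧ v (p y') = fun _ => e y' 0 := by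
  obtain ⟨v, hv, v1, v2⟩ := exists_chart_first (n := 0) (hs (p y)) (h1 (p y))
  obtain ⟨e, he, e1, e2⟩ := exists_chart_first (n := 2) (MF2a_hol_comp (hp y) (hs (p y))) (by
    rw [← pb_fn, ← pb_dd (hp y) (hs _).smAt]
    exact h2 y)
  have hc : Continuous p := continuous_iff_continuousAt.2 fun y => (hp y).continuousAt
  refine ⟨e.restrOpen _ (v.open_source.preimage hc), v, he.restrOpen _ _, hv, ⟨e1, v1⟩,
    fun y' hy' => ⟨hy'.2, funext fun i => ?_⟩⟩
  rw [Subsingleton.elim i 0]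
  exact (v2 _).trans (e2 y').symm

/-- The form `ds * cf ds` (`dd_of_hol`, `dp_Tp`, `pos_n0'` with `n = 1`). -/
theorem van_area (hs : ∀ b, HolAt 1 s b) (h1 : ∀ b, dd (fn 1 s) b ≠ 0) :
    ∃ ϖ : Fm 1 B, Sm 1 ϖ univ ∧ Dgr 2 ϖ ∧ ∀ b, top (ϖ b) ≠ 0 := by
  have h : ∀ b, dd (fn 1 s) b ∈ Tp 1 1 0 := fun b => by
    rw [dd_of_hol (hs b)]
    exact (fn_Ty s).dp b
  have h' : ∀ b, dd (fn 1 s) b ∈ Dg 1 1 := fun b => Tp_le_Dg (p := 1) (q := 0) (h b)
  refine ⟨dd (fn 1 s) * cf (dd (fn 1 s)), fun b _ => (hs b).smAt.dd.mul_left (hs b).smAt.dd.cf_one,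
    fun b => Dg_mul (k := 1) (l := 1) (h' b) (cj_Dg (h' b)), fun b h0 => ?_⟩
  obtain ⟨t, ht, e⟩ := pos_n0' (h b) (h1 b)
  rw [Pi.mul_apply, cf] at h0
  rw [h0, mul_zero] at e
  exact ht.ne' (ofReal_eq_zero.1 e.symm)

variable [MeasurableSpace B] [BorelSpace B] [MeasurableSpace T] [BorelSpace T]

/-- `exists_pou` on the compact set `p ⁻¹' K`, `van_fi_loc` for the forms `ρ i • γ`, `itg_sum`. -/
theorem van_fi_cpt (hp : ∀ y, HMap p y) (hs : ∀ b, HolAt 1 s b)
    (h1 : ∀ b, dd (fn 1 s) b ≠ 0) (h2 : ∀ y, pb p (dd (fn 1 s)) y ≠ 0) (hγ : Sm 1 γ univ)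
    {K : Set B} (hK : IsCompact (p ⁻¹' K)) : ∃ h, VFi p γ h K := by
  choose e v he hv hy hev using van_fi_charts hp hs h1 h2
  obtain ⟨S, ρ, r1, r2, -, -, r5⟩ := exists_pou (n := 3) hK (fun y => (e y).source)
    (fun y => (e y).open_source) fun y _ => mem_iUnion.2 ⟨y, hy y⟩
  have a1 : ∀ i, Sm 1 (ρ i • γ) univ := fun i y hy => ((r1 i).sm y hy).fsmul_one (hγ y hy)
  have a2 : ∀ i, tsupport (ρ i • γ) ⊆ tsupport (ρ i) := fun i =>
    tsupport_smul_subset_left (ρ i) γ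
  have a3 : ∀ i, HasCompactSupport (ρ i • γ) := fun i =>
    IsCompact.of_isClosed_subset (r1 i).cs (isClosed_tsupport _) (a2 i)
  choose h hh using fun i =>
    van_fi_loc hp (he i) (hv i) (hev i) (a1 i) (a3 i) ((a2 i).trans (r2 i))
  refine ⟨∑ i ∈ S, h i, fun b hb => ?_, fun θ t1 t2 t3 t4 => ?_⟩
  · have e1 : fn 1 (∑ i ∈ S, h i) = ∑ i ∈ S, fn 1 (h i) := by
      funext y
      simp only [fn, Finset.sum_apply, map_sum]
    rw [e1]
    exact SmAt.sum fun i _ => (hh i).1 b hb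
  · have e1 : γ * pb p θ = ∑ i ∈ S, (ρ i • γ) * pb p θ := by
      funext y
      rw [← Finset.sum_mul, ← Finset.sum_smul, Pi.mul_apply, Pi.mul_apply, Pi.smul_apply',
        Finset.sum_apply]
      by_cases hy : p y ∈ K
      · rw [r5.self_of_nhdsSet y hy, one_smul]
      · rw [pb, image_eq_zero_of_notMem_tsupport (f := θ) fun h => hy (t4 h), map_zero, mul_zero,
          mul_zero]
    rw [e1, Finset.sum_smul, itg_sum, itg_sum]
    · exact Finset.sum_congr rfl fun i _ => (hh i).2 θ t1 t2 t3 (subset_univ _)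
    · exact fun i _ => vanFi2_intg (hh i).1 t1 t3
    · exact fun i _ => INT2_intg (a3 i) (subset_univ _)
        (fun y hy => (a1 i y hy).mul_left (MF2b_pb (hp y) (t1 _ trivial))) tsupport_mul_subset_left

/-- `top_zero_of_test` for `(h - h') • ϖ`, testing with the forms `φ • ϖ`. -/
theorem van_fi_uniq {ϖ : Fm 1 B} (hϖ : Sm 1 ϖ univ) (hd : Dgr 2 ϖ) (h0 : ∀ b, top (ϖ b) ≠ 0)
    {h h' : B → ℂ} {K K' : Set B} (a : VFi p γ h K) (a' : VFi p γ h' K') {b : B}
    (hb : b ∈ interior K) (hb' : b ∈ interior K') : h b = h' b := by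
  have k := top_zero_of_test (α := h • ϖ - h' • ϖ) (isOpen_interior.inter isOpen_interior)
    (fun y _ => ((a.1 y trivial).fsmul_one (hϖ y trivial)).sub
      ((a'.1 y trivial).fsmul_one (hϖ y trivial))) (fun φ f1 f2 => ?_) b ⟨hb, hb'⟩
  · rw [Pi.sub_apply, Pi.smul_apply', Pi.smul_apply', ← sub_smul, map_smul, smul_eq_mul] at k
    exact sub_eq_zero.1 ((mul_eq_zero.1 k).resolve_right (h0 b))
  · have t1 : Sm 1 (φ • ϖ) univ := fun y hy => (f1.sm y hy).fsmul_one (hϖ y hy)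
    have t2 : Dgr 2 (φ • ϖ) := fun y => Submodule.smul_mem _ _ (hd y)
    have t4 : tsupport (φ • ϖ) ⊆ tsupport φ := tsupport_smul_subset_left φ ϖ
    have t3 : HasCompactSupport (φ • ϖ) :=
      IsCompact.of_isClosed_subset f1.cs (isClosed_tsupport _) t4
    rw [smul_sub, smul_comm φ h, smul_comm φ h', itg_sub (vanFi2_intg a.1 t1 t3)
      (vanFi2_intg a'.1 t1 t3),
      ← a.2 _ t1 t2 t3 ((t4.trans f2).trans (inter_subset_left.trans interior_subset)),
      ← a'.2 _ t1 t2 t3 ((t4.trans f2).trans (inter_subset_right.trans interior_subset)), sub_self]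

/-- Choose compact neighbourhoods `K b` and `H b` for them, and put `h b = H b b`; for a test form
use `exists_compact_superset`. -/
theorem van_fi (hp : ∀ y, HMap p y) (hpr : ∀ K, IsCompact K → IsCompact (p ⁻¹' K))
    (hs : ∀ b, HolAt 1 s b) (h1 : ∀ b, dd (fn 1 s) b ≠ 0)
    (h2 : ∀ y, pb p (dd (fn 1 s)) y ≠ 0) (hγ : Sm 1 γ univ) : ∃ h, VFi p γ h univ := by
  obtain ⟨ϖ, w1, w2, w3⟩ := van_area hs h1
  choose K hK hK' using fun b : B => exists_compact_mem_nhds b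
  choose H hH using fun b => van_fi_cpt hp hs h1 h2 hγ (hpr _ (hK b))
  have key : ∀ {h' : B → ℂ} {K' : Set B}, VFi p γ h' K' → ∀ b ∈ interior K', H b b = h' b :=
    fun a b hb => van_fi_uniq w1 w2 w3 (hH b) a (mem_interior_iff_mem_nhds.2 (hK' b)) hb
  refine ⟨fun b => H b b, fun b hb => MF2a_smf_congr ((hH b).1 b hb) ?_, fun θ t1 t2 t3 _ => ?_⟩
  · filter_upwards [interior_mem_nhds.2 (hK' b)] with y hy
    exact (key (hH b) y hy).symm
  · obtain ⟨K', k1, k2⟩ := exists_compact_superset t3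
    obtain ⟨h', a⟩ := van_fi_cpt hp hs h1 h2 hγ (hpr _ k1)
    rw [a.2 θ t1 t2 t3 (k2.trans interior_subset)]
    refine congrArg itg (funext fun b => ?_)
    rw [Pi.smul_apply', Pi.smul_apply']
    by_cases hb : b ∈ tsupport θ
    · rw [key a b (k2 hb)]
    · rw [image_eq_zero_of_notMem_tsupport hb, smul_zero, smul_zero]

/-- Take `(h + conj h) / 2`; `itg_cf`, `pb_cf`, applied to `cf θ`. -/
theorem van_fi_real {h : B → ℂ} (hr : cf γ = γ) (a : VFi p γ h univ) :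
    ∃ h', VFi p γ h' univ ∧ ∀ b, conj (h' b) = h' b := by
  have s1 : Sm 1 (fn 1 fun b => conj (h b)) univ := fun b hb => (a.1 b hb).fn_conj
  refine ⟨fun b => 2⁻¹ * (h b + conj (h b)), ⟨fun b hb => ?_, fun θ t1 t2 t3 t4 => ?_⟩,
    fun b => by rw [map_mul, map_add, conj_conj, map_inv₀, map_ofNat, add_comm]⟩
  · refine (((a.1 b hb).add (s1 b hb)).smul 2⁻¹).congr (Eventually.of_forall fun y => ?_)
    rw [Pi.smul_apply, Pi.add_apply, fn, fn, fn, Algebra.smul_def, map_mul, map_add]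
  · have k := a.2 (cf θ) (fun y hy => (t1 y hy).cf_one) (fun y => cj_Dg (t2 y))
      (t3.comp_left (g := cj) (map_zero _)) (subset_univ _)
    have e1 : γ * pb p (cf θ) = cf (γ * pb p θ) := by
      funext y
      rw [pb_cf, Pi.mul_apply, cf, cf, Pi.mul_apply, map_mul]
      exact congrArg (· * _) (congrFun hr y).symm
    have e2 : h • cf θ = cf ((fun b => conj (h b)) • θ) := by
      funext y
      rw [cf, Pi.smul_apply', Pi.smul_apply', cj_smul, conj_conj, cf]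
    have e3 : (fun b => 2⁻¹ * (h b + conj (h b))) • θ =
        (2⁻¹ : ℂ) • (h • θ + (fun b => conj (h b)) • θ) := by
      funext y
      simp only [Pi.smul_apply', Pi.smul_apply, Pi.add_apply, mul_smul, add_smul]
    rw [e1, e2, itg_cf, itg_cf] at k
    rw [e3, itg_smul, itg_add (vanFi2_intg a.1 t1 t3) (vanFi2_intg s1 t1 t3),
      ← (starRingEnd ℂ).injective k, ← a.2 θ t1 t2 t3 t4]
    ring

end

end Pool.Agent.MP_1c689d_ag.K0

end

section

/-! The primitive on the total space. -/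

set_option autoImplicit false

open Complex Filter Topology Set MeasureTheory MvPolynomial
open scoped ComplexConjugate ContDiff ENNReal

namespace Pool.Agent.MP_1c689d_ag.K0

noncomputable section

variable {n N M : ℕ} {T : Type} [TopologicalSpace T]

/-- `k1 = dp 1 (fn n fun y => Real.log (normSq (x y l)))` (`PMAt.Th_log`, `dd_eq`, `dp_dp`,
`MF4a_sm`, `SmAt.normSq`, `PMAt.eventually`). -/
theorem van_th_prim [Mf n T] {x : T → Fin N → ℂ} (hx : ∀ p, PMAt x p) (l : Fin N) :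
    ∃ k1 : Fm n T, Dgr 1 k1 ∧ ∀ p, x p l ≠ 0 → SmAt 1 k1 p ∧ dd k1 p = Th x p := by
  refine ⟨dp 1 (fn n fun y => (Real.log (normSq (x y l)) : ℂ)), fun y => Tp_le_Dg (p := 1) (q := 0)
    (Ty.dp (a := 0) (fun y => algebraMap_mem_Tp _) y), fun p h => ?_⟩
  have h1 := MF4a_sm (((hx p).holAt l).smAt.normSq (hx p).gok) h
  exact ⟨h1.dp gok_one, by rw [dd_eq, Pi.add_apply, dp_dp gok_one h1, zero_add, (hx p).Th_log h]⟩

/-- `k0 = -(ζ * k1) - κ * Θ`, where `ζ = η + cf η + dd κ` is smooth, closed, of degree three, and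
`k = (1 / 2) • (I • k0 + cf (I • k0))`. At the points where `ζ` vanishes identically `ζ * k1` does
too (`smAt_of_eventually_zero`, `dd_congr`). -/
theorem van_prim0 [Mf 3 T] {ζ η κ Θ k1 : Fm 3 T} (hη : Sm 1 η univ) (ht : Ty 2 1 η)
    (hd : dd η = 0) (hκ : Sm 1 κ univ) (hκ2 : Dgr 2 κ) (e : dd κ = ζ - η - cf η)
    (hΘ : Cl 2 Θ univ) (hc : cf Θ = -Θ) (h1 : Dgr 1 k1)
    (h0 : ∀ p, (∀ᶠ y in 𝓝 p, ζ y = 0) ∨ (SmAt 1 k1 p ∧ dd k1 p = Θ p)) :
    ∃ k : Fm 3 T, Sm 1 k univ ∧ Dgr 4 k ∧ cf k = k ∧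
      dd k = I • (η * Θ) + cf (I • (η * Θ)) := by
  have a0 : ζ = dd κ + η + cf η := by rw [e]; abel
  have a1 : ∀ p, SmAt 1 ζ p := fun p =>
    a0 ▸ ((hκ p trivial).dd.add (hη p trivial)).add (hη p trivial).cf_one
  have a2 : Dgr 3 ζ := fun p => by
    have := Tp_le_Dg (p := 2) (q := 1) (ht p)
    rw [a0]
    exact add_mem (add_mem (hκ2.dd p) this) (cj_Dg this)
  have a3 : ∀ p, dd ζ p = 0 := fun p => by
    rw [a0, dd_add ((hκ p trivial).dd.add (hη p trivial)) (hη p trivial).cf_one,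
      dd_add (hκ p trivial).dd (hη p trivial), dd_dd (hκ p trivial), dd_cf, hd]
    simp [cf]
  have a4 : ∀ p, SmAt 1 (ζ * k1) p ∧ dd (ζ * k1) p = -(ζ p * Θ p) := fun p => by
    rcases h0 p with h | ⟨h, h'⟩
    · have h2 : ζ * k1 =ᶠ[𝓝 p] 0 := h.mono fun y hy => by simp [hy]
      exact ⟨smAt_of_eventually_zero h2, by simp [dd_congr h2, dd_zero, h.self_of_nhds]⟩
    · refine ⟨(a1 p).mul_left h, ?_⟩
      rw [dd_mul (a1 p) h, a3, h', gi_of_Dg (a2 p)]
      norm_num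
  have a5 : ∀ p, SmAt 1 (κ * Θ) p := fun p => (hκ p trivial).mul_left (hΘ.sm p trivial)
  obtain ⟨k, b1, b2, b3⟩ : ∃ k : Fm 3 T, (∀ p, SmAt 1 k p) ∧ Dgr 4 k ∧
      ∀ p, dd k p = I • ((η p + cj (η p)) * Θ p) := by
    have c1 : ∀ p, -(ζ p * k1 p) - κ p * Θ p ∈ Dg 3 4 := fun p =>
      sub_mem (neg_mem (Dg_mul (k := 3) (l := 1) (a2 p) (h1 p)))
        (Dg_mul (k := 2) (l := 2) (hκ2 p) (hΘ.dg p))
    refine ⟨I • (-(ζ * k1) - κ * Θ), fun p => ((a4 p).1.neg.sub (a5 p)).smul I, fun p =>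
      Submodule.smul_mem _ I (c1 p), fun p => ?_⟩
    rw [dd_smul, Pi.smul_apply, dd_sub (a4 p).1.neg (a5 p), dd_neg, Pi.neg_apply, (a4 p).2,
      dd_mul (hκ p trivial) (hΘ.sm p trivial), hΘ.cl p trivial, e, neg_neg, mul_zero, add_zero,
      ← sub_mul, Pi.sub_apply, Pi.sub_apply, sub_sub, sub_sub_cancel]
    rfl
  refine ⟨(1 / 2 : ℂ) • (k + cf k), fun p _ => ((b1 p).add (b1 p).cf_one).smul _, fun p => ?_,
    funext fun p => ?_, funext fun p => ?_⟩
  · have c1 : k p + cj (k p) ∈ Dg 3 4 := add_mem (b2 p) (cj_Dg (b2 p))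
    exact Submodule.smul_mem _ (1 / 2 : ℂ) c1
  · simp [cf, cj_smul, cj_cj, add_comm, map_ofNat]
  · have c1 : cj (Θ p) = -Θ p := congrFun hc p
    rw [dd_smul, Pi.smul_apply, dd_add (b1 p) (b1 p).cf_one, dd_cf]
    simp only [cf, b3, Pi.add_apply, Pi.smul_apply, Pi.mul_apply, cj_smul, map_mul, map_add, cj_cj,
      c1, conj_I, add_mul, mul_neg]
    module

end

end Pool.Agent.MP_1c689d_ag.K0

end

section

/-! Bounded coefficients. -/

set_option autoImplicit false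

open Complex Filter Topology Set MeasureTheory MvPolynomial
open scoped ComplexConjugate ContDiff ENNReal

namespace Pool.Agent.MP_1c689d_ag.K0

noncomputable section

variable {n N : ℕ} {T : Type} [TopologicalSpace T]

/-- `EA3_left`, `EA3_right`, `mem_Tp00`: a form of type `(2,1)` is a combination of the products
`dz i * dz j * dzb k`; write each `dz i` as a combination of the `w l` (`cj_dz`, `cj_smul`). -/
theorem van_span {w : Fin N → Λ n}
    (hs : ∀ γ ∈ Tp n 1 0, ∃ a : Fin N → ℂ, γ = ∑ l, a l • w l) {f : Λ n} (hf : f ∈ Tp n 2 1) :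
    ∃ c : Fin N → Fin N → Fin N → ℂ, f = ∑ i, ∑ j, ∑ k, c i j k • (w i * w j * cj (w k)) := by
  have h : f ∈ Submodule.span ℂ
      (range fun x : Fin N × Fin N × Fin N => w x.1 * w x.2.1 * cj (w x.2.2)) := by
    obtain ⟨c1, h1, rfl⟩ := EA3_left hf
    refine sum_mem fun i _ => ?_
    obtain ⟨c2, h2, e2⟩ := EA3_left (h1 i)
    rw [e2, Finset.mul_sum]
    refine sum_mem fun j _ => ?_
    obtain ⟨c3, h3, e3⟩ := EA3_right (h2 j)
    rw [e3, ← mul_assoc, Finset.mul_sum]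
    refine sum_mem fun k _ => ?_
    obtain ⟨c, hc⟩ := mem_Tp00.1 (h3 k)
    obtain ⟨a, ha⟩ := hs _ (dz_mem i)
    obtain ⟨b, hb⟩ := hs _ (dz_mem j)
    obtain ⟨d, hd⟩ := hs _ (dz_mem k)
    rw [hc, ← Algebra.commutes, ← Algebra.smul_def, mul_smul_comm, ← cj_dz, ha, hb, hd, map_sum]
    simp only [Finset.sum_mul, Finset.mul_sum, cj_smul, smul_mul_assoc, mul_smul_comm]
    exact Submodule.smul_mem _ _ (sum_mem fun l _ => Submodule.smul_mem _ _ (sum_mem fun l' _ =>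
      Submodule.smul_mem _ _ (sum_mem fun l'' _ => Submodule.smul_mem _ _
        (Submodule.subset_span ⟨(_, _, _), rfl⟩))))
  obtain ⟨c, rfl⟩ := (Submodule.mem_span_range_iff_exists_fun ℂ).1 h
  exact ⟨fun i j k => c (i, j, k), by simp only [Fintype.sum_prod_type]⟩

/-- `exists_solve` with `ι = Fin N × Fin N × Fin N`, `κ = Unit`, unknowns of type `(0,0)` in the
gauge `H⁻¹`, where `H = gx ξ * gx ξ * (gx ξ)⁻¹` is the gauge of the products; `Ty.exists_fn`;
`SmAt.normSq` and `SmAt.continuousAt` bound the coefficients near `p`. -/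
theorem van_eta_loc [Mf n T] {ξ : T → Fin N → ℂ} {η : Fm n T} {p : T} (hξ : PMAt ξ p)
    (hi : Imm ξ p) (hη : SmAt 1 η p) (ht : Ty 2 1 η) : ∃ C : ℝ, ∀ᶠ y in 𝓝 p, VBd ξ η C y := by
  have hH := (hξ.gok.mul hξ.gok).mul hξ.gok.inv
  have hT : ∀ (i j k : Fin N) (y : T), ∀ b ∈ Tp n 0 0,
      Dx ξ i y * Dx ξ j y * cj (Dx ξ k y) * b ∈ Tp n 2 1 := fun i j k y b hb => by
    have k := Tp_mul (Tp_mul (Tp_mul (Dx_Ty (x := ξ) i y) (Dx_Ty (x := ξ) j y))
      (cj_Tp (Dx_Ty (x := ξ) k y))) hb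
    exact k
  obtain ⟨β, h1, h2, h3⟩ := exists_solve (ι := Fin N × Fin N × Fin N) (κ := Unit) (p := p)
    (fun _ => (gx ξ * gx ξ * (gx ξ)⁻¹)⁻¹) (fun _ => 1) (fun _ _ => gx ξ * gx ξ * (gx ξ)⁻¹)
    (fun _ => hH.inv) (fun _ _ => hH) (fun _ _ => hH.mul_inv) (fun _ => (0, 0)) (fun _ => (2, 1))
    (fun _ x => Dx ξ x.1 * Dx ξ x.2.1 * cf (Dx ξ x.2.2))
    (fun _ x => ((hξ.Dx_sm _).mul (hξ.Dx_sm _)).mul ((hξ.Dx_sm _).cf hξ.gok))
    (fun _ x => .of_forall (hT x.1 x.2.1 x.2.2))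
    (fun _ => η) (fun _ => hη) (fun _ => .of_forall ht) fun f hf => by
      obtain ⟨c, hc⟩ := van_span hi (hf ())
      refine ⟨fun x => algebraMap ℂ _ (c x.1 x.2.1 x.2.2), fun _ => algebraMap_mem_Tp _,
        fun _ => ?_⟩
      rw [hc]
      simp only [Fintype.sum_prod_type, ← Algebra.commutes, ← Algebra.smul_def]
      rfl
  choose c hc using fun x => (h2 x).exists_fn
  have h4 : ∀ x, ∀ᶠ y in 𝓝 p, ‖c x y‖ ≤ ∑ x, (‖c x p‖ + 1) := fun x => by
    have k1 : ContinuousAt (fun y => √‖(normSq (c x y) : ℂ)‖) p :=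
      ((hc x ▸ h1 x).normSq hH.inv).continuousAt.norm.sqrt
    simp only [normSq_eq_norm_sq, norm_real, norm_pow, norm_norm, Real.sqrt_sq (norm_nonneg _)]
      at k1
    exact (k1.eventually_lt_const (lt_add_one _)).mono fun y hy => hy.le.trans
      (Finset.single_le_sum (f := fun x => ‖c x p‖ + 1) (fun _ _ => by positivity)
        (Finset.mem_univ x))
  refine ⟨_, ((eventually_all.2 h4).and h3).mono fun y hy =>
    ⟨fun i j k => c (i, j, k) y, fun i j k => hy.1 _, ?_⟩⟩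
  rw [← hy.2 ()]
  simp only [Fintype.sum_prod_type, hc, fn, ← Algebra.commutes, ← Algebra.smul_def]
  rfl

theorem van_eta [Mf n T] [CompactSpace T] {ξ : T → Fin N → ℂ} {η : Fm n T} (hξ : ∀ p, PMAt ξ p)
    (hi : ∀ p, Imm ξ p) (hη : Sm 1 η univ) (ht : Ty 2 1 η) : ∃ C : ℝ, ∀ y, VBd ξ η C y := by
  choose C hC using fun p => van_eta_loc (hξ p) (hi p) (hη p trivial) ht
  obtain ⟨s, -, hs⟩ := isCompact_univ.elim_nhds_subcover _ fun p _ => hC p
  refine ⟨∑ p ∈ s, |C p|, fun y => ?_⟩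
  obtain ⟨p, hp, c, h1, h2⟩ := mem_iUnion₂.1 (hs (mem_univ y))
  exact ⟨c, fun i j k => (h1 i j k).trans ((le_abs_self _).trans
    (Finset.single_le_sum (f := fun p => |C p|) (fun _ _ => abs_nonneg _) hp)), h2⟩

/-- `lm` is an algebra map; `lm_cj`, `PMAt.pb_Dx`. -/
theorem VBd.pb [Mf n T] {m : ℕ} {Y : Type} [TopologicalSpace Y] [Mf m Y] {ξ : T → Fin N → ℂ}
    {η : Fm n T} {C : ℝ} {f : Y → T} {y : Y} (hf : HMap f y) (hξ : PMAt ξ (f y))
    (h : VBd ξ η C (f y)) : VBd (ξ ∘ f) (K0.pb f η) C y := by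
  obtain ⟨c, h1, h2⟩ := h
  refine ⟨c, h1, ?_⟩
  simp only [← hξ.pb_Dx hf, K0.pb, h2, map_sum, map_smul, map_mul, lm_cj]

end

end Pool.Agent.MP_1c689d_ag.K0

end

section

/-! Hodge decomposition: pointwise linear algebra. -/

set_option autoImplicit false

open Complex Filter Topology Set MeasureTheory MvPolynomial
open scoped ComplexConjugate ContDiff ENNReal

namespace Pool.Agent.MP_1c689d_ag.K0

noncomputable section

variable {m c r : ℕ} {X : Type} [TopologicalSpace X] [Mf 3 X] {Q : PD m 4 c r}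
  {x : X → Fin m → ℂ}

/-- The conjugate gradients are orthogonal to the tangent space of the cone: conjugate
`euler_eval` (with `h.onc`) and `FD.gv_F`. -/
theorem HD_pt_perp (h : FD Q ∅ x) (p : X) (z : Fin r → Λ 3) :
    ∑ l, conj (x p l) • ∑ j, conj (eval (x p) (pderiv l (Q.F j))) • z j = 0 ∧
      ∑ l, cj (Dx x l p) * ∑ j, conj (eval (x p) (pderiv l (Q.F j))) • z j = 0 := by
  constructor
  · simp only [Finset.smul_sum, smul_smul, ← map_mul]
    rw [Finset.sum_comm]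
    refine Finset.sum_eq_zero fun j _ => ?_
    rw [← Finset.sum_smul, ← map_sum]
    simp only [mul_comm (x p _)]
    rw [euler_eval (Q.Fh j), (h.onc p).2 j, mul_zero, map_zero, zero_smul]
  · simp only [Finset.mul_sum, mul_smul_comm, ← smul_mul_assoc, ← cj_smul]
    rw [Finset.sum_comm]
    refine Finset.sum_eq_zero fun j _ => ?_
    rw [← Finset.sum_mul, ← map_sum]
    have := h.gv_F j p
    rw [gv] at this
    rw [this, map_zero, zero_mul]

/-- A sum of squares of top forms vanishes only if all terms vanish (`pos_n0'`). -/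
theorem HD_sum_sq {ι : Type} [Fintype ι] {a : ι → Λ 3} (ha : ∀ j, a j ∈ Tp 3 3 0)
    (h0 : top (∑ j, a j * cj (a j)) = 0) (j : ι) : a j = 0 := by
  have h1 : ∀ i, ∃ t : ℝ, 0 ≤ t ∧ (a i ≠ 0 → 0 < t) ∧ I ^ (3 ^ 2) * top (a i * cj (a i)) = t :=
    fun i => by
      by_cases hi : a i = 0
      · exact ⟨0, le_rfl, fun h => absurd hi h, by simp [hi]⟩
      · obtain ⟨t, h, h'⟩ := pos_n0' (ha i) hi
        exact ⟨t, h.le, fun _ => h, h'⟩
  choose t t0 t1 t2 using h1
  have h2 : ∑ i, t i = 0 := by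
    have : ((∑ i, t i : ℝ) : ℂ) = 0 := by
      rw [ofReal_sum, ← Finset.sum_congr rfl fun i _ => t2 i, ← Finset.mul_sum, ← map_sum, h0,
        mul_zero]
    exact_mod_cast this
  by_contra hj
  exact (t1 j hj).ne' ((Finset.sum_eq_zero_iff_of_nonneg fun i _ => t0 i).1 h2 j
    (Finset.mem_univ j))

/-- With `u j = ∑ a, ∂_a F_j • g a` one has `∑ j, u j * cj (u j) = ∑ l, (h1 l) * cj (g l) = 0`, so
`u = 0` (`HD_sum_sq`); `FD.td_two_pt` gives `g l = Dx l * β + x l • θ`; `h2`, `sum_conj_Dx` and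
`PMAt.unit` give `θ = 0`; `h3` and `Th_eq` give `Th * β = 0`, and `Kah.bij20` gives `β = 0`. -/
theorem HD_pt_uniq (h : FD Q ∅ x) (p : X) {g : Fin m → Λ 3} (hg : ∀ l, g l ∈ Tp 3 3 0)
    (h1 : ∀ l, ∑ j, conj (eval (x p) (pderiv l (Q.F j))) •
      ∑ a, eval (x p) (pderiv a (Q.F j)) • g a = 0)
    (h2 : ∑ l, conj (x p l) • g l = 0) (h3 : ∑ l, cj (Dx x l p) * g l = 0) : g = 0 := by
  have hp := h.pm p
  have hO : p ∈ Q.O ∅ x := by rw [PD.O_empty]; trivial
  have hu : ∀ j, ∑ a, eval (x p) (pderiv a (Q.F j)) • g a = 0 := by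
    refine HD_sum_sq (fun j => Submodule.sum_mem _ fun a _ => Submodule.smul_mem _ _ (hg a)) ?_
    have : ∀ U : Fin r → Λ 3, ∑ j, U j * cj (∑ a, eval (x p) (pderiv a (Q.F j)) • g a) =
        ∑ l, (∑ j, conj (eval (x p) (pderiv l (Q.F j))) • U j) * cj (g l) := fun U => by
      simp only [map_sum, cj_smul, Finset.mul_sum, Finset.sum_mul, mul_smul_comm,
        smul_mul_assoc]
      exact Finset.sum_comm
    rw [this]
    simp only [h1, zero_mul, Finset.sum_const_zero, map_zero]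
  obtain ⟨β, hβ, θ, -, e⟩ := h.td_two_pt hO (a := 2) rfl hg hu
  have hθ : θ = 0 := by
    have h4 : ∑ l, conj (x p l) * x p l = 1 := by
      simp only [← normSq_eq_conj_mul_self, ← ofReal_sum, hp.unit.self_of_nhds, ofReal_one]
    simp only [e, smul_add, Finset.sum_add_distrib, smul_smul, ← smul_mul_assoc,
      ← Finset.sum_mul, ← Finset.sum_smul, hp.sum_conj_Dx, h4, zero_mul, zero_add, one_smul] at h2
    exact h2
  have h5 : Th x p * β = 0 := by
    have h6 : ∀ l, cj (Dx x l p) * g l = -(Dx x l p * cj (Dx x l p) * β) := fun l => by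
      rw [e, hθ, smul_zero, add_zero, ← mul_assoc,
        comm_Dg (Tp_le_Dg (cj_Tp (Dx_Ty l p))) (Tp_le_Dg (Dx_Ty l p))]
      simp
    simp only [h6, Finset.sum_neg_distrib, neg_eq_zero, ← Finset.sum_mul] at h3
    rw [hp.Th_eq, h3]
  have hβ0 : β = 0 := (hp.kah (h.imm p hO)).bij20.injOn hβ (zero_mem _) (by
    show Om x p * β = Om x p * 0
    rw [Om, smul_mul_assoc, h5, smul_zero, mul_zero])
  funext l
  rw [e, hθ, hβ0, smul_zero, mul_zero, add_zero, Pi.zero_apply]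

/-- The map `g ↦ h1` sends the finite dimensional space of the `g` with `hg`, `h2`, `h3` to itself
(`HD_pt_perp`) and is injective (`HD_pt_uniq`), hence surjective. -/
theorem HD_pt_ex (h : FD Q ∅ x) (p : X) {w : Fin m → Λ 3} (hw : ∀ l, w l ∈ Tp 3 3 0)
    (h2 : ∑ l, conj (x p l) • w l = 0) (h3 : ∑ l, cj (Dx x l p) * w l = 0) :
    ∃ g : Fin m → Λ 3, (∀ l, g l ∈ Tp 3 3 0) ∧
      (∀ l, ∑ j, conj (eval (x p) (pderiv l (Q.F j))) •
        ∑ a, eval (x p) (pderiv a (Q.F j)) • g a = w l) ∧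
      ∑ l, conj (x p l) • g l = 0 ∧ ∑ l, cj (Dx x l p) * g l = 0 := by
  let W : Submodule ℂ (Fin m → Λ 3) :=
    { carrier := {g | (∀ l, g l ∈ Tp 3 3 0) ∧ ∑ l, conj (x p l) • g l = 0 ∧
        ∑ l, cj (Dx x l p) * g l = 0}
      add_mem' := fun {a b} ha hb => ⟨fun l => add_mem (ha.1 l) (hb.1 l),
        by simp only [Pi.add_apply, smul_add, Finset.sum_add_distrib, ha.2.1, hb.2.1, add_zero],
        by simp only [Pi.add_apply, mul_add, Finset.sum_add_distrib, ha.2.2, hb.2.2, add_zero]⟩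
      zero_mem' := ⟨fun _ => zero_mem _, by simp, by simp⟩
      smul_mem' := fun t a ha => ⟨fun l => Submodule.smul_mem _ t (ha.1 l),
        by simp only [Pi.smul_apply, smul_comm _ t, ← Finset.smul_sum, ha.2.1, smul_zero],
        by simp only [Pi.smul_apply, mul_smul_comm, ← Finset.smul_sum, ha.2.2, smul_zero]⟩ }
  let T : (Fin m → Λ 3) →ₗ[ℂ] (Fin m → Λ 3) :=
    { toFun := fun g l => ∑ j, conj (eval (x p) (pderiv l (Q.F j))) •
        ∑ a, eval (x p) (pderiv a (Q.F j)) • g a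
      map_add' := fun a b => by
        funext l
        simp only [Pi.add_apply, smul_add, Finset.sum_add_distrib]
      map_smul' := fun t a => by
        funext l
        simp only [Pi.smul_apply, RingHom.id_apply, Finset.smul_sum, smul_comm t] }
  have hT : ∀ g ∈ W, T g ∈ W := fun g hg =>
    ⟨fun l => show ∑ j, conj (eval (x p) (pderiv l (Q.F j))) •
        ∑ a, eval (x p) (pderiv a (Q.F j)) • g a ∈ _ from
      Submodule.sum_mem _ fun j _ => Submodule.smul_mem _ _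
        (Submodule.sum_mem _ fun a _ => Submodule.smul_mem _ _ (hg.1 a)), HD_pt_perp h p _⟩
  have hi : Function.Injective (T.restrict hT) := by
    rw [injective_iff_map_eq_zero]
    intro g hg
    exact Subtype.ext (HD_pt_uniq h p g.2.1 (congrFun (congrArg Subtype.val hg)) g.2.2.1 g.2.2.2)
  obtain ⟨g, hg⟩ := LinearMap.injective_iff_surjective.1 hi ⟨w, hw, h2, h3⟩
  exact ⟨g.1, g.2.1, congrFun (congrArg Subtype.val hg), g.2.2⟩

end

end Pool.Agent.MP_1c689d_ag.K0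

end

section

/-! Hodge decomposition: smooth splittings. -/

set_option autoImplicit false

open Complex Filter Topology Set MeasureTheory MvPolynomial
open scoped ComplexConjugate ContDiff ENNReal

namespace Pool.Agent.MP_1c689d_ag.K0

noncomputable section

variable {m c r : ℕ} {X : Type} [TopologicalSpace X] [Mf 3 X] {Q : PD m 4 c r}
  {x : X → Fin m → ℂ}

/-- The coefficients of the linear system. -/
def HDSpl_a (Q : PD m 4 c r) (x : X → Fin m → ℂ) (k : Fin m ⊕ Bool) (i : Fin m) : Fm 3 X :=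
  Sum.elim (fun l => ∑ j, cf (fn 3 (ev x (pderiv l (Q.F j)))) * fn 3 (ev x (pderiv i (Q.F j))))
    (fun b => cond b (cf (Dx x i)) (cf (fn 3 fun y => x y i))) k

theorem HDSpl_inl (l : Fin m) (y : X) (b : Fin m → Λ 3) :
    ∑ i, HDSpl_a Q x (Sum.inl l) i y * b i = ∑ j, conj (eval (x y) (pderiv l (Q.F j))) •
      ∑ a, eval (x y) (pderiv a (Q.F j)) • b a := by
  simp only [HDSpl_a, Sum.elim_inl, Finset.sum_apply, Pi.mul_apply, cf, fn, ev, cj_algebraMap,
    Finset.sum_mul, Finset.smul_sum, ← Algebra.smul_def, smul_mul_assoc]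
  rw [Finset.sum_comm]

theorem HDSpl_inr (y : X) (b : Fin m → Λ 3) :
    ∑ i, HDSpl_a Q x (Sum.inr false) i y * b i = ∑ l, conj (x y l) • b l := by
  simp only [HDSpl_a, Sum.elim_inr, cond_false, cf, fn, cj_algebraMap, ← Algebra.smul_def]

theorem HDSpl_cf {p : X} (h : PMAt x p) {k l : ℤ} {α : Fm 3 X} (hα : SmAt (gx x ^ k) α p)
    (e : -k = l) : SmAt (gx x ^ l) (cf α) p := by
  have := hα.cf (h.gok_zpow k)
  rwa [← zpow_neg, e] at this

theorem HDSpl_ev {p : X} (h : PMAt x p) (l : Fin m) (j : Fin r) :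
    SmAt (gx x ^ ((Q.dF j : ℤ) - 1)) (fn 3 (ev x (pderiv l (Q.F j)))) p :=
  (h.holAt_ev (pderiv_hz (mem_hz_nat.2 (Q.Fh j)) l)).smAt

theorem HDSpl_sm {p : X} (h : PMAt x p) (k : Fin m ⊕ Bool) (i : Fin m) :
    SmAt (gx x ^ (Sum.elim (fun _ => 0) (fun _ => -1) k : ℤ)) (HDSpl_a Q x k i) p := by
  rcases k with l | _ | _
  · rw [HDSpl_a, Sum.elim_inl, Sum.elim_inl]
    exact SmAt.sum fun j _ => SmAt.mul_zpow h.gok (HDSpl_cf h (HDSpl_ev h l j) rfl)
      (HDSpl_ev h i j) (neg_add_cancel _)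
  · exact HDSpl_cf h (k := 1) (by rw [zpow_one]; exact (h.holAt i).smAt) rfl
  · exact HDSpl_cf h (k := 1) (by rw [zpow_one]; exact h.Dx_sm i) rfl

omit [TopologicalSpace X] [Mf 3 X] in
theorem HDSpl_gv {g : Fin m → Fm 3 X} (hg : ∀ l, Ty 3 0 (g l)) (f : P m) : Ty 3 0 (gv x g f) :=
  fun y => Submodule.sum_mem _ fun l _ => Submodule.smul_mem _ _ (hg l y)

theorem HDSpl_cj {ι : Type} [Fintype ι] (t : ι → ℂ) (a : ι → Λ 3) :
    cj (∑ j, conj (t j) • a j) = ∑ j, t j • cj (a j) := by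
  simp only [map_sum, cj_smul, conj_conj]

/-- Choose `g` pointwise by `HD_pt_ex`; it is smooth by `smAt_of_solve` (equations indexed by
`Fin m ⊕ Bool`, coefficients `fn 3 (∑ j, conj ∂_l F_j * ∂_a F_j)` with gauge `1`, `cf (fn 3 x_l)`
and `cf (Dx x l)` with gauge `gx x ^ (-1)`) and `HD_pt_uniq`. -/
theorem HD_split (h : FD Q ∅ x) {w : Fin m → Fm 3 X} (hw : ∀ l, Sm (gx x ^ (1 : ℤ)) (w l) univ)
    (ht : ∀ l, Ty 3 0 (w l)) (h2 : ∀ p, ∑ l, conj (x p l) • w l p = 0)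
    (h3 : ∀ p, ∑ l, cj (Dx x l p) * w l p = 0) :
    ∃ g : Fin m → Fm 3 X, (∀ l, Sm (gx x ^ (1 : ℤ)) (g l) univ) ∧ (∀ l, Ty 3 0 (g l)) ∧
      ∀ l p, ∑ j, conj (eval (x p) (pderiv l (Q.F j))) • gv x g (Q.F j) p = w l p := by
  choose g g1 g2 g3 g4 using fun p => HD_pt_ex h p (fun l => ht l p) (h2 p) (h3 p)
  refine ⟨fun l p => g p l, fun l p _ => ?_, fun l p => g1 p l, fun l p => g2 p l⟩
  have hp := h.pm p
  refine smAt_of_solve (κ := Fin m ⊕ Bool) (fun _ => gx x ^ (1 : ℤ))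
    (fun k => gx x ^ ((Sum.elim (fun _ => 0) (fun _ => -1) k : ℤ) + 1))
    (fun k _ => gx x ^ (Sum.elim (fun _ => 0) (fun _ => -1) k : ℤ)) (fun _ => hp.gok_zpow _)
    (fun _ _ => hp.gok_zpow _) (fun _ _ => hp.gz_add rfl) (fun _ => (3, 0)) (HDSpl_a Q x)
    (HDSpl_sm hp) (fun l p => g p l) (fun i => Eventually.of_forall fun y => g1 y i)
    (Sum.elim w fun _ => 0) ?_ ?_ ?_ l
  · rintro (l | b)
    · exact hw l p (mem_univ p)
    · exact smAt_zero
  · rintro (l | _ | _) <;> refine Eventually.of_forall fun y => ?_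
    · exact (HDSpl_inl l y _).trans (g2 y l)
    · exact (HDSpl_inr y _).trans (g3 y)
    · exact g4 y
  · intro b hb e
    exact HD_pt_uniq h p hb (fun l => (HDSpl_inl l p b).symm.trans (e (Sum.inl l)))
      ((HDSpl_inr p b).symm.trans (e (Sum.inr false))) (e (Sum.inr true))

/-- Apply `HD_split` to `cf (w l)` and put `ψ j = cf (gv x g (Q.F j))` (`PMAt.gv_sm`). -/
theorem HD_psi (h : FD Q ∅ x) {w : Fin m → Fm 3 X} (hw : ∀ l, Sm (gx x ^ (-1 : ℤ)) (w l) univ)
    (ht : ∀ l, Ty 0 3 (w l)) (h2 : ∀ p, ∑ l, x p l • w l p = 0)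
    (h3 : ∀ p, ∑ l, Dx x l p * w l p = 0) :
    ∃ ψ : Fin r → Fm 3 X, (∀ j, Sm (gx x ^ (-(Q.dF j : ℤ))) (ψ j) univ) ∧ (∀ j, Ty 0 3 (ψ j)) ∧
      ∀ l p, ∑ j, eval (x p) (pderiv l (Q.F j)) • ψ j p = w l p := by
  obtain ⟨g, g1, g2, g3⟩ := HD_split h (w := fun l => cf (w l))
    (fun l p hp => HDSpl_cf (h.pm p) (hw l p hp) rfl) (fun l p => cj_Tp (ht l p))
    (fun p => by
      have := congrArg cj (h2 p)
      simpa only [map_sum, cj_smul, map_zero, cf] using this)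
    (fun p => by
      have := congrArg cj (h3 p)
      simpa only [map_sum, map_mul, map_zero, cf] using this)
  refine ⟨fun j => cf (gv x g (Q.F j)), fun j p hp => HDSpl_cf (h.pm p)
    ((h.pm p).gv_sm (mem_hz_nat.2 (Q.Fh j)) (fun a => g1 a p hp) (sub_add_cancel _ _)) rfl,
    fun j p => cj_Tp (HDSpl_gv g2 _ p), fun l p => ?_⟩
  have := congrArg cj (g3 l p)
  rw [HDSpl_cj] at this
  exact this.trans (cj_cj _)

/-- Apply `HD_split` to `w l = ∑ j, conj ∂_l F_j • z j` (`HD_pt_perp`) and put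
`φ j = cf (z j - gv x g (Q.F j))`. -/
theorem HD_proj (h : FD Q ∅ x) {z : Fin r → Fm 3 X}
    (hz : ∀ j, Sm (gx x ^ (Q.dF j : ℤ)) (z j) univ) (ht : ∀ j, Ty 3 0 (z j)) :
    ∃ (g : Fin m → Fm 3 X) (φ : Fin r → Fm 3 X), (∀ l, Sm (gx x ^ (1 : ℤ)) (g l) univ) ∧
      (∀ l, Ty 3 0 (g l)) ∧ (∀ j, Sm (gx x ^ (-(Q.dF j : ℤ))) (φ j) univ) ∧ (∀ j, Ty 0 3 (φ j)) ∧
      (∀ l p, ∑ j, eval (x p) (pderiv l (Q.F j)) • φ j p = 0) ∧
      ∀ j, z j = gv x g (Q.F j) + cf (φ j) := by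
  obtain ⟨g, g1, g2, g3⟩ := HD_split h
    (w := fun l => ∑ j, cf (fn 3 (ev x (pderiv l (Q.F j)))) * z j)
    (fun l p hp => SmAt.sum fun j _ => SmAt.mul_zpow (h.pm p).gok
      (HDSpl_cf (h.pm p) (HDSpl_ev (h.pm p) l j) rfl) (hz j p hp) (by ring))
    (fun l p => by
      simp only [Finset.sum_apply, Pi.mul_apply, cf, fn, cj_algebraMap, ← Algebra.smul_def]
      exact Submodule.sum_mem _ fun j _ => Submodule.smul_mem _ _ (ht j p))
    (fun p => by
      simp only [Finset.sum_apply, Pi.mul_apply, cf, fn, cj_algebraMap, ← Algebra.smul_def]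
      exact (HD_pt_perp h p fun j => z j p).1)
    (fun p => by
      simp only [Finset.sum_apply, Pi.mul_apply, cf, fn, cj_algebraMap, ← Algebra.smul_def]
      exact (HD_pt_perp h p fun j => z j p).2)
  refine ⟨g, fun j => cf (z j - gv x g (Q.F j)), g1, g2, fun j p hp => HDSpl_cf (h.pm p)
    ((hz j p hp).sub ((h.pm p).gv_sm (mem_hz_nat.2 (Q.Fh j)) (fun a => g1 a p hp)
      (sub_add_cancel _ _))) rfl,
    fun j p => cj_Tp (Submodule.sub_mem _ (ht j p) (HDSpl_gv g2 _ p)), fun l p => ?_,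
    fun j => ?_⟩
  · have e := g3 l p
    simp only [Finset.sum_apply, Pi.mul_apply, cf, fn, ev, cj_algebraMap, ← Algebra.smul_def] at e
    refine (HDSpl_cj _ _).symm.trans ?_
    simp only [Pi.sub_apply, smul_sub, Finset.sum_sub_distrib, e, sub_self, map_zero]
  · funext p
    simp only [Pi.add_apply, Pi.sub_apply, cf, cj_cj, add_sub_cancel]

end

end Pool.Agent.MP_1c689d_ag.K0

end
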