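import Pool.Agent.Mg.F1c689d.G398e35
import Pool.Agent.Mg.F1c689d.Gc38b74

set_option linter.all false


section

/-! Holomorphic functions of pure weight are homogeneous. -/

set_option autoImplicit false

open Complex Filter Topology Set MeasureTheory MvPolynomial
open scoped ComplexConjugate ContDiff ENNReal

namespace Pool.Agent.MP_1c689d_ag.K0.Fd

noncomputable section

variable {N n : ℕ}

/-- The identity theorem in one variable. -/
theorem hom_ann {j : ℤ} {f : E N → ℂ} {z : E N} {a b : ℝ} (ha : 0 ≤ a) (h1 : a < 1) (h2 : 1 < b)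
    (hf : ∀ t : ℂ, a < ‖t‖ → ‖t‖ < b → DifferentiableAt ℂ f (t • z)) (hw : Wt j f z) {t : ℂ}
    (h3 : a < ‖t‖) (h4 : ‖t‖ < b) : f (t • z) = t ^ j * f z := by
  have hS : ∀ s, s ∈ re ⁻¹' (Real.exp ⁻¹' Ioo a b) ↔ a < ‖exp s‖ ∧ ‖exp s‖ < b := fun s => by
    rw [norm_exp]
    rfl
  have ho : IsOpen (re ⁻¹' (Real.exp ⁻¹' Ioo a b)) :=
    (isOpen_Ioo.preimage Real.continuous_exp).preimage continuous_re
  have ht : t ≠ 0 := norm_pos_iff.1 (ha.trans_lt h3)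
  have hl : Tendsto (fun y : ℝ => (y : ℂ) * I) (𝓝[≠] 0) (𝓝[≠] 0) :=
    tendsto_nhdsWithin_iff.2 ⟨((by fun_prop : Continuous fun y : ℝ => (y : ℂ) * I).tendsto' 0 0
      (by simp)).mono_left nhdsWithin_le_nhds, eventually_nhdsWithin_of_forall fun y hy => by
        simpa using hy⟩
  have k := AnalyticOnNhd.eqOn_of_preconnected_of_frequently_eq (f := fun s => f (exp s • z))
    (g := fun s => exp s ^ j * f z) (z₀ := 0)
    (DifferentiableOn.analyticOnNhd (fun s hs => ((hf _ ((hS s).1 hs).1 ((hS s).1 hs).2).comp s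
      (differentiableAt_exp.smul_const z)).differentiableWithinAt) ho)
    (DifferentiableOn.analyticOnNhd (fun s _ => ((differentiableAt_exp.zpow
      (.inl (exp_ne_zero s))).mul_const _).differentiableWithinAt) ho)
    (((ordConnected_Ioo.preimage_mono Real.exp_monotone).convex.linear_preimage reLm).isPreconnected)
    ((hS 0).2 (by simp [h1, h2]))
    (hl.frequently (.of_forall fun y => hw _ (norm_exp_ofReal_mul_I y)))
  simpa only [exp_log ht] using k ((hS (log t)).2 (by rw [exp_log ht]; exact ⟨h3, h4⟩))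

/-- Extension by homogeneity to the cone over an open set. -/
theorem HP_ext {j : ℤ} {f : E N → ℂ} {B : Set (E N)} (hB : IsOpen B)
    (hf : ∀ z ∈ B, DifferentiableAt ℂ f z)
    (h : ∀ z ∈ B, ∀ t : ℂ, t ≠ 0 → t • z ∈ B → f (t • z) = t ^ j * f z) :
    ∃ g, Cn {z | ∃ s : ℂ, s ≠ 0 ∧ s • z ∈ B} ∧ Hm j {z | ∃ s : ℂ, s ≠ 0 ∧ s • z ∈ B} g ∧
      ∀ z ∈ B, g z = f z := by
  classical
  obtain ⟨g, hg⟩ : ∃ g : E N → ℂ, ∀ z (s : ℂ), s ≠ 0 → s • z ∈ B → g z = f (s • z) / s ^ j := by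
    refine ⟨fun z => if k : ∃ s : ℂ, s ≠ 0 ∧ s • z ∈ B then f (k.choose • z) / k.choose ^ j else 0,
      fun z s hs hz => ?_⟩
    have k : ∃ s : ℂ, s ≠ 0 ∧ s • z ∈ B := ⟨s, hs, hz⟩
    have e : (k.choose / s) • s • z = k.choose • z := by rw [smul_smul, div_mul_cancel₀ _ hs]
    simp only [dif_pos k]
    rw [← e, h _ hz _ (div_ne_zero k.choose_spec.1 hs) (e ▸ k.choose_spec.2), div_zpow]
    field_simp [zpow_ne_zero j k.choose_spec.1]
  have ho : ∀ s : ℂ, IsOpen {z : E N | s • z ∈ B} := fun s => hB.preimage (by fun_prop)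
  have e : ∀ {s t : ℂ} (z : E N), t ≠ 0 → (s / t) • t • z = s • z := fun z ht => by
    rw [smul_smul, div_mul_cancel₀ _ ht]
  refine ⟨g, ⟨isOpen_iff_mem_nhds.2 fun z ⟨s, hs, hz⟩ =>
    mem_of_superset ((ho s).mem_nhds hz) fun w hw => ⟨s, hs, hw⟩,
    fun z ⟨s, hs, hz⟩ t ht => ⟨s / t, div_ne_zero hs ht, by rwa [e z ht]⟩⟩,
    ⟨fun z ⟨s, hs, hz⟩ => DifferentiableAt.differentiableWithinAt ?_,
    fun z ⟨s, hs, hz⟩ t ht => ?_⟩, fun z hz => by simpa using hg z 1 one_ne_zero (by simpa)⟩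
  · refine (((hf _ hz).comp z (differentiableAt_id.const_smul s)).mul_const
      (s ^ j)⁻¹).congr_of_eventuallyEq ?_
    filter_upwards [(ho s).mem_nhds hz] with w hw using hg w s hs hw
  · rw [hg _ _ (div_ne_zero hs ht) (by rwa [e z ht]), hg _ _ hs hz, e z ht, div_zpow]
    field_simp

/-- Extend `f` by homogeneity to an entire function and use `poly_of_homog`. -/
theorem hp {j : ℤ} {f : E N → ℂ} {R : ℝ} (hR : 0 < R)
    (hf : ∀ z ∈ Metric.ball (0 : E N) R, DifferentiableAt ℂ f z ∧ Wt j f z) :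
    ∃ g ∈ hz N j, ∀ z ∈ Metric.ball (0 : E N) R, f z = eval z g := by
  obtain ⟨g, -, hg, e⟩ := HP_ext (j := j) Metric.isOpen_ball (fun z hz => (hf z hz).1)
    fun z hz t ht h => by
      rcases eq_or_ne z 0 with rfl | h0
      · exact hom_ann le_rfl one_pos (b := ‖t‖ + 2) (by linarith [norm_nonneg t])
          (fun s _ _ => by rw [smul_zero]; exact (hf _ hz).1) (hf _ hz).2 (norm_pos_iff.2 ht)
          (by linarith)
      · have k : ∀ s : ℂ, ‖s‖ < R / ‖z‖ ↔ s • z ∈ Metric.ball (0 : E N) R := fun s => by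
          rw [mem_ball_zero_iff, norm_smul, lt_div_iff₀ (norm_pos_iff.2 h0)]
        exact hom_ann le_rfl one_pos (b := R / ‖z‖) (by simpa using (k 1).2 (by simpa using hz))
          (fun s _ hs => (hf _ ((k s).1 hs)).1) (hf _ hz).2 (norm_pos_iff.2 ht) ((k t).2 h)
  have hU : ∀ z : E N, ∃ s : ℂ, s ≠ 0 ∧ s • z ∈ Metric.ball (0 : E N) R := fun z => by
    obtain ⟨s, h1, h2⟩ := exists_pos_mul_lt hR ‖z‖
    refine ⟨s, ofReal_ne_zero.2 h1.ne', ?_⟩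
    rwa [mem_ball_zero_iff, norm_smul, norm_real, Real.norm_of_nonneg h1.le, mul_comm]
  rw [eq_univ_of_forall hU] at hg
  obtain ⟨q, h1, h2, h3⟩ := poly_of_homog (differentiableOn_univ.1 hg.1)
    fun t z ht => hg.2 z trivial t ht
  refine ⟨q, ?_, fun z hz => (e z hz).symm.trans (h1 z)⟩
  rw [hz]
  split_ifs with h
  · exact h3
  · exact h2 (not_le.1 h)

theorem HP_box {c : E N} {k : Fin N} {a b : ℝ} (hc : ‖c‖ ≤ 1) (ha : 0 < a) (hab : a ≤ b)
    {p : E N → Prop} (h : ∀ z, a ≤ ‖z k‖ → ‖z k‖ ≤ b → z = z k • c → ∀ᶠ w in 𝓝 z, p w) :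
    ∃ δ, 0 < δ ∧ δ ≤ a ∧ ∀ z ∈ Ho c k δ, a - δ < ‖z k‖ → ‖z k‖ < b + δ → ∀ᶠ w in 𝓝 z, p w := by
  obtain ⟨η, hη, H⟩ := Metric.eventually_nhds_iff.1 (tube
    (isCompact_closedBall (0 : E N) (2 * b * b + 2 * b)) (p := p) (y := (0 : ℝ))
    (f := fun z => max (max (a - ‖z k‖) (‖z k‖ - b)) ‖z - z k • c‖) (by fun_prop) fun z _ e => by
      have e := e.le
      simp only [max_le_iff, sub_nonpos, norm_le_zero_iff, sub_eq_zero] at e
      exact h z e.1.1 e.1.2 e.2)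
  obtain ⟨δ, hδ, hδ'⟩ := exists_pos_mul_lt hη (1 + 2 * b)
  refine ⟨min δ a, lt_min hδ ha, min_le_right _ _, fun z hz h1 h2 => H ?_ z ?_ rfl⟩
  all_goals
    have k1 := min_le_left δ a
    have k2 := min_le_right δ a
    have k3 : ‖z - z k • c‖ ≤ min δ a * (2 * b) :=
      (le_of_lt hz).trans (mul_le_mul_of_nonneg_left (by linarith) (lt_min hδ ha).le)
  · rw [Real.dist_0_eq_abs, abs_of_nonneg (le_max_of_le_right (norm_nonneg _))]
    refine max_lt (max_lt ?_ ?_) ?_ <;> nlinarith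
  · have k4 := norm_sub_norm_le z (z k • c)
    rw [norm_smul] at k4
    rw [mem_closedBall_zero_iff]
    nlinarith [norm_nonneg (z k)]

/-- Write `z₀ = τ • c` (`exists_nrm`), so `Ry z₀ ∩ Sh N a b = {t • c | a ≤ ‖t‖ ≤ b}`. There is
`δ > 0` such that the hypothesis holds on `B = {z | a - δ < ‖z k‖ < b + δ, ‖z - z k • c‖ < δ * ‖z k‖}`
(compactness). Let `f` be the scalar part of `γ` (`mem_Tp00`, `dbE_eq_zero_iff`,
`differentiableAt_of_pzb`), `U = Ho c k δ` and `g z = (z k / a) ^ j * f ((a / z k) • z)`; `hom_ann`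
gives `f = g` on `B`. -/
theorem hom_near {j : ℤ} {γ : E N → Λ N} {z₀ : E N} (h0 : z₀ ≠ 0) {a b : ℝ} (ha : 0 < a)
    (hab : a ≤ b) (h : ∀ᶠ z in 𝓝ˢ (Ry z₀ ∩ Sh N a b), Gd j 0 γ z ∧ dbE γ z = 0) :
    ∃ (U : Set (E N)) (g : E N → ℂ), Cn U ∧ z₀ ∈ U ∧ Hm j U g ∧
      ∀ᶠ z in 𝓝ˢ (Ry z₀ ∩ Sh N a b), γ z = algebraMap ℂ (Λ N) (g z) := by
  obtain ⟨c, k, τ, hk, hc, hτ, rfl⟩ := exists_nrm h0
  have hK : ∀ z, z ∈ Ry (τ • c) ∩ Sh N a b ↔ a ≤ ‖z k‖ ∧ ‖z k‖ ≤ b ∧ z = z k • c := fun z => by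
    have e : z ∈ Ry (τ • c) ↔ z = z k • c :=
      ⟨fun ⟨t, e⟩ => by simp [e, hk, smul_smul], fun e =>
        ⟨z k / τ, by rwa [smul_smul, div_mul_cancel₀ _ hτ]⟩⟩
    rw [mem_inter_iff, e, and_comm, ← and_assoc]
    refine and_congr_left fun e => ?_
    rw [le_antisymm (norm_le_pi_norm z k) ((congrArg norm e).trans_le ((norm_smul _ _).trans_le
      (mul_le_of_le_one_right (norm_nonneg _) hc)))]
    rfl
  obtain ⟨δ, hδ, hδa, H⟩ := HP_box hc ha hab fun z h1 h2 h3 =>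
    eventually_nhdsSet_iff_forall.1 h z ((hK z).2 ⟨h1, h2, h3⟩)
  obtain ⟨B, hB⟩ : ∃ B : Set (E N), B = Ho c k δ ∩ (fun z => ‖z k‖) ⁻¹' Ioo (a - δ) (b + δ) :=
    ⟨_, rfl⟩
  have ho : IsOpen B := hB ▸ (isOpen_ho c k δ).inter (isOpen_Ioo.preimage (by fun_prop))
  have hKB : Ry (τ • c) ∩ Sh N a b ⊆ B := fun z hz => by
    obtain ⟨h1, h2, h3⟩ := (hK z).1 hz
    refine hB ▸ ⟨?_, (sub_lt_self a hδ).trans_le h1, h2.trans_lt (lt_add_of_pos_right b hδ)⟩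
    rw [Ho, mem_ofPred_eq, ← h3, sub_self, norm_zero]
    exact mul_pos hδ (ha.trans_le h1)
  replace H : ∀ z ∈ B, ∀ᶠ w in 𝓝 z, Gd j 0 γ w ∧ dbE γ w = 0 := fun z hz =>
    have hz := hB ▸ hz
    H z hz.1 hz.2.1 hz.2.2
  have hd : ∀ z ∈ B, DifferentiableAt ℂ (fun w => (bL N).coord ∅ (γ w)) z := fun z hz =>
    ((bL N).coord ∅).toContinuousLinearMap.differentiableAt.comp z (differentiableAt_of_pzb
      ((H z hz).self_of_nhds.1.sm.differentiableAt (by simp))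
      ((dbE_eq_zero_iff ((H z hz).mono fun _ k => k.1.ty)).1 (H z hz).self_of_nhds.2))
  obtain ⟨g, h1, h2, h3⟩ := HP_ext (j := j) ho hd fun z hz t ht h => by
    have h4 : 0 < ‖z k‖ := (sub_nonneg.2 hδa).trans_lt (hB ▸ hz).2.1
    have h5 : ∀ s : ℂ, s • z ∈ (fun z : E N => ‖z k‖) ⁻¹' Ioo (a - δ) (b + δ) ↔
        (a - δ) / ‖z k‖ < ‖s‖ ∧ ‖s‖ < (b + δ) / ‖z k‖ := fun s => by
      rw [div_lt_iff₀ h4, lt_div_iff₀ h4, ← norm_mul]
      rfl
    have h6 := (h5 1).1 (by rw [one_smul]; exact (hB ▸ hz).2)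
    have h7 := div_nonneg (sub_nonneg.2 hδa) h4.le
    rw [norm_one] at h6
    refine hom_ann h7 h6.1 h6.2 (fun s k1 k2 => hd _ (hB ▸ ⟨(ho_smul (norm_pos_iff.1
      (h7.trans_lt k1))).2 (hB ▸ hz).1, (h5 s).2 ⟨k1, k2⟩⟩)) (fun s hs => ?_)
      ((h5 t).1 (hB ▸ h).2).1 ((h5 t).1 (hB ▸ h).2).2
    simp only [(H z hz).self_of_nhds.1.wt s hs, map_smul, Nat.cast_zero, add_zero]
  refine ⟨_, g, h1, ⟨a / τ, div_ne_zero (ofReal_ne_zero.2 ha.ne') hτ, hKB ((hK _).2 ?_)⟩, h2,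
    mem_of_superset (ho.mem_nhdsSet.2 hKB) fun z hz => ?_⟩
  · simp [smul_smul, div_mul_cancel₀ _ hτ, hk, abs_of_pos ha, hab]
  · obtain ⟨u, hu⟩ := mem_Tp00.1 (H z hz).self_of_nhds.1.ty
    rw [mem_ofPred_eq, h3 z hz, hu]
    congr 1
    rw [Algebra.algebraMap_eq_smul_one u, map_smul, ← EA1a_empty]
    simp

end

end Pool.Agent.MP_1c689d_ag.K0.Fd

end

section

/-! Cutting off a closed form near a shell. -/

set_option autoImplicit false

open Complex Filter Topology Set MeasureTheory MvPolynomial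
open scoped ComplexConjugate ContDiff ENNReal

namespace Pool.Agent.MP_1c689d_ag.K0.Fd

noncomputable section

variable {N : ℕ}

/-- An invariant function that is one near the shell and zero near the part of the ball that is
not in `U`. -/
structure Chi (U : Set (E N)) (a b r : ℝ) (χ : E N → ℂ) : Prop where
  pos : 0 < r
  lt : r < a
  sm : ContDiff ℝ ∞ χ
  wt : ∀ z, Wt 0 χ z
  one : ∀ z, r ≤ ‖z‖ → χ z = 1
  zero : ∀ z, ‖z‖ ≤ b → z ∈ U ∨ ∀ᶠ w in 𝓝 z, χ w = 0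

/-- The compact set `closedBall 0 b \ U` lies in a ball of radius less than `a`; `exists_ivcut`. -/
theorem exists_chi {U : Set (E N)} (hU : IsOpen U) {a b : ℝ} (ha : 0 < a) (hs : Sh N a b ⊆ U) :
    ∃ (r : ℝ) (χ : E N → ℂ), Chi U a b r χ := by
  have hK : IsCompact (Metric.closedBall (0 : E N) b \ U) :=
    (isCompact_closedBall _ _).diff hU
  have hlt : ∀ z ∈ Metric.closedBall (0 : E N) b \ U, ‖z‖ < a := fun z hz => by
    by_contra hc
    exact hz.2 (hs ⟨not_lt.1 hc, mem_closedBall_zero_iff.1 hz.1⟩)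
  obtain ⟨r0, h0, h1, h2⟩ : ∃ r0 : ℝ, 0 ≤ r0 ∧ r0 < a ∧
      ∀ z ∈ Metric.closedBall (0 : E N) b \ U, ‖z‖ ≤ r0 := by
    rcases (Metric.closedBall (0 : E N) b \ U).eq_empty_or_nonempty with he | he
    · exact ⟨0, le_rfl, ha, fun z hz => absurd (he ▸ hz) (notMem_empty z)⟩
    · obtain ⟨z0, hz0, hm⟩ := hK.exists_isMaxOn he continuous_norm.continuousOn
      exact ⟨‖z0‖, norm_nonneg _, hlt z0 hz0, fun z hz => hm hz⟩
  obtain ⟨r, k1, k2⟩ := exists_between h1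
  obtain ⟨r1, k3, k4⟩ := exists_between k1
  obtain ⟨χ, c1, c2, c3, c4⟩ := exists_ivcut (N := N) k4
  refine ⟨r, χ, h0.trans_lt k1, k2, c1, c2, c4, fun z hz => ?_⟩
  by_cases hzU : z ∈ U
  · exact Or.inl hzU
  · refine Or.inr ?_
    have hz1 : ‖z‖ < r1 := (h2 z ⟨mem_closedBall_zero_iff.2 hz, hzU⟩).trans_lt k3
    filter_upwards [continuous_norm.continuousAt.eventually_lt continuousAt_const hz1] with w hw
    exact c3 w hw.le

/-- The error term. -/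
def er (a : ℝ) (χ : E N → ℂ) (γ : E N → Λ N) : E N → Λ N :=
  (Metric.ball (0 : E N) a).indicator (dbE (χ • γ))

theorem SHa_in {a : ℝ} {χ : E N → ℂ} {γ : E N → Λ N} {z : E N} (hz : ‖z‖ < a) :
    er a χ γ z = dbE (χ • γ) z :=
  indicator_of_mem (mem_ball_zero_iff.2 hz) _

theorem SHa_out {a : ℝ} {χ : E N → ℂ} {γ : E N → Λ N} {z : E N} (hz : a ≤ ‖z‖) :
    er a χ γ z = 0 :=
  indicator_of_notMem (fun h => (mem_ball_zero_iff.1 h).not_ge hz) _

theorem SHa_lt {a : ℝ} {z : E N} (hz : ‖z‖ < a) : ∀ᶠ w in 𝓝 z, ‖w‖ < a :=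
  continuous_norm.continuousAt.eventually_lt continuousAt_const hz

theorem SHa_gt {a : ℝ} {z : E N} (hz : a < ‖z‖) : ∀ᶠ w in 𝓝 z, a < ‖w‖ :=
  continuousAt_const.eventually_lt continuous_norm.continuousAt hz

theorem SHa_ev {U : Set (E N)} (hU : IsOpen U) {a b r : ℝ} {χ : E N → ℂ} (hχ : Chi U a b r χ)
    {z : E N} (hz : ‖z‖ ≤ b) : ∀ᶠ w in 𝓝 z, w ∈ U ∨ ∀ᶠ y in 𝓝 w, χ y = 0 := by
  rcases hχ.zero z hz with h | h
  · filter_upwards [hU.mem_nhds h] with w hw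
    exact Or.inl hw
  · exact h.eventually_nhds.mono fun w hw => Or.inr hw

theorem SHa_mem {U : Set (E N)} {a b r : ℝ} {χ : E N → ℂ} (hχ : Chi U a b r χ)
    {z : E N} (hz : ‖z‖ ≤ b) (hr : r < ‖z‖) : z ∈ U :=
  (hχ.zero z hz).resolve_right fun h =>
    one_ne_zero ((hχ.one z hr.le).symm.trans h.self_of_nhds)

theorem SHa_sm {U : Set (E N)} {a b r : ℝ} {χ : E N → ℂ} (hχ : Chi U a b r χ) {γ : E N → Λ N}
    (h : ∀ z ∈ U, ContDiffAt ℝ ∞ γ z) {w : E N} (hw : w ∈ U ∨ ∀ᶠ y in 𝓝 w, χ y = 0) :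
    ContDiffAt ℝ ∞ (χ • γ) w := by
  rcases hw with hw | hw
  · exact hχ.sm.contDiffAt.smul (h w hw)
  · refine (contDiffAt_const (c := (0 : Λ N))).congr_of_eventuallyEq ?_
    filter_upwards [hw] with y hy
    rw [Pi.smul_apply', hy, zero_smul]

theorem er_spec {U : Set (E N)} (hU : IsOpen U) {a b r : ℝ} (hab : a ≤ b) {χ : E N → ℂ}
    (hχ : Chi U a b r χ) {q : ℕ} {γ : E N → Λ N} (h : ∀ z ∈ U, Cz q γ z) :
    ContDiff ℝ ∞ (er a χ γ) ∧ (∀ z, er a χ γ z ∈ Tp N 0 (q + 1)) ∧ (∀ z, dbE (er a χ γ) z = 0) ∧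
      (∀ z, r < ‖z‖ → er a χ γ z = 0) ∧ ∀ᶠ z in 𝓝ˢ (Metric.closedBall (0 : E N) b),
        ContDiffAt ℝ ∞ (χ • γ) z ∧ (χ • γ) z ∈ Tp N 0 q ∧ dbE (χ • γ) z = er a χ γ z := by
  have hA : ∀ z, ‖z‖ ≤ b → ∀ᶠ w in 𝓝 z,
      ContDiffAt ℝ ∞ (χ • γ) w ∧ (χ • γ) w ∈ Tp N 0 q := fun z hz => by
    filter_upwards [SHa_ev hU hχ hz] with w hw
    refine ⟨SHa_sm hχ (fun y hy => (h y hy).sm) hw, ?_⟩
    rcases hw with hw | hw
    · exact Submodule.smul_mem _ _ (h w hw).ty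
    · rw [Pi.smul_apply', hw.self_of_nhds, zero_smul]
      exact Submodule.zero_mem _
  have hD : ∀ z ∈ U, r < ‖z‖ → dbE (χ • γ) z = 0 := fun z hz hr => by
    rw [← (h z hz).cl]
    refine dbE_congr ?_
    filter_upwards [SHa_gt hr] with w hw
    rw [Pi.smul_apply', hχ.one w hw.le, one_smul]
  have hB : ∀ z, r < ‖z‖ → er a χ γ z = 0 := fun z hr => by
    rcases lt_or_ge ‖z‖ a with hz | hz
    · rw [SHa_in hz]
      exact hD z (SHa_mem hχ (hz.le.trans hab) hr) hr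
    · exact SHa_out hz
  have h1 : ∀ z, ‖z‖ < a → er a χ γ =ᶠ[𝓝 z] dbE (χ • γ) := fun z hz => by
    filter_upwards [SHa_lt hz] with w hw
    exact SHa_in hw
  have h2 : ∀ z, r < ‖z‖ → er a χ γ =ᶠ[𝓝 z] fun _ => 0 := fun z hz => by
    filter_upwards [SHa_gt hz] with w hw
    exact hB w hw
  refine ⟨contDiff_iff_contDiffAt.2 fun z => ?_, fun z => ?_, fun z => ?_, hB, ?_⟩
  · rcases lt_or_ge ‖z‖ a with hz | hz
    · exact (contDiffAt_dbE (hA z (hz.le.trans hab)).self_of_nhds.1).congr_of_eventuallyEq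
        (h1 z hz)
    · exact contDiffAt_const.congr_of_eventuallyEq (h2 z (hχ.lt.trans_le hz))
  · rcases lt_or_ge ‖z‖ a with hz | hz
    · rw [SHa_in hz]
      exact dbE_Tp ((hA z (hz.le.trans hab)).mono fun w hw => hw.2)
    · rw [SHa_out hz]
      exact Submodule.zero_mem _
  · rcases lt_or_ge ‖z‖ a with hz | hz
    · rw [dbE_congr (h1 z hz)]
      exact dbE_dbE ((hA z (hz.le.trans hab)).self_of_nhds.1.of_le (by norm_cast))
    · rw [dbE_congr (h2 z (hχ.lt.trans_le hz))]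
      exact dbE_const 0
  · refine eventually_nhdsSet_iff_forall.2 fun z hz => ?_
    have hzb : ‖z‖ ≤ b := mem_closedBall_zero_iff.1 hz
    rcases lt_or_ge ‖z‖ a with hz | hz
    · filter_upwards [hA z hzb, h1 z hz] with w k1 k2
      exact ⟨k1.1, k1.2, k2.symm⟩
    · have hr : r < ‖z‖ := hχ.lt.trans_le hz
      filter_upwards [hA z hzb, SHa_gt hr, hU.mem_nhds (SHa_mem hχ hzb hr)] with w k1 k2 k3
      exact ⟨k1.1, k1.2, (hD w k3 k2).trans (hB w k2).symm⟩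

/-- `gd_dbE` at the points of `U`. -/
theorem er_wt {U : Set (E N)} (hU : IsOpen U) {a b r : ℝ} (hab : a ≤ b) {χ : E N → ℂ}
    (hχ : Chi U a b r χ) {j : ℤ} {q : ℕ} {γ : E N → Λ N} (h : ∀ z ∈ U, Gd j q γ z) (z : E N) :
    Wt (j + (q + 1 : ℕ)) (er a χ γ) z := by
  intro t ht
  have hn : ‖t • z‖ = ‖z‖ := by rw [norm_smul, ht, one_mul]
  rcases lt_or_ge ‖z‖ a with hz | hz
  · have hG : ∀ᶠ w in 𝓝 z, Gd j q (χ • γ) w := by
      filter_upwards [SHa_ev hU hχ (hz.le.trans hab)] with w hw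
      have hc : ∀ s : ℂ, ‖s‖ = 1 → χ (s • w) = χ w := fun s hs => by
        rw [hχ.wt w s hs, zpow_zero, one_smul]
      refine ⟨SHa_sm hχ (fun y hy => (h y hy).sm) hw, ?_, fun s hs => ?_⟩
      · rcases hw with hw | hw
        · exact Submodule.smul_mem _ _ (h w hw).ty
        · rw [Pi.smul_apply', hw.self_of_nhds, zero_smul]
          exact Submodule.zero_mem _
      · rw [Pi.smul_apply', Pi.smul_apply', hc s hs]
        rcases hw with hw | hw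
        · rw [(h w hw).wt s hs, smul_comm]
        · rw [hw.self_of_nhds, zero_smul, zero_smul, smul_zero]
    rw [SHa_in hz, SHa_in (hn.trans_lt hz)]
    exact (gd_dbE hG).self_of_nhds.wt t ht
  · rw [SHa_out hz, SHa_out (hz.trans hn.ge), smul_zero]

theorem er_sum {U : Set (E N)} (hU : IsOpen U) {a b r : ℝ} (hab : a ≤ b) {χ : E N → ℂ}
    (hχ : Chi U a b r χ) {ι : Type} [Fintype ι] {γ : ι → E N → Λ N}
    (h : ∀ i, ∀ z ∈ U, ContDiffAt ℝ ∞ (γ i) z) (c : ι → ℂ) :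
    er a χ (∑ i, c i • γ i) = ∑ i, c i • er a χ (γ i) := by
  funext z
  rw [Finset.sum_apply]
  rcases lt_or_ge ‖z‖ a with hz | hz
  · have hw := (SHa_ev hU hχ (hz.le.trans hab)).self_of_nhds
    have e : χ • ∑ i, c i • γ i = fun w => ∑ i, (c i • χ • γ i) w := by
      funext w
      rw [Pi.smul_apply', Finset.sum_apply, Finset.smul_sum]
      refine Finset.sum_congr rfl fun i _ => ?_
      rw [Pi.smul_apply, Pi.smul_apply, Pi.smul_apply', smul_comm]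
    rw [SHa_in hz, e, DF_db_sum]
    · refine Finset.sum_congr rfl fun i _ => ?_
      rw [dbE_smul, Pi.smul_apply, SHa_in hz]
    · intro i _
      exact ((SHa_sm hχ (h i) hw).differentiableAt (by simp)).const_smul (c i)
  · rw [SHa_out hz]
    refine (Finset.sum_eq_zero fun i _ => ?_).symm
    rw [Pi.smul_apply, SHa_out hz, smul_zero]

/-- If `er a χ γ = dbE g` with `g` supported in a smaller ball, then `χ • γ - g` is closed near the
closed ball and agrees with `γ` near the shell. -/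
theorem fill_of {U : Set (E N)} (hU : IsOpen U) {a b r r' : ℝ} (hab : a ≤ b) {χ : E N → ℂ}
    (hχ : Chi U a b r χ) {q : ℕ} {γ g : E N → Λ N} (h : ∀ z ∈ U, Cz q γ z) (hr : r' < a)
    (hg : ContDiff ℝ ∞ g) (ht : ∀ z, g z ∈ Tp N 0 q) (he : ∀ z, dbE g z = er a χ γ z)
    (h0 : ∀ z l, r' < ‖z l‖ → g z = 0) :
    ∃ γ' : E N → Λ N, (∀ᶠ z in 𝓝ˢ (Metric.closedBall (0 : E N) b), Cz q γ' z) ∧
      ∀ᶠ z in 𝓝ˢ (Sh N a b), γ' z = γ z := by
  refine ⟨χ • γ - g, ?_, eventually_nhdsSet_iff_forall.2 fun z hz => ?_⟩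
  · filter_upwards [(er_spec hU hab hχ h).2.2.2.2] with z hz
    refine ⟨hz.1.sub hg.contDiffAt, Submodule.sub_mem _ hz.2.1 (ht z), ?_⟩
    have e : χ • γ - g = χ • γ + (-1 : ℂ) • g := by rw [neg_one_smul, sub_eq_add_neg]
    have d1 : DifferentiableAt ℝ (χ • γ) z := hz.1.differentiableAt (by simp)
    have d2 : DifferentiableAt ℝ g z := hg.contDiffAt.differentiableAt (by simp)
    rw [e, dbE_add d1 (d2.const_smul _), dbE_smul, hz.2.2, he, neg_one_smul, add_neg_cancel]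
  · have hm : max r r' < ‖z‖ := (max_lt hχ.lt hr).trans_le hz.1
    filter_upwards [SHa_gt hm] with w hw
    obtain ⟨l, hl⟩ : ∃ l, max r r' < ‖w l‖ := by
      by_contra hc
      exact hw.not_ge ((pi_norm_le_iff_of_nonneg (hχ.pos.le.trans (le_max_left _ _))).2
        fun l => not_lt.1 fun k => hc ⟨l, k⟩)
    rw [Pi.sub_apply, Pi.smul_apply', hχ.one w ((le_max_left _ _).trans hw.le), one_smul,
      h0 w l ((le_max_right _ _).trans_lt hl), sub_zero]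

/-- The closed ball is a product of discs (`closedBall_pi`), so `dolbeault` applies. -/
theorem ball_exact {b : ℝ} (hb : 0 ≤ b) {q : ℕ} {γ : E N → Λ N}
    (h : ∀ᶠ z in 𝓝ˢ (Metric.closedBall (0 : E N) b), Cz (q + 1) γ z) :
    ∃ β : E N → Λ N, ContDiff ℝ ∞ β ∧ (∀ z, β z ∈ Tp N 0 q) ∧
      ∀ᶠ z in 𝓝ˢ (Metric.closedBall (0 : E N) b), dbE β z = γ z := by
  rw [closedBall_pi _ hb] at h ⊢
  exact dolbeault (fun _ => isCompact_closedBall _ _) (h.mono fun z hz => ⟨hz.sm, hz.ty, hz.cl⟩)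

end

end Pool.Agent.MP_1c689d_ag.K0.Fd

end

section

/-! Cohomology of a shell below the top degree. -/

set_option autoImplicit false

open Complex Filter Topology Set MeasureTheory MvPolynomial
open scoped ComplexConjugate ContDiff ENNReal

namespace Pool.Agent.MP_1c689d_ag.K0.Fd

noncomputable section

variable {N : ℕ}

theorem SH_scal : ∃ L : Λ N →L[ℂ] ℂ, ∀ c : ℂ, L (algebraMap ℂ (Λ N) c) = c := by
  refine ⟨LinearMap.toContinuousLinearMap ((bL N).coord ∅), fun c => ?_⟩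
  rw [LinearMap.coe_toContinuousLinearMap', Algebra.algebraMap_eq_smul_one, ← EA1a_empty, map_smul,
    Module.Basis.coord_apply, Module.Basis.repr_self, Finsupp.single_eq_same, smul_eq_mul, mul_one]

theorem SH_sub (a b : ℝ) : Sh N a b ⊆ Metric.closedBall (0 : E N) b := fun _ hz =>
  mem_closedBall_zero_iff.2 hz.2

theorem SH_iv (R : ℝ) : Iv (Metric.ball (0 : E N) R) := fun z hz t ht => by
  rw [mem_ball_zero_iff] at hz ⊢
  rwa [norm_smul, ht, one_mul]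

/-- `exists_chi`, `er_spec`, `csp` with `J = univ`, `U = univ`, `fill_of`. -/
theorem fill {q : ℕ} (hq : q + 1 < N) {a b : ℝ} (ha : 0 < a) (hab : a ≤ b) {γ : E N → Λ N}
    (h : ∀ᶠ z in 𝓝ˢ (Sh N a b), Cz q γ z) :
    ∃ γ' : E N → Λ N, (∀ᶠ z in 𝓝ˢ (Metric.closedBall (0 : E N) b), Cz q γ' z) ∧
      ∀ᶠ z in 𝓝ˢ (Sh N a b), γ' z = γ z := by
  obtain ⟨U, hU, hs, hp⟩ := eventually_nhdsSet_iff_exists.1 h
  obtain ⟨r, χ, hχ⟩ := exists_chi hU ha hs
  obtain ⟨h1, h2, h3, h4, -⟩ := er_spec hU hab hχ hp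
  have hc : HasCompactSupport (er a χ γ) :=
    HasCompactSupport.intro (isCompact_closedBall (0 : E N) r) fun z hz =>
      h4 z (not_le.1 fun h5 => hz (mem_closedBall_zero_iff.2 h5))
  have hr : r < (r + a) / 2 := by linarith [hχ.lt]
  have hr' : (r + a) / 2 < a := by linarith [hχ.lt]
  obtain ⟨g, g1, -, g2, g3, g4⟩ := csp (q := q) (J := Finset.univ)
    (by rwa [Finset.card_univ, Fintype.card_fin]) isOpen_univ (fun _ _ _ _ _ => mem_univ _) hr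
    h1 hc h2 (fun z _ => h3 z) fun z l _ hl => h4 z (hl.trans_le (norm_le_pi_norm z l))
  exact fill_of hU hab hχ hp hr' g1 g2 (fun z => g3 z (mem_univ z))
    fun z l hl => g4 z l (Finset.mem_univ l) hl

theorem sh_succ {q : ℕ} (hq : q + 2 < N) {a b : ℝ} (ha : 0 < a) (hab : a ≤ b) {γ : E N → Λ N}
    (h : ∀ᶠ z in 𝓝ˢ (Sh N a b), Cz (q + 1) γ z) :
    ∃ β : E N → Λ N, ContDiff ℝ ∞ β ∧ (∀ z, β z ∈ Tp N 0 q) ∧
      ∀ᶠ z in 𝓝ˢ (Sh N a b), dbE β z = γ z := by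
  obtain ⟨γ', h1, h2⟩ := fill (q := q + 1) hq ha hab h
  obtain ⟨β, b1, b2, b3⟩ := ball_exact (ha.le.trans hab) h1
  refine ⟨β, b1, b2, ?_⟩
  filter_upwards [b3.filter_mono (nhdsSet_mono (SH_sub a b)), h2] with z c1 c2
  rw [c1, c2]

/-- `sh_succ`, `iv_ev`, `av_exact`. -/
theorem bv_succ {q : ℕ} (hq : q + 2 < N) {a b : ℝ} (ha : 0 < a) (hab : a ≤ b) {j : ℤ}
    {γ : E N → Λ N} (h : ∀ᶠ z in 𝓝ˢ (Sh N a b), Gd j (q + 1) γ z ∧ dbE γ z = 0) :
    ∃ β : E N → Λ N, ∀ᶠ z in 𝓝ˢ (Sh N a b), Gd j q β z ∧ dbE β z = γ z := by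
  obtain ⟨β, b1, b2, b3⟩ := sh_succ hq ha hab (γ := γ)
    (h.mono fun z hz => ⟨hz.1.sm, hz.1.ty, hz.2⟩)
  obtain ⟨U, hU, hI, hs, hp⟩ := iv_ev (iv_sh a b)
    (p := fun z => Wt (j + (q + 1 : ℕ)) γ z ∧ ContDiffAt ℝ ∞ β z ∧ β z ∈ Tp N 0 q ∧
      dbE β z = γ z)
    ((h.and b3).mono fun z hz => ⟨hz.1.1.wt, b1.contDiffAt, b2 z, hz.2⟩)
  exact ⟨av (j + q) β, eventually_nhdsSet_iff_exists.2
    ⟨U, hU, hs, fun z hz => av_exact hU hI hp hz⟩⟩

/-- `fill` gives `γ'`, whose scalar part `f` is holomorphic on a ball of radius `R > b`;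
`av j f` is holomorphic of weight `j` there (`differentiableAt_av`, `wt_av`), so `hp` applies;
`av_congr`, `av_map`. -/
theorem sh_zero (hN : 1 < N) {a b : ℝ} (ha : 0 < a) (hab : a ≤ b) {γ : E N → Λ N}
    (h : ∀ᶠ z in 𝓝ˢ (Sh N a b), Cz 0 γ z) (j : ℤ) :
    ∃ g ∈ hz N j, ∀ z ∈ Sh N a b, av j γ z = algebraMap ℂ (Λ N) (eval z g) := by
  obtain ⟨γ', h1, h2⟩ := fill (q := 0) (by omega) ha hab h
  obtain ⟨U, hU, hs, hpU⟩ := eventually_nhdsSet_iff_exists.1 h1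
  obtain ⟨δ, hδ, hsub⟩ := (isCompact_closedBall (0 : E N) b).exists_thickening_subset_open hU hs
  have hb : 0 ≤ b := ha.le.trans hab
  rw [thickening_closedBall hδ hb] at hsub
  obtain ⟨L, hL⟩ := SH_scal (N := N)
  have hd : ∀ z ∈ Metric.ball (0 : E N) (δ + b), DifferentiableAt ℂ (fun y => L (γ' y)) z := by
    intro z hz
    have c := hpU z (hsub hz)
    have c1 : ∀ᶠ w in 𝓝 z, γ' w ∈ Tp N 0 0 :=
      eventually_of_mem (hU.mem_nhds (hsub hz)) fun w hw => (hpU w hw).ty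
    exact L.differentiableAt.comp z (differentiableAt_of_pzb
      (c.sm.differentiableAt (by simp)) ((dbE_eq_zero_iff c1).1 c.cl))
  obtain ⟨g, hg, he⟩ := hp (j := j) (f := av j fun y => L (γ' y)) (R := δ + b) (by linarith)
    fun z hz => ⟨differentiableAt_av j Metric.isOpen_ball (SH_iv _) hd hz, wt_av j _ z⟩
  refine ⟨g, hg, fun z hz => ?_⟩
  have hm : ∀ w ∈ Sh N a b, w ∈ Metric.ball (0 : E N) (δ + b) := fun w hw =>
    mem_ball_zero_iff.2 (by linarith [hw.2])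
  rw [← he z (hm z hz)]
  have e := av_map (algebraMapCLM ℂ (Λ N)) j (γ := fun y => L (γ' y)) (z := z)
    fun t ht => (hd _ (hm _ (iv_sh a b z hz t ht))).continuousAt
  rw [algebraMapCLM_apply] at e
  rw [e]
  refine av_congr j fun t ht => ?_
  have hw := iv_sh a b z hz t ht
  obtain ⟨c, hc⟩ := mem_Tp00.1 (hpU _ (hsub (hm _ hw))).ty
  rw [← h2.self_of_nhdsSet _ hw, algebraMapCLM_apply, hc, hL]

end

end Pool.Agent.MP_1c689d_ag.K0.Fd

end

section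

/-! Cohomology of a shell in top degree. -/

set_option autoImplicit false

open Complex Filter Topology Set MeasureTheory MvPolynomial
open scoped ComplexConjugate ContDiff ENNReal

namespace Pool.Agent.MP_1c689d_ag.K0.Fd

noncomputable section

variable {N : ℕ}

theorem SHT_top : ∃ v : Λ N, ∀ x ∈ Tp N 0 N, x = top (pdz N * x) • v := by
  obtain ⟨v, hv, e⟩ := (prod_dz_bij (n := N) (q := N)).surjOn (vol_mem (n := N))
  refine ⟨v, fun x hx => (prod_dz_bij (n := N) (q := N)).injOn hx (Submodule.smul_mem _ _ hv) ?_⟩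
  have e' : pdz N * v = vol N := e
  show pdz N * x = pdz N * (top (pdz N * x) • v)
  rw [mul_smul_comm, e']
  exact eq_top_smul ((prod_dz_bij (n := N) (q := N)).mapsTo hx)

theorem SHT_sum {j : ℤ} {q : ℕ} {σ : Type} [Fintype σ] {γ : σ → E N → Λ N} {z : E N}
    (h : ∀ s, Gd j q (γ s) z ∧ dbE (γ s) z = 0) (c : σ → ℂ) :
    Gd j q (∑ s, c s • γ s) z ∧ dbE (∑ s, c s • γ s) z = 0 := by
  have e : (∑ s, c s • γ s) = fun w => ∑ s, (c s • γ s) w := funext fun w => Finset.sum_apply _ _ _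
  rw [e]
  refine ⟨⟨ContDiffAt.sum fun s _ => (h s).1.sm.const_smul (c s),
    Submodule.sum_mem _ fun s _ => Submodule.smul_mem _ _ (h s).1.ty, fun t ht => ?_⟩, ?_⟩
  · rw [Finset.smul_sum]
    refine Finset.sum_congr rfl fun s _ => ?_
    rw [Pi.smul_apply, Pi.smul_apply, (h s).1.wt t ht, smul_comm]
  · rw [DF_db_sum _ _ fun s _ => ((h s).1.sm.differentiableAt (by simp)).const_smul (c s)]
    exact Finset.sum_eq_zero fun s _ => by rw [dbE_smul, (h s).2, smul_zero]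

theorem SHT_cs {W : Type} [Zero W] {r : ℝ} {f : E N → W} (h : ∀ z, r < ‖z‖ → f z = 0) :
    HasCompactSupport f :=
  HasCompactSupport.intro (isCompact_closedBall (0 : E N) r) fun z hz =>
    h z (by simpa using hz)

theorem SHT_int {r : ℝ} {f : E N → Λ N} (hf : Continuous f) (h : ∀ z, r < ‖z‖ → f z = 0)
    (g : P N) : Integrable fun z => eval z g * top (pdz N * f z) := by
  refine Continuous.integrable_of_hasCompactSupport ?_ (SHT_cs (r := r) fun z hz => ?_)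
  · exact (MvPolynomial.continuous_eval g).mul
      ((top : Λ N →ₗ[ℂ] ℂ).continuous_of_finiteDimensional.comp (continuous_const.mul hf))
  · rw [h z hz, mul_zero, map_zero, mul_zero]

theorem SHT_pair {w : ℤ} {r : ℝ} (hr : 0 < r) {f : E N → Λ N} (hf : Continuous f)
    (hs : ∀ z, r < ‖z‖ → f z = 0) (ht : ∀ z, f z ∈ Tp N 0 N) (hw : ∀ z, Wt w f z)
    (h0 : ∀ g ∈ hz N (-w), ∫ z, eval z g * top (pdz N * f z) = 0) {h : E N → ℂ}
    (hh : Continuous h)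
    (hd : ∀ z : E N, (∀ l, ‖z l‖ ≤ r) → ∀ᶠ y in 𝓝 z, DifferentiableAt ℂ h y) :
    ∫ z, h z • f z = 0 := by
  obtain ⟨δ, hδ, hsub⟩ := (isCompact_closedBall (0 : E N) r).exists_thickening_subset_open
    (isOpen_setOfPred_eventually_nhds (p := fun y => DifferentiableAt ℂ h y))
    fun z hz => hd z fun l => (norm_le_pi_norm z l).trans (mem_closedBall_zero_iff.1 hz)
  rw [thickening_closedBall hδ hr.le] at hsub
  have hI : Iv (Metric.ball (0 : E N) (δ + r)) := fun z hz t ht => by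
    rw [mem_ball_zero_iff] at hz ⊢
    rwa [norm_smul, ht, one_mul]
  obtain ⟨g, hg, e⟩ := hp (j := -w) (f := av (-w) h) (add_pos hδ hr) fun z hz =>
    ⟨differentiableAt_av _ Metric.isOpen_ball hI (fun y hy => (hsub hy).self_of_nhds) hz,
      wt_av _ _ _⟩
  obtain ⟨v, hv⟩ := SHT_top (N := N)
  have k : ∀ z, av (-w) h z • f z = (eval z g * top (pdz N * f z)) • v := fun z => by
    rw [mul_smul, ← hv _ (ht z)]
    by_cases hz : r < ‖z‖
    · rw [hs z hz, smul_zero, smul_zero]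
    · rw [e z (mem_ball_zero_iff.2 (by linarith [not_lt.1 hz]))]
  rw [av_pair hf (SHT_cs hs) hw hh]
  simp only [k]
  rw [integral_smul_const, h0 g hg, zero_smul]

/-- Take an invariant open `U` on which the hypotheses hold (`iv_ev`), `χ` from `exists_chi`,
`f s = er a χ (γ s)`, of type `(0, N)` and weight `j + N`, and
`M c g = ∑ s, c s * ∫ z, eval z g * top (pdz N * f s z)`. Let `M c = 0`, `f = ∑ s, c s • f s`. For `h`
smooth and holomorphic near the closed ball of radius `r`, `av_pair` and `hp` give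
`∫ h • f = ∫ eval z g • f z` for some `g`; this element `v` of `Tp N 0 N` has `top (pdz N * v) = 0`, so it
is zero (`eq_top_smul`, `prod_dz_bij`). Then `top_ex`, `er_sum`, `fill_of`, `ball_exact`,
`av_exact`. -/
theorem bv_top {q : ℕ} (hq : q + 2 = N) {a b : ℝ} (ha : 0 < a) (hab : a ≤ b) {j : ℤ} {σ : Type}
    [Fintype σ] {γ : σ → E N → Λ N}
    (h : ∀ s, ∀ᶠ z in 𝓝ˢ (Sh N a b), Gd j (q + 1) (γ s) z ∧ dbE (γ s) z = 0) :
    ∃ M : (σ → ℂ) →ₗ[ℂ] Module.Dual ℂ (hz N (-j - N)), ∀ c, M c = 0 →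
      ∃ β : E N → Λ N, ∀ᶠ z in 𝓝ˢ (Sh N a b), Gd j q β z ∧ dbE β z = ∑ s, c s • γ s z := by
  obtain ⟨U, hU, -, hs, hγ⟩ := iv_ev (iv_sh a b) (eventually_all.2 h)
  obtain ⟨r, χ, hχ⟩ := exists_chi hU ha hs
  have hf := fun s => er_spec hU hab hχ (q := q + 1) (γ := γ s) fun z hz =>
    ⟨(hγ z hz s).1.sm, (hγ z hz s).1.ty, (hγ z hz s).2⟩
  have hi := fun s g => SHT_int (hf s).1.continuous (hf s).2.2.2.1 g
  let m : σ → Module.Dual ℂ (hz N (-j - N)) := fun s =>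
    { toFun := fun g => ∫ z, eval z g.1 * top (pdz N * er a χ (γ s) z)
      map_add' := fun g g' => by
        rw [← integral_add (hi s _) (hi s _)]
        simp only [Submodule.coe_add, map_add, add_mul]
      map_smul' := fun t g => by
        rw [RingHom.id_apply, smul_eq_mul, ← integral_const_mul]
        simp only [Submodule.coe_smul, smul_eval, mul_assoc] }
  refine ⟨Fintype.linearCombination ℂ m, fun c hc => ?_⟩
  have hΓ := fun z hz => SHT_sum (hγ z hz) c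
  have hC : ∀ z ∈ U, Cz (q + 1) (∑ s, c s • γ s) z := fun z hz =>
    ⟨(hΓ z hz).1.sm, (hΓ z hz).1.ty, (hΓ z hz).2⟩
  obtain ⟨F1, F2, -, F4, -⟩ := er_spec hU hab hχ hC
  have hN : q + 1 + 1 = N := hq
  have hw := er_wt hU hab hχ fun z hz => (hΓ z hz).1
  rw [hN] at hw
  have hr : r < (r + a) / 2 := by linarith [hχ.lt]
  obtain ⟨g, g1, g2, g3, g4⟩ := top_ex hN hr F1 F2
    (fun z l hl => F4 z (hl.trans_le (norm_le_pi_norm z l))) fun u hu hd => by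
      refine SHT_pair hχ.pos F1.continuous F4 (fun z => hN ▸ F2 z) hw (fun g hg => ?_)
        hu.continuous hd
      have hg' : g ∈ hz N (-j - N) := by rwa [neg_add, ← sub_eq_add_neg] at hg
      have k := LinearMap.congr_fun hc ⟨g, hg'⟩
      rw [Fintype.linearCombination_apply, LinearMap.sum_apply, LinearMap.zero_apply] at k
      rw [← k, er_sum hU hab hχ fun s z hz => (hγ z hz s).1.sm]
      have e : ∀ z, eval z g * top (pdz N * (∑ s, c s • er a χ (γ s)) z) =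
          ∑ s, c s * (eval z g * top (pdz N * er a χ (γ s) z)) := fun z => by
        rw [Finset.sum_apply, Finset.mul_sum, map_sum, Finset.mul_sum]
        refine Finset.sum_congr rfl fun s _ => ?_
        rw [Pi.smul_apply, mul_smul_comm, map_smul, smul_eq_mul, mul_left_comm]
      simp only [e]
      rw [integral_finsetSum _ fun s _ => (hi s g).const_mul _]
      exact Finset.sum_congr rfl fun s _ => integral_const_mul _ _
  obtain ⟨γ', c1, c2⟩ := fill_of hU hab hχ hC (by linarith [hχ.lt] : (r + a) / 2 < a) g1 g2 g3 g4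
  obtain ⟨β, b1, b2, b3⟩ := ball_exact (ha.le.trans hab) c1
  have b4 : ∀ᶠ z in 𝓝ˢ (Sh N a b), dbE β z = γ' z :=
    b3.filter_mono (nhdsSet_mono fun z hz => mem_closedBall_zero_iff.2 hz.2)
  have k : ∀ᶠ z in 𝓝ˢ (Sh N a b), Wt (j + (q + 1 : ℕ)) (∑ s, c s • γ s) z ∧
      ContDiffAt ℝ ∞ β z ∧ β z ∈ Tp N 0 q ∧ dbE β z = (∑ s, c s • γ s) z := by
    filter_upwards [b4, c2, hU.mem_nhdsSet.2 hs] with z h1 h2 h3
    exact ⟨(hΓ z h3).1.wt, b1.contDiffAt, b2 z, h1.trans h2⟩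
  obtain ⟨U', hU', hI', hs', hk⟩ := iv_ev (iv_sh a b) k
  refine ⟨av (j + q) β, ?_⟩
  filter_upwards [hU'.mem_nhdsSet.2 hs'] with z hz
  have := av_exact hU' hI' hk hz
  exact ⟨this.1, this.2.trans (Finset.sum_apply _ _ _)⟩

end

end Pool.Agent.MP_1c689d_ag.K0.Fd

end

section

/-! Vanishing and the bound in top degree. -/

set_option autoImplicit false

open Complex Filter Topology Set MeasureTheory MvPolynomial
open scoped ComplexConjugate ContDiff ENNReal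

namespace Pool.Agent.MP_1c689d_ag.K0.Fd

noncomputable section

variable {n m c r : ℕ} {X : Type} [TopologicalSpace X] [Mf n X] {Q : PD m (n + 1) c r}
  {Pts : Finset (Fin (n + 1) → ℂ)} {x : X → Fin m → ℂ}
  {a : ℕ} {e : Q.b.ι → ℤ} {ρ : Q.b.ι → Fm n X}

theorem VAN_lfp (hL : LFP Q ∅ x a e ρ) (k : ℤ) {q : ℕ} {s₁ s₂ : ℝ} (h₁ : 0 < s₁)
    (hs : ∀ p, Yv x Q.yi p ∈ Sh (n + 1) s₁ s₂) {α : Fm n X} (hα : Sm (gx x ^ k) α univ)
    (ht : Ty a (q + 1) α) (hc : dbar (gx x ^ k) α = 0) :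
    ∃ (b : Q.b.ι → E (n + 1) → Λ (n + 1)) (β : Fm n X),
      (∀ i, ∀ᶠ z in 𝓝ˢ (Sh (n + 1) s₁ s₂), Gd (k - e i) (q + 1) (b i) z ∧ dbE (b i) z = 0) ∧
      Sm (gx x ^ k) β univ ∧ Ty a q β ∧ α = uu Q x ρ b + dbar (gx x ^ k) β := by
  obtain ⟨b, β, hb, hβ⟩ := hL k q s₁ s₂ _ h₁ hs (isCompact_sh _ _) subset_rfl
    (fun _ _ => inter_subset_right) (fun _ _ u hu => absurd hu (Finset.notMem_empty u)) α
    (fun p _ => ⟨hα p trivial, .of_forall fun y => ⟨ht y, congrFun hc y⟩⟩)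
  exact ⟨b, β, hb, fun p _ => (hβ p (hs p)).1, fun p => (hβ p (hs p)).2.self_of_nhds.1,
    funext fun p => (hβ p (hs p)).2.self_of_nhds.2⟩

theorem VAN_exact (h : FD Q ∅ x) (hF : Fr Q ∅ x a e ρ) {k : ℤ} {q : ℕ} {s₁ s₂ : ℝ}
    (hs : ∀ p, Yv x Q.yi p ∈ Sh (n + 1) s₁ s₂) {b b' : Q.b.ι → E (n + 1) → Λ (n + 1)}
    (hb : ∀ i, ∀ᶠ z in 𝓝ˢ (Sh (n + 1) s₁ s₂), Gd (k - e i) q (b' i) z ∧ dbE (b' i) z = b i z) :
    Sm (gx x ^ k) (uu Q x ρ b') univ ∧ Ty a q (uu Q x ρ b') ∧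
      dbar (gx x ^ k) (uu Q x ρ b') = uu Q x ρ b := by
  have H := fun p : X =>
    uu_exact (p := p) h hF (by rw [PD.O_empty]; trivial) (iv_sh s₁ s₂) (hs p) hb
  exact ⟨fun p _ => (H p).1, fun p => (H p).2.self_of_nhds.1,
    funext fun p => (H p).2.self_of_nhds.2⟩

theorem VAN_ker {ι σ : Type} [Fintype ι] [Fintype σ] {V : ι → Type} [∀ i, AddCommGroup (V i)]
    [∀ i, Module ℂ (V i)] [∀ i, FiniteDimensional ℂ (V i)]
    (M : ∀ i, (σ → ℂ) →ₗ[ℂ] Module.Dual ℂ (V i))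
    (h : ∑ i, Module.finrank ℂ (V i) < Fintype.card σ) : ∃ w, w ≠ 0 ∧ ∀ i, M i w = 0 := by
  have hlt : Module.finrank ℂ (∀ i, Module.Dual ℂ (V i)) < Module.finrank ℂ (σ → ℂ) := by
    rw [Module.finrank_pi_fintype, Module.finrank_fintype_fun_eq_card]
    simpa only [Subspace.dual_finrank_eq] using h
  obtain ⟨w, hw, h0⟩ := (Submodule.ne_bot_iff _).1
    (LinearMap.ker_ne_bot_of_finrank_lt (f := LinearMap.pi M) hlt)
  exact ⟨w, h0, fun i => congrFun (LinearMap.mem_ker.1 hw) i⟩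

/-- `LFP` for the whole shell (`exists_sh`), `bv_succ`, `uu_exact`. -/
theorem Fr.van (h : FD Q ∅ x) (hF : Fr Q ∅ x a e ρ) (hL : LFP Q ∅ x a e ρ) (k : ℤ) {q : ℕ}
    (hq : q + 1 < n) : DbV n (gx x ^ k) a q := by
  intro α hα ht hc
  obtain ⟨s₁, s₂, h₁, h₁₂, hs⟩ := exists_sh h
  obtain ⟨b, β, hb, hβ, hty, he⟩ := VAN_lfp hL k h₁ hs hα ht hc
  choose b' hb' using fun i => bv_succ (q := q) (by omega) h₁ h₁₂ (hb i)
  obtain ⟨u₁, u₂, u₃⟩ := VAN_exact h hF hs hb'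
  refine ⟨uu Q x ρ b' + β, fun p _ => (u₁ p trivial).add (hβ p trivial),
    fun p => add_mem (u₂ p) (hty p), funext fun p => ?_⟩
  rw [dbar_add (u₁ p trivial) (hβ p trivial), u₃, he, Pi.add_apply]

/-- All forms of type (a, n) are closed. `LFP` for each `α s`, `bv_top` for each `i`; the product of
the maps `M i` has a non-zero kernel by the dimension count
(`LinearMap.ker_ne_bot_of_finrank_lt`, `Subspace.dual_finrank_eq`, `Module.finrank_pi_fintype`);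
`uu_exact`, `uu_sum`. -/
theorem Fr.top (h : FD Q ∅ x) (hF : Fr Q ∅ x a e ρ) (hL : LFP Q ∅ x a e ρ) (k : ℤ) {q : ℕ}
    (hq : q + 1 = n) : TB n (gx x ^ k) a q
      (∑ i, Module.finrank ℂ (hz (n + 1) (-(k - e i) - (n + 1 : ℕ)))) := by
  intro σ _ α hd hα
  obtain ⟨s₁, s₂, h₁, h₁₂, hs⟩ := exists_sh h
  have hc : ∀ s, dbar (gx x ^ k) (α s) = 0 := fun s => funext fun p => by
    have := (hα s).2.dbar (G := gx x ^ k) p
    rwa [Tp_eq_bot (Or.inr (by omega)), Submodule.mem_bot] at this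
  choose b β hb hβ hty he using fun s => VAN_lfp hL k h₁ hs (hα s).1 (hα s).2 (hc s)
  choose M hM using fun i =>
    bv_top (q := q) (N := n + 1) (by omega) h₁ h₁₂ (γ := fun s => b s i) fun s => hb s i
  obtain ⟨w, hw, h0⟩ := VAN_ker M hd
  choose b' hb' using fun i => hM i w (h0 i)
  obtain ⟨u₁, u₂, u₃⟩ := VAN_exact (b := ∑ s, w s • b s) h hF hs fun i =>
    (hb' i).mono fun z hz => ⟨hz.1, by simpa only [Finset.sum_apply, Pi.smul_apply] using hz.2⟩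
  have hsm : ∀ p, ∀ s ∈ Finset.univ, SmAt (gx x ^ k) (w s • β s) p :=
    fun p s _ => (hβ s p trivial).smul (w s)
  refine ⟨w, uu Q x ρ b' + ∑ s, w s • β s, hw, fun p _ => (u₁ p trivial).add (SmAt.sum (hsm p)),
    fun p => add_mem (u₂ p) ?_, funext fun p => ?_⟩
  · rw [Finset.sum_apply]
    exact Submodule.sum_mem _ fun s _ => Submodule.smul_mem _ _ (hty s p)
  · rw [dbar_add (u₁ p trivial) (SmAt.sum (hsm p)), dbar_sum (hsm p), u₃, uu_sum,
      Finset.sum_apply, Finset.sum_apply, ← Finset.sum_add_distrib]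
    refine Finset.sum_congr rfl fun s _ => ?_
    rw [dbar_smul, he s, smul_add, Pi.add_apply]

end

end Pool.Agent.MP_1c689d_ag.K0.Fd

end

section

/-! Cohomology of a shell with holes. -/

set_option autoImplicit false

open Complex Filter Topology Set MeasureTheory MvPolynomial
open scoped ComplexConjugate ContDiff ENNReal

namespace Pool.Agent.MP_1c689d_ag.K0.Fd

noncomputable section

variable {N : ℕ}

theorem HV_sh_mono {a b a' b' : ℝ} (ha : a' ≤ a) (hb : b ≤ b') : Sh N a b ⊆ Sh N a' b' :=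
  fun _ hz => ⟨ha.trans hz.1, hz.2.trans hb⟩

theorem HV_ind (H : HS N) (S : Finset (E N × Fin N)) (hS : S ⊆ H.S) : ∀ a b : ℝ, 0 < a → a ≤ b →
    ∃ κ a' b' : ℝ, 1 ≤ κ ∧ 0 < a' ∧ a' ≤ a ∧ b ≤ b' ∧ ∀ q : ℕ, q + 2 < N → ∀ ε : ℝ, 0 < ε →
      κ * ε ≤ H.e0 → ∀ γ : E N → Λ N,
      (∀ᶠ z in 𝓝ˢ (Sh N a' b' ∩ {z | ∀ s ∈ S, z ∉ Ho s.1 s.2 ε}), Cz q γ z) →
      ∃ γ' : E N → Λ N, (∀ᶠ z in 𝓝ˢ (Sh N a b), Cz q γ' z) ∧
        ∀ z ∈ Sh N a b ∩ {z | ∀ s ∈ S, z ∉ Ho s.1 s.2 (κ * ε)}, γ' =ᶠ[𝓝 z] γ := by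
  classical
  induction S using Finset.induction_on with
  | empty =>
    intro a b ha hab
    refine ⟨1, a, b, le_rfl, ha, le_rfl, le_rfl, fun q _ ε _ _ γ h => ⟨γ, ?_, fun _ _ => ?_⟩⟩
    · exact h.filter_mono (nhdsSet_mono (subset_inter Subset.rfl fun z _ s hs =>
        absurd hs (by simp)))
    · exact EventuallyEq.rfl
  | insert s S hs ih =>
    intro a b ha hab
    obtain ⟨κ, a', b', h1, h2, h3, h4, h5⟩ :=
      ih (fun x hx => hS (Finset.mem_insert_of_mem hx)) a b ha hab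
    have hab' : a' ≤ b' := h3.trans (hab.trans h4)
    refine ⟨max κ (16 * b' / a'), a' / 4, 4 * b', h1.trans (le_max_left _ _), by positivity,
      by linarith, by linarith, fun q hq ε hε he γ h => ?_⟩
    have e1 : κ * ε ≤ max κ (16 * b' / a') * ε :=
      mul_le_mul_of_nonneg_right (le_max_left _ _) hε.le
    have e2 : 16 * b' / a' * ε ≤ max κ (16 * b' / a') * ε :=
      mul_le_mul_of_nonneg_right (le_max_right _ _) hε.le
    have e3 : ε ≤ κ * ε := le_mul_of_one_le_left hε.le h1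
    have hsS : s ∈ H.S := hS (Finset.mem_insert_self _ _)
    obtain ⟨γ₁, k1, k2⟩ := hole_one hq (H.nrm s hsS).1 (H.nrm s hsS).2 h2 hab' hε
      (e2.trans (he.trans H.le)) (Z := {z | ∃ s' ∈ S, z ∈ Ho s'.1 s'.2 ε}) (γ := γ)
      (Set.disjoint_left.2 fun z ⟨s', hs', hz⟩ hz' =>
        Set.disjoint_left.1 (H.dis s' (hS (Finset.mem_insert_of_mem hs')) s hsS
          fun e => hs (e ▸ hs')) (ho_mono _ _ (e3.trans (e1.trans he)) hz)
          (ho_mono _ _ (e2.trans he) hz'))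
      (h.filter_mono (nhdsSet_mono (subset_inter (fun z hz => hz.1.1) fun z hz s' hs' hz' => by
        rcases Finset.mem_insert.1 hs' with e | e
        · exact hz.2 (e ▸ hz')
        · exact hz.1.2 ⟨s', e, hz'⟩)))
    obtain ⟨γ', k3, k4⟩ := h5 q hq ε hε (e1.trans he) γ₁
      (k1.filter_mono (nhdsSet_mono fun z hz =>
        (mem_sdiff z).2 ⟨hz.1, fun hn => hn.elim fun s' hs' => hz.2 s' hs'.1 hs'.2⟩))
    refine ⟨γ', k3, fun z hz => (k4 z ⟨hz.1, fun s' hs' hz' => ?_⟩).trans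
      (k2 z ⟨HV_sh_mono h3 h4 hz.1, fun hz' => ?_⟩)⟩
    · exact hz.2 s' (Finset.mem_insert_of_mem hs') (ho_mono _ _ e1 hz')
    · exact hz.2 s (Finset.mem_insert_self _ _) (ho_mono _ _ e2 hz')

/-- Induction on a finite subset `S'` of `H.S` (`Finset.induction_on`), for all `a`, `b` at once:
for `insert s S''` take `κ''`, `a''`, `b''` for `S''`, apply `hole_one` with `a''`, `b''` and `Z` the
union of the holes `Ho _ _ ε` of `S''`; `κ = max κ'' (16 * b'' / a'')`, `a' = a'' / 4`,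
`b' = 4 * b''`. -/
theorem holes (H : HS N) {a b : ℝ} (ha : 0 < a) (hab : a ≤ b) :
    ∃ κ a' b' : ℝ, 1 ≤ κ ∧ 0 < a' ∧ a' ≤ a ∧ b ≤ b' ∧ ∀ q : ℕ, q + 2 < N → ∀ ε : ℝ, 0 < ε →
      κ * ε ≤ H.e0 → ∀ γ : E N → Λ N, (∀ᶠ z in 𝓝ˢ (H.T ε a' b'), Cz q γ z) →
      ∃ γ' : E N → Λ N, (∀ᶠ z in 𝓝ˢ (Sh N a b), Cz q γ' z) ∧
        ∀ z ∈ H.T (κ * ε) a b, γ' =ᶠ[𝓝 z] γ := by
  exact HV_ind H H.S (Finset.Subset.refl _) a b ha hab

theorem HS.iv_T (H : HS N) (ε a b : ℝ) : Iv (H.T ε a b) := by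
  refine (iv_sh a b).inter fun z hz t ht => H.U_smul hz fun e => ?_
  rw [e, norm_zero] at ht
  exact zero_ne_one ht

/-- `holes` for `algebraMap ∘ g` (`gd_of_hm`), `sh_zero`, `av_congr`, `av_of_wt`. -/
theorem hv_zero (hN : 2 < N) (H : HS N) {a b : ℝ} (ha : 0 < a) (hab : a ≤ b) :
    ∃ κ : ℝ, 1 ≤ κ ∧ ∀ ε : ℝ, 0 < ε → κ * ε ≤ H.e0 → ∀ (j : ℤ) (U : Set (E N)) (g : E N → ℂ),
      Cn U → Hm j U g → (∀ z ∈ H.U ε, z ≠ 0 → z ∈ U) →
      ∃ f ∈ hz N j, ∀ z ∈ H.T (κ * ε) a b, g z = eval z f := by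
  obtain ⟨κ, a', b', h1, h2, -, -, h5⟩ := holes H ha hab
  refine ⟨κ, h1, fun ε hε he j U g hU hg hs => ?_⟩
  obtain ⟨γ', k1, k2⟩ := h5 0 (by omega) ε hε he (fun w => algebraMap ℂ (Λ N) (g w)) (by
    have hm : U ∈ 𝓝ˢ (H.T ε a' b') :=
      hU.1.mem_nhdsSet.2 fun z hz => hs z hz.2 (Sh.ne_zero h2 hz.1)
    filter_upwards [hm] with z hz
    exact ⟨(gd_of_hm hU hg hz).1.sm, (gd_of_hm hU hg hz).1.ty, (gd_of_hm hU hg hz).2⟩)
  obtain ⟨f, hf, k3⟩ := sh_zero (by omega) ha hab k1 j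
  refine ⟨f, hf, fun z hz => ?_⟩
  have hzU : z ∈ U := hs z (H.U_mono (le_mul_of_one_le_left hε.le h1) hz.2) (Sh.ne_zero ha hz.1)
  have hw := (gd_of_hm hU hg hzU).1.wt
  rw [Nat.cast_zero, add_zero] at hw
  have e := k3 z hz.1
  rw [av_congr (γ' := fun w => algebraMap ℂ (Λ N) (g w)) j fun t ht =>
    (k2 _ (H.iv_T _ a b z hz t ht)).eq_of_nhds, av_of_wt hw] at e
  exact algebraMap_inj e

/-- `holes`, `sh_succ`, `iv_ev`, `av_exact`. -/
theorem hv_succ (H : HS N) {a b : ℝ} (ha : 0 < a) (hab : a ≤ b) :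
    ∃ κ a' b' : ℝ, 1 ≤ κ ∧ 0 < a' ∧ a' ≤ a ∧ b ≤ b' ∧ ∀ q : ℕ, q + 3 < N → ∀ ε : ℝ, 0 < ε →
      κ * ε ≤ H.e0 → ∀ (j : ℤ) (γ : E N → Λ N),
      (∀ᶠ z in 𝓝ˢ (H.T ε a' b'), Gd j (q + 1) γ z ∧ dbE γ z = 0) →
      ∃ β : E N → Λ N, ∀ᶠ z in 𝓝ˢ (H.T (κ * ε) a b), Gd j q β z ∧ dbE β z = γ z := by
  obtain ⟨κ, a', b', h1, h2, h3, h4, h5⟩ := holes H ha hab
  refine ⟨κ, a', b', h1, h2, h3, h4, fun q hq ε hε he j γ h => ?_⟩
  obtain ⟨γ', k1, k2⟩ := h5 (q + 1) (by omega) ε hε he γ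
    (h.mono fun z hz => ⟨hz.1.sm, hz.1.ty, hz.2⟩)
  obtain ⟨β, b1, b2, b3⟩ := sh_succ (by omega) ha hab k1
  have hsub : H.T (κ * ε) a b ⊆ H.T ε a' b' := fun z hz =>
    ⟨HV_sh_mono h3 h4 hz.1, H.U_mono (le_mul_of_one_le_left hε.le h1) hz.2⟩
  have k3 : ∀ᶠ z in 𝓝ˢ (H.T (κ * ε) a b), γ' z = γ z := eventually_nhdsSet_iff_forall.2 k2
  obtain ⟨U, u1, u2, u3, u4⟩ := iv_ev (H.iv_T (κ * ε) a b)
    (p := fun z => Wt (j + (q + 1 : ℕ)) γ z ∧ ContDiffAt ℝ ∞ β z ∧ β z ∈ Tp N 0 q ∧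
      dbE β z = γ z) (by
      filter_upwards [h.filter_mono (nhdsSet_mono hsub),
        b3.filter_mono (nhdsSet_mono (inter_subset_left : H.T (κ * ε) a b ⊆ Sh N a b)), k3]
        with z z1 z2 z3
      exact ⟨z1.1.wt, b1.contDiffAt, b2 z, z2.trans z3⟩)
  refine ⟨av (j + q) β, ?_⟩
  filter_upwards [u1.mem_nhdsSet.2 u3] with z hz
  exact av_exact u1 u2 u4 hz

end

end Pool.Agent.MP_1c689d_ag.K0.Fd

end
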