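import Pool.Agent.Mg.F1c689d.G9a22e1

set_option linter.all false


set_option autoImplicit false

namespace Pool.Agent.MP_1c689d_ag.FP

noncomputable section

open Polynomial

/-! Polynomial identities (all by `ring`). -/

variable {k : Type} [Field k]

end

end Pool.Agent.MP_1c689d_ag.FP
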