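import Pool.Agent.Mg.F1c689d.G71e32b

set_option linter.all false


section

/-! Derivations with values in a module. -/

set_option autoImplicit false

open MvPolynomial

namespace Pool.Agent.MP_1c689d_ag.K0.Al

noncomputable section

variable {m : ℕ} {N : Type} [AddCommGroup N] [Module (P m) N]

theorem dv_add_left (g g' : Fin m → N) (h : P m) : dv (fun l => g l + g' l) h = dv g h + dv g' h := by
  simp only [dv, smul_add, Finset.sum_add_distrib]

theorem dv_sub_left (g g' : Fin m → N) (h : P m) : dv (fun l => g l - g' l) h = dv g h - dv g' h := by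
  simp only [dv, smul_sub, Finset.sum_sub_distrib]

theorem dv_smul_left (u : P m) (g : Fin m → N) (h : P m) : dv (fun l => u • g l) h = u • dv g h := by
  simp only [dv, Finset.smul_sum, smul_comm u]

theorem dv_csmul_left [Module ℂ N] [IsScalarTower ℂ (P m) N] (t : ℂ) (g : Fin m → N) (h : P m) :
    dv (fun l => t • g l) h = t • dv g h := by
  simp only [dv, Finset.smul_sum]
  refine Finset.sum_congr rfl fun l _ => ?_
  rw [← algebraMap_smul (P m) t, ← algebraMap_smul (P m) t, smul_comm]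

theorem dv_zero_left (h : P m) : dv (fun _ : Fin m => (0 : N)) h = 0 := by
  simp only [dv, smul_zero, Finset.sum_const_zero]

theorem dv_add (g : Fin m → N) (h h' : P m) : dv g (h + h') = dv g h + dv g h' := by
  simp only [dv, map_add, add_smul, Finset.sum_add_distrib]

theorem dv_C (g : Fin m → N) (t : ℂ) : dv g (C t) = 0 := by
  simp only [dv, pderiv_C, zero_smul, Finset.sum_const_zero]

theorem dv_mul (g : Fin m → N) (h h' : P m) : dv g (h * h') = h • dv g h' + h' • dv g h := by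
  simp only [dv, Derivation.leibniz, smul_eq_mul, add_smul, Finset.sum_add_distrib,
    Finset.smul_sum, mul_smul]

theorem dv_C_mul (g : Fin m → N) (t : ℂ) (h : P m) : dv g (C t * h) = (C t : P m) • dv g h := by
  rw [dv_mul, dv_C, smul_zero, add_zero]

theorem dv_prod {α : Type} [DecidableEq α] (S : Finset α) (g : Fin m → N) (h : α → P m) :
    dv g (∏ a ∈ S, h a) = ∑ a ∈ S, (∏ a' ∈ S.erase a, h a') • dv g (h a) := by
  induction S using Finset.induction_on with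
  | empty => simpa using dv_C g 1
  | insert b S hb ih =>
    rw [Finset.prod_insert hb, Finset.sum_insert hb, Finset.erase_insert hb, dv_mul, ih, add_comm,
      Finset.smul_sum]
    congr 1
    refine Finset.sum_congr rfl fun a ha => ?_
    rw [Finset.erase_insert_of_ne (fun e : b = a => hb (e ▸ ha)),
      Finset.prod_insert (fun e => hb (Finset.mem_of_mem_erase e)), mul_smul]

theorem dv_euler {h : P m} {i : ℕ} (hh : h.IsHomogeneous i) (τ : N) :
    dv (fun l => (X l : P m) • τ) h = ((i : P m) * h) • τ := by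
  simp only [dv, ← mul_smul, ← Finset.sum_smul]
  rw [← nsmul_eq_mul, ← hh.sum_X_mul_pderiv]
  simp only [mul_comm]

theorem dv_euler_P {h : P m} {i : ℕ} (hh : h.IsHomogeneous i) :
    dv (fun l => (X l : P m)) h = (i : P m) * h := by
  have := dv_euler hh (1 : P m)
  simpa only [smul_eq_mul, mul_one] using this

theorem dv_wg {h : P m} {i : ℕ} (hh : h.IsHomogeneous i) (g : Fin m → N) (l : Fin m) :
    dv (fun a => wg g a l) h = (X l : P m) • dv g h - ((i : P m) * h) • g l := by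
  simp only [wg]
  rw [dv_sub_left, dv_smul_left, dv_euler hh]

theorem wg_anti (g : Fin m → N) (a l : Fin m) : wg g a l + wg g l a = 0 := by
  simp only [wg, sub_add_sub_cancel, sub_self]

theorem cl3_wg (g : Fin m → N) (a k l : Fin m) : cl3 (wg g) a k l = 0 := by
  simp only [cl3, wg]
  module

theorem dv_mem (N0 : Submodule (P m) N) {g : Fin m → N} (hg : ∀ l, g l ∈ N0) (h : P m) :
    dv g h ∈ N0 := by
  exact N0.sum_mem fun l _ => N0.smul_mem _ (hg l)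

theorem dv_map {N' : Type} [AddCommGroup N'] [Module (P m) N'] (φ : N →ₗ[P m] N') (g : Fin m → N)
    (h : P m) : φ (dv g h) = dv (fun l => φ (g l)) h := by
  simp only [dv, map_sum, map_smul]

theorem hz_pderiv {i : ℤ} {h : P m} (hh : h ∈ hz m i) (l : Fin m) : pderiv l h ∈ hz m (i - 1) := by
  rcases AFB_cases hh with rfl | ⟨n, rfl, hn⟩
  · rw [map_zero]
    exact zero_mem _
  · rcases n with _ | n
    · rw [totalDegree_eq_zero_iff_eq_C.1 ((totalDegree_zero_iff_isHomogeneous _).2 hn), pderiv_C]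
      exact zero_mem _
    · rw [show ((n + 1 : ℕ) : ℤ) - 1 = n by push_cast; ring]
      exact mem_hz_nat.2 hn.pderiv

theorem hz_X (l : Fin m) : (X l : P m) ∈ hz m 1 := by
  exact mem_hz_nat.2 (isHomogeneous_X ℂ l)

theorem hz_zero {h : P m} (hh : h ∈ hz m 0) : ∃ t : ℂ, h = C t := by
  exact ⟨_, totalDegree_eq_zero_iff_eq_C.1
    ((totalDegree_zero_iff_isHomogeneous _).2 ((mem_hz_nat (i := 0)).1 hh))⟩

theorem dv_mem_og {k c r : ℕ} (Q : PD m k c r) {i j : ℤ} {g : Fin m → Q.Om}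
    (hg : ∀ l, g l ∈ Q.og j) {h : P m} (hh : h ∈ hz m i) : dv g h ∈ Q.og (i + j - 1) := by
  rw [show i + j - 1 = i - 1 + j by ring]
  exact Submodule.sum_mem _ fun l _ => Q.og_smul (hz_pderiv hh l) (hg l)

theorem dv_mem_hz {i j : ℤ} {g : Fin m → P m} (hg : ∀ l, g l ∈ hz m j) {h : P m}
    (hh : h ∈ hz m i) : dv g h ∈ hz m (i + j - 1) := by
  rw [show i + j - 1 = i - 1 + j by ring]
  exact Submodule.sum_mem _ fun l _ => hz_mul (hz_pderiv hh l) (hg l)

theorem wg_mem_og {k c r : ℕ} (Q : PD m k c r) {j : ℤ} {g : Fin m → Q.Om}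
    (hg : ∀ l, g l ∈ Q.og j) (a l : Fin m) : wg g a l ∈ Q.og (j + 1) := by
  rw [add_comm]
  exact Submodule.sub_mem _ (Q.og_smul (hz_X l) (hg a)) (Q.og_smul (hz_X a) (hg l))

/-- Integers are invertible. -/
theorem mem_of_nat_smul (N0 : Submodule (P m) N) {i : ℕ} (hi : i ≠ 0) {w : N}
    (h : (i : P m) • w ∈ N0) : w ∈ N0 := by
  have h1 := N0.smul_mem (C (i : ℂ)⁻¹ : P m) h
  rwa [smul_smul, ← map_natCast (C : ℂ →+* P m), ← map_mul,
    inv_mul_cancel₀ (Nat.cast_ne_zero.2 hi), map_one, one_smul] at h1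

end

end Pool.Agent.MP_1c689d_ag.K0.Al

end

section

/-! Homogeneous components modulo the forms. -/

set_option autoImplicit false

open MvPolynomial

namespace Pool.Agent.MP_1c689d_ag.K0.Al

noncomputable section

variable {m : ℕ} {Φ : Fr m} {N : Type} [AddCommGroup N] [Module ℂ N] [Module (P m) N]
  [IsScalarTower ℂ (P m) N]

theorem exists_cmpM (b : FB Φ.yi N) : ∃ cmp : ℤ → N →ₗ[ℂ] N,
    (∀ j v, cmp j v ∈ b.gr j) ∧ (∀ j, ∀ v ∈ b.gr j, cmp j v = v) ∧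
    (∀ i j, i ≠ j → ∀ v ∈ b.gr j, cmp i v = 0) ∧
    (∀ i j, ∀ h ∈ hz m i, ∀ v, cmp (i + j) (h • v) = h • cmp j v) ∧
    ∀ S j, ∀ v ∈ Φ.M N S, cmp j v ∈ Φ.M N S := by
  obtain ⟨cmp, h1, h2, h3, -, h5⟩ := b.exists_cmp
  refine ⟨cmp, h1, h2, h3, h5, fun S j v hv => ?_⟩
  obtain ⟨u, rfl⟩ := Φ.mem_M.1 hv
  refine Φ.mem_M.2 ⟨fun s => cmp (j - Φ.e) (u s), ?_⟩
  rw [map_sum]
  refine Finset.sum_congr rfl fun s _ => ?_
  rw [← h5 _ _ _ (Φ.L_hz s), add_sub_cancel]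

theorem hd (b : FB Φ.yi N) {S : Finset Vec} {α : Type} (T : Finset α) {h : α → P m} {i : α → ℤ}
    (hh : ∀ t ∈ T, h t ∈ hz m (i t)) {j : ℤ} {w : N} (hw : w ∈ b.gr j) {u : α → N}
    (hu : w - ∑ t ∈ T, h t • u t ∈ Φ.M N S) :
    ∃ u' : α → N, (∀ t, u' t ∈ b.gr (j - i t)) ∧ w - ∑ t ∈ T, h t • u' t ∈ Φ.M N S := by
  obtain ⟨cmp, h1, h2, -, h4, h5⟩ := exists_cmpM b
  refine ⟨fun t => cmp (j - i t) (u t), fun t => h1 _ _, ?_⟩
  have h6 := h5 S j _ hu
  rwa [map_sub, h2 j w hw, map_sum, Finset.sum_congr rfl fun t ht => by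
    rw [← add_sub_cancel (i t) j, h4 _ _ _ (hh t ht)]] at h6

theorem hd1 (b : FB Φ.yi N) {S : Finset Vec} {h : P m} {i : ℤ} (hh : h ∈ hz m i) {j : ℤ} {w : N}
    (hw : w ∈ b.gr j) {u : N} (hu : w - h • u ∈ Φ.M N S) :
    ∃ u' ∈ b.gr (j - i), w - h • u' ∈ Φ.M N S := by
  obtain ⟨cmp, h1, h2, -, h4, h5⟩ := exists_cmpM b
  refine ⟨cmp (j - i) u, h1 _ _, ?_⟩
  have h6 := h5 S j _ hu
  rwa [map_sub, h2 j w hw, ← add_sub_cancel i j, h4 _ _ _ hh] at h6

theorem low (b : FB Φ.yi N) {S : Finset Vec} {j : ℤ} {w : N} (hw : w ∈ b.gr j)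
    (h : w ∈ Φ.M N S) : ∃ u : Vec → N, (∀ s, u s ∈ b.gr (j - Φ.e)) ∧ w = ∑ s ∈ S, Φ.L s • u s := by
  obtain ⟨cmp, h1, h2, -, h4, -⟩ := exists_cmpM b
  obtain ⟨u, hu⟩ := Φ.mem_M.1 h
  refine ⟨fun s => cmp (j - Φ.e) (u s), fun s => h1 _ _, ?_⟩
  rw [← h2 j w hw, hu, map_sum]
  refine Finset.sum_congr rfl fun s _ => ?_
  rw [← h4 _ _ _ (Φ.L_hz s), add_sub_cancel]

theorem inter_gr (b : FB Φ.yi N) {S T : Finset Vec} (hS : S ⊆ Φ.G) (hc : S.card ≤ 2)
    (hT : T ⊆ Φ.G) (hd : Disjoint S T) {j : ℤ} {w : N} (hw : w ∈ b.gr j)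
    (h : ∀ t ∈ T, w ∈ Φ.M N (insert t S)) :
    ∃ u ∈ b.gr (j - T.card * Φ.e), w - Φ.pr T • u ∈ Φ.M N S := by
  obtain ⟨u, hu⟩ := inter_pr b hS hc hT hd h
  exact hd1 b (Φ.pr_hz T) hw hu

theorem all_pr (b : FB Φ.yi N) {T : Finset Vec} (hT : T ⊆ Φ.G) {j : ℤ} {w : N} (hw : w ∈ b.gr j)
    (h : ∀ t ∈ T, w ∈ Φ.M N {t}) : ∃ u ∈ b.gr (j - T.card * Φ.e), w = Φ.pr T • u := by
  obtain ⟨u, h1, h2⟩ := inter_gr b (Finset.empty_subset _) (by simp) hT
    (Finset.disjoint_empty_left T) hw fun t ht => by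
      rw [LawfulSingleton.insert_empty_eq]; exact h t ht
  rw [Φ.M_empty, Submodule.mem_bot, sub_eq_zero] at h2
  exact ⟨u, h1, h2⟩

theorem pr_inj (b : FB Φ.yi N) {T : Finset Vec} (hT : T ⊆ Φ.G) {w : N} (h : Φ.pr T • w = 0) :
    w = 0 := by
  have h1 := reg_pr b (Finset.empty_subset _) (by simp) hT (Finset.disjoint_empty_left T)
    (w := w) (by rw [h]; exact zero_mem _)
  rwa [Φ.M_empty, Submodule.mem_bot] at h1

theorem low_Gr (b : FB Φ.yi N) {a : Vec} {j : ℤ} {w : N} (hw : w ∈ b.gr j)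
    (h : w ∈ Φ.M N {a}) : ∃ u ∈ b.gr (j - Φ.e), w = Φ.L a • u := by
  obtain ⟨u, h1, h2⟩ := low b hw h
  exact ⟨u a, h1 a, by rwa [Finset.sum_singleton] at h2⟩

theorem reg_Gr (b : FB Φ.yi N) {a t t' : Vec} (ha : a ∈ Φ.G) (ht : t ∈ Φ.G) (ht' : t' ∈ Φ.G)
    (h1 : a ≠ t) (h2 : a ≠ t') {w : N} (h : Φ.L a • w ∈ Φ.M N {t, t'}) : w ∈ Φ.M N {t, t'} := by
  refine reg_pr b (T := {a}) (Finset.insert_subset ht (Finset.singleton_subset_iff.2 ht'))
    (Finset.card_le_two.trans (by norm_num)) (Finset.singleton_subset_iff.2 ha)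
    (Finset.disjoint_singleton_right.2 ?_) (by rwa [Fr.pr, Finset.prod_singleton])
  rw [Finset.mem_insert, Finset.mem_singleton]
  exact fun e => e.elim h1 h2

theorem rank_Gr {U U' : Type} [AddCommGroup U] [Module ℂ U] [AddCommGroup U'] [Module ℂ U']
    (f : U →ₗ[ℂ] U') (p : Submodule ℂ U) [FiniteDimensional ℂ p] :
    Module.finrank ℂ (p.map f) + Module.finrank ℂ ↥(p ⊓ LinearMap.ker f) = Module.finrank ℂ p := by
  rw [← (f.domRestrict p).finrank_range_add_finrank_ker, LinearMap.range_domRestrict,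
    LinearMap.ker_domRestrict, ← Submodule.map_comap_subtype, Submodule.finrank_map_subtype_eq]

theorem star (b : FB Φ.yi N) {T : Finset Vec} (hT : T ⊆ Φ.G) (hn : T.Nonempty) {j : ℤ} {w : N}
    (hw : w ∈ b.gr j) (h : ∀ a ∈ T, ∀ a' ∈ T, a ≠ a' → w ∈ Φ.M N {a, a'}) :
    ∃ u : Vec → N, (∀ s, u s ∈ b.gr (j - (T.card - 1) * Φ.e)) ∧
      w = ∑ s ∈ T, Φ.pr (T.erase s) • u s := by
  induction T using Finset.induction_on generalizing j w with
  | empty => exact absurd hn Finset.not_nonempty_empty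
  | insert a T ha ih =>
    rcases T.eq_empty_or_nonempty with rfl | hn'
    · refine ⟨fun _ => w, fun _ => by simpa using hw, ?_⟩
      rw [Finset.sum_insert ha, Finset.sum_empty, add_zero, Finset.erase_insert ha, Fr.pr,
        Finset.prod_empty, one_smul]
    have haG := hT (Finset.mem_insert_self a T)
    have hTG : T ⊆ Φ.G := (Finset.subset_insert a T).trans hT
    have hne : ∀ t ∈ T, a ≠ t := fun t ht e => ha (e ▸ ht)
    obtain ⟨u, hu, h1⟩ := inter_gr b (Finset.singleton_subset_iff.2 haG) (by simp) hTG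
      (Finset.disjoint_singleton_left.2 ha) hw fun t ht =>
        h t (Finset.mem_insert_of_mem ht) a (Finset.mem_insert_self a T) (hne t ht).symm
    have h2 := b.smul_mem (Φ.pr_hz T) hu
    rw [add_sub_cancel] at h2
    obtain ⟨w1, h3, h4⟩ := low_Gr b (sub_mem hw h2) h1
    obtain ⟨u1, h5, h6⟩ := ih hTG hn' h3 fun t ht t' ht' htt => by
      refine reg_Gr b haG (hTG ht) (hTG ht') (hne t ht) (hne t' ht') ?_
      rw [← h4]
      exact sub_mem (h t (Finset.mem_insert_of_mem ht) t' (Finset.mem_insert_of_mem ht') htt)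
        (Φ.smul_mem_M (Φ.pr_mem_q (Finset.mem_insert_self t _) ht) u)
    refine ⟨Function.update u1 a u, fun s => ?_, ?_⟩
    · rw [Finset.card_insert_of_notMem ha, Nat.cast_add, Nat.cast_one, add_sub_cancel_right]
      by_cases e : s = a
      · rw [e, Function.update_self]; exact hu
      · rw [Function.update_of_ne e, show j - T.card * Φ.e = j - Φ.e - (T.card - 1) * Φ.e by ring]
        exact h5 s
    · rw [Finset.sum_insert ha, Finset.erase_insert ha, Function.update_self, ← sub_eq_iff_eq_add',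
        h4, h6, Finset.smul_sum]
      refine Finset.sum_congr rfl fun s hs => ?_
      rw [Function.update_of_ne (hne s hs).symm, Finset.erase_insert_of_ne (hne s hs), smul_smul,
        Fr.pr, Fr.pr, Finset.prod_insert fun e => ha (Finset.mem_of_mem_erase e)]

theorem fil_bound (b : FB Φ.yi N) {h : ℕ → ℕ}
    (hh : ∀ j : ℕ, Module.finrank ℂ (b.gr ((j + 1) * Φ.e)) ≤
      Module.finrank ℂ (b.gr (j * Φ.e)) + h j)
    (Γ : Vec → Vec → Prop) (l : List Vec) (hl : l.Nodup) (hG : ∀ a ∈ l, a ∈ Φ.G)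
    (Y : Submodule ℂ N) (hY : ∀ w ∈ Y, w ∈ b.gr (l.length * Φ.e) ∧
      ∀ a ∈ l, ∀ a' ∈ l, a ≠ a' → Γ a a' → w ∈ Φ.M N {a, a'}) :
    Module.finrank ℂ Y ≤ Module.finrank ℂ (b.gr 0) + fil h Γ l := by
  induction l generalizing Y with
  | nil =>
    refine (Submodule.finrank_mono fun w hw => ?_).trans (Nat.le_add_right _ _)
    simpa using (hY w hw).1
  | cons a l ih =>
    obtain ⟨ha, hl'⟩ := List.nodup_cons.1 hl
    have haG := hG a List.mem_cons_self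
    have hlG : ∀ t ∈ l, t ∈ Φ.G := fun t ht => hG t (List.mem_cons_of_mem a ht)
    have hne : ∀ t ∈ l, a ≠ t := fun t ht e => ha (e ▸ ht)
    have : FiniteDimensional ℂ Y := Submodule.finiteDimensional_of_le fun w hw => (hY w hw).1
    obtain ⟨s, T, hs, hc, hT⟩ : ∃ (s : ℕ) (T : Finset Vec), fil h Γ (a :: l) = h s + fil h Γ l ∧
        l.length = T.card + s ∧ ∀ t ∈ T, t ∈ l ∧ Γ a t := by
      classical
      refine ⟨_, (l.filter fun t => decide (Γ a t)).toFinset, rfl, ?_, fun t ht => ?_⟩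
      · rw [List.toFinset_card_of_nodup (hl'.filter _), ← List.countP_eq_length_filter,
          List.length_eq_countP_add_countP fun t => decide (Γ a t)]
        simp only [decide_eq_true_eq]
      · simpa using ht
    let La : N →ₗ[ℂ] N := (LinearMap.lsmul (P m) N (Φ.L a)).restrictScalars ℂ
    let pT : N →ₗ[ℂ] N := (LinearMap.lsmul (P m) N (Φ.pr T)).restrictScalars ℂ
    let π := ((Φ.M N {a}).restrictScalars ℂ).mkQ
    have hπ : ∀ w, π w = 0 ↔ w ∈ Φ.M N {a} := fun w => Submodule.Quotient.mk_eq_zero _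
    have hLa : Function.Injective La := (injective_iff_map_eq_zero La).2 fun w hw =>
      pr_inj b (Finset.singleton_subset_iff.2 haG) (by rwa [Fr.pr, Finset.prod_singleton])
    have k1 := ih hl' hlG (b.gr (l.length * Φ.e) ⊓ Y.comap La) fun w hw =>
      ⟨hw.1, fun t ht t' ht' htt hΓ => reg_Gr b haG (hlG t ht) (hlG t' ht') (hne t ht) (hne t' ht')
        ((hY _ hw.2).2 t (List.mem_cons_of_mem a ht) t' (List.mem_cons_of_mem a ht') htt hΓ)⟩
    have k2 : Y ⊓ LinearMap.ker π ≤ (b.gr (l.length * Φ.e) ⊓ Y.comap La).map La := fun w hw => by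
      obtain ⟨u, h1, h2⟩ := low_Gr b (hY w hw.1).1 ((hπ w).1 hw.2)
      rw [List.length_cons, Nat.cast_add, Nat.cast_one, add_mul, one_mul,
        add_sub_cancel_right] at h1
      exact ⟨u, ⟨h1, show Φ.L a • u ∈ Y from h2 ▸ hw.1⟩, h2.symm⟩
    have k3 : Y.map π ≤ (b.gr ((s + 1) * Φ.e)).map (π ∘ₗ pT) := by
      rintro _ ⟨w, hw, rfl⟩
      obtain ⟨u, h1, h2⟩ := inter_gr b (Finset.singleton_subset_iff.2 haG) (by simp)
        (fun t ht => hlG t (hT t ht).1)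
        (Finset.disjoint_singleton_left.2 fun e => ha (hT a e).1) (hY w hw).1 fun t ht => by
          rw [Finset.pair_comm]
          exact (hY w hw).2 a List.mem_cons_self t (List.mem_cons_of_mem a (hT t ht).1)
            (hne t (hT t ht).1) (hT t ht).2
      rw [List.length_cons, hc, show (((T.card + s + 1 : ℕ) : ℤ) * Φ.e - T.card * Φ.e) =
        (s + 1) * Φ.e by push_cast; ring] at h1
      have h3 := (hπ _).2 h2
      rw [map_sub, sub_eq_zero] at h3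
      exact ⟨u, h1, h3.symm⟩
    have k4 : (b.gr (s * Φ.e)).map La ≤ b.gr ((s + 1) * Φ.e) ⊓ LinearMap.ker (π ∘ₗ pT) := by
      rintro _ ⟨w, hw, rfl⟩
      have h1 := b.smul_mem (Φ.L_hz a) hw
      rw [show (Φ.e : ℤ) + s * Φ.e = (s + 1) * Φ.e by ring] at h1
      exact ⟨h1, (hπ _).2 (Submodule.smul_mem _ _
        (Φ.smul_mem_M (Φ.mem_q (Finset.mem_singleton_self a)) w))⟩
    have k5 := (Submodule.finrank_mono k2).trans (Submodule.finrank_map_le _ _)
    have k6 := Submodule.finrank_mono k3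
    have k7 := Submodule.finrank_mono k4
    rw [← (Submodule.equivMapOfInjective La hLa _).finrank_eq] at k7
    have k8 := rank_Gr π Y
    have k9 := rank_Gr (π ∘ₗ pT) (b.gr ((s + 1) * Φ.e))
    have k10 := hh s
    omega

end

end Pool.Agent.MP_1c689d_ag.K0.Al

end

section

/-! The forms on the variety: low degrees. -/

set_option autoImplicit false

open MvPolynomial

namespace Pool.Agent.MP_1c689d_ag.K0.Al

noncomputable section

variable {m c r : ℕ} (K : Ctx m c r)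

theorem Lv_sum_Low (yi : Fin 4 → Fin m) (e : ℕ) (S : Finset Vec) (t : Vec → ℂ) :
    Lv yi e (∑ s ∈ S, t s • s) = ∑ s ∈ S, C (t s) * Lv yi e s := by
  induction S using Finset.induction_on with
  | empty => rw [Finset.sum_empty, Finset.sum_empty, Lv_zero]
  | insert a S ha ih => rw [Finset.sum_insert ha, Finset.sum_insert ha, Lv_add, Lv_smul, ih]

theorem Ctx.deg_Low : (K.ν : ℤ) - (K.A.card - 1) * K.fr.e = K.e := by
  change ((K.A.card * K.e : ℕ) : ℤ) - (K.A.card - 1) * K.e = K.e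
  push_cast
  ring

theorem Ctx.A_sub : K.A ⊆ K.fr.G := by
  exact fun _ ha => Finset.mem_union_left _ (Finset.mem_union_left _ ha)

theorem Ctx.ok {S : Finset Vec} (h : S ⊆ K.A ∪ K.B) : K.fr.Ok S := by
  exact ⟨h.trans Finset.subset_union_left, fun l hl => K.pos.nu l (h hl)⟩

theorem Ctx.card_ge : 10 ≤ K.A.card := by
  have := K.big
  omega

theorem Ctx.nu_pos : 0 < K.ν := by
  exact Nat.mul_pos (by have := K.card_ge; omega) (by have := K.e4; omega)

theorem Ctx.og_eq_zero {j : ℤ} (hj : j ≤ 0) {w : K.Om} (hw : w ∈ K.Q.og j) : w = 0 := by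
  refine K.Q.ext' fun f => ?_
  rw [K.Q.val_eq_sum]
  refine Finset.sum_eq_zero fun i _ => ?_
  have h := (K.Q.mem_og_iff j w).1 hw i
  rw [hz_neg (by have := K.num.le i; omega), Submodule.mem_bot] at h
  rw [h, mul_zero]

theorem Ctx.smul_mem_M {S : Finset Vec} {h : P m} (hh : h ∈ K.p S) (w : K.Om) : h • w ∈ K.M S := by
  obtain ⟨a, ha, b, hb, rfl⟩ := Submodule.mem_sup.1 hh
  rw [add_smul, K.Q.I_smul ha, zero_add]
  exact K.fr.smul_mem_M hb w

theorem Ctx.smul_congr {h h' : P m} (hh : h - h' ∈ K.Q.I) (w : K.Om) : h • w = h' • w := by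
  have := K.Q.I_smul hh w
  rwa [sub_smul, sub_eq_zero] at this

theorem Ctx.mk_mem {S : Finset Vec} {f : P m} :
    Ideal.Quotient.mk K.Q.I f ∈ K.fr.M (P m ⧸ K.Q.I) S ↔ f ∈ K.p S := by
  exact K.fr.mk_mem_M K.Q.I

theorem Ctx.mk_gr {j : ℤ} {f : P m} (hf : f ∈ hz m j) : Ideal.Quotient.mk K.Q.I f ∈ K.Q.b.gr j := by
  exact K.Q.AFB_mk_mem hf

theorem Ctx.lowO {S : Finset Vec} {j : ℤ} (hj : j ≤ K.e) {w : K.Om} (hw : w ∈ K.Q.og j)
    (h : w ∈ K.M S) : w = 0 := by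
  obtain ⟨u, hu, rfl⟩ := low (Φ := K.fr) (ob K.Q) (by rw [ob_gr]; exact hw) h
  refine Finset.sum_eq_zero fun s _ => ?_
  have h1 := hu s
  rw [ob_gr] at h1
  rw [K.og_eq_zero (sub_nonpos.2 hj) h1, smul_zero]

theorem Ctx.lowP {S : Finset Vec} {j : ℤ} (hj : j < K.e) {f : P m} (hf : f ∈ hz m j)
    (h : f ∈ K.p S) : f ∈ K.Q.I := by
  obtain ⟨u, hu, e⟩ := low (Φ := K.fr) K.Q.b (K.mk_gr hf) (K.mk_mem.2 h)
  rw [← Ideal.Quotient.eq_zero_iff_mem, e]
  refine Finset.sum_eq_zero fun s _ => ?_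
  obtain ⟨g, hg, e1⟩ := (K.Q.mem_gr_iff _ _).1 (hu s)
  rw [hz_neg (sub_neg.2 hj), Submodule.mem_bot] at hg
  rw [← e1, hg, map_zero, smul_zero]

theorem Ctx.lowP_e {S : Finset Vec} {f : P m} (hf : f ∈ hz m K.e) (h : f ∈ K.p S) :
    ∃ w ∈ Submodule.span ℂ (S : Set Vec), f - K.L w ∈ K.Q.I := by
  obtain ⟨u, hu, e⟩ := low (Φ := K.fr) K.Q.b (K.mk_gr hf) (K.mk_mem.2 h)
  have h1 : ∀ s, ∃ t : ℂ, Ideal.Quotient.mk K.Q.I (C t) = u s := by
    intro s
    obtain ⟨g, hg, e1⟩ := (K.Q.mem_gr_iff _ _).1 (hu s)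
    obtain ⟨t, rfl⟩ := hz_zero (h := g) (by rwa [← sub_self (K.e : ℤ)])
    exact ⟨t, e1⟩
  choose t ht using h1
  refine ⟨∑ s ∈ S, t s • s, Submodule.sum_mem _ fun s hs =>
    Submodule.smul_mem _ _ (Submodule.subset_span hs), Ideal.Quotient.eq.1 ?_⟩
  rw [e, show K.L (∑ s ∈ S, t s • s) = ∑ s ∈ S, C (t s) * K.L s from Lv_sum_Low _ _ S t, map_sum]
  exact Finset.sum_congr rfl fun s _ => by rw [← ht, mul_comm, PD.AFB_mk_smul]

theorem Ctx.C_mem {S : Finset Vec} {t : ℂ} (h : (C t : P m) ∈ K.p S) : t = 0 := by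
  have h1 : (C t : P m) ∈ K.Q.I := K.lowP (j := (0 : ℕ)) (by have := K.e4; omega)
    (mem_hz_nat.2 (isHomogeneous_C _ t)) h
  by_contra ht
  exact K.num.prime.ne_top (Ideal.eq_top_of_isUnit_mem _ h1 ((Ne.isUnit ht).map C))

theorem Ctx.L_inj {w : Vec} (h : K.L w ∈ K.Q.I) : w = 0 := by
  have h1 : lin w ∈ (⊥ : Ideal (P 4)) :=
    phi_comap K.Q K.num (e := K.e) (by have := K.e4; omega) ⊥ (Ideal.mem_sup_left h)
  have h2 := (lin_mem_iff ∅ w).1 (bot_le (a := Ideal.span (lin '' ∅)) h1)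
  rwa [Submodule.span_empty, Submodule.mem_bot] at h2

theorem Ctx.p_hom {S : Finset Vec} {f : P m} (h : f ∈ K.p S) (i : ℕ) :
    homogeneousComponent i f ∈ K.p S := by
  obtain ⟨cmp, -, h2, h3, -, h5⟩ := exists_cmpM (Φ := K.fr) K.Q.b
  have key : cmp i (Ideal.Quotient.mk K.Q.I f) =
      Ideal.Quotient.mk K.Q.I (homogeneousComponent i f) := by
    refine AFB_ind (p := fun f => cmp i (Ideal.Quotient.mk K.Q.I f) =
      Ideal.Quotient.mk K.Q.I (homogeneousComponent i f)) (by simp)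
      (fun f g hf hg => by rw [map_add, map_add, map_add, map_add, hf, hg]) (fun n f hf => ?_) f
    have hf' := K.mk_gr (mem_hz_nat.2 hf)
    by_cases e : i = n
    · rw [e, h2 _ _ hf', homogeneousComponent_eq_self hf]
    · rw [h3 _ _ (fun e' => e (Nat.cast_injective e')) _ hf', homogeneousComponent_of_mem hf,
        if_neg e, map_zero]
  rw [← K.mk_mem, ← key]
  exact h5 S i _ (K.mk_mem.2 h)

theorem Ctx.eval_p {S : Finset Vec} {v : Fin m → ℂ} (hv : K.Q.OnC v)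
    (hS : ∀ s ∈ S, eval v (K.L s) = 0) {f : P m} (h : f ∈ K.p S) : eval v f = 0 := by
  have h1 : K.fr.q S ≤ RingHom.ker (eval v : P m →+* ℂ) := by
    refine Ideal.span_le.2 ?_
    rintro _ ⟨s, hs, rfl⟩
    exact hS s hs
  obtain ⟨a, ha, b, hb, rfl⟩ := Submodule.mem_sup.1 h
  rw [map_add, K.Q.eval_of_mem hv ha, zero_add]
  exact h1 hb

theorem Ctx.hdP {S : Finset Vec} {α : Type} (T : Finset α) {h : α → P m} {i : α → ℤ}
    (hh : ∀ t ∈ T, h t ∈ hz m (i t)) {j : ℤ} {f : P m} (hf : f ∈ hz m j) {u : α → P m}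
    (hu : f - ∑ t ∈ T, h t * u t ∈ K.p S) :
    ∃ u' : α → P m, (∀ t, u' t ∈ hz m (j - i t)) ∧ f - ∑ t ∈ T, h t * u' t ∈ K.p S := by
  have e : ∀ u : α → P m, Ideal.Quotient.mk K.Q.I (f - ∑ t ∈ T, h t * u t) =
      Ideal.Quotient.mk K.Q.I f - ∑ t ∈ T, h t • Ideal.Quotient.mk K.Q.I (u t) := fun u => by
    rw [map_sub, map_sum]
    rfl
  have h1 := K.mk_mem.2 hu
  rw [e] at h1
  obtain ⟨u', h2, h3⟩ := hd (Φ := K.fr) K.Q.b T hh (K.mk_gr hf) h1
  choose g hg hg' using fun t => (K.Q.mem_gr_iff _ _).1 (h2 t)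
  refine ⟨g, hg, K.mk_mem.1 ?_⟩
  rw [e]
  simpa only [hg'] using h3

theorem Ctx.starP {f : P m} (hf : f ∈ hz m K.ν)
    (h : ∀ a ∈ K.A, ∀ a' ∈ K.A, a ≠ a' → f ∈ K.p {a, a'}) :
    ∃ u : Vec → P m, (∀ s, u s ∈ hz m K.e) ∧ f - ∑ s ∈ K.A, K.pr (K.A.erase s) * u s ∈ K.Q.I := by
  obtain ⟨u, h2, h3⟩ := star (Φ := K.fr) K.Q.b K.A_sub
    (Finset.card_pos.1 (by have := K.card_ge; omega)) (K.mk_gr hf)
    fun a ha a' ha' hne => K.mk_mem.2 (h a ha a' ha' hne)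
  rw [K.deg_Low] at h2
  choose g hg hg' using fun t => (K.Q.mem_gr_iff _ _).1 (h2 t)
  refine ⟨g, hg, Ideal.Quotient.eq.1 ?_⟩
  rw [h3, map_sum]
  exact Finset.sum_congr rfl fun s _ => by rw [← hg', PD.AFB_mk_smul]

theorem Ctx.starO {w : K.Om} (hw : w ∈ K.Q.og K.ν)
    (h : ∀ a ∈ K.A, ∀ a' ∈ K.A, a ≠ a' → w ∈ K.M {a, a'}) :
    ∃ u : Vec → K.Om, (∀ s, u s ∈ K.Q.og K.e) ∧ w = ∑ s ∈ K.A, K.pr (K.A.erase s) • u s := by
  obtain ⟨u, h2, h3⟩ := star (Φ := K.fr) (ob K.Q) K.A_sub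
    (Finset.card_pos.1 (by have := K.card_ge; omega)) (by rw [ob_gr]; exact hw) h
  rw [K.deg_Low, ob_gr] at h2
  exact ⟨u, h2, h3⟩

theorem Ctx.s0_inj {w : K.Om} (h : K.s0 • w = 0) : w = 0 := by
  exact pr_inj (Φ := K.fr) (ob K.Q) K.A_sub h

theorem Ctx.dv_s0 (g : Fin m → K.Om) :
    dv g K.s0 = ∑ s ∈ K.A, K.pr (K.A.erase s) • dv g (K.L s) := by
  exact dv_prod K.A g K.L

theorem Ctx.dv_s0_mem (g : Fin m → K.Om) {a b : Vec} (ha : a ∈ K.A) (hb : b ∈ K.A) (hab : a ≠ b) :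
    dv g K.s0 ∈ K.M {a, b} := by
  rw [K.dv_s0]
  refine Submodule.sum_mem _ fun s _ => K.fr.smul_mem_M ?_ _
  by_cases hs : s = a
  · exact K.fr.pr_mem_q (a := b) (Finset.mem_insert_of_mem (Finset.mem_singleton_self b))
      (Finset.mem_erase.2 ⟨fun e => hab (hs.symm.trans e.symm), hb⟩)
  · exact K.fr.pr_mem_q (a := a) (Finset.mem_insert_self a _)
      (Finset.mem_erase.2 ⟨fun e => hs e.symm, ha⟩)

theorem Ctx.Kz.L {K : Ctx m c r} {ξ : Fin m → K.Om} {ru : Fin r → K.Om} (h : K.Kz ξ ru) {s : Vec}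
    (hs : s ∈ K.A) : dv ξ (K.L s) ∈ K.M {s} := by
  have h1 := h.s
  rw [K.dv_s0] at h1
  have h2 := split (Φ := K.fr) (ob K.Q) (S := ∅) (Finset.empty_subset _) (by simp) K.A_sub
    (Finset.disjoint_empty_left _) (w := fun s => dv ξ (K.L s)) (by rw [h1]; exact zero_mem _) s hs
  rwa [Finset.insert_empty] at h2

theorem Ctx.mem_Jp {y : K.Om × P m} : y ∈ K.Jp ↔ ∃ g ξ ρ ru, K.Sol y.1 y.2 g ξ ρ ru := by
  refine ⟨fun hy => ?_, fun hy => Submodule.subset_span hy⟩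
  induction hy using Submodule.span_induction with
  | mem y hy => exact hy
  | zero =>
    refine ⟨fun _ => 0, fun _ => 0, fun _ => 0, fun _ => 0,
      ⟨fun _ => zero_mem _, fun j => ?_, dv_zero_left _⟩, fun _ => zero_mem _, fun j => ?_, ?_⟩
    · rw [dv_zero_left, smul_zero]
    · rw [dv_zero_left, smul_zero, smul_zero, Prod.snd_zero, zero_smul, add_zero, add_zero]
    · rw [dv_zero_left, dv_zero_left, add_zero, Prod.fst_zero]
  | add y y' _ _ h h' =>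
    obtain ⟨g, ξ, ρ, ru, h⟩ := h
    obtain ⟨g', ξ', ρ', ru', h'⟩ := h'
    refine ⟨fun l => g l + g' l, fun l => ξ l + ξ' l, fun j => ρ j + ρ' j, fun j => ru j + ru' j,
      ⟨fun l => add_mem (h.kz.deg l) (h'.kz.deg l), fun j => ?_, ?_⟩,
      fun l => add_mem (h.deg l) (h'.deg l), fun j => ?_, ?_⟩
    · rw [dv_add_left, h.kz.J, h'.kz.J, smul_add]
    · rw [dv_add_left, h.kz.s, h'.kz.s, add_zero]
    · rw [dv_add_left, h.J, h'.J, Prod.snd_add, add_smul, smul_add, smul_add]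
      abel
    · rw [dv_add_left, dv_add_left, Prod.fst_add, h.out, h'.out]
      abel
  | smul t y _ h =>
    obtain ⟨g, ξ, ρ, ru, h⟩ := h
    refine ⟨fun l => t • g l, fun l => t • ξ l, fun j => t • ρ j, fun j => t • ru j,
      ⟨fun l => Submodule.smul_mem _ _ (h.kz.deg l), fun j => ?_, ?_⟩,
      fun l => Submodule.smul_mem _ _ (h.deg l), fun j => ?_, ?_⟩
    · rw [dv_csmul_left, h.kz.J, smul_comm]
    · rw [dv_csmul_left, h.kz.s, smul_zero]
    · rw [dv_csmul_left, h.J, Prod.smul_snd, smul_add, smul_add, smul_assoc, smul_comm t K.s0,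
        smul_comm t K.f]
    · rw [dv_csmul_left, dv_csmul_left, Prod.smul_fst, h.out, smul_add]

theorem Ctx.iota_M (J : Fin c → Fin r) {S : Finset Vec} {w : K.Om} (hw : w ∈ K.M S) {f : P m}
    (hf : Ideal.Quotient.mk K.Q.I f = K.T.ι J w) : f ∈ K.p S := by
  rw [← K.mk_mem, hf]
  exact K.fr.map_M (K.T.ι J) hw

end

end Pool.Agent.MP_1c689d_ag.K0.Al

end

section

/-! Consequences of the Nullstellensatz. -/

set_option autoImplicit false

open MvPolynomial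

namespace Pool.Agent.MP_1c689d_ag.K0.Al

noncomputable section

variable {m c r : ℕ} (K : Ctx m c r)

theorem null0 {m : ℕ} (𝔞 : Ideal (P m)) (h : ∀ v : Fin m → ℂ, v ≠ 0 → ∃ f ∈ 𝔞, eval v f ≠ 0) :
    ∃ n : ℕ, ∀ l, (X l : P m) ^ n ∈ 𝔞 := by
  have h1 : ∀ l, ∃ n : ℕ, (X l : P m) ^ n ∈ 𝔞 := fun l => by
    refine Ideal.mem_radical_iff.1 ?_
    rw [← vanishingIdeal_zeroLocus_eq_radical (K := ℂ)]
    intro v hv
    by_cases e : v = 0
    · simp [e]
    · obtain ⟨f, h1, h2⟩ := h v e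
      exact absurd (hv f h1) h2
  choose n hn using h1
  exact ⟨Finset.univ.sup n, fun l =>
    𝔞.pow_mem_of_pow_mem (hn l) (Finset.le_sup (Finset.mem_univ l))⟩

theorem Ctx.NoZ.pow {K : Ctx m c r} {S : Finset Vec} {α : Type} {D : α → P m} (h : K.NoZ S D) :
    ∃ n : ℕ, ∀ l, (X l : P m) ^ n ∈ K.p S ⊔ Ideal.span (Set.range D) := by
  refine null0 _ fun v hv => ?_
  by_contra hc
  push Not at hc
  obtain ⟨i, hi⟩ := h v ⟨hv, fun j => hc _ (Ideal.mem_sup_left (Ideal.mem_sup_left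
    (Ideal.subset_span ⟨j, rfl⟩)))⟩ fun s hs =>
      hc _ (Ideal.mem_sup_left (Ideal.mem_sup_right (K.fr.mem_q hs)))
  exact hi (hc _ (Ideal.mem_sup_right (Ideal.subset_span ⟨i, rfl⟩)))

theorem Ctx.NoZ.congr {K : Ctx m c r} {S : Finset Vec} {α : Type} {D D' : α → P m} (h : K.NoZ S D)
    (he : ∀ i, D' i - D i ∈ K.Q.I) : K.NoZ S D' := by
  intro v hv hS
  obtain ⟨i, hi⟩ := h v hv hS
  have e := K.Q.eval_of_mem hv (he i)
  rw [map_sub, sub_eq_zero] at e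
  exact ⟨i, e ▸ hi⟩

theorem Ctx.noz0 {S : Finset Vec} {a : Vec} (ha : a ∈ K.A) (hS : a ∈ S) :
    K.NoZ S fun x : (Fin c → Fin r) × (Fin 4 → Fin m) => K.Q.jd x.1 fun i => ue (x.2 i) := by
  intro v hv h
  obtain ⟨A, l, k⟩ := K.sm v hv ((K.pos.good a ha).off v hv (h a hS))
  exact ⟨(A, l), k⟩

theorem Ctx.noz2 {a b : Vec} (ha : a ∈ K.A) (hb : b ∈ K.A) (hab : a ≠ b) :
    K.NoZ {a, b} fun x : (Fin c → Fin r) × Fin m × Fin m => K.D2 x.1 a b x.2.1 x.2.2 := by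
  classical
  intro v hv h
  obtain ⟨J, k, l, e⟩ := K.pos.tr2 a ha b hb hab v hv (h a (by simp)) (h b (by simp))
  exact ⟨(J, k, l), e⟩

theorem Ctx.noz3 {a b s : Vec} (ha : a ∈ K.A) (hb : b ∈ K.A) (hs : s ∈ K.A ∪ K.B) (hab : a ≠ b)
    (hsa : s ≠ a) (hsb : s ≠ b) :
    K.NoZ {s, a, b} fun x : (Fin c → Fin r) × Fin m => K.D3 x.1 a b s x.2 := by
  classical
  intro v hv h
  obtain ⟨J, l, e⟩ := K.pos.tr3 a ha b hb s hs hab hsa hsb v hv (h a (by simp)) (h b (by simp))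
    (h s (by simp))
  exact ⟨(J, l), e⟩

theorem kill_Nst {N : Type} [AddCommGroup N] [Module ℂ N] [Module (P m) N]
    [IsScalarTower ℂ (P m) N] (b : FB K.fr.yi N) {S : Finset Vec} (hS : S ⊆ K.A ∪ K.B)
    (hc : S.card ≤ 3) {α : Type} {D : α → P m} (hD : K.NoZ S D) {w : N}
    (hp : ∀ h ∈ K.p S, h • w ∈ K.fr.M N S) (h : ∀ i, D i • w ∈ K.fr.M N S) : w ∈ K.fr.M N S := by
  obtain ⟨n, hn⟩ := hD.pow
  have k : K.p S ⊔ Ideal.span (Set.range D) ≤
      (K.fr.M N S).comap (LinearMap.toSpanSingleton (P m) N w) :=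
    sup_le hp (Ideal.span_le.2 (by rintro _ ⟨i, rfl⟩; exact h i))
  exact y_reg b (K.ok hS).1 hc ((K.ok hS).2 0) n (k (hn _))

theorem Ctx.killO {S : Finset Vec} (hS : S ⊆ K.A ∪ K.B) (hc : S.card ≤ 3) {α : Type}
    {D : α → P m} (hD : K.NoZ S D) {w : K.Om} (h : ∀ i, D i • w ∈ K.M S) : w ∈ K.M S := by
  exact kill_Nst K (ob K.Q) hS hc hD (fun _ hh => K.smul_mem_M hh w) h

theorem Ctx.killP {S : Finset Vec} (hS : S ⊆ K.A ∪ K.B) (hc : S.card ≤ 3) {α : Type}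
    {D : α → P m} (hD : K.NoZ S D) {f : P m} (h : ∀ i, D i * f ∈ K.p S) : f ∈ K.p S := by
  exact K.mk_mem.1 (kill_Nst K K.Q.b hS hc hD
    (fun g hg => K.mk_mem.2 (Ideal.mul_mem_right f _ hg)) fun i => K.mk_mem.2 (h i))

theorem Ctx.glue {S : Finset Vec} (hS : S ⊆ K.A ∪ K.B) (hc : S.card ≤ 2) {α : Type}
    {D w : α → P m} (hD : K.NoZ S D) (hx : ∀ i j, D i * w j - D j * w i ∈ K.p S) {d : α → ℤ}
    {k : ℤ} (h1 : ∀ i, D i ∈ hz m (d i)) (h2 : ∀ i, w i ∈ hz m (d i + k)) :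
    ∃ β ∈ hz m k, ∀ i, D i * β - w i ∈ K.p S := by
  obtain ⟨n, hn⟩ := hD.pow
  let J : Ideal (P m) :=
    { carrier := {y | ∃ u, ∀ j, D j * u - y * w j ∈ K.p S}
      add_mem' := fun {y z} ⟨u, hu⟩ ⟨v, hv⟩ => ⟨u + v, fun j => by
        rw [show D j * (u + v) - (y + z) * w j = (D j * u - y * w j) + (D j * v - z * w j) by ring]
        exact add_mem (hu j) (hv j)⟩
      zero_mem' := ⟨0, fun j => by simp⟩
      smul_mem' := fun a y ⟨u, hu⟩ => ⟨a * u, fun j => by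
        rw [smul_eq_mul, show D j * (a * u) - a * y * w j = a * (D j * u - y * w j) by ring]
        exact Ideal.mul_mem_left _ a (hu j)⟩ }
  have hJ : K.p S ⊔ Ideal.span (Set.range D) ≤ J :=
    sup_le (fun y hy => ⟨0, fun j => by
      rw [mul_zero, zero_sub]; exact neg_mem (Ideal.mul_mem_right _ _ hy)⟩)
      (Ideal.span_le.2 (by rintro _ ⟨i, rfl⟩; exact ⟨w i, fun j => hx j i⟩))
  obtain ⟨u, hu⟩ := hJ (hn (K.fr.yi 0))
  obtain ⟨v, hv⟩ := hJ (hn (K.fr.yi 1))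
  have k1 : X (K.fr.yi 0) ^ n * v - X (K.fr.yi 1) ^ n * u ∈ K.p S :=
    K.killP hS (by omega) hD fun j => by
      rw [show D j * (X (K.fr.yi 0) ^ n * v - X (K.fr.yi 1) ^ n * u) =
        X (K.fr.yi 0) ^ n * (D j * v - X (K.fr.yi 1) ^ n * w j) -
          X (K.fr.yi 1) ^ n * (D j * u - X (K.fr.yi 0) ^ n * w j) by ring]
      exact sub_mem (Ideal.mul_mem_left _ _ (hv j)) (Ideal.mul_mem_left _ _ (hu j))
  obtain ⟨β, -, k2⟩ := y_reg2 K.Q.b (K.ok hS) hc n n (w := Ideal.Quotient.mk K.Q.I v)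
    (w' := Ideal.Quotient.mk K.Q.I u) (K.mk_mem.2 k1)
  obtain ⟨β, rfl⟩ := Ideal.Quotient.mk_surjective β
  have k3 : u - X (K.fr.yi 0) ^ n * β ∈ K.p S := K.mk_mem.1 k2
  have k4 : ∀ j, D j • Ideal.Quotient.mk K.Q.I β - Ideal.Quotient.mk K.Q.I (w j) ∈
      K.fr.M (P m ⧸ K.Q.I) S := fun j => by
    refine y_reg K.Q.b (K.ok hS).1 (by omega) ((K.ok hS).2 0) n
      (K.mk_mem (f := X (K.fr.yi 0) ^ n * (D j * β - w j)).2 ?_)
    rw [show X (K.fr.yi 0) ^ n * (D j * β - w j) =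
      (D j * u - X (K.fr.yi 0) ^ n * w j) - D j * (u - X (K.fr.yi 0) ^ n * β) by ring]
    exact sub_mem (hu j) (Ideal.mul_mem_left _ _ k3)
  obtain ⟨cmp, c1, c2, -, c3, c4⟩ := exists_cmpM (Φ := K.fr) K.Q.b
  obtain ⟨γ, g1, g2⟩ := (K.Q.mem_gr_iff _ _).1 (c1 k (Ideal.Quotient.mk K.Q.I β))
  refine ⟨γ, g1, fun j => ?_⟩
  have k5 := c4 S (d j + k) _ (k4 j)
  rw [map_sub, c3 _ _ _ (h1 j), c2 _ _ (K.mk_gr (h2 j)), ← g2] at k5
  exact K.mk_mem.1 k5

theorem Ctx.iota_ne {S : Finset Vec} (hS : S ⊆ K.A) (hn : S.Nonempty) (hc : S.card ≤ 3) {w : K.Om}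
    (hw : w ∉ K.M S) : ∃ J f, Ideal.Quotient.mk K.Q.I f = K.T.ι J w ∧ f ∉ K.p S := by
  by_contra h
  push Not at h
  obtain ⟨a, ha⟩ := hn
  refine hw (K.killO (hS.trans Finset.subset_union_left) hc (K.noz0 (hS ha) ha) fun x => ?_)
  obtain ⟨f, hf⟩ := Ideal.Quotient.mk_surjective (K.T.ι x.1 w)
  rw [← K.T.ι_sym x.1 w (K.T.κ x.2) f _ hf (K.T.ι_κ x.1 x.2).symm]
  exact K.smul_mem_M (h _ f hf) _

end

end Pool.Agent.MP_1c689d_ag.K0.Al

end

section

/-! Multilinearity of the Jacobian determinants and the rule of Cramer. -/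

set_option autoImplicit false

open MvPolynomial

namespace Pool.Agent.MP_1c689d_ag.K0.Al

noncomputable section

variable {m k c r : ℕ} {N : Type} [AddCommGroup N] [Module (P m) N]

/-- The matrix whose determinant is `jd`. -/
def mat_Jd (Q : PD m k c r) (J : Fin c → Fin r) (w : Fin k → Fin m → P m) :
    Matrix (Fin c ⊕ Fin k) (Fin c ⊕ Fin k) (P m) :=
  Matrix.of fun i j => Sum.elim (fun a => gd (Q.F (J a))) w i (Q.eqv j)

theorem det_Jd (Q : PD m k c r) (J : Fin c → Fin r) (w : Fin k → Fin m → P m) :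
    Q.jd J w = (mat_Jd Q J w).det := rfl

theorem update_Jd (Q : PD m k c r) (J : Fin c → Fin r) (w : Fin k → Fin m → P m) (i : Fin k)
    (u : Fin m → P m) : Q.jd J (Function.update w i u) =
      ((mat_Jd Q J w).updateRow (Sum.inr i) fun j => u (Q.eqv j)).det := by
  rw [det_Jd]
  refine congrArg Matrix.det (Matrix.ext fun a j => ?_)
  rw [Matrix.updateRow_apply]
  rcases a with a | a
  · rw [if_neg Sum.inl_ne_inr]
    rfl
  · change Function.update w i u a (Q.eqv j) = _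
    by_cases h : a = i
    · rw [h, Function.update_self, if_pos rfl]
    · rw [Function.update_of_ne h, if_neg fun e => h (Sum.inr.inj e)]
      rfl

theorem sum_ue_Jd (g : Fin m → N) (l : Fin m) : ∑ a, ue l a • g a = g l := by
  rw [Finset.sum_eq_single l]
  · rw [ue, Pi.single_eq_same, one_smul]
  · intro a _ h
    rw [ue, Pi.single_eq_of_ne h, zero_smul]
  · exact fun h => absurd (Finset.mem_univ l) h

theorem up0_Jd {α : Type} (a b c d x : α) : Function.update ![a, b, c, d] 0 x = ![x, b, c, d] := by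
  funext t
  fin_cases t <;> rfl

theorem up1_Jd {α : Type} (a b c d x : α) : Function.update ![a, b, c, d] 1 x = ![a, x, c, d] := by
  funext t
  fin_cases t <;> rfl

theorem up2_Jd {α : Type} (a b c d x : α) : Function.update ![a, b, c, d] 2 x = ![a, b, x, d] := by
  funext t
  fin_cases t <;> rfl

theorem up3_Jd {α : Type} (a b c d x : α) : Function.update ![a, b, c, d] 3 x = ![a, b, c, x] := by
  funext t
  fin_cases t <;> rfl

theorem jd_update_sum (Q : PD m k c r) (J : Fin c → Fin r) (w : Fin k → Fin m → P m) (i : Fin k)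
    (u : Fin m → P m) :
    Q.jd J (Function.update w i u) = ∑ l, u l * Q.jd J (Function.update w i (ue l)) := by
  have e : (fun j => u (Q.eqv j)) = ∑ l, u l • fun j => ue l (Q.eqv j) := by
    funext j
    rw [Finset.sum_apply, Finset.sum_eq_single (Q.eqv j)]
    · simp only [ue, Pi.smul_apply, Pi.single_eq_same, smul_eq_mul, mul_one]
    · intro a _ h
      simp only [ue, Pi.smul_apply, Pi.single_eq_of_ne h.symm, smul_zero]
    · exact fun h => absurd (Finset.mem_univ _) h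
  simp only [update_Jd, ← Matrix.cramer_transpose_apply]
  rw [e, map_sum, Finset.sum_apply]
  refine Finset.sum_congr rfl fun l _ => ?_
  rw [map_smul, Pi.smul_apply, smul_eq_mul]

theorem jd_eq_zero (Q : PD m k c r) (J : Fin c → Fin r) {w : Fin k → Fin m → P m} {i i' : Fin k}
    (h : i ≠ i') (he : w i = w i') : Q.jd J w = 0 := by
  refine Matrix.det_zero_of_row_eq (M := mat_Jd Q J w) (i := Sum.inr i) (j := Sum.inr i')
    (fun e => h (Sum.inr.inj e)) (funext fun j => ?_)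
  exact congrFun he (Q.eqv j)

theorem jd_eq_zero_F (Q : PD m k c r) (J : Fin c → Fin r) {w : Fin k → Fin m → P m} {i : Fin k}
    {a : Fin c} (he : w i = gd (Q.F (J a))) : Q.jd J w = 0 := by
  refine Matrix.det_zero_of_row_eq (M := mat_Jd Q J w) (i := Sum.inr i) (j := Sum.inl a)
    Sum.inr_ne_inl (funext fun j => ?_)
  exact congrFun he (Q.eqv j)

theorem jd_swap (Q : PD m k c r) (J : Fin c → Fin r) (w : Fin k → Fin m → P m) {i i' : Fin k}
    (h : i ≠ i') : Q.jd J (w ∘ Equiv.swap i i') = -Q.jd J w := by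
  have e : mat_Jd Q J (w ∘ Equiv.swap i i') =
      (mat_Jd Q J w).submatrix (Equiv.swap (Sum.inr i) (Sum.inr i')) id := by
    refine Matrix.ext fun a j => ?_
    rcases a with a | a
    · rw [Matrix.submatrix_apply, Equiv.swap_apply_of_ne_of_ne Sum.inl_ne_inr Sum.inl_ne_inr]
      rfl
    · rw [Matrix.submatrix_apply, Sum.inr_injective.swap_apply]
      rfl
  rw [det_Jd, det_Jd, e, Matrix.det_permute, Equiv.Perm.sign_swap fun e => h (Sum.inr.inj e)]
  simp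

theorem cramer (Q : PD m k c r) (J : Fin c → Fin r) (N0 : Submodule (P m) N) {g : Fin m → N}
    (hg : ∀ a, dv g (Q.F (J a)) ∈ N0) (w : Fin k → Fin m → P m) (l : Fin m) :
    Q.jd J w • g l - ∑ i, Q.jd J (Function.update w i (ue l)) • ∑ a, w i a • g a ∈ N0 := by
  have h1 : ∀ i, (mat_Jd Q J w).adjugate (Q.eqv.symm l) (Sum.inr i) =
      Q.jd J (Function.update w i (ue l)) := fun i => by
    rw [update_Jd, Matrix.adjugate_apply]
    refine congrArg (fun b => ((mat_Jd Q J w).updateRow (Sum.inr i) b).det) (funext fun j => ?_)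
    by_cases h : j = Q.eqv.symm l
    · rw [h, Pi.single_eq_same, Equiv.apply_symm_apply, ue, Pi.single_eq_same]
    · rw [Pi.single_eq_of_ne h, ue, Pi.single_eq_of_ne fun e => h (Q.eqv.eq_symm_apply.2 e)]
  have h2 : Q.jd J w • g l = ∑ i, (mat_Jd Q J w).adjugate (Q.eqv.symm l) i •
      ∑ j, mat_Jd Q J w i j • g (Q.eqv j) := by
    simp only [Finset.smul_sum, smul_smul]
    rw [Finset.sum_comm]
    simp only [← Finset.sum_smul, ← Matrix.mul_apply, Matrix.adjugate_mul]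
    rw [Finset.sum_eq_single (Q.eqv.symm l)]
    · rw [Matrix.smul_apply, Matrix.one_apply_eq, Equiv.apply_symm_apply, smul_eq_mul, mul_one,
        det_Jd]
    · intro j _ h
      rw [Matrix.smul_apply, Matrix.one_apply_ne h.symm, smul_zero, zero_smul]
    · exact fun h => absurd (Finset.mem_univ _) h
  have h3 : ∀ i, ∑ j, mat_Jd Q J w (Sum.inr i) j • g (Q.eqv j) = ∑ a, w i a • g a := fun i =>
    Q.eqv.sum_comp fun a => w i a • g a
  have h4 : ∀ a, ∑ j, mat_Jd Q J w (Sum.inl a) j • g (Q.eqv j) = dv g (Q.F (J a)) := fun a =>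
    Q.eqv.sum_comp fun l => gd (Q.F (J a)) l • g l
  rw [h2, Fintype.sum_sum_type]
  simp only [h1, h3, h4, add_sub_cancel_right]
  exact N0.sum_mem fun a _ => N0.smul_mem _ (hg a)

theorem cramer2 (Q : PD m 4 c r) (J : Fin c → Fin r) (N0 : Submodule (P m) N) {g : Fin m → N}
    (hg : ∀ a, dv g (Q.F (J a)) ∈ N0) {u1 u2 : P m} (h1 : dv g u1 ∈ N0) (h2 : dv g u2 ∈ N0)
    (k l a : Fin m) : Q.jd J ![gd u1, gd u2, ue k, ue l] • g a -
      Q.jd J ![gd u1, gd u2, ue a, ue l] • g k - Q.jd J ![gd u1, gd u2, ue k, ue a] • g l ∈ N0 := by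
  have h := cramer Q J N0 hg ![gd u1, gd u2, ue k, ue l] a
  rw [Fin.sum_univ_four, up0_Jd, up1_Jd, up2_Jd, up3_Jd] at h
  have h' := N0.add_mem (N0.add_mem h (N0.smul_mem (Q.jd J ![ue a, gd u2, ue k, ue l]) h1))
    (N0.smul_mem (Q.jd J ![gd u1, ue a, ue k, ue l]) h2)
  change _ - (_ • dv g u1 + _ • dv g u2 + _ • ∑ b, ue k b • g b + _ • ∑ b, ue l b • g b) + _ +
    _ ∈ N0 at h'
  rw [sum_ue_Jd, sum_ue_Jd] at h'
  refine (congrArg (· ∈ N0) ?_).mp h'
  abel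

theorem cramer3 (Q : PD m 4 c r) (J : Fin c → Fin r) (N0 : Submodule (P m) N) {g : Fin m → N}
    (hg : ∀ a, dv g (Q.F (J a)) ∈ N0) {u1 u2 u3 : P m} (h1 : dv g u1 ∈ N0) (h2 : dv g u2 ∈ N0)
    (h3 : dv g u3 ∈ N0) (l a : Fin m) : Q.jd J ![gd u1, gd u2, gd u3, ue l] • g a -
      Q.jd J ![gd u1, gd u2, gd u3, ue a] • g l ∈ N0 := by
  have h := cramer Q J N0 hg ![gd u1, gd u2, gd u3, ue l] a
  rw [Fin.sum_univ_four, up0_Jd, up1_Jd, up2_Jd, up3_Jd] at h
  have h' := N0.add_mem (N0.add_mem (N0.add_mem h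
    (N0.smul_mem (Q.jd J ![ue a, gd u2, gd u3, ue l]) h1))
    (N0.smul_mem (Q.jd J ![gd u1, ue a, gd u3, ue l]) h2))
    (N0.smul_mem (Q.jd J ![gd u1, gd u2, ue a, ue l]) h3)
  change _ - (_ • dv g u1 + _ • dv g u2 + _ • dv g u3 + _ • ∑ b, ue l b • g b) + _ + _ +
    _ ∈ N0 at h'
  rw [sum_ue_Jd] at h'
  refine (congrArg (· ∈ N0) ?_).mp h'
  abel

theorem jd2_anti (Q : PD m 4 c r) (J : Fin c → Fin r) (u1 u2 : Fin m → P m) (k l : Fin m) :
    Q.jd J ![u1, u2, ue k, ue l] = -Q.jd J ![u1, u2, ue l, ue k] := by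
  rw [← jd_swap Q J _ (i := 2) (i' := 3) (by decide)]
  refine congrArg (Q.jd J) (funext fun t => ?_)
  fin_cases t <;> rfl

theorem jd2_expand (Q : PD m 4 c r) (J : Fin c → Fin r) (u1 u2 : Fin m → P m) (k l : Fin m) :
    Q.jd J ![u1, u2, ue k, ue l] =
      ∑ i, ∑ j, u1 i * u2 j * Q.jd J fun t => ue (![i, j, k, l] t) := by
  rw [← up0_Jd u1 u2 _ _ u1, jd_update_sum]
  refine Finset.sum_congr rfl fun i _ => ?_
  rw [up0_Jd, ← up1_Jd _ u2 _ _ u2, jd_update_sum, Finset.mul_sum]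
  refine Finset.sum_congr rfl fun j _ => ?_
  rw [up1_Jd, mul_assoc]
  refine congrArg (fun w => u1 i * (u2 j * Q.jd J w)) (funext fun t => ?_)
  fin_cases t <;> rfl

theorem jd3_expand (Q : PD m 4 c r) (J : Fin c → Fin r) (u1 u2 u3 : Fin m → P m) (l : Fin m) :
    Q.jd J ![u1, u2, u3, ue l] = ∑ a, u3 a * Q.jd J ![u1, u2, ue a, ue l] := by
  rw [← up2_Jd u1 u2 u3 _ u3, jd_update_sum]
  simp only [up2_Jd]

theorem plucker (Q : PD m 4 c r) (J : Fin c → Fin r) (u1 u2 : P m) (k l a d : Fin m) :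
    Q.jd J ![gd u1, gd u2, ue k, ue l] * Q.jd J ![gd u1, gd u2, ue a, ue d] =
      Q.jd J ![gd u1, gd u2, ue a, ue l] * Q.jd J ![gd u1, gd u2, ue k, ue d] +
        Q.jd J ![gd u1, gd u2, ue k, ue a] * Q.jd J ![gd u1, gd u2, ue l, ue d] := by
  have key : ∀ u : P m, dv (fun b => Q.jd J ![gd u1, gd u2, ue b, ue d]) u =
      Q.jd J ![gd u1, gd u2, gd u, ue d] := fun u => (jd3_expand Q J _ _ (gd u) d).symm
  have h := cramer2 Q J (⊥ : Submodule (P m) (P m))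
    (g := fun b => Q.jd J ![gd u1, gd u2, ue b, ue d])
    (fun b => (key _).trans (jd_eq_zero_F Q J (i := 2) rfl))
    ((key u1).trans (jd_eq_zero Q J (i := 0) (i' := 2) (by decide) rfl))
    ((key u2).trans (jd_eq_zero Q J (i := 1) (i' := 2) (by decide) rfl)) k l a
  rw [Submodule.mem_bot, smul_eq_mul, smul_eq_mul, smul_eq_mul] at h
  linear_combination h

end

end Pool.Agent.MP_1c689d_ag.K0.Al

end

section

/-! The curves are integral. -/

set_option autoImplicit false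

open MvPolynomial

namespace Pool.Agent.MP_1c689d_ag.K0.Al

noncomputable section

variable {m c r : ℕ} (K : Ctx m c r)

theorem unit_Dom {J : Ideal (P m)} (hJ : ∀ f ∈ J, ∀ i, homogeneousComponent i f ∈ J) {f g : P m}
    (hg : coeff 0 g ≠ 0) (h : g * f ∈ J) : f ∈ J := by
  have h1 : 1 - C (coeff 0 g)⁻¹ * g ∈ idealOfVars (Fin m) ℂ := by
    rw [← pow_one (idealOfVars (Fin m) ℂ), mem_pow_idealOfVars_iff']
    intro x hx
    obtain rfl : x = 0 := (Finsupp.degree_eq_zero_iff x).1 (by omega)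
    simp [hg]
  rw [← sum_homogeneousComponent f]
  refine sum_mem fun i _ => ?_
  obtain ⟨y, hy⟩ := one_sub_dvd_one_sub_pow (1 - C (coeff 0 g)⁻¹ * g) (i + 1)
  have h2 : f - (1 - C (coeff 0 g)⁻¹ * g) ^ (i + 1) * f = C (coeff 0 g)⁻¹ * y * (g * f) := by
    rw [← one_sub_mul, hy]
    ring
  have h3 := hJ _ (h2 ▸ J.mul_mem_left _ h) i
  rwa [map_sub, homogeneousComponent_eq_zero' i (_ * f) fun d hd =>
    ((mem_pow_idealOfVars_iff _ _).1 (Ideal.mul_mem_right f _ (Ideal.pow_mem_pow h1 (i + 1)))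
      d hd).trans_lt' (Nat.lt_succ_self i) |>.ne', sub_zero] at h3

theorem Ctx.ok_Dom {a b : Vec} (ha : a ∈ K.A) (hb : b ∈ K.A) : K.fr.Ok {a, b} :=
  K.ok (Finset.insert_subset (Finset.mem_union_left _ ha)
    (Finset.singleton_subset_iff.2 (Finset.mem_union_left _ hb)))

theorem Ctx.y_Dom {a b : Vec} (ha : a ∈ K.A) (hb : b ∈ K.A) (hab : a ≠ b) {v : Fin m → ℂ}
    (hv : K.Q.OnC v) (h1 : eval v (K.L a) = 0) (h2 : eval v (K.L b) = 0) :
    v (K.Q.yi 0) ≠ 0 ∨ v (K.Q.yi 1) ≠ 0 := by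
  obtain ⟨k1, k2⟩ := K.ok_Dom ha hb
  have he : K.e ≠ 0 := by have := K.e4; omega
  by_contra hc
  rw [not_or, not_not, not_not] at hc
  have h3 := K.fr.gp.eq_zero (S := insert (ev 0) (insert (ev 1) {a, b}))
    (Finset.insert_subset (K.fr.unit 0) (Finset.insert_subset (K.fr.unit 1) k1))
    (by
      rw [Finset.card_insert_of_notMem, Finset.card_insert_of_notMem (k2 1), Finset.card_pair hab]
      rw [Finset.mem_insert, not_or]
      exact ⟨fun e => absurd (ev_inj e) (by decide), k2 0⟩)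
    (u := fun l => v (K.Q.yi l) ^ K.e) (by
      simp only [Finset.mem_insert, Finset.mem_singleton, ← eval_Lv]
      rintro _ (rfl | rfl | rfl | rfl)
      · simp [Lv_ev, hc.1, he]
      · simp [Lv_ev, hc.2, he]
      · exact h1
      · exact h2)
  exact K.Q.y_ne hv (funext fun l => pow_eq_zero_iff he |>.1 (congrFun h3 l))

theorem Ctx.minor_Dom {a b : Vec} (ha : a ∈ K.A) (hb : b ∈ K.A) (hab : a ≠ b) {v : Fin m → ℂ}
    (hv : K.Q.OnC v) (h1 : eval v (K.L a) = 0) (h2 : eval v (K.L b) = 0) {i : Fin m}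
    (hi : v i ≠ 0) : ∃ J l, eval v (K.D2 J a b i l) ≠ 0 := by
  obtain ⟨J, k, l, h⟩ := K.pos.tr2 a ha b hb hab v hv h1 h2
  have k1 : ∀ s ∈ ({a, b} : Finset Vec), dv (fun l => (X l : P m)) (K.L s) ∈ K.p {a, b} :=
    fun s hs => by
      rw [dv_euler_P (Lv_hom _ _ _)]
      exact Ideal.mul_mem_left _ _ (Ideal.mem_sup_right (K.fr.mem_q hs))
  have h3 := K.eval_p hv (S := {a, b}) (by simpa using ⟨h1, h2⟩)
    (cramer2 K.Q J (K.p {a, b}) (g := fun l => X l) (fun t => by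
      rw [dv_euler_P (K.Q.Fh _)]
      exact Ideal.mul_mem_left _ _ (Ideal.mem_sup_left (Ideal.subset_span ⟨_, rfl⟩)))
      (k1 a (by simp)) (k1 b (by simp)) k l i)
  by_contra hc
  simp only [not_exists, not_not] at hc
  rw [jd2_anti K.Q J _ _ k i] at h3
  simp only [smul_eq_mul, map_sub, map_mul, map_neg, eval_X, hc, zero_mul, neg_zero,
    sub_zero] at h3
  exact mul_ne_zero h hi h3

/-- The local rings of the cone over a curve are domains. -/
theorem Ctx.loc {a b : Vec} (ha : a ∈ K.A) (hb : b ∈ K.A) (hab : a ≠ b) {v : Fin m → ℂ}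
    (hv : K.Q.OnC v) (h1 : eval v (K.L a) = 0) (h2 : eval v (K.L b) = 0) {f g : P m}
    (h : f * g ∈ K.p {a, b}) : (∃ s, eval v s ≠ 0 ∧ s * f ∈ K.p {a, b}) ∨
      ∃ s, eval v s ≠ 0 ∧ s * g ∈ K.p {a, b} := by
  obtain ⟨k1, k2⟩ := K.ok_Dom ha hb
  have he : K.e ≠ 0 := by have := K.e4; omega
  have hy := K.y_Dom ha hb hab hv h1 h2
  obtain ⟨i, hi⟩ : ∃ i, v i ≠ 0 := hy.elim (fun e => ⟨_, e⟩) fun e => ⟨_, e⟩
  obtain ⟨J, l, hJ⟩ := K.minor_Dom ha hb hab hv h1 h2 hi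
  have hp : K.p {a, b} ≤ RingHom.ker (eval v : P m →+* ℂ) := fun x hx =>
    K.eval_p hv (by simpa using ⟨h1, h2⟩) hx
  have hk := Ideal.ker_quotient_lift (eval v : P m →+* ℂ) hp
  have hmax := RingHom.ker_isMaximal_of_surjective (Ideal.Quotient.lift _ (eval v : P m →+* ℂ) hp)
    fun t => ⟨Ideal.Quotient.mk _ (C t), eval_C t⟩
  obtain ⟨w, hw, hw'⟩ : ∃ w, w ∉ Submodule.span ℂ (({a, b} : Finset Vec) : Set Vec) ∧
      eval v (K.L w) = 0 := by
    refine ⟨v (K.Q.yi 0) ^ K.e • ev 1 - v (K.Q.yi 1) ^ K.e • ev 0, fun e => ?_, ?_⟩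
    · have h3 := K.fr.gp.span_inter k1 (T := {ev 0, ev 1})
        (Finset.insert_subset (K.fr.unit 0) (Finset.singleton_subset_iff.2 (K.fr.unit 1)))
        ((Finset.card_union_le _ _).trans (add_le_add Finset.card_le_two Finset.card_le_two)) e
        (sub_mem (Submodule.smul_mem _ _ (Submodule.subset_span (by simp)))
          (Submodule.smul_mem _ _ (Submodule.subset_span (by simp))))
      rw [Finset.disjoint_iff_inter_eq_empty.1 (Finset.disjoint_insert_right.2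
        ⟨k2 0, Finset.disjoint_singleton_right.2 (k2 1)⟩), Finset.coe_empty, Submodule.span_empty,
        Submodule.mem_bot] at h3
      have h4 := congrFun h3 0
      have h5 := congrFun h3 1
      simp [ev, he] at h4 h5
      exact hy.elim (fun e => e h5) fun e => e h4
    · simp only [Lv_sub, Lv_smul, Lv_ev, map_sub, map_mul, eval_C, map_pow, eval_X]
      ring
  have hg : coeff 0 (X i - C (v i) : P m) ≠ 0 := by simpa using hi
  have hX : ∀ j, eval v (X j - C (v j) : P m) = 0 := fun j => by simp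
  have key := local_domain (RingHom.ker (Ideal.Quotient.lift _ (eval v : P m →+* ℂ) hp))
    (g1 := Ideal.Quotient.mk _ (X i - C (v i))) (g2 := Ideal.Quotient.mk _ (K.L w))
    (π := Ideal.Quotient.mk _ (X l - C (v l))) (hX i) hw' (hX l) (fun x hx => ?_)
    (fun x hx => ?_) ?_ (f := Ideal.Quotient.mk _ f) (g := Ideal.Quotient.mk _ g)
    (Ideal.Quotient.eq_zero_iff_mem.2 h)
  · refine key.imp ?_ ?_ <;> rintro ⟨s, hs, hs'⟩ <;>
      obtain ⟨s, rfl⟩ := Ideal.Quotient.mk_surjective s <;>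
      exact ⟨s, hs, Ideal.Quotient.eq_zero_iff_mem.1 hs'⟩
  · obtain ⟨x, rfl⟩ := Ideal.Quotient.mk_surjective x
    exact Ideal.Quotient.eq_zero_iff_mem.2
      (unit_Dom (fun _ e => K.p_hom e) hg (Ideal.Quotient.eq_zero_iff_mem.1 hx))
  · obtain ⟨x, rfl⟩ := Ideal.Quotient.mk_surjective x
    obtain ⟨y, hy⟩ := Ideal.mem_span_singleton'.1 hx
    obtain ⟨y, rfl⟩ := Ideal.Quotient.mk_surjective y
    have h3 : y * (X i - C (v i)) - K.L w * x ∈ K.p {a, b} := Ideal.Quotient.eq.1 hy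
    have h4 : y ∈ K.p (insert w {a, b}) := by
      refine unit_Dom (fun _ e => K.p_hom e) hg ?_
      have h5 := add_mem (sup_le_sup_left (K.fr.q_mono (Finset.subset_insert w _)) _ h3)
        (Ideal.mul_mem_right x _ (Ideal.mem_sup_right (K.fr.mem_q (Finset.mem_insert_self w _))))
      rwa [sub_add_cancel, mul_comm] at h5
    obtain ⟨u, hu⟩ := K.fr.mem_M_insert.1 (K.mk_mem.2 h4)
    obtain ⟨u, rfl⟩ := Ideal.Quotient.mk_surjective u
    have h5 : y - K.L w * u ∈ K.p {a, b} := K.mk_mem.1 hu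
    have h6 : K.L w * (u * (X i - C (v i)) - x) ∈ K.p {a, b} := by
      have h7 := sub_mem h3 (Ideal.mul_mem_right (X i - C (v i)) _ h5)
      rwa [show y * (X i - C (v i)) - K.L w * x - (y - K.L w * u) * (X i - C (v i)) =
        K.L w * (u * (X i - C (v i)) - x) by ring] at h7
    exact Ideal.mem_span_singleton'.2 ⟨Ideal.Quotient.mk _ u,
      Ideal.Quotient.eq.2 (K.mk_mem.1 (reg K.Q.b hw (K.mk_mem.2 h6)))⟩
  · have h3 : K.p {a, b} ≤ Ideal.comap (Ideal.Quotient.mk (K.p {a, b})) ⊥ := fun x hx =>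
      Ideal.Quotient.eq_zero_iff_mem.2 hx
    rw [hk, Ideal.map_le_iff_le_comap, ← Ideal.map_pow]
    refine (cotangent K.Q J hv.2 h1 h2 hJ).trans (sup_le (sup_le
      ((sup_le_sup_left ?_ _).trans (h3.trans (Ideal.comap_mono bot_le))) ?_)
      (Ideal.le_comap_map.trans (Ideal.comap_mono le_sup_right)))
    · exact Ideal.span_le.2 (Set.pair_subset (K.fr.mem_q (by simp)) (K.fr.mem_q (by simp)))
    · exact Ideal.span_le.2 (Set.pair_subset (Ideal.mem_sup_left (Ideal.subset_span (by simp)))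
        (Ideal.mem_sup_left (Ideal.subset_span (by simp))))

theorem Ctx.prime {a b : Vec} (ha : a ∈ K.A) (hb : b ∈ K.A) (hab : a ≠ b) : (K.p {a, b}).IsPrime := by
  refine ⟨(Ideal.ne_top_iff_one _).2 fun e => one_ne_zero (K.C_mem e), fun {g f} h => ?_⟩
  have hO := K.ok_Dom ha hb
  obtain ⟨T, hT⟩ := IsNoetherian.noetherian (Submodule.colon (K.p {a, b}) {f})
  have h0 : ∀ x, x ∈ Submodule.span (P m) (T : Set (P m)) ↔ x * f ∈ K.p {a, b} := fun x => by
    rw [hT, Submodule.mem_colon_singleton, smul_eq_mul]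
  obtain ⟨n, hn⟩ := null0 (Submodule.span (P m) (T : Set (P m)) ⊔
      Submodule.colon (K.p {a, b}) (T : Set (P m))) fun v hv => by
    by_contra hc
    simp only [not_exists, not_and, not_not] at hc
    have h1 : ∀ x ∈ K.p {a, b}, eval v x = 0 := fun x hx =>
      hc x (Ideal.mem_sup_left ((h0 x).2 (Ideal.mul_mem_right _ _ hx)))
    have h2 : ∀ x ∈ T, ∃ s, eval v s ≠ 0 ∧ s * x ∈ K.p {a, b} := fun x hx =>
      (K.loc ha hb hab ⟨hv, fun j => h1 _ (Ideal.mem_sup_left (Ideal.subset_span ⟨j, rfl⟩))⟩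
        (h1 _ (Ideal.mem_sup_right (K.fr.mem_q (by simp))))
        (h1 _ (Ideal.mem_sup_right (K.fr.mem_q (by simp))))
        ((h0 x).1 (Submodule.subset_span hx))).resolve_right
          fun ⟨s, hs, hs'⟩ => hs (hc s (Ideal.mem_sup_left ((h0 s).2 hs')))
    choose! s s1 s2 using h2
    refine Finset.prod_ne_zero_iff.2 s1 ((map_prod _ _ _).symm.trans
      (hc _ (Ideal.mem_sup_right (Submodule.mem_colon.2 fun x hx => ?_))))
    obtain ⟨y, hy⟩ := Finset.dvd_prod_of_mem s hx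
    rw [hy, smul_eq_mul, mul_right_comm]
    exact Ideal.mul_mem_right _ _ (s2 x hx)
  rw [← Submodule.colon_span] at hn
  obtain ⟨a1, k1, a2, k2, e1⟩ := Submodule.mem_sup.1 (hn (K.Q.yi 0))
  obtain ⟨b1, k3, b2, k4, e2⟩ := Submodule.mem_sup.1 (hn (K.Q.yi 1))
  have h1 : X (K.Q.yi 0) ^ n * b1 - X (K.Q.yi 1) ^ n * a1 ∈ K.p {a, b} := by
    have h2 := sub_mem (Submodule.mem_colon.1 k2 _ k3) (Submodule.mem_colon.1 k4 _ k1)
    rwa [← e1, ← e2, show (a1 + a2) * b1 - (b1 + b2) * a1 = a2 • b1 - b2 • a1 by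
      simp only [smul_eq_mul]; ring]
  obtain ⟨u, -, hu⟩ := y_reg2 (Φ := K.fr) K.Q.b hO Finset.card_le_two n n
    (w := Ideal.Quotient.mk _ b1) (w' := Ideal.Quotient.mk _ a1) (K.mk_mem.2 h1)
  obtain ⟨u, rfl⟩ := Ideal.Quotient.mk_surjective u
  have h2 : a1 - X (K.Q.yi 0) ^ n * u ∈ K.p {a, b} := K.mk_mem.1 hu
  have h3 : ∀ x, X (K.Q.yi 0) ^ n * x ∈ K.p {a, b} → x ∈ K.p {a, b} := fun x hx =>
    K.mk_mem.1 (y_reg (Φ := K.fr) K.Q.b hO.1 (Finset.card_le_two.trans (by omega)) (hO.2 0) n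
      (K.mk_mem.2 hx))
  by_cases e : coeff 0 u = 0
  · refine Or.inl (unit_Dom (fun _ e => K.p_hom e) (g := 1 - u) (by simp [e]) (h3 _ ?_))
    have h4 := add_mem (Submodule.mem_colon.1 k2 _ ((h0 g).2 h)) (Ideal.mul_mem_right g _ h2)
    rwa [show a2 • g + (a1 - X (K.Q.yi 0) ^ n * u) * g = X (K.Q.yi 0) ^ n * ((1 - u) * g) by
      rw [smul_eq_mul, eq_sub_of_add_eq' e1]; ring] at h4
  · refine Or.inr (unit_Dom (fun _ e => K.p_hom e) e (h3 _ ?_))
    have h4 := sub_mem ((h0 a1).1 k1) (Ideal.mul_mem_right f _ h2)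
    rwa [show a1 * f - (a1 - X (K.Q.yi 0) ^ n * u) * f = X (K.Q.yi 0) ^ n * (u * f) by ring] at h4

theorem const_Dom {A B : Type} [CommRing A] [CommRing B] (φ : A →+* B) {q : Ideal A}
    {p : Ideal B} (hq : q ≠ ⊤) (hp : p.IsPrime) (hφ : q.map φ ≤ p) {h : B} (hh : h ∉ p) (n : ℕ) :
    ∀ G : Polynomial A, G.coeff n = 1 → G.eval₂ φ h ∈ p → ∃ g ∉ q, ∃ y, φ g + h * y ∈ p := by
  have e : ∀ G : Polynomial A, G.eval₂ φ h = φ (G.coeff 0) + h * G.divX.eval₂ φ h := fun G => by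
    conv_lhs => rw [← G.X_mul_divX_add]
    rw [Polynomial.eval₂_add, Polynomial.eval₂_mul, Polynomial.eval₂_X, Polynomial.eval₂_C,
      add_comm]
  induction n with
  | zero => exact fun G h1 h2 => ⟨_, h1 ▸ (Ideal.ne_top_iff_one q).1 hq, _, e G ▸ h2⟩
  | succ n ih =>
    intro G h1 h2
    rw [e G] at h2
    by_cases h3 : G.coeff 0 ∈ q
    · exact ih _ (Polynomial.coeff_divX.trans h1) ((hp.mem_or_mem
        ((add_mem_cancel_left (hφ (Ideal.mem_map_of_mem φ h3))).1 h2)).resolve_left hh)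
    · exact ⟨_, h3, _, h2⟩

/-- The restriction of the dualising module to a curve is torsion free. -/
theorem Ctx.tf {a b : Vec} (ha : a ∈ K.A) (hb : b ∈ K.A) (hab : a ≠ b) {h : P m}
    (hh : h ∉ K.p {a, b}) {w : K.Om} (hw : h • w ∈ K.M {a, b}) : w ∈ K.M {a, b} := by
  have he : 0 < K.e := by have := K.e4; omega
  obtain ⟨G, h1, h2⟩ := exists_monic K.Q he h
  have hq := lin_prime (({a, b} : Finset Vec) : Set Vec)
  obtain ⟨g, h3, y, h4⟩ := const_Dom (phi K.Q.yi K.e).toRingHom hq.ne_top (K.prime ha hb hab)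
    ((K.fr.q_eq {a, b}).ge.trans le_sup_right) hh _ G h1 (Ideal.mem_sup_left h2)
  have h5 := sub_mem (K.smul_mem_M h4 w) (Submodule.smul_mem _ y hw)
  rw [add_smul, mul_comm, mul_smul, add_sub_cancel_right] at h5
  unfold Ctx.M Fr.M at h5 ⊢
  rw [K.fr.q_eq] at h5 ⊢
  exact flat_colon (ob K.Q) he _ (fun x hx => (hq.mem_or_mem hx).resolve_left h3) h5

end

end Pool.Agent.MP_1c689d_ag.K0.Al

end

section

/-! Bivectors tangent to the cone over a curve. -/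

set_option autoImplicit false

open MvPolynomial

namespace Pool.Agent.MP_1c689d_ag.K0.Al

noncomputable section

variable {m c r : ℕ} (K : Ctx m c r)

theorem Ctx.sub2_Kap {a b : Vec} (ha : a ∈ K.A) (hb : b ∈ K.A) :
    ({a, b} : Finset Vec) ⊆ K.A ∪ K.B :=
  Finset.insert_subset (Finset.mem_union_left _ ha)
    (Finset.singleton_subset_iff.2 (Finset.mem_union_left _ hb))

theorem Ctx.sub3_Kap {a b s : Vec} (ha : a ∈ K.A) (hb : b ∈ K.A) (hs : s ∈ K.A ∪ K.B) :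
    ({s, a, b} : Finset Vec) ⊆ K.A ∪ K.B :=
  Finset.insert_subset hs (K.sub2_Kap ha hb)

theorem row_Kap {N : Type} [AddCommGroup N] [Module (P m) N] (N0 : Submodule (P m) N)
    {ψ : Fin m → Fin m → N} (anti : ∀ k l, ψ k l + ψ l k ∈ N0) {h : P m} {d : Fin m}
    (hh : dv (fun k => ψ k d) h ∈ N0) : dv (fun k => ψ d k) h ∈ N0 := by
  have h1 := dv_mem N0 (fun k => anti d k) h
  rw [dv_add_left] at h1
  simpa using N0.sub_mem h1 hh

theorem Ctx.psi0_deg (a b : Vec) (k l : Fin m) : K.psi0 a b k l ∈ K.Q.og (2 * K.e + 2) := by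
  refine Submodule.sum_mem _ fun i _ => Submodule.sum_mem _ fun j _ => ?_
  have h := K.Q.og_smul (hz_mul (hz_pderiv (K.fr.L_hz a) i) (hz_pderiv (K.fr.L_hz b) j))
    (K.T.κ_deg ![i, j, k, l])
  have e : ((K.fr.e : ℤ) - 1 + (K.fr.e - 1) + ((3 + 1 : ℕ) : ℤ)) = 2 * K.e + 2 := by
    push_cast; ring
  rwa [e] at h

theorem Ctx.iota_psi0 (J : Fin c → Fin r) (a b : Vec) (k l : Fin m) :
    K.T.ι J (K.psi0 a b k l) = Ideal.Quotient.mk K.Q.I (K.D2 J a b k l) := by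
  rw [Ctx.psi0, Ctx.D2, jd2_expand, map_sum, map_sum]
  refine Finset.sum_congr rfl fun i _ => ?_
  rw [map_sum, map_sum]
  refine Finset.sum_congr rfl fun j _ => ?_
  rw [map_smul, K.T.ι_κ]
  rfl

theorem Ctx.iota_dv_psi0 (J : Fin c → Fin r) (a b s : Vec) (l : Fin m) :
    K.T.ι J (dv (fun k => K.psi0 a b k l) (K.L s)) = Ideal.Quotient.mk K.Q.I (K.D3 J a b s l) := by
  rw [dv_map, Ctx.D3, jd3_expand, map_sum, dv]
  refine Finset.sum_congr rfl fun i _ => ?_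
  rw [K.iota_psi0]
  rfl

theorem Ctx.kapI {a b s : Vec} (ha : a ∈ K.A) (hb : b ∈ K.A) (hs : s ∈ K.A ∪ K.B) (hab : a ≠ b)
    (hsa : s ≠ a) (hsb : s ≠ b) {β : P m}
    (h : ∀ l, β • dv (fun k => K.psi0 a b k l) (K.L s) ∈ K.M {s, a, b}) : β ∈ K.p {s, a, b} := by
  refine K.killP (K.sub3_Kap ha hb hs) Finset.card_le_three (K.noz3 ha hb hs hab hsa hsb)
    fun x => K.iota_M x.1 (h x.2) ?_
  rw [map_smul, K.iota_dv_psi0, mul_comm]
  rfl

theorem Ctx.kap_cross {a b : Vec} (ha : a ∈ K.A) (hb : b ∈ K.A) (hab : a ≠ b)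
    {ψ : Fin m → Fin m → K.Om} (anti : ∀ k l, ψ k l + ψ l k ∈ K.M {a, b})
    (hF : ∀ t l, dv (fun k => ψ k l) (K.Q.F t) ∈ K.M {a, b})
    (h1 : ∀ l, dv (fun k => ψ k l) (K.L a) ∈ K.M {a, b})
    (h2 : ∀ l, dv (fun k => ψ k l) (K.L b) ∈ K.M {a, b}) (J : Fin c → Fin r) (k l k' l' : Fin m) :
    K.D2 J a b k l • ψ k' l' - K.D2 J a b k' l' • ψ k l ∈ K.M {a, b} := by
  have hC : ∀ k l x d, K.D2 J a b k l • ψ x d - K.D2 J a b x l • ψ k d -
      K.D2 J a b k x • ψ l d ∈ K.M {a, b} := fun k l x d =>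
    cramer2 K.Q J _ (g := fun x => ψ x d) (fun t => hF _ d) (h1 d) (h2 d) k l x
  have hR : ∀ k l x d, K.D2 J a b k l • ψ d x - K.D2 J a b x l • ψ d k -
      K.D2 J a b k x • ψ d l ∈ K.M {a, b} := fun k l x d =>
    cramer2 K.Q J _ (g := fun x => ψ d x) (fun t => row_Kap _ anti (hF _ d))
      (row_Kap _ anti (h1 d)) (row_Kap _ anti (h2 d)) k l x
  have h0 : ∀ k, ψ k k ∈ K.M {a, b} := fun k =>
    mem_of_nat_smul _ (i := 2) two_ne_zero (by
      rw [Nat.cast_ofNat, two_smul]; exact anti k k)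
  have key : ∀ k l k' l', K.D2 J a b k l •
      (K.D2 J a b k l • ψ k' l' - K.D2 J a b k' l' • ψ k l) ∈ K.M {a, b} := by
    intro k l k' l'
    have e1 : K.D2 J a b k l * K.D2 J a b k' l' = K.D2 J a b k' l * K.D2 J a b k l' +
        K.D2 J a b k k' * K.D2 J a b l l' := plucker K.Q J _ _ k l k' l'
    have e2 : K.D2 J a b l' l = -K.D2 J a b l l' := jd2_anti K.Q J _ _ l' l
    have m1 := Submodule.smul_mem _ (K.D2 J a b k l) (hC k l k' l')
    have m2 := Submodule.smul_mem _ (K.D2 J a b k' l) (hR k l l' k)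
    have m3 := Submodule.smul_mem _ (K.D2 J a b k k') (hR k l l' l)
    have m4 := Submodule.smul_mem _ (K.D2 J a b k' l * K.D2 J a b l' l) (h0 k)
    have m5 := Submodule.smul_mem _ (K.D2 J a b k k' * K.D2 J a b k l') (h0 l)
    have m6 := Submodule.smul_mem _ (K.D2 J a b k k' * K.D2 J a b l' l) (anti k l)
    have m := add_mem (add_mem (add_mem (add_mem (add_mem m1 m2) m3) m4) m5) m6
    rw [smul_sub, smul_smul, smul_smul, e1]
    rw [e2] at m
    generalize K.D2 J a b = D at m ⊢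
    have e : (D k l * D k l) • ψ k' l' - (D k' l * D k l' + D k k' * D l l') • ψ k l =
        D k l • (D k l • ψ k' l' - D k' l • ψ k l' - D k k' • ψ l l') +
        D k' l • (D k l • ψ k l' - -D l l' • ψ k k - D k l' • ψ k l) +
        D k k' • (D k l • ψ l l' - -D l l' • ψ l k - D k l' • ψ l l) +
        (D k' l * -D l l') • ψ k k + (D k k' * D k l') • ψ l l +
        (D k k' * -D l l') • (ψ k l + ψ l k) := by
      module
    rw [e]
    exact m
  by_cases hp : K.D2 J a b k l ∈ K.p {a, b}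
  · by_cases hp' : K.D2 J a b k' l' ∈ K.p {a, b}
    · exact sub_mem (K.smul_mem_M hp _) (K.smul_mem_M hp' _)
    · have h3 := neg_mem (K.tf ha hb hab hp' (key k' l' k l))
      rwa [neg_sub] at h3
  · exact K.tf ha hb hab hp (key k l k' l')

theorem Ctx.kap0 {a b : Vec} (ha : a ∈ K.A) (hb : b ∈ K.A) (hab : a ≠ b) {d : ℤ}
    {ψ : Fin m → Fin m → K.Om} (hd : ∀ k l, ψ k l ∈ K.Q.og d)
    (anti : ∀ k l, ψ k l + ψ l k ∈ K.M {a, b})
    (hF : ∀ t l, dv (fun k => ψ k l) (K.Q.F t) ∈ K.M {a, b})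
    (h1 : ∀ l, dv (fun k => ψ k l) (K.L a) ∈ K.M {a, b})
    (h2 : ∀ l, dv (fun k => ψ k l) (K.L b) ∈ K.M {a, b}) :
    ∃ β ∈ hz m (d - (2 * K.e + 2)), ∀ k l, ψ k l - β • K.psi0 a b k l ∈ K.M {a, b} := by
  choose s hs using K.T.ι_deg
  have hD : ∀ x : (Fin c → Fin r) × Fin m × Fin m, ∃ f ∈ hz m (2 * K.e + 2 + s x.1),
      Ideal.Quotient.mk K.Q.I f = K.T.ι x.1 (K.psi0 a b x.2.1 x.2.2) := fun x =>
    (K.Q.mem_gr_iff _ _).1 (hs _ _ _ (K.psi0_deg a b _ _))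
  have hw : ∀ x : (Fin c → Fin r) × Fin m × Fin m, ∃ f ∈ hz m (d + s x.1),
      Ideal.Quotient.mk K.Q.I f = K.T.ι x.1 (ψ x.2.1 x.2.2) := fun x =>
    (K.Q.mem_gr_iff _ _).1 (hs _ _ _ (hd _ _))
  choose D hD1 hD2 using hD
  choose w hw1 hw2 using hw
  have hI : ∀ x, D x - K.D2 x.1 a b x.2.1 x.2.2 ∈ K.Q.I := fun x =>
    Ideal.Quotient.eq.1 ((hD2 x).trans (K.iota_psi0 _ a b _ _))
  have hsym : ∀ (x : (Fin c → Fin r) × Fin m × Fin m) (k l : Fin m),
      K.D2 x.1 a b k l • ψ x.2.1 x.2.2 = w x • K.psi0 a b k l := fun x k l =>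
    K.T.ι_sym x.1 _ _ _ _ (K.iota_psi0 _ a b k l).symm (hw2 x)
  have hcr : ∀ (x : (Fin c → Fin r) × Fin m × Fin m) (k l : Fin m),
      D x • ψ k l - w x • K.psi0 a b k l ∈ K.M {a, b} := fun x k l => by
    rw [K.smul_congr (hI x), ← hsym]
    exact K.kap_cross ha hb hab anti hF h1 h2 _ _ _ _ _
  have hN := (K.noz2 ha hb hab).congr hI
  obtain ⟨β, hβ, hβ2⟩ := K.glue (K.sub2_Kap ha hb) Finset.card_le_two hN
    (w := w) (k := d - (2 * K.e + 2)) (fun x y => K.iota_M y.1 (hcr x y.2.1 y.2.2) (by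
      rw [map_sub, map_sub, map_smul, map_smul, ← hw2, ← hD2, mul_comm (D y)]
      rfl)) hD1 (fun x => by
      rw [show 2 * (K.e : ℤ) + 2 + s x.1 + (d - (2 * K.e + 2)) = d + s x.1 by ring]
      exact hw1 x)
  refine ⟨β, hβ, fun k l => K.killO (K.sub2_Kap ha hb) (Finset.card_le_two.trans (by norm_num))
    hN fun x => ?_⟩
  have h3 := sub_mem (hcr x k l) (K.smul_mem_M (hβ2 x) (K.psi0 a b k l))
  have e : D x • (ψ k l - β • K.psi0 a b k l) =
      D x • ψ k l - w x • K.psi0 a b k l - (D x * β - w x) • K.psi0 a b k l := by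
    module
  rw [e]
  exact h3

theorem Ctx.kap1 {i j k : Vec} (h : K.Tri i j k) {d : ℤ} {ψ : Fin m → Fin m → K.Om}
    (hd : ∀ a l, ψ a l ∈ K.Q.og d) (hψ : K.Lift i j k 0 0 ψ) :
    ∃ β ∈ hz m (d - (3 * K.e + 2)), ∀ a l, ψ a l - (β * K.L i) • K.psi0 j k a l ∈ K.M {j, k} := by
  obtain ⟨β, hβ, h1⟩ := K.kap0 h.hj h.hk h.jk hd hψ.anti (fun t l => by simpa using hψ.F t l)
    (fun l => by simpa using hψ.lj l) (fun l => by simpa using hψ.lk l)
  have h2 : β ∈ K.p {i, j, k} := by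
    refine K.kapI h.hj h.hk (Finset.mem_union_left _ h.hi) h.jk h.ij h.ik fun l => ?_
    have h3 := K.fr.M_mono (N := K.Om) (Finset.subset_insert i {j, k})
      (dv_mem _ (fun a => h1 a l) (K.L i))
    rw [dv_sub_left, dv_smul_left] at h3
    have h4 : dv (fun a => ψ a l) (K.L i) ∈ K.M {i, j, k} := by simpa using hψ.li l
    simpa using sub_mem h4 h3
  obtain ⟨u, hu⟩ := K.fr.mem_M_insert.1 (K.mk_mem.2 h2)
  obtain ⟨u, rfl⟩ := Ideal.Quotient.mk_surjective u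
  have h5 : β - ∑ _t ∈ (Finset.univ : Finset Unit), K.L i * u ∈ K.p {j, k} := by
    rw [Finset.sum_const, Finset.card_univ, Fintype.card_unit, one_smul]
    refine K.mk_mem.1 ?_
    rw [map_sub]
    exact hu
  obtain ⟨u', hu1, hu2⟩ := K.hdP (Finset.univ : Finset Unit) (h := fun _ => K.L i)
    (i := fun _ => K.e) (fun _ _ => K.fr.L_hz i) hβ (u := fun _ => u) h5
  rw [Fintype.sum_unique] at hu2
  refine ⟨u' default, ?_, fun a l => ?_⟩
  · rw [show d - (3 * (K.e : ℤ) + 2) = d - (2 * K.e + 2) - K.e by ring]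
    exact hu1 _
  · have h6 := add_mem (h1 a l) (K.smul_mem_M hu2 (K.psi0 j k a l))
    have e : ψ a l - (u' default * K.L i) • K.psi0 j k a l = ψ a l - β • K.psi0 j k a l +
        (β - K.L i * u' default) • K.psi0 j k a l := by
      module
    rw [e]
    exact h6

/-- At triple points a vector killed by all the rows is proportional to the Euler vector. -/
theorem Ctx.tri {a b s : Vec} (ha : a ∈ K.A) (hb : b ∈ K.A) (hs : s ∈ K.A ∪ K.B) (hab : a ≠ b)
    (hsa : s ≠ a) (hsb : s ≠ b) {g : Fin m → K.Om} (hF : ∀ t, dv g (K.Q.F t) ∈ K.M {s, a, b})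
    (h1 : dv g (K.L a) ∈ K.M {s, a, b}) (h2 : dv g (K.L b) ∈ K.M {s, a, b})
    (h3 : dv g (K.L s) ∈ K.M {s, a, b}) (k l : Fin m) : wg g k l ∈ K.M {s, a, b} := by
  refine K.killO (K.sub3_Kap ha hb hs) Finset.card_le_three (K.noz3 ha hb hs hab hsa hsb)
    fun x => ?_
  obtain ⟨J, t⟩ := x
  have hL : ∀ u ∈ ({s, a, b} : Finset Vec), dv (fun l => (X l : P m)) (K.L u) ∈ K.p {s, a, b} := by
    intro u hu
    rw [dv_euler_P (Lv_hom _ _ u)]
    exact Ideal.mul_mem_left _ _ (Ideal.mem_sup_right (K.fr.mem_q hu))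
  have hX : K.D3 J a b s k • (X l : P m) - K.D3 J a b s l • (X k : P m) ∈ K.p {s, a, b} := by
    refine cramer3 K.Q J (K.p {s, a, b}) (g := fun l => (X l : P m)) (fun t => ?_)
      (hL a (by simp)) (hL b (by simp)) (hL s (by simp)) k l
    rw [dv_euler_P (K.Q.Fh _)]
    exact Ideal.mul_mem_left _ _ (Ideal.mem_sup_left (Ideal.subset_span ⟨_, rfl⟩))
  have hg : ∀ x, K.D3 J a b s t • g x - K.D3 J a b s x • g t ∈ K.M {s, a, b} := fun x =>
    cramer3 K.Q J _ (fun t => hF _) h1 h2 h3 t x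
  have hm := add_mem (sub_mem (Submodule.smul_mem _ (X l : P m) (hg k))
    (Submodule.smul_mem _ (X k : P m) (hg l))) (K.smul_mem_M hX (g t))
  have e : K.D3 J a b s t • wg g k l =
      (X l : P m) • (K.D3 J a b s t • g k - K.D3 J a b s k • g t) -
      (X k : P m) • (K.D3 J a b s t • g l - K.D3 J a b s l • g t) +
      (K.D3 J a b s k • (X l : P m) - K.D3 J a b s l • (X k : P m)) • g t := by
    rw [wg, smul_eq_mul, smul_eq_mul]
    module
  rw [e]
  exact hm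

end

end Pool.Agent.MP_1c689d_ag.K0.Al

end

section

/-! Exactness of the Koszul complex in low degrees. -/

set_option autoImplicit false

open MvPolynomial

namespace Pool.Agent.MP_1c689d_ag.K0.Al

noncomputable section

variable {m : ℕ} {Φ : Fr m} {N : Type} [AddCommGroup N] [Module ℂ N] [Module (P m) N]
  [IsScalarTower ℂ (P m) N]

theorem mem_sup_Kos (N0 : Submodule (P m) N) (t : P m) (w : N) :
    w ∈ N0 ⊔ LinearMap.range (LinearMap.lsmul (P m) N t) ↔ ∃ u, w - t • u ∈ N0 := by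
  rw [Submodule.mem_sup]
  constructor
  · rintro ⟨y, hy, _, ⟨u, rfl⟩, rfl⟩
    exact ⟨u, by simpa using hy⟩
  · rintro ⟨u, hu⟩
    exact ⟨_, hu, _, ⟨u, rfl⟩, by simp⟩

theorem kos0 (N0 : Submodule (P m) N) {t : P m} (ht : t ∈ Ideal.span (Set.range (X : Fin m → P m)))
    (r1 : ∀ w, t • w ∈ N0 → w ∈ N0) {w : N} (h : ∀ l, (X l : P m) • w ∈ N0) : w ∈ N0 := by
  obtain ⟨c, rfl⟩ := Ideal.mem_span_range_iff_exists_fun.1 ht
  refine r1 w ?_
  rw [Finset.sum_smul]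
  exact N0.sum_mem fun a _ => by rw [mul_smul]; exact N0.smul_mem _ (h a)

theorem kos1 (N0 : Submodule (P m) N) {t1 t2 : P m}
    (h1 : t1 ∈ Ideal.span (Set.range (X : Fin m → P m)))
    (h2 : t2 ∈ Ideal.span (Set.range (X : Fin m → P m))) (r1 : ∀ w, t1 • w ∈ N0 → w ∈ N0)
    (r2 : ∀ w u, t2 • w - t1 • u ∈ N0 → ∃ u, w - t1 • u ∈ N0) {η : Fin m → N}
    (h : ∀ a l, wg η a l ∈ N0) : ∃ τ, ∀ l, η l - (X l : P m) • τ ∈ N0 := by
  obtain ⟨c, hc⟩ := Ideal.mem_span_range_iff_exists_fun.1 h1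
  have e : ∀ l, (X l : P m) • (∑ a, c a • η a) - t1 • η l ∈ N0 := by
    intro l
    have e1 : (X l : P m) • (∑ a, c a • η a) - t1 • η l = ∑ a, c a • wg η a l := by
      rw [← hc, Finset.smul_sum, Finset.sum_smul, ← Finset.sum_sub_distrib]
      refine Finset.sum_congr rfl fun a _ => ?_
      rw [wg]
      module
    rw [e1]
    exact N0.sum_mem fun a _ => N0.smul_mem _ (h a l)
  have h0 : ∑ a, c a • η a ∈ N0 ⊔ LinearMap.range (LinearMap.lsmul (P m) N t1) := by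
    refine kos0 _ h2 (fun w hw => ?_) fun l => (mem_sup_Kos _ _ _).2 ⟨η l, e l⟩
    obtain ⟨u, hu⟩ := (mem_sup_Kos _ _ _).1 hw
    exact (mem_sup_Kos _ _ _).2 (r2 w u hu)
  obtain ⟨τ, hτ⟩ := (mem_sup_Kos _ _ _).1 h0
  refine ⟨τ, fun l => r1 _ ?_⟩
  have e2 : t1 • (η l - (X l : P m) • τ) = (X l : P m) • (∑ a, c a • η a - t1 • τ) -
      ((X l : P m) • (∑ a, c a • η a) - t1 • η l) := by module
  rw [e2]
  exact N0.sub_mem (N0.smul_mem _ hτ) (e l)

theorem kos2 (N0 : Submodule (P m) N) {t1 t2 t3 : P m}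
    (h1 : t1 ∈ Ideal.span (Set.range (X : Fin m → P m)))
    (h2 : t2 ∈ Ideal.span (Set.range (X : Fin m → P m)))
    (h3 : t3 ∈ Ideal.span (Set.range (X : Fin m → P m))) (r1 : ∀ w, t1 • w ∈ N0 → w ∈ N0)
    (r2 : ∀ w u, t2 • w - t1 • u ∈ N0 → ∃ u, w - t1 • u ∈ N0)
    (r3 : ∀ w u u', t3 • w - t1 • u - t2 • u' ∈ N0 → ∃ u u', w - t1 • u - t2 • u' ∈ N0)
    {ψ : Fin m → Fin m → N} (h : ∀ a k l, cl3 ψ a k l ∈ N0) :
    ∃ ζ : Fin m → N, ∀ a l, ψ a l - wg ζ a l ∈ N0 := by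
  obtain ⟨c, hc⟩ := Ideal.mem_span_range_iff_exists_fun.1 h1
  obtain ⟨η, hη⟩ : ∃ η : Fin m → N, ∀ l, η l = ∑ a, c a • ψ a l := ⟨_, fun _ => rfl⟩
  have e : ∀ k l, wg η k l - t1 • (-ψ k l) ∈ N0 := by
    intro k l
    have e1 : wg η k l - t1 • (-ψ k l) = ∑ a, c a • cl3 ψ a k l := by
      rw [← hc, wg, hη, hη, Finset.smul_sum, Finset.smul_sum, Finset.sum_smul,
        ← Finset.sum_sub_distrib, ← Finset.sum_sub_distrib]
      refine Finset.sum_congr rfl fun a _ => ?_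
      rw [cl3]
      module
    rw [e1]
    exact N0.sum_mem fun a _ => N0.smul_mem _ (h a k l)
  obtain ⟨τ, hτ⟩ := kos1 (N0 ⊔ LinearMap.range (LinearMap.lsmul (P m) N t1)) h2 h3
    (fun w hw => by
      obtain ⟨u, hu⟩ := (mem_sup_Kos _ _ _).1 hw
      exact (mem_sup_Kos _ _ _).2 (r2 w u hu))
    (fun w u' hw => by
      obtain ⟨u, hu⟩ := (mem_sup_Kos _ _ _).1 hw
      obtain ⟨v, v', hv⟩ := r3 w u u' (by rwa [sub_right_comm])
      exact ⟨v', (mem_sup_Kos _ _ _).2 ⟨v, by rwa [sub_right_comm]⟩⟩)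
    (η := η) fun k l => (mem_sup_Kos _ _ _).2 ⟨_, e k l⟩
  choose ζ hζ using fun l => (mem_sup_Kos _ _ _).1 (hτ l)
  refine ⟨fun l => -ζ l, fun a l => r1 _ ?_⟩
  have e2 : t1 • (ψ a l - wg (fun l => -ζ l) a l) = (wg η a l - t1 • (-ψ a l)) -
      (X l : P m) • (η a - (X a : P m) • τ - t1 • ζ a) +
      (X a : P m) • (η l - (X l : P m) • τ - t1 • ζ l) := by
    simp only [wg]
    module
  rw [e2]
  exact N0.add_mem (N0.sub_mem (e a l) (N0.smul_mem _ (hζ a))) (N0.smul_mem _ (hζ l))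

theorem L_mem_Kos (Φ : Fr m) (l : Fin 4) :
    Φ.L (ev l) ∈ Ideal.span (Set.range (X : Fin m → P m)) := by
  rw [Fr.L, Lv_ev]
  exact Ideal.pow_mem_of_mem _ (Ideal.subset_span (Set.mem_range_self _)) _
    (lt_of_lt_of_le two_pos Φ.e2)

theorem r1_Kos (b : FB Φ.yi N) {S : Finset Vec} (hS : S ⊆ Φ.G) (hc : S.card ≤ 3) {l : Fin 4}
    (hl : ev l ∉ S) (w : N) (h : Φ.L (ev l) • w ∈ Φ.M N S) : w ∈ Φ.M N S :=
  reg b (Φ.gp.notMem_span hS hc (Φ.unit l) hl) h

theorem r2_Kos (b : FB Φ.yi N) {S : Finset Vec} (hS : S ⊆ Φ.G) (hc : S.card ≤ 2) {k l : Fin 4}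
    (hkl : l ≠ k) (hl : ev l ∉ S) (w u : N) (h : Φ.L (ev l) • w - Φ.L (ev k) • u ∈ Φ.M N S) :
    ∃ u, w - Φ.L (ev k) • u ∈ Φ.M N S := by
  refine Φ.mem_M_insert.1 (r1_Kos b (Finset.insert_subset (Φ.unit k) hS)
    ((Finset.card_insert_le _ _).trans (by omega)) (l := l) ?_ w (Φ.mem_M_insert.2 ⟨u, h⟩))
  rw [Finset.mem_insert, not_or]
  exact ⟨fun e => hkl (ev_inj e), hl⟩

theorem r3_Kos (b : FB Φ.yi N) {S : Finset Vec} (hS : Φ.Ok S) (hc : S.card ≤ 1) (w u u' : N)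
    (h : Φ.L (ev 2) • w - Φ.L (ev 0) • u - Φ.L (ev 1) • u' ∈ Φ.M N S) :
    ∃ u u', w - Φ.L (ev 0) • u - Φ.L (ev 1) • u' ∈ Φ.M N S := by
  have h2 : ev 2 ∉ insert (ev 0) S := by
    rw [Finset.mem_insert, not_or]
    exact ⟨fun e => absurd (ev_inj e) (by decide), hS.2 2⟩
  obtain ⟨v', hv'⟩ := r2_Kos b (Finset.insert_subset (Φ.unit 0) hS.1)
    ((Finset.card_insert_le _ _).trans (by omega)) (k := 1) (l := 2) (by decide) h2 w u'
    (Φ.mem_M_insert.2 ⟨u, by rwa [sub_right_comm]⟩)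
  obtain ⟨v, hv⟩ := Φ.mem_M_insert.1 hv'
  exact ⟨v, v', by rwa [sub_right_comm]⟩

theorem kos0_gp (b : FB Φ.yi N) {S : Finset Vec} (hS : Φ.Ok S) (hc : S.card ≤ 3) {w : N}
    (h : ∀ l, (X l : P m) • w ∈ Φ.M N S) : w ∈ Φ.M N S := by
  exact kos0 _ (L_mem_Kos Φ 0) (r1_Kos b hS.1 hc (hS.2 0)) h

theorem kos1_gr (b : FB Φ.yi N) {j : ℤ} {η : Fin m → N} (hη : ∀ l, η l ∈ b.gr (j + 1))
    (h : ∀ a l, wg η a l = 0) : ∃ τ ∈ b.gr j, ∀ l, η l = (X l : P m) • τ := by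
  obtain ⟨cmp, c1, c2, -, c4, -⟩ := exists_cmpM b
  obtain ⟨τ, hτ⟩ := kos1 (Φ.M N ∅) (L_mem_Kos Φ 0) (L_mem_Kos Φ 1)
    (r1_Kos b (Finset.empty_subset _) (by simp) (Finset.notMem_empty _))
    (r2_Kos b (Finset.empty_subset _) (by simp) (by decide) (Finset.notMem_empty _))
    (η := η) fun a l => by rw [h a l]; exact zero_mem _
  refine ⟨cmp j τ, c1 j τ, fun l => ?_⟩
  have h1 := hτ l
  rw [Fr.M_empty, Submodule.mem_bot, sub_eq_zero] at h1
  rw [← c4 1 j _ (hz_X l), ← h1, add_comm, c2 _ _ (hη l)]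

theorem kos2_gr (b : FB Φ.yi N) {S : Finset Vec} (hS : Φ.Ok S) (hc : S.card ≤ 1) {j : ℤ}
    {ψ : Fin m → Fin m → N} (hψ : ∀ a l, ψ a l ∈ b.gr (j + 1))
    (h : ∀ a k l, cl3 ψ a k l ∈ Φ.M N S) :
    ∃ ζ : Fin m → N, (∀ l, ζ l ∈ b.gr j) ∧ ∀ a l, ψ a l - wg ζ a l ∈ Φ.M N S := by
  obtain ⟨cmp, c1, c2, -, c4, c5⟩ := exists_cmpM b
  obtain ⟨ζ, hζ⟩ := kos2 (Φ.M N S) (L_mem_Kos Φ 0) (L_mem_Kos Φ 1) (L_mem_Kos Φ 2)
    (r1_Kos b hS.1 (by omega) (hS.2 0)) (r2_Kos b hS.1 (by omega) (by decide) (hS.2 1))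
    (r3_Kos b hS hc) h
  refine ⟨fun l => cmp j (ζ l), fun l => c1 j _, fun a l => ?_⟩
  have h1 := c5 S (j + 1) _ (hζ a l)
  rwa [map_sub, c2 _ _ (hψ a l), wg, map_sub, add_comm, c4 1 j _ (hz_X l),
    c4 1 j _ (hz_X a)] at h1

end

end Pool.Agent.MP_1c689d_ag.K0.Al

end

section

/-! The first order deformations of the reducible surface. -/

set_option autoImplicit false

open MvPolynomial

namespace Pool.Agent.MP_1c689d_ag.K0.Al

noncomputable section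

variable {m c r : ℕ} (K : Ctx m c r)

theorem dv_cong_Ks {N : Type} [AddCommGroup N] [Module (P m) N] (N0 : Submodule (P m) N)
    {u : P m} {φ ψ : Fin m → N} (h : ∀ k, φ k - u • ψ k ∈ N0) (f : P m) :
    dv φ f - u • dv ψ f ∈ N0 := by
  rw [← dv_smul_left, ← dv_sub_left]
  exact dv_mem N0 h f

theorem right_Ks {N : Type} [AddCommGroup N] [Module (P m) N] {N0 : Submodule (P m) N} {x y : N}
    (h : x - y ∈ N0) (hx : x ∈ N0) : y ∈ N0 := by
  simpa only [sub_sub_cancel] using sub_mem hx h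

theorem cl3_cong_Ks {N : Type} [AddCommGroup N] [Module (P m) N] (N0 : Submodule (P m) N)
    {u : P m} {ξ : Fin m → N} {ψ : Fin m → Fin m → N} (h : ∀ k l, wg ξ k l - u • ψ k l ∈ N0)
    (a k l : Fin m) : u • cl3 ψ a k l ∈ N0 := by
  have e : u • cl3 ψ a k l = cl3 (wg ξ) a k l - ((X a : P m) • (wg ξ k l - u • ψ k l) -
      (X k : P m) • (wg ξ a l - u • ψ a l) + (X l : P m) • (wg ξ a k - u • ψ a k)) := by
    simp only [cl3]
    module
  rw [e, cl3_wg, zero_sub]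
  exact neg_mem (add_mem (sub_mem (N0.smul_mem _ (h k l)) (N0.smul_mem _ (h a l)))
    (N0.smul_mem _ (h a k)))

theorem Ctx.dv_wg_Ks {S : Finset Vec} {h : P m} {i : ℕ} (hh : h.IsHomogeneous i) (hp : h ∈ K.p S)
    (g : Fin m → K.Om) (l : Fin m) :
    dv (fun a => wg g a l) h ∈ K.M S ↔ (X l : P m) • dv g h ∈ K.M S := by
  rw [dv_wg hh]
  exact Submodule.sub_mem_iff_left _ (K.smul_mem_M (Ideal.mul_mem_left _ _ hp) _)

theorem Ctx.F_mem_Ks (S : Finset Vec) (j : Fin r) : K.Q.F j ∈ K.p S :=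
  Ideal.mem_sup_left (Ideal.subset_span ⟨j, rfl⟩)

theorem Ctx.L_mem_Ks {S : Finset Vec} {a : Vec} (h : a ∈ S) : K.L a ∈ K.p S :=
  Ideal.mem_sup_right (K.fr.mem_q h)

theorem Ctx.Kz.F_Ks {K : Ctx m c r} {ξ : Fin m → K.Om} {ru : Fin r → K.Om} (h : K.Kz ξ ru)
    {S : Finset Vec} {a : Vec} (ha : a ∈ K.A) (hS : a ∈ S) (j : Fin r) :
    dv ξ (K.Q.F j) ∈ K.M S := by
  rw [h.J]
  exact K.fr.smul_mem_M (K.fr.pr_mem_q hS ha) _

theorem Ctx.Kz.L_Ks {K : Ctx m c r} {ξ : Fin m → K.Om} {ru : Fin r → K.Om} (h : K.Kz ξ ru)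
    {S : Finset Vec} {a : Vec} (ha : a ∈ K.A) (hS : a ∈ S) : dv ξ (K.L a) ∈ K.M S :=
  K.fr.M_mono (Finset.singleton_subset_iff.2 hS) (h.L ha)

theorem Ctx.Kz.inter_Ks {K : Ctx m c r} {ξ : Fin m → K.Om} {ru : Fin r → K.Om} (h : K.Kz ξ ru)
    {S : Finset Vec} (hS : S ⊆ K.A) (hc : S.card ≤ 2)
    (hw : ∀ t ∈ K.A \ S, ∀ k l, wg ξ k l ∈ K.M (insert t S)) :
    ∃ ψ : Fin m → Fin m → K.Om, (∀ k l, ψ k l ∈ K.Q.og (S.card * K.e + 2)) ∧
      ∀ k l, wg ξ k l - K.pr (K.A \ S) • ψ k l ∈ K.M S := by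
  have k1 := fun k l => inter_gr (Φ := K.fr) (ob K.Q) (hS.trans K.A_sub) hc
    (Finset.sdiff_subset.trans K.A_sub) Finset.disjoint_sdiff
    ((ob_gr K.Q _).ge (wg_mem_og K.Q h.deg k l)) fun t ht => hw t ht k l
  choose ψ h1 h2 using k1
  refine ⟨ψ, fun k l => ?_, h2⟩
  have e : ((K.ν : ℤ) + 1 + 1 - ((K.A \ S).card : ℤ) * K.e) = S.card * K.e + 2 := by
    rw [Finset.card_sdiff_of_subset hS, Nat.cast_sub (Finset.card_le_card hS)]
    push_cast
    ring
  rw [← e, ← ob_gr]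
  exact h1 k l

theorem Ctx.canc_Ks {S T : Finset Vec} (hS : S ⊆ K.A ∪ K.B) (hc : S.card ≤ 3)
    (hT : T ⊆ K.A ∪ K.B) (hd : Disjoint S T) {w : K.Om} (h : K.pr T • w ∈ K.M S) : w ∈ K.M S :=
  reg_pr (Φ := K.fr) (ob K.Q) (K.ok hS).1 hc (K.ok hT).1 hd h

theorem Ctx.cab {ξ : Fin m → K.Om} {ru : Fin r → K.Om} (h : K.Kz ξ ru) {a b : Vec} (ha : a ∈ K.A)
    (hb : b ∈ K.A) (hab : a ≠ b) : ∃ t : ℂ, ∀ k l,
      wg ξ k l - t • K.pr (K.A \ {a, b}) • K.psi0 a b k l ∈ K.M {a, b} := by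
  have hS : ({a, b} : Finset Vec) ⊆ K.A :=
    Finset.insert_subset ha (Finset.singleton_subset_iff.2 hb)
  have a1 : a ∈ ({a, b} : Finset Vec) := Finset.mem_insert_self _ _
  have b1 : b ∈ ({a, b} : Finset Vec) := Finset.mem_insert_of_mem (Finset.mem_singleton_self b)
  obtain ⟨ψ, h1, h2⟩ := h.inter_Ks hS Finset.card_le_two fun t ht k l => by
    obtain ⟨t1, t2⟩ := Finset.mem_sdiff.1 ht
    exact K.tri ha hb (Finset.mem_union_left _ t1) hab (fun e => t2 (e ▸ a1)) (fun e => t2 (e ▸ b1))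
      (h.F_Ks t1 (Finset.mem_insert_self _ _)) (h.L_Ks ha (Finset.mem_insert_of_mem a1))
      (h.L_Ks hb (Finset.mem_insert_of_mem b1)) (h.L_Ks t1 (Finset.mem_insert_self _ _)) k l
  have canc : ∀ {w : K.Om}, K.pr (K.A \ {a, b}) • w ∈ K.M {a, b} → w ∈ K.M {a, b} := fun k =>
    K.canc_Ks (hS.trans Finset.subset_union_left) (Finset.card_le_two.trans (by norm_num))
      (Finset.sdiff_subset.trans Finset.subset_union_left) Finset.disjoint_sdiff k
  have con : ∀ {f : P m} {i : ℕ}, f.IsHomogeneous i → f ∈ K.p {a, b} → dv ξ f ∈ K.M {a, b} →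
      ∀ l, dv (fun k => ψ k l) f ∈ K.M {a, b} := fun {f i} k1 k2 k3 l =>
    canc (right_Ks (dv_cong_Ks _ (fun k => h2 k l) f)
      ((K.dv_wg_Ks k1 k2 ξ l).2 (Submodule.smul_mem _ _ k3)))
  obtain ⟨β, h3, h4⟩ := K.kap0 ha hb hab h1 (fun k l => canc (by
      have k1 := add_mem (h2 k l) (h2 l k)
      rw [sub_add_sub_comm, wg_anti, ← smul_add] at k1
      exact right_Ks k1 (zero_mem _)))
    (fun t => con (K.Q.Fh t) (K.F_mem_Ks _ t) (h.F_Ks ha a1 t))
    (con (Lv_hom _ _ a) (K.L_mem_Ks a1) (h.L_Ks ha a1))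
    (con (Lv_hom _ _ b) (K.L_mem_Ks b1) (h.L_Ks hb b1))
  rw [Finset.card_pair hab, Nat.cast_ofNat, sub_self] at h3
  obtain ⟨t, rfl⟩ := hz_zero h3
  refine ⟨t, fun k l => ?_⟩
  have k1 := add_mem (h2 k l) (Submodule.smul_mem _ (K.pr (K.A \ {a, b})) (h4 k l))
  rwa [smul_sub, sub_add_sub_cancel, smul_comm, ← MvPolynomial.algebraMap_eq,
    algebraMap_smul] at k1

theorem Ctx.kb {ξ : Fin m → K.Om} {ru : Fin r → K.Om} (h : K.Kz ξ ru) {a b : Vec} (ha : a ∈ K.A)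
    (hb : b ∈ K.A) (hab : a ≠ b) (hf : dv ξ K.f ∈ K.M {a, b}) (k l : Fin m) :
    wg ξ k l ∈ K.M {a, b} := by
  obtain ⟨t, ht⟩ := K.cab h ha hb hab
  obtain ⟨s, hs⟩ : K.B.Nonempty := Finset.card_pos.1 (by
    have := K.card_ge
    rw [K.pos.card]
    omega)
  have nA : s ∉ K.A := Finset.disjoint_right.1 K.pos.disj hs
  have s1 : s ∈ ({s, a, b} : Finset Vec) := Finset.mem_insert_self _ _
  have mono : K.M {a, b} ≤ K.M {s, a, b} := K.fr.M_mono (Finset.subset_insert _ _)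
  have hS : ({s, a, b} : Finset Vec) ⊆ K.A ∪ K.B :=
    Finset.insert_subset (Finset.mem_union_right _ hs) (Finset.insert_subset
      (Finset.mem_union_left _ ha) (Finset.singleton_subset_iff.2 (Finset.mem_union_left _ hb)))
  have t0 : t = 0 := by
    refine K.C_mem (K.kapI ha hb (Finset.mem_union_right _ hs) hab (fun e => nA (e ▸ ha))
      (fun e => nA (e ▸ hb)) fun l => ?_)
    have k1 := dv_cong_Ks (K.M {s, a, b}) (u := C t * K.pr (K.A \ {a, b}))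
      (φ := fun k => wg ξ k l) (ψ := fun k => K.psi0 a b k l) (fun k => by
        rw [mul_smul, ← MvPolynomial.algebraMap_eq, algebraMap_smul]
        exact mono (ht k l)) K.f
    have k2 := right_Ks k1 ((K.dv_wg_Ks (K.fr.pr_hom K.B)
      (Ideal.mem_sup_right (K.fr.pr_mem_q s1 hs)) ξ l).2 (Submodule.smul_mem _ _ (mono hf)))
    rw [show K.f = _ from K.fr.pr_erase hs, dv_mul, smul_add, smul_comm] at k2
    have k3 := (Submodule.add_mem_iff_right _ (K.smul_mem_M (K.L_mem_Ks s1) _)).1 k2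
    rw [smul_comm, mul_comm, mul_smul] at k3
    refine K.canc_Ks hS Finset.card_le_three
      (Finset.sdiff_subset.trans Finset.subset_union_left) ?_ (K.canc_Ks hS Finset.card_le_three
        ((Finset.erase_subset _ _).trans Finset.subset_union_right) ?_ k3)
    · exact Finset.disjoint_insert_left.2 ⟨fun k4 => nA (Finset.mem_sdiff.1 k4).1,
        Finset.disjoint_sdiff⟩
    · exact Finset.disjoint_insert_left.2 ⟨Finset.notMem_erase _ _, K.pos.disj.mono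
        (Finset.insert_subset ha (Finset.singleton_subset_iff.2 hb)) (Finset.erase_subset _ _)⟩
  simpa only [t0, zero_smul, sub_zero] using ht k l

theorem Ctx.onea_Ks {ξ : Fin m → K.Om} {ru : Fin r → K.Om} (h : K.Kz ξ ru)
    (hw : ∀ a ∈ K.A, ∀ b ∈ K.A, a ≠ b → ∀ k l, wg ξ k l ∈ K.M {a, b}) {i : Vec} (hi : i ∈ K.A) :
    ∃ ψ : Fin m → Fin m → K.Om, (∀ k l, ψ k l ∈ K.Q.og (K.e + 1 + 1)) ∧
      ∀ k l, wg ξ k l - K.pr (K.A \ {i}) • ψ k l ∈ K.M {i} := by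
  have hS : ({i} : Finset Vec) ⊆ K.A := Finset.singleton_subset_iff.2 hi
  have i1 : i ∈ ({i} : Finset Vec) := Finset.mem_singleton_self i
  obtain ⟨ψ, h1, h2⟩ := h.inter_Ks hS (by simp) fun t ht =>
    hw t (Finset.mem_sdiff.1 ht).1 i hi fun e => (Finset.mem_sdiff.1 ht).2 (e ▸ i1)
  rw [Finset.card_singleton, Nat.cast_one, one_mul] at h1
  exact ⟨ψ, fun k l => add_assoc (K.e : ℤ) 1 1 ▸ h1 k l, h2⟩

theorem Ctx.onec_Ks {i : Vec} (hi : i ∈ K.A) {w : K.Om} (k : K.pr (K.A \ {i}) • w ∈ K.M {i}) :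
    w ∈ K.M {i} :=
  K.canc_Ks ((Finset.singleton_subset_iff.2 hi).trans Finset.subset_union_left) (by simp)
    (Finset.sdiff_subset.trans Finset.subset_union_left) Finset.disjoint_sdiff k

theorem Ctx.oneb_Ks {ξ : Fin m → K.Om} {ru : Fin r → K.Om} (h : K.Kz ξ ru)
    (hw : ∀ a ∈ K.A, ∀ b ∈ K.A, a ≠ b → ∀ k l, wg ξ k l ∈ K.M {a, b}) {i : Vec} (hi : i ∈ K.A) :
    ∃ ζ : Fin m → K.Om, (∀ l, ζ l ∈ K.Q.og (K.e + 1)) ∧
      ∀ k l, wg ξ k l - K.pr (K.A \ {i}) • wg ζ k l ∈ K.M {i} := by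
  obtain ⟨ψ, h1, h2⟩ := K.onea_Ks h hw hi
  have ok := K.ok ((Finset.singleton_subset_iff.2 hi).trans Finset.subset_union_left)
  obtain ⟨ζ, h3, h4⟩ := kos2_gr (Φ := K.fr) (ob K.Q) ok (by simp) (j := K.e + 1) (ψ := ψ)
    (fun a l => (ob_gr K.Q _).ge (h1 a l)) fun a k l => K.onec_Ks hi (cl3_cong_Ks _ h2 a k l)
  refine ⟨ζ, fun l => (ob_gr K.Q _).le (h3 l), fun k l => ?_⟩
  have k1 := add_mem (h2 k l) (Submodule.smul_mem _ (K.pr (K.A \ {i})) (h4 k l))
  rwa [smul_sub, sub_add_sub_cancel] at k1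

theorem Ctx.one_Ks {ξ : Fin m → K.Om} {ru : Fin r → K.Om} (h : K.Kz ξ ru)
    (hw : ∀ a ∈ K.A, ∀ b ∈ K.A, a ≠ b → ∀ k l, wg ξ k l ∈ K.M {a, b}) {i : Vec} (hi : i ∈ K.A)
    (k l : Fin m) : wg ξ k l ∈ K.M {i} := by
  have i1 : i ∈ ({i} : Finset Vec) := Finset.mem_singleton_self i
  have ok := K.ok ((Finset.singleton_subset_iff.2 hi).trans Finset.subset_union_left)
  obtain ⟨ζ, h3, h5⟩ := K.oneb_Ks h hw hi
  have con : ∀ {f : P m} {n : ℕ}, f.IsHomogeneous n → f ∈ K.p {i} → dv ξ f ∈ K.M {i} →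
      ∃ w, dv ζ f = K.L i • w := fun {f n} k1 k2 k3 =>
    K.fr.mem_M_singleton.1 (kos0_gp (Φ := K.fr) (ob K.Q) ok (by simp) fun l =>
      (K.dv_wg_Ks k1 k2 ζ l).1 (K.onec_Ks hi (right_Ks (dv_cong_Ks _ (fun k => h5 k l) f)
        ((K.dv_wg_Ks k1 k2 ξ l).2 (Submodule.smul_mem _ _ k3)))))
  obtain ⟨w, hw⟩ := K.h1 K.e (K.L i) (K.pos.good i hi) ζ h3
    (fun j => con (K.Q.Fh j) (K.F_mem_Ks _ j) (h.F_Ks hi i1 j))
    (con (Lv_hom _ _ i) (K.L_mem_Ks i1) (h.L hi)) k l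
  have h6 : wg ζ k l ∈ K.M {i} := K.fr.mem_M_singleton.2 ⟨w, hw⟩
  have k1 := add_mem (h5 k l) (Submodule.smul_mem _ (K.pr (K.A \ {i})) h6)
  rwa [sub_add_cancel] at k1

theorem Ctx.s0_hz_Ks : K.s0 ∈ hz m K.ν := mem_hz_nat.2 (K.fr.pr_hom K.A)

theorem Ctx.f_hom_Ks : K.f.IsHomogeneous K.ν := by
  have h := K.fr.pr_hom K.B
  rwa [K.pos.card] at h

theorem Ctx.ks {ξ : Fin m → K.Om} {ru : Fin r → K.Om} (h : K.Kz ξ ru)
    (hw : ∀ a ∈ K.A, ∀ b ∈ K.A, a ≠ b → ∀ k l, wg ξ k l ∈ K.M {a, b}) :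
    ∃ (g : Fin m → K.Om) (τ : K.Om), (∀ l, g l ∈ K.Q.og 1) ∧ τ ∈ K.Q.og K.ν ∧
      ∀ l, ξ l = K.s0 • g l + (X l : P m) • τ := by
  have k1 := fun k l => all_pr (Φ := K.fr) (ob K.Q) K.A_sub
    ((ob_gr K.Q _).ge (wg_mem_og K.Q h.deg k l)) fun t ht => K.one_Ks h hw ht k l
  choose ψ h1 h2 using k1
  have e : ((K.ν : ℤ) + 1 + 1 - (K.A.card : ℤ) * K.e) = 1 + 1 := by
    push_cast
    ring
  obtain ⟨g, h3, h4⟩ := kos2_gr (Φ := K.fr) (ob K.Q) (K.ok (Finset.empty_subset _)) (by simp)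
    (j := 1) (ψ := ψ) (fun a l => e ▸ h1 a l) fun a k l => by
      rw [K.s0_inj (cl3_cong_Ks ⊥ (fun k l => sub_eq_zero.2 (h2 k l)) a k l)]
      exact zero_mem _
  rw [K.fr.M_empty] at h4
  have h5 : ∀ l, g l ∈ K.Q.og 1 := fun l => (ob_gr K.Q _).le (h3 l)
  obtain ⟨τ, h6, h7⟩ := kos1_gr (Φ := K.fr) (ob K.Q) (j := K.ν) (η := fun l => ξ l - K.s0 • g l)
    (fun l => (ob_gr K.Q _).ge (sub_mem (h.deg l) (K.Q.og_smul K.s0_hz_Ks (h5 l)))) fun a l => by
      have e1 : wg (fun l => ξ l - K.s0 • g l) a l = wg ξ a l - K.s0 • wg g a l := by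
        simp only [wg]
        module
      rw [e1, h2, sub_eq_zero.1 (h4 a l), sub_self]
  exact ⟨g, τ, h5, (ob_gr K.Q _).le h6, fun l => sub_eq_iff_eq_add'.1 (h7 l)⟩

theorem Ctx.ks_Ks {ξ : Fin m → K.Om} {ru : Fin r → K.Om} (h : K.Kz ξ ru)
    (hw : ∀ a ∈ K.A, ∀ b ∈ K.A, a ≠ b → ∀ k l, wg ξ k l ∈ K.M {a, b}) :
    ∃ (g : Fin m → K.Om) (τ : K.Om), (∀ l, g l ∈ K.Q.og 1) ∧
      (ξ = fun l => K.s0 • g l + (X l : P m) • τ) ∧ (∀ j, ru j = dv g (K.Q.F j)) ∧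
      (K.ν : P m) • τ = - dv g K.s0 := by
  obtain ⟨g, τ, h1, -, h2⟩ := K.ks h hw
  have e := funext h2
  refine ⟨g, τ, h1, e, fun j => sub_eq_zero.1 (K.s0_inj ?_), eq_neg_of_add_eq_zero_right
    (K.s0_inj ?_)⟩
  · rw [smul_sub, ← h.J, e, dv_add_left, dv_smul_left, dv_euler (K.Q.Fh j),
      K.Q.I_smul (Ideal.mul_mem_left _ _ (Ideal.subset_span ⟨j, rfl⟩)), add_zero, sub_self]
  · have k := h.s
    rw [e, dv_add_left, dv_smul_left, dv_euler (K.fr.pr_hom K.A), mul_comm, mul_smul] at k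
    rw [smul_add]
    exact k

theorem Ctx.Sol.wg_mem {K : Ctx m c r} {τ : K.Om} {b : P m} {g ξ : Fin m → K.Om}
    {ρ ru : Fin r → K.Om} (h : K.Sol τ b g ξ ρ ru) {a a' : Vec} (ha : a ∈ K.A) (ha' : a' ∈ K.A)
    (hne : a ≠ a') (hτ : τ ∈ K.M {a, a'}) (k l : Fin m) : wg ξ k l ∈ K.M {a, a'} := by
  rw [h.out] at hτ
  exact K.kb h.kz ha ha' hne
    ((Submodule.add_mem_iff_right _ (K.dv_s0_mem g ha ha' hne)).1 hτ) k l

theorem Ctx.Sol.j0 {K : Ctx m c r} {τ : K.Om} {b : P m} {g ξ : Fin m → K.Om}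
    {ρ ru : Fin r → K.Om} (h : K.Sol τ b g ξ ρ ru)
    (hw : ∀ a ∈ K.A, ∀ a' ∈ K.A, a ≠ a' → ∀ k l, wg ξ k l ∈ K.M {a, a'}) : K.J0 τ b := by
  obtain ⟨g1, τ1, h1, h2, h3, h4⟩ := K.ks_Ks h.kz hw
  have hf := mem_hz_nat.2 K.f_hom_Ks
  obtain ⟨w, w1, w2⟩ : ∃ w ∈ K.Q.og K.ν, (K.ν : P m) • w = dv g1 K.f := by
    refine ⟨(K.ν : ℂ)⁻¹ • dv g1 K.f, Submodule.smul_mem _ _ ?_, ?_⟩
    · simpa only [add_sub_cancel_right] using dv_mem_og K.Q h1 hf
    · rw [Nat.cast_smul_eq_nsmul, ← Nat.cast_smul_eq_nsmul ℂ,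
        smul_inv_smul₀ (Nat.cast_ne_zero.2 K.nu_pos.ne')]
  refine ⟨fun l => g l - K.f • g1 l + (X l : P m) • w, ρ, fun l => add_mem (sub_mem (h.deg l)
    (K.Q.og_smul hf (h1 l))) (add_comm (1 : ℤ) _ ▸ K.Q.og_smul (hz_X l) w1), fun j => ?_, ?_⟩
  · rw [dv_add_left, dv_sub_left, dv_smul_left, dv_euler (K.Q.Fh j),
      K.Q.I_smul (Ideal.mul_mem_left _ _ (Ideal.subset_span ⟨j, rfl⟩)), add_zero, h.J, h3,
      add_sub_cancel_right]
  · rw [dv_add_left, dv_sub_left, dv_smul_left, dv_euler (K.fr.pr_hom K.A), h.out, h2, dv_add_left,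
      dv_smul_left, dv_euler K.f_hom_Ks, mul_comm _ K.f, mul_smul, h4, mul_comm _ (K.fr.pr K.A),
      mul_smul]
    change _ = _ + _ • (K.ν : P m) • w
    rw [w2, smul_neg]
    abel

theorem Ctx.J0.mem {K : Ctx m c r} {τ : K.Om} {b : P m} (h : K.J0 τ b) {a a' : Vec} (ha : a ∈ K.A)
    (ha' : a' ∈ K.A) (hne : a ≠ a') : τ ∈ K.M {a, a'} := by
  obtain ⟨g, -, -, -, rfl⟩ := h
  exact K.dv_s0_mem g ha ha' hne

theorem Ctx.j0_of_mem {τ : K.Om} {b : P m} (h : (τ, b) ∈ K.Jp)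
    (hτ : ∀ a ∈ K.A, ∀ a' ∈ K.A, a ≠ a' → τ ∈ K.M {a, a'}) : K.J0 τ b := by
  obtain ⟨g, ξ, ρ, ru, hs⟩ := K.mem_Jp.1 h
  exact hs.j0 fun a ha a' ha' hne => hs.wg_mem ha ha' hne (hτ a ha a' ha' hne)

/-- The hypothesis of the limit lemma. -/
theorem Ctx.rigid {ξ : Fin m → K.Om} {ru : Fin r → K.Om} (h : K.Kz ξ ru) {g : Fin m → K.Om}
    (hg : dv ξ K.f = dv g K.s0) : ∃ g1 : Fin m → K.Om, (∀ l, g1 l ∈ K.Q.og 1) ∧
      (∀ j, ru j = dv g1 (K.Q.F j)) ∧ (g1 = 0 → ξ = 0) := by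
  obtain ⟨g1, τ, h1, h2, h3, h4⟩ := K.ks_Ks h fun a ha b hb hab =>
    K.kb h ha hb hab (hg ▸ K.dv_s0_mem g ha hb hab)
  refine ⟨g1, h1, h3, fun e => ?_⟩
  subst e
  have k : τ = 0 := mem_of_nat_smul ⊥ K.nu_pos.ne' (h4.trans (neg_eq_zero.2 (dv_zero_left _)))
  rw [h2, k]
  funext l
  simp

end

end Pool.Agent.MP_1c689d_ag.K0.Al

end

section

/-! Hilbert functions. -/

set_option autoImplicit false

open MvPolynomial

namespace Pool.Agent.MP_1c689d_ag.K0.Al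

noncomputable section

variable {m c r : ℕ}

theorem six_hz_Hil {y : ℤ} (hy : -3 ≤ y) :
    6 * (Module.finrank ℂ (hz 4 y) : ℤ) = (y + 3) * (y + 2) * (y + 1) := by
  rcases lt_or_ge y 0 with h | h
  · rw [hz_neg h, finrank_bot]
    have h1 : y = -1 ∨ y = -2 ∨ y = -3 := by omega
    rcases h1 with rfl | rfl | rfl <;> norm_num
  · obtain ⟨n, rfl⟩ := Int.eq_ofNat_of_zero_le h
    have h1 := finrank_hz 3 n
    have h2 : 6 * (n + 3).choose 3 = (n + 3) * (n + 2) * (n + 1) := by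
      have h3 := Nat.descFactorial_eq_factorial_mul_choose (n + 3) 3
      simp only [Nat.descFactorial_succ, Nat.descFactorial_zero, Nat.factorial] at h3
      have e1 : n + 3 - 2 = n + 1 := by omega
      have e2 : n + 3 - 1 = n + 2 := by omega
      have e3 : n + 3 - 0 = n + 3 := by omega
      rw [e1, e2, e3] at h3
      have e4 : Nat.succ 2 * (Nat.succ 1 * (Nat.succ 0 * 1)) = 6 := by norm_num
      rw [e4] at h3
      rw [← h3]; ring
    have h4 : Module.finrank ℂ (hz 4 (n : ℤ)) = (n + 3).choose 3 := h1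
    rw [h4]
    exact_mod_cast h2

theorem finrank_gr_zero (Q : PD m 4 c r) (hN : Num Q) : Module.finrank ℂ (Q.b.gr 0) = 1 := by
  have h1 : Q.b.gr 0 = Submodule.span ℂ {(1 : P m ⧸ Q.I)} := by
    apply le_antisymm
    · intro v hv
      obtain ⟨f, hf, rfl⟩ := (Q.mem_gr_iff 0 v).1 hv
      have hf' : f.IsHomogeneous 0 := mem_hz_nat.1 (by simpa using hf)
      have h2 : f = C (coeff 0 f) := by
        rw [← totalDegree_eq_zero_iff_eq_C]
        exact Nat.eq_zero_of_le_zero hf'.totalDegree_le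
      rw [Submodule.mem_span_singleton]
      refine ⟨coeff 0 f, ?_⟩
      conv_rhs => rw [h2]
      rw [← Algebra.algebraMap_eq_smul_one]
      rfl
    · rw [Submodule.span_le, Set.singleton_subset_iff]
      exact Q.one
  rw [h1]
  apply finrank_span_singleton
  intro h
  apply hN.prime.ne_top
  rw [Ideal.eq_top_iff_one]
  exact Ideal.Quotient.eq_zero_iff_mem.1 (by simpa using h)

theorem finrank_og_zero (Q : PD m 4 c r) (hN : Num Q) : Module.finrank ℂ (Q.og 0) = 0 := by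
  rw [Q.finrank_og]
  refine Finset.sum_eq_zero fun i _ => ?_
  have := hN.le i
  rw [hz_neg (by push_cast; omega), finrank_bot]

theorem six_gr_Hil (Q : PD m 4 c r) (hN : Num Q) {j : ℤ} (hj : 0 ≤ j) :
    6 * (Module.finrank ℂ (Q.b.gr j) : ℤ) =
      ∑ i, (j - Q.b.dg i + 3) * (j - Q.b.dg i + 2) * (j - Q.b.dg i + 1) := by
  rw [Q.b.finrank_gr]
  push_cast
  rw [Finset.mul_sum]
  refine Finset.sum_congr rfl fun i _ => six_hz_Hil ?_
  have := hN.le i
  omega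

theorem six_og_Hil (Q : PD m 4 c r) (hN : Num Q) {j : ℤ} (hj : 1 ≤ j) :
    6 * (Module.finrank ℂ (Q.og j) : ℤ) =
      ∑ i, (j + Q.b.dg i - 1) * (j + Q.b.dg i - 2) * (j + Q.b.dg i - 3) := by
  rw [Q.finrank_og]
  push_cast
  rw [Finset.mul_sum]
  refine Finset.sum_congr rfl fun i _ => ?_
  have := hN.ge i
  rw [six_hz_Hil (by omega)]
  ring

theorem sum_u_Hil (Q : PD m 4 c r) (hN : Num Q) : ∑ i, (2 - Q.b.dg i) = 0 := by
  rw [Finset.sum_sub_distrib, hN.sum]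
  simp [mul_comm]

theorem poly_Hil (Q : PD m 4 c r) (hN : Num Q) : ∃ t : ℤ,
    (∀ j : ℤ, 0 ≤ j → 6 * (Module.finrank ℂ (Q.b.gr j) : ℤ) =
      Fintype.card Q.b.ι * j ^ 3 + t * j + 6) ∧
    ∀ j : ℤ, 1 ≤ j → 6 * (Module.finrank ℂ (Q.og j) : ℤ) =
      Fintype.card Q.b.ι * j ^ 3 + t * j - 6 := by
  have h0 := six_gr_Hil Q hN le_rfl
  rw [finrank_gr_zero Q hN] at h0
  have hu := sum_u_Hil Q hN
  have h1 : ∑ i, ((2 - Q.b.dg i) ^ 3 - (2 - Q.b.dg i)) = 6 := by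
    rw [show (6 : ℤ) = 6 * ((1 : ℕ) : ℤ) by norm_num, h0]
    exact Finset.sum_congr rfl fun i _ => by ring
  refine ⟨∑ i, (3 * (2 - Q.b.dg i) ^ 2 - 1), fun j hj => ?_, fun j hj => ?_⟩
  · rw [six_gr_Hil Q hN hj]
    have h2 : ∑ i, (j - Q.b.dg i + 3) * (j - Q.b.dg i + 2) * (j - Q.b.dg i + 1) =
        ∑ i, (j ^ 3 + 3 * j ^ 2 * (2 - Q.b.dg i) + (3 * (2 - Q.b.dg i) ^ 2 - 1) * j +
          ((2 - Q.b.dg i) ^ 3 - (2 - Q.b.dg i))) := Finset.sum_congr rfl fun i _ => by ring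
    rw [h2, Finset.sum_add_distrib, Finset.sum_add_distrib, Finset.sum_add_distrib, h1,
      ← Finset.mul_sum, hu, ← Finset.sum_mul]
    simp
  · rw [six_og_Hil Q hN hj]
    have h2 : ∑ i, (j + Q.b.dg i - 1) * (j + Q.b.dg i - 2) * (j + Q.b.dg i - 3) =
        ∑ i, (j ^ 3 - 3 * j ^ 2 * (2 - Q.b.dg i) + (3 * (2 - Q.b.dg i) ^ 2 - 1) * j -
          ((2 - Q.b.dg i) ^ 3 - (2 - Q.b.dg i))) := Finset.sum_congr rfl fun i _ => by ring
    rw [h2, Finset.sum_sub_distrib, Finset.sum_add_distrib, Finset.sum_sub_distrib, h1,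
      ← Finset.mul_sum, hu, ← Finset.sum_mul]
    simp

theorem finrank_gr_og (Q : PD m 4 c r) (hN : Num Q) {ν : ℕ} (hν : 0 < ν) :
    Module.finrank ℂ (Q.b.gr ν) = Module.finrank ℂ (Q.og ν) + 2 := by
  obtain ⟨t, h1, h2⟩ := poly_Hil Q hN
  have h3 := h1 ν (by omega)
  have h4 := h2 ν (by omega)
  omega

theorem card_pos_Hil (Q : PD m 4 c r) (hN : Num Q) : 1 ≤ Fintype.card Q.b.ι := by
  by_contra h
  have h1 : IsEmpty Q.b.ι := Fintype.card_eq_zero_iff.1 (by omega)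
  have h2 := finrank_gr_zero Q hN
  rw [Q.b.finrank_gr] at h2
  simp at h2

theorem gr_e_Hil (K : Ctx m c r) : 1 ≤ Module.finrank ℂ (K.Q.b.gr K.e) := by
  have h1 := finrank_gr_og K.Q K.num (ν := K.e) (lt_of_lt_of_le (by norm_num) K.e4)
  omega

theorem Ctx.gr_step (K : Ctx m c r) (j : ℕ) : Module.finrank ℂ (K.Q.b.gr ((j + 1) * K.e)) =
    Module.finrank ℂ (K.Q.b.gr (j * K.e)) + K.h j := by
  obtain ⟨t, h1, -⟩ := poly_Hil K.Q K.num
  have a1 := h1 ((j + 1) * K.e) (by positivity)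
  have a2 := h1 (j * K.e) (by positivity)
  have a3 := h1 K.e (by positivity)
  have a4 := gr_e_Hil K
  have a5 : ((K.chi : ℕ) : ℤ) = (Module.finrank ℂ (K.Q.b.gr K.e) : ℤ) - 1 := by
    unfold Ctx.chi
    omega
  have a6 : 2 * ((j * (j + 1) / 2 : ℕ) : ℤ) = j * (j + 1) := by
    have := Nat.two_mul_div_two_of_even (Nat.even_mul_succ_self j)
    exact_mod_cast this
  have a7 : ((K.h j : ℕ) : ℤ) =
      Fintype.card K.Q.b.ι * (K.e : ℤ) ^ 3 * ((j * (j + 1) / 2 : ℕ) : ℤ) + K.chi := by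
    unfold Ctx.h hh Ctx.del
    rw [Nat.cast_add, Nat.cast_mul, Nat.cast_mul, Nat.cast_pow]
  have a8 : 6 * (Module.finrank ℂ (K.Q.b.gr ((j + 1) * K.e)) : ℤ) =
      6 * ((Module.finrank ℂ (K.Q.b.gr (j * K.e)) : ℤ) + K.h j) := by
    rw [a7, a5]
    linear_combination a1 - a2 - a3 - 3 * (Fintype.card K.Q.b.ι * (K.e : ℤ) ^ 3) * a6
  omega

theorem Ctx.og_step (K : Ctx m c r) (j : ℕ) : Module.finrank ℂ (K.Q.og ((j + 1) * K.e)) ≤
    Module.finrank ℂ (K.Q.og (j * K.e)) + K.h j := by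
  have he : 0 < K.e := lt_of_lt_of_le (by norm_num) K.e4
  have h1 := K.gr_step j
  have h2 := finrank_gr_og K.Q K.num (ν := (j + 1) * K.e) (by positivity)
  push_cast at h2
  rcases Nat.eq_zero_or_pos j with rfl | hj
  · have h3 := finrank_gr_zero K.Q K.num
    have h4 : ((0 : ℕ) : ℤ) * (K.e : ℤ) = 0 := by simp
    rw [h4] at h1
    omega
  · have h3 := finrank_gr_og K.Q K.num (ν := j * K.e) (by positivity)
    push_cast at h3
    omega

theorem Ctx.del_ge (K : Ctx m c r) : 6 ≤ K.del := by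
  have h1 := card_pos_Hil K.Q K.num
  have h2 : 4 ^ 3 ≤ K.e ^ 3 := Nat.pow_le_pow_left K.e4 3
  unfold Ctx.del
  nlinarith

theorem Ctx.chi_lt (K : Ctx m c r) : K.chi < K.del := by
  have h1 := six_gr_Hil K.Q K.num (j := K.e) (by positivity)
  have he : (4 : ℤ) ≤ K.e := by exact_mod_cast K.e4
  have h2 : ∑ i, ((K.e : ℤ) - K.Q.b.dg i + 3) * (K.e - K.Q.b.dg i + 2) * (K.e - K.Q.b.dg i + 1) ≤
      ∑ _i : K.Q.b.ι, 6 * (K.e : ℤ) ^ 3 := by
    refine Finset.sum_le_sum fun i _ => ?_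
    have a1 := K.num.ge i
    have a2 := K.num.le i
    generalize K.Q.b.dg i = d at a1 a2
    generalize (K.e : ℤ) = e at he
    obtain ⟨x, rfl⟩ : ∃ x, e = x + 4 := ⟨e - 4, by ring⟩
    have hx : 0 ≤ x := by omega
    have hx2 : 0 ≤ x ^ 2 := by positivity
    have hx3 : 0 ≤ x ^ 3 := by positivity
    interval_cases d <;> nlinarith
  rw [Finset.sum_const, Finset.card_univ, nsmul_eq_mul] at h2
  have h3 : ((K.del : ℕ) : ℤ) = Fintype.card K.Q.b.ι * (K.e : ℤ) ^ 3 := by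
    unfold Ctx.del
    push_cast
    rfl
  have h4 : 6 * (Module.finrank ℂ (K.Q.b.gr K.e) : ℤ) ≤ 6 * K.del := by
    rw [h1, h3]
    linarith
  have h5 := K.del_ge
  unfold Ctx.chi
  omega

theorem gr_mul_Hil (K : Ctx m c r) (n : ℕ) :
    Module.finrank ℂ (K.Q.b.gr (n * K.e)) = 1 + ∑ j ∈ Finset.range n, K.h j := by
  induction n with
  | zero =>
    have h4 : ((0 : ℕ) : ℤ) * (K.e : ℤ) = 0 := by simp
    rw [h4, finrank_gr_zero K.Q K.num]
    simp
  | succ n ih =>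
    rw [Finset.sum_range_succ, ← add_assoc, ← ih, ← K.gr_step n, Nat.cast_succ]

theorem Ctx.finrank_gr_nu (K : Ctx m c r) :
    Module.finrank ℂ (K.Q.b.gr K.ν) = 1 + ∑ j ∈ Finset.range K.A.card, K.h j := by
  rw [← gr_mul_Hil K, Nat.cast_mul]

/-- The quotient map. -/
abbrev mkL_Hil (Q : PD m 4 c r) : P m →ₗ[ℂ] (P m ⧸ Q.I) := (Ideal.Quotient.mkₐ ℂ Q.I).toLinearMap

theorem Ctx.finrank_hz_nu (K : Ctx m c r) :
    Module.finrank ℂ (hz m K.ν) = K.dI + Module.finrank ℂ (K.Q.b.gr K.ν) := by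
  have h1 := LinearMap.finrank_range_add_finrank_ker ((mkL_Hil K.Q).domRestrict (hz m K.ν))
  have h2 : LinearMap.range ((mkL_Hil K.Q).domRestrict (hz m K.ν)) = K.Q.b.gr K.ν := by
    ext v
    rw [K.Q.mem_gr_iff, LinearMap.mem_range]
    constructor
    · rintro ⟨f, rfl⟩
      exact ⟨f, f.2, rfl⟩
    · rintro ⟨f, hf, rfl⟩
      exact ⟨⟨f, hf⟩, rfl⟩
  have h3 : LinearMap.ker ((mkL_Hil K.Q).domRestrict (hz m K.ν)) =
      (hz m K.ν ⊓ K.Q.I.restrictScalars ℂ).comap (hz m K.ν).subtype := by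
    ext f
    rw [LinearMap.mem_ker, Submodule.mem_comap, Submodule.mem_inf]
    constructor
    · intro h
      exact ⟨f.2, Ideal.Quotient.eq_zero_iff_mem.1 h⟩
    · intro h
      exact Ideal.Quotient.eq_zero_iff_mem.2 h.2
  rw [h2, h3, (Submodule.comapSubtypeEquivOfLe inf_le_left).finrank_eq] at h1
  exact h1.symm.trans (add_comm _ _)

theorem len_Hil (K : Ctx m c r) {l : List Vec} (hl : l.Nodup) (hA : l.toFinset = K.A) :
    (l.length : ℤ) * (K.e : ℤ) = (K.ν : ℕ) := by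
  rw [Nat.cast_mul, ← hA, List.toFinset_card_of_nodup hl]

theorem Ctx.filO (K : Ctx m c r) (Γ : Vec → Vec → Prop) {l : List Vec} (hl : l.Nodup)
    (hA : l.toFinset = K.A) (Y : Submodule ℂ K.Om) (hY : ∀ w ∈ Y, w ∈ K.Q.og K.ν ∧
      ∀ a ∈ K.A, ∀ a' ∈ K.A, a ≠ a' → Γ a a' → w ∈ K.M {a, a'}) :
    Module.finrank ℂ Y ≤ fil K.h Γ l := by
  have hm : ∀ a ∈ l, a ∈ K.A := fun a ha => hA ▸ List.mem_toFinset.2 ha
  have h1 := fil_bound (Φ := K.fr) (ob K.Q) (h := K.h)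
    (fun j => by
      rw [ob_gr, ob_gr]
      exact K.og_step j) Γ l hl (fun a ha => K.A_sub (hm a ha)) Y
    (fun w hw => ⟨by
      rw [ob_gr]
      have h2 := (hY w hw).1
      rw [← len_Hil K hl hA] at h2
      exact h2,
      fun a ha a' ha' => (hY w hw).2 a (hm a ha) a' (hm a' ha')⟩)
  rw [ob_gr, finrank_og_zero K.Q K.num, zero_add] at h1
  exact h1

theorem Ctx.filP (K : Ctx m c r) (Γ : Vec → Vec → Prop) {l : List Vec} (hl : l.Nodup)
    (hA : l.toFinset = K.A) (Y : Submodule ℂ (P m)) (hY : ∀ f ∈ Y, f ∈ hz m K.ν ∧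
      ∀ a ∈ K.A, ∀ a' ∈ K.A, a ≠ a' → Γ a a' → f ∈ K.p {a, a'}) :
    Module.finrank ℂ Y ≤ K.dI + 1 + fil K.h Γ l := by
  have hm : ∀ a ∈ l, a ∈ K.A := fun a ha => hA ▸ List.mem_toFinset.2 ha
  have hg : ∀ w ∈ Y.map (mkL_Hil K.Q), w ∈ K.Q.b.gr K.ν := by
    rintro _ ⟨f, hf, rfl⟩
    exact K.Q.AFB_mk_mem (hY f hf).1
  have h1 := fil_bound (Φ := K.fr) K.Q.b (h := K.h) (fun j => (K.gr_step j).le) Γ l hl
    (fun a ha => K.A_sub (hm a ha)) (Y.map (mkL_Hil K.Q))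
    (fun w hw => ⟨by
      have h2 := hg w hw
      rw [← len_Hil K hl hA] at h2
      exact h2,
      fun a ha a' ha' hn hΓ => by
        obtain ⟨f, hf, rfl⟩ := hw
        exact (K.fr.mk_mem_M K.Q.I).2 ((hY f hf).2 a (hm a ha) a' (hm a' ha') hn hΓ)⟩)
  rw [finrank_gr_zero K.Q K.num] at h1
  have : FiniteDimensional ℂ (Y.map (mkL_Hil K.Q)) := Submodule.finiteDimensional_of_le hg
  have : FiniteDimensional ℂ ↥(hz m K.ν ⊓ K.Q.I.restrictScalars ℂ) :=
    Submodule.finiteDimensional_of_le inf_le_left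
  have h2 := (la1 Y.subtype ((mkL_Hil K.Q).domRestrict Y) (hz m K.ν ⊓ K.Q.I.restrictScalars ℂ)
    (Y.map (mkL_Hil K.Q)) (fun s => ⟨s, s.2, rfl⟩)
    (fun s hs => ⟨(hY s s.2).1, Ideal.Quotient.eq_zero_iff_mem.1 hs⟩)).2
  rw [Submodule.range_subtype] at h2
  rw [add_assoc]
  exact h2.trans (Nat.add_le_add_left h1 _)

theorem fil_all {α : Type} (δ χ : ℕ) (l : List α) :
    fil (hh δ χ) (fun _ _ => True) l = l.length * χ := by
  induction l with
  | nil => simp [fil]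
  | cons a l ih =>
    rw [fil, ih]
    simp [hh]
    ring

end

end Pool.Agent.MP_1c689d_ag.K0.Al

end

section

/-! The action of derivations on polynomials and on graded free modules. -/

set_option autoImplicit false

open MvPolynomial

namespace Pool.Agent.MP_1c689d_ag.K0.Al

noncomputable section

variable {k : ℕ}

theorem coeff_dP (δ : Der) (f : P k) (s : Fin k →₀ ℕ) : coeff s (dP δ f) = δ (coeff s f) := by
  classical
  rw [dP, coeff_sum]
  simp only [coeff_monomial]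
  rw [Finset.sum_ite_eq']
  split_ifs with h
  · rfl
  · rw [notMem_support_iff.1 h, map_zero]

theorem dP_add (δ : Der) (f g : P k) : dP δ (f + g) = dP δ f + dP δ g := by
  ext s
  rw [coeff_add, coeff_dP, coeff_dP, coeff_dP, coeff_add, map_add]

theorem dP_zero (δ : Der) : dP δ (0 : P k) = 0 := by
  ext s
  rw [coeff_dP, coeff_zero, map_zero]

theorem dP_sum (δ : Der) {α : Type} (S : Finset α) (f : α → P k) :
    dP δ (∑ a ∈ S, f a) = ∑ a ∈ S, dP δ (f a) := by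
  ext s
  simp only [coeff_sum, coeff_dP, map_sum]

theorem dP_mul (δ : Der) (f g : P k) : dP δ (f * g) = dP δ f * g + f * dP δ g := by
  classical
  ext s
  rw [coeff_dP, coeff_add, coeff_mul, coeff_mul, coeff_mul, map_sum, ← Finset.sum_add_distrib]
  refine Finset.sum_congr rfl fun x _ => ?_
  rw [Derivation.leibniz, coeff_dP, coeff_dP, smul_eq_mul, smul_eq_mul]
  ring

theorem dP_smul (δ : Der) (t : ℂ) (f : P k) : dP δ (t • f) = δ t • f + t • dP δ f := by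
  ext s
  rw [coeff_dP, coeff_add, coeff_smul, coeff_smul, coeff_smul, coeff_dP, smul_eq_mul,
    Derivation.leibniz, add_comm, smul_eq_mul, smul_eq_mul, smul_eq_mul, mul_comm]

theorem dP_C (δ : Der) (t : ℂ) : dP δ (C t : P k) = C (δ t) := by
  classical
  ext s
  rw [coeff_dP, coeff_C, coeff_C]
  split_ifs
  · rfl
  · exact map_zero δ

theorem dP_X (δ : Der) (l : Fin k) : dP δ (X l : P k) = 0 := by
  classical
  ext s
  rw [coeff_dP, coeff_X, coeff_zero]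
  split_ifs
  · exact δ.map_one_eq_zero
  · exact map_zero δ

theorem dP_prod (δ : Der) {α : Type} [DecidableEq α] (S : Finset α) (f : α → P k) :
    dP δ (∏ a ∈ S, f a) = ∑ a ∈ S, (∏ a' ∈ S.erase a, f a') * dP δ (f a) := by
  induction S using Finset.induction_on with
  | empty =>
    rw [Finset.prod_empty, Finset.sum_empty, ← C_1, dP_C, δ.map_one_eq_zero, C_0]
  | insert a S ha ih =>
    rw [Finset.prod_insert ha, dP_mul, ih, Finset.sum_insert ha, Finset.erase_insert ha,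
      Finset.mul_sum, mul_comm]
    refine congrArg _ (Finset.sum_congr rfl fun b hb => ?_)
    rw [Finset.erase_insert_of_ne (fun e => ha (by rw [e]; exact hb)),
      Finset.prod_insert fun h => ha (Finset.mem_of_mem_erase h), mul_assoc]

theorem dP_pderiv (δ : Der) (l : Fin k) (f : P k) : dP δ (pderiv l f) = pderiv l (dP δ f) := by
  ext s
  rw [coeff_dP, coeff_pderiv, coeff_pderiv, coeff_dP, Derivation.leibniz, map_add,
    δ.map_one_eq_zero, Derivation.map_natCast, add_zero, smul_zero, zero_add, smul_eq_mul,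
    mul_comm]

theorem dP_hz (δ : Der) {j : ℤ} {f : P k} (hf : f ∈ hz k j) : dP δ f ∈ hz k j := by
  rcases AFB_cases hf with rfl | ⟨a, rfl, ha⟩
  · rw [dP_zero]
    exact zero_mem _
  · refine mem_hz_nat.2 fun d hd => ha fun h0 => hd ?_
    rw [coeff_dP, h0, map_zero]

theorem dP_Lv (δ : Der) (yi : Fin 4 → Fin k) (e : ℕ) (a : Vec) :
    dP δ (Lv yi e a) = Lv yi e fun l => δ (a l) := by
  have h : ∀ (n : ℕ) (l : Fin k), dP δ (X l ^ n : P k) = 0 := fun n l => by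
    induction n with
    | zero => rw [pow_zero, ← C_1, dP_C, δ.map_one_eq_zero, C_0]
    | succ n ih => rw [pow_succ, dP_mul, ih, dP_X, zero_mul, mul_zero, add_zero]
  simp only [Lv, phi, lin, map_sum, map_mul, aeval_C, aeval_X, algebraMap_eq]
  rw [dP_sum]
  refine Finset.sum_congr rfl fun l _ => ?_
  rw [dP_mul, h, dP_C, mul_zero, add_zero]

theorem dP_mem_span (δ : Der) {T : Set (P k)} (h : ∀ x ∈ T, dP δ x = 0) {f : P k}
    (hf : f ∈ Ideal.span T) : dP δ f ∈ Ideal.span T := by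
  induction hf using Submodule.span_induction with
  | mem x hx => rw [h x hx]; exact zero_mem _
  | zero => rw [dP_zero]; exact zero_mem _
  | add x y _ _ hx hy => rw [dP_add]; exact add_mem hx hy
  | smul a x hx ih =>
    rw [smul_eq_mul, dP_mul]
    exact add_mem (Ideal.mul_mem_left _ _ hx) (Ideal.mul_mem_left _ _ ih)

theorem der_eval (δ : Der) (v : Fin k → ℂ) (f : P k) :
    δ (eval v f) = eval v (dP δ f) + ∑ l, eval v (pderiv l f) * δ (v l) := by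
  classical
  induction f using MvPolynomial.induction_on with
  | C a => simp [dP_C]
  | add f g hf hg =>
    simp only [map_add, dP_add, hf, hg, add_mul, Finset.sum_add_distrib]
    ring
  | mul_X f l hf =>
    have e : ∑ i, eval v (pderiv i (f * X l)) * δ (v i) =
        v l * ∑ i, eval v (pderiv i f) * δ (v i) + eval v f * δ (v l) := by
      simp only [pderiv_mul, map_add, map_mul, eval_X, add_mul, Finset.sum_add_distrib]
      rw [Finset.mul_sum, Finset.sum_eq_single l (f := fun i =>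
        eval v f * eval v (pderiv i (X l)) * δ (v i))
        (fun i _ hi => by rw [pderiv_X_of_ne hi.symm, map_zero, mul_zero, zero_mul])
        (fun h => absurd (Finset.mem_univ l) h), pderiv_X_self, map_one, mul_one]
      exact congrArg (· + _) (Finset.sum_congr rfl fun i _ => by ring)
    rw [e, map_mul, eval_X, Derivation.leibniz, hf, dP_mul, dP_X, mul_zero, add_zero, map_mul,
      eval_X, smul_eq_mul, smul_eq_mul]
    ring

theorem dP_fin (f : P k) : ∃ S : Finset ℂ, ∀ δ, Kills S δ → dP δ f = 0 := by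
  classical
  refine ⟨f.support.image fun s => coeff s f, fun δ hδ => ?_⟩
  refine Finset.sum_eq_zero fun s hs => ?_
  rw [hδ _ (Finset.mem_image_of_mem _ hs), map_zero]

theorem Kills.mono {S S' : Finset ℂ} {δ : Der} (h : Kills S' δ) (hS : S ⊆ S') : Kills S δ := by
  exact fun s hs => h s (hS hs)

theorem dP_der_add_Dm (δ δ' : Der) (f : P k) : dP (δ + δ') f = dP δ f + dP δ' f := by
  ext s
  rw [coeff_add, coeff_dP, coeff_dP, coeff_dP, Derivation.add_apply]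

theorem dP_der_smul_Dm (t : ℂ) (δ : Der) (f : P k) : dP (t • δ) f = t • dP δ f := by
  ext s
  rw [coeff_smul, coeff_dP, coeff_dP, Derivation.smul_apply]

/-- The action on polynomials, bundled. -/
def act_Dm (k : ℕ) : Der →ₗ[ℂ] P k →+ P k where
  toFun δ := ⟨⟨dP δ, dP_zero δ⟩, dP_add δ⟩
  map_add' δ δ' := AddMonoidHom.ext (dP_der_add_Dm δ δ')
  map_smul' t δ := AddMonoidHom.ext (dP_der_smul_Dm t δ)

theorem exists_dmP : ∃ D : DM (P k), ∀ δ f, D.act δ f = dP δ f := by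
  exact ⟨⟨act_Dm k, dP_smul, dP_fin⟩, fun _ _ => rfl⟩

theorem exists_dm {m : ℕ} {yi : Fin k → Fin m} {N : Type} [AddCommGroup N] [Module ℂ N]
    [Module (P m) N] [IsScalarTower ℂ (P m) N] (b : FB yi N) : ∃ (D : DM N) (S : Finset ℂ),
      (∀ δ j, ∀ v ∈ b.gr j, D.act δ v ∈ b.gr j) ∧
        ∀ δ, Kills S δ → ∀ (h : P m) (v : N), D.act δ (h • v) = dP δ h • v + h • D.act δ v := by
  classical
  let A : Der →ₗ[ℂ] N →+ N :=
    { toFun := fun δ =>
        { toFun := fun v => b.co.symm fun i => dP δ (b.co v i)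
          map_zero' := by
            rw [LinearEquiv.symm_apply_eq, map_zero]
            funext i
            exact dP_zero δ
          map_add' := fun v w => by
            rw [LinearEquiv.symm_apply_eq, map_add, map_add, LinearEquiv.apply_symm_apply,
              LinearEquiv.apply_symm_apply]
            funext i
            exact dP_add δ _ _ }
      map_add' := fun δ δ' => AddMonoidHom.ext fun v => by
        change b.co.symm _ = b.co.symm _ + b.co.symm _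
        rw [← map_add]
        exact congrArg _ (funext fun i => dP_der_add_Dm δ δ' _)
      map_smul' := fun t δ => AddMonoidHom.ext fun v => by
        change b.co.symm _ = t • b.co.symm _
        rw [← map_smul]
        exact congrArg _ (funext fun i => dP_der_smul_Dm t δ _) }
  have hA : ∀ δ v i, b.co (A δ v) i = dP δ (b.co v i) := fun δ v i =>
    congrFun (b.co.apply_symm_apply fun i => dP δ (b.co v i)) i
  have hs : ∀ (δ : Der) (t : ℂ) (v : N), A δ (t • v) = δ t • v + t • A δ v := fun δ t v =>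
    b.co.injective (funext fun i => by
      rw [hA, map_add, map_smul, map_smul, map_smul, Pi.add_apply, Pi.smul_apply, Pi.smul_apply,
        Pi.smul_apply, hA, dP_smul])
  have hf : ∀ v, ∃ S : Finset ℂ, ∀ δ, Kills S δ → A δ v = 0 := fun v => by
    choose S hS using fun i => dP_fin (b.co v i)
    refine ⟨Finset.univ.biUnion S, fun δ hδ => b.co.injective (funext fun i => ?_)⟩
    rw [hA, map_zero, Pi.zero_apply]
    exact hS i δ (hδ.mono (Finset.subset_biUnion_of_mem S (Finset.mem_univ i)))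
  have hy : ∀ (δ : Der) (a : P k) (v : N), A δ ((rename yi a : P m) • v) =
      (rename yi (dP δ a) : P m) • v + (rename yi a : P m) • A δ v := fun δ a v =>
    b.co.injective (funext fun i => by
      rw [hA, map_add, Pi.add_apply, b.co_y, b.co_y, b.co_y, hA, dP_mul])
  choose T hT using fun x : Fin m × b.ι => hf ((X x.1 : P m) • b.co.symm (Pi.single x.2 1))
  refine ⟨⟨A, hs, hf⟩, Finset.univ.biUnion T, fun δ j v hv i => ?_, fun δ hδ h => ?_⟩
  · change b.co (A δ v) i ∈ _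
    rw [hA]
    exact dP_hz δ (hv i)
  have hX : ∀ (l : Fin m) (v : N), A δ ((X l : P m) • v) = (X l : P m) • A δ v := fun l v => by
    conv_lhs => rw [← AFB_basis b v]
    conv_rhs => rw [← AFB_basis b (A δ v)]
    rw [Finset.smul_sum, Finset.smul_sum, map_sum]
    refine Finset.sum_congr rfl fun i _ => ?_
    rw [smul_comm, hy, hT (l, i) δ
      (hδ.mono (Finset.subset_biUnion_of_mem T (Finset.mem_univ _))), smul_zero, add_zero, hA,
      smul_comm]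
  change ∀ v, A δ (h • v) = dP δ h • v + h • A δ v
  induction h using MvPolynomial.induction_on with
  | C a =>
    intro v
    rw [dP_C, ← algebraMap_eq, algebraMap_smul, algebraMap_smul, algebraMap_smul, hs]
  | add f g hf hg =>
    intro v
    rw [add_smul, map_add, hf, hg, dP_add, add_smul, add_smul]
    abel
  | mul_X f l hf =>
    intro v
    rw [mul_smul, hf, hX, dP_mul, dP_X, mul_zero, add_zero, mul_smul, mul_smul]

theorem DM.exists_prod {V W : Type} [AddCommGroup V] [Module ℂ V] [AddCommGroup W] [Module ℂ W]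
    (D : DM V) (D' : DM W) :
    ∃ E : DM (V × W), ∀ δ v w, E.act δ (v, w) = (D.act δ v, D'.act δ w) := by
  classical
  refine ⟨⟨{ toFun := fun δ => (D.act δ).prodMap (D'.act δ)
             map_add' := fun δ δ' => AddMonoidHom.ext fun x => by
               rw [map_add, map_add]
               rfl
             map_smul' := fun t δ => AddMonoidHom.ext fun x => by
               rw [map_smul, map_smul]
               rfl }, fun δ t x => Prod.ext (D.smul δ t x.1) (D'.smul δ t x.2), fun x => ?_⟩,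
    fun _ _ _ => rfl⟩
  obtain ⟨S, hS⟩ := D.fin x.1
  obtain ⟨S', hS'⟩ := D'.fin x.2
  exact ⟨S ∪ S', fun δ hδ => Prod.ext (hS δ (hδ.mono Finset.subset_union_left))
    (hS' δ (hδ.mono Finset.subset_union_right))⟩

theorem Ctx.exists_dd {m c r : ℕ} (K : Ctx m c r) : Nonempty K.DD := by
  classical
  obtain ⟨D, S, h1, h2⟩ := exists_dm (ob K.Q)
  choose SF hSF using fun j => dP_fin (K.Q.F j)
  choose SL hSL using fun a => dP_fin (K.L a)
  choose Sz hSz using fun j => D.fin (K.z j)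
  refine ⟨⟨D, (S ∪ Finset.univ.biUnion SF) ∪ (K.fr.G.biUnion SL ∪ Finset.univ.biUnion Sz),
    fun δ j v hv => ?_, fun δ hδ => h2 δ (hδ.mono ?_), fun δ hδ j => hSF j δ (hδ.mono ?_),
    fun δ hδ a ha => hSL a δ (hδ.mono ?_), fun δ hδ j => hSz j δ (hδ.mono ?_)⟩⟩
  · rw [← ob_gr] at hv ⊢
    exact h1 δ j v hv
  · exact Finset.subset_union_left.trans Finset.subset_union_left
  · exact ((Finset.subset_biUnion_of_mem SF (Finset.mem_univ j)).trans
      Finset.subset_union_right).trans Finset.subset_union_left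
  · exact ((Finset.subset_biUnion_of_mem SL ha).trans
      Finset.subset_union_left).trans Finset.subset_union_right
  · exact ((Finset.subset_biUnion_of_mem Sz (Finset.mem_univ j)).trans
      Finset.subset_union_right).trans Finset.subset_union_right

theorem Ctx.DD.dv {m c r : ℕ} {K : Ctx m c r} (D : K.DD) {δ : Der} (hδ : Kills D.S δ)
    (g : Fin m → K.Om) {h : P m} (hh : dP δ h = 0) :
    D.D.act δ (dv g h) = dv (fun l => D.D.act δ (g l)) h := by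
  unfold K0.dv
  rw [map_sum]
  refine Finset.sum_congr rfl fun l _ => ?_
  rw [D.leib δ hδ, dP_pderiv, hh, map_zero, zero_smul, zero_add]

theorem Ctx.DD.pr {m c r : ℕ} {K : Ctx m c r} (D : K.DD) {δ : Der} (hδ : Kills D.S δ)
    {S : Finset Vec} (hS : S ⊆ K.fr.G) : dP δ (K.pr S) = 0 := by
  classical
  refine (dP_prod δ S K.fr.L).trans (Finset.sum_eq_zero fun a ha => ?_)
  rw [D.kL δ hδ a (hS ha), mul_zero]

theorem Ctx.DD.wg {m c r : ℕ} {K : Ctx m c r} (D : K.DD) {δ : Der} (hδ : Kills D.S δ)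
    (g : Fin m → K.Om) (a l : Fin m) : D.D.act δ (wg g a l) = wg (fun l => D.D.act δ (g l)) a l := by
  unfold Al.wg
  rw [map_sub, D.leib δ hδ, D.leib δ hδ, dP_X, dP_X, zero_smul, zero_smul, zero_add, zero_add]

theorem Ctx.DD.q_Dm {m c r : ℕ} {K : Ctx m c r} (D : K.DD) {δ : Der} (hδ : Kills D.S δ)
    {S : Finset Vec} (hS : S ⊆ K.fr.G) {f : P m} (hf : f ∈ K.fr.q S) : dP δ f ∈ K.fr.q S := by
  refine dP_mem_span δ ?_ hf
  rintro _ ⟨a, ha, rfl⟩
  exact D.kL δ hδ a (hS ha)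

theorem Ctx.DD.M {m c r : ℕ} {K : Ctx m c r} (D : K.DD) {δ : Der} (hδ : Kills D.S δ)
    {S : Finset Vec} (hS : S ⊆ K.fr.G) {w : K.Om} (hw : w ∈ K.M S) : D.D.act δ w ∈ K.M S := by
  refine Submodule.smul_induction_on (p := fun w => D.D.act δ w ∈ K.M S) hw
    (fun a ha w _ => ?_) fun v w hv hw => ?_
  · rw [D.leib δ hδ]
    exact add_mem (Submodule.smul_mem_smul (D.q_Dm hδ hS ha) Submodule.mem_top)
      (Submodule.smul_mem_smul ha Submodule.mem_top)
  · rw [map_add]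
    exact add_mem hv hw

theorem Ctx.DD.p {m c r : ℕ} {K : Ctx m c r} (D : K.DD) {δ : Der} (hδ : Kills D.S δ)
    {S : Finset Vec} (hS : S ⊆ K.fr.G) {f : P m} (hf : f ∈ K.p S) : dP δ f ∈ K.p S := by
  obtain ⟨y, hy, z, hz, rfl⟩ := Submodule.mem_sup.1 hf
  rw [dP_add]
  refine Submodule.add_mem_sup (dP_mem_span δ ?_ hy) (D.q_Dm hδ hS hz)
  rintro _ ⟨j, rfl⟩
  exact D.kF δ hδ j

theorem Ctx.DD.sol {m c r : ℕ} {K : Ctx m c r} (D : K.DD) {δ : Der} (hδ : Kills D.S δ) {τ : K.Om}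
    {b : P m} {g ξ : Fin m → K.Om} {ρ ru : Fin r → K.Om} (h : K.Sol τ b g ξ ρ ru) :
    K.Sol (D.D.act δ τ) (dP δ b) (fun l => D.D.act δ (g l)) (fun l => D.D.act δ (ξ l))
      (fun j => D.D.act δ (ρ j)) fun j => D.D.act δ (ru j) := by
  have hA : dP δ K.s0 = 0 := D.pr hδ (Finset.subset_union_left.trans Finset.subset_union_left)
  have hB : dP δ K.f = 0 := D.pr hδ (Finset.subset_union_right.trans Finset.subset_union_left)
  refine ⟨⟨fun l => D.gr δ _ _ (h.kz.deg l), fun j => ?_, ?_⟩, fun l => D.gr δ _ _ (h.deg l),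
    fun j => ?_, ?_⟩
  · rw [← D.dv hδ ξ (D.kF δ hδ j), h.kz.J, D.leib δ hδ, hA, zero_smul, zero_add]
  · rw [← D.dv hδ ξ hA, h.kz.s, map_zero]
  · rw [← D.dv hδ g (D.kF δ hδ j), h.J, map_add, map_add, D.leib δ hδ, D.leib δ hδ, D.leib δ hδ,
      hA, hB, D.kz δ hδ, smul_zero, add_zero, zero_smul, zero_smul, zero_add, zero_add]
  · rw [← D.dv hδ g hA, ← D.dv hδ ξ hB, ← map_add, ← h.out]

theorem Ctx.DD.Tan_le {m c r : ℕ} {K : Ctx m c r} (D : K.DD) {u : K.Om × ℂ}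
    (hu : u.1 ∈ K.Q.og K.ν) : D.Tan u ≤ (K.Q.og K.ν).prod ⊤ := by
  refine sup_le (Submodule.span_le.2 ?_) (Submodule.span_le.2 ?_)
  · rintro _ ⟨δ, -, rfl⟩
    exact ⟨D.gr δ _ _ hu, Submodule.mem_top⟩
  · rintro _ rfl
    exact ⟨hu, Submodule.mem_top⟩

end

end Pool.Agent.MP_1c689d_ag.K0.Al

end

section

/-! Factorisations that are constant to all orders. -/

set_option autoImplicit false

open MvPolynomial

namespace Pool.Agent.MP_1c689d_ag.K0.Al

noncomputable section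

theorem const_Fc {L : Type} [Field L] [Algebra ℂ L] {x : L}
    (h : ∀ O : ValuationSubring L, (∀ c : ℂ, algebraMap ℂ L c ∈ O) → x ∈ O) :
    ∃ t : ℂ, algebraMap ℂ L t = x := by
  have h1 : x ∈ (integralClosure (Subring.closure ((⊥ : Subalgebra ℂ L).toSubring : Set L))
      L).toSubring := by
    rw [← iInf_valuationSubring_superset, Subring.mem_iInf]
    exact fun O => h O.1 fun c => O.2 (Subalgebra.algebraMap_mem ⊥ c)
  rw [Subring.closure_eq] at h1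
  have h2 : IsIntegral (⊥ : Subalgebra ℂ L) x := h1
  have : Algebra.IsIntegral ℂ (⊥ : Subalgebra ℂ L) :=
    Algebra.isIntegral_of_surjective fun y => by
      obtain ⟨c, hc⟩ := Algebra.mem_bot.1 y.2
      exact ⟨c, Subtype.ext hc⟩
  exact minpoly.mem_range_of_degree_eq_one ℂ x
    (IsAlgClosed.degree_eq_one_of_irreducible ℂ (minpoly.irreducible (isIntegral_trans x h2)))

theorem max_Fc {L : Type} [Field L] [Algebra ℂ L] (O : ValuationSubring L)
    (hO : ∀ c : ℂ, algebraMap ℂ L c ∈ O) (a : ℕ → L) (Va : Submodule ℂ L)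
    [FiniteDimensional ℂ Va] (ha : ∀ n, a n ∈ Va) :
    ∃ i, (∀ n, O.valuation (a n) ≤ O.valuation (a i)) ∧
      ∀ n < i, O.valuation (a n) < O.valuation (a i) := by
  classical
  have h1 : ∃ i, ∀ n, O.valuation (a n) ≤ O.valuation (a i) := by
    have : FiniteDimensional ℂ (Submodule.span ℂ (Set.range a)) :=
      Submodule.finiteDimensional_of_le (Submodule.span_le.2 (Set.range_subset_iff.2 ha))
    obtain ⟨T, hT, e⟩ := (Submodule.fg_span_iff_fg_span_finset_subset (Set.range a)).1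
      (Module.Finite.iff_fg.1 this)
    obtain ⟨m, hm, h2⟩ := (insert (a 0) T).exists_max_image O.valuation (Finset.insert_nonempty _ _)
    obtain ⟨i, rfl⟩ : m ∈ Set.range a := by
      rcases Finset.mem_insert.1 hm with rfl | k
      exacts [⟨0, rfl⟩, hT k]
    refine ⟨i, fun n => ?_⟩
    have h3 : a n ∈ Submodule.span ℂ (T : Set L) := e ▸ Submodule.subset_span ⟨n, rfl⟩
    generalize a n = y at h3
    induction h3 using Submodule.span_induction with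
    | mem y hy => exact h2 y (Finset.mem_insert_of_mem hy)
    | zero => simp
    | add y z _ _ k1 k2 => exact O.valuation.map_add_le k1 k2
    | smul c y _ k =>
      rw [Algebra.smul_def, map_mul]
      exact (mul_le_of_le_one_left' ((O.valuation_le_one_iff _).2 (hO c))).trans k
  refine ⟨Nat.find h1, Nat.find_spec h1, fun n hn => ?_⟩
  obtain ⟨k, hk⟩ := not_forall.1 (Nat.find_min h1 hn)
  exact (not_le.1 hk).trans_le (Nat.find_spec h1 k)

theorem fc_field {L : Type} [Field L] [Algebra ℂ L] (a b : ℕ → L) (Va Vb : Submodule ℂ L)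
    [FiniteDimensional ℂ Va] [FiniteDimensional ℂ Vb] (ha : ∀ n, a n ∈ Va) (hb : ∀ n, b n ∈ Vb)
    (a0 : a 0 ≠ 0) (b0 : b 0 ≠ 0)
    (h : ∀ n, ∑ x ∈ Finset.HasAntidiagonal.antidiagonal (n + 1), a x.1 * b x.2 = 0) : ∃ t : ℂ, a 1 = t • a 0 := by
  classical
  obtain ⟨t, ht⟩ := const_Fc (x := a 1 / a 0) fun O hO => by
    obtain ⟨i, i1, i2⟩ := max_Fc O hO a Va ha
    obtain ⟨j, j1, j2⟩ := max_Fc O hO b Vb hb
    have v0 : 0 < O.valuation (a 0) := (Valuation.pos_iff _).2 a0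
    have vi : 0 < O.valuation (a i) := v0.trans_le (i1 0)
    have vj : 0 < O.valuation (b j) := ((Valuation.pos_iff _).2 b0).trans_le (j1 0)
    have hij : i + j = 0 := by
      by_contra hne
      obtain ⟨n, hn⟩ := Nat.exists_eq_add_one_of_ne_zero hne
      have h1 := h n
      rw [← Finset.add_sum_erase _ _ (Finset.HasAntidiagonal.mem_antidiagonal.2 (show (i, j).1 + (i, j).2 = n + 1
        from hn)), add_eq_zero_iff_eq_neg] at h1
      have h2 := O.valuation.map_sum_lt' (s := (Finset.HasAntidiagonal.antidiagonal (n + 1)).erase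
        (i, j)) (f := fun x => a x.1 * b x.2) (mul_pos vi vj) fun x hx => by
          obtain ⟨k1, k2⟩ := Finset.mem_erase.1 hx
          rw [Finset.HasAntidiagonal.mem_antidiagonal] at k2
          rw [map_mul]
          rcases lt_or_ge x.1 i with k | k
          · exact mul_lt_mul_of_lt_of_le_of_nonneg_of_pos (i2 _ k) (j1 _) zero_le vj
          · refine mul_lt_mul_of_le_of_lt_of_nonneg_of_pos (i1 _) (j2 _ ?_) zero_le vi
            by_contra k3
            exact k1 (Prod.ext (show x.1 = i by omega) (show x.2 = j by omega))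
      rw [← Valuation.map_neg, ← h1, map_mul] at h2
      exact lt_irrefl _ h2
    obtain rfl : i = 0 := by omega
    rw [← O.valuation_le_one_iff, map_div₀, div_le_one₀ v0]
    exact i1 1
  exact ⟨t, by rw [Algebra.smul_def, ht, div_mul_cancel₀ _ a0]⟩

theorem fc_dom {B : Type} [CommRing B] [IsDomain B] [Algebra ℂ B] (a b : ℕ → B)
    (Va Vb : Submodule ℂ B) [FiniteDimensional ℂ Va] [FiniteDimensional ℂ Vb] (ha : ∀ n, a n ∈ Va)
    (hb : ∀ n, b n ∈ Vb) (a0 : a 0 ≠ 0) (b0 : b 0 ≠ 0)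
    (h : ∀ n, ∑ x ∈ Finset.HasAntidiagonal.antidiagonal (n + 1), (n + 1).choose x.1 • (a x.1 * b x.2) = 0) :
    ∃ t : ℂ, a 1 = t • a 0 := by
  have hi : Function.Injective (IsScalarTower.toAlgHom ℂ B (FractionRing B)) :=
    IsFractionRing.injective B (FractionRing B)
  generalize IsScalarTower.toAlgHom ℂ B (FractionRing B) = f at hi
  have hf : ∀ n : ℕ, (n.factorial : ℂ) ≠ 0 := fun n => Nat.cast_ne_zero.2 n.factorial_ne_zero
  obtain ⟨t, ht⟩ := fc_field (fun n => (n.factorial : ℂ)⁻¹ • f (a n))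
    (fun n => (n.factorial : ℂ)⁻¹ • f (b n)) (Va.map f.toLinearMap) (Vb.map f.toLinearMap)
    (fun n => Submodule.smul_mem _ _ ⟨_, ha n, rfl⟩) (fun n => Submodule.smul_mem _ _ ⟨_, hb n, rfl⟩)
    (by simpa using (map_ne_zero_iff f hi).2 a0) (by simpa using (map_ne_zero_iff f hi).2 b0)
    fun n => by
      have h1 := congrArg (fun y => (((n + 1).factorial : ℕ) : ℂ)⁻¹ • f y) (h n)
      simp only [map_zero, smul_zero, map_sum, Finset.smul_sum] at h1
      refine Eq.trans (Finset.sum_congr rfl fun x hx => ?_) h1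
      rw [Finset.HasAntidiagonal.mem_antidiagonal] at hx
      rw [smul_mul_smul_comm, ← Nat.cast_smul_eq_nsmul ℂ, map_smul, map_mul, smul_smul, ← hx,
        Nat.cast_add_choose]
      congr 1
      have := hf x.1
      have := hf x.2
      have := hf (x.1 + x.2)
      field_simp
  refine ⟨t, hi ?_⟩
  simpa using ht

end

end Pool.Agent.MP_1c689d_ag.K0.Al

end

section

/-! A factor of a constant section is constant up to a scalar. -/

set_option autoImplicit false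

open MvPolynomial

namespace Pool.Agent.MP_1c689d_ag.K0.Al

noncomputable section

variable {m c r : ℕ} (K : Ctx m c r)

theorem Ctx.DD.iter {K : Ctx m c r} (D : K.DD) {δ : Der} (hδ : Kills D.S δ) (h : P m) (w : K.Om)
    (n : ℕ) : (D.D.act δ)^[n] (h • w) = ∑ x ∈ Finset.HasAntidiagonal.antidiagonal n,
      n.choose x.1 • ((dP δ)^[x.1] h • (D.D.act δ)^[x.2] w) := by
  induction n with
  | zero => simp
  | succ n ih =>
    rw [Function.iterate_succ_apply', ih, map_sum,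
      Finset.sum_antidiagonal_choose_succ_nsmul
        (fun i j => (dP δ)^[i] h • (D.D.act δ)^[j] w) n, ← Finset.sum_add_distrib]
    refine Finset.sum_congr rfl fun x hx => ?_
    rw [map_nsmul, D.leib δ hδ, Function.iterate_succ_apply', Function.iterate_succ_apply',
      smul_add, add_comm,
      Nat.choose_symm_of_eq_add (Finset.HasAntidiagonal.mem_antidiagonal.1 hx).symm]

theorem Ctx.DD.fc {K : Ctx m c r} (D : K.DD) {δ : Der} (hδ : Kills D.S δ) {a b : Vec}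
    (ha : a ∈ K.A) (hb : b ∈ K.A) (hab : a ≠ b) {i j : ℤ} {h : P m} (hh : h ∈ hz m i)
    (hn : h ∉ K.p {a, b}) {w : K.Om} (hw : w ∈ K.Q.og j) (hw' : w ∉ K.M {a, b})
    (he : D.D.act δ (h • w) ∈ K.M {a, b}) : ∃ t : ℂ, D.D.act δ w - t • w ∈ K.M {a, b} := by
  have hA : ({a, b} : Finset Vec) ⊆ K.A :=
    Finset.insert_subset ha (Finset.singleton_subset_iff.2 hb)
  have := K.prime ha hb hab
  obtain ⟨J, f, hf, hf'⟩ := K.iota_ne hA (Finset.insert_nonempty _ _)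
    (Finset.card_le_two.trans (by norm_num)) hw'
  obtain ⟨s, hs⟩ := K.T.ι_deg J
  let π : P m →ₐ[ℂ] P m ⧸ K.p {a, b} := Ideal.Quotient.mkₐ ℂ _
  let ψ : (P m ⧸ K.Q.I) →ₐ[ℂ] P m ⧸ K.p {a, b} := Ideal.Quotient.factorₐ ℂ le_sup_left
  have hψ : ∀ g, ψ (Ideal.Quotient.mk K.Q.I g) = π g := fun g => rfl
  have hπ : ∀ g, π g = 0 ↔ g ∈ K.p {a, b} := fun g => Ideal.Quotient.eq_zero_iff_mem
  have h1 : ∀ (g : P m) (v : K.Om), π g * ψ (K.T.ι J v) = ψ (K.T.ι J (g • v)) := fun g v => by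
    rw [map_smul, ← hψ, ← map_mul]
    rfl
  have h2 : ∀ n, (D.D.act δ)^[n + 1] (h • w) ∈ K.M {a, b} := fun n => by
    induction n with
    | zero => exact he
    | succ n ih =>
      rw [Function.iterate_succ_apply']
      exact D.M hδ (hA.trans K.A_sub) ih
  have h3 : ∀ n, (dP δ)^[n] h ∈ hz m i := fun n => by
    induction n with
    | zero => exact hh
    | succ n ih =>
      rw [Function.iterate_succ_apply']
      exact dP_hz δ ih
  have h4 : ∀ n, (D.D.act δ)^[n] w ∈ K.Q.og j := fun n => by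
    induction n with
    | zero => exact hw
    | succ n ih =>
      rw [Function.iterate_succ_apply']
      exact D.gr δ j _ ih
  obtain ⟨t, ht⟩ := fc_dom (fun n => π ((dP δ)^[n] h))
    (fun n => ψ (K.T.ι J ((D.D.act δ)^[n] w))) ((hz m i).map π.toLinearMap)
    ((K.Q.b.gr (j + s)).map ψ.toLinearMap) (fun n => ⟨_, h3 n, rfl⟩)
    (fun n => ⟨_, hs j _ (h4 n), rfl⟩) (fun e => hn ((hπ h).1 e))
    (fun e => hf' ((hπ f).1 (by rw [← hψ, hf]; exact e))) fun n => by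
      simp only [h1, ← map_nsmul, ← map_sum]
      obtain ⟨g, hg⟩ := Ideal.Quotient.mk_surjective (K.T.ι J ((D.D.act δ)^[n + 1] (h • w)))
      rw [← D.iter hδ, ← hg, hψ, hπ]
      exact K.iota_M J (h2 n) hg
  have h5 : dP δ h - t • h ∈ K.p {a, b} := by
    rw [← hπ, map_sub, map_smul]
    exact sub_eq_zero.2 ht
  refine ⟨-t, K.tf ha hb hab hn ?_⟩
  have h6 := sub_mem he (K.smul_mem_M h5 w)
  rw [D.leib δ hδ, sub_smul, smul_assoc] at h6
  rw [neg_smul, sub_neg_eq_add, smul_add, smul_comm h t w]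
  rwa [show dP δ h • w + h • D.D.act δ w - (dP δ h • w - t • h • w) =
    h • D.D.act δ w + t • h • w by abel] at h6

end

end Pool.Agent.MP_1c689d_ag.K0.Al

end

section

/-! The derivatives in the mixed case. -/

set_option autoImplicit false

open MvPolynomial

namespace Pool.Agent.MP_1c689d_ag.K0.Al

noncomputable section

variable {m c r : ℕ} (K : Ctx m c r)

theorem Ctx.col_cases_C1b (u : K.Om × ℂ) (a b : Vec) :
    (K.col u a b = 1 ∧ u.1 ∈ K.M {a, b}) ∨ (K.col u a b = 0 ∧ ∀ x ∈ K.Ann u, x ∈ K.p {a, b}) ∨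
      (K.col u a b = 2 ∧ u.1 ∉ K.M {a, b} ∧ ∃ x ∈ K.Ann u, x ∉ K.p {a, b}) := by
  unfold Ctx.col
  by_cases h1 : u.1 ∈ K.M {a, b}
  · exact Or.inl ⟨if_pos h1, h1⟩
  · by_cases h2 : ∀ x ∈ K.Ann u, x ∈ K.p {a, b}
    · exact Or.inr (Or.inl ⟨by rw [if_neg h1, if_pos h2], h2⟩)
    · refine Or.inr (Or.inr ⟨by rw [if_neg h1, if_neg h2], h1, ?_⟩)
      by_contra h3
      exact h2 fun x hx => by_contra fun h4 => h3 ⟨x, hx, h4⟩

/-- The sections that vanish on the curves of nonzero colour. -/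
def Ctx.W0_C1b (u : K.Om × ℂ) : Submodule ℂ K.Om where
  carrier := {w | w ∈ K.Q.og K.ν ∧
    ∀ a ∈ K.A, ∀ a' ∈ K.A, a ≠ a' → K.col u a a' ≠ 0 → w ∈ K.M {a, a'}}
  add_mem' := fun h h' => ⟨add_mem h.1 h'.1, fun a ha a' ha' hn hc =>
    add_mem (h.2 a ha a' ha' hn hc) (h'.2 a ha a' ha' hn hc)⟩
  zero_mem' := ⟨zero_mem _, fun _ _ _ _ _ _ => zero_mem _⟩
  smul_mem' := fun t _ h => ⟨Submodule.smul_mem _ t h.1, fun a ha a' ha' hn hc =>
    Submodule.smul_of_tower_mem _ t (h.2 a ha a' ha' hn hc)⟩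

/-- The sections proportional to `u.1` on the curves of nonzero colour. -/
def Ctx.T1_C1b (u : K.Om × ℂ) : Submodule ℂ K.Om where
  carrier := {w | w ∈ K.Q.og K.ν ∧
    ∀ a ∈ K.A, ∀ a' ∈ K.A, a ≠ a' → K.col u a a' ≠ 0 → ∃ t : ℂ, w - t • u.1 ∈ K.M {a, a'}}
  add_mem' := fun {w w'} h h' => ⟨add_mem h.1 h'.1, fun a ha a' ha' hn hc => by
    obtain ⟨t, ht⟩ := h.2 a ha a' ha' hn hc
    obtain ⟨t', ht'⟩ := h'.2 a ha a' ha' hn hc
    refine ⟨t + t', ?_⟩
    have e : w + w' - (t + t') • u.1 = (w - t • u.1) + (w' - t' • u.1) := by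
      rw [add_smul]; abel
    rw [e]; exact add_mem ht ht'⟩
  zero_mem' := ⟨zero_mem _, fun _ _ _ _ _ _ => ⟨0, by
    rw [zero_smul, sub_zero]; exact zero_mem _⟩⟩
  smul_mem' := fun s w h => ⟨Submodule.smul_mem _ s h.1, fun a ha a' ha' hn hc => by
    obtain ⟨t, ht⟩ := h.2 a ha a' ha' hn hc
    refine ⟨s * t, ?_⟩
    have e : s • w - (s * t) • u.1 = s • (w - t • u.1) := by rw [mul_smul, smul_sub]
    rw [e]; exact Submodule.smul_of_tower_mem _ s ht⟩

instance Ctx.W0_fin_C1b (u : K.Om × ℂ) : FiniteDimensional ℂ (K.W0_C1b u) :=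
  Submodule.finiteDimensional_of_le (S₂ := K.Q.og K.ν) fun _ h => h.1

instance Ctx.T1_fin_C1b (u : K.Om × ℂ) : FiniteDimensional ℂ (K.T1_C1b u) :=
  Submodule.finiteDimensional_of_le (S₂ := K.Q.og K.ν) fun _ h => h.1

/-- The ordered pairs of colour two. -/
def Ctx.E_C1b (u : K.Om × ℂ) : Finset (Vec × Vec) :=
  K.A.offDiag.filter fun x => K.col u x.1 x.2 = 2

theorem Ctx.mem_E_C1b {u : K.Om × ℂ} {x : Vec × Vec} :
    x ∈ K.E_C1b u ↔ (x.1 ∈ K.A ∧ x.2 ∈ K.A ∧ x.1 ≠ x.2) ∧ K.col u x.1 x.2 = 2 := by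
  rw [Ctx.E_C1b, Finset.mem_filter, Finset.mem_offDiag]

theorem Ctx.T1_le_C1b (u : K.Om × ℂ) {l : List Vec} (hl : l.Nodup) (hA : l.toFinset = K.A) :
    Module.finrank ℂ (K.T1_C1b u) ≤ fil K.h (fun a b => K.col u a b ≠ 0) l + K.n3 u := by
  have h0 : Module.finrank ℂ (K.W0_C1b u) ≤ fil K.h (fun a b => K.col u a b ≠ 0) l :=
    K.filO _ hl hA _ fun _ hw => hw
  have h1 := (la2 (K.T1_C1b u).subtype (K.E_C1b u) (K.T1_C1b u).subtype (fun _ => u.1)
    (fun x => (K.M {x.1, x.2}).restrictScalars ℂ) (K.W0_C1b u)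
    (fun s x hx => by
      obtain ⟨⟨ha, hb, hn⟩, hc⟩ := K.mem_E_C1b.1 hx
      exact s.2.2 _ ha _ hb hn (by rw [hc]; decide))
    (fun s hs => ⟨s.2.1, fun a ha b hb hn hc => by
      rcases K.col_cases_C1b u a b with ⟨_, h⟩ | ⟨h, _⟩ | ⟨h, _⟩
      · obtain ⟨t, ht⟩ := s.2.2 a ha b hb hn hc
        have := add_mem ht (Submodule.smul_of_tower_mem _ t h)
        rwa [sub_add_cancel] at this
      · exact absurd h hc
      · exact hs (a, b) (K.mem_E_C1b.2 ⟨⟨ha, hb, hn⟩, h⟩)⟩)).2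
  rw [Submodule.range_subtype] at h1
  exact h1.trans (Nat.add_le_add_right h0 _)

/-- The derivations that vanish on a finite set. -/
def KS_C1b (S : Finset ℂ) : Submodule ℂ Der where
  carrier := {δ | Kills S δ}
  add_mem' := fun {δ δ'} h h' s hs => by
    rw [Derivation.add_apply, h s hs, h' s hs, add_zero]
  zero_mem' := fun _ _ => rfl
  smul_mem' := fun t δ h s hs => by rw [Derivation.smul_apply, h s hs, smul_zero]

/-- The derivative of a fixed vector. -/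
def DM.at_C1b {V : Type} [AddCommGroup V] [Module ℂ V] (D : DM V) (S : Finset ℂ) (v : V) :
    (KS_C1b S × ℂ) →ₗ[ℂ] V where
  toFun := fun s => D.act s.1.1 v
  map_add' := fun s s' => by
    rw [Prod.fst_add, Submodule.coe_add, map_add, AddMonoidHom.add_apply]
  map_smul' := fun t s => by
    rw [Prod.smul_fst, Submodule.coe_smul, map_smul, AddMonoidHom.smul_apply, RingHom.id_apply]

theorem Ctx.pair_sub_C1b {a b : Vec} (ha : a ∈ K.A) (hb : b ∈ K.A) :
    ({a, b} : Finset Vec) ⊆ K.fr.G := by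
  intro x hx
  rcases Finset.mem_insert.1 hx with rfl | hx
  · exact K.A_sub ha
  · rw [Finset.mem_singleton.1 hx]; exact K.A_sub hb

theorem Ctx.DD.key_C1b {K : Ctx m c r} (D : K.DD) {u : K.Om × ℂ} (hu : u.1 ∈ K.Q.og K.ν)
    {b0 : P m} (hb0 : b0 ∈ K.Ann u) (hn0 : ∀ x ∈ K.E_C1b u, b0 ∉ K.p {x.1, x.2})
    {g ξ : Fin m → K.Om} {ρ ru : Fin r → K.Om} (hs : K.Sol (b0 • u.1) (u.2 • b0) g ξ ρ ru)
    {δ : Der} (hδ : Kills D.S δ)
    (h : ∀ x ∈ K.E_C1b u, ∀ k l, D.D.act δ (Al.wg ξ k l) ∈ K.M {x.1, x.2}) :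
    D.D.act δ u.1 ∈ K.T1_C1b u := by
  have hj : K.J0 (D.D.act δ (b0 • u.1)) (dP δ (u.2 • b0)) := by
    refine (D.sol hδ hs).j0 fun a ha b hb hn k l => ?_
    rw [← D.wg hδ]
    rcases K.col_cases_C1b u a b with ⟨_, h1⟩ | ⟨_, h1⟩ | ⟨h1, _⟩
    · exact D.M hδ (K.pair_sub_C1b ha hb) (hs.wg_mem ha hb hn (Submodule.smul_mem _ _ h1) k l)
    · exact D.M hδ (K.pair_sub_C1b ha hb) (hs.wg_mem ha hb hn (K.smul_mem_M (h1 b0 hb0) _) k l)
    · exact h (a, b) (K.mem_E_C1b.2 ⟨⟨ha, hb, hn⟩, h1⟩) k l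
  refine ⟨D.gr δ _ _ hu, fun a ha b hb hn hc => ?_⟩
  rcases K.col_cases_C1b u a b with ⟨_, h1⟩ | ⟨h1, _⟩ | ⟨h1, h2, _⟩
  · refine ⟨0, ?_⟩
    rw [zero_smul, sub_zero]
    exact D.M hδ (K.pair_sub_C1b ha hb) h1
  · exact absurd h1 hc
  · exact D.fc hδ ha hb hn hb0.1 (hn0 (a, b) (K.mem_E_C1b.2 ⟨⟨ha, hb, hn⟩, h1⟩)) hu h2
      (hj.mem ha hb hn)

theorem Ctx.DD.tanB {K : Ctx m c r} (D : K.DD) {u : K.Om × ℂ} (hu : u.1 ∈ K.Q.og K.ν)
    {l : List Vec} (hl : l.Nodup) (hA : l.toFinset = K.A) :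
    Module.finrank ℂ (D.Tan u) ≤ 1 + 2 * K.n3 u + fil K.h (fun a b => K.col u a b ≠ 0) l := by
  obtain ⟨b0, hb0, hn0⟩ := la5 (K.Ann u) (K.E_C1b u)
    (fun x => (K.p {x.1, x.2}).restrictScalars ℂ) fun x hx => by
      have hc := (K.mem_E_C1b.1 hx).2
      rcases K.col_cases_C1b u x.1 x.2 with ⟨h, _⟩ | ⟨h, _⟩ | ⟨_, _, h⟩
      · rw [hc] at h; exact absurd h (by decide)
      · rw [hc] at h; exact absurd h (by decide)
      · exact h
  obtain ⟨g, ξ, ρ, ru, hs⟩ := K.mem_Jp.1 (show (b0 • u.1, u.2 • b0) ∈ K.Jp from hb0.2)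
  have hu1 : u.1 ∈ K.T1_C1b u := ⟨hu, fun _ _ _ _ _ _ => ⟨1, by
    rw [one_smul, sub_self]; exact zero_mem _⟩⟩
  obtain ⟨hf, h1⟩ := la2
    (D.D.at_C1b D.S u.1 + (LinearMap.snd ℂ (KS_C1b D.S) ℂ).smulRight u.1) (K.E_C1b u)
    (LinearMap.pi fun x : Fin m × Fin m => D.D.at_C1b D.S (Al.wg ξ x.1 x.2))
    (fun x y => K.pr (K.A \ {x.1, x.2}) • K.psi0 x.1 x.2 y.1 y.2)
    (fun x => Submodule.pi Set.univ fun _ => (K.M {x.1, x.2}).restrictScalars ℂ) (K.T1_C1b u)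
    (fun s x hx => by
      obtain ⟨⟨ha, hb, hn⟩, _⟩ := K.mem_E_C1b.1 hx
      obtain ⟨t, ht⟩ := K.cab (D.sol s.1.2 hs).kz ha hb hn
      refine ⟨t, fun y _ => ?_⟩
      have := ht y.1 y.2
      rw [← D.wg s.1.2] at this
      exact this)
    (fun s h => add_mem (D.key_C1b hu hb0 hn0 hs s.1.2 fun x hx k l => h x hx (k, l) trivial)
      (Submodule.smul_mem _ s.2 hu1))
  have h2 := (la6 (D.Tan u) (LinearMap.range
      (D.D.at_C1b D.S u.1 + (LinearMap.snd ℂ (KS_C1b D.S) ℂ).smulRight u.1)) fun y hy => by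
    have : D.Tan u ≤ (LinearMap.range (D.D.at_C1b D.S u.1 +
        (LinearMap.snd ℂ (KS_C1b D.S) ℂ).smulRight u.1)).comap (LinearMap.fst ℂ K.Om ℂ) := by
      refine sup_le (Submodule.span_le.2 ?_) (Submodule.span_le.2 ?_)
      · rintro _ ⟨δ, hδ, rfl⟩
        refine ⟨(⟨δ, hδ⟩, 0), ?_⟩
        change D.D.act δ u.1 + (0 : ℂ) • u.1 = D.D.act δ u.1
        rw [zero_smul, add_zero]
      · intro v hv
        rw [Set.mem_singleton_iff.1 hv]
        refine ⟨(0, 1), ?_⟩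
        change D.D.act 0 u.1 + (1 : ℂ) • u.1 = u.1
        rw [map_zero, AddMonoidHom.zero_apply, zero_add, one_smul]
    exact this hy).2
  have h3 := K.T1_le_C1b u hl hA
  have h4 : (K.E_C1b u).card = K.n3 u := rfl
  omega

end

end Pool.Agent.MP_1c689d_ag.K0.Al

end

section

/-! Descent of lifts. -/

set_option autoImplicit false

open MvPolynomial

namespace Pool.Agent.MP_1c689d_ag.K0.Al

noncomputable section

variable {m c r : ℕ} (K : Ctx m c r)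

section

variable {N : Type} [AddCommGroup N] [Module (P m) N]

theorem cl3_smul_Desc (u : P m) (ψ : Fin m → Fin m → N) (a b l : Fin m) :
    cl3 (fun a l => u • ψ a l) a b l = u • cl3 ψ a b l := by
  simp only [cl3]
  module

theorem cl3_sub_Desc (ψ ψ' : Fin m → Fin m → N) (a b l : Fin m) :
    cl3 (fun a l => ψ a l - ψ' a l) a b l = cl3 ψ a b l - cl3 ψ' a b l := by
  simp only [cl3]
  module

theorem dv_smul_Desc (u f x : P m) (g : Fin m → N) (w : N) :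
    dv (fun a => u • g a) f - x • u • w = u • (dv g f - x • w) := by
  rw [dv_smul_left]
  module

theorem dv_sub_Desc (f x : P m) (g g' : Fin m → N) (w w' : N) :
    dv (fun a => g a - g' a) f - x • (w - w') = (dv g f - x • w) - (dv g' f - x • w') := by
  rw [dv_sub_left]
  module

end

theorem cancel_Desc {K : Ctx m c r} {i j k : Vec} {ζ : Fin r → K.Om} {α : Vec → K.Om}
    {ψ : Fin m → Fin m → K.Om} {u : P m} (h1 : ∀ w, u • w ∈ K.M {j, k} → w ∈ K.M {j, k})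
    (h2 : ∀ l, u • (dv (fun a => ψ a l) (K.L i) - (X l : P m) • α i) ∈ K.M {i, j, k} →
      dv (fun a => ψ a l) (K.L i) - (X l : P m) • α i ∈ K.M {i, j, k})
    (h : K.Lift i j k (fun t => u • ζ t) (fun s => u • α s) fun a l => u • ψ a l) :
    K.Lift i j k ζ α ψ := by
  refine ⟨fun a l => h1 _ ?_, fun a b l => h1 _ ?_, fun t l => h1 _ ?_, fun l => h1 _ ?_,
    fun l => h1 _ ?_, fun l => h2 _ ?_⟩
  · rw [smul_add]
    exact h.anti a l
  · rw [← cl3_smul_Desc]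
    exact h.clo a b l
  · rw [← dv_smul_Desc]
    exact h.F t l
  · rw [← dv_smul_Desc]
    exact h.lj l
  · rw [← dv_smul_Desc]
    exact h.lk l
  · rw [← dv_smul_Desc]
    exact h.li l

theorem ok_Desc {K : Ctx m c r} {i j k : Vec} (ht : K.Tri i j k) : K.fr.Ok {i, j, k} := by
  refine K.ok (Finset.Subset.trans ?_ Finset.subset_union_left)
  simp only [Finset.insert_subset_iff, Finset.singleton_subset_iff]
  exact ⟨ht.hi, ht.hj, ht.hk⟩

theorem C_og_Desc {K : Ctx m c r} {d : ℤ} (t : ℂ) {w : K.Om} (h : w ∈ K.Q.og d) :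
    (C t : P m) • w ∈ K.Q.og d := by
  rw [← MvPolynomial.algebraMap_eq, algebraMap_smul]
  exact Submodule.smul_mem _ _ h

theorem Ctx.Lift.smul {K : Ctx m c r} {i j k : Vec} {ζ : Fin r → K.Om} {α : Vec → K.Om}
    {ψ : Fin m → Fin m → K.Om} (h : K.Lift i j k ζ α ψ) (u : P m) :
    K.Lift i j k (fun t => u • ζ t) (fun s => u • α s) fun a l => u • ψ a l := by
  refine ⟨fun a l => ?_, fun a b l => ?_, fun t l => ?_, fun l => ?_, fun l => ?_, fun l => ?_⟩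
  · rw [← smul_add]
    exact Submodule.smul_mem _ _ (h.anti a l)
  · rw [cl3_smul_Desc]
    exact Submodule.smul_mem _ _ (h.clo a b l)
  · rw [dv_smul_Desc]
    exact Submodule.smul_mem _ _ (h.F t l)
  · rw [dv_smul_Desc]
    exact Submodule.smul_mem _ _ (h.lj l)
  · rw [dv_smul_Desc]
    exact Submodule.smul_mem _ _ (h.lk l)
  · rw [dv_smul_Desc]
    exact Submodule.smul_mem _ _ (h.li l)

theorem Ctx.Lift.sub {K : Ctx m c r} {i j k : Vec} {ζ ζ' : Fin r → K.Om} {α α' : Vec → K.Om}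
    {ψ ψ' : Fin m → Fin m → K.Om} (h : K.Lift i j k ζ α ψ) (h' : K.Lift i j k ζ' α' ψ') :
    K.Lift i j k (fun t => ζ t - ζ' t) (fun s => α s - α' s) fun a l => ψ a l - ψ' a l := by
  refine ⟨fun a l => ?_, fun a b l => ?_, fun t l => ?_, fun l => ?_, fun l => ?_, fun l => ?_⟩
  · rw [← add_sub_add_comm]
    exact sub_mem (h.anti a l) (h'.anti a l)
  · rw [cl3_sub_Desc]
    exact sub_mem (h.clo a b l) (h'.clo a b l)
  · rw [dv_sub_Desc]
    exact sub_mem (h.F t l) (h'.F t l)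
  · rw [dv_sub_Desc]
    exact sub_mem (h.lj l) (h'.lj l)
  · rw [dv_sub_Desc]
    exact sub_mem (h.lk l) (h'.lk l)
  · rw [dv_sub_Desc]
    exact sub_mem (h.li l) (h'.li l)

theorem Ctx.Lift.congr {K : Ctx m c r} {i j k : Vec} {ζ : Fin r → K.Om} {α : Vec → K.Om}
    {ψ ψ' : Fin m → Fin m → K.Om} (h : K.Lift i j k ζ α ψ)
    (he : ∀ a l, ψ' a l - ψ a l ∈ K.M {j, k}) : K.Lift i j k ζ α ψ' := by
  have h1 : ∀ a l, ψ a l - ψ' a l ∈ K.M {j, k} := fun a l => by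
    rw [← neg_sub]
    exact neg_mem (he a l)
  have h2 : ∀ f l, dv (fun a => ψ a l - ψ' a l) f - (X l : P m) • (0 : K.Om) ∈ K.M {j, k} :=
    fun f l => by
      rw [smul_zero, sub_zero]
      exact dv_mem _ (fun a => h1 a l) f
  have h3 : K.Lift i j k (fun _ => 0) (fun _ => 0) fun a l => ψ a l - ψ' a l :=
    ⟨fun a l => add_mem (h1 a l) (h1 l a), fun a b l => add_mem (sub_mem
      (Submodule.smul_mem _ _ (h1 _ _)) (Submodule.smul_mem _ _ (h1 _ _)))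
      (Submodule.smul_mem _ _ (h1 _ _)), fun _ => h2 _, h2 _, h2 _,
      fun l => K.fr.M_mono (Finset.subset_insert _ _) (h2 _ l)⟩
  simpa only [sub_zero, sub_sub_cancel] using h.sub h3

theorem Ctx.Lift.cancel {K : Ctx m c r} {i j k : Vec} (ht : K.Tri i j k) {ζ : Fin r → K.Om}
    {α : Vec → K.Om} {ψ : Fin m → Fin m → K.Om} {n : ℕ}
    (h : K.Lift i j k (fun t => (X (K.Q.yi 0) : P m) ^ n • ζ t)
      (fun s => (X (K.Q.yi 0) : P m) ^ n • α s) fun a l => (X (K.Q.yi 0) : P m) ^ n • ψ a l) :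
    K.Lift i j k ζ α ψ := by
  have h3 := ok_Desc ht
  have h2 := h3.mono (Finset.subset_insert i {j, k})
  exact cancel_Desc
    (fun w => y_reg (Φ := K.fr) (ob K.Q) h2.1 (Finset.card_le_two.trans (by norm_num)) (h2.2 0) n)
    (fun l => y_reg (Φ := K.fr) (ob K.Q) h3.1 Finset.card_le_three (h3.2 0) n) h

theorem Ctx.HasLift.csmul {K : Ctx m c r} {d : ℤ} {i j k : Vec} {ζ : Fin r → K.Om}
    {α : Vec → K.Om} {t : ℂ} (ht : t ≠ 0)
    (h : K.HasLift d i j k (fun x => t • ζ x) fun s => t • α s) : K.HasLift d i j k ζ α := by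
  obtain ⟨ψ, h1, h2⟩ := h
  refine ⟨fun a l => (C t⁻¹ : P m) • ψ a l, fun a l => C_og_Desc _ (h1 a l), ?_⟩
  have e : ∀ w : K.Om, (C t⁻¹ : P m) • t • w = w := fun w => by
    rw [← MvPolynomial.algebraMap_eq, algebraMap_smul, smul_smul, inv_mul_cancel₀ ht, one_smul]
  simpa only [e] using h2.smul (C t⁻¹)

theorem Ctx.socP {j k : Vec} (hj : j ∈ K.A) (hk : k ∈ K.A) (hjk : j ≠ k) {N : ℕ} {β : P m}
    (hβ : β ∈ hz m N) (h : ∀ x ∈ hz 4 N, rename K.Q.yi x * β ∈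
      K.p {j, k} ⊔ Ideal.span {X (K.Q.yi 0) ^ N, X (K.Q.yi 1) ^ N}) :
    ∃ t0 t1 : ℂ, β - C t0 * X (K.Q.yi 0) ^ N - C t1 * X (K.Q.yi 1) ^ N ∈ K.p {j, k} := by
  have hn : ∀ a ∈ K.A, ∀ l, a ≠ ev l := fun a ha l e =>
    K.pos.nu l (Finset.mem_union_left _ (e ▸ ha))
  have h01 : ev 0 ≠ ev 1 := fun e => absurd (ev_inj e) (by decide)
  have hab : Submodule.span ℂ ({j, k, ev 0, ev 1} : Set Vec) = ⊤ := by
    have := K.fr.gp.span_top (S := {j, k, ev 0, ev 1}) (by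
      simp only [Finset.insert_subset_iff, Finset.singleton_subset_iff]
      exact ⟨K.A_sub hj, K.A_sub hk, K.fr.unit 0, K.fr.unit 1⟩)
      (Finset.card_eq_four.2 ⟨_, _, _, _, hjk, hn j hj 0, hn j hj 1, hn k hk 0, hn k hk 1, h01,
        rfl⟩)
    simpa only [Finset.coe_insert, Finset.coe_singleton] using this
  have key : ∀ f : P m, f ∈ K.p {j, k} ⊔ Ideal.span {X (K.Q.yi 0) ^ N, X (K.Q.yi 1) ^ N} ↔
      ∀ i, K.Q.cd f i ∈
        Ideal.span ({Lv id K.e j, Lv id K.e k, X 0 ^ N, X 1 ^ N} : Set (P 4)) := fun f => by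
    refine Iff.trans ?_ (K.Q.b.mem_smul_iff _ _)
    rw [Ideal.smul_top_eq_map, Submodule.restrictScalars_mem, Ideal.Quotient.algebraMap_eq,
      Ideal.mem_quotient_iff_mem_sup, Ideal.map_span, sup_assoc, sup_comm, Fr.q,
      ← Ideal.span_union]
    simp only [Finset.coe_insert, Finset.coe_singleton, Set.image_insert_eq, Set.image_singleton,
      rename_Lv, map_pow, rename_X, Set.insert_union, Set.singleton_union]
  have h1 := (key β).2 fun i => soc K.fr.e2 hab (by have := K.num.ge i; omega)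
    (K.Q.cd_mem hβ i) fun x hx => by
      have := (key _).1 (h x hx) i
      rwa [PD.cd, PD.AFB_mk_smul, K.Q.b.co_y] at this
  obtain ⟨y, hy, z, hz, e⟩ := Submodule.mem_sup.1 h1
  obtain ⟨u0, u1, rfl⟩ := Ideal.mem_span_pair.1 hz
  obtain ⟨u, h2, h3⟩ := K.hdP (S := {j, k}) Finset.univ (h := fun t : Fin 2 =>
    X (K.Q.yi (t.castLE (by norm_num))) ^ N) (i := fun _ => N)
    (fun t _ => mem_hz_nat.2 (isHomogeneous_X_pow _ _)) hβ (u := ![u0, u1]) (by
      rw [Fin.sum_univ_two, ← e]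
      refine (congrArg (· ∈ K.p {j, k}) ?_).mpr hy
      change y + _ - (X (K.Q.yi 0) ^ N * u0 + X (K.Q.yi 1) ^ N * u1) = y
      ring)
  rw [sub_self] at h2
  obtain ⟨t0, e0⟩ := hz_zero (h2 0)
  obtain ⟨t1, e1⟩ := hz_zero (h2 1)
  rw [Fin.sum_univ_two, e0, e1] at h3
  refine ⟨t0, t1, (congrArg (· ∈ K.p {j, k}) ?_).mpr h3⟩
  change _ = β - (X (K.Q.yi 0) ^ N * C t0 + X (K.Q.yi 1) ^ N * C t1)
  ring

theorem Ctx.desc {i j k : Vec} (ht : K.Tri i j k) {ζ : Fin r → K.Om} {α : Vec → K.Om} {N : ℕ}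
    (h : ∀ x ∈ hz 4 N, K.HasLift (3 * K.e + 2) i j k (fun t => (rename K.Q.yi x : P m) • ζ t)
      fun s => (rename K.Q.yi x : P m) • α s) : K.HasLift (3 * K.e + 2 - N) i j k ζ α := by
  choose ψ hd hl using h
  obtain ⟨ω, hω⟩ : ∃ ω : Fin m → Fin m → K.Om, ∀ a l, ω a l = K.L i • K.psi0 j k a l :=
    ⟨_, fun _ _ => rfl⟩
  have z0 : ∀ x hx y hy, K.Lift i j k 0 0 fun a l =>
      (rename K.Q.yi x : P m) • ψ y hy a l - (rename K.Q.yi y : P m) • ψ x hx a l := by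
    intro x hx y hy
    have := ((hl y hy).smul (rename K.Q.yi x)).sub ((hl x hx).smul (rename K.Q.yi y))
    simp only [smul_comm (rename K.Q.yi x : P m) (rename K.Q.yi y : P m), sub_self] at this
    exact this
  have z1 : ∀ x hx y hy, ∃ β ∈ hz m N, ∀ a l, (rename K.Q.yi x : P m) • ψ y hy a l -
      (rename K.Q.yi y : P m) • ψ x hx a l - β • ω a l ∈ K.M {j, k} := by
    intro x hx y hy
    obtain ⟨β, h1, h2⟩ := K.kap1 ht (d := N + (3 * K.e + 2)) (fun a l => sub_mem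
      (K.Q.og_smul (hz_rename _ hx) (hd y hy a l)) (K.Q.og_smul (hz_rename _ hy) (hd x hx a l)))
      (z0 x hx y hy)
    rw [add_sub_cancel_right] at h1
    exact ⟨β, h1, fun a l => by rw [hω, ← mul_smul]; exact h2 a l⟩
  have hu : (X 0 ^ N : P 4) ∈ hz 4 N := mem_hz_nat.2 (isHomogeneous_X_pow _ _)
  have hv : (X 1 ^ N : P 4) ∈ hz 4 N := mem_hz_nat.2 (isHomogeneous_X_pow _ _)
  have eu : (rename K.Q.yi (X 0 ^ N : P 4) : P m) = X (K.Q.yi 0) ^ N := by rw [map_pow, rename_X]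
  have ev : (rename K.Q.yi (X 1 ^ N : P 4) : P m) = X (K.Q.yi 1) ^ N := by rw [map_pow, rename_X]
  have z2 : ∃ φ φ' : Fin m → Fin m → K.Om, (∀ a l, φ a l ∈ K.Q.og (3 * K.e + 2)) ∧
      K.Lift i j k (fun t => (X (K.Q.yi 0) : P m) ^ N • ζ t)
        (fun s => (X (K.Q.yi 0) : P m) ^ N • α s) φ ∧
      ∀ a l, (X (K.Q.yi 0) : P m) ^ N • φ' a l - (X (K.Q.yi 1) : P m) ^ N • φ a l ∈
        K.M {j, k} := by
    obtain ⟨β, b1, b2⟩ := z1 _ hu _ hv
    have lu := hl _ hu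
    have l0 := z0 _ hu _ hv
    rw [eu] at lu
    rw [eu, ev] at b2 l0
    by_cases hc : ∀ a l, β • ω a l ∈ K.M {j, k}
    · exact ⟨_, _, hd _ hu, lu, fun a l => by simpa using add_mem (b2 a l) (hc a l)⟩
    obtain ⟨a, l, hc⟩ : ∃ a l, β • ω a l ∉ K.M {j, k} := by simpa using hc
    have c1 : β ∉ K.p {j, k} := fun e => hc (K.smul_mem_M e _)
    have c2 : ω a l ∉ K.M {j, k} := fun e => hc (Submodule.smul_mem _ _ e)
    obtain ⟨t0, t1, c3⟩ := K.socP ht.hj ht.hk ht.jk b1 fun x hx => by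
      obtain ⟨β1, -, d1⟩ := z1 _ hu x hx
      obtain ⟨β2, -, d2⟩ := z1 _ hv x hx
      rw [eu] at d1
      rw [ev] at d2
      have d3 : rename K.Q.yi x * β - X (K.Q.yi 1) ^ N * β1 + X (K.Q.yi 0) ^ N * β2 ∈
          K.p {j, k} := by
        by_contra d3
        refine c2 (K.tf ht.hj ht.hk ht.jk d3 ((congrArg (· ∈ K.M {j, k}) ?_).mpr (sub_mem (sub_mem
          (Submodule.smul_mem _ (X (K.Q.yi 1) ^ N) (d1 a l))
          (Submodule.smul_mem _ (rename K.Q.yi x) (b2 a l)))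
          (Submodule.smul_mem _ (X (K.Q.yi 0) ^ N) (d2 a l)))))
        module
      refine Submodule.mem_sup.2 ⟨_, d3, _, Ideal.mem_span_pair.2 ⟨-β2, β1, rfl⟩, ?_⟩
      ring
    have c4 : K.Lift i j k (fun _ => 0) (fun _ => 0) ω := by
      refine cancel_Desc (fun w => K.tf ht.hj ht.hk ht.jk c1) (fun l _ => ?_) ?_
      · simp only [hω]
        rw [dv_smul_left, smul_zero, sub_zero]
        exact K.fr.smul_mem_M (K.fr.mem_q (Finset.mem_insert_self _ _)) _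
      · simp only [smul_zero]
        refine l0.congr fun a l => ?_
        rw [← neg_sub]
        exact neg_mem (b2 a l)
    refine ⟨fun a l => ψ _ hu a l - (C (-t1) : P m) • ω a l,
      fun a l => ψ _ hv a l - (C t0 : P m) • ω a l,
      fun a l => sub_mem (hd _ hu a l) (C_og_Desc _ ?_), ?_, fun a l => ?_⟩
    · rw [hω, show (3 * K.e + 2 : ℤ) = K.e + (2 * K.e + 2) by ring]
      exact K.Q.og_smul (K.fr.L_hz i) (K.psi0_deg j k a l)
    · simpa only [smul_zero, sub_zero] using lu.sub (c4.smul (C (-t1)))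
    · refine (congrArg (· ∈ K.M {j, k}) ?_).mpr (add_mem (b2 a l) (K.smul_mem_M c3 (ω a l)))
      rw [C_neg]
      module
  obtain ⟨φ, φ', h1, h2, h3⟩ := z2
  have z3 : ∀ a l, ∃ w ∈ K.Q.og (3 * K.e + 2 - N),
      φ a l - (X (K.Q.yi 0) : P m) ^ N • w ∈ K.M {j, k} := fun a l => by
    obtain ⟨w, -, hw⟩ := y_reg2 (Φ := K.fr) (ob K.Q)
      ((ok_Desc ht).mono (Finset.subset_insert i {j, k})) Finset.card_le_two N N (h3 a l)
    rw [← ob_gr]
    exact hd1 (Φ := K.fr) (ob K.Q) (mem_hz_nat.2 (isHomogeneous_X_pow _ _))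
      ((ob_gr K.Q _).ge (h1 a l)) hw
  choose w w1 w2 using z3
  refine ⟨w, w1, Ctx.Lift.cancel ht (n := N) (h2.congr fun a l => ?_)⟩
  rw [← neg_sub]
  exact neg_mem (w2 a l)

end

end Pool.Agent.MP_1c689d_ag.K0.Al

end

section

/-! Lifts of the multiples of the regular top forms. -/

set_option autoImplicit false

open MvPolynomial

namespace Pool.Agent.MP_1c689d_ag.K0.Al

noncomputable section

variable {m c r : ℕ} (K : Ctx m c r)

/-- The pairs `(f, w)` such that `w l` is `f • κ l` on the curve. -/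
def Ctx.rel_Fin2 (S : Finset Vec) (D : (Fin c → Fin r) × (Fin 4 → Fin m) → P m) :
    Submodule (P m) (P m × ((Fin 4 → Fin m) → K.Om)) where
  carrier := {y | ∀ x, D x • Ideal.Quotient.mk K.Q.I y.1 - K.T.ι x.1 (y.2 x.2) ∈
    K.fr.M (P m ⧸ K.Q.I) S}
  add_mem' := fun {y y'} hy hy' x => by
    have h := add_mem (hy x) (hy' x)
    rw [Prod.fst_add, Prod.snd_add, Pi.add_apply, map_add, map_add, smul_add]
    rwa [sub_add_sub_comm] at h
  zero_mem' := fun x => by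
    rw [Prod.fst_zero, Prod.snd_zero, Pi.zero_apply, map_zero, map_zero, smul_zero, sub_zero]
    exact zero_mem _
  smul_mem' := fun u y hy x => by
    have h := Submodule.smul_mem _ u (hy x)
    rw [Prod.smul_fst, Prod.smul_snd, Pi.smul_apply, LinearMap.map_smul, smul_eq_mul,
      K.Q.AFB_mk_smul, smul_comm, ← smul_sub]
    exact h

theorem Ctx.kill_Fin2 {S T : Finset Vec} (hST : S ⊆ T) (hT : T ⊆ K.A ∪ K.B) (hc : T.card ≤ 3)
    {D : (Fin c → Fin r) × (Fin 4 → Fin m) → P m} (hD : K.NoZ T D)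
    {y : P m × ((Fin 4 → Fin m) → K.Om)} (hy : y ∈ K.rel_Fin2 S D) (h : ∀ l, y.2 l ∈ K.M T) :
    y.1 ∈ K.p T := by
  refine K.killP hT hc hD fun x => K.mk_mem.1 ?_
  have h1 := add_mem (K.fr.M_mono hST (hy x)) (K.fr.map_M (K.T.ι x.1) (h x.2))
  rwa [sub_add_cancel] at h1

theorem Ctx.bot_Fin2 {f : P m} :
    Ideal.Quotient.mk K.Q.I f ∈ K.fr.M (P m ⧸ K.Q.I) ∅ ↔ f ∈ K.Q.I := by
  rw [K.fr.M_empty, Submodule.mem_bot, Ideal.Quotient.eq_zero_iff_mem]

/-- A bivector of degree two that is closed and kills the equations vanishes. -/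
theorem Ctx.van_Fin2 {φ : Fin m → Fin m → P m} (hφ : ∀ a l, φ a l ∈ hz m 2)
    (h1 : ∀ a k l, cl3 φ a k l ∈ K.Q.I) (h2 : ∀ t l, dv (fun a => φ a l) (K.Q.F t) ∈ K.Q.I)
    (a l : Fin m) : φ a l ∈ K.Q.I := by
  have hok : K.fr.Ok ∅ := K.ok (Finset.empty_subset _)
  obtain ⟨ζ, hζ, h3⟩ := kos2_gr (Φ := K.fr) K.Q.b hok (by simp) (j := 1)
    (ψ := fun a l => Ideal.Quotient.mk K.Q.I (φ a l)) (fun a l => K.mk_gr (hφ a l))
    fun a k l => K.bot_Fin2.2 (h1 a k l)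
  choose g hg hgζ using fun l => (K.Q.mem_gr_iff 1 (ζ l)).1 (hζ l)
  have h4 : ∀ a l, φ a l - wg g a l ∈ K.Q.I := fun a l => by
    have h5 := h3 a l
    rw [wg, ← hgζ, ← hgζ] at h5
    exact K.bot_Fin2.1 h5
  have h5 : ∀ t, dv g (K.Q.F t) ∈ K.Q.I := fun t => by
    refine K.bot_Fin2.1 (kos0_gp (Φ := K.fr) K.Q.b hok (by simp) fun l => ?_)
    rw [← K.Q.AFB_mk_smul]
    refine K.bot_Fin2.2 ?_
    have h6 := sub_mem (h2 t l) (dv_mem K.Q.I (fun a => h4 a l) (K.Q.F t))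
    rw [dv_sub_left, sub_sub_cancel, dv_wg (K.Q.Fh t)] at h6
    have h7 : ((K.Q.dF t : P m) * K.Q.F t) • g l ∈ K.Q.I :=
      K.Q.I.mul_mem_right _ (K.Q.I.mul_mem_left _ (Ideal.subset_span ⟨t, rfl⟩))
    have h8 := add_mem h6 h7
    rwa [sub_add_cancel] at h8
  obtain ⟨t, ht⟩ := K.h0 g (fun l => mem_hz_nat.1 (hg l)) h5
  have h6 := add_mem (h4 a l) (sub_mem (K.Q.I.mul_mem_left (X l) (ht a))
    (K.Q.I.mul_mem_left (X a) (ht l)))
  have h7 : φ a l - wg g a l + (X l * (g a - C t * X a) - X a * (g l - C t * X l)) = φ a l := by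
    simp only [wg, smul_eq_mul]
    ring
  rwa [h7] at h6

theorem Ctx.fin2 {i j k : Vec} (ht : K.Tri i j k) {b : Vec → P m} (hb : b i ∈ hz m K.e)
    (h : ∀ l : Fin 4 → Fin m, K.HasLift 6 i j k 0 fun s => b s • K.T.κ l) :
    ∃ w ∈ Submodule.span ℂ ({i, j, k} : Set Vec), b i - K.L w ∈ K.Q.I := by
  choose ψ hψd hψ using h
  choose sh hsh hι using K.eι
  choose D hDd hD using fun x : (Fin c → Fin r) × (Fin 4 → Fin m) =>
    (K.Q.mem_gr_iff _ _).1 (hι x.1 _ _ (K.T.κ_deg x.2))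
  choose W hWd hW using fun (x : (Fin c → Fin r) × (Fin 4 → Fin m)) (a a1 : Fin m) =>
    (K.Q.mem_gr_iff _ _).1 (hι x.1 _ _ (hψd x.2 a a1))
  have h2 : ({j, k} : Finset Vec) ⊆ K.A ∪ K.B := fun x hx => Finset.mem_union_left _ (by
    rcases Finset.mem_insert.1 hx with rfl | hx
    · exact ht.hj
    · rw [Finset.mem_singleton.1 hx]; exact ht.hk)
  have h3 : ({i, j, k} : Finset Vec) ⊆ K.A ∪ K.B :=
    Finset.insert_subset (Finset.mem_union_left _ ht.hi) h2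
  have hz0 : ∀ S : Finset Vec, j ∈ S → K.NoZ S D := fun S hS =>
    (K.noz0 ht.hj hS).congr fun x => Ideal.Quotient.eq.1 ((hD x).trans (K.T.ι_κ _ _))
  have h4 : ∀ J l l1 a a1, D (J, l1) • ψ l a a1 - D (J, l) • ψ l1 a a1 ∈ K.M {j, k} := by
    intro J l l1 a a1
    have h5 := ((hψ l).smul (D (J, l1))).sub ((hψ l1).smul (D (J, l)))
    have e1 : (fun t => D (J, l1) • (0 : Fin r → K.Om) t - D (J, l) • (0 : Fin r → K.Om) t) =
        0 := funext fun t => by simp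
    have e2 : (fun s => D (J, l1) • b s • K.T.κ l - D (J, l) • b s • K.T.κ l1) = 0 :=
      funext fun s => by
        rw [smul_comm, smul_comm (D (J, l)), K.T.ι_sym J _ _ _ _ (hD (J, l)) (hD (J, l1)),
          sub_self, Pi.zero_apply]
    rw [e1, e2] at h5
    obtain ⟨β, hβ, h6⟩ := K.kap1 ht (d := (3 + 1 : ℕ) + sh J + 6) (fun a a1 => sub_mem
      (K.Q.og_smul (hDd (J, l1)) (hψd l a a1)) (K.Q.og_smul (hDd (J, l)) (hψd l1 a a1))) h5
    rw [hz_neg (by have := hsh J; push_cast; omega), Submodule.mem_bot] at hβ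
    have h7 := h6 a a1
    rwa [hβ, zero_mul, zero_smul, sub_zero] at h7
  have h5 : ∀ a a1 x y, D x * W y a a1 - D y * W x a a1 ∈ K.p {j, k} := by
    rintro a a1 ⟨J, l⟩ ⟨J1, l1⟩
    refine K.iota_M J1 (neg_mem (h4 J l l1 a a1)) ?_
    rw [neg_sub, K.T.ι_sym J _ _ _ _ (hD (J, l1)) (hW (J, l) a a1), map_sub, map_sub, map_smul,
      map_smul, mul_comm (D (J1, l1)), K.Q.AFB_mk_smul, K.Q.AFB_mk_smul, hW, hD]
  choose φ hφ hφD using fun a a1 => K.glue h2 Finset.card_le_two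
    (hz0 _ (Finset.mem_insert_self _ _)) (h5 a a1) (d := fun x => (3 + 1 : ℕ) + sh x.1) (k := 2)
    hDd fun x => by
      have := hWd x a a1
      rwa [show 6 + sh x.1 = (3 + 1 : ℕ) + sh x.1 + 2 by push_cast; ring] at this
  let Ψ : Fin m → Fin m → P m × ((Fin 4 → Fin m) → K.Om) := fun a a1 => (φ a a1, fun l => ψ l a a1)
  have h6 : ∀ a a1, Ψ a a1 ∈ K.rel_Fin2 {j, k} D := fun a a1 x => by
    have h7 := K.mk_mem.2 (hφD a a1 x)
    rwa [map_sub, hW, K.Q.AFB_mk_smul] at h7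
  have h7 : ((1, K.T.κ) : P m × ((Fin 4 → Fin m) → K.Om)) ∈ K.rel_Fin2 {j, k} D := fun x => by
    rw [← K.Q.AFB_mk_smul, mul_one, hD, sub_self]
    exact zero_mem _
  have h8 : ∀ l f, (dv (fun a => Ψ a l) f).1 = dv (fun a => φ a l) f := fun l f => by
    unfold dv
    rw [Prod.fst_sum]
    rfl
  have h9 : ∀ l f l', (dv (fun a => Ψ a l) f).2 l' = dv (fun a => ψ l' a l) f := fun l f l' => by
    unfold dv
    rw [Prod.snd_sum, Finset.sum_apply]
    rfl
  have he := K.e4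
  have h10 : ∀ a l, φ a l ∈ K.Q.I := by
    refine K.van_Fin2 hφ (fun a a1 l => ?_) fun t l => ?_
    · refine K.lowP (S := {j, k}) (j := 1 + 2) (by omega) (add_mem (sub_mem
        (hz_mul (hz_X a) (hφ _ _)) (hz_mul (hz_X a1) (hφ _ _))) (hz_mul (hz_X l) (hφ _ _))) ?_
      exact K.kill_Fin2 (y := cl3 Ψ a a1 l) le_rfl h2 (Finset.card_le_two.trans (by norm_num))
        (hz0 _ (Finset.mem_insert_self _ _)) (add_mem (sub_mem (Submodule.smul_mem _ _ (h6 _ _))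
          (Submodule.smul_mem _ _ (h6 _ _))) (Submodule.smul_mem _ _ (h6 _ _)))
        fun l' => (hψ l').clo a a1 l
    · refine K.lowP (S := {j, k}) (by have := K.eF t; omega)
        (dv_mem_hz (fun a => hφ a l) (mem_hz_nat.2 (K.Q.Fh t))) ?_
      rw [← h8]
      refine K.kill_Fin2 le_rfl h2 (Finset.card_le_two.trans (by norm_num))
        (hz0 _ (Finset.mem_insert_self _ _)) (dv_mem _ (fun a => h6 a l) _) fun l' => ?_
      have h11 := (hψ l').F t l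
      rwa [Pi.zero_apply, smul_zero, sub_zero, ← h9] at h11
  have h11 : b i ∈ K.p {i, j, k} := by
    refine K.mk_mem.1 (kos0_gp (Φ := K.fr) K.Q.b (K.ok h3) Finset.card_le_three fun l => ?_)
    rw [← K.Q.AFB_mk_smul]
    refine K.mk_mem.2 ?_
    have h12 := K.kill_Fin2 (Finset.subset_insert i _) h3 Finset.card_le_three
      (hz0 _ (Finset.mem_insert_of_mem (Finset.mem_insert_self _ _)))
      (sub_mem (dv_mem _ (fun a => h6 a l) (K.L i)) (Submodule.smul_mem _ (X l * b i) h7))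
      fun l' => by
        rw [Prod.snd_sub, Pi.sub_apply, h9, Prod.smul_snd, Pi.smul_apply, mul_smul]
        exact (hψ l').li l
    rw [Prod.fst_sub, h8, Prod.smul_fst, smul_eq_mul, mul_one] at h12
    have h13 := sub_mem (Ideal.mem_sup_left (T := K.fr.q {i, j, k})
      (dv_mem K.Q.I (fun a => h10 a l) (K.L i))) h12
    rwa [sub_sub_cancel] at h13
  obtain ⟨w, hw, h12⟩ := K.lowP_e hb h11
  rw [Finset.coe_insert, Finset.coe_insert, Finset.coe_singleton] at hw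
  exact ⟨w, hw, h12⟩

end

end Pool.Agent.MP_1c689d_ag.K0.Al

end
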