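import Pool.Agent.Mg.F1c689d.G3edd1a
import Pool.Agent.Mg.F1c689d.G9a22e1
import Pool.Agent.Mg.F1c689d.G7c9c5a

set_option linter.all false


section

set_option autoImplicit false
set_option linter.unusedSimpArgs false

namespace Pool.Agent.MP_1c689d_ag.SX

open Pool.Agent.MP_1c689d_ag.FP

noncomputable section

open Polynomial

/-! Behaviour of the invariants under relabelling. -/

section Ring
variable {R : Type} [CommRing R] {m : Fin 6 → V R}

theorem Perm_sort (Q : Fin 6 → Fin 6 → Fin 6 → Prop) (h1 : ∀ i j k, Q i j k → Q j i k)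
    (h2 : ∀ i j k, Q i j k → Q i k j)
    (h : ∀ i j k, i < j → j < k → Q i j k → br (m i) (m j) (m k) ≠ 0) {i j k : Fin 6}
    (hij : i ≠ j) (hik : i ≠ k) (hjk : j ≠ k) (hQ : Q i j k) : br (m i) (m j) (m k) ≠ 0 := by
  have key : ∀ i j k, i < j → i ≠ k → j ≠ k → Q i j k → br (m i) (m j) (m k) ≠ 0 := by
    intro i j k hij hik hjk hQ
    rcases hjk.lt_or_gt with e | e
    · exact h i j k hij e hQ
    · rw [br_swap', neg_ne_zero]
      rcases hik.lt_or_gt with e' | e'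
      · exact h i k j e' e (h2 _ _ _ hQ)
      · rw [br_swap, neg_ne_zero]
        exact h k i j e' hij (h1 _ _ _ (h2 _ _ _ hQ))
  rcases hij.lt_or_gt with e | e
  · exact key i j k e hik hjk hQ
  · rw [br_swap, neg_ne_zero]
    exact key j i k e hjk hik (h1 _ _ _ hQ)

/-- sort the three indices, using `br_swap`, `br_swap'` -/
theorem H18.ne (h : H18 m) {i j k : Fin 6} (hij : i ≠ j) (hik : i ≠ k) (hjk : j ≠ k)
    (hs : ¬ (side i = side j ∧ side j = side k)) : br (m i) (m j) (m k) ≠ 0 := by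
  refine Perm_sort (fun i j k => ¬ (side i = side j ∧ side j = side k)) ?_ ?_ ?_ hij hik hjk hs
  · intro i j k h1 h2
    exact h1 ⟨h2.1.symm, h2.1.trans h2.2⟩
  · intro i j k h1 h2
    exact h1 ⟨h2.1.trans h2.2, h2.2.symm⟩
  · intro i j k h1 h2 h3
    refine h i j k h1 h2 (fun e => h3 ?_) fun e => h3 ?_
    · obtain ⟨rfl, rfl, rfl⟩ : i = 1 ∧ j = 2 ∧ k = 3 := by simpa using e
      exact ⟨rfl, rfl⟩
    · obtain ⟨rfl, rfl, rfl⟩ : i = 0 ∧ j = 4 ∧ k = 5 := by simpa using e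
      exact ⟨rfl, rfl⟩

theorem Good.ne (h : Good m True) {i j k : Fin 6} (hij : i ≠ j) (hik : i ≠ k) (hjk : j ≠ k) :
    br (m i) (m j) (m k) ≠ 0 := by
  refine Perm_sort (fun _ _ _ => True) (fun _ _ _ h => h) (fun _ _ _ h => h) ?_ hij hik hjk trivial
  intro i j k h1 h2 _
  by_cases e : (i, j, k) = (1, 2, 3)
  · obtain ⟨rfl, rfl, rfl⟩ : i = 1 ∧ j = 2 ∧ k = 3 := by simpa using e
    exact (h.2 trivial).1
  by_cases e' : (i, j, k) = (0, 4, 5)
  · obtain ⟨rfl, rfl, rfl⟩ : i = 0 ∧ j = 4 ∧ k = 5 := by simpa using e'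
    exact (h.2 trivial).2
  exact h.1 i j k h1 h2 e e'

theorem Good.perm {full : Prop} (h : Good m full) {σ : Fin 6 → Fin 6}
    (hi : Function.Injective σ) (ha : Allowed full σ) : Good (m ∘ σ) full := by
  have key : ∀ i j k : Fin 6, i < j → j < k → (i, j, k) ≠ (1, 2, 3) → (i, j, k) ≠ (0, 4, 5) →
      ¬ (side i = side j ∧ side j = side k) := by decide
  refine ⟨fun i j k h1 h2 h3 h4 => ?_, fun hf => ?_⟩
  · rcases ha with hf | ha
    · exact Good.ne ⟨h.1, fun _ => h.2 hf⟩ (hi.ne h1.ne) (hi.ne (h1.trans h2).ne) (hi.ne h2.ne)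
    · refine h.1.ne (hi.ne h1.ne) (hi.ne (h1.trans h2).ne) (hi.ne h2.ne) fun e => ?_
      exact key i j k h1 h2 h3 h4 ⟨(ha i j).2 e.1, (ha j k).2 e.2⟩
  · have hg : Good m True := ⟨h.1, fun _ => h.2 hf⟩
    exact ⟨hg.ne (hi.ne (by decide)) (hi.ne (by decide)) (hi.ne (by decide)),
      hg.ne (hi.ne (by decide)) (hi.ne (by decide)) (hi.ne (by decide))⟩

theorem prodL_eq (m : Fin 6 → V R) (p : V R) : prodL m p = ∏ i, ev (m i) p := by
  rw [Fin.prod_univ_six]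
  rfl

theorem prodL_perm (m : Fin 6 → V R) (p : V R) {σ : Fin 6 → Fin 6} (hi : Function.Injective σ) :
    prodL (m ∘ σ) p = prodL m p := by
  rw [prodL_eq, prodL_eq]
  exact (Finite.injective_iff_bijective.1 hi).prod_comp fun i => ev (m i) p

theorem kap_g56 (m : Fin 6 → V R) : kap (m ∘ g56) = -kap m := by
  simp only [kap, Function.comp_apply, g56_0, g56_1, g56_2, g56_3, g56_4, g56_5, br]
  ring

theorem kap_g3 (m : Fin 6 → V R) : kap (m ∘ g3) = kap m := by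
  simp only [kap, Function.comp_apply, g3_0, g3_1, g3_2, g3_3, g3_4, g3_5, br]
  ring

theorem kap_g4 (m : Fin 6 → V R) : kap (m ∘ g4) = kap m := by
  simp only [kap, Function.comp_apply, g4_0, g4_1, g4_2, g4_3, g4_4, g4_5, br]
  ring

end Ring

variable {k : Type} [Field k] [CharZero k] (m : Fin 6 → V k)

omit [CharZero k] in
theorem Perm_x0 : xs m 0 = w46 m + n6 m := rfl
omit [CharZero k] in
theorem Perm_x1 : xs m 1 = w35 m + n6 m := rfl
omit [CharZero k] in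
theorem Perm_x2 : xs m 2 = n6 m := rfl
omit [CharZero k] in
theorem Perm_x3 : xs m 3 = w45 m + n6 m + kap m := rfl
omit [CharZero k] in
theorem Perm_x4 : xs m 4 = w36 m + n6 m + kap m := rfl
omit [CharZero k] in
theorem Perm_x5 : xs m 5 = wmu m + n6 m + kap m := rfl

theorem xs_sum : xs m 0 + xs m 1 + xs m 2 + xs m 3 + xs m 4 + xs m 5 = 0 := by
  simp only [Perm_x0, Perm_x1, Perm_x2, Perm_x3, Perm_x4, Perm_x5, n6]
  linear_combination w_sum m

theorem kap_xs : kap m = -(xs m 0 + xs m 1 + xs m 2) := by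
  simp only [Perm_x0, Perm_x1, Perm_x2, Perm_x3, Perm_x4, Perm_x5, n6]
  ring

/-! `funext i; fin_cases i`, unfold, `field_simp`, `ring` (quadratic relations of brackets) -/

theorem Perm_g56_0 : xs (m ∘ g56) 0 = xs m 3 := by
  simp only [Perm_x0, Perm_x1, Perm_x2, Perm_x3, Perm_x4, Perm_x5, n6, kap, w46, w35,
    w45, w36, wmu, Function.comp_apply, g56_0, g56_1, g56_2, g56_3, g56_4, g56_5, br]
  ring

theorem Perm_g56_1 : xs (m ∘ g56) 1 = xs m 4 := by
  simp only [Perm_x0, Perm_x1, Perm_x2, Perm_x3, Perm_x4, Perm_x5, n6, kap, w46, w35,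
    w45, w36, wmu, Function.comp_apply, g56_0, g56_1, g56_2, g56_3, g56_4, g56_5, br]
  ring

theorem Perm_g56_2 : xs (m ∘ g56) 2 = xs m 5 := by
  simp only [Perm_x0, Perm_x1, Perm_x2, Perm_x3, Perm_x4, Perm_x5, n6, kap, w46, w35,
    w45, w36, wmu, Function.comp_apply, g56_0, g56_1, g56_2, g56_3, g56_4, g56_5, br]
  ring

theorem Perm_g56_3 : xs (m ∘ g56) 3 = xs m 0 := by
  simp only [Perm_x0, Perm_x1, Perm_x2, Perm_x3, Perm_x4, Perm_x5, n6, kap, w46, w35,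
    w45, w36, wmu, Function.comp_apply, g56_0, g56_1, g56_2, g56_3, g56_4, g56_5, br]
  ring

theorem Perm_g56_4 : xs (m ∘ g56) 4 = xs m 1 := by
  simp only [Perm_x0, Perm_x1, Perm_x2, Perm_x3, Perm_x4, Perm_x5, n6, kap, w46, w35,
    w45, w36, wmu, Function.comp_apply, g56_0, g56_1, g56_2, g56_3, g56_4, g56_5, br]
  ring

theorem Perm_g56_5 : xs (m ∘ g56) 5 = xs m 2 := by
  simp only [Perm_x0, Perm_x1, Perm_x2, Perm_x3, Perm_x4, Perm_x5, n6, kap, w46, w35,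
    w45, w36, wmu, Function.comp_apply, g56_0, g56_1, g56_2, g56_3, g56_4, g56_5, br]
  ring

theorem Perm_g3_0 : xs (m ∘ g3) 0 = xs m 0 := by
  simp only [Perm_x0, Perm_x1, Perm_x2, Perm_x3, Perm_x4, Perm_x5, n6, kap, w46, w35,
    w45, w36, wmu, Function.comp_apply, g3_0, g3_1, g3_2, g3_3, g3_4, g3_5, br]
  ring

theorem Perm_g3_1 : xs (m ∘ g3) 1 = xs m 1 := by
  simp only [Perm_x0, Perm_x1, Perm_x2, Perm_x3, Perm_x4, Perm_x5, n6, kap, w46, w35,
    w45, w36, wmu, Function.comp_apply, g3_0, g3_1, g3_2, g3_3, g3_4, g3_5, br]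
  ring

theorem Perm_g3_2 : xs (m ∘ g3) 2 = xs m 2 := by
  simp only [Perm_x0, Perm_x1, Perm_x2, Perm_x3, Perm_x4, Perm_x5, n6, kap, w46, w35,
    w45, w36, wmu, Function.comp_apply, g3_0, g3_1, g3_2, g3_3, g3_4, g3_5, br]
  ring

theorem Perm_g3_3 : xs (m ∘ g3) 3 = xs m 4 := by
  simp only [Perm_x0, Perm_x1, Perm_x2, Perm_x3, Perm_x4, Perm_x5, n6, kap, w46, w35,
    w45, w36, wmu, Function.comp_apply, g3_0, g3_1, g3_2, g3_3, g3_4, g3_5, br]
  ring

theorem Perm_g3_4 : xs (m ∘ g3) 4 = xs m 3 := by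
  simp only [Perm_x0, Perm_x1, Perm_x2, Perm_x3, Perm_x4, Perm_x5, n6, kap, w46, w35,
    w45, w36, wmu, Function.comp_apply, g3_0, g3_1, g3_2, g3_3, g3_4, g3_5, br]
  ring

theorem Perm_g3_5 : xs (m ∘ g3) 5 = xs m 5 := by
  simp only [Perm_x0, Perm_x1, Perm_x2, Perm_x3, Perm_x4, Perm_x5, n6, kap, w46, w35,
    w45, w36, wmu, Function.comp_apply, g3_0, g3_1, g3_2, g3_3, g3_4, g3_5, br]
  ring

theorem Perm_g4_0 : xs (m ∘ g4) 0 = xs m 2 := by
  simp only [Perm_x0, Perm_x1, Perm_x2, Perm_x3, Perm_x4, Perm_x5, n6, kap, w46, w35,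
    w45, w36, wmu, Function.comp_apply, g4_0, g4_1, g4_2, g4_3, g4_4, g4_5, br]
  ring

theorem Perm_g4_1 : xs (m ∘ g4) 1 = xs m 1 := by
  simp only [Perm_x0, Perm_x1, Perm_x2, Perm_x3, Perm_x4, Perm_x5, n6, kap, w46, w35,
    w45, w36, wmu, Function.comp_apply, g4_0, g4_1, g4_2, g4_3, g4_4, g4_5, br]
  ring

theorem Perm_g4_2 : xs (m ∘ g4) 2 = xs m 0 := by
  simp only [Perm_x0, Perm_x1, Perm_x2, Perm_x3, Perm_x4, Perm_x5, n6, kap, w46, w35,
    w45, w36, wmu, Function.comp_apply, g4_0, g4_1, g4_2, g4_3, g4_4, g4_5, br]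
  ring

theorem Perm_g4_3 : xs (m ∘ g4) 3 = xs m 5 := by
  simp only [Perm_x0, Perm_x1, Perm_x2, Perm_x3, Perm_x4, Perm_x5, n6, kap, w46, w35,
    w45, w36, wmu, Function.comp_apply, g4_0, g4_1, g4_2, g4_3, g4_4, g4_5, br]
  ring

theorem Perm_g4_4 : xs (m ∘ g4) 4 = xs m 4 := by
  simp only [Perm_x0, Perm_x1, Perm_x2, Perm_x3, Perm_x4, Perm_x5, n6, kap, w46, w35,
    w45, w36, wmu, Function.comp_apply, g4_0, g4_1, g4_2, g4_3, g4_4, g4_5, br]
  ring

theorem Perm_g4_5 : xs (m ∘ g4) 5 = xs m 3 := by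
  simp only [Perm_x0, Perm_x1, Perm_x2, Perm_x3, Perm_x4, Perm_x5, n6, kap, w46, w35,
    w45, w36, wmu, Function.comp_apply, g4_0, g4_1, g4_2, g4_3, g4_4, g4_5, br]
  ring

theorem Perm_g5_0 : xs (m ∘ g5) 0 = xs m 0 := by
  simp only [Perm_x0, Perm_x1, Perm_x2, Perm_x3, Perm_x4, Perm_x5, n6, kap, w46, w35,
    w45, w36, wmu, Function.comp_apply, g5_0, g5_1, g5_2, g5_3, g5_4, g5_5, br]
  ring

theorem Perm_g5_1 : xs (m ∘ g5) 1 = xs m 4 := by
  simp only [Perm_x0, Perm_x1, Perm_x2, Perm_x3, Perm_x4, Perm_x5, n6, kap, w46, w35,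
    w45, w36, wmu, Function.comp_apply, g5_0, g5_1, g5_2, g5_3, g5_4, g5_5, br]
  ring

theorem Perm_g5_2 : xs (m ∘ g5) 2 = xs m 2 := by
  simp only [Perm_x0, Perm_x1, Perm_x2, Perm_x3, Perm_x4, Perm_x5, n6, kap, w46, w35,
    w45, w36, wmu, Function.comp_apply, g5_0, g5_1, g5_2, g5_3, g5_4, g5_5, br]
  ring

theorem Perm_g5_3 : xs (m ∘ g5) 3 = xs m 5 := by
  simp only [Perm_x0, Perm_x1, Perm_x2, Perm_x3, Perm_x4, Perm_x5, n6, kap, w46, w35,
    w45, w36, wmu, Function.comp_apply, g5_0, g5_1, g5_2, g5_3, g5_4, g5_5, br]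
  ring

theorem Perm_g5_4 : xs (m ∘ g5) 4 = xs m 1 := by
  simp only [Perm_x0, Perm_x1, Perm_x2, Perm_x3, Perm_x4, Perm_x5, n6, kap, w46, w35,
    w45, w36, wmu, Function.comp_apply, g5_0, g5_1, g5_2, g5_3, g5_4, g5_5, br]
  ring

theorem Perm_g5_5 : xs (m ∘ g5) 5 = xs m 3 := by
  simp only [Perm_x0, Perm_x1, Perm_x2, Perm_x3, Perm_x4, Perm_x5, n6, kap, w46, w35,
    w45, w36, wmu, Function.comp_apply, g5_0, g5_1, g5_2, g5_3, g5_4, g5_5, br]
  ring

theorem xs_g56 : xs (m ∘ g56) = xs m ∘ ![3, 4, 5, 0, 1, 2] := by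
  funext i
  fin_cases i
  exacts [Perm_g56_0 m, Perm_g56_1 m, Perm_g56_2 m,
    Perm_g56_3 m, Perm_g56_4 m, Perm_g56_5 m]

theorem xs_g3 : xs (m ∘ g3) = xs m ∘ ![0, 1, 2, 4, 3, 5] := by
  funext i
  fin_cases i
  exacts [Perm_g3_0 m, Perm_g3_1 m, Perm_g3_2 m,
    Perm_g3_3 m, Perm_g3_4 m, Perm_g3_5 m]

theorem xs_g4 : xs (m ∘ g4) = xs m ∘ ![2, 1, 0, 5, 4, 3] := by
  funext i
  fin_cases i
  exacts [Perm_g4_0 m, Perm_g4_1 m, Perm_g4_2 m,
    Perm_g4_3 m, Perm_g4_4 m, Perm_g4_5 m]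

theorem xs_g5 : xs (m ∘ g5) = xs m ∘ ![0, 4, 2, 5, 1, 3] := by
  funext i
  fin_cases i
  exacts [Perm_g5_0 m, Perm_g5_1 m, Perm_g5_2 m,
    Perm_g5_3 m, Perm_g5_4 m, Perm_g5_5 m]

theorem pP_g56 (t : k) : pP (m ∘ g56) t = qP m t := by
  rw [pP, qP, Perm_g56_0, Perm_g56_1, Perm_g56_2]

theorem pP_g3 (t : k) : pP (m ∘ g3) t = pP m t := by
  rw [pP, pP, Perm_g3_0, Perm_g3_1, Perm_g3_2]

theorem pP_g4 (t : k) : pP (m ∘ g4) t = pP m t := by
  rw [pP, pP, Perm_g4_0, Perm_g4_1, Perm_g4_2]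
  ring

theorem Perm_ee {R : Type} [CommRing R] {x y : Fin 6 → R} (h2 : e2 x = e2 y) (h3 : e3 x = e3 y)
    (h4 : e4 x = e4 y) (h5 : e5 x = e5 y) (h6 : e6 x = e6 y) : ee x = ee y := by
  rw [ee, ee, h2, h3, h4, h5, h6]

/-- by `gen_full` applied to `fun σ => ∀ m, ee (xs (m ∘ σ)) = ee (xs m)` -/
theorem ee_perm (σ : Equiv.Perm (Fin 6)) : ee (xs (m ∘ σ)) = ee (xs m) := by
  refine gen_full (fun σ => ∀ m : Fin 6 → V k, ee (xs (m ∘ σ)) = ee (xs m)) (fun _ => rfl)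
    (fun σ τ h1 h2 m => (h2 (m ∘ σ)).trans (h1 m)) ?_ ?_ ?_ ?_ σ m
  · intro m
    refine Perm_ee ?_ ?_ ?_ ?_ ?_ <;>
      simp only [e2, e3, e4, e5, e6,
        Perm_g56_0, Perm_g56_1, Perm_g56_2, Perm_g56_3, Perm_g56_4, Perm_g56_5] <;> ring
  · intro m
    refine Perm_ee ?_ ?_ ?_ ?_ ?_ <;>
      simp only [e2, e3, e4, e5, e6,
        Perm_g3_0, Perm_g3_1, Perm_g3_2, Perm_g3_3, Perm_g3_4, Perm_g3_5] <;> ring
  · intro m
    refine Perm_ee ?_ ?_ ?_ ?_ ?_ <;>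
      simp only [e2, e3, e4, e5, e6,
        Perm_g4_0, Perm_g4_1, Perm_g4_2, Perm_g4_3, Perm_g4_4, Perm_g4_5] <;> ring
  · intro m
    refine Perm_ee ?_ ?_ ?_ ?_ ?_ <;>
      simp only [e2, e3, e4, e5, e6,
        Perm_g5_0, Perm_g5_1, Perm_g5_2, Perm_g5_3, Perm_g5_4, Perm_g5_5] <;> ring

theorem split_012 : br (m 0) (m 1) (m 2) * br (m 3) (m 4) (m 5) = xs m 1 + xs m 2 + xs m 3 := by
  simp only [Perm_x0, Perm_x1, Perm_x2, Perm_x3, Perm_x4, Perm_x5, n6, kap, w46, w35,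
    w45, w36, wmu, br]
  ring

theorem split_013 : br (m 0) (m 1) (m 3) * br (m 2) (m 4) (m 5) = xs m 1 + xs m 3 + xs m 5 := by
  simp only [Perm_x0, Perm_x1, Perm_x2, Perm_x3, Perm_x4, Perm_x5, n6, kap, w46, w35,
    w45, w36, wmu, br]
  ring

theorem split_014 : br (m 0) (m 1) (m 4) * br (m 2) (m 3) (m 5) = xs m 0 + xs m 3 + xs m 5 := by
  simp only [Perm_x0, Perm_x1, Perm_x2, Perm_x3, Perm_x4, Perm_x5, n6, kap, w46, w35,
    w45, w36, wmu, br]
  ring

theorem split_015 : br (m 0) (m 1) (m 5) * br (m 2) (m 3) (m 4) = xs m 0 + xs m 2 + xs m 3 := by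
  simp only [Perm_x0, Perm_x1, Perm_x2, Perm_x3, Perm_x4, Perm_x5, n6, kap, w46, w35,
    w45, w36, wmu, br]
  ring

theorem split_023 : br (m 0) (m 2) (m 3) * br (m 1) (m 4) (m 5) = xs m 0 + xs m 1 + xs m 5 := by
  simp only [Perm_x0, Perm_x1, Perm_x2, Perm_x3, Perm_x4, Perm_x5, n6, kap, w46, w35,
    w45, w36, wmu, br]
  ring

theorem split_024 : br (m 0) (m 2) (m 4) * br (m 1) (m 3) (m 5) = xs m 0 + xs m 1 + xs m 3 := by
  simp only [Perm_x0, Perm_x1, Perm_x2, Perm_x3, Perm_x4, Perm_x5, n6, kap, w46, w35,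
    w45, w36, wmu, br]
  ring

theorem split_025 : br (m 0) (m 2) (m 5) * br (m 1) (m 3) (m 4) = xs m 0 + xs m 3 + xs m 4 := by
  simp only [Perm_x0, Perm_x1, Perm_x2, Perm_x3, Perm_x4, Perm_x5, n6, kap, w46, w35,
    w45, w36, wmu, br]
  ring

theorem split_034 : br (m 0) (m 3) (m 4) * br (m 1) (m 2) (m 5) = xs m 1 + xs m 3 + xs m 4 := by
  simp only [Perm_x0, Perm_x1, Perm_x2, Perm_x3, Perm_x4, Perm_x5, n6, kap, w46, w35,
    w45, w36, wmu, br]
  ring

theorem split_035 : br (m 0) (m 3) (m 5) * br (m 1) (m 2) (m 4) = xs m 0 + xs m 1 + xs m 4 := by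
  simp only [Perm_x0, Perm_x1, Perm_x2, Perm_x3, Perm_x4, Perm_x5, n6, kap, w46, w35,
    w45, w36, wmu, br]
  ring

/-- the sextic with roots `x i` when the roots add up to zero -/
theorem prod_eq_ee {R : Type} [CommRing R] (x : Fin 6 → R)
    (h : x 0 + x 1 + x 2 + x 3 + x 4 + x 5 = 0) (t : R) :
    (t - x 0) * (t - x 1) * (t - x 2) * ((t - x 3) * (t - x 4) * (t - x 5)) =
      t ^ 6 + ee x 0 * t ^ 4 + ee x 1 * t ^ 3 + ee x 2 * t ^ 2 + ee x 3 * t + ee x 4 := by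
  change _ = t ^ 6 + e2 x * t ^ 4 + e3 x * t ^ 3 + e4 x * t ^ 2 + e5 x * t + e6 x
  simp only [e2, e3, e4, e5, e6]
  linear_combination (-t ^ 5) * h

/-- if all invariants vanish then every root satisfies `x ^ 6 = 0`, contradicting `split_012` -/
theorem ee_ne (h : H18 m) : ∃ j, ee (xs m) j ≠ 0 := by
  by_contra hc
  have h0 : ∀ j, ee (xs m) j = 0 := fun j => by
    by_contra e
    exact hc ⟨j, e⟩
  have key : ∀ t : k, (t - xs m 0) * (t - xs m 1) * (t - xs m 2) *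
      ((t - xs m 3) * (t - xs m 4) * (t - xs m 5)) = 0 → t = 0 := by
    intro t ht
    rw [prod_eq_ee _ (xs_sum m), h0, h0, h0, h0, h0] at ht
    exact pow_eq_zero_iff (n := 6) (by norm_num) |>.1 (by linear_combination ht)
  have h1 := key (xs m 1) (by ring)
  have h2 := key (xs m 2) (by ring)
  have h3 := key (xs m 3) (by ring)
  have h4 := split_012 m
  rw [h1, h2, h3, add_zero, add_zero] at h4
  exact mul_ne_zero (h 0 1 2 (by decide) (by decide) (by decide) (by decide))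
    (h 3 4 5 (by decide) (by decide) (by decide) (by decide)) h4

end

end Pool.Agent.MP_1c689d_ag.SX

end

section

set_option autoImplicit false

namespace Pool.Agent.MP_1c689d_ag.SX

open Pool.Agent.MP_1c689d_ag.FP

noncomputable section

open Polynomial

/-! A generic point of the plane satisfies all non-vanishing conditions. -/

variable {Ω : Type} [Field Ω] [Algebra ℂ Ω]

/-- A homogeneous expression that does not vanish at one `k`-point does not vanish at the generic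
point.  Lift `m` to `m₀ : Fin 6 → V k`.  If `Φ m ⟨u, v, 1⟩ = 0` then the polynomial
`Φ (C m₀) ⟨X 0, X 1, 1⟩ : MvPolynomial (Fin 2) k` vanishes (independence and `hmap`), so
`Φ m₀ ⟨a, b, 1⟩ = 0` for all `a, b : k`, and by homogeneity `Φ m₀ r = 0` whenever `r.z ≠ 0`.  The
polynomial `Φ (C m₀) ⟨C q.x, C q.y, C q.z + X⟩ : k[X]` then has infinitely many roots
(characteristic zero), so it is zero; evaluate at `0`. -/
theorem hom_ne (k : IntermediateField ℂ Ω)
    (Φ : ∀ (R : Type) [CommRing R], (Fin 6 → V R) → V R → R)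
    (hmap : ∀ (R S : Type) [CommRing R] [CommRing S] (f : R →+* S) (m : Fin 6 → V R) (p : V R),
      f (Φ R m p) = Φ S (mp f m) (p.map f))
    (d : ℕ) (hhom : ∀ (R : Type) [CommRing R] (l : R) (m : Fin 6 → V R) (p : V R),
      Φ R m (V.sm l p) = l ^ d * Φ R m p)
    {m : Fin 6 → V Ω} (hm : ∀ i, (m i).In k) {u v : Ω} (hx : AlgebraicIndependent k ![u, v])
    (q : V Ω) (hq : q.In k) (h : Φ Ω m q ≠ 0) : Φ Ω m ⟨u, v, 1⟩ ≠ 0 := by
  intro h0
  let lf : ∀ a : V Ω, a.In k → V k := fun a ha => ⟨⟨_, ha.1⟩, ⟨_, ha.2.1⟩, ⟨_, ha.2.2⟩⟩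
  let m₀ : Fin 6 → V k := fun i => lf (m i) (hm i)
  let q₀ : V k := lf q hq
  have h1 : Φ (MvPolynomial (Fin 2) k) (mp MvPolynomial.C m₀)
      ⟨MvPolynomial.X 0, MvPolynomial.X 1, 1⟩ = 0 := by
    refine (algebraicIndependent_iff.1 hx) _ ?_
    refine (hmap _ _ (MvPolynomial.aeval ![u, v] : MvPolynomial (Fin 2) k →ₐ[k] Ω).toRingHom
      _ _).trans (Eq.trans ?_ h0)
    congr 1
    · funext i
      simp [mp, V.map, m₀, lf]
    · simp [V.map]
  have h2 : ∀ a b : k, Φ k m₀ ⟨a, b, 1⟩ = 0 := fun a b => by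
    have := hmap _ _ (MvPolynomial.eval ![a, b]) (mp MvPolynomial.C m₀)
      ⟨MvPolynomial.X 0, MvPolynomial.X 1, 1⟩
    rw [h1, map_zero] at this
    refine Eq.trans ?_ this.symm
    congr 1
    · funext i
      simp [mp, V.map]
    · simp [V.map]
  have h3 : ∀ a b c : k, c ≠ 0 → Φ k m₀ ⟨a, b, c⟩ = 0 := fun a b c hc => by
    have := hhom k c m₀ ⟨a / c, b / c, 1⟩
    rwa [h2, mul_zero, V.sm, mul_div_cancel₀ _ hc, mul_div_cancel₀ _ hc, mul_one] at this
  have h4 : ∀ t : k, (Φ (Polynomial k) (mp C m₀) ⟨C q₀.x, C q₀.y, C q₀.z + X⟩).eval t =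
      Φ k m₀ ⟨q₀.x, q₀.y, q₀.z + t⟩ := fun t => by
    refine (hmap _ _ (evalRingHom t) _ _).trans ?_
    congr 1
    · funext i
      simp [mp, V.map]
    · simp [V.map]
  have := cz k
  have h5 : Φ (Polynomial k) (mp C m₀) ⟨C q₀.x, C q₀.y, C q₀.z + X⟩ = 0 := by
    refine eq_zero_of_infinite_isRoot _ ((Set.finite_singleton (-q₀.z)).infinite_compl.mono ?_)
    intro t ht
    exact (h4 t).trans (h3 _ _ _ fun e => ht (eq_neg_of_add_eq_zero_right e))
  have h6 := h4 0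
  rw [h5, eval_zero, add_zero] at h6
  have h7 := hmap _ _ (algebraMap k Ω) m₀ q₀
  rw [← h6, map_zero] at h7
  exact h h7.symm

/-- Apply `hom_ne` with intersection points `cr (m i) (m j)` (`ev_cr`, `H18.ne`, `ML_beta`).
`L i`: any `cr (m j) (m l)` with `br ≠ 0`.  `ML 0 2 i j`: the point `cr (m 0) (m i)` unless
`{i, j} = {4, 5}`, and then `cr (m 2) (m i)`.  `Q35`, `Q36`: `cr (m 1) (m 2)`.
`q0`: `cr (m 2) (m 4)`. -/
theorem gen_of_indep (k : IntermediateField ℂ Ω) {m : Fin 6 → V Ω} (hm : ∀ i, (m i).In k)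
    (h : H18 m) {u v : Ω} (hx : AlgebraicIndependent k ![u, v]) : Gen m ⟨u, v, 1⟩ := by
  have c : ∀ i j, (cr (m i) (m j)).In k := fun i j => cr_in (hm i) (hm j)
  have n : ∀ i j l : Fin 6, (i ≠ j ∧ i ≠ l ∧ j ≠ l ∧ ¬ (side i = side j ∧ side j = side l)) →
      br (m i) (m j) (m l) ≠ 0 := fun i j l e => h.ne e.1 e.2.1 e.2.2.1 e.2.2.2
  refine ⟨fun i => ?_, fun i j h1 h2 h3 h4 h5 => ?_, ?_, ?_, ?_⟩
  · obtain ⟨j, l, e⟩ : ∃ j l : Fin 6,
        i ≠ j ∧ i ≠ l ∧ j ≠ l ∧ ¬ (side i = side j ∧ side j = side l) := by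
      revert i
      decide
    exact hom_ne k (fun _ _ m p => ev (m i) p) (fun _ _ _ _ f m p => map_ev f _ _) 1
      (fun _ _ l m p => by rw [ev_sm, pow_one]) hm hx _ (c j l) (by
        simp only [ev_cr]
        exact n i j l e)
  · have key := hom_ne k (fun _ _ m p => ML (m 0) (m 2) (m i) (m j) p)
      (fun _ _ _ _ f m p => map_ML f _ _ _ _ _) 1
      (fun _ _ l m p => by rw [ML_sm, pow_one]) hm hx
    by_cases e : side 0 = side i ∧ side i = side j
    · refine key _ (c 2 i) ?_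
      simp only [ML, ev_cr, br_self₁, mul_zero, zero_sub, neg_ne_zero]
      refine mul_ne_zero (n _ _ _ ⟨h2.symm, h4.symm, h5, ?_⟩) (n _ _ _ ⟨by decide, h1.symm,
        h2.symm, fun e' => absurd e'.1 (by decide)⟩)
      rw [← e.1]
      exact fun e' => absurd e'.1 (by decide)
    · refine key _ (c 0 i) ?_
      simp only [ML, ev_cr, br_self₁, mul_zero, sub_zero]
      exact mul_ne_zero (n _ _ _ ⟨h1.symm, h3.symm, h5, e⟩) (n _ _ _ ⟨by decide, h2.symm,
        h1.symm, fun e' => absurd e'.1 (by decide)⟩)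
  · refine hom_ne k (fun _ _ m p => Q35 m p) (fun _ _ _ _ f m p => map_Q35 f m p) 2
      (fun _ _ l m p => Q35_sm l m p) hm hx _ (c 1 2) ?_
    simp only [Q35, A5, ML, ev_cr, br_self₁, br_self₂, mul_zero, add_zero, zero_sub]
    exact mul_ne_zero (n _ _ _ (by decide)) (mul_ne_zero (n _ _ _ (by decide))
      (neg_ne_zero.2 (mul_ne_zero (n _ _ _ (by decide)) (n _ _ _ (by decide)))))
  · refine hom_ne k (fun _ _ m p => Q36 m p) (fun _ _ _ _ f m p => map_Q36 f m p) 2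
      (fun _ _ l m p => Q36_sm l m p) hm hx _ (c 1 2) ?_
    simp only [Q36, A6, ML, ev_cr, br_self₁, br_self₂, mul_zero, add_zero, zero_sub]
    exact mul_ne_zero (n _ _ _ (by decide)) (mul_ne_zero (n _ _ _ (by decide))
      (neg_ne_zero.2 (mul_ne_zero (n _ _ _ (by decide)) (n _ _ _ (by decide)))))
  · refine hom_ne k (fun _ _ m p => q0 m p) (fun _ _ _ _ f m p => map_q0 f m p) 2
      (fun _ _ l m p => q0_sm l m p) hm hx _ (c 2 4) ?_
    simp only [q0, A5, A6, d5, ML, ev_cr, br_self₁, br_self₂, mul_zero, zero_mul, sub_zero,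
      zero_sub]
    exact mul_ne_zero (mul_ne_zero (n _ _ _ (by decide)) (n _ _ _ (by decide)))
      (mul_ne_zero (n _ _ _ (by decide))
        (neg_ne_zero.2 (mul_ne_zero (n _ _ _ (by decide)) (n _ _ _ (by decide)))))

end

end Pool.Agent.MP_1c689d_ag.SX

end

section

set_option autoImplicit false

namespace Pool.Agent.MP_1c689d_ag.SX

open Pool.Agent.MP_1c689d_ag.FP

noncomputable section

open Polynomial

theorem Nrm_ind (k₀ : Fin 5) (n : ℕ) : ∀ Q : Fin 5 → ℂ[X], Q k₀ ≠ 0 → (Q k₀).natDegree = n →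
    ∃ (g : ℂ[X]) (P : Fin 5 → ℂ[X]), g ≠ 0 ∧ (∀ k : Fin 5, Q k = g ^ (2 * (k.1 + 2)) * P k) ∧
      LoP P := by
  induction n using Nat.strong_induction_on with
  | _ n ih =>
    intro Q hQ hn
    by_cases h : LoP Q
    · exact ⟨1, Q, one_ne_zero, fun k => by simp, h⟩
    obtain ⟨τ, hτ⟩ := not_forall.1 h
    have hd : ∀ k : Fin 5, (X - C τ) ^ (2 * (k.1 + 2)) ∣ Q k := by
      intro k
      by_cases h0 : Q k = 0
      · rw [h0]
        exact dvd_zero _
      · exact (le_rootMultiplicity_iff h0).1 (not_lt.1 fun h1 => hτ ⟨k, h0, h1⟩)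
    choose Q' hQ' using hd
    have h1 := hQ
    rw [hQ' k₀] at h1
    have hlt : (Q' k₀).natDegree < n := by
      rw [← hn, hQ' k₀, natDegree_mul (left_ne_zero_of_mul h1) (right_ne_zero_of_mul h1),
        natDegree_pow, natDegree_X_sub_C]
      omega
    obtain ⟨g, P, hg, hP, hL⟩ := ih _ hlt Q' (right_ne_zero_of_mul h1) rfl
    refine ⟨(X - C τ) * g, P, mul_ne_zero (X_sub_C_ne_zero τ) hg, fun k => ?_, hL⟩
    rw [hQ' k, hP k, mul_pow, mul_assoc]

/-- Induction on the degree of a non-zero `Q k`: if `LoP Q` fails at `τ` then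
`(X - C τ) ^ (2 (k + 2))` divides all `Q k`. -/
theorem dich2 (Q : Fin 5 → ℂ[X]) (h : ∃ k, Q k ≠ 0) :
    ∃ (g : ℂ[X]) (P : Fin 5 → ℂ[X]), g ≠ 0 ∧ (∀ k : Fin 5, Q k = g ^ (2 * (k.1 + 2)) * P k) ∧
      LoP P := by
  obtain ⟨k₀, hk⟩ := h
  exact Nrm_ind k₀ _ Q hk rfl

variable {N : Type} [Field N] [Algebra ℂ N]

/-- Write `R k = a k (s) / b (s)` with a common denominator
(`IntermediateField.mem_adjoin_simple_iff`), put `Q k = a k * b ^ (2 (k + 2) - 1)`, apply `dich2`,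
and take `G = g(s) / b(s)`. -/
theorem nrm_ex {s : N} (hs : Transcendental ℂ s) (R : Fin 5 → N)
    (hR : ∀ k, R k ∈ IntermediateField.adjoin ℂ {s}) (h0 : ∃ k, R k ≠ 0) :
    ∃ (G : N) (P : Fin 5 → ℂ[X]), G ∈ IntermediateField.adjoin ℂ {s} ∧ G ≠ 0 ∧
      (∀ k : Fin 5, R k = G ^ (2 * (k.1 + 2)) * aeval s (P k)) ∧ LoP P := by
  have h1 : ∀ k, ∃ a b : ℂ[X], aeval s b ≠ 0 ∧ R k * aeval s b = aeval s a := by
    intro k
    obtain ⟨a, b, hab⟩ := (IntermediateField.mem_adjoin_simple_iff ℂ (R k)).1 (hR k)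
    by_cases hb : aeval s b = 0
    · exact ⟨0, 1, by simp, by rw [hab, hb]; simp⟩
    · exact ⟨a, b, hb, by rw [hab, div_mul_cancel₀ _ hb]⟩
  choose a b hb hab using h1
  have hB : aeval s (∏ k, b k) ≠ 0 := by
    rw [map_prod]
    exact Finset.prod_ne_zero_iff.2 fun k _ => hb k
  have h2 : ∀ k, ∃ a' : ℂ[X], R k * aeval s (∏ k, b k) = aeval s a' := by
    intro k
    obtain ⟨c, hc⟩ := Finset.dvd_prod_of_mem b (Finset.mem_univ k)
    exact ⟨a k * c, by rw [hc, map_mul, map_mul, ← mul_assoc, hab]⟩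
  generalize ∏ k, b k = B at hB h2
  choose a' ha' using h2
  have h3 : ∀ k : Fin 5, aeval s (a' k * B ^ (2 * k.1 + 3)) =
      R k * aeval s B ^ (2 * (k.1 + 2)) := by
    intro k
    rw [map_mul, map_pow, ← ha' k]
    ring
  obtain ⟨g, P, hg, hP, hL⟩ := dich2 (fun k => a' k * B ^ (2 * k.1 + 3)) (by
    obtain ⟨k, hk⟩ := h0
    refine ⟨k, fun h => mul_ne_zero hk (pow_ne_zero (2 * (k.1 + 2)) hB) ?_⟩
    rw [← h3 k, h, map_zero])
  have hsm : s ∈ IntermediateField.adjoin ℂ {s} := IntermediateField.mem_adjoin_simple_self ℂ s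
  refine ⟨aeval s g / aeval s B, P, div_mem (aeval_mem _ hsm g) (aeval_mem _ hsm B),
    div_ne_zero (fun h => hg ((transcendental_iff.1 hs) g h)) hB, fun k => ?_, hL⟩
  have h4 := h3 k
  rw [hP k, map_mul, map_pow] at h4
  rw [div_pow, div_mul_eq_mul_div, h4, mul_div_cancel_right₀ _ (pow_ne_zero _ hB)]

theorem Nrm_one {S : Set N} (halg : acl S = ⊤) {x : N}
    (h : ∀ ψ : N →ₐ[ℂ] AlgebraicClosure N, (∀ y ∈ S, ψ y = algebraMap N _ y) →
      ψ x = algebraMap N _ x) : x ∈ IntermediateField.adjoin ℂ S := by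
  classical
  set K := IntermediateField.adjoin ℂ S with hK
  have hcz : CharZero K := cz K
  have hi : ∀ y : N, IsIntegral K y := fun y =>
    (mem_acl.1 (halg ▸ IntermediateField.mem_top : y ∈ acl S)).isIntegral
  have : Algebra.IsAlgebraic K N := ⟨fun y => (hi y).isAlgebraic⟩
  have hsp : ∀ y : N, ((minpoly K y).map (algebraMap K (AlgebraicClosure N))).Splits :=
    fun y => IsAlgClosed.splits _
  have hc := card_rootSet_eq_natDegree (K := AlgebraicClosure N)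
    (Algebra.IsSeparable.isSeparable K x) (hsp x)
  have hle : Fintype.card ((minpoly K x).rootSet (AlgebraicClosure N)) ≤ 1 := by
    refine Fintype.card_le_one_iff.2 ?_
    have key : ∀ y : (minpoly K x).rootSet (AlgebraicClosure N), y.1 = algebraMap N _ x := by
      intro y
      obtain ⟨φ, hφ⟩ := IntermediateField.exists_algHom_of_splits_of_aeval
        (fun y => ⟨hi y, hsp y⟩) (aeval_eq_zero_of_mem_rootSet y.2)
      rw [← hφ]
      refine h (φ.restrictScalars ℂ) fun z hz => ?_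
      exact φ.commutes ⟨z, IntermediateField.subset_adjoin ℂ S hz⟩
    exact fun a b => Subtype.ext ((key a).trans (key b).symm)
  have hpos := minpoly.natDegree_pos (hi x)
  obtain ⟨y, hy⟩ := minpoly.natDegree_eq_one_iff.1 (show (minpoly K x).natDegree = 1 by omega)
  rw [← hy]
  exact y.2

theorem Nrm_rat (F L : IntermediateField ℂ N) (hFL : F ≤ L) {ι : Type} {w : ι → N}
    (hw : AlgebraicIndependent L w) {x : N} (hx : x ∈ L)
    (h : x ∈ IntermediateField.adjoin F (Set.range w)) : x ∈ F := by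
  obtain ⟨A, B, hAB⟩ := (IntermediateField.mem_adjoin_range_iff F w x).1 h
  by_cases hB : MvPolynomial.aeval w B = 0
  · rw [hAB, hB, div_zero]
    exact zero_mem _
  let f : F →+* L := (IntermediateField.inclusion hFL : F →ₐ[ℂ] L)
  have he : ∀ T : MvPolynomial ι F,
      MvPolynomial.aeval w (MvPolynomial.map f T) = MvPolynomial.aeval w T := by
    intro T
    rw [MvPolynomial.aeval_def, MvPolynomial.aeval_def, MvPolynomial.eval₂_map]
    rfl
  have h1 : MvPolynomial.map f A = MvPolynomial.C (⟨x, hx⟩ : L) * MvPolynomial.map f B := by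
    apply hw
    rw [map_mul, he, he, MvPolynomial.aeval_C]
    change _ = x * _
    rw [hAB, div_mul_cancel₀ _ hB]
  have hB0 : B ≠ 0 := by
    rintro rfl
    exact hB (map_zero _)
  obtain ⟨d, hd⟩ := MvPolynomial.ne_zero_iff.1 hB0
  have h2 := congrArg (fun T => ((MvPolynomial.coeff d T : L) : N)) h1
  simp only [MvPolynomial.coeff_C_mul, MvPolynomial.coeff_map] at h2
  have h3 : ((MvPolynomial.coeff d A : F) : N) = x * ((MvPolynomial.coeff d B : F) : N) := h2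
  have h4 : ((MvPolynomial.coeff d B : F) : N) ≠ 0 := fun h0 => hd (Subtype.ext h0)
  rw [(eq_div_iff h4).2 h3.symm]
  exact div_mem (Subtype.property _) (Subtype.property _)

/-- Let `K₀ = adjoin ℂ {s, u, v}` and `Ω = AlgebraicClosure N`, algebraic over `K₀`.  Every root
of the (separable) minimal polynomial of `x` over `K₀` is `ψ x` for some `K₀`-embedding
`ψ : N → Ω` (`IntermediateField.exists_algHom_of_splits_of_aeval`, or `exists_ext`), so the
polynomial has a single root and `x ∈ K₀`.  Then `x = A(u, v) / B(u, v)` with polynomials over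
`ℂ(s)` (`IntermediateField.mem_adjoin_iff` over `adjoin ℂ {s}`), `A - x B = 0` coefficientwise by
`indep_acl`, and `x` is a quotient of two coefficients. -/
theorem fixed_mem {s u v x : N} (hind : AlgebraicIndependent ℂ ![s, u, v])
    (halg : acl {s, u, v} = ⊤) (hx : x ∈ acl {s})
    (h : ∀ ψ ψ' : N →ₐ[ℂ] AlgebraicClosure N, ψ s = ψ' s → ψ x = ψ' x) :
    x ∈ IntermediateField.adjoin ℂ {s} := by
  have h1 : x ∈ IntermediateField.adjoin ℂ {s, u, v} :=
    Nrm_one halg fun ψ hψ => h ψ (IsScalarTower.toAlgHom ℂ N _) (hψ s (Set.mem_insert _ _))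
  refine Nrm_rat _ _ (adjoin_le_acl {s}) (indep_acl hind) hx ?_
  have e : ({s, u, v} : Set N) = {s} ∪ Set.range ![u, v] := by
    ext y
    simp only [Matrix.range_cons, Matrix.range_empty, Set.union_empty, Set.mem_union,
      Set.mem_singleton_iff, Set.mem_insert_iff]
  rw [e, ← IntermediateField.adjoin_adjoin_left] at h1
  exact h1

/-- `fixed_mem` for `ee (xs m) k` (`H.gal`, `map_ee`, `map_xs`, `ee_perm`, `ee_mem`, `xs_mem`),
`ee_ne`, `nrm_ex` -/
theorem Six.nrm {full : Prop} {s u v z c : N} {m : Fin 6 → V N} (H : Six full s u v z c m) :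
    ∃ G P, Nrm s c m G P ∧ LoP P := by
  have hN := cz N
  have hΩ := cz (AlgebraicClosure N)
  have hm : ∀ k, ee (xs m) k ∈ IntermediateField.adjoin ℂ {s} := by
    intro k
    refine fixed_mem H.ind H.alg (ee_mem (xs_mem H.mem) k) fun ψ ψ' hs => ?_
    obtain ⟨σ, -, hσ⟩ := H.gal _ ψ ψ' hs
    have e : ∀ φ : N →ₐ[ℂ] AlgebraicClosure N, φ (ee (xs m) k) = ee (xs (mp φ m)) k := by
      intro φ
      rw [map_ee]
      congr 1
      funext i
      exact map_xs φ m i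
    rw [e, e, hσ, ee_perm]
  obtain ⟨j, hj⟩ := ee_ne m H.good.1
  obtain ⟨G, P, h1, h2, h3, h4⟩ := nrm_ex (H.ind.transcendental 0)
    (fun k => c ^ (k.1 + 2) * ee (xs m) k) (fun k => mul_mem (pow_mem H.cmem _) (hm k))
    ⟨j, mul_ne_zero (pow_ne_zero _ H.c0) hj⟩
  exact ⟨G, P, ⟨h1, h2, h3⟩, h4⟩

end

end Pool.Agent.MP_1c689d_ag.SX

end

section

set_option autoImplicit false

namespace Pool.Agent.MP_1c689d_ag.SX

open Pool.Agent.MP_1c689d_ag.FP

noncomputable section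

open Polynomial

variable {T : Type} [Field T]

theorem SixOf1_smul {N : ℕ} (c : T) (x : Fin (N + 1) → T) :
    lin (c • x) = MvPolynomial.C c * lin x := by
  simp [lin, Finset.mul_sum, mul_assoc]

theorem SixOf1_prime {N : ℕ} {x : Fin (N + 1) → T} (hx : x ≠ 0) : Prime (lin x) := by
  have e : lin x = MvPolynomial.sumSMulX (Finsupp.equivFunOnFinite.symm x) := by
    rw [MvPolynomial.sumSMulX, Finsupp.linearCombination_apply, Finsupp.sum_fintype _ _ (by simp)]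
    simp [lin, MvPolynomial.smul_eq_C_mul]
  obtain ⟨i, hi⟩ := Function.ne_iff.1 hx
  rw [e]
  refine (MvPolynomial.irreducible_sumSMulX _ ⟨i, by simpa using hi⟩ fun r hr => ?_).prime
  refine IsUnit.mk0 r ?_
  rintro rfl
  exact hi (zero_dvd_iff.1 (hr i))

theorem SixOf1_assoc {N : ℕ} {x y : Fin (N + 1) → T} (h : Associated (lin y) (lin x)) :
    ∃ c : T, c ≠ 0 ∧ x = c • y := by
  obtain ⟨u, hu⟩ := h
  obtain ⟨c, hc, e⟩ := MvPolynomial.isUnit_iff_eq_C_of_isReduced.1 u.isUnit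
  refine ⟨c, hc.ne_zero, funext fun i => ?_⟩
  rw [← Chow_coeff x i, ← hu, e, mul_comm, ← SixOf1_smul, Chow_coeff]

theorem SixOf1_ne {a : V T} (ha : a ≠ ⟨0, 0, 0⟩) : (![a.x, a.y, a.z] : Fin (2 + 1) → T) ≠ 0 :=
  fun e => ha (V.ext (congrFun e 0) (congrFun e 1) (congrFun e 2))

theorem SixOf1_eval (a : Fin 6 → V T) (p : Fin (2 + 1) → T) :
    MvPolynomial.eval p (∏ i, lin ![(a i).x, (a i).y, (a i).z]) = prodL a ⟨p 0, p 1, p 2⟩ := by
  simp [lin, prodL, ev, Fin.prod_univ_six, Fin.sum_univ_three]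

/-- Unique factorisation for products of linear forms.  Let `Φ a = ∏ i, lin (a i)` in
`MvPolynomial (Fin 3) T`.  By homogeneity (`prodL_sm`) `Φ a` and `Φ b` agree at all points with
non-zero last coordinate, so `(Φ a - Φ b) * X 2 = 0` (`MvPolynomial.funext`) and `Φ a = Φ b`.
Then argue as in `dec_orbit` of `FP/Chow` (non-zero linear forms are prime,
`prime_factors_unique`, associated linear forms are proportional). -/
theorem lin_perm [Infinite T] (a b : Fin 6 → V T) (ha : ∀ i, a i ≠ ⟨0, 0, 0⟩)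
    (hb : ∀ i, b i ≠ ⟨0, 0, 0⟩) (h : ∀ x y : T, prodL a ⟨x, y, 1⟩ = prodL b ⟨x, y, 1⟩) :
    ∃ σ : Equiv.Perm (Fin 6), ∀ i, ∃ l : T, l ≠ 0 ∧ b i = V.sm l (a (σ i)) := by
  have h1 : (∏ i, lin ![(a i).x, (a i).y, (a i).z] - ∏ i, lin ![(b i).x, (b i).y, (b i).z]) *
      (MvPolynomial.X 2 : MvPolynomial (Fin (2 + 1)) T) = 0 := by
    refine MvPolynomial.funext fun p => ?_
    rw [map_mul, map_sub, SixOf1_eval, SixOf1_eval, MvPolynomial.eval_X, map_zero]
    by_cases hp : p 2 = 0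
    · rw [hp, mul_zero]
    · have e : (⟨p 0, p 1, p 2⟩ : V T) = V.sm (p 2) ⟨p 0 / p 2, p 1 / p 2, 1⟩ :=
        V.ext (mul_div_cancel₀ _ hp).symm (mul_div_cancel₀ _ hp).symm (mul_one _).symm
      rw [e, prodL_sm, prodL_sm, h, sub_self, zero_mul]
  have h2 := sub_eq_zero.1 ((mul_eq_zero.1 h1).resolve_right (MvPolynomial.X_ne_zero _))
  have h3 := prime_factors_unique
    (f := Finset.univ.val.map fun i => lin ![(a i).x, (a i).y, (a i).z])
    (g := Finset.univ.val.map fun i => lin ![(b i).x, (b i).y, (b i).z])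
    (Multiset.forall_mem_map_iff.2 fun i _ => SixOf1_prime (SixOf1_ne (ha i)))
    (Multiset.forall_mem_map_iff.2 fun i _ => SixOf1_prime (SixOf1_ne (hb i)))
    (Associated.of_eq h2)
  rw [Associates.rel_associated_iff_map_eq_map, Multiset.map_map, Multiset.map_map] at h3
  obtain ⟨π, hπ⟩ := Chow_perm h3
  refine ⟨π, fun i => ?_⟩
  obtain ⟨c, hc, e⟩ := SixOf1_assoc (Associates.mk_eq_mk_iff_associated.1 (congrFun hπ i)).symm
  exact ⟨c, hc, V.ext (congrFun e 0) (congrFun e 1) (congrFun e 2)⟩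

open Classical in
/-- the first non-zero coordinate -/
def lead (a : V T) : T := if a.x ≠ 0 then a.x else if a.y ≠ 0 then a.y else a.z

/-- the normalised vector -/
def nz (a : V T) : V T := V.sm (lead a)⁻¹ a

theorem lead_ne {a : V T} (ha : a ≠ ⟨0, 0, 0⟩) : lead a ≠ 0 := by
  unfold lead
  split_ifs with h1 h2
  · exact h1
  · exact h2
  · exact fun h3 => ha (V.ext (not_not.1 h1) (not_not.1 h2) h3)

theorem sm_nz {a : V T} (ha : a ≠ ⟨0, 0, 0⟩) : V.sm (lead a) (nz a) = a := by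
  have h := lead_ne ha
  exact V.ext (mul_inv_cancel_left₀ h _) (mul_inv_cancel_left₀ h _) (mul_inv_cancel_left₀ h _)

theorem nz_sm {l : T} (hl : l ≠ 0) (a : V T) : nz (V.sm l a) = nz a := by
  have e : lead (V.sm l a) = l * lead a := by
    by_cases h1 : a.x = 0 <;> by_cases h2 : a.y = 0 <;> simp [lead, V.sm, hl, h1, h2]
  have k : ∀ t : T, (l * lead a)⁻¹ * (l * t) = (lead a)⁻¹ * t := fun t => by
    rw [mul_inv, mul_mul_mul_comm, inv_mul_cancel₀ hl, one_mul]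
  rw [nz, e]
  exact V.ext (k _) (k _) (k _)

theorem lead_map {T' F : Type} [Field T'] [FunLike F T T'] [RingHomClass F T T'] (f : F)
    (a : V T) : lead (a.map f) = f (lead a) := by
  by_cases h1 : a.x = 0 <;> by_cases h2 : a.y = 0 <;> simp [lead, V.map, h1, h2]

theorem nz_map {T' F : Type} [Field T'] [FunLike F T T'] [RingHomClass F T T'] (f : F)
    (a : V T) : nz (a.map f) = (nz a).map f := by
  rw [nz, lead_map]
  simp only [nz, V.sm, V.map, map_mul, map_inv₀]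

theorem ev_sm_left {R : Type} [CommRing R] (l : R) (a p : V R) : ev (V.sm l a) p = l * ev a p := by
  simp only [ev, V.sm]
  ring

theorem br_sm {R : Type} [CommRing R] (l₁ l₂ l₃ : R) (a b c : V R) :
    br (V.sm l₁ a) (V.sm l₂ b) (V.sm l₃ c) = l₁ * l₂ * l₃ * br a b c := by
  simp only [br, V.sm]
  ring

end

end Pool.Agent.MP_1c689d_ag.SX

end
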