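import Pool.Agent.MP_1c689d_ag.Defs

set_option linter.all false


section

set_option autoImplicit false

namespace Pool.Agent.MP_1c689d_ag

noncomputable section

open Finsupp

/-- rational singular chains -/
abbrev Ch (X : Type) [TopologicalSpace X] (n : ℕ) : Type := C(Sx n, X) →₀ ℚ

variable {X Y Z : Type} [TopologicalSpace X] [TopologicalSpace Y] [TopologicalSpace Z]

/-- basis chain -/
abbrev sg {n : ℕ} (σ : C(Sx n, X)) : Ch X n := Finsupp.single σ 1

/-- linear extension -/
def ext1 {n : ℕ} {V : Type} [AddCommGroup V] [Module ℚ V] (f : C(Sx n, X) → V) :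
    Ch X n →ₗ[ℚ] V := Finsupp.linearCombination ℚ f

@[simp] theorem ext1_sg {n : ℕ} {V : Type} [AddCommGroup V] [Module ℚ V] (f : C(Sx n, X) → V)
    (σ : C(Sx n, X)) : ext1 f (sg σ) = f σ := by
  simp [ext1]

theorem lin_ext {n : ℕ} {V : Type} [AddCommGroup V] [Module ℚ V] {f g : Ch X n →ₗ[ℚ] V}
    (h : ∀ σ, f (sg σ) = g (sg σ)) : f = g := by
  apply Finsupp.lhom_ext'
  intro σ
  apply LinearMap.ext_ring
  simpa using h σ

/-- boundary -/
def bd {n : ℕ} : Ch X (n + 1) →ₗ[ℚ] Ch X n :=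
  ext1 (fun σ => ∑ j : Fin (n + 2), ((-1 : ℚ) ^ (j : ℕ)) • sg (σ.comp (face n j)))

theorem bd_sg {n : ℕ} (σ : C(Sx (n + 1), X)) :
    bd (sg σ) = ∑ j : Fin (n + 2), ((-1 : ℚ) ^ (j : ℕ)) • sg (σ.comp (face n j)) := by
  simp [bd]

/-- push forward -/
def push {n : ℕ} (f : C(X, Y)) : Ch X n →ₗ[ℚ] Ch Y n := ext1 (fun σ => sg (f.comp σ))

@[simp] theorem push_sg {n : ℕ} (f : C(X, Y)) (σ : C(Sx n, X)) :
    push f (sg σ) = sg (f.comp σ) := by
  simp [push]

theorem push_push {n : ℕ} (f : C(X, Y)) (g : C(Y, Z)) (c : Ch X n) :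
    push g (push f c) = push (g.comp f) c := by
  have : (push g).comp (push f) = (push (g.comp f) : Ch X n →ₗ[ℚ] Ch Z n) :=
    lin_ext (fun σ => by simp [ContinuousMap.comp_assoc])
  exact LinearMap.congr_fun this c

theorem bd_push {n : ℕ} (f : C(X, Y)) (c : Ch X (n + 1)) : bd (push f c) = push f (bd c) := by
  have : bd.comp (push f) = ((push f).comp bd : Ch X (n + 1) →ₗ[ℚ] Ch Y n) :=
    lin_ext (fun σ => by
      simp only [LinearMap.comp_apply, push_sg, bd_sg, map_sum, map_smul,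
        ContinuousMap.comp_assoc])
  exact LinearMap.congr_fun this c

theorem face_face (n : ℕ) (i : Fin (n + 2)) (j : Fin (n + 3)) :
    (face (n + 1) j).comp (face n i) =
      (face (n + 1) (j.succAbove i)).comp (face n (i.predAbove j)) := by
  ext1 t
  show stdSimplex.map _ (stdSimplex.map _ t) = stdSimplex.map _ (stdSimplex.map _ t)
  rw [stdSimplex.map_comp_apply, stdSimplex.map_comp_apply]
  congr 1
  funext k
  exact (Fin.succAbove_succAbove_succAbove_predAbove j i k).symm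

theorem bd_bd {n : ℕ} (c : Ch X (n + 2)) : bd (bd c) = 0 := by
  have : bd.comp bd = (0 : Ch X (n + 2) →ₗ[ℚ] Ch X n) := by
    apply lin_ext
    intro σ
    simp only [LinearMap.comp_apply, bd_sg, map_sum, map_smul, LinearMap.zero_apply,
      Finset.smul_sum, smul_smul]
    rw [← Finset.sum_product']
    apply Finset.sum_involution
      (fun (q : Fin (n + 3) × Fin (n + 2)) _ => (q.1.succAbove q.2, q.2.predAbove q.1))
    · rintro ⟨j, i⟩ _
      simp only
      rw [ContinuousMap.comp_assoc, ContinuousMap.comp_assoc, ← face_face, ← add_smul]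
      have hs : ((-1 : ℚ) ^ (j : ℕ) * (-1) ^ (i : ℕ) +
          (-1) ^ ((j.succAbove i : Fin (n + 3)) : ℕ) *
            (-1) ^ ((i.predAbove j : Fin (n + 2)) : ℕ)) = 0 := by
        have := Fin.neg_one_pow_succAbove_add_predAbove (R := ℚ) j i
        rw [← pow_add, ← pow_add, this]
        ring
      rw [hs, zero_smul]
    · rintro ⟨j, i⟩ _ _ h
      exact Fin.succAbove_ne j i (Prod.ext_iff.mp h).1
    · intro _ _
      simp
    · rintro ⟨j, i⟩ _
      simp only [Prod.mk.injEq]
      exact ⟨Fin.succAbove_succAbove_predAbove j i, Fin.predAbove_predAbove_succAbove j i⟩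
  exact LinearMap.congr_fun this c

/-- chains supported on a set of simplices -/
def Sup {n : ℕ} (S : Set C(Sx n, X)) : Submodule ℚ (Ch X n) := Submodule.span ℚ (sg '' S)

theorem sg_mem {n : ℕ} {S : Set C(Sx n, X)} {σ : C(Sx n, X)} (h : σ ∈ S) : sg σ ∈ Sup S :=
  Submodule.subset_span ⟨σ, h, rfl⟩

theorem Sup_map {n : ℕ} {S : Set C(Sx n, X)} {V : Type} [AddCommGroup V] [Module ℚ V]
    (f : Ch X n →ₗ[ℚ] V) (N : Submodule ℚ V) (h : ∀ σ ∈ S, f (sg σ) ∈ N) {c : Ch X n}
    (hc : c ∈ Sup S) : f c ∈ N := by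
  have : Sup S ≤ N.comap f := by
    apply Submodule.span_le.mpr
    rintro _ ⟨σ, hσ, rfl⟩
    exact h σ hσ
  exact this hc

theorem Sup_eq {n : ℕ} {S : Set C(Sx n, X)} {V : Type} [AddCommGroup V] [Module ℚ V]
    (f g : Ch X n →ₗ[ℚ] V) (h : ∀ σ ∈ S, f (sg σ) = g (sg σ)) {c : Ch X n}
    (hc : c ∈ Sup S) : f c = g c := by
  have := Sup_map (f - g) ⊥ (fun σ hσ => by simp [h σ hσ]) hc
  simpa [sub_eq_zero] using this

theorem Sup_mono {n : ℕ} {S T : Set C(Sx n, X)} (h : S ⊆ T) : Sup S ≤ Sup T :=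
  Submodule.span_mono (Set.image_mono h)

theorem mem_Sup_support {n : ℕ} (c : Ch X n) : c ∈ Sup (c.support : Set C(Sx n, X)) := by
  have h : c.sum Finsupp.single ∈ Sup (c.support : Set C(Sx n, X)) := by
    apply Submodule.sum_mem
    intro σ hσ
    have : Finsupp.single σ (c σ) = c σ • sg σ := by simp
    rw [this]
    exact Submodule.smul_mem _ _ (sg_mem hσ)
  rwa [Finsupp.sum_single] at h

theorem mem_Sup_univ {n : ℕ} (c : Ch X n) : c ∈ Sup (Set.univ : Set C(Sx n, X)) :=
  Sup_mono (Set.subset_univ _) (mem_Sup_support c)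

/-- multivalued transfer -/
theorem transfer {K : Type} [Fintype K] (n : ℕ) (G : Set C(Sx (n + 1), X))
    (L1 : C(Sx (n + 1), X) → K → C(Sx (n + 1), Z)) (L0 : C(Sx n, X) → K → C(Sx n, Z))
    (h : ∀ σ ∈ G, ∀ j, ∃ e : K ≃ K, ∀ k,
      L0 (σ.comp (face n j)) (e k) = (L1 σ k).comp (face n j))
    {c : Ch X (n + 1)} (hc : c ∈ Sup G) :
    bd (ext1 (fun σ => ∑ k, sg (L1 σ k)) c) = ext1 (fun σ => ∑ k, sg (L0 σ k)) (bd c) := by
  apply Sup_eq (bd.comp (ext1 (fun σ => ∑ k, sg (L1 σ k))))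
    ((ext1 (fun σ => ∑ k, sg (L0 σ k))).comp bd) _ hc
  intro σ hσ
  simp only [LinearMap.comp_apply, ext1_sg, bd_sg, map_sum, map_smul]
  rw [Finset.sum_comm]
  apply Finset.sum_congr rfl
  intro j _
  obtain ⟨e, he⟩ := h σ hσ j
  rw [← Finset.smul_sum, ← Equiv.sum_comp e (fun k => sg (L0 (σ.comp (face n j)) k))]
  simp only [he]

/-- evaluation of a cochain -/
theorem ext1_bd {n : ℕ} (φ : C(Sx n, X) → ℚ) (σ : C(Sx (n + 1), X)) :
    ext1 φ (bd (sg σ)) = cob φ σ := by
  simp only [bd_sg, cob, map_sum, map_smul, ext1_sg, smul_eq_mul]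

theorem ext1_bd_zero {n : ℕ} (φ : C(Sx n, X) → ℚ) (h : ∀ σ, cob φ σ = 0) (c : Ch X (n + 1)) :
    ext1 φ (bd c) = 0 := by
  have : (ext1 φ).comp bd = (0 : Ch X (n + 1) →ₗ[ℚ] ℚ) :=
    lin_ext (fun σ => by simp [ext1_bd, h])
  exact LinearMap.congr_fun this c

theorem restrictionZero_of_cycles (U : Set Y) (i : ℕ)
    (h : ∀ φ : C(Sx (i + 1), Y) → ℚ, (∀ σ, cob φ σ = 0) → ∀ c : Ch U (i + 1), bd c = 0 →
      ext1 φ (push (⟨Subtype.val, continuous_subtype_val⟩ : C(U, Y)) c) = 0) :
    RestrictionZero U i := by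
  intro φ hφ
  have hmem : (ext1 φ).comp (push (⟨Subtype.val, continuous_subtype_val⟩ : C(U, Y))) ∈
      (LinearMap.ker (bd : Ch U (i + 1) →ₗ[ℚ] Ch U i)).dualAnnihilator := by
    rw [Submodule.mem_dualAnnihilator]
    intro c hc
    exact h φ hφ c hc
  rw [← LinearMap.range_dualMap_eq_dualAnnihilator_ker] at hmem
  obtain ⟨ψ, hψ⟩ := hmem
  refine ⟨fun σ => ψ (sg σ), fun σ => ?_⟩
  have h1 := LinearMap.congr_fun hψ (sg σ)
  simp only [LinearMap.dualMap_apply, LinearMap.comp_apply, push_sg, ext1_sg] at h1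
  rw [← h1, ← ext1_bd]
  have : ψ = ext1 (fun σ => ψ (sg σ)) := lin_ext (fun σ => by simp)
  exact LinearMap.congr_fun this _

/-- a cycle made of constant simplices is a boundary -/
theorem const_cycle {n : ℕ} {c : Ch X (n + 1)}
    (hc : c ∈ Sup {σ | ∃ y, σ = ContinuousMap.const _ y}) (h0 : bd c = 0) :
    ∃ v : Ch X (n + 2), bd v = c := by
  let h : ∀ m, Ch X m →ₗ[ℚ] Ch X (m + 1) := fun m =>
    ext1 (fun σ => sg (ContinuousMap.const _ (σ (stdSimplex.vertex 0))))
  refine ⟨h (n + 1) c, ?_⟩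
  have := Sup_eq (bd.comp (h (n + 1)) + (h n).comp bd) LinearMap.id (by
    rintro _ ⟨y, rfl⟩
    simp only [h, LinearMap.add_apply, LinearMap.comp_apply, ext1_sg, bd_sg, map_sum, map_smul,
      ContinuousMap.const_comp, ContinuousMap.const_apply, LinearMap.id_apply]
    rw [← Finset.sum_smul, ← Finset.sum_smul, ← add_smul, Fin.sum_univ_succ]
    simp only [Fin.val_zero, pow_zero, Fin.val_succ, pow_succ, mul_neg, mul_one,
      Finset.sum_neg_distrib]
    simp) hc
  simpa [h0] using this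

end

end Pool.Agent.MP_1c689d_ag

end

section

set_option autoImplicit false

namespace Pool.Agent.MP_1c689d_ag

noncomputable section

variable {X Y Z : Type} [TopologicalSpace X] [TopologicalSpace Y] [TopologicalSpace Z]

/-- vertices of the standard simplex -/
abbrev vx {n : ℕ} (i : Fin (n + 1)) : Sx n := stdSimplex.vertex i

/-- a space with affine simplices -/
structure Aff (K : Type) [TopologicalSpace K] where
  aff : ∀ k : ℕ, (Fin (k + 1) → K) → C(Sx k, K)
  vert : ∀ k v i, aff k v (vx i) = v i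
  fac : ∀ k v j, (aff (k + 1) v).comp (face k j) = aff k (fun i => v (j.succAbove i))

section conv
variable {E : Type} [NormedAddCommGroup E] [NormedSpace ℝ E] {K : Set E}

/-- the affine simplex with given vertices in a convex set -/
def caff (hK : Convex ℝ K) (k : ℕ) (v : Fin (k + 1) → K) : C(Sx k, K) :=
  ⟨fun t => ⟨∑ i, t i • (v i : E),
      hK.sum_mem (fun i _ => stdSimplex.zero_le t i) (stdSimplex.sum_eq_one t)
        (fun i _ => (v i).2)⟩, by
    apply Continuous.subtype_mk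
    apply continuous_finsetSum
    intro i _
    exact ((continuous_apply i).comp continuous_subtype_val).smul continuous_const⟩

theorem caff_val (hK : Convex ℝ K) (k : ℕ) (v : Fin (k + 1) → K) (t : Sx k) :
    (caff hK k v t : E) = ∑ i, t i • (v i : E) := rfl

theorem sum_map_smul {k m : ℕ} (f : Fin (k + 1) → Fin (m + 1)) (t : Sx k)
    (u : Fin (m + 1) → E) : ∑ i, (stdSimplex.map f t) i • u i = ∑ i, t i • u (f i) := by
  simp only [stdSimplex.map_coe, FunOnFinite.linearMap_apply_apply, Finset.sum_smul]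
  rw [← Finset.sum_fiberwise Finset.univ f (fun i => t i • u (f i))]
  apply Finset.sum_congr rfl
  intro j _
  apply Finset.sum_congr rfl
  intro i hi
  rw [(Finset.mem_filter.mp hi).2]

/-- convex sets have affine simplices -/
def convAff (hK : Convex ℝ K) : Aff K where
  aff := caff hK
  vert := by
    intro k v i
    apply Subtype.ext
    rw [caff_val]
    simp [Pi.single_apply]
  fac := by
    intro k v j
    ext1 t
    apply Subtype.ext
    show (caff hK (k + 1) v (stdSimplex.map j.succAbove t) : E) = _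
    rw [caff_val, caff_val]
    exact sum_map_smul _ t (fun i => (v i : E))

theorem caff_dist (hK : Convex ℝ K) (k : ℕ) (v : Fin (k + 1) → K) (c : E) (ρ : ℝ)
    (h : ∀ i, dist (v i : E) c ≤ ρ) (t : Sx k) : dist (caff hK k v t : E) c ≤ ρ := by
  have := (convex_closedBall c ρ).sum_mem (t := Finset.univ) (w := fun i => t i)
    (z := fun i => (v i : E)) (fun i _ => stdSimplex.zero_le t i) (stdSimplex.sum_eq_one t)
    (fun i _ => h i)
  exact this

end conv

/-- product of affine structures -/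
def Aff.prod {K K' : Type} [TopologicalSpace K] [TopologicalSpace K'] (A : Aff K) (B : Aff K') :
    Aff (K × K') where
  aff := fun k v => (A.aff k (fun i => (v i).1)).prodMk (B.aff k (fun i => (v i).2))
  vert := by
    intro k v i
    apply Prod.ext
    · exact A.vert k _ i
    · exact B.vert k _ i
  fac := by
    intro k v j
    ext1 t
    apply Prod.ext
    · exact ContinuousMap.congr_fun (A.fac k (fun i => (v i).1) j) t
    · exact ContinuousMap.congr_fun (B.fac k (fun i => (v i).2) j) t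

/-- affine structure on the simplex -/
def sxAff (n : ℕ) : Aff (Sx n) := convAff (convex_stdSimplex ℝ (Fin (n + 1)))

/-- affine structure on the interval -/
def iAff : Aff unitInterval := convAff (convex_Icc (0 : ℝ) 1)

namespace Aff
variable {K K' : Type} [TopologicalSpace K] [TopologicalSpace K'] (A : Aff K) (B : Aff K')

/-- affine chains -/
def AS (k : ℕ) : Submodule ℚ (Ch K k) := Sup (Set.range (A.aff k))

/-- affine maps -/
def IsAffMap (f : C(K, K')) : Prop :=
  ∀ k v, f.comp (A.aff k v) = B.aff k (fun i => f (v i))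

/-- cone operator -/
def cone (b : K) (k : ℕ) : Ch K k →ₗ[ℚ] Ch K (k + 1) :=
  ext1 (fun σ => sg (A.aff (k + 1) (Fin.cons b (fun i => σ (vx i)))))

theorem cone_aff (b : K) (k : ℕ) (v : Fin (k + 1) → K) :
    A.cone b k (sg (A.aff k v)) = sg (A.aff (k + 1) (Fin.cons b v)) := by
  simp only [cone, ext1_sg, A.vert]

theorem cone_mem (b : K) (k : ℕ) (c : Ch K k) : A.cone b k c ∈ A.AS (k + 1) :=
  Sup_map _ _ (fun σ _ => by
    simp only [cone, ext1_sg]
    exact sg_mem ⟨_, rfl⟩) (mem_Sup_univ c)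

theorem bd_aff (k : ℕ) (v : Fin (k + 2) → K) : bd (sg (A.aff (k + 1) v)) =
    ∑ j : Fin (k + 2), ((-1 : ℚ) ^ (j : ℕ)) • sg (A.aff k (fun i => v (j.succAbove i))) := by
  simp only [bd_sg, A.fac]

theorem push_mem {f : C(K, K')} (hf : A.IsAffMap B f) (k : ℕ) {c : Ch K k} (hc : c ∈ A.AS k) :
    push f c ∈ B.AS k := by
  apply Sup_map _ _ _ hc
  rintro _ ⟨v, rfl⟩
  rw [push_sg, hf]
  exact sg_mem ⟨_, rfl⟩

theorem push_cone {f : C(K, K')} (hf : A.IsAffMap B f) (b : K) (k : ℕ) {c : Ch K k}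
    (hc : c ∈ A.AS k) : push f (A.cone b k c) = B.cone (f b) k (push f c) := by
  apply Sup_eq ((push f).comp (A.cone b k)) ((B.cone (f b) k).comp (push f)) _ hc
  rintro _ ⟨v, rfl⟩
  simp only [LinearMap.comp_apply, cone_aff, push_sg, hf k v, hf (k + 1)]
  congr 2
  funext i
  refine Fin.cases ?_ (fun i => ?_) i <;> simp

theorem bd_cone (b : K) (k : ℕ) {c : Ch K (k + 1)} (hc : c ∈ A.AS (k + 1)) :
    bd (A.cone b (k + 1) c) = c - A.cone b k (bd c) := by
  refine (Sup_eq (bd.comp (A.cone b (k + 1))) (LinearMap.id - (A.cone b k).comp bd) ?_ hc).trans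
    (by simp)
  rintro _ ⟨v, rfl⟩
  simp only [LinearMap.comp_apply, LinearMap.sub_apply, LinearMap.id_apply, cone_aff, bd_aff,
    map_sum, map_smul]
  rw [Fin.sum_univ_succ]
  simp only [Fin.val_zero, pow_zero, one_smul, Fin.zero_succAbove, Fin.cons_succ, Fin.val_succ,
    pow_succ, mul_neg, mul_one, neg_smul, Finset.sum_neg_distrib, sub_eq_add_neg]
  congr 2
  apply Finset.sum_congr rfl
  intro j _
  congr 3
  funext i
  refine Fin.cases ?_ (fun i => ?_) i <;> simp

/-- augmentation -/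
def aug : Ch X 0 →ₗ[ℚ] ℚ := ext1 (fun _ => 1)

theorem aug_bd (c : Ch X 1) : aug (bd c) = 0 := by
  apply ext1_bd_zero
  intro σ
  simp [cob]

theorem bd_cone0 (b : K) {c : Ch K 0} (hc : c ∈ A.AS 0) (h0 : aug c = 0) :
    bd (A.cone b 0 c) = c := by
  have := Sup_eq (bd.comp (A.cone b 0))
    (LinearMap.id - (LinearMap.toSpanSingleton ℚ _ (sg (A.aff 0 (fun _ => b)))).comp aug)
    (by
      rintro _ ⟨v, rfl⟩
      simp only [LinearMap.comp_apply, LinearMap.sub_apply, LinearMap.id_apply, cone_aff, bd_aff,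
        aug, ext1_sg, LinearMap.toSpanSingleton_apply, one_smul]
      rw [Fin.sum_univ_two]
      simp only [Fin.val_zero, pow_zero, one_smul, Fin.zero_succAbove, Fin.cons_succ,
        Fin.val_one, pow_one, neg_smul, sub_eq_add_neg]
      congr 4
      funext i
      fin_cases i
      rfl) hc
  simpa [h0] using this

end Aff

theorem caff_aff {E : Type} [NormedAddCommGroup E] [NormedSpace ℝ E] {K : Set E}
    (hK : Convex ℝ K) (m : ℕ) (w : Fin (m + 1) → K) :
    (sxAff m).IsAffMap (convAff hK) (caff hK m w) := by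
  intro k v
  ext1 t
  apply Subtype.ext
  show (caff hK m w (caff (convex_stdSimplex ℝ (Fin (m + 1))) k v t) : E) = (caff hK k _ t : E)
  rw [caff_val, caff_val]
  simp only [caff_val, Finset.smul_sum, smul_smul]
  rw [Finset.sum_comm]
  apply Finset.sum_congr rfl
  intro j _
  rw [← Finset.sum_smul]
  congr 1
  have : ((caff (convex_stdSimplex ℝ (Fin (m + 1))) k v t : Sx m) : Fin (m + 1) → ℝ) =
      ∑ i, t i • (v i : Fin (m + 1) → ℝ) := rfl
  show ((caff (convex_stdSimplex ℝ (Fin (m + 1))) k v t : Sx m) : Fin (m + 1) → ℝ) j = _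
  rw [this, Finset.sum_apply]
  rfl

theorem id_eq_aff (n : ℕ) : ContinuousMap.id (Sx n) = (sxAff n).aff n vx := by
  ext1 t
  apply Subtype.ext
  show t.1 = (caff (convex_stdSimplex ℝ (Fin (n + 1))) n vx t).1
  rw [caff_val]
  funext j
  rw [Finset.sum_apply]
  simp [Pi.single_apply]
  rfl

theorem face_eq_aff (n : ℕ) (j : Fin (n + 2)) :
    face n j = (sxAff (n + 1)).aff n (fun i => vx (j.succAbove i)) := by
  rw [← (sxAff (n + 1)).fac n vx j, ← id_eq_aff]
  rfl

theorem face_aff (n : ℕ) (j : Fin (n + 2)) : (sxAff n).IsAffMap (sxAff (n + 1)) (face n j) := by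
  rw [face_eq_aff]
  exact caff_aff _ n _

end

end Pool.Agent.MP_1c689d_ag

end
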