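import Pool.Agent.MP_1c689d_ag.Defs
import Pool.Agent.Mg.F1c689d.Gbeb1d0
import Pool.Agent.Mg.F1c689d.Ge70af9
import Pool.Agent.Mg.F1c689d.Ga42b27
import Pool.Agent.Mg.F1c689d.G8ed24b
import Pool.Agent.Mg.F1c689d.G07f42f
import Pool.Agent.Mg.F1c689d.G74563b

set_option linter.all false


section

/-! Cones over singular simplices. -/

set_option autoImplicit false

open Complex Filter Topology Set MeasureTheory
open scoped ComplexConjugate ContDiff ENNReal

namespace Pool.Agent.MP_1c689d_ag.K0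

noncomputable section

variable {X : Type} [TopologicalSpace X]

/-- The singular simplices in `W` have cones with vertex `x`. -/
def ZCn (W : Set X) (x : X) : Prop :=
  ∃ cn : ∀ p : ℕ, C(Sx p, X) → C(Sx (p + 1), X),
    (∀ p (σ : C(Sx p, X)), range σ ⊆ W → range (cn p σ) ⊆ W ∧ (cn p σ).comp (face p 0) = σ) ∧
    (∀ p (σ : C(Sx (p + 1), X)) (j : Fin (p + 2)), range σ ⊆ W →
      (cn (p + 1) σ).comp (face (p + 1) j.succ) = cn p (σ.comp (face p j))) ∧
    ∀ σ : C(Sx 0, X), range σ ⊆ W → (cn 0 σ).comp (face 0 1) = ContinuousMap.const _ x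

theorem ZZCn_face (p : ℕ) (j : Fin (p + 2)) (s : Sx p) :
    (face p j s).1 = Fin.insertNth j 0 s.1 := by
  funext k
  change FunOnFinite.linearMap ℝ ℝ j.succAbove s.1 k = _
  rw [FunOnFinite.linearMap_apply_apply]
  cases k using Fin.succAboveCases j with
  | x => simp
  | p i => simp [Finset.filter_eq']

/-- The cone map. -/
def ZZCn_q (p : ℕ) : C(Sx p × unitInterval, Sx (p + 1)) where
  toFun a := ⟨Fin.cons a.2.1 ((1 - a.2.1) • a.1.1),
    fun k => Fin.cases a.2.2.1 (fun i => mul_nonneg (sub_nonneg.2 a.2.2.2) (a.1.2.1 i)) k, by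
      rw [Fin.sum_univ_succ]
      simp only [Fin.cons_zero, Fin.cons_succ, Pi.smul_apply, smul_eq_mul, ← Finset.mul_sum,
        a.1.2.2]
      ring⟩
  continuous_toFun := Continuous.subtype_mk (Continuous.finCons (by fun_prop) (by fun_prop)) _

theorem ZZCn_val (p : ℕ) (a : Sx p × unitInterval) :
    (ZZCn_q p a).1 = Fin.cons a.2.1 ((1 - a.2.1) • a.1.1) := rfl

theorem ZZCn_surj (p : ℕ) : Function.Surjective (ZZCn_q p) := by
  intro u
  have h1 : ∑ i : Fin (p + 1), u.1 i.succ = 1 - u.1 0 := by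
    rw [← u.2.2, Fin.sum_univ_succ u.1, add_sub_cancel_left]
  have h2 : 0 ≤ 1 - u.1 0 := h1 ▸ Finset.sum_nonneg fun i _ => u.2.1 _
  obtain ⟨s, hs⟩ : ∃ s : Sx p, (1 - u.1 0) • s.1 = Fin.tail u.1 := by
    by_cases c : 1 - u.1 0 = 0
    · refine ⟨Classical.arbitrary _, funext fun i => ?_⟩
      rw [c, zero_smul]
      exact ((Finset.sum_eq_zero_iff_of_nonneg fun i _ => u.2.1 _).1 (h1.trans c) i
        (Finset.mem_univ i)).symm
    · refine ⟨⟨(1 - u.1 0)⁻¹ • Fin.tail u.1, fun i => mul_nonneg (inv_nonneg.2 h2) (u.2.1 _), ?_⟩,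
        smul_inv_smul₀ c _⟩
      simp only [Pi.smul_apply, smul_eq_mul, ← Finset.mul_sum, Fin.tail, h1]
      exact inv_mul_cancel₀ c
  refine ⟨(s, ⟨u.1 0, u.2.1 0, sub_nonneg.1 h2⟩), Subtype.ext ?_⟩
  rw [ZZCn_val, hs]
  exact Fin.cons_self_tail u.1

/-- The map `q (s, t) = Fin.cons t ((1 - t) • s)` onto the simplex of one more dimension. It is a
continuous surjection from a compact space to a Hausdorff space, so a quotient map
(`IsClosedMap.isQuotientMap`, `Continuous.isClosedMap`). The coordinates of `stdSimplex.map f s`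
are given by `stdSimplex.map_coe`, `FunOnFinite.linearMap_apply_apply`: for `f` injective the
coordinate `f i` is `s i` and the other coordinates vanish. -/
theorem zz_q : ∃ q : ∀ p : ℕ, C(Sx p × unitInterval, Sx (p + 1)),
    (∀ p, IsQuotientMap (q p)) ∧
    (∀ p a b, q p a = q p b → a.2 = b.2 ∧ (a.2 = 1 ∨ a.1 = b.1)) ∧
    (∀ p s, q p (s, 0) = face p 0 s) ∧
    (∀ p (j : Fin (p + 2)) s t, q (p + 1) (face p j s, t) = face (p + 1) j.succ (q p (s, t))) ∧
    ∀ s s', q 0 (s, 1) = face 0 1 s' := by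
  refine ⟨ZZCn_q, fun p => (ZZCn_q p).continuous.isClosedMap.isQuotientMap (ZZCn_q p).continuous
    (ZZCn_surj p), fun p a b h => ?_, fun p s => Subtype.ext ?_, fun p j s t => Subtype.ext ?_,
    fun s s' => Subtype.ext ?_⟩
  · have h1 := congrArg Subtype.val h
    rw [ZZCn_val, ZZCn_val, Fin.cons_inj] at h1
    refine ⟨Subtype.ext h1.1, or_iff_not_imp_left.2 fun c => Subtype.ext ?_⟩
    have h2 := h1.2
    rw [← h1.1] at h2
    exact smul_right_injective _ (sub_ne_zero.2 fun d => c (Subtype.ext d.symm)) h2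
  · rw [ZZCn_val, ZZCn_face, Fin.insertNth_zero']
    simp
  · rw [ZZCn_val, ZZCn_face, ZZCn_face, ZZCn_val, Fin.insertNth_succ_cons]
    refine congrArg _ (funext fun k => ?_)
    cases k using Fin.succAboveCases j with
    | x => simp
    | p i => simp
  · have h : s'.1 0 = 1 := by simpa using s'.2.2
    rw [ZZCn_val, ZZCn_face]
    funext k
    cases k using Fin.succAboveCases 1 with
    | x =>
      rw [Fin.insertNth_apply_same]
      simp
    | p i =>
      rw [Fin.insertNth_apply_succAbove, Subsingleton.elim i 0, h]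
      rfl

/-- For `range σ ⊆ W` let `cn p σ` be the map induced by `H` on the quotient
(`IsQuotientMap.lift`, or choose a section of `q p` and use `IsQuotientMap.continuous_iff`);
otherwise take a constant map. -/
theorem zz_cn {W : Set X} {x : X} (H : X × unitInterval → X) (hc : ContinuousOn H (W ×ˢ univ))
    (hW : ∀ y ∈ W, ∀ t, H (y, t) ∈ W) (h0 : ∀ y ∈ W, H (y, 0) = y) (h1 : ∀ y ∈ W, H (y, 1) = x) :
    ZCn W x := by
  obtain ⟨q, q1, q2, q3, q4, q5⟩ := zz_q
  have key : ∀ (p : ℕ) (σ : C(Sx p, X)), ∃ c : C(Sx (p + 1), X), range σ ⊆ W →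
      ∀ a, c (q p a) = H (σ a.1, a.2) := fun p σ => by
    by_cases hσ : range σ ⊆ W
    · have e : ∀ a, H (σ (Function.surjInv (q1 p).surjective (q p a)).1,
          (Function.surjInv (q1 p).surjective (q p a)).2) = H (σ a.1, a.2) := fun a => by
        obtain ⟨k1, k2 | k2⟩ := q2 p _ _ (Function.surjInv_eq (q1 p).surjective (q p a))
        · rw [← k1, k2, h1 _ (hσ ⟨_, rfl⟩), h1 _ (hσ ⟨_, rfl⟩)]
        · rw [k1, k2]
      refine ⟨⟨fun u => H (σ (Function.surjInv (q1 p).surjective u).1,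
        (Function.surjInv (q1 p).surjective u).2), (q1 p).continuous_iff.2 ?_⟩, fun _ => e⟩
      exact (hc.comp_continuous (f := fun a : Sx p × unitInterval => (σ a.1, a.2)) (by fun_prop)
        fun a => ⟨hσ ⟨_, rfl⟩, trivial⟩).congr fun a => (e a).symm
    · exact ⟨ContinuousMap.const _ x, fun k => absurd k hσ⟩
  choose cn hcn using key
  refine ⟨cn, fun p σ hσ => ⟨?_, ContinuousMap.ext fun s => ?_⟩,
    fun p σ j hσ => ContinuousMap.ext fun u => ?_, fun σ hσ => ContinuousMap.ext fun s => ?_⟩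
  · rintro _ ⟨u, rfl⟩
    obtain ⟨a, rfl⟩ := (q1 p).surjective u
    rw [hcn p σ hσ]
    exact hW _ (hσ ⟨_, rfl⟩) _
  · rw [ContinuousMap.comp_apply, ← q3, hcn p σ hσ, h0 _ (hσ ⟨_, rfl⟩)]
  · obtain ⟨⟨s, t⟩, rfl⟩ := (q1 p).surjective u
    rw [ContinuousMap.comp_apply, ← q4, hcn _ σ hσ,
      hcn p (σ.comp (face p j)) ((range_comp_subset_range (face p j) σ).trans hσ)]
    rfl
  · rw [ContinuousMap.comp_apply, ← q5 s, hcn _ σ hσ, h1 _ (hσ ⟨_, rfl⟩)]
    rfl

/-- With `e = ch n x` take `W = e.source ∩ e ⁻¹' ball (e x) r` for a small ball in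
`e.target ∩ e.symm ⁻¹' O` and `H (y, t) = e.symm (e y + t • (e x - e y))`. -/
theorem zz_cn_mf (n : ℕ) [Mf n X] (x : X) {O : Set X} (hO : O ∈ 𝓝 x) :
    ∃ W ∈ 𝓝 x, W ⊆ O ∧ ZCn W x := by
  have hx : x ∈ (ch n x).source := mem_chart_source (E n) x
  generalize ch n x = e at hx
  have h1 : e.target ∩ e.symm ⁻¹' O ∈ 𝓝 (e x) :=
    inter_mem (e.open_target.mem_nhds (e.map_source hx))
      (e.continuousAt_symm (e.map_source hx) (by rwa [e.left_inv hx]))
  obtain ⟨r, hr, h2⟩ := Metric.mem_nhds_iff.1 h1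
  have h3 : ∀ y ∈ e.source ∩ e ⁻¹' Metric.ball (e x) r, ∀ t : unitInterval,
      e y + t.1 • (e x - e y) ∈ Metric.ball (e x) r := fun y hy t =>
    (convex_ball _ _).add_smul_sub_mem hy.2 (Metric.mem_ball_self hr) t.2
  refine ⟨e.source ∩ e ⁻¹' Metric.ball (e x) r, inter_mem (e.open_source.mem_nhds hx)
    (e.continuousAt hx (Metric.ball_mem_nhds _ hr)), fun y hy => e.left_inv hy.1 ▸ (h2 hy.2).2,
    zz_cn (fun a => e.symm (e a.1 + a.2.1 • (e x - e a.1))) ?_ (fun y hy t => ?_)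
      (fun y hy => ?_) fun y hy => ?_⟩
  · have h4 : ContinuousOn (fun a : X × unitInterval => e a.1)
        ((e.source ∩ e ⁻¹' Metric.ball (e x) r) ×ˢ univ) :=
      e.continuousOn.comp continuousOn_fst fun a ha => ha.1.1
    exact e.continuousOn_symm.comp (h4.add ((continuous_subtype_val.comp
      continuous_snd).continuousOn.smul (continuousOn_const.sub h4))) fun a ha => (h2 (h3 _ ha.1 _)).1
  · refine ⟨e.map_target (h2 (h3 y hy t)).1, ?_⟩
    rw [mem_preimage, e.right_inv (h2 (h3 y hy t)).1]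
    exact h3 y hy t
  · simp [e.left_inv hy.1]
  · simp [e.left_inv hx]

end

end Pool.Agent.MP_1c689d_ag.K0

end

section

/-! Singular cochains with values in a complex. -/

set_option autoImplicit false

open Complex Filter Topology Set MeasureTheory
open scoped ComplexConjugate ContDiff ENNReal

namespace Pool.Agent.MP_1c689d_ag.K0

noncomputable section

variable {X : Type} [TopologicalSpace X] {A B : Type} [AddCommGroup A] [AddCommGroup B]

/-- Singular cochains with values in `A`. -/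
abbrev ZM (X : Type) [TopologicalSpace X] (A : Type) : Type := ∀ p : ℕ, C(Sx p, X) → A

/-- The coboundary. -/
def zcob {p : ℕ} (m : C(Sx p, X) → A) (σ : C(Sx (p + 1), X)) : A :=
  ∑ j : Fin (p + 2), (-1 : ℤ) ^ (j : ℕ) • m (σ.comp (face p j))

/-- The total differential. -/
def zsd (d : A →+ A) (m : ZM X A) : ZM X A
  | 0 => fun σ => d (m 0 σ)
  | p + 1 => fun σ => zcob (m p) σ + (-1 : ℤ) ^ (p + 1) • d (m (p + 1) σ)

theorem zcob_add {p : ℕ} (m m' : C(Sx p, X) → A) (σ : C(Sx (p + 1), X)) :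
    zcob (m + m') σ = zcob m σ + zcob m' σ := by
  simp only [zcob, Pi.add_apply, smul_add, Finset.sum_add_distrib]

theorem zcob_map {p : ℕ} (φ : A →+ B) (m : C(Sx p, X) → A) (σ : C(Sx (p + 1), X)) :
    φ (zcob m σ) = zcob (fun τ => φ (m τ)) σ := by
  simp only [zcob, map_sum, map_zsmul]

theorem zcob_zsmul {p : ℕ} (k : ℤ) (m : C(Sx p, X) → A) (σ : C(Sx (p + 1), X)) :
    zcob (fun τ => k • m τ) σ = k • zcob m σ := by
  simp only [zcob, Finset.smul_sum, smul_comm k]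

theorem zcob_zero {p : ℕ} (σ : C(Sx (p + 1), X)) : zcob (fun _ => (0 : A)) σ = 0 := by
  simp only [zcob, smul_zero, Finset.sum_const_zero]

theorem zcob_mem {p : ℕ} {S : AddSubgroup A} {m : C(Sx p, X) → A} {σ : C(Sx (p + 1), X)}
    (h : ∀ j, m (σ.comp (face p j)) ∈ S) : zcob m σ ∈ S :=
  sum_mem fun j _ => zsmul_mem (h j) _

theorem zcob_zcob {p : ℕ} (m : C(Sx p, X) → A) (σ : C(Sx (p + 2), X)) :
    zcob (zcob m) σ = 0 := by
  simp only [zcob, Finset.smul_sum, smul_smul]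
  rw [← Finset.sum_product']
  apply Finset.sum_involution
    (fun (q : Fin (p + 3) × Fin (p + 2)) _ => (q.1.succAbove q.2, q.2.predAbove q.1))
  · rintro ⟨j, i⟩ _
    simp only
    rw [ContinuousMap.comp_assoc, ContinuousMap.comp_assoc, ← face_face, ← add_smul, ← pow_add,
      ← pow_add, Fin.neg_one_pow_succAbove_add_predAbove, add_neg_cancel, zero_smul]
  · rintro ⟨j, i⟩ _ _ h
    exact Fin.succAbove_ne j i (Prod.ext_iff.mp h).1
  · intro _ _
    simp
  · rintro ⟨j, i⟩ _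
    simp only [Prod.mk.injEq]
    exact ⟨Fin.succAbove_succAbove_predAbove j i, Fin.predAbove_predAbove_succAbove j i⟩

theorem zsd_add (d : A →+ A) (m m' : ZM X A) : zsd d (m + m') = zsd d m + zsd d m' := by
  funext p σ
  rcases p with _ | p
  · exact map_add d _ _
  · simp only [zsd, Pi.add_apply, zcob_add, map_add, smul_add]
    abel

theorem zsd_zsd {d : A →+ A} (h : ∀ a, d (d a) = 0) (m : ZM X A) : zsd d (zsd d m) = 0 := by
  funext p σ
  rcases p with _ | _ | p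
  · exact h _
  · change zcob (fun τ => d (m 0 τ)) σ + _ • d (zcob (m 0) σ + _ • d _) = 0
    rw [map_add, map_zsmul, h, smul_zero, add_zero, zcob_map]
    simp
  · change zcob (zcob (m p) + fun τ => _ • d (m (p + 1) τ)) σ +
      _ • d (zcob (m (p + 1)) σ + _ • d _) = 0
    rw [map_add, map_zsmul, h, smul_zero, add_zero, zcob_map, zcob_add, zcob_zcob, zcob_zsmul,
      zero_add, ← add_smul, pow_succ _ (p + 1), mul_neg_one, add_neg_cancel, zero_smul]

theorem zz_face {p : ℕ} {σ : C(Sx (p + 1), X)} {W : Set X} (h : range σ ⊆ W) (j : Fin (p + 2)) :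
    range (σ.comp (face p j)) ⊆ W := (range_comp_subset_range (face p j) σ).trans h

/-- The total complex. -/
def ZC.sc (P : ZC X A) : ZC X (ZM X A) where
  G q :=
    { carrier := {m | ∀ p σ, (∀ r, p + r = q → m p σ ∈ P.G r) ∧ (q < p → m p σ = 0)}
      zero_mem' := fun _ _ => ⟨fun _ _ => zero_mem _, fun _ => rfl⟩
      add_mem' := fun {a b} h h' p σ => ⟨fun r e => add_mem ((h p σ).1 r e) ((h' p σ).1 r e),
        fun e => by
          change a p σ + b p σ = 0
          rw [(h p σ).2 e, (h' p σ).2 e, add_zero]⟩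
      neg_mem' := fun h p σ => ⟨fun r e => neg_mem ((h p σ).1 r e),
        fun e => neg_eq_zero.2 ((h p σ).2 e)⟩ }
  d := AddMonoidHom.mk' (zsd P.d) (zsd_add P.d)
  N m := {x | ∃ W ∈ 𝓝 x, ∀ p (σ : C(Sx p, X)), range σ ⊆ W → W ⊆ P.N (m p σ)}
  op m := isOpen_iff_mem_nhds.2 fun _ ⟨W, h1, h2⟩ =>
    (eventually_mem_nhds_iff.2 h1).mono fun _ hy => ⟨W, hy, h2⟩
  N0 := eq_univ_of_forall fun _ => ⟨univ, univ_mem, fun _ _ _ y _ => P.N_zero y⟩
  Nsub _ _ _ := fun ⟨⟨W, h1, h2⟩, W', h3, h4⟩ => ⟨W ∩ W', inter_mem h1 h3, fun p σ h _ hy =>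
    ZC.N_sub (h2 p σ (h.trans inter_subset_left) hy.1) (h4 p σ (h.trans inter_subset_right) hy.2)⟩
  Nd m _ := fun ⟨W, h1, h2⟩ => ⟨W, h1, fun p σ h y hy => by
    rcases p with _ | p
    · exact P.Nd _ (h2 0 σ h hy)
    · exact ZC.N_add (zcob_mem (S := P.Z y) fun j => h2 p _ (zz_face h j) hy)
        (ZC.N_zsmul (P.Nd _ (h2 _ σ h hy)) _)⟩
  dd := zsd_zsd P.dd
  dG q m h p σ := by
    have h1 : ∀ p σ r, p + r = q + 1 → P.d (m p σ) ∈ P.G r := fun p σ r e => by
      rcases r with _ | r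
      · rw [(h p σ).2 (by omega), map_zero]
        exact zero_mem _
      · exact P.dG r _ ((h p σ).1 r (by omega))
    rcases p with _ | p
    · exact ⟨h1 0 σ, fun e => absurd e (Nat.not_lt_zero _)⟩
    · refine ⟨fun r e => add_mem (zcob_mem fun j => (h p _).1 r (by omega))
        (zsmul_mem (h1 _ σ r e) _), fun e => ?_⟩
      change zcob (m p) σ + _ • P.d (m (p + 1) σ) = 0
      rw [(h _ σ).2 (by omega), map_zero, smul_zero, add_zero]
      exact zcob_mem (S := ⊥) fun j => (h p _).2 (by omega)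

/-- The constant cochains of degree zero. -/
def zsi (X : Type) [TopologicalSpace X] (A : Type) [AddCommGroup A] : A →+ ZM X A :=
  AddMonoidHom.mk' (fun a p _ => if p = 0 then a else 0) fun a b => by
    funext p σ
    simp only [Pi.add_apply]
    split_ifs
    · rfl
    · rw [add_zero]

/-- The map induced on cochains. -/
def zsm (X : Type) [TopologicalSpace X] (φ : A →+ B) : ZM X A →+ ZM X B :=
  AddMonoidHom.mk' (fun m p σ => φ (m p σ)) fun _ _ => funext fun _ => funext fun _ =>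
    map_add φ _ _

theorem zsm_zsi (φ : A →+ B) (a : A) : zsm X φ (zsi X A a) = zsi X B (φ a) := by
  funext p σ
  rcases p with _ | p
  · rfl
  · exact map_zero φ

theorem zsi_hom (P : ZC X A) : ZC.Hom P P.sc (zsi X A) where
  G q a h p σ := by
    rcases p with _ | p
    · exact ⟨fun r e => by rwa [← zero_add r, e], fun e => absurd e (Nat.not_lt_zero _)⟩
    · exact ⟨fun r _ => zero_mem _, fun _ => rfl⟩
  d a := by
    funext p σ
    rcases p with _ | _ | p
    · rfl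
    · change 0 = zcob (fun _ => a) σ + _ • P.d 0
      simp [zcob]
    · change 0 = zcob (fun _ => 0) σ + _ • P.d 0
      rw [zcob_zero, map_zero, smul_zero, add_zero]
  N a x h := ⟨P.N a, (P.op a).mem_nhds h, fun p σ _ y hy => by
    rcases p with _ | p
    · exact hy
    · exact P.N_zero y⟩

theorem zsm_hom {P : ZC X A} {Q : ZC X B} {φ : A →+ B} (h : ZC.Hom P Q φ) :
    ZC.Hom P.sc Q.sc (zsm X φ) where
  G q m hm p σ := ⟨fun r e => h.G r _ ((hm p σ).1 r e), fun e => by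
    change φ (m p σ) = 0
    rw [(hm p σ).2 e, map_zero]⟩
  d m := by
    funext p σ
    rcases p with _ | p
    · exact h.d _
    · change φ (zcob (m p) σ + _ • P.d _) = zcob (fun τ => φ (m p τ)) σ + _ • Q.d (φ _)
      rw [map_add, map_zsmul, zcob_map, h.d]
  N _ _ := fun ⟨W, h1, h2⟩ => ⟨W, h1, fun p σ hσ => (h2 p σ hσ).trans (h.N _)⟩

theorem sc_fine [T2Space X] (P : ZC X A) : P.sc.Fine := by
  classical
  intro q m hm K K' hK hK' hd
  obtain ⟨O, O', h1, h2, h3, h4, h5⟩ := SeparatedNhds.of_isCompact_isCompact hK hK' hd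
  refine ⟨fun p σ => if σ (stdSimplex.vertex 0) ∈ O then m p σ else 0, fun p σ => ?_,
    fun x hx => ⟨O, h1.mem_nhds (h3 hx), fun p σ hσ y _ => ?_⟩,
    fun x hx => ⟨O', h2.mem_nhds (h4 hx), fun p σ hσ y _ => ?_⟩,
    fun x ⟨W, w1, w2⟩ => ⟨W, w1, fun p σ hσ y hy => ?_⟩⟩
  · dsimp only
    split_ifs
    · exact hm p σ
    · exact ⟨fun _ _ => zero_mem _, fun _ => rfl⟩
  · exact ZC.N_of_eq (P.N_zero y) (sub_eq_zero.2 (if_pos (hσ (mem_range_self _))))
  · exact ZC.N_of_eq (P.N_zero y)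
      (if_neg fun h => disjoint_left.1 h5 h (hσ (mem_range_self _)))
  · dsimp only
    split_ifs
    · exact w2 p σ hσ hy
    · exact P.N_zero y

theorem zz_hty (P : ZC X A) {W : Set X} {x : X} (h : ZCn W x) (m : ZM X A) :
    ∃ cn : ∀ p : ℕ, C(Sx p, X) → C(Sx (p + 1), X), ∀ p (σ : C(Sx p, X)), range σ ⊆ W →
      range (cn p σ) ⊆ W ∧
      (zsd P.d (fun p σ => m (p + 1) (cn p σ)) + zsi X A (m 0 (ContinuousMap.const _ x)) - m) p σ =
        -zsd P.d m (p + 1) (cn p σ) := by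
  obtain ⟨cn, h1, h2, h3⟩ := h
  refine ⟨cn, fun p σ hσ => ⟨(h1 p σ hσ).1, ?_⟩⟩
  rcases p with _ | p
  · change P.d _ + m 0 _ - m 0 σ = -(zcob (m 0) (cn 0 σ) + _ • P.d _)
    rw [zcob, Fin.sum_univ_two, (h1 0 σ hσ).2, h3 σ hσ]
    simp only [Fin.val_zero, pow_zero, one_smul, Fin.val_one, pow_one, neg_smul, zero_add]
    abel
  · change zcob (fun τ => m (p + 1) (cn p τ)) σ + _ • P.d _ + 0 - m (p + 1) σ =
      -(zcob (m (p + 1)) (cn (p + 1) σ) + _ • P.d _)
    rw [zcob, zcob, Fin.sum_univ_succ (n := p + 2), (h1 _ σ hσ).2]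
    simp only [h2 p σ _ hσ, Fin.val_zero, pow_zero, one_smul, Fin.val_succ, pow_succ _ (p + 1),
      pow_succ _ (_ : Fin (p + 2)).val, mul_neg_one, neg_smul, Finset.sum_neg_distrib]
    abel

theorem sc_res {P : ZC X A} {u : ℂ → A} (hP : P.Res u)
    (hX : ∀ (x : X), ∀ O ∈ 𝓝 x, ∃ W ∈ 𝓝 x, W ⊆ O ∧ ZCn W x) : P.sc.Res (zsi X A ∘ u) := by
  have key : ∀ (m : ZM X A), ∀ x ∈ P.sc.N (P.sc.d m),
      x ∈ P.N (P.d (m 0 (ContinuousMap.const _ x))) ∧
      ∃ cn : ∀ p : ℕ, C(Sx p, X) → C(Sx (p + 1), X), x ∈ P.sc.N (P.sc.d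
        (fun p σ => m (p + 1) (cn p σ)) + zsi X A (m 0 (ContinuousMap.const _ x)) - m) := by
    rintro m x ⟨O, h1, h2⟩
    obtain ⟨W, w1, w2, w3⟩ := hX x O h1
    obtain ⟨cn, h3⟩ := zz_hty P w3 m
    refine ⟨h2 0 _ (range_subset_iff.2 fun _ => mem_of_mem_nhds h1) (mem_of_mem_nhds h1), cn, W,
      w1, fun p σ hσ y hy => ZC.N_of_eq (ZC.N_neg ?_) (h3 p σ hσ).2⟩
    exact h2 _ _ ((h3 p σ hσ).1.trans w2) (w2 hy)
  have hh := zsi_hom P
  refine ⟨by rw [Function.comp, hP.u0, map_zero], fun c => hh.G 0 _ (hP.uG c),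
    fun c => by rw [Function.comp, ← hh.d, hP.du, map_zero], fun c x ⟨W, h1, h2⟩ => hP.ne c x
      (h2 0 (ContinuousMap.const _ x) (range_subset_iff.2 fun _ => mem_of_mem_nhds h1)
        (mem_of_mem_nhds h1)), fun m hm x hx => ?_, fun q m hm x hx => ?_⟩
  · obtain ⟨h1, cn, h2⟩ := key m x hx
    obtain ⟨c, hc⟩ := hP.ex0 _ ((hm 0 _).1 0 rfl) x h1
    rw [show (fun p σ => m (p + 1) (cn p σ)) = 0 from funext fun p => funext fun σ =>
      (hm _ _).2 (Nat.succ_pos p), map_zero, zero_add] at h2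
    refine ⟨c, ZC.N_of_eq (ZC.N_add (hh.N _ hc) h2) ?_⟩
    rw [map_sub, sub_add_sub_cancel, Function.comp]
  · obtain ⟨h1, cn, h2⟩ := key m x hx
    obtain ⟨b, hb, hc⟩ := hP.ex q _ ((hm 0 _).1 _ (zero_add _)) x h1
    refine ⟨(fun p σ => m (p + 1) (cn p σ)) + zsi X A b, add_mem (fun p σ =>
      ⟨fun r e => (hm _ _).1 r (by omega), fun e => (hm _ _).2 (by omega)⟩) (hh.G q b hb),
      ZC.N_of_eq (ZC.N_add (hh.N _ hc) h2) ?_⟩
    rw [map_sub, map_add, hh.d]
    abel

/-- The constants as a complex. -/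
def zkc (X : Type) [TopologicalSpace X] : ZC X ℂ where
  G q := if q = 0 then ⊤ else ⊥
  d := 0
  N c := {_x | c = 0}
  op _ := isOpen_const
  N0 := eq_univ_of_forall fun _ => rfl
  Nsub _ _ _ h := sub_eq_zero.2 (h.1.trans h.2.symm)
  Nd _ _ _ := rfl
  dd _ := rfl
  dG _ _ _ := zero_mem _

theorem zkc_res : (zkc X).Res id :=
  ⟨rfl, fun _ => trivial, fun _ => rfl, fun _ _ h => h, fun a _ _ _ => ⟨a, sub_self a⟩,
    fun _ _ h _ _ => ⟨0, zero_mem _, sub_eq_zero.2 (Eq.symm h)⟩⟩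

theorem zkc_hom {P : ZC X A} {u : ℂ →+ A} (h : P.Res u) : ZC.Hom (zkc X) P u where
  G q c hc := by
    rcases q with _ | q
    · exact h.uG c
    · rw [show c = 0 from hc, map_zero]
      exact zero_mem _
  d c := (map_zero u).trans (h.du c).symm
  N c x hx := ZC.N_of_eq (P.N_zero x) (by rw [show c = 0 from hx, map_zero])

end

end Pool.Agent.MP_1c689d_ag.K0

end

section

/-! Charts with frames. -/

set_option autoImplicit false

open Complex Filter Topology Set MeasureTheory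
open scoped ComplexConjugate ContDiff ENNReal NNReal

namespace Pool.Agent.MP_1c689d_ag.K0.L2

noncomputable section

variable {n : ℕ} {X : Type} [TopologicalSpace X] [Mf n X] {G : Ga X} (D : Loc n G)

/-- Restrict `ch n p` (`IsCh.restrOpen`) to an open set on which `G p` is a frame (`GOk.frame`,
`GOk.ne`). -/
theorem exists_loc (hG : ∀ p, GOk G p) (p : X) : ∃ D : Loc n G, p ∈ D.e.source := by
  obtain ⟨s, h1, h2, h3⟩ := eventually_nhds_iff.1 ((hG p).frame.and (hG p).ne)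
  exact ⟨⟨(ch n p).restrOpen s h2, (isCh_ch p).restrOpen s h2, G p, fun y hy => (h1 y hy.2).1,
    fun y hy => (h1 y hy.2).2⟩, mem_chart_source _ p, h3⟩

namespace Loc

variable {v w : E n → Λ n} {V W : Fm n X} {y : X} {z : E n} {a b : ℕ}

theorem CHa_up (hy : y ∈ D.e.source) : D.up v y = D.σ y • pb D.e v y := indicator_of_mem hy _

theorem CHa_up0 (hy : y ∉ D.e.source) : D.up v y = 0 := indicator_of_notMem hy _

theorem CHa_dn (hz : z ∈ D.e.target) :
    D.dn V z = pb D.e.symm ((fun y => (D.σ y)⁻¹) • V) z := indicator_of_mem hz _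

theorem CHa_dn0 (hz : z ∉ D.e.target) : D.dn V z = 0 := indicator_of_notMem hz _

theorem CHa_up_ev (hy : y ∈ D.e.source) : D.σ • pb D.e v =ᶠ[𝓝 y] D.up v := by
  filter_upwards [D.e.open_source.mem_nhds hy] with y' hy'
  exact (D.CHa_up hy').symm

theorem CHa_dn_ev (hz : z ∈ D.e.target) :
    D.dn V =ᶠ[𝓝 z] pb D.e.symm ((fun y => (D.σ y)⁻¹) • V) := by
  filter_upwards [D.e.open_target.mem_nhds hz] with z' hz'
  exact D.CHa_dn hz'

theorem CHa_gauge (hG : GOk G y) : (G⁻¹ * G) y =ᶠ[𝓝 y] (1 : Ga X) y := by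
  rw [mul_comm]
  exact hG.mul_inv

theorem CHa_inv (hG : GOk G y) (hy : y ∈ D.e.source) : HolAt G⁻¹ (fun y => (D.σ y)⁻¹) y :=
  (D.hol y hy).inv hG (D.ne y hy)

theorem CHa_sm (hG : GOk G y) (hy : y ∈ D.e.source) (h : SmAt G V y) :
    SmAt 1 ((fun y => (D.σ y)⁻¹) • V) y :=
  ((D.CHa_inv hG hy).smAt.fsmul h).gauge (CHa_gauge hG)

theorem up_sub (v w : E n → Λ n) : D.up (v - w) = D.up v - D.up w := by
  funext y
  by_cases hy : y ∈ D.e.source
  · rw [Pi.sub_apply, D.CHa_up hy, D.CHa_up hy, D.CHa_up hy, pb_sub, Pi.sub_apply, smul_sub]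
  · rw [Pi.sub_apply, D.CHa_up0 hy, D.CHa_up0 hy, D.CHa_up0 hy, sub_zero]

theorem dn_sub (V W : Fm n X) : D.dn (V - W) = D.dn V - D.dn W := by
  funext z
  by_cases hz : z ∈ D.e.target
  · rw [Pi.sub_apply, D.CHa_dn hz, D.CHa_dn hz, D.CHa_dn hz, smul_sub, pb_sub, Pi.sub_apply]
  · rw [Pi.sub_apply, D.CHa_dn0 hz, D.CHa_dn0 hz, D.CHa_dn0 hz, sub_zero]

theorem dn_up (hz : z ∈ D.e.target) : D.dn (D.up v) z = v z := by
  have hy := D.e.map_target hz
  rw [D.CHa_dn hz, ← pb_chart' D.he hz v]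
  refine pb_congr EventuallyEq.rfl ?_
  rw [Pi.smul_apply', D.CHa_up hy, smul_smul, inv_mul_cancel₀ (D.ne _ hy), one_smul]

theorem up_dn (hy : y ∈ D.e.source) : D.up (D.dn V) y = V y := by
  have h1 : pb D.e (D.dn V) y = pb D.e (pb D.e.symm ((fun y => (D.σ y)⁻¹) • V)) y :=
    pb_congr EventuallyEq.rfl (D.CHa_dn (D.e.map_source hy))
  rw [D.CHa_up hy, h1, pb_chart D.he hy, Pi.smul_apply', smul_smul, mul_inv_cancel₀ (D.ne _ hy),
    one_smul]

theorem dn_up' (h : Function.support v ⊆ D.e.target) : D.dn (D.up v) = v := by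
  funext z
  by_cases hz : z ∈ D.e.target
  · exact D.dn_up hz
  · rw [D.CHa_dn0 hz, Function.notMem_support.1 fun h1 => hz (h h1)]

theorem up_dn' (h : Function.support V ⊆ D.e.source) : D.up (D.dn V) = V := by
  funext y
  by_cases hy : y ∈ D.e.source
  · exact D.up_dn hy
  · rw [D.CHa_up0 hy, Function.notMem_support.1 fun h1 => hy (h h1)]

theorem up_Tp (h : ∀ z, v z ∈ Tp n a b) : Ty a b (D.up v) := by
  intro y
  by_cases hy : y ∈ D.e.source
  · rw [D.CHa_up hy]
    exact Submodule.smul_mem _ _ (pb_Tp (D.he.1 y hy) (h _))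
  · rw [D.CHa_up0 hy]
    exact zero_mem _

theorem dn_Tp (h : Ty a b V) (z : E n) : D.dn V z ∈ Tp n a b := by
  by_cases hz : z ∈ D.e.target
  · rw [D.CHa_dn hz]
    exact pb_Tp (D.he.2 z hz) (Submodule.smul_mem _ _ (h _))
  · rw [D.CHa_dn0 hz]
    exact zero_mem _

/-- For fixed `y` the value `up v y` is a linear function of `v (e y)`. -/
theorem up_lin (y : X) : ∃ T : Λ n →L[ℂ] Λ n, ∀ v, D.up v y = T (v (D.e y)) := by
  by_cases hy : y ∈ D.e.source
  · exact ⟨D.σ y • LinearMap.toContinuousLinearMap (lm (df D.e y)).toLinearMap,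
      fun v => D.CHa_up hy⟩
  · exact ⟨0, fun v => D.CHa_up0 hy⟩

theorem dn_contDiffAt (hG : ∀ p, GOk G p) (hz : z ∈ D.e.target) (h : SmAt G V (D.e.symm z)) :
    ContDiffAt ℝ ∞ (D.dn V) z := by
  have hy := D.e.map_target hz
  have h1 := ((smAt_chart D.he hy).1 (D.CHa_sm (hG _) hy h)).self_of_nhds
  rw [D.e.right_inv hz] at h1
  exact h1.congr_of_eventuallyEq (D.CHa_dn_ev hz)

theorem up_smAt (hG : ∀ p, GOk G p) (hy : y ∈ D.e.source)
    (h : ∀ᶠ z in 𝓝 (D.e y), ContDiffAt ℝ ∞ v z) : SmAt G (D.up v) y := by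
  have h1 := (smAt_E.2 h).pb (D.he.1 y hy)
  rw [gpb_one] at h1
  have h2 := (D.hol y hy).smAt.fsmul h1
  rw [mul_one] at h2
  exact h2.congr (D.CHa_up_ev hy)

theorem dn_sc (hG : ∀ p, GOk G p) {L : Set X} (hL : IsCompact L) (hs : L ⊆ D.e.source)
    (h : SmS G L V) : Sc (D.dn V) ∧ tsupport (D.dn V) ⊆ D.e '' L := by
  have hc : IsCompact (D.e '' L) := hL.image_of_continuousOn (D.e.continuousOn.mono hs)
  have h1 : tsupport (D.dn V) ⊆ D.e '' L := by
    refine closure_minimal (fun z hz => ?_) hc.isClosed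
    by_cases hz' : z ∈ D.e.target
    · refine ⟨D.e.symm z, h.supp (subset_tsupport _ fun h0 => hz ?_), D.e.right_inv hz'⟩
      rw [D.CHa_dn hz', pb, Pi.smul_apply', h0, smul_zero, map_zero]
    · exact absurd (D.CHa_dn0 hz') hz
  refine ⟨⟨contDiff_iff_contDiffAt.2 fun z => ?_, hc.of_isClosed_subset (isClosed_tsupport _) h1⟩,
    h1⟩
  by_cases hz : z ∈ D.e.target
  · exact D.dn_contDiffAt hG hz (h.sm _ trivial)
  · have h2 : z ∉ tsupport (D.dn V) := fun h2 => by
      obtain ⟨y, hy, rfl⟩ := h1 h2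
      exact hz (D.e.map_source (hs hy))
    exact contDiffAt_const.congr_of_eventuallyEq (notMem_tsupport_iff_eventuallyEq.1 h2)

theorem up_sms (hG : ∀ p, GOk G p) {K : Set (E n)} (hK : IsCompact K) (hs : K ⊆ D.e.target)
    (h : ContDiff ℝ ∞ v) (h' : tsupport v ⊆ K) : SmS G (D.e.symm '' K) (D.up v) := by
  have hc : IsCompact (D.e.symm '' K) := hK.image_of_continuousOn (D.e.continuousOn_symm.mono hs)
  have h1 : tsupport (D.up v) ⊆ D.e.symm '' K := by
    refine closure_minimal (fun y hy => ?_) hc.isClosed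
    by_cases hy' : y ∈ D.e.source
    · refine ⟨D.e y, h' (subset_tsupport _ fun h0 => hy ?_), D.e.left_inv hy'⟩
      rw [D.CHa_up hy', pb, h0, map_zero, smul_zero]
    · exact absurd (D.CHa_up0 hy') hy
  refine ⟨fun y _ => ?_, h1⟩
  by_cases hy : y ∈ D.e.source
  · exact D.up_smAt hG hy (Eventually.of_forall fun z => h.contDiffAt)
  · have h2 : y ∉ tsupport (D.up v) := fun h2 => by
      obtain ⟨z, hz, rfl⟩ := h1 h2
      exact hy (D.e.map_target (hs hz))
    exact smAt_of_eventually_zero (notMem_tsupport_iff_eventuallyEq.1 h2)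

theorem dn_dbar (hG : ∀ p, GOk G p) (hz : z ∈ D.e.target) (h : SmAt G V (D.e.symm z)) :
    D.dn (dbar G V) z = dbE (D.dn V) z := by
  have hy := D.e.map_target hz
  have h1 := dbar_mul' (CHa_gauge (hG _)) (hG _).inv (hG _) (D.CHa_inv (hG _) hy).smAt h
  rw [fn_mul, (D.CHa_inv (hG _) hy).dbar, zero_mul, zero_add, fn, AlgHom.commutes,
    ← Algebra.smul_def] at h1
  have h2 := pb_dbar (D.he.2 z hz) (D.CHa_sm (hG _) hy h)
  rw [gpb_one, ← dbar_congr (D.CHa_dn_ev hz), dbar_E] at h2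
  rw [D.CHa_dn hz, ← h2]
  exact pb_congr EventuallyEq.rfl h1.symm

theorem up_hfm (hG : ∀ p, GOk G p) (hy : y ∈ D.e.source) (ht : ∀ z, v z ∈ Tp n a 0)
    (h : ∀ᶠ z in 𝓝 (D.e y), DifferentiableAt ℂ v z) : HFm G (D.up v) y := by
  have h1 : HFm 1 (pb D.e v) y := by
    refine (hfm_chart (a := a) D.he hy ?_).2 ?_
    · filter_upwards [D.e.open_source.mem_nhds hy] with y' hy'
      exact pb_Tp (D.he.1 y' hy') (ht _)
    · filter_upwards [h, D.e.open_target.mem_nhds (D.e.map_source hy)] with z hz hz'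
      refine hz.congr_of_eventuallyEq ?_
      filter_upwards [D.e.open_target.mem_nhds hz'] with w hw
      exact pb_chart' D.he hw v
  have h2 := ((D.hol y hy).hfm (hG y)).mul h1 (hG y) gok_one
  rw [mul_one, fn_mul] at h2
  refine ⟨h2.1.congr (D.CHa_up_ev hy), ?_⟩
  filter_upwards [h2.2, D.e.open_source.mem_nhds hy] with y' h3 hy'
  rw [← dbar_congr (D.CHa_up_ev hy'), h3]

end Loc

end

end Pool.Agent.MP_1c689d_ag.K0.L2

end

section

/-! Comparison of the `L²` norms in different charts. -/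

set_option autoImplicit false

open Complex Filter Topology Set MeasureTheory
open scoped ComplexConjugate ContDiff ENNReal NNReal

namespace Pool.Agent.MP_1c689d_ag.K0.L2

noncomputable section

variable {n : ℕ} {X : Type} [TopologicalSpace X] [Mf n X] [MeasurableSpace X] [BorelSpace X]
  [CompactSpace X]

/-- The pull-backs along a compact family of linear maps are uniformly bounded. -/
theorem CC_lm {K : Set (E n →L[ℝ] E n)} (hK : IsCompact K) :
    ∃ C : ℝ≥0, ∀ B ∈ K, ∀ a : Λ n, ‖lm B a‖ₑ ≤ C * ‖a‖ₑ := by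
  have : ProperSpace (Λ n) := FiniteDimensional.proper ℂ (Λ n)
  obtain ⟨C, hC⟩ := (hK.prod (isCompact_closedBall (0 : Λ n) 1)).exists_bound_of_continuousOn
    (contDiff_lm (n := n) (m := n)).continuous.continuousOn
  refine ⟨C.toNNReal, fun B hB a => ?_⟩
  have h : ‖lm B a‖ ≤ C.toNNReal * ‖a‖ := by
    rcases eq_or_ne a 0 with rfl | ha
    · simp
    have h0 : 0 < ‖a‖ := norm_pos_iff.2 ha
    have h1 : ‖((‖a‖ : ℂ)⁻¹ • a : Λ n)‖ ≤ 1 := by
      rw [norm_smul, norm_inv, Complex.norm_real, norm_norm, inv_mul_cancel₀ h0.ne']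
    have h2 := hC (B, (‖a‖ : ℂ)⁻¹ • a) ⟨hB, mem_closedBall_zero_iff.2 h1⟩
    simp only [map_smul] at h2
    rw [norm_smul, norm_inv, Complex.norm_real, norm_norm, inv_mul_le_iff₀ h0, mul_comm] at h2
    exact h2.trans (mul_le_mul_of_nonneg_right (Real.le_coe_toNNReal C) h0.le)
  rw [enorm_eq_nnnorm, enorm_eq_nnnorm, ← ENNReal.coe_mul, ENNReal.coe_le_coe]
  exact h

omit [MeasurableSpace X] [BorelSpace X] [CompactSpace X] in
theorem CC_hmap {e e' : OpenPartialHomeomorph X (E n)} (he : IsCh e) (he' : IsCh e') {y : X}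
    (h1 : y ∈ e.source) (h2 : y ∈ e'.source) : HMap (e' ∘ e.symm) (e y) := by
  refine HMap.comp ?_ (he.2 _ (e.map_source h1))
  rw [e.left_inv h1]
  exact he'.1 y h2

omit [MeasurableSpace X] [BorelSpace X] [CompactSpace X] in
theorem CC_cont {e e' : OpenPartialHomeomorph X (E n)} (he : IsCh e) (he' : IsCh e') {L : Set X}
    (h1 : L ⊆ e.source) (h2 : L ⊆ e'.source) :
    ContinuousOn (fderiv ℝ (e' ∘ e.symm)) (e '' L) := by
  rintro _ ⟨y, hy, rfl⟩
  have h : ContDiffAt ℝ ∞ (e' ∘ e.symm) (e y) :=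
    contDiffAt_of_hol (hmap_E.1 (CC_hmap he he' (h1 hy) (h2 hy)))
  exact (h.fderiv_right (m := ∞) le_rfl).continuousAt.continuousWithinAt

omit [MeasurableSpace X] [BorelSpace X] [CompactSpace X] in
theorem CC_pb {e e' : OpenPartialHomeomorph X (E n)} (he : IsCh e) (he' : IsCh e') {y : X}
    (h1 : y ∈ e.source) (h2 : y ∈ e'.source) (α : Fm n X) :
    pb e.symm α (e y) = lm (fderiv ℝ (e' ∘ e.symm) (e y)) (pb e'.symm α (e' y)) := by
  have hτ := CC_hmap he he' h1 h2
  have h3 : (e' ∘ e.symm) (e y) = e' y := by rw [Function.comp_apply, e.left_inv h1]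
  have h4 : HMap e'.symm ((e' ∘ e.symm) (e y)) := by
    rw [h3]
    exact he'.2 _ (e'.map_source h2)
  have h5 : e'.symm ∘ (e' ∘ e.symm) =ᶠ[𝓝 (e y)] e.symm :=
    (e.tendsto_symm h1).eventually (e'.eventually_left_inverse h2)
  have h6 : pb e.symm α (e y) = pb (e' ∘ e.symm) (pb e'.symm α) (e y) := by
    rw [pb_comp (f := e' ∘ e.symm) h4 hτ]
    exact pb_congr h5.symm rfl
  rw [h6]
  conv_lhs => rw [pb, df_E, h3]

omit [CompactSpace X] in
/-- `τ = e' ∘ e.symm`; `pb e.symm α z = lm (fderiv τ z) (pb e'.symm α (τ z))` (`pb_comp`,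
`pb_chart`); the operator norm of `lm (fderiv τ z)` is bounded on the compact set `e '' L`
(`contDiff_lm`, or `EA2a_contDiff_lm` on a basis) and `|det|` is bounded below there
(`IsCh.df_bij`); `lintegral_image_eq_lintegral_abs_det_fderiv_mul` (compare `INT1a`). -/
theorem cc_two {e e' : OpenPartialHomeomorph X (E n)} (he : IsCh e) (he' : IsCh e') {L : Set X}
    (hL : IsCompact L) (h1 : L ⊆ e.source) (h2 : L ⊆ e'.source) : ∃ C : ℝ≥0,
    ∀ A : Set X, MeasurableSet A → A ⊆ L → ∀ α : Fm n X,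
      ∫⁻ z in e '' A, ‖pb e.symm α z‖ₑ ^ 2 ≤ C * ∫⁻ z in e' '' A, ‖pb e'.symm α z‖ₑ ^ 2 := by
  obtain ⟨C, hC⟩ := CC_lm
    ((hL.image_of_continuousOn (e.continuousOn.mono h1)).image_of_continuousOn
      (CC_cont he he' h1 h2))
  obtain ⟨D, hD⟩ := (hL.image_of_continuousOn
    (e'.continuousOn.mono h2)).exists_bound_of_continuousOn
      (ContinuousLinearMap.continuous_det.comp_continuousOn (CC_cont he' he h2 h1))
  refine ⟨D.toNNReal * C ^ 2, fun A hA hAL α => ?_⟩
  have hm : MeasurableSet (e' '' A) := INT1a_meas hA (hAL.trans h2)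
  have himg : e '' A = (e ∘ e'.symm) '' (e' '' A) := by
    rw [image_image]
    refine image_congr fun y hy => ?_
    rw [Function.comp_apply, e'.left_inv (h2 (hAL hy))]
  rw [himg, lintegral_image_eq_lintegral_abs_det_fderiv_mul volume hm
    (f' := fderiv ℝ (e ∘ e'.symm)), ← lintegral_const_mul' _ _ ENNReal.coe_ne_top]
  · refine setLIntegral_mono' hm ?_
    rintro _ ⟨y, hy, rfl⟩
    have hy1 := h1 (hAL hy)
    have hy2 := h2 (hAL hy)
    rw [Function.comp_apply, e'.left_inv hy2, CC_pb he he' hy1 hy2, ENNReal.coe_mul,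
      ENNReal.coe_pow, mul_assoc, ← mul_pow]
    refine mul_le_mul' (ENNReal.ofReal_le_ofReal (hD _ ⟨y, hAL hy, rfl⟩))
      (pow_le_pow_left' (hC _ ⟨_, ⟨y, hAL hy, rfl⟩, rfl⟩ _) 2)
  · rintro _ ⟨y, hy, rfl⟩
    have h := CC_hmap he' he (h2 (hAL hy)) (h1 (hAL hy))
    exact ((hmap_E.1 h).self_of_nhds.restrictScalars ℝ).hasFDerivAt.hasFDerivWithinAt
  · rintro _ ⟨y, hy, rfl⟩ _ ⟨y', hy', rfl⟩ h
    simp only [Function.comp_apply, e'.left_inv (h2 (hAL hy)), e'.left_inv (h2 (hAL hy'))] at h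
    rw [e.injOn (h1 (hAL hy)) (h1 (hAL hy')) h]

/-- `L` is the union of the sets `L ∩ A i ⊆ L ∩ L i`. -/
theorem cc_le_nq {e : OpenPartialHomeomorph X (E n)} (he : IsCh e) {L : Set X} (hL : IsCompact L)
    (h1 : L ⊆ e.source) : ∃ C : ℝ≥0, ∀ α : Fm n X,
      ∫⁻ z in e '' L, ‖pb e.symm α z‖ₑ ^ 2 ≤ C * nq α := by
  have h : ∀ i : Fin (cov n X).r, _ := fun i =>
    cc_two he (isCh_ch ((cov n X).c i)) (hL.inter ((cov n X).cpt i))
      (inter_subset_left.trans h1) (inter_subset_right.trans ((cov n X).sub i))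
  choose C hC using h
  refine ⟨∑ i, C i, fun α => ?_⟩
  have hu : e '' L = ⋃ i, e '' (L ∩ (cov n X).A i) := by
    rw [← image_iUnion, ← inter_iUnion, (cov n X).un, inter_univ]
  rw [hu, nq, Finset.mul_sum]
  refine (lintegral_iUnion_le _ _).trans ?_
  rw [tsum_fintype]
  refine Finset.sum_le_sum fun i _ => ?_
  refine (hC i _ (hL.measurableSet.inter ((cov n X).ms i))
    (inter_subset_inter_right _ ((cov n X).AL i)) α).trans ?_
  refine mul_le_mul' (ENNReal.coe_le_coe.2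
    (Finset.single_le_sum (f := C) (fun _ _ => zero_le) (Finset.mem_univ i))) ?_
  exact lintegral_mono_set (image_mono inter_subset_right)

/-- `A j` is covered by the sets `A j ∩ L i` and a measurable set on which `α` vanishes. -/
theorem nq_le_cc {ι : Type} [Fintype ι] {e : ι → OpenPartialHomeomorph X (E n)}
    (he : ∀ i, IsCh (e i)) {L : ι → Set X} (hL : ∀ i, IsCompact (L i))
    (h1 : ∀ i, L i ⊆ (e i).source) : ∃ C : ℝ≥0, ∀ α : Fm n X,
      (∀ y, α y ≠ 0 → ∃ i, y ∈ L i) →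
      nq α ≤ C * ∑ i, ∫⁻ z in e i '' L i, ‖pb (e i).symm α z‖ₑ ^ 2 := by
  have h : ∀ (j : Fin (cov n X).r) (i : ι), _ := fun j i =>
    cc_two (isCh_ch ((cov n X).c j)) (he i) (((cov n X).cpt j).inter (hL i))
      (inter_subset_left.trans ((cov n X).sub j)) (inter_subset_right.trans (h1 i))
  choose C hC using h
  refine ⟨∑ j, ∑ i, C j i, fun α hα => ?_⟩
  rw [nq, ENNReal.ofNNReal_finsetSum, Finset.sum_mul]
  refine Finset.sum_le_sum fun j _ => ?_
  have hs : (cov n X).A j ⊆ (ch n ((cov n X).c j)).source :=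
    ((cov n X).AL j).trans ((cov n X).sub j)
  have hu : Pc j ⊆ ch n ((cov n X).c j) '' ((cov n X).A j \ ⋃ i, L i) ∪
      ⋃ i, ch n ((cov n X).c j) '' ((cov n X).A j ∩ L i) := by
    rw [← image_iUnion, ← inter_iUnion, ← image_union, sdiff_union_inter]
    exact Subset.rfl
  have h0 : ∫⁻ z in ch n ((cov n X).c j) '' ((cov n X).A j \ ⋃ i, L i), ‖rp j α z‖ₑ ^ 2 = 0 := by
    refine setLIntegral_eq_zero (INT1a_meas (((cov n X).ms j).diff
      (MeasurableSet.iUnion fun i => (hL i).measurableSet)) (sdiff_subset.trans hs)) ?_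
    rintro _ ⟨y, hy, rfl⟩
    have h2 : α y = 0 := by
      by_contra h3
      exact hy.2 (mem_iUnion.2 (hα y h3))
    simp only [rp, rep, pb, (ch n ((cov n X).c j)).left_inv (hs hy.1), h2, map_zero, enorm_zero,
      Pi.zero_apply]
    exact zero_pow two_ne_zero
  refine (lintegral_mono_set hu).trans ((lintegral_union_le _ _ _).trans ?_)
  rw [h0, zero_add, Finset.mul_sum]
  refine (lintegral_iUnion_le _ _).trans ?_
  rw [tsum_fintype]
  refine Finset.sum_le_sum fun i _ => ?_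
  refine (hC j i _ (((cov n X).ms j).inter (hL i).measurableSet)
    (inter_subset_inter_left _ ((cov n X).AL j)) α).trans ?_
  refine mul_le_mul' (ENNReal.coe_le_coe.2
    (Finset.single_le_sum (f := C j) (fun _ _ => zero_le) (Finset.mem_univ i))) ?_
  exact lintegral_mono_set (image_mono inter_subset_right)

/-- Local convergence gives global convergence (finite subcover, `nq_le_cc`). -/
theorem tendsto_nq_of_loc {ι : Type} {l : Filter ι} {α : ι → Fm n X}
    (h : ∀ p : X, ∃ (e : OpenPartialHomeomorph X (E n)) (O : Set X), IsCh e ∧ O ∈ 𝓝 p ∧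
      O ⊆ e.source ∧ Tendsto (fun i => ∫⁻ z in e '' O, ‖pb e.symm (α i) z‖ₑ ^ 2) l (𝓝 0)) :
    Tendsto (fun i => nq (α i)) l (𝓝 0) := by
  choose e O he hO hs ht using h
  choose K hK hKO hKc using fun p => local_compact_nhds (hO p)
  obtain ⟨s, -, hc⟩ := isCompact_univ.elim_nhds_subcover K fun p _ => hK p
  obtain ⟨C, hC⟩ := nq_le_cc (ι := s) (e := fun p => e p) (fun p => he p) (L := fun p => K p)
    (fun p => hKc p) fun p => (hKO p).trans (hs p)
  have h1 : ∀ p : s, Tendsto (fun i => ∫⁻ z in e p '' K p, ‖pb (e p).symm (α i) z‖ₑ ^ 2) l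
      (𝓝 0) := fun p => tendsto_of_tendsto_of_tendsto_of_le_of_le tendsto_const_nhds (ht p)
    (fun _ => zero_le) fun _ => lintegral_mono_set (image_mono (hKO p))
  have h2 := tendsto_finsetSum Finset.univ fun p _ => h1 p
  have h3 := ENNReal.Tendsto.const_mul (a := C) h2 (Or.inr ENNReal.coe_ne_top)
  rw [Finset.sum_const_zero, mul_zero] at h3
  refine tendsto_of_tendsto_of_tendsto_of_le_of_le tendsto_const_nhds h3 (fun _ => zero_le)
    fun i => hC (α i) fun y _ => ?_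
  obtain ⟨p, hp, hy⟩ := mem_iUnion₂.1 (hc (mem_univ y))
  exact ⟨⟨p, hp⟩, hy⟩

end

end Pool.Agent.MP_1c689d_ag.K0.L2

end

section

/-! Charts with frames: norms and pairings. -/

set_option autoImplicit false

open Complex Filter Topology Set MeasureTheory
open scoped ComplexConjugate ContDiff ENNReal NNReal

namespace Pool.Agent.MP_1c689d_ag.K0.L2

noncomputable section

variable {n : ℕ} {X : Type} [TopologicalSpace X] [Mf n X] {G : Ga X} (D : Loc n G)
  [MeasurableSpace X] [BorelSpace X]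

theorem CHb_int {K : Set (E n)} (hK : MeasurableSet K) {a b : E n → Λ n} {C : ℝ} (hC : 0 < C)
    (h : ∀ z ∈ K, ‖a z‖ ≤ C * ‖b z‖) :
    ∫⁻ z in K, ‖a z‖ₑ ^ 2 ≤ (C.toNNReal ^ 2 : ℝ≥0) * ∫⁻ z in K, ‖b z‖ₑ ^ 2 := by
  rw [← lintegral_const_mul' _ _ ENNReal.coe_ne_top]
  refine setLIntegral_mono' hK fun z hz => ?_
  rw [ENNReal.coe_pow, ← mul_pow]
  refine pow_le_pow_left' ?_ 2
  rw [← ofReal_norm, ← ofReal_norm]
  exact (ENNReal.ofReal_le_ofReal (h z hz)).trans_eq (ENNReal.ofReal_mul hC.le)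

omit [Mf n X] [MeasurableSpace X] [BorelSpace X] in
theorem CHb_img {e : OpenPartialHomeomorph X (E n)} {K : Set (E n)} (hK : IsCompact K)
    (hs : K ⊆ e.target) :
    IsCompact (e.symm '' K) ∧ e.symm '' K ⊆ e.source ∧ e '' (e.symm '' K) = K :=
  ⟨hK.image_of_continuousOn (e.continuousOn_symm.mono hs),
    image_subset_iff.2 fun _ hz => e.map_target (hs hz), e.image_symm_image_of_subset_target hs⟩

namespace Loc

omit [MeasurableSpace X] [BorelSpace X] in
theorem CHb_dn (V : Fm n X) {z : E n} (hz : z ∈ D.e.target) :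
    D.dn V z = (D.σ (D.e.symm z))⁻¹ • pb D.e.symm V z := by
  rw [dn, indicator_of_mem hz, pb_fsmul]
  rfl

omit [MeasurableSpace X] [BorelSpace X] in
/-- `‖σ‖` is continuous and positive on the source (`SmAt.normSq`). -/
theorem norm_cmp (hG : ∀ p, GOk G p) {K : Set (E n)} (hK : IsCompact K) (hs : K ⊆ D.e.target) :
    ∃ C : ℝ, 0 < C ∧ ∀ V : Fm n X, ∀ z ∈ K,
      ‖D.dn V z‖ ≤ C * ‖pb D.e.symm V z‖ ∧ ‖pb D.e.symm V z‖ ≤ C * ‖D.dn V z‖ := by
  have h0 : ∀ z ∈ K, 0 < ‖D.σ (D.e.symm z)‖ := fun z hz =>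
    norm_pos_iff.2 (D.ne _ (D.e.map_target (hs hz)))
  have h1 : ContinuousOn (fun z => ‖D.σ (D.e.symm z)‖) K := fun z hz => by
    have a := ((D.hol _ (D.e.map_target (hs hz))).smAt.normSq (hG _)).continuousAt
    have b : ContinuousAt (fun y => ‖D.σ y‖) (D.e.symm z) := by
      simp only [Complex.norm_def]
      exact Real.continuous_sqrt.continuousAt.comp (continuous_re.continuousAt.comp a)
    exact (b.comp (D.e.continuousAt_symm (hs hz))).continuousWithinAt
  obtain ⟨C, hC⟩ := hK.bddAbove_image (h1.add (h1.inv₀ fun z hz => (h0 z hz).ne'))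
  refine ⟨max C 1, lt_max_of_lt_right one_pos, fun V z hz => ?_⟩
  have h2 : ‖D.σ (D.e.symm z)‖ + ‖D.σ (D.e.symm z)‖⁻¹ ≤ max C 1 :=
    (hC (mem_image_of_mem _ hz)).trans (le_max_left _ _)
  have h3 := h0 z hz
  have h4 := inv_pos.2 h3
  rw [D.CHb_dn V (hs hz), norm_smul, norm_inv]
  refine ⟨mul_le_mul_of_nonneg_right (by linarith) (norm_nonneg _), ?_⟩
  refine le_trans (le_of_eq ?_) (mul_le_mul_of_nonneg_right
    (show ‖D.σ (D.e.symm z)‖ ≤ max C 1 by linarith) (mul_nonneg h4.le (norm_nonneg _)))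
  rw [mul_inv_cancel_left₀ h3.ne']

/-- `itg_chart`. -/
theorem itg_up (hG : ∀ p, GOk G p) (V : Fm n X) (ψ : E n → Λ n) :
    itg (V * (D.inv hG).up ψ) = ∫ z, top (D.dn V z * ψ z) := by
  rw [itg_chart D.he fun y hy => by
    rw [Pi.mul_apply, up, indicator_of_notMem (s := (D.inv hG).e.source) hy, mul_zero]]
  refine (setIntegral_congr_fun D.e.open_target.measurableSet fun z hz => ?_).trans
    (setIntegral_eq_integral_of_forall_compl_eq_zero fun z hz => ?_)
  · have h : pb D.e.symm ((D.inv hG).up ψ) z = (D.σ (D.e.symm z))⁻¹ • ψ z := by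
      rw [pb_congr (α := (D.inv hG).up ψ) (β := (fun y => (D.σ y)⁻¹) • pb D.e ψ) EventuallyEq.rfl
        (indicator_of_mem (D.e.map_target hz) _), pb_fsmul, Pi.smul_apply', pb_chart' D.he hz]
      rfl
    rw [pb_mul, Pi.mul_apply, h, D.CHb_dn V hz, mul_smul_comm, smul_mul_assoc]
  · rw [dn, indicator_of_notMem hz, zero_mul, map_zero]

variable [CompactSpace X]

theorem dn_le (hG : ∀ p, GOk G p) {K : Set (E n)} (hK : IsCompact K) (hs : K ⊆ D.e.target) :
    ∃ C : ℝ≥0, ∀ V : Fm n X, ∫⁻ z in K, ‖D.dn V z‖ₑ ^ 2 ≤ C * nq V := by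
  obtain ⟨C, hC, h⟩ := D.norm_cmp hG hK hs
  obtain ⟨a, b, c⟩ := CHb_img hK hs
  obtain ⟨C1, h1⟩ := cc_le_nq D.he a b
  rw [c] at h1
  refine ⟨C.toNNReal ^ 2 * C1, fun V => ?_⟩
  rw [ENNReal.coe_mul, mul_assoc]
  exact (CHb_int hK.measurableSet hC fun z hz => (h V z hz).1).trans (mul_le_mul_right (h1 V) _)

theorem q2_dn_le (hG : ∀ p, GOk G p) {L : Set X} (hL : IsCompact L) (hs : L ⊆ D.e.source) :
    ∃ C : ℝ≥0, ∀ V : Fm n X, tsupport V ⊆ L → q2 (D.dn V) ≤ C * nq V := by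
  obtain ⟨C, h⟩ := D.dn_le hG (hL.image_of_continuousOn (D.e.continuousOn.mono hs))
    (image_subset_iff.2 fun _ hy => D.e.map_source (hs hy))
  refine ⟨C, fun V hV => le_trans (le_of_eq ?_) (h V)⟩
  refine (setLIntegral_eq_of_support_subset fun z hz => ?_).symm
  by_contra hn
  apply hz
  by_cases ht : z ∈ D.e.target
  · have h0 : V (D.e.symm z) = 0 :=
      image_eq_zero_of_notMem_tsupport fun h => hn ⟨_, hV h, D.e.right_inv ht⟩
    simp [D.CHb_dn V ht, pb, h0]
  · simp [dn, indicator_of_notMem ht]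

theorem nq_up_le (hG : ∀ p, GOk G p) {K : Set (E n)} (hK : IsCompact K) (hs : K ⊆ D.e.target) :
    ∃ C : ℝ≥0, ∀ v : E n → Λ n, tsupport v ⊆ K → nq (D.up v) ≤ C * q2 v := by
  obtain ⟨C, hC, h⟩ := D.norm_cmp hG hK hs
  obtain ⟨a, b, c⟩ := CHb_img hK hs
  obtain ⟨C1, h1⟩ := nq_le_cc (ι := Unit) (e := fun _ => D.e) (fun _ => D.he)
    (L := fun _ => D.e.symm '' K) (fun _ => a) fun _ => b
  refine ⟨C1 * C.toNNReal ^ 2, fun v hv => (h1 _ fun y hy => ⟨(), ?_⟩).trans ?_⟩
  · by_contra hn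
    apply hy
    by_cases ht : y ∈ D.e.source
    · have h0 : v (D.e y) = 0 :=
        image_eq_zero_of_notMem_tsupport fun h => hn ⟨_, hv h, D.e.left_inv ht⟩
      simp [up, indicator_of_mem ht, pb, h0]
    · exact indicator_of_notMem ht _
  · rw [Fintype.sum_unique, c, ENNReal.coe_mul, mul_assoc]
    refine mul_le_mul_right ((CHb_int (b := v) hK.measurableSet hC fun z hz => ?_).trans
      (mul_le_mul_right (setLIntegral_le_lintegral _ _) _)) _
    have := (h (D.up v) z hz).2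
    rwa [D.dn_up (hs hz)] at this

end Loc

end

end Pool.Agent.MP_1c689d_ag.K0.L2

end

section

/-! The inequality of Young and the existence of mollifiers. -/

set_option autoImplicit false

open Complex Filter Topology Set MeasureTheory
open scoped ComplexConjugate ContDiff ENNReal NNReal

namespace Pool.Agent.MP_1c689d_ag.K0.L2

noncomputable section

variable {n : ℕ} {W W' : Type} [NormedAddCommGroup W] [NormedSpace ℝ W] [NormedAddCommGroup W']
  [NormedSpace ℝ W']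

theorem YG_cs {a b : E n → ℝ≥0∞} (ha : Measurable a) (hb : Measurable b) :
    (∫⁻ t, a t * b t) ^ 2 ≤ (∫⁻ t, a t) * ∫⁻ t, a t * b t ^ 2 := by
  have e : ∀ c : ℝ≥0∞, (c ^ (1 / 2 : ℝ)) ^ 2 = c := fun c => by
    rw [← ENNReal.rpow_natCast, ← ENNReal.rpow_mul]
    norm_num
  have e' : ∀ c : ℝ≥0∞, (c ^ 2) ^ (1 / 2 : ℝ) = c := fun c => by
    rw [← ENNReal.rpow_natCast, ← ENNReal.rpow_mul]
    norm_num
  have h := ENNReal.lintegral_mul_norm_pow_le (μ := volume) ha.aemeasurable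
    (ha.mul (hb.pow_const 2)).aemeasurable (p := 1 / 2) (q := 1 / 2) (by norm_num) (by norm_num)
    (by norm_num)
  have h2 : ∀ t, a t ^ (1 / 2 : ℝ) * (a t * b t ^ 2) ^ (1 / 2 : ℝ) = a t * b t := fun t => by
    rw [← ENNReal.mul_rpow_of_nonneg _ _ (by norm_num), ← mul_assoc, ← pow_two, ← mul_pow, e']
  simp only [Pi.mul_apply, h2] at h
  refine (pow_le_pow_left' h 2).trans (le_of_eq ?_)
  rw [mul_pow, e, e]

/-- Cauchy-Schwarz for the measure `ψ dt` (`ENNReal.lintegral_mul_le_Lp_mul_Lq` with `√ψ`, or the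
variance trick), then Tonelli (`lintegral_lintegral_swap`) and translation invariance
(`lintegral_sub_right_eq_self`). No measurability of `r` is needed (`lintegral_mono`). -/
theorem young {r : E n → W'} {v : E n → W} {ψ : E n → ℝ} (hv : Continuous v) (hψ : Continuous ψ)
    (hc : HasCompactSupport ψ) (h0 : ∀ t, 0 ≤ ψ t) (h : ∀ x, ‖r x‖ ≤ ∫ t, ψ t * ‖v (x - t)‖) :
    q2 r ≤ ENNReal.ofReal ((∫ t, ψ t) ^ 2) * q2 v := by
  have ha : Measurable fun t => ‖ψ t‖ₑ := hψ.enorm.measurable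
  have hI : ∫⁻ t, ‖ψ t‖ₑ = ENNReal.ofReal (∫ t, ψ t) := by
    rw [ofReal_integral_eq_lintegral_ofReal (hψ.integrable_of_hasCompactSupport hc)
      (Eventually.of_forall h0)]
    exact lintegral_congr fun t => Real.enorm_eq_ofReal (h0 t)
  have h1 : ∀ x, ‖r x‖ₑ ^ 2 ≤ (∫⁻ t, ‖ψ t‖ₑ) * ∫⁻ t, ‖ψ t‖ₑ * ‖v (x - t)‖ₑ ^ 2 := fun x => by
    refine le_trans (pow_le_pow_left' ?_ 2)
      (YG_cs ha (hv.comp (continuous_const.sub continuous_id)).enorm.measurable)
    calc ‖r x‖ₑ ≤ ‖∫ t, ψ t * ‖v (x - t)‖‖ₑ := by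
          rw [← ofReal_norm, ← ofReal_norm]
          exact ENNReal.ofReal_le_ofReal ((h x).trans (le_abs_self _))
      _ ≤ ∫⁻ t, ‖ψ t * ‖v (x - t)‖‖ₑ := enorm_integral_le_lintegral_enorm _
      _ = _ := lintegral_congr fun t => by rw [enorm_mul, enorm_norm]
  have hm : Measurable fun y : E n × E n => ‖ψ y.2‖ₑ * ‖v (y.1 - y.2)‖ₑ ^ 2 :=
    (hψ.comp continuous_snd).enorm.measurable.mul
      ((hv.comp (continuous_fst.sub continuous_snd)).enorm.measurable.pow_const 2)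
  have h2 : ∀ t, ∫⁻ x, ‖ψ t‖ₑ * ‖v (x - t)‖ₑ ^ 2 = ‖ψ t‖ₑ * q2 v := fun t => by
    rw [lintegral_const_mul' _ _ enorm_ne_top,
      lintegral_sub_right_eq_self (fun x => ‖v x‖ₑ ^ 2) t, q2]
  refine (lintegral_mono h1).trans (le_of_eq ?_)
  rw [hI, lintegral_const_mul' _ _ ENNReal.ofReal_ne_top,
    lintegral_lintegral_swap hm.aemeasurable, lintegral_congr h2, lintegral_mul_const _ ha, hI,
    ← mul_assoc, ← pow_two, ENNReal.ofReal_pow (integral_nonneg h0)]

/-- Take one normed bump `ψ` with support in the unit ball (`ContDiffBump.normed`) and put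
`φ j t = ε ^ (-d) ψ (ε⁻¹ • t)`, `ε = δ / (j + 1)`, `d = finrank ℝ (E n)`;
`Measure.integral_comp_smul` (`integral_comp_inv_smul`) gives `int` and `bd`. -/
theorem exists_mol (n : ℕ) {δ : ℝ} (hδ : 0 < δ) : ∃ φ : ℕ → E n → ℝ, Mol φ δ := by
  let b : ContDiffBump (0 : E n) := ⟨1 / 2, 1, by norm_num, by norm_num⟩
  obtain ⟨ψ, hψ⟩ : ∃ ψ : E n → ℝ, ψ = b.normed volume := ⟨_, rfl⟩
  have h1 : ContDiff ℝ ∞ ψ := hψ ▸ b.contDiff_normed
  have h2 : ∀ t, 0 ≤ ψ t := hψ ▸ b.nonneg_normed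
  have h3 : ∀ t, ψ t ≠ 0 → ‖t‖ < 1 := fun t ht => by
    have : t ∈ Function.support (b.normed volume) := hψ ▸ ht
    rwa [b.support_normed_eq, mem_ball_zero_iff] at this
  have h4 : ∫ t, ψ t = 1 := hψ ▸ b.integral_normed
  obtain ⟨ε, hε⟩ : ∃ ε : ℕ → ℝ, ∀ j, ε j = δ / (j + 1) := ⟨_, fun _ => rfl⟩
  have he : ∀ j, 0 < ε j := fun j => by rw [hε]; positivity
  have key : ∀ (j : ℕ) (g : E n → ℝ),
      ∫ t, (ε j ^ Module.finrank ℝ (E n))⁻¹ * g ((ε j)⁻¹ • t) = ∫ t, g t := fun j g => by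
    rw [integral_const_mul, Measure.integral_comp_inv_smul_of_nonneg volume g (he j).le,
      smul_eq_mul, inv_mul_cancel_left₀ (pow_pos (he j) _).ne']
  refine ⟨fun j t => (ε j ^ Module.finrank ℝ (E n))⁻¹ * ψ ((ε j)⁻¹ • t), hδ,
    fun j => contDiff_const.mul (h1.comp (contDiff_const_smul _)),
    fun j t => mul_nonneg (inv_nonneg.2 (pow_pos (he j) _).le) (h2 _), fun j t ht => ?_,
    fun j => (key j ψ).trans h4, ∫ t, ‖t‖ * ‖fderiv ℝ ψ t‖, fun j => le_of_eq ?_⟩
  · have h5 := h3 _ (right_ne_zero_of_mul ht)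
    rw [norm_smul, norm_inv, Real.norm_of_nonneg (he j).le, inv_mul_lt_iff₀ (he j), mul_one] at h5
    exact hε j ▸ h5.le
  · rw [← key j fun t => ‖t‖ * ‖fderiv ℝ ψ t‖]
    refine integral_congr_ae (Eventually.of_forall fun t => ?_)
    have hd : DifferentiableAt ℝ (fun t : E n => ψ ((ε j)⁻¹ • t)) t :=
      (h1.comp (contDiff_const_smul _)).differentiable (by simp) t
    beta_reduce
    rw [fderiv_const_mul hd, fderiv_comp_smul, norm_smul, norm_smul, norm_smul,
      Real.norm_of_nonneg (inv_nonneg.2 (pow_pos (he j) _).le)]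
    ring

theorem Mol.cs {φ : ℕ → E n → ℝ} {δ : ℝ} (h : Mol φ δ) (j : ℕ) : HasCompactSupport (φ j) := by
  refine HasCompactSupport.intro (isCompact_closedBall 0 (δ / (j + 1))) fun t ht => ?_
  by_contra h0
  exact ht (mem_closedBall_zero_iff.2 (h.supp j t h0))

theorem q2_ne_top {v : E n → W} (hv : Continuous v) (hc : HasCompactSupport v) : q2 v ≠ ⊤ := by
  have h0 : HasCompactSupport fun z => ‖v z‖ ^ 2 :=
    HasCompactSupport.intro hc fun z hz => by
      rw [image_eq_zero_of_notMem_tsupport hz, norm_zero, zero_pow two_ne_zero]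
  have h : Integrable fun z => ‖v z‖ ^ 2 := (hv.norm.pow 2).integrable_of_hasCompactSupport h0
  refine ne_of_lt (lt_of_eq_of_lt (lintegral_congr fun z => ?_) h.hasFiniteIntegral)
  rw [enorm_pow, enorm_norm]

end

end Pool.Agent.MP_1c689d_ag.K0.L2

end

section

/-! The mollifiers on smooth functions with compact support. -/

set_option autoImplicit false

open Complex Filter Topology Set MeasureTheory
open scoped ComplexConjugate ContDiff ENNReal NNReal

namespace Pool.Agent.MP_1c689d_ag.K0.L2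

noncomputable section

variable {n : ℕ} {W W' : Type} [NormedAddCommGroup W] [NormedSpace ℝ W] [NormedAddCommGroup W']
  [NormedSpace ℝ W']

variable [CompleteSpace W] {φ : ℕ → E n → ℝ} {δ : ℝ} {v w : E n → W}

omit [CompleteSpace W] in
theorem JM_eq (ψ : E n → ℝ) (v : E n → W) :
    Jm ψ v = convolution ψ v (ContinuousLinearMap.lsmul ℝ ℝ) volume := rfl

omit [CompleteSpace W] in
theorem JM_int (hφ : Mol φ δ) (hv : Continuous v) (j : ℕ) (x : E n) :
    Integrable fun t => φ j t • v (x - t) :=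
  ((hφ.sm j).continuous.smul (hv.comp (continuous_const.sub continuous_id))
    ).integrable_of_hasCompactSupport (hφ.cs j).smul_right

theorem JM_le (hφ : Mol φ δ) (j : ℕ) {t : E n} (h : φ j t ≠ 0) : ‖t‖ ≤ δ :=
  (hφ.supp j t h).trans (div_le_self hφ.pos.le (by linarith [Nat.cast_nonneg (α := ℝ) j]))

/-- `Jm φ v` is `convolution φ v (ContinuousLinearMap.lsmul ℝ ℝ) volume`; see
`HasCompactSupport.contDiff_convolution_right`, `HasCompactSupport.convolution`. -/
theorem Jm_sc (hφ : Mol φ δ) (hv : Sc v) (j : ℕ) : Sc (Jm (φ j) v) := by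
  rw [JM_eq]
  exact ⟨hv.cs.contDiff_convolution_right _ (hφ.sm j).continuous.locallyIntegrable hv.sm,
    (hφ.cs j).convolution _ hv.cs⟩

/-- `HasCompactSupport.hasFDerivAt_convolution_right`. -/
theorem Jm_fderiv (hφ : Mol φ δ) (hv : Sc v) (j : ℕ) (x : E n) :
    fderiv ℝ (Jm (φ j) v) x = Jm (φ j) (fderiv ℝ v) x := by
  rw [JM_eq, (hv.cs.hasFDerivAt_convolution_right (ContinuousLinearMap.lsmul ℝ ℝ)
    (hφ.sm j).continuous.locallyIntegrable (hv.sm.of_le (by simp)) x).fderiv]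
  rfl

theorem Jm_tsupport (hφ : Mol φ δ) (j : ℕ) :
    tsupport (Jm (φ j) v) ⊆ Metric.cthickening δ (tsupport v) := by
  refine closure_minimal (fun x hx => ?_) Metric.isClosed_cthickening
  by_contra hn
  refine hx (integral_eq_zero_of_ae (Eventually.of_forall fun t => ?_))
  by_contra h
  obtain ⟨h1, h2⟩ := smul_ne_zero_iff.1 h
  refine hn (Metric.mem_cthickening_of_dist_le x (x - t) δ _ (subset_tsupport v h2) ?_)
  rw [dist_eq_norm, sub_sub_cancel]
  exact JM_le hφ j h1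

theorem Jm_sub (hφ : Mol φ δ) (hv : Continuous v) (hw : Continuous w) (j : ℕ) :
    Jm (φ j) (v - w) = Jm (φ j) v - Jm (φ j) w := by
  funext x
  simp only [Jm, Pi.sub_apply, smul_sub]
  exact integral_sub (JM_int hφ hv j x) (JM_int hφ hw j x)

theorem Jm_test (hφ : Mol φ δ) (hv : Continuous v) (T : W →L[ℝ] ℂ) (j : ℕ) (x : E n) :
    T (Jm (φ j) v x) = ∫ z, (φ j (x - z) : ℂ) * T (v z) := by
  rw [Jm, ← T.integral_comp_comm (JM_int hφ hv j x),
    ← integral_sub_left_eq_self (fun z => (φ j (x - z) : ℂ) * T (v z)) volume x]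
  simp only [map_smul, sub_sub_cancel, real_smul]

theorem Jm_q2_le (hφ : Mol φ δ) (hv : Continuous v) (j : ℕ) : q2 (Jm (φ j) v) ≤ q2 v := by
  have h := young (r := Jm (φ j) v) hv (hφ.sm j).continuous (hφ.cs j) (hφ.nonneg j) fun x => by
    refine (norm_integral_le_integral_norm _).trans (le_of_eq ?_)
    simp only [norm_smul, Real.norm_of_nonneg (hφ.nonneg j _)]
  simpa [hφ.int j] using h

/-- Uniform convergence (uniform continuity of `v`) and a fixed compact support. -/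
theorem Jm_tendsto (hφ : Mol φ δ) (hv : Continuous v) (hc : HasCompactSupport v) :
    Tendsto (fun j => q2 (Jm (φ j) v - v)) atTop (𝓝 0) := by
  have hK : IsCompact (Metric.cthickening δ (tsupport v)) := hc.isCompact.cthickening
  refine ENNReal.tendsto_nhds_zero.2 fun ε hε => ?_
  have h1 : Tendsto (fun e : ℝ => ENNReal.ofReal e ^ 2 * volume (Metric.cthickening δ (tsupport v)))
      (𝓝 0) (𝓝 0) := by
    have h2 : Tendsto (fun e : ℝ => ENNReal.ofReal e ^ 2) (𝓝 0) (𝓝 0) := by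
      simpa [Function.comp_def] using ((ENNReal.continuous_pow 2).comp ENNReal.continuous_ofReal).tendsto 0
    simpa using ENNReal.Tendsto.mul_const h2 (Or.inr hK.measure_lt_top.ne)
  obtain ⟨e, he, he0⟩ := (((ENNReal.tendsto_nhds_zero.1 h1 ε hε).filter_mono
    (nhdsWithin_le_nhds (s := Ioi 0))).and self_mem_nhdsWithin).exists
  obtain ⟨η, hη, hu⟩ := Metric.uniformContinuous_iff.1 (hc.uniformContinuous_of_continuous hv) e he0
  have h3 : Tendsto (fun j : ℕ => δ / ((j : ℝ) + 1)) atTop (𝓝 0) :=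
    tendsto_const_nhds.div_atTop (tendsto_atTop_add_const_right _ 1 tendsto_natCast_atTop_atTop)
  filter_upwards [h3.eventually (gt_mem_nhds hη)] with j hj
  refine le_trans ?_ he
  rw [← lintegral_indicator_const hK.measurableSet]
  refine lintegral_mono fun x => ?_
  by_cases hx : x ∈ Metric.cthickening δ (tsupport v)
  · rw [indicator_of_mem hx, ← ofReal_norm]
    gcongr
    rw [Pi.sub_apply, ← dist_eq_norm, JM_eq]
    exact dist_convolution_le (le_of_lt he0)
      (fun t ht => mem_ball_zero_iff.2 ((hφ.supp j t ht).trans_lt hj)) (hφ.nonneg j) (hφ.int j)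
      hv.aestronglyMeasurable fun y hy => (hu hy).le
  · rw [Pi.sub_apply, image_eq_zero_of_notMem_tsupport fun h => hx (Jm_tsupport hφ j h),
      image_eq_zero_of_notMem_tsupport fun h => hx (Metric.self_subset_cthickening _ h)]
    simp

end

end Pool.Agent.MP_1c689d_ag.K0.L2

end

section

/-! Smoothing operators: the algebraic properties. -/

set_option autoImplicit false

open Complex Filter Topology Set MeasureTheory
open scoped ComplexConjugate ContDiff ENNReal NNReal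

namespace Pool.Agent.MP_1c689d_ag.K0.L2

noncomputable section

variable {n : ℕ} {X : Type} [TopologicalSpace X] [Mf n X] [MeasurableSpace X] [BorelSpace X]
  [CompactSpace X] {G : Ga X} (D : Loc n G) {φ : ℕ → E n → ℝ} {δ : ℝ} {L : Set X}

theorem SOa_lim {a : ℕ → Λ n} (h : ∀ b, Tendsto (fun k => top (a k * b)) atTop (𝓝 0)) :
    Tendsto a atTop (𝓝 0) := by
  obtain ⟨M, hM⟩ := (LinearMap.pi fun S => top ∘ₗ LinearMap.mulRight ℂ (bL n S) :
    Λ n →ₗ[ℂ] (Finset (Ix n) → ℂ)).exists_leftInverse_of_injective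
    (LinearMap.ker_eq_bot'.2 fun u hu => top_nondeg fun b => LinearMap.congr_fun
      ((bL n).ext (f₁ := top ∘ₗ LinearMap.mulLeft ℂ u) (f₂ := 0) fun S => congrFun hu S) b)
  have := (M.continuous_of_finiteDimensional.tendsto 0).comp
    (tendsto_pi_nhds.2 fun S => h (bL n S))
  rw [map_zero] at this
  exact this.congr fun k => LinearMap.congr_fun hM (a k)

/-- `sm`: `dn_sc`, `Jm_sc`, `Jm_tsupport`, `up_sms` (`IsCompact.cthickening`). `pt`: by `up_lin`
it suffices that `Jm (φ j) (dn (W k)) x` tends to zero; the functionals `a ↦ top (a * b)` determine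
convergence in the finite dimensional space `Λ n` (`top_nondeg`); by `Jm_test` and `itg_up` the
value is `itg (W k * (D.inv hG).up ψ)` with `ψ z = (φ j (x - z) * χ z) • b`, where `χ` is a cut-off
that is one on `e '' L` with compact support in the target (`exists_cutoff` on `E n`). -/
theorem Loc.so_a (hG : ∀ p, GOk G p) (hφ : Mol φ δ) (hL : IsCompact L) (hs : L ⊆ D.e.source)
    (hK : Metric.cthickening δ (D.e '' L) ⊆ D.e.target) : SOa G L fun j => D.S (φ j) := by
  have hI : IsCompact (D.e '' L) := hL.image_of_continuousOn (D.e.continuousOn.mono hs)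
  have ct : ∀ {V}, SmS G L V → Continuous (D.dn V) := fun h => (D.dn_sc hG hL hs h).1.sm.continuous
  refine ⟨fun j V h => (D.up_sms hG hI.cthickening hK (Jm_sc hφ (D.dn_sc hG hL hs h).1 j).sm
    ((Jm_tsupport hφ j).trans (Metric.cthickening_subset_of_subset δ (D.dn_sc hG hL hs h).2))).sm,
    fun j V W h h' => by rw [Loc.S, D.dn_sub, Jm_sub hφ (ct h) (ct h'), D.up_sub]; rfl,
    fun j W h h0 y => ?_⟩
  obtain ⟨T, hT⟩ := D.up_lin y
  simp only [Loc.S, hT]
  rw [← map_zero T]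
  refine (T.continuous.tendsto 0).comp (SOa_lim fun b => ?_)
  obtain ⟨χ, c1, c2, c3⟩ := exists_cutoff (n := n) hI D.e.open_target
    ((Metric.self_subset_cthickening _).trans hK)
  have c4 : ContDiff ℝ ∞ χ := contDiff_iff_contDiffAt.2 fun z =>
    MF2a_fn_iff.1 (smAt_E.1 (c1.sm z trivial)).self_of_nhds
  have c5 := (D.inv hG).up_sms (fun p => (hG p).inv) c1.cs c2
    (v := fun z => (χ z * φ j (D.e y - z)) • b) ((c4.mul (ofRealCLM.contDiff.comp
      ((hφ.sm j).comp (contDiff_const.sub contDiff_id)))).smul contDiff_const)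
    ((tsupport_smul_subset_left _ _).trans tsupport_mul_subset_left)
  refine (h0 _ c5.sm).congr fun k => ?_
  rw [D.itg_up hG]
  refine Eq.trans (integral_congr_ae (Eventually.of_forall fun z => ?_)) (Jm_test hφ (ct (h k))
    (LinearMap.toContinuousLinearMap
      ((top ∘ₗ LinearMap.mulRight ℂ b : Λ n →ₗ[ℂ] ℂ).restrictScalars ℝ)) j (D.e y)).symm
  show top (D.dn (W k) z * (χ z * φ j (D.e y - z)) • b) = φ j (D.e y - z) * top (D.dn (W k) z * b)
  rw [mul_smul_comm, map_smul, smul_eq_mul]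
  by_cases hz : z ∈ D.e '' L
  · rw [c3.self_of_nhdsSet z hz, one_mul]
  · rw [image_eq_zero_of_notMem_tsupport fun q => hz ((D.dn_sc hG hL hs (h k)).2 q), zero_mul,
      map_zero, mul_zero, mul_zero]

end

end Pool.Agent.MP_1c689d_ag.K0.L2

end

section

/-! The operator in a chart. -/

set_option autoImplicit false

open Complex Filter Topology Set MeasureTheory
open scoped ComplexConjugate ContDiff ENNReal NNReal

namespace Pool.Agent.MP_1c689d_ag.K0.L2

noncomputable section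

variable {n : ℕ} {X : Type} [TopologicalSpace X] [Mf n X] {G : Ga X} (D : Loc n G)

theorem CHc_ts {a b : Fm n X} {s t : ℕ × ℕ} {V : Fm n X} :
    tsupport (Po G a b s t V) ⊆ tsupport V := by
  borelize X
  have h0 : ∀ p q, pf p q (0 : Fm n X) = 0 := fun p q => funext fun _ => map_zero (prj p q)
  refine INT2_ts (D := Po G a b s t) ?_ (fun α β p h => ?_) V
  · rw [Po, h0, h0, dbar_zero, dp_zero, mul_zero, mul_zero, add_zero]
  · have h1 : ∀ c d, pf c d α =ᶠ[𝓝 p] pf c d β := fun c d =>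
      h.mono fun y hy => congrArg (prj c d) hy
    simp only [Po, Pi.add_apply, Pi.mul_apply]
    rw [dbar_congr (h1 _ _), dp_congr (h1 _ _)]

theorem CHc_ext {e : OpenPartialHomeomorph X (E n)} (he : IsCh e) {K : Set (E n)}
    (hK : IsCompact K) (hs : K ⊆ e.target) {α : Fm n X} (hα : Sm 1 α e.source) :
    ∃ γ : E n → Λ n, Sc γ ∧ ∀ z ∈ K, γ z = pb e.symm α z := by
  borelize X
  obtain ⟨χ, -, -, h1, h2, h3, h4⟩ := exists_global
    (hK.image_of_continuousOn (e.continuousOn_symm.mono hs)) e.open_source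
    (image_subset_iff.2 fun z hz => e.map_target (hs hz)) hα
  obtain ⟨γ, g1, g2, g3, -⟩ := INT2_ext he h1 h2 h3
  refine ⟨γ, ⟨g1, g2⟩, fun z hz => ?_⟩
  rw [(g3 z (hs hz)).self_of_nhds]
  exact congrArg (lm (df e.symm z)) (h4.self_of_nhdsSet _ (mem_image_of_mem _ hz))

theorem CHc_L (T : Λ n →ₗ[ℂ] Λ n) {γ : E n → Λ n} (h : Sc γ) :
    ∃ A : E n → Λ n →L[ℝ] Λ n, Sc A ∧ ∀ z u, A z u = γ z * T u := by
  let L : Λ n →L[ℝ] Λ n →L[ℝ] Λ n :=
    ((ContinuousLinearMap.compL ℝ (Λ n) (Λ n) (Λ n)).flip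
      ((LinearMap.toContinuousLinearMap T).restrictScalars ℝ)).comp
      (ContinuousLinearMap.mul ℝ (Λ n))
  exact ⟨fun z => L (γ z), ⟨L.contDiff.comp h.sm, h.cs.comp_left (map_zero L)⟩, fun _ _ => rfl⟩

theorem CHc_L2 (T T' : Λ n →ₗ[ℂ] Λ n) {γ γ' : E n → Λ n} (h : Sc γ) (h' : Sc γ') :
    ∃ A : E n → Λ n →L[ℝ] Λ n, Sc A ∧ ∀ z u, A z u = γ z * T u + γ' z * T' u := by
  obtain ⟨A, a1, a2⟩ := CHc_L T h
  obtain ⟨B, b1, b2⟩ := CHc_L T' h'
  refine ⟨A + B, ⟨a1.sm.add b1.sm, a1.cs.add b1.cs⟩, fun z u => ?_⟩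
  rw [← a2, ← b2]
  rfl

theorem CHc_model {a b c : E n → Λ n} (ha : Sc a) (hb : Sc b) (hc : Sc c) (s t : ℕ × ℕ) :
    ∃ (A : Fin n ⊕ Fin n → E n → Λ n →L[ℝ] Λ n) (C : E n → Λ n →L[ℝ] Λ n),
      (∀ i, Sc (A i)) ∧ Sc C ∧ ∀ (v : E n → Λ n) (z : E n), DifferentiableAt ℝ v z →
        Qm A C v z = a z * dbE (fun w => prj s.1 s.2 (v w)) z +
          (c z * prj t.1 t.2 (v z) + b z * dpE (fun w => prj t.1 t.2 (v w)) z) := by
  choose A a1 a2 using fun (j : Fin n) (x y : ℂ) =>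
    CHc_L2 (x • (LinearMap.mulLeft ℂ (dzb j)).comp (prj s.1 s.2))
      (y • (LinearMap.mulLeft ℂ (dz j)).comp (prj t.1 t.2)) ha hb
  obtain ⟨C, c1, c2⟩ := CHc_L (prj t.1 t.2) hc
  refine ⟨Sum.elim (fun j => A j (1 / 2) (1 / 2)) fun j => A j (1 / 2 * I) (-(1 / 2 * I)), C,
    fun i => by cases i <;> exact a1 _ _ _, c1, fun v z hv => ?_⟩
  rw [Qm, Fintype.sum_sum_type, c2, dbE, dpE, Finset.mul_sum, Finset.mul_sum,
    ← Finset.sum_add_distrib, add_comm (c z * _), ← add_assoc, ← Finset.sum_add_distrib]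
  congr 1
  refine Finset.sum_congr rfl fun j _ => ?_
  simp only [Sum.elim_inl, Sum.elim_inr, dir, a2, pz, pzb, DFb_lin _ (Or.inl hv),
    LinearMap.smul_apply, LinearMap.comp_apply, LinearMap.mulLeft_apply, smul_add, smul_sub,
    mul_add, mul_sub, mul_smul_comm, smul_smul, neg_smul, mul_neg, LinearMap.neg_apply]
  abel

theorem CHc_pf {v : E n → Λ n} {y : X} (hy : y ∈ D.e.source) (c d : ℕ) :
    pf c d (D.up v) =ᶠ[𝓝 y] fn n D.σ * pb D.e fun w => prj c d (v w) := by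
  filter_upwards [D.e.open_source.mem_nhds hy] with y' hy'
  have h1 : pb D.e (fun w => prj c d (v w)) y' = prj c d (pb D.e v y') :=
    pb_pf (D.he.1 y' hy') c d v
  rw [fn_mul, pf, Loc.up, indicator_of_mem hy', Pi.smul_apply', Pi.smul_apply', map_smul, h1]

theorem CHc_gi (c : ℂ) (u : Λ n) : gi (algebraMap ℂ (Λ n) c) * u = c • u := by
  rw [AlgHom.commutes, ← Algebra.smul_def]

/-- On the source `up v = σ • pb e v`, so `dbar G (σ • β) = σ • dbar 1 β` and
`dp G (σ • β) = σ • (θ * β + dp 1 β)` with `θ = σ⁻¹ • dp G (fn σ)` smooth (`dbar_mul'`, `dp_mul'`,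
`HolAt.dbar`, `pb_dbar`, `pb_dp`, `pb_pf`, `DFb_pz`, `DFb_pzb`). With `a' = pb e.symm a` etc. the
operator is `a' * dbE (prj s ∘ v) + b' * (θ' * prj t v + dpE (prj t ∘ v))`. Multiply the
coefficients by a cut-off that is one near `K` and has compact support in the target
(`exists_cutoff` on the manifold `E n`, `smAt_E`, `MF2a_fn_iff`; or `INT2_ext`). Off
`e.symm '' K` both sides vanish (`tsupport_dbar`, `tsupport_dp`). -/
theorem Loc.po_up (hG : ∀ p, GOk G p) {a b : Fm n X} (ha : Sm 1 a univ) (hb : Sm 1 b univ)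
    (s t : ℕ × ℕ) {K : Set (E n)} (hK : IsCompact K) (hs : K ⊆ D.e.target) :
    ∃ (A : Fin n ⊕ Fin n → E n → Λ n →L[ℝ] Λ n) (C : E n → Λ n →L[ℝ] Λ n),
      (∀ i, Sc (A i)) ∧ Sc C ∧ ∀ v : E n → Λ n, ContDiff ℝ ∞ v → tsupport v ⊆ K →
        Po G a b s t (D.up v) = D.up (Qm A C v) := by
  have hθ : Sm 1 (b * ((fun y => (D.σ y)⁻¹) • dp G (fn n D.σ))) D.e.source := by
    intro y hy
    have h1 := (D.hol y hy).smAt
    refine (hb y (mem_univ _)).mul_left
      (((h1.fn_inv (hG y) (D.ne y hy)).fsmul (h1.dp (hG y))).gauge ?_)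
    rw [mul_comm]
    exact (hG y).mul_inv
  obtain ⟨a', a1, a2⟩ := CHc_ext D.he hK hs (α := a) fun y _ => ha y (mem_univ _)
  obtain ⟨b', b1, b2⟩ := CHc_ext D.he hK hs (α := b) fun y _ => hb y (mem_univ _)
  obtain ⟨c', c1, c2⟩ := CHc_ext D.he hK hs hθ
  obtain ⟨A, C, hA, hC, hQ⟩ := CHc_model a1 b1 c1 s t
  refine ⟨A, C, hA, hC, fun v hv hvK => funext fun y => ?_⟩
  by_cases hy : y ∈ D.e.symm '' K
  · obtain ⟨z, hz, rfl⟩ := hy
    have hy := D.e.map_target (hs hz)
    have hyz := D.e.right_inv (hs hz)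
    generalize D.e.symm z = y at hy hyz
    subst hyz
    have hm := D.he.1 y hy
    have hσ := (D.hol y hy).smAt
    have hw : ∀ c d, SmAt 1 (fun w => prj c d (v w)) (D.e y) := fun c d =>
      smAt_E.2 (.of_forall fun w => ((MF2b_lin (prj c d)).comp hv).contDiffAt)
    have e1 : (G * 1) y =ᶠ[𝓝 y] G y := by rw [mul_one]
    have h1 := dbar_mul' e1 (hG y) gok_one hσ (MF2b_pb hm (hw s.1 s.2))
    have h2 := dp_mul' e1 (hG y) gok_one hσ (MF2b_pb hm (hw t.1 t.2))
    have h3 := pb_dbar hm (hw s.1 s.2)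
    have h4 := pb_dp hm gok_one (hw t.1 t.2)
    rw [gpb_one, dbar_E] at h3
    rw [gpb_one, dp_E] at h4
    rw [← dbar_congr (CHc_pf D hy _ _), (D.hol y hy).dbar, zero_mul, zero_add, ← h3, fn,
      CHc_gi] at h1
    rw [← dp_congr (CHc_pf D hy _ _), ← h4, fn, CHc_gi] at h2
    have k1 : lm (df D.e y) (a' (D.e y)) = a y := by
      rw [a2 _ hz]
      exact pb_chart D.he hy a
    have k2 : lm (df D.e y) (b' (D.e y)) = b y := by
      rw [b2 _ hz]
      exact pb_chart D.he hy b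
    have k3 : lm (df D.e y) (c' (D.e y)) = b y * (D.σ y)⁻¹ • dp G (fn n D.σ) y := by
      rw [c2 _ hz]
      exact pb_chart D.he hy _
    rw [Po, Pi.add_apply, Pi.mul_apply, Pi.mul_apply, h1, h2, Loc.up, indicator_of_mem hy,
      Pi.smul_apply']
    simp only [pb]
    rw [hQ v _ (hv.differentiable (by simp) _), map_add, map_add, map_mul, map_mul, map_mul, k1,
      k2, k3]
    simp only [smul_add, mul_add, mul_smul_comm, smul_mul_assoc, smul_smul,
      mul_inv_cancel₀ (D.ne y hy), one_smul, mul_assoc]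
  · rw [image_eq_zero_of_notMem_tsupport fun h =>
      hy ((D.up_sms hG hK hs hv hvK).supp (CHc_ts h))]
    by_cases hy' : y ∈ D.e.source
    · have h1 : D.e y ∉ tsupport v := fun h => hy ⟨_, hvK h, D.e.left_inv hy'⟩
      have h2 : v =ᶠ[𝓝 (D.e y)] 0 := notMem_tsupport_iff_eventuallyEq.1 h1
      have h3 : Qm A C v (D.e y) = 0 := by
        simp only [Qm, h2.fderiv_eq, h2.self_of_nhds, fderiv_zero, Pi.zero_apply, zero_apply,
          map_zero, Finset.sum_const_zero, add_zero]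
      rw [Loc.up, indicator_of_mem hy', Pi.smul_apply', pb, h3, map_zero, smul_zero]
    · rw [Loc.up, indicator_of_notMem hy']

variable {a b : Fm n X} {s t : ℕ × ℕ} {V W : Fm n X}

theorem po_sm (hG : ∀ p, GOk G p) (ha : Sm 1 a univ) (hb : Sm 1 b univ) (hV : Sm G V univ) :
    Sm G (Po G a b s t V) univ := by
  intro p hp
  exact ((ha p hp).mul_left (((hV p hp).pf _ _).dbar (hG p))).add
    ((hb p hp).mul_left (((hV p hp).pf _ _).dp (hG p)))

theorem po_add (hG : ∀ p, GOk G p) (hV : Sm G V univ) (hW : Sm G W univ) :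
    Po G a b s t (V + W) = Po G a b s t V + Po G a b s t W := by
  have h0 : ∀ c d, pf c d (V + W) = pf c d V + pf c d W := fun c d =>
    funext fun y => map_add (prj c d) _ _
  funext p
  have hp := mem_univ p
  simp only [Po, Pi.add_apply, Pi.mul_apply]
  rw [h0, h0, dbar_add ((hV p hp).pf _ _) ((hW p hp).pf _ _),
    dp_add (hG p) ((hV p hp).pf _ _) ((hW p hp).pf _ _), mul_add, mul_add]
  abel

theorem po_tsupport : tsupport (Po G a b s t V) ⊆ tsupport V := by
  exact CHc_ts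

end

end Pool.Agent.MP_1c689d_ag.K0.L2

end

section

/-! Integration by parts against a kernel. -/

set_option autoImplicit false

open Complex Filter Topology Set MeasureTheory
open scoped ComplexConjugate ContDiff ENNReal NNReal

namespace Pool.Agent.MP_1c689d_ag.K0.L2

noncomputable section

variable {n : ℕ} {W W' : Type} [NormedAddCommGroup W] [NormedSpace ℝ W] [NormedAddCommGroup W']
  [NormedSpace ℝ W']

theorem IB_int {b : E n → W →L[ℝ] W'} {u : E n → W} (hb : Continuous b)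
    (hc : HasCompactSupport b) (hu : Continuous u) : Integrable fun t => b t (u t) :=
  (hb.clm_apply hu).integrable_of_hasCompactSupport (hc.mono fun t ht h => ht (by
    simp only [h, zero_apply]))

/-- The derivative of `t ↦ v (x - t)` in the direction `e` is `- fderiv v (x - t) e`; use
`integral_bilinear_hasLineDerivAt_right_eq_neg_left_of_integrable` or the vanishing of the integral
of the derivative of the compactly supported function `t ↦ b t (v (x - t))`. -/
theorem ibp_eq [CompleteSpace W'] {b : E n → W →L[ℝ] W'} {v : E n → W} (hb : ContDiff ℝ 1 b)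
    (hc : HasCompactSupport b) (hv : ContDiff ℝ 1 v) (x e : E n) :
    ∫ t, b t (fderiv ℝ v (x - t) e) = ∫ t, fderiv ℝ b t e (v (x - t)) := by
  have hx : Continuous fun t : E n => x - t := continuous_const.sub continuous_id
  have hv' : Continuous fun t => fderiv ℝ v (x - t) e :=
    ((hv.continuous_fderiv one_ne_zero).comp hx).clm_apply continuous_const
  have hb' : Continuous fun t => fderiv ℝ b t e :=
    (hb.continuous_fderiv one_ne_zero).clm_apply continuous_const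
  have h := integral_bilinear_hasLineDerivAt_right_eq_neg_left_of_integrable (μ := volume)
    (f := b) (f' := fun t => fderiv ℝ b t e) (g := fun t => v (x - t))
    (g' := fun t => -fderiv ℝ v (x - t) e) (v := e) (B := ContinuousLinearMap.id ℝ (W →L[ℝ] W'))
    (IB_int hb' (hc.fderiv_apply ℝ e) (hv.continuous.comp hx))
    (IB_int hb.continuous hc hv'.neg) (IB_int hb.continuous hc (hv.continuous.comp hx))
    (fun t _ => (hb.differentiable one_ne_zero t).hasFDerivAt.hasLineDerivAt e)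
    fun t _ => by
      have h1 := ((hv.differentiable one_ne_zero (x - t)).hasFDerivAt.comp t
        ((hasFDerivAt_id t).const_sub x)).hasLineDerivAt e
      simpa only [ContinuousLinearMap.comp_apply, neg_apply, ContinuousLinearMap.id_apply,
        map_neg] using! h1
  simp only [ContinuousLinearMap.id_apply, map_neg, integral_neg, neg_inj] at h
  exact h

theorem ibp_kernel [CompleteSpace W'] {b : E n → W →L[ℝ] W'} {v : E n → W} {ψ : E n → ℝ}
    (hb : ContDiff ℝ 1 b) (hc : HasCompactSupport b) (hv : ContDiff ℝ 1 v) (hψ : Continuous ψ)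
    (hψc : HasCompactSupport ψ) (x e : E n) (h : ∀ t, ‖fderiv ℝ b t e‖ ≤ ψ t) :
    ‖∫ t, b t (fderiv ℝ v (x - t) e)‖ ≤ ∫ t, ψ t * ‖v (x - t)‖ := by
  have hu : Continuous fun t => ‖v (x - t)‖ :=
    (hv.continuous.comp (continuous_const.sub continuous_id)).norm
  rw [ibp_eq hb hc hv]
  refine norm_integral_le_of_norm_le ((hψ.mul hu).integrable_of_hasCompactSupport hψc.mul_right)
    (Eventually.of_forall fun t => ?_)
  exact (ContinuousLinearMap.le_opNorm _ _).trans
    (mul_le_mul_of_nonneg_right (h t) (norm_nonneg _))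

theorem norm_dir (i : Fin n ⊕ Fin n) : ‖(dir i : E n)‖ = 1 := by
  rcases i with j | j
  · exact (Pi.norm_single (G := fun _ => ℂ) (i := j) 1).trans norm_one
  · exact (Pi.norm_single (G := fun _ => ℂ) (i := j) I).trans norm_I

variable {A : Fin n ⊕ Fin n → E n → W →L[ℝ] W'} {C : E n → W →L[ℝ] W'} {v w : E n → W}

theorem Qm_tsupport : tsupport (Qm A C v) ⊆ tsupport v := by
  refine closure_minimal (fun z hz => ?_) (isClosed_tsupport v)
  by_contra h
  have h1 : fderiv ℝ v z = 0 := by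
    by_contra h1
    exact h (support_fderiv_subset ℝ h1)
  refine hz ?_
  simp only [Qm, h1, image_eq_zero_of_notMem_tsupport h, zero_apply, map_zero,
    Finset.sum_const_zero, add_zero]

theorem Qm_sc (hA : ∀ i, Sc (A i)) (hC : Sc C) (hv : Sc v) : Sc (Qm A C v) := by
  refine ⟨?_, hv.cs.of_isClosed_subset (isClosed_tsupport _) Qm_tsupport⟩
  have hd : ContDiff ℝ ∞ (fderiv ℝ v) := hv.sm.fderiv_right (le_of_eq rfl)
  exact (ContDiff.sum fun i _ => (hA i).sm.clm_apply (hd.clm_apply contDiff_const)).add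
    (hC.sm.clm_apply hv.sm)

/-- A smooth function with compact support is bounded, Lipschitz, with bounded derivative. -/
theorem Sc.lip {f : E n → W} (h : Sc f) : ∃ M : ℝ, 0 < M ∧ (∀ x, ‖f x‖ ≤ M) ∧
    (∀ x, ‖fderiv ℝ f x‖ ≤ M) ∧ ∀ x t, ‖f x - f (x - t)‖ ≤ M * ‖t‖ := by
  obtain ⟨a, ha⟩ := h.cs.exists_bound_of_continuous h.sm.continuous
  obtain ⟨b, hb⟩ := (h.cs.fderiv ℝ).exists_bound_of_continuous
    (h.sm.continuous_fderiv (by simp))
  have h1 : ∀ x, ‖fderiv ℝ f x‖ ≤ max 1 (max a b) := fun x =>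
    (hb x).trans ((le_max_right _ _).trans (le_max_right _ _))
  refine ⟨max 1 (max a b), lt_max_of_lt_left one_pos,
    fun x => (ha x).trans ((le_max_left _ _).trans (le_max_right _ _)), h1, fun x t => ?_⟩
  have h2 := Convex.norm_image_sub_le_of_norm_fderiv_le (𝕜 := ℝ) (s := univ)
    (fun y _ => h.sm.differentiable (by simp) y) (fun y _ => h1 y) convex_univ
    (mem_univ (x - t)) (mem_univ x)
  rwa [sub_sub_cancel] at h2

end

end Pool.Agent.MP_1c689d_ag.K0.L2

end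

section

/-! The lemma of Friedrichs on the model space. -/

set_option autoImplicit false

open Complex Filter Topology Set MeasureTheory
open scoped ComplexConjugate ContDiff ENNReal NNReal

namespace Pool.Agent.MP_1c689d_ag.K0.L2

noncomputable section

variable {n : ℕ} {W W' : Type} [NormedAddCommGroup W] [NormedSpace ℝ W] [NormedAddCommGroup W']
  [NormedSpace ℝ W']

/-- The number of terms of the operator. -/
def FR_N (n : ℕ) : ℝ := Fintype.card (Fin n ⊕ Fin n) + 1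

theorem FR_N_pos (n : ℕ) : 0 < FR_N n := by
  rw [FR_N]
  positivity

omit [NormedSpace ℝ W] in
theorem FR_sum {a : Fin n ⊕ Fin n → W} {c : W} {r : ℝ} (ha : ∀ i, ‖a i‖ ≤ r) (hc : ‖c‖ ≤ r) :
    ‖∑ i, a i + c‖ ≤ FR_N n * r := by
  have h := (norm_sum_le _ a).trans (Finset.sum_le_card_nsmul Finset.univ _ r fun i _ => ha i)
  rw [nsmul_eq_mul, Finset.card_univ] at h
  rw [FR_N, add_mul, one_mul]
  exact (norm_add_le _ _).trans (add_le_add h hc)

theorem FR_int {ρ : E n → ℝ} (hρ : Continuous ρ) (hc : HasCompactSupport ρ) {f : E n → W}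
    (hf : Continuous f) : Integrable fun t => ρ t • f t :=
  (hρ.smul hf).integrable_of_hasCompactSupport hc.smul_right

theorem FR_der {f : E n → W} (hf : ContDiff ℝ ∞ f) {M : ℝ} (h : ∀ x, ‖fderiv ℝ f x‖ ≤ M)
    (x t : E n) (i : Fin n ⊕ Fin n) : ‖fderiv ℝ (fun t => f (x - t)) t (dir i)‖ ≤ M := by
  have h1 : HasFDerivAt (fun t => f (x - t))
      ((fderiv ℝ f (x - t)).comp (-ContinuousLinearMap.id ℝ (E n))) t :=
    (hf.differentiable (by simp) (x - t)).hasFDerivAt.comp t ((hasFDerivAt_id t).const_sub x)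
  rw [h1.fderiv, ContinuousLinearMap.comp_apply]
  refine (ContinuousLinearMap.le_opNorm _ _).trans ?_
  simpa [norm_dir] using h _

theorem FR_const {A : Fin n ⊕ Fin n → E n → W} {C : E n → W} (hA : ∀ i, Sc (A i)) (hC : Sc C) :
    ∃ M : ℝ, 0 ≤ M ∧ (∀ i x, ‖A i x‖ ≤ M) ∧ (∀ i x, ‖fderiv ℝ (A i) x‖ ≤ M) ∧
      (∀ i x t, ‖A i x - A i (x - t)‖ ≤ M * ‖t‖) ∧ (∀ x, ‖C x‖ ≤ M) ∧
      (∀ x t, ‖C x - C (x - t)‖ ≤ M) ∧ ∀ x t, ‖C x - C (x - t)‖ ≤ M * ‖t‖ := by
  choose m h0 h1 h2 h3 using fun i => (hA i).lip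
  obtain ⟨c, k0, k1, -, k3⟩ := hC.lip
  have hs : 0 ≤ ∑ i, m i := Finset.sum_nonneg fun i _ => (h0 i).le
  have hm : ∀ i, m i ≤ ∑ i, m i + 2 * c := fun i => by
    linarith [Finset.single_le_sum (fun i _ => (h0 i).le) (Finset.mem_univ i)]
  have hc : c ≤ ∑ i, m i + 2 * c := by linarith
  refine ⟨∑ i, m i + 2 * c, by linarith, fun i x => (h1 i x).trans (hm i),
    fun i x => (h2 i x).trans (hm i),
    fun i x t => (h3 i x t).trans (mul_le_mul_of_nonneg_right (hm i) (norm_nonneg _)),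
    fun x => (k1 x).trans hc, fun x t => ?_,
    fun x t => (k3 x t).trans (mul_le_mul_of_nonneg_right hc (norm_nonneg _))⟩
  linarith [norm_sub_le (C x) (C (x - t)), k1 x, k1 (x - t)]

theorem FR_young {ρ w : E n → ℝ} (hρ : ContDiff ℝ ∞ ρ) (hc : HasCompactSupport ρ)
    (h0 : ∀ t, 0 ≤ ρ t) (hw : Continuous w) (hw0 : ∀ t, 0 ≤ w t) {M : ℝ} (hM : 0 ≤ M)
    {r : E n → W'} {v : E n → W} (hv : Continuous v)
    (h : ∀ x, ‖r x‖ ≤ ∫ t, FR_N n * M * (ρ t + w t * ‖fderiv ℝ ρ t‖) * ‖v (x - t)‖) :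
    q2 r ≤ ENNReal.ofReal ((∫ t, FR_N n * M * (ρ t + w t * ‖fderiv ℝ ρ t‖)) ^ 2) * q2 v :=
  young hv (continuous_const.mul (hρ.continuous.add (hw.mul (hρ.continuous_fderiv (by simp)).norm)))
    (hc.add (hc.fderiv (𝕜 := ℝ)).norm.mul_left).mul_left
    (fun t => mul_nonneg (mul_nonneg (FR_N_pos n).le hM)
      (add_nonneg (h0 t) (mul_nonneg (hw0 t) (norm_nonneg _)))) h

theorem FR_split {ρ : E n → ℝ} (hρ : Continuous ρ) (hc : HasCompactSupport ρ)
    {f : Fin n ⊕ Fin n → E n → W} {g : E n → W} (hf : ∀ i, Continuous (f i)) (hg : Continuous g) :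
    ∫ t, ρ t • (∑ i, f i t + g t) = ∑ i, (∫ t, ρ t • f i t) + ∫ t, ρ t • g t := by
  simp only [smul_add, Finset.smul_sum]
  rw [integral_add (integrable_finsetSum _ fun i _ => FR_int hρ hc (hf i)) (FR_int hρ hc hg),
    integral_finsetSum _ fun i _ => FR_int hρ hc (hf i)]

theorem FR_ibp [CompleteSpace W'] {ρ w : E n → ℝ} (hρ : ContDiff ℝ ∞ ρ) (hc : HasCompactSupport ρ)
    (h0 : ∀ t, 0 ≤ ρ t) (hw : Continuous w) (hw0 : ∀ t, 0 ≤ w t) {M : ℝ} (hM : 0 ≤ M)
    {v : E n → W} (hv : ContDiff ℝ ∞ v) (x : E n) {a : Fin n ⊕ Fin n → E n → W →L[ℝ] W'}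
    {c : E n → W →L[ℝ] W'} (ha : ∀ i, ContDiff ℝ ∞ (a i)) (hcc : Continuous c)
    (h1 : ∀ i t, ‖a i t‖ ≤ M * w t) (h2 : ∀ i t, ‖fderiv ℝ (a i) t (dir i)‖ ≤ M)
    (h3 : ∀ t, ‖c t‖ ≤ M) :
    ‖∫ t, ρ t • (∑ i, a i t (fderiv ℝ v (x - t) (dir i)) + c t (v (x - t)))‖ ≤
      ∫ t, FR_N n * M * (ρ t + w t * ‖fderiv ℝ ρ t‖) * ‖v (x - t)‖ := by
  have hx : Continuous fun t : E n => x - t := continuous_const.sub continuous_id
  have hd : Continuous (fderiv ℝ v) := hv.continuous_fderiv (by simp)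
  have hψ : Continuous fun t => M * (ρ t + w t * ‖fderiv ℝ ρ t‖) :=
    continuous_const.mul (hρ.continuous.add (hw.mul (hρ.continuous_fderiv (by simp)).norm))
  have hψc : HasCompactSupport fun t => M * (ρ t + w t * ‖fderiv ℝ ρ t‖) :=
    (hc.add (hc.fderiv (𝕜 := ℝ)).norm.mul_left).mul_left
  have hf : ∀ i, Continuous fun t => a i t (fderiv ℝ v (x - t) (dir i)) := fun i =>
    (ha i).continuous.clm_apply ((hd.comp hx).clm_apply continuous_const)
  have hg : Continuous fun t => c t (v (x - t)) := hcc.clm_apply (hv.continuous.comp hx)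
  rw [FR_split hρ.continuous hc hf hg]
  simp only [mul_assoc (FR_N n)]
  rw [integral_const_mul]
  refine FR_sum (fun i => ?_) ?_
  · refine ibp_kernel (b := fun t => ρ t • a i t) ((hρ.smul (ha i)).of_le (by simp))
      hc.smul_right (hv.of_le (by simp)) hψ hψc x (dir i) fun t => ?_
    have h4 : ‖fderiv ℝ ρ t (dir i)‖ ≤ ‖fderiv ℝ ρ t‖ := by
      simpa [norm_dir] using (fderiv ℝ ρ t).le_opNorm (dir i)
    rw [fderiv_fun_smul (hρ.differentiable (by simp) t) ((ha i).differentiable (by simp) t),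
      add_apply, smul_apply, ContinuousLinearMap.smulRight_apply]
    refine (norm_add_le _ _).trans ?_
    rw [norm_smul, norm_smul, Real.norm_of_nonneg (h0 t)]
    have h5 := mul_le_mul_of_nonneg_left (h2 i t) (h0 t)
    have h6 := mul_le_mul h4 (h1 i t) (norm_nonneg _) (norm_nonneg _)
    linarith
  · refine norm_integral_le_of_norm_le
      ((hψ.mul (hv.continuous.comp hx).norm).integrable_of_hasCompactSupport hψc.mul_right)
      (.of_forall fun t => ?_)
    rw [norm_smul, Real.norm_of_nonneg (h0 t)]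
    have h5 := mul_le_mul_of_nonneg_left (((c t).le_opNorm (v (x - t))).trans
      (mul_le_mul_of_nonneg_right (h3 t) (norm_nonneg _))) (h0 t)
    have h6 : 0 ≤ M * (w t * ‖fderiv ℝ ρ t‖) * ‖v (x - t)‖ :=
      mul_nonneg (mul_nonneg hM (mul_nonneg (hw0 t) (norm_nonneg _))) (norm_nonneg _)
    linarith

variable [CompleteSpace W] [CompleteSpace W'] {φ : ℕ → E n → ℝ} {δ : ℝ}
  {A : Fin n ⊕ Fin n → E n → W →L[ℝ] W'} {C : E n → W →L[ℝ] W'}

theorem FR_comm (hφ : Mol φ δ) (hA : ∀ i, Sc (A i)) (hC : Sc C) {v : E n → W} (hv : Sc v) (j : ℕ)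
    (x : E n) : (Qm A C (Jm (φ j) v) - Jm (φ j) (Qm A C v)) x =
      ∫ t, φ j t • (∑ i, (A i x - A i (x - t)) (fderiv ℝ v (x - t) (dir i)) +
        (C x - C (x - t)) (v (x - t))) := by
  have hρ := (hφ.sm j).continuous
  have hc := hφ.cs j
  have hx : Continuous fun t : E n => x - t := continuous_const.sub continuous_id
  have hd : Continuous fun t => fderiv ℝ v (x - t) := (hv.sm.continuous_fderiv (by simp)).comp hx
  have hv' : Continuous fun t => v (x - t) := hv.sm.continuous.comp hx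
  have hf : ∀ i, Continuous fun t => A i x (fderiv ℝ v (x - t) (dir i)) := fun i =>
    (A i x).continuous.comp (hd.clm_apply continuous_const)
  have hg : Continuous fun t => C x (v (x - t)) := (C x).continuous.comp hv'
  have hs : Continuous fun t => ∑ i, A i x (fderiv ℝ v (x - t) (dir i)) + C x (v (x - t)) :=
    (continuous_finsetSum _ fun i _ => hf i).add hg
  have hq : Continuous fun t => Qm A C v (x - t) := (Qm_sc hA hC hv).sm.continuous.comp hx
  have e1 : Qm A C (Jm (φ j) v) x =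
      ∫ t, φ j t • (∑ i, A i x (fderiv ℝ v (x - t) (dir i)) + C x (v (x - t))) := by
    rw [FR_split hρ hc hf hg, Qm, Jm_fderiv hφ hv, Jm, Jm,
      ← (C x).integral_comp_comm (FR_int hρ hc hv')]
    simp only [map_smul]
    congr 1
    refine Finset.sum_congr rfl fun i _ => ?_
    rw [ContinuousLinearMap.integral_apply (FR_int hρ hc hd)]
    simp only [smul_apply]
    rw [← (A i x).integral_comp_comm (FR_int hρ hc (hd.clm_apply continuous_const))]
    simp only [map_smul]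
  rw [Pi.sub_apply, e1, Jm, ← integral_sub (FR_int hρ hc hs) (FR_int hρ hc hq)]
  refine integral_congr_ae (.of_forall fun t => ?_)
  simp only [Qm, ← smul_sub, sub_apply, Finset.sum_sub_distrib]
  congr 1
  abel

/-- The commutator at `x` is
`∑ i, ∫ b i t (fderiv v (x - t) (dir i)) + ∫ φ t • (C x - C (x - t)) (v (x - t))` with
`b i t = φ t • (A i x - A i (x - t))`, whose derivative has norm at most
`M (‖t‖ ‖fderiv φ t‖ + φ t)` (`Sc.lip`); `Jm_fderiv`, `ibp_kernel`, `young`, `Mol.bd`. -/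
theorem fr_bd (hφ : Mol φ δ) (hA : ∀ i, Sc (A i)) (hC : Sc C) :
    ∃ M : ℝ≥0, ∀ j (v : E n → W), Sc v →
    q2 (Qm A C (Jm (φ j) v) - Jm (φ j) (Qm A C v)) ≤ M * q2 v := by
  obtain ⟨M, hM, -, h2, h3, -, h5, -⟩ := FR_const hA hC
  obtain ⟨C₀, hC₀⟩ := hφ.bd
  refine ⟨Real.toNNReal ((FR_N n * M * (1 + C₀)) ^ 2), fun j v hv => ?_⟩
  have hρ := hφ.sm j
  have hd : Continuous (fderiv ℝ (φ j)) := hρ.continuous_fderiv (by simp)
  have hi : Integrable fun t => ‖t‖ * ‖fderiv ℝ (φ j) t‖ :=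
    (continuous_norm.mul hd.norm).integrable_of_hasCompactSupport
      ((hφ.cs j).fderiv (𝕜 := ℝ)).norm.mul_left
  have hi' : Integrable (φ j) := hρ.continuous.integrable_of_hasCompactSupport (hφ.cs j)
  have h0 : 0 ≤ ∫ t, ‖t‖ * ‖fderiv ℝ (φ j) t‖ := integral_nonneg fun t => by positivity
  have hN := mul_nonneg (FR_N_pos n).le hM
  refine (FR_young (w := fun t => ‖t‖) hρ (hφ.cs j) (hφ.nonneg j) continuous_norm norm_nonneg hM
    hv.sm.continuous fun x => ?_).trans ?_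
  · rw [FR_comm hφ hA hC hv]
    refine FR_ibp hρ (hφ.cs j) (hφ.nonneg j) continuous_norm norm_nonneg hM hv.sm x
      (fun i => contDiff_const.sub ((hA i).sm.comp (contDiff_const.sub contDiff_id)))
      (continuous_const.sub (hC.sm.continuous.comp (continuous_const.sub continuous_id)))
      (fun i t => h3 i x t) (fun i t => ?_) (fun t => h5 x t)
    rw [fderiv_const_sub, neg_apply, norm_neg]
    exact FR_der (hA i).sm (h2 i) x t i
  · rw [integral_const_mul, integral_add hi' hi, hφ.int]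
    refine mul_le_mul_left (ENNReal.ofReal_le_ofReal ?_) _
    gcongr
    exact hC₀ j

/-- Without integration by parts: the commutator is at most
`M δ / (j + 1) ∫ φ t (‖fderiv v (x - t)‖ + ‖v (x - t)‖)`; `young` for the pair
`(fderiv v, v)`. -/
theorem fr_lim (hφ : Mol φ δ) (hA : ∀ i, Sc (A i)) (hC : Sc C) {v : E n → W} (hv : Sc v) :
    Tendsto (fun j => q2 (Qm A C (Jm (φ j) v) - Jm (φ j) (Qm A C v))) atTop (𝓝 0) := by
  obtain ⟨M, hM, -, -, h3, -, -, h6⟩ := FR_const hA hC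
  have hδ := hφ.pos
  have hN := FR_N_pos n
  have hd : Continuous (fderiv ℝ v) := hv.sm.continuous_fderiv (by simp)
  have hu : Continuous fun z => (fderiv ℝ v z, v z) := hd.prodMk hv.sm.continuous
  have hq : q2 (fun z => (fderiv ℝ v z, v z)) ≠ ⊤ := by
    refine q2_ne_top hu (hv.cs.mono' fun z hz => ?_)
    by_contra h
    exact hz (Prod.ext (fderiv_of_notMem_tsupport ℝ h)
      (image_eq_zero_of_notMem_tsupport (f := v) h))
  have key : ∀ j : ℕ, q2 (Qm A C (Jm (φ j) v) - Jm (φ j) (Qm A C v)) ≤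
      ENNReal.ofReal ((FR_N n * M * (δ / (j + 1))) ^ 2) * q2 fun z => (fderiv ℝ v z, v z) := by
    intro j
    have hρ := (hφ.sm j).continuous
    have h1 := young (r := Qm A C (Jm (φ j) v) - Jm (φ j) (Qm A C v))
      (ψ := fun t => FR_N n * M * (δ / (j + 1)) * φ j t) hu
      (continuous_const.mul hρ) (hφ.cs j).mul_left
      (fun t => mul_nonneg (by positivity) (hφ.nonneg j t)) fun x => ?_
    · rwa [integral_const_mul, hφ.int, mul_one] at h1
    · rw [FR_comm hφ hA hC hv]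
      refine norm_integral_le_of_norm_le ?_ (.of_forall fun t => ?_)
      · exact ((continuous_const.mul hρ).mul (hu.comp (continuous_const.sub
          continuous_id)).norm).integrable_of_hasCompactSupport (hφ.cs j).mul_left.mul_right
      · by_cases h0 : φ j t = 0
        · simp [h0]
        have h7 : M * ‖t‖ ≤ M * (δ / (j + 1)) := mul_le_mul_of_nonneg_left (hφ.supp j t h0) hM
        rw [norm_smul, Real.norm_of_nonneg (hφ.nonneg j t), mul_comm _ (φ j t), mul_assoc]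
        refine mul_le_mul_of_nonneg_left ?_ (hφ.nonneg j t)
        rw [mul_assoc (FR_N n), mul_assoc (FR_N n)]
        refine FR_sum (fun i => ?_) ?_
        · refine (ContinuousLinearMap.le_opNorm _ _).trans
            (mul_le_mul ((h3 i x t).trans h7) ?_ (norm_nonneg _) (by positivity))
          refine (ContinuousLinearMap.le_opNorm _ _).trans ?_
          rw [norm_dir, mul_one]
          exact le_max_left _ _
        · exact (ContinuousLinearMap.le_opNorm _ _).trans (mul_le_mul ((h6 x t).trans h7)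
            (le_max_right _ _) (norm_nonneg _) (by positivity))
  have h8 : Tendsto (fun j : ℕ => (FR_N n * M * (δ / (j + 1))) ^ 2) atTop (𝓝 0) := by
    have h9 : Tendsto (fun j : ℕ => δ / ((j : ℝ) + 1)) atTop (𝓝 0) :=
      tendsto_const_nhds.div_atTop (tendsto_atTop_add_const_right _ _ tendsto_natCast_atTop_atTop)
    simpa using (h9.const_mul (FR_N n * M)).pow 2
  have h10 := ENNReal.Tendsto.mul_const (ENNReal.tendsto_ofReal h8) (Or.inr hq)
  rw [ENNReal.ofReal_zero, zero_mul] at h10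
  exact tendsto_of_tendsto_of_tendsto_of_le_of_le tendsto_const_nhds h10 (fun _ => zero_le) key

/-- As `fr_bd` with `b i t = φ t • A i (x - t)`. -/
theorem fr_fix (hφ : Mol φ δ) (hA : ∀ i, Sc (A i)) (hC : Sc C) (j : ℕ) :
    ∃ M : ℝ≥0, ∀ v : E n → W, Sc v →
    q2 (Jm (φ j) (Qm A C v)) ≤ M * q2 v := by
  obtain ⟨M, hM, h1, h2, -, h4, -, -⟩ := FR_const hA hC
  refine ⟨Real.toNNReal ((∫ t, FR_N n * M * (φ j t + 1 * ‖fderiv ℝ (φ j) t‖)) ^ 2),
    fun v hv => ?_⟩
  refine FR_young (w := fun _ => 1) (hφ.sm j) (hφ.cs j) (hφ.nonneg j) continuous_const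
    (fun _ => zero_le_one) hM hv.sm.continuous fun x => ?_
  exact FR_ibp (a := fun i t => A i (x - t)) (c := fun t => C (x - t)) (w := fun _ => 1)
    (hφ.sm j) (hφ.cs j) (hφ.nonneg j) continuous_const (fun _ => zero_le_one) hM hv.sm x
    (fun i => (hA i).sm.comp (contDiff_const.sub contDiff_id))
    (hC.sm.continuous.comp (continuous_const.sub continuous_id))
    (fun i t => by rw [mul_one]; exact h1 i _) (fun i t => FR_der (hA i).sm (h2 i) x t i)
    fun t => h4 _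

end

end Pool.Agent.MP_1c689d_ag.K0.L2

end

section

/-! Smoothing operators: the estimates. -/

set_option autoImplicit false

open Complex Filter Topology Set MeasureTheory
open scoped ComplexConjugate ContDiff ENNReal NNReal

namespace Pool.Agent.MP_1c689d_ag.K0.L2

noncomputable section

variable {n : ℕ} {X : Type} [TopologicalSpace X] [Mf n X] [MeasurableSpace X] [BorelSpace X]
  [CompactSpace X] {G : Ga X} (D : Loc n G) {φ : ℕ → E n → ℝ} {δ : ℝ} {L : Set X}

theorem SOb_sub {u w : E n → Λ n} {K : Set (E n)} (hK : IsCompact K) (hu : tsupport u ⊆ K)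
    (hw : tsupport w ⊆ K) : tsupport (u - w) ⊆ K :=
  closure_minimal ((Function.support_sub u w).trans
    (union_subset ((subset_tsupport u).trans hu) ((subset_tsupport w).trans hw))) hK.isClosed

/-- `K = cthickening δ (e '' L)` is compact. For `V` with support in `L` put `v = dn V`; then
`V = up v`, `Po V = up (Qm v)` (`po_up` for `K`), `dn (Po V) = Qm v` (`dn_up'`, `Qm_tsupport`),
`Po (S V) - S (Po V) = up (Qm (Jm v) - Jm (Qm v))`. Transport `Jm_q2_le`, `Jm_tendsto`, `fr_bd`,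
`fr_lim`, `fr_fix` with `nq_up_le`, `q2_dn_le`, `nr_le_of_nq`, `tendsto_nr_of_nq`. -/
theorem Loc.so_b (hG : ∀ p, GOk G p) (hφ : Mol φ δ) (hL : IsCompact L) (hs : L ⊆ D.e.source)
    (hK : Metric.cthickening δ (D.e '' L) ⊆ D.e.target) {a b : Fm n X} (ha : Sm 1 a univ)
    (hb : Sm 1 b univ) (s t : ℕ × ℕ) : SOb G (Po G a b s t) L fun j => D.S (φ j) := by
  have hL' : IsCompact (D.e '' L) := hL.image_of_continuousOn (D.e.continuousOn.mono hs)
  have hc : IsCompact (Metric.cthickening δ (D.e '' L)) := hL'.cthickening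
  obtain ⟨A, C, hA, hC, hP⟩ := D.po_up hG ha hb s t hc hK
  obtain ⟨C1, h1⟩ := D.nq_up_le hG hc hK
  obtain ⟨C2, h2⟩ := D.q2_dn_le hG hL hs
  have hJ : ∀ j (v : E n → Λ n), tsupport v ⊆ D.e '' L →
      tsupport (Jm (φ j) v) ⊆ Metric.cthickening δ (D.e '' L) := fun j v hv =>
    (Jm_tsupport hφ j).trans (Metric.cthickening_subset_of_subset δ hv)
  have hsc : ∀ V, SmS G L V → Sc (D.dn V) := fun V hV => (D.dn_sc hG hL hs hV).1
  have hts : ∀ V, SmS G L V → tsupport (D.dn V) ⊆ D.e '' L := fun V hV => (D.dn_sc hG hL hs hV).2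
  have hts' : ∀ V, SmS G L V → tsupport (D.dn V) ⊆ Metric.cthickening δ (D.e '' L) :=
    fun V hV => (hts V hV).trans (Metric.self_subset_cthickening _)
  have hup : ∀ V, SmS G L V → D.up (D.dn V) = V := fun V hV =>
    D.up_dn' ((subset_tsupport V).trans (hV.supp.trans hs))
  have hSP : ∀ j V, SmS G L V →
      D.S (φ j) (Po G a b s t V) = D.up (Jm (φ j) (Qm A C (D.dn V))) := fun j V hV => by
    have e1 : Po G a b s t V = D.up (Qm A C (D.dn V)) := by
      rw [← hP _ (hsc V hV).sm (hts' V hV), hup V hV]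
    rw [Loc.S, e1, D.dn_up' ((subset_tsupport _).trans (Qm_tsupport.trans ((hts' V hV).trans hK)))]
  have hcm : ∀ j V, SmS G L V → Po G a b s t (D.S (φ j) V) - D.S (φ j) (Po G a b s t V) =
      D.up (Qm A C (Jm (φ j) (D.dn V)) - Jm (φ j) (Qm A C (D.dn V))) := fun j V hV => by
    rw [hSP j V hV, D.up_sub, ← hP _ (Jm_sc hφ (hsc V hV) j).sm (hJ j _ (hts V hV))]
    rfl
  have hQ : ∀ j V, SmS G L V →
      tsupport (Jm (φ j) (Qm A C (D.dn V))) ⊆ Metric.cthickening δ (D.e '' L) := fun j V hV =>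
    hJ j _ (Qm_tsupport.trans (hts V hV))
  have hQ' : ∀ j V, SmS G L V →
      tsupport (Qm A C (Jm (φ j) (D.dn V)) - Jm (φ j) (Qm A C (D.dn V))) ⊆
        Metric.cthickening δ (D.e '' L) := fun j V hV =>
    SOb_sub hc (Qm_tsupport.trans (hJ j _ (hts V hV))) (hQ j V hV)
  have hbd : ∀ (M : ℝ≥0) V (r : E n → Λ n), SmS G L V →
      tsupport r ⊆ Metric.cthickening δ (D.e '' L) → q2 r ≤ M * q2 (D.dn V) →
      nr (D.up r) ≤ Real.sqrt (C1 * M * C2 : ℝ≥0) * nr V := fun M V r hV hr h => by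
    refine nr_le_of_nq (cn_of_sm hG hV.sm) ((h1 r hr).trans ?_)
    rw [ENNReal.coe_mul, ENNReal.coe_mul, mul_assoc, mul_assoc]
    exact mul_le_mul_right (h.trans (mul_le_mul_right (h2 V hV.supp) _)) _
  have hlim : ∀ r : ℕ → E n → Λ n, (∀ j, tsupport (r j) ⊆ Metric.cthickening δ (D.e '' L)) →
      Tendsto (fun j => q2 (r j)) atTop (𝓝 0) → Tendsto (fun j => nr (D.up (r j))) atTop (𝓝 0) :=
    fun r hr h => by
      have h3 := ENNReal.Tendsto.const_mul (a := C1) h (Or.inr ENNReal.coe_ne_top)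
      rw [mul_zero] at h3
      exact tendsto_nr_of_nq (tendsto_of_tendsto_of_tendsto_of_le_of_le tendsto_const_nhds h3
        (fun _ => zero_le) fun j => h1 _ (hr j))
  refine ⟨?_, fun V hV => ⟨?_, ?_⟩, fun j => ?_⟩
  · obtain ⟨M, hM⟩ := fr_bd hφ hA hC
    refine ⟨Real.sqrt (C1 * (1 + M) * C2 : ℝ≥0), fun j V hV => ⟨?_, ?_⟩⟩
    · refine hbd _ V _ hV (hJ j _ (hts V hV)) ((Jm_q2_le hφ (hsc V hV).sm.continuous j).trans ?_)
      rw [ENNReal.coe_add, add_mul, ENNReal.coe_one, one_mul]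
      exact le_self_add
    · rw [hcm j V hV]
      refine hbd _ V _ hV (hQ' j V hV) ((hM j _ (hsc V hV)).trans ?_)
      rw [ENNReal.coe_add, add_mul]
      exact le_add_self
  · refine (hlim (fun j => Jm (φ j) (D.dn V) - D.dn V)
      (fun j => SOb_sub hc (hJ j _ (hts V hV)) (hts' V hV))
      (Jm_tendsto hφ (hsc V hV).sm.continuous (hsc V hV).cs)).congr fun j => ?_
    rw [D.up_sub, hup V hV]
    rfl
  · refine (hlim _ (fun j => hQ' j V hV) (fr_lim hφ hA hC (hsc V hV))).congr fun j => ?_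
    rw [hcm j V hV]
  · obtain ⟨M, hM⟩ := fr_fix hφ hA hC j
    refine ⟨Real.sqrt (C1 * M * C2 : ℝ≥0), fun V hV => ?_⟩
    rw [hSP j V hV]
    exact hbd _ V _ hV (hQ j V hV) (hM _ (hsc V hV))

end

end Pool.Agent.MP_1c689d_ag.K0.L2

end

section

/-! Weak equals strong. -/

set_option autoImplicit false

open Complex Filter Topology Set MeasureTheory
open scoped ComplexConjugate ContDiff ENNReal NNReal

namespace Pool.Agent.MP_1c689d_ag.K0.L2

noncomputable section

variable {n : ℕ} {X : Type} [TopologicalSpace X] [Mf n X] [MeasurableSpace X] [BorelSpace X]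
  [CompactSpace X]

/-- The norm as a seminorm on the smooth forms. -/
def WS_sn {G : Ga X} (hG : ∀ p, GOk G p) : AddGroupSeminorm (SmF n G) where
  toFun V := nr V.1
  map_zero' := nr_zero
  add_le' V W := nr_add_sm hG V.2 W.2
  neg' V := nr_neg V.1

/-- The smooth forms with support in `K`. -/
def WS_L (n : ℕ) [Mf n X] (G : Ga X) (K : Set X) : AddSubgroup (SmF n G) where
  carrier := {V | tsupport V.1 ⊆ K}
  add_mem' := fun {V W} hV hW => (tsupport_add V.1 W.1).trans (union_subset hV hW)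
  zero_mem' := by
    change tsupport (0 : Fm n X) ⊆ K
    rw [tsupport_zero]
    exact empty_subset _
  neg_mem' := fun {V} hV => by
    change tsupport (-V.1) ⊆ K
    rwa [tsupport_neg]

/-- The operator on the smooth forms. -/
def WS_P {G : Ga X} (hG : ∀ p, GOk G p) {a b : Fm n X} (ha : Sm 1 a univ) (hb : Sm 1 b univ)
    (s t : ℕ × ℕ) : SmF n G →+ SmF n G :=
  AddMonoidHom.mk' (fun V => ⟨Po G a b s t V.1, po_sm hG ha hb V.2⟩)
    fun V W => Subtype.ext (po_add hG V.2 W.2)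

omit [MeasurableSpace X] [BorelSpace X] [CompactSpace X] in
theorem WS_P_val {G : Ga X} (hG : ∀ p, GOk G p) {a b : Fm n X} (ha : Sm 1 a univ)
    (hb : Sm 1 b univ) (s t : ℕ × ℕ) (V : SmF n G) :
    (WS_P hG ha hb s t V).1 = Po G a b s t V.1 := rfl

/-- The multiplication by a smooth function. -/
def WS_R (G : Ga X) {ρ : X → ℂ} (hρ : Sm 1 (fn n ρ) univ) : SmF n G →+ SmF n G :=
  AddMonoidHom.mk' (fun V => ⟨ρ • V.1, fun p hp => (hρ p hp).fsmul_one (V.2 p hp)⟩)
    fun _ _ => Subtype.ext (smul_add _ _ _)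

open Classical in
/-- The smoothing operators, extended by zero. -/
def WS_S {G : Ga X} {K : Set X} {S : ℕ → Fm n X → Fm n X} (h : SOa G K S) (j : ℕ) (V : SmF n G) :
    SmF n G :=
  if hV : tsupport V.1 ⊆ K then ⟨S j V.1, h.sm j _ ⟨V.2, hV⟩⟩ else 0

omit [CompactSpace X] [BorelSpace X] in
theorem WS_S_val {G : Ga X} {K : Set X} {S : ℕ → Fm n X → Fm n X} (h : SOa G K S) (j : ℕ)
    {V : SmF n G} (hV : V ∈ WS_L n G K) : (WS_S h j V).1 = S j V.1 := by
  rw [WS_S, dif_pos (show tsupport V.1 ⊆ K from hV)]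

omit [CompactSpace X] [BorelSpace X] in
theorem WS_pt {G : Ga X} {ρ : X → ℂ} (hρ : Sm 1 (fn n ρ) univ) {S : ℕ → Fm n X → Fm n X}
    (h : SOa G (tsupport ρ) S) {W : ℕ → SmF n G} (hw : Wk0 G fun k => (W k).1) (j : ℕ) (y : X) :
    Tendsto (fun k => (WS_S h j (WS_R G hρ (W k))).1 y) atTop (𝓝 0) := by
  have hL : ∀ k, WS_R G hρ (W k) ∈ WS_L n G (tsupport ρ) :=
    fun k => tsupport_smul_subset_left ρ (W k).1
  simp only [WS_S_val _ _ (hL _)]
  refine h.pt j (fun k => (WS_R G hρ (W k)).1) (fun k => ⟨(WS_R G hρ (W k)).2, hL k⟩)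
    (fun φ hφ => ?_) y
  refine (hw (ρ • φ) fun p hp => (hρ p hp).fsmul_one (hφ p hp)).congr fun k => congrArg itg ?_
  funext z
  change (W k).1 z * ρ z • φ z = ρ z • (W k).1 z * φ z
  rw [smul_mul_assoc, mul_smul_comm]

theorem WS_he {G : Ga X} (hG : ∀ p, GOk G p) {ρ : X → ℂ} (hρ : Sm 1 (fn n ρ) univ)
    {S : ℕ → Fm n X → Fm n X} (h : SOa G (tsupport ρ) S) (W : ℕ → SmF n G)
    (hw : Wk0 G fun k => (W k).1) (j : ℕ) (hc : Tendsto (fun k : ℕ × ℕ => WS_sn hG
      (WS_S h j (WS_R G hρ (W k.1)) - WS_S h j (WS_R G hρ (W k.2)))) atTop (𝓝 0)) :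
    Tendsto (fun k => WS_sn hG (WS_S h j (WS_R G hρ (W k)))) atTop (𝓝 0) :=
  nr_fatou (α := fun k => (WS_S h j (WS_R G hρ (W k))).1) hG
    (fun k => (WS_S h j (WS_R G hρ (W k))).2) hc (WS_pt hρ h hw j)

/-- `exists_mol`, `IsCompact.exists_cthickening_subset_open`. -/
theorem exists_so {G : Ga X} (hG : ∀ p, GOk G p) {a b : Fm n X} (ha : Sm 1 a univ)
    (hb : Sm 1 b univ) (s t : ℕ × ℕ) (D : Loc n G) {L : Set X} (hL : IsCompact L)
    (hs : L ⊆ D.e.source) : ∃ S, SOa G L S ∧ SOb G (Po G a b s t) L S := by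
  have hK : IsCompact (D.e '' L) := hL.image_of_continuousOn (D.e.continuousOn.mono hs)
  obtain ⟨δ, hδ, h⟩ := hK.exists_cthickening_subset_open D.e.open_target
    (image_subset_iff.2 fun y hy => D.e.map_source (hs hy))
  obtain ⟨φ, hφ⟩ := exists_mol n hδ
  exact ⟨_, D.so_a hG hφ hL hs h, D.so_b hG hφ hL hs h ha hb s t⟩

/-- Apply `weak_strong_abs` to a type synonym `M` of `SmF n G` with the seminorm `nr`
(`AddGroupSeminorm.toSeminormedAddCommGroup`), a partition of unity `ρ i` (`exists_pou` for the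
sources of `exists_loc`; index type the finite set), `L i = tsupport (ρ i)`; extend `S i j` by zero
off `SmS G (L i)`. `he` is `nr_fatou` with `SOa.pt` (`itg (ρ • W * φ) = itg (W * ρ • φ)`); `hρ` is
`nr_fsmul_le` and `po_comm`. -/
theorem weak_strong {G : Ga X} (hG : ∀ p, GOk G p) {a b : Fm n X} (ha : Sm 1 a univ)
    (hb : Sm 1 b univ) (s t : ℕ × ℕ) {U : ℕ → Fm n X} (hU : ∀ k, Sm G (U k) univ) (hc : Cau U)
    {F : Fm n X} (hF : Sm G F univ) (hw : Wk0 G fun k => Po G a b s t (U k) - F) :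
    ∃ V : ℕ → Fm n X, (∀ k, Sm G (V k) univ) ∧
      Tendsto (fun k : ℕ × ℕ => nr (V k.1 - U k.2)) atTop (𝓝 0) ∧
      Tendsto (fun k => nr (Po G a b s t (V k) - F)) atTop (𝓝 0) := by
  choose D hD using exists_loc (n := n) hG
  obtain ⟨T, ρ, hρ, hρs, -, -, hsum⟩ := exists_pou (n := n) isCompact_univ
    (fun p => (D p).e.source) (fun p => (D p).e.open_source) fun p _ => mem_iUnion.2 ⟨p, hD p⟩
  rw [nhdsSet_univ, eventually_top] at hsum
  choose S hSa hSb using fun i : X => exists_so hG ha hb s t (D i) (hρ i).cs (hρs i)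
  have hL : ∀ (i : X) (V : SmF n G), WS_R G (hρ i).sm V ∈ WS_L n G (tsupport (ρ i)) :=
    fun i V => tsupport_smul_subset_left (ρ i) V.1
  have hP : ∀ (K : Set X), ∀ V ∈ WS_L n G K, WS_P hG ha hb s t V ∈ WS_L n G K :=
    fun K V hV => po_tsupport.trans hV
  refine (@weak_strong_abs (SmF n G) (WS_sn hG).toSeminormedAddCommGroup T _
    (WS_P hG ha hb s t) (fun i => WS_R G (hρ i).sm) (fun i => WS_L n G (tsupport (ρ i)))
    (fun i => WS_S (hSa i)) (fun V => ?_) (fun i => hL i) (fun i => hP _) (fun i => ?_)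
    (fun i j V hV W hW => ?_) (fun i => ?_) (fun i V hV => ?_) (fun i j => ?_)
    (fun k => ⟨U k, hU k⟩) hc ⟨F, hF⟩ (fun i j h => ?_)).elim
    fun V hV => ⟨fun k => (V k).1, fun k => (V k).2, hV.1, hV.2⟩
  · refine Subtype.ext ?_
    rw [AddSubmonoidClass.coe_finsetSum]
    funext y
    change (∑ i : T, ρ i • V.1) y = V.1 y
    rw [Finset.sum_apply, Finset.sum_coe_sort T fun i => (ρ i • V.1) y]
    simp only [Pi.smul_apply']
    rw [← Finset.sum_smul, hsum, one_smul]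
  · obtain ⟨C, hC⟩ := po_comm hG ha hb s t (hρ i).sm
    refine ⟨max C 1, fun V => ⟨?_, ?_⟩⟩
    · refine (nr_fsmul_le (cn_of_sm hG V.2) zero_le_one fun y _ => ?_).trans
        (mul_le_mul_of_nonneg_right (le_max_right _ _) (nr_nonneg _))
      obtain ⟨r, h0, h1, e⟩ := (hρ i).mem y
      rw [e, norm_real, Real.norm_of_nonneg h0]
      exact h1
    · exact (hC V.1 V.2).trans (mul_le_mul_of_nonneg_right (le_max_left _ _) (nr_nonneg _))
  · refine Subtype.ext ?_
    change (WS_S _ j (V - W)).1 = (WS_S _ j V).1 - (WS_S _ j W).1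
    rw [WS_S_val _ _ (sub_mem hV hW), WS_S_val _ _ hV, WS_S_val _ _ hW]
    exact (hSa i).sub j _ _ ⟨V.2, hV⟩ ⟨W.2, hW⟩
  · obtain ⟨C, hC⟩ := (hSb i).bd
    refine ⟨C, fun j V hV => ?_⟩
    change nr (WS_S _ j V).1 ≤ C * nr V.1 ∧
      nr (Po G a b s t (WS_S _ j V).1 - (WS_S _ j (WS_P hG ha hb s t V)).1) ≤ C * nr V.1
    rw [WS_S_val _ _ hV, WS_S_val _ _ (hP _ V hV)]
    exact hC j _ ⟨V.2, hV⟩
  · change Tendsto (fun j => nr ((WS_S _ j V).1 - V.1)) atTop (𝓝 0) ∧ Tendsto (fun j =>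
      nr (Po G a b s t (WS_S _ j V).1 - (WS_S _ j (WS_P hG ha hb s t V)).1)) atTop (𝓝 0)
    simp only [WS_S_val _ _ hV, WS_S_val _ _ (hP _ V hV)]
    exact (hSb i).lim _ ⟨V.2, hV⟩
  · obtain ⟨C, hC⟩ := (hSb i).fix j
    refine ⟨C, fun V hV => ?_⟩
    change nr (WS_S _ j (WS_P hG ha hb s t V)).1 ≤ C * nr V.1
    rw [WS_S_val _ _ (hP _ V hV)]
    exact hC _ ⟨V.2, hV⟩
  · have h1 := WS_he hG (hρ i).sm (hSa i) (fun k => WS_P hG ha hb s t ⟨U k, hU k⟩ - ⟨F, hF⟩) (by
      simp only [AddSubgroupClass.coe_sub, WS_P_val]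
      exact hw) j
    exact h1 h

end

end Pool.Agent.MP_1c689d_ag.K0.L2

end

section

/-! The mean value inequality and peak functions. -/

set_option autoImplicit false

open Complex Filter Topology Set MeasureTheory
open scoped ComplexConjugate ContDiff ENNReal NNReal

namespace Pool.Agent.MP_1c689d_ag.K0.L2

noncomputable section

theorem MV_cs {N : ℕ} {a b : Fin N → ℂ} (ha : ∑ i, normSq (a i) = 1) (hb : ∑ i, normSq (b i) = 1)
    {l : ℂ} (hl : ∑ i, conj (b i) * a i = l) : ∑ i, normSq (a i - l * b i) = 1 - normSq l := by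
  have h1 : ∑ i, a i * conj (a i) = 1 := by
    simp only [mul_conj]
    exact_mod_cast ha
  have h2 : ∑ i, b i * conj (b i) = 1 := by
    simp only [mul_conj]
    exact_mod_cast hb
  have h3 : ∑ i, b i * conj (a i) = conj l := by
    rw [← hl, map_sum]
    simp only [map_mul, conj_conj]
  have h4 : ∀ i, ((normSq (a i - l * b i) : ℝ) : ℂ) = a i * conj (a i) - conj l * (conj (b i) * a i) -
      l * (b i * conj (a i)) + l * conj l * (b i * conj (b i)) := fun i => by
    rw [← mul_conj, map_sub, map_mul]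
    ring
  apply ofReal_injective
  push_cast
  simp only [h4, Finset.sum_add_distrib, Finset.sum_sub_distrib, ← Finset.mul_sum, h1, h2, h3, hl]
  rw [← mul_conj]
  ring

theorem MV_real {b v C M : ℝ} {q : ℝ} (hv : 0 < v) (hC : 0 ≤ C) (hM : 0 ≤ M) (hq : 0 ≤ q)
    (h : b ^ 2 * v ≤ M ^ 2 * (C * q)) : b ≤ (Real.sqrt (C / v) + 1) * M * Real.sqrt q := by
  have h1 : b ≤ Real.sqrt (C / v) * M * Real.sqrt q := by
    refine (le_abs_self b).trans (abs_le_of_sq_le_sq ?_ (by positivity))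
    rw [mul_pow, mul_pow, Real.sq_sqrt (div_nonneg hC hv.le), Real.sq_sqrt hq, div_mul_eq_mul_div,
      div_mul_eq_mul_div, le_div_iff₀ hv]
    linarith
  refine h1.trans ?_
  gcongr
  linarith

variable {n : ℕ} {X : Type} [TopologicalSpace X] [Mf n X] [MeasurableSpace X] [BorelSpace X]
  [CompactSpace X]

/-- Take a closed ball around `ch n p p` whose preimage lies in the interior of `O` and in the
source; `hfm_chart`, `mean_value_sq`, `cc_le_nq`, `rep_self`. -/
theorem mean_nr {p : X} {O : Set X} (hO : O ∈ 𝓝 p) (a : ℕ) : ∃ C : ℝ, 0 < C ∧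
    ∀ (α β : Fm n X) (M : ℝ), 0 ≤ M → Cn α → (∀ y ∈ O, HFm 1 β y) → (∀ y ∈ O, β y ∈ Tp n a 0) →
      (∀ y ∈ O, ∃ c : ℂ, ‖c‖ ≤ M ∧ β y = c • α y) → ‖β p‖ ≤ C * M * nr α := by
  have he := isCh_ch (n := n) p
  have hp : p ∈ (ch n p).source := mem_chart_source (E n) p
  have h1 : ∀ᶠ z in 𝓝 (ch n p p), z ∈ (ch n p).target ∧ (ch n p).symm z ∈ interior O :=
    MF2b_target.and (MF2a_ev_chart (P := fun y => y ∈ interior O)
      (isOpen_interior.mem_nhds (mem_interior_iff_mem_nhds.2 hO)))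
  obtain ⟨r, hr, hB⟩ := Metric.nhds_basis_closedBall.mem_iff.1 h1
  have hL : IsCompact ((ch n p).symm '' Metric.closedBall (ch n p p) r) :=
    (isCompact_closedBall _ _).image_of_continuousOn
      ((ch n p).continuousOn_symm.mono fun z hz => (hB hz).1)
  obtain ⟨C, hC⟩ := cc_le_nq he hL (by
    rintro _ ⟨z, hz, rfl⟩
    exact (ch n p).map_target (hB hz).1)
  have hI : ch n p '' ((ch n p).symm '' Metric.closedBall (ch n p p) r) =
      Metric.closedBall (ch n p p) r := (ch n p).image_symm_image_of_subset_target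
        fun z hz => (hB hz).1
  rw [hI] at hC
  have hv0 : volume (Metric.closedBall (ch n p p) r) ≠ 0 :=
    (Metric.measure_closedBall_pos volume _ hr).ne'
  have hv1 : volume (Metric.closedBall (ch n p p) r) ≠ ⊤ := measure_closedBall_lt_top.ne
  have hv := ENNReal.toReal_pos hv0 hv1
  refine ⟨Real.sqrt (C / (volume (Metric.closedBall (ch n p p) r)).toReal) + 1, by positivity,
    fun α β M hM hα hβ ht hc => ?_⟩
  have h2 := mean_value_sq (f := rep p β) hr fun z hz => by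
    have hy := (ch n p).map_target (hB hz).1
    have h3 := (hfm_chart he hy (a := a) (by
      filter_upwards [mem_interior_iff_mem_nhds.1 (hB hz).2] with y hy using ht y hy)).1
      (hβ _ (interior_subset (hB hz).2))
    rw [(ch n p).right_inv (hB hz).1] at h3
    exact h3.self_of_nhds
  rw [rep_self] at h2
  have h4 : ∫⁻ w in Metric.closedBall (ch n p p) r, ‖rep p β w‖ₑ ^ 2 ≤
      ENNReal.ofReal M ^ 2 * (C * nq α) := by
    refine le_trans ?_ (mul_le_mul_right (hC α) _)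
    rw [← lintegral_const_mul' _ _ (ENNReal.pow_ne_top ENNReal.ofReal_ne_top)]
    refine setLIntegral_mono' measurableSet_closedBall fun w hw => ?_
    obtain ⟨c, h5, h6⟩ := hc _ (interior_subset (hB hw).2)
    have h7 : rep p β w = c • pb (ch n p).symm α w := by
      simp only [rep, pb]
      rw [h6, map_smul]
    rw [h7, enorm_smul, mul_pow]
    gcongr
    rw [← ofReal_norm]
    exact ENNReal.ofReal_le_ofReal h5
  have h8 := ENNReal.toReal_mono (ENNReal.mul_ne_top (ENNReal.pow_ne_top ENNReal.ofReal_ne_top)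
    (ENNReal.mul_ne_top ENNReal.coe_ne_top (nq_ne_top hα))) (h2.trans h4)
  simp only [ENNReal.toReal_mul, ENNReal.toReal_pow, toReal_enorm, ENNReal.toReal_ofReal hM,
    ENNReal.coe_toReal] at h8
  exact MV_real hv C.2 hM ENNReal.toReal_nonneg h8

omit [MeasurableSpace X] [BorelSpace X] [CompactSpace X] in
theorem holAt_npow {G : Ga X} {s : X → ℂ} {p : X} (h : HolAt G s p) (k : ℕ) :
    HolAt (G ^ (k : ℤ)) (fun y => s y ^ k) p := by
  filter_upwards [h] with y hy
  refine (hy.pow k).congr_of_eventuallyEq (Eventually.of_forall fun z => ?_)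
  simp only [Pi.pow_apply, zpow_natCast, mul_pow, inv_pow]

omit [MeasurableSpace X] [BorelSpace X] in
/-- `l y = ∑ i, conj (x p i) * x y i`; `‖l‖` is continuous (`SmAt.normSq`); the equality case of
Cauchy-Schwarz: `∑ i, normSq (x y i - l y * x p i) = 1 - normSq (l y)`. -/
theorem exists_peak {N : ℕ} {x : X → Fin N → ℂ} (hx : ∀ p, PMAt x p)
    (inj : ∀ p p', (∃ t : ℂ, x p' = t • x p) → p' = p) (p : X) : ∃ l : X → ℂ,
      (∀ y, HolAt (gx x) l y) ∧ l p = 1 ∧ (Continuous fun y => ‖l y‖) ∧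
      ∀ V ∈ 𝓝 p, ∃ a : ℝ, 0 < a ∧ a < 1 ∧ ∀ y ∉ V, ‖l y‖ ≤ a := by
  have hu : ∀ y, ∑ i, normSq (x y i) = 1 := fun y => (hx y).unit.self_of_nhds
  have hh : ∀ y, HolAt (gx x) (fun y => ∑ i, conj (x p i) * x y i) y := fun y => by
    have h1 := HolAt.sum (S := Finset.univ) fun i _ => ((hx y).holAt i).smul (conj (x p i))
    refine h1.congr (Eventually.of_forall fun z => ?_)
    simp only [Finset.sum_apply, Pi.smul_apply, smul_eq_mul]
  have hc : Continuous fun y => ‖∑ i, conj (x p i) * x y i‖ := by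
    refine continuous_iff_continuousAt.2 fun y => ?_
    have h1 := ((hh y).smAt.normSq (hx y).gok).continuousAt
    have h2 := (continuous_re.continuousAt.comp h1).sqrt
    refine h2.congr (Eventually.of_forall fun z => ?_)
    simp only [Function.comp, ofReal_re, Complex.norm_def]
  have hlt : ∀ y, y ≠ p → ‖∑ i, conj (x p i) * x y i‖ < 1 := fun y hy => by
    by_contra hge
    obtain ⟨l, hl⟩ : ∃ l, ∑ i, conj (x p i) * x y i = l := ⟨_, rfl⟩
    rw [hl, not_lt] at hge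
    have h1 := MV_cs (hu y) (hu p) hl
    have h2 : 1 ≤ normSq l := by
      rw [normSq_eq_norm_sq]
      exact one_le_pow₀ hge
    have h3 : ∑ i, normSq (x y i - l * x p i) = 0 :=
      le_antisymm (by linarith) (Finset.sum_nonneg fun i _ => normSq_nonneg _)
    rw [Finset.sum_eq_zero_iff_of_nonneg fun i _ => normSq_nonneg _] at h3
    refine hy (inj p y ⟨l, funext fun i => ?_⟩)
    exact sub_eq_zero.1 (normSq_eq_zero.1 (h3 i (Finset.mem_univ i)))
  refine ⟨fun y => ∑ i, conj (x p i) * x y i, hh, ?_, hc, fun V hV => ?_⟩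
  · simp only [← normSq_eq_conj_mul_self]
    exact_mod_cast hu p
  · rcases (interior V)ᶜ.eq_empty_or_nonempty with h0 | h0
    · refine ⟨1 / 2, by norm_num, by norm_num, fun y hy => ?_⟩
      have : y ∈ (interior V)ᶜ := fun h => hy (interior_subset h)
      rw [h0] at this
      exact this.elim
    · obtain ⟨y, hy, hm⟩ := isOpen_interior.isClosed_compl.isCompact.exists_isMaxOn h0
        hc.continuousOn
      have h1 := hlt y fun e => hy (e ▸ mem_interior_iff_mem_nhds.2 hV)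
      refine ⟨max ‖∑ i, conj (x p i) * x y i‖ (1 / 2), lt_max_of_lt_right (by norm_num),
        max_lt h1 (by norm_num), fun z hz => le_max_of_le_left ?_⟩
      exact hm fun h => hz (interior_subset h)

end

end Pool.Agent.MP_1c689d_ag.K0.L2

end

section

/-! `L²` limits of almost holomorphic forms, locally. -/

set_option autoImplicit false

open Complex Filter Topology Set MeasureTheory
open scoped ComplexConjugate ContDiff ENNReal NNReal

namespace Pool.Agent.MP_1c689d_ag.K0.L2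

noncomputable section

variable {n : ℕ} {X : Type} [TopologicalSpace X] [Mf n X] [MeasurableSpace X] [BorelSpace X]
  [CompactSpace X]

theorem WLb_le {W W' : Type} [NormedAddCommGroup W] [NormedAddCommGroup W'] {f : E n → W}
    {g : E n → W'} {B : Set (E n)} (hB : MeasurableSet B) {C : ℝ}
    (h : ∀ z ∈ B, ‖f z‖ ≤ C * ‖g z‖) :
    ∫⁻ z in B, ‖f z‖ₑ ^ 2 ≤ ENNReal.ofReal (C ^ 2) * ∫⁻ z in B, ‖g z‖ₑ ^ 2 := by
  rw [← lintegral_const_mul' _ _ ENNReal.ofReal_ne_top]
  refine setLIntegral_mono' hB fun z hz => ?_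
  rw [← ofReal_norm, ← ofReal_norm, ← ENNReal.ofReal_pow (norm_nonneg _),
    ← ENNReal.ofReal_pow (norm_nonneg _), ← ENNReal.ofReal_mul (sq_nonneg _), ← mul_pow]
  exact ENNReal.ofReal_le_ofReal (pow_le_pow_left₀ (norm_nonneg _) (h z hz) 2)

theorem WLb_tend {ι : Type} {l : Filter ι} {a b : ι → ℝ≥0∞} {c : ℝ≥0∞} (hc : c ≠ ⊤)
    (hb : Tendsto b l (𝓝 0)) (h : ∀ i, a i ≤ c * b i) : Tendsto a l (𝓝 0) := by
  have := ENNReal.Tendsto.const_mul (a := c) hb (Or.inr hc)
  rw [mul_zero] at this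
  exact tendsto_of_tendsto_of_tendsto_of_le_of_le tendsto_const_nhds this (fun _ => zero_le) h

theorem WLb_lin {W W' : Type} [NormedAddCommGroup W] [NormedSpace ℂ W] [FiniteDimensional ℂ W]
    [NormedAddCommGroup W'] [NormedSpace ℂ W'] (T : W →ₗ[ℂ] W') :
    ∃ C : ℝ, ∀ w, ‖T w‖ ≤ C * ‖w‖ :=
  ⟨_, (LinearMap.toContinuousLinearMap T).le_opNorm⟩

theorem WLb_pi {ι : Type} [Fintype ι] [Nonempty ι] (c : ι → ℂ) :
    ‖c‖ₑ ^ 2 ≤ ∑ i, ‖c i‖ₑ ^ 2 := by
  obtain ⟨i, -, hi⟩ := Finset.exists_mem_eq_sup Finset.univ Finset.univ_nonempty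
    fun i => ‖c i‖₊
  have : ‖c‖ₑ = ‖c i‖ₑ := by rw [enorm_eq_nnnorm, enorm_eq_nnnorm, Pi.nnnorm_def, hi]
  rw [this]
  exact Finset.single_le_sum (f := fun i => ‖c i‖ₑ ^ 2) (fun _ _ => zero_le) (Finset.mem_univ i)

/-- Apply `wl_fun` to the coordinates `(bL n).coord S ∘ v k`; `pzb j v = DG_c j (dbE v)` (`DG_ctr`,
`ctr_Tp_right_zero`), `DFb_pzb`; `h = prj a 0 (∑ S, h S • bL n S)`. -/
theorem wl_form {v : ℕ → E n → Λ n} {B : Set (E n)} {a : ℕ} (hB : IsOpen B) (hv : volume B ≠ ⊤)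
    (hf : ∀ k, ∀ z ∈ B, ContDiffAt ℝ ∞ (v k) z) (ht : ∀ k z, v k z ∈ Tp n a 0)
    (hfin : ∀ k, ∫⁻ z in B, ‖v k z‖ₑ ^ 2 ≠ ⊤)
    (hc : Tendsto (fun k : ℕ × ℕ => ∫⁻ z in B, ‖v k.1 z - v k.2 z‖ₑ ^ 2) atTop (𝓝 0))
    (hd : Tendsto (fun k => ∫⁻ z in B, ‖dbE (v k) z‖ₑ ^ 2) atTop (𝓝 0)) :
    ∃ h : E n → Λ n, DifferentiableOn ℂ h B ∧ (∀ z, h z ∈ Tp n a 0) ∧
      Tendsto (fun k => ∫⁻ z in B, ‖v k z - h z‖ₑ ^ 2) atTop (𝓝 0) := by
  have h1 : ∀ S : Finset (Ix n), ∃ h : E n → ℂ, DifferentiableOn ℂ h B ∧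
      Tendsto (fun k => ∫⁻ z in B, ‖(bL n).coord S (v k z) - h z‖ₑ ^ 2) atTop (𝓝 0) := fun S => by
    obtain ⟨C, hC⟩ := WLb_lin ((bL n).coord S)
    refine wl_fun (f := fun k z => (bL n).coord S (v k z)) hB hv (fun k z hz => ?_)
      (fun k => ?_) ?_ fun j => ?_
    · exact ((LinearMap.toContinuousLinearMap ((bL n).coord S)).restrictScalars
        ℝ).contDiff.contDiffAt.comp z (hf k z hz)
    · exact ne_top_of_le_ne_top (ENNReal.mul_ne_top ENNReal.ofReal_ne_top (hfin k))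
        (WLb_le hB.measurableSet fun z _ => hC _)
    · refine WLb_tend ENNReal.ofReal_ne_top hc fun k => WLb_le (C := C) hB.measurableSet
        fun z _ => ?_
      rw [← map_sub]
      exact hC _
    · obtain ⟨C', hC'⟩ := WLb_lin ((bL n).coord S ∘ₗ DG_c j)
      refine WLb_tend ENNReal.ofReal_ne_top hd fun k => WLb_le (C := C') hB.measurableSet
        fun z hz => ?_
      have d := (hf k z hz).differentiableAt (by simp)
      rw [DFb_pzb _ (Or.inl d),
        ← DG_ctr d (Eventually.of_forall fun w => ctr_Tp_right_zero j (ht k w))]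
      exact hC' _
  choose h h2 h3 using h1
  let T : (Finset (Ix n) → ℂ) →ₗ[ℂ] Λ n := prj a 0 ∘ₗ (bL n).equivFun.symm.toLinearMap
  obtain ⟨C, hC⟩ := WLb_lin T
  refine ⟨fun z => T fun S => h S z, ?_, fun z => prj_mem _, ?_⟩
  · exact (LinearMap.toContinuousLinearMap T).differentiable.comp_differentiableOn
      (differentiableOn_pi.2 h2)
  · have h4 := tendsto_finsetSum Finset.univ fun S _ => h3 S
    rw [Finset.sum_const_zero] at h4
    refine WLb_tend (c := ENNReal.ofReal (C ^ 2)) ENNReal.ofReal_ne_top h4 fun k => ?_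
    refine (WLb_le (g := fun z S => (bL n).coord S (v k z) - h S z) (C := C) hB.measurableSet
      fun z _ => ?_).trans (mul_le_mul_right ?_ _)
    · have e : v k z = T fun S => (bL n).coord S (v k z) := by
        have e1 : (fun S => (bL n).coord S (v k z)) = (bL n).equivFun (v k z) := rfl
        rw [e1]
        simp only [T, LinearMap.comp_apply, LinearEquiv.coe_coe, LinearEquiv.symm_apply_apply]
        exact (prj_of_mem (ht k z)).symm
      refine le_of_eq_of_le ?_ (hC _)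
      rw [congrArg (· - T fun S => h S z) e, ← map_sub]
      rfl
    · rw [← lintegral_finsetSum']
      · exact lintegral_mono fun z => WLb_pi _
      · intro S _
        refine (ContinuousOn.aemeasurable ?_ hB.measurableSet).enorm.pow_const 2
        exact (((bL n).coord S).continuous_of_finiteDimensional.comp_continuousOn
          fun z hz => (hf k z hz).continuousAt.continuousWithinAt).sub (h2 S).continuousOn

/-- `exists_loc`, a ball `B` whose closure lies in the target, `v k = dn (s k)`, `dn_le`,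
`dn_dbar`, `tendsto_nq_of_nr`, `wl_form`; `H = up h`, `O = e.symm '' B`, `up_hfm`, `norm_cmp`. -/
theorem wl_loc {G : Ga X} (hG : ∀ p, GOk G p) {a : ℕ} {s : ℕ → Fm n X}
    (hs : ∀ k, Sm G (s k) univ ∧ Ty a 0 (s k)) (hc : Cau s)
    (hd : Tendsto (fun k => nr (dbar G (s k))) atTop (𝓝 0)) (p : X) :
    ∃ (e : OpenPartialHomeomorph X (E n)) (O : Set X) (H : Fm n X), IsCh e ∧ IsOpen O ∧ p ∈ O ∧
      O ⊆ e.source ∧ Ty a 0 H ∧ (∀ y ∈ O, HFm G H y) ∧
      Tendsto (fun k => ∫⁻ z in e '' O, ‖pb e.symm (s k - H) z‖ₑ ^ 2) atTop (𝓝 0) := by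
  obtain ⟨D, hp⟩ := exists_loc hG p
  obtain ⟨ε, hε, hK⟩ := Metric.nhds_basis_closedBall.mem_iff.1
    (D.e.open_target.mem_nhds (D.e.map_source hp))
  have hKc : IsCompact (Metric.closedBall (D.e p) ε) := isCompact_closedBall _ _
  have hBK : Metric.ball (D.e p) ε ⊆ Metric.closedBall (D.e p) ε := Metric.ball_subset_closedBall
  have hB : IsOpen (Metric.ball (D.e p) ε) := Metric.isOpen_ball
  obtain ⟨C, hC⟩ := D.dn_le hG hKc hK
  have hC' : ∀ V : Fm n X, ∫⁻ z in Metric.ball (D.e p) ε, ‖D.dn V z‖ₑ ^ 2 ≤ C * nq V :=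
    fun V => (lintegral_mono_set hBK).trans (hC V)
  obtain ⟨h, h1, h2, h3⟩ := wl_form (v := fun k => D.dn (s k)) (a := a) hB measure_ball_lt_top.ne
    (fun k z hz => D.dn_contDiffAt hG (hK (hBK hz)) ((hs k).1 _ trivial))
    (fun k z => D.dn_Tp (hs k).2 z)
    (fun k => ne_top_of_le_ne_top
      (ENNReal.mul_ne_top ENNReal.coe_ne_top (nq_ne_top (cn_of_sm hG (hs k).1))) (hC' _))
    (WLb_tend ENNReal.coe_ne_top (tendsto_nq_of_nr
      (fun k => cn_of_sm hG fun y _ => ((hs k.1).1 y trivial).sub ((hs k.2).1 y trivial)) hc)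
      fun k => by
        have := hC' (s k.1 - s k.2)
        rwa [D.dn_sub] at this)
    (WLb_tend ENNReal.coe_ne_top (tendsto_nq_of_nr
      (fun k => cn_of_sm hG fun y _ => ((hs k).1 y trivial).dbar (hG y)) hd)
      fun k => le_of_eq_of_le (setLIntegral_congr_fun hB.measurableSet fun z hz => by
        rw [D.dn_dbar hG (hK (hBK hz)) ((hs k).1 _ trivial)]) (hC' _))
  obtain ⟨C₁, -, hC₁⟩ := D.norm_cmp hG hKc hK
  refine ⟨D.e, D.e.source ∩ D.e ⁻¹' Metric.ball (D.e p) ε, D.up h, D.he,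
    D.e.isOpen_inter_preimage hB, ⟨hp, Metric.mem_ball_self hε⟩, inter_subset_left, D.up_Tp h2,
    fun y hy => D.up_hfm hG hy.1 h2 ((hB.eventually_mem hy.2).mono fun z hz =>
      h1.differentiableAt (hB.mem_nhds hz)), ?_⟩
  refine WLb_tend (c := ENNReal.ofReal (C₁ ^ 2)) ENNReal.ofReal_ne_top h3 fun k => ?_
  refine (lintegral_mono_set ?_).trans (WLb_le hB.measurableSet fun z hz => ?_)
  · rintro _ ⟨y, hy, rfl⟩
    exact hy.2
  · have := (hC₁ (s k - D.up h) z (hBK hz)).2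
    rwa [D.dn_sub, Pi.sub_apply, D.dn_up (hK (hBK hz))] at this

end

end Pool.Agent.MP_1c689d_ag.K0.L2

end

section

/-! `L²` limits of almost holomorphic forms. -/

set_option autoImplicit false

open Complex Filter Topology Set MeasureTheory
open scoped ComplexConjugate ContDiff ENNReal NNReal

namespace Pool.Agent.MP_1c689d_ag.K0.L2

noncomputable section

variable {n : ℕ} {X : Type} [TopologicalSpace X] [Mf n X] [MeasurableSpace X] [BorelSpace X]
  [CompactSpace X]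

theorem WL_sq (a b : Λ n) : ‖a - b‖ₑ ^ 2 ≤ 2 * ‖b‖ₑ ^ 2 + 2 * ‖a‖ₑ ^ 2 := by
  have h : ‖a - b‖₊ ^ 2 ≤ 2 * ‖b‖₊ ^ 2 + 2 * ‖a‖₊ ^ 2 := by
    have h1 := norm_sub_le a b
    have h2 := norm_nonneg (a - b)
    rw [← NNReal.coe_le_coe]
    push_cast
    nlinarith [sq_nonneg (‖a‖ - ‖b‖)]
  simp only [enorm_eq_nnnorm]
  exact_mod_cast h

theorem WL_zero {u v : ℕ → E n → Λ n} {w : E n → Λ n} {K : Set (E n)} (hK : MeasurableSet K)
    {x : E n} (hx : K ∈ 𝓝 x) (hu : ∀ k, ContinuousOn (u k) K) (hw : ContinuousOn w K)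
    (e : ∀ k z, w z = v k z - u k z)
    (l1 : Tendsto (fun k => ∫⁻ z in K, ‖u k z‖ₑ ^ 2) atTop (𝓝 0))
    (l2 : Tendsto (fun k => ∫⁻ z in K, ‖v k z‖ₑ ^ 2) atTop (𝓝 0)) : w x = 0 := by
  have h1 : ∀ k, ∫⁻ z in K, ‖w z‖ₑ ^ 2 ≤
      (2 * ∫⁻ z in K, ‖u k z‖ₑ ^ 2) + 2 * ∫⁻ z in K, ‖v k z‖ₑ ^ 2 := fun k => by
    rw [← lintegral_const_mul' _ _ ENNReal.ofNat_ne_top,
      ← lintegral_const_mul' _ _ ENNReal.ofNat_ne_top, ← lintegral_add_left'
        (((((hu k).enorm.aemeasurable hK).pow_const 2)).const_mul 2)]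
    exact lintegral_mono fun z => (e k z).symm ▸ WL_sq _ _
  have h2 := (ENNReal.Tendsto.const_mul (a := 2) l1 (Or.inr ENNReal.ofNat_ne_top)).add
    (ENNReal.Tendsto.const_mul (a := 2) l2 (Or.inr ENNReal.ofNat_ne_top))
  rw [mul_zero, add_zero] at h2
  have h3 := (lintegral_eq_zero_iff' ((hw.enorm.aemeasurable hK).pow_const 2)).1
    (nonpos_iff_eq_zero.1 (ge_of_tendsto' h2 h1))
  refine Measure.eqOn_open_of_ae_eq (μ := volume) (g := fun _ => 0)
    (ae_restrict_of_ae_restrict_of_subset interior_subset (h3.mono fun z hz => ?_))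
    isOpen_interior (hw.mono interior_subset) continuousOn_const (mem_interior_iff_mem_nhds.2 hx)
  exact enorm_eq_zero.1 (pow_eq_zero_iff two_ne_zero |>.1 hz)

omit [CompactSpace X] in
theorem WL_dn {G : Ga X} (hG : ∀ p, GOk G p) (D : Loc n G) {e : OpenPartialHomeomorph X (E n)}
    (he : IsCh e) {O L : Set X} (hL : IsCompact L) (h0 : L ⊆ D.e.source) (h1 : L ⊆ O)
    (h2 : O ⊆ e.source) {α : ℕ → Fm n X}
    (l : Tendsto (fun k => ∫⁻ z in e '' O, ‖pb e.symm (α k) z‖ₑ ^ 2) atTop (𝓝 0)) :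
    Tendsto (fun k => ∫⁻ z in D.e '' L, ‖D.dn (α k) z‖ₑ ^ 2) atTop (𝓝 0) := by
  have hK : IsCompact (D.e '' L) := hL.image_of_continuousOn (D.e.continuousOn.mono h0)
  obtain ⟨C, hC⟩ := cc_two D.he he hL h0 (h1.trans h2)
  obtain ⟨M, -, hM⟩ := D.norm_cmp hG hK (image_subset_iff.2 fun y hy => D.e.map_source (h0 hy))
  have h3 : ENNReal.ofReal M ^ 2 ≠ ⊤ := ENNReal.pow_ne_top ENNReal.ofReal_ne_top
  have h4 := ENNReal.Tendsto.const_mul (a := ENNReal.ofReal M ^ 2)
    (ENNReal.Tendsto.const_mul (a := C) l (Or.inr ENNReal.coe_ne_top)) (Or.inr h3)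
  rw [mul_zero, mul_zero] at h4
  refine tendsto_of_tendsto_of_tendsto_of_le_of_le tendsto_const_nhds h4 (fun _ => zero_le)
    fun k => le_trans ?_ (mul_le_mul_right ((hC L hL.measurableSet Subset.rfl _).trans
      (mul_le_mul_right (lintegral_mono_set (image_mono h1)) _)) _)
  rw [← lintegral_const_mul' _ _ h3]
  refine setLIntegral_mono' hK.measurableSet fun z hz => ?_
  rw [← mul_pow, ← ofReal_norm, ← ofReal_norm, ← ENNReal.ofReal_mul' (norm_nonneg _)]
  exact pow_le_pow_left' (ENNReal.ofReal_le_ofReal (hM _ z hz).1) 2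

omit [CompactSpace X] in
/-- Local limits are unique. On a compact neighbourhood `L` of `y` the integral of
`‖pb e.symm (H - H')‖ ^ 2` is at most twice the sum of two integrals that tend to zero (`cc_two`;
the norm of `pb e.symm (s k - H)` is continuous on `e '' L`, as in `cn_of_sm`: use a frame near
`y`), so `H - H'` vanishes almost everywhere near `y`; `SmAt.eq_zero_of_frequently`. -/
theorem wl_uniq {G : Ga X} (hG : ∀ p, GOk G p) {s : ℕ → Fm n X} (hs : ∀ k, Sm G (s k) univ)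
    {e e' : OpenPartialHomeomorph X (E n)} (he : IsCh e) (he' : IsCh e') {O O' : Set X}
    (hO : IsOpen O) (hO' : IsOpen O') (h1 : O ⊆ e.source) (h2 : O' ⊆ e'.source) {H H' : Fm n X}
    (hH : Sm G H O) (hH' : Sm G H' O')
    (l1 : Tendsto (fun k => ∫⁻ z in e '' O, ‖pb e.symm (s k - H) z‖ₑ ^ 2) atTop (𝓝 0))
    (l2 : Tendsto (fun k => ∫⁻ z in e' '' O', ‖pb e'.symm (s k - H') z‖ₑ ^ 2) atTop (𝓝 0))
    {y : X} (hy : y ∈ O) (hy' : y ∈ O') : H y = H' y := by
  obtain ⟨D, hD⟩ := exists_loc (n := n) hG y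
  have := ChartedSpace.locallyCompactSpace (E n) X
  obtain ⟨L, a1, a2, a3⟩ := local_compact_nhds (inter_mem (D.e.open_source.mem_nhds hD)
    (inter_mem (hO.mem_nhds hy) (hO'.mem_nhds hy')))
  have b0 : L ⊆ D.e.source := fun x hx => (a2 hx).1
  have b1 : ∀ {V : Fm n X}, (∀ x ∈ L, SmAt G V x) → ContinuousOn (D.dn V) (D.e '' L) := by
    rintro V hV _ ⟨x, hx, rfl⟩
    refine (D.dn_contDiffAt hG (D.e.map_source (b0 hx)) ?_).continuousAt.continuousWithinAt
    rw [D.e.left_inv (b0 hx)]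
    exact hV x hx
  have b2 : D.dn (H - H') (D.e y) = 0 := WL_zero
    (a3.image_of_continuousOn (D.e.continuousOn.mono b0)).measurableSet
    (D.e.image_mem_nhds hD a1)
    (fun k => b1 fun x hx => (hs k x trivial).sub (hH x (a2 hx).2.1))
    (b1 fun x hx => (hH x (a2 hx).2.1).sub (hH' x (a2 hx).2.2))
    (fun k z => by rw [← Pi.sub_apply (D.dn _), ← D.dn_sub, sub_sub_sub_cancel_left])
    (WL_dn hG D he a3 b0 (fun x hx => (a2 hx).2.1) h1 l1)
    (WL_dn hG D he' a3 b0 (fun x hx => (a2 hx).2.2) h2 l2)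
  obtain ⟨T, hT⟩ := D.up_lin y
  have b3 := D.up_dn (V := H - H') hD
  rw [hT, b2, map_zero] at b3
  exact sub_eq_zero.1 b3.symm

/-- Put `h y = H_y y`; by `wl_uniq`, `h = H_p` on `O_p`; `MF4_congr`, `tendsto_nq_of_loc`. -/
theorem weyl_limit {G : Ga X} (hG : ∀ p, GOk G p) {a : ℕ} {s : ℕ → Fm n X}
    (hs : ∀ k, Sm G (s k) univ ∧ Ty a 0 (s k)) (hc : Cau s)
    (hd : Tendsto (fun k => nr (dbar G (s k))) atTop (𝓝 0)) :
    ∃ h : Fm n X, Ty a 0 h ∧ (∀ y, HFm G h y) ∧
      Tendsto (fun k => nr (s k - h)) atTop (𝓝 0) := by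
  choose e O H a1 a2 a3 a4 a5 a6 a7 using wl_loc hG hs hc hd
  have h1 : ∀ p, ∀ y ∈ O p, H p y = H y y := fun p y hy =>
    wl_uniq hG (fun k => (hs k).1) (a1 p) (a1 y) (a2 p) (a2 y) (a4 p) (a4 y)
      (fun x hx => (a6 p x hx).1) (fun x hx => (a6 y x hx).1) (a7 p) (a7 y) hy (a3 y)
  refine ⟨fun y => H y y, fun y => a5 y y, fun p => MF4_congr (a6 p p (a3 p))
    (eventually_of_mem ((a2 p).mem_nhds (a3 p)) (h1 p)), tendsto_nr_of_nq (tendsto_nq_of_loc
      fun p => ⟨e p, O p, a1 p, (a2 p).mem_nhds (a3 p), a4 p, (a7 p).congr fun k => ?_⟩)⟩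
  refine setLIntegral_congr_fun ((e p).isOpen_image_of_subset_source (a2 p) (a4 p)).measurableSet ?_
  rintro _ ⟨y, hy, rfl⟩
  simp only [pb, Pi.sub_apply, (e p).left_inv (a4 p hy), h1 p y hy]

end

end Pool.Agent.MP_1c689d_ag.K0.L2

end
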