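import Pool.Agent.Mg.F1c689d.Gc38b74
import Pool.Agent.Mg.F1c689d.G398e35

set_option linter.all false


/-! Global sections. -/

set_option autoImplicit false

open Complex Filter Topology Set MeasureTheory MvPolynomial
open scoped ComplexConjugate ContDiff ENNReal

namespace Pool.Agent.MP_1c689d_ag.K0.Fd

noncomputable section

variable {n m c r : ℕ} {X : Type} [TopologicalSpace X] [Mf n X] {Q : PD m (n + 1) c r}
  {Pts : Finset (Fin (n + 1) → ℂ)} {x : X → Fin m → ℂ}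
  {a : ℕ} {e : Q.b.ι → ℤ} {ρ : Q.b.ι → Fm n X}

omit [TopologicalSpace X] [Mf n X] in
theorem GL_sum (f : Q.b.ι → P (n + 1)) (p : X) :
    ∑ i, eval (Yv x Q.yi p) (f i) • fn n (ev x (Q.e i)) p =
      algebraMap ℂ (Λ n) (eval (x p) (∑ i, rename Q.yi (f i) * Q.e i)) := by
  simp only [map_sum, map_mul, Algebra.smul_def, fn, ev, eval_rename]
  rfl

/-- Let `U` be the union of the cones given by `Fr.surj`; the local solutions agree on the
intersections by `Fr.inj`. -/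
theorem Fr.glue (hF : Fr Q Pts x a e ρ) (k : ℤ) {S : Set (E (n + 1))}
    (hS : ∀ z ∈ S, z ≠ 0 ∧ OffY Pts z) {α : Fm n X}
    (hα : ∀ z ∈ S, ∀ p, Yv x Q.yi p ∈ Ry z →
      HFm (gx x ^ k) α p ∧ ∀ᶠ y in 𝓝 p, α y ∈ Tp n a 0) :
    ∃ (U : Set (E (n + 1))) (b : Q.b.ι → E (n + 1) → ℂ), Cn U ∧ S ⊆ U ∧
      (∀ i, Hm (k - e i) U (b i)) ∧
      ∀ p, Yv x Q.yi p ∈ U → α p = ∑ i, b i (Yv x Q.yi p) • ρ i p := by
  classical
  choose U b h1 h2 h3 h4 using fun z : S => hF.surj k z (hS z z.2).1 (hS z z.2).2 α (hα z z.2)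
  obtain ⟨g, hg⟩ : ∃ g : Q.b.ι → E (n + 1) → ℂ, ∀ i z, ∀ w ∈ U z, g i w = b z i w := by
    refine ⟨fun i w => if h : ∃ z, w ∈ U z then b h.choose i w else 0, fun i z w hw => ?_⟩
    have h : ∃ z, w ∈ U z := ⟨z, hw⟩
    refine (dif_pos h).trans <| sub_eq_zero.1 (hF.inj k _ (fun i w => b h.choose i w - b z i w)
      ((h1 _).inter (h1 z)) (fun i => ((h3 _ i).mono inter_subset_left).sub
        ((h3 z i).mono inter_subset_right)) (fun p _ hp => ?_) i w ⟨h.choose_spec, hw⟩)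
    simp only [sub_smul, Finset.sum_sub_distrib, ← h4 _ p hp.1, ← h4 _ p hp.2, sub_self]
  refine ⟨⋃ z, U z, g, ⟨isOpen_iUnion fun z => (h1 z).1, fun w hw t ht => ?_⟩,
    fun z hz => mem_iUnion.2 ⟨⟨z, hz⟩, h2 _⟩, fun i => ⟨fun w hw => ?_, fun w hw t ht => ?_⟩,
    fun p hw => ?_⟩ <;> obtain ⟨z, hz⟩ := mem_iUnion.1 hw
  · exact mem_iUnion.2 ⟨z, (h1 z).2 w hz t ht⟩
  · exact (((h3 z i).1.differentiableAt ((h1 z).1.mem_nhds hz)).congr_of_eventuallyEq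
      (eventually_of_mem ((h1 z).1.mem_nhds hz) (hg i z))).differentiableWithinAt
  · rw [hg i z _ ((h1 z).2 w hz t ht), hg i z w hz, (h3 z i).2 w hz t ht]
  · simp only [hg _ z _ hz, h4 z p hz]

/-- `Fr.glue` with `S = {z | z ≠ 0 ∧ OffY Pts z}`, `hm_poly`. -/
theorem Fr.h0 (h : FD Q Pts x) (hn : 2 ≤ n) (hF : Fr Q Pts x a e ρ) (k : ℤ) {α : Fm n X}
    (ht : Ty a 0 α) (hα : ∀ p ∈ Q.O Pts x, HFm (gx x ^ k) α p) :
    ∃ f : Q.b.ι → P (n + 1), (∀ i, f i ∈ hz (n + 1) (k - e i)) ∧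
      ∀ p ∈ Q.O Pts x, α p = ∑ i, eval (Yv x Q.yi p) (f i) • ρ i p := by
  obtain ⟨U, b, -, h1, h2, h3⟩ := hF.glue k (S := {z | z ≠ 0 ∧ OffY Pts z}) (fun _ hz => hz)
    (α := α) fun z hz p ⟨t, e⟩ => ⟨hα p (mem_O.2 (e ▸ (offY_smul fun e' =>
      Yv_ne h p (by rw [e, e', zero_smul])).2 hz.2)), .of_forall ht⟩
  choose f h4 h5 using fun i => hm_poly hn Pts ((h2 i).mono h1)
  refine ⟨f, h4, fun p hp => ?_⟩
  simp only [h3 p (h1 ⟨Yv_ne h p, hp⟩), h5 _ _ (Yv_ne h p) hp]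

/-- `Fr.inj` with `U = univ`, `hm_eval`, `MvPolynomial.funext`. -/
theorem Fr.inj_poly (hF : Fr Q Pts x a e ρ) (k : ℤ) {f : Q.b.ι → P (n + 1)}
    (hf : ∀ i, f i ∈ hz (n + 1) (k - e i))
    (h0 : ∀ p ∈ Q.O Pts x, ∑ i, eval (Yv x Q.yi p) (f i) • ρ i p = 0) : f = 0 := by
  have h1 := hF.inj k univ (fun i z => eval z (f i)) ⟨isOpen_univ, fun _ _ _ _ => trivial⟩
    (fun i => hm_eval (hf i) _) fun p hp _ => h0 p hp
  exact funext fun i => MvPolynomial.funext fun z => by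
    rw [h1 i z trivial, Pi.zero_apply, map_zero]

theorem h_zero_of (h : FD Q ∅ x) (hn : 2 ≤ n)
    (hF : Fr Q ∅ x 0 Q.b.dg fun i => fn n (ev x (Q.e i))) (k : ℤ) {s : X → ℂ}
    (hs : ∀ p, HolAt (gx x ^ k) s p) : ∃ f ∈ hz m k, s = ev x f := by
  obtain ⟨f, h1, h2⟩ := hF.h0 h hn k (α := fn n s) (fun _ => algebraMap_mem_Tp _)
    fun p _ => (hs p).hfm ((h.pm p).gok_zpow k)
  refine ⟨∑ i, rename Q.yi (f i) * Q.e i, sum_mem fun i _ => ?_, funext fun p => ?_⟩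
  · simpa only [sub_add_cancel] using hz_mul (hz_rename Q.yi (h1 i)) (Q.e_mem i)
  · have h3 := h2 p (by rw [PD.O_empty]; trivial)
    rw [GL_sum] at h3
    exact algebraMap_inj (n := n) h3

/-- The indicator function of a set that is open and closed is holomorphic, hence constant. -/
theorem connected_of (h : ∀ s : X → ℂ, (∀ p, HolAt (gx x ^ (0 : ℤ)) s p) →
    ∃ f ∈ hz m 0, s = ev x f) : PreconnectedSpace X := by
  refine preconnectedSpace_of_forall_constant fun u hu p p' => ?_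
  obtain ⟨f, h1, h2⟩ := h (fun y => if u y then 1 else 0) fun y => by
    rw [zpow_zero]
    exact (holAt_const (if u y then 1 else 0)).congr
      ((((IsLocallyConstant.iff_continuous u).2 hu).eventually_eq y).mono fun _ e => by
        simp only [e])
  have h3 : ∀ y, (if u y then 1 else 0 : ℂ) = eval 0 f := fun y => by
    have := hz_eval_smul h1 (x y) 0
    rw [zero_smul, zpow_zero, one_mul] at this
    exact (congrFun h2 y).trans this.symm
  have h4 := (h3 p).trans (h3 p').symm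
  revert h4
  cases u p <;> cases u p' <;> simp

/-- `sub_sum_mem`, `cd_mem`, `Fr.inj_poly`. -/
theorem mem_I_of (h : FD Q Pts x) (hF : Fr Q Pts x 0 Q.b.dg fun i => fn n (ev x (Q.e i))) {j : ℤ}
    {f : P m} (hf : f ∈ hz m j) (h0 : ∀ p ∈ Q.O Pts x, eval (x p) f = 0) : f ∈ Q.I := by
  have h1 := Q.sub_sum_mem f
  have h2 := hF.inj_poly j (Q.cd_mem hf) fun p hp => by
    have := Q.eval_of_mem (h.onc p) h1
    rw [map_sub, h0 p hp, zero_sub, neg_eq_zero] at this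
    rw [GL_sum, this, map_zero]
  simpa only [show ∀ i, Q.cd f i = 0 from congrFun h2, map_zero, zero_mul, Finset.sum_const_zero,
    sub_zero] using h1

/-- `eq_sum_du`, `mem_og_iff`, `Fr.inj_poly`, `Fr.h0`, `du_mem`, `og_smul`. -/
theorem rl_of (h : FD Q Pts x) (hn : 2 ≤ n) (R : RX Q Pts x)
    (hF : Fr Q Pts x n (fun i => (n + 1 : ℕ) - Q.b.dg i) fun i => R.rl (du Q i)) :
    ∃ R' : RL Q Pts x, R'.rl = R.rl := by
  have h1 : ∀ (f : Q.b.ι → P (n + 1)) p, R.rl (∑ i, (rename Q.yi (f i) : P m) • du Q i) p =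
      ∑ i, eval (Yv x Q.yi p) (f i) • R.rl (du Q i) p := fun f p => by
    simp only [map_sum, R.smul, Finset.sum_apply, Pi.smul_apply', ev, eval_rename]
    rfl
  refine ⟨⟨R.rl, R.ty, R.smul, R.hol, fun j t ht h0 => ?_, fun j α hα hs => ?_⟩, rfl⟩
  · have h2 := hF.inj_poly j ((Q.mem_og_iff j t).1 ht) fun p hp => by
      rw [← h1, ← eq_sum_du, h0 p hp]
    rw [eq_sum_du Q t]
    simp only [show ∀ i, Q.val t (Q.e i) = 0 from congrFun h2, map_zero, zero_smul,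
      Finset.sum_const_zero]
  · obtain ⟨f, h2, h3⟩ := hF.h0 h hn j hα hs
    refine ⟨_, sum_mem fun i _ => ?_, fun p hp => (h1 f p).trans (h3 p hp).symm⟩
    simpa only [sub_add_cancel] using Q.og_smul (hz_rename Q.yi (h2 i)) (du_mem Q i)

end

end Pool.Agent.MP_1c689d_ag.K0.Fd
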