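import Pool.Agent.Mg.F1c689d.G71e32b
import Pool.Agent.Mg.F1c689d.G31fe69

set_option linter.all false


section

/-! Quotients of graded free modules by a parameter. -/

set_option autoImplicit false

open MvPolynomial

namespace Pool.Agent.MP_1c689d_ag.K0

noncomputable section

/-- Setting one variable equal to one. -/
def QFB_th {k : ℕ} (i0 : Fin (k + 1)) : P (k + 1) →ₐ[ℂ] P k :=
  aeval (i0.insertNth (α := fun _ => P k) 1 X)

/-- Deleting one exponent. -/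
def QFB_dn {k : ℕ} (i0 : Fin (k + 1)) (s : Fin (k + 1) →₀ ℕ) : Fin k →₀ ℕ :=
  Finsupp.equivFunOnFinite.symm fun l => s (i0.succAbove l)

section poly

variable {k : ℕ} (i0 : Fin (k + 1))

theorem QFB_th_X : QFB_th i0 (X i0) = 1 := by simp [QFB_th]

theorem QFB_th_X' (l : Fin k) : QFB_th i0 (X (i0.succAbove l)) = X l := by simp [QFB_th]

theorem QFB_th_rename (a : P k) : QFB_th i0 (rename i0.succAbove a) = a := by
  rw [QFB_th, aeval_rename]
  simp [Function.comp_def]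

theorem QFB_coeff (g : P (k + 1)) (α : Fin k →₀ ℕ) : coeff α (QFB_th i0 g) =
    ∑ s ∈ g.support, if QFB_dn i0 s = α then coeff s g else 0 := by
  conv_lhs => rw [g.as_sum, map_sum, coeff_sum]
  refine Finset.sum_congr rfl fun s _ => ?_
  rw [← coeff_monomial, QFB_th, aeval_monomial, monomial_eq, Finsupp.prod_fintype _ _ (by simp),
    Finsupp.prod_fintype _ _ (by simp), Fin.prod_univ_succAbove _ i0]
  simp [QFB_dn]

theorem QFB_deg (s : Fin (k + 1) →₀ ℕ) : s.degree = s i0 + (QFB_dn i0 s).degree := by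
  rw [Finsupp.degree_eq_sum, Finsupp.degree_eq_sum, Fin.sum_univ_succAbove _ i0]
  rfl

theorem QFB_hz {n : ℤ} {g : P k} (hg : g ∈ hz k n) {s : Fin k →₀ ℕ} (hs : coeff s g ≠ 0) :
    (s.degree : ℤ) = n := by
  rcases lt_or_ge n 0 with h | h
  · rw [hz_neg h, Submodule.mem_bot] at hg
    simp [hg] at hs
  · lift n to ℕ using h
    exact congrArg _ (by_contra fun hn => hs ((mem_hz_nat.1 hg).coeff_eq_zero hn))

theorem QFB_le {n : ℤ} {g : P (k + 1)} (hg : g ∈ hz (k + 1) n) {α : Fin k →₀ ℕ}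
    (h : coeff α (QFB_th i0 g) ≠ 0) : (α.degree : ℤ) ≤ n := by
  rw [QFB_coeff] at h
  obtain ⟨s, -, hs⟩ := Finset.exists_ne_zero_of_sum_ne_zero h
  obtain ⟨rfl, h2⟩ := ite_ne_right_iff.1 hs
  have := QFB_hz hg h2
  rw [QFB_deg i0] at this
  omega

theorem QFB_span {n : ℤ} {g : P (k + 1)} (hg : g ∈ hz (k + 1) n)
    (h : coeff 0 (QFB_th i0 g) = 0) : ∃ c : Fin k → P (k + 1),
      ∑ l, c l * X (i0.succAbove l) = g := by
  rw [← Ideal.mem_span_range_iff_exists_fun, Set.range_comp' X, mem_ideal_span_X_image]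
  intro s hs
  by_contra hn
  have z : ∀ l, s (i0.succAbove l) = 0 := fun l => by_contra fun h0 => hn ⟨_, ⟨l, rfl⟩, h0⟩
  have e : QFB_dn i0 s = 0 := Finsupp.ext z
  rw [QFB_coeff, Finset.sum_eq_single_of_mem s hs, if_pos e] at h
  · exact mem_support_iff.1 hs h
  · refine fun t ht hts => if_neg fun e' => hts (Finsupp.ext fun l => ?_)
    have h1 := QFB_hz hg (mem_support_iff.1 hs)
    have h2 := QFB_hz hg (mem_support_iff.1 ht)
    rw [QFB_deg i0, e] at h1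
    rw [QFB_deg i0, e'] at h2
    refine i0.succAboveCases (by omega) (fun l => ?_) l
    exact (DFunLike.congr_fun e' l).trans (z l).symm

theorem QFB_low (p q : P k) (α : Fin k →₀ ℕ) (h : ∀ γ < α, coeff γ q = 0) :
    coeff α (p * q) = coeff 0 p * coeff α q := by
  rw [coeff_mul, Finset.sum_eq_single_of_mem (0, α) (by simp)]
  rintro ⟨β, γ⟩ hm hne
  have hm' : β + γ = α := by simpa using hm
  rw [h γ, mul_zero]
  refine lt_of_le_of_ne (hm' ▸ le_add_self) fun e => hne ?_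
  subst e
  rw [add_eq_right.1 hm']

end poly

theorem QFB_lin {V U : Type} [AddCommGroup V] [Module ℂ V] [FiniteDimensional ℂ V]
    {S T : Submodule ℂ V} (h : S ≤ T) (s : Finset U)
    (hd : Module.finrank ℂ T = Module.finrank ℂ S + s.card) :
    ∃ e : U → V, (∀ u ∈ s, e u ∈ T) ∧
      (∀ x ∈ T, ∃ y ∈ S, ∃ c : U → ℂ, x = y + ∑ u ∈ s, c u • e u) ∧
      ∀ c : U → ℂ, ∑ u ∈ s, c u • e u ∈ S → ∀ u ∈ s, c u = 0 := by
  classical
  obtain ⟨S', hS⟩ := S.exists_isCompl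
  have h1 : S ⊔ S' ⊓ T = T := by rw [← sup_inf_assoc_of_le _ h, hS.sup_eq_top, top_inf_eq]
  have h2 : S ⊓ (S' ⊓ T) = ⊥ := by rw [← inf_assoc, hS.inf_eq_bot, bot_inf_eq]
  have h3 := Submodule.finrank_sup_add_finrank_inf_eq S (S' ⊓ T)
  rw [h1, h2, finrank_bot] at h3
  let B : Module.Basis s ℂ (S' ⊓ T : Submodule ℂ V) :=
    (Module.finBasisOfFinrankEq ℂ _ (n := s.card) (by omega)).reindex s.equivFin.symm
  let e : U → V := fun u => if hu : u ∈ s then B ⟨u, hu⟩ else 0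
  have he : ∀ c : U → ℂ, ∑ u ∈ s, c u • e u = (∑ u : s, c u • B u : (S' ⊓ T : Submodule ℂ V)) :=
    fun c => by
      rw [← Finset.sum_coe_sort, Submodule.coe_sum]
      exact Finset.sum_congr rfl fun u _ => by simp [e]
  refine ⟨e, fun u hu => ?_, fun x hx => ?_, fun c hc u hu => ?_⟩
  · simp only [e, dif_pos hu]
    exact (B _).2.2
  · obtain ⟨y, hy, z, hz, rfl⟩ := Submodule.mem_sup.1 (h1.ge hx)
    refine ⟨y, hy, fun u => if hu : u ∈ s then B.repr ⟨z, hz⟩ ⟨u, hu⟩ else 0, ?_⟩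
    rw [he]
    simp only [Finset.coe_mem, dif_pos, Subtype.coe_eta, B.sum_repr]
  · rw [he] at hc
    have : (∑ u : s, c u • B u) = 0 :=
      Subtype.ext ((Submodule.mem_bot ℂ).1 (h2.le ⟨hc, Subtype.property _⟩))
    exact Fintype.linearIndependent_iff.1 B.linearIndependent _ this ⟨u, hu⟩

theorem QFB_card {ι : Type} [Fintype ι] (d : ι → ℤ) (ν : ℕ) (j : ℤ) :
    {i | d i ≤ j}.ncard = {i | d i ≤ j - ν}.ncard +
      (Finset.univ.filter fun u : ι × Fin ν => d u.1 + (u.2 : ℕ) = j).card := by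
  have e : {i | d i ≤ j} = {i | d i ≤ j - ν} ∪
      Prod.fst '' ((Finset.univ.filter fun u : ι × Fin ν => d u.1 + (u.2 : ℕ) = j : Finset _) :
        Set (ι × Fin ν)) := by
    ext i
    simp only [Set.mem_ofPred_eq, Set.mem_union, Set.mem_image, Finset.coe_filter, Finset.mem_univ,
      true_and]
    constructor
    · intro h
      by_cases h' : d i ≤ j - ν
      · exact Or.inl h'
      · exact Or.inr ⟨(i, ⟨(j - d i).toNat, by omega⟩), by simp only; omega, rfl⟩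
    · rintro (h | ⟨u, h, rfl⟩) <;> omega
  rw [e, Set.ncard_union_eq, Set.InjOn.ncard_image, Set.ncard_coe_finset]
  · rintro ⟨i, a⟩ h1 ⟨i', a'⟩ h2 (rfl : i = i')
    simp only [Finset.coe_filter, Finset.mem_univ, true_and, Set.mem_ofPred_eq] at h1 h2
    exact Prod.ext rfl (Fin.ext (by simp only; omega))
  · rw [Set.disjoint_left]
    rintro _ h1 ⟨u, h2, rfl⟩
    simp only [Finset.coe_filter, Finset.mem_univ, true_and, Set.mem_ofPred_eq] at h1 h2
    have := u.2.2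
    omega

section modl

variable {m k : ℕ} {yi : Fin (k + 1) → Fin m} {N : Type} [AddCommGroup N] [Module ℂ N]
  [Module (P m) N] (b : FB yi N) (i0 : Fin (k + 1))

/-- The values of the coordinates at the point of the axis. -/
def QFB_ev : N →ₗ[ℂ] (b.ι → ℂ) := LinearMap.pi fun i =>
  lcoeff ℂ 0 ∘ₗ (QFB_th i0).toLinearMap ∘ₗ LinearMap.proj i ∘ₗ b.co.toLinearMap

theorem QFB_ev_apply (v : N) (i : b.ι) : QFB_ev b i0 v i = coeff 0 (QFB_th i0 (b.co v i)) := rfl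

theorem QFB_ev_y (a : P (k + 1)) (v : N) :
    QFB_ev b i0 ((rename yi a : P m) • v) = coeff 0 (QFB_th i0 a) • QFB_ev b i0 v := by
  funext i
  rw [QFB_ev_apply, b.co_y, map_mul, QFB_low _ _ _ fun γ h => absurd h (by simp)]
  rfl

theorem QFB_mat (σ : P m) :
    ∃ M : Matrix b.ι b.ι (P (k + 1)), ∀ v, b.co (σ • v) = M.mulVec (b.co v) := by
  classical
  refine ⟨fun i j => b.co (σ • b.co.symm (Pi.single j 1)) i, fun v => funext fun i => ?_⟩
  have e : v = ∑ j, (rename yi (b.co v j) : P m) • b.co.symm (Pi.single j 1) := by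
    refine b.co.injective (funext fun i => ?_)
    simp [b.co_y, Pi.single_apply]
  conv_lhs => rw [e, Finset.smul_sum, map_sum, Finset.sum_apply]
  refine Finset.sum_congr rfl fun j _ => ?_
  rw [smul_comm, b.co_y, mul_comm]

theorem QFB_ev_mem {j : ℤ} {v : N} (hv : v ∈ b.gr j) :
    QFB_ev b i0 v ∈ Pi.spanSubset ℂ {i | b.dg i ≤ j} := by
  refine Pi.mem_spanSubset_iff.2 fun i hi => by_contra fun h => hi ?_
  have := QFB_le i0 (hv i) h
  simpa using this

theorem QFB_ev_surj {j : ℤ} {x : b.ι → ℂ} (hx : x ∈ Pi.spanSubset ℂ {i | b.dg i ≤ j}) :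
    ∃ v ∈ b.gr j, QFB_ev b i0 v = x := by
  refine ⟨b.co.symm fun i => C (x i) * X i0 ^ (j - b.dg i).toNat, fun i => ?_, funext fun i => ?_⟩
  · rw [b.co.apply_symm_apply]
    by_cases h : b.dg i ≤ j
    · rw [← Int.toNat_of_nonneg (sub_nonneg.2 h), mem_hz_nat, Int.toNat_natCast]
      exact isHomogeneous_C_mul_X_pow _ _ _
    · simp [Pi.mem_spanSubset_iff.1 hx i h]
  · simp [QFB_ev_apply, QFB_th_X]

variable [IsScalarTower ℂ (P m) N]

theorem QFB_ev_ker {j : ℤ} {v : N} (hv : v ∈ b.gr j) (h : QFB_ev b i0 v = 0) :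
    ∃ z : Fin k → N, (∀ l, z l ∈ b.gr (j - 1)) ∧
      v = ∑ l, (X (yi (i0.succAbove l)) : P m) • z l := by
  obtain ⟨cmp, c1, c2, -, -, c5⟩ := b.exists_cmp
  choose g hg using fun i => QFB_span i0 (hv i) (congrFun h i)
  have e : v = ∑ l, (X (yi (i0.succAbove l)) : P m) • b.co.symm fun i => g i l := by
    refine b.co.injective (funext fun i => ?_)
    rw [map_sum, Finset.sum_apply, ← hg]
    refine Finset.sum_congr rfl fun l _ => ?_
    rw [← rename_X yi, b.co_y, b.co.apply_symm_apply, mul_comm]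
  refine ⟨fun l => cmp (j - 1) (b.co.symm fun i => g i l), fun l => c1 _ _, ?_⟩
  rw [← c2 j v hv]
  conv_lhs => rw [e, map_sum]
  refine Finset.sum_congr rfl fun l _ => ?_
  rw [← c5 1 (j - 1) _ (mem_hz_nat.2 (isHomogeneous_X _ _)), add_sub_cancel]

omit [IsScalarTower ℂ (P m) N] in
theorem QFB_unit {σ : P m} {M : Matrix b.ι b.ι ℂ}
    (hM : ∀ v, QFB_ev b i0 (σ • v) = M.mulVec (QFB_ev b i0 v))
    (hfin : ∃ K : ℕ, ∀ v : N, (X (yi i0) : P m) ^ K • v ∈
      (Ideal.span (insert σ (Set.range fun i : Fin k => (X (yi (i0.succAbove i)) : P m)))) •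
        (⊤ : Submodule (P m) N)) : Function.Surjective M.mulVec := by
  obtain ⟨K, hK⟩ := hfin
  have h1 : ∀ r ∈ Ideal.span (insert σ (Set.range fun i : Fin k =>
      (X (yi (i0.succAbove i)) : P m))), ∀ n : N,
      QFB_ev b i0 (r • n) ∈ LinearMap.range M.mulVecLin := fun r hr => by
    induction hr using Submodule.span_induction with
    | mem r hr =>
      rcases hr with rfl | ⟨l, rfl⟩
      · exact fun n => ⟨_, (hM n).symm⟩
      · intro n
        simp only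
        rw [← rename_X yi, QFB_ev_y, QFB_th_X']
        simp
    | zero => simp
    | add r s _ _ hr hs => exact fun n => by rw [add_smul, map_add]; exact add_mem (hr n) (hs n)
    | smul a r _ hr => exact fun n => by rw [smul_eq_mul, mul_comm, mul_smul]; exact hr _
  intro x
  have h2 := Submodule.smul_induction_on
    (p := fun z => QFB_ev b i0 z ∈ LinearMap.range M.mulVecLin) (hK (b.co.symm fun i => C (x i)))
    (fun r hr n _ => h1 r hr n) fun y z hy hz => by rw [map_add]; exact add_mem hy hz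
  rw [← rename_X yi, ← map_pow, QFB_ev_y] at h2
  obtain ⟨y, hy⟩ := h2
  refine ⟨y, hy.trans (funext fun i => ?_)⟩
  simp [QFB_ev_apply, QFB_th_X]

/-- The combinations of `w` with coefficients in the smaller polynomial ring. -/
def QFB_ph {U : Type} [Fintype U] (y : Fin k → Fin m) (w : U → N) : (U → P k) →ₗ[ℂ] N where
  toFun f := ∑ u, (rename y (f u) : P m) • w u
  map_add' f g := by simp [add_smul, Finset.sum_add_distrib]
  map_smul' c f := by simp [Finset.smul_sum]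

theorem QFB_ph_smul {U : Type} [Fintype U] (y : Fin k → Fin m) (w : U → N) (a : P k)
    (f : U → P k) : QFB_ph y w (a • f) = (rename y a : P m) • QFB_ph y w f := by
  simp [QFB_ph, Finset.smul_sum, mul_smul]

/-- The free module. -/
def QFB_fr {U : Type} [Fintype U] (k : ℕ) (d : U → ℤ) : FB (id : Fin k → Fin k) (U → P k) where
  ι := U
  dg := d
  co := LinearEquiv.refl _ _
  co_y a v i := by simp
  co_X l j v hv i := by
    have := hz_mul (mem_hz_nat.2 (isHomogeneous_X ℂ l)) (hv i)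
    rwa [show ((1 : ℕ) : ℤ) + (j - d i) = j + 1 - d i by omega] at this

variable {U : Type} [Fintype U] {d : U → ℤ} {w : U → N} {σ : P m} {ν : ℕ}

theorem QFB_ph_mem (y : Fin k → Fin m) (hw : ∀ u, w u ∈ b.gr (d u)) {j : ℤ} {f : U → P k}
    (hf : f ∈ (QFB_fr k d).gr j) : QFB_ph y w f ∈ b.gr j :=
  Submodule.sum_mem _ fun u _ => sub_add_cancel j (d u) ▸ b.smul_mem (hz_rename y (hf u)) (hw u)

/-- Graded Nakayama. -/
theorem QFB_gen (hσ : σ.IsHomogeneous ν) (hw : ∀ u, w u ∈ b.gr (d u))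
    (h : ∀ j, ∀ v ∈ b.gr j, ∃ v' ∈ b.gr (j - ν), ∃ c : U → ℂ, QFB_ev b i0 v =
      QFB_ev b i0 (σ • v') + ∑ u ∈ Finset.univ.filter (d · = j), c u • QFB_ev b i0 (w u))
    (j : ℤ) : ∀ v ∈ b.gr j, ∃ f ∈ (QFB_fr k d).gr j, ∃ v' : N,
      v = QFB_ph (fun i => yi (i0.succAbove i)) w f + σ • v' := by
  classical
  obtain ⟨B, hB⟩ := (Set.finite_range b.dg).bddBelow
  have h0 : ∀ j < B, ∀ v ∈ b.gr j, v = 0 := fun j hj v hv =>
    b.co.map_eq_zero_iff.1 (funext fun i => by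
      have := hv i
      rwa [hz_neg (by have := hB ⟨i, rfl⟩; omega), Submodule.mem_bot] at this)
  rcases lt_or_ge j B with hj | hj
  · exact fun v hv => ⟨0, zero_mem _, 0, by simp [h0 j hj v hv]⟩
  replace hj : B - 1 ≤ j := by omega
  induction j, hj using Int.leInduction with
  | base => exact fun v hv => ⟨0, zero_mem _, 0, by simp [h0 _ (by omega) v hv]⟩
  | succ j _ ih =>
    intro v hv
    obtain ⟨v', hv', c, hc⟩ := h _ v hv
    have m1 : σ • v' ∈ b.gr (j + 1) := by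
      simpa using b.smul_mem (mem_hz_nat.2 hσ) hv'
    have m2 : ∑ u ∈ Finset.univ.filter (d · = j + 1), c u • w u ∈ b.gr (j + 1) :=
      Submodule.sum_mem _ fun u hu => Submodule.smul_mem _ _ ((Finset.mem_filter.1 hu).2 ▸ hw u)
    obtain ⟨z, hz1, e⟩ := QFB_ev_ker b i0 (sub_mem (sub_mem hv m1) m2)
      (by simp [hc, map_sum])
    choose f hf z' hz' using fun l => ih (z l) (by simpa using hz1 l)
    refine ⟨∑ u ∈ Finset.univ.filter (d · = j + 1), c u • Pi.single u 1 + ∑ l, (X l : P k) • f l,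
      add_mem (Submodule.sum_mem _ fun u hu => Submodule.smul_mem _ _ fun u' : U => ?_)
        (Submodule.sum_mem _ fun l _ => (QFB_fr k d).co_X l j _ (hf l)),
      v' + ∑ l, (X (yi (i0.succAbove l)) : P m) • z' l, ?_⟩
    · change (Pi.single u 1 : U → P k) u' ∈ hz k (j + 1 - d u')
      rcases eq_or_ne u' u with rfl | hne
      · rw [Pi.single_eq_same, (Finset.mem_filter.1 hu).2, sub_self]
        exact mem_hz_nat.2 (isHomogeneous_one _ _)
      · rw [Pi.single_eq_of_ne hne]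
        exact zero_mem _
    · have s1 : ∀ u, QFB_ph (fun i => yi (i0.succAbove i)) w (Pi.single u 1) = w u := fun u => by
        simp [QFB_ph, Pi.single_apply, apply_ite]
      rw [sub_sub, sub_eq_iff_eq_add] at e
      rw [e]
      simp only [map_add, map_sum, map_smul, s1, QFB_ph_smul, rename_X, smul_add, Finset.smul_sum,
        hz', Finset.sum_add_distrib, smul_comm σ]
      abel

/-- Independence, from the terms of lowest order. -/
theorem QFB_ind (hσ : σ.IsHomogeneous ν) (hw : ∀ u, w u ∈ b.gr (d u))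
    {M : Matrix b.ι b.ι (P (k + 1))} (hM : ∀ v, b.co (σ • v) = M.mulVec (b.co v))
    (hi : Function.Injective (M.map fun a => coeff 0 (QFB_th i0 a)).mulVec)
    (h : ∀ j, ∀ x ∈ Pi.spanSubset ℂ {i | b.dg i ≤ j - ν}, ∀ c : U → ℂ,
      (M.map fun a => coeff 0 (QFB_th i0 a)).mulVec x =
        ∑ u ∈ Finset.univ.filter (d · = j), c u • QFB_ev b i0 (w u) → ∀ u, d u = j → c u = 0)
    {f : U → P k} {v : N} (e : QFB_ph (fun i => yi (i0.succAbove i)) w f = σ • v) : f = 0 := by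
  classical
  have key : ∀ j, ∀ f ∈ (QFB_fr k d).gr j, ∀ v ∈ b.gr (j - ν),
      QFB_ph (fun i => yi (i0.succAbove i)) w f = σ • v → f = 0 := fun j f hf v hv e => by
    have e1 : ∀ i, ∑ u, QFB_th i0 (b.co (w u) i) * f u =
        ∑ i', QFB_th i0 (M i i') * QFB_th i0 (b.co v i') := fun i => by
      have := congrArg (fun z => QFB_th i0 (b.co z i)) e
      simp only [hM, Matrix.mulVec, dotProduct, map_sum, map_mul, QFB_ph, LinearMap.coe_mk,
        AddHom.coe_mk, Finset.sum_apply] at this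
      refine (Finset.sum_congr rfl fun u _ => ?_).trans this
      rw [show (fun i => yi (i0.succAbove i)) = yi ∘ i0.succAbove from rfl, ← rename_rename,
        b.co_y, map_mul, QFB_th_rename, mul_comm]
    have e2 : ∀ α : Fin k →₀ ℕ, (∀ i, coeff α (QFB_th i0 (b.co v i)) = 0) ∧
        ∀ u, coeff α (f u) = 0 := fun α => by
      induction α using WellFoundedLT.induction with
      | ind α ih =>
      have e3 : (M.map fun a => coeff 0 (QFB_th i0 a)).mulVec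
          (fun i => coeff α (QFB_th i0 (b.co v i))) = ∑ u, coeff α (f u) • QFB_ev b i0 (w u) := by
        funext i
        have := congrArg (coeff α) (e1 i)
        simp only [coeff_sum, QFB_low _ _ α fun γ hγ => (ih γ hγ).1 _,
          QFB_low _ _ α fun γ hγ => (ih γ hγ).2 _] at this
        refine this.symm.trans ?_
        rw [Finset.sum_apply]
        exact Finset.sum_congr rfl fun u _ => mul_comm _ _
      have e4 : ∀ u, d u ≠ j - α.degree → coeff α (f u) = 0 := fun u hu =>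
        by_contra fun hn => hu (by have : _ = j - d u := QFB_hz (hf u) hn; omega)
      have e5 : ∀ u, coeff α (f u) = 0 := fun u => by_contra fun hn => hn
        (h (j - α.degree) _ (Pi.mem_spanSubset_iff.2 fun i hi => by_contra fun hn => hi (by
          have := QFB_le i0 (hv i) hn
          change b.dg i ≤ _
          omega)) (fun u => coeff α (f u))
          (e3.trans (Finset.sum_subset (Finset.filter_subset _ _) fun u _ hu => by
            rw [e4 u (by simpa using hu), zero_smul]).symm) u (by_contra fun h => hn (e4 u h)))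
      refine ⟨congrFun (hi (e3.trans ?_)), e5⟩
      simp [e5, show (fun _ : b.ι => (0 : ℂ)) = 0 from rfl]
    exact funext fun u => MvPolynomial.ext _ _ fun α => (e2 α).2 u
  obtain ⟨cmp, c1, c2, c3, -, c5⟩ := b.exists_cmp
  obtain ⟨cm, d1, -, -, d4, -⟩ := (QFB_fr k d).exists_cmp
  obtain ⟨s, -, hs⟩ := d4 f
  rw [hs]
  refine Finset.sum_eq_zero fun j hj => key j _ (d1 j f) _ (c1 _ v) ?_
  rw [← c5 ν _ _ (mem_hz_nat.2 hσ), add_sub_cancel, ← e]
  conv_rhs => rw [hs, map_sum, map_sum]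
  rw [Finset.sum_eq_single_of_mem j hj fun i _ hij =>
    c3 _ _ hij.symm _ (QFB_ph_mem b _ hw (d1 i f)), c2 _ _ (QFB_ph_mem b _ hw (d1 j f))]

end modl

/-- If `σ` and the variables other than `yi i0` form a system of parameters, then `N / σ N` is graded
free over these variables. Sketch: `N' = N / (y') N` is free of finite rank over `ℂ[y_{i0}]` and `σ`
has torsion cokernel on it, so it is injective; hence `dim (N' / σ)_j` is the number of `(i, a)`,
`a < ν`, with `dg i + a = j`. Lift a homogeneous basis of `N' / σ`; graded Nakayama (induction on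
the degree, degrees are bounded below) shows that it generates `N / σ N` over `ℂ[y']`; `σ` is
injective on `N` too (a torsion-free module of finite rank over `ℂ[y]` on which `σ` has torsion
cokernel, or a filtration argument), so the dimensions agree in each degree. -/
theorem FB.exists_quot {m k : ℕ} {yi : Fin (k + 1) → Fin m} {N : Type} [AddCommGroup N]
    [Module ℂ N] [Module (P m) N] [IsScalarTower ℂ (P m) N] (b : FB yi N) (i0 : Fin (k + 1))
    {σ : P m} {ν : ℕ} (hσ : σ.IsHomogeneous ν) (hν : 0 < ν)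
    (hfin : ∃ K : ℕ, ∀ v : N, (X (yi i0) : P m) ^ K • v ∈
      (Ideal.span (insert σ (Set.range fun i : Fin k => (X (yi (i0.succAbove i)) : P m)))) •
        (⊤ : Submodule (P m) N)) :
    (∀ v : N, σ • v = 0 → v = 0) ∧
    ∃ (b' : FB (fun i : Fin k => yi (i0.succAbove i))
        (N ⧸ (Ideal.span {σ}) • (⊤ : Submodule (P m) N))) (u : b'.ι ≃ b.ι × Fin ν),
      (∀ i, b'.dg i = b.dg (u i).1 + ((u i).2 : ℕ)) ∧
      ∀ j w, w ∈ b'.gr j ↔ ∃ v ∈ b.gr j, Submodule.Quotient.mk v = w := by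
  classical
  have _ := hν
  obtain ⟨M, hM⟩ := QFB_mat b σ
  have hC : ∀ v, QFB_ev b i0 (σ • v) =
      (M.map fun a => coeff 0 (QFB_th i0 a)).mulVec (QFB_ev b i0 v) := fun v => funext fun i => by
    simp only [QFB_ev_apply, hM, Matrix.mulVec, dotProduct, map_sum, map_mul, coeff_sum,
      Matrix.map_apply]
    exact Finset.sum_congr rfl fun x _ => QFB_low _ _ 0 fun γ h => absurd h (by simp)
  have hu := Matrix.mulVec_surjective_iff_isUnit.1 (QFB_unit b i0 hC hfin)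
  have hi := Matrix.mulVec_injective_iff_isUnit.2 hu
  refine ⟨fun v hv => b.co.map_eq_zero_iff.1 (Matrix.eq_zero_of_mulVec_eq_zero (M := M)
    (fun h0 => ((Matrix.isUnit_iff_isUnit_det _).1 hu).ne_zero ?_) (by rw [← hM, hv, map_zero])), ?_⟩
  · exact ((constantCoeff.comp (QFB_th i0).toRingHom).map_det M).symm.trans
      ((congrArg _ h0).trans (map_zero _))
  let d : b.ι × Fin ν → ℤ := fun u => b.dg u.1 + (u.2 : ℕ)
  choose e e1 e2 e3 using fun j : ℤ => QFB_lin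
    (S := (Pi.spanSubset ℂ {i | b.dg i ≤ j - ν}).map
      (M.map fun a => coeff 0 (QFB_th i0 a)).mulVecLin) (T := Pi.spanSubset ℂ {i | b.dg i ≤ j})
    (by
      rintro _ ⟨x, hx, rfl⟩
      obtain ⟨v, hv, rfl⟩ := QFB_ev_surj b i0 hx
      rw [Matrix.mulVecLin_apply, ← hC]
      exact QFB_ev_mem b i0 (by simpa using b.smul_mem (mem_hz_nat.2 hσ) hv))
    (Finset.univ.filter (d · = j))
    (by
      rw [← LinearEquiv.finrank_eq (Submodule.equivMapOfInjective _ hi _), Pi.dim_spanSubset,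
        Pi.dim_spanSubset]
      exact QFB_card b.dg ν j)
  choose w hw hw' using fun u => QFB_ev_surj b i0 (e1 (d u) u (by simp))
  have hs : ∀ j (c : b.ι × Fin ν → ℂ), ∑ u ∈ Finset.univ.filter (d · = j), c u • e j u =
      ∑ u ∈ Finset.univ.filter (d · = j), c u • QFB_ev b i0 (w u) := fun j c =>
    Finset.sum_congr rfl fun u hu => by rw [hw', (Finset.mem_filter.1 hu).2]
  have gen := QFB_gen b i0 hσ hw fun j v hv => by
    obtain ⟨_, ⟨y, hy, rfl⟩, c, hc⟩ := e2 j _ (QFB_ev_mem b i0 hv)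
    obtain ⟨v', hv', rfl⟩ := QFB_ev_surj b i0 hy
    exact ⟨v', hv', c, by rw [hc, hs, hC, Matrix.mulVecLin_apply]⟩
  have ind := fun f v => QFB_ind b i0 hσ hw hM hi (f := f) (v := v) fun j x hx c hc u hu =>
    e3 j c ⟨x, hx, hc.trans (hs j c).symm⟩ u (by simpa using hu)
  let S : Submodule (P m) N := (Ideal.span {σ}) • (⊤ : Submodule (P m) N)
  have hS : ∀ z : N, S.mkQ z = 0 ↔ ∃ v, σ • v = z := fun z => by
    simp [S, Submodule.ideal_span_singleton_smul, Submodule.mem_smul_pointwise_iff_exists]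
  let Φ := S.mkQ.restrictScalars ℂ ∘ₗ QFB_ph (fun i => yi (i0.succAbove i)) w
  have g2 : ∀ j, ∀ v ∈ b.gr j, ∃ f ∈ (QFB_fr k d).gr j, Φ f = S.mkQ v := fun j v hv => by
    obtain ⟨f, hf, v', rfl⟩ := gen j v hv
    exact ⟨f, hf, by rw [map_add, (hS _).2 ⟨v', rfl⟩, add_zero]; rfl⟩
  have bij : Function.Bijective Φ := by
    refine ⟨(injective_iff_map_eq_zero Φ).2 fun f hf => ?_, fun z => ?_⟩
    · obtain ⟨v, hv⟩ := (hS _).1 hf
      exact ind f v hv.symm
    · obtain ⟨v, rfl⟩ := S.mkQ_surjective z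
      obtain ⟨cmp, c1, -, -, c4, -⟩ := b.exists_cmp
      obtain ⟨s, -, hs⟩ := c4 v
      rw [hs, map_sum]
      refine (LinearMap.range Φ).sum_mem fun j _ => ?_
      obtain ⟨f, -, hf⟩ := g2 j _ (c1 j v)
      exact ⟨f, hf⟩
  let E := LinearEquiv.ofBijective Φ bij
  have g3 : ∀ j z, E.symm z ∈ (QFB_fr k d).gr j ↔ ∃ v ∈ b.gr j, S.mkQ v = z := fun j z => by
    refine ⟨fun h => ⟨_, QFB_ph_mem b _ hw h, E.apply_symm_apply z⟩, ?_⟩
    rintro ⟨v, hv, rfl⟩
    obtain ⟨f, hf, h⟩ := g2 j v hv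
    rwa [← h, show E.symm (Φ f) = f from E.symm_apply_apply f]
  refine ⟨⟨b.ι × Fin ν, d, E.symm, fun a z i => ?_, fun l j z hz1 => ?_⟩, Equiv.refl _,
    fun _ => rfl, g3⟩
  · obtain ⟨f, rfl⟩ := E.surjective z
    have : (rename (fun i => yi (i0.succAbove i)) a : P m) • E f = E (a • f) :=
      ((congrArg S.mkQ (QFB_ph_smul _ w a f)).trans (map_smul _ _ _)).symm
    rw [this, E.symm_apply_apply, E.symm_apply_apply]
    rfl
  · obtain ⟨v, hv, rfl⟩ := (g3 j z).1 hz1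
    exact (g3 (j + 1) _).2 ⟨_, b.co_X l j v hv, map_smul _ _ _⟩

end

end Pool.Agent.MP_1c689d_ag.K0

end

section

/-! The projective data of a good surface. -/

set_option autoImplicit false

open MvPolynomial

namespace Pool.Agent.MP_1c689d_ag.K0

noncomputable section

theorem Cut_pow {m c r : ℕ} (Q : PD m 4 c r) (Pts : Finset (Fin 4 → ℂ)) {σ : P m} {ν : ℕ}
    (h : Good Q Pts σ ν) : ∃ K : ℕ, (X (Q.yi 0) : P m) ^ K ∈
      Ideal.span (insert σ (Set.range fun i : Fin 3 =>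
        (X (Q.yi ((0 : Fin 4).succAbove i)) : P m))) ⊔ Q.I := by
  change (X (Q.yi 0) : P m) ∈ Ideal.radical _
  rw [← vanishingIdeal_zeroLocus_eq_radical (K := ℂ), mem_vanishingIdeal_iff]
  intro v hv
  rw [mem_zeroLocus_iff] at hv
  rw [aeval_X]
  by_contra h0
  have hc : Q.OnC v := ⟨fun e => h0 (by rw [e]; rfl), fun j =>
    hv _ (Ideal.mem_sup_right (Ideal.subset_span ⟨j, rfl⟩))⟩
  have hs : eval v σ = 0 := hv _ (Ideal.mem_sup_left (Ideal.subset_span (Set.mem_insert _ _)))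
  obtain ⟨i, hi⟩ := h.ax v hc hs
  have h1 := hv _ (Ideal.mem_sup_left (Ideal.subset_span (Set.mem_insert_of_mem _ ⟨i, rfl⟩)))
  rw [aeval_X] at h1
  exact hi h1

theorem Cut_fin {m : ℕ} {N : Type} [AddCommGroup N] [Module (P m) N] {J I : Ideal (P m)} {f : P m}
    (hf : f ∈ J ⊔ I) (hI : ∀ g ∈ I, ∀ v : N, g • v = 0) (v : N) :
    f • v ∈ J • (⊤ : Submodule (P m) N) := by
  obtain ⟨a, ha, b, hb, rfl⟩ := Submodule.mem_sup.1 hf
  rw [add_smul, hI b hb, add_zero]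
  exact Submodule.smul_mem_smul ha Submodule.mem_top

theorem Cut_equiv {m r : ℕ} (F : Fin r → P m) (σ : P m) :
    ∃ e : ((P m ⧸ Ideal.span (Set.range F)) ⧸ (Ideal.span {σ}) •
        (⊤ : Submodule (P m) (P m ⧸ Ideal.span (Set.range F)))) ≃ₗ[P m]
        (P m ⧸ Ideal.span (Set.range (Fin.cons σ F : Fin (r + 1) → P m))),
      e (Submodule.Quotient.mk 1) = 1 := by
  have hs : Ideal.span (Set.range (Fin.cons σ F : Fin (r + 1) → P m)) =
      Ideal.span {σ} ⊔ Ideal.span (Set.range F) := by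
    rw [Fin.range_cons, Ideal.span_insert]
  have hle : Ideal.span (Set.range F) ≤
      Ideal.span (Set.range (Fin.cons σ F : Fin (r + 1) → P m)) := by
    rw [hs]
    exact le_sup_right
  have hk : (Ideal.span {σ}) • (⊤ : Submodule (P m) (P m ⧸ Ideal.span (Set.range F))) =
      LinearMap.ker (Submodule.factor hle) := by
    apply le_antisymm
    · refine Submodule.smul_le.2 fun a ha v _ => ?_
      obtain ⟨g, rfl⟩ := Submodule.Quotient.mk_surjective _ v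
      rw [LinearMap.mem_ker, ← Submodule.Quotient.mk_smul]
      refine (Submodule.Quotient.mk_eq_zero _).2 ?_
      rw [hs]
      exact Ideal.mem_sup_left (Ideal.mul_mem_right g _ ha)
    · intro v hv
      obtain ⟨g, rfl⟩ := Submodule.Quotient.mk_surjective _ v
      have hg : g ∈ Ideal.span (Set.range (Fin.cons σ F : Fin (r + 1) → P m)) :=
        (Submodule.Quotient.mk_eq_zero _).1 hv
      rw [hs] at hg
      have h1 := Cut_fin (N := P m ⧸ Ideal.span (Set.range F)) hg (fun a ha w => by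
        obtain ⟨g', rfl⟩ := Submodule.Quotient.mk_surjective _ w
        rw [← Submodule.Quotient.mk_smul]
        exact (Submodule.Quotient.mk_eq_zero _).2 (Ideal.mul_mem_right g' _ ha))
        (Submodule.Quotient.mk 1)
      rwa [← Submodule.Quotient.mk_smul, smul_eq_mul, mul_one] at h1
  exact ⟨(Submodule.quotEquivOfEq _ _ hk).trans
    (LinearMap.quotKerEquivOfSurjective _ (Submodule.factor_surjective hle)), rfl⟩

/-- The reindexing of rows and columns. -/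
def Cut_u (c : ℕ) : Fin (c + 1) ⊕ Fin 3 ≃ Fin c ⊕ Fin 4 where
  toFun := Sum.elim (Fin.cons (Sum.inr 0) Sum.inl) fun i => Sum.inr i.succ
  invFun := Sum.elim (fun a => Sum.inl a.succ) (Fin.cons (Sum.inl 0) Sum.inr)
  left_inv := by
    rintro (a | i)
    · refine Fin.cases ?_ (fun a => ?_) a <;> rfl
    · rfl
  right_inv := by
    rintro (a | i)
    · rfl
    · refine Fin.cases ?_ (fun a => ?_) i <;> rfl

theorem Cut_step (n : ℤ) : Module.finrank ℂ (hz 3 (n + 1)) + Module.finrank ℂ (hz 4 n) =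
    Module.finrank ℂ (hz 4 (n + 1)) := by
  rcases lt_trichotomy n (-1) with h | rfl | h
  · rw [hz_neg (k := 3) (j := n + 1) (by omega), hz_neg (k := 4) (j := n + 1) (by omega),
      hz_neg (k := 4) (j := n) (by omega)]
    simp
  · have h3 := finrank_hz 2 0
    have h4 := finrank_hz 3 0
    rw [hz_neg (k := 4) (j := -1) (by omega), finrank_bot]
    exact h3.trans h4.symm
  · obtain ⟨i, rfl⟩ := Int.eq_ofNat_of_zero_le (show 0 ≤ n by omega)
    have h3 := finrank_hz 2 (i + 1)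
    have h4 := finrank_hz 3 (i + 1)
    have h5 := finrank_hz 3 i
    push_cast at h3 h4
    rw [h3, h4, h5, show i + 1 + 3 = (i + 3) + 1 by ring, Nat.choose_succ_succ' (i + 3) 2]

theorem Cut_congr (k : ℕ) {i j : ℤ} (h : i = j) :
    Module.finrank ℂ (hz k i) = Module.finrank ℂ (hz k j) := by
  rw [h]

theorem Cut_sum (n : ℤ) (ν : ℕ) :
    ∑ a : Fin ν, Module.finrank ℂ (hz 3 (n + 1 + (a : ℕ))) + Module.finrank ℂ (hz 4 n) =
      Module.finrank ℂ (hz 4 (n + ν)) := by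
  induction ν with
  | zero =>
    rw [Fin.sum_univ_zero, zero_add]
    exact Cut_congr 4 (by simp)
  | succ ν ih =>
    have h := Cut_step (n + ν)
    have h1 : Module.finrank ℂ (hz 3 (n + 1 + ((Fin.last ν : Fin (ν + 1)) : ℕ))) =
        Module.finrank ℂ (hz 3 (n + ν + 1)) := Cut_congr 3 (by rw [Fin.val_last]; ring)
    have h2 : Module.finrank ℂ (hz 4 (n + (ν + 1 : ℕ))) = Module.finrank ℂ (hz 4 (n + ν + 1)) :=
      Cut_congr 4 (by push_cast; ring)
    have h3 : ∑ a : Fin ν, Module.finrank ℂ (hz 3 (n + 1 + ((a.castSucc : Fin (ν + 1)) : ℕ))) =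
        ∑ a : Fin ν, Module.finrank ℂ (hz 3 (n + 1 + (a : ℕ))) := rfl
    rw [Fin.sum_univ_castSucc, h1, h2, h3]
    omega

/-- Sketch: Nullstellensatz and `Good.ax` give `y₀ ^ K ∈ I + (σ, y₁, y₂, y₃)`; apply
`FB.exists_quot` with `i0 = 0`, `FB.exists_equiv`; `jd` for `Q'` with rows `cons 0 (succ ∘ A)` is up
to sign `Q.jd A (cons (gd σ) ..)` (or argue with linear independence of rows); the dimension
formula is the hockey stick identity with `finrank_og`, `finrank_hz`. -/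
theorem exists_cut {m c r : ℕ} (Q : PD m 4 c r) (Pts : Finset (Fin 4 → ℂ)) {σ : P m} {ν : ℕ}
    (h : Good Q Pts σ ν) :
    ∃ Q' : PD m 3 (c + 1) (r + 1), Q'.F = Fin.cons σ Q.F ∧ (∀ i, Q'.yi i = Q.yi i.succ) ∧
      Q'.Sm0 ∅ ∧ (∀ j : ℤ, Module.finrank ℂ (Q'.og j) + Module.finrank ℂ (Q.og j) =
        Module.finrank ℂ (Q.og (j + ν))) ∧
      ∀ t : Q.Om, σ • t = 0 → t = 0 := by
  obtain ⟨K, hK⟩ := Cut_pow Q Pts h
  obtain ⟨-, b1, u1, d1, g1⟩ := Q.b.exists_quot 0 h.hom h.pos ⟨K, Cut_fin hK fun a ha w => by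
    obtain ⟨g', rfl⟩ := Submodule.Quotient.mk_surjective _ w
    rw [← Submodule.Quotient.mk_smul]
    exact (Submodule.Quotient.mk_eq_zero _).2 (Ideal.mul_mem_right g' _ ha)⟩
  obtain ⟨e, he⟩ := Cut_equiv Q.F σ
  obtain ⟨b2, u2, d2, g2⟩ := b1.exists_equiv e
  obtain ⟨bo, -⟩ := Q.exists_ob
  let Q' : PD m 3 (c + 1) (r + 1) :=
    { yi := fun i => Q.yi ((0 : Fin 4).succAbove i)
      inj := Q.inj.comp Fin.succAbove_right_injective
      eqv := (Cut_u c).trans Q.eqv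
      F := Fin.cons σ Q.F
      dF := Fin.cons ν Q.dF
      Fh := fun j => Fin.cases h.hom Q.Fh j
      b := b2
      one := by
        rw [← he, g2, g1]
        exact ⟨1, Q.one, rfl⟩ }
  refine ⟨Q', rfl, fun i => rfl, fun v hv _ => ?_, fun j => ?_,
    (bo.exists_quot 0 h.hom h.pos ⟨K, Cut_fin hK fun a ha w => Q.I_smul ha w⟩).1⟩
  · obtain ⟨A, l, hA⟩ := h.sm v ⟨hv.1, fun j => hv.2 j.succ⟩ (hv.2 0)
    refine ⟨Fin.cons 0 fun a => (A a).succ, l, ?_⟩
    have e1 : Q'.jd (Fin.cons 0 fun a => (A a).succ) (fun i => ue (l i)) =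
        Q.jd A (Fin.cons (gd σ) fun i => ue (l i)) := by
      unfold PD.jd
      rw [← Matrix.det_submatrix_equiv_self (Cut_u c)]
      congr 1
      ext i j : 2
      rcases i with a | i
      · refine Fin.cases ?_ (fun a => ?_) a <;> rfl
      · rfl
    rwa [e1]
  · rw [Q'.finrank_og, Q.finrank_og, Q.finrank_og]
    have e1 : ∑ i : Q'.b.ι, Module.finrank ℂ (hz 3 (j - ((3 : ℕ) - Q'.b.dg i))) =
        ∑ p : Q.b.ι × Fin ν,
          Module.finrank ℂ (hz 3 (j - ((4 : ℕ) - Q.b.dg p.1) + 1 + (p.2 : ℕ))) := by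
      refine Fintype.sum_equiv (u2.trans u1) _ _ fun i => ?_
      have e2 : Q'.b.dg i = Q.b.dg (u1 (u2 i)).1 + ((u1 (u2 i)).2 : ℕ) := (d2 i).trans (d1 _)
      refine Cut_congr 3 ?_
      rw [e2, Equiv.trans_apply]
      push_cast
      ring
    rw [e1, Fintype.sum_prod_type, ← Finset.sum_add_distrib]
    refine Finset.sum_congr rfl fun i _ => ?_
    have e2 := Cut_sum (j - ((4 : ℕ) - Q.b.dg i)) ν
    rw [Cut_congr 4 (show j - ((4 : ℕ) - Q.b.dg i) + ν = j + ν - ((4 : ℕ) - Q.b.dg i) by ring)]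
      at e2
    exact e2

end

end Pool.Agent.MP_1c689d_ag.K0

end

section

/-! The annihilator in the mixed case. -/

set_option autoImplicit false

open MvPolynomial

namespace Pool.Agent.MP_1c689d_ag.K0.Al

noncomputable section

variable {m c r : ℕ} (K : Ctx m c r)

theorem Ctx.col_symm (u : K.Om × ℂ) (a b : Vec) : K.col u a b = K.col u b a := by
  unfold Ctx.col
  rw [Finset.pair_comm a b]

theorem Ctx.sol_zero_C1a : K.Sol 0 0 0 0 0 0 := by
  have h0 : ∀ h : P m, dv (0 : Fin m → K.Om) h = 0 := fun h => dv_zero_left h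
  refine ⟨⟨fun l => zero_mem _, fun j => ?_, h0 _⟩, fun l => zero_mem _, fun j => ?_, ?_⟩
  · rw [h0]; simp
  · rw [h0]; simp
  · rw [h0, h0]; simp

theorem Ctx.sol_add_C1a {τ τ' : K.Om} {b b' : P m} {g ξ g' ξ' : Fin m → K.Om}
    {ρ ru ρ' ru' : Fin r → K.Om} (h : K.Sol τ b g ξ ρ ru) (h' : K.Sol τ' b' g' ξ' ρ' ru') :
    K.Sol (τ + τ') (b + b') (g + g') (ξ + ξ') (ρ + ρ') (ru + ru') := by
  have ha : ∀ (x y : Fin m → K.Om) (f : P m), dv (x + y) f = dv x f + dv y f :=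
    fun x y f => dv_add_left x y f
  refine ⟨⟨fun l => add_mem (h.kz.deg l) (h'.kz.deg l), fun j => ?_, ?_⟩,
    fun l => add_mem (h.deg l) (h'.deg l), fun j => ?_, ?_⟩
  · rw [ha, h.kz.J, h'.kz.J, Pi.add_apply, smul_add]
  · rw [ha, h.kz.s, h'.kz.s, add_zero]
  · rw [ha, h.J, h'.J, Pi.add_apply, Pi.add_apply, smul_add, smul_add, add_smul]
    abel
  · rw [ha, ha, h.out, h'.out]
    abel

theorem Ctx.sol_smul_C1a (t : ℂ) {τ : K.Om} {b : P m} {g ξ : Fin m → K.Om}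
    {ρ ru : Fin r → K.Om} (h : K.Sol τ b g ξ ρ ru) :
    K.Sol (t • τ) (t • b) (t • g) (t • ξ) (t • ρ) (t • ru) := by
  have ha : ∀ (x : Fin m → K.Om) (f : P m), dv (t • x) f = t • dv x f :=
    fun x f => dv_csmul_left t x f
  have hc : ∀ (f : P m) (w : K.Om), f • t • w = t • f • w := fun f w => by
    rw [← algebraMap_smul (P m) t w, ← algebraMap_smul (P m) t (f • w), smul_smul, smul_smul,
      mul_comm]
  refine ⟨⟨fun l => Submodule.smul_mem _ t (h.kz.deg l), fun j => ?_, ?_⟩,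
    fun l => Submodule.smul_mem _ t (h.deg l), fun j => ?_, ?_⟩
  · rw [ha, h.kz.J, Pi.smul_apply, hc]
  · rw [ha, h.kz.s, smul_zero]
  · rw [ha, h.J, Pi.smul_apply, Pi.smul_apply, hc, hc, smul_assoc, smul_add, smul_add]
  · rw [ha, ha, h.out, smul_add]

/-- The solutions attached to the multiples of `u`. -/
def Ctx.solS_C1a (u : K.Om × ℂ) : Submodule ℂ
    (P m × (Fin m → K.Om) × (Fin m → K.Om) × (Fin r → K.Om) × (Fin r → K.Om)) where
  carrier := {s | s.1 ∈ hz m K.ν ∧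
    K.Sol (s.1 • u.1) (u.2 • s.1) s.2.1 s.2.2.1 s.2.2.2.1 s.2.2.2.2}
  add_mem' := fun {s s'} hs hs' => ⟨add_mem hs.1 hs'.1, by
    have := K.sol_add_C1a hs.2 hs'.2
    rw [← add_smul, ← smul_add] at this
    exact this⟩
  zero_mem' := ⟨zero_mem _, by
    have := K.sol_zero_C1a
    change K.Sol ((0 : P m) • u.1) (u.2 • (0 : P m)) 0 0 0 0
    rw [zero_smul, smul_zero]
    exact this⟩
  smul_mem' := fun t s hs => ⟨Submodule.smul_mem _ t hs.1, by
    have := K.sol_smul_C1a t hs.2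
    rw [← smul_assoc, smul_comm t u.2] at this
    exact this⟩

/-- The bivector as a linear map. -/
def Ctx.wgL_C1a : (Fin m → K.Om) →ₗ[ℂ] (Fin m → Fin m → K.Om) where
  toFun := wg
  map_add' := fun x y => by
    funext k l
    simp only [wg, Pi.add_apply, smul_add]
    abel
  map_smul' := fun t x => by
    funext k l
    have hc : ∀ (f : P m) (w : K.Om), f • t • w = t • f • w := fun f w => by
      rw [← algebraMap_smul (P m) t w, ← algebraMap_smul (P m) t (f • w), smul_smul, smul_smul,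
        mul_comm]
    simp only [wg, Pi.smul_apply, RingHom.id_apply, hc, smul_sub]

/-- The bivectors with all the values in a submodule. -/
def Ctx.allM_C1a (S : Finset Vec) : Submodule ℂ (Fin m → Fin m → K.Om) where
  carrier := {ψ | ∀ k l, ψ k l ∈ K.M S}
  add_mem' := fun {x y} hx hy k l => add_mem (hx k l) (hy k l)
  zero_mem' := fun _ _ => zero_mem _
  smul_mem' := fun t x hx k l => by
    change t • x k l ∈ K.M S
    rw [← algebraMap_smul (P m) t]
    exact Submodule.smul_mem _ _ (hx k l)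

/-- The forms that vanish on the curves of colour other than one. -/
def Ctx.w0_C1a (u : K.Om × ℂ) : Submodule ℂ (P m) where
  carrier := {f | f ∈ hz m K.ν ∧
    ∀ a ∈ K.A, ∀ a' ∈ K.A, a ≠ a' → K.col u a a' ≠ 1 → f ∈ K.p {a, a'}}
  add_mem' := fun {x y} hx hy => ⟨add_mem hx.1 hy.1, fun a ha a' ha' hne hc =>
    add_mem (hx.2 a ha a' ha' hne hc) (hy.2 a ha a' ha' hne hc)⟩
  zero_mem' := ⟨zero_mem _, fun _ _ _ _ _ _ => zero_mem _⟩
  smul_mem' := fun t x hx => ⟨Submodule.smul_mem _ t hx.1, fun a ha a' ha' hne hc => by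
    rw [← algebraMap_smul (P m) t]
    exact Submodule.smul_mem _ _ (hx.2 a ha a' ha' hne hc)⟩

theorem Ctx.mem_Ann_C1a {u : K.Om × ℂ} {b : P m} : b ∈ K.Ann u ↔ b ∈ hz m K.ν ∧
    ∃ g ξ ρ ru, K.Sol (b • u.1) (u.2 • b) g ξ ρ ru := by
  unfold Ctx.Ann
  rw [Submodule.mem_inf, Submodule.mem_comap, K.mem_Jp, mm_apply]

theorem Ctx.col_ne_one_C1a {u : K.Om × ℂ} {a a' : Vec} (h : K.col u a a' ≠ 1) :
    u.1 ∉ K.M {a, a'} := by
  intro hm
  apply h
  unfold Ctx.col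
  rw [if_pos hm]

theorem Ctx.col_ne_two_C1a {u : K.Om × ℂ} {a a' : Vec} (h : K.col u a a' ≠ 2) {b : P m}
    (hb : b ∈ K.Ann u) : b • u.1 ∈ K.M {a, a'} := by
  by_cases h1 : u.1 ∈ K.M {a, a'}
  · exact Submodule.smul_mem _ b h1
  · by_cases h2 : ∀ x ∈ K.Ann u, x ∈ K.p {a, a'}
    · exact K.smul_mem_M (h2 b hb) _
    · exfalso
      apply h
      unfold Ctx.col
      rw [if_neg h1, if_neg h2]

theorem Ctx.annB (u : K.Om × ℂ) {l : List Vec} (hl : l.Nodup) (hA : l.toFinset = K.A) :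
    Module.finrank ℂ (K.Ann u) ≤ K.dI + 1 + fil K.h (fun a b => K.col u a b ≠ 1) l + K.n3 u := by
  have hfin : FiniteDimensional ℂ (K.w0_C1a u) :=
    Submodule.finiteDimensional_of_le (S₂ := hz m K.ν) fun f hf => hf.1
  have hW : Module.finrank ℂ (K.w0_C1a u) ≤
      K.dI + 1 + fil K.h (fun a b => K.col u a b ≠ 1) l :=
    K.filP (fun a b => K.col u a b ≠ 1) hl hA (K.w0_C1a u) fun f hf => hf
  have key := (la2 (S := K.solS_C1a u) (LinearMap.fst ℂ _ _ ∘ₗ (K.solS_C1a u).subtype)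
    (K.A.offDiag.filter fun x => K.col u x.1 x.2 = 2)
    (K.wgL_C1a ∘ₗ LinearMap.fst ℂ _ _ ∘ₗ LinearMap.snd ℂ _ _ ∘ₗ LinearMap.snd ℂ _ _ ∘ₗ
      (K.solS_C1a u).subtype)
    (fun x k l => K.pr (K.A \ {x.1, x.2}) • K.psi0 x.1 x.2 k l)
    (fun x => K.allM_C1a {x.1, x.2}) (K.w0_C1a u) ?_ ?_).2
  · have hr : LinearMap.range (LinearMap.fst ℂ _ _ ∘ₗ (K.solS_C1a u).subtype) = K.Ann u := by
      ext b
      rw [K.mem_Ann_C1a, LinearMap.mem_range]
      constructor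
      · rintro ⟨s, rfl⟩
        exact ⟨s.2.1, _, _, _, _, s.2.2⟩
      · rintro ⟨hb, g, ξ, ρ, ru, h⟩
        exact ⟨⟨(b, g, ξ, ρ, ru), hb, h⟩, rfl⟩
    rw [hr] at key
    exact key.trans (Nat.add_le_add_right hW _)
  · intro s x hx
    obtain ⟨h1, h2, h3⟩ := Finset.mem_offDiag.1 (Finset.mem_filter.1 hx).1
    obtain ⟨t, ht⟩ := K.cab s.2.2.kz h1 h2 h3
    exact ⟨t, ht⟩
  · intro s hs
    have hb : s.1.1 ∈ K.Ann u := K.mem_Ann_C1a.2 ⟨s.2.1, _, _, _, _, s.2.2⟩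
    have hj : K.J0 (s.1.1 • u.1) (u.2 • s.1.1) := by
      refine s.2.2.j0 fun a ha a' ha' hne k l => ?_
      by_cases hc : K.col u a a' = 2
      · exact hs (a, a') (Finset.mem_filter.2 ⟨Finset.mem_offDiag.2 ⟨ha, ha', hne⟩, hc⟩) k l
      · exact s.2.2.wg_mem ha ha' hne (K.col_ne_two_C1a hc hb) k l
    refine ⟨s.2.1, fun a ha a' ha' hne hc => ?_⟩
    by_contra hn
    exact K.col_ne_one_C1a hc (K.tf ha ha' hne hn (hj.mem ha ha' hne))

end

end Pool.Agent.MP_1c689d_ag.K0.Al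

end

section

/-! Restriction of a solution to a curve. -/

set_option autoImplicit false

open MvPolynomial

namespace Pool.Agent.MP_1c689d_ag.K0.Al

noncomputable section

variable {m c r : ℕ} (K : Ctx m c r)

theorem Ctx.fld_Red {S T : Finset Vec} (hS : S ⊆ K.A) (hc : S.card ≤ 3) (hT : T ⊆ K.A)
    (hd : Disjoint S T) {g : Fin m → K.Om} {ψ : Fin m → Fin m → K.Om}
    (hψ : ∀ a l, wg g a l - K.pr T • ψ a l ∈ K.M S) {h : P m} {n : ℕ} (hh : h.IsHomogeneous n)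
    (hp : h ∈ K.p S) {β : K.Om} (hβ : dv g h - K.pr T • β ∈ K.M S) (l : Fin m) :
    dv (fun a => ψ a l) h - (X l : P m) • β ∈ K.M S := by
  refine reg_pr (Φ := K.fr) (ob K.Q) (hS.trans K.A_sub) hc (hT.trans K.A_sub) hd ?_
  have h1 := dv_mem (K.M S) (g := fun a => wg g a l - K.pr T • ψ a l) (fun a => hψ a l) h
  rw [dv_sub_left, dv_smul_left, dv_wg hh] at h1
  have h2 := (K.M S).smul_mem (X l) hβ
  have h3 := K.smul_mem_M (Ideal.mul_mem_left _ (n : P m) hp) (g l)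
  have h4 := sub_mem (sub_mem h2 h3) h1
  have e : K.fr.pr T • (dv (fun a => ψ a l) h - (X l : P m) • β)
      = (X l : P m) • (dv g h - K.pr T • β) - ((n : P m) * h) • g l -
        ((X l : P m) • dv g h - ((n : P m) * h) • g l - K.pr T • dv (fun a => ψ a l) h) := by
    module
  rw [e]
  exact h4

theorem Ctx.red {i j k : Vec} (ht : K.Tri i j k) {g : Fin m → K.Om}
    (hg : ∀ l, g l ∈ K.Q.og (K.ν + 1)) {ζ : Fin r → K.Om} {α : Vec → K.Om}
    (hF : ∀ t, dv g (K.Q.F t) - K.pr (K.A \ {i, j, k}) • ζ t ∈ K.M {j, k})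
    (hL : ∀ s ∈ K.A, dv g (K.L s) - K.pr (K.A \ {i, j, k}) • α s ∈ K.M {s, j, k}) :
    K.HasLift (3 * K.e + 2) i j k ζ α := by
  obtain ⟨hi, hj, hk, ij, ik, jk⟩ := ht
  have s3 : ({i, j, k} : Finset Vec) ⊆ K.A := by
    intro a ha
    simp only [Finset.mem_insert, Finset.mem_singleton] at ha
    rcases ha with rfl | rfl | rfl <;> assumption
  have s23 : ∀ s : Vec, ({j, k} : Finset Vec) ⊆ {s, j, k} := fun s => Finset.subset_insert _ _
  have s2 : ({j, k} : Finset Vec) ⊆ K.A := (s23 i).trans s3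
  have c2 : ({j, k} : Finset Vec).card ≤ 2 := Finset.card_le_two
  have c3 : ({i, j, k} : Finset Vec).card = 3 := Finset.card_eq_three.2 ⟨i, j, k, ij, ik, jk, rfl⟩
  have hT : K.A \ {i, j, k} ⊆ K.A := Finset.sdiff_subset
  have d3 : Disjoint ({i, j, k} : Finset Vec) (K.A \ {i, j, k}) := Finset.disjoint_sdiff
  have d2 : Disjoint ({j, k} : Finset Vec) (K.A \ {i, j, k}) := d3.mono_left (s23 i)
  have ej : ({j, j, k} : Finset Vec) = {j, k} := Finset.insert_eq_of_mem (by simp)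
  have ek : ({k, j, k} : Finset Vec) = {j, k} := Finset.insert_eq_of_mem (by simp)
  have hj' := hL j hj
  have hk' := hL k hk
  rw [ej] at hj'
  rw [ek] at hk'
  have hw : ∀ a l, ∀ s ∈ K.A \ {i, j, k}, wg g a l ∈ K.fr.M K.Om (insert s {j, k}) := by
    intro a l s hs
    have hq : K.pr (K.A \ {i, j, k}) ∈ K.fr.q {s, j, k} :=
      K.fr.pr_mem_q (Finset.mem_insert_self _ _) hs
    have up : ∀ {w β : K.Om}, w - K.pr (K.A \ {i, j, k}) • β ∈ K.M {s, j, k} →
        w ∈ K.M {s, j, k} := fun {w β} h => by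
      simpa using add_mem h (K.fr.smul_mem_M hq β)
    obtain ⟨hs1, hs2⟩ := Finset.mem_sdiff.1 hs
    simp only [Finset.mem_insert, Finset.mem_singleton, not_or] at hs2
    exact K.tri hj hk (Finset.mem_union_left _ hs1) jk hs2.2.1 hs2.2.2
      (fun t => up (K.fr.M_mono (s23 s) (hF t))) (up (K.fr.M_mono (s23 s) hj'))
      (up (K.fr.M_mono (s23 s) hk')) (up (hL s hs1)) a l
  have hex : ∀ a l, ∃ u ∈ K.Q.og (3 * K.e + 2),
      wg g a l - K.pr (K.A \ {i, j, k}) • u ∈ K.M {j, k} := by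
    intro a l
    have h1 := wg_mem_og K.Q hg a l
    rw [← ob_gr] at h1
    obtain ⟨u, hu, hu'⟩ := inter_gr (Φ := K.fr) (ob K.Q) (s2.trans K.A_sub) c2
      (hT.trans K.A_sub) d2 h1 (hw a l)
    refine ⟨u, ?_, hu'⟩
    rw [ob_gr, Finset.card_sdiff_of_subset s3, c3,
      Nat.cast_sub (le_trans (by norm_num) K.card_ge)] at hu
    have e : (3 * K.e + 2 : ℤ) = (K.ν : ℤ) + 1 + 1 - ((K.A.card : ℤ) - (3 : ℕ)) * K.fr.e := by
      push_cast
      ring
    rw [e]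
    exact hu
  choose ψ hψ hψ' using hex
  have can : ∀ {w : K.Om}, K.pr (K.A \ {i, j, k}) • w ∈ K.M {j, k} → w ∈ K.M {j, k} :=
    fun h => reg_pr (Φ := K.fr) (ob K.Q) (s2.trans K.A_sub) (c2.trans (by norm_num))
      (hT.trans K.A_sub) d2 h
  refine ⟨ψ, hψ, fun a l => can ?_, fun a b l => can ?_, fun t l => ?_, fun l => ?_, fun l => ?_,
    fun l => ?_⟩
  · have h1 := neg_mem (add_mem (hψ' a l) (hψ' l a))
    have h2 := wg_anti g a l
    have e : K.pr (K.A \ {i, j, k}) • (ψ a l + ψ l a) = -(wg g a l - K.pr (K.A \ {i, j, k}) • ψ a l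
        + (wg g l a - K.pr (K.A \ {i, j, k}) • ψ l a)) + (wg g a l + wg g l a) := by
      module
    rw [e, h2, add_zero]
    exact h1
  · have h1 := neg_mem (add_mem (sub_mem ((K.M {j, k}).smul_mem (X a) (hψ' b l))
      ((K.M {j, k}).smul_mem (X b) (hψ' a l))) ((K.M {j, k}).smul_mem (X l) (hψ' a b)))
    have h2 := cl3_wg g a b l
    have e : K.pr (K.A \ {i, j, k}) • cl3 ψ a b l =
        -((X a : P m) • (wg g b l - K.pr (K.A \ {i, j, k}) • ψ b l) -
          (X b : P m) • (wg g a l - K.pr (K.A \ {i, j, k}) • ψ a l) +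
          (X l : P m) • (wg g a b - K.pr (K.A \ {i, j, k}) • ψ a b)) + cl3 (wg g) a b l := by
      simp only [cl3]
      module
    rw [e, h2, add_zero]
    exact h1
  · exact K.fld_Red s2 (c2.trans (by norm_num)) hT d2 hψ' (K.Q.Fh t)
      (Ideal.mem_sup_left (Ideal.subset_span ⟨t, rfl⟩)) (hF t) l
  · exact K.fld_Red s2 (c2.trans (by norm_num)) hT d2 hψ' (Lv_hom _ _ j)
      (Ideal.mem_sup_right (K.fr.mem_q (by simp))) hj' l
  · exact K.fld_Red s2 (c2.trans (by norm_num)) hT d2 hψ' (Lv_hom _ _ k)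
      (Ideal.mem_sup_right (K.fr.mem_q (by simp))) hk' l
  · exact K.fld_Red s3 c3.le hT d3 (fun a l => K.fr.M_mono (s23 i) (hψ' a l)) (Lv_hom _ _ i)
      (Ideal.mem_sup_right (K.fr.mem_q (by simp))) (hL i hi) l

theorem Ctx.Prs.pr_mem {K : Ctx m c r} {i : Vec} {Γ : Finset (Vec × Vec)} (h : K.Prs i Γ)
    {x y : Vec × Vec} (hx : x ∈ Γ) (hy : y ∈ Γ) (hne : y ≠ x) :
    K.pr (K.A \ {i, y.1, y.2}) ∈ K.fr.q {x.1, x.2} := by
  have tx := h.tri x hx
  have hns : ¬ ({x.1, x.2} : Finset Vec) ⊆ {y.1, y.2} := fun hs =>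
    hne (h.inj x hx y hy (Finset.eq_of_subset_of_card_le hs
      (by rw [Finset.card_pair tx.jk]; exact Finset.card_le_two))).symm
  obtain ⟨a, ha, ha'⟩ := Finset.not_subset.1 hns
  refine K.fr.pr_mem_q ha (Finset.mem_sdiff.2 ?_)
  rw [Finset.mem_insert, not_or]
  rcases Finset.mem_insert.1 ha with rfl | ha
  · exact ⟨tx.hj, tx.ij.symm, ha'⟩
  · rw [Finset.mem_singleton.1 ha] at ha' ⊢
    exact ⟨tx.hk, tx.ik.symm, ha'⟩

theorem Ctx.test {i : Vec} {Γ : Finset (Vec × Vec)} (hΓ : K.Prs i Γ) {g : Fin m → K.Om}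
    (hg : ∀ l, g l ∈ K.Q.og (K.ν + 1)) {ζ : Vec × Vec → Fin r → K.Om}
    {α : Vec × Vec → Vec → K.Om} {ρ : Fin r → K.Om}
    (hF : ∀ t, dv g (K.Q.F t) = ∑ y ∈ Γ, K.pr (K.A \ {i, y.1, y.2}) • ζ y t + K.s0 • ρ t)
    (hs : dv g K.s0 =
      ∑ s ∈ K.A, K.pr (K.A.erase s) • ∑ y ∈ Γ, K.pr (K.A \ {i, y.1, y.2}) • α y s)
    {x : Vec × Vec} (hx : x ∈ Γ) : K.HasLift (3 * K.e + 2) i x.1 x.2 (ζ x) (α x) := by
  have rest : ∀ β : Vec × Vec → K.Om, ∑ y ∈ Γ, K.pr (K.A \ {i, y.1, y.2}) • β y -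
      K.pr (K.A \ {i, x.1, x.2}) • β x ∈ K.M {x.1, x.2} := by
    intro β
    rw [← Finset.add_sum_erase Γ _ hx, add_sub_cancel_left]
    exact Submodule.sum_mem _ fun y hy => K.fr.smul_mem_M
      (hΓ.pr_mem hx (Finset.mem_erase.1 hy).2 (Finset.mem_erase.1 hy).1) _
  refine K.red (hΓ.tri x hx) hg (fun t => ?_) fun s hsA => ?_
  · rw [hF t, add_sub_right_comm]
    exact add_mem (rest fun y => ζ y t) (K.fr.smul_mem_M
      (K.fr.pr_mem_q (Finset.mem_insert_self _ _) (hΓ.tri x hx).hj) _)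
  · have h0 : ∑ t ∈ K.A, K.fr.pr (K.A.erase t) • (dv g (K.L t) -
        ∑ y ∈ Γ, K.pr (K.A \ {i, y.1, y.2}) • α y t) ∈ K.fr.M K.Om ∅ := by
      simp only [smul_sub, Finset.sum_sub_distrib]
      rw [← K.dv_s0, ← hs, sub_self]
      exact zero_mem _
    have h1 := split (Φ := K.fr) (ob K.Q) (Finset.empty_subset _) (by simp) K.A_sub
      (Finset.disjoint_empty_left _) h0 s hsA
    have h2 := add_mem (K.fr.M_mono (Finset.insert_subset_insert s
      (Finset.empty_subset {x.1, x.2})) h1)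
      (K.fr.M_mono (Finset.subset_insert s _) (rest fun y => α y s))
    rw [sub_add_sub_cancel] at h2
    exact h2

end

end Pool.Agent.MP_1c689d_ag.K0.Al

end

section

/-! The case where the annihilator vanishes on all curves. -/

set_option autoImplicit false

open MvPolynomial

namespace Pool.Agent.MP_1c689d_ag.K0.Al

noncomputable section

variable {m c r : ℕ} (K : Ctx m c r)

theorem inter_C2 {G S : Finset Vec} (hG : GP G) (hS : S ⊆ G) (hc : S.card ≤ 2) {k k' : Vec}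
    (hk : k ∈ G) (hk' : k' ∈ G) (hne : k ≠ k') {w : Vec}
    (h1 : w ∈ Submodule.span ℂ (insert k (S : Set Vec)))
    (h2 : w ∈ Submodule.span ℂ (insert k' (S : Set Vec))) :
    w ∈ Submodule.span ℂ (S : Set Vec) := by
  rw [← Finset.coe_insert] at h1 h2
  have hc' : (insert k S ∪ insert k' S).card ≤ 4 := by
    have h3 : insert k S ∪ insert k' S ⊆ insert k (insert k' S) := by
      intro x hx
      simp only [Finset.mem_union, Finset.mem_insert] at hx ⊢
      tauto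
    have h4 := Finset.card_le_card h3
    have h5 := Finset.card_insert_le k (insert k' S)
    have h6 := Finset.card_insert_le k' S
    omega
  refine Submodule.span_mono ?_ (hG.span_inter (Finset.insert_subset hk hS)
    (Finset.insert_subset hk' hS) hc' h1 h2)
  intro x hx
  simp only [Finset.mem_coe, Finset.mem_inter, Finset.mem_insert] at hx ⊢
  rcases hx with ⟨rfl | h, h' | h'⟩
  · exact absurd h' hne
  · exact h'
  · exact h
  · exact h

theorem Ctx.uniq_C2 {f : P m} {w w' : Vec} (h : f - K.L w ∈ K.Q.I) (h' : f - K.L w' ∈ K.Q.I) :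
    w = w' := by
  refine sub_eq_zero.1 (K.L_inj ?_)
  have h1 := K.Q.I.sub_mem h' h
  rw [sub_sub_sub_cancel_left] at h1
  change Lv K.Q.yi K.e (w - w') ∈ K.Q.I
  rw [Lv_sub]
  exact h1

theorem Ctx.pair_C2 {i j k k' : Vec} (hi : i ∈ K.A) (hj : j ∈ K.A) (hk : k ∈ K.A) (hk' : k' ∈ K.A)
    (hne : k ≠ k') {f : P m}
    (h1 : ∃ w ∈ Submodule.span ℂ ({i, j, k} : Set Vec), f - K.L w ∈ K.Q.I)
    (h2 : ∃ w ∈ Submodule.span ℂ ({i, j, k'} : Set Vec), f - K.L w ∈ K.Q.I) :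
    ∃ w ∈ Submodule.span ℂ (insert j (({i} : Finset Vec) : Set Vec)), f - K.L w ∈ K.Q.I := by
  obtain ⟨w, hw, h1⟩ := h1
  obtain ⟨w', hw', h2⟩ := h2
  obtain rfl := K.uniq_C2 h1 h2
  have e : ∀ x : Vec, ({i, j, x} : Set Vec) = insert x (({j, i} : Finset Vec) : Set Vec) := by
    intro x
    ext y
    simp only [Set.mem_insert_iff, Set.mem_singleton_iff, Finset.coe_insert, Finset.coe_singleton]
    tauto
  rw [e] at hw hw'
  have h3 := inter_C2 K.fr.gp (Finset.insert_subset (K.A_sub hj)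
    (Finset.singleton_subset_iff.2 (K.A_sub hi))) Finset.card_le_two (K.A_sub hk) (K.A_sub hk')
    hne hw hw'
  rw [Finset.coe_insert] at h3
  exact ⟨w, h3, h1⟩

theorem Ctx.exists_prs_C2 {i : Vec} (hi : i ∈ K.A) {f : P m}
    (hn : ∀ t : ℂ, f - C t * K.L i ∉ K.Q.I) :
    ∃ Γ : Finset (Vec × Vec), K.A.card * K.chi + 1 ≤ Γ.card ∧ K.Prs i Γ ∧ ∀ x ∈ Γ,
      ¬ ∃ w ∈ Submodule.span ℂ ({i, x.1, x.2} : Set Vec), f - K.L w ∈ K.Q.I := by
  obtain ⟨Γ, h1, h2, h3⟩ := cnt2 K.chi_lt K.A K.big hi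
    (fun j k => ∃ w ∈ Submodule.span ℂ ({i, j, k} : Set Vec), f - K.L w ∈ K.Q.I) (by
      intro j hj k hk k' hk' j' hj' n hn1 n' hn2 _ _ hkk _ _ hnn b1 b2 b3 b4
      by_contra hne
      have hj := Finset.mem_of_mem_erase hj
      have hj' := Finset.mem_of_mem_erase hj'
      obtain ⟨w, hw, h1⟩ := K.pair_C2 hi hj (Finset.mem_of_mem_erase hk)
        (Finset.mem_of_mem_erase hk') hkk b1 b2
      obtain ⟨w', hw', h2⟩ := K.pair_C2 hi hj' (Finset.mem_of_mem_erase hn1)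
        (Finset.mem_of_mem_erase hn2) hnn b3 b4
      obtain rfl := K.uniq_C2 h1 h2
      have h3 := inter_C2 K.fr.gp (Finset.singleton_subset_iff.2 (K.A_sub hi)) (by simp)
        (K.A_sub hj) (K.A_sub hj') hne hw hw'
      rw [Finset.coe_singleton, Submodule.mem_span_singleton] at h3
      obtain ⟨t, rfl⟩ := h3
      exact hn t (Lv_smul K.Q.yi K.e t i ▸ h1))
  refine ⟨Γ, h1, ⟨fun x hx => ?_, h3⟩, fun x hx => (h2 x hx).2.2.2⟩
  obtain ⟨a1, a2, a3, -⟩ := h2 x hx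
  rw [Finset.mem_erase] at a1 a2
  exact ⟨hi, a1.2, a2.2, a1.1.symm, a2.1.symm, a3⟩

theorem Ctx.good_C2 {i j k : Vec} (ht : K.Tri i j k) {b : Vec → P m} (hb : b i ∈ hz m K.e)
    (h : ¬ ∃ w ∈ Submodule.span ℂ ({i, j, k} : Set Vec), b i - K.L w ∈ K.Q.I) :
    ∃ (x : P m) (v : K.Om), K.pr (K.A \ {i, j, k}) • x • v ∈ K.Q.og K.ν ∧
      ¬ K.HasLift (3 * K.e + 2) i j k (fun _ => 0) fun s => x • b s • v := by
  obtain ⟨l, hl⟩ := not_forall.1 fun h' => h (K.fin2 ht hb h')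
  have he := K.e4
  have e1 : (3 * K.e + 2 : ℤ) - (3 * K.e - 4 : ℕ) = 6 := by omega
  rw [← e1] at hl
  obtain ⟨x, hx⟩ := not_forall.1 fun h' => hl (K.desc ht h')
  rw [Classical.not_imp] at hx
  refine ⟨rename K.Q.yi x, K.T.κ l, ?_, by simpa only [Pi.zero_apply, smul_zero] using hx.2⟩
  have h1 := K.Q.og_smul (K.fr.pr_hz (K.A \ {i, j, k}))
    (K.Q.og_smul (hz_rename K.Q.yi hx.1) (K.T.κ_deg l))
  have h2 : ({i, j, k} : Finset Vec) ⊆ K.A :=
    Finset.insert_subset ht.hi (Finset.insert_subset ht.hj (Finset.singleton_subset_iff.2 ht.hk))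
  have h3 := Finset.card_sdiff_add_card_eq_card h2
  rw [Finset.card_eq_three.2 ⟨i, j, k, ht.ij, ht.ik, ht.jk, rfl⟩] at h3
  have e2 : ((K.A \ {i, j, k}).card : ℤ) * K.e + (((3 * K.e - 4 : ℕ) : ℤ) + (3 + 1 : ℕ)) =
      K.ν := by
    rw [Ctx.ν, ← h3, Nat.cast_sub (by omega)]
    push_cast
    ring
  rw [← e2]
  exact h1

theorem Ctx.mem_p_C2 {b0 : P m} {b : Vec → P m}
    (he : b0 - ∑ s ∈ K.A, K.pr (K.A.erase s) * b s ∈ K.Q.I) {a a' : Vec} (ha : a ∈ K.A)
    (ha' : a' ∈ K.A) (hne : a ≠ a') : b0 ∈ K.p {a, a'} := by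
  rw [← sub_add_cancel b0 (∑ s ∈ K.A, K.pr (K.A.erase s) * b s)]
  refine Submodule.add_mem_sup he (Submodule.sum_mem _ fun s _ => Ideal.mul_mem_right _ _ ?_)
  by_cases hs : a = s
  · exact K.fr.pr_mem_q (a := a') (by simp) (Finset.mem_erase.2 ⟨hs ▸ hne.symm, ha'⟩)
  · exact K.fr.pr_mem_q (a := a) (by simp) (Finset.mem_erase.2 ⟨hs, ha⟩)

theorem Ctx.rank2 {i : Vec} (hi : i ∈ K.A) {b0 : P m} {b : Vec → P m} (hb : ∀ s, b s ∈ hz m K.e)
    (he : b0 - ∑ s ∈ K.A, K.pr (K.A.erase s) * b s ∈ K.Q.I)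
    (hn : ∀ t : ℂ, b i - C t * K.L i ∉ K.Q.I) :
    Module.finrank ℂ ↥((K.Q.og K.ν).prod (⊤ : Submodule ℂ ℂ) ⊓ K.Jp.comap ((mm K.Q).flip b0)) +
      (K.A.card * K.chi + 1) ≤ Module.finrank ℂ (K.Q.og K.ν) + 1 := by
  obtain ⟨Γ, hc, hΓ, hbad⟩ := K.exists_prs_C2 hi hn
  choose! x v hdeg hno using fun y (hy : y ∈ Γ) => K.good_C2 (hΓ.tri y hy) (hb i) (hbad y hy)
  obtain ⟨hfin, hrk⟩ := finrank_prod_top (K.Q.og K.ν)
  have h4 := la4 ((K.Q.og K.ν).prod (⊤ : Submodule ℂ ℂ))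
    ((K.Q.og K.ν).prod (⊤ : Submodule ℂ ℂ) ⊓ K.Jp.comap ((mm K.Q).flip b0)) inf_le_left Γ
    (fun y => (K.pr (K.A \ {i, y.1, y.2}) • x y • v y, 0)) (fun y hy => ⟨hdeg y hy, trivial⟩) ?_
  · omega
  intro t ht y hy
  have e : (mm K.Q).flip b0 (∑ y ∈ Γ, t y • (K.pr (K.A \ {i, y.1, y.2}) • x y • v y, (0 : ℂ))) =
      (b0 • ∑ y ∈ Γ, t y • K.pr (K.A \ {i, y.1, y.2}) • x y • v y, 0) := by
    rw [LinearMap.flip_apply, mm_apply, Prod.fst_sum, Prod.snd_sum]
    simp only [Prod.smul_mk, smul_zero, Finset.sum_const_zero, zero_smul]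
  have h1 := Submodule.mem_comap.1 ht.2
  rw [e] at h1
  obtain ⟨g, ρ, hg, hF, hs⟩ := K.j0_of_mem h1 fun a ha a' ha' hne =>
    K.smul_mem_M (K.mem_p_C2 he ha ha' hne) _
  by_contra h0
  refine hno y hy (Ctx.HasLift.csmul h0 ?_)
  refine K.test hΓ hg (ζ := fun y _ => t y • (0 : K.Om))
    (α := fun y s => t y • x y • b s • v y) (ρ := ρ) (fun j => ?_) ?_ hy
  · rw [hF, zero_smul]
    simp only [smul_zero, Finset.sum_const_zero]
  · rw [← hs, K.smul_congr he, Finset.sum_smul]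
    refine Finset.sum_congr rfl fun s _ => ?_
    rw [mul_smul, Finset.smul_sum]
    refine congrArg _ (Finset.sum_congr rfl fun y _ => ?_)
    rw [smul_comm (b s) (t y), smul_comm (K.pr _) (t y), smul_comm (b s) (K.pr _),
      smul_comm (b s) (x y)]

theorem Ctx.s0_hz_C2 : K.s0 ∈ hz m K.ν := by
  have h := K.fr.pr_hz K.A
  rw [Ctx.ν, Nat.cast_mul]
  exact h

theorem Ctx.small_C2 {Y : Submodule ℂ (P m)} (hY : Y ≤ hz m K.ν)
    (h : ∀ x ∈ Y, ∃ t : ℂ, x - C t * K.s0 ∈ K.Q.I) : Module.finrank ℂ Y ≤ K.dI + 1 := by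
  have h1 : Y ≤ (hz m K.ν ⊓ K.Q.I.restrictScalars ℂ) ⊔ Submodule.span ℂ {K.s0} := by
    intro x hx
    obtain ⟨t, ht⟩ := h x hx
    rw [← smul_eq_C_mul] at ht
    rw [← sub_add_cancel x (t • K.s0)]
    exact Submodule.add_mem_sup ⟨sub_mem (hY hx) (Submodule.smul_mem _ t K.s0_hz_C2), ht⟩
      (Submodule.smul_mem _ t (Submodule.mem_span_singleton_self _))
  have h2 := Submodule.finrank_add_le_finrank_add_finrank
    (hz m K.ν ⊓ K.Q.I.restrictScalars ℂ) (Submodule.span ℂ {K.s0})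
  have h3 : Module.finrank ℂ (Submodule.span ℂ {K.s0}) ≤ 1 := by
    simpa using finrank_span_le_card (R := ℂ) ({K.s0} : Set (P m))
  exact (Submodule.finrank_mono h1).trans (h2.trans (Nat.add_le_add_left h3 _))

theorem Ctx.exists_i_C2 {b0 : P m} {b : Vec → P m}
    (he : b0 - ∑ s ∈ K.A, K.pr (K.A.erase s) * b s ∈ K.Q.I)
    (hn : ∀ t : ℂ, b0 - C t * K.s0 ∉ K.Q.I) : ∃ i ∈ K.A, ∀ t : ℂ, b i - C t * K.L i ∉ K.Q.I := by
  by_contra h
  push Not at h
  choose! t ht using h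
  refine hn (∑ s ∈ K.A, t s) ?_
  have e : b0 - C (∑ s ∈ K.A, t s) * K.s0 = (b0 - ∑ s ∈ K.A, K.pr (K.A.erase s) * b s) +
      ∑ s ∈ K.A, K.pr (K.A.erase s) * (b s - C (t s) * K.L s) := by
    rw [map_sum, Finset.sum_mul, sub_add, ← Finset.sum_sub_distrib]
    refine congrArg _ (Finset.sum_congr rfl fun s hs => ?_)
    rw [show K.s0 = K.L s * K.pr (K.A.erase s) from K.fr.pr_erase hs]
    ring
  rw [e]
  exact add_mem he (Submodule.sum_mem _ fun s hs => Ideal.mul_mem_left _ _ (ht s hs))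

/-- The forms of degree `ν` that vanish on all the curves. -/
def Ctx.all_C2 : Submodule ℂ (P m) where
  carrier := {x | x ∈ hz m K.ν ∧ ∀ a ∈ K.A, ∀ a' ∈ K.A, a ≠ a' → x ∈ K.p {a, a'}}
  add_mem' := fun hx hy => ⟨add_mem hx.1 hy.1, fun a ha a' ha' h =>
    add_mem (hx.2 a ha a' ha' h) (hy.2 a ha a' ha' h)⟩
  zero_mem' := ⟨zero_mem _, fun _ _ _ _ _ => zero_mem _⟩
  smul_mem' := fun t x hx => ⟨Submodule.smul_mem _ t hx.1, fun a ha a' ha' h => by
    rw [smul_eq_C_mul]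
    exact Ideal.mul_mem_left _ _ (hx.2 a ha a' ha' h)⟩

theorem Ctx.all_le_C2 : Module.finrank ℂ K.all_C2 ≤ K.dI + 1 + K.A.card * K.chi := by
  have h := K.filP (fun _ _ => True) K.A.nodup_toList K.A.toList_toFinset K.all_C2
    fun f hf => ⟨hf.1, fun a ha a' ha' h _ => hf.2 a ha a' ha' h⟩
  rwa [fil_all, Finset.length_toList] at h

theorem Ctx.DD.tan_C2 {K : Ctx m c r} (D : K.DD) {u : K.Om × ℂ} {b0 : P m}
    (h0 : b0 ∈ K.all_C2) (hJ : mm K.Q u b0 ∈ K.Jp) :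
    ∀ v ∈ D.Tan u, ∃ a ∈ K.all_C2, (mm K.Q).flip b0 v + mm K.Q u a ∈ K.Jp := by
  have h1 : D.Tan u ≤ (K.all_C2.map (mm K.Q u) ⊔ K.Jp).comap ((mm K.Q).flip b0) := by
    refine sup_le (Submodule.span_le.2 ?_) (Submodule.span_le.2 ?_)
    · rintro _ ⟨δ, hδ, rfl⟩
      obtain ⟨g, ξ, ρ, ru, hs⟩ := K.mem_Jp.1 hJ
      have h2 : (D.D.act δ (b0 • u.1), dP δ (u.2 • b0)) ∈ K.Jp :=
        K.mem_Jp.2 ⟨_, _, _, _, D.sol hδ hs⟩
      have h3 : dP δ b0 ∈ K.all_C2 := ⟨dP_hz δ h0.1, fun a ha a' ha' h => D.p hδ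
        (Finset.insert_subset (K.A_sub ha) (Finset.singleton_subset_iff.2 (K.A_sub ha')))
        (h0.2 a ha a' ha' h)⟩
      have e : (mm K.Q).flip b0 (D.D.act δ u.1, δ u.2) =
          -mm K.Q u (dP δ b0) + (D.D.act δ (b0 • u.1), dP δ (u.2 • b0)) := by
        rw [LinearMap.flip_apply, mm_apply, mm_apply, D.leib δ hδ, dP_smul]
        refine Prod.ext ?_ ?_
        · simp only [Prod.fst_add, Prod.fst_neg]
          abel
        · simp only [Prod.snd_add, Prod.snd_neg]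
          abel
      rw [SetLike.mem_coe, Submodule.mem_comap, e]
      exact Submodule.add_mem_sup (neg_mem (Submodule.mem_map_of_mem h3)) h2
    · rintro _ rfl
      exact Submodule.mem_sup_right hJ
  intro v hv
  obtain ⟨_, ⟨a, ha, rfl⟩, y, hy, he⟩ := Submodule.mem_sup.1 (h1 hv)
  refine ⟨-a, neg_mem ha, ?_⟩
  rw [← he, map_neg, add_neg_cancel_comm]
  exact hy

theorem Ctx.DD.case2 {K : Ctx m c r} (D : K.DD) {u : K.Om × ℂ} (hu : u.1 ∈ K.Q.og K.ν)
    (h : ∀ a ∈ K.A, ∀ a' ∈ K.A, a ≠ a' → ∀ x ∈ K.Ann u, x ∈ K.p {a, a'}) :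
    Module.finrank ℂ (D.Tan u) + Module.finrank ℂ (K.Ann u) ≤ Module.finrank ℂ (hz m K.ν) := by
  obtain ⟨hfin, hrk⟩ := finrank_prod_top (K.Q.og K.ν)
  rw [K.finrank_hz_nu, finrank_gr_og K.Q K.num K.nu_pos]
  by_cases hA : ∀ x ∈ K.Ann u, ∃ t : ℂ, x - C t * K.s0 ∈ K.Q.I
  · have h1 : Module.finrank ℂ (K.Ann u) ≤ K.dI + 1 := K.small_C2 inf_le_left hA
    have h2 : Module.finrank ℂ (D.Tan u) ≤ Module.finrank ℂ (K.Q.og K.ν) + 1 :=
      (Submodule.finrank_mono (D.Tan_le hu)).trans hrk.le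
    omega
  · push Not at hA
    obtain ⟨b0, h0, hn⟩ := hA
    have hle : K.Ann u ≤ K.all_C2 := fun x hx => ⟨hx.1, fun a ha a' ha' hne => h a ha a' ha' hne x hx⟩
    obtain ⟨b, hb, he⟩ := K.starP h0.1 (hle h0).2
    obtain ⟨i, hi, hn'⟩ := K.exists_i_C2 he hn
    have h1 := K.rank2 hi hb he hn'
    have h2 := K.all_le_C2
    have _ : FiniteDimensional ℂ K.all_C2 :=
      Submodule.finiteDimensional_of_le (S₂ := hz m K.ν) fun _ hx => hx.1
    have h3 : Module.finrank ℂ (D.Tan u) + Module.finrank ℂ (K.Ann u) ≤ Module.finrank ℂ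
        ↥((K.Q.og K.ν).prod (⊤ : Submodule ℂ ℂ) ⊓ K.Jp.comap ((mm K.Q).flip b0)) +
        Module.finrank ℂ K.all_C2 := la3 ((mm K.Q).flip b0) (mm K.Q u) K.Jp (D.Tan u) _ (K.Ann u) K.all_C2
      (D.Tan_le hu) hle (fun a ha => ha.2) (D.tan_C2 (hle h0) h0.2)
    omega

end

end Pool.Agent.MP_1c689d_ag.K0.Al

end

section

/-! A lift of degree two vanishes. -/

set_option autoImplicit false

open MvPolynomial

namespace Pool.Agent.MP_1c689d_ag.K0.Al

noncomputable section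

variable {m c r : ℕ} (K : Ctx m c r)

theorem Ctx.fin3 {i j k : Vec} (ht : K.Tri i j k) {t : ℂ} {α : Vec → K.Om}
    (hα : α i ∈ K.Q.og K.e) (h : K.HasLift 2 i j k (fun x => t • K.z x) α) : t = 0 ∧ α i = 0 := by
  classical
  obtain ⟨ψ, hψ, hL⟩ := h
  have e4 := K.e4
  have hX : ∀ (l : Fin m) {d : ℤ} {w : K.Om}, w ∈ K.Q.og d → (X l : P m) • w ∈ K.Q.og (1 + d) :=
    fun l d w hw => by
      rw [← ob_gr] at hw ⊢
      exact (ob K.Q).smul_mem (hz_X l) hw
  have hcl : ∀ a b l, cl3 ψ a b l = 0 := fun a b l =>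
    K.lowO (j := 1 + 2) (by omega)
      (add_mem (sub_mem (hX a (hψ b l)) (hX b (hψ a l))) (hX l (hψ a b))) (hL.clo a b l)
  obtain ⟨g, hg, hψg⟩ := kos2_gr (Φ := K.fr) (ob K.Q) (S := ∅) (K.ok (Finset.empty_subset _))
    (by simp) (j := 1) (ψ := ψ) (fun a l => by rw [ob_gr]; exact hψ a l)
    fun a b l => by rw [hcl]; exact zero_mem _
  simp only [ob_gr] at hg
  obtain rfl : ψ = wg g := by
    funext a l
    have h1 := hψg a l
    rw [Fr.M_empty, Submodule.mem_bot] at h1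
    exact sub_eq_zero.1 h1
  have hjk : K.fr.Ok {j, k} := K.ok fun x hx => Finset.mem_union_left _ (by
    rcases Finset.mem_insert.1 hx with rfl | hx
    · exact ht.hj
    · rw [Finset.mem_singleton.1 hx]
      exact ht.hk)
  have hijk : K.fr.Ok {i, j, k} := K.ok fun x hx => Finset.mem_union_left _ (by
    rcases Finset.mem_insert.1 hx with rfl | hx
    · exact ht.hi
    rcases Finset.mem_insert.1 hx with rfl | hx
    · exact ht.hj
    · rw [Finset.mem_singleton.1 hx]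
      exact ht.hk)
  have hF : ∀ x, dv g (K.Q.F x) = t • K.z x := fun x => by
    have h1 : dv g (K.Q.F x) - t • K.z x ∈ K.M {j, k} := by
      refine kos0_gp (Φ := K.fr) (ob K.Q) hjk (Finset.card_le_two.trans (by norm_num)) fun l => ?_
      have h2 := hL.F x l
      have h3 : (((K.Q.dF x : P m) * K.Q.F x) • g l : K.Om) = 0 := by
        rw [K.smul_congr (h' := 0) (by
          rw [sub_zero]
          exact Ideal.mul_mem_left _ _ (Ideal.subset_span ⟨x, rfl⟩)), zero_smul]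
      rwa [dv_wg (K.Q.Fh x), h3, sub_zero, ← smul_sub] at h2
    have h4 := dv_mem_og K.Q hg (mem_hz_nat.2 (K.Q.Fh x))
    rw [add_sub_cancel_right] at h4
    have h5 := K.eF x
    exact sub_eq_zero.1 (K.lowO (j := K.Q.dF x) (by omega)
      (sub_mem h4 (Submodule.smul_mem _ t (K.zdeg x))) h1)
  obtain rfl : t = 0 := by
    by_contra h0
    exact K.znz ⟨fun l => t⁻¹ • g l, fun l => Submodule.smul_mem _ _ (hg l), fun x => by
      rw [dv_csmul_left, hF, smul_smul, inv_mul_cancel₀ h0, one_smul]⟩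
  obtain rfl : g = 0 := K.h2 g hg fun x => by rw [hF, zero_smul]
  refine ⟨rfl, K.lowO le_rfl hα
    (kos0_gp (Φ := K.fr) (ob K.Q) hijk Finset.card_le_three fun l => ?_)⟩
  have h1 := hL.li l
  simp only [wg, Pi.zero_apply, smul_zero, sub_zero, dv_zero_left, zero_sub] at h1
  exact neg_mem_iff.1 h1

end

end Pool.Agent.MP_1c689d_ag.K0.Al

end

section

/-! The case where the section vanishes on all curves. -/

set_option autoImplicit false

open MvPolynomial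

namespace Pool.Agent.MP_1c689d_ag.K0.Al

noncomputable section

variable {m c r : ℕ} (K : Ctx m c r)

theorem tan_C3 {K : Ctx m c r} (D : K.DD) {u : K.Om × ℂ} (hu : u.1 ∈ K.Q.og K.ν)
    (h : ∀ a ∈ K.A, ∀ a' ∈ K.A, a ≠ a' → u.1 ∈ K.M {a, a'}) :
    Module.finrank ℂ (D.Tan u) ≤ K.A.card * K.chi + 1 := by
  have h1 : (D.Tan u).map (LinearMap.fst ℂ K.Om ℂ) ≤ K.Q.og K.ν := by
    rintro _ ⟨y, hy, rfl⟩
    exact (D.Tan_le hu hy).1
  have : FiniteDimensional ℂ ((D.Tan u).map (LinearMap.fst ℂ K.Om ℂ)) :=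
    Submodule.finiteDimensional_of_le h1
  have h2 := (la6 (D.Tan u) ((D.Tan u).map (LinearMap.fst ℂ K.Om ℂ))
    fun y hy => Submodule.mem_map_of_mem hy).2
  have h3 := K.filO (fun _ _ => True) K.A.nodup_toList K.A.toList_toFinset
    ((D.Tan u).map (LinearMap.fst ℂ K.Om ℂ)) fun w hw => ⟨h1 hw, fun a ha a' ha' hne _ => by
      have h4 : D.Tan u ≤ ((K.M {a, a'}).restrictScalars ℂ).comap (LinearMap.fst ℂ K.Om ℂ) := by
        refine sup_le (Submodule.span_le.2 ?_) (Submodule.span_le.2 ?_)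
        · rintro _ ⟨δ, hδ, rfl⟩
          refine D.M hδ (fun s hs => K.A_sub ?_) (h a ha a' ha' hne)
          rcases Finset.mem_insert.1 hs with rfl | hs
          · exact ha
          · rw [Finset.mem_singleton.1 hs]
            exact ha'
        · rintro _ rfl
          exact h a ha a' ha' hne
      exact Submodule.map_le_iff_le_comap.2 h4 hw⟩
  rw [fil_all, Finset.length_toList] at h3
  omega

theorem deg_C3 {i j k : Vec} (ht : K.Tri i j k) {x : P 4} (hx : x ∈ hz 4 (3 * K.e : ℕ)) :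
    K.pr (K.A \ {i, j, k}) * rename K.Q.yi x ∈ hz m K.ν := by
  have h1 : ({i, j, k} : Finset Vec) ⊆ K.A := by
    intro s hs
    simp only [Finset.mem_insert, Finset.mem_singleton] at hs
    rcases hs with rfl | rfl | rfl
    exacts [ht.hi, ht.hj, ht.hk]
  have h2 := Finset.card_sdiff_add_card_eq_card h1
  rw [Finset.card_eq_three.2 ⟨i, j, k, ht.ij, ht.ik, ht.jk, rfl⟩] at h2
  have h3 := hz_mul (K.fr.pr_hz (K.A \ {i, j, k})) (hz_rename K.Q.yi hx)
  have h4 : ((K.ν : ℕ) : ℤ) = (K.A \ {i, j, k}).card * (K.fr.e : ℤ) + (3 * K.e : ℕ) := by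
    change ((K.A.card * K.e : ℕ) : ℤ) = _ * (K.e : ℤ) + _
    rw [← h2]
    push_cast
    ring
  rw [h4]
  exact h3

theorem Ctx.DD.case3 {K : Ctx m c r} (D : K.DD) {u : K.Om × ℂ} (hu : u.1 ∈ K.Q.og K.ν)
    (hne : u ≠ 0) (h : ∀ a ∈ K.A, ∀ a' ∈ K.A, a ≠ a' → u.1 ∈ K.M {a, a'}) :
    Module.finrank ℂ (D.Tan u) + Module.finrank ℂ (K.Ann u) ≤ Module.finrank ℂ (hz m K.ν) := by
  obtain ⟨a, ha, hu1⟩ := K.starO hu h
  obtain ⟨i, hi, hne'⟩ : ∃ i ∈ K.A, ¬(u.2 = 0 ∧ a i = 0) := by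
    by_contra hc
    have hc' : ∀ i ∈ K.A, u.2 = 0 ∧ a i = 0 := fun i hi => by_contra fun h0 => hc ⟨i, hi, h0⟩
    obtain ⟨i, hi⟩ := Finset.card_pos.1 (lt_of_lt_of_le (by norm_num) K.card_ge)
    refine hne (Prod.ext ?_ (hc' i hi).1)
    rw [hu1]
    exact Finset.sum_eq_zero fun s hs => by rw [(hc' s hs).2, smul_zero]
  obtain ⟨Γ, hΓ1, hΓ2, hΓ3⟩ := cnt2 K.chi_lt K.A K.big hi (fun _ _ => False)
    fun _ _ _ _ _ _ _ _ _ _ _ _ _ _ _ _ _ _ hf => hf.elim
  have hΓ : K.Prs i Γ := ⟨fun y hy =>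
    ⟨hi, Finset.mem_of_mem_erase (hΓ2 y hy).1, Finset.mem_of_mem_erase (hΓ2 y hy).2.1,
      (Finset.ne_of_mem_erase (hΓ2 y hy).1).symm, (Finset.ne_of_mem_erase (hΓ2 y hy).2.1).symm,
      (hΓ2 y hy).2.2.1⟩, hΓ3⟩
  have hx : ∀ y ∈ Γ, ∃ x ∈ hz 4 (3 * K.e : ℕ), ¬K.HasLift (3 * K.e + 2) i y.1 y.2
      (fun t => (rename K.Q.yi x : P m) • u.2 • K.z t) fun s => (rename K.Q.yi x : P m) • a s := by
    intro y hy
    by_contra hc
    have h1 := K.desc (hΓ.tri y hy) (ζ := fun t => u.2 • K.z t) (α := a) (N := 3 * K.e)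
      fun x hx => by_contra fun h0 => hc ⟨x, hx, h0⟩
    rw [show (3 * K.e + 2 - (3 * K.e : ℕ) : ℤ) = 2 by push_cast; ring] at h1
    exact hne' (K.fin3 (hΓ.tri y hy) (ha i) h1)
  choose! x hx1 hx2 using hx
  have h4 := la4 (hz m K.ν) (K.Ann u) inf_le_left Γ
    (fun y => K.pr (K.A \ {i, y.1, y.2}) * rename K.Q.yi (x y))
    (fun y hy => deg_C3 K (hΓ.tri y hy) (hx1 y hy)) fun t ht y hy => by
      have hb : ∀ v : K.Om, (∑ y ∈ Γ, t y • (K.pr (K.A \ {i, y.1, y.2}) * rename K.Q.yi (x y))) • v =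
          ∑ y ∈ Γ, K.pr (K.A \ {i, y.1, y.2}) • t y • (rename K.Q.yi (x y) : P m) • v := fun v => by
        rw [Finset.sum_smul]
        exact Finset.sum_congr rfl fun y _ => by rw [smul_assoc, mul_smul, smul_comm]
      obtain ⟨g, ρ, g1, g2, g3⟩ := K.j0_of_mem ht.2 fun s hs s' hs' hn =>
        Submodule.smul_mem _ _ (h s hs s' hs' hn)
      by_contra h0
      refine hx2 y hy (Ctx.HasLift.csmul h0 (K.test hΓ g1 (ρ := ρ)
        (ζ := fun y j => t y • (rename K.Q.yi (x y) : P m) • u.2 • K.z j)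
        (α := fun y s => t y • (rename K.Q.yi (x y) : P m) • a s) (fun j => ?_) ?_ hy))
      · rw [g2 j, ← hb, smul_assoc, smul_comm]
      · rw [← g3, hu1, Finset.smul_sum]
        exact Finset.sum_congr rfl fun s _ => by rw [← hb, smul_comm]
  have h5 := tan_C3 D hu h
  omega

end

end Pool.Agent.MP_1c689d_ag.K0.Al

end

section

/-! A generic functional is non-degenerate. -/

set_option autoImplicit false

open MvPolynomial

namespace Pool.Agent.MP_1c689d_ag.K0.Al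

noncomputable section

theorem sep_Sym {V : Type} [AddCommGroup V] [Module ℂ V] (J V1 : Submodule ℂ V)
    [FiniteDimensional ℂ V1] : ∃ (N : ℕ) (Ψ : V →ₗ[ℂ] (Fin N → ℂ)), (∀ y ∈ J, Ψ y = 0) ∧
      ∀ y ∈ V1, Ψ y = 0 → y ∈ J := by
  obtain ⟨g, hg⟩ := LinearMap.exists_extend
    (Module.finBasis ℂ (V1.map J.mkQ)).equivFun.toLinearMap
  refine ⟨_, g.comp J.mkQ, fun y hy => ?_, fun y hy h0 => ?_⟩
  · rw [LinearMap.comp_apply, Submodule.mkQ_apply, (Submodule.Quotient.mk_eq_zero J).2 hy,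
      map_zero]
  · have h1 := LinearMap.congr_fun hg ⟨J.mkQ y, Submodule.mem_map_of_mem hy⟩
    have h2 : (Module.finBasis ℂ (V1.map J.mkQ)).equivFun
        ⟨J.mkQ y, Submodule.mem_map_of_mem hy⟩ = 0 := h1.symm.trans h0
    have h3 := congrArg Subtype.val ((LinearEquiv.map_eq_zero_iff _).1 h2)
    exact (Submodule.Quotient.mk_eq_zero J).1 h3

theorem der_Sym {V : Type} [AddCommGroup V] [Module ℂ V] (D : DM V) (δ : Der) (ψ : V →ₗ[ℂ] ℂ)
    (s : Set V) (h1 : ∀ y ∈ s, D.act δ y = 0) (h2 : ∀ y ∈ s, δ (ψ y) = 0) :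
    ∀ y ∈ Submodule.span ℂ s, δ (ψ y) = ψ (D.act δ y) := by
  intro y hy
  induction hy using Submodule.span_induction with
  | mem y hy => rw [h1 y hy, h2 y hy, map_zero]
  | zero => simp
  | add y z _ _ hy hz => simp only [map_add, hy, hz]
  | smul t y _ hy =>
    rw [D.smul, map_add, ψ.map_smul, ψ.map_smul, ψ.map_smul, smul_eq_mul, Derivation.leibniz, hy]
    simp only [smul_eq_mul]
    ring

theorem rank_Sym {U W Z : Type} [AddCommGroup U] [Module ℂ U] [AddCommGroup W] [Module ℂ W]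
    [AddCommGroup Z] [Module ℂ Z] [FiniteDimensional ℂ W] (T : Submodule ℂ U)
    [FiniteDimensional ℂ T] (ρ : U →ₗ[ℂ] Module.Dual ℂ W) (l : W →ₗ[ℂ] Z) (u : U) (hu : u ∈ T)
    (h0 : ρ u = 0) (h1 : LinearMap.range l.dualMap ≤ T.map ρ)
    (h2 : Module.finrank ℂ T + Module.finrank ℂ (LinearMap.ker l) ≤ Module.finrank ℂ W) :
    u = 0 := by
  have a1 := l.finrank_range_add_finrank_ker
  have a2 := l.finrank_range_dualMap_eq_finrank_range
  have a3 := Submodule.finrank_mono h1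
  have a4 := (ρ.domRestrict T).finrank_range_add_finrank_ker
  rw [LinearMap.range_domRestrict] at a4
  have a5 : LinearMap.ker (ρ.domRestrict T) = ⊥ := Submodule.finrank_eq_zero.1 (by omega)
  have a6 : (⟨u, hu⟩ : T) ∈ LinearMap.ker (ρ.domRestrict T) := h0
  rw [a5, Submodule.mem_bot] at a6
  exact congrArg Subtype.val a6

theorem sym {U W V : Type} [AddCommGroup U] [Module ℂ U] [AddCommGroup W] [Module ℂ W]
    [AddCommGroup V] [Module ℂ V] (μ : U →ₗ[ℂ] W →ₗ[ℂ] V) (U0 : Submodule ℂ U)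
    (W0 : Submodule ℂ W) [FiniteDimensional ℂ U0] [FiniteDimensional ℂ W0] (J : Submodule ℂ V)
    (D : DM V) (aU : Der → U → U) (S0 : Finset ℂ) (T : U → Submodule ℂ U)
    (hT : ∀ u ∈ U0, T u ≤ U0 ∧ u ∈ T u ∧ ∀ δ, Kills S0 δ → aU δ u ∈ T u)
    (hc : ∀ b, ∃ S : Finset ℂ, ∀ δ, Kills S δ → ∀ u, D.act δ (μ u b) = μ (aU δ u) b)
    (h : ∀ u ∈ U0, u ≠ 0 → Module.finrank ℂ (T u) + Module.finrank ℂ ↥(W0 ⊓ J.comap (μ u)) ≤
      Module.finrank ℂ W0) :
    ∃ φ : V →ₗ[ℂ] ℂ, (∀ y ∈ J, φ y = 0) ∧ ∀ u ∈ U0, (∀ b ∈ W0, φ (μ u b) = 0) → u = 0 := by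
  classical
  let bu := Module.finBasis ℂ U0
  let bw := Module.finBasis ℂ W0
  let y : Fin (Module.finrank ℂ U0) × Fin (Module.finrank ℂ W0) → V := fun k =>
    μ (bu k.1) (bw k.2)
  have hfin : FiniteDimensional ℂ (Submodule.span ℂ (Set.range y)) :=
    FiniteDimensional.span_of_finite ℂ (Set.finite_range y)
  have hV1 : ∀ u ∈ U0, ∀ b : W0, μ u b ∈ Submodule.span ℂ (Set.range y) := by
    intro u hu b
    have e1 := congrArg Subtype.val (bu.sum_repr ⟨u, hu⟩)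
    have e2 := congrArg Subtype.val (bw.sum_repr b)
    simp only [Submodule.coe_sum, Submodule.coe_smul] at e1 e2
    rw [← e1, ← e2]
    simp only [map_sum, map_smul, LinearMap.sum_apply, LinearMap.smul_apply]
    exact Submodule.sum_mem _ fun j _ => Submodule.smul_mem _ _ (Submodule.sum_mem _ fun i _ =>
      Submodule.smul_mem _ _ (Submodule.subset_span ⟨(i, j), rfl⟩))
  obtain ⟨N, Ψ, hΨ1, hΨ2⟩ := sep_Sym J (Submodule.span ℂ (Set.range y))
  choose S1 hS1 using hc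
  choose S2 hS2 using D.fin
  obtain ⟨t, ht⟩ := gen (S0 ∪ (Finset.univ.biUnion fun j => S1 (bw j)) ∪
    (Finset.univ.biUnion fun k => S2 (y k)) ∪
    (Finset.univ.biUnion fun k => Finset.univ.image (Ψ (y k)))) (Fin N)
  let φ : V →ₗ[ℂ] ℂ := ∑ i, t i • (LinearMap.proj i).comp Ψ
  have hφ : ∀ x, φ x = ∑ i, t i * Ψ x i := fun x => by
    simp only [φ, LinearMap.sum_apply, LinearMap.smul_apply, LinearMap.comp_apply,
      LinearMap.proj_apply, smul_eq_mul]
  refine ⟨φ, fun x hx => by simp [hφ, hΨ1 x hx], fun u hu h0 => ?_⟩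
  by_contra hne
  obtain ⟨hT1, hT2, hT3⟩ := hT u hu
  have := Submodule.finiteDimensional_of_le hT1
  refine hne (rank_Sym (T u) ((μ.compr₂ φ).compl₂ W0.subtype) (Ψ.comp ((μ u).comp W0.subtype))
    u hT2 (LinearMap.ext fun b => h0 b b.2) ?_ (le_trans (Nat.add_le_add_left ?_ _) (h u hu hne)))
  · rintro _ ⟨f, rfl⟩
    obtain ⟨δ, hδ, hv⟩ := ht fun i => f (Pi.single i 1)
    have k0 : Kills S0 δ := fun s hs => hδ s (by simp [hs])
    have k1 : ∀ j, Kills (S1 (bw j)) δ := fun j s hs => hδ s (Finset.mem_union_left _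
      (Finset.mem_union_left _ (Finset.mem_union_right _
        (Finset.mem_biUnion.2 ⟨j, Finset.mem_univ _, hs⟩))))
    have k2 : ∀ k, Kills (S2 (y k)) δ := fun k s hs => hδ s (Finset.mem_union_left _
      (Finset.mem_union_right _ (Finset.mem_biUnion.2 ⟨k, Finset.mem_univ _, hs⟩)))
    have k3 : ∀ k i, δ (Ψ (y k) i) = 0 := fun k i => hδ _ (Finset.mem_union_right _
      (Finset.mem_biUnion.2 ⟨k, Finset.mem_univ _,
        Finset.mem_image_of_mem _ (Finset.mem_univ i)⟩))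
    refine ⟨-aU δ u, (T u).neg_mem (hT3 δ k0), bw.ext fun j => ?_⟩
    have e1 : ∀ i, δ (Ψ (μ u (bw j)) i) = Ψ (μ (aU δ u) (bw j)) i := fun i => by
      rw [← hS1 _ δ (k1 j)]
      exact der_Sym D δ ((LinearMap.proj i).comp Ψ) (Set.range y)
        (by rintro _ ⟨k, rfl⟩; exact hS2 _ δ (k2 k)) (by rintro _ ⟨k, rfl⟩; exact k3 k i) _
        (hV1 u hu (bw j))
    have e2 := congrArg δ (h0 (bw j) (bw j).2)
    rw [hφ, map_sum, map_zero] at e2
    simp only [Derivation.leibniz, e1, hv, smul_eq_mul, Finset.sum_add_distrib] at e2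
    change φ (μ (-aU δ u) (bw j)) = f (Ψ (μ u (bw j)))
    rw [map_neg, LinearMap.neg_apply, map_neg, hφ, LinearMap.pi_apply_eq_sum_univ f,
      neg_eq_iff_add_eq_zero]
    refine Eq.trans (congrArg _ (Finset.sum_congr rfl fun i _ => ?_)) e2
    have e3 : (fun k => if i = k then (1 : ℂ) else 0) = Pi.single i 1 := by
      funext k
      simp only [Pi.single_apply, eq_comm]
    rw [smul_eq_mul, e3]
  · rw [← Submodule.finrank_map_subtype_eq W0]
    refine Submodule.finrank_mono ?_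
    rintro _ ⟨b, hb, rfl⟩
    exact ⟨b.2, hΨ2 _ (hV1 u hu b) hb⟩

end

end Pool.Agent.MP_1c689d_ag.K0.Al

end

section

/-! From the limit space to a good surface. -/

set_option autoImplicit false

open MvPolynomial

namespace Pool.Agent.MP_1c689d_ag.K0.Al

noncomputable section

variable {m c r : ℕ} (K : Ctx m c r)

/-- The value of a derivation on a fixed polynomial, as a linear map. -/
def dvL_Lim2 (h : P m) : (Fin m → K.Om) →ₗ[ℂ] K.Om where
  toFun g := dv g h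
  map_add' g g' := dv_add_left g g' h
  map_smul' t g := dv_csmul_left t g h

/-- Multiplication by a polynomial, as a linear map. -/
def mulL_Lim2 (h : P m) : K.Om →ₗ[ℂ] K.Om where
  toFun w := h • w
  map_add' := smul_add h
  map_smul' t w := smul_comm h t w

/-- Multiplication of a fixed element, as a linear map. -/
def actL_Lim2 (w : K.Om) : P m →ₗ[ℂ] K.Om where
  toFun h := h • w
  map_add' h h' := add_smul h h' w
  map_smul' t h := smul_assoc t h w

theorem compl_Lim2 : ∃ E : Submodule ℂ (Fin r → K.Om), FiniteDimensional ℂ E ∧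
    (∀ g : Fin m → K.Om, (∀ l, g l ∈ K.Q.og 1) → (fun j => dv g (K.Q.F j)) ∈ E → g = 0) ∧
    ∀ ρ : Fin r → K.Om, (∀ j, ρ j ∈ K.Q.og (K.Q.dF j)) →
      ∃ g : Fin m → K.Om, (∀ l, g l ∈ K.Q.og 1) ∧ (fun j => ρ j - dv g (K.Q.F j)) ∈ E := by
  let J : (Fin m → K.Om) →ₗ[ℂ] (Fin r → K.Om) := LinearMap.pi fun j => dvL_Lim2 K (K.Q.F j)
  let ι : (∀ j, K.Q.og (K.Q.dF j)) →ₗ[ℂ] (Fin r → K.Om) :=
    LinearMap.pi fun j => (K.Q.og (K.Q.dF j)).subtype ∘ₗ LinearMap.proj j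
  obtain ⟨E, hE⟩ := ((Submodule.pi Set.univ fun _ : Fin m => K.Q.og 1).map J).exists_isCompl
  refine ⟨E ⊓ LinearMap.range ι, inferInstance, fun g hg h => ?_, fun ρ hρ => ?_⟩
  · have h1 : J g = 0 :=
      Submodule.disjoint_def.1 hE.disjoint _ (Submodule.mem_map_of_mem fun l _ => hg l) h.1
    exact K.h2 g hg fun j => congrFun h1 j
  · obtain ⟨_, ⟨g, hg, rfl⟩, e, he, h⟩ := Submodule.mem_sup.1
      (hE.codisjoint.eq_top.symm ▸ Submodule.mem_top (x := ρ))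
    have hg' : ∀ l, g l ∈ K.Q.og 1 := fun l => hg l trivial
    refine ⟨g, hg', ?_, ⟨fun j => ⟨ρ j - dv g (K.Q.F j), sub_mem (hρ j) ?_⟩, rfl⟩⟩
    · have h1 : (fun j => ρ j - dv g (K.Q.F j)) = e := by
        rw [← h]
        funext j
        exact add_sub_cancel_left _ _
      rw [h1]
      exact he
    · have h1 := dv_mem_og K.Q hg' (mem_hz_nat.2 (K.Q.Fh j))
      rwa [add_sub_cancel_right] at h1

theorem nat_Lim2 (E : Finset ℂ) : ∃ k : ℕ, 0 < k ∧ (k : ℂ)⁻¹ ∉ E := by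
  have h : Function.Injective fun k : ℕ => ((k + 1 : ℕ) : ℂ)⁻¹ := fun a b h => by
    have h1 : a + 1 = b + 1 := Nat.cast_injective (R := ℂ) (inv_injective h)
    omega
  obtain ⟨_, ⟨k, rfl⟩, hk⟩ := (Set.infinite_range_of_injective h).exists_notMem_finset E
  exact ⟨k + 1, Nat.succ_pos k, hk⟩

theorem norm_Lim2 {E : Submodule ℂ (Fin r → K.Om)}
    (hE : ∀ ρ : Fin r → K.Om, (∀ j, ρ j ∈ K.Q.og (K.Q.dF j)) →
      ∃ g : Fin m → K.Om, (∀ l, g l ∈ K.Q.og 1) ∧ (fun j => ρ j - dv g (K.Q.F j)) ∈ E)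
    {σ : P m} (hσ : σ.IsHomogeneous K.ν) {τ : K.Om} {b : P m} (h : JExt K.Q K.z σ K.ν τ b) :
    ∃ g : Fin m → K.Om, ∃ ρ ∈ E, (∀ l, g l ∈ K.Q.og (K.ν + 1)) ∧
      (∀ j, dv g (K.Q.F j) = b • K.z j + σ • ρ j) ∧ τ = dv g σ := by
  obtain ⟨g, ρ, τ', hg, hρ, hτ', hJ, rfl⟩ := h
  obtain ⟨g1, hg1, h1⟩ := hE ρ hρ
  have hσ' := mem_hz_nat.2 hσ
  have h2 : τ' + dv g1 σ ∈ K.Q.og K.ν := by
    have h3 := dv_mem_og K.Q hg1 hσ'
    rw [add_sub_cancel_right] at h3
    exact add_mem hτ' h3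
  have hν : (K.ν : ℂ) ≠ 0 := Nat.cast_ne_zero.2 K.nu_pos.ne'
  refine ⟨fun l => (g l - σ • g1 l) + (X l : P m) • ((K.ν : ℂ)⁻¹ • (τ' + dv g1 σ)), _, h1,
    fun l => ?_, fun j => ?_, ?_⟩
  · refine add_mem (sub_mem (hg l) (K.Q.og_smul hσ' (hg1 l))) ?_
    rw [add_comm (K.ν : ℤ) 1]
    exact K.Q.og_smul (hz_X l) (Submodule.smul_mem _ _ h2)
  · have h3 : ((K.Q.dF j : P m) * K.Q.F j) ∈ K.Q.I :=
      Ideal.mul_mem_left _ _ (Ideal.subset_span ⟨j, rfl⟩)
    rw [dv_add_left, dv_sub_left, dv_smul_left, dv_euler (K.Q.Fh j), K.Q.I_smul h3, hJ, smul_sub]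
    abel
  · have h3 : ∀ w : K.Om, ((K.ν : P m) * σ) • (K.ν : ℂ)⁻¹ • w = σ • w := fun w => by
      rw [mul_comm, mul_smul, Nat.cast_smul_eq_nsmul, ← Nat.cast_smul_eq_nsmul ℂ, smul_smul,
        mul_inv_cancel₀ hν, one_smul]
    rw [dv_add_left, dv_sub_left, dv_smul_left, dv_euler hσ, h3, smul_add]
    abel

theorem Ctx.lim (φ : (K.Om × P m) →ₗ[ℂ] ℂ) (h1 : ∀ y ∈ K.Jp, φ y = 0)
    (h2 : ∀ u ∈ (K.Q.og K.ν).prod (⊤ : Submodule ℂ ℂ),
      (∀ b ∈ hz m K.ν, φ (mm K.Q u b) = 0) → u = 0) :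
    ∃ k : ℕ, 0 < k ∧ ∃ lam mu, NDeg K.Q K.z (K.s0 + C (k : ℂ)⁻¹ * K.f) K.ν lam mu := by
  obtain ⟨E, hE0, hE1, hE2⟩ := compl_Lim2 K
  let S : Type := (Fin m → K.Q.og (K.ν + 1)) × E × hz m K.ν
  let pg : S →ₗ[ℂ] (Fin m → K.Om) :=
    (K.Q.og (K.ν + 1)).subtype.compLeft (Fin m) ∘ₗ LinearMap.fst ℂ _ _
  let pr : S →ₗ[ℂ] (Fin r → K.Om) := E.subtype ∘ₗ LinearMap.fst ℂ _ _ ∘ₗ LinearMap.snd ℂ _ _
  let pb : S →ₗ[ℂ] P m := (hz m K.ν).subtype ∘ₗ LinearMap.snd ℂ _ _ ∘ₗ LinearMap.snd ℂ _ _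
  have hpg : ∀ w l, pg w l ∈ K.Q.og (K.ν + 1) := fun w l => (w.1 l).2
  have hpr : ∀ w, pr w ∈ E := fun w => w.2.1.2
  have hinj : ∀ w, pg w = 0 → pr w = 0 → pb w = 0 → w = 0 := fun w e1 e2 e3 =>
    Prod.ext (funext fun l => Subtype.ext (congrFun e1 l))
      (Prod.ext (Subtype.ext e2) (Subtype.ext e3))
  have hsur : ∀ g : Fin m → K.Om, (∀ l, g l ∈ K.Q.og (K.ν + 1)) → ∀ ρ ∈ E, ∀ b ∈ hz m K.ν,
      ∃ w, pg w = g ∧ pr w = ρ ∧ pb w = b := fun g hg ρ hρ b hb =>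
    ⟨(fun l => ⟨g l, hg l⟩, ⟨ρ, hρ⟩, ⟨b, hb⟩), rfl, rfl, rfl⟩
  let C0 : S →ₗ[ℂ] (Fin r → K.Om) := LinearMap.pi fun j =>
    dvL_Lim2 K (K.Q.F j) ∘ₗ pg - actL_Lim2 K (K.z j) ∘ₗ pb -
      mulL_Lim2 K K.s0 ∘ₗ LinearMap.proj j ∘ₗ pr
  let C1 : S →ₗ[ℂ] (Fin r → K.Om) := LinearMap.pi fun j =>
    -(mulL_Lim2 K K.f ∘ₗ LinearMap.proj j ∘ₗ pr)
  let O0 : S →ₗ[ℂ] (K.Om × P m) := (dvL_Lim2 K K.s0 ∘ₗ pg).prod pb
  let O1 : S →ₗ[ℂ] (K.Om × P m) := (dvL_Lim2 K K.f ∘ₗ pg).prod 0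
  have eC0 : ∀ w j, C0 w j = dv (pg w) (K.Q.F j) - pb w • K.z j - K.s0 • pr w j := fun _ _ => rfl
  have eC1 : ∀ w j, C1 w j = -(K.f • pr w j) := fun _ _ => rfl
  have eO0 : ∀ w, O0 w = (dv (pg w) K.s0, pb w) := fun _ => rfl
  have eO1 : ∀ w, O1 w = (dv (pg w) K.f, 0) := fun _ => rfl
  have hkz : ∀ w, C0 w = 0 → O0 w = 0 → K.Kz (pg w) (pr w) ∧ pb w = 0 := fun w e1 e2 => by
    rw [eO0, Prod.mk_eq_zero] at e2
    refine ⟨⟨hpg w, fun j => ?_, e2.1⟩, e2.2⟩
    have e3 : C0 w j = 0 := congrFun e1 j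
    rwa [eC0, e2.2, zero_smul, sub_zero, sub_eq_zero] at e3
  let μ : ((K.Q.og K.ν).prod (⊤ : Submodule ℂ ℂ)) →ₗ[ℂ] hz m K.ν →ₗ[ℂ] (K.Om × P m) :=
    (mm K.Q).compl₁₂ (Submodule.subtype _) (Submodule.subtype _)
  have eμ : ∀ u b, μ u b = mm K.Q u.1 b.1 := fun _ _ => rfl
  have hfin := (finrank_prod_top (K.Q.og K.ν)).1
  obtain ⟨T, hT⟩ := lim_abs C0 C1 O0 O1 μ
    (fun w w' e1 e2 _ e4 => by
      obtain ⟨kz, hb⟩ := hkz w e1 e2
      rw [eO0, eO1] at e4
      obtain ⟨g1, hg1, hr, hz⟩ := K.rigid kz (congrArg Prod.fst e4).symm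
      have e5 : g1 = 0 := hE1 g1 hg1 (by rw [← funext hr]; exact hpr w)
      refine hinj w (hz e5) (funext fun j => ?_) hb
      rw [hr, e5]
      exact dv_zero_left _) φ
    (fun w w' e1 e2 e3 => by
      obtain ⟨kz, -⟩ := hkz w e1 e2
      refine h1 _ (Submodule.subset_span ⟨pg w', pg w, pr w', pr w, kz, hpg w', fun j => ?_, rfl⟩)
      have e4 : C0 w' j + C1 w j = 0 := congrFun e3 j
      rw [eC0, eC1] at e4
      rw [eO0, eO1, Prod.snd_add, add_zero, ← sub_eq_zero, ← e4]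
      abel)
    (fun u hu => Subtype.ext (h2 u.1 u.2 fun b hb => hu ⟨b, hb⟩))
  obtain ⟨k, hk, hkT⟩ := nat_Lim2 T
  obtain ⟨ψ, p1, p2⟩ := hT _ hkT
  have hψ : ∀ τ b, (ψ ∘ₗ LinearMap.inl ℂ _ _) τ + (ψ ∘ₗ LinearMap.inr ℂ _ _) b = ψ (τ, b) := by
    intro τ b
    rw [LinearMap.comp_apply, LinearMap.comp_apply, ← map_add]
    simp
  have hσ : (K.s0 + C (k : ℂ)⁻¹ * K.f).IsHomogeneous K.ν := (K.pos.goodt k hk).hom
  have hC : ∀ (t : ℂ) (w : K.Om), (C t : P m) • w = t • w := fun t w => by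
    rw [← MvPolynomial.algebraMap_eq, algebraMap_smul]
  refine ⟨k, hk, ψ ∘ₗ LinearMap.inl ℂ _ _, ψ ∘ₗ LinearMap.inr ℂ _ _, fun τ b hb hJ => ?_,
    fun a ha t h => ?_⟩
  · obtain ⟨g, ρ, hρ, hg, e1, e2⟩ := norm_Lim2 K hE2 hσ hJ
    obtain ⟨w, rfl, rfl, rfl⟩ := hsur g hg ρ hρ b (mem_hz_nat.2 hb)
    have e3 := p1 w (funext fun j => by
      rw [Pi.add_apply, Pi.smul_apply, eC0, eC1, e1, add_smul, mul_smul, hC, smul_neg,
        Pi.zero_apply]
      abel)
    rw [hψ, e2, dv_add, dv_C_mul, hC, ← e3, eO0, eO1, Prod.smul_mk, Prod.mk_add_mk, smul_zero,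
      add_zero]
  · have e1 := p2 ⟨(a, t), ha, Submodule.mem_top⟩ fun b => by
      have e2 := h b.1 (mem_hz_nat.1 b.2)
      rw [← smul_eq_mul, ← map_smul] at e2
      exact (hψ (b.1 • a) (t • b.1)).symm.trans e2
    exact Prod.mk_eq_zero.1 (congrArg Subtype.val e1)

end

end Pool.Agent.MP_1c689d_ag.K0.Al

end

section

/-! Transversality of generic forms. -/

set_option autoImplicit false

open MvPolynomial

namespace Pool.Agent.MP_1c689d_ag.K0.Al

noncomputable section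

variable {m c r : ℕ}

theorem ext_Ber {ι : Type} [Fintype ι] [DecidableEq ι] (S : Finset ι) :
    ∀ R : ι → ι → ℂ, LinearIndepOn ℂ R (S : Set ι)ᶜ →
      ∃ l : ι → ι, LinearIndependent ℂ fun i => if i ∈ S then Pi.single (l i) 1 else R i := by
  induction S using Finset.induction_on with
  | empty => exact fun R h => ⟨id, by simpa using h⟩
  | insert a S ha ih =>
    intro R h
    obtain ⟨k, hk⟩ : ∃ k : ι, Pi.single k (1 : ℂ) ∉
        Submodule.span ℂ (R '' ((insert a S : Finset ι) : Set ι)ᶜ) := by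
      by_contra! hn
      have e : Submodule.span ℂ (Set.range fun i : ↥(insert a S)ᶜ => R i) = ⊤ := by
        rw [eq_top_iff, ← (Pi.basisFun ℂ ι).span_eq, Submodule.span_le]
        rintro _ ⟨k, rfl⟩
        rw [Pi.basisFun_apply]
        refine Submodule.span_mono ?_ (hn k)
        rintro _ ⟨i, hi, rfl⟩
        exact ⟨⟨i, Finset.mem_compl.2 hi⟩, rfl⟩
      have h1 := finrank_le_of_span_eq_top e
      have h2 : (insert a S)ᶜ.card < Fintype.card ι :=
        Finset.card_lt_univ_of_notMem (x := a) (by simp)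
      rw [Module.finrank_fintype_fun_eq_card, Fintype.card_coe] at h1
      omega
    have hc : Set.EqOn R (Function.update R a (Pi.single k 1))
        ((insert a S : Finset ι) : Set ι)ᶜ := fun i hi =>
      (Function.update_of_ne (fun e => hi (by simp [e])) _ _).symm
    have e : (S : Set ι)ᶜ = insert a ((insert a S : Finset ι) : Set ι)ᶜ := by
      ext i
      by_cases hi : i = a <;> simp [hi, ha]
    obtain ⟨l, hl⟩ := ih (Function.update R a (Pi.single k 1)) (by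
      rw [e]
      refine (h.congr hc).insert ?_
      rwa [Function.update_self, ← hc.image_eq])
    refine ⟨Function.update l a k, ?_⟩
    have : (fun i => if i ∈ insert a S then Pi.single (Function.update l a k i) (1 : ℂ) else R i) =
        fun i => if i ∈ S then Pi.single (l i) 1 else Function.update R a (Pi.single k 1) i := by
      funext i
      by_cases hi : i = a
      · simp [hi, ha]
      · simp [hi]
    rwa [this]

theorem linearIndependent_congr_Ber {ι : Type} {R R' : ι → ι → ℂ} (h : ∀ i, R i = R' i) :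
    LinearIndependent ℂ R ↔ LinearIndependent ℂ R' := by rw [funext h]

theorem jd_ne_Ber (Q : PD m 4 c r) (v : Fin m → ℂ) (J : Fin c → Fin r) (w : Fin 4 → Fin m → P m) :
    eval v (Q.jd J w) ≠ 0 ↔ LinearIndependent ℂ fun i j : Fin c ⊕ Fin 4 =>
      eval v (Sum.elim (fun a => gd (Q.F (J a))) w i (Q.eqv j)) := by
  rw [PD.jd, RingHom.map_det, ← isUnit_iff_ne_zero, ← Matrix.isUnit_iff_isUnit_det,
    ← Matrix.linearIndependent_rows_iff_isUnit]
  rfl

/-- Independent rows can be completed by unit vectors. -/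
theorem ber (Q : PD m 4 c r) {v : Fin m → ℂ} (J : Fin c → Fin r) (l0 : Fin 4 → Fin m)
    (h0 : eval v (Q.jd J fun i => ue (l0 i)) ≠ 0) (w : Fin 4 → P m) (T : Finset (Fin 4))
    (h : ∀ a : Fin 4 → ℂ, (∀ t : Fin m → ℂ, (∀ j, ∑ l, eval v (pderiv l (Q.F j)) * t l = 0) →
      ∑ i ∈ T, a i * ∑ l, eval v (pderiv l (w i)) * t l = 0) → ∀ i ∈ T, a i = 0) :
    ∃ l : Fin 4 → Fin m, eval v (Q.jd J fun i => if i ∈ T then gd (w i) else ue (l i)) ≠ 0 := by
  classical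
  have h1 := (jd_ne_Ber Q v J _).1 h0
  let R : Fin c ⊕ Fin 4 → Fin c ⊕ Fin 4 → ℂ := fun i j =>
    eval v (Sum.elim (fun a => gd (Q.F (J a))) (fun i => gd (w i)) i (Q.eqv j))
  have hR : LinearIndepOn ℂ R ((Tᶜ.image Sum.inr : Finset (Fin c ⊕ Fin 4)) : Set _)ᶜ := by
    refine linearIndepOn_iff.2 fun g hg h2 => ?_
    have g0 : ∀ i ∉ T, g (Sum.inr i) = 0 := fun i hi =>
      (Finsupp.mem_supported' _ _).1 hg _ (by simpa using hi)
    rw [Finsupp.linearCombination_apply, Finsupp.sum_fintype _ _ (by simp)] at h2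
    have g1 : ∀ i, g (Sum.inr i) = 0 := by
      have := h (fun i => g (Sum.inr i)) fun t ht => by
        have e : ∑ i, g i * ∑ j, R i j * t (Q.eqv j) = 0 := by
          simp only [Finset.mul_sum, ← mul_assoc]
          rw [Finset.sum_comm]
          refine Finset.sum_eq_zero fun j _ => ?_
          have := congrFun h2 j
          rw [Finset.sum_apply] at this
          rw [← Finset.sum_mul]
          exact mul_eq_zero_of_left this _
        have e1 : ∀ a, ∑ j, R (Sum.inl a) j * t (Q.eqv j) = 0 := fun a =>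
          (Q.eqv.sum_comp fun l => eval v (pderiv l (Q.F (J a))) * t l).trans (ht _)
        have e2 : ∀ i, ∑ j, R (Sum.inr i) j * t (Q.eqv j) =
            ∑ l, eval v (pderiv l (w i)) * t l := fun i =>
          Q.eqv.sum_comp fun l => eval v (pderiv l (w i)) * t l
        rw [Fintype.sum_sum_type] at e
        simp only [e1, e2, mul_zero, Finset.sum_const_zero, zero_add] at e
        rw [← e]
        exact Finset.sum_subset (Finset.subset_univ T) fun i _ hi => by rw [g0 i hi, zero_mul]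
      exact fun i => if hi : i ∈ T then this i hi else g0 i hi
    ext i
    refine Fintype.linearIndependent_iff.1 h1 g ?_ i
    rw [← h2, Fintype.sum_sum_type, Fintype.sum_sum_type]
    simp only [g1, zero_smul]
    rfl
  obtain ⟨l, hl⟩ := ext_Ber _ R hR
  refine ⟨fun i => Q.eqv (l (Sum.inr i)), (jd_ne_Ber Q v J _).2 ?_⟩
  refine (linearIndependent_congr_Ber fun i => ?_).1 hl
  rcases i with a | i
  · rw [if_neg (by simp)]
    rfl
  · by_cases hi : i ∈ T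
    · rw [if_neg (by simpa using hi)]
      funext j
      simp [R, hi]
    · rw [if_pos (by simpa using hi)]
      funext j
      simp [hi, ue, Pi.single_apply, apply_ite (eval v)]

theorem ne_Ber {Q : PD m 4 c r} {v : Fin m → ℂ} {J : Fin c → Fin r} {w w' : Fin 4 → Fin m → P m}
    (h : eval v (Q.jd J w) ≠ 0) (e : ∀ i, w i = w' i) : eval v (Q.jd J w') ≠ 0 := funext e ▸ h

theorem fix_Ber {k : ℕ} {δ : Der} {u : Fin k → ℂ} (hd : ∀ l, δ (u l) = 0) {f : P k}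
    (h : eval u f = 0) : eval u (dP δ f) = 0 := by
  have := der_eval δ u f
  simpa [h, hd] using this.symm

theorem tan_Ber {Q : PD m 4 c r} {δ : Der} (hF : ∀ j, dP δ (Q.F j) = 0) {v : Fin m → ℂ}
    (hv : Q.OnC v) (j : Fin r) : ∑ l, eval v (pderiv l (Q.F j)) * δ (v l) = 0 := by
  have := der_eval δ v (Q.F j)
  rw [hv.2 j, hF j, map_zero, map_zero, zero_add] at this
  exact this.symm

theorem sc_Ber {yi : Fin 4 → Fin m} {v : Fin m → ℂ} {u : Vec} {t : ℂ}
    (h : (fun i => v (yi i)) = t • u) (e : ℕ) (a : Vec) :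
    eval v (Lv yi e a) = t ^ e * eval u (Lv id e a) := by
  rw [eval_Lv, eval_Lv, Finset.mul_sum]
  refine Finset.sum_congr rfl fun l _ => ?_
  rw [show v (yi l) = t * u l from congrFun h l, id, mul_pow, mul_left_comm]

theorem one_Ber {S : Finset ℂ} {H : Finset Vec} (hH : GenV S H) {k : ℕ} (yi : Fin 4 → Fin k)
    (e : ℕ) {a : Vec} (ha : a ∈ H) (v : Fin k → ℂ) (l0 : Fin 4) : ∃ δ, Kills S δ ∧
      eval v (dP δ (Lv yi e a)) = v (yi l0) ^ e ∧ ∀ b ∈ H, b ≠ a → dP δ (Lv yi e b) = 0 := by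
  obtain ⟨δ, h1, h2⟩ := hH fun b => if b = a then ev l0 else 0
  refine ⟨δ, h1, ?_, fun b hb hn => ?_⟩
  · rw [dP_Lv, funext (h2 a ha), if_pos rfl, Lv_ev, map_pow, eval_X]
  · rw [dP_Lv, funext (h2 b hb), if_neg hn, Lv_zero]

theorem off_Ber (Q : PD m 4 c r) {Pts : Finset Vec} {S : Finset ℂ}
    (hP : ∀ u ∈ Pts, ∀ δ, Kills S δ → ∀ l, δ (u l) = 0) {v : Fin m → ℂ} (hv : Q.OnC v)
    (h : ∀ (u : Vec) (t : ℂ), t ≠ 0 → u ≠ 0 → (∀ δ, Kills S δ → ∀ l, δ (u l) = 0) →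
      (fun i => v (Q.yi i)) ≠ t • u) : Q.Off Pts v ∧ ∃ i : Fin 3, v (Q.yi i.succ) ≠ 0 := by
  have key : ∀ (u : Vec) (t : ℂ), (∀ δ, Kills S δ → ∀ l, δ (u l) = 0) →
      (fun i => v (Q.yi i)) ≠ t • u := fun u t hd hy =>
    h u t (fun e => Q.y_ne hv (by rw [hy, e, zero_smul]))
      (fun e => Q.y_ne hv (by rw [hy, e, smul_zero])) hd hy
  refine ⟨fun u hu t => key u t (hP u hu), ?_⟩
  by_contra! hn
  refine key (ev 0) (v (Q.yi 0)) (fun δ _ l => ?_) (funext fun i => ?_)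
  · refine Fin.cases ?_ (fun l => ?_) l <;> simp [ev]
  · refine Fin.cases ?_ (fun i => ?_) i
    · simp [ev]
    · simp [ev, hn]

theorem tr_Ber (Q : PD m 4 c r) {Pts : Finset Vec} (hS : Q.Sm0 Pts) {S : Finset ℂ}
    (hF : ∀ δ, Kills S δ → ∀ j, dP δ (Q.F j) = 0) {H : Finset Vec} (hH : GenV S H) (e : ℕ)
    {v : Fin m → ℂ} (hv : Q.OnC v) (T : Finset (Fin 4)) (s : Fin 4 → Vec) (hs : Set.InjOn s T)
    (h0 : ∀ i ∈ T, s i ∈ H ∧ eval v (Lv Q.yi e (s i)) = 0) (ho : Q.Off Pts v) :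
    ∃ (J : Fin c → Fin r) (l : Fin 4 → Fin m),
      eval v (Q.jd J fun i => if i ∈ T then gd (Lv Q.yi e (s i)) else ue (l i)) ≠ 0 := by
  obtain ⟨J, l0, hJ⟩ := hS v hv ho
  refine ⟨J, ber Q J l0 hJ (fun i => Lv Q.yi e (s i)) T fun a h i hi => ?_⟩
  obtain ⟨l, hl⟩ := Function.ne_iff.1 (Q.y_ne hv)
  obtain ⟨δ, hδ, h1, h2⟩ := one_Ber hH Q.yi e (h0 i hi).1 v l
  have h3 : ∀ j ∈ T, ∑ l, eval v (pderiv l (Lv Q.yi e (s j))) * δ (v l) =
      -eval v (dP δ (Lv Q.yi e (s j))) := fun j hj => by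
    have := der_eval δ v (Lv Q.yi e (s j))
    rw [(h0 j hj).2, map_zero] at this
    exact eq_neg_of_add_eq_zero_right this.symm
  have h4 := h (fun l => δ (v l)) (tan_Ber (hF δ hδ) hv)
  rw [Finset.sum_eq_single_of_mem i hi fun j hj hn => by
    rw [h3 j hj, h2 _ (h0 j hj).1 fun e => hn (hs hj hi e), map_zero, neg_zero, mul_zero],
    h3 i hi, h1] at h4
  exact (mul_eq_zero.1 h4).resolve_right (neg_ne_zero.2 (pow_ne_zero e hl))

theorem half_Ber {S : Finset ℂ} {H : Finset Vec} (hH : GenV S H) {k : ℕ} (yi : Fin 4 → Fin k)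
    (e : ℕ) {A B : Finset Vec} (hd : Disjoint A B) (hA : A ⊆ H) (hB : B ⊆ H) (nA : A.Nonempty)
    {x y : ℂ} (hx : x ≠ 0) (dx : ∀ δ : Der, δ x = 0) (dy : ∀ δ : Der, δ y = 0) (v : Fin k → ℂ)
    (hy : (fun i => v (yi i)) ≠ 0) (h : ∀ δ, Kills S δ →
      eval v (dP δ (C x * ∏ a ∈ A, Lv yi e a + C y * ∏ a ∈ B, Lv yi e a)) = 0) :
    ∃ a ∈ A, ∃ b ∈ A, b ≠ a ∧ eval v (Lv yi e a) = 0 ∧ eval v (Lv yi e b) = 0 := by
  obtain ⟨l, hl⟩ := Function.ne_iff.1 hy
  have key : ∀ a ∈ A, ∃ b ∈ A, b ≠ a ∧ eval v (Lv yi e b) = 0 := fun a ha => by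
    obtain ⟨δ, hδ, h1, h2⟩ := one_Ber hH yi e (hA ha) v l
    have h3 := h δ hδ
    rw [dP_add, dP_mul, dP_mul, dP_C, dP_C, dx, dy, dP_prod, dP_prod,
      Finset.sum_eq_single_of_mem a ha fun b hb hn => by rw [h2 b (hA hb) hn, mul_zero],
      Finset.sum_eq_zero fun b hb => by
        rw [h2 b (hB hb) fun e => Finset.disjoint_left.1 hd ha (e ▸ hb), mul_zero]] at h3
    simp only [map_zero, zero_mul, zero_add, mul_zero, add_zero, map_mul, eval_C, h1,
      map_prod] at h3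
    obtain ⟨b, hb, h4⟩ := Finset.prod_eq_zero_iff.1
      ((mul_eq_zero.1 ((mul_eq_zero.1 h3).resolve_left hx)).resolve_right (pow_ne_zero e hl))
    exact ⟨b, (Finset.mem_erase.1 hb).2, (Finset.mem_erase.1 hb).1, h4⟩
  obtain ⟨a0, h0⟩ := nA
  obtain ⟨a, ha, -, h1⟩ := key a0 h0
  obtain ⟨b, hb, h2, h3⟩ := key a ha
  exact ⟨a, ha, b, hb, h2, h1, h3⟩

theorem pow_eq_zero_iff_Ber {x : ℂ} {e : ℕ} (h : x ^ e = 0) : x = 0 := eq_zero_of_pow_eq_zero h

theorem two_Ber {S : Finset ℂ} {H : Finset Vec} (hH : GenV S H) {k : ℕ} (yi : Fin 4 → Fin k)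
    (e : ℕ) {A B : Finset Vec} (hd : Disjoint A B) (hU : A ∪ B = H) (nA : A.Nonempty)
    (nB : B.Nonempty) {x : ℂ} (hx : x ≠ 0) (dx : ∀ δ : Der, δ x = 0) (v : Fin k → ℂ)
    (hy : (fun i => v (yi i)) ≠ 0) (h : ∀ δ, Kills S δ →
      eval v (dP δ (∏ a ∈ A, Lv yi e a + C x * ∏ a ∈ B, Lv yi e a)) = 0) : False := by
  have hA : A ⊆ H := hU ▸ Finset.subset_union_left
  have hB : B ⊆ H := hU ▸ Finset.subset_union_right
  have d1 : ∀ δ : Der, δ 1 = 0 := fun δ => δ.map_one_eq_zero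
  obtain ⟨a, ha, a', ha', n1, z1, z2⟩ := half_Ber hH yi e hd hA hB nA one_ne_zero d1 dx v hy
    fun δ hδ => by rw [C_1, one_mul]; exact h δ hδ
  obtain ⟨b, hb, b', hb', n2, z3, z4⟩ := half_Ber hH yi e hd.symm hB hA nB hx dx d1 v hy
    fun δ hδ => by rw [C_1, one_mul, add_comm]; exact h δ hδ
  have hn : ∀ p ∈ A, ∀ q ∈ B, p ≠ q := fun p hp q hq e => Finset.disjoint_left.1 hd hp (e ▸ hq)
  have h0 := hH.gp.eq_zero (S := {a, a', b, b'}) (u := fun l => v (yi l) ^ e)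
    (fun p hp => Finset.mem_union_left _ (by
      simp only [Finset.mem_insert, Finset.mem_singleton] at hp
      rcases hp with rfl | rfl | rfl | rfl
      exacts [hA ha, hA ha', hB hb, hB hb']))
    (Finset.card_eq_four.2 ⟨a, a', b, b', n1.symm, hn a ha b hb, hn a ha b' hb', hn a' ha' b hb,
      hn a' ha' b' hb', n2.symm, rfl⟩) fun p hp => by
      rw [← eval_Lv]
      simp only [Finset.mem_insert, Finset.mem_singleton] at hp
      rcases hp with rfl | rfl | rfl | rfl <;> assumption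
  exact hy (funext fun l => pow_eq_zero_iff_Ber (congrFun h0 l))

theorem exists_pos (Q : PD m 4 c r) (Pts : Finset Vec) (hS : Q.Sm0 Pts) {e : ℕ} (he : 0 < e)
    (n : ℕ) (hn : 0 < n) : ∃ A B : Finset Vec, A.card = n ∧ Pos Q Pts e A B := by
  classical
  choose SF hSF using fun j => dP_fin (Q.F j)
  let S : Finset ℂ := Finset.univ.biUnion SF ∪ Pts.biUnion fun u => Finset.univ.image u
  have hF : ∀ δ, Kills S δ → ∀ j, dP δ (Q.F j) = 0 := fun δ hδ j => hSF j δ fun s hs =>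
    hδ s (Finset.mem_union_left _ (Finset.mem_biUnion.2 ⟨j, Finset.mem_univ j, hs⟩))
  have hP : ∀ u ∈ Pts, ∀ δ, Kills S δ → ∀ l, δ (u l) = 0 := fun u hu δ hδ l =>
    hδ _ (Finset.mem_union_right _ (Finset.mem_biUnion.2
      ⟨u, hu, Finset.mem_image_of_mem _ (Finset.mem_univ l)⟩))
  obtain ⟨H, hc, hH⟩ := exists_genV S (2 * n)
  obtain ⟨A, hA, cA⟩ := Finset.exists_subset_card_eq (s := H) (n := n) (by omega)
  have cB : (H \ A).card = A.card := by rw [Finset.card_sdiff_of_subset hA]; omega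
  have hU : A ∪ H \ A = H := Finset.union_sdiff_of_subset hA
  have nA : A.Nonempty := Finset.card_pos.1 (by omega)
  have nB : (H \ A).Nonempty := Finset.card_pos.1 (by omega)
  have o1 : ∀ a ∈ H, ∀ v, Q.OnC v → eval v (Lv Q.yi e a) = 0 →
      Q.Off Pts v ∧ ∃ i : Fin 3, v (Q.yi i.succ) ≠ 0 := fun a ha v hv h0 =>
    off_Ber Q hP hv fun u t ht hu hd hy => by
      obtain ⟨l0, hl⟩ := Function.ne_iff.1 hu
      obtain ⟨δ, hδ, h1, -⟩ := one_Ber hH id e ha u l0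
      rw [sc_Ber hy, mul_eq_zero, or_iff_right (pow_ne_zero _ ht)] at h0
      exact pow_ne_zero e hl (h1.symm.trans (fix_Ber (hd δ hδ) h0))
  have tr := fun v hv (T : Finset (Fin 4)) s hs (i : Fin 4) (hi : i ∈ T) h0 =>
    tr_Ber Q hS hF hH e (v := v) hv T s hs h0 (o1 _ (h0 i hi).1 v hv (h0 i hi).2).1
  refine ⟨A, H \ A, cA, cB, Finset.disjoint_sdiff, hU.symm ▸ hH.gp, fun l => hU.symm ▸ hH.nu l,
    fun a ha => ⟨Lv_hom _ _ _, he, fun v hv h0 => (o1 a (hA ha) v hv h0).1,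
      fun v hv h0 => (o1 a (hA ha) v hv h0).2, fun v hv h0 => ?_⟩,
    fun a ha b hb hab v hv h1 h2 => ?_, fun a ha b hb s hs hab hsa hsb v hv h1 h2 h3 => ?_,
    fun k hk => ?_⟩
  · obtain ⟨J, l, hl⟩ := tr v hv {0} (fun _ => a) (by simp) 0 (by simp)
      fun i _ => ⟨hA ha, h0⟩
    refine ⟨J, fun i => l i.succ, ne_Ber hl fun i => ?_⟩
    fin_cases i <;> rfl
  · obtain ⟨J, l, hl⟩ := tr v hv {0, 1} ![a, b, a, a] (by
      intro i hi j hj
      simp only [Finset.coe_insert, Finset.coe_singleton, Set.mem_insert_iff,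
        Set.mem_singleton_iff] at hi hj
      rcases hi with rfl | rfl <;> rcases hj with rfl | rfl <;> simp [hab, hab.symm]) 0 (by simp)
      (by simp [hA ha, hA hb, h1, h2])
    refine ⟨J, l 2, l 3, ne_Ber hl fun i => ?_⟩
    fin_cases i <;> rfl
  · obtain ⟨J, l, hl⟩ := tr v hv {0, 1, 2} ![a, b, s, a] (by
      intro i hi j hj
      simp only [Finset.coe_insert, Finset.coe_singleton, Set.mem_insert_iff,
        Set.mem_singleton_iff] at hi hj
      rcases hi with rfl | rfl | rfl <;> rcases hj with rfl | rfl | rfl <;>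
        simp [hab, hab.symm, hsa, hsa.symm, hsb, hsb.symm]) 0 (by simp)
      (by simp [hA ha, hA hb, (hU ▸ hs : s ∈ H), h1, h2, h3])
    refine ⟨J, l 3, ne_Ber hl fun i => ?_⟩
    fin_cases i <;> rfl
  · have hk' : (k : ℂ)⁻¹ ≠ 0 := inv_ne_zero (Nat.cast_ne_zero.2 hk.ne')
    have two := fun {k0 : ℕ} (yi : Fin 4 → Fin k0) v hy =>
      two_Ber hH yi e Finset.disjoint_sdiff hU nA nB hk' (fun δ => der_natCast_inv δ k) v hy
    have hom : ∀ T : Finset Vec, (∏ a ∈ T, Lv Q.yi e a).IsHomogeneous (T.card * e) := fun T => by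
      simpa using IsHomogeneous.prod T (Lv Q.yi e) (fun _ => e) fun a _ => Lv_hom _ _ _
    have o2 : ∀ v, Q.OnC v →
        eval v (∏ a ∈ A, Lv Q.yi e a + C (k : ℂ)⁻¹ * ∏ a ∈ H \ A, Lv Q.yi e a) = 0 →
        Q.Off Pts v ∧ ∃ i : Fin 3, v (Q.yi i.succ) ≠ 0 := fun v hv h0 =>
      off_Ber Q hP hv fun u t ht hu hd hy => two id u hu fun δ hδ => fix_Ber (hd δ hδ) (by
        simp only [map_add, map_mul, map_prod, eval_C, sc_Ber hy, Finset.prod_mul_distrib,
          Finset.prod_const, cB] at h0 ⊢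
        refine (mul_eq_zero.1 ?_).resolve_left (pow_ne_zero A.card (pow_ne_zero e ht))
        linear_combination h0)
    refine ⟨(hom A).add (cB ▸ (hom _).C_mul _), Nat.mul_pos (Finset.card_pos.2 nA) he,
      fun v hv h0 => (o2 v hv h0).1, fun v hv h0 => (o2 v hv h0).2, fun v hv h0 => ?_⟩
    obtain ⟨J, l0, hJ⟩ := hS v hv (o2 v hv h0).1
    obtain ⟨l, hl⟩ := ber Q J l0 hJ (fun _ =>
      ∏ a ∈ A, Lv Q.yi e a + C (k : ℂ)⁻¹ * ∏ a ∈ H \ A, Lv Q.yi e a) {0} fun a h i hi => by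
        rw [Finset.mem_singleton.1 hi]
        by_contra ha
        refine two Q.yi v (Q.y_ne hv) fun δ hδ => ?_
        have h1 := h (fun l => δ (v l)) (tan_Ber (hF δ hδ) hv)
        rw [Finset.sum_singleton, mul_eq_zero, or_iff_right ha] at h1
        have h2 := der_eval δ v
          (∏ a ∈ A, Lv Q.yi e a + C (k : ℂ)⁻¹ * ∏ a ∈ H \ A, Lv Q.yi e a)
        rw [h0, h1, map_zero, add_zero] at h2
        exact h2.symm
    refine ⟨J, fun i => l i.succ, ne_Ber hl fun i => ?_⟩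
    fin_cases i <;> rfl

end

end Pool.Agent.MP_1c689d_ag.K0.Al

end

section

/-! The algebraic non-degeneracy theorem (section 5 of the proof). -/

set_option autoImplicit false

open MvPolynomial

namespace Pool.Agent.MP_1c689d_ag.K0

noncomputable section

namespace Al

variable {m c r : ℕ}

/-- The dimension bound in all three cases. -/
theorem Ctx.DD.bound {K : Ctx m c r} (D : K.DD) {u : K.Om × ℂ} (hu : u.1 ∈ K.Q.og K.ν)
    (hne : u ≠ 0) :
    Module.finrank ℂ (D.Tan u) + Module.finrank ℂ (K.Ann u) ≤ Module.finrank ℂ (hz m K.ν) := by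
  classical
  by_cases h1 : ∃ a ∈ K.A, ∃ b ∈ K.A, a ≠ b ∧ K.col u a b ≠ 1
  swap
  · refine D.case3 hu hne fun a ha a' ha' hne' => ?_
    by_contra hM
    refine h1 ⟨a, ha, a', ha', hne', ?_⟩
    unfold Ctx.col
    rw [if_neg hM]
    split_ifs <;> decide
  by_cases h0 : ∃ a ∈ K.A, ∃ b ∈ K.A, a ≠ b ∧ K.col u a b ≠ 0
  swap
  · refine D.case2 hu fun a ha a' ha' hne' => ?_
    by_contra hM
    refine h0 ⟨a, ha, a', ha', hne', ?_⟩
    unfold Ctx.col
    rw [if_neg hM]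
    split_ifs <;> decide
  obtain ⟨l, hl, hA, hc⟩ := cnt1 K.chi_lt K.del_ge K.A K.big (K.col u) (K.col_symm u) h0 h1
  have e1 := K.annB u hl hA
  have e2 := D.tanB hu hl hA
  have e3 := K.finrank_hz_nu
  have e4 := K.finrank_gr_nu
  have e5 : K.n3 u = (K.A.offDiag.filter fun x => K.col u x.1 x.2 = 2).card := rfl
  rw [← e5] at hc
  change 1 + 3 * K.n3 u + fil K.h _ l + fil K.h _ l ≤ ∑ j ∈ Finset.range K.A.card, K.h j at hc
  omega

theorem Ctx.main (K : Ctx m c r) : ∃ (σ : P m) (ν : ℕ), Good K.Q K.Pts σ ν ∧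
    ∃ lam mu, NDeg K.Q K.z σ ν lam mu := by
  classical
  obtain ⟨D⟩ := K.exists_dd
  obtain ⟨DP, hDP⟩ := exists_dmP (k := m)
  obtain ⟨E, hE⟩ := DM.exists_prod D.D DP
  have hfin := (finrank_prod_top (K.Q.og K.ν)).1
  obtain ⟨φ, h1, h2⟩ := sym (mm K.Q) ((K.Q.og K.ν).prod ⊤) (hz m K.ν) K.Jp E
    (fun δ u => (D.D.act δ u.1, δ u.2)) D.S D.Tan
    (fun u hu => ⟨D.Tan_le hu.1,
      Submodule.mem_sup_right (Submodule.mem_span_singleton_self u),
      fun δ hδ => Submodule.mem_sup_left (Submodule.subset_span ⟨δ, hδ, rfl⟩)⟩)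
    (fun b => by
      obtain ⟨S, hS⟩ := dP_fin b
      refine ⟨S ∪ D.S, fun δ hδ u => ?_⟩
      have k1 := hS δ (hδ.mono Finset.subset_union_left)
      rw [mm_apply, mm_apply, hE, hDP, D.leib δ (hδ.mono Finset.subset_union_right), dP_smul, k1]
      simp)
    (fun u hu hne => D.bound hu.1 hne)
  obtain ⟨k, hk, lam, mu, h⟩ := K.lim φ h1 h2
  exact ⟨_, _, K.pos.goodt k hk, lam, mu, h⟩

end Al

open Al in
theorem alg_main {m c r : ℕ} (Q : PD m 4 c r) (Pts : Finset (Fin 4 → ℂ)) (hN : Num Q)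
    (hS : Q.Sm0 Pts) (h0 : Q.H0) (h2 : Q.H2) (T : DT Q) (h1 : Q1 Q Pts) (z : Fin r → Q.Om)
    (hz : ∀ j, z j ∈ Q.og (Q.dF j))
    (hnz : ¬ ∃ γ : Fin m → Q.Om, (∀ l, γ l ∈ Q.og 1) ∧ ∀ j, dv γ (Q.F j) = z j) :
    ∃ (σ : P m) (ν : ℕ), Good Q Pts σ ν ∧ ∃ lam mu, NDeg Q z σ ν lam mu := by
  classical
  choose s hs using T.ι_deg
  let e : ℕ := 9 + ∑ j, Q.dF j + ∑ J, (s J).natAbs
  have he4 : 4 ≤ e := by simp only [e]; omega
  obtain ⟨A, B, hA, hP⟩ := exists_pos Q Pts hS (e := e) (by omega)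
    (2 * (Fintype.card Q.b.ι * e ^ 3) + 10) (by omega)
  have hF : ∀ j, Q.dF j + 1 < e := fun j => by
    have := Finset.single_le_sum (f := Q.dF) (fun _ _ => Nat.zero_le _) (Finset.mem_univ j)
    simp only [e]; omega
  have hι : ∀ J, ∃ s : ℤ, 8 + s < 3 * e ∧ ∀ j, ∀ t ∈ Q.og j, T.ι J t ∈ Q.b.gr (j + s) :=
    fun J => ⟨s J, by
      have := Finset.single_le_sum (f := fun J => (s J).natAbs) (fun _ _ => Nat.zero_le _)
        (Finset.mem_univ J)
      have h9 : 9 + (s J).natAbs ≤ e := by simp only [e]; omega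
      omega, hs J⟩
  exact Ctx.main ⟨Q, Pts, T, z, e, A, B, hN, hS, h0, h2, h1, hz, hnz, he4, hF, hι, hP, hA.ge⟩

/-- `dim R_ν = dim ω_ν + 2`. -/
theorem finrank_gr_eq {m c r : ℕ} (Q : PD m 4 c r) (hN : Num Q) {ν : ℕ} (hν : 0 < ν) :
    Module.finrank ℂ (Q.b.gr ν) = Module.finrank ℂ (Q.og ν) + 2 :=
  Al.finrank_gr_og Q hN hν

end

end Pool.Agent.MP_1c689d_ag.K0

end

section

/-! Interface: the algebraic non-degeneracy theorem (proved in `K0/A/Main`). -/

set_option autoImplicit false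

open Complex Filter Topology Set MeasureTheory MvPolynomial
open scoped ComplexConjugate ContDiff ENNReal

namespace Pool.Agent.MP_1c689d_ag.K0

noncomputable section

theorem alg_nd {m c r : ℕ} (Q : PD m 4 c r) (Pts : Finset (Fin 4 → ℂ)) (hN : Num Q)
    (hS : Q.Sm0 Pts) (h0 : Q.H0) (h2 : Q.H2) (T : DT Q) (h1 : Q1 Q Pts) (z : Fin r → Q.Om)
    (hz : ∀ j, z j ∈ Q.og (Q.dF j))
    (hnz : ¬ ∃ γ : Fin m → Q.Om, (∀ l, γ l ∈ Q.og 1) ∧ ∀ j, dv γ (Q.F j) = z j) :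
    ∃ (σ : P m) (ν : ℕ), Good Q Pts σ ν ∧ ∃ lam mu, NDeg Q z σ ν lam mu :=
  alg_main Q Pts hN hS h0 h2 T h1 z hz hnz

theorem alg_dim {m c r : ℕ} (Q : PD m 4 c r) (hN : Num Q) {ν : ℕ} (hν : 0 < ν) :
    Module.finrank ℂ (Q.b.gr ν) = Module.finrank ℂ (Q.og ν) + 2 :=
  finrank_gr_eq Q hN hν

end

end Pool.Agent.MP_1c689d_ag.K0

end
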