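import Pool.Agent.Mg.F1c689d.Gc38b74
import Pool.Agent.Mg.F1c689d.G398e35
import Pool.Agent.Mg.F1c689d.G20d601
import Pool.Agent.Mg.F1c689d.Gd10bfb
import Pool.Agent.Mg.F1c689d.G74563b
import Pool.Agent.Mg.F1c689d.G8ed24b
import Pool.Agent.Mg.F1c689d.Gfebdd0
import Pool.Agent.Mg.F1c689d.G82f860
import Pool.Agent.Mg.F1c689d.Ga9b087
import Pool.Agent.Mg.F1c689d.Gf5c905
import Pool.Agent.MP_1c689d_ag.Defs
import Pool.Agent.Mg.F1c689d.G99c6f5
import Pool.Agent.Mg.F1c689d.Ga42b27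
import Pool.Agent.Mg.F1c689d.G71e32b
import Mathlib
import Pool.Agent.MP_1c689d_ag.K0.ADefs
import Pool.Agent.Mg.F1c689d.G250ab3

set_option linter.all false


section

/-! The mapping cone consists of fine sheaves. -/

set_option autoImplicit false

open Complex Filter Topology Set MeasureTheory MvPolynomial
open scoped ComplexConjugate ContDiff ENNReal

namespace Pool.Agent.MP_1c689d_ag.K0.Fd

noncomputable section

variable {n m c r : ℕ} {X : Type} [TopologicalSpace X] [Mf n X] {Q : PD m (n + 1) c r}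
  {Pts : Finset (Fin (n + 1) → ℂ)} {x : X → Fin m → ℂ}
  {a : ℕ} {e : Q.b.ι → ℤ} {ρ : Q.b.ι → Fm n X}
  {k : ℤ} {s₁ s₂ : ℝ} {q : ℕ} {w w' : Ck Q X} {y : Fin (n + 1) → Fin (n + 1) → ℂ}

theorem LFb_c1 (h1 : 0 < s₁) : ContinuousOn (pm : E (n + 1) → _) (Sh (n + 1) s₁ s₂) :=
  fun _ hz => (contDiffAt_pm (Sh.ne_zero h1 hz)).continuousAt.continuousWithinAt

theorem LFb_c2 (h : FD Q Pts x) (p : X) : ContinuousAt (fun p' => pm (Yv x Q.yi p')) p :=
  pm_cont (h.pm p) (Yv_ne h p)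

theorem LFb_zr (h : FD Q Pts x) (h1 : 0 < s₁) {ψ : (Fin (n + 1) → Fin (n + 1) → ℂ) → ℂ}
    (h0 : ∀ᶠ y' in 𝓝 y, ψ y' = 0) (e1 : ∀ i z, w'.1 i z = ψ (pm z) • w.1 i z)
    (e2 : ∀ p, w'.2 p = ψ (pm (Yv x Q.yi p)) • w.2 p) : czr Q x s₁ s₂ w' y := by
  refine ⟨fun z hz e => ?_, fun p e => ?_⟩
  · subst e
    filter_upwards [(contDiffAt_pm (Sh.ne_zero h1 hz)).continuousAt.eventually h0] with z' hz' i
    rw [e1, hz', zero_smul]
  · subst e
    filter_upwards [(LFb_c2 h p).eventually h0] with p' hp'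
    rw [e2, hp', zero_smul]

/-- `tube` for `pm` on the shell and for `pm ∘ Yv` on `X` (`pm_cont`). -/
theorem cok_ev (h : FD Q Pts x) (h1 : 0 < s₁) (hw : cok Q x a e k s₁ s₂ q w y) :
    ∀ᶠ y' in 𝓝 y, cok Q x a e k s₁ s₂ q w y' := by
  have := h.cpt
  have h2 := tube (p := fun p => SmAt (gx x ^ k) w.2 p ∧ w.2 p ∈ Tq n a q) isCompact_univ
    (fun p _ => (LFb_c2 h p).continuousWithinAt) fun p _ e =>
      ((hw.2 p e).1.eventually ((h.pm p).gok_zpow k)).and (hw.2 p e).2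
  filter_upwards [tube (isCompact_sh s₁ s₂) (LFb_c1 h1) hw.1, h2] with y' a1 a2
  exact ⟨a1, fun p e => ⟨(a2 p trivial e).self_of_nhds.1, (a2 p trivial e).mono fun _ b => b.2⟩⟩

theorem czr_ev (h : FD Q Pts x) (h1 : 0 < s₁) (hw : czr Q x s₁ s₂ w y) :
    ∀ᶠ y' in 𝓝 y, czr Q x s₁ s₂ w y' := by
  have := h.cpt
  filter_upwards [tube (isCompact_sh s₁ s₂) (LFb_c1 h1) hw.1, tube isCompact_univ
    (fun p _ => (LFb_c2 h p).continuousWithinAt) fun p _ e => hw.2 p e] with y' a1 a2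
  exact ⟨a1, fun p e => a2 p trivial e⟩

omit [Mf n X] in
theorem czr_zero : czr Q x s₁ s₂ 0 y := by
  exact ⟨fun _ _ _ => Eventually.of_forall fun _ _ => rfl, fun _ _ =>
    Eventually.of_forall fun _ => rfl⟩

omit [Mf n X] in
theorem czr_sub (hw : czr Q x s₁ s₂ w y) (hw' : czr Q x s₁ s₂ w' y) :
    czr Q x s₁ s₂ (w - w') y := by
  refine ⟨fun z hz e => ?_, fun p e => ?_⟩
  · filter_upwards [hw.1 z hz e, hw'.1 z hz e] with z' a1 a2 i
    change w.1 i z' - w'.1 i z' = 0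
    rw [a1, a2, sub_zero]
  · filter_upwards [hw.2 p e, hw'.2 p e] with p' a1 a2
    change w.2 p' - w'.2 p' = 0
    rw [a1, a2, sub_zero]

theorem cok_zero : cok Q x a e k s₁ s₂ q 0 y := by
  exact ⟨fun _ _ _ => Eventually.of_forall fun z _ => gd_zero _ _ z, fun _ _ =>
    ⟨smAt_zero, Eventually.of_forall fun _ => zero_mem _⟩⟩

theorem cok_sub (hw : cok Q x a e k s₁ s₂ q w y) (hw' : cok Q x a e k s₁ s₂ q w' y) :
    cok Q x a e k s₁ s₂ q (w - w') y := by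
  refine ⟨fun z hz e => ?_, fun p e => ⟨(hw.2 p e).1.sub (hw'.2 p e).1, ?_⟩⟩
  · filter_upwards [hw.1 z hz e, hw'.1 z hz e] with z' a1 a2 i
    exact (a1 i).sub (a2 i)
  · filter_upwards [(hw.2 p e).2, (hw'.2 p e).2] with p' a1 a2
    exact sub_mem a1 a2

/-- For the weight use `iv_ev` for the invariant set `{z ∈ Sh | pm z = y}`. -/
theorem cok_congr (h1 : 0 < s₁) (hw : cok Q x a e k s₁ s₂ q w y)
    (hz : czr Q x s₁ s₂ (w - w') y) : cok Q x a e k s₁ s₂ q w' y := by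
  obtain ⟨U, hU, hI, hT, he⟩ := iv_ev (T := {z ∈ Sh (n + 1) s₁ s₂ | pm z = y})
    (p := fun z => ∀ i, w'.1 i z = w.1 i z)
    (fun z hz t ht => ⟨iv_sh _ _ z hz.1 t ht,
      (pm_smul z fun e => by simp [e] at ht).trans hz.2⟩)
    (eventually_nhdsSet_iff_forall.2 fun z hz' => (hz.1 z hz'.1 hz'.2).mono fun _ b i =>
      (sub_eq_zero.1 (b i)).symm)
  refine ⟨fun z hs e => ?_, fun p e => ?_⟩
  · filter_upwards [hw.1 z hs e, hU.mem_nhds (hT ⟨hs, e⟩)] with z' a1 a2 i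
    refine ⟨(a1 i).sm.congr_of_eventuallyEq ?_, he z' a2 i ▸ (a1 i).ty, fun t ht => ?_⟩
    · filter_upwards [hU.mem_nhds a2] with z'' b using he z'' b i
    · rw [he _ (hI z' a2 t ht), he z' a2, (a1 i).wt t ht]
  · have h2 : w.2 =ᶠ[𝓝 p] w'.2 := (hz.2 p e).mono fun _ b => sub_eq_zero.1 b
    refine ⟨(hw.2 p e).1.congr h2, ?_⟩
    filter_upwards [(hw.2 p e).2, h2] with p' a1 a2
    exact a2 ▸ a1

/-- Take a smooth `χ` that is one near `K` with `tsupport χ ⊆ U` (`exists_cutoff` does not apply, use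
`exists_contDiff_tsupport_subset` type lemmas, for instance
`exists_contMDiffMap_one_nhds_of_subset_interior` or `exists_smooth_zero_one_of_isClosed`) and
`M w = (fun i z => χ (pm z) • w.1 i z, fun p => χ (pm (Yv x Q.yi p)) • w.2 p)`; `pm_sm`. -/
theorem cone_cut (h : FD Q Pts x) (h1 : 0 < s₁) {K U : Set (Fin (n + 1) → Fin (n + 1) → ℂ)}
    (hK : IsCompact K) (hU : IsOpen U) (hs : K ⊆ U) : ∃ M : Ck Q X → Ck Q X,
    (∀ q w y, cok Q x a e k s₁ s₂ q w y → cok Q x a e k s₁ s₂ q (M w) y) ∧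
    (∀ w y, czr Q x s₁ s₂ w y → czr Q x s₁ s₂ (M w) y) ∧
    (∀ w, ∀ y ∈ K, czr Q x s₁ s₂ (M w - w) y) ∧ ∀ w, ∀ y ∉ U, czr Q x s₁ s₂ (M w) y := by
  obtain ⟨f, f0, f1, -⟩ := exists_contMDiffMap_zero_one_nhds_of_isClosed (n := ⊤)
    (modelWithCornersSelf ℝ (Fin (n + 1) → Fin (n + 1) → ℂ)) hU.isClosed_compl hK.isClosed
    (disjoint_compl_left_iff_subset.2 hs)
  have hf : ContDiff ℝ ∞ fun y => (f y : ℂ) := ofRealCLM.contDiff.comp f.contMDiff.contDiff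
  refine ⟨fun w => (fun i z => (f (pm z) : ℂ) • w.1 i z,
    fun p => (f (pm (Yv x Q.yi p)) : ℂ) • w.2 p), fun q w y hw => ⟨fun z hz e => ?_, fun p e =>
      ⟨(pm_sm (h.pm p) (Yv_ne h p) hf).fsmul_one (hw.2 p e).1,
        (hw.2 p e).2.mono fun _ b => Submodule.smul_mem _ _ b⟩⟩,
    fun w y hw => ⟨fun z hz e => (hw.1 z hz e).mono fun z' b i => ?_,
      fun p e => (hw.2 p e).mono fun p' b => ?_⟩, fun w y hy => ?_, fun w y hy => ?_⟩
  · filter_upwards [hw.1 z hz e, isOpen_ne.mem_nhds (Sh.ne_zero h1 hz)] with z' a1 a2 i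
    refine ⟨(hf.contDiffAt.comp z' (contDiffAt_pm a2)).smul (a1 i).sm,
      Submodule.smul_mem _ _ (a1 i).ty, fun t ht => ?_⟩
    rw [pm_smul z' fun e => by simp [e] at ht, (a1 i).wt t ht, smul_comm]
  · simp only [b i, smul_zero]
  · simp only [b, smul_zero]
  · refine LFb_zr (w := w) (ψ := fun y => (f y : ℂ) - 1) h h1 ?_ (fun i z => ?_) fun p => ?_
    · filter_upwards [eventually_nhdsSet_iff_forall.1 f1 y hy] with y' b
      rw [b, ofReal_one, sub_self]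
    · rw [sub_smul, one_smul]
      rfl
    · rw [sub_smul, one_smul]
      rfl
  · refine LFb_zr (w := w) (ψ := fun y => (f y : ℂ)) h h1 ?_ (fun _ _ => rfl) fun _ => rfl
    filter_upwards [eventually_nhdsSet_iff_forall.1 f0 y hy] with y' b
    rw [b, ofReal_zero]

end

end Pool.Agent.MP_1c689d_ag.K0.Fd

end

section

/-! The mapping cone is locally exact. -/

set_option autoImplicit false

open Complex Filter Topology Set MeasureTheory MvPolynomial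
open scoped ComplexConjugate ContDiff ENNReal

namespace Pool.Agent.MP_1c689d_ag.K0.Fd

noncomputable section

variable {n m c r : ℕ} {X : Type} [TopologicalSpace X] [Mf n X] {Q : PD m (n + 1) c r}
  {Pts : Finset (Fin (n + 1) → ℂ)} {x : X → Fin m → ℂ}
  {a : ℕ} {e : Q.b.ι → ℤ} {ρ : Q.b.ι → Fm n X}
  {k : ℤ} {s₁ s₂ : ℝ} {q : ℕ} {w w' : Ck Q X} {y : Fin (n + 1) → Fin (n + 1) → ℂ}

theorem LFc_sh {N : ℕ} {z₀ : E N} {y : Fin N → Fin N → ℂ} (h1 : 0 < s₁) (hz : z₀ ∈ Sh N s₁ s₂)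
    (e0 : pm z₀ = y) {P : E N → Prop} :
    (∀ z ∈ Sh N s₁ s₂, pm z = y → ∀ᶠ z' in 𝓝 z, P z') ↔
      ∀ᶠ z in 𝓝ˢ (Ry z₀ ∩ Sh N s₁ s₂), P z := by
  subst e0
  rw [eventually_nhdsSet_iff_forall]
  exact ⟨fun h z hz' => h z hz'.2 ((pm_eq_iff (Sh.ne_zero h1 hz'.2) (Sh.ne_zero h1 hz)).2 hz'.1),
    fun h z hz' e => h z ⟨(pm_eq_iff (Sh.ne_zero h1 hz') (Sh.ne_zero h1 hz)).1 e, hz'⟩⟩

theorem LFc_mem {N : ℕ} {z₀ z : E N} {U : Set (E N)} (hU : Cn U) (hz : z₀ ∈ U) (h0 : z ≠ 0)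
    (h : z ∈ Ry z₀) : z ∈ U := by
  obtain ⟨t, rfl⟩ := h
  exact hU.2 z₀ hz t fun ht => h0 (by rw [ht, zero_smul])

theorem LFc_ev {N : ℕ} {z₀ : E N} {U : Set (E N)} (h1 : 0 < s₁) (hU : Cn U) (hz : z₀ ∈ U) :
    ∀ᶠ z in 𝓝ˢ (Ry z₀ ∩ Sh N s₁ s₂), z ∈ U :=
  hU.1.mem_nhdsSet.2 fun _ h => LFc_mem hU hz (Sh.ne_zero h1 h.2) h.1

theorem LFc_cn {N : ℕ} {W : Set (Fin N → Fin N → ℂ)} (hW : IsOpen W) :
    Cn {z : E N | z ≠ 0 ∧ pm z ∈ W} := by
  refine ⟨isOpen_iff_mem_nhds.2 fun z hz => ?_, fun z hz t ht =>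
    ⟨smul_ne_zero ht hz.1, by rw [pm_smul z ht]; exact hz.2⟩⟩
  exact (isOpen_ne.eventually_mem hz.1).and
    ((contDiffAt_pm hz.1).continuousAt.eventually (hW.mem_nhds hz.2))

theorem LFc_none (hY : ∀ p, Yv x Q.yi p ∈ Sh (n + 1) s₁ s₂)
    (hn : ¬ ∃ z ∈ Sh (n + 1) s₁ s₂, pm z = y) (q : ℕ) (w : Ck Q X) :
    cok Q x a e k s₁ s₂ q w y ∧ czr Q x s₁ s₂ w y :=
  ⟨⟨fun z hz e => absurd ⟨z, hz, e⟩ hn, fun p e => absurd ⟨_, hY p, e⟩ hn⟩,
    fun z hz e => absurd ⟨z, hz, e⟩ hn, fun p e => absurd ⟨_, hY p, e⟩ hn⟩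

/-- If no point of the shell lies over `y` all conditions are empty. Otherwise let `z₀` be one; the
fibres are `Ry z₀ ∩ Sh` and `{p | Yv p ∈ Ry z₀}` (`pm_eq_iff`). By `hom_near` the `w.1 i` are given by
homogeneous `g i` on a cone `U`. The relation `∑ i, g i (Yv p) • ρ i p = 0` holds near the fibre, hence
for `Yv p` in a smaller cone `U' = U ∩ {z ≠ 0, pm z ∈ W}` (`tube`, `pm_cont`, `tend`); `Fr.inj`. -/
theorem cone_loc0 (h : FD Q Pts x) (hF : Fr Q Pts x a e ρ) (h1 : 0 < s₁)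
    (hY : ∀ p, Yv x Q.yi p ∈ Sh (n + 1) s₁ s₂) (hw : cok Q x a e k s₁ s₂ 0 w y)
    (hz : czr Q x s₁ s₂ (cD Q x ρ k w) y) : czr Q x s₁ s₂ w y := by
  by_cases hn : ∃ z ∈ Sh (n + 1) s₁ s₂, pm z = y
  swap
  · exact (LFc_none (a := a) (e := e) (k := k) hY hn 0 w).2
  obtain ⟨z₀, hz₀, e0⟩ := hn
  have h0 := Sh.ne_zero h1 hz₀
  have w2 : ∀ p, pm (Yv x Q.yi p) = y → ∀ᶠ p' in 𝓝 p, w.2 p' = 0 := fun p hp =>
    (hw.2 p hp).2.mono fun p' hp' => (Submodule.mem_bot ℂ).1 hp'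
  refine ⟨(LFc_sh h1 hz₀ e0).2 ?_, w2⟩
  have a1 := (LFc_sh h1 hz₀ e0).1 hw.1
  have a2 := (LFc_sh h1 hz₀ e0).1 hz.1
  choose U g hU hzU hg hev using fun i => hom_near (j := k - e i) (γ := w.1 i) h0 h1
    (hz₀.1.trans hz₀.2) ((a1.and a2).mono fun z hz => ⟨hz.1 i, hz.2 i⟩)
  have hev' := eventually_all.2 hev
  have rel : ∀ p ∈ (univ : Set X), pm (Yv x Q.yi p) = y →
      ∀ᶠ p' in 𝓝 p, ∑ i, g i (Yv x Q.yi p') • ρ i p' = 0 := fun p _ hp => by
    have hT : Yv x Q.yi p ∈ Ry z₀ ∩ Sh (n + 1) s₁ s₂ :=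
      ⟨(pm_eq_iff (Yv_ne h p) h0).1 (hp.trans e0.symm), hY p⟩
    filter_upwards [(tend (h.pm p) ((iv_ry z₀).inter (iv_sh s₁ s₂)) hT).eventually hev',
      hz.2 p hp, (w2 p hp).eventually_nhds] with p' b1 b2 b3
    have b4 : dbar (gx x ^ k) w.2 p' = 0 := by
      rw [dbar_congr (β := 0) b3, dbar_zero]
      rfl
    change uu Q x ρ w.1 p' - dbar (gx x ^ k) w.2 p' = 0 at b2
    rwa [b4, sub_zero, uu_congr (b' := fun i z => algebraMap ℂ (Λ (n + 1)) (g i z)) b1,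
      uu_fn] at b2
  have := h.cpt
  obtain ⟨W, hW, hWo, hyW⟩ := eventually_nhds_iff.1 (tube isCompact_univ
    (fun p _ => (pm_cont (h.pm p) (Yv_ne h p)).continuousWithinAt) rel)
  have hC : Cn ((⋂ i, U i) ∩ {z | z ≠ 0 ∧ pm z ∈ W}) :=
    Cn.inter ⟨isOpen_iInter_of_finite fun i => (hU i).1, fun z hz t ht =>
      mem_iInter.2 fun i => (hU i).2 z (mem_iInter.1 hz i) t ht⟩ (LFc_cn hWo)
  have hi := hF.inj k _ g hC (fun i => (hg i).mono fun z hz => mem_iInter.1 hz.1 i)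
    fun p _ hp => (hW _ hp.2.2 p (mem_univ p) rfl).self_of_nhds
  filter_upwards [hev', LFc_ev h1 hC ⟨mem_iInter.2 hzU, h0, e0 ▸ hyW⟩] with z b1 b2 i
  rw [b1 i, hi i z b2, map_zero]

/-- `orb` gives `b'` with `dbE b' = w.1`; then `uu b' - w.2` is closed near the finite fibre
(`uu_exact`, `fib_fin`). If `q = q' + 1` it is `dbar a'` (`dolb_fin`), take `(b', a')`. If `q = 0` then
`w.2 - uu b'` is holomorphic, so it is `uu b''` with `b''` holomorphic (`Fr.surj`, `gd_of_hm`, `uu_fn`,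
`cn_ev`), take `(b' + b'', 0)`. -/
theorem cone_loc (h : FE Q Pts x) (hF : Fr Q Pts x a e ρ) (h1 : 0 < s₁)
    (hY : ∀ p, Yv x Q.yi p ∈ Sh (n + 1) s₁ s₂) (hy : y ∈ cS Pts)
    (hw : cok Q x a e k s₁ s₂ (q + 1) w y) (hz : czr Q x s₁ s₂ (cD Q x ρ k w) y) :
    ∃ w', cok Q x a e k s₁ s₂ q w' y ∧ czr Q x s₁ s₂ (cD Q x ρ k w' - w) y := by
  by_cases hn : ∃ z ∈ Sh (n + 1) s₁ s₂, pm z = y
  swap
  · exact ⟨0, (LFc_none hY hn q 0).1, (LFc_none (a := a) (e := e) (k := k) hY hn 0 _).2⟩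
  obtain ⟨z₀, hz₀, e0⟩ := hn
  have h0 := Sh.ne_zero h1 hz₀
  have hiff : ∀ p, pm (Yv x Q.yi p) = y ↔ Yv x Q.yi p ∈ Ry z₀ := fun p => by
    rw [← e0, pm_eq_iff (Yv_ne h.fd p) h0]
  have a1 := (LFc_sh h1 hz₀ e0).1 hw.1
  have a2 := (LFc_sh h1 hz₀ e0).1 hz.1
  choose b hb using fun i => orb (j := k - e i) (γ := w.1 i) h0
    ((a1.and a2).mono fun z hz => ⟨hz.1 i, hz.2 i⟩)
  have hb' := eventually_all.2 hb
  have key : ∀ p, Yv x Q.yi p ∈ Ry z₀ → SmAt (gx x ^ k) (uu Q x ρ b - w.2) p ∧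
      ∀ᶠ p' in 𝓝 p, (uu Q x ρ b - w.2) p' ∈ Tp n a q ∧
        dbar (gx x ^ k) (uu Q x ρ b - w.2) p' = 0 := fun p hp => by
    have hp' := (hiff p).2 hp
    have hG := (h.fd.pm p).gok_zpow k
    obtain ⟨c1, c2⟩ := uu_exact (b := w.1) h.fd hF (mem_O.2 (hy _ (Yv_ne h.fd p) hp'))
      ((iv_ry z₀).inter (iv_sh s₁ s₂)) ⟨hp, hY p⟩ hb
    obtain ⟨c3, c4⟩ := hw.2 p hp'
    refine ⟨c1.sub c3, ?_⟩
    filter_upwards [c2, c4, hz.2 p hp', c1.eventually hG, c3.eventually hG] with p' d1 d2 d3 d4 d5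
    refine ⟨sub_mem d1.1 d2, ?_⟩
    rw [dbar_sub d4 d5, d1.2]
    exact d3
  have ho : OffY Pts z₀ := hy z₀ h0 e0
  cases q with
  | succ q =>
    obtain ⟨β, hβ, hβ'⟩ := dolb_fin (fib_fin h h0 ho) (fun p _ => (h.fd.pm p).gok_zpow k) key
    refine ⟨(b, β), ⟨(LFc_sh h1 hz₀ e0).2 (hb'.mono fun z hz i => (hz i).1), fun p hp =>
      ⟨(hβ' p ((hiff p).1 hp)).1, .of_forall hβ⟩⟩,
      (LFc_sh h1 hz₀ e0).2 (hb'.mono fun z hz i => sub_eq_zero.2 (hz i).2), fun p hp => ?_⟩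
    filter_upwards [(hβ' p ((hiff p).1 hp)).2] with p' d
    change uu Q x ρ b p' - dbar (gx x ^ k) β p' - w.2 p' = 0
    rw [d, Pi.sub_apply, sub_sub_cancel, sub_self]
  | zero =>
    obtain ⟨U, g, hU, hzU, hg, hα⟩ := hF.surj k z₀ h0 ho (-(uu Q x ρ b - w.2)) fun p hp =>
      ⟨⟨(key p hp).1.neg, (key p hp).2.mono fun p' d => by
        rw [dbar_neg, Pi.neg_apply, d.2, neg_zero]⟩, (key p hp).2.mono fun p' d => neg_mem d.1⟩
    have hb2 := hb'.and (LFc_ev h1 hU hzU)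
    refine ⟨(b + fun i z => algebraMap ℂ (Λ (n + 1)) (g i z), 0),
      ⟨(LFc_sh h1 hz₀ e0).2 (hb2.mono fun z hz i =>
        (hz.1 i).1.add (gd_of_hm hU (hg i) hz.2).1), fun p _ =>
        ⟨smAt_zero, .of_forall fun _ => zero_mem _⟩⟩,
      (LFc_sh h1 hz₀ e0).2 (hb2.mono fun z hz i => ?_), fun p hp => ?_⟩
    · have d := gd_of_hm hU (hg i) hz.2
      change dbE (b i + fun z => algebraMap ℂ (Λ (n + 1)) (g i z)) z - w.1 i z = 0
      rw [dbE_add ((hz.1 i).1.sm.differentiableAt (by simp)) (d.1.sm.differentiableAt (by simp)),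
        d.2, add_zero, (hz.1 i).2, sub_self]
    · filter_upwards [cn_ev (h.fd.pm p) (Yv_ne h.fd p) hU
        (LFc_mem hU hzU (Yv_ne h.fd p) ((hiff p).1 hp))] with p' d
      change uu Q x ρ (b + fun i z => algebraMap ℂ (Λ (n + 1)) (g i z)) p' -
        dbar (gx x ^ k) (0 : Fm n X) p' - w.2 p' = 0
      rw [uu_add, dbar_zero, Pi.add_apply, uu_fn, ← hα p' d]
      simp

end

end Pool.Agent.MP_1c689d_ag.K0.Fd

end

section

/-! The first cohomology of the open set. -/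

set_option autoImplicit false

open Complex Filter Topology Set MeasureTheory MvPolynomial
open scoped ComplexConjugate ContDiff ENNReal

namespace Pool.Agent.MP_1c689d_ag.K0.Fd

noncomputable section

variable {n m c r : ℕ} {X : Type} [TopologicalSpace X] [Mf n X] {Q : PD m (n + 1) c r}
  {Pts : Finset (Fin (n + 1) → ℂ)} {x : X → Fin m → ℂ}
  {a : ℕ} {e : Q.b.ι → ℤ} {ρ : Q.b.ι → Fm n X}

theorem HH_off (h : FD Q Pts x) (H : HS (n + 1))
    (hH : ∀ z, z ≠ 0 → (OffY Pts z ↔ ∀ s ∈ H.S, z ≠ z s.2 • s.1)) {ε : ℝ} (hε : 0 < ε) {p : X}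
    (hp : Yv x Q.yi p ∈ H.U ε) : p ∈ Q.O Pts x :=
  mem_O.2 ((hH _ (Yv_ne h p)).2 (H.off hε (Yv_ne h p) hp))

theorem HH_ry {N : ℕ} (H : HS N) {ε : ℝ} {z w : E N} (hz : z ∈ H.U ε) (hw : w ∈ Ry z)
    (h0 : w ≠ 0) : w ∈ H.U ε := by
  obtain ⟨t, rfl⟩ := hw
  exact H.U_smul hz fun ht => h0 (by rw [ht, zero_smul])

/-- `exists_sh`, `hv_succ`, `LFP` for `H.T (ε / κ) a' b'`, `uu_exact` for `H.T ε a b`. -/
theorem Fr.hh1 (h : FD Q Pts x) (hn : 2 < n) (hF : Fr Q Pts x a e ρ) (hL : LFP Q Pts x a e ρ)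
    (H : HS (n + 1)) (hH : ∀ z, z ≠ 0 → (OffY Pts z ↔ ∀ s ∈ H.S, z ≠ z s.2 • s.1)) (k : ℤ)
    {α : Fm n X} (hα : Sm (gx x ^ k) α (Q.O Pts x)) (ht : Ty a 1 α)
    (h0 : ∀ p ∈ Q.O Pts x, dbar (gx x ^ k) α p = 0) {ε : ℝ} (hε : 0 < ε) (h1 : ε ≤ H.e0) :
    ∃ β : Fm n X, ∀ p, Yv x Q.yi p ∈ H.U ε → SmAt (gx x ^ k) β p ∧
      ∀ᶠ y in 𝓝 p, β y ∈ Tp n a 0 ∧ dbar (gx x ^ k) β y = α y := by
  obtain ⟨s₁, s₂, hs, hs', hY⟩ := exists_sh h
  obtain ⟨κ, a', b', hκ, ha, ha', hb', hv⟩ := hv_succ H hs hs'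
  have hκ0 : 0 < κ := lt_of_lt_of_le one_pos hκ
  have hε' : 0 < ε / κ := div_pos hε hκ0
  have e1 : κ * (ε / κ) = ε := mul_div_cancel₀ ε hκ0.ne'
  have hY' : ∀ p, Yv x Q.yi p ∈ Sh (n + 1) a' b' := fun p =>
    ⟨ha'.trans (hY p).1, (hY p).2.trans hb'⟩
  obtain ⟨b, β, hb, hβ⟩ := hL k 0 a' b' (H.T (ε / κ) a' b') ha hY'
    ((isCompact_sh a' b').inter_right (H.isClosed_U _)) inter_subset_left
    (fun z hz w hw => ⟨hw.2, HH_ry H hz.2 hw.1 (Sh.ne_zero ha hw.2)⟩)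
    (fun z hz => (hH z (Sh.ne_zero ha hz.1)).2 (H.off hε' (Sh.ne_zero ha hz.1) hz.2)) α
    (fun p hp => ⟨hα p (HH_off h H hH hε' hp.2),
      eventually_of_mem (h.isOpen_O.mem_nhds (HH_off h H hH hε' hp.2)) fun y hy => ⟨ht y, h0 y hy⟩⟩)
  choose b₁ hb₁ using fun i => hv 0 (by omega) (ε / κ) hε' (e1.trans_le h1) (k - e i) (b i) (hb i)
  rw [e1] at hb₁
  refine ⟨uu Q x ρ b₁ + β, fun p hp => ?_⟩
  obtain ⟨c1, c2⟩ := uu_exact h hF (HH_off h H hH hε hp) (H.iv_T ε s₁ s₂) ⟨hY p, hp⟩ hb₁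
  obtain ⟨d1, d2⟩ := hβ p ⟨hY' p, H.U_mono (div_le_self hε.le hκ) hp⟩
  have hG := (h.pm p).gok_zpow k
  refine ⟨c1.add d1, ?_⟩
  filter_upwards [c2, d2, c1.eventually hG, d1.eventually hG] with y f1 f2 f3 f4
  exact ⟨add_mem f1.1 f2.1, by rw [dbar_add f3 f4, f1.2, f2.2]⟩

/-- `exists_sh`, `hv_zero`, `Fr.glue` with `S = {z ∈ H.U ε | z ≠ 0}`;
`δ p = ∑ i, eval (Yv p) (f i) • ρ i p` (`holAt_hm`, `hm_eval`). -/
theorem Fr.hh0 (h : FD Q Pts x) (hn : 1 < n) (hF : Fr Q Pts x a e ρ)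
    (H : HS (n + 1)) (hH : ∀ z, z ≠ 0 → (OffY Pts z ↔ ∀ s ∈ H.S, z ≠ z s.2 • s.1)) (k : ℤ) :
    ∃ κ : ℝ, 1 ≤ κ ∧ ∀ ε : ℝ, 0 < ε → κ * ε ≤ H.e0 → ∀ β : Fm n X,
      (∀ p, Yv x Q.yi p ∈ H.U ε → HFm (gx x ^ k) β p ∧ ∀ᶠ y in 𝓝 p, β y ∈ Tp n a 0) →
      ∃ δ : Fm n X, Ty a 0 δ ∧ (∀ p ∈ Q.O Pts x, HFm (gx x ^ k) δ p) ∧
        ∀ p, Yv x Q.yi p ∈ H.U (κ * ε) → β p = δ p := by
  obtain ⟨s₁, s₂, hs, hs', hY⟩ := exists_sh h
  obtain ⟨κ, hκ, hv⟩ := hv_zero (by omega) H hs hs'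
  refine ⟨κ, hκ, fun ε hε h1 β hβ => ?_⟩
  obtain ⟨U, b, hU, hSU, hb, hβ'⟩ := hF.glue k (S := {z | z ∈ H.U ε ∧ z ≠ 0}) (α := β)
    (fun z hz => ⟨hz.2, (hH z hz.2).2 (H.off hε hz.2 hz.1)⟩)
    (fun z hz p hp => hβ p (HH_ry H hz.1 hp (Yv_ne h p)))
  choose f hf hf' using fun i => hv ε hε h1 (k - e i) U (b i) hU (hb i)
    fun z hz h0 => hSU ⟨hz, h0⟩
  have hg := fun i z => gd_of_hm (z := z) ⟨isOpen_univ, fun _ _ _ _ => mem_univ _⟩
    (hm_eval (hf i) univ) (mem_univ z)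
  refine ⟨uu Q x ρ fun i z => algebraMap ℂ (Λ (n + 1)) (eval z (f i)),
    fun p => uu_Tp hF fun i => (hg i _).1.ty, fun p hp => ?_, fun p hp => ?_⟩
  · have hb' := fun i => Eventually.of_forall (f := 𝓝 (Yv x Q.yi p)) fun z => (hg i z).1
    exact ⟨(uu_sm h hF hp hb').1, (uu_ev h hF hp hb').mono fun y hy => hy.2.trans
      ((uu_congr (b' := 0) fun i => (hg i _).2).trans (congrFun uu_zero y))⟩
  · rw [uu_fn, hβ' p (hSU ⟨H.U_mono (le_mul_of_one_le_left hε.le hκ) hp, Yv_ne h p⟩)]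
    exact Finset.sum_congr rfl fun i _ => by rw [hf' i _ ⟨hY p, hp⟩]

/-- `exists_hs`, `exh` with `K ν = Yv ⁻¹' H.U (ε ν)`, `K' ν = Yv ⁻¹' H.U (κ * ε ν)`,
`ε ν = H.e0 / (κ * (ν + 1))`; `HS.exh`, `cn_ev`, `HS.off`. -/
theorem Fr.van_open (h : FD Q Pts x) (hn : 2 < n) (hF : Fr Q Pts x a e ρ)
    (hL : LFP Q Pts x a e ρ) (k : ℤ) {α : Fm n X} (hα : Sm (gx x ^ k) α (Q.O Pts x))
    (ht : Ty a 1 α) (h0 : ∀ p ∈ Q.O Pts x, dbar (gx x ^ k) α p = 0) :
    ∃ β : Fm n X, Sm (gx x ^ k) β (Q.O Pts x) ∧ Ty a 0 β ∧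
      ∀ p ∈ Q.O Pts x, dbar (gx x ^ k) β p = α p := by
  obtain ⟨H, hH⟩ := exists_hs Pts
  obtain ⟨κ, hκ, hv⟩ := hF.hh0 h (by omega) H hH k
  have hκ0 : 0 < κ := lt_of_lt_of_le one_pos hκ
  obtain ⟨δ, hδ⟩ : ∃ δ : ℕ → ℝ, ∀ ν, δ ν = H.e0 / (ν + 1) := ⟨_, fun _ => rfl⟩
  have d0 : ∀ ν, 0 < δ ν := fun ν => by
    rw [hδ]
    exact div_pos H.pos (Nat.cast_add_one_pos ν)
  have d1 : ∀ ν, δ ν ≤ H.e0 := fun ν => by
    rw [hδ]
    exact div_le_self H.pos.le (le_add_of_nonneg_left (Nat.cast_nonneg ν))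
  have d2 : ∀ ν ν', ν ≤ ν' → δ ν' ≤ δ ν := fun ν ν' hν => by
    rw [hδ, hδ]
    exact div_le_div_of_nonneg_left H.pos.le (Nat.cast_add_one_pos ν)
      (add_le_add_left (Nat.cast_le.2 hν) 1)
  have d3 : ∀ ν, δ ν / κ ≤ δ ν := fun ν => div_le_self (d0 ν).le hκ
  have e1 : ∀ ν, κ * (δ ν / κ) = δ ν := fun ν => mul_div_cancel₀ _ hκ0.ne'
  refine exh (fun p => (h.pm p).gok_zpow k) (K := fun ν => {p | Yv x Q.yi p ∈ H.U (δ ν / κ)})
    (K' := fun ν => {p | Yv x Q.yi p ∈ H.U (δ ν)})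
    (fun ν ν' hν p hp => H.U_mono (div_le_div_of_nonneg_right (d2 ν ν' hν) hκ0.le) hp)
    (fun ν ν' hν p hp => H.U_mono (d2 ν ν' hν) hp) (fun ν p hp => H.U_mono (d3 ν) hp)
    (fun ν p hp => HH_off h H hH (div_pos (d0 ν) hκ0) hp) (fun p hp => ?_)
    (fun ν => hF.hh1 h hn hL H hH k hα ht h0 (div_pos (d0 ν) hκ0) ((d3 ν).trans (d1 ν)))
    fun ν β hβ => ?_
  · obtain ⟨ε, U, hε, hU, hpU, hUε⟩ := H.exh ((hH _ (Yv_ne h p)).1 (mem_O.1 hp))
    obtain ⟨ν, hν⟩ := exists_nat_ge (H.e0 / ε)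
    have d4 : δ ν ≤ ε := by
      rw [hδ, div_le_comm₀ (Nat.cast_add_one_pos ν) hε]
      exact hν.trans (le_add_of_nonneg_right zero_le_one)
    exact ⟨ν, (cn_ev (h.pm p) (Yv_ne h p) hU hpU).mono fun y hy => H.U_mono d4 (hUε hy)⟩
  · have := hv (δ ν / κ) (div_pos (d0 ν) hκ0) ((e1 ν).trans_le (d1 ν)) β hβ
    rwa [e1] at this

end

end Pool.Agent.MP_1c689d_ag.K0.Fd

end

section

/-! Assembly. -/

set_option autoImplicit false

open Complex Filter Topology Set MeasureTheory MvPolynomial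
open scoped ComplexConjugate ContDiff ENNReal

namespace Pool.Agent.MP_1c689d_ag.K0.Fd

noncomputable section

variable {n m c r : ℕ} {X : Type} [TopologicalSpace X] [Mf n X] {Q : PD m (n + 1) c r}
  {Pts : Finset (Fin (n + 1) → ℂ)} {x : X → Fin m → ℂ}
  {a : ℕ} {e : Q.b.ι → ℤ} {ρ : Q.b.ι → Fm n X}

theorem fe_of (h : FD Q Pts x) : FE Q Pts x :=
  ⟨h, fun z => Set.finite_of_encard_le_coe (Q.card_fib z)⟩

theorem rx_of (h : FD Q Pts x) (hn : 1 ≤ n) : Nonempty (RX Q Pts x) := by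
  obtain ⟨ι, hι⟩ := exists_tate0 Q
  exact exists_rx (fe_of h) hn hι.tate

theorem DP.fr (h : FD Q Pts x) (hn : 1 ≤ n) {a' : ℕ} {σ : Q.b.ι → Fm n X}
    (hD : DP Q Pts x a a' e ρ σ) : Fr Q Pts x a e ρ :=
  ⟨hD.ty, hD.hol, hD.inj (fe_of h) hn, hD.surj (fe_of h) hn⟩

theorem Fr.lfp (h : FD Q Pts x) (hF : Fr Q Pts x a e ρ) : LFP Q Pts x a e ρ :=
  lfp_of fun _ _ _ h1 hY =>
    ⟨⟨fun _ _ _ => cok_ev h h1, fun _ _ => czr_ev h h1, fun _ => czr_zero, fun _ _ _ => czr_sub,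
      fun _ _ => cok_zero, fun _ _ _ _ => cok_sub, fun _ _ _ _ => cok_congr h1,
      fun _ _ _ hy => cok_D h hF hY hy, fun _ _ _ _ _ => cD_sub h, fun _ _ _ => cD_congr h hY,
      fun _ _ _ hy => cD_D h hF hY hy, fun _ _ => cone_cut h h1⟩,
    ⟨fun _ _ _ => cone_loc0 h hF h1 hY, fun _ _ _ hy => cone_loc (fe_of h) hF h1 hY hy⟩⟩

theorem fr_fun (h : FD Q Pts x) (hn : 1 ≤ n) :
    Fr Q Pts x 0 Q.b.dg fun i => fn n (ev x (Q.e i)) := by
  obtain ⟨R⟩ := rx_of h hn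
  exact (dp_fun h R).fr h hn

theorem t_rl (h : FD Q Pts x) (hn : 2 ≤ n) : Nonempty (RL Q Pts x) := by
  obtain ⟨R⟩ := rx_of h (by omega)
  obtain ⟨R', -⟩ := rl_of h hn R ((dp_form h R).fr h (by omega))
  exact ⟨R'⟩

theorem t_dt (h : FD Q Pts x) (hn : 2 ≤ n) : Nonempty (DT Q) := by
  obtain ⟨R⟩ := rx_of h (by omega)
  obtain ⟨R', e⟩ := rl_of h hn R ((dp_form h R).fr h (by omega))
  exact dt_of h R R' e fun _ _ hf => mem_I_of h (fr_fun h (by omega)) hf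

theorem t_zero (h : FD Q ∅ x) (k : ℤ) {q : ℕ} (hq : q + 1 < n) : DbV n (gx x ^ k) 0 q :=
  (fr_fun h (by omega)).van h ((fr_fun h (by omega)).lfp h) k hq

theorem t_top (h : FD Q ∅ x) (k : ℤ) {q : ℕ} (hq : q + 1 < n) : DbV n (gx x ^ k) n q := by
  obtain ⟨R⟩ := rx_of h (by omega)
  have hF := (dp_form h R).fr h (by omega)
  exact hF.van h (hF.lfp h) k hq

theorem t_dual [MeasurableSpace X] [BorelSpace X] (h : FD Q ∅ x) (hn : 2 ≤ n) (k : ℤ) {q : ℕ}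
    (hq : q + 1 = n) {ψ : Fm n X} (hψ : Sm (gx x ^ (-k)) ψ univ) (ht : Ty 0 (q + 1) ψ)
    (h0 : ∀ α : Fm n X, Ty n 0 α → (∀ p, HFm (gx x ^ k) α p) → itg (α * ψ) = 0) :
    ∃ β : Fm n X, Sm (gx x ^ (-k)) β univ ∧ Ty 0 q β ∧ dbar (gx x ^ (-k)) β = ψ := by
  obtain ⟨R⟩ := t_rl h hn
  have hF := fr_fun h (by omega)
  have hT := hF.top h (hF.lfp h) (-k) hq
  refine dual_of h R k hq ?_ hψ ht h0
  rw [Q.finrank_og]
  have e : ∀ i, -(-k - Q.b.dg i) - ((n + 1 : ℕ) : ℤ) = k - (((n + 1 : ℕ) : ℤ) - Q.b.dg i) :=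
    fun i => by ring
  rw [Finset.sum_congr rfl fun i _ => congrArg (fun j => Module.finrank ℂ (hz (n + 1) j)) (e i)]
    at hT
  exact hT

theorem t_h0 (h : FD Q ∅ x) (hn : 2 ≤ n) (k : ℤ) {s : X → ℂ}
    (hs : ∀ p, HolAt (gx x ^ k) s p) : ∃ f ∈ hz m k, s = ev x f :=
  h_zero_of h hn (fr_fun h (by omega)) k hs

theorem t_conn (h : FD Q ∅ x) (hn : 2 ≤ n) : PreconnectedSpace X :=
  connected_of (x := x) fun _ hs => t_h0 h hn 0 hs

theorem t_open (h : FD Q Pts x) (hn : 2 < n) (k : ℤ) {α : Fm n X}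
    (hα : Sm (gx x ^ k) α (Q.O Pts x)) (ht : Ty n 1 α)
    (h0 : ∀ p ∈ Q.O Pts x, dbar (gx x ^ k) α p = 0) :
    ∃ β : Fm n X, Sm (gx x ^ k) β (Q.O Pts x) ∧ Ty n 0 β ∧
      ∀ p ∈ Q.O Pts x, dbar (gx x ^ k) β p = α p := by
  obtain ⟨R⟩ := rx_of h (by omega)
  have hF := (dp_form h R).fr h (by omega)
  exact hF.van_open h hn (hF.lfp h) k hα ht h0

end

end Pool.Agent.MP_1c689d_ag.K0.Fd

end

section

/-! Interface: cohomology of arithmetically Cohen-Macaulay varieties. -/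

set_option autoImplicit false

open Complex Filter Topology Set MeasureTheory MvPolynomial
open scoped ComplexConjugate ContDiff ENNReal

namespace Pool.Agent.MP_1c689d_ag.K0

noncomputable section

variable {n m c r : ℕ} {X : Type} [TopologicalSpace X] [Mf n X] {Q : PD m (n + 1) c r}
  {Pts : Finset (Fin (n + 1) → ℂ)} {x : X → Fin m → ℂ}

theorem FD.exists_rl (h : FD Q Pts x) (hn : 2 ≤ n) : Nonempty (RL Q Pts x) :=
  Fd.t_rl h hn

theorem FD.exists_dt (h : FD Q Pts x) (hn : 2 ≤ n) (hp : Q.I.IsPrime) : Nonempty (DT Q) :=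
  Fd.t_dt h hn

theorem FD.van_zero (h : FD Q ∅ x) (k : ℤ) {q : ℕ} (hq : q + 1 < n) : DbV n (gx x ^ k) 0 q :=
  Fd.t_zero h k hq

theorem FD.van_top (h : FD Q ∅ x) (k : ℤ) {q : ℕ} (hq : q + 1 < n) : DbV n (gx x ^ k) n q :=
  Fd.t_top h k hq

/-- Serre duality in top degree. -/
theorem FD.dual [MeasurableSpace X] [BorelSpace X] (h : FD Q ∅ x) (hn : 2 ≤ n) (k : ℤ) {q : ℕ}
    (hq : q + 1 = n) {ψ : Fm n X} (hψ : Sm (gx x ^ (-k)) ψ univ) (ht : Ty 0 (q + 1) ψ)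
    (h0 : ∀ α : Fm n X, Ty n 0 α → (∀ p, HFm (gx x ^ k) α p) → itg (α * ψ) = 0) :
    ∃ β : Fm n X, Sm (gx x ^ (-k)) β univ ∧ Ty 0 q β ∧ dbar (gx x ^ (-k)) β = ψ :=
  Fd.t_dual h hn k hq hψ ht h0

theorem FD.h_zero (h : FD Q ∅ x) (hn : 2 ≤ n) (k : ℤ) {s : X → ℂ}
    (hs : ∀ p, HolAt (gx x ^ k) s p) : ∃ f ∈ hz m k, s = ev x f :=
  Fd.t_h0 h hn k hs

theorem FD.connected (h : FD Q ∅ x) (hn : 2 ≤ n) : PreconnectedSpace X :=
  Fd.t_conn h hn

/-- `H¹ (O, K (k)) = 0` on the open threefold. -/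
theorem FD.van_open {X : Type} [TopologicalSpace X] [Mf 3 X] {Q : PD m 4 c r}
    {Pts : Finset (Fin 4 → ℂ)} {x : X → Fin m → ℂ} (h : FD Q Pts x) (k : ℤ) {α : Fm 3 X}
    (hα : Sm (gx x ^ k) α (Q.O Pts x)) (ht : Ty 3 1 α)
    (h0 : ∀ p ∈ Q.O Pts x, dbar (gx x ^ k) α p = 0) :
    ∃ β : Fm 3 X, Sm (gx x ^ k) β (Q.O Pts x) ∧ Ty 3 0 β ∧
      ∀ p ∈ Q.O Pts x, dbar (gx x ^ k) β p = α p :=
  Fd.t_open h (by norm_num) k hα ht h0

end

end Pool.Agent.MP_1c689d_ag.K0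

end

section

/-! Residues along a good surface. -/

set_option autoImplicit false

open Complex Filter Topology Set MeasureTheory MvPolynomial
open scoped ComplexConjugate ContDiff ENNReal

namespace Pool.Agent.MP_1c689d_ag.K0

noncomputable section

variable {m c r : ℕ} {X : Type} [TopologicalSpace X] [Mf 3 X] {Q : PD m 4 c r}
  {Pts : Finset (Fin 4 → ℂ)} {x : X → Fin m → ℂ} {σ : P m} {ν : ℕ}

theorem RES_smul (hg : Good Q Pts σ ν) {k : ℤ} {t : Q.Om} (ht : t ∈ Q.og k) :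
    σ • t ∈ Q.og (k + ν) := by
  rw [add_comm]
  exact Q.og_smul (mem_hz_nat.2 hg.hom) ht

theorem RES_add {H : Div 2 X} {A A' : Fm 3 X} {γ γ' : Fm 2 H.T} (h : H.IsRes A γ)
    (h' : H.IsRes A' γ') : H.IsRes (A + A') (γ + γ') := by
  intro p
  obtain ⟨b, h1, h2⟩ := h p
  obtain ⟨b', h3, h4⟩ := h' p
  exact ⟨b + b', by rw [Pi.add_apply, h1, h3, mul_add], by rw [map_add, h2, h4, Pi.add_apply]⟩

theorem RES_csmul {H : Div 2 X} {A : Fm 3 X} {γ : Fm 2 H.T} (c : ℂ) (h : H.IsRes A γ) :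
    H.IsRes (c • A) (c • γ) := by
  intro p
  obtain ⟨b, h1, h2⟩ := h p
  exact ⟨c • b, by rw [Pi.smul_apply, h1, mul_smul_comm], by rw [map_smul, h2, Pi.smul_apply]⟩

theorem dvs_S (hF : FD Q Pts x) (hg : Good Q Pts σ ν) : (dvs hF hg).S = {p | ev x σ p = 0} := by
  ext p
  exact ⟨fun h => h.2, fun h => ⟨hg.off _ (hF.onc p) h, h⟩⟩

theorem dvs_compact (hF : FD Q Pts x) (hg : Good Q Pts σ ν) : IsCompact (dvs hF hg).S := by
  have := hF.cpt
  rw [dvs_S]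
  exact (isClosed_ev hF.pm hg.hom).isCompact

theorem dvs_D (hF : FD Q Pts x) (hg : Good Q Pts σ ν) : (dvs hF hg).D = gv x (Dx x) σ := by
  funext p
  exact (hF.pm p).dp_ev (mem_hz_nat.2 hg.hom)

/-- Use `exists_cut` and `Emb.imm`. -/
theorem dvs_fd (hF : FD Q Pts x) (hg : Good Q Pts σ ν) :
    ∃ Q' : PD m 3 (c + 1) (r + 1), Q'.F = Fin.cons σ Q.F ∧ (∀ i, Q'.yi i = Q.yi i.succ) ∧
      FD Q' ∅ (x ∘ (dvs hF hg).val) ∧
      (∀ j : ℤ, Module.finrank ℂ (Q'.og j) + Module.finrank ℂ (Q.og j) =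
        Module.finrank ℂ (Q.og (j + ν))) ∧ ∀ t : Q.Om, σ • t = 0 → t = 0 := by
  obtain ⟨Q', h1, h2, h3, h4, h5⟩ := exists_cut Q Pts hg
  have he := (dvs hF hg).emb
  refine ⟨Q', h1, h2, ⟨(dvs hF hg).compactSpace (dvs_compact hF hg),
    fun p => (hF.pm _).comp (he.hm p), fun p => ⟨(hF.onc _).1, fun j => ?_⟩, h3,
    fun p _ => he.imm (hF.pm _) (hF.imm _ ((dvs hF hg).val_mem p).1),
    fun p p' _ h => he.emb.injective (hF.inj _ _ ((dvs hF hg).val_mem p).1 h),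
    fun v hv _ => ?_⟩, h4, h5⟩
  · rw [h1]
    exact Fin.cases ((dvs hF hg).val_mem p).2 (fun j => (hF.onc _).2 j) j
  · have a1 : Q.OnC v := ⟨hv.1, fun j => by have := hv.2 j.succ; rwa [h1] at this⟩
    have a2 : eval v σ = 0 := by have := hv.2 0; rwa [h1] at this
    obtain ⟨p, t, hp⟩ := hF.surj v a1 (hg.off v a1 a2)
    have a3 : p ∈ (dvs hF hg).S := by
      rw [dvs_S]
      change eval (x p) σ = 0
      rw [hp, hz_eval_smul (mem_hz_nat.2 hg.hom), a2, mul_zero]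
    exact ⟨⟨p, a3⟩, t, hp⟩

theorem res_exists (hF : FD Q Pts x) (hg : Good Q Pts σ ν) (R : RL Q Pts x) {k : ℤ} {w : Q.Om}
    (hw : w ∈ Q.og (k + ν)) : ∃ β : Fm 3 X, Sm (gx x ^ k) β univ ∧ Ty 2 0 β ∧
      (∀ᶠ y in 𝓝ˢ (dvs hF hg).S, R.rl w y = (dvs hF hg).D y * β y) ∧
      (dvs hF hg).IsRes (R.rl w) (pb (dvs hF hg).val β) ∧
      ∀ p, HFm (gx (x ∘ (dvs hF hg).val) ^ k) (pb (dvs hF hg).val β) p := by
  obtain ⟨β, h1, h2, h3, h4, h5⟩ := (dvs hF hg).exists_res (dvs_compact hF hg)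
    (G' := gx x ^ k) (G'' := gx x ^ (k + ν)) (fun p _ => (hF.pm p).gok_zpow k)
    (fun p _ => (hF.pm p).gz_add (add_comm _ _)) (fun p _ => (hF.pm p).gok_zpow _) (R.ty w)
    (fun p hp => R.hol _ w hw p hp.1)
  refine ⟨β, h1, h2, h3, h4, fun p => ?_⟩
  rw [gx_comp, ← gpb_zpow]
  exact h5 p

/-- `Div.hol_div`, `RL.surj`, `RL.inj`. -/
theorem res_ker (hF : FD Q Pts x) (hg : Good Q Pts σ ν) (R : RL Q Pts x) {k : ℤ} {w : Q.Om}
    (hw : w ∈ Q.og (k + ν)) (h0 : ∀ p ∈ (dvs hF hg).S, R.rl w p = 0) :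
    ∃ w' ∈ Q.og k, w = σ • w' := by
  obtain ⟨B, h1, h2⟩ := (dvs hF hg).hol_div
    (G' := gx x ^ k) (G'' := gx x ^ (k + ν)) (fun p _ => (hF.pm p).gok_zpow k)
    (fun p _ => (hF.pm p).gz_add (add_comm _ _)) (fun p _ => (hF.pm p).gok_zpow _) (R.ty w)
    (fun p hp => R.hol _ w hw p hp) h0
  obtain ⟨w', h3, h4⟩ := R.surj k B h1 fun p hp => (h2 p hp).1
  refine ⟨w', h3, sub_eq_zero.1 (R.inj (k + ν) _ (sub_mem hw (RES_smul hg h3)) fun p hp => ?_)⟩
  rw [map_sub, R.smul, Pi.sub_apply, (h2 p hp).2, Pi.smul_apply', h4 p hp]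
  exact sub_self _

/-- Otherwise `res_ker` shows that every element of `og j` is divisible by all powers of `σ`, but
`og j = 0` for `j` very negative and `og j ≠ 0` for some `j` (`exists_om`, `mem_og_iff`). -/
theorem dvs_nonempty (hF : FD Q Pts x) (hg : Good Q Pts σ ν) (h : Nonempty Q.b.ι) :
    Nonempty (dvs hF hg).T := by
  classical
  by_contra hne
  obtain ⟨R⟩ := hF.exists_rl (by norm_num)
  obtain ⟨i₀⟩ := h
  have step : ∀ k : ℤ, (∀ t ∈ Q.og k, t = 0) → ∀ t ∈ Q.og (k + ν), t = 0 := fun k hk t ht => by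
    obtain ⟨w, h1, h2⟩ := res_ker hF hg R ht fun p hp => (hne ⟨⟨p, hp⟩⟩).elim
    rw [h2, hk w h1, smul_zero]
  have iter : ∀ (N : ℕ) (k : ℤ), (∀ t ∈ Q.og k, t = 0) → ∀ t ∈ Q.og (k + N * ν), t = 0 := by
    intro N k hk
    induction N with
    | zero => simpa using hk
    | succ N ih =>
      have e : k + ((N + 1 : ℕ) : ℤ) * ν = k + N * ν + ν := by push_cast; ring
      rw [e]
      exact step _ ih
  obtain ⟨M, hM⟩ := Finite.exists_le Q.b.dg
  obtain ⟨N, hN⟩ : ∃ N : ℕ, M - Q.b.dg i₀ < N := exists_nat_gt _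
  have hν : (N : ℤ) ≤ N * ν :=
    le_mul_of_one_le_right (Nat.cast_nonneg N) (by exact_mod_cast hg.pos)
  have h0 : ∀ t ∈ Q.og ((4 : ℕ) - Q.b.dg i₀ - N * ν), t = 0 := fun t ht => by
    refine Q.AFB_oco_bij.1 (funext fun i => ?_)
    have h1 := (Q.mem_og_iff _ t).1 ht i
    rw [hz_neg (by linarith [hM i])] at h1
    rw [map_zero]
    exact h1
  obtain ⟨t, ht⟩ := Q.exists_om (Pi.single i₀ 1)
  have h1 : t = 0 := by
    refine iter N _ h0 t ((Q.mem_og_iff _ t).2 fun i => ?_)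
    rw [ht]
    by_cases hi : i = i₀
    · subst hi
      rw [Pi.single_eq_same, sub_add_cancel, sub_self]
      exact (mem_hz_nat (i := 0)).2 (isHomogeneous_one _ _)
    · rw [Pi.single_eq_of_ne hi]
      exact zero_mem _
  have h2 := ht i₀
  rw [h1, Pi.single_eq_same] at h2
  exact zero_ne_one h2

/-- The residue is a linear map from `og (k + ν)` to the holomorphic forms on the surface, a space
isomorphic to `Q'.og k` (`FD.exists_rl`); its kernel is `σ • og k`; count dimensions. -/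
theorem res_surj (hF : FD Q Pts x) (hg : Good Q Pts σ ν) (R : RL Q Pts x) {k : ℤ}
    {γ : Fm 2 (dvs hF hg).T} (ht : Ty 2 0 γ)
    (hγ : ∀ p, HFm (gx (x ∘ (dvs hF hg).val) ^ k) γ p) :
    ∃ w ∈ Q.og (k + ν), (dvs hF hg).IsRes (R.rl w) γ := by
  obtain ⟨Q', -, -, hF', hd, -⟩ := dvs_fd hF hg
  obtain ⟨R'⟩ := hF'.exists_rl le_rfl
  have hs : ∀ α : Fm 2 (dvs hF hg).T, Ty 2 0 α →
      (∀ p, HFm (gx (x ∘ (dvs hF hg).val) ^ k) α p) → ∃ t : Q'.og k, R'.rl t = α := by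
    intro α h1 h2
    obtain ⟨t, h3, h4⟩ := R'.surj k α h1 fun p _ => h2 p
    exact ⟨⟨t, h3⟩, funext fun p => h4 p (by rw [PD.O_empty]; trivial)⟩
  have hex : ∀ w : Q.og (k + ν), ∃ t : Q'.og k, (dvs hF hg).IsRes (R.rl w) (R'.rl t) := by
    intro w
    obtain ⟨β, -, h2, -, h4, h5⟩ := res_exists hF hg R w.2
    obtain ⟨t, h6⟩ := hs _ (fun p => pb_Tp ((dvs hF hg).emb.hm p) (h2 _)) h5
    exact ⟨t, h6 ▸ h4⟩
  have hu : ∀ {A : Fm 3 X} {t t' : Q'.og k}, (dvs hF hg).IsRes A (R'.rl t) →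
      (dvs hF hg).IsRes A (R'.rl t') → t = t' := by
    intro A t t' h1 h2
    refine Subtype.ext (sub_eq_zero.1 (R'.inj k _ (sub_mem t.2 t'.2) fun p _ => ?_))
    rw [map_sub, h1.unique h2, sub_self]
    rfl
  choose f hf using hex
  let ρ : Q.og (k + ν) →ₗ[ℂ] Q'.og k :=
    { toFun := f
      map_add' := fun a b => hu (hf (a + b)) (by
        rw [Submodule.coe_add, Submodule.coe_add, map_add, map_add]
        exact RES_add (hf a) (hf b))
      map_smul' := fun c a => hu (hf (c • a)) (by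
        rw [RingHom.id_apply, Submodule.coe_smul, Submodule.coe_smul, map_smul, map_smul]
        exact RES_csmul c (hf a)) }
  let μ : Q.og k →ₗ[ℂ] Q.og (k + ν) :=
    { toFun := fun t => ⟨σ • t.1, RES_smul hg t.2⟩
      map_add' := fun a b => Subtype.ext (smul_add σ a.1 b.1)
      map_smul' := fun c a => Subtype.ext (Q.ext' fun g => rfl) }
  have hk : LinearMap.ker ρ ≤ LinearMap.range μ := by
    intro w hw
    have h1 : f w = 0 := hw
    have h2 := hf w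
    rw [h1, Submodule.coe_zero, map_zero] at h2
    obtain ⟨w', h3, h4⟩ := res_ker hF hg R w.2 fun p hp => (h2.eq_zero_iff (R.ty _) ⟨p, hp⟩).1 rfl
    exact ⟨⟨w', h3⟩, Subtype.ext h4.symm⟩
  have h1 := LinearMap.finrank_range_add_finrank_ker ρ
  have h2 := (Submodule.finrank_mono hk).trans (LinearMap.finrank_range_le μ)
  have h3 := hd k
  have h4 : LinearMap.range ρ = ⊤ :=
    Submodule.eq_top_of_finrank_eq (le_antisymm (Submodule.finrank_le _) (by omega))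
  obtain ⟨t, h5⟩ := hs γ ht hγ
  obtain ⟨w, h6⟩ := LinearMap.range_eq_top.1 h4 t
  refine ⟨w, w.2, ?_⟩
  rw [← h5, ← h6]
  exact hf w

end

end Pool.Agent.MP_1c689d_ag.K0

end

section

/-! The comparison with singular cohomology. -/

set_option autoImplicit false

open Complex Filter Topology Set MeasureTheory
open scoped ComplexConjugate ContDiff ENNReal

namespace Pool.Agent.MP_1c689d_ag.K0

open SD

noncomputable section

variable {n : ℕ} {X : Type} [TopologicalSpace X]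

theorem zz_sup {p : ℕ} {S : Set C(Sx p, X)} {c : Ch X p} :
    c ∈ Sup S ↔ (c.support : Set C(Sx p, X)) ⊆ S := by
  rw [← Finsupp.mem_supported ℚ, Finsupp.supported_eq_span_single]
  rfl

theorem zz_sdn {p : ℕ} {K : Set X} {c : Ch X p} (h : c ∈ Sup {σ | range σ ⊆ K}) (N : ℕ) :
    SdN N c ∈ Sup {σ | range σ ⊆ K} := by
  refine Sup_map (SdN N) _ (fun σ hσ => ?_) h
  rw [show sg σ = push σ (idS p) by rw [push_sg, ContinuousMap.comp_id], SdN_push]
  refine Sup_map (push σ) _ (fun τ _ => ?_) (mem_Sup_univ _)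
  rw [push_sg]
  exact sg_mem ((range_comp_subset_range τ σ).trans hσ)

theorem zz_ext1 {p : ℕ} (ψ : C(Sx p, X) → ℂ) (σ : C(Sx (p + 1), X)) :
    ext1 ψ (bd (sg σ)) = zcob ψ σ := by
  simp only [bd_sg, zcob, map_sum, map_smul, ext1_sg]
  refine Finset.sum_congr rfl fun j _ => ?_
  rw [← Int.cast_smul_eq_zsmul ℚ]
  push_cast
  rfl

/-- A cocycle that is locally a coboundary near `K` kills the cycles in `K`. -/
theorem zz_kill {i : ℕ} {φ : C(Sx (i + 1), X) → ℚ} (hφ : ∀ σ, cob φ σ = 0) {K : Set X}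
    (hK : IsClosed K) {ψ : C(Sx i, X) → ℂ}
    (h : ∀ x ∈ K, ∃ W ∈ 𝓝 x, ∀ σ : C(Sx (i + 1), X), range σ ⊆ W → zcob ψ σ = φ σ)
    {c : Ch X (i + 1)} (hc : c ∈ Sup {σ | range σ ⊆ K}) (h0 : bd c = 0) : ext1 φ c = 0 := by
  obtain ⟨N, hN⟩ := small {V | IsOpen V ∧ (V = Kᶜ ∨
      ∀ σ : C(Sx (i + 1), X), range σ ⊆ V → zcob ψ σ = φ σ)} (fun V hV => hV.1) (fun x => by
    by_cases hx : x ∈ K
    · obtain ⟨W, h1, h2⟩ := h x hx
      exact ⟨interior W, ⟨isOpen_interior, Or.inr fun σ hσ => h2 σ (hσ.trans interior_subset)⟩,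
        mem_interior_iff_mem_nhds.2 h1⟩
    · exact ⟨Kᶜ, ⟨hK.isOpen_compl, Or.inl rfl⟩, hx⟩) c
  obtain ⟨w, hw⟩ := SdN_hom N c h0
  have h1 := ext1_bd_zero φ hφ w
  rw [hw, map_sub, sub_eq_zero] at h1
  have h3 : ∀ σ ∈ ((SdN N c).support : Set C(Sx (i + 1), X)), zcob ψ σ = φ σ := fun σ hσ => by
    obtain ⟨V, ⟨-, e | hV⟩, h3⟩ := zz_sup.1 hN hσ
    · exact absurd (zz_sup.1 (zz_sdn hc N) hσ (mem_range_self (vx 0))) (e ▸ h3 (vx 0) :)
    · exact hV σ (range_subset_iff.2 h3)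
  have h2 := Sup_eq ((Algebra.linearMap ℚ ℂ).comp (ext1 φ)) ((ext1 ψ).comp bd) (fun σ hσ => by
    rw [LinearMap.comp_apply, LinearMap.comp_apply, zz_ext1, ext1_sg, h3 σ hσ,
      Algebra.linearMap_apply, eq_ratCast]) (mem_Sup_support (SdN N c))
  rw [LinearMap.comp_apply, LinearMap.comp_apply, bd_SdN, h0, map_zero, map_zero, h1,
    Algebra.linearMap_apply, eq_ratCast] at h2
  exact_mod_cast h2

variable [Mf n X]

theorem zz_restr [CompactSpace X] {U : Set X} {i : ℕ}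
    (h : ∀ ζ : Fm n X, Cl (i + 1) ζ univ → ∀ K, IsCompact K → K ⊆ U → ExN i ζ K) :
    RestrictionZero U i := by
  refine restrictionZero_of_cycles U i fun φ hφ c hc => ?_
  set c' := push (⟨Subtype.val, continuous_subtype_val⟩ : C(U, X)) c with hc'
  have hK : IsCompact (⋃ σ ∈ c'.support, range σ) :=
    c'.support.isCompact_biUnion fun σ _ => isCompact_range σ.continuous
  have hU : c' ∈ Sup {σ | range σ ⊆ U} := Sup_map (push _) _ (fun τ _ => by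
    rw [push_sg]
    exact sg_mem (range_subset_iff.2 fun s => (τ s).2)) (mem_Sup_univ c)
  have hF : (zfc n X).sc.Res (zsi X _ ∘ zfu n X) := sc_res zfc_res fun x O => zz_cn_mf n x
  have hS : (zkc X).sc.Res (zsi X ℂ ∘ id) := sc_res zkc_res fun x O => zz_cn_mf n x
  have hm := zsm_hom (zkc_hom (zfc_res (n := n) (X := X)))
  let s : ZM X ℂ := Pi.single (i + 1) fun σ => (φ σ : ℂ)
  have s1 : ∀ σ, s (i + 1) σ = φ σ := fun σ => by simp only [s, Pi.single_eq_same]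
  have s2 : ∀ p ≠ i + 1, s p = 0 := fun p hp => Pi.single_eq_of_ne hp _
  have hs : s ∈ (zkc X).sc.G (i + 1) := fun p σ => by
    refine ⟨fun r e => ?_, fun e => congrFun (s2 p e.ne') σ⟩
    rcases r with _ | r
    · trivial
    · exact congrFun (s2 p (by omega)) σ
  have ds : (zkc X).sc.d s = 0 := by
    funext p σ
    rcases p with _ | p
    · rfl
    · change zcob (s p) σ + _ • (0 : ℂ) = 0
      rw [smul_zero, add_zero]
      by_cases e : p = i + 1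
      · subst e
        have := congrArg (fun t : ℚ => (t : ℂ)) (hφ σ)
        simpa [zcob, s1, cob] using this
      · rw [s2 p e]
        exact zcob_zero σ
  obtain ⟨ζ, hζ, t, ht, h1, h2⟩ := ZC.surj (zsi_hom (zfc n X)) zfc_fine (sc_fine _) zfc_res hF
    isCompact_univ (hm.G _ s hs) fun x _ => by
      rw [← hm.d, ds, map_zero]
      exact ZC.N_zero _ x
  obtain ⟨κ, hκ, h3⟩ := zz_of_exN hK (h ζ.1
    ⟨ζ.2, hζ, fun p hp => (zfc_N.1 (h1 hp)).self_of_nhds⟩ _ hK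
    (iUnion₂_subset fun σ hσ => zz_sup.1 hU hσ))
  have e : zsi X _ ∘ zfu n X = zsm X (zfu n X) ∘ zsi X ℂ ∘ id :=
    funext fun c => (zsm_zsi (zfu n X) c).symm
  obtain ⟨ψ, -, h4⟩ := ZC.inj hm (sc_fine _) (sc_fine _) hS
    (e ▸ hF) hK hs
    (add_mem ((zsi_hom _).G i κ hκ) ht) (fun x _ => ds ▸ ZC.N_zero _ x) fun x hx =>
      ZC.N_of_eq (ZC.N_add ((zsi_hom _).N _ (h3 hx)) (h2 (mem_univ x))) (by
        rw [map_add, map_sub, (zsi_hom _).d]
        abel)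
  refine zz_kill hφ hK.isClosed (ψ := ψ i) (fun x hx => ?_)
    (zz_sup.2 fun σ hσ => subset_biUnion_of_mem (u := fun σ : C(Sx (i + 1), X) => range σ) hσ)
    (by rw [hc', bd_push, hc, map_zero])
  obtain ⟨W, w1, w2⟩ := h4 hx
  refine ⟨W, w1, fun σ hσ => ?_⟩
  have h5 : zcob (ψ i) σ + _ • (0 : ℂ) - s (i + 1) σ = 0 := w2 (i + 1) σ hσ (mem_of_mem_nhds w1)
  rwa [smul_zero, add_zero, s1, sub_eq_zero] at h5

end

end Pool.Agent.MP_1c689d_ag.K0

end

section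

/-! Interface: de Rham cohomology. -/

set_option autoImplicit false

open Complex Filter Topology Set MeasureTheory
open scoped ComplexConjugate ContDiff ENNReal

namespace Pool.Agent.MP_1c689d_ag.K0

noncomputable section

variable {n : ℕ} {X : Type} [TopologicalSpace X] [Mf n X]

/-- Poincaré duality for germs. -/
theorem pd_germ [MeasurableSpace X] [BorelSpace X] {U K : Set X} (hU : IsOpen U)
    (hK : IsCompact K) (hKU : K ⊆ U) {k k' : ℕ} (hk : k + 1 + k' = 2 * n) {α : Fm n X}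
    (hα : Cl (k + 1) α U) (h : ∀ β : Fm n X, Cl k' β univ → HasCompactSupport β →
      tsupport β ⊆ U → itg (α * β) = 0) : ExN k α K :=
  zz_pd_germ hU hK hKU hk hα h

theorem pd_compact [MeasurableSpace X] [BorelSpace X] [CompactSpace X] {k k' : ℕ}
    (hk : k + 1 + k' = 2 * n) {α : Fm n X} (hα : Cl (k + 1) α univ)
    (h : ∀ β : Fm n X, Cl k' β univ → itg (α * β) = 0) : Ex k α :=
  zz_pd_compact hk hα h

theorem fin_h [CompactSpace X] (k : ℕ) : ∃ (s : ℕ) (α : Fin s → Fm n X),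
    (∀ i, Cl (k + 1) (α i) univ) ∧ ∀ β : Fm n X, Cl (k + 1) β univ →
      ∃ c : Fin s → ℂ, Ex k (β - ∑ i, c i • α i) :=
  zz_fin_h k

/-- The comparison with singular cohomology. -/
theorem restrictionZero_of_exN [CompactSpace X] {U : Set X} (hU : IsOpen U) {i : ℕ}
    (h : ∀ ζ : Fm n X, Cl (i + 1) ζ univ → ∀ K, IsCompact K → K ⊆ U → ExN i ζ K) :
    RestrictionZero U i :=
  zz_restr h

variable {S Y : Type} [TopologicalSpace S] [Mf n S] [CompactSpace S] [TopologicalSpace Y]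
  [Mf (n + 1) Y] {f : S → Y}

/-- Closed forms extend to a neighbourhood up to exact forms. -/
theorem taut_one (hf : Emb f) {k : ℕ} {θ : Fm n S} (hθ : Cl (k + 1) θ univ) :
    ∃ (U : Set Y) (θ' : Fm (n + 1) Y), IsOpen U ∧ range f ⊆ U ∧ Cl (k + 1) θ' U ∧
      Ex k (pb f θ' - θ) :=
  zz_taut_one hf hθ

theorem taut_two (hf : Emb f) {k : ℕ} {U : Set Y} (hU : IsOpen U) (hfU : range f ⊆ U)
    {θ : Fm (n + 1) Y} (hθ : Cl (k + 1) θ U) (h : Ex k (pb f θ)) : ExN k θ (range f) :=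
  zz_taut_two hf hU hfU hθ h

end

end Pool.Agent.MP_1c689d_ag.K0

end

section

/-! Residue formulas near a compact hypersurface. -/

set_option autoImplicit false

open Complex Filter Topology Set MeasureTheory MvPolynomial
open scoped ComplexConjugate ContDiff ENNReal

namespace Pool.Agent.MP_1c689d_ag.K0

noncomputable section

variable {n : ℕ} {X : Type} [TopologicalSpace X] [Mf (n + 1) X]

theorem ENFRf_gi (H : Div n X) (y : X) : gi (H.L y) = -H.L y := by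
  have hD1 : H.D y ∈ Dg (n + 1) (1 + 0) := Tp_le_Dg (p := 1) (q := 0) (H.D_Ty y)
  have hL1 : H.L y ∈ Dg (n + 1) 1 := (Dg (n + 1) 1).smul_mem (H.σ y)⁻¹ hD1
  rw [gi_of_Dg hL1, pow_one, neg_one_smul]

theorem ENFRf_ev {χ : X → ℂ} {y : X} (hy : y ∉ tsupport χ) :
    ∀ᶠ z in 𝓝 y, χ z = 0 ∧ dd (fn (n + 1) χ) z = 0 := by
  have h : ∀ᶠ z in 𝓝 y, χ z = 0 := notMem_tsupport_iff_eventuallyEq.1 hy
  filter_upwards [h.eventually_nhds] with z hz
  refine ⟨hz.self_of_nhds, RESF_dd0 (hz.mono fun w hw => ?_)⟩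
  simp only [fn, hw, map_zero]

theorem ENFRf_sm {ρ : X → ℂ} {α : Fm (n + 1) X} {y : X} (hρ : SmAt 1 (fn (n + 1) ρ) y)
    (h : y ∈ tsupport ρ → SmAt 1 α y) :
    SmAt 1 (ρ • α) y ∧ SmAt 1 (dd (fn (n + 1) ρ) * α) y := by
  by_cases hy : y ∈ tsupport ρ
  · exact ⟨hρ.fsmul_one (h hy), hρ.dd.mul_left (h hy)⟩
  · refine ⟨smAt_of_eventually_zero ((ENFRf_ev (n := n) hy).mono fun z hz => ?_),
      smAt_of_eventually_zero ((ENFRf_ev (n := n) hy).mono fun z hz => ?_)⟩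
    · rw [Pi.smul_apply', hz.1, zero_smul]
    · rw [Pi.mul_apply, hz.2, zero_mul]

/-- At `p` the form `D * dd ψ - σ • (cur G * ψ + dd c)` is smooth with values in `G` and vanishes at
the points near `p` where `σ ≠ 0` (apply `dd` to the identity, which holds near such a point;
`dd_dd`, `dd_L`); `Div.frequently_ne`, `SmAt.eq_zero_of_frequently`, `Div.lm_of_mul`, `pb_dd`. -/
theorem ENF_rc (H : Div n X) {Ω Γ ψ c : Fm (n + 1) X} (hψ : Sm 1 ψ H.S) (hc : Sm 1 c H.S)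
    (h : ∀ᶠ y in 𝓝ˢ H.S, H.σ y ≠ 0 →
      SmAt 1 Γ y ∧ dd Ω y = 0 ∧ Ω y = dd Γ y + H.L y * ψ y + c y) :
    dd (pb H.val ψ) = 0 := by
  borelize X
  funext p
  obtain ⟨hpO, hp0⟩ := H.val_mem p
  have hpS : H.val p ∈ H.S := ⟨hpO, hp0⟩
  have h1 := eventually_nhdsSet_iff_forall.1 h _ hpS
  have sψ := hψ _ hpS
  have sc := hc _ hpS
  have hG := H.ok _ hpO
  have hs : SmAt H.G (H.D * dd ψ - H.σ • (cur H.G * ψ + dd c)) (H.val p) := by
    refine ((H.D_sm hpO).mul_right sψ.dd).sub ?_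
    rw [← fn_mul]
    exact (H.hol _ hpO).smAt.mul_right (((cur_sm hG).mul_left sψ).add sc.dd)
  have h0 := hs.eq_zero_of_frequently hG (by
    refine (H.frequently_ne hpO).mp ?_
    filter_upwards [h1.eventually_nhds, sψ.eventually gok_one, sc.eventually gok_one,
      H.op.mem_nhds hpO] with y h2 h3 h4 h5 h6
    have hL := H.L_sm h5 h6
    have hne := (H.hol y h5).smAt.fn_ne (H.ok y h5) h6
    obtain ⟨a1, a2, -⟩ := h2.self_of_nhds h6
    have e : Ω =ᶠ[𝓝 y] dd Γ + H.L * ψ + c := by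
      filter_upwards [h2, hne] with z h7 h8
      exact (h7 h8).2.2
    rw [dd_congr e, dd_add (a1.dd.add (hL.mul_left h3)) h4, dd_add a1.dd (hL.mul_left h3),
      dd_dd a1, dd_mul hL h3, H.dd_L h5 h6, ENFRf_gi, zero_add] at a2
    have e2 : cur H.G y * ψ y + dd c y = H.L y * dd ψ y := by
      rw [← sub_eq_zero, ← a2, neg_mul]
      abel
    have e3 : H.L y = (H.σ y)⁻¹ • H.D y := rfl
    simp only [Pi.sub_apply, Pi.mul_apply, Pi.smul_apply', Pi.add_apply]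
    rw [e2, e3, smul_mul_assoc, smul_smul, mul_inv_cancel₀ h6, one_smul, sub_self])
  rw [← pb_dd (H.HYP_hm p) sψ]
  refine H.lm_of_mul p ?_
  rwa [Pi.sub_apply, Pi.smul_apply', hp0, zero_smul, sub_zero] at h0

theorem Tb.sub {U S : Set X} {χ : X → ℂ} (h : Tb (n + 1) U χ S) : S ⊆ U := by
  refine fun y hy => h.supp (subset_tsupport _ ?_)
  rw [Function.mem_support, h.one.self_of_nhdsSet y hy]
  exact one_ne_zero

variable [MeasurableSpace X] [BorelSpace X]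

/-- `sm_dchi_mul` with `K = tsupport χ`. -/
theorem ENF_intg {U S : Set X} {χ : X → ℂ} (hT : Tb (n + 1) U χ S) (hS : IsClosed S)
    {Ω : Fm (n + 1) X} (h : Sm 1 Ω (U \ S)) : Intg (dd (fn (n + 1) χ) * Ω) := by
  refine (sm_dchi_mul hT.op hT.bump.cs hT.supp hS hT.bump.sm h
    (fun y hy => eventually_nhdsSet_iff_forall.1 hT.one y hy.1) fun y hy => ?_).2
  rw [Pi.mul_apply, (ENFRf_ev (n := n) hy).self_of_nhds.2, zero_mul]

/-- Let `W ⊆ U` be an open neighbourhood of `S` on which the last hypothesis holds and `ψ`, `c` are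
smooth, `ρ` a cut-off function for `S ⊆ W` (`exists_cutoff`). `itg_dchi_exact` for `ρ • Γ`, and
`Div.exists_resf` for `Ω' = Ω - dd (ρ • Γ)`, `ψ' = ρ • ψ`, `c' = ρ • c + (1 - ρ) • Ω - dρ * Γ`
(`1 - ρ` and `dρ` vanish near `S`), `K = tsupport χ`; `χ = ρ = 1` on `S`. -/
theorem ENF_rf (H : Div n X) (hS : IsCompact H.S) : ∃ κ : ℂ, κ ≠ 0 ∧
    ∀ (U : Set X) (χ : X → ℂ) (Ω Γ ψ c : Fm (n + 1) X), U ⊆ H.O → Tb (n + 1) U χ H.S →
      (∀ y ∈ U, H.σ y ≠ 0 → SmAt 1 Ω y ∧ dd Ω y = 0) → Sm 1 ψ H.S → Sm 1 c H.S →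
      (∀ᶠ y in 𝓝ˢ H.S, H.σ y ≠ 0 → SmAt 1 Γ y ∧ Ω y = dd Γ y + H.L y * ψ y + c y) →
      itg (dd (fn (n + 1) χ) * Ω) = κ * itg (pb H.val ψ) := by
  obtain ⟨κ, hκ, hres⟩ := H.exists_resf
  refine ⟨κ, hκ, fun U χ Ω Γ ψ c hUO hT hΩ hψ hc h => ?_⟩
  have h1 : ∀ᶠ y in 𝓝ˢ H.S, SmAt 1 ψ y ∧ SmAt 1 c y :=
    eventually_nhdsSet_iff_forall.2 fun y hy =>
      ((hψ y hy).eventually gok_one).and ((hc y hy).eventually gok_one)
  obtain ⟨W, hW, hSW, hWs⟩ := mem_nhdsSet_iff_exists.1 (h1.and h)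
  obtain ⟨ρ, hρ, hρW, hρ1⟩ := exists_cutoff (n := n + 1) hS hW hSW
  have hw := fun y (hy : y ∈ tsupport ρ) => hWs (hρW hy)
  have hne : ∀ y ∈ U \ H.S, H.σ y ≠ 0 := fun y hy h0 => hy.2 ⟨hUO hy.1, h0⟩
  have hρs := fun y => hρ.sm y (mem_univ y)
  have sΓ : ∀ y, H.σ y ≠ 0 → SmAt 1 (ρ • Γ) y ∧ SmAt 1 (dd (fn (n + 1) ρ) * Γ) y :=
    fun y h0 => ENFRf_sm (hρs y) fun hy => ((hw y hy).2 h0).1
  have hχ0 : ∀ (α : Fm (n + 1) X), ∀ y ∉ tsupport χ, (dd (fn (n + 1) χ) * α) y = 0 :=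
    fun α y hy => by rw [Pi.mul_apply, (ENFRf_ev (n := n) hy).self_of_nhds.2, zero_mul]
  have e1 : itg (dd (fn (n + 1) χ) * dd (ρ • Γ)) = 0 :=
    itg_dchi_exact hT.op hT.bump.cs hT.supp hS.isClosed hT.bump.sm
      (fun y hy => (sΓ y (hne y hy)).1)
      (fun y hy => eventually_nhdsSet_iff_forall.1 hT.one y hy.1) (hχ0 _)
  have e2 := hres U (tsupport χ) χ (ρ • ψ)
    (ρ • c + (Ω - ρ • Ω) - dd (fn (n + 1) ρ) * Γ) (Ω - dd (ρ • Γ)) hT.op hUO hT.bump.cs hT.supp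
    hT.bump.sm (fun y _ => (ENFRf_sm (hρs y) fun hy => (hw y hy).1.1).1) (fun y hy => ?_)
    (fun y hy => ?_) (fun y hy h0 => ⟨?_, ?_⟩)
  · rw [mul_sub, itg_sub (ENF_intg hT hS.isClosed fun y hy => (hΩ y hy.1 (hne y hy)).1)
      (ENF_intg hT hS.isClosed fun y hy => (sΓ y (hne y hy)).1.dd), e1, sub_zero] at e2
    rw [e2]
    congr 2
    funext p
    have hp : H.val p ∈ H.S := H.val_mem p
    refine pb_congr EventuallyEq.rfl ?_
    rw [Pi.smul_apply', Pi.smul_apply', hT.one.self_of_nhdsSet _ hp, hρ1.self_of_nhdsSet _ hp,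
      one_smul, one_smul]
  · have a := (ENFRf_sm (hρs y) fun hy => (hw y hy).1.2).1
    by_cases h0 : H.σ y = 0
    · have b := eventually_nhdsSet_iff_forall.1 hρ1 y ⟨hUO hy, h0⟩
      refine (a.add (smAt_of_eventually_zero (b.mono fun z hz => ?_))).sub
        (smAt_of_eventually_zero ((RESF_one (m := n + 1) b).mono fun z hz => ?_))
      · rw [Pi.sub_apply, Pi.smul_apply', hz, one_smul, sub_self]
      · rw [Pi.mul_apply, hz, zero_mul]
    · exact (a.add ((hΩ y hy h0).1.sub ((hρs y).fsmul_one (hΩ y hy h0).1))).sub (sΓ y h0).2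
  · rw [(ENFRf_ev (n := n) hy).self_of_nhds.1, zero_smul, zero_smul]
    exact ⟨rfl, rfl, hχ0 _ y hy⟩
  · simp only [Pi.sub_apply, Pi.add_apply, Pi.mul_apply, Pi.smul_apply']
    by_cases hy' : y ∈ tsupport ρ
    · obtain ⟨b1, b2⟩ := (hw y hy').2 h0
      rw [RESF_fs (hρs y) b1, mul_smul_comm, congrArg (ρ y • ·) b2, smul_add, smul_add]
      abel
    · have b := ENFRf_ev (n := n) hy'
      rw [RESF_dd0 (α := ρ • Γ) (b.mono fun z hz => by rw [Pi.smul_apply', hz.1, zero_smul]),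
        b.self_of_nhds.1, b.self_of_nhds.2]
      simp only [zero_smul, mul_zero, zero_mul, sub_zero, zero_add]
  · rw [dd_sub (hΩ y hy h0).1 (sΓ y h0).1.dd, (hΩ y hy h0).2, dd_dd (sΓ y h0).1, sub_zero]

end

end Pool.Agent.MP_1c689d_ag.K0

end

section

/-! Closed two-forms on a compact surface: duality. -/

set_option autoImplicit false

open Complex Filter Topology Set MeasureTheory MvPolynomial
open scoped ComplexConjugate ContDiff ENNReal

namespace Pool.Agent.MP_1c689d_ag.K0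

noncomputable section

variable {S : Type} [TopologicalSpace S] [Mf 2 S] [MeasurableSpace S] [BorelSpace S]

/-- The closed two-forms. -/
def ENFSa_Z (S : Type) [TopologicalSpace S] [Mf 2 S] : Submodule ℂ (Fm 2 S) where
  carrier := {θ | Cl 2 θ univ}
  add_mem' := fun {a b} ha hb => ⟨fun p hp => (ha.sm p hp).add (hb.sm p hp),
    fun y => add_mem (ha.dg y) (hb.dg y),
    fun p hp => by rw [dd_add (ha.sm p hp) (hb.sm p hp), ha.cl p hp, hb.cl p hp, add_zero]⟩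
  zero_mem' := ⟨fun _ _ => smAt_zero, fun _ => zero_mem _, fun p _ => by rw [dd_zero]; rfl⟩
  smul_mem' := fun t a ha => ⟨fun p hp => (ha.sm p hp).smul t,
    fun y => Submodule.smul_mem _ t (ha.dg y),
    fun p hp => by rw [dd_smul, Pi.smul_apply, ha.cl p hp, smul_zero]⟩

omit [MeasurableSpace S] [BorelSpace S] in
theorem ENFSa_cf {θ : Fm 2 S} (h : Cl 2 θ univ) : Cl 2 (cf θ) univ :=
  ⟨fun p hp => (h.sm p hp).cf_one, fun y => cj_Dg (h.dg y), fun p hp => by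
    rw [dd_cf]
    change cj (dd θ p) = 0
    rw [h.cl p hp, map_zero]⟩

theorem ENFSa_intg [CompactSpace S] (a b : ENFSa_Z S) : Intg (a.1 * b.1) :=
  intg_of_compact fun p hp => (Cl.sm a.2 p hp).mul_left (Cl.sm b.2 p hp)

/-- The intersection form. -/
def ENFSa_B [CompactSpace S] : ENFSa_Z S →ₗ[ℂ] ENFSa_Z S →ₗ[ℂ] ℂ :=
  LinearMap.mk₂ ℂ (fun v θ => itg (θ.1 * v.1))
    (fun v v' θ => by
      rw [Submodule.coe_add, mul_add, itg_add (ENFSa_intg θ v) (ENFSa_intg θ v')])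
    (fun t v θ => by rw [Submodule.coe_smul, mul_smul_comm, itg_smul, smul_eq_mul])
    (fun v θ θ' => by
      rw [Submodule.coe_add, add_mul, itg_add (ENFSa_intg θ v) (ENFSa_intg θ' v)])
    (fun t v θ => by rw [Submodule.coe_smul, smul_mul_assoc, itg_smul, smul_eq_mul])

theorem ENFSa_B_apply [CompactSpace S] (v θ : ENFSa_Z S) : ENFSa_B v θ = itg (θ.1 * v.1) := rfl

omit [MeasurableSpace S] [BorelSpace S] in
/-- `dd_eq`, `dp 1 w` has type `(3, 0)`. -/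
theorem ENF_hol_cl {w : Fm 2 S} (ht : Ty 2 0 w) (hw : ∀ p, HFm 1 w p) : Cl 2 w univ := by
  have h0 : Tp 2 2 0 ≤ Dg 2 (2 + 0) := Tp_le_Dg
  refine ⟨fun p _ => (hw p).1, fun y => h0 (ht y), fun p _ => ?_⟩
  have h1 : dp 1 w p ∈ Tp 2 (2 + 1) 0 := ht.dp p
  rw [Tp_eq_bot (Or.inl (by norm_num)), Submodule.mem_bot] at h1
  rw [dd_eq, Pi.add_apply, h1, (hw p).2.self_of_nhds, add_zero]

/-- The closed two-forms are a submodule `Z`; `θ ↦ itg (θ * ρ)` vanishes on the common kernel of the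
functionals `θ ↦ itg (θ * w i)`, `θ ↦ itg (θ * cf (w i))` (apply `h` to `θ + cf θ` and
`I • (θ - cf θ)`; `itg_cf`, `dd_cf`), so it is a combination of them
(`mem_span_of_iInf_ker_le_ker`); `pd_compact`, `itg_comm`. -/
theorem ENF_span [CompactSpace S] {s : ℕ} {w : Fin s → Fm 2 S} (hw : ∀ i, Cl 2 (w i) univ)
    {ρ : Fm 2 S} (hρ : Cl 2 ρ univ)
    (h : ∀ θ : Fm 2 S, Cl 2 θ univ → cf θ = θ → (∀ i, itg (θ * w i) = 0) → itg (θ * ρ) = 0) :
    ∃ a a' : Fin s → ℂ, Ex 1 (ρ - ∑ i, a i • w i - cf (∑ i, a' i • w i)) := by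
  let W : Fin s ⊕ Fin s → ENFSa_Z S :=
    Sum.elim (fun i => ⟨w i, hw i⟩) fun i => ⟨cf (w i), ENFSa_cf (hw i)⟩
  let r : ENFSa_Z S := ⟨ρ, hρ⟩
  have hker : ⨅ i, LinearMap.ker (ENFSa_B (W i)) ≤ LinearMap.ker (ENFSa_B r) := by
    intro θ hθ
    simp only [Submodule.mem_iInf, LinearMap.mem_ker] at hθ ⊢
    let θ' : ENFSa_Z S := ⟨cf θ.1, ENFSa_cf θ.2⟩
    have h1 : ∀ i, ENFSa_B (W (Sum.inl i)) θ' = 0 := fun i => by
      have h2 : itg (θ.1 * cf (w i)) = 0 := hθ (Sum.inr i)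
      have h3 : cf θ.1 * w i = cf (θ.1 * cf (w i)) := by
        funext y
        simp only [cf, Pi.mul_apply, map_mul, cj_cj]
      change itg (cf θ.1 * w i) = 0
      rw [h3, itg_cf, h2, map_zero]
    have h4 : ENFSa_B r (θ + θ') = 0 := by
      refine h _ (θ + θ').2 ?_ fun i => ?_
      · funext y
        change cj (θ.1 y + cj (θ.1 y)) = θ.1 y + cj (θ.1 y)
        rw [map_add, cj_cj, add_comm]
      · change ENFSa_B (W (Sum.inl i)) (θ + θ') = 0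
        rw [map_add, hθ, h1, add_zero]
    have h5 : ENFSa_B r (I • (θ - θ')) = 0 := by
      refine h _ (I • (θ - θ')).2 ?_ fun i => ?_
      · funext y
        change cj (I • (θ.1 y - cj (θ.1 y))) = I • (θ.1 y - cj (θ.1 y))
        rw [cj_smul, map_sub, cj_cj, conj_I, neg_smul, ← smul_neg, neg_sub]
      · change ENFSa_B (W (Sum.inl i)) (I • (θ - θ')) = 0
        rw [map_smul, map_sub, hθ, h1, sub_zero, smul_zero]
    rw [map_add] at h4
    rw [map_smul, map_sub, smul_eq_mul, mul_eq_zero, or_iff_right I_ne_zero] at h5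
    linear_combination (h4 + h5) / 2
  obtain ⟨t, ht⟩ := (Submodule.mem_span_range_iff_exists_fun ℂ).1
    (mem_span_of_iInf_ker_le_ker hker)
  refine ⟨fun i => t (Sum.inl i), fun i => conj (t (Sum.inr i)), ?_⟩
  have e : ρ - ∑ i, t (Sum.inl i) • w i - cf (∑ i, conj (t (Sum.inr i)) • w i) =
      (r - ∑ i, t i • W i).1 := by
    rw [Fintype.sum_sum_type, Submodule.coe_sub, Submodule.coe_add, Submodule.coe_sum,
      Submodule.coe_sum, sub_sub]
    refine congrArg (fun z => ρ - (∑ i, t (Sum.inl i) • w i + z)) ?_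
    funext y
    simp only [cf, Finset.sum_apply, Pi.smul_apply, map_sum, cj_smul, conj_conj,
      Submodule.coe_smul]
    rfl
  rw [e]
  refine pd_compact (k := 1) (k' := 2) rfl (r - ∑ i, t i • W i).2 fun β hβ => ?_
  rw [itg_comm (Cl.dg (r - ∑ i, t i • W i).2) hβ.dg]
  have h6 : ENFSa_B (r - ∑ i, t i • W i) = 0 := by
    rw [map_sub, map_sum, ← ht, sub_eq_zero]
    exact Finset.sum_congr rfl fun i _ => (map_smul _ _ _).symm
  have h7 : itg (β * (r - ∑ i, t i • W i).1) = 0 := by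
    rw [← ENFSa_B_apply _ ⟨β, hβ⟩, h6]
    rfl
  rw [h7, mul_zero]

end

end Pool.Agent.MP_1c689d_ag.K0

end

section

/-! Closed two-forms on a compact surface: types. -/

set_option autoImplicit false

open Complex Filter Topology Set MeasureTheory MvPolynomial
open scoped ComplexConjugate ContDiff ENNReal

namespace Pool.Agent.MP_1c689d_ag.K0

noncomputable section

variable {m : ℕ} {S : Type} [TopologicalSpace S] [Mf 2 S] [MeasurableSpace S] [BorelSpace S]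

theorem ENFSb_zero [CompactSpace S] {w : Fm 2 S} (hw : Ty 2 0 w) (hs : Sm 1 w univ)
    (h : itg (w * cf w) = 0) : w = 0 := by
  have h1 : Sm 1 (w * cf w) univ := fun y hy => (hs y hy).mul_left (hs y hy).cf_one
  have h2 : ∀ y, w y ≠ 0 → ∃ t : ℝ, 0 < t ∧ top ((w * cf w) y) = t := by
    intro y hy
    obtain ⟨t, h3, h4⟩ := pos_n0' (hw y) hy
    have e : I ^ (2 ^ 2) = 1 := I_pow_four
    rw [e, one_mul] at h4
    exact ⟨t, h3, h4⟩
  funext y
  by_contra hy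
  obtain ⟨t, h3, h4⟩ := h2 y hy
  rw [top_zero_of_itg h1 (intg_of_compact h1) (fun y => ?_) h y] at h4
  · exact h3.ne' (by exact_mod_cast h4.symm)
  · by_cases h0 : w y = 0
    · exact ⟨0, le_rfl, by simp [h0]⟩
    · obtain ⟨t, h3, h4⟩ := h2 y h0
      exact ⟨t, h3.le, h4⟩

/-- Let `dd κ = γ + ρ - w - cf w'`, `κ = κ₁ + κ₂` with `κ₁ = pf 1 0 κ`, `κ₂ = pf 0 1 κ` (`sum_prj`).
Type `(0,2)`: `dbar κ₂ = -cf w'`. So `∫ w' * cf w' = -∫ w' * dd κ₂ = 0` (`w' * dp κ₂` has type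
`(3,1)`; `itg_exact_mul_closed`), `w' = 0` by `pos_n0'` and `top_zero_of_itg`; `κ₂ = dbar f` by `hv`;
type `(1,1)`: `ρ = dbar κ₁ + dp κ₂ = dbar (κ₁ - dp f)` (`dbar_dp`, `cur_one`). -/
theorem ENF_type [CompactSpace S] (hv : DbV 2 (1 : Ga S) 0 0) {γ ρ w w' : Fm 2 S}
    (hγ : Ty 2 0 γ) (hρ : Ty 1 1 ρ) (hw : Ty 2 0 w) (hw' : Ty 2 0 w') (hc : Cl 2 w' univ)
    (h : Ex 1 (ρ + γ - w - cf w')) :
    ∃ α : Fm 2 S, Sm 1 α univ ∧ Ty 1 0 α ∧ dbar 1 α = ρ := by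
  obtain ⟨κ, hs, hd, he⟩ := h
  have s1 : Sm 1 (pf 1 0 κ) univ := fun y hy => (hs y hy).pf 1 0
  have s2 : Sm 1 (pf 0 1 κ) univ := fun y hy => (hs y hy).pf 0 1
  have t1 : Ty 1 0 (pf 1 0 κ) := fun y => prj_mem _
  have t2 : Ty 0 1 (pf 0 1 κ) := fun y => prj_mem _
  have e : κ = pf 0 1 κ + pf 1 0 κ := by
    funext y
    have := sum_prj (hd y)
    rw [Finset.sum_range_succ, Finset.sum_range_one] at this
    exact this.symm
  have e1 : ∀ y, dp 1 (pf 0 1 κ) y + dbar 1 (pf 0 1 κ) y +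
      (dp 1 (pf 1 0 κ) y + dbar 1 (pf 1 0 κ) y) = ρ y + γ y - w y - cj (w' y) := by
    intro y
    have := congrFun he y
    rw [e, dd_add (s2 y (mem_univ _)) (s1 y (mem_univ _)), dd_eq, dd_eq] at this
    exact this
  have a1 : ∀ y, dp 1 (pf 0 1 κ) y ∈ Tp 2 1 1 := t2.dp
  have a2 : ∀ y, dbar 1 (pf 0 1 κ) y ∈ Tp 2 0 2 := t2.dbar
  have a3 : ∀ y, dp 1 (pf 1 0 κ) y ∈ Tp 2 2 0 := t1.dp
  have a4 : ∀ y, dbar 1 (pf 1 0 κ) y ∈ Tp 2 1 1 := t1.dbar
  have e2 : ∀ y, dbar 1 (pf 0 1 κ) y = -cj (w' y) := by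
    intro y
    have := congrArg (prj 0 2) (e1 y)
    simp only [map_add, map_sub] at this
    rw [prj_of_ne (a1 y) (by simp), prj_of_mem (a2 y), prj_of_ne (a3 y) (by simp),
      prj_of_ne (a4 y) (by simp), prj_of_ne (hρ y) (by simp), prj_of_ne (hγ y) (by simp),
      prj_of_ne (hw y) (by simp), prj_of_mem (cj_Tp (hw' y))] at this
    simpa using this
  have e3 : ∀ y, dp 1 (pf 0 1 κ) y + dbar 1 (pf 1 0 κ) y = ρ y := by
    intro y
    have := congrArg (prj 1 1) (e1 y)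
    simp only [map_add, map_sub] at this
    rw [prj_of_mem (a1 y), prj_of_ne (a2 y) (by simp), prj_of_ne (a3 y) (by simp),
      prj_of_mem (a4 y), prj_of_mem (hρ y), prj_of_ne (hγ y) (by simp),
      prj_of_ne (hw y) (by simp), prj_of_ne (cj_Tp (hw' y)) (by simp)] at this
    simpa using this
  have e4 : w' * dd (pf 0 1 κ) = -(w' * cf w') := by
    funext y
    have h1 := Tp_mul (hw' y) (a1 y)
    rw [Tp_eq_bot (Or.inl (by norm_num)), Submodule.mem_bot] at h1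
    rw [dd_eq, Pi.mul_apply, Pi.add_apply, mul_add, h1, e2, zero_add, mul_neg]
    rfl
  have h1 := (itg_exact_mul_closed s2 hc.sm (funext fun y => hc.cl y (mem_univ _))).2
  rw [e4, itg_neg, neg_eq_zero] at h1
  have h2 := ENFSb_zero hw' hc.sm h1
  obtain ⟨f, f1, f2, f3⟩ := hv _ s2 t2 (funext fun y => by simp [e2, h2])
  have s3 : Sm 1 (dp 1 f) univ := fun y hy => (f1 y hy).dp gok_one
  refine ⟨pf 1 0 κ - dp 1 f, fun y hy => (s1 y hy).sub (s3 y hy),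
    fun y => sub_mem (t1 y) (f2.dp y), funext fun y => ?_⟩
  rw [dbar_sub (s1 y (mem_univ _)) (s3 y (mem_univ _)), MF4a_anti (f1 y (mem_univ _)), f3,
    sub_neg_eq_add, add_comm, e3]

omit [MeasurableSpace S] [BorelSpace S] in
/-- `dbar (ψ l - Dx l * α) = -x l • s` with `s = u + Th * α` (`dbar_Dx`, `dbar_mul'`); applying
`dbar` gives `x l • dbar s = 0` for all `l` (`dbar_dbar`, `dbar_ev_smul` with `X l`), so
`dbar s = 0` (`PMAt.ne_zero`); `s = dbar θ'` by `hv`. -/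
theorem ENF_hat {x : S → Fin m → ℂ} (hx : ∀ p, PMAt x p) (hv : DbV 2 (1 : Ga S) 2 0)
    {ψ : Fin m → Fm 2 S} (hψ : ∀ l, Sm (gx x ^ (1 : ℤ)) (ψ l) univ) {α u : Fm 2 S}
    (hα : Sm 1 α univ) (hαt : Ty 1 0 α) (hu : Sm 1 u univ) (hut : Ty 2 1 u)
    (h : ∀ l p, dbar (gx x ^ (1 : ℤ)) (ψ l) p = -(Dx x l p * dbar 1 α p) - x p l • u p) :
    ∃ θ' : Fm 2 S, Ty 2 0 θ' ∧
      ∀ l p, HFm (gx x ^ (1 : ℤ)) (fun y => ψ l y - Dx x l y * α y + x y l • θ' y) p := by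
  have hX : ∀ l : Fin m, (MvPolynomial.X l : P m) ∈ hz m 1 := fun l =>
    (mem_hz_nat (i := 1)).2 (isHomogeneous_X ℂ l)
  have hev : ∀ l y, ev x (MvPolynomial.X l) y = x y l := fun l y => eval_X l
  have hD : ∀ l p, SmAt (gx x ^ (1 : ℤ)) (Dx x l : Fm 2 S) p := fun l p => by
    rw [zpow_one]
    exact (hx p).Dx_sm l
  have hm : ∀ {β : Fm 2 S}, Sm 1 β univ → ∀ l p,
      SmAt (gx x ^ (1 : ℤ)) (ev x (MvPolynomial.X l) • β) p ∧
      dbar (gx x ^ (1 : ℤ)) (ev x (MvPolynomial.X l) • β) p = x p l • dbar 1 β p := by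
    intro β hβ l p
    have h0 : SmAt (gx x ^ (0 : ℤ)) β p := by
      rw [zpow_zero]
      exact hβ p (mem_univ _)
    refine ⟨(hx p).ev_smul_sm (hX l) h0 (add_zero _), ?_⟩
    rw [(hx p).dbar_ev_smul (hX l) h0 (add_zero _), zpow_zero, hev]
  have s1 : Sm 1 (u + Th x * α) univ := fun y hy =>
    (hu y hy).add ((hx y).Th_sm.mul_left (hα y hy))
  have s2 : ∀ l p, SmAt (gx x ^ (1 : ℤ)) (ψ l - Dx x l * α) p := fun l p =>
    (hψ l p (mem_univ _)).sub ((hD l p).mul_right (hα p (mem_univ _)))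
  have e1 : ∀ l, dbar (gx x ^ (1 : ℤ)) (ψ l - Dx x l * α) =
      -(ev x (MvPolynomial.X l) • (u + Th x * α)) := by
    intro l
    funext p
    have h1 : dbar (gx x ^ (1 : ℤ)) (Dx x l : Fm 2 S) p = x p l • Th x p := by
      rw [zpow_one]
      exact (hx p).dbar_Dx l
    rw [dbar_sub (hψ l p (mem_univ _)) ((hD l p).mul_right (hα p (mem_univ _))),
      dbar_mul' (G' := 1) (by rw [mul_one]) ((hx p).gok_zpow 1) gok_one (hD l p)
        (hα p (mem_univ _)), h, h1, gi_of_Tp (Dx_Ty l p)]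
    simp only [Pi.neg_apply, Pi.smul_apply', Pi.add_apply, Pi.mul_apply, hev, smul_add,
      smul_mul_assoc, add_zero, pow_one, neg_smul, one_smul, neg_mul]
    abel
  have e2 : dbar 1 (u + Th x * α) = 0 := by
    funext p
    obtain ⟨l, hl⟩ := MF4b_ex (hx p)
    have h1 := dbar_dbar ((hx p).gok_zpow 1) (s2 l p)
    rw [e1, dbar_neg, Pi.neg_apply, neg_eq_zero, (hm s1 l p).2] at h1
    exact (smul_eq_zero.1 h1).resolve_left hl
  have t0 : Ty 2 1 (u + Th x * α) := fun y =>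
    Submodule.add_mem _ (hut y) (EA3_mul 2 1 (Th_Ty y) (hαt y) rfl rfl)
  obtain ⟨θ, t1, t2, t3⟩ := hv _ s1 t0 e2
  refine ⟨θ, t2, fun l p => ?_⟩
  have e3 : (fun y => ψ l y - Dx x l y * α y + x y l • θ y) =
      ψ l - Dx x l * α + ev x (MvPolynomial.X l) • θ := by
    funext y
    simp only [Pi.add_apply, Pi.sub_apply, Pi.mul_apply, Pi.smul_apply', hev]
  rw [e3]
  refine ⟨(s2 l p).add (hm t1 l p).1, Eventually.of_forall fun y => ?_⟩
  rw [dbar_add (s2 l y) (hm t1 l y).1, e1, (hm t1 l y).2, t3, Pi.neg_apply, Pi.smul_apply', hev,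
    neg_add_cancel]

end

end Pool.Agent.MP_1c689d_ag.K0

end

section

/-! Closed two-forms on a projective surface. -/

set_option autoImplicit false

open Complex Filter Topology Set MeasureTheory MvPolynomial
open scoped ComplexConjugate ContDiff ENNReal

namespace Pool.Agent.MP_1c689d_ag.K0

noncomputable section

variable {m c r : ℕ} {S : Type} [TopologicalSpace S] [Mf 2 S] [MeasurableSpace S] [BorelSpace S]

/-- `FD.exists_rl` gives `R`; take `w i = R.rl (t i)` for a basis `t` of `Q.og 0`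
(`PD.O_empty`, `zpow_zero`); `FD.van_zero` with `k = 0`. -/
theorem ENF_surf {Q : PD m 3 c r} {x : S → Fin m → ℂ} (hF : FD Q ∅ x) {γ ρ : Fm 2 S}
    (hγ : Ty 2 0 γ) (hρ : Ty 1 1 ρ) (hc : Cl 2 (ρ + γ) univ)
    (h : ∀ θ : Fm 2 S, Cl 2 θ univ → cf θ = θ →
      (∀ w : Fm 2 S, Ty 2 0 w → (∀ p, HFm 1 w p) → itg (θ * w) = 0) → itg (θ * (ρ + γ)) = 0) :
    ∃ α : Fm 2 S, Sm 1 α univ ∧ Ty 1 0 α ∧ dbar 1 α = ρ := by
  have := hF.cpt
  obtain ⟨R⟩ := hF.exists_rl le_rfl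
  have hO : ∀ p, p ∈ Q.O ∅ x := fun p => by
    rw [PD.O_empty]
    trivial
  have h1 : ∀ t ∈ Q.og 0, Cl 2 (R.rl t) univ := fun t ht => ENF_hol_cl (R.ty t) fun p => by
    have := R.hol 0 t ht p (hO p)
    rwa [zpow_zero] at this
  have hv : DbV 2 (1 : Ga S) 0 0 := by
    have := hF.van_zero 0 (q := 0) (by norm_num)
    rwa [zpow_zero] at this
  let b := Module.finBasis ℂ (Q.og 0)
  have h2 : ∀ a : Fin (Module.finrank ℂ (Q.og 0)) → ℂ,
      ∑ i, a i • R.rl (b i) = R.rl (∑ i, a i • b i : Q.og 0) := fun a => by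
    simp only [Submodule.coe_sum, Submodule.coe_smul, map_sum, map_smul]
  obtain ⟨a, a', he⟩ := ENF_span (w := fun i => R.rl (b i)) (fun i => h1 _ (b i).2) hc
    fun θ hθ hr h0 => h θ hθ hr fun w hw hw' => by
      obtain ⟨t, ht, e⟩ := R.surj 0 w hw fun p _ => by
        rw [zpow_zero]
        exact hw' p
      have e1 : w = ∑ i, b.repr ⟨t, ht⟩ i • R.rl (b i) := by
        rw [h2, b.sum_repr]
        exact funext fun p => (e p (hO p)).symm
      rw [e1, Finset.mul_sum, itg_sum fun i _ => intg_of_compact fun p _ =>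
        (hθ.sm p trivial).mul_left (((h1 _ (b i).2).sm p trivial).smul _)]
      refine Finset.sum_eq_zero fun i _ => ?_
      rw [mul_smul_comm, itg_smul, h0 i, mul_zero]
  rw [h2, h2] at he
  exact ENF_type hv hγ hρ (R.ty _) (R.ty _) (h1 _ (Subtype.property _)) he

end

end Pool.Agent.MP_1c689d_ag.K0

end

section

/-! The closed form `vp`. -/

set_option autoImplicit false

open Complex Filter Topology Set MeasureTheory MvPolynomial
open scoped ComplexConjugate ContDiff ENNReal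

namespace Pool.Agent.MP_1c689d_ag.K0

noncomputable section

variable {m c r : ℕ} {X : Type} [TopologicalSpace X] [Mf 3 X]
  {Q : PD m 4 c r} {Pts : Finset (Fin 4 → ℂ)} {x : X → Fin m → ℂ} {σ : P m} {ν : ℕ}
  {R : RL Q Pts x} {η θ'' : Fm 3 X} {g : Fin m → Fm 3 X} {z : Fin r → Q.Om}

omit [TopologicalSpace X] [Mf 3 X] in
theorem ENF_gv_Ty {n a q : ℕ} {g : Fin m → Fm n X} (h : ∀ l, Ty a q (g l)) (f : P m) :
    Ty a q (gv x g f) := by
  exact fun y => Submodule.sum_mem _ fun l _ => Submodule.smul_mem _ _ (h l y)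

/-- `PMAt.gv_sm`, `PMAt.dbar_gv`, `ZD.g_eq`, `euler_eval`. -/
theorem ENF_dbar_g (hF : FD Q Pts x) (hz : ZD R η θ'' g z) {h : P m} {k : ℕ}
    (hh : h.IsHomogeneous k) {p : X} (hp : p ∈ Q.O Pts x) :
    SmAt (gx x ^ (k : ℤ)) (gv x g h) p ∧ dbar (gx x ^ (k : ℤ)) (gv x g h) p =
      gv x (Dx x) h p * η p + ((k : ℂ) * ev x h p) • θ'' p := by
  have e : (k : ℤ) - 1 + 1 = k := sub_add_cancel _ _
  refine ⟨(hF.pm p).gv_sm (mem_hz_nat.2 hh) (fun a => hz.g_sm a p hp) e, ?_⟩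
  rw [(hF.pm p).dbar_gv (mem_hz_nat.2 hh) (fun a => hz.g_sm a p hp) e, ev, ← euler_eval hh,
    Finset.sum_smul, gv, gv, Finset.sum_mul, ← Finset.sum_add_distrib]
  refine Finset.sum_congr rfl fun l _ => ?_
  rw [hz.g_eq l p hp, smul_add, smul_mul_assoc, mul_smul]

/-- The quotient of a form by a holomorphic section: `SmAt.fn_inv`, `SmAt.mul_dual`, `dd_eq`,
`dp_mul'`, `dbar_mul'` with `GOk.mul_inv`, `dp_fn_inv`, `dbar_fn_inv`, `HolAt.dbar`. -/
theorem ENF_dd_div {n : ℕ} {Y : Type} [TopologicalSpace Y] [Mf n Y] {G : Ga Y} {s : Y → ℂ}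
    {A : Fm n Y} {p : Y} (hG : GOk G p) (hs : HolAt G s p) (h0 : s p ≠ 0) (hA : SmAt G A p) :
    SmAt 1 (fun y => (s y)⁻¹ • A y) p ∧ dd (fun y => (s y)⁻¹ • A y) p =
      (s p)⁻¹ • (dp G A p + dbar G A p) - (s p ^ 2)⁻¹ • (dp G (fn n s) p * A p) := by
  have e : (G⁻¹ * G) p =ᶠ[𝓝 p] (1 : Ga Y) p := mul_comm G G⁻¹ ▸ hG.mul_inv
  have hi := hs.smAt.fn_inv hG h0
  have e1 : (fun y => (s y)⁻¹ • A y) = fn n (fun y => (s y)⁻¹) * A := (fn_mul _ A).symm
  rw [e1]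
  refine ⟨(hi.mul hA).gauge e, ?_⟩
  rw [dd_eq, Pi.add_apply, dp_mul' e hG.inv hG hi hA, dbar_mul' e hG.inv hG hi hA,
    dp_fn_inv hG hs.smAt h0, dbar_fn_inv hG hs.smAt h0, hs.dbar, smul_zero, zero_mul, zero_add,
    fn, PMPb_gi, PMPb_gi, smul_mul_assoc, neg_smul, smul_add]
  abel

/-- For a form of type `(n, 0)` only `∂ bar` survives (`Tp_eq_bot`, `dp_Tp`, `Tp_mul`). -/
theorem ENF_dd_div_top {n : ℕ} {Y : Type} [TopologicalSpace Y] [Mf n Y] {G : Ga Y} {s : Y → ℂ}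
    {A : Fm n Y} {p : Y} (hG : GOk G p) (hs : HolAt G s p) (h0 : s p ≠ 0) (hA : SmAt G A p)
    (ht : Ty n 0 A) : dd (fun y => (s y)⁻¹ • A y) p = (s p)⁻¹ • dbar G A p := by
  have h1 : dp G A p = 0 := by
    have := ht.dp (G := G) p
    rwa [Tp_eq_bot (Or.inl (Nat.lt_succ_self n)), Submodule.mem_bot] at this
  have h2 : dp G (fn n s) p * A p = 0 := by
    have := Tp_mul ((fn_Ty s).dp (G := G) p) (ht p)
    rwa [Tp_eq_bot (Or.inl (by omega)), Submodule.mem_bot] at this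
  rw [(ENF_dd_div hG hs h0 hA).2, h1, h2, zero_add, smul_zero, sub_zero]

theorem ENF_res_cl (hF : FD Q Pts x) (hσ : σ.IsHomogeneous ν) {τ : Q.Om} (hτ : τ ∈ Q.og ν)
    {p : X} (hp : p ∈ Q.O Pts x) (h0 : ev x σ p ≠ 0) :
    SmAt 1 (fun y => (ev x σ y)⁻¹ • R.rl τ y) p ∧
      dd (fun y => (ev x σ y)⁻¹ • R.rl τ y) p = 0 := by
  have hA := R.hol ν τ hτ p hp
  have hG := (hF.pm p).gok_zpow ν
  have hs := (hF.pm p).holAt_ev' hσ
  refine ⟨(ENF_dd_div hG hs h0 hA.1).1, ?_⟩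
  rw [ENF_dd_div_top hG hs h0 hA.1 (R.ty τ), hA.2.self_of_nhds, smul_zero]

/-- Use the section `ev x (σ ^ 2)` of `gx x ^ (2 * ν)`. -/
theorem ENF_lam_cl (hF : FD Q Pts x) (hσ : σ.IsHomogeneous ν) {τ : Q.Om}
    (hτ : τ ∈ Q.og (2 * ν)) {p : X} (hp : p ∈ Q.O Pts x) (h0 : ev x σ p ≠ 0) :
    SmAt 1 (fun y => (ev x σ y ^ 2)⁻¹ • R.rl τ y) p ∧
      dd (fun y => (ev x σ y ^ 2)⁻¹ • R.rl τ y) p = 0 := by
  have e : ∀ y, ev x (σ ^ 2) y = ev x σ y ^ 2 := fun y => map_pow _ _ _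
  have := ENF_res_cl (R := R) (τ := τ) hF (hσ.pow 2) (by rw [mul_comm]; exact_mod_cast hτ) hp
    (by rw [e]; exact pow_ne_zero 2 h0)
  simpa only [e] using this

/-- `vp = σ⁻¹ • g(b) - (σ²)⁻¹ • (b • g(σ)) - σ⁻¹ • (b • η)`; `ENF_dd_div_top` for the first two
terms, `ENF_dd_div` with `dp_ev_smul`, `dbar_ev_smul`, `dp_ev` and `dd η = 0` for the last. -/
theorem ENF_vp_closed (hF : FD Q Pts x) (hz : ZD R η θ'' g z) (hσ : σ.IsHomogeneous ν) {b : P m}
    (hb : b.IsHomogeneous ν) {p : X} (hp : p ∈ Q.O Pts x) (h0 : ev x σ p ≠ 0) :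
    SmAt 1 (vp x g η σ b) p ∧ dd (vp x g η σ b) p = 0 := by
  have hx := hF.pm p
  have hG := hx.gok_zpow ν
  have hs := hx.holAt_ev' hσ
  have e : ∀ y, ev x (σ ^ 2) y = ev x σ y ^ 2 := fun y => map_pow _ _ _
  have h2 : ev x (σ ^ 2) p ≠ 0 := by rw [e]; exact pow_ne_zero 2 h0
  have en : (ν : ℤ) + ν = (ν * 2 : ℕ) := by push_cast; ring
  have hb' := mem_hz_nat.2 hb
  obtain ⟨a1, a2⟩ := ENF_dbar_g hF hz hb hp
  obtain ⟨b1, b2⟩ := ENF_dbar_g hF hz hσ hp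
  have hη : SmAt (gx x ^ (0 : ℤ)) η p := by rw [zpow_zero]; exact hz.f21.sm p (mem_univ p)
  have b3 := hx.ev_smul_sm hb' b1 en
  have s1 := (ENF_dd_div hG hs h0 a1).1
  have s2 := (ENF_dd_div (hx.gok_zpow _) (hx.holAt_ev' (hσ.pow 2)) h2 b3).1
  obtain ⟨s3, d3⟩ := ENF_dd_div hG hs h0 (hx.ev_smul_sm hb' hη (add_zero _))
  have d1 := ENF_dd_div_top hG hs h0 a1 (ENF_gv_Ty hz.g_ty b)
  have d2 := ENF_dd_div_top (hx.gok_zpow _) (hx.holAt_ev' (hσ.pow 2)) h2 b3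
    fun y => Submodule.smul_mem _ _ (ENF_gv_Ty hz.g_ty σ y)
  have ev' : vp x g η σ b = ((fun y => (ev x σ y)⁻¹ • gv x g b y) -
      fun y => (ev x (σ ^ 2) y)⁻¹ • (ev x b • gv x g σ) y) -
      fun y => (ev x σ y)⁻¹ • (ev x b • η) y := by
    funext y
    simp only [vp, Pi.sub_apply, Pi.smul_apply', smul_smul, e, div_eq_inv_mul]
  have c0 : dp 1 η p + dbar 1 η p = 0 := (congrFun (dd_eq η) p).symm.trans (congrFun hz.f21.cl p)
  rw [ev']
  refine ⟨(s1.sub s2).sub s3, ?_⟩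
  rw [dd_sub (s1.sub s2) s3, dd_sub s1 s2, d1, d2, d3, a2, hx.dbar_ev_smul hb' b1 en, b2,
    hx.dp_ev_smul hb' hη (add_zero _), hx.dbar_ev_smul hb' hη (add_zero _), zpow_zero, add_assoc,
    ← smul_add, c0, smul_zero, add_zero, hx.dp_ev (mem_hz_nat.2 hσ), Pi.smul_apply', e,
    mul_smul_comm]
  match_scalars <;> field_simp <;> ring

/-- `dχ * (θ * vp) = -(dχ * (θ * η))` everywhere (`vp = -η` where `σ ≠ 0`, `dχ = 0` where `σ = 0`,
`RESF_one`); `ibp_dd` with `O = U`, `K = tsupport χ`. -/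
theorem ENF_muI_self [MeasurableSpace X] [BorelSpace X] {U : Set X} {χ : X → ℂ}
    (hz : ZD R η θ'' g z) (hT : Tb 3 U χ {p | ev x σ p = 0}) {θ : Fm 3 X} (hθ : Cl 2 θ U) :
    muI x g η χ θ σ σ = 0 := by
  have e1 : dd (fn 3 χ) * (θ * vp x g η σ σ) = -(dd (fn 3 χ) * (θ * η)) := by
    funext y
    simp only [Pi.mul_apply, Pi.neg_apply]
    by_cases h : ev x σ y = 0
    · rw [(RESF_one (eventually_nhdsSet_iff_forall.1 hT.one y h)).self_of_nhds, zero_mul, zero_mul,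
        neg_zero]
    · rw [vp, div_self h, one_smul, sq, div_mul_cancel_left₀ h, sub_self, zero_sub, mul_neg,
        mul_neg]
  have hη := fun y => hz.f21.sm y (mem_univ y)
  have h1 := ibp_dd (α := fn 3 χ) (β := θ * η) hT.bump.cs hT.op hT.supp
    (fun y _ => hT.bump.sm y (mem_univ y)) (fun y hy => (hθ.sm y hy).mul_left (hη y))
    (closure_mono fun y hy h0 => hy (by rw [fn, h0, map_zero]))
  have e2 : (fun y => gi (fn 3 χ y)) * dd (θ * η) = 0 := by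
    funext y
    simp only [Pi.mul_apply, Pi.zero_apply]
    by_cases hy : y ∈ U
    · rw [dd_mul (hθ.sm y hy) (hη y), hθ.cl y hy, hz.f21.cl, Pi.zero_apply, zero_mul, mul_zero,
        add_zero, mul_zero]
    · rw [fn, image_eq_zero_of_notMem_tsupport fun h => hy (hT.supp h), map_zero, map_zero,
        zero_mul]
  rw [e2, itg_zero, add_zero] at h1
  rw [muI, pr, e1, itg_neg, h1, neg_zero]

end

end Pool.Agent.MP_1c689d_ag.K0

end

section

/-! Reduction of the pole order: the data. -/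

set_option autoImplicit false

open Complex Filter Topology Set MeasureTheory MvPolynomial
open scoped ComplexConjugate ContDiff ENNReal

namespace Pool.Agent.MP_1c689d_ag.K0

noncomputable section

variable {m c r : ℕ} {X : Type} [TopologicalSpace X] [Mf 3 X]
  {Q : PD m 4 c r} {Pts : Finset (Fin 4 → ℂ)} {x : X → Fin m → ℂ} {σ : P m} {ν : ℕ}

/-- The forms that reduce the order of the pole. -/
structure ENF_Dec (hF : FD Q Pts x) (hg : Good Q Pts σ ν) (R : RL Q Pts x) (η θ'' : Fm 3 X)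
    (g : Fin m → Fm 3 X) (τ : Q.Om) (b : P m) (β γ ρ u : Fm 3 X) : Prop where
  β_sm : Sm (gx x ^ (ν : ℤ)) β univ
  β_ty : Ty 2 0 β
  γ_sm : Sm 1 γ univ
  γ_ty : Ty 2 0 γ
  ρ_sm : Sm 1 ρ univ
  ρ_ty : Ty 1 1 ρ
  u_sm : Sm 1 u univ
  u_ty : Ty 2 1 u
  e1 : ∀ᶠ y in 𝓝ˢ (dvs hF hg).S,
    ev x b y • gv x g σ y - R.rl τ y = (dvs hF hg).D y * β y
  e2 : ∀ᶠ y in 𝓝ˢ (dvs hF hg).S,
    gv x g b y - dp (gx x ^ (ν : ℤ)) β y = (dvs hF hg).D y * γ y
  e3 : ∀ᶠ y in 𝓝ˢ (dvs hF hg).S,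
    ev x b y • θ'' y - Th x y * β y = (dvs hF hg).D y * u y
  e4 : ∀ᶠ y in 𝓝ˢ (dvs hF hg).S,
    -(ev x b y • η y + dbar (gx x ^ (ν : ℤ)) β y) - ((ν : ℂ) * ev x σ y) • u y =
      (dvs hF hg).D y * ρ y

end

end Pool.Agent.MP_1c689d_ag.K0

end

section

/-! Reduction of the pole order: existence. -/

set_option autoImplicit false

open Complex Filter Topology Set MeasureTheory MvPolynomial
open scoped ComplexConjugate ContDiff ENNReal

namespace Pool.Agent.MP_1c689d_ag.K0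

noncomputable section

variable {m c r : ℕ} {X : Type} [TopologicalSpace X] [Mf 3 X]
  {Q : PD m 4 c r} {Pts : Finset (Fin 4 → ℂ)} {x : X → Fin m → ℂ} {σ : P m} {ν : ℕ}
  {R : RL Q Pts x} {η θ'' : Fm 3 X} {g : Fin m → Fm 3 X} {z : Fin r → Q.Om}
  {τ : Q.Om} {b : P m} {β γ ρ u : Fm 3 X}

theorem ENFDec_alg {A : Type} [Ring A] [Algebra ℂ A] {D η θ T β δ u : A} {b s k : ℂ}
    (h1 : b • (D * η + (k * s) • θ) = (s • k • T) * β + (-1 : ℂ) ^ (1 + 0) • D * δ)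
    (h2 : b • θ - T * β = D * u) : D * (-(b • η + δ) - (k * s) • u) = 0 := by
  simp only [mul_sub, mul_neg, mul_add, mul_smul_comm, ← h2, smul_mul_assoc] at h1 ⊢
  linear_combination (norm := module) (-1 : ℂ) • h1

/-- `β`, `γ`, `u` by `exists_div_top` (`K = S`, `dvs_compact`, `D_sm`, `D_ne`, `PMAt.gz_add`,
`zpow_zero`). Apply `dbar (gx x ^ (2 ν))` to `e1` near `S` (`ENF_dbar_g`, `R.hol`, `dbar_D`,
`cur_zpow`, `dvs_D`): `b • (D * η + ν σ • θ'') = ν σ • Θ * β - D * dbar β`; with `e3` the left side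
of `e4` is killed by `D`; `exists_div_form` gives `ρ`. -/
theorem ENF_exists_dec (hF : FD Q Pts x) (hg : Good Q Pts σ ν) (hz : ZD R η θ'' g z)
    (hτ : τ ∈ Q.og (2 * ν)) (hb : b.IsHomogeneous ν) :
    ∃ β γ ρ u, ENF_Dec hF hg R η θ'' g τ b β γ ρ u := by
  have hS : ∀ p ∈ (dvs hF hg).S, p ∈ Q.O Pts x := fun p hp => hp.1
  have hK := dvs_compact hF hg
  have hb' := mem_hz_nat.2 hb
  have ok : ∀ (i : ℤ) (p : X), GOk (gx x ^ i) p := fun i p => (hF.pm p).gok_zpow i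
  have hD : ∀ p ∈ Q.O Pts x, SmAt (gx x ^ (ν : ℤ)) (dvs hF hg).D p := fun p hp =>
    (dvs hF hg).D_sm hp
  have hD' : Sm (gx x ^ (ν : ℤ)) (dvs hF hg).D (dvs hF hg).S := fun p hp => hD p (hS p hp)
  have hD0 : ∀ p ∈ (dvs hF hg).S, (dvs hF hg).D p ≠ 0 := fun p hp => (dvs hF hg).D_ne ⟨p, hp⟩
  have e2 : (ν : ℤ) + ν = 2 * ν := by ring
  have g2 : ∀ p, (gx x ^ (ν : ℤ) * gx x ^ (ν : ℤ)) p =ᶠ[𝓝 p] (gx x ^ (2 * (ν : ℤ))) p :=
    fun p => (hF.pm p).gz_add e2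
  have g1 : ∀ p ∈ (dvs hF hg).S, (gx x ^ (ν : ℤ) * (1 : Ga X)) p =ᶠ[𝓝 p] (gx x ^ (ν : ℤ)) p :=
    fun p _ => by rw [mul_one]
  have sb : ∀ {α : Fm 3 X} {p : X}, SmAt 1 α p → SmAt (gx x ^ (ν : ℤ)) (ev x b • α) p :=
    fun {α p} h => by simpa only [mul_one] using ((hF.pm p).holAt_ev' hb).smAt.fsmul h
  have s1 : ∀ p ∈ Q.O Pts x, SmAt (gx x ^ (2 * (ν : ℤ))) (ev x b • gv x g σ) p := fun p hp =>
    (hF.pm p).ev_smul_sm hb' (ENF_dbar_g hF hz hg.hom hp).1 e2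
  obtain ⟨β, b1, b2, b3⟩ := exists_div_top (n := 2) (A := ev x b • gv x g σ - R.rl τ) (q := 0) hK
    (fun p _ => ok ν p) (fun p _ => ok ν p) (fun p _ => g2 p) hD' (dvs hF hg).D_Ty hD0
    (fun p hp => (s1 p (hS p hp)).sub (R.hol _ τ hτ p (hS p hp)).1)
    fun y => sub_mem (Submodule.smul_mem _ _ (ENF_gv_Ty hz.g_ty σ y)) (R.ty τ y)
  obtain ⟨γ, c1, c2, c3⟩ := exists_div_top (n := 2) (A := gv x g b - dp (gx x ^ (ν : ℤ)) β)
    (q := 0) hK (fun p _ => ok ν p) (fun p _ => gok_one) g1 hD' (dvs hF hg).D_Ty hD0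
    (fun p hp => (ENF_dbar_g hF hz hb (hS p hp)).1.sub ((b1 p trivial).dp (ok ν p)))
    fun y => sub_mem (ENF_gv_Ty hz.g_ty b y) (b2.dp y)
  have t1 : Ty 3 1 (Th x * β) := fun y => by
    have := Tp_mul (Th_Ty (x := x) y) (b2 y)
    exact this
  obtain ⟨u, u1, u2, u3⟩ := exists_div_top (n := 2) (A := ev x b • θ'' - Th x * β)
    (q := 1) hK (fun p _ => ok ν p) (fun p _ => gok_one) g1 hD' (dvs hF hg).D_Ty hD0
    (fun p _ => (sb (hz.θ_sm p trivial)).sub ((hF.pm p).Th_sm.mul_left (b1 p trivial)))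
    fun y => sub_mem (Submodule.smul_mem _ _ (hz.θ_ty y)) (t1 y)
  obtain ⟨ρ, r1, r2, r3⟩ := exists_div_form (a := 1) (q := 1)
    (A := -(ev x b • η + dbar (gx x ^ (ν : ℤ)) β) - (ν : ℂ) • ev x σ • u) hK
    (fun p _ => ok ν p) (fun p _ => gok_one) g1 hD' (dvs hF hg).D_Ty hD0
    (fun p _ => ((sb (hz.f21.sm p trivial)).add ((b1 p trivial).dbar (ok ν p))).neg.sub
      (SmAt.smul (by
        simpa only [mul_one] using ((hF.pm p).holAt_ev' hg.hom).smAt.fsmul (u1 p trivial)) _))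
    (fun y => sub_mem (neg_mem (add_mem (Submodule.smul_mem _ _ (hz.f21.ty y)) (b2.dbar y)))
      (Submodule.smul_mem _ _ (Submodule.smul_mem _ _ (u2 y)))) (by
      rw [eventually_nhdsSet_iff_forall] at b3 u3 ⊢
      intro p hp
      filter_upwards [(b3 p hp).eventually_nhds, u3 p hp, hF.isOpen_O.mem_nhds (hS p hp),
        (R.hol _ τ hτ p (hS p hp)).2] with y h1 h3 hy hr
      have h4 := dbar_congr (G := gx x ^ (2 * (ν : ℤ))) (β := (dvs hF hg).D * β) h1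
      rw [dbar_sub (s1 y hy) (R.hol _ τ hτ y hy).1, hr, sub_zero,
        (hF.pm y).dbar_ev_smul hb' (ENF_dbar_g hF hz hg.hom hy).1 e2,
        (ENF_dbar_g hF hz hg.hom hy).2, ← dvs_D hF hg,
        dbar_mul' (g2 y) (ok ν y) (ok ν y) (hD y hy) (b1 y trivial),
        gi_of_Tp ((dvs hF hg).D_Ty y)] at h4
      have h5 : dbar (gx x ^ (ν : ℤ)) (dvs hF hg).D y = ev x σ y • (ν : ℂ) • Th x y := by
        have h6 := (dvs hF hg).dbar_D hy
        have h7 := (hF.pm y).cur_zpow (ν : ℤ)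
        rw [Int.cast_natCast] at h7
        rw [← h7]
        exact h6
      rw [h5] at h4
      have h8 := ENFDec_alg h4 h3
      rw [mul_smul] at h8
      exact h8)
  refine ⟨β, γ, ρ, u, b1, b2, c1, c2, r1, r2, u1, u2, b3, c3, u3, r3.mono fun y hy => ?_⟩
  rw [mul_smul]
  exact hy

end

end Pool.Agent.MP_1c689d_ag.K0

end

section

/-! Reduction of the pole order: consequences. -/

set_option autoImplicit false

open Complex Filter Topology Set MeasureTheory MvPolynomial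
open scoped ComplexConjugate ContDiff ENNReal

namespace Pool.Agent.MP_1c689d_ag.K0

noncomputable section

variable {m c r : ℕ} {X : Type} [TopologicalSpace X] [Mf 3 X]
  {Q : PD m 4 c r} {Pts : Finset (Fin 4 → ℂ)} {x : X → Fin m → ℂ} {σ : P m} {ν : ℕ}
  {R : RL Q Pts x} {η θ'' : Fm 3 X} {g : Fin m → Fm 3 X} {z : Fin r → Q.Om}
  {τ : Q.Om} {b : P m} {β γ ρ u : Fm 3 X}

theorem ENFPsi_alg {n : ℕ} {s t k : ℂ} (hs : s ≠ 0) {τ gs gb η p d u D β γ ρ : Λ n}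
    (e1 : t • gs - τ = D * β) (e2 : gb - p = D * γ) (e4 : -(t • η + d) - (k * s) • u = D * ρ) :
    (s ^ 2)⁻¹ • τ + (s⁻¹ • gb - (t / s ^ 2) • gs - (t / s) • η) =
      s⁻¹ • (p + d) - (s ^ 2)⁻¹ • (D * β) + s⁻¹ • D * (ρ + γ) + k • u := by
  rw [smul_mul_assoc, mul_add, ← e1, ← e2, ← e4]
  match_scalars <;> field_simp <;> ring

theorem ENFPsi_gi {n : ℕ} {a : Λ n} (h : a ∈ Tp n 1 0) : gi a = -a := by
  rw [gi_of_Tp h]
  simp

theorem ENFPsi_alg' {n : ℕ} {t y : ℂ} {D E η θ T β d w ρ u : Λ n} (hD : D ∈ Tp n 1 0)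
    (hE : E ∈ Tp n 1 0) (e3 : t • θ - T * β = D * u) (e4 : -(t • η + d) = D * ρ)
    (e : t • (E * η + y • θ) - (y • T * β + gi E * d) = gi D * w) :
    D * (w + E * ρ + y • u) = 0 := by
  have h1 : E * (D * ρ) = -(D * (E * ρ)) := by
    rw [← mul_assoc, comm_one (Tp_le_Dg (p := 1) (q := 0) hE) D, ENFPsi_gi hD, neg_mul, neg_mul, mul_assoc]
  have h2 := congrArg (fun a => E * a) e4
  simp only [mul_neg, mul_add, mul_smul_comm, h1] at h2
  rw [ENFPsi_gi hD, ENFPsi_gi hE, neg_mul, neg_mul, smul_mul_assoc] at e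
  rw [mul_add, mul_add, mul_smul_comm, ← e3]
  linear_combination (norm := module) e + h2

/-- `ENF_dd_div` for `β / σ`; `e1`, `e2`, `e4`. -/
theorem ENF_Dec.eq {hF : FD Q Pts x} {hg : Good Q Pts σ ν}
    (h : ENF_Dec hF hg R η θ'' g τ b β γ ρ u) : ∀ᶠ y in 𝓝ˢ (dvs hF hg).S, ev x σ y ≠ 0 →
      SmAt 1 (fun y => (ev x σ y)⁻¹ • β y) y ∧
      (ev x σ y ^ 2)⁻¹ • R.rl τ y + vp x g η σ b y =
        dd (fun y => (ev x σ y)⁻¹ • β y) y + (dvs hF hg).L y * (ρ + γ) y + ((ν : ℂ) • u) y := by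
  filter_upwards [h.e1, h.e2, h.e4] with y e1 e2 e4 h0
  obtain ⟨k1, k2⟩ := ENF_dd_div ((hF.pm y).gok_zpow ν) ((hF.pm y).holAt_ev' hg.hom) h0
    (h.β_sm y trivial)
  refine ⟨k1, ?_⟩
  rw [k2]
  exact ENFPsi_alg h0 e1 e2 e4

/-- `ψ` by `exists_div_top` for `b • g l - Dx l * β`, with values in `gx x ^ (ν + 1)`. Apply `dbar`
at a point of `S`, where `σ = 0`: `-(D * dbar ψ) = Dx l * (b • η + dbar β) + x l • (b • θ'' - Θ β)
= -(Dx l * D * ρ) + x l • D * u`, so `D * (dbar ψ + Dx l * ρ + x l • u) = 0`; `Div.lm_of_mul`,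
`pb_dbar`, `PMAt.pb_Dx`, `gpb_zpow`, `gx_comp`. -/
theorem ENF_Dec.psi {hF : FD Q Pts x} {hg : Good Q Pts σ ν}
    (h : ENF_Dec hF hg R η θ'' g τ b β γ ρ u) (hz : ZD R η θ'' g z) (hb : b.IsHomogeneous ν)
    (l : Fin m) : ∃ ψ : Fm 3 X, Sm (gx x ^ (1 : ℤ)) ψ univ ∧ Ty 2 0 ψ ∧
      (∀ y ∈ (dvs hF hg).S, ev x b y • g l y - Dx x l y * β y = (dvs hF hg).D y * ψ y) ∧
      ∀ p, dbar (gx (x ∘ (dvs hF hg).val) ^ (1 : ℤ)) (pb (dvs hF hg).val ψ) p =
        -(Dx (x ∘ (dvs hF hg).val) l p * pb (dvs hF hg).val ρ p) -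
          (x ∘ (dvs hF hg).val) p l • pb (dvs hF hg).val u p := by
  have hD : ∀ y, SmAt (gx x ^ (1 : ℤ)) (Dx x l : Fm 3 X) y := fun y => by
    rw [zpow_one]
    exact (hF.pm y).Dx_sm l
  have s1 : ∀ y ∈ (dvs hF hg).S, SmAt (gx x ^ ((ν : ℤ) + 1)) (ev x b • g l) y := fun y hy =>
    (hF.pm y).ev_smul_sm (mem_hz_nat.2 hb) (hz.g_sm l y hy.1) rfl
  have s2 : ∀ y, SmAt (gx x ^ ((ν : ℤ) + 1)) (Dx x l * β) y := fun y =>
    (hD y).mul_zpow (hF.pm y).gok (h.β_sm y trivial) (add_comm _ _)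
  obtain ⟨ψ, h1, h2, h3⟩ := exists_div_top (n := 2) (G := gx x ^ (ν : ℤ)) (G' := gx x ^ (1 : ℤ))
    (G'' := gx x ^ ((ν : ℤ) + 1)) (γ := (dvs hF hg).D) (A := ev x b • g l - Dx x l * β) (q := 0)
    (dvs_compact hF hg) (fun y _ => (hF.pm y).gok_zpow _) (fun y _ => (hF.pm y).gok_zpow _)
    (fun y _ => (hF.pm y).gz_add rfl) (fun y hy => (dvs hF hg).D_sm hy.1) (dvs hF hg).D_Ty
    (fun y hy => (dvs hF hg).D_ne ⟨y, hy⟩) (fun y hy => (s1 y hy).sub (s2 y))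
    fun y => Submodule.sub_mem _ (Submodule.smul_mem _ _ (hz.g_ty l y))
      (Tp_mul (p := 1) (q := 0) (p' := 2) (q' := 0) (Dx_Ty l y) (h.β_ty y))
  refine ⟨ψ, h1, h2, fun y hy => h3.self_of_nhdsSet y hy, fun p => ?_⟩
  have hp : (dvs hF hg).val p ∈ (dvs hF hg).S := (dvs hF hg).val_mem p
  have hm := (dvs hF hg).emb.hm p
  have key : ∀ y ∈ (dvs hF hg).S, (dvs hF hg).D y *
      (dbar (gx x ^ (1 : ℤ)) ψ y + Dx x l y * ρ y + x y l • u y) = 0 := by
    intro y hy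
    have h0 : ev x σ y = 0 := hy.2
    have ev1 : (ev x b • g l - Dx x l * β) =ᶠ[𝓝 y] (dvs hF hg).D * ψ :=
      eventually_nhdsSet_iff_forall.1 h3 y hy
    have e := dbar_congr (G := gx x ^ ((ν : ℤ) + 1)) ev1
    have d1 : dbar (gx x ^ (ν : ℤ)) (dvs hF hg).D y = 0 := by
      have := (dvs hF hg).dbar_D hy.1
      rwa [hy.2, zero_smul] at this
    have d2 : dbar (gx x ^ (1 : ℤ)) (Dx x l : Fm 3 X) y = x y l • Th x y := by
      rw [zpow_one]
      exact (hF.pm y).dbar_Dx l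
    rw [dbar_sub (s1 y hy) (s2 y),
      (hF.pm y).dbar_ev_smul (mem_hz_nat.2 hb) (hz.g_sm l y hy.1) rfl, hz.g_eq l y hy.1,
      dbar_mul' ((hF.pm y).gz_add (add_comm _ _)) ((hF.pm y).gok_zpow _) ((hF.pm y).gok_zpow _)
        (hD y) (h.β_sm y trivial),
      dbar_mul' ((hF.pm y).gz_add rfl) ((hF.pm y).gok_zpow _) ((hF.pm y).gok_zpow _)
        ((dvs hF hg).D_sm hy.1) (h1 y trivial), d1, d2, zero_mul, zero_add] at e
    have e4 := h.e4.self_of_nhdsSet y hy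
    rw [h0, mul_zero, zero_smul, sub_zero] at e4
    exact ENFPsi_alg' ((dvs hF hg).D_Ty y) (Dx_Ty l y) (h.e3.self_of_nhdsSet y hy) e4 e
  have k := (dvs hF hg).lm_of_mul p (key _ hp)
  rw [map_add, map_add, map_mul, map_smul] at k
  rw [gx_comp, ← gpb_zpow, ← pb_dbar hm (h1 _ trivial), ← (hF.pm _).pb_Dx hm l]
  exact eq_sub_of_add_eq (eq_neg_of_add_eq_zero_left (by rw [← k]; exact add_right_comm _ _ _))

end

end Pool.Agent.MP_1c689d_ag.K0

end

section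

/-! The algebraic conclusion. -/

set_option autoImplicit false

open Complex Filter Topology Set MeasureTheory MvPolynomial
open scoped ComplexConjugate ContDiff ENNReal

namespace Pool.Agent.MP_1c689d_ag.K0

noncomputable section

variable {m c r : ℕ} {X : Type} [TopologicalSpace X] [Mf 3 X]
  {Q : PD m 4 c r} {Pts : Finset (Fin 4 → ℂ)} {x : X → Fin m → ℂ} {σ : P m} {ν : ℕ}
  {R : RL Q Pts x} {η θ'' : Fm 3 X} {g : Fin m → Fm 3 X} {z : Fin r → Q.Om}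
  {τ : Q.Om} {b : P m} {β : Fm 3 X}

theorem ENFJx_zero {n : ℕ} {Y : Type} [TopologicalSpace Y] [Mf (n + 1) Y] (H : Div n Y) (p : H.T)
    {a : Λ (n + 1)} (ha : H.D (H.val p) * a ∈ Tp (n + 1) (n + 1) 0)
    (h0 : lm (df H.val p) a = 0) : H.D (H.val p) * a = 0 := by
  have h3 : H.D (H.val p) * a = H.D (H.val p) * prj n 0 a := by
    rw [← prj_mul_left (H.D_Ty _), add_comm 1 n, prj_of_mem ha]
  rw [h3]
  refine H.mul_of_lm p (prj_mem a) ?_
  obtain ⟨B, hB⟩ := (H.emb.hm p).df_complex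
  rw [hB] at h0 ⊢
  rw [lm_prj, h0, map_zero]

theorem ENFJx_key {n : ℕ} {Y : Type} [TopologicalSpace Y] [Mf (n + 1) Y] (H : Div n Y) (p : H.T)
    {v : Y → Fin m → ℂ} (hv : PMAt v (H.val p)) {A ψ : Fin m → Fm (n + 1) Y}
    (hA : ∀ l, Ty (n + 1) 0 (A l)) (hψ : ∀ l, Ty n 0 (ψ l)) {α θ : Fm n H.T}
    (hr : ∀ l, H.IsRes (A l) fun y => pb H.val (ψ l) y - Dx (v ∘ H.val) l y * α y +
      (v ∘ H.val) y l • θ y) {h : P m} {k : ℕ} (hh : h.IsHomogeneous k)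
    (h0 : eval (v (H.val p)) h = 0)
    (h1 : lm (df H.val p) (gv v (Dx v) h (H.val p)) = 0) :
    gv v A h (H.val p) = H.D (H.val p) * gv v ψ h (H.val p) := by
  choose B hB hB' using fun l => hr l p
  have e : gv v A h (H.val p) - H.D (H.val p) * gv v ψ h (H.val p) = H.D (H.val p) *
      ∑ l, eval (v (H.val p)) (pderiv l h) • (B l - ψ l (H.val p)) := by
    simp only [gv, hB, Finset.mul_sum, mul_smul_comm, mul_sub, smul_sub, Finset.sum_sub_distrib]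
  rw [← sub_eq_zero, e]
  refine ENFJx_zero H p ?_ ?_
  · rw [← e]
    refine sub_mem (ENF_gv_Ty hA h _) ?_
    have := Tp_mul (H.D_Ty (H.val p)) (ENF_gv_Ty (x := v) hψ h (H.val p))
    rwa [add_comm 1 n] at this
  · have e1 (l : Fin m) : lm (df H.val p) (B l - ψ l (H.val p)) =
        v (H.val p) l • θ p - lm (df H.val p) (Dx v l (H.val p)) * α p := by
      have h2 : lm (df H.val p) (Dx v l (H.val p)) = Dx (v ∘ H.val) l p :=
        hv.pb_Dx (H.emb.hm p) l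
      rw [map_sub, hB' l, h2]
      simp only [pb, Function.comp_apply]
      abel
    have e2 : ∑ l, eval (v (H.val p)) (pderiv l h) • lm (df H.val p) (Dx v l (H.val p)) = 0 := by
      simpa only [gv, map_sum, map_smul] using h1
    simp only [map_sum, map_smul, e1]
    simp only [smul_sub, Finset.sum_sub_distrib, smul_smul,
      ← smul_mul_assoc, ← Finset.sum_smul, ← Finset.sum_mul, e2, euler_eval hh, h0, mul_zero,
      zero_smul, zero_mul, sub_zero]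

theorem ENFJx_gv {y : X} {t : ℂ} {D : Λ 3} {ψ : Fin m → Fm 3 X}
    (e : ∀ l, t • g l y - Dx x l y * β y = D * ψ l y) (h : P m) :
    t • gv x g h y = gv x (Dx x) h y * β y + D * gv x ψ h y := by
  simp only [gv, Finset.smul_sum, Finset.sum_mul, Finset.mul_sum, ← Finset.sum_add_distrib]
  refine Finset.sum_congr rfl fun l _ => ?_
  rw [smul_comm, sub_eq_iff_eq_add'.1 (e l), smul_add, smul_mul_assoc, mul_smul_comm]

theorem ENF_rl_dv (g' : Fin m → Q.Om) (h : P m) :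
    R.rl (dv g' h) = gv x (fun l => R.rl (g' l)) h := by
  funext y
  simp only [dv, map_sum, R.smul, gv, ev, Finset.sum_apply, Pi.smul_apply']

theorem ENF_dv_og {g' : Fin m → Q.Om} {j : ℤ} (hg' : ∀ l, g' l ∈ Q.og (j + 1)) {h : P m} {k : ℕ}
    (hh : h.IsHomogeneous k) : dv g' h ∈ Q.og (k + j) := by
  refine Submodule.sum_mem _ fun l _ => ?_
  have := Q.og_smul (pderiv_hz (mem_hz_nat.2 hh) l) (hg' l)
  rwa [show (k : ℤ) - 1 + (j + 1) = k + j by ring] at this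

/-- `res_surj` with `k = 1` gives `g' l` with residue `ĝ l`: at `p ∈ S`, `rl (g' l) = D * B l` where
`B l` restricts to `ĝ l`. For a form `h` put `C h = ∑ ∂_l h • (B l - ψ l)`; it restricts to
`-(D h)| * α + (deg h * h) • θ'` (`pb_Dx`, `euler_eval`), which is `0` for `h = F j` (`FD.gv_F`,
`onc`) and `h = σ` (`dvs_D`, `pb_D`), so `D * C h = 0` (`Div.mul_of_lm`; replace `B l` by its
`(2,0)` part, or use `IsRes.eq_zero_iff` with residue `0`). Now
`rl (dv g' (F j) - b • z j) = D * C (F j) - (D (F j)) * β = 0` and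
`rl (τ - dv g' σ) = -(D * C σ) = 0` on `S`; `res_ker` with `k = dF j` and `k = ν`. -/
theorem ENF_jext (hF : FD Q Pts x) (hg : Good Q Pts σ ν) (hz : ZD R η θ'' g z)
    (hτ : τ ∈ Q.og (2 * ν)) (hb : b.IsHomogeneous ν)
    (e1 : ∀ y ∈ (dvs hF hg).S, ev x b y • gv x g σ y - R.rl τ y = (dvs hF hg).D y * β y)
    {ψ : Fin m → Fm 3 X} (hψ : ∀ l, Ty 2 0 (ψ l))
    (e2 : ∀ l, ∀ y ∈ (dvs hF hg).S, ev x b y • g l y - Dx x l y * β y = (dvs hF hg).D y * ψ l y)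
    {α θ' : Fm 2 (dvs hF hg).T} (hα : Ty 1 0 α) (hθ : Ty 2 0 θ')
    (h : ∀ l p, HFm (gx (x ∘ (dvs hF hg).val) ^ (1 : ℤ)) (fun y => pb (dvs hF hg).val (ψ l) y -
      Dx (x ∘ (dvs hF hg).val) l y * α y + (x ∘ (dvs hF hg).val) y l • θ' y) p) :
    JExt Q z σ ν τ b := by
  have ht (l : Fin m) : Ty 2 0 fun y => pb (dvs hF hg).val (ψ l) y -
      Dx (x ∘ (dvs hF hg).val) l y * α y + (x ∘ (dvs hF hg).val) y l • θ' y := fun p =>
    add_mem (sub_mem (pb_Tp ((dvs hF hg).emb.hm p) (hψ l _))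
      (Tp_mul (p := 1) (q := 0) (p' := 1) (q' := 0) (Dx_Ty l p) (hα p)))
      (Submodule.smul_mem _ _ (hθ p))
  choose g' hg' hr using fun l => res_surj hF hg R (ht l) (h l)
  have hg1 (l : Fin m) : g' l ∈ Q.og (ν + 1) := add_comm (1 : ℤ) ν ▸ hg' l
  have key {f : P m} {k : ℕ} (hf : f.IsHomogeneous k) (p : (dvs hF hg).T)
      (h0 : eval (x ((dvs hF hg).val p)) f = 0)
      (h1 : lm (df (dvs hF hg).val p) (gv x (Dx x) f ((dvs hF hg).val p)) = 0) :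
      R.rl (dv g' f) ((dvs hF hg).val p) =
        (dvs hF hg).D ((dvs hF hg).val p) * gv x ψ f ((dvs hF hg).val p) := by
    rw [ENF_rl_dv]
    exact ENFJx_key (dvs hF hg) p (hF.pm _) (fun l => R.ty _) hψ hr hf h0 h1
  have k1 (j : Fin r) : ∃ w ∈ Q.og (Q.dF j), dv g' (Q.F j) - b • z j = σ • w := by
    refine res_ker hF hg R (sub_mem (ENF_dv_og hg1 (Q.Fh j)) ?_) fun y hy => ?_
    · exact add_comm (ν : ℤ) _ ▸ Q.og_smul (mem_hz_nat.2 hb) (hz.z_dg j)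
    · have h2 := key (Q.Fh j) ⟨y, hy⟩ ((hF.onc _).2 j) (by rw [hF.gv_F, map_zero])
      have h3 := ENFJx_gv (fun l => e2 l y hy) (Q.F j)
      rw [hF.gv_F, zero_mul, zero_add] at h3
      rw [map_sub, R.smul, Pi.sub_apply, Pi.smul_apply', hz.z_eq j y hy.1, h3, sub_eq_zero]
      exact h2
  have k2 : ∃ w ∈ Q.og ν, τ - dv g' σ = σ • w := by
    refine res_ker hF hg R (sub_mem (two_mul (ν : ℤ) ▸ hτ) (ENF_dv_og hg1 hg.hom))
      fun y hy => ?_
    have h2 := key hg.hom ⟨y, hy⟩ hy.2 (by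
      rw [← dvs_D hF hg]
      exact (dvs hF hg).pb_D _)
    have h3 := ENFJx_gv (fun l => e2 l y hy) σ
    have h4 := e1 y hy
    rw [h3, ← dvs_D hF hg, add_sub_assoc, add_eq_left, sub_eq_zero] at h4
    rw [map_sub, Pi.sub_apply, ← h4, sub_eq_zero]
    exact h2.symm
  choose ρ hρ hρ' using k1
  obtain ⟨τ', h1, h2⟩ := k2
  exact ⟨g', ρ, τ', hg1, hρ, h1, fun j => sub_eq_iff_eq_add'.1 (hρ' j), sub_eq_iff_eq_add'.1 h2⟩

end

end Pool.Agent.MP_1c689d_ag.K0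

end

section

/-! The residue formula and the existence of enough functionals. -/

set_option autoImplicit false

open Complex Filter Topology Set MeasureTheory MvPolynomial
open scoped ComplexConjugate ContDiff ENNReal

namespace Pool.Agent.MP_1c689d_ag.K0

noncomputable section

variable {m c r : ℕ} {X : Type} [TopologicalSpace X] [Mf 3 X] [MeasurableSpace X] [BorelSpace X]
  {Q : PD m 4 c r} {Pts : Finset (Fin 4 → ℂ)} {x : X → Fin m → ℂ} {σ : P m} {ν : ℕ}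
  {R : RL Q Pts x} {η θ'' : Fm 3 X} {g : Fin m → Fm 3 X} {z : Fin r → Q.Om} {U : Set X}
  {χ : X → ℂ}

omit [MeasurableSpace X] [BorelSpace X] in
theorem ENFTop_dd {θ Ω : Fm 3 X} (hθ : Cl 2 θ U) {y : X} (hy : y ∈ U) (h : SmAt 1 Ω y) :
    dd (θ * Ω) y = θ y * dd Ω y := by
  rw [dd_mul (hθ.sm y hy) h, hθ.cl y hy, zero_mul, zero_add, gi_of_Dg (hθ.dg y)]
  simp

theorem ENFTop_pr (H : Div 2 X) (hS : IsCompact H.S) : ∃ κ : ℂ, κ ≠ 0 ∧
    ∀ (U : Set X) (χ : X → ℂ) (θ Ω Γ ψ c : Fm 3 X), U ⊆ H.O → Tb 3 U χ H.S → Cl 2 θ U →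
      (∀ y ∈ U, H.σ y ≠ 0 → SmAt 1 Ω y ∧ dd Ω y = 0) → Sm 1 ψ H.S → Sm 1 c H.S →
      (∀ᶠ y in 𝓝ˢ H.S, H.σ y ≠ 0 → SmAt 1 Γ y ∧ Ω y = dd Γ y + H.L y * ψ y + c y) →
      pr χ θ Ω = κ * itg (pb H.val θ * pb H.val ψ) := by
  obtain ⟨κ, hκ, h⟩ := ENF_rf H hS
  refine ⟨κ, hκ, fun U χ θ Ω Γ ψ c hU hT hθ hΩ hψ hc e => ?_⟩
  have hSU : H.S ⊆ U := hT.sub
  rw [← pb_mul]
  refine h U χ (θ * Ω) (θ * Γ) (θ * ψ) (θ * c) hU hT (fun y hy h0 => ?_)
    (fun y hy => (hθ.sm y (hSU hy)).mul_left (hψ y hy))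
    (fun y hy => (hθ.sm y (hSU hy)).mul_left (hc y hy)) ?_
  · refine ⟨(hθ.sm y hy).mul_left (hΩ y hy h0).1, ?_⟩
    rw [ENFTop_dd hθ hy (hΩ y hy h0).1, (hΩ y hy h0).2, mul_zero]
  · filter_upwards [e, hT.op.mem_nhdsSet.2 hSU] with y h1 hy h0
    refine ⟨(hθ.sm y hy).mul_left (h1 h0).1, ?_⟩
    rw [ENFTop_dd hθ hy (h1 h0).1, Pi.mul_apply, Pi.mul_apply, Pi.mul_apply, (h1 h0).2, mul_add,
      mul_add, ← mul_assoc, comm_even (k := 1) (hθ.dg y) (H.L y), mul_assoc]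

theorem ENF_resI_eq (hF : FD Q Pts x) (hg : Good Q Pts σ ν) (R : RL Q Pts x) : ∃ κ : ℂ, κ ≠ 0 ∧
    ∀ (U : Set X) (χ : X → ℂ) (θ : Fm 3 X) (τ : Q.Om) (γ : Fm 2 (dvs hF hg).T),
      U ⊆ Q.O Pts x → Tb 3 U χ {p | ev x σ p = 0} → Cl 2 θ U → τ ∈ Q.og ν →
      (dvs hF hg).IsRes (R.rl τ) γ → resI R χ θ σ τ = κ * itg (pb (dvs hF hg).val θ * γ) := by
  obtain ⟨κ, hκ, h⟩ := ENFTop_pr (dvs hF hg) (dvs_compact hF hg)
  refine ⟨κ, hκ, fun U χ θ τ γ hU hT hθ hτ hγ => ?_⟩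
  obtain ⟨β, h1, -, h3, h4, -⟩ := res_exists hF hg R (k := 0) (w := τ) (by rwa [zero_add])
  rw [zpow_zero] at h1
  rw [hγ.unique h4]
  refine h U χ θ _ 0 β 0 hU (by rwa [dvs_S]) hθ
    (fun y hy h0 => ENF_res_cl hF hg.hom hτ (hU hy) h0) (fun y _ => h1 y (mem_univ y))
    (fun y _ => smAt_zero) ?_
  filter_upwards [h3] with y hy _
  refine ⟨smAt_zero, ?_⟩
  rw [hy, dd_zero, Pi.zero_apply, zero_add, add_zero, ← smul_mul_assoc]
  rfl

omit [MeasurableSpace X] [BorelSpace X] in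
theorem ENFTop_cl {s : ℕ} {θ : Fin s → Fm 3 X} (hθ : ∀ i, Cl 2 (θ i) U) (a : Fin s → ℂ) :
    Cl 2 (∑ i, a i • θ i) U := by
  refine ⟨fun p hp => SmAt.sum fun i _ => ((hθ i).sm p hp).smul _, fun y => ?_, fun p hp => ?_⟩
  · rw [Finset.sum_apply]
    exact Submodule.sum_mem _ fun i _ => Submodule.smul_mem _ _ ((hθ i).dg y)
  · rw [dd_sum fun i _ => ((hθ i).sm p hp).smul _]
    refine Finset.sum_eq_zero fun i _ => ?_
    rw [dd_smul, Pi.smul_apply, (hθ i).cl p hp, smul_zero]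

theorem ENFTop_ex {S : Type} [TopologicalSpace S] [Mf 2 S] [MeasurableSpace S] [BorelSpace S]
    [CompactSpace S] {θ θ' w : Fm 2 S} (hθ : Sm 1 θ univ) (h : Ex 1 (θ - θ')) (hw : Cl 2 w univ) :
    itg (θ' * w) = itg (θ * w) := by
  obtain ⟨κ, h1, -, h3⟩ := h
  have e : θ' * w = θ * w - dd κ * w := by rw [h3, ← sub_mul, sub_sub_cancel]
  rw [e, itg_sub (intg_of_compact fun p hp => (hθ p hp).mul_left (hw.sm p hp))
    (intg_of_compact fun p hp => (h1 p hp).dd.mul_left (hw.sm p hp)),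
    (itg_exact_mul_closed h1 hw.sm (funext fun p => hw.cl p (mem_univ p))).1, sub_zero]

theorem ENF_enough (hF : FD Q Pts x) (hg : Good Q Pts σ ν) (hz : ZD R η θ'' g z)
    (hU : U ⊆ Q.O Pts x) (hT : Tb 3 U χ {p | ev x σ p = 0}) {s : ℕ} {θ : Fin s → Fm 3 X}
    (hθ : ∀ i, Cl 2 (θ i) U ∧ cf (θ i) = θ i)
    (hsp : ∀ θ0 : Fm 2 (dvs hF hg).T, Cl 2 θ0 univ → cf θ0 = θ0 →
      ∃ a : Fin s → ℝ, Ex 1 (θ0 - pb (dvs hF hg).val (∑ i, (a i : ℂ) • θ i)))
    {τ : Q.Om} (hτ : τ ∈ Q.og (2 * ν)) {b : P m} (hb : b.IsHomogeneous ν)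
    (h : ∀ a : Fin s → ℝ, (∀ τ' ∈ Q.og ν, resI R χ (∑ i, (a i : ℂ) • θ i) σ τ' = 0) →
      lamI R χ (∑ i, (a i : ℂ) • θ i) σ τ + muI x g η χ (∑ i, (a i : ℂ) • θ i) σ b = 0) :
    JExt Q z σ ν τ b := by
  have hS := dvs_compact hF hg
  have := (dvs hF hg).compactSpace hS
  obtain ⟨Q', -, -, hF', -⟩ := dvs_fd hF hg
  obtain ⟨β, γ, ρ, u, hD⟩ := ENF_exists_dec hF hg hz hτ hb
  have hm := (dvs hF hg).emb.hm
  have hpb : ∀ {α : Fm 3 X}, Sm 1 α univ → Sm 1 (pb (dvs hF hg).val α) univ := fun hα p _ => by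
    have := (hα _ (mem_univ _)).pb (hm p)
    rwa [gpb_one] at this
  have hty : ∀ {α : Fm 3 X} {i j : ℕ}, Ty i j α → Ty i j (pb (dvs hF hg).val α) :=
    fun hα p => pb_Tp (hm p) (hα _)
  have hϖ : ∀ y ∈ Q.O Pts x, ev x σ y ≠ 0 →
      SmAt 1 ((fun y => (ev x σ y ^ 2)⁻¹ • R.rl τ y) + vp x g η σ b) y ∧
      dd ((fun y => (ev x σ y ^ 2)⁻¹ • R.rl τ y) + vp x g η σ b) y = 0 := fun y hy h0 => by
    have h1 := ENF_lam_cl (R := R) hF hg.hom hτ hy h0
    have h2 := ENF_vp_closed hF hz hg.hom hb hy h0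
    exact ⟨h1.1.add h2.1, by rw [dd_add h1.1 h2.1, h1.2, h2.2, add_zero]⟩
  have s1 : Sm 1 (ρ + γ) univ := fun p hp => (hD.ρ_sm p hp).add (hD.γ_sm p hp)
  have s2 : Sm 1 ((ν : ℂ) • u) (dvs hF hg).S := fun p _ => (hD.u_sm p (mem_univ p)).smul _
  have hdg : Dgr 2 (ρ + γ) := fun y => (Dg 3 2).add_mem
    (Tp_le_Dg (p := 1) (q := 1) (hD.ρ_ty y)) (Tp_le_Dg (p := 2) (q := 0) (hD.γ_ty y))
  have hc : Cl 2 (pb (dvs hF hg).val (ρ + γ)) univ := by
    refine ⟨hpb s1, fun p => pb_Dg (hdg _),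
      fun p _ => congrFun (ENF_rc (dvs hF hg)
        (Ω := (fun y => (ev x σ y ^ 2)⁻¹ • R.rl τ y) + vp x g η σ b)
        (Γ := fun y => (ev x σ y)⁻¹ • β y) (fun y _ => s1 y (mem_univ y)) s2 ?_) p⟩
    filter_upwards [hD.eq, hF.isOpen_O.mem_nhdsSet.2 fun y hy => hy.1] with y h1 hy h0
    exact ⟨(h1 h0).1, (hϖ y hy h0).2, (h1 h0).2⟩
  obtain ⟨α, hα, hαt, hαe⟩ : ∃ α : Fm 2 (dvs hF hg).T, Sm 1 α univ ∧ Ty 1 0 α ∧
      dbar 1 α = pb (dvs hF hg).val ρ := by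
    refine ENF_surf hF' (hty hD.γ_ty) (hty hD.ρ_ty) (pb_add (f := (dvs hF hg).val) ρ γ ▸ hc)
      fun θ0 h0 hr ho => ?_
    obtain ⟨a, ha⟩ := hsp θ0 h0 hr
    have hΘ := ENFTop_cl (fun i => (hθ i).1) fun i => (a i : ℂ)
    obtain ⟨κ, -, hκ⟩ := ENF_resI_eq hF hg R
    obtain ⟨κ', hκ0, hκ'⟩ := ENFTop_pr (dvs hF hg) hS
    have h1 := h a fun τ' hτ' => by
      obtain ⟨β', -, h2, -, h4, h5⟩ := res_exists hF hg R (k := 0) (w := τ') (by rwa [zero_add])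
      rw [zpow_zero] at h5
      rw [hκ U χ _ τ' _ hU hT hΘ hτ' h4, ENFTop_ex h0.sm ha (ENF_hol_cl (hty h2) h5),
        ho _ (hty h2) h5, mul_zero]
    have hcl : IsClosed {p | ev x σ p = 0} := isClosed_ev hF.pm hg.hom
    have h2 := hκ' U χ _ _ _ _ _ hU (by rwa [dvs_S]) hΘ (fun y hy h0 => hϖ y (hU hy) h0)
      (fun y _ => s1 y (mem_univ y)) s2 hD.eq
    rw [pr, mul_add, mul_add, itg_add
      (ENF_intg hT hcl fun y hy => (hΘ.sm y hy.1).mul_left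
        (ENF_lam_cl (R := R) hF hg.hom hτ (hU hy.1) hy.2).1)
      (ENF_intg hT hcl fun y hy => (hΘ.sm y hy.1).mul_left
        (ENF_vp_closed hF hz hg.hom hb (hU hy.1) hy.2).1), ENFTop_ex h0.sm ha hc] at h2
    rw [← pb_add]
    exact (mul_eq_zero.1 (h2.symm.trans h1)).resolve_left hκ0
  choose ψ hψ hψt hψe hψd using hD.psi hz hb
  have hv := hF'.van_top 0 (q := 0) (by norm_num)
  rw [zpow_zero] at hv
  obtain ⟨θ', hθ', hh⟩ := ENF_hat hF'.pm hv (ψ := fun l => pb (dvs hF hg).val (ψ l))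
    (fun l p _ => by
      have := (hψ l _ (mem_univ _)).pb (hm p)
      rwa [gpb_zpow, ← gx_comp] at this)
    hα hαt (hpb hD.u_sm) (hty hD.u_ty) fun l p => by rw [hαe]; exact hψd l p
  exact ENF_jext hF hg hz hτ hb (fun y hy => hD.e1.self_of_nhdsSet y hy) hψt hψe hαt hθ' hh

end

end Pool.Agent.MP_1c689d_ag.K0

end

section

/-! Interface: the pairing and the extended Jacobian space. -/

set_option autoImplicit false
set_option linter.unusedVariables false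
set_option linter.unusedSectionVars false

open Complex Filter Topology Set MeasureTheory MvPolynomial
open scoped ComplexConjugate ContDiff ENNReal

namespace Pool.Agent.MP_1c689d_ag.K0

noncomputable section

variable {m c r : ℕ} {X : Type} [TopologicalSpace X] [Mf 3 X] [MeasurableSpace X] [BorelSpace X]
  {Q : PD m 4 c r} {Pts : Finset (Fin 4 → ℂ)} {x : X → Fin m → ℂ} {σ : P m} {ν : ℕ}
  {R : RL Q Pts x} {η θ'' : Fm 3 X} {g : Fin m → Fm 3 X} {z : Fin r → Q.Om} {U : Set X}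
  {χ : X → ℂ}

/-- The residue formula for `I (τ / σ)`. -/
theorem resI_eq (hF : FD Q Pts x) (hg : Good Q Pts σ ν) (R : RL Q Pts x) : ∃ κ : ℂ, κ ≠ 0 ∧
    ∀ (U : Set X) (χ : X → ℂ) (θ : Fm 3 X) (τ : Q.Om) (γ : Fm 2 (dvs hF hg).T),
      U ⊆ Q.O Pts x → Tb 3 U χ {p | ev x σ p = 0} → Cl 2 θ U → τ ∈ Q.og ν →
      (dvs hF hg).IsRes (R.rl τ) γ → resI R χ θ σ τ = κ * itg (pb (dvs hF hg).val θ * γ) :=
  ENF_resI_eq hF hg R

theorem vp_closed (hF : FD Q Pts x) (hz : ZD R η θ'' g z) (hσ : σ.IsHomogeneous ν) {b : P m}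
    (hb : b.IsHomogeneous ν) {p : X} (hp : p ∈ Q.O Pts x) (h0 : ev x σ p ≠ 0) :
    SmAt 1 (vp x g η σ b) p ∧ dd (vp x g η σ b) p = 0 :=
  ENF_vp_closed hF hz hσ hb hp h0

theorem muI_self (hF : FD Q Pts x) (hz : ZD R η θ'' g z) (hσ : σ.IsHomogeneous ν)
    (hU : U ⊆ Q.O Pts x) (hT : Tb 3 U χ {p | ev x σ p = 0}) {θ : Fm 3 X} (hθ : Cl 2 θ U) :
    muI x g η χ θ σ σ = 0 :=
  ENF_muI_self hz hT hθ

/-- Enough functionals. -/
theorem enough (hF : FD Q Pts x) (hg : Good Q Pts σ ν) (hz : ZD R η θ'' g z)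
    (hU : U ⊆ Q.O Pts x) (hT : Tb 3 U χ {p | ev x σ p = 0}) {s : ℕ} {θ : Fin s → Fm 3 X}
    (hθ : ∀ i, Cl 2 (θ i) U ∧ cf (θ i) = θ i)
    (hsp : ∀ θ0 : Fm 2 (dvs hF hg).T, Cl 2 θ0 univ → cf θ0 = θ0 →
      ∃ a : Fin s → ℝ, Ex 1 (θ0 - pb (dvs hF hg).val (∑ i, (a i : ℂ) • θ i)))
    {τ : Q.Om} (hτ : τ ∈ Q.og (2 * ν)) {b : P m} (hb : b.IsHomogeneous ν)
    (h : ∀ a : Fin s → ℝ, (∀ τ' ∈ Q.og ν, resI R χ (∑ i, (a i : ℂ) • θ i) σ τ' = 0) →
      lamI R χ (∑ i, (a i : ℂ) • θ i) σ τ + muI x g η χ (∑ i, (a i : ℂ) • θ i) σ b = 0) :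
    JExt Q z σ ν τ b :=
  ENF_enough hF hg hz hU hT hθ hsp hτ hb h

end

end Pool.Agent.MP_1c689d_ag.K0

end

section

/-! The real cohomology of degree two is spanned by integral classes. -/

set_option autoImplicit false

open Complex Filter Topology Set MeasureTheory
open scoped ComplexConjugate ContDiff ENNReal

namespace Pool.Agent.MP_1c689d_ag.K0

noncomputable section

variable {n : ℕ} {S Y : Type} [TopologicalSpace S] [Mf n S]

theorem lat_top [CompactSpace S] [TopologicalSpace Y] [Mf (n + 1) Y] {f : S → Y} (hf : Emb f)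
    {O : Set Y} (hO : IsOpen O) (hfO : range f ⊆ O) :
    ∃ (U : Set Y) (s : ℕ) (θ : Fin s → Fm (n + 1) Y), IsOpen U ∧ range f ⊆ U ∧ U ⊆ O ∧
      (∀ i, Cl 2 (θ i) U ∧ cf (θ i) = θ i) ∧
      (∀ a : Fin s → ℤ, IntF (∑ i, (a i : ℂ) • θ i) U) ∧
      ∀ θ0 : Fm n S, Cl 2 θ0 univ → cf θ0 = θ0 →
        ∃ a : Fin s → ℝ, Ex 1 (θ0 - pb f (∑ i, (a i : ℂ) • θ i)) := by
  obtain ⟨V, B, D, hV, hB, hD, hp, hs⟩ := lat_cover (n := n) (S := S)
  choose V' hV' hVV using fun p => hf.emb.isInducing.isOpen_iff.1 (hV p).op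
  have hc := hf.emb.continuous
  obtain ⟨T, ρ, hρ, hts, -, -, h1⟩ := exists_pou (n := n + 1) (isCompact_range hc) V' hV'
    (by
      rintro _ ⟨p, rfl⟩
      exact mem_iUnion.2 ⟨p, show p ∈ f ⁻¹' V' p from (hVV p).symm ▸ hp p⟩)
  obtain ⟨U1, hU1, hfU, hU⟩ := mem_nhdsSet_iff_exists.1 h1
  let N : T → T → T → T → Prop := fun i j k l => (V i ∩ V j ∩ V k ∩ V l).Nonempty
  let Z : T × T × T × T → Set Y := fun x => {y | y ∈ tsupport (ρ x.1) ∩ tsupport (ρ x.2.1) ∩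
    tsupport (ρ x.2.2.1) ∩ tsupport (ρ x.2.2.2) → N x.1 x.2.1 x.2.2.1 x.2.2.2}
  have hZ : ∀ x, IsOpen (Z x) := fun x => by
    by_cases h : N x.1 x.2.1 x.2.2.1 x.2.2.2
    · simp only [Z, h, implies_true, ofPred_true, isOpen_univ]
    · simp only [Z, h, imp_false]
      exact ((((isClosed_tsupport _).inter (isClosed_tsupport _)).inter
        (isClosed_tsupport _)).inter (isClosed_tsupport _)).isOpen_compl
  have hm : ∀ i p, f p ∈ tsupport (ρ i) → p ∈ V i := fun i p h => hVV i ▸ hts i h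
  have hre : ∀ i y, conj (ρ i y) = ρ i y := fun i y => by
    obtain ⟨t, -, -, ht⟩ := (hρ i).mem y
    rw [ht, conj_ofReal]
  have hone : ∀ y ∈ U1, ∑ i : T, ρ i y = 1 := fun y hy => by
    rw [Finset.sum_coe_sort T fun i => ρ i y]
    exact hU hy
  have hP : LatP (n + 1) (fun i : T => ρ i) N (O ∩ U1 ∩ ⋂ x, Z x) :=
    ⟨(hO.inter hU1).inter (isOpen_iInter_of_finite hZ), fun i => (hρ i).sm, fun i => hre i,
      fun y hy => hone y hy.1.2,
      fun i j k l y hy hi hj hk hl => mem_iInter.1 hy.2 (i, j, k, l) ⟨⟨⟨hi, hj⟩, hk⟩, hl⟩⟩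
  obtain ⟨s, v, hv, hsp⟩ := lat_lin N
  refine ⟨_, s, fun t => latW (n + 1) (fun i : T => ρ i) fun i j k => v t i j k, hP.op, ?_,
    fun y hy => hy.1.1, fun t => ⟨hP.cl fun i j k l h => ?_, latW_cf hP.re _⟩, fun a => ?_,
    fun θ0 h0 hr => ?_⟩
  · rintro _ ⟨p, rfl⟩
    exact ⟨⟨hfO ⟨p, rfl⟩, hfU ⟨p, rfl⟩⟩, mem_iInter.2 fun x h =>
      ⟨p, ⟨⟨hm _ _ h.1.1.1, hm _ _ h.1.1.2⟩, hm _ _ h.1.2⟩, hm _ _ h.2⟩⟩
  · exact_mod_cast hv t i j k l h
  · have h2 := latW_sum (n := n + 1) (ρ := fun i : T => ρ i) (fun t => (a t : ℝ))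
      fun t i j k => (v t i j k : ℝ)
    simp only [ofReal_intCast] at h2
    have h3 := hP.intF (c := fun i j k => ∑ t, a t * v t i j k) fun i j k l h => by
      simp only [← Finset.sum_sub_distrib, ← Finset.sum_add_distrib]
      refine Finset.sum_eq_zero fun t _ => ?_
      linear_combination a t * hv t i j k l h
    rw [h2]
    simpa only [Int.cast_sum, Int.cast_mul] using h3
  · obtain ⟨c, hc1, hc2⟩ := lat_zig (V := fun i : T => V i) (B := fun i : T => B i)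
      (D := fun i : T => D i) (fun i => hV i) (fun i => hB i) (fun i => hD i) (fun i j => hs i j)
      (ρ := fun i : T => ρ i ∘ f) (fun i p _ => by
        have h2 := ((hρ i).sm (f p) trivial).pb (hf.hm p)
        rwa [gpb_one, pb_fn] at h2)
      (fun y => hone _ (hfU ⟨y, rfl⟩))
      (fun i p h => hm i p (hc.closure_preimage_subset _ h)) h0 hr
    obtain ⟨a, ha⟩ := hsp c hc1
    refine ⟨a, ?_⟩
    rw [latW_sum, latW_pb hf.hm hP.sm]
    have h2 : c = fun i j k => ∑ t, a t * v t i j k := by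
      funext i j k
      exact ha i j k
    rwa [h2] at hc2

end

end Pool.Agent.MP_1c689d_ag.K0

end

section

/-! The theorem of Lefschetz on `(1,1)`-classes. -/

set_option autoImplicit false

open Complex Filter Topology Set MeasureTheory
open scoped ComplexConjugate ContDiff ENNReal

namespace Pool.Agent.MP_1c689d_ag.K0

noncomputable section

variable {n : ℕ} {S Y : Type} [TopologicalSpace S] [Mf n S]

theorem LATGauge_prj (c : S → ℂ) (p : S) : prj 0 1 (dd (fn n c) p) = dbar 1 (fn n c) p := by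
  rw [dd_eq, Pi.add_apply, map_add, prj_of_mem ((fn_Ty c).dbar p),
    prj_of_ne ((fn_Ty c).dp p) (by decide), zero_add]

theorem LATGauge_exp {s : S → ℂ} {p : S} (h : SmAt 1 (fn n s) p) :
    dbar 1 (fn n (exp ∘ s)) p = exp (s p) • dbar 1 (fn n s) p := by
  have h1 : HasFDerivAt exp (exp (s p) • (1 : ℂ →L[ℝ] ℂ)) (s p) :=
    (hasDerivAt_exp (s p)).complexToReal_fderiv
  have h2 := dd_comp_fn h h1.differentiableAt
  rw [h1.fderiv] at h2
  simp only [smul_apply, one_apply_eq_self, smul_eq_mul] at h2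
  rw [show (exp (s p) * 1 - I * (exp (s p) * I)) / 2 = exp (s p) by
      linear_combination (-exp (s p) / 2) * I_mul_I,
    show (exp (s p) * 1 + I * (exp (s p) * I)) / 2 = 0 by
      linear_combination (exp (s p) / 2) * I_mul_I, zero_smul, add_zero] at h2
  rw [← LATGauge_prj, h2, map_smul, LATGauge_prj]

theorem LATGauge_smexp {s : S → ℂ} {p : S} (h : SmAt 1 (fn n s) p) :
    SmAt 1 (fn n (exp ∘ s)) p :=
  h.comp_fn (Eventually.of_forall fun _ => contDiff_exp.contDiffAt)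

omit [TopologicalSpace S] [Mf n S] in
theorem LATGauge_fn_smul (c : ℂ) (s : S → ℂ) : (fn n fun y => c * s y) = c • fn n s := by
  funext y
  simp only [fn, Pi.smul_apply, map_mul, Algebra.smul_def]

theorem LATGauge_hol {g s : S → ℂ} {p : S} (hg : SmAt 1 (fn n g) p) (hs : SmAt 1 (fn n s) p)
    (h : ∀ᶠ y in 𝓝 p, dbar 1 (fn n g) y = -(g y • dbar 1 (fn n s) y)) :
    HolAt 1 (fun y => g y * exp (s y)) p := by
  have e : (fn n fun y => g y * exp (s y)) = fn n g * fn n (exp ∘ s) := by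
    funext y
    simp only [fn, Pi.mul_apply, map_mul, Function.comp_apply]
  refine HFm.holAt ⟨?_, ?_⟩ gok_one
  · rw [e]
    exact hg.mul_left (LATGauge_smexp hs)
  · filter_upwards [h, hg.eventually gok_one, hs.eventually gok_one] with y h1 h2 h3
    have h4 := dbar_mul gok_one gok_one h2 (LATGauge_smexp h3)
    rw [mul_one] at h4
    rw [e, h4, LATGauge_exp h3, gi_of_Tp (fn_Ty g y), h1]
    simp only [fn, Function.comp_apply, add_zero, pow_zero, one_smul, ← Algebra.smul_def,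
      ← Algebra.commutes, smul_neg]
    rw [smul_comm, neg_add_cancel]

theorem LATGauge_log {v w : ℂ} (hv : ‖v‖ = 1) :
    (Real.log (normSq (v * exp w)) : ℂ) = w + conj w := by
  rw [map_mul, normSq_eq_norm_sq, hv, normSq_eq_norm_sq, norm_exp, one_pow, one_mul,
    Real.log_pow, Real.log_exp, add_conj]
  norm_num

theorem LATGauge_cur {G : Ga S} {v h : S → ℂ} {b : Fm n S} {c : ℂ} {p : S} (hc : conj c = -c)
    (hG : G p = fun y => v y * exp (-c * h y)) (hv : ∀ᶠ y in 𝓝 p, ‖v y‖ = 1)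
    (hh : SmAt 1 (fn n h) p) (hb : SmAt 1 b p) (e : ∀ᶠ y in 𝓝 p, dbar 1 (fn n h) y = b y)
    (h0 : dbar 1 b p = 0) : cur G p = c • dd (b + cf b) p := by
  have h1 : ∀ α : Fm n S, dp 1 (cf α) = cf (dbar 1 α) := fun α => by
    have := dp_cf (G := 1) (α := α)
    rwa [inv_one] at this
  have h2 : (fn n fun y => (Real.log (normSq (G p y)) : ℂ)) =ᶠ[𝓝 p]
      (-c) • fn n h + c • cf (fn n h) := by
    filter_upwards [hv] with y hy
    rw [cf_fn, ← LATGauge_fn_smul, ← LATGauge_fn_smul, hG]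
    simp only [fn, Pi.add_apply]
    rw [LATGauge_log hy, map_add, map_mul (starRingEnd ℂ), map_neg (starRingEnd ℂ), hc, neg_neg]
  have h3 : dbar 1 (cf (dbar 1 (fn n h))) p = dbar 1 (cf b) p :=
    dbar_congr (e.mono fun y hy => by simp only [cf, hy])
  have h4 : dp 1 (cf b) p = 0 := by rw [h1, cf, h0, map_zero]
  rw [cur, MF4a_congr h2, MF4a_add (hh.smul _) (hh.cf_one.smul _), dp_smul, dbar_smul, dp_smul,
    dbar_smul, Pi.smul_apply, Pi.smul_apply, MF4a_anti hh, dp_congr e, h1, h3,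
    dd_add hb hb.cf_one, dd_eq, dd_eq, Pi.add_apply, Pi.add_apply, h0, h4, add_zero, zero_add,
    smul_add, neg_smul_neg]

theorem lat_pb {m : ℕ} [TopologicalSpace Y] [Mf m Y] {θ : Fm m Y} {W : Set Y} (h : IntF θ W)
    {f : S → Y} (hf : ∀ p, HMap f p) (hW : range f ⊆ W) : IntF (pb f θ) univ := by
  obtain ⟨a, u, h⟩ := h
  refine ⟨fun p => pb f (a (f p)), gpb f u, fun p _ => ?_⟩
  obtain ⟨h1, h2, h3, h4, h5, h6⟩ := h (f p) (hW ⟨p, rfl⟩)
  have hc := fun y => (hf y).continuousAt.tendsto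
  refine ⟨?_, fun y => pb_Dg (h2 (f y)), by rw [← pb_cf, h3], ?_, (hc p).eventually h5, ?_⟩
  · have := SmAt.pb (hf p) h1
    rwa [gpb_one] at this
  · filter_upwards [(hc p).eventually h4, (hc p).eventually (h1.eventually gok_one)] with y a1 a2
    rw [← pb_dd (hf y) a2]
    exact pb_congr EventuallyEq.rfl a1
  · filter_upwards [(hc p).eventually h6] with y hy
    have e : (fn n fun y' => gpb f u y y' / gpb f u p y') =
        pb f (fn m fun y' => u (f y) y' / u (f p) y') :=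
      (pb_fn (f := f) fun y' => u (f y) y' / u (f p) y').symm
    rw [e]
    refine ⟨?_, ?_⟩
    · have := SmAt.pb (hf y) hy.1
      rwa [gpb_one] at this
    · filter_upwards [(hc y).eventually hy.2, (hc y).eventually (hy.1.eventually gok_one)]
        with z a1 a2
      rw [← pb_dd (hf z) a2]
      simp only [pb, a1, map_smul, map_sub, gpb]

theorem lat_gauge {θ β : Fm n S} (hθ : Cl 2 θ univ) (hr : cf θ = θ) (hi : IntF θ univ)
    (hβ : Sm 1 β univ) (ht : Ty 0 1 β) (e : dbar 1 β = pf 0 2 θ) :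
    ∃ G : Ga S, (∀ p, GOk G p) ∧ Ex 1 (cur G - (2 * Real.pi * I : ℂ) • θ) := by
  obtain ⟨a, u, H⟩ := hi
  have H1 := fun p => (H p trivial).1
  have H2 := fun p => (H p trivial).2.1
  have H3 := fun p => (H p trivial).2.2.1
  have H4 := fun p => (H p trivial).2.2.2.1
  have H5 := fun p => (H p trivial).2.2.2.2.1
  have H6 := fun p => (H p trivial).2.2.2.2.2
  clear H
  have hc : conj (2 * Real.pi * I : ℂ) = -(2 * Real.pi * I) := by
    rw [map_mul, map_mul, conj_I, conj_ofReal, map_ofNat, mul_neg]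
  generalize (2 * Real.pi * I : ℂ) = c at hc H6 ⊢
  have b1 : ∀ p, SmAt 1 (pf 0 1 (a p) - β) p := fun p => ((H1 p).pf 0 1).sub (hβ p trivial)
  have b2 : ∀ p, ∀ᶠ y in 𝓝 p, dbar 1 (pf 0 1 (a p) - β) y = 0 := fun p => by
    filter_upwards [H4 p, (H1 p).eventually gok_one] with y a1 a2
    have a3 : pf 0 2 (dp 1 (a p)) y = 0 := pf_zero_dp
    rw [dbar_sub (a2.pf 0 1) (hβ y trivial), ← pf_dbar a2, e]
    simp only [pf] at a3 ⊢
    rw [← a1, dd_eq, Pi.add_apply, map_add, a3, zero_add, sub_self]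
  have b3 : ∀ p, ∃ h : S → ℂ, SmAt 1 (fn n h) p ∧
      ∀ᶠ y in 𝓝 p, dbar 1 (fn n h) y = (pf 0 1 (a p) - β) y := fun p => by
    obtain ⟨γ, g1, g2, g3⟩ := dolbeault_at (p := 0) (q := 0) gok_one (b1 p)
      (Eventually.of_forall fun y => sub_mem (prj_mem _) (ht y)) (b2 p)
    obtain ⟨h, rfl⟩ := g2.exists_fn
    exact ⟨h, g1, g3⟩
  choose h k1 k2 using b3
  have u0 : ∀ {v : ℂ} (w : ℂ), ‖v‖ = 1 → v * exp w ≠ 0 := fun w hv =>
    mul_ne_zero (norm_ne_zero_iff.1 (by rw [hv]; exact one_ne_zero)) (exp_ne_zero w)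
  refine ⟨fun p y => u p y * exp (-c * h p y), fun p => ⟨(H5 p).mono fun y hy => u0 _ hy,
    Eventually.of_forall fun y => u0 _ (H5 y).self_of_nhds, ?_, ?_⟩,
    (-c) • (β + cf β), fun p _ => ((hβ p trivial).add (hβ p trivial).cf_one).smul _,
    fun y => Submodule.smul_mem _ _ (add_mem (Tp_le_Dg (p := 0) (q := 1) (ht y))
      (cj_Dg (Tp_le_Dg (p := 0) (q := 1) (ht y)))), funext fun p => ?_⟩
  · have s1 : SmAt 1 (fn n fun y => -c * h p y) p := by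
      rw [LATGauge_fn_smul]
      exact (k1 p).smul _
    refine ((LATGauge_smexp s1).normSq gok_one).congr ((H5 p).mono fun y hy => ?_)
    simp only [fn, Function.comp_apply]
    rw [map_mul normSq, normSq_eq_norm_sq (u p y), hy, one_pow, one_mul]
  · filter_upwards [H6 p, (k1 p).eventually gok_one, (k2 p).eventually_nhds] with y a1 a2 a3
    have e1 : (fn n fun y' => -c * (h y y' - h p y')) = (-c) • (fn n (h y) - fn n (h p)) := by
      rw [LATGauge_fn_smul]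
      congr 1
      funext z
      simp only [fn, Pi.sub_apply, map_sub]
    have e2 : (fun y' => u y y' * exp (-c * h y y') / (u p y' * exp (-c * h p y'))) =
        fun y' => u y y' / u p y' * exp (-c * (h y y' - h p y')) := by
      funext z
      rw [mul_div_mul_comm, ← exp_sub, mul_sub]
    rw [e2]
    refine LATGauge_hol a1.1 (e1 ▸ ((k1 y).sub a2).smul _) ?_
    filter_upwards [a1.2, a3, k2 y, (k1 y).eventually gok_one, a2.eventually gok_one]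
      with z c1 c2 c3 c4 c5
    rw [e1, dbar_smul, Pi.smul_apply, dbar_sub c4 c5, c2, c3, ← LATGauge_prj, c1, map_smul,
      map_sub, Pi.sub_apply, Pi.sub_apply, sub_sub_sub_cancel_right, smul_smul, ← neg_smul,
      mul_neg, neg_neg, mul_comm]
    rfl
  · have e1 : pf 0 1 (a p) - β + cf (pf 0 1 (a p) - β) = a p - (β + cf β) := by
      funext y
      have s1 := sum_prj (H2 p y)
      have s2 : cj (a p y) = a p y := congrFun (H3 p) y
      simp only [Finset.sum_range_succ, Finset.range_zero, Finset.sum_empty, zero_add] at s1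
      simp only [cf, pf, Pi.add_apply, Pi.sub_apply, map_sub, cj_prj, s2]
      rw [sub_add_sub_comm, s1]
    rw [Pi.sub_apply, LATGauge_cur (v := u p) (h := h p) hc rfl (H5 p) (k1 p) (b1 p) (k2 p)
      (b2 p).self_of_nhds, e1, dd_sub (H1 p) ((hβ p trivial).add (hβ p trivial).cf_one),
      (H4 p).self_of_nhds, dd_smul, Pi.smul_apply, Pi.smul_apply, smul_sub, neg_smul]
    abel

end

end Pool.Agent.MP_1c689d_ag.K0

end

section

/-! Interface: integral classes and line bundles. -/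

set_option autoImplicit false

open Complex Filter Topology Set MeasureTheory
open scoped ComplexConjugate ContDiff ENNReal

namespace Pool.Agent.MP_1c689d_ag.K0

noncomputable section

variable {n : ℕ} {S Y : Type} [TopologicalSpace S] [Mf n S]

theorem IntF.pb {m : ℕ} [TopologicalSpace Y] [Mf m Y] {θ : Fm m Y} {W : Set Y} (h : IntF θ W)
    {f : S → Y} (hf : ∀ p, HMap f p) (hW : range f ⊆ W) : IntF (pb f θ) univ :=
  lat_pb h hf hW

/-- The real cohomology of degree two is spanned by integral classes. -/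
theorem exists_lat [CompactSpace S] [TopologicalSpace Y] [Mf (n + 1) Y] {f : S → Y} (hf : Emb f)
    {O : Set Y} (hO : IsOpen O) (hfO : range f ⊆ O) :
    ∃ (U : Set Y) (s : ℕ) (θ : Fin s → Fm (n + 1) Y), IsOpen U ∧ range f ⊆ U ∧ U ⊆ O ∧
      (∀ i, Cl 2 (θ i) U ∧ cf (θ i) = θ i) ∧
      (∀ a : Fin s → ℤ, IntF (∑ i, (a i : ℂ) • θ i) U) ∧
      ∀ θ0 : Fm n S, Cl 2 θ0 univ → cf θ0 = θ0 →
        ∃ a : Fin s → ℝ, Ex 1 (θ0 - pb f (∑ i, (a i : ℂ) • θ i)) :=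
  lat_top hf hO hfO

/-- The theorem of Lefschetz on `(1,1)`-classes. The form `θ' = θ - d (β + conj β)` has type
`(1,1)`; `a' p = a p - β - conj β` has `∂ bar`-closed `(0,1)` part `∂ bar (h p)` near `p`
(`dolbeault_at`); put `G p = u p * exp (-2 π i h p)`. -/
theorem exists_gauge {θ β : Fm n S} (hθ : Cl 2 θ univ) (hr : cf θ = θ) (hi : IntF θ univ)
    (hβ : Sm 1 β univ) (ht : Ty 0 1 β) (e : dbar 1 β = pf 0 2 θ) :
    ∃ G : Ga S, (∀ p, GOk G p) ∧ Ex 1 (cur G - (2 * Real.pi * I : ℂ) • θ) :=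
  lat_gauge hθ hr hi hβ ht e

end

end Pool.Agent.MP_1c689d_ag.K0

end

section

/-! Good surfaces carry no holomorphic one-form. -/

set_option autoImplicit false

open Complex Filter Topology Set MeasureTheory MvPolynomial
open scoped ComplexConjugate ContDiff ENNReal

namespace Pool.Agent.MP_1c689d_ag.K0

noncomputable section

variable {m c r : ℕ}

theorem QONE_dp {S : Type} [TopologicalSpace S] [Mf 2 S] [CompactSpace S] {α : Fm 2 S}
    (ht : Ty 1 0 α) (hs : Sm 1 α univ) (h0 : dbar 1 α = 0) : dp 1 α = 0 := by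
  borelize S
  have e : dd α = dp 1 α := by rw [dd_eq, h0, add_zero]
  have h1 : Sm 1 (dd α) univ := fun p hp => (hs p hp).dd
  have h2 : Sm 1 (cf (dd α)) univ := fun p hp => (h1 p hp).cf_one
  have h3 : dd (cf (dd α)) = 0 := by
    rw [dd_cf]
    funext p
    rw [cf, dd_dd (hs p trivial), map_zero, Pi.zero_apply]
  have h4 : Sm 1 (dd α * cf (dd α)) univ := fun p hp => (h1 p hp).mul_left (h2 p hp)
  have h5 : ∀ p, dd α p ≠ 0 → ∃ t : ℝ, 0 < t ∧ top ((dd α * cf (dd α)) p) = t := fun p hp => by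
    obtain ⟨t, h, h'⟩ := pos_n0' (n := 2) (a := dd α p) (e ▸ ht.dp p) hp
    rw [show (2 : ℕ) ^ 2 = 4 from rfl, I_pow_four, one_mul] at h'
    exact ⟨t, h, h'⟩
  rw [← e]
  funext p
  by_contra hp
  obtain ⟨t, h, h'⟩ := h5 p hp
  rw [top_zero_of_itg h4 (intg_of_compact h4) (fun y => ?_)
    (itg_exact_mul_closed hs h2 h3).1 p] at h'
  · exact h.ne (by exact_mod_cast h')
  · by_cases hy : dd α y = 0
    · exact ⟨0, le_rfl, by simp [hy]⟩
    · obtain ⟨t, h, h'⟩ := h5 y hy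
      exact ⟨t, h.le, h'⟩

/-- A holomorphic one-form `α` on a compact surface is closed (`∫ dα ∧ conj dα = 0`), so `conj α`
is `∂ bar`-closed, hence `∂ bar f`, and `∫ Om ∧ α ∧ conj α = 0` by Stokes; `Kah.pos10`. -/
theorem one_form_zero {S : Type} [TopologicalSpace S] [Mf 2 S] [CompactSpace S]
    {x : S → Fin m → ℂ} (hx : ∀ p, PMAt x p) (hi : ∀ p, Imm x p) (hv : DbV 2 (1 : Ga S) 0 0)
    {G : Ga S} (hG : G = 1) {α : Fm 2 S} (ht : Ty 1 0 α) (hα : ∀ p, HFm G α p) : α = 0 := by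
  subst hG
  borelize S
  have hs : Sm 1 α univ := fun p _ => (hα p).1
  have h0 : dbar 1 α = 0 := funext fun p => (hα p).2.self_of_nhds
  have h1 := dbar_cf (G := 1) (α := α)
  rw [inv_one, QONE_dp ht hs h0] at h1
  obtain ⟨f, hf, -, hf'⟩ := hv (cf α) (fun p hp => (hs p hp).cf_one) (fun p => cj_Tp (ht p))
    (h1.trans (funext fun p => map_zero _))
  have h2 : Sm 1 (Om x * α) univ := fun p hp => (hx p).Om_sm.mul_left (hs p hp)
  have h3 : dbar 1 (Om x * α) = 0 := funext fun p => by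
    rw [MF3b_bmul (hx p).Om_sm (hs p trivial), h0,
      ((dd_eq_zero_iff (Eventually.of_forall Om_Ty)).1 (hx p).dd_Om).2]
    simp
  have h4 := ibp_dbar (G := 1) (β := f) (fun _ => gok_one) h2 (by rwa [inv_one])
  have h5 : (fun y => gi ((Om x * α) y)) * cf α = -(Om x * (α * cf α)) := by
    funext y
    have := gi_of_Tp (Tp_mul (Om_Ty (x := x) y) (ht y))
    simp only [Pi.mul_apply, Pi.neg_apply, this]
    norm_num [mul_assoc]
  rw [h3, zero_mul, itg_zero, zero_add, inv_one, hf', h5, itg_neg, neg_eq_zero] at h4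
  have h6 : Sm 1 (I • (Om x * (α * cf α))) univ := fun p hp =>
    ((hx p).Om_sm.mul_left ((hs p hp).mul_left (hs p hp).cf_one)).smul I
  have h7 : ∀ p, α p ≠ 0 → ∃ t : ℝ, 0 < t ∧ top ((I • (Om x * (α * cf α))) p) = t :=
    fun p hp => by
      obtain ⟨t, h, h'⟩ := ((hx p).kah (hi p)).pos10 (ht p) hp
      exact ⟨t, h, by rw [Pi.smul_apply, map_smul]; exact h'⟩
  funext p
  by_contra hp
  obtain ⟨t, h, h'⟩ := h7 p hp
  rw [top_zero_of_itg h6 (intg_of_compact h6) (fun y => ?_)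
    (by rw [itg_smul, h4, mul_zero]) p] at h'
  · exact h.ne (by exact_mod_cast h')
  · by_cases hy : α y = 0
    · exact ⟨0, le_rfl, by simp [hy]⟩
    · obtain ⟨t, h, h'⟩ := h7 y hy
      exact ⟨t, h.le, h'⟩

theorem QONE_sum {n : ℕ} {X ι : Type} [TopologicalSpace X] [Mf (n + 1) X] {H : Div n X}
    (T : Finset ι) {A : ι → Fm (n + 1) X} {γ : ι → Fm n H.T} (h : ∀ i, H.IsRes (A i) (γ i))
    (u : ι → X → ℂ) : H.IsRes (fun y => ∑ i ∈ T, u i y • A i y)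
      fun p => ∑ i ∈ T, u i (H.val p) • γ i p := by
  intro p
  choose b h1 h2 using fun i => h i p
  refine ⟨∑ i ∈ T, u i (H.val p) • b i, ?_, ?_⟩
  · simp only [h1, Finset.mul_sum, mul_smul_comm]
  · simp only [map_sum, map_smul, h2]

theorem QONE_sub {n : ℕ} {X : Type} [TopologicalSpace X] [Mf (n + 1) X] {H : Div n X}
    {A A' : Fm (n + 1) X} {γ γ' : Fm n H.T} (h : H.IsRes A γ) (h' : H.IsRes A' γ')
    (u u' : X → ℂ) : H.IsRes (u • A - u' • A')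
      fun p => u (H.val p) • γ p - u' (H.val p) • γ' p := by
  intro p
  obtain ⟨b, h1, h2⟩ := h p
  obtain ⟨b', h1', h2'⟩ := h' p
  refine ⟨u (H.val p) • b - u' (H.val p) • b', ?_, ?_⟩
  · simp only [Pi.sub_apply, Pi.smul_apply', h1, h1', mul_sub, mul_smul_comm]
  · simp only [map_sub, map_smul, h2, h2']

theorem QONE_surf {S : Type} [TopologicalSpace S] [Mf 2 S] {Q : PD m 3 c r}
    {x : S → Fin m → ℂ} (hF : FD Q ∅ x) {g : Fin m → Fm 2 S} (ht : ∀ l, Ty 2 0 (g l))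
    (hg : ∀ l p, HFm (gx x ^ ((0 : ℤ) + 1)) (g l) p) (e : ∀ j p, gv x g (Q.F j) p = 0)
    (a l : Fin m) (p : S) : x p l • g a p - x p a • g l p = 0 := by
  have := hF.cpt
  have hi : ∀ p, Imm x p := fun p => hF.imm p fun u hu => absurd hu (Finset.notMem_empty u)
  obtain ⟨β, θ, sβ, sθ, tβ, -, h⟩ := hF.td_two (a := 1) (q := 0) (k := 0) rfl isOpen_univ
    (by rw [PD.O_empty]) (fun l p _ => (hg l p).1) ht fun j p _ => e j p
  have hv := hF.van_zero 0 (q := 0) (by norm_num)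
  rw [zpow_zero] at hv sβ sθ
  rw [zero_add, zpow_one] at hg
  have h1 : ∀ p, dbar 1 β p = 0 := fun p => by
    have hp := hF.pm p
    refine neg_eq_zero.1 (td_one hp (hi p) (a := 1) (q := 0 + 1) (by norm_num)
      (neg_mem (tβ.dbar p)) (θ := Th x p * β p + dbar 1 θ p) fun l => ?_).1
    have h2 : g l = Dx x l * β + fn 2 (fun y => x y l) * θ := funext fun y => by
      rw [fn_mul]
      exact h l y trivial
    have h3 := (hg l p).2.self_of_nhds
    have e1 : (gx x * 1) p =ᶠ[𝓝 p] gx x p := by rw [mul_one]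
    rw [h2, dbar_add ((hp.Dx_sm l).mul_right (sβ p trivial))
        ((hp.holAt l).smAt.mul_right (sθ p trivial)),
      dbar_mul' e1 hp.gok gok_one (hp.Dx_sm l) (sβ p trivial),
      dbar_mul' e1 hp.gok gok_one (hp.holAt l).smAt (sθ p trivial), hp.dbar_Dx,
      (hp.holAt l).dbar, gi_of_Tp (Dx_Ty l p), fn, PMPa_gi] at h3
    rw [← h3]
    simp only [smul_add, smul_mul_assoc, mul_neg, zero_mul, zero_add, add_zero, pow_one,
      neg_smul, one_smul, neg_mul]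
    abel
  have h2 := one_form_zero hF.pm hi hv rfl tβ fun p => ⟨sβ p trivial, Eventually.of_forall h1⟩
  rw [h a p trivial, h l p trivial, h2]
  simp only [Pi.zero_apply, mul_zero, zero_add, smul_smul, mul_comm, sub_self]

/-- Let `S` be the surface of `s`, `g l` the residue of `rl (ζ l)`, a holomorphic two-form on `S`
with values in `O(1)`. All equations of `S` kill `g` (`IsRes.eq_zero_iff`), so by `FD.td_two` on `S`
`g l = Dx l * β + x l • θ` with `β` of type `(1,0)` and values in `O(0)`. Applying `∂ bar` and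
`td_one` gives `∂ bar β = 0`; so `β = 0`, `x l • g a = x a • g l`, and `res_ker` applies. -/
theorem q_one {X : Type} [TopologicalSpace X] [Mf 3 X] {Q : PD m 4 c r}
    {Pts : Finset (Fin 4 → ℂ)} {x : X → Fin m → ℂ} (hF : FD Q Pts x) : Q1 Q Pts := by
  intro e s hg ζ hζ hF1 hs1 a l
  obtain ⟨R⟩ := hF.exists_rl (by norm_num)
  obtain ⟨Q', hQ, -, hF', -⟩ := dvs_fd hF hg
  choose B _ tB _ rB hB using fun l => res_exists hF hg R (k := 0 + 1) (w := ζ l)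
    (by rw [zero_add, add_comm]; exact hζ l)
  have key : ∀ h : P m, (∃ w, dv ζ h = s • w) → ∀ p,
      gv (x ∘ (dvs hF hg).val) (fun l => pb (dvs hF hg).val (B l)) h p = 0 := by
    rintro h ⟨w, hw⟩ p
    have h1 := QONE_sum Finset.univ rB fun l => ev x (pderiv l h)
    have h2 : (fun y => ∑ l, ev x (pderiv l h) y • R.rl (ζ l) y) = R.rl (s • w) := by
      rw [← hw, dv, map_sum]
      funext y
      simp only [R.smul, Finset.sum_apply, Pi.smul_apply']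
    rw [h2] at h1
    refine (h1.eq_zero_iff (R.ty _) p).2 ?_
    rw [R.smul, Pi.smul_apply', show ev x s ((dvs hF hg).val p) = 0 from
      ((dvs hF hg).val_mem p).2, zero_smul]
  have h3 := QONE_surf hF' (fun l p => pb_Tp ((dvs hF hg).emb.hm p) (tB l _)) hB (fun j => by
    rw [hQ]
    refine Fin.cases ?_ (fun j => ?_) j
    · exact key _ hs1
    · exact key _ (hF1 j)) a l
  have h4 := QONE_sub (rB a) (rB l) (ev x (MvPolynomial.X l)) (ev x (MvPolynomial.X a))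
  rw [← R.smul, ← R.smul, ← map_sub] at h4
  have h5 : ∀ i j, (MvPolynomial.X i : P m) • ζ j ∈ Q.og (2 + e) := fun i j => by
    have := Q.og_smul (mem_hz_nat.2 (isHomogeneous_X ℂ i)) (hζ j)
    rwa [show ((1 : ℕ) : ℤ) + (e + 1) = 2 + e by omega] at this
  obtain ⟨w, -, hw⟩ := res_ker hF hg R (sub_mem (h5 l a) (h5 a l)) fun p hp => by
    refine (h4.eq_zero_iff (R.ty _) (⟨p, hp⟩ : ↥(dvs hF hg).S)).1 ?_
    simp only [ev, eval_X]
    exact h3 _
  exact ⟨w, hw⟩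

end

end Pool.Agent.MP_1c689d_ag.K0

end

section

/-! Definitions for the Noether-Lefschetz locus. -/

set_option autoImplicit false

open Complex Filter Topology Set MeasureTheory MvPolynomial
open scoped ComplexConjugate ContDiff ENNReal

namespace Pool.Agent.MP_1c689d_ag.K0

noncomputable section

variable {m c r k : ℕ} {X : Type} [TopologicalSpace X] [Mf 3 X]

/-- The deformed equation. -/
abbrev nls (σ : P m) (b : Fin k → P m) (t : Fin k → ℂ) : P m := σ + ∑ i, C (t i) * b i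

/-- The pairing with `α / σ ^ n`. -/
def pI [MeasurableSpace X] (x : X → Fin m → ℂ) (χ : X → ℂ) (θ : Fm 3 X) (σ : P m) (n : ℕ)
    (α : Fm 3 X) : ℂ :=
  pr χ θ fun p => (ev x σ p ^ n)⁻¹ • α p

/-- A tube around the zero set of `σ`. -/
structure NLc (Q : PD m 4 c r) (Pts : Finset (Fin 4 → ℂ)) (x : X → Fin m → ℂ) (U : Set X)
    (χ : X → ℂ) (σ : P m) (ν : ℕ) : Prop where
  fd : FD Q Pts x
  hom : σ.IsHomogeneous ν
  sub : U ⊆ Q.O Pts x
  tb : Tb 3 U χ {p | ev x σ p = 0}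

theorem nls_zero (σ : P m) (b : Fin k → P m) : nls σ b 0 = σ := by
  simp [nls]

theorem nls_hom {σ : P m} {ν : ℕ} {b : Fin k → P m} (hσ : σ.IsHomogeneous ν)
    (hb : ∀ i, (b i).IsHomogeneous ν) (t : Fin k → ℂ) : (nls σ b t).IsHomogeneous ν :=
  hσ.add (IsHomogeneous.sum _ _ _ fun i _ => (hb i).C_mul _)

omit [TopologicalSpace X] [Mf 3 X] in
theorem ev_nls (x : X → Fin m → ℂ) (σ : P m) (b : Fin k → P m) (t : Fin k → ℂ) (p : X) :
    ev x (nls σ b t) p = ev x σ p + ∑ i, t i * ev x (b i) p := by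
  simp [nls, ev]

end

end Pool.Agent.MP_1c689d_ag.K0

end

section

/-! Small deformations of a good form. -/

set_option autoImplicit false

open Complex Filter Topology Set MeasureTheory MvPolynomial
open scoped ComplexConjugate ContDiff ENNReal

namespace Pool.Agent.MP_1c689d_ag.K0

noncomputable section

variable {m c r k : ℕ} {X : Type} [TopologicalSpace X] [Mf 3 X] [MeasurableSpace X] [BorelSpace X]
  {Q : PD m 4 c r} {Pts : Finset (Fin 4 → ℂ)} {x : X → Fin m → ℂ} {U : Set X} {χ : X → ℂ}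
  {σ : P m} {ν : ℕ} {b : Fin k → P m}

theorem NLGood_scale {f : P m} {i : ℕ} (hf : f.IsHomogeneous i) {s : ℂ} (hs : s ≠ 0)
    (v : Fin m → ℂ) : eval (s • v) f = 0 ↔ eval v f = 0 := by
  rw [hz_eval_smul (mem_hz_nat.2 hf), mul_eq_zero, or_iff_right (zpow_ne_zero _ hs)]

theorem NLGood_cont (σ : P m) (b : Fin k → P m) :
    Continuous fun z : (Fin k → ℂ) × (Fin m → ℂ) => eval z.2 (nls σ b z.1) := by
  simp only [nls, map_add, map_sum, map_mul, eval_C]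
  exact ((MvPolynomial.continuous_eval σ).comp continuous_snd).add
    (continuous_finsetSum _ fun i _ => ((continuous_apply i).comp continuous_fst).mul
      ((MvPolynomial.continuous_eval (b i)).comp continuous_snd))

theorem NLGood_pderiv (σ : P m) (b : Fin k → P m) (t : Fin k → ℂ) (l : Fin m) :
    pderiv l (nls σ b t) = nls (pderiv l σ) (fun i => pderiv l (b i)) t := by
  simp only [nls, map_add, map_sum, pderiv_C_mul]

theorem NLGood_jd (Q : PD m 4 c r) (σ : P m) (b : Fin k → P m) (A : Fin c → Fin r)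
    (l : Fin 3 → Fin m) : Continuous fun z : (Fin k → ℂ) × (Fin m → ℂ) =>
      eval z.2 (Q.jd A (Fin.cons (gd (nls σ b z.1)) fun i => ue (l i))) := by
  simp only [PD.jd, RingHom.map_det]
  refine Continuous.matrix_det (continuous_matrix fun i j => ?_)
  simp only [RingHom.mapMatrix_apply, Matrix.map_apply, Matrix.of_apply]
  rcases i with a | i
  · exact (MvPolynomial.continuous_eval _).comp continuous_snd
  · refine Fin.cases ?_ (fun i => ?_) i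
    · simp only [Sum.elim_inr, Fin.cons_zero, gd, NLGood_pderiv]
      exact NLGood_cont _ _
    · simp only [Sum.elim_inr, Fin.cons_succ]
      exact (MvPolynomial.continuous_eval _).comp continuous_snd

theorem NLGood_off (Q : PD m 4 c r) (Pts : Finset (Fin 4 → ℂ)) :
    IsOpen {v : Fin m → ℂ | Q.Off Pts v} := by
  have e : {v : Fin m → ℂ | Q.Off Pts v} = ⋂ u ∈ Pts,
      (fun (v : Fin m → ℂ) i => v (Q.yi i)) ⁻¹' (Submodule.span ℂ {u} : Set (Fin 4 → ℂ))ᶜ := by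
    ext v
    simp only [PD.Off, mem_ofPred_eq, mem_iInter, mem_preimage, mem_compl_iff, SetLike.mem_coe,
      Submodule.mem_span_singleton, not_exists, ne_eq, eq_comm]
  rw [e]
  exact isOpen_biInter_finset fun u _ =>
    (Submodule.closed_of_finiteDimensional _).isOpen_compl.preimage
      (continuous_pi fun i => continuous_apply _)

theorem NLGood_jd_hom (Q : PD m 4 c r) {τ : P m} (hτ : τ.IsHomogeneous ν) (A : Fin c → Fin r)
    (l : Fin 3 → Fin m) :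
    ∃ d, (Q.jd A (Fin.cons (gd τ) fun i => ue (l i))).IsHomogeneous d := by
  refine ⟨_, Q.jd_mem A _ (Fin.cons (ν - 1) fun _ => 0) fun i a => ?_⟩
  refine Fin.cases ?_ (fun i => ?_) i
  · exact hτ.pderiv
  · simp only [Fin.cons_succ, ue, Pi.single_apply]
    split_ifs
    · exact isHomogeneous_one _ _
    · exact isHomogeneous_zero _ _ _

theorem Good.near (hg : Good Q Pts σ ν) (hb : ∀ i, (b i).IsHomogeneous ν) :
    ∀ᶠ t in 𝓝 (0 : Fin k → ℂ), Good Q Pts (nls σ b t) ν := by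
  have hK : IsCompact {v : Fin m → ℂ | ‖v‖ = 1 ∧ ∀ j, eval v (Q.F j) = 0} := by
    refine (isCompact_sphere (0 : Fin m → ℂ) 1).of_isClosed_subset ?_ fun v hv => by simpa using hv.1
    rw [ofPred_and, ofPred_forall]
    exact (isClosed_eq continuous_norm continuous_const).inter
      (isClosed_iInter fun j => isClosed_eq (MvPolynomial.continuous_eval _) continuous_const)
  have key := hK.eventually_forall_of_forall_eventually (x₀ := (0 : Fin k → ℂ))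
    (P := fun t v => eval v (nls σ b t) = 0 → Q.Off Pts v ∧ (∃ i : Fin 3, v (Q.yi i.succ) ≠ 0) ∧
      ∃ (A : Fin c → Fin r) (l : Fin 3 → Fin m),
        eval v (Q.jd A (Fin.cons (gd (nls σ b t)) fun i => ue (l i))) ≠ 0) fun v hv => by
      have h1 : Q.OnC v := ⟨fun h0 => by simpa [h0] using hv.1, hv.2⟩
      by_cases h0 : eval v σ = 0
      · obtain ⟨i, hi⟩ := hg.ax v h1 h0
        obtain ⟨A, l, hA⟩ := hg.sm v h1 h0
        filter_upwards [continuous_snd.continuousAt.eventually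
            ((NLGood_off Q Pts).mem_nhds (hg.off v h1 h0)),
          ((continuous_apply (Q.yi i.succ)).comp continuous_snd).continuousAt.eventually_ne
            (x := ((0 : Fin k → ℂ), v)) hi,
          (NLGood_jd Q σ b A l).continuousAt.eventually_ne (x := ((0 : Fin k → ℂ), v)) (y := 0)
            (by simpa only [nls_zero] using hA)] with z a1 a2 a3 _
        exact ⟨a1, ⟨i, a2⟩, A, l, a3⟩
      · filter_upwards [(NLGood_cont σ b).continuousAt.eventually_ne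
          (x := ((0 : Fin k → ℂ), v)) (y := 0) (by simpa only [nls_zero] using h0)] with z a1 a2
        exact (a1 a2).elim
  filter_upwards [key] with t ht
  have hh := nls_hom hg.hom hb t
  have h2 : ∀ v, Q.OnC v → eval v (nls σ b t) = 0 →
      Q.Off Pts v ∧ (∃ i : Fin 3, v (Q.yi i.succ) ≠ 0) ∧
      ∃ (A : Fin c → Fin r) (l : Fin 3 → Fin m),
        eval v (Q.jd A (Fin.cons (gd (nls σ b t)) fun i => ue (l i))) ≠ 0 := fun v hv h0 => by
    have hn : ‖v‖ ≠ 0 := norm_ne_zero_iff.2 hv.1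
    have hs : ((‖v‖ : ℂ))⁻¹ ≠ 0 := inv_ne_zero (ofReal_ne_zero.2 hn)
    obtain ⟨a1, ⟨i, a2⟩, A, l, a3⟩ := ht (((‖v‖ : ℂ))⁻¹ • v)
      ⟨by rw [norm_smul, norm_inv, norm_real, norm_norm, inv_mul_cancel₀ hn],
        fun j => (NLGood_scale (Q.Fh j) hs v).2 (hv.2 j)⟩ ((NLGood_scale hh hs v).2 h0)
    refine ⟨fun u hu s e => a1 u hu (((‖v‖ : ℂ))⁻¹ * s) ?_,
      ⟨i, fun e => a2 (by rw [Pi.smul_apply, e, smul_zero])⟩, A, l, fun e => a3 ?_⟩
    · rw [mul_smul, ← e]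
      rfl
    · obtain ⟨d, hd⟩ := NLGood_jd_hom Q hh A l
      exact (NLGood_scale hd hs v).2 e
  exact ⟨hh, hg.pos, fun v a1 a2 => (h2 v a1 a2).1, fun v a1 a2 => (h2 v a1 a2).2.1,
    fun v a1 a2 => (h2 v a1 a2).2.2⟩

omit [MeasurableSpace X] [BorelSpace X] in
theorem NLc.bound (h : NLc Q Pts x U χ σ ν) {β : P m} (hβ : β.IsHomogeneous ν) :
    ∃ M : ℝ, ∀ p, p ∉ interior {y | χ y = 1} →
      ev x σ p ≠ 0 ∧ ‖ev x β p / ev x σ p‖ ≤ M := by
  have := h.fd.cpt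
  have h1 : ∀ p ∈ (interior {y | χ y = 1})ᶜ, ev x σ p ≠ 0 := fun p hp h0 =>
    hp (subset_interior_iff_mem_nhdsSet.2 h.tb.one h0)
  have h2 : ContinuousOn (fun p => ‖ev x β p‖ / ‖ev x σ p‖) (interior {y | χ y = 1})ᶜ :=
    (continuous_norm_ev h.fd.pm hβ).continuousOn.div
      (continuous_norm_ev h.fd.pm h.hom).continuousOn fun p hp => norm_ne_zero_iff.2 (h1 p hp)
  obtain ⟨M, hM⟩ := isOpen_interior.isClosed_compl.isCompact.bddAbove_image h2
  exact ⟨M, fun p hp => ⟨h1 p hp, by rw [norm_div]; exact hM ⟨p, hp, rfl⟩⟩⟩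

omit [MeasurableSpace X] [BorelSpace X] in
theorem NLc.near (h : NLc Q Pts x U χ σ ν) (hb : ∀ i, (b i).IsHomogeneous ν) :
    ∀ᶠ t in 𝓝 (0 : Fin k → ℂ), NLc Q Pts x U χ (nls σ b t) ν := by
  choose M hM using fun i => h.bound (hb i)
  obtain ⟨M₀, hM₀⟩ := h.bound h.hom
  have h1 : ∀ᶠ t in 𝓝 (0 : Fin k → ℂ), ∑ i, ‖t i‖ * M i < 1 := by
    have h2 : Continuous fun t : Fin k → ℂ => ∑ i, ‖t i‖ * M i := by fun_prop
    exact h2.continuousAt.eventually_lt continuousAt_const (by simp)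
  filter_upwards [h1] with t ht
  refine ⟨h.fd, nls_hom h.hom hb t, h.sub, h.tb.op, h.tb.bump, h.tb.supp,
    subset_interior_iff_mem_nhdsSet.1 fun p hp => ?_⟩
  by_contra hn
  have h0 := (hM₀ p hn).1
  have h2 : ev x σ p + ∑ i, t i * ev x (b i) p = 0 := (ev_nls x σ b t p).symm.trans hp
  have h3 : ∑ i, t i * (ev x (b i) p / ev x σ p) = -1 := by
    simp only [← mul_div_assoc, ← Finset.sum_div]
    rw [div_eq_iff h0]
    linear_combination h2
  have h4 : ‖∑ i, t i * (ev x (b i) p / ev x σ p)‖ ≤ ∑ i, ‖t i‖ * M i :=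
    norm_sum_le_of_le _ fun i _ => by
      rw [norm_mul]
      exact mul_le_mul_of_nonneg_left (hM i p hn).2 (norm_nonneg _)
  rw [h3, norm_neg, norm_one] at h4
  exact absurd ht (not_lt.2 h4)

theorem NLc.meas (h : NLc Q Pts x U χ σ ν) {β : P m} (hβ : β.IsHomogeneous ν) :
    Measurable fun p => ev x β p / ev x σ p := by
  classical
  have e : (fun p => ev x β p / ev x σ p) =
      {p | ev x σ p = 0}.piecewise (fun _ => 0) fun p => ev x β p / ev x σ p := by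
    funext p
    by_cases hp : p ∈ {p | ev x σ p = 0}
    · rw [piecewise_eq_of_mem _ _ _ hp, show ev x σ p = 0 from hp, div_zero]
    · rw [piecewise_eq_of_notMem _ _ _ hp]
  rw [e]
  refine continuousOn_const.measurable_piecewise (fun p hp => ?_)
    (isClosed_ev h.fd.pm h.hom).measurableSet
  exact ((((h.fd.pm p).holAt_ev' hβ).div ((h.fd.pm p).holAt_ev' h.hom) ((h.fd.pm p).gok_zpow ν)
    hp).smAt.continuousAt).continuousWithinAt

omit [MeasurableSpace X] [BorelSpace X] in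
theorem dchi_zero {p : X} (hp : p ∈ interior {y | χ y = 1} ∨ p ∉ tsupport χ) :
    dd (fn 3 χ) p = 0 := by
  rcases hp with hp | hp
  · rw [dd_congr (α := fn 3 χ) (β := fn 3 fun _ : X => (1 : ℂ))
      (Eventually.mono (mem_interior_iff_mem_nhds.1 hp) fun y hy => congrArg (algebraMap ℂ _) hy),
      dd_const, Pi.zero_apply]
  · rw [dd_congr (α := fn 3 χ) (β := fn 3 fun _ : X => (0 : ℂ))
      ((notMem_tsupport_iff_eventuallyEq.1 hp).mono fun y hy => congrArg (algebraMap ℂ _) hy),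
      dd_const, Pi.zero_apply]

end

end Pool.Agent.MP_1c689d_ag.K0

end

section

/-! The pairing with forms that have a pole along the surface. -/

set_option autoImplicit false

open Complex Filter Topology Set MeasureTheory MvPolynomial
open scoped ComplexConjugate ContDiff ENNReal

namespace Pool.Agent.MP_1c689d_ag.K0

noncomputable section

variable {m c r k : ℕ} {X : Type} [TopologicalSpace X] [Mf 3 X] [MeasurableSpace X] [BorelSpace X]
  {Q : PD m 4 c r} {Pts : Finset (Fin 4 → ℂ)} {x : X → Fin m → ℂ} {U : Set X} {χ : X → ℂ}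
  {σ : P m} {ν : ℕ} {b : Fin k → P m}
  {θ ϖ ϖ' α α' : Fm 3 X} {n : ℕ} {j : ℤ}

omit [BorelSpace X] in
theorem pr_congr (h : ∀ p ∈ tsupport χ, ϖ p = ϖ' p) : pr χ θ ϖ = pr χ θ ϖ' := by
  refine congrArg itg (funext fun p => ?_)
  simp only [Pi.mul_apply]
  by_cases hp : p ∈ tsupport χ
  · rw [h p hp]
  · rw [dchi_zero (Or.inr hp), zero_mul, zero_mul]

theorem pr_smul (t : ℂ) : pr χ θ (t • ϖ) = t * pr χ θ ϖ := by
  rw [pr, pr, mul_smul_comm, mul_smul_comm, itg_smul]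

theorem NLc.intg (h : NLc Q Pts x U χ σ ν) (hθ : Sm 1 θ U)
    (hϖ : Sm 1 ϖ (U \ {p | ev x σ p = 0})) : Intg (dd (fn 3 χ) * (θ * ϖ)) := by
  refine (sm_dchi_mul (n := 2) h.tb.op h.tb.bump.cs h.tb.supp (isClosed_ev h.fd.pm h.hom)
    h.tb.bump.sm (fun p hp => (hθ p hp.1).mul_left (hϖ p hp))
    (fun y hy => eventually_nhdsSet_iff_forall.1 h.tb.one y hy.1) fun y hy => ?_).2
  rw [Pi.mul_apply, dchi_zero (Or.inr hy), zero_mul]

theorem NLc.pr_add (h : NLc Q Pts x U χ σ ν) (hθ : Sm 1 θ U)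
    (hϖ : Sm 1 ϖ (U \ {p | ev x σ p = 0})) (hϖ' : Sm 1 ϖ' (U \ {p | ev x σ p = 0})) :
    pr χ θ (ϖ + ϖ') = pr χ θ ϖ + pr χ θ ϖ' := by
  rw [pr, pr, pr, mul_add, mul_add, itg_add (h.intg hθ hϖ) (h.intg hθ hϖ')]

theorem NLc.pr_sub (h : NLc Q Pts x U χ σ ν) (hθ : Sm 1 θ U)
    (hϖ : Sm 1 ϖ (U \ {p | ev x σ p = 0})) (hϖ' : Sm 1 ϖ' (U \ {p | ev x σ p = 0})) :
    pr χ θ (ϖ - ϖ') = pr χ θ ϖ - pr χ θ ϖ' := by
  rw [pr, pr, pr, mul_sub, mul_sub, itg_sub (h.intg hθ hϖ) (h.intg hθ hϖ')]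

theorem NLc.pr_sum (h : NLc Q Pts x U χ σ ν) {s : ℕ} {θ : Fin s → Fm 3 X}
    (hθ : ∀ i, Sm 1 (θ i) U) (hϖ : Sm 1 ϖ (U \ {p | ev x σ p = 0})) (a : Fin s → ℂ) :
    pr χ (∑ i, a i • θ i) ϖ = ∑ i, a i * pr χ (θ i) ϖ := by
  rw [pr, Finset.sum_mul, Finset.mul_sum]
  simp only [smul_mul_assoc, mul_smul_comm]
  rw [itg_sum fun i _ => (h.intg (hθ i) hϖ).smul (a i)]
  exact Finset.sum_congr rfl fun i _ => itg_smul _

omit [MeasurableSpace X] [BorelSpace X] in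
theorem NLc.sm_div (h : NLc Q Pts x U χ σ ν) (hj : j = n * ν) (hα : Sm (gx x ^ j) α U) :
    Sm 1 (fun p => (ev x σ p ^ n)⁻¹ • α p) (U \ {p | ev x σ p = 0}) := by
  intro p hp
  have hx := h.fd.pm p
  have h1 : σ ^ n ∈ hz m j := by
    rw [hj, mul_comm, ← Nat.cast_mul]
    exact mem_hz_nat.2 (h.hom.pow n)
  have e : ∀ y, ev x (σ ^ n) y = ev x σ y ^ n := fun y => map_pow _ _ _
  have h2 := (hα p hp.1).mul_dual ((hx.holAt_ev h1).smAt.fn_inv (hx.gok_zpow j)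
    (by rw [e]; exact pow_ne_zero n hp.2)) (hx.gok_zpow j)
  rw [mul_fn] at h2
  exact h2.congr (Eventually.of_forall fun y => by rw [Pi.smul_apply', e])

theorem pI_smul (t : ℂ) : pI x χ θ σ n (t • α) = t * pI x χ θ σ n α := by
  rw [pI, pI, ← pr_smul]
  exact congrArg _ (funext fun p => smul_comm _ t (α p))

theorem NLc.pI_add (h : NLc Q Pts x U χ σ ν) (hθ : Sm 1 θ U) (hj : j = n * ν)
    (hα : Sm (gx x ^ j) α U) (hα' : Sm (gx x ^ j) α' U) :
    pI x χ θ σ n (α + α') = pI x χ θ σ n α + pI x χ θ σ n α' := by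
  rw [pI, pI, pI, ← h.pr_add hθ (h.sm_div hj hα) (h.sm_div hj hα')]
  exact congrArg _ (funext fun p => smul_add _ _ _)

theorem NLc.pI_sum (h : NLc Q Pts x U χ σ ν) (hθ : Sm 1 θ U) (hj : j = n * ν) {s : ℕ}
    {α : Fin s → Fm 3 X} (hα : ∀ i, Sm (gx x ^ j) (α i) U) (a : Fin s → ℂ) :
    pI x χ θ σ n (∑ i, a i • α i) = ∑ i, a i * pI x χ θ σ n (α i) := by
  have e : (fun p => (ev x σ p ^ n)⁻¹ • (∑ i, a i • α i) p) =
      ∑ i, a i • fun p => (ev x σ p ^ n)⁻¹ • α i p := by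
    funext p
    rw [Finset.sum_apply, Finset.sum_apply, Finset.smul_sum]
    exact Finset.sum_congr rfl fun i _ => smul_comm _ (a i) (α i p)
  rw [pI, e, pr, Finset.mul_sum, Finset.mul_sum]
  simp only [mul_smul_comm]
  rw [itg_sum fun i _ => (h.intg hθ (h.sm_div hj (hα i))).smul (a i)]
  exact Finset.sum_congr rfl fun i _ => itg_smul _

omit [BorelSpace X] in
theorem NLPi_key (h : NLc Q Pts x U χ σ ν) (t : Fin k → ℂ) : pI x χ θ (nls σ b t) n α =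
    ∫ p, ((1 + ∑ i, t i * (ev x (b i) p / ev x σ p)) ^ n)⁻¹ *
      dens (dd (fn 3 χ) * (θ * fun p => (ev x σ p ^ n)⁻¹ • α p)) p ∂mu 3 X := by
  obtain ⟨jac, -, hj⟩ := exists_jac 3 X
  obtain ⟨M, hM⟩ := h.bound h.hom
  refine integral_congr_ae (Eventually.of_forall fun p => ?_)
  simp only [hj, Pi.mul_apply, mul_smul_comm, map_smul, smul_eq_mul]
  by_cases hp : p ∈ interior {y | χ y = 1}
  · rw [dchi_zero (Or.inl hp), zero_mul, map_zero]
    simp only [mul_zero]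
  · have e : ev x (nls σ b t) p = (1 + ∑ i, t i * (ev x (b i) p / ev x σ p)) * ev x σ p := by
      rw [ev_nls, add_mul, one_mul, Finset.sum_mul]
      refine congrArg _ (Finset.sum_congr rfl fun i _ => ?_)
      rw [mul_assoc, div_mul_cancel₀ _ (hM p hp).1]
    rw [e, mul_pow, mul_inv]
    ring

omit [MeasurableSpace X] [BorelSpace X] in
theorem NLPi_bound (h : NLc Q Pts x U χ σ ν) (hb : ∀ i, (b i).IsHomogeneous ν) :
    ∃ M : ℝ, ∀ (Γ : Fm 3 X) (p : X), dens (dd (fn 3 χ) * Γ) p ≠ 0 →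
      ∀ i, ‖ev x (b i) p / ev x σ p‖ ≤ M := by
  choose M hM using fun i => h.bound (hb i)
  obtain ⟨jac, -, hj⟩ := exists_jac 3 X
  refine ⟨∑ i, |M i|, fun Γ p hp i => ((hM i p fun h0 => hp ?_).2.trans (le_abs_self _)).trans
    (Finset.single_le_sum (fun i _ => abs_nonneg (M i)) (Finset.mem_univ i))⟩
  rw [hj, Pi.mul_apply, dchi_zero (Or.inl h0), zero_mul, map_zero, mul_zero]

theorem NLc.pI_cont (h : NLc Q Pts x U χ σ ν) (hb : ∀ i, (b i).IsHomogeneous ν) (hθ : Sm 1 θ U)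
    (hj : j = n * ν) (hα : Sm (gx x ^ j) α U) :
    ContinuousAt (fun t => pI x χ θ (nls σ b t) n α) 0 := by
  obtain ⟨M, hM⟩ := NLPi_bound h hb
  simp only [NLPi_key h]
  exact nl_cont (fun i => h.meas (hb i)) (h.intg hθ (h.sm_div hj hα)) (hM _) n

theorem NLc.pI_strict (h : NLc Q Pts x U χ σ ν) (hb : ∀ i, (b i).IsHomogeneous ν) (hθ : Sm 1 θ U)
    (hα : Sm (gx x ^ (ν : ℤ)) α U) : ∃ D : (Fin k → ℂ) →L[ℂ] ℂ,
      (∀ v, D v = -∑ i, v i * pI x χ θ σ 2 (ev x (b i) • α)) ∧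
      HasStrictFDerivAt (fun t => pI x χ θ (nls σ b t) 1 α) D 0 := by
  obtain ⟨M, hM⟩ := NLPi_bound h hb
  obtain ⟨D, h1, h2⟩ := nl_strict (fun i => h.meas (hb i))
    (h.intg hθ (h.sm_div (n := 1) (by simp) hα)) (hM _)
  refine ⟨D, fun v => ?_, ?_⟩
  · rw [h1]
    refine congrArg _ (Finset.sum_congr rfl fun i _ => congrArg _ ?_)
    obtain ⟨jac, -, hj⟩ := exists_jac 3 X
    refine integral_congr_ae (Eventually.of_forall fun p => ?_)
    simp only [hj, Pi.mul_apply, Pi.smul_apply', mul_smul_comm, map_smul, smul_eq_mul]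
    ring
  · simp only [NLPi_key h, pow_one] at h2 ⊢
    exact h2

end

end Pool.Agent.MP_1c689d_ag.K0

end

section

/-! The three functionals: linearity and dependence on the equation. -/

set_option autoImplicit false

open Complex Filter Topology Set MeasureTheory MvPolynomial
open scoped ComplexConjugate ContDiff ENNReal

namespace Pool.Agent.MP_1c689d_ag.K0

noncomputable section

variable {m c r k : ℕ} {X : Type} [TopologicalSpace X] [Mf 3 X] [MeasurableSpace X] [BorelSpace X]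
  {Q : PD m 4 c r} {Pts : Finset (Fin 4 → ℂ)} {x : X → Fin m → ℂ} {U : Set X} {χ : X → ℂ}
  {σ : P m} {ν : ℕ} {b : Fin k → P m}
  {R : RL Q Pts x} {η θ θ'' : Fm 3 X} {g : Fin m → Fm 3 X} {z : Fin r → Q.Om}

omit [MeasurableSpace X] [BorelSpace X] in
theorem NLFun_rl (h : NLc Q Pts x U χ σ ν) (R : RL Q Pts x) {j : ℤ} {τ : Q.Om} (hτ : τ ∈ Q.og j) :
    Sm (gx x ^ j) (R.rl τ) U := fun p hp => (R.hol j τ hτ p (h.sub hp)).1

omit [MeasurableSpace X] [BorelSpace X] in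
theorem NLFun_gv (h : NLc Q Pts x U χ σ ν) (hz : ZD R η θ'' g z) {β : P m}
    (hβ : β.IsHomogeneous ν) : Sm (gx x ^ (ν : ℤ)) (gv x g β) U := fun p hp =>
  (h.fd.pm p).gv_sm (mem_hz_nat.2 hβ) (fun a => hz.g_sm a p (h.sub hp)) (by ring)

omit [MeasurableSpace X] [BorelSpace X] in
theorem NLFun_ev (h : NLc Q Pts x U χ σ ν) {β : P m} (hβ : β.IsHomogeneous ν) {α : Fm 3 X}
    (hα : Sm (gx x ^ (ν : ℤ)) α U) : Sm (gx x ^ (2 * ν : ℤ)) (ev x β • α) U := fun p hp =>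
  (h.fd.pm p).ev_smul_sm (mem_hz_nat.2 hβ) (hα p hp) (by ring)

omit [MeasurableSpace X] [BorelSpace X] in
theorem NLFun_eta (h : NLc Q Pts x U χ σ ν) (hz : ZD R η θ'' g z) {β : P m}
    (hβ : β.IsHomogeneous ν) : Sm (gx x ^ (ν : ℤ)) (ev x β • η) U := fun p _ =>
  (h.fd.pm p).ev_smul_sm (j := 0) (mem_hz_nat.2 hβ)
    (by rw [zpow_zero]; exact hz.f21.sm p (mem_univ p)) (by ring)

omit [TopologicalSpace X] [Mf 3 X] [MeasurableSpace X] [BorelSpace X] in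
theorem NLFun_vp (β : P m) : vp x g η σ β = (fun p => (ev x σ p ^ 1)⁻¹ • gv x g β p) -
    (fun p => (ev x σ p ^ 2)⁻¹ • (ev x β • gv x g σ) p) -
    (fun p => (ev x σ p ^ 1)⁻¹ • (ev x β • η) p) := by
  funext p
  simp only [vp, Pi.sub_apply, Pi.smul_apply', pow_one, smul_smul, div_eq_inv_mul]

omit [MeasurableSpace X] [BorelSpace X] in
theorem NLFun_vp_sm (h : NLc Q Pts x U χ σ ν) (hz : ZD R η θ'' g z) {β : P m}
    (hβ : β.IsHomogeneous ν) : Sm 1 (vp x g η σ β) (U \ {p | ev x σ p = 0}) := by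
  rw [NLFun_vp]
  exact fun p hp => ((h.sm_div (by simp) (NLFun_gv h hz hβ) p hp).sub
    (h.sm_div (by simp) (NLFun_ev h hβ (NLFun_gv h hz h.hom)) p hp)).sub
    (h.sm_div (by simp) (NLFun_eta h hz hβ) p hp)

theorem NLFun_ext {M : Type} [AddCommGroup M] [Module ℂ M] (S : Submodule ℂ M) (f : M → ℂ)
    (ha : ∀ a ∈ S, ∀ b ∈ S, f (a + b) = f a + f b) (hs : ∀ (t : ℂ), ∀ a ∈ S, f (t • a) = t * f a) :
    ∃ L : M →ₗ[ℂ] ℂ, ∀ a ∈ S, L a = f a := by
  let F : S →ₗ[ℂ] ℂ :=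
    { toFun := fun a => f a
      map_add' := fun a b => ha a a.2 b b.2
      map_smul' := fun t a => hs t a a.2 }
  obtain ⟨L, hL⟩ := F.exists_extend
  exact ⟨L, fun a h => LinearMap.congr_fun hL ⟨a, h⟩⟩

omit [TopologicalSpace X] [Mf 3 X] [MeasurableSpace X] [BorelSpace X] in
theorem NLFun_gv_nls (t : Fin k → ℂ) :
    gv x g (nls σ b t) = gv x g σ + ∑ i, t i • gv x g (b i) := by
  funext p
  simp only [gv, nls, Pi.add_apply, Finset.sum_apply, Pi.smul_apply, map_add, map_sum, pderiv_C_mul,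
    map_mul, eval_C, add_smul, Finset.sum_add_distrib, Finset.sum_smul, Finset.smul_sum, mul_smul]
  rw [Finset.sum_comm]

omit [BorelSpace X] in
theorem resI_pI (τ : Q.Om) : resI R χ θ σ τ = pI x χ θ σ 1 (R.rl τ) := by
  simp only [resI, pI, pow_one]

omit [BorelSpace X] in
theorem lamI_pI (τ : Q.Om) : lamI R χ θ σ τ = pI x χ θ σ 2 (R.rl τ) := by
  rfl

theorem NLc.muI_pI (h : NLc Q Pts x U χ σ ν) (hz : ZD R η θ'' g z) (hθ : Sm 1 θ U) {β : P m}
    (hβ : β.IsHomogeneous ν) : muI x g η χ θ σ β = pI x χ θ σ 1 (gv x g β) -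
      pI x χ θ σ 2 (ev x β • gv x g σ) - pI x χ θ σ 1 (ev x β • η) := by
  have h1 := h.sm_div (n := 1) (by simp) (NLFun_gv h hz hβ)
  have h2 := h.sm_div (n := 2) (by simp) (NLFun_ev h hβ (NLFun_gv h hz h.hom))
  have h3 := h.sm_div (n := 1) (by simp) (NLFun_eta h hz hβ)
  rw [muI, NLFun_vp, h.pr_sub hθ (fun p hp => (h1 p hp).sub (h2 p hp)) h3, h.pr_sub hθ h1 h2]
  rfl

theorem NLc.exists_re (h : NLc Q Pts x U χ σ ν) (R : RL Q Pts x) (hθ : Sm 1 θ U) :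
    ∃ L : Q.Om →ₗ[ℂ] ℂ, ∀ τ ∈ Q.og ν, L τ = resI R χ θ σ τ := by
  refine NLFun_ext _ _ (fun a ha a' ha' => ?_) fun t a _ => ?_
  · simp only [resI_pI, map_add]
    exact h.pI_add hθ (by simp) (NLFun_rl h R ha) (NLFun_rl h R ha')
  · simp only [resI_pI, map_smul]
    exact pI_smul t

theorem NLc.exists_la (h : NLc Q Pts x U χ σ ν) (R : RL Q Pts x) (hθ : Sm 1 θ U) :
    ∃ L : Q.Om →ₗ[ℂ] ℂ, ∀ τ ∈ Q.og (2 * ν), L τ = lamI R χ θ σ τ := by
  refine NLFun_ext _ _ (fun a ha a' ha' => ?_) fun t a _ => ?_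
  · simp only [lamI_pI, map_add]
    exact h.pI_add hθ (by simp) (NLFun_rl h R ha) (NLFun_rl h R ha')
  · simp only [lamI_pI, map_smul]
    exact pI_smul t

theorem NLc.exists_mi (h : NLc Q Pts x U χ σ ν) (hz : ZD R η θ'' g z) (hθ : Sm 1 θ U) :
    ∃ L : P m →ₗ[ℂ] ℂ, ∀ β : P m, β.IsHomogeneous ν → L β = muI x g η χ θ σ β := by
  refine NLFun_ext (homogeneousSubmodule (Fin m) ℂ ν) _ (fun a ha a' ha' => ?_) fun t a _ => ?_
  · have e : vp x g η σ (a + a') = vp x g η σ a + vp x g η σ a' := by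
      funext p
      simp only [vp, gv, ev, Pi.add_apply, map_add, add_smul, Finset.sum_add_distrib, add_div,
        smul_add]
      abel
    rw [muI, e, h.pr_add hθ (NLFun_vp_sm h hz ha) (NLFun_vp_sm h hz ha')]
    rfl
  · have e : vp x g η σ (t • a) = t • vp x g η σ a := by
      funext p
      simp only [vp, gv, ev, Pi.smul_apply, Derivation.map_smul, smul_eval, mul_smul,
        ← Finset.smul_sum, smul_sub, mul_div_assoc]
      rw [smul_comm]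
    rw [muI, e, pr_smul]
    rfl

theorem NLc.resI_sum (h : NLc Q Pts x U χ σ ν) {s : ℕ} {θ : Fin s → Fm 3 X}
    (hθ : ∀ i, Sm 1 (θ i) U) (a : Fin s → ℂ) {τ : Q.Om} (hτ : τ ∈ Q.og ν) :
    resI R χ (∑ i, a i • θ i) σ τ = ∑ i, a i * resI R χ (θ i) σ τ := by
  simp only [resI_pI]
  exact h.pr_sum hθ (h.sm_div (by simp) (NLFun_rl h R hτ)) a

theorem NLc.lamI_sum (h : NLc Q Pts x U χ σ ν) {s : ℕ} {θ : Fin s → Fm 3 X}
    (hθ : ∀ i, Sm 1 (θ i) U) (a : Fin s → ℂ) {τ : Q.Om} (hτ : τ ∈ Q.og (2 * ν)) :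
    lamI R χ (∑ i, a i • θ i) σ τ = ∑ i, a i * lamI R χ (θ i) σ τ := by
  exact h.pr_sum hθ (h.sm_div (by simp) (NLFun_rl h R hτ)) a

theorem NLc.muI_sum (h : NLc Q Pts x U χ σ ν) (hz : ZD R η θ'' g z) {s : ℕ}
    {θ : Fin s → Fm 3 X} (hθ : ∀ i, Sm 1 (θ i) U) (a : Fin s → ℂ) {β : P m}
    (hβ : β.IsHomogeneous ν) :
    muI x g η χ (∑ i, a i • θ i) σ β = ∑ i, a i * muI x g η χ (θ i) σ β := by
  exact h.pr_sum hθ (NLFun_vp_sm h hz hβ) a

theorem NLc.res_strict (h : NLc Q Pts x U χ σ ν) (hb : ∀ i, (b i).IsHomogeneous ν)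
    (hθ : Sm 1 θ U) {τ : Q.Om} (hτ : τ ∈ Q.og ν) : ∃ D : (Fin k → ℂ) →L[ℂ] ℂ,
      (∀ v, D v = -∑ i, v i * lamI R χ θ σ (b i • τ)) ∧
      HasStrictFDerivAt (fun t => resI R χ θ (nls σ b t) τ) D 0 := by
  simp only [resI_pI, lamI_pI, R.smul]
  exact h.pI_strict hb hθ (NLFun_rl h R hτ)

theorem NLc.lam_cont (h : NLc Q Pts x U χ σ ν) (hb : ∀ i, (b i).IsHomogeneous ν)
    (hθ : Sm 1 θ U) {τ : Q.Om} (hτ : τ ∈ Q.og (2 * ν)) :
    ContinuousAt (fun t => lamI R χ θ (nls σ b t) τ) 0 := by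
  exact h.pI_cont hb hθ (by simp) (NLFun_rl h R hτ)

theorem NLc.mu_cont (h : NLc Q Pts x U χ σ ν) (hz : ZD R η θ'' g z)
    (hb : ∀ i, (b i).IsHomogeneous ν) (hθ : Sm 1 θ U) {β : P m} (hβ : β.IsHomogeneous ν) :
    ContinuousAt (fun t => muI x g η χ θ (nls σ b t) β) 0 := by
  have s0 := NLFun_ev h hβ (NLFun_gv h hz h.hom)
  have s1 := fun i => NLFun_ev h hβ (NLFun_gv h hz (hb i))
  have c1 := h.pI_cont (n := 1) hb hθ (by simp) (NLFun_gv h hz hβ)
  have c2 := h.pI_cont (n := 2) hb hθ (by simp) s0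
  have c3 := fun i => h.pI_cont (n := 2) hb hθ (by simp) (s1 i)
  have c4 := h.pI_cont (n := 1) hb hθ (by simp) (NLFun_eta h hz hβ)
  have c5 : ContinuousAt (fun t : Fin k → ℂ =>
      ∑ i, t i * pI x χ θ (nls σ b t) 2 (ev x β • gv x g (b i))) 0 :=
    tendsto_finsetSum _ fun i _ => (continuous_apply i).continuousAt.mul (c3 i)
  refine ((c1.sub (c2.add c5)).sub c4).congr ?_
  filter_upwards [h.near hb] with t ht
  have e : ev x β • gv x g (nls σ b t) =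
      ev x β • gv x g σ + ∑ i, t i • (ev x β • gv x g (b i)) := by
    rw [NLFun_gv_nls, smul_add, Finset.smul_sum]
    simp only [smul_comm (ev x β)]
  rw [ht.muI_pI hz hθ hβ, e, ht.pI_add hθ (by simp) s0
    (fun p hp => SmAt.sum fun i _ => (s1 i p hp).smul (t i)), ht.pI_sum hθ (by simp) s1]
  rfl

end

end Pool.Agent.MP_1c689d_ag.K0

end

section

/-! The kernel of the pairing. -/

set_option autoImplicit false

open Complex Filter Topology Set MeasureTheory MvPolynomial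
open scoped ComplexConjugate ContDiff ENNReal

namespace Pool.Agent.MP_1c689d_ag.K0

noncomputable section

variable {m c r k : ℕ} {X : Type} [TopologicalSpace X] [Mf 3 X] [MeasurableSpace X] [BorelSpace X]
  {Q : PD m 4 c r} {Pts : Finset (Fin 4 → ℂ)} {x : X → Fin m → ℂ} {U : Set X} {χ : X → ℂ}
  {σ : P m} {ν : ℕ} {b : Fin k → P m}
  {R : RL Q Pts x} {η θ θ'' : Fm 3 X} {g : Fin m → Fm 3 X} {z : Fin r → Q.Om}

omit [BorelSpace X] in
theorem lamI_self (τ : Q.Om) : lamI R χ θ σ (σ • τ) = resI R χ θ σ τ := by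
  unfold lamI resI
  congr 1
  funext p
  rw [R.smul, Pi.smul_apply', smul_smul]
  congr 1
  by_cases h : ev x σ p = 0
  · simp [h]
  · field_simp

theorem NLc.muI_ideal (h : NLc Q Pts x U χ σ ν) (hz : ZD R η θ'' g z)
    (h0 : ∀ τ ∈ Q.og ν, resI R χ θ σ τ = 0) {f : P m} (hf : f.IsHomogeneous ν) (hI : f ∈ Q.I) :
    muI x g η χ θ σ f = 0 := by
  obtain ⟨u, h1, rfl⟩ := nl_ideal (mem_hz_nat.2 hf) hI
  rw [← h0 (∑ i, u i • z i) (Submodule.sum_mem _ fun i _ => by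
    simpa using Q.og_smul (h1 i) (hz.z_dg i))]
  refine pr_congr fun p hp => ?_
  have h2 := h.sub (h.tb.supp hp)
  have h3 : ∀ i, eval (x p) (Q.F i) = 0 := (h.fd.onc p).2
  have h4 : ev x (∑ i, u i * Q.F i) p = 0 := by simp [ev, h3]
  rw [vp, h4, zero_div, zero_div, zero_smul, zero_smul, sub_zero, sub_zero, map_sum,
    Finset.sum_apply]
  congr 1
  simp only [R.smul, Pi.smul_apply', hz.z_eq _ p h2, gv, ev, map_sum, Derivation.leibniz,
    smul_eq_mul, map_add, map_mul, h3, zero_mul, add_zero, Finset.sum_smul, Finset.smul_sum,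
    mul_smul]
  exact Finset.sum_comm

theorem NLc.ker (h : NLc Q Pts x U χ σ ν) (hz : ZD R η θ'' g z) (hθ : Cl 2 θ U)
    (h0 : ∀ τ ∈ Q.og ν, resI R χ θ σ τ = 0) (hb : ∀ i, (b i).IsHomogeneous ν) {β : P m}
    (hβ : β.IsHomogeneous ν) {t0 : ℂ} {u : Fin k → ℂ}
    (e : C t0 * σ + ∑ i, C (u i) * b i - β ∈ Q.I) :
    (∀ τ ∈ Q.og ν, ∑ i, u i * lamI R χ θ σ (b i • τ) = lamI R χ θ σ (β • τ)) ∧
      ∑ i, u i * muI x g η χ θ σ (b i) = muI x g η χ θ σ β := by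
  obtain ⟨L, hL⟩ := h.exists_la R hθ.sm
  obtain ⟨M, hM⟩ := h.exists_mi hz hθ.sm
  have hw : ∀ {β : P m}, β.IsHomogeneous ν → ∀ τ ∈ Q.og ν, β • τ ∈ Q.og (2 * ν) :=
    fun hβ τ hτ => two_mul (ν : ℤ) ▸ Q.og_smul (mem_hz_nat.2 hβ) hτ
  refine ⟨fun τ hτ => ?_, ?_⟩
  · have e1 := congrArg L (Q.I_smul e τ)
    simp only [← smul_eq_C_mul, sub_smul, add_smul, Finset.sum_smul, smul_assoc, map_sub, map_add,
      map_sum, map_smul, map_zero, smul_eq_mul, hL _ (hw h.hom τ hτ), hL _ (hw hβ τ hτ),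
      hL _ (hw (hb _) τ hτ), lamI_self, h0 τ hτ, mul_zero, zero_add] at e1
    exact sub_eq_zero.1 e1
  · have e2 := ((h.hom.C_mul t0).add
      (IsHomogeneous.sum Finset.univ _ _ fun i _ => (hb i).C_mul (u i))).sub hβ
    have e1 := (hM _ e2).trans (h.muI_ideal hz h0 e2 e)
    simp only [← smul_eq_C_mul, map_sub, map_add, map_sum, map_smul, smul_eq_mul, hM _ h.hom,
      hM _ hβ, hM _ (hb _), muI_self h.fd hz h.hom h.sub h.tb hθ, mul_zero, zero_add] at e1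
    exact sub_eq_zero.1 e1

theorem nl_zero : (∀ τ : Q.Om, lamI R χ θ σ ((0 : P m) • τ) = 0) ∧ muI x g η χ θ σ 0 = 0 := by
  have e : pr χ θ (0 : Fm 3 X) = 0 := by rw [pr, mul_zero, mul_zero, itg_zero]
  refine ⟨fun τ => (pr_congr fun p _ => ?_).trans e, (pr_congr fun p _ => ?_).trans e⟩
  · simp
  · simp [vp, gv, ev]

omit [MeasurableSpace X] [BorelSpace X] in
theorem nl_cl {s : ℕ} {θ : Fin s → Fm 3 X} (hθ : ∀ i, Cl 2 (θ i) U ∧ cf (θ i) = θ i)
    (a : Fin s → ℝ) :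
    Cl 2 (∑ i, (a i : ℂ) • θ i) U ∧ cf (∑ i, (a i : ℂ) • θ i) = ∑ i, (a i : ℂ) • θ i := by
  have h1 : ∀ i, Sm 1 ((a i : ℂ) • θ i) U := fun i p hp => ((hθ i).1.sm p hp).smul _
  refine ⟨⟨fun p hp => SmAt.sum fun i _ => h1 i p hp, fun p => ?_, fun p hp => ?_⟩,
    funext fun p => ?_⟩
  · rw [Finset.sum_apply]
    exact Submodule.sum_mem _ fun i _ => Submodule.smul_mem _ _ ((hθ i).1.dg p)
  · rw [dd_sum fun i _ => h1 i p hp]
    exact Finset.sum_eq_zero fun i _ => by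
      rw [dd_smul, Pi.smul_apply, (hθ i).1.cl p hp, smul_zero]
  · rw [cf, Finset.sum_apply, map_sum]
    refine Finset.sum_congr rfl fun i _ => ?_
    rw [Pi.smul_apply, cj_smul, conj_ofReal]
    exact congrArg _ (congrFun (hθ i).2 p)

theorem nl_notMem {σ : P m} (hg : Good Q Pts σ ν) (hnz : ¬ ZT Q z) : σ ∉ Q.I := by
  intro h
  obtain ⟨-, -, -, -, -, h1⟩ := exists_cut Q Pts hg
  have h2 : ∀ t : Q.Om, t = 0 := fun t => h1 t (Q.I_smul h t)
  exact hnz ⟨0, fun _ => zero_mem _, fun j => (h2 _).trans (h2 _).symm⟩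

end

end Pool.Agent.MP_1c689d_ag.K0

end

section

/-! Integral points near a non-degenerate point. -/

set_option autoImplicit false

open Filter Topology Set

namespace Pool.Agent.MP_1c689d_ag.K0

theorem nl_ift {k s : ℕ} {ρ : Fin s → Fin k → (Fin (k + 1) → ℂ) → ℂ}
    {D : Fin s → Fin k → (Fin (k + 1) → ℂ) →L[ℂ] ℂ}
    (hρ : ∀ i j, HasStrictFDerivAt (ρ i j) (D i j) 0)
    {M : Fin s → (Fin (k + 1) → ℂ) → Fin (k + 1) → Fin (k + 1) → ℂ}
    (hM : ∀ i l j, ContinuousAt (fun t => M i t l j) 0) {a : Fin s → ℝ}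
    (h0 : ∀ j, ∑ i, (a i : ℂ) * ρ i j 0 = 0)
    (h1 : ∀ j h, ∑ i, (a i : ℂ) * D i j h = -h j.succ)
    (h2 : ∀ l j, ∑ i, (a i : ℂ) * M i 0 l j = if l = j then 1 else 0)
    {p : (Fin (k + 1) → ℂ) → Prop} (hp : ∀ᶠ t in 𝓝 0, p t) :
    ∃ (a' : Fin s → ℤ) (ε : ℝ), 0 < ε ∧ ∀ z : ℂ, ‖z‖ < ε → ∃ t, t 0 = z ∧ p t ∧
      (∀ j, ∑ i, (a' i : ℂ) * ρ i j t = 0) ∧
      ∀ u : Fin (k + 1) → ℂ, (∀ j, ∑ l, u l * ∑ i, (a' i : ℂ) * M i t l j = 0) → u = 0 := by
  obtain ⟨x₀, hx⟩ : ∃ x₀ : (Fin (k + 1) → ℂ) × (Fin s → ℂ), x₀ = (0, fun i => (a i : ℂ)) := ⟨_, rfl⟩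
  have e1 : x₀.1 = 0 := by rw [hx]
  have e2 : ∀ i, x₀.2 i = a i := fun i => by rw [hx]
  have k1 := ((hasStrictFDerivAt_apply (𝕜 := ℂ) 0 x₀.1).comp x₀ hasStrictFDerivAt_fst).prodMk
    ((hasStrictFDerivAt_pi.2 fun j => HasStrictFDerivAt.fun_sum (u := Finset.univ) fun i _ =>
      ((hasStrictFDerivAt_apply (𝕜 := ℂ) i x₀.2).comp x₀ hasStrictFDerivAt_snd).fun_mul
        ((e1 ▸ hρ i j).comp x₀ hasStrictFDerivAt_fst)).prodMk hasStrictFDerivAt_snd)
  have k2 := k1.map_nhds_eq_of_surj (LinearMap.range_eq_top.2 fun ⟨z, w, b⟩ =>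
    ⟨(Fin.cons z fun j => ∑ i, ρ i j 0 * b i - w j, b), by
      ext j <;> simp [e1, e2, Finset.sum_add_distrib, h1]⟩)
  have k3 : ContinuousAt (fun x : (Fin (k + 1) → ℂ) × (Fin s → ℂ) =>
      (Matrix.of fun l j => ∑ i, x.2 i * M i x.1 l j).det) x₀ :=
    (continuous_id.matrix_det.continuousAt).comp (continuousAt_pi.2 fun l => continuousAt_pi.2
      fun j => by
        simp only [Matrix.of_apply]
        exact tendsto_finsetSum _ fun i _ =>
          Tendsto.mul ((continuous_apply i).comp continuous_snd).continuousAt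
            ((e1 ▸ hM i l j).comp continuousAt_fst))
  have k4 := (k3.eventually_ne (y := 0) (by
    rw [show (Matrix.of fun l j => ∑ i, x₀.2 i * M i x₀.1 l j) = 1 by
      ext l j; simp [e1, e2, h2, Matrix.one_apply]]
    simp)).and ((continuous_fst.tendsto' x₀ 0 e1).eventually hp)
  obtain ⟨ε, hε, k5⟩ := Metric.mem_nhds_iff.1 (k2 ▸ image_mem_map k4)
  obtain ⟨n, hn⟩ := exists_nat_one_div_lt hε
  have hn0 : (0 : ℝ) < n + 1 := by positivity
  have hn1 : (n : ℂ) + 1 ≠ 0 := by exact_mod_cast hn0.ne'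
  refine ⟨fun i => ⌊a i * (n + 1)⌋, ε, hε, fun z hz => ?_⟩
  obtain ⟨⟨t, al⟩, ⟨b1, b2⟩, b3⟩ := k5 (show (z, 0, fun i => (⌊a i * (n + 1)⌋ : ℂ) / (n + 1)) ∈ _ by
    simp only [Metric.mem_ball, Prod.dist_eq, max_lt_iff, dist_pi_lt_iff hε,
      e1, e2, h0, Pi.zero_apply, dist_self, dist_zero_right]
    refine ⟨hz, fun _ => hε, fun i => lt_of_le_of_lt ?_ hn⟩
    rw [show (⌊a i * (n + 1)⌋ : ℂ) / (n + 1) = ((⌊a i * (n + 1)⌋ / (n + 1) : ℝ) : ℂ) by push_cast; rfl,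
      Complex.isometry_ofReal.dist_eq, Real.dist_eq,
      div_sub' hn0.ne', abs_div, abs_of_pos hn0, mul_comm _ (a i), abs_sub_comm]
    exact div_le_div_of_nonneg_right (Int.abs_fract.trans_le (Int.fract_lt_one _).le) hn0.le)
  simp only [Prod.mk.injEq] at b3
  obtain ⟨b3, b4, rfl⟩ := b3
  refine ⟨t, b3, b2, fun j => ?_, fun u hu => Matrix.eq_zero_of_vecMul_eq_zero b1 (funext fun j => ?_)⟩
  · have := congrFun b4 j
    simp only [div_mul_eq_mul_div, ← Finset.sum_div, Pi.zero_apply] at this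
    exact (div_eq_zero_iff.1 this).resolve_right hn1
  · simp only [Matrix.vecMul, dotProduct, Matrix.of_apply, div_mul_eq_mul_div, ← Finset.sum_div,
      ← mul_div_assoc, hu, zero_div, Pi.zero_apply]

end Pool.Agent.MP_1c689d_ag.K0

end

section

/-! The Noether-Lefschetz locus. -/

set_option autoImplicit false

open Complex Filter Topology Set MeasureTheory MvPolynomial
open scoped ComplexConjugate ContDiff ENNReal

namespace Pool.Agent.MP_1c689d_ag.K0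

noncomputable section

variable {m c r : ℕ} {X : Type} [TopologicalSpace X] [Mf 3 X] [MeasurableSpace X] [BorelSpace X]
  {Q : PD m 4 c r} {Pts : Finset (Fin 4 → ℂ)} {x : X → Fin m → ℂ}

theorem nl_top (hF : FD Q Pts x) (hN : Num Q) (h0 : Q.H0) (h2 : Q.H2) {R : RL Q Pts x}
    {η θ'' : Fm 3 X} {g : Fin m → Fm 3 X} {z : Fin r → Q.Om} (hz : ZD R η θ'' g z)
    (hnz : ¬ ZT Q z) :
    ∃ (ν k : ℕ) (σ : P m) (b : Fin (k + 1) → P m) (U : Set X) (χ : X → ℂ) (θ : Fm 3 X) (ε : ℝ),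
      σ.IsHomogeneous ν ∧ (∀ i, (b i).IsHomogeneous ν) ∧
      (∀ (t0 : ℂ) (t : Fin (k + 1) → ℂ), C t0 * σ + ∑ i, C (t i) * b i ∈ Q.I → t0 = 0 ∧ t = 0) ∧
      cf θ = θ ∧ IntF θ U ∧ 0 < ε ∧ ∃ s0 : ℂ, ∀ s : ℂ, ‖s - s0‖ < ε →
        ∃ t : Fin (k + 1) → ℂ, t 0 = s ∧ NLP R η g U χ θ (σ + ∑ i, C (t i) * b i) ν := by
  obtain ⟨T⟩ := hF.exists_dt (by norm_num) hN.prime
  obtain ⟨σ, ν, hg, lam, mu, hnd⟩ := alg_nd Q Pts hN hF.sm0 h0 h2 T (q_one hF) z hz.z_dg hnz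
  have := (dvs hF hg).compactSpace (dvs_compact hF hg)
  obtain ⟨U, s, θ, hU, hSU, hUO, hθ, hint, hsp⟩ := exists_lat (dvs hF hg).emb hF.isOpen_O
    (by rw [Div.range_val]; exact fun p hp => hp.1)
  rw [Div.range_val] at hSU
  obtain ⟨χ, c1, c2, c3⟩ := exists_cutoff (n := 3) (dvs_compact hF hg) hU hSU
  rw [dvs_S] at c3
  have h : NLc Q Pts x U χ σ ν := ⟨hF, hg.hom, hUO, hU, c1, c2, c3⟩
  have hs : ∀ i, Sm 1 (θ i) U := fun i => (hθ i).1.sm
  choose re hre using fun i => h.exists_re R (hs i)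
  choose la hla using fun i => h.exists_la R (hs i)
  choose mi hmi using fun i => h.exists_mi hz (hs i)
  obtain ⟨w, w1, w2, w3⟩ := nl_basis Q ν
  have hd := alg_dim Q hN hg.pos
  generalize Module.finrank ℂ (Q.og ν) = k at w w1 w2 w3 hd
  obtain ⟨a, b, a1, hb, a2, a3⟩ := nl_lin hnd re la mi w1 w2 fun τ hτ β hβ H =>
    enough hF hg hz hUO h.tb hθ hsp hτ hβ fun a ha => by
      rw [h.lamI_sum hs _ hτ, h.muI_sum hz hs _ hβ]
      simp only [← hla _ τ hτ, ← hmi _ β hβ]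
      refine H a fun τ' hτ' => ?_
      simp only [hre _ τ' hτ']
      rw [← h.resI_sum hs _ hτ', ha τ' hτ']
  have hbw : ∀ {β : P m}, β.IsHomogeneous ν → ∀ τ ∈ Q.og ν, β • τ ∈ Q.og (2 * ν) :=
    fun hβ τ hτ => two_mul (ν : ℤ) ▸ Q.og_smul (mem_hz_nat.2 hβ) hτ
  simp only [hla _ _ (hbw (hb _) _ (w1 _))] at a2
  simp only [hmi _ _ (hb _)] at a3
  have a4 : ∀ τ ∈ Q.og ν, resI R χ (∑ i, (a i : ℂ) • θ i) σ τ = 0 := fun τ hτ => by
    rw [h.resI_sum hs _ hτ, ← a1 τ hτ]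
    simp only [hre _ τ hτ]
  have hind : ∀ (t0 : ℂ) (t : Fin (k + 1) → ℂ),
      C t0 * σ + ∑ i, C (t i) * b i ∈ Q.I → t0 = 0 ∧ t = 0 := fun t0 t e => by
    obtain ⟨e1, e2⟩ := h.ker hz (nl_cl hθ a).1 a4 hb (isHomogeneous_zero _ _ _) (t0 := t0)
      (u := t) (by rwa [sub_zero])
    have ht : t = 0 := funext fun l => by
      refine Fin.cases ?_ (fun j => ?_) l
      · rw [(nl_zero (R := R)).2] at e2
        simp only [h.muI_sum hz hs _ (hb _), a3] at e2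
        simpa using e2
      · have e3 := e1 _ (w1 j)
        rw [(nl_zero (η := η) (g := g)).1] at e3
        simp only [h.lamI_sum hs _ (hbw (hb _) _ (w1 _)), a2] at e3
        simpa using e3
    refine ⟨by_contra fun h1 => nl_notMem hg hnz ?_, ht⟩
    have e4 := Q.I.mul_mem_left (C t0⁻¹) e
    simpa [ht, ← mul_assoc, ← C_mul, inv_mul_cancel₀ h1] using e4
  choose D D1 D2 using fun i j => h.res_strict (R := R) hb (hs i) (w1 j)
  obtain ⟨a', ε, hε, H⟩ := nl_ift D2 (a := a)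
    (M := fun i t l => Fin.cons (muI x g η χ (θ i) (nls σ b t) (b l))
      fun j => lamI R χ (θ i) (nls σ b t) (b l • w j))
    (fun i l j => Fin.cases (h.mu_cont hz hb (hs i) (hb l))
      (fun j => h.lam_cont hb (hs i) (hbw (hb l) _ (w1 j))) j)
    (fun j => by rw [nls_zero, ← h.resI_sum hs _ (w1 j), a4 _ (w1 j)])
    (fun j v => by
      have e : ∑ i, (a i : ℂ) * D i j v =
          -∑ l, v l * ∑ i, (a i : ℂ) * lamI R χ (θ i) σ (b l • w j) := by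
        simp only [D1, mul_neg, Finset.sum_neg_distrib, Finset.mul_sum, mul_left_comm (a _ : ℂ)]
        rw [Finset.sum_comm]
      simp [e, a2])
    (fun l j => by
      rw [nls_zero]
      exact Fin.cases (a3 l) (a2 l) j)
    ((hg.near hb).and (h.near hb))
  have hc := nl_cl hθ fun i => (a' i : ℝ)
  simp only [ofReal_intCast] at hc
  refine ⟨ν, k, σ, b, U, χ, _, ε, hg.hom, hb, hind, hc.2, hint a', hε, 0, fun s hs' => ?_⟩
  obtain ⟨t, t1, ⟨t2, t3⟩, t4, t5⟩ := H s (by rwa [sub_zero] at hs')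
  have t6 : ∀ τ ∈ Q.og ν, resI R χ (∑ i, (a' i : ℂ) • θ i) (nls σ b t) τ = 0 := fun τ hτ => by
    obtain ⟨L, hL⟩ := t3.exists_re R hc.1.sm
    obtain ⟨u, rfl⟩ := w3 τ hτ
    rw [← hL _ hτ, map_sum]
    refine Finset.sum_eq_zero fun j _ => ?_
    rw [map_smul, hL _ (w1 j), t3.resI_sum hs _ (w1 j), t4, smul_zero]
  refine ⟨t, t1, t2, hUO, t3.tb, hc.1, t6, fun β hβ e1 e2 => ?_⟩
  obtain ⟨t0, u, e⟩ := nl_span hd hg.hom hb hind hβ
  have e' : C t0 * nls σ b t + ∑ i, C (u i - t0 * t i) * b i - β ∈ Q.I := by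
    refine (congrArg (· ∈ Q.I) ?_).mpr e
    simp only [nls, C_sub, C_mul, sub_mul, Finset.sum_sub_distrib, mul_add, Finset.mul_sum,
      mul_assoc]
    ring
  obtain ⟨e3, e4⟩ := t3.ker hz hc.1 t6 hb hβ e'
  have e5 := t5 (fun i => u i - t0 * t i) fun j => by
    refine Fin.cases ?_ (fun j => ?_) j
    · rw [← e2, ← e4]
      simp only [Fin.cons_zero, t3.muI_sum hz hs _ (hb _)]
    · rw [← e1 _ (w1 j), ← e3 _ (w1 j)]
      simp only [Fin.cons_succ, t3.lamI_sum hs _ (hbw (hb _) _ (w1 _))]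
  refine ⟨t0, ?_⟩
  have e6 := neg_mem e'
  simpa [congrFun e5] using e6

end

end Pool.Agent.MP_1c689d_ag.K0

end

section

/-! Interface: the Noether-Lefschetz locus. -/

set_option autoImplicit false

open Complex Filter Topology Set MeasureTheory MvPolynomial
open scoped ComplexConjugate ContDiff ENNReal

namespace Pool.Agent.MP_1c689d_ag.K0

noncomputable section

variable {m c r : ℕ} {X : Type} [TopologicalSpace X] [Mf 3 X] [MeasurableSpace X] [BorelSpace X]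
  {Q : PD m 4 c r} {Pts : Finset (Fin 4 → ℂ)} {x : X → Fin m → ℂ}

theorem nl_main (hF : FD Q Pts x) (hN : Num Q) (h0 : Q.H0) (h2 : Q.H2) {R : RL Q Pts x}
    {η θ'' : Fm 3 X} {g : Fin m → Fm 3 X} {z : Fin r → Q.Om} (hz : ZD R η θ'' g z)
    (hnz : ¬ ZT Q z) :
    ∃ (ν k : ℕ) (σ : P m) (b : Fin (k + 1) → P m) (U : Set X) (χ : X → ℂ) (θ : Fm 3 X) (ε : ℝ),
      σ.IsHomogeneous ν ∧ (∀ i, (b i).IsHomogeneous ν) ∧
      (∀ (t0 : ℂ) (t : Fin (k + 1) → ℂ), C t0 * σ + ∑ i, C (t i) * b i ∈ Q.I → t0 = 0 ∧ t = 0) ∧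
      cf θ = θ ∧ IntF θ U ∧ 0 < ε ∧ ∃ s0 : ℂ, ∀ s : ℂ, ‖s - s0‖ < ε →
        ∃ t : Fin (k + 1) → ℂ, t 0 = s ∧ NLP R η g U χ θ (σ + ∑ i, C (t i) * b i) ν :=
  nl_top hF hN h0 h2 hz hnz

end

end Pool.Agent.MP_1c689d_ag.K0

end

section

/-! Transfer of geometric conditions along specialisations. -/

set_option autoImplicit false

open MvPolynomial

namespace Pool.Agent.MP_1c689d_ag.K0

noncomputable section

variable {m c r : ℕ} {Γ : Subring (ℂ × ℂ)} {f f' : P m}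

/-- The pairs of polynomials with related coefficients. -/
def SPr (m : ℕ) (Γ : Subring (ℂ × ℂ)) : Subring (P m × P m) :=
  ((map ((RingHom.fst ℂ ℂ).comp Γ.subtype)).prod (map ((RingHom.snd ℂ ℂ).comp Γ.subtype))).range

/-- The relation is the graph of a function. -/
def SFn (Γ : Subring (ℂ × ℂ)) : Prop := ∀ x, (0, x) ∈ Γ → x = 0

theorem SPr_coeff (h : (f, f') ∈ SPr m Γ) (a : Fin m →₀ ℕ) : (coeff a f, coeff a f') ∈ Γ := by
  obtain ⟨g, hg⟩ := h
  obtain ⟨rfl, rfl⟩ := Prod.mk.inj hg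
  rw [coeff_map, coeff_map]
  exact (coeff a g).2

theorem SPr_mono {x x' : ℂ} (h : (x, x') ∈ Γ) (a : Fin m →₀ ℕ) :
    (monomial a x, monomial a x') ∈ SPr m Γ :=
  ⟨monomial a ⟨_, h⟩, Prod.ext (map_monomial _ _ _) (map_monomial _ _ _)⟩

theorem SPr_C {x x' : ℂ} (h : (x, x') ∈ Γ) : (C x, C x') ∈ SPr m Γ := SPr_mono h 0

theorem SPr_X (l : Fin m) : (X l, X l) ∈ SPr m Γ := SPr_mono Γ.one_mem _

theorem SPr_mul {g g' : P m} (h : (f, f') ∈ SPr m Γ) (k : (g, g') ∈ SPr m Γ) :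
    (f * g, f' * g') ∈ SPr m Γ := by
  rw [← Prod.mk_mul_mk]
  exact mul_mem h k

theorem SPr_add {g g' : P m} (h : (f, f') ∈ SPr m Γ) (k : (g, g') ∈ SPr m Γ) :
    (f + g, f' + g') ∈ SPr m Γ := by
  rw [← Prod.mk_add_mk]
  exact add_mem h k

theorem SPr_sub {g g' : P m} (h : (f, f') ∈ SPr m Γ) (k : (g, g') ∈ SPr m Γ) :
    (f - g, f' - g') ∈ SPr m Γ := by
  rw [← Prod.mk_sub_mk]
  exact sub_mem h k

theorem SPr_sum {ι : Type} (S : Finset ι) {g g' : ι → P m} (h : ∀ i ∈ S, (g i, g' i) ∈ SPr m Γ) :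
    (∑ i ∈ S, g i, ∑ i ∈ S, g' i) ∈ SPr m Γ := by
  rw [prod_mk_sum]
  exact sum_mem h

theorem SPr_self (h : ∀ a ∈ f.support, (coeff a f, coeff a f) ∈ Γ) : (f, f) ∈ SPr m Γ := by
  rw [f.as_sum]
  exact SPr_sum _ fun a ha => SPr_mono (h a ha) a

theorem SPr_pderiv (h : (f, f') ∈ SPr m Γ) (l : Fin m) : (pderiv l f, pderiv l f') ∈ SPr m Γ := by
  obtain ⟨g, hg⟩ := h
  obtain ⟨rfl, rfl⟩ := Prod.mk.inj hg
  exact ⟨pderiv l g, Prod.ext pderiv_map.symm pderiv_map.symm⟩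

theorem SPr_det {ι : Type} [Fintype ι] [DecidableEq ι] {M M' : Matrix ι ι (P m)}
    (h : ∀ i j, (M i j, M' i j) ∈ SPr m Γ) : (M.det, M'.det) ∈ SPr m Γ := by
  have := (Matrix.det (Matrix.of fun i j => (⟨_, h i j⟩ : SPr m Γ))).2
  rwa [show ((Matrix.det (Matrix.of fun i j => (⟨_, h i j⟩ : SPr m Γ))).1 : P m × P m) =
    (M.det, M'.det) from Prod.ext (((RingHom.fst _ _).comp (SPr m Γ).subtype).map_det _)
      (((RingHom.snd _ _).comp (SPr m Γ).subtype).map_det _)] at this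

theorem SPr_zero (hΓ : SFn Γ) (h : (0, f') ∈ SPr m Γ) : f' = 0 :=
  MvPolynomial.ext _ _ fun a => hΓ _ (SPr_coeff h a)

theorem SPr_hom (hΓ : SFn Γ) (h : (f, f') ∈ SPr m Γ) {n : ℕ} (hf : f.IsHomogeneous n) :
    f'.IsHomogeneous n := fun a ha => hf fun h0 => ha (hΓ _ (h0 ▸ SPr_coeff h a))

/-- The property holds for all specialisations that are defined on a finite set. -/
def SGen (p : Subring (ℂ × ℂ) → Prop) : Prop :=
  ∃ S : Finset ℂ, ∀ Γ, SFn Γ → (∀ x ∈ S, ∃ x', (x, x') ∈ Γ) → p Γ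

variable {p q : Subring (ℂ × ℂ) → Prop}

theorem SGen.mono (h : SGen p) (k : ∀ Γ, SFn Γ → p Γ → q Γ) : SGen q :=
  h.imp fun _ h Γ h1 h2 => k Γ h1 (h Γ h1 h2)

theorem SGen.all {ι : Type} [Fintype ι] {p : ι → Subring (ℂ × ℂ) → Prop} (h : ∀ i, SGen (p i)) :
    SGen fun Γ => ∀ i, p i Γ := by
  classical
  choose S hS using h
  exact ⟨Finset.univ.biUnion S, fun Γ h1 h2 i => hS i Γ h1 fun x hx =>
    h2 x (Finset.mem_biUnion.2 ⟨i, Finset.mem_univ i, hx⟩)⟩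

theorem SGen.and (h : SGen p) (k : SGen q) : SGen fun Γ => p Γ ∧ q Γ := by
  classical
  obtain ⟨S, hS⟩ := h
  obtain ⟨T, hT⟩ := k
  exact ⟨S ∪ T, fun Γ h1 h2 => ⟨hS Γ h1 fun x hx => h2 x (Finset.mem_union_left _ hx),
    hT Γ h1 fun x hx => h2 x (Finset.mem_union_right _ hx)⟩⟩

theorem SGen_lift (f : P m) : SGen fun Γ => ∃ f', (f, f') ∈ SPr m Γ := by
  classical
  refine ⟨f.support.image fun a => coeff a f, fun Γ _ h => ?_⟩
  choose! u hu using h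
  refine ⟨∑ a ∈ f.support, monomial a (u (coeff a f)), ?_⟩
  nth_rw 1 [f.as_sum]
  exact SPr_sum _ fun a ha => SPr_mono (hu _ (Finset.mem_image_of_mem _ ha)) a

theorem SGen_nss {κ : Type} [Fintype κ] {g : κ → P m} {h : P m}
    (H : ∀ v, (∀ i, eval v (g i) = 0) → eval v h = 0) :
    SGen fun Γ => ∀ (g' : κ → P m) (h' : P m), (∀ i, (g i, g' i) ∈ SPr m Γ) → (h, h') ∈ SPr m Γ →
      ∀ v, (∀ i, eval v (g' i) = 0) → eval v h' = 0 := by
  have h1 : h ∈ (Ideal.span (Set.range g)).radical := by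
    rw [← vanishingIdeal_zeroLocus_eq_radical (K := ℂ), mem_vanishingIdeal_iff]
    exact fun v hv => H v fun i => mem_zeroLocus_iff.1 hv _ (Ideal.subset_span ⟨i, rfl⟩)
  obtain ⟨e, he⟩ := h1
  obtain ⟨u, hu⟩ := Ideal.mem_span_range_iff_exists_fun.1 he
  refine (SGen.all fun i => SGen_lift (u i)).mono fun Γ hΓ k g' h' hg hh v hv => ?_
  choose u' hu' using k
  have h2 := sub_mem (SPr_sum Finset.univ fun i _ => mul_mem (hu' i) (hg i)) (pow_mem hh e)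
  have h3 : (∑ i, u' i * g' i - h' ^ e : P m) = 0 := SPr_zero hΓ (by
    rw [← sub_eq_zero.2 hu]
    exact h2)
  have h4 := congrArg (eval v) h3
  simp only [map_sub, map_sum, map_mul, hv, mul_zero, Finset.sum_const_zero, map_pow, map_zero,
    zero_sub, neg_eq_zero] at h4
  exact IsReduced.eq_zero _ ⟨e, h4⟩

variable {k : ℕ} {Q : PD m k c r} {σ : P m}

theorem SGen_cone {κ : Type} [Fintype κ] (g : κ → P m) (h : P m)
    (H : ∀ v, Q.OnC v → eval v σ = 0 → (∀ i, eval v (g i) = 0) → eval v h = 0) :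
    SGen fun Γ => (∀ j, (Q.F j, Q.F j) ∈ SPr m Γ) → ∀ σ', (σ, σ') ∈ SPr m Γ →
      ∀ (g' : κ → P m) (h' : P m), (∀ i, (g i, g' i) ∈ SPr m Γ) → (h, h') ∈ SPr m Γ →
      ∀ v, Q.OnC v → eval v σ' = 0 → (∀ i, eval v (g' i) = 0) → eval v h' = 0 := by
  refine (SGen.all fun l : Fin m => SGen_nss (κ := Fin r ⊕ Option κ)
    (g := Sum.elim Q.F fun o => o.elim σ g) (h := X l * h) fun v hv => ?_).mono
    fun Γ _ K hF σ' hσ g' h' hg hh v h1 h2 h3 => ?_
  · rw [map_mul, eval_X]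
    by_cases h0 : v = 0
    · rw [h0, Pi.zero_apply, zero_mul]
    · rw [H v ⟨h0, fun j => hv (.inl j)⟩ (hv (.inr none)) fun i => hv (.inr (some i)), mul_zero]
  · obtain ⟨l, hl⟩ := Function.ne_iff.1 h1.1
    have := K l (Sum.elim Q.F fun o => o.elim σ' g') (X l * h')
      (by rintro (j | _ | i); exacts [hF j, hσ, hg i]) (SPr_mul (SPr_X l) hh) v
      (by rintro (j | _ | i); exacts [h1.2 j, h2, h3 i])
    rw [map_mul, eval_X] at this
    exact (mul_eq_zero.1 this).resolve_left hl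

theorem SGen_ne {κ : Type} [Fintype κ] (g : κ → P m)
    (H : ∀ v, Q.OnC v → eval v σ = 0 → ∃ i, eval v (g i) ≠ 0) :
    SGen fun Γ => (∀ j, (Q.F j, Q.F j) ∈ SPr m Γ) → ∀ σ', (σ, σ') ∈ SPr m Γ →
      ∀ g' : κ → P m, (∀ i, (g i, g' i) ∈ SPr m Γ) →
      ∀ v, Q.OnC v → eval v σ' = 0 → ∃ i, eval v (g' i) ≠ 0 := by
  refine (SGen_cone (Q := Q) (σ := σ) g 1 fun v h1 h2 h3 => ?_).mono
    fun Γ _ K hF σ' hσ g' hg v h1 h2 => ?_
  · obtain ⟨i, hi⟩ := H v h1 h2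
    exact absurd (h3 i) hi
  · by_contra h3
    have := K hF σ' hσ g' 1 hg (one_mem _) v h1 h2 fun i => not_not.1 fun h => h3 ⟨i, h⟩
    rw [map_one] at this
    exact one_ne_zero this

theorem SGen_rk1 {μ a a' : ℕ} {f : Fin a → Fin a' → P m} (h : Rk1 Q σ μ f) :
    SGen fun Γ => (∀ j, (Q.F j, Q.F j) ∈ SPr m Γ) → ∀ σ', (σ, σ') ∈ SPr m Γ →
      ∀ f' : Fin a → Fin a' → P m, (∀ j l, (f j l, f' j l) ∈ SPr m Γ) → Rk1 Q σ' μ f' := by
  refine ((SGen.all fun z : Fin a × Fin a × Fin a' × Fin a' => SGen_cone (Q := Q) (σ := σ)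
    (fun i : Fin 0 => i.elim0) (f z.1 z.2.2.1 * f z.2.1 z.2.2.2 - f z.1 z.2.2.2 * f z.2.1 z.2.2.1)
    fun v h1 h2 _ => ?_).and (SGen_ne (Q := Q) (σ := σ) (fun z : Fin a × Fin a' => f z.1 z.2)
    fun v h1 h2 => ?_)).mono fun Γ hΓ K hF σ' hσ f' hf => ⟨fun j l => SPr_hom hΓ (hf j l)
      (h.hom j l), fun v h1 h2 j j' l l' => ?_, fun v h1 h2 => ?_⟩
  · rw [map_sub, map_mul, map_mul, h.rk v h1 h2, sub_self]
  · obtain ⟨j, l, hl⟩ := h.ne v h1 h2
    exact ⟨(j, l), hl⟩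
  · have := K.1 (j, j', l, l') hF σ' hσ (fun i => i.elim0) (f' j l * f' j' l' - f' j l' * f' j' l)
      (fun i => i.elim0) (SPr_sub (SPr_mul (hf j l) (hf j' l')) (SPr_mul (hf j l') (hf j' l)))
      v h1 h2 fun i => i.elim0
    rwa [map_sub, map_mul, map_mul, sub_eq_zero] at this
  · obtain ⟨z, hz⟩ := K.2 hF σ' hσ (fun z => f' z.1 z.2) (fun z => hf z.1 z.2) v h1 h2
    exact ⟨z.1, z.2, hz⟩

theorem SGen_good {Q : PD m 4 c r} {Pts : Finset (Fin 4 → ℂ)} {ν : ℕ} (h : Good Q Pts σ ν) :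
    SGen fun Γ => (∀ j, (Q.F j, Q.F j) ∈ SPr m Γ) → (∀ u ∈ Pts, ∀ i, (u i, u i) ∈ Γ) →
      ∀ σ', (σ, σ') ∈ SPr m Γ → Good Q Pts σ' ν := by
  have h1 := SGen_ne (Q := Q) (σ := σ) (fun i : Fin 3 => X (Q.yi i.succ)) fun v h1 h2 => by
    simpa only [eval_X] using h.ax v h1 h2
  have h2 := SGen_ne (Q := Q) (σ := σ) (fun z : (Fin c → Fin r) × (Fin 3 → Fin m) =>
    Q.jd z.1 (Fin.cons (gd σ) fun i => ue (z.2 i))) fun v h1 h2 => by
      obtain ⟨A, l, hl⟩ := h.sm v h1 h2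
      exact ⟨(A, l), hl⟩
  have h3 : ∀ u : Pts, SGen fun Γ => (∀ j, (Q.F j, Q.F j) ∈ SPr m Γ) → (∀ i, (u.1 i, u.1 i) ∈ Γ) →
      ∀ σ', (σ, σ') ∈ SPr m Γ → u.1 ≠ 0 → ∀ v, Q.OnC v → eval v σ' = 0 → ∀ t : ℂ,
        (fun i => v (Q.yi i)) ≠ t • u.1 := fun u => by
    by_cases h0 : u.1 = 0
    · exact ⟨∅, fun _ _ _ _ _ _ _ hu => absurd h0 hu⟩
    obtain ⟨j, hj⟩ := Function.ne_iff.1 h0
    refine (SGen_ne (Q := Q) (σ := σ) (fun i : Fin 4 => C (u.1 j) * X (Q.yi i) -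
      C (u.1 i) * X (Q.yi j)) fun v h1 h2 => ?_).mono fun Γ _ K hF hu σ' hσ _ v h1 h2 t ht => ?_
    · by_contra hc
      refine h.off v h1 h2 u.1 u.2 (v (Q.yi j) / u.1 j) (funext fun i => ?_)
      have := not_not.1 fun k => hc ⟨i, k⟩
      simp only [map_sub, map_mul, eval_C, eval_X] at this
      rw [Pi.smul_apply, smul_eq_mul, div_mul_eq_mul_div, eq_div_iff hj]
      linear_combination this
    · obtain ⟨i, hi⟩ := K hF σ' hσ _ (fun i => SPr_sub (SPr_mul (SPr_C (hu j)) (SPr_X _))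
        (SPr_mul (SPr_C (hu i)) (SPr_X _))) v h1 h2
      refine hi ?_
      have e1 : v (Q.yi i) = t * u.1 i := congrFun ht i
      have e2 : v (Q.yi j) = t * u.1 j := congrFun ht j
      simp only [map_sub, map_mul, eval_C, eval_X, e1, e2]
      ring
  refine ((h1.and h2).and (SGen.all h3)).mono fun Γ hΓ K hF hP σ' hσ => ?_
  have ax : ∀ v, Q.OnC v → eval v σ' = 0 → ∃ i : Fin 3, v (Q.yi i.succ) ≠ 0 := fun v a1 a2 => by
    simpa only [eval_X] using K.1.1 hF σ' hσ _ (fun i => SPr_X _) v a1 a2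
  refine ⟨SPr_hom hΓ hσ h.hom, h.pos, fun v a1 a2 u hu t ht => ?_, ax, fun v a1 a2 => ?_⟩
  · by_cases h0 : u = 0
    · obtain ⟨i, hi⟩ := ax v a1 a2
      exact hi (by simpa [h0] using congrFun ht i.succ)
    · exact K.2 ⟨u, hu⟩ hF (hP u hu) σ' hσ h0 v a1 a2 t ht
  · obtain ⟨z, hz⟩ := K.1.2 hF σ' hσ (fun z => Q.jd z.1 (Fin.cons (gd σ') fun i => ue (z.2 i)))
      (fun z => SPr_det fun i j => by
        rcases i with a | i
        · exact SPr_pderiv (hF _) _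
        · refine Fin.cases (SPr_pderiv hσ _) (fun i => ?_) i
          change (ue (z.2 i) (Q.eqv j), ue (z.2 i) (Q.eqv j)) ∈ _
          rw [ue, Pi.single_apply]
          split_ifs
          · exact one_mem _
          · exact zero_mem _) v a1 a2
    exact ⟨z.1, z.2, hz⟩

end

end Pool.Agent.MP_1c689d_ag.K0

end

section

/-! Plane curves: algebra. -/

set_option autoImplicit false

open Polynomial
open scoped Polynomial.Bivariate

namespace Pool.Agent.MP_1c689d_ag.K0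

noncomputable section

theorem ev_SPCrvA (p : ℂ[X][Y]) (v : Fin 2 → ℂ) :
    MvPolynomial.eval v (Bivariate.equivMvPolynomial ℂ p) = p.evalEval (v 0) (v 1) := by
  have h : (MvPolynomial.eval v).comp (Bivariate.equivMvPolynomial ℂ).toRingEquiv.toRingHom =
      evalEvalRingHom (v 0) (v 1) := by
    ext <;> simp
  exact RingHom.congr_fun h p

theorem poly_SPCrvA {B : Type} {s w : B → ℂ} {A : Subalgebra ℂ (B → ℂ)} (hs : s ∈ A) (hw : w ∈ A)
    (H : ℂ[X][Y]) : (fun y => H.evalEval (s y) (w y)) ∈ A := by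
  induction H using Polynomial.induction_on' with
  | add p q hp hq =>
    simp only [evalEval_add]
    exact add_mem hp hq
  | monomial n q =>
    have h1 : (fun y => q.eval (s y)) ∈ A := by
      have h2 : (fun y => q.eval (s y)) = aeval s q := funext fun y => by
        rw [aeval_fn_apply, coe_aeval_eq_eval]
      rw [h2]
      exact Algebra.adjoin_le (Set.singleton_subset_iff.2 hs) (aeval_mem_adjoin_singleton ℂ s)
    simp only [← C_mul_X_pow_eq_monomial, evalEval_mul, evalEval_pow, evalEval_C, evalEval_X]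
    exact mul_mem h1 (pow_mem hw n)

theorem form_SPCrvA {B : Type} {s w : B → ℂ} {Δ : ℂ[X]} (h : ∀ y, Δ.eval (s y) ≠ 0) :
    ∀ a ∈ Algebra.adjoin ℂ ({s, w, fun y => (Δ.eval (s y))⁻¹} : Set (B → ℂ)),
      ∃ (H : ℂ[X][Y]) (d : ℕ), ∀ y, a y * Δ.eval (s y) ^ d = H.evalEval (s y) (w y) := by
  intro a ha
  induction ha using Algebra.adjoin_induction with
  | mem a ha =>
    rcases ha with h1 | h1 | h1
    · exact ⟨C X, 0, fun y => by rw [h1, pow_zero, mul_one, evalEval_C, eval_X]⟩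
    · exact ⟨X, 0, fun y => by rw [h1, pow_zero, mul_one, evalEval_X]⟩
    · exact ⟨1, 1, fun y => by
        rw [Set.mem_singleton_iff.1 h1, pow_one, evalEval_one, inv_mul_cancel₀ (h y)]⟩
  | algebraMap c => exact ⟨C (C c), 0, fun y => by simp [evalEval_C]⟩
  | add a b _ _ ha hb =>
    obtain ⟨H, d, h1⟩ := ha
    obtain ⟨H', d', h2⟩ := hb
    refine ⟨H * C Δ ^ d' + H' * C Δ ^ d, d + d', fun y => ?_⟩
    simp only [evalEval_add, evalEval_mul, evalEval_pow, evalEval_C, ← h1, ← h2, Pi.add_apply]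
    ring
  | mul a b _ _ ha hb =>
    obtain ⟨H, d, h1⟩ := ha
    obtain ⟨H', d', h2⟩ := hb
    refine ⟨H * H', d + d', fun y => ?_⟩
    simp only [evalEval_mul, ← h1, ← h2, Pi.mul_apply]
    ring

theorem diff_SPCrvA (G : ℂ[X][Y]) :
    Differentiable ℂ fun z : Fin 2 → ℂ => G.evalEval (z 0) (z 1) := by
  induction G using Polynomial.induction_on' with
  | add p q hp hq =>
    simp only [evalEval_add]
    exact hp.add hq
  | monomial n q =>
    simp only [← C_mul_X_pow_eq_monomial, evalEval_mul, evalEval_pow, evalEval_C, evalEval_X]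
    exact (q.differentiable.comp (differentiable_apply 0)).mul ((differentiable_apply 1).pow n)

/-- Nullstellensatz (`MvPolynomial.vanishingIdeal_zeroLocus_eq_radical`) transported along
`Polynomial.Bivariate.equivMvPolynomial`. -/
theorem SP_nss {G H : ℂ[X][Y]} (hG : Prime G)
    (h : ∀ s w, G.evalEval s w = 0 → H.evalEval s w = 0) : G ∣ H := by
  have h1 : Bivariate.equivMvPolynomial ℂ H ∈
      (Ideal.span {Bivariate.equivMvPolynomial ℂ G}).radical := by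
    rw [← MvPolynomial.vanishingIdeal_zeroLocus_eq_radical (K := ℂ),
      MvPolynomial.mem_vanishingIdeal_iff]
    intro v hv
    have h2 := hv _ (Ideal.mem_span_singleton_self _)
    rw [MvPolynomial.aeval_eq_eval] at h2 ⊢
    rw [ev_SPCrvA] at h2 ⊢
    exact h _ _ h2
  obtain ⟨n, hn⟩ := h1
  rw [Ideal.mem_span_singleton, ← map_pow, map_dvd_iff] at hn
  exact hG.dvd_of_dvd_pow hn

/-- The functions on a set of points of the curve. All elements of the algebra are of the form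
`H (s, w) / Δ (s) ^ d` (`Algebra.adjoin_induction`). -/
theorem SP_dom {B : Type} {s w : B → ℂ} {G : ℂ[X][Y]} {Δ : ℂ[X]} (hG : Prime G)
    (h1 : ∀ y, G.evalEval (s y) (w y) = 0 ∧ Δ.eval (s y) ≠ 0)
    (h2 : ∀ s' w', G.evalEval s' w' = 0 → Δ.eval s' ≠ 0 → ∃ y, s y = s' ∧ w y = w') :
    ∀ a ∈ Algebra.adjoin ℂ ({s, w, fun y => (Δ.eval (s y))⁻¹} : Set (B → ℂ)),
      ∀ a' ∈ Algebra.adjoin ℂ ({s, w, fun y => (Δ.eval (s y))⁻¹} : Set (B → ℂ)),
        a * a' = 0 → a = 0 ∨ a' = 0 := by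
  intro a ha a' ha' h0
  obtain ⟨H, d, hH⟩ := form_SPCrvA (fun y => (h1 y).2) a ha
  obtain ⟨H', d', hH'⟩ := form_SPCrvA (fun y => (h1 y).2) a' ha'
  have key : ∀ {K : ℂ[X][Y]}, G ∣ K → ∀ y, K.evalEval (s y) (w y) = 0 := by
    rintro _ ⟨K, rfl⟩ y
    rw [evalEval_mul, (h1 y).1, zero_mul]
  have h3 : G ∣ C Δ * (H * H') := by
    refine SP_nss hG fun s' w' hz => ?_
    rw [evalEval_mul, evalEval_C, evalEval_mul]
    by_cases hΔ : Δ.eval s' = 0
    · rw [hΔ, zero_mul]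
    · obtain ⟨y, rfl, rfl⟩ := h2 s' w' hz hΔ
      have h4 : a y * a' y = 0 := congrFun h0 y
      rw [← hH, ← hH', mul_mul_mul_comm, h4, zero_mul, mul_zero]
  rcases hG.dvd_or_dvd h3 with h4 | h4
  · refine Or.inl (funext fun y => absurd ?_ (h1 y).2)
    rw [← evalEval_C (s y) (w y)]
    exact key h4 y
  · rcases hG.dvd_or_dvd h4 with h5 | h5
    · exact Or.inl (funext fun y => (mul_eq_zero.1 ((hH y).trans (key h5 y))).resolve_right
        (pow_ne_zero _ (h1 y).2))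
    · exact Or.inr (funext fun y => (mul_eq_zero.1 ((hH' y).trans (key h5 y))).resolve_right
        (pow_ne_zero _ (h1 y).2))

/-- Let `ℂ[X]` act on `B → ℂ` through `aeval s`; `IsAlgebraic.add`, `IsAlgebraic.mul`; then
`Polynomial.Bivariate.equivMvPolynomial`. -/
theorem SP_algf {B : Type} {s w : B → ℂ} {G : ℂ[X][Y]} {Δ : ℂ[X]} (hG : G ≠ 0)
    (h1 : ∀ y, G.evalEval (s y) (w y) = 0 ∧ Δ.eval (s y) ≠ 0) :
    ∀ a ∈ Algebra.adjoin ℂ ({s, w, fun y => (Δ.eval (s y))⁻¹} : Set (B → ℂ)),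
      ∃ p : P 2, p ≠ 0 ∧ ∀ y, MvPolynomial.eval ![s y, a y] p = 0 := by
  let : Algebra ℂ[X] (B → ℂ) := (aeval s : ℂ[X] →ₐ[ℂ] (B → ℂ)).toRingHom.toAlgebra
  have e0 : ∀ (q : ℂ[X]) y, algebraMap ℂ[X] (B → ℂ) q y = q.eval (s y) := fun q y => by
    change aeval s q y = _
    rw [aeval_fn_apply, coe_aeval_eq_eval]
  have e1 : ∀ (p : ℂ[X][Y]) (a : B → ℂ) y, aeval a p y = p.evalEval (s y) (a y) := by
    intro p a y
    induction p using Polynomial.induction_on' with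
    | add p q hp hq => rw [map_add, Pi.add_apply, hp, hq, evalEval_add]
    | monomial n q =>
      rw [aeval_monomial, ← C_mul_X_pow_eq_monomial, evalEval_mul, evalEval_pow, evalEval_C,
        evalEval_X, Pi.mul_apply, Pi.pow_apply, e0]
  have key : ∀ a ∈ Algebra.adjoin ℂ ({s, w, fun y => (Δ.eval (s y))⁻¹} : Set (B → ℂ)),
      IsAlgebraic ℂ[X] a := by
    intro a ha
    induction ha using Algebra.adjoin_induction with
    | mem a ha =>
      rcases ha with h | h | h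
      · have : a = algebraMap ℂ[X] (B → ℂ) X := funext fun y => by rw [e0, eval_X, h]
        rw [this]
        exact isAlgebraic_algebraMap _
      · exact ⟨G, hG, funext fun y => by rw [e1, h]; exact (h1 y).1⟩
      · refine ⟨C Δ * X - 1, fun h0 => ?_, funext fun y => ?_⟩
        · simpa using congrArg (fun q => coeff q 0) h0
        · rw [e1, Set.mem_singleton_iff.1 h, evalEval_sub, evalEval_mul, evalEval_C, evalEval_X,
            evalEval_one, mul_inv_cancel₀ (h1 y).2, sub_self, Pi.zero_apply]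
    | algebraMap c =>
      have : algebraMap ℂ (B → ℂ) c = algebraMap ℂ[X] (B → ℂ) (C c) :=
        funext fun y => by rw [e0, eval_C]; rfl
      rw [this]
      exact isAlgebraic_algebraMap _
    | add a b _ _ ha hb => exact ha.add hb
    | mul a b _ _ ha hb => exact ha.mul hb
  intro a ha
  obtain ⟨p, hp, h0⟩ := key a ha
  refine ⟨Bivariate.equivMvPolynomial ℂ p, by simpa using hp, fun y => ?_⟩
  rw [ev_SPCrvA]
  exact (e1 p a y).symm.trans (congrFun h0 y)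

theorem SP_mem {B : Type} (s w : B → ℂ) (Δ : ℂ[X]) (H : ℂ[X][Y]) :
    (fun y => H.evalEval (s y) (w y) / Δ.eval (s y)) ∈
      Algebra.adjoin ℂ ({s, w, fun y => (Δ.eval (s y))⁻¹} : Set (B → ℂ)) := by
  exact mul_mem (poly_SPCrvA (Algebra.subset_adjoin (Or.inl rfl))
    (Algebra.subset_adjoin (Or.inr (Or.inl rfl))) H)
    (Algebra.subset_adjoin (Or.inr (Or.inr rfl)))

/-- Closed and bounded (`Polynomial.IsRoot.norm_lt_cauchyBound` for the monic polynomial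
`M.map (evalRingHom s)`, whose coefficients are bounded on `K`). -/
theorem SP_cpt {G M : ℂ[X][Y]} (hM : M.Monic) (hd : G ∣ M) {K : Set ℂ} (hK : IsCompact K) :
    IsCompact {z : Fin 2 → ℂ | z 0 ∈ K ∧ G.evalEval (z 0) (z 1) = 0} := by
  have hc : Continuous fun z : Fin 2 → ℂ => G.evalEval (z 0) (z 1) :=
    (diff_SPCrvA G).continuous
  have hb : ∀ i, ∃ R : ℝ, ∀ s ∈ K, ‖(M.coeff i).eval s‖ ≤ R := fun i =>
    hK.exists_bound_of_continuousOn (M.coeff i).continuous.continuousOn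
  choose R hR using hb
  obtain ⟨R₀, hR₀⟩ := hK.isBounded.exists_norm_le
  refine Metric.isCompact_of_isClosed_isBounded
    ((hK.isClosed.preimage (continuous_apply 0)).inter (isClosed_eq hc continuous_const)) ?_
  refine isBounded_iff_forall_norm_le.2
    ⟨|R₀| + ((∑ i ∈ Finset.range M.natDegree, |R i|) + 1), fun z hz => ?_⟩
  have hS : 0 ≤ ∑ i ∈ Finset.range M.natDegree, |R i| :=
    Finset.sum_nonneg fun _ _ => abs_nonneg _
  have h0 : ‖z 0‖ ≤ |R₀| := (hR₀ _ hz.1).trans (le_abs_self _)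
  have h1 : ‖z 1‖ ≤ (∑ i ∈ Finset.range M.natDegree, |R i|) + 1 := by
    have hm := hM.map (evalRingHom (z 0))
    have hr : (M.map (evalRingHom (z 0))).IsRoot (z 1) := by
      obtain ⟨N, rfl⟩ := hd
      rw [IsRoot.def, map_evalRingHom_eval, evalEval_mul, hz.2, zero_mul]
    have h2 := hr.norm_lt_cauchyBound hm.ne_zero
    rw [cauchyBound, hm.leadingCoeff, nnnorm_one, div_one, hM.natDegree_map] at h2
    have h3 : (Finset.range M.natDegree).sup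
        (fun i => ‖(M.map (evalRingHom (z 0))).coeff i‖₊) ≤
        ⟨∑ i ∈ Finset.range M.natDegree, |R i|, hS⟩ := by
      refine Finset.sup_le fun i hi => ?_
      rw [coeff_map]
      exact ((hR i _ hz.1).trans (le_abs_self _)).trans
        (Finset.single_le_sum (f := fun i => |R i|) (fun _ _ => abs_nonneg _) hi)
    exact_mod_cast h2.le.trans (add_le_add_left h3 1)
  refine (pi_norm_le_iff_of_nonneg (by positivity)).2 (Fin.forall_fin_two.2 ⟨?_, ?_⟩)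
  · linarith
  · linarith [abs_nonneg R₀]

/-- The complex derivative of a polynomial in two variables. -/
theorem SP_deriv (G : ℂ[X][Y]) (z : Fin 2 → ℂ) :
    DifferentiableAt ℂ (fun z : Fin 2 → ℂ => G.evalEval (z 0) (z 1)) z ∧
      fderiv ℂ (fun z : Fin 2 → ℂ => G.evalEval (z 0) (z 1)) z (Pi.single 1 1) =
        (derivative G).evalEval (z 0) (z 1) := by
  refine ⟨diff_SPCrvA G z, ?_⟩
  have h1 : HasDerivAt (fun t : ℂ => z + t • (Pi.single 1 1 : Fin 2 → ℂ)) (Pi.single 1 1) 0 := by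
    simpa using ((hasDerivAt_id (0 : ℂ)).smul_const (Pi.single 1 1 : Fin 2 → ℂ)).const_add z
  have h2 := HasFDerivAt.comp_hasDerivAt_of_eq (hl := (diff_SPCrvA G z).hasFDerivAt) (hf := h1)
    (hy := by simp)
  have h3 := HasDerivAt.comp_of_eq (hh₂ := (G.map (evalRingHom (z 0))).hasDerivAt (z 1))
    (hh := (hasDerivAt_id (0 : ℂ)).const_add (z 1)) (hy := by simp)
  rw [mul_one, derivative_map, map_evalRingHom_eval] at h3
  refine h2.unique (h3.congr_of_eventuallyEq (.of_forall fun t => ?_))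
  simp [map_evalRingHom_eval]

end

end Pool.Agent.MP_1c689d_ag.K0

end

section

/-! Plane curves as Riemann surfaces. -/

set_option autoImplicit false

open Polynomial
open scoped Polynomial.Bivariate

namespace Pool.Agent.MP_1c689d_ag.K0

noncomputable section

theorem dz_SPCrv : (dz 1 * dz 0 : Λ 2) ≠ 0 := fun h => by
  have h1 : (dz 1 * dz 0 + dz 0 * dz 1 : Λ 2) = 0 := io_add_swap _ _
  rw [h, zero_add] at h1
  exact prod_dz_ne (n := 2) (by simpa using h1)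

theorem D_SPCrv (G : ℂ[X][Y]) (z : E 2) (h : (derivative G).evalEval (z 0) (z 1) ≠ 0) :
    dp 1 (fn 2 fun z : E 2 => G.evalEval (z 0) (z 1)) z * dz 0 ≠ 0 := by
  have h1 : (dz 0 * dz 0 : Λ 2) = 0 := io_sq _
  have h2 : dp 1 (fn 2 fun z : E 2 => G.evalEval (z 0) (z 1)) z =
      ∑ j, pz j (fun z : E 2 => G.evalEval (z 0) (z 1)) z • dz j := by
    rw [dp_E]
    exact dpE_fn _
  rw [h2, Fin.sum_univ_two, add_mul, smul_mul_assoc, smul_mul_assoc, h1, smul_zero, zero_add,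
    pz_of_differentiableAt (SP_deriv G z).1, (SP_deriv G z).2]
  exact smul_ne_zero h dz_SPCrv

/-- The curve as a hypersurface of the plane. -/
def dv_SPCrv (G : ℂ[X][Y]) (Δ : ℂ[X])
    (hu : ∀ s w, G.evalEval s w = 0 → Δ.eval s ≠ 0 → (derivative G).evalEval s w ≠ 0) :
    Div 1 (E 2) where
  G := 1
  σ := fun z => G.evalEval (z 0) (z 1)
  O := {z | Δ.eval (z 0) ≠ 0}
  op := isOpen_ne_fun (Δ.continuous.comp (continuous_apply 0)) continuous_const
  ok := fun _ _ => gok_one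
  hol := fun _ _ => holAt_E.2 (Filter.Eventually.of_forall fun w => (SP_deriv G w).1)
  nz := fun z hz h0 h => D_SPCrv G z (hu _ _ h0 hz) (by
    rw [show dp 1 (fn 2 fun z : E 2 => G.evalEval (z 0) (z 1)) z = 0 from h, zero_mul])

/-- `B := H.T` for `H : Div 1 (E 2)` with trivial gauge `1`, equation `G (z 0, z 1)` and open set
`Δ (z 0) ≠ 0`; `s`, `w` are the coordinates composed with `H.val`, and `A` is the algebra of
`SP_dom`. On `E 2`: `dp 1 (fn 2 σ) z = ∑ j, pz j σ z • dz j` (`dpE_fn`, `rep_E`, `ch_E`,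
`pz_of_differentiableAt`), so `H.D z * dz 0 = ∂G • (dz 1 * dz 0) ≠ 0` (`prod_dz_ne`); this gives `nz`,
and `ds` by `pb_dd`, `Div.mul_of_lm`. For `prop` take the roots of `Δ`, `SP_cpt` and
`H.isEmbedding_val.isCompact_preimage_iff` or `Topology.IsEmbedding.isCompact_iff`. -/
theorem SP_crv {G M : ℂ[X][Y]} {Δ : ℂ[X]} (hG : Prime G) (hM : M.Monic) (hd : G ∣ M) (hΔ : Δ ≠ 0)
    (hu : ∀ s w, G.evalEval s w = 0 → Δ.eval s ≠ 0 → (derivative G).evalEval s w ≠ 0) :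
    ∃ (B : Type) (_ : TopologicalSpace B) (_ : Mf 1 B) (D : Crv B) (w : B → ℂ),
      (∀ y, G.evalEval (D.s y) (w y) = 0 ∧ Δ.eval (D.s y) ≠ 0) ∧
      (∀ H : ℂ[X][Y], (fun y => H.evalEval (D.s y) (w y) / Δ.eval (D.s y)) ∈ D.A) ∧
      ∀ s' w', G.evalEval s' w' = 0 → Δ.eval s' ≠ 0 → ∃ y, D.s y = s' ∧ w y = w' := by
  let H := dv_SPCrv G Δ hu
  have h1 : ∀ y : H.T, G.evalEval (H.val y 0) (H.val y 1) = 0 ∧ Δ.eval (H.val y 0) ≠ 0 :=
    fun y => ⟨(H.val_mem y).2, (H.val_mem y).1⟩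
  have h2 : ∀ s' w', G.evalEval s' w' = 0 → Δ.eval s' ≠ 0 →
      ∃ y : H.T, H.val y 0 = s' ∧ H.val y 1 = w' := fun s' w' a b =>
    ⟨(⟨![s', w'], b, a⟩ : ↥H.S), rfl, rfl⟩
  have h3 : ∀ (j : Fin 2) (b : H.T), HolAt 1 (fun y => H.val y j) b := fun j b =>
    hmap_iff_holAt.1 (H.emb.hm b) j
  refine ⟨H.T, inferInstance, inferInstance,
    { s := fun y => H.val y 0
      A := Algebra.adjoin ℂ ({fun y => H.val y 0, fun y => H.val y 1,
        fun y => (Δ.eval (H.val y 0))⁻¹} : Set (H.T → ℂ))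
      hol := fun a ha b => ?_
      s_mem := Algebra.subset_adjoin (Set.mem_insert _ _)
      ds := fun b h => D_SPCrv G (H.val b) (hu _ _ (h1 b).1 (h1 b).2)
        (H.mul_of_lm b (dz_mem 0) ((dd_coord (H.emb.hm b) 0).symm.trans h))
      dom := SP_dom hG h1 h2
      alg := SP_algf hG.ne_zero h1
      sep := ⟨fun y => H.val y 1,
        Algebra.subset_adjoin (Set.mem_insert_of_mem _ (Set.mem_insert _ _)),
        fun b b' e0 e1 => H.isEmbedding_val.injective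
          (funext (Fin.forall_fin_two.2 ⟨e0, e1⟩))⟩
      prop := ⟨Δ.roots.toFinset, fun b hb => (h1 b).2 ?_, fun K hK hZ => ?_⟩ },
    fun y => H.val y 1, h1, fun p => SP_mem _ _ Δ p, h2⟩
  · induction ha using Algebra.adjoin_induction with
    | mem x hx =>
      rcases hx with rfl | rfl | rfl
      · exact h3 0 b
      · exact h3 1 b
      · exact MF2a_hol_inv ((h3 0 b).comp_fn (u := fun t => Δ.eval t)
          (Filter.Eventually.of_forall fun t => Δ.differentiableAt)) (h1 b).2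
    | algebraMap c => exact holAt_const c
    | add x y _ _ hx hy => exact hx.add hy
    | mul x y _ _ hx hy => exact MF2a_hol_mul hx hy
  · exact (mem_roots hΔ).1 (Multiset.mem_toFinset.1 hb)
  · have h4 : (fun y : H.T => H.val y 0) ⁻¹' K =
        H.val ⁻¹' {z : Fin 2 → ℂ | z 0 ∈ K ∧ G.evalEval (z 0) (z 1) = 0} :=
      Set.ext fun y => ⟨fun hy => ⟨hy, (h1 y).1⟩, fun hy => hy.1⟩
    rw [h4]
    refine (H.isEmbedding_val.isInducing.isCompact_preimage_iff ?_).2 (SP_cpt hM hd hK)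
    rw [H.range_val]
    exact fun z hz => ⟨fun h0 => Set.disjoint_left.1 hZ hz.1
      (Finset.mem_coe.2 (Multiset.mem_toFinset.2 ((mem_roots hΔ).2 h0))), hz.2⟩

end

end Pool.Agent.MP_1c689d_ag.K0

end

section

/-! Spreading out over a curve. -/

set_option autoImplicit false

open MvPolynomial

namespace Pool.Agent.MP_1c689d_ag.K0

noncomputable section

theorem SP_fin {m : ℕ} {ι : Type} [Fintype ι] (g : ι → P m) :
    ∃ S : Finset ℂ, ∀ i, ∀ a ∈ (g i).support, coeff a (g i) ∈ S := by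
  classical
  exact ⟨Finset.univ.biUnion fun i => (g i).support.image fun a => coeff a (g i), fun i a ha =>
    Finset.mem_biUnion.2 ⟨i, Finset.mem_univ i, Finset.mem_image_of_mem _ ha⟩⟩

theorem SP_top {m c r k ν : ℕ} (Q : PD m 4 c r) (Pts : Finset (Fin 4 → ℂ)) (σ : P m)
    (b : Fin (k + 1) → P m) :
    ∃ Z : Set ℂ, Z.Countable ∧
    ∀ (t : Fin (k + 1) → ℂ) (μ a a' : ℕ) (f : Fin a → Fin a' → P m), t 0 ∉ Z →
      Good Q Pts (σ + ∑ i, C (t i) * b i) ν → Rk1 Q (σ + ∑ i, C (t i) * b i) μ f →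
      ∃ (B : Type) (_ : TopologicalSpace B) (_ : Mf 1 B) (D : Crv B) (T : B → Fin (k + 1) → ℂ)
        (F : B → Fin a → Fin a' → P m) (b0 : B),
        Fam Q Pts D ν μ (fun y => σ + ∑ i, C (T y i) * b i) F ∧ T b0 = t ∧ F b0 = f ∧
        (∀ y, T y 0 = D.s y) ∧ ∀ i, (fun y => T y i) ∈ D.A := by
  classical
  obtain ⟨S₀, s1, s2⟩ : ∃ S₀ : Finset ℂ, (∀ i : Fin r ⊕ Option (Fin (k + 1)),
      ∀ a ∈ (Sum.elim Q.F (fun o => o.elim σ b) i).support,
        coeff a (Sum.elim Q.F (fun o => o.elim σ b) i) ∈ S₀) ∧ ∀ u ∈ Pts, ∀ i, u i ∈ S₀ := by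
    obtain ⟨S, hS⟩ := SP_fin (ι := Fin r ⊕ Option (Fin (k + 1)))
      (Sum.elim Q.F fun o => o.elim σ b)
    exact ⟨S ∪ Pts.biUnion fun u => Finset.univ.image u, fun i a ha =>
      Finset.mem_union_left _ (hS i a ha), fun u hu i => Finset.mem_union_right _
        (Finset.mem_biUnion.2 ⟨u, hu, Finset.mem_image_of_mem _ (Finset.mem_univ i)⟩)⟩
  obtain ⟨Z, hZ, H⟩ := SP_alg S₀
  refine ⟨Z, hZ, fun t μ a a' f ht hg hr => ?_⟩
  obtain ⟨S1, h1⟩ := (SGen_good hg).and (SGen_rk1 hr)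
  obtain ⟨S2, h2⟩ := SP_fin fun z : Fin a × Fin a' => f z.1 z.2
  obtain ⟨w0, G, M, Δ, Γ, pG, mM, dM, e0, d0, hΓ, hS⟩ :=
    H (t 0) ht (S1 ∪ S2 ∪ Finset.univ.image t)
  obtain ⟨B, _, _, D, w, c1, c2, c3⟩ := SP_crv pG mM dM (fun h => d0 (by simp [h]))
    fun s w h1 h2 => (hΓ s w h1 h2).1
  obtain ⟨b0, hb0, hw0⟩ := c3 (t 0) w0 e0 d0
  obtain ⟨u, u1, u2⟩ : ∃ u : ℂ → B → ℂ, (∀ x, u x ∈ D.A) ∧
      ∀ x ∈ S1 ∪ S2 ∪ Finset.univ.image t, u x b0 = x ∧ ∀ y, (x, u x y) ∈ Γ (D.s y) (w y) := by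
    choose! Hx x1 x2 using hS
    exact ⟨fun x y => (Hx x).evalEval (D.s y) (w y) / Δ.eval (D.s y), fun x => c2 _,
      fun x hx => ⟨by simpa only [hb0, hw0] using x1 x hx, fun y => x2 x hx _ _ (c1 y).2⟩⟩
  have ut := fun i => u2 (t i) (Finset.mem_union_right _
    (Finset.mem_image_of_mem _ (Finset.mem_univ i)))
  have uf := fun j l e he => u2 (coeff e (f j l)) (Finset.mem_union_left _
    (Finset.mem_union_right _ (h2 (j, l) e he)))
  have key : ∀ y, Good Q Pts (σ + ∑ i, C (u (t i) y) * b i) ν ∧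
      Rk1 Q (σ + ∑ i, C (u (t i) y) * b i) μ fun j l =>
        ∑ e ∈ (f j l).support, monomial e (u (coeff e (f j l)) y) := fun y => by
    obtain ⟨-, g1, g2, -⟩ := hΓ _ _ (c1 y).1 (c1 y).2
    have g3 : ∀ i : Fin r ⊕ Option (Fin (k + 1)), (Sum.elim Q.F (fun o => o.elim σ b) i,
        Sum.elim Q.F (fun o => o.elim σ b) i) ∈ SPr m (Γ (D.s y) (w y)) := fun i =>
      SPr_self fun e he => g2 _ (s1 i e he)
    have g4 : (σ + ∑ i, C (t i) * b i, σ + ∑ i, C (u (t i) y) * b i) ∈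
        SPr m (Γ (D.s y) (w y)) :=
      SPr_add (g3 (.inr none)) (SPr_sum _ fun i _ =>
        SPr_mul (SPr_C ((ut i).2 y)) (g3 (.inr (some i))))
    obtain ⟨k1, k2⟩ := h1 _ g1 fun x hx => ⟨_, (u2 x (Finset.mem_union_left _
      (Finset.mem_union_left _ hx))).2 y⟩
    refine ⟨k1 (fun j => g3 (.inl j)) (fun v hv i => g2 _ (s2 v hv i)) _ g4,
      k2 (fun j => g3 (.inl j)) _ g4 _ fun j l => ?_⟩
    nth_rw 1 [(f j l).as_sum]
    exact SPr_sum _ fun e he => SPr_mono ((uf j l e he).2 y) e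
  have hc : ∀ x : ℂ, (fun _ => x) ∈ D.A := fun x => D.A.algebraMap_mem x
  refine ⟨B, inferInstance, inferInstance, D, fun y i => u (t i) y, fun y j l =>
    ∑ e ∈ (f j l).support, monomial e (u (coeff e (f j l)) y), b0,
    ⟨fun y => (key y).1, fun e => ?_, fun y => (key y).2, fun j l e => ?_⟩,
    funext fun i => (ut i).1, ?_, fun y => ?_, fun i => u1 _⟩
  · have := add_mem (hc (coeff e σ)) (sum_mem fun i (_ : i ∈ Finset.univ) =>
      mul_mem (u1 (t i)) (hc (coeff e (b i))))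
    refine (congrArg (· ∈ D.A) (funext fun y => ?_)).mp this
    simp only [Pi.add_apply, Finset.sum_apply, Pi.mul_apply, coeff_add, coeff_sum, coeff_C_mul]
  · simp only [coeff_sum, coeff_monomial, Finset.sum_ite_eq']
    split_ifs
    · exact u1 _
    · exact hc 0
  · funext j l
    exact (Finset.sum_congr rfl fun e he => by rw [(uf j l e he).1]).trans (f j l).as_sum.symm
  · obtain ⟨-, g1, -, g2⟩ := hΓ _ _ (c1 y).1 (c1 y).2
    have := sub_mem ((ut 0).2 y) g2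
    rw [Prod.mk_sub_mk, sub_self] at this
    exact sub_eq_zero.1 (g1 _ this)

end

end Pool.Agent.MP_1c689d_ag.K0

end

section

/-! Interface: spreading out over a curve. -/

set_option autoImplicit false

open Complex Filter Topology Set MeasureTheory MvPolynomial
open scoped ComplexConjugate ContDiff ENNReal

namespace Pool.Agent.MP_1c689d_ag.K0

noncomputable section

theorem exists_fam {m c r k ν : ℕ} (Q : PD m 4 c r) (Pts : Finset (Fin 4 → ℂ)) (σ : P m)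
    (b : Fin (k + 1) → P m) (hσ : σ.IsHomogeneous ν) (hb : ∀ i, (b i).IsHomogeneous ν) :
    ∃ Z : Set ℂ, Z.Countable ∧
    ∀ (t : Fin (k + 1) → ℂ) (μ a a' : ℕ) (f : Fin a → Fin a' → P m), t 0 ∉ Z →
      Good Q Pts (σ + ∑ i, C (t i) * b i) ν → Rk1 Q (σ + ∑ i, C (t i) * b i) μ f →
      ∃ (B : Type) (_ : TopologicalSpace B) (_ : Mf 1 B) (D : Crv B) (T : B → Fin (k + 1) → ℂ)
        (F : B → Fin a → Fin a' → P m) (b0 : B),
        Fam Q Pts D ν μ (fun y => σ + ∑ i, C (T y i) * b i) F ∧ T b0 = t ∧ F b0 = f ∧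
        (∀ y, T y 0 = D.s y) ∧ ∀ i, (fun y => T y i) ∈ D.A :=
  SP_top Q Pts σ b

end

end Pool.Agent.MP_1c689d_ag.K0

end

section

/-! Hodge-Riemann: the weak solution. -/

set_option autoImplicit false

open Complex Filter Topology Set MeasureTheory
open scoped ComplexConjugate ContDiff ENNReal NNReal

namespace Pool.Agent.MP_1c689d_ag.K0.L2

noncomputable section

variable {N : ℕ} {X : Type} [TopologicalSpace X] [Mf 3 X] [MeasurableSpace X] [BorelSpace X]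
  [CompactSpace X] {ξ : X → Fin N → ℂ}

theorem HRa_intg (hξ : ∀ p, PMAt ξ p) {a b : Fm 3 X} (ha : Sm 1 a univ) (hb : Sm 1 b univ) :
    Intg (Om ξ * (a * cf b)) :=
  intg_of_compact fun p hp => (hξ p).Om_sm.mul_left ((ha p hp).mul_left (hb p hp).cf_one)

omit [MeasurableSpace X] [BorelSpace X] [CompactSpace X] in
theorem HRa_dp {u : Fm 3 X} (hu : u ∈ SmT 3 (1 : Ga X) 1 0) : dp 1 u ∈ SmT 3 (1 : Ga X) 2 0 :=
  ⟨fun p hp => (hu.1 p hp).dp gok_one, hu.2.dp⟩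

omit [MeasurableSpace X] [BorelSpace X] [CompactSpace X] in
theorem HRa_dp_add {u v : Fm 3 X} (hu : Sm 1 u univ) (hv : Sm 1 v univ) :
    dp 1 (u + v) = dp 1 u + dp 1 v :=
  funext fun p => dp_add gok_one (hu p (mem_univ p)) (hv p (mem_univ p))

omit [MeasurableSpace X] [BorelSpace X] [CompactSpace X] in
/-- `hK` gives `Om * η = dbar γ` with `γ` of type `(3,1)`; `γ = Om * β` pointwise (`Kah.bij20`), `β`
is smooth (`smAt_of_solve` with `ι = κ = Unit`); `dbar_om_mul`. -/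
theorem hr_a (hξ : ∀ p, PMAt ξ p) (hi : ∀ p, Imm ξ p) (hK : DbV 3 (1 : Ga X) 3 1) {η : Fm 3 X}
    (hη : F21 η) : ∃ β : Fm 3 X, Sm 1 β univ ∧ Ty 2 0 β ∧ Om ξ * dbar 1 β = Om ξ * η := by
  have h1 : dbar 1 (Om ξ * η) = 0 := by
    funext p
    rw [dbar_om_mul (hξ p) gok_one (hη.sm p (mem_univ p)),
      ((dd_eq_zero_iff (Eventually.of_forall hη.ty)).1 (congrFun hη.cl p)).2, mul_zero]
    rfl
  have h2 : Ty 3 (1 + 1) (Om ξ * η) := fun y =>
    Tp_mul (p := 1) (q := 1) (p' := 2) (q' := 1) (Om_Ty y) (hη.ty y)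
  obtain ⟨γ, hγ, hγt, hγe⟩ := hK (Om ξ * η) (fun p hp => (hξ p).Om_sm.mul_left (hη.sm p hp)) h2 h1
  choose β hβ hβe using fun y => ((hξ y).kah (hi y)).bij20.surjOn (hγt y)
  have e : Om ξ * β = γ := funext hβe
  have hs : Sm 1 β univ := fun p _ =>
    smAt_of_solve (ι := Unit) (κ := Unit) (fun _ => 1) (fun _ => 1) (fun _ _ => 1)
      (fun _ => gok_one) (fun _ _ => gok_one) (fun _ _ => by rw [one_mul]) (fun _ => (2, 0))
      (fun _ _ => Om ξ) (fun _ _ => (hξ p).Om_sm) (fun _ => β)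
      (fun _ => Eventually.of_forall hβ) (fun _ => γ) (fun _ => hγ p (mem_univ p))
      (fun _ => Eventually.of_forall fun y => by
        rw [Fintype.sum_unique]
        exact hβe y)
      (fun b hb h0 => funext fun i => by
        have h3 := h0 ()
        rw [Fintype.sum_unique] at h3
        exact ((hξ p).kah (hi p)).bij20.injOn (hb i) (zero_mem (Tp 3 2 0))
          (h3.trans (mul_zero _).symm)) ()
  refine ⟨β, hs, hβ, ?_⟩
  rw [← hγe, ← e]
  funext p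
  exact (dbar_om_mul (hξ p) gok_one (hs p (mem_univ p))).symm

/-- The form `h β β' = itg (Om * (β * cf β'))` is positive on `SmT 3 1 2 0` (`Kah.pos20`). -/
theorem hr_psd (hξ : ∀ p, PMAt ξ p) (hi : ∀ p, Imm ξ p) :
    Psd (SmT 3 (1 : Ga X) 2 0) fun β β' => itg (Om ξ * (β * cf β')) := by
  refine ⟨fun u hu v hv w hw => ?_, fun t u _ w _ => ?_, fun u _ w hw => ?_, fun u hu => ?_⟩
  · rw [add_mul, mul_add, itg_add (HRa_intg hξ hu.1 hw.1) (HRa_intg hξ hv.1 hw.1)]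
  · rw [smul_mul_assoc, mul_smul_comm, itg_smul]
  · rw [← itg_cf]
    refine congrArg itg (funext fun y => ?_)
    have h1 : w y ∈ Dg 3 (2 * 1) := Tp_le_Dg (p := 2) (q := 0) (hw.2 y)
    change cj (Om ξ y * (u y * cj (w y))) = Om ξ y * (w y * cj (u y))
    rw [map_mul, map_mul, cj_cj, (hξ y).cj_Om, comm_even h1]
  · obtain ⟨t, ht, e⟩ := itg_nonneg (α := Om ξ * (u * cf u)) fun y => by
      by_cases h0 : u y = 0
      · refine ⟨0, le_rfl, ?_⟩
        change top (Om ξ y * (u y * cj (u y))) = _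
        rw [h0, zero_mul, mul_zero, map_zero, ofReal_zero]
      · obtain ⟨t, ht, e⟩ := ((hξ y).kah (hi y)).pos20 (hu.2 y) h0
        exact ⟨t, ht.le, e⟩
    rw [e, ofReal_re]
    exact ht

/-- `Psd.riesz` on `SmT 3 1 1 0` with `B α α' = h (dp α) (dp α')`, `l α = h (dp α) β0` (`Psd.cs`);
`β k = β0 - dp (α k)`; `coercive` with `c = Om` gives `Cau`. For a test form `φ` only
`ψ = pf 0 1 φ` counts (`top_prj`, `prj_mul_left`, `itg_congr_top`); by `ibp_dbar`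
`itg (dbar (Om * β) * ψ) = - itg (Om * β * dbar ψ)`, and this is the conjugate (`itg_cf`) of
`- h (dp (cf ψ)) β`. -/
theorem hr_b (hξ : ∀ p, PMAt ξ p) (hi : ∀ p, Imm ξ p) {β0 : Fm 3 X} (h0 : Sm 1 β0 univ)
    (ht : Ty 2 0 β0) : ∃ β : ℕ → Fm 3 X,
      (∀ k, Sm 1 (β k) univ ∧ Ty 2 0 (β k) ∧ dp 1 (β k) = dp 1 β0) ∧ Cau β ∧
      Wk0 1 fun k => Om ξ * dbar 1 (β k) := by
  have hP := hr_psd hξ hi
  have hb0 : β0 ∈ SmT 3 (1 : Ga X) 2 0 := ⟨h0, ht⟩
  have hB : Psd (SmT 3 (1 : Ga X) 1 0)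
      fun α α' => itg (Om ξ * (dp 1 α * cf (dp 1 α'))) := by
    refine ⟨fun u hu v hv w hw => ?_, fun t u hu w hw => ?_, fun u hu w hw => ?_, fun u hu => ?_⟩
    · rw [HRa_dp_add hu.1 hv.1]
      exact hP.add _ (HRa_dp hu) _ (HRa_dp hv) _ (HRa_dp hw)
    · rw [dp_smul]
      exact hP.smul t _ (HRa_dp hu) _ (HRa_dp hw)
    · exact hP.sym _ (HRa_dp hu) _ (HRa_dp hw)
    · exact hP.pos _ (HRa_dp hu)
  obtain ⟨v, hv, -, hc, hl⟩ := hB.riesz (l := fun α => itg (Om ξ * (dp 1 α * cf β0)))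
    (fun u hu v hv => by
      rw [HRa_dp_add hu.1 hv.1]
      exact hP.add _ (HRa_dp hu) _ (HRa_dp hv) _ hb0)
    (fun t u hu => by
      rw [dp_smul]
      exact hP.smul t _ (HRa_dp hu) _ hb0)
    (hP.pos _ hb0) fun u hu => (hP.cs (HRa_dp hu) hb0).trans_eq (mul_comm _ _)
  have hβ : ∀ k, β0 - dp 1 (v k) ∈ SmT 3 (1 : Ga X) 2 0 := fun k => sub_mem hb0 (HRa_dp (hv k))
  refine ⟨fun k => β0 - dp 1 (v k), fun k => ⟨(hβ k).1, (hβ k).2, ?_⟩, ?_, fun φ hφ => ?_⟩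
  · funext p
    rw [dp_sub gok_one (h0 p (mem_univ p)) ((HRa_dp (hv k)).1 p (mem_univ p)),
      dp_dp gok_one ((hv k).1 p (mem_univ p)), sub_zero]
  · obtain ⟨C, -, hC⟩ := coercive (c := (Om ξ : Fm 3 X)) (fun p _ => (hξ p).Om_sm) 2 0
      fun y w hw h1 => by
        obtain ⟨t, ht, e⟩ := ((hξ y).kah (hi y)).pos20 hw h1
        rw [e, ofReal_re]
        exact ht
    have h1 := (hc.const_mul C).sqrt
    rw [mul_zero, Real.sqrt_zero] at h1
    refine squeeze_zero (fun _ => nr_nonneg _) (fun k => ?_) h1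
    have h2 : v k.1 - v k.2 ∈ SmT 3 (1 : Ga X) 1 0 := sub_mem (hv _) (hv _)
    have e : β0 - dp 1 (v k.2) - (β0 - dp 1 (v k.1)) = dp 1 (v k.1 - v k.2) := by
      rw [sub_sub_sub_cancel_left]
      funext p
      exact (dp_sub gok_one ((hv _).1 p (mem_univ p)) ((hv _).1 p (mem_univ p))).symm
    rw [nr_sub_comm, e]
    exact Real.le_sqrt_of_sq_le (hC 1 (fun _ => gok_one) _ (HRa_dp h2).1 (HRa_dp h2).2)
  · rw [inv_one] at hφ
    have hψ : Sm 1 (pf 0 1 φ) univ := fun p hp => (hφ p hp).pf 0 1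
    have hu : cf (pf 0 1 φ) ∈ SmT 3 (1 : Ga X) 1 0 :=
      ⟨fun p hp => (hψ p hp).cf_one, fun y => cj_Tp (prj_mem _)⟩
    have e1 : cf (dp 1 (cf (pf 0 1 φ))) = dbar 1 (pf 0 1 φ) := by
      rw [← dbar_cf, inv_one]
      exact congrArg (dbar 1) (funext fun y => cj_cj _)
    have e2 : ∀ β ∈ SmT 3 (1 : Ga X) 2 0, itg (Om ξ * dbar 1 β * φ) =
        -itg (Om ξ * (β * cf (dp 1 (cf (pf 0 1 φ))))) := by
      intro β hb
      have h1 := ibp_dbar (G := 1) (α := Om ξ * β) (β := pf 0 1 φ) (fun _ => gok_one)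
        (fun p hp => (hξ p).Om_sm.mul_left (hb.1 p hp)) (by rw [inv_one]; exact hψ)
      have h2 : (fun y => gi ((Om ξ * β) y)) = Om ξ * β := by
        funext y
        rw [gi_of_Tp (show (Om ξ * β) y ∈ Tp 3 (1 + 2) (1 + 0) from Tp_mul (Om_Ty y) (hb.2 y))]
        norm_num
      rw [inv_one, h2, mul_assoc] at h1
      rw [e1, ← eq_neg_of_add_eq_zero_left h1]
      refine itg_congr_top fun y => ?_
      have h3 : Om ξ y * dbar 1 β y ∈ Tp 3 3 2 :=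
        Tp_mul (p := 1) (q := 1) (p' := 2) (q' := 0 + 1) (Om_Ty y) (hb.2.dbar y)
      change top (Om ξ y * dbar 1 β y * φ y) = top (dbar 1 (Om ξ * β) y * prj 0 1 (φ y))
      rw [dbar_om_mul (hξ y) gok_one (hb.1 y (mem_univ y)), ← prj_mul_left h3, top_prj]
    have e3 : ∀ k, itg (Om ξ * dbar 1 (β0 - dp 1 (v k)) * φ) =
        conj (itg (Om ξ * (dp 1 (cf (pf 0 1 φ)) * cf (dp 1 (v k)))) -
          itg (Om ξ * (dp 1 (cf (pf 0 1 φ)) * cf β0))) := by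
      intro k
      rw [e2 _ (hβ k), sub_mul, mul_sub, itg_sub (HRa_intg hξ h0 (HRa_dp hu).1)
        (HRa_intg hξ (HRa_dp (hv k)).1 (HRa_dp hu).1), neg_sub, map_sub,
        hP.sym _ (HRa_dp hu) _ hb0, hP.sym _ (HRa_dp hu) _ (HRa_dp (hv k))]
    simp only [e3]
    have h4 := (continuous_conj.tendsto 0).comp (tendsto_sub_nhds_zero_iff.2 (hl _ hu))
    rw [map_zero] at h4
    exact h4

end

end Pool.Agent.MP_1c689d_ag.K0.L2

end

section

/-! Hodge-Riemann: the conclusion. -/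

set_option autoImplicit false

open Complex Filter Topology Set MeasureTheory
open scoped ComplexConjugate ContDiff ENNReal NNReal

namespace Pool.Agent.MP_1c689d_ag.K0.L2

noncomputable section

variable {N : ℕ} {X : Type} [TopologicalSpace X] [Mf 3 X] [MeasurableSpace X] [BorelSpace X]
  [CompactSpace X] {ξ : X → Fin N → ℂ}

omit [MeasurableSpace X] [BorelSpace X] [CompactSpace X] in
theorem HRc_u {η δ : Fm 3 X} (hη : F21 η) (hδ : Sm 1 δ univ) (ht : Ty 2 0 δ) :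
    Sm 1 (η - dbar 1 δ) univ ∧ Ty 2 1 (η - dbar 1 δ) ∧ Sm 1 (dp 1 δ) univ ∧
      η - dd δ = η - dbar 1 δ - dp 1 δ :=
  ⟨fun p hp => (hη.sm p hp).sub ((hδ p hp).dbar gok_one), fun y => sub_mem (hη.ty y) (ht.dbar y),
    fun p hp => (hδ p hp).dp gok_one, by rw [dd_eq]; abel⟩

omit [MeasurableSpace X] [BorelSpace X] [CompactSpace X] in
theorem HRc_mul {α β : Fm 3 X} (hα : Sm 1 α univ) (hβ : Sm 1 β univ) : Sm 1 (α * β) univ :=
  fun p hp => (hα p hp).mul_left (hβ p hp)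

omit [MeasurableSpace X] [BorelSpace X] [CompactSpace X] in
theorem HRc_cf {α : Fm 3 X} (hα : Sm 1 α univ) : Sm 1 (cf α) univ :=
  fun p hp => (hα p hp).cf_one

theorem HRc_alg {u a : Λ 3} (hu : u ∈ Tp 3 2 1) (ha : a ∈ Tp 3 3 0) :
    u * cj u + a * cj a = (u - a) * cj (u - a) := by
  have h1 : u * cj a = 0 := by
    have := Tp_mul (p := 2) (q := 1) (p' := 0) (q' := 3) hu (cj_Tp ha)
    rwa [Tp_eq_bot (by norm_num), Submodule.mem_bot] at this
  have h2 : a * cj u = 0 := by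
    have := Tp_mul (p := 3) (q := 0) (p' := 1) (q' := 2) ha (cj_Tp hu)
    rwa [Tp_eq_bot (by norm_num), Submodule.mem_bot] at this
  rw [map_sub, sub_mul, mul_sub, mul_sub, h1, h2, sub_zero, zero_sub, sub_neg_eq_add]

/-- `ζ = η - dd δ = u - a` with `u = η - dbar δ` of type `(2,1)` and `a = dp δ` of type `(3,0)`;
`itg (ζ * cf ζ) = itg (η * cf η)` (`itg_exact_mul_closed`, `dd_cf`, `dd_dd`); the mixed terms have
type `(2,4)` and `(4,2)` (`Tp_eq_bot`). -/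
theorem hr_id {η δ : Fm 3 X} (hη : F21 η) (hδ : Sm 1 δ univ) (ht : Ty 2 0 δ) :
    itg ((η - dbar 1 δ) * cf (η - dbar 1 δ)) + itg (dp 1 δ * cf (dp 1 δ)) =
      itg (η * cf η) := by
  obtain ⟨h1, h2, h3, h4⟩ := HRc_u hη hδ ht
  have hd : Sm 1 (dd δ) univ := fun p hp => (hδ p hp).dd
  have hζ : Sm 1 (η - dd δ) univ := fun p hp => (hη.sm p hp).sub (hd p hp)
  have hc : dd (cf (η - dd δ)) = 0 := by
    funext y
    rw [dd_cf, cf, dd_sub (hη.sm y trivial) (hd y trivial), dd_dd (hδ y trivial), hη.cl]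
    simp
  have e1 : (η - dbar 1 δ) * cf (η - dbar 1 δ) + dp 1 δ * cf (dp 1 δ)
      = (η - dd δ) * cf (η - dd δ) := by
    rw [h4]
    exact funext fun y => HRc_alg (h2 y) (ht.dp y)
  have e2 : (η - dd δ) * cf (η - dd δ) = η * cf η - η * dd (cf δ) - dd δ * cf (η - dd δ) := by
    rw [sub_mul, dd_cf, ← mul_sub]
    congr 2
    exact funext fun y => map_sub _ _ _
  have i1 := HRc_mul hη.sm (HRc_cf hη.sm)
  have i2 : Sm 1 (η * dd (cf δ)) univ := HRc_mul hη.sm fun p hp => (HRc_cf hδ p hp).dd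
  rw [← itg_add (intg_of_compact (HRc_mul h1 (HRc_cf h1))) (intg_of_compact (HRc_mul h3 (HRc_cf h3))),
    e1, e2, itg_sub (intg_of_compact fun p hp => (i1 p hp).sub (i2 p hp))
      (intg_of_compact (HRc_mul hd (HRc_cf hζ))),
    itg_sub (intg_of_compact i1) (intg_of_compact i2), (itg_exact_mul_closed hδ (HRc_cf hζ) hc).1,
    (itg_exact_mul_closed (HRc_cf hδ) hη.sm hη.cl).2, sub_zero, sub_zero]

/-- `finsler` with `c = (-I) • 1`, `d = Om` (`Kah.pos21`), `hr_id` and `itg_cf_le_one` show that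
`nr (η - dbar (δ k))` tends to zero, so `nr (η - dd (δ k))` does; for closed `β`,
`itg (η * β) = itg ((η - dd (δ k)) * β)` tends to zero (`itg_mul_le`); `pd_compact`. -/
theorem hr_c (hξ : ∀ p, PMAt ξ p) (hi : ∀ p, Imm ξ p) {η : Fm 3 X} (hη : F21 η)
    (h0 : itg (η * cf η) = 0) {δ : ℕ → Fm 3 X} (hδ : ∀ k, Sm 1 (δ k) univ ∧ Ty 2 0 (δ k))
    (h1 : Tendsto (fun k => nr (dp 1 (δ k))) atTop (𝓝 0))
    (h2 : Tendsto (fun k => nr (Om ξ * (η - dbar 1 (δ k)))) atTop (𝓝 0)) : Ex 2 η := by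
  obtain ⟨ε, m, hε, -, hF⟩ := finsler (c := (-I) • (1 : Fm 3 X)) (d := Om ξ)
    (fun p _ => smAt_one.smul _) (fun p _ => (hξ p).Om_sm) 2 1 fun y v hv h hne => by
      obtain ⟨t, ht, e⟩ := ((hξ y).kah (hi y)).pos21 hv h hne
      rw [Pi.smul_apply, Pi.one_apply, smul_mul_assoc, one_mul, map_smul, smul_eq_mul, e]
      exact ht
  obtain ⟨C, -, hC⟩ := itg_cf_le_one (n := 3) (X := X)
  obtain ⟨C', -, hC'⟩ := itg_mul_le (n := 3) (X := X)
  have hu := fun k => HRc_u hη (hδ k).1 (hδ k).2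
  have h3 : ∀ k, nr (η - dbar 1 (δ k)) ≤ Real.sqrt (ε⁻¹ * (C * nr (dp 1 (δ k)) * nr (dp 1 (δ k)) +
      m * nr (Om ξ * (η - dbar 1 (δ k))) ^ 2)) := by
    intro k
    refine Real.le_sqrt_of_sq_le ?_
    rw [le_inv_mul_iff₀ hε]
    refine (hF 1 (fun _ => gok_one) _ (hu k).1 (hu k).2.1).trans (add_le_add_left ?_ _)
    have e := hr_id hη (hδ k).1 (hδ k).2
    rw [h0, add_eq_zero_iff_eq_neg] at e
    rw [smul_mul_assoc, one_mul, itg_smul, e]
    refine (re_le_norm _).trans ?_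
    rw [norm_mul, norm_neg, norm_neg, norm_I, one_mul]
    exact hC 1 (fun _ => gok_one) _ _ (hu k).2.2.1 (hu k).2.2.1
  have h4 : Tendsto (fun k => nr (η - dbar 1 (δ k))) atTop (𝓝 0) := by
    refine squeeze_zero (fun k => nr_nonneg _) h3 ?_
    simpa using ((((h1.const_mul C).mul h1).add ((h2.pow 2).const_mul m)).const_mul ε⁻¹).sqrt
  have h5 : Tendsto (fun k => nr (η - dd (δ k))) atTop (𝓝 0) := by
    refine squeeze_zero (fun k => nr_nonneg _) (fun k => ?_) (by simpa using h4.add h1)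
    rw [(hu k).2.2.2]
    exact nr_sub_sm (G := 1) (fun _ => gok_one) (hu k).1 (hu k).2.2.1
  refine pd_compact (k := 2) (k' := 3) (by norm_num) ⟨hη.sm,
    fun y => Tp_le_Dg (p := 2) (q := 1) (hη.ty y), fun y _ => congrFun hη.cl y⟩ fun β hβ => ?_
  have h6 : Tendsto (fun k => C' * nr (η - dd (δ k)) * nr β) atTop (𝓝 0) := by
    simpa using (h5.const_mul C').mul_const (nr β)
  refine norm_le_zero_iff.1 (ge_of_tendsto' h6 fun k => ?_)
  have hd : Sm 1 (dd (δ k)) univ := fun p hp => ((hδ k).1 p hp).dd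
  have h7 := hC' 1 (fun _ => gok_one) _ β (fun p hp => (hη.sm p hp).sub (hd p hp))
    (by rw [inv_one]; exact hβ.sm)
  rwa [sub_mul, itg_sub (intg_of_compact (HRc_mul hη.sm hβ.sm)) (intg_of_compact (HRc_mul hd hβ.sm)),
    (itg_exact_mul_closed (hδ k).1 hβ.sm (funext fun y => hβ.cl y trivial)).1, sub_zero] at h7

end

end Pool.Agent.MP_1c689d_ag.K0.L2

end

section

/-! The Hodge-Riemann relation. -/

set_option autoImplicit false

open Complex Filter Topology Set MeasureTheory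
open scoped ComplexConjugate ContDiff ENNReal NNReal

namespace Pool.Agent.MP_1c689d_ag.K0.L2

noncomputable section

variable {N : ℕ} {X : Type} [TopologicalSpace X] [Mf 3 X] [MeasurableSpace X] [BorelSpace X]
  [CompactSpace X] {ξ : X → Fin N → ℂ}

/-- `weak_strong` with `G = 1`, `a = Om`, `b = 1`, `s = t = (2,0)`, `F = dp β0`;
`δ k = β0 - pf 2 0 (V k)`; the components `pf 3 0` and `pf 3 2` of `Po (V k) - F` are `- dp (δ k)`
and `Om * (η - dbar (δ k))` (`nr_pf_le`). -/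
theorem hr_main (hξ : ∀ p, PMAt ξ p) (hi : ∀ p, Imm ξ p) (hK : DbV 3 (1 : Ga X) 3 1) {η : Fm 3 X}
    (hη : F21 η) (h0 : itg (η * cf η) = 0) : Ex 2 η := by
  obtain ⟨β0, hs0, ht0, e0⟩ := hr_a hξ hi hK hη
  obtain ⟨β, hβ, hc, hw⟩ := hr_b hξ hi hs0 ht0
  have hG : ∀ p : X, GOk (1 : Ga X) p := fun _ => gok_one
  have hO : Sm 1 (Om ξ : Fm 3 X) univ := fun p _ => (hξ p).Om_sm
  have h1 : Sm 1 (1 : Fm 3 X) univ := fun _ _ => smAt_one
  have hpf : ∀ k, pf 2 0 (β k) = β k := fun k => funext fun y => prj_of_mem ((hβ k).2.1 y)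
  obtain ⟨V, hV, -, hl⟩ := weak_strong hG hO h1 (2, 0) (2, 0) (fun k => (hβ k).1) hc
    (F := dp 1 β0) (fun p hp => (hs0 p hp).dp (hG p)) (by
      simpa only [Po, hpf, one_mul, (hβ _).2.2, add_sub_cancel_right] using hw)
  have hVs : ∀ k, Sm 1 (pf 2 0 (V k)) univ := fun k p hp => (hV k p hp).pf 2 0
  have hVt : ∀ k, Ty 2 0 (pf 2 0 (V k)) := fun k y => prj_mem _
  have hR : ∀ k, Sm 1 (Po 1 (Om ξ) 1 (2, 0) (2, 0) (V k) - dp 1 β0) univ := fun k p hp =>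
    (po_sm hG hO h1 (hV k) p hp).sub ((hs0 p hp).dp (hG p))
  have t1 : ∀ k y, Om ξ y * dbar 1 (pf 2 0 (V k)) y ∈ Tp 3 3 2 := fun k y =>
    Tp_mul (p := 1) (q := 1) (p' := 2) (q' := 1) (Om_Ty y) ((hVt k).dbar y)
  have t2 : ∀ k y, dp 1 (pf 2 0 (V k)) y - dp 1 β0 y ∈ Tp 3 3 0 := fun k y =>
    sub_mem ((hVt k).dp y) (ht0.dp y)
  have eR : ∀ k y, (Po 1 (Om ξ) 1 (2, 0) (2, 0) (V k) - dp 1 β0) y =
      Om ξ y * dbar 1 (pf 2 0 (V k)) y + (dp 1 (pf 2 0 (V k)) y - dp 1 β0 y) := fun k y => by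
    simp only [Po, one_mul, Pi.sub_apply, Pi.add_apply, Pi.mul_apply, add_sub_assoc]
  have lim : ∀ a b : ℕ, Tendsto (fun k => nr (pf a b
      (Po 1 (Om ξ) 1 (2, 0) (2, 0) (V k) - dp 1 β0))) atTop (𝓝 0) := fun a b => by
    obtain ⟨C, -, hC⟩ := nr_pf_le (n := 3) (X := X) a b
    refine squeeze_zero (fun _ => nr_nonneg _) (fun k => hC _ (cn_of_sm hG (hR k))) ?_
    simpa using hl.const_mul C
  refine hr_c hξ hi hη h0 (δ := fun k => β0 - pf 2 0 (V k))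
    (fun k => ⟨fun p hp => (hs0 p hp).sub (hVs k p hp), fun y => sub_mem (ht0 y) (hVt k y)⟩) ?_ ?_
  · refine (lim 3 0).congr fun k => ?_
    rw [← nr_neg]
    congr 1
    funext y
    rw [Pi.neg_apply, pf, eR, map_add, prj_of_ne (t1 k y) (by decide), prj_of_mem (t2 k y),
      dp_sub (hG y) (hs0 y trivial) (hVs k y trivial), zero_add, neg_sub]
  · refine (lim 3 2).congr fun k => ?_
    congr 1
    funext y
    have e1 : Om ξ y * dbar 1 β0 y = Om ξ y * η y := congrFun e0 y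
    rw [pf, eR, map_add, prj_of_ne (t2 k y) (by decide), prj_of_mem (t1 k y), add_zero,
      Pi.mul_apply, Pi.sub_apply, dbar_sub (hs0 y trivial) (hVs k y trivial), mul_sub, mul_sub, e1,
      sub_sub_cancel]

end

end Pool.Agent.MP_1c689d_ag.K0.L2

end

section

/-! Peak sections. -/

set_option autoImplicit false

open Complex Filter Topology Set MeasureTheory
open scoped ComplexConjugate ContDiff ENNReal NNReal

namespace Pool.Agent.MP_1c689d_ag.K0.L2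

noncomputable section

variable {n : ℕ} {X : Type} [TopologicalSpace X] [Mf n X] [MeasurableSpace X] [BorelSpace X]
  [CompactSpace X]

variable {N : ℕ} {x : X → Fin N → ℂ}

section

omit [MeasurableSpace X] [BorelSpace X] [CompactSpace X]

theorem PK_sub {G : Ga X} {α β : Fm n X} {p : X} (hG : GOk G p) (h : HFm G α p)
    (h' : HFm G β p) : HFm G (α - β) p := by
  refine ⟨h.1.sub h'.1, ?_⟩
  filter_upwards [h.1.eventually hG, h'.1.eventually hG, h.2, h'.2] with y a b c d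
  rw [dbar_sub a b, c, d, sub_zero]

theorem PK_dbar {G L : Ga X} {t : X → ℂ} {α : Fm n X} {p : X} (hG : GOk G p) (hL : GOk L p)
    (ht : HolAt G t p) (h : SmAt L α p) : dbar (L * G) (t • α) p = t p • dbar L α p := by
  rw [← fn_mul, mul_comm L G, dbar_mul hG hL ht.smAt h, ht.dbar, zero_mul, zero_add, fn, PMPa_gi]

theorem PK_div {G : Ga X} (hG : ∀ p, GOk G p) {u : X → ℂ} {α : Fm n X} {p : X}
    (hu : HolAt G u p) (h0 : u p ≠ 0) (h : HFm G α p) : HFm 1 ((fun y => (u y)⁻¹) • α) p := by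
  rw [← fn_mul]
  refine (((hu.inv (hG p) h0).hfm (hG p).inv).mul h (hG p).inv (hG p)).gauge
    ((hG p).inv.mul (hG p)) (Eventually.of_forall fun y => ?_)
  rw [mul_comm]
  exact (hG y).mul_inv

theorem PK_bd {L : Ga X} {p : X} (hL : GOk L p) :
    ∃ M : ℝ, 0 ≤ M ∧ ∀ᶠ y in 𝓝 p, ‖L p y‖⁻¹ ≤ M := by
  have b : ContinuousAt (fun y => ‖L p y‖) p := by
    simp only [Complex.norm_def]
    exact Real.continuous_sqrt.continuousAt.comp
      (continuous_re.continuousAt.comp hL.sm.continuousAt)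
  refine ⟨‖L p p‖⁻¹ + 1, by positivity, ?_⟩
  exact ((b.inv₀ (norm_ne_zero_iff.2 hL.self_ne)).eventually_lt_const (lt_add_one _)).mono
    fun _ h => h.le

end

/-- `g μ = l ^ μ • g0`, `dbar (g μ) = l ^ μ • dbar L g0` (`dbar_mul'`), and `dbar L g0` vanishes on
a neighbourhood `V` of `p`, so `nr (dbar (g μ)) ≤ a ^ μ * nr (dbar L g0)` (`nr_fsmul_le`). Choose
`a < b < 1` and an open `O ∋ p` on which `‖l‖ ≥ b`, `‖L p ·‖ ≥ m > 0`, `L p` is a holomorphic frame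
and `g0` is holomorphic. With `s` from `HSol`, `β = (L p * l ^ μ)⁻¹ • (g μ - s)` is holomorphic on
`O` (`HolAt.inv`, `HFm.mul`, `HFm.gauge`); if `s p = 0` then `mean_nr` gives
`‖(L p p)⁻¹ • g0 p‖ ≤ C' (a / b) ^ μ`, false for large `μ`. -/
theorem peak_form (hx : ∀ p, PMAt x p) (inj : ∀ p p', (∃ t : ℂ, x p' = t • x p) → p' = p)
    {L : Ga X} (hL : ∀ p, GOk L p) {C : ℝ} {μ1 : ℕ}
    (H : ∀ μ : ℕ, μ1 ≤ μ → HSol n (L * gx x ^ (μ : ℤ)) C) {g0 : Fm n X} (hg : Sm L g0 univ)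
    (ht : Ty n 0 g0) {p : X} (hh : HFm L g0 p) (h0 : g0 p ≠ 0) :
    ∃ (μ : ℕ) (s : Fm n X), Ty n 0 s ∧ (∀ y, HFm (L * gx x ^ (μ : ℤ)) s y) ∧ s p ≠ 0 := by
  obtain ⟨l, hl, l1, hlc, hla⟩ := exists_peak hx inj p
  obtain ⟨a, a0, a1, ha⟩ := hla _ hh.2
  obtain ⟨b, hab, b1⟩ := exists_between a1
  have b0 := a0.trans hab
  obtain ⟨M, hM, hM'⟩ := PK_bd (hL p)
  have hb : ∀ᶠ y in 𝓝 p, b < ‖l y‖ :=
    hlc.continuousAt.eventually_const_lt (by simpa only [l1, norm_one] using b1)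
  obtain ⟨C', hC', hm⟩ := mean_nr (n := n)
    ((((hb.and hM').and (hL p).ne).and (hL p).frame).and (hh.eventually (hL p))) n
  by_contra hne
  have key : ∀ μ : ℕ, μ1 ≤ μ →
      ‖(L p p)⁻¹ • g0 p‖ ≤ C' * M * |C| * nr (dbar L g0) * (a / b) ^ μ := by
    intro μ hμ
    have hG : ∀ y, GOk (L * gx x ^ (μ : ℤ)) y := fun y => (hL y).mul ((hx y).gok_zpow μ)
    have h1 : ∀ y, HolAt (gx x ^ (μ : ℤ)) (fun y => l y ^ μ) y := fun y => holAt_npow (hl y) μ
    have h2 : Sm (L * gx x ^ (μ : ℤ)) ((fun y => l y ^ μ) • g0) univ := fun y hy => by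
      rw [mul_comm]
      exact (h1 y).smAt.fsmul (hg y hy)
    have h3 : Ty n 0 ((fun y => l y ^ μ) • g0) := fun y => Submodule.smul_mem _ _ (ht y)
    have h4 : dbar (L * gx x ^ (μ : ℤ)) ((fun y => l y ^ μ) • g0) =
        (fun y => l y ^ μ) • dbar L g0 :=
      funext fun y => PK_dbar ((hx y).gok_zpow μ) (hL y) (h1 y) (hg y trivial)
    have h5 : nr ((fun y => l y ^ μ) • dbar L g0) ≤ a ^ μ * nr (dbar L g0) :=
      nr_fsmul_le (cn_of_sm hL fun y hy => (hg y hy).dbar (hL y)) (pow_nonneg a0.le μ)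
        fun y hy => by
          rw [norm_pow]
          exact pow_le_pow_left₀ (norm_nonneg _) (ha y hy) μ
    obtain ⟨s, s1, s2, s3⟩ := H μ hμ _ h2 h3
    have s0 : s p = 0 := by
      by_contra h
      exact hne ⟨μ, s, s1, s2, h⟩
    rw [h4] at s3
    have s4 : nr ((fun y => l y ^ μ) • g0 - s) ≤ |C| * (a ^ μ * nr (dbar L g0)) :=
      (s3.trans (mul_le_mul_of_nonneg_right (le_abs_self C) (nr_nonneg _))).trans
        (mul_le_mul_of_nonneg_left h5 (abs_nonneg C))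
    have hM2 : 0 ≤ M * b⁻¹ ^ μ := by positivity
    have h6 := hm ((fun y => l y ^ μ) • g0 - s)
      ((fun y => (L p y * l y ^ μ)⁻¹) • ((fun y => l y ^ μ) • g0 - s)) (M * b⁻¹ ^ μ) hM2
      (cn_of_sm hG fun y hy => (h2 y hy).sub (s2 y).1)
      (fun y hy => PK_div hG (hy.1.2.mul (h1 y))
        (mul_ne_zero hy.1.1.2 (pow_ne_zero _ (norm_pos_iff.1 (b0.trans hy.1.1.1.1))))
        (PK_sub (hG y) (by
          rw [← fn_mul, mul_comm L]
          exact ((h1 y).hfm ((hx y).gok_zpow μ)).mul hy.2 ((hx y).gok_zpow μ) (hL y)) (s2 y)))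
      (fun y _ => Submodule.smul_mem _ _ (Submodule.sub_mem _ (h3 y) (s1 y)))
      fun y hy => ⟨_, by
        rw [norm_inv, norm_mul, norm_pow, mul_inv, ← inv_pow]
        exact mul_le_mul hy.1.1.1.2 (pow_le_pow_left₀ (by positivity)
          (inv_anti₀ b0 hy.1.1.1.1.le) μ) (by positivity) hM, rfl⟩
    simp only [Pi.smul_apply', Pi.sub_apply, l1, one_pow, mul_one, one_smul, s0, sub_zero] at h6
    refine (h6.trans (mul_le_mul_of_nonneg_left s4 (mul_nonneg hC'.le hM2))).trans_eq ?_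
    rw [div_eq_mul_inv, mul_pow]
    ring
  have lim := (tendsto_pow_atTop_nhds_zero_of_lt_one (div_pos a0 b0).le
    ((div_lt_one b0).2 hab)).const_mul (C' * M * |C| * nr (dbar L g0))
  rw [mul_zero] at lim
  have := norm_le_zero_iff.1 (ge_of_tendsto lim (eventually_atTop.2 ⟨μ1, key⟩))
  exact h0 ((smul_eq_zero.1 this).resolve_left (inv_ne_zero (hL p).self_ne))

omit [MeasurableSpace X] [BorelSpace X] in
/-- A section that does not vanish at `p` does not vanish near `p` (`SmAt.fn_ne`); finite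
subcover; multiply by `x i ^ (μ - μ p)` (`holAt_npow`, `HolAt.gauge`, `PMAt.gz_add`). -/
theorem sec_unif (hx : ∀ p, PMAt x p) {G : Ga X} (hG : ∀ p, GOk G p)
    (H : ∀ p, ∃ (μ : ℕ) (s : X → ℂ), (∀ y, HolAt (G * gx x ^ (μ : ℤ)) s y) ∧ s p ≠ 0) :
    ∃ μ0 : ℕ, ∀ μ : ℕ, μ0 ≤ μ → ∀ p, ∃ s : X → ℂ,
      (∀ y, HolAt (G * gx x ^ (μ : ℤ)) s y) ∧ s p ≠ 0 := by
  choose μ s hs h0 using H
  obtain ⟨t, -, ht⟩ := isCompact_univ.elim_nhds_subcover (fun p => {y | s p y ≠ 0}) fun p _ =>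
    (hs p p).smAt.fn_ne ((hG p).mul ((hx p).gok_zpow _)) (h0 p)
  refine ⟨t.sup μ, fun μ' hμ y => ?_⟩
  obtain ⟨p, hp, hy⟩ := mem_iUnion₂.1 (ht (mem_univ y))
  obtain ⟨k, rfl⟩ := Nat.exists_eq_add_of_le ((Finset.le_sup (f := μ) hp).trans hμ)
  obtain ⟨i, hi⟩ := MF4b_ex (hx y)
  refine ⟨s p * fun y => x y i ^ k,
    fun z => ((hs p z).mul (holAt_npow ((hx z).holAt i) k)).gauge ?_,
    mul_ne_zero hy (pow_ne_zero _ hi)⟩
  filter_upwards [(hx z).gz_add (Nat.cast_add (μ p) k).symm] with w hw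
  rw [mul_assoc]
  exact congrArg (G z w * ·) hw

end

end Pool.Agent.MP_1c689d_ag.K0.L2

end

section

/-! The identity of Bochner, Kodaira and Nakano on a surface. -/

set_option autoImplicit false

open Complex Filter Topology Set MeasureTheory
open scoped ComplexConjugate ContDiff ENNReal NNReal

namespace Pool.Agent.MP_1c689d_ag.K0.L2

noncomputable section

variable {N : ℕ} {S : Type} [TopologicalSpace S] [Mf 2 S] [MeasurableSpace S] [BorelSpace S]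
  [CompactSpace S] {x : S → Fin N → ℂ}

/-- `ibp_dp` for `(dbar γ, cf γ)`, `ibp_dbar` for `(dp γ, cf γ)`, `dbar_dp`. -/
theorem bk_id {G : Ga S} (hG : ∀ p, GOk G p) {γ : Fm 2 S} (hγ : Sm G γ univ) (ht : Ty 1 0 γ) :
    -itg (cur G * (γ * cf γ)) =
      itg (dbar G γ * cf (dbar G γ)) + itg (dp G γ * cf (dp G γ)) := by
  have h1 : Sm G (dbar G γ) univ := fun p hp => (hγ p hp).dbar (hG p)
  have h2 : Sm G (dp G γ) univ := fun p hp => (hγ p hp).dp (hG p)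
  have h3 : Sm G⁻¹ (cf γ) univ := fun p hp => (hγ p hp).cf (hG p)
  have e1 := ibp_dp hG h1 h3
  have e2 := ibp_dbar hG h2 h3
  have g1 : (fun y => gi (dbar G γ y)) = dbar G γ := funext fun y => by
    rw [gi_of_Tp (ht.dbar y)]
    simp
  have g2 : (fun y => gi (dp G γ y)) = dp G γ := funext fun y => by
    rw [gi_of_Tp (ht.dp y)]
    simp
  rw [g1, dp_cf] at e1
  rw [g2, dbar_cf] at e2
  have e3 : cur G * (γ * cf γ) = dbar G (dp G γ) * cf γ + dp G (dbar G γ) * cf γ := by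
    funext p
    simp only [Pi.mul_apply, Pi.add_apply]
    rw [← add_mul, dbar_dp (hG p) (hγ p (mem_univ p)), mul_assoc]
  rw [e3, itg_add
    (intg_of_compact fun p hp => ((h2 p hp).dbar (hG p)).mul_cf (hγ p hp) (hG p))
    (intg_of_compact fun p hp => ((h1 p hp).dp (hG p)).mul_cf (hγ p hp) (hG p))]
  linear_combination -e1 - e2

/-- `β = β0 + t • u` with `u * β0 = 0`; `Kah.neg11`, `Kah.pos_pow`, `eq_top_smul`. -/
theorem bk_pt {u β : Λ 2} (h : Kah u) (hβ : β ∈ Tp 2 1 1) {t : ℂ}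
    (ht : t = top (u * β) / top (u * u)) : u * β = t • (u * u) ∧ (top (β * cj β)).re ≤
      (top (u * u * (algebraMap ℂ (Λ 2) t * cj (algebraMap ℂ (Λ 2) t)))).re := by
  obtain ⟨s, hs, e⟩ := h.pos_pow
  rw [pow_two] at e
  have hs' : (s : ℂ) ≠ 0 := ofReal_ne_zero.2 hs.ne'
  have h1 : u * β = t • (u * u) := by
    have a1 := eq_top_smul (EA3_mul 2 2 h.mem h.mem rfl rfl)
    rw [e] at a1
    rw [ht, e, a1, smul_smul, div_mul_cancel₀ _ hs']
    exact eq_top_smul (EA3_mul 2 2 h.mem hβ rfl rfl)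
  refine ⟨h1, ?_⟩
  obtain ⟨b, rfl⟩ : ∃ b, β = b + t • u := ⟨β - t • u, (sub_add_cancel _ _).symm⟩
  have hb : b ∈ Tp 2 1 1 := by
    simpa using sub_mem hβ (Submodule.smul_mem _ t h.mem)
  have h2 : u * b = 0 := by
    rw [mul_add, mul_smul_comm] at h1
    exact add_eq_right.1 h1
  have h3 : b * u = 0 := by
    rw [← comm_even (k := 1) (Tp_le_Dg (p := 1) (q := 1) h.mem), h2]
  have h4 : u * cj b = 0 := by
    rw [← h.cj, ← map_mul, h2, map_zero]
  obtain ⟨r, hr, e'⟩ := h.neg11 hb h2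
  have h5 : (b + t • u) * cj (b + t • u) = b * cj b +
      u * u * (algebraMap ℂ (Λ 2) t * cj (algebraMap ℂ (Λ 2) t)) := by
    rw [map_add, cj_smul, h.cj, cj_algebraMap, ← map_mul, ← Algebra.commutes, ← Algebra.smul_def]
    simp only [mul_add, add_mul, smul_mul_assoc, mul_smul_comm, h3, h4, smul_zero, add_zero,
      zero_add, smul_smul, mul_comm t]
  rw [h5, map_add, add_re, e', ofReal_re]
  exact add_le_of_nonpos_left hr

omit [MeasurableSpace S] [BorelSpace S] [CompactSpace S] in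
/-- `SmAt.top_div`. -/
theorem tw_sm (hx : ∀ p, PMAt x p) (hi : ∀ p, Imm x p) {G : Ga S} {β : Fm 2 S}
    (hβ : Sm G β univ) : Sm G (fn 2 (tw x β)) univ := by
  intro p hp
  obtain ⟨s, hs, e⟩ := ((hx p).kah (hi p)).pos_pow
  refine SmAt.top_div ((hx p).Om_sm.mul_left (hβ p hp)) ((hx p).Om_sm.mul_left (hx p).Om_sm) ?_
  rw [← pow_two, e]
  exact ofReal_ne_zero.2 hs.ne'

theorem bk_le (hx : ∀ p, PMAt x p) (hi : ∀ p, Imm x p) {G : Ga S} (hG : ∀ p, GOk G p)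
    {γ : Fm 2 S} (hγ : Sm G γ univ) (ht : Ty 1 0 γ) : (-itg (cur G * (γ * cf γ))).re ≤
      (itg (dp G γ * cf (dp G γ)) + itg (Om x * Om x *
        (fn 2 (tw x (dbar G γ)) * cf (fn 2 (tw x (dbar G γ)))))).re := by
  have h1 : Sm G (dbar G γ) univ := fun p hp => (hγ p hp).dbar (hG p)
  have h2 := tw_sm hx hi h1
  rw [bk_id hG hγ ht, add_comm, add_re, add_re]
  refine add_le_add le_rfl (itg_re_mono
    (intg_of_compact fun p hp => (h1 p hp).mul_cf (h1 p hp) (hG p))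
    (intg_of_compact fun p hp => ((hx p).Om_sm.mul_left (hx p).Om_sm).mul_left
      ((h2 p hp).mul_cf (h2 p hp) (hG p))) fun y => ?_)
  exact (bk_pt ((hx y).kah (hi y)) (ht.dbar y) rfl).2

/-- `cur (L * gx x ^ μ) = cur L + μ • Th x` (`cur_mul`, `PMAt.cur_zpow`), `I • Om = - Th`;
`coercive` with `c = I • Om x` (`Kah.pos10`) and `itg_cf_le` with `c = cur L`. -/
theorem cpos_large (hx : ∀ p, PMAt x p) (hi : ∀ p, Imm x p) {L : Ga S} (hL : ∀ p, GOk L p) :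
    ∃ (C : ℝ) (μ1 : ℕ), 0 < C ∧ ∀ μ : ℕ, μ1 ≤ μ → CPos 2 (L * gx x ^ (μ : ℤ)) C := by
  have h1 : Sm 1 (I • Om x : Fm 2 S) univ := fun p _ => (hx p).Om_sm.smul I
  have h2 : Sm 1 (cur L : Fm 2 S) univ := fun p _ => cur_sm (hL p)
  obtain ⟨C, hC, c1⟩ := coercive h1 1 0 fun y v hv h0 => by
    obtain ⟨t, ht, e⟩ := ((hx y).kah (hi y)).pos10 hv h0
    rwa [Pi.smul_apply, smul_mul_assoc, map_smul, smul_eq_mul, e, ofReal_re]
  obtain ⟨D, hD, c2⟩ := itg_cf_le h2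
  refine ⟨1, ⌈C * (D + 1)⌉₊, one_pos, fun μ hμ γ hγ ht => ?_⟩
  have hG : ∀ p, GOk (L * gx x ^ (μ : ℤ)) p := fun p => (hL p).mul ((hx p).gok_zpow μ)
  have h3 : Sm 1 (γ * cf γ) univ := fun p hp => (hγ p hp).mul_cf (hγ p hp) (hG p)
  have e : cur (L * gx x ^ (μ : ℤ)) * (γ * cf γ) =
      cur L * (γ * cf γ) - (μ : ℂ) • (I • Om x * (γ * cf γ)) := by
    funext p
    rw [Pi.sub_apply, Pi.smul_apply, Pi.mul_apply, Pi.mul_apply (cur L), Pi.mul_apply (I • Om x),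
      cur_mul (hL p) ((hx p).gok_zpow μ), (hx p).cur_zpow, Pi.smul_apply, Om, smul_smul, I_mul_I,
      add_mul, Int.cast_natCast, smul_mul_assoc, neg_one_smul, neg_mul, smul_neg, sub_neg_eq_add]
  rw [e, itg_sub (intg_of_compact fun p hp => (h2 p hp).mul_left (h3 p hp))
    ((intg_of_compact fun p hp => (h1 p hp).mul_left (h3 p hp)).smul _), itg_smul, neg_sub, sub_re,
    one_mul, ← ofReal_natCast, re_ofReal_mul]
  have d1 := c1 _ hG γ hγ ht
  have d2 := (re_le_norm _).trans (c2 _ hG γ γ hγ hγ)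
  have d3 : C * (D + 1) ≤ μ := Nat.ceil_le.1 hμ
  have d4 : 0 ≤ (itg (I • Om x * (γ * cf γ))).re :=
    nonneg_of_mul_nonneg_right ((sq_nonneg _).trans d1) hC
  nlinarith [mul_le_mul_of_nonneg_right d3 d4, mul_le_mul_of_nonneg_left d1 (by linarith : 0 ≤ D + 1)]

end

end Pool.Agent.MP_1c689d_ag.K0.L2

end

section

/-! The weak solution of the extended system. -/

set_option autoImplicit false

open Complex Filter Topology Set MeasureTheory
open scoped ComplexConjugate ContDiff ENNReal NNReal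

namespace Pool.Agent.MP_1c689d_ag.K0.L2

noncomputable section

variable {N : ℕ} {S : Type} [TopologicalSpace S] [Mf 2 S] [MeasurableSpace S] [BorelSpace S]
  [CompactSpace S] {x : S → Fin N → ℂ}

variable {G : Ga S} {c a a' b γ γ' φ f : Fm 2 S}

theorem HSa_intg (hG : ∀ p, GOk G p) (hc : Sm 1 c univ) (ha : Sm G a univ) (hb : Sm G b univ) :
    Intg (c * (a * cf b)) :=
  intg_of_compact fun p hp => (hc p hp).mul_left ((ha p hp).mul_cf (hb p hp) (hG p))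

theorem HSa_add (hG : ∀ p, GOk G p) (hc : Sm 1 c univ) (ha : Sm G a univ) (ha' : Sm G a' univ)
    (hb : Sm G b univ) :
    itg (c * ((a + a') * cf b)) = itg (c * (a * cf b)) + itg (c * (a' * cf b)) := by
  rw [add_mul, mul_add, itg_add (HSa_intg hG hc ha hb) (HSa_intg hG hc ha' hb)]

omit [CompactSpace S] in
theorem HSa_smul (t : ℂ) : itg (c * ((t • a) * cf b)) = t * itg (c * (a * cf b)) := by
  rw [smul_mul_assoc, mul_smul_comm, itg_smul]

omit [CompactSpace S] in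
theorem HSa_sym {k : ℕ} (hc : ∀ y, cj (c y) = c y) (hb : ∀ y, b y ∈ Dg 2 (2 * k)) :
    conj (itg (c * (a * cf b))) = itg (c * (b * cf a)) := by
  rw [← itg_cf]
  congr 1
  funext y
  simp only [cf, Pi.mul_apply, map_mul, cj_cj, hc, comm_even (hb y)]

theorem HSa_Dg {n p q k : ℕ} {v : Λ n} (h : v ∈ Tp n p q) (e : p + q = k) : v ∈ Dg n k := by
  subst e
  exact Tp_le_Dg h

theorem HSa_Tp {n p q p' q' s t : ℕ} {u v : Λ n} (hu : u ∈ Tp n p q) (hv : v ∈ Tp n p' q')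
    (e1 : p + p' = s) (e2 : q + q' = t) : u * v ∈ Tp n s t := by
  subst e1 e2
  exact Tp_mul hu hv

theorem HSa_top {u v : Λ 2} (hu : u ∈ Tp 2 2 1) : top (u * v) = top (-(prj 0 1 v * u)) := by
  have h1 : prj 2 2 (u * v) = u * prj 0 1 v := prj_mul_left (p' := 0) (q' := 1) hu v
  rw [← top_prj, h1, comm_one (HSa_Dg (prj_mem (p := 0) (q := 1) v) rfl) u, gi_of_Tp hu]
  norm_num

/-- The second component. -/
def HSa_w (x : S → Fin N → ℂ) (G : Ga S) (γ : Fm 2 S) : Fm 2 S := fn 2 (tw x (dbar G γ))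

/-- The hermitian form. -/
def HSa_B (x : S → Fin N → ℂ) (G : Ga S) (γ γ' : Fm 2 S) : ℂ :=
  itg (1 * (dp G γ * cf (dp G γ'))) + itg (Om x * Om x * (HSa_w x G γ * cf (HSa_w x G γ')))

omit [MeasurableSpace S] [BorelSpace S] [CompactSpace S] in
theorem HSa_w_add (h : Sm G γ univ) (h' : Sm G γ' univ) :
    HSa_w x G (γ + γ') = HSa_w x G γ + HSa_w x G γ' := by
  funext y
  simp only [HSa_w, fn, tw, Pi.add_apply, dbar_add (h y trivial) (h' y trivial), mul_add, map_add,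
    add_div]

omit [MeasurableSpace S] [BorelSpace S] [CompactSpace S] in
theorem HSa_w_smul (t : ℂ) : HSa_w x G (t • γ) = t • HSa_w x G γ := by
  funext y
  simp only [HSa_w, fn, tw, dbar_smul, Pi.smul_apply, mul_smul_comm, map_smul, smul_eq_mul,
    mul_div_assoc]
  rw [map_mul, Algebra.smul_def]

omit [MeasurableSpace S] [BorelSpace S] [CompactSpace S] in
theorem HSa_dp_add (hG : ∀ p, GOk G p) (h : Sm G γ univ) (h' : Sm G γ' univ) :
    dp G (γ + γ') = dp G γ + dp G γ' :=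
  funext fun y => dp_add (hG y) (h y trivial) (h' y trivial)

omit [MeasurableSpace S] [BorelSpace S] [CompactSpace S] in
theorem HSa_dp_sm (hG : ∀ p, GOk G p) (h : Sm G γ univ) : Sm G (dp G γ) univ :=
  fun p hp => (h p hp).dp (hG p)

theorem HSa_w_sm (hx : ∀ p, PMAt x p) (hi : ∀ p, Imm x p) (hG : ∀ p, GOk G p) (h : Sm G γ univ) :
    Sm G (HSa_w x G γ) univ :=
  tw_sm hx hi fun p hp => (h p hp).dbar (hG p)

omit [MeasurableSpace S] [BorelSpace S] [CompactSpace S] in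
theorem HSa_oo (hx : ∀ p, PMAt x p) : Sm 1 (Om x * Om x : Fm 2 S) univ :=
  fun p _ => (hx p).Om_sm.mul_left (hx p).Om_sm

theorem HSa_coer (hx : ∀ p, PMAt x p) (hi : ∀ p, Imm x p) : ∃ K : ℝ, 0 < K ∧ ∀ G : Ga S,
    (∀ p, GOk G p) → ∀ γ : Fm 2 S, Sm G γ univ → Ty 1 0 γ → 0 ≤ (HSa_B x G γ γ).re ∧
      nr (dp G γ + HSa_w x G γ) ^ 2 ≤ K * (HSa_B x G γ γ).re := by
  obtain ⟨C2, h2, H2⟩ := coercive (n := 2) (X := S) (c := 1) (fun _ _ => smAt_one) 2 0
    fun y v hv h0 => by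
      obtain ⟨t, ht, e⟩ := pos_n0' hv h0
      have e4 : (I : ℂ) ^ 2 ^ 2 = 1 := I_pow_four
      rw [e4, one_mul] at e
      rw [Pi.one_apply, one_mul, e, ofReal_re]
      exact ht
  obtain ⟨C3, h3, H3⟩ := coercive (HSa_oo hx) 0 0 fun y v hv h0 => by
    obtain ⟨t, ht, e⟩ := ((hx y).kah (hi y)).pos_pow
    obtain ⟨s, rfl⟩ := mem_Tp00.1 hv
    have hs : s ≠ 0 := fun h => h0 (by rw [h, map_zero])
    rw [cj_algebraMap, ← map_mul, Pi.mul_apply, ← pow_two, ← Algebra.commutes, ← Algebra.smul_def,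
      map_smul, e, mul_conj, smul_eq_mul, ← ofReal_mul, ofReal_re]
    exact mul_pos (normSq_pos.2 hs) ht
  refine ⟨2 * (C2 + C3), by positivity, fun G hG γ hγ ht => ?_⟩
  have h4 := H2 G hG _ (HSa_dp_sm hG hγ) ht.dp
  have h5 := H3 G hG _ (HSa_w_sm hx hi hG hγ) (fn_Ty _)
  have h6 := nr_add_sm hG (HSa_dp_sm hG hγ) (HSa_w_sm hx hi hG hγ)
  have h7 := nr_nonneg (dp G γ + HSa_w x G γ)
  have h8 := (mul_nonneg_iff_of_pos_left h2).1 ((sq_nonneg _).trans h4)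
  have h9 := (mul_nonneg_iff_of_pos_left h3).1 ((sq_nonneg _).trans h5)
  rw [HSa_B, add_re]
  refine ⟨add_nonneg h8 h9, ?_⟩
  nlinarith [pow_le_pow_left₀ h7 h6 2, sq_nonneg (nr (dp G γ) - nr (HSa_w x G γ)),
    mul_nonneg h2.le h9, mul_nonneg h3.le h8]

theorem HSa_psd (hx : ∀ p, PMAt x p) (hi : ∀ p, Imm x p) (hG : ∀ p, GOk G p) :
    Psd (SmT 2 G 1 0) (HSa_B x G) where
  add u hu v hv w hw := by
    simp only [HSa_B]
    rw [HSa_dp_add hG hu.1 hv.1, HSa_w_add hu.1 hv.1,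
      HSa_add hG (fun _ _ => smAt_one) (HSa_dp_sm hG hu.1) (HSa_dp_sm hG hv.1) (HSa_dp_sm hG hw.1),
      HSa_add hG (HSa_oo hx) (HSa_w_sm hx hi hG hu.1) (HSa_w_sm hx hi hG hv.1)
        (HSa_w_sm hx hi hG hw.1)]
    ring
  smul t u _ w _ := by
    simp only [HSa_B]
    rw [dp_smul, HSa_w_smul, HSa_smul, HSa_smul, mul_add]
  sym u _ w hw := by
    simp only [HSa_B]
    rw [map_add, HSa_sym (k := 1) (c := 1) (b := dp G w) (fun _ => map_one _)
        fun y => HSa_Dg (hw.2.dp y) rfl,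
      HSa_sym (k := 0) (c := Om x * Om x) (b := HSa_w x G w)
        (fun y => by rw [Pi.mul_apply, map_mul, (hx y).cj_Om]) fun y => HSa_Dg (fn_Ty _ y) rfl]
  pos u hu := by
    obtain ⟨K, -, h⟩ := HSa_coer hx hi
    exact (h G hG u hu.1 hu.2).1

omit [MeasurableSpace S] [BorelSpace S] [CompactSpace S] in
theorem HSa_po (ht : Ty 1 0 γ) : Po G 1 (Om x) (2, 0) (0, 0) (dp G γ + HSa_w x G γ) =
    dbar G (dp G γ) + Om x * dp G (HSa_w x G γ) := by
  have h1 : ∀ y, dp G γ y ∈ Tp 2 2 0 := ht.dp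
  have h2 : ∀ y, HSa_w x G γ y ∈ Tp 2 0 0 := fn_Ty _
  have e1 : pf 2 0 (dp G γ + HSa_w x G γ) = dp G γ := funext fun y => by
    rw [pf, Pi.add_apply, map_add, prj_of_mem (h1 y), prj_of_ne (h2 y) (by simp), add_zero]
  have e2 : pf 0 0 (dp G γ + HSa_w x G γ) = HSa_w x G γ := funext fun y => by
    rw [pf, Pi.add_apply, map_add, prj_of_mem (h2 y), prj_of_ne (h1 y) (by simp), zero_add]
  rw [Po, e1, e2, one_mul]

theorem HSa_adj (hx : ∀ p, PMAt x p) (hi : ∀ p, Imm x p) (hG : ∀ p, GOk G p) (h : Sm G γ univ)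
    (ht : Ty 1 0 γ) (h' : Sm G γ' univ) : HSa_B x G γ γ' =
      itg (γ * cf (dbar G (dp G γ'))) + itg (γ * cf (Om x * dp G (HSa_w x G γ'))) := by
  obtain ⟨e1, e2⟩ := hs_adj hx hG h ht (HSa_dp_sm hG h') (HSa_w_sm hx hi hG h')
  have e3 : Om x * Om x * HSa_w x G γ = Om x * dbar G γ := by
    rw [HSa_w, mul_fn]
    funext y
    exact (bk_pt ((hx y).kah (hi y)) (ht.dbar y) rfl).1.symm
  rw [HSa_B, one_mul, e1, ← mul_assoc, e3, e2]

theorem HSa_test (hx : ∀ p, PMAt x p) (hi : ∀ p, Imm x p) (hG : ∀ p, GOk G p)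
    (h : Sm G (cf (pf 0 1 φ)) univ) (h' : Sm G γ univ) (ht : Ty 1 0 γ) (hf : Sm G f univ)
    (tf : Ty 2 1 f) : itg ((Po G 1 (Om x) (2, 0) (0, 0) (dp G γ + HSa_w x G γ) - f) * φ) =
      -conj (HSa_B x G (cf (pf 0 1 φ)) γ - itg (cf (pf 0 1 φ) * cf f)) := by
  have s1 : Sm G (dbar G (dp G γ)) univ := fun p hp => (HSa_dp_sm hG h' p hp).dbar (hG p)
  have s2 : Sm G (Om x * dp G (HSa_w x G γ)) univ := fun p hp =>
    (hx p).Om_sm.mul_left (HSa_dp_sm hG (HSa_w_sm hx hi hG h') p hp)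
  have i1 : ∀ b, Sm G b univ → Intg (cf (pf 0 1 φ) * cf b) := fun b hb =>
    intg_of_compact fun p hp => (h p hp).mul_cf (hb p hp) (hG p)
  have t1 : ∀ y, dbar G (dp G γ) y ∈ Tp 2 2 1 := ht.dp.dbar
  have t2 : ∀ y, dp G (HSa_w x G γ) y ∈ Tp 2 1 0 := (fn_Ty _).dp
  rw [HSa_adj hx hi hG h (fun y => cj_Tp (prj_mem _)) h', ← itg_add (i1 _ s1) (i1 _ s2),
    ← itg_sub ((i1 _ s1).add (i1 _ s2)) (i1 _ hf), ← itg_cf, ← itg_neg, HSa_po ht]
  refine itg_congr_top fun y => ?_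
  rw [Pi.mul_apply, HSa_top (u := (dbar G (dp G γ) + Om x * dp G (HSa_w x G γ) - f) y)
    (sub_mem (add_mem (t1 y) (HSa_Tp (Om_Ty y) (t2 y) rfl rfl)) (tf y))]
  simp only [cf, pf, Pi.neg_apply, Pi.sub_apply, Pi.add_apply, Pi.mul_apply, map_sub, map_add,
    map_mul, cj_cj, mul_sub, mul_add]

/-- `Psd.riesz` on `SmT 2 G 1 0` with
`B γ γ' = itg (dp γ * cf (dp γ')) + itg (Om * Om * (w γ * cf (w γ')))`,
`w γ = fn 2 (tw x (dbar G γ))`, `l γ = itg (γ * cf f)`; the bound on `l` is `itg_cf_le_one`, `CPos`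
and `bk_le`; `U k = dp (γ k) + w (γ k)`; `coercive` for `(2,0)` with `c = 1` (`pos_n0'`) and for
`(0,0)` with `c = Om * Om` (`Kah.pos_pow`); `Om * Om * w γ = Om * dbar γ` (`bk_pt`), so
`B γ (γ k) = itg (γ * cf (Po (U k)))` by `hs_adj`. For a test form `φ` only `pf 0 1 φ = cf γ`
counts. -/
theorem hs_a (hx : ∀ p, PMAt x p) (hi : ∀ p, Imm x p) {C0 : ℝ} (h0 : 0 ≤ C0) : ∃ C1 : ℝ, 0 ≤ C1 ∧
    ∀ G : Ga S, (∀ p, GOk G p) → CPos 2 G C0 → ∀ f : Fm 2 S, Sm G f univ → Ty 2 1 f →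
      ∃ U : ℕ → Fm 2 S, (∀ k, Sm G (U k) univ) ∧ Cau U ∧ (∀ k, nr (U k) ≤ C1 * nr f) ∧
        Wk0 G fun k => Po G 1 (Om x) (2, 0) (0, 0) (U k) - f := by
  obtain ⟨K, hK, HK⟩ := HSa_coer hx hi
  obtain ⟨C, hC, HC⟩ := itg_cf_le_one (n := 2) (X := S)
  refine ⟨Real.sqrt (K * (4 * (C ^ 2 * C0))), Real.sqrt_nonneg _, fun G hG hP f hf tf => ?_⟩
  have i1 : ∀ b, Sm G b univ → Intg (b * cf f) := fun b hb =>
    intg_of_compact fun p hp => (hb p hp).mul_cf (hf p hp) (hG p)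
  obtain ⟨v, hv, h1, h2, h3⟩ := (HSa_psd hx hi hG).riesz (l := fun γ => itg (γ * cf f))
    (fun u hu w hw => by rw [add_mul, itg_add (i1 _ hu.1) (i1 _ hw.1)])
    (fun t u _ => by rw [smul_mul_assoc, itg_smul]) (M := C ^ 2 * C0 * nr f ^ 2) (by positivity)
    fun u hu => by
      have h4 := pow_le_pow_left₀ (norm_nonneg _) (HC G hG u f hu.1 hf) 2
      have h5 := (hP u hu.1 hu.2).trans
        (mul_le_mul_of_nonneg_left (bk_le hx hi hG hu.1 hu.2) h0)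
      have h6 := mul_le_mul_of_nonneg_left h5 (by positivity : 0 ≤ C ^ 2 * nr f ^ 2)
      rw [HSa_B, one_mul, HSa_w]
      linarith
  refine ⟨fun k => dp G (v k) + HSa_w x G (v k), fun k p hp =>
    (HSa_dp_sm hG (hv k).1 p hp).add (HSa_w_sm hx hi hG (hv k).1 p hp), ?_, fun k => ?_,
    fun φ hφ => ?_⟩
  · have h4 := (h2.const_mul K).sqrt
    rw [mul_zero, Real.sqrt_zero] at h4
    refine squeeze_zero (fun _ => nr_nonneg _) (fun k => Real.le_sqrt_of_sq_le ?_) h4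
    have hw := sub_mem (hv k.1) (hv k.2)
    have e1 := HSa_dp_add hG hw.1 (hv k.2).1
    have e2 := HSa_w_add (x := x) hw.1 (hv k.2).1
    rw [sub_add_cancel] at e1 e2
    have e3 : dp G (v k.1) + HSa_w x G (v k.1) - (dp G (v k.2) + HSa_w x G (v k.2)) =
        dp G (v k.1 - v k.2) + HSa_w x G (v k.1 - v k.2) := by
      rw [e1, e2]
      abel
    rw [e3]
    exact (HK G hG _ hw.1 hw.2).2
  · rw [← Real.sqrt_sq (nr_nonneg f), ← Real.sqrt_mul (by positivity)]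
    refine Real.le_sqrt_of_sq_le ((HK G hG _ (hv k).1 (hv k).2).2.trans ?_)
    have := mul_le_mul_of_nonneg_left (h1 k) hK.le
    linarith
  · have h : Sm G (cf (pf 0 1 φ)) univ := fun p hp => by
      have := ((hφ p hp).pf 0 1).cf (hG p).inv
      rwa [inv_inv] at this
    have h4 := ((continuous_conj.tendsto _).comp
      ((h3 _ ⟨h, fun y => cj_Tp (prj_mem _)⟩).sub_const (itg (cf (pf 0 1 φ) * cf f)))).neg
    rw [sub_self, map_zero, neg_zero] at h4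
    exact h4.congr fun k => (HSa_test hx hi hG h (hv k).1 (hv k).2 hf tf).symm

end

end Pool.Agent.MP_1c689d_ag.K0.L2

end

section

/-! The theorem of Hörmander on a surface. -/

set_option autoImplicit false

open Complex Filter Topology Set MeasureTheory
open scoped ComplexConjugate ContDiff ENNReal NNReal

namespace Pool.Agent.MP_1c689d_ag.K0.L2

noncomputable section

variable {N : ℕ} {S : Type} [TopologicalSpace S] [Mf 2 S] [MeasurableSpace S] [BorelSpace S]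
  [CompactSpace S] {x : S → Fin N → ℂ}

theorem HS_diag {a : ℕ → ℕ → ℝ} (h : Tendsto (fun k : ℕ × ℕ => a k.1 k.2) atTop (𝓝 0)) :
    Tendsto (fun k => a k k) atTop (𝓝 0) :=
  h.comp tendsto_atTop_diagonal

theorem HS_two {a : ℕ → ℕ → ℝ} (h : Tendsto (fun k : ℕ × ℕ => a k.1 k.2) atTop (𝓝 0)) (c : ℝ) :
    Tendsto (fun k : ℕ × ℕ => c * (a k.2 k.1 + a k.1 k.1)) atTop (𝓝 0) := by
  have t1 : Tendsto (fun k : ℕ × ℕ => k.1) atTop atTop := by
    rw [← prod_atTop_atTop_eq]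
    exact tendsto_fst
  have t2 : Tendsto (Prod.swap : ℕ × ℕ → ℕ × ℕ) atTop atTop := by
    rw [← prod_atTop_atTop_eq]
    exact tendsto_prod_swap
  have h4 := ((h.comp t2).add ((HS_diag h).comp t1)).const_mul c
  rwa [add_zero, mul_zero] at h4

/-- `f = dbar g`, `U` from `hs_a`, `V` from `weak_strong`, `s k = g - pf 2 0 (V k)` is Cauchy and
`dbar (s k)` tends to zero (`hs_b`); `weyl_limit`;
`nr (g - h) ≤ nr (pf 2 0 (V k)) + nr (s k - h)`, `nr (V k) ≤ nr (V k - U k) + C1 * nr f`. -/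
theorem hsol_of_cpos (hx : ∀ p, PMAt x p) (hi : ∀ p, Imm x p) {C0 : ℝ} (h0 : 0 ≤ C0) :
    ∃ C1 : ℝ, ∀ G : Ga S, (∀ p, GOk G p) → CPos 2 G C0 → HSol 2 G C1 := by
  obtain ⟨C1, -, hA⟩ := hs_a hx hi h0
  obtain ⟨Cb, -, hB⟩ := hs_b hx hi
  obtain ⟨Cp, hp, hP⟩ := nr_pf_le (n := 2) (X := S) 2 0
  refine ⟨Cp * C1, fun G hG hC g hg ht => ?_⟩
  have hf : Sm G (dbar G g) univ := fun p hp => (hg p hp).dbar (hG p)
  obtain ⟨U, hU, hc, hb, hw⟩ := hA G hG hC _ hf ht.dbar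
  obtain ⟨V, hV, h1, h2⟩ :=
    weak_strong hG (fun _ _ => smAt_one) (fun p _ => (hx p).Om_sm) (2, 0) (0, 0) hU hc hf hw
  have hW : ∀ k, Sm G (pf 2 0 (V k)) univ := fun k p hp => (hV k p hp).pf 2 0
  have hs : ∀ k, Sm G (g - pf 2 0 (V k)) univ := fun k p hp => (hg p hp).sub (hW k p hp)
  have d1 := HS_diag (a := fun i j => nr (V i - U j)) h1
  have h3 : Cau fun k => g - pf 2 0 (V k) := by
    refine squeeze_zero (fun _ => nr_nonneg _) (fun k => ?_)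
      (HS_two (a := fun i j => nr (V i - U j)) h1 Cp)
    have e : g - pf 2 0 (V k.1) - (g - pf 2 0 (V k.2)) = pf 2 0 (V k.2 - V k.1) := by
      rw [sub_sub_sub_cancel_left]
      exact funext fun y => (map_sub (prj 2 0) _ _).symm
    beta_reduce
    rw [e]
    refine (hP _ (cn_of_sm hG fun p hp => (hV _ p hp).sub (hV _ p hp))).trans
      (mul_le_mul_of_nonneg_left ?_ hp.le)
    have h5 := nr_tri hG (hV k.2) (hU k.1) (hV k.1)
    rwa [nr_sub_comm (U k.1)] at h5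
  have h4 : Tendsto (fun k => nr (dbar G (g - pf 2 0 (V k)))) atTop (𝓝 0) := by
    have h5 := h2.const_mul Cb
    rw [mul_zero] at h5
    refine squeeze_zero (fun _ => nr_nonneg _) (fun k => ?_) h5
    have e : dbar G (g - pf 2 0 (V k)) = dbar G g - dbar G (pf 2 0 (V k)) :=
      funext fun y => dbar_sub (hg y trivial) (hW k y trivial)
    rw [e, nr_sub_comm]
    exact hB G hG _ g (hV k) hg ht
  obtain ⟨h, h5, h6, h7⟩ :=
    weyl_limit hG (fun k => ⟨hs k, fun y => sub_mem (ht y) (prj_mem _)⟩) h3 h4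
  refine ⟨h, h5, h6, ?_⟩
  have h8 := ((d1.add_const (C1 * nr (dbar G g))).const_mul Cp).add h7
  rw [zero_add, add_zero, ← mul_assoc] at h8
  refine ge_of_tendsto' h8 fun k => ?_
  have h9 := nr_tri hG hg (hs k) (fun p _ => (h6 p).1)
  rw [sub_sub_cancel] at h9
  have h10 := nr_add_sm hG (α := V k - U k) (fun p hp => (hV k p hp).sub (hU k p hp)) (hU k)
  rw [sub_add_cancel] at h10
  have h11 := hP _ (cn_of_sm hG (hV k))
  have h12 := mul_le_mul_of_nonneg_left (h10.trans (add_le_add le_rfl (hb k))) hp.le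
  linarith

end

end Pool.Agent.MP_1c689d_ag.K0.L2

end

section

/-! High twists have no base points. -/

set_option autoImplicit false

open Complex Filter Topology Set MeasureTheory
open scoped ComplexConjugate ContDiff ENNReal NNReal

namespace Pool.Agent.MP_1c689d_ag.K0.L2

noncomputable section

variable {N : ℕ} {S : Type} [TopologicalSpace S] [Mf 2 S] [MeasurableSpace S] [BorelSpace S]
  [CompactSpace S] {x : S → Fin N → ℂ}

/-- `exists_kg`, `L = G * K`, `g0 = χ • (G p • κ)` (`exists_global`, `GOk.frame`), `cpos_large`,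
`hsol_of_cpos`, `peak_form`, division by `κ` (`mem_Tp_n0`, `holAt_div_top`), `sec_unif`. -/
theorem ho_main (hx : ∀ p, PMAt x p) (hi : ∀ p, Imm x p)
    (inj : ∀ p p', (∃ t : ℂ, x p' = t • x p) → p' = p) {G : Ga S} (hG : ∀ p, GOk G p) :
    ∃ μ0 : ℕ, ∀ μ : ℕ, μ0 ≤ μ → ∀ p, ∃ s : S → ℂ,
      (∀ y, HolAt (G * gx x ^ (μ : ℤ)) s y) ∧ s p ≠ 0 := by
  obtain ⟨K, κ, hK, hκt, hκ0, hκ⟩ := exists_kg hx hi
  have hL : ∀ p, GOk (G * K) p := fun p => (hG p).mul (hK p)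
  obtain ⟨C0, μ1, h0, hC0⟩ := cpos_large hx hi hL
  obtain ⟨C1, hC1⟩ := hsol_of_cpos hx hi h0.le
  refine sec_unif hx hG fun p => ?_
  have a1 : HFm (G * K) (G p • κ) p := by
    rw [← fn_mul]
    exact ((hG p).frame.self_of_nhds.hfm (hG p)).mul (hκ p) (hG p) (hK p)
  obtain ⟨U, hU, hUo, hp⟩ := eventually_nhds_iff.1 (a1.eventually (hL p))
  obtain ⟨χ, -, -, hs, -, -, he⟩ := exists_global (G := G * K) (α := G p • κ) isCompact_singleton
    hUo (singleton_subset_iff.2 hp) fun y hy => (hU y hy).1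
  rw [nhdsSet_singleton] at he
  obtain ⟨μ, s, hst, hsh, hs0⟩ := peak_form hx inj hL
    (fun μ hμ => hC1 _ (fun q => (hL q).mul ((hx q).gok_zpow μ)) (hC0 μ hμ)) hs
    (fun y => Submodule.smul_mem _ _ (Submodule.smul_mem _ _ (hκt y)))
    (MF4_congr a1 (he.mono fun _ h => h.symm))
    (by rw [he.self_of_nhds]; exact smul_ne_zero (hG p).self_ne (hκ0 p))
  have a2 : ∀ y, ∃ c : ℂ, s y = c • κ y := fun y => by
    obtain ⟨c, hc⟩ := mem_Tp_n0.1 (hst y)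
    obtain ⟨d, hd⟩ := mem_Tp_n0.1 (hκt y)
    have hd0 : d ≠ 0 := fun h => hκ0 y (by rw [hd, h, zero_smul])
    exact ⟨c / d, by rw [hc, hd, smul_smul, div_mul_cancel₀ _ hd0]⟩
  choose c hc using a2
  have a3 : s = c • κ := funext hc
  refine ⟨μ, c, fun y => ?_, fun h => hs0 (by rw [hc, h, zero_smul])⟩
  refine holAt_div_top ((hG y).mul ((hx y).gok_zpow μ)) (hK y) (hκ y)
    (Eventually.of_forall hκt) (hκ0 y) ?_
  rw [← a3, mul_right_comm]
  exact hsh y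

end

end Pool.Agent.MP_1c689d_ag.K0.L2

end

section

/-! Interface: the `L²` method. -/

set_option autoImplicit false

open Complex Filter Topology Set MeasureTheory
open scoped ComplexConjugate ContDiff ENNReal

namespace Pool.Agent.MP_1c689d_ag.K0

noncomputable section

variable {N : ℕ}

/-- The Hodge-Riemann relation. -/
theorem hodge_riemann {X : Type} [TopologicalSpace X] [Mf 3 X] [CompactSpace X]
    [MeasurableSpace X] [BorelSpace X] {ξ : X → Fin N → ℂ} (hξ : ∀ p, PMAt ξ p)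
    (hi : ∀ p, Imm ξ p) (hK : DbV 3 (1 : Ga X) 3 1) {η : Fm 3 X} (hη : F21 η)
    (h0 : itg (η * cf η) = 0) : Ex 2 η := by
  exact L2.hr_main hξ hi hK hη h0

/-- High twists of a line bundle on a projective surface have no base points. -/
theorem exists_sec {S : Type} [TopologicalSpace S] [Mf 2 S] [CompactSpace S]
    {x : S → Fin N → ℂ} (hx : ∀ p, PMAt x p) (hi : ∀ p, Imm x p)
    (inj : ∀ p p', (∃ t : ℂ, x p' = t • x p) → p' = p) {G : Ga S} (hG : ∀ p, GOk G p) :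
    ∃ μ0 : ℕ, ∀ μ : ℕ, μ0 ≤ μ → ∀ p, ∃ s : S → ℂ,
      (∀ y, HolAt (G * gx x ^ (μ : ℤ)) s y) ∧ s p ≠ 0 := by
  borelize S
  exact L2.ho_main hx hi inj hG

end

end Pool.Agent.MP_1c689d_ag.K0

end

section

/-! The matrix of forms attached to an integral class. -/

set_option autoImplicit false

open Complex Filter Topology Set MeasureTheory MvPolynomial
open scoped ComplexConjugate ContDiff ENNReal

namespace Pool.Agent.MP_1c689d_ag.K0

noncomputable section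

variable {m c r : ℕ} {S : Type} [TopologicalSpace S] [Mf 2 S]

theorem LB_nrm {a : ℕ} {v : Fin a → ℂ} {j : Fin a} (h : v j ≠ 0) : ∃ t : ℂ, v = t • nrm v :=
  ⟨_, (smul_inv_smul₀ (fun e => MF4c_sqrt_ne h (inv_eq_zero.2 e)) v).symm⟩

theorem LB_col {a b : ℕ} {M : Fin a → Fin b → ℂ}
    (hr : ∀ j j' l l', M j l * M j' l' = M j l' * M j' l) {j : Fin a} {l : Fin b}
    (h0 : M j l ≠ 0) : ∑ i, normSq (col M i) = 1 ∧ ∃ t : ℂ, col M = t • fun i => M i l := by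
  have h : ∃ k, (fun j => M j k) ≠ 0 := ⟨l, fun e => h0 (congrFun e j)⟩
  obtain ⟨i, hi⟩ := Function.ne_iff.1 h.choose_spec
  rw [col, dif_pos h]
  constructor
  · simp only [MF4c_normSq_nrm]
    rw [← Finset.sum_div, div_self (MF4c_pos (v := fun j => M j h.choose) hi).ne']
  · refine ⟨((Real.sqrt (∑ i, normSq (M i h.choose)) : ℂ))⁻¹ * (M j h.choose / M j l), ?_⟩
    funext i
    simp only [nrm, Pi.smul_apply, smul_eq_mul]
    rw [mul_assoc, div_mul_eq_mul_div, mul_comm (M j _), ← hr, mul_div_cancel_right₀ _ h0]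

theorem LB_fin {n : ℕ} {X : Type} [TopologicalSpace X] [Mf n X] [CompactSpace X] {G : Ga X}
    (hG : ∀ p, GOk G p) (h : ∀ p, ∃ s : X → ℂ, (∀ y, HolAt G s y) ∧ s p ≠ 0) (q : X) :
    ∃ (a : ℕ) (s : Fin (a + 1) → X → ℂ), (∀ j y, HolAt G (s j) y) ∧ (∀ p, ∃ j, s j p ≠ 0) ∧
      s 0 q ≠ 0 := by
  choose u hu hn using h
  obtain ⟨T, hT⟩ := CompactSpace.elim_nhds_subcover (fun p => {y | u p y ≠ 0})
    fun p => (hu p p).smAt.fn_ne (hG p) (hn p)
  refine ⟨T.card, Fin.cons (u q) fun i => u (T.equivFin.symm i), fun j => ?_, fun p => ?_, hn q⟩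
  · exact Fin.cases (hu q) (fun i => hu _) j
  · have hp : p ∈ ⋃ x ∈ T, {y | u x y ≠ 0} := hT ▸ mem_univ p
    obtain ⟨z, hz, hp⟩ := mem_iUnion₂.1 hp
    refine ⟨(T.equivFin ⟨z, hz⟩).succ, ?_⟩
    rw [Fin.cons_succ, Equiv.symm_apply_apply]
    exact hp

theorem LB_ex {n : ℕ} {X : Type} [TopologicalSpace X] [Mf n X] {α β : Fm n X} {φ : X → ℂ}
    (h : Ex 1 α) (hφ : ∀ p, SmAt 1 (fn n φ) p)
    (e : ∀ p, β p = α p - dbar 1 (dp 1 (fn n φ)) p) : Ex 1 β := by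
  obtain ⟨κ, k1, k2, k3⟩ := h
  refine ⟨κ - dp 1 (fn n φ), fun p hp => (k1 p hp).sub ((hφ p).dp gok_one),
    fun p => sub_mem (k2 p) (Tp_le_Dg (p := 1) (q := 0) ((fn_Ty φ).dp p)), funext fun p => ?_⟩
  rw [dd_sub (k1 p (mem_univ p)) ((hφ p).dp gok_one), k3, dd_eq, Pi.add_apply,
    dp_dp gok_one (hφ p), zero_add, e]

/-- The map given by the columns of a matrix of rank one. -/
theorem pmAt_col {n : ℕ} {X : Type} [TopologicalSpace X] [Mf n X] {a b : ℕ} {G : Ga X} {p : X}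
    (hG : GOk G p) {M : X → Fin a → Fin b → ℂ} (hM : ∀ j l, HolAt G (fun y => M y j l) p)
    (hr : ∀ᶠ y in 𝓝 p, ∀ j j' l l', M y j l * M y j' l' = M y j l' * M y j' l)
    (h0 : ∃ j l, M p j l ≠ 0) : PMAt (fun y => col (M y)) p := by
  obtain ⟨j, l, h0⟩ := h0
  have hn := (hM j l).smAt.fn_ne hG h0
  refine (pmAt_of_sec (v := fun y i => M y i l) hG (fun i => hM i l)
    fun e => h0 (congrFun e j)).1.of_prop ?_ ?_
  · filter_upwards [hr, hn] with y h1 h2 using (LB_col h1 h2).1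
  · filter_upwards [hr, hn] with y h1 h2
    obtain ⟨t, ht⟩ := (LB_col h1 h2).2
    obtain ⟨u, hu⟩ := LB_nrm (v := fun i => M y i l) h2
    exact ⟨t * u, by rw [ht, mul_smul, ← hu]⟩

/-- `FD.dual` (with `k = 0`) solves `∂ bar β = θ^{0,2}`; `exists_gauge` gives `G`; `exists_sec` for
`G` and `G⁻¹` and compactness give finitely many sections `s j`, `t l` without common zero;
`FD.h_zero` gives `f j l = s j * t l`; `pmAt_of_sec` and `Th_congr` give the curvature. -/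
theorem exists_rk1 [MeasurableSpace S] [BorelSpace S] [Nonempty S] {Q : PD m 4 c r} {σ : P m}
    {Q' : PD m 3 (c + 1) (r + 1)} (hQ : Q'.F = Fin.cons σ Q.F) {x : S → Fin m → ℂ}
    (hF : FD Q' ∅ x) {θ : Fm 2 S} (hθ : Cl 2 θ univ) (hr : cf θ = θ) (hi : IntF θ univ)
    (h0 : ∀ α : Fm 2 S, Ty 2 0 α → (∀ p, HFm 1 α p) → itg (θ * α) = 0) :
    ∃ (μ a a' : ℕ) (f : Fin (a + 1) → Fin (a' + 1) → P m), Rk1 Q σ μ f ∧
      (∃ p, eval (x p) (f 0 0) ≠ 0) ∧
      Ex 1 (Tt x μ (fun _ => f) - (2 * Real.pi * I : ℂ) • θ) := by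
  have := hF.cpt
  have off : ∀ v, Q'.Off ∅ v := fun v u hu => absurd hu (Finset.notMem_empty u)
  have e0 : gx x ^ (-(0 : ℤ)) = 1 := by rw [neg_zero, zpow_zero]
  obtain ⟨β, b1, b2, b3⟩ := hF.dual (le_refl 2) 0 (q := 1) rfl (ψ := pf 0 2 θ)
    (by rw [e0]; exact fun p hp => (hθ.sm p hp).pf 0 2) (fun y => prj_mem _) fun α h1 h2 => by
      rw [zpow_zero] at h2
      rw [← h0 α h1 h2]
      refine itg_congr_top fun y => ?_
      change top (α y * prj 0 2 (θ y)) = top (θ y * α y)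
      rw [comm_even (k := 1) (hθ.dg y), ← prj_mul_left (h1 y), top_prj]
  rw [e0] at b1 b3
  obtain ⟨G, hG, k⟩ := exists_gauge hθ hr hi b1 b2 b3
  have im := fun p => hF.imm p (off _)
  have ij := fun p p' => hF.inj p p' (off _)
  obtain ⟨μ1, h1⟩ := exists_sec hF.pm im ij hG
  obtain ⟨μ2, h2⟩ := exists_sec hF.pm im ij fun p => (hG p).inv
  obtain ⟨q⟩ := ‹Nonempty S›
  obtain ⟨μ, m1, m2⟩ : ∃ μ, μ1 ≤ μ ∧ μ2 ≤ μ := ⟨_, le_max_left _ _, le_max_right _ _⟩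
  have g1 := fun p => (hG p).mul ((hF.pm p).gok_zpow μ)
  have g2 := fun p => (hG p).inv.mul ((hF.pm p).gok_zpow μ)
  obtain ⟨a, s, s1, s2, s3⟩ := LB_fin g1 (h1 μ m1) q
  obtain ⟨a', t, t1, t2, t3⟩ := LB_fin g2 (h2 μ m2) q
  have hh : ∀ j l p, HolAt (gx x ^ ((2 * μ : ℕ) : ℤ)) (s j * t l) p := fun j l p => by
    refine ((s1 j p).mul (t1 l p)).gauge ?_
    filter_upwards [(hG p).mul_inv, (hF.pm p).gz_add (i := μ) (j := μ) (l := (2 * μ : ℕ))
      (by push_cast; ring)] with y e1 e2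
    rw [← e2]
    simp only [Pi.mul_apply, Pi.one_apply] at e1 ⊢
    rw [mul_mul_mul_comm, e1, one_mul]
  choose f f1 f2 using fun j l => hF.h_zero (le_refl 2) _ (hh j l)
  have f3 : ∀ p j l, eval (x p) (f j l) = s j p * t l p := fun p j l => (congrFun (f2 j l) p).symm
  have hv : ∀ v, Q.OnC v → eval v σ = 0 →
      ∃ p, ∃ u : ℂ, u ≠ 0 ∧ ∀ j l, eval v (f j l) = u * (s j p * t l p) := fun v v1 v2 => by
    obtain ⟨p, u, hu⟩ := hF.surj v ⟨v1.1, fun j => by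
      rw [hQ]
      exact Fin.cases v2 v1.2 j⟩ (off v)
    have u0 : u ^ ((2 * μ : ℕ) : ℤ) ≠ 0 := zpow_ne_zero _ fun e =>
      (hF.pm p).ne_zero (by rw [hu, e, zero_smul])
    refine ⟨p, _, inv_ne_zero u0, fun j l => ?_⟩
    rw [← f3, hu, hz_eval_smul (f1 j l), inv_mul_cancel_left₀ u0]
  refine ⟨μ, a, a', f, ⟨fun j l => mem_hz_nat.1 (f1 j l), fun v v1 v2 j j' l l' => ?_,
    fun v v1 v2 => ?_⟩, ⟨q, by rw [f3]; exact mul_ne_zero s3 t3⟩, ?_⟩
  · obtain ⟨p, u, -, hu⟩ := hv v v1 v2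
    simp only [hu]
    ring
  · obtain ⟨p, u, u0, hu⟩ := hv v v1 v2
    obtain ⟨j, hj⟩ := s2 p
    obtain ⟨l, hl⟩ := t2 p
    exact ⟨j, l, by rw [hu]; exact mul_ne_zero u0 (mul_ne_zero hj hl)⟩
  have ps := fun p => pmAt_of_sec (v := fun y j => s j y) (g1 p) (fun j => s1 j p) fun e => by
    obtain ⟨j, hj⟩ := s2 p
    exact hj (congrFun e j)
  refine LB_ex k (fun p => (ps p).2.1) fun p => ?_
  obtain ⟨j, hj⟩ := s2 p
  obtain ⟨l, hl⟩ := t2 p
  have rk : ∀ y j j' l l', s j y * t l y * (s j' y * t l' y) =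
      s j y * t l' y * (s j' y * t l y) := fun y j j' l l' => by ring
  have e1 : Th (fun y => col fun j l => s j y * t l y) p = Th (fun y => nrm fun j => s j y) p := by
    refine (ps p).1.Th_congr (pmAt_col ((hF.pm p).gok_zpow _) (fun j l => hh j l p)
      (Eventually.of_forall rk) ⟨j, l, mul_ne_zero hj hl⟩) ?_
    filter_upwards [(s1 j p).smAt.fn_ne (g1 p) hj, (t1 l p).smAt.fn_ne (g2 p) hl] with y e1 e2
    obtain ⟨u, hu⟩ := (LB_col (rk y) (mul_ne_zero e1 e2)).2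
    obtain ⟨w, hw⟩ := LB_nrm (v := fun j => s j y) e1
    refine ⟨u * t l y * w, ?_⟩
    rw [hu, mul_smul, ← hw, mul_smul]
    congr 1
    funext i
    exact mul_comm _ _
  simp only [Tt, f3, Pi.sub_apply, Pi.smul_apply]
  rw [e1, (ps p).2.2, cur_mul (hG p) ((hF.pm p).gok_zpow μ), (hF.pm p).cur_zpow, Int.cast_natCast]
  abel

end

end Pool.Agent.MP_1c689d_ag.K0

end

section

/-! Basic properties of the total space of a family. -/

set_option autoImplicit false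

open Complex Filter Topology Set MeasureTheory MvPolynomial
open scoped ComplexConjugate ContDiff ENNReal

namespace Pool.Agent.MP_1c689d_ag.K0

noncomputable section

variable {m c r : ℕ} {B X : Type} [TopologicalSpace B] [Mf 1 B] [TopologicalSpace X] [Mf 3 X]
  {Q : PD m 4 c r} {Pts : Finset (Fin 4 → ℂ)} {x : X → Fin m → ℂ} {D : Crv B} {ν μ a a' : ℕ}
  {σ : B → P m} {f : B → Fin a → Fin a' → P m} (hF : FD Q Pts x) (hA : Fam Q Pts D ν μ σ f)

theorem FAMb_loc (D : Crv B) {u : B → ℂ} (hu : u ∈ D.A) (b : B) :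
    ∃ w : B → ℂ, HolAt 1 w b ∧ ∀ᶠ y in 𝓝 b, dd (fn 1 u) y = w y • dd (fn 1 D.s) y := by
  obtain ⟨e, he, hb, hs⟩ := exists_chart_first (n := 0) (D.hol _ D.s_mem b) (D.ds b)
  have hc : ∀ y, (fun _ => D.s y : E 1) = e y := fun y => by
    funext j
    rw [Subsingleton.elim j 0, hs]
  have h1 := (holAt_chart he hb).1 (D.hol u hu b)
  have hd : Differentiable ℂ fun t : ℂ => (fun _ => t : E 1) :=
    differentiable_pi.2 fun _ => differentiable_id
  have ht : Tendsto (fun t : ℂ => (fun _ => t : E 1)) (𝓝 (D.s b)) (𝓝 (e b)) := by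
    rw [← hc]
    exact hd.continuous.continuousAt
  have h2 : ∀ᶠ t in 𝓝 (D.s b), DifferentiableAt ℂ (fun t : ℂ => u (e.symm fun _ => t)) t :=
    (ht.eventually h1).mono fun t h => DifferentiableAt.comp (g := u ∘ e.symm) t h (hd t)
  have h3 : AnalyticAt ℂ (fun t : ℂ => u (e.symm fun _ => t)) (D.s b) :=
    analyticAt_iff_eventually_differentiableAt.2 h2
  refine ⟨deriv (fun t : ℂ => u (e.symm fun _ => t)) ∘ D.s, (D.hol _ D.s_mem b).comp_fn
    (analyticAt_iff_eventually_differentiableAt.1 h3.deriv), ?_⟩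
  filter_upwards [(MF2a_hol_cont (D.hol _ D.s_mem b)).eventually h2,
    e.open_source.mem_nhds hb] with y hy hy'
  have h4 : fn 1 u =ᶠ[𝓝 y] fn 1 ((fun t : ℂ => u (e.symm fun _ => t)) ∘ D.s) := by
    filter_upwards [e.open_source.mem_nhds hy'] with z hz
    simp only [fn, Function.comp_apply, hc, e.left_inv hz]
  rw [dd_congr h4, dd_comp_fn (D.hol _ D.s_mem y).smAt (hy.restrictScalars ℝ),
    hy.fderiv_restrictScalars ℝ]
  simp only [ContinuousLinearMap.coe_restrictScalars', fderiv_eq_smul_deriv, smul_eq_mul,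
    Function.comp_apply]
  generalize deriv (fun t : ℂ => u (e.symm fun _ => t)) (D.s y) = t
  have e1 : (1 * t - I * (I * t)) / 2 = t := by linear_combination (-t / 2) * I_mul_I
  have e2 : (1 * t + I * (I * t)) / 2 = 0 := by linear_combination (t / 2) * I_mul_I
  rw [e1, e2, zero_smul, add_zero]

theorem FAMb_hol (z : PX B X) : HolAt (gx (x ∘ (PX.snd : PX B X → X)) ^ (ν : ℤ))
    (hA.dv hF).σ z :=
  (Fam.pm hF z).holAt_fam (σ := fun y => σ y.fst) (fun y => (hA.good y.fst).hom) (hA.hc z)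

theorem FAMb_slice (z : PX B X) :
    lm (df (PX.mk z.fst : X → PX B X) z.snd) ((hA.dv hF).D z) =
      (dvs hF (hA.good z.fst)).D z.snd := by
  have h2 := pb_dp (f := (PX.mk z.fst : X → PX B X)) (y := z.snd) (PX.hmap_slice z.fst z.snd)
    ((Fam.pm hF z).gok_zpow ν) (FAMb_hol hF hA z).smAt
  rw [pb_fn, gpb_zpow, ← gx_comp] at h2
  exact h2

theorem Fam.mem_S (z : PX B X) : z ∈ (hA.dv hF).S ↔ eval (x z.snd) (σ z.fst) = 0 := by
  exact ⟨fun h => h.2, fun h => ⟨(hA.good z.fst).off _ (hF.onc _) h, h⟩⟩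

theorem Fam.isClosed_S : IsClosed (hA.dv hF).S := by
  rw [← isOpen_compl_iff, isOpen_iff_eventually]
  intro z hz
  have h0 : (hA.dv hF).σ z ≠ 0 := fun h => hz ((Fam.mem_S hF hA z).2 h)
  filter_upwards [(FAMb_hol hF hA z).smAt.fn_ne ((Fam.pm hF z).gok_zpow ν) h0] with y hy h
  exact hy h.2

theorem Fam.hmap_pB (p : (hA.dv hF).T) : HMap (hA.pB hF) p := by
  exact (PX.hmap_fst _).comp ((hA.dv hF).HYP_hm p)

theorem Fam.hmap_pX (p : (hA.dv hF).T) : HMap (hA.pX hF) p := by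
  exact (PX.hmap_snd _).comp ((hA.dv hF).HYP_hm p)

theorem Fam.pX_mem (p : (hA.dv hF).T) :
    hA.pX hF p ∈ Q.O Pts x ∧ eval (x (hA.pX hF p)) (σ (hA.pB hF p)) = 0 := by
  exact (hA.dv hF).val_mem p

theorem Fam.ext_p {p p' : (hA.dv hF).T} (h1 : hA.pB hF p = hA.pB hF p')
    (h2 : hA.pX hF p = hA.pX hF p') : p = p' := by
  exact (hA.dv hF).isEmbedding_val.injective (Prod.ext h1 h2)

theorem Fam.proper {K : Set B} (hK : IsCompact K) : IsCompact (hA.pB hF ⁻¹' K) := by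
  have := hF.cpt
  have h : IsClosedEmbedding (hA.dv hF).val :=
    ⟨(hA.dv hF).isEmbedding_val, by rw [Div.range_val]; exact Fam.isClosed_S hF hA⟩
  exact h.isCompact_preimage (PX.isCompact_fst hK)

theorem Fam.pm_col (p : (hA.dv hF).T) : PMAt
    (fun p : (hA.dv hF).T => col fun j l => eval (x (hA.pX hF p)) (f (hA.pB hF p) j l)) p := by
  have h : PMAt (x ∘ hA.pX hF) p := (hF.pm _).comp (Fam.hmap_pX hF hA p)
  refine pmAt_col (h.gok_zpow ((2 * μ : ℕ) : ℤ)) (fun j l => ?_) (Eventually.of_forall fun y => ?_)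
    ((hA.rk1 _).ne _ (hF.onc _) (Fam.pX_mem hF hA p).2)
  · refine h.holAt_fam (σ := fun y => f (hA.pB hF y) j l) (fun y => (hA.rk1 _).hom j l) fun i => ?_
    exact MF2a_hol_comp (Fam.hmap_pB hF hA p) (D.hol _ (hA.freg j l i) _)
  · exact (hA.rk1 _).rk _ (hF.onc _) (Fam.pX_mem hF hA y).2

theorem FAMb_Tt {n : ℕ} {Y : Type} [TopologicalSpace Y] [Mf n Y] {v : Y → Fin m → ℂ}
    {g : Y → Fin a → Fin a' → P m} (h : ∀ p, PMAt v p)
    (h' : ∀ p, PMAt (fun p => col fun j l => eval (v p) (g p j l)) p) :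
    Cl 2 (Tt v μ g : Fm n Y) univ ∧ Ty 1 1 (Tt v μ g : Fm n Y) := by
  unfold Tt
  have ht : Ty 1 1 (Th (fun p => col fun j l => eval (v p) (g p j l)) - (μ : ℂ) • Th v : Fm n Y) :=
    fun p => Submodule.sub_mem _ (Th_Ty p) (Submodule.smul_mem _ _ (Th_Ty p))
  refine ⟨⟨fun p _ => (h' p).Th_sm.sub ((h p).Th_sm.smul _),
    fun p => Tp_le_Dg (p := 1) (q := 1) (ht p), fun p _ => ?_⟩, ht⟩
  rw [dd_sub (h' p).Th_sm ((h p).Th_sm.smul (μ : ℂ)), dd_smul, Pi.smul_apply, (h p).dd_Th,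
    (h' p).dd_Th, smul_zero, sub_zero]

theorem Fam.Θ_cl : Cl 2 (hA.Θ hF) univ ∧ Ty 1 1 (hA.Θ hF) := by
  exact FAMb_Tt (fun p => (hF.pm _).comp (Fam.hmap_pX hF hA p)) (Fam.pm_col hF hA)

theorem FAMb_ds (D : Crv B) : Ty 1 0 (dd (fn 1 D.s)) := fun b => by
  rw [dd_of_hol (D.hol _ D.s_mem b)]
  exact (fn_Ty D.s).dp b

theorem FAMb_fst {β : Fm 1 B} {z : PX B X} (h : β z.fst ≠ 0) :
    pb (PX.fst : PX B X → B) β z ≠ 0 := fun h0 => by
  have h2 := pb_comp (f := fun b : B => PX.mk b z.snd) (p := z.fst) (PX.hmap_fst _)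
    (PX.hmap_mk hmap_id (hmap_const _)) β
  apply h
  rw [← pb_id β]
  refine h2.symm.trans ?_
  change lm _ (pb (PX.fst : PX B X → B) β z) = 0
  rw [h0, map_zero]

theorem FAMb_div {n : ℕ} {Y : Type} [TopologicalSpace Y] [Mf (n + 1) Y] (H : Div n Y) (p : H.T)
    {β : Fm (n + 1) Y} (hβ : Ty 1 0 β) (h0 : β (H.val p) ≠ 0) (h : pb H.val β p = 0) :
    ∃ γ, H.D (H.val p) = β (H.val p) * γ := by
  refine exists_div (Tp_le_Dg (p := 1) (q := 0) (hβ _)) h0 ?_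
  rw [comm_Dg (Tp_le_Dg (hβ _)) (Tp_le_Dg (H.D_Ty _)), H.mul_of_lm p (hβ _) h, smul_zero]

/-- The projection to the base is a submersion: if `ds` vanished on the total space, then `ds` would
be a multiple of `D`, whose restriction to the slice is not zero. -/
theorem Fam.ds_ne (p : (hA.dv hF).T) : pb (hA.pB hF) (dd (fn 1 D.s)) p ≠ 0 := by
  intro h
  obtain ⟨γ, hγ⟩ := FAMb_div (hA.dv hF) p (β := pb PX.fst (dd (fn 1 D.s)))
    (fun z => pb_Tp (PX.hmap_fst z) (FAMb_ds D _)) (FAMb_fst (D.ds _))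
    ((pb_comp (PX.hmap_fst _) ((hA.dv hF).HYP_hm p) _).trans h)
  have h6 := (hA.dv hF).val_mem p
  generalize (hA.dv hF).val p = z at hγ h6
  have h4 := FAMb_slice hF hA z
  have h5 : lm (df (PX.mk z.fst : X → PX B X) z.snd)
      (pb (PX.fst : PX B X → B) (dd (fn 1 D.s)) z) = 0 :=
    congrFun (PX.pb_slice_fst (X := X) z.fst (k := 0) fun b =>
      Tp_le_Dg (p := 1) (q := 0) (FAMb_ds D b)) z.snd
  rw [hγ, map_mul, h5, zero_mul] at h4
  exact (dvs hF (hA.good z.fst)).nz z.snd h6.1 h6.2 h4.symm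

/-- The inclusion of a fibre. -/
theorem Fam.exists_fibre (b : B) : ∃ i : (dvs hF (hA.good b)).T → (hA.dv hF).T, Emb i ∧
    hA.pX hF ∘ i = (dvs hF (hA.good b)).val ∧ (∀ p, hA.pB hF (i p) = b) ∧
    range i = hA.pB hF ⁻¹' {b} ∧
    pb i (hA.Θ hF) = Tt (x ∘ (dvs hF (hA.good b)).val) μ (fun _ => f b) := by
  let i : (dvs hF (hA.good b)).T → (hA.dv hF).T := fun p =>
    ⟨PX.mk b ((dvs hF (hA.good b)).val p), (dvs hF (hA.good b)).val_mem p⟩
  have hi : ∀ p, HMap i p := fun p =>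
    (hA.dv hF).hmap_lift (PX.hmap_mk (hmap_const b) ((dvs hF (hA.good b)).HYP_hm p))
  refine ⟨i, Emb.comp_of hi (Fam.hmap_pX hF hA) (dvs hF (hA.good b)).emb, rfl, fun _ => rfl,
    ?_, ?_⟩
  · ext p
    constructor
    · rintro ⟨q, rfl⟩
      rfl
    · intro hp
      have hp' : hA.pB hF p = b := hp
      have h := Fam.pX_mem hF hA p
      rw [hp'] at h
      exact ⟨⟨hA.pX hF p, h⟩, Fam.ext_p hF hA hp'.symm rfl⟩
  · funext p
    have h : PMAt (x ∘ hA.pX hF) (i p) := (hF.pm _).comp (Fam.hmap_pX hF hA _)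
    unfold Fam.Θ Tt
    rw [pb_sub, pb_smul, Pi.sub_apply, Pi.smul_apply, h.pb_Th (hi p)]
    exact congrArg (· - _) ((Fam.pm_col hF hA (i p)).pb_Th (hi p))

theorem FAMb_intg {φ : B → ℂ} (hφ : Tst φ) {η : Fm 3 X} (h : Sm 1 η univ) :
    Intg ((φ ∘ hA.pB hF) •
      (pb (hA.pX hF) η * hA.Θ hF * pb (hA.pB hF) (cf (dd (fn 1 D.s))))) := by
  refine intg_of_sm (fun p _ => SmAt.fsmul_one ?_ (SmAt.mul_left (SmAt.mul_left ?_ ?_) ?_)) ?_
  · rw [← pb_fn]
    exact MF2a_sm_pb (Fam.hmap_pB hF hA p) (hφ.1 _ (mem_univ _))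
  · exact MF2a_sm_pb (Fam.hmap_pX hF hA p) (h _ (mem_univ _))
  · exact (Fam.Θ_cl hF hA).1.sm p (mem_univ _)
  · exact MF2a_sm_pb (Fam.hmap_pB hF hA p) (D.hol _ D.s_mem _).smAt.dd.cf_one
  · refine HasCompactSupport.intro (Fam.proper hF hA hφ.2.isCompact) fun p hp => ?_
    have h0 : φ (hA.pB hF p) = 0 := image_eq_zero_of_notMem_tsupport hp
    rw [Pi.smul_apply', Function.comp_apply, h0, zero_smul]

theorem Fam.L_add {φ : B → ℂ} (hφ : Tst φ) {η η' : Fm 3 X} (h : Sm 1 η univ) (h' : Sm 1 η' univ) :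
    hA.L hF φ (η + η') = hA.L hF φ η + hA.L hF φ η' := by
  unfold Fam.L
  rw [pb_add, add_mul, add_mul, smul_add, itg_add (FAMb_intg hF hA hφ h) (FAMb_intg hF hA hφ h')]

theorem Fam.L_smul (φ : B → ℂ) (t : ℂ) (η : Fm 3 X) : hA.L hF φ (t • η) = t * hA.L hF φ η := by
  unfold Fam.L
  rw [pb_smul, smul_mul_assoc, smul_mul_assoc, smul_comm, itg_smul]

theorem Crv.exists_deriv (D : Crv B) {u : B → ℂ} (hu : u ∈ D.A) :
    ∃ u' : B → ℂ, (∀ b, HolAt 1 u' b) ∧ ∀ b, dd (fn 1 u) b = u' b • dd (fn 1 D.s) b := by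
  choose w h1 h2 using FAMb_loc D hu
  refine ⟨fun b => w b b, fun b => (h1 b).congr ?_, fun b => (h2 b).self_of_nhds⟩
  filter_upwards [h2 b] with y hy
  exact smul_left_injective ℂ (D.ds y) (hy.symm.trans (h2 y).self_of_nhds)

end

end Pool.Agent.MP_1c689d_ag.K0

end

section

/-! The integral over a tube. -/

set_option autoImplicit false

open Complex Filter Topology Set MeasureTheory MvPolynomial
open scoped ComplexConjugate ContDiff ENNReal

namespace Pool.Agent.MP_1c689d_ag.K0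

noncomputable section

variable {n : ℕ} {Y : Type} [TopologicalSpace Y] [Mf (n + 1) Y]

/-- A tube around the part of the hypersurface that lies in `C`. -/
structure WFT (H : Div n Y) (U C : Set Y) (χ : Y → ℂ) (θ : Fm (n + 1) Y) (Θ k : Fm n H.T)
    (κ : ℂ) : Prop where
  op : IsOpen U
  sub : U ⊆ H.O
  cl : IsClosed C
  cpt : IsCompact (C ∩ tsupport χ)
  inU : C ∩ tsupport χ ⊆ U
  sm : Sm 1 (fn (n + 1) χ) univ
  one : ∀ y ∈ H.S ∩ C, ∀ᶠ y' in 𝓝 y, χ y' = 1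
  θcl : Cl 2 θ U
  taut : ∀ p, H.val p ∈ C → ∀ᶠ p' in 𝓝 p, SmAt 1 k p' ∧ dd k p' = Θ p' - κ • pb H.val θ p'

variable [MeasurableSpace Y] [BorelSpace Y]

/-- `Div.exists_resf` with `K = C ∩ tsupport χ`, `ψ = θ * E`, `θ * c`, `θ * Ω` (`comm_even`,
`dd_mul`; `Ω` is smooth off `S` because it agrees with `L * E + c` there, `WF_ne_ev`). On the
hypersurface `pb val (χ • (θ * E)) = pb val θ * pb val E` and
`Θ * pb val E = κ • (pb val θ * pb val E) + dd (k * pb val E)` at every point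
(`WF_res_closed`; off the compact set `val ⁻¹' C` of `WF_cpt` everything vanishes nearby);
`stokes`, `itg_add`, `intg_of_sm`. -/
theorem WF_tube (H : Div n Y) : ∃ κ₁ : ℂ, κ₁ ≠ 0 ∧ ∀ (U C : Set Y) (χ : Y → ℂ)
    (θ : Fm (n + 1) Y) (Θ k : Fm n H.T) (κ : ℂ), WFT H U C χ θ Θ k κ →
    ∀ E c Ω : Fm (n + 1) Y, Sm 1 E U → Sm 1 c U → (∀ y ∉ C, E y = 0 ∧ c y = 0 ∧ Ω y = 0) →
    (∀ y ∈ U, H.σ y ≠ 0 → Ω y = H.L y * E y + c y ∧ dd Ω y = 0) →
    κ * itg (dd (fn (n + 1) χ) * (θ * Ω)) = κ₁ * itg (Θ * pb H.val E) := by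
  obtain ⟨κ₁, hκ₁, hres⟩ := H.exists_resf
  refine ⟨κ₁, hκ₁, fun U C χ θ Θ k κ h E c Ω hE hc h0 h1 => ?_⟩
  have hθ := h.θcl.sm
  have hSC : H.S ∩ C ⊆ C ∩ tsupport χ := fun y hy => ⟨hy.2, subset_tsupport χ fun e =>
    one_ne_zero ((h.one y hy).self_of_nhds.symm.trans e)⟩
  have hT := (WF_cpt H h.cl h.cpt (h.inU.trans h.sub) hSC).2
  have hTU : ∀ p ∈ H.val ⁻¹' C, H.val p ∈ U := fun p hp => h.inU (hSC ⟨H.val_mem p, hp⟩)
  have e1 := hres U (C ∩ tsupport χ) χ (θ * E) (θ * c) (θ * Ω) h.op h.sub h.cpt h.inU h.sm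
    (fun y hy => (hθ y hy).mul_left (hE y hy)) (fun y hy => (hθ y hy).mul_left (hc y hy))
    (fun y hy => by
      simp only [Pi.mul_apply]
      by_cases hyC : y ∈ C
      · have hy' : y ∉ tsupport χ := fun e => hy ⟨hyC, e⟩
        have e0 : dd (fn (n + 1) χ) y = 0 :=
          RESF_dd0 ((notMem_tsupport_iff_eventuallyEq.1 hy').mono fun z hz => by
            rw [fn, hz, Pi.zero_apply, map_zero])
        rw [image_eq_zero_of_notMem_tsupport hy', e0, zero_smul, zero_smul, zero_mul]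
        exact ⟨rfl, rfl, rfl⟩
      · rw [(h0 y hyC).1, (h0 y hyC).2.1, (h0 y hyC).2.2, mul_zero, smul_zero, mul_zero]
        exact ⟨rfl, rfl, rfl⟩)
    (fun y hy hσ => by
      have hΩ : SmAt 1 Ω y := by
        refine (((H.L_sm (h.sub hy) hσ).mul_left (hE y hy)).add (hc y hy)).congr ?_
        filter_upwards [h.op.mem_nhds hy, WF_ne_ev H (h.sub hy) hσ] with z h2 h3
        exact (h1 z h2 h3.2).1.symm
      have hd : θ y ∈ Dg (n + 1) (2 * 1) := h.θcl.dg y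
      refine ⟨?_, ?_⟩
      · simp only [Pi.mul_apply, Pi.add_apply]
        rw [(h1 y hy hσ).1, mul_add, ← mul_assoc, comm_even (k := 1) hd (H.L y), mul_assoc]
      · rw [dd_mul (hθ y hy) hΩ, h.θcl.cl y hy, (h1 y hy hσ).2, zero_mul, mul_zero, add_zero])
  have hF0 : ∀ p ∉ H.val ⁻¹' C, pb H.val E p = 0 := fun p hp => by
    rw [pb, (h0 _ hp).1, map_zero]
  have hpb : ∀ α : Fm (n + 1) Y, Sm 1 α U → Sm 1 (pb H.val α) (H.val ⁻¹' C) := fun α hα p hp => by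
    have := (hα _ (hTU p hp)).pb (H.emb.hm p)
    rwa [gpb_one] at this
  have e2 : pb H.val (χ • (θ * E)) = pb H.val θ * pb H.val E := by
    rw [pb_fsmul, pb_mul]
    funext p
    rw [Pi.smul_apply', Function.comp_apply]
    by_cases hp : p ∈ H.val ⁻¹' C
    · rw [(h.one _ ⟨H.val_mem p, hp⟩).self_of_nhds, one_smul]
    · rw [Pi.mul_apply, hF0 p hp, mul_zero, smul_zero]
  have hz : ∀ α : Fm n H.T, ∀ p ∉ H.val ⁻¹' C, (α * pb H.val E) p = 0 := fun α p hp => by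
    rw [Pi.mul_apply, hF0 p hp, mul_zero]
  have sB : Sm 1 (k * pb H.val E) (H.val ⁻¹' C) := fun p hp =>
    (h.taut p hp).self_of_nhds.1.mul_left (hpb E hE p hp)
  have tB := RESF_ts hT (hz k)
  have iA : Intg (pb H.val θ * pb H.val E) := INT2_intg hT Subset.rfl
    (fun p hp => (hpb θ hθ p hp).mul_left (hpb E hE p hp)) (RESF_ts hT (hz _))
  have iB : Intg (dd (k * pb H.val E)) :=
    INT2_intg hT Subset.rfl (fun p hp => (sB p hp).dd) (tsupport_dd.trans tB)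
  have e3 : Θ * pb H.val E = κ • (pb H.val θ * pb H.val E) + dd (k * pb H.val E) := by
    funext p
    rw [Pi.add_apply, Pi.smul_apply]
    by_cases hp : p ∈ H.val ⁻¹' C
    · rw [dd_mul (h.taut p hp).self_of_nhds.1 (hpb E hE p hp), (h.taut p hp).self_of_nhds.2,
        WF_res_closed H h.op h.sub hE hc h1 p (hTU p hp), mul_zero, add_zero, Pi.mul_apply,
        Pi.mul_apply, sub_mul, smul_mul_assoc, add_sub_cancel]
    · rw [hz _ p hp, hz _ p hp, RESF_dd0 (RESF_ev hT (hz k) hp), smul_zero, add_zero]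
  rw [e1, e2, e3, itg_add (iA.smul κ) iB, itg_smul,
    stokes (fun p _ => SmAt.of_tsupport' sB tB) (HasCompactSupport.intro hT (hz k)), add_zero,
    mul_left_comm]

end

end Pool.Agent.MP_1c689d_ag.K0

end

section

/-! The weak formula for a logarithmic form. -/

set_option autoImplicit false

open Complex Filter Topology Set MeasureTheory MvPolynomial
open scoped ComplexConjugate ContDiff ENNReal

namespace Pool.Agent.MP_1c689d_ag.K0

noncomputable section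

variable {n : ℕ} {Y : Type} [TopologicalSpace Y] [Mf (n + 1) Y] [MeasurableSpace Y] [BorelSpace Y]

omit [MeasurableSpace Y] [BorelSpace Y] in
theorem WFMl_dchi {χ : Y → ℂ} {y : Y} (h : y ∉ tsupport χ) : dd (fn (n + 1) χ) y = 0 := by
  rw [dd_congr (β := 0), dd_zero, Pi.zero_apply]
  filter_upwards [notMem_tsupport_iff_eventuallyEq.1 h] with y' hy'
  rw [fn, hy', Pi.zero_apply, map_zero, Pi.zero_apply]

omit [Mf (n + 1) Y] [MeasurableSpace Y] [BorelSpace Y] in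
theorem WFMl_ev {C : Set Y} (hC : IsClosed C) {ψ : Fm (n + 1) Y} (h : ∀ y ∉ C, ψ y = 0)
    (Φ : Fm (n + 1) Y) {y : Y} (hy : y ∉ C) : ∀ᶠ y' in 𝓝 y, (ψ * Φ) y' = 0 := by
  filter_upwards [hC.isOpen_compl.mem_nhds hy] with y' hy'
  rw [Pi.mul_apply, h y' hy', zero_mul]

omit [MeasurableSpace Y] [BorelSpace Y] in
theorem WFMl_sm {H : Div n Y} {U C : Set Y} (hU : U ⊆ H.O) (hC : IsClosed C)
    {ψ Φ : Fm (n + 1) Y} (hψ : Sm 1 ψ univ) (h : ∀ y ∉ C, ψ y = 0)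
    (hΦ : ∀ y ∈ U, H.σ y ≠ 0 → SmAt 1 Φ y) : Sm 1 (ψ * Φ) (U \ (H.S ∩ C)) := by
  intro y hy
  by_cases h0 : H.σ y = 0
  · exact smAt_of_eventually_zero (WFMl_ev hC h Φ fun hc => hy.2 ⟨⟨hU hy.1, h0⟩, hc⟩)
  · exact (hψ y trivial).mul_left (hΦ y hy.1 h0)

theorem WFMl_T {H : Div n Y} {U : Set Y} (hU : IsOpen U) (hO : U ⊆ H.O)
    {A η c0 T : Fm (n + 1) Y} (hA : Sm H.G A H.O) (hη : Sm 1 η univ) (hη0 : dd η = 0)
    (hc : Sm 1 c0 univ) (hc0 : ∀ y ∈ U, dd c0 y = -(cur H.G y * η y))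
    (hT : ∀ y ∈ U, H.σ y ≠ 0 → dd (fun y => (H.σ y)⁻¹ • A y) y = T y + H.L y * η y + c0 y)
    {y : Y} (hy : y ∈ U) (h0 : H.σ y ≠ 0) : SmAt 1 T y ∧ dd T y = 0 := by
  have h1 := (WF_dd_div H (hO hy) h0 (hA y (hO hy))).1
  have h2 := H.L_sm (hO hy) h0
  have h3 := h2.mul_left (hη y trivial)
  have e : (dd (fun y => (H.σ y)⁻¹ • A y) - H.L * η - c0) =ᶠ[𝓝 y] T := by
    filter_upwards [hU.mem_nhds hy, WF_ne_ev H (hO hy) h0] with y' h h'
    rw [Pi.sub_apply, Pi.sub_apply, Pi.mul_apply, hT y' h h'.2]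
    abel
  refine ⟨((h1.dd.sub h3).sub (hc y trivial)).congr e, ?_⟩
  rw [← dd_congr e, dd_sub (h1.dd.sub h3) (hc y trivial), dd_sub h1.dd h3, dd_dd h1,
    dd_mul h2 (hη y trivial), hη0, H.dd_L (hO hy) h0, hc0 y hy, Pi.zero_apply, mul_zero]
  abel

/-- Put `Π = fun y => σ⁻¹ • A` and `Ω = dd (ψ * Π) + ψ * T`. Off `S` the form `T` agrees with
`dd Π - L * η - c0`, so it is smooth and closed (`WF_dd_div`, `WF_ne_ev`, `dd_dd`, `Div.dd_L`), and
`Ω` is closed and equals `u • σ⁻¹ • (w * A) + L * (ψ * η) - ψ * c0`. `WF_divs` for `w * A` (type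
`(n + 1, 1)`, `WF_cpt`) gives `E₁`, `c₁`; apply `WF_tube` with `E = E₁ + ψ * η`,
`c = c₁ - ψ * c0`; `Θ * pb val E₁ = 0` by type (`pb_Tp`, `Tp_mul`, `Tp_eq_bot`). Finally
`itg_dchi_exact` with `Γ = θ * (ψ * Π)`, `Z = S ∩ C`, `K = C ∩ tsupport χ` shows that
`dd χ * (θ * dd (ψ * Π))` has integral zero; `sm_dchi_mul` gives the integrability needed for
`itg_add`. -/
theorem WF_ml {H : Div n Y} {U C : Set Y} {χ : Y → ℂ} {θ : Fm (n + 1) Y} {Θ k : Fm n H.T} {κ : ℂ}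
    (h : WFT H U C χ θ Θ k κ) (hκ : κ ≠ 0) (hΘ : Ty 1 1 Θ) {ψ w A η c0 T : Fm (n + 1) Y}
    {u : Y → ℂ} (hψ : Sm 1 ψ univ) (hψ1 : Dgr 1 ψ) (hC : ∀ y ∉ C, ψ y = 0 ∧ u y = 0)
    (hu : Sm 1 (fn (n + 1) u) univ) (hw : Sm 1 w univ) (hwt : Ty 1 1 w) (hd : dd ψ = u • w)
    (hA : Sm H.G A H.O) (hAt : Ty n 0 A) (hη : Sm 1 η univ) (hη0 : dd η = 0)
    (hc : Sm 1 c0 univ) (hc0 : ∀ y ∈ U, dd c0 y = -(cur H.G y * η y))
    (hT : ∀ y ∈ U, H.σ y ≠ 0 → dd (fun y => (H.σ y)⁻¹ • A y) y = T y + H.L y * η y + c0 y)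
    (hwT : ∀ y, w y * T y = 0) (h0 : itg (Θ * pb H.val (ψ * η)) = 0) :
    itg (dd (fn (n + 1) χ) * (θ * (ψ * T))) = 0 := by
  have hψ0 : ∀ y ∉ C, ψ y = 0 := fun y hy => (hC y hy).1
  have hK : IsCompact (H.S ∩ C) := (WF_cpt H h.cl h.cpt (h.inU.trans h.sub) fun y hy =>
    ⟨hy.2, subset_tsupport _ (by
      rw [Function.mem_support, (h.one y hy).self_of_nhds]
      exact one_ne_zero)⟩).1
  set Pm : Fm (n + 1) Y := fun y => (H.σ y)⁻¹ • A y with hPm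
  have hP : ∀ y ∈ U, H.σ y ≠ 0 → SmAt 1 Pm y := fun y hy h0 =>
    (WF_dd_div H (h.sub hy) h0 (hA y (h.sub hy))).1
  have hT' := fun y (hy : y ∈ U) (h0 : H.σ y ≠ 0) =>
    WFMl_T h.op h.sub hA hη hη0 hc hc0 hT hy h0
  have hg : ∀ y, gi (ψ y) = -ψ y := fun y => by rw [gi_of_Dg (hψ1 y), pow_one, neg_one_smul]
  obtain ⟨E₁, c₁, s1, t1, s2, z1, e1⟩ := WF_divs H h.cl hK (A := w * A) (q := 1)
    (fun y hy => (hw y trivial).mul_left (hA y hy))
    (fun y => by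
      have h1 := Tp_mul (hwt y) (hAt y)
      rwa [add_comm 1 n, add_zero] at h1) hu fun y hy => (hC y hy).2
  obtain ⟨κ₁, -, hκ₁⟩ := WF_tube H
  have h1 := hκ₁ U C χ θ Θ k κ h (E₁ + ψ * η) (c₁ - ψ * c0) (dd (ψ * Pm) + ψ * T)
    (fun y _ => (s1 y trivial).add ((hψ y trivial).mul_left (hη y trivial)))
    (fun y hy => (s2 y (h.sub hy)).sub ((hψ y trivial).mul_left (hc y trivial)))
    (fun y hy => by
      simp only [Pi.add_apply, Pi.sub_apply, Pi.mul_apply, (z1 y hy).1, (z1 y hy).2, hψ0 y hy,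
        RESF_dd0 (WFMl_ev h.cl hψ0 Pm hy), zero_mul, add_zero, sub_zero, and_self])
    (fun y hy h0 => by
      have a1 := hψ y trivial
      have a2 := a1.mul_left (hP y hy h0)
      constructor
      · have a3 := e1 y (h.sub hy) h0
        have a4 : H.L y * ψ y = -(ψ y * H.L y) := by
          rw [comm_one (Tp_le_Dg (p := 1) (q := 0) (H.PL_Ty y)) (ψ y), hg, neg_mul]
        simp only [Pi.add_apply, Pi.sub_apply, Pi.mul_apply] at a3 ⊢
        rw [dd_mul a1 (hP y hy h0), hT y hy h0, hg, hd, Pi.smul_apply', mul_add (H.L y),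
          ← mul_assoc (H.L y), a4, hPm, smul_mul_assoc, mul_smul_comm, a3]
        noncomm_ring
      · rw [dd_add a2.dd (a1.mul_left (hT' y hy h0).1), dd_dd a2, dd_mul a1 (hT' y hy h0).1,
          (hT' y hy h0).2, hd, Pi.smul_apply', smul_mul_assoc, hwT, smul_zero, mul_zero,
          add_zero, add_zero])
  have h2 : Θ * pb H.val (E₁ + ψ * η) = Θ * pb H.val (ψ * η) := by
    funext p
    have a1 := Tp_mul (hΘ p) (pb_Tp (H.emb.hm p) (t1 _))
    rw [Tp_eq_bot (Or.inl (by omega)), Submodule.mem_bot] at a1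
    rw [pb_add, mul_add, Pi.add_apply, Pi.mul_apply, a1, zero_add]
  rw [h2, h0, mul_zero] at h1
  have h3 := (mul_eq_zero.1 h1).resolve_left hκ
  have hone : ∀ y ∈ (H.S ∩ C) ∩ (C ∩ tsupport χ), ∀ᶠ y' in 𝓝 y, χ y' = 1 :=
    fun y hy => h.one y hy.1
  have hs : ∀ Φ : Fm (n + 1) Y, (∀ y ∈ U, H.σ y ≠ 0 → SmAt 1 Φ y) →
      Sm 1 (θ * (ψ * Φ)) (U \ (H.S ∩ C)) := fun Φ hΦ y hy =>
    (h.θcl.sm y hy.1).mul_left (WFMl_sm h.sub h.cl hψ hψ0 hΦ y hy)
  have hz : ∀ Φ : Fm (n + 1) Y, (∀ y ∉ C, Φ y = 0) →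
      ∀ y ∉ C ∩ tsupport χ, (dd (fn (n + 1) χ) * Φ) y = 0 := fun Φ hΦ y hy => by
    by_cases hy' : y ∈ C
    · rw [Pi.mul_apply, WFMl_dchi fun h' => hy ⟨hy', h'⟩, zero_mul]
    · rw [Pi.mul_apply, hΦ y hy', mul_zero]
  have hz1 : ∀ Φ : Fm (n + 1) Y, ∀ y ∉ C, (θ * (ψ * Φ)) y = 0 := fun Φ y hy => by
    rw [Pi.mul_apply, Pi.mul_apply, hψ0 y hy, zero_mul, mul_zero]
  have hz2 : ∀ y ∉ C, dd (θ * (ψ * Pm)) y = 0 := fun y hy => RESF_dd0 (by
    filter_upwards [h.cl.isOpen_compl.mem_nhds hy] with y' hy' using hz1 Pm y' hy')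
  have h4 := itg_dchi_exact h.op h.cpt h.inU hK.isClosed h.sm (hs Pm hP) hone (hz _ (hz1 Pm))
  have i1 := (sm_dchi_mul h.op h.cpt h.inU hK.isClosed h.sm (fun y hy => (hs Pm hP y hy).dd) hone
    (hz _ hz2)).2
  have i2 := (sm_dchi_mul h.op h.cpt h.inU hK.isClosed h.sm (hs T fun y hy h0 => (hT' y hy h0).1)
    hone (hz _ (hz1 T))).2
  have e : dd (fn (n + 1) χ) * (θ * (dd (ψ * Pm) + ψ * T)) =
      dd (fn (n + 1) χ) * dd (θ * (ψ * Pm)) + dd (fn (n + 1) χ) * (θ * (ψ * T)) := by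
    rw [mul_add, mul_add]
    congr 1
    funext y
    by_cases hy : y ∈ C ∩ tsupport χ
    · by_cases hy' : y ∈ H.S ∩ C
      · rw [Pi.mul_apply, Pi.mul_apply (dd (fn (n + 1) χ)), (RESF_one (h.one y hy')).self_of_nhds,
          zero_mul, zero_mul]
      · rw [Pi.mul_apply, Pi.mul_apply (dd (fn (n + 1) χ)), dd_mul (h.θcl.sm y (h.inU hy))
          (WFMl_sm h.sub h.cl hψ hψ0 hP y ⟨h.inU hy, hy'⟩), h.θcl.cl y (h.inU hy), zero_mul,
          zero_add, gi_of_Dg (h.θcl.dg y), Pi.mul_apply, neg_one_sq, one_smul]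
    · rw [hz _ hz2 y hy, hz _ (fun y hy => ?_) y hy]
      rw [Pi.mul_apply, RESF_dd0 (WFMl_ev h.cl hψ0 Pm hy), mul_zero]
  rwa [e, itg_add i1 i2, h4, zero_add] at h3

end

end Pool.Agent.MP_1c689d_ag.K0

end

section

/-! A neighbourhood of the central fibre. -/

set_option autoImplicit false

open Complex Filter Topology Set MeasureTheory MvPolynomial
open scoped ComplexConjugate ContDiff ENNReal

namespace Pool.Agent.MP_1c689d_ag.K0

noncomputable section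

variable {m c r : ℕ} {B X : Type} [TopologicalSpace B] [Mf 1 B] [TopologicalSpace X] [Mf 3 X]
  {Q : PD m 4 c r} {Pts : Finset (Fin 4 → ℂ)} {x : X → Fin m → ℂ} {D : Crv B} {ν μ a a' : ℕ}
  {σ : B → P m} {f : B → Fin a → Fin a' → P m}

/-- `dd_of_hol`, `Ty.dp`, `fn_Ty`, `HolAt.smAt`, `SmAt.dd`, `dd_dd`. -/
theorem WF_ds (D : Crv B) : Sm 1 (dd (fn 1 D.s)) univ ∧ Ty 1 0 (dd (fn 1 D.s)) ∧
    dd (dd (fn 1 D.s)) = 0 := by
  have hs : ∀ b, SmAt 1 (fn 1 D.s) b := fun b => (D.hol _ D.s_mem b).smAt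
  refine ⟨fun b _ => (hs b).dd, fun b => ?_, funext fun b => dd_dd (hs b)⟩
  rw [dd_of_hol (D.hol _ D.s_mem b)]
  exact (fn_Ty D.s).dp b

/-- `dd (φ • cf γ)` and `γ * cf γ` lie in `Dg 1 2 = Tp 1 1 1` (`Dg_top`, `eq_top_smul`); take the
quotient of the top coefficients (`pos_n0'`, `SmAt.top_div`, `tsupport_dd`). -/
theorem WF_test {γ : Fm 1 B} (hγ : Sm 1 γ univ) (ht : Ty 1 0 γ) (h0 : ∀ b, γ b ≠ 0) {φ : B → ℂ}
    (hφ : Sm 1 (fn 1 φ) univ) : ∃ u : B → ℂ, Sm 1 (fn 1 u) univ ∧ (∀ b ∉ tsupport φ, u b = 0) ∧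
      dd (φ • cf γ) = u • (γ * cf γ) := by
  have h1 : ∀ b, (γ * cf γ) b ∈ Tp 1 1 1 := fun b =>
    Tp_mul (p := 1) (q := 0) (p' := 0) (q' := 1) (ht b) (cj_Tp (ht b))
  have h2 : ∀ b, top ((γ * cf γ) b) ≠ 0 := fun b h => by
    obtain ⟨t, ht0, e⟩ := pos_n0' (ht b) (h0 b)
    have h' : top (γ b * cj (γ b)) = 0 := h
    rw [h', mul_zero] at e
    exact ht0.ne (ofReal_eq_zero.1 e.symm).symm
  have h3 : Dgr 1 (φ • cf γ) := fun b =>
    Submodule.smul_mem _ _ (Tp_le_Dg (p := 0) (q := 1) (cj_Tp (ht b)))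
  have h4 : ∀ b, dd (φ • cf γ) b ∈ Tp 1 1 1 := fun b => by
    rw [← Dg_top]
    exact h3.dd b
  have h5 : ∀ b, SmAt 1 (φ • cf γ) b := fun b =>
    (hφ b (mem_univ _)).fsmul_one (hγ b (mem_univ _)).cf_one
  refine ⟨fun b => top (dd (φ • cf γ) b) / top ((γ * cf γ) b), fun b _ =>
    (h5 b).dd.top_div ((hγ b (mem_univ _)).mul_left (hγ b (mem_univ _)).cf_one) (h2 b),
    fun b hb => ?_, funext fun b => ?_⟩
  · have h6 : (φ • cf γ) =ᶠ[𝓝 b] 0 := (notMem_tsupport_iff_eventuallyEq.1 hb).mono fun y hy => by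
      rw [Pi.smul_apply', hy, Pi.zero_apply, zero_smul, Pi.zero_apply]
    show top (dd (φ • cf γ) b) / _ = 0
    rw [dd_congr h6, dd_zero, Pi.zero_apply, map_zero, zero_div]
  · rw [Pi.smul_apply']
    calc _ = top (dd (φ • cf γ) b) • vol 1 := eq_top_smul (h4 b)
      _ = (top (dd (φ • cf γ) b) / top ((γ * cf γ) b)) • top ((γ * cf γ) b) • vol 1 := by
        rw [smul_smul, div_mul_cancel₀ _ (h2 b)]
      _ = _ := congrArg _ (eq_top_smul (h1 b)).symm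

/-- A neighbourhood of the fibre over `b0` contains the fibres over a neighbourhood of `b0`:
`B` is locally compact (charted space), take a compact neighbourhood `K`; the image of the compact
set `pB ⁻¹' K \ V` (`Fam.proper`, `V` open) is closed and misses `b0`. -/
theorem WF_proper (hF : FD Q Pts x) (hA : Fam Q Pts D ν μ σ f) {b0 : B} {V : Set (hA.dv hF).T}
    (hV : V ∈ 𝓝ˢ (hA.pB hF ⁻¹' {b0})) : ∃ W, IsOpen W ∧ b0 ∈ W ∧ hA.pB hF ⁻¹' W ⊆ V := by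
  obtain ⟨V', ho, hs, hV'⟩ := mem_nhdsSet_iff_exists.1 hV
  obtain ⟨K, hK, hK0⟩ := exists_compact_mem_nhds b0
  have hc : Continuous (hA.pB hF) :=
    continuous_iff_continuousAt.2 fun p => (Fam.hmap_pB hF hA p).continuousAt
  have h1 := (((Fam.proper hF hA hK).diff ho).image hc).isClosed
  refine ⟨interior K \ hA.pB hF '' (hA.pB hF ⁻¹' K \ V'), isOpen_interior.sdiff h1,
    ⟨mem_interior_iff_mem_nhds.2 hK0, ?_⟩, fun p hp => hV' ?_⟩
  · rintro ⟨p, hp, e⟩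
    exact hp.2 (hs e)
  · by_contra h
    exact hp.2 ⟨p, ⟨interior_subset (s := K) hp.1, h⟩, rfl⟩

/-- `taut_two` for the inclusion `i` of `Fam.exists_fibre` (`Div.compactSpace`, `dvs_compact`),
the open set `pX ⁻¹' U` and the form `Θ - κ • pb pX θ` (`Fam.Θ_cl`, `pb_dd`, `pb_comp`); points
where `χ = 1` lie in `tsupport χ`. Then `WF_proper`; a pair `(b, y)` with `σ b (x y) = 0` is a point
of the total space (`Fam.mem_S`, `Div.range_val`). -/
theorem WF_nb (hF : FD Q Pts x) (hA : Fam Q Pts D ν μ σ f) {b0 : B} {U : Set X} {χ : X → ℂ}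
    {θ : Fm 3 X} (hT : Tb 3 U χ {p | ev x (σ b0) p = 0}) (hθ : Cl 2 θ U) {κ : ℂ}
    (hex : Ex 1 (Tt (x ∘ (dvs hF (hA.good b0)).val) μ (fun _ => f b0) -
      κ • pb (dvs hF (hA.good b0)).val θ)) :
    ∃ (W : Set B) (k : Fm 3 (hA.dv hF).T), IsOpen W ∧ b0 ∈ W ∧
      (∀ b ∈ W, ∀ y, ev x (σ b) y = 0 → ∀ᶠ y' in 𝓝 y, χ y' = 1) ∧
      ∀ p, hA.pB hF p ∈ W → SmAt 1 k p ∧ dd k p = hA.Θ hF p - κ • pb (hA.pX hF) θ p := by
  obtain ⟨i, hi, hx, -, hr, hΘ⟩ := Fam.exists_fibre hF hA b0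
  have : CompactSpace (dvs hF (hA.good b0)).T :=
    (dvs hF (hA.good b0)).compactSpace (dvs_compact hF (hA.good b0))
  have hc : Continuous (hA.pX hF) :=
    continuous_iff_continuousAt.2 fun p => (Fam.hmap_pX hF hA p).continuousAt
  have h1 : ∀ p ∈ range i, ∀ᶠ y in 𝓝 (hA.pX hF p), χ y = 1 := fun p hp => by
    refine eventually_nhdsSet_iff_forall.1 hT.one _ ?_
    have h := (Fam.pX_mem hF hA p).2
    rw [hr] at hp
    rwa [show hA.pB hF p = b0 from hp] at h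
  have h2 : range i ⊆ hA.pX hF ⁻¹' U := fun p hp => hT.supp (subset_tsupport _ (by
    rw [Function.mem_support, (h1 p hp).self_of_nhds]
    exact one_ne_zero))
  have h3 : ∀ p ∈ hA.pX hF ⁻¹' U, SmAt 1 (pb (hA.pX hF) θ) p := fun p hp => by
    have h := (hθ.sm _ hp).pb (Fam.hmap_pX hF hA p)
    rwa [gpb_one] at h
  have hΘ' := (Fam.Θ_cl hF hA).1
  have h4 : Cl (1 + 1) (hA.Θ hF - κ • pb (hA.pX hF) θ) (hA.pX hF ⁻¹' U) := by
    refine ⟨fun p hp => (hΘ'.sm p (mem_univ _)).sub ((h3 p hp).smul κ), fun p =>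
      Submodule.sub_mem _ (hΘ'.dg p) (Submodule.smul_mem _ _ (pb_Dg (hθ.dg _))), fun p hp => ?_⟩
    rw [dd_sub (hΘ'.sm p (mem_univ _)) ((h3 p hp).smul κ), hΘ'.cl p (mem_univ _), dd_smul,
      Pi.smul_apply, ← pb_dd (Fam.hmap_pX hF hA p) (hθ.sm _ hp), pb, hθ.cl _ hp, map_zero,
      smul_zero, sub_zero]
  have h5 : pb i (pb (hA.pX hF) θ) = pb (dvs hF (hA.good b0)).val θ := funext fun p => by
    rw [pb_comp (Fam.hmap_pX hF hA _) (hi.hm p), hx]
  obtain ⟨k, -, hk⟩ := taut_two hi (hT.op.preimage hc) h2 h4 (by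
    rw [pb_sub, pb_smul, hΘ, h5]
    exact hex)
  have h6 : ∀ᶠ p in 𝓝ˢ (range i), ∀ᶠ y in 𝓝 (hA.pX hF p), χ y = 1 :=
    eventually_nhdsSet_iff_forall.2 fun p hp =>
      hc.continuousAt.eventually (h1 p hp).eventually_nhds
  have h7 := hk.and h6
  rw [hr] at h7
  obtain ⟨W, hW, hb, hs⟩ := WF_proper hF hA h7
  refine ⟨W, k, hW, hb, fun b hbW y hy => ?_, fun p hp => (hs hp).1⟩
  exact (hs (a := ⟨PX.mk b y, (Fam.mem_S hF hA _).2 hy⟩) hbW).2

end

end Pool.Agent.MP_1c689d_ag.K0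

end

section

/-! Fibre integrals. -/

set_option autoImplicit false

open Complex Filter Topology Set MeasureTheory MvPolynomial
open scoped ComplexConjugate ContDiff ENNReal

namespace Pool.Agent.MP_1c689d_ag.K0

noncomputable section

variable {n : ℕ} {B X : Type} [TopologicalSpace B] [TopologicalSpace X] [Mf 1 B] [Mf n X]
  [CompactSpace X]

/-- A smooth volume form. -/
theorem WF_exists_vol : ∃ v : Fm n X, Sm 1 v univ ∧ ∀ y, top (v y) ≠ 0 := by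
  obtain ⟨S, ρ, hb, hs, -, -, h1⟩ := exists_pou (n := n) isCompact_univ
    (fun i : X => (ch n i).source) (fun i => (ch n i).open_source)
    (fun y _ => mem_iUnion.2 ⟨y, mem_chart_source (E n) y⟩)
  refine ⟨∑ i ∈ S, ρ i • pb (ch n i) (fun _ => vol n), fun p _ => SmAt.sum fun i _ => ?_,
    fun y h0 => ?_⟩
  · refine SmAt.of_tsupport (O := (ch n i).source) (fun q hq => ?_) ((hb i).sm p trivial) (hs i)
    exact MF2b_pb ((isCh_ch i).1 q hq) (smAt_E.2 (Eventually.of_forall fun _ => contDiffAt_const))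
  · choose t ht0 _ ht using fun i => (hb i).mem y
    have hpos : ∀ i, t i ≠ 0 → 0 < (df (ch n i) y).det := by
      intro i hi
      have hy : y ∈ (ch n i).source :=
        hs i (subset_tsupport _ (by rw [Function.mem_support, ht]; exact_mod_cast hi))
      exact lt_of_le_of_ne (INT1a_det_nonneg ((isCh_ch i).1 y hy))
        (INT1a_det_ne (u := (ch n i).symm) ((isCh_ch i).2 _ ((ch n i).map_source hy))
          ((isCh_ch i).1 y hy) ((ch n i).eventually_left_inverse hy)).2.symm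
    have e : top ((∑ i ∈ S, ρ i • pb (ch n i) (fun _ => vol n)) y) =
        ((∑ i ∈ S, t i * (df (ch n i) y).det : ℝ) : ℂ) := by
      rw [Finset.sum_apply, map_sum, ofReal_sum]
      refine Finset.sum_congr rfl fun i _ => ?_
      rw [Pi.smul_apply', map_smul, pb, top_lm, top_vol, ht, mul_one, smul_eq_mul, ofReal_mul]
    rw [e, ofReal_eq_zero, Finset.sum_eq_zero_iff_of_nonneg fun i _ => ?_] at h0
    · have h2 := h1.self_of_nhdsSet y trivial
      rw [Finset.sum_eq_zero] at h2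
      · exact zero_ne_one h2
      · intro i hi
        by_contra hne
        rw [ht, ofReal_eq_zero] at hne
        exact (mul_pos (lt_of_le_of_ne (ht0 i) (Ne.symm hne)) (hpos i hne)).ne' (h0 i hi)
    · rcases eq_or_ne (t i) 0 with h | h
      · rw [h, zero_mul]
      · exact mul_nonneg (ht0 i) (hpos i h).le

variable [MeasurableSpace X] [BorelSpace X]

/-- Continuity of the fibre integral. -/
theorem WF_fib_cont {β : Fm 1 B} (hβ : Sm 1 β univ) (hd : Dgr 2 β) (h0 : ∀ b, top (β b) ≠ 0)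
    {Γ : Fm (n + 1) (PX B X)} {b0 : B} (h : ∀ y, SmAt 1 Γ (PX.mk b0 y)) :
    ContinuousAt (fun b => itg (pb (PX.mk b) Γ)) b0 := by
  obtain ⟨v, hv, hv0⟩ := WF_exists_vol (n := n) (X := X)
  obtain ⟨u, hu⟩ : ∃ u : PX B X → ℂ, u = fun z =>
      top ((pb (PX.fst : PX B X → B) β * Γ : Fm (n + 1) (PX B X)) z) /
        top ((pb (PX.fst : PX B X → B) β * pb PX.snd v : Fm (n + 1) (PX B X)) z) := ⟨_, rfl⟩
  have key : ∀ (b : B) (y : X),
      top ((pb (PX.fst : PX B X → B) β * pb PX.snd v : Fm (n + 1) (PX B X)) (PX.mk b y)) ≠ 0 ∧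
      top (pb (PX.mk b) Γ y) = u (PX.mk b y) * top (v y) := by
    intro b y
    obtain ⟨t, ht, h1⟩ := PRD_two (n := n) hd (PX.mk b y)
    have ht' : (t : ℂ) ≠ 0 := ofReal_ne_zero.2 ht.ne'
    have e1 : top ((pb (PX.fst : PX B X → B) β * Γ : Fm (n + 1) (PX B X)) (PX.mk b y)) =
        t * (top (β b) * top (pb (PX.mk b) Γ y)) := by
      rw [pb]
      exact h1 _
    have e2 : top ((pb (PX.fst : PX B X → B) β * pb PX.snd v : Fm (n + 1) (PX B X))
        (PX.mk b y)) = t * (top (β b) * top (v y)) := by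
      conv_rhs => rw [← PX.pb_slice_snd b v, pb]
      exact h1 _
    have h2 := h0 b
    have h3 := hv0 y
    refine ⟨by rw [e2]; exact mul_ne_zero ht' (mul_ne_zero h2 h3), ?_⟩
    rw [hu]
    simp only [e1, e2]
    field_simp
  have cont : ∀ z, SmAt 1 Γ z → ContinuousAt u z := by
    intro z hz
    have h1 : SmAt 1 (pb PX.fst β) z := MF2b_pb (PX.hmap_fst z) (hβ _ trivial)
    rw [hu]
    exact (SmAt.top_div (h1.mul_left hz) (h1.mul_left (MF2b_pb (PX.hmap_snd z) (hv _ trivial)))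
      (key z.fst z.snd).1).continuousAt
  have cs : ∀ b : B, (∀ y, SmAt 1 Γ (PX.mk b y)) → Continuous fun y => u (PX.mk b y) :=
    fun b hb => continuous_iff_continuousAt.2 fun y =>
      (cont _ (hb y)).comp (PX.hmap_slice b y).continuousAt
  obtain ⟨M, hM⟩ := isCompact_univ.exists_bound_of_continuousOn (cs b0 h).continuousOn
  have tube : ∀ᶠ b in 𝓝 b0, ∀ y ∈ (univ : Set X),
      SmAt 1 Γ (PX.mk b y) ∧ ‖u (PX.mk b y)‖ < M + 1 :=
    isCompact_univ.eventually_forall_of_forall_eventually fun y _ =>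
      (MF2b_ev (h y)).and ((cont _ (h y)).norm.eventually
        (gt_mem_nhds ((hM y trivial).trans_lt (lt_add_one M))))
  have e : (fun b => itg (pb (PX.mk b) Γ)) =
      fun b => ∫ y, u (PX.mk b y) * dens v y ∂mu n X := by
    funext b
    rw [itg_congr_top (β := (fun y => u (PX.mk b y)) • v) fun y => by
      rw [(key b y).2, Pi.smul_apply', map_smul, smul_eq_mul], itg, dens_fsmul]
    rfl
  have hi := intg_of_compact hv
  rw [e]
  refine continuousAt_of_dominated (bound := fun y => (M + 1) * ‖dens v y‖) ?_ ?_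
    (hi.norm.const_mul _) (Eventually.of_forall fun y => ?_)
  · filter_upwards [tube] with b hb
    exact (cs b fun y => (hb y trivial).1).aestronglyMeasurable.mul hi.1
  · filter_upwards [tube] with b hb
    refine Eventually.of_forall fun y => ?_
    rw [norm_mul]
    exact mul_le_mul_of_nonneg_right (hb y trivial).2.le (norm_nonneg _)
  · have hc : Continuous fun b : B => (PX.mk b y : PX B X) :=
      (continuous_id.prodMk continuous_const : Continuous fun b : B => (b, y))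
    exact (ContinuousAt.comp (f := fun b : B => (PX.mk b y : PX B X)) (cont _ (h y))
      hc.continuousAt).mul continuousAt_const

/-- The fibre integral vanishes if all tested integrals vanish. -/
theorem WF_fib {γ : Fm 1 B} (hγ : Sm 1 γ univ) (ht : Ty 1 0 γ) (h0 : ∀ b, γ b ≠ 0)
    {Γ : Fm (n + 1) (PX B X)} {W : Set B} (hW : IsOpen W) {b0 : B} (hb : b0 ∈ W)
    (hΓ : Sm 1 Γ (PX.fst ⁻¹' W)) (h : ∀ φ : B → ℂ, Tst φ → tsupport φ ⊆ W →
      itg (pb PX.fst (φ • (γ * cf γ)) * Γ) = 0) : itg (pb (PX.mk b0) Γ) = 0 := by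
  borelize B
  by_contra hne
  obtain ⟨F, hF⟩ : ∃ F : B → ℂ, F = fun b => itg (pb (PX.mk b) Γ) := ⟨_, rfl⟩
  have hs : Sm 1 (γ * cf γ) univ := fun p _ => (hγ p trivial).mul_left (hγ p trivial).cf_one
  have hd : Dgr 2 (γ * cf γ) := fun y =>
    Tp_le_Dg (p := 1) (q := 1) (Tp_mul (p := 1) (q := 0) (p' := 0) (q' := 1) (ht y) (cj_Tp (ht y)))
  choose t ht0 ht1 using fun b => pos_n0' (ht b) (h0 b)
  have ht2 : ∀ b, I * top ((γ * cf γ) b) = t b := fun b => by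
    rw [← ht1, one_pow, pow_one]
    rfl
  have hz : ∀ b, top ((γ * cf γ) b) ≠ 0 := fun b h1 => by
    have h2 := ht2 b
    rw [h1, mul_zero] at h2
    exact (ht0 b).ne (ofReal_inj.1 h2)
  have hc : ContinuousAt F b0 := hF ▸ WF_fib_cont hs hd hz fun y => hΓ _ hb
  have hp : 0 < (conj (F b0) * F b0).re := by
    rw [← normSq_eq_conj_mul_self, ofReal_re, normSq_pos, hF]
    exact hne
  have h1 : ∀ᶠ b in 𝓝 b0, b ∈ W ∧ 0 < (conj (F b0) * F b).re :=
    (hW.eventually_mem hb).and ((continuous_re.continuousAt.comp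
      (continuousAt_const.mul hc)).eventually (lt_mem_nhds hp))
  obtain ⟨U, hU, hUo, hbU⟩ := eventually_nhds_iff.1 h1
  obtain ⟨χ, hχ, hχs, hχ1⟩ := exists_cutoff (n := 1) isCompact_singleton hUo
    (singleton_subset_iff.2 hbU)
  have hχW : tsupport χ ⊆ W := fun b hb => (hU b (hχs hb)).1
  have hd' : Dgr 2 (χ • (γ * cf γ)) := fun y => Submodule.smul_mem _ _ (hd y)
  have e : pb PX.fst (χ • (γ * cf γ)) * Γ =
      (χ ∘ (PX.fst : PX B X → B)) • (pb (PX.fst : PX B X → B) (γ * cf γ) * Γ) := by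
    rw [pb_fsmul, smul_mul_assoc]
  have hi : Intg (pb PX.fst (χ • (γ * cf γ)) * Γ) := by
    rw [e]
    refine intg_of_sm (fun z _ => SmAt.of_tsupport (O := PX.fst ⁻¹' W) (fun z hz =>
      (MF2b_pb (PX.hmap_fst z) (hs _ trivial)).mul_left (hΓ z hz)) ?_ ?_) ?_
    · rw [← pb_fn]
      exact MF2b_pb (PX.hmap_fst z) (hχ.sm _ trivial)
    · exact (PX.continuous_fst.closure_preimage_subset (Function.support χ)).trans
        (preimage_mono hχW)
    · refine HasCompactSupport.intro (PX.isCompact_fst hχ.cs) fun z hz => ?_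
      rw [Pi.smul_apply', Function.comp_apply, image_eq_zero_of_notMem_tsupport hz, zero_smul]
  obtain ⟨f1, f2⟩ := PX.fubini hd' hi
  rw [h χ ⟨hχ.sm, hχ.cs⟩ hχW, ← hF] at f2
  rw [← hF] at f1
  choose r hr0 _ hr using hχ.mem
  have e2 : ∀ b, (top (((conj (F b0) * I) • F • χ • (γ * cf γ)) b)).re =
      r b * t b * (conj (F b0) * F b).re := by
    intro b
    rw [Pi.smul_apply, Pi.smul_apply', Pi.smul_apply', map_smul, map_smul, map_smul, hr,
      ← re_ofReal_mul, ofReal_mul, ← ht2]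
    simp only [smul_eq_mul]
    congr 1
    ring
  have h3 := INT1_freq (f1.smul (conj (F b0) * I)) (fun b => by
    rw [e2]
    rcases eq_or_ne (r b) 0 with h4 | h4
    · rw [h4, zero_mul, zero_mul]
    · refine mul_nonneg (mul_nonneg (hr0 b) (ht0 b).le) (hU b (hχs (subset_tsupport _ ?_))).2.le
      rw [Function.mem_support, hr]
      exact ofReal_ne_zero.2 h4) (by rw [itg_smul, ← f2, mul_zero, zero_re]) b0
  rw [nhdsSet_singleton] at hχ1
  obtain ⟨b, h4, h5, h6⟩ := (h3.and_eventually (hχ1.and h1)).exists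
  rw [hr, ofReal_eq_one] at h5
  rw [e2, h5, one_mul] at h4
  exact (mul_pos (ht0 b) h6.2).ne' h4

end

end Pool.Agent.MP_1c689d_ag.K0

end

section

/-! The weak formula on the total space. -/

set_option autoImplicit false

open Complex Filter Topology Set MeasureTheory MvPolynomial
open scoped ComplexConjugate ContDiff ENNReal

namespace Pool.Agent.MP_1c689d_ag.K0

noncomputable section

variable {m c r : ℕ} {B X : Type} [TopologicalSpace B] [Mf 1 B] [TopologicalSpace X] [Mf 3 X]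
  [MeasurableSpace X] [BorelSpace X] {Q : PD m 4 c r} {Pts : Finset (Fin 4 → ℂ)}
  {x : X → Fin m → ℂ} {D : Crv B} {ν μ a a' : ℕ} {σ : B → P m} {f : B → Fin a → Fin a' → P m}

section

variable {n l : ℕ} {Y Z : Type} [TopologicalSpace Y] [Mf n Y] [TopologicalSpace Z] [Mf l Z]

theorem WFKey_const {s : Y → ℂ} {t : ℂ} {p : Y} (h : ∀ᶠ y in 𝓝 p, s y = t) :
    ∀ᶠ y in 𝓝 p, dd (fn n s) y = 0 := by
  filter_upwards [h.eventually_nhds] with y hy
  rw [dd_congr (α := fn n s) (β := fn n fun _ => t)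
    (hy.mono fun y' h' => congrArg (algebraMap ℂ (Λ n)) h'), dd_const]
  rfl

theorem WFKey_sm {g : Z → Y} {z : Z} (hg : HMap g z) {α : Fm n Y} (h : SmAt 1 α (g z)) :
    SmAt 1 (pb g α) z := by
  have := h.pb hg
  rwa [gpb_one] at this

theorem WFKey_fn {g : Z → Y} {z : Z} (hg : HMap g z) {s : Y → ℂ} (h : SmAt 1 (fn n s) (g z)) :
    SmAt 1 (fn l (s ∘ g)) z := by
  have := WFKey_sm hg h
  rwa [pb_fn] at this

theorem WFKey_cl {g : Z → Y} {z : Z} (hg : HMap g z) {α : Fm n Y} (h : SmAt 1 α (g z))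
    (h0 : dd α (g z) = 0) : dd (pb g α) z = 0 := by
  rw [← pb_dd hg h, pb, h0, map_zero]

theorem WFKey_a1 {a b : Λ n} (ha : a ∈ Dg n 1) (hb : b ∈ Dg n 1) (w : Λ n) :
    a * b * (a * w) = 0 := by
  rw [← mul_assoc, comm_even (k := 1) (Dg_mul (k := 1) (l := 1) ha hb), ← mul_assoc, sq_one ha,
    zero_mul, zero_mul]

theorem WFKey_a2 {a b : Λ n} (ha : a ∈ Dg n 1) (hb : b ∈ Dg n 1) (t : ℂ) (u v w : Λ n) :
    u * (v * (t • b * (a * w))) = -(t • (a * b) * (u * (v * w))) := by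
  have h1 := comm_even (k := 1) (Dg_mul (k := 1) (l := 1) ha hb)
  have h2 : b * a = -(a * b) := by
    rw [comm_Dg (k := 1) (l := 1) hb ha]
    simp
  rw [smul_mul_assoc, smul_mul_assoc, ← mul_assoc b, h2, ← mul_assoc (a * b), h1 u, mul_assoc u,
    ← mul_assoc (a * b), h1 v]
  simp only [mul_smul_comm, neg_mul, mul_neg, smul_neg, mul_assoc]

theorem WFKey_a3 {b e T : Λ n} (hb : b ∈ Dg n 1) (he : e ∈ Dg n 3) (hT : T ∈ Dg n 2) (t : ℂ) :
    T * (t • b * e) = -(t • (e * T * b)) := by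
  have h2 : b * e = -(e * b) := by
    rw [comm_Dg (k := 1) (l := 3) hb he]
    norm_num
  rw [smul_mul_assoc, h2, ← comm_even (k := 1) hT e]
  simp only [mul_smul_comm, mul_neg, smul_neg, mul_assoc]

end

/-- Take `W`, `k` from `WF_nb` and apply `WF_fib` to `γ = ds` and
`Γ = dd (fn 4 (χ ∘ snd)) * (pb snd θ * ϖ)` (`dd (fn 4 (χ ∘ snd)) = pb snd (dd (fn 3 χ))` by
`pb_dd`, `pb_fn`; `PX.pb_slice_snd`). `Γ` is smooth over `W`: it vanishes near the points where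
`χ ∘ snd` is locally constant. For a test function `φ` apply `WF_ml` with `snd ⁻¹' U`,
`C = fst ⁻¹' tsupport φ`, `ψ = pb fst (φ • cf ds)`, `w = pb fst (ds * cf ds)`, `u` from `WF_test`,
`T = pb fst ds * ϖ` (`sq_one`, `comm_one`; `cur G = ν • Th (x ∘ snd)` by `PMAt.cur_zpow`,
`PMAt.pb_Th`). `Θ * pb val (ψ * pb snd η)` is minus the integrand of `Fam.L` (`pb_comp`,
`comm_Dg`, `comm_even`). -/
theorem WF_key (hF : FD Q Pts x) (hA : Fam Q Pts D ν μ σ f) {b0 : B} {U : Set X} {χ : X → ℂ}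
    {θ : Fm 3 X} (hU : U ⊆ Q.O Pts x) (hT : Tb 3 U χ {p | ev x (σ b0) p = 0}) (hθ : Cl 2 θ U)
    {κ : ℂ} (hκ : κ ≠ 0) (hex : Ex 1 (Tt (x ∘ (dvs hF (hA.good b0)).val) μ (fun _ => f b0) -
      κ • pb (dvs hF (hA.good b0)).val θ)) {A ϖ : Fm 4 (PX B X)} {η c0 : Fm 3 X}
    (hAs : Sm (hA.dv hF).G A (hA.dv hF).O) (hAt : Ty 3 0 A) (hη : Cl 3 η univ)
    (hc : Sm 1 c0 univ) (hc0 : ∀ y, dd c0 y = -((ν : ℂ) • (Th x y * η y)))
    (hd : ∀ z ∈ (hA.dv hF).O, (hA.dv hF).σ z ≠ 0 → SmAt 1 ϖ z ∧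
      dd (fun z => ((hA.dv hF).σ z)⁻¹ • A z) z = pb PX.fst (dd (fn 1 D.s)) z * ϖ z +
        (hA.dv hF).L z * pb PX.snd η z + pb PX.snd c0 z)
    (hL : ∀ φ, Tst φ → hA.L hF φ η = 0) : pr χ θ (pb (PX.mk b0) ϖ) = 0 := by
  have := hF.cpt
  obtain ⟨W, k, hW, hb, hW1, hk⟩ := WF_nb hF hA hT hθ hex
  obtain ⟨hγ, ht, -⟩ := WF_ds D
  have hγ1 : ∀ b, dd (fn 1 D.s) b ∈ Dg 1 1 := fun b => Tp_le_Dg (p := 1) (q := 0) (ht b)
  have hγ2 : Dgr 1 (cf (dd (fn 1 D.s))) := fun b => cj_Dg (hγ1 b)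
  have d1 : ∀ z : PX B X, pb PX.fst (dd (fn 1 D.s)) z ∈ Dg 4 1 := fun z => pb_Dg (hγ1 _)
  have d2 : ∀ z : PX B X, pb PX.fst (cf (dd (fn 1 D.s))) z ∈ Dg 4 1 := fun z => pb_Dg (hγ2 _)
  have hχ : Sm 1 (fn 4 (χ ∘ (PX.snd : PX B X → X))) univ := fun z _ =>
    WFKey_fn (PX.hmap_snd z) (hT.bump.sm _ trivial)
  have hdχ : dd (fn 4 (χ ∘ (PX.snd : PX B X → X))) = pb PX.snd (dd (fn 3 χ)) := by
    funext z
    rw [pb_dd (PX.hmap_snd z) (hT.bump.sm _ trivial), pb_fn]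
  have hθs : ∀ z : PX B X, z.snd ∈ U → SmAt 1 (pb PX.snd θ) z := fun z hz =>
    WFKey_sm (PX.hmap_snd z) (hθ.sm _ hz)
  have hev : ∀ {t : ℂ} {z : PX B X}, (∀ᶠ y in 𝓝 z.snd, χ y = t) →
      ∀ᶠ y in 𝓝 z, (χ ∘ (PX.snd : PX B X → X)) y = t := fun {t z} h =>
    (PX.continuous_snd.tendsto z).eventually h
  have key := WF_fib (Γ := dd (fn 4 (χ ∘ PX.snd)) * (pb PX.snd θ * ϖ)) hγ ht D.ds hW hb ?_ ?_
  · rw [pb_mul, pb_mul, hdχ, PX.pb_slice_snd, PX.pb_slice_snd] at key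
    exact key
  · intro z hz
    have zero : ∀ t : ℂ, (∀ᶠ y in 𝓝 z.snd, χ y = t) →
        SmAt 1 (dd (fn 4 (χ ∘ PX.snd)) * (pb PX.snd θ * ϖ)) z := fun t h =>
      smAt_of_eventually_zero ((WFKey_const (n := 4) (hev h)).mono fun y hy => by
        rw [Pi.mul_apply, hy, zero_mul])
    by_cases h1 : z.snd ∈ tsupport χ
    · by_cases h2 : (hA.dv hF).σ z = 0
      · exact zero 1 (hW1 _ hz _ h2)
      · exact (hχ z trivial).dd.mul_left
          ((hθs z (hT.supp h1)).mul_left (hd z (hU (hT.supp h1)) h2).1)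
    · exact zero 0 (notMem_tsupport_iff_eventuallyEq.1 h1)
  intro φ hφ hφW
  obtain ⟨u, hu1, hu2, hu3⟩ := WF_test hγ ht D.ds hφ.1
  have hψ : Sm 1 (φ • cf (dd (fn 1 D.s))) univ := fun b _ =>
    (hφ.1 b trivial).fsmul_one (hγ b trivial).cf_one
  have hpX : ∀ (α : Fm 3 X) p, pb (hA.dv hF).val (pb PX.snd α) p = pb (hA.pX hF) α p :=
    fun α p => pb_comp (PX.hmap_snd _) ((hA.dv hF).emb.hm p) α
  have hpB : ∀ (α : Fm 1 B) p, pb (hA.dv hF).val (pb PX.fst α) p = pb (hA.pB hF) α p :=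
    fun α p => pb_comp (PX.hmap_fst _) ((hA.dv hF).emb.hm p) α
  have wft : WFT (hA.dv hF) (PX.snd ⁻¹' U) (PX.fst ⁻¹' tsupport φ) (χ ∘ PX.snd) (pb PX.snd θ)
      (hA.Θ hF) k κ := by
    refine ⟨hT.op.preimage PX.continuous_snd, preimage_mono hU,
      (isClosed_tsupport φ).preimage PX.continuous_fst,
      (PX.isCompact_fst hφ.2).inter_right (isClosed_tsupport _),
      fun z hz => hT.supp (tsupport_comp_subset_preimage χ PX.continuous_snd hz.2), hχ,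
      fun z hz => hev (hW1 _ (hφW hz.2) _ hz.1.2), ⟨hθs, fun z => pb_Dg (hθ.dg _),
        fun z hz => WFKey_cl (PX.hmap_snd z) (hθ.sm _ hz) (hθ.cl _ hz)⟩, fun p hp => ?_⟩
    filter_upwards [(Fam.hmap_pB hF hA p).continuousAt.eventually (hW.mem_nhds (hφW hp))]
      with p' hp'
    rw [hpX]
    exact hk p' hp'
  have ml := WF_ml wft hκ (Fam.Θ_cl hF hA).2 (ψ := pb PX.fst (φ • cf (dd (fn 1 D.s))))
    (w := pb PX.fst (dd (fn 1 D.s) * cf (dd (fn 1 D.s)))) (η := pb PX.snd η) (c0 := pb PX.snd c0)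
    (T := pb PX.fst (dd (fn 1 D.s)) * ϖ) (u := u ∘ PX.fst)
    (fun z _ => WFKey_sm (PX.hmap_fst z) (hψ _ trivial))
    (fun z => pb_Dg (Submodule.smul_mem _ _ (hγ2 _))) (fun z hz => ⟨?_, hu2 _ hz⟩)
    (fun z _ => WFKey_fn (PX.hmap_fst z) (hu1 _ trivial))
    (fun z _ => WFKey_sm (PX.hmap_fst z) ((hγ _ trivial).mul_left (hγ _ trivial).cf_one))
    (fun z => pb_Tp (PX.hmap_fst z)
      (Tp_mul (p := 1) (q := 0) (p' := 0) (q' := 1) (ht _) (cj_Tp (ht _)))) ?_ hAs hAt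
    (fun z _ => WFKey_sm (PX.hmap_snd z) (hη.sm _ trivial))
    (funext fun z => WFKey_cl (PX.hmap_snd z) (hη.sm _ trivial) (hη.cl _ trivial))
    (fun z _ => WFKey_sm (PX.hmap_snd z) (hc _ trivial)) (fun z _ => ?_)
    (fun z hz h0 => (hd z (hU hz) h0).2) (fun z => ?_) ?_
  · rw [← neg_eq_zero, ← itg_neg, ← ml]
    congr 1
    funext z
    simp only [pb_fsmul, pb_mul, Pi.mul_apply, Pi.neg_apply, Pi.smul_apply']
    exact (WFKey_a2 (d1 z) (d2 z) _ _ _ _).symm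
  · rw [pb_fsmul, Pi.smul_apply', Function.comp_apply, image_eq_zero_of_notMem_tsupport hz,
      zero_smul]
  · funext z
    rw [← pb_dd (PX.hmap_fst z) (hψ _ trivial), hu3, pb_fsmul]
  · have e1 : dd c0 = -((ν : ℂ) • (Th x * η)) := funext hc0
    have e2 : (cur (hA.dv hF).G z : Λ 4) = ((ν : ℤ) : ℂ) • Th (x ∘ PX.snd) z :=
      (Fam.pm hF z).cur_zpow ν
    rw [← pb_dd (PX.hmap_snd z) (hc _ trivial), e1, e2, pb_neg, pb_smul, pb_mul,
      ← PMAt.pb_Th (PX.hmap_snd z) (hF.pm _), Int.cast_natCast, smul_mul_assoc]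
    rfl
  · rw [pb_mul]
    exact WFKey_a1 (d1 z) (d2 z) _
  · rw [← neg_eq_zero, ← itg_neg, ← hL φ hφ, Fam.L]
    congr 1
    funext p
    simp only [pb_mul, Pi.mul_apply, Pi.neg_apply, Pi.smul_apply', hpX, hpB, pb_fsmul]
    rw [WFKey_a3 (pb_Dg (hγ2 _)) (pb_Dg (hη.dg _)) ((Fam.Θ_cl hF hA).1.dg p), neg_neg]
    rfl

end

end Pool.Agent.MP_1c689d_ag.K0

end

section

/-! Families of forms on the product. -/

set_option autoImplicit false

open Complex Filter Topology Set MeasureTheory MvPolynomial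
open scoped ComplexConjugate ContDiff ENNReal

namespace Pool.Agent.MP_1c689d_ag.K0

noncomputable section

variable {m c r : ℕ} {B X : Type} [TopologicalSpace B] [Mf 1 B] [TopologicalSpace X] [Mf 3 X]
  {Q : PD m 4 c r} {Pts : Finset (Fin 4 → ℂ)} {x : X → Fin m → ℂ} {D : Crv B} {ν μ a a' : ℕ}
  {σ : B → P m} {f : B → Fin a → Fin a' → P m}

/-- A family of forms of degree `ν` with holomorphic coefficients. -/
structure WFH (ν : ℕ) (τ : B → P m) : Prop where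
  hom : ∀ b, (τ b).IsHomogeneous ν
  hol : ∀ i b, HolAt 1 (fun y => coeff i (τ y)) b

/-- `β` is the derivative of the family `τ`. -/
def WFD (D : Crv B) (τ β : B → P m) : Prop :=
  ∀ i b, dd (fn 1 fun y => coeff i (τ y)) b = coeff i (β b) • dd (fn 1 D.s) b

/-- The form `g (τ b)` on the product. -/
def WFA (x : X → Fin m → ℂ) (g : Fin m → Fm 3 X) (τ : B → P m) : Fm 4 (PX B X) :=
  fun z => pb PX.snd (gv x g (τ z.fst)) z

theorem Fam.wfh (hA : Fam Q Pts D ν μ σ f) : WFH ν σ :=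
  ⟨fun b => (hA.good b).hom, fun i b => D.hol _ (hA.reg i) b⟩

theorem WFFam_hc {τ : B → P m} (hτ : WFH ν τ) (z : PX B X) (i : Fin m →₀ ℕ) :
    HolAt 1 (fun y : PX B X => coeff i (τ y.fst)) z := by
  have := (hτ.hol i z.fst).comp (PX.hmap_fst z)
  rwa [gpb_one] at this

theorem WFFam_dd {τ β : B → P m} (hτ : WFH ν τ) (hd : WFD D τ β) (z : PX B X) (i : Fin m →₀ ℕ) :
    dd (fn 4 fun y : PX B X => coeff i (τ y.fst)) z =
      coeff i (β z.fst) • pb PX.fst (dd (fn 1 D.s)) z := by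
  have := pb_dd (PX.hmap_fst z) (hτ.hol i z.fst).smAt
  rw [pb_fn, pb, hd, map_smul] at this
  rw [pb]
  exact this.symm

theorem WFFam_sum {τ : B → P m} (hτ : WFH ν τ) (g : Fin m → Fm 3 X) :
    WFA x g τ = ∑ i ∈ PMP_S m ν, (fn 4 fun y : PX B X => coeff i (τ y.fst)) *
      pb PX.snd (gv x g (monomial i 1)) := by
  funext z
  rw [WFA, pb, PMP_gv (hτ.hom z.fst), map_sum, Finset.sum_apply]
  refine Finset.sum_congr rfl fun i _ => ?_
  rw [map_smul, Pi.mul_apply, fn, ← Algebra.smul_def, pb]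

theorem WFFam_G (hF : FD Q Pts x) (hA : Fam Q Pts D ν μ σ f) :
    (hA.dv hF).G = gpb PX.snd (gx x ^ (ν : ℤ)) := by
  rw [gpb_zpow, ← gx_comp]
  rfl

theorem WFFam_sm0 (hF : FD Q Pts x) {g : Fin m → Fm 3 X} {p : X}
    (hg : ∀ l, SmAt (gx x ^ (1 : ℤ)) (g l) p) {i : Fin m →₀ ℕ} (hi : i ∈ PMP_S m ν) :
    SmAt (gx x ^ (ν : ℤ)) (gv x g (monomial i 1)) p :=
  (hF.pm p).gv_sm (mem_hz_nat.2 (PMP_hom hi)) hg (by ring)

theorem WFFam_sm (hF : FD Q Pts x) (hA : Fam Q Pts D ν μ σ f) {g : Fin m → Fm 3 X} {z : PX B X}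
    (hg : ∀ l, SmAt (gx x ^ (1 : ℤ)) (g l) z.snd) {i : Fin m →₀ ℕ} (hi : i ∈ PMP_S m ν) :
    SmAt (hA.dv hF).G (pb PX.snd (gv x g (monomial i 1))) z := by
  rw [WFFam_G]
  exact (WFFam_sm0 hF hg hi).pb (PX.hmap_snd z)

theorem WFFam_ok (hF : FD Q Pts x) (hA : Fam Q Pts D ν μ σ f) (z : PX B X) :
    GOk (hA.dv hF).G z :=
  (Fam.pm hF z).gok_zpow ν

omit [TopologicalSpace X] [Mf 3 X] in
theorem WFFam_Ty {g : Fin m → Fm 3 X} {p q : ℕ} (hg : ∀ l, Ty p q (g l)) (h : P m) :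
    Ty p q (gv x g h) := fun y =>
  Submodule.sum_mem _ fun l _ => Submodule.smul_mem _ _ (hg l y)

/-- `β b = ∑ i ∈ PMP_S m ν, u' i b • monomial i 1` with `u' i` from `Crv.exists_deriv`; for `i`
outside `PMP_S m ν` the coefficients vanish identically (`PMP_zero`). -/
theorem WF_beta (hA : Fam Q Pts D ν μ σ f) : ∃ β : B → P m, WFH ν β ∧ WFD D σ β := by
  classical
  choose u hu hd using fun i => D.exists_deriv (hA.reg i)
  have hc : ∀ i b, coeff i (∑ j ∈ PMP_S m ν, u j b • (monomial j 1 : P m)) =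
      if i ∈ PMP_S m ν then u i b else 0 := fun i b => by
    simp only [coeff_sum, coeff_smul, coeff_monomial, smul_eq_mul, mul_ite, mul_one, mul_zero,
      Finset.sum_ite_eq']
  refine ⟨fun b => ∑ j ∈ PMP_S m ν, u j b • monomial j 1, ⟨fun b => ?_, fun i b => ?_⟩,
    fun i b => ?_⟩
  · exact IsHomogeneous.sum _ _ _ fun j hj =>
      (homogeneousSubmodule (Fin m) ℂ ν).smul_mem _ (PMP_hom hj)
  · by_cases hi : i ∈ PMP_S m ν
    · simp only [hc, if_pos hi]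
      exact hu i b
    · simp only [hc, if_neg hi]
      exact holAt_zero
  · by_cases hi : i ∈ PMP_S m ν
    · rw [hc, if_pos hi]
      exact hd i b
    · rw [hc, if_neg hi, zero_smul, funext fun y => PMP_zero (hA.good y).hom i hi, dd_const,
        Pi.zero_apply]

/-- `PMAt.holAt_fam`, compare `Fam.hc`. -/
theorem WFH.holAt (hF : FD Q Pts x) (hA : Fam Q Pts D ν μ σ f) {τ : B → P m} (hτ : WFH ν τ)
    (z : PX B X) : HolAt (hA.dv hF).G (fun z => eval (x z.snd) (τ z.fst)) z := by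
  exact (Fam.pm hF z).holAt_fam (σ := fun y => τ y.fst) (fun y => hτ.hom y.fst) (WFFam_hc hτ z)

/-- `PMAt.dp_fam`, `PMAt.pb_Dx`, `pb_dd`, `pb_fn`. -/
theorem WF_D (hF : FD Q Pts x) (hA : Fam Q Pts D ν μ σ f) {β : B → P m} (hβ : WFD D σ β)
    (z : PX B X) : (hA.dv hF).D z =
      WFA x (Dx x) σ z + eval (x z.snd) (β z.fst) • pb PX.fst (dd (fn 1 D.s)) z := by
  have h := (Fam.pm hF z).dp_fam (σ := fun y => σ y.fst) (fun y => (hA.good y.fst).hom) (hA.hc z)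
    (WFFam_dd hA.wfh hβ z)
  refine h.trans ?_
  congr 1
  rw [WFA, pb, gv, gv, map_sum]
  refine Finset.sum_congr rfl fun l _ => ?_
  rw [map_smul, ← (hF.pm z.snd).pb_Dx (PX.hmap_snd z) l, pb]
  rfl

theorem WFA_Ty {g : Fin m → Fm 3 X} {p q : ℕ} (hg : ∀ l, Ty p q (g l)) (τ : B → P m) :
    Ty p q (WFA x g τ) := by
  intro z
  exact pb_Tp (PX.hmap_snd z) (WFFam_Ty hg _ _)

theorem WFA_slice (g : Fin m → Fm 3 X) (τ : B → P m) (b : B) :
    pb (PX.mk b) (WFA x g τ) = gv x g (τ b) := by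
  funext y
  have := congrFun (PX.pb_slice_snd b (gv x g (τ b))) y
  rw [pb] at this ⊢
  exact this

/-- By `PMP_gv` the form is the sum over `i ∈ PMP_S m ν` of
`fn (coeff i (τ z.fst)) * pb snd (gv x g (monomial i 1))`; `PMAt.gv_sm`, `SmAt.pb`, `gpb_zpow`,
`gx_comp`. -/
theorem WFA_sm (hF : FD Q Pts x) (hA : Fam Q Pts D ν μ σ f) {τ : B → P m} (hτ : WFH ν τ)
    {g : Fin m → Fm 3 X} {z : PX B X} (hg : ∀ l, SmAt (gx x ^ (1 : ℤ)) (g l) z.snd) :
    SmAt (hA.dv hF).G (WFA x g τ) z := by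
  rw [WFFam_sum hτ]
  exact SmAt.sum fun i hi => (WFFam_hc hτ z i).smAt.mul_left (WFFam_sm hF hA hg hi)

/-- `dbar_sum`, `dbar_mul'`, `HolAt.dbar`, `pb_dbar`, `PMAt.dbar_gv`. -/
theorem WFA_dbar (hF : FD Q Pts x) (hA : Fam Q Pts D ν μ σ f) {τ : B → P m} (hτ : WFH ν τ)
    {g : Fin m → Fm 3 X} {z : PX B X} (hg : ∀ l, SmAt (gx x ^ (1 : ℤ)) (g l) z.snd) :
    dbar (hA.dv hF).G (WFA x g τ) z = WFA x (fun l => dbar (gx x ^ (1 : ℤ)) (g l)) τ z := by
  rw [WFFam_sum hτ, WFFam_sum hτ, Finset.sum_apply,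
    dbar_sum fun i hi => (WFFam_hc hτ z i).smAt.mul_left (WFFam_sm hF hA hg hi)]
  refine Finset.sum_congr rfl fun i hi => ?_
  rw [dbar_mul' (by rw [one_mul]) gok_one (WFFam_ok hF hA z) (WFFam_hc hτ z i).smAt
    (WFFam_sm hF hA hg hi), (WFFam_hc hτ z i).dbar, zero_mul, zero_add, WFFam_G,
    ← pb_dbar (PX.hmap_snd z) (WFFam_sm0 hF hg hi), pb,
    (hF.pm z.snd).dbar_gv (mem_hz_nat.2 (PMP_hom hi)) hg (by ring), Pi.mul_apply, pb, fn,
    AlgHom.commutes]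

/-- `dp_sum`, `dp_mul'`, `dd_of_hol`, `pb_dp`; `dp` of a `(3,0)`-form on `X` is zero (`Ty.dp`,
`Tp_eq_bot`). -/
theorem WFA_dp (hF : FD Q Pts x) (hA : Fam Q Pts D ν μ σ f) {τ β : B → P m} (hτ : WFH ν τ)
    (hβ : WFH ν β) (hd : WFD D τ β) {g : Fin m → Fm 3 X} (ht : ∀ l, Ty 3 0 (g l)) {z : PX B X}
    (hg : ∀ l, SmAt (gx x ^ (1 : ℤ)) (g l) z.snd) :
    dp (hA.dv hF).G (WFA x g τ) z = pb PX.fst (dd (fn 1 D.s)) z * WFA x g β z := by
  rw [WFFam_sum hτ, WFFam_sum hβ, Finset.sum_apply, Finset.mul_sum, dp_sum (WFFam_ok hF hA z)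
    fun i hi => (WFFam_hc hτ z i).smAt.mul_left (WFFam_sm hF hA hg hi)]
  refine Finset.sum_congr rfl fun i hi => ?_
  have h0 : dp (gx x ^ (ν : ℤ)) (gv x g (monomial i 1)) z.snd = 0 := by
    have := (WFFam_Ty (x := x) ht (monomial i 1)).dp (G := gx x ^ (ν : ℤ)) z.snd
    rwa [Tp_eq_bot (Or.inl (by norm_num)), Submodule.mem_bot] at this
  have h1 : dp (hA.dv hF).G (pb PX.snd (gv x g (monomial i 1))) z = 0 := by
    rw [WFFam_G, ← pb_dp (PX.hmap_snd z) ((hF.pm z.snd).gok_zpow ν) (WFFam_sm0 hF hg hi), pb, h0,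
      map_zero]
  rw [dp_mul' (by rw [one_mul]) gok_one (WFFam_ok hF hA z) (WFFam_hc hτ z i).smAt
    (WFFam_sm hF hA hg hi), h1, mul_zero, add_zero, ← dd_of_hol (WFFam_hc hτ z i),
    WFFam_dd hτ hd, Pi.mul_apply, fn, ← Algebra.smul_def, smul_mul_assoc, mul_smul_comm]

end

end Pool.Agent.MP_1c689d_ag.K0

end

section

/-! The differentials of the meromorphic forms. -/

set_option autoImplicit false

open Complex Filter Topology Set MeasureTheory MvPolynomial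
open scoped ComplexConjugate ContDiff ENNReal

namespace Pool.Agent.MP_1c689d_ag.K0

noncomputable section

variable {m c r : ℕ} {B X : Type} [TopologicalSpace B] [Mf 1 B] [TopologicalSpace X] [Mf 3 X]
  {Q : PD m 4 c r} {Pts : Finset (Fin 4 → ℂ)} {x : X → Fin m → ℂ} {D : Crv B} {ν μ a a' : ℕ}
  {σ : B → P m} {f : B → Fin a → Fin a' → P m}

theorem WFPi_gv {g : Fin m → Fm 3 X} {p q : ℕ} (hg : ∀ l, Ty p q (g l)) (h : P m) (y : X) :
    gv x g h y ∈ Tp 3 p q :=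
  Submodule.sum_mem _ fun l _ => Submodule.smul_mem _ _ (hg l y)

theorem WFPi_zero {u v : Λ 3} (hu : u ∈ Tp 3 1 0) (hv : v ∈ Tp 3 3 0) : u * v = 0 := by
  have := Tp_mul hu hv
  rwa [Tp_eq_bot (Or.inl (by norm_num)), Submodule.mem_bot] at this

theorem WFPi_div (hF : FD Q Pts x) (hA : Fam Q Pts D ν μ σ f) {β : B → P m} (hβ : WFH ν β)
    {z : PX B X} (h1 : z ∈ (hA.dv hF).O) (h0 : (hA.dv hF).σ z ≠ 0) :
    SmAt 1 (fn 4 fun z : PX B X => eval (x z.snd) (β z.fst) / eval (x z.snd) (σ z.fst)) z :=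
  ((hβ.holAt hF hA z).div (hA.wfh.holAt hF hA z) ((hA.dv hF).ok z h1) h0).smAt

theorem WFPi_dbar {R : RL Q Pts x} {η θ'' : Fm 3 X} {g : Fin m → Fm 3 X} {w : Fin r → Q.Om}
    (hz : ZD R η θ'' g w) {h : P m} (hh : h.IsHomogeneous ν) {y : X} (hy : y ∈ Q.O Pts x) :
    gv x (fun l => dbar (gx x ^ (1 : ℤ)) (g l)) h y =
      gv x (Dx x) h y * η y + ((ν : ℂ) * eval (x y) h) • θ'' y := by
  rw [← euler_eval hh, gv, gv, Finset.sum_mul, Finset.sum_smul, ← Finset.sum_add_distrib]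
  refine Finset.sum_congr rfl fun l _ => ?_
  rw [hz.g_eq l y hy, smul_add, smul_smul, smul_mul_assoc]

/-- `WF_dd_div` with `WFA_sm`, `WFA_dp`, `WFA_dbar`, `WF_D`, `ZD.g_eq`, `euler_eval`. The form is
`σ⁻¹ • WFA g β - (b / σ ^ 2) • WFA g σ - (b / σ) • pb snd η` with `b z = eval (x z.snd) (β z.fst)`
(`WFH.holAt`, `HolAt.div`); `WFA (Dx x) σ * WFA g σ` is the pull-back of a `(4,0)`-form on `X`,
which is zero. -/
theorem WF_mu (hF : FD Q Pts x) (hA : Fam Q Pts D ν μ σ f) {R : RL Q Pts x} {η θ'' : Fm 3 X}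
    {g : Fin m → Fm 3 X} {w : Fin r → Q.Om} (hz : ZD R η θ'' g w) {β : B → P m} (hβ : WFH ν β)
    (hd : WFD D σ β) {z : PX B X} (h1 : z ∈ (hA.dv hF).O) (h0 : (hA.dv hF).σ z ≠ 0) :
    SmAt 1 (fun z : PX B X => pb PX.snd (vp x g η (σ z.fst) (β z.fst)) z) z ∧
      dd (fun z => ((hA.dv hF).σ z)⁻¹ • WFA x g σ z) z =
        pb PX.fst (dd (fn 1 D.s)) z * pb PX.snd (vp x g η (σ z.fst) (β z.fst)) z +
          (hA.dv hF).L z * pb PX.snd η z + pb PX.snd ((ν : ℂ) • θ'') z := by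
  have hg : ∀ l, SmAt (gx x ^ (1 : ℤ)) (g l) z.snd := fun l => hz.g_sm l _ h1
  have a1 := WF_dd_div (hA.dv hF) h1 h0 (WFA_sm hF hA hA.wfh hg)
  have a2 := (WF_dd_div (hA.dv hF) h1 h0 (WFA_sm hF hA hβ hg)).1
  have a3 := WFPi_div hF hA hβ h1 h0
  have a4 := (hz.f21.sm z.snd (mem_univ _)).pb (PX.hmap_snd z)
  rw [gpb_one] at a4
  constructor
  · refine ((a2.sub (a3.fsmul_one a1.1)).sub (a3.fsmul_one a4)).congr
      (Eventually.of_forall fun y => ?_)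
    simp only [Pi.sub_apply, Pi.smul_apply', WFA, pb, vp, map_sub, map_smul, smul_smul, ev]
    rw [sq, div_mul_eq_div_mul_one_div, one_div]
    rfl
  · have e : (hA.dv hF).σ z = eval (x z.snd) (σ z.fst) := rfl
    rw [a1.2, WFA_dp hF hA hA.wfh hβ hd hz.g_ty hg, WFA_dbar hF hA hA.wfh hg, Div.L,
      WF_D hF hA hd]
    rw [e] at h0 ⊢
    simp only [WFA]
    generalize pb PX.fst (dd (fn 1 D.s)) z = ϑ
    simp only [pb, vp, ev, Pi.smul_apply]
    rw [WFPi_dbar hz (hA.good _).hom h1, add_mul, ← map_mul,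
      WFPi_zero (WFPi_gv Dx_Ty _ _) (WFPi_gv hz.g_ty _ _)]
    simp only [map_add, map_sub, map_smul, map_mul, map_zero, mul_sub, add_mul, smul_mul_assoc,
      mul_smul_comm, smul_add, zero_add]
    match_scalars <;> field_simp
    ring

/-- `dd_eq`; `dp 1 θ''` has type `(4,1)`. -/
theorem WF_c0 {R : RL Q Pts x} {η θ'' : Fm 3 X} {g : Fin m → Fm 3 X} {w : Fin r → Q.Om}
    (hz : ZD R η θ'' g w) (y : X) :
    dd ((ν : ℂ) • θ'') y = -((ν : ℂ) • (Th x y * η y)) := by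
  have h := hz.θ_ty.dp (G := 1) y
  rw [Tp_eq_bot (Or.inl (by norm_num)), Submodule.mem_bot] at h
  rw [dd_smul, Pi.smul_apply, dd_eq, Pi.add_apply, h, zero_add, hz.θ_eq, Pi.neg_apply,
    Pi.mul_apply, smul_neg]

/-- `RL.hol`, `SmAt.pb`, `gpb_zpow`, `gx_comp`. -/
theorem WF_rl_sm (hF : FD Q Pts x) (hA : Fam Q Pts D ν μ σ f) (R : RL Q Pts x) {t : Q.Om}
    (ht : t ∈ Q.og ν) : Sm (hA.dv hF).G (pb PX.snd (R.rl t)) (hA.dv hF).O := by
  intro z hz
  have := (R.hol ν t ht z.snd hz).1.pb (PX.hmap_snd z)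
  rwa [gpb_zpow, ← gx_comp] at this

/-- `WF_dd_div`, `pb_dp`, `pb_dbar`, `WF_D`. -/
theorem WF_lam (hF : FD Q Pts x) (hA : Fam Q Pts D ν μ σ f) (R : RL Q Pts x) {t : Q.Om}
    (ht : t ∈ Q.og ν) {β : B → P m} (hβ : WFH ν β) (hd : WFD D σ β) {z : PX B X}
    (h1 : z ∈ (hA.dv hF).O) (h0 : (hA.dv hF).σ z ≠ 0) :
    SmAt 1 (fun z : PX B X => (-(eval (x z.snd) (β z.fst) / eval (x z.snd) (σ z.fst) ^ 2)) •
      pb PX.snd (R.rl t) z) z ∧
      dd (fun z => ((hA.dv hF).σ z)⁻¹ • pb PX.snd (R.rl t) z) z = pb PX.fst (dd (fn 1 D.s)) z *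
        ((-(eval (x z.snd) (β z.fst) / eval (x z.snd) (σ z.fst) ^ 2)) • pb PX.snd (R.rl t) z) := by
  have a1 := WF_dd_div (hA.dv hF) h1 h0 (WF_rl_sm hF hA R ht z h1)
  have hh := R.hol ν t ht z.snd h1
  constructor
  · refine ((WFPi_div hF hA hβ h1 h0).fsmul_one a1.1).neg.congr (Eventually.of_forall fun y => ?_)
    simp only [Pi.neg_apply, Pi.smul_apply', smul_smul, neg_smul]
    rw [sq, div_mul_eq_div_mul_one_div, one_div]
    rfl
  · have b1 := pb_dp (PX.hmap_snd z) ((hF.pm z.snd).gok_zpow ν) hh.1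
    have b2 := pb_dbar (PX.hmap_snd z) hh.1
    have b3 := (R.ty t).dp (G := gx x ^ (ν : ℤ)) z.snd
    rw [Tp_eq_bot (Or.inl (by norm_num)), Submodule.mem_bot] at b3
    rw [gpb_zpow, ← gx_comp, pb] at b1 b2
    rw [b3, map_zero] at b1
    rw [hh.2.self_of_nhds, map_zero] at b2
    have e : (hA.dv hF).σ z = eval (x z.snd) (σ z.fst) := rfl
    have eG : (hA.dv hF).G = gx (x ∘ PX.snd) ^ (ν : ℤ) := rfl
    rw [a1.2, WF_D hF hA hd, eG, ← b1, ← b2, e]
    simp only [WFA]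
    generalize pb PX.fst (dd (fn 1 D.s)) z = ϑ
    simp only [pb]
    rw [add_mul, ← map_mul, WFPi_zero (WFPi_gv Dx_Ty _ _) (R.ty t _)]
    simp only [map_zero, smul_mul_assoc, mul_smul_comm, zero_add, smul_zero]
    match_scalars
    ring

end

end Pool.Agent.MP_1c689d_ag.K0

end

section

/-! Interface: the weak formula. -/

set_option autoImplicit false

open Complex Filter Topology Set MeasureTheory MvPolynomial
open scoped ComplexConjugate ContDiff ENNReal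

namespace Pool.Agent.MP_1c689d_ag.K0

noncomputable section

variable {m c r : ℕ} {B X : Type} [TopologicalSpace B] [Mf 1 B] [TopologicalSpace X] [Mf 3 X]
  [MeasurableSpace X] [BorelSpace X] {Q : PD m 4 c r} {Pts : Finset (Fin 4 → ℂ)}
  {x : X → Fin m → ℂ} {D : Crv B} {ν μ a a' : ℕ} {σ : B → P m} {f : B → Fin a → Fin a' → P m}

omit [MeasurableSpace X] [BorelSpace X] in
theorem IWF_slice (b : B) (α : B → Fm 3 X) :
    pb (PX.mk b) (fun z : PX B X => pb PX.snd (α z.fst) z) = α b := by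
  funext y
  exact congrFun (PX.pb_slice_snd b (α b)) y

theorem weak_formula (hF : FD Q Pts x) (hA : Fam Q Pts D ν μ σ f) {R : RL Q Pts x}
    {η θ'' : Fm 3 X} {g : Fin m → Fm 3 X} {z : Fin r → Q.Om} (hz : ZD R η θ'' g z) {b0 : B}
    {U : Set X} {χ : X → ℂ} {θ : Fm 3 X} (hN : NLP R η g U χ θ (σ b0) ν) {κ : ℂ} (hκ : κ ≠ 0)
    (hθ : Ex 1 (Tt (x ∘ (dvs hF (hA.good b0)).val) μ (fun _ => f b0) -
      κ • pb (dvs hF (hA.good b0)).val θ))
    {β : P m} (hβ : β.IsHomogeneous ν)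
    (hd : ∀ i, dd (fn 1 fun y => coeff i (σ y)) b0 = coeff i β • dd (fn 1 D.s) b0)
    (hn : ¬ ∃ t : ℂ, β - C t * σ b0 ∈ Q.I) : ∃ φ, Tst φ ∧ hA.L hF φ η ≠ 0 := by
  by_contra hc
  have hL : ∀ φ, Tst φ → hA.L hF φ η = 0 := fun φ h => by
    by_contra h0
    exact hc ⟨φ, h, h0⟩
  obtain ⟨β', hβ', hd'⟩ := WF_beta hA
  have e : β' b0 = β := by
    ext i
    exact smul_left_injective ℂ (D.ds b0) ((hd' i b0).symm.trans (hd i))
  refine hn (hN.nd β hβ (fun t ht => ?_) ?_)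
  · have h := WF_key hF hA hN.sub hN.tb hN.cl hκ hθ (η := 0) (c0 := 0) (A := pb PX.snd (R.rl t))
      (ϖ := fun z : PX B X => (-(eval (x z.snd) (β' z.fst) / eval (x z.snd) (σ z.fst) ^ 2)) •
        pb PX.snd (R.rl t) z)
      (WF_rl_sm hF hA R ht) (fun z => pb_Tp (PX.hmap_snd z) (R.ty t _))
      ⟨fun _ _ => smAt_zero, fun _ => Submodule.zero_mem _, fun _ _ => congrFun dd_zero _⟩
      (fun _ _ => smAt_zero) (fun y => by rw [dd_zero]; simp)
      (fun z h1 h0 => ⟨(WF_lam hF hA R ht hβ' hd' h1 h0).1, by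
        rw [(WF_lam hF hA R ht hβ' hd' h1 h0).2, pb_zero]; simp⟩)
      (fun φ _ => by simpa using hA.L_smul hF φ 0 0)
    have e2 : pb (PX.mk b0) (fun z : PX B X =>
        (-(eval (x z.snd) (β' z.fst) / eval (x z.snd) (σ z.fst) ^ 2)) • pb PX.snd (R.rl t) z) =
        -fun p => (ev x (σ b0) p ^ 2)⁻¹ • R.rl (β • t) p := by
      funext y
      have e3 := congrFun (PX.pb_slice_snd b0 (R.rl t)) y
      rw [pb] at e3
      rw [pb, map_smul, e3, R.smul, ← e, Pi.neg_apply, Pi.smul_apply', smul_smul, neg_smul,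
        div_eq_inv_mul]
      rfl
    rw [e2] at h
    unfold pr at h
    rw [mul_neg, mul_neg, itg_neg, neg_eq_zero] at h
    exact h
  · have h := WF_key hF hA hN.sub hN.tb hN.cl hκ hθ (η := η) (c0 := (ν : ℂ) • θ'') (A := WFA x g σ)
      (ϖ := fun z : PX B X => pb PX.snd (vp x g η (σ z.fst) (β' z.fst)) z)
      (fun z hz' => WFA_sm hF hA hA.wfh fun l => hz.g_sm l _ hz') (WFA_Ty hz.g_ty σ)
      ⟨hz.f21.sm, fun y => (Tp_le_Dg (p := 2) (q := 1) (hz.f21.ty y) :),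
        fun _ _ => congrFun hz.f21.cl _⟩
      (fun y h => (hz.θ_sm y h).smul _) (WF_c0 hz)
      (fun z h1 h0 => WF_mu hF hA hz hβ' hd' h1 h0) hL
    rw [IWF_slice b0 fun b => vp x g η (σ b) (β' b), e] at h
    exact h

end

end Pool.Agent.MP_1c689d_ag.K0

end

section

/-! Algebraic dependence of functions. -/

set_option autoImplicit false

open Complex Filter Topology Set MeasureTheory MvPolynomial
open scoped ComplexConjugate ContDiff ENNReal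

namespace Pool.Agent.MP_1c689d_ag.K0

noncomputable section

variable {W : Type} {k : ℕ}

theorem vanAl2_ev (u : Fin k → W → ℂ) (p : P k) (w : W) :
    aeval u p w = eval (fun i => u i w) p := by
  have h := comp_aeval_apply (f := u) (Pi.evalAlgHom ℂ (fun _ : W => ℂ) w) p
  exact h.trans (DFunLike.congr_fun (coe_aeval_eq_eval _) p)

/-- `AlgebraicIndependent.matroid`, `matroid_closure_eq`, `matroid_indep_iff`: an independent set in
the closure of a set with at most `k` elements has at most `k` elements. -/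
theorem van_field {K : Type} [Field K] [Algebra ℂ K] (t : Fin k → K) (u : Fin (k + 1) → K)
    (h : ∀ i, IsAlgebraic (Algebra.adjoin ℂ (range t)) (u i)) : ¬ AlgebraicIndependent ℂ u := by
  intro hu
  have h1 : (AlgebraicIndependent.matroid ℂ K).Indep (range u) :=
    AlgebraicIndependent.matroid_indep_iff.2 hu.to_subtype_range
  have h2 : range u ⊆ (AlgebraicIndependent.matroid ℂ K).closure (range t) := by
    rw [AlgebraicIndependent.matroid_closure_eq]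
    rintro _ ⟨i, rfl⟩
    exact h i
  have h3 := h1.encard_le_eRk_of_subset h2
  rw [Matroid.eRk_closure_eq, ← image_univ, ← image_univ, hu.injective.encard_image] at h3
  have h4 := (h3.trans (Matroid.eRk_le_encard _ _)).trans (encard_image_le t univ)
  simp only [encard_univ, ENat.card_eq_coe_fintype_card, Fintype.card_fin, Nat.cast_le] at h4
  omega

/-- Otherwise the image of `nonZeroDivisors (P (k + 1))` under `aeval u` does not contain zero;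
`Ideal.exists_le_prime_disjoint` gives a prime `q` of `W → ℂ` that is disjoint from it; take for `K`
the fraction field of the quotient. -/
theorem van_dep (t : Fin k → W → ℂ) (u : Fin (k + 1) → W → ℂ) (hu : ∀ i, u i ∈ VAl (range t)) :
    VDep u univ := by
  by_contra hn
  have h0 : Disjoint ((⊥ : Ideal (W → ℂ)) : Set (W → ℂ))
      ((nonZeroDivisors (P (k + 1))).map (aeval u : P (k + 1) →ₐ[ℂ] W → ℂ)) := by
    refine disjoint_left.2 ?_
    rintro _ hx ⟨p, hp, rfl⟩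
    refine hn ⟨p, nonZeroDivisors.ne_zero hp, fun w _ => ?_⟩
    rw [← vanAl2_ev, show aeval u p = 0 from hx]
    rfl
  obtain ⟨q, hq, -, hd⟩ := Ideal.exists_le_prime_disjoint _ _ h0
  let χ : (W → ℂ) →ₐ[ℂ] FractionRing ((W → ℂ) ⧸ q) :=
    (IsScalarTower.toAlgHom ℂ ((W → ℂ) ⧸ q) _).comp (Ideal.Quotient.mkₐ ℂ q)
  refine van_field (fun i => χ (t i)) (fun i => χ (u i)) (fun i => ?_)
    (algebraicIndependent_iff.2 fun p hp => ?_)
  · have h1 := hu i _ χ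
    rwa [← range_comp] at h1
  · by_contra h1
    rw [← comp_aeval_apply] at hp
    have h2 : Ideal.Quotient.mk q (aeval u p) = 0 :=
      IsFractionRing.injective _ (FractionRing ((W → ℂ) ⧸ q)) (hp.trans (map_zero _).symm)
    exact disjoint_left.1 hd (Ideal.Quotient.eq_zero_iff_mem.1 h2)
      ⟨p, mem_nonZeroDivisors_of_ne_zero h1, rfl⟩

theorem VDep.mono {u : Fin k → W → ℂ} {O O' : Set W} (h : VDep u O) (hO : O' ⊆ O) :
    VDep u O' := by
  obtain ⟨p, h1, h2⟩ := h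
  exact ⟨p, h1, fun w hw => h2 w (hO hw)⟩

/-- The product of the polynomials. -/
theorem VDep.union {ι : Type} [Finite ι] {u : Fin k → W → ℂ} {O : ι → Set W}
    (h : ∀ i, VDep u (O i)) : VDep u (⋃ i, O i) := by
  have := Fintype.ofFinite ι
  choose p h1 h2 using h
  refine ⟨∏ i, p i, Finset.prod_ne_zero_iff.2 fun i _ => h1 i, fun w hw => ?_⟩
  obtain ⟨i, hi⟩ := mem_iUnion.1 hw
  rw [map_prod]
  exact Finset.prod_eq_zero (Finset.mem_univ i) (h2 i w hi)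

theorem van_dep_on {O : Set W} (t : Fin k → O → ℂ) (u : Fin (k + 1) → W → ℂ)
    (hu : ∀ i, (fun w : O => u i w) ∈ VAl (range t)) : VDep u O := by
  obtain ⟨p, h1, h2⟩ := van_dep t (fun i (w : O) => u i w) hu
  exact ⟨p, h1, fun w hw => h2 ⟨w, hw⟩ (mem_univ _)⟩

end

end Pool.Agent.MP_1c689d_ag.K0

end

section

/-! Rational functions on the total space. -/

set_option autoImplicit false

open Complex Filter Topology Set MeasureTheory MvPolynomial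
open scoped ComplexConjugate ContDiff ENNReal

namespace Pool.Agent.MP_1c689d_ag.K0

noncomputable section

variable {m c r : ℕ} {B W : Type} [TopologicalSpace B] [Mf 1 B] {Q : PD m 4 c r}
  {Pts : Finset (Fin 4 → ℂ)} {D : Crv B} {ν : ℕ}

theorem vanDep_nk {B : Type} (A : Subalgebra ℂ (B → ℂ)) {σ : B → P m}
    (hh : ∀ b, (σ b).IsHomogeneous ν) (hA : ∀ a, (fun b => coeff a (σ b)) ∈ A) {b1 : B}
    (hg : Good Q Pts (σ b1) ν) :
    ∃ Δ ∈ A, Δ b1 ≠ 0 ∧ ∀ (W : Type) (β : W → B) (v : W → Fin m → ℂ) (S : Set (W → ℂ)),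
      (∀ w, Δ (β w) ≠ 0) → (∀ w, Q.OnC (v w)) → (∀ w, eval (v w) (σ (β w)) = 0) →
      (∀ a ∈ A, (fun w => a (β w)) ∈ VAl S) →
      (∀ j : Fin 3, (fun w => v w (Q.yi j.succ)) ∈ VAl S) → ∀ i, (fun w => v w i) ∈ VAl S := by
  obtain ⟨Δ, h1, h2, h3⟩ := van_nk A (g := fun (i : Option (Fin r)) b => i.elim (σ b) Q.F)
    (e := fun i => i.elim ν Q.dF) (fun i b => i.rec (hh b) Q.Fh)
    (fun i a => i.rec (hA a) fun j => A.algebraMap_mem (coeff a (Q.F j)))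
    (l := fun j : Fin 3 => X (Q.yi j.succ)) (fun _ => isHomogeneous_X _ _) (b1 := b1)
    fun v h1 h2 => by
      by_contra h
      obtain ⟨i, hi⟩ := hg.ax v ⟨h, fun j => h1 (some j)⟩ (h1 none)
      exact hi (by simpa using h2 i)
  exact ⟨Δ, h1, h2, fun W β v S h4 hv h0 h5 hy => h3 W β v S h4 (fun w => (hv w).1)
    (fun w i => i.rec (h0 w) (hv w).2) h5 fun j => by simpa only [eval_X] using hy j⟩

theorem vanDep_smul {f : P m} {i : ℕ} (hf : f.IsHomogeneous i) (v : Fin m → ℂ) (t : ℂ) :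
    eval (t • v) f = t ^ i * eval v f := by
  rw [hz_eval_smul (mem_hz_nat.2 hf), zpow_natCast]

theorem vanDep_res {β : W → B} {v : W → Fin m → ℂ} {g : W → ℂ} (h : VRat D β v g) (O : Set W) :
    VRat D (fun w : O => β w) (fun w => v w) fun w => g w := by
  obtain ⟨k, e, n, d, h1, h2⟩ := h
  exact ⟨k, e, n, d, h1, fun w => h2 w⟩

theorem vanDep_on {g : W → ℂ} {S : Set (W → ℂ)} {O : Set W} {g' : O → ℂ} (h : g ∈ VAl S)
    (e : ∀ w : O, g w = g' w) : g' ∈ VAl ((fun s (w : O) => s w) '' S) :=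
  (_root_.funext e : (fun w : O => g w) = g') ▸ van_comp Subtype.val h

theorem vanDep_fin {Δ : B → B → ℂ} (h1 : ∀ b, Δ b ∈ D.A) (h2 : ∀ b, Δ b b ≠ 0) :
    ∃ T : Set B, T.Finite ∧ ∀ b, ∃ i ∈ T, Δ i b ≠ 0 := by
  rcases isEmpty_or_nonempty B with hB | ⟨⟨b0⟩⟩
  · exact ⟨∅, finite_empty, fun b => hB.elim b⟩
  refine ⟨insert b0 {b | Δ b0 b = 0}, (van_crv_fin D (h1 b0) fun h => h2 b0 (congrFun h b0)).insert
    b0, fun b => ?_⟩
  by_cases h : Δ b0 b = 0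
  · exact ⟨b, Or.inr h, h2 b⟩
  · exact ⟨b0, Or.inl rfl, h⟩

/-- `van_nk` with `B = Unit`, `A = ⊥`, the equations `Q.F` and `σ` (index type `Option (Fin r)`),
`l j = X (Q.yi j.succ)`; `Good.ax`. -/
theorem van_surf0 {σ : P m} (hg : Good Q Pts σ ν) {v : W → Fin m → ℂ} {S : Set (W → ℂ)}
    (hv : ∀ w, Q.OnC (v w)) (h0 : ∀ w, eval (v w) σ = 0)
    (hy : ∀ j : Fin 3, (fun w => v w (Q.yi j.succ)) ∈ VAl S) (l : Fin m) :
    (fun w => v w l) ∈ VAl S := by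
  obtain ⟨Δ, -, h2, h3⟩ := vanDep_nk (B := Unit) ⊤ (σ := fun _ => σ) (fun _ => hg.hom)
    (fun _ => trivial) (b1 := ()) hg
  exact h3 W (fun _ => ()) v S (fun _ => h2) hv h0 (fun a _ => van_const (a ())) hy l

variable {σ : B → P m} {β : W → B} {v : W → Fin m → ℂ}

/-- `van_nk` at every `b` gives `Δ b`; finitely many of the sets `Δ b ≠ 0` cover `B`
(`van_crv_fin`); `van_cover`, `van_comp`, `van_crv`. -/
theorem van_surf (hg : ∀ b, Good Q Pts (σ b) ν) (hr : D.Reg σ) {S : Set (W → ℂ)}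
    (hv : ∀ w, Q.OnC (v w)) (h0 : ∀ w, eval (v w) (σ (β w)) = 0)
    (hs : (fun w => D.s (β w)) ∈ VAl S)
    (hy : ∀ j : Fin 3, (fun w => v w (Q.yi j.succ)) ∈ VAl S) (l : Fin m) :
    (fun w => v w l) ∈ VAl S := by
  obtain ⟨Δ, h⟩ := Classical.skolem.1 fun b => vanDep_nk D.A (fun b => (hg b).hom) hr (hg b)
  obtain ⟨T, hT, hc⟩ := vanDep_fin (fun b => (h b).1) fun b => (h b).2.1
  have := hT.to_subtype
  refine van_cover (fun i : T => {w | Δ i (β w) ≠ 0})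
    (fun w => (hc (β w)).elim fun i hi => ⟨⟨i, hi.1⟩, hi.2⟩) fun i => ?_
  have h4 := (h i).2.2 {w | Δ i (β w) ≠ 0} (fun w => β w.1) (fun w => v w.1) _ (fun w => w.2)
    (fun w => hv _) (fun w => h0 _) (fun a ha => van_comp Subtype.val (van_crv D β hs ha))
    (fun j => van_comp Subtype.val (hy j)) l
  exact h4

/-- Apply `van_surf` to `v' w = (v w (Q.yi a.succ))⁻¹ • v w`; the quotients do not change
(`hz_eval_smul`); `van_cover`, `van_comp`, `van_eval`, `van_crv`, `van_div`. -/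
theorem van_rat (hg : ∀ b, Good Q Pts (σ b) ν) (hr : D.Reg σ) {S : Set (W → ℂ)}
    (hv : ∀ w, Q.OnC (v w)) (h0 : ∀ w, eval (v w) (σ (β w)) = 0) (a : Fin 3)
    (ha : ∀ w, v w (Q.yi a.succ) ≠ 0) (hs : (fun w => D.s (β w)) ∈ VAl S)
    (hy : ∀ j : Fin 2, vr v (Q.yi a.succ) (Q.yi (a.succAbove j).succ) ∈ VAl S) {g : W → ℂ}
    (h : VRat D β v g) : g ∈ VAl S := by
  obtain ⟨k, e, n, d, h1, h2⟩ := h
  have h3 := van_surf (v := fun w => (v w (Q.yi a.succ))⁻¹ • v w) hg hr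
    (fun w => ⟨smul_ne_zero (inv_ne_zero (ha w)) (hv w).1, fun j => by
      rw [vanDep_smul (Q.Fh j), (hv w).2, mul_zero]⟩)
    (fun w => by rw [vanDep_smul (hg _).hom, h0, mul_zero]) hs fun j => by
      refine Fin.succAboveCases a ?_ (fun j => ?_) j
      · simpa only [Pi.smul_apply, smul_eq_mul, inv_mul_cancel₀ (ha _)] using van_const 1
      · simp only [Pi.smul_apply, smul_eq_mul, inv_mul_eq_div]
        exact hy j
  refine van_cover (fun i => {w | g w = eval (v w) (n i (β w)) / eval (v w) (d i (β w))}) h2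
    fun i => ?_
  have h4 := van_div
    (van_eval (fun w => ((h1 i).2.2 (β w)).1) (fun a => van_crv D β hs ((h1 i).1 a)) h3)
    (van_eval (fun w => ((h1 i).2.2 (β w)).2) (fun a => van_crv D β hs ((h1 i).2.1 a)) h3)
  refine vanDep_on h4 fun w => ?_
  rw [vanDep_smul ((h1 i).2.2 _).1, vanDep_smul ((h1 i).2.2 _).2,
    mul_div_mul_left _ _ (pow_ne_zero _ (inv_ne_zero (ha _)))]
  exact w.2.symm

/-- On the three sets `v w (Q.yi a.succ) ≠ 0` (`Good.ax`) use `van_dep_on` with the generators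
`D.s ∘ β` and the two quotients; `VDep.union`. -/
theorem van_dep4 (hg : ∀ b, Good Q Pts (σ b) ν) (hr : D.Reg σ) (hv : ∀ w, Q.OnC (v w))
    (h0 : ∀ w, eval (v w) (σ (β w)) = 0) {u : Fin 4 → W → ℂ} (hu : ∀ i, VRat D β v (u i)) :
    VDep u univ := by
  refine (VDep.union (O := fun a : Fin 3 => {w | v w (Q.yi a.succ) ≠ 0}) fun a => ?_).mono
    fun w _ => mem_iUnion.2 ((hg _).ax _ (hv w) (h0 w))
  exact van_dep_on (Fin.cons (fun w => D.s (β w)) fun j : Fin 2 =>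
    vr (fun w => v w.1) (Q.yi a.succ) (Q.yi (a.succAbove j).succ)) u fun i =>
    van_rat hg hr (fun w => hv _) (fun w => h0 _) a (fun w => w.2) (van_mem (mem_range.2 ⟨0, rfl⟩))
      (fun j => van_mem (mem_range.2 ⟨j.succ, rfl⟩)) (vanDep_res (hu i) _)

/-- On the set `v w a ≠ 0` the functions `D.s ∘ β`, `w ∘ β` (`D.sep`) and `vr v a i` separate the
points; `van_fb0`, `van_rat_A`, `van_rat_x`, `VFb.union`. -/
theorem van_fb (hg : ∀ b, Good Q Pts (σ b) ν) (hr : D.Reg σ) (hv : ∀ w, Q.OnC (v w))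
    (h0 : ∀ w, eval (v w) (σ (β w)) = 0)
    (inj : ∀ w w', β w' = β w → (∃ t : ℂ, v w' = t • v w) → w' = w) {g0 g1 g2 : W → ℂ}
    (h1 : VRat D β v g0) (h2 : VRat D β v g1) (h3 : VRat D β v g2) :
    VFb (VM g0 g1 g2) univ := by
  obtain ⟨t, ht, hs⟩ := D.sep
  refine (VFb.union (O := fun a => {w | v w a ≠ 0}) fun a => ?_).mono
    fun w _ => mem_iUnion.2 (Function.ne_iff.1 (hv w).1)
  refine van_fb0 (fun i : Option (Option (Fin m)) => i.elim (fun w => D.s (β w))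
    fun j => j.elim (fun w => t (β w)) (vr v a)) (fun w hw w' hw' h => ?_) fun i => ?_
  · refine inj w' w (hs _ _ (congrFun h none) (congrFun h (some none)))
      ⟨v w a / v w' a, _root_.funext fun i => ?_⟩
    have h4 : v w i / v w a = v w' i / v w' a := congrFun h (some (some i))
    rw [div_eq_iff hw] at h4
    rw [h4, Pi.smul_apply, smul_eq_mul]
    ring
  · refine (van_dep4 hg hr hv h0 fun j => ?_).mono (subset_univ _)
    refine Fin.cases ?_ (fun j => ?_) j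
    · exact i.rec (van_rat_A D β v D.s_mem) fun j => j.rec (van_rat_A D β v ht) (van_rat_x D β v a)
    · fin_cases j
      exacts [h1, h2, h3]

end

end Pool.Agent.MP_1c689d_ag.K0

end

section

/-! Elimination. -/

set_option autoImplicit false

open Complex Filter Topology Set MeasureTheory MvPolynomial
open scoped ComplexConjugate ContDiff ENNReal

namespace Pool.Agent.MP_1c689d_ag.K0

noncomputable section

variable {m c r : ℕ} {B X : Type} [TopologicalSpace B] [Mf 1 B] [TopologicalSpace X]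
  [Mf 3 X] {Q : PD m 4 c r} {Pts : Finset (Fin 4 → ℂ)} {x : X → Fin m → ℂ}

theorem vanEl_smul {f : P m} {e : ℕ} (hf : f.IsHomogeneous e) (v : Fin m → ℂ) (t : ℂ) :
    eval (t • v) f = t ^ e * eval v f := by
  rw [hz_eval_smul (mem_hz_nat.2 hf), zpow_natCast]

theorem vanEl_onc {v : Fin m → ℂ} (hv : Q.OnC v) {t : ℂ} (ht : t ≠ 0) : Q.OnC (t • v) :=
  ⟨smul_ne_zero ht hv.1, fun j => by rw [vanEl_smul (Q.Fh j), hv.2 j, mul_zero]⟩

theorem vanEl_pt (hF : FD Q Pts x) {σ : P m} {ν : ℕ} (hg : Good Q Pts σ ν) {p : X}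
    (hp : ev x σ p = 0) : ∃ q : (dvs hF hg).T, (dvs hF hg).val q = p := by
  have : p ∈ range (dvs hF hg).val := by
    rw [Div.range_val, dvs_S]
    exact hp
  exact this

/-- `dvs_fd`, `FD.connected`, and the identity theorem `hfm_zero_clopen` for
`fn 2 (ev (x ∘ val) f)` (`PMAt.holAt_ev'`, `HolAt.hfm`, `fn_Ty`). -/
theorem van_dense (hF : FD Q Pts x) {σ f : P m} {ν e : ℕ} (hg : Good Q Pts σ ν)
    (hf : f.IsHomogeneous e) (h0 : ∃ p, ev x σ p = 0 ∧ ev x f p ≠ 0) (p : (dvs hF hg).T) :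
    ∃ᶠ p' in 𝓝 p, ev x f ((dvs hF hg).val p') ≠ 0 := by
  obtain ⟨Q', -, -, hF', -⟩ := dvs_fd hF hg
  have := hF'.connected le_rfl
  obtain ⟨p0, h1, h2⟩ := h0
  obtain ⟨q, rfl⟩ := vanEl_pt hF hg h1
  intro h
  refine h2 (algebraMap_inj (n := 2) ?_)
  rw [map_zero]
  refine hfm_zero_clopen (G := gx (x ∘ (dvs hF hg).val) ^ (e : ℤ))
    (α := fn 2 (ev (x ∘ (dvs hF hg).val) f)) isPreconnected_univ
    (fun y _ => (hF'.pm y).gok_zpow e)
    (fun y _ => ((hF'.pm y).holAt_ev' hf).hfm ((hF'.pm y).gok_zpow e)) (fn_Ty _) (mem_univ p) ?_ q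
    (mem_univ q)
  refine h.mono fun y hy => ?_
  change algebraMap ℂ (Λ 2) (ev x f ((dvs hF hg).val y)) = 0
  rw [not_not.1 hy, map_zero]

/-- On the open set `O` of the surface `(dvs hF hg).T` where `y 1 ≠ 0` the three continuous functions
`f / y 1 ^ e`, `y 2 / y 1`, `y 3 / y 1` (`HolAt.div`, `MF2a_hol_cont`) are dependent (`van_surf0`
for `(y 1)⁻¹ • x`, `van_eval`, `van_dep_on`); `van_cut`; take a point where the polynomial does not
vanish (`MvPolynomial.funext`); `Good.ax`, `Good.off`, `FD.surj`. -/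
theorem van_line (hF : FD Q Pts x) {σ f : P m} {ν e : ℕ} (hg : Good Q Pts σ ν)
    (hf : f.IsHomogeneous e) (h0 : ∃ p, ev x σ p = 0 ∧ ev x f p ≠ 0) :
    ∃ α β : ℂ, ∀ v, Q.OnC v → eval v σ = 0 → eval v f = 0 → v (Q.yi 2) = α * v (Q.yi 1) →
      v (Q.yi 3) = β * v (Q.yi 1) → False := by
  obtain ⟨Q', -, -, hF', -⟩ := dvs_fd hF hg
  set z : (dvs hF hg).T → Fin m → ℂ := x ∘ (dvs hF hg).val with hz
  set O : Set (dvs hF hg).T := {w | z w (Q.yi 1) ≠ 0} with hO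
  have hop : IsOpen O := isOpen_iff_mem_nhds.2 fun w hw => (hF'.pm w).ne _ hw
  set τ : (dvs hF hg).T → ℂ := fun w => ev z f w / ev z (MvPolynomial.X (Q.yi 1) ^ e) w with hτ
  set u : Fin 2 → (dvs hF hg).T → ℂ := fun j w => z w (Q.yi j.succ.succ) / z w (Q.yi 1) with hu
  have hev : ∀ w, ev z (MvPolynomial.X (Q.yi 1) ^ e) w = z w (Q.yi 1) ^ e := fun w => by
    simp [ev]
  have hs : ∀ w, eval (z w) σ = 0 := fun w => ((dvs hF hg).val_mem w).2
  have hdep : VDep (Fin.cons τ u : Fin 3 → (dvs hF hg).T → ℂ) O := by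
    refine van_dep_on (fun j (w : O) => u j w) _ fun i => ?_
    refine Fin.cases ?_ (fun j => van_mem ⟨j, rfl⟩) i
    have h1 := van_surf0 (S := range fun j (w : O) => u j w) hg
      (v := fun w : O => (z w (Q.yi 1))⁻¹ • z w)
      (fun w => vanEl_onc (hF.onc _) (inv_ne_zero w.2))
      (fun w => by rw [vanEl_smul hg.hom, hs, mul_zero]) fun j => by
        refine Fin.cases ?_ (fun j => ?_) j
        · convert van_const (S := range fun j (w : O) => u j w) 1 using 2 with w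
          exact inv_mul_cancel₀ w.2
        · convert van_mem (S := range fun j (w : O) => u j w) ⟨j, rfl⟩ using 2 with w
          simp only [hu, Pi.smul_apply, smul_eq_mul]
          rw [div_eq_inv_mul]
    convert van_eval (p := fun _ => f) (fun _ => hf) (fun a => van_const _) h1 using 2 with w
    rw [vanEl_smul hf]
    change ev z f w / ev z (MvPolynomial.X (Q.yi 1) ^ e) w = _
    rw [hev, div_eq_inv_mul, inv_pow]
    rfl
  obtain ⟨q, hq, hq0⟩ := van_cut (S := {w ∈ O | ev z f w = 0}) hop (fun w hw => hw.1) hdep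
    (fun w hw => (MF2a_hol_cont (((hF'.pm w).holAt_ev' hf).div ((hF'.pm w).holAt_ev'
      (by simpa using (isHomogeneous_X ℂ (Q.yi 1)).pow e)) ((hF'.pm w).gok_zpow e)
      (by rw [hev]; exact pow_ne_zero _ hw))).continuousWithinAt)
    (fun j w hw => (MF2a_hol_cont ((hF'.pm w).hol _ _ hw)).continuousWithinAt)
    (fun w hw => by simp only [hτ, hw.2, zero_div])
    fun w hw => ((van_dense hF hg hf h0 w).and_eventually (hop.mem_nhds hw)).mono fun y hy =>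
      div_ne_zero hy.1 (by rw [hev]; exact pow_ne_zero _ hy.2)
  obtain ⟨a, ha⟩ : ∃ a, eval a q ≠ 0 := by
    by_contra h
    exact hq (MvPolynomial.funext fun a => by rw [map_zero]; exact not_not.1 fun h' => h ⟨a, h'⟩)
  refine ⟨a 0, a 1, fun v hv h1 h2 h3 h4 => ?_⟩
  have h5 : v (Q.yi 1) ≠ 0 := fun h => by
    obtain ⟨i, hi⟩ := hg.ax v hv h1
    rw [h, mul_zero] at h3 h4
    fin_cases i
    exacts [hi h, hi h3, hi h4]
  obtain ⟨p, t, hp⟩ := hF.surj v hv (hg.off v hv h1)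
  have ht : t ≠ 0 := fun h => (hF.onc p).1 (by rw [hp, h, zero_smul])
  obtain ⟨w, rfl⟩ := vanEl_pt hF hg (p := p) (by
    change eval (x p) σ = 0
    rw [hp, vanEl_smul hg.hom, h1, mul_zero])
  have hw : z w = t • v := hp
  refine ha ?_
  convert hq0 w ⟨?_, ?_⟩ using 3
  · funext j
    simp only [hu, hw, Pi.smul_apply, smul_eq_mul]
    rw [mul_div_mul_left _ _ ht, eq_div_iff h5]
    fin_cases j
    exacts [h3.symm, h4.symm]
  · change z w (Q.yi 1) ≠ 0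
    rw [hw]
    exact mul_ne_zero ht h5
  · change eval (z w) f = 0
    rw [hw, vanEl_smul hf, h2, mul_zero]

/-- Let `W` be the set of all `(y, v)` with `Q.OnC v`, `eval v (σ y) = 0`, `eval v (g y) = 0`.
`van_nk` at `b0` with the equations `Q.F`, `σ`, `g` and the two linear forms of `van_line` gives
`Δ`. Where `Δ ≠ 0` the four functions `v (Q.yi i)` are algebraic over `D.s` and the two linear forms
(`van_crv`); over each of the finitely many zeros of `Δ` (`van_crv_fin`) they are algebraic over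
three of them (`van_surf0`). `van_dep_on`, `VDep.union`, `van_hom`. -/
theorem van_elim (hF : FD Q Pts x) {D : Crv B} {ν e : ℕ} {σ g : B → P m}
    (hg : ∀ b, Good Q Pts (σ b) ν) (hr : D.Reg σ) (he : ∀ b, (g b).IsHomogeneous e)
    (hr' : D.Reg g) {b0 : B} (h0 : ∃ p, ev x (σ b0) p = 0 ∧ ev x (g b0) p ≠ 0) :
    ∃ (q : P 4) (d : ℕ), q.IsHomogeneous d ∧ q ≠ 0 ∧ ∀ y v, Q.OnC v → eval v (σ y) = 0 →
      eval v (g y) = 0 → eval (fun i => v (Q.yi i)) q = 0 := by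
  obtain ⟨α, β, hl⟩ := van_line hF (hg b0) (he b0) h0
  let l : Fin 2 → P m := ![MvPolynomial.X (Q.yi 2) - C α * MvPolynomial.X (Q.yi 1),
    MvPolynomial.X (Q.yi 3) - C β * MvPolynomial.X (Q.yi 1)]
  obtain ⟨Δ, hΔ, hb, hN⟩ := van_nk D.A (ι := Option (Option (Fin r)))
    (g := fun i b => i.elim (σ b) fun j => j.elim (g b) Q.F)
    (e := fun i => i.elim ν fun j => j.elim e Q.dF)
    (fun i b => by
      rcases i with _ | _ | j
      exacts [(hg b).hom, he b, Q.Fh j])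
    (fun i a => by
      rcases i with _ | _ | j
      exacts [hr a, hr' a, van_reg_const D (Q.F j) a])
    (l := l) (fun j => by
      fin_cases j
      exacts [(isHomogeneous_X _ _).sub ((isHomogeneous_X _ _).C_mul _),
        (isHomogeneous_X _ _).sub ((isHomogeneous_X _ _).C_mul _)])
    (b1 := b0) fun v h1 h2 => by
      by_contra hv
      have h3 := h2 0
      have h4 := h2 1
      simp only [l, Matrix.cons_val_zero, Matrix.cons_val_one, map_sub, map_mul, eval_X, eval_C,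
        sub_eq_zero] at h3 h4
      exact hl v ⟨hv, fun j => h1 (some (some j))⟩ (h1 none) (h1 (some none)) h3 h4
  let W : Type := {w : B × (Fin m → ℂ) // Q.OnC w.2 ∧ eval w.2 (σ w.1) = 0 ∧ eval w.2 (g w.1) = 0}
  let u : Fin 4 → W → ℂ := fun i w => w.1.2 (Q.yi i)
  have := (van_crv_fin D hΔ fun h => hb (by rw [h]; rfl)).to_subtype
  let O : Option {b | Δ b = 0} → Set W := fun i => i.elim {w | Δ w.1.1 ≠ 0} fun b => {w | w.1.1 = b}
  have hdep : VDep u (⋃ i, O i) := by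
    refine VDep.union fun i => ?_
    rcases i with _ | b
    · let t : Fin 3 → O none → ℂ :=
        Fin.cons (fun w => D.s w.1.1.1) fun j w => eval w.1.1.2 (l j)
      refine van_dep_on t u fun i => hN (O none) (fun w => w.1.1.1) (fun w => w.1.1.2) (range t)
        (fun w => w.2) (fun w => w.1.2.1.1) (fun w i => ?_)
        (fun a ha => van_crv D _ (van_mem (mem_range_self (f := t) 0)) ha) (fun j => van_mem ⟨j.succ, rfl⟩) _
      rcases i with _ | _ | j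
      exacts [w.1.2.2.1, w.1.2.2.2, w.1.2.1.2 j]
    · exact van_dep_on (fun j (w : O (some b)) => u j.succ w) u fun i =>
        van_surf0 (hg b) (v := fun w : O (some b) => w.1.1.2) (fun w => w.1.2.1)
          (fun w => (show w.1.1.1 = b.1 from w.2) ▸ w.1.2.2.1)
          (fun j => van_mem (mem_range_self j)) _
  obtain ⟨p, hp, hp0⟩ := hdep
  obtain ⟨q, d, h1, h2, h3⟩ := van_hom (Y := range fun (w : W) i => u i w) (by
    rintro _ ⟨w, rfl⟩ t ht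
    exact ⟨⟨(w.1.1, t • w.1.2), vanEl_onc w.2.1 ht,
      by rw [vanEl_smul (hg _).hom, w.2.2.1, mul_zero],
      by rw [vanEl_smul (he _), w.2.2.2, mul_zero]⟩, rfl⟩) hp (by
    rintro _ ⟨w, rfl⟩
    refine hp0 w (mem_iUnion.2 ?_)
    by_cases h : Δ w.1.1 = 0
    exacts [⟨some ⟨_, h⟩, rfl⟩, ⟨none, h⟩])
  exact ⟨q, d, h1, h2, fun y v a b c => h3 _ ⟨⟨(y, v), a, b, c⟩, rfl⟩⟩

end

end Pool.Agent.MP_1c689d_ag.K0

end

section

/-! The functions on the total space are rational. -/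

set_option autoImplicit false

open Complex Filter Topology Set MeasureTheory MvPolynomial
open scoped ComplexConjugate ContDiff ENNReal

namespace Pool.Agent.MP_1c689d_ag.K0

noncomputable section

variable {N c' r' m c r : ℕ} {B X : Type} [TopologicalSpace B] [Mf 1 B] [TopologicalSpace X]
  [Mf 3 X] {Q' : PD N 4 c' r'} {ξ : X → Fin N → ℂ} {Q : PD m 4 c r} {Pts : Finset (Fin 4 → ℂ)}
  {x : X → Fin m → ℂ} {D : Crv B} {ν μ a a' : ℕ} {σ : B → P m}

theorem vanRat_col {M : Fin a → Fin a' → ℂ} (h : ∃ j l, M j l ≠ 0) :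
    ∃ (l : Fin a') (t : ℂ), t ≠ 0 ∧ (∃ j, M j l ≠ 0) ∧ ∀ j, col M j = t * M j l := by
  obtain ⟨j, l, h⟩ := h
  have h1 : ∃ k, (fun j => M j k) ≠ 0 := ⟨l, fun e => h (congrFun e j)⟩
  obtain ⟨j', h2⟩ := Function.ne_iff.1 h1.choose_spec
  exact ⟨h1.choose, _, MF4c_sqrt_ne (v := fun j => M j h1.choose) h2, ⟨j', h2⟩, fun i => by
    rw [col, dif_pos h1]; rfl⟩

section

variable {f : B → Fin a → Fin a' → P m}

/-- The map given by the columns. -/
def VPh (hF : FD Q Pts x) (hA : Fam Q Pts D ν μ σ f) : (hA.dv hF).T → Fin a → ℂ :=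
  fun p => col fun j l => eval (x (hA.pX hF p)) (f (hA.pB hF p) j l)

/-- `St.alg`, `Fam.pX_mem`, `van_reg_const`. -/
theorem van_rat_xi (h : St Q' ξ Q Pts x) (hA : Fam Q Pts D ν μ σ f) (b i : Fin N) :
    VRat D (hA.pB h.fd) (x ∘ hA.pX h.fd) (vr (ξ ∘ hA.pX h.fd) b i) := by
  obtain ⟨k, d, q, h1, h2, h3⟩ := h.alg
  refine ⟨k, d, fun j _ => q j i, fun j _ => q j b, fun j => ⟨van_reg_const D _, van_reg_const D _,
    fun _ => ⟨h1 j i, h1 j b⟩⟩, fun w => ?_⟩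
  obtain ⟨j, hj⟩ := h2 _ (Fam.pX_mem h.fd hA w).1
  obtain ⟨t, ht⟩ := h3 j _ (Fam.pX_mem h.fd hA w).1
  have h0 : t ≠ 0 := fun e => hj (by rw [ht, e, zero_smul])
  exact ⟨j, (mul_div_mul_left _ _ h0).symm.trans
    (congrArg₂ (· / ·) (congrFun ht i) (congrFun ht b)).symm⟩

/-- `col` is a non-zero multiple of one of the columns (`Rk1.ne`, `MF4c_sqrt_ne`). -/
theorem van_rat_col (hF : FD Q Pts x) (hA : Fam Q Pts D ν μ σ f) (b i : Fin a) :
    VRat D (hA.pB hF) (x ∘ hA.pX hF) (vr (VPh hF hA) b i) := by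
  refine ⟨a', fun _ => 2 * μ, fun l z => f z i l, fun l z => f z b l, fun l => ⟨hA.freg i l,
    hA.freg b l, fun z => ⟨(hA.rk1 z).hom i l, (hA.rk1 z).hom b l⟩⟩, fun w => ?_⟩
  obtain ⟨l, t, h0, -, ht⟩ := vanRat_col
    ((hA.rk1 _).ne _ (hF.onc _) (Fam.pX_mem hF hA w).2)
  exact ⟨l, (congrArg₂ (· / ·) (ht i) (ht b)).trans (mul_div_mul_left _ _ h0)⟩

/-- `van_fb`, `FD.inj`, `Fam.ext_p`. -/
theorem van_fbT (hF : FD Q Pts x) (hA : Fam Q Pts D ν μ σ f) {g0 g1 g2 : (hA.dv hF).T → ℂ}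
    (h1 : VRat D (hA.pB hF) (x ∘ hA.pX hF) g0) (h2 : VRat D (hA.pB hF) (x ∘ hA.pX hF) g1)
    (h3 : VRat D (hA.pB hF) (x ∘ hA.pX hF) g2) : VFb (VM g0 g1 g2) univ := by
  exact van_fb hA.good hA.reg (fun _ => hF.onc _) (fun w => (Fam.pX_mem hF hA w).2)
    (fun w _ e ht => Fam.ext_p hF hA e (hF.inj _ _ (Fam.pX_mem hF hA w).1 ht)) h1 h2 h3

end

/-- `Rk1.rk`. -/
theorem van_col_ne {f : B → Fin (a + 1) → Fin (a' + 1) → P m} (hF : FD Q Pts x)
    (hA : Fam Q Pts D ν μ σ f) {p : (hA.dv hF).T}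
    (h : eval (x (hA.pX hF p)) (f (hA.pB hF p) 0 0) ≠ 0) : VPh hF hA p 0 ≠ 0 := by
  obtain ⟨l, t, h0, ⟨j, hj⟩, ht⟩ := vanRat_col
    (M := fun j l => eval (x (hA.pX hF p)) (f (hA.pB hF p) j l)) ⟨0, 0, h⟩
  have h1 := (hA.rk1 _).rk _ (hF.onc _) (Fam.pX_mem hF hA p).2 0 j 0 l
  exact (ht 0).trans_ne (mul_ne_zero h0 (left_ne_zero_of_mul (h1 ▸ mul_ne_zero h hj)))

end

end Pool.Agent.MP_1c689d_ag.K0

end

section

/-! The vanishing theorem on the total space. -/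

set_option autoImplicit false

open Complex Filter Topology Set MeasureTheory MvPolynomial
open scoped ComplexConjugate ContDiff ENNReal

namespace Pool.Agent.MP_1c689d_ag.K0

noncomputable section

variable {B T : Type} [TopologicalSpace B] [Mf 1 B] [TopologicalSpace T] [Mf 3 T] {p : T → B}
  {a k : Fm 3 T} {h : B → ℂ}

theorem vanPt_sm (hp : ∀ y, HMap p y) {γ : Fm 3 T} (hγ : Sm 1 γ univ) {θ : Fm 1 B}
    (hθ : Sm 1 θ univ) : Sm 1 (pb p θ) univ ∧ Sm 1 (γ * pb p θ) univ := by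
  have h : Sm 1 (pb p θ) univ := fun y _ => by
    have := (hθ (p y) trivial).pb (hp y)
    rwa [gpb_one] at this
  exact ⟨h, fun y hy => (hγ y hy).mul_left (h y hy)⟩

theorem vanPt_zero {n i j i' j' : ℕ} {u v : Λ n} (hu : u ∈ Tp n i j) (hv : v ∈ Tp n i' j')
    (h : n < i + i' ∨ n < j + j') : u * v = 0 := by
  have := Tp_mul (p := i) (q := j) (p' := i') (q' := j') hu hv
  rwa [Tp_eq_bot h, Submodule.mem_bot] at this

omit [Mf 1 B] in
theorem vanPt_fn {φ : B → ℂ} (h : HasCompactSupport φ) : HasCompactSupport (fn 1 φ) :=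
  h.comp_left (g := algebraMap ℂ (Λ 1)) (map_zero _)

theorem van_cs_pb (hp : ∀ y, HMap p y) (hpr : ∀ K, IsCompact K → IsCompact (p ⁻¹' K))
    (γ : Fm 3 T) {θ : Fm 1 B} (hc : HasCompactSupport θ) : HasCompactSupport (γ * pb p θ) := by
  refine HasCompactSupport.intro (hpr _ hc) fun y hy => ?_
  rw [Pi.mul_apply, pb, image_eq_zero_of_notMem_tsupport (f := θ) hy, map_zero, mul_zero]

variable [MeasurableSpace B] [BorelSpace B] [MeasurableSpace T] [BorelSpace T]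

/-- Stokes for `k * pb p θ` on `T` and for `h • θ` on `B` (`dd_mul`, `gi_of_Dg`, `pb_dd`,
`tsupport_dd`). -/
theorem van_one (hp : ∀ y, HMap p y) (hpr : ∀ K, IsCompact K → IsCompact (p ⁻¹' K))
    (hk : Sm 1 k univ) (hk4 : Dgr 4 k) (hf : VFi p k h univ) {θ : Fm 1 B} (hθ : Sm 1 θ univ)
    (h1 : Dgr 1 θ) (hc : HasCompactSupport θ) :
    itg (dd k * pb p θ) = itg (dd (fn 1 h) * θ) := by
  have hd : Sm 1 (dd θ) univ := fun b hb => (hθ b hb).dd
  have hcd : HasCompactSupport (dd θ) := hc.of_isClosed_subset (isClosed_tsupport _) tsupport_dd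
  have hdh : Sm 1 (dd (fn 1 h)) univ := fun b hb => (hf.1 b hb).dd
  have s1 := stokes (vanPt_sm hp hk hθ).2 (van_cs_pb hp hpr k hc)
  have s2 := stokes (α := fn 1 h * θ) (fun b hb => (hf.1 b hb).mul_left (hθ b hb)) hc.mul_left
  have e1 : dd (k * pb p θ) = dd k * pb p θ + k * pb p (dd θ) := by
    funext y
    rw [dd_mul (hk y trivial) ((vanPt_sm hp hk hθ).1 y trivial), gi_of_Dg (hk4 y),
      ← pb_dd (hp y) (hθ _ trivial)]
    norm_num
  have e2 : dd (fn 1 h * θ) = dd (fn 1 h) * θ + fn 1 h * dd θ := by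
    funext b
    rw [dd_mul (hf.1 b trivial) (hθ b trivial), gi_of_Tp (fn_Ty h b)]
    simp
  rw [e1, itg_add (intg_of_sm (vanPt_sm hp (fun y hy => (hk y hy).dd) hθ).2 (van_cs_pb hp hpr _ hc))
    (intg_of_sm (vanPt_sm hp hk hd).2 (van_cs_pb hp hpr _ hcd)),
    hf.2 _ hd h1.dd hcd (subset_univ _)] at s1
  rw [e2, itg_add (intg_of_sm (fun b hb => (hdh b hb).mul_left (hθ b hb)) hc.mul_left)
    (intg_of_sm (fun b hb => (hf.1 b hb).mul_left (hd b hb)) hcd.mul_left), fn_mul] at s2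
  linear_combination s1 - s2

/-- `cf a * pb p θ` has type `(2,4)`, so it is zero (`Tp_eq_bot`). -/
theorem van_two (hp : ∀ y, HMap p y) (hpr : ∀ K, IsCompact K → IsCompact (p ⁻¹' K))
    (hk : Sm 1 k univ) (hk4 : Dgr 4 k) (hf : VFi p k h univ) (ht : Ty 3 2 a)
    (e : dd k = a + cf a) {θ : Fm 1 B} (hθ : Sm 1 θ univ) (h1 : Ty 0 1 θ)
    (hc : HasCompactSupport θ) : itg (a * pb p θ) = itg (dd (fn 1 h) * θ) := by
  rw [← van_one hp hpr hk hk4 hf hθ (fun b => Tp_le_Dg (p := 0) (q := 1) (h1 b)) hc, e, add_mul]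
  congr 1
  funext y
  exact (add_eq_left.2 (vanPt_zero (cj_Tp (ht y)) (pb_Tp (hp y) (h1 _)) (by norm_num))).symm

/-- Stokes for `a * pb p (fn 1 φ)`; `a * pb p (dp 1 (fn 1 φ))` has type `(4,2)`. -/
theorem van_three (hp : ∀ y, HMap p y) (hpr : ∀ K, IsCompact K → IsCompact (p ⁻¹' K))
    (ha : Sm 1 a univ) (ht : Ty 3 2 a) (hd : dd a = 0) {φ : B → ℂ} (hφ : Tst φ) :
    itg (a * pb p (dbar 1 (fn 1 φ))) = 0 := by
  have s1 := stokes (vanPt_sm hp ha hφ.1).2 (van_cs_pb hp hpr a (vanPt_fn hφ.2))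
  rw [← neg_eq_zero, ← itg_neg, ← s1]
  congr 1
  funext y
  rw [dd_mul (ha y trivial) ((vanPt_sm hp ha hφ.1).1 y trivial), gi_of_Tp (ht y), hd,
    ← pb_dd (hp y) (hφ.1 _ trivial), dd_eq, pb_add, Pi.add_apply, smul_mul_assoc, mul_add,
    vanPt_zero (ht y) (pb_Tp (hp y) ((fn_Ty φ).dp _)) (by norm_num)]
  norm_num

/-- `van_fi`, `van_fi_real`, `van_curve` (the decay follows from `van_two`, `dens_fsmul` and
`enorm_integral_le_lintegral_enorm`), then `van_two` with `θ = φ • cf ds`: `dd h = dbar h` has type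
`(0,1)`, so `dd h * θ = 0` on the curve. -/
theorem van_par (hp : ∀ y, HMap p y) (hpr : ∀ K, IsCompact K → IsCompact (p ⁻¹' K))
    {s : B → ℂ} (hs : ∀ b, HolAt 1 s b) (h1 : ∀ b, dd (fn 1 s) b ≠ 0)
    (h2 : ∀ y, pb p (dd (fn 1 s)) y ≠ 0) (ha : Sm 1 a univ) (ht : Ty 3 2 a) (hd : dd a = 0)
    (hk : Sm 1 k univ) (hk4 : Dgr 4 k) (hr : cf k = k) (e : dd k = a + cf a) {χ : ℕ → B → ℂ}
    {g : ℕ → ℂ → ℂ} (hχ : ∀ n, Bump 1 (χ n))
    (h3 : ∀ b, ∃ U ∈ 𝓝 b, ∀ᶠ n in atTop, ∀ y ∈ U, χ n y = 1)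
    (hg : ∀ n b, dbar 1 (fn 1 (χ n)) b = g n (s b) • cj (dd (fn 1 s) b))
    (hdec : Tendsto (fun n => ∫⁻ y, ‖g n (s (p y))‖ₑ *
      ‖dens (a * pb p (cf (dd (fn 1 s)))) y‖ₑ ∂mu 3 T) atTop (𝓝 0)) {φ : B → ℂ} (hφ : Tst φ) :
    itg ((φ ∘ p) • (a * pb p (cf (dd (fn 1 s))))) = 0 := by
  obtain ⟨h', hf'⟩ := van_fi hp hpr hs h1 h2 hk
  obtain ⟨h, hf, hreal⟩ := van_fi_real hr hf'
  have hds : Sm 1 (cf (dd (fn 1 s))) univ := fun b _ => (hs b).smAt.dd.cf_one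
  have hty : Ty 0 1 (cf (dd (fn 1 s))) := fun b => by
    rw [cf, dd_of_hol (hs b)]
    exact cj_Tp ((fn_Ty s).dp b)
  have hdb : ∀ {u : B → ℂ}, Sm 1 (fn 1 u) univ → HasCompactSupport u →
      Sm 1 (dbar 1 (fn 1 u)) univ ∧ HasCompactSupport (dbar 1 (fn 1 u)) := fun hu hc =>
    ⟨fun b hb => (hu b hb).dbar gok_one,
      (vanPt_fn hc).of_isClosed_subset (isClosed_tsupport _) tsupport_dbar⟩
  have key := van_curve hf.1 hreal (fun u hu => ?_) hχ h3 fun ψ hψ hb => ?_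
  · rw [← mul_smul_comm, ← pb_fsmul, van_two hp hpr hk hk4 hf ht e
      (fun b hb => (hφ.1 b hb).fsmul_one (hds b hb)) (fun b => Submodule.smul_mem _ _ (hty b))
      hφ.2.smul_right, ← itg_zero (n := 1) (X := B)]
    congr 1
    funext b
    rw [Pi.mul_apply, dd_eq, Pi.add_apply, key b, zero_add]
    exact vanPt_zero ((fn_Ty h).dbar b) (Submodule.smul_mem _ _ (hty b)) (by norm_num)
  · rw [← van_two hp hpr hk hk4 hf ht e (hdb hu.1 hu.2).1 (fn_Ty u).dbar (hdb hu.1 hu.2).2]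
    exact van_three hp hpr ha ht hd hu
  · rw [tendsto_iff_enorm_sub_tendsto_zero]
    refine tendsto_of_tendsto_of_tendsto_of_le_of_le tendsto_const_nhds hdec (fun _ => zero_le)
      fun n => ?_
    obtain ⟨b1, b2⟩ := hdb (hχ n).sm (hχ n).cs
    have e1 : ψ • dbar 1 (fn 1 (χ n)) = (fun b => ψ b * g n (s b)) • cf (dd (fn 1 s)) := by
      funext b
      rw [Pi.smul_apply', hg, smul_smul]
      rfl
    simp only [sub_zero]
    rw [← van_two hp hpr hk hk4 hf ht e (fun b hb => (hψ b hb).fsmul_one (b1 b hb))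
      (fun b => Submodule.smul_mem _ _ ((fn_Ty _).dbar b)) b2.smul_left, e1, pb_fsmul,
      mul_smul_comm, itg, dens_fsmul]
    refine (enorm_integral_le_lintegral_enorm _).trans (lintegral_mono fun y => ?_)
    simp only [Pi.mul_apply, Function.comp_apply, enorm_mul]
    gcongr
    refine mul_le_of_le_one_left' ?_
    rw [← ofReal_norm]
    exact ENNReal.ofReal_le_one.2 (hb _)

end

end Pool.Agent.MP_1c689d_ag.K0

end

section

/-! Affine coordinates. -/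

set_option autoImplicit false

open Complex Filter Topology Set MeasureTheory MvPolynomial
open scoped ComplexConjugate ContDiff ENNReal

namespace Pool.Agent.MP_1c689d_ag.K0

noncomputable section

variable {n N M : ℕ} {T : Type} [TopologicalSpace T]

theorem vanPw1_comm {A : Type} [AddCommMonoid A]
    (f : Fin N → Fin N → Fin N → Fin N → Fin N → Fin N → A) :
    ∑ i', ∑ j', ∑ k', ∑ k, ∑ j, ∑ i, f i j k i' j' k' =
      ∑ i, ∑ j, ∑ k, ∑ i', ∑ j', ∑ k', f i j k i' j' k' := by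
  simp only [← Fintype.sum_prod_type']
  exact Fintype.sum_equiv
    ⟨fun p => (p.2.2.2.2.2, p.2.2.2.2.1, p.2.2.2.1, p.1, p.2.1, p.2.2.1),
      fun p => (p.2.2.2.1, p.2.2.2.2.1, p.2.2.2.2.2, p.2.2.1, p.2.1, p.1),
      fun _ => rfl, fun _ => rfl⟩ _ _ fun _ => rfl

/-- `PMAt.Dx_affine`; all coordinates of a unit vector have norm at most one. -/
theorem van_aff [Mf n T] {x : T → Fin N → ℂ} {y : T} (h : PMAt x y) {a : Fin N} (h0 : x y a ≠ 0)
    (l : Fin N) : ∃ c : Fin N → ℂ, (∀ j, ‖c j‖ ≤ 2) ∧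
      (Dx x l y : Λ n) = ∑ j, c j • dd (fn n (vr x a j)) y := by
  have h1 : ∀ j, ‖x y j‖ ≤ 1 := fun j => by
    have h2 := Finset.single_le_sum (f := fun l => normSq (x y l)) (fun l _ => normSq_nonneg _)
      (Finset.mem_univ j)
    rw [h.unit.self_of_nhds, normSq_eq_norm_sq] at h2
    exact (pow_le_one_iff_of_nonneg (norm_nonneg _) two_ne_zero).1 h2
  refine ⟨_, fun j => ?_, h.Dx_affine h0 l⟩
  have h3 : ‖(if l = j then 1 else 0 : ℂ)‖ ≤ 1 := by split_ifs <;> simp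
  have h4 : ‖x y l * conj (x y j)‖ ≤ 1 := by
    rw [norm_mul, norm_conj]
    exact mul_le_one₀ (h1 l) (norm_nonneg _) (h1 j)
  rw [norm_mul]
  exact (mul_le_of_le_one_left (norm_nonneg _) (h1 a)).trans
    ((norm_sub_le _ _).trans (by linarith))

theorem van_eta_aff [Mf n T] {ξ : T → Fin N → ℂ} {η : Fm n T} {C : ℝ} {y : T} (h : PMAt ξ y)
    {a : Fin N} (h0 : ξ y a ≠ 0) (hb : VBd ξ η C y) :
    ∃ c : Fin N → Fin N → Fin N → ℂ, (∀ i j k, ‖c i j k‖ ≤ 8 * N ^ 3 * C) ∧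
      η y = ∑ i, ∑ j, ∑ k, c i j k • (dd (fn n (vr ξ a i)) y * dd (fn n (vr ξ a j)) y *
        cj (dd (fn n (vr ξ a k)) y)) := by
  obtain ⟨c, hc, e⟩ := hb
  choose d hd he using van_aff h h0
  refine ⟨fun i j k => ∑ i', ∑ j', ∑ k', c i' j' k' * (d i' i * d j' j * conj (d k' k)),
    fun i j k => ?_, ?_⟩
  · have b : ∀ i' j' k', ‖c i' j' k' * (d i' i * d j' j * conj (d k' k))‖ ≤ 8 * C := by
      intro i' j' k'
      rw [norm_mul, norm_mul, norm_mul, norm_conj]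
      have := mul_le_mul (mul_le_mul (hd i' i) (hd j' j) (norm_nonneg _) zero_le_two) (hd k' k)
        (norm_nonneg _) (by norm_num)
      have h1 := mul_le_mul (hc i' j' k') this (by positivity) ((norm_nonneg _).trans (hc i' j' k'))
      linarith
    refine (norm_sum_le_of_le _ fun i' _ => norm_sum_le_of_le _ fun j' _ =>
      norm_sum_le_of_le _ fun k' _ => b i' j' k').trans (le_of_eq ?_)
    simp only [Finset.sum_const, Finset.card_univ, Fintype.card_fin, nsmul_eq_mul]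
    ring
  · rw [e]
    simp only [he, map_sum, cj_smul, Finset.sum_mul, Finset.mul_sum, smul_mul_smul_comm,
      Finset.smul_sum, Finset.sum_smul, smul_smul]
    exact vanPw1_comm _

/-- `PMAt.Th_eq`. -/
theorem van_th_aff [Mf n T] {x : T → Fin N → ℂ} {y : T} (h : PMAt x y) {a : Fin N}
    (h0 : x y a ≠ 0) : ∃ c : Fin N → Fin N → ℂ, (∀ i j, ‖c i j‖ ≤ 4 * N) ∧
      (Th x y : Λ n) = ∑ i, ∑ j, c i j • (dd (fn n (vr x a i)) y * cj (dd (fn n (vr x a j)) y)) := by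
  choose d hd he using van_aff h h0
  refine ⟨fun i j => ∑ l, d l i * conj (d l j), fun i j => ?_, ?_⟩
  · have b : ∀ l, ‖d l i * conj (d l j)‖ ≤ 4 := fun l => by
      rw [norm_mul, norm_conj]
      have := mul_le_mul (hd l i) (hd l j) (norm_nonneg _) zero_le_two
      linarith
    refine (norm_sum_le_of_le _ fun l _ => b l).trans (le_of_eq ?_)
    simp only [Finset.sum_const, Finset.card_univ, Fintype.card_fin, nsmul_eq_mul]
    ring
  · rw [h.Th_eq]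
    simp only [he, map_sum, cj_smul, Finset.sum_mul, Finset.mul_sum, smul_mul_smul_comm,
      Finset.sum_smul]
    rw [Finset.sum_comm]
    refine (Finset.sum_congr rfl fun j _ => Finset.sum_comm).trans Finset.sum_comm

end

end Pool.Agent.MP_1c689d_ag.K0

end

section

/-! The pointwise bound. -/

set_option autoImplicit false

open Complex Filter Topology Set MeasureTheory MvPolynomial
open scoped ComplexConjugate ContDiff ENNReal

namespace Pool.Agent.MP_1c689d_ag.K0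

noncomputable section

variable {T : Type} [TopologicalSpace T] [Mf 3 T]

theorem vanPw_dg (g : T → ℂ) (y : T) : ∃ v, dd (fn 3 g) y = io v := ⟨_, MF3_dd_fn g y⟩

theorem vanPw_ord {a0 a1 a2 a3 a4 t : Λ 3}
    (h2 : ∃ v, a2 = io v) (h3 : ∃ v, a3 = io v) (h4 : ∃ v, a4 = io v) (ht : ∃ v, t = io v) :
    a0 * a1 * cj a3 * (a2 * cj a4) * cj t = -(a0 * a1 * a2 * cj (t * a3 * a4)) := by
  obtain ⟨v2, rfl⟩ := h2
  obtain ⟨v3, rfl⟩ := h3
  obtain ⟨v4, rfl⟩ := h4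
  obtain ⟨w, rfl⟩ := ht
  simp only [map_mul, cj_io, mul_assoc]
  rw [EA3_sw' (vc v3) v2, EA3_sw (vc v4) (vc w), EA3_sw' (vc w) (vc v3)]
  simp only [mul_neg]

theorem vanPw_one {g : T → ℂ} {y : T} (h : HolAt 1 g y) : dd (fn 3 g) y ∈ Tp 3 1 0 := by
  rw [dd_of_hol h]
  exact (fn_Ty g).dp y

theorem vanPw_three {g0 g1 g2 : T → ℂ} {y : T} (h0 : HolAt 1 g0 y) (h1 : HolAt 1 g1 y)
    (h2 : HolAt 1 g2 y) : dd (fn 3 g0) y * dd (fn 3 g1) y * dd (fn 3 g2) y ∈ Tp 3 3 0 :=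
  Tp_mul (p := 2) (q := 0) (p' := 1) (q' := 0) (Tp_mul (p := 1) (q := 0) (p' := 1) (q' := 0)
    (vanPw_one h0) (vanPw_one h1)) (vanPw_one h2)

theorem vanPw_sq {x a b : ℂ} (h : ‖x‖ ^ 2 = 8 ^ 2 * (‖a‖ * ‖b‖)) :
    ‖x‖ₑ ≤ 8 * (‖a‖ₑ * ‖b‖ₑ) ^ (1 / 2 : ℝ) := by
  have h1 : ‖x‖ₑ ^ 2 = 8 ^ 2 * (‖a‖ₑ * ‖b‖ₑ) := by
    rw [← ofReal_norm, ← ENNReal.ofReal_pow (norm_nonneg _), h,
      ENNReal.ofReal_mul (by positivity), ENNReal.ofReal_mul (norm_nonneg _),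
      ENNReal.ofReal_pow (by positivity), ofReal_norm, ofReal_norm,
      ENNReal.ofReal_ofNat]
  have h2 : ∀ u : ℝ≥0∞, (u ^ 2) ^ (1 / 2 : ℝ) = u := fun u => by
    rw [one_div]
    exact_mod_cast ENNReal.pow_rpow_inv_natCast two_ne_zero u
  rw [← h2 ‖x‖ₑ, h1, ENNReal.mul_rpow_of_nonneg _ _ (by positivity), h2]

theorem vanPw_exp {N M : ℕ} (r : ℂ) (c : Fin N → Fin N → Fin N → ℂ) (e : Fin M → Fin M → ℂ)
    (A : Fin N → Fin N → Fin N → Λ 3) (B : Fin M → Fin M → Λ 3) (w : Λ 3) :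
    r * top ((∑ i, ∑ j, ∑ k, c i j k • A i j k) * (∑ i, ∑ j, e i j • B i j) * w) =
      ∑ z : Fin N × Fin N × Fin N × Fin M × Fin M, c z.1 z.2.1 z.2.2.1 * e z.2.2.2.1 z.2.2.2.2 *
        (r * top (A z.1 z.2.1 z.2.2.1 * B z.2.2.2.1 z.2.2.2.2 * w)) := by
  simp only [Fintype.sum_prod_type, Finset.sum_mul]
  simp only [Finset.mul_sum, Finset.sum_mul, smul_mul_assoc, mul_smul_comm, map_sum, map_smul,
    smul_eq_mul]
  refine Finset.sum_congr rfl fun _ _ => Finset.sum_congr rfl fun _ _ =>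
    Finset.sum_congr rfl fun _ _ => Finset.sum_congr rfl fun _ _ =>
    Finset.sum_congr rfl fun _ _ => ?_
  ring

theorem vanPw_sum {ι : Type} [Fintype ι] (c x : ι → ℂ) (J : ι → ℝ≥0∞) {C : ℝ}
    (hc : ∀ z, ‖c z‖ ≤ C) (hx : ∀ z, ‖x z‖ₑ ≤ 8 * J z) :
    ‖∑ z, c z * x z‖ₑ ≤ ENNReal.ofReal C * 8 * ∑ z, J z := by
  rw [Finset.mul_sum]
  refine (enorm_sum_le _ _).trans (Finset.sum_le_sum fun z _ => ?_)
  rw [enorm_mul, mul_assoc, ← ofReal_norm]
  exact mul_le_mul' (ENNReal.ofReal_le_ofReal (hc z)) (hx z)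

theorem van_hmap {g0 g1 g2 : T → ℂ} {y : T} (h0 : HolAt 1 g0 y) (h1 : HolAt 1 g1 y)
    (h2 : HolAt 1 g2 y) : HMap (VM g0 g1 g2) y := by
  refine hmap_iff_holAt.2 fun j => ?_
  fin_cases j
  exacts [h0, h1, h2]

/-- `dd_coord`, `EA2_vol`, `EA3_P3`, `lm_cj`. -/
theorem van_jac {g0 g1 g2 : T → ℂ} {y : T} (h0 : HolAt 1 g0 y) (h1 : HolAt 1 g1 y)
    (h2 : HolAt 1 g2 y) :
    ‖top (dd (fn 3 g0) y * dd (fn 3 g1) y * dd (fn 3 g2) y *
      cj (dd (fn 3 g0) y * dd (fn 3 g1) y * dd (fn 3 g2) y))‖ =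
      8 * ‖top (pb (VM g0 g1 g2) (fun _ => vol 3) y)‖ := by
  have h := van_hmap h0 h1 h2
  have e0 : dd (fn 3 g0) y = lm (df (VM g0 g1 g2) y) (dz 0) := dd_coord h 0
  have e1 : dd (fn 3 g1) y = lm (df (VM g0 g1 g2) y) (dz 1) := dd_coord h 1
  have e2 : dd (fn 3 g2) y = lm (df (VM g0 g1 g2) y) (dz 2) := dd_coord h 2
  rw [e0, e1, e2, ← map_mul, ← map_mul, ← lm_cj, ← map_mul, pb, top_lm, top_lm, top_vol]
  simp only [map_mul, cj_dz, mul_assoc, EA3_top3, norm_mul, norm_neg, norm_I, norm_one,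
    Complex.norm_ofNat]
  ring

/-- Reorder the six one-forms (`comm_Dg`, or `EA3_sw'` after `mem_Dg1`): the product is
`-(A * cj A')` with `A = dg0 * dg1 * dg2` and `A' = dt * dg3 * dg4`; `cs30`, `van_jac`,
`exists_jac`. -/
theorem van_cs {g0 g1 g2 g3 g4 t : T → ℂ} {y : T} (h0 : HolAt 1 g0 y) (h1 : HolAt 1 g1 y)
    (h2 : HolAt 1 g2 y) (h3 : HolAt 1 g3 y) (h4 : HolAt 1 g4 y) (ht : HolAt 1 t y) :
    ‖dens (dd (fn 3 g0) * dd (fn 3 g1) * cf (dd (fn 3 g3)) *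
      (dd (fn 3 g2) * cf (dd (fn 3 g4))) * cf (dd (fn 3 t))) y‖ₑ ≤
      8 * (VJ (VM g0 g1 g2) y * VJ (VM t g3 g4) y) ^ (1 / 2 : ℝ) := by
  obtain ⟨jac, -, hj⟩ := exists_jac 3 T
  have h := cs30 (vanPw_three h0 h1 h2) (vanPw_three ht h3 h4)
  rw [van_jac h0 h1 h2, van_jac ht h3 h4] at h
  refine vanPw_sq ?_
  simp only [hj, Pi.mul_apply, cf]
  rw [vanPw_ord (vanPw_dg g2 y) (vanPw_dg g3 y) (vanPw_dg g4 y) (vanPw_dg t y),
    map_neg, norm_mul, norm_neg, mul_pow, h, norm_mul, norm_mul]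
  ring

/-- Expand; `exists_jac` shows that `dens α y` is a linear function of `α y`. -/
theorem van_pw (N M : ℕ) (C : ℝ) : ∃ C' : ℝ≥0∞, C' ≠ ⊤ ∧ ∀ (ξ : T → Fin N → ℂ)
    (W : T → Fin M → ℂ) (t : T → ℂ) (η : Fm 3 T) (y : T) (a : Fin N) (b : Fin M), PMAt ξ y →
    PMAt W y → ξ y a ≠ 0 → W y b ≠ 0 → HolAt 1 t y → VBd ξ η C y →
    ‖dens (η * Th W * cf (dd (fn 3 t))) y‖ₑ ≤ C' *
      ∑ z : Fin N × Fin N × Fin N × Fin M × Fin M,
        (VJ (VM (vr ξ a z.1) (vr ξ a z.2.1) (vr W b z.2.2.2.1)) y *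
          VJ (VM t (vr ξ a z.2.2.1) (vr W b z.2.2.2.2)) y) ^ (1 / 2 : ℝ) := by
  refine ⟨ENNReal.ofReal (8 * N ^ 3 * C * (4 * M)) * 8,
    ENNReal.mul_ne_top ENNReal.ofReal_ne_top ENNReal.ofNat_ne_top,
    fun ξ W t η y a b hξ hW ha hb ht hη => ?_⟩
  obtain ⟨jac, -, hj⟩ := exists_jac 3 T
  have r1 : ∀ i, HolAt 1 (vr ξ a i) y := fun i => hξ.hol a i ha
  have r2 : ∀ i, HolAt 1 (vr W b i) y := fun i => hW.hol b i hb
  obtain ⟨c, c1, c2⟩ := van_eta_aff hξ ha hη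
  obtain ⟨e, e1, e2⟩ := van_th_aff (n := 3) hW hb
  have key : dens (η * Th W * cf (dd (fn 3 t))) y =
      ∑ z : Fin N × Fin N × Fin N × Fin M × Fin M,
        c z.1 z.2.1 z.2.2.1 * e z.2.2.2.1 z.2.2.2.2 *
        dens (dd (fn 3 (vr ξ a z.1)) * dd (fn 3 (vr ξ a z.2.1)) * cf (dd (fn 3 (vr ξ a z.2.2.1))) *
          (dd (fn 3 (vr W b z.2.2.2.1)) * cf (dd (fn 3 (vr W b z.2.2.2.2)))) *
          cf (dd (fn 3 t))) y := by
    simp only [hj, Pi.mul_apply, cf]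
    rw [c2, e2]
    exact vanPw_exp (jac y) c e (fun i j k => dd (fn 3 (vr ξ a i)) y * dd (fn 3 (vr ξ a j)) y *
      cj (dd (fn 3 (vr ξ a k)) y))
      (fun i j => dd (fn 3 (vr W b i)) y * cj (dd (fn 3 (vr W b j)) y)) _
  rw [key]
  exact vanPw_sum _ _ _ (fun z => (norm_mul _ _).trans_le (mul_le_mul (c1 z.1 z.2.1 z.2.2.1)
    (e1 z.2.2.2.1 z.2.2.2.2) (norm_nonneg _) ((norm_nonneg _).trans (c1 z.1 z.2.1 z.2.2.1))))
    fun z => van_cs (r1 z.1) (r1 z.2.1) (r2 z.2.2.2.1) (r1 z.2.2.1) (r2 z.2.2.2.2) ht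

end

end Pool.Agent.MP_1c689d_ag.K0

end

section

/-! The integral estimate for one term. -/

set_option autoImplicit false

open Complex Filter Topology Set MeasureTheory MvPolynomial
open scoped ComplexConjugate ContDiff ENNReal

namespace Pool.Agent.MP_1c689d_ag.K0

noncomputable section

/-- Hölder (`ENNReal.lintegral_mul_le_Lp_mul_Lq` with `p = q = 2`) for the factors
`indicator {G n ≠ 0} (J1 ^ (1/2))` and `G n * J2 ^ (1/2)`; dominated convergence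
(`tendsto_lintegral_of_dominated_convergence'`) for the first factor. -/
theorem van_ms {Y : Type} [MeasurableSpace Y] {μ : Measure Y} {J1 J2 : Y → ℝ≥0∞}
    (h1 : AEMeasurable J1 μ) (h2 : AEMeasurable J2 μ) (hf : ∫⁻ y, J1 y ∂μ ≠ ⊤)
    {G : ℕ → Y → ℝ≥0∞} (hG : ∀ n, AEMeasurable (G n) μ) {C : ℝ≥0∞} (hC : C ≠ ⊤)
    (hb : ∀ n, ∫⁻ y, G n y ^ 2 * J2 y ∂μ ≤ C) (h0 : ∀ y, ∀ᶠ n in atTop, G n y = 0) :
    Tendsto (fun n => ∫⁻ y, G n y * (J1 y * J2 y) ^ (1 / 2 : ℝ) ∂μ) atTop (𝓝 0) := by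
  have hm : ∀ n, AEMeasurable (fun y => min (⊤ * G n y) 1 * J1 y) μ := fun n =>
    (((hG n).const_mul ⊤).min aemeasurable_const).mul h1
  have t1 : Tendsto (fun n => ∫⁻ y, min (⊤ * G n y) 1 * J1 y ∂μ) atTop (𝓝 0) := by
    have := tendsto_lintegral_of_dominated_convergence' (f := fun _ => 0) J1 hm
      (fun n => ae_of_all _ fun y => mul_le_of_le_one_left zero_le (min_le_right _ _)) hf
      (ae_of_all _ fun y => tendsto_const_nhds.congr' ((h0 y).mono fun n hn => by simp [hn]))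
    rwa [lintegral_zero] at this
  have t2 := ENNReal.Tendsto.mul_const (b := C ^ (1 / 2 : ℝ))
    ((ENNReal.continuous_rpow_const (y := (1 / 2 : ℝ))).continuousAt.tendsto.comp t1)
    (Or.inr (ENNReal.rpow_ne_top_of_nonneg (by norm_num) hC))
  rw [ENNReal.zero_rpow_of_pos (by norm_num), zero_mul] at t2
  refine tendsto_of_tendsto_of_tendsto_of_le_of_le tendsto_const_nhds t2 (fun _ => zero_le)
    fun n => ?_
  have e : ∀ a : ℝ≥0∞, (a ^ (1 / 2 : ℝ)) ^ (2 : ℝ) = a := fun a => by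
    rw [← ENNReal.rpow_mul]
    norm_num
  have h3 := ENNReal.lintegral_mul_le_Lp_mul_Lq μ Real.HolderConjugate.two_two
    ((hm n).pow_const (1 / 2 : ℝ)) ((hG n).mul (h2.pow_const (1 / 2 : ℝ)))
  simp only [Pi.mul_apply, e, ENNReal.mul_rpow_of_nonneg _ _ (zero_le_two (α := ℝ))] at h3
  simp only [ENNReal.rpow_two] at h3
  refine le_trans (le_of_eq (lintegral_congr fun y => ?_)) (h3.trans
    (mul_le_mul_right (ENNReal.rpow_le_rpow (hb n) (by norm_num)) _))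
  by_cases hy : G n y = 0
  · simp [hy]
  · rw [ENNReal.top_mul hy, min_eq_right le_top, one_mul,
      ENNReal.mul_rpow_of_nonneg _ _ (by norm_num), mul_left_comm]

/-- Fubini (`volume_preserving_piFinSuccAbove`, `lintegral_prod_mul`). -/
theorem van_vol : ∃ c : ℝ≥0∞, c ≠ ⊤ ∧ ∀ g : ℂ → ℝ≥0∞, Measurable g →
    ∫⁻ w in {w : E 3 | ‖w 1‖ ≤ 1 ∧ ‖w 2‖ ≤ 1}, g (w 0) ≤ c * ∫⁻ z, g z := by
  refine ⟨volume (Metric.closedBall (0 : Fin 2 → ℂ) 1), measure_closedBall_lt_top.ne,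
    fun g hg => ?_⟩
  have h := (volume_preserving_piFinSuccAbove (fun _ : Fin 3 => ℂ) 0).setLIntegral_comp_preimage_emb
    (MeasurableEquiv.measurableEmbedding _) (fun z => g z.1 * 1)
    (univ ×ˢ Metric.closedBall (0 : Fin 2 → ℂ) 1)
  rw [Measure.volume_eq_prod, ← Measure.prod_restrict,
    lintegral_prod_mul (g := fun _ => 1) hg.aemeasurable aemeasurable_const, Measure.restrict_univ,
    setLIntegral_one] at h
  rw [mul_comm, ← h]
  simp only [mul_one]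
  refine lintegral_mono_set fun w hw => ⟨trivial, ?_⟩
  rw [mem_closedBall_zero_iff, pi_norm_le_iff_of_nonneg zero_le_one, Fin.forall_fin_two]
  exact hw

variable {T : Type} [TopologicalSpace T] [Mf 3 T] [MeasurableSpace T] [BorelSpace T]

/-- `aesm_dens`, `SmAt.pb`, `smAt_E`. -/
theorem van_vj_meas {O : Set T} (hO : IsOpen O) {u : T → E 3} (hu : ∀ y ∈ O, HMap u y) :
    AEMeasurable (VJ u) ((mu 3 T).restrict O) := by
  refine (aesm_dens hO fun y hy => ?_).enorm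
  have h : SmAt (1 : Ga (E 3)) (fun _ => vol 3) (u y) :=
    smAt_E.2 (Eventually.of_forall fun _ => contDiffAt_const)
  have h1 := h.pb (hu y hy)
  rwa [gpb_one] at h1

/-- `van_ms` for the measure restricted to `A`; `area_le` twice. The function `v` is continuous on
`O`, so it is almost everywhere measurable on `A`. -/
theorem van_term {O A : Set T} (hO : IsOpen O) (hA : MeasurableSet A) (hAO : A ⊆ O)
    {u v : T → E 3} (hu : ∀ y ∈ O, HMap u y) (hv : ∀ y ∈ O, HMap v y) (fu : VFb u univ)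
    (fv : VFb v univ) (bu : ∀ y ∈ A, ‖u y‖ ≤ 1) (bv : ∀ y ∈ A, ‖v y 1‖ ≤ 1 ∧ ‖v y 2‖ ≤ 1)
    {g : ℕ → ℂ → ℂ} (hg : ∀ n, Measurable (g n)) {C : ℝ≥0∞} (hC : C ≠ ⊤)
    (hb : ∀ n, ∫⁻ w, ‖g n w‖ₑ ^ 2 ≤ C) (h0 : ∀ y, ∀ᶠ n in atTop, g n (v y 0) = 0) :
    Tendsto (fun n => ∫⁻ y in A, ‖g n (v y 0)‖ₑ * (VJ u y * VJ v y) ^ (1 / 2 : ℝ) ∂mu 3 T)
      atTop (𝓝 0) := by
  obtain ⟨N, hN⟩ := fu
  obtain ⟨M, hM⟩ := fv
  obtain ⟨c, hc, hv'⟩ := van_vol
  have hle : (mu 3 T).restrict A ≤ (mu 3 T).restrict O := Measure.restrict_mono hAO le_rfl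
  have hm : ∀ n, Measurable fun w => ‖g n w‖ₑ ^ 2 := fun n => (hg n).enorm.pow_const 2
  refine van_ms (C := M * (c * C)) ((van_vj_meas hO hu).mono_measure hle)
    ((van_vj_meas hO hv).mono_measure hle) ?_ (fun n => ?_)
    (ENNReal.mul_ne_top (ENNReal.natCast_ne_top M) (ENNReal.mul_ne_top hc hC)) (fun n => ?_)
    fun y => (h0 y).mono fun n hn => by rw [hn, enorm_zero]
  · have h := area_le hO hu hA hAO (N := N) (hN.mono fun w hw =>
      (encard_le_encard (inter_subset_inter_left _ (subset_univ A))).trans hw)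
      (g := fun _ => 1) measurable_const
    simp only [one_mul, setLIntegral_one] at h
    refine ne_top_of_le_ne_top (ENNReal.mul_ne_top (ENNReal.natCast_ne_top N) ?_) h
    refine ((measure_mono ?_).trans_lt (measure_closedBall_lt_top (x := (0 : E 3)) (r := 1))).ne
    rintro _ ⟨y, hy, rfl⟩
    exact mem_closedBall_zero_iff.2 (bu y hy)
  · have h : ContinuousOn (fun y => v y 0) A := fun y hy =>
      ((continuous_apply 0).continuousAt.comp (hv y (hAO hy)).continuousAt).continuousWithinAt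
    exact (hg n).enorm.comp_aemeasurable (h.aemeasurable hA)
  · refine (area_le hO hv hA hAO (N := M) (hM.mono fun w hw =>
      (encard_le_encard (inter_subset_inter_left _ (subset_univ A))).trans hw)
      (g := fun w => ‖g n (w 0)‖ₑ ^ 2) ((hm n).comp (measurable_pi_apply 0))).trans
      (mul_le_mul_right (le_trans (lintegral_mono_set ?_)
        ((hv' _ (hm n)).trans (mul_le_mul_right (hb n) _))) _)
    rintro _ ⟨y, hy, rfl⟩
    exact bv y hy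

end

end Pool.Agent.MP_1c689d_ag.K0

end

section

/-! The decay estimate. -/

set_option autoImplicit false

open Complex Filter Topology Set MeasureTheory MvPolynomial
open scoped ComplexConjugate ContDiff ENNReal

namespace Pool.Agent.MP_1c689d_ag.K0

noncomputable section

variable {n N M : ℕ} {T : Type} [TopologicalSpace T]

/-- The set where the coordinate `a` has maximal norm. -/
def VMx (x : T → Fin N → ℂ) (a : Fin N) : Set T := {y | ∀ i, ‖x y i‖ ≤ ‖x y a‖}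

/-- `continuous_norm_ev` for `X i`, `PMAt.ne_zero`, `Finite.exists_max`. -/
theorem van_mx [Mf n T] {x : T → Fin N → ℂ} (h : ∀ y, PMAt x y) :
    (∀ a, IsClosed (VMx x a)) ∧ (∀ a, IsOpen {y | x y a ≠ 0}) ∧
      (∀ a, ∀ y ∈ VMx x a, x y a ≠ 0 ∧ ∀ i, ‖vr x a i y‖ ≤ 1) ∧ ∀ y, ∃ a, y ∈ VMx x a := by
  have hc : ∀ a, Continuous fun y => ‖x y a‖ := fun a => by
    simpa only [ev, eval_X] using continuous_norm_ev (n := n) h (isHomogeneous_X ℂ a)
  refine ⟨fun a => ?_, fun a => ?_, fun a y hy => ?_, fun y => ?_⟩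
  · simpa only [VMx, ofPred_forall] using isClosed_iInter fun i => isClosed_le (hc i) (hc a)
  · simpa only [norm_pos_iff] using isOpen_lt (continuous_const (y := (0 : ℝ))) (hc a)
  · have h0 : x y a ≠ 0 := fun h0 => (h y).ne_zero (funext fun i => by
      simpa only [h0, norm_zero, norm_le_zero_iff, Pi.zero_apply] using hy i)
    refine ⟨h0, fun i => ?_⟩
    rw [vr, norm_div]
    exact div_le_one_of_le₀ (hy i) (norm_nonneg _)
  · obtain ⟨l, -⟩ := Function.ne_iff.1 (h y).ne_zero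
    have : Nonempty (Fin N) := ⟨l⟩
    exact Finite.exists_max fun i => ‖x y i‖

variable [Mf 3 T] [MeasurableSpace T] [BorelSpace T] {ξ : T → Fin N → ℂ} {W : T → Fin M → ℂ}
  {t : T → ℂ} {η : Fm 3 T} {C0 : ℝ} {g : ℕ → ℂ → ℂ} {C : ℝ≥0∞}

/-- `van_pw`, `lintegral_const_mul'`, `lintegral_finset_sum'` (`van_vj_meas`), `van_term` with
`O = {ξ y a ≠ 0 ∧ W y b ≠ 0}` (`PMAt.hol`, `van_hmap`), `tendsto_finset_sum`,
`ENNReal.Tendsto.const_mul`. -/
theorem van_dec_piece (hξ : ∀ y, PMAt ξ y) (hW : ∀ y, PMAt W y) (ht : ∀ y, HolAt 1 t y)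
    (hη : ∀ y, VBd ξ η C0 y) (a : Fin N) (b : Fin M)
    (f1 : ∀ i j l, VFb (VM (vr ξ a i) (vr ξ a j) (vr W b l)) univ)
    (f2 : ∀ i l, VFb (VM t (vr ξ a i) (vr W b l)) univ) (hg : ∀ n, Measurable (g n))
    (hC : C ≠ ⊤) (hb : ∀ n, ∫⁻ w, ‖g n w‖ₑ ^ 2 ≤ C) (h0 : ∀ y, ∀ᶠ n in atTop, g n (t y) = 0) :
    Tendsto (fun n => ∫⁻ y in VMx ξ a ∩ VMx W b, ‖g n (t y)‖ₑ *
      ‖dens (η * Th W * cf (dd (fn 3 t))) y‖ₑ ∂mu 3 T) atTop (𝓝 0) := by
  obtain ⟨c1, o1, b1, -⟩ := van_mx (n := 3) hξ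
  obtain ⟨c2, o2, b2, -⟩ := van_mx (n := 3) hW
  obtain ⟨C', hC', hpw⟩ := van_pw (T := T) N M C0
  have hO : IsOpen ({y | ξ y a ≠ 0} ∩ {y | W y b ≠ 0}) := (o1 a).inter (o2 b)
  have hA : MeasurableSet (VMx ξ a ∩ VMx W b) := ((c1 a).inter (c2 b)).measurableSet
  have hAO : VMx ξ a ∩ VMx W b ⊆ {y | ξ y a ≠ 0} ∩ {y | W y b ≠ 0} := fun y hy =>
    ⟨(b1 a y hy.1).1, (b2 b y hy.2).1⟩
  have hu : ∀ i j l, ∀ y ∈ {y | ξ y a ≠ 0} ∩ {y | W y b ≠ 0},
      HMap (VM (vr ξ a i) (vr ξ a j) (vr W b l)) y := fun i j l y hy =>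
    van_hmap ((hξ y).hol a i hy.1) ((hξ y).hol a j hy.1) ((hW y).hol b l hy.2)
  have hv : ∀ i l, ∀ y ∈ {y | ξ y a ≠ 0} ∩ {y | W y b ≠ 0},
      HMap (VM t (vr ξ a i) (vr W b l)) y := fun i l y hy =>
    van_hmap (ht y) ((hξ y).hol a i hy.1) ((hW y).hol b l hy.2)
  have htm : Measurable t :=
    (continuous_iff_continuousAt.2 fun y => (ht y).smAt.continuousAt).measurable
  let F : Fin N × Fin N × Fin N × Fin M × Fin M → ℕ → T → ℝ≥0∞ := fun z n y =>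
    ‖g n (t y)‖ₑ * (VJ (VM (vr ξ a z.1) (vr ξ a z.2.1) (vr W b z.2.2.2.1)) y *
      VJ (VM t (vr ξ a z.2.2.1) (vr W b z.2.2.2.2)) y) ^ (1 / 2 : ℝ)
  have hF : ∀ z, Tendsto (fun n => ∫⁻ y in VMx ξ a ∩ VMx W b, F z n y ∂mu 3 T) atTop (𝓝 0) :=
    fun z => van_term hO hA hAO (hu _ _ _) (hv _ _) (f1 _ _ _) (f2 _ _)
      (fun y hy => (pi_norm_le_iff_of_nonneg zero_le_one).2 fun i => by
        fin_cases i
        exacts [(b1 a y hy.1).2 _, (b1 a y hy.1).2 _, (b2 b y hy.2).2 _])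
      (fun y hy => ⟨(b1 a y hy.1).2 _, (b2 b y hy.2).2 _⟩) hg hC hb h0
  have hFm : ∀ z n, AEMeasurable (F z n) ((mu 3 T).restrict (VMx ξ a ∩ VMx W b)) := fun z n =>
    ((hg n).comp htm).enorm.aemeasurable.mul
      ((((van_vj_meas hO (hu _ _ _)).mul (van_vj_meas hO (hv _ _))).mono_measure
        (Measure.restrict_mono hAO le_rfl)).pow_const _)
  have hl := ENNReal.Tendsto.const_mul (a := C')
    (tendsto_finsetSum Finset.univ fun z _ => hF z) (Or.inr hC')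
  rw [Finset.sum_const_zero, mul_zero] at hl
  refine tendsto_of_tendsto_of_tendsto_of_le_of_le tendsto_const_nhds hl
    (fun _ => zero_le) fun n => ?_
  dsimp only
  rw [← lintegral_finsetSum' _ fun z _ => hFm z n, ← lintegral_const_mul' _ _ hC']
  refine setLIntegral_mono' hA fun y hy => ?_
  refine (mul_le_mul_right (hpw ξ W t η y a b (hξ y) (hW y) (hAO hy).1 (hAO hy).2 (ht y)
    (hη y)) _).trans_eq ?_
  rw [mul_left_comm, Finset.mul_sum]

/-- The finitely many pieces cover `T` (`lintegral_iUnion_le`, `tsum_fintype`). -/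
theorem van_dec (hξ : ∀ y, PMAt ξ y) (hW : ∀ y, PMAt W y) (ht : ∀ y, HolAt 1 t y)
    (hη : ∀ y, VBd ξ η C0 y)
    (f1 : ∀ a b i j l, VFb (VM (vr ξ a i) (vr ξ a j) (vr W b l)) univ)
    (f2 : ∀ a b i l, VFb (VM t (vr ξ a i) (vr W b l)) univ) (hg : ∀ n, Measurable (g n))
    (hC : C ≠ ⊤) (hb : ∀ n, ∫⁻ w, ‖g n w‖ₑ ^ 2 ≤ C) (h0 : ∀ y, ∀ᶠ n in atTop, g n (t y) = 0) :
    Tendsto (fun n => ∫⁻ y, ‖g n (t y)‖ₑ *
      ‖dens (η * Th W * cf (dd (fn 3 t))) y‖ₑ ∂mu 3 T) atTop (𝓝 0) := by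
  obtain ⟨-, -, -, e1⟩ := van_mx (n := 3) hξ
  obtain ⟨-, -, -, e2⟩ := van_mx (n := 3) hW
  have hl := tendsto_finsetSum (Finset.univ : Finset (Fin N × Fin M)) fun z _ =>
    van_dec_piece hξ hW ht hη z.1 z.2 (f1 _ _) (f2 _ _) hg hC hb h0
  rw [Finset.sum_const_zero] at hl
  refine tendsto_of_tendsto_of_tendsto_of_le_of_le tendsto_const_nhds hl
    (fun _ => zero_le) fun n => ?_
  have hU : (⋃ z : Fin N × Fin M, VMx ξ z.1 ∩ VMx W z.2) = univ := eq_univ_of_forall fun y => by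
    obtain ⟨a, ha⟩ := e1 y
    obtain ⟨b, hb⟩ := e2 y
    exact mem_iUnion.2 ⟨(a, b), ha, hb⟩
  dsimp only
  rw [← setLIntegral_univ, ← hU]
  exact (lintegral_iUnion_le _ _).trans_eq (tsum_fintype _)

/-- `dens` is linear and the two densities are measurable (`aesm_dens`). -/
theorem van_dec_sub {α β : Fm 3 T} (hα : Sm 1 α univ) (hβ : Sm 1 β univ) (c c' : ℂ)
    {G : ℕ → T → ℝ≥0∞} (hG : ∀ n, Measurable (G n))
    (h1 : Tendsto (fun n => ∫⁻ y, G n y * ‖dens α y‖ₑ ∂mu 3 T) atTop (𝓝 0))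
    (h2 : Tendsto (fun n => ∫⁻ y, G n y * ‖dens β y‖ₑ ∂mu 3 T) atTop (𝓝 0)) :
    Tendsto (fun n => ∫⁻ y, G n y * ‖dens (c • α + c' • β) y‖ₑ ∂mu 3 T) atTop (𝓝 0) := by
  have m1 : AEMeasurable (fun y => ‖dens α y‖ₑ) (mu 3 T) := by
    simpa only [Measure.restrict_univ] using (aesm_dens isOpen_univ hα).enorm
  have hl := (ENNReal.Tendsto.const_mul (a := ‖c‖ₑ) h1 (Or.inr enorm_ne_top)).add
    (ENNReal.Tendsto.const_mul (a := ‖c'‖ₑ) h2 (Or.inr enorm_ne_top))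
  rw [mul_zero, mul_zero, add_zero] at hl
  refine tendsto_of_tendsto_of_tendsto_of_le_of_le tendsto_const_nhds hl
    (fun _ => zero_le) fun n => ?_
  dsimp only
  rw [← lintegral_const_mul' _ _ enorm_ne_top, ← lintegral_const_mul' _ _ enorm_ne_top,
    ← lintegral_add_left' (f := fun y => ‖c‖ₑ * (G n y * ‖dens α y‖ₑ))
      (((hG n).aemeasurable.mul m1).const_mul _)]
  refine lintegral_mono fun y => ?_
  obtain ⟨jac, -, hj⟩ := exists_jac 3 T
  have e : dens (c • α + c' • β) y = c * dens α y + c' * dens β y := by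
    simp only [hj, Pi.add_apply, Pi.smul_apply, map_add, map_smul, smul_eq_mul]
    ring
  rw [e, mul_left_comm, mul_left_comm ‖c'‖ₑ, ← mul_add, ← enorm_mul, ← enorm_mul]
  exact mul_le_mul_right (enorm_add_le _ _) _

end

end Pool.Agent.MP_1c689d_ag.K0

end

section

/-! The vanishing theorem. -/

set_option autoImplicit false

open Complex Filter Topology Set MeasureTheory MvPolynomial
open scoped ComplexConjugate ContDiff ENNReal

namespace Pool.Agent.MP_1c689d_ag.K0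

noncomputable section

variable {N c' r' m c r : ℕ} {B X : Type} [TopologicalSpace B] [Mf 1 B] [TopologicalSpace X]
  [Mf 3 X] {Q' : PD N 4 c' r'} {ξ : X → Fin N → ℂ} {Q : PD m 4 c r} {Pts : Finset (Fin 4 → ℂ)}
  {x : X → Fin m → ℂ} {D : Crv B} {ν μ a a' : ℕ} {σ : B → P m}
  {f : B → Fin (a + 1) → Fin (a' + 1) → P m}

theorem van_ds_sm (D : Crv B) (b : B) : SmAt 1 (cf (dd (fn 1 D.s))) b :=
  (D.hol _ D.s_mem b).smAt.dd.cf_one

theorem van_pb_sm {n k : ℕ} {Y Z : Type} [TopologicalSpace Y] [TopologicalSpace Z] [Mf n Y]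
    [Mf k Z] {u : Y → Z} {y : Y} (hu : HMap u y) {α : Fm k Z} (h : SmAt 1 α (u y)) :
    SmAt 1 (pb u α) y := by
  have := h.pb hu
  rwa [gpb_one] at this

theorem van_decT (h : St Q' ξ Q Pts x) (hA : Fam Q Pts D ν μ σ f) {η : Fm 3 X} (hη : F21 η)
    {M : ℕ} {W : (hA.dv h.fd).T → Fin M → ℂ} (hW : ∀ y, PMAt W y)
    (hr : ∀ b l, VRat D (hA.pB h.fd) (x ∘ hA.pX h.fd) (vr W b l)) {g : ℕ → ℂ → ℂ} {C : ℝ≥0∞}
    (hg : ∀ n, Measurable (g n)) (hC : C ≠ ⊤) (hb : ∀ n, ∫⁻ w, ‖g n w‖ₑ ^ 2 ≤ C)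
    (h0 : ∀ b, ∀ᶠ n in atTop, g n (D.s b) = 0) :
    Tendsto (fun n => ∫⁻ y, ‖g n (D.s (hA.pB h.fd y))‖ₑ * ‖dens (pb (hA.pX h.fd) η * Th W *
      pb (hA.pB h.fd) (cf (dd (fn 1 D.s)))) y‖ₑ ∂mu 3 (hA.dv h.fd).T) atTop (𝓝 0) := by
  have := h.fd.cpt
  obtain ⟨C0, hC0⟩ := van_eta h.fd'.pm (fun p => h.fd'.imm p fun u hu => by simp at hu) hη.sm hη.ty
  have e : pb (hA.pB h.fd) (cf (dd (fn 1 D.s))) = cf (dd (fn 3 (D.s ∘ hA.pB h.fd))) := by
    rw [pb_cf]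
    congr 1
    funext y
    rw [pb_dd (hA.hmap_pB h.fd y) (D.hol _ D.s_mem _).smAt, pb_fn]
  rw [e]
  refine van_dec (ξ := ξ ∘ hA.pX h.fd) (t := D.s ∘ hA.pB h.fd) (C0 := C0)
    (fun y => (h.fd'.pm _).comp (hA.hmap_pX h.fd y)) hW
    (fun y => MF2a_hol_comp (hA.hmap_pB h.fd y) (D.hol _ D.s_mem _))
    (fun y => (hC0 _).pb (hA.hmap_pX h.fd y) (h.fd'.pm _))
    (fun _ _ _ _ _ => van_fbT h.fd hA (van_rat_xi h hA _ _) (van_rat_xi h hA _ _) (hr _ _))
    (fun _ _ _ _ => van_fbT h.fd hA (van_rat_A D _ _ D.s_mem) (van_rat_xi h hA _ _) (hr _ _))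
    hg hC hb fun y => h0 _

theorem van_primT (hF : FD Q Pts x) (hA : Fam Q Pts D ν μ σ f) {ζ η : Fm 3 X} (hη : F21 η)
    (hζ : Ex 2 (ζ - η - cf η))
    (h0 : ∀ y p, ev x (σ y) p = 0 → (ev x (f y 0 0) p = 0 ∨ x p (Q.yi 0) = 0) →
      ∀ᶠ p' in 𝓝 p, ζ p' = 0) :
    ∃ k : Fm 3 (hA.dv hF).T, Sm 1 k univ ∧ Dgr 4 k ∧ cf k = k ∧
      dd k = I • (pb (hA.pX hF) η * hA.Θ hF) + cf (I • (pb (hA.pX hF) η * hA.Θ hF)) := by
  obtain ⟨κ, hκ, hκ2, e⟩ := hζ
  have hX := hA.hmap_pX hF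
  have h1 : ∀ p, PMAt (VPh hF hA) p := hA.pm_col hF
  have h2 : ∀ p, PMAt (x ∘ hA.pX hF) p := fun p => (hF.pm _).comp (hX p)
  obtain ⟨k1, d1, e1⟩ := van_th_prim (n := 3) h1 0
  obtain ⟨k2, d2, e2⟩ := van_th_prim (n := 3) h2 (Q.yi 0)
  have eΘ : hA.Θ hF = Th (VPh hF hA) - (μ : ℂ) • Th (x ∘ hA.pX hF) := rfl
  refine van_prim0 (ζ := pb (hA.pX hF) ζ) (κ := pb (hA.pX hF) κ) (k1 := k1 - (μ : ℂ) • k2)
    (fun p _ => van_pb_sm (hX p) (hη.sm _ trivial)) (fun p => pb_Tp (hX p) (hη.ty _)) ?_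
    (fun p _ => van_pb_sm (hX p) (hκ _ trivial)) (fun p => pb_Dg (hκ2 _)) ?_ (hA.Θ_cl hF).1 ?_
    (fun p => sub_mem (d1 p) (Submodule.smul_mem _ _ (d2 p))) fun p => ?_
  · funext p
    rw [← pb_dd (hX p) (hη.sm _ trivial), hη.cl, pb_zero]
  · funext p
    rw [← pb_dd (hX p) (hκ _ trivial), e, pb_sub, pb_sub, pb_cf]
  · funext p
    have a1 : cj (Th (VPh hF hA) p : Λ 3) = -Th (VPh hF hA) p := cj_cur (h1 p).gok
    have a2 : cj (Th (x ∘ hA.pX hF) p : Λ 3) = -Th (x ∘ hA.pX hF) p := cj_cur (h2 p).gok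
    rw [eΘ]
    simp only [cf, Pi.sub_apply, Pi.smul_apply, Pi.neg_apply, map_sub, cj_smul, a1, a2, map_natCast,
      smul_neg]
    abel
  · by_cases hz : ev x (f (hA.pB hF p) 0 0) (hA.pX hF p) = 0 ∨ x (hA.pX hF p) (Q.yi 0) = 0
    · left
      filter_upwards [(hX p).continuousAt.eventually (h0 _ _ (hA.pX_mem hF p).2 hz)] with y hy
      change lm _ (ζ _) = 0
      rw [hy, map_zero]
    · right
      obtain ⟨z1, z2⟩ := not_or.1 hz
      obtain ⟨s1, t1⟩ := e1 p (van_col_ne hF hA z1)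
      obtain ⟨s2, t2⟩ := e2 p z2
      refine ⟨s1.sub (s2.smul _), ?_⟩
      rw [dd_sub s1 (s2.smul _), dd_smul, eΘ, Pi.smul_apply, t1, t2]
      rfl

theorem van_alg {R : Type} [Ring R] [Algebra ℂ R] (s t : ℂ) (u v w z : R) :
    s • (u * (v - t • w)) * z = s • (u * v * z) + -(s * t) • (u * w * z) := by
  rw [mul_sub, smul_sub, sub_mul, smul_mul_assoc, smul_mul_assoc, mul_smul_comm,
    smul_mul_assoc, smul_smul, neg_smul, sub_eq_add_neg]

theorem van_decay (h : St Q' ξ Q Pts x) (hA : Fam Q Pts D ν μ σ f) {η : Fm 3 X} (hη : F21 η)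
    {g : ℕ → ℂ → ℂ} {C : ℝ≥0∞} (hg : ∀ n, Measurable (g n)) (hC : C ≠ ⊤)
    (hb : ∀ n, ∫⁻ w, ‖g n w‖ₑ ^ 2 ≤ C) (h0 : ∀ b, ∀ᶠ n in atTop, g n (D.s b) = 0) :
    Tendsto (fun n => ∫⁻ y, ‖g n (D.s (hA.pB h.fd y))‖ₑ * ‖dens (I • (pb (hA.pX h.fd) η *
      hA.Θ h.fd) * pb (hA.pB h.fd) (cf (dd (fn 1 D.s)))) y‖ₑ ∂mu 3 (hA.dv h.fd).T) atTop
      (𝓝 0) := by
  have hX := hA.hmap_pX h.fd
  have hB := hA.hmap_pB h.fd
  have h1 : ∀ p, PMAt (VPh h.fd hA) p := hA.pm_col h.fd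
  have h2 : ∀ p, PMAt (x ∘ hA.pX h.fd) p := fun p => (h.fd.pm _).comp (hX p)
  have s1 : ∀ p, SmAt 1 (pb (hA.pX h.fd) η) p := fun p => van_pb_sm (hX p) (hη.sm _ trivial)
  have s2 : ∀ p, SmAt 1 (pb (hA.pB h.fd) (cf (dd (fn 1 D.s)))) p :=
    fun p => van_pb_sm (hB p) (van_ds_sm D _)
  have cB : Continuous (D.s ∘ hA.pB h.fd) := continuous_iff_continuousAt.2 fun p =>
    MF2a_hol_cont (MF2a_hol_comp (hB p) (D.hol _ D.s_mem _))
  have m1 : ∀ n, Measurable fun y => ‖g n (D.s (hA.pB h.fd y))‖ₑ :=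
    fun n => ((hg n).comp cB.measurable).enorm
  have e : I • (pb (hA.pX h.fd) η * hA.Θ h.fd) * pb (hA.pB h.fd) (cf (dd (fn 1 D.s))) =
      I • (pb (hA.pX h.fd) η * Th (VPh h.fd hA) * pb (hA.pB h.fd) (cf (dd (fn 1 D.s)))) +
      -(I * μ) • (pb (hA.pX h.fd) η * Th (x ∘ hA.pX h.fd) *
        pb (hA.pB h.fd) (cf (dd (fn 1 D.s)))) := van_alg _ _ _ _ _ _
  rw [e]
  exact van_dec_sub (fun p _ => ((s1 p).mul_left (h1 p).Th_sm).mul_left (s2 p))
    (fun p _ => ((s1 p).mul_left (h2 p).Th_sm).mul_left (s2 p)) I (-(I * μ)) m1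
    (van_decT h hA hη h1 (van_rat_col h.fd hA) hg hC hb h0)
    (van_decT h hA hη h2 (van_rat_x D _ _) hg hC hb h0)

theorem van_form {T : Type} [TopologicalSpace T] [Mf 3 T] {η Θ : Fm 3 T} (hη : F21 η)
    (hΘ : Cl 2 Θ univ) (ht : Ty 1 1 Θ) :
    Sm 1 (I • (η * Θ)) univ ∧ Ty 3 2 (I • (η * Θ)) ∧ dd (I • (η * Θ)) = 0 := by
  have h : ∀ p, η p * Θ p ∈ Tp 3 3 2 := fun p => EA3_mul 3 2 (hη.ty p) (ht p) rfl rfl
  refine ⟨fun p _ => ((hη.sm p trivial).mul_left (hΘ.sm p trivial)).smul I,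
    fun p => (Tp 3 3 2).smul_mem I (h p), funext fun p => ?_⟩
  rw [dd_smul, Pi.smul_apply, dd_mul (hη.sm p trivial) (hΘ.sm p trivial), hΘ.cl p trivial, hη.cl]
  simp

theorem van_pb21 {T : Type} [TopologicalSpace T] [Mf 3 T] {u : T → X} (hu : ∀ p, HMap u p)
    {η : Fm 3 X} (hη : F21 η) : F21 (pb u η) where
  sm := fun p _ => van_pb_sm (hu p) (hη.sm _ trivial)
  ty := fun p => pb_Tp (hu p) (hη.ty _)
  cl := funext fun p => by rw [← pb_dd (hu p) (hη.sm _ trivial), hη.cl, pb_zero]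

theorem van_real (h : St Q' ξ Q Pts x) (hA : Fam Q Pts D ν μ σ f) {ζ η : Fm 3 X}
    (hη : F21 η) (hζ : Ex 2 (ζ - η - cf η))
    (h0 : ∀ y p, ev x (σ y) p = 0 → (ev x (f y 0 0) p = 0 ∨ x p (Q.yi 0) = 0) →
      ∀ᶠ p' in 𝓝 p, ζ p' = 0) {φ : B → ℂ} (hφ : Tst φ) : hA.L h.fd φ η = 0 := by
  let _ : MeasurableSpace B := borel B
  have : BorelSpace B := ⟨rfl⟩
  obtain ⟨k, k1, k2, k3, k4⟩ := van_primT h.fd hA hη hζ h0
  obtain ⟨χ, g, C, hC, c1, c2, c3, c4, c5, c6⟩ := van_cutB D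
  obtain ⟨a1, a2, a3⟩ := van_form (van_pb21 (hA.hmap_pX h.fd) hη) (hA.Θ_cl h.fd).1 (hA.Θ_cl h.fd).2
  have key := van_par (hA.hmap_pB h.fd) (fun K => hA.proper h.fd) (D.hol _ D.s_mem) D.ds
    (hA.ds_ne h.fd) a1 a2 a3 k1 k2 k3 k4 c1 c2 c6 (van_decay h hA hη c3 hC c4 c5) hφ
  rw [smul_mul_assoc, smul_comm _ I, itg_smul] at key
  exact (mul_eq_zero.1 key).resolve_left I_ne_zero

theorem van_lin {η η' : Fm 3 X} (hη : F21 η) (hη' : F21 η') (s t : ℂ) : F21 (s • η + t • η') where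
  sm := fun p _ => ((hη.sm p trivial).smul s).add ((hη'.sm p trivial).smul t)
  ty := fun p => add_mem (Submodule.smul_mem _ _ (hη.ty p)) (Submodule.smul_mem _ _ (hη'.ty p))
  cl := by
    funext p
    rw [dd_add ((hη.sm p trivial).smul s) ((hη'.sm p trivial).smul t), dd_smul, dd_smul, hη.cl,
      hη'.cl]
    simp

theorem van_ex {ζ η η' : Fm 3 X} (hζ : Ex 2 (ζ - η - cf η')) (s : ℂ) :
    Ex 2 (s • ζ + cf (s • ζ) - (s • η + conj s • η') - cf (s • η + conj s • η')) := by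
  obtain ⟨κ, h1, h2, e⟩ := hζ
  refine ⟨s • κ + cf (s • κ), fun p _ => ((h1 p trivial).smul s).add ((h1 p trivial).smul s).cf_one,
    fun p => add_mem (Submodule.smul_mem _ _ (h2 p)) (cj_Dg (Submodule.smul_mem _ _ (h2 p))), ?_⟩
  funext p
  rw [dd_add ((h1 p trivial).smul s) ((h1 p trivial).smul s).cf_one, dd_cf, dd_smul, e]
  simp only [cf, Pi.sub_apply, Pi.smul_apply, Pi.add_apply, map_sub, map_add, cj_smul, cj_cj,
    smul_sub, conj_conj]
  abel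

theorem van_vanishing (h : St Q' ξ Q Pts x) (hA : Fam Q Pts D ν μ σ f) {ζ η η' : Fm 3 X}
    (hη : F21 η) (hη' : F21 η') (hζ : Ex 2 (ζ - η - cf η'))
    (h0 : ∀ y p, ev x (σ y) p = 0 → (ev x (f y 0 0) p = 0 ∨ x p (Q.yi 0) = 0) →
      ∀ᶠ p' in 𝓝 p, ζ p' = 0) {φ : B → ℂ} (hφ : Tst φ) : hA.L h.fd φ η = 0 := by
  have key : ∀ s : ℂ, s * hA.L h.fd φ η + conj s * hA.L h.fd φ η' = 0 := fun s => by
    rw [← hA.L_smul, ← hA.L_smul, ← hA.L_add h.fd hφ (fun p _ => (hη.sm p trivial).smul s)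
      fun p _ => (hη'.sm p trivial).smul _]
    refine van_real h hA (van_lin hη hη' s _) (van_ex hζ s) (fun y p e1 e2 => ?_) hφ
    filter_upwards [h0 y p e1 e2] with p' hp'
    simp [cf, hp']
  have h1 := key 1
  have h2 := key I
  rw [map_one] at h1
  rw [conj_I] at h2
  linear_combination (1 / 2 : ℂ) * h1 - (I / 2) * h2 +
    (hA.L h.fd φ η - hA.L h.fd φ η') / 2 * I_mul_I

theorem van_exists_elim (hF : FD Q Pts x) (hA : Fam Q Pts D ν μ σ f) {b0 : B}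
    (h0 : ∃ p, ev x (σ b0) p = 0 ∧ ev x (f b0 0 0) p ≠ 0) :
    ∃ (q : P 4) (d : ℕ), q.IsHomogeneous d ∧ q ≠ 0 ∧ ∀ y v, Q.OnC v → eval v (σ y) = 0 →
      eval v (f y 0 0) = 0 → eval (fun i => v (Q.yi i)) q = 0 :=
  van_elim hF hA.good hA.reg (fun b => (hA.rk1 b).hom 0 0) (hA.freg 0 0) h0

end

end Pool.Agent.MP_1c689d_ag.K0

end

section

/-! Interface: the vanishing theorem. -/

set_option autoImplicit false

open Complex Filter Topology Set MeasureTheory MvPolynomial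
open scoped ComplexConjugate ContDiff ENNReal

namespace Pool.Agent.MP_1c689d_ag.K0

noncomputable section

variable {N c' r' m c r : ℕ} {B X : Type} [TopologicalSpace B] [Mf 1 B] [TopologicalSpace X]
  [Mf 3 X] {Q' : PD N 4 c' r'} {ξ : X → Fin N → ℂ} {Q : PD m 4 c r} {Pts : Finset (Fin 4 → ℂ)}
  {x : X → Fin m → ℂ} {D : Crv B} {ν μ a a' : ℕ} {σ : B → P m}
  {f : B → Fin (a + 1) → Fin (a' + 1) → P m}

/-- The curves `σ = f 0 0 = 0` sweep out a surface. -/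
theorem exists_elim (hF : FD Q Pts x) (hA : Fam Q Pts D ν μ σ f) {b0 : B}
    (h0 : ∃ p, ev x (σ b0) p = 0 ∧ ev x (f b0 0 0) p ≠ 0) :
    ∃ (q : P 4) (d : ℕ), q.IsHomogeneous d ∧ q ≠ 0 ∧ ∀ y v, Q.OnC v → eval v (σ y) = 0 →
      eval v (f y 0 0) = 0 → eval (fun i => v (Q.yi i)) q = 0 :=
  van_exists_elim hF hA h0

theorem vanishing (h : St Q' ξ Q Pts x) (hA : Fam Q Pts D ν μ σ f) {ζ η η' : Fm 3 X}
    (hη : F21 η) (hη' : F21 η') (hζ : Ex 2 (ζ - η - cf η'))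
    (h0 : ∀ y p, ev x (σ y) p = 0 → (ev x (f y 0 0) p = 0 ∨ x p (Q.yi 0) = 0) →
      ∀ᶠ p' in 𝓝 p, ζ p' = 0) {φ : B → ℂ} (hφ : Tst φ) : hA.L h.fd φ η = 0 :=
  van_vanishing h hA hη hη' hζ h0 hφ

end

end Pool.Agent.MP_1c689d_ag.K0

end

section

/-! A family of surfaces that detects a given class. -/

set_option autoImplicit false

open Complex Filter Topology Set MeasureTheory MvPolynomial
open scoped ComplexConjugate ContDiff ENNReal

namespace Pool.Agent.MP_1c689d_ag.K0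

noncomputable section

variable {N c' r' m c r : ℕ} {X : Type} [TopologicalSpace X] [Mf 3 X] {Q' : PD N 4 c' r'}
  {ξ : X → Fin N → ℂ} {Q : PD m 4 c r} {Pts : Finset (Fin 4 → ℂ)} {x : X → Fin m → ℂ}

theorem FAM_ne (hN : Num Q) : Nonempty Q.b.ι := by
  by_contra hne
  have : IsEmpty Q.b.ι := not_nonempty_iff.1 hne
  have h1 : (1 : P m ⧸ Q.I) = 0 := Q.b.co.injective (Subsingleton.elim _ _)
  exact hN.prime.ne_top ((Ideal.eq_top_iff_one _).2 (Ideal.Quotient.eq_zero_iff_mem.1 h1))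

/-- The line bundle on the surface of a Noether-Lefschetz point. -/
theorem FAM_rk [MeasurableSpace X] [BorelSpace X] (hF : FD Q Pts x) (hN : Num Q) {R : RL Q Pts x}
    {η θ : Fm 3 X} {g : Fin m → Fm 3 X} {U : Set X} {χ : X → ℂ} {σ : P m} {ν : ℕ}
    (hP : NLP R η g U χ θ σ ν) (hr : cf θ = θ) (hi : IntF θ U) :
    ∃ (μ a a' : ℕ) (f : Fin (a + 1) → Fin (a' + 1) → P m), Rk1 Q σ μ f ∧
      (∃ p, ev x σ p = 0 ∧ ev x (f 0 0) p ≠ 0) ∧
      Ex 1 (Tt (x ∘ (dvs hF hP.good).val) μ (fun _ => f) -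
        (2 * Real.pi * I : ℂ) • pb (dvs hF hP.good).val θ) := by
  obtain ⟨Q1, hQ1, -, hF1, -⟩ := dvs_fd hF hP.good
  have := dvs_nonempty hF hP.good (FAM_ne hN)
  have hm := (dvs hF hP.good).emb.hm
  have hU : ∀ p, (dvs hF hP.good).val p ∈ U := fun p =>
    hP.tb.supp (subset_tsupport _ (by
      rw [Function.mem_support,
        hP.tb.one.self_of_nhdsSet _ ((dvs hF hP.good).val_mem p).2]
      exact one_ne_zero))
  have h1 : Cl 2 (pb (dvs hF hP.good).val θ) univ :=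
    ⟨fun p _ => MF2b_pb (hm p) (hP.cl.sm _ (hU p)), fun p => pb_Dg (hP.cl.dg _), fun p _ => by
      rw [← pb_dd (hm p) (hP.cl.sm _ (hU p)), pb, hP.cl.cl _ (hU p), map_zero]⟩
  have h2 : cf (pb (dvs hF hP.good).val θ) = pb (dvs hF hP.good).val θ := by rw [← pb_cf, hr]
  obtain ⟨κ, hκ, hres⟩ := resI_eq hF hP.good R
  obtain ⟨μ, a, a', f, h3, ⟨p, hp⟩, h4⟩ := exists_rk1 hQ1 hF1 h1 h2
    (hi.pb hm (range_subset_iff.2 hU)) fun α ht hα => by
      obtain ⟨w, hw, hw'⟩ := res_surj hF hP.good R (k := 0) ht fun p => by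
        rw [zpow_zero]
        exact hα p
      rw [zero_add] at hw
      have h5 := hres U χ θ w α hP.sub hP.tb hP.cl hw hw'
      rw [hP.res w hw] at h5
      exact (mul_eq_zero.1 h5.symm).resolve_left hκ
  exact ⟨μ, a, a', f, h3, ⟨_, ((dvs hF hP.good).val_mem p).2, hp⟩, h4⟩

/-- The derivative of a linear family. -/
theorem FAM_der {B : Type} [TopologicalSpace B] [Mf 1 B] {k : ℕ} (σ : P m) (b : Fin k → P m)
    {T : B → Fin k → ℂ} {y0 : B} (hT : ∀ i, HolAt 1 (fun y => T y i) y0) {u : Fin k → ℂ}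
    {w : Λ 1} (hu : ∀ i, dd (fn 1 fun y => T y i) y0 = u i • w) (j : Fin m →₀ ℕ) :
    dd (fn 1 fun y => coeff j (σ + ∑ i, C (T y i) * b i)) y0 =
      coeff j (∑ i, C (u i) * b i) • w := by
  have e : (fn 1 fun y => coeff j (σ + ∑ i, C (T y i) * b i)) =
      (fn 1 fun _ : B => coeff j σ) + ∑ i, coeff j (b i) • fn 1 fun y => T y i := by
    funext y
    simp only [fn, coeff_add, coeff_sum, coeff_C_mul, map_add, map_sum, Pi.add_apply,
      Finset.sum_apply, Pi.smul_apply]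
    congr 1
    refine Finset.sum_congr rfl fun i _ => ?_
    rw [Algebra.smul_def, ← map_mul, mul_comm]
  have hs : ∀ i, SmAt 1 (coeff j (b i) • fn 1 fun y => T y i) y0 := fun i => (hT i).smAt.smul _
  rw [e, dd_add (smAt_const _) (SmAt.sum fun i _ => hs i), dd_const, dd_sum fun i _ => hs i,
    Pi.zero_apply, zero_add, coeff_sum, Finset.sum_smul]
  refine Finset.sum_congr rfl fun i _ => ?_
  rw [dd_smul, Pi.smul_apply, hu, coeff_C_mul, smul_smul, mul_comm]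

/-- `nl_main`; `exists_fam` gives a countable set `Z`; take `s` in the disc outside `Z`, and `t`.
On the surface `dvs` the form `pb val θ` is closed, real, integral (`IntF.pb`) and orthogonal to the
holomorphic two-forms (`res_surj` with `k = 0`, `resI_eq`, `NLP.res`); `exists_rk1` (with `dvs_fd`,
`dvs_nonempty`); the family; `weak_formula` with `β = ∑ C (u' i b0) * b i` (`Crv.exists_deriv`, the
coefficient of `b 0` is one); `exists_elim`, `vanishing`. Take `q = X 0 * q'` and for `K` the forms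
`η` with `F21 η` and `L φ η = 0` for all tests. -/
theorem exists_detect (h : St Q' ξ Q Pts x) (h0 : Q.H0) (h2 : Q.H2) {R : RL Q Pts x}
    {η θ : Fm 3 X} {g : Fin m → Fm 3 X} {z : Fin r → Q.Om} (hz : ZD R η θ g z) (hnz : ¬ ZT Q z) :
    ∃ (K : Submodule ℂ (Fm 3 X)) (q : P 4) (d : ℕ), q.IsHomogeneous d ∧ q ≠ 0 ∧ η ∉ K ∧
      ∀ ζ η1 η2 : Fm 3 X, F21 η1 → F21 η2 → Ex 2 (ζ - η1 - cf η2) →
        (∀ p, eval (fun i => x p (Q.yi i)) q = 0 → ∀ᶠ p' in 𝓝 p, ζ p' = 0) → η1 ∈ K := by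
  borelize X
  obtain ⟨ν, k, σ, b, U, χ, θ', ε, hσ, hb, hli, hr, hi, hε, s0, hs⟩ :=
    nl_main h.fd h.num h0 h2 hz hnz
  obtain ⟨Z, hZ, hfam⟩ := exists_fam Q Pts σ b hσ hb
  obtain ⟨s, hs1, hs2⟩ := (hZ.dense_compl ℂ).exists_mem_open (Metric.isOpen_ball (x := s0) (ε := ε))
    ⟨s0, Metric.mem_ball_self hε⟩
  obtain ⟨t, rfl, hP⟩ := hs s (mem_ball_iff_norm.1 hs2)
  obtain ⟨μ, a, a', f, hrk, hp, hex⟩ := FAM_rk h.fd h.num hP hr hi
  obtain ⟨B, _, _, D, T, F, b0, hA, rfl, rfl, hT0, hT⟩ := hfam t μ _ _ f hs1 hP.good hrk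
  choose u' _ hu' using fun i => D.exists_deriv (hT i)
  have hκ : (2 * Real.pi * I : ℂ) ≠ 0 := two_pi_I_ne_zero
  obtain ⟨φ, hφ, hL⟩ := weak_formula h.fd hA hz (b0 := b0) hP hκ hex
    (β := ∑ i, C (u' i b0) * b i)
    (IsHomogeneous.sum _ _ _ fun i _ => (hb i).C_mul _)
    (FAM_der σ b (fun i => D.hol _ (hT i) b0) fun i => hu' i b0) (by
      rintro ⟨t', ht'⟩
      have e : ∑ i, C (u' i b0) * b i - C t' * (σ + ∑ i, C (T b0 i) * b i) =
          C (-t') * σ + ∑ i, C (u' i b0 - t' * T b0 i) * b i := by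
        simp only [map_sub, map_mul, map_neg, sub_mul, Finset.sum_sub_distrib, mul_add,
          Finset.mul_sum, mul_assoc]
        ring
      rw [e] at ht'
      obtain ⟨k1, k2⟩ := hli _ _ ht'
      have k3 := congrFun k2 0
      rw [neg_eq_zero.1 k1, zero_mul, sub_zero] at k3
      have k4 := hu' 0 b0
      rw [k3, funext hT0] at k4
      exact D.ds b0 (k4.trans (zero_smul _ _)))
  obtain ⟨q, d, hq, hq0, hq'⟩ := exists_elim h.fd hA (b0 := b0) hp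
  refine ⟨{ carrier := {η | Sm 1 η univ ∧ hA.L h.fd φ η = 0}
            add_mem' := fun {η1 η2} k1 k2 => ⟨fun y hy => (k1.1 y hy).add (k2.1 y hy), by
              rw [Fam.L_add h.fd hA hφ k1.1 k2.1, k1.2, k2.2, add_zero]⟩
            zero_mem' := ⟨fun _ _ => smAt_zero, by
              have := Fam.L_smul h.fd hA φ 0 0
              rwa [zero_smul, zero_mul] at this⟩
            smul_mem' := fun t η1 k1 => ⟨fun y hy => (k1.1 y hy).smul t, by
              rw [Fam.L_smul h.fd hA, k1.2, mul_zero]⟩ },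
    MvPolynomial.X 0 * q, 1 + d, (isHomogeneous_X ℂ 0).mul hq, mul_ne_zero (X_ne_zero 0) hq0,
    fun k1 => hL k1.2, fun ζ η1 η2 k1 k2 k3 k4 =>
      ⟨k1.sm, vanishing h hA k1 k2 k3 (fun y p k5 k6 => k4 p ?_) hφ⟩⟩
  rw [map_mul, eval_X]
  rcases k6 with k6 | k6
  · rw [hq' y (x p) (h.fd.onc p) k5 k6, mul_zero]
  · rw [k6, zero_mul]

end

end Pool.Agent.MP_1c689d_ag.K0

end

section

/-! The class `z`. -/

set_option autoImplicit false

open Complex Filter Topology Set MeasureTheory MvPolynomial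
open scoped ComplexConjugate ContDiff ENNReal

namespace Pool.Agent.MP_1c689d_ag.K0

noncomputable section

variable {N c' r' m c r : ℕ} {X : Type} [TopologicalSpace X] [Mf 3 X] {Q' : PD N 4 c' r'}
  {ξ : X → Fin N → ℂ} {Q : PD m 4 c r} {Pts : Finset (Fin 4 → ℂ)} {x : X → Fin m → ℂ}

theorem ZED_mul {p q p' q' s t : ℕ} {a b : Λ 3} (ha : a ∈ Tp 3 p q) (hb : b ∈ Tp 3 p' q')
    (e1 : p + p' = s) (e2 : q + q' = t) : a * b ∈ Tp 3 s t := by
  subst e1 e2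
  exact Tp_mul ha hb

theorem ZED_dg {p q s : ℕ} {a : Λ 3} (ha : a ∈ Tp 3 p q) (e : p + q = s) : a ∈ Dg 3 s := by
  subst e
  exact Tp_le_Dg ha

theorem ZED_db {p : X} (h : PMAt x p) {β θ : Fm 3 X} (hβ : SmAt 1 β p) (hθ : SmAt 1 θ p)
    (l : Fin m) : SmAt (gx x) (Dx x l * β + (fun y => x y l) • θ) p ∧
      dbar (gx x) (Dx x l * β + (fun y => x y l) • θ) p =
        x p l • (Th x p * β p + dbar 1 θ p) - Dx x l p * dbar 1 β p := by
  have e : (gx x * 1) p =ᶠ[𝓝 p] gx x p := by rw [mul_one]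
  have h1 := (h.Dx_sm l).mul_right hβ
  have h2 := (h.holAt l).smAt.mul_right hθ
  rw [← fn_mul]
  refine ⟨h1.add h2, ?_⟩
  rw [dbar_add h1 h2, dbar_mul' e h.gok gok_one (h.Dx_sm l) hβ,
    dbar_mul' e h.gok gok_one (h.holAt l).smAt hθ, (h.holAt l).dbar, h.dbar_Dx,
    gi_of_Tp (Dx_Ty l p), fn, AlgHomClass.commutes, ← Algebra.smul_def]
  simp only [zero_mul, zero_add, add_zero, pow_one, neg_smul, one_smul, neg_mul, smul_mul_assoc,
    smul_add]
  abel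

theorem ZED_cl {η : Fm 3 X} (hη : F21 η) (p : X) : dp 1 η p = 0 ∧ dbar 1 η p = 0 :=
  (dd_eq_zero_iff (Eventually.of_forall hη.ty)).1 (congrFun hη.cl p)

theorem ZED_van (h : FD Q' ∅ ξ) : DbV 3 (1 : Ga X) 3 1 := by
  have := h.van_top 0 (q := 1) (by norm_num)
  rwa [zpow_zero] at this

/-- `θ` from `FD.van_top` for `ξ` (`k = 0`), `g` from `FD.van_open`, `z` from `RL.surj`
(`dbar_gv`, `FD.gv_F`, `euler_eval`). -/
theorem exists_zd (h : St Q' ξ Q Pts x) (R : RL Q Pts x) {η : Fm 3 X} (hη : F21 η) :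
    ∃ θ g z, ZD R η θ g z := by
  have pm := h.fd.pm
  obtain ⟨θ, t1, t2, t3⟩ := ZED_van h.fd' (-(Th x * η))
    (fun p hp => ((pm p).Th_sm.mul_left (hη.sm p hp)).neg)
    (fun p => neg_mem (ZED_mul (Th_Ty p) (hη.ty p) rfl rfl)) (funext fun p => by
      rw [dbar_neg, Pi.neg_apply, dbar_mul' (by rw [mul_one]) gok_one gok_one (pm p).Th_sm
        (hη.sm p trivial), (ZED_cl hη p).2,
        ((dd_eq_zero_iff (Eventually.of_forall Th_Ty)).1 (pm p).dd_Th).2]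
      simp)
  choose g g1 g2 g3 using fun l => h.fd.van_open 1 (α := Dx x l * η + (fun y => x y l) • θ)
    (fun p _ => by
      rw [zpow_one]
      exact (ZED_db (pm p) (hη.sm p trivial) (t1 p trivial) l).1)
    (fun p => add_mem (ZED_mul (Dx_Ty l p) (hη.ty p) rfl rfl) (Submodule.smul_mem _ _ (t2 p)))
    fun p _ => by
      rw [zpow_one, (ZED_db (pm p) (hη.sm p trivial) (t1 p trivial) l).2, t3, (ZED_cl hη p).2]
      simp
  have e : ∀ j, (Q.dF j : ℤ) - 1 + 1 = Q.dF j := fun j => sub_add_cancel _ _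
  choose z z1 z2 using fun j => R.surj (Q.dF j) (gv x g (Q.F j))
    (fun p => Submodule.sum_mem _ fun l _ => Submodule.smul_mem _ _ (g2 l p)) fun p hp => by
      refine ⟨(pm p).gv_sm (mem_hz_nat.2 (Q.Fh j)) (fun l => g1 l p hp) (e j), ?_⟩
      filter_upwards [h.fd.isOpen_O.mem_nhds hp] with y hy
      have k1 := h.fd.gv_F j y
      have k2 := euler_eval (Q.Fh j) (x y)
      rw [(h.fd.onc y).2 j, mul_zero] at k2
      rw [(pm y).dbar_gv (mem_hz_nat.2 (Q.Fh j)) (fun l => g1 l y hy) (e j)]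
      simp only [gv] at k1
      simp only [gv, g3 _ y hy, Pi.add_apply, Pi.mul_apply, Pi.smul_apply', smul_add, smul_smul,
        Finset.sum_add_distrib, ← smul_mul_assoc, ← Finset.sum_mul, ← Finset.sum_smul, k1, k2,
        zero_mul, zero_smul, add_zero]
  exact ⟨θ, g, z, hη, t1, t2, t3, g1, g2, g3, z1, z2⟩

/-- `g l - rl (γ l) = Dx l * β + x l • θ'` by `FD.td_two`; apply `∂ bar` and `td_one` to get
`η = -∂ bar β`; then `∂ β` is a holomorphic three-form on the open set, so it is zero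
(`RL.surj`, `og 0 = 0` by `finrank_og`). -/
theorem ZD.exact_of_zt (h : St Q' ξ Q Pts x) {R : RL Q Pts x} {η θ : Fm 3 X} {g : Fin m → Fm 3 X}
    {z : Fin r → Q.Om} (hz : ZD R η θ g z) (ht : ZT Q z) :
    ∃ β : Fm 3 X, Sm 1 β (Q.O Pts x) ∧ Ty 2 0 β ∧ ∀ p ∈ Q.O Pts x, dd β p = η p := by
  obtain ⟨γ, c1, c2⟩ := ht
  have pm := h.fd.pm
  have hO := h.fd.isOpen_O
  have c3 := fun l => R.hol 1 _ (c1 l)
  obtain ⟨β, ϑ, b1, b2, b3, b4, b5⟩ := h.fd.td_two (a := 2) (q := 0) (k := 0) rfl hO subset_rfl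
    (g := fun l => g l - R.rl (γ l)) (fun l p hp => (hz.g_sm l p hp).sub (c3 l p hp).1)
    (fun l p => sub_mem (hz.g_ty l p) (R.ty _ p)) fun j p hp => by
      have := hz.z_eq j p hp
      rw [← c2, dv, map_sum, Finset.sum_apply] at this
      simp only [R.smul, Pi.smul_apply', ev] at this
      simp only [gv, Pi.sub_apply, smul_sub, Finset.sum_sub_distrib, this, sub_self]
  rw [zpow_zero] at b1 b2
  have k1 : ∀ p ∈ Q.O Pts x, dbar 1 (-β) p = η p := fun p hp => by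
    have := (td_one (pm p) (h.fd.imm p hp) (a := 2) (q := 1) (β := η p + dbar 1 β p)
      (θ := θ p - (Th x p * β p + dbar 1 ϑ p)) (by norm_num)
      (add_mem (hz.f21.ty p) (b3.dbar p)) fun l => by
        have e1 := dbar_sub (hz.g_sm l p hp) (c3 l p hp).1
        rw [hz.g_eq l p hp, (c3 l p hp).2.self_of_nhds, sub_zero, zpow_one,
          dbar_congr (β := Dx x l * β + (fun y => x y l) • ϑ)
            (Filter.mem_of_superset (hO.mem_nhds hp) (b5 l)),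
          (ZED_db (pm p) (b1 p hp) (b2 p hp) l).2, sub_eq_iff_eq_add] at e1
        rw [smul_sub, e1, mul_add]
        abel).1
    rw [dbar_neg, Pi.neg_apply, neg_eq_of_add_eq_zero_left this]
  have b6 : Sm 1 (-β) (Q.O Pts x) := fun p hp => (b1 p hp).neg
  have b7 : Ty 2 0 (-β) := fun p => neg_mem (b3 p)
  obtain ⟨t, t1, t2⟩ := R.surj 0 (dp 1 (-β)) b7.dp fun p hp => by
    rw [zpow_zero]
    refine ⟨(b6 p hp).dp gok_one, ?_⟩
    filter_upwards [hO.mem_nhds hp] with y hy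
    have := dbar_dp gok_one (b6 y hy)
    rwa [cur_one, Pi.zero_apply, zero_mul, dp_congr (β := η)
      (Filter.mem_of_superset (hO.mem_nhds hy) k1), (ZED_cl hz.f21 y).1, add_zero] at this
  have t3 : t = 0 := Q.ext' fun f => by
    rw [Q.val_eq_sum, Q.val_zero, LinearMap.zero_apply]
    refine Finset.sum_eq_zero fun i _ => ?_
    have := (Q.mem_og_iff 0 t).1 t1 i
    rw [hz_neg (by have := h.num.le i; omega)] at this
    rw [this, mul_zero]
  refine ⟨-β, b6, b7, fun p hp => ?_⟩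
  rw [dd_eq, Pi.add_apply, ← t2 p hp, k1 p hp, t3, map_zero, Pi.zero_apply, zero_add]

/-- `∫ η ∧ conj η = ∫ ζ ∧ conj η = 0` since `ζ` has compact support in the open set;
`hodge_riemann`. -/
theorem ex_of_zt (h : St Q' ξ Q Pts x) {R : RL Q Pts x} {η θ : Fm 3 X} {g : Fin m → Fm 3 X}
    {z : Fin r → Q.Om} (hz : ZD R η θ g z) (ht : ZT Q z) {ζ η' : Fm 3 X} (hη' : F21 η')
    (hζ : Ex 2 (ζ - η - cf η')) (h0 : tsupport ζ ⊆ Q.O Pts x) : Ex 2 η := by
  borelize X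
  have := h.fd.cpt
  obtain ⟨β, b1, -, b3⟩ := hz.exact_of_zt h ht
  obtain ⟨κ, k1, k2, k3⟩ := hζ
  have hη := hz.f21
  have s1 : Sm 1 (cf η) univ := fun p hp => (hη.sm p hp).cf_one
  have s2 : Sm 1 (cf η') univ := fun p hp => (hη'.sm p hp).cf_one
  have s3 : Sm 1 (dd κ) univ := fun p hp => (k1 p hp).dd
  have c1 : ∀ {η : Fm 3 X}, F21 η → dd (cf η) = 0 := fun h => by
    rw [dd_cf, h.cl]
    exact funext fun _ => map_zero cj
  have e : ζ = dd κ + η + cf η' := by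
    rw [k3]
    abel
  have s4 : Sm 1 ζ univ := fun p hp => by
    rw [e]
    exact ((s3 p hp).add (hη.sm p hp)).add (s2 p hp)
  have c2 : dd ζ = 0 := funext fun p => by
    rw [e, dd_add ((s3 p trivial).add (hη.sm p trivial)) (s2 p trivial),
      dd_add (s3 p trivial) (hη.sm p trivial), dd_dd (k1 p trivial), hη.cl, c1 hη']
    simp
  have d1 : Dgr 3 ζ := fun p => by
    rw [e]
    exact add_mem (add_mem (k2.dd p) (ZED_dg (hη.ty p) rfl)) (ZED_dg (cj_Tp (hη'.ty p)) rfl)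
  have i1 := ibp_dd (isClosed_tsupport ζ).isCompact h.fd.isOpen_O h0 (fun p _ => s4 p trivial)
    (fun p hp => (b1 p hp).cf_one) subset_rfl
  rw [c2, zero_mul, itg_zero, zero_add, show (fun y => gi (ζ y)) * dd (cf β) = -(ζ * cf η) from
    funext fun y => by
      rw [Pi.mul_apply, gi_of_Dg (d1 y), Pi.neg_apply, Pi.mul_apply]
      by_cases hy : y ∈ Q.O Pts x
      · rw [dd_cf, cf, cf, b3 y hy]
        norm_num
      · simp [image_eq_zero_of_notMem_tsupport fun k => hy (h0 k)],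
    itg_neg, neg_eq_zero, e, add_mul, add_mul] at i1
  have n : ∀ {α : Fm 3 X}, Sm 1 α univ → Intg (α * cf η) := fun hα =>
    intg_of_compact fun p hp => (hα p hp).mul_left (s1 p hp)
  rw [itg_add ((n s3).add (n hη.sm)) (n s2), itg_add (n s3) (n hη.sm),
    (itg_exact_mul_closed k1 s1 (c1 hη)).1, zero_add, itg_of_top_zero (α := cf η' * cf η)
      fun y => top_of_Tp (Tp_mul (cj_Tp (hη'.ty y)) (cj_Tp (hη.ty y))) (by decide),
    add_zero] at i1
  exact hodge_riemann h.fd'.pm (fun p => h.fd'.imm p fun _ k => absurd k (Finset.notMem_empty _))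
    (ZED_van h.fd') hη i1

end

end Pool.Agent.MP_1c689d_ag.K0

end

section

/-! Hodge decomposition: the coboundary of a twisted normal vector field. -/

set_option autoImplicit false

open Complex Filter Topology Set MeasureTheory MvPolynomial
open scoped ComplexConjugate ContDiff ENNReal

namespace Pool.Agent.MP_1c689d_ag.K0

noncomputable section

variable {m c r : ℕ} {X : Type} [TopologicalSpace X] [Mf 3 X] {Q : PD m 4 c r}
  {x : X → Fin m → ℂ}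

theorem HDEta_sum {n : ℕ} (a : Fin r → Fin m → ℂ) (g : Fin m → Λ n) (ψ : Fin r → Λ n) :
    ∑ j, (∑ l, a j l • g l) * ψ j = ∑ l, g l * ∑ j, a j l • ψ j := by
  simp only [Finset.sum_mul, Finset.mul_sum, smul_mul_assoc, mul_smul_comm]
  exact Finset.sum_comm

theorem HDEta_sm (h : FD Q ∅ x) {k : ℤ} {α β : Fm 3 X} (hα : Sm (gx x ^ k) α univ)
    (hβ : Sm (gx x ^ (-k)) β univ) : Sm 1 (α * β) univ := fun p hp => by
  have := SmAt.mul_zpow (l := 0) (h.pm p).gok (hα p hp) (hβ p hp) (add_neg_cancel k)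
  rwa [zpow_zero] at this

theorem HDEta_gv (h : FD Q ∅ x) {g : Fin m → Fm 3 X} (hg : ∀ l, Sm (gx x ^ (1 : ℤ)) (g l) univ)
    (j : Fin r) : Sm (gx x ^ (Q.dF j : ℤ)) (gv x g (Q.F j)) univ := fun p hp =>
  (h.pm p).gv_sm (mem_hz_nat.2 (Q.Fh j)) (fun a => hg a p hp) (sub_add_cancel _ _)

theorem HDEta_pos {ι : Type} [Fintype ι] {a : ι → Λ 3} (ha : ∀ j, a j ∈ Tp 3 3 0) :
    ∃ t : ℝ, 0 ≤ t ∧ I ^ (3 ^ 2) * top (∑ j, a j * cj (a j)) = t := by
  have h1 : ∀ j, ∃ t : ℝ, 0 ≤ t ∧ I ^ (3 ^ 2) * top (a j * cj (a j)) = t := fun j => by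
    by_cases h0 : a j = 0
    · exact ⟨0, le_rfl, by rw [h0, zero_mul, map_zero, mul_zero, ofReal_zero]⟩
    · obtain ⟨t, ht, e⟩ := pos_n0' (ha j) h0
      exact ⟨t, ht.le, e⟩
  choose t ht e using h1
  refine ⟨∑ j, t j, Finset.sum_nonneg fun j _ => ht j, ?_⟩
  rw [map_sum, Finset.mul_sum, ofReal_sum]
  exact Finset.sum_congr rfl fun j _ => e j

/-- `gv x (dbar g) F_j = 0` (`PMAt.dbar_gv`), so `FD.td_two` (`k = 0`) gives `η` and `θ`; applying
`dbar` once more, `td_one` gives `dbar η = 0`. -/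
theorem HD_eta (h : FD Q ∅ x) {g : Fin m → Fm 3 X} (hg : ∀ l, Sm (gx x ^ (1 : ℤ)) (g l) univ)
    (ht : ∀ l, Ty 3 0 (g l)) (h0 : ∀ j, dbar (gx x ^ (Q.dF j : ℤ)) (gv x g (Q.F j)) = 0) :
    ∃ η θ : Fm 3 X, Sm 1 η univ ∧ Ty 2 1 η ∧ dbar 1 η = 0 ∧ Sm 1 θ univ ∧ Ty 3 1 θ ∧
      ∀ l p, dbar (gx x ^ (1 : ℤ)) (g l) p = Dx x l p * η p + x p l • θ p := by
  have hd : ∀ l, Sm (gx x ^ ((0 : ℤ) + 1)) (dbar (gx x ^ (1 : ℤ)) (g l)) univ := fun l p hp => by
    rw [zero_add]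
    exact (hg l p hp).dbar ((h.pm p).gok_zpow 1)
  obtain ⟨η, θ, hη, hθ, tη, tθ, e⟩ := h.td_two (a := 2) (q := 1) rfl (k := 0) isOpen_univ
    (by rw [PD.O_empty]) hd (fun l => (ht l).dbar) fun j p hp => by
      rw [← (h.pm p).dbar_gv (mem_hz_nat.2 (Q.Fh j)) (fun a => hg a p hp) (sub_add_cancel _ _),
        h0 j]
      rfl
  rw [zpow_zero] at hη hθ
  refine ⟨η, θ, hη, tη, ?_, hθ, tθ, fun l p => e l p (mem_univ p)⟩
  funext p
  have hp := mem_univ p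
  have hG := (h.pm p).gok
  have hm : (gx x * 1) p =ᶠ[𝓝 p] gx x p := by rw [mul_one]
  have key : ∀ l, Dx x l p * (-dbar 1 η p) + x p l • (Th x p * η p + dbar 1 θ p) = 0 := fun l => by
    have h1 : dbar (gx x ^ (1 : ℤ)) (g l) = Dx x l * η + fn 3 (fun y => x y l) * θ := by
      funext y
      rw [e l y (mem_univ y), fn_mul]
      rfl
    have h2 := dbar_dbar ((h.pm p).gok_zpow 1) (hg l p hp)
    have hx := ((h.pm p).holAt l).smAt
    rw [h1, zpow_one, dbar_add (((h.pm p).Dx_sm l).mul_right (hη p hp)) (hx.mul_right (hθ p hp)),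
      dbar_mul' hm hG gok_one ((h.pm p).Dx_sm l) (hη p hp),
      dbar_mul' hm hG gok_one hx (hθ p hp), (h.pm p).dbar_Dx, ((h.pm p).holAt l).dbar,
      gi_of_Tp (Dx_Ty l p), fn, PMPa_gi] at h2
    rw [← h2]
    simp only [smul_add, smul_mul_assoc, mul_neg, zero_mul, zero_add, add_zero, pow_one, neg_smul,
      one_smul, neg_mul]
    abel
  have := (td_one (h.pm p) (h.imm p (by simp [PD.Off])) (a := 2) (q := 2) (by norm_num)
    (neg_mem (tη.dbar p)) key).1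
  exact neg_eq_zero.1 this

variable [MeasurableSpace X] [BorelSpace X]

/-- Pointwise `∑ j, gv x g F_j * ψ j = ∑ l, g l * dbar (u l)`; integrate by parts (`ibp_dbar`,
`gi_of_Tp`), insert `he`, use `comm_Dg` and `hu0`. -/
theorem HD_pair (h : FD Q ∅ x) {g u : Fin m → Fm 3 X} {ψ : Fin r → Fm 3 X} {η θ γ : Fm 3 X}
    (hg : ∀ l, Sm (gx x ^ (1 : ℤ)) (g l) univ) (ht : ∀ l, Ty 3 0 (g l)) (hη : Ty 2 1 η)
    (he : ∀ l p, dbar (gx x ^ (1 : ℤ)) (g l) p = Dx x l p * η p + x p l • θ p)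
    (hu : ∀ l, Sm (gx x ^ (-1 : ℤ)) (u l) univ) (hγ : ∀ p, ∑ l, Dx x l p * u l p = γ p)
    (hu0 : ∀ p, ∑ l, x p l • u l p = 0)
    (hψ : ∀ j, Sm (gx x ^ (-(Q.dF j : ℤ))) (ψ j) univ)
    (hd : ∀ l p, ∑ j, eval (x p) (pderiv l (Q.F j)) • ψ j p = dbar (gx x ^ (-1 : ℤ)) (u l) p) :
    ∑ j, itg (gv x g (Q.F j) * ψ j) = -itg (η * γ) := by
  have := h.cpt
  have hdg : ∀ l, Sm (gx x ^ (1 : ℤ)) (dbar (gx x ^ (1 : ℤ)) (g l)) univ := fun l p hp =>
    (hg l p hp).dbar ((h.pm p).gok_zpow 1)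
  have hdu : ∀ l, Sm (gx x ^ (-1 : ℤ)) (dbar (gx x ^ (-1 : ℤ)) (u l)) univ := fun l p hp =>
    (hu l p hp).dbar ((h.pm p).gok_zpow (-1))
  have h1 : ∑ j, gv x g (Q.F j) * ψ j = ∑ l, g l * dbar (gx x ^ (-1 : ℤ)) (u l) := by
    funext p
    simp only [Finset.sum_apply, Pi.mul_apply, gv, ← hd]
    exact HDEta_sum (fun j l => eval (x p) (pderiv l (Q.F j))) (fun l => g l p) fun j => ψ j p
  have h2 : ∀ l, itg (g l * dbar (gx x ^ (-1 : ℤ)) (u l)) =
      itg (dbar (gx x ^ (1 : ℤ)) (g l) * u l) := fun l => by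
    have h3 := ibp_dbar (fun p => (h.pm p).gok_zpow 1) (hg l) (β := u l)
      (by rw [← zpow_neg]; exact hu l)
    have h4 : (fun y => gi (g l y)) = -g l := by
      funext y
      rw [gi_of_Tp (ht l y)]
      norm_num
    rw [h4, neg_mul, itg_neg, ← zpow_neg] at h3
    exact (add_neg_eq_zero.1 h3).symm
  have h5 : ∑ l, dbar (gx x ^ (1 : ℤ)) (g l) * u l = -(η * γ) := by
    funext p
    have h6 : ∀ l, Dx x l p * η p = -(η p * Dx x l p) := fun l => by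
      rw [comm_Dg (Tp_le_Dg (Dx_Ty l p)) (Tp_le_Dg (hη p))]
      norm_num
    simp only [Finset.sum_apply, Pi.mul_apply, Pi.neg_apply, he, h6, add_mul, neg_mul, mul_assoc,
      smul_mul_assoc, ← mul_smul_comm, Finset.sum_add_distrib, Finset.sum_neg_distrib,
      ← Finset.mul_sum, hγ, hu0, mul_zero, add_zero]
  rw [← itg_sum fun j _ => intg_of_compact (HDEta_sm h (HDEta_gv h hg j) (hψ j)), h1,
    itg_sum fun l _ => intg_of_compact (HDEta_sm h (hg l) (hdu l)),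
    Finset.sum_congr rfl fun l _ => h2 l,
    ← itg_sum fun l _ => intg_of_compact (HDEta_sm h (hdg l) (hu l)), h5, itg_neg]

/-- Pointwise `∑ j, z j * φ j = ∑ j, cf (φ j) * φ j`, which has a sign (`pos_n0'`); use `itg_sum`,
`top_zero_of_itg` and `HD_sum_sq`. -/
theorem HD_phi (h : FD Q ∅ x) {g : Fin m → Fm 3 X} {z φ : Fin r → Fm 3 X}
    (hz : ∀ j, Sm (gx x ^ (Q.dF j : ℤ)) (z j) univ)
    (hφ : ∀ j, Sm (gx x ^ (-(Q.dF j : ℤ))) (φ j) univ) (ht : ∀ j, Ty 0 3 (φ j))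
    (h0 : ∀ l p, ∑ j, eval (x p) (pderiv l (Q.F j)) • φ j p = 0)
    (e : ∀ j, z j = gv x g (Q.F j) + cf (φ j)) (hi : ∑ j, itg (z j * φ j) = 0) (j : Fin r) :
    φ j = 0 := by
  have := h.cpt
  have hs : Sm 1 (∑ j, z j * φ j) univ := fun p hp =>
    SmAt.sum fun j _ => HDEta_sm h (hz j) (hφ j) p hp
  have hs' : Sm 1 ((I ^ (3 ^ 2) : ℂ) • ∑ j, z j * φ j) univ := fun p hp => (hs p hp).smul _
  have h1 : ∀ p, (∑ j, z j * φ j) p = ∑ j, cj (φ j p) * cj (cj (φ j p)) := fun p => by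
    have h2 := HDEta_sum (fun j l => eval (x p) (pderiv l (Q.F j))) (fun l => g l p)
      fun j => φ j p
    simp only [h0, mul_zero, Finset.sum_const_zero] at h2
    simp only [Finset.sum_apply, Pi.mul_apply, e, Pi.add_apply, gv, cf, add_mul,
      Finset.sum_add_distrib, h2, zero_add, cj_cj]
  have h3 : ∀ p, top (((I ^ (3 ^ 2) : ℂ) • ∑ j, z j * φ j) p) =
      I ^ (3 ^ 2) * top (∑ j, cj (φ j p) * cj (cj (φ j p))) := fun p => by
    rw [Pi.smul_apply, map_smul, h1, smul_eq_mul]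
  funext p
  have h4 := top_zero_of_itg hs' (intg_of_compact hs')
    (fun y => by rw [h3]; exact HDEta_pos fun j => cj_Tp (ht j y))
    (by rw [itg_smul, itg_sum fun j _ => intg_of_compact (HDEta_sm h (hz j) (hφ j)), hi, mul_zero])
    p
  rw [h3, mul_eq_zero, or_iff_right (pow_ne_zero _ I_ne_zero)] at h4
  have h5 := HD_sum_sq (fun j => cj_Tp (ht j p)) h4 j
  rw [← cj_cj (φ j p), h5, map_zero]
  rfl

end

end Pool.Agent.MP_1c689d_ag.K0

end

section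

/-! Hodge decomposition: the extreme types. -/

set_option autoImplicit false

open Complex Filter Topology Set MeasureTheory MvPolynomial
open scoped ComplexConjugate ContDiff ENNReal

namespace Pool.Agent.MP_1c689d_ag.K0

noncomputable section

variable {m c r : ℕ} {X : Type} [TopologicalSpace X] [Mf 3 X] {Q : PD m 4 c r}
  {x : X → Fin m → ℂ}

theorem HDTop_og (hd : ∀ i, Q.b.dg i ≤ 3) {t : Q.Om} (ht : t ∈ Q.og 0) : t = 0 := by
  refine Q.ext' fun f => ?_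
  rw [Q.val_eq_sum, PD.val_zero, LinearMap.zero_apply]
  refine Finset.sum_eq_zero fun i _ => ?_
  have h1 := (Q.mem_og_iff 0 t).1 ht i
  rw [hz_neg (by have := hd i; push_cast; omega), Submodule.mem_bot] at h1
  rw [h1, mul_zero]

theorem HDTop_anti {α : Fm 3 X} {p : X} (h : SmAt 1 α p) :
    dbar 1 (dp 1 α) p + dp 1 (dbar 1 α) p = 0 := by
  rw [dbar_dp gok_one h, cur_one, Pi.zero_apply, zero_mul]

theorem HDTop_cl {ζ κ : Fm 3 X} (hζ : Cl 3 ζ univ) (hκ : Sm 1 κ univ) : dd (ζ - dd κ) = 0 := by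
  funext p
  rw [dd_sub (hζ.sm p trivial) (hκ p trivial).dd, hζ.cl p trivial, dd_dd (hκ p trivial), sub_zero,
    Pi.zero_apply]

/-- `H³ (O) = 0`: `FD.dual` with `k = 0` (`borelize X`, `zpow_zero`); a holomorphic three-form is
`rl t` with `t ∈ og 0` (`FD.exists_rl`, `RL.surj`, `PD.O_empty`), and `og 0 = 0` by `mem_og_iff`,
`hz_neg`, `val_eq_sum`. -/
theorem HD_van03 (h : FD Q ∅ x) (hd : ∀ i, Q.b.dg i ≤ 3) {ψ : Fm 3 X} (hψ : Sm 1 ψ univ)
    (ht : Ty 0 3 ψ) : ∃ β : Fm 3 X, Sm 1 β univ ∧ Ty 0 2 β ∧ dbar 1 β = ψ := by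
  borelize X
  obtain ⟨R⟩ := h.exists_rl (by norm_num)
  have h1 := h.dual (by norm_num) 0 (q := 2) rfl (ψ := ψ) (by rwa [neg_zero, zpow_zero]) ht
    fun α hα hh => by
      obtain ⟨t, ht, e⟩ := R.surj 0 α hα fun p _ => hh p
      have h2 : α = 0 := funext fun p => by
        rw [← e p (by rw [PD.O_empty]; trivial), HDTop_og hd ht, map_zero]
      rw [h2, zero_mul, itg_zero]
  rwa [neg_zero, zpow_zero] at h1

/-- The conjugate statement (`dp_cf`, `inv_one`). -/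
theorem HD_van30 (h : FD Q ∅ x) (hd : ∀ i, Q.b.dg i ≤ 3) {s : Fm 3 X} (hs : Sm 1 s univ)
    (ht : Ty 3 0 s) : ∃ β : Fm 3 X, Sm 1 β univ ∧ Ty 2 0 β ∧ dp 1 β = s := by
  obtain ⟨β, h1, h2, h3⟩ := HD_van03 h hd (ψ := cf s) (fun p hp => (hs p hp).cf_one)
    fun y => cj_Tp (ht y)
  refine ⟨cf β, fun p hp => (h1 p hp).cf_one, fun y => cj_Tp (h2 y), ?_⟩
  have h4 := dp_cf (G := (1 : Ga X)) (α := β)
  rw [inv_one, h3] at h4
  rw [h4]
  exact funext fun y => cj_cj _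

/-- `dp η = dbar s` by `FD.van_top` (`k = 0`, `q = 0`; `dbar_dp`, `cur_one`), `s = dp β` by
`HD_van30`; then `dp (η + dbar β) = 0`. -/
theorem HD_rep (h : FD Q ∅ x) (hd : ∀ i, Q.b.dg i ≤ 3) {η : Fm 3 X} (hη : Sm 1 η univ)
    (ht : Ty 2 1 η) (h0 : dbar 1 η = 0) :
    ∃ β : Fm 3 X, Sm 1 β univ ∧ Ty 2 0 β ∧ F21 (η + dbar 1 β) := by
  have h1 := h.van_top 0 (q := 0) (by norm_num)
  rw [zpow_zero] at h1
  obtain ⟨s, hs1, hs2, hs3⟩ := h1 (dp 1 η) (fun p hp => (hη p hp).dp gok_one) ht.dp (by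
    funext p
    have h2 := HDTop_anti (hη p trivial)
    rwa [h0, dp_zero, Pi.zero_apply, add_zero] at h2)
  obtain ⟨β, hβ1, hβ2, hβ3⟩ := HD_van30 h hd hs1 hs2
  refine ⟨β, hβ1, hβ2, fun p hp => (hη p hp).add ((hβ1 p hp).dbar gok_one),
    fun y => add_mem (ht y) (hβ2.dbar y), funext fun p => ?_⟩
  have h3 := hη p trivial
  have h4 := hβ1 p trivial
  have h5 := HDTop_anti h4
  rw [hβ3, hs3] at h5
  rw [dd_eq, Pi.add_apply, dp_add gok_one h3 (h4.dbar gok_one), dbar_add h3 (h4.dbar gok_one), h5,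
    h0, dbar_dbar gok_one h4]
  simp

/-- The components of a form of degree three (`sum_prj`). -/
theorem HD_comp {ζ : Fm 3 X} (h : Dgr 3 ζ) : ζ = pf 3 0 ζ + pf 2 1 ζ + pf 1 2 ζ + pf 0 3 ζ := by
  funext y
  have h1 := sum_prj (h y)
  simp only [Finset.sum_range_succ, Finset.sum_range_zero, zero_add] at h1
  simp only [Pi.add_apply, pf]
  conv_lhs => rw [← h1]
  abel

/-- Subtract `dd β` with `dbar β = pf 0 3 ζ`. The `(1,3)` component of `dd ζ' = 0` is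
`dbar (pf 1 2 ζ') + dp (pf 0 3 ζ')` (`dd_eq`, `pf_dbar`, `pf_dp`). -/
theorem HD_kill03 (h : FD Q ∅ x) (hd : ∀ i, Q.b.dg i ≤ 3) {ζ : Fm 3 X} (hζ : Cl 3 ζ univ) :
    ∃ β : Fm 3 X, Sm 1 β univ ∧ Dgr 2 β ∧ pf 0 3 (ζ - dd β) = 0 ∧
      dbar 1 (pf 1 2 (ζ - dd β)) = 0 := by
  obtain ⟨β, h1, h2, h3⟩ := HD_van03 h hd (ψ := pf 0 3 ζ) (fun p hp => (hζ.sm p hp).pf 0 3)
    fun y => prj_mem _
  have h4 : pf 0 3 (ζ - dd β) = 0 := by
    funext p
    have h5 : prj 0 3 (dp 1 β p) = 0 := prj_of_ne (h2.dp p) (by decide)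
    have h6 : prj 0 3 (dbar 1 β p) = dbar 1 β p := prj_of_mem (h2.dbar p)
    simp only [pf, dd_eq, Pi.sub_apply, Pi.add_apply, map_sub, map_add, h5, h6, zero_add,
      Pi.zero_apply]
    rw [h3]
    exact sub_self _
  refine ⟨β, h1, fun y => Tp_le_Dg (p := 0) (q := 2) (h2 y), h4, funext fun p => ?_⟩
  have h7 : SmAt 1 (ζ - dd β) p := (hζ.sm p trivial).sub (h1 p trivial).dd
  have h8 := congrArg (prj 1 3) (congrFun (HDTop_cl hζ h1) p)
  have h9 := pf_dp (a := 0) (b := 3) gok_one h7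
  have h10 := pf_dbar (a := 1) (b := 2) h7
  rw [h4, dp_zero, Pi.zero_apply] at h9
  rw [dd_eq (ζ - dd β), Pi.add_apply, map_add, Pi.zero_apply, map_zero] at h8
  rw [← h10, Pi.zero_apply, ← h8]
  exact (zero_add _).symm.trans (congrArg (· + _) h9.symm)

/-- Subtract `dd μ`, then `dd β` with `dp β` the `(3,0)` component (`HD_van30`); what is left is
closed of type `(2,1)` (`HD_comp`). -/
theorem HD_kill30 (h : FD Q ∅ x) (hd : ∀ i, Q.b.dg i ≤ 3) {ζ μ : Fm 3 X} (hζ : Cl 3 ζ univ)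
    (h03 : pf 0 3 ζ = 0) (hμ : Sm 1 μ univ) (ht : Ty 1 1 μ) (h12 : dbar 1 μ = pf 1 2 ζ) :
    ∃ η : Fm 3 X, F21 η ∧ Ex 2 (ζ - η) := by
  obtain ⟨β, h1, h2, h3⟩ := HD_van30 h hd (s := pf 3 0 ζ) (fun p hp => (hζ.sm p hp).pf 3 0)
    fun y => prj_mem _
  have hκ : Sm 1 (μ + β) univ := fun p hp => (hμ p hp).add (h1 p hp)
  refine ⟨ζ - dd (μ + β), ⟨fun p hp => (hζ.sm p hp).sub (hκ p hp).dd, fun y => ?_,
    HDTop_cl hζ hκ⟩, μ + β, hκ, fun y => add_mem (Tp_le_Dg (p := 1) (q := 1) (ht y))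
      (Tp_le_Dg (p := 2) (q := 0) (h2 y)), (sub_sub_cancel _ _).symm⟩
  have h4 := congrFun (HD_comp hζ.dg) y
  have h5 : (ζ - dd (μ + β)) y = pf 2 1 ζ y - dp 1 μ y - dbar 1 β y := by
    rw [Pi.sub_apply, dd_add (hμ y trivial) (h1 y trivial), dd_eq, dd_eq, h3, h12, h4, h03]
    simp only [Pi.add_apply, Pi.zero_apply]
    abel
  rw [h5]
  exact sub_mem (sub_mem (prj_mem _) (ht.dp y)) (h2.dbar y)

end

end Pool.Agent.MP_1c689d_ag.K0

end

section

/-! Hodge decomposition: forms of type `(1,2)` and the Euler sequence. -/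

set_option autoImplicit false

open Complex Filter Topology Set MeasureTheory MvPolynomial
open scoped ComplexConjugate ContDiff ENNReal

namespace Pool.Agent.MP_1c689d_ag.K0

noncomputable section

variable {m c r : ℕ} {X : Type} [TopologicalSpace X] [Mf 3 X] {Q : PD m 4 c r}
  {x : X → Fin m → ℂ}

theorem HDGam_leib (hx : ∀ p, PMAt (n := 3) x p) {g : Fin m → Fm 3 X}
    (hg : ∀ l, Sm (gx x ^ (-1 : ℤ)) (g l) univ) (p : X) :
    SmAt 1 (fun y => ∑ l, x y l • g l y) p ∧ SmAt 1 (fun y => ∑ l, Dx x l y * g l y) p ∧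
      dbar 1 (fun y => ∑ l, x y l • g l y) p = ∑ l, x p l • dbar (gx x ^ (-1 : ℤ)) (g l) p ∧
      dbar 1 (fun y => ∑ l, Dx x l y * g l y) p = Th x p * ∑ l, x p l • g l p -
        ∑ l, Dx x l p * dbar (gx x ^ (-1 : ℤ)) (g l) p := by
  rw [zpow_neg_one] at hg ⊢
  have hG := (hx p).gok
  have e1 : (fun y => ∑ l, x y l • g l y) = ∑ l, fn 3 (fun y => x y l) * g l := by
    funext y
    rw [Finset.sum_apply]
    exact Finset.sum_congr rfl fun l _ => Algebra.smul_def _ _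
  have e2 : (fun y => ∑ l, Dx x l y * g l y) = ∑ l, Dx x l * g l := by
    funext y
    rw [Finset.sum_apply]
    rfl
  have s1 : ∀ l ∈ Finset.univ, SmAt 1 (fn 3 (fun y => x y l) * g l) p := fun l _ =>
    ((hx p).holAt l).smAt.mul_dual (hg l p trivial) hG
  have s2 : ∀ l ∈ Finset.univ, SmAt 1 (Dx x l * g l) p := fun l _ =>
    ((hx p).Dx_sm l).mul_dual (hg l p trivial) hG
  rw [e1, e2]
  refine ⟨SmAt.sum s1, SmAt.sum s2, ?_, ?_⟩
  · rw [dbar_sum s1]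
    refine Finset.sum_congr rfl fun l _ => ?_
    rw [dbar_mul' hG.mul_inv hG hG.inv ((hx p).holAt l).smAt (hg l p trivial),
      ((hx p).holAt l).dbar, zero_mul, zero_add, fn, AlgHom.commutes, Algebra.smul_def]
  · rw [dbar_sum s2, Finset.mul_sum, ← Finset.sum_sub_distrib]
    refine Finset.sum_congr rfl fun l _ => ?_
    rw [dbar_mul' hG.mul_inv hG hG.inv ((hx p).Dx_sm l) (hg l p trivial), (hx p).dbar_Dx,
      gi_of_Tp (Dx_Ty l p), pow_one, neg_one_smul, neg_mul, smul_mul_assoc, mul_smul_comm,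
      sub_eq_add_neg]

theorem HDGam_surj {p : X} (hi : Imm (n := 3) x p) {w : Λ 3} (hw : w ∈ Tp 3 1 2) :
    ∃ b : Fin m → Λ 3, (∀ l, b l ∈ Tp 3 0 2) ∧ ∑ l, Dx x l p * b l = w := by
  rw [← zero_add 1, Tp_succ_left] at hw
  refine Submodule.span_induction
    (p := fun w _ => ∃ b : Fin m → Λ 3, (∀ l, b l ∈ Tp 3 0 2) ∧ ∑ l, Dx x l p * b l = w)
    ?_ ⟨0, fun _ => zero_mem _, by simp⟩ ?_ ?_ hw
  · rintro _ ⟨j, a, ha, rfl⟩
    obtain ⟨t, ht⟩ := hi _ (dz_mem j)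
    refine ⟨fun l => t l • a, fun l => Submodule.smul_mem _ _ ha, ?_⟩
    rw [ht, Finset.sum_mul]
    exact Finset.sum_congr rfl fun l _ => by rw [smul_mul_assoc, mul_smul_comm]
  · rintro _ _ _ _ ⟨b, hb, rfl⟩ ⟨b', hb', rfl⟩
    refine ⟨fun l => b l + b' l, fun l => add_mem (hb l) (hb' l), ?_⟩
    simp only [mul_add, Finset.sum_add_distrib]
  · rintro t _ _ ⟨b, hb, rfl⟩
    refine ⟨fun l => t • b l, fun l => Submodule.smul_mem _ _ (hb l), ?_⟩
    simp only [mul_smul_comm, Finset.smul_sum]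

theorem HDGam_mul {q : ℕ} {a b : Λ 3} (ha : a ∈ Tp 3 1 0) (hb : b ∈ Tp 3 0 q) :
    a * b ∈ Tp 3 1 q := by
  have h := Tp_mul ha hb
  rwa [add_zero, zero_add] at h

theorem HDGam_lin (a : Fin m → Λ 3) : ∃ A : (Fin m → Λ 3) →ₗ[ℂ] (Unit → Λ 3),
    ∀ b k, A b k = ∑ l, a l * b l :=
  ⟨{ toFun := fun b _ => ∑ l, a l * b l
     map_add' := fun b b' => funext fun _ => by
       simp only [Pi.add_apply, mul_add, Finset.sum_add_distrib]
     map_smul' := fun t b => funext fun _ => by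
       simp only [Pi.smul_apply, mul_smul_comm, Finset.smul_sum, RingHom.id_apply] },
    fun _ _ => rfl⟩

/-- Locally `exists_solve` (one equation; `Tp_succ_left`, `dz_mem`, `Imm`), then `glue_solve` on
`univ`; finally replace `g l` by `g l - conj (x l) • ∑ a, x a • g a` (`sum_conj_Dx`, `PMAt.unit`,
`SmAt.cf`). -/
theorem HD_gam (h : FD Q ∅ x) {γ : Fm 3 X} (hγ : Sm 1 γ univ) (ht : Ty 1 2 γ) :
    ∃ g : Fin m → Fm 3 X, (∀ l, Sm (gx x ^ (-1 : ℤ)) (g l) univ) ∧ (∀ l, Ty 0 2 (g l)) ∧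
      (∀ p, ∑ l, Dx x l p * g l p = γ p) ∧ ∀ p, ∑ l, x p l • g l p = 0 := by
  have := h.cpt
  choose A hA using fun y => HDGam_lin fun l => (Dx x l y : Λ 3)
  obtain ⟨β, b1, b2, b3⟩ := glue_solve (isCompact_univ (X := X))
    (fun _ : Fin m => gx x ^ (-1 : ℤ)) (fun _ => Tp 3 0 2) A (fun y _ => γ y) fun p _ => by
      have hG := (h.pm p).gok
      obtain ⟨β, b1, b2, b3⟩ := exists_solve (p := p) (fun _ : Fin m => gx x ^ (-1 : ℤ))
        (fun _ : Unit => 1) (fun _ _ => gx x) (fun _ => hG.zpow _) (fun _ _ => hG)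
        (fun _ _ => by rw [zpow_neg_one]; exact hG.mul_inv) (fun _ => (0, 2)) (fun _ => (1, 2))
        (fun _ l => Dx x l) (fun _ l => (h.pm p).Dx_sm l)
        (fun _ l => Eventually.of_forall fun y b hb => HDGam_mul (Dx_Ty l y) hb)
        (fun _ => γ) (fun _ => hγ p trivial) (fun _ => Eventually.of_forall ht) fun f hf => by
          obtain ⟨b, hb, e⟩ := HDGam_surj (h.imm p (by simp [PD.Off])) (hf ())
          exact ⟨b, hb, fun _ => e⟩
      exact ⟨β, fun l => (b1 l).eventually (hG.zpow _), b2,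
        b3.mono fun y hy => funext fun k => (hA y _ k).trans (hy k)⟩
  rw [nhdsSet_univ, eventually_top] at b3
  refine ⟨fun l => β l - fn 3 (fun y => conj (x y l)) * fun y => ∑ a, x y a • β a y,
    fun l p _ => (b1 l p trivial).sub (SmAt.mul_right ?_ (HDGam_leib h.pm b1 p).1),
    fun l p => sub_mem (b2 l p) ?_, fun p => ?_, fun p => ?_⟩
  · rw [zpow_neg_one, ← cf_fn]
    exact ((h.pm p).holAt l).smAt.cf (h.pm p).gok
  · rw [fn_mul]
    exact Submodule.smul_mem _ _ (Submodule.sum_mem _ fun a _ => Submodule.smul_mem _ _ (b2 a p))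
  · simp only [fn_mul, Pi.sub_apply, Pi.smul_apply', mul_sub, Finset.sum_sub_distrib,
      mul_smul_comm]
    simp only [← smul_mul_assoc, ← Finset.sum_mul]
    rw [(h.pm p).sum_conj_Dx, zero_mul, sub_zero, ← hA p _ (), b3]
  · simp only [fn_mul, Pi.sub_apply, Pi.smul_apply', smul_sub, Finset.sum_sub_distrib, smul_smul,
      mul_conj]
    rw [← Finset.sum_smul, ← ofReal_sum, (h.pm p).unit.self_of_nhds, ofReal_one, one_smul,
      sub_self]

/-- The Leibniz rule (`dbar_mul'`, `PMAt.dbar_Dx`, `HolAt.dbar`, `gi_of_Tp`). -/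
theorem HD_leib (hx : ∀ p, PMAt (n := 3) x p) {g : Fin m → Fm 3 X}
    (hg : ∀ l, Sm (gx x ^ (-1 : ℤ)) (g l) univ) (p : X) :
    SmAt 1 (fun y => ∑ l, x y l • g l y) p ∧ SmAt 1 (fun y => ∑ l, Dx x l y * g l y) p ∧
      dbar 1 (fun y => ∑ l, x y l • g l y) p = ∑ l, x p l • dbar (gx x ^ (-1 : ℤ)) (g l) p ∧
      dbar 1 (fun y => ∑ l, Dx x l y * g l y) p = Th x p * ∑ l, x p l • g l p -
        ∑ l, Dx x l p * dbar (gx x ^ (-1 : ℤ)) (g l) p := by
  exact HDGam_leib hx hg p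

/-- `g l = dbar (ν l)` by `FD.van_zero` (`k = -1`, `q = 1`), `∑ x l • ν l = dbar f` by
`FD.van_zero` (`k = 0`, `q = 0`); take `μ = Th x * f - ∑ Dx x l * ν l` (`HD_leib`, `dd_Th`,
`dd_eq_zero_iff`). -/
theorem HD_euler (h : FD Q ∅ x) {g : Fin m → Fm 3 X}
    (hg : ∀ l, Sm (gx x ^ (-1 : ℤ)) (g l) univ) (ht : ∀ l, Ty 0 2 (g l))
    (h0 : ∀ l, dbar (gx x ^ (-1 : ℤ)) (g l) = 0) (h1 : ∀ p, ∑ l, x p l • g l p = 0) :
    ∃ μ : Fm 3 X, Sm 1 μ univ ∧ Ty 1 1 μ ∧ ∀ p, dbar 1 μ p = ∑ l, Dx x l p * g l p := by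
  choose ν n1 n2 n3 using fun l =>
    h.van_zero (-1) (q := 1) (by norm_num) (g l) (hg l) (ht l) (h0 l)
  have k := HDGam_leib h.pm n1
  have hv := h.van_zero 0 (q := 0) (by norm_num)
  rw [zpow_zero] at hv
  obtain ⟨f, f1, f2, f3⟩ := hv (fun y => ∑ l, x y l • ν l y) (fun p _ => (k p).1)
    (fun p => Submodule.sum_mem _ fun l _ => Submodule.smul_mem _ _ (n2 l p))
    (funext fun p => by
      rw [(k p).2.2.1]
      simp only [n3]
      exact h1 p)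
  have s1 : ∀ p, SmAt 1 (Th x * f) p := fun p => (h.pm p).Th_sm.mul_left (f1 p trivial)
  have s2 : ∀ p, Th x p * f p ∈ Tp 3 1 1 := fun p => by
    have h2 := Tp_mul (Th_Ty (x := x) p) (f2 p)
    rwa [add_zero] at h2
  refine ⟨Th x * f - fun y => ∑ l, Dx x l y * ν l y, fun p _ => (s1 p).sub (k p).2.1,
    fun p => sub_mem (s2 p) (Submodule.sum_mem _ fun l _ =>
      HDGam_mul (Dx_Ty l p) (n2 l p)), fun p => ?_⟩
  rw [dbar_sub (s1 p) (k p).2.1, (k p).2.2.2,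
    dbar_mul' (by rw [mul_one]) gok_one gok_one (h.pm p).Th_sm (f1 p trivial),
    ((dd_eq_zero_iff (Eventually.of_forall Th_Ty)).1 (h.pm p).dd_Th).2, zero_mul, zero_add, f3,
    gi_of_Tp (Th_Ty p), Even.neg_one_pow ⟨1, rfl⟩, one_smul, sub_sub_cancel]
  simp only [n3]

end

end Pool.Agent.MP_1c689d_ag.K0

end

section

/-! Hodge decomposition: Serre duality for forms of type `(1,2)`. -/

set_option autoImplicit false

open Complex Filter Topology Set MeasureTheory MvPolynomial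
open scoped ComplexConjugate ContDiff ENNReal

namespace Pool.Agent.MP_1c689d_ag.K0

noncomputable section

variable {m c r : ℕ} {X : Type} [TopologicalSpace X] [Mf 3 X] {Q : PD m 4 c r}
  {x : X → Fin m → ℂ}

theorem HD_perp (h : FD Q ∅ x) (p : X) (z : Fin r → Λ 3) :
    ∑ l, x p l • ∑ j, eval (x p) (pderiv l (Q.F j)) • z j = 0 ∧
      ∑ l, Dx x l p * ∑ j, eval (x p) (pderiv l (Q.F j)) • z j = 0 := by
  obtain ⟨h1, h2⟩ := HD_pt_perp h p fun j => cj (z j)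
  have h3 := congrArg cj h1
  have h4 := congrArg cj h2
  simp only [map_sum, map_mul, cj_smul, cj_cj, conj_conj, map_zero] at h3 h4
  exact ⟨h3, h4⟩

theorem HD_hol (R : RL Q ∅ x) {k : ℤ} (t : Q.og k) (p : X) : HFm (gx x ^ k) (R.rl t) p :=
  R.hol k t.1 t.2 p (by rw [PD.O_empty]; trivial)

variable [MeasurableSpace X] [BorelSpace X]

theorem HD_intg (h : FD Q ∅ x) {k : ℤ} {α β : Fm 3 X} (hα : Sm (gx x ^ k) α univ)
    (hβ : Sm (gx x ^ (-k)) β univ) : Intg (α * β) := by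
  have := h.cpt
  refine intg_of_compact fun p hp => (hα p hp).mul_dual ?_ ((h.pm p).gok_zpow k)
  rw [← zpow_neg]
  exact hβ p hp

theorem HD_fun (h : FD Q ∅ x) (R : RL Q ∅ x) {φ : Fin r → Fm 3 X}
    (hφ : ∀ j, Sm (gx x ^ (-(Q.dF j : ℤ))) (φ j) univ) :
    ∃ u : Module.Dual ℂ (∀ j, Q.og (Q.dF j)), ∀ v, u v = ∑ j, itg (R.rl (v j) * φ j) := by
  refine ⟨⟨⟨fun v => ∑ j, itg (R.rl (v j) * φ j), fun v w => ?_⟩, fun t v => ?_⟩, fun _ => rfl⟩
  · rw [← Finset.sum_add_distrib]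
    refine Finset.sum_congr rfl fun j _ => ?_
    rw [Pi.add_apply, Submodule.coe_add, map_add, add_mul,
      itg_add (HD_intg h (fun p _ => (HD_hol R _ p).1) (hφ j))
        (HD_intg h (fun p _ => (HD_hol R _ p).1) (hφ j))]
  · simp only [Pi.smul_apply, Submodule.coe_smul, map_smul, smul_mul_assoc, itg_smul,
      RingHom.id_apply, smul_eq_mul, Finset.mul_sum]

theorem HD_dual (h : FD Q ∅ x) {ψ : Fin r → Fm 3 X}
    (hψ : ∀ j, Sm (gx x ^ (-(Q.dF j : ℤ))) (ψ j) univ) (ht : ∀ j, Ty 0 3 (ψ j))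
    (h0 : ∀ g : Fin m → Fm 3 X, (∀ l, Sm (gx x ^ (1 : ℤ)) (g l) univ) → (∀ l, Ty 3 0 (g l)) →
      (∀ j, dbar (gx x ^ (Q.dF j : ℤ)) (gv x g (Q.F j)) = 0) →
      ∑ j, itg (gv x g (Q.F j) * ψ j) = 0) :
    ∃ μ : Fin r → Fm 3 X, (∀ j, Sm (gx x ^ (-(Q.dF j : ℤ))) (μ j) univ) ∧ (∀ j, Ty 0 2 (μ j)) ∧
      ∀ l p, ∑ j, eval (x p) (pderiv l (Q.F j)) • dbar (gx x ^ (-(Q.dF j : ℤ))) (μ j) p =
        ∑ j, eval (x p) (pderiv l (Q.F j)) • ψ j p := by
  classical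
  obtain ⟨R⟩ := h.exists_rl (by norm_num)
  have hs : ∀ {k : ℤ} (t : Q.og k), Sm (gx x ^ k) (R.rl t) univ := fun t p _ => (HD_hol R t p).1
  let Y : Submodule ℂ (Module.Dual ℂ (∀ j, Q.og (Q.dF j))) :=
    { carrier := {u | ∃ φ : Fin r → Fm 3 X, (∀ j, Sm (gx x ^ (-(Q.dF j : ℤ))) (φ j) univ) ∧
        (∀ j, Ty 0 3 (φ j)) ∧ (∀ l p, ∑ j, eval (x p) (pderiv l (Q.F j)) • φ j p = 0) ∧
        ∀ v, u v = ∑ j, itg (R.rl (v j) * φ j)}
      add_mem' := by
        rintro u u' ⟨φ, a1, a2, a3, a4⟩ ⟨φ', b1, b2, b3, b4⟩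
        refine ⟨φ + φ', fun j p hp => (a1 j p hp).add (b1 j p hp),
          fun j p => add_mem (a2 j p) (b2 j p), fun l p => ?_, fun v => ?_⟩
        · simp only [Pi.add_apply, smul_add, Finset.sum_add_distrib, a3, b3, add_zero]
        · rw [LinearMap.add_apply, a4, b4, ← Finset.sum_add_distrib]
          refine Finset.sum_congr rfl fun j _ => ?_
          rw [Pi.add_apply, mul_add, itg_add (HD_intg h (hs _) (a1 j)) (HD_intg h (hs _) (b1 j))]
      zero_mem' := ⟨0, fun _ _ _ => smAt_zero, fun _ _ => zero_mem _, fun l p => by simp,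
        fun v => by simp [itg_zero]⟩
      smul_mem' := by
        rintro t u ⟨φ, a1, a2, a3, a4⟩
        refine ⟨t • φ, fun j p hp => (a1 j p hp).smul t,
          fun j p => Submodule.smul_mem _ t (a2 j p), fun l p => ?_, fun v => ?_⟩
        · simp only [Pi.smul_apply, smul_comm _ t, ← Finset.smul_sum, a3, smul_zero]
        · simp only [LinearMap.smul_apply, a4, Pi.smul_apply, mul_smul_comm, itg_smul,
            smul_eq_mul, Finset.mul_sum] }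
  obtain ⟨u, hu⟩ := HD_fun h R hψ
  obtain ⟨φ, a1, a2, a3, a4⟩ : u ∈ Y := by
    refine HD_mem_of_ann Y u fun v hv => ?_
    obtain ⟨g, φ, b1, b2, b3, b4, b5, b6⟩ :=
      HD_proj h (z := fun j => R.rl (v j)) (fun j => hs _) fun j => R.ty _
    obtain ⟨y, hy⟩ := HD_fun h R b3
    have hφ := HD_phi h (z := fun j => R.rl (v j)) (fun j => hs _) b3 b4 b5 b6
      ((hy v).symm.trans (hv y ⟨φ, b3, b4, b5, hy⟩))
    have e : ∀ j, gv x g (Q.F j) = R.rl (v j) := fun j => by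
      rw [b6 j, hφ j]
      funext p
      simp [cf]
    have := h0 g b1 b2 fun j => funext fun p => by
      rw [e]
      exact (HD_hol R _ p).2.self_of_nhds
    simpa only [hu, e] using this
  have key : ∀ j, ∃ β : Fm 3 X, Sm (gx x ^ (-(Q.dF j : ℤ))) β univ ∧ Ty 0 2 β ∧
      dbar (gx x ^ (-(Q.dF j : ℤ))) β = ψ j - φ j := fun j => by
    refine h.dual (by norm_num) _ rfl (fun p hp => (hψ j p hp).sub (a1 j p hp))
      (fun p => sub_mem (ht j p) (a2 j p)) fun α hα hh => ?_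
    obtain ⟨t, ht1, ht2⟩ := R.surj _ α hα fun p _ => hh p
    have e : α = R.rl (⟨t, ht1⟩ : Q.og _) :=
      funext fun p => (ht2 p (by rw [PD.O_empty]; trivial)).symm
    have k : ∀ χ : Fin r → Fm 3 X, ∑ i, itg (R.rl ((Pi.single j ⟨t, ht1⟩ :
        ∀ j, Q.og (Q.dF j)) i) * χ i) = itg (α * χ j) := fun χ => by
      rw [Finset.sum_eq_single j, Pi.single_eq_same, e]
      · intro i _ hi
        rw [Pi.single_eq_of_ne hi, Submodule.coe_zero, map_zero, zero_mul, itg_zero]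
      · exact fun hj => absurd (Finset.mem_univ j) hj
    have e2 := (hu (Pi.single j ⟨t, ht1⟩)).symm.trans (a4 _)
    rw [k, k] at e2
    rw [mul_sub, itg_sub (HD_intg h (fun p _ => (hh p).1) (hψ j))
      (HD_intg h (fun p _ => (hh p).1) (a1 j)), e2, sub_self]
  choose μ c1 c2 c3 using key
  refine ⟨μ, c1, c2, fun l p => ?_⟩
  simp only [c3, Pi.sub_apply, smul_sub, Finset.sum_sub_distrib, a3, sub_zero]

theorem HD_serre (h : FD Q ∅ x) (hd : ∀ i, Q.b.dg i ≤ 3) {γ : Fm 3 X} (hγ : Sm 1 γ univ)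
    (ht : Ty 1 2 γ) (h1 : dbar 1 γ = 0) (h0 : ∀ η, F21 η → itg (η * γ) = 0) :
    ∃ μ : Fm 3 X, Sm 1 μ univ ∧ Ty 1 1 μ ∧ dbar 1 μ = γ := by
  have := h.cpt
  obtain ⟨u, u1, u2, u3, u4⟩ := HD_gam h hγ ht
  obtain ⟨ψ, p1, p2, p3⟩ := HD_psi h (w := fun l => dbar (gx x ^ (-1 : ℤ)) (u l))
    (fun l p hp => (u1 l p hp).dbar ((h.pm p).gok_zpow _)) (fun l => (u2 l).dbar)
    (fun p => by
      rw [← (HD_leib h.pm u1 p).2.2.1, funext u4]
      exact congrFun dbar_zero p)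
    (fun p => by
      have := (HD_leib h.pm u1 p).2.2.2
      rw [funext u3, u4, mul_zero, zero_sub] at this
      exact neg_eq_zero.1 (this.symm.trans (congrFun h1 p)))
  obtain ⟨μ, m1, m2, m3⟩ := HD_dual h p1 p2 fun g g1 g2 g3 => by
    obtain ⟨η, θ, e1, e2, e3, -, -, e6⟩ := HD_eta h g1 g2 g3
    obtain ⟨β, b1, -, b3⟩ := HD_rep h hd e1 e2 e3
    have k1 := h0 _ b3
    have k2 := ibp_dbar (G := 1) (fun _ => gok_one) b1 (β := γ) (by rwa [inv_one])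
    rw [inv_one, h1, mul_zero, itg_zero, add_zero] at k2
    rw [add_mul, itg_add (intg_of_compact fun p hp => (e1 p hp).mul_left (hγ p hp))
      (intg_of_compact fun p hp => ((b1 p hp).dbar gok_one).mul_left (hγ p hp)), k2,
      add_zero] at k1
    rw [HD_pair h g1 g2 e2 e6 u1 u3 u4 p1 p3, k1, neg_zero]
  have hz : ∀ l j, pderiv l (Q.F j) ∈ hz m ((Q.dF j : ℤ) - 1) := fun l j =>
    pderiv_hz (mem_hz_nat.2 (Q.Fh j)) l
  have s1 : ∀ l j p, SmAt (gx x ^ (-1 : ℤ)) (ev x (pderiv l (Q.F j)) • μ j) p := fun l j p =>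
    (h.pm p).ev_smul_sm (hz l j) (m1 j p trivial) (by ring)
  have ap : ∀ l p, (∑ j, ev x (pderiv l (Q.F j)) • μ j) p =
      ∑ j, eval (x p) (pderiv l (Q.F j)) • μ j p := fun l p => Finset.sum_apply _ _ _
  obtain ⟨ν, n1, n2, n3⟩ := HD_euler h (g := fun l => u l - ∑ j, ev x (pderiv l (Q.F j)) • μ j)
    (fun l p hp => (u1 l p hp).sub (SmAt.sum fun j _ => s1 l j p))
    (fun l p => sub_mem (u2 l p) (by
      rw [ap]
      exact sum_mem fun j _ => Submodule.smul_mem _ _ (m2 j p)))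
    (fun l => funext fun p => by
      rw [dbar_sub (u1 l p trivial) (SmAt.sum fun j _ => s1 l j p), dbar_sum fun j _ => s1 l j p,
        ← p3, ← m3, Pi.zero_apply, sub_eq_zero]
      exact Finset.sum_congr rfl fun j _ =>
        ((h.pm p).dbar_ev_smul (hz l j) (m1 j p trivial) (by ring)).symm)
    (fun p => by
      simp only [Pi.sub_apply, ap, smul_sub, Finset.sum_sub_distrib, u4, (HD_perp h p _).1,
        sub_zero])
  refine ⟨ν, n1, n2, funext fun p => ?_⟩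
  simp only [n3, Pi.sub_apply, ap, mul_sub, Finset.sum_sub_distrib, u3, (HD_perp h p _).2,
    sub_zero]

end

end Pool.Agent.MP_1c689d_ag.K0

end

section

/-! Hodge decomposition: the conclusion. -/

set_option autoImplicit false

open Complex Filter Topology Set MeasureTheory MvPolynomial
open scoped ComplexConjugate ContDiff ENNReal

namespace Pool.Agent.MP_1c689d_ag.K0

noncomputable section

variable {m c r : ℕ} {X : Type} [TopologicalSpace X] [Mf 3 X] {Q : PD m 4 c r}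
  {x : X → Fin m → ℂ} {α β : Fm 3 X}

theorem HD_ex_add (h : Ex 2 α) (h' : Ex 2 β) : Ex 2 (α + β) := by
  obtain ⟨κ, a1, a2, a3⟩ := h
  obtain ⟨κ', b1, b2, b3⟩ := h'
  refine ⟨κ + κ', fun p hp => (a1 p hp).add (b1 p hp), fun p => add_mem (a2 p) (b2 p),
    funext fun p => ?_⟩
  rw [dd_add (a1 p trivial) (b1 p trivial), a3, b3, Pi.add_apply]

theorem HD_ex_smul (h : Ex 2 α) (t : ℂ) : Ex 2 (t • α) := by
  obtain ⟨κ, a1, a2, rfl⟩ := h
  exact ⟨t • κ, fun p hp => (a1 p hp).smul t, fun p => Submodule.smul_mem _ t (a2 p), dd_smul t⟩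

theorem HD_ex_zero : Ex 2 (0 : Fm 3 X) :=
  ⟨0, fun _ _ => smAt_zero, fun _ => zero_mem _, dd_zero⟩

theorem HD_cl_add (h : Cl 3 α univ) (h' : Cl 3 β univ) : Cl 3 (α + β) univ :=
  ⟨fun p hp => (h.sm p hp).add (h'.sm p hp), fun p => add_mem (h.dg p) (h'.dg p), fun p hp => by
    rw [dd_add (h.sm p hp) (h'.sm p hp), h.cl p hp, h'.cl p hp, add_zero]⟩

theorem HD_cl_smul (h : Cl 3 α univ) (t : ℂ) : Cl 3 (t • α) univ :=
  ⟨fun p hp => (h.sm p hp).smul t, fun p => Submodule.smul_mem _ t (h.dg p), fun p hp => by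
    rw [dd_smul, Pi.smul_apply, h.cl p hp, smul_zero]⟩

theorem HD_cl_dd (h : Sm 1 β univ) (h' : Dgr 2 β) : Cl 3 (dd β) univ :=
  ⟨fun p hp => (h p hp).dd, h'.dd, fun p hp => dd_dd (h p hp)⟩

theorem HD_cl_f (h : F21 α) : Cl 3 α univ :=
  ⟨h.sm, fun y => Tp_le_Dg (n := 3) (p := 2) (q := 1) (h.ty y), fun p _ => congrFun h.cl p⟩

theorem HD_cl_cf (h : Cl 3 α univ) : Cl 3 (cf α) univ :=
  ⟨fun p hp => (h.sm p hp).cf_one, fun p => cj_Dg (h.dg p), fun p hp => by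
    rw [dd_cf, cf, h.cl p hp, map_zero]⟩

theorem HD_f_add (h : F21 α) (h' : F21 β) : F21 (α + β) :=
  ⟨(HD_cl_add (HD_cl_f h) (HD_cl_f h')).sm, fun p => add_mem (h.ty p) (h'.ty p),
    funext fun p => (HD_cl_add (HD_cl_f h) (HD_cl_f h')).cl p trivial⟩

theorem HD_f_smul (h : F21 α) (t : ℂ) : F21 (t • α) :=
  ⟨(HD_cl_smul (HD_cl_f h) t).sm, fun p => Submodule.smul_mem _ t (h.ty p),
    funext fun p => (HD_cl_smul (HD_cl_f h) t).cl p trivial⟩

theorem HD_f_zero : F21 (0 : Fm 3 X) := ⟨fun _ _ => smAt_zero, fun _ => zero_mem _, dd_zero⟩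

omit [TopologicalSpace X] [Mf 3 X] in
theorem HD_cf_zero : cf (0 : Fm 3 X) = 0 := funext fun _ => map_zero cj

section

variable [MeasurableSpace X] [BorelSpace X]

theorem HD_int [CompactSpace X] (h : Cl 3 α univ) (h' : Cl 3 β univ) : Intg (α * β) :=
  intg_of_compact fun p hp => (h.sm p hp).mul_left (h'.sm p hp)

theorem HD_ex_perp [CompactSpace X] (h : Ex 2 α) (h' : Cl 3 β univ) :
    itg (α * β) = 0 ∧ itg (β * α) = 0 := by
  obtain ⟨κ, a1, -, rfl⟩ := h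
  exact itg_exact_mul_closed a1 h'.sm (funext fun p => h'.cl p trivial)

theorem HD_step (h : FD Q ∅ x) (hd : ∀ i, Q.b.dg i ≤ 3) {ζ : Fm 3 X} (hζ : Cl 3 ζ univ)
    (h0 : ∀ η, F21 η → itg (η * ζ) = 0) : ∃ η, F21 η ∧ Ex 2 (ζ - η) := by
  have := h.cpt
  obtain ⟨β, b1, b2, b3, b4⟩ := HD_kill03 h hd hζ
  have hb := HD_cl_dd b1 b2
  have hc : Cl 3 (ζ - dd β) univ := by
    rw [sub_eq_add_neg, ← neg_one_smul ℂ (dd β)]
    exact HD_cl_add hζ (HD_cl_smul hb _)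
  obtain ⟨μ, m1, m2, m3⟩ := HD_serre h hd (γ := pf 1 2 (ζ - dd β))
    (fun p hp => (hc.sm p hp).pf 1 2) (fun p => prj_mem _) b4 fun η hη => by
      have e : itg (η * (ζ - dd β)) = 0 := by
        rw [mul_sub, itg_sub (HD_int (HD_cl_f hη) hζ) (HD_int (HD_cl_f hη) hb), h0 η hη,
          (HD_ex_perp ⟨β, b1, b2, rfl⟩ (HD_cl_f hη)).2, sub_zero]
      refine (itg_congr_top fun p => ?_).trans e
      conv_rhs => rw [HD_comp hc.dg, b3]
      have k1 : top (η p * pf 3 0 (ζ - dd β) p) = 0 :=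
        top_of_Tp (Tp_mul (hη.ty p) (prj_mem _)) (by decide)
      have k2 : top (η p * pf 2 1 (ζ - dd β) p) = 0 :=
        top_of_Tp (Tp_mul (hη.ty p) (prj_mem _)) (by decide)
      simp only [Pi.mul_apply, Pi.add_apply, mul_add, map_add, k1, k2, zero_add, add_zero]
  obtain ⟨η, e1, e2⟩ := HD_kill30 h hd hc b3 m1 m2 m3
  refine ⟨η, e1, ?_⟩
  rw [show ζ - η = ζ - dd β - η + dd β by abel]
  exact HD_ex_add e2 ⟨β, b1, b2, rfl⟩

end

theorem HD_main (h : FD Q ∅ x) (hd : ∀ i, Q.b.dg i ≤ 3) {ζ : Fm 3 X} (hζ : Cl 3 ζ univ) :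
    ∃ η η' : Fm 3 X, F21 η ∧ F21 η' ∧ Ex 2 (ζ - η - cf η') := by
  borelize X
  have := h.cpt
  let C : Submodule ℂ (Fm 3 X) :=
    { carrier := {α | Cl 3 α univ}
      add_mem' := HD_cl_add
      zero_mem' := HD_cl_f HD_f_zero
      smul_mem' := fun t _ h => HD_cl_smul h t }
  let E : Submodule ℂ C :=
    { carrier := {α | Ex 2 α.1}
      add_mem' := HD_ex_add
      zero_mem' := HD_ex_zero
      smul_mem' := fun t _ h => HD_ex_smul h t }
  let S : Submodule ℂ C :=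
    { carrier := {α | ∃ η η' : Fm 3 X, F21 η ∧ F21 η' ∧ Ex 2 (α.1 - η - cf η')}
      add_mem' := by
        rintro a b ⟨η, η', a1, a2, a3⟩ ⟨θ, θ', b1, b2, b3⟩
        refine ⟨η + θ, η' + θ', HD_f_add a1 b1, HD_f_add a2 b2, ?_⟩
        have e : cf (η' + θ') = cf η' + cf θ' := funext fun p => map_add cj _ _
        rw [e, Submodule.coe_add, show a.1 + b.1 - (η + θ) - (cf η' + cf θ') =
          a.1 - η - cf η' + (b.1 - θ - cf θ') by abel]
        exact HD_ex_add a3 b3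
      zero_mem' := ⟨0, 0, HD_f_zero, HD_f_zero, by
        rw [HD_cf_zero, sub_zero, sub_zero]
        exact HD_ex_zero⟩
      smul_mem' := by
        rintro t a ⟨η, η', a1, a2, a3⟩
        refine ⟨t • η, conj t • η', HD_f_smul a1 _, HD_f_smul a2 _, ?_⟩
        have e : cf (conj t • η') = t • cf η' := funext fun p => by
          rw [cf, Pi.smul_apply, cj_smul, conj_conj]
          rfl
        rw [e, Submodule.coe_smul, ← smul_sub, ← smul_sub]
        exact HD_ex_smul a3 t }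
  let B : C →ₗ[ℂ] C →ₗ[ℂ] ℂ := LinearMap.mk₂ ℂ (fun a b => itg (b.1 * a.1))
    (fun a a' b => by
      rw [Submodule.coe_add, mul_add, itg_add (HD_int b.2 a.2) (HD_int b.2 a'.2)])
    (fun t a b => by rw [Submodule.coe_smul, mul_smul_comm, itg_smul, smul_eq_mul])
    (fun a b b' => by
      rw [Submodule.coe_add, add_mul, itg_add (HD_int b.2 a.2) (HD_int b'.2 a.2)])
    (fun t a b => by rw [Submodule.coe_smul, smul_mul_assoc, itg_smul, smul_eq_mul])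
  obtain ⟨s, v, hv, hs⟩ := fin_h (n := 3) (X := X) 2
  have key := HD_eq_top E S
    (fun a ha => ⟨0, 0, HD_f_zero, HD_f_zero, by
      rw [HD_cf_zero, sub_zero, sub_zero]
      exact ha⟩)
    (fun i => ⟨v i, hv i⟩) (fun a => (hs a.1 a.2).imp fun t ht => by
      change Ex 2 _
      simpa only [Submodule.coe_sub, Submodule.coe_sum, Submodule.coe_smul] using ht) B
    (fun e he a => (HD_ex_perp he a.2).symm) fun a ha => by
      obtain ⟨η, e1, e2⟩ := HD_step h hd a.2 fun η hη => ha ⟨η, HD_cl_f hη⟩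
        ⟨η, 0, hη, HD_f_zero, by simpa only [HD_cf_zero, sub_self] using HD_ex_zero⟩
      have c1 := HD_cl_f e1
      have c2 := HD_cl_cf c1
      have k1 : itg (cf η * a.1) = 0 := ha ⟨cf η, c2⟩
        ⟨0, η, HD_f_zero, e1, by simpa only [sub_zero, sub_self] using HD_ex_zero⟩
      have k2 := (HD_ex_perp e2 c2).2
      rw [mul_sub, itg_sub (HD_int c2 a.2) (HD_int c2 c1), k1, zero_sub, neg_eq_zero] at k2
      have k3 := hodge_riemann h.pm (fun p => h.imm p (by simp [PD.Off]))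
        (by simpa only [zpow_zero] using h.van_top 0 (q := 1) (by norm_num)) e1
        (by rw [itg_comm c1.dg c2.dg, k2, mul_zero])
      have k4 := HD_ex_add e2 k3
      rwa [sub_add_cancel] at k4
  exact (key.ge (Submodule.mem_top (x := ⟨ζ, hζ⟩)) :)

end

end Pool.Agent.MP_1c689d_ag.K0

end

section

/-! Interface: the Hodge decomposition in degree three. -/

set_option autoImplicit false

open Complex Filter Topology Set MeasureTheory MvPolynomial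
open scoped ComplexConjugate ContDiff ENNReal

namespace Pool.Agent.MP_1c689d_ag.K0

noncomputable section

theorem hodge_dec {N c r : ℕ} {X : Type} [TopologicalSpace X] [Mf 3 X] {Q : PD N 4 c r}
    {ξ : X → Fin N → ℂ} (hF : FD Q ∅ ξ) (hd : ∀ i, Q.b.dg i ≤ 3) {ζ : Fm 3 X}
    (hζ : Cl 3 ζ univ) : ∃ η η' : Fm 3 X, F21 η ∧ F21 η' ∧ Ex 2 (ζ - η - cf η') :=
  HD_main hF hd hζ

end

end Pool.Agent.MP_1c689d_ag.K0

end

section

/-! Closed three-forms that vanish near a suitable divisor are exact. -/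

set_option autoImplicit false

open Complex Filter Topology Set MeasureTheory MvPolynomial
open scoped ComplexConjugate ContDiff ENNReal

namespace Pool.Agent.MP_1c689d_ag.K0

noncomputable section

section Aux

variable {n : ℕ} {X : Type} [TopologicalSpace X] [Mf n X]

theorem MAIN_add {k : ℕ} {α β : Fm n X} (h : Ex k α) (h' : Ex k β) : Ex k (α + β) := by
  obtain ⟨κ, h1, h2, h3⟩ := h
  obtain ⟨κ', h1', h2', h3'⟩ := h'
  refine ⟨κ + κ', fun p hp => (h1 p hp).add (h1' p hp),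
    fun y => Submodule.add_mem _ (h2 y) (h2' y), funext fun p => ?_⟩
  rw [dd_add (h1 p (mem_univ _)) (h1' p (mem_univ _)), h3, h3']
  rfl

theorem MAIN_smul {k : ℕ} {α : Fm n X} (t : ℂ) (h : Ex k α) : Ex k (t • α) := by
  obtain ⟨κ, h1, h2, h3⟩ := h
  refine ⟨t • κ, fun p hp => (h1 p hp).smul t, fun y => Submodule.smul_mem _ _ (h2 y), ?_⟩
  rw [dd_smul, h3]

/-- The exact forms. -/
def MAIN_E (n : ℕ) (X : Type) [TopologicalSpace X] [Mf n X] (k : ℕ) : Submodule ℂ (Fm n X) where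
  carrier := {α | Ex k α}
  add_mem' := MAIN_add
  zero_mem' := ⟨0, fun _ _ => smAt_zero, fun _ => Submodule.zero_mem _, dd_zero⟩
  smul_mem' := fun t _ h => MAIN_smul t h

theorem MAIN_cf {k : ℕ} {α : Fm n X} (h : Ex k α) : Ex k (cf α) := by
  obtain ⟨κ, h1, h2, h3⟩ := h
  refine ⟨cf κ, fun p hp => (h1 p hp).cf_one, fun y => cj_Dg (h2 y), ?_⟩
  rw [dd_cf, h3]

end Aux

/-- The closed forms of type `(2,1)`. -/
def MAIN_F (X : Type) [TopologicalSpace X] [Mf 3 X] : Submodule ℂ (Fm 3 X) where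
  carrier := {α | F21 α}
  add_mem' := by
    rintro α β ⟨h1, h2, h3⟩ ⟨h1', h2', h3'⟩
    refine ⟨fun p hp => (h1 p hp).add (h1' p hp), fun y => Submodule.add_mem _ (h2 y) (h2' y),
      funext fun p => ?_⟩
    rw [dd_add (h1 p (mem_univ _)) (h1' p (mem_univ _)), h3, h3']
    exact add_zero _
  zero_mem' := ⟨fun _ _ => smAt_zero, fun _ => Submodule.zero_mem _, dd_zero⟩
  smul_mem' := by
    rintro t α ⟨h1, h2, h3⟩
    refine ⟨fun p hp => (h1 p hp).smul t, fun y => Submodule.smul_mem _ _ (h2 y), ?_⟩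
    rw [dd_smul, h3, smul_zero]

theorem MAIN_lin (u : Fin 4 → ℂ) :
    ∃ l : P 4, l.IsHomogeneous 1 ∧ l ≠ 0 ∧ ∀ t : ℂ, eval (t • u) l = 0 := by
  by_cases h : u 0 = 0
  · exact ⟨X 0, isHomogeneous_X ℂ 0, X_ne_zero 0, fun t => by simp [h]⟩
  · refine ⟨C (u 0) * X 1 - C (u 1) * X 0,
      (isHomogeneous_C_mul_X _ _).sub (isHomogeneous_C_mul_X _ _), fun h0 => h ?_, fun t => ?_⟩
    · simpa using congrArg (eval (Pi.single 1 1 : Fin 4 → ℂ)) h0
    · simp only [map_sub, map_mul, eval_C, eval_X, Pi.smul_apply, smul_eq_mul]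
      ring

/-- Descending chains in a finite dimensional quotient. -/
theorem exists_finite_inf {V ι : Type} [AddCommGroup V] [Module ℂ V] (F N : Submodule ℂ V)
    {s : ℕ} (v : Fin s → V) (E : Submodule ℂ V) (hE : E ⊓ F ≤ N)
    (hv : ∀ a ∈ F, ∃ c : Fin s → ℂ, a - ∑ i, c i • v i ∈ E) (K : ι → Submodule ℂ V)
    (hK : ∀ i, N ≤ K i) : ∃ S : Finset ι, ∀ a ∈ F, (∀ i ∈ S, a ∈ K i) → ∀ i, a ∈ K i := by
  classical
  let T : Finset ι → Submodule ℂ (V ⧸ E) := fun S => (F ⊓ ⨅ i ∈ S, K i).map E.mkQ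
  have hT : ∀ S, FiniteDimensional ℂ (T S) := fun S => by
    have : FiniteDimensional ℂ (Submodule.span ℂ (range fun i => E.mkQ (v i))) :=
      FiniteDimensional.span_of_finite ℂ (finite_range _)
    refine Submodule.finiteDimensional_of_le
      (S₂ := Submodule.span ℂ (range fun i => E.mkQ (v i))) ?_
    rintro _ ⟨a, ha, rfl⟩
    obtain ⟨c, hc⟩ := hv a ha.1
    have h1 : E.mkQ a = ∑ i, c i • E.mkQ (v i) := by
      have h2 : E.mkQ (a - ∑ i, c i • v i) = 0 := (Submodule.Quotient.mk_eq_zero E).2 hc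
      rw [map_sub, map_sum, sub_eq_zero] at h2
      simpa only [map_smul] using h2
    rw [h1]
    exact Submodule.sum_mem _ fun i _ =>
      Submodule.smul_mem _ _ (Submodule.subset_span (mem_range_self i))
  obtain ⟨S, -, hS⟩ := (InvImage.wf (fun S : Finset ι => Module.finrank ℂ (T S))
    wellFounded_lt).has_min univ ⟨∅, trivial⟩
  refine ⟨S, fun a ha hi j => ?_⟩
  have h1 : T (insert j S) ≤ T S :=
    Submodule.map_mono (inf_le_inf_left _
      (le_iInf₂ fun i hi => iInf₂_le i (Finset.mem_insert_of_mem hi)))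
  have := hT S
  have h2 : T (insert j S) = T S :=
    Submodule.eq_of_le_of_finrank_le h1 (not_lt.1 (hS (insert j S) trivial))
  have h3 : E.mkQ a ∈ T S := ⟨a, ⟨ha, by
    simpa only [SetLike.mem_coe, Submodule.mem_iInf] using hi⟩, rfl⟩
  rw [← h2] at h3
  obtain ⟨b, ⟨hb1, hb2⟩, hb3⟩ := h3
  have h4 : b ∈ K j := by
    have h5 : ∀ i ∈ insert j S, b ∈ K i := by
      simpa only [SetLike.mem_coe, Submodule.mem_iInf] using hb2
    exact h5 j (Finset.mem_insert_self j S)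
  have h6 : a - b ∈ E := (Submodule.Quotient.eq E).1 hb3.symm
  have h7 := (K j).add_mem (hK j (hE ⟨h6, F.sub_mem ha hb1⟩)) h4
  rwa [sub_add_cancel] at h7

theorem exists_pts_form (Pts : Finset (Fin 4 → ℂ)) : ∃ (q : P 4) (d : ℕ), q.IsHomogeneous d ∧
    q ≠ 0 ∧ ∀ u ∈ Pts, ∀ t : ℂ, eval (t • u) q = 0 := by
  choose l h1 h2 h3 using MAIN_lin
  refine ⟨∏ u ∈ Pts, l u, ∑ _u ∈ Pts, 1, IsHomogeneous.prod _ _ _ fun u _ => h1 u,
    Finset.prod_ne_zero_iff.2 fun u _ => h2 u, fun u hu t => ?_⟩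
  rw [map_prod]
  exact Finset.prod_eq_zero hu (h3 u t)

/-- For every `η` with `F21 η` choose data `ZD` (`exists_zd`); for those with non-trivial `z` choose
`K` and `q` (`exists_detect`); exact forms lie in `K` (take `ζ = 0`, `η2 = 0`). Select finitely many
(`fin_h`), multiply the `q` and the form of `exists_pts_form`. Write `ζ = η + conj η' + d κ`
(`hodge_dec`); `η` and, using `conj ζ`, also `η'` lie in all `K`, so their classes `z` are trivial
and `ex_of_zt` applies. -/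
theorem main_exact {N c' r' m c r : ℕ} {X : Type} [TopologicalSpace X] [Mf 3 X]
    {Q' : PD N 4 c' r'} {ξ : X → Fin N → ℂ} {Q : PD m 4 c r} {Pts : Finset (Fin 4 → ℂ)}
    {x : X → Fin m → ℂ} (h : St Q' ξ Q Pts x) (h0 : Q.H0) (h2 : Q.H2) :
    ∃ (q : P 4) (d : ℕ), q.IsHomogeneous d ∧ q ≠ 0 ∧ (∀ u ∈ Pts, ∀ t : ℂ, eval (t • u) q = 0) ∧
      ∀ ζ : Fm 3 X, Cl 3 ζ univ →
        (∀ p, eval (fun i => x p (Q.yi i)) q = 0 → ∀ᶠ p' in 𝓝 p, ζ p' = 0) → Ex 2 ζ := by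
  classical
  have := h.fd.cpt
  obtain ⟨R⟩ := h.fd.exists_rl (by norm_num)
  choose θ g z hz using fun η : MAIN_F X => exists_zd h R η.2
  choose K q d k1 k2 k3 k4 using
    fun i : {η : MAIN_F X // ¬ ZT Q (z η)} => exists_detect h h0 h2 (hz i.1) i.2
  obtain ⟨s, v, -, hv⟩ := fin_h (n := 3) (X := X) 2
  have hc0 : cf (0 : Fm 3 X) = 0 := funext fun _ => map_zero cj
  obtain ⟨S, hS⟩ := exists_finite_inf (MAIN_F X) (MAIN_E 3 X 2 ⊓ MAIN_F X) v (MAIN_E 3 X 2) le_rfl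
    (fun a ha => hv a ⟨ha.sm, fun y => Tp_le_Dg (ha.ty y), fun p _ => congrFun ha.cl p⟩) K
    fun i a ha => k4 i 0 a 0 ha.2 (MAIN_F X).zero_mem (by
      rw [hc0, sub_zero, zero_sub]
      exact (MAIN_E 3 X 2).neg_mem ha.1) fun _ _ => .of_forall fun _ => rfl
  obtain ⟨q0, d0, e1, e2, e3⟩ := exists_pts_form Pts
  refine ⟨q0 * ∏ i ∈ S, q i, d0 + ∑ i ∈ S, d i,
    e1.mul (IsHomogeneous.prod _ _ _ fun i _ => k1 i),
    mul_ne_zero e2 (Finset.prod_ne_zero_iff.2 fun i _ => k2 i),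
    fun u hu t => by rw [map_mul, e3 u hu t, zero_mul], fun ζ hζ hv0 => ?_⟩
  have key : ∀ ζ η η' : Fm 3 X, F21 η → F21 η' → Ex 2 (ζ - η - cf η') →
      (∀ p, eval (fun i => x p (Q.yi i)) (q0 * ∏ i ∈ S, q i) = 0 → ∀ᶠ p' in 𝓝 p, ζ p' = 0) →
      Ex 2 η := by
    intro ζ η η' a1 a2 a3 a4
    have a5 : ∀ i, η ∈ K i := hS η a1 fun i hi => k4 i ζ η η' a1 a2 a3 fun p hp => a4 p (by
      rw [map_mul, map_prod, Finset.prod_eq_zero hi hp, mul_zero])
    have a6 : ZT Q (z ⟨η, a1⟩) := by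
      by_contra hn
      exact k3 ⟨⟨η, a1⟩, hn⟩ (a5 _)
    refine ex_of_zt h (hz ⟨η, a1⟩) a6 a2 a3 fun p hp => ?_
    intro u hu t ht
    refine notMem_tsupport_iff_eventuallyEq.2 (a4 p ?_) hp
    rw [ht, map_mul, e3 u hu t, zero_mul]
  obtain ⟨η, η', b1, b2, b3⟩ := hodge_dec h.fd' h.le' hζ
  have b4 := key ζ η η' b1 b2 b3 hv0
  have b5 : Ex 2 (cf ζ - η' - cf η) := by
    have b6 : cf (ζ - η - cf η') = cf ζ - η' - cf η := by
      funext y
      simp only [cf, Pi.sub_apply, map_sub, cj_cj]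
      exact sub_right_comm _ _ _
    exact b6 ▸ MAIN_cf b3
  have b7 := key (cf ζ) η' η b2 b1 b5 fun p hp => (hv0 p hp).mono fun y hy => by
    simp only [cf, hy, map_zero]
  have b8 := (MAIN_E 3 X 2).add_mem ((MAIN_E 3 X 2).add_mem b3 (MAIN_cf b7)) b4
  rwa [sub_add_cancel, sub_add_cancel] at b8

end

end Pool.Agent.MP_1c689d_ag.K0

end

section

/-! The theorem. -/

set_option autoImplicit false

open Complex Filter Topology Set MeasureTheory MvPolynomial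
open scoped ComplexConjugate ContDiff ENNReal

namespace Pool.Agent.MP_1c689d_ag.K0

noncomputable section

theorem Final_sc {k i : ℕ} {f : P k} (hf : f.IsHomogeneous i) (t : ℂ) (v : Fin k → ℂ) :
    eval (t • v) f = t ^ i * eval v f := by
  rw [hz_eval_smul (mem_hz_nat.2 hf), zpow_natCast]

theorem Final_ne {k : ℕ} {t : ℂ} {u v : Fin k → ℂ} (e : u = t • v) (hu : u ≠ 0) : t ≠ 0 := by
  rintro rfl
  exact hu (e.trans (zero_smul _ _))

theorem Final_ix {m k c r : ℕ} (Q : PD m k c r) (h : Q.I.IsPrime) : Nonempty Q.b.ι := by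
  by_contra hn
  have : IsEmpty Q.b.ι := not_nonempty_iff.1 hn
  have : Subsingleton (P m ⧸ Q.I) := Q.b.co.toEquiv.subsingleton
  exact h.ne_top (Ideal.Quotient.subsingleton_iff.1 this)

theorem Final_pt {q : P 4} (h : q ≠ 0) : ∃ y : Fin 4 → ℂ, y ≠ 0 ∧ eval y q ≠ 0 := by
  obtain ⟨y, hy⟩ : ∃ y : Fin 4 → ℂ, eval y (X 0 * q) ≠ 0 := by
    by_contra hn
    push Not at hn
    exact mul_ne_zero (X_ne_zero 0) h (MvPolynomial.funext fun y => by rw [hn, map_zero])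
  rw [map_mul, eval_X] at hy
  exact ⟨y, fun e => left_ne_zero_of_mul hy (by rw [e]; rfl), right_ne_zero_of_mul hy⟩

theorem Final_eval {N : ℕ} (g : Fin 4 → P N) (q : P 4) (v : Fin N → ℂ) :
    eval v (aeval g q) = eval (fun i => eval v (g i)) q := by
  induction q using MvPolynomial.induction_on with
  | C a => simp
  | add a b ha hb => simp only [map_add, ha, hb]
  | mul_X a i ha => simp only [map_mul, ha, aeval_X, eval_X]

theorem Final_inj {n : ℕ} {c : ℂ} (h : algebraMap ℂ (Λ n) c = 0) : c = 0 := by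
  have : Nontrivial (Λ n) := ⟨⟨bL n ∅, 0, (bL n).ne_zero ∅⟩⟩
  exact (algebraMap ℂ (Λ n)).injective (h.trans (map_zero _).symm)

/-- `PD.exists_mf`, `exists_st`, `main_exact`. Choose a point `w` of the cone of `Q` with
`q (y w) ≠ 0` (`PD.exists_pt`; the index set of the basis is not empty since `I` is prime), a point
`p` with `x p` proportional to `w`, a tuple `P` for `π` at `ξ p`, and `f = q (P ∘ yi)`
(`MvPolynomial.bind₁`). On `Zo f` the form `q (y)` is not zero. Use `restrictionZero_of_exN`,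
`pd_germ` with `k = 2`, `k' = 3`, and `itg_exact_mul_closed`. Density: `FD.connected` and
`hfm_zero_clopen`. -/
theorem final {N c' r' m c r : ℕ} (Q' : PD N 4 c' r') (Q : PD m 4 c r) (Pts : Finset (Fin 4 → ℂ))
    (π : (Fin N → ℂ) → Fin m → ℂ) (ϱ : (Fin m → ℂ) → Fin N → ℂ) (hS' : Q'.Sm0 ∅)
    (hd : ∀ i, Q'.b.dg i ≤ 3) (hN : Num Q) (hS : Q.Sm0 Pts) (h0 : Q.H0) (h2 : Q.H2)
    (hB : Bir Q' Q Pts π ϱ) :
    ∃ (f : P N) (d : ℕ), f.IsHomogeneous d ∧ (Q'.Zo f).Nonempty ∧ Dense (Q'.Zo f) ∧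
      RestrictionZero (Q'.Zo f) 2 := by
  obtain ⟨M, ξ, hF, hξ⟩ := Q'.exists_mf (n := 3) hS'
  obtain ⟨x, hSt, hx⟩ := exists_st hF hd hN hS hB
  obtain ⟨q, d, hq, hq0, hqP, hex⟩ := main_exact hSt h0 h2
  obtain ⟨y, hy0, hy⟩ := Final_pt hq0
  obtain ⟨w, hw, rfl⟩ := Q.exists_pt (Final_ix Q hN.prime) hy0
  obtain ⟨p, t, hp⟩ := hSt.fd.surj w hw fun u hu t e => hy (by rw [e]; exact hqP u hu t)
  obtain ⟨e, g, hg, hg0, hgπ⟩ := hB.reg (ξ p) (hF.onc p) trivial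
  have hf : (aeval (fun i => g (Q.yi i)) q : P N).IsHomogeneous (e * d) :=
    hq.aeval _ fun i => hg _
  generalize hfd : (aeval (fun i => g (Q.yi i)) q : P N) = f at hf
  have hxq : ∀ p', eval (fun i => x p' (Q.yi i)) q = 0 ↔
      eval (fun i => π (ξ p') (Q.yi i)) q = 0 := by
    intro p'
    obtain ⟨s, hs⟩ := hx p'
    have h1 : (fun i => x p' (Q.yi i)) = s • fun i => π (ξ p') (Q.yi i) := by
      rw [hs]
      rfl
    rw [h1, Final_sc hq, mul_eq_zero,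
      or_iff_right (pow_ne_zero _ (Final_ne hs (hSt.fd.onc p').1))]
  have hfq : ∀ p' (s : ℂ), (fun l => eval (ξ p') (g l)) = s • π (ξ p') →
      ev ξ f p' = s ^ d * eval (fun i => π (ξ p') (Q.yi i)) q := by
    intro p' s hs
    have h1 : (fun i => eval (ξ p') (g (Q.yi i))) = s • fun i => π (ξ p') (Q.yi i) :=
      funext fun i => congrFun hs (Q.yi i)
    rw [ev, ← hfd, Final_eval, h1, Final_sc hq]
  have hp0 : ev ξ f p ≠ 0 := by
    obtain ⟨s, hs⟩ := hgπ (ξ p) (hF.onc p) trivial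
    rw [hfq p s hs]
    refine mul_ne_zero (pow_ne_zero _ (Final_ne hs hg0)) fun h => ?_
    have h1 : (fun i => x p (Q.yi i)) = t • fun i => w (Q.yi i) := by
      rw [hp]
      rfl
    rw [← hxq, h1, Final_sc hq] at h
    exact mul_ne_zero (pow_ne_zero _ (Final_ne hp (hSt.fd.onc p).1)) hy h
  have hZ : Q'.Zo f = {p' | ev ξ f p' = 0}ᶜ := by
    ext p'
    obtain ⟨v, rfl⟩ := Quotient.exists_rep p'
    have key : ∀ v' : Q'.Cn, ev ξ f (Quotient.mk Q'.rel v') = 0 ↔ eval v'.1 f = 0 := by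
      intro v'
      obtain ⟨s, hs⟩ := hξ v'
      rw [ev, hs, Final_sc hf, mul_eq_zero,
        or_iff_right (pow_ne_zero _ (Final_ne hs (hF.onc _).1))]
    constructor
    · rintro ⟨v', h1, h3⟩ h4
      rw [← h1] at h4
      exact h3 ((key v').1 h4)
    · intro h
      exact ⟨v, rfl, fun h1 => h ((key v).2 h1)⟩
  have hU : IsOpen (Q'.Zo f) := hZ ▸ (isClosed_ev hF.pm hf).isOpen_compl
  refine ⟨f, e * d, hf, ⟨p, hZ ▸ hp0⟩, fun p' => ?_, ?_⟩
  · by_contra hn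
    have h1 : ∀ᶠ z in 𝓝 p', fn 3 (ev ξ f) z = 0 := by
      filter_upwards [isClosed_closure.isOpen_compl.mem_nhds hn] with z hz
      have h3 : ev ξ f z = 0 := by
        by_contra h4
        exact hz (subset_closure (hZ ▸ h4))
      rw [fn, h3, map_zero]
    have := hF.connected (by norm_num)
    exact hp0 (Final_inj (hfm_zero_clopen (G := gx ξ ^ ((e * d : ℕ) : ℤ)) isPreconnected_univ
      (fun z _ => (hF.pm z).gok_zpow _)
      (fun z _ => ((hF.pm z).holAt_ev' hf).hfm ((hF.pm z).gok_zpow _)) (fn_Ty _) (mem_univ p') h1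
      p (mem_univ p)))
  · have := hF.cpt
    borelize Q'.Pt
    refine restrictionZero_of_exN hU fun ζ hζ K hK hKU => ?_
    refine pd_germ hU hK hKU (k' := 3) rfl
      ⟨fun z _ => hζ.sm z (mem_univ z), hζ.dg, fun z _ => hζ.cl z (mem_univ z)⟩
      fun β hβ _ hs => ?_
    obtain ⟨κ, hκ, -, rfl⟩ := hex β hβ fun z hz => by
      refine notMem_tsupport_iff_eventuallyEq.1 fun h => ?_
      have h1 := hs h
      rw [hZ] at h1
      obtain ⟨s, hs'⟩ := hgπ (ξ z) (hF.onc z) trivial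
      exact h1 (by rw [mem_ofPred_eq, hfq z s hs', (hxq z).1 hz, mul_zero])
    exact (itg_exact_mul_closed hκ hζ.sm (funext fun z => hζ.cl z (mem_univ z))).2

end

end Pool.Agent.MP_1c689d_ag.K0

end
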