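import Pool.Agent.Mg.F1c689d.G0153f2

set_option linter.all false


section

set_option autoImplicit false

namespace Pool.Agent.MP_1c689d_ag

noncomputable section

variable {U : Type} [TopologicalSpace U]

theorem exists_eps {A : Type} [Fintype A] (d : A → C(U, ℂ)) (hd : ∀ a x, d a x ≠ 0) :
    ∃ ε : C(U, ℝ), (∀ x, 0 < ε x) ∧ ∀ a x, 4 * ε x ≤ ‖d a x‖ := by
  have hpos : ∀ x, 0 < 1 + ∑ a, ‖d a x‖⁻¹ := fun x =>
    add_pos_of_pos_of_nonneg one_pos (Finset.sum_nonneg (fun a _ => by positivity))
  refine ⟨⟨fun x => (4 * (1 + ∑ a, ‖d a x‖⁻¹))⁻¹, ?_⟩, fun x => ?_, fun a x => ?_⟩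
  · apply Continuous.inv₀
    · apply continuous_const.mul
      apply continuous_const.add
      apply continuous_finsetSum
      intro a _
      exact (d a).continuous.norm.inv₀ (fun x => norm_ne_zero_iff.mpr (hd a x))
    · intro x
      have := hpos x
      positivity
  · have := hpos x
    show 0 < (4 * (1 + ∑ a, ‖d a x‖⁻¹))⁻¹
    positivity
  · show 4 * (4 * (1 + ∑ a, ‖d a x‖⁻¹))⁻¹ ≤ _
    have h1 : 0 < ‖d a x‖ := norm_pos_iff.mpr (hd a x)
    have h2 : ‖d a x‖⁻¹ ≤ 1 + ∑ a, ‖d a x‖⁻¹ := by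
      have := Finset.single_le_sum (f := fun a => ‖d a x‖⁻¹) (s := Finset.univ)
        (fun a _ => by positivity) (Finset.mem_univ a)
      linarith
    have h3 := hpos x
    rw [mul_inv, ← mul_assoc, mul_inv_cancel₀ (by norm_num), one_mul]
    exact inv_le_of_inv_le₀ h1 h2

theorem exists_kappa {T : Type} [Fintype T] [DecidableEq T] (μ : T → C(U, ℂ))
    (h0 : ∀ t x, μ t x ≠ 0) (h1 : ∀ t x, μ t x ≠ -1) (h2 : ∀ s t x, s ≠ t → μ s x ≠ μ t x) :
    ∃ (κ : C(U × I, ℂ)) (ω : T → C(U × I, ℝ)) (η : T → C(U × I, ℂ)),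
      (∀ t q, ω t q ≤ 1) ∧ (∀ t q, 1 + κ q * μ t q.1 = ((1 - ω t q : ℝ) : ℂ) * η t q) ∧
      (∀ t q, η t q ≠ 0 ∨ q ∈ interior {q | ω t q = 1}) ∧ (∀ q, (κ q).re ≤ 1) ∧
      (∀ x, κ (x, 0) = 0) ∧ (∀ t x, ω t (x, 0) = 0) ∧ (∀ x, κ (x, 1) = 1) := by
  let z : T → C(U, ℂ) := fun t => ⟨fun x => -(μ t x)⁻¹, ((μ t).continuous.inv₀ (h0 t)).neg⟩
  have hz : ∀ t x, z t x * μ t x = -1 := by
    intro t x
    show -(μ t x)⁻¹ * μ t x = -1
    rw [neg_mul, inv_mul_cancel₀ (h0 t x)]
  let d : T ⊕ T ⊕ {q : T × T // q.1 ≠ q.2} → C(U, ℂ) :=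
    Sum.elim z (Sum.elim (fun t => z t - 1) (fun q => z q.1.1 - z q.1.2))
  obtain ⟨ε, hε, hd⟩ := exists_eps d (by
    rintro (t | t | ⟨⟨s, t⟩, hst⟩) x
    · intro h
      have := hz t x
      rw [show z t x = 0 from h] at this
      simp at this
    · intro h
      have h3 : z t x - 1 = 0 := h
      have := hz t x
      rw [sub_eq_zero.mp h3, one_mul] at this
      exact h1 t x this
    · intro h
      have h3 : z s x - z t x = 0 := h
      apply h2 s t x hst
      have h4 : -(μ s x)⁻¹ = -(μ t x)⁻¹ := sub_eq_zero.mp h3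
      exact inv_injective (neg_injective h4))
  have d0 : ∀ t x, 4 * ε x ≤ ‖z t x‖ := fun t x => hd (Sum.inl t) x
  have d1 : ∀ t x, 4 * ε x ≤ ‖z t x - 1‖ := fun t x => hd (Sum.inr (Sum.inl t)) x
  have d2 : ∀ s t x, s ≠ t → 4 * ε x ≤ ‖z s x - z t x‖ :=
    fun s t x h => hd (Sum.inr (Sum.inr ⟨(s, t), h⟩)) x
  let τ : C(U × I, ℂ) := ⟨fun q => ((q.2 : ℝ) : ℂ),
    Complex.continuous_ofReal.comp (continuous_subtype_val.comp continuous_snd)⟩
  let ρ : T → C(U × I, ℝ) := fun t => ⟨fun q => ‖τ q - z t q.1‖ / ε q.1,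
    (τ.continuous.sub ((z t).continuous.comp continuous_fst)).norm.div
      (ε.continuous.comp continuous_fst) (fun q => (hε q.1).ne')⟩
  let ω : T → C(U × I, ℝ) := fun t => ⟨fun q => max 0 (min 1 (2 - ρ t q)),
    continuous_const.max (continuous_const.min (continuous_const.sub (ρ t).continuous))⟩
  have ω0 : ∀ t q, 0 ≤ ω t q := fun t q => le_max_left _ _
  have ω1 : ∀ t q, ω t q ≤ 1 := fun t q => max_le zero_le_one (min_le_left _ _)
  have ωpos : ∀ t q, ω t q ≠ 0 → ‖τ q - z t q.1‖ < 2 * ε q.1 := by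
    intro t q h
    by_contra hc
    apply h
    show max 0 (min 1 (2 - ‖τ q - z t q.1‖ / ε q.1)) = 0
    apply max_eq_left
    apply min_le_of_right_le
    rw [sub_nonpos, le_div_iff₀ (hε q.1)]
    exact not_lt.mp hc
  have ωone : ∀ t q, ρ t q < 1 → ω t q = 1 := by
    intro t q h
    show max 0 (min 1 (2 - ρ t q)) = 1
    rw [min_eq_left (by linarith), max_eq_right zero_le_one]
  have disj : ∀ s t q, s ≠ t → ω t q ≠ 0 → ω s q = 0 := by
    intro s t q hst ht
    by_contra hs
    have a := ωpos t q ht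
    have b := ωpos s q hs
    have c := d2 s t q.1 hst
    have e : z s q.1 - z t q.1 = (τ q - z t q.1) - (τ q - z s q.1) := by ring
    have := norm_sub_le (τ q - z t q.1) (τ q - z s q.1)
    rw [← e] at this
    linarith
  let δ : T → C(U × I, ℂ) := fun t => ⟨fun q => ((ω t q : ℝ) : ℂ) * (z t q.1 - τ q),
    (Complex.continuous_ofReal.comp (ω t).continuous).mul
      (((z t).continuous.comp continuous_fst).sub τ.continuous)⟩
  have hδ : ∀ t q, δ t q = ((ω t q : ℝ) : ℂ) * (z t q.1 - τ q) := fun _ _ => rfl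
  have hsum : ∀ (S : Finset T) t q, ω t q ≠ 0 → ∑ s ∈ S, δ s q = if t ∈ S then δ t q else 0 := by
    intro S t q ht
    rw [← Finset.sum_ite_eq' S t (fun s => δ s q)]
    apply Finset.sum_congr rfl
    intro s _
    split_ifs with h
    · rfl
    · rw [hδ, disj s t q h ht]
      simp
  have hsum0 : ∀ (S : Finset T) q, (∀ s ∈ S, ω s q = 0) → ∑ s ∈ S, δ s q = 0 := by
    intro S q h
    apply Finset.sum_eq_zero
    intro s hs
    rw [hδ, h s hs]
    simp
  refine ⟨τ + ∑ t, δ t, ω, fun t => 1 + (τ + ∑ s ∈ Finset.univ.erase t, δ s) *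
    (μ t).comp ContinuousMap.fst, ω1, ?_, ?_, ?_, ?_, ?_, ?_⟩
  · intro t q
    simp only [ContinuousMap.add_apply, ContinuousMap.sum_apply, ContinuousMap.mul_apply,
      ContinuousMap.one_apply, ContinuousMap.comp_apply, ContinuousMap.fst_apply]
    by_cases ht : ω t q = 0
    · rw [← Finset.add_sum_erase _ _ (Finset.mem_univ t), hδ, ht]
      simp
    · rw [hsum _ t q ht, hsum _ t q ht, if_pos (Finset.mem_univ t), if_neg (by simp), hδ]
      push_cast
      linear_combination (ω t q : ℂ) * hz t q.1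
  · intro t q
    by_cases hρ : ρ t q < 1
    · right
      apply interior_maximal _ (isOpen_lt (ρ t).continuous continuous_const) hρ
      intro q' hq'
      exact ωone t q' hq'
    · left
      simp only [ContinuousMap.add_apply, ContinuousMap.sum_apply, ContinuousMap.mul_apply,
        ContinuousMap.one_apply, ContinuousMap.comp_apply, ContinuousMap.fst_apply]
      intro h
      have h3 : τ q + ∑ s ∈ Finset.univ.erase t, δ s q = z t q.1 := by
        apply mul_right_cancel₀ (h0 t q.1)
        rw [hz]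
        linear_combination h
      by_cases hall : ∀ s ∈ Finset.univ.erase t, ω s q = 0
      · rw [hsum0 _ q hall, add_zero] at h3
        apply hρ
        show ‖τ q - z t q.1‖ / ε q.1 < 1
        rw [h3]
        simp
      · push Not at hall
        obtain ⟨s, hs, hω⟩ := hall
        rw [hsum _ s q hω, if_pos hs, hδ] at h3
        have a := ωpos s q hω
        have c := d2 t s q.1 (Finset.ne_of_mem_erase hs).symm
        have e : z t q.1 - z s q.1 = ((1 - ω s q : ℝ) : ℂ) * (τ q - z s q.1) := by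
          rw [← h3]
          push_cast
          ring
        rw [e, norm_mul, Complex.norm_real, Real.norm_of_nonneg (by linarith [ω1 s q])] at c
        have b := ω0 s q
        have b1 := ω1 s q
        have := hε q.1
        nlinarith [norm_nonneg (τ q - z s q.1)]
  · intro q
    simp only [ContinuousMap.add_apply, ContinuousMap.sum_apply]
    have hτ : (τ q).re ≤ 1 := q.2.2.2
    by_cases hall : ∀ s ∈ Finset.univ, ω s q = 0
    · rw [hsum0 _ q hall, add_zero]
      exact hτ
    · push Not at hall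
      obtain ⟨s, hs, hω⟩ := hall
      rw [hsum _ s q hω, if_pos hs, hδ]
      have a := ωpos s q hω
      have c := d1 s q.1
      have hzr : (z s q.1).re ≤ 1 := by
        by_contra hc
        push Not at hc
        have hi : (τ q).im = 0 := Complex.ofReal_im _
        have : ‖z s q.1 - 1‖ ≤ ‖τ q - z s q.1‖ := by
          rw [← sq_le_sq₀ (norm_nonneg _) (norm_nonneg _), Complex.sq_norm, Complex.sq_norm,
            Complex.normSq_apply, Complex.normSq_apply]
          simp only [Complex.sub_re, Complex.sub_im, Complex.one_re, Complex.one_im, hi]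
          nlinarith
        have := hε q.1
        linarith
      simp only [Complex.add_re, Complex.re_ofReal_mul, Complex.sub_re]
      nlinarith [ω0 s q, ω1 s q]
  · intro x
    have hall : ∀ s ∈ Finset.univ, ω s (x, 0) = 0 := by
      intro s _
      by_contra h
      have a := ωpos s _ h
      have e : τ (x, 0) = 0 := by simp [τ]
      rw [e, zero_sub, norm_neg] at a
      linarith [d0 s x, hε x]
    simp only [ContinuousMap.add_apply, ContinuousMap.sum_apply]
    rw [hsum0 _ _ hall]
    simp [τ]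
  · intro s x
    by_contra h
    have a := ωpos s _ h
    have e : τ (x, 0) = 0 := by simp [τ]
    rw [e, zero_sub, norm_neg] at a
    linarith [d0 s x, hε x]
  · intro x
    have hall : ∀ s ∈ Finset.univ, ω s (x, 1) = 0 := by
      intro s _
      by_contra h
      have a := ωpos s _ h
      have e : τ (x, 1) = 1 := by simp [τ]
      rw [e, norm_sub_rev] at a
      linarith [d1 s x, hε x]
    simp only [ContinuousMap.add_apply, ContinuousMap.sum_apply]
    rw [hsum0 _ _ hall]
    simp [τ]

/-- continuous roots on a simplex -/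
theorem exists_root {n p : ℕ} (hp : p ≠ 0) (g : C(Sx n, ℂ)) (hg : ∀ s, g s ≠ 0) :
    ∃ f : C(Sx n, ℂ), ∀ s, f s ^ p = g s := by
  have hc : Convex ℝ (stdSimplex ℝ (Fin (n + 1))) := convex_stdSimplex ℝ _
  have : ContractibleSpace (Sx n) := hc.contractibleSpace ⟨_, (vx 0 : Sx n).2⟩
  have : LocallyPathConnectedSpace (Sx n) := hc.locallyPathConnectedSpace
  obtain ⟨f, hf, h⟩ := Complex.exists_continuousOn_pow_eq (X := Sx n) (U := Set.univ)
    (by
      have : ContractibleSpace (Set.univ : Set (Sx n)) :=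
        (Homeomorph.Set.univ (Sx n)).contractibleSpace
      show SimplyConnectedSpace (Set.univ : Set (Sx n))
      infer_instance) isOpen_univ g.continuous.continuousOn
    (by rintro ⟨s, _, hs⟩; exact hg s hs) hp
  exact ⟨⟨f, continuousOn_univ.mp hf⟩, h⟩

/-- a continuous function with values in the roots of unity is constant -/
theorem root_const {n p : ℕ} (hp : p ≠ 0) (f : C(Sx n, ℂ)) (c : ℂ) (h : ∀ s, f s ^ p = c)
    (s t : Sx n) : f s = f t := by
  have hfin : (Set.range f).Finite := by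
    apply Set.Finite.subset (Polynomial.nthRoots p c).toFinset.finite_toSet
    rintro _ ⟨s, rfl⟩
    simp only [Finset.mem_coe, Multiset.mem_toFinset]
    rw [Polynomial.mem_nthRoots (Nat.pos_of_ne_zero hp)]
    exact h s
  have hpc : IsPreconnected (Set.range f) := isPreconnected_range f.continuous
  exact (hfin.countable.isTotallyDisconnected _ subset_rfl hpc) ⟨s, rfl⟩ ⟨t, rfl⟩

end

end Pool.Agent.MP_1c689d_ag

end

section

set_option autoImplicit false

namespace Pool.Agent.MP_1c689d_ag

noncomputable section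

open Matrix

section roots

variable (p : ℕ) [NeZero p]

/-- the standard character -/
abbrev ee (k : ZMod p) : ℂ := ZMod.stdAddChar k

theorem ee_pow (k : ZMod p) : ee p k ^ p = 1 := by
  rw [← AddChar.map_nsmul_eq_pow]
  simp

theorem ee_ne (k : ZMod p) : ee p k ≠ 0 := by
  intro h
  have := ee_pow p k
  rw [h, zero_pow (NeZero.ne p)] at this
  exact zero_ne_one this

theorem ee_add (k l : ZMod p) : ee p (k + l) = ee p k * ee p l := AddChar.map_add_eq_mul _ _ _

theorem ee_zero : ee p 0 = 1 := AddChar.map_zero_eq_one _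

theorem exists_ee (z : ℂ) (hz : z ^ p = 1) : ∃ k, ee p k = z := by
  obtain ⟨i, _, hi⟩ := (Complex.isPrimitiveRoot_exp p (NeZero.ne p)).eq_pow_of_pow_eq_one hz
  refine ⟨((i : ℤ) : ZMod p), ?_⟩
  rw [ee, ZMod.stdAddChar_coe, ← hi, ← Complex.exp_nat_mul]
  congr 1
  push_cast
  ring

open Classical in
/-- chosen continuous root -/
def root {n : ℕ} (g : C(Sx n, ℂ)) : C(Sx n, ℂ) :=
  if h : ∀ s, g s ≠ 0 then (exists_root (NeZero.ne p) g h).choose else 0

theorem root_pow {n : ℕ} (g : C(Sx n, ℂ)) (h : ∀ s, g s ≠ 0) (s : Sx n) :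
    root p g s ^ p = g s := by
  rw [root, dif_pos h]
  exact (exists_root (NeZero.ne p) g h).choose_spec s

theorem root_unique {n : ℕ} (f g : C(Sx n, ℂ)) (h : ∀ s, f s ^ p = g s ^ p) (hg : ∀ s, g s ≠ 0) :
    ∃ k, ∀ s, f s = ee p k * g s := by
  let q : C(Sx n, ℂ) := ⟨fun s => f s / g s, f.continuous.div g.continuous hg⟩
  have hq : ∀ s, q s ^ p = 1 := by
    intro s
    show (f s / g s) ^ p = 1
    rw [div_pow, h, div_self (pow_ne_zero _ (hg s))]
  obtain ⟨k, hk⟩ := exists_ee p _ (hq (vx 0))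
  refine ⟨k, fun s => ?_⟩
  rw [hk, root_const (NeZero.ne p) q 1 hq (vx 0) s]
  show f s = f s / g s * g s
  rw [div_mul_cancel₀ _ (hg s)]

/-- principal root -/
def prt (z : ℂ) : ℂ := z ^ ((p : ℂ)⁻¹)

theorem prt_pow (z : ℂ) : prt p z ^ p = z := Complex.cpow_nat_inv_pow z (NeZero.ne p)

theorem prt_zero : prt p 0 = 0 := Complex.zero_cpow (inv_ne_zero (Nat.cast_ne_zero.mpr (NeZero.ne p)))

omit [NeZero p] in
theorem prt_one : prt p 1 = 1 := Complex.one_cpow _

theorem prt_contAt (z : ℂ) (hz : 0 ≤ z.re) : ContinuousAt (prt p) z := by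
  apply Complex.continuousAt_cpow_const_of_re_pos (Or.inl hz)
  rw [← Complex.ofReal_natCast, ← Complex.ofReal_inv, Complex.ofReal_re]
  exact inv_pos.mpr (Nat.cast_pos.mpr (Nat.pos_of_ne_zero (NeZero.ne p)))

theorem prt_cont {A : Type} [TopologicalSpace A] (f : A → ℂ) (hf : Continuous f)
    (h : ∀ a, 0 ≤ (f a).re) : Continuous (fun a => prt p (f a)) :=
  continuous_iff_continuousAt.mpr (fun a => (prt_contAt p _ (h a)).comp hf.continuousAt)

end roots

variable {p : ℕ} [NeZero p] {ι : Type} [Fintype ι] {r : ℕ} {M : Matrix (Fin r) ι ℂ}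

/-- the diagonal action -/
def act (g : ι → ZMod p) : C(Cone p M, Cone p M) where
  toFun x := ⟨fun j => ee p (g j) * x.1 j, by
    intro h
    apply x.2.1
    funext j
    exact (mul_eq_zero.mp (congrFun h j)).resolve_left (ee_ne p _), by
    simp only [mul_pow, ee_pow, one_mul]
    exact x.2.2⟩
  continuous_toFun := by
    apply Continuous.subtype_mk
    apply continuous_pi
    intro j
    exact continuous_const.mul ((continuous_apply j).comp continuous_subtype_val)

theorem act_val (g : ι → ZMod p) (x : Cone p M) (j : ι) : (act g x).1 j = ee p (g j) * x.1 j := rfl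

theorem act_act (g h : ι → ZMod p) : (act g).comp (act h) = (act (g + h) : C(Cone p M, _)) := by
  ext x j
  simp only [ContinuousMap.comp_apply, act_val, Pi.add_apply, ee_add, mul_assoc]

theorem act_zero : (act 0 : C(Cone p M, _)) = ContinuousMap.id _ := by
  ext x j
  simp only [act_val, Pi.zero_apply, ee_zero, one_mul, ContinuousMap.id_apply]

/-- coefficient attached to a part -/
def lam {T V : Type} (z : V) (m : V) (μ : T → V) : Option (Option T) → V
  | none => z
  | some none => m
  | some (some t) => μ t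

theorem path_lemma {U : Type} [TopologicalSpace U] (f : C(U, Cone p M)) {T : Type} [Fintype T]
    [DecidableEq T] (blk : ι → Option (Option T)) (μ : T → C(U, ℂ))
    (h0 : ∀ t x, μ t x ≠ 0) (h1 : ∀ t x, μ t x ≠ -1) (h2 : ∀ s t x, s ≠ t → μ s x ≠ μ t x)
    (hker : ∀ x, M *ᵥ (fun j => lam 0 (-1) (fun t => μ t x) (blk j) * (f x).1 j ^ p) = 0)
    (j0 : ι) (hb : blk j0 = none) (hx : ∀ x, (f x).1 j0 ≠ 0)
    {n : ℕ} (c : Ch U (n + 1)) (hc : bd c = 0) :
    ∃ (w : Ch (Cone p M) (n + 1)) (v : Ch (Cone p M) (n + 2)),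
      w ∈ Sup {σ' | ∃ σ : C(Sx (n + 1), U), ∀ s j,
        (σ' s).1 j ^ p = (1 + lam 0 (-1) (fun t => μ t (σ s)) (blk j)) * (f (σ s)).1 j ^ p} ∧
      bd v = w - ∑ k : T → ZMod p, push ((act (fun j => lam 0 0 k (blk j))).comp f) c := by
  classical
  obtain ⟨κ, ω, η, ω1, hfac, hcov, hre, κ0, ω0, κ1⟩ := exists_kappa μ h0 h1 h2
  let good : ∀ m, Set C(Sx m, U × I) := fun m =>
    {σ | ∀ t, (∀ s, η t (σ s) ≠ 0) ∨ (∀ s, ω t (σ s) = 1)}
  let A : C(U × I, ℂ) := ⟨fun q => prt p (1 - κ q), prt_cont p _ (continuous_const.sub κ.continuous)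
    (fun q => by simpa using hre q)⟩
  let B : T → C(U × I, ℂ) := fun t => ⟨fun q => prt p ((1 - ω t q : ℝ) : ℂ),
    prt_cont p _ (Complex.continuous_ofReal.comp (continuous_const.sub (ω t).continuous))
    (fun q => by simpa using ω1 t q)⟩
  let β : ∀ m, C(Sx m, U × I) → Option (Option T) → C(Sx m, ℂ) := fun m σ =>
    lam 1 (A.comp σ) (fun t => (B t).comp σ * root p ((η t).comp σ))
  have hβ : ∀ m σ, σ ∈ good m → ∀ q s,
      β m σ q s ^ p = 1 + κ (σ s) * lam 0 (-1) (fun t => μ t (σ s).1) q := by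
    intro m σ hσ q s
    rcases q with _ | _ | t
    · simp [β, lam]
    · show prt p (1 - κ (σ s)) ^ p = 1 + κ (σ s) * (-1)
      rw [prt_pow]
      ring
    · show (prt p ((1 - ω t (σ s) : ℝ) : ℂ) * root p ((η t).comp σ) s) ^ p =
        1 + κ (σ s) * μ t (σ s).1
      rw [hfac, mul_pow, prt_pow]
      rcases hσ t with h | h
      · rw [root_pow p _ h]
        rfl
      · rw [h s]
        simp
  let cand : ∀ m, C(Sx m, U × I) → (T → ZMod p) → Sx m → ι → ℂ := fun m σ k s j =>
    ee p (lam 0 0 k (blk j)) * β m σ (blk j) s * (f (σ s).1).1 j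
  have hcand : ∀ m σ, σ ∈ good m → ∀ k s j, cand m σ k s j ^ p =
      (1 + κ (σ s) * lam 0 (-1) (fun t => μ t (σ s).1) (blk j)) * (f (σ s).1).1 j ^ p := by
    intro m σ hσ k s j
    simp only [cand, mul_pow, ee_pow, one_mul, hβ m σ hσ]
  have hmem : ∀ m σ, σ ∈ good m → ∀ k s, cand m σ k s ≠ 0 ∧
      M *ᵥ (fun j => cand m σ k s j ^ p) = 0 := by
    intro m σ hσ k s
    constructor
    · intro h
      have := hcand m σ hσ k s j0
      rw [h, hb] at this
      simp only [Pi.zero_apply, zero_pow (NeZero.ne p), lam, mul_zero, add_zero, one_mul] at this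
      exact hx _ (pow_eq_zero_iff (NeZero.ne p) |>.mp this.symm)
    · have e : (fun j => cand m σ k s j ^ p) = (fun j => (f (σ s).1).1 j ^ p) + κ (σ s) •
          (fun j => lam 0 (-1) (fun t => μ t (σ s).1) (blk j) * (f (σ s).1).1 j ^ p) := by
        funext j
        rw [hcand m σ hσ]
        simp only [Pi.add_apply, Pi.smul_apply, smul_eq_mul]
        ring
      rw [e, mulVec_add, mulVec_smul, hker, (f (σ s).1).2.2]
      simp
  have hcont : ∀ m σ k, Continuous (cand m σ k) := by
    intro m σ k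
    apply continuous_pi
    intro j
    exact (continuous_const.mul (β m σ (blk j)).continuous).mul
      ((continuous_apply j).comp (continuous_subtype_val.comp
        (f.continuous.comp (continuous_fst.comp σ.continuous))))
  let L : ∀ m, C(Sx m, U × I) → (T → ZMod p) → C(Sx m, Cone p M) := fun m σ k =>
    if h : σ ∈ good m then ⟨fun s => ⟨cand m σ k s, hmem m σ h k s⟩,
      (hcont m σ k).subtype_mk _⟩ else f.comp (ContinuousMap.fst.comp σ)
  have hL : ∀ m σ, σ ∈ good m → ∀ k s j, (L m σ k s).1 j = cand m σ k s j := by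
    intro m σ h k s j
    simp only [L, dif_pos h]
    rfl
  -- comparison of lifts
  have hcomp : ∀ m m' (φ : C(Sx m', Sx m)) σ, σ ∈ good m →
      ∃ k0 : T → ZMod p, ∀ q s, β m' (σ.comp φ) q s = ee p (lam 0 0 k0 q) * β m σ q (φ s) := by
    intro m m' φ σ hσ
    have : ∀ t, ∃ k, ∀ s, B t (σ (φ s)) * root p ((η t).comp (σ.comp φ)) s =
        ee p k * (B t (σ (φ s)) * root p ((η t).comp σ) (φ s)) := by
      intro t
      rcases hσ t with h | h
      · obtain ⟨k, hk⟩ := root_unique p (root p ((η t).comp (σ.comp φ)))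
          ((root p ((η t).comp σ)).comp φ) (fun s => by
            rw [root_pow p _ (fun s => h (φ s)), ContinuousMap.comp_apply (root p _),
              root_pow p _ h]
            rfl) (fun s hs => by
            have := root_pow p ((η t).comp σ) h (φ s)
            rw [ContinuousMap.comp_apply] at hs
            rw [hs, zero_pow (NeZero.ne p)] at this
            exact h (φ s) this.symm)
        refine ⟨k, fun s => ?_⟩
        rw [hk s, ContinuousMap.comp_apply]
        ring
      · refine ⟨0, fun s => ?_⟩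
        have : B t (σ (φ s)) = 0 := by
          show prt p ((1 - ω t (σ (φ s)) : ℝ) : ℂ) = 0
          rw [h, sub_self, Complex.ofReal_zero, prt_zero]
        rw [this]
        simp
    choose k0 hk0 using this
    refine ⟨k0, fun q s => ?_⟩
    rcases q with _ | _ | t
    · simp [β, lam]
    · simp [β, lam]
    · exact hk0 t s
  have lam_add : ∀ (k k' : T → ZMod p) q, lam 0 0 (k + k') q = lam 0 0 k q + lam 0 0 k' q := by
    intro k k' q
    rcases q with _ | _ | t <;> simp [lam]
  have hface : ∀ σ ∈ good (n + 2), ∀ j, ∃ e : (T → ZMod p) ≃ (T → ZMod p), ∀ k,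
      L (n + 1) (σ.comp (face (n + 1) j)) (e k) = (L (n + 2) σ k).comp (face (n + 1) j) := by
    intro σ hσ j
    have hσ' : σ.comp (face (n + 1) j) ∈ good (n + 1) := fun t =>
      (hσ t).imp (fun h s => h _) (fun h s => h _)
    obtain ⟨k0, hk0⟩ := hcomp _ _ (face (n + 1) j) σ hσ
    refine ⟨Equiv.subRight k0, fun k => ?_⟩
    ext s i
    rw [ContinuousMap.comp_apply, hL _ _ hσ', hL _ _ hσ]
    simp only [cand, hk0, ContinuousMap.comp_apply, Equiv.subRight_apply]
    rw [← mul_assoc, ← ee_add, ← lam_add, sub_add_cancel]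
  obtain ⟨w0, hw0⟩ := prism c hc
  obtain ⟨N, hN⟩ := small
    {V : Set (U × I) | IsOpen V ∧ ∀ t, (∀ q ∈ V, η t q ≠ 0) ∨ (∀ q ∈ V, ω t q = 1)}
    (fun V hV => hV.1) (fun q => by
      refine ⟨⋂ t, if η t q ≠ 0 then {q | η t q ≠ 0} else interior {q | ω t q = 1},
        ⟨isOpen_iInter_of_finite (fun t => ?_), fun t => ?_⟩, Set.mem_iInter.mpr (fun t => ?_)⟩
      · split_ifs
        · exact isOpen_ne_fun (η t).continuous continuous_const
        · exact isOpen_interior
      · by_cases h : η t q ≠ 0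
        · left
          intro q' hq'
          have := Set.mem_iInter.mp hq' t
          rwa [if_pos h] at this
        · right
          intro q' hq'
          have := Set.mem_iInter.mp hq' t
          rw [if_neg h] at this
          exact (interior_subset this : q' ∈ {q | ω t q = 1})
      · split_ifs with h
        · exact h
        · exact (hcov t q).resolve_left h) w0
  have hN' : SdN N w0 ∈ Sup (good (n + 2)) := by
    refine Sup_mono ?_ hN
    rintro σ ⟨V, hV, hs⟩ t
    exact (hV.2 t).imp (fun h s => h _ (hs s)) (fun h s => h _ (hs s))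
  have key := transfer (n + 1) (good (n + 2)) (L (n + 2)) (L (n + 1)) hface hN'
  rw [bd_SdN, hw0, map_sub, SdN_push, SdN_push, map_sub] at key
  obtain ⟨w', hw'⟩ := SdN_hom N c hc
  have lev0 : ∀ d : Ch U (n + 1), ext1 (fun σ => ∑ k, sg (L (n + 1) σ k)) (push (lev U 0) d) =
      ∑ k : T → ZMod p, push ((act (fun j => lam 0 0 k (blk j))).comp f) d := by
    intro d
    have : (ext1 (fun σ => ∑ k, sg (L (n + 1) σ k))).comp (push (lev U 0)) =
        ∑ k : T → ZMod p, (push ((act (fun j => lam 0 0 k (blk j))).comp f) :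
          Ch U (n + 1) →ₗ[ℚ] _) := by
      apply lin_ext
      intro τ
      simp only [LinearMap.comp_apply, push_sg, ext1_sg, LinearMap.sum_apply]
      have hη : ∀ t s, η t (τ s, 0) = 1 := by
        intro t s
        have := hfac t (τ s, 0)
        rw [κ0, ω0] at this
        simpa using this.symm
      have hg : (lev U 0).comp τ ∈ good (n + 1) := fun t => Or.inl (fun s => by
        show η t (τ s, 0) ≠ 0
        rw [hη]
        exact one_ne_zero)
      have : ∀ t, ∃ k, ∀ s, root p ((η t).comp ((lev U 0).comp τ)) s = ee p k * (1 : C(_, ℂ)) s := by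
        intro t
        apply root_unique
        · intro s
          rw [root_pow p _ (fun s => by
            show η t (τ s, 0) ≠ 0
            rw [hη]
            exact one_ne_zero)]
          show η t (τ s, 0) = _
          simp [hη]
        · simp
      choose k0 hk0 using this
      rw [← Equiv.sum_comp (Equiv.subRight k0)]
      apply Finset.sum_congr rfl
      intro k _
      congr 1
      ext s i
      rw [hL _ _ hg]
      have hb : ∀ q, β (n + 1) ((lev U 0).comp τ) q s = ee p (lam 0 0 k0 q) := by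
        intro q
        rcases q with _ | _ | t
        · simp [β, lam]
        · show prt p (1 - κ (τ s, 0)) = ee p 0
          rw [κ0, sub_zero, prt_one, ee_zero]
        · show prt p ((1 - ω t (τ s, 0) : ℝ) : ℂ) * root p ((η t).comp ((lev U 0).comp τ)) s =
            ee p (k0 t)
          rw [ω0, hk0]
          simp [prt_one]
      simp only [cand, hb, Equiv.subRight_apply, ContinuousMap.comp_apply, act_val]
      rw [← ee_add, ← lam_add, sub_add_cancel]
      rfl
    have h3 := LinearMap.congr_fun this d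
    rw [LinearMap.sum_apply] at h3
    exact h3
  refine ⟨ext1 (fun σ => ∑ k, sg (L (n + 1) σ k)) (push (lev U 1) (SdN N c)),
    ext1 (fun σ => ∑ k, sg (L (n + 2) σ k)) (SdN N w0) +
      ∑ k : T → ZMod p, push ((act (fun j => lam 0 0 k (blk j))).comp f) w', ?_, ?_⟩
  · apply Sup_map ((ext1 (fun σ => ∑ k, sg (L (n + 1) σ k))).comp (push (lev U 1))) _ _
      (mem_Sup_univ _)
    intro τ _
    simp only [LinearMap.comp_apply, push_sg, ext1_sg]
    apply Submodule.sum_mem
    intro k _
    have hg : (lev U 1).comp τ ∈ good (n + 1) := fun t => Or.inl (fun s h => by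
      have := hfac t (τ s, 1)
      rw [κ1, show η t (τ s, 1) = 0 from h] at this
      apply h1 t (τ s)
      linear_combination this)
    refine sg_mem ⟨τ, fun s j => ?_⟩
    rw [hL _ _ hg, hcand _ _ hg]
    show (1 + κ (τ s, 1) * _) * _ = _
    rw [κ1, one_mul]
    rfl
  · rw [map_add, key, lev0, map_sum]
    simp only [bd_push, hw', map_sub, Finset.sum_sub_distrib]
    abel

end

end Pool.Agent.MP_1c689d_ag

end

section

set_option autoImplicit false

namespace Pool.Agent.MP_1c689d_ag

noncomputable section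

open Matrix MvPolynomial Filter Topology

variable {ι : Type} [Fintype ι] {r : ℕ} {M : Matrix (Fin r) ι ℂ}

omit [Fintype ι] in
theorem eval_smul_hom {Q : MvPolynomial ι ℂ} {d : ℕ} (hQ : Q.IsHomogeneous d) (c : ℂ)
    (u : ι → ℂ) : eval (fun j => c * u j) Q = c ^ d * eval u Q := by
  rw [eval_eq, eval_eq, Finset.mul_sum]
  apply Finset.sum_congr rfl
  intro s hs
  rw [hQ.degree_eq_sum_deg_support hs, ← Finset.prod_pow_eq_pow_sum]
  simp only [mul_pow, Finset.prod_mul_distrib]
  ring

theorem dense_ne (p : ℕ) [NeZero p] (f : MvPolynomial ι ℂ) (u1 : ι → ℂ) (hu : M *ᵥ u1 = 0)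
    (hf : eval u1 f ≠ 0) : Dense {x : Cone p M | eval (fun j => x.1 j ^ p) f ≠ 0} := by
  classical
  intro x
  rw [closure_subtype]
  let u : ι → ℂ := fun j => x.1 j ^ p
  let P : Polynomial ℂ :=
    aeval (fun j => Polynomial.C (u j) + Polynomial.C (u1 j - u j) * Polynomial.X) f
  have hP : ∀ t, P.eval t = eval (fun j => u j + (u1 j - u j) * t) f := by
    intro t
    have := MvPolynomial.comp_aeval_apply (φ := Polynomial.aeval (R := ℂ) t)
      (f := fun j => Polynomial.C (u j) + Polynomial.C (u1 j - u j) * Polynomial.X) f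
    simpa [P, Polynomial.coe_aeval_eq_eval, MvPolynomial.coe_aeval_eq_eval] using this
  have hP0 : P ≠ 0 := by
    intro h
    have := hP 1
    rw [h] at this
    apply hf
    simpa using this.symm
  let y : ι → ℂ := fun j => if x.1 j = 0 then 1 else x.1 j
  let w : ι → ℂ → ℂ := fun j t =>
    if x.1 j = 0 then (u1 j - u j) * t else 1 + (u1 j - u j) / u j * t
  let γ : ℂ → ι → ℂ := fun t j => y j * prt p (w j t)
  have hγ : ∀ t j, γ t j ^ p = u j + (u1 j - u j) * t := by
    intro t j
    simp only [γ, y, w, mul_pow, prt_pow]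
    split_ifs with h
    · simp [u, h, NeZero.ne p]
    · have : u j ≠ 0 := pow_ne_zero _ h
      show u j * _ = _
      field_simp
  have hlim : Tendsto γ (𝓝 0) (𝓝 x.1) := by
    rw [tendsto_pi_nhds]
    intro j
    have hw : ContinuousAt (w j) 0 := by
      simp only [w]
      split_ifs <;> fun_prop
    have hw0 : 0 ≤ (w j 0).re := by
      simp only [w]
      split_ifs <;> simp
    have h1 : ContinuousAt (fun t => γ t j) 0 :=
      continuousAt_const.mul ((prt_contAt p _ hw0).comp hw)
    have h2 : γ 0 j = x.1 j := by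
      simp only [γ, y, w]
      split_ifs with h
      · simp [prt_zero, h]
      · simp [prt_one]
    rw [← h2]
    exact h1
  have hne : ∀ᶠ t in 𝓝 (0 : ℂ), γ t ≠ 0 := hlim.eventually_ne x.2.1
  have hroot : ∀ᶠ t in 𝓝[≠] (0 : ℂ), ¬ P.IsRoot t :=
    nhdsNE_le_cofinite 0 (Polynomial.finite_setOfPred_isRoot hP0).compl_mem_cofinite
  apply mem_closure_of_tendsto (hlim.mono_left (nhdsWithin_le_nhds (s := {0}ᶜ)))
  filter_upwards [hroot, nhdsWithin_le_nhds hne] with t h1 h2
  refine ⟨⟨γ t, h2, ?_⟩, ?_, rfl⟩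
  · have e : (fun j => γ t j ^ p) = (1 - t) • u + t • u1 := by
      funext j
      rw [hγ]
      simp only [Pi.add_apply, Pi.smul_apply, smul_eq_mul]
      ring
    rw [e, mulVec_add, mulVec_smul, mulVec_smul, hu, x.2.2]
    simp
  · show eval (fun j => γ t j ^ p) f ≠ 0
    simp only [hγ]
    rw [← hP]
    exact h1

theorem isOpen_ne (p : ℕ) (f : MvPolynomial ι ℂ) :
    IsOpen {x : Cone p M | eval (fun j => x.1 j ^ p) f ≠ 0} := by
  apply isOpen_ne_fun _ continuous_const
  apply (MvPolynomial.continuous_eval f).comp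
  exact continuous_pi (fun j => ((continuous_apply j).comp continuous_subtype_val).pow p)

theorem dense_prod (p : ℕ) [NeZero p] {A : Type} (S : Finset A) (f : A → MvPolynomial ι ℂ)
    (h : ∀ a ∈ S, ∃ u1, M *ᵥ u1 = 0 ∧ eval u1 (f a) ≠ 0) :
    Dense {x : Cone p M | eval (fun j => x.1 j ^ p) (∏ a ∈ S, f a) ≠ 0} := by
  classical
  induction S using Finset.induction_on with
  | empty => simp
  | insert a S ha ih =>
    obtain ⟨u1, h1, h2⟩ := h a (Finset.mem_insert_self _ _)
    have := (dense_ne p (f a) u1 h1 h2).inter_of_isOpen_left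
      (ih (fun b hb => h b (Finset.mem_insert_of_mem hb))) (isOpen_ne p _)
    apply this.mono
    rintro x ⟨h3, h4⟩
    rw [Finset.prod_insert ha, Set.mem_ofPred_eq, map_mul]
    exact mul_ne_zero h3 h4

/-- all maximal minors are nonzero -/
def MDS (M : Matrix (Fin r) ι ℂ) : Prop :=
  ∀ f : Fin r → ι, Function.Injective f → (M.submatrix id f).det ≠ 0

theorem mulVec_sum_single [DecidableEq ι] (f : Fin r → ι) (c : Fin r → ℂ) :
    M *ᵥ (∑ q, c q • Pi.single (f q) (1 : ℂ)) = (M.submatrix id f) *ᵥ c := by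
  rw [mulVec_sum]
  funext row
  simp only [mulVec_smul, mulVec_single_one, Finset.sum_apply, Pi.smul_apply, smul_eq_mul,
    mulVec, dotProduct, submatrix_apply, id, col_apply]
  exact Finset.sum_congr rfl (fun q _ => mul_comm _ _)

theorem exists_two (hM : MDS M) (hr : r + 2 ≤ Fintype.card ι) (i j : ι) (v : ι → ℂ) :
    ∃ u, M *ᵥ u = 0 ∧ u i = v i ∧ u j = v j := by
  classical
  have hc : r ≤ (Finset.univ \ {i, j} : Finset ι).card := by
    rw [Finset.card_sdiff_of_subset (Finset.subset_univ _), Finset.card_univ]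
    have := Finset.card_le_two (a := i) (b := j)
    omega
  obtain ⟨S, hS, hcard⟩ := Finset.exists_subset_card_eq hc
  let f : Fin r → ι := fun q => (S.equivFinOfCardEq hcard).symm q
  have hf : Function.Injective f :=
    Subtype.val_injective.comp (S.equivFinOfCardEq hcard).symm.injective
  have hfS : ∀ q, f q ≠ i ∧ f q ≠ j := by
    intro q
    have := hS ((S.equivFinOfCardEq hcard).symm q).2
    simpa using this
  let A := M.submatrix id f
  have hA : A.det ≠ 0 := hM f hf
  refine ⟨v - ∑ q, ((A.det)⁻¹ • cramer A (M *ᵥ v)) q • Pi.single (f q) (1 : ℂ), ?_, ?_, ?_⟩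
  · rw [mulVec_sub, mulVec_sum_single, mulVec_smul, mulVec_cramer, smul_smul,
      inv_mul_cancel₀ hA, one_smul, sub_self]
  · simp [Finset.sum_apply, fun q => (hfS q).1.symm]
  · simp [Finset.sum_apply, fun q => (hfS q).2.symm]

/-- block sums of columns -/
def DM (M : Matrix (Fin r) ι ℂ) (b : ι → Option (Fin r)) (u : ι → ℂ) : Matrix (Fin r) (Fin r) ℂ :=
  Matrix.of fun row q => ∑ j, if b j = some q then M row j * u j else 0

theorem DM_mulVec (b : ι → Option (Fin r)) (u : ι → ℂ) (c : Fin r → ℂ) :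
    DM M b u *ᵥ c = M *ᵥ (fun j => (b j).elim 0 c * u j) := by
  funext row
  simp only [DM, mulVec, dotProduct, Matrix.of_apply, Finset.sum_mul]
  rw [Finset.sum_comm]
  apply Finset.sum_congr rfl
  intro j _
  rcases b j with _ | q
  · simp
  · simp only [Option.some.injEq, ite_mul, zero_mul, Finset.sum_ite_eq, Finset.mem_univ, if_true,
      Option.elim_some]
    ring

theorem exists_DM (hM : MDS M) (b : ι → Option (Fin r)) (hb : Function.Surjective b) :
    ∃ u, M *ᵥ u = 0 ∧ (DM M b u).det ≠ 0 := by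
  classical
  choose g hg using hb
  have hginj : Function.Injective g := fun a a' h => by rw [← hg a, ← hg a', h]
  let f : Fin r → ι := fun q => g (some q)
  have hf : Function.Injective f := hginj.comp (Option.some_injective _)
  let A := M.submatrix id f
  have hA : A.det ≠ 0 := hM f hf
  let c := cramer A (M.col (g none))
  have hc : ∀ q, c q ≠ 0 := by
    intro q
    have := hM (Function.update f q (g none)) (by
      intro a a' h
      by_cases ha : a = q <;> by_cases ha' : a' = q
      · rw [ha, ha']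
      · rw [ha, Function.update_self, Function.update_of_ne ha'] at h
        exact absurd (hginj h) (by simp)
      · rw [ha', Function.update_self, Function.update_of_ne ha] at h
        exact absurd (hginj h) (by simp)
      · rw [Function.update_of_ne ha, Function.update_of_ne ha'] at h
        exact hf h)
    have e : A.updateCol q (M.col (g none)) = M.submatrix id (Function.update f q (g none)) := by
      ext row q'
      by_cases h : q' = q
      · simp [h]
      · simp [h, A, updateCol_ne]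
    rw [← e] at this
    exact this
  refine ⟨∑ q, c q • Pi.single (f q) (1 : ℂ) - A.det • Pi.single (g none) (1 : ℂ), ?_, ?_⟩
  · rw [mulVec_sub, mulVec_sum_single, mulVec_cramer, mulVec_smul, mulVec_single_one, sub_self]
  · have e : DM M b (∑ q, c q • Pi.single (f q) (1 : ℂ) - A.det • Pi.single (g none) (1 : ℂ)) =
        A * diagonal c := by
      apply Matrix.ext_of_mulVec_single
      intro q
      rw [DM_mulVec, ← mulVec_mulVec, ← mulVec_sum_single]
      congr 1
      funext j
      simp only [Finset.sum_apply, Pi.sub_apply, Pi.smul_apply, smul_eq_mul, mulVec_diagonal,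
        mul_sub, Finset.mul_sum]
      have h1 : (b j).elim 0 (Pi.single q (1 : ℂ)) * (A.det * (Pi.single (g none) (1 : ℂ) : ι → ℂ) j)
          = 0 := by
        by_cases h : j = g none
        · simp [h, hg]
        · simp [h]
      rw [h1, sub_zero]
      apply Finset.sum_congr rfl
      intro q' _
      by_cases h : j = f q'
      · simp [h, f, hg, mul_comm]
      · simp [h]
    rw [e, det_mul, det_diagonal]
    exact mul_ne_zero hA (Finset.prod_ne_zero_iff.mpr (fun q _ => hc q))

/-- genericity -/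
structure Gen (M : Matrix (Fin r) ι ℂ) (u0 u : ι → ℂ) : Prop where
  det : ∀ b : ι → Option (Fin r), Function.Surjective b → (DM M b u).det ≠ 0
  ne : ∀ j, u j ≠ 0
  cross : ∀ j l, j ≠ l → u0 j * u l ≠ u0 l * u j

theorem exists_Q (p : ℕ) [NeZero p] (hM : MDS M) (hr : r + 2 ≤ Fintype.card ι) :
    ∃ (u0 : ι → ℂ) (Q : MvPolynomial ι ℂ) (d : ℕ), M *ᵥ u0 = 0 ∧ (∀ j, u0 j ≠ 0) ∧
      Q.IsHomogeneous d ∧ Dense {x : Cone p M | eval (fun j => x.1 j ^ p) Q ≠ 0} ∧
      ∀ u, eval u Q ≠ 0 → Gen M u0 u := by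
  classical
  have hX : ∀ j : ι, ∃ u1, M *ᵥ u1 = 0 ∧ eval u1 (X j : MvPolynomial ι ℂ) ≠ 0 := by
    intro j
    obtain ⟨u, h1, h2, _⟩ := exists_two hM hr j j 1
    exact ⟨u, h1, by simp [h2]⟩
  have hne : Nonempty (Cone p M) := by
    obtain ⟨j⟩ : Nonempty ι := Fintype.card_pos_iff.mp (by omega)
    obtain ⟨u, h1, h2⟩ := hX j
    refine ⟨⟨fun j => prt p (u j), fun h => h2 ?_, by simpa only [prt_pow] using h1⟩⟩
    have := prt_pow p (u j)
    rw [congrFun h j] at this
    simpa [NeZero.ne p] using this.symm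
  obtain ⟨x0, hx0⟩ := (dense_prod p Finset.univ (fun j => X j) (fun j _ => hX j)).nonempty
  let u0 : ι → ℂ := fun j => x0.1 j ^ p
  have hu0 : ∀ j, u0 j ≠ 0 := by
    intro j
    simp only [Set.mem_ofPred_eq, map_prod, eval_X] at hx0
    exact Finset.prod_ne_zero_iff.mp hx0 j (Finset.mem_univ j)
  let DP : (ι → Option (Fin r)) → MvPolynomial ι ℂ := fun b =>
    (Matrix.of fun row q => ∑ j, if b j = some q then C (M row j) * X j else 0).det
  have hDP : ∀ b u, eval u (DP b) = (DM M b u).det := by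
    intro b u
    simp only [DP]
    rw [RingHom.map_det]
    congr 1
    ext row q
    simp only [RingHom.mapMatrix_apply, map_apply, of_apply, map_sum, DM]
    apply Finset.sum_congr rfl
    intro j _
    split_ifs <;> simp
  have hDPh : ∀ b, (DP b).IsHomogeneous r := by
    intro b
    simp only [DP]
    rw [det_apply']
    apply IsHomogeneous.sum
    intro σ _
    have : (∏ i : Fin r, (Matrix.of fun row q => ∑ j, if b j = some q then C (M row j) * X j
        else (0 : MvPolynomial ι ℂ)) (σ i) i).IsHomogeneous (∑ i : Fin r, 1) := by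
      apply IsHomogeneous.prod
      intro i _
      apply IsHomogeneous.sum
      intro j _
      split_ifs
      · exact isHomogeneous_C_mul_X _ _
      · exact isHomogeneous_zero _ _ _
    rw [Finset.sum_const, Finset.card_univ, Fintype.card_fin, smul_eq_mul, mul_one] at this
    rw [← map_intCast (C : ℂ →+* MvPolynomial ι ℂ)]
    exact this.C_mul _
  let F : {b : ι → Option (Fin r) // Function.Surjective b} ⊕ ι ⊕ {q : ι × ι // q.1 ≠ q.2} →
      MvPolynomial ι ℂ := Sum.elim (fun b => DP b.1) (Sum.elim X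
        (fun q => C (u0 q.1.1) * X q.1.2 - C (u0 q.1.2) * X q.1.1))
  let dg : {b : ι → Option (Fin r) // Function.Surjective b} ⊕ ι ⊕ {q : ι × ι // q.1 ≠ q.2} → ℕ :=
    Sum.elim (fun _ => r) (fun _ => 1)
  refine ⟨u0, ∏ a, F a, ∑ a, dg a, x0.2.2, hu0, ?_, ?_, ?_⟩
  · apply IsHomogeneous.prod
    rintro (b | j | q) _
    · exact hDPh _
    · exact isHomogeneous_X _ _
    · exact (isHomogeneous_C_mul_X _ _).sub (isHomogeneous_C_mul_X _ _)
  · apply dense_prod
    rintro (b | j | ⟨⟨j, l⟩, hjl⟩) _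
    · obtain ⟨u, h1, h2⟩ := exists_DM hM b.1 b.2
      exact ⟨u, h1, by rwa [← hDP] at h2⟩
    · exact hX j
    · obtain ⟨u, h1, h2, h3⟩ := exists_two hM hr j l (Pi.single l 1)
      refine ⟨u, h1, ?_⟩
      have hjl' : j ≠ l := hjl
      simp [F, h2, h3, hjl', hu0]
  · intro u hu
    rw [map_prod, Finset.prod_ne_zero_iff] at hu
    refine ⟨fun b hb => ?_, fun j => ?_, fun j l hjl => ?_⟩
    · rw [← hDP]
      exact hu (Sum.inl ⟨b, hb⟩) (Finset.mem_univ _)
    · simpa [F] using hu (Sum.inr (Sum.inl j)) (Finset.mem_univ _)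
    · simpa [F, sub_eq_zero] using hu (Sum.inr (Sum.inr ⟨(j, l), hjl⟩)) (Finset.mem_univ _)

theorem rel_zero {u0 u : ι → ℂ} (hg : Gen M u0 u) (c : ι → Option (Option (Fin r)))
    (hc : Function.Surjective c) (Λ : Option (Option (Fin r)) → ℂ)
    (hΛ : M *ᵥ (fun j => Λ (c j) * u j) = 0) (s t : Option (Option (Fin r))) (hst : s ≠ t)
    (hs : Λ s = 0) (ht : Λ t = 0) (q : Option (Option (Fin r))) : Λ q = 0 := by
  classical
  have hcard : Fintype.card {q : Option (Option (Fin r)) // q ≠ s ∧ q ≠ t} = r := by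
    rw [Fintype.card_subtype]
    have : (Finset.univ.filter (fun q : Option (Option (Fin r)) => q ≠ s ∧ q ≠ t)) =
        Finset.univ \ {s, t} := by
      ext q
      simp
    rw [this, Finset.card_sdiff_of_subset (Finset.subset_univ _), Finset.card_pair hst]
    simp
  let ε := Fintype.equivFinOfCardEq hcard
  let β : Option (Option (Fin r)) → Option (Fin r) := fun q =>
    if h : q ≠ s ∧ q ≠ t then some (ε ⟨q, h⟩) else none
  have hβ : Function.Surjective β := by
    rintro (_ | k)
    · exact ⟨s, by simp [β]⟩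
    · exact ⟨(ε.symm k).1, by simp only [β, dif_pos (ε.symm k).2]; simp⟩
  have hel : ∀ q, (β q).elim 0 (fun k => Λ (ε.symm k).1) = Λ q := by
    intro q
    by_cases h : q ≠ s ∧ q ≠ t
    · simp [β, h]
    · simp only [β, dif_neg h, Option.elim_none]
      by_cases h1 : q = s
      · rw [h1, hs]
      · rw [not_not.mp (fun h2 => h ⟨h1, h2⟩), ht]
  have h0 : DM M (β ∘ c) u *ᵥ (fun k => Λ (ε.symm k).1) = 0 := by
    rw [DM_mulVec]
    simp only [Function.comp_apply, hel]
    exact hΛ
  have h1 := eq_zero_of_mulVec_eq_zero (hg.det _ (hβ.comp hc)) h0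
  rw [← hel q, h1]
  rcases β q with _ | k <;> rfl

theorem exists_mu {U : Type} [TopologicalSpace U] {u0 : ι → ℂ} (u : U → ι → ℂ)
    (hu : Continuous u) (hg : ∀ x, Gen M u0 (u x)) (hk : ∀ x, M *ᵥ u x = 0)
    (c : ι → Option (Option (Fin r))) (hc : Function.Surjective c) :
    ∃ μ : Fin r → C(U, ℂ), (∀ t x, μ t x ≠ 0) ∧ (∀ t x, μ t x ≠ -1) ∧
      (∀ s t x, s ≠ t → μ s x ≠ μ t x) ∧
      ∀ x, M *ᵥ (fun j => lam 0 (-1) (fun t => μ t x) (c j) * u x j) = 0 := by
  classical
  let b : ι → Option (Fin r) := fun j => (c j).bind id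
  have hb : Function.Surjective b := by
    intro q
    obtain ⟨j, hj⟩ := hc (some q)
    exact ⟨j, by simp [b, hj]⟩
  let y : U → Fin r → ℂ := fun x => M *ᵥ (fun j => lam 0 1 (fun _ => 0) (c j) * u x j)
  have hy : Continuous y := by
    apply continuous_const.matrix_mulVec
    fun_prop
  have hD : Continuous (fun x => DM M b (u x)) := by
    apply continuous_matrix
    intro row q
    apply continuous_finsetSum
    intro j _
    split_ifs <;> fun_prop
  let m : U → Fin r → ℂ := fun x => ((DM M b (u x)).det)⁻¹ • cramer (DM M b (u x)) (y x)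
  have hm : Continuous m :=
    (hD.matrix_det.inv₀ (fun x => (hg x).det b hb)).smul (hD.matrix_cramer hy)
  have hker : ∀ x, M *ᵥ (fun j => lam 0 (-1) (m x) (c j) * u x j) = 0 := by
    intro x
    have h1 : DM M b (u x) *ᵥ m x = y x := by
      simp only [m]
      rw [mulVec_smul, mulVec_cramer, smul_smul, inv_mul_cancel₀ ((hg x).det b hb), one_smul]
    rw [DM_mulVec, ← sub_eq_zero, ← mulVec_sub] at h1
    rw [← h1]
    congr 1
    funext j
    simp only [b, Pi.sub_apply]
    rcases c j with _ | _ | t <;> simp [lam]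
  have hrel : ∀ x (a : ℂ) s t, s ≠ t → lam 0 (-1) (m x) s = a → lam 0 (-1) (m x) t = a → False := by
    intro x a s t hst hs ht
    have := rel_zero (hg x) c hc (fun q => lam 0 (-1) (m x) q - a) (by
      have e : (fun j => (lam 0 (-1) (m x) (c j) - a) * u x j) =
          (fun j => lam 0 (-1) (m x) (c j) * u x j) - a • u x := by
        funext j
        simp only [Pi.sub_apply, Pi.smul_apply, smul_eq_mul]
        ring
      rw [e, mulVec_sub, mulVec_smul, hker, hk]
      simp) s t hst (sub_eq_zero.mpr hs) (sub_eq_zero.mpr ht)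
    have h1 : (0 : ℂ) - a = 0 := this none
    have h2 : (-1 : ℂ) - a = 0 := this (some none)
    have : (1 : ℂ) = 0 := by linear_combination h1 - h2
    exact one_ne_zero this
  refine ⟨fun t => ⟨fun x => m x t, (continuous_apply t).comp hm⟩, fun t x h => ?_,
    fun t x h => ?_, fun s t x hst h => ?_, hker⟩
  · exact hrel x 0 none (some (some t)) (by simp) rfl h
  · exact hrel x (-1) (some none) (some (some t)) (by simp) rfl h
  · exact hrel x (m x t) (some (some s)) (some (some t)) (by simpa using hst) h rfl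

end

end Pool.Agent.MP_1c689d_ag

end

section

set_option autoImplicit false

namespace Pool.Agent.MP_1c689d_ag

noncomputable section

open Matrix MvPolynomial Filter Topology

variable {p : ℕ} [NeZero p] {ι : Type} [Fintype ι] {r : ℕ} {M : Matrix (Fin r) ι ℂ}
  {H : AddSubgroup (ι → ZMod p)}

/-- the quotient map -/
def pr (M : Matrix (Fin r) ι ℂ) (H : AddSubgroup (ι → ZMod p)) : C(Cone p M, Quo p M H) :=
  ⟨Quotient.mk _, continuous_quotient_mk'⟩

theorem pr_eq {x y : Cone p M} : pr M H x = pr M H y ↔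
    ∃ c : ℂ, c ≠ 0 ∧ ∃ h ∈ H, ∀ j, y.1 j = c * ee p (h j) * x.1 j := Quotient.eq

/-- scaling -/
def scl (c : ℂ) (hc : c ≠ 0) : C(Cone p M, Cone p M) where
  toFun x := ⟨fun j => c * x.1 j, by
    intro h
    apply x.2.1
    funext j
    exact (mul_eq_zero.mp (congrFun h j)).resolve_left hc, by
    have e : (fun j => (c * x.1 j) ^ p) = c ^ p • (fun j => x.1 j ^ p) := by
      funext j
      simp [mul_pow]
    rw [e, mulVec_smul, x.2.2, smul_zero]⟩
  continuous_toFun := by
    apply Continuous.subtype_mk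
    apply continuous_pi
    intro j
    exact continuous_const.mul ((continuous_apply j).comp continuous_subtype_val)

theorem pr_open : IsOpenQuotientMap (pr M H) := by
  refine ⟨Quotient.mk_surjective, (pr M H).continuous, fun V hV => ?_⟩
  rw [← (isQuotientMap_quotient_mk' (s := rel p M H)).isOpen_preimage]
  show IsOpen (pr M H ⁻¹' (pr M H '' V) : Set (Cone p M))
  have : (pr M H ⁻¹' (pr M H '' V) : Set (Cone p M)) =
      ⋃ c : {c : ℂ // c ≠ 0}, ⋃ h : H, ((scl c.1 c.2).comp (act h.1)) ⁻¹' V := by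
    ext y
    simp only [Set.mem_preimage, Set.mem_image, Set.mem_iUnion]
    constructor
    · rintro ⟨x, hx, e⟩
      obtain ⟨c, hc, h, hh, e'⟩ := pr_eq.mp (e.symm : pr M H y = pr M H x)
      refine ⟨⟨c, hc⟩, ⟨h, hh⟩, ?_⟩
      have : ((scl c hc).comp (act h)) y = x := by
        ext j
        rw [e' j, mul_assoc]
        rfl
      rwa [this]
    · rintro ⟨c, h, hy⟩
      refine ⟨_, hy, Eq.symm ?_⟩
      exact pr_eq.mpr ⟨c.1, c.2, h.1, h.2, fun j => (mul_assoc c.1 (ee p (h.1 j)) (y.1 j)).symm⟩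
  rw [this]
  exact isOpen_iUnion (fun c => isOpen_iUnion (fun h => hV.preimage (ContinuousMap.continuous _)))

omit [NeZero p] in
theorem coord_cont (j : ι) : Continuous (fun x : Cone p M => x.1 j) :=
  (continuous_apply j).comp continuous_subtype_val

theorem quo_t2 : T2Space (Quo p M H) := by
  rw [t2Space_iff_of_isOpenQuotientMap pr_open]
  have : {q : Cone p M × Cone p M | pr M H q.1 = pr M H q.2} = ⋃ h : H, ⋂ i, ⋂ j,
      {q | q.2.1 i * (ee p (h.1 j) * q.1.1 j) = q.2.1 j * (ee p (h.1 i) * q.1.1 i)} := by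
    ext ⟨x, y⟩
    simp only [Set.mem_ofPred_eq, Set.mem_iUnion, Set.mem_iInter, pr_eq]
    constructor
    · rintro ⟨c, hc, h, hh, e⟩
      refine ⟨⟨h, hh⟩, fun i j => ?_⟩
      rw [e i, e j]
      ring
    · rintro ⟨h, e⟩
      obtain ⟨i, hi⟩ := Function.ne_iff.mp x.2.1
      have hi' : ee p (h.1 i) * x.1 i ≠ 0 := mul_ne_zero (ee_ne p _) hi
      have key : ∀ j, y.1 j = y.1 i / (ee p (h.1 i) * x.1 i) * ee p (h.1 j) * x.1 j := by
        intro j
        rw [mul_assoc, div_mul_eq_mul_div, eq_div_iff hi']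
        exact (e i j).symm
      refine ⟨_, ?_, h.1, h.2, key⟩
      intro h0
      apply y.2.1
      funext j
      rw [key j, h0]
      simp
  rw [this]
  apply isClosed_iUnion_of_finite
  intro h
  apply isClosed_iInter
  intro i
  apply isClosed_iInter
  intro j
  exact isClosed_eq
    (((coord_cont i).comp continuous_snd).mul
      (continuous_const.mul ((coord_cont j).comp continuous_fst)))
    (((coord_cont j).comp continuous_snd).mul
      (continuous_const.mul ((coord_cont i).comp continuous_fst)))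

/-- the open set upstairs -/
abbrev Ut (p : ℕ) (M : Matrix (Fin r) ι ℂ) (Q : MvPolynomial ι ℂ) : Set (Cone p M) :=
  {x | eval (fun j => x.1 j ^ p) Q ≠ 0}

variable {Q : MvPolynomial ι ℂ} {d : ℕ}

theorem mem_Ut_of_eq (hQ : Q.IsHomogeneous d) {x y : Cone p M} (e : pr M H x = pr M H y)
    (hx : x ∈ Ut p M Q) : y ∈ Ut p M Q := by
  obtain ⟨c, hc, h, hh, e'⟩ := pr_eq.mp e
  show eval (fun j => y.1 j ^ p) Q ≠ 0
  simp only [e', mul_pow, ee_pow, mul_one]
  rw [eval_smul_hom hQ]
  exact mul_ne_zero (pow_ne_zero _ (pow_ne_zero _ hc)) hx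

/-- ratio functions -/
def ratio (M : Matrix (Fin r) ι ℂ) (H : AddSubgroup (ι → ZMod p)) (j1 j : ι) : Quo p M H → ℂ :=
  Quotient.lift (fun x : Cone p M => x.1 j ^ p / x.1 j1 ^ p) (by
    rintro x y ⟨c, hc, h, hh, e⟩
    simp only [e, mul_pow, ee_pow, mul_one]
    rw [mul_div_mul_left _ _ (pow_ne_zero _ hc)])

theorem exists_lift (hQ : Q.IsHomogeneous d) (hne : ∀ u, eval u Q ≠ 0 → ∀ j, u j ≠ 0) (j1 : ι)
    {m : ℕ} (σ : C(Sx m, Zopen p M H Q)) :
    ∃ a : C(Sx m, Ut p M Q), (∀ s, pr M H (a s).1 = (σ s).1) ∧ ∀ s, (a s).1.1 j1 = 1 := by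
  classical
  have := quo_t2 (M := M) (H := H)
  have hrep : ∀ s, ∃ x : Cone p M, pr M H x = (σ s).1 ∧ x ∈ Ut p M Q ∧ ∀ j, x.1 j ≠ 0 := by
    intro s
    obtain ⟨x, h1, h2⟩ := (σ s).2
    exact ⟨x, h1, h2, fun j h => hne _ h2 j (by rw [h, zero_pow (NeZero.ne p)])⟩
  let g : ι → C(Sx m, ℂ) := fun j => ⟨fun s => ratio M H j1 j (σ s).1, by
    rw [continuous_iff_continuousAt]
    intro s
    obtain ⟨x, h1, _, h3⟩ := hrep s
    have h4 : ContinuousAt (ratio M H j1 j) (pr M H x) := by
      rw [← pr_open.continuousAt_comp_iff]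
      exact ((coord_cont j).pow p).continuousAt.div ((coord_cont j1).pow p).continuousAt
        (pow_ne_zero _ (h3 j1))
    rw [h1] at h4
    exact ContinuousAt.comp (f := fun s => (σ s).1) h4
      (continuous_subtype_val.comp σ.continuous).continuousAt⟩
  have hg : ∀ j s (x : Cone p M), pr M H x = (σ s).1 → g j s = x.1 j ^ p / x.1 j1 ^ p := by
    intro j s x hx
    show ratio M H j1 j (σ s).1 = _
    rw [← hx]
    rfl
  have hg0 : ∀ j s, g j s ≠ 0 := by
    intro j s
    obtain ⟨x, h1, _, h3⟩ := hrep s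
    rw [hg j s x h1]
    exact div_ne_zero (pow_ne_zero _ (h3 j)) (pow_ne_zero _ (h3 j1))
  have hf0 : ∀ j s, root p (g j) s ≠ 0 := by
    intro j s h
    have := root_pow p (g j) (hg0 j) s
    rw [h, zero_pow (NeZero.ne p)] at this
    exact hg0 j s this.symm
  let b : C(Sx m, Cone p M) := ⟨fun s => ⟨fun j => root p (g j) s,
    fun h => hf0 j1 s (congrFun h j1), by
      obtain ⟨x, h1, _, h3⟩ := hrep s
      have e : (fun j => root p (g j) s ^ p) = (x.1 j1 ^ p)⁻¹ • (fun j => x.1 j ^ p) := by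
        funext j
        rw [root_pow p _ (hg0 j), hg j s x h1, div_eq_inv_mul]
        rfl
      rw [e, mulVec_smul, x.2.2, smul_zero]⟩,
    Continuous.subtype_mk (continuous_pi (fun j => (root p (g j)).continuous)) _⟩
  let A : (ι → ZMod p) → Set (Sx m) := fun k => {s | pr M H (act k (b s)) = (σ s).1}
  have hA : ∀ k, IsClosed (A k) := fun k => isClosed_eq
    ((pr M H).continuous.comp ((act k).continuous.comp b.continuous))
    (continuous_subtype_val.comp σ.continuous)
  have hcov : ∀ s, ∃ k, s ∈ A k := by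
    intro s
    obtain ⟨x, h1, _, h3⟩ := hrep s
    have : ∀ j, ∃ k, ee p k = x.1 j / x.1 j1 / root p (g j) s := by
      intro j
      apply exists_ee
      rw [div_pow, root_pow p _ (hg0 j), div_pow, ← hg j s x h1, div_self (hg0 j s)]
    choose k hk using this
    refine ⟨k, ?_⟩
    show pr M H (act k (b s)) = (σ s).1
    rw [← h1, pr_eq]
    refine ⟨x.1 j1, h3 j1, 0, H.zero_mem, fun j => ?_⟩
    rw [act_val, hk]
    show _ = _ * ee p 0 * (_ * root p (g j) s)
    have := hf0 j s
    have := h3 j1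
    rw [ee_zero]
    field_simp
  have hdich : ∀ k k' s1, s1 ∈ A k → s1 ∈ A k' → A k ⊆ A k' := by
    intro k k' s1 h1 h2 s hs
    obtain ⟨c, hc, h, hh, e⟩ := pr_eq.mp (h1.trans h2.symm)
    refine Eq.trans (Eq.symm ?_) hs
    refine pr_eq.mpr ⟨c, hc, h, hh, fun j => ?_⟩
    have h3 := e j
    rw [act_val, act_val, ← mul_assoc] at h3
    have h4 := mul_right_cancel₀ (hf0 j s1) h3
    rw [act_val, act_val, h4]
    ring
  obtain ⟨k0, hk0⟩ := hcov (vx 0)
  have hopen : IsOpen (A k0) := by
    rw [← isClosed_compl_iff]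
    have : (A k0)ᶜ = ⋃ k : {k // Disjoint (A k) (A k0)}, A k.1 := by
      ext s
      simp only [Set.mem_compl_iff, Set.mem_iUnion]
      constructor
      · intro hs
        obtain ⟨k, hk⟩ := hcov s
        refine ⟨⟨k, Set.disjoint_left.mpr (fun s1 h1 h2 => hs (hdich k k0 s1 h1 h2 hk))⟩, hk⟩
      · rintro ⟨k, hk⟩
        exact Set.disjoint_left.mp k.2 hk
    rw [this]
    exact isClosed_iUnion_of_finite (fun k => hA _)
  have huniv : A k0 = Set.univ := IsClopen.eq_univ ⟨hA k0, hopen⟩ ⟨_, hk0⟩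
  obtain ⟨k1, hk1⟩ := root_unique p (root p (g j1)) 1 (fun s => by
    obtain ⟨x, h1, _, h3⟩ := hrep s
    rw [root_pow p _ (hg0 j1), hg j1 s x h1, div_self (pow_ne_zero _ (h3 j1))]
    simp) (by simp)
  have hpr : ∀ s, pr M H (act (fun j => k0 j - k0 j1 - k1) (b s)) = (σ s).1 := by
    intro s
    have hs : s ∈ A k0 := huniv ▸ Set.mem_univ s
    refine Eq.trans (Eq.symm ?_) hs
    refine pr_eq.mpr ⟨ee p (-k0 j1 - k1), ee_ne p _, 0, H.zero_mem, fun j => ?_⟩
    rw [act_val, act_val, ← mul_assoc, ← ee_add, ← ee_add]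
    congr 2
    simp only [Pi.zero_apply]
    ring
  have hmem : ∀ s, act (fun j => k0 j - k0 j1 - k1) (b s) ∈ Ut p M Q := by
    intro s
    obtain ⟨x, h1, h2, _⟩ := hrep s
    exact mem_Ut_of_eq hQ (h1.trans (hpr s).symm) h2
  refine ⟨⟨fun s => ⟨act (fun j => k0 j - k0 j1 - k1) (b s), hmem s⟩,
    Continuous.subtype_mk ((act _).continuous.comp b.continuous) hmem⟩, hpr, fun s => ?_⟩
  show ee p (k0 j1 - k0 j1 - k1) * root p (g j1) s = 1
  rw [hk1, ← mul_assoc, ← ee_add]
  simp

theorem act_mem (g : ι → ZMod p) {x : Cone p M} (hx : x ∈ Ut p M Q) : act g x ∈ Ut p M Q := by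
  show eval (fun j => (ee p (g j) * x.1 j) ^ p) Q ≠ 0
  simp only [mul_pow, ee_pow, one_mul]
  exact hx

/-- the action on the open set -/
def actU (g : ι → ZMod p) : C(Ut p M Q, Ut p M Q) :=
  ⟨fun x => ⟨act g x.1, act_mem g x.2⟩,
    Continuous.subtype_mk ((act g).continuous.comp continuous_subtype_val) (fun x => act_mem g x.2)⟩

theorem lift_unique (hne : ∀ u, eval u Q ≠ 0 → ∀ j, u j ≠ 0) (j1 : ι)
    {m : ℕ} (a b : C(Sx m, Ut p M Q)) (hab : ∀ s, pr M H (a s).1 = pr M H (b s).1)
    (ha : ∀ s, (a s).1.1 j1 = 1) (hb : ∀ s, (b s).1.1 j1 = 1) :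
    ∃ h : H, ∀ s j, (b s).1.1 j = ee p (h.1 j - h.1 j1) * (a s).1.1 j := by
  have ha0 : ∀ s j, (a s).1.1 j ≠ 0 := fun s j h =>
    hne _ (a s).2 j (by rw [h, zero_pow (NeZero.ne p)])
  have h1 : ∀ s, ∃ h : H, ∀ j, (b s).1.1 j = ee p (h.1 j - h.1 j1) * (a s).1.1 j := by
    intro s
    obtain ⟨c, hc, h, hh, e⟩ := pr_eq.mp (hab s)
    refine ⟨⟨h, hh⟩, fun j => ?_⟩
    have h2 := e j1
    rw [ha, hb] at h2
    have h3 : ee p (h j) = ee p (h j - h j1) * ee p (h j1) := by
      rw [← ee_add, sub_add_cancel]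
    rw [e j, h3]
    linear_combination (-ee p (h j - h j1) * (a s).1.1 j) * h2
  obtain ⟨h, hh⟩ := h1 (vx 0)
  refine ⟨h, fun s j => ?_⟩
  obtain ⟨k, hk⟩ := root_unique p
    ⟨fun s => (b s).1.1 j, (coord_cont j).comp (continuous_subtype_val.comp b.continuous)⟩
    ⟨fun s => (a s).1.1 j, (coord_cont j).comp (continuous_subtype_val.comp a.continuous)⟩
    (fun s => by
      obtain ⟨h', hh'⟩ := h1 s
      show (b s).1.1 j ^ p = (a s).1.1 j ^ p
      rw [hh', mul_pow, ee_pow, one_mul]) (fun s => ha0 s j)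
  have h2 : (b (vx 0)).1.1 j = ee p k * (a (vx 0)).1.1 j := hk (vx 0)
  rw [hh j] at h2
  rw [mul_right_cancel₀ (ha0 _ j) h2]
  exact hk s

/-- inclusion of a subset -/
abbrev inc {X : Type} [TopologicalSpace X] (S : Set X) : C(S, X) :=
  ⟨Subtype.val, continuous_subtype_val⟩

theorem lift_cycle (hQ : Q.IsHomogeneous d) (hne : ∀ u, eval u Q ≠ 0 → ∀ j, u j ≠ 0) (j1 : ι)
    {n : ℕ} (c : Ch (Zopen p M H Q) (n + 1)) (hc : bd c = 0) :
    ∃ c' : Ch (Ut p M Q) (n + 1), bd c' = 0 ∧
      push ((pr M H).comp (inc _)) c' = (Nat.card H : ℚ) • push (inc _) c := by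
  classical
  have : Fintype H := Fintype.ofFinite H
  choose a ha1 ha2 using fun m => exists_lift (H := H) (M := M) hQ hne j1 (m := m)
  let L : ∀ m, C(Sx m, Zopen p M H Q) → H → C(Sx m, Ut p M Q) := fun m σ h =>
    (actU (fun j => h.1 j - h.1 j1)).comp (a m σ)
  have key := transfer n Set.univ (L (n + 1)) (L n) (fun σ _ j => by
    obtain ⟨h0, hh0⟩ := lift_unique (H := H) hne j1 (a n (σ.comp (face n j)))
      ((a (n + 1) σ).comp (face n j)) (fun s => by
        rw [ha1, ContinuousMap.comp_apply, ContinuousMap.comp_apply, ha1])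
      (ha2 _ _) (fun s => ha2 _ _ _)
    refine ⟨Equiv.addRight h0, fun h => ?_⟩
    ext s i
    show ee p ((h + h0).1 i - (h + h0).1 j1) * (a n (σ.comp (face n j)) s).1.1 i =
      ee p (h.1 i - h.1 j1) * (((a (n + 1) σ).comp (face n j)) s).1.1 i
    rw [hh0, ← mul_assoc, ← ee_add]
    congr 2
    simp only [AddSubgroup.coe_add, Pi.add_apply]
    ring) (mem_Sup_univ c)
  refine ⟨ext1 (fun σ => ∑ k, sg (L (n + 1) σ k)) c, by rw [key, hc, map_zero], ?_⟩
  have : (push ((pr M H).comp (inc _))).comp (ext1 (fun σ => ∑ k, sg (L (n + 1) σ k))) =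
      (Nat.card H : ℚ) • (push (inc _) : Ch (Zopen p M H Q) (n + 1) →ₗ[ℚ] _) := by
    apply lin_ext
    intro σ
    simp only [LinearMap.comp_apply, ext1_sg, map_sum, push_sg, LinearMap.smul_apply]
    have : ∀ h, ((pr M H).comp (inc _)).comp (L (n + 1) σ h) = (inc _).comp σ := by
      intro h
      ext1 s
      refine Eq.trans (Eq.symm ?_) (ha1 _ σ s)
      refine pr_eq.mpr ⟨ee p (-h.1 j1), ee_ne p _, h.1, h.2, fun j => ?_⟩
      show ee p (h.1 j - h.1 j1) * _ = _
      rw [← ee_add]
      congr 2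
      ring
    simp only [this, Finset.sum_const, Finset.card_univ, Nat.card_eq_fintype_card,
      Nat.cast_smul_eq_nsmul]
  exact LinearMap.congr_fun this c

end

end Pool.Agent.MP_1c689d_ag

end

section

set_option autoImplicit false

namespace Pool.Agent.MP_1c689d_ag

noncomputable section

open Matrix MvPolynomial Filter Topology

variable {p : ℕ} [NeZero p] {ι : Type} [Fintype ι] [DecidableEq ι]

/-- Fourier coefficient -/
def FS (F : (ι → ZMod p) → ℂ) (a : ι → ZMod p) : ℂ := ∑ g, F g * ee p (-(a ⬝ᵥ g))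

theorem FS_shift (F : (ι → ZMod p) → ℂ) (a h : ι → ZMod p) :
    FS (fun g => F (g + h)) a = ee p (a ⬝ᵥ h) * FS F a := by
  rw [FS, FS, Finset.mul_sum, ← Equiv.sum_comp (Equiv.subRight h)]
  apply Finset.sum_congr rfl
  intro g _
  simp only [Equiv.subRight_apply, sub_add_cancel, dotProduct_sub, neg_sub]
  rw [sub_eq_add_neg, ee_add]
  ring

theorem ee_eq_one {k : ZMod p} (h : ee p k = 1) : k = 0 :=
  ZMod.injective_stdAddChar (h.trans (ee_zero p).symm)

theorem FS_zero_of_shift (F : (ι → ZMod p) → ℂ) (a h : ι → ZMod p) (hF : ∀ g, F (g + h) = F g)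
    (ha : a ⬝ᵥ h ≠ 0) : FS F a = 0 := by
  have := FS_shift F a h
  simp only [hF] at this
  by_contra hne
  apply ha
  apply ee_eq_one
  apply mul_right_cancel₀ hne
  rw [one_mul]
  exact this.symm

theorem FS_sum {K : Type} [Fintype K] (F : (ι → ZMod p) → ℂ) (a : ι → ZMod p)
    (γ : K → ι → ZMod p) (hγ : ∀ k, a ⬝ᵥ γ k = 0) :
    FS (fun g => ∑ k, F (g + γ k)) a = Fintype.card K * FS F a := by
  have : FS (fun g => ∑ k, F (g + γ k)) a = ∑ k, FS (fun g => F (g + γ k)) a := by
    simp only [FS, Finset.sum_mul]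
    exact Finset.sum_comm
  rw [this]
  simp only [FS_shift, hγ, ee_zero, one_mul, Finset.sum_const, Finset.card_univ, nsmul_eq_mul]

theorem fourier_zero (F : (ι → ZMod p) → ℂ) (h : ∀ a, FS F a = 0) : F 0 = 0 := by
  have h1 : ∑ a, FS F a = 0 := Finset.sum_eq_zero (fun a _ => h a)
  simp only [FS] at h1
  rw [Finset.sum_comm, Finset.sum_eq_single 0] at h1
  · simpa [NeZero.ne p] using h1
  · intro g _ hg
    obtain ⟨j, hj⟩ := Function.ne_iff.mp hg
    have := FS_zero_of_shift (fun _ => 1) g (Pi.single j 1) (fun _ => rfl) (by simpa using hj)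
    simp only [FS, one_mul] at this
    rw [← Finset.mul_sum]
    simp only [dotProduct_comm _ g, this, mul_zero]
  · simp

variable {r : ℕ} {M : Matrix (Fin r) ι ℂ} {H : AddSubgroup (ι → ZMod p)}

omit [DecidableEq ι] in
theorem pr_act {g h : ι → ZMod p} {k : ZMod p} (hh : h ∈ H) :
    (pr M H).comp (act (g + (h + fun _ => k))) = (pr M H).comp (act g) := by
  ext1 x
  refine (pr_eq.mpr ⟨ee p k, ee_ne p _, h, hh, fun j => ?_⟩).symm
  simp only [act_val, Pi.add_apply, ee_add]
  ring

theorem main_split (hM : MDS M) (hr : r + 2 ≤ Fintype.card ι)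
    (hs : ∀ a : ι → ZMod p, a ≠ 0 → (∀ h ∈ H, a ⬝ᵥ h = 0) → ∑ j, a j = 0 →
      ∃ c : ι → Option (Option (Fin r)), Function.Surjective c ∧
        (∀ k : Fin r → ZMod p, a ⬝ᵥ (fun j => lam 0 0 k (c j)) = 0) ∧
        ∃ i, c i = some none ∧ a i ≠ 0) :
    ∃ (Q : MvPolynomial ι ℂ) (d : ℕ), Q.IsHomogeneous d ∧ Dense (Zopen p M H Q) ∧
      ∀ i, RestrictionZero (Zopen p M H Q) i := by
  obtain ⟨u0, Q, d, hu0, hu1, hQ, hD, hG⟩ := exists_Q p hM hr
  refine ⟨Q, d, hQ, ?_, fun n => ?_⟩
  · have := pr_open (M := M) (H := H).surjective.denseRange.dense_image (pr M H).continuous hD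
    apply this.mono
    rintro _ ⟨x, hx, rfl⟩
    exact ⟨x, rfl, hx⟩
  apply restrictionZero_of_cycles
  intro φ hφ c0 hc0
  obtain ⟨j1⟩ : Nonempty ι := Fintype.card_pos_iff.mp (by omega)
  obtain ⟨c, hc, hcc⟩ := lift_cycle hQ (fun u hu => (hG u hu).ne) j1 c0 hc0
  let Φ : Ch (Cone p M) (n + 1) →ₗ[ℚ] ℚ := (ext1 φ).comp (push (pr M H))
  have hΦ : ∀ v, Φ (bd v) = 0 := by
    intro v
    show ext1 φ (push (pr M H) (bd v)) = 0
    rw [← bd_push, ext1_bd_zero φ hφ]
  let F : (ι → ZMod p) → ℂ := fun g => (Φ (push ((act g).comp (inc (Ut p M Q))) c) : ℚ)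
  have hF : ∀ g, ∀ h ∈ H, ∀ k : ZMod p, F (g + (h + fun _ => k)) = F g := by
    intro g h hh k
    simp only [F, Φ, LinearMap.comp_apply, push_push, ← ContinuousMap.comp_assoc, pr_act hh]
  have hx : ∀ (x : Ut p M Q) j, x.1.1 j ≠ 0 := fun x j h =>
    (hG _ x.2).ne j (by rw [h, zero_pow (NeZero.ne p)])
  have hsum : ∀ {K : Type} [Fintype K] (γ : K → ι → ZMod p) w v,
      bd v = w - ∑ k, push ((act (γ k)).comp (inc (Ut p M Q))) c →
      ∀ g, ∑ k, F (g + γ k) = (Φ (push (act g) w) : ℚ) := by
    intro K _ γ w v hv g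
    have h1 := hΦ (push (act g) v)
    rw [bd_push, hv, map_sub, map_sub, sub_eq_zero, map_sum, map_sum] at h1
    rw [h1, Rat.cast_sum]
    apply Finset.sum_congr rfl
    intro k _
    simp only [F, push_push, ← ContinuousMap.comp_assoc, act_act]
  have hall : ∀ a, FS F a = 0 := by
    intro a
    by_cases h1 : ∀ h ∈ H, a ⬝ᵥ h = 0
    swap
    · push Not at h1
      obtain ⟨h, hh, ha⟩ := h1
      refine FS_zero_of_shift F a h (fun g => ?_) ha
      have := hF g h hh 0
      rwa [show (h + fun _ => 0) = h from add_zero h] at this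
    by_cases h2 : ∑ j, a j = 0
    swap
    · refine FS_zero_of_shift F a (fun _ => 1) (fun g => by simpa using hF g 0 H.zero_mem 1) ?_
      simpa [dotProduct] using h2
    by_cases h3 : a = 0
    · let blk : ι → Option (Option {j // j ≠ j1}) := fun j =>
        if h : j = j1 then none else some (some ⟨j, h⟩)
      let μ : {j // j ≠ j1} → C(Ut p M Q, ℂ) := fun t =>
        ⟨fun x => u0 t.1 * x.1.1 j1 ^ p / (u0 j1 * x.1.1 t.1 ^ p) - 1, by
          apply Continuous.sub _ continuous_const
          exact (continuous_const.mul (((coord_cont j1).comp continuous_subtype_val).pow p)).div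
            (continuous_const.mul (((coord_cont t.1).comp continuous_subtype_val).pow p))
            (fun x => mul_ne_zero (hu1 _) (pow_ne_zero _ (hx x _)))⟩
      have hμ : ∀ (x : Ut p M Q) j, (1 + lam 0 (-1) (fun t => μ t x) (blk j)) * x.1.1 j ^ p =
          x.1.1 j1 ^ p / u0 j1 * u0 j := by
        intro x j
        have := hu1 j1
        have := pow_ne_zero p (hx x j)
        by_cases h : j = j1
        · simp only [blk, dif_pos h, lam]
          rw [h]
          field_simp
          ring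
        · simp only [blk, dif_neg h, lam, μ, ContinuousMap.coe_mk]
          field_simp
          ring
      obtain ⟨w, v, hw, hv⟩ := path_lemma (inc (Ut p M Q)) blk μ (fun t x h => by
          apply (hG _ x.2).cross t.1 j1 t.2
          have h' : u0 t.1 * x.1.1 j1 ^ p / (u0 j1 * x.1.1 t.1 ^ p) - 1 = 0 := h
          rwa [sub_eq_zero, div_eq_one_iff_eq (mul_ne_zero (hu1 _) (pow_ne_zero _ (hx x _)))] at h')
        (fun t x h => by
          have h' : u0 t.1 * x.1.1 j1 ^ p / (u0 j1 * x.1.1 t.1 ^ p) - 1 = -1 := h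
          exact div_ne_zero (mul_ne_zero (hu1 t.1) (pow_ne_zero p (hx x j1)))
            (mul_ne_zero (hu1 j1) (pow_ne_zero p (hx x t.1))) (by linear_combination h'))
        (fun s t x hst h => by
          apply (hG _ x.2).cross s.1 t.1 (fun h => hst (Subtype.ext h))
          have h' : u0 s.1 * x.1.1 j1 ^ p / (u0 j1 * x.1.1 s.1 ^ p) - 1 =
            u0 t.1 * x.1.1 j1 ^ p / (u0 j1 * x.1.1 t.1 ^ p) - 1 := h
          rw [sub_left_inj, div_eq_div_iff (mul_ne_zero (hu1 j1) (pow_ne_zero p (hx x _)))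
            (mul_ne_zero (hu1 j1) (pow_ne_zero p (hx x _)))] at h'
          apply mul_left_cancel₀ (mul_ne_zero (hu1 j1) (pow_ne_zero p (hx x j1)))
          linear_combination h')
        (fun x => by
          have e : (fun j => lam 0 (-1) (fun t => μ t x) (blk j) * ((inc (Ut p M Q)) x).1 j ^ p) =
              (x.1.1 j1 ^ p / u0 j1) • u0 - (fun j => x.1.1 j ^ p) := by
            funext j
            have := hμ x j
            simp only [Pi.sub_apply, Pi.smul_apply, smul_eq_mul, ContinuousMap.coe_mk]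
            linear_combination this
          rw [e, mulVec_sub, mulVec_smul, hu0, x.1.2.2]
          simp)
        j1 (by simp [blk]) (fun x => hx x j1) c hc
      have hz : ∀ g, Φ (push (act g) w) = 0 := by
        intro g
        have hbd : bd w = 0 := by
          have := bd_bd v
          rw [hv, map_sub, map_sum] at this
          simpa [bd_push, hc] using this
        obtain ⟨v', hv'⟩ := const_cycle (c := push (pr M H) (push (act g) w)) (by
          rw [push_push]
          apply Sup_map _ _ _ hw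
          rintro σ' ⟨σ, hσ⟩
          rw [push_sg]
          refine sg_mem ⟨pr M H (act g (σ' (vx 0))), ?_⟩
          ext1 s
          have hσ' : ∀ s j, (σ' s).1 j ^ p = (σ s).1.1 j1 ^ p / u0 j1 * u0 j := fun s j =>
            (hσ s j).trans (hμ (σ s) j)
          have hn : ∀ s, (σ' s).1 j1 ≠ 0 := by
            intro s h
            have := hσ' s j1
            rw [h, zero_pow (NeZero.ne p)] at this
            exact mul_ne_zero (div_ne_zero (pow_ne_zero _ (hx _ _)) (hu1 _)) (hu1 _) this.symm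
          refine pr_eq.mpr ⟨(σ' (vx 0)).1 j1 / (σ' s).1 j1, div_ne_zero (hn _) (hn _), 0,
            H.zero_mem, fun j => ?_⟩
          have := root_const (NeZero.ne p) ⟨fun s => (σ' s).1 j / (σ' s).1 j1,
            ((coord_cont j).comp σ'.continuous).div ((coord_cont j1).comp σ'.continuous) hn⟩
            (u0 j / u0 j1) (fun s => by
              show ((σ' s).1 j / (σ' s).1 j1) ^ p = _
              rw [div_pow, hσ', hσ', mul_div_mul_left _ _
                (div_ne_zero (pow_ne_zero _ (hx _ _)) (hu1 _))]) s (vx 0)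
          have h4 : (σ' s).1 j / (σ' s).1 j1 = (σ' (vx 0)).1 j / (σ' (vx 0)).1 j1 := this
          rw [div_eq_div_iff (hn _) (hn _)] at h4
          simp only [act_val, Pi.zero_apply, ee_zero]
          have := hn s
          field_simp
          linear_combination (-ee p (g j)) * h4) (by rw [bd_push, bd_push, hbd, map_zero, map_zero])
        show ext1 φ (push (pr M H) (push (act g) w)) = 0
        rw [← hv', ext1_bd_zero φ hφ]
      have h5 := FS_sum F a (fun (k : {j // j ≠ j1} → ZMod p) j => lam 0 0 k (blk j))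
        (by simp [h3])
      simp only [hsum _ w v hv, hz, Rat.cast_zero, FS, zero_mul, Finset.sum_const_zero] at h5
      exact (mul_eq_zero.mp h5.symm).resolve_left (Nat.cast_ne_zero.mpr Fintype.card_ne_zero)
    · obtain ⟨blk, hb, hk, i, hi, hai⟩ := hs a h3 h1 h2
      obtain ⟨μ, m0, m1, m2, m3⟩ := exists_mu (U := Ut p M Q) (fun x j => x.1.1 j ^ p)
        (continuous_pi (fun j => ((coord_cont j).comp continuous_subtype_val).pow p))
        (fun x => hG _ x.2) (fun x => x.1.2.2) blk hb
      obtain ⟨j0, hj0⟩ := hb none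
      obtain ⟨w, v, hw, hv⟩ := path_lemma (inc (Ut p M Q)) blk μ m0 m1 m2 m3 j0 hj0
        (fun x => hx x j0) c hc
      have hfix : push (act (Pi.single i 1)) w = w := by
        apply Sup_eq (push (act (Pi.single i 1))) LinearMap.id _ hw
        rintro σ' ⟨σ, hσ⟩
        rw [push_sg, LinearMap.id_apply]
        congr 1
        ext s j
        rw [ContinuousMap.comp_apply, act_val]
        by_cases h : j = i
        · have := hσ s j
          rw [h, hi] at this
          simp only [lam, add_neg_cancel, zero_mul] at this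
          rw [h, (pow_eq_zero_iff (NeZero.ne p)).mp this, mul_zero]
        · rw [Pi.single_eq_of_ne h, ee_zero, one_mul]
      have h5 := FS_sum F a (fun (k : Fin r → ZMod p) j => lam 0 0 k (blk j)) hk
      rw [FS_zero_of_shift _ a (Pi.single i 1) (fun g => by
        rw [hsum _ w v hv, hsum _ w v hv, ← act_act, ← push_push, hfix]) (by simpa using hai)] at h5
      exact (mul_eq_zero.mp h5.symm).resolve_left (Nat.cast_ne_zero.mpr Fintype.card_ne_zero)
  have h0 := fourier_zero F hall
  simp only [F, Φ, act_zero, ContinuousMap.id_comp, LinearMap.comp_apply, push_push, hcc, map_smul,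
    smul_eq_mul, Rat.cast_eq_zero, mul_eq_zero, Nat.cast_eq_zero] at h0
  exact h0.resolve_left Nat.card_pos.ne'

end

end Pool.Agent.MP_1c689d_ag

end

section

set_option autoImplicit false

namespace Pool.Agent.MP_1c689d_ag

noncomputable section

open Finset

variable {p : ℕ} [NeZero p] {ι : Type} [DecidableEq ι] (a : ι → ZMod p)

/-- subset sums -/
def sums (S : Finset ι) : Finset (ZMod p) := S.powerset.image (fun T => ∑ j ∈ T, a j)

/-- zero-sum free -/
def ZF (S : Finset ι) : Prop := ∀ T ⊆ S, T.Nonempty → ∑ j ∈ T, a j ≠ 0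

omit [NeZero p] [DecidableEq ι] in
theorem mem_sums {S T : Finset ι} (h : T ⊆ S) : ∑ j ∈ T, a j ∈ sums a S :=
  mem_image.mpr ⟨T, mem_powerset.mpr h, rfl⟩

omit [NeZero p] in
theorem growth1 {S : Finset ι} {z : ι} (hz : z ∉ S) (h : ZF a (insert z S)) :
    (sums a S).card + 1 ≤ (sums a (insert z S)).card := by
  have hsub : sums a S ⊆ sums a (insert z S) :=
    image_subset_image (powerset_mono.mpr (subset_insert _ _))
  apply card_lt_card
  refine ⟨hsub, fun hc => ?_⟩
  have h1 : (sums a S).image (fun x => a z + x) ⊆ sums a S := by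
    intro x hx
    obtain ⟨y, hy, rfl⟩ := mem_image.mp hx
    obtain ⟨T, hT, rfl⟩ := mem_image.mp hy
    rw [mem_powerset] at hT
    apply hc
    rw [← sum_insert (fun h' => hz (hT h'))]
    exact mem_sums a (insert_subset_insert _ hT)
  have h2 := eq_of_subset_of_card_le h1 (by rw [card_image_of_injective _ (add_right_injective _)])
  have h3 : (0 : ZMod p) ∈ sums a S := by simpa using mem_sums a (empty_subset S)
  rw [← h2] at h3
  obtain ⟨y, hy, h4⟩ := mem_image.mp h3
  obtain ⟨T, hT, rfl⟩ := mem_image.mp hy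
  rw [mem_powerset] at hT
  apply h (insert z T) (insert_subset_insert _ hT) (insert_nonempty _ _)
  rwa [sum_insert (fun h' => hz (hT h'))]

theorem growth {S T : Finset ι} (hST : S ⊆ T) (h : ZF a T) :
    (sums a S).card + T.card ≤ p + S.card := by
  have key : ∀ D : Finset ι, Disjoint S D → ZF a (S ∪ D) →
      (sums a S).card + D.card ≤ (sums a (S ∪ D)).card := by
    intro D
    induction D using Finset.induction_on with
    | empty => simp
    | insert z D hz ih =>
      intro hd hZ
      rw [disjoint_insert_right] at hd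
      rw [union_insert] at hZ ⊢
      have h1 := ih hd.2 (fun T hT => hZ T (hT.trans (subset_insert _ _)))
      have h2 := growth1 a (z := z) (S := S ∪ D) (by simp [hd.1, hz]) hZ
      rw [card_insert_of_notMem hz]
      omega
  have h1 := key (T \ S) disjoint_sdiff (by rwa [union_sdiff_of_subset hST])
  have h2 : (sums a (S ∪ T \ S)).card ≤ p := by
    simpa [ZMod.card] using card_le_univ (sums a (S ∪ T \ S))
  have h3 := card_sdiff_add_card_eq_card hST
  omega

theorem davenport {S : Finset ι} (hS : p ≤ S.card) :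
    ∃ T ⊆ S, T.Nonempty ∧ ∑ j ∈ T, a j = 0 ∧ T.card ≤ p := by
  obtain ⟨S', h1, h2⟩ := exists_subset_card_eq hS
  by_contra hc
  push Not at hc
  have := growth a (empty_subset S') (fun T hT hne h0 => by
    have := hc T (hT.trans h1) hne h0
    have := card_le_card hT
    omega)
  simp [sums, h2] at this

/-- packing of zero-sum blocks -/
def Pk (S : Finset ι) (m : ℕ) : Prop :=
  ∃ B : Fin m → Finset ι, (∀ t, B t ⊆ S ∧ (B t).Nonempty ∧ ∑ j ∈ B t, a j = 0) ∧
    ∀ s t, s ≠ t → Disjoint (B s) (B t)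

omit [NeZero p] in
theorem Pk_cons {S T : Finset ι} {m : ℕ} (h1 : T ⊆ S) (h2 : T.Nonempty) (h3 : ∑ j ∈ T, a j = 0)
    (h : Pk a (S \ T) m) : Pk a S (m + 1) := by
  obtain ⟨B, hB, hd⟩ := h
  refine ⟨Fin.cons T B, fun t => ?_, fun s t hst => ?_⟩
  · refine Fin.cases ⟨h1, h2, h3⟩ (fun t => ?_) t
    exact ⟨(hB t).1.trans sdiff_subset, (hB t).2⟩
  · revert hst
    refine Fin.cases ?_ (fun s => ?_) s <;> refine Fin.cases ?_ (fun t => ?_) t
    · simp
    · intro _
      exact disjoint_sdiff.mono_right (hB t).1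
    · intro _
      exact (disjoint_sdiff.mono_right (hB s).1).symm
    · intro hst
      exact hd s t (fun h => hst (by rw [h]))

omit [NeZero p] in
theorem Pk_drop {S : Finset ι} {m : ℕ} (h : Pk a S (m + 1)) (i : ι) : Pk a (S.erase i) m := by
  obtain ⟨B, hB, hd⟩ := h
  obtain ⟨t0, ht0⟩ : ∃ t0, ∀ t, t ≠ t0 → i ∉ B t := by
    by_cases h : ∃ t0, i ∈ B t0
    · obtain ⟨t0, h⟩ := h
      exact ⟨t0, fun t ht h' => disjoint_left.mp (hd t t0 ht) h' h⟩
    · exact ⟨0, fun t _ h' => h ⟨t, h'⟩⟩
  refine ⟨fun t => B (t0.succAbove t), fun t => ⟨?_, (hB _).2⟩, fun s t hst => hd _ _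
    (fun h => hst (Fin.succAbove_right_injective h))⟩
  exact subset_erase.mpr ⟨(hB _).1, ht0 _ (Fin.succAbove_ne _ _)⟩

theorem pack (m : ℕ) : ∀ S : Finset ι, ∑ j ∈ S, a j = 0 → p * m < S.card → Pk a S (m + 1) := by
  induction m with
  | zero =>
    intro S h0 hc
    exact ⟨fun _ => S, fun _ => ⟨subset_rfl, card_pos.mp (by omega), h0⟩,
      fun s t hst => absurd (Subsingleton.elim (α := Fin 1) s t) hst⟩
  | succ m ih =>
    intro S h0 hc
    rw [mul_add, mul_one] at hc
    obtain ⟨T, h1, h2, h3, h4⟩ := davenport a (S := S) (by omega)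
    apply Pk_cons a h1 h2 h3
    apply ih
    · rw [sum_sdiff_eq_sub h1, h0, h3, sub_zero]
    · have := card_sdiff_add_card_eq_card h1
      omega

omit [NeZero p] in
theorem pair_sums {i j : ι} (hij : a i ≠ a j) (h : ZF a {i, j}) : 4 ≤ (sums a {i, j}).card := by
  have hne : i ≠ j := fun h => hij (by rw [h])
  have h1 : a i ≠ 0 := by simpa using h {i} (by simp) (by simp)
  have h2 : a j ≠ 0 := by simpa using h {j} (by simp) (by simp)
  have h3 : a i + a j ≠ 0 := by simpa [hne] using h {i, j} (by simp) (by simp)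
  have hsub : ({0, a i, a j, a i + a j} : Finset (ZMod p)) ⊆ sums a {i, j} := by
    intro x hx
    simp only [mem_insert, mem_singleton] at hx
    rcases hx with rfl | rfl | rfl | rfl
    · simpa using mem_sums a (empty_subset {i, j})
    · simpa using mem_sums a (S := {i, j}) (T := {i}) (by simp)
    · simpa using mem_sums a (S := {i, j}) (T := {j}) (by simp)
    · simpa [hne] using mem_sums a (S := {i, j}) (T := {i, j}) (by simp)
  refine le_trans (le_of_eq ?_) (card_le_card hsub)
  rw [card_insert_of_notMem, card_insert_of_notMem, card_insert_of_notMem, card_singleton] <;>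
    simp [h1, h2, hij, h1.symm, h2.symm, h3.symm]

theorem six {A : Type} [DecidableEq A] (s : Finset A) (x : Fin 6 → A) (hx : ∀ t, x t ∈ s)
    (hi : Function.Injective x) : 6 ≤ s.card := by
  have := card_le_card (s := univ.image x) (t := s) (by
    intro y hy
    obtain ⟨t, _, rfl⟩ := mem_image.mp hy
    exact hx t)
  rwa [card_image_of_injective _ hi, card_univ, Fintype.card_fin] at this

omit [NeZero p] in
theorem triple {i j k : ι} (hij : i ≠ j) (hik : i ≠ k) (hjk : j ≠ k) (h : ZF a {i, j, k})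
    (hc : (sums a {i, j, k}).card ≤ 5) :
    (a i = a j → a k = a i ∨ a k = 2 * a i) ∧
      (a i ≠ a j → a i ≠ a k → a j ≠ a k → a i + a j = a k) := by
  have h1 : a i ≠ 0 := by simpa using h {i} (by simp) (by simp)
  have h2 : a j ≠ 0 := by simpa using h {j} (by simp) (by simp)
  have h3 : a k ≠ 0 := by simpa using h {k} (by simp) (by simp)
  have h4 : a i + a j ≠ 0 := by simpa [hij] using h {i, j} (by simp) (by simp)
  have h5 : a i + a k ≠ 0 := by simpa [hik] using h {i, k} (by simp) (by simp)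
  have h6 : a j + a k ≠ 0 := by simpa [hjk] using h {j, k} (by simp) (by simp)
  have h7 : a i + (a j + a k) ≠ 0 := by
    simpa [hij, hik, hjk] using h {i, j, k} (by simp) (by simp)
  have m0 : 0 ∈ sums a {i, j, k} := by simpa using mem_sums a (empty_subset {i, j, k})
  have m1 : a i ∈ sums a {i, j, k} := by simpa using mem_sums a (S := {i, j, k}) (T := {i}) (by simp)
  have m2 : a j ∈ sums a {i, j, k} := by simpa using mem_sums a (S := {i, j, k}) (T := {j}) (by simp)
  have m3 : a k ∈ sums a {i, j, k} := by simpa using mem_sums a (S := {i, j, k}) (T := {k}) (by simp)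
  have m4 : a i + a j ∈ sums a {i, j, k} := by
    simpa [hij] using mem_sums a (S := {i, j, k}) (T := {i, j}) (by simp)
  have m5 : a i + a k ∈ sums a {i, j, k} := by
    simpa [hik] using mem_sums a (S := {i, j, k}) (T := {i, k}) (by simp)
  have m7 : a i + (a j + a k) ∈ sums a {i, j, k} := by
    simpa [hij, hik, hjk] using mem_sums a (S := {i, j, k}) (T := {i, j, k}) (by simp)
  constructor
  · intro e
    by_contra hne
    push Not at hne
    obtain ⟨n1, n2⟩ := hne
    have := six _ ![0, a i, a i + a j, a k, a i + a k, a i + (a j + a k)] (by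
      intro t
      fin_cases t <;> assumption) (by
      intro s t hst
      fin_cases s <;> fin_cases t <;> simp only [Fin.zero_eta, Fin.mk_one, Fin.reduceFinMk,
        Matrix.cons_val] at hst ⊢ <;> grind)
    omega
  · intro n1 n2 n3
    by_contra hne
    have := six _ ![0, a i, a j, a k, a i + a j, a i + (a j + a k)] (by
      intro t
      fin_cases t <;> assumption) (by
      intro s t hst
      fin_cases s <;> fin_cases t <;> simp only [Fin.zero_eta, Fin.mk_one, Fin.reduceFinMk,
        Matrix.cons_val] at hst ⊢ <;> grind)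
    omega

theorem z2a : ∀ x y : ZMod 2, x ≠ 0 → y ≠ 0 → x = y := by decide

theorem z2b : ∀ x : ZMod 2, x = 1 ∨ x = 2 * 1 := by decide

theorem z2c : ∀ x : ZMod 2, x ≠ 1 → x = 0 := by decide

theorem z3a : ∀ x d : ZMod 3, x ≠ 0 → d ≠ 0 → x = d ∨ x = 2 * d := by decide

theorem z3b : ∀ x y : ZMod 3, x ≠ 0 → y ≠ 0 → x ≠ 1 → y ≠ 2 → x + y = 0 ∧ x = 2 ∧ y = 1 := by
  decide

theorem z3c : (2 : ZMod 3) ≠ 0 := by decide

theorem classify [Fintype ι] (hp : p.Prime) {r : ℕ} (hr : r + 2 ≤ Fintype.card ι)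
    (hL : p * r ≤ Fintype.card ι + 1) (h0 : ∑ j, a j = 0) (hn : ¬ Pk a univ (r + 1)) :
    ∃ d : ZMod p, d ≠ 0 ∧ ∃ b : ι → ℕ, ∑ j, b j + Fintype.card ι = p * r ∧
      ∀ j, a j = d * ((b j + 1 : ℕ) : ZMod p) := by
  have := Fact.mk hp
  have hp2 := hp.two_le
  have hLe : Fintype.card ι ≤ p * r := by
    by_contra hc
    exact hn (pack a r univ h0 (by rw [card_univ]; omega))
  obtain ⟨r1, rfl⟩ : ∃ r1, r = r1 + 1 := ⟨r - 1, by
    rcases r with _ | r
    · omega
    · rfl⟩
  rw [mul_add, mul_one] at hL hLe ⊢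
  have short : ∀ T : Finset ι, T.Nonempty → ∑ j ∈ T, a j = 0 →
      Fintype.card ι ≤ T.card + p * r1 := by
    intro T h1 h2
    by_contra hc
    apply hn
    apply Pk_cons a (subset_univ T) h1 h2
    apply pack
    · rw [sum_sdiff_eq_sub (subset_univ T), h0, h2, sub_zero]
    · have := card_sdiff_add_card_eq_card (subset_univ T)
      rw [card_univ] at this
      omega
  have short2 : ∀ r2, r1 = r2 + 1 → ∀ T T' : Finset ι, T.Nonempty → ∑ j ∈ T, a j = 0 →
      T'.Nonempty → ∑ j ∈ T', a j = 0 → Disjoint T T' →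
      Fintype.card ι ≤ T.card + T'.card + p * r2 := by
    rintro r2 rfl T T' h1 h2 h3 h4 h5
    by_contra hc
    apply hn
    apply Pk_cons a (subset_univ T) h1 h2
    have h6 : T' ⊆ univ \ T := subset_sdiff.mpr ⟨subset_univ _, h5.symm⟩
    apply Pk_cons a h6 h3 h4
    apply pack
    · rw [sum_sdiff_eq_sub h6, sum_sdiff_eq_sub (subset_univ T), h0, h2, h4, sub_zero, sub_zero]
    · have := card_sdiff_add_card_eq_card (subset_univ T)
      have := card_sdiff_add_card_eq_card h6
      rw [card_univ] at *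
      omega
  obtain ⟨i0⟩ : Nonempty ι := Fintype.card_pos_iff.mp (by omega)
  by_cases hE : Fintype.card ι = p * r1 + p
  · have hZ : ∀ S : Finset ι, S.card < p → ZF a S := by
      intro S hS T hT hne h
      have := short T hne h
      have := card_le_card hT
      omega
    have hne : ∀ j, a j ≠ 0 := fun j => by
      simpa using hZ {j} (by simp; omega) {j} subset_rfl (by simp)
    refine ⟨a i0, hne i0, 0, by simp [hE], fun j => ?_⟩
    simp only [Pi.zero_apply, zero_add, Nat.cast_one, mul_one]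
    by_contra hc
    by_cases h2 : p = 2
    · subst h2
      exact hc (z2a _ _ (hne _) (hne _))
    · have hji : j ≠ i0 := fun h => hc (by rw [h])
      obtain ⟨T, h3, _, h4⟩ := exists_subsuperset_card_eq (n := p - 1) (subset_univ {j, i0})
        (by rw [card_pair hji]; omega) (by rw [card_univ]; omega)
      have h5 := hZ T (by omega)
      have := growth a h3 h5
      have := pair_sums a hc (fun T hT => h5 T (hT.trans h3))
      rw [card_pair hji] at *
      omega
  have hE' : Fintype.card ι + 1 = p * r1 + p := by omega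
  have hZ : ∀ S : Finset ι, S.card + 1 < p → ZF a S := by
    intro S hS T hT hne h
    have := short T hne h
    have := card_le_card hT
    omega
  suffices h : ∃ d : ZMod p, d ≠ 0 ∧ (∀ j, a j = d ∨ a j = 2 * d) ∧
      ∀ j j', a j ≠ d → a j' ≠ d → j = j' by
    obtain ⟨d, hd, h1, h2⟩ := h
    obtain ⟨i, hi⟩ : ∃ i, a i ≠ d := by
      by_contra hc
      push Not at hc
      simp only [hc, sum_const, card_univ, nsmul_eq_mul] at h0
      have h3 : ((Fintype.card ι + 1 : ℕ) : ZMod p) = 0 := by
        rw [hE']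
        simp
      push_cast at h3
      apply hd
      linear_combination d * h3 - h0
    refine ⟨d, hd, Pi.single i 1, by simp [← hE', add_comm], fun j => ?_⟩
    by_cases h : j = i
    · rw [h, (h1 i).resolve_left hi]
      simp
      ring
    · rw [Pi.single_eq_of_ne h, not_not.mp (fun h' => h (h2 j i h' hi))]
      simp
  by_cases h2 : p = 2
  · subst h2
    have e := z2b
    have e' := z2c
    refine ⟨1, one_ne_zero, fun j => e _, fun j j' h h' => ?_⟩
    by_contra hc
    have := short2 (r1 - 1) (by omega) {j} {j'} (by simp) (by simp [e' _ h]) (by simp)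
      (by simp [e' _ h']) (by simpa using hc)
    simp only [card_singleton] at this
    omega
  have hne : ∀ j, a j ≠ 0 := fun j => by
    simpa using hZ {j} (by simp; omega) {j} subset_rfl (by simp)
  by_cases h3 : p = 3
  · subst h3
    have e := z3a
    have e' := z3b
    by_cases hc : ∀ j j', a j ≠ 1 → a j' ≠ 1 → j = j'
    · exact ⟨1, one_ne_zero, fun j => e _ _ (hne j) one_ne_zero, hc⟩
    · push Not at hc
      obtain ⟨j, j', h4, h5, h6⟩ := hc
      refine ⟨2, z3c, fun j => e _ _ (hne j) z3c, fun l l' h7 h8 => ?_⟩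
      by_contra hc
      obtain ⟨s1, s2, s3⟩ := e' _ _ (hne j) (hne l) h4 h7
      obtain ⟨s4, s5, s6⟩ := e' _ _ (hne j') (hne l') h5 h8
      have n1 : j ≠ l := fun h => h7 (h ▸ s2)
      have n2 : j' ≠ l' := fun h => h8 (h ▸ s5)
      have n3 : j ≠ l' := fun h => h8 (h ▸ s2)
      have n4 : l ≠ j' := fun h => h7 (h ▸ s5)
      have := short2 (r1 - 1) (by omega) {j, l} {j', l'} (by simp) (by simp [n1, s1]) (by simp)
        (by simp [n2, s4]) (by simp [Ne.symm h6, Ne.symm hc, n3.symm, n4.symm])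
      rw [card_pair n1, card_pair n2] at this
      omega
  have hp5 : 5 ≤ p := by
    have : p ≠ 4 := fun h => by
      rw [h] at hp
      exact absurd hp (by decide)
    omega
  have tr : ∀ i j k, i ≠ j → i ≠ k → j ≠ k → (a i = a j → a k = a i ∨ a k = 2 * a i) ∧
      (a i ≠ a j → a i ≠ a k → a j ≠ a k → a i + a j = a k) := by
    intro i j k hij hik hjk
    have hc3 : ({i, j, k} : Finset ι).card = 3 := card_eq_three.mpr ⟨i, j, k, hij, hik, hjk, rfl⟩
    obtain ⟨T, h3, _, h4⟩ := exists_subsuperset_card_eq (n := p - 2) (subset_univ {i, j, k})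
      (by omega) (by rw [card_univ]; omega)
    have h5 := hZ T (by omega)
    have := growth a h3 h5
    exact triple a hij hik hjk (fun T hT => h5 T (hT.trans h3)) (by omega)
  have two : (2 : ZMod p) ≠ 0 := by
    intro h
    have := (ZMod.natCast_eq_zero_iff 2 p).mp (by exact_mod_cast h)
    have := Nat.le_of_dvd (by norm_num) this
    omega
  obtain ⟨i, j, hij, e⟩ : ∃ i j, i ≠ j ∧ a i = a j := by
    by_contra hc
    push Not at hc
    obtain ⟨i, j, k, hij, hik, hjk⟩ := Fintype.two_lt_card_iff.mp (show 2 < Fintype.card ι by omega)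
    have e1 := (tr i j k hij hik hjk).2 (hc _ _ hij) (hc _ _ hik) (hc _ _ hjk)
    have e2 := (tr i k j hik hij hjk.symm).2 (hc _ _ hik) (hc _ _ hij) (hc _ _ hjk.symm)
    exact mul_ne_zero two (hne i) (by linear_combination e1 + e2)
  have hv : ∀ k, a k = a i ∨ a k = 2 * a i := by
    intro k
    by_cases h1 : i = k
    · exact Or.inl (by rw [h1])
    by_cases h2 : j = k
    · exact Or.inl (by rw [← h2, e])
    exact (tr i j k hij h1 h2).1 e
  refine ⟨a i, hne i, hv, fun k k' h h' => ?_⟩
  by_contra hc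
  have e1 := (hv k).resolve_left h
  have e2 := (hv k').resolve_left h'
  have n1 : k ≠ i := fun h1 => h (by rw [h1])
  have n2 : k' ≠ i := fun h1 => h' (by rw [h1])
  have e3 := ((tr k k' i hc n1 n2).1 (e1.trans e2.symm)).resolve_left (fun h1 => h h1.symm)
  apply hZ {k, i} (by rw [card_pair n1]; omega) {k, i} subset_rfl (by simp)
  rw [sum_pair n1]
  linear_combination e1 - e3 - 2 * e1 + 0 * e2

omit [NeZero p] in
theorem split_of_Pk [Fintype ι] {r : ℕ} (ha : a ≠ 0) (h0 : ∑ j, a j = 0) (h : Pk a univ (r + 1)) :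
    ∃ c : ι → Option (Option (Fin r)), Function.Surjective c ∧
      (∀ k : Fin r → ZMod p, a ⬝ᵥ (fun j => lam 0 0 k (c j)) = 0) ∧
      ∃ i, c i = some none ∧ a i ≠ 0 := by
  obtain ⟨i, hi⟩ := Function.ne_iff.mp ha
  obtain ⟨B, hB, hd⟩ := Pk_drop a h i
  let c : ι → Option (Option (Fin r)) := fun j =>
    if j = i then some none else if h : ∃ t, j ∈ B t then some (some h.choose) else none
  have hiB : ∀ t, i ∉ B t := fun t h => by simpa using (hB t).1 h
  have hc : ∀ t j, j ∈ B t → c j = some (some t) := by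
    intro t j hj
    have h1 : j ≠ i := fun h => hiB t (h ▸ hj)
    have h2 : ∃ t, j ∈ B t := ⟨t, hj⟩
    simp only [c, if_neg h1, dif_pos h2]
    by_contra hne
    exact disjoint_left.mp (hd _ t (fun h => hne (by rw [h]))) h2.choose_spec hj
  have hk : ∀ k : Fin r → ZMod p, a ⬝ᵥ (fun j => lam 0 0 k (c j)) = 0 := by
    intro k
    have : ∀ j, a j * lam 0 0 k (c j) = ∑ t, k t * if j ∈ B t then a j else 0 := by
      intro j
      by_cases h : ∃ t, j ∈ B t
      · obtain ⟨t, ht⟩ := h
        rw [hc t j ht, sum_eq_single t]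
        · simp [lam, ht, mul_comm]
        · intro s _ hs
          rw [if_neg (fun h => disjoint_left.mp (hd s t hs) h ht), mul_zero]
        · simp
      · have h' := h
        push Not at h'
        simp only [h', if_false, mul_zero, sum_const_zero]
        simp only [c, dif_neg h]
        split_ifs <;> simp [lam]
    simp only [dotProduct, this]
    rw [sum_comm]
    apply sum_eq_zero
    intro t _
    rw [← mul_sum, sum_ite_mem, univ_inter, (hB t).2.2, mul_zero]
  refine ⟨c, ?_, hk, i, by simp [c], hi⟩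
  rintro (_ | _ | t)
  · by_contra hne
    push Not at hne
    have h1 := hk 1
    have : ∀ j, a j * lam 0 0 (1 : Fin r → ZMod p) (c j) = a j - if j = i then a j else 0 := by
      intro j
      have := hne j
      simp only [c] at this ⊢
      split_ifs at this ⊢ <;> simp_all [lam]
    simp only [dotProduct, this, sum_sub_distrib, h0, sum_ite_eq', mem_univ, if_true] at h1
    exact hi (by simpa using h1)
  · exact ⟨i, by simp [c]⟩
  · obtain ⟨j, hj⟩ := (hB t).2.1
    exact ⟨j, hc t j hj⟩

theorem main_comb [Fintype ι] (hp : p.Prime) {r : ℕ} {M : Matrix (Fin r) ι ℂ}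
    {H : AddSubgroup (ι → ZMod p)} (hM : MDS M) (hr : r + 2 ≤ Fintype.card ι)
    (hL : p * r ≤ Fintype.card ι + 1)
    (hH : ∀ b : ι → ℕ, ∑ j, b j + Fintype.card ι = p * r →
      ∃ h ∈ H, ∑ j, ((b j + 1 : ℕ) : ZMod p) * h j ≠ 0) :
    ∃ (Q : MvPolynomial ι ℂ) (d : ℕ), Q.IsHomogeneous d ∧ Dense (Zopen p M H Q) ∧
      ∀ i, RestrictionZero (Zopen p M H Q) i := by
  apply main_split hM hr
  intro a ha h1 h2
  apply split_of_Pk a ha h2
  by_contra hn
  obtain ⟨d, hd, b, hb, e⟩ := classify a hp hr hL h2 hn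
  obtain ⟨h, hh, h3⟩ := hH b hb
  have := Fact.mk hp
  apply mul_ne_zero hd h3
  rw [← h1 h hh, mul_sum]
  simp only [dotProduct, e, mul_assoc]

end

end Pool.Agent.MP_1c689d_ag

end

section

set_option autoImplicit false

namespace Pool.Agent.MP_1c689d_ag

noncomputable section

open Matrix

variable {p : ℕ} {ι : Type} [Fintype ι] [DecidableEq ι] {r n : ℕ} {M : Matrix (Fin r) ι ℂ}

/-- differential of the equations -/
def JJ (p : ℕ) (M : Matrix (Fin r) ι ℂ) (z v : ι → ℂ) : Fin r → ℂ :=
  M *ᵥ (fun j => z j ^ (p - 1) * v j)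

/-- matrix of a frame -/
def NN (ε : Fin (n + 1) ⊕ Fin r ≃ ι) (vs : Fin (n + 1) → ι → ℂ) (w : Fin r → ι → ℂ) :
    Matrix (Fin (n + 1) ⊕ Fin r) (Fin (n + 1) ⊕ Fin r) ℂ :=
  Matrix.of fun a a' => Sum.elim vs w a (ε a')

/-- matrix of a coframe -/
def PP (p : ℕ) (M : Matrix (Fin r) ι ℂ) (ε : Fin (n + 1) ⊕ Fin r ≃ ι) (g : Fin (n + 1) → ι)
    (z : ι → ℂ) : Matrix (Fin (n + 1) ⊕ Fin r) (Fin (n + 1) ⊕ Fin r) ℂ :=
  Matrix.of fun a' c =>
    Sum.elim (fun o => if ε a' = g o then 1 else 0) (fun k => M k (ε a') * z (ε a') ^ (p - 1)) c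

theorem vecMul_PP (ε : Fin (n + 1) ⊕ Fin r ≃ ι) (g : Fin (n + 1) → ι) (z y : ι → ℂ) :
    (fun a => y (ε a)) ᵥ* PP p M ε g z = Sum.elim (fun o => y (g o)) (JJ p M z y) := by
  funext c
  rcases c with o | k
  · simp only [vecMul, dotProduct, PP, of_apply, Sum.elim_inl]
    rw [Equiv.sum_comp ε (fun j => y j * if j = g o then 1 else 0)]
    simp
  · simp only [vecMul, dotProduct, PP, of_apply, Sum.elim_inr, JJ, mulVec]
    rw [Equiv.sum_comp ε (fun j => y j * (M k j * z j ^ (p - 1)))]
    exact Finset.sum_congr rfl (fun j _ => by ring)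

theorem det_NN (ε : Fin (n + 1) ⊕ Fin r ≃ ι) (g : Fin (n + 1) → ι) (z : ι → ℂ)
    (vs : Fin (n + 1) → ι → ℂ) (w : Fin r → ι → ℂ) (hv : ∀ o, JJ p M z (vs o) = 0)
    (hw : ∀ k, JJ p M z (w k) = Pi.single k 1) :
    (NN ε vs w).det * (PP p M ε g z).det = (Matrix.of fun o o' => vs o (g o')).det := by
  rw [← det_mul]
  have : NN ε vs w * PP p M ε g z =
      fromBlocks (Matrix.of fun o o' => vs o (g o')) 0 (Matrix.of fun k o' => w k (g o')) 1 := by
    ext a c
    have h1 : (NN ε vs w * PP p M ε g z) a c =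
        ((fun a' => Sum.elim vs w a (ε a')) ᵥ* PP p M ε g z) c := rfl
    rw [h1, vecMul_PP]
    rcases a with o | k <;> rcases c with o' | k' <;> simp [hv, hw, one_apply, Pi.single_apply,
      eq_comm]
  rw [this, det_fromBlocks_zero₁₂, det_one, mul_one]

omit [Fintype ι] in
theorem eq_sum_single (f : Fin r → ι) (hf : Function.Injective f) (u : ι → ℂ)
    (hu : ∀ j, (∀ q, f q ≠ j) → u j = 0) : u = ∑ q, u (f q) • Pi.single (f q) (1 : ℂ) := by
  funext j
  by_cases h : ∃ q, f q = j
  · obtain ⟨q, rfl⟩ := h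
    simp [Finset.sum_apply, Pi.single_apply, hf.eq_iff]
  · push Not at h
    simp [Finset.sum_apply, hu j h, fun q => (h q).symm]

theorem zero_of_supp (hM : MDS M) (f : Fin r → ι) (hf : Function.Injective f) (u : ι → ℂ)
    (hu : ∀ j, (∀ q, f q ≠ j) → u j = 0) (h : M *ᵥ u = 0) : u = 0 := by
  rw [eq_sum_single f hf u hu, mulVec_sum_single] at h
  have := eq_zero_of_mulVec_eq_zero (hM f hf) h
  rw [eq_sum_single f hf u hu]
  apply Finset.sum_eq_zero
  intro q _
  rw [show u (f q) = 0 from congrFun this q, zero_smul]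

theorem det_PP (hM : MDS M) (ε : Fin (n + 1) ⊕ Fin r ≃ ι) (f : Fin r → ι)
    (hf : Function.Injective f) (g : Fin (n + 1) → ι) (hg : ∀ j, (∀ q, f q ≠ j) → ∃ o, g o = j)
    (z : ι → ℂ) (hz : ∀ q, z (f q) ≠ 0) : (PP p M ε g z).det ≠ 0 := by
  intro h
  obtain ⟨y, hy, h1⟩ := exists_vecMul_eq_zero_iff.mpr h
  have h2 := vecMul_PP (p := p) (M := M) ε g z (fun j => y (ε.symm j))
  simp only [Equiv.symm_apply_apply] at h2
  rw [h1] at h2
  have h3 : ∀ j, (∀ q, f q ≠ j) → y (ε.symm j) = 0 := by
    intro j hj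
    obtain ⟨o, rfl⟩ := hg j hj
    exact (congrFun h2 (Sum.inl o)).symm
  have h4 := zero_of_supp hM f hf (fun j => z j ^ (p - 1) * y (ε.symm j))
    (fun j hj => by rw [h3 j hj, mul_zero]) (funext fun k => (congrFun h2 (Sum.inr k)).symm)
  apply hy
  funext a
  rw [← ε.symm_apply_apply a]
  by_cases h5 : ∃ q, f q = ε a
  · obtain ⟨q, hq⟩ := h5
    exact (mul_eq_zero.mp (congrFun h4 (ε a))).resolve_left (pow_ne_zero _ (hq ▸ hz q))
  · push Not at h5
    exact h3 _ h5

theorem exists_compl (hc : Fintype.card ι = n + 1 + r) (f : Fin r → ι) (hf : Function.Injective f) :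
    ∃ g : Fin (n + 1) → ι, Function.Injective g ∧ (∀ o q, f q ≠ g o) ∧
      ∀ j, (∀ q, f q ≠ j) → ∃ o, g o = j := by
  have h : (Finset.univ \ Finset.univ.image f).card = n + 1 := by
    rw [Finset.card_sdiff_of_subset (Finset.subset_univ _), Finset.card_image_of_injective _ hf]
    simp [hc]
  let e := (Finset.equivFinOfCardEq h).symm
  refine ⟨fun o => e o, Subtype.val_injective.comp e.injective, fun o q => ?_, fun j hj => ?_⟩
  · have := (e o).2
    simp only [Finset.mem_sdiff, Finset.mem_univ, Finset.mem_image, true_and, not_exists] at this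
    exact this q
  · exact ⟨e.symm ⟨j, by simpa using hj⟩, by simp⟩

theorem exists_good [NeZero p] (hM : MDS M) (hc : r ≤ Fintype.card ι) (x : Cone p M) :
    ∃ f : Fin r → ι, Function.Injective f ∧ ∀ q, x.1 (f q) ≠ 0 := by
  have key : ∀ S : Finset ι, S.card = r → ∃ f : Fin r → ι, Function.Injective f ∧
      (∀ q, f q ∈ S) ∧ ∀ j ∈ S, ∃ q, f q = j := by
    intro S hS
    let e := (Finset.equivFinOfCardEq hS).symm
    exact ⟨fun q => e q, Subtype.val_injective.comp e.injective, fun q => (e q).2,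
      fun j hj => ⟨e.symm ⟨j, hj⟩, by simp⟩⟩
  by_cases h : r ≤ (Finset.univ.filter (fun j => x.1 j ≠ 0)).card
  · obtain ⟨S, h1, h2⟩ := Finset.exists_subset_card_eq h
    obtain ⟨f, h3, h4, _⟩ := key S h2
    exact ⟨f, h3, fun q => (Finset.mem_filter.mp (h1 (h4 q))).2⟩
  · obtain ⟨S, h1, _, h2⟩ := Finset.exists_subsuperset_card_eq (n := r)
      (Finset.subset_univ (Finset.univ.filter (fun j => x.1 j ≠ 0))) (by omega) (by simpa using hc)
    obtain ⟨f, h3, _, h4⟩ := key S h2
    have := zero_of_supp hM f h3 (fun j => x.1 j ^ p) (fun j hj => by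
      by_contra h5
      obtain ⟨q, hq⟩ := h4 j (h1 (by
        simp only [Finset.mem_filter, Finset.mem_univ, true_and]
        intro h6
        exact h5 (by rw [h6, zero_pow (NeZero.ne p)])))
      exact hj q hq) x.2.2
    exfalso
    apply x.2.1
    funext j
    exact (pow_eq_zero_iff (NeZero.ne p)).mp (congrFun this j)

/-- local dual frame -/
def WW (p : ℕ) (M : Matrix (Fin r) ι ℂ) (f : Fin r → ι) (z : ι → ℂ) (k : Fin r) : ι → ℂ :=
  ∑ q, ((M.submatrix id f)⁻¹ q k * (z (f q) ^ (p - 1))⁻¹) • Pi.single (f q) (1 : ℂ)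

theorem JJ_WW (hM : MDS M) (f : Fin r → ι) (hf : Function.Injective f) (z : ι → ℂ)
    (hz : ∀ q, z (f q) ≠ 0) (k : Fin r) : JJ p M z (WW p M f z k) = Pi.single k 1 := by
  have e : (fun j => z j ^ (p - 1) * WW p M f z k j) =
      ∑ q, (M.submatrix id f)⁻¹ q k • Pi.single (f q) (1 : ℂ) := by
    funext j
    simp only [WW, Finset.sum_apply, Finset.mul_sum, Pi.smul_apply, smul_eq_mul]
    apply Finset.sum_congr rfl
    intro q _
    by_cases h : j = f q
    · have := pow_ne_zero (p - 1) (hz q)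
      rw [h]
      field_simp
    · simp [h]
  rw [JJ, e, mulVec_sum_single]
  have h1 : (fun q => (M.submatrix id f)⁻¹ q k) = (M.submatrix id f)⁻¹ *ᵥ Pi.single k 1 := by
    rw [mulVec_single_one]
    rfl
  rw [h1, mulVec_mulVec, mul_nonsing_inv _ (isUnit_iff_ne_zero.mpr (hM f hf)), one_mulVec]

/-- the alternating form obtained by fixing part of the frame -/
def altF (ε : Fin (n + 1) ⊕ Fin r ≃ ι) (z : ι → ℂ) (w : Fin r → ι → ℂ) :
    AlternatingMap ℂ (ι → ℂ) ℂ (Fin n) where
  toFun v := (NN ε (Fin.cons z v) w).det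
  map_update_add' := by
    intro inst v i x y
    have e : ∀ u, NN ε (Fin.cons z (Function.update v i u)) w =
        (NN ε (Fin.cons z v) w).updateRow (Sum.inl i.succ) (fun a => u (ε a)) := by
      intro u
      ext a a'
      rcases a with o | k
      · refine Fin.cases ?_ (fun i' => ?_) o
        · simp [NN, updateRow_apply, (Fin.succ_ne_zero i).symm]
        · by_cases h : i' = i
          · simp [NN, h]
          · simp [NN, h, updateRow_apply]
      · simp [NN, updateRow_apply]
    rw [e, e, e]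
    exact det_updateRow_add _ _ (fun a => x (ε a)) (fun a => y (ε a))
  map_update_smul' := by
    intro inst v i c x
    have e : ∀ u, NN ε (Fin.cons z (Function.update v i u)) w =
        (NN ε (Fin.cons z v) w).updateRow (Sum.inl i.succ) (fun a => u (ε a)) := by
      intro u
      ext a a'
      rcases a with o | k
      · refine Fin.cases ?_ (fun i' => ?_) o
        · simp [NN, updateRow_apply, (Fin.succ_ne_zero i).symm]
        · by_cases h : i' = i
          · simp [NN, h]
          · simp [NN, h, updateRow_apply]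
      · simp [NN, updateRow_apply]
    rw [e, e]
    exact det_updateRow_smul _ _ c (fun a => x (ε a))
  map_eq_zero_of_eq' := by
    intro v i j h hij
    apply det_zero_of_row_eq (i := Sum.inl i.succ) (j := Sum.inl j.succ) (by simpa using hij)
    funext a
    simp [NN, h]

omit [DecidableEq ι] in
theorem diffOn_prod {A : Type} (S : Finset A) (F : A → (ι → ℂ) → ℂ) (W : Set (ι → ℂ))
    (h : ∀ a ∈ S, DifferentiableOn ℂ (F a) W) :
    DifferentiableOn ℂ (fun z => ∏ a ∈ S, F a z) W := by
  classical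
  induction S using Finset.induction_on with
  | empty => simp
  | insert a S ha ih =>
    simp only [Finset.prod_insert ha]
    exact (h a (Finset.mem_insert_self _ _)).mul
      (ih (fun a' ha' => h a' (Finset.mem_insert_of_mem ha')))

omit [Fintype ι] in
theorem ee_sum [NeZero p] (S : Finset ι) (k : ι → ZMod p) :
    ee p (∑ j ∈ S, k j) = ∏ j ∈ S, ee p (k j) := by
  induction S using Finset.induction_on with
  | empty => simp
  | insert j S hj ih => rw [Finset.sum_insert hj, Finset.prod_insert hj, ee_add, ih]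

theorem exists_form [NeZero p] {H : AddSubgroup (ι → ZMod p)} (hM : MDS M) (hn : 1 ≤ n)
    (hc : Fintype.card ι = n + 1 + r) (b : ι → ℕ) (hb : ∑ j, b j + Fintype.card ι = p * r)
    (hH : ∀ h ∈ H, ∑ j, ((b j + 1 : ℕ) : ZMod p) * h j = 0) : ¬ NoForm p M H n := by
  intro hno
  let ε : Fin (n + 1) ⊕ Fin r ≃ ι := Fintype.equivOfCardEq (by simp [hc])
  choose f hf hx using exists_good (p := p) hM (by omega)
  have hp1 : p - 1 + 1 = p := Nat.sub_add_cancel (Nat.pos_of_ne_zero (NeZero.ne p))
  have hcons : ∀ (x : Cone p M) (v : Fin n → ι → ℂ), (∀ i, Tan p M x.1 (v i)) →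
      ∀ o, JJ p M x.1 ((Fin.cons x.1 v : Fin (n + 1) → ι → ℂ) o) = 0 := by
    intro x v hv o
    refine Fin.cases ?_ (fun i => hv i) o
    simp only [JJ, Fin.cons_zero, ← pow_succ, hp1]
    exact x.2.2
  have indep : ∀ (x : Cone p M) (v : Fin n → ι → ℂ), (∀ i, Tan p M x.1 (v i)) →
      ∀ w : Fin r → ι → ℂ, (∀ k, JJ p M x.1 (w k) = Pi.single k 1) →
      (NN ε (Fin.cons x.1 v) (WW p M (f x) x.1)).det = (NN ε (Fin.cons x.1 v) w).det := by
    intro x v hv w hw
    obtain ⟨g, _, _, hg⟩ := exists_compl hc (f x) (hf x)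
    apply mul_right_cancel₀ (det_PP (p := p) hM ε (f x) (hf x) g hg x.1 (hx x))
    rw [det_NN ε g x.1 _ _ (hcons x v hv) hw,
      det_NN ε g x.1 _ _ (hcons x v hv) (JJ_WW hM _ (hf x) _ (hx x))]
  have hform : IsForm p M H n (fun x v =>
      (∏ j, x.1 j ^ b j) * (NN ε (Fin.cons x.1 v) (WW p M (f x) x.1)).det) := by
    refine ⟨fun x => ⟨{z | ∀ q, z (f x q) ≠ 0},
      fun z => (∏ j, z j ^ b j) • altF ε z (WW p M (f x) z), ?_, hx x, fun v => ?_,
      fun y hy v hv => ?_⟩, ?_, ?_⟩
    · rw [Set.ofPred_forall]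
      exact isOpen_iInter_of_finite (fun q => isOpen_ne_fun (continuous_apply _) continuous_const)
    · show DifferentiableOn ℂ (fun z : ι → ℂ =>
        (∏ j, z j ^ b j) * (NN ε (Fin.cons z v) (WW p M (f x) z)).det) _
      apply DifferentiableOn.mul (diffOn_prod _ _ _ (fun j _ => by fun_prop))
      simp only [det_apply']
      apply DifferentiableOn.fun_sum
      intro σ _
      apply DifferentiableOn.const_mul
      apply diffOn_prod
      intro a _
      rcases σ a with o | k
      · refine Fin.cases ?_ (fun i => ?_) o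
        · simp only [NN, of_apply, Sum.elim_inl, Fin.cons_zero]
          fun_prop
        · simp only [NN, of_apply, Sum.elim_inl, Fin.cons_succ]
          fun_prop
      · simp only [NN, of_apply, Sum.elim_inr, WW, Finset.sum_apply, Pi.smul_apply, smul_eq_mul]
        apply DifferentiableOn.fun_sum
        intro q _
        apply DifferentiableOn.mul_const
        apply DifferentiableOn.const_mul
        exact DifferentiableOn.inv (by fun_prop) (fun z hz => pow_ne_zero _ (hz q))
    · show _ = (∏ j, y.1 j ^ b j) * (NN ε (Fin.cons y.1 v) (WW p M (f x) y.1)).det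
      rw [indep y v hv _ (JJ_WW hM _ (hf x) _ hy)]
    · rintro x v _ ⟨i, hi⟩
      rw [det_zero_of_row_eq (i := Sum.inl 0) (j := Sum.inl i.succ)
        (by simpa using (Fin.succ_ne_zero i).symm) (by funext a; simp [NN, hi]), mul_zero]
    · intro x y c h hh e v hv
      have hc0 : c ≠ 0 := by
        intro h0
        apply y.2.1
        funext j
        rw [e j, h0]
        simp
      have hJ : ∀ u : ι → ℂ, JJ p M y.1 (fun j => c * ee p (h j) * u j) = c ^ p • JJ p M x.1 u := by
        intro u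
        rw [JJ, JJ, ← mulVec_smul]
        congr 1
        funext j
        have h1 := ee_pow p (h j)
        have h2 : c ^ p = c ^ (p - 1) * c := by rw [← pow_succ, hp1]
        have h3 : ee p (h j) ^ p = ee p (h j) ^ (p - 1) * ee p (h j) := by rw [← pow_succ, hp1]
        simp only [e j, mul_pow, Pi.smul_apply, smul_eq_mul, h2]
        linear_combination (c ^ (p - 1) * c * x.1 j ^ (p - 1) * u j) * (h1 - h3)
      rw [indep y _ (fun i => by
          show JJ p M y.1 _ = 0
          rw [hJ, show JJ p M x.1 (v i) = 0 from hv i, smul_zero])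
        (fun k j => c * ee p (h j) * ((c ^ p)⁻¹ • WW p M (f x) x.1 k) j) (fun k => by
          rw [hJ]
          have : JJ p M x.1 ((c ^ p)⁻¹ • WW p M (f x) x.1 k) =
              (c ^ p)⁻¹ • JJ p M x.1 (WW p M (f x) x.1 k) := by
            rw [JJ, JJ, ← mulVec_smul]
            congr 1
            funext j
            simp only [Pi.smul_apply, smul_eq_mul]
            ring
          rw [this, smul_smul, mul_inv_cancel₀ (pow_ne_zero _ hc0), one_smul,
            JJ_WW hM _ (hf x) _ (hx x)])]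
      have e2 : NN ε (Fin.cons y.1 (fun i j => c * ee p (h j) * v i j))
          (fun k j => c * ee p (h j) * ((c ^ p)⁻¹ • WW p M (f x) x.1 k) j) =
          diagonal (Sum.elim (fun _ => 1) (fun _ => (c ^ p)⁻¹)) *
            NN ε (Fin.cons x.1 v) (WW p M (f x) x.1) * diagonal (fun a => c * ee p (h (ε a))) := by
        ext a a'
        rw [mul_diagonal, diagonal_mul]
        rcases a with o | k
        · refine Fin.cases ?_ (fun i => ?_) o
          · simp only [NN, of_apply, Sum.elim_inl, Fin.cons_zero, e]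
            ring
          · simp only [NN, of_apply, Sum.elim_inl, Fin.cons_succ]
            ring
        · simp only [NN, of_apply, Sum.elim_inr, Pi.smul_apply, smul_eq_mul]
          ring
      rw [e2, det_mul, det_mul, det_diagonal, det_diagonal,
        Equiv.prod_comp ε (fun j => c * ee p (h j)), Fintype.prod_sum_type]
      have h1 : (∏ j, ee p (h j) ^ b j) * ∏ j, ee p (h j) = 1 := by
        rw [← ee_zero p, ← hH h hh, ee_sum, ← Finset.prod_mul_distrib]
        apply Finset.prod_congr rfl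
        intro j _
        rw [← nsmul_eq_mul, ← pow_succ]
        exact (AddChar.map_nsmul_eq_pow _ _ _).symm
      have h2 : c ^ (∑ j, b j) * c ^ Fintype.card ι * ((c ^ p)⁻¹) ^ r = 1 := by
        rw [← pow_add, hb, pow_mul, ← mul_pow, mul_inv_cancel₀ (pow_ne_zero _ hc0), one_pow]
      simp only [e, mul_pow, Finset.prod_mul_distrib, Finset.prod_pow_eq_pow_sum, Sum.elim_inl,
        Sum.elim_inr, Finset.prod_const, Finset.card_univ, Fintype.card_fin, one_pow, one_mul]
      linear_combination ((∏ j, x.1 j ^ b j) * (NN ε (Fin.cons x.1 v) (WW p M (f x) x.1)).det) *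
        ((c ^ (∑ j, b j) * c ^ Fintype.card ι * ((c ^ p)⁻¹) ^ r) * h1 + h2)
  obtain ⟨u0, _, _, hu0, hu1, _⟩ := exists_Q p hM (by omega)
  have h0 : ∀ j, prt p (u0 j) ≠ 0 := by
    intro j h
    have := prt_pow p (u0 j)
    rw [h, zero_pow (NeZero.ne p)] at this
    exact hu1 j this.symm
  let x : Cone p M := ⟨fun j => prt p (u0 j), fun h => h0 (ε (Sum.inl 0)) (congrFun h _),
    by simpa only [prt_pow] using hu0⟩
  obtain ⟨g, hg1, hg2, hg3⟩ := exists_compl hc (f x) (hf x)
  let v : Fin n → ι → ℂ := fun i => Pi.single (g i.succ) 1 -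
    ∑ k, JJ p M x.1 (Pi.single (g i.succ) 1) k • WW p M (f x) x.1 k
  let J : (ι → ℂ) →ₗ[ℂ] (Fin r → ℂ) := (M * diagonal (fun j => x.1 j ^ (p - 1))).mulVecLin
  have hJ : ∀ u, JJ p M x.1 u = J u := by
    intro u
    simp only [J, mulVecLin_apply, ← mulVec_mulVec, JJ]
    congr 1
    funext j
    rw [mulVec_diagonal]
  have hv : ∀ i, Tan p M x.1 (v i) := by
    intro i
    show JJ p M x.1 (v i) = 0
    rw [hJ, map_sub, map_sum]
    simp only [map_smul]
    simp only [← hJ, JJ_WW hM _ (hf x) _ (hx x)]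
    funext k
    simp [Finset.sum_apply, Pi.single_apply]
  have h1 := hno _ hform x v hv
  have h2 := det_NN ε g x.1 _ _ (hcons x v hv) (JJ_WW hM _ (hf x) _ (hx x))
  rw [(mul_eq_zero.mp h1).resolve_left (Finset.prod_ne_zero_iff.mpr
    (fun j _ => pow_ne_zero _ (h0 j))), zero_mul] at h2
  have hvg : ∀ i o, v i (g o) = if o = i.succ then 1 else 0 := by
    intro i o
    simp [v, WW, Finset.sum_apply, Pi.single_apply, hg1.eq_iff, fun q => (hg2 o q).symm]
  rw [det_of_isUpperTriangular (by
    intro o o' hlt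
    revert hlt
    refine Fin.cases (fun h => absurd h (by simp)) (fun i h => ?_) o
    simp only [of_apply, Fin.cons_succ, hvg]
    exact if_neg (ne_of_lt h)), Fin.prod_univ_succ] at h2
  simp only [of_apply, Fin.cons_zero, Fin.cons_succ, hvg, if_true, Finset.prod_const_one,
    mul_one] at h2
  exact h0 _ h2.symm

theorem main_form [NeZero p] (hp : p.Prime) {H : AddSubgroup (ι → ZMod p)} (hM : MDS M)
    (hn : 1 ≤ n) (hc : Fintype.card ι = n + 1 + r) (hL : p * r ≤ Fintype.card ι + 1)
    (hH : NoForm p M H n) :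
    ∃ (Q : MvPolynomial ι ℂ) (d : ℕ), Q.IsHomogeneous d ∧ Dense (Zopen p M H Q) ∧
      ∀ i, RestrictionZero (Zopen p M H Q) i := by
  apply main_comb hp hM (by omega) hL
  intro b hb
  by_contra hne
  push Not at hne
  exact exists_form hM hn hc b hb hne hH

end

end Pool.Agent.MP_1c689d_ag

end
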